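import Pool.Agent.Strip051.G.I7_16_1_2.Gn
import Pool.Agent.Strip051.PB.Corns

/-! # Certificates of the aligned corners (generated) -/

set_option linter.all false

namespace Pool.Agent.Strip051.G.I7_16_1_2.Tab.CF

open Pool.Agent.Strip051.PB

def A011E_000 :
    ∃ t, chk3 (onCell 0 67108864 0 1073741824 469762048 67108864 (corT true 1 c0F cA011E gF0q0 gF0q1 gF0q1 gF1q1 true false)) t 1 1 1 = true :=
  ⟨(T.l 1), by decide +kernel⟩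

def A011L_001 :
    ∃ t, chk3 (onCell 0 67108864 0 1073741824 469762048 67108864 (corT true 1 c0F cA011L gF0q0 gF0q1 gF1q1 gF2q1 false true)) t 1 1 1 = true :=
  ⟨(T.l 2), by decide +kernel⟩

def A011L_002 :
    ∃ t, chk3 (onCell 0 67108864 0 1073741824 469762048 67108864 (corT true 1 c0F cA011L gF0q0 gF0q1 gF2q1 gF3q1 true true)) t 1 1 1 = true :=
  ⟨(T.l 2), by decide +kernel⟩

def A011L_003 :
    ∃ t, chk3 (onCell 0 67108864 0 1073741824 469762048 67108864 (corT true 1 c0F cA011L gF0q0 gF0q1 gF3q1 gF4q1 true true)) t 1 1 1 = true :=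
  ⟨(T.l 2), by decide +kernel⟩

def A011R_020 :
    ∃ t, chk3 (onCell 0 67108864 0 1073741824 469762048 67108864 (corT true 1 c0F cA011R gF0q0 gF2q1 gF0q1 gF1q1 true false)) t 1 1 1 = true :=
  ⟨(T.b (T.b (T.b (T.b (T.l 204) (T.b (T.l 204) (T.l 1))) (T.l 1)) (T.l 1)) (T.l 1)), by decide +kernel⟩

def A011R_030 :
    ∃ t, chk3 (onCell 0 67108864 0 1073741824 469762048 67108864 (corT true 1 c0F cA011R gF0q0 gF3q1 gF0q1 gF1q1 true false)) t 1 1 1 = true :=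
  ⟨(T.b (T.b (T.b (T.l 0) (T.b (T.l 0) (T.b (T.a (T.l 1) (T.l 1)) (T.l 1)))) (T.l 1)) (T.l 1)), by decide +kernel⟩

def A011R_040 :
    ∃ t, chk3 (onCell 0 67108864 0 1073741824 469762048 67108864 (corX 1 c0F cA011R tA011R gF0q0 gF4q1 gF0q1 gF1q1 gF0q1 true false)) t 1 1 1 = true :=
  ⟨(T.b (T.b (T.l 3) (T.l 3)) (T.l 1)), by decide +kernel⟩

def A011R_120 :
    ∃ t, chk3 (onCell 0 67108864 0 1073741824 469762048 67108864 (corT true 1 c0F cA011R gF1q0 gF2q1 gF0q1 gF1q1 true false)) t 1 1 1 = true :=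
  ⟨(T.l 1), by decide +kernel⟩

def A011R_130 :
    ∃ t, chk3 (onCell 0 67108864 0 1073741824 469762048 67108864 (corT true 1 c0F cA011R gF1q0 gF3q1 gF0q1 gF1q1 true false)) t 1 1 1 = true :=
  ⟨(T.l 1), by decide +kernel⟩

def A011R_140 :
    ∃ t, chk3 (onCell 0 67108864 0 1073741824 469762048 67108864 (corT true 1 c0F cA011R gF1q0 gF4q1 gF0q1 gF1q1 true false)) t 1 1 1 = true :=
  ⟨(T.l 1), by decide +kernel⟩

def A012E_000 :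
    ∃ t, chk3 (onCell 0 67108864 0 1073741824 469762048 67108864 (corX 1 c0F cA012E tA012E gF0q0 gF0q1 gF0q2 gF1q2 gF0q2 true true)) t 1 1 1 = true :=
  ⟨(T.b (T.b (T.l 1) (T.b (T.l 1) (T.b (T.l 1) (T.b (T.l 1) (T.a (T.b (T.l 1) (T.a (T.c (T.l 819) (T.l 819)) (T.c (T.l 819) (T.l 819)))) (T.a (T.c (T.l 883) (T.l 883)) (T.a (T.c (T.l 883) (T.l 819)) (T.a (T.l 883) (T.c (T.b (T.c (T.l 883) (T.l 883)) (T.c (T.l 883) (T.l 883))) (T.b (T.l 883) (T.l 883))))))))))) (T.b (T.a (T.a (T.a (T.b (T.l 883) (T.l 883)) (T.a (T.l 819) (T.l 883))) (T.a (T.b (T.b (T.l 819) (T.l 819)) (T.b (T.l 819) (T.l 2))) (T.b (T.b (T.l 883) (T.l 883)) (T.b (T.l 819) (T.l 2))))) (T.b (T.a (T.a (T.b (T.l 883) (T.l 883)) (T.c (T.b (T.l 819) (T.l 819)) (T.l 883))) (T.b (T.b (T.a (T.c (T.l 819) (T.l 819)) (T.b (T.c (T.a (T.c (T.l 883) (T.l 883)) (T.c (T.l 883) (T.l 883))) (T.a (T.l 883)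 (T.l 883))) (T.c (T.a (T.c (T.l 883) (T.l 883)) (T.l 883)) (T.a (T.l 883) (T.l 883))))) (T.a (T.b (T.l 883) (T.a (T.l 819) (T.c (T.l 883) (T.l 883)))) (T.a (T.c (T.b (T.l 883) (T.l 883)) (T.b (T.l 883) (T.l 819))) (T.c (T.l 883) (T.l 883))))) (T.a (T.b (T.a (T.c (T.b (T.l 819) (T.l 883)) (T.l 883)) (T.c (T.b (T.l 883) (T.l 883)) (T.b (T.l 883) (T.l 819)))) (T.a (T.c (T.b (T.l 883) (T.l 883)) (T.b (T.l 819) (T.l 819))) (T.c (T.l 883) (T.l 883)))) (T.a (T.b (T.c (T.l 883) (T.l 883)) (T.c (T.l 819) (T.l 819))) (T.b (T.c (T.l 819) (T.l 819)) (T.c (T.l 819) (T.l 819))))))) (T.b (T.b (T.a (T.a (T.l 819) (T.a (T.l 819) (T.c (T.b (T.l 819) (T.l 819)) (T.l 883)))) (T.a (T.a (T.c (T.b (T.l 819) (T.l 819)) (T.l 883)) (T.c (T.l 819) (T.l 819))) (T.a (T.c (T.l 819) (T.l 819)) (T.l 883)))) (T.a (T.a (T.l 819) (T.l 2)) (T.l 2))) (T.l 2)))) (T.l 2))), by decide +kernel⟩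

def A012E_001_1_2_1 :
    ∃ t, chk3 (onCell 0 67108864 0 1073741824 469762048 67108864 (corT true 1 c0F cA012E gF0q0 gF0q1 gF1q2 gF2q2 true false)) t 1 2 1 = true :=
  ⟨(T.l 1), by decide +kernel⟩

def A012E_001_1_6_1 :
    ∃ t, chk3 (onCell 0 67108864 0 1073741824 469762048 67108864 (corT true 1 c0F cA012E gF0q0 gF0q1 gF1q2 gF2q2 true false)) t 1 6 1 = true :=
  ⟨(T.b (T.l 1) (T.a (T.b (T.b (T.a (T.l 1) (T.c (T.l 816) (T.l 816))) (T.c (T.l 880) (T.l 880))) (T.c (T.a (T.l 816) (T.l 880)) (T.a (T.l 880) (T.l 880)))) (T.a (T.a (T.b (T.b (T.l 880) (T.l 880)) (T.b (T.l 880) (T.l 880))) (T.b (T.a (T.b (T.l 880) (T.l 880)) (T.b (T.b (T.l 1) (T.c (T.l 816) (T.l 816))) (T.c (T.b (T.l 880) (T.l 880)) (T.b (T.l 816) (T.l 816))))) (T.a (T.c (T.b (T.b (T.l 816) (T.l 880)) (T.b (T.l 880) (T.l 880))) (T.b (T.b (T.l 816) (T.l 816)) (T.b (T.l 816) (T.l 816)))) (T.b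 (T.c (T.b (T.l 816) (T.l 816)) (T.b (T.l 816) (T.l 816))) (T.c (T.l 880) (T.l 880)))))) (T.b (T.a (T.b (T.b (T.l 1) (T.a (T.c (T.l 816) (T.l 816)) (T.l 880))) (T.a (T.c (T.l 880) (T.l 880)) (T.c (T.l 816) (T.l 816)))) (T.b (T.b (T.l 1) (T.c (T.l 816) (T.l 816))) (T.c (T.b (T.l 816) (T.l 816)) (T.b (T.l 816) (T.l 816))))) (T.a (T.b (T.a (T.c (T.l 816) (T.l 816)) (T.c (T.l 816) (T.l 816))) (T.a (T.c (T.l 816) (T.l 816)) (T.c (T.l 816) (T.l 816)))) (T.b (T.c (T.b (T.l 816) (T.l 816)) (T.b (T.l 816) (T.l 816))) (T.c (T.l 880) (T.b (T.l 816) (T.l 816))))))))), by decide +kernel⟩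

def A012E_001_1_14_1 :
    ∃ t, chk3 (onCell 0 67108864 0 1073741824 469762048 67108864 (corT true 1 c0F cA012E gF0q0 gF0q1 gF1q2 gF2q2 true false)) t 1 14 1 = true :=
  ⟨(T.a (T.b (T.c (T.a (T.l 816) (T.l 880)) (T.a (T.l 816) (T.l 816))) (T.c (T.a (T.l 816) (T.l 880)) (T.a (T.l 816) (T.l 816)))) (T.a (T.a (T.b (T.a (T.b (T.l 816) (T.l 816)) (T.c (T.b (T.b (T.l 816) (T.l 880)) (T.b (T.l 880) (T.l 880))) (T.b (T.b (T.l 816) (T.l 816)) (T.b (T.l 816) (T.l 816))))) (T.a (T.b (T.l 816) (T.a (T.l 816) (T.c (T.l 816) (T.l 816)))) (T.c (T.b (T.b (T.l 880) (T.l 880)) (T.b (T.l 816) (T.l 816))) (T.b (T.b (T.l 816) (T.l 816)) (T.b (T.l 816) (T.l 816)))))) (T.b (T.a (T.c (T.b (T.b (T.l 880) (T.l 816)) (T.b (T.l 816) (T.l 816))) (T.b (T.b (T.l 816) (T.l 816)) (T.l 880))) (T.c (T.b (T.l 816) (T.l 816)) (T.b (T.l 816) (T.l 816)))) (T.a (T.c (T.b (T.l 816) (T.l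 816)) (T.b (T.l 816) (T.l 816))) (T.c (T.b (T.l 816) (T.l 816)) (T.b (T.l 816) (T.l 816)))))) (T.a (T.b (T.c (T.a (T.b (T.l 816) (T.l 816)) (T.b (T.l 816) (T.l 816))) (T.a (T.b (T.l 816) (T.l 816)) (T.b (T.l 816) (T.l 816)))) (T.c (T.a (T.b (T.l 816) (T.l 816)) (T.l 880)) (T.a (T.b (T.l 816) (T.l 816)) (T.b (T.l 816) (T.l 816))))) (T.b (T.c (T.b (T.l 880) (T.l 880)) (T.b (T.b (T.l 816) (T.l 816)) (T.l 880))) (T.c (T.b (T.l 816) (T.l 816)) (T.b (T.l 880) (T.l 880))))))), by decide +kernel⟩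

def A012E_001_1_15_1 :
    ∃ t, chk3 (onCell 0 67108864 0 1073741824 469762048 67108864 (corT true 1 c0F cA012E gF0q0 gF0q1 gF1q2 gF2q2 true false)) t 1 15 1 = true :=
  ⟨(T.a (T.a (T.c (T.b (T.l 816) (T.l 816)) (T.b (T.l 816) (T.l 816))) (T.a (T.c (T.b (T.l 816) (T.l 816)) (T.b (T.l 816) (T.l 816))) (T.b (T.b (T.l 816) (T.l 816)) (T.a (T.b (T.l 816) (T.l 816)) (T.a (T.b (T.l 816) (T.l 816)) (T.c (T.b (T.l 816) (T.l 816)) (T.b (T.l 816) (T.l 816)))))))) (T.a (T.a (T.b (T.a (T.c (T.b (T.b (T.l 880) (T.l 880)) (T.b (T.l 816) (T.l 816))) (T.b (T.b (T.l 816) (T.l 816)) (T.b (T.l 816) (T.l 816)))) (T.c (T.b (T.l 880) (T.l 816)) (T.b (T.l 816) (T.l 816)))) (T.a (T.c (T.b (T.b (T.l 816) (T.l 816)) (T.l 816)) (T.b (T.b (T.l 816) (T.l 816)) (T.l 816))) (T.c (T.b (T.l 816) (T.l 816)) (T.b (T.l 816) (T.l 816))))) (T.b (T.a (T.c (T.b (T.l 816) (T.l 816)) (T.b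 (T.l 816) (T.l 816))) (T.c (T.b (T.l 816) (T.l 816)) (T.b (T.l 816) (T.l 816)))) (T.a (T.c (T.b (T.l 816) (T.l 816)) (T.b (T.l 816) (T.l 816))) (T.c (T.l 816) (T.l 816))))) (T.a (T.b (T.c (T.b (T.l 880) (T.l 880)) (T.a (T.l 880) (T.l 816))) (T.c (T.b (T.l 816) (T.l 816)) (T.b (T.l 880) (T.l 816)))) (T.b (T.c (T.b (T.l 816) (T.l 816)) (T.b (T.l 816) (T.l 816))) (T.c (T.b (T.l 816) (T.l 816)) (T.b (T.l 816) (T.l 816))))))), by decide +kernel⟩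

theorem A012E_001_1_7_1 :
    ∃ t, chk3 (onCell 0 67108864 0 1073741824 469762048 67108864 (corT true 1 c0F cA012E gF0q0 gF0q1 gF1q2 gF2q2 true false)) t 1 7 1 = true :=
  ex3_b A012E_001_1_14_1 A012E_001_1_15_1
theorem A012E_001_1_3_1 :
    ∃ t, chk3 (onCell 0 67108864 0 1073741824 469762048 67108864 (corT true 1 c0F cA012E gF0q0 gF0q1 gF1q2 gF2q2 true false)) t 1 3 1 = true :=
  ex3_b A012E_001_1_6_1 A012E_001_1_7_1
theorem A012E_001 :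
    ∃ t, chk3 (onCell 0 67108864 0 1073741824 469762048 67108864 (corT true 1 c0F cA012E gF0q0 gF0q1 gF1q2 gF2q2 true false)) t 1 1 1 = true :=
  ex3_b A012E_001_1_2_1 A012E_001_1_3_1

def A012L_003 :
    ∃ t, chk3 (onCell 0 67108864 0 1073741824 469762048 67108864 (corT true 1 c0F cA012L gF0q0 gF0q1 gF3q2 gF4q2 false true)) t 1 1 1 = true :=
  ⟨(T.l 2), by decide +kernel⟩

def A012R_020 :
    ∃ t, chk3 (onCell 0 67108864 0 1073741824 469762048 67108864 (corT true 1 c0F cA012R gF0q0 gF2q1 gF0q2 gF1q2 true true)) t 1 1 1 = true :=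
  ⟨(T.b (T.l 2) (T.l 2)), by decide +kernel⟩

def A012R_021 :
    ∃ t, chk3 (onCell 0 67108864 0 1073741824 469762048 67108864 (corT true 1 c0F cA012R gF0q0 gF2q1 gF1q2 gF2q2 true false)) t 1 1 1 = true :=
  ⟨(T.b (T.b (T.b (T.l 204) (T.l 0)) (T.b (T.l 816) (T.a (T.l 816) (T.a (T.l 816) (T.b (T.l 816) (T.l 816)))))) (T.b (T.a (T.l 816) (T.a (T.b (T.l 816) (T.a (T.l 816) (T.l 880))) (T.b (T.b (T.l 816) (T.l 816)) (T.b (T.l 816) (T.l 880))))) (T.a (T.a (T.b (T.l 816) (T.l 816)) (T.a (T.b (T.l 816) (T.l 816)) (T.b (T.l 816) (T.a (T.l 816) (T.c (T.l 816) (T.b (T.l 816) (T.l 816))))))) (T.a (T.b (T.a (T.b (T.l 816) (T.l 880)) (T.b (T.l 816) (T.l 816))) (T.a (T.b (T.c (T.l 816) (T.l 816)) (T.a (T.b (T.l 816) (T.l 816)) (T.l 880))) (T.b (T.b (T.l 816) (T.l 816)) (T.c (T.l 816) (T.l 816))))) (T.b (T.a (T.b (T.l 816) (T.l 816)) (T.b (T.l 816) (T.l 816))) (T.a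 (T.b (T.l 880) (T.c (T.l 816) (T.l 816))) (T.b (T.l 816) (T.b (T.l 816) (T.l 816))))))))), by decide +kernel⟩

def A012R_030 :
    ∃ t, chk3 (onCell 0 67108864 0 1073741824 469762048 67108864 (corT true 1 c0F cA012R gF0q0 gF3q1 gF0q2 gF1q2 true true)) t 1 1 1 = true :=
  ⟨(T.l 2), by decide +kernel⟩

def A012R_031 :
    ∃ t, chk3 (onCell 0 67108864 0 1073741824 469762048 67108864 (corT true 1 c0F cA012R gF0q0 gF3q1 gF1q2 gF2q2 true false)) t 1 1 1 = true :=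
  ⟨(T.b (T.b (T.l 0) (T.b (T.l 816) (T.a (T.l 816) (T.a (T.l 816) (T.b (T.l 816) (T.l 816)))))) (T.b (T.a (T.l 816) (T.a (T.b (T.l 816) (T.a (T.l 816) (T.b (T.l 816) (T.l 816)))) (T.b (T.b (T.l 816) (T.l 816)) (T.b (T.l 816) (T.l 880))))) (T.a (T.a (T.b (T.l 816) (T.l 816)) (T.a (T.l 880) (T.b (T.l 816) (T.a (T.l 816) (T.c (T.l 816) (T.b (T.l 816) (T.l 816))))))) (T.a (T.b (T.a (T.a (T.b (T.l 816) (T.l 816)) (T.l 880)) (T.b (T.l 816) (T.l 816))) (T.a (T.a (T.c (T.l 816) (T.b (T.l 816) (T.l 816))) (T.b (T.l 816) (T.l 880))) (T.b (T.b (T.l 816) (T.l 816)) (T.c (T.l 816) (T.l 816))))) (T.b (T.a (T.b (T.l 816) (T.l 816)) (T.b (T.l 816) (T.l 816))) (T.a (T.b (T.l 880) (T.c (T.l 816) (T.l 816))) (T.b (T.l 816) (T.b (T.l 816) (T.l 816))))))))), by decide +kernel⟩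

def A012R_040 :
    ∃ t, chk3 (onCell 0 67108864 0 1073741824 469762048 67108864 (corT true 1 c0F cA012R gF0q0 gF4q1 gF0q2 gF1q2 true true)) t 1 1 1 = true :=
  ⟨(T.l 2), by decide +kernel⟩

def A012R_041 :
    ∃ t, chk3 (onCell 0 67108864 0 1073741824 469762048 67108864 (corT true 1 c0F cA012R gF0q0 gF4q1 gF1q2 gF2q2 true false)) t 1 1 1 = true :=
  ⟨(T.b (T.b (T.l 0) (T.b (T.l 816) (T.a (T.l 816) (T.a (T.l 816) (T.b (T.l 816) (T.l 816)))))) (T.b (T.a (T.l 816) (T.a (T.b (T.l 816) (T.a (T.l 816) (T.b (T.l 816) (T.l 816)))) (T.b (T.b (T.l 816) (T.l 816)) (T.a (T.l 880) (T.l 880))))) (T.a (T.a (T.b (T.l 816) (T.l 816)) (T.a (T.b (T.l 816) (T.l 816)) (T.b (T.l 816) (T.a (T.l 816) (T.c (T.l 816) (T.b (T.l 816) (T.l 816))))))) (T.a (T.b (T.a (T.a (T.l 880) (T.l 880)) (T.b (T.l 816) (T.l 816))) (T.a (T.b (T.c (T.l 816) (T.l 816)) (T.a (T.b (T.l 816) (T.l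 816)) (T.l 880))) (T.b (T.b (T.l 816) (T.l 816)) (T.c (T.l 816) (T.l 816))))) (T.b (T.a (T.b (T.l 816) (T.l 816)) (T.b (T.l 816) (T.l 816))) (T.a (T.b (T.l 880) (T.c (T.l 816) (T.l 816))) (T.b (T.l 880) (T.b (T.l 816) (T.l 816))))))))), by decide +kernel⟩

def A012R_120 :
    ∃ t, chk3 (onCell 0 67108864 0 1073741824 469762048 67108864 (corT true 1 c0F cA012R gF1q0 gF2q1 gF0q2 gF1q2 true true)) t 1 1 1 = true :=
  ⟨(T.b (T.b (T.l 1) (T.a (T.l 816) (T.b (T.l 1) (T.l 0)))) (T.b (T.a (T.l 816) (T.b (T.b (T.l 816) (T.l 816)) (T.a (T.l 816) (T.l 816)))) (T.b (T.a (T.l 816) (T.a (T.l 816) (T.b (T.l 816) (T.l 2)))) (T.a (T.a (T.l 816) (T.b (T.l 816) (T.l 2))) (T.b (T.l 2) (T.l 2)))))), by decide +kernel⟩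

def A012R_121 :
    ∃ t, chk3 (onCell 0 67108864 0 1073741824 469762048 67108864 (corT true 1 c0F cA012R gF1q0 gF2q1 gF1q2 gF2q2 true false)) t 1 1 1 = true :=
  ⟨(T.b (T.l 1) (T.b (T.a (T.l 1) (T.l 1)) (T.a (T.b (T.l 816) (T.a (T.l 816) (T.b (T.l 816) (T.l 816)))) (T.a (T.b (T.l 816) (T.l 816)) (T.l 816))))), by decide +kernel⟩

def A012R_130 :
    ∃ t, chk3 (onCell 0 67108864 0 1073741824 469762048 67108864 (corT true 1 c0F cA012R gF1q0 gF3q1 gF0q2 gF1q2 true true)) t 1 1 1 = true :=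
  ⟨(T.b (T.b (T.l 1) (T.a (T.l 816) (T.b (T.l 816) (T.b (T.l 816) (T.l 816))))) (T.b (T.a (T.l 816) (T.b (T.b (T.l 816) (T.l 816)) (T.a (T.l 816) (T.l 816)))) (T.a (T.b (T.l 816) (T.a (T.l 816) (T.b (T.l 816) (T.l 2)))) (T.b (T.a (T.l 816) (T.b (T.l 816) (T.l 2))) (T.l 2))))), by decide +kernel⟩

def A012R_131 :
    ∃ t, chk3 (onCell 0 67108864 0 1073741824 469762048 67108864 (corT true 1 c0F cA012R gF1q0 gF3q1 gF1q2 gF2q2 true false)) t 1 1 1 = true :=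
  ⟨(T.b (T.l 1) (T.b (T.a (T.l 1) (T.a (T.b (T.l 1) (T.l 816)) (T.l 816))) (T.a (T.b (T.l 816) (T.a (T.l 816) (T.b (T.l 816) (T.l 816)))) (T.a (T.b (T.l 816) (T.l 816)) (T.l 816))))), by decide +kernel⟩

def A012R_140 :
    ∃ t, chk3 (onCell 0 67108864 0 1073741824 469762048 67108864 (corT true 1 c0F cA012R gF1q0 gF4q1 gF0q2 gF1q2 true true)) t 1 1 1 = true :=
  ⟨(T.b (T.b (T.l 0) (T.a (T.l 816) (T.b (T.l 816) (T.b (T.l 816) (T.l 816))))) (T.b (T.a (T.l 816) (T.b (T.b (T.l 816) (T.l 816)) (T.a (T.l 816) (T.l 2)))) (T.a (T.a (T.l 816) (T.b (T.l 816) (T.l 2))) (T.b (T.l 2) (T.l 2))))), by decide +kernel⟩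

def A012R_141 :
    ∃ t, chk3 (onCell 0 67108864 0 1073741824 469762048 67108864 (corT true 1 c0F cA012R gF1q0 gF4q1 gF1q2 gF2q2 true false)) t 1 1 1 = true :=
  ⟨(T.b (T.b (T.l 1) (T.l 1)) (T.b (T.a (T.l 816) (T.a (T.b (T.l 816) (T.l 816)) (T.l 816))) (T.a (T.b (T.l 816) (T.a (T.l 816) (T.b (T.l 816) (T.l 816)))) (T.a (T.b (T.l 816) (T.l 816)) (T.l 816))))), by decide +kernel⟩

def A022E_000 :
    ∃ t, chk3 (onCell 0 67108864 0 1073741824 469762048 67108864 (corT true 1 c0F cA022E gF0q0 gF0q2 gF0q2 gF1q2 true true)) t 1 1 1 = true :=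
  ⟨(T.l 2), by decide +kernel⟩

def A022E_001 :
    ∃ t, chk3 (onCell 0 67108864 0 1073741824 469762048 67108864 (corT true 1 c0F cA022E gF0q0 gF0q2 gF1q2 gF2q2 true false)) t 1 1 1 = true :=
  ⟨(T.b (T.a (T.a (T.b (T.b (T.c (T.l 204) (T.l 204)) (T.l 204)) (T.l 204)) (T.a (T.b (T.c (T.l 204) (T.l 204)) (T.l 204)) (T.b (T.a (T.b (T.l 204) (T.l 204)) (T.c (T.l 204) (T.b (T.l 204) (T.l 204)))) (T.b (T.l 204) (T.l 204))))) (T.b (T.a (T.a (T.b (T.c (T.b (T.l 204) (T.l 204)) (T.a (T.l 204) (T.l 204))) (T.b (T.l 460) (T.l 204))) (T.b (T.c (T.b (T.a (T.l 204) (T.l 204)) (T.l 460)) (T.a (T.b (T.l 460) (T.l 204)) (T.b (T.l 460) (T.l 204)))) (T.b (T.l 204) (T.l 204)))) (T.b (T.a (T.c (T.b (T.c (T.l 204) (T.l 204)) (T.l 460)) (T.b (T.a (T.l 204) (T.l 204)) (T.b (T.l 204) (T.l 204)))) (T.b (T.c (T.b (T.l 204) (T.l 204)) (T.c (T.l 204) (T.l 204))) (T.c (T.l 204)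 (T.l 460)))) (T.a (T.b (T.c (T.l 204) (T.l 204)) (T.l 460)) (T.b (T.b (T.l 460) (T.l 204)) (T.l 460))))) (T.a (T.a (T.l 460) (T.l 460)) (T.b (T.a (T.l 204) (T.b (T.l 204) (T.l 204))) (T.l 204))))) (T.a (T.a (T.b (T.l 0) (T.b (T.l 816) (T.c (T.l 816) (T.l 816)))) (T.a (T.b (T.l 0) (T.b (T.l 816) (T.b (T.l 816) (T.l 816)))) (T.b (T.l 0) (T.b (T.l 0) (T.a (T.b (T.l 816) (T.l 816)) (T.b (T.l 816) (T.c (T.l 816) (T.l 816)))))))) (T.a (T.b (T.b (T.l 0) (T.l 0)) (T.b (T.b (T.l 0) (T.l 0)) (T.a (T.b (T.l 816) (T.b (T.l 816) (T.a (T.c (T.l 816) (T.l 816)) (T.l 816)))) (T.b (T.l 816) (T.c (T.l 816) (T.l 816)))))) (T.b (T.l 256) (T.b (T.l 0) (T.b (T.l 816) (T.a (T.c (T.l 816) (T.l 816)) (T.b (T.l 816) (T.l 880))))))))), by decide +kernel⟩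

def A022E_010 :
    ∃ t, chk3 (onCell 0 67108864 0 1073741824 469762048 67108864 (corT true 1 c0F cA022E gF0q0 gF1q2 gF0q2 gF1q2 true true)) t 1 1 1 = true :=
  ⟨(T.l 2), by decide +kernel⟩

def A022E_011_1_2_1 :
    ∃ t, chk3 (onCell 0 67108864 0 1073741824 469762048 67108864 (corT true 1 c0F cA022E gF0q0 gF1q2 gF1q2 gF2q2 true false)) t 1 2 1 = true :=
  ⟨(T.b (T.a (T.a (T.b (T.c (T.l 204) (T.l 204)) (T.l 204)) (T.a (T.b (T.l 204) (T.l 204)) (T.b (T.a (T.l 204) (T.a (T.l 204) (T.c (T.l 204) (T.b (T.l 204) (T.l 204))))) (T.l 476)))) (T.a (T.a (T.b (T.a (T.b (T.c (T.b (T.l 204) (T.l 204)) (T.b (T.l 204) (T.l 204))) (T.b (T.l 204) (T.l 204))) (T.b (T.c (T.b (T.l 204) (T.l 204)) (T.b (T.l 204) (T.l 204))) (T.b (T.l 204) (T.l 204)))) (T.a (T.b (T.l 204) (T.l 204)) (T.b (T.l 204) (T.l 204)))) (T.b (T.a (T.b (T.c (T.l 220) (T.b (T.l 204) (T.l 204))) (T.b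 (T.l 204) (T.l 204))) (T.b (T.c (T.l 220) (T.b (T.l 204) (T.l 204))) (T.b (T.l 204) (T.l 204)))) (T.a (T.b (T.l 204) (T.l 204)) (T.b (T.l 204) (T.l 204))))) (T.b (T.a (T.b (T.a (T.c (T.l 204) (T.l 476)) (T.c (T.l 204) (T.l 460))) (T.a (T.b (T.l 204) (T.l 204)) (T.b (T.l 204) (T.l 204)))) (T.b (T.c (T.a (T.l 204) (T.l 204)) (T.a (T.l 204) (T.l 204))) (T.c (T.l 460) (T.l 460)))) (T.a (T.b (T.c (T.l 204) (T.l 204)) (T.l 460)) (T.b (T.b (T.l 460) (T.l 204)) (T.l 204)))))) (T.a (T.a (T.l 204) (T.a (T.l 204) (T.l 204))) (T.a (T.a (T.l 204) (T.b (T.b (T.l 204) (T.l 204)) (T.l 204))) (T.b (T.a (T.b (T.l 204) (T.l 204)) (T.b (T.l 204) (T.l 204))) (T.a (T.l 460) (T.l 460)))))), by decide +kernel⟩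

def A022E_011_1_3_1 :
    ∃ t, chk3 (onCell 0 67108864 0 1073741824 469762048 67108864 (corT true 1 c0F cA022E gF0q0 gF1q2 gF1q2 gF2q2 true false)) t 1 3 1 = true :=
  ⟨(T.b (T.b (T.a (T.a (T.l 204) (T.a (T.l 204) (T.l 204))) (T.a (T.l 204) (T.b (T.l 460) (T.l 204)))) (T.a (T.a (T.l 0) (T.a (T.l 0) (T.l 0))) (T.a (T.l 0) (T.l 0)))) (T.a (T.a (T.b (T.l 816) (T.b (T.l 816) (T.l 816))) (T.a (T.b (T.l 816) (T.b (T.l 816) (T.l 816))) (T.b (T.l 0) (T.b (T.l 816) (T.a (T.l 816) (T.c (T.l 816) (T.l 816))))))) (T.a (T.b (T.l 0) (T.a (T.b (T.l 816) (T.a (T.c (T.l 816) (T.l 816)) (T.l 816))) (T.c (T.l 816) (T.l 880)))) (T.b (T.l 0) (T.b (T.l 816) (T.a (T.b (T.l 816) (T.l 816)) (T.b (T.l 816) (T.l 816)))))))), by decide +kernel⟩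

theorem A022E_011 :
    ∃ t, chk3 (onCell 0 67108864 0 1073741824 469762048 67108864 (corT true 1 c0F cA022E gF0q0 gF1q2 gF1q2 gF2q2 true false)) t 1 1 1 = true :=
  ex3_b A022E_011_1_2_1 A022E_011_1_3_1

def A022E_110 :
    ∃ t, chk3 (onCell 0 67108864 0 1073741824 469762048 67108864 (corT true 1 c0F cA022E gF1q0 gF1q2 gF0q2 gF1q2 true true)) t 1 1 1 = true :=
  ⟨(T.l 2), by decide +kernel⟩

def A022E_111 :
    ∃ t, chk3 (onCell 0 67108864 0 1073741824 469762048 67108864 (corT true 1 c0F cA022E gF1q0 gF1q2 gF1q2 gF2q2 true false)) t 1 1 1 = true :=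
  ⟨(T.b (T.a (T.a (T.b (T.b (T.c (T.l 204) (T.l 204)) (T.l 204)) (T.l 204)) (T.a (T.b (T.c (T.l 204) (T.l 204)) (T.l 204)) (T.b (T.b (T.a (T.l 204) (T.b (T.c (T.l 220) (T.b (T.l 220) (T.l 204))) (T.l 204))) (T.l 204)) (T.l 204)))) (T.b (T.a (T.a (T.b (T.b (T.a (T.b (T.c (T.l 204) (T.l 204)) (T.l 204)) (T.b (T.c (T.l 204) (T.l 204)) (T.l 204))) (T.b (T.l 460) (T.l 204))) (T.l 460)) (T.b (T.b (T.a (T.b (T.c (T.l 204) (T.l 204)) (T.l 204)) (T.b (T.c (T.l 204) (T.l 204)) (T.l 204))) (T.l 460)) (T.l 204))) (T.b (T.a (T.b (T.b (T.a (T.c (T.l 204) (T.l 204)) (T.c (T.l 204) (T.l 204))) (T.c (T.l 204) (T.l 204))) (T.l 204)) (T.b (T.b (T.c (T.c (T.l 204) (T.l 204)) (T.c (T.l 204) (T.l 204))) (T.l 460)) (T.l 204))) (T.a (T.l 204) (T.l 204)))) (T.a (T.a (T.l 204) (T.b (T.l 204) (T.l 204))) (T.b (T.l 204) (T.l 0))))) (T.a (T.a (T.l 0) (T.l 0)) (T.b (T.a (T.l 0)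 (T.b (T.l 0) (T.l 0))) (T.l 0)))), by decide +kernel⟩

def A022L_003 :
    ∃ t, chk3 (onCell 0 67108864 0 1073741824 469762048 67108864 (corX 1 c0F cA022L tA022L gF0q0 gF0q2 gF3q2 gF4q2 gF4q2 false true)) t 1 1 1 = true :=
  ⟨(T.a (T.b (T.a (T.b (T.a (T.a (T.l 207) (T.l 207)) (T.c (T.l 223) (T.l 207))) (T.a (T.a (T.l 207) (T.l 207)) (T.b (T.l 207) (T.l 207)))) (T.b (T.b (T.a (T.l 207) (T.l 207)) (T.c (T.l 223) (T.l 223))) (T.a (T.b (T.l 207) (T.l 207)) (T.b (T.l 207) (T.l 207))))) (T.b (T.a (T.a (T.a (T.l 207) (T.l 207)) (T.b (T.l 207) (T.l 207))) (T.a (T.l 223) (T.l 207))) (T.l 2))) (T.b (T.a (T.b (T.a (T.b (T.l 207) (T.l 207)) (T.b (T.c (T.b (T.l 204) (T.l 204)) (T.b (T.b (T.l 204) (T.l 204)) (T.l 220))) (T.l 207))) (T.a (T.l 223) (T.l 223))) (T.b (T.b (T.a (T.c (T.b (T.l 204) (T.l 204)) (T.b (T.l 204) (T.l 204))) (T.c (T.b (T.l 204) (T.l 204))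 (T.b (T.l 204) (T.l 204)))) (T.a (T.b (T.c (T.l 204) (T.l 204)) (T.b (T.l 220) (T.l 220))) (T.b (T.b (T.l 204) (T.l 204)) (T.b (T.l 204) (T.l 204))))) (T.b (T.a (T.l 207) (T.b (T.b (T.l 204) (T.l 204)) (T.b (T.l 204) (T.l 207)))) (T.l 207)))) (T.b (T.a (T.b (T.l 207) (T.l 207)) (T.b (T.l 207) (T.l 207))) (T.l 2)))), by decide +kernel⟩

def A022L_013 :
    ∃ t, chk3 (onCell 0 67108864 0 1073741824 469762048 67108864 (corT true 1 c0F cA022L gF0q0 gF1q2 gF3q2 gF4q2 false true)) t 1 1 1 = true :=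
  ⟨(T.b (T.b (T.b (T.a (T.a (T.l 204) (T.a (T.l 204) (T.l 204))) (T.a (T.b (T.l 204) (T.l 204)) (T.l 0))) (T.a (T.l 204) (T.a (T.b (T.l 0) (T.l 0)) (T.l 0)))) (T.b (T.a (T.l 204) (T.a (T.b (T.l 0) (T.l 0)) (T.b (T.l 0) (T.l 0)))) (T.l 2))) (T.l 2)), by decide +kernel⟩

def A022L_113 :
    ∃ t, chk3 (onCell 0 67108864 0 1073741824 469762048 67108864 (corT true 1 c0F cA022L gF1q0 gF1q2 gF3q2 gF4q2 false true)) t 1 1 1 = true :=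
  ⟨(T.b (T.b (T.b (T.a (T.a (T.l 204) (T.a (T.l 204) (T.l 0))) (T.a (T.l 0) (T.l 0))) (T.a (T.l 0) (T.a (T.l 0) (T.l 0)))) (T.l 2)) (T.l 2)), by decide +kernel⟩

def A022R_040 :
    ∃ t, chk3 (onCell 0 67108864 0 1073741824 469762048 67108864 (corT true 1 c0F cA022R gF0q0 gF4q2 gF0q2 gF1q2 true true)) t 1 1 1 = true :=
  ⟨(T.l 2), by decide +kernel⟩

def A022R_041 :
    ∃ t, chk3 (onCell 0 67108864 0 1073741824 469762048 67108864 (corT true 1 c0F cA022R gF0q0 gF4q2 gF1q2 gF2q2 true false)) t 1 1 1 = true :=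
  ⟨(T.a (T.a (T.b (T.l 0) (T.b (T.l 816) (T.b (T.l 816) (T.l 816)))) (T.a (T.b (T.l 0) (T.b (T.l 816) (T.l 816))) (T.b (T.l 0) (T.b (T.l 816) (T.c (T.l 816) (T.l 880)))))) (T.a (T.b (T.l 0) (T.b (T.l 880) (T.a (T.c (T.l 816) (T.l 816)) (T.c (T.l 816) (T.l 816))))) (T.b (T.l 0) (T.b (T.l 816) (T.b (T.l 816) (T.a (T.b (T.l 816) (T.l 816)) (T.l 816))))))), by decide +kernel⟩

def A022R_140 :
    ∃ t, chk3 (onCell 0 67108864 0 1073741824 469762048 67108864 (corT true 1 c0F cA022R gF1q0 gF4q2 gF0q2 gF1q2 true true)) t 1 1 1 = true :=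
  ⟨(T.b (T.l 2) (T.a (T.a (T.l 816) (T.l 2)) (T.l 2))), by decide +kernel⟩

def A022R_141 :
    ∃ t, chk3 (onCell 0 67108864 0 1073741824 469762048 67108864 (corT true 1 c0F cA022R gF1q0 gF4q2 gF1q2 gF2q2 true false)) t 1 1 1 = true :=
  ⟨(T.a (T.a (T.l 0) (T.a (T.l 0) (T.l 0))) (T.b (T.b (T.l 16) (T.l 0)) (T.l 880))), by decide +kernel⟩

def A101E_000 :
    ∃ t, chk3 (onCell 0 67108864 0 1073741824 469762048 67108864 (corT true 1 c0F cA101E gF0q1 gF0q0 gF0q1 gF1q1 true false)) t 1 1 1 = true :=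
  ⟨(T.l 1), by decide +kernel⟩

def A101E_010 :
    ∃ t, chk3 (onCell 0 67108864 0 1073741824 469762048 67108864 (corT true 1 c0F cA101E gF0q1 gF1q0 gF0q1 gF1q1 true false)) t 1 1 1 = true :=
  ⟨(T.l 1), by decide +kernel⟩

def A101R_001 :
    ∃ t, chk3 (onCell 0 67108864 0 1073741824 469762048 67108864 (corT true 1 c0F cA101R gF0q1 gF0q0 gF1q1 gF2q1 false true)) t 1 1 1 = true :=
  ⟨(T.l 2), by decide +kernel⟩

def A101R_002 :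
    ∃ t, chk3 (onCell 0 67108864 0 1073741824 469762048 67108864 (corT true 1 c0F cA101R gF0q1 gF0q0 gF2q1 gF3q1 true true)) t 1 1 1 = true :=
  ⟨(T.l 2), by decide +kernel⟩

def A101R_003 :
    ∃ t, chk3 (onCell 0 67108864 0 1073741824 469762048 67108864 (corT true 1 c0F cA101R gF0q1 gF0q0 gF3q1 gF4q1 true true)) t 1 1 1 = true :=
  ⟨(T.l 2), by decide +kernel⟩

def A101R_011 :
    ∃ t, chk3 (onCell 0 67108864 0 1073741824 469762048 67108864 (corT true 1 c0F cA101R gF0q1 gF1q0 gF1q1 gF2q1 false true)) t 1 1 1 = true :=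
  ⟨(T.l 2), by decide +kernel⟩

def A101R_012 :
    ∃ t, chk3 (onCell 0 67108864 0 1073741824 469762048 67108864 (corT true 1 c0F cA101R gF0q1 gF1q0 gF2q1 gF3q1 true true)) t 1 1 1 = true :=
  ⟨(T.l 2), by decide +kernel⟩

def A101R_013 :
    ∃ t, chk3 (onCell 0 67108864 0 1073741824 469762048 67108864 (corT true 1 c0F cA101R gF0q1 gF1q0 gF3q1 gF4q1 true true)) t 1 1 1 = true :=
  ⟨(T.l 2), by decide +kernel⟩

def A102E_000_1_2_1 :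
    ∃ t, chk3 (onCell 0 67108864 0 1073741824 469762048 67108864 (corX 1 c0F cA102E tA102E gF0q1 gF0q0 gF0q2 gF1q2 gF0q2 true true)) t 1 2 1 = true :=
  ⟨(T.b (T.l 2) (T.a (T.a (T.a (T.a (T.b (T.l 207) (T.l 207)) (T.b (T.l 207) (T.l 223))) (T.b (T.a (T.l 223) (T.l 223)) (T.a (T.b (T.l 207) (T.l 207)) (T.b (T.l 207) (T.l 207))))) (T.a (T.b (T.b (T.l 2) (T.b (T.l 207) (T.l 207))) (T.a (T.b (T.l 207) (T.l 207)) (T.b (T.l 207) (T.l 207)))) (T.b (T.b (T.l 2) (T.b (T.l 207) (T.l 207))) (T.a (T.b (T.l 207) (T.l 207)) (T.b (T.l 207) (T.l 207)))))) (T.b (T.b (T.l 2) (T.b (T.a (T.a (T.l 207) (T.l 2)) (T.l 2)) (T.a (T.a (T.l 223) (T.a (T.l 207) (T.a (T.l 207) (T.c (T.l 207) (T.l 207))))) (T.a (T.a (T.c (T.b (T.l 207) (T.l 207)) (T.l 223)) (T.c (T.l 207) (T.l 207))) (T.a (T.c (T.l 207) (T.l 207)) (T.c (T.l 207) (T.l 207))))))) (T.a (T.a (T.b (T.b (T.l 223) (T.l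 223)) (T.c (T.l 223) (T.l 223))) (T.b (T.a (T.l 223) (T.l 223)) (T.c (T.b (T.l 207) (T.l 207)) (T.l 223)))) (T.b (T.a (T.b (T.a (T.c (T.b (T.l 223) (T.l 223)) (T.b (T.l 207) (T.l 207))) (T.c (T.l 223) (T.l 223))) (T.c (T.a (T.b (T.l 223) (T.l 207)) (T.b (T.l 223) (T.l 223))) (T.a (T.b (T.l 207) (T.l 207)) (T.b (T.l 223) (T.l 223))))) (T.b (T.a (T.c (T.l 207) (T.l 207)) (T.c (T.l 207) (T.l 207))) (T.a (T.c (T.b (T.l 207) (T.l 207)) (T.l 223)) (T.c (T.l 223) (T.l 207))))) (T.b (T.a (T.a (T.l 223) (T.b (T.c (T.l 223) (T.l 223)) (T.l 223))) (T.c (T.a (T.a (T.l 223) (T.l 223)) (T.b (T.l 207) (T.l 223))) (T.a (T.b (T.l 223) (T.l 223)) (T.l 223)))) (T.a (T.c (T.l 223) (T.l 223)) (T.b (T.c (T.a (T.c (T.l 223) (T.l 223)) (T.l 223)) (T.a (T.l 223) (T.l 223))) (T.c (T.a (T.c (T.l 223) (T.l 223)) (T.c (T.l 223) (T.l 223))) (T.a (T.l 223) (T.l 223))))))))))),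 by decide +kernel⟩

def A102E_000_1_3_1 :
    ∃ t, chk3 (onCell 0 67108864 0 1073741824 469762048 67108864 (corX 1 c0F cA102E tA102E gF0q1 gF0q0 gF0q2 gF1q2 gF0q2 true true)) t 1 3 1 = true :=
  ⟨(T.b (T.b (T.b (T.b (T.a (T.b (T.a (T.c (T.l 207) (T.l 207)) (T.c (T.l 207) (T.l 207))) (T.l 1)) (T.a (T.a (T.c (T.l 207) (T.l 207)) (T.c (T.l 223) (T.l 207))) (T.a (T.c (T.l 223) (T.l 223)) (T.a (T.c (T.l 223) (T.l 207)) (T.c (T.b (T.c (T.l 223) (T.l 223)) (T.c (T.l 223) (T.l 223))) (T.b (T.l 223) (T.l 223))))))) (T.l 1)) (T.l 1)) (T.l 1)) (T.l 1)), by decide +kernel⟩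

theorem A102E_000 :
    ∃ t, chk3 (onCell 0 67108864 0 1073741824 469762048 67108864 (corX 1 c0F cA102E tA102E gF0q1 gF0q0 gF0q2 gF1q2 gF0q2 true true)) t 1 1 1 = true :=
  ex3_b A102E_000_1_2_1 A102E_000_1_3_1

def A102E_001_1_8_1 :
    ∃ t, chk3 (onCell 0 67108864 0 1073741824 469762048 67108864 (corT true 1 c0F cA102E gF0q1 gF0q0 gF1q2 gF2q2 true false)) t 1 8 1 = true :=
  ⟨(T.a (T.a (T.c (T.b (T.l 204) (T.l 204)) (T.b (T.l 204) (T.l 204))) (T.a (T.c (T.b (T.l 204) (T.l 204)) (T.b (T.l 204) (T.l 204))) (T.b (T.a (T.b (T.l 204) (T.l 204)) (T.a (T.b (T.l 204) (T.l 204)) (T.c (T.b (T.l 204) (T.l 204)) (T.b (T.l 204) (T.l 204))))) (T.b (T.l 204) (T.l 204))))) (T.a (T.a (T.b (T.a (T.c (T.b (T.l 204) (T.b (T.l 204) (T.l 204))) (T.b (T.l 204) (T.b (T.l 204) (T.l 204)))) (T.c (T.b (T.l 204) (T.l 204)) (T.b (T.l 204) (T.l 204)))) (T.a (T.c (T.b (T.b (T.l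 204) (T.l 204)) (T.b (T.l 204) (T.l 204))) (T.b (T.b (T.l 204) (T.l 204)) (T.b (T.l 204) (T.l 204)))) (T.c (T.b (T.l 204) (T.l 204)) (T.b (T.l 204) (T.l 204))))) (T.b (T.c (T.a (T.l 204) (T.l 204)) (T.a (T.l 220) (T.l 204))) (T.c (T.a (T.b (T.l 204) (T.l 204)) (T.l 220)) (T.a (T.b (T.l 204) (T.l 204)) (T.l 220))))) (T.a (T.b (T.c (T.b (T.l 204) (T.l 204)) (T.b (T.l 204) (T.l 204))) (T.c (T.b (T.l 204) (T.l 204)) (T.b (T.l 204) (T.l 220)))) (T.b (T.c (T.b (T.l 204) (T.l 204)) (T.b (T.l 204) (T.l 204))) (T.c (T.b (T.l 204) (T.l 204)) (T.b (T.l 204) (T.l 204))))))), by decide +kernel⟩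

def A102E_001_1_9_1 :
    ∃ t, chk3 (onCell 0 67108864 0 1073741824 469762048 67108864 (corT true 1 c0F cA102E gF0q1 gF0q0 gF1q2 gF2q2 true false)) t 1 9 1 = true :=
  ⟨(T.a (T.b (T.c (T.a (T.l 204) (T.l 220)) (T.a (T.l 204) (T.l 204))) (T.c (T.b (T.l 220) (T.l 220)) (T.a (T.l 204) (T.l 220)))) (T.a (T.a (T.b (T.a (T.b (T.a (T.l 204) (T.c (T.l 204) (T.l 204))) (T.l 204)) (T.c (T.b (T.b (T.l 204) (T.l 204)) (T.b (T.l 204) (T.l 204))) (T.b (T.b (T.l 204) (T.l 204)) (T.b (T.l 204) (T.l 204))))) (T.a (T.b (T.l 204) (T.l 204)) (T.c (T.b (T.b (T.l 220) (T.l 204)) (T.b (T.l 204) (T.l 204))) (T.b (T.b (T.l 204) (T.l 204)) (T.b (T.l 204) (T.l 204)))))) (T.b (T.a (T.c (T.b (T.l 204) (T.l 204)) (T.b (T.l 204) (T.l 204))) (T.c (T.b (T.l 204) (T.l 204)) (T.b (T.l 204) (T.l 204)))) (T.a (T.c (T.b (T.l 220) (T.b (T.l 204) (T.l 204))) (T.b (T.l 220) (T.b (T.l 204)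 (T.l 204)))) (T.c (T.b (T.l 204) (T.l 204)) (T.b (T.l 204) (T.l 204)))))) (T.b (T.a (T.c (T.b (T.l 220) (T.l 220)) (T.b (T.l 220) (T.b (T.l 204) (T.l 204)))) (T.c (T.b (T.l 204) (T.l 204)) (T.b (T.l 204) (T.l 204)))) (T.a (T.c (T.b (T.b (T.l 204) (T.l 204)) (T.b (T.l 204) (T.l 204))) (T.b (T.b (T.l 204) (T.l 204)) (T.b (T.l 204) (T.l 204)))) (T.c (T.b (T.l 204) (T.l 204)) (T.b (T.l 220) (T.l 220))))))), by decide +kernel⟩

def A102E_001_1_5_1 :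
    ∃ t, chk3 (onCell 0 67108864 0 1073741824 469762048 67108864 (corT true 1 c0F cA102E gF0q1 gF0q0 gF1q2 gF2q2 true false)) t 1 5 1 = true :=
  ⟨(T.b (T.a (T.b (T.c (T.a (T.l 220) (T.b (T.l 204) (T.l 204))) (T.b (T.l 220) (T.l 220))) (T.b (T.c (T.a (T.l 204) (T.l 204)) (T.a (T.l 204) (T.l 204))) (T.a (T.l 1) (T.c (T.l 204) (T.l 204))))) (T.a (T.a (T.b (T.c (T.l 220) (T.l 204)) (T.b (T.l 220) (T.l 220))) (T.b (T.a (T.c (T.b (T.b (T.l 220) (T.l 220)) (T.b (T.l 204) (T.l 204))) (T.b (T.b (T.l 204) (T.l 204)) (T.b (T.l 204) (T.l 204)))) (T.b (T.c (T.l 220) (T.l 220)) (T.c (T.b (T.l 204) (T.l 204)) (T.b (T.l 204) (T.l 204))))) (T.a (T.b (T.l 220) (T.l 220)) (T.b (T.c (T.b (T.l 204) (T.l 204)) (T.b (T.l 204) (T.l 204))) (T.b (T.c (T.l 204) (T.l 204)) (T.l 1)))))) (T.b (T.a (T.b (T.c (T.b (T.l 204) (T.l 220)) (T.b (T.l 220) (T.l 220))) (T.c (T.b (T.l 220)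 (T.l 220)) (T.b (T.l 220) (T.l 220)))) (T.b (T.c (T.l 220) (T.b (T.l 204) (T.l 204))) (T.c (T.l 220) (T.b (T.l 204) (T.l 204))))) (T.a (T.b (T.c (T.a (T.l 220) (T.l 204)) (T.a (T.l 220) (T.l 204))) (T.b (T.a (T.c (T.l 204) (T.l 204)) (T.l 220)) (T.l 1))) (T.b (T.c (T.b (T.l 204) (T.l 204)) (T.b (T.l 204) (T.l 204))) (T.b (T.c (T.l 204) (T.l 204)) (T.l 1))))))) (T.l 1)), by decide +kernel⟩

def A102E_001_1_3_1 :
    ∃ t, chk3 (onCell 0 67108864 0 1073741824 469762048 67108864 (corT true 1 c0F cA102E gF0q1 gF0q0 gF1q2 gF2q2 true false)) t 1 3 1 = true :=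
  ⟨(T.l 1), by decide +kernel⟩

theorem A102E_001_1_4_1 :
    ∃ t, chk3 (onCell 0 67108864 0 1073741824 469762048 67108864 (corT true 1 c0F cA102E gF0q1 gF0q0 gF1q2 gF2q2 true false)) t 1 4 1 = true :=
  ex3_b A102E_001_1_8_1 A102E_001_1_9_1
theorem A102E_001_1_2_1 :
    ∃ t, chk3 (onCell 0 67108864 0 1073741824 469762048 67108864 (corT true 1 c0F cA102E gF0q1 gF0q0 gF1q2 gF2q2 true false)) t 1 2 1 = true :=
  ex3_b A102E_001_1_4_1 A102E_001_1_5_1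
theorem A102E_001 :
    ∃ t, chk3 (onCell 0 67108864 0 1073741824 469762048 67108864 (corT true 1 c0F cA102E gF0q1 gF0q0 gF1q2 gF2q2 true false)) t 1 1 1 = true :=
  ex3_b A102E_001_1_2_1 A102E_001_1_3_1

def A102E_010 :
    ∃ t, chk3 (onCell 0 67108864 0 1073741824 469762048 67108864 (corT true 1 c0F cA102E gF0q1 gF1q0 gF0q2 gF1q2 true true)) t 1 1 1 = true :=
  ⟨(T.b (T.l 2) (T.b (T.b (T.l 2) (T.a (T.l 0) (T.l 0))) (T.b (T.b (T.b (T.l 0) (T.l 1)) (T.l 1)) (T.l 1)))), by decide +kernel⟩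

def A102E_011 :
    ∃ t, chk3 (onCell 0 67108864 0 1073741824 469762048 67108864 (corT true 1 c0F cA102E gF0q1 gF1q0 gF1q2 gF2q2 true false)) t 1 1 1 = true :=
  ⟨(T.b (T.b (T.a (T.a (T.l 204) (T.a (T.l 204) (T.l 0))) (T.a (T.b (T.l 204) (T.l 0)) (T.l 0))) (T.a (T.l 204) (T.a (T.b (T.l 0) (T.l 204)) (T.b (T.l 204) (T.l 0))))) (T.b (T.a (T.l 0) (T.b (T.b (T.l 0) (T.l 204)) (T.l 0))) (T.l 1))), by decide +kernel⟩

def A102R_003 :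
    ∃ t, chk3 (onCell 0 67108864 0 1073741824 469762048 67108864 (corT true 1 c0F cA102R gF0q1 gF0q0 gF3q2 gF4q2 false true)) t 1 1 1 = true :=
  ⟨(T.l 2), by decide +kernel⟩

def A102R_013 :
    ∃ t, chk3 (onCell 0 67108864 0 1073741824 469762048 67108864 (corT true 1 c0F cA102R gF0q1 gF1q0 gF3q2 gF4q2 false true)) t 1 1 1 = true :=
  ⟨(T.l 2), by decide +kernel⟩

def A202E_000 :
    ∃ t, chk3 (onCell 0 67108864 0 1073741824 469762048 67108864 (corT true 1 c0F cA202E gF0q2 gF0q0 gF0q2 gF1q2 true true)) t 1 1 1 = true :=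
  ⟨(T.l 2), by decide +kernel⟩

def A202E_001 :
    ∃ t, chk3 (onCell 0 67108864 0 1073741824 469762048 67108864 (corT true 1 c0F cA202E gF0q2 gF0q0 gF1q2 gF2q2 true false)) t 1 1 1 = true :=
  ⟨(T.b (T.a (T.a (T.b (T.b (T.b (T.l 220) (T.l 204)) (T.l 204)) (T.l 0)) (T.a (T.b (T.b (T.b (T.l 204) (T.l 204)) (T.l 204)) (T.l 0)) (T.b (T.b (T.a (T.b (T.l 204) (T.l 204)) (T.b (T.c (T.l 204) (T.l 204)) (T.l 204))) (T.l 0)) (T.l 0)))) (T.a (T.b (T.b (T.a (T.b (T.b (T.a (T.c (T.l 204) (T.l 204)) (T.l 204)) (T.l 204)) (T.l 204)) (T.b (T.c (T.l 204) (T.l 204)) (T.l 204))) (T.b (T.l 0) (T.l 0))) (T.b (T.l 0) (T.l 4))) (T.b (T.b (T.b (T.a (T.c (T.l 204) (T.l 204)) (T.b (T.l 220) (T.l 204))) (T.l 204)) (T.l 0)) (T.b (T.l 0) (T.l 816))))) (T.a (T.a (T.b (T.l 816) (T.b (T.l 816) (T.b (T.l 816) (T.c (T.l 816) (T.l 816))))) (T.a (T.b (T.l 816) (T.b (T.l 816) (T.b (T.l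 816) (T.l 816)))) (T.b (T.b (T.l 816) (T.l 816)) (T.a (T.c (T.l 816) (T.l 816)) (T.b (T.l 816) (T.c (T.l 816) (T.l 816))))))) (T.b (T.a (T.a (T.b (T.l 816) (T.l 816)) (T.b (T.l 816) (T.l 816))) (T.b (T.l 820) (T.a (T.l 816) (T.b (T.l 816) (T.l 816))))) (T.a (T.a (T.b (T.c (T.l 816) (T.l 816)) (T.c (T.c (T.l 816) (T.l 820)) (T.a (T.l 816) (T.l 816)))) (T.b (T.b (T.l 816) (T.l 820)) (T.c (T.a (T.b (T.l 816) (T.l 816)) (T.b (T.l 816) (T.l 816))) (T.a (T.b (T.l 816) (T.b (T.l 816) (T.l 816))) (T.b (T.l 816) (T.b (T.l 816) (T.l 816))))))) (T.b (T.a (T.b (T.b (T.l 816) (T.l 816)) (T.c (T.l 816) (T.l 816))) (T.b (T.l 820) (T.b (T.l 816) (T.l 820)))) (T.a (T.b (T.c (T.b (T.l 816) (T.l 816)) (T.b (T.l 816) (T.l 816))) (T.c (T.a (T.l 816) (T.l 816)) (T.a (T.b (T.l 816) (T.l 816)) (T.l 820)))) (T.b (T.c (T.l 820) (T.b (T.l 816) (T.l 816))) (T.c (T.c (T.l 816)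 (T.l 816)) (T.a (T.l 816) (T.l 816)))))))))), by decide +kernel⟩

def A202E_010 :
    ∃ t, chk3 (onCell 0 67108864 0 1073741824 469762048 67108864 (corT true 1 c0F cA202E gF0q2 gF1q0 gF0q2 gF1q2 true true)) t 1 1 1 = true :=
  ⟨(T.l 2), by decide +kernel⟩

def A202E_011 :
    ∃ t, chk3 (onCell 0 67108864 0 1073741824 469762048 67108864 (corT true 1 c0F cA202E gF0q2 gF1q0 gF1q2 gF2q2 true false)) t 1 1 1 = true :=
  ⟨(T.b (T.a (T.a (T.l 0) (T.l 0)) (T.b (T.l 0) (T.l 0))) (T.a (T.a (T.b (T.l 0) (T.b (T.l 816) (T.b (T.l 816) (T.c (T.l 816) (T.l 816))))) (T.a (T.b (T.l 816) (T.b (T.l 816) (T.b (T.l 816) (T.l 816)))) (T.b (T.l 0) (T.b (T.l 816) (T.b (T.l 816) (T.a (T.l 816) (T.b (T.l 816) (T.l 816)))))))) (T.b (T.a (T.l 0) (T.b (T.l 816) (T.l 816))) (T.a (T.b (T.b (T.l 816) (T.l 816)) (T.a (T.b (T.l 816) (T.b (T.l 820) (T.c (T.l 816) (T.c (T.l 816) (T.l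 816))))) (T.b (T.b (T.l 816) (T.l 816)) (T.c (T.a (T.l 816) (T.l 816)) (T.b (T.l 816) (T.a (T.l 816) (T.l 816))))))) (T.b (T.a (T.l 816) (T.l 816)) (T.a (T.b (T.l 820) (T.c (T.a (T.l 816) (T.l 816)) (T.a (T.b (T.l 816) (T.l 816)) (T.l 820)))) (T.b (T.l 816) (T.b (T.l 820) (T.c (T.b (T.l 816) (T.l 816)) (T.b (T.l 816) (T.l 820))))))))))), by decide +kernel⟩

def A202E_110 :
    ∃ t, chk3 (onCell 0 67108864 0 1073741824 469762048 67108864 (corT true 1 c0F cA202E gF1q2 gF1q0 gF0q2 gF1q2 true true)) t 1 1 1 = true :=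
  ⟨(T.l 2), by decide +kernel⟩

def A202E_111 :
    ∃ t, chk3 (onCell 0 67108864 0 1073741824 469762048 67108864 (corT true 1 c0F cA202E gF1q2 gF1q0 gF1q2 gF2q2 true false)) t 1 1 1 = true :=
  ⟨(T.b (T.a (T.a (T.l 0) (T.l 0)) (T.b (T.l 0) (T.a (T.l 0) (T.b (T.l 0) (T.l 0))))) (T.a (T.a (T.b (T.l 816) (T.b (T.l 816) (T.c (T.l 816) (T.l 816)))) (T.a (T.b (T.l 816) (T.c (T.l 816) (T.b (T.l 816) (T.l 816)))) (T.b (T.l 816) (T.b (T.l 816) (T.a (T.b (T.l 816) (T.l 816)) (T.b (T.l 816) (T.a (T.l 816) (T.c (T.l 816) (T.l 816))))))))) (T.b (T.a (T.a (T.l 816) (T.b (T.l 816) (T.l 816))) (T.b (T.l 0) (T.l 816))) (T.a (T.a (T.b (T.b (T.l 816) (T.l 816)) (T.b (T.c (T.l 816) (T.l 816)) (T.a (T.b (T.l 816) (T.c (T.l 816) (T.l 816))) (T.b (T.l 816) (T.c (T.l 816) (T.l 816)))))) (T.b (T.l 816) (T.b (T.b (T.l 816) (T.l 816)) (T.a (T.b (T.l 816) (T.c (T.l 816) (T.l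 816))) (T.b (T.l 816) (T.c (T.l 816) (T.l 816))))))) (T.b (T.a (T.l 816) (T.l 816)) (T.a (T.b (T.l 816) (T.a (T.b (T.l 816) (T.c (T.l 816) (T.l 816))) (T.b (T.l 816) (T.c (T.l 816) (T.l 816))))) (T.b (T.l 816) (T.b (T.c (T.l 816) (T.l 816)) (T.c (T.c (T.l 816) (T.l 884)) (T.a (T.l 816) (T.l 816))))))))))), by decide +kernel⟩

def A202R_003 :
    ∃ t, chk3 (onCell 0 67108864 0 1073741824 469762048 67108864 (corX 1 c0F cA202R tA202R gF0q2 gF0q0 gF3q2 gF4q2 gF4q2 false true)) t 1 1 1 = true :=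
  ⟨(T.a (T.b (T.b (T.l 2) (T.a (T.a (T.a (T.b (T.l 819) (T.l 819)) (T.l 883)) (T.b (T.l 819) (T.l 883))) (T.a (T.b (T.l 819) (T.l 819)) (T.b (T.l 819) (T.l 819))))) (T.a (T.b (T.a (T.b (T.b (T.l 819) (T.l 819)) (T.c (T.l 819) (T.l 819))) (T.a (T.l 883) (T.l 883))) (T.a (T.b (T.c (T.l 819) (T.l 819)) (T.c (T.l 819) (T.l 819))) (T.b (T.b (T.l 819) (T.l 819)) (T.c (T.l 819) (T.l 819))))) (T.b (T.a (T.a (T.l 819) (T.l 819)) (T.b (T.l 819) (T.l 883))) (T.a (T.b (T.b (T.l 819) (T.l 819)) (T.c (T.l 819) (T.l 819))) (T.b (T.b (T.l 819) (T.l 819)) (T.b (T.l 819) (T.l 883))))))) (T.b (T.b (T.l 2) (T.a (T.a (T.l 883) (T.l 883)) (T.b (T.l 819) (T.l 883)))) (T.a (T.b (T.b (T.b (T.l 819) (T.l 883)) (T.a (T.l 819) (T.l 819))) (T.b (T.a (T.b (T.l 819) (T.l 819)) (T.b (T.l 819) (T.l 819))) (T.a (T.b (T.l 819) (T.l 883)) (T.b (T.c (T.l 816) (T.b (T.l 816) (T.l 816)))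 (T.c (T.l 816) (T.b (T.l 816) (T.l 816))))))) (T.b (T.b (T.b (T.l 819) (T.l 819)) (T.a (T.l 819) (T.b (T.b (T.l 819) (T.l 880)) (T.b (T.l 880) (T.l 880))))) (T.b (T.a (T.b (T.c (T.l 816) (T.l 880)) (T.c (T.l 816) (T.l 880))) (T.b (T.b (T.l 880) (T.l 880)) (T.b (T.l 880) (T.l 880)))) (T.a (T.b (T.c (T.l 816) (T.l 880)) (T.c (T.l 816) (T.b (T.l 816) (T.l 816)))) (T.b (T.b (T.l 880) (T.l 880)) (T.c (T.l 816) (T.l 816))))))))), by decide +kernel⟩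

def A202R_013 :
    ∃ t, chk3 (onCell 0 67108864 0 1073741824 469762048 67108864 (corT true 1 c0F cA202R gF0q2 gF1q0 gF3q2 gF4q2 false true)) t 1 1 1 = true :=
  ⟨(T.b (T.l 2) (T.a (T.b (T.l 0) (T.b (T.l 816) (T.b (T.l 816) (T.a (T.b (T.l 816) (T.c (T.l 816) (T.l 816))) (T.c (T.l 816) (T.l 816)))))) (T.b (T.a (T.l 0) (T.b (T.l 0) (T.l 816))) (T.a (T.b (T.l 816) (T.a (T.c (T.l 816) (T.l 880)) (T.b (T.l 816) (T.c (T.l 816) (T.b (T.l 816) (T.l 816)))))) (T.b (T.b (T.l 816) (T.l 816)) (T.b (T.b (T.l 816) (T.l 816)) (T.a (T.c (T.l 816) (T.b (T.l 816) (T.l 816))) (T.c (T.l 816) (T.l 816))))))))), by decide +kernel⟩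

def A202R_113 :
    ∃ t, chk3 (onCell 0 67108864 0 1073741824 469762048 67108864 (corT true 1 c0F cA202R gF1q2 gF1q0 gF3q2 gF4q2 false true)) t 1 1 1 = true :=
  ⟨(T.b (T.l 2) (T.b (T.l 2) (T.b (T.a (T.l 0) (T.a (T.l 0) (T.l 0))) (T.a (T.a (T.l 816) (T.a (T.l 816) (T.l 0))) (T.a (T.b (T.l 0) (T.l 0)) (T.l 0)))))), by decide +kernel⟩

def B011E_000 :
    ∃ t, chk3 (onCell 0 67108864 0 1073741824 469762048 67108864 (corT true 1 c0F cB011E gF0q0 gF0q1 gF0q1 gF1q1 true false)) t 1 1 1 = true :=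
  ⟨(T.l 1), by decide +kernel⟩

def B011E_100 :
    ∃ t, chk3 (onCell 0 67108864 0 1073741824 469762048 67108864 (corT true 1 c0F cB011E gF1q0 gF0q1 gF0q1 gF1q1 true false)) t 1 1 1 = true :=
  ⟨(T.l 1), by decide +kernel⟩

def B011L_020 :
    ∃ t, chk3 (onCell 0 67108864 0 1073741824 469762048 67108864 (corT true 1 c0F cB011L gF0q0 gF2q1 gF0q1 gF1q1 true false)) t 1 1 1 = true :=
  ⟨(T.l 1), by decide +kernel⟩

def B011L_030 :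
    ∃ t, chk3 (onCell 0 67108864 0 1073741824 469762048 67108864 (corT true 1 c0F cB011L gF0q0 gF3q1 gF0q1 gF1q1 true false)) t 1 1 1 = true :=
  ⟨(T.l 1), by decide +kernel⟩

def B011L_040 :
    ∃ t, chk3 (onCell 0 67108864 0 1073741824 469762048 67108864 (corT true 1 c0F cB011L gF0q0 gF4q1 gF0q1 gF1q1 true false)) t 1 1 1 = true :=
  ⟨(T.l 1), by decide +kernel⟩

def B011L_120 :
    ∃ t, chk3 (onCell 0 67108864 0 1073741824 469762048 67108864 (corT true 1 c0F cB011L gF1q0 gF2q1 gF0q1 gF1q1 true false)) t 1 1 1 = true :=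
  ⟨(T.l 1), by decide +kernel⟩

def B011L_130 :
    ∃ t, chk3 (onCell 0 67108864 0 1073741824 469762048 67108864 (corT true 1 c0F cB011L gF1q0 gF3q1 gF0q1 gF1q1 true false)) t 1 1 1 = true :=
  ⟨(T.l 1), by decide +kernel⟩

def B011L_140 :
    ∃ t, chk3 (onCell 0 67108864 0 1073741824 469762048 67108864 (corT true 1 c0F cB011L gF1q0 gF4q1 gF0q1 gF1q1 true false)) t 1 1 1 = true :=
  ⟨(T.l 1), by decide +kernel⟩

def B011R_001 :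
    ∃ t, chk3 (onCell 0 67108864 0 1073741824 469762048 67108864 (corT true 1 c0F cB011R gF0q0 gF0q1 gF1q1 gF2q1 false true)) t 1 1 1 = true :=
  ⟨(T.b (T.b (T.b (T.b (T.l 220) (T.l 220)) (T.l 2)) (T.l 2)) (T.l 2)), by decide +kernel⟩

def B011R_002 :
    ∃ t, chk3 (onCell 0 67108864 0 1073741824 469762048 67108864 (corT true 1 c0F cB011R gF0q0 gF0q1 gF2q1 gF3q1 true true)) t 1 1 1 = true :=
  ⟨(T.b (T.b (T.b (T.b (T.l 1) (T.a (T.l 204) (T.l 204))) (T.b (T.a (T.l 16) (T.l 0)) (T.b (T.l 0) (T.l 2)))) (T.l 2)) (T.l 2)), by decide +kernel⟩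

def B011R_003 :
    ∃ t, chk3 (onCell 0 67108864 0 1073741824 469762048 67108864 (corX 1 c0F cB011R tB011R gF0q0 gF0q1 gF3q1 gF4q1 gF4q1 true true)) t 1 1 1 = true :=
  ⟨(T.b (T.a (T.a (T.l 3) (T.l 19)) (T.c (T.b (T.l 207) (T.l 207)) (T.l 3))) (T.l 2)), by decide +kernel⟩

def B011R_101 :
    ∃ t, chk3 (onCell 0 67108864 0 1073741824 469762048 67108864 (corT true 1 c0F cB011R gF1q0 gF0q1 gF1q1 gF2q1 false true)) t 1 1 1 = true :=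
  ⟨(T.l 2), by decide +kernel⟩

def B011R_102 :
    ∃ t, chk3 (onCell 0 67108864 0 1073741824 469762048 67108864 (corT true 1 c0F cB011R gF1q0 gF0q1 gF2q1 gF3q1 true true)) t 1 1 1 = true :=
  ⟨(T.l 2), by decide +kernel⟩

def B011R_103 :
    ∃ t, chk3 (onCell 0 67108864 0 1073741824 469762048 67108864 (corT true 1 c0F cB011R gF1q0 gF0q1 gF3q1 gF4q1 true true)) t 1 1 1 = true :=
  ⟨(T.l 2), by decide +kernel⟩

def B012E_000 :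
    ∃ t, chk3 (onCell 0 67108864 0 1073741824 469762048 67108864 (corX 1 c0F cB012E tB012E gF0q0 gF0q2 gF0q1 gF1q1 gF0q1 true false)) t 1 1 1 = true :=
  ⟨(T.b (T.b (T.l 1) (T.b (T.l 1) (T.a (T.l 3) (T.l 259)))) (T.a (T.a (T.l 3) (T.b (T.l 3) (T.l 3))) (T.b (T.b (T.l 3) (T.a (T.l 207) (T.a (T.l 207) (T.b (T.b (T.l 207) (T.l 204)) (T.b (T.l 204) (T.l 204)))))) (T.a (T.b (T.l 207) (T.a (T.l 207) (T.b (T.l 204) (T.l 204)))) (T.b (T.b (T.c (T.l 204) (T.b (T.l 204) (T.l 204))) (T.a (T.l 204) (T.l 204))) (T.a (T.b (T.l 204) (T.l 204)) (T.b (T.l 204) (T.l 204)))))))), by decide +kernel⟩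

def B012E_010 :
    ∃ t, chk3 (onCell 0 67108864 0 1073741824 469762048 67108864 (corT true 1 c0F cB012E gF0q0 gF1q2 gF0q1 gF1q1 true false)) t 1 1 1 = true :=
  ⟨(T.b (T.l 1) (T.b (T.b (T.l 1) (T.a (T.b (T.b (T.a (T.l 1) (T.a (T.l 1) (T.l 1))) (T.c (T.l 816) (T.a (T.l 816) (T.l 816)))) (T.c (T.l 816) (T.a (T.l 816) (T.l 816)))) (T.a (T.a (T.b (T.b (T.b (T.l 1) (T.l 880)) (T.l 816)) (T.l 816)) (T.b (T.a (T.b (T.b (T.l 1) (T.l 816)) (T.l 816)) (T.b (T.b (T.l 1) (T.b (T.l 1) (T.c (T.l 816) (T.l 816)))) (T.c (T.l 880) (T.l 880)))) (T.b (T.a (T.c (T.l 816) (T.l 816)) (T.c (T.l 816) (T.l 816))) (T.c (T.l 816) (T.l 880))))) (T.b (T.a (T.b (T.b (T.l 1) (T.a (T.b (T.l 1) (T.l 880)) (T.c (T.l 816) (T.l 816)))) (T.a (T.c (T.l 816) (T.l 816)) (T.c (T.l 816) (T.l 816)))) (T.b (T.b (T.l 1) (T.c (T.l 880) (T.l 880))) (T.c (T.l 880) (T.b (T.l 816) (T.l 816)))))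 (T.a (T.b (T.c (T.l 816) (T.l 880)) (T.c (T.l 816) (T.l 816))) (T.b (T.c (T.l 816) (T.l 816)) (T.l 816))))))) (T.b (T.a (T.b (T.l 816) (T.l 816)) (T.a (T.a (T.b (T.a (T.l 816) (T.b (T.l 816) (T.l 816))) (T.a (T.l 816) (T.l 816))) (T.b (T.a (T.b (T.l 816) (T.l 816)) (T.l 880)) (T.b (T.l 816) (T.l 816)))) (T.b (T.a (T.b (T.l 816) (T.l 816)) (T.b (T.l 816) (T.l 816))) (T.a (T.l 880) (T.l 816))))) (T.a (T.a (T.l 816) (T.a (T.l 816) (T.b (T.l 816) (T.b (T.l 816) (T.l 816))))) (T.a (T.a (T.b (T.b (T.l 816) (T.l 816)) (T.b (T.l 816) (T.l 816))) (T.b (T.l 816) (T.l 816))) (T.a (T.b (T.l 816) (T.l 816)) (T.b (T.l 816) (T.l 816)))))))), by decide +kernel⟩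

def B012E_100 :
    ∃ t, chk3 (onCell 0 67108864 0 1073741824 469762048 67108864 (corT true 1 c0F cB012E gF1q0 gF0q2 gF0q1 gF1q1 true false)) t 1 1 1 = true :=
  ⟨(T.b (T.b (T.b (T.l 1) (T.b (T.l 1) (T.b (T.l 1) (T.l 0)))) (T.b (T.a (T.l 0) (T.l 0)) (T.l 0))) (T.a (T.l 0) (T.b (T.b (T.l 0) (T.l 0)) (T.b (T.l 0) (T.l 0))))), by decide +kernel⟩

def B012E_110 :
    ∃ t, chk3 (onCell 0 67108864 0 1073741824 469762048 67108864 (corT true 1 c0F cB012E gF1q0 gF1q2 gF0q1 gF1q1 true false)) t 1 1 1 = true :=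
  ⟨(T.b (T.b (T.l 1) (T.a (T.l 0) (T.b (T.l 0) (T.b (T.l 816) (T.l 0))))) (T.b (T.a (T.l 0) (T.a (T.b (T.l 816) (T.l 0)) (T.l 0))) (T.a (T.a (T.l 816) (T.b (T.l 816) (T.l 0))) (T.a (T.l 0) (T.l 0))))), by decide +kernel⟩

def B012L_040 :
    ∃ t, chk3 (onCell 0 67108864 0 1073741824 469762048 67108864 (corT true 1 c0F cB012L gF0q0 gF4q2 gF0q1 gF1q1 true false)) t 1 1 1 = true :=
  ⟨(T.l 1), by decide +kernel⟩

def B012L_140 :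
    ∃ t, chk3 (onCell 0 67108864 0 1073741824 469762048 67108864 (corT true 1 c0F cB012L gF1q0 gF4q2 gF0q1 gF1q1 true false)) t 1 1 1 = true :=
  ⟨(T.l 1), by decide +kernel⟩

def B012R_001 :
    ∃ t, chk3 (onCell 0 67108864 0 1073741824 469762048 67108864 (corT true 1 c0F cB012R gF0q0 gF0q2 gF1q1 gF2q1 false true)) t 1 1 1 = true :=
  ⟨(T.b (T.b (T.b (T.a (T.l 220) (T.l 220)) (T.l 204)) (T.b (T.l 0) (T.l 0))) (T.a (T.b (T.l 0) (T.l 816)) (T.b (T.a (T.l 0) (T.b (T.l 0) (T.l 0))) (T.a (T.b (T.l 816) (T.l 816)) (T.b (T.l 816) (T.l 816)))))), by decide +kernel⟩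

def B012R_002 :
    ∃ t, chk3 (onCell 0 67108864 0 1073741824 469762048 67108864 (corT true 1 c0F cB012R gF0q0 gF0q2 gF2q1 gF3q1 true true)) t 1 1 1 = true :=
  ⟨(T.b (T.l 1) (T.l 1)), by decide +kernel⟩

def B012R_003 :
    ∃ t, chk3 (onCell 0 67108864 0 1073741824 469762048 67108864 (corT true 1 c0F cB012R gF0q0 gF0q2 gF3q1 gF4q1 true true)) t 1 1 1 = true :=
  ⟨(T.b (T.l 1) (T.l 1)), by decide +kernel⟩

def B012R_011 :
    ∃ t, chk3 (onCell 0 67108864 0 1073741824 469762048 67108864 (corT true 1 c0F cB012R gF0q0 gF1q2 gF1q1 gF2q1 false true)) t 1 1 1 = true :=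
  ⟨(T.b (T.b (T.b (T.a (T.l 204) (T.l 204)) (T.l 0)) (T.b (T.l 0) (T.a (T.l 816) (T.a (T.l 816) (T.l 0))))) (T.b (T.a (T.l 816) (T.a (T.b (T.l 816) (T.b (T.l 816) (T.l 816))) (T.b (T.l 816) (T.l 816)))) (T.a (T.a (T.l 816) (T.a (T.l 816) (T.b (T.l 816) (T.l 816)))) (T.a (T.a (T.b (T.l 816) (T.l 816)) (T.b (T.l 816) (T.l 816))) (T.b (T.l 816) (T.b (T.l 816) (T.l 816))))))), by decide +kernel⟩

def B012R_012 :
    ∃ t, chk3 (onCell 0 67108864 0 1073741824 469762048 67108864 (corT true 1 c0F cB012R gF0q0 gF1q2 gF2q1 gF3q1 true true)) t 1 1 1 = true :=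
  ⟨(T.b (T.l 1) (T.l 1)), by decide +kernel⟩

def B012R_013 :
    ∃ t, chk3 (onCell 0 67108864 0 1073741824 469762048 67108864 (corT true 1 c0F cB012R gF0q0 gF1q2 gF3q1 gF4q1 true true)) t 1 1 1 = true :=
  ⟨(T.l 1), by decide +kernel⟩

def B012R_101 :
    ∃ t, chk3 (onCell 0 67108864 0 1073741824 469762048 67108864 (corT true 1 c0F cB012R gF1q0 gF0q2 gF1q1 gF2q1 false true)) t 1 1 1 = true :=
  ⟨(T.b (T.l 0) (T.a (T.l 816) (T.b (T.b (T.l 816) (T.l 816)) (T.b (T.l 816) (T.l 816))))), by decide +kernel⟩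

def B012R_102 :
    ∃ t, chk3 (onCell 0 67108864 0 1073741824 469762048 67108864 (corT true 1 c0F cB012R gF1q0 gF0q2 gF2q1 gF3q1 true true)) t 1 1 1 = true :=
  ⟨(T.b (T.l 816) (T.a (T.l 816) (T.l 1))), by decide +kernel⟩

def B012R_103 :
    ∃ t, chk3 (onCell 0 67108864 0 1073741824 469762048 67108864 (corT true 1 c0F cB012R gF1q0 gF0q2 gF3q1 gF4q1 true true)) t 1 1 1 = true :=
  ⟨(T.b (T.l 0) (T.b (T.l 1) (T.l 1))), by decide +kernel⟩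

def B012R_111 :
    ∃ t, chk3 (onCell 0 67108864 0 1073741824 469762048 67108864 (corT true 1 c0F cB012R gF1q0 gF1q2 gF1q1 gF2q1 false true)) t 1 1 1 = true :=
  ⟨(T.b (T.l 2) (T.b (T.a (T.l 2) (T.l 2)) (T.a (T.b (T.l 816) (T.a (T.l 816) (T.b (T.l 816) (T.l 816)))) (T.a (T.b (T.l 816) (T.l 816)) (T.l 816))))), by decide +kernel⟩

def B012R_112 :
    ∃ t, chk3 (onCell 0 67108864 0 1073741824 469762048 67108864 (corT true 1 c0F cB012R gF1q0 gF1q2 gF2q1 gF3q1 true true)) t 1 1 1 = true :=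
  ⟨(T.b (T.l 2) (T.b (T.a (T.l 2) (T.a (T.b (T.l 2) (T.l 816)) (T.l 816))) (T.a (T.b (T.l 816) (T.a (T.l 816) (T.b (T.l 816) (T.l 1)))) (T.a (T.b (T.l 816) (T.l 1)) (T.l 816))))), by decide +kernel⟩

def B012R_113 :
    ∃ t, chk3 (onCell 0 67108864 0 1073741824 469762048 67108864 (corT true 1 c0F cB012R gF1q0 gF1q2 gF3q1 gF4q1 true true)) t 1 1 1 = true :=
  ⟨(T.b (T.b (T.l 2) (T.l 2)) (T.b (T.a (T.l 816) (T.a (T.b (T.l 816) (T.l 816)) (T.l 816))) (T.a (T.b (T.l 816) (T.a (T.l 816) (T.b (T.l 816) (T.l 1)))) (T.b (T.b (T.l 816) (T.l 816)) (T.l 1))))), by decide +kernel⟩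

def B022E_000 :
    ∃ t, chk3 (onCell 0 67108864 0 1073741824 469762048 67108864 (corT true 1 c0F cB022E gF0q0 gF0q2 gF0q2 gF1q2 true true)) t 1 1 1 = true :=
  ⟨(T.l 2), by decide +kernel⟩

def B022E_001 :
    ∃ t, chk3 (onCell 0 67108864 0 1073741824 469762048 67108864 (corT true 1 c0F cB022E gF0q0 gF0q2 gF1q2 gF2q2 true false)) t 1 1 1 = true :=
  ⟨(T.b (T.b (T.a (T.a (T.b (T.c (T.l 204) (T.l 460)) (T.l 204)) (T.a (T.c (T.l 204) (T.l 204)) (T.b (T.a (T.l 204) (T.b (T.c (T.l 204) (T.l 204)) (T.l 204))) (T.l 204)))) (T.a (T.a (T.b (T.b (T.a (T.c (T.l 204) (T.l 204)) (T.c (T.l 204) (T.l 204))) (T.a (T.l 204) (T.l 204))) (T.b (T.b (T.l 204) (T.l 204)) (T.l 204))) (T.b (T.a (T.b (T.c (T.l 204) (T.b (T.l 204) (T.l 204))) (T.b (T.l 204) (T.l 204))) (T.b (T.c (T.l 204) (T.b (T.l 204) (T.l 204))) (T.b (T.l 204) (T.l 204)))) (T.b (T.c (T.l 204) (T.l 204))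 (T.l 460)))) (T.b (T.a (T.b (T.c (T.a (T.l 204) (T.l 204)) (T.a (T.l 460) (T.l 204))) (T.c (T.l 204) (T.b (T.l 204) (T.l 204)))) (T.b (T.c (T.b (T.l 460) (T.l 204)) (T.a (T.l 204) (T.l 204))) (T.c (T.l 204) (T.l 204)))) (T.a (T.b (T.b (T.l 204) (T.l 204)) (T.l 204)) (T.b (T.l 460) (T.l 204)))))) (T.a (T.b (T.l 204) (T.l 204)) (T.a (T.a (T.l 204) (T.b (T.b (T.l 204) (T.l 204)) (T.l 204))) (T.b (T.a (T.b (T.l 204) (T.l 204)) (T.l 460)) (T.b (T.l 460) (T.l 204)))))) (T.a (T.b (T.l 0) (T.b (T.l 816) (T.b (T.l 816) (T.a (T.b (T.l 816) (T.c (T.l 816) (T.l 816))) (T.b (T.l 816) (T.c (T.l 816) (T.l 816))))))) (T.b (T.a (T.l 0) (T.b (T.b (T.l 204) (T.l 204)) (T.l 0))) (T.a (T.b (T.b (T.l 816) (T.l 816)) (T.a (T.b (T.l 816) (T.c (T.l 816) (T.l 816))) (T.b (T.l 816) (T.c (T.c (T.l 816) (T.l 816)) (T.c (T.l 816) (T.l 816)))))) (T.b (T.l 816) (T.a (T.b (T.l 816)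 (T.b (T.l 816) (T.c (T.c (T.l 816) (T.l 816)) (T.c (T.l 816) (T.l 816))))) (T.b (T.l 816) (T.b (T.l 816) (T.c (T.l 816) (T.l 816)))))))))), by decide +kernel⟩

def B022E_010 :
    ∃ t, chk3 (onCell 0 67108864 0 1073741824 469762048 67108864 (corT true 1 c0F cB022E gF0q0 gF1q2 gF0q2 gF1q2 true true)) t 1 1 1 = true :=
  ⟨(T.l 2), by decide +kernel⟩

def B022E_011_1_2_1 :
    ∃ t, chk3 (onCell 0 67108864 0 1073741824 469762048 67108864 (corT true 1 c0F cB022E gF0q0 gF1q2 gF1q2 gF2q2 true false)) t 1 2 1 = true :=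
  ⟨(T.b (T.a (T.a (T.b (T.c (T.l 204) (T.l 204)) (T.l 204)) (T.a (T.c (T.l 204) (T.l 204)) (T.b (T.a (T.l 204) (T.a (T.l 204) (T.c (T.l 204) (T.b (T.l 204) (T.l 204))))) (T.l 460)))) (T.a (T.a (T.b (T.a (T.b (T.c (T.b (T.l 204) (T.l 204)) (T.b (T.l 204) (T.l 204))) (T.b (T.l 204) (T.l 204))) (T.b (T.c (T.b (T.l 204) (T.l 204)) (T.b (T.l 204) (T.l 204))) (T.b (T.l 204) (T.l 204)))) (T.a (T.b (T.l 204) (T.l 204)) (T.b (T.l 204) (T.l 204)))) (T.b (T.a (T.b (T.c (T.b (T.l 204) (T.l 204)) (T.b (T.l 204) (T.l 204))) (T.b (T.l 204) (T.l 204))) (T.b (T.c (T.b (T.l 204) (T.l 204)) (T.b (T.l 204) (T.l 204))) (T.b (T.l 204) (T.l 204)))) (T.b (T.c (T.l 204) (T.l 204)) (T.b (T.l 204) (T.l 204))))) (T.b (T.a (T.b (T.a (T.c (T.l 476) (T.b (T.l 204) (T.l 204))) (T.c (T.l 460) (T.l 476))) (T.a (T.b (T.l 204) (T.l 204)) (T.l 476))) (T.b (T.c (T.a (T.l 204) (T.l 204))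 (T.a (T.l 460) (T.l 204))) (T.c (T.l 204) (T.l 460)))) (T.a (T.b (T.b (T.l 460) (T.l 204)) (T.l 204)) (T.b (T.b (T.l 204) (T.l 204)) (T.l 204)))))) (T.a (T.a (T.l 204) (T.a (T.l 204) (T.l 204))) (T.a (T.a (T.l 204) (T.b (T.b (T.l 204) (T.l 204)) (T.l 204))) (T.b (T.a (T.b (T.l 204) (T.l 204)) (T.b (T.l 204) (T.l 204))) (T.a (T.l 204) (T.l 204)))))), by decide +kernel⟩

def B022E_011_1_3_1 :
    ∃ t, chk3 (onCell 0 67108864 0 1073741824 469762048 67108864 (corT true 1 c0F cB022E gF0q0 gF1q2 gF1q2 gF2q2 true false)) t 1 3 1 = true :=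
  ⟨(T.b (T.b (T.a (T.a (T.l 204) (T.a (T.l 204) (T.l 204))) (T.a (T.l 204) (T.b (T.l 204) (T.l 204)))) (T.a (T.a (T.l 0) (T.a (T.l 0) (T.l 0))) (T.a (T.l 0) (T.l 0)))) (T.a (T.a (T.b (T.l 816) (T.b (T.l 816) (T.l 816))) (T.a (T.b (T.l 816) (T.l 816)) (T.b (T.l 0) (T.a (T.l 816) (T.c (T.l 816) (T.l 816)))))) (T.a (T.b (T.l 0) (T.a (T.c (T.l 816) (T.l 816)) (T.b (T.l 816) (T.l 816)))) (T.b (T.l 0) (T.a (T.l 816) (T.l 816)))))), by decide +kernel⟩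

theorem B022E_011 :
    ∃ t, chk3 (onCell 0 67108864 0 1073741824 469762048 67108864 (corT true 1 c0F cB022E gF0q0 gF1q2 gF1q2 gF2q2 true false)) t 1 1 1 = true :=
  ex3_b B022E_011_1_2_1 B022E_011_1_3_1

def B022E_100 :
    ∃ t, chk3 (onCell 0 67108864 0 1073741824 469762048 67108864 (corT true 1 c0F cB022E gF1q0 gF0q2 gF0q2 gF1q2 true true)) t 1 1 1 = true :=
  ⟨(T.l 2), by decide +kernel⟩

def B022E_101 :
    ∃ t, chk3 (onCell 0 67108864 0 1073741824 469762048 67108864 (corT true 1 c0F cB022E gF1q0 gF0q2 gF1q2 gF2q2 true false)) t 1 1 1 = true :=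
  ⟨(T.a (T.b (T.b (T.a (T.b (T.c (T.l 204) (T.b (T.l 204) (T.l 204))) (T.l 204)) (T.a (T.c (T.l 204) (T.l 204)) (T.b (T.a (T.l 204) (T.b (T.c (T.l 204) (T.l 204)) (T.l 204))) (T.l 204)))) (T.l 0)) (T.l 0)) (T.b (T.b (T.a (T.a (T.b (T.b (T.a (T.c (T.l 204) (T.l 204)) (T.c (T.l 204) (T.l 204))) (T.l 204)) (T.l 204)) (T.b (T.b (T.c (T.a (T.l 204) (T.l 204)) (T.b (T.a (T.l 204) (T.l 204)) (T.l 204))) (T.b (T.l 204) (T.l 204))) (T.l 204))) (T.b (T.a (T.b (T.c (T.a (T.l 204) (T.l 204)) (T.a (T.l 460) (T.l 204))) (T.l 204)) (T.b (T.b (T.c (T.l 460) (T.b (T.l 204) (T.l 204))) (T.l 204)) (T.l 204))) (T.a (T.l 204) (T.l 204)))) (T.a (T.a (T.l 0) (T.b (T.l 204) (T.l 0))) (T.b (T.l 204) (T.l 0)))) (T.b (T.a (T.l 0) (T.b (T.l 0) (T.l 0))) (T.l 816)))), by decide +kernel⟩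

def B022E_110 :
    ∃ t, chk3 (onCell 0 67108864 0 1073741824 469762048 67108864 (corT true 1 c0F cB022E gF1q0 gF1q2 gF0q2 gF1q2 true true)) t 1 1 1 = true :=
  ⟨(T.l 2), by decide +kernel⟩

def B022E_111 :
    ∃ t, chk3 (onCell 0 67108864 0 1073741824 469762048 67108864 (corT true 1 c0F cB022E gF1q0 gF1q2 gF1q2 gF2q2 true false)) t 1 1 1 = true :=
  ⟨(T.b (T.a (T.a (T.b (T.b (T.c (T.b (T.l 204) (T.l 204)) (T.l 204)) (T.l 204)) (T.l 204)) (T.b (T.a (T.c (T.l 204) (T.b (T.l 204) (T.l 204))) (T.b (T.a (T.b (T.l 204) (T.l 204)) (T.b (T.a (T.l 204) (T.c (T.l 204) (T.l 204))) (T.l 204))) (T.l 204))) (T.b (T.l 204) (T.l 0)))) (T.b (T.a (T.b (T.a (T.b (T.a (T.b (T.c (T.l 204) (T.l 204)) (T.l 204)) (T.b (T.c (T.l 204) (T.l 204)) (T.l 204))) (T.b (T.l 460) (T.l 204))) (T.b (T.a (T.b (T.c (T.l 204) (T.l 204)) (T.l 204)) (T.b (T.c (T.l 204) (T.l 204)) (T.l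 204))) (T.l 460))) (T.a (T.l 460) (T.l 204))) (T.b (T.a (T.b (T.b (T.a (T.c (T.l 204) (T.l 204)) (T.c (T.l 204) (T.l 204))) (T.c (T.l 204) (T.l 204))) (T.l 204)) (T.b (T.b (T.c (T.c (T.l 204) (T.l 204)) (T.c (T.l 204) (T.l 460))) (T.l 460)) (T.l 204))) (T.a (T.l 204) (T.l 204)))) (T.a (T.a (T.l 204) (T.b (T.l 204) (T.l 204))) (T.b (T.l 204) (T.l 0))))) (T.a (T.a (T.l 0) (T.l 0)) (T.b (T.a (T.l 0) (T.b (T.l 0) (T.l 0))) (T.l 0)))), by decide +kernel⟩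

def B022L_040 :
    ∃ t, chk3 (onCell 0 67108864 0 1073741824 469762048 67108864 (corX 1 c0F cB022L tB022L gF0q0 gF4q2 gF0q2 gF1q2 gF0q2 true true)) t 1 1 1 = true :=
  ⟨(T.b (T.b (T.l 2) (T.a (T.l 207) (T.b (T.b (T.l 2) (T.a (T.l 3) (T.b (T.l 2) (T.l 3)))) (T.a (T.l 207) (T.b (T.l 3) (T.l 3)))))) (T.b (T.b (T.b (T.a (T.l 207) (T.a (T.l 207) (T.l 3))) (T.l 207)) (T.a (T.l 207) (T.l 207))) (T.l 1))), by decide +kernel⟩

def B022L_041 :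
    ∃ t, chk3 (onCell 0 67108864 0 1073741824 469762048 67108864 (corT true 1 c0F cB022L gF0q0 gF4q2 gF1q2 gF2q2 true false)) t 1 1 1 = true :=
  ⟨(T.b (T.b (T.b (T.a (T.a (T.l 204) (T.a (T.l 204) (T.l 0))) (T.a (T.b (T.l 0) (T.l 0)) (T.l 0))) (T.a (T.l 204) (T.a (T.b (T.l 0) (T.l 0)) (T.l 0)))) (T.b (T.a (T.l 204) (T.a (T.b (T.l 0) (T.l 0)) (T.b (T.l 0) (T.l 0)))) (T.l 1))) (T.l 1)), by decide +kernel⟩

def B022L_140 :
    ∃ t, chk3 (onCell 0 67108864 0 1073741824 469762048 67108864 (corT true 1 c0F cB022L gF1q0 gF4q2 gF0q2 gF1q2 true true)) t 1 1 1 = true :=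
  ⟨(T.b (T.b (T.b (T.l 2) (T.a (T.l 0) (T.a (T.l 0) (T.b (T.l 2) (T.l 0))))) (T.a (T.l 0) (T.b (T.a (T.l 0) (T.b (T.l 0) (T.l 0))) (T.b (T.l 0) (T.l 0))))) (T.l 1)), by decide +kernel⟩

def B022L_141 :
    ∃ t, chk3 (onCell 0 67108864 0 1073741824 469762048 67108864 (corT true 1 c0F cB022L gF1q0 gF4q2 gF1q2 gF2q2 true false)) t 1 1 1 = true :=
  ⟨(T.b (T.b (T.b (T.a (T.a (T.l 204) (T.a (T.l 204) (T.l 0))) (T.a (T.l 0) (T.l 0))) (T.a (T.l 204) (T.a (T.l 0) (T.l 0)))) (T.l 1)) (T.l 1)), by decide +kernel⟩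

def B022R_003 :
    ∃ t, chk3 (onCell 0 67108864 0 1073741824 469762048 67108864 (corT true 1 c0F cB022R gF0q0 gF0q2 gF3q2 gF4q2 false true)) t 1 1 1 = true :=
  ⟨(T.a (T.b (T.b (T.b (T.b (T.a (T.b (T.l 220) (T.l 204)) (T.l 220)) (T.l 204)) (T.l 204)) (T.l 204)) (T.l 0)) (T.b (T.a (T.b (T.a (T.b (T.l 204) (T.l 204)) (T.c (T.l 204) (T.l 204))) (T.l 204)) (T.b (T.b (T.a (T.b (T.l 220) (T.l 204)) (T.l 204)) (T.l 204)) (T.l 204))) (T.b (T.l 16) (T.l 0)))), by decide +kernel⟩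

def B022R_013 :
    ∃ t, chk3 (onCell 0 67108864 0 1073741824 469762048 67108864 (corT true 1 c0F cB022R gF0q0 gF1q2 gF3q2 gF4q2 false true)) t 1 1 1 = true :=
  ⟨(T.a (T.a (T.l 80) (T.a (T.l 0) (T.b (T.l 0) (T.l 816)))) (T.a (T.b (T.l 0) (T.l 816)) (T.b (T.l 0) (T.l 816)))), by decide +kernel⟩

def B022R_103 :
    ∃ t, chk3 (onCell 0 67108864 0 1073741824 469762048 67108864 (corT true 1 c0F cB022R gF1q0 gF0q2 gF3q2 gF4q2 false true)) t 1 1 1 = true :=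
  ⟨(T.a (T.b (T.b (T.b (T.b (T.b (T.a (T.c (T.l 204) (T.l 204)) (T.l 204)) (T.l 204)) (T.l 204)) (T.l 204)) (T.l 0)) (T.l 0)) (T.b (T.b (T.a (T.b (T.a (T.l 204) (T.c (T.l 204) (T.l 204))) (T.l 204)) (T.b (T.b (T.a (T.b (T.l 204) (T.l 204)) (T.l 204)) (T.l 204)) (T.l 204))) (T.l 0)) (T.l 0))), by decide +kernel⟩

def B022R_113 :
    ∃ t, chk3 (onCell 0 67108864 0 1073741824 469762048 67108864 (corT true 1 c0F cB022R gF1q0 gF1q2 gF3q2 gF4q2 false true)) t 1 1 1 = true :=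
  ⟨(T.a (T.a (T.l 272) (T.a (T.l 0) (T.b (T.l 0) (T.l 816)))) (T.b (T.a (T.l 0) (T.l 0)) (T.l 816))), by decide +kernel⟩

def B101E_000 :
    ∃ t, chk3 (onCell 0 53687091 0 1073741824 469762048 67108864 (corT true 1 c0F cB101E gF0q1 gF0q1 gF0q0 gF1q0 true true)) t 1 1 1 = true :=
  ⟨(T.l 2), by decide +kernel⟩

def B101E_001 :
    ∃ t, chk3 (onCell 0 53687091 0 1073741824 469762048 67108864 (corT true 1 c0F cB101E gF0q1 gF0q1 gF1q0 gF2q0 true false)) t 1 1 1 = true :=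
  ⟨(T.b (T.b (T.a (T.b (T.l 204) (T.l 204)) (T.b (T.l 204) (T.l 204))) (T.a (T.b (T.l 204) (T.l 204)) (T.b (T.l 204) (T.l 204)))) (T.b (T.a (T.b (T.l 204) (T.l 204)) (T.b (T.l 204) (T.l 204))) (T.a (T.b (T.l 204) (T.b (T.l 204) (T.l 204))) (T.b (T.l 204) (T.l 204))))), by decide +kernel⟩

def B101L_200 :
    ∃ t, chk3 (onCell 0 67108864 0 1073741824 469762048 67108864 (corT true 1 c0F cB101L gF2q1 gF0q1 gF0q0 gF1q0 true true)) t 1 1 1 = true :=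
  ⟨(T.b (T.l 1) (T.b (T.l 1) (T.b (T.l 1) (T.b (T.b (T.l 1) (T.b (T.l 1) (T.b (T.l 1) (T.l 816)))) (T.l 816))))), by decide +kernel⟩

def B101L_201 :
    ∃ t, chk3 (onCell 0 67108864 0 1073741824 469762048 67108864 (corT true 1 c0F cB101L gF2q1 gF0q1 gF1q0 gF2q0 true false)) t 1 1 1 = true :=
  ⟨(T.l 1), by decide +kernel⟩

def B101L_300 :
    ∃ t, chk3 (onCell 0 67108864 0 1073741824 469762048 67108864 (corT true 1 c0F cB101L gF3q1 gF0q1 gF0q0 gF1q0 true true)) t 1 1 1 = true :=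
  ⟨(T.b (T.l 1) (T.b (T.l 1) (T.b (T.b (T.b (T.l 1) (T.a (T.l 1) (T.l 1))) (T.a (T.l 0) (T.l 0))) (T.l 0)))), by decide +kernel⟩

def B101L_301 :
    ∃ t, chk3 (onCell 0 67108864 0 1073741824 469762048 67108864 (corT true 1 c0F cB101L gF3q1 gF0q1 gF1q0 gF2q0 true false)) t 1 1 1 = true :=
  ⟨(T.l 1), by decide +kernel⟩

def B101L_400 :
    ∃ t, chk3 (onCell 0 67108864 0 1073741824 469762048 67108864 (corX 1 c0F cB101L tB101L gF4q1 gF0q1 gF0q0 gF1q0 gF0q0 true true)) t 1 1 1 = true :=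
  ⟨(T.b (T.l 1) (T.l 3)), by decide +kernel⟩

def B101L_401 :
    ∃ t, chk3 (onCell 0 67108864 0 1073741824 469762048 67108864 (corT true 1 c0F cB101L gF4q1 gF0q1 gF1q0 gF2q0 true false)) t 1 1 1 = true :=
  ⟨(T.l 1), by decide +kernel⟩

def B101R_020 :
    ∃ t, chk3 (onCell 0 67108864 0 1073741824 469762048 67108864 (corT true 1 c0F cB101R gF0q1 gF2q1 gF0q0 gF1q0 true true)) t 1 1 1 = true :=
  ⟨(T.l 1), by decide +kernel⟩

def B101R_021 :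
    ∃ t, chk3 (onCell 0 67108864 0 1073741824 469762048 67108864 (corT true 1 c0F cB101R gF0q1 gF2q1 gF1q0 gF2q0 true false)) t 1 1 1 = true :=
  ⟨(T.l 1), by decide +kernel⟩

def B101R_030 :
    ∃ t, chk3 (onCell 0 67108864 0 1073741824 469762048 67108864 (corT true 1 c0F cB101R gF0q1 gF3q1 gF0q0 gF1q0 true true)) t 1 1 1 = true :=
  ⟨(T.l 1), by decide +kernel⟩

def B101R_031 :
    ∃ t, chk3 (onCell 0 67108864 0 1073741824 469762048 67108864 (corT true 1 c0F cB101R gF0q1 gF3q1 gF1q0 gF2q0 true false)) t 1 1 1 = true :=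
  ⟨(T.l 1), by decide +kernel⟩

def B101R_040 :
    ∃ t, chk3 (onCell 0 67108864 0 1073741824 469762048 67108864 (corT true 1 c0F cB101R gF0q1 gF4q1 gF0q0 gF1q0 true true)) t 1 1 1 = true :=
  ⟨(T.l 1), by decide +kernel⟩

def B101R_041 :
    ∃ t, chk3 (onCell 0 67108864 0 1073741824 469762048 67108864 (corT true 1 c0F cB101R gF0q1 gF4q1 gF1q0 gF2q0 true false)) t 1 1 1 = true :=
  ⟨(T.l 1), by decide +kernel⟩

def B102E_000 :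
    ∃ t, chk3 (onCell 0 67108864 0 1073741824 469762048 67108864 (corX 1 c0F cB102E tB102E gF0q1 gF0q2 gF0q0 gF1q0 gF0q0 true true)) t 1 1 1 = true :=
  ⟨(T.b (T.b (T.l 1) (T.a (T.l 3) (T.b (T.l 1) (T.l 1)))) (T.b (T.a (T.b (T.l 3) (T.l 3)) (T.b (T.l 3) (T.b (T.l 3) (T.l 0)))) (T.b (T.a (T.l 3) (T.b (T.l 0) (T.l 2))) (T.l 2)))), by decide +kernel⟩

def B102E_001 :
    ∃ t, chk3 (onCell 0 67108864 0 1073741824 469762048 67108864 (corT true 1 c0F cB102E gF0q1 gF0q2 gF1q0 gF2q0 true false)) t 1 1 1 = true :=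
  ⟨(T.b (T.l 1) (T.b (T.b (T.l 1) (T.b (T.l 1) (T.a (T.l 0) (T.l 1)))) (T.a (T.b (T.b (T.l 0) (T.l 204)) (T.b (T.l 204) (T.l 204))) (T.a (T.b (T.l 0) (T.l 204)) (T.b (T.l 0) (T.b (T.l 204) (T.l 204))))))), by decide +kernel⟩

def B102E_010 :
    ∃ t, chk3 (onCell 0 67108864 0 1073741824 469762048 67108864 (corT true 1 c0F cB102E gF0q1 gF1q2 gF0q0 gF1q0 true true)) t 1 1 1 = true :=
  ⟨(T.b (T.b (T.l 1) (T.b (T.b (T.l 1) (T.a (T.b (T.b (T.l 1) (T.b (T.a (T.b (T.l 1) (T.a (T.c (T.l 204) (T.l 204)) (T.a (T.b (T.l 1) (T.l 204)) (T.l 1)))) (T.l 1)) (T.a (T.c (T.l 204) (T.l 204)) (T.b (T.a (T.b (T.l 1) (T.l 220)) (T.l 1)) (T.c (T.l 204) (T.l 220)))))) (T.b (T.a (T.l 204) (T.l 220)) (T.l 204))) (T.b (T.a (T.a (T.b (T.l 1) (T.a (T.b (T.l 1) (T.a (T.b (T.l 1) (T.c (T.l 204) (T.l 220))) (T.l 1))) (T.l 1))) (T.l 1)) (T.l 1)) (T.a (T.a (T.b (T.c (T.l 204) (T.l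 204)) (T.l 204)) (T.b (T.a (T.c (T.l 220) (T.c (T.l 204) (T.l 204))) (T.b (T.b (T.l 1) (T.c (T.l 204) (T.l 204))) (T.l 220))) (T.c (T.l 204) (T.l 204)))) (T.a (T.b (T.b (T.b (T.l 1) (T.c (T.c (T.l 204) (T.l 204)) (T.a (T.l 204) (T.l 204)))) (T.c (T.l 204) (T.l 204))) (T.c (T.l 204) (T.l 204))) (T.b (T.b (T.l 1) (T.c (T.l 204) (T.l 220))) (T.l 204))))))) (T.a (T.b (T.l 204) (T.l 204)) (T.a (T.b (T.l 204) (T.l 204)) (T.b (T.b (T.c (T.l 204) (T.l 204)) (T.l 204)) (T.l 0)))))) (T.b (T.a (T.l 0) (T.b (T.a (T.l 204) (T.l 0)) (T.l 0))) (T.l 2))), by decide +kernel⟩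

def B102E_011 :
    ∃ t, chk3 (onCell 0 67108864 0 1073741824 469762048 67108864 (corT true 1 c0F cB102E gF0q1 gF1q2 gF1q0 gF2q0 true false)) t 1 1 1 = true :=
  ⟨(T.b (T.l 1) (T.a (T.b (T.l 0) (T.b (T.l 204) (T.b (T.l 204) (T.l 204)))) (T.b (T.b (T.l 1) (T.l 0)) (T.a (T.b (T.l 204) (T.l 204)) (T.b (T.l 204) (T.b (T.l 204) (T.l 204))))))), by decide +kernel⟩

def B102L_200 :
    ∃ t, chk3 (onCell 0 67108864 0 1073741824 469762048 67108864 (corT true 1 c0F cB102L gF2q1 gF0q2 gF0q0 gF1q0 true true)) t 1 1 1 = true :=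
  ⟨(T.b (T.a (T.l 204) (T.l 2)) (T.b (T.l 204) (T.l 0))), by decide +kernel⟩

def B102L_201 :
    ∃ t, chk3 (onCell 0 67108864 0 1073741824 469762048 67108864 (corT true 1 c0F cB102L gF2q1 gF0q2 gF1q0 gF2q0 true false)) t 1 1 1 = true :=
  ⟨(T.b (T.a (T.l 204) (T.b (T.b (T.l 204) (T.l 204)) (T.b (T.l 204) (T.l 204)))) (T.b (T.l 0) (T.l 1))), by decide +kernel⟩

def B102L_210 :
    ∃ t, chk3 (onCell 0 67108864 0 1073741824 469762048 67108864 (corT true 1 c0F cB102L gF2q1 gF1q2 gF0q0 gF1q0 true true)) t 1 1 1 = true :=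
  ⟨(T.b (T.b (T.b (T.a (T.a (T.l 204) (T.b (T.l 2) (T.l 204))) (T.b (T.l 2) (T.l 2))) (T.a (T.l 204) (T.b (T.l 204) (T.l 204)))) (T.a (T.l 204) (T.a (T.b (T.l 204) (T.l 204)) (T.l 220)))) (T.b (T.b (T.a (T.l 204) (T.b (T.l 204) (T.l 204))) (T.l 204)) (T.l 0))), by decide +kernel⟩

def B102L_211 :
    ∃ t, chk3 (onCell 0 67108864 0 1073741824 469762048 67108864 (corT true 1 c0F cB102L gF2q1 gF1q2 gF1q0 gF2q0 true false)) t 1 1 1 = true :=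
  ⟨(T.b (T.b (T.a (T.b (T.a (T.l 204) (T.b (T.l 204) (T.l 204))) (T.l 204)) (T.a (T.b (T.l 204) (T.l 204)) (T.l 204))) (T.a (T.l 1) (T.l 1))) (T.l 1)), by decide +kernel⟩

def B102L_300 :
    ∃ t, chk3 (onCell 0 67108864 0 1073741824 469762048 67108864 (corT true 1 c0F cB102L gF3q1 gF0q2 gF0q0 gF1q0 true true)) t 1 1 1 = true :=
  ⟨(T.b (T.b (T.l 2) (T.l 2)) (T.b (T.l 204) (T.l 0))), by decide +kernel⟩

def B102L_301 :
    ∃ t, chk3 (onCell 0 67108864 0 1073741824 469762048 67108864 (corT true 1 c0F cB102L gF3q1 gF0q2 gF1q0 gF2q0 true false)) t 1 1 1 = true :=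
  ⟨(T.b (T.a (T.l 204) (T.b (T.b (T.l 204) (T.l 204)) (T.b (T.l 204) (T.l 204)))) (T.b (T.l 204) (T.l 1))), by decide +kernel⟩

def B102L_310 :
    ∃ t, chk3 (onCell 0 67108864 0 1073741824 469762048 67108864 (corT true 1 c0F cB102L gF3q1 gF1q2 gF0q0 gF1q0 true true)) t 1 1 1 = true :=
  ⟨(T.b (T.b (T.a (T.b (T.a (T.l 204) (T.b (T.l 2) (T.l 204))) (T.l 204)) (T.a (T.l 220) (T.l 204))) (T.a (T.l 204) (T.a (T.b (T.l 204) (T.l 204)) (T.l 204)))) (T.b (T.b (T.a (T.l 204) (T.b (T.l 204) (T.l 204))) (T.l 204)) (T.l 0))), by decide +kernel⟩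

def B102L_311 :
    ∃ t, chk3 (onCell 0 67108864 0 1073741824 469762048 67108864 (corT true 1 c0F cB102L gF3q1 gF1q2 gF1q0 gF2q0 true false)) t 1 1 1 = true :=
  ⟨(T.b (T.b (T.a (T.b (T.a (T.l 204) (T.b (T.l 204) (T.l 204))) (T.l 204)) (T.a (T.l 220) (T.l 204))) (T.a (T.l 1) (T.a (T.b (T.l 204) (T.l 1)) (T.l 204)))) (T.l 1)), by decide +kernel⟩

def B102L_400 :
    ∃ t, chk3 (onCell 0 67108864 0 1073741824 469762048 67108864 (corT true 1 c0F cB102L gF4q1 gF0q2 gF0q0 gF1q0 true true)) t 1 1 1 = true :=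
  ⟨(T.b (T.l 2) (T.l 0)), by decide +kernel⟩

def B102L_401 :
    ∃ t, chk3 (onCell 0 67108864 0 1073741824 469762048 67108864 (corT true 1 c0F cB102L gF4q1 gF0q2 gF1q0 gF2q0 true false)) t 1 1 1 = true :=
  ⟨(T.b (T.a (T.l 204) (T.b (T.b (T.l 204) (T.l 204)) (T.b (T.l 204) (T.l 204)))) (T.l 0)), by decide +kernel⟩

def B102L_410 :
    ∃ t, chk3 (onCell 0 67108864 0 1073741824 469762048 67108864 (corT true 1 c0F cB102L gF4q1 gF1q2 gF0q0 gF1q0 true true)) t 1 1 1 = true :=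
  ⟨(T.b (T.b (T.a (T.a (T.l 204) (T.b (T.l 2) (T.l 204))) (T.b (T.l 2) (T.l 2))) (T.a (T.l 204) (T.a (T.b (T.l 204) (T.l 204)) (T.l 204)))) (T.b (T.a (T.l 204) (T.b (T.b (T.l 204) (T.l 204)) (T.l 204))) (T.l 0))), by decide +kernel⟩

def B102L_411 :
    ∃ t, chk3 (onCell 0 67108864 0 1073741824 469762048 67108864 (corT true 1 c0F cB102L gF4q1 gF1q2 gF1q0 gF2q0 true false)) t 1 1 1 = true :=
  ⟨(T.b (T.b (T.a (T.b (T.a (T.l 204) (T.b (T.l 204) (T.l 204))) (T.l 204)) (T.a (T.l 220) (T.l 204))) (T.a (T.l 204) (T.a (T.b (T.l 204) (T.l 204)) (T.l 204)))) (T.b (T.l 1) (T.l 1))), by decide +kernel⟩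

def B102R_040 :
    ∃ t, chk3 (onCell 0 67108864 0 1073741824 469762048 67108864 (corT true 1 c0F cB102R gF0q1 gF4q2 gF0q0 gF1q0 true true)) t 1 1 1 = true :=
  ⟨(T.l 1), by decide +kernel⟩

def B102R_041 :
    ∃ t, chk3 (onCell 0 67108864 0 1073741824 469762048 67108864 (corT true 1 c0F cB102R gF0q1 gF4q2 gF1q0 gF2q0 true false)) t 1 1 1 = true :=
  ⟨(T.l 1), by decide +kernel⟩

def B202E_000 :
    ∃ t, chk3 (onCell 0 67108864 0 1073741824 469762048 67108864 (corT true 1 c0F cB202E gF0q2 gF0q2 gF0q0 gF1q0 true true)) t 1 1 1 = true :=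
  ⟨(T.l 1), by decide +kernel⟩

def B202E_001 :
    ∃ t, chk3 (onCell 0 67108864 0 1073741824 469762048 67108864 (corT true 1 c0F cB202E gF0q2 gF0q2 gF1q0 gF2q0 true false)) t 1 1 1 = true :=
  ⟨(T.l 1), by decide +kernel⟩

def B202E_010 :
    ∃ t, chk3 (onCell 0 67108864 0 1073741824 469762048 67108864 (corT true 1 c0F cB202E gF0q2 gF1q2 gF0q0 gF1q0 true true)) t 1 1 1 = true :=
  ⟨(T.l 1), by decide +kernel⟩

def B202E_011 :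
    ∃ t, chk3 (onCell 0 67108864 0 1073741824 469762048 67108864 (corT true 1 c0F cB202E gF0q2 gF1q2 gF1q0 gF2q0 true false)) t 1 1 1 = true :=
  ⟨(T.l 1), by decide +kernel⟩

def B202E_100 :
    ∃ t, chk3 (onCell 0 67108864 0 1073741824 469762048 67108864 (corT true 1 c0F cB202E gF1q2 gF0q2 gF0q0 gF1q0 true true)) t 1 1 1 = true :=
  ⟨(T.l 1), by decide +kernel⟩

def B202E_101 :
    ∃ t, chk3 (onCell 0 67108864 0 1073741824 469762048 67108864 (corT true 1 c0F cB202E gF1q2 gF0q2 gF1q0 gF2q0 true false)) t 1 1 1 = true :=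
  ⟨(T.l 1), by decide +kernel⟩

def B202E_110 :
    ∃ t, chk3 (onCell 0 67108864 0 1073741824 469762048 67108864 (corT true 1 c0F cB202E gF1q2 gF1q2 gF0q0 gF1q0 true true)) t 1 1 1 = true :=
  ⟨(T.l 1), by decide +kernel⟩

def B202E_111 :
    ∃ t, chk3 (onCell 0 67108864 0 1073741824 469762048 67108864 (corT true 1 c0F cB202E gF1q2 gF1q2 gF1q0 gF2q0 true false)) t 1 1 1 = true :=
  ⟨(T.l 1), by decide +kernel⟩

def B202L_400 :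
    ∃ t, chk3 (onCell 0 67108864 0 1073741824 469762048 67108864 (corT true 1 c0F cB202L gF4q2 gF0q2 gF0q0 gF1q0 true true)) t 1 1 1 = true :=
  ⟨(T.l 2), by decide +kernel⟩

def B202L_401 :
    ∃ t, chk3 (onCell 0 67108864 0 1073741824 469762048 67108864 (corT true 1 c0F cB202L gF4q2 gF0q2 gF1q0 gF2q0 true false)) t 1 1 1 = true :=
  ⟨(T.a (T.b (T.l 204) (T.l 204)) (T.b (T.l 204) (T.l 204))), by decide +kernel⟩

def B202L_410 :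
    ∃ t, chk3 (onCell 0 67108864 0 1073741824 469762048 67108864 (corT true 1 c0F cB202L gF4q2 gF1q2 gF0q0 gF1q0 true true)) t 1 1 1 = true :=
  ⟨(T.b (T.a (T.a (T.l 204) (T.l 2)) (T.l 2)) (T.l 2)), by decide +kernel⟩

def B202L_411 :
    ∃ t, chk3 (onCell 0 67108864 0 1073741824 469762048 67108864 (corT true 1 c0F cB202L gF4q2 gF1q2 gF1q0 gF2q0 true false)) t 1 1 1 = true :=
  ⟨(T.a (T.a (T.l 0) (T.l 16)) (T.b (T.l 204) (T.l 0))), by decide +kernel⟩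

def B202R_040 :
    ∃ t, chk3 (onCell 0 67108864 0 1073741824 469762048 67108864 (corX 1 c0F cB202R tB202R gF0q2 gF4q2 gF0q0 gF1q0 gF0q0 true true)) t 1 1 1 = true :=
  ⟨(T.b (T.b (T.l 1) (T.b (T.l 3) (T.l 3))) (T.b (T.b (T.l 0) (T.l 2)) (T.l 2))), by decide +kernel⟩

def B202R_041 :
    ∃ t, chk3 (onCell 0 67108864 0 1073741824 469762048 67108864 (corT true 1 c0F cB202R gF0q2 gF4q2 gF1q0 gF2q0 true false)) t 1 1 1 = true :=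
  ⟨(T.b (T.l 1) (T.a (T.b (T.l 0) (T.l 204)) (T.b (T.b (T.l 0) (T.l 204)) (T.b (T.l 204) (T.l 204))))), by decide +kernel⟩

def B202R_140 :
    ∃ t, chk3 (onCell 0 67108864 0 1073741824 469762048 67108864 (corT true 1 c0F cB202R gF1q2 gF4q2 gF0q0 gF1q0 true true)) t 1 1 1 = true :=
  ⟨(T.b (T.l 1) (T.b (T.b (T.l 1) (T.a (T.l 816) (T.a (T.a (T.l 816) (T.l 0)) (T.b (T.l 0) (T.l 0))))) (T.b (T.a (T.l 816) (T.a (T.l 0) (T.l 0))) (T.l 2)))), by decide +kernel⟩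

def B202R_141 :
    ∃ t, chk3 (onCell 0 67108864 0 1073741824 469762048 67108864 (corT true 1 c0F cB202R gF1q2 gF4q2 gF1q0 gF2q0 true false)) t 1 1 1 = true :=
  ⟨(T.b (T.l 1) (T.b (T.l 1) (T.b (T.a (T.l 0) (T.a (T.b (T.l 0) (T.l 0)) (T.l 0))) (T.a (T.a (T.l 0) (T.b (T.l 0) (T.l 0))) (T.a (T.l 0) (T.l 0)))))), by decide +kernel⟩

end Pool.Agent.Strip051.G.I7_16_1_2.Tab.CF
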