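import Pool.Agent.Strip051.PB.Cuts

/-! # Tables I7_16_1_2 (generated) -/

namespace Pool.Agent.Strip051.G.I7_16_1_2.Tab

open Pool.Agent.Strip051.PB

noncomputable def c1g : Fn1 := ⟨_, _, fun h1 => (enc_sqrtg (enc_sub (enc_pnc _ 1) (enc_scale 3 4 (enc_sq h1))))⟩
noncomputable def kcg_3 : Fn2 := ⟨_, _, fun h1 h2 => (enc_subr 15 32 h2)⟩
noncomputable def kcg_6 : Fn2 := ⟨_, _, fun h1 h2 => (enc_add h1 (enc_rat _ 1 4))⟩
noncomputable def kcg_9 : Fn2 := ⟨_, _, fun h1 h2 => (enc_add h1 (enc_rat _ 7 20))⟩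
noncomputable def kcg_10 : Fn2 := ⟨_, _, fun h1 h2 => (enc_scale 7821373 15000000 h1)⟩
noncomputable def kcg_14 : Fn2 := ⟨_, _, fun h1 h2 => (enc_scale 562167 250000 h1)⟩
noncomputable def kcg_25 : Fn2 := ⟨_, _, fun h1 h2 => (enc_sub (enc_rat _ 2507 25000) (enc_scale 125087 5000 (kcg_3.enc h1 h2)))⟩
noncomputable def kcg_33 : Fn2 := ⟨_, _, fun h1 h2 => (enc_scale 5095533 10000000 h1)⟩
noncomputable def kcg_37 : Fn2 := ⟨_, _, fun h1 h2 => (enc_scale 2994247 500000 h1)⟩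
noncomputable def kcg_46 : Fn2 := ⟨_, _, fun h1 h2 => (enc_subr 6341 200000 (enc_scale 2557 20000 (kcg_3.enc h1 h2)))⟩
noncomputable def kcg_54 : Fn2 := ⟨_, _, fun h1 h2 => (enc_add h1 (enc_rat _ 311 1898))⟩
noncomputable def kcg_55 : Fn2 := ⟨_, _, fun h1 h2 => (enc_scale 1690169 7500000 h1)⟩
noncomputable def kcg_59 : Fn2 := ⟨_, _, fun h1 h2 => (enc_scale 774054697 163500000 h1)⟩
noncomputable def kcg_67 : Fn2 := ⟨_, _, fun h1 h2 => (enc_add (enc_scale 9007 625 (kcg_3.enc h1 h2)) (enc_rat _ 333593 100000))⟩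
noncomputable def kcg_75 : Fn2 := ⟨_, _, fun h1 h2 => (enc_scale 1803389087227 3015375000000 h1)⟩
noncomputable def kcg_79 : Fn2 := ⟨_, _, fun h1 h2 => (enc_scale 526612939021 301537500000 h1)⟩
noncomputable def kcg_88 : Fn2 := ⟨_, _, fun h1 h2 => (enc_subr 1114177 200000 (enc_scale 73697 5000 (kcg_3.enc h1 h2)))⟩
noncomputable def kcg_93 : Fn2 := ⟨_, _, fun h1 h2 => (enc_scale 62907073 50000000 h1)⟩
noncomputable def kcg_99 : Fn2 := ⟨_, _, fun h1 h2 => (enc_sub (enc_rat _ 1 4) h1)⟩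
noncomputable def kcg_100 : Fn2 := ⟨_, _, fun h1 h2 => (enc_sub (enc_rat _ 7 20) h1)⟩
noncomputable def kcg_123 : Fn2 := ⟨_, _, fun h1 h2 => (enc_sub (enc_rat _ 311 1898) h1)⟩
noncomputable def kcg : Fn2 := ⟨_, _, fun h1 h2 => (enc_norm (enc_case h1 (enc_case (kcg_6.enc h1 h2) (enc_case (kcg_9.enc h1 h2) (enc_add (enc_add (enc_subr 474419 30000000 (kcg_10.enc h1 h2)) (enc_mul (enc_norm (kcg_3.enc h1 h2)) (enc_norm (enc_subr 4265707 10000000 (kcg_14.enc h1 h2))))) (enc_mul (enc_norm (kcg_25.enc h1 h2)) (enc_norm (enc_mul (enc_norm (enc_add h1 (enc_rat _ 1 2))) (enc_norm (enc_sub (enc_neg (enc_rat _ 7 20)) h1)))))) (enc_add (enc_add (enc_subr 3993803 200000000 (kcg_33.enc h1 h2)) (enc_mul (enc_norm (kcg_3.enc h1 h2)) (enc_norm (enc_add (kcg_37.enc h1 h2) (enc_rat _ 2205921 2500000))))) (enc_mul (enc_norm (kcg_46.enc h1 h2)) (enc_norm (enc_mul (enc_norm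 (kcg_9.enc h1 h2)) (enc_norm (enc_sub (enc_neg (enc_rat _ 1 4)) h1))))))) (enc_case (kcg_54.enc h1 h2) (enc_add (enc_add (enc_subr 3413189 37500000 (kcg_55.enc h1 h2)) (enc_mul (enc_norm (kcg_3.enc h1 h2)) (enc_norm (enc_add (kcg_59.enc h1 h2) (enc_rat _ 465006077 817500000))))) (enc_mul (enc_norm (kcg_67.enc h1 h2)) (enc_norm (enc_mul (enc_norm (kcg_6.enc h1 h2)) (enc_norm (enc_sub (enc_neg (enc_rat _ 311 1898)) h1)))))) (enc_case (enc_add h1 (enc_rat _ 73 1609)) (enc_add (enc_add (enc_subr 180606193777 6030750000000 (kcg_75.enc h1 h2)) (enc_mul (enc_norm (kcg_3.enc h1 h2)) (enc_norm (enc_add (kcg_79.enc h1 h2) (enc_rat _ 23892321037 301537500000))))) (enc_mul (enc_norm (kcg_88.enc h1 h2)) (enc_norm (enc_mul (enc_norm (kcg_54.enc h1 h2)) (enc_norm (enc_sub (enc_neg (enc_rat _ 73 1609)) h1)))))) (kcg_93.enc h1 h2)))) (enc_neg (enc_case (kcg_99.enc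 h1 h2) (enc_case (kcg_100.enc h1 h2) (enc_add (enc_add (enc_subr 474419 30000000 (enc_neg (kcg_10.enc h1 h2))) (enc_mul (enc_norm (kcg_3.enc h1 h2)) (enc_norm (enc_subr 4265707 10000000 (enc_neg (kcg_14.enc h1 h2)))))) (enc_mul (enc_norm (kcg_25.enc h1 h2)) (enc_norm (enc_mul (enc_norm (enc_sub (enc_rat _ 1 2) h1)) (enc_norm (enc_subr 7 20 h1)))))) (enc_add (enc_add (enc_subr 3993803 200000000 (enc_neg (kcg_33.enc h1 h2))) (enc_mul (enc_norm (kcg_3.enc h1 h2)) (enc_norm (enc_sub (enc_rat _ 2205921 2500000) (kcg_37.enc h1 h2))))) (enc_mul (enc_norm (kcg_46.enc h1 h2)) (enc_norm (enc_mul (enc_norm (kcg_100.enc h1 h2)) (enc_norm (enc_subr 1 4 h1))))))) (enc_case (kcg_123.enc h1 h2) (enc_add (enc_add (enc_subr 3413189 37500000 (enc_neg (kcg_55.enc h1 h2))) (enc_mul (enc_norm (kcg_3.enc h1 h2)) (enc_norm (enc_sub (enc_rat _ 465006077 817500000) (kcg_59.enc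 h1 h2))))) (enc_mul (enc_norm (kcg_67.enc h1 h2)) (enc_norm (enc_mul (enc_norm (kcg_99.enc h1 h2)) (enc_norm (enc_subr 311 1898 h1)))))) (enc_case (enc_sub (enc_rat _ 73 1609) h1) (enc_add (enc_add (enc_subr 180606193777 6030750000000 (enc_neg (kcg_75.enc h1 h2))) (enc_mul (enc_norm (kcg_3.enc h1 h2)) (enc_norm (enc_sub (enc_rat _ 23892321037 301537500000) (kcg_79.enc h1 h2))))) (enc_mul (enc_norm (kcg_88.enc h1 h2)) (enc_norm (enc_mul (enc_norm (kcg_123.enc h1 h2)) (enc_norm (enc_subr 73 1609 h1)))))) (enc_neg (kcg_93.enc h1 h2))))))))⟩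
noncomputable def kf0q0_9 : Fn2 := ⟨_, _, fun h1 h2 => (enc_scale 3 2 h1)⟩
noncomputable def kf0q0_12 : Fn2 := ⟨_, _, fun h1 h2 => (enc_add (enc_pnc _ 1) (c1g.enc h1))⟩
noncomputable def kf0q0 : Fn2 := ⟨_, _, fun h1 h2 => (enc_norm (enc_add (enc_mul (enc_norm (enc_mul (enc_norm (enc_sub (c1g.enc h1) (kf0q0_9.enc h1 h2))) (enc_norm (kf0q0_12.enc h1 h2)))) (enc_inv (enc_sub (kf0q0_12.enc h1 h2) (kf0q0_9.enc h1 h2)))) (enc_mul h1 (kcg.enc (enc_norm (enc_sub (enc_scale 3 4 h1) (enc_half (c1g.enc h1)))) h2))))⟩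
noncomputable def txg_4 : Fn3 := ⟨_, _, fun h1 h2 h3 => (enc_subr 15 32 h3)⟩
noncomputable def txg_6 : Fn3 := ⟨_, _, fun h1 h2 h3 => (enc_add h1 (enc_half h2))⟩
noncomputable def txg_27 : Fn3 := ⟨_, _, fun h1 h2 h3 => (enc_add h1 (enc_rat _ 9 25))⟩
noncomputable def txg_30 : Fn3 := ⟨_, _, fun h1 h2 h3 => (enc_add h1 (enc_rat _ 43 100))⟩
noncomputable def txg_75 : Fn3 := ⟨_, _, fun h1 h2 h3 => (enc_add h1 (enc_rat _ 3 10))⟩
noncomputable def txg_97 : Fn3 := ⟨_, _, fun h1 h2 h3 => (enc_add h1 (enc_rat _ 23 100))⟩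
noncomputable def txg_151 : Fn3 := ⟨_, _, fun h1 h2 h3 => (enc_add h1 (enc_rat _ 73 1609))⟩
noncomputable def txg_153 : Fn3 := ⟨_, _, fun h1 h2 h3 => (enc_subr 3 20 h1)⟩
noncomputable def txg_155 : Fn3 := ⟨_, _, fun h1 h2 h3 => (enc_subr 1 40 h1)⟩
noncomputable def txg_157 : Fn3 := ⟨_, _, fun h1 h2 h3 => (enc_add h1 (enc_rat _ 1 40))⟩
noncomputable def txg_196 : Fn3 := ⟨_, _, fun h1 h2 h3 => (enc_subr 3 50 h1)⟩
noncomputable def txg_216 : Fn3 := ⟨_, _, fun h1 h2 h3 => (enc_subr 1 10 h1)⟩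
noncomputable def txg_259 : Fn3 := ⟨_, _, fun h1 h2 h3 => (enc_subr 13 50 h1)⟩
noncomputable def txg_261 : Fn3 := ⟨_, _, fun h1 h2 h3 => (enc_subr 1 5 h1)⟩
noncomputable def txg_306 : Fn3 := ⟨_, _, fun h1 h2 h3 => (enc_subr 17 50 h1)⟩
noncomputable def txg_326 : Fn3 := ⟨_, _, fun h1 h2 h3 => (enc_subr 21 50 h1)⟩
noncomputable def txg : Fn3 := ⟨_, _, fun h1 h2 h3 => (enc_case (enc_add h1 (enc_rat _ 311 1898)) (enc_case (txg_27.enc h1 h2 h3) (enc_case (txg_30.enc h1 h2 h3) (enc_add (enc_add (enc_add (enc_scale 52211 1000000 h1) (enc_rat _ 52211 2000000)) (enc_mul (enc_norm (txg_4.enc h1 h2 h3)) (enc_norm (enc_add (enc_scale 5931 100000 h1) (enc_rat _ 5931 200000))))) (enc_mul (enc_norm (enc_subr 47409 200000 (enc_scale 78311 20000 (txg_4.enc h1 h2 h3)))) (enc_norm (enc_mul (enc_norm (enc_add h1 (enc_rat _ 1 2))) (enc_norm (enc_sub (enc_neg (enc_rat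 _ 43 100)) h1)))))) (enc_add (enc_add (enc_add (enc_scale 293791 3500000 h1) (enc_rat _ 5564873 140000000)) (enc_mul (enc_norm (txg_4.enc h1 h2 h3)) (enc_norm (enc_subr 888707 17500000 (enc_neg (enc_scale 89429 700000 h1)))))) (enc_mul (enc_norm (enc_subr 21623 100000 (enc_neg (enc_scale 777 625 (txg_4.enc h1 h2 h3))))) (enc_norm (enc_mul (enc_norm (txg_30.enc h1 h2 h3)) (enc_norm (enc_sub (enc_neg (enc_rat _ 9 25)) h1))))))) (enc_case (txg_75.enc h1 h2 h3) (enc_add (enc_add (enc_add (enc_scale 439001 3000000 h1) (enc_rat _ 6221071 100000000)) (enc_mul (enc_norm (txg_4.enc h1 h2 h3)) (enc_norm (enc_subr 196981 5000000 (enc_neg (enc_scale 769 8000 h1)))))) (enc_mul (enc_norm (enc_subr 39381 50000 (enc_scale 3693 4000 (txg_4.enc h1 h2 h3)))) (enc_norm (enc_mul (enc_norm (txg_27.enc h1 h2 h3)) (enc_norm (enc_sub (enc_neg (enc_rat _ 3 10)) h1)))))) (enc_case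 (txg_97.enc h1 h2 h3) (enc_add (enc_add (enc_add (enc_scale 50683 218750 h1) (enc_rat _ 61473107 700000000)) (enc_mul (enc_norm (txg_4.enc h1 h2 h3)) (enc_norm (enc_subr 886277 10000000 (enc_neg (enc_scale 26023 100000 h1)))))) (enc_mul (enc_norm (enc_subr 2177313 4000000 (enc_scale 7764867 5000000 (txg_4.enc h1 h2 h3)))) (enc_norm (enc_mul (enc_norm (txg_75.enc h1 h2 h3)) (enc_norm (enc_sub (enc_neg (enc_rat _ 23 100)) h1)))))) (enc_add (enc_add (enc_add (enc_add (enc_scale 848781637369 2978436500000 h1) (enc_rat _ 11922508673503 119137460000000)) (enc_mul (enc_norm (txg_4.enc h1 h2 h3)) (enc_norm (enc_subr 38782144823907 595687300000000 (enc_neg (enc_scale 940928778429 5956873000000 h1)))))) (enc_mul (enc_sq (enc_norm (txg_4.enc h1 h2 h3))) (enc_norm (enc_subr 785294037 3923125000 (enc_neg (enc_scale 34143219 39231250 h1)))))) (enc_mul (enc_norm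 (enc_subr 11474131 50000000 (enc_neg (enc_scale 31897437 10000000 (txg_4.enc h1 h2 h3))))) (enc_norm (enc_mul (enc_norm (txg_97.enc h1 h2 h3)) (enc_norm (enc_sub (enc_neg (enc_rat _ 311 1898)) h1))))))))) (enc_case (txg_151.enc h1 h2 h3) (enc_sub (enc_mul (enc_norm (enc_sub (enc_pnc _ 1) h2)) (enc_norm (enc_subn 1 (enc_nat 2 h2)))) (enc_mul (enc_norm (enc_nat 2 (enc_sub (enc_scale 4 3 (txg_6.enc h1 h2 h3)) h3))) (enc_norm (enc_mul (enc_norm (enc_subn 1 (enc_add (enc_scale 2 3 (txg_6.enc h1 h2 h3)) h2))) (kcg.enc h1 h3))))) (enc_case (txg_153.enc h1 h2 h3) (enc_case (txg_155.enc h1 h2 h3) (enc_case (txg_157.enc h1 h2 h3) (enc_add (enc_add (enc_add (enc_scale 3072022179931 14062660000000 h1) (enc_rat _ 11027484662351 112501280000000)) (enc_mul (enc_norm (txg_4.enc h1 h2 h3)) (enc_norm (enc_subr 169173193 32775000000 (enc_scale 223287767 819375000 h1)))))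 (enc_mul (enc_norm (enc_add (enc_scale 26456433 5000000 (txg_4.enc h1 h2 h3)) (enc_rat _ 145642779 100000000))) (enc_norm (enc_mul (enc_norm (txg_151.enc h1 h2 h3)) (enc_norm (enc_sub (enc_neg (enc_rat _ 1 40)) h1)))))) (enc_add (enc_add (enc_add (enc_scale 2467 312500 h1) (enc_rat _ 4637851 50000000)) (enc_mul (enc_norm (txg_4.enc h1 h2 h3)) (enc_norm (enc_subr 5383 10000000 (enc_scale 114361 250000 h1))))) (enc_mul (enc_norm (enc_sub (enc_rat _ 361781261 100000000) (enc_scale 58543499 10000000 (txg_4.enc h1 h2 h3)))) (enc_norm (enc_mul (enc_norm (txg_157.enc h1 h2 h3)) (enc_norm (enc_sub (enc_rat _ 1 40) h1))))))) (enc_case (txg_196.enc h1 h2 h3) (enc_add (enc_add (enc_sub (enc_rat _ 4905639 50000000) (enc_scale 3224 15625 h1)) (enc_mul (enc_norm (txg_4.enc h1 h2 h3)) (enc_norm (enc_subr 210269 70000000 (enc_scale 194623 350000 h1))))) (enc_mul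 (enc_norm (enc_add (enc_scale 110911 20000 (txg_4.enc h1 h2 h3)) (enc_rat _ 190513 200000))) (enc_norm (enc_mul (enc_norm (txg_155.enc h1 h2 h3)) (enc_norm (enc_sub (enc_rat _ 3 50) h1)))))) (enc_case (txg_216.enc h1 h2 h3) (enc_add (enc_add (enc_sub (enc_rat _ 10052901 100000000) (enc_scale 493213 2000000 h1)) (enc_mul (enc_norm (txg_4.enc h1 h2 h3)) (enc_norm (enc_subr 31733 10000000 (enc_scale 55889 100000 h1))))) (enc_mul (enc_norm (enc_sub (enc_rat _ 6931 40000) (enc_scale 49229 10000 (txg_4.enc h1 h2 h3)))) (enc_norm (enc_mul (enc_norm (txg_196.enc h1 h2 h3)) (enc_norm (enc_sub (enc_rat _ 1 10) h1)))))) (enc_add (enc_add (enc_sub (enc_rat _ 5077063 50000000) (enc_scale 256729 1000000 h1)) (enc_mul (enc_norm (txg_4.enc h1 h2 h3)) (enc_norm (enc_subr 44709 2000000 (enc_scale 375351 500000 h1))))) (enc_mul (enc_norm (enc_add (enc_scale 2041 20000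 (txg_4.enc h1 h2 h3)) (enc_rat _ 2553 40000))) (enc_norm (enc_mul (enc_norm (txg_216.enc h1 h2 h3)) (enc_norm (enc_sub (enc_rat _ 3 20) h1))))))))) (enc_case (txg_259.enc h1 h2 h3) (enc_case (txg_261.enc h1 h2 h3) (enc_add (enc_add (enc_sub (enc_rat _ 4998553 50000000) (enc_scale 246261 1000000 h1)) (enc_mul (enc_norm (txg_4.enc h1 h2 h3)) (enc_norm (enc_subr 260427 10000000 (enc_scale 77529 100000 h1))))) (enc_mul (enc_norm (enc_subr 54637 200000 (enc_neg (enc_scale 2969 5000 (txg_4.enc h1 h2 h3))))) (enc_norm (enc_mul (enc_norm (txg_153.enc h1 h2 h3)) (enc_norm (enc_sub (enc_rat _ 1 5) h1)))))) (enc_add (enc_add (enc_sub (enc_rat _ 4748653 50000000) (enc_scale 221271 1000000 h1)) (enc_mul (enc_norm (txg_4.enc h1 h2 h3)) (enc_norm (enc_subr 1019431 30000000 (enc_scale 488989 600000 h1))))) (enc_mul (enc_norm (enc_subr 37769 200000 (enc_neg (enc_scale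 1667 10000 (txg_4.enc h1 h2 h3))))) (enc_norm (enc_mul (enc_norm (txg_261.enc h1 h2 h3)) (enc_norm (enc_sub (enc_rat _ 13 50) h1))))))) (enc_case (txg_306.enc h1 h2 h3) (enc_add (enc_add (enc_sub (enc_rat _ 8772543 100000000) (enc_scale 386791 2000000 h1)) (enc_mul (enc_norm (txg_4.enc h1 h2 h3)) (enc_norm (enc_add (enc_scale 3057 50000 h1) (enc_rat _ 810089 5000000))))) (enc_mul (enc_norm (enc_subr 20681 100000 (enc_scale 190961 20000 (txg_4.enc h1 h2 h3)))) (enc_norm (enc_mul (enc_norm (txg_259.enc h1 h2 h3)) (enc_norm (enc_sub (enc_rat _ 17 50) h1)))))) (enc_case (txg_326.enc h1 h2 h3) (enc_add (enc_add (enc_sub (enc_rat _ 1530503 20000000) (enc_scale 320907 2000000 h1)) (enc_mul (enc_norm (txg_4.enc h1 h2 h3)) (enc_norm (enc_sub (enc_rat _ 9846879 20000000) (enc_scale 364163 400000 h1))))) (enc_mul (enc_norm (enc_subr 40993 200000 (enc_scale 25963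 10000 (txg_4.enc h1 h2 h3)))) (enc_norm (enc_mul (enc_norm (txg_306.enc h1 h2 h3)) (enc_norm (enc_sub (enc_rat _ 21 50) h1)))))) (enc_add (enc_add (enc_sub (enc_rat _ 228367 4000000) (enc_scale 228367 2000000 h1)) (enc_mul (enc_norm (txg_4.enc h1 h2 h3)) (enc_norm (enc_sub (enc_rat _ 68733 100000) (enc_scale 68733 50000 h1))))) (enc_mul (enc_norm (enc_subr 37341 100000 (enc_scale 64137 20000 (txg_4.enc h1 h2 h3)))) (enc_norm (enc_mul (enc_norm (txg_326.enc h1 h2 h3)) (enc_norm (enc_sub (enc_rat _ 1 2) h1))))))))))))⟩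
noncomputable def l0q0 : Fn2 := ⟨_, _, fun h1 h2 => (enc_norm (txg.enc (enc_norm (enc_sub (enc_scale 3 4 h1) (enc_half (c1g.enc h1)))) (c1g.enc h1) h2))⟩
noncomputable def kf0q1_10 : Fn2 := ⟨_, _, fun h1 h2 => (enc_scale 3 2 h1)⟩
noncomputable def kf0q1 : Fn2 := ⟨_, _, fun h1 h2 => (enc_norm (enc_add (enc_mul (enc_norm (enc_mul (enc_norm (enc_add (enc_pnc _ 1) (enc_nat 2 (c1g.enc h1)))) (enc_norm (enc_sub (kf0q1_10.enc h1 h2) (c1g.enc h1))))) (enc_inv (enc_nat 2 (enc_sub (enc_add (enc_pnc _ 1) (kf0q1_10.enc h1 h2)) (c1g.enc h1))))) (enc_mul (enc_norm (enc_subn 1 h1)) (kcg.enc (enc_norm (enc_sub (enc_scale 3 4 h1) (enc_half (c1g.enc h1)))) h2))))⟩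
noncomputable def l0q1 : Fn2 := ⟨_, _, fun h1 h2 => (enc_norm (txg.enc (enc_norm (enc_sub (enc_scale 3 4 h1) (enc_half (c1g.enc h1)))) (c1g.enc h1) h2))⟩
noncomputable def yag : Fn1 := ⟨_, _, fun h1 => (enc_sqrt (enc_scale 4 3 (enc_sub (enc_pnc _ 1) (enc_sq h1))))⟩
noncomputable def kfc02 : Fn2 := ⟨_, _, fun h1 h2 => (enc_norm (enc_add h1 (enc_mul (enc_norm (enc_subn 1 (yag.enc h1))) (kcg.enc (enc_neg h1) h2))))⟩
noncomputable def lc02_7 : Fn2 := ⟨_, _, fun h1 h2 => (enc_scale 3 4 (yag.enc h1))⟩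
noncomputable def lc02_8 : Fn2 := ⟨_, _, fun h1 h2 => (enc_half h1)⟩
noncomputable def lc02 : Fn2 := ⟨_, _, fun h1 h2 => (enc_norm (enc_sub (txg.enc (enc_neg h1) (enc_norm (enc_add (lc02_7.enc h1 h2) (lc02_8.enc h1 h2))) h2) (txg.enc h1 (enc_norm (enc_sub (lc02_7.enc h1 h2) (lc02_8.enc h1 h2))) h2)))⟩
noncomputable def swg : Fn1 := ⟨_, _, fun h1 => (enc_sqrt (enc_sub (enc_pnc _ 1) (enc_scale 3 4 (enc_sq (enc_norm (enc_subn 1 h1))))))⟩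
noncomputable def cv1m : Fn1 := ⟨_, _, fun h1 => (enc_norm (enc_add (enc_half (c1g.enc h1)) (enc_half (enc_add (swg.enc h1) (enc_rat _ 1 2)))))⟩
noncomputable def bf1q0_3 : Fn2 := ⟨_, _, fun h1 h2 => (enc_subr 15 32 h2)⟩
noncomputable def bf1q0 : Fn2 := ⟨_, _, fun h1 h2 => (enc_norm (enc_case (enc_subr 1 4 h1) (enc_add (enc_sub (enc_pnc _ 1) (enc_scale 90947 62500 h1)) (enc_mul (enc_norm (bf1q0_3.enc h1 h2)) (enc_scale 43019 12500 h1))) (enc_add (enc_sub (enc_rat _ 1000067 1000000) (enc_scale 72771 50000 h1)) (enc_mul (enc_norm (bf1q0_3.enc h1 h2)) (enc_norm (enc_add (enc_scale 42937 12500 h1) (enc_rat _ 41 25000)))))))⟩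
noncomputable def kf1q0 : Fn2 := ⟨_, _, fun h1 h2 => (enc_norm (enc_mul (cv1m.enc h1) (bf1q0.enc h1 h2)))⟩
noncomputable def bx1q0_3 : Fn2 := ⟨_, _, fun h1 h2 => (enc_subr 15 32 h2)⟩
noncomputable def bx1q0 : Fn2 := ⟨_, _, fun h1 h2 => (enc_norm (enc_case (enc_subr 1 4 h1) (enc_sub (enc_scale 22217 125000 h1) (enc_mul (enc_norm (bx1q0_3.enc h1 h2)) (enc_scale 5563 25000 h1))) (enc_add (enc_subr 1 500000 (enc_scale 11109 62500 h1)) (enc_mul (enc_norm (bx1q0_3.enc h1 h2)) (enc_norm (enc_sub (enc_rat _ 103 100000) (enc_scale 2833 12500 h1)))))))⟩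
noncomputable def l1q0 : Fn2 := ⟨_, _, fun h1 h2 => (enc_norm (enc_mul (cv1m.enc h1) (bx1q0.enc h1 h2)))⟩
noncomputable def bf1q1_3 : Fn2 := ⟨_, _, fun h1 h2 => (enc_subr 15 32 h2)⟩
noncomputable def bf1q1 : Fn2 := ⟨_, _, fun h1 h2 => (enc_norm (enc_case (enc_subr 3 4 h1) (enc_add (enc_subr 1068619 1000000 (enc_scale 452631 250000 h1)) (enc_mul (enc_norm (bf1q1_3.enc h1 h2)) (enc_norm (enc_sub (enc_rat _ 60117 100000) (enc_scale 2973 5000 h1))))) (enc_add (enc_subr 16696 15625 (enc_scale 226303 125000 h1)) (enc_mul (enc_norm (bf1q1_3.enc h1 h2)) (enc_norm (enc_sub (enc_rat _ 59961 100000) (enc_scale 14813 25000 h1)))))))⟩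
noncomputable def kf1q1 : Fn2 := ⟨_, _, fun h1 h2 => (enc_norm (enc_mul (cv1m.enc h1) (bf1q1.enc h1 h2)))⟩
noncomputable def bx1q1_3 : Fn2 := ⟨_, _, fun h1 h2 => (enc_subr 15 32 h2)⟩
noncomputable def bx1q1 : Fn2 := ⟨_, _, fun h1 h2 => (enc_norm (enc_case (enc_subr 3 4 h1) (enc_add (enc_sub (enc_rat _ 142507 1000000) (enc_scale 7817 62500 h1)) (enc_mul (enc_norm (bx1q1_3.enc h1 h2)) (enc_norm (enc_subr 110133 100000 (enc_scale 33173 25000 h1))))) (enc_add (enc_sub (enc_rat _ 8899 62500) (enc_scale 31227 250000 h1)) (enc_mul (enc_norm (bx1q1_3.enc h1 h2)) (enc_norm (enc_subr 13737 12500 (enc_scale 16547 12500 h1)))))))⟩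
noncomputable def l1q1 : Fn2 := ⟨_, _, fun h1 h2 => (enc_norm (enc_mul (cv1m.enc h1) (bx1q1.enc h1 h2)))⟩
noncomputable def xc12a : Fn1 := ⟨_, _, fun h1 => (enc_norm (enc_add (enc_half h1) (enc_half (enc_subr 1 2 (swg.enc (yag.enc h1))))))⟩
noncomputable def bf1q2_3 : Fn2 := ⟨_, _, fun h1 h2 => (enc_subr 15 32 h2)⟩
noncomputable def bf1q2 : Fn2 := ⟨_, _, fun h1 h2 => (enc_norm (enc_case (enc_subr 577 500 h1) (enc_case (enc_subr 103 100 h1) (enc_add (enc_sub (enc_rat _ 3563 1875) (enc_scale 1688 1875 h1)) (enc_mul (enc_norm (bf1q2_3.enc h1 h2)) (enc_norm (enc_sub (enc_rat _ 1217 750) (enc_scale 1217 750 h1))))) (enc_case (enc_subr 27 25 h1) (enc_add (enc_sub (enc_rat _ 11788311 5000000) (enc_scale 67217 50000 h1)) (enc_mul (enc_norm (bf1q2_3.enc h1 h2)) (enc_norm (enc_sub (enc_rat _ 807591 500000) (enc_scale 8077 5000 h1))))) (enc_add (enc_sub (enc_rat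 _ 109074023517 46250000000) (enc_scale 2488219621 1850000000 h1)) (enc_mul (enc_norm (bf1q2_3.enc h1 h2)) (enc_norm (enc_subr 1493853 740000 (enc_scale 2589 1480 h1))))))) (enc_case (enc_subr 231 200 h1) (enc_sub (enc_rat _ 112907073 50000000) (enc_scale 62907073 50000000 h1)) (enc_case (enc_subr 13 10 h1) (enc_add (enc_sub (enc_rat _ 32749699581 14500000000) (enc_scale 1824880737 1450000000 h1)) (enc_mul (enc_norm (bf1q2_3.enc h1 h2)) (enc_norm (enc_sub (enc_rat _ 5597361 1450000) (enc_scale 24231 7250 h1))))) (enc_add (enc_sub (enc_rat _ 4517477 2000000) (enc_scale 251729 200000 h1)) (enc_mul (enc_norm (bf1q2_3.enc h1 h2)) (enc_norm (enc_sub (enc_rat _ 20173 12500) (enc_scale 8071 5000 h1)))))))))⟩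
noncomputable def kfc12a : Fn2 := ⟨_, _, fun h1 h2 => (enc_norm (enc_mul (enc_norm (enc_add (enc_half h1) (enc_half (enc_subr 1 2 (swg.enc (yag.enc h1)))))) (bf1q2.enc (yag.enc h1) h2)))⟩
noncomputable def bx1q2_3 : Fn2 := ⟨_, _, fun h1 h2 => (enc_subr 15 32 h2)⟩
noncomputable def bx1q2 : Fn2 := ⟨_, _, fun h1 h2 => (enc_norm (enc_case (enc_subr 577 500 h1) (enc_case (enc_subr 103 100 h1) (enc_add (enc_sub (enc_rat _ 1141 15000) (enc_scale 1141 15000 h1)) (enc_mul (enc_norm (bx1q2_3.enc h1 h2)) (enc_norm (enc_sub (enc_rat _ 5609 3000) (enc_scale 5609 3000 h1))))) (enc_case (enc_subr 27 25 h1) (enc_add (enc_sub (enc_rat _ 280223 2500000) (enc_scale 347 3125 h1)) (enc_mul (enc_norm (bx1q2_3.enc h1 h2)) (enc_norm (enc_sub (enc_rat _ 886249 250000) (enc_scale 17481 5000 h1))))) (enc_add (enc_sub (enc_rat _ 2002867 18500000) (enc_scale 19887 185000 h1))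 (enc_mul (enc_norm (bx1q2_3.enc h1 h2)) (enc_norm (enc_sub (enc_rat _ 18040511 1850000) (enc_scale 170997 18500 h1))))))) (enc_case (enc_subr 231 200 h1) (enc_sub (enc_neg (enc_rat _ 2467 156250)) (enc_scale 114361 125000 (bx1q2_3.enc h1 h2))) (enc_case (enc_subr 13 10 h1) (enc_add (enc_subr 925261 580000 (enc_scale 495727 362500 h1)) (enc_mul (enc_norm (bx1q2_3.enc h1 h2)) (enc_norm (enc_subr 58631 25000 (enc_scale 774 625 h1))))) (enc_add (enc_subr 2252247 2000000 (enc_scale 201327 200000 h1)) (enc_mul (enc_norm (bx1q2_3.enc h1 h2)) (enc_norm (enc_sub (enc_rat _ 523021 200000) (enc_scale 10309 4000 h1)))))))))⟩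
noncomputable def lc12a : Fn2 := ⟨_, _, fun h1 h2 => (enc_norm (enc_mul (enc_norm (enc_add (enc_half h1) (enc_half (enc_subr 1 2 (swg.enc (yag.enc h1)))))) (bx1q2.enc (yag.enc h1) h2)))⟩
noncomputable def xc12b : Fn1 := ⟨_, _, fun h1 => (enc_norm (enc_half (enc_subr 1 2 (swg.enc h1))))⟩
noncomputable def kfc12b : Fn2 := ⟨_, _, fun h1 h2 => (enc_norm (enc_mul (enc_norm (enc_half (enc_subr 1 2 (swg.enc h1)))) (bf1q2.enc h1 h2)))⟩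
noncomputable def lc12b : Fn2 := ⟨_, _, fun h1 h2 => (enc_norm (enc_mul (enc_norm (enc_half (enc_subr 1 2 (swg.enc h1)))) (bx1q2.enc h1 h2)))⟩
noncomputable def cv1r : Fn1 := ⟨_, _, fun h1 => (enc_norm (enc_half (enc_subr 1 2 (swg.enc h1))))⟩
noncomputable def bf1q3_3 : Fn2 := ⟨_, _, fun h1 h2 => (enc_subr 15 32 h2)⟩
noncomputable def bf1q3 : Fn2 := ⟨_, _, fun h1 h2 => (enc_norm (enc_case (enc_subr 7 4 h1) (enc_add (enc_sub (enc_rat _ 1227157 125000) (enc_scale 1463819 250000 h1)) (enc_mul (enc_norm (bf1q3_3.enc h1 h2)) (enc_norm (enc_sub (enc_rat _ 2757 20000) (enc_scale 2029 25000 h1))))) (enc_add (enc_sub (enc_rat _ 2454209 250000) (enc_scale 1463759 250000 h1)) (enc_mul (enc_norm (bf1q3_3.enc h1 h2)) (enc_norm (enc_sub (enc_rat _ 6217 50000) (enc_scale 459 6250 h1)))))))⟩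
noncomputable def kf1q3 : Fn2 := ⟨_, _, fun h1 h2 => (enc_norm (enc_mul (cv1r.enc h1) (bf1q3.enc h1 h2)))⟩
noncomputable def bx1q3_3 : Fn2 := ⟨_, _, fun h1 h2 => (enc_subr 15 32 h2)⟩
noncomputable def bx1q3 : Fn2 := ⟨_, _, fun h1 h2 => (enc_norm (enc_case (enc_subr 7 4 h1) (enc_add (enc_add (enc_scale 1109 5000 h1) (enc_rat _ 163 3125)) (enc_mul (enc_norm (bx1q3_3.enc h1 h2)) (enc_norm (enc_subr 747919 100000 (enc_scale 13229 3125 h1))))) (enc_add (enc_add (enc_scale 55007 250000 h1) (enc_rat _ 55261 1000000)) (enc_mul (enc_norm (bx1q3_3.enc h1 h2)) (enc_norm (enc_subr 737041 100000 (enc_scale 52139 12500 h1)))))))⟩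
noncomputable def l1q3 : Fn2 := ⟨_, _, fun h1 h2 => (enc_norm (enc_mul (cv1r.enc h1) (bx1q3.enc h1 h2)))⟩
noncomputable def c3g : Fn1 := ⟨_, _, fun h1 => (enc_sqrtg (enc_sub (enc_pnc _ 3) (enc_scale 3 4 (enc_sq h1))))⟩
noncomputable def cv2m : Fn1 := ⟨_, _, fun h1 => (enc_norm (enc_add (enc_scale 4 5 (enc_add (swg.enc h1) (enc_rat _ 1 2))) (enc_scale 1 5 (c3g.enc h1))))⟩
noncomputable def bf2q0_3 : Fn2 := ⟨_, _, fun h1 h2 => (enc_subr 15 32 h2)⟩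
noncomputable def bf2q0 : Fn2 := ⟨_, _, fun h1 h2 => (enc_norm (enc_case (enc_subr 1 4 h1) (enc_add (enc_sub (enc_rat _ 749219 1000000) (enc_scale 187473 250000 h1)) (enc_mul (enc_norm (bf2q0_3.enc h1 h2)) (enc_norm (enc_sub (enc_rat _ 1609 10000) (enc_scale 871 1250 h1))))) (enc_add (enc_sub (enc_rat _ 12808052801 8750000000) (enc_scale 7892775301 2187500000 h1)) (enc_mul (enc_norm (bf2q0_3.enc h1 h2)) (enc_norm (enc_sub (enc_rat _ 295195897 875000000) (enc_scale 306833397 218750000 h1)))))))⟩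
noncomputable def gsg : Fn1 := ⟨_, _, fun h1 => (enc_sqrt (enc_sub (enc_pnc _ 1) (enc_scale 3 4 (enc_sq h1))))⟩
noncomputable def esg : Fn1 := ⟨_, _, fun h1 => (enc_norm (enc_subn 1 (enc_add (enc_half h1) (gsg.enc h1))))⟩
noncomputable def kf2q0_9 : Fn2 := ⟨_, _, fun h1 h2 => (enc_sub (enc_pnc _ 1) h1)⟩
noncomputable def kf2q0_10 : Fn2 := ⟨_, _, fun h1 h2 => (gsg.enc (enc_norm (kf2q0_9.enc h1 h2)))⟩
noncomputable def kf2q0_13 : Fn2 := ⟨_, _, fun h1 h2 => (enc_sub (enc_scale 3 4 (kf2q0_9.enc h1 h2)) (enc_half (kf2q0_10.enc h1 h2)))⟩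
noncomputable def kf2q0_31 : Fn2 := ⟨_, _, fun h1 h2 => (enc_mul (cv1m.enc h1) (bf1q0.enc h1 h2))⟩
noncomputable def kf2q0 : Fn2 := ⟨_, _, fun h1 h2 => (enc_norm (enc_case (enc_subr 15 32 h1) (enc_mul (cv2m.enc h1) (bf2q0.enc h1 h2)) (enc_add (kf2q0_31.enc h1 h2) (enc_mul (enc_norm (enc_mul (enc_norm (enc_sub (enc_mul h1 (enc_norm (enc_sub (enc_mul (enc_norm (enc_sub (kf2q0_13.enc h1 h2) (enc_sub (enc_rat _ 1 4) (enc_scale 3 8 (enc_mul (enc_norm (kf2q0_9.enc h1 h2)) (enc_inv (kf2q0_10.enc h1 h2))))))) (enc_inv (esg.enc (enc_norm (kf2q0_9.enc h1 h2))))) (kcg.enc (enc_norm (kf2q0_13.enc h1 h2)) h2)))) (kf2q0_31.enc h1 h2))) (enc_norm (enc_sub (cv2m.enc h1) (cv1m.enc h1))))) (enc_inv (enc_sub (enc_add (swg.enc h1) (enc_rat _ 1 2)) (cv1m.enc h1)))))))⟩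
noncomputable def bx2q0_3 : Fn2 := ⟨_, _, fun h1 h2 => (enc_subr 15 32 h2)⟩
noncomputable def bx2q0 : Fn2 := ⟨_, _, fun h1 h2 => (enc_norm (enc_case (enc_subr 1 4 h1) (enc_add (enc_add (enc_scale 15239 62500 h1) (enc_rat _ 29057 1000000)) (enc_mul (enc_norm (bx2q0_3.enc h1 h2)) (enc_norm (enc_sub (enc_rat _ 27647 100000) (enc_scale 1947 5000 h1))))) (enc_add (enc_sub (enc_rat _ 273140697 2187500000) (enc_scale 152474519 1093750000 h1)) (enc_mul (enc_norm (bx2q0_3.enc h1 h2)) (enc_norm (enc_sub (enc_rat _ 330132539 875000000) (enc_scale 173402539 218750000 h1)))))))⟩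
noncomputable def qsg : Fn1 := ⟨_, _, fun h1 => (enc_norm (enc_mul (enc_norm (enc_sub (enc_pnc _ 1) (gsg.enc h1))) (enc_norm (enc_subn 1 (enc_nat 2 (gsg.enc h1))))))⟩
noncomputable def l2q0_9 : Fn2 := ⟨_, _, fun h1 h2 => (enc_sub (enc_pnc _ 1) h1)⟩
noncomputable def l2q0_24 : Fn2 := ⟨_, _, fun h1 h2 => (enc_mul (cv1m.enc h1) (bx1q0.enc h1 h2))⟩
noncomputable def l2q0 : Fn2 := ⟨_, _, fun h1 h2 => (enc_norm (enc_case (enc_subr 15 32 h1) (enc_mul (cv2m.enc h1) (bx2q0.enc h1 h2)) (enc_add (l2q0_24.enc h1 h2) (enc_mul (enc_norm (enc_mul (enc_norm (enc_sub (enc_sub (qsg.enc (enc_norm (l2q0_9.enc h1 h2))) (enc_mul (enc_norm (enc_nat 2 (enc_sub (l2q0_9.enc h1 h2) h2))) (enc_norm (enc_mul (esg.enc (enc_norm (l2q0_9.enc h1 h2))) (kcg.enc (enc_norm (enc_sub (enc_scale 3 4 (l2q0_9.enc h1 h2)) (enc_half (gsg.enc (enc_norm (l2q0_9.enc h1 h2)))))) h2))))) (l2q0_24.enc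 h1 h2))) (enc_norm (enc_sub (cv2m.enc h1) (cv1m.enc h1))))) (enc_inv (enc_sub (enc_add (swg.enc h1) (enc_rat _ 1 2)) (cv1m.enc h1)))))))⟩
noncomputable def bf2q1_3 : Fn2 := ⟨_, _, fun h1 h2 => (enc_subr 15 32 h2)⟩
noncomputable def bf2q1 : Fn2 := ⟨_, _, fun h1 h2 => (enc_norm (enc_case (enc_subr 3 4 h1) (enc_add (enc_subr 1272774341 3125000000 (enc_scale 1230141447 781250000 h1)) (enc_mul (enc_norm (bf2q1_3.enc h1 h2)) (enc_norm (enc_subr 264709 25000000 (enc_neg (enc_scale 875847 6250000 h1)))))) (enc_add (enc_add (enc_scale 14147 15625 h1) (enc_rat _ 1478 15625)) (enc_mul (enc_norm (bf2q1_3.enc h1 h2)) (enc_norm (enc_subr 11569 25000 (enc_scale 11569 25000 h1)))))))⟩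
noncomputable def kf2q1_9 : Fn2 := ⟨_, _, fun h1 h2 => (enc_sub (enc_pnc _ 1) h1)⟩
noncomputable def kf2q1_10 : Fn2 := ⟨_, _, fun h1 h2 => (gsg.enc (enc_norm (kf2q1_9.enc h1 h2)))⟩
noncomputable def kf2q1_16 : Fn2 := ⟨_, _, fun h1 h2 => (enc_scale 3 2 (kf2q1_9.enc h1 h2))⟩
noncomputable def kf2q1_18 : Fn2 := ⟨_, _, fun h1 h2 => (enc_add (enc_pnc _ 1) (kf2q1_10.enc h1 h2))⟩
noncomputable def kf2q1_37 : Fn2 := ⟨_, _, fun h1 h2 => (enc_mul (cv1m.enc h1) (bf1q1.enc h1 h2))⟩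
noncomputable def kf2q1 : Fn2 := ⟨_, _, fun h1 h2 => (enc_norm (enc_case (enc_subr 19 32 h1) (enc_add (kf2q1_37.enc h1 h2) (enc_mul (enc_norm (enc_mul (enc_norm (enc_sub (enc_add (enc_add (enc_mul (enc_norm (enc_mul (enc_norm (enc_sub (kf2q1_10.enc h1 h2) (kf2q1_16.enc h1 h2))) (enc_norm (kf2q1_18.enc h1 h2)))) (enc_inv (enc_sub (kf2q1_18.enc h1 h2) (kf2q1_16.enc h1 h2)))) (enc_mul (enc_norm (enc_sub (enc_half (kf2q1_9.enc h1 h2)) (enc_mul (enc_scale 3 4 (enc_sq (enc_norm (kf2q1_9.enc h1 h2)))) (enc_inv (kf2q1_10.enc h1 h2))))) (enc_inv (enc_nat 2 (esg.enc (enc_norm (kf2q1_9.enc h1 h2))))))) (enc_mul (kcg.enc (enc_norm (enc_sub (enc_scale 3 4 (kf2q1_9.enc h1 h2)) (enc_half (kf2q1_10.enc h1 h2)))) h2) (enc_norm (kf2q1_9.enc h1 h2)))) (kf2q1_37.enc h1 h2))) (enc_norm (enc_sub (cv2m.enc h1) (cv1m.enc h1))))) (enc_inv (enc_sub (enc_add (swg.enc h1) (enc_rat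 _ 1 2)) (cv1m.enc h1))))) (enc_mul (cv2m.enc h1) (bf2q1.enc h1 h2))))⟩
noncomputable def bx2q1_3 : Fn2 := ⟨_, _, fun h1 h2 => (enc_subr 15 32 h2)⟩
noncomputable def bx2q1 : Fn2 := ⟨_, _, fun h1 h2 => (enc_norm (enc_case (enc_subr 3 4 h1) (enc_add (enc_add (enc_sub (enc_rat _ 84282409 625000000) (enc_scale 26629553 156250000 h1)) (enc_mul (enc_norm (bx2q1_3.enc h1 h2)) (enc_norm (enc_subr 39269627 625000000 (enc_scale 18148209 156250000 h1))))) (enc_mul (enc_sq (enc_norm (bx2q1_3.enc h1 h2))) (enc_norm (enc_subr 133239 625000 (enc_scale 44413 156250 h1))))) (enc_add (enc_sub (enc_rat _ 703 25000) (enc_scale 703 25000 h1)) (enc_mul (enc_norm (bx2q1_3.enc h1 h2)) (enc_norm (enc_sub (enc_rat _ 607 6250) (enc_scale 607 6250 h1)))))))⟩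
noncomputable def l2q1_9 : Fn2 := ⟨_, _, fun h1 h2 => (enc_sub (enc_pnc _ 1) h1)⟩
noncomputable def l2q1_24 : Fn2 := ⟨_, _, fun h1 h2 => (enc_mul (cv1m.enc h1) (bx1q1.enc h1 h2))⟩
noncomputable def l2q1 : Fn2 := ⟨_, _, fun h1 h2 => (enc_norm (enc_case (enc_subr 19 32 h1) (enc_add (l2q1_24.enc h1 h2) (enc_mul (enc_norm (enc_mul (enc_norm (enc_sub (enc_sub (qsg.enc (enc_norm (l2q1_9.enc h1 h2))) (enc_mul (enc_norm (enc_nat 2 (enc_sub (l2q1_9.enc h1 h2) h2))) (enc_norm (enc_mul (esg.enc (enc_norm (l2q1_9.enc h1 h2))) (kcg.enc (enc_norm (enc_sub (enc_scale 3 4 (l2q1_9.enc h1 h2)) (enc_half (gsg.enc (enc_norm (l2q1_9.enc h1 h2)))))) h2))))) (l2q1_24.enc h1 h2))) (enc_norm (enc_sub (cv2m.enc h1) (cv1m.enc h1))))) (enc_inv (enc_sub (enc_add (swg.enc h1) (enc_rat _ 1 2)) (cv1m.enc h1))))) (enc_mul (cv2m.enc h1) (bx2q1.enc h1 h2))))⟩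
noncomputable def cv2p : Fn1 := ⟨_, _, fun h1 => (enc_norm (enc_add (enc_scale 4 5 (enc_subr 1 2 (swg.enc h1))) (enc_scale 1 5 (c3g.enc h1))))⟩
noncomputable def bf2q2_3 : Fn2 := ⟨_, _, fun h1 h2 => (enc_subr 15 32 h2)⟩
noncomputable def bf2q2 : Fn2 := ⟨_, _, fun h1 h2 => (enc_norm (enc_case (enc_subr 27 25 h1) (enc_case (enc_subr 103 100 h1) (enc_add (enc_sub (enc_rat _ 1957817 1000000) (enc_scale 5023 5000 h1)) (enc_mul (enc_norm (bf2q2_3.enc h1 h2)) (enc_norm (enc_sub (enc_rat _ 3953 7500) (enc_scale 1931 3000 h1))))) (enc_add (enc_sub (enc_rat _ 9792999 5000000) (enc_scale 12567 12500 h1)) (enc_mul (enc_norm (bf2q2_3.enc h1 h2)) (enc_norm (enc_sub (enc_rat _ 264117 500000) (enc_scale 403 625 h1)))))) (enc_case (enc_subr 29 25 h1) (enc_add (enc_sub (enc_rat _ 2419803 1000000) (enc_scale 3581 2500 h1)) (enc_mul (enc_norm (bf2q2_3.enc h1 h2)) (enc_norm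 (enc_sub (enc_rat _ 52521 100000) (enc_scale 321 500 h1))))) (enc_case (enc_subr 13 10 h1) (enc_add (enc_sub (enc_rat _ 2616307 1000000) (enc_scale 8009 5000 h1)) (enc_mul (enc_norm (bf2q2_3.enc h1 h2)) (enc_norm (enc_sub (enc_rat _ 369039 700000) (enc_scale 2253 3500 h1))))) (enc_add (enc_sub (enc_rat _ 27807603051 10625000000) (enc_scale 425657763 265625000 h1)) (enc_mul (enc_norm (bf2q2_3.enc h1 h2)) (enc_norm (enc_subr 205037297 62500000 (enc_scale 7141747 3125000 h1)))))))))⟩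
noncomputable def cv1p : Fn1 := ⟨_, _, fun h1 => (enc_norm (enc_add (enc_half (c1g.enc h1)) (enc_half (enc_subr 1 2 (swg.enc h1)))))⟩
noncomputable def kf2q2_8 : Fn2 := ⟨_, _, fun h1 h2 => (enc_subn 1 h1)⟩
noncomputable def kf2q2_9 : Fn2 := ⟨_, _, fun h1 h2 => (gsg.enc (enc_norm (kf2q2_8.enc h1 h2)))⟩
noncomputable def kf2q2_15 : Fn2 := ⟨_, _, fun h1 h2 => (enc_scale 3 2 (kf2q2_8.enc h1 h2))⟩
noncomputable def kf2q2_17 : Fn2 := ⟨_, _, fun h1 h2 => (enc_add (enc_pnc _ 1) (kf2q2_9.enc h1 h2))⟩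
noncomputable def kf2q2_36 : Fn2 := ⟨_, _, fun h1 h2 => (enc_mul (cv1p.enc h1) (bf1q2.enc h1 h2))⟩
noncomputable def kf2q2 : Fn2 := ⟨_, _, fun h1 h2 => (enc_norm (enc_case (enc_subr 45 32 h1) (enc_mul (cv2p.enc h1) (bf2q2.enc h1 h2)) (enc_add (kf2q2_36.enc h1 h2) (enc_mul (enc_norm (enc_mul (enc_norm (enc_sub (enc_add (enc_sub (enc_mul (enc_norm (enc_mul (enc_norm (enc_sub (kf2q2_9.enc h1 h2) (kf2q2_15.enc h1 h2))) (enc_norm (kf2q2_17.enc h1 h2)))) (enc_inv (enc_sub (kf2q2_17.enc h1 h2) (kf2q2_15.enc h1 h2)))) (enc_mul (enc_norm (enc_sub (enc_half (kf2q2_8.enc h1 h2)) (enc_mul (enc_scale 3 4 (enc_sq (enc_norm (kf2q2_8.enc h1 h2)))) (enc_inv (kf2q2_9.enc h1 h2))))) (enc_inv (enc_nat 2 (esg.enc (enc_norm (kf2q2_8.enc h1 h2))))))) (enc_mul (kcg.enc (enc_norm (enc_sub (enc_scale 3 4 (kf2q2_8.enc h1 h2)) (enc_half (kf2q2_9.enc h1 h2)))) h2) (enc_norm (kf2q2_8.enc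 h1 h2)))) (kf2q2_36.enc h1 h2))) (enc_norm (enc_sub (cv2p.enc h1) (cv1p.enc h1))))) (enc_inv (enc_sub (enc_subr 1 2 (swg.enc h1)) (cv1p.enc h1)))))))⟩
noncomputable def bx2q2_3 : Fn2 := ⟨_, _, fun h1 h2 => (enc_subr 15 32 h2)⟩
noncomputable def bx2q2 : Fn2 := ⟨_, _, fun h1 h2 => (enc_norm (enc_case (enc_subr 27 25 h1) (enc_case (enc_subr 103 100 h1) (enc_add (enc_sub (enc_rat _ 62191 1500000) (enc_scale 797 30000 h1)) (enc_mul (enc_norm (bx2q2_3.enc h1 h2)) (enc_norm (enc_subr 209749 300000 (enc_scale 617 600 h1))))) (enc_add (enc_sub (enc_rat _ 3208 78125) (enc_scale 1309 50000 h1)) (enc_mul (enc_norm (bx2q2_3.enc h1 h2)) (enc_norm (enc_subr 337977 500000 (enc_scale 5029 5000 h1)))))) (enc_case (enc_subr 29 25 h1) (enc_add (enc_sub (enc_rat _ 2507 62500) (enc_scale 253 10000 h1)) (enc_mul (enc_norm (bx2q2_3.enc h1 h2)) (enc_norm (enc_sub (enc_rat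 _ 402471 200000) (enc_scale 11867 8000 h1))))) (enc_case (enc_subr 13 10 h1) (enc_add (enc_subr 10113 875000 (enc_scale 1347 70000 h1)) (enc_mul (enc_norm (bx2q2_3.enc h1 h2)) (enc_norm (enc_sub (enc_rat _ 694457 350000) (enc_scale 20427 14000 h1))))) (enc_add (enc_add (enc_subr 8273188171 10625000000 (enc_scale 647398417 1062500000 h1)) (enc_mul (enc_norm (bx2q2_3.enc h1 h2)) (enc_norm (enc_subr 797583497 1062500000 (enc_scale 34246697 53125000 h1))))) (enc_mul (enc_sq (enc_norm (bx2q2_3.enc h1 h2))) (enc_norm (enc_sub (enc_rat _ 2157701 1062500) (enc_scale 165977 106250 h1)))))))))⟩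
noncomputable def l2q2_8 : Fn2 := ⟨_, _, fun h1 h2 => (enc_subn 1 h1)⟩
noncomputable def l2q2_23 : Fn2 := ⟨_, _, fun h1 h2 => (enc_mul (cv1p.enc h1) (bx1q2.enc h1 h2))⟩
noncomputable def l2q2 : Fn2 := ⟨_, _, fun h1 h2 => (enc_norm (enc_case (enc_subr 45 32 h1) (enc_mul (cv2p.enc h1) (bx2q2.enc h1 h2)) (enc_add (l2q2_23.enc h1 h2) (enc_mul (enc_norm (enc_mul (enc_norm (enc_sub (enc_sub (qsg.enc (enc_norm (l2q2_8.enc h1 h2))) (enc_mul (enc_norm (enc_nat 2 (enc_sub (l2q2_8.enc h1 h2) h2))) (enc_norm (enc_mul (esg.enc (enc_norm (l2q2_8.enc h1 h2))) (kcg.enc (enc_norm (enc_sub (enc_scale 3 4 (l2q2_8.enc h1 h2)) (enc_half (gsg.enc (enc_norm (l2q2_8.enc h1 h2)))))) h2))))) (l2q2_23.enc h1 h2))) (enc_norm (enc_sub (cv2p.enc h1) (cv1p.enc h1))))) (enc_inv (enc_sub (enc_subr 1 2 (swg.enc h1)) (cv1p.enc h1)))))))⟩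
noncomputable def ycg : Fn1 := ⟨_, _, fun h1 => (enc_sqrtg (enc_scale 4 3 (enc_sub (enc_pnc _ 3) (enc_sq h1))))⟩
noncomputable def xc23 : Fn1 := ⟨_, _, fun h1 => (enc_norm (enc_add (enc_scale 4 5 (enc_subr 1 2 (swg.enc (ycg.enc h1)))) (enc_scale 1 5 h1)))⟩
noncomputable def bf2q3_3 : Fn2 := ⟨_, _, fun h1 h2 => (enc_subr 15 32 h2)⟩
noncomputable def bf2q3 : Fn2 := ⟨_, _, fun h1 h2 => (enc_norm (enc_case (enc_subr 7 4 h1) (enc_add (enc_subr 1016356293 625000000 (enc_scale 916500043 1093750000 h1)) (enc_mul (enc_norm (bf2q3_3.enc h1 h2)) (enc_norm (enc_sub (enc_rat _ 1348329 5000000) (enc_scale 1562079 8750000 h1))))) (enc_add (enc_subr 59727 12500 (enc_scale 65977 25000 h1)) (enc_mul (enc_norm (bf2q3_3.enc h1 h2)) (enc_norm (enc_subr 171 500 (enc_scale 171 1000 h1)))))))⟩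
noncomputable def kfc23_6 : Fn2 := ⟨_, _, fun h1 h2 => (enc_subr 1 2 (swg.enc (ycg.enc h1)))⟩
noncomputable def kfc23_9 : Fn2 := ⟨_, _, fun h1 h2 => (enc_add (enc_scale 4 5 (kfc23_6.enc h1 h2)) (enc_scale 1 5 h1))⟩
noncomputable def kfc23_15 : Fn2 := ⟨_, _, fun h1 h2 => (enc_subn 1 (ycg.enc h1))⟩
noncomputable def kfc23_16 : Fn2 := ⟨_, _, fun h1 h2 => (gsg.enc (enc_norm (kfc23_15.enc h1 h2)))⟩
noncomputable def kfc23_17 : Fn2 := ⟨_, _, fun h1 h2 => (enc_scale 3 4 (kfc23_15.enc h1 h2))⟩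
noncomputable def kfc23_18 : Fn2 := ⟨_, _, fun h1 h2 => (enc_half (kfc23_16.enc h1 h2))⟩
noncomputable def kfc23_35 : Fn2 := ⟨_, _, fun h1 h2 => (cv1r.enc (ycg.enc h1))⟩
noncomputable def kfc23_37 : Fn2 := ⟨_, _, fun h1 h2 => (enc_mul (kfc23_35.enc h1 h2) (bf1q3.enc (ycg.enc h1) h2))⟩
noncomputable def kfc23 : Fn2 := ⟨_, _, fun h1 h2 => (enc_norm (enc_case (enc_subr 49 32 (ycg.enc h1)) (enc_add (kfc23_37.enc h1 h2) (enc_mul (enc_norm (enc_mul (enc_norm (enc_sub (enc_mul (enc_norm (enc_subn 2 (ycg.enc h1))) (enc_norm (enc_add (enc_mul (enc_norm (enc_sub (enc_sub (kfc23_18.enc h1 h2) (kfc23_17.enc h1 h2)) (enc_sub (enc_rat _ 1 4) (enc_scale 3 8 (enc_mul (enc_norm (kfc23_15.enc h1 h2)) (enc_inv (kfc23_16.enc h1 h2))))))) (enc_inv (esg.enc (enc_norm (kfc23_15.enc h1 h2))))) (kcg.enc (enc_norm (enc_sub (kfc23_17.enc h1 h2) (kfc23_18.enc h1 h2))) h2))))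 (kfc23_37.enc h1 h2))) (enc_norm (enc_sub (kfc23_9.enc h1 h2) (kfc23_35.enc h1 h2))))) (enc_inv (enc_sub (kfc23_6.enc h1 h2) (kfc23_35.enc h1 h2))))) (enc_mul (enc_norm (kfc23_9.enc h1 h2)) (bf2q3.enc (ycg.enc h1) h2))))⟩
noncomputable def bx2q3_3 : Fn2 := ⟨_, _, fun h1 h2 => (enc_subr 15 32 h2)⟩
noncomputable def bx2q3 : Fn2 := ⟨_, _, fun h1 h2 => (enc_norm (enc_case (enc_subr 7 4 h1) (enc_add (enc_subr 841174011 1250000000 (enc_scale 1221616511 2187500000 h1)) (enc_mul (enc_norm (bx2q3_3.enc h1 h2)) (enc_norm (enc_subr 558935097 125000000 (enc_scale 669352597 218750000 h1))))) (enc_add (enc_sub (enc_rat _ 78772783 40000000) (enc_scale 9514089 10000000 h1)) (enc_mul (enc_norm (bx2q3_3.enc h1 h2)) (enc_norm (enc_subr 2547873 800000 (enc_scale 92987 40000 h1)))))))⟩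
noncomputable def lc23_6 : Fn2 := ⟨_, _, fun h1 h2 => (enc_subr 1 2 (swg.enc (ycg.enc h1)))⟩
noncomputable def lc23_9 : Fn2 := ⟨_, _, fun h1 h2 => (enc_add (enc_scale 4 5 (lc23_6.enc h1 h2)) (enc_scale 1 5 h1))⟩
noncomputable def lc23_15 : Fn2 := ⟨_, _, fun h1 h2 => (enc_subn 1 (ycg.enc h1))⟩
noncomputable def lc23_28 : Fn2 := ⟨_, _, fun h1 h2 => (cv1r.enc (ycg.enc h1))⟩
noncomputable def lc23_30 : Fn2 := ⟨_, _, fun h1 h2 => (enc_mul (lc23_28.enc h1 h2) (bx1q3.enc (ycg.enc h1) h2))⟩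
noncomputable def lc23 : Fn2 := ⟨_, _, fun h1 h2 => (enc_norm (enc_case (enc_subr 49 32 (ycg.enc h1)) (enc_add (lc23_30.enc h1 h2) (enc_mul (enc_norm (enc_mul (enc_norm (enc_sub (enc_sub (qsg.enc (enc_norm (lc23_15.enc h1 h2))) (enc_mul (enc_norm (enc_nat 2 (enc_sub (lc23_15.enc h1 h2) h2))) (enc_norm (enc_mul (esg.enc (enc_norm (lc23_15.enc h1 h2))) (kcg.enc (enc_norm (enc_sub (enc_scale 3 4 (lc23_15.enc h1 h2)) (enc_half (gsg.enc (enc_norm (lc23_15.enc h1 h2)))))) h2))))) (lc23_30.enc h1 h2))) (enc_norm (enc_sub (lc23_9.enc h1 h2) (lc23_28.enc h1 h2))))) (enc_inv (enc_sub (lc23_6.enc h1 h2) (lc23_28.enc h1 h2))))) (enc_mul (enc_norm (lc23_9.enc h1 h2)) (bx2q3.enc (ycg.enc h1) h2))))⟩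
noncomputable def cv3m : Fn1 := ⟨_, _, fun h1 => (enc_norm (enc_add (enc_scale 11 25 (enc_add (swg.enc h1) (enc_rat _ 1 2))) (enc_scale 14 25 (c3g.enc h1))))⟩
noncomputable def bf3q0_3 : Fn2 := ⟨_, _, fun h1 h2 => (enc_subr 15 32 h2)⟩
noncomputable def bf3q0 : Fn2 := ⟨_, _, fun h1 h2 => (enc_norm (enc_case (enc_subr 1 4 h1) (enc_add (enc_sub (enc_rat _ 277207 500000) (enc_scale 483219 250000 h1)) (enc_mul (enc_norm (bf3q0_3.enc h1 h2)) (enc_norm (enc_subr 271 50000 (enc_scale 101 6250 h1))))) (enc_add (enc_sub (enc_rat _ 110887 200000) (enc_scale 12081 6250 h1)) (enc_mul (enc_norm (bf3q0_3.enc h1 h2)) (enc_norm (enc_subr 509 100000 (enc_scale 371 25000 h1)))))))⟩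
noncomputable def kf3q0 : Fn2 := ⟨_, _, fun h1 h2 => (enc_norm (enc_mul (cv3m.enc h1) (bf3q0.enc h1 h2)))⟩
noncomputable def bx3q0_3 : Fn2 := ⟨_, _, fun h1 h2 => (enc_subr 15 32 h2)⟩
noncomputable def bx3q0 : Fn2 := ⟨_, _, fun h1 h2 => (enc_norm (enc_case (enc_subr 1 4 h1) (enc_add (enc_sub (enc_rat _ 19943 200000) (enc_scale 11607 125000 h1)) (enc_mul (enc_norm (bx3q0_3.enc h1 h2)) (enc_norm (enc_sub (enc_rat _ 11407 100000) (enc_scale 247 25000 h1))))) (enc_add (enc_sub (enc_rat _ 6597 62500) (enc_scale 29051 250000 h1)) (enc_mul (enc_norm (bx3q0_3.enc h1 h2)) (enc_norm (enc_sub (enc_rat _ 5803 50000) (enc_scale 223 12500 h1)))))))⟩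
noncomputable def l3q0 : Fn2 := ⟨_, _, fun h1 h2 => (enc_norm (enc_mul (cv3m.enc h1) (bx3q0.enc h1 h2)))⟩
noncomputable def bf3q1_3 : Fn2 := ⟨_, _, fun h1 h2 => (enc_subr 15 32 h2)⟩
noncomputable def bf3q1 : Fn2 := ⟨_, _, fun h1 h2 => (enc_norm (enc_case (enc_subr 3 4 h1) (enc_add (enc_add (enc_scale 121569 125000 h1) (enc_rat _ 17429 250000)) (enc_mul (enc_norm (bf3q1_3.enc h1 h2)) (enc_norm (enc_sub (enc_rat _ 213 2000) (enc_scale 3151 25000 h1))))) (enc_add (enc_add (enc_scale 20087 25000 h1) (enc_rat _ 4913 25000)) (enc_mul (enc_norm (bf3q1_3.enc h1 h2)) (enc_norm (enc_sub (enc_rat _ 1197 25000) (enc_scale 1197 25000 h1)))))))⟩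
noncomputable def kf3q1 : Fn2 := ⟨_, _, fun h1 h2 => (enc_norm (enc_mul (cv3m.enc h1) (bf3q1.enc h1 h2)))⟩
noncomputable def bx3q1_3 : Fn2 := ⟨_, _, fun h1 h2 => (enc_subr 15 32 h2)⟩
noncomputable def bx3q1 : Fn2 := ⟨_, _, fun h1 h2 => (enc_norm (enc_case (enc_subr 3 4 h1) (enc_add (enc_sub (enc_rat _ 58193 500000) (enc_scale 35063 250000 h1)) (enc_mul (enc_norm (bx3q1_3.enc h1 h2)) (enc_norm (enc_sub (enc_rat _ 3809 25000) (enc_scale 1967 25000 h1))))) (enc_add (enc_sub (enc_rat _ 11197 250000) (enc_scale 11197 250000 h1)) (enc_mul (enc_norm (bx3q1_3.enc h1 h2)) (enc_norm (enc_sub (enc_rat _ 1867 5000) (enc_scale 1867 5000 h1)))))))⟩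
noncomputable def l3q1 : Fn2 := ⟨_, _, fun h1 h2 => (enc_norm (enc_mul (cv3m.enc h1) (bx3q1.enc h1 h2)))⟩
noncomputable def cv3p : Fn1 := ⟨_, _, fun h1 => (enc_norm (enc_add (enc_scale 11 25 (enc_subr 1 2 (swg.enc h1))) (enc_scale 14 25 (c3g.enc h1))))⟩
noncomputable def bf3q2_3 : Fn2 := ⟨_, _, fun h1 h2 => (enc_subr 15 32 h2)⟩
noncomputable def bf3q2 : Fn2 := ⟨_, _, fun h1 h2 => (enc_norm (enc_case (enc_subr 27 25 h1) (enc_case (enc_subr 103 100 h1) (enc_add (enc_subr 189767 1500000 (enc_scale 26971 30000 h1)) (enc_mul (enc_norm (bf3q2_3.enc h1 h2)) (enc_norm (enc_subr 19649 150000 (enc_scale 73 750 h1))))) (enc_add (enc_subr 316141 2500000 (enc_scale 44949 50000 h1)) (enc_mul (enc_norm (bf3q2_3.enc h1 h2)) (enc_norm (enc_subr 16357 125000 (enc_scale 243 2500 h1)))))) (enc_case (enc_subr 29 25 h1) (enc_add (enc_subr 252767 2000000 (enc_scale 71913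 80000 h1)) (enc_mul (enc_norm (bf3q2_3.enc h1 h2)) (enc_norm (enc_subr 1633 12500 (enc_scale 97 1000 h1))))) (enc_case (enc_subr 13 10 h1) (enc_add (enc_subr 126311 1000000 (enc_scale 17977 20000 h1)) (enc_mul (enc_norm (bf3q2_3.enc h1 h2)) (enc_norm (enc_subr 45463 350000 (enc_scale 1349 14000 h1))))) (enc_add (enc_subr 252557 2000000 (enc_scale 35953 40000 h1)) (enc_mul (enc_norm (bf3q2_3.enc h1 h2)) (enc_norm (enc_subr 1037 8000 (enc_scale 1923 20000 h1)))))))))⟩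
noncomputable def kf3q2 : Fn2 := ⟨_, _, fun h1 h2 => (enc_norm (enc_mul (cv3p.enc h1) (bf3q2.enc h1 h2)))⟩
noncomputable def bx3q2_3 : Fn2 := ⟨_, _, fun h1 h2 => (enc_subr 15 32 h2)⟩
noncomputable def bx3q2 : Fn2 := ⟨_, _, fun h1 h2 => (enc_norm (enc_case (enc_subr 27 25 h1) (enc_case (enc_subr 103 100 h1) (enc_add (enc_subr 128329 1500000 (enc_scale 1069 15000 h1)) (enc_mul (enc_norm (bx3q2_3.enc h1 h2)) (enc_norm (enc_subr 540889 300000 (enc_scale 2159 1500 h1))))) (enc_add (enc_subr 428553 5000000 (enc_scale 3571 50000 h1)) (enc_mul (enc_norm (bx3q2_3.enc h1 h2)) (enc_norm (enc_subr 56319 31250 (enc_scale 7193 5000 h1)))))) (enc_case (enc_subr 29 25 h1) (enc_add (enc_subr 17181 200000 (enc_scale 179 2500 h1)) (enc_mul (enc_norm (bx3q2_3.enc h1 h2)) (enc_norm (enc_subr 360069 200000 (enc_scale 2299 1600 h1))))) (enc_case (enc_subr 13 10 h1) (enc_add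 (enc_subr 24123 280000 (enc_scale 5027 70000 h1)) (enc_mul (enc_norm (bx3q2_3.enc h1 h2)) (enc_norm (enc_subr 251593 140000 (enc_scale 20077 14000 h1))))) (enc_add (enc_subr 8633 100000 (enc_scale 1439 20000 h1)) (enc_mul (enc_norm (bx3q2_3.enc h1 h2)) (enc_norm (enc_subr 179557 100000 (enc_scale 14329 10000 h1)))))))))⟩
noncomputable def l3q2 : Fn2 := ⟨_, _, fun h1 h2 => (enc_norm (enc_mul (cv3p.enc h1) (bx3q2.enc h1 h2)))⟩
noncomputable def xc33 : Fn1 := ⟨_, _, fun h1 => (enc_norm (enc_add (enc_scale 11 25 (enc_subr 1 2 (swg.enc (ycg.enc h1)))) (enc_scale 14 25 h1)))⟩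
noncomputable def bf3q3_3 : Fn2 := ⟨_, _, fun h1 h2 => (enc_subr 15 32 h2)⟩
noncomputable def bf3q3 : Fn2 := ⟨_, _, fun h1 h2 => (enc_norm (enc_case (enc_subr 7 4 h1) (enc_add (enc_subr 4523967 1000000 (enc_scale 125599 50000 h1)) (enc_mul (enc_norm (bf3q3_3.enc h1 h2)) (enc_norm (enc_subr 231 20000 (enc_scale 29 5000 h1))))) (enc_add (enc_subr 282751 62500 (enc_scale 314001 125000 h1)) (enc_mul (enc_norm (bf3q3_3.enc h1 h2)) (enc_norm (enc_subr 7 625 (enc_scale 7 1250 h1)))))))⟩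
noncomputable def kfc33 : Fn2 := ⟨_, _, fun h1 h2 => (enc_norm (enc_mul (enc_norm (enc_add (enc_scale 11 25 (enc_subr 1 2 (swg.enc (ycg.enc h1)))) (enc_scale 14 25 h1))) (bf3q3.enc (ycg.enc h1) h2)))⟩
noncomputable def bx3q3_3 : Fn2 := ⟨_, _, fun h1 h2 => (enc_subr 15 32 h2)⟩
noncomputable def bx3q3 : Fn2 := ⟨_, _, fun h1 h2 => (enc_norm (enc_case (enc_subr 7 4 h1) (enc_add (enc_sub (enc_rat _ 253281 1000000) (enc_scale 11661 125000 h1)) (enc_mul (enc_norm (bx3q3_3.enc h1 h2)) (enc_norm (enc_subr 444817 100000 (enc_scale 73873 25000 h1))))) (enc_add (enc_sub (enc_rat _ 10188143 40000000) (enc_scale 941009 10000000 h1)) (enc_mul (enc_norm (bx3q3_3.enc h1 h2)) (enc_norm (enc_subr 3574433 800000 (enc_scale 118651 40000 h1)))))))⟩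
noncomputable def lc33 : Fn2 := ⟨_, _, fun h1 h2 => (enc_norm (enc_mul (enc_norm (enc_add (enc_scale 11 25 (enc_subr 1 2 (swg.enc (ycg.enc h1)))) (enc_scale 14 25 h1))) (bx3q3.enc (ycg.enc h1) h2)))⟩
noncomputable def kf4q0 : Fn2 := ⟨_, _, fun h1 h2 => (enc_norm (enc_sub (enc_mul h1 (kcg.enc (enc_half h1) h2)) (enc_mul (enc_norm (enc_mul (enc_sq h1) (enc_norm (enc_add (c3g.enc h1) (enc_rat _ 3 2))))) (enc_inv (enc_mul (enc_norm (enc_sub (enc_pnc _ 1) h1)) (enc_norm (enc_add (enc_pnc _ 1) h1)))))))⟩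
noncomputable def l4q0_6 : Fn2 := ⟨_, _, fun h1 h2 => (enc_half h1)⟩
noncomputable def l4q0_7 : Fn2 := ⟨_, _, fun h1 h2 => (enc_half (c3g.enc h1))⟩
noncomputable def l4q0_8 : Fn2 := ⟨_, _, fun h1 h2 => (enc_scale 1 4 h1)⟩
noncomputable def l4q0 : Fn2 := ⟨_, _, fun h1 h2 => (enc_norm (enc_add (txg.enc (l4q0_6.enc h1 h2) (enc_norm (enc_sub (l4q0_7.enc h1 h2) (l4q0_8.enc h1 h2))) h2) (txg.enc (enc_neg (l4q0_6.enc h1 h2)) (enc_norm (enc_add (l4q0_7.enc h1 h2) (l4q0_8.enc h1 h2))) h2)))⟩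
noncomputable def kf4q1 : Fn2 := ⟨_, _, fun h1 h2 => (enc_norm (enc_add (enc_mul (enc_norm (enc_mul h1 (enc_norm (enc_add (c3g.enc h1) (enc_rat _ 3 2))))) (enc_inv (enc_add (enc_pnc _ 1) h1))) (enc_mul (enc_norm (enc_subn 1 h1)) (kcg.enc (enc_half h1) h2))))⟩
noncomputable def l4q1_7 : Fn2 := ⟨_, _, fun h1 h2 => (enc_half h1)⟩
noncomputable def l4q1_8 : Fn2 := ⟨_, _, fun h1 h2 => (enc_half (c3g.enc h1))⟩
noncomputable def l4q1_9 : Fn2 := ⟨_, _, fun h1 h2 => (enc_scale 1 4 h1)⟩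
noncomputable def l4q1 : Fn2 := ⟨_, _, fun h1 h2 => (enc_norm (enc_add (txg.enc (l4q1_7.enc h1 h2) (enc_norm (enc_sub (l4q1_8.enc h1 h2) (l4q1_9.enc h1 h2))) h2) (txg.enc (enc_neg (l4q1_7.enc h1 h2)) (enc_norm (enc_add (l4q1_8.enc h1 h2) (l4q1_9.enc h1 h2))) h2)))⟩
noncomputable def kf4q2 : Fn2 := ⟨_, _, fun h1 h2 => (enc_norm (enc_add (enc_mul (enc_norm (enc_mul (enc_norm (enc_sub (enc_nat 2 (c3g.enc h1)) h1)) (enc_norm (enc_sub (enc_add (c3g.enc h1) (enc_pnc _ 3)) (enc_scale 3 2 h1))))) (enc_inv (enc_nat 4 (enc_sub (enc_pnc _ 2) h1)))) (enc_mul (enc_norm (enc_subn 1 h1)) (kcg.enc (enc_norm (enc_sub (enc_scale 1 4 h1) (enc_half (c3g.enc h1)))) h2))))⟩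
noncomputable def l4q2_7 : Fn2 := ⟨_, _, fun h1 h2 => (enc_half (c3g.enc h1))⟩
noncomputable def l4q2_8 : Fn2 := ⟨_, _, fun h1 h2 => (enc_scale 1 4 h1)⟩
noncomputable def l4q2_9 : Fn2 := ⟨_, _, fun h1 h2 => (enc_sub (l4q2_7.enc h1 h2) (l4q2_8.enc h1 h2))⟩
noncomputable def l4q2_12 : Fn2 := ⟨_, _, fun h1 h2 => (enc_add (enc_scale 1 4 (c3g.enc h1)) (enc_scale 3 8 h1))⟩
noncomputable def l4q2_14 : Fn2 := ⟨_, _, fun h1 h2 => (enc_half (l4q2_9.enc h1 h2))⟩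
noncomputable def l4q2 : Fn2 := ⟨_, _, fun h1 h2 => (enc_norm (enc_sub (enc_nat 2 (txg.enc (enc_norm (enc_sub (l4q2_8.enc h1 h2) (l4q2_7.enc h1 h2))) (enc_norm (enc_add (l4q2_12.enc h1 h2) (l4q2_14.enc h1 h2))) h2)) (txg.enc (enc_norm (l4q2_9.enc h1 h2)) (enc_norm (enc_sub (l4q2_12.enc h1 h2) (l4q2_14.enc h1 h2))) h2)))⟩
noncomputable def kfc43 : Fn2 := ⟨_, _, fun h1 h2 => (enc_norm (enc_sub (enc_mul (enc_norm (enc_subn 2 (ycg.enc h1))) (kcg.enc (enc_norm (enc_sub (enc_scale 1 4 (ycg.enc h1)) (enc_half h1))) h2)) (enc_mul (enc_norm (enc_mul (enc_norm (enc_sub (enc_nat 2 h1) (ycg.enc h1))) (enc_norm (enc_sub (enc_add h1 (enc_pnc _ 3)) (enc_scale 3 2 (ycg.enc h1)))))) (enc_inv (enc_nat 4 (enc_subn 1 (ycg.enc h1)))))))⟩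
noncomputable def lc43_7 : Fn2 := ⟨_, _, fun h1 h2 => (enc_half h1)⟩
noncomputable def lc43_8 : Fn2 := ⟨_, _, fun h1 h2 => (enc_scale 1 4 (ycg.enc h1))⟩
noncomputable def lc43_9 : Fn2 := ⟨_, _, fun h1 h2 => (enc_sub (lc43_7.enc h1 h2) (lc43_8.enc h1 h2))⟩
noncomputable def lc43_12 : Fn2 := ⟨_, _, fun h1 h2 => (enc_add (enc_scale 1 4 h1) (enc_scale 3 8 (ycg.enc h1)))⟩
noncomputable def lc43_14 : Fn2 := ⟨_, _, fun h1 h2 => (enc_half (lc43_9.enc h1 h2))⟩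
noncomputable def lc43 : Fn2 := ⟨_, _, fun h1 h2 => (enc_norm (enc_sub (enc_nat 2 (txg.enc (enc_norm (enc_sub (lc43_8.enc h1 h2) (lc43_7.enc h1 h2))) (enc_norm (enc_add (lc43_12.enc h1 h2) (lc43_14.enc h1 h2))) h2)) (txg.enc (enc_norm (lc43_9.enc h1 h2)) (enc_norm (enc_sub (lc43_12.enc h1 h2) (lc43_14.enc h1 h2))) h2)))⟩
noncomputable def lm3m : Fn2 := ⟨_, _, fun h1 h2 => (enc_lam (enc_norm (enc_sub h1 (cv3m.enc h2))) (enc_sub (c3g.enc h2) (cv3m.enc h2)))⟩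
noncomputable def lm2m : Fn2 := ⟨_, _, fun h1 h2 => (enc_lam (enc_norm (enc_sub h1 (cv2m.enc h2))) (enc_sub (cv3m.enc h2) (cv2m.enc h2)))⟩
noncomputable def lm1m : Fn2 := ⟨_, _, fun h1 h2 => (enc_lam (enc_norm (enc_sub h1 (cv1m.enc h2))) (enc_sub (cv2m.enc h2) (cv1m.enc h2)))⟩
noncomputable def lm0m : Fn2 := ⟨_, _, fun h1 h2 => (enc_lam (enc_norm (enc_sub h1 (c1g.enc h2))) (enc_sub (cv1m.enc h2) (c1g.enc h2)))⟩
noncomputable def rkfq0_37 : Fn3 := ⟨_, _, fun h1 h2 h3 => (enc_sub (enc_pnc _ 1) h2)⟩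
noncomputable def rkfq0_38 : Fn3 := ⟨_, _, fun h1 h2 h3 => (gsg.enc (enc_norm (rkfq0_37.enc h1 h2 h3)))⟩
noncomputable def rkfq0_41 : Fn3 := ⟨_, _, fun h1 h2 h3 => (enc_sub (enc_scale 3 4 (rkfq0_37.enc h1 h2 h3)) (enc_half (rkfq0_38.enc h1 h2 h3)))⟩
noncomputable def rkfq0_61 : Fn3 := ⟨_, _, fun h1 h2 h3 => (enc_sub h1 (cv1m.enc h2))⟩
noncomputable def rkfq0 : Fn3 := ⟨_, _, fun h1 h2 h3 => (enc_case (rkfq0_61.enc h1 h2 h3) (enc_add (enc_mul h1 (bf1q0.enc h2 h3)) (enc_mul (enc_norm (enc_sub (enc_pnc _ 1) (lm0m.enc h1 h2))) (enc_norm (enc_sub (kf0q0.enc h2 h3) (enc_mul (c1g.enc h2) (bf1q0.enc h2 h3)))))) (enc_case (enc_sub h1 (cv2m.enc h2)) (enc_case (enc_subr 15 32 h2) (enc_add (enc_mul h1 (bf2q0.enc h2 h3)) (enc_mul (enc_norm (enc_mul (enc_norm (enc_sub (enc_pnc _ 1) (lm1m.enc h1 h2))) (cv1m.enc h2))) (enc_norm (enc_sub (bf1q0.enc h2 h3) (bf2q0.enc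 h2 h3))))) (enc_add (kf1q0.enc h2 h3) (enc_mul (enc_norm (enc_mul (enc_norm (rkfq0_61.enc h1 h2 h3)) (enc_inv (enc_sub (enc_add (swg.enc h2) (enc_rat _ 1 2)) (cv1m.enc h2))))) (enc_norm (enc_sub (enc_mul h2 (enc_norm (enc_sub (enc_mul (enc_norm (enc_sub (rkfq0_41.enc h1 h2 h3) (enc_sub (enc_rat _ 1 4) (enc_scale 3 8 (enc_mul (enc_norm (rkfq0_37.enc h1 h2 h3)) (enc_inv (rkfq0_38.enc h1 h2 h3))))))) (enc_inv (esg.enc (enc_norm (rkfq0_37.enc h1 h2 h3))))) (kcg.enc (enc_norm (rkfq0_41.enc h1 h2 h3)) h3)))) (kf1q0.enc h2 h3)))))) (enc_case (enc_sub h1 (cv3m.enc h2)) (enc_add (enc_mul h1 (bf3q0.enc h2 h3)) (enc_mul (enc_norm (enc_sub (enc_pnc _ 1) (lm2m.enc h1 h2))) (enc_norm (enc_sub (kf2q0.enc h2 h3) (enc_mul (cv2m.enc h2) (bf3q0.enc h2 h3)))))) (enc_add (kf3q0.enc h2 h3) (enc_mul (lm3m.enc h1 h2) (enc_norm (enc_sub (kf4q0.enc h2 h3) (kf3q0.enc h2 h3))))))))⟩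
noncomputable def rsfq0 : Fn3 := ⟨_, _, fun h1 h2 h3 => (enc_case h1 (enc_neg (rkfq0.enc (enc_neg h1) h2 h3)) (rkfq0.enc h1 h2 h3))⟩
noncomputable def rkfq1_37 : Fn3 := ⟨_, _, fun h1 h2 h3 => (enc_sub (enc_pnc _ 1) h2)⟩
noncomputable def rkfq1_38 : Fn3 := ⟨_, _, fun h1 h2 h3 => (gsg.enc (enc_norm (rkfq1_37.enc h1 h2 h3)))⟩
noncomputable def rkfq1_44 : Fn3 := ⟨_, _, fun h1 h2 h3 => (enc_scale 3 2 (rkfq1_37.enc h1 h2 h3))⟩
noncomputable def rkfq1_46 : Fn3 := ⟨_, _, fun h1 h2 h3 => (enc_add (enc_pnc _ 1) (rkfq1_38.enc h1 h2 h3))⟩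
noncomputable def rkfq1_67 : Fn3 := ⟨_, _, fun h1 h2 h3 => (enc_sub h1 (cv1m.enc h2))⟩
noncomputable def rkfq1 : Fn3 := ⟨_, _, fun h1 h2 h3 => (enc_case (rkfq1_67.enc h1 h2 h3) (enc_add (enc_mul h1 (bf1q1.enc h2 h3)) (enc_mul (enc_norm (enc_sub (enc_pnc _ 1) (lm0m.enc h1 h2))) (enc_norm (enc_sub (kf0q1.enc h2 h3) (enc_mul (c1g.enc h2) (bf1q1.enc h2 h3)))))) (enc_case (enc_sub h1 (cv2m.enc h2)) (enc_case (enc_subr 19 32 h2) (enc_add (kf1q1.enc h2 h3) (enc_mul (enc_norm (enc_mul (enc_norm (rkfq1_67.enc h1 h2 h3)) (enc_inv (enc_sub (enc_add (swg.enc h2) (enc_rat _ 1 2)) (cv1m.enc h2))))) (enc_norm (enc_sub (enc_add (enc_add (enc_mul (enc_norm (enc_mul (enc_norm (enc_sub (rkfq1_38.enc h1 h2 h3) (rkfq1_44.enc h1 h2 h3))) (enc_norm (rkfq1_46.enc h1 h2 h3)))) (enc_inv (enc_sub (rkfq1_46.enc h1 h2 h3) (rkfq1_44.enc h1 h2 h3)))) (enc_mul (enc_norm (enc_sub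 (enc_half (rkfq1_37.enc h1 h2 h3)) (enc_mul (enc_scale 3 4 (enc_sq (enc_norm (rkfq1_37.enc h1 h2 h3)))) (enc_inv (rkfq1_38.enc h1 h2 h3))))) (enc_inv (enc_nat 2 (esg.enc (enc_norm (rkfq1_37.enc h1 h2 h3))))))) (enc_mul (kcg.enc (enc_norm (enc_sub (enc_scale 3 4 (rkfq1_37.enc h1 h2 h3)) (enc_half (rkfq1_38.enc h1 h2 h3)))) h3) (enc_norm (rkfq1_37.enc h1 h2 h3)))) (kf1q1.enc h2 h3))))) (enc_add (enc_mul h1 (bf2q1.enc h2 h3)) (enc_mul (enc_norm (enc_mul (enc_norm (enc_sub (enc_pnc _ 1) (lm1m.enc h1 h2))) (cv1m.enc h2))) (enc_norm (enc_sub (bf1q1.enc h2 h3) (bf2q1.enc h2 h3)))))) (enc_case (enc_sub h1 (cv3m.enc h2)) (enc_add (enc_mul h1 (bf3q1.enc h2 h3)) (enc_mul (enc_norm (enc_sub (enc_pnc _ 1) (lm2m.enc h1 h2))) (enc_norm (enc_sub (kf2q1.enc h2 h3) (enc_mul (cv2m.enc h2) (bf3q1.enc h2 h3)))))) (enc_add (kf3q1.enc h2 h3) (enc_mul (lm3m.enc h1 h2) (enc_norm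 (enc_sub (kf4q1.enc h2 h3) (kf3q1.enc h2 h3))))))))⟩
noncomputable def rsfq1 : Fn3 := ⟨_, _, fun h1 h2 h3 => (enc_case h1 (enc_neg (rkfq1.enc (enc_neg h1) h2 h3)) (rkfq1.enc h1 h2 h3))⟩
noncomputable def lm3p : Fn2 := ⟨_, _, fun h1 h2 => (enc_lam (enc_norm (enc_sub h1 (cv3p.enc h2))) (enc_sub (c3g.enc h2) (cv3p.enc h2)))⟩
noncomputable def lm2p : Fn2 := ⟨_, _, fun h1 h2 => (enc_lam (enc_norm (enc_sub h1 (cv2p.enc h2))) (enc_sub (cv3p.enc h2) (cv2p.enc h2)))⟩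
noncomputable def lm1p : Fn2 := ⟨_, _, fun h1 h2 => (enc_lam (enc_norm (enc_sub h1 (cv1p.enc h2))) (enc_sub (cv2p.enc h2) (cv1p.enc h2)))⟩
noncomputable def kf1q2 : Fn2 := ⟨_, _, fun h1 h2 => (enc_norm (enc_mul (cv1p.enc h1) (bf1q2.enc h1 h2)))⟩
noncomputable def kf0q2 : Fn2 := ⟨_, _, fun h1 h2 => (enc_norm (enc_add (c1g.enc h1) (enc_mul (enc_norm (enc_subn 1 h1)) (kcg.enc (enc_neg (c1g.enc h1)) h2))))⟩
noncomputable def lm0p : Fn2 := ⟨_, _, fun h1 h2 => (enc_lam (enc_norm (enc_sub h1 (c1g.enc h2))) (enc_sub (cv1p.enc h2) (c1g.enc h2)))⟩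
noncomputable def n0b : Fn2 := ⟨_, _, fun h1 h2 => (enc_norm (enc_sub (enc_pnc _ 1) (enc_scale 62907073 50000000 (enc_subn 1 h1))))⟩
noncomputable def rkfq2_36 : Fn3 := ⟨_, _, fun h1 h2 h3 => (enc_subn 1 h2)⟩
noncomputable def rkfq2_37 : Fn3 := ⟨_, _, fun h1 h2 h3 => (gsg.enc (enc_norm (rkfq2_36.enc h1 h2 h3)))⟩
noncomputable def rkfq2_43 : Fn3 := ⟨_, _, fun h1 h2 h3 => (enc_scale 3 2 (rkfq2_36.enc h1 h2 h3))⟩
noncomputable def rkfq2_45 : Fn3 := ⟨_, _, fun h1 h2 h3 => (enc_add (enc_pnc _ 1) (rkfq2_37.enc h1 h2 h3))⟩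
noncomputable def rkfq2_67 : Fn3 := ⟨_, _, fun h1 h2 h3 => (enc_sub h1 (cv1p.enc h2))⟩
noncomputable def rkfq2_81 : Fn3 := ⟨_, _, fun h1 h2 h3 => (enc_mul h1 (bf1q2.enc h2 h3))⟩
noncomputable def rkfq2_83 : Fn3 := ⟨_, _, fun h1 h2 h3 => (enc_sub (enc_pnc _ 1) (lm0p.enc h1 h2))⟩
noncomputable def rkfq2 : Fn3 := ⟨_, _, fun h1 h2 h3 => (enc_case (rkfq2_67.enc h1 h2 h3) (enc_case (enc_subr 577 500 h2) (enc_add (rkfq2_81.enc h1 h2 h3) (enc_mul (enc_norm (rkfq2_83.enc h1 h2 h3)) (enc_norm (enc_sub (kf0q2.enc h2 h3) (enc_mul (c1g.enc h2) (bf1q2.enc h2 h3)))))) (enc_case (enc_subr 2887 2500 h2) (enc_add (rkfq2_81.enc h1 h2 h3) (enc_mul (enc_norm (rkfq2_83.enc h1 h2 h3)) (enc_norm (enc_mul (c1g.enc h2) (enc_norm (enc_sub (n0b.enc h2 h3) (bf1q2.enc h2 h3))))))) (rkfq2_81.enc h1 h2 h3))) (enc_case (enc_sub h1 (cv2p.enc h2)) (enc_case (enc_subr 45 32 h2) (enc_add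 (enc_mul h1 (bf2q2.enc h2 h3)) (enc_mul (enc_norm (enc_mul (enc_norm (enc_sub (enc_pnc _ 1) (lm1p.enc h1 h2))) (cv1p.enc h2))) (enc_norm (enc_sub (bf1q2.enc h2 h3) (bf2q2.enc h2 h3))))) (enc_add (kf1q2.enc h2 h3) (enc_mul (enc_norm (enc_mul (enc_norm (rkfq2_67.enc h1 h2 h3)) (enc_inv (enc_sub (enc_subr 1 2 (swg.enc h2)) (cv1p.enc h2))))) (enc_norm (enc_sub (enc_add (enc_sub (enc_mul (enc_norm (enc_mul (enc_norm (enc_sub (rkfq2_37.enc h1 h2 h3) (rkfq2_43.enc h1 h2 h3))) (enc_norm (rkfq2_45.enc h1 h2 h3)))) (enc_inv (enc_sub (rkfq2_45.enc h1 h2 h3) (rkfq2_43.enc h1 h2 h3)))) (enc_mul (enc_norm (enc_sub (enc_half (rkfq2_36.enc h1 h2 h3)) (enc_mul (enc_scale 3 4 (enc_sq (enc_norm (rkfq2_36.enc h1 h2 h3)))) (enc_inv (rkfq2_37.enc h1 h2 h3))))) (enc_inv (enc_nat 2 (esg.enc (enc_norm (rkfq2_36.enc h1 h2 h3))))))) (enc_mul (kcg.enc (enc_norm (enc_sub (enc_scale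 3 4 (rkfq2_36.enc h1 h2 h3)) (enc_half (rkfq2_37.enc h1 h2 h3)))) h3) (enc_norm (rkfq2_36.enc h1 h2 h3)))) (kf1q2.enc h2 h3)))))) (enc_case (enc_sub h1 (cv3p.enc h2)) (enc_add (enc_mul h1 (bf3q2.enc h2 h3)) (enc_mul (enc_norm (enc_sub (enc_pnc _ 1) (lm2p.enc h1 h2))) (enc_norm (enc_sub (kf2q2.enc h2 h3) (enc_mul (cv2p.enc h2) (bf3q2.enc h2 h3)))))) (enc_add (kf3q2.enc h2 h3) (enc_mul (lm3p.enc h1 h2) (enc_norm (enc_sub (kf4q2.enc h2 h3) (kf3q2.enc h2 h3))))))))⟩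
noncomputable def rsfq2 : Fn3 := ⟨_, _, fun h1 h2 h3 => (enc_case h1 (enc_neg (rkfq2.enc (enc_neg h1) h2 h3)) (rkfq2.enc h1 h2 h3))⟩
noncomputable def cv2r : Fn1 := ⟨_, _, fun h1 => (enc_norm (enc_add (enc_scale 4 5 (enc_subr 1 2 (swg.enc h1))) (enc_scale 1 5 (c3g.enc h1))))⟩
noncomputable def cv3r : Fn1 := ⟨_, _, fun h1 => (enc_norm (enc_add (enc_scale 11 25 (enc_subr 1 2 (swg.enc h1))) (enc_scale 14 25 (c3g.enc h1))))⟩
noncomputable def kf3q3 : Fn2 := ⟨_, _, fun h1 h2 => (enc_norm (enc_mul (cv3r.enc h1) (bf3q3.enc h1 h2)))⟩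
noncomputable def kf4q3 : Fn2 := ⟨_, _, fun h1 h2 => (enc_norm (enc_sub (enc_mul (enc_norm (enc_subn 2 h1)) (kcg.enc (enc_norm (enc_sub (enc_scale 1 4 h1) (enc_half (c3g.enc h1)))) h2)) (enc_mul (enc_norm (enc_mul (enc_norm (enc_sub (enc_nat 2 (c3g.enc h1)) h1)) (enc_norm (enc_sub (enc_add (c3g.enc h1) (enc_pnc _ 3)) (enc_scale 3 2 h1))))) (enc_inv (enc_nat 4 (enc_subn 1 h1))))))⟩
noncomputable def lm3r : Fn2 := ⟨_, _, fun h1 h2 => (enc_lam (enc_norm (enc_sub h1 (cv3r.enc h2))) (enc_sub (c3g.enc h2) (cv3r.enc h2)))⟩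
noncomputable def lm2r : Fn2 := ⟨_, _, fun h1 h2 => (enc_lam (enc_norm (enc_sub h1 (cv2r.enc h2))) (enc_sub (cv3r.enc h2) (cv2r.enc h2)))⟩
noncomputable def kf2q3_8 : Fn2 := ⟨_, _, fun h1 h2 => (enc_subn 1 h1)⟩
noncomputable def kf2q3_9 : Fn2 := ⟨_, _, fun h1 h2 => (gsg.enc (enc_norm (kf2q3_8.enc h1 h2)))⟩
noncomputable def kf2q3_10 : Fn2 := ⟨_, _, fun h1 h2 => (enc_scale 3 4 (kf2q3_8.enc h1 h2))⟩
noncomputable def kf2q3_11 : Fn2 := ⟨_, _, fun h1 h2 => (enc_half (kf2q3_9.enc h1 h2))⟩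
noncomputable def kf2q3_30 : Fn2 := ⟨_, _, fun h1 h2 => (enc_mul (cv1r.enc h1) (bf1q3.enc h1 h2))⟩
noncomputable def kf2q3 : Fn2 := ⟨_, _, fun h1 h2 => (enc_norm (enc_case (enc_subr 49 32 h1) (enc_add (kf2q3_30.enc h1 h2) (enc_mul (enc_norm (enc_mul (enc_norm (enc_sub (enc_mul (enc_norm (enc_subn 2 h1)) (enc_norm (enc_add (enc_mul (enc_norm (enc_sub (enc_sub (kf2q3_11.enc h1 h2) (kf2q3_10.enc h1 h2)) (enc_sub (enc_rat _ 1 4) (enc_scale 3 8 (enc_mul (enc_norm (kf2q3_8.enc h1 h2)) (enc_inv (kf2q3_9.enc h1 h2))))))) (enc_inv (esg.enc (enc_norm (kf2q3_8.enc h1 h2))))) (kcg.enc (enc_norm (enc_sub (kf2q3_10.enc h1 h2) (kf2q3_11.enc h1 h2))) h2)))) (kf2q3_30.enc h1 h2))) (enc_norm (enc_sub (cv2r.enc h1) (cv1r.enc h1))))) (enc_inv (enc_sub (enc_subr 1 2 (swg.enc h1)) (cv1r.enc h1))))) (enc_mul (cv2r.enc h1) (bf2q3.enc h1 h2))))⟩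
noncomputable def lm1r : Fn2 := ⟨_, _, fun h1 h2 => (enc_lam (enc_norm (enc_sub h1 (cv1r.enc h2))) (enc_sub (cv2r.enc h2) (cv1r.enc h2)))⟩
noncomputable def rkfq3_36 : Fn3 := ⟨_, _, fun h1 h2 h3 => (enc_subn 1 h2)⟩
noncomputable def rkfq3_37 : Fn3 := ⟨_, _, fun h1 h2 h3 => (gsg.enc (enc_norm (rkfq3_36.enc h1 h2 h3)))⟩
noncomputable def rkfq3_38 : Fn3 := ⟨_, _, fun h1 h2 h3 => (enc_scale 3 4 (rkfq3_36.enc h1 h2 h3))⟩
noncomputable def rkfq3_39 : Fn3 := ⟨_, _, fun h1 h2 h3 => (enc_half (rkfq3_37.enc h1 h2 h3))⟩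
noncomputable def rkfq3_61 : Fn3 := ⟨_, _, fun h1 h2 h3 => (enc_sub h1 (cv1r.enc h2))⟩
noncomputable def rkfq3 : Fn3 := ⟨_, _, fun h1 h2 h3 => (enc_case (rkfq3_61.enc h1 h2 h3) (enc_mul h1 (bf1q3.enc h2 h3)) (enc_case (enc_sub h1 (cv2r.enc h2)) (enc_case (enc_subr 49 32 h2) (enc_add (kf1q3.enc h2 h3) (enc_mul (enc_norm (enc_mul (enc_norm (rkfq3_61.enc h1 h2 h3)) (enc_inv (enc_sub (enc_subr 1 2 (swg.enc h2)) (cv1r.enc h2))))) (enc_norm (enc_sub (enc_mul (enc_norm (enc_subn 2 h2)) (enc_norm (enc_add (enc_mul (enc_norm (enc_sub (enc_sub (rkfq3_39.enc h1 h2 h3) (rkfq3_38.enc h1 h2 h3)) (enc_sub (enc_rat _ 1 4) (enc_scale 3 8 (enc_mul (enc_norm (rkfq3_36.enc h1 h2 h3)) (enc_inv (rkfq3_37.enc h1 h2 h3))))))) (enc_inv (esg.enc (enc_norm (rkfq3_36.enc h1 h2 h3))))) (kcg.enc (enc_norm (enc_sub (rkfq3_38.enc h1 h2 h3) (rkfq3_39.enc h1 h2 h3))) h3)))) (kf1q3.enc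 h2 h3))))) (enc_add (enc_mul h1 (bf2q3.enc h2 h3)) (enc_mul (enc_norm (enc_mul (enc_norm (enc_sub (enc_pnc _ 1) (lm1r.enc h1 h2))) (cv1r.enc h2))) (enc_norm (enc_sub (bf1q3.enc h2 h3) (bf2q3.enc h2 h3)))))) (enc_case (enc_sub h1 (cv3r.enc h2)) (enc_add (enc_mul h1 (bf3q3.enc h2 h3)) (enc_mul (enc_norm (enc_sub (enc_pnc _ 1) (lm2r.enc h1 h2))) (enc_norm (enc_sub (kf2q3.enc h2 h3) (enc_mul (cv2r.enc h2) (bf3q3.enc h2 h3)))))) (enc_add (kf3q3.enc h2 h3) (enc_mul (lm3r.enc h1 h2) (enc_norm (enc_sub (kf4q3.enc h2 h3) (kf3q3.enc h2 h3))))))))⟩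
noncomputable def rsfq3 : Fn3 := ⟨_, _, fun h1 h2 h3 => (enc_case h1 (enc_neg (rkfq3.enc (enc_neg h1) h2 h3)) (rkfq3.enc h1 h2 h3))⟩
noncomputable def rxq0_37 : Fn3 := ⟨_, _, fun h1 h2 h3 => (enc_sub (enc_pnc _ 1) h2)⟩
noncomputable def rxq0_54 : Fn3 := ⟨_, _, fun h1 h2 h3 => (enc_sub h1 (cv1m.enc h2))⟩
noncomputable def rxq0 : Fn3 := ⟨_, _, fun h1 h2 h3 => (enc_case (rxq0_54.enc h1 h2 h3) (enc_add (enc_mul h1 (bx1q0.enc h2 h3)) (enc_mul (enc_norm (enc_sub (enc_pnc _ 1) (lm0m.enc h1 h2))) (enc_norm (enc_sub (l0q0.enc h2 h3) (enc_mul (c1g.enc h2) (bx1q0.enc h2 h3)))))) (enc_case (enc_sub h1 (cv2m.enc h2)) (enc_case (enc_subr 15 32 h2) (enc_add (enc_mul h1 (bx2q0.enc h2 h3)) (enc_mul (enc_norm (enc_mul (enc_norm (enc_sub (enc_pnc _ 1) (lm1m.enc h1 h2))) (cv1m.enc h2))) (enc_norm (enc_sub (bx1q0.enc h2 h3) (bx2q0.enc h2 h3))))) (enc_add (l1q0.enc h2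 h3) (enc_mul (enc_norm (enc_mul (enc_norm (rxq0_54.enc h1 h2 h3)) (enc_inv (enc_sub (enc_add (swg.enc h2) (enc_rat _ 1 2)) (cv1m.enc h2))))) (enc_norm (enc_sub (enc_sub (qsg.enc (enc_norm (rxq0_37.enc h1 h2 h3))) (enc_mul (enc_norm (enc_nat 2 (enc_sub (rxq0_37.enc h1 h2 h3) h3))) (enc_norm (enc_mul (esg.enc (enc_norm (rxq0_37.enc h1 h2 h3))) (kcg.enc (enc_norm (enc_sub (enc_scale 3 4 (rxq0_37.enc h1 h2 h3)) (enc_half (gsg.enc (enc_norm (rxq0_37.enc h1 h2 h3)))))) h3))))) (l1q0.enc h2 h3)))))) (enc_case (enc_sub h1 (cv3m.enc h2)) (enc_add (enc_mul h1 (bx3q0.enc h2 h3)) (enc_mul (enc_norm (enc_sub (enc_pnc _ 1) (lm2m.enc h1 h2))) (enc_norm (enc_sub (l2q0.enc h2 h3) (enc_mul (cv2m.enc h2) (bx3q0.enc h2 h3)))))) (enc_add (l3q0.enc h2 h3) (enc_mul (lm3m.enc h1 h2) (enc_norm (enc_sub (l4q0.enc h2 h3) (l3q0.enc h2 h3))))))))⟩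
noncomputable def rlq0 : Fn3 := ⟨_, _, fun h1 h2 h3 => (enc_case h1 (enc_neg (rxq0.enc (enc_neg h1) h2 h3)) (rxq0.enc h1 h2 h3))⟩
noncomputable def rxq1_37 : Fn3 := ⟨_, _, fun h1 h2 h3 => (enc_sub (enc_pnc _ 1) h2)⟩
noncomputable def rxq1_54 : Fn3 := ⟨_, _, fun h1 h2 h3 => (enc_sub h1 (cv1m.enc h2))⟩
noncomputable def rxq1 : Fn3 := ⟨_, _, fun h1 h2 h3 => (enc_case (rxq1_54.enc h1 h2 h3) (enc_add (enc_mul h1 (bx1q1.enc h2 h3)) (enc_mul (enc_norm (enc_sub (enc_pnc _ 1) (lm0m.enc h1 h2))) (enc_norm (enc_sub (l0q1.enc h2 h3) (enc_mul (c1g.enc h2) (bx1q1.enc h2 h3)))))) (enc_case (enc_sub h1 (cv2m.enc h2)) (enc_case (enc_subr 19 32 h2) (enc_add (l1q1.enc h2 h3) (enc_mul (enc_norm (enc_mul (enc_norm (rxq1_54.enc h1 h2 h3)) (enc_inv (enc_sub (enc_add (swg.enc h2) (enc_rat _ 1 2)) (cv1m.enc h2))))) (enc_norm (enc_sub (enc_sub (qsg.enc (enc_norm (rxq1_37.enc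 h1 h2 h3))) (enc_mul (enc_norm (enc_nat 2 (enc_sub (rxq1_37.enc h1 h2 h3) h3))) (enc_norm (enc_mul (esg.enc (enc_norm (rxq1_37.enc h1 h2 h3))) (kcg.enc (enc_norm (enc_sub (enc_scale 3 4 (rxq1_37.enc h1 h2 h3)) (enc_half (gsg.enc (enc_norm (rxq1_37.enc h1 h2 h3)))))) h3))))) (l1q1.enc h2 h3))))) (enc_add (enc_mul h1 (bx2q1.enc h2 h3)) (enc_mul (enc_norm (enc_mul (enc_norm (enc_sub (enc_pnc _ 1) (lm1m.enc h1 h2))) (cv1m.enc h2))) (enc_norm (enc_sub (bx1q1.enc h2 h3) (bx2q1.enc h2 h3)))))) (enc_case (enc_sub h1 (cv3m.enc h2)) (enc_add (enc_mul h1 (bx3q1.enc h2 h3)) (enc_mul (enc_norm (enc_sub (enc_pnc _ 1) (lm2m.enc h1 h2))) (enc_norm (enc_sub (l2q1.enc h2 h3) (enc_mul (cv2m.enc h2) (bx3q1.enc h2 h3)))))) (enc_add (l3q1.enc h2 h3) (enc_mul (lm3m.enc h1 h2) (enc_norm (enc_sub (l4q1.enc h2 h3) (l3q1.enc h2 h3))))))))⟩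
noncomputable def rlq1 : Fn3 := ⟨_, _, fun h1 h2 h3 => (enc_case h1 (enc_neg (rxq1.enc (enc_neg h1) h2 h3)) (rxq1.enc h1 h2 h3))⟩
noncomputable def l1q2 : Fn2 := ⟨_, _, fun h1 h2 => (enc_norm (enc_mul (cv1p.enc h1) (bx1q2.enc h1 h2)))⟩
noncomputable def l0q2_7 : Fn2 := ⟨_, _, fun h1 h2 => (enc_scale 3 4 h1)⟩
noncomputable def l0q2_8 : Fn2 := ⟨_, _, fun h1 h2 => (enc_half (c1g.enc h1))⟩
noncomputable def l0q2 : Fn2 := ⟨_, _, fun h1 h2 => (enc_norm (enc_sub (txg.enc (enc_neg (c1g.enc h1)) (enc_norm (enc_add (l0q2_7.enc h1 h2) (l0q2_8.enc h1 h2))) h2) (txg.enc (c1g.enc h1) (enc_norm (enc_sub (l0q2_7.enc h1 h2) (l0q2_8.enc h1 h2))) h2)))⟩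
noncomputable def n0x : Fn2 := ⟨_, _, fun h1 h2 => (enc_norm (enc_subr 2467 156250 (enc_neg (enc_scale 114361 125000 (enc_subr 15 32 h2)))))⟩
noncomputable def rxq2_36 : Fn3 := ⟨_, _, fun h1 h2 h3 => (enc_subn 1 h2)⟩
noncomputable def rxq2_54 : Fn3 := ⟨_, _, fun h1 h2 h3 => (enc_sub h1 (cv1p.enc h2))⟩
noncomputable def rxq2_68 : Fn3 := ⟨_, _, fun h1 h2 h3 => (enc_mul h1 (bx1q2.enc h2 h3))⟩
noncomputable def rxq2_70 : Fn3 := ⟨_, _, fun h1 h2 h3 => (enc_sub (enc_pnc _ 1) (lm0p.enc h1 h2))⟩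
noncomputable def rxq2 : Fn3 := ⟨_, _, fun h1 h2 h3 => (enc_case (rxq2_54.enc h1 h2 h3) (enc_case (enc_subr 1443 1250 h2) (enc_add (rxq2_68.enc h1 h2 h3) (enc_mul (enc_norm (rxq2_70.enc h1 h2 h3)) (enc_norm (enc_sub (l0q2.enc h2 h3) (enc_mul (c1g.enc h2) (bx1q2.enc h2 h3)))))) (enc_case (enc_subr 2887 2500 h2) (enc_add (rxq2_68.enc h1 h2 h3) (enc_mul (enc_norm (rxq2_70.enc h1 h2 h3)) (enc_norm (enc_mul (c1g.enc h2) (enc_norm (enc_sub (n0x.enc h2 h3) (bx1q2.enc h2 h3))))))) (rxq2_68.enc h1 h2 h3))) (enc_case (enc_sub h1 (cv2p.enc h2)) (enc_case (enc_subr 45 32 h2) (enc_add (enc_mul h1 (bx2q2.enc h2 h3)) (enc_mul (enc_norm (enc_mul (enc_norm (enc_sub (enc_pnc _ 1) (lm1p.enc h1 h2))) (cv1p.enc h2))) (enc_norm (enc_sub (bx1q2.enc h2 h3) (bx2q2.enc h2 h3))))) (enc_add (l1q2.enc h2 h3) (enc_mul (enc_norm (enc_mul (enc_norm (rxq2_54.enc h1 h2 h3)) (enc_inv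 (enc_sub (enc_subr 1 2 (swg.enc h2)) (cv1p.enc h2))))) (enc_norm (enc_sub (enc_sub (qsg.enc (enc_norm (rxq2_36.enc h1 h2 h3))) (enc_mul (enc_norm (enc_nat 2 (enc_sub (rxq2_36.enc h1 h2 h3) h3))) (enc_norm (enc_mul (esg.enc (enc_norm (rxq2_36.enc h1 h2 h3))) (kcg.enc (enc_norm (enc_sub (enc_scale 3 4 (rxq2_36.enc h1 h2 h3)) (enc_half (gsg.enc (enc_norm (rxq2_36.enc h1 h2 h3)))))) h3))))) (l1q2.enc h2 h3)))))) (enc_case (enc_sub h1 (cv3p.enc h2)) (enc_add (enc_mul h1 (bx3q2.enc h2 h3)) (enc_mul (enc_norm (enc_sub (enc_pnc _ 1) (lm2p.enc h1 h2))) (enc_norm (enc_sub (l2q2.enc h2 h3) (enc_mul (cv2p.enc h2) (bx3q2.enc h2 h3)))))) (enc_add (l3q2.enc h2 h3) (enc_mul (lm3p.enc h1 h2) (enc_norm (enc_sub (l4q2.enc h2 h3) (l3q2.enc h2 h3))))))))⟩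
noncomputable def rlq2 : Fn3 := ⟨_, _, fun h1 h2 h3 => (enc_case h1 (enc_neg (rxq2.enc (enc_neg h1) h2 h3)) (rxq2.enc h1 h2 h3))⟩
noncomputable def l3q3 : Fn2 := ⟨_, _, fun h1 h2 => (enc_norm (enc_mul (cv3r.enc h1) (bx3q3.enc h1 h2)))⟩
noncomputable def l4q3_7 : Fn2 := ⟨_, _, fun h1 h2 => (enc_half (c3g.enc h1))⟩
noncomputable def l4q3_8 : Fn2 := ⟨_, _, fun h1 h2 => (enc_scale 1 4 h1)⟩
noncomputable def l4q3_9 : Fn2 := ⟨_, _, fun h1 h2 => (enc_sub (l4q3_7.enc h1 h2) (l4q3_8.enc h1 h2))⟩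
noncomputable def l4q3_12 : Fn2 := ⟨_, _, fun h1 h2 => (enc_add (enc_scale 1 4 (c3g.enc h1)) (enc_scale 3 8 h1))⟩
noncomputable def l4q3_14 : Fn2 := ⟨_, _, fun h1 h2 => (enc_half (l4q3_9.enc h1 h2))⟩
noncomputable def l4q3 : Fn2 := ⟨_, _, fun h1 h2 => (enc_norm (enc_sub (enc_nat 2 (txg.enc (enc_norm (enc_sub (l4q3_8.enc h1 h2) (l4q3_7.enc h1 h2))) (enc_norm (enc_add (l4q3_12.enc h1 h2) (l4q3_14.enc h1 h2))) h2)) (txg.enc (enc_norm (l4q3_9.enc h1 h2)) (enc_norm (enc_sub (l4q3_12.enc h1 h2) (l4q3_14.enc h1 h2))) h2)))⟩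
noncomputable def l2q3_8 : Fn2 := ⟨_, _, fun h1 h2 => (enc_subn 1 h1)⟩
noncomputable def l2q3_23 : Fn2 := ⟨_, _, fun h1 h2 => (enc_mul (cv1r.enc h1) (bx1q3.enc h1 h2))⟩
noncomputable def l2q3 : Fn2 := ⟨_, _, fun h1 h2 => (enc_norm (enc_case (enc_subr 49 32 h1) (enc_add (l2q3_23.enc h1 h2) (enc_mul (enc_norm (enc_mul (enc_norm (enc_sub (enc_sub (qsg.enc (enc_norm (l2q3_8.enc h1 h2))) (enc_mul (enc_norm (enc_nat 2 (enc_sub (l2q3_8.enc h1 h2) h2))) (enc_norm (enc_mul (esg.enc (enc_norm (l2q3_8.enc h1 h2))) (kcg.enc (enc_norm (enc_sub (enc_scale 3 4 (l2q3_8.enc h1 h2)) (enc_half (gsg.enc (enc_norm (l2q3_8.enc h1 h2)))))) h2))))) (l2q3_23.enc h1 h2))) (enc_norm (enc_sub (cv2r.enc h1) (cv1r.enc h1))))) (enc_inv (enc_sub (enc_subr 1 2 (swg.enc h1)) (cv1r.enc h1))))) (enc_mul (cv2r.enc h1) (bx2q3.enc h1 h2))))⟩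
noncomputable def rxq3_36 : Fn3 := ⟨_, _, fun h1 h2 h3 => (enc_subn 1 h2)⟩
noncomputable def rxq3_54 : Fn3 := ⟨_, _, fun h1 h2 h3 => (enc_sub h1 (cv1r.enc h2))⟩
noncomputable def rxq3 : Fn3 := ⟨_, _, fun h1 h2 h3 => (enc_case (rxq3_54.enc h1 h2 h3) (enc_mul h1 (bx1q3.enc h2 h3)) (enc_case (enc_sub h1 (cv2r.enc h2)) (enc_case (enc_subr 49 32 h2) (enc_add (l1q3.enc h2 h3) (enc_mul (enc_norm (enc_mul (enc_norm (rxq3_54.enc h1 h2 h3)) (enc_inv (enc_sub (enc_subr 1 2 (swg.enc h2)) (cv1r.enc h2))))) (enc_norm (enc_sub (enc_sub (qsg.enc (enc_norm (rxq3_36.enc h1 h2 h3))) (enc_mul (enc_norm (enc_nat 2 (enc_sub (rxq3_36.enc h1 h2 h3) h3))) (enc_norm (enc_mul (esg.enc (enc_norm (rxq3_36.enc h1 h2 h3))) (kcg.enc (enc_norm (enc_sub (enc_scale 3 4 (rxq3_36.enc h1 h2 h3)) (enc_half (gsg.enc (enc_norm (rxq3_36.enc h1 h2 h3)))))) h3))))) (l1q3.enc h2 h3))))) (enc_add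 (enc_mul h1 (bx2q3.enc h2 h3)) (enc_mul (enc_norm (enc_mul (enc_norm (enc_sub (enc_pnc _ 1) (lm1r.enc h1 h2))) (cv1r.enc h2))) (enc_norm (enc_sub (bx1q3.enc h2 h3) (bx2q3.enc h2 h3)))))) (enc_case (enc_sub h1 (cv3r.enc h2)) (enc_add (enc_mul h1 (bx3q3.enc h2 h3)) (enc_mul (enc_norm (enc_sub (enc_pnc _ 1) (lm2r.enc h1 h2))) (enc_norm (enc_sub (l2q3.enc h2 h3) (enc_mul (cv2r.enc h2) (bx3q3.enc h2 h3)))))) (enc_add (l3q3.enc h2 h3) (enc_mul (lm3r.enc h1 h2) (enc_norm (enc_sub (l4q3.enc h2 h3) (l3q3.enc h2 h3))))))))⟩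
noncomputable def rlq3 : Fn3 := ⟨_, _, fun h1 h2 h3 => (enc_case h1 (enc_neg (rxq3.enc (enc_neg h1) h2 h3)) (rxq3.enc h1 h2 h3))⟩
noncomputable def mug3 : Fn1 := ⟨_, _, fun h1 => (enc_inv (enc_add (enc_nat 2 (gsg.enc h1)) (enc_pnc _ 3)))⟩
noncomputable def gug : Fn1 := ⟨_, _, fun h1 => (enc_norm (enc_add (enc_scale 3 4 h1) (enc_scale 3 2 (enc_sub (enc_pnc _ 1) (gsg.enc h1)))))⟩
noncomputable def kug_2 : Fn1 := ⟨_, _, fun h1 => (enc_sq h1)⟩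
noncomputable def kug : Fn1 := ⟨_, _, fun h1 => (enc_norm (enc_add (enc_add (enc_scale 3 4 h1) (enc_scale 3 2 (kug_2.enc h1))) (enc_mul (enc_norm (enc_mul (enc_scale 3 4 (kug_2.enc h1)) (enc_inv (gsg.enc h1)))) (gug.enc h1))))⟩
noncomputable def kp0q0_8 : Fn2 := ⟨_, _, fun h1 h2 => (enc_sub (enc_scale 3 4 h1) (enc_half (c1g.enc h1)))⟩
noncomputable def kp0q0 : Fn2 := ⟨_, _, fun h1 h2 => (enc_norm (enc_case (enc_add (kp0q0_8.enc h1 h2) (enc_rat _ 311 1898)) (enc_mul h1 (enc_norm (enc_add (enc_sub (enc_rat _ 3150895364107 3190000000000) (enc_scale 7704492805893 1595000000000 (kp0q0_8.enc h1 h2))) (enc_mul (enc_norm (enc_subr 15 32 h2)) (enc_norm (enc_subr 3551980628137 1276000000000 (enc_neg (enc_scale 12669562068137 638000000000 (kp0q0_8.enc h1 h2))))))))) (enc_sub (kug.enc h1) (enc_mul h1 (enc_norm (enc_mul (kcg.enc (enc_norm (kp0q0_8.enc h1 h2))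 h2) (enc_norm (enc_add (gug.enc h1) (enc_nat 2 (c1g.enc h1))))))))))⟩
noncomputable def kn0q0 : Fn2 := ⟨_, _, fun h1 h2 => (enc_norm (enc_add (enc_mul (enc_norm (enc_add (enc_pnc _ 1) (enc_mul (mug3.enc h2) (gug.enc h2)))) (kf0q0.enc h1 h2)) (enc_mul (mug3.enc h2) (kp0q0.enc h1 h2))))⟩
noncomputable def kp0q1_3 : Fn2 := ⟨_, _, fun h1 h2 => (enc_subr 15 32 h2)⟩
noncomputable def kp0q1_5 : Fn2 := ⟨_, _, fun h1 h2 => (enc_subn 1 h1)⟩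
noncomputable def kp0q1_9 : Fn2 := ⟨_, _, fun h1 h2 => (enc_sub (enc_scale 3 4 h1) (enc_half (c1g.enc h1)))⟩
noncomputable def kp0q1 : Fn2 := ⟨_, _, fun h1 h2 => (enc_norm (enc_case (enc_add (kp0q1_9.enc h1 h2) (enc_rat _ 73 1609)) (enc_mul (enc_norm (kp0q1_5.enc h1 h2)) (enc_norm (enc_sub (enc_add (enc_add (enc_rat _ 3 4) (enc_scale 3 2 h1)) (enc_scale 3 4 (enc_mul (enc_norm (enc_mul h1 (enc_inv (c1g.enc h1)))) (gug.enc h1)))) (enc_mul (kcg.enc (enc_norm (kp0q1_9.enc h1 h2)) h2) (enc_norm (enc_add (gug.enc h1) (enc_nat 2 (c1g.enc h1)))))))) (enc_mul (enc_norm (kp0q1_5.enc h1 h2)) (enc_norm (enc_case (enc_subr 1 20 (kp0q1_9.enc h1 h2)) (enc_add (enc_sub (enc_rat _ 19904464955831 30690000000000) (enc_scale 43517657855831 1534500000000 (kp0q1_9.enc h1 h2))) (enc_mul (enc_norm (kp0q1_3.enc h1 h2)) (enc_norm (enc_subr 2044 3875 (enc_neg (enc_scale 45052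 3875 (kp0q1_9.enc h1 h2))))))) (enc_add (enc_subr 4291157 9000000 (enc_neg (enc_scale 2633533 450000 (kp0q1_9.enc h1 h2)))) (enc_mul (enc_norm (kp0q1_3.enc h1 h2)) (enc_norm (enc_subr 24641 56250 (enc_neg (enc_scale 75458 5625 (kp0q1_9.enc h1 h2))))))))))))⟩
noncomputable def kn0q1 : Fn2 := ⟨_, _, fun h1 h2 => (enc_norm (enc_add (enc_mul (enc_norm (enc_add (enc_pnc _ 1) (enc_mul (mug3.enc h2) (gug.enc h2)))) (kf0q1.enc h1 h2)) (enc_mul (mug3.enc h2) (kp0q1.enc h1 h2))))⟩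
noncomputable def kpc02 : Fn2 := ⟨_, _, fun h1 h2 => (enc_norm (enc_mul (enc_norm (enc_subn 1 (yag.enc h1))) (enc_norm (enc_add (enc_scale 3402943 500000 h1) (enc_mul (enc_norm (enc_subr 15 32 h2)) (enc_scale 44659 3125 h1))))))⟩
noncomputable def knc02 : Fn2 := ⟨_, _, fun h1 h2 => (enc_norm (enc_add (enc_mul (enc_norm (enc_add (enc_pnc _ 1) (enc_mul (mug3.enc h2) (gug.enc h2)))) (kfc02.enc h1 h2)) (enc_mul (mug3.enc h2) (kpc02.enc h1 h2))))⟩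
noncomputable def bd1q0 : Fn2 := ⟨_, _, fun h1 h2 => (enc_norm (enc_add (enc_scale 165951 100000 h1) (enc_mul (enc_norm (enc_subr 15 32 h2)) (enc_scale 791 25000 h1))))⟩
noncomputable def kp1q0 : Fn2 := ⟨_, _, fun h1 h2 => (enc_norm (enc_mul (cv1m.enc h1) (bd1q0.enc h1 h2)))⟩
noncomputable def kn1q0 : Fn2 := ⟨_, _, fun h1 h2 => (enc_norm (enc_add (enc_mul (enc_norm (enc_add (enc_pnc _ 1) (enc_mul (mug3.enc h2) (gug.enc h2)))) (kf1q0.enc h1 h2)) (enc_mul (mug3.enc h2) (kp1q0.enc h1 h2))))⟩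
noncomputable def bd1q1 : Fn2 := ⟨_, _, fun h1 h2 => (enc_norm (enc_add (enc_subr 382569 125000 (enc_scale 53044 15625 h1)) (enc_mul (enc_norm (enc_subr 15 32 h2)) (enc_norm (enc_sub (enc_rat _ 1681 50000) (enc_scale 889 25000 h1))))))⟩
noncomputable def kp1q1 : Fn2 := ⟨_, _, fun h1 h2 => (enc_norm (enc_mul (cv1m.enc h1) (bd1q1.enc h1 h2)))⟩
noncomputable def kn1q1 : Fn2 := ⟨_, _, fun h1 h2 => (enc_norm (enc_add (enc_mul (enc_norm (enc_add (enc_pnc _ 1) (enc_mul (mug3.enc h2) (gug.enc h2)))) (kf1q1.enc h1 h2)) (enc_mul (mug3.enc h2) (kp1q1.enc h1 h2))))⟩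
noncomputable def bd1q2_3 : Fn2 := ⟨_, _, fun h1 h2 => (enc_subr 15 32 h2)⟩
noncomputable def bd1q2_15 : Fn2 := ⟨_, _, fun h1 h2 => (enc_add (enc_subr 3402943 500000 (enc_scale 3402943 500000 h1)) (enc_mul (enc_norm (bd1q2_3.enc h1 h2)) (enc_norm (enc_subr 44659 3125 (enc_scale 44659 3125 h1)))))⟩
noncomputable def bd1q2 : Fn2 := ⟨_, _, fun h1 h2 => (enc_norm (enc_case (enc_subr 577 500 h1) (bd1q2_15.enc h1 h2) (enc_case (enc_subr 231 200 h1) (bd1q2_15.enc h1 h2) (enc_add (enc_subr 78266303 11500000 (enc_scale 78266489 11500000 h1)) (enc_mul (enc_norm (bd1q2_3.enc h1 h2)) (enc_norm (enc_subr 32775777 2300000 (enc_scale 12295609 862500 h1))))))))⟩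
noncomputable def kpc12a : Fn2 := ⟨_, _, fun h1 h2 => (enc_norm (enc_mul (enc_norm (enc_add (enc_half h1) (enc_half (enc_subr 1 2 (swg.enc (yag.enc h1)))))) (bd1q2.enc (yag.enc h1) h2)))⟩
noncomputable def knc12a : Fn2 := ⟨_, _, fun h1 h2 => (enc_norm (enc_add (enc_mul (enc_norm (enc_add (enc_pnc _ 1) (enc_mul (mug3.enc h2) (gug.enc h2)))) (kfc12a.enc h1 h2)) (enc_mul (mug3.enc h2) (kpc12a.enc h1 h2))))⟩
noncomputable def kpc12b : Fn2 := ⟨_, _, fun h1 h2 => (enc_norm (enc_mul (enc_norm (enc_half (enc_subr 1 2 (swg.enc h1)))) (bd1q2.enc h1 h2)))⟩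
noncomputable def knc12b : Fn2 := ⟨_, _, fun h1 h2 => (enc_norm (enc_add (enc_mul (enc_norm (enc_add (enc_pnc _ 1) (enc_mul (mug3.enc h2) (gug.enc h2)))) (kfc12b.enc h1 h2)) (enc_mul (mug3.enc h2) (kpc12b.enc h1 h2))))⟩
noncomputable def bd1q3 : Fn2 := ⟨_, _, fun h1 h2 => (enc_norm (enc_add (enc_subr 2749543 62500 (enc_scale 1265529 50000 h1)) (enc_mul (enc_norm (enc_subr 15 32 h2)) (enc_norm (enc_subr 33 25000 (enc_scale 17 25000 h1))))))⟩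
noncomputable def kp1q3 : Fn2 := ⟨_, _, fun h1 h2 => (enc_norm (enc_mul (cv1r.enc h1) (bd1q3.enc h1 h2)))⟩
noncomputable def kn1q3 : Fn2 := ⟨_, _, fun h1 h2 => (enc_norm (enc_add (enc_mul (enc_norm (enc_add (enc_pnc _ 1) (enc_mul (mug3.enc h2) (gug.enc h2)))) (kf1q3.enc h1 h2)) (enc_mul (mug3.enc h2) (kp1q3.enc h1 h2))))⟩
noncomputable def bd2q0 : Fn2 := ⟨_, _, fun h1 h2 => (enc_norm (enc_add (enc_sub (enc_rat _ 20563 15625) (enc_scale 8550727479 1562500000 h1)) (enc_mul (enc_norm (enc_subr 15 32 h2)) (enc_norm (enc_sub (enc_rat _ 1441 100000) (enc_scale 8678077 234375000 h1))))))⟩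
noncomputable def kp2q0_9 : Fn2 := ⟨_, _, fun h1 h2 => (enc_sub (enc_pnc _ 1) h1)⟩
noncomputable def kp2q0_10 : Fn2 := ⟨_, _, fun h1 h2 => (gsg.enc (enc_norm (kp2q0_9.enc h1 h2)))⟩
noncomputable def kp2q0_14 : Fn2 := ⟨_, _, fun h1 h2 => (esg.enc (enc_norm (kp2q0_9.enc h1 h2)))⟩
noncomputable def kp2q0_18 : Fn2 := ⟨_, _, fun h1 h2 => (gug.enc (enc_norm (kp2q0_9.enc h1 h2)))⟩
noncomputable def kp2q0_20 : Fn2 := ⟨_, _, fun h1 h2 => (enc_mul (enc_norm (kp2q0_9.enc h1 h2)) (enc_inv (kp2q0_10.enc h1 h2)))⟩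
noncomputable def kp2q0_21 : Fn2 := ⟨_, _, fun h1 h2 => (enc_scale 3 4 (kp2q0_20.enc h1 h2))⟩
noncomputable def kp2q0_51 : Fn2 := ⟨_, _, fun h1 h2 => (enc_mul (cv1m.enc h1) (bd1q0.enc h1 h2))⟩
noncomputable def kp2q0 : Fn2 := ⟨_, _, fun h1 h2 => (enc_norm (enc_case (enc_subr 15 32 h1) (enc_mul (cv2m.enc h1) (bd2q0.enc h1 h2)) (enc_add (kp2q0_51.enc h1 h2) (enc_mul (enc_norm (enc_mul (enc_norm (enc_sub (enc_mul h1 (enc_norm (enc_add (enc_sub (enc_neg (enc_add (enc_add (enc_rat _ 3 4) (enc_scale 3 2 (kp2q0_9.enc h1 h2))) (enc_scale 3 4 (enc_mul (enc_norm (kp2q0_20.enc h1 h2)) (kp2q0_18.enc h1 h2))))) (enc_mul (enc_norm (enc_sub (enc_mul (enc_norm (enc_mul (enc_norm (kp2q0_21.enc h1 h2)) (enc_norm (enc_subn 3 (enc_nat 4 (kp2q0_10.enc h1 h2)))))) (kp2q0_14.enc h1 h2)) (enc_mul (qsg.enc (enc_norm (kp2q0_9.enc h1 h2))) (enc_norm (enc_sub (enc_rat _ 1 2)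 (kp2q0_21.enc h1 h2)))))) (enc_inv (enc_mul (enc_nat 2 (kp2q0_14.enc h1 h2)) (kp2q0_14.enc h1 h2))))) (enc_mul (kcg.enc (enc_norm (enc_sub (enc_scale 3 4 (kp2q0_9.enc h1 h2)) (enc_half (kp2q0_10.enc h1 h2)))) h2) (enc_norm (enc_add (enc_pnc _ 1) (enc_add (kp2q0_18.enc h1 h2) (enc_nat 2 (kp2q0_10.enc h1 h2))))))))) (kp2q0_51.enc h1 h2))) (enc_norm (enc_sub (cv2m.enc h1) (cv1m.enc h1))))) (enc_inv (enc_sub (enc_add (swg.enc h1) (enc_rat _ 1 2)) (cv1m.enc h1)))))))⟩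
noncomputable def kn2q0 : Fn2 := ⟨_, _, fun h1 h2 => (enc_norm (enc_add (enc_mul (enc_norm (enc_add (enc_pnc _ 1) (enc_mul (mug3.enc h2) (gug.enc h2)))) (kf2q0.enc h1 h2)) (enc_mul (mug3.enc h2) (kp2q0.enc h1 h2))))⟩
noncomputable def bd2q1 : Fn2 := ⟨_, _, fun h1 h2 => (enc_norm (enc_add (enc_sub (enc_rat _ 9206274653 4062500000) (enc_scale 9206274653 4062500000 h1)) (enc_mul (enc_norm (enc_subr 15 32 h2)) (enc_norm (enc_sub (enc_rat _ 2633171 5078125) (enc_scale 2633171 5078125 h1))))))⟩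
noncomputable def kp2q1_9 : Fn2 := ⟨_, _, fun h1 h2 => (enc_sub (enc_pnc _ 1) h1)⟩
noncomputable def kp2q1_10 : Fn2 := ⟨_, _, fun h1 h2 => (gsg.enc (enc_norm (kp2q1_9.enc h1 h2)))⟩
noncomputable def kp2q1_14 : Fn2 := ⟨_, _, fun h1 h2 => (esg.enc (enc_norm (kp2q1_9.enc h1 h2)))⟩
noncomputable def kp2q1_22 : Fn2 := ⟨_, _, fun h1 h2 => (enc_mul (enc_scale 3 4 (enc_sq (enc_norm (kp2q1_9.enc h1 h2)))) (enc_inv (kp2q1_10.enc h1 h2)))⟩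
noncomputable def kp2q1_47 : Fn2 := ⟨_, _, fun h1 h2 => (enc_mul (cv1m.enc h1) (bd1q1.enc h1 h2))⟩
noncomputable def kp2q1 : Fn2 := ⟨_, _, fun h1 h2 => (enc_norm (enc_case (enc_subr 19 32 h1) (enc_add (kp2q1_47.enc h1 h2) (enc_mul (enc_norm (enc_mul (enc_norm (enc_sub (enc_sub (enc_add (kug.enc (enc_norm (kp2q1_9.enc h1 h2))) (enc_mul (enc_norm (enc_sub (enc_mul (enc_norm (enc_mul (enc_norm (kp2q1_22.enc h1 h2)) (enc_norm (enc_subn 3 (enc_nat 4 (kp2q1_10.enc h1 h2)))))) (kp2q1_14.enc h1 h2)) (enc_mul (qsg.enc (enc_norm (kp2q1_9.enc h1 h2))) (enc_norm (enc_sub (enc_half (kp2q1_9.enc h1 h2)) (kp2q1_22.enc h1 h2)))))) (enc_inv (enc_mul (enc_nat 2 (kp2q1_14.enc h1 h2)) (kp2q1_14.enc h1 h2))))) (enc_mul (enc_norm (enc_mul (enc_norm (kp2q1_9.enc h1 h2)) (kcg.enc (enc_norm (enc_sub (enc_scale 3 4 (kp2q1_9.enc h1 h2)) (enc_half (kp2q1_10.enc h1 h2)))) h2)))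 (enc_norm (enc_add (enc_add (enc_pnc _ 1) (gug.enc (enc_norm (kp2q1_9.enc h1 h2)))) (enc_nat 2 (kp2q1_10.enc h1 h2)))))) (kp2q1_47.enc h1 h2))) (enc_norm (enc_sub (cv2m.enc h1) (cv1m.enc h1))))) (enc_inv (enc_sub (enc_add (swg.enc h1) (enc_rat _ 1 2)) (cv1m.enc h1))))) (enc_mul (cv2m.enc h1) (bd2q1.enc h1 h2))))⟩
noncomputable def kn2q1 : Fn2 := ⟨_, _, fun h1 h2 => (enc_norm (enc_add (enc_mul (enc_norm (enc_add (enc_pnc _ 1) (enc_mul (mug3.enc h2) (gug.enc h2)))) (kf2q1.enc h1 h2)) (enc_mul (mug3.enc h2) (kp2q1.enc h1 h2))))⟩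
noncomputable def bd2q2 : Fn2 := ⟨_, _, fun h1 h2 => (enc_norm (enc_add (enc_subr 15617758881 8125000000 (enc_scale 3471440189 2031250000 h1)) (enc_mul (enc_norm (enc_subr 15 32 h2)) (enc_norm (enc_sub (enc_rat _ 1259284673 406250000) (enc_scale 1254117173 406250000 h1))))))⟩
noncomputable def kp2q2_8 : Fn2 := ⟨_, _, fun h1 h2 => (enc_subn 1 h1)⟩
noncomputable def kp2q2_9 : Fn2 := ⟨_, _, fun h1 h2 => (gsg.enc (enc_norm (kp2q2_8.enc h1 h2)))⟩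
noncomputable def kp2q2_13 : Fn2 := ⟨_, _, fun h1 h2 => (esg.enc (enc_norm (kp2q2_8.enc h1 h2)))⟩
noncomputable def kp2q2_21 : Fn2 := ⟨_, _, fun h1 h2 => (enc_mul (enc_scale 3 4 (enc_sq (enc_norm (kp2q2_8.enc h1 h2)))) (enc_inv (kp2q2_9.enc h1 h2)))⟩
noncomputable def kp2q2_44 : Fn2 := ⟨_, _, fun h1 h2 => (enc_mul (cv1p.enc h1) (bd1q2.enc h1 h2))⟩
noncomputable def kp2q2 : Fn2 := ⟨_, _, fun h1 h2 => (enc_norm (enc_case (enc_subr 45 32 h1) (enc_mul (cv2p.enc h1) (bd2q2.enc h1 h2)) (enc_add (kp2q2_44.enc h1 h2) (enc_mul (enc_norm (enc_mul (enc_norm (enc_sub (enc_add (enc_sub (kug.enc (enc_norm (kp2q2_8.enc h1 h2))) (enc_mul (enc_norm (enc_sub (enc_mul (enc_norm (enc_mul (enc_norm (kp2q2_21.enc h1 h2)) (enc_norm (enc_subn 3 (enc_nat 4 (kp2q2_9.enc h1 h2)))))) (kp2q2_13.enc h1 h2)) (enc_mul (qsg.enc (enc_norm (kp2q2_8.enc h1 h2))) (enc_norm (enc_sub (enc_half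 (kp2q2_8.enc h1 h2)) (kp2q2_21.enc h1 h2)))))) (enc_inv (enc_mul (enc_nat 2 (kp2q2_13.enc h1 h2)) (kp2q2_13.enc h1 h2))))) (enc_mul (enc_norm (enc_mul (enc_norm (kp2q2_8.enc h1 h2)) (kcg.enc (enc_norm (enc_sub (enc_scale 3 4 (kp2q2_8.enc h1 h2)) (enc_half (kp2q2_9.enc h1 h2)))) h2))) (enc_norm (enc_sub (enc_sub (enc_pnc _ 1) (gug.enc (enc_norm (kp2q2_8.enc h1 h2)))) (enc_nat 2 (kp2q2_9.enc h1 h2)))))) (kp2q2_44.enc h1 h2))) (enc_norm (enc_sub (cv2p.enc h1) (cv1p.enc h1))))) (enc_inv (enc_sub (enc_subr 1 2 (swg.enc h1)) (cv1p.enc h1)))))))⟩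
noncomputable def kn2q2 : Fn2 := ⟨_, _, fun h1 h2 => (enc_norm (enc_add (enc_mul (enc_norm (enc_add (enc_pnc _ 1) (enc_mul (mug3.enc h2) (gug.enc h2)))) (kf2q2.enc h1 h2)) (enc_mul (mug3.enc h2) (kp2q2.enc h1 h2))))⟩
noncomputable def bd2q3 : Fn2 := ⟨_, _, fun h1 h2 => (enc_norm (enc_add (enc_subr 1835470259 1171875000 (enc_scale 1835470259 2343750000 h1)) (enc_mul (enc_norm (enc_subr 15 32 h2)) (enc_norm (enc_sub (enc_rat _ 25139 78125000) (enc_scale 25139 156250000 h1))))))⟩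
noncomputable def kpc23_6 : Fn2 := ⟨_, _, fun h1 h2 => (enc_subr 1 2 (swg.enc (ycg.enc h1)))⟩
noncomputable def kpc23_9 : Fn2 := ⟨_, _, fun h1 h2 => (enc_add (enc_scale 4 5 (kpc23_6.enc h1 h2)) (enc_scale 1 5 h1))⟩
noncomputable def kpc23_15 : Fn2 := ⟨_, _, fun h1 h2 => (enc_subn 1 (ycg.enc h1))⟩
noncomputable def kpc23_16 : Fn2 := ⟨_, _, fun h1 h2 => (gsg.enc (enc_norm (kpc23_15.enc h1 h2)))⟩
noncomputable def kpc23_20 : Fn2 := ⟨_, _, fun h1 h2 => (esg.enc (enc_norm (kpc23_15.enc h1 h2)))⟩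
noncomputable def kpc23_25 : Fn2 := ⟨_, _, fun h1 h2 => (gug.enc (enc_norm (kpc23_15.enc h1 h2)))⟩
noncomputable def kpc23_27 : Fn2 := ⟨_, _, fun h1 h2 => (enc_mul (enc_norm (kpc23_15.enc h1 h2)) (enc_inv (kpc23_16.enc h1 h2)))⟩
noncomputable def kpc23_28 : Fn2 := ⟨_, _, fun h1 h2 => (enc_scale 3 4 (kpc23_27.enc h1 h2))⟩
noncomputable def kpc23_54 : Fn2 := ⟨_, _, fun h1 h2 => (cv1r.enc (ycg.enc h1))⟩
noncomputable def kpc23_56 : Fn2 := ⟨_, _, fun h1 h2 => (enc_mul (kpc23_54.enc h1 h2) (bd1q3.enc (ycg.enc h1) h2))⟩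
noncomputable def kpc23 : Fn2 := ⟨_, _, fun h1 h2 => (enc_norm (enc_case (enc_subr 49 32 (ycg.enc h1)) (enc_add (kpc23_56.enc h1 h2) (enc_mul (enc_norm (enc_mul (enc_norm (enc_sub (enc_mul (enc_norm (enc_subn 2 (ycg.enc h1))) (enc_norm (enc_add (enc_sub (enc_add (enc_add (enc_rat _ 3 4) (enc_scale 3 2 (kpc23_15.enc h1 h2))) (enc_scale 3 4 (enc_mul (enc_norm (kpc23_27.enc h1 h2)) (kpc23_25.enc h1 h2)))) (enc_mul (enc_norm (enc_sub (enc_mul (enc_norm (enc_mul (enc_norm (kpc23_28.enc h1 h2)) (enc_norm (enc_subn 3 (enc_nat 4 (kpc23_16.enc h1 h2)))))) (kpc23_20.enc h1 h2)) (enc_mul (qsg.enc (enc_norm (kpc23_15.enc h1 h2))) (enc_norm (enc_sub (enc_rat _ 1 2) (kpc23_28.enc h1 h2)))))) (enc_inv (enc_mul (enc_nat 2 (kpc23_20.enc h1 h2)) (kpc23_20.enc h1 h2))))) (enc_mul (kcg.enc (enc_norm (enc_sub (enc_scale 3 4 (kpc23_15.enc h1 h2)) (enc_half (kpc23_16.enc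 h1 h2)))) h2) (enc_norm (enc_sub (enc_pnc _ 1) (enc_add (kpc23_25.enc h1 h2) (enc_nat 2 (kpc23_16.enc h1 h2))))))))) (kpc23_56.enc h1 h2))) (enc_norm (enc_sub (kpc23_9.enc h1 h2) (kpc23_54.enc h1 h2))))) (enc_inv (enc_sub (kpc23_6.enc h1 h2) (kpc23_54.enc h1 h2))))) (enc_mul (enc_norm (kpc23_9.enc h1 h2)) (bd2q3.enc (ycg.enc h1) h2))))⟩
noncomputable def knc23 : Fn2 := ⟨_, _, fun h1 h2 => (enc_norm (enc_add (enc_mul (enc_norm (enc_add (enc_pnc _ 1) (enc_mul (mug3.enc h2) (gug.enc h2)))) (kfc23.enc h1 h2)) (enc_mul (mug3.enc h2) (kpc23.enc h1 h2))))⟩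
noncomputable def bd3q0 : Fn2 := ⟨_, _, fun h1 h2 => (enc_norm (enc_add (enc_sub (enc_rat _ 37017 250000) (enc_scale 207033 125000 h1)) (enc_mul (enc_norm (enc_subr 15 32 h2)) (enc_norm (enc_sub (enc_rat _ 751 100000) (enc_scale 501 50000 h1))))))⟩
noncomputable def kp3q0 : Fn2 := ⟨_, _, fun h1 h2 => (enc_norm (enc_mul (cv3m.enc h1) (bd3q0.enc h1 h2)))⟩
noncomputable def kn3q0 : Fn2 := ⟨_, _, fun h1 h2 => (enc_norm (enc_add (enc_mul (enc_norm (enc_add (enc_pnc _ 1) (enc_mul (mug3.enc h2) (gug.enc h2)))) (kf3q0.enc h1 h2)) (enc_mul (mug3.enc h2) (kp3q0.enc h1 h2))))⟩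
noncomputable def bd3q1 : Fn2 := ⟨_, _, fun h1 h2 => (enc_norm (enc_add (enc_sub (enc_rat _ 239799 125000) (enc_scale 239799 125000 h1)) (enc_mul (enc_norm (enc_subr 15 32 h2)) (enc_norm (enc_sub (enc_rat _ 3727 50000) (enc_scale 3727 50000 h1))))))⟩
noncomputable def kp3q1 : Fn2 := ⟨_, _, fun h1 h2 => (enc_norm (enc_mul (cv3m.enc h1) (bd3q1.enc h1 h2)))⟩
noncomputable def kn3q1 : Fn2 := ⟨_, _, fun h1 h2 => (enc_norm (enc_add (enc_mul (enc_norm (enc_add (enc_pnc _ 1) (enc_mul (mug3.enc h2) (gug.enc h2)))) (kf3q1.enc h1 h2)) (enc_mul (mug3.enc h2) (kp3q1.enc h1 h2))))⟩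
noncomputable def bd3q2 : Fn2 := ⟨_, _, fun h1 h2 => (enc_norm (enc_add (enc_sub (enc_rat _ 133613 25000) (enc_scale 145211 31250 h1)) (enc_mul (enc_norm (enc_subr 15 32 h2)) (enc_norm (enc_subr 799 50000 (enc_scale 261 25000 h1))))))⟩
noncomputable def kp3q2 : Fn2 := ⟨_, _, fun h1 h2 => (enc_norm (enc_mul (cv3p.enc h1) (bd3q2.enc h1 h2)))⟩
noncomputable def kn3q2 : Fn2 := ⟨_, _, fun h1 h2 => (enc_norm (enc_add (enc_mul (enc_norm (enc_add (enc_pnc _ 1) (enc_mul (mug3.enc h2) (gug.enc h2)))) (kf3q2.enc h1 h2)) (enc_mul (mug3.enc h2) (kp3q2.enc h1 h2))))⟩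
noncomputable def bd3q3 : Fn2 := ⟨_, _, fun h1 h2 => (enc_norm (enc_add (enc_sub (enc_rat _ 2438691 250000) (enc_scale 2438691 500000 h1)) (enc_mul (enc_norm (enc_subr 15 32 h2)) (enc_norm (enc_sub (enc_rat _ 9 25000) (enc_scale 9 50000 h1))))))⟩
noncomputable def kpc33 : Fn2 := ⟨_, _, fun h1 h2 => (enc_norm (enc_mul (enc_norm (enc_add (enc_scale 11 25 (enc_subr 1 2 (swg.enc (ycg.enc h1)))) (enc_scale 14 25 h1))) (bd3q3.enc (ycg.enc h1) h2)))⟩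
noncomputable def knc33 : Fn2 := ⟨_, _, fun h1 h2 => (enc_norm (enc_add (enc_mul (enc_norm (enc_add (enc_pnc _ 1) (enc_mul (mug3.enc h2) (gug.enc h2)))) (kfc33.enc h1 h2)) (enc_mul (mug3.enc h2) (kpc33.enc h1 h2))))⟩
noncomputable def kp4q0 : Fn2 := ⟨_, _, fun h1 h2 => (enc_norm (enc_mul h1 (enc_norm (enc_add (enc_subr 61539 125000 (enc_neg (enc_scale 2910631 1000000 h1))) (enc_mul (enc_norm (enc_subr 15 32 h2)) (enc_norm (enc_subr 43 20000 (enc_neg (enc_scale 714329 100000 h1)))))))))⟩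
noncomputable def kn4q0 : Fn2 := ⟨_, _, fun h1 h2 => (enc_norm (enc_add (enc_mul (enc_norm (enc_add (enc_pnc _ 1) (enc_mul (mug3.enc h2) (gug.enc h2)))) (kf4q0.enc h1 h2)) (enc_mul (mug3.enc h2) (kp4q0.enc h1 h2))))⟩
noncomputable def kp4q1 : Fn2 := ⟨_, _, fun h1 h2 => (enc_norm (enc_mul (enc_norm (enc_subn 1 h1)) (enc_norm (enc_add (enc_subr 61539 125000 (enc_neg (enc_scale 2910631 1000000 h1))) (enc_mul (enc_norm (enc_subr 15 32 h2)) (enc_norm (enc_subr 43 20000 (enc_neg (enc_scale 714329 100000 h1)))))))))⟩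
noncomputable def kn4q1 : Fn2 := ⟨_, _, fun h1 h2 => (enc_norm (enc_add (enc_mul (enc_norm (enc_add (enc_pnc _ 1) (enc_mul (mug3.enc h2) (gug.enc h2)))) (kf4q1.enc h1 h2)) (enc_mul (mug3.enc h2) (kp4q1.enc h1 h2))))⟩
noncomputable def kp4q2_9 : Fn2 := ⟨_, _, fun h1 h2 => (enc_sub (enc_half (c3g.enc h1)) (enc_scale 1 4 h1))⟩
noncomputable def kp4q2 : Fn2 := ⟨_, _, fun h1 h2 => (enc_norm (enc_mul (enc_norm (enc_subn 1 h1)) (enc_norm (enc_add (enc_add (enc_scale 5779673 1000000 (kp4q2_9.enc h1 h2)) (enc_rat _ 1026213 2000000)) (enc_mul (enc_norm (enc_subr 15 32 h2)) (enc_norm (enc_add (enc_scale 720243 100000 (kp4q2_9.enc h1 h2)) (enc_rat _ 141769 40000))))))))⟩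
noncomputable def kn4q2 : Fn2 := ⟨_, _, fun h1 h2 => (enc_norm (enc_add (enc_mul (enc_norm (enc_add (enc_pnc _ 1) (enc_mul (mug3.enc h2) (gug.enc h2)))) (kf4q2.enc h1 h2)) (enc_mul (mug3.enc h2) (kp4q2.enc h1 h2))))⟩
noncomputable def kpc43_9 : Fn2 := ⟨_, _, fun h1 h2 => (enc_sub (enc_half h1) (enc_scale 1 4 (ycg.enc h1)))⟩
noncomputable def kpc43 : Fn2 := ⟨_, _, fun h1 h2 => (enc_norm (enc_mul (enc_norm (enc_subn 2 (ycg.enc h1))) (enc_norm (enc_add (enc_add (enc_scale 5779673 1000000 (kpc43_9.enc h1 h2)) (enc_rat _ 1026213 2000000)) (enc_mul (enc_norm (enc_subr 15 32 h2)) (enc_norm (enc_add (enc_scale 720243 100000 (kpc43_9.enc h1 h2)) (enc_rat _ 141769 40000))))))))⟩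
noncomputable def knc43 : Fn2 := ⟨_, _, fun h1 h2 => (enc_norm (enc_add (enc_mul (enc_norm (enc_add (enc_pnc _ 1) (enc_mul (mug3.enc h2) (gug.enc h2)))) (kfc43.enc h1 h2)) (enc_mul (mug3.enc h2) (kpc43.enc h1 h2))))⟩
noncomputable def bn3q0 : Fn2 := ⟨_, _, fun h1 h2 => (enc_norm (enc_add (enc_mul (enc_norm (enc_add (enc_pnc _ 1) (enc_mul (mug3.enc h2) (gug.enc h2)))) (bf3q0.enc h1 h2)) (enc_mul (mug3.enc h2) (bd3q0.enc h1 h2))))⟩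
noncomputable def bn2q0 : Fn2 := ⟨_, _, fun h1 h2 => (enc_norm (enc_add (enc_mul (enc_norm (enc_add (enc_pnc _ 1) (enc_mul (mug3.enc h2) (gug.enc h2)))) (bf2q0.enc h1 h2)) (enc_mul (mug3.enc h2) (bd2q0.enc h1 h2))))⟩
noncomputable def bn1q0 : Fn2 := ⟨_, _, fun h1 h2 => (enc_norm (enc_add (enc_mul (enc_norm (enc_add (enc_pnc _ 1) (enc_mul (mug3.enc h2) (gug.enc h2)))) (bf1q0.enc h1 h2)) (enc_mul (mug3.enc h2) (bd1q0.enc h1 h2))))⟩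
noncomputable def rknq0_41 : Fn3 := ⟨_, _, fun h1 h2 h3 => (enc_sub (enc_pnc _ 1) h2)⟩
noncomputable def rknq0_42 : Fn3 := ⟨_, _, fun h1 h2 h3 => (gsg.enc (enc_norm (rknq0_41.enc h1 h2 h3)))⟩
noncomputable def rknq0_45 : Fn3 := ⟨_, _, fun h1 h2 h3 => (enc_sub (enc_scale 3 4 (rknq0_41.enc h1 h2 h3)) (enc_half (rknq0_42.enc h1 h2 h3)))⟩
noncomputable def rknq0_46 : Fn3 := ⟨_, _, fun h1 h2 h3 => (esg.enc (enc_norm (rknq0_41.enc h1 h2 h3)))⟩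
noncomputable def rknq0_47 : Fn3 := ⟨_, _, fun h1 h2 h3 => (kcg.enc (enc_norm (rknq0_45.enc h1 h2 h3)) h3)⟩
noncomputable def rknq0_51 : Fn3 := ⟨_, _, fun h1 h2 h3 => (enc_mul (enc_norm (rknq0_41.enc h1 h2 h3)) (enc_inv (rknq0_42.enc h1 h2 h3)))⟩
noncomputable def rknq0_63 : Fn3 := ⟨_, _, fun h1 h2 h3 => (gug.enc (enc_norm (rknq0_41.enc h1 h2 h3)))⟩
noncomputable def rknq0_64 : Fn3 := ⟨_, _, fun h1 h2 h3 => (enc_scale 3 4 (rknq0_51.enc h1 h2 h3))⟩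
noncomputable def rknq0_97 : Fn3 := ⟨_, _, fun h1 h2 h3 => (enc_sub h1 (cv1m.enc h2))⟩
noncomputable def rknq0 : Fn3 := ⟨_, _, fun h1 h2 h3 => (enc_case (rknq0_97.enc h1 h2 h3) (enc_add (enc_mul h1 (bn1q0.enc h2 h3)) (enc_mul (enc_norm (enc_sub (enc_pnc _ 1) (lm0m.enc h1 h2))) (enc_norm (enc_sub (kn0q0.enc h2 h3) (enc_mul (c1g.enc h2) (bn1q0.enc h2 h3)))))) (enc_case (enc_sub h1 (cv2m.enc h2)) (enc_case (enc_subr 15 32 h2) (enc_add (enc_mul h1 (bn2q0.enc h2 h3)) (enc_mul (enc_norm (enc_mul (enc_norm (enc_sub (enc_pnc _ 1) (lm1m.enc h1 h2))) (cv1m.enc h2))) (enc_norm (enc_sub (bn1q0.enc h2 h3) (bn2q0.enc h2 h3))))) (enc_add (kn1q0.enc h2 h3) (enc_mul (enc_norm (enc_mul (enc_norm (rknq0_97.enc h1 h2 h3)) (enc_inv (enc_sub (enc_add (swg.enc h2) (enc_rat _ 1 2)) (cv1m.enc h2))))) (enc_norm (enc_sub (enc_add (enc_mul (enc_norm (enc_add (enc_pnc _ 1) (enc_mul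 (mug3.enc h3) (gug.enc h3)))) (enc_norm (enc_mul h2 (enc_norm (enc_sub (enc_mul (enc_norm (enc_sub (rknq0_45.enc h1 h2 h3) (enc_sub (enc_rat _ 1 4) (enc_scale 3 8 (rknq0_51.enc h1 h2 h3))))) (enc_inv (rknq0_46.enc h1 h2 h3))) (rknq0_47.enc h1 h2 h3)))))) (enc_mul (mug3.enc h3) (enc_norm (enc_mul h2 (enc_norm (enc_add (enc_sub (enc_neg (enc_add (enc_add (enc_rat _ 3 4) (enc_scale 3 2 (rknq0_41.enc h1 h2 h3))) (enc_scale 3 4 (enc_mul (enc_norm (rknq0_51.enc h1 h2 h3)) (rknq0_63.enc h1 h2 h3))))) (enc_mul (enc_norm (enc_sub (enc_mul (enc_norm (enc_mul (enc_norm (rknq0_64.enc h1 h2 h3)) (enc_norm (enc_subn 3 (enc_nat 4 (rknq0_42.enc h1 h2 h3)))))) (rknq0_46.enc h1 h2 h3)) (enc_mul (qsg.enc (enc_norm (rknq0_41.enc h1 h2 h3))) (enc_norm (enc_sub (enc_rat _ 1 2) (rknq0_64.enc h1 h2 h3)))))) (enc_inv (enc_mul (enc_nat 2 (rknq0_46.enc h1 h2 h3)) (rknq0_46.enc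 h1 h2 h3))))) (enc_mul (rknq0_47.enc h1 h2 h3) (enc_norm (enc_add (enc_pnc _ 1) (enc_add (rknq0_63.enc h1 h2 h3) (enc_nat 2 (rknq0_42.enc h1 h2 h3)))))))))))) (kn1q0.enc h2 h3)))))) (enc_case (enc_sub h1 (cv3m.enc h2)) (enc_add (enc_mul h1 (bn3q0.enc h2 h3)) (enc_mul (enc_norm (enc_sub (enc_pnc _ 1) (lm2m.enc h1 h2))) (enc_norm (enc_sub (kn2q0.enc h2 h3) (enc_mul (cv2m.enc h2) (bn3q0.enc h2 h3)))))) (enc_add (kn3q0.enc h2 h3) (enc_mul (lm3m.enc h1 h2) (enc_norm (enc_sub (kn4q0.enc h2 h3) (kn3q0.enc h2 h3))))))))⟩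
noncomputable def rsnq0 : Fn3 := ⟨_, _, fun h1 h2 h3 => (enc_case h1 (enc_neg (rknq0.enc (enc_neg h1) h2 h3)) (rknq0.enc h1 h2 h3))⟩
noncomputable def bn3q1 : Fn2 := ⟨_, _, fun h1 h2 => (enc_norm (enc_add (enc_mul (enc_norm (enc_add (enc_pnc _ 1) (enc_mul (mug3.enc h2) (gug.enc h2)))) (bf3q1.enc h1 h2)) (enc_mul (mug3.enc h2) (bd3q1.enc h1 h2))))⟩
noncomputable def bn2q1 : Fn2 := ⟨_, _, fun h1 h2 => (enc_norm (enc_add (enc_mul (enc_norm (enc_add (enc_pnc _ 1) (enc_mul (mug3.enc h2) (gug.enc h2)))) (bf2q1.enc h1 h2)) (enc_mul (mug3.enc h2) (bd2q1.enc h1 h2))))⟩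
noncomputable def bn1q1 : Fn2 := ⟨_, _, fun h1 h2 => (enc_norm (enc_add (enc_mul (enc_norm (enc_add (enc_pnc _ 1) (enc_mul (mug3.enc h2) (gug.enc h2)))) (bf1q1.enc h1 h2)) (enc_mul (mug3.enc h2) (bd1q1.enc h1 h2))))⟩
noncomputable def rknq1_41 : Fn3 := ⟨_, _, fun h1 h2 h3 => (enc_sub (enc_pnc _ 1) h2)⟩
noncomputable def rknq1_42 : Fn3 := ⟨_, _, fun h1 h2 h3 => (gsg.enc (enc_norm (rknq1_41.enc h1 h2 h3)))⟩
noncomputable def rknq1_46 : Fn3 := ⟨_, _, fun h1 h2 h3 => (esg.enc (enc_norm (rknq1_41.enc h1 h2 h3)))⟩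
noncomputable def rknq1_47 : Fn3 := ⟨_, _, fun h1 h2 h3 => (kcg.enc (enc_norm (enc_sub (enc_scale 3 4 (rknq1_41.enc h1 h2 h3)) (enc_half (rknq1_42.enc h1 h2 h3)))) h3)⟩
noncomputable def rknq1_48 : Fn3 := ⟨_, _, fun h1 h2 h3 => (enc_scale 3 2 (rknq1_41.enc h1 h2 h3))⟩
noncomputable def rknq1_50 : Fn3 := ⟨_, _, fun h1 h2 h3 => (enc_add (enc_pnc _ 1) (rknq1_42.enc h1 h2 h3))⟩
noncomputable def rknq1_59 : Fn3 := ⟨_, _, fun h1 h2 h3 => (enc_mul (enc_scale 3 4 (enc_sq (enc_norm (rknq1_41.enc h1 h2 h3)))) (enc_inv (rknq1_42.enc h1 h2 h3)))⟩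
noncomputable def rknq1_60 : Fn3 := ⟨_, _, fun h1 h2 h3 => (enc_sub (enc_half (rknq1_41.enc h1 h2 h3)) (rknq1_59.enc h1 h2 h3))⟩
noncomputable def rknq1_61 : Fn3 := ⟨_, _, fun h1 h2 h3 => (enc_nat 2 (rknq1_46.enc h1 h2 h3))⟩
noncomputable def rknq1_96 : Fn3 := ⟨_, _, fun h1 h2 h3 => (enc_sub h1 (cv1m.enc h2))⟩
noncomputable def rknq1 : Fn3 := ⟨_, _, fun h1 h2 h3 => (enc_case (rknq1_96.enc h1 h2 h3) (enc_add (enc_mul h1 (bn1q1.enc h2 h3)) (enc_mul (enc_norm (enc_sub (enc_pnc _ 1) (lm0m.enc h1 h2))) (enc_norm (enc_sub (kn0q1.enc h2 h3) (enc_mul (c1g.enc h2) (bn1q1.enc h2 h3)))))) (enc_case (enc_sub h1 (cv2m.enc h2)) (enc_case (enc_subr 19 32 h2) (enc_add (kn1q1.enc h2 h3) (enc_mul (enc_norm (enc_mul (enc_norm (rknq1_96.enc h1 h2 h3)) (enc_inv (enc_sub (enc_add (swg.enc h2) (enc_rat _ 1 2)) (cv1m.enc h2))))) (enc_norm (enc_sub (enc_add (enc_mul (enc_norm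 (enc_add (enc_pnc _ 1) (enc_mul (mug3.enc h3) (gug.enc h3)))) (enc_norm (enc_add (enc_add (enc_mul (enc_norm (enc_mul (enc_norm (enc_sub (rknq1_42.enc h1 h2 h3) (rknq1_48.enc h1 h2 h3))) (enc_norm (rknq1_50.enc h1 h2 h3)))) (enc_inv (enc_sub (rknq1_50.enc h1 h2 h3) (rknq1_48.enc h1 h2 h3)))) (enc_mul (enc_norm (rknq1_60.enc h1 h2 h3)) (enc_inv (rknq1_61.enc h1 h2 h3)))) (enc_mul (rknq1_47.enc h1 h2 h3) (enc_norm (rknq1_41.enc h1 h2 h3)))))) (enc_mul (mug3.enc h3) (enc_norm (enc_sub (enc_add (kug.enc (enc_norm (rknq1_41.enc h1 h2 h3))) (enc_mul (enc_norm (enc_sub (enc_mul (enc_norm (enc_mul (enc_norm (rknq1_59.enc h1 h2 h3)) (enc_norm (enc_subn 3 (enc_nat 4 (rknq1_42.enc h1 h2 h3)))))) (rknq1_46.enc h1 h2 h3)) (enc_mul (qsg.enc (enc_norm (rknq1_41.enc h1 h2 h3))) (enc_norm (rknq1_60.enc h1 h2 h3))))) (enc_inv (enc_mul (rknq1_61.enc h1 h2 h3) (rknq1_46.enc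 h1 h2 h3))))) (enc_mul (enc_norm (enc_mul (enc_norm (rknq1_41.enc h1 h2 h3)) (rknq1_47.enc h1 h2 h3))) (enc_norm (enc_add (enc_add (enc_pnc _ 1) (gug.enc (enc_norm (rknq1_41.enc h1 h2 h3)))) (enc_nat 2 (rknq1_42.enc h1 h2 h3))))))))) (kn1q1.enc h2 h3))))) (enc_add (enc_mul h1 (bn2q1.enc h2 h3)) (enc_mul (enc_norm (enc_mul (enc_norm (enc_sub (enc_pnc _ 1) (lm1m.enc h1 h2))) (cv1m.enc h2))) (enc_norm (enc_sub (bn1q1.enc h2 h3) (bn2q1.enc h2 h3)))))) (enc_case (enc_sub h1 (cv3m.enc h2)) (enc_add (enc_mul h1 (bn3q1.enc h2 h3)) (enc_mul (enc_norm (enc_sub (enc_pnc _ 1) (lm2m.enc h1 h2))) (enc_norm (enc_sub (kn2q1.enc h2 h3) (enc_mul (cv2m.enc h2) (bn3q1.enc h2 h3)))))) (enc_add (kn3q1.enc h2 h3) (enc_mul (lm3m.enc h1 h2) (enc_norm (enc_sub (kn4q1.enc h2 h3) (kn3q1.enc h2 h3))))))))⟩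
noncomputable def rsnq1 : Fn3 := ⟨_, _, fun h1 h2 h3 => (enc_case h1 (enc_neg (rknq1.enc (enc_neg h1) h2 h3)) (rknq1.enc h1 h2 h3))⟩
noncomputable def bn3q2 : Fn2 := ⟨_, _, fun h1 h2 => (enc_norm (enc_add (enc_mul (enc_norm (enc_add (enc_pnc _ 1) (enc_mul (mug3.enc h2) (gug.enc h2)))) (bf3q2.enc h1 h2)) (enc_mul (mug3.enc h2) (bd3q2.enc h1 h2))))⟩
noncomputable def bn2q2 : Fn2 := ⟨_, _, fun h1 h2 => (enc_norm (enc_add (enc_mul (enc_norm (enc_add (enc_pnc _ 1) (enc_mul (mug3.enc h2) (gug.enc h2)))) (bf2q2.enc h1 h2)) (enc_mul (mug3.enc h2) (bd2q2.enc h1 h2))))⟩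
noncomputable def bn1q2 : Fn2 := ⟨_, _, fun h1 h2 => (enc_norm (enc_add (enc_mul (enc_norm (enc_add (enc_pnc _ 1) (enc_mul (mug3.enc h2) (gug.enc h2)))) (bf1q2.enc h1 h2)) (enc_mul (mug3.enc h2) (bd1q2.enc h1 h2))))⟩
noncomputable def kp1q2 : Fn2 := ⟨_, _, fun h1 h2 => (enc_norm (enc_mul (cv1p.enc h1) (bd1q2.enc h1 h2)))⟩
noncomputable def kn1q2 : Fn2 := ⟨_, _, fun h1 h2 => (enc_norm (enc_add (enc_mul (enc_norm (enc_add (enc_pnc _ 1) (enc_mul (mug3.enc h2) (gug.enc h2)))) (kf1q2.enc h1 h2)) (enc_mul (mug3.enc h2) (kp1q2.enc h1 h2))))⟩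
noncomputable def kp0q2 : Fn2 := ⟨_, _, fun h1 h2 => (enc_norm (enc_mul (enc_norm (enc_subn 1 h1)) (enc_norm (enc_add (enc_scale 3402943 500000 (c1g.enc h1)) (enc_mul (enc_norm (enc_subr 15 32 h2)) (enc_scale 44659 3125 (c1g.enc h1)))))))⟩
noncomputable def kn0q2 : Fn2 := ⟨_, _, fun h1 h2 => (enc_norm (enc_add (enc_mul (enc_norm (enc_add (enc_pnc _ 1) (enc_mul (mug3.enc h2) (gug.enc h2)))) (kf0q2.enc h1 h2)) (enc_mul (mug3.enc h2) (kp0q2.enc h1 h2))))⟩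
noncomputable def n0d : Fn2 := ⟨_, _, fun h1 h2 => (enc_norm (enc_mul (enc_norm (enc_subn 1 h1)) (enc_norm (enc_add (enc_scale 44659 3125 (enc_subr 15 32 h2)) (enc_rat _ 3402943 500000)))))⟩
noncomputable def n0n : Fn2 := ⟨_, _, fun h1 h2 => (enc_norm (enc_add (enc_mul (enc_norm (enc_add (enc_pnc _ 1) (enc_mul (mug3.enc h2) (gug.enc h2)))) (n0b.enc h1 h2)) (enc_mul (mug3.enc h2) (n0d.enc h1 h2))))⟩
noncomputable def rknq2_40 : Fn3 := ⟨_, _, fun h1 h2 h3 => (enc_subn 1 h2)⟩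
noncomputable def rknq2_41 : Fn3 := ⟨_, _, fun h1 h2 h3 => (gsg.enc (enc_norm (rknq2_40.enc h1 h2 h3)))⟩
noncomputable def rknq2_45 : Fn3 := ⟨_, _, fun h1 h2 h3 => (esg.enc (enc_norm (rknq2_40.enc h1 h2 h3)))⟩
noncomputable def rknq2_46 : Fn3 := ⟨_, _, fun h1 h2 h3 => (kcg.enc (enc_norm (enc_sub (enc_scale 3 4 (rknq2_40.enc h1 h2 h3)) (enc_half (rknq2_41.enc h1 h2 h3)))) h3)⟩
noncomputable def rknq2_47 : Fn3 := ⟨_, _, fun h1 h2 h3 => (enc_scale 3 2 (rknq2_40.enc h1 h2 h3))⟩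
noncomputable def rknq2_49 : Fn3 := ⟨_, _, fun h1 h2 h3 => (enc_add (enc_pnc _ 1) (rknq2_41.enc h1 h2 h3))⟩
noncomputable def rknq2_58 : Fn3 := ⟨_, _, fun h1 h2 h3 => (enc_mul (enc_scale 3 4 (enc_sq (enc_norm (rknq2_40.enc h1 h2 h3)))) (enc_inv (rknq2_41.enc h1 h2 h3)))⟩
noncomputable def rknq2_59 : Fn3 := ⟨_, _, fun h1 h2 h3 => (enc_sub (enc_half (rknq2_40.enc h1 h2 h3)) (rknq2_58.enc h1 h2 h3))⟩
noncomputable def rknq2_60 : Fn3 := ⟨_, _, fun h1 h2 h3 => (enc_nat 2 (rknq2_45.enc h1 h2 h3))⟩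
noncomputable def rknq2_94 : Fn3 := ⟨_, _, fun h1 h2 h3 => (enc_sub h1 (cv1p.enc h2))⟩
noncomputable def rknq2_108 : Fn3 := ⟨_, _, fun h1 h2 h3 => (enc_mul h1 (bn1q2.enc h2 h3))⟩
noncomputable def rknq2_110 : Fn3 := ⟨_, _, fun h1 h2 h3 => (enc_sub (enc_pnc _ 1) (lm0p.enc h1 h2))⟩
noncomputable def rknq2 : Fn3 := ⟨_, _, fun h1 h2 h3 => (enc_case (rknq2_94.enc h1 h2 h3) (enc_case (enc_subr 577 500 h2) (enc_add (rknq2_108.enc h1 h2 h3) (enc_mul (enc_norm (rknq2_110.enc h1 h2 h3)) (enc_norm (enc_sub (kn0q2.enc h2 h3) (enc_mul (c1g.enc h2) (bn1q2.enc h2 h3)))))) (enc_case (enc_subr 2887 2500 h2) (enc_add (rknq2_108.enc h1 h2 h3) (enc_mul (enc_norm (rknq2_110.enc h1 h2 h3)) (enc_norm (enc_mul (c1g.enc h2) (enc_norm (enc_sub (n0n.enc h2 h3) (bn1q2.enc h2 h3))))))) (rknq2_108.enc h1 h2 h3))) (enc_case (enc_sub h1 (cv2p.enc h2)) (enc_case (enc_subr 45 32 h2)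 (enc_add (enc_mul h1 (bn2q2.enc h2 h3)) (enc_mul (enc_norm (enc_mul (enc_norm (enc_sub (enc_pnc _ 1) (lm1p.enc h1 h2))) (cv1p.enc h2))) (enc_norm (enc_sub (bn1q2.enc h2 h3) (bn2q2.enc h2 h3))))) (enc_add (kn1q2.enc h2 h3) (enc_mul (enc_norm (enc_mul (enc_norm (rknq2_94.enc h1 h2 h3)) (enc_inv (enc_sub (enc_subr 1 2 (swg.enc h2)) (cv1p.enc h2))))) (enc_norm (enc_sub (enc_add (enc_mul (enc_norm (enc_add (enc_pnc _ 1) (enc_mul (mug3.enc h3) (gug.enc h3)))) (enc_norm (enc_add (enc_sub (enc_mul (enc_norm (enc_mul (enc_norm (enc_sub (rknq2_41.enc h1 h2 h3) (rknq2_47.enc h1 h2 h3))) (enc_norm (rknq2_49.enc h1 h2 h3)))) (enc_inv (enc_sub (rknq2_49.enc h1 h2 h3) (rknq2_47.enc h1 h2 h3)))) (enc_mul (enc_norm (rknq2_59.enc h1 h2 h3)) (enc_inv (rknq2_60.enc h1 h2 h3)))) (enc_mul (rknq2_46.enc h1 h2 h3) (enc_norm (rknq2_40.enc h1 h2 h3)))))) (enc_mul (mug3.enc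 h3) (enc_norm (enc_add (enc_sub (kug.enc (enc_norm (rknq2_40.enc h1 h2 h3))) (enc_mul (enc_norm (enc_sub (enc_mul (enc_norm (enc_mul (enc_norm (rknq2_58.enc h1 h2 h3)) (enc_norm (enc_subn 3 (enc_nat 4 (rknq2_41.enc h1 h2 h3)))))) (rknq2_45.enc h1 h2 h3)) (enc_mul (qsg.enc (enc_norm (rknq2_40.enc h1 h2 h3))) (enc_norm (rknq2_59.enc h1 h2 h3))))) (enc_inv (enc_mul (rknq2_60.enc h1 h2 h3) (rknq2_45.enc h1 h2 h3))))) (enc_mul (enc_norm (enc_mul (enc_norm (rknq2_40.enc h1 h2 h3)) (rknq2_46.enc h1 h2 h3))) (enc_norm (enc_sub (enc_sub (enc_pnc _ 1) (gug.enc (enc_norm (rknq2_40.enc h1 h2 h3)))) (enc_nat 2 (rknq2_41.enc h1 h2 h3))))))))) (kn1q2.enc h2 h3)))))) (enc_case (enc_sub h1 (cv3p.enc h2)) (enc_add (enc_mul h1 (bn3q2.enc h2 h3)) (enc_mul (enc_norm (enc_sub (enc_pnc _ 1) (lm2p.enc h1 h2))) (enc_norm (enc_sub (kn2q2.enc h2 h3) (enc_mul (cv2p.enc h2) (bn3q2.enc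 h2 h3)))))) (enc_add (kn3q2.enc h2 h3) (enc_mul (lm3p.enc h1 h2) (enc_norm (enc_sub (kn4q2.enc h2 h3) (kn3q2.enc h2 h3))))))))⟩
noncomputable def rsnq2 : Fn3 := ⟨_, _, fun h1 h2 h3 => (enc_case h1 (enc_neg (rknq2.enc (enc_neg h1) h2 h3)) (rknq2.enc h1 h2 h3))⟩
noncomputable def kp3q3 : Fn2 := ⟨_, _, fun h1 h2 => (enc_norm (enc_mul (cv3r.enc h1) (bd3q3.enc h1 h2)))⟩
noncomputable def kn3q3 : Fn2 := ⟨_, _, fun h1 h2 => (enc_norm (enc_add (enc_mul (enc_norm (enc_add (enc_pnc _ 1) (enc_mul (mug3.enc h2) (gug.enc h2)))) (kf3q3.enc h1 h2)) (enc_mul (mug3.enc h2) (kp3q3.enc h1 h2))))⟩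
noncomputable def kp4q3_9 : Fn2 := ⟨_, _, fun h1 h2 => (enc_sub (enc_half (c3g.enc h1)) (enc_scale 1 4 h1))⟩
noncomputable def kp4q3 : Fn2 := ⟨_, _, fun h1 h2 => (enc_norm (enc_mul (enc_norm (enc_subn 2 h1)) (enc_norm (enc_add (enc_add (enc_scale 5779673 1000000 (kp4q3_9.enc h1 h2)) (enc_rat _ 1026213 2000000)) (enc_mul (enc_norm (enc_subr 15 32 h2)) (enc_norm (enc_add (enc_scale 720243 100000 (kp4q3_9.enc h1 h2)) (enc_rat _ 141769 40000))))))))⟩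
noncomputable def kn4q3 : Fn2 := ⟨_, _, fun h1 h2 => (enc_norm (enc_add (enc_mul (enc_norm (enc_add (enc_pnc _ 1) (enc_mul (mug3.enc h2) (gug.enc h2)))) (kf4q3.enc h1 h2)) (enc_mul (mug3.enc h2) (kp4q3.enc h1 h2))))⟩
noncomputable def bn3q3 : Fn2 := ⟨_, _, fun h1 h2 => (enc_norm (enc_add (enc_mul (enc_norm (enc_add (enc_pnc _ 1) (enc_mul (mug3.enc h2) (gug.enc h2)))) (bf3q3.enc h1 h2)) (enc_mul (mug3.enc h2) (bd3q3.enc h1 h2))))⟩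
noncomputable def kp2q3_8 : Fn2 := ⟨_, _, fun h1 h2 => (enc_subn 1 h1)⟩
noncomputable def kp2q3_9 : Fn2 := ⟨_, _, fun h1 h2 => (gsg.enc (enc_norm (kp2q3_8.enc h1 h2)))⟩
noncomputable def kp2q3_13 : Fn2 := ⟨_, _, fun h1 h2 => (esg.enc (enc_norm (kp2q3_8.enc h1 h2)))⟩
noncomputable def kp2q3_18 : Fn2 := ⟨_, _, fun h1 h2 => (gug.enc (enc_norm (kp2q3_8.enc h1 h2)))⟩
noncomputable def kp2q3_20 : Fn2 := ⟨_, _, fun h1 h2 => (enc_mul (enc_norm (kp2q3_8.enc h1 h2)) (enc_inv (kp2q3_9.enc h1 h2)))⟩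
noncomputable def kp2q3_21 : Fn2 := ⟨_, _, fun h1 h2 => (enc_scale 3 4 (kp2q3_20.enc h1 h2))⟩
noncomputable def kp2q3_50 : Fn2 := ⟨_, _, fun h1 h2 => (enc_mul (cv1r.enc h1) (bd1q3.enc h1 h2))⟩
noncomputable def kp2q3 : Fn2 := ⟨_, _, fun h1 h2 => (enc_norm (enc_case (enc_subr 49 32 h1) (enc_add (kp2q3_50.enc h1 h2) (enc_mul (enc_norm (enc_mul (enc_norm (enc_sub (enc_mul (enc_norm (enc_subn 2 h1)) (enc_norm (enc_add (enc_sub (enc_add (enc_add (enc_rat _ 3 4) (enc_scale 3 2 (kp2q3_8.enc h1 h2))) (enc_scale 3 4 (enc_mul (enc_norm (kp2q3_20.enc h1 h2)) (kp2q3_18.enc h1 h2)))) (enc_mul (enc_norm (enc_sub (enc_mul (enc_norm (enc_mul (enc_norm (kp2q3_21.enc h1 h2)) (enc_norm (enc_subn 3 (enc_nat 4 (kp2q3_9.enc h1 h2)))))) (kp2q3_13.enc h1 h2)) (enc_mul (qsg.enc (enc_norm (kp2q3_8.enc h1 h2))) (enc_norm (enc_sub (enc_rat _ 1 2) (kp2q3_21.enc h1 h2)))))) (enc_inv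 (enc_mul (enc_nat 2 (kp2q3_13.enc h1 h2)) (kp2q3_13.enc h1 h2))))) (enc_mul (kcg.enc (enc_norm (enc_sub (enc_scale 3 4 (kp2q3_8.enc h1 h2)) (enc_half (kp2q3_9.enc h1 h2)))) h2) (enc_norm (enc_sub (enc_pnc _ 1) (enc_add (kp2q3_18.enc h1 h2) (enc_nat 2 (kp2q3_9.enc h1 h2))))))))) (kp2q3_50.enc h1 h2))) (enc_norm (enc_sub (cv2r.enc h1) (cv1r.enc h1))))) (enc_inv (enc_sub (enc_subr 1 2 (swg.enc h1)) (cv1r.enc h1))))) (enc_mul (cv2r.enc h1) (bd2q3.enc h1 h2))))⟩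
noncomputable def kn2q3 : Fn2 := ⟨_, _, fun h1 h2 => (enc_norm (enc_add (enc_mul (enc_norm (enc_add (enc_pnc _ 1) (enc_mul (mug3.enc h2) (gug.enc h2)))) (kf2q3.enc h1 h2)) (enc_mul (mug3.enc h2) (kp2q3.enc h1 h2))))⟩
noncomputable def bn2q3 : Fn2 := ⟨_, _, fun h1 h2 => (enc_norm (enc_add (enc_mul (enc_norm (enc_add (enc_pnc _ 1) (enc_mul (mug3.enc h2) (gug.enc h2)))) (bf2q3.enc h1 h2)) (enc_mul (mug3.enc h2) (bd2q3.enc h1 h2))))⟩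
noncomputable def bn1q3 : Fn2 := ⟨_, _, fun h1 h2 => (enc_norm (enc_add (enc_mul (enc_norm (enc_add (enc_pnc _ 1) (enc_mul (mug3.enc h2) (gug.enc h2)))) (bf1q3.enc h1 h2)) (enc_mul (mug3.enc h2) (bd1q3.enc h1 h2))))⟩
noncomputable def rknq3_40 : Fn3 := ⟨_, _, fun h1 h2 h3 => (enc_subn 1 h2)⟩
noncomputable def rknq3_41 : Fn3 := ⟨_, _, fun h1 h2 h3 => (gsg.enc (enc_norm (rknq3_40.enc h1 h2 h3)))⟩
noncomputable def rknq3_42 : Fn3 := ⟨_, _, fun h1 h2 h3 => (enc_scale 3 4 (rknq3_40.enc h1 h2 h3))⟩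
noncomputable def rknq3_43 : Fn3 := ⟨_, _, fun h1 h2 h3 => (enc_half (rknq3_41.enc h1 h2 h3))⟩
noncomputable def rknq3_45 : Fn3 := ⟨_, _, fun h1 h2 h3 => (esg.enc (enc_norm (rknq3_40.enc h1 h2 h3)))⟩
noncomputable def rknq3_46 : Fn3 := ⟨_, _, fun h1 h2 h3 => (kcg.enc (enc_norm (enc_sub (rknq3_42.enc h1 h2 h3) (rknq3_43.enc h1 h2 h3))) h3)⟩
noncomputable def rknq3_48 : Fn3 := ⟨_, _, fun h1 h2 h3 => (enc_subn 2 h2)⟩
noncomputable def rknq3_51 : Fn3 := ⟨_, _, fun h1 h2 h3 => (enc_mul (enc_norm (rknq3_40.enc h1 h2 h3)) (enc_inv (rknq3_41.enc h1 h2 h3)))⟩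
noncomputable def rknq3_62 : Fn3 := ⟨_, _, fun h1 h2 h3 => (gug.enc (enc_norm (rknq3_40.enc h1 h2 h3)))⟩
noncomputable def rknq3_63 : Fn3 := ⟨_, _, fun h1 h2 h3 => (enc_scale 3 4 (rknq3_51.enc h1 h2 h3))⟩
noncomputable def rknq3_96 : Fn3 := ⟨_, _, fun h1 h2 h3 => (enc_sub h1 (cv1r.enc h2))⟩
noncomputable def rknq3 : Fn3 := ⟨_, _, fun h1 h2 h3 => (enc_case (rknq3_96.enc h1 h2 h3) (enc_mul h1 (bn1q3.enc h2 h3)) (enc_case (enc_sub h1 (cv2r.enc h2)) (enc_case (enc_subr 49 32 h2) (enc_add (kn1q3.enc h2 h3) (enc_mul (enc_norm (enc_mul (enc_norm (rknq3_96.enc h1 h2 h3)) (enc_inv (enc_sub (enc_subr 1 2 (swg.enc h2)) (cv1r.enc h2))))) (enc_norm (enc_sub (enc_add (enc_mul (enc_norm (enc_add (enc_pnc _ 1) (enc_mul (mug3.enc h3) (gug.enc h3)))) (enc_norm (enc_mul (enc_norm (rknq3_48.enc h1 h2 h3)) (enc_norm (enc_add (enc_mul (enc_norm (enc_sub (enc_sub (rknq3_43.enc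 h1 h2 h3) (rknq3_42.enc h1 h2 h3)) (enc_sub (enc_rat _ 1 4) (enc_scale 3 8 (rknq3_51.enc h1 h2 h3))))) (enc_inv (rknq3_45.enc h1 h2 h3))) (rknq3_46.enc h1 h2 h3)))))) (enc_mul (mug3.enc h3) (enc_norm (enc_mul (enc_norm (rknq3_48.enc h1 h2 h3)) (enc_norm (enc_add (enc_sub (enc_add (enc_add (enc_rat _ 3 4) (enc_scale 3 2 (rknq3_40.enc h1 h2 h3))) (enc_scale 3 4 (enc_mul (enc_norm (rknq3_51.enc h1 h2 h3)) (rknq3_62.enc h1 h2 h3)))) (enc_mul (enc_norm (enc_sub (enc_mul (enc_norm (enc_mul (enc_norm (rknq3_63.enc h1 h2 h3)) (enc_norm (enc_subn 3 (enc_nat 4 (rknq3_41.enc h1 h2 h3)))))) (rknq3_45.enc h1 h2 h3)) (enc_mul (qsg.enc (enc_norm (rknq3_40.enc h1 h2 h3))) (enc_norm (enc_sub (enc_rat _ 1 2) (rknq3_63.enc h1 h2 h3)))))) (enc_inv (enc_mul (enc_nat 2 (rknq3_45.enc h1 h2 h3)) (rknq3_45.enc h1 h2 h3))))) (enc_mul (rknq3_46.enc h1 h2 h3) (enc_norm (enc_sub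 (enc_pnc _ 1) (enc_add (rknq3_62.enc h1 h2 h3) (enc_nat 2 (rknq3_41.enc h1 h2 h3)))))))))))) (kn1q3.enc h2 h3))))) (enc_add (enc_mul h1 (bn2q3.enc h2 h3)) (enc_mul (enc_norm (enc_mul (enc_norm (enc_sub (enc_pnc _ 1) (lm1r.enc h1 h2))) (cv1r.enc h2))) (enc_norm (enc_sub (bn1q3.enc h2 h3) (bn2q3.enc h2 h3)))))) (enc_case (enc_sub h1 (cv3r.enc h2)) (enc_add (enc_mul h1 (bn3q3.enc h2 h3)) (enc_mul (enc_norm (enc_sub (enc_pnc _ 1) (lm2r.enc h1 h2))) (enc_norm (enc_sub (kn2q3.enc h2 h3) (enc_mul (cv2r.enc h2) (bn3q3.enc h2 h3)))))) (enc_add (kn3q3.enc h2 h3) (enc_mul (lm3r.enc h1 h2) (enc_norm (enc_sub (kn4q3.enc h2 h3) (kn3q3.enc h2 h3))))))))⟩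
noncomputable def rsnq3 : Fn3 := ⟨_, _, fun h1 h2 h3 => (enc_case h1 (enc_neg (rknq3.enc (enc_neg h1) h2 h3)) (rknq3.enc h1 h2 h3))⟩

noncomputable def ndF0q0 : Node := ⟨idf, c1g, kf0q0, l0q0⟩
noncomputable def ndF0q1 : Node := ⟨idf, c1g, kf0q1, l0q1⟩
noncomputable def ndF0q2 : Node := ⟨yag, idf, kfc02, lc02⟩
noncomputable def ndF1q0 : Node := ⟨idf, cv1m, kf1q0, l1q0⟩
noncomputable def ndF1q1 : Node := ⟨idf, cv1m, kf1q1, l1q1⟩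
noncomputable def ndF1q2a : Node := ⟨yag, xc12a, kfc12a, lc12a⟩
noncomputable def ndF1q2b : Node := ⟨idf, xc12b, kfc12b, lc12b⟩
noncomputable def ndF1q3 : Node := ⟨idf, cv1r, kf1q3, l1q3⟩
noncomputable def ndF2q0 : Node := ⟨idf, cv2m, kf2q0, l2q0⟩
noncomputable def ndF2q1 : Node := ⟨idf, cv2m, kf2q1, l2q1⟩
noncomputable def ndF2q2 : Node := ⟨idf, cv2p, kf2q2, l2q2⟩
noncomputable def ndF2q3 : Node := ⟨ycg, xc23, kfc23, lc23⟩
noncomputable def ndF3q0 : Node := ⟨idf, cv3m, kf3q0, l3q0⟩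
noncomputable def ndF3q1 : Node := ⟨idf, cv3m, kf3q1, l3q1⟩
noncomputable def ndF3q2 : Node := ⟨idf, cv3p, kf3q2, l3q2⟩
noncomputable def ndF3q3 : Node := ⟨ycg, xc33, kfc33, lc33⟩
noncomputable def ndF4q0 : Node := ⟨idf, c3g, kf4q0, l4q0⟩
noncomputable def ndF4q1 : Node := ⟨idf, c3g, kf4q1, l4q1⟩
noncomputable def ndF4q2 : Node := ⟨idf, c3g, kf4q2, l4q2⟩
noncomputable def ndF4q3 : Node := ⟨ycg, idf, kfc43, lc43⟩
noncomputable def pcF0 : Piece := ⟨rsfq0, rlq0⟩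
noncomputable def pcF1 : Piece := ⟨rsfq1, rlq1⟩
noncomputable def pcF2 : Piece := ⟨rsfq2, rlq2⟩
noncomputable def pcF3 : Piece := ⟨rsfq3, rlq3⟩
noncomputable def ndN0q0 : Node := ⟨idf, c1g, kn0q0, l0q0⟩
noncomputable def ndN0q1 : Node := ⟨idf, c1g, kn0q1, l0q1⟩
noncomputable def ndN0q2 : Node := ⟨yag, idf, knc02, lc02⟩
noncomputable def ndN1q0 : Node := ⟨idf, cv1m, kn1q0, l1q0⟩
noncomputable def ndN1q1 : Node := ⟨idf, cv1m, kn1q1, l1q1⟩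
noncomputable def ndN1q2a : Node := ⟨yag, xc12a, knc12a, lc12a⟩
noncomputable def ndN1q2b : Node := ⟨idf, xc12b, knc12b, lc12b⟩
noncomputable def ndN1q3 : Node := ⟨idf, cv1r, kn1q3, l1q3⟩
noncomputable def ndN2q0 : Node := ⟨idf, cv2m, kn2q0, l2q0⟩
noncomputable def ndN2q1 : Node := ⟨idf, cv2m, kn2q1, l2q1⟩
noncomputable def ndN2q2 : Node := ⟨idf, cv2p, kn2q2, l2q2⟩
noncomputable def ndN2q3 : Node := ⟨ycg, xc23, knc23, lc23⟩
noncomputable def ndN3q0 : Node := ⟨idf, cv3m, kn3q0, l3q0⟩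
noncomputable def ndN3q1 : Node := ⟨idf, cv3m, kn3q1, l3q1⟩
noncomputable def ndN3q2 : Node := ⟨idf, cv3p, kn3q2, l3q2⟩
noncomputable def ndN3q3 : Node := ⟨ycg, xc33, knc33, lc33⟩
noncomputable def ndN4q0 : Node := ⟨idf, c3g, kn4q0, l4q0⟩
noncomputable def ndN4q1 : Node := ⟨idf, c3g, kn4q1, l4q1⟩
noncomputable def ndN4q2 : Node := ⟨idf, c3g, kn4q2, l4q2⟩
noncomputable def ndN4q3 : Node := ⟨ycg, idf, knc43, lc43⟩
noncomputable def pcN0 : Piece := ⟨rsnq0, rlq0⟩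
noncomputable def pcN1 : Piece := ⟨rsnq1, rlq1⟩
noncomputable def pcN2 : Piece := ⟨rsnq2, rlq2⟩
noncomputable def pcN3 : Piece := ⟨rsnq3, rlq3⟩
noncomputable def ndF1q2 : Node := ⟨idf, cv1p, kf1q2, l1q2⟩
noncomputable def ndN1q2 : Node := ⟨idf, cv1p, kn1q2, l1q2⟩
end Pool.Agent.Strip051.G.I7_16_1_2.Tab
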