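import Pool.Agent.Strip051.G.I7_16_1_2.MolD

/-! # The tight charts of a table: certificates (generated) -/

set_option linter.all false
set_option maxRecDepth 100000

namespace Pool.Agent.Strip051.G.I7_16_1_2.Tab.Mo

open Pool.Agent.Strip051.PB Pool.Agent.Strip051.PB.Mol Pool.Agent.Strip051.PB.T
open Pool.Agent.Strip051.G.I7_16_1_2.Tab

noncomputable def f0Apl : ℕ → ℕ → ℕ → ℕ → Bool :=
  onCell 0 67108864 0 33554432 469762048 67108864 (c0_Apl.row false 33554432)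

theorem h0_0Apl : ∃ t, chk3 f0Apl t 1 1 1 = true :=
  ⟨(c (b (a (l 10) (l 10)) (a (l 10) (l 2))) (b (a (l 10) (l 10)) (a (l 10) (l 2)))), by decide +kernel⟩

theorem ct_0Apl : ∃ t, chk3 f0Apl t 1 1 1 = true := h0_0Apl

noncomputable def f0Aph : ℕ → ℕ → ℕ → ℕ → Bool :=
  onCell 0 67108864 0 33554432 469762048 67108864 (c0_Aph.row false 33554432)

theorem h0_0Aph : ∃ t, chk3 f0Aph t 1 1 1 = true :=
  ⟨(c (b (a (l 5) (l 10)) (a (a (l 5) (l 10)) (l 2))) (b (a (l 10) (l 10)) (a (a (l 10) (l 10)) (a (l 2) (l 2))))), by decide +kernel⟩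

theorem ct_0Aph : ∃ t, chk3 f0Aph t 1 1 1 = true := h0_0Aph

noncomputable def f0Aplk1 : ℕ → ℕ → ℕ → ℕ → Bool :=
  onCell 0 67108864 0 33554432 469762048 67108864 (c0_Aplk1.row false 33554432)

theorem h0_0Aplk1 : ∃ t, chk3 f0Aplk1 t 1 1 1 = true :=
  ⟨(c (a (l 10) (l 10)) (a (l 10) (l 10))), by decide +kernel⟩

theorem ct_0Aplk1 : ∃ t, chk3 f0Aplk1 t 1 1 1 = true := h0_0Aplk1

noncomputable def f0Aphk1 : ℕ → ℕ → ℕ → ℕ → Bool :=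
  onCell 0 67108864 0 33554432 469762048 67108864 (c0_Aphk1.row false 33554432)

theorem h0_0Aphk1 : ∃ t, chk3 f0Aphk1 t 1 1 1 = true :=
  ⟨(c (a (l 10) (l 10)) (a (l 10) (l 10))), by decide +kernel⟩

theorem ct_0Aphk1 : ∃ t, chk3 f0Aphk1 t 1 1 1 = true := h0_0Aphk1

noncomputable def f0Aml : ℕ → ℕ → ℕ → ℕ → Bool :=
  onCell 0 67108864 0 33554432 469762048 67108864 (c0_Aml.row true 33554432)

theorem h0_0Aml : ∃ t, chk3 f0Aml t 1 1 2 = true :=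
  ⟨(a (b (b (a (c (c (a (l 8) (l 8)) (a (l 8) (l 8))) (a (l 8) (l 8))) (c (c (a (l 8) (l 10)) (l 10)) (a (l 8) (l 10)))) (a (c (a (l 8) (l 8)) (a (l 8) (l 8))) (c (a (l 8) (l 8)) (a (l 8) (l 8))))) (c (a (b (a (l 3) (l 8)) (l 3)) (b (a (l 8) (l 8)) (a (l 8) (l 8)))) (a (b (a (l 3) (l 8)) (l 3)) (a (l 8) (l 8))))) (b (a (c (b (c (a (l 10) (l 2)) (a (l 10) (l 2))) (a (l 10) (l 2))) (b (a (l 10) (l 2)) (a (l 10) (l 2)))) (c (b (a (c (l 2) (l 2)) (l 4)) (a (l 2) (l 2))) (b (a (l 2) (l 2)) (a (l 2) (l 2))))) (a (c (b (a (l 10) (l 10)) (a (l 8) (l 10))) (b (a (l 10) (l 10)) (l 10))) (c (b (a (l 2) (l 2)) (a (l 2) (l 2))) (b (a (l 2) (l 2)) (l 2)))))), by decide +kernel⟩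

theorem h1_0Aml : ∃ t, chk3 f0Aml t 1 1 3 = true :=
  ⟨(a (b (b (a (c (a (l 8) (l 8)) (a (l 8) (l 8))) (c (a (l 8) (l 10)) (a (l 8) (l 10)))) (a (c (a (l 8) (l 8)) (a (l 8) (l 8))) (c (a (l 8) (l 8)) (l 8)))) (a (b (c (l 8) (l 8)) (l 3)) (c (a (l 8) (l 8)) (a (l 8) (l 8))))) (b (a (c (b (a (l 10) (l 2)) (a (l 10) (l 2))) (b (a (l 10) (l 2)) (a (l 10) (l 2)))) (c (b (a (l 2) (l 2)) (a (l 2) (l 2))) (b (a (l 2) (l 2)) (a (l 2) (l 2))))) (a (c (a (l 10) (l 10)) (a (l 10) (l 10))) (c (a (l 2) (l 2)) (a (l 2) (l 2)))))), by decide +kernel⟩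

theorem h2_0Aml : ∃ t, chk3 f0Aml t 1 1 1 = true := ex3_c h0_0Aml h1_0Aml

theorem ct_0Aml : ∃ t, chk3 f0Aml t 1 1 1 = true := h2_0Aml

noncomputable def f0Amh : ℕ → ℕ → ℕ → ℕ → Bool :=
  onCell 0 67108864 0 33554432 469762048 67108864 (c0_Amh.row true 33554432)

theorem h0_0Amh : ∃ t, chk3 f0Amh t 1 1 1 = true :=
  ⟨(c (b (a (l 5) (b (a (l 5) (c (l 5) (a (l 5) (c (l 5) (l 4))))) (l 5))) (l 5)) (a (b (b (c (l 5) (a (l 5) (a (l 5) (l 10)))) (l 5)) (l 5)) (b (b (a (c (a (l 5) (c (l 5) (l 2))) (a (c (l 10) (l 10)) (c (a (l 2) (l 2)) (b (a (l 2) (l 2)) (l 2))))) (c (a (c (a (l 5) (l 4)) (b (l 4) (l 4))) (c (l 4) (l 4))) (a (c (b (l 4) (l 4)) (b (l 4) (l 4))) (c (l 4) (l 4))))) (a (c (l 5) (a (l 10) (c (l 2) (l 2)))) (c (c (a (l 5) (l 4)) (b (l 4) (l 4))) (c (a (a (l 2) (l 4)) (l 4)) (a (b (l 4) (l 4)) (a (l 4) (l 4))))))) (a (c (l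 5) (b (a (l 5) (c (l 5) (l 10))) (l 5))) (c (b (a (l 5) (c (l 5) (l 4))) (l 5)) (b (a (c (l 2) (a (l 2) (l 2))) (c (l 4) (a (l 4) (l 4)))) (a (c (l 5) (l 2)) (c (l 4) (l 4))))))))), by decide +kernel⟩

theorem ct_0Amh : ∃ t, chk3 f0Amh t 1 1 1 = true := h0_0Amh

noncomputable def f0Bpl : ℕ → ℕ → ℕ → ℕ → Bool :=
  onCell 0 67108864 0 33554432 469762048 67108864 (c0_Bpl.row false 33554432)

theorem h0_0Bpl : ∃ t, chk3 f0Bpl t 1 1 1 = true :=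
  ⟨(c (a (c (l 10) (l 10)) (c (l 10) (l 10))) (b (a (l 10) (l 10)) (a (a (l 8) (l 8)) (l 10)))), by decide +kernel⟩

theorem ct_0Bpl : ∃ t, chk3 f0Bpl t 1 1 1 = true := h0_0Bpl

noncomputable def f0Bph : ℕ → ℕ → ℕ → ℕ → Bool :=
  onCell 0 67108864 0 33554432 469762048 67108864 (c0_Bph.row false 33554432)

theorem h0_0Bph : ∃ t, chk3 f0Bph t 1 1 1 = true :=
  ⟨(c (b (a (l 5) (l 10)) (l 5)) (b (a (l 10) (l 10)) (a (l 5) (a (l 10) (l 10))))), by decide +kernel⟩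

theorem ct_0Bph : ∃ t, chk3 f0Bph t 1 1 1 = true := h0_0Bph

noncomputable def f0Bplk1 : ℕ → ℕ → ℕ → ℕ → Bool :=
  onCell 0 67108864 0 33554432 469762048 67108864 (c0_Bplk1.row false 33554432)

theorem h0_0Bplk1 : ∃ t, chk3 f0Bplk1 t 1 1 1 = true :=
  ⟨(c (a (a (l 8) (l 10)) (a (l 10) (l 10))) (a (a (l 8) (l 10)) (a (l 10) (l 10)))), by decide +kernel⟩

theorem ct_0Bplk1 : ∃ t, chk3 f0Bplk1 t 1 1 1 = true := h0_0Bplk1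

noncomputable def f0Bphk1 : ℕ → ℕ → ℕ → ℕ → Bool :=
  onCell 0 67108864 0 33554432 469762048 67108864 (c0_Bphk1.row false 33554432)

theorem h0_0Bphk1 : ∃ t, chk3 f0Bphk1 t 1 1 1 = true :=
  ⟨(c (b (a (l 5) (l 10)) (l 5)) (a (a (l 5) (l 10)) (a (l 10) (l 10)))), by decide +kernel⟩

theorem ct_0Bphk1 : ∃ t, chk3 f0Bphk1 t 1 1 1 = true := h0_0Bphk1

noncomputable def f0Bml : ℕ → ℕ → ℕ → ℕ → Bool :=
  onCell 0 67108864 0 33554432 469762048 67108864 (c0_Bml.row true 33554432)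

theorem h0_0Bml : ∃ t, chk3 f0Bml t 1 1 1 = true :=
  ⟨(b (c (a (a (c (a (l 8) (l 8)) (a (l 8) (l 8))) (c (a (l 10) (l 10)) (l 10))) (c (a (a (l 10) (l 2)) (l 2)) (a (l 10) (l 2)))) (a (a (c (a (l 8) (l 8)) (a (l 8) (l 8))) (c (a (l 10) (l 10)) (a (l 10) (l 10)))) (b (a (c (l 10) (l 10)) (c (l 2) (l 2))) (a (c (l 2) (l 2)) (c (l 2) (l 5)))))) (c (a (b (c (a (a (l 8) (l 10)) (l 10)) (a (l 10) (l 10))) (c (a (b (a (l 8) (l 10)) (c (l 12) (l 12))) (b (l 10) (a (l 2) (l 2)))) (a (b (l 10) (c (a (l 8) (l 10)) (l 10))) (c (l 10) (l 10))))) (b (c (a (l 2) (l 2)) (a (l 2) (l 2))) (a (c (c (a (l 2) (l 2)) (l 2)) (a (l 2) (l 2))) (l 1)))) (a (b (c (a (l 10) (l 10)) (a (a (l 8) (l 10)) (a (l 10) (l 2)))) (c (a (b (l 10) (a (l 8) (l 10))) (c (l 10) (l 10))) (a (a (c (l 8) (l 8)) (c (l 10) (l 10))) (c (l 10) (l 10))))) (c (a (c (l 2) (l 2))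 (a (l 2) (l 1))) (b (a (l 2) (l 5)) (l 5)))))), by decide +kernel⟩

theorem ct_0Bml : ∃ t, chk3 f0Bml t 1 1 1 = true := h0_0Bml

noncomputable def f0Bmh : ℕ → ℕ → ℕ → ℕ → Bool :=
  onCell 0 67108864 0 33554432 469762048 67108864 (c0_Bmh.row true 33554432)

theorem h0_0Bmh : ∃ t, chk3 f0Bmh t 1 1 1 = true :=
  ⟨(b (a (c (l 5) (a (c (l 5) (b (l 5) (a (l 5) (l 8)))) (b (c (l 5) (a (l 8) (l 10))) (c (a (l 5) (l 10)) (l 10))))) (c (b (a (l 5) (c (l 5) (l 2))) (a (c (l 5) (a (l 5) (l 2))) (c (l 2) (l 2)))) (b (a (c (l 10) (l 10)) (c (l 2) (l 2))) (a (c (l 2) (l 2)) (c (l 2) (l 2)))))) (c (a (a (l 5) (c (l 5) (b (l 5) (a (l 5) (c (l 5) (l 2)))))) (b (a (c (l 5) (a (l 2) (l 2))) (c (l 2) (l 2))) (a (c (a (l 5) (c (l 5) (l 2))) (a (c (l 2) (l 2)) (l 2))) (l 1)))) (a (b (a (c (l 5) (a (c (l 5) (l 8)) (l 10))) (c (a (l 10) (l 2)) (l 10)))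 (a (c (a (l 5) (c (l 5) (a (l 5) (l 10)))) (a (c (a (l 5) (l 8)) (l 8)) (c (l 10) (l 10)))) (c (b (l 2) (a (c (l 2) (l 2)) (l 2))) (a (l 10) (l 2))))) (b (a (c (l 2) (l 2)) (c (l 2) (l 2))) (a (c (a (l 2) (l 2)) (l 2)) (l 1)))))), by decide +kernel⟩

theorem ct_0Bmh : ∃ t, chk3 f0Bmh t 1 1 1 = true := h0_0Bmh

end Pool.Agent.Strip051.G.I7_16_1_2.Tab.Mo
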