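import Pool.Agent.Strip051.G.I7_16_1_2.MolD

/-! # The tight charts of a table: certificates (generated) -/

set_option linter.all false
set_option maxRecDepth 100000

namespace Pool.Agent.Strip051.G.I7_16_1_2.Tab.Mo

open Pool.Agent.Strip051.PB Pool.Agent.Strip051.PB.Mol Pool.Agent.Strip051.PB.T
open Pool.Agent.Strip051.G.I7_16_1_2.Tab

noncomputable def f1Apl : ℕ → ℕ → ℕ → ℕ → Bool :=
  onCell 0 67108864 0 33554432 469762048 67108864 (c1_Apl.row false 33554432)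

theorem h0_1Apl : ∃ t, chk3 f1Apl t 1 1 1 = true :=
  ⟨(c (a (b (a (l 8) (l 10)) (a (l 10) (l 10))) (b (a (l 10) (l 2)) (a (l 2) (l 2)))) (a (b (a (l 8) (l 10)) (a (l 10) (l 10))) (b (a (l 10) (l 2)) (a (l 2) (l 2))))), by decide +kernel⟩

theorem ct_1Apl : ∃ t, chk3 f1Apl t 1 1 1 = true := h0_1Apl

noncomputable def f1Aph : ℕ → ℕ → ℕ → ℕ → Bool :=
  onCell 0 67108864 0 33554432 469762048 67108864 (c1_Aph.row false 33554432)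

theorem h0_1Aph : ∃ t, chk3 f1Aph t 1 1 1 = true :=
  ⟨(c (a (b (l 5) (a (l 5) (l 10))) (b (a (l 10) (l 2)) (a (l 2) (l 2)))) (b (a (a (l 8) (l 10)) (a (l 10) (l 2))) (a (a (l 10) (l 10)) (a (l 2) (l 2))))), by decide +kernel⟩

theorem ct_1Aph : ∃ t, chk3 f1Aph t 1 1 1 = true := h0_1Aph

noncomputable def f1Aplk1 : ℕ → ℕ → ℕ → ℕ → Bool :=
  onCell 0 67108864 0 33554432 469762048 67108864 (c1_Aplk1.row false 33554432)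

theorem h0_1Aplk1 : ∃ t, chk3 f1Aplk1 t 1 1 1 = true :=
  ⟨(c (a (a (l 10) (l 10)) (a (l 10) (l 2))) (a (a (l 10) (l 10)) (a (l 10) (l 2)))), by decide +kernel⟩

theorem ct_1Aplk1 : ∃ t, chk3 f1Aplk1 t 1 1 1 = true := h0_1Aplk1

noncomputable def f1Aphk1 : ℕ → ℕ → ℕ → ℕ → Bool :=
  onCell 0 67108864 0 33554432 469762048 67108864 (c1_Aphk1.row false 33554432)

theorem h0_1Aphk1 : ∃ t, chk3 f1Aphk1 t 1 1 1 = true :=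
  ⟨(c (a (a (l 5) (l 10)) (a (l 10) (l 2))) (a (a (l 10) (l 10)) (a (l 10) (l 2)))), by decide +kernel⟩

theorem ct_1Aphk1 : ∃ t, chk3 f1Aphk1 t 1 1 1 = true := h0_1Aphk1

noncomputable def f1Aml : ℕ → ℕ → ℕ → ℕ → Bool :=
  onCell 0 67108864 0 33554432 469762048 67108864 (c1_Aml.row true 33554432)

theorem h0_1Aml : ∃ t, chk3 f1Aml t 1 1 2 = true :=
  ⟨(a (b (b (a (c (a (c (b (l 16) (l 16)) (b (l 16) (l 8))) (c (a (l 8) (l 8)) (a (l 8) (l 8)))) (a (c (b (l 16) (l 8)) (a (l 8) (l 8))) (c (l 8) (l 8)))) (c (a (c (l 8) (l 8)) (c (l 10) (l 10))) (a (c (l 8) (l 8)) (c (l 10) (l 10))))) (c (a (c (a (a (l 3) (l 8)) (l 8)) (a (a (l 3) (l 8)) (l 8))) (c (a (l 8) (l 8)) (a (l 8) (l 8)))) (a (c (a (l 8) (l 8)) (a (l 8) (l 8))) (c (l 8) (l 8))))) (c (a (b (a (l 3) (c (l 8) (l 8))) (l 3)) (b (c (a (l 8) (l 8)) (l 8)) (a (l 8)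 (l 8)))) (a (b (a (l 3) (c (l 8) (l 8))) (l 3)) (b (a (l 8) (l 8)) (a (l 8) (l 8)))))) (b (a (c (b (a (c (l 10) (l 10)) (l 2)) (a (l 10) (l 2))) (b (a (l 10) (l 2)) (a (l 10) (l 2)))) (c (b (a (l 2) (l 2)) (a (l 2) (l 2))) (b (a (l 2) (l 2)) (a (l 2) (l 2))))) (a (c (b (a (l 10) (l 2)) (a (l 10) (l 10))) (b (a (l 10) (l 2)) (a (l 10) (l 10)))) (c (c (a (l 2) (l 2)) (l 2)) (a (l 2) (l 2)))))), by decide +kernel⟩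

theorem h1_1Aml : ∃ t, chk3 f1Aml t 1 1 3 = true :=
  ⟨(a (b (b (a (c (a (c (a (l 8) (l 8)) (l 8)) (c (l 8) (l 8))) (a (c (l 8) (l 8)) (c (l 8) (l 8)))) (c (c (a (l 8) (l 10)) (l 10)) (a (l 8) (l 10)))) (c (a (c (a (l 8) (l 8)) (a (l 8) (l 8))) (a (l 8) (l 8))) (a (c (a (l 8) (l 8)) (l 8)) (a (l 8) (l 8))))) (c (a (b (a (l 3) (l 8)) (l 3)) (b (a (l 8) (l 8)) (a (l 8) (l 8)))) (a (b (a (l 3) (l 8)) (l 3)) (b (a (l 8) (l 8)) (l 8))))) (b (b (a (c (a (l 10) (l 2)) (a (l 10) (l 2))) (c (l 2) (l 2))) (a (c (a (l 10) (l 2)) (l 10)) (c (l 2) (l 2)))) (a (c (c (l 10) (l 10)) (a (l 10) (l 10))) (c (a (l 2) (l 2)) (a (l 2) (l 2)))))), by decide +kernel⟩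

theorem h2_1Aml : ∃ t, chk3 f1Aml t 1 1 1 = true := ex3_c h0_1Aml h1_1Aml

theorem ct_1Aml : ∃ t, chk3 f1Aml t 1 1 1 = true := h2_1Aml

noncomputable def f1Amh : ℕ → ℕ → ℕ → ℕ → Bool :=
  onCell 0 67108864 0 33554432 469762048 67108864 (c1_Amh.row true 33554432)

theorem h0_1Amh : ∃ t, chk3 f1Amh t 1 1 1 = true :=
  ⟨(c (b (a (l 5) (b (a (l 5) (c (l 5) (a (l 5) (c (l 5) (l 2))))) (l 5))) (l 5)) (a (b (b (a (l 5) (c (l 5) (a (l 5) (l 10)))) (l 5)) (l 5)) (b (b (a (c (a (l 5) (l 2)) (a (l 10) (l 2))) (c (a (l 2) (c (l 2) (l 2))) (c (l 2) (l 2)))) (a (c (l 5) (a (l 10) (l 2))) (c (a (l 2) (l 2)) (a (l 2) (l 2))))) (c (a (l 5) (b (a (l 5) (l 2)) (l 5))) (a (b (a (l 5) (l 2)) (l 5)) (b (a (l 2) (l 2)) (a (l 2) (l 2)))))))), by decide +kernel⟩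

theorem ct_1Amh : ∃ t, chk3 f1Amh t 1 1 1 = true := h0_1Amh

noncomputable def f1Bpl : ℕ → ℕ → ℕ → ℕ → Bool :=
  onCell 0 67108864 0 33554432 469762048 67108864 (c1_Bpl.row false 33554432)

theorem h0_1Bpl : ∃ t, chk3 f1Bpl t 1 1 1 = true :=
  ⟨(c (a (b (b (a (l 8) (l 10)) (a (l 8) (l 8))) (c (a (l 8) (l 8)) (a (l 8) (l 8)))) (b (c (l 10) (a (l 10) (l 2))) (b (a (l 10) (l 2)) (a (l 10) (l 10))))) (a (b (b (a (l 8) (l 10)) (a (l 8) (l 8))) (c (a (l 8) (l 8)) (a (l 8) (l 8)))) (b (b (a (l 10) (l 2)) (a (l 10) (l 2))) (c (a (l 10) (l 10)) (a (l 10) (l 10)))))), by decide +kernel⟩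

theorem ct_1Bpl : ∃ t, chk3 f1Bpl t 1 1 1 = true := h0_1Bpl

noncomputable def f1Bph : ℕ → ℕ → ℕ → ℕ → Bool :=
  onCell 0 67108864 0 33554432 469762048 67108864 (c1_Bph.row false 33554432)

theorem h0_1Bph : ∃ t, chk3 f1Bph t 1 1 1 = true :=
  ⟨(c (a (l 5) (b (a (l 5) (l 2)) (l 5))) (a (b (b (a (l 5) (l 10)) (l 5)) (l 5)) (b (a (l 10) (l 2)) (a (c (l 5) (l 10)) (l 10))))), by decide +kernel⟩

theorem ct_1Bph : ∃ t, chk3 f1Bph t 1 1 1 = true := h0_1Bph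

noncomputable def f1Bplk1 : ℕ → ℕ → ℕ → ℕ → Bool :=
  onCell 0 67108864 0 33554432 469762048 67108864 (c1_Bplk1.row false 33554432)

theorem h0_1Bplk1 : ∃ t, chk3 f1Bplk1 t 1 1 1 = true :=
  ⟨(c (a (b (a (l 8) (l 10)) (a (l 8) (l 8))) (b (a (l 10) (l 2)) (a (l 10) (l 2)))) (b (a (a (l 8) (l 10)) (a (l 10) (l 2))) (a (a (l 8) (l 8)) (a (l 10) (l 2))))), by decide +kernel⟩

theorem ct_1Bplk1 : ∃ t, chk3 f1Bplk1 t 1 1 1 = true := h0_1Bplk1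

noncomputable def f1Bphk1 : ℕ → ℕ → ℕ → ℕ → Bool :=
  onCell 0 67108864 0 33554432 469762048 67108864 (c1_Bphk1.row false 33554432)

theorem h0_1Bphk1 : ∃ t, chk3 f1Bphk1 t 1 1 1 = true :=
  ⟨(c (a (l 5) (b (a (l 5) (l 2)) (l 5))) (b (a (a (l 5) (l 10)) (l 10)) (a (l 5) (a (l 10) (l 2))))), by decide +kernel⟩

theorem ct_1Bphk1 : ∃ t, chk3 f1Bphk1 t 1 1 1 = true := h0_1Bphk1

noncomputable def f1Bml : ℕ → ℕ → ℕ → ℕ → Bool :=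
  onCell 0 67108864 0 33554432 469762048 67108864 (c1_Bml.row true 33554432)

theorem h0_1Bml : ∃ t, chk3 f1Bml t 1 2 1 = true :=
  ⟨(c (a (a (c (b (a (l 8) (l 8)) (a (l 8) (l 8))) (b (a (l 8) (l 8)) (a (l 8) (l 8)))) (b (c (c (l 10) (l 10)) (a (l 8) (l 10))) (c (c (a (l 10) (l 10)) (a (l 10) (l 10))) (a (l 10) (c (l 10) (l 10)))))) (b (a (c (a (c (l 10) (l 10)) (c (l 2) (l 2))) (a (c (l 10) (l 10)) (c (l 2) (l 2)))) (c (a (c (l 2) (l 2)) (c (l 4) (l 4))) (a (c (l 2) (l 2)) (c (l 2) (l 2))))) (c (a (c (a (l 2) (l 2)) (a (l 2) (l 2))) (a (c (l 2) (l 2)) (c (l 4) (l 4)))) (a (c (a (l 2) (l 2)) (a (l 2) (l 2))) (a (c (l 2) (l 2)) (c (l 4) (l 4))))))) (a (a (c (b (a (l 8) (l 8)) (a (l 8) (l 8))) (b (a (l 8) (l 8)) (a (l 8) (l 8)))) (b (c (a (l 8) (l 10)) (a (l 8) (l 10))) (c (a (l 10) (c (l 10) (l 10))) (a (l 10) (c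 (l 10) (l 10)))))) (b (a (c (a (c (l 10) (l 10)) (c (l 2) (l 2))) (a (c (l 10) (l 10)) (c (l 2) (l 2)))) (c (a (c (l 2) (l 2)) (c (l 2) (l 2))) (c (a (l 2) (l 5)) (l 5)))) (c (a (c (a (l 2) (l 2)) (a (l 2) (l 2))) (a (c (l 2) (l 2)) (c (l 4) (l 5)))) (a (c (a (l 2) (l 2)) (a (l 2) (l 5))) (l 5)))))), by decide +kernel⟩

theorem h1_1Bml : ∃ t, chk3 f1Bml t 1 3 2 = true :=
  ⟨(a (b (a (c (a (l 8) (c (l 10) (l 10))) (a (l 8) (l 10))) (c (a (c (l 10) (l 10)) (c (l 2) (l 2))) (a (c (l 10) (l 10)) (c (l 2) (l 2))))) (c (a (b (a (c (l 10) (l 10)) (c (l 10) (l 10))) (c (a (l 12) (a (l 2) (l 2))) (a (l 12) (a (l 2) (l 4))))) (b (c (a (l 2) (l 2)) (l 2)) (c (a (b (l 2) (l 2)) (b (l 2) (l 2))) (a (b (l 2) (l 2)) (b (l 2) (l 2)))))) (a (b (a (l 10) (l 10)) (c (a (a (l 10) (l 10)) (a (l 2) (l 4))) (a (a (l 10) (l 10)) (a (l 2)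 (l 2))))) (b (c (l 2) (l 2)) (c (a (b (l 2) (l 2)) (b (l 2) (l 2))) (a (b (l 2) (l 2)) (b (l 2) (l 2)))))))) (b (c (a (c (a (l 2) (l 2)) (a (l 2) (l 2))) (a (b (c (l 2) (l 2)) (l 1)) (l 1))) (a (c (a (l 2) (l 2)) (a (l 2) (l 2))) (a (c (l 4) (a (l 2) (l 1))) (l 1)))) (a (c (b (c (a (l 2) (l 2)) (a (l 2) (l 2))) (a (c (b (l 2) (l 2)) (b (l 2) (a (l 2) (l 1)))) (l 1))) (b (c (a (l 2) (l 2)) (a (l 2) (l 2))) (a (c (b (l 2) (a (l 2) (l 1))) (b (l 2) (a (l 2) (l 1)))) (l 1)))) (l 1)))), by decide +kernel⟩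

theorem h2_1Bml : ∃ t, chk3 f1Bml t 1 3 3 = true :=
  ⟨(a (b (a (c (a (l 8) (l 10)) (a (l 8) (l 10))) (c (a (c (l 10) (l 10)) (c (l 2) (l 2))) (a (c (l 10) (l 10)) (c (l 2) (l 2))))) (c (a (b (a (l 10) (l 10)) (a (c (a (l 10) (l 10)) (l 12)) (c (a (l 10) (l 2)) (a (l 10) (l 2))))) (b (c (l 2) (l 2)) (c (b (l 2) (a (l 2) (l 2))) (b (l 2) (a (l 2) (l 2)))))) (a (b (a (l 10) (l 10)) (a (c (l 12) (l 10)) (c (a (l 10) (l 2)) (l 10)))) (c (b (l 2) (a (a (l 2) (l 2)) (l 5))) (b (a (l 2) (l 5)) (l 5)))))) (c (a (b (c (a (l 2) (l 2)) (a (l 2) (l 2))) (c (a (b (l 2) (a (l 2) (l 2))) (b (l 2) (l 1))) (b (a (l 2) (l 5)) (l 5)))) (b (c (a (a (l 2) (l 1)) (l 1)) (l 5)) (l 1))) (b (a (c (a (l 2) (l 5)) (l 5)) (l 5)) (l 5)))), by decide +kernel⟩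

theorem h3_1Bml : ∃ t, chk3 f1Bml t 1 3 1 = true := ex3_c h1_1Bml h2_1Bml

theorem h4_1Bml : ∃ t, chk3 f1Bml t 1 1 1 = true := ex3_b h0_1Bml h3_1Bml

theorem ct_1Bml : ∃ t, chk3 f1Bml t 1 1 1 = true := h4_1Bml

noncomputable def f1Bmh : ℕ → ℕ → ℕ → ℕ → Bool :=
  onCell 0 67108864 0 33554432 469762048 67108864 (c1_Bmh.row true 33554432)

theorem h0_1Bmh : ∃ t, chk3 f1Bmh t 1 2 1 = true :=
  ⟨(c (a (l 5) (b (a (l 5) (c (l 5) (a (c (l 5) (l 2)) (c (l 2) (l 2))))) (a (c (l 5) (a (l 5) (c (l 5) (l 2)))) (c (a (l 5) (c (l 5) (l 4))) (a (c (l 2) (l 2)) (c (l 2) (l 2))))))) (a (a (c (l 5) (b (l 5) (a (l 5) (l 8)))) (c (b (l 5) (c (l 5) (a (l 5) (l 10)))) (b (a (l 8) (l 10)) (c (l 10) (l 10))))) (b (a (c (c (a (l 5) (l 2)) (a (l 10) (l 2))) (a (c (l 10) (l 10)) (l 2))) (c (a (c (l 2) (l 2)) (c (l 2) (l 2))) (a (c (l 2) (l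 2)) (c (l 2) (l 2))))) (a (c (c (a (l 2) (l 2)) (l 2)) (c (l 2) (l 2))) (c (a (c (l 2) (l 2)) (c (l 2) (l 2))) (a (c (l 2) (l 2)) (c (l 4) (l 4)))))))), by decide +kernel⟩

theorem h1_1Bmh : ∃ t, chk3 f1Bmh t 1 3 2 = true :=
  ⟨(a (a (l 5) (c (l 5) (b (l 5) (a (l 5) (c (l 5) (b (l 5) (b (l 5) (a (l 5) (l 2))))))))) (b (a (c (l 5) (a (c (l 5) (l 2)) (c (l 2) (l 2)))) (a (b (c (l 5) (c (l 2) (l 2))) (l 1)) (l 1))) (a (c (a (l 5) (a (l 5) (l 1))) (b (a (c (l 5) (l 2)) (c (l 2) (l 2))) (a (c (b (l 5) (a (l 5) (l 1))) (b (l 2) (a (l 2) (l 1)))) (l 1)))) (l 1)))), by decide +kernel⟩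

theorem h2_1Bmh : ∃ t, chk3 f1Bmh t 1 3 3 = true :=
  ⟨(a (b (a (c (l 5) (a (l 8) (c (l 10) (l 10)))) (c (c (a (l 5) (l 2)) (a (l 10) (l 2))) (a (c (l 10) (l 10)) (l 2)))) (c (a (a (l 5) (c (l 5) (b (l 5) (c (l 5) (l 4))))) (b (c (a (l 5) (l 2)) (l 2)) (a (c (b (l 5) (a (l 5) (l 2))) (a (l 2) (l 2))) (c (b (l 2) (l 2)) (l 2))))) (a (b (a (l 10) (l 10)) (a (c (a (l 5) (l 10)) (l 10)) (c (a (l 2) (l 2)) (l 10)))) (b (a (l 2) (l 2)) (a (c (l 2) (l 2)) (c (l 2) (l 2))))))) (c (a (b (a (c (l 2) (l 2)) (c (l 2) (l 2))) (b (a (l 2) (c (l 2) (l 2))) (a (c (a (l 2) (l 2)) (l 2)) (l 1)))) (b (a (c (l 2) (l 2)) (l 1)) (l 1))) (a (b (a (c (l 2) (l 2)) (c (l 2) (l 2))) (a (c (l 2) (l 2)) (c (l 2) (l 2)))) (b (a (c (l 2) (l 2)) (l 1)) (l 1))))), by decide +kernel⟩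

theorem h3_1Bmh : ∃ t, chk3 f1Bmh t 1 3 1 = true := ex3_c h1_1Bmh h2_1Bmh

theorem h4_1Bmh : ∃ t, chk3 f1Bmh t 1 1 1 = true := ex3_b h0_1Bmh h3_1Bmh

theorem ct_1Bmh : ∃ t, chk3 f1Bmh t 1 1 1 = true := h4_1Bmh

end Pool.Agent.Strip051.G.I7_16_1_2.Tab.Mo
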