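import Pool.Agent.Strip051.G.I7_16_1_2.StF

/-! # Unit strips 1 (generated) -/

set_option linter.all false
set_option maxRecDepth 100000

namespace Pool.Agent.Strip051.G.I7_16_1_2.Tab.St.C

open Pool.Agent.Strip051.PB Pool.Agent.Strip051.PB.T Pool.Agent.StripNear Pool.Agent.Strip051.LC
open Pool.Agent.Strip051.G.I7_16_1_2.Tab Pool.Agent.Strip051.G.I7_16_1_2.Tab.St

noncomputable def cut_A00pm_012_s1 : Cut := Cut.of [[⟨4, 0, 0, 1449551462⟩], [⟨0, 0, 0, 67108864⟩, ⟨1, 1, 0, 67108864⟩, ⟨2, 1, 0, 67108864⟩], [⟨0, 0, 1, 33554432⟩, ⟨1, 1, 0, 33554432⟩, ⟨2, 1, 1, 33554432⟩]]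

noncomputable def xt_A00pm_012_s1 : Ext := strExt dd true true false .u0 .u0m .u2 .pnp 0 1 2 rfl rfl gf2 vv ndF0q0 ndF0q1

noncomputable def f_A00pm_012_s1 : ℕ → ℕ → ℕ → ℕ → Bool := onCell 1073741824 536870912 536870912 536870912 469762048 67108864
    (rowF 2 true true false .pnp 0 1 2 (qsf 0 536870912 536870912 536870912 2) ndF0q0 ndF0q1 pcF2 cut_A00pm_012_s1 xt_A00pm_012_s1)

def k0_A00pm_012_s1 : ∃ t, chk3 f_A00pm_012_s1 t 4 2 1 = true :=
  ⟨(b (l 3) (l 3)), by decide +kernel⟩

def k1_A00pm_012_s1 : ∃ t, chk3 f_A00pm_012_s1 t 4 12 1 = true :=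
  ⟨(a (l 3) (a (l 3) (a (l 3) (b (l 3) (a (a (l 3) (a (l 3) (a (l 3) (b (l 3) (b (l 3) (b (l 3) (b (l 3) (l 533369871)))))))) (a (b (l 3) (a (b (l 3) (c (l 533341055) (a (c (l 533407615) (b (l 3) (l 533426447))) (b (l 533422719) (l 533415295))))) (c (b (l 533341567) (l 533333887)) (b (a (b (l 3) (l 533423231)) (a (l 533421183) (l 533418111))) (b (l 533414527) (l 533408527)))))) (b (c (a (b (l 3) (b (l 3) (l 533334911))) (b (a (l 3) (l 533320575)) (a (b (c (l 533296767) (l 533353487)) (l 533326095)) (b (l 533320719) (l 533320831))))) (b (a (l 3) (a (l 3) (b (l 3) (l 533403407)))) (b (a (l 3) (a (a (b (l 3) (l 533410319)) (c (l 533393023) (c (l 533413247) (l 533421583)))) (c (l 533387391) (l 533412111)))) (a (a (l 3) (l 533413247)) (a (a (l 533408127) (l 533404687)) (c (l 533385855) (l 533409919))))))) (a (c (b (l 533330815) (l 533326463)) (b (c (l 533396351) (l 533420159)) (l 533401983))) (b (c (a (l 533324159) (l 533319695)) (a (l 533401727) (b (l 533397631) (l 533395327)))) (c (l 533320319) (l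 533393279))))))))))), by decide +kernel⟩

def k2_A00pm_012_s1 : ∃ t, chk3 f_A00pm_012_s1 t 8 13 1 = true :=
  ⟨(l 3), by decide +kernel⟩

def k3_A00pm_012_s1 : ∃ t, chk3 f_A00pm_012_s1 t 18 13 1 = true :=
  ⟨(a (l 3) (b (l 3) (b (l 3) (a (l 3) (a (l 3) (a (l 533033087) (l 533043327))))))), by decide +kernel⟩

def k4_A00pm_012_s1 : ∃ t, chk3 f_A00pm_012_s1 t 19 13 1 = true :=
  ⟨(a (a (b (l 3) (c (b (a (l 533063551) (l 533085455)) (a (l 533036159) (l 533058431))) (b (a (l 533102975) (b (l 533142031) (l 533122175))) (l 533344271)))) (b (b (l 3) (c (a (l 533144959) (l 533174143)) (a (c (l 533194111) (l 533475967)) (c (l 533225087) (l 533239423))))) (a (b (c (l 533379711) (b (l 533171071) (l 533150847))) (l 533378575)) (b (b (l 533184015) (l 533166095)) (c (l 533113727) (l 533151615)))))) (a (b (c (b (a (c (l 533217919) (l 533269775)) (b (a (l 533285391) (l 533304335)) (l 533273615))) (a (l 533206911) (a (l 533235071) (l 533254527)))) (b (c (a (b (l 3) (l 533295231)) (b (a (l 533347343) (l 533365631))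 (l 533330447))) (a (b (l 3) (c (l 533310591) (l 533315967))) (a (b (b (l 3) (a (l 533357327) (l 533366031))) (l 533340175)) (b (b (l 533394047) (b (l 533383295) (l 533376015))) (l 533358351))))) (a (c (l 533258111) (l 533272703)) (a (l 533563007) (a (l 533308543) (l 533317759)))))) (a (b (c (l 533173887) (l 533222527)) (c (l 533146495) (l 533183871))) (b (c (l 533210495) (l 533257231)) (b (l 533218063) (l 533202959))))) (b (a (c (b (b (c (l 533302399) (l 533354367)) (a (l 533303679) (l 533317247))) (a (l 533274495) (l 533291647))) (b (b (a (c (l 533393535) (b (l 533417743) (l 533396351))) (a (l 533401871) (l 533401471))) (a (a (l 533365519) (l 533374335)) (l 533381391))) (b (a (l 533344639) (l 533359231)) (l 533328399)))) (b (c (b (a (l 533328511) (l 533325183)) (l 533324303)) (b (a (l 533397775) (l 533392255)) (a (l 533385855) (l 533387135)))) (c (l 533308687) (a (l 533357183) (l 533365375))))) (b (a (a (l 533271311) (l 533289231)) (c (l 533284879) (a (l 533317759) (l 533331583)))) (a (c (l 533222783)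 (l 533254527)) (c (l 533261583) (l 533288063))))))), by decide +kernel⟩

def k5_A00pm_012_s1 : ∃ t, chk3 f_A00pm_012_s1 t 8 14 1 = true :=
  ⟨(b (l 3) (a (l 3) (a (l 3) (a (b (l 3) (b (l 3) (b (l 3) (a (l 3) (c (a (l 532960895) (l 532952959)) (l 533161599)))))) (a (b (l 3) (a (b (l 3) (c (l 533212031) (l 532888447))) (b (b (l 3) (l 533057407)) (c (l 532938367) (l 532886655))))) (b (l 3) (b (a (c (l 532934783) (l 532889215)) (c (l 532931199) (l 532888447))) (c (a (l 532934271) (l 532931455)) (l 533151759))))))))), by decide +kernel⟩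

def k6_A00pm_012_s1 : ∃ t, chk3 f_A00pm_012_s1 t 16 30 1 = true :=
  ⟨(b (l 3) (a (l 3) (a (l 3) (a (l 3) (b (l 3) (b (l 3) (c (a (b (l 3) (a (l 3) (l 533413135))) (a (b (c (l 533187199) (l 533115263)) (c (l 533183871) (l 533111679))) (b (l 533410575) (l 533139071)))) (a (b (l 3) (a (l 3) (l 532972671))) (a (b (l 532981887) (l 532977791)) (b (l 532976767) (l 532972927))))))))))), by decide +kernel⟩

def k7_A00pm_012_s1 : ∃ t, chk3 f_A00pm_012_s1 t 17 60 1 = true :=
  ⟨(a (a (l 3) (a (b (l 3) (a (l 3) (b (l 3) (a (l 532979983) (l 532973583))))) (b (l 3) (a (b (c (l 533004927) (l 532913791)) (c (l 533003647) (l 532910975))) (b (c (l 532991103) (l 532906367)) (c (l 532990591) (l 532904319))))))) (a (a (b (a (b (l 3) (c (a (l 532983679) (l 532977791)) (l 532902415))) (b (c (l 532969855) (l 532899199)) (c (l 532969343) (l 532897151)))) (a (b (a (l 532949631) (l 532945535)) (a (l 532948863) (l 532945023))) (b (c (l 532969599) (l 532895615)) (l 532939279)))) (a (b (b (l 532934415) (c (l 532960639) (l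 532893055))) (b (l 532933391) (l 532934015))) (b (b (l 532928895) (l 532928639)) (b (l 532928895) (l 532929663))))) (a (c (b (b (l 532942207) (l 532943231)) (b (l 532944767) (l 532947071))) (b (a (l 532885631) (l 532884351)) (b (l 532885631) (l 532885887)))) (c (b (a (l 532936319) (l 532934015)) (b (l 532939135) (l 532941951))) (b (l 533150223) (b (l 532885375) (l 532886399))))))), by decide +kernel⟩

def k8_A00pm_012_s1 : ∃ t, chk3 f_A00pm_012_s1 t 34 61 1 = true :=
  ⟨(a (a (b (a (l 3) (a (l 3) (a (l 3) (b (l 3) (l 533296767))))) (a (b (b (l 3) (c (a (l 533129599) (l 533115007)) (a (l 532971903) (l 532963711)))) (a (c (b (l 533126783) (l 533123967)) (b (l 532968319) (l 532964991))) (b (l 533311759) (l 533309055)))) (b (a (b (l 533306751) (l 533035647)) (c (l 533087871) (l 532949119))) (a (b (l 533033087) (l 533030783)) (b (l 533023871) (l 533021823)))))) (b (a (b (l 3) (a (c (l 533079679) (l 532947839)) (c (l 533067903) (l 532941439)))) (a (b (a (l 3) (l 533005439)) (l 533271679)) (b (l 533267327)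 (l 532995455)))) (b (a (a (b (l 533019007) (l 533016959)) (l 533276175)) (a (l 533000063) (l 532992895))) (a (a (b (l 533015167) (l 533013375)) (l 533272959)) (a (l 532997503) (l 532990847)))))) (a (b (a (b (a (l 532991359) (l 532984191)) (a (l 532988543) (l 532981887))) (b (a (l 532977791) (l 532971903)) (a (l 532975999) (l 532970367)))) (b (a (a (l 532986239) (l 532980351)) (a (l 532974719) (l 532969599))) (a (a (l 532984703) (l 532979071)) (a (l 532973951) (l 532969343))))) (b (a (b (a (l 532966271) (l 532961407)) (a (l 532965247) (l 532960639))) (b (a (l 532956799) (l 532952447)) (l 532953359))) (b (a (a (l 532964735) (l 532960639)) (l 532953615)) (a (l 533230095) (l 533223039)))))), by decide +kernel⟩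

def k9_A00pm_012_s1 : ∃ t, chk3 f_A00pm_012_s1 t 35 61 1 = true :=
  ⟨(a (b (a (a (b (l 532945935) (l 532946303)) (b (l 532939647) (l 532940671))) (a (b (l 532934783) (l 532936319)) (b (l 532930943) (l 532932991)))) (a (a (b (l 532947327) (l 532948863)) (b (l 532942207) (l 532944255))) (a (b (l 532938367) (l 532940927)) (b (l 532935295) (c (l 16759336) (l 16758896)))))) (b (b (a (a (l 532928127) (l 532926335)) (l 533191695)) (a (a (l 532930431) (l 532928895)) (l 533194879))) (a (b (a (l 532933247) (l 532932223)) (a (b (l 16752752) (c (l 16751376) (l 16750888))) (b (l 16750792) (l 16749304)))) (b (b (l 532930687) (a (l 16750416) (l 16748488))) (b (a (l 16748904) (l 16747040)) (l 16746520)))))), by decide +kernel⟩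

def k10_A00pm_012_s1 : ∃ t, chk3 f_A00pm_012_s1 t 16 31 1 = true :=
  ⟨(b (a (l 14) (b (a (l 14) (a (l 14) (a (l 14) (b (a (l 14) (b (c (l 533135999) (l 532969343)) (l 14))) (l 14))))) (l 14))) (l 14)), by decide +kernel⟩

def k11_A00pm_012_s1 : ∃ t, chk3 f_A00pm_012_s1 t 34 62 1 = true :=
  ⟨(a (a (b (b (a (a (b (c (l 533121407) (l 532961663)) (l 14)) (b (l 533038207) (l 533035903))) (a (b (l 533028735) (l 533026687)) (b (l 533020031) (l 533018239)))) (a (l 14) (a (l 14) (b (l 533016959) (l 14))))) (l 14)) (b (b (a (a (b (l 533012095) (l 533010559)) (l 533001855)) (a (l 532995455) (l 532989311))) (a (a (b (l 533009535) (l 14)) (l 533268351)) (a (l 532993919) (l 532988287)))) (b (a (l 14) (b (l 532991615) (l 14))) (l 14)))) (b (a (a (b (a (l 532983679) (l 532978559)) (a (l 532983167) (l 532978559))) (b (a (l 532973695) (l 532969599)) (b (l 532972927) (b (l 16758776) (l 16760560))))) (a (b (l 533230863) (b (l 532965759) (b (l 16756808) (l 16756016)))) (b (l 532956031) (b (b (l 16756504) (l 16755680))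 (c (l 16754792) (l 16754168)))))) (b (a (a (b (b (l 16761688) (c (l 16758504) (l 16757912))) (c (l 16757336) (l 16756656))) (b (b (l 16757136) (l 16756328)) (l 16755128))) (c (b (l 16754200) (l 16752672)) (b (l 16753488) (l 16751832)))) (b (a (c (l 16754840) (l 16754000)) (c (l 16751120) (l 16750160))) (a (l 14) (c (l 16749552) (l 16748456))))))), by decide +kernel⟩

def k12_A00pm_012_s1 : ∃ t, chk3 f_A00pm_012_s1 t 35 62 1 = true :=
  ⟨(b (a (a (b (b (a (l 532952191) (l 16755432)) (a (c (l 16755976) (l 16755480)) (c (l 16754048) (l 16753520)))) (b (a (c (l 16754424) (l 16753856)) (l 16752280)) (c (l 16752000) (l 16751280)))) (b (b (a (c (l 16753664) (l 16753184)) (l 16751568)) (a (l 16751936) (l 16750048))) (c (l 16749064) (l 16748272)))) (c (a (b (l 16748312) (l 16745424)) (b (l 16744696) (l 16741824))) (b (a (l 16747624) (l 16743864)) (a (l 16744488) (l 16740744))))) (a (b (a (c (b (l 16750496) (l 16748976)) (b (l 16749656) (l 16748008))) (c (l 16746080) (l 16745040))) (a (c (b (l 16747440)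 (l 16745872)) (b (l 16746336) (l 16744648))) (c (l 16743016) (l 16741712)))) (b (a (c (l 16742456) (l 16741272)) (c (l 16738872) (l 16737536))) (a (c (l 16739400) (l 16737968)) (c (l 16735832) (l 16734248)))))), by decide +kernel⟩

def k13_A00pm_012_s1 : ∃ t, chk3 f_A00pm_012_s1 t 17 63 1 = true :=
  ⟨(a (b (a (l 14) (a (l 14) (a (l 14) (b (b (l 16746440) (l 14)) (l 14))))) (l 14)) (b (a (b (a (c (b (l 16744288) (l 16742672)) (b (l 16742936) (l 16741200))) (c (l 16739856) (l 16738304))) (a (a (l 14) (a (l 14) (l 16738032))) (b (l 16736592) (l 16734880)))) (b (c (a (l 16736264) (l 16732704)) (a (l 16734568) (l 16730864))) (c (a (l 16733024) (l 16729480)) (a (l 16731080) (l 16727392))))) (b (a (a (l 14) (a (l 14) (l 16731360))) (c (a (l 16729704) (l 16726176)) (a (l 16727496) (l 16723824)))) (a (l 14) (b (c (l 16725384) (l 16722912)) (c (l 16723656) (l 16721056))))))), by decide +kernel⟩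

def k14_A00pm_012_s1 : ∃ t, chk3 f_A00pm_012_s1 t 36 14 1 = true :=
  ⟨(b (a (l 3) (b (l 3) (a (a (l 3) (b (l 3) (b (l 3) (a (l 532932735) (l 532934271))))) (a (b (l 3) (c (c (l 532939135) (l 532940671)) (l 532919423))) (c (a (b (l 3) (l 532944767)) (b (l 532952447) (a (l 532946703) (l 532947727)))) (b (l 532932223) (l 532923775))))))) (a (a (b (b (l 3) (c (a (l 533198719) (l 532928895)) (l 532891775))) (c (b (c (l 533196159) (l 532921727)) (a (l 532929919) (l 532929151))) (b (l 532887423) (l 532884863)))) (b (c (a (b (c (l 532930431) (l 532928383)) (l 532928383)) (b (l 532931087) (l 532928895))) (b (l 532900479) (l 532894591))) (c (b (c (l 532927103) (l 532922495)) (l 533196671)) (b (l 532891007) (l 532889215))))) (a (b (c (a (b (l 532932479) (l 532930687)) (b (l 532934783) (l 532933247))) (b (l 532905599) (l 532900479))) (c (b (l 532930319) (l 532932735)) (b (l 532897151) (l 532895871)))) (b (a (c (b (l 532938111) (l 532936575)) (l 533173887)) (c (b (l 532942207) (l 532940927)) (l 533447039)))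 (c (b (l 533206399) (l 532940927)) (b (l 532905855) (l 532904831))))))), by decide +kernel⟩

def k15_A00pm_012_s1 : ∃ t, chk3 f_A00pm_012_s1 t 37 14 1 = true :=
  ⟨(b (a (b (b (l 3) (a (a (l 3) (b (l 3) (l 532965135))) (c (a (l 532969343) (l 532973695)) (l 533236095)))) (c (a (b (c (a (l 532952447) (l 532954495)) (l 532956287)) (a (a (l 532949519) (l 532952079)) (l 532953871))) (a (b (l 532962431) (l 532957311)) (l 533229439))) (a (b (l 532940159) (l 532931343)) (b (l 532957199) (l 532949119))))) (b (a (b (l 533001487) (c (l 532981263) (l 532987775))) (b (l 533020543) (l 533009935))) (a (c (b (l 532974719) (l 532969599)) (b (l 532977279) (l 532968831))) (b (a (l 532997759) (l 533007743)) (l 532994575))))) (a (a (b (c (b (a (c (l 532945535) (l 532945791)) (l 532951167)) (a (l 532946303) (l 532950399))) (b (l 532924687) (l 532920191))) (c (b (l 532947983) (l 532951167)) (b (l 532917375) (l 532916607)))) (b (b (c (l 532955407) (l 532942463)) (c (l 532955007) (l 532937599))) (b (c (l 532956543) (l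 532934527)) (l 533221903)))) (b (a (b (a (l 532968319) (l 532977023)) (l 532968719)) (c (l 533513487) (b (l 532983167) (l 532978047)))) (b (a (l 533236239) (c (l 532982655) (l 532974463))) (a (c (l 532971647) (l 532952447)) (c (l 532986239) (l 532972671))))))), by decide +kernel⟩

def k16_A00pm_012_s1 : ∃ t, chk3 f_A00pm_012_s1 t 19 28 1 = true :=
  ⟨(a (b (a (c (a (l 533015935) (l 533038207)) (a (l 533036671) (l 533062527))) (a (c (l 533063807) (l 533090431)) (c (l 533092991) (l 533119871)))) (a (a (b (l 533022847) (l 533015935)) (b (l 533046655) (l 533039487))) (a (c (l 533049983) (l 533334655)) (c (l 533078655) (l 533497727))))) (a (a (b (c (l 533125503) (l 533151359)) (c (l 533110399) (l 533527823))) (b (c (l 533161343) (l 533184895)) (c (l 533145471) (b (l 16743416) (l 16739072))))) (a (b (c (l 533200767) (l 533220111)) (c (l 533183759) (b (l 16740008) (l 16735680)))) (b (c (l 533241103) (b (l 16744744) (l 16740800))) (c (b (l 16736624) (l 16732336)) (b (l 16736680) (c (l 16732400) (b (l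 16733360) (l 16731128))))))))), by decide +kernel⟩

def k17_A00pm_012_s1 : ∃ t, chk3 f_A00pm_012_s1 t 19 29 1 = true :=
  ⟨(a (a (b (a (c (l 532995343) (b (l 533005951) (l 533000319))) (b (l 533033743) (l 533030159))) (c (b (a (l 16747872) (l 16738952)) (a (b (l 16738776) (l 16736160)) (b (l 16735112) (l 16732816)))) (b (a (l 532996479) (l 533020031)) (a (b (l 16738688) (c (l 16736120) (l 16735896))) (b (c (l 16735120) (l 16734912)) (c (l 16732712) (l 16732432))))))) (a (b (b (l 533059343) (l 533323535)) (c (b (b (l 16736576) (l 16734072)) (b (l 16731816) (l 16729560))) (b (b (l 16736584) (c (l 16734112) (l 16733920))) (b (c (l 16731752) (l 16731488)) (l 16729216))))) (b (c (l 533069951) (c (l 533080959) (l 533337359))) (c (b (b (l 16733040) (l 16730832)) (l 16727528)) (b (b (c (l 16733104) (l 16732920)) (c (l 16730800) (l 16730544))) (c (l 16727288) (l 16726896))))))) (c (b (b (a (a (l 16737904) (l 16734488)) (a (l 16731192) (l 16728280))) (a (a (l 16733184) (l 16730056)) (c (l 16725568) (l 16725568))))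 (a (a (b (l 16728840) (l 16724424)) (b (l 16725752) (l 16721352))) (b (l 16721288) (l 16716816)))) (b (b (a (a (l 16740600) (l 533144591)) (a (b (l 16732296) (a (l 16730840) (l 16729280))) (b (a (l 16729872) (l 16728344)) (l 16726936)))) (a (c (a (l 16733272) (b (l 16731112) (l 16728912))) (a (b (l 16734344) (l 16731912)) (b (l 16730912) (l 16728640)))) (a (b (l 16727856) (l 16725624)) (a (l 16724416) (l 16722864))))) (a (c (b (a (l 16728736) (l 16725528)) (l 16722456)) (b (a (b (l 16729592) (l 16727208)) (l 16725136)) (b (l 16723160) (l 16720680)))) (b (c (l 16720848) (a (l 16721912) (l 16718712))) (c (l 16716128) (b (l 16716656) (l 16714152)))))))), by decide +kernel⟩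

def k18_A00pm_012_s1 : ∃ t, chk3 f_A00pm_012_s1 t 36 30 1 = true :=
  ⟨(b (a (c (b (a (l 533198863) (l 532932223)) (a (l 533203983) (l 532938111))) (b (a (l 532884351) (l 532889215)) (a (l 533154175) (l 532891263)))) (c (a (b (l 532937343) (l 532943999)) (b (l 532945791) (b (l 16746808) (a (l 16744888) (l 16742968))))) (b (a (l 532896383) (l 532905855)) (a (l 532899199) (b (l 16746472) (b (l 16744280) (l 16742792))))))) (a (b (b (a (l 532924799) (l 532929151)) (b (a (l 532928895) (a (l 16747256) (l 16745328))) (a (a (l 16749624) (l 16747664)) (a (l 16745776) (l 16743944))))) (b (a (b (a (l 16748072) (l 16746216)) (c (l 16745960) (l 16745392))) (c (l 16743056) (l 16742400))) (a (c (l 16743904) (l 16743168)) (c (l 16740368) (l 16739464))))) (b (a (b (b (c (l 16745552) (l 16745168)) (a (l 16744888) (l 16743048))) (b (l 16742616) (l 16741240))) (b (c (l 16743896) (l 16740736)) (l 16738368))) (b (c (a (l 16739552) (l 16736096)) (a (l 16738728) (l 16735104))) (c (a (l 16736872) (l 16733424)) (a (l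 16735808) (l 16732192))))))), by decide +kernel⟩

def k19_A00pm_012_s1 : ∃ t, chk3 f_A00pm_012_s1 t 37 30 1 = true :=
  ⟨(b (a (b (a (c (l 532956287) (l 532917631)) (l 532956687)) (a (a (b (l 16743816) (a (l 16741440) (l 16740544))) (b (l 16741888) (l 16739224))) (b (c (l 16744536) (a (l 16739792) (l 16738000))) (l 16736584)))) (b (b (a (l 532973183) (c (l 16737208) (a (l 16737896) (l 16736112)))) (a (c (l 16738256) (a (l 16738856) (l 16737064))) (c (l 16734824) (l 16734456)))) (c (b (a (l 16735816) (l 16732456)) (l 16731720)) (a (b (l 16735352) (l 16732728)) (b (l 16731872) (l 16729256)))))) (b (a (a (b (c (l 16737784) (l 16737096)) (c (l 16735272) (l 16734344))) (b (l 16734016) (l 16731384))) (a (b (l 16730568) (l 16727920)) (c (l 16726320) (a (l 16726056) (l 16724320))))) (a (a (b (c (l 16732672) (l 16731520)) (c (l 16730000) (l 16728608))) (b (l 16728664) (c (l 16726560) (l 16725056)))) (c (b (l 16724104) (l 16721424)) (b (a (l 16724448) (l 16720952)) (a (l 16721536) (l 16718040))))))), by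 decide +kernel⟩

def k20_A00pm_012_s1 : ∃ t, chk3 f_A00pm_012_s1 t 19 30 1 = true :=
  ⟨(a (c (b (b (a (b (a (l 16733816) (l 16730520)) (l 16729840)) (c (l 16724624) (l 16724448))) (a (b (l 16727488) (l 16725064)) (c (l 16719944) (l 16719576)))) (b (a (b (l 16722576) (l 16720016)) (c (l 16715016) (l 16714440))) (a (b (l 16717392) (l 16714688)) (a (l 16711096) (l 16707824))))) (b (b (a (a (b (c (l 16733664) (l 16733360)) (l 16731000)) (c (l 16729064) (l 16728632))) (c (b (l 16725312) (l 16722840)) (b (l 16724816) (l 16722240)))) (a (c (b (l 16726984) (l 16724400)) (b (l 16726432) (l 16723744))) (c (b (l 16720304) (l 16717696)) (b (l 16719600) (l 16716896))))) (c (b (a (b (l 16721752) (l 16719024)) (b (l 16715024) (l 16712288))) (a (b (l 16716232) (l 16713368)) (b (l 16709480) (l 16706600)))) (a (b (b (l 16720984) (l 16718152)) (b (l 16715248) (l 16712264))) (b (b (l 16714112) (l 16711272)) (b (l 16708352) (l 16705368))))))) (b (c (b (a (c (l 16718400) (l 16718088)) (c (l 16712328) (l 16711856)))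 (a (c (l 16713640) (l 16713144)) (c (l 16707488) (l 16706848)))) (b (a (c (b (l 16718816) (l 16716312)) (b (l 16718144) (l 16715544))) (c (b (l 16712432) (l 16709896)) (b (l 16711584) (l 16708960)))) (a (c (b (l 16713744) (l 16711112)) (b (l 16712880) (l 16710152))) (c (b (l 16707304) (l 16704648)) (b (l 16706272) (l 16703528)))))) (c (b (a (c (l 16708640) (l 16707952)) (c (l 16702416) (l 16701600))) (a (c (l 16703400) (l 16702504)) (c (l 16697112) (l 16696104)))) (c (b (a (b (l 16708424) (l 16705664)) (b (l 16701936) (l 16699152))) (a (b (l 16702840) (l 16699944)) (b (l 16696312) (l 16693400)))) (b (a (b (l 16707360) (l 16704504)) (b (l 16700712) (l 16697840))) (a (b (l 16701576) (l 16698576)) (b (l 16694896) (l 16691896)))))))), by decide +kernel⟩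

def k21_A00pm_012_s1 : ∃ t, chk3 f_A00pm_012_s1 t 18 62 1 = true :=
  ⟨(a (b (a (b (a (c (l 16741128) (l 16740144)) (c (l 16737600) (l 16736456))) (a (c (l 16738264) (l 16737032)) (c (l 16734744) (l 16733360)))) (b (c (a (l 16734112) (l 16730664)) (a (l 16732808) (l 16729192))) (c (a (l 16731272) (l 16727832)) (a (l 16729720) (l 16726120))))) (a (b (a (c (l 16735320) (l 16733840)) (c (l 16731816) (l 16730176))) (c (a (l 16732296) (l 16728792)) (a (l 16730560) (l 16726912)))) (b (c (a (l 16728344) (l 16724912)) (a (l 16726552) (l 16722960))) (c (a (l 16725336) (l 16721920)) (a (l 16723296) (l 16719712)))))) (b (a (c (b (a (l 16727256) (l 16723808)) (a (l 16724424) (l 16720976))) (a (b (l 16725624) (l 16722552)) (b (l 16722072) (l 16719000)))) (c (b (l 16718664) (l 16715832)) (b (a (l 16718544) (l 16715040)) (a (l 16715472) (l 16711976))))) (a (c (b (a (l 16721512) (l 16718064)) (a (l 16718520) (l 16715072))) (a (b (l 16719400) (l 16716168)) (b (l 16715856) (l 16712624)))) (c (b (l 16712920) (l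 16709928)) (b (a (l 16712328) (l 16708824)) (a (l 16709096) (l 16705600))))))), by decide +kernel⟩

def k22_A00pm_012_s1 : ∃ t, chk3 f_A00pm_012_s1 t 18 63 1 = true :=
  ⟨(a (b (a (b (c (a (l 16729176) (l 16725688)) (a (l 16727192) (l 16723552))) (c (a (l 16725968) (l 16722496)) (a (l 16723736) (l 16720112)))) (b (c (a (l 16722240) (l 16718832)) (a (l 16719952) (l 16716384))) (c (a (l 16719064) (l 16715664)) (a (l 16716520) (l 16712968))))) (a (b (c (a (l 16722680) (l 16719216)) (a (l 16720184) (l 16716576))) (c (b (l 16718416) (l 16716704)) (b (l 16715656) (l 16713816)))) (b (c (a (l 16715792) (l 16712408)) (l 16716464)) (c (b (l 16711592) (l 16709888)) (b (l 16708528) (l 16706696)))))) (b (a (c (b (a (l 16715448) (l 16712000)) (a (l 16712288) (l 16708848))) (b (a (l 16712848) (l 16709304)) (a (l 16709440) (l 16705904)))) (c (b (l 16706856) (l 16703712)) (b (l 16704032) (l 16700640)))) (a (b (c (a (l 16709040) (l 16705608)) (a (l 16705944) (l 16702416))) (c (a (l 16705712) (l 16702288)) (a (l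 16702352) (l 16698840)))) (b (c (l 16700480) (l 16697160)) (c (l 16702408) (a (l 16695336) (l 16691864))))))), by decide +kernel⟩

def k23_A00pm_012_s1 : ∃ t, chk3 f_A00pm_012_s1 t 19 31 1 = true :=
  ⟨(b (a (c (b (a (b (l 16711920) (l 16709080)) (a (l 16705528) (l 16702248))) (a (b (l 16706160) (l 16703168)) (b (l 16699512) (l 16696520)))) (b (a (b (c (l 16710424) (l 16709216)) (c (l 16707408) (l 16706088))) (c (b (l 16703648) (l 16700632)) (b (l 16702312) (l 16699176)))) (a (b (c (l 16704320) (l 16702880)) (c (l 16701152) (l 16699592))) (b (c (l 16697536) (l 16695976)) (c (l 16694368) (l 16692688)))))) (c (b (a (c (l 16697896) (l 16696792)) (c (l 16691560) (l 16690360))) (a (c (l 16692128) (l 16690816)) (c (l 16685760) (l 16684352)))) (b (a (c (b (l 16696984) (l 16693960)) (b (l 16695512) (l 16692376))) (c (b (l 16690432) (l 16687392)) (b (l 16688816) (l 16685680)))) (a (c (b (l 16690856) (l 16687688)) (b (l 16689168) (l 16685888))) (c (b (l 16684288) (l 16681112)) (b (l 16682464) (l 16679184)))))))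 (b (c (a (a (b (l 16700096) (l 16696952)) (b (l 16693448) (l 16690304))) (a (c (l 16686088) (l 16684552)) (c (l 16679696) (l 16678072)))) (a (a (b (c (l 16697904) (l 16696232)) (c (l 16694584) (l 16692784))) (b (c (l 16691128) (l 16689336)) (c (l 16687800) (l 16685896)))) (a (c (b (l 16684440) (l 16681128)) (b (l 16682536) (l 16679104))) (c (b (l 16677864) (l 16674552)) (b (l 16675832) (l 16672408)))))) (a (c (b (a (l 16693728) (l 16687080)) (a (l 16690424) (l 16683784))) (a (b (c (l 16691176) (l 16689264)) (c (l 16687688) (l 16685648))) (b (c (l 16684408) (l 16682384)) (c (l 16680928) (l 16678784))))) (c (a (b (l 16680536) (l 16677248)) (b (l 16674104) (l 16670808))) (a (b (c (l 16677736) (l 16675600)) (c (l 16674264) (l 16672016))) (b (c (l 16671160) (l 16668912)) (c (l 16667696) (l 16665336)))))))), by decide +kernel⟩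

def k24_A00pm_012_s1 : ∃ t, chk3 f_A00pm_012_s1 t 80 2 1 = true :=
  ⟨(b (l 3) (l 3)), by decide +kernel⟩

def k25_A00pm_012_s1 : ∃ t, chk3 f_A00pm_012_s1 t 81 4 1 = true :=
  ⟨(l 2), by decide +kernel⟩

def k26_A00pm_012_s1 : ∃ t, chk3 f_A00pm_012_s1 t 81 10 1 = true :=
  ⟨(l 3), by decide +kernel⟩

def k27_A00pm_012_s1 : ∃ t, chk3 f_A00pm_012_s1 t 81 22 1 = true :=
  ⟨(l 3), by decide +kernel⟩

def k28_A00pm_012_s1 : ∃ t, chk3 f_A00pm_012_s1 t 162 23 1 = true :=
  ⟨(b (l 3) (b (l 3) (a (l 3) (c (a (l 533092991) (l 533073023)) (a (c (l 533161855) (l 533189247)) (l 533155455)))))), by decide +kernel⟩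

def k29_A00pm_012_s1 : ∃ t, chk3 f_A00pm_012_s1 t 163 46 1 = true :=
  ⟨(a (l 3) (c (c (a (b (l 3) (b (l 3) (b (a (l 3) (l 532926079)) (a (c (a (b (l 3) (l 532870271)) (a (b (l 3) (l 532865151)) (b (l 532861567) (a (l 532856591) (l 532862223))))) (a (l 532898943) (b (l 532889215) (l 532887311)))) (b (l 532916863) (a (b (l 532897039) (l 532894591)) (l 532925823))))))) (b (l 533085055) (b (l 533043583) (b (l 533023359) (l 533009167))))) (a (b (l 3) (b (l 3) (a (b (l 3) (a (l 532940159) (b (l 532930431) (l 532928271)))) (b (l 532979583) (l 532967951))))) (b (l 533132415) (a (b (l 533059455) (l 533032319)) (l 533105279))))) (a (b (l 3) (b (l 3) (a (b (l 3) (b (a (l 3) (c (l 532972559) (a (l 3) (l 533004047)))) (a (l 533001343) (a (l 532995455) (c (l 532973695) (b (c (l 532995455) (l 533005839)) (l 533006719))))))) (b (l 533033343) (b (l 533023615) (c (l 533004559) (b (l 533029647) (l 533027343)))))))) (b (a (l 3) (l 533204607)) (a (b (l 533106559) (b (l 533085823) (l 533071375))) (l 533144959)))))),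 by decide +kernel⟩

def k30_A00pm_012_s1 : ∃ t, chk3 f_A00pm_012_s1 t 163 47 1 = true :=
  ⟨(a (a (c (b (l 533130879) (l 533053055)) (b (c (l 533066111) (l 533094015)) (l 533132927))) (c (c (l 532972159) (l 533026431)) (b (l 533054335) (l 533110143)))) (c (c (b (a (a (c (b (l 532890127) (l 532925823)) (l 532938623)) (b (c (b (c (l 532882447) (l 532898687)) (l 532899967)) (l 532918287)) (l 532938111))) (b (b (a (l 532957823) (l 533019263)) (l 533044751)) (c (l 532966159) (l 532993919)))) (a (a (l 532990079) (l 532984959)) (b (l 532997391) (l 533020543)))) (b (a (a (l 532978303) (b (b (l 532960127) (l 532969087)) (l 532990591))) (b (b (l 533035535) (l 533025663)) (l 533028479))) (a (l 533037839) (a (l 533045375) (l 533067391))))) (a (b (a (a (l 533037183) (a (l 533031807) (l 533028479))) (b (b (c (l 532999439) (b (l 533026063) (l 533026687))) (a (l 533020031) (l 533028479))) (l 533043327))) (a (l 533092991) (l 533085311))) (a (b (b (b (c (l 533042559) (l 533064319)) (l 533051775)) (l 533060735))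 (l 533092479)) (b (b (b (l 533104255) (l 533092479)) (l 533090943)) (l 533110655)))))), by decide +kernel⟩

def k31_A00pm_012_s1 : ∃ t, chk3 f_A00pm_012_s1 t 41 4 1 = true :=
  ⟨(l 2), by decide +kernel⟩

def k32_A00pm_012_s1 : ∃ t, chk3 f_A00pm_012_s1 t 82 10 1 = true :=
  ⟨(b (l 3) (b (l 3) (a (l 3) (a (l 3) (a (a (l 3) (b (l 3) (c (l 534716799) (c (l 534620287) (a (l 534524031) (l 534561663)))))) (a (b (l 3) (c (l 534812287) (c (l 534703743) (l 534618495)))) (b (a (l 3) (b (l 3) (l 534961535))) (c (l 534909311) (l 534743167))))))))), by decide +kernel⟩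

def k33_A00pm_012_s1 : ∃ t, chk3 f_A00pm_012_s1 t 83 20 1 = true :=
  ⟨(a (b (l 2) (b (a (l 3) (l 2)) (a (l 3) (a (a (l 3) (c (l 536313471) (l 535958143))) (a (c (l 536457599) (l 536077183)) (c (l 536609919) (l 536202879))))))) (b (l 2) (a (a (b (l 2) (a (a (l 536516479) (a (l 536573055) (a (l 536602239) (l 536621951)))) (b (l 2) (c (a (l 536844671) (l 536936831)) (a (l 536393343) (l 536469119)))))) (b (l 2) (b (l 2) (a (a (a (l 536769151) (l 536814719)) (c (l 537129599) (l 536628095))) (a (c (l 537207423) (l 536692351)) (c (l 16777552) (l 536744831))))))) (a (a (b (l 2) (b (l 2) (a (a (a (l 537039231) (l 537050751)) (l 16777400)) (l 2248147399)))) (b (l 2) (b (l 2) (b (l 2) (l 16777496))))) (b (l 2) (b (l 2) (b (l 2) (l 16777648)))))))), by decide +kernel⟩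

def k34_A00pm_012_s1 : ∃ t, chk3 f_A00pm_012_s1 t 166 21 1 = true :=
  ⟨(a (a (b (a (l 3) (a (l 3) (b (l 3) (l 535350143)))) (c (a (b (c (l 535205503) (l 535116927)) (l 535008383)) (b (b (l 535310207) (l 535229055)) (l 535109503))) (a (b (c (l 535018879) (c (l 534939263) (l 534883455))) (l 534825855)) (c (b (l 535111551) (l 534963071)) (b (l 534995839) (l 534854527)))))) (b (a (c (c (l 535694207) (l 535573631)) (l 535377791)) (c (c (l 535819903) (l 535688575)) (l 535477375))) (c (a (b (b (l 535420543) (l 535336575)) (l 535213183)) (b (l 535489407) (l 535319679))) (a (b (b (l 535184255) (l 535108223)) (l 534996351)) (b (l 535238271) (l 535084927)))))) (a (b (a (c (c (l 535949695) (l 535807103)) (l 535580287)) (c (c (l 536084863) (l 535930495)) (l 535687295))) (a (b (c (l 535605119) (l 535334271)) (c (l 535429759) (l 535176319))) (b (c (l 535725183) (l 535433855)) (c (l 535543935) (l 535271039))))) (b (a (c (c (l 536226431) (l 536059775)) (l 535799167)) (c (c (l 536375935) (l 536196223)) (l 535917439)))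 (a (c (b (l 535850879) (l 535662975)) (b (l 535538047) (l 535369855))) (c (b (l 535983487) (l 535788671)) (b (l 535647871) (l 535474047))))))), by decide +kernel⟩

def k35_A00pm_012_s1 : ∃ t, chk3 f_A00pm_012_s1 t 167 42 1 = true :=
  ⟨(a (a (a (c (a (l 536398719) (l 536478079)) (a (l 536009855) (l 536075391))) (b (c (a (l 536674943) (l 536764543)) (a (l 536244095) (l 536318079))) (c (a (l 536452991) (l 536538495)) (a (l 536048511) (l 536119167))))) (a (a (b (c (l 536859007) (c (l 536512639) (l 536278655))) (a (l 536391295) (l 536433791))) (c (c (l 536949375) (l 536718975)) (b (l 536473983) (l 536268927)))) (a (c (b (l 537033855) (l 536800639)) (b (c (l 536663935) (l 536415615)) (l 536335231))) (c (b (l 537101439) (l 536870783)) (b (b (l 536646527) (l 16776872)) (b (l 16776712) (l 16776528))))))) (a (a (b (a (a (c (l 537145727) (a (l 536626559) (l 536638079))) (b (l 16777312) (l 16777208))) (b (l 16777352) (l 16777248))) (a (a (a (l 536669311) (c (l 16777288) (l 536438399))) (b (l 16777072) (l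 16776912))) (b (l 16777112) (l 16776952)))) (a (b (b (b (l 16777432) (l 16777384)) (a (l 16777288) (l 16777312))) (b (l 16777168) (l 16777008))) (b (b (b (l 16777480) (l 16777432)) (l 16777352)) (b (l 16777224) (l 16777064))))) (b (c (b (l 16777976) (l 16777896)) (b (l 16777200) (l 16777072))) (c (l 16777728) (b (l 16776920) (l 16776736)))))), by decide +kernel⟩

def k36_A00pm_012_s1 : ∃ t, chk3 f_A00pm_012_s1 t 167 43 1 = true :=
  ⟨(b (a (a (a (a (l 535912575) (l 535979391)) (a (c (l 536236927) (l 535857535)) (c (l 536318079) (l 535924351)))) (a (a (c (l 536403327) (l 535995007)) (c (l 536490623) (l 536066943))) (a (c (l 536569215) (l 536131711)) (c (l 536639615) (b (l 16776320) (l 16776080)))))) (b (a (a (a (a (a (l 16776680) (l 16776696)) (l 16776720)) (l 16776760)) (l 16776848)) (l 16777008)) (a (a (a (a (l 16776472) (l 16776504)) (l 16776544)) (l 16776632)) (l 16776792)))) (a (a (a (a (l 535723135) (l 535786367)) (a (l 535852415) (c (l 536104575) (l 535735423)))) (a (a (b (l 536045839) (l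 16775704)) (b (l 16776048) (l 16775768))) (a (c (l 16778944) (l 535932031)) (c (l 16776408) (c (l 16775848) (l 16775472)))))) (b (a (a (a (a (l 16776224) (l 16776248)) (l 16776296)) (l 16776384)) (l 16776552)) (a (a (a (a (l 16775936) (l 16775968)) (l 16776016)) (l 16776104)) (l 16776272))))), by decide +kernel⟩

def k37_A00pm_012_s1 : ∃ t, chk3 f_A00pm_012_s1 t 82 22 1 = true :=
  ⟨(a (a (a (l 3) (b (l 3) (b (l 3) (c (l 533449087) (l 533472895))))) (b (l 3) (c (a (b (c (b (l 3) (l 533645951)) (l 533679231)) (l 533590911)) (b (c (b (l 533848191) (l 533801343)) (l 533823871)) (c (l 533732991) (l 533734271)))) (a (b (a (l 3) (l 533705343)) (l 533592191)) (b (a (l 533768575) (l 533832575)) (l 533713279)))))) (a (b (b (b (l 3) (a (l 3) (a (l 3) (c (l 534376575) (c (l 534310783) (l 534252671)))))) (a (c (a (b (l 3) (l 534016127)) (c (l 534130047) (l 534111615))) (a (b (l 3) (l 533969279)) (c (l 534081151) (b (l 534064511) (l 534014335))))) (c (a (c (l 534215807) (l 534190207)) (l 534287743)) (a (c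 (l 534153087) (l 534104447)) (c (l 534225791) (l 534170751)))))) (a (c (a (b (l 533940351) (l 533844863)) (b (l 534017919) (l 533918847))) (b (a (l 533896831) (l 533961855)) (l 533836415))) (c (b (c (l 534147711) (l 534121599)) (c (l 534042239) (l 534018431))) (b (a (l 534027647) (l 534093951)) (l 533962111))))) (a (a (b (c (b (l 534494079) (l 534371967)) (b (c (l 534415999) (b (l 534379903) (l 534322303))) (l 534270079))) (c (b (l 534255743) (l 534145919)) (l 534107007))) (b (c (b (l 534583679) (l 534457215)) (b (c (l 534494335) (l 534421631)) (l 534341503))) (c (b (l 534337151) (l 534223487)) (l 534173311)))) (b (c (a (b (l 534674815) (l 534543999)) (l 534696319)) (a (b (l 534535295) (l 534413951)) (b (l 534612607) (l 534487679)))) (c (a (l 534357887) (l 534439807)) (a (l 534240639) (l 534309247))))))), by decide +kernel⟩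

def k38_A00pm_012_s1 : ∃ t, chk3 f_A00pm_012_s1 t 164 23 1 = true :=
  ⟨(b (c (c (a (a (b (c (l 533211519) (l 533233279)) (l 533160831)) (b (b (a (l 533345151) (l 533416063)) (l 533345663)) (a (l 533260415) (l 533327487)))) (b (a (b (l 533523839) (l 533485439)) (l 533647231)) (a (c (l 533423487) (l 533433727)) (l 533566335)))) (a (a (b (l 533259135) (l 533196415)) (b (l 533387391) (l 533319039))) (b (a (l 533517439) (l 533649535)) (a (l 533443199) (l 533569407))))) (a (a (b (l 533288063) (l 533224831)) (b (a (l 533372543) (l 533429119)) (l 533332351))) (a (b (l 533514879) (l 533441407)) (b (l 533630591) (l 533551999))))) (c (a (c (b (b (a (b (c (l 533109631) (l 533130623)) (l 533092991)) (b (l 533248895) (l 533219967))) (a (l 533075215) (l 533188991))) (a (a (l 533055615) (l 533095551)) (a (l 533140351) (l 533188991)))) (b (b (a (b (l 533156223) (l 533130879)) (l 533265535)) (a (l 533115007) (l 533218687))) (a (l 533115007) (l 533196159)))) (c (b (b (a (c (l 533364863) (l 533375615)) (l 533503359))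 (a (l 533311871) (l 533440895))) (a (c (l 533259647) (l 533274239)) (l 533513855))) (b (b (a (l 533385855) (l 533507967)) (a (l 533331327) (l 533449599))) (a (l 533290367) (l 533393023))))) (a (b (b (a (b (l 533184783) (l 533162879)) (b (l 533289087) (l 533264767))) (a (l 533149311) (l 533239679))) (a (b (l 533148031) (l 533156735)) (l 533220735))) (b (b (a (l 533385599) (l 533492607)) (a (l 533337727) (l 533440895))) (a (l 533302143) (l 533391231)))))), by decide +kernel⟩

def k39_A00pm_012_s1 : ∃ t, chk3 f_A00pm_012_s1 t 165 23 1 = true :=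
  ⟨(b (a (c (b (a (l 533790079) (l 533932927)) (a (c (l 533705599) (l 533697663)) (l 533839231))) (a (b (l 533748095) (l 533664383)) (b (l 533867903) (l 533778559)))) (a (c (b (l 534078847) (l 533978495)) (b (l 533990271) (l 533895295))) (c (b (l 534228863) (l 534121087)) (b (l 534115711) (l 534014591))))) (a (c (b (a (b (l 533635967) (c (l 533574271) (l 533572223))) (b (l 533768319) (l 533705855))) (a (c (l 533498751) (l 533502079)) (c (l 533623679) (l 533616255)))) (b (a (b (l 533600895) (l 533547903)) (b (l 533711743) (l 533657471))) (a (l 533486207) (l 533585535)))) (c (b (a (b (l 533902975) (l 533839487)) (a (l 533975423) (l 534043007))) (a (c (l 533753471) (l 533735295)) (c (l 533888127) (l 533858687)))) (b (a (l 533799039) (l 533912959)) (a (l 533689215) (l 533796479)))))), by decide +kernel⟩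

def k40_A00pm_012_s1 : ∃ t, chk3 f_A00pm_012_s1 t 166 22 1 = true :=
  ⟨(a (a (a (b (c (l 534788479) (l 534624127)) (c (l 534523007) (l 534378623))) (b (c (l 534882175) (b (l 534771327) (l 534638975))) (c (l 534607743) (l 534449535)))) (b (a (c (l 534978431) (l 534782335)) (c (l 535076991) (l 534864511))) (a (c (l 534694271) (l 534521727)) (c (l 534783103) (l 534595711))))) (c (a (b (a (b (l 535262079) (l 535102335)) (b (l 535370367) (l 535204735))) (a (l 534874239) (l 534968447))) (a (b (b (l 535483263) (l 535311487)) (l 535065983)) (b (a (l 535478655) (l 535537535)) (b (l 535253119) (l 535091071))))) (a (b (a (l 534948991) (l 535036543)) (a (l 534671743) (l 534750079))) (b (a (l 535127679) (l 535223167)) (a (l 534831231) (b (l 534992767) (l 534846335))))))), by decide +kernel⟩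

def k41_A00pm_012_s1 : ∃ t, chk3 f_A00pm_012_s1 t 166 23 1 = true :=
  ⟨(a (b (a (c (b (l 534383487) (a (l 534229631) (l 534304127))) (b (l 534245247) (l 534137471))) (a (c (b (l 534501759) (l 534380159)) (l 534284927)) (c (b (l 534583679) (l 534457727)) (l 534351487)))) (c (a (b (a (l 534112895) (l 534184319)) (a (l 533973375) (l 534041471))) (b (a (l 534256511) (l 534330495)) (a (l 534110847) (l 534315647)))) (b (a (l 534029439) (b (l 16768960) (l 16768152))) (a (b (l 16767640) (l 16766744)) (b (l 16767288) (l 16766384)))))) (b (a (a (c (b (l 534667647) (l 534537087)) (b (l 534482047) (l 534361983))) (c (b (l 534754175) (l 534618495)) (b (l 534554239) (l 534430079)))) (a (b (c (l 534843519) (l 534628735)) (c (l 534702719) (l 534500223))) (b (c (l 534936959) (l 534706303)) (c (b (l 16770616) (l 16769936)) (b (l 16769912) (l 16769200)))))) (a (b (a (c (l 534405759) (l 534243199)) (c (l 534483071) (l 534307711))) (c (a (b (l 16767624) (l 16766704)) (b (l 16767568) (l 16766656))) (b (c (l 16767160)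 (l 16766840)) (l 16768720)))) (b (a (c (b (l 16769208) (l 16768408)) (c (l 16768312) (l 16767944))) (c (b (l 16769208) (l 16768416)) (b (l 16768456) (l 16767648)))) (a (c (c (l 16767248) (l 16766936)) (c (l 16766592) (l 16766224))) (c (b (l 16767560) (l 16766640)) (c (l 16769160) (l 16766128)))))))), by decide +kernel⟩

def k42_A00pm_012_s1 : ∃ t, chk3 f_A00pm_012_s1 t 167 44 1 = true :=
  ⟨(b (c (a (a (a (l 535997055) (b (l 16775600) (l 16775272))) (a (a (l 16775552) (l 16775640)) (a (l 16775728) (l 16775816)))) (a (a (a (a (l 16775880) (l 16775928)) (l 16775992)) (l 16776120)) (l 16776368))) (a (a (a (l 535411839) (b (l 16775016) (l 16774656))) (a (a (l 535614847) (l 535678591)) (a (l 535738239) (c (l 16775208) (l 16774792))))) (a (a (a (a (l 16775024) (l 16775048)) (l 16775072)) (l 16775120)) (l 16775216)))) (c (a (a (a (l 535542655) (c (l 16774872) (l 16774552))) (a (b (l 16775056) (l 16774664)) (a (l 16775000) (l 16775088)))) (a (a (a (a (l 16775160) (l 16775200)) (l 16775264)) (l 16775392))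 (l 16775648))) (a (a (a (l 535245183) (b (l 16774256) (l 16773832))) (a (a (l 16774088) (l 16774128)) (a (l 16774168) (l 16774200)))) (a (a (a (a (l 16774232) (l 16774248)) (l 16774280)) (l 16774328)) (l 16774424))))), by decide +kernel⟩

def k43_A00pm_012_s1 : ∃ t, chk3 f_A00pm_012_s1 t 167 45 1 = true :=
  ⟨(b (a (a (a (a (l 535200383) (l 535252863)) (a (b (l 16773712) (l 16773232)) (c (l 16773880) (l 16773136)))) (a (a (c (l 16773960) (l 16773160)) (c (l 16774048) (l 16773200))) (a (c (l 16774136) (l 16773240)) (c (l 16774224) (l 16773272))))) (b (a (a (a (a (l 16774040) (l 16774072)) (l 16774112)) (l 16774208)) (l 16774376)) (a (a (a (a (l 16773552) (l 16773584)) (l 16773632)) (l 16773720)) (l 16773896)))) (c (a (a (a (b (l 16773024) (l 16772488)) (b (l 16773112) (l 16772576))) (a (b (l 16773264) (l 16772720)) (a (l 16773136) (l 16773224)))) (a (a (a (a (l 16773288) (l 16773328)) (l 16773392)) (l 16773520)) (l 16773776))) (a (a (a (b (l 16772336) (l 16771776)) (b (l 16772336) (l 16771776)))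 (a (b (l 16772392) (l 16771824)) (a (l 535200127) (b (l 16772488) (l 16771912))))) (a (a (a (a (l 16772232) (l 16772248)) (l 16772272)) (a (l 16772312) (l 16772344))) (b (l 16772696) (l 16772120)))))), by decide +kernel⟩

def k44_A00pm_012_s1 : ∃ t, chk3 f_A00pm_012_s1 t 167 46 1 = true :=
  ⟨(b (c (b (a (a (a (l 16771912) (l 16772000)) (a (l 16772152) (a (l 16772280) (l 16772368)))) (a (a (a (a (l 16772432) (l 16772472)) (l 16772536)) (l 16772664)) (l 16772920))) (a (a (a (l 16771304) (l 16771392)) (a (c (l 16771768) (l 16771304)) (a (l 16771664) (l 16771752)))) (a (a (a (a (l 16771816) (l 16771864)) (l 16771928)) (l 16772048)) (l 16772296)))) (b (a (a (a (l 16771176) (l 16771176)) (a (b (l 16771376) (l 16771064)) (a (l 16771272) (l 16771312)))) (a (a (a (a (l 16771336) (l 16771352)) (l 16771376)) (l 16771424)) (l 16771512))) (a (a (a (l 16770536) (l 16770536)) (a (b (l 16770744) (l 16770416)) (a (l 16770632) (l 16770664)))) (a (a (a (a (l 16770696) (l 16770712)) (l 16770736)) (l 16770776)) (l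 16770864))))) (c (b (a (a (a (l 16770664) (l 16770744)) (a (c (l 16771120) (l 16770656)) (a (l 16771016) (l 16771104)))) (a (a (a (a (l 16771168) (l 16771208)) (l 16771272)) (l 16771392)) (l 16771640))) (a (a (a (l 16769984) (l 16770064)) (a (c (l 16770440) (l 16769960)) (a (l 16770328) (l 16770416)))) (a (a (a (a (l 16770480) (l 16770520)) (l 16770576)) (l 16770704)) (l 16770944)))) (b (a (a (a (l 16769872) (l 16769864)) (a (b (l 16770080) (l 16769736)) (a (l 16769960) (l 16769992)))) (a (a (a (a (l 16770016) (l 16770032)) (l 16770048)) (l 16770096)) (l 16770176))) (a (a (a (l 16769160) (l 16769160)) (a (b (l 16769376) (l 16769016)) (a (l 16769240) (l 16769272)))) (a (a (a (a (l 16769296) (l 16769312)) (l 16769336)) (l 16769376)) (l 16769448)))))), by decide +kernel⟩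

def k45_A00pm_012_s1 : ∃ t, chk3 f_A00pm_012_s1 t 167 47 1 = true :=
  ⟨(b (c (a (a (a (b (l 16769256) (l 16768464)) (b (l 16769336) (l 16768544))) (a (a (b (l 16769432) (l 16768640)) (b (l 16769512) (l 16768720))) (a (b (l 16769600) (l 16768800)) (b (l 16769680) (l 16768880))))) (b (a (a (a (a (l 16769744) (l 16769784)) (l 16769840)) (l 16769960)) (l 16770208)) (a (a (a (a (l 16768936) (l 16768984)) (l 16769040)) (l 16769160)) (l 16769400)))) (a (a (a (b (l 16768416) (l 16767608)) (a (b (l 16768408) (l 16767600)) (b (l 16768408) (l 16767608)))) (a (a (b (l 16768432) (l 16767624)) (b (l 16768456) (l 16767648))) (a (b (l 16768488) (l 16767680)) (b (l 16768512) (l 16767704))))) (b (a (a (a (a (l 16768536) (l 16768552)) (l 16768576)) (l 16768616)) (l 16768688)) (a (a (a (a (l 16767728) (l 16767736)) (l 16767760)) (l 16767800)) (l 16767864))))) (c (a (a (a (b (l 16767600) (l 16766680)) (b (l 16767680) (l 16766760))) (a (a (b (l 16767776) (l 16766848)) (b (l 16767856) (l 16766928))) (a (b (l 16767936)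 (l 16767000)) (b (l 16768016) (l 16767080))))) (b (a (a (a (a (l 16768072) (l 16768112)) (l 16768176)) (l 16768288)) (l 16768528)) (a (a (a (a (l 16767136) (l 16767176)) (l 16767240)) (l 16767352)) (l 16767584)))) (a (a (a (b (l 16766752) (l 16765832)) (a (c (l 16766528) (l 16766040)) (b (l 16766744) (l 16765824)))) (a (a (b (l 16766760) (l 16765840)) (b (l 16766784) (l 16765864))) (a (b (l 16766808) (l 16765888)) (b (l 16766840) (l 16765912))))) (b (a (a (a (a (l 16766856) (l 16766872)) (l 16766888)) (l 16766928)) (l 16766992)) (a (a (a (a (l 16765936) (l 16765944)) (l 16765960)) (a (l 16765984) (l 16766008))) (c (l 16766448) (l 16765664))))))), by decide +kernel⟩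

def k46_A00pm_012_s1 : ∃ t, chk3 f_A00pm_012_s1 t 21 4 1 = true :=
  ⟨(l 2), by decide +kernel⟩

def k47_A00pm_012_s1 : ∃ t, chk3 f_A00pm_012_s1 t 21 10 1 = true :=
  ⟨(b (a (b (l 2) (a (a (a (b (l 2) (b (l 2) (b (l 2) (l 16777944)))) (l 2)) (l 2)) (l 2))) (l 2)) (a (a (b (c (b (b (a (l 16778696) (l 16779840)) (a (l 16778624) (l 16779768))) (b (a (l 16778520) (l 16779672)) (a (l 16778392) (l 16779552)))) (b (b (a (c (l 16777776) (l 16777168)) (c (l 16778408) (l 16777448))) (a (c (l 16777664) (l 16777032)) (c (l 16778288) (l 16777304)))) (b (a (c (l 16777528) (l 16776864)) (l 16777640)) (a (l 16777016) (l 16777456))))) (c (b (b (a (l 16778240) (l 16779400)) (a (l 16778048) (l 16779216))) (b (a (l 16777832) (l 16779000)) (l 16778168))) (b (b (a (l 16776808) (l 16777248)) (a (l 16776576) (l 16777008))) (b (a (l 16776312) (l 16776736)) (a (l 16776008) (l 16776432)))))) (a (b (b (a (b (l 2) (l 1711275159)) (l 2)) (c (b (l 16780840) (l 16780712)) (b (l 16778104) (l 16777920)))) (b (c (b (l 16780560)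 (l 16780384)) (b (l 16777696) (l 16777448))) (b (l 16778664) (l 16778392)))) (b (b (l 2) (c (b (l 16782040) (l 16781912)) (b (l 16778616) (l 16778416)))) (b (b (a (l 16779752) (l 16780184)) (l 16777128)) (b (l 16779496) (l 16779208)))))) (a (b (a (a (b (l 2) (b (l 2) (l 16780816))) (l 2)) (l 2)) (b (a (c (l 16782896) (b (l 16778720) (l 16778448))) (b (l 16776520) (l 16781528))) (c (b (l 16783208) (l 16782952)) (b (l 16778424) (l 16778088))))) (b (l 2) (b (a (b (l 2) (l 16782488)) (l 2)) (c (b (l 16785808) (l 16785552)) (b (l 16779632) (l 16779272)))))))), by decide +kernel⟩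

def k48_A00pm_012_s1 : ∃ t, chk3 f_A00pm_012_s1 t 42 11 1 = true :=
  ⟨(b (a (b (c (b (b (l 16777888) (l 16777576)) (b (l 16777224) (l 16776832))) (a (b (b (l 16775680) (l 16775312)) (b (l 16774920) (l 16774480))) (b (b (l 16776096) (l 16775728)) (b (l 16775328) (l 16774888))))) (a (b (b (l 16774912) (a (l 16774216) (l 16774624))) (c (b (l 16774832) (l 16774296)) (b (l 16772968) (l 16772384)))) (b (b (l 16775704) (l 16775208)) (b (l 16774680) (l 16774112))))) (b (b (c (b (l 16780232) (l 16779912)) (b (l 16776744) (l 16776360))) (c (b (l 16779560) (l 16779176)) (b (l 16775944) (l 16775488)))) (b (c (b (l 16778744) (l 16778272)) (b (l 16775000) (l 16774472))) (b (c (l 16777760) (l 16773904)) (c (l 16777208) (l 16773296)))))) (b (a (b (b (a (c (l 16773712) (l 16771768)) (l 16773504)) (a (c (l 16773088) (l 16771104)) (c (l 16774264) (l 16771456)))) (b (a (c (l 16772424) (l 16770408)) (c (l 16773592) (l 16770744))) (a (c (l 16771720) (a (l 16769592) (l 16769760))) (c (l 16772880) (l 16769992)))))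 (b (b (c (l 16776616) (l 16772640)) (c (l 16775976) (l 16771952))) (b (a (l 16772888) (l 16773616)) (c (l 16774568) (l 16770440))))) (a (a (b (c (b (c (l 16771480) (l 16770456)) (c (l 16770672) (l 16769640))) (b (a (l 16768816) (l 16768976)) (a (l 16767992) (l 16768136)))) (c (b (a (l 16768984) (l 16769568)) (a (l 16768040) (l 16768616))) (b (a (l 16767104) (l 16767248)) (a (l 16766168) (l 16766304))))) (b (c (b (l 16772120) (l 16771296)) (b (l 16769192) (l 16768344))) (c (b (l 16770400) (l 16769448)) (b (l 16767440) (l 16766480))))) (c (b (b (l 16773784) (l 16772944)) (b (l 16772040) (l 16771064))) (b (a (b (l 16769480) (l 16768616)) (l 16774584)) (a (b (l 16767696) (l 16766720)) (l 16767472))))))), by decide +kernel⟩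

def k49_A00pm_012_s1 : ∃ t, chk3 f_A00pm_012_s1 t 43 11 1 = true :=
  ⟨(b (b (b (a (b (c (l 16782664) (l 16777728)) (c (l 16782344) (l 16777320))) (b (c (l 16785256) (l 16778888)) (c (l 16784920) (l 16778464)))) (a (b (c (l 16781984) (l 16776888)) (c (l 16781584) (l 16776408))) (b (c (l 16784552) (l 16778000)) (c (l 16784144) (l 16777504))))) (b (a (b (c (l 16781144) (l 16775896)) (c (l 16780664) (l 16775344))) (b (c (l 16783688) (l 16776968)) (l 16779776))) (b (a (c (l 16780136) (l 16774744)) (l 16779192)) (a (c (l 16779576) (l 16774112)) (l 16778576))))) (b (b (b (a (c (l 16778968) (l 16773432)) (c (l 16781456) (l 16774400))) (a (c (l 16778312) (l 16772712)) (l 16782440))) (a (c (b (l 16777608) (l 16776856)) (b (l 16771952) (l 16771144))) (b (l 16781680) (c (l 16779296) (l 16772016))))) (b (b (a (c (l 16776056) (l 16770288)) (c (l 16778472) (l 16771120))) (a (c (l 16775192) (l 16769376)) (l 16779104))) (a (b (c (l 16774264) (l 16768416)) (c (l 16773264) (l 16767392))) (b (l 16783368) (l 16771840)))))),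 by decide +kernel⟩

def k50_A00pm_012_s1 : ∃ t, chk3 f_A00pm_012_s1 t 11 4 1 = true :=
  ⟨(l 2), by decide +kernel⟩

def k51_A00pm_012_s1 : ∃ t, chk3 f_A00pm_012_s1 t 11 10 1 = true :=
  ⟨(a (b (l 2) (b (l 2) (a (a (a (b (l 2) (b (l 2) (l 16783936))) (l 2)) (l 2)) (l 2)))) (l 2)), by decide +kernel⟩

def k52_A00pm_012_s1 : ∃ t, chk3 f_A00pm_012_s1 t 11 11 1 = true :=
  ⟨(a (b (b (a (b (b (a (c (l 16788016) (l 16780248)) (l 2)) (a (c (l 16787672) (l 16779800)) (c (l 16790616) (l 16781344)))) (a (b (c (l 16787296) (l 16779320)) (c (l 16786880) (l 16778800))) (b (c (l 16790232) (l 16780848)) (c (l 16789808) (l 16780304))))) (a (b (l 2) (b (l 2) (l 16784832))) (l 2))) (a (b (a (b (l 16782304) (l 16781752)) (b (l 16784504) (l 16783936))) (b (a (l 16781152) (l 16783320)) (a (l 16780512) (l 16782656)))) (b (a (b (l 16786912) (l 16786328)) (c (l 16795520) (l 1711298135))) (a (c (l 16791064) (l 16784968)) (c (l 16794376) (l 16781608)))))) (b (a (b (a (b (l 16779824) (l 16779088)) (c (l 16786656) (l 16787048)))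 (a (b (l 16783544) (l 16782712)) (c (l 16785144) (l 16774848)))) (b (a (c (l 16789728) (l 16778160)) (c (l 16793024) (l 16780000))) (a (c (l 16788192) (l 16776400)) (c (l 16791464) (l 16778192))))) (a (b (a (b (l 16787072) (l 16775640)) (b (l 16778624) (l 16777648))) (a (b (l 16774640) (l 16773568)) (c (l 16781416) (l 16770808)))) (b (a (c (l 16786432) (l 16774432)) (c (l 16789672) (l 16776176))) (a (b (l 16778824) (l 16777704)) (c (l 16787600) (l 16773920))))))) (b (a (b (l 2) (b (l 2) (a (c (l 16797896) (l 16783720)) (l 2)))) (l 2)) (b (a (b (a (c (l 16796544) (l 16782080)) (c (l 16800288) (l 16784400))) (a (c (l 16794968) (l 16780232)) (c (l 16798704) (l 16782520)))) (b (l 2) (a (c (l 16802672) (l 16785056)) (l 2)))) (a (b (a (c (l 16793152) (l 16778160)) (c (l 16796872) (l 16780408))) (a (c (l 16791056) (l 16775856)) (c (l 16794752) (l 16778056)))) (b (a (c (l 16800840) (l 16782912)) (l 7616913223)) (a (c (l 16798704) (l 16780520)) (l 16803504))))))), by decide +kernel⟩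

def k53_A00pm_012_s1 : ∃ t, chk3 f_A00pm_012_s1 t 80 12 1 = true :=
  ⟨(b (a (a (b (l 3) (l 3)) (b (l 3) (b (l 3) (c (c (l 533257855) (l 533314431)) (a (c (l 533360767) (l 533386623)) (l 533365631)))))) (b (a (l 3) (b (l 3) (c (a (b (l 3) (l 533227535)) (l 533209215)) (a (b (l 3) (a (l 3) (l 533307007))) (l 533290879))))) (a (c (b (c (l 533227135) (l 533283967)) (l 533271679)) (b (a (b (l 3) (l 533349247)) (b (l 533331327) (l 533337727))) (a (l 533355647) (l 533345919)))) (c (b (a (l 533242495) (l 533232767)) (l 533256207)) (b (a (a (l 533325439) (l 533319551)) (l 533310591)) (a (l 533336447) (l 533326975))))))) (a (b (c (b (a (c (l 533279103) (l 533335679)) (l 533295999)) (a (b (l 533311871) (a (l 533315711) (l 533310847))) (l 533302399))) (b (a (a (c (l 533380735) (l 533406335)) (l 533387135)) (a (l 533378943) (l 533370751))) (a (b (l 533390719) (a (l 533393279) (l 533387135))) (l 533377151)))) (c (b (a (a (l 533315967) (l 533312383)) (l 533307519)) (a (l 533315455) (l 533311871))) (a (b (a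 (l 533390719) (l 533385855)) (l 533385599)) (b (l 533378431) (l 533378687))))) (b (a (c (l 533287807) (b (l 533358975) (l 533365375))) (c (l 533279103) (b (l 533344127) (l 533354623)))) (a (b (c (l 533303167) (l 533369983)) (l 533348879)) (b (c (l 533300351) (l 533362815)) (l 533346831)))))), by decide +kernel⟩

def k54_A00pm_012_s1 : ∃ t, chk3 f_A00pm_012_s1 t 81 12 1 = true :=
  ⟨(b (a (b (a (c (a (b (l 533166463) (l 533196671)) (b (l 533150591) (l 533184127))) (a (b (c (l 533235071) (l 533261951)) (l 533276287)) (b (l 533232511) (l 533261695)))) (c (a (l 533152383) (l 533138303)) (a (b (l 533214591) (l 533247103)) (l 533213567)))) (a (b (c (a (l 533223039) (l 533213567)) (a (l 533298559) (l 533287039))) (c (l 533242751) (l 533312895))) (b (c (l 533199743) (l 533269375)) (c (l 533230207) (l 533295231))))) (a (b (c (a (l 533124479) (l 533110399)) (a (l 533197183) (l 533180543))) (c (b (l 533182847) (l 533219455)) (b (l 533246591) (l 533278591)))) (b (c (a (c (l 533072767) (l 533119359)) (c (l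 533081215) (l 533124735))) (a (a (l 533168255) (l 533161855)) (l 533165951))) (c (a (l 533191295) (l 533196415)) (a (l 533248127) (l 533248639)))))) (a (b (a (c (l 533272447) (l 533336447)) (c (l 533267583) (l 533326207))) (a (c (l 533305727) (l 533361279)) (c (l 533309567) (l 533359231)))) (a (b (c (l 533265023) (l 533317503)) (c (l 533316223) (l 533359231))) (a (b (l 533295231) (l 533348735)) (b (l 533300095) (l 533356159)))))), by decide +kernel⟩

def k55_A00pm_012_s1 : ∃ t, chk3 f_A00pm_012_s1 t 40 13 1 = true :=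
  ⟨(a (b (b (a (b (a (c (l 533321599) (l 533386367)) (c (l 533320831) (l 533382015))) (a (l 533366143) (l 533367679))) (b (c (l 533321743) (l 533377039)) (c (l 533340031) (l 533387279)))) (a (a (l 533624847) (b (l 533368191) (l 533363583))) (c (a (l 533347199) (l 533359999)) (a (l 533386879) (l 533395071))))) (a (a (b (l 533334911) (a (l 533306239) (l 533315199))) (b (l 533349759) (l 533329023))) (c (b (l 533622911) (l 533346687)) (b (l 533378175) (b (l 16745424) (l 16741912)))))) (b (a (b (c (b (l 533335167) (l 533357439)) (b (l 533379967) (l 533395327))) (c (b (l 533377407) (l 16756648)) (b (l 533408127) (l 16751576)))) (b (a (c (l 533363071) (l 533395071)) (c (b (l 16755024) (l 16752592)) (l 533405823))) (a (b (l 533420159) (l 16749112)) (b (l 16750184) (l 16747544))))) (a (b (c (b (l 16748488) (l 16745424)) (b (l 16748624) (l 16745512))) (c (b (l 16742208) (l 16738832)) (b (l 16742240) (l 16738792)))) (b (a (b (l 16746256) (l 16743240)) (b (l 16744744) (l 16741784))) (c (b (l 16739344) (l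 16736072)) (a (b (l 16739960) (l 16736584)) (b (l 16738520) (l 16735184)))))))), by decide +kernel⟩

def k56_A00pm_012_s1 : ∃ t, chk3 f_A00pm_012_s1 t 82 24 1 = true :=
  ⟨(a (a (a (b (c (b (c (l 533103231) (l 533142399)) (l 533162111)) (b (l 533177727) (l 533212543))) (c (l 533219455) (l 533264511))) (b (c (b (c (l 533170047) (l 533202559)) (c (l 533194111) (l 533225855))) (b (l 533228415) (l 533251199))) (c (l 533256063) (l 533292415)))) (c (b (a (c (b (l 533251711) (l 533260159)) (b (l 533276799) (l 533285503))) (c (b (l 533344383) (l 533337215)) (b (l 533361023) (l 533355135)))) (a (b (l 533293695) (l 533318271)) (b (l 533355647) (l 533371263)))) (b (a (b (l 533291903) (l 533301631)) (b (l 533364351) (l 533361023))) (a (b (l 533320319) (l 16763312)) (b (l 533369983) (l 16762568)))))) (a (c (b (a (c (b (l 533445503) (l 533423231)) (b (l 533453183) (l 533433215))) (c (b (l 533553535) (l 533516415)) (b (l 533551999) (l 533518207)))) (a (b (l 533425791) (l 533431935)) (c (b (l 533499775) (l 16761280))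 (l 533499007)))) (b (a (c (l 533436799) (l 533424255)) (c (l 533519999) (l 533499263))) (a (b (l 533426815) (l 16761880)) (b (l 16765808) (l 16761248))))) (c (b (a (c (b (l 533667967) (l 533616511)) (b (l 533656447) (l 16767232))) (c (b (l 533788031) (l 533722751)) (b (l 533766015) (l 16766776)))) (a (c (b (l 16765360) (l 16760784)) (l 533573503)) (c (b (l 16764936) (l 16760360)) (b (l 16762256) (l 16760312))))) (b (a (c (l 533608575) (l 533579647)) (c (l 533970815) (l 533664383))) (a (b (l 16765224) (l 16760664)) (b (l 16764704) (l 16760136))))))), by decide +kernel⟩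

def k57_A00pm_012_s1 : ∃ t, chk3 f_A00pm_012_s1 t 82 25 1 = true :=
  ⟨(a (a (c (b (c (l 533288575) (l 533316735)) (l 533362559)) (b (l 533337471) (l 533387391))) (c (b (a (l 533355647) (l 533399167)) (b (l 533414015) (l 16754368))) (b (l 533393535) (l 533433727)))) (c (a (a (b (b (l 16762496) (l 16757800)) (l 533481855)) (b (b (l 16761920) (l 16757232)) (l 533526911))) (b (a (b (l 16758784) (l 16756720)) (b (l 16758336) (l 16756264))) (b (c (l 16754344) (l 16754320)) (l 16752128)))) (a (a (b (l 533450623) (l 533479295)) (b (l 533763711) (l 533515391))) (b (b (c (l 16758440) (l 16758304)) (l 16761544)) (b (l 16754152) (l 16751920)))))), by decide +kernel⟩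

def k58_A00pm_012_s1 : ∃ t, chk3 f_A00pm_012_s1 t 82 13 1 = true :=
  ⟨(a (b (b (a (c (l 533416319) (l 533431167)) (c (b (l 16752064) (l 16749712)) (l 533740159))) (a (b (l 16748672) (l 16746080)) (b (l 16747304) (l 16744752)))) (b (a (b (l 16743336) (l 16740432)) (b (l 16742048) (c (l 16739288) (l 16738976)))) (c (b (l 16736848) (c (l 16733696) (l 16733608))) (a (b (l 16737160) (b (l 16734704) (l 16733008))) (c (b (l 16736056) (l 16732776)) (b (l 16735704) (b (l 16733232) (l 16731488)))))))) (b (a (b (c (b (l 16750864) (l 16748528)) (b (l 16750776) (l 16748392))) (b (l 16746080) (l 16743552))) (b (a (b (l 16750032) (l 16747688)) (b (l 16749536) (l 16747192))) (b (l 16745008) (c (l 16742672) (l 16742232))))) (c (b (b (l 16745760) (a (l 16738240) (l 16737304))) (b (a (l 16735272) (l 16734272)) (c (l 16731560) (l 16731288)))) (a (b (b (l 16740656) (l 16737776)) (b (b (l 16735504) (a (l 16734208) (l 16733624))) (c (l 16731536) (b (l 16731936) (l 16730064))))) (b (b (l 16739544) (c (l 16736872) (b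 (l 16737184) (l 16735680)))) (b (c (l 16733736) (b (c (l 16734216) (l 16733928)) (l 16732336))) (c (l 16730184) (l 16729568)))))))), by decide +kernel⟩

def k59_A00pm_012_s1 : ∃ t, chk3 f_A00pm_012_s1 t 166 24 1 = true :=
  ⟨(a (c (b (a (c (a (l 533837439) (l 533898111)) (b (l 533880959) (l 16763776))) (a (b (l 533991039) (l 533905791)) (b (l 534055295) (l 533963647)))) (a (c (b (l 16761976) (l 16760008)) (b (l 16761872) (l 16759912))) (a (b (l 533845375) (l 16759736)) (b (l 533897087) (l 16759608))))) (b (b (a (c (l 16765480) (l 16765280)) (c (l 16767752) (l 16764880))) (a (l 534020735) (c (l 16763264) (l 16763016)))) (a (b (l 533709951) (l 16759664)) (b (c (l 16761344) (l 16761096)) (l 16759256))))) (a (b (b (c (a (l 534121087) (c (l 16765384) (l 16765120))) (b (l 16765184) (l 16764248))) (c (b (l 16766472) (l 16762896)) (c (l 16762984) (l 16762672)))) (c (a (b (l 533950591) (l 16759496)) (b (l 534273919) (l 16759408))) (a (b (l 16760976) (l 16759000)) (b (l 16760832) (l 16758848))))) (c (b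 (a (b (c (l 16765368) (l 16765072)) (c (l 16763448) (l 16763160))) (b (c (l 16765384) (l 16765048)) (c (l 16763448) (l 16763128)))) (b (b (l 16764440) (l 16760824)) (a (l 16759344) (l 16759304)))) (b (b (a (c (l 16764736) (l 16764368)) (c (l 16764672) (l 16764272))) (b (c (l 16763272) (l 16762888)) (l 16762120))) (a (b (l 16760712) (l 16758712)) (b (l 16763232) (l 16758600))))))), by decide +kernel⟩

def k60_A00pm_012_s1 : ∃ t, chk3 f_A00pm_012_s1 t 166 25 1 = true :=
  ⟨(a (c (a (b (b (l 16757952) (l 16755880)) (b (l 16753736) (l 16751520))) (b (b (l 16760264) (l 16755552)) (b (l 16753400) (l 16751176)))) (b (a (b (l 16757648) (l 16755568)) (b (l 16757232) (l 16755136))) (b (a (l 16753408) (l 16752968)) (l 16750936)))) (c (a (b (b (c (l 16757504) (l 16757288)) (l 16755304)) (b (l 16753136) (l 16750896))) (b (a (b (l 16757280) (l 16755168)) (b (l 16757232) (l 16755096))) (b (l 16752936) (l 16750680)))) (a (b (b (l 16756872) (l 16754760)) (b (l 16752584) (l 16750328))) (b (b (a (l 16756648) (l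 16756528)) (l 16754456)) (b (l 16752256) (l 16749984)))))), by decide +kernel⟩

def k61_A00pm_012_s1 : ∃ t, chk3 f_A00pm_012_s1 t 166 13 1 = true :=
  ⟨(b (c (c (c (b (a (b (l 16749136) (l 16746816)) (b (l 16748632) (l 16746288))) (a (l 16748488) (b (l 16743888) (l 16741408)))) (b (a (b (l 16749088) (l 16746760)) (b (l 16748528) (l 16746176))) (a (l 16748416) (b (l 16743768) (l 16741272))))) (a (b (b (l 16748976) (l 16746632)) (b (l 16744224) (l 16741744))) (b (b (l 16748328) (l 16745968)) (b (l 16743536) (l 16741016))))) (c (a (b (b (l 16748760) (l 16746392)) (b (l 16743952) (l 16741424))) (b (b (l 16748000) (l 16745608)) (b (l 16743152) (a (l 16740800) (l 16740392))))) (b (a (b (l 16748464) (l 16746064)) (b (l 16747592) (l 16745168))) (b (a (l 16743576) (a (l 16742888) (l 16742464))) (a (l 16741000) (a (l 16740296) (b (l 16740520) (l 16739152)))))))) (b (c (a (b (l 16739264) (l 16736392)) (b (c (l 16738592) (l 16738224)) (l 16735248))) (a (b (c (l 16738760) (b (l 16738984) (l 16737584))) (a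 (b (l 16736656) (l 16735096)) (b (l 16738712) (l 16734400)))) (b (c (a (l 16738056) (l 16737472)) (a (b (l 16738256) (l 16736752)) (b (l 16737664) (l 16736008)))) (b (l 16735016) (l 16733296))))) (c (b (l 16737696) (l 16728944)) (b (a (c (l 16732416) (l 16731784)) (l 16730648)) (a (l 16728472) (l 16726976)))))), by decide +kernel⟩

def k62_A00pm_012_s1 : ∃ t, chk3 f_A00pm_012_s1 t 668 12 1 = true :=
  ⟨(b (a (b (b (c (b (l 16765728) (l 16764768)) (b (l 16764896) (l 16763944))) (c (c (l 16763488) (l 16763120)) (c (l 16762720) (l 16762272)))) (c (a (b (l 16761320) (l 16759288)) (b (l 16763952) (l 16759288))) (b (c (l 16760744) (l 16760304)) (l 16761128)))) (b (b (b (c (l 16765800) (l 16764880)) (c (l 16764832) (l 16763920))) (c (b (l 16763848) (l 16762864)) (b (l 16762952) (l 16761968)))) (b (c (b (l 16761856) (l 16760848)) (c (l 16760712) (l 16760232))) (c (b (l 16759816) (l 16758776)) (c (l 16758672) (l 16758192)))))) (a (b (c (b (l 16757200) (l 16755056)) (b (l 16756424) (l 16754272))) (c (b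 (l 16752840) (l 16750568)) (b (l 16752056) (l 16749760)))) (b (c (b (l 16757200) (l 16755032)) (b (l 16758960) (l 16754176))) (c (b (l 16752808) (l 16750512)) (b (l 16751944) (l 16749632)))))), by decide +kernel⟩

def k63_A00pm_012_s1 : ∃ t, chk3 f_A00pm_012_s1 t 669 12 1 = true :=
  ⟨(b (a (b (a (b (c (b (l 16765888) (l 16764912)) (c (l 16764672) (l 16764144))) (c (b (l 16763920) (l 16762928)) (c (l 16762720) (l 16762200)))) (c (b (c (l 16765712) (l 16765224)) (b (l 16763984) (l 16762976))) (b (c (l 16764704) (l 16766768)) (c (l 16762736) (l 16762192))))) (b (a (b (l 16764080) (l 16760440)) (b (l 16764104) (l 16760464))) (a (c (l 16759336) (l 16758408)) (c (l 16759376) (l 16761016))))) (b (a (c (b (b (l 16766024) (l 16765040)) (c (l 16763792) (l 16763288))) (b (b (l 16764928) (l 16763960)) (b (l 16762976) (l 16761976)))) (c (b (b (l 16766104) (l 16765112)) (c (l 16763864) (l 16763336))) (b (b (l 16764952) (l 16763976)) (c (l 16765400) (l 16764808))))) (b (a (c (b (l 16762016) (l 16760976)) (b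 (l 16760968) (l 16759944))) (c (b (l 16762064) (l 16761024)) (b (l 16760968) (l 16759944)))) (a (b (l 16759440) (l 16758384)) (b (l 16759456) (l 16758400)))))) (c (a (b (b (b (l 16757760) (l 16756680)) (l 16755040)) (b (l 16752792) (l 16750472))) (b (a (b (l 16757264) (l 16755056)) (b (l 16757288) (l 16755072))) (a (b (l 16752792) (l 16750456)) (b (l 16752792) (l 16750448))))) (a (b (a (b (l 16756296) (l 16754120)) (b (l 16756272) (l 16754080))) (b (l 16751848) (l 16749520))) (b (a (b (l 16756248) (l 16754048)) (b (l 16756232) (l 16754024))) (a (b (l 16751784) (l 16749440)) (b (l 16751744) (l 16749392))))))), by decide +kernel⟩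

def k64_A00pm_012_s1 : ∃ t, chk3 f_A00pm_012_s1 t 334 13 1 = true :=
  ⟨(b (a (c (b (b (l 16748192) (l 16745792)) (b (l 16743336) (c (l 16740832) (l 16740408)))) (c (b (b (l 16747568) (l 16745144)) (b (l 16742640) (b (l 16740632) (l 16739136)))) (b (b (l 16747056) (l 16744608)) (b (b (l 16742712) (l 16741416)) (b (l 16740016) (l 16738496)))))) (b (c (c (a (b (l 16748296) (l 16745880)) (b (l 16748264) (l 16745792))) (a (b (l 16747880) (l 16745456)) (b (l 16747816) (l 16745328)))) (c (a (b (l 16747392) (l 16744944)) (b (l 16747288) (l 16747408))) (a (b (l 16746832) (l 16744360)) (b (l 16746688) (b (l 16744824) (l 16743512)))))) (b (c (a (l 16743112) (b (l 16743560) (l 16742040))) (a (c (l 16742336) (b (l 16742432) (l 16741024))) (b (a (l 16742560) (l 16742320)) (l 16740872)))) (c (l 16739912) (b (l 16739512) (l 16737912)))))) (b (c (b (c (l 16737320) (l 16736816)) (c (l 16734080) (l 16733520))) (b (a (l 16736376) (l 16735456)) (a (l 16733000) (l 16732072)))) (c (b (c (l 16730696) (l 16730080))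 (c (l 16727168) (l 16726496))) (b (l 16734184) (l 16725256))))), by decide +kernel⟩

def k65_A00pm_012_s1 : ∃ t, chk3 f_A00pm_012_s1 t 10720 6 1 = true :=
  ⟨(a (b (b (b (b (c (c (l 16765928) (l 16765368)) (b (l 16764960) (l 16763984))) (b (l 16763584) (l 16762576))) (b (b (l 16761552) (l 16760520)) (b (l 16759464) (l 16758408)))) (b (b (b (l 16757328) (l 16756232)) (c (l 16755080) (l 16754008))) (c (b (l 16752792) (l 16750440)) (b (l 16751720) (l 16749360))))) (b (b (c (b (l 16748032) (l 16745520)) (b (l 16746936) (b (l 16745072) (l 16743704)))) (b (c (l 16742568) (l 16741368)) (c (l 16739464) (l 16738192)))) (c (b (b (l 16736296) (l 16733016)) (b (l 16729592) (l 16726032))) (b (b (l 16734928) (l 16731536)) (l 16726192))))) (b (b (b (b (c (c (l 16765936) (l 16765376)) (b (l 16764968) (l 16763984))) (b (l 16763592) (l 16762576))) (b (b (l 16761552) (l 16760520)) (b (l 16759472) (l 16758408)))) (b (b (b (l 16757328) (l 16756232)) (c (l 16755080) (l 16754000))) (c (b (l 16752800) (l 16750440)) (b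 (l 16751720) (l 16749360))))) (b (b (b (b (l 16748120) (l 16746896)) (b (l 16745664) (l 16744280))) (b (c (l 16742528) (l 16741328)) (c (l 16739432) (l 16738152)))) (c (b (b (l 16736264) (l 16732976)) (b (l 16729560) (l 16725992))) (b (b (l 16734888) (l 16731496)) (l 16726152)))))), by decide +kernel⟩

def k66_A00pm_012_s1 : ∃ t, chk3 f_A00pm_012_s1 t 10721 6 1 = true :=
  ⟨(b (b (b (c (b (c (l 16765952) (l 16765392)) (c (l 16763928) (l 16763384))) (b (c (l 16767416) (l 16766792)) (b (l 16763000) (l 16761992)))) (b (b (l 16761560) (l 16760520)) (c (l 16762104) (l 16760984)))) (b (c (b (l 16757312) (l 16755088)) (b (l 16756216) (l 16753992))) (c (b (l 16752800) (l 16750440)) (b (l 16751712) (l 16749352))))) (b (b (c (b (l 16748024) (l 16745464)) (b (l 16746920) (b (l 16745040) (l 16743600)))) (b (c (l 16742472) (l 16741264)) (c (l 16739376) (l 16738088)))) (c (b (b (l 16736208) (l 16732920)) (b (l 16729504) (l 16725936))) (b (b (l 16734824) (l 16731440)) (l 16726096))))), by decide +kernel⟩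

def k67_A00pm_012_s1 : ∃ t, chk3 f_A00pm_012_s1 t 5361 6 1 = true :=
  ⟨(b (b (b (b (b (c (l 16766192) (l 16764976)) (c (l 16765200) (l 16764000))) (b (c (l 16764192) (l 16763000)) (c (l 16763168) (l 16761992)))) (b (b (l 16761568) (l 16760536)) (b (l 16759480) (l 16758416)))) (b (b (b (l 16757328) (l 16756232)) (c (l 16755096) (l 16753984))) (b (c (l 16752800) (l 16751696)) (c (l 16750440) (l 16749328))))) (b (b (c (b (l 16748016) (l 16745376)) (b (l 16746896) (b (l 16744960) (l 16743464)))) (b (c (l 16742352) (l 16741128)) (c (l 16739248) (l 16737944)))) (c (b (b (l 16736080) (l 16732800)) (b (l 16729384) (l 16725816))) (b (b (l 16734688) (l 16731296)) (l 16725960))))), by decide +kernel⟩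

def k68_A00pm_012_s1 : ∃ t, chk3 f_A00pm_012_s1 t 2681 6 1 = true :=
  ⟨(b (b (b (b (b (c (l 16766248) (l 16764992)) (c (l 16765248) (l 16764008))) (c (b (l 16764240) (l 16763208)) (b (l 16763008) (l 16762000)))) (b (c (b (l 16762176) (l 16761120)) (b (l 16760976) (l 16759936))) (b (l 16759496) (l 16758424)))) (b (b (b (l 16757336) (l 16756240)) (c (l 16755104) (l 16753960))) (b (c (l 16752800) (l 16751664)) (c (l 16750432) (l 16749296))))) (b (b (b (b (a (l 16748080) (c (l 16748568) (a (a (l 16747440) (b (l 16747744) (l 16747056))) (l 16747368)))) (a (c (l 16747336) (l 16746192)) (a (a (a (l 16746720) (l 16746648)) (l 16746552)) (l 16746488)))) (b (a (c (l 16745928) (l 16744752)) (c (l 16745672) (l 16744472))) (c (l 16744288) (l 16743080)))) (c (b (c (l 16742280) (l 16741720)) (c (l 16739192) (l 16738608))) (b (c (l 16741088) (l 16740376)) (l 16737568)))) (c (c (b (b (l 16736048) (l 16732800)) (b (l 16729408) (l 16725872))) (b (b (l 16735424) (l 16732120)) (b (l 16728680) (l 16725096)))) (b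 (b (l 16734312) (l 16730936)) (c (l 16726072) (l 16725120)))))), by decide +kernel⟩

def k69_A00pm_012_s1 : ∃ t, chk3 f_A00pm_012_s1 t 5364 6 1 = true :=
  ⟨(b (b (b (b (b (c (l 16766304) (l 16765008)) (c (l 16765304) (l 16764024))) (b (c (l 16764288) (l 16763016)) (c (l 16763256) (l 16762008)))) (b (c (b (l 16762216) (l 16761160)) (b (l 16760976) (l 16759936))) (b (l 16759504) (l 16758432)))) (b (b (b (l 16757344) (l 16756240)) (c (l 16755120) (l 16753944))) (b (c (l 16752808) (l 16751632)) (c (l 16750432) (l 16749256))))) (b (b (b (b (l 16747968) (l 16746472)) (c (l 16744792) (l 16743552))) (c (b (l 16741752) (l 16738656)) (b (l 16740448) (l 16737280)))) (c (b (b (l 16735488) (l 16732216)) (b (l 16728800) (l 16725248))) (b (l 16732360) (l 16725328))))), by decide +kernel⟩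

def k70_A00pm_012_s1 : ∃ t, chk3 f_A00pm_012_s1 t 10730 6 1 = true :=
  ⟨(b (b (b (b (b (c (l 16766336) (l 16765016)) (c (l 16765328) (l 16764024))) (b (c (l 16764312) (l 16763024)) (c (l 16763280) (l 16762008)))) (b (c (b (l 16762232) (l 16761176)) (b (l 16760976) (l 16759936))) (b (c (l 16760112) (l 16758880)) (l 16758432)))) (b (b (b (l 16757344) (l 16756240)) (c (l 16755128) (l 16753928))) (b (c (l 16752808) (l 16751624)) (c (l 16750424) (l 16749240))))) (b (b (b (b (l 16747960) (l 16746464)) (c (l 16744784) (l 16743528))) (c (b (l 16741736) (l 16738632)) (b (l 16740424) (l 16737248)))) (c (b (b (l 16735472) (l 16732192)) (b (l 16728776) (l 16725216))) (b (l 16732328) (l 16725288))))), by decide +kernel⟩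

def k71_A00pm_012_s1 : ∃ t, chk3 f_A00pm_012_s1 t 10731 6 1 = true :=
  ⟨(a (b (b (b (b (b (c (l 16766352) (l 16765024)) (c (l 16765344) (l 16764032))) (b (c (l 16764320) (l 16763024)) (c (l 16763288) (l 16762008)))) (b (b (c (l 16762248) (l 16760976)) (c (l 16761184) (l 16759936))) (b (c (l 16760120) (l 16758872)) (l 16758440)))) (b (b (b (l 16757344) (l 16756240)) (c (l 16755128) (l 16753928))) (b (c (l 16752808) (l 16751616)) (c (l 16750424) (l 16749232))))) (b (b (b (b (l 16747952) (l 16746456)) (c (l 16744776) (l 16743520))) (c (b (l 16741728) (l 16738624)) (b (l 16740408) (l 16737232)))) (c (b (b (l 16735456) (l 16732176)) (b (l 16728760) (l 16725200))) (b (l 16732304) (l 16725264))))) (b (b (b (b (b (c (l 16766360) (l 16765024)) (c (l 16765352) (l 16764032))) (c (b (l 16764328) (l 16763296)) (b (l 16763024) (l 16762008)))) (b (c (b (l 16762248) (l 16761192)) (b (l 16760976) (l 16759936))) (b (b (l 16759784) (l 16759248)) (l 16758440)))) (b (b (b (l 16757344) (l 16756240)) (c (l 16755128)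 (l 16753920))) (b (c (l 16752808) (l 16751608)) (c (l 16750424) (l 16749224))))) (b (b (b (b (l 16747944) (l 16746448)) (c (l 16744776) (l 16743512))) (c (b (l 16741728) (l 16738624)) (b (l 16740400) (l 16737216)))) (c (b (b (l 16735448) (l 16732168)) (b (l 16728752) (l 16725192))) (b (l 16732296) (l 16725256)))))), by decide +kernel⟩

def k72_A00pm_012_s1 : ∃ t, chk3 f_A00pm_012_s1 t 2683 6 1 = true :=
  ⟨(b (b (b (b (b (c (l 16766400) (l 16765032)) (c (l 16765392) (l 16764040))) (c (b (l 16764368) (l 16763328)) (b (l 16763032) (l 16762016)))) (b (c (b (l 16762280) (l 16761224)) (b (l 16760976) (l 16759928))) (b (b (l 16759792) (l 16759256)) (l 16758448)))) (b (b (b (l 16757352) (l 16756240)) (c (l 16755144) (l 16756520))) (b (c (l 16752816) (l 16751584)) (c (l 16750424) (l 16749192))))) (b (b (b (b (c (l 16748512) (l 16747272)) (l 16746432)) (c (l 16744760) (l 16743472))) (c (b (l 16741704) (l 16738592)) (b (l 16740352) (l 16737168)))) (c (b (b (l 16735416) (l 16732136)) (b (l 16728712) (l 16725152)))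 (b (l 16732240) (l 16725192))))), by decide +kernel⟩

def k73_A00pm_012_s1 : ∃ t, chk3 f_A00pm_012_s1 t 671 6 1 = true :=
  ⟨(b (b (b (b (b (c (l 16766592) (l 16767704)) (c (l 16765568) (l 16764072))) (c (b (l 16764528) (l 16763480)) (b (l 16763056) (l 16762024)))) (b (c (b (l 16762424) (l 16761344)) (b (l 16760976) (l 16759920))) (c (b (l 16760256) (l 16759160)) (b (l 16758848) (l 16757760))))) (b (b (b (l 16759992) (l 16756240)) (b (l 16755104) (l 16753952))) (b (c (l 16752840) (l 16751480)) (c (l 16750416) (l 16749064))))) (b (b (b (b (c (l 16748488) (l 16747136)) (l 16746336)) (c (l 16744704) (l 16743304))) (c (b (l 16741624) (l 16738488)) (b (l 16740160) (l 16736952)))) (c (b (b (l 16735280) (l 16731976)) (b (l 16728528) (l 16724944))) (b (l 16731992) (l 16724912))))), by decide +kernel⟩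

def k74_A00pm_012_s1 : ∃ t, chk3 f_A00pm_012_s1 t 21 12 1 = true :=
  ⟨(b (b (a (a (a (b (c (b (a (l 16767032) (l 16767600)) (a (l 16765984) (l 16766528))) (b (a (l 16765176) (l 16765296)) (a (l 16764152) (l 16764248)))) (c (b (a (l 16764920) (l 16765424)) (l 16764080)) (b (a (l 16763104) (l 16763176)) (a (l 16762048) (l 16762080))))) (b (c (b (l 16768424) (l 16767328)) (b (l 16765464) (l 16764392))) (b (c (l 16766192) (l 16763280)) (c (l 16765024) (l 16762144))))) (b (b (a (l 16772824) (l 16768232)) (a (l 16766488) (l 16767120))) (c (a (l 16766608) (l 16767632)) (a (l 16762856) (l 16763024))))) (c (b (a (b (l 16772200) (l 16771064)) (l 16773944)) (a (l 16769224) (l 16771472))) (b (a (b (l 16766320) (l 16765184)) (l 16766432)) (a (l 16763360) (l 16763968))))) (a (c (a (b (a (b (l 16762968) (l 16761840)) (b (l 16763840) (l 16762640))) (a (b (l 16760704) (l 16759552)) (l 16760816))) (b (a (l 16764112) (l 16765048)) (l 16761912))) (a (b (a (b (l 16760976) (l 16759872)) (b (l 16760984) (l 16759816)))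 (a (b (l 16758752) (l 16757616)) (l 16758024))) (b (a (l 16760416) (l 16760512)) (l 16757872)))) (b (a (c (l 16766520) (l 16760728)) (l 16775448)) (a (c (l 16763664) (l 16757952)) (l 16761944))))) (b (a (a (b (b (a (c (l 16758384) (l 16756464)) (l 16757584)) (a (c (l 16757200) (l 16755296)) (l 16756328))) (c (b (l 16758808) (l 16754928)) (a (a (l 16753640) (l 16753400)) (l 16753064)))) (b (a (l 16767600) (l 16757336)) (a (l 16754432) (l 16754504)))) (a (b (l 16757800) (l 16754768)) (b (l 16758776) (l 16755432)))) (a (a (b (a (b (l 16755264) (l 16751400)) (c (l 16753128) (l 16750480))) (a (b (l 16750144) (l 16748864)) (l 16754384))) (b (a (l 16751672) (l 16751608)) (l 16759208))) (a (b (l 16751648) (l 16748456)) (b (l 16752040) (l 16748560)))))), by decide +kernel⟩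

def k75_A00pm_012_s1 : ∃ t, chk3 f_A00pm_012_s1 t 21 13 1 = true :=
  ⟨(b (a (a (b (b (b (a (c (l 16748408) (l 16746576)) (l 16747064)) (c (l 16746784) (l 16744576))) (b (c (l 16745168) (l 16742952)) (c (l 16748776) (l 16741312)))) (c (b (a (c (l 16741744) (l 16740856)) (l 16740856)) (c (a (l 16738504) (l 16738056)) (l 16737176))) (b (l 16738816) (l 16735448)))) (b (b (a (l 16745848) (l 16745504)) (c (l 16743968) (l 16740288))) (c (b (l 16740320) (l 16736624)) (l 16745328)))) (b (a (b (l 16745136) (l 16741360)) (b (l 16744976) (l 16740960))) (a (c (l 16748408) (l 16732880)) (l 16750240)))) (a (c (a (c (b (b (a (l 16735208) (l 16734584)) (a (l 16731832) (l 16731032))) (b (a (l 16728320) (l 16727384)) (a (l 16724672) (l 16723592)))) (b (b (l 16733776) (l 16730280)) (b (l 16726680) (l 16722928)))) (b (b (l 16732872) (l 16729072)) (b (l 16725176) (l 16721176)))) (b (a (b (l 16732000) (l 16728456)) (l 16727368)) (b (l 16744064) (l 16719184)))) (b (a (b (l 16729312) (l 16725176)) (c (l 16728840) (l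 16722568))) (a (b (l 16720984) (l 16716696)) (a (l 16727680) (l 16716200)))))), by decide +kernel⟩

def k76_A00pm_012_s1 : ∃ t, chk3 f_A00pm_012_s1 t 40 14 1 = true :=
  ⟨(b (a (c (a (b (b (l 16741336) (l 16737488)) (b (l 16733472) (l 16729424))) (b (b (l 16738224) (l 16734440)) (b (l 16730520) (l 16726656)))) (a (b (b (l 16741432) (l 16737528)) (c (b (l 16733512) (b (l 16730360) (l 16728328))) (b (l 16733328) (b (a (l 16730904) (l 16729360)) (c (l 16728128) (l 16727928)))))) (b (b (l 16738232) (c (l 16734456) (l 16734256))) (b (a (b (l 16732128) (l 16730064)) (b (l 16730600) (l 16728616))) (c (l 16726424) (c (l 16726152) (l 16725912))))))) (c (b (a (b (l 16735296) (l 16731584)) (b (l 16732616) (l 16729104))) (b (a (l 16727904) (l 16725296)) (l 16722648))) (b (c (a (b (l 16735264) (b (l 16732456) (l 16730544))) (b (a (l 16733128) (l 16731800)) (b (l 16729728) (l 16727776)))) (a (b (l 16735048) (b (l 16732192) (a (l 16730952) (l 16729520)))) (b (a (b (l 16733768) (l 16731912)) (b (l 16732368) (l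 16730536))) (b (a (l 16730040) (l 16728592)) (l 16727328))))) (c (b (a (l 16727648) (l 16724808)) (l 16722096)) (b (a (b (c (l 16728368) (l 16728144)) (l 16726184)) (l 16724264)) (a (l 16723024) (l 16720024))))))) (b (c (a (b (l 16724008) (l 16719848)) (b (l 16718552) (l 16714272))) (a (b (c (l 16723672) (a (l 16724760) (l 16721688))) (c (l 16719296) (a (l 16720256) (l 16717144)))) (a (b (a (l 16719736) (l 16718248)) (l 16714472)) (b (l 16716016) (l 16711456))))) (c (a (b (l 16715480) (l 16710904)) (b (l 16709792) (l 16705112))) (a (b (c (l 16714712) (a (l 16715536) (l 16712384))) (c (l 16709912) (b (l 16710248) (l 16707720)))) (a (b (l 16709752) (l 16704816)) (b (l 16706688) (l 16701720))))))), by decide +kernel⟩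

def k77_A00pm_012_s1 : ∃ t, chk3 f_A00pm_012_s1 t 82 14 1 = true :=
  ⟨(b (a (c (b (b (c (l 16730344) (l 16730184)) (l 16726576)) (b (l 16722744) (l 16718728))) (b (b (b (a (a (l 16731576) (l 16730912)) (l 16729872)) (l 16733896)) (c (l 16726008) (l 16725424))) (b (c (l 16722008) (l 16721312)) (l 16717456)))) (b (c (b (l 16727824) (l 16724080)) (b (c (l 16727120) (l 16726464)) (l 16728120))) (b (c (l 16720168) (l 16718776)) (c (l 16716096) (l 16714504))))) (b (c (b (a (l 16714536) (l 16711840)) (l 16708752)) (b (a (l 16713040) (l 16710040)) (a (l 16708440) (l 16705400)))) (b (c (l 16704160) (a (l 16703640) (l 16700560))) (c (a (l 16700848) (l 16697984)) (a (l 16698632) (l 16695528)))))), by decide +kernel⟩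

def k78_A00pm_012_s1 : ∃ t, chk3 f_A00pm_012_s1 t 83 14 1 = true :=
  ⟨(b (a (b (c (b (l 16725288) (l 16721472)) (b (l 16734368) (l 16719904))) (c (b (l 16717504) (l 16713360)) (b (l 16715752) (l 16711440)))) (c (c (b (b (a (l 16723496) (b (l 16723040) (l 16721152))) (a (l 16719680) (a (l 16723680) (l 16717816)))) (b (a (l 16715704) (l 16719496)) (a (l 16711568) (l 16710096)))) (c (b (a (l 16721056) (a (l 16730232) (l 16719080))) (a (l 16713000) (l 16721944))) (b (a (l 16720640) (l 16719072)) (a (l 16712512) (l 16710912))))) (c (b (a (l 16730440) (l 16718296)) (a (l 16711704) (l 16710024))) (b (a (l 16718920) (l 16717160)) (a (l 16710512) (l 16708736)))))) (c (c (b (b (a (l 16709480) (a (l 16707264) (l 16705776))) (a (l 16705032) (a (l 16702792) (l 16701280)))) (b (a (l 16700416) (a (l 16698152) (l 16696624))) (a (l 16695616) (a (l 16693328) (l 16691784))))) (c (b (a (l 16706608) (a (l 16704288) (l 16702712))) (a (l 16697240) (a (l 16694880) (l 16693272)))) (b (a (l 16706104) (a (l 16703720)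 (l 16702088))) (a (l 16696632) (a (l 16694216) (l 16692576)))))) (b (b (a (l 16706944) (a (l 16704424) (l 16702688))) (a (l 16702272) (a (l 16699736) (l 16698000)))) (b (a (l 16697408) (a (l 16694864) (l 16693128))) (a (l 16692352) (a (l 16689808) (l 16688072))))))), by decide +kernel⟩

def k79_A00pm_012_s1 : ∃ t, chk3 f_A00pm_012_s1 t 21 14 1 = true :=
  ⟨(b (a (c (c (a (b (b (a (l 16720888) (l 16719672)) (a (l 16716952) (l 16715608))) (b (l 16717360) (l 16707824))) (b (b (l 16717928) (l 16713656)) (b (l 16709248) (l 16704688)))) (b (b (l 16728008) (l 16723848)) (b (l 16709056) (l 16704592)))) (b (a (l 16725464) (l 16711160)) (a (l 16716920) (l 16702208)))) (c (b (b (l 16713616) (l 16708960)) (b (l 16704152) (l 16699208))) (b (b (l 16708192) (l 16703552)) (b (l 16698760) (l 16693824))))) (b (c (b (a (a (c (l 16703368) (l 16701952)) (l 16699064)) (l 16694120)) (a (a (c (l 16698744) (l 16697280)) (l 16694192)) (l 16688904))) (a (a (l 16697224) (l 16692624)) (l 16686144))) (c (a (b (a (c (l 16693968)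 (l 16692440)) (l 16689168)) (a (c (l 16689016) (l 16687424)) (l 16683984))) (b (l 16683536) (l 16678024))) (a (b (l 16687384) (l 16682176)) (l 16696344))))), by decide +kernel⟩

def k80_A00pm_012_s1 : ∃ t, chk3 f_A00pm_012_s1 t 20 30 1 = true :=
  ⟨(a (b (c (b (a (c (l 16706408) (l 16705760)) (c (l 16700624) (l 16699776))) (a (c (l 16701480) (l 16700672)) (c (l 16695600) (l 16694616)))) (b (a (c (l 16704896) (b (l 16705128) (l 16702480))) (c (l 16698712) (a (l 16699024) (l 16695848)))) (a (c (b (l 16700976) (l 16698296)) (b (l 16699768) (l 16697000))) (c (l 16693400) (a (l 16693568) (l 16690368)))))) (c (b (a (c (l 16696328) (l 16695360)) (c (l 16690376) (l 16689240))) (a (c (l 16690960) (l 16689816)) (c (l 16684928) (l 16683640)))) (b (a (c (b (l 16695552) (l 16692752)) (b (l 16694168) (l 16691280))) (c (l 16687872) (a (l 16687880) (l 16684664)))) (a (c (b (l 16689896) (l 16686968)) (b (l 16688328) (l 16685304))) (c (b (l 16683568) (l 16680624)) (b (l 16681832) (l 16678800))))))) (a (b (b (c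 (a (l 16695896) (l 16692992)) (a (l 16693424) (l 16690296))) (c (a (l 16690736) (l 16687800)) (a (l 16688000) (l 16684848)))) (b (c (a (l 16685384) (l 16682408)) (a (l 16682360) (l 16679192))) (c (a (l 16679808) (l 16676808)) (a (l 16676488) (l 16673304))))) (c (b (a (b (l 16690032) (l 16684808)) (b (a (l 16687672) (b (l 16687352) (l 16684776))) (a (l 16682432) (b (l 16682152) (l 16679488))))) (b (a (l 16679384) (a (l 16677000) (b (l 16676768) (l 16674000)))) (a (l 16673760) (a (l 16671368) (b (l 16671184) (l 16668320)))))) (b (b (a (l 16687096) (a (l 16684552) (l 16682816))) (a (l 16681640) (a (l 16679096) (l 16677360)))) (b (a (l 16675968) (a (l 16673424) (l 16671704))) (a (l 16670072) (a (l 16667544) (l 16665832)))))))), by decide +kernel⟩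

def k81_A00pm_012_s1 : ∃ t, chk3 f_A00pm_012_s1 t 20 31 1 = true :=
  ⟨(a (b (b (c (a (c (l 16685352) (l 16684032)) (c (l 16679272) (l 16677808))) (a (c (b (l 16683984) (l 16680928)) (b (l 16682224) (l 16679072))) (c (b (l 16677624) (l 16674560)) (a (l 16675776) (l 16672536))))) (c (a (c (l 16679512) (l 16677992)) (c (l 16673376) (l 16671744))) (a (c (b (l 16677816) (l 16674632)) (b (l 16675864) (l 16672576))) (c (l 16675096) (b (l 16669336) (l 16666056)))))) (c (b (a (c (l 16673424) (l 16671704)) (c (l 16667256) (l 16665432))) (a (b (l 16667776) (l 16664480)) (b (l 16661544) (l 16658248)))) (b (b (a (c (l 16671384) (l 16669224)) (l 16669128)) (a (c (l 16668072) (l 16665808)) (l 16660512))) (a (b (c (l 16664680) (l 16662312)) (c (l 16661224) (l 16658752))) (b (l 16657080) (l 16653576)))))) (a (b (b (c (a (l 16674024) (l 16671000)) (a (l 16670376) (l 16667184))) (c (a (l 16668016) (l 16664968)) (a (l 16664024) (l 16660832)))) (b (c (b (l 16661808) (l 16658624)) (a (l 16657424) (l 16654232))) (c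 (b (l 16655384) (l 16652080)) (a (l 16650560) (l 16647376))))) (b (b (a (c (l 16667936) (l 16663952)) (c (a (l 16665536) (b (l 16665400) (l 16662432))) (a (l 16661440) (l 16659736)))) (a (c (l 16661896) (l 16657600)) (c (a (l 16659496) (b (l 16659416) (l 16656344))) (a (l 16655096) (l 16653408))))) (a (b (c (l 16655632) (l 16651008)) (c (l 16649144) (l 16644168))) (c (a (b (l 16653240) (l 16646760)) (b (b (l 16653216) (l 16650040)) (l 16655648))) (b (a (l 16648520) (l 16646848)) (a (l 16641696) (l 16640040)))))))), by decide +kernel⟩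

def k82_A00pm_012_s1 : ∃ t, chk3 f_A00pm_012_s1 t 21 15 1 = true :=
  ⟨(b (a (c (c (b (b (a (l 16683896) (l 16679624)) (a (l 16678592) (l 16674136))) (b (a (l 16673112) (l 16668472)) (a (l 16667448) (l 16662640)))) (b (b (l 16679872) (l 16674408)) (b (l 16668768) (l 16662944)))) (b (b (l 16676776) (l 16671200)) (b (l 16665416) (l 16659440)))) (b (c (b (l 16672368) (l 16666560)) (b (l 16666880) (l 16661008))) (c (b (l 16660600) (l 16654480)) (b (l 16654968) (l 16648744))))) (b (c (a (b (a (c (l 16661600) (l 16659576)) (l 16655512)) (a (c (l 16655552) (l 16653408)) (l 16649280))) (b (l 16648200) (l 16641744))) (a (b (l 16653256) (l 16646856)) (b (l 16642344) (l 16635752)))) (b (a (c (a (c (l 16649312) (l 16647032)) (l 16642856)) (l 16640232)) (c (l 16635120) (l 16628968))) (a (c (a (l 16652168) (l 16636232)) (l 16654344)) (c (l 16628320) (l 16621976)))))), by decide +kernel⟩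

def k83_A00pm_012_s1 : ∃ t, chk3 f_A00pm_012_s1 t 11 6 1 = true :=
  ⟨(b (b (a (b (a (b (a (c (l 16776432) (l 16767320)) (b (l 16774352) (l 16773120))) (a (l 16779792) (l 16771152))) (b (a (l 16786376) (l 16799248)) (a (l 16773232) (l 16775568)))) (a (b (a (l 16766504) (l 16768280)) (a (l 16763424) (l 16765128))) (b (a (l 16770296) (l 16772576)) (l 16789104)))) (b (a (b (a (l 16801896) (l 16783832)) (a (l 16778168) (l 16781024))) (b (a (l 16787000) (l 16790440)) (a (l 16784152) (l 16787560)))) (a (b (l 16797448) (l 16773096)) (b (l 16782648) (l 16779176))))) (a (b (a (b (a (l 16760056) (l 16761688)) (l 16778144)) (b (l 16764584) (l 16760736))) (a (b (l 16753440) (l 16749440)) (b (l 16756560) (l 16752184)))) (b (a (b (l 16769416) (l 16765432)) (b (l 16775384) (l 16771272))) (a (b (l 16761128) (l 16756512)) (l 16764488))))) (b (a (b (a (b (l 16745448) (l 16741112)) (b (l 16747696) (l 16742816))) (a (a (l 16734024) (l 16733968)) (b (l 16737480) (l 16731944)))) (b (a (b (l 16751552) (c (l 16754192)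 (l 16738712))) (b (l 16756984) (l 16751584))) (a (b (c (l 16748320) (l 16733128)) (l 16734312)) (b (c (l 16754960) (l 16736368)) (c (l 16747984) (l 16729776)))))) (a (c (b (a (l 16728288) (l 16729184)) (a (a (l 16718544) (l 16717800)) (l 16717504))) (b (a (b (l 16722392) (l 16717504)) (b (l 16720704) (l 16715168))) (a (b (l 16712560) (l 16707552)) (b (l 16709576) (l 16703928))))) (b (a (c (l 16732048) (b (l 16720832) (l 16714616))) (c (l 16737264) (b (l 16723024) (l 16716000)))) (a (c (l 16718824) (b (l 16708344) (l 16702016))) (c (l 16722224) (b (l 16709016) (l 16701976)))))))), by decide +kernel⟩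

def k84_A00pm_012_s1 : ∃ t, chk3 f_A00pm_012_s1 t 11 7 1 = true :=
  ⟨(b (b (a (c (b (a (c (l 16709640) (l 16705752)) (l 16705640)) (a (b (l 16699680) (l 16694224)) (l 16693616))) (b (a (b (l 16702496) (l 16697344)) (b (l 16698232) (l 16692488))) (a (b (l 16692096) (l 16686744)) (b (l 16686704) (l 16680832))))) (b (a (b (l 16702160) (l 16695592)) (c (l 16707200) (b (l 16694888) (l 16687768)))) (a (b (l 16688992) (l 16682360)) (b (l 16688168) (l 16680792))))) (a (b (a (b (l 16684960) (l 16679288)) (b (l 16679640) (l 16673504))) (a (b (l 16673488) (l 16688528)) (c (l 16668568) (l 16659496)))) (b (a (c (l 16678240) (l 16677008)) (c (l 16676832) (l 16662648))) (a (c (l 16664320) (l 16653184)) (b (l 16658592) (l 16651136)))))) (b (a (b (a (b (l 16682464) (l 16676256)) (b (l 16654352) (l 16647736))) (a (b (l 16669912) (l 16663424)) (b (l 16640992) (l 16634128)))) (b (c (b (l 16672544) (l 16644152)) (a (l 16639504) (l 16633488))) (c (a (l 16635512) (l 16630480)) (a (l 16625352) (l 16618520))))) (a (a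 (b (b (l 16656784) (l 16629024)) (b (l 16622072) (l 16614960))) (b (b (l 16627144) (l 16620032)) (b (l 16612784) (l 16605408)))) (b (a (c (l 16620536) (l 16610760)) (b (l 16612824) (l 16604920))) (a (c (l 16626160) (l 16595696)) (b (l 16596936) (l 6))))))), by decide +kernel⟩

def k85_A00pm_012_s1 : ∃ t, chk3 f_A00pm_012_s1 t 3 2 1 = true :=
  ⟨(a (b (l 2) (a (b (l 2) (b (l 2) (a (b (l 2) (a (b (l 2) (a (l 16807232) (l 2))) (l 2))) (l 2)))) (l 2))) (l 2)), by decide +kernel⟩

def k86_A00pm_012_s1 : ∃ t, chk3 f_A00pm_012_s1 t 3 6 1 = true :=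
  ⟨(a (b (a (b (b (a (a (b (a (l 16794144) (l 16798136)) (a (l 16791240) (l 16795208))) (b (l 2) (l 16822664))) (l 2)) (a (a (b (l 16789952) (l 16786400)) (b (l 16798416) (l 16794816))) (a (l 28554932247) (l 2)))) (a (b (a (l 16822400) (l 16830712)) (a (l 16771352) (l 16779480))) (b (a (l 16798328) (l 16809176)) (a (l 16788912) (l 16799664))))) (a (b (l 2) (b (l 2) (l 45734793879))) (l 2))) (a (b (a (b (a (b (l 16763640) (l 16758080)) (b (l 16771600) (l 16765904))) (a (b (c (l 16763232) (l 16741176)) (c (l 16756112) (l 16734416))) (b (c (l 16772736) (l 16747232)) (c (l 16765720) (l 16740512))))) (b (a (l 16778024) (l 16788632)) (a (b (l 16768912) (a (l 16759760) (l 16764680))) (b (l 16779368) (a (l 16727976) (l 16775504)))))) (a (b (a (c (l 16744328) (b (l 16727072) (l 16719528))) (c (l 16753544) (b (l 16732928) (l 16725000)))) (a (c (l 16728104) (b (l 16711880) (l 16703976))) (c (l 16735952) (b (l 16716712) (l 16708232))))) (a (b (c (l 16764272) (b (l 16740240) (l 16732032))) (c (l 16746088)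 (b (l 16723464) (l 16714560)))) (b (c (l 16776512) (a (l 16742584) (l 16747376))) (c (l 16757776) (a (l 16725024) (l 16729536))))))) (a (a (b (b (l 16800648) (l 16787936)) (b (b (l 16776912) (l 6)) (l 6))) (l 6)) (l 6)))) (l 6)), by decide +kernel⟩

def k87_A00pm_012_s1 : ∃ t, chk3 f_A00pm_012_s1 t 3 7 1 = true :=
  ⟨(a (a (b (b (a (b (a (c (l 16711152) (b (l 16696136) (l 16688256))) (c (l 16717712) (b (l 16699680) (l 16690880)))) (a (b (l 16689336) (l 16681168)) (b (l 16692704) (l 16683672)))) (b (a (c (l 16726352) (b (l 16705304) (l 16695872))) (c (l 16737360) (a (l 16706056) (l 6)))) (a (b (l 16698600) (l 16688528)) (l 6)))) (a (b (a (c (l 16677392) (l 16660528)) (c (l 16680096) (l 16660344))) (a (c (l 16660504) (l 16644664)) (c (l 16661440) (l 16642944)))) (b (a (c (l 16685160) (l 16662304)) (l 6)) (l 6)))) (b (a (b (a (c (l 16654152) (l 16628816)) (b (l 16638696) (l 6))) (a (b (l 16623920) (l 16615680)) (l 6))) (l 6)) (l 6))) (b (l 6) (l 6))) (l 6)), by decide +kernel⟩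

theorem t88_A00pm_012_s1 : ∃ t, chk3 f_A00pm_012_s1 t 3 3 1 = true := ex3_b k86_A00pm_012_s1 k87_A00pm_012_s1

theorem t89_A00pm_012_s1 : ∃ t, chk3 f_A00pm_012_s1 t 3 1 1 = true := ex3_b k85_A00pm_012_s1 t88_A00pm_012_s1

theorem t90_A00pm_012_s1 : ∃ t, chk3 f_A00pm_012_s1 t 11 3 1 = true := ex3_b k83_A00pm_012_s1 k84_A00pm_012_s1

theorem t91_A00pm_012_s1 : ∃ t, chk3 f_A00pm_012_s1 t 20 15 1 = true := ex3_b k80_A00pm_012_s1 k81_A00pm_012_s1

theorem t92_A00pm_012_s1 : ∃ t, chk3 f_A00pm_012_s1 t 10 15 1 = true := ex3_a t91_A00pm_012_s1 k82_A00pm_012_s1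

theorem t93_A00pm_012_s1 : ∃ t, chk3 f_A00pm_012_s1 t 41 14 1 = true := ex3_a k77_A00pm_012_s1 k78_A00pm_012_s1

theorem t94_A00pm_012_s1 : ∃ t, chk3 f_A00pm_012_s1 t 20 14 1 = true := ex3_a k76_A00pm_012_s1 t93_A00pm_012_s1

theorem t95_A00pm_012_s1 : ∃ t, chk3 f_A00pm_012_s1 t 10 14 1 = true := ex3_a t94_A00pm_012_s1 k79_A00pm_012_s1

theorem t96_A00pm_012_s1 : ∃ t, chk3 f_A00pm_012_s1 t 10 7 1 = true := ex3_b t95_A00pm_012_s1 t92_A00pm_012_s1

theorem t97_A00pm_012_s1 : ∃ t, chk3 f_A00pm_012_s1 t 21 6 1 = true := ex3_b k74_A00pm_012_s1 k75_A00pm_012_s1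

theorem t98_A00pm_012_s1 : ∃ t, chk3 f_A00pm_012_s1 t 5365 6 1 = true := ex3_a k70_A00pm_012_s1 k71_A00pm_012_s1

theorem t99_A00pm_012_s1 : ∃ t, chk3 f_A00pm_012_s1 t 2682 6 1 = true := ex3_a k69_A00pm_012_s1 t98_A00pm_012_s1

theorem t100_A00pm_012_s1 : ∃ t, chk3 f_A00pm_012_s1 t 1341 6 1 = true := ex3_a t99_A00pm_012_s1 k72_A00pm_012_s1

theorem t101_A00pm_012_s1 : ∃ t, chk3 f_A00pm_012_s1 t 5360 6 1 = true := ex3_a k65_A00pm_012_s1 k66_A00pm_012_s1

theorem t102_A00pm_012_s1 : ∃ t, chk3 f_A00pm_012_s1 t 2680 6 1 = true := ex3_a t101_A00pm_012_s1 k67_A00pm_012_s1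

theorem t103_A00pm_012_s1 : ∃ t, chk3 f_A00pm_012_s1 t 1340 6 1 = true := ex3_a t102_A00pm_012_s1 k68_A00pm_012_s1

theorem t104_A00pm_012_s1 : ∃ t, chk3 f_A00pm_012_s1 t 670 6 1 = true := ex3_a t103_A00pm_012_s1 t100_A00pm_012_s1

theorem t105_A00pm_012_s1 : ∃ t, chk3 f_A00pm_012_s1 t 335 6 1 = true := ex3_a t104_A00pm_012_s1 k73_A00pm_012_s1

theorem t106_A00pm_012_s1 : ∃ t, chk3 f_A00pm_012_s1 t 334 12 1 = true := ex3_a k62_A00pm_012_s1 k63_A00pm_012_s1

theorem t107_A00pm_012_s1 : ∃ t, chk3 f_A00pm_012_s1 t 334 6 1 = true := ex3_b t106_A00pm_012_s1 k64_A00pm_012_s1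

theorem t108_A00pm_012_s1 : ∃ t, chk3 f_A00pm_012_s1 t 167 6 1 = true := ex3_a t107_A00pm_012_s1 t105_A00pm_012_s1

theorem t109_A00pm_012_s1 : ∃ t, chk3 f_A00pm_012_s1 t 166 12 1 = true := ex3_b k59_A00pm_012_s1 k60_A00pm_012_s1

theorem t110_A00pm_012_s1 : ∃ t, chk3 f_A00pm_012_s1 t 166 6 1 = true := ex3_b t109_A00pm_012_s1 k61_A00pm_012_s1

theorem t111_A00pm_012_s1 : ∃ t, chk3 f_A00pm_012_s1 t 83 6 1 = true := ex3_a t110_A00pm_012_s1 t108_A00pm_012_s1

theorem t112_A00pm_012_s1 : ∃ t, chk3 f_A00pm_012_s1 t 82 12 1 = true := ex3_b k56_A00pm_012_s1 k57_A00pm_012_s1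

theorem t113_A00pm_012_s1 : ∃ t, chk3 f_A00pm_012_s1 t 82 6 1 = true := ex3_b t112_A00pm_012_s1 k58_A00pm_012_s1

theorem t114_A00pm_012_s1 : ∃ t, chk3 f_A00pm_012_s1 t 41 6 1 = true := ex3_a t113_A00pm_012_s1 t111_A00pm_012_s1

theorem t115_A00pm_012_s1 : ∃ t, chk3 f_A00pm_012_s1 t 40 12 1 = true := ex3_a k53_A00pm_012_s1 k54_A00pm_012_s1

theorem t116_A00pm_012_s1 : ∃ t, chk3 f_A00pm_012_s1 t 40 6 1 = true := ex3_b t115_A00pm_012_s1 k55_A00pm_012_s1

theorem t117_A00pm_012_s1 : ∃ t, chk3 f_A00pm_012_s1 t 20 6 1 = true := ex3_a t116_A00pm_012_s1 t114_A00pm_012_s1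

theorem t118_A00pm_012_s1 : ∃ t, chk3 f_A00pm_012_s1 t 10 6 1 = true := ex3_a t117_A00pm_012_s1 t97_A00pm_012_s1

theorem t119_A00pm_012_s1 : ∃ t, chk3 f_A00pm_012_s1 t 10 3 1 = true := ex3_b t118_A00pm_012_s1 t96_A00pm_012_s1

theorem t120_A00pm_012_s1 : ∃ t, chk3 f_A00pm_012_s1 t 5 3 1 = true := ex3_a t119_A00pm_012_s1 t90_A00pm_012_s1

theorem t121_A00pm_012_s1 : ∃ t, chk3 f_A00pm_012_s1 t 11 5 1 = true := ex3_b k51_A00pm_012_s1 k52_A00pm_012_s1

theorem t122_A00pm_012_s1 : ∃ t, chk3 f_A00pm_012_s1 t 11 2 1 = true := ex3_b k50_A00pm_012_s1 t121_A00pm_012_s1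

theorem t123_A00pm_012_s1 : ∃ t, chk3 f_A00pm_012_s1 t 21 11 1 = true := ex3_a k48_A00pm_012_s1 k49_A00pm_012_s1

theorem t124_A00pm_012_s1 : ∃ t, chk3 f_A00pm_012_s1 t 21 5 1 = true := ex3_b k47_A00pm_012_s1 t123_A00pm_012_s1

theorem t125_A00pm_012_s1 : ∃ t, chk3 f_A00pm_012_s1 t 21 2 1 = true := ex3_b k46_A00pm_012_s1 t124_A00pm_012_s1

theorem t126_A00pm_012_s1 : ∃ t, chk3 f_A00pm_012_s1 t 167 23 1 = true := ex3_b k44_A00pm_012_s1 k45_A00pm_012_s1

theorem t127_A00pm_012_s1 : ∃ t, chk3 f_A00pm_012_s1 t 167 22 1 = true := ex3_b k42_A00pm_012_s1 k43_A00pm_012_s1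

theorem t128_A00pm_012_s1 : ∃ t, chk3 f_A00pm_012_s1 t 167 11 1 = true := ex3_b t127_A00pm_012_s1 t126_A00pm_012_s1

theorem t129_A00pm_012_s1 : ∃ t, chk3 f_A00pm_012_s1 t 166 11 1 = true := ex3_b k40_A00pm_012_s1 k41_A00pm_012_s1

theorem t130_A00pm_012_s1 : ∃ t, chk3 f_A00pm_012_s1 t 83 11 1 = true := ex3_a t129_A00pm_012_s1 t128_A00pm_012_s1

theorem t131_A00pm_012_s1 : ∃ t, chk3 f_A00pm_012_s1 t 82 23 1 = true := ex3_a k38_A00pm_012_s1 k39_A00pm_012_s1

theorem t132_A00pm_012_s1 : ∃ t, chk3 f_A00pm_012_s1 t 82 11 1 = true := ex3_b k37_A00pm_012_s1 t131_A00pm_012_s1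

theorem t133_A00pm_012_s1 : ∃ t, chk3 f_A00pm_012_s1 t 41 11 1 = true := ex3_a t132_A00pm_012_s1 t130_A00pm_012_s1

theorem t134_A00pm_012_s1 : ∃ t, chk3 f_A00pm_012_s1 t 167 21 1 = true := ex3_b k35_A00pm_012_s1 k36_A00pm_012_s1

theorem t135_A00pm_012_s1 : ∃ t, chk3 f_A00pm_012_s1 t 83 21 1 = true := ex3_a k34_A00pm_012_s1 t134_A00pm_012_s1

theorem t136_A00pm_012_s1 : ∃ t, chk3 f_A00pm_012_s1 t 83 10 1 = true := ex3_b k33_A00pm_012_s1 t135_A00pm_012_s1

theorem t137_A00pm_012_s1 : ∃ t, chk3 f_A00pm_012_s1 t 41 10 1 = true := ex3_a k32_A00pm_012_s1 t136_A00pm_012_s1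

theorem t138_A00pm_012_s1 : ∃ t, chk3 f_A00pm_012_s1 t 41 5 1 = true := ex3_b t137_A00pm_012_s1 t133_A00pm_012_s1

theorem t139_A00pm_012_s1 : ∃ t, chk3 f_A00pm_012_s1 t 41 2 1 = true := ex3_b k31_A00pm_012_s1 t138_A00pm_012_s1

theorem t140_A00pm_012_s1 : ∃ t, chk3 f_A00pm_012_s1 t 163 23 1 = true := ex3_b k29_A00pm_012_s1 k30_A00pm_012_s1

theorem t141_A00pm_012_s1 : ∃ t, chk3 f_A00pm_012_s1 t 81 23 1 = true := ex3_a k28_A00pm_012_s1 t140_A00pm_012_s1

theorem t142_A00pm_012_s1 : ∃ t, chk3 f_A00pm_012_s1 t 81 11 1 = true := ex3_b k27_A00pm_012_s1 t141_A00pm_012_s1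

theorem t143_A00pm_012_s1 : ∃ t, chk3 f_A00pm_012_s1 t 81 5 1 = true := ex3_b k26_A00pm_012_s1 t142_A00pm_012_s1

theorem t144_A00pm_012_s1 : ∃ t, chk3 f_A00pm_012_s1 t 81 2 1 = true := ex3_b k25_A00pm_012_s1 t143_A00pm_012_s1

theorem t145_A00pm_012_s1 : ∃ t, chk3 f_A00pm_012_s1 t 40 2 1 = true := ex3_a k24_A00pm_012_s1 t144_A00pm_012_s1

theorem t146_A00pm_012_s1 : ∃ t, chk3 f_A00pm_012_s1 t 20 2 1 = true := ex3_a t145_A00pm_012_s1 t139_A00pm_012_s1

theorem t147_A00pm_012_s1 : ∃ t, chk3 f_A00pm_012_s1 t 10 2 1 = true := ex3_a t146_A00pm_012_s1 t125_A00pm_012_s1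

theorem t148_A00pm_012_s1 : ∃ t, chk3 f_A00pm_012_s1 t 5 2 1 = true := ex3_a t147_A00pm_012_s1 t122_A00pm_012_s1

theorem t149_A00pm_012_s1 : ∃ t, chk3 f_A00pm_012_s1 t 5 1 1 = true := ex3_b t148_A00pm_012_s1 t120_A00pm_012_s1

theorem t150_A00pm_012_s1 : ∃ t, chk3 f_A00pm_012_s1 t 18 31 1 = true := ex3_b k21_A00pm_012_s1 k22_A00pm_012_s1

theorem t151_A00pm_012_s1 : ∃ t, chk3 f_A00pm_012_s1 t 9 31 1 = true := ex3_a t150_A00pm_012_s1 k23_A00pm_012_s1

theorem t152_A00pm_012_s1 : ∃ t, chk3 f_A00pm_012_s1 t 18 30 1 = true := ex3_a k18_A00pm_012_s1 k19_A00pm_012_s1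

theorem t153_A00pm_012_s1 : ∃ t, chk3 f_A00pm_012_s1 t 9 30 1 = true := ex3_a t152_A00pm_012_s1 k20_A00pm_012_s1

theorem t154_A00pm_012_s1 : ∃ t, chk3 f_A00pm_012_s1 t 9 15 1 = true := ex3_b t153_A00pm_012_s1 t151_A00pm_012_s1

theorem t155_A00pm_012_s1 : ∃ t, chk3 f_A00pm_012_s1 t 19 14 1 = true := ex3_b k16_A00pm_012_s1 k17_A00pm_012_s1

theorem t156_A00pm_012_s1 : ∃ t, chk3 f_A00pm_012_s1 t 18 14 1 = true := ex3_a k14_A00pm_012_s1 k15_A00pm_012_s1

theorem t157_A00pm_012_s1 : ∃ t, chk3 f_A00pm_012_s1 t 9 14 1 = true := ex3_a t156_A00pm_012_s1 t155_A00pm_012_s1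

theorem t158_A00pm_012_s1 : ∃ t, chk3 f_A00pm_012_s1 t 9 7 1 = true := ex3_b t157_A00pm_012_s1 t154_A00pm_012_s1

theorem t159_A00pm_012_s1 : ∃ t, chk3 f_A00pm_012_s1 t 17 62 1 = true := ex3_a k11_A00pm_012_s1 k12_A00pm_012_s1

theorem t160_A00pm_012_s1 : ∃ t, chk3 f_A00pm_012_s1 t 17 31 1 = true := ex3_b t159_A00pm_012_s1 k13_A00pm_012_s1

theorem t161_A00pm_012_s1 : ∃ t, chk3 f_A00pm_012_s1 t 8 31 1 = true := ex3_a k10_A00pm_012_s1 t160_A00pm_012_s1

theorem t162_A00pm_012_s1 : ∃ t, chk3 f_A00pm_012_s1 t 17 61 1 = true := ex3_a k8_A00pm_012_s1 k9_A00pm_012_s1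

theorem t163_A00pm_012_s1 : ∃ t, chk3 f_A00pm_012_s1 t 17 30 1 = true := ex3_b k7_A00pm_012_s1 t162_A00pm_012_s1

theorem t164_A00pm_012_s1 : ∃ t, chk3 f_A00pm_012_s1 t 8 30 1 = true := ex3_a k6_A00pm_012_s1 t163_A00pm_012_s1

theorem t165_A00pm_012_s1 : ∃ t, chk3 f_A00pm_012_s1 t 8 15 1 = true := ex3_b t164_A00pm_012_s1 t161_A00pm_012_s1

theorem t166_A00pm_012_s1 : ∃ t, chk3 f_A00pm_012_s1 t 8 7 1 = true := ex3_b k5_A00pm_012_s1 t165_A00pm_012_s1

theorem t167_A00pm_012_s1 : ∃ t, chk3 f_A00pm_012_s1 t 4 7 1 = true := ex3_a t166_A00pm_012_s1 t158_A00pm_012_s1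

theorem t168_A00pm_012_s1 : ∃ t, chk3 f_A00pm_012_s1 t 9 13 1 = true := ex3_a k3_A00pm_012_s1 k4_A00pm_012_s1

theorem t169_A00pm_012_s1 : ∃ t, chk3 f_A00pm_012_s1 t 4 13 1 = true := ex3_a k2_A00pm_012_s1 t168_A00pm_012_s1

theorem t170_A00pm_012_s1 : ∃ t, chk3 f_A00pm_012_s1 t 4 6 1 = true := ex3_b k1_A00pm_012_s1 t169_A00pm_012_s1

theorem t171_A00pm_012_s1 : ∃ t, chk3 f_A00pm_012_s1 t 4 3 1 = true := ex3_b t170_A00pm_012_s1 t167_A00pm_012_s1

theorem t172_A00pm_012_s1 : ∃ t, chk3 f_A00pm_012_s1 t 4 1 1 = true := ex3_b k0_A00pm_012_s1 t171_A00pm_012_s1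

theorem t173_A00pm_012_s1 : ∃ t, chk3 f_A00pm_012_s1 t 2 1 1 = true := ex3_a t172_A00pm_012_s1 t149_A00pm_012_s1

theorem t174_A00pm_012_s1 : ∃ t, chk3 f_A00pm_012_s1 t 1 1 1 = true := ex3_a t173_A00pm_012_s1 t89_A00pm_012_s1

theorem c_A00pm_012_s1 : CertF 0 536870912 536870912 536870912 469762048 67108864 true true false .pnp 0 1 2
    ndF0q0 ndF0q1 pcF2 cut_A00pm_012_s1 xt_A00pm_012_s1 :=
  certF2 (fam := true) (s1 := true) (s2 := false) (a := 0) (b := 1) (c := 2) (cn := .pnp) (n1 := ndF0q0) (n2 := ndF0q1) (pc := pcF2) (cut := cut_A00pm_012_s1) (xt := xt_A00pm_012_s1) (P1 := 0) (W1 := 536870912) (P2 := 536870912) (W2 := 536870912) (P3 := 469762048) (W3 := 67108864)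
    rfl (fun _ => rfl) t174_A00pm_012_s1

theorem s_A00pm_012_s1 {κ x : ℝ} (hκ : κ * h0 = ken x) (hx : ((469762048 : ℕ) : ℝ) / S ≤ x)
    (hx' : x ≤ (((469762048 : ℕ) : ℝ) + (67108864 : ℕ)) / S)
    (H : CutA (VF κ) PP tKF tL pcF (Cut.of [[⟨0, 0, 0, 67108864⟩, ⟨1, 1, 0, 67108864⟩, ⟨2, 1, 0, 67108864⟩], [⟨0, 0, 1, 33554432⟩, ⟨1, 1, 0, 33554432⟩, ⟨2, 1, 1, 33554432⟩]]) 0 1 2 0 0 (sgb true) (sgb false) x) :
    AltA (VF κ) PP tKF tL pcF [⟨3, 0, 0, 1449551462⟩] 0 1 2 0 0 (sgb true) (sgb false) x :=
  strip_altA (m := 1449551462) true rfl hκ covF00 covF01 hx hx' c_A00pm_012_s1 H ((okx hx hx').extA (T := tt) (sideF hx hx') hκ rfl rfl (.O 0 true) (.O 1 false) rfl)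

end Pool.Agent.Strip051.G.I7_16_1_2.Tab.St.C
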