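import Pool.Agent.Strip051.G.I7_16_1_2.StF

/-! # Unit strips 3 (generated) -/

set_option linter.all false
set_option maxRecDepth 100000

namespace Pool.Agent.Strip051.G.I7_16_1_2.Tab.St.C

open Pool.Agent.Strip051.PB Pool.Agent.Strip051.PB.T Pool.Agent.StripNear Pool.Agent.Strip051.LC
open Pool.Agent.Strip051.G.I7_16_1_2.Tab Pool.Agent.Strip051.G.I7_16_1_2.Tab.St

noncomputable def cut_A00pm_102_s1 : Cut := Cut.of [[⟨4, 0, 0, 1449551462⟩], [⟨0, 1, 0, 67108864⟩, ⟨1, 0, 0, 67108864⟩, ⟨2, 1, 0, 67108864⟩], [⟨0, 1, 0, 33554432⟩, ⟨1, 0, 1, 33554432⟩, ⟨2, 1, 1, 33554432⟩]]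

noncomputable def xt_A00pm_102_s1 : Ext := strExt dd true true false .u0 .u0m .u2 .npp 1 0 2 rfl rfl gf2 vv ndF0q1 ndF0q0

noncomputable def f_A00pm_102_s1 : ℕ → ℕ → ℕ → ℕ → Bool := onCell 536870912 536870912 1073741824 536870912 469762048 67108864
    (rowF 1 true true false .npp 1 0 2 (qsf 536870912 536870912 0 536870912 2) ndF0q1 ndF0q0 pcF2 cut_A00pm_102_s1 xt_A00pm_102_s1)

def k0_A00pm_102_s1 : ∃ t, chk3 f_A00pm_102_s1 t 2 4 1 = true :=
  ⟨(a (l 3) (l 3)), by decide +kernel⟩

def k1_A00pm_102_s1 : ∃ t, chk3 f_A00pm_102_s1 t 2 80 1 = true :=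
  ⟨(a (l 3) (l 3)), by decide +kernel⟩

def k2_A00pm_102_s1 : ∃ t, chk3 f_A00pm_102_s1 t 4 81 1 = true :=
  ⟨(l 2), by decide +kernel⟩

def k3_A00pm_102_s1 : ∃ t, chk3 f_A00pm_102_s1 t 10 81 1 = true :=
  ⟨(l 3), by decide +kernel⟩

def k4_A00pm_102_s1 : ∃ t, chk3 f_A00pm_102_s1 t 22 81 1 = true :=
  ⟨(l 3), by decide +kernel⟩

def k5_A00pm_102_s1 : ∃ t, chk3 f_A00pm_102_s1 t 23 162 1 = true :=
  ⟨(a (l 3) (b (l 3) (a (l 3) (c (b (l 533093007) (l 533073039)) (b (c (l 533161871) (l 533189263)) (l 533155215)))))), by decide +kernel⟩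

def k6_A00pm_102_s1 : ∃ t, chk3 f_A00pm_102_s1 t 46 163 1 = true :=
  ⟨(b (l 3) (c (c (a (b (l 3) (l 533085071)) (c (b (a (l 3) (b (a (l 3) (b (a (l 3) (l 532870287)) (a (c (b (l 3) (b (l 532848271) (l 532856207))) (l 532866959)) (c (b (l 532856719) (l 532854671)) (l 532872335))))) (a (l 532910479) (a (l 532901519) (b (a (a (l 532882319) (l 532877455)) (l 532876431)) (l 532908943)))))) (a (l 533029775) (a (l 533009807) (a (l 533000079) (l 532992655))))) (b (a (l 3) (b (a (l 3) (a (b (l 3) (l 532890511)) (l 532899215))) (a (l 532940943) (a (l 532931727) (l 532909455))))) (a (l 533056655) (a (l 533036431) (a (l 533026447) (l 533018767))))))) (a (b (l 3) (l 533132431)) (b (a (l 3) (b (a (l 3) (a (b (l 3) (l 532931471)) (b (l 532943247) (l 532936591)))) (a (l 532979599) (a (l 532970127) (l 533082767))))) (a (l 533089935) (a (l 533069455) (a (l 533059215) (l 533051791))))))) (a (a (l 3) (b (l 3) (l 533162639))) (b (a (l 3) (b (a (l 3) (b (a (l 3) (a (l 3) (l 533003407))) (b (a (l 3) (l 532995471)) (a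 (b (c (l 532971919) (a (l 3) (l 533000335))) (l 532994447)) (c (l 532977295) (c (l 532999311) (a (l 533007503) (l 533011855)))))))) (a (l 533033359) (a (l 533023631) (c (b (l 532983951) (l 533014415)) (b (a (b (l 533006223) (l 533022351)) (l 533014159)) (l 533038479))))))) (a (l 533133199) (a (l 533112207) (a (l 533101711) (c (l 533083535) (b (l 533076111) (l 533126799)))))))))), by decide +kernel⟩

def k7_A00pm_102_s1 : ∃ t, chk3 f_A00pm_102_s1 t 47 163 1 = true :=
  ⟨(c (b (b (c (l 532993935) (l 533049743)) (a (a (l 532955791) (l 532988047)) (l 533032591))) (c (a (b (b (c (a (l 532890511) (l 532925839)) (l 532938639)) (a (c (a (b (l 532886671) (l 532901263)) (l 532900751)) (l 532933007)) (l 532938127))) (a (b (a (l 532957327) (l 532953231)) (l 533009807)) (c (l 533100687) (l 532993935)))) (b (b (l 532990095) (l 532984975)) (c (l 532994191) (l 533021071)))) (a (b (b (l 532978319) (a (a (l 532962703) (l 532969615)) (l 532990607))) (a (b (l 533003151) (l 533054607)) (l 533028495))) (b (l 533038223)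 (l 533054863))))) (b (b (a (c (l 533066127) (l 533094031)) (l 533132943)) (c (l 533066383) (l 533092495))) (a (b (b (b (l 533037199) (b (l 533031823) (l 533028495))) (a (a (b (b (l 533004687) (l 533009807)) (l 533022351)) (l 533023375)) (l 533043343))) (a (b (a (c (l 533042063) (l 533063823)) (l 533051791)) (a (l 533103759) (l 533092495))) (b (l 533060751) (l 533090959)))) (b (b (l 533093007) (l 533085327)) (l 533100175))))), by decide +kernel⟩

def k8_A00pm_102_s1 : ∃ t, chk3 f_A00pm_102_s1 t 4 41 1 = true :=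
  ⟨(l 2), by decide +kernel⟩

def k9_A00pm_102_s1 : ∃ t, chk3 f_A00pm_102_s1 t 10 82 1 = true :=
  ⟨(a (l 3) (a (l 3) (b (l 3) (b (l 3) (b (b (l 3) (a (l 3) (a (l 3) (c (l 534683791) (b (l 534532495) (l 534571407)))))) (b (a (l 3) (c (l 534812047) (c (l 534703503) (l 534618511)))) (a (a (l 3) (b (l 3) (l 534961551))) (c (l 534909327) (l 534743183))))))))), by decide +kernel⟩

def k10_A00pm_102_s1 : ∃ t, chk3 f_A00pm_102_s1 t 20 83 1 = true :=
  ⟨(b (a (l 2) (a (b (l 3) (l 2)) (b (l 3) (b (b (l 3) (c (l 536313487) (l 535958159))) (b (c (l 536457615) (l 536077199)) (c (l 536609935) (l 536202639))))))) (a (l 2) (b (b (a (l 2) (b (b (l 536516239) (a (l 2) (a (l 536567439) (l 536515215)))) (a (l 2) (b (b (l 536599439) (l 536640143)) (b (l 536681871) (l 536724879)))))) (a (l 2) (a (l 2) (b (b (b (l 536769167) (l 536814735)) (c (l 537129615) (l 536628111))) (b (c (l 537207439) (l 536692367)) (c (l 16777552) (l 536744847))))))) (b (b (a (l 2) (a (l 2) (b (b (b (l 537039247) (l 537050767)) (l 16777400))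 (l 2248147399)))) (a (l 2) (a (l 2) (a (l 2) (l 16777496))))) (a (l 2) (a (l 2) (a (l 2) (l 16777648)))))))), by decide +kernel⟩

def k11_A00pm_102_s1 : ∃ t, chk3 f_A00pm_102_s1 t 21 166 1 = true :=
  ⟨(b (b (a (a (l 3) (a (l 3) (b (l 3) (l 535285135)))) (c (b (a (c (l 535205519) (l 535116687)) (l 535008143)) (a (a (l 535310223) (l 535229071)) (l 535109519))) (b (a (c (l 535018895) (c (l 534939279) (l 534883471))) (l 534825615)) (a (c (l 535111311) (l 534995855)) (l 534909839))))) (a (b (a (l 3) (c (l 535549071) (l 535300239))) (c (c (l 535819151) (l 535688079)) (l 535476879))) (c (a (b (a (l 535420559) (l 535336591)) (l 535489167)) (b (l 535213199) (l 535319695))) (b (a (c (l 535206287) (l 535081871)) (l 534996111)) (a (l 535238031) (l 535084687)))))) (b (a (b (c (c (l 535949199) (l 535806607)) (l 535579791)) (c (c (l 536084367) (l 535929999)) (l 535686799))) (a (b (c (l 535604879) (l 535334031)) (c (l 535724943) (l 535433871))) (b (c (l 535429519) (l 535176079)) (c (l 535543695) (l 535270799)))))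 (c (a (b (c (l 536225679) (l 536059023)) (c (l 536375183) (l 536195471))) (b (a (l 535850639) (l 535662735)) (a (l 535983247) (l 535788431)))) (a (b (l 535798671) (l 535916687)) (b (a (l 535537807) (l 535369871)) (a (l 535647631) (l 535473807))))))), by decide +kernel⟩

def k12_A00pm_102_s1 : ∃ t, chk3 f_A00pm_102_s1 t 42 167 1 = true :=
  ⟨(b (b (b (c (b (l 536397967) (l 536477327)) (b (l 536009359) (l 536074639))) (a (c (b (l 536674959) (l 536764303)) (b (l 536244111) (l 536317839))) (c (b (l 536452751) (l 536538511)) (b (l 536048271) (l 536118927))))) (b (b (c (c (l 537119119) (l 536629135)) (c (b (l 536384399) (l 536425871)) (b (l 536159375) (l 536197007)))) (c (a (l 536953743) (l 536720271)) (a (l 536473743) (l 536268943)))) (b (c (a (l 537033615) (l 536800399)) (a (c (l 536663951) (l 536415375)) (l 536334991))) (c (a (a (l 16777488) (l 16777400)) (l 536870543)) (a (a (l 536646543) (l 16776872)) (a (l 16776712) (l 16776528))))))) (b (b (a (b (b (c (l 537145487) (b (l 536626319) (l 536637839)))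 (a (l 16777312) (l 16777208))) (a (l 16777352) (l 16777248))) (a (b (b (b (l 16777040) (l 16777048)) (l 16777072)) (l 16777112)) (b (b (b (l 16776872) (l 16776888)) (l 16776912)) (l 16776952)))) (b (a (a (a (l 16777432) (l 16777384)) (b (l 16777288) (l 16777312))) (a (l 16777168) (l 16777008))) (a (a (a (l 16777480) (l 16777432)) (l 16777352)) (a (l 16777224) (l 16777064))))) (a (c (a (l 16777976) (l 16777896)) (a (l 16777200) (l 16777072))) (c (l 16777728) (a (l 16776920) (l 16776736)))))), by decide +kernel⟩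

def k13_A00pm_102_s1 : ∃ t, chk3 f_A00pm_102_s1 t 43 167 1 = true :=
  ⟨(a (b (b (b (b (l 535912335) (l 535979151)) (b (c (l 536236687) (l 535857295)) (c (l 536317839) (l 535924111)))) (b (b (c (l 536403087) (l 535994767)) (c (l 536490383) (l 536066703))) (b (c (l 536568719) (l 536131471)) (c (l 536639375) (a (l 16776320) (l 16776080)))))) (a (b (b (b (b (b (l 16776680) (l 16776696)) (l 16776720)) (l 16776760)) (l 16776848)) (l 16777008)) (b (b (b (b (l 16776472) (l 16776504)) (l 16776544)) (l 16776632)) (l 16776792)))) (b (b (b (b (l 535723151) (l 535786127)) (b (l 535852175) (c (l 536104335) (l 535735183)))) (c (b (b (l 536184463) (l 16778856)) (b (l 16778944) (l 16776408))) (b (b (l 535801487) (l 535869327)) (b (l 535931791) (c (l 16775848) (l 16775472)))))) (a (b (b (b (b (l 16776224) (l 16776248)) (l 16776296)) (l 16776384)) (l 16776552)) (b (b (b (b (l 16775936) (l 16775968)) (l 16776016)) (l 16776104)) (l 16776272))))), by decide +kernel⟩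

def k14_A00pm_102_s1 : ∃ t, chk3 f_A00pm_102_s1 t 22 82 1 = true :=
  ⟨(b (a (l 3) (a (b (l 3) (a (b (l 3) (b (l 3) (c (l 533887887) (l 533855887)))) (b (c (c (l 533645967) (l 533658767)) (l 533653903)) (c (c (l 533801615) (l 533801871)) (l 533779087))))) (b (a (l 3) (b (l 3) (c (l 533431183) (l 533455247)))) (c (b (c (l 533582479) (l 533596047)) (c (l 533732751) (l 533734287))) (b (l 533592207) (l 533713295)))))) (b (a (a (a (l 3) (b (l 3) (b (l 3) (c (l 534376591) (c (l 534310543) (l 534252687)))))) (b (c (b (a (l 3) (l 534016143)) (c (l 534130063) (l 534111375))) (a (b (l 3) (c (l 534107791) (l 534064527))) (b (l 533969295) (l 534036623)))) (c (b (c (l 534215823) (l 534190223)) (c (l 534302607) (l 534269839))) (b (c (l 534152847) (l 534104207)) (c (l 534225807) (l 534170767)))))) (b (c (a (c (b (l 533943439) (l 534024335)) (l 533971087)) (c (l 533885839) (l 533874831))) (a (b (l 533896847) (l 533961871)) (l 533836431))) (c (a (b (l 534096015) (l 534175375)) (c (l 534041999) (l 534018447))) (a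 (b (l 534027407) (l 534093967)) (l 533961871))))) (b (a (c (b (a (c (l 534514575) (l 534470799)) (l 534371727)) (a (l 534583695) (l 534457231))) (b (a (c (l 534416015) (a (l 534379919) (l 534322319))) (l 534270095)) (a (c (l 534494351) (l 534421647)) (l 534341519)))) (c (a (b (l 534255759) (l 534337167)) (c (l 534201999) (l 534165135))) (a (b (l 534161039) (l 534229135)) (l 534090383)))) (a (c (b (a (l 534674575) (l 534543759)) (l 534964111)) (b (a (l 534535311) (l 534413967)) (a (l 534612367) (l 534487439)))) (c (b (a (l 534419599) (l 534301839)) (l 534439055)) (a (l 534334095) (l 534222223))))))), by decide +kernel⟩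

def k15_A00pm_102_s1 : ∃ t, chk3 f_A00pm_102_s1 t 23 164 1 = true :=
  ⟨(a (c (a (b (b (c (l 533222799) (l 533259151)) (c (b (l 533326991) (l 533397135)) (l 533387407))) (b (c (a (l 533523855) (l 533485455)) (l 533517455)) (c (l 533646991) (l 533649551)))) (c (b (a (b (l 533176719) (l 533311631)) (b (a (l 533154447) (c (l 533137039) (l 533157775))) (c (l 533269647) (l 533285519)))) (b (a (l 533448335) (l 533411983)) (a (l 533586831) (l 533547663)))) (b (b (a (l 533212559) (l 533198735)) (a (l 533336719) (l 533302927))) (b (l 533442959) (l 533569423))))) (b (a (b (l 533288079) (l 533400719)) (a (b (l 533240975) (l 533349775)) (b (a (l 533218191) (a (l 533206927) (l 533199247))) (l 533316239)))) (a (b (a (l 533534351) (l 533496719)) (l 533630351)) (b (l 533441167) (l 533552015))))) (c (b (c (a (a (a (b (l 533115023) (l 533248399)) (b (l 533093007) (l 533219727))) (b (c (l 533063823) (l 533086607)) (l 533189007))) (b (c (l 533062799) (l 533086095)) (c (l 533154191) (l 533173391)))) (a (a (b (l 533139087)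 (l 533257871)) (b (l 533115023) (l 533218703))) (b (l 533115023) (l 533196175)))) (a (a (b (c (c (l 533358223) (l 533369231)) (l 533379983)) (c (l 533499279) (l 533504399))) (b (c (l 533311887) (l 533331343)) (c (l 533440655) (l 533449359)))) (c (b (c (l 533259663) (l 533274255)) (c (l 533374351) (l 533384079))) (b (l 533290383) (l 533393039))))) (b (a (a (b (a (l 533181071) (l 533162895)) (a (l 533288591) (l 533264527))) (b (l 533149327) (l 533239695))) (b (a (l 533148047) (l 533156751)) (l 533354895))) (b (a (a (l 533381007) (l 533337743)) (l 533302159)) (a (a (l 533489807) (l 533440911)) (l 533391247)))))), by decide +kernel⟩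

def k16_A00pm_102_s1 : ∃ t, chk3 f_A00pm_102_s1 t 23 165 1 = true :=
  ⟨(a (b (c (a (b (l 533789839) (l 533932687)) (b (c (l 533705615) (l 533697423)) (c (l 533847695) (l 533827983)))) (a (b (l 533748111) (l 533867919)) (b (l 533664143) (l 533778575)))) (b (c (a (l 534078863) (l 533978255)) (a (l 533990287) (l 533895055))) (c (a (l 534228623) (l 534120847)) (a (l 534115727) (l 534014607))))) (b (c (a (b (a (c (l 533637519) (l 533631375)) (c (l 533573775) (l 533571727))) (a (l 533768335) (l 533705103))) (b (c (l 533498767) (l 533502095)) (c (l 533623439) (l 533616271)))) (a (a (b (l 533600911) (l 533712015)) (b (l 533547407) (l 533656975))) (b (l 533485967) (l 533585551)))) (c (a (b (a (l 533903247) (l 533839247)) (a (l 534040975) (l 533976207))) (b (c (l 533753231) (l 533735055)) (c (l 533887631) (l 533858447)))) (a (b (a (l 533824911) (l 533768847)) (a (l 533940367) (l 533883279))) (b (l 533688975) (l 533796239)))))), by decide +kernel⟩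

def k17_A00pm_102_s1 : ∃ t, chk3 f_A00pm_102_s1 t 22 166 1 = true :=
  ⟨(b (b (a (a (b (c (l 534861455) (l 534690959)) (c (l 534957711) (l 534771343))) (b (l 534646671) (l 534730639))) (b (c (l 534522255) (l 534377871)) (c (l 534606991) (l 534448783)))) (a (b (c (l 535111823) (a (l 534853519) (l 534716815))) (c (a (l 535157647) (l 535003279)) (l 534863759))) (b (c (l 534693519) (l 534520975)) (c (l 534782351) (l 534594959))))) (c (b (a (b (a (l 535262095) (l 535102095)) (a (l 535370127) (l 535204495))) (b (l 534873231) (l 534967439))) (a (b (a (l 535483023) (l 535311247)) (b (l 535477647) (l 535536783))) (b (l 535064975) (a (l 535252879) (l 535090831))))) (b (a (b (l 534948239) (l 535035791)) (b (l 534670991) (l 534749327))) (a (b (l 535126927) (l 535490959)) (b (l 534830479) (a (l 534992527) (l 534846095))))))), by decide +kernel⟩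

def k18_A00pm_102_s1 : ∃ t, chk3 f_A00pm_102_s1 t 22 167 1 = true :=
  ⟨(a (a (b (b (b (b (l 535541135) (l 535600527)) (b (l 535662735) (a (l 16775336) (l 16774984)))) (b (b (a (l 16775384) (l 16775040)) (a (l 16775448) (l 16775104))) (b (a (l 16775512) (l 16775168)) (a (l 16775576) (l 16775232))))) (a (b (b (b (b (l 16775624) (l 16775656)) (l 16775704)) (l 16775792)) (l 16775960)) (b (b (b (b (l 16775280) (l 16775312)) (l 16775352)) (l 16775448)) (l 16775616)))) (b (b (b (c (l 535810703) (l 535244943)) (b (l 535480975) (c (l 16774744) (l 16774056)))) (b (b (c (l 16774824) (l 16774088)) (c (l 16774912) (l 16774128))) (b (c (l 16775000) (l 16774168)) (c (l 16775088) (l 16774200))))) (a (b (b (b (b (l 16774896) (l 16774928)) (l 16774976)) (l 16775064)) (l 16775240)) (b (b (b (b (l 16774488) (l 16774520)) (l 16774560)) (l 16774656)) (l 16774824))))) (a (b (b (b (b (l 535200143) (l 535252623)) (b (c (l 16773824) (l 16773120)) (c (l 16773880) (l 16773136)))) (b (b (c (l 16773960) (l 16773160)) (c (l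 16774048) (l 16773200))) (b (c (l 16774136) (l 16773240)) (c (l 16774224) (l 16773272))))) (a (b (b (b (b (l 16774040) (l 16774072)) (l 16774112)) (l 16774208)) (l 16774376)) (b (b (b (b (l 16773552) (l 16773584)) (l 16773632)) (l 16773720)) (l 16773896)))) (c (b (b (b (a (l 16773024) (l 16772488)) (a (l 16773112) (l 16772576))) (b (a (l 16773264) (l 16772720)) (b (l 16773136) (l 16773224)))) (b (b (b (b (l 16773288) (l 16773328)) (l 16773392)) (l 16773520)) (l 16773776))) (b (b (b (a (l 16772336) (l 16771776)) (a (l 16772336) (l 16771776))) (b (a (l 16772392) (l 16771824)) (b (l 535199887) (a (l 16772488) (l 16771912))))) (b (b (b (b (l 16772232) (l 16772248)) (l 16772272)) (b (l 16772312) (l 16772344))) (a (l 16772696) (l 16772120))))))), by decide +kernel⟩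

def k19_A00pm_102_s1 : ∃ t, chk3 f_A00pm_102_s1 t 23 166 1 = true :=
  ⟨(a (b (b (c (a (l 534383503) (b (l 534229647) (l 534304143))) (a (l 534245007) (l 534137487))) (c (a (b (l 534501519) (l 534583439)) (b (l 534379919) (l 534457487))) (a (l 534379407) (a (l 16770424) (l 16769712))))) (b (c (a (b (l 534667407) (l 534753935)) (b (l 534536847) (l 534618255))) (b (a (l 534482063) (l 534361743)) (a (l 534553999) (l 534429839)))) (b (a (c (l 534843279) (l 534628495)) (c (l 534702479) (l 534499983))) (a (c (l 534936719) (l 534706063)) (c (a (l 16770616) (l 16769936)) (a (l 16769912) (l 16769200))))))) (b (a (b (b (c (l 534112655) (l 533998479)) (c (l 534184079) (l 534057871))) (c (b (a (l 16769472) (l 16768672)) (a (l 16769368) (l 16768568))) (a (l 16768960) (l 16768152)))) (b (b (c (l 533972879) (l 533878415)) (c (l 534040719) (l 533934735))) (c (b (l 534109839) (a (l 16767696) (l 16766784))) (a (l 16767288) (l 16766384))))) (b (a (c (b (a (l 16769288) (l 16768488)) (a (l 16769232) (l 16768440)))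 (b (l 534242959) (c (l 16768392) (l 16768056)))) (c (b (a (l 16767624) (l 16766704)) (a (l 16767568) (l 16766656))) (a (c (l 16767160) (l 16766840)) (l 16768720)))) (a (b (c (a (l 16769208) (l 16768408)) (c (l 16768312) (l 16767944))) (c (a (l 16769208) (l 16768416)) (a (l 16768456) (l 16767648)))) (b (c (c (l 16767248) (l 16766936)) (c (l 16766592) (l 16766224))) (c (a (l 16767560) (l 16766640)) (c (l 16769160) (l 16766128)))))))), by decide +kernel⟩

def k20_A00pm_102_s1 : ∃ t, chk3 f_A00pm_102_s1 t 46 167 1 = true :=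
  ⟨(a (c (a (b (b (b (l 16771912) (l 16772000)) (b (l 16772152) (b (l 16772280) (l 16772368)))) (b (b (b (b (l 16772432) (l 16772472)) (l 16772536)) (l 16772664)) (l 16772920))) (b (b (b (l 16771304) (l 16771392)) (b (c (l 16771768) (l 16771304)) (b (l 16771664) (l 16771752)))) (b (b (b (b (l 16771816) (l 16771864)) (l 16771928)) (l 16772048)) (l 16772296)))) (a (b (b (b (l 16771176) (l 16771176)) (b (a (l 16771376) (l 16771064)) (b (l 16771272) (l 16771312)))) (b (b (b (b (l 16771336) (l 16771352)) (l 16771376)) (l 16771424)) (l 16771512))) (b (b (b (l 16770536) (l 16770536)) (b (a (l 16770744) (l 16770416)) (b (l 16770632) (l 16770664)))) (b (b (b (b (l 16770696) (l 16770712)) (l 16770736)) (l 16770776)) (l 16770864))))) (c (a (b (b (b (l 16770664) (l 16770744)) (b (c (l 16771120) (l 16770656)) (b (l 16771016) (l 16771104)))) (b (b (b (b (l 16771168) (l 16771208)) (l 16771272)) (l 16771392)) (l 16771640))) (b (b (b (l 16769984) (l 16770064)) (b (c (l 16770440) (l 16769960)) (b (l 16770328) (l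 16770416)))) (b (b (b (b (l 16770480) (l 16770520)) (l 16770576)) (l 16770704)) (l 16770944)))) (b (b (b (a (l 16769872) (l 16769160)) (a (l 16769864) (l 16769160))) (b (b (a (l 16769896) (l 16769184)) (a (l 16769928) (l 16769216))) (b (a (l 16769960) (l 16769240)) (a (l 16769992) (l 16769272))))) (a (b (b (b (b (l 16770016) (l 16770032)) (l 16770048)) (l 16770096)) (l 16770176)) (b (b (b (b (l 16769296) (l 16769312)) (l 16769336)) (l 16769376)) (l 16769448)))))), by decide +kernel⟩

def k21_A00pm_102_s1 : ∃ t, chk3 f_A00pm_102_s1 t 94 167 1 = true :=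
  ⟨(c (b (b (b (a (l 16769256) (l 16768464)) (a (l 16769336) (l 16768544))) (b (b (a (l 16769432) (l 16768640)) (a (l 16769512) (l 16768720))) (b (a (l 16769600) (l 16768800)) (a (l 16769680) (l 16768880))))) (a (b (b (b (b (l 16769744) (l 16769784)) (l 16769840)) (l 16769960)) (l 16770208)) (b (b (b (b (l 16768936) (l 16768984)) (l 16769040)) (l 16769160)) (l 16769400)))) (c (a (b (b (b (l 16768632) (l 16768648)) (b (l 16768712) (b (l 16768776) (l 16768816)))) (b (b (b (b (l 16768848) (l 16768864)) (l 16768896)) (l 16768960)) (l 16769072))) (b (b (b (l 16767832) (l 16767848)) (b (l 16767904) (b (l 16767968) (l 16768008)))) (b (b (b (b (l 16768040) (l 16768056)) (l 16768088)) (l 16768144)) (l 16768256)))) (a (b (b (b (l 16768184) (l 16768160)) (b (l 16768168) (b (l 16768192) (l 16768208)))) (b (b (b (b (l 16768224) (l 16768232)) (l 16768240)) (l 16768264)) (l 16768296))) (b (b (b (l 16767376) (l 16767352)) (b (l 16767360) (b (l 16767384) (l 16767400)))) (b (b (b (b (l 16767408) (l 16767416)) (l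 16767424)) (l 16767440)) (l 16767472)))))), by decide +kernel⟩

def k22_A00pm_102_s1 : ∃ t, chk3 f_A00pm_102_s1 t 95 167 1 = true :=
  ⟨(c (b (b (b (a (l 16767600) (l 16766680)) (a (l 16767680) (l 16766760))) (b (b (a (l 16767776) (l 16766848)) (a (l 16767856) (l 16766928))) (b (a (l 16767936) (l 16767000)) (a (l 16768016) (l 16767080))))) (a (b (b (b (b (l 16768072) (l 16768112)) (l 16768176)) (l 16768288)) (l 16768528)) (b (b (b (b (l 16767136) (l 16767176)) (l 16767240)) (l 16767352)) (l 16767584)))) (b (b (b (a (l 16766752) (l 16765832)) (b (c (l 16766528) (l 16766040)) (a (l 16766744) (l 16765824)))) (b (b (a (l 16766760) (l 16765840)) (a (l 16766784) (l 16765864))) (b (a (l 16766808) (l 16765888)) (a (l 16766840) (l 16765912))))) (a (b (b (b (b (l 16766856) (l 16766872)) (l 16766888)) (l 16766928)) (l 16766992)) (b (b (b (b (l 16765936) (l 16765944)) (l 16765960)) (b (l 16765984) (l 16766008))) (c (l 16766448) (l 16765664)))))), by decide +kernel⟩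

def k23_A00pm_102_s1 : ∃ t, chk3 f_A00pm_102_s1 t 4 21 1 = true :=
  ⟨(l 2), by decide +kernel⟩

def k24_A00pm_102_s1 : ∃ t, chk3 f_A00pm_102_s1 t 10 21 1 = true :=
  ⟨(a (b (a (l 2) (b (b (a (l 2) (a (l 2) (a (l 2) (a (l 2) (l 16778136))))) (l 2)) (l 2))) (l 2)) (b (b (a (c (a (a (b (l 16778696) (l 16779840)) (b (l 16778624) (l 16779768))) (a (b (l 16778520) (l 16779672)) (b (l 16778392) (l 16779552)))) (a (a (b (c (l 16777776) (l 16777168)) (c (l 16778408) (l 16777448))) (b (c (l 16777664) (l 16777032)) (c (l 16778288) (l 16777304)))) (a (b (c (l 16777528) (l 16776864)) (l 16777640)) (b (l 16777016) (l 16777456))))) (c (a (a (b (l 16778240) (l 16779400)) (b (l 16778048) (l 16779216))) (a (b (l 16777832) (l 16779000)) (l 16778168))) (a (a (b (l 16776808) (l 16777248)) (b (l 16776576) (l 16777008))) (a (b (l 16776312) (l 16776736)) (b (l 16776008) (l 16776432)))))) (b (a (a (a (l 2) (a (l 2) (l 16779568))) (c (a (l 16780840) (l 16780712)) (a (l 16778104) (l 16777920)))) (a (c (a (l 16780560) (l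 16780384)) (a (l 16777696) (l 16777448))) (a (l 16778664) (l 16778392)))) (a (a (l 2) (c (a (l 16782040) (l 16781912)) (a (l 16778616) (l 16778416)))) (a (a (a (l 16780016) (l 16779912)) (l 16777128)) (a (l 16779496) (l 16779208)))))) (b (a (a (l 2) (a (l 2) (a (l 2) (b (l 16781000) (l 2))))) (a (a (b (a (l 16780896) (l 16780792)) (l 16776520)) (b (l 16780616) (l 16781528))) (c (a (l 16783208) (l 16782952)) (a (l 16778424) (l 16778088))))) (a (l 2) (a (a (l 2) (b (l 16782488) (l 2))) (c (a (l 16785808) (l 16785552)) (a (l 16779632) (l 16779272)))))))), by decide +kernel⟩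

def k25_A00pm_102_s1 : ∃ t, chk3 f_A00pm_102_s1 t 11 42 1 = true :=
  ⟨(a (b (a (c (a (a (l 16777888) (l 16777576)) (a (l 16777224) (l 16776832))) (b (a (a (l 16775680) (l 16775312)) (a (l 16774920) (l 16774480))) (a (a (l 16776096) (l 16775728)) (a (l 16775328) (l 16774888))))) (b (a (a (l 16774912) (a (l 16774552) (l 16774296))) (c (a (l 16774832) (l 16774296)) (a (l 16772968) (l 16772384)))) (a (a (l 16775704) (l 16775208)) (a (l 16774680) (l 16774112))))) (a (a (c (a (l 16780232) (l 16779912)) (a (l 16776744) (l 16776360))) (c (a (l 16779560) (l 16779176)) (a (l 16775944) (l 16775488)))) (a (c (a (l 16778744) (l 16778272)) (a (l 16775000) (l 16774472))) (a (c (l 16777760) (l 16773904)) (c (l 16777208) (l 16773296)))))) (a (b (a (a (b (c (l 16773712) (l 16771768)) (l 16773504)) (b (c (l 16773088) (l 16771104)) (c (l 16774264) (l 16771456)))) (a (b (c (l 16772424) (l 16770408)) (c (l 16773592) (l 16770744))) (b (c (l 16771720) (b (l 16769592) (l 16769760))) (c (l 16772880) (l 16769992))))) (a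 (a (c (l 16776616) (l 16772640)) (c (l 16775976) (l 16771952))) (a (b (l 16772888) (l 16773616)) (c (l 16774568) (l 16770440))))) (b (b (a (c (a (c (l 16771480) (l 16770456)) (c (l 16770672) (l 16769640))) (a (b (l 16768816) (l 16768976)) (b (l 16767992) (l 16768136)))) (c (a (b (l 16768984) (l 16769568)) (b (l 16768040) (l 16768616))) (a (b (l 16767104) (l 16767248)) (b (l 16766168) (l 16766304))))) (a (c (a (l 16772120) (l 16771296)) (a (l 16769192) (l 16768344))) (c (a (l 16770400) (l 16769448)) (a (l 16767440) (l 16766480))))) (c (a (a (l 16773784) (l 16772944)) (a (l 16772040) (l 16771064))) (a (b (a (l 16769480) (l 16768616)) (l 16774584)) (b (a (l 16767696) (l 16766720)) (l 16767472))))))), by decide +kernel⟩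

def k26_A00pm_102_s1 : ∃ t, chk3 f_A00pm_102_s1 t 11 43 1 = true :=
  ⟨(a (a (a (b (a (c (l 16782664) (l 16777728)) (c (l 16782344) (l 16777320))) (a (c (l 16785256) (l 16778888)) (c (l 16784920) (l 16778464)))) (b (a (c (l 16781984) (l 16776888)) (c (l 16781584) (l 16776408))) (a (c (l 16784552) (l 16778000)) (c (l 16784144) (l 16777504))))) (a (b (a (c (l 16781144) (l 16775896)) (c (l 16780664) (l 16775344))) (a (c (l 16783688) (l 16776968)) (l 16779776))) (a (b (c (l 16780136) (l 16774744)) (l 16779192)) (b (c (l 16779576) (l 16774112)) (l 16778576))))) (a (a (a (b (c (l 16778968) (l 16773432)) (c (l 16781456) (l 16774400))) (b (c (l 16778312) (l 16772712)) (l 16782440))) (b (c (a (l 16777608) (l 16776856)) (a (l 16771952) (l 16771144))) (a (l 16781680) (c (l 16779296) (l 16772016))))) (a (a (b (c (l 16776056) (l 16770288)) (c (l 16778472) (l 16771120))) (b (c (l 16775192) (l 16769376)) (l 16779104))) (b (a (c (l 16774264) (l 16768416)) (c (l 16773264) (l 16767392))) (a (l 16783368) (l 16771840)))))),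 by decide +kernel⟩

def k27_A00pm_102_s1 : ∃ t, chk3 f_A00pm_102_s1 t 4 11 1 = true :=
  ⟨(l 2), by decide +kernel⟩

def k28_A00pm_102_s1 : ∃ t, chk3 f_A00pm_102_s1 t 10 11 1 = true :=
  ⟨(b (a (l 2) (a (l 2) (b (a (l 2) (a (l 2) (a (l 2) (b (l 16784384) (l 2))))) (l 2)))) (l 2)), by decide +kernel⟩

def k29_A00pm_102_s1 : ∃ t, chk3 f_A00pm_102_s1 t 11 11 1 = true :=
  ⟨(b (a (a (b (a (a (b (c (l 16788016) (l 16780248)) (l 2)) (b (c (l 16787672) (l 16779800)) (c (l 16790616) (l 16781344)))) (b (a (c (l 16787296) (l 16779320)) (c (l 16786880) (l 16778800))) (a (c (l 16790232) (l 16780848)) (c (l 16789808) (l 16780304))))) (a (l 2) (a (l 2) (b (l 16784832) (l 2))))) (b (a (a (b (l 16782304) (l 16784504)) (b (l 16781752) (l 16783936))) (a (b (l 16781152) (l 16783320)) (b (l 16780512) (l 16782656)))) (a (a (b (l 16786912) (l 2)) (b (l 16786328) (l 16788936))) (b (c (l 16791064) (l 16784968)) (c (l 16794376) (l 16781608)))))) (a (b (a (a (b (l 16779824) (l 16781944)) (b (l 16779088) (l 16781192))) (a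 (b (l 16783544) (l 16780384)) (b (l 16782712) (l 16779528)))) (a (b (c (l 16789728) (l 16778160)) (c (l 16793024) (l 16780000))) (b (c (l 16788192) (l 16776400)) (c (l 16791464) (l 16778192))))) (b (a (b (a (l 16787072) (l 16775640)) (a (l 16778624) (l 16777648))) (b (a (l 16774640) (l 16773568)) (c (l 16781416) (l 16770808)))) (a (b (c (l 16786432) (l 16774432)) (c (l 16789672) (l 16776176))) (b (a (l 16778824) (l 16777704)) (c (l 16787600) (l 16773920))))))) (a (b (a (l 2) (a (l 2) (b (c (l 16797896) (l 16783720)) (l 2)))) (l 2)) (a (b (a (b (c (l 16796544) (l 16782080)) (c (l 16800288) (l 16784400))) (b (c (l 16794968) (l 16780232)) (c (l 16798704) (l 16782520)))) (a (l 2) (b (c (l 16802672) (l 16785056)) (l 2)))) (b (a (b (c (l 16793152) (l 16778160)) (c (l 16796872) (l 16780408))) (b (c (l 16791056) (l 16775856)) (c (l 16794752) (l 16778056)))) (a (b (c (l 16800840) (l 16782912)) (l 7616913223)) (b (c (l 16798704) (l 16780520)) (l 16803504))))))), by decide +kernel⟩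

def k30_A00pm_102_s1 : ∃ t, chk3 f_A00pm_102_s1 t 2 3 1 = true :=
  ⟨(a (l 2) (b (b (a (l 2) (a (l 2) (b (a (l 2) (b (a (l 2) (b (l 16807232) (l 2))) (l 2))) (l 2)))) (l 2)) (l 2))), by decide +kernel⟩

def k31_A00pm_102_s1 : ∃ t, chk3 f_A00pm_102_s1 t 12 4 1 = true :=
  ⟨(b (l 3) (b (l 3) (b (l 3) (a (l 3) (b (b (l 3) (b (l 3) (a (l 3) (a (l 3) (a (l 3) (b (l 3) (c (l 533325967) (l 533404047)))))))) (a (c (b (l 3) (a (b (l 3) (b (l 3) (l 533454479))) (b (a (l 3) (l 533334927)) (a (c (b (l 533296783) (l 533290895)) (b (a (l 533354127) (l 533353359)) (l 533346959))) (b (l 533326223) (l 533320847)))))) (b (l 3) (a (b (l 3) (b (l 3) (c (l 533388943) (a (l 3) (l 533414287))))) (b (a (l 3) (b (l 3) (l 533413263))) (a (b (c (a (l 533395343) (b (l 533396111) (l 533392527))) (a (b (l 3) (l 533418639)) (b (a (l 3) (l 533420687)) (c (l 533412495) (l 533420943))))) (a (l 533402255) (c (l 533387151) (l 533411727)))) (b (c (l 533392271) (l 533416591)) (c (l 533385871) (l 533409935)))))))) (c (b (a (c (l 533315215)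 (l 533372559)) (b (l 533342351) (l 533349775))) (b (a (l 533330831) (l 533319567)) (a (b (l 533323919) (l 533319567)) (l 533313167)))) (b (b (a (l 3) (a (b (l 3) (l 533422735)) (b (l 533413263) (l 533417871)))) (a (a (b (l 3) (l 533422479)) (b (l 533423247) (l 533417103))) (a (l 533414543) (a (l 533409935) (l 533410191))))) (b (a (c (l 533396111) (l 533419919)) (a (l 533404303) (l 533399951))) (a (b (l 533401487) (l 533395855)) (a (l 533394831) (l 533390735)))))))))))), by decide +kernel⟩

def k32_A00pm_102_s1 : ∃ t, chk3 f_A00pm_102_s1 t 13 8 1 = true :=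
  ⟨(l 3), by decide +kernel⟩

def k33_A00pm_102_s1 : ∃ t, chk3 f_A00pm_102_s1 t 13 18 1 = true :=
  ⟨(b (l 3) (a (l 3) (a (l 3) (a (l 3) (b (l 3) (b (l 3) (l 533032591))))))), by decide +kernel⟩

def k34_A00pm_102_s1 : ∃ t, chk3 f_A00pm_102_s1 t 13 38 1 = true :=
  ⟨(b (a (l 3) (a (a (b (l 3) (c (l 533095567) (l 533142159))) (b (l 533084303) (l 533108879))) (c (b (l 533033359) (l 533055631)) (b (l 533063823) (l 533089935))))) (a (a (l 3) (c (b (l 533143695) (l 533172879)) (a (b (l 3) (l 533247775)) (b (l 533193103) (l 533224335))))) (a (a (c (b (l 533121167) (l 533150607)) (b (l 533171087) (l 533202063))) (b (c (l 533106063) (l 533150863)) (l 533166111))) (b (a (l 533119887) (l 533105551)) (a (l 533149839) (l 533135247)))))), by decide +kernel⟩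

def k35_A00pm_102_s1 : ∃ t, chk3 f_A00pm_102_s1 t 13 39 1 = true :=
  ⟨(a (b (c (a (a (b (l 3) (c (l 533265807) (l 533319055))) (b (l 533237647) (c (l 533246863) (l 533297039)))) (b (l 533205647) (b (l 533233295) (l 533252495)))) (a (c (a (b (l 3) (b (l 533347215) (l 533365647))) (b (l 533295247) (l 533330831))) (a (a (b (l 3) (b (l 3) (l 533394063))) (b (l 3) (c (b (l 533358223) (l 533376143)) (b (c (l 533363087) (l 533365135)) (b (l 533377679) (l 533386895)))))) (b (c (l 533310607) (l 533315983)) (c (l 533345935) (b (l 533342351) (l 533360015)))))) (a (b (l 533281055) (b (l 533307791) (l 533325967))) (b (l 533257359) (l 533560975))))) (c (a (b (a (c (l 533296783) (l 533348751)) (b (l 533303439) (l 533317007))) (a (b (l 533328783) (l 533325711)) (l 533324687))) (b (b (l 533272463) (l 533289359)) (a (l 533316239) (l 533305231)))) (b (a (a (a (b (a (l 533539215) (l 533398159)) (l 533406095)) (b (l 533389711) (l 533397647))) (b (c (l 533358991) (l 533376143)) (l 533381263))) (a (b (l 533344399) (l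 533358735)) (l 533597071))) (a (a (b (l 533398159) (l 533392783)) (b (l 533385615) (l 533386895))) (a (b (l 533367695) (l 533374095)) (l 533353359)))))) (b (a (b (a (l 533216799) (l 533198991)) (a (c (l 533220239) (l 533270159)) (l 533234463))) (b (c (l 533143183) (l 533180815)) (c (l 533447823) (l 533483407)))) (a (b (a (c (l 533259919) (l 533306511)) (c (l 533244815) (l 533285263))) (a (c (l 533293199) (l 533334927)) (c (l 533280911) (l 533316495)))) (b (c (a (l 533231247) (l 533218703)) (a (l 533265551) (l 16762400))) (c (a (l 533269135) (l 16758816)) (a (l 16762592) (l 16748512))))))), by decide +kernel⟩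

def k36_A00pm_102_s1 : ∃ t, chk3 f_A00pm_102_s1 t 14 8 1 = true :=
  ⟨(a (l 3) (b (l 3) (b (l 3) (a (l 3) (b (b (l 3) (a (l 3) (a (l 3) (a (b (l 3) (l 532930959)) (b (l 532936335) (l 532930447)))))) (b (a (a (l 3) (a (l 3) (b (l 3) (l 532923535)))) (c (a (b (l 532946063) (l 532940175)) (b (l 532945551) (l 532940431))) (a (l 532889743) (l 532887951)))) (a (c (a (c (l 532936591) (l 532928399)) (c (l 532936335) (l 532927631))) (a (l 532891023) (l 532888975))) (c (a (l 533201951) (l 533202575)) (a (l 532887183) (l 532885903)))))))))), by decide +kernel⟩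

def k37_A00pm_102_s1 : ∃ t, chk3 f_A00pm_102_s1 t 30 16 1 = true :=
  ⟨(a (l 3) (b (l 3) (a (l 3) (b (l 3) (a (l 3) (b (l 3) (a (b (l 3) (c (b (a (l 3) (c (l 533187215) (l 533115279))) (a (l 533143695) (l 533142159))) (b (a (l 3) (l 532981647)) (a (l 532978319) (l 532976527))))) (a (b (l 3) (c (b (l 533352591) (l 533140623)) (b (l 532979599) (l 532974735)))) (b (l 14) (c (b (l 533149583) (l 533139087)) (b (l 532977807) (l 532972687)))))))))))), by decide +kernel⟩

def k38_A00pm_102_s1 : ∃ t, chk3 f_A00pm_102_s1 t 60 17 1 = true :=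
  ⟨(b (b (l 3) (a (l 3) (b (a (l 3) (b (l 3) (a (c (l 533021071) (l 532921743)) (b (l 532980367) (l 532973967))))) (b (a (a (l 3) (a (l 532968079) (l 532967567))) (a (l 533234463) (c (l 533004943) (l 532912015)))) (a (a (a (l 532958351) (l 532957839)) (l 533225103)) (a (l 532956047) (l 533224079))))))) (a (b (a (b (b (l 3) (c (l 532969103) (l 532898703))) (c (b (l 532959887) (l 532951951)) (b (l 532894095) (l 532890511)))) (a (b (b (c (l 532981391) (l 532904335)) (l 532941711)) (c (l 532957071) (l 532892303))) (b (b (c (l 532980879) (l 532903055)) (c (l 532970639) (l 532897935))) (c (l 532957327) (l 532891791))))) (a (b (c (b (l 532945807) (l 532940943)) (l 532886671)) (c (l 532935311) (l 532885391))) (b (c (a (l 532945295) (l 532945807)) (l 533154191)) (c (l 533205135) (l 532885135))))) (b (a (b (b (c (a (l 532980879) (l 532980623)) (a (l 532902031) (l 532901263))) (a (l 532940687) (l 532940687))) (b (a (l 532934543) (l 532934799)) (a (l 532929679) (l 532929935)))) (b (b (a (l 532947599) (l 532947343))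 (a (l 532940431) (l 532940687))) (c (a (l 532959119) (l 532960143)) (a (l 532891023) (l 532891023))))) (a (b (c (a (l 532946831) (l 532947855)) (l 533287967)) (c (l 533207183) (l 532885135))) (a (b (c (l 532948879) (l 532887951)) (l 532922511)) (b (b (l 532927887) (l 532925583)) (l 532923791))))))), by decide +kernel⟩

def k39_A00pm_102_s1 : ∃ t, chk3 f_A00pm_102_s1 t 122 34 1 = true :=
  ⟨(b (a (b (l 3) (b (l 3) (a (l 3) (c (l 533055119) (l 532936591))))) (b (a (l 3) (a (l 3) (b (l 3) (b (l 3) (l 533030543))))) (b (a (b (l 3) (l 533013647)) (c (l 533342095) (l 532944271))) (a (c (l 533053583) (l 532934543)) (c (l 533052303) (l 532932495)))))) (a (b (b (a (c (l 533036687) (l 532927887)) (c (l 533035663) (l 532926095))) (a (c (l 533019535) (l 532918415)) (c (l 533019023) (l 532917135)))) (b (a (c (l 533004687) (l 532910735)) (l 532963983)) (a (l 532955279) (l 532955023)))) (b (b (a (c (l 533034639) (l 532924303)) (c (l 533034127) (l 532922767))) (a (c (l 533018511) (l 532915855)) (c (l 533018255)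 (l 532914831)))) (b (a (l 532963727) (l 532963215)) (a (l 532954767) (l 532954767)))))), by decide +kernel⟩

def k40_A00pm_102_s1 : ∃ t, chk3 f_A00pm_102_s1 t 123 34 1 = true :=
  ⟨(b (a (b (b (a (l 3) (a (b (l 3) (l 533315983)) (b (a (l 533326479) (l 533057423)) (l 533046159)))) (a (c (b (l 533102991) (l 533089935)) (a (l 532956815) (l 532955279))) (c (a (l 533095823) (l 533094799)) (a (l 532953999) (l 532952719))))) (a (b (c (l 533340559) (l 532941711)) (c (l 533051279) (l 532930703))) (b (c (l 533339023) (l 532939407)) (b (l 533000335) (l 532993167))))) (b (b (a (c (a (b (l 533128079) (l 533113743)) (b (l 533126799) (l 533112463))) (a (l 532965775) (l 532963983))) (c (a (b (l 533125519) (l 533111439)) (l 533385359)) (a (l 532962447) (l 532960911)))) (a (c (a (l 533093775) (l 533093007)) (a (l 532951183) (l 532949903))) (c (a (l 533091983) (l 533091215)) (a (l 532948879) (l 532947599))))) (b (a (c (l 533337487) (l 533205903)) (a (l 533278863) (l 533278095))) (a (c (l 533049487) (l 532927375))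 (a (l 532995983) (l 532995471)))))) (a (b (a (b (c (l 533033359) (l 532921487)) (c (l 533017999) (l 532913807))) (b (c (l 533032847) (l 532920207)) (c (l 533017999) (l 532913039)))) (a (b (l 532963215) (l 532955023)) (b (l 532962959) (l 532955279)))) (b (a (b (c (l 533032591) (l 532919183)) (c (l 533017999) (l 532912271))) (b (a (l 532983695) (l 532983439)) (c (l 533018255) (l 532911759)))) (a (b (l 533231391) (l 532955791)) (b (c (l 533006223) (l 532906383)) (l 533224591)))))), by decide +kernel⟩

def k41_A00pm_102_s1 : ∃ t, chk3 f_A00pm_102_s1 t 61 35 1 = true :=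
  ⟨(b (c (a (a (b (a (l 533244559) (l 532976783)) (a (l 532961167) (l 532962447))) (b (a (l 532977551) (l 532978319)) (a (l 532963727) (l 532965007)))) (c (c (c (a (a (l 533254543) (l 533256591)) (a (l 533258639) (b (l 16758296) (l 16754368)))) (a (a (l 533250959) (l 533252751)) (a (l 533254799) (b (l 16758272) (l 16754352))))) (a (b (a (l 532985999) (l 16763976)) (a (l 16759000) (l 16757456))) (b (a (l 16759800) (l 16758232)) (b (l 16756088) (l 16754128))))) (a (a (b (l 532963983) (l 16761528)) (b (l 532965007) (l 16757360))) (b (a (l 16762320) (l 16760736)) (b (l 16755976) (l 16754016)))))) (a (a (b (a (l 532896911) (l 532896655)) (a (l 532891023) (l 532891279))) (b (a (l 532896655) (l 532896655)) (a (l 532891791) (l 532892303)))) (a (b (a (l 532896655) (l 532897167)) (a (l 532892815) (l 532893583))) (a (b (l 533165967) (l 532894351)) (c (b (l 16760528) (l 16753968)) (b (l 16760256) (l 16753664))))))) (b (a (a (c (a (l 532951695) (l 532953231)) (a (l 532888719) (l 532889487))) (a (b (l 532930703)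 (l 16759632)) (b (l 16760064) (l 16755480)))) (a (a (c (l 16757688) (l 16759928)) (c (l 16753520) (l 16753104))) (b (a (l 16752752) (c (l 16751376) (l 16750888))) (a (l 16750792) (l 16749304))))) (a (a (a (l 532925071) (l 532926351)) (a (l 532927887) (l 532929423))) (a (a (l 532931215) (b (l 16750416) (l 16748488))) (a (b (l 16748904) (l 16747040)) (l 16746520)))))), by decide +kernel⟩

def k42_A00pm_102_s1 : ∃ t, chk3 f_A00pm_102_s1 t 31 16 1 = true :=
  ⟨(a (b (l 14) (a (b (l 14) (a (a (a (a (b (l 3) (b (l 14) (b (l 14) (l 533330319)))) (l 14)) (l 14)) (l 14)) (l 14))) (l 14))) (l 14)), by decide +kernel⟩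

def k43_A00pm_102_s1 : ∃ t, chk3 f_A00pm_102_s1 t 62 34 1 = true :=
  ⟨(b (b (a (a (a (b (c (a (l 533384079) (l 533114511)) (a (l 532959375) (l 532958095))) (c (a (l 533090447) (l 533089679)) (a (l 532946319) (l 532945295)))) (b (a (c (l 533113487) (l 532956559)) (l 14)) (a (c (l 533088911) (l 532944271)) (b (l 533026959) (l 533018511))))) (a (b (l 14) (a (b (l 14) (l 533017743)) (l 14))) (l 14))) (l 14)) (a (a (a (b (a (l 533277327) (l 533008271)) (a (l 532995215) (l 532994703))) (b (a (l 533007759) (l 533007247)) (a (l 532994447) (l 532994191)))) (a (b (a (l 533006479) (l 533005967)) (a (l 532993935) (l 532993679))) (a (b (l 533005711) (l 532993423)) (b (l 14) (l 532993167))))) (a (b (l 14) (a (c (l 16760856) (l 16760304)) (l 14))) (l 14)))) (a (b (a (a (b (a (l 532983439) (l 532983183)) (a (l 532973455) (l 532973455))) (b (a (l 532983183) (l 532983183)) (c (l 16761840) (l 16764024)))) (c (a (b (l 16764792) (l 16760224)) (b (l 16760544) (l 16758584))) (a (b (l 16764336) (l 16759744)) (b (l 16760032)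 (l 16758056))))) (a (a (b (c (l 16761488) (l 16761080)) (c (l 16759544) (l 16759104))) (c (b (l 16759888) (l 16757936)) (b (l 16759432) (l 16757456)))) (a (c (b (l 16758272) (l 16756312)) (b (l 16757768) (l 16755792))) (a (b (l 16756808) (l 16754904)) (b (l 16756016) (l 16754112)))))) (a (b (b (a (a (l 16761688) (c (l 16758504) (l 16757912))) (c (l 16757336) (l 16756656))) (a (a (l 16757136) (l 16756328)) (l 16755128))) (c (a (l 16754200) (l 16752672)) (a (l 16753488) (l 16751832)))) (a (b (c (l 16754840) (l 16754000)) (c (l 16751120) (l 16750160))) (b (l 14) (c (l 16749552) (l 16748456))))))), by decide +kernel⟩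

def k44_A00pm_102_s1 : ∃ t, chk3 f_A00pm_102_s1 t 62 35 1 = true :=
  ⟨(a (b (b (a (a (b (l 533219727) (l 16755432)) (b (c (l 16755976) (l 16755480)) (c (l 16754048) (l 16753520)))) (a (b (c (l 16754424) (l 16753856)) (l 16752280)) (c (l 16752000) (l 16751280)))) (a (a (b (c (l 16753664) (l 16753184)) (l 16751568)) (b (l 16751936) (l 16750048))) (c (l 16749064) (l 16748272)))) (c (b (a (l 16748312) (l 16745424)) (a (l 16744696) (l 16741824))) (a (b (l 16747624) (l 16743864)) (b (l 16744488) (l 16740744))))) (b (a (b (c (a (l 16750496) (l 16748976)) (a (l 16749656) (l 16748008))) (c (l 16746080) (l 16745040))) (b (c (a (l 16747440) (l 16745872)) (a (l 16746336) (l 16744648))) (c (l 16743016) (l 16741712)))) (a (b (c (l 16742456) (l 16741272)) (c (l 16738872) (l 16737536))) (b (c (l 16739400) (l 16737968)) (c (l 16735832) (l 16734248)))))), by decide +kernel⟩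

def k45_A00pm_102_s1 : ∃ t, chk3 f_A00pm_102_s1 t 63 17 1 = true :=
  ⟨(b (a (b (l 14) (a (a (a (b (l 14) (l 16747792)) (l 14)) (l 14)) (l 14))) (l 14)) (a (b (a (b (c (a (l 16744288) (l 16742672)) (a (l 16742936) (l 16741200))) (c (l 16739856) (l 16738304))) (a (b (a (l 16740704) (l 14)) (l 16736592)) (b (l 14) (l 16734880)))) (a (c (b (l 16736264) (l 16732704)) (b (l 16734568) (l 16730864))) (c (b (l 16733024) (l 16729480)) (b (l 16731080) (l 16727392))))) (a (b (a (b (l 14) (l 16733144)) (l 14)) (c (b (l 16729704) (l 16726176)) (b (l 16727496) (l 16723824)))) (b (l 14) (c (a (l 16725384) (l 16723656)) (a (l 16722912) (l 16721056))))))), by decide +kernel⟩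

def k46_A00pm_102_s1 : ∃ t, chk3 f_A00pm_102_s1 t 28 18 1 = true :=
  ⟨(b (c (b (l 3) (a (l 3) (a (a (l 3) (a (l 3) (b (l 3) (b (l 3) (b (l 3) (l 532951439)))))) (a (b (l 3) (b (l 532943759) (a (b (l 532947855) (l 532950159)) (l 532947599)))) (b (c (l 532934799) (l 532935567)) (b (l 532941455) (l 532945551))))))) (a (l 3) (a (b (l 3) (b (l 3) (b (l 3) (l 532931215)))) (b (l 3) (b (c (l 532922767) (l 532898447)) (b (l 532917903) (a (l 532926607) (l 532923023)))))))) (a (a (b (l 3) (b (c (l 532989583) (l 532999823)) (l 533020303))) (b (a (b (l 3) (c (l 532973711) (l 532971919))) (b (a (l 3) (b (l 3) (l 532964495))) (c (l 532969871) (l 532966287)))) (b (c (l 532981135) (l 532987279)) (a (l 533013903) (l 533009039))))) (a (b (b (c (c (b (c (l 532948623) (l 532953231)) (l 532953487)) (l 532956047)) (l 533207951)) (b (c (l 532960911) (l 532952719)) (c (l 532965007) (l 532962191)))) (b (c (l 532974479) (l 532976527)) (c (l 532989327) (l 532998031)))) (a (b (b (c (b (a (l 532953487) (l 532952463)) (l 532956047))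 (l 532935055)) (c (l 532960655) (l 532952463))) (b (l 532978975) (l 532997775))) (b (b (c (b (l 533084559) (l 532953999)) (l 532931215)) (c (l 532958863) (l 532948879))) (b (l 532976271) (l 532994703))))))), by decide +kernel⟩

def k47_A00pm_102_s1 : ∃ t, chk3 f_A00pm_102_s1 t 28 19 1 = true :=
  ⟨(b (a (b (a (b (l 533041807) (l 533065871)) (b (l 533031055) (l 533054863))) (c (b (l 533327503) (l 533356175)) (a (l 533113231) (l 533099407)))) (b (a (b (l 533424671) (l 533045647)) (b (c (l 533002383) (l 533012111)) (c (l 533024399) (l 533036687)))) (b (a (l 533072015) (c (l 16754816) (l 533063311))) (a (l 533100431) (c (l 16745960) (l 533091471)))))) (c (b (b (a (a (l 533132175) (l 533122959)) (a (l 16752000) (l 16742424))) (a (a (l 533168015) (l 16752656)) (a (l 16743280) (l 16738976)))) (b (a (a (l 16753184) (l 16744008)) (a (l 16739904) (l 16735624))) (a (a (l 16744592) (l 16740688)) (a (l 16736624) (l 16732336))))) (a (b (b (l 533683343) (a (l 16756800) (l 16747576))) (b (a (l 16748120) (l 16744152))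 (a (l 16744744) (l 16740800)))) (a (b (b (l 16746896) (l 16743416)) (b (l 16740008) (l 16736680))) (b (b (l 16742536) (l 16739072)) (b (l 16735680) (c (l 16732400) (a (l 16733360) (l 16731128))))))))), by decide +kernel⟩

def k48_A00pm_102_s1 : ∃ t, chk3 f_A00pm_102_s1 t 29 36 1 = true :=
  ⟨(a (b (a (a (l 3) (b (l 3) (c (c (l 532930191) (l 532928399)) (l 532901007)))) (a (c (b (c (l 532931471) (l 532927119)) (c (l 532929423) (l 532926607))) (b (l 532895887) (l 532898191))) (c (b (c (l 532930703) (l 532925583)) (l 532928911)) (b (l 532893071) (l 532895887))))) (a (c (b (c (a (l 532933263) (l 532932239)) (a (l 532933263) (l 532931471))) (a (b (l 532939663) (l 532943759)) (c (l 532938639) (l 532938383)))) (b (c (l 532916111) (l 532890255)) (a (l 532916879) (l 532914063)))) (a (c (b (l 532932751) (l 532939407)) (b (l 532903567) (l 532911759))) (c (b (l 532932239) (l 532939407)) (b (l 532901519) (l 532909711)))))) (b (a (c (b (a (l 533197599) (l 532929423)) (a (l 532928911) (l 532929423))) (b (a (l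 532891023) (l 532889231)) (a (l 532894095) (l 532892815)))) (c (b (a (l 532929935) (l 532930959)) (a (l 532930191) (l 532931727))) (b (a (l 532887951) (l 532887183)) (a (l 532891791) (l 532891279))))) (a (c (b (a (l 532932495) (l 532933263)) (a (l 532939663) (l 532940687))) (b (a (l 532899983) (l 532898959)) (a (l 532908431) (l 532907407)))) (c (b (a (l 532934543) (l 532936079)) (a (l 532941967) (l 532944015))) (b (a (l 532898191) (l 532897935)) (a (l 532906895) (l 532906895))))))), by decide +kernel⟩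

def k49_A00pm_102_s1 : ∃ t, chk3 f_A00pm_102_s1 t 29 37 1 = true :=
  ⟨(a (a (b (b (a (c (b (l 532948879) (l 532952719)) (l 532928143)) (c (c (l 532947343) (l 532947855)) (l 532925327))) (c (b (l 532952463) (l 532956815)) (l 532940943))) (b (b (l 532966031) (l 532974479)) (c (l 532980111) (l 532981647)))) (b (b (c (c (a (l 532947343) (l 532947855)) (l 533345679)) (a (l 532923023) (l 532921231))) (c (a (l 532956559) (l 532956815)) (l 532935567))) (b (b (l 532962703) (l 532971151)) (c (l 532978831) (l 533244047))))) (b (a (a (b (c (l 532949391) (l 532919695)) (l 532953887)) (b (c (l 532950415) (l 532918927)) (l 533222543))) (a (b (c (l 532951951) (l 532918415)) (l 532954511)) (b (c (l 532953999) (l 532918415)) (l 532955535)))) (a (a (b (l 532969359) (l 533255823)) (b (l 532969615) (l 532987167))) (a (b (l 533238415) (l 533255967)) (b (l 532971039) (c (l 16739864) (l 16739712))))))), by decide +kernel⟩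

def k50_A00pm_102_s1 : ∃ t, chk3 f_A00pm_102_s1 t 29 38 1 = true :=
  ⟨(b (c (a (a (b (l 532998543) (l 533020303)) (b (l 532996751) (l 16749144))) (a (b (l 16747872) (l 16738952)) (b (a (l 16738776) (l 16736160)) (a (l 16735112) (l 16732816))))) (a (a (b (l 533004431) (l 533028495)) (b (l 533467791) (c (l 16743968) (l 16743848)))) (a (b (c (l 16742648) (l 16742496)) (c (l 16738992) (l 16738832))) (b (a (l 16738688) (c (l 16736120) (l 16735896))) (a (c (l 16735120) (l 16734912)) (c (l 16732712) (l 16732432))))))) (b (a (a (c (l 16755496) (l 533054351)) (c (l 16740264) (c (l 16740352) (l 16740216)))) (c (a (a (l 16736576) (l 16734072)) (a (l 16731816) (l 16729560))) (a (a (l 16736584) (c (l 16734112) (l 16733920))) (a (c (l 16731752) (l 16731488)) (l 16729216))))) (a (c (a (l 16741416) (l 16736696)) (a (l 533484687) (c (l 16736792) (l 16736648)))) (c (a (a (l 16733040) (l 16730832)) (l 16727528)) (a (a (c (l 16733104) (l 16732920)) (c (l 16730800) (l 16730544))) (c (l 16727288) (l 16726896))))))),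 by decide +kernel⟩

def k51_A00pm_102_s1 : ∃ t, chk3 f_A00pm_102_s1 t 29 39 1 = true :=
  ⟨(c (a (a (b (a (l 16737312) (l 16735016)) (b (l 16731192) (l 16728280))) (b (b (l 16733184) (l 16730056)) (c (l 16725568) (l 16725568)))) (b (a (a (l 16728384) (l 16726176)) (c (l 16722912) (l 16722784))) (a (l 16721288) (l 16716816)))) (a (a (b (b (l 16740600) (c (l 16734592) (l 16734440))) (b (a (l 16732296) (a (l 16730600) (l 16729512))) (a (b (l 16729872) (l 16728344)) (l 16726936)))) (b (c (b (l 16733272) (a (l 16731112) (l 16728912))) (b (a (l 16734344) (l 16731912)) (a (l 16730912) (l 16728640)))) (a (b (l 16727856) (l 16724752)) (a (l 16724616) (l 16723488))))) (b (c (a (b (l 16728736) (l 16725528)) (l 16722456)) (a (b (a (l 16729592) (l 16727208)) (l 16725136)) (a (l 16723160) (l 16720680)))) (a (c (l 16720848) (b (l 16721912) (l 16718712))) (c (l 16716128) (a (l 16716656) (l 16714152))))))), by decide +kernel⟩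

def k52_A00pm_102_s1 : ∃ t, chk3 f_A00pm_102_s1 t 30 36 1 = true :=
  ⟨(a (c (a (a (b (b (l 532932495) (l 532933775)) (b (l 532938383) (l 532946319))) (b (b (l 532934543) (l 532936079)) (b (l 532940943) (l 532949135)))) (a (b (b (l 532937103) (l 532938895)) (b (l 532944271) (l 16746808))) (b (b (l 533208463) (l 532942223)) (b (l 16753008) (b (l 16744888) (l 16742968)))))) (a (b (a (b (l 532886927) (l 532891535)) (b (l 532887183) (l 532892047))) (a (b (l 532898191) (l 532907407)) (b (l 532898959) (l 16754584)))) (a (b (b (l 532887695) (l 532892815)) (b (l 16755592) (l 16746472))) (b (b (l 532888975) (l 532894351)) (b (l 16747416) (a (l 16744280) (l 16742792))))))) (b (a (a (b (c (l 533480335) (l 533158799)) (c (l 16753928) (l 16753560))) (a (b (l 532929423) (b (l 16747256) (l 16745328))) (b (b (l 16749624) (l 16747664)) (b (l 16745776) (l 16743944))))) (a (b (a (b (l 16748072) (l 16746216)) (c (l 16745960) (l 16745392))) (c (l 16743056) (l 16742400))) (b (c (l 16743904) (l 16743168)) (c (l 16740368)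 (l 16739464))))) (a (b (a (a (c (l 16745552) (l 16745168)) (b (l 16744888) (l 16743048))) (a (l 16742616) (l 16741240))) (a (c (l 16743896) (l 16740736)) (l 16738368))) (a (c (b (l 16739552) (l 16736096)) (b (l 16738728) (l 16735104))) (c (b (l 16736872) (l 16733424)) (b (l 16735808) (l 16732192))))))), by decide +kernel⟩

def k53_A00pm_102_s1 : ∃ t, chk3 f_A00pm_102_s1 t 30 37 1 = true :=
  ⟨(a (b (b (a (c (a (l 532956559) (l 16751048)) (a (l 16753528) (l 16745480))) (a (c (l 16748200) (l 16742600)) (a (a (l 16741072) (l 16740416)) (l 16739448)))) (a (a (l 532957071) (l 533495951)) (a (c (l 16744536) (b (l 16739792) (l 16738000))) (l 16736584)))) (a (a (b (l 533240863) (c (l 16737208) (b (l 16737896) (l 16736112)))) (b (c (l 16738256) (b (l 16738856) (l 16737064))) (c (l 16734824) (l 16734456)))) (c (a (b (l 16735816) (l 16732456)) (l 16731720)) (b (a (l 16735352) (l 16732728)) (a (l 16731872) (l 16729256)))))) (a (b (b (a (c (l 16737784) (l 16737096)) (c (l 16735272) (l 16734344))) (a (l 16734016)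 (l 16731384))) (b (a (l 16730568) (l 16727920)) (c (l 16726320) (a (l 16726560) (l 16723792))))) (b (b (a (c (l 16732672) (l 16731520)) (c (l 16730000) (l 16728608))) (a (l 16728664) (c (l 16726560) (l 16725056)))) (c (a (l 16724104) (l 16721424)) (a (b (l 16724448) (l 16720952)) (b (l 16721536) (l 16718040))))))), by decide +kernel⟩

def k54_A00pm_102_s1 : ∃ t, chk3 f_A00pm_102_s1 t 30 19 1 = true :=
  ⟨(b (c (a (a (b (a (b (l 16733816) (l 16730520)) (l 16729840)) (c (l 16724624) (l 16724448))) (b (a (l 16727488) (l 16725064)) (c (l 16719944) (l 16719576)))) (a (b (a (l 16722576) (l 16720016)) (c (l 16715016) (l 16714440))) (a (b (l 16717392) (l 16710800)) (b (l 16714688) (l 16708080))))) (a (a (b (b (a (c (l 16733664) (l 16733360)) (l 16731000)) (c (l 16729064) (l 16728632))) (c (a (l 16725312) (l 16722840)) (a (l 16724816) (l 16722240)))) (b (c (a (l 16726984) (l 16724400)) (a (l 16726432) (l 16723744))) (c (a (l 16720304) (l 16717696)) (a (l 16719600) (l 16716896))))) (c (a (b (a (l 16721752)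 (l 16719024)) (a (l 16715024) (l 16712288))) (b (a (l 16716232) (l 16713368)) (a (l 16709480) (l 16706600)))) (b (a (a (l 16720984) (l 16718152)) (a (l 16715248) (l 16712264))) (a (a (l 16714112) (l 16711272)) (a (l 16708352) (l 16705368))))))) (a (c (a (b (c (l 16718400) (l 16718088)) (c (l 16712328) (l 16711856))) (b (c (l 16713640) (l 16713144)) (c (l 16707488) (l 16706848)))) (a (b (c (a (l 16718816) (l 16716312)) (a (l 16718144) (l 16715544))) (c (a (l 16712432) (l 16709896)) (a (l 16711584) (l 16708960)))) (b (c (a (l 16713744) (l 16711112)) (a (l 16712880) (l 16710152))) (c (a (l 16707304) (l 16704648)) (a (l 16706272) (l 16703528)))))) (c (a (b (c (l 16708640) (l 16707952)) (c (l 16702416) (l 16701600))) (b (c (l 16703400) (l 16702504)) (c (l 16697112) (l 16696104)))) (c (a (b (a (l 16708424) (l 16705664)) (a (l 16701936) (l 16699152))) (b (a (l 16702840) (l 16699944)) (a (l 16696312) (l 16693400)))) (a (b (a (l 16707360) (l 16704504)) (a (l 16700712) (l 16697840))) (b (a (l 16701576) (l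 16698576)) (a (l 16694896) (l 16691896)))))))), by decide +kernel⟩

def k55_A00pm_102_s1 : ∃ t, chk3 f_A00pm_102_s1 t 31 36 1 = true :=
  ⟨(a (a (b (a (b (c (l 16741128) (l 16740144)) (c (l 16737600) (l 16736456))) (b (c (l 16738264) (l 16737032)) (c (l 16734744) (l 16733360)))) (a (c (b (l 16734112) (l 16730664)) (b (l 16732808) (l 16729192))) (c (b (l 16731272) (l 16727832)) (b (l 16729720) (l 16726120))))) (b (a (b (c (l 16735320) (l 16733840)) (c (l 16731816) (l 16730176))) (c (b (l 16732296) (l 16728792)) (b (l 16730560) (l 16726912)))) (a (c (b (l 16728344) (l 16724912)) (b (l 16726552) (l 16722960))) (c (b (l 16725336) (l 16721920)) (b (l 16723296) (l 16719712)))))) (a (b (a (c (b (l 16729176) (l 16725688)) (b (l 16727192) (l 16723552))) (c (b (l 16725968) (l 16722496)) (b (l 16723736) (l 16720112)))) (a (c (b (l 16722240) (l 16718832)) (b (l 16719952) (l 16716384))) (c (b (l 16719064) (l 16715664)) (b (l 16716520) (l 16712968))))) (b (a (c (b (l 16722680) (l 16719216)) (b (l 16720184) (l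 16716576))) (c (a (l 16718416) (l 16716704)) (a (l 16715656) (l 16713816)))) (a (c (b (l 16715792) (l 16712408)) (l 16716464)) (c (a (l 16711592) (l 16709888)) (a (l 16708528) (l 16706696))))))), by decide +kernel⟩

def k56_A00pm_102_s1 : ∃ t, chk3 f_A00pm_102_s1 t 31 37 1 = true :=
  ⟨(a (a (b (c (a (b (l 16727256) (l 16723808)) (b (l 16724424) (l 16720976))) (b (a (l 16725624) (l 16722552)) (a (l 16722072) (l 16719000)))) (c (a (l 16718664) (l 16715832)) (a (b (l 16718544) (l 16715040)) (b (l 16715472) (l 16711976))))) (b (c (a (b (l 16721512) (l 16718064)) (b (l 16718520) (l 16715072))) (b (a (l 16719400) (l 16716168)) (a (l 16715856) (l 16712624)))) (c (a (l 16712920) (l 16709928)) (a (b (l 16712328) (l 16708824)) (b (l 16709096) (l 16705600)))))) (a (b (c (a (b (l 16715448) (l 16712000)) (b (l 16712288) (l 16708848))) (a (b (l 16712848) (l 16709304)) (b (l 16709440) (l 16705904)))) (c (a (l 16706856) (l 16703712)) (a (l 16704032) (l 16700640)))) (b (a (c (b (l 16709040) (l 16705608)) (b (l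 16705944) (l 16702416))) (c (b (l 16705712) (l 16702288)) (b (l 16702352) (l 16698840)))) (a (c (l 16700480) (l 16697160)) (c (l 16707648) (l 16693592)))))), by decide +kernel⟩

def k57_A00pm_102_s1 : ∃ t, chk3 f_A00pm_102_s1 t 31 19 1 = true :=
  ⟨(a (b (c (a (a (b (l 16711920) (l 16705296)) (b (l 16709080) (l 16702440))) (b (a (l 16706160) (l 16703168)) (a (l 16699512) (l 16696520)))) (a (b (a (c (l 16710424) (l 16709216)) (c (l 16707408) (l 16706088))) (c (a (l 16703648) (l 16700632)) (a (l 16702312) (l 16699176)))) (b (a (c (l 16704320) (l 16702880)) (c (l 16701152) (l 16699592))) (a (c (l 16697536) (l 16695976)) (c (l 16694368) (l 16692688)))))) (c (a (b (c (l 16697896) (l 16696792)) (c (l 16691560) (l 16690360))) (b (c (l 16692128) (l 16690816)) (c (l 16685760) (l 16684352)))) (a (b (c (a (l 16696984) (l 16693960)) (a (l 16695512) (l 16692376))) (c (a (l 16690432) (l 16687392)) (a (l 16688816) (l 16685680)))) (b (c (a (l 16690856) (l 16687688)) (a (l 16689168) (l 16685888))) (c (a (l 16684288)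 (l 16681112)) (a (l 16682464) (l 16679184))))))) (a (c (b (b (a (l 16700096) (l 16696952)) (a (l 16693448) (l 16690304))) (b (c (l 16686088) (l 16684552)) (c (l 16679696) (l 16678072)))) (b (b (a (c (l 16697904) (l 16696232)) (c (l 16694584) (l 16692784))) (a (c (l 16691128) (l 16689336)) (c (l 16687800) (l 16685896)))) (b (c (a (l 16684440) (l 16681128)) (a (l 16682536) (l 16679104))) (c (a (l 16677864) (l 16674552)) (a (l 16675832) (l 16672408)))))) (b (c (a (b (l 16693728) (l 16687080)) (b (l 16690424) (l 16683784))) (b (a (c (l 16691176) (l 16689264)) (c (l 16687688) (l 16685648))) (a (c (l 16684408) (l 16682384)) (c (l 16680928) (l 16678784))))) (c (b (a (l 16680536) (l 16677248)) (a (l 16674104) (l 16670808))) (b (a (c (l 16677736) (l 16675600)) (c (l 16674264) (l 16672016))) (a (c (l 16671160) (l 16668912)) (c (l 16667696) (l 16665336)))))))), by decide +kernel⟩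

def k58_A00pm_102_s1 : ∃ t, chk3 f_A00pm_102_s1 t 12 80 1 = true :=
  ⟨(a (b (a (l 3) (b (l 3) (a (l 3) (c (c (l 533257871) (l 533314447)) (b (c (l 533360527) (l 533386639)) (l 533365647)))))) (a (b (l 3) (a (l 3) (c (b (a (l 3) (l 533361807)) (l 533208975)) (b (a (l 3) (b (l 3) (l 533307023))) (c (l 533276047) (l 533301903)))))) (b (c (a (c (l 533227151) (b (l 533289615) (l 533278607))) (l 533271695)) (a (b (a (l 3) (l 533349263)) (a (l 533331343) (l 533337743))) (b (l 533355663) (l 533345935)))) (c (a (b (l 533242511) (l 533232527)) (b (l 533260431) (l 533253007))) (a (b (a (l 533318799) (l 533326479)) (l 533310351)) (b (l 533336207) (l 533326991))))))) (a (b (a (b (c (c (l 533279119) (l 533335695)) (b (c (l 533380751) (l 533406095)) (l 533386895))) (c (l 533296015) (b (l 533378703) (l 533370767)))) (b (c (a (a (l 533311887) (l 533312399)) (b (l 533315727) (l 533310863))) (a (a (l 533391247) (b (l 533394319) (l 533387407))) (b (l 533393295) (l 533387151)))) (a (c (l 533301391) (l 533377167))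 (c (l 533304463) (l 533378191))))) (a (b (c (l 533283727) (l 533358991)) (c (l 533273231) (l 533344143))) (b (c (l 533294223) (a (l 533364367) (l 533367183))) (c (l 533287567) (l 533354383))))) (b (b (a (c (a (l 533313935) (l 533314703)) (b (l 533390735) (l 533385615))) (c (l 533306511) (l 533377423))) (a (c (l 533307535) (l 533378447)) (c (l 533311887) (l 533378447)))) (b (a (c (l 533302927) (l 533369999)) (c (l 533310351) (l 533373327))) (c (a (l 533300111) (l 533311119)) (a (l 533362831) (l 533369487))))))), by decide +kernel⟩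

def k59_A00pm_102_s1 : ∃ t, chk3 f_A00pm_102_s1 t 12 81 1 = true :=
  ⟨(a (b (a (b (c (a (b (l 533166223) (l 533150607)) (b (l 533196431) (l 533184143))) (a (b (c (l 533235087) (l 533261967)) (l 533232527)) (b (l 533276303) (l 533261711)))) (c (b (l 533420431) (l 533137807)) (a (b (l 533214607) (l 533196431)) (l 533239439)))) (b (c (a (b (l 533223055) (l 533213583)) (l 533242511)) (a (b (l 533298575) (l 533286799)) (l 533312911))) (c (a (l 533199759) (l 533230223)) (a (l 533269391) (l 533295247))))) (b (a (c (b (l 533123983) (l 533110159)) (b (l 533196687) (l 533180047))) (c (a (l 533182607) (l 533219471)) (a (l 533246607) (l 533278607)))) (b (a (c (c (l 533072271) (l 533119119)) (a (l 533141647) (l 533188751))) (c (l 533190799) (l 533247631))) (a (c (c (l 533080719) (l 533124495)) (l 533165711)) (c (l 533195919) (l 533248143)))))) (b (a (c (b (a (l 533264271) (l 533282959)) (a (l 533256847) (l 533280655))) (b (a (l 533330319) (l 533344911)) (a (l 533317519) (l 533336719)))) (b (c (a (l 533299599)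 (l 533314191)) (l 533360271)) (a (c (l 533301391) (l 533353103)) (l 533618319)))) (a (b (c (a (l 533251727) (l 533280655)) (a (l 533306511) (l 533330575))) (c (c (l 533247631) (l 533282447)) (b (l 533311887) (l 533314447)))) (b (c (a (l 533305999) (l 533328783)) (l 533358223)) (c (a (l 533315215) (l 16762640)) (a (l 533353103) (l 16757584))))))), by decide +kernel⟩

def k60_A00pm_102_s1 : ∃ t, chk3 f_A00pm_102_s1 t 13 40 1 = true :=
  ⟨(a (b (a (a (b (b (c (l 533322639) (l 533387151)) (l 533358991)) (b (c (l 533321871) (l 533378959)) (l 533358223))) (b (b (l 533365903) (l 533367439)) (b (l 533369743) (l 533373327)))) (b (c (a (l 533332879) (l 533329551)) (a (l 533381775) (l 533371535))) (c (b (l 533344911) (l 533357711)) (b (l 533384847) (l 533392783))))) (b (a (a (b (l 533361295) (l 533366927)) (b (l 533378959) (l 533386895))) (c (a (l 533377423) (l 16756648)) (a (l 533407887) (l 16751576)))) (a (b (c (l 533361551) (l 533393807)) (c (a (l 16755024) (l 16752592)) (l 533404303))) (b (a (l 533419663)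 (l 16749112)) (a (l 16750184) (l 16747544)))))) (b (a (b (c (a (l 533323663) (l 533316239)) (a (l 533358991) (l 16762608))) (c (a (l 533356943) (l 16748600)) (a (l 16762432) (l 16748768)))) (c (b (a (l 16759032) (l 16745024)) (a (l 16745304) (l 16741840))) (b (a (l 16748728) (l 16745168)) (a (l 16745424) (l 16741912))))) (c (b (a (a (l 16748488) (l 16745424)) (a (l 16742208) (l 16738832))) (a (a (l 16745400) (l 16742448)) (a (l 16739344) (l 16736072)))) (b (a (a (l 16748624) (l 16745512)) (a (l 16742240) (l 16738792))) (a (a (l 16745432) (l 16742408)) (b (a (l 16739960) (l 16736584)) (a (l 16738520) (l 16735184)))))))), by decide +kernel⟩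

def k61_A00pm_102_s1 : ∃ t, chk3 f_A00pm_102_s1 t 24 82 1 = true :=
  ⟨(b (a (c (b (b (c (a (l 533103247) (l 533141647)) (l 533158031)) (a (c (l 533170063) (l 533202575)) (l 533211535))) (a (c (b (l 533251727) (l 533344143)) (b (l 533276559) (l 533360783))) (b (l 533274255) (c (l 533337231) (l 533355151))))) (b (b (l 533192591) (a (l 533228431) (l 533251215))) (b (a (l 533291663) (l 533301391)) (c (l 533359503) (l 533354383))))) (b (c (c (b (l 533200015) (l 533238927)) (l 533250191)) (b (l 533264015) (l 533291663))) (c (c (b (l 533289359) (l 533349519)) (b (l 533313935) (l 533367951))) (b (l 533329295) (l 533374863))))) (b (c (a (b (c (a (l 533445263) (l 533422991)) (a (l 533452943) (l 533433231))) (a (c (l 533553551) (l 533551759)) (c (l 533516431) (l 533518223)))) (b (a (c (l 533418639) (l 16763832)) (l 533431695)) (a (a (l 16763712) (l 16762760)) (l 533499023)))) (a (b (a (l 533443983) (l 533427855)) (a (l 533529487) (l 533501071))) (b (a (l 533426575) (l 16761880)) (a (l 16765808) (l 16761248)))))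 (c (a (b (a (c (l 533667727) (l 533656207)) (c (l 533616527) (l 16767232))) (a (c (l 533787791) (l 533766031)) (a (l 16764656) (l 16763720)))) (b (c (a (l 16765360) (l 16760784)) (a (l 16762720) (l 16760776))) (a (c (l 16764936) (l 16762256)) (c (l 16760360) (l 16760312))))) (a (b (a (l 533620111) (l 533579919)) (a (l 533715343) (l 533663631))) (b (a (l 16765224) (l 16760664)) (a (l 16764704) (l 16760136))))))), by decide +kernel⟩

def k62_A00pm_102_s1 : ∃ t, chk3 f_A00pm_102_s1 t 25 82 1 = true :=
  ⟨(b (c (a (b (c (l 533556111) (l 533315983)) (c (a (l 533356175) (l 16758704)) (l 533384335))) (b (a (l 533350799) (l 16755784)) (a (l 533413775) (l 16754368)))) (b (a (l 533336719) (l 533923215)) (a (a (l 533384591) (l 16758832)) (a (l 16756672) (l 16754424))))) (b (b (a (c (a (l 16762496) (l 16757800)) (l 533449615)) (c (l 533748879) (l 533478287))) (a (c (a (l 16761920) (l 16757232)) (l 533494415)) (c (a (l 16755096) (l 16752880)) (l 533514127)))) (a (b (c (a (l 16758784) (l 16756720)) (l 533812367))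 (c (a (l 16758336) (l 16756264)) (a (l 16758128) (l 16756048)))) (c (a (c (l 16754344) (l 16754320)) (l 16752128)) (a (l 16754152) (l 16751920)))))), by decide +kernel⟩

def k63_A00pm_102_s1 : ∃ t, chk3 f_A00pm_102_s1 t 13 82 1 = true :=
  ⟨(b (a (a (b (c (a (l 16753456) (l 16751064)) (l 533697935)) (c (a (l 16752064) (l 16749712)) (a (l 16752096) (l 16749696)))) (b (a (l 16748672) (l 16746080)) (a (l 16747304) (l 16744752)))) (a (b (a (l 16743336) (l 16740432)) (a (l 16742048) (c (l 16739288) (l 16738976)))) (c (a (l 16736848) (c (l 16733696) (l 16733608))) (b (a (l 16737160) (a (l 16734704) (l 16733008))) (c (a (l 16736056) (l 16732776)) (a (l 16735704) (a (l 16733232) (l 16731488)))))))) (a (a (b (c (a (l 16750864) (l 16748528)) (a (l 16750776) (l 16748392))) (b (a (l 16750032) (l 16747688)) (a (l 16749536) (l 16747192)))) (b (a (l 16746080) (l 16743552)) (a (l 16745008) (c (l 16742672) (l 16742232))))) (c (a (a (l 16745760) (b (l 16738240) (l 16737304))) (a (b (l 16735272) (l 16734272)) (c (l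 16731560) (l 16731288)))) (b (a (a (l 16740656) (l 16737776)) (a (a (l 16735504) (b (l 16734208) (l 16733624))) (c (l 16731536) (a (l 16731936) (l 16730064))))) (a (a (l 16739544) (c (l 16736872) (a (l 16737184) (l 16735680)))) (a (c (l 16733736) (a (c (l 16734216) (l 16733928)) (l 16732336))) (c (l 16730184) (l 16729568)))))))), by decide +kernel⟩

def k64_A00pm_102_s1 : ∃ t, chk3 f_A00pm_102_s1 t 24 166 1 = true :=
  ⟨(b (a (b (c (a (c (l 533913487) (l 533880975)) (a (l 16764304) (l 16763360))) (a (c (l 16765480) (l 16765280)) (c (l 16763616) (l 16763424)))) (c (a (b (l 533990799) (l 534055055)) (a (l 16764032) (l 16763080))) (a (c (l 16767752) (l 16764880)) (c (l 16763264) (l 16763016))))) (b (c (a (c (l 16761976) (l 16761872)) (c (l 16760008) (l 16759912))) (a (c (l 16761720) (l 16761520)) (l 16759664))) (c (a (c (l 16761712) (l 16761552)) (c (l 16759736) (l 16759584))) (a (c (l 16761344) (l 16761096)) (l 16759256))))) (b (a (a (c (b (c (l 16765424) (l 16765192)) (c (l 16765384) (l 16765120)))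 (a (l 16765184) (l 16764248))) (c (a (l 16766472) (l 16762896)) (c (l 16762984) (l 16762672)))) (a (c (c (l 16764168) (l 16761320)) (c (l 16761056) (l 16760744))) (c (c (l 16759552) (l 16759336)) (c (l 16759064) (l 16758752))))) (a (b (c (a (c (l 16765368) (l 16765072)) (c (l 16763448) (l 16763160))) (a (c (l 16764736) (l 16764368)) (c (l 16762832) (l 16762472)))) (c (a (c (l 16765384) (l 16765048)) (c (l 16763448) (l 16763128))) (a (c (l 16764672) (l 16764272)) (c (l 16762760) (l 16762360))))) (b (c (a (c (l 16761480) (l 16761208)) (l 16759344)) (a (l 16760712) (l 16758712))) (c (a (c (l 16761472) (l 16761160)) (l 16759304)) (a (l 16763232) (l 16758600))))))), by decide +kernel⟩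

def k65_A00pm_102_s1 : ∃ t, chk3 f_A00pm_102_s1 t 25 166 1 = true :=
  ⟨(b (c (a (b (a (l 16757952) (l 16755880)) (a (l 16760264) (l 16755552))) (b (a (l 16753736) (l 16751520)) (a (l 16753400) (l 16751176)))) (a (b (a (l 16757648) (l 16755568)) (a (l 16757232) (l 16755136))) (a (b (l 16753408) (l 16752968)) (l 16750936)))) (c (b (a (a (c (l 16757504) (l 16757288)) (l 16755304)) (a (l 16753136) (l 16750896))) (a (b (a (l 16757280) (l 16755168)) (a (l 16757232) (l 16755096))) (a (l 16752936) (l 16750680)))) (b (a (a (l 16756872) (l 16754760)) (a (l 16752584) (l 16750328))) (a (a (b (l 16756648) (l 16756528)) (l 16754456)) (a (l 16752256) (l 16749984)))))), by decide +kernel⟩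

def k66_A00pm_102_s1 : ∃ t, chk3 f_A00pm_102_s1 t 13 166 1 = true :=
  ⟨(a (c (c (c (a (b (a (l 16749136) (l 16746816)) (a (l 16748632) (l 16746288))) (b (l 16748488) (a (l 16743888) (l 16741408)))) (a (b (a (l 16749088) (l 16746760)) (a (l 16748528) (l 16746176))) (b (l 16748416) (a (l 16743768) (l 16741272))))) (b (a (a (l 16748976) (l 16746632)) (a (l 16744224) (l 16741744))) (a (a (l 16748328) (l 16745968)) (a (l 16743536) (l 16741016))))) (c (b (a (a (l 16748760) (l 16746392)) (a (l 16743952) (l 16741424))) (a (a (l 16748000) (l 16745608)) (a (l 16743152) (b (l 16740800) (l 16740392))))) (a (b (a (l 16748464) (l 16746064)) (a (l 16747592) (l 16745168))) (a (b (l 16743576) (b (l 16742888) (l 16742464))) (b (l 16741000) (b (l 16740296) (a (l 16740520) (l 16739152)))))))) (a (c (b (a (l 16739264) (l 16736392)) (a (c (l 16738592) (l 16738224)) (l 16735248))) (b (a (c (l 16738760) (a (l 16738984) (l 16737584))) (a (b (l 16736656) (l 16738712)) (b (l 16735096) (l 16734400)))) (a (c (b (l 16738056)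 (l 16737472)) (b (a (l 16738256) (l 16736752)) (a (l 16737664) (l 16736008)))) (a (l 16735016) (l 16733296))))) (c (a (l 16737696) (l 16728944)) (a (b (c (l 16732416) (l 16731784)) (l 16730648)) (b (l 16728472) (l 16726976)))))), by decide +kernel⟩

def k67_A00pm_102_s1 : ∃ t, chk3 f_A00pm_102_s1 t 12 668 1 = true :=
  ⟨(a (a (b (c (a (a (l 16765728) (l 16764768)) (c (l 16763488) (l 16763120))) (a (a (l 16764896) (l 16763944)) (c (l 16762720) (l 16762272)))) (a (a (c (l 16765800) (l 16764880)) (c (l 16764832) (l 16763920))) (c (a (l 16763848) (l 16762864)) (a (l 16762952) (l 16761968))))) (b (c (a (c (l 16761496) (l 16761136)) (c (l 16759456) (l 16759112))) (a (c (l 16760744) (l 16760304)) (l 16761128))) (a (c (a (l 16761856) (l 16760848)) (c (l 16760712) (l 16760232))) (c (a (l 16759816) (l 16758776)) (c (l 16758672) (l 16758192)))))) (c (a (b (a (l 16757200) (l 16755056)) (a (l 16757200) (l 16755032))) (a (b (l 16752840) (l 16752808)) (l 16753152))) (a (b (a (l 16756424) (l 16754272)) (a (l 16758960)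 (l 16754176))) (b (a (l 16752056) (l 16749760)) (a (l 16751944) (l 16749632)))))), by decide +kernel⟩

def k68_A00pm_102_s1 : ∃ t, chk3 f_A00pm_102_s1 t 12 669 1 = true :=
  ⟨(a (b (a (b (c (a (a (l 16765888) (l 16764912)) (a (l 16763920) (l 16762928))) (a (c (l 16764672) (l 16764144)) (c (l 16762720) (l 16762200)))) (a (c (c (l 16765712) (l 16765224)) (c (l 16764704) (l 16766768))) (c (a (l 16763984) (l 16762976)) (c (l 16762736) (l 16762192))))) (a (b (a (l 16764080) (l 16760440)) (a (l 16764104) (l 16760464))) (b (c (l 16759336) (l 16758408)) (c (l 16759376) (l 16761016))))) (a (b (a (c (a (l 16766024) (l 16765040)) (a (l 16764928) (l 16763960))) (c (c (l 16763792) (l 16763288)) (a (l 16762976) (l 16761976)))) (c (a (a (l 16766104) (l 16765112)) (c (l 16763864) (l 16763336))) (a (a (l 16764952) (l 16763976)) (c (l 16765400) (l 16764808))))) (a (b (c (a (l 16762016) (l 16760976)) (a (l 16760968) (l 16759944))) (c (a (l 16762064) (l 16761024)) (a (l 16760968) (l 16759944)))) (b (a (l 16759440)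 (l 16758384)) (a (l 16759456) (l 16758400)))))) (c (b (a (a (a (l 16757760) (l 16756680)) (l 16755040)) (a (l 16752792) (l 16750472))) (a (b (a (l 16757264) (l 16755056)) (a (l 16757288) (l 16755072))) (b (a (l 16752792) (l 16750456)) (a (l 16752792) (l 16750448))))) (b (a (b (a (l 16756296) (l 16754120)) (a (l 16756272) (l 16754080))) (a (l 16751848) (l 16749520))) (a (b (a (l 16756248) (l 16754048)) (a (l 16756232) (l 16754024))) (b (a (l 16751784) (l 16749440)) (a (l 16751744) (l 16749392))))))), by decide +kernel⟩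

def k69_A00pm_102_s1 : ∃ t, chk3 f_A00pm_102_s1 t 13 334 1 = true :=
  ⟨(a (b (c (c (a (a (l 16748360) (l 16745968)) (a (l 16743520) (l 16740832))) (a (a (l 16748000) (l 16745600)) (a (l 16743128) (l 16740408)))) (c (a (a (l 16747568) (l 16745144)) (a (l 16742640) (a (l 16740632) (l 16739136)))) (a (a (l 16747056) (l 16744608)) (a (a (l 16742712) (l 16741416)) (a (l 16740016) (l 16738496)))))) (a (c (c (a (b (l 16748296) (l 16748264)) (b (l 16745880) (l 16745792))) (a (b (l 16747880) (l 16747816)) (b (l 16745456) (l 16745328)))) (c (a (b (l 16747392) (l 16747288)) (b (l 16744944) (l 16747408))) (a (b (l 16746832) (l 16746688)) (b (l 16744360) (a (l 16744824) (l 16743512)))))) (a (c (b (l 16743112) (a (l 16743560) (l 16742040))) (b (c (l 16742336) (a (l 16742432) (l 16741024))) (a (b (l 16742560) (l 16742320)) (l 16740872)))) (c (l 16739912) (a (l 16739512) (l 16737912)))))) (a (c (a (c (l 16737320) (l 16736816)) (c (l 16734080) (l 16733520))) (a (b (l 16736376) (l 16735456)) (b (l 16733000) (l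 16732072)))) (c (a (c (l 16730696) (l 16730080)) (c (l 16727168) (l 16726496))) (a (l 16734184) (l 16725256))))), by decide +kernel⟩

def k70_A00pm_102_s1 : ∃ t, chk3 f_A00pm_102_s1 t 6 10720 1 = true :=
  ⟨(b (a (a (a (a (c (c (l 16765928) (l 16765368)) (a (l 16764960) (l 16763984))) (a (l 16763584) (l 16762576))) (a (a (l 16761552) (l 16760520)) (a (l 16759464) (l 16758408)))) (a (a (c (l 16757304) (l 16756216)) (c (l 16755080) (l 16754008))) (a (c (l 16752792) (l 16751720)) (c (l 16750440) (l 16749360))))) (a (a (c (a (l 16748032) (l 16745520)) (a (l 16746936) (a (l 16745072) (l 16743704)))) (a (c (l 16742568) (l 16741368)) (c (l 16739464) (l 16738192)))) (c (a (a (l 16736296) (l 16733016)) (a (l 16729592) (l 16726032))) (a (a (l 16734928) (l 16731536)) (l 16726192))))) (a (a (a (a (c (c (l 16765936) (l 16765376)) (a (l 16764968) (l 16763984))) (a (l 16763592) (l 16762576))) (a (a (l 16761552) (l 16760520)) (a (l 16759472) (l 16758408)))) (a (a (c (l 16757312) (l 16756216)) (c (l 16755080) (l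 16754000))) (a (c (l 16752800) (l 16751720)) (c (l 16750440) (l 16749360))))) (a (a (a (a (l 16748120) (l 16746896)) (a (l 16745664) (l 16744280))) (a (c (l 16742528) (l 16741328)) (c (l 16739432) (l 16738152)))) (c (a (a (l 16736264) (l 16732976)) (a (l 16729560) (l 16725992))) (a (a (l 16734888) (l 16731496)) (l 16726152)))))), by decide +kernel⟩

def k71_A00pm_102_s1 : ∃ t, chk3 f_A00pm_102_s1 t 6 10721 1 = true :=
  ⟨(a (a (a (a (c (c (l 16765952) (l 16765392)) (c (l 16767416) (l 16766792))) (c (c (l 16763928) (l 16763384)) (a (l 16763000) (l 16761992)))) (a (a (l 16761560) (l 16760520)) (c (l 16762104) (l 16760984)))) (a (a (c (l 16757312) (l 16756216)) (c (l 16755088) (l 16753992))) (a (c (l 16752800) (l 16751712)) (c (l 16750440) (l 16749352))))) (a (a (c (a (l 16748024) (l 16745464)) (a (l 16746920) (a (l 16745040) (l 16743600)))) (a (c (l 16742472) (l 16741264)) (c (l 16739376) (l 16738088)))) (c (a (a (l 16736208) (l 16732920)) (a (l 16729504) (l 16725936))) (a (a (l 16734824) (l 16731440))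 (l 16726096))))), by decide +kernel⟩

def k72_A00pm_102_s1 : ∃ t, chk3 f_A00pm_102_s1 t 6 5361 1 = true :=
  ⟨(a (a (a (c (a (c (l 16765984) (l 16765408)) (c (l 16763960) (l 16763400))) (a (a (l 16764976) (l 16764000)) (a (l 16763000) (l 16761992)))) (a (a (l 16761568) (l 16760536)) (a (l 16759480) (l 16758416)))) (a (a (c (l 16757328) (l 16756208)) (c (l 16755096) (l 16753984))) (a (c (l 16752800) (l 16751696)) (c (l 16750440) (l 16749328))))) (a (a (c (a (l 16748016) (l 16745376)) (a (l 16746896) (a (l 16744960) (l 16743464)))) (a (c (l 16742352) (l 16741128)) (c (l 16739248) (l 16737944)))) (c (a (a (l 16736080) (l 16732800)) (a (l 16729384) (l 16725816))) (a (a (l 16734688) (l 16731296)) (l 16725960))))), by decide +kernel⟩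

def k73_A00pm_102_s1 : ∃ t, chk3 f_A00pm_102_s1 t 6 2681 1 = true :=
  ⟨(a (a (a (a (c (a (l 16766248) (l 16765248)) (a (l 16764992) (l 16764008))) (c (a (l 16764240) (l 16763208)) (a (l 16763008) (l 16762000)))) (a (c (a (l 16762176) (l 16761120)) (a (l 16760976) (l 16759936))) (a (l 16759496) (l 16758424)))) (a (a (a (l 16757336) (l 16756240)) (c (l 16755104) (l 16753960))) (a (c (l 16752800) (l 16751664)) (c (l 16750432) (l 16749296))))) (a (a (a (a (b (l 16748080) (c (l 16748568) (b (b (l 16747440) (a (l 16747744) (l 16747056))) (l 16747368)))) (b (c (l 16747336) (l 16746192)) (a (b (b (l 16747048) (l 16746920)) (l 16746864)) (l 16746240)))) (a (b (c (l 16745928) (l 16744752)) (c (l 16745672) (l 16744472))) (c (l 16744288) (l 16743080)))) (c (a (c (l 16742280) (l 16741720)) (c (l 16739192) (l 16738608))) (a (c (l 16741088) (l 16740376)) (l 16737568)))) (c (c (a (a (l 16736048) (l 16732800)) (a (l 16729408) (l 16725872))) (a (a (l 16735424) (l 16732120)) (a (l 16728680) (l 16725096)))) (a (a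 (l 16734312) (l 16730936)) (c (l 16726072) (l 16725120)))))), by decide +kernel⟩

def k74_A00pm_102_s1 : ∃ t, chk3 f_A00pm_102_s1 t 6 5364 1 = true :=
  ⟨(a (a (a (a (c (a (l 16766304) (l 16765304)) (a (l 16765008) (l 16764024))) (c (a (l 16764288) (l 16763256)) (a (l 16763016) (l 16762008)))) (a (c (a (l 16762216) (l 16761160)) (a (l 16760976) (l 16759936))) (a (l 16759504) (l 16758432)))) (a (a (a (l 16757344) (l 16756240)) (c (l 16755120) (l 16753944))) (a (c (l 16752808) (l 16751632)) (c (l 16750432) (l 16749256))))) (a (a (a (a (l 16747968) (l 16746472)) (c (l 16744792) (l 16743552))) (c (a (l 16741752) (l 16738656)) (a (l 16740448) (l 16737280)))) (c (a (a (l 16735488) (l 16732216)) (a (l 16728800) (l 16725248))) (a (l 16732360) (l 16725328))))), by decide +kernel⟩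

def k75_A00pm_102_s1 : ∃ t, chk3 f_A00pm_102_s1 t 6 10730 1 = true :=
  ⟨(a (a (a (a (a (c (l 16766336) (l 16765016)) (c (l 16765328) (l 16764024))) (c (a (l 16764312) (l 16763280)) (a (l 16763024) (l 16762008)))) (a (c (a (l 16762232) (l 16761176)) (a (l 16760976) (l 16759936))) (a (c (l 16760112) (l 16758880)) (l 16758432)))) (a (a (a (l 16757344) (l 16756240)) (c (l 16755128) (l 16753928))) (a (c (l 16752808) (l 16751624)) (c (l 16750424) (l 16749240))))) (a (a (a (a (l 16747960) (l 16746464)) (c (l 16744784) (l 16743528))) (c (a (l 16741736) (l 16738632)) (a (l 16740424) (l 16737248)))) (c (a (a (l 16735472) (l 16732192)) (a (l 16728776) (l 16725216))) (a (l 16732328) (l 16725288))))), by decide +kernel⟩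

def k76_A00pm_102_s1 : ∃ t, chk3 f_A00pm_102_s1 t 6 10731 1 = true :=
  ⟨(b (a (a (a (a (a (c (l 16766352) (l 16765024)) (c (l 16765344) (l 16764032))) (a (c (l 16764320) (l 16763024)) (c (l 16763288) (l 16762008)))) (a (c (a (l 16762248) (l 16761184)) (a (l 16760976) (l 16759936))) (a (c (l 16760120) (l 16758872)) (l 16758440)))) (a (a (a (l 16757344) (l 16756240)) (c (l 16755128) (l 16753928))) (a (c (l 16752808) (l 16751616)) (c (l 16750424) (l 16749232))))) (a (a (a (a (l 16747952) (l 16746456)) (c (l 16744776) (l 16743520))) (c (a (l 16741728) (l 16738624)) (a (l 16740408) (l 16737232)))) (c (a (a (l 16735456) (l 16732176)) (a (l 16728760) (l 16725200))) (a (l 16732304) (l 16725264))))) (a (a (a (a (a (c (l 16766360) (l 16765024)) (c (l 16765352) (l 16764032))) (c (a (l 16764328) (l 16763296)) (a (l 16763024) (l 16762008)))) (a (c (a (l 16762248) (l 16761192)) (a (l 16760976) (l 16759936))) (a (a (l 16759784) (l 16759248)) (l 16758440)))) (a (a (a (l 16757344) (l 16756240)) (c (l 16755128)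 (l 16753920))) (a (c (l 16752808) (l 16751608)) (c (l 16750424) (l 16749224))))) (a (a (a (a (l 16747944) (l 16746448)) (c (l 16744776) (l 16743512))) (c (a (l 16741728) (l 16738624)) (a (l 16740400) (l 16737216)))) (c (a (a (l 16735448) (l 16732168)) (a (l 16728752) (l 16725192))) (a (l 16732296) (l 16725256)))))), by decide +kernel⟩

def k77_A00pm_102_s1 : ∃ t, chk3 f_A00pm_102_s1 t 6 2683 1 = true :=
  ⟨(a (a (a (a (a (c (l 16766400) (l 16765032)) (c (l 16765392) (l 16764040))) (c (a (l 16764368) (l 16763328)) (a (l 16763032) (l 16762016)))) (a (c (a (l 16762280) (l 16761224)) (a (l 16760976) (l 16759928))) (a (a (l 16759792) (l 16759256)) (l 16758448)))) (a (a (a (l 16757352) (l 16756240)) (c (l 16755144) (l 16756520))) (a (c (l 16752816) (l 16751584)) (c (l 16750424) (l 16749192))))) (a (a (a (a (c (l 16748512) (l 16747272)) (l 16746432)) (c (l 16744760) (l 16743472))) (c (a (l 16741704) (l 16738592)) (a (l 16740352) (l 16737168)))) (c (a (a (l 16735416) (l 16732136)) (a (l 16728712) (l 16725152)))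 (a (l 16732240) (l 16725192))))), by decide +kernel⟩

def k78_A00pm_102_s1 : ∃ t, chk3 f_A00pm_102_s1 t 6 671 1 = true :=
  ⟨(a (a (a (a (a (c (l 16766592) (l 16767704)) (c (l 16765568) (l 16764072))) (c (a (l 16764528) (l 16763480)) (a (l 16763056) (l 16762024)))) (a (c (a (l 16762424) (l 16761344)) (a (l 16760976) (l 16759920))) (c (a (l 16760256) (l 16759160)) (a (l 16758848) (l 16757760))))) (a (a (a (l 16759992) (l 16756240)) (a (l 16755104) (l 16753952))) (a (c (l 16752840) (l 16751480)) (c (l 16750416) (l 16749064))))) (a (a (a (a (c (l 16748488) (l 16747136)) (l 16746336)) (c (l 16744704) (l 16743304))) (c (a (l 16741624) (l 16738488)) (a (l 16740160) (l 16736952)))) (c (a (a (l 16735280) (l 16731976)) (a (l 16728528) (l 16724944))) (a (l 16731992) (l 16724912))))), by decide +kernel⟩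

def k79_A00pm_102_s1 : ∃ t, chk3 f_A00pm_102_s1 t 12 21 1 = true :=
  ⟨(a (a (b (b (b (a (c (a (b (l 16767032) (l 16767600)) (b (l 16765984) (l 16766528))) (a (b (l 16765176) (l 16765296)) (b (l 16764152) (l 16764248)))) (c (a (b (l 16764920) (l 16765424)) (l 16764080)) (a (b (l 16763104) (l 16763176)) (b (l 16762048) (l 16762080))))) (a (c (a (l 16768424) (l 16767328)) (a (l 16765464) (l 16764392))) (a (c (l 16766192) (l 16763280)) (c (l 16765024) (l 16762144))))) (a (a (b (l 16772824) (l 16768232)) (b (l 16766488) (l 16767120))) (c (b (l 16766608) (l 16767632)) (b (l 16762856) (l 16763024))))) (c (a (b (a (l 16772200) (l 16771064)) (l 16773944)) (b (l 16769224) (l 16771472))) (a (b (a (l 16766320) (l 16765184)) (l 16766432)) (b (l 16763360) (l 16763968))))) (b (c (b (a (b (a (l 16762968) (l 16761840)) (a (l 16763840) (l 16762640))) (b (a (l 16760704) (l 16759552)) (l 16760816))) (a (b (l 16764112) (l 16765048)) (l 16761912))) (b (a (b (a (l 16760976) (l 16759872)) (a (l 16760984) (l 16759816)))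 (b (a (l 16758752) (l 16757616)) (l 16758024))) (a (b (l 16760416) (l 16760512)) (l 16757872)))) (a (b (c (l 16766520) (l 16760728)) (l 16775448)) (b (c (l 16763664) (l 16757952)) (l 16761944))))) (a (b (b (a (a (b (c (l 16758384) (l 16756464)) (l 16757584)) (b (c (l 16757200) (l 16755296)) (l 16756328))) (c (a (l 16758808) (l 16754928)) (b (b (l 16753640) (l 16753400)) (l 16753064)))) (a (b (l 16767600) (l 16757336)) (b (l 16754432) (l 16754504)))) (b (a (l 16757800) (l 16754768)) (a (l 16758776) (l 16755432)))) (b (b (a (a (b (l 16755264) (l 16752472)) (b (l 16751400) (l 16751152))) (b (a (l 16750144) (l 16748864)) (l 16754384))) (a (b (l 16751672) (l 16751608)) (l 16759208))) (b (a (l 16751648) (l 16748456)) (a (l 16752040) (l 16748560)))))), by decide +kernel⟩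

def k80_A00pm_102_s1 : ∃ t, chk3 f_A00pm_102_s1 t 13 21 1 = true :=
  ⟨(a (b (b (a (a (a (b (c (l 16748408) (l 16746576)) (l 16747064)) (c (l 16746784) (l 16744576))) (a (c (l 16745168) (l 16742952)) (c (l 16748776) (l 16741312)))) (c (a (b (c (l 16741744) (l 16740856)) (l 16740856)) (c (b (l 16738504) (l 16738056)) (l 16737176))) (a (l 16738816) (l 16735448)))) (a (a (b (l 16745848) (l 16745504)) (c (l 16743968) (l 16740288))) (c (a (l 16740320) (l 16736624)) (l 16745328)))) (a (b (a (l 16745136) (l 16741360)) (a (l 16744976) (l 16740960))) (b (c (l 16748408) (l 16732880)) (l 16750240)))) (b (c (b (c (a (a (b (l 16735208) (l 16734584)) (b (l 16731832) (l 16731032))) (a (b (l 16728320) (l 16727384)) (b (l 16724672) (l 16723592)))) (a (a (l 16733776) (l 16730280)) (a (l 16726680) (l 16722928)))) (a (a (l 16732872) (l 16729072)) (a (l 16725176) (l 16721176)))) (a (b (a (l 16732000) (l 16728456)) (l 16727368)) (a (l 16744064) (l 16719184)))) (a (a (a (l 16750584) (l 16748456)) (a (l 16746304) (l 16733656)))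 (a (a (l 16731496) (l 16729288)) (a (l 16727072) (l 16724832)))))), by decide +kernel⟩

def k81_A00pm_102_s1 : ∃ t, chk3 f_A00pm_102_s1 t 14 40 1 = true :=
  ⟨(a (b (c (a (b (a (l 16741336) (l 16737488)) (a (l 16738224) (l 16734440))) (a (b (l 16733472) (l 16730520)) (b (l 16729424) (l 16726656)))) (a (b (a (l 16741432) (l 16737528)) (a (l 16738232) (c (l 16734456) (l 16734256)))) (c (a (b (l 16733512) (a (l 16731440) (l 16729472))) (b (a (l 16730360) (l 16728328)) (l 16726424))) (a (b (l 16733328) (a (b (l 16732000) (l 16730440)) (b (l 16729912) (l 16728432)))) (b (a (b (l 16730904) (l 16729360)) (c (l 16728128) (l 16727928))) (c (l 16726152) (l 16725912))))))) (c (a (b (a (l 16735296) (l 16731584)) (a (l 16732616) (l 16729104))) (a (b (l 16727904) (l 16725296)) (l 16722648))) (a (c (b (a (l 16735264) (a (l 16732456) (l 16730544))) (a (b (l 16733128) (l 16731800)) (a (l 16729728) (l 16727776)))) (b (a (l 16735048) (a (l 16732192) (b (l 16730952) (l 16729520)))) (a (b (a (l 16733768) (l 16731912))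 (a (l 16732368) (l 16730536))) (a (b (l 16730040) (l 16728592)) (l 16727328))))) (c (a (b (l 16727648) (l 16724808)) (l 16722096)) (a (b (a (c (l 16728368) (l 16728144)) (l 16726184)) (l 16724264)) (b (l 16723024) (l 16720024))))))) (a (c (b (a (l 16724008) (l 16719848)) (a (l 16718552) (l 16714272))) (b (a (c (l 16723672) (a (l 16724304) (l 16722096))) (c (l 16719296) (a (l 16719832) (l 16717520)))) (a (c (l 16717824) (b (l 16718632) (l 16715592))) (a (l 16719336) (l 16717024))))) (c (b (a (l 16715480) (l 16710904)) (a (l 16709792) (l 16705112))) (b (a (c (l 16714712) (b (l 16715536) (l 16712384))) (c (l 16709912) (a (l 16710248) (l 16707720)))) (a (a (l 16709408) (l 16706984)) (a (l 16704512) (l 16701984))))))), by decide +kernel⟩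

def k82_A00pm_102_s1 : ∃ t, chk3 f_A00pm_102_s1 t 14 82 1 = true :=
  ⟨(a (b (c (a (a (c (l 16730344) (l 16730184)) (l 16726576)) (a (l 16722744) (l 16718728))) (a (a (a (b (a (l 16731696) (l 16730792)) (l 16729872)) (l 16733896)) (c (l 16726008) (l 16725424))) (a (c (l 16722008) (l 16721312)) (l 16717456)))) (a (c (a (l 16727824) (l 16724080)) (a (c (l 16727120) (l 16726464)) (l 16728120))) (a (c (l 16720168) (l 16718776)) (c (l 16716096) (l 16714504))))) (a (c (a (b (l 16714536) (l 16711840)) (l 16708752)) (a (b (l 16713040) (l 16710040)) (b (l 16708440) (l 16705400)))) (a (c (l 16704160) (b (l 16703640) (l 16700560))) (c (b (l 16700848) (l 16697984)) (b (l 16698632) (l 16695528)))))), by decide +kernel⟩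

def k83_A00pm_102_s1 : ∃ t, chk3 f_A00pm_102_s1 t 14 83 1 = true :=
  ⟨(a (b (a (c (a (l 16725288) (l 16721472)) (a (l 16734368) (l 16719904))) (c (a (l 16717504) (l 16713360)) (a (l 16715752) (l 16711440)))) (c (c (a (a (b (l 16723496) (a (l 16723040) (l 16721152))) (b (l 16719680) (b (l 16723680) (l 16717816)))) (a (b (l 16715704) (l 16719496)) (b (l 16711568) (l 16710096)))) (c (a (b (l 16721056) (b (l 16730232) (l 16719080))) (b (l 16713000) (l 16721944))) (a (b (l 16720640) (l 16719072)) (b (l 16712512) (l 16710912))))) (c (a (b (l 16730440) (l 16718296)) (b (l 16711704) (l 16710024))) (a (b (l 16718920) (l 16717160)) (b (l 16710512) (l 16708736)))))) (c (c (a (a (b (l 16709480) (b (l 16707264) (l 16705776))) (b (l 16705032) (b (l 16702792) (l 16701280)))) (a (b (l 16700416) (b (l 16698152) (l 16696624))) (b (l 16695616) (b (l 16693328) (l 16691784))))) (c (a (b (l 16706608) (b (l 16704288) (l 16702712))) (b (l 16697240) (b (l 16694880) (l 16693272)))) (a (b (l 16706104) (b (l 16703720) (l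 16702088))) (b (l 16696632) (b (l 16694216) (l 16692576)))))) (a (a (b (l 16706944) (b (l 16704424) (l 16702688))) (b (l 16702272) (b (l 16699736) (l 16698000)))) (a (b (l 16697408) (b (l 16694864) (l 16693128))) (b (l 16692352) (b (l 16689808) (l 16688072))))))), by decide +kernel⟩

def k84_A00pm_102_s1 : ∃ t, chk3 f_A00pm_102_s1 t 14 21 1 = true :=
  ⟨(a (b (c (c (b (a (a (b (l 16720888) (l 16719672)) (b (l 16716952) (l 16715608))) (a (l 16717360) (l 16707824))) (a (a (l 16717928) (l 16713656)) (a (l 16709248) (l 16704688)))) (a (a (l 16728008) (l 16723848)) (a (l 16709056) (l 16704592)))) (a (b (l 16725464) (l 16711160)) (b (l 16716920) (l 16702208)))) (c (a (a (l 16713616) (l 16708960)) (a (l 16704152) (l 16699208))) (a (a (l 16708192) (l 16703552)) (a (l 16698760) (l 16693824))))) (a (c (a (b (b (c (l 16703368) (l 16701952)) (l 16699064)) (l 16694120)) (b (b (c (l 16698744) (l 16697280)) (l 16694192)) (l 16688904))) (b (b (l 16697224) (l 16692624)) (l 16686144))) (c (b (a (b (c (l 16693968)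 (l 16692440)) (l 16689168)) (b (c (l 16689016) (l 16687424)) (l 16683984))) (a (l 16683536) (l 16678024))) (b (a (l 16687384) (l 16682176)) (l 16696344))))), by decide +kernel⟩

def k85_A00pm_102_s1 : ∃ t, chk3 f_A00pm_102_s1 t 30 20 1 = true :=
  ⟨(b (a (c (a (b (c (l 16706408) (l 16705760)) (c (l 16700624) (l 16699776))) (b (c (l 16701480) (l 16700672)) (c (l 16695600) (l 16694616)))) (a (b (c (l 16704896) (a (l 16705128) (l 16702480))) (c (l 16698712) (b (l 16699024) (l 16695848)))) (b (c (a (l 16700976) (l 16698296)) (a (l 16699768) (l 16697000))) (c (l 16693400) (b (l 16693568) (l 16690368)))))) (c (a (b (c (l 16696328) (l 16695360)) (c (l 16690376) (l 16689240))) (b (c (l 16690960) (l 16689816)) (c (l 16684928) (l 16683640)))) (a (b (c (a (l 16695552) (l 16692752)) (a (l 16694168) (l 16691280))) (c (l 16687872) (b (l 16687880) (l 16684664)))) (b (c (a (l 16689896) (l 16686968)) (a (l 16688328) (l 16685304))) (c (a (l 16683568) (l 16680624)) (a (l 16681832) (l 16678800))))))) (b (a (a (c (b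 (l 16695896) (l 16692992)) (b (l 16693424) (l 16690296))) (c (b (l 16690736) (l 16687800)) (b (l 16688000) (l 16684848)))) (a (c (b (l 16685384) (l 16682408)) (b (l 16682360) (l 16679192))) (c (b (l 16679808) (l 16676808)) (b (l 16676488) (l 16673304))))) (c (a (b (a (l 16690032) (l 16684808)) (a (b (l 16687672) (a (l 16687352) (l 16684776))) (b (l 16682432) (a (l 16682152) (l 16679488))))) (a (b (l 16679384) (b (l 16677000) (a (l 16676768) (l 16674000)))) (b (l 16673760) (b (l 16671368) (a (l 16671184) (l 16668320)))))) (a (a (b (l 16687096) (b (l 16684552) (l 16682816))) (b (l 16681640) (b (l 16679096) (l 16677360)))) (a (b (l 16675968) (b (l 16673424) (l 16671704))) (b (l 16670072) (b (l 16667544) (l 16665832)))))))), by decide +kernel⟩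

def k86_A00pm_102_s1 : ∃ t, chk3 f_A00pm_102_s1 t 30 21 1 = true :=
  ⟨(b (c (c (a (a (b (l 16683896) (l 16679624)) (b (l 16678592) (l 16674136))) (a (b (l 16673112) (l 16668472)) (b (l 16667448) (l 16662640)))) (a (a (l 16679872) (l 16674408)) (a (l 16668768) (l 16662944)))) (a (a (l 16676776) (l 16671200)) (a (l 16665416) (l 16659440)))) (a (c (a (l 16672368) (l 16666560)) (a (l 16666880) (l 16661008))) (c (a (l 16660600) (l 16654480)) (a (l 16654968) (l 16648744))))), by decide +kernel⟩

def k87_A00pm_102_s1 : ∃ t, chk3 f_A00pm_102_s1 t 31 20 1 = true :=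
  ⟨(b (a (a (c (b (c (l 16685352) (l 16684032)) (c (l 16679272) (l 16677808))) (b (c (a (l 16683984) (l 16680928)) (a (l 16682224) (l 16679072))) (c (a (l 16677624) (l 16674560)) (b (l 16675776) (l 16672536))))) (c (b (c (l 16679512) (l 16677992)) (c (l 16673376) (l 16671744))) (b (c (a (l 16677816) (l 16674632)) (a (l 16675864) (l 16672576))) (c (l 16675096) (a (l 16669336) (l 16666056)))))) (c (a (b (c (l 16673424) (l 16671704)) (c (l 16667256) (l 16665432))) (b (a (l 16667776) (l 16664480)) (a (l 16661544) (l 16658248)))) (a (a (b (c (l 16671384) (l 16669224)) (l 16669128)) (b (c (l 16668072) (l 16665808)) (l 16660512))) (b (a (c (l 16664680) (l 16662312)) (c (l 16661224) (l 16658752))) (a (l 16657080) (l 16653576)))))) (b (a (a (c (b (l 16674024) (l 16671000)) (b (l 16670376) (l 16667184))) (c (b (l 16668016) (l 16664968)) (b (l 16664024) (l 16660832)))) (a (c (a (l 16661808) (l 16658624)) (b (l 16657424) (l 16654232))) (c (a (l 16655384) (l 16652080)) (b (l 16650560) (l 16647376))))) (a (a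 (b (c (l 16667936) (l 16663952)) (c (b (l 16665536) (a (l 16665400) (l 16662432))) (b (l 16661440) (l 16659736)))) (b (c (l 16661896) (l 16657600)) (c (b (l 16659496) (a (l 16659416) (l 16656344))) (b (l 16655096) (l 16653408))))) (b (a (c (l 16655632) (l 16651008)) (c (l 16649144) (l 16644168))) (c (a (b (l 16653240) (a (l 16653216) (l 16650040))) (b (l 16646760) (l 16655648))) (a (b (l 16648520) (l 16646848)) (b (l 16641696) (l 16640040)))))))), by decide +kernel⟩

def k88_A00pm_102_s1 : ∃ t, chk3 f_A00pm_102_s1 t 31 21 1 = true :=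
  ⟨(a (c (b (a (b (c (l 16661600) (l 16659576)) (l 16655512)) (b (c (l 16655552) (l 16653408)) (l 16649280))) (a (l 16648200) (l 16641744))) (b (a (l 16653256) (l 16646856)) (a (l 16642344) (l 16635752)))) (a (b (c (b (c (l 16649312) (l 16647032)) (l 16642856)) (l 16640232)) (c (l 16635120) (l 16628968))) (b (c (b (l 16652168) (l 16636232)) (l 16654344)) (c (l 16628320) (l 16621976))))), by decide +kernel⟩

def k89_A00pm_102_s1 : ∃ t, chk3 f_A00pm_102_s1 t 6 11 1 = true :=
  ⟨(a (a (b (a (b (a (b (c (l 16776432) (l 16767320)) (a (l 16774352) (l 16773120))) (b (l 16779792) (l 16771152))) (a (b (l 16786376) (l 16799248)) (b (l 16773232) (l 16775568)))) (b (a (b (l 16766504) (l 16768280)) (b (l 16763424) (l 16765128))) (a (b (l 16770296) (l 16772576)) (l 16789104)))) (a (b (a (b (l 16801896) (l 16783832)) (b (l 16778168) (l 16781024))) (a (b (l 16787000) (l 16790440)) (b (l 16784152) (l 16787560)))) (b (a (l 16797448) (l 16773096)) (a (l 16782648) (l 16779176))))) (b (a (b (a (b (l 16760056) (l 16761688))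 (l 16778144)) (a (l 16764584) (l 16760736))) (b (a (l 16753440) (l 16749440)) (a (l 16756560) (l 16752184)))) (a (b (a (l 16769416) (l 16765432)) (a (l 16775384) (l 16771272))) (b (a (l 16761128) (l 16756512)) (l 16764488))))) (a (b (a (b (a (l 16745448) (l 16741112)) (a (l 16747696) (l 16742816))) (a (b (l 16736336) (l 16737480)) (b (l 16731488) (l 16731944)))) (a (b (a (l 16751552) (c (l 16754192) (l 16738712))) (a (l 16756984) (l 16751584))) (b (a (c (l 16748320) (l 16733128)) (l 16734312)) (a (c (l 16754960) (l 16736368)) (c (l 16747984) (l 16729776)))))) (b (c (a (b (l 16728288) (l 16729184)) (b (b (l 16718544) (l 16717800)) (l 16717504))) (a (b (a (l 16722392) (l 16717504)) (a (l 16720704) (l 16715168))) (b (a (l 16712560) (l 16707552)) (a (l 16709576) (l 16703928))))) (a (b (c (l 16732048) (a (l 16720832) (l 16714616))) (c (l 16737264) (a (l 16723024) (l 16716000)))) (b (c (l 16718824) (a (l 16708344) (l 16702016))) (c (l 16722224) (a (l 16709016) (l 16701976)))))))), by decide +kernel⟩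

def k90_A00pm_102_s1 : ∃ t, chk3 f_A00pm_102_s1 t 7 11 1 = true :=
  ⟨(a (a (b (c (a (b (c (l 16709640) (l 16705752)) (l 16705640)) (b (a (l 16699680) (l 16694224)) (l 16693616))) (a (b (a (l 16702496) (l 16697344)) (a (l 16698232) (l 16692488))) (b (a (l 16692096) (l 16686744)) (a (l 16686704) (l 16680832))))) (a (a (b (l 16702160) (a (l 16704680) (l 16701024))) (b (l 16695592) (l 16695520))) (a (b (l 16688992) (l 16688168)) (b (l 16682360) (l 16680792))))) (b (a (a (b (l 16684960) (l 16679640)) (b (l 16679288) (l 16673504))) (a (b (l 16673488) (l 16667240)) (b (l 16688528) (l 16660856)))) (a (b (c (l 16678240) (l 16677008)) (c (l 16676832) (l 16662648))) (b (c (l 16664320) (l 16653184)) (a (l 16658592) (l 16651136)))))) (a (b (a (a (b (l 16682464) (l 16654352)) (b (l 16676256) (l 16647736))) (a (b (l 16669912) (l 16640992)) (b (l 16663424) (l 16634128)))) (a (c (a (l 16672544) (l 16644152)) (b (l 16639504) (l 16633488))) (c (b (l 16635512) (l 16630480)) (b (l 16625352) (l 16618520))))) (b (a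 (a (b (l 16656784) (l 16627144)) (b (l 16629024) (l 16620032))) (a (b (l 16622072) (l 16612784)) (b (l 16614960) (l 16605408)))) (a (a (b (l 16619456) (l 16612824)) (b (l 16611968) (l 16604920))) (a (b (l 16604376) (l 16596936)) (b (l 16596680) (l 6))))))), by decide +kernel⟩

def k91_A00pm_102_s1 : ∃ t, chk3 f_A00pm_102_s1 t 6 3 1 = true :=
  ⟨(b (a (b (a (a (b (b (a (b (l 16794144) (l 16798136)) (b (l 16791240) (l 16795208))) (a (l 2) (l 16822664))) (l 2)) (b (b (a (l 16789952) (l 16786400)) (a (l 16798416) (l 16794816))) (b (l 28554932247) (l 2)))) (b (a (b (l 16822400) (l 16830712)) (b (l 16771352) (l 16779480))) (a (b (l 16798328) (l 16809176)) (b (l 16788912) (l 16799664))))) (b (a (l 2) (a (l 2) (l 45734793879))) (l 2))) (b (a (b (a (b (a (l 16763640) (l 16758080)) (a (l 16771600) (l 16765904))) (b (a (c (l 16763232) (l 16741176)) (c (l 16756112) (l 16734416))) (a (c (l 16772736) (l 16747232)) (c (l 16765720) (l 16740512))))) (a (b (l 16778024) (l 16788632)) (b (a (l 16768912) (a (l 16722048)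 (l 16760312))) (a (l 16779368) (b (l 16727976) (l 16775504)))))) (b (a (b (c (l 16744328) (a (l 16727072) (l 16719528))) (c (l 16753544) (a (l 16732928) (l 16725000)))) (b (c (l 16728104) (a (l 16711880) (l 16703976))) (c (l 16735952) (a (l 16716712) (l 16708232))))) (b (a (c (l 16764272) (a (l 16740240) (l 16732032))) (c (l 16746088) (a (l 16723464) (l 16714560)))) (a (c (l 16776512) (b (l 16742584) (l 16747376))) (c (l 16757776) (b (l 16725024) (l 16729536))))))) (b (b (a (a (l 16800648) (l 16787936)) (a (a (l 16776912) (l 6)) (l 6))) (l 6)) (l 6)))) (l 6)), by decide +kernel⟩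

def k92_A00pm_102_s1 : ∃ t, chk3 f_A00pm_102_s1 t 7 3 1 = true :=
  ⟨(b (b (a (a (b (a (b (c (l 16711152) (a (l 16696136) (l 16688256))) (c (l 16717712) (a (l 16699680) (l 16690880)))) (a (b (l 16689336) (l 16692704)) (b (l 16681168) (l 16683672)))) (a (b (c (l 16726352) (a (l 16705304) (l 16695872))) (c (l 16737360) (b (l 16706056) (l 6)))) (b (a (l 16698600) (l 16688528)) (l 6)))) (b (a (b (c (l 16677392) (l 16660528)) (c (l 16680096) (l 16660344))) (b (c (l 16660504) (l 16644664)) (c (l 16661440) (l 16642944)))) (a (b (c (l 16685160) (l 16662304)) (l 6)) (l 6)))) (a (b (a (a (b (l 16640312) (l 16638696)) (b (l 16632136) (l 6))) (b (a (l 16623920) (l 16615680)) (l 6))) (l 6)) (l 6))) (a (l 6) (l 6))) (l 6)), by decide +kernel⟩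

theorem t93_A00pm_102_s1 : ∃ t, chk3 f_A00pm_102_s1 t 3 3 1 = true := ex3_a k91_A00pm_102_s1 k92_A00pm_102_s1

theorem t94_A00pm_102_s1 : ∃ t, chk3 f_A00pm_102_s1 t 3 11 1 = true := ex3_a k89_A00pm_102_s1 k90_A00pm_102_s1

theorem t95_A00pm_102_s1 : ∃ t, chk3 f_A00pm_102_s1 t 31 10 1 = true := ex3_b k87_A00pm_102_s1 k88_A00pm_102_s1

theorem t96_A00pm_102_s1 : ∃ t, chk3 f_A00pm_102_s1 t 30 10 1 = true := ex3_b k85_A00pm_102_s1 k86_A00pm_102_s1

theorem t97_A00pm_102_s1 : ∃ t, chk3 f_A00pm_102_s1 t 15 10 1 = true := ex3_a t96_A00pm_102_s1 t95_A00pm_102_s1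

theorem t98_A00pm_102_s1 : ∃ t, chk3 f_A00pm_102_s1 t 14 41 1 = true := ex3_b k82_A00pm_102_s1 k83_A00pm_102_s1

theorem t99_A00pm_102_s1 : ∃ t, chk3 f_A00pm_102_s1 t 14 20 1 = true := ex3_b k81_A00pm_102_s1 t98_A00pm_102_s1

theorem t100_A00pm_102_s1 : ∃ t, chk3 f_A00pm_102_s1 t 14 10 1 = true := ex3_b t99_A00pm_102_s1 k84_A00pm_102_s1

theorem t101_A00pm_102_s1 : ∃ t, chk3 f_A00pm_102_s1 t 7 10 1 = true := ex3_a t100_A00pm_102_s1 t97_A00pm_102_s1

theorem t102_A00pm_102_s1 : ∃ t, chk3 f_A00pm_102_s1 t 6 21 1 = true := ex3_a k79_A00pm_102_s1 k80_A00pm_102_s1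

theorem t103_A00pm_102_s1 : ∃ t, chk3 f_A00pm_102_s1 t 6 5365 1 = true := ex3_b k75_A00pm_102_s1 k76_A00pm_102_s1

theorem t104_A00pm_102_s1 : ∃ t, chk3 f_A00pm_102_s1 t 6 2682 1 = true := ex3_b k74_A00pm_102_s1 t103_A00pm_102_s1

theorem t105_A00pm_102_s1 : ∃ t, chk3 f_A00pm_102_s1 t 6 1341 1 = true := ex3_b t104_A00pm_102_s1 k77_A00pm_102_s1

theorem t106_A00pm_102_s1 : ∃ t, chk3 f_A00pm_102_s1 t 6 5360 1 = true := ex3_b k70_A00pm_102_s1 k71_A00pm_102_s1

theorem t107_A00pm_102_s1 : ∃ t, chk3 f_A00pm_102_s1 t 6 2680 1 = true := ex3_b t106_A00pm_102_s1 k72_A00pm_102_s1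

theorem t108_A00pm_102_s1 : ∃ t, chk3 f_A00pm_102_s1 t 6 1340 1 = true := ex3_b t107_A00pm_102_s1 k73_A00pm_102_s1

theorem t109_A00pm_102_s1 : ∃ t, chk3 f_A00pm_102_s1 t 6 670 1 = true := ex3_b t108_A00pm_102_s1 t105_A00pm_102_s1

theorem t110_A00pm_102_s1 : ∃ t, chk3 f_A00pm_102_s1 t 6 335 1 = true := ex3_b t109_A00pm_102_s1 k78_A00pm_102_s1

theorem t111_A00pm_102_s1 : ∃ t, chk3 f_A00pm_102_s1 t 12 334 1 = true := ex3_b k67_A00pm_102_s1 k68_A00pm_102_s1

theorem t112_A00pm_102_s1 : ∃ t, chk3 f_A00pm_102_s1 t 6 334 1 = true := ex3_a t111_A00pm_102_s1 k69_A00pm_102_s1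

theorem t113_A00pm_102_s1 : ∃ t, chk3 f_A00pm_102_s1 t 6 167 1 = true := ex3_b t112_A00pm_102_s1 t110_A00pm_102_s1

theorem t114_A00pm_102_s1 : ∃ t, chk3 f_A00pm_102_s1 t 12 166 1 = true := ex3_a k64_A00pm_102_s1 k65_A00pm_102_s1

theorem t115_A00pm_102_s1 : ∃ t, chk3 f_A00pm_102_s1 t 6 166 1 = true := ex3_a t114_A00pm_102_s1 k66_A00pm_102_s1

theorem t116_A00pm_102_s1 : ∃ t, chk3 f_A00pm_102_s1 t 6 83 1 = true := ex3_b t115_A00pm_102_s1 t113_A00pm_102_s1

theorem t117_A00pm_102_s1 : ∃ t, chk3 f_A00pm_102_s1 t 12 82 1 = true := ex3_a k61_A00pm_102_s1 k62_A00pm_102_s1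

theorem t118_A00pm_102_s1 : ∃ t, chk3 f_A00pm_102_s1 t 6 82 1 = true := ex3_a t117_A00pm_102_s1 k63_A00pm_102_s1

theorem t119_A00pm_102_s1 : ∃ t, chk3 f_A00pm_102_s1 t 6 41 1 = true := ex3_b t118_A00pm_102_s1 t116_A00pm_102_s1

theorem t120_A00pm_102_s1 : ∃ t, chk3 f_A00pm_102_s1 t 12 40 1 = true := ex3_b k58_A00pm_102_s1 k59_A00pm_102_s1

theorem t121_A00pm_102_s1 : ∃ t, chk3 f_A00pm_102_s1 t 6 40 1 = true := ex3_a t120_A00pm_102_s1 k60_A00pm_102_s1

theorem t122_A00pm_102_s1 : ∃ t, chk3 f_A00pm_102_s1 t 6 20 1 = true := ex3_b t121_A00pm_102_s1 t119_A00pm_102_s1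

theorem t123_A00pm_102_s1 : ∃ t, chk3 f_A00pm_102_s1 t 6 10 1 = true := ex3_b t122_A00pm_102_s1 t102_A00pm_102_s1

theorem t124_A00pm_102_s1 : ∃ t, chk3 f_A00pm_102_s1 t 3 10 1 = true := ex3_a t123_A00pm_102_s1 t101_A00pm_102_s1

theorem t125_A00pm_102_s1 : ∃ t, chk3 f_A00pm_102_s1 t 3 5 1 = true := ex3_b t124_A00pm_102_s1 t94_A00pm_102_s1

theorem t126_A00pm_102_s1 : ∃ t, chk3 f_A00pm_102_s1 t 31 18 1 = true := ex3_b k55_A00pm_102_s1 k56_A00pm_102_s1

theorem t127_A00pm_102_s1 : ∃ t, chk3 f_A00pm_102_s1 t 31 9 1 = true := ex3_b t126_A00pm_102_s1 k57_A00pm_102_s1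

theorem t128_A00pm_102_s1 : ∃ t, chk3 f_A00pm_102_s1 t 30 18 1 = true := ex3_b k52_A00pm_102_s1 k53_A00pm_102_s1

theorem t129_A00pm_102_s1 : ∃ t, chk3 f_A00pm_102_s1 t 30 9 1 = true := ex3_b t128_A00pm_102_s1 k54_A00pm_102_s1

theorem t130_A00pm_102_s1 : ∃ t, chk3 f_A00pm_102_s1 t 15 9 1 = true := ex3_a t129_A00pm_102_s1 t127_A00pm_102_s1

theorem t131_A00pm_102_s1 : ∃ t, chk3 f_A00pm_102_s1 t 29 19 1 = true := ex3_b k50_A00pm_102_s1 k51_A00pm_102_s1

theorem t132_A00pm_102_s1 : ∃ t, chk3 f_A00pm_102_s1 t 29 18 1 = true := ex3_b k48_A00pm_102_s1 k49_A00pm_102_s1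

theorem t133_A00pm_102_s1 : ∃ t, chk3 f_A00pm_102_s1 t 29 9 1 = true := ex3_b t132_A00pm_102_s1 t131_A00pm_102_s1

theorem t134_A00pm_102_s1 : ∃ t, chk3 f_A00pm_102_s1 t 28 9 1 = true := ex3_b k46_A00pm_102_s1 k47_A00pm_102_s1

theorem t135_A00pm_102_s1 : ∃ t, chk3 f_A00pm_102_s1 t 14 9 1 = true := ex3_a t134_A00pm_102_s1 t133_A00pm_102_s1

theorem t136_A00pm_102_s1 : ∃ t, chk3 f_A00pm_102_s1 t 7 9 1 = true := ex3_a t135_A00pm_102_s1 t130_A00pm_102_s1

theorem t137_A00pm_102_s1 : ∃ t, chk3 f_A00pm_102_s1 t 62 17 1 = true := ex3_b k43_A00pm_102_s1 k44_A00pm_102_s1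

theorem t138_A00pm_102_s1 : ∃ t, chk3 f_A00pm_102_s1 t 31 17 1 = true := ex3_a t137_A00pm_102_s1 k45_A00pm_102_s1

theorem t139_A00pm_102_s1 : ∃ t, chk3 f_A00pm_102_s1 t 31 8 1 = true := ex3_b k42_A00pm_102_s1 t138_A00pm_102_s1

theorem t140_A00pm_102_s1 : ∃ t, chk3 f_A00pm_102_s1 t 61 34 1 = true := ex3_a k39_A00pm_102_s1 k40_A00pm_102_s1

theorem t141_A00pm_102_s1 : ∃ t, chk3 f_A00pm_102_s1 t 61 17 1 = true := ex3_b t140_A00pm_102_s1 k41_A00pm_102_s1

theorem t142_A00pm_102_s1 : ∃ t, chk3 f_A00pm_102_s1 t 30 17 1 = true := ex3_a k38_A00pm_102_s1 t141_A00pm_102_s1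

theorem t143_A00pm_102_s1 : ∃ t, chk3 f_A00pm_102_s1 t 30 8 1 = true := ex3_b k37_A00pm_102_s1 t142_A00pm_102_s1

theorem t144_A00pm_102_s1 : ∃ t, chk3 f_A00pm_102_s1 t 15 8 1 = true := ex3_a t143_A00pm_102_s1 t139_A00pm_102_s1

theorem t145_A00pm_102_s1 : ∃ t, chk3 f_A00pm_102_s1 t 7 8 1 = true := ex3_a k36_A00pm_102_s1 t144_A00pm_102_s1

theorem t146_A00pm_102_s1 : ∃ t, chk3 f_A00pm_102_s1 t 7 4 1 = true := ex3_b t145_A00pm_102_s1 t136_A00pm_102_s1

theorem t147_A00pm_102_s1 : ∃ t, chk3 f_A00pm_102_s1 t 13 19 1 = true := ex3_b k34_A00pm_102_s1 k35_A00pm_102_s1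

theorem t148_A00pm_102_s1 : ∃ t, chk3 f_A00pm_102_s1 t 13 9 1 = true := ex3_b k33_A00pm_102_s1 t147_A00pm_102_s1

theorem t149_A00pm_102_s1 : ∃ t, chk3 f_A00pm_102_s1 t 13 4 1 = true := ex3_b k32_A00pm_102_s1 t148_A00pm_102_s1

theorem t150_A00pm_102_s1 : ∃ t, chk3 f_A00pm_102_s1 t 6 4 1 = true := ex3_a k31_A00pm_102_s1 t149_A00pm_102_s1

theorem t151_A00pm_102_s1 : ∃ t, chk3 f_A00pm_102_s1 t 3 4 1 = true := ex3_a t150_A00pm_102_s1 t146_A00pm_102_s1

theorem t152_A00pm_102_s1 : ∃ t, chk3 f_A00pm_102_s1 t 3 2 1 = true := ex3_b t151_A00pm_102_s1 t125_A00pm_102_s1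

theorem t153_A00pm_102_s1 : ∃ t, chk3 f_A00pm_102_s1 t 3 1 1 = true := ex3_b t152_A00pm_102_s1 t93_A00pm_102_s1

theorem t154_A00pm_102_s1 : ∃ t, chk3 f_A00pm_102_s1 t 5 11 1 = true := ex3_a k28_A00pm_102_s1 k29_A00pm_102_s1

theorem t155_A00pm_102_s1 : ∃ t, chk3 f_A00pm_102_s1 t 2 11 1 = true := ex3_a k27_A00pm_102_s1 t154_A00pm_102_s1

theorem t156_A00pm_102_s1 : ∃ t, chk3 f_A00pm_102_s1 t 11 21 1 = true := ex3_b k25_A00pm_102_s1 k26_A00pm_102_s1

theorem t157_A00pm_102_s1 : ∃ t, chk3 f_A00pm_102_s1 t 5 21 1 = true := ex3_a k24_A00pm_102_s1 t156_A00pm_102_s1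

theorem t158_A00pm_102_s1 : ∃ t, chk3 f_A00pm_102_s1 t 2 21 1 = true := ex3_a k23_A00pm_102_s1 t157_A00pm_102_s1

theorem t159_A00pm_102_s1 : ∃ t, chk3 f_A00pm_102_s1 t 47 167 1 = true := ex3_a k21_A00pm_102_s1 k22_A00pm_102_s1

theorem t160_A00pm_102_s1 : ∃ t, chk3 f_A00pm_102_s1 t 23 167 1 = true := ex3_a k20_A00pm_102_s1 t159_A00pm_102_s1

theorem t161_A00pm_102_s1 : ∃ t, chk3 f_A00pm_102_s1 t 23 83 1 = true := ex3_b k19_A00pm_102_s1 t160_A00pm_102_s1

theorem t162_A00pm_102_s1 : ∃ t, chk3 f_A00pm_102_s1 t 22 83 1 = true := ex3_b k17_A00pm_102_s1 k18_A00pm_102_s1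

theorem t163_A00pm_102_s1 : ∃ t, chk3 f_A00pm_102_s1 t 11 83 1 = true := ex3_a t162_A00pm_102_s1 t161_A00pm_102_s1

theorem t164_A00pm_102_s1 : ∃ t, chk3 f_A00pm_102_s1 t 23 82 1 = true := ex3_b k15_A00pm_102_s1 k16_A00pm_102_s1

theorem t165_A00pm_102_s1 : ∃ t, chk3 f_A00pm_102_s1 t 11 82 1 = true := ex3_a k14_A00pm_102_s1 t164_A00pm_102_s1

theorem t166_A00pm_102_s1 : ∃ t, chk3 f_A00pm_102_s1 t 11 41 1 = true := ex3_b t165_A00pm_102_s1 t163_A00pm_102_s1

theorem t167_A00pm_102_s1 : ∃ t, chk3 f_A00pm_102_s1 t 21 167 1 = true := ex3_a k12_A00pm_102_s1 k13_A00pm_102_s1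

theorem t168_A00pm_102_s1 : ∃ t, chk3 f_A00pm_102_s1 t 21 83 1 = true := ex3_b k11_A00pm_102_s1 t167_A00pm_102_s1

theorem t169_A00pm_102_s1 : ∃ t, chk3 f_A00pm_102_s1 t 10 83 1 = true := ex3_a k10_A00pm_102_s1 t168_A00pm_102_s1

theorem t170_A00pm_102_s1 : ∃ t, chk3 f_A00pm_102_s1 t 10 41 1 = true := ex3_b k9_A00pm_102_s1 t169_A00pm_102_s1

theorem t171_A00pm_102_s1 : ∃ t, chk3 f_A00pm_102_s1 t 5 41 1 = true := ex3_a t170_A00pm_102_s1 t166_A00pm_102_s1

theorem t172_A00pm_102_s1 : ∃ t, chk3 f_A00pm_102_s1 t 2 41 1 = true := ex3_a k8_A00pm_102_s1 t171_A00pm_102_s1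

theorem t173_A00pm_102_s1 : ∃ t, chk3 f_A00pm_102_s1 t 23 163 1 = true := ex3_a k6_A00pm_102_s1 k7_A00pm_102_s1

theorem t174_A00pm_102_s1 : ∃ t, chk3 f_A00pm_102_s1 t 23 81 1 = true := ex3_b k5_A00pm_102_s1 t173_A00pm_102_s1

theorem t175_A00pm_102_s1 : ∃ t, chk3 f_A00pm_102_s1 t 11 81 1 = true := ex3_a k4_A00pm_102_s1 t174_A00pm_102_s1

theorem t176_A00pm_102_s1 : ∃ t, chk3 f_A00pm_102_s1 t 5 81 1 = true := ex3_a k3_A00pm_102_s1 t175_A00pm_102_s1

theorem t177_A00pm_102_s1 : ∃ t, chk3 f_A00pm_102_s1 t 2 81 1 = true := ex3_a k2_A00pm_102_s1 t176_A00pm_102_s1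

theorem t178_A00pm_102_s1 : ∃ t, chk3 f_A00pm_102_s1 t 2 40 1 = true := ex3_b k1_A00pm_102_s1 t177_A00pm_102_s1

theorem t179_A00pm_102_s1 : ∃ t, chk3 f_A00pm_102_s1 t 2 20 1 = true := ex3_b t178_A00pm_102_s1 t172_A00pm_102_s1

theorem t180_A00pm_102_s1 : ∃ t, chk3 f_A00pm_102_s1 t 2 10 1 = true := ex3_b t179_A00pm_102_s1 t158_A00pm_102_s1

theorem t181_A00pm_102_s1 : ∃ t, chk3 f_A00pm_102_s1 t 2 5 1 = true := ex3_b t180_A00pm_102_s1 t155_A00pm_102_s1

theorem t182_A00pm_102_s1 : ∃ t, chk3 f_A00pm_102_s1 t 2 2 1 = true := ex3_b k0_A00pm_102_s1 t181_A00pm_102_s1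

theorem t183_A00pm_102_s1 : ∃ t, chk3 f_A00pm_102_s1 t 2 1 1 = true := ex3_b t182_A00pm_102_s1 k30_A00pm_102_s1

theorem t184_A00pm_102_s1 : ∃ t, chk3 f_A00pm_102_s1 t 1 1 1 = true := ex3_a t183_A00pm_102_s1 t153_A00pm_102_s1

theorem c_A00pm_102_s1 : CertF 536870912 536870912 0 536870912 469762048 67108864 true true false .npp 1 0 2
    ndF0q1 ndF0q0 pcF2 cut_A00pm_102_s1 xt_A00pm_102_s1 :=
  certF1 (fam := true) (s1 := true) (s2 := false) (a := 1) (b := 0) (c := 2) (cn := .npp) (n1 := ndF0q1) (n2 := ndF0q0) (pc := pcF2) (cut := cut_A00pm_102_s1) (xt := xt_A00pm_102_s1) (P1 := 536870912) (W1 := 536870912) (P2 := 0) (W2 := 536870912) (P3 := 469762048) (W3 := 67108864)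
    rfl (fun _ => rfl) t184_A00pm_102_s1

theorem s_A00pm_102_s1 {κ x : ℝ} (hκ : κ * h0 = ken x) (hx : ((469762048 : ℕ) : ℝ) / S ≤ x)
    (hx' : x ≤ (((469762048 : ℕ) : ℝ) + (67108864 : ℕ)) / S)
    (H : CutA (VF κ) PP tKF tL pcF (Cut.of [[⟨0, 1, 0, 67108864⟩, ⟨1, 0, 0, 67108864⟩, ⟨2, 1, 0, 67108864⟩], [⟨0, 1, 0, 33554432⟩, ⟨1, 0, 1, 33554432⟩, ⟨2, 1, 1, 33554432⟩]]) 1 0 2 0 0 (sgb true) (sgb false) x) :
    AltA (VF κ) PP tKF tL pcF [⟨3, 0, 0, 1449551462⟩] 1 0 2 0 0 (sgb true) (sgb false) x :=
  strip_altA (m := 1449551462) true rfl hκ covF01 covF00 hx hx' c_A00pm_102_s1 H ((okx hx hx').extA (T := tt) (sideF hx hx') hκ rfl rfl (.O 1 true) (.O 0 false) rfl)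

end Pool.Agent.Strip051.G.I7_16_1_2.Tab.St.C
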