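import Pool.Agent.Strip051.G.I7_16_1_2.StF

/-! # Unit strips 4 (generated) -/

set_option linter.all false
set_option maxRecDepth 100000

namespace Pool.Agent.Strip051.G.I7_16_1_2.Tab.St.C

open Pool.Agent.Strip051.PB Pool.Agent.Strip051.PB.T Pool.Agent.StripNear Pool.Agent.Strip051.LC
open Pool.Agent.Strip051.G.I7_16_1_2.Tab Pool.Agent.Strip051.G.I7_16_1_2.Tab.St

noncomputable def cut_A00pm_102_s3 : Cut := Cut.of [[⟨3, 0, 0, 2845415833⟩], [⟨0, 1, 0, 67108864⟩, ⟨1, 0, 0, 67108864⟩, ⟨2, 1, 0, 67108864⟩], [⟨0, 1, 0, 33554432⟩, ⟨1, 0, 1, 33554432⟩, ⟨2, 1, 1, 33554432⟩]]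

noncomputable def f_A00pm_102_s3 : ℕ → ℕ → ℕ → ℕ → Bool := onCell 536870912 536870912 0 536870912 469762048 67108864
    (rowF 0 true true false .npp 1 0 2 (qsf 536870912 536870912 0 536870912 2) ndF0q1 ndF0q0 pcF2 cut_A00pm_102_s3 Ext.none)

def k0_A00pm_102_s3 : ∃ t, chk3 f_A00pm_102_s3 t 1 1 1 = true :=
  ⟨(l 6), by decide +kernel⟩

theorem c_A00pm_102_s3 : CertF 536870912 536870912 0 536870912 469762048 67108864 true true false .npp 1 0 2
    ndF0q1 ndF0q0 pcF2 cut_A00pm_102_s3 Ext.none :=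
  certF0 (fam := true) (s1 := true) (s2 := false) (a := 1) (b := 0) (c := 2) (cn := .npp) (n1 := ndF0q1) (n2 := ndF0q0) (pc := pcF2) (cut := cut_A00pm_102_s3) (xt := Ext.none) (P1 := 536870912) (W1 := 536870912) (P2 := 0) (W2 := 536870912) (P3 := 469762048) (W3 := 67108864)
    rfl k0_A00pm_102_s3

theorem s_A00pm_102_s3 {κ x : ℝ} (hκ : κ * h0 = ken x) (hx : ((469762048 : ℕ) : ℝ) / S ≤ x)
    (hx' : x ≤ (((469762048 : ℕ) : ℝ) + (67108864 : ℕ)) / S)
    (H : CutA (VF κ) PP tKF tL pcF (Cut.of [[⟨0, 1, 0, 67108864⟩, ⟨1, 0, 0, 67108864⟩, ⟨2, 1, 0, 67108864⟩], [⟨0, 1, 0, 33554432⟩, ⟨1, 0, 1, 33554432⟩, ⟨2, 1, 1, 33554432⟩]]) 1 0 2 0 0 (sgb true) (sgb false) x) :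
    AltA (VF κ) PP tKF tL pcF [⟨4, 0, 0, 2845415833⟩] 1 0 2 0 0 (sgb true) (sgb false) x :=
  strip_altA (m := 2845415833) false rfl hκ covF01 covF00 hx hx' c_A00pm_102_s3 H (noExt_A)

noncomputable def cut_A00pm_112_s1 : Cut := Cut.of [[⟨4, 0, 0, 1449551462⟩], [⟨0, 0, 1, 33554432⟩, ⟨1, 1, 0, 33554432⟩, ⟨2, 1, 1, 33554432⟩], [⟨0, 1, 0, 33554432⟩, ⟨1, 0, 1, 33554432⟩, ⟨2, 1, 1, 33554432⟩]]

noncomputable def xt_A00pm_112_s1 : Ext := strExt dd true true false .u0 .u0m .u2 .dn 1 1 2 rfl rfl gf2 vv ndF0q1 ndF0q1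

noncomputable def f_A00pm_112_s1 : ℕ → ℕ → ℕ → ℕ → Bool := onCell 536870912 536870912 1073741824 536870912 469762048 67108864
    (rowF 1 true true false .dn 1 1 2 (qsf 536870912 536870912 536870912 536870912 2) ndF0q1 ndF0q1 pcF2 cut_A00pm_112_s1 xt_A00pm_112_s1)

def k0_A00pm_112_s1 : ∃ t, chk3 f_A00pm_112_s1 t 2 4 1 = true :=
  ⟨(a (l 3) (l 3)), by decide +kernel⟩

def k1_A00pm_112_s1 : ∃ t, chk3 f_A00pm_112_s1 t 2 40 1 = true :=
  ⟨(a (l 3) (a (l 3) (l 1))), by decide +kernel⟩

def k2_A00pm_112_s1 : ∃ t, chk3 f_A00pm_112_s1 t 4 82 1 = true :=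
  ⟨(l 3), by decide +kernel⟩

def k3_A00pm_112_s1 : ∃ t, chk3 f_A00pm_112_s1 t 4 166 1 = true :=
  ⟨(a (a (b (l 3) (b (l 3) (a (a (b (c (l 536584319) (l 536188799)) (c (l 536725887) (l 536304767))) (b (l 3) (b (l 536687999) (a (l 536704383) (l 536807551))))) (l 3)))) (l 3)) (l 3)), by decide +kernel⟩

def k4_A00pm_112_s1 : ∃ t, chk3 f_A00pm_112_s1 t 32 334 1 = true :=
  ⟨(b (c (b (b (l 536945023) (a (l 536914303) (c (l 537256831) (l 537017983)))) (a (b (l 536996223) (l 537082751)) (b (c (l 537344127) (l 537097087)) (a (l 537252991) (l 537363583))))) (b (b (c (l 536605567) (a (l 536282751) (l 536470911))) (b (a (l 536442495) (c (l 536758655) (a (l 536470143) (c (l 536625535) (b (l 536494463) (l 536509823)))))) (a (l 536475263) (a (l 536622975) (a (l 536695935) (b (l 536735615) (l 536752511))))))) (a (b (b (l 536508543) (l 536543103)) (b (l 536578175) (l 536614783))) (b (b (a (l 536656767) (a (l 536729983) (l 536778111))) (a (l 536691583) (l 536788863))) (a (b (l 536727167)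 (l 536763775)) (a (l 536819327) (l 536867199))))))) (b (c (b (a (c (l 537298303) (l 537048959)) (b (l 537375359) (l 537422463))) (a (l 537262463) (l 537484671))) (b (a (b (l 536652159) (l 536691071)) (b (c (l 536981631) (l 536717951)) (l 536888447))) (a (c (l 536874367) (l 536614271)) (a (l 536892287) (l 536986239))))) (b (a (c (l 537329791) (l 536799871)) (b (l 537253247) (l 537275007))) (a (c (l 537382271) (b (l 536833151) (l 536852095))) (c (b (l 537574271) (l 537591935)) (b (l 537013119) (l 537027711))))))), by decide +kernel⟩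

def k5_A00pm_112_s1 : ∃ t, chk3 f_A00pm_112_s1 t 32 335 1 = true :=
  ⟨(b (b (b (b (b (a (b (l 537135231) (l 537139839)) (a (l 537277567) (l 537361791))) (a (c (l 537419391) (l 536873343)) (c (l 537610623) (l 537043071)))) (a (c (c (l 16777808) (l 16777576)) (a (l 16777192) (l 16777264))) (c (a (l 16777712) (l 16777704)) (a (l 16777312) (l 16777352))))) (a (a (c (l 16777728) (l 16777208)) (c (l 16777752) (l 16777280))) (a (c (l 16777760) (l 16777336)) (c (l 16777752) (l 16777368))))) (b (b (a (a (c (l 16777776) (l 16777224)) (c (l 16777808) (l 16777304))) (a (c (l 16777816) (l 16777352)) (c (l 16777808) (l 16777392)))) (a (b (a (c (l 16777800) (l 16777232)) (c (l 16777832) (l 16777312))) (b (a (c (l 16777816) (l 16777240)) (c (l 16777848) (l 16777312))) (c (a (l 16777824) (l 16777856)) (a (l 16777240) (l 16777320))))) (b (a (c (l 16777840) (l 16777360)) (c (l 16777832) (l 16777400))) (b (a (c (l 16777856) (l 16777368)) (c (l 16777848) (l 16777408))) (a (c (l 16777864)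 (l 16777368)) (c (l 16777856) (l 16777408))))))) (c (a (a (l 16777864) (l 16777896)) (a (l 16777904) (l 16777896))) (a (a (l 16777256) (l 16777328)) (a (l 16777384) (l 16777424)))))) (c (a (a (l 16778040) (l 16778072)) (a (l 16778080) (l 16778080))) (a (a (l 16777312) (l 16777392)) (a (l 16777448) (l 16777488))))), by decide +kernel⟩

def k6_A00pm_112_s1 : ∃ t, chk3 f_A00pm_112_s1 t 33 668 1 = true :=
  ⟨(c (b (a (a (b (l 537223039) (c (l 537427071) (l 537177471))) (b (l 3) (l 537408895))) (l 3)) (a (b (l 537706111) (a (l 537470847) (l 537573503))) (b (a (l 537589887) (l 3)) (a (l 537669759) (b (l 3) (l 537773183)))))) (b (a (a (a (b (a (a (l 536692863) (l 3)) (l 3)) (c (b (l 536883583) (l 536918655)) (a (b (a (b (l 536608383) (l 536623999)) (b (l 536619903) (l 536635519))) (l 536653439)) (b (a (b (l 536631311) (l 536647039)) (l 536650879)) (l 536676479))))) (b (l 3) (b (l 536806015) (l 536839039)))) (b (l 3) (l 536892799))) (l 3)) (a (b (a (c (l 536997247) (a (l 536714111)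 (l 536759423))) (l 536959103)) (a (l 536937599) (l 537027711))) (b (l 537624447) (a (l 537112703) (b (l 3) (l 537204351))))))), by decide +kernel⟩

def k7_A00pm_112_s1 : ∃ t, chk3 f_A00pm_112_s1 t 33 669 1 = true :=
  ⟨(b (b (a (c (b (l 537587327) (a (l 537581951) (l 537680255))) (b (l 537035903) (l 537072511))) (b (a (l 538251135) (c (l 537811839) (l 537235327))) (a (b (l 537473151) (l 538027903)) (b (a (l 537530495) (l 537565055)) (a (b (l 537543039) (l 537549439)) (a (b (l 537568383) (l 537573503)) (b (c (a (l 537872255) (b (l 537881727) (l 537881983))) (a (l 537286783) (b (b (l 537292671) (l 537295743)) (l 537295743)))) (a (l 537583743) (l 537589631))))))))) (a (a (c (l 537638015) (l 537074815)) (b (l 537430911) (l 537452671))) (a (b (a (l 537491327) (l 537795711)) (a (l 537507967) (b (l 537537407) (l 537542015)))) (b (a (b (a (l 537548159) (l 537563519)) (l 537561727)) (b (a (l 537577343) (b (l 537319551) (l 537588607))) (a (l 537580159) (l 537589119)))) (a (b (l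 537565311) (l 537567871)) (b (l 537586047) (l 537586559))))))) (a (b (a (b (l 537389439) (l 537405567)) (b (c (l 537757311) (l 537179007)) (l 537479551))) (b (a (l 537418623) (l 537488511)) (a (l 537429631) (l 537495679)))) (b (a (b (a (l 537518719) (l 537547135)) (c (l 537832575) (l 537246847))) (b (a (l 537570431) (l 537587071)) (b (l 537580671) (l 537581183)))) (b (a (l 537544319) (l 537581951)) (a (l 537547903) (l 537582719)))))), by decide +kernel⟩

def k8_A00pm_112_s1 : ∃ t, chk3 f_A00pm_112_s1 t 33 335 1 = true :=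
  ⟨(b (b (b (b (b (b (a (l 537469055) (l 537568639)) (a (l 537470847) (l 537569151))) (a (a (l 537440895) (l 537503103)) (a (l 537551487) (l 537583487)))) (c (a (a (l 16777680) (l 16777640)) (a (l 16777592) (l 16777536))) (a (a (l 16777368) (l 16777376)) (a (l 16777368) (l 16777352))))) (a (a (c (l 16777728) (l 16777392)) (c (l 16777696) (l 16777392))) (a (c (l 16777648) (l 16777392)) (c (l 16777592) (l 16777376))))) (b (b (a (a (c (l 16777784) (l 16777408)) (c (l 16777752) (l 16777416))) (a (c (l 16777704) (l 16777408)) (c (l 16777648) (l 16777400)))) (b (a (a (c (l 16777816) (l 16777424)) (c (l 16777776) (l 16777424))) (a (c (l 16777728) (l 16777424)) (c (l 16777680) (l 16777408)))) (b (a (a (c (l 16777824) (l 16777424)) (c (l 16777792) (l 16777432))) (a (c (l 16777744) (l 16777424)) (c (l 16777688) (l 16777416)))) (a (a (c (l 16777832) (l 16777432)) (c (l 16777800) (l 16777432))) (a (c (l 16777752) (l 16777432)) (c (l 16777696) (l 16777416))))))) (a (a (c (l 16777872)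 (l 16777448)) (c (l 16777840) (l 16777448))) (a (c (l 16777792) (l 16777448)) (c (l 16777744) (l 16777432)))))) (a (a (c (l 16778056) (l 16777512)) (c (l 16778024) (l 16777520))) (a (c (l 16777976) (l 16777520)) (a (l 16777728) (l 16777712))))), by decide +kernel⟩

def k9_A00pm_112_s1 : ∃ t, chk3 f_A00pm_112_s1 t 34 334 1 = true :=
  ⟨(b (l 3) (b (a (b (b (l 3) (a (b (l 3) (b (a (a (a (c (b (a (l 537884799) (l 537886079)) (l 537885823)) (b (b (l 537299071) (l 537299583)) (l 537299583))) (b (l 3) (l 537594751))) (l 3)) (l 3)) (a (a (a (a (l 537592191) (l 537593215)) (l 537594751)) (l 537597567)) (l 3)))) (l 3))) (a (a (b (a (a (b (l 537592703) (l 537592703)) (l 537594495)) (l 537597567)) (l 537595519)) (l 537603199)) (l 537613951))) (l 3)) (a (b (a (b (l 537599103) (l 537599103)) (l 537613951)) (b (l 537606783) (l 537606783))) (b (l 537633407) (l 537633663))))), by decide +kernel⟩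

def k10_A00pm_112_s1 : ∃ t, chk3 f_A00pm_112_s1 t 34 1340 1 = true :=
  ⟨(b (a (b (b (l 537606783) (a (l 537599359) (l 537614207))) (a (a (l 16777416) (l 16777400)) (l 537614207))) (b (b (l 537633919) (l 537633919)) (b (l 537365375) (a (l 537627775) (l 537639807))))) (a (a (a (l 16777456) (l 16777432)) (a (l 16777416) (a (l 16777408) (l 16777392)))) (c (a (a (l 16777448) (a (l 16777432) (l 16777416))) (a (a (l 16777408) (l 16777400)) (a (l 16777384) (a (l 16777376) (l 16777376))))) (b (b (b (l 537340031) (l 537340287)) (b (a (l 537334143) (l 537345919)) (a (l 537334143) (l 537345919)))) (a (a (l 16777328) (a (l 16777320) (l 16777312))) (a (a (l 16777312) (l 16777304)) (a (l 16777304) (b (l 16777288) (l 16777304))))))))), by decide +kernel⟩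

def k11_A00pm_112_s1 : ∃ t, chk3 f_A00pm_112_s1 t 34 1341 1 = true :=
  ⟨(b (b (a (a (a (l 16777496) (l 16777472)) (a (l 16777456) (c (l 16777528) (l 16777352)))) (c (a (a (l 16777504) (l 16777480)) (a (c (l 16777496) (l 16777424)) (a (l 16777440) (l 16777432)))) (a (a (l 16777344) (c (l 16777368) (l 16777296))) (a (c (l 16777360) (l 16777288)) (a (l 16777320) (l 16777312)))))) (b (a (a (a (l 16777512) (l 16777496)) (a (l 16777480) (c (l 16777560) (l 16777368)))) (a (a (c (l 16777536) (l 16777352)) (c (l 16777512) (l 16777344))) (a (a (l 16777416) (c (l 16777480) (l 16777336))) (c (a (l 16777472) (l 16777464)) (a (l 16777328) (l 16777328)))))) (b (a (a (a (l 16777520) (l 16777504)) (a (l 16777488) (l 16777472))) (a (a (c (l 16777544) (l 16777360)) (c (l 16777528) (l 16777352))) (a (a (l 16777424) (c (l 16777496) (l 16777344))) (a (c (l 16777488) (l 16777336)) (c (l 16777472) (l 16777336)))))) (a (a (a (l 16777528) (l 16777512)) (a (l 16777496) (l 16777480))) (a (c (a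 (l 16777560) (l 16777536)) (a (l 16777368) (l 16777360))) (c (a (c (l 16777552) (l 16777472)) (a (l 16777496) (l 16777488))) (a (c (l 16777392) (l 16777304)) (a (l 16777344) (l 16777336))))))))) (a (a (a (l 16777560) (l 16777544)) (a (l 16777528) (a (l 16777512) (l 16777504)))) (a (a (a (l 16777496) (l 16777488)) (a (l 16777480) (l 16777472))) (c (a (c (l 16777600) (l 16777504)) (a (l 16777536) (l 16777528))) (a (c (l 16777416) (l 16777320)) (a (l 16777360) (l 16777360))))))), by decide +kernel⟩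

def k12_A00pm_112_s1 : ∃ t, chk3 f_A00pm_112_s1 t 34 671 1 = true :=
  ⟨(a (a (c (a (l 16777888) (l 16777856)) (a (l 16777496) (l 16777488))) (c (a (l 16777832) (l 16777808)) (a (l 16777480) (l 16777472)))) (a (c (a (l 16777792) (c (l 16777840) (l 16777688))) (a (l 16777464) (c (l 16777536) (l 16777384)))) (c (a (c (l 16777816) (l 16777672)) (a (l 16777728) (l 16777720))) (a (c (l 16777528) (l 16777376)) (a (l 16777448) (l 16777440)))))), by decide +kernel⟩

def k13_A00pm_112_s1 : ∃ t, chk3 f_A00pm_112_s1 t 35 334 1 = true :=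
  ⟨(b (l 3) (b (l 3) (a (b (l 3) (a (l 537650303) (l 3))) (l 3)))), by decide +kernel⟩

def k14_A00pm_112_s1 : ∃ t, chk3 f_A00pm_112_s1 t 35 2680 1 = true :=
  ⟨(b (a (a (b (l 537382015) (b (l 537650559) (a (l 537647999) (l 537653119)))) (a (b (b (a (l 537656447) (l 3)) (a (l 537656447) (a (b (l 537658239) (l 537658239)) (l 537659183)))) (a (b (b (l 537656447) (l 537656447)) (l 537656703)) (b (l 537658751) (l 537658751)))) (l 537661999))) (l 537671471)) (a (a (b (a (l 537647999) (b (l 537653119) (l 537653119))) (a (l 537379711) (b (l 537653119) (l 537653119)))) (a (b (a (b (l 537656703) (l 537656703)) (a (l 537658495) (l 537659439))) (b (a (l 537656703) (l 537659007)) (a (l 537656703) (l 537659007)))) (l 537662255))) (l 537671727))), by decide +kernel⟩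

def k15_A00pm_112_s1 : ∃ t, chk3 f_A00pm_112_s1 t 35 2681 1 = true :=
  ⟨(a (b (b (a (b (a (l 537648255) (l 537653375)) (a (l 537648255) (l 537653375))) (a (b (a (l 537656703) (l 537659007)) (c (l 537952639) (l 537363327))) (l 537662255))) (a (b (b (l 537650815) (l 537382527)) (b (a (l 537648255) (l 537653375)) (a (l 537648255) (l 537653375)))) (a (b (b (l 537657983) (l 537657983)) (b (l 537389695) (c (l 537952639) (l 537363583)))) (l 537662511)))) (a (a (b (b (b (l 537648255) (b (l 537648255) (l 537648255))) (a (a (l 16777336) (c (l 16777376) (l 16777288))) (c (c (l 16777392) (l 16777352)) (c (l 16777304) (l 16777264))))) (a (c (c (l 16777416) (l 16777368)) (c (l 16777320) (l 16777272))) (c (c (l 16777408) (l 16777360)) (c (l 16777312) (l 16777272))))) (b (b (b (b (l 537653375) (l 537653375)) (b (l 537653375) (b (l 537653375) (l 537653375)))) (a (c (c (l 16777376) (l 16777344)) (c (l 16777304) (l 16777264))) (c (a (l 16777352) (l 16777352)) (a (l 16777280) (l 16777272)))))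 (a (c (c (l 16777392) (l 16777352)) (c (l 16777312) (l 16777264))) (c (a (l 16777368) (l 16777360)) (a (l 16777288) (l 16777280)))))) (a (b (b (b (b (l 537658239) (l 537658239)) (b (c (l 537952639) (l 537363583)) (b (l 537658239) (l 537658239)))) (a (c (a (l 16777344) (l 16777336)) (a (l 16777272) (l 16777272))) (a (c (c (l 16777352) (l 16777320)) (c (l 16777288) (l 16777256))) (a (c (l 16777328) (l 16777272)) (l 537660207))))) (a (c (a (l 16777360) (l 16777352)) (a (l 16777280) (l 16777280))) (a (a (c (l 16777352) (l 16777280)) (c (l 16777352) (l 16777280))) (a (c (l 16777344) (l 16777272)) (l 537660207))))) (l 537662511)))) (l 537671983)), by decide +kernel⟩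

def k16_A00pm_112_s1 : ∃ t, chk3 f_A00pm_112_s1 t 35 5364 1 = true :=
  ⟨(a (a (a (b (c (a (l 16777416) (c (l 16777432) (l 16777376))) (a (c (l 16777328) (l 16777280)) (c (l 16777328) (l 16777272)))) (c (a (l 16777432) (c (l 16777448) (l 16777392))) (a (c (l 16777344) (l 16777280)) (c (l 16777336) (l 16777280))))) (b (c (a (c (l 16777416) (l 16777368)) (c (l 16777408) (l 16777360))) (a (c (l 16777320) (l 16777272)) (c (l 16777312) (l 16777272)))) (c (a (c (l 16777440) (l 16777384)) (c (l 16777432) (l 16777376))) (a (c (l 16777328) (l 16777280)) (c (l 16777328) (l 16777272)))))) (a (b (a (c (c (l 16777400) (l 16777352)) (a (l 16777288) (l 16777288))) (c (a (l 16777368) (l 16777368)) (a (l 16777288) (l 16777280)))) (c (a (c (l 16777416) (l 16777368)) (a (l 16777384) (l 16777384))) (a (c (l 16777320) (l 16777272)) (a (l 16777296) (l 16777296))))) (l 537662767))) (l 537672239)), by decide +kernel⟩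

def k17_A00pm_112_s1 : ∃ t, chk3 f_A00pm_112_s1 t 35 5365 1 = true :=
  ⟨(b (a (a (a (c (a (l 16777448) (c (l 16777472) (l 16777408))) (a (l 16777320) (c (l 16777352) (l 16777288)))) (c (a (c (l 16777464) (l 16777400)) (c (l 16777448) (l 16777392))) (a (c (l 16777344) (l 16777288)) (c (l 16777336) (l 16777280))))) (a (c (a (c (l 16777440) (l 16777384)) (c (l 16777432) (l 16777376))) (a (c (l 16777336) (l 16777280)) (c (l 16777328) (l 16777280)))) (l 537662767))) (l 537672495)) (b (a (a (a (a (c (l 16777464) (l 16777328)) (c (l 16777456) (c (l 16777360) (l 16777288)))) (a (c (c (l 16777480) (l 16777416)) (c (l 16777352) (l 16777288))) (c (c (l 16777464) (l 16777408)) (c (l 16777344) (l 16777288))))) (a (a (c (c (l 16777456) (l 16777400)) (c (l 16777344) (l 16777280))) (c (c (l 16777448) (l 16777392)) (a (l 16777312) (l 16777312)))) (l 537663023))) (l 537672495)) (a (a (c (a (a (l 16777472) (l 16777464)) (a (c (l 16777488) (l 16777424)) (c (l 16777480) (l 16777416)))) (a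 (a (l 16777336) (c (l 16777360) (l 16777296))) (a (c (l 16777360) (l 16777288)) (c (l 16777352) (l 16777288))))) (c (a (a (c (l 16777472) (l 16777408)) (c (l 16777456) (l 16777400))) (c (a (l 16777448) (l 16777440)) (a (l 16777392) (l 16777384)))) (a (a (c (l 16777344) (l 16777288)) (c (l 16777344) (l 16777288))) (c (a (l 16777336) (l 16777336)) (a (l 16777280) (l 16777280)))))) (a (c (a (a (l 16777408) (l 16777400)) (a (l 16777392) (l 16777384))) (a (a (l 16777304) (l 16777296)) (a (l 16777296) (l 16777296)))) (c (a (c (l 16777392) (l 16777352)) (c (l 16777384) (l 16777344))) (a (a (l 16777288) (l 16777288)) (c (l 16777304) (l 16777264)))))))), by decide +kernel⟩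

def k18_A00pm_112_s1 : ∃ t, chk3 f_A00pm_112_s1 t 35 2683 1 = true :=
  ⟨(c (b (c (a (a (a (c (l 16777552) (l 16777512)) (a (l 16777520) (l 16777504))) (a (a (l 16777496) (l 16777488)) (l 538105695))) (l 538115423)) (a (a (a (c (l 16777472) (l 16777440)) (a (l 16777448) (l 16777440))) (a (a (l 16777432) (l 16777424)) (l 537810783))) (l 537820255))) (a (a (a (c (l 16777576) (l 16777488)) (a (l 16777520) (l 16777512))) (a (a (l 16777504) (l 16777496)) (l 537958239))) (l 537968223))) (c (b (b (a (a (a (a (l 16777376) (l 16777368)) (a (l 16777368) (l 16777360))) (a (a (l 16777352) (l 16777352)) (l 537515615))) (l 537525087)) (a (a (a (c (l 16777408) (l 16777368)) (c (l 16777392) (l 16777360))) (a (a (l 16777368) (l 16777360)) (l 537515871))) (l 537525343))) (a (a (a (c (l 16777424) (l 16777384)) (c (l 16777416) (l 16777368))) (a (c (l 16777400) (l 16777360)) (l 537515871))) (l 537525343))) (b (a (a (a (a (l 16777304) (l 16777304)) (a (l 16777296) (l 16777296))) (a (a (l 16777296)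 (l 16777296)) (l 537220703))) (l 537230175)) (a (a (a (c (l 16777336) (l 16777296)) (c (l 16777328) (l 16777288))) (a (a (l 16777304) (l 16777304)) (l 537220959))) (l 537230431))))), by decide +kernel⟩

def k19_A00pm_112_s1 : ∃ t, chk3 f_A00pm_112_s1 t 35 1342 2 = true :=
  ⟨(b (c (a (a (a (l 16777640) (l 16777624)) (a (c (l 16777624) (l 16777576)) (a (l 16777584) (l 16777576)))) (l 538115935)) (a (a (a (l 16777536) (l 16777520)) (a (c (l 16777536) (l 16777488)) (a (l 16777496) (l 16777488)))) (l 537820767))) (c (b (c (a (a (a (l 16777736) (l 16777712)) (a (l 16777696) (l 16777672))) (l 538190175)) (a (a (a (l 16777680) (l 16777656)) (a (l 16777640) (l 16777624))) (l 538042463))) (c (a (a (a (l 16777784) (l 16777760)) (a (l 16777744) (l 16777720))) (l 538190175)) (a (a (a (l 16777720) (l 16777704)) (a (l 16777680) (l 16777664))) (l 538042719)))) (b (c (a (a (a (l 16777616) (l 16777600)) (a (l 16777584) (l 16777568))) (l 537895007)) (a (a (a (l 16777560) (l 16777544)) (a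 (l 16777536) (l 16777520))) (l 537747551))) (c (a (a (a (l 16777656) (l 16777640)) (a (l 16777624) (l 16777608))) (l 537895263)) (a (a (a (l 16777592) (l 16777576)) (a (l 16777560) (l 16777552))) (l 537747551)))))), by decide +kernel⟩

def k20_A00pm_112_s1 : ∃ t, chk3 f_A00pm_112_s1 t 35 1342 3 = true :=
  ⟨(b (b (a (a (a (c (l 16777424) (l 16777328)) (c (l 16777416) (l 16777320))) (a (a (l 16777360) (l 16777360)) (l 537368671))) (l 537378143)) (c (a (a (a (l 16777448) (l 16777440)) (a (l 16777432) (l 16777416))) (l 537525855)) (a (a (a (l 16777336) (l 16777336)) (a (l 16777328) (l 16777328))) (l 537230943)))) (c (b (a (a (a (l 16777472) (l 16777464)) (a (l 16777448) (l 16777440))) (l 537526111)) (c (a (a (a (l 16777528) (l 16777512)) (a (l 16777504) (l 16777496))) (l 537600095)) (a (a (a (l 16777464) (l 16777456)) (a (l 16777448) (l 16777440))) (l 537452639)))) (b (c (a (a (a (l 16777384) (l 16777376)) (a (l 16777368) (l 16777368))) (l 537304927)) (a (a (a (l 16777320)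 (l 16777320)) (a (l 16777320) (l 16777312))) (l 537157215))) (c (a (a (a (l 16777400) (l 16777392)) (a (l 16777384) (l 16777384))) (l 537305183)) (a (a (a (l 16777328) (l 16777328)) (a (l 16777328) (l 16777320))) (l 537157471)))))), by decide +kernel⟩

def k21_A00pm_112_s1 : ∃ t, chk3 f_A00pm_112_s1 t 35 1343 1 = true :=
  ⟨(a (a (c (a (l 16777784) (l 16777768)) (a (l 16777472) (l 16777464))) (a (a (l 16777608) (l 16777600)) (a (l 16777600) (l 16777592)))) (l 537674335)), by decide +kernel⟩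

def k22_A00pm_112_s1 : ∃ t, chk3 f_A00pm_112_s1 t 9 668 1 = true :=
  ⟨(a (l 3) (l 3)), by decide +kernel⟩

def k23_A00pm_112_s1 : ∃ t, chk3 f_A00pm_112_s1 t 9 669 1 = true :=
  ⟨(b (c (a (l 3) (a (l 3) (b (a (l 3) (a (l 3) (b (a (l 3) (l 537813135)) (a (b (a (l 3) (l 537867407)) (a (b (b (a (l 3) (l 537888655)) (l 537887631)) (l 537887887)) (b (a (b (a (l 537884047) (l 537880207)) (l 537884559)) (l 537875343)) (a (l 537887887) (l 537879951))))) (b (l 537841551) (b (l 537855375) (l 537861775))))))) (a (l 537919375) (a (l 537897871) (a (a (l 537888143) (b (a (l 537885071) (l 537882511)) (l 537884815))) (b (b (a (l 537874063) (l 537860495)) (l 537871759)) (l 537875087)))))))) (a (l 3) (a (l 3) (b (a (l 3) (a (l 3) (b (a (l 3) (l 537236367)) (a (b (a (l 3) (l 537283471)) (a (b (b (a (l 3) (l 537301903)) (l 537301391)) (l 537301391)) (b (a (b (a (b (l 537297039) (l 537298575)) (l 537294223)) (a (l 537299855) (l 537296527))) (b (l 537288847) (l 537291663))) (a (a (l 537299087)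 (l 537297551)) (l 537293711))))) (b (l 537260175) (b (l 537271439) (a (l 537283983) (l 537269647)))))))) (a (l 537331343) (a (l 537311119) (a (a (l 537301903) (b (a (b (l 537298575) (l 537299087)) (l 537296015)) (l 537298319))) (b (b (a (l 537287823) (l 537275023)) (l 537285263)) (l 537288335))))))))) (c (a (l 3) (a (a (l 3) (b (l 3) (a (a (l 3) (l 537947023)) (l 537939087)))) (a (b (l 537919887) (l 537920911)) (a (b (l 537898639) (l 537899407)) (b (a (b (l 537886351) (l 537886607)) (b (l 537877647) (l 537879183))) (b (l 537884303) (l 537884815))))))) (a (l 3) (a (a (l 3) (b (l 3) (a (a (l 3) (l 537357967)) (l 537350543)))) (a (b (l 537332367) (l 537333135)) (a (b (l 537312143) (l 537313167)) (b (a (b (l 537300367) (l 537300879)) (b (l 537290639) (l 537292175))) (b (l 537297807) (l 537298575))))))))), by decide +kernel⟩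

def k24_A00pm_112_s1 : ∃ t, chk3 f_A00pm_112_s1 t 9 2680 1 = true :=
  ⟨(b (b (b (a (l 3) (a (a (l 3) (a (a (a (l 3) (l 537656463)) (l 537652879)) (l 537645199))) (a (l 537627535) (a (l 537606799) (l 537592207))))) (a (l 3) (a (a (l 537667887) (a (a (a (b (l 537390479) (l 537659023)) (b (l 537656719) (l 537656719))) (l 537653135)) (l 537645455))) (a (l 537627791) (a (l 537607055) (l 537592207)))))) (a (l 3) (a (a (l 537668143) (a (b (a (a (l 537659023) (l 537656719)) (l 537653135)) (a (a (l 537659023) (l 537656975)) (l 537653391))) (l 537645455))) (a (l 537628047) (a (l 537607311) (l 537592463)))))) (c (a (l 537983535) (a (a (l 537963311) (a (a (b (a (l 537953935) (l 537951631)) (a (l 537954191) (l 537951887))) (b (b (l 537948047) (l 537948047)) (b (l 537948047) (l 537948303)))) (b (a (l 537942927) (l 537937295)) (a (l 537943183) (l 537937551))))) (a (b (l 537921935) (l 537922191)) (a (l 537900943) (a (l 16777496) (l 16777520)))))) (a (l 537392175) (a (a (l 537373487)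 (a (b (a (a (l 537364623) (l 537362319)) (b (l 537358991) (l 537358991))) (a (a (l 537364879) (l 537362575)) (b (l 537359247) (l 537359247)))) (b (a (l 537354127) (l 537349007)) (a (l 537354383) (l 537349263))))) (a (b (l 537334415) (l 537066383)) (a (l 537314447) (a (l 16777336) (l 16777344)))))))), by decide +kernel⟩

def k25_A00pm_112_s1 : ∃ t, chk3 f_A00pm_112_s1 t 9 2681 1 = true :=
  ⟨(a (l 537688367) (a (a (l 537669167) (b (b (a (a (b (a (l 537659791) (l 537657487)) (a (l 537659791) (l 537657487))) (b (l 537653903) (l 537654159))) (b (l 537377935) (a (l 537649039) (l 537643663)))) (a (b (a (a (b (l 537659791) (l 537660047)) (l 537389199)) (b (l 537654159) (l 537654159))) (a (b (a (l 537660047) (l 537657743)) (a (l 537660047) (l 537657743))) (b (l 537654159) (l 537654415)))) (b (a (l 537649039) (l 537643663)) (b (l 537646479) (l 537109903))))) (a (a (a (a (l 537660719) (a (l 537659951) (c (l 16777336) (l 16777272)))) (b (b (b (l 537389455) (b (l 537657999) (b (l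 537657999) (l 537657999)))) (c (a (c (l 16777352) (l 16777320)) (l 16777336)) (a (c (l 16777288) (l 16777256)) (l 16777272)))) (c (a (c (l 16777368) (l 16777328)) (l 16777352)) (a (c (l 16777296) (l 16777256)) (l 16777280))))) (b (b (b (b (l 537654415) (l 537654415)) (b (l 537654415) (b (l 537654415) (l 537654415)))) (a (c (a (l 16777344) (l 16777352)) (a (l 16777272) (l 16777280))) (c (c (l 16777376) (l 16777336)) (a (l 16777280) (l 16777280))))) (a (c (a (l 16777360) (l 16777360)) (a (l 16777280) (l 16777280))) (c (c (l 16777392) (l 16777352)) (a (l 16777288) (l 16777288)))))) (c (c (a (a (l 16777392) (l 16777400)) (a (l 16777416) (l 16777424))) (a (a (l 16777352) (l 16777360)) (a (l 16777368) (l 16777376)))) (c (a (a (l 16777304) (l 16777312)) (a (l 16777320) (l 16777320))) (a (a (l 16777264) (l 16777264)) (a (l 16777272) (l 16777272)))))))) (a (c (a (a (a (l 16777392) (l 16777400)) (a (l 16777416) (l 16777424))) (a (l 16777440) (l 16777464))) (a (a (a (l 16777296)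 (l 16777296)) (a (l 16777304) (l 16777312))) (a (l 16777320) (l 16777328)))) (a (a (l 16777416) (l 16777432)) (a (l 16777448) (l 16777472)))))), by decide +kernel⟩

def k26_A00pm_112_s1 : ∃ t, chk3 f_A00pm_112_s1 t 9 5364 1 = true :=
  ⟨(a (l 537688879) (a (a (l 537669679) (a (a (a (a (l 537661231) (a (l 537660463) (c (l 16777376) (l 16777288)))) (a (b (c (l 16777368) (l 16777288)) (c (l 16777384) (l 16777296))) (c (l 16777384) (l 16777288)))) (b (c (a (c (l 16777400) (l 16777360)) (c (l 16777416) (l 16777368))) (a (c (l 16777312) (l 16777264)) (c (l 16777320) (l 16777272)))) (c (a (c (l 16777424) (l 16777376)) (c (l 16777432) (l 16777384))) (a (c (l 16777320) (l 16777272)) (c (l 16777328) (l 16777280)))))) (c (c (a (a (l 16777432) (l 16777448)) (a (l 16777456) (l 16777464))) (a (a (l 16777384) (l 16777392)) (a (l 16777400) (l 16777408)))) (c (a (a (l 16777328) (l 16777336)) (a (l 16777336) (l 16777344))) (a (a (l 16777280) (l 16777280)) (a (l 16777280) (l 16777288)))))))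 (a (a (a (c (c (l 16777488) (l 16777424)) (a (l 16777320) (l 16777320))) (a (l 16777400) (l 16777408))) (a (c (l 16777496) (l 16777344)) (c (l 16777520) (l 16777352)))) (a (a (l 16777456) (l 16777472)) (a (l 16777488) (l 16777504)))))), by decide +kernel⟩

def k27_A00pm_112_s1 : ∃ t, chk3 f_A00pm_112_s1 t 9 10730 1 = true :=
  ⟨(a (l 537689135) (a (a (l 537670191) (a (a (a (a (l 537661487) (a (l 16777352) (l 16777352))) (c (c (l 16777432) (l 16777384)) (c (l 16777328) (l 16777280)))) (c (a (c (l 16777448) (l 16777392)) (c (l 16777456) (l 16777400))) (a (c (l 16777336) (l 16777280)) (c (l 16777336) (l 16777280))))) (a (c (a (c (l 16777464) (l 16777408)) (l 16777448)) (a (c (l 16777344) (l 16777288)) (c (l 16777352) (l 16777288)))) (c (a (l 16777456) (l 16777464)) (a (l 16777320) (l 16777328)))))) (a (a (a (c (a (l 16777472) (l 16777488)) (a (l 16777328) (l 16777336))) (a (l 16777416) (l 16777424))) (a (c (l 16777528) (l 16777352)) (c (l 16777552) (l 16777360)))) (a (a (l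 16777472) (l 16777488)) (a (l 16777504) (l 16777528)))))), by decide +kernel⟩

def k28_A00pm_112_s1 : ∃ t, chk3 f_A00pm_112_s1 t 9 21462 1 = true :=
  ⟨(a (l 537689391) (a (a (l 537670191) (a (a (a (a (l 537661743) (a (l 16777360) (l 16777360))) (c (c (l 16777448) (l 16777392)) (a (l 16777312) (l 16777312)))) (a (c (c (l 16777464) (l 16777400)) (c (l 16777344) (l 16777288))) (c (c (l 16777472) (l 16777408)) (c (l 16777352) (l 16777288))))) (a (a (c (c (l 16777480) (l 16777416)) (c (l 16777352) (l 16777288))) (c (l 16777456) (l 16777328))) (a (c (l 16777472) (l 16777328)) (c (l 16777480) (l 16777336)))))) (a (a (a (a (c (l 16777488) (l 16777336)) (c (l 16777496) (l 16777344))) (a (l 16777432) (l 16777440))) (a (c (l 16777536) (l 16777360)) (c (l 16777560) (l 16777368)))) (a (a (l 16777480) (l 16777496)) (a (l 16777520) (l 16777536)))))), by decide +kernel⟩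

def k29_A00pm_112_s1 : ∃ t, chk3 f_A00pm_112_s1 t 18 21463 1 = true :=
  ⟨(a (b (a (a (c (a (c (l 16777368) (l 16777328)) (c (l 16777360) (l 16777328))) (a (c (l 16777296) (l 16777264)) (c (l 16777288) (l 16777256)))) (c (a (c (l 16777352) (l 16777320)) (l 16777328)) (a (c (l 16777288) (l 16777256)) (c (l 16777280) (l 16777256))))) (a (c (a (l 16777320) (l 16777320)) (a (l 16777264) (l 16777264))) (c (a (l 16777312) (l 16777312)) (a (l 16777264) (l 16777264))))) (l 537686879)) (a (a (c (a (l 16777320) (l 16777320)) (a (l 16777264) (l 16777264))) (a (a (l 16777296) (l 16777296)) (a (l 16777296) (l 16777296)))) (a (c (a (c (l 16777352) (l 16777320)) (c (l 16777360) (l 16777320))) (a (c (l 16777288) (l 16777256)) (c (l 16777288) (l 16777256)))) (c (a (c (l 16777368) (l 16777328)) (c (l 16777376) (l 16777336))) (a (c (l 16777296) (l 16777264)) (c (l 16777304) (l 16777264))))))), by decide +kernel⟩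

def k30_A00pm_112_s1 : ∃ t, chk3 f_A00pm_112_s1 t 19 21463 1 = true :=
  ⟨(a (a (a (c (a (c (l 16777392) (l 16777352)) (a (l 16777376) (l 16777384))) (a (c (l 16777312) (l 16777264)) (a (l 16777288) (l 16777296)))) (c (a (a (l 16777392) (l 16777400)) (a (l 16777408) (a (l 16777416) (l 16777416)))) (a (a (l 16777296) (l 16777304)) (a (l 16777304) (a (l 16777304) (l 16777312)))))) (a (a (c (c (a (l 16777448) (l 16777464)) (a (l 16777392) (l 16777400))) (c (a (l 16777336) (l 16777344)) (a (l 16777280) (l 16777288)))) (a (c (c (l 16777472) (l 16777408)) (c (l 16777352) (l 16777288))) (c (c (l 16777480) (l 16777416)) (c (l 16777352) (l 16777288))))) (c (a (a (l 16777456) (l 16777472)) (a (l 16777480) (l 16777488))) (a (a (c (l 16777360) (l 16777296)) (l 16777328)) (a (l 16777336) (l 16777336)))))) (a (a (c (a (c (l 16777544) (l 16777464)) (l 16777528)) (a (c (l 16777384) (l 16777304)) (c (l 16777400) (l 16777312)))) (c (a (l 16777552) (l 16777568)) (a (l 16777360) (l 16777368))))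 (a (a (l 16777488) (l 16777504)) (a (l 16777520) (l 16777544))))), by decide +kernel⟩

def k31_A00pm_112_s1 : ∃ t, chk3 f_A00pm_112_s1 t 9 2683 1 = true :=
  ⟨(a (l 537689695) (a (c (b (a (l 537965919) (a (a (c (a (l 16777480) (l 16777488)) (a (l 16777416) (l 16777424))) (a (c (l 16777496) (l 16777432)) (c (l 16777504) (l 16777440)))) (a (a (l 16777480) (l 16777488)) (a (l 16777504) (l 16777512))))) (a (l 537966175) (a (a (a (l 16777488) (l 16777496)) (a (l 16777504) (l 16777512))) (a (a (l 16777520) (l 16777528)) (c (l 16777592) (l 16777496)))))) (b (a (l 537375583) (a (a (c (a (l 16777352) (l 16777360)) (a (l 16777288) (l 16777296))) (a (c (l 16777360) (l 16777296)) (c (l 16777368) (l 16777296)))) (a (a (c (l 16777376) (l 16777304)) (l 16777344)) (a (l 16777344) (l 16777352))))) (a (l 537376095) (a (a (a (l 16777336) (l 16777344)) (a (l 16777344) (l 16777352))) (a (a (l 16777352) (l 16777360)) (c (l 16777408) (l 16777320))))))) (a (a (c (a (c (l 16777592) (l 16777496))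 (c (l 16777616) (l 16777520))) (a (a (l 16777360) (l 16777368)) (c (l 16777424) (l 16777320)))) (c (a (l 16777592) (l 16777616)) (a (l 16777384) (l 16777392)))) (a (a (l 16777520) (l 16777536)) (a (l 16777552) (l 16777568)))))), by decide +kernel⟩

def k32_A00pm_112_s1 : ∃ t, chk3 f_A00pm_112_s1 t 9 671 1 = true :=
  ⟨(a (l 537691487) (a (b (c (b (a (l 537966943) (a (a (a (l 16777544) (l 16777552)) (c (l 16777608) (l 16777512))) (a (c (l 16777632) (l 16777528)) (c (l 16777656) (l 16777544))))) (c (b (a (l 538115167) (a (a (l 16777656) (l 16777672)) (a (l 16777696) (l 16777712)))) (a (l 538115423) (a (a (l 16777696) (l 16777720)) (a (l 16777736) (l 16777760))))) (b (a (l 537819999) (a (a (l 16777552) (l 16777568)) (a (l 16777576) (l 16777592)))) (a (l 537820511) (a (a (l 16777584) (l 16777600)) (a (l 16777608) (l 16777624))))))) (b (a (l 537376863) (a (a (a (l 16777368) (l 16777368)) (c (l 16777424) (l 16777328))) (a (c (l 16777432) (l 16777328)) (c (l 16777440) (l 16777336)))))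 (c (b (a (l 537524831) (a (a (l 16777448) (l 16777456)) (a (l 16777464) (l 16777472)))) (a (l 537525343) (a (a (l 16777464) (l 16777480)) (a (l 16777488) (l 16777496))))) (b (a (l 537229919) (a (a (l 16777344) (l 16777344)) (a (l 16777352) (l 16777352)))) (a (l 537230431) (a (a (l 16777352) (l 16777360)) (a (l 16777360) (l 16777368)))))))) (a (l 537674079) (a (a (a (l 16777592) (l 16777600)) (a (l 16777600) (l 16777608))) (c (a (l 16777768) (l 16777784)) (a (l 16777464) (l 16777472)))))) (a (a (c (a (c (l 16777800) (l 16777656)) (c (l 16777824) (l 16777680))) (a (a (l 16777448) (l 16777448)) (c (l 16777528) (l 16777376)))) (c (a (l 16777776) (l 16777792)) (a (l 16777464) (l 16777472)))) (a (a (a (l 16777640) (l 16777648)) (l 16777664)) (a (l 16777680) (l 16777696)))))), by decide +kernel⟩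

def k33_A00pm_112_s1 : ∃ t, chk3 f_A00pm_112_s1 t 10 82 1 = true :=
  ⟨(a (l 3) (l 1)), by decide +kernel⟩

def k34_A00pm_112_s1 : ∃ t, chk3 f_A00pm_112_s1 t 20 166 1 = true :=
  ⟨(b (l 3) (b (a (l 3) (a (l 3) (b (l 3) (b (l 536106127) (l 536170127))))) (b (a (l 3) (c (a (l 536671375) (l 536457615)) (l 536168335))) (b (a (l 3) (c (l 536675215) (l 536262543))) (a (a (l 3) (a (l 3) (l 536804239))) (c (l 536754575) (l 536328079))))))), by decide +kernel⟩

def k35_A00pm_112_s1 : ∃ t, chk3 f_A00pm_112_s1 t 40 334 1 = true :=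
  ⟨(b (c (b (a (l 3) (a (b (l 3) (a (l 537339535) (l 537285775))) (b (l 537117071) (l 537203855)))) (a (b (l 537555855) (b (l 537620367) (l 537664399))) (a (b (l 537401743) (l 537493647)) (b (a (l 537321103) (l 537266319)) (l 537387407))))) (b (a (l 3) (b (a (l 3) (c (l 536761487) (l 536521103))) (c (a (b (a (l 3) (l 536891279)) (l 536953487)) (c (l 536898191) (l 536774799))) (a (b (a (l 3) (a (l 536652175) (c (l 536691855) (a (b (l 536563599) (l 536580239)) (b (l 536552335) (l 536568975)))))) (l 536697743)) (c (b (l 536632719) (l 536668303)) (b (a (b (l 536523919) (l 536540559)) (l 536486543)) (a (b (l 536557455) (l 536574351)) (l 536520079)))))))) (a (b (l 537016975) (l 537894543)) (b (b (a (l 536862351) (a (l 536791695) (l 536743567))) (a (l 536899727) (c (l 536933519) (l 536676495)))) (a (l 536957583) (a (l 536887951) (l 536840591))))))) (b (b (b (a (c (l 537708431) (l 537142927)) (a (l 537289871) (l 537191567))) (a (b (a (l 537495951) (l 537413519)) (a (a (l 537801103)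 (l 537495439)) (l 537433999))) (a (l 537333647) (l 537236879)))) (a (a (b (a (b (l 537544591) (l 537552271)) (l 537515407)) (a (b (l 537557647) (l 537561487)) (b (l 537527951) (l 537534095)))) (b (l 537458063) (l 537480079))) (a (c (l 537670799) (l 537103759)) (c (l 537573007) (l 537017231))))) (b (a (a (b (a (l 537565839) (l 537541263)) (a (l 537569935) (l 537548431))) (b (c (l 537785999) (l 537204879)) (c (l 537798543) (l 537215375)))) (a (b (l 537421455) (l 537438095)) (c (l 537630351) (l 537064847)))) (a (b (a (l 537564047) (l 537515663)) (a (l 537567119) (l 537523087))) (b (a (l 537451919) (l 537375631)) (a (l 537463183) (l 537390991))))))), by decide +kernel⟩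

def k36_A00pm_112_s1 : ∃ t, chk3 f_A00pm_112_s1 t 40 335 1 = true :=
  ⟨(b (b (a (b (b (b (l 537550479) (a (l 537570447) (l 537530255))) (b (a (l 537571471) (l 537532559)) (a (l 537572495) (l 537534863)))) (a (c (l 16777616) (l 16777384)) (c (l 16777664) (l 16777392)))) (a (b (b (b (l 537470607) (l 537474959)) (c (l 16777656) (l 16777376))) (c (l 16777712) (l 16777392))) (b (b (b (l 537400975) (l 537407119)) (c (l 16777688) (l 16777360))) (c (l 16777744) (l 16777384))))) (b (b (a (a (c (l 16777672) (l 16777400)) (c (l 16777720) (l 16777416))) (a (c (l 16777760) (l 16777416)) (c (l 16777792) (l 16777408)))) (b (a (a (c (l 16777696) (l 16777416)) (c (l 16777744) (l 16777424))) (a (c (l 16777792) (l 16777424)) (c (l 16777824) (l 16777416)))) (b (a (a (c (l 16777712) (l 16777416)) (c (l 16777760) (l 16777432))) (a (c (l 16777800) (l 16777432)) (c (l 16777832) (l 16777424)))) (a (a (c (l 16777720) (l 16777424)) (c (l 16777768) (l 16777432))) (a (c (l 16777808) (l 16777432))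 (c (l 16777840) (l 16777424))))))) (a (a (c (l 16777760) (l 16777440)) (c (l 16777808) (l 16777448))) (a (c (l 16777848) (l 16777448)) (c (l 16777880) (l 16777440)))))) (a (a (a (l 16777712) (l 16777728)) (c (l 16777984) (l 16777520))) (a (c (l 16778024) (l 16777520)) (c (l 16778056) (l 16777512))))), by decide +kernel⟩

def k37_A00pm_112_s1 : ∃ t, chk3 f_A00pm_112_s1 t 41 334 1 = true :=
  ⟨(b (b (b (c (l 536836751) (c (l 536507279) (l 536283535))) (c (a (c (l 537152399) (l 536920207)) (l 536812687)) (a (a (b (l 536597391) (l 536633743)) (b (l 536499599) (l 536535439))) (c (l 536481679) (l 536257167))))) (c (b (a (l 537126543) (l 536900495)) (a (c (l 537345167) (l 537095823)) (l 536993167))) (b (a (c (l 536762767) (b (c (l 536560271) (l 536438159)) (l 536535183))) (c (l 536557967) (l 536326031))) (a (c (l 536844431) (b (l 536571791) (l 536609679))) (c (l 536638351) (l 536667279)))))) (b (c (b (a (b (l 537293455) (l 537344399)) (c (l 537212559) (l 536968591))) (a (l 537413263)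 (l 537186959))) (b (a (b (c (l 536907407) (l 536648335)) (l 536820111)) (b (l 536578191) (l 536619663))) (a (c (l 537011343) (l 536742287)) (c (l 536806031) (l 536550287))))) (b (a (c (l 537481359) (a (l 536979087) (l 536887183))) (c (c (l 537393039) (l 537133199)) (c (l 536872335) (l 536610447)))) (a (c (b (l 537520783) (l 537543311)) (b (l 536966031) (l 536984463))) (c (b (l 537310607) (l 537338511)) (b (l 536780687) (l 536803471))))))), by decide +kernel⟩

def k38_A00pm_112_s1 : ∃ t, chk3 f_A00pm_112_s1 t 41 335 1 = true :=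
  ⟨(b (b (b (b (b (a (a (l 537321359) (l 537233039)) (b (l 537086351) (l 537091727))) (a (a (l 537329039) (l 537242255)) (c (l 537369999) (l 536829583)))) (a (c (a (l 16777704) (l 16777712)) (a (l 16777336) (l 16777296))) (a (c (l 16777688) (l 16777232)) (l 16777400)))) (a (a (c (l 16777760) (l 16777360)) (c (l 16777760) (l 16777312))) (a (c (l 16777744) (l 16777256)) (c (l 16777704) (l 16777168))))) (b (b (a (a (c (l 16777816) (l 16777376)) (c (l 16777816) (l 16777336))) (a (c (l 16777800) (l 16777272)) (c (l 16777760) (l 16777192)))) (a (b (a (c (l 16777840) (l 16777392)) (c (l 16777840) (l 16777344))) (b (a (c (l 16777856) (l 16777392)) (c (l 16777856) (l 16777352))) (a (c (l 16777864) (l 16777400)) (c (l 16777864) (l 16777360))))) (b (a (c (l 16777824) (l 16777288)) (c (l 16777792) (l 16777208))) (b (a (c (l 16777840) (l 16777296)) (c (l 16777800) (l 16777208))) (c (a (l 16777848) (l 16777808)) (a (l 16777296) (l 16777216))))))) (c (a (a (l 16777904) (l 16777904))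 (a (l 16777888) (l 16777856))) (a (a (l 16777416) (l 16777376)) (a (l 16777312) (l 16777232)))))) (c (a (a (l 16778080) (l 16778080)) (a (l 16778072) (l 16778032))) (a (a (l 16777488) (l 16777440)) (a (l 16777384) (l 16777304))))), by decide +kernel⟩

def k39_A00pm_112_s1 : ∃ t, chk3 f_A00pm_112_s1 t 21 83 1 = true :=
  ⟨(b (l 1) (a (a (a (a (b (l 1) (b (l 1) (l 16777608))) (l 1)) (l 1)) (l 1)) (l 1))), by decide +kernel⟩

def k40_A00pm_112_s1 : ∃ t, chk3 f_A00pm_112_s1 t 11 41 1 = true :=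
  ⟨(l 1), by decide +kernel⟩

def k41_A00pm_112_s1 : ∃ t, chk3 f_A00pm_112_s1 t 16 84 1 = true :=
  ⟨(a (b (a (c (a (l 16778728) (l 16778768)) (a (a (l 16777504) (l 16777560)) (a (l 16777600) (l 16777640)))) (c (a (c (l 16779064) (l 16778512)) (c (l 16779056) (l 16778528))) (a (a (l 16777680) (l 16777712)) (a (l 16777736) (l 16777760))))) (c (a (a (l 16779816) (l 16779872)) (a (l 16779912) (l 16779936))) (c (a (a (l 16778352) (l 16778456)) (a (l 16778544) (l 16778608))) (a (a (l 16777384) (l 16777520)) (a (l 16777632) (l 16777728)))))) (b (a (a (a (c (l 16778784) (l 16777776)) (b (l 16778080) (l 16778480))) (a (b (l 16778080) (l 16778480)) (b (l 16778072) (l 16778480)))) (a (a (b (l 16778064) (l 16778480)) (b (l 16778056) (l 16778472))) (a (c (l 16778680) (l 16777824)) (b (a (l 16778032) (l 16778024)) (l 16778448))))) (c (a (a (l 16779944) (l 16779928)) (a (l 16779904) (l 16779872))) (a (a (c (l 16778656) (l 16777800)) (c (l 16778688) (l 16777864))) (a (c (l 16778704)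 (l 16777904)) (c (l 16778712) (l 16777936))))))), by decide +kernel⟩

def k42_A00pm_112_s1 : ∃ t, chk3 f_A00pm_112_s1 t 17 84 1 = true :=
  ⟨(b (b (a (a (a (c (a (l 16778336) (l 16778312)) (a (l 16777688) (l 16777688))) (c (a (l 16778288) (l 16778264)) (a (l 16777680) (l 16777672)))) (a (c (a (l 16778248) (l 16778224)) (a (l 16777672) (l 16777664))) (c (a (l 16778208) (l 16778192)) (a (l 16777656) (b (l 16777584) (l 16777720)))))) (a (a (c (b (a (l 16778016) (l 16778000)) (l 16778320)) (b (a (l 16777576) (l 16777576)) (a (l 16777720) (l 16777712)))) (a (b (c (l 16777984) (l 16777568)) (l 16778000)) (b (c (l 16777968) (l 16777560)) (l 16777992)))) (l 537676639))) (a (a (a (a (l 16778440) (l 16778424)) (a (l 16778416) (l 16778408))) (a (c (l 16778848) (l 16777936)) (c (l 16778816) (l 16777936)))) (a (a (c (l 16778792) (l 16777928)) (a (l 16778352) (l 16778344))) (a (a (l 16778336) (l 16778328)) (l 537683807))))) (a (a (a (c (l 16779832) (b (l 16778208) (l 16778472))) (c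 (l 16779800) (b (l 16778208) (l 16778480)))) (a (b (a (l 16778840) (l 16778840)) (l 16779288)) (c (l 16779752) (l 16778360)))) (a (a (c (l 16779736) (l 16778368)) (c (l 16779720) (l 16778376))) (a (a (l 16779040) (l 16779032)) (l 537689183))))), by decide +kernel⟩

def k43_A00pm_112_s1 : ∃ t, chk3 f_A00pm_112_s1 t 8 85 1 = true :=
  ⟨(a (a (c (a (a (b (l 16780896) (l 16781984)) (b (l 16780984) (l 16782096))) (a (b (l 16781048) (l 16782184)) (b (l 16781088) (l 16782256)))) (a (a (b (l 16778192) (l 16778520)) (b (c (l 16779000) (l 16777696)) (l 16778704))) (a (b (c (l 16779120) (l 16777840)) (l 16778872)) (b (c (l 16779208) (l 16777960)) (l 16779008))))) (c (a (b (a (l 16781112) (l 16781120)) (a (l 16782304) (l 16782328))) (b (a (l 16781112) (l 16781096)) (a (l 16782336) (l 16782336)))) (a (a (b (c (l 16779280) (l 16778064)) (l 16779128)) (b (c (l 16779336) (l 16778152)) (l 16779224))) (a (b (l 16778800) (l 16779304)) (b (l 16778840) (l 16779360)))))) (a (a (a (c (b (l 16781064)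 (l 16782320)) (b (l 16778872) (l 16779416))) (b (c (l 16781040) (l 16778896)) (c (l 16782304) (l 16779456)))) (b (a (c (l 16781024) (l 16778920)) (c (l 16781016) (l 16778944))) (a (l 16780896) (l 16780920)))) (a (b (a (l 16779984) (l 16779992)) (a (l 16780936) (l 16780960))) (a (b (l 16779992) (l 16780976)) (b (l 16780000) (l 16780984)))))), by decide +kernel⟩

def k44_A00pm_112_s1 : ∃ t, chk3 f_A00pm_112_s1 t 8 43 1 = true :=
  ⟨(a (a (a (b (c (a (l 16783624) (l 16783784)) (a (b (l 16778840) (l 16779160)) (b (l 16779064) (l 16779424)))) (a (b (l 16777120) (l 16783064)) (b (a (l 16782552) (l 16782672)) (l 16783360)))) (b (c (a (l 16783912) (l 16784024)) (a (b (l 16779264) (l 16779656)) (b (l 16779432) (l 16779856)))) (c (a (l 16786240) (l 16786408)) (a (b (l 16780048) (l 16780440)) (b (l 16780288) (l 16780720)))))) (c (a (b (a (l 16784104) (l 16784168)) (a (l 16786544) (l 16786656))) (b (a (l 16784208) (l 16784224)) (a (l 16786744) (l 16786808)))) (b (a (a (b (l 16779576)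 (l 16780040)) (b (l 16779704) (l 16780192))) (a (b (l 16779808) (l 16780328)) (b (l 16779896) (l 16780440)))) (a (a (b (l 16780504) (l 16780968)) (b (l 16780688) (l 16781184))) (a (b (l 16780848) (l 16781384)) (b (l 16780992) (l 16781552))))))) (a (a (b (c (a (l 16784232) (l 16784240)) (a (b (l 16779968) (l 16780536)) (b (l 16780032) (l 16780624)))) (c (a (l 16786848) (l 16786888)) (a (b (l 16781112) (l 16781704)) (l 16781528)))) (b (a (b (l 16781840) (l 16782808)) (b (l 16781872) (l 16782848))) (a (c (l 16786928) (l 16781640)) (c (l 16786968) (l 16781744))))) (a (b (a (b (l 16781904) (l 16782896)) (b (l 16781936) (l 16782944))) (a (l 16779184) (l 16784488))) (b (a (l 16782472) (l 16782512)) (a (l 16784552) (l 16784608)))))), by decide +kernel⟩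

def k45_A00pm_112_s1 : ∃ t, chk3 f_A00pm_112_s1 t 9 21 1 = true :=
  ⟨(a (b (a (a (b (l 537694559) (l 537711471)) (l 537711711)) (l 537714015)) (a (b (a (a (l 16782536) (l 16782560)) (l 16782592)) (a (l 16784688) (l 16784776))) (l 537761119))) (b (b (b (b (a (a (l 537678431) (b (a (a (c (l 16777968) (l 16777560)) (c (l 16777976) (l 16777568))) (c (a (l 16777992) (l 16778016)) (a (l 16777568) (l 16777576)))) (a (a (l 16777992) (l 16778000)) (a (l 16778008) (l 16778016))))) (a (a (c (a (l 16778184) (l 16778200)) (a (l 16777648) (l 16777656))) (c (a (l 16778216) (l 16778232)) (a (l 16777664) (l 16777664)))) (a (c (a (l 16778256) (l 16778272)) (a (l 16777672) (l 16777680))) (c (a (l 16778296) (l 16778320)) (a (l 16777680) (l 16777688)))))) (a (a (l 537685343) (a (a (l 16778328) (l 16778336)) (a (l 16778344) (l 16778352)))) (a (a (c (l 16778792) (l 16777936)) (c (l 16778824) (l 16777936))) (a (c (l 16778856) (l 16777936)) (c (l 16778888) (l 16777944)))))) (a (a (l 537696095)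 (a (a (l 16779032) (l 16779032)) (b (c (l 16779392) (l 16778224)) (l 16779272)))) (a (a (b (c (l 16779416) (l 16778224)) (l 16779280)) (c (l 16779744) (l 16778368))) (a (c (l 16779768) (l 16778360)) (c (l 16779784) (l 16778352)))))) (a (a (l 537717087) (a (l 537708143) (b (l 16780000) (l 16780992)))) (a (b (a (b (l 16779752) (l 16780232)) (c (l 16781008) (l 16778968))) (a (l 16780976) (l 16780968))) (b (a (l 16779984) (l 16779976)) (a (l 16780944) (l 16780928)))))) (a (a (l 537758815) (b (l 537735023) (l 16784800))) (a (b (a (l 16782536) (l 16779888)) (l 16784736)) (b (a (b (l 16781952) (l 16783008)) (b (l 16781920) (l 16782960))) (a (l 16784664) (l 16784608))))))), by decide +kernel⟩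

def k46_A00pm_112_s1 : ∃ t, chk3 f_A00pm_112_s1 t 20 42 1 = true :=
  ⟨(a (b (b (b (a (a (a (a (l 16778016) (l 16778024)) (l 16778032)) (c (l 16778408) (l 16777704))) (a (c (l 16778448) (l 16777696)) (a (l 16778080) (l 16778080)))) (c (a (a (l 16778936) (l 16778976)) (a (l 16779016) (l 16779048))) (a (a (l 16777944) (l 16777944)) (a (l 16777936) (l 16777920))))) (c (a (a (l 16779816) (l 16779856)) (a (l 16779888) (l 16779920))) (a (a (b (l 16778208) (l 16778480)) (b (l 16778200) (l 16778464))) (a (c (l 16778712) (l 16777920)) (c (l 16778696) (l 16777888)))))) (a (a (b (c (l 16781032) (l 16778904)) (l 16780904)) (b (c (l 16781056) (l 16778880)) (l 16780888))) (c (a (b (l 16781080) (l 16782312)) (b (l 16781104) (l 16782328))) (a (b (l 16778856) (l 16779440)) (b (l 16778816) (l 16779392)))))) (b (b (a (a (a (b (l 16778080) (l 16778480)) (b (l 16778072) (l 16778472))) (c (l 16778792) (a (l 16777736) (l 16777712)))) (c (a (l 16778776) (l 16778744)) (a (a (l 16777680) (l 16777640))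 (a (l 16777600) (l 16777552))))) (a (c (a (l 16779936) (l 16779936)) (a (c (l 16778672) (l 16777832)) (c (l 16778632) (l 16777768)))) (c (a (l 16779928) (l 16779896)) (a (c (l 16778576) (l 16777680)) (c (l 16778496) (l 16777576)))))) (a (c (b (a (l 16781120) (l 16781120)) (a (l 16782336) (l 16782336))) (a (b (c (l 16779360) (l 16778192)) (l 16779336)) (b (c (l 16779312) (l 16778112)) (l 16779264)))) (c (a (b (l 16781104) (l 16782312)) (b (l 16781064) (l 16782280))) (a (b (c (l 16779248) (l 16778016)) (l 16779176)) (b (c (l 16779160) (l 16777904)) (l 16779064))))))), by decide +kernel⟩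

def k47_A00pm_112_s1 : ∃ t, chk3 f_A00pm_112_s1 t 20 43 1 = true :=
  ⟨(a (b (a (a (b (l 16781888) (l 16782920)) (b (l 16781856) (l 16782872))) (a (b (l 16781824) (l 16782824)) (c (l 16784248) (b (l 16780000) (l 16780664))))) (a (a (l 16784552) (l 16779240)) (a (b (l 16783880) (l 16784976)) (c (l 16786968) (l 16781744))))) (c (a (a (b (l 16784232) (l 16786928)) (b (l 16781600) (l 16786896))) (b (a (l 16784200) (l 16784160)) (a (l 16786848) (l 16786800)))) (b (a (a (b (l 16779936) (l 16780584)) (b (l 16779856) (l 16780488))) (a (b (l 16779760) (l 16780384)) (b (l 16779640) (l 16780264)))) (a (a (l 16781640) (b (l 16781168) (l 16781896))) (a (b (l 16781056) (l 16781768)) (b (l 16780920) (l 16781624))))))), by decide +kernel⟩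

def k48_A00pm_112_s1 : ∃ t, chk3 f_A00pm_112_s1 t 21 21 1 = true :=
  ⟨(b (b (a (a (a (c (b (l 16778696) (l 16779840)) (a (b (l 16777504) (l 16777960)) (b (l 16777448) (l 16777896)))) (a (c (l 16779216) (b (l 16777384) (l 16777832))) (b (l 1) (l 1644164999)))) (a (a (b (l 1) (l 16778688)) (l 1)) (l 1))) (l 1)) (a (c (a (a (b (l 16781016) (l 16782224)) (b (l 16780936) (l 16782144))) (a (b (l 16780840) (l 16782040)) (l 2181046263))) (a (a (b (l 16778416) (l 16778936)) (b (l 16778272) (l 16778792))) (a (b (l 16778104) (l 16778616)) (b (l 16777912) (l 16778416))))) (a (a (a (b (l 1) (l 16780016)) (l 1)) (l 1)) (l 1)))) (a (c (a (b (a (l 16784096) (l 16784016)) (a (l 16786736) (l 16786648))) (b (a (l 16783904) (l 16783776)) (a (l 16786536) (l 16786400)))) (b (a (a (b (l 16779504) (l 16780120)) (b (l 16779344) (l 16779952))) (a (b (l 16779160) (l 16779760)) (b (l 16778952) (l 16779536)))) (a (a (b (l 16780768) (l 16781472)) (b (l 16780592) (l 16781288))) (a (b (l 16780392)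 (l 16781080)) (b (l 16780168) (l 16780840)))))) (c (a (b (a (l 16783616) (l 16783424)) (a (l 16786232) (l 16786032))) (b (a (l 16783200) (l 1)) (a (l 16785808) (l 16785544)))) (a (b (a (b (l 16778720) (l 16779296)) (b (l 16778448) (l 16779016))) (a (b (l 16779912) (l 16780576)) (b (l 16779624) (l 16780288)))) (b (a (l 8086620535) (l 1)) (a (l 16779624) (l 16779272))))))), by decide +kernel⟩

def k49_A00pm_112_s1 : ∃ t, chk3 f_A00pm_112_s1 t 11 21 1 = true :=
  ⟨(b (l 1) (a (a (a (b (l 1) (a (c (l 16785248) (l 16778888)) (l 1))) (l 1)) (l 1)) (l 1))), by decide +kernel⟩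

def k50_A00pm_112_s1 : ∃ t, chk3 f_A00pm_112_s1 t 16 22 1 = true :=
  ⟨(b (a (a (b (c (a (l 16788024) (l 16788328)) (a (l 16780256) (l 16780656))) (c (a (l 16790240) (l 16790624)) (a (l 16780848) (l 16781352)))) (b (c (a (l 16788592) (l 16788824)) (a (l 16781032) (l 16781368))) (c (a (l 16790968) (l 16791280)) (a (l 16781816) (l 16782232))))) (a (b (a (c (l 16789024) (l 16779056)) (b (l 16779872) (l 16775520))) (c (a (l 16791544) (l 16791784)) (a (l 16782624) (l 16782976)))) (b (a (b (l 16780048) (l 16775728)) (b (l 16780200) (l 16775912))) (c (a (l 16791984) (l 16792152)) (a (l 16783296) (l 16783584)))))) (a (a (b (c (a (l 16792464) (l 16792936)) (a (l 16781432) (l 16782032))) (c (a (l 16794688) (l 16795264)) (a (l 16781984) (l 16782696)))) (b (c (a (l 16793368) (l 16793760)) (a (l 16782584) (l 16783104))) (c (a (l 16795784) (l 16796264)) (a (l 16783352) (l 16783968))))) (a (b (c (a (l 16794104) (l 16794416)) (a (l 16783576) (l 16784016))) (c (a (l 16796696) (l 16797088))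 (a (l 16784544) (l 16785072)))) (b (c (a (l 16794688) (l 16794920)) (a (l 16784416) (l 16784784))) (c (l 16792352) (a (l 16785560) (l 16786008))))))), by decide +kernel⟩

def k51_A00pm_112_s1 : ∃ t, chk3 f_A00pm_112_s1 t 17 22 1 = true :=
  ⟨(a (b (a (b (c (a (l 16789536) (l 16789624)) (a (l 16782608) (l 16782784))) (c (a (l 16792296) (l 16792424)) (a (l 16783840) (l 16784080)))) (b (c (l 16789736) (a (l 16782944) (l 16783096))) (c (l 16792608) (a (l 16784304) (l 16784512))))) (a (b (c (a (l 16795120) (l 16795312)) (a (l 16785112) (l 16785424))) (c (l 16798144) (a (l 16786416) (l 16786800)))) (b (c (l 16795568) (a (l 16785712) (l 16785976))) (c (l 16798616) (a (l 16787168) (l 16787504)))))) (b (a (a (b (l 16786536) (l 16788728)) (b (l 16786632) (l 16788872))) (b (a (l 16786728) (l 16786808)) (a (l 16789000) (l 16789120)))) (a (a (b (l 16791008) (l 16793360)) (b (l 16791200) (l 16793608))) (b (a (l 16791368) (l 16791528)) (a (l 16793832) (l 16794048)))))), by decide +kernel⟩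

def k52_A00pm_112_s1 : ∃ t, chk3 f_A00pm_112_s1 t 8 23 1 = true :=
  ⟨(a (b (a (a (b (c (l 16797264) (a (l 16782520) (l 16783336))) (c (l 16799544) (a (l 16783016) (l 16783960)))) (a (b (l 16791128) (l 16795328)) (b (l 16789152) (l 16793472)))) (a (b (c (l 16799568) (a (l 16785504) (l 16786136))) (c (l 16802264) (l 16786840))) (b (c (l 16800432) (a (l 16786712) (l 16787256))) (c (l 16803312) (l 16788216))))) (a (a (b (c (l 16801808) (l 16784032)) (c (l 16804032) (l 16784512))) (b (c (l 16803520) (l 16796544)) (c (l 16806016) (l 16786816)))) (a (b (c (l 16804984) (l 16787856)) (c (l 16807736) (l 16788864))) (b (c (l 16806232) (l 16789448)) (c (l 16809184) (l 16790688)))))) (a (b (a (a (b (a (l 16794224) (l 16794432)) (l 16786024)) (b (l 16784248) (l 16786512))) (a (b (l 16784624) (l 16786968)) (b (l 16774488) (l 16797888)))) (a (b (c (l 16807280) (l 16790840)) (c (l 16810440) (l 16792304))) (b (c (l 16808208) (l 16792096)) (c (l 16811552) (l 16793760))))) (b (a (b (c (l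 16802272) (l 16789664)) (c (l 16805616) (l 16791416))) (c (a (l 16804336) (l 16804584)) (b (l 16790344) (l 16792248)))) (b (a (c (l 16809040) (l 16793224)) (c (l 16809776) (l 16794224))) (a (c (l 16812560) (l 16795088)) (l 16783872)))))), by decide +kernel⟩

def k53_A00pm_112_s1 : ∃ t, chk3 f_A00pm_112_s1 t 9 11 1 = true :=
  ⟨(a (b (a (b (a (b (l 16786928) (l 16789280)) (b (l 16787064) (l 16789464))) (a (a (l 16792952) (l 16793104)) (l 16793304))) (b (a (l 16788360) (l 16788448)) (a (l 16793536) (l 16793696)))) (a (b (a (a (l 16798288) (l 16798536)) (l 16798880)) (a (a (l 16804048) (l 16804432)) (l 16804960))) (a (b (l 16799248) (l 16805544)) (b (l 16799536) (l 16806016))))) (b (b (a (l 537813359) (a (l 537802351) (b (l 16787000) (l 16789536)))) (a (l 16793816) (a (l 16793808) (l 16793696)))) (b (a (l 16799832) (l 16799888)) (a (l 16806520) (l 16806800))))), by decide +kernel⟩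

def k54_A00pm_112_s1 : ∃ t, chk3 f_A00pm_112_s1 t 10 22 1 = true :=
  ⟨(a (a (b (a (b (a (l 16786888) (l 16786808)) (l 16789368)) (b (a (l 16786720) (l 16786632)) (a (l 16789224) (l 16789112)))) (a (b (l 16792088) (l 16795000)) (b (l 16791872) (l 16794776)))) (b (a (b (a (c (l 16789832) (l 16783232)) (c (l 16789768) (l 16783096))) (a (l 16788992) (l 16788864))) (b (a (c (l 16789696) (l 16782944)) (b (l 16780392) (l 16786768))) (a (c (l 16792768) (l 16784696)) (c (l 16792656) (l 16784504))))) (a (b (a (l 16791672) (l 16791528)) (l 16794488)) (b (a (l 16791368) (l 16791192)) (a (l 16794232) (l 16794040)))))) (a (b (a (b (a (b (l 16780264) (l 16776144)) (b (l 16780128) (l 16775992))) (c (a (l 16792544) (l 16792432)) (a (l 16784296) (l 16784080)))) (b (a (b (l 16779960) (l 16775824)) (b (l 16779768) (l 16775624))) (c (a (l 16792296) (l 16792144)) (a (l 16783840) (l 16783576))))) (a (b (a (c (l 16795792) (l 16786224)) (l 16780312)) (a (l 16793832) (l 16793608))) (b (c (a (l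 16795480) (l 16795312)) (a (l 16785704) (l 16785424))) (a (c (l 16798920) (l 16787816)) (l 16782608))))) (b (a (b (c (a (l 16789016) (l 16788816)) (a (l 16781664) (l 16781360))) (c (a (l 16791976) (l 16791776)) (a (l 16783288) (l 16782968)))) (b (c (a (l 16788584) (l 16788320)) (a (l 16781024) (l 16780648))) (c (a (l 16791536) (l 16791272)) (a (l 16782616) (l 16782232))))) (a (a (b (c (l 16795120) (l 16785104)) (l 16782328)) (b (c (l 16794904) (l 16784776)) (c (l 16798264) (l 16786808)))) (b (c (a (l 16794680) (l 16794408)) (a (l 16784408) (l 16784008))) (c (a (l 16798008) (l 16797728)) (a (l 16786416) (l 16786000)))))))), by decide +kernel⟩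

def k55_A00pm_112_s1 : ∃ t, chk3 f_A00pm_112_s1 t 10 23 1 = true :=
  ⟨(a (a (b (a (l 16799736) (l 16799528)) (l 16806664)) (b (a (b (l 16797600) (l 16800928)) (b (l 16797232) (l 16800560))) (a (l 16806360) (l 16806008)))) (a (b (a (b (a (l 16796904) (l 16796656)) (l 16800096)) (a (b (l 16796392) (l 16799680)) (b (l 16796104) (l 16799368)))) (a (b (l 16803656) (l 16807472)) (b (l 16803072) (l 16806880)))) (b (a (b (a (l 16785304) (l 16795456)) (c (l 16805912) (l 16786600))) (b (c (l 16801456) (a (l 16788664) (l 16788224))) (a (l 16777320) (l 16797888)))) (a (b (a (l 16802552) (l 16802176)) (l 16806160)) (b (c (l 16809416) (l 16793736)) (a (l 16805536) (l 16805072))))))), by decide +kernel⟩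

def k56_A00pm_112_s1 : ∃ t, chk3 f_A00pm_112_s1 t 11 22 1 = true :=
  ⟨(a (a (b (a (b (a (c (l 16788016) (l 16780248)) (c (l 16787672) (l 16779800))) (c (a (l 16790960) (l 16790616)) (a (l 16781808) (l 16781344)))) (b (a (c (l 16787296) (l 16779320)) (l 1)) (a (c (l 16790232) (l 16780840)) (c (l 16789800) (l 16780304))))) (a (b (c (a (l 16794096) (l 16793752)) (a (l 16783576) (l 16783096))) (c (a (l 16797424) (l 16797080)) (a (l 16785552) (l 16785064)))) (a (b (c (l 16793360) (l 16782584)) (c (l 16796688) (l 16784536))) (b (c (l 16792928) (l 16782024)) (l 16784840))))) (b (a (b (l 1) (a (l 16784504) (l 1))) (l 1)) (a (a (b (l 16786912) (l 16789528)) (b (l 16786328) (l 16788936))) (b (c (l 16791056) (l 27950857367)) (c (l 16794368) (l 16786848)))))) (a (b (l 1) (a (b (l 1) (c (l 16793024) (l 16790480))) (l 1))) (l 1))), by decide +kernel⟩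

def k57_A00pm_112_s1 : ∃ t, chk3 f_A00pm_112_s1 t 11 23 1 = true :=
  ⟨(a (b (a (a (b (c (l 16790296) (a (l 16787744) (l 16787248))) (c (l 16804576) (a (l 16790200) (l 16789680)))) (a (b (l 16782952) (l 16786024)) (b (l 16787680) (l 16785504)))) (a (b (c (l 16799048) (l 16787784)) (c (l 16802792) (l 16787544))) (b (c (l 16797896) (l 16783720)) (c (l 16801648) (l 16786072))))) (a (a (a (b (l 16779896) (l 16804584)) (b (l 16800376) (l 16804064))) (b (a (l 16799848) (l 16788824)) (a (l 16803504) (l 16802920)))) (a (b (c (l 16806760) (l 16790152)) (c (l 16811024) (l 16793056))) (b (c (l 16805616) (l 16788664)) (c (l 16809816) (l 16791504)))))) (a (b (a (b (c (l 16796536) (l 16782072)) (c (l 16800280) (l 16784400))) (b (c (l 16794960) (l 16780224)) (c (l 16798696) (l 16782512)))) (a (b (c (l 16804256) (l 16786968)) (c (l 16808472) (l 16789792))) (b (c (l 16802672) (l 16785056)) (c (l 16806888) (l 16787856))))) (b (a (b (l 1) (c (l 16796872) (l 16780408))) (l 1)) (a (b (c (l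 16800832) (l 16782912)) (c (l 16805048) (l 16785680))) (b (l 50499465799) (c (l 16802904) (l 16783256))))))), by decide +kernel⟩

def k58_A00pm_112_s1 : ∃ t, chk3 f_A00pm_112_s1 t 4 24 1 = true :=
  ⟨(c (a (a (b (a (a (b (l 16806200) (l 16808288)) (b (l 16808496) (l 16810920))) (a (b (l 16810480) (l 16813216)) (b (l 16812184) (l 16815192)))) (a (a (l 16811328) (l 16814472)) (a (b (l 16815912) (l 16818560)) (b (l 16818200) (l 16821176))))) (a (b (a (b (l 16813648) (l 16816904)) (b (l 16814960) (l 16818432))) (a (b (l 16820184) (l 16823472)) (b (l 16821968) (l 16825536)))) (b (a (b (l 16816160) (l 16819840)) (l 16819176)) (a (b (l 16823592) (l 16827424)) (l 16827104))))) (a (a (a (b (l 16820200) (l 16828536)) (b (l 16821096) (l 16829800))) (a (l 16826344) (l 16827104))) (a (l 16827984) (l 16828592)))) (b (a (a (a (a (b (l 16784952) (l 16785328)) (b (l 16787536) (l 16788224))) (a (b (l 16789864) (l 16790840)) (b (l 16791936) (l 16793184)))) (a (a (b (l 16793784) (l 16795280))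 (b (l 16795464) (l 16797200))) (a (b (l 16797000) (l 16798968)) (b (l 16798384) (l 16800568))))) (a (a (a (l 16800808) (l 16801968)) (l 16803416)) (a (l 16804736) (l 16805416)))) (a (a (a (a (l 16785792) (l 16810144)) (a (b (l 16791776) (l 16792680)) (b (l 16794416) (l 16795624)))) (a (a (b (l 16796792) (l 16798296)) (b (l 16798968) (l 16800744))) (a (b (l 16800968) (l 16803016)) (b (l 16802808) (l 16805096))))) (a (a (a (l 16805728) (l 16807304)) (l 16809320)) (a (l 16811296) (l 16812472)))))), by decide +kernel⟩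

def k59_A00pm_112_s1 : ∃ t, chk3 f_A00pm_112_s1 t 4 25 1 = true :=
  ⟨(a (a (a (b (b (l 16822928) (l 16803088)) (l 16846616)) (b (a (b (l 16807256) (l 16808928)) (b (l 16810376) (l 16812400))) (a (l 16811360) (l 16815368)))) (a (b (a (b (l 16813192) (l 16815544)) (b (l 16815768) (l 16818440))) (a (l 16819040) (b (l 16821104) (l 16823760)))) (b (a (b (l 16818136) (l 16821128)) (b (l 16820304) (l 16823592))) (a (b (l 16824128) (l 16827128)) (b (l 16826920) (l 16830264)))))) (a (a (b (a (b (l 16822272) (l 16825840)) (l 16825952)) (a (l 16810336) (l 16833776))) (a (b (l 16827648) (l 16836000)) (l 16823024))) (a (a (l 16834992) (l 16836232)) (l 16837656)))), by decide +kernel⟩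

def k60_A00pm_112_s1 : ∃ t, chk3 f_A00pm_112_s1 t 4 13 1 = true :=
  ⟨(b (a (a (a (b (l 16806496) (l 6)) (b (l 16816832) (l 16820008))) (a (b (a (l 16823568) (l 16827720)) (l 16820024)) (b (a (l 16831640) (l 16835312)) (a (l 16837600) (l 16842048))))) (a (a (b (a (l 16838728) (l 16841872)) (a (l 16846224) (l 16850128))) (b (a (l 16844720) (l 16847296)) (l 16813504))) (a (a (l 16854768) (l 16857072)) (l 16860040)))) (a (l 6) (l 6))), by decide +kernel⟩

def k61_A00pm_112_s1 : ∃ t, chk3 f_A00pm_112_s1 t 5 6 1 = true :=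
  ⟨(a (b (a (b (a (l 16818968) (b (l 16814248) (l 16823360))) (l 16839128)) (b (a (b (a (l 16813688) (l 16813112)) (l 16822640)) (b (a (b (l 16810232) (l 16814600)) (b (l 16809360) (l 16813712))) (a (l 16821704) (l 16820824)))) (a (l 16838808) (b (l 16831808) (l 16843712))))) (b (a (l 16863784) (l 16864952)) (l 6))) (b (a (b (b (a (a (b (a (l 16808608) (l 16808064)) (l 16812664)) (b (a (l 16807480) (l 16806864)) (l 16790488))) (a (b (a (l 16806208) (l 16805520)) (c (l 16820480) (l 16799776))) (b (c (l 16814328) (l 16794648)) (a (l 16808968) (l 16808168))))) (a (a (l 16798784) (b (l 16816072) (l 16821024))) (a (b (l 16793688) (l 16819576)) (b (c (l 16824336) (l 16801904)) (l 16817944))))) (a (b (a (l 16830368) (l 16829112)) (l 16841728)) (b (a (l 16827632) (b (l 16823176) (l 16828792))) (a (l 16839664) (l 16837936))))) (b (a (b (a (b (c (l 16812912) (l 16792872)) (c (l 16817696) (l 16796272))) (b (c (l 16811344) (l 16790920)) (c (l 16816056) (l 16794240)))) (a (b (a (l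 16811784) (l 16810864)) (l 16795152)) (b (c (l 16821104) (l 16797904)) (l 16803648)))) (b (a (b (c (l 16809512) (l 16788720)) (c (l 16814232) (l 16792032))) (b (l 16807232) (l 16800752))) (a (b (l 16807344) (l 16811984)) (b (l 16805032) (l 16809584))))) (a (b (a (b (l 16821304) (l 16826864)) (b (l 16819232) (l 16824728))) (a (l 16835968) (b (l 16830640) (l 16836968)))) (b (a (b (l 16816968) (l 16822384)) (b (l 16814520) (l 16819800))) (a (b (l 16828216) (l 16834480)) (b (l 16825544) (l 16831728))))))) (b (a (a (l 16862736) (b (l 16852376) (l 16867712))) (a (b (a (l 16849552) (l 16847272)) (l 16863712)) (b (a (l 16844712) (l 16799912)) (a (l 16859976) (l 16857008))))) (l 6)))), by decide +kernel⟩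

def k62_A00pm_112_s1 : ∃ t, chk3 f_A00pm_112_s1 t 2 7 1 = true :=
  ⟨(a (l 6) (l 6)), by decide +kernel⟩

def k63_A00pm_112_s1 : ∃ t, chk3 f_A00pm_112_s1 t 3 1 1 = true :=
  ⟨(b (a (b (l 1) (b (l 1) (a (b (l 1) (a (a (b (l 1) (a (b (l 1) (l 16790432)) (l 1))) (l 1)) (l 1))) (l 1)))) (l 1)) (b (a (a (b (a (a (b (b (a (b (l 16794144) (l 16798136)) (b (l 16791240) (l 16795208))) (a (b (l 16802400) (l 16806952)) (l 16822656))) (b (a (b (l 16811800) (l 16817032)) (l 16811352)) (a (l 16815136) (b (l 16819528) (l 16825464))))) (b (b (a (l 16789936) (l 1)) (a (l 16798408) (l 16794800))) (b (a (l 16808072) (l 16804440)) (a (l 16819016) (l 16815304))))) (b (a (b (l 1) (l 16830680)) (l 1)) (a (b (l 16840256) (l 16851112)) (b (l 16788872) (l 16799640))))) (b (a (a (b (a (l 16817736) (l 16835288)) (a (l 16853712) (l 16850104))) (b (a (l 16831608) (l 16827768)) (a (l 16846208) (l 16842016)))) (a (b (l 16821360) (a (l 16837568) (l 16832952))) (b (l 16811784) (l 16825336)))) (l 6)))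 (b (a (b (l 1) (a (b (l 1) (l 16788600)) (l 1))) (l 1)) (b (b (a (a (l 16800632) (l 16787896)) (l 1)) (l 6)) (l 6)))) (a (b (l 1) (l 6)) (l 1))) (l 6))), by decide +kernel⟩

theorem t64_A00pm_112_s1 : ∃ t, chk3 f_A00pm_112_s1 t 4 12 1 = true := ex3_b k58_A00pm_112_s1 k59_A00pm_112_s1

theorem t65_A00pm_112_s1 : ∃ t, chk3 f_A00pm_112_s1 t 4 6 1 = true := ex3_b t64_A00pm_112_s1 k60_A00pm_112_s1

theorem t66_A00pm_112_s1 : ∃ t, chk3 f_A00pm_112_s1 t 2 6 1 = true := ex3_a t65_A00pm_112_s1 k61_A00pm_112_s1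

theorem t67_A00pm_112_s1 : ∃ t, chk3 f_A00pm_112_s1 t 2 3 1 = true := ex3_b t66_A00pm_112_s1 k62_A00pm_112_s1

theorem t68_A00pm_112_s1 : ∃ t, chk3 f_A00pm_112_s1 t 11 11 1 = true := ex3_b k56_A00pm_112_s1 k57_A00pm_112_s1

theorem t69_A00pm_112_s1 : ∃ t, chk3 f_A00pm_112_s1 t 10 11 1 = true := ex3_b k54_A00pm_112_s1 k55_A00pm_112_s1

theorem t70_A00pm_112_s1 : ∃ t, chk3 f_A00pm_112_s1 t 5 11 1 = true := ex3_a t69_A00pm_112_s1 t68_A00pm_112_s1

theorem t71_A00pm_112_s1 : ∃ t, chk3 f_A00pm_112_s1 t 8 22 1 = true := ex3_a k50_A00pm_112_s1 k51_A00pm_112_s1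

theorem t72_A00pm_112_s1 : ∃ t, chk3 f_A00pm_112_s1 t 8 11 1 = true := ex3_b t71_A00pm_112_s1 k52_A00pm_112_s1

theorem t73_A00pm_112_s1 : ∃ t, chk3 f_A00pm_112_s1 t 4 11 1 = true := ex3_a t72_A00pm_112_s1 k53_A00pm_112_s1

theorem t74_A00pm_112_s1 : ∃ t, chk3 f_A00pm_112_s1 t 2 11 1 = true := ex3_a t73_A00pm_112_s1 t70_A00pm_112_s1

theorem t75_A00pm_112_s1 : ∃ t, chk3 f_A00pm_112_s1 t 20 21 1 = true := ex3_b k46_A00pm_112_s1 k47_A00pm_112_s1

theorem t76_A00pm_112_s1 : ∃ t, chk3 f_A00pm_112_s1 t 10 21 1 = true := ex3_a t75_A00pm_112_s1 k48_A00pm_112_s1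

theorem t77_A00pm_112_s1 : ∃ t, chk3 f_A00pm_112_s1 t 5 21 1 = true := ex3_a t76_A00pm_112_s1 k49_A00pm_112_s1

theorem t78_A00pm_112_s1 : ∃ t, chk3 f_A00pm_112_s1 t 8 84 1 = true := ex3_a k41_A00pm_112_s1 k42_A00pm_112_s1

theorem t79_A00pm_112_s1 : ∃ t, chk3 f_A00pm_112_s1 t 8 42 1 = true := ex3_b t78_A00pm_112_s1 k43_A00pm_112_s1

theorem t80_A00pm_112_s1 : ∃ t, chk3 f_A00pm_112_s1 t 8 21 1 = true := ex3_b t79_A00pm_112_s1 k44_A00pm_112_s1

theorem t81_A00pm_112_s1 : ∃ t, chk3 f_A00pm_112_s1 t 4 21 1 = true := ex3_a t80_A00pm_112_s1 k45_A00pm_112_s1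

theorem t82_A00pm_112_s1 : ∃ t, chk3 f_A00pm_112_s1 t 2 21 1 = true := ex3_a t81_A00pm_112_s1 t77_A00pm_112_s1

theorem t83_A00pm_112_s1 : ∃ t, chk3 f_A00pm_112_s1 t 41 167 1 = true := ex3_b k37_A00pm_112_s1 k38_A00pm_112_s1

theorem t84_A00pm_112_s1 : ∃ t, chk3 f_A00pm_112_s1 t 40 167 1 = true := ex3_b k35_A00pm_112_s1 k36_A00pm_112_s1

theorem t85_A00pm_112_s1 : ∃ t, chk3 f_A00pm_112_s1 t 20 167 1 = true := ex3_a t84_A00pm_112_s1 t83_A00pm_112_s1

theorem t86_A00pm_112_s1 : ∃ t, chk3 f_A00pm_112_s1 t 20 83 1 = true := ex3_b k34_A00pm_112_s1 t85_A00pm_112_s1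

theorem t87_A00pm_112_s1 : ∃ t, chk3 f_A00pm_112_s1 t 10 83 1 = true := ex3_a t86_A00pm_112_s1 k39_A00pm_112_s1

theorem t88_A00pm_112_s1 : ∃ t, chk3 f_A00pm_112_s1 t 10 41 1 = true := ex3_b k33_A00pm_112_s1 t87_A00pm_112_s1

theorem t89_A00pm_112_s1 : ∃ t, chk3 f_A00pm_112_s1 t 5 41 1 = true := ex3_a t88_A00pm_112_s1 k40_A00pm_112_s1

theorem t90_A00pm_112_s1 : ∃ t, chk3 f_A00pm_112_s1 t 9 21463 1 = true := ex3_a k29_A00pm_112_s1 k30_A00pm_112_s1

theorem t91_A00pm_112_s1 : ∃ t, chk3 f_A00pm_112_s1 t 9 10731 1 = true := ex3_b k28_A00pm_112_s1 t90_A00pm_112_s1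

theorem t92_A00pm_112_s1 : ∃ t, chk3 f_A00pm_112_s1 t 9 5365 1 = true := ex3_b k27_A00pm_112_s1 t91_A00pm_112_s1

theorem t93_A00pm_112_s1 : ∃ t, chk3 f_A00pm_112_s1 t 9 2682 1 = true := ex3_b k26_A00pm_112_s1 t92_A00pm_112_s1

theorem t94_A00pm_112_s1 : ∃ t, chk3 f_A00pm_112_s1 t 9 1341 1 = true := ex3_b t93_A00pm_112_s1 k31_A00pm_112_s1

theorem t95_A00pm_112_s1 : ∃ t, chk3 f_A00pm_112_s1 t 9 1340 1 = true := ex3_b k24_A00pm_112_s1 k25_A00pm_112_s1

theorem t96_A00pm_112_s1 : ∃ t, chk3 f_A00pm_112_s1 t 9 670 1 = true := ex3_b t95_A00pm_112_s1 t94_A00pm_112_s1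

theorem t97_A00pm_112_s1 : ∃ t, chk3 f_A00pm_112_s1 t 9 335 1 = true := ex3_b t96_A00pm_112_s1 k32_A00pm_112_s1

theorem t98_A00pm_112_s1 : ∃ t, chk3 f_A00pm_112_s1 t 9 334 1 = true := ex3_b k22_A00pm_112_s1 k23_A00pm_112_s1

theorem t99_A00pm_112_s1 : ∃ t, chk3 f_A00pm_112_s1 t 9 167 1 = true := ex3_b t98_A00pm_112_s1 t97_A00pm_112_s1

theorem t100_A00pm_112_s1 : ∃ t, chk3 f_A00pm_112_s1 t 35 1342 1 = true := ex3_c k19_A00pm_112_s1 k20_A00pm_112_s1

theorem t101_A00pm_112_s1 : ∃ t, chk3 f_A00pm_112_s1 t 35 671 1 = true := ex3_b t100_A00pm_112_s1 k21_A00pm_112_s1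

theorem t102_A00pm_112_s1 : ∃ t, chk3 f_A00pm_112_s1 t 35 2682 1 = true := ex3_b k16_A00pm_112_s1 k17_A00pm_112_s1

theorem t103_A00pm_112_s1 : ∃ t, chk3 f_A00pm_112_s1 t 35 1341 1 = true := ex3_b t102_A00pm_112_s1 k18_A00pm_112_s1

theorem t104_A00pm_112_s1 : ∃ t, chk3 f_A00pm_112_s1 t 35 1340 1 = true := ex3_b k14_A00pm_112_s1 k15_A00pm_112_s1

theorem t105_A00pm_112_s1 : ∃ t, chk3 f_A00pm_112_s1 t 35 670 1 = true := ex3_b t104_A00pm_112_s1 t103_A00pm_112_s1

theorem t106_A00pm_112_s1 : ∃ t, chk3 f_A00pm_112_s1 t 35 335 1 = true := ex3_b t105_A00pm_112_s1 t101_A00pm_112_s1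

theorem t107_A00pm_112_s1 : ∃ t, chk3 f_A00pm_112_s1 t 35 167 1 = true := ex3_b k13_A00pm_112_s1 t106_A00pm_112_s1

theorem t108_A00pm_112_s1 : ∃ t, chk3 f_A00pm_112_s1 t 34 670 1 = true := ex3_b k10_A00pm_112_s1 k11_A00pm_112_s1

theorem t109_A00pm_112_s1 : ∃ t, chk3 f_A00pm_112_s1 t 34 335 1 = true := ex3_b t108_A00pm_112_s1 k12_A00pm_112_s1

theorem t110_A00pm_112_s1 : ∃ t, chk3 f_A00pm_112_s1 t 34 167 1 = true := ex3_b k9_A00pm_112_s1 t109_A00pm_112_s1

theorem t111_A00pm_112_s1 : ∃ t, chk3 f_A00pm_112_s1 t 17 167 1 = true := ex3_a t110_A00pm_112_s1 t107_A00pm_112_s1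

theorem t112_A00pm_112_s1 : ∃ t, chk3 f_A00pm_112_s1 t 33 334 1 = true := ex3_b k6_A00pm_112_s1 k7_A00pm_112_s1

theorem t113_A00pm_112_s1 : ∃ t, chk3 f_A00pm_112_s1 t 33 167 1 = true := ex3_b t112_A00pm_112_s1 k8_A00pm_112_s1

theorem t114_A00pm_112_s1 : ∃ t, chk3 f_A00pm_112_s1 t 32 167 1 = true := ex3_b k4_A00pm_112_s1 k5_A00pm_112_s1

theorem t115_A00pm_112_s1 : ∃ t, chk3 f_A00pm_112_s1 t 16 167 1 = true := ex3_a t114_A00pm_112_s1 t113_A00pm_112_s1

theorem t116_A00pm_112_s1 : ∃ t, chk3 f_A00pm_112_s1 t 8 167 1 = true := ex3_a t115_A00pm_112_s1 t111_A00pm_112_s1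

theorem t117_A00pm_112_s1 : ∃ t, chk3 f_A00pm_112_s1 t 4 167 1 = true := ex3_a t116_A00pm_112_s1 t99_A00pm_112_s1

theorem t118_A00pm_112_s1 : ∃ t, chk3 f_A00pm_112_s1 t 4 83 1 = true := ex3_b k3_A00pm_112_s1 t117_A00pm_112_s1

theorem t119_A00pm_112_s1 : ∃ t, chk3 f_A00pm_112_s1 t 4 41 1 = true := ex3_b k2_A00pm_112_s1 t118_A00pm_112_s1

theorem t120_A00pm_112_s1 : ∃ t, chk3 f_A00pm_112_s1 t 2 41 1 = true := ex3_a t119_A00pm_112_s1 t89_A00pm_112_s1

theorem t121_A00pm_112_s1 : ∃ t, chk3 f_A00pm_112_s1 t 2 20 1 = true := ex3_b k1_A00pm_112_s1 t120_A00pm_112_s1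

theorem t122_A00pm_112_s1 : ∃ t, chk3 f_A00pm_112_s1 t 2 10 1 = true := ex3_b t121_A00pm_112_s1 t82_A00pm_112_s1

theorem t123_A00pm_112_s1 : ∃ t, chk3 f_A00pm_112_s1 t 2 5 1 = true := ex3_b t122_A00pm_112_s1 t74_A00pm_112_s1

theorem t124_A00pm_112_s1 : ∃ t, chk3 f_A00pm_112_s1 t 2 2 1 = true := ex3_b k0_A00pm_112_s1 t123_A00pm_112_s1

theorem t125_A00pm_112_s1 : ∃ t, chk3 f_A00pm_112_s1 t 2 1 1 = true := ex3_b t124_A00pm_112_s1 t67_A00pm_112_s1

theorem t126_A00pm_112_s1 : ∃ t, chk3 f_A00pm_112_s1 t 1 1 1 = true := ex3_a t125_A00pm_112_s1 k63_A00pm_112_s1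

theorem c_A00pm_112_s1 : CertF 536870912 536870912 536870912 536870912 469762048 67108864 true true false .dn 1 1 2
    ndF0q1 ndF0q1 pcF2 cut_A00pm_112_s1 xt_A00pm_112_s1 :=
  certF1 (fam := true) (s1 := true) (s2 := false) (a := 1) (b := 1) (c := 2) (cn := .dn) (n1 := ndF0q1) (n2 := ndF0q1) (pc := pcF2) (cut := cut_A00pm_112_s1) (xt := xt_A00pm_112_s1) (P1 := 536870912) (W1 := 536870912) (P2 := 536870912) (W2 := 536870912) (P3 := 469762048) (W3 := 67108864)
    rfl (fun _ => rfl) t126_A00pm_112_s1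

theorem s_A00pm_112_s1 {κ x : ℝ} (hκ : κ * h0 = ken x) (hx : ((469762048 : ℕ) : ℝ) / S ≤ x)
    (hx' : x ≤ (((469762048 : ℕ) : ℝ) + (67108864 : ℕ)) / S)
    (H : CutA (VF κ) PP tKF tL pcF (Cut.of [[⟨0, 0, 1, 33554432⟩, ⟨1, 1, 0, 33554432⟩, ⟨2, 1, 1, 33554432⟩], [⟨0, 1, 0, 33554432⟩, ⟨1, 0, 1, 33554432⟩, ⟨2, 1, 1, 33554432⟩]]) 1 1 2 0 0 (sgb true) (sgb false) x) :
    AltA (VF κ) PP tKF tL pcF [⟨3, 0, 0, 1449551462⟩] 1 1 2 0 0 (sgb true) (sgb false) x :=
  strip_altA (m := 1449551462) true rfl hκ covF01 covF01 hx hx' c_A00pm_112_s1 H ((okx hx hx').extA (T := tt) (sideF hx hx') hκ rfl rfl (.O 1 true) (.O 1 false) rfl)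

noncomputable def cut_A00pm_112_s3 : Cut := Cut.of [[⟨3, 0, 0, 2845415833⟩], [⟨0, 0, 1, 33554432⟩, ⟨1, 1, 0, 33554432⟩, ⟨2, 1, 1, 33554432⟩], [⟨0, 1, 0, 33554432⟩, ⟨1, 0, 1, 33554432⟩, ⟨2, 1, 1, 33554432⟩]]

noncomputable def f_A00pm_112_s3 : ℕ → ℕ → ℕ → ℕ → Bool := onCell 536870912 536870912 1073741824 536870912 469762048 67108864
    (rowF 1 true true false .dn 1 1 2 (qsf 536870912 536870912 536870912 536870912 2) ndF0q1 ndF0q1 pcF2 cut_A00pm_112_s3 Ext.none)

def k0_A00pm_112_s3 : ∃ t, chk3 f_A00pm_112_s3 t 1 1 1 = true :=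
  ⟨(l 6), by decide +kernel⟩

theorem c_A00pm_112_s3 : CertF 536870912 536870912 536870912 536870912 469762048 67108864 true true false .dn 1 1 2
    ndF0q1 ndF0q1 pcF2 cut_A00pm_112_s3 Ext.none :=
  certF1 (fam := true) (s1 := true) (s2 := false) (a := 1) (b := 1) (c := 2) (cn := .dn) (n1 := ndF0q1) (n2 := ndF0q1) (pc := pcF2) (cut := cut_A00pm_112_s3) (xt := Ext.none) (P1 := 536870912) (W1 := 536870912) (P2 := 536870912) (W2 := 536870912) (P3 := 469762048) (W3 := 67108864)
    rfl (fun _ => rfl) k0_A00pm_112_s3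

theorem s_A00pm_112_s3 {κ x : ℝ} (hκ : κ * h0 = ken x) (hx : ((469762048 : ℕ) : ℝ) / S ≤ x)
    (hx' : x ≤ (((469762048 : ℕ) : ℝ) + (67108864 : ℕ)) / S)
    (H : CutA (VF κ) PP tKF tL pcF (Cut.of [[⟨0, 0, 1, 33554432⟩, ⟨1, 1, 0, 33554432⟩, ⟨2, 1, 1, 33554432⟩], [⟨0, 1, 0, 33554432⟩, ⟨1, 0, 1, 33554432⟩, ⟨2, 1, 1, 33554432⟩]]) 1 1 2 0 0 (sgb true) (sgb false) x) :
    AltA (VF κ) PP tKF tL pcF [⟨4, 0, 0, 2845415833⟩] 1 1 2 0 0 (sgb true) (sgb false) x :=
  strip_altA (m := 2845415833) false rfl hκ covF01 covF01 hx hx' c_A00pm_112_s3 H (noExt_A)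

noncomputable def cut_A00pm_113_s1 : Cut := Cut.of [[⟨4, 0, 0, 1449551462⟩], [⟨0, 1, 0, 67108864⟩, ⟨1, 1, 0, 67108864⟩, ⟨2, 2, 0, 16777216⟩], [⟨0, 0, 1, 33554432⟩, ⟨1, 1, 0, 33554432⟩, ⟨2, 1, 1, 33554432⟩], [⟨0, 1, 0, 33554432⟩, ⟨1, 0, 1, 33554432⟩, ⟨2, 1, 1, 33554432⟩]]

noncomputable def f_A00pm_113_s1 : ℕ → ℕ → ℕ → ℕ → Bool := onCell 536870912 536870912 1610612736 536870912 469762048 67108864
    (rowF 1 true true false .nn 1 1 3 (qsf 536870912 536870912 536870912 536870912 3) ndF0q1 ndF0q1 pcF3 cut_A00pm_113_s1 Ext.none)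

def k0_A00pm_113_s1 : ∃ t, chk3 f_A00pm_113_s1 t 1 1 1 = true :=
  ⟨(b (a (b (l 6) (l 6)) (l 6)) (l 6)), by decide +kernel⟩

theorem c_A00pm_113_s1 : CertF 536870912 536870912 536870912 536870912 469762048 67108864 true true false .nn 1 1 3
    ndF0q1 ndF0q1 pcF3 cut_A00pm_113_s1 Ext.none :=
  certF1 (fam := true) (s1 := true) (s2 := false) (a := 1) (b := 1) (c := 3) (cn := .nn) (n1 := ndF0q1) (n2 := ndF0q1) (pc := pcF3) (cut := cut_A00pm_113_s1) (xt := Ext.none) (P1 := 536870912) (W1 := 536870912) (P2 := 536870912) (W2 := 536870912) (P3 := 469762048) (W3 := 67108864)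
    rfl (fun _ => rfl) k0_A00pm_113_s1

theorem s_A00pm_113_s1 {κ x : ℝ} (hκ : κ * h0 = ken x) (hx : ((469762048 : ℕ) : ℝ) / S ≤ x)
    (hx' : x ≤ (((469762048 : ℕ) : ℝ) + (67108864 : ℕ)) / S)
    (H : CutA (VF κ) PP tKF tL pcF (Cut.of [[⟨0, 1, 0, 67108864⟩, ⟨1, 1, 0, 67108864⟩, ⟨2, 2, 0, 16777216⟩], [⟨0, 0, 1, 33554432⟩, ⟨1, 1, 0, 33554432⟩, ⟨2, 1, 1, 33554432⟩], [⟨0, 1, 0, 33554432⟩, ⟨1, 0, 1, 33554432⟩, ⟨2, 1, 1, 33554432⟩]]) 1 1 3 0 0 (sgb true) (sgb false) x) :
    AltA (VF κ) PP tKF tL pcF [⟨3, 0, 0, 1449551462⟩] 1 1 3 0 0 (sgb true) (sgb false) x :=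
  strip_altA (m := 1449551462) true rfl hκ covF01 covF01 hx hx' c_A00pm_113_s1 H (noExt_A)

noncomputable def cut_A00pm_113_s3 : Cut := Cut.of [[⟨3, 0, 0, 2845415833⟩], [⟨0, 1, 0, 67108864⟩, ⟨1, 1, 0, 67108864⟩, ⟨2, 2, 0, 16777216⟩], [⟨0, 0, 1, 33554432⟩, ⟨1, 1, 0, 33554432⟩, ⟨2, 1, 1, 33554432⟩], [⟨0, 1, 0, 33554432⟩, ⟨1, 0, 1, 33554432⟩, ⟨2, 1, 1, 33554432⟩]]

noncomputable def f_A00pm_113_s3 : ℕ → ℕ → ℕ → ℕ → Bool := onCell 536870912 536870912 536870912 536870912 469762048 67108864
    (rowF 0 true true false .nn 1 1 3 (qsf 536870912 536870912 536870912 536870912 3) ndF0q1 ndF0q1 pcF3 cut_A00pm_113_s3 Ext.none)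

def k0_A00pm_113_s3 : ∃ t, chk3 f_A00pm_113_s3 t 2 1 1 = true :=
  ⟨(l 6), by decide +kernel⟩

def k1_A00pm_113_s3 : ∃ t, chk3 f_A00pm_113_s3 t 3 2 1 = true :=
  ⟨(l 6), by decide +kernel⟩

def k2_A00pm_113_s3 : ∃ t, chk3 f_A00pm_113_s3 t 6 3 1 = true :=
  ⟨(b (l 6) (b (l 6) (b (l 6) (a (l 6) (a (l 6) (a (l 6) (b (l 6) (l 16918896)))))))), by decide +kernel⟩

def k3_A00pm_113_s3 : ∃ t, chk3 f_A00pm_113_s3 t 7 6 1 = true :=
  ⟨(a (l 6) (a (l 6) (b (l 6) (a (l 6) (a (l 6) (b (l 6) (l 16921320))))))), by decide +kernel⟩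

def k4_A00pm_113_s3 : ∃ t, chk3 f_A00pm_113_s3 t 14 7 1 = true :=
  ⟨(b (l 6) (b (a (l 6) (a (l 16905304) (l 16892168))) (b (a (a (l 16916920) (b (l 16902600) (l 16898056))) (a (b (c (l 16974968) (l 16926120)) (l 16882200)) (b (l 16915512) (a (l 16870832) (l 16884480))))) (b (a (l 16901880) (a (l 16876832) (a (l 16864952) (l 16857224)))) (a (l 16893472) (a (l 16870696) (l 16854536))))))), by decide +kernel⟩

def k5_A00pm_113_s3 : ∃ t, chk3 f_A00pm_113_s3 t 15 14 1 = true :=
  ⟨(a (b (l 6) (b (l 16905304) (l 16892168))) (a (b (b (l 16916920) (a (l 16902600) (l 16898056))) (b (a (c (l 16974968) (l 16926120)) (l 16882200)) (a (l 16915512) (b (l 16870832) (l 16884480))))) (a (b (l 16901880) (b (l 16876832) (b (l 16864952) (l 16857224)))) (b (l 16893472) (b (l 16870696) (l 16854536)))))), by decide +kernel⟩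

def k6_A00pm_113_s3 : ∃ t, chk3 f_A00pm_113_s3 t 15 30 1 = true :=
  ⟨(a (b (l 16878896) (l 16864048)) (a (a (b (l 16859720) (l 16845200)) (b (a (l 16875416) (b (l 16854664) (l 16868416))) (b (l 16841792) (l 16834144)))) (b (a (b (l 16849640) (a (l 16843976) (l 16840312))) (b (l 16842448) (l 16834512))) (b (a (a (a (l 16837552) (l 16835752)) (l 16832824)) (a (l 16828760) (l 16824520))) (a (a (a (l 16829896) (b (l 16830184) (l 16826280))) (b (l 16827248) (a (l 16824536) (l 16822464)))) (a (l 16821080) (l 16816584))))))), by decide +kernel⟩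

def k7_A00pm_113_s3 : ∃ t, chk3 f_A00pm_113_s3 t 30 31 1 = true :=
  ⟨(b (b (a (l 16859720) (l 16845200)) (a (b (l 16875416) (a (l 16854664) (l 16868416))) (a (l 16841792) (l 16834144)))) (a (b (a (l 16849640) (b (l 16843976) (l 16840312))) (a (l 16842448) (l 16834512))) (a (b (b (b (l 16837552) (l 16835752)) (l 16832824)) (b (l 16828760) (l 16824520))) (b (b (b (l 16829896) (a (l 16830184) (l 16826280))) (a (l 16827248) (b (l 16824536) (l 16822464)))) (b (l 16821080) (l 16816584)))))), by decide +kernel⟩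

def k8_A00pm_113_s3 : ∃ t, chk3 f_A00pm_113_s3 t 31 62 1 = true :=
  ⟨(a (b (l 16871696) (b (l 16823768) (l 16820184))) (a (a (b (l 16820984) (l 16812432)) (b (a (b (l 16820600) (l 16816448)) (b (l 16818720) (a (l 16815248) (b (l 16815360) (l 16813368))))) (b (l 16811344) (l 16806912)))) (b (a (b (l 16815344) (a (l 16812688) (l 16810320))) (a (l 16809872) (l 16807440))) (a (a (a (b (b (l 16810376) (l 16808288)) (l 16804952)) (b (b (l 16809232) (l 16807304)) (b (a (l 16805496) (l 16805032)) (l 16803048)))) (b (l 16806448) (b (l 16803528) (a (a (b (l 16802976) (l 16801896)) (l 16801888)) (l 16800936))))) (a (b (l 16803968) (l 16800000)) (b (l 16801432) (l 16797408))))))), by decide +kernel⟩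

def k9_A00pm_113_s3 : ∃ t, chk3 f_A00pm_113_s3 t 31 63 1 = true :=
  ⟨(a (b (b (a (l 16820984) (l 16812432)) (a (b (a (l 16820600) (l 16816448)) (a (l 16818720) (b (l 16815248) (a (l 16815360) (l 16813368))))) (a (l 16811344) (l 16806912)))) (a (b (a (l 16815344) (b (l 16812688) (l 16810320))) (b (l 16809872) (l 16807440))) (b (b (b (a (a (l 16810376) (l 16808288)) (l 16804952)) (a (a (l 16809232) (l 16807304)) (a (b (l 16805496) (l 16805032)) (l 16803048)))) (a (l 16806448) (a (l 16803528) (b (b (a (l 16802976) (l 16801896)) (l 16801888)) (l 16800936))))) (b (a (l 16803968) (l 16800000)) (a (l 16801432) (l 16797408)))))) (b (a (a (b (l 16805648) (l 16802328)) (b (l 16802328) (l 16797576))) (a (a (b (l 16799960) (l 16774216)) (b (a (b (a (l 16800176) (b (l 16800344) (l 16799216))) (l 16797640)) (b (b (l 16799464) (a (l 16798760) (l 16798152))) (a (b (l 16797656) (l 16796488)) (b (l 16797152) (a (l 16796200) (l 16795968)))))) (a (l 16794040) (b (l 16794496) (l 14)))))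 (b (a (b (l 16797016) (a (l 16795672) (l 16794344))) (a (l 16794016) (l 16792680))) (a (a (b (b (b (l 16794416) (l 14)) (l 14)) (l 14)) (l 14)) (l 14))))) (a (b (b (a (l 16799960) (l 16774216)) (a (b (a (b (l 16800176) (a (l 16800344) (l 16799216))) (l 16797640)) (a (a (l 16799464) (b (l 16798760) (l 16798152))) (b (a (l 16797656) (l 16796488)) (a (l 16797152) (b (l 16796200) (l 16795968)))))) (b (l 16794040) (a (l 16794496) (l 14))))) (a (b (a (l 16797016) (b (l 16795672) (l 16794344))) (b (l 16794016) (l 16792680))) (b (a (a (a (b (l 16794416) (l 14)) (l 14)) (l 14)) (l 14)) (l 14)))) (b (a (b (a (l 16791496) (l 14)) (l 14)) (l 14)) (l 14))))), by decide +kernel⟩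

theorem t10_A00pm_113_s3 : ∃ t, chk3 f_A00pm_113_s3 t 31 31 1 = true := ex3_b k8_A00pm_113_s3 k9_A00pm_113_s3

theorem t11_A00pm_113_s3 : ∃ t, chk3 f_A00pm_113_s3 t 15 31 1 = true := ex3_a k7_A00pm_113_s3 t10_A00pm_113_s3

theorem t12_A00pm_113_s3 : ∃ t, chk3 f_A00pm_113_s3 t 15 15 1 = true := ex3_b k6_A00pm_113_s3 t11_A00pm_113_s3

theorem t13_A00pm_113_s3 : ∃ t, chk3 f_A00pm_113_s3 t 15 7 1 = true := ex3_b k5_A00pm_113_s3 t12_A00pm_113_s3

theorem t14_A00pm_113_s3 : ∃ t, chk3 f_A00pm_113_s3 t 7 7 1 = true := ex3_a k4_A00pm_113_s3 t13_A00pm_113_s3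

theorem t15_A00pm_113_s3 : ∃ t, chk3 f_A00pm_113_s3 t 7 3 1 = true := ex3_b k3_A00pm_113_s3 t14_A00pm_113_s3

theorem t16_A00pm_113_s3 : ∃ t, chk3 f_A00pm_113_s3 t 3 3 1 = true := ex3_a k2_A00pm_113_s3 t15_A00pm_113_s3

theorem t17_A00pm_113_s3 : ∃ t, chk3 f_A00pm_113_s3 t 3 1 1 = true := ex3_b k1_A00pm_113_s3 t16_A00pm_113_s3

theorem t18_A00pm_113_s3 : ∃ t, chk3 f_A00pm_113_s3 t 1 1 1 = true := ex3_a k0_A00pm_113_s3 t17_A00pm_113_s3

theorem c_A00pm_113_s3 : CertF 536870912 536870912 536870912 536870912 469762048 67108864 true true false .nn 1 1 3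
    ndF0q1 ndF0q1 pcF3 cut_A00pm_113_s3 Ext.none :=
  certF0 (fam := true) (s1 := true) (s2 := false) (a := 1) (b := 1) (c := 3) (cn := .nn) (n1 := ndF0q1) (n2 := ndF0q1) (pc := pcF3) (cut := cut_A00pm_113_s3) (xt := Ext.none) (P1 := 536870912) (W1 := 536870912) (P2 := 536870912) (W2 := 536870912) (P3 := 469762048) (W3 := 67108864)
    rfl t18_A00pm_113_s3

theorem s_A00pm_113_s3 {κ x : ℝ} (hκ : κ * h0 = ken x) (hx : ((469762048 : ℕ) : ℝ) / S ≤ x)
    (hx' : x ≤ (((469762048 : ℕ) : ℝ) + (67108864 : ℕ)) / S)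
    (H : CutA (VF κ) PP tKF tL pcF (Cut.of [[⟨0, 1, 0, 67108864⟩, ⟨1, 1, 0, 67108864⟩, ⟨2, 2, 0, 16777216⟩], [⟨0, 0, 1, 33554432⟩, ⟨1, 1, 0, 33554432⟩, ⟨2, 1, 1, 33554432⟩], [⟨0, 1, 0, 33554432⟩, ⟨1, 0, 1, 33554432⟩, ⟨2, 1, 1, 33554432⟩]]) 1 1 3 0 0 (sgb true) (sgb false) x) :
    AltA (VF κ) PP tKF tL pcF [⟨4, 0, 0, 2845415833⟩] 1 1 3 0 0 (sgb true) (sgb false) x :=
  strip_altA (m := 2845415833) false rfl hκ covF01 covF01 hx hx' c_A00pm_113_s3 H (noExt_A)

noncomputable def cut_A00pm_123_s1 : Cut := Cut.of [[⟨4, 0, 0, 1449551462⟩], [⟨0, 1, 0, 67108864⟩, ⟨1, 1, 0, 67108864⟩, ⟨2, 2, 0, 16777216⟩], [⟨0, 0, 1, 33554432⟩, ⟨1, 1, 0, 33554432⟩, ⟨2, 1, 1, 33554432⟩]]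

noncomputable def f_A00pm_123_s1 : ℕ → ℕ → ℕ → ℕ → Bool := onCell 536870912 536870912 0 536870912 469762048 67108864
    (rowF 0 true true false .npn 1 2 3 (qsf 536870912 536870912 0 536870912 3) ndF0q1 ndF0q2 pcF3 cut_A00pm_123_s1 Ext.none)

def k0_A00pm_123_s1 : ∃ t, chk3 f_A00pm_123_s1 t 1 1 1 = true :=
  ⟨(l 6), by decide +kernel⟩

theorem c_A00pm_123_s1 : CertF 536870912 536870912 0 536870912 469762048 67108864 true true false .npn 1 2 3
    ndF0q1 ndF0q2 pcF3 cut_A00pm_123_s1 Ext.none :=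
  certF0 (fam := true) (s1 := true) (s2 := false) (a := 1) (b := 2) (c := 3) (cn := .npn) (n1 := ndF0q1) (n2 := ndF0q2) (pc := pcF3) (cut := cut_A00pm_123_s1) (xt := Ext.none) (P1 := 536870912) (W1 := 536870912) (P2 := 0) (W2 := 536870912) (P3 := 469762048) (W3 := 67108864)
    rfl k0_A00pm_123_s1

theorem s_A00pm_123_s1 {κ x : ℝ} (hκ : κ * h0 = ken x) (hx : ((469762048 : ℕ) : ℝ) / S ≤ x)
    (hx' : x ≤ (((469762048 : ℕ) : ℝ) + (67108864 : ℕ)) / S)
    (H : CutA (VF κ) PP tKF tL pcF (Cut.of [[⟨0, 1, 0, 67108864⟩, ⟨1, 1, 0, 67108864⟩, ⟨2, 2, 0, 16777216⟩], [⟨0, 0, 1, 33554432⟩, ⟨1, 1, 0, 33554432⟩, ⟨2, 1, 1, 33554432⟩]]) 1 2 3 0 0 (sgb true) (sgb false) x) :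
    AltA (VF κ) PP tKF tL pcF [⟨3, 0, 0, 1449551462⟩] 1 2 3 0 0 (sgb true) (sgb false) x :=
  strip_altA (m := 1449551462) true rfl hκ covF01 covF02 hx hx' c_A00pm_123_s1 H (noExt_A)

end Pool.Agent.Strip051.G.I7_16_1_2.Tab.St.C
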