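import Pool.Agent.Strip051.G.I7_16_1_2.StF

/-! # Unit strips 5 (generated) -/

set_option linter.all false
set_option maxRecDepth 100000

namespace Pool.Agent.Strip051.G.I7_16_1_2.Tab.St.C

open Pool.Agent.Strip051.PB Pool.Agent.Strip051.PB.T Pool.Agent.StripNear Pool.Agent.Strip051.LC
open Pool.Agent.Strip051.G.I7_16_1_2.Tab Pool.Agent.Strip051.G.I7_16_1_2.Tab.St

noncomputable def cut_A00pm_123_s3 : Cut := Cut.of [[⟨3, 0, 0, 2845415833⟩], [⟨0, 1, 0, 67108864⟩, ⟨1, 1, 0, 67108864⟩, ⟨2, 2, 0, 16777216⟩], [⟨0, 0, 1, 33554432⟩, ⟨1, 1, 0, 33554432⟩, ⟨2, 1, 1, 33554432⟩]]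

noncomputable def xt_A00pm_123_s3 : Ext := strExt dd true true false .u0 .u2 .s2 .npn 1 2 3 rfl rfl gl3 vv ndF0q1 ndF0q2

noncomputable def f_A00pm_123_s3 : ℕ → ℕ → ℕ → ℕ → Bool := onCell 1610612736 536870912 0 536870912 469762048 67108864
    (rowF 2 true true false .npn 1 2 3 (qsf 536870912 536870912 0 536870912 3) ndF0q1 ndF0q2 pcF3 cut_A00pm_123_s3 xt_A00pm_123_s3)

def k0_A00pm_123_s3 : ∃ t, chk3 f_A00pm_123_s3 t 2 1 1 = true :=
  ⟨(a (b (b (l 1) (l 6)) (l 6)) (b (a (b (b (b (a (l 16810376) (a (l 16806112) (l 16801536))) (a (l 16825256) (a (l 16820848) (l 16815840)))) (a (l 16852632) (a (l 16847272) (l 16841184)))) (b (a (l 16896912) (a (l 16888824) (b (l 16869840) (l 16891232)))) (l 6))) (b (b (b (a (a (l 538116111) (l 538114575)) (b (l 538068495) (l 538112527))) (a (a (l 16809896) (a (l 16805168) (l 16801936))) (b (a (l 538168335) (l 538138895)) (a (l 16800264) (l 538183439))))) (a (a (l 16792080) (b (l 16818152) (l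 16834312))) (b (a (l 16789800) (l 538520079)) (a (l 16825928) (l 16796576))))) (a (a (b (b (l 16861152) (l 16881296)) (l 6)) (b (b (l 16851912) (l 16870840)) (b (c (l 16915160) (l 16887856)) (l 6)))) (a (b (b (l 16842400) (a (l 16862800) (l 16857408))) (a (b (l 16881936) (l 6)) (b (l 16875888) (b (l 16890304) (l 6))))) (b (b (l 16832888) (c (l 16852128) (l 16846672))) (c (b (a (l 16872952) (l 16866944)) (b (l 16883728) (a (l 6) (l 16889928)))) (b (l 16863824) (b (l 16877432) (l 16870976))))))))) (b (a (l 6) (l 6)) (l 6)))), by decide +kernel⟩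

def k1_A00pm_123_s3 : ∃ t, chk3 f_A00pm_123_s3 t 6 4 1 = true :=
  ⟨(a (b (a (b (a (b (l 4) (a (l 538069007) (l 538049807))) (l 4)) (a (b (a (l 538110735) (l 538089999)) (l 538142991)) (b (l 538056975) (l 538096911)))) (b (l 4) (b (l 4) (l 538042383)))) (a (a (b (a (l 16787576) (l 538194703)) (c (l 16789984) (l 16786848))) (b (b (l 538137103) (l 538178063)) (l 538240271))) (b (a (l 538115599) (l 538080271)) (a (b (l 538174991) (l 538215439)) (l 538158095))))) (b (l 4) (a (b (l 538581775) (a (l 538127631) (l 538103823))) (b (l 4) (l 4))))), by decide +kernel⟩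

def k2_A00pm_123_s3 : ∃ t, chk3 f_A00pm_123_s3 t 6 5 1 = true :=
  ⟨(a (b (a (b (a (b (l 16819832) (l 16827232)) (b (l 16790368) (l 16818168))) (a (b (l 16834880) (l 16842784)) (b (l 16825288) (l 16832656)))) (b (a (l 538277391) (l 538237967)) (a (b (l 538339599) (l 538381839)) (b (l 538298639) (l 538340111))))) (a (b (a (a (l 16858024) (l 16852328)) (a (l 16846880) (l 16841672))) (c (b (a (l 16871152) (l 16859448)) (a (c (l 16881776) (l 16878424)) (l 16888848))) (a (l 16890264) (l 16857360)))) (b (a (a (l 16836664) (l 16831840)) (b (l 538381839) (c (l 16831056) (l 16825656)))) (c (a (a (l 16855280) (l 16849896)) (b (l 16838368) (l 16845856))) (a (l 16846384) (l 16836240)))))) (b (a (b (a (l 538205455) (l 538180111)) (b (a (l 538264847) (l 538238223)) (a (l 538305295) (l 538277903)))) (b (a (l 538161935) (a (l 538150927) (l 4))) (a (b (l 538755599) (l 538525967)) (b (a (l 538207503) (b (l 538194191) (l 538212111))) (a (l 538245135)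 (l 538239247)))))) (a (b (a (b (l 538346255) (c (l 16821848) (l 16816960))) (b (l 538318095) (l 538627087))) (a (c (b (l 16828744) (l 16835808)) (b (l 16823432) (l 16830152))) (b (l 538668815) (c (l 16826248) (l 16821160))))) (b (a (a (l 538857231) (l 538311439)) (a (b (l 538283791) (l 538326287)) (l 538294031))) (a (a (b (l 16810848) (l 16817048)) (b (l 16806728) (l 16812712))) (b (a (l 16802632) (l 538349583)) (a (l 16808408) (l 16804088)))))))), by decide +kernel⟩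

def k3_A00pm_123_s3 : ∃ t, chk3 f_A00pm_123_s3 t 6 6 1 = true :=
  ⟨(a (b (b (a (a (b (c (a (a (l 6) (b (l 16888384) (l 6))) (b (l 16883704) (l 16886984))) (b (l 16880200) (l 16882576))) (l 16888888)) (b (c (a (b (l 16877360) (c (l 16883288) (l 16879848))) (l 16873472)) (l 16880496)) (b (c (a (l 16884288) (l 16879088)) (l 16874624)) (l 16880296)))) (c (b (a (l 16875120) (l 16853520)) (a (b (a (l 16873728) (l 16867880)) (a (l 16876640) (l 16871528))) (a (l 16864248) (l 16858560)))) (a (b (l 16858136) (b (l 16864328) (l 16867096))) (b (l 16847224) (l 16855008))))) (a (a (l 6) (l 16885656)) (b (a (l 16874112) (b (a (l 16865800) (l 16860872)) (l 16865944))) (a (l 16878760) (l 16869624))))) (a (l 6) (b (a (l 16886368) (l 16877464)) (l 16893360)))) (b (a (a (b (c (b (l 16843048) (l 16850440)) (b (l 16837104) (l 16844272))) (b (a (b (l 16855616) (l 16858768)) (a (l 16863920) (l 16850784))) (b (l 16858976) (l 16861680)))) (b (b (c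 (l 16833088) (l 16827664)) (c (l 16840104) (l 16834416))) (b (c (l 16847224) (l 16841288)) (c (a (l 16856464) (l 16851456)) (l 16858120))))) (c (a (b (a (l 16829264) (l 16824392)) (b (l 16836768) (a (l 16846288) (l 16840800)))) (b (a (l 16819576) (l 538802447)) (a (l 16832232) (l 16826984)))) (a (b (a (l 16824184) (l 16819648)) (b (l 16831368) (l 16837928))) (b (a (l 16815200) (l 16810720)) (a (l 16827088) (l 16822112)))))) (b (a (b (a (l 16865680) (l 16856336)) (l 16887512)) (a (b (a (l 16849056) (l 16843944)) (l 16851944)) (b (a (b (l 16837472) (l 16840248)) (c (l 16836376) (l 16830904))) (a (l 16844304) (l 16839088))))) (a (a (l 16879744) (l 16870232)) (a (l 16860208) (l 16849840)))))), by decide +kernel⟩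

def k4_A00pm_123_s3 : ∃ t, chk3 f_A00pm_123_s3 t 6 7 1 = true :=
  ⟨(b (a (l 6) (b (a (l 16886944) (a (l 16871552) (l 16860912))) (a (b (l 16896056) (l 6)) (b (l 16874928) (l 16922984))))) (a (l 6) (b (a (l 6) (a (l 16898616) (l 16928544))) (a (l 6) (a (l 6) (l 16903400)))))), by decide +kernel⟩

def k5_A00pm_123_s3 : ∃ t, chk3 f_A00pm_123_s3 t 7 2 1 = true :=
  ⟨(b (l 4) (a (a (a (b (b (l 4) (b (b (l 4) (l 538192399)) (l 538218767))) (b (a (l 538278415) (l 538261519)) (b (l 538325775) (l 538630671)))) (a (b (l 4) (b (l 538243855) (b (l 538296079) (l 538331663)))) (b (l 4) (b (l 538226447) (b (l 538277647) (l 538312719)))))) (b (l 4) (a (a (b (l 538477327) (b (l 538259471) (l 538294287))) (b (l 4) (b (a (l 538245391) (l 538236687)) (l 538276367)))) (a (b (l 4) (b (l 4) (a (l 538262543) (l 538254607)))) (l 4))))) (l 4))), by decide +kernel⟩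

def k6_A00pm_123_s3 : ∃ t, chk3 f_A00pm_123_s3 t 28 6 1 = true :=
  ⟨(b (b (a (a (b (l 16805264) (l 16810856)) (b (l 538386959) (l 16806208))) (b (a (l 538367759) (l 538348303)) (a (l 538403855) (l 538384399)))) (a (b (a (l 16816552) (l 16811696)) (a (l 16822336) (l 16817264))) (a (b (l 16806920) (l 16812280)) (b (l 538420751) (l 16807392))))) (b (b (a (a (l 16828192) (l 16822904)) (a (l 16817712) (l 16812616))) (a (a (b (l 16832520) (l 16835208)) (b (l 16827200) (l 16829872))) (a (b (l 16821808) (l 16824608)) (l 16817904)))) (a (b (l 16836544) (l 16841872)) (b (a (l 16828472) (b (l 16821912) (l 16824464))) (l 16831128))))), by decide +kernel⟩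

def k7_A00pm_123_s3 : ∃ t, chk3 f_A00pm_123_s3 t 29 6 1 = true :=
  ⟨(b (a (a (b (b (l 538329359) (c (l 538470927) (l 538259471))) (c (b (l 16799080) (l 16804312)) (b (l 538296079) (l 16800904)))) (a (b (b (l 538314767) (l 538350607)) (b (l 538386959) (l 538424335))) (b (b (l 538306063) (l 538341647)) (b (l 538378255) (l 538416143))))) (a (a (b (b (l 538296847) (a (l 538334991) (l 538331151))) (b (l 538370575) (c (l 16795784) (l 538294799)))) (b (c (b (l 538405391) (l 538441487)) (b (l 538174223) (l 538210575))) (c (b (l 538478863) (l 16793384)) (b (l 538247951) (l 538286351))))) (a (b (c (b (l 538401295) (l 538437391)) (b (c (l 538225423) (l 538375951)) (c (l 538262031) (l 538143759)))) (b (a (l 538359311) (l 538356495)) (b (l 538386703) (l 538406159)))) (b (b (b (l 4) (l 538287887)) (a (l 538316559) (l 538313999))) (b (a (l 538353935) (l 538351631)) (b (l 538381583) (l 538401295))))))) (a (a (b (b (c (l 16809616) (l 16805632))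 (l 16812728)) (b (b (l 16816576) (l 16819160)) (l 16823032))) (b (a (b (l 16803976) (l 16808920)) (b (l 16801568) (l 16806416))) (b (a (l 16813928) (l 16811312)) (b (l 16816352) (l 16818896))))) (a (a (b (b (c (l 16800752) (l 16797600)) (l 16803936)) (b (l 16808736) (b (l 16812384) (l 16814792)))) (b (c (b (l 16798264) (l 16803200)) (b (l 16795384) (l 16799720))) (b (l 16806176) (b (l 16809720) (l 16812120))))) (a (a (b (b (l 538437391) (l 16799648)) (b (l 16804272) (l 16808984))) (b (b (l 538434831) (l 16798440)) (b (l 16803008) (l 16807632)))) (b (b (b (l 538421263) (l 538441487)) (a (l 538473487) (l 538471439))) (b (a (l 16801752) (l 16800496)) (l 16805656))))))), by decide +kernel⟩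

def k8_A00pm_123_s3 : ∃ t, chk3 f_A00pm_123_s3 t 14 7 1 = true :=
  ⟨(b (a (b (a (l 16850088) (l 16839144)) (a (l 16861256) (l 16849952))) (b (a (b (l 16825480) (l 16830648)) (b (a (l 16817216) (b (a (l 16811808) (l 16809096)) (l 16812896))) (a (l 16822208) (l 16816544)))) (a (l 16838456) (b (l 16824288) (l 16829144))))) (b (b (a (a (l 16870328) (l 16858416)) (a (l 16846312) (l 16833936))) (a (l 16914096) (a (l 16852432) (a (l 16842440) (l 16835784))))) (a (a (l 16932080) (l 16876328)) (a (b (l 16859128) (l 16864488)) (b (l 16844872) (l 16849256)))))), by decide +kernel⟩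

def k9_A00pm_123_s3 : ∃ t, chk3 f_A00pm_123_s3 t 30 12 1 = true :=
  ⟨(a (b (b (l 4) (a (a (b (l 538301711) (l 538320143)) (b (l 4) (l 538316559))) (l 4))) (a (a (c (b (l 538468623) (l 538507535)) (b (c (l 538288143) (l 538434319)) (b (l 538255375) (l 538274575)))) (b (b (l 538335247) (a (l 538354959) (l 538353167))) (c (l 538505743) (b (l 538249999) (l 538269199))))) (a (b (c (l 538465295) (b (l 538208015) (l 538226703))) (c (l 538504463) (c (l 538855695) (b (l 538181903) (l 538201103))))) (b (a (b (l 4) (l 538349583)) (l 4)) (c (l 538772495) (a (b (l 538242319) (l 538261775)) (b (l 538241039) (l 538260239)))))))) (b (l 4) (b (l 4) (b (b (l 4) (a (c (l 538768911) (a (l 538244623) (l 4))) (l 4))) (a (a (a (l 538387471) (l 538387215)) (a (l 538387471) (l 4))) (l 4)))))), by decide +kernel⟩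

def k10_A00pm_123_s3 : ∃ t, chk3 f_A00pm_123_s3 t 60 13 1 = true :=
  ⟨(b (b (b (c (a (l 538537487) (a (l 538534415) (l 538533903))) (a (a (l 538294287) (l 538288911)) (a (l 538284559) (c (l 538345487) (l 538215951))))) (c (a (l 538826511) (a (l 538555151) (l 538554895))) (a (a (l 538314255) (l 538308879)) (a (l 538304527) (c (l 538365711) (l 538235663)))))) (b (a (a (l 538457871) (l 538454799)) (c (a (l 16789280) (l 538576143)) (a (l 538324751) (l 538321423)))) (a (a (l 538479119) (l 538475791)) (c (a (l 16791520) (l 16788944)) (a (l 538345487) (l 538342159)))))) (a (b (a (b (l 16797504) (l 16799712)) (b (l 538497551) (l 16797192))) (c (l 16803536) (a (l 16801120) (l 16798680)))) (a (b (c (l 16794896) (b (l 16791360) (l 16793312))) (c (l 16799408) (l 16796256))) (b (c (c (l 16792768) (l 16791704)) (b (l 538363151) (l 16790984))) (c (l 16796656) (c (l 16794568) (l 16793120))))))), by decide +kernel⟩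

def k11_A00pm_123_s3 : ∃ t, chk3 f_A00pm_123_s3 t 61 13 1 = true :=
  ⟨(b (a (a (b (c (l 538545423) (b (l 538547215) (l 538298639))) (c (l 539393807) (b (l 538318863) (l 538339855)))) (c (b (l 538815247) (c (l 538652943) (l 539331599))) (b (b (a (l 538277135) (l 538276879)) (l 538834447)) (b (l 538586383) (l 538875407))))) (a (b (a (b (l 538408463) (l 538429199)) (b (l 4) (l 538429967))) (a (b (l 538450191) (l 538471695)) (b (l 538451215) (l 538472719)))) (b (l 4) (a (b (l 538452495) (l 538473999)) (b (l 538454031) (l 538475791)))))) (a (b (b (a (a (l 538492687) (l 538492687)) (a (l 538492943) (l 538493199))) (a (c (l 16790656) (l 538651151)) (a (l 538515471) (l 538515983)))) (a (c (l 16793896) (b (l 16790520) (l 16792376))) (a (b (l 16789768) (l 16791736)) (b (l 538539279) (l 16790432))))) (a (a (b (b (l 538493967) (l 538516751)) (b (l 538540303) (l 16789128))) (b (b (l 538494991) (l 538517775)) (b (l 538541327) (l 538565391))))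 (b (b (a (l 538496271) (l 538497807)) (a (l 538519055) (l 538520847))) (b (a (l 538542607) (l 538544399)) (a (l 538566927) (l 538568719))))))), by decide +kernel⟩

def k12_A00pm_123_s3 : ∃ t, chk3 f_A00pm_123_s3 t 30 14 1 = true :=
  ⟨(a (b (b (b (a (a (l 16806416) (l 16803704)) (c (l 16801376) (l 16797960))) (a (a (l 16808672) (b (l 16805360) (l 16806456))) (a (c (l 16805080) (l 16801224)) (l 16800440)))) (a (b (l 16809656) (l 16812000)) (b (a (l 16805352) (b (c (l 16803840) (l 16800104)) (l 16803056))) (l 16806200)))) (b (a (l 16815488) (b (l 16808432) (l 16810640))) (a (l 16820056) (l 16813912)))) (b (a (b (a (b (l 16795704) (l 16797720)) (c (l 16795320) (c (l 16793360) (l 16791984)))) (b (a (c (l 16801440) (a (l 16798648) (l 16797320))) (l 16796952)) (a (b (a (l 16801992) (l 16800552)) (l 16802360)) (b (c (l 16800024) (l 16796760)) (a (l 16800136) (c (l 16800304) (l 16796992))))))) (c (a (a (b (l 16793152) (l 16797248))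 (b (l 16791696) (l 16795728))) (b (b (l 16788520) (l 16790496)) (c (l 16794008) (l 16792872)))) (a (a (b (l 16790808) (b (l 16793440) (l 16795216))) (b (c (l 16790112) (l 16788992)) (l 16793024))) (b (b (c (l 16787272) (l 16786392)) (c (l 16789032) (l 16788008))) (b (l 16790216) (l 16791896)))))) (a (b (b (a (l 16803976) (l 16800984)) (l 16804584)) (l 16807672)) (b (b (a (b (a (b (l 16797960) (l 16798472)) (c (l 16798232) (l 16795192))) (l 16798472)) (a (b (l 16795280) (b (l 16795976) (l 16796440))) (c (l 16795584) (b (l 16792472) (l 16793320))))) (a (l 16799984) (b (a (l 16797184) (b (c (l 16796784) (l 16793936)) (l 16795880))) (l 16797376)))) (b (a (l 16801960) (l 16798808)) (l 16802280)))))), by decide +kernel⟩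

def k13_A00pm_123_s3 : ∃ t, chk3 f_A00pm_123_s3 t 30 15 1 = true :=
  ⟨(a (b (b (l 16821352) (b (l 16845536) (a (l 16830232) (l 16823320)))) (b (a (l 16833960) (l 16826600)) (a (l 16837552) (l 16829648)))) (b (b (a (l 16811648) (b (l 16804128) (l 16805920))) (a (b (l 16814496) (l 16816376)) (a (l 16810256) (l 16806744)))) (b (a (l 16819184) (b (a (l 16812792) (l 16809112)) (l 16812352))) (a (l 16821672) (l 16834608))))), by decide +kernel⟩

def k14_A00pm_123_s3 : ∃ t, chk3 f_A00pm_123_s3 t 31 6 1 = true :=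
  ⟨(b (l 4) (a (b (a (a (a (b (l 4) (b (l 4) (l 538477839))) (l 4)) (l 4)) (l 4)) (a (b (b (a (a (l 538499855) (l 538502415)) (a (l 538505231) (l 4))) (a (a (l 538522895) (l 538525199)) (a (l 538528015) (l 538531343)))) (a (a (b (l 538546447) (l 538570767)) (b (l 538548751) (l 538573071))) (a (b (l 538551567) (l 539112719)) (b (l 538823183) (c (l 538714383) (l 538438159)))))) (b (l 4) (b (a (a (l 538558735) (l 4)) (l 4)) (a (a (l 539388175) (c (l 538721807) (l 538715663))) (a (a (l 538590223) (l 4)) (l 4))))))) (l 4))), by decide +kernel⟩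

def k15_A00pm_123_s3 : ∃ t, chk3 f_A00pm_123_s3 t 124 14 1 = true :=
  ⟨(b (b (b (a (c (a (l 16786344) (l 16784888)) (a (l 16784976) (l 538455823))) (a (c (l 538737935) (l 538726927)) (c (l 538741007) (l 539267087)))) (a (a (c (l 16788272) (l 16786624)) (c (l 16786784) (l 16785360))) (a (a (l 538626319) (l 538627855)) (a (l 538629391) (l 538631183))))) (a (b (c (l 16789432) (c (l 16788096) (l 16787144))) (c (l 16791328) (c (l 16789784) (l 16788688)))) (b (c (a (l 16787144) (l 16785616)) (a (l 16785672) (c (l 16784688) (l 16784032)))) (c (c (l 16788584) (l 16787816)) (a (l 16787240) (l 16785904)))))) (b (b (a (c (l 16793208) (c (l 16791464) (l 16790224))) (a (c (l 16790816) (l 16788800)) (c (l 16789208) (l 16787432)))) (a (b (a (a (b (l 16794272) (l 16794720)) (l 16793744)) (l 16792608)) (a (l 16795032) (a (b (l 16793640) (l 16794088)) (b (l 16792872) (l 16793304))))) (c (a (l 16792624) (l 16790984)) (a (b (l 16789960) (l 16790744))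 (l 16788944))))) (a (b (c (l 16796952) (l 16794232)) (l 16797416)) (b (a (b (b (a (l 16792960) (a (l 16792368) (l 16791984))) (l 16793000)) (l 16793664)) (a (b (c (l 16792712) (b (l 16790232) (l 16790624))) (l 16792456)) (b (l 16790824) (b (c (l 16792520) (l 16790272)) (l 16791856))))) (c (l 16795328) (l 16792880)))))), by decide +kernel⟩

def k16_A00pm_123_s3 : ∃ t, chk3 f_A00pm_123_s3 t 125 28 1 = true :=
  ⟨(b (a (b (a (a (l 538606607) (l 538608655)) (a (l 538610703) (l 538613007))) (b (a (l 538627343) (l 538631439)) (a (l 538640655) (l 538913295)))) (a (a (b (l 538615311) (l 539446799)) (b (l 538617871) (c (l 538780943) (l 538769167)))) (a (b (l 538620687) (c (l 538783247) (l 538772239))) (b (l 4) (c (l 538785551) (l 539044111)))))) (a (b (b (a (l 539191311) (c (l 538797583) (l 538512655))) (a (c (l 16784512) (l 16783432)) (c (l 16782952) (l 539062543)))) (a (c (l 16785840) (c (l 16784896) (l 16784224))) (c (c (l 16784504)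 (l 16784008)) (a (l 16783552) (l 16782880))))) (b (b (a (a (l 538661391) (l 538663951)) (a (l 538666511) (l 538669327))) (a (a (l 538675471) (l 538677775)) (a (l 538680335) (l 538683151)))) (b (a (a (l 538689807) (l 538692111)) (a (l 538694671) (l 538697487))) (a (a (l 538704399) (l 538706959)) (a (l 538709263) (l 538712079))))))), by decide +kernel⟩

def k17_A00pm_123_s3 : ∃ t, chk3 f_A00pm_123_s3 t 250 29 1 = true :=
  ⟨(c (b (a (b (l 16787600) (l 16789328)) (b (l 16785976) (l 16787664))) (b (a (b (l 16790608) (a (b (l 16791672) (l 16792096)) (l 16791032))) (l 16789328)) (b (a (l 16792304) (a (b (l 16790792) (l 16791200)) (b (l 16789920) (l 16790328)))) (l 16792248)))) (a (b (b (l 16786056) (c (l 16788000) (l 16787056))) (b (b (l 16788624) (b (a (l 16789544) (l 16788808)) (a (l 16789912) (b (l 16789072) (l 16789256))))) (b (b (l 16789928) (l 16790336)) (l 16790936)))) (c (b (b (l 16785016) (l 16786520)) (b (l 16788008) (b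 (a (b (l 16789312) (l 16789696)) (b (l 16788528) (l 16788896))) (l 16789880)))) (b (b (l 16784336) (l 16785704)) (b (l 16787056) (b (a (b (b (l 16788160) (l 16788336)) (l 16788624)) (b (l 16787536) (b (l 16787792) (l 16787960)))) (l 16788816))))))), by decide +kernel⟩

def k18_A00pm_123_s3 : ∃ t, chk3 f_A00pm_123_s3 t 251 29 1 = true :=
  ⟨(c (a (b (b (c (l 16784584) (l 16784088)) (c (l 16786288) (l 16785680))) (b (l 16787616) (b (l 16788808) (a (b (l 16789848) (l 16790240)) (b (l 16788960) (l 16789344)))))) (c (b (b (c (l 16782976) (l 16782792)) (l 16784544)) (b (l 16786184) (a (l 16788240) (l 16787320)))) (b (b (a (l 16782896) (l 16782104)) (l 16784056)) (b (l 16785576) (a (l 16787504) (l 16786640)))))) (a (a (b (b (l 16783640) (l 16785056)) (b (l 16786440) (b (l 16787472) (b (b (a (l 16788080) (l 16787704)) (l 16788072)) (l 16788360))))) (b (b (c (l 16783200) (l 16782680)) (l 16784336)) (b (l 16785712) (b (l 16786720) (b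 (l 16787224) (b (a (l 16787664) (l 16787280)) (l 16787648))))))) (a (b (b (c (l 16782464) (l 16782016)) (c (l 16783912) (l 16783328))) (b (c (l 16785328) (l 16784616)) (b (l 16785968) (b (l 16786464) (a (l 16786984) (l 16786592)))))) (b (b (c (l 16781736) (l 16781344)) (c (l 16783160) (l 16782648))) (b (c (l 16784552) (l 16783920)) (c (l 16785920) (l 16785152))))))), by decide +kernel⟩

def k19_A00pm_123_s3 : ∃ t, chk3 f_A00pm_123_s3 t 62 15 1 = true :=
  ⟨(a (b (b (a (l 16800000) (b (l 16795792) (l 16797376))) (a (l 16803208) (l 16799624))) (b (b (a (l 16805408) (l 16801680)) (l 16804688)) (a (l 16807592) (l 16824528)))) (b (a (b (b (c (l 16793448) (l 16791296)) (l 16793904)) (b (l 16795328) (l 16796664))) (b (b (a (b (c (l 16790368) (l 16788512)) (l 16790200)) (a (b (b (a (l 16788216) (b (l 16787696) (l 16787880))) (l 16788368)) (l 16788904)) (b (c (b (l 16787928) (l 16788296)) (b (a (b (l 16786448) (l 16786616)) (l 16786144))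 (a (l 16786872) (b (l 16786384) (l 16786552))))) (l 16788032)))) (c (l 16791272) (a (l 16790280) (l 16788616)))) (b (c (l 16792624) (l 16790752)) (l 16792952)))) (b (b (a (l 16797904) (l 16794096)) (a (l 16798920) (a (l 16796016) (b (l 16793880) (l 16794208))))) (a (a (l 16800528) (l 16808992)) (b (l 16795448) (l 16795584)))))), by decide +kernel⟩

def k20_A00pm_123_s3 : ∃ t, chk3 f_A00pm_123_s3 t 126 14 1 = true :=
  ⟨(b (a (b (a (b (l 4) (a (c (l 538787855) (l 539316495)) (l 4))) (l 4)) (b (a (a (b (l 538672143) (l 538685967)) (b (l 538675471) (l 538689295))) (a (b (l 4) (l 538692623)) (l 4))) (b (a (a (l 538700303) (l 538703375)) (a (l 538706703) (l 538710287))) (a (a (l 538714895) (l 538717967)) (a (l 538721039) (l 538992911)))))) (b (l 4) (a (b (l 4) (a (b (l 4) (l 539533583)) (l 4))) (l 4)))) (b (a (b (b (a (a (l 539266831) (c (l 538873871) (l 538584591))) (a (c (l 538876431) (l 538588431)) (c (l 538878735) (l 538861327))))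 (a (a (c (l 16781848) (l 16781176)) (c (l 16781016) (l 539135247))) (a (c (l 538893071) (l 539675919)) (a (l 538753551) (l 538755087))))) (a (b (a (c (l 16782640) (l 16781848)) (c (l 16781792) (l 16781128))) (c (c (l 16783192) (l 16782792)) (a (l 16782512) (l 16781784)))) (a (a (b (l 538766095) (l 539051023)) (b (l 538767631) (l 14))) (b (a (l 538769167) (l 538770959)) (l 14))))) (a (a (a (b (b (l 538741775) (l 538756879)) (b (l 538772751) (l 14))) (b (b (l 538743567) (l 538758671)) (l 14))) (a (b (b (l 538745615) (l 538760719)) (l 14)) (b (b (l 538747663) (l 538762511)) (l 14)))) (a (b (a (b (l 4) (l 538764559)) (l 4)) (l 14)) (b (l 4) (l 14))))) (a (a (a (a (b (c (l 16784800) (l 16783688)) (b (l 16785312) (l 16786008))) (l 14)) (l 14)) (l 14)) (l 14)))), by decide +kernel⟩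

def k21_A00pm_123_s3 : ∃ t, chk3 f_A00pm_123_s3 t 126 15 1 = true :=
  ⟨(b (a (a (a (a (b (b (b (c (l 16787424) (b (l 16785760) (b (l 16785992) (l 16786152)))) (l 16787384)) (b (l 16788064) (l 16788720))) (b (l 16789664) (l 16790840))) (l 14)) (l 14)) (l 14)) (l 14)) (a (a (a (b (b (l 16791680) (l 16803072)) (b (l 16792960) (l 16793040))) (l 14)) (l 14)) (l 14))), by decide +kernel⟩

def k22_A00pm_123_s3 : ∃ t, chk3 f_A00pm_123_s3 t 127 7 1 = true :=
  ⟨(b (b (l 4) (b (b (l 4) (l 14)) (l 14))) (l 14)), by decide +kernel⟩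

theorem t23_A00pm_123_s3 : ∃ t, chk3 f_A00pm_123_s3 t 126 7 1 = true := ex3_b k20_A00pm_123_s3 k21_A00pm_123_s3

theorem t24_A00pm_123_s3 : ∃ t, chk3 f_A00pm_123_s3 t 63 7 1 = true := ex3_a t23_A00pm_123_s3 k22_A00pm_123_s3

theorem t25_A00pm_123_s3 : ∃ t, chk3 f_A00pm_123_s3 t 125 29 1 = true := ex3_a k17_A00pm_123_s3 k18_A00pm_123_s3

theorem t26_A00pm_123_s3 : ∃ t, chk3 f_A00pm_123_s3 t 125 14 1 = true := ex3_b k16_A00pm_123_s3 t25_A00pm_123_s3

theorem t27_A00pm_123_s3 : ∃ t, chk3 f_A00pm_123_s3 t 62 14 1 = true := ex3_a k15_A00pm_123_s3 t26_A00pm_123_s3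

theorem t28_A00pm_123_s3 : ∃ t, chk3 f_A00pm_123_s3 t 62 7 1 = true := ex3_b t27_A00pm_123_s3 k19_A00pm_123_s3

theorem t29_A00pm_123_s3 : ∃ t, chk3 f_A00pm_123_s3 t 31 7 1 = true := ex3_a t28_A00pm_123_s3 t24_A00pm_123_s3

theorem t30_A00pm_123_s3 : ∃ t, chk3 f_A00pm_123_s3 t 31 3 1 = true := ex3_b k14_A00pm_123_s3 t29_A00pm_123_s3

theorem t31_A00pm_123_s3 : ∃ t, chk3 f_A00pm_123_s3 t 30 7 1 = true := ex3_b k12_A00pm_123_s3 k13_A00pm_123_s3

theorem t32_A00pm_123_s3 : ∃ t, chk3 f_A00pm_123_s3 t 30 13 1 = true := ex3_a k10_A00pm_123_s3 k11_A00pm_123_s3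

theorem t33_A00pm_123_s3 : ∃ t, chk3 f_A00pm_123_s3 t 30 6 1 = true := ex3_b k9_A00pm_123_s3 t32_A00pm_123_s3

theorem t34_A00pm_123_s3 : ∃ t, chk3 f_A00pm_123_s3 t 30 3 1 = true := ex3_b t33_A00pm_123_s3 t31_A00pm_123_s3

theorem t35_A00pm_123_s3 : ∃ t, chk3 f_A00pm_123_s3 t 15 3 1 = true := ex3_a t34_A00pm_123_s3 t30_A00pm_123_s3

theorem t36_A00pm_123_s3 : ∃ t, chk3 f_A00pm_123_s3 t 14 6 1 = true := ex3_a k6_A00pm_123_s3 k7_A00pm_123_s3

theorem t37_A00pm_123_s3 : ∃ t, chk3 f_A00pm_123_s3 t 14 3 1 = true := ex3_b t36_A00pm_123_s3 k8_A00pm_123_s3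

theorem t38_A00pm_123_s3 : ∃ t, chk3 f_A00pm_123_s3 t 7 3 1 = true := ex3_a t37_A00pm_123_s3 t35_A00pm_123_s3

theorem t39_A00pm_123_s3 : ∃ t, chk3 f_A00pm_123_s3 t 7 1 1 = true := ex3_b k5_A00pm_123_s3 t38_A00pm_123_s3

theorem t40_A00pm_123_s3 : ∃ t, chk3 f_A00pm_123_s3 t 6 3 1 = true := ex3_b k3_A00pm_123_s3 k4_A00pm_123_s3

theorem t41_A00pm_123_s3 : ∃ t, chk3 f_A00pm_123_s3 t 6 2 1 = true := ex3_b k1_A00pm_123_s3 k2_A00pm_123_s3

theorem t42_A00pm_123_s3 : ∃ t, chk3 f_A00pm_123_s3 t 6 1 1 = true := ex3_b t41_A00pm_123_s3 t40_A00pm_123_s3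

theorem t43_A00pm_123_s3 : ∃ t, chk3 f_A00pm_123_s3 t 3 1 1 = true := ex3_a t42_A00pm_123_s3 t39_A00pm_123_s3

theorem t44_A00pm_123_s3 : ∃ t, chk3 f_A00pm_123_s3 t 1 1 1 = true := ex3_a k0_A00pm_123_s3 t43_A00pm_123_s3

theorem c_A00pm_123_s3 : CertF 536870912 536870912 0 536870912 469762048 67108864 true true false .npn 1 2 3
    ndF0q1 ndF0q2 pcF3 cut_A00pm_123_s3 xt_A00pm_123_s3 :=
  certF2 (fam := true) (s1 := true) (s2 := false) (a := 1) (b := 2) (c := 3) (cn := .npn) (n1 := ndF0q1) (n2 := ndF0q2) (pc := pcF3) (cut := cut_A00pm_123_s3) (xt := xt_A00pm_123_s3) (P1 := 536870912) (W1 := 536870912) (P2 := 0) (W2 := 536870912) (P3 := 469762048) (W3 := 67108864)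
    rfl (fun _ => rfl) t44_A00pm_123_s3

theorem s_A00pm_123_s3 {κ x : ℝ} (hκ : κ * h0 = ken x) (hx : ((469762048 : ℕ) : ℝ) / S ≤ x)
    (hx' : x ≤ (((469762048 : ℕ) : ℝ) + (67108864 : ℕ)) / S)
    (H : CutA (VF κ) PP tKF tL pcF (Cut.of [[⟨0, 1, 0, 67108864⟩, ⟨1, 1, 0, 67108864⟩, ⟨2, 2, 0, 16777216⟩], [⟨0, 0, 1, 33554432⟩, ⟨1, 1, 0, 33554432⟩, ⟨2, 1, 1, 33554432⟩]]) 1 2 3 0 0 (sgb true) (sgb false) x) :
    AltA (VF κ) PP tKF tL pcF [⟨4, 0, 0, 2845415833⟩] 1 2 3 0 0 (sgb true) (sgb false) x :=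
  strip_altA (m := 2845415833) false rfl hκ covF01 covF02 hx hx' c_A00pm_123_s3 H ((okx hx hx').extA (T := tt) (sideF hx hx') hκ rfl rfl (.O 1 true) (.O 2 false) (Or.inr rfl))

noncomputable def cut_A00pm_202_s1 : Cut := Cut.of [[⟨4, 0, 0, 1449551462⟩], [⟨0, 1, 0, 67108864⟩, ⟨1, 0, 0, 67108864⟩, ⟨2, 1, 0, 67108864⟩], [⟨0, 1, 0, 33554432⟩, ⟨1, 0, 1, 33554432⟩, ⟨2, 1, 1, 33554432⟩]]

noncomputable def f_A00pm_202_s1 : ℕ → ℕ → ℕ → ℕ → Bool := onCell 0 536870912 0 536870912 469762048 67108864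
    (rowF 0 true true false .pp 2 0 2 (qsf 0 536870912 0 536870912 2) ndF0q2 ndF0q0 pcF2 cut_A00pm_202_s1 Ext.none)

def k0_A00pm_202_s1 : ∃ t, chk3 f_A00pm_202_s1 t 2 1 1 = true :=
  ⟨(l 6), by decide +kernel⟩

def k1_A00pm_202_s1 : ∃ t, chk3 f_A00pm_202_s1 t 3 8 1 = true :=
  ⟨(a (a (l 6) (a (b (b (b (a (c (l 16645040) (l 16611072)) (c (l 16652800) (l 16619960))) (a (l 6) (l 16623720))) (a (l 6) (l 16641064))) (l 6)) (b (b (b (a (c (b (l 16641176) (l 16639648)) (l 16650664)) (b (c (l 16661536) (l 16641304)) (c (l 16649056) (l 16639496)))) (a (l 16632320) (c (l 16646256) (l 16636896)))) (b (a (l 16629360) (l 16638240)) (l 16630528))) (b (a (l 16621832) (l 16629320)) (l 16660784))))) (a (b (a (b (b (a (b (c (l 16661992) (l 16653216)) (l 16655568)) (b (c (l 16673768) (a (l 16662688) (l 16669304))) (a (l 16664472) (l 16670704)))) (a (b (l 16653328) (l 16651152)) (b (l 16665104) (l 16662592)))) (b (a (l 16648008) (l 16658856))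 (a (l 16643888) (l 16654000)))) (b (b (a (b (l 14) (c (l 16683592) (l 16677104))) (l 14)) (a (b (l 16677760) (l 16675000)) (b (l 14) (l 16688328)))) (a (b (l 16670816) (l 16665216)) (b (l 16683768) (l 16677592))))) (a (b (a (l 16637648) (l 16646880)) (l 16675160)) (b (a (l 16678024) (b (l 16671360) (l 16665216))) (a (l 16646200) (l 16656120))))) (a (b (b (l 14) (a (b (l 14) (l 16690968)) (l 14))) (b (a (b (l 16684160) (l 16677280)) (b (l 16718960) (l 16711496))) (a (l 16698536) (c (l 16679552) (l 16678816))))) (b (l 14) (b (a (b (l 14) (l 16725792)) (l 14)) (a (a (l 16710032) (l 16719840)) (b (a (l 16733728) (l 14)) (a (l 16705816) (a (l 16713616) (b (l 14) (l 16722328))))))))))), by decide +kernel⟩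

def k2_A00pm_202_s1 : ∃ t, chk3 f_A00pm_202_s1 t 3 9 1 = true :=
  ⟨(a (a (l 6) (a (l 6) (a (l 6) (l 6)))) (a (b (a (b (l 16665992) (a (b (a (l 6) (l 16615480)) (l 6)) (b (l 16620008) (l 16656992)))) (b (l 16660456) (a (l 16623984) (l 16631304)))) (a (b (l 16626216) (l 6)) (b (a (b (l 16657448) (l 16609672)) (b (l 16621768) (l 16657400))) (a (l 16601088) (l 16647504))))) (a (b (b (c (l 16701176) (l 16679248)) (l 16675680)) (b (c (l 16671512) (l 16671280)) (a (b (l 16646304) (l 16607448)) (b (l 16626256) (l 16620160))))) (a (b (b (c (l 16712232) (b (l 16683528) (l 16676808))) (b (l 16712528) (l 16706016))) (b (c (l 16696920) (l 16695752)) (c (l 16684512) (l 16683056)))) (b (b (a (b (a (l 16696464) (l 16701552)) (l 16702752)) (a (b (l 16706672) (l 16705088)) (b (b (l 16713568) (l 16710088)) (b (l 16706632) (a (l 16701952) (l 16704472)))))) (c (a (l 16683200) (a (l 16691008) (b (a (l 16698344) (l 16711456)) (l 16692864)))) (a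 (l 16680960) (a (l 16688088) (b (a (l 16695152) (l 16697560)) (l 16689408)))))) (a (b (a (l 16666472) (l 16671328)) (a (l 16653672) (l 16658408))) (a (b (c (l 16677728) (l 16674496)) (c (l 16664832) (l 16661272))) (c (b (b (l 16686168) (l 16679560)) (a (l 16668576) (l 16671072))) (b (b (l 16682544) (l 16675776)) (b (l 16669096) (l 16662512))))))))))), by decide +kernel⟩

def k3_A00pm_202_s1 : ∃ t, chk3 f_A00pm_202_s1 t 3 5 1 = true :=
  ⟨(a (l 6) (a (b (b (a (l 6) (l 16584568)) (l 6)) (l 6)) (b (a (b (a (l 16588912) (b (c (l 16653512) (l 16653488)) (l 16600248))) (l 16659968)) (a (b (a (b (b (l 16628072) (l 16643104)) (l 16613440)) (b (b (l 16637368) (b (l 16632776) (a (l 16627344) (l 16632000)))) (b (l 16646296) (l 16619480)))) (l 16643480)) (b (a (b (b (l 16646648) (l 16640440)) (b (a (c (l 16633528) (l 16630256)) (b (l 16638120) (b (l 16635752) (l 16634184)))) (l 16628392))) (b (c (b (l 16657896) (l 16651704)) (a (l 16648376)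 (b (l 16656024) (l 16649608)))) (b (a (c (l 16643088) (l 16638856)) (b (l 16647320) (l 16644200))) (a (b (c (l 16638560) (a (l 16633064) (l 16635176))) (l 16633416)) (b (a (b (l 16640704) (c (l 16641296) (l 16636496))) (l 16652664)) (c (c (l 16641456) (l 16639200)) (c (l 16636680) (l 16633896)))))))) (a (l 16635312) (b (b (l 16652320) (l 16625720)) (l 16617536)))))) (a (l 6) (a (b (l 16581944) (l 6)) (b (b (l 16624104) (l 16593656)) (b (l 16584984) (l 6)))))))), by decide +kernel⟩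

def k4_A00pm_202_s1 : ∃ t, chk3 f_A00pm_202_s1 t 3 3 1 = true :=
  ⟨(b (l 6) (l 6)), by decide +kernel⟩

theorem t5_A00pm_202_s1 : ∃ t, chk3 f_A00pm_202_s1 t 3 4 1 = true := ex3_b k1_A00pm_202_s1 k2_A00pm_202_s1

theorem t6_A00pm_202_s1 : ∃ t, chk3 f_A00pm_202_s1 t 3 2 1 = true := ex3_b t5_A00pm_202_s1 k3_A00pm_202_s1

theorem t7_A00pm_202_s1 : ∃ t, chk3 f_A00pm_202_s1 t 3 1 1 = true := ex3_b t6_A00pm_202_s1 k4_A00pm_202_s1

theorem t8_A00pm_202_s1 : ∃ t, chk3 f_A00pm_202_s1 t 1 1 1 = true := ex3_a k0_A00pm_202_s1 t7_A00pm_202_s1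

theorem c_A00pm_202_s1 : CertF 0 536870912 0 536870912 469762048 67108864 true true false .pp 2 0 2
    ndF0q2 ndF0q0 pcF2 cut_A00pm_202_s1 Ext.none :=
  certF0 (fam := true) (s1 := true) (s2 := false) (a := 2) (b := 0) (c := 2) (cn := .pp) (n1 := ndF0q2) (n2 := ndF0q0) (pc := pcF2) (cut := cut_A00pm_202_s1) (xt := Ext.none) (P1 := 0) (W1 := 536870912) (P2 := 0) (W2 := 536870912) (P3 := 469762048) (W3 := 67108864)
    rfl t8_A00pm_202_s1

theorem s_A00pm_202_s1 {κ x : ℝ} (hκ : κ * h0 = ken x) (hx : ((469762048 : ℕ) : ℝ) / S ≤ x)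
    (hx' : x ≤ (((469762048 : ℕ) : ℝ) + (67108864 : ℕ)) / S)
    (H : CutA (VF κ) PP tKF tL pcF (Cut.of [[⟨0, 1, 0, 67108864⟩, ⟨1, 0, 0, 67108864⟩, ⟨2, 1, 0, 67108864⟩], [⟨0, 1, 0, 33554432⟩, ⟨1, 0, 1, 33554432⟩, ⟨2, 1, 1, 33554432⟩]]) 2 0 2 0 0 (sgb true) (sgb false) x) :
    AltA (VF κ) PP tKF tL pcF [⟨3, 0, 0, 1449551462⟩] 2 0 2 0 0 (sgb true) (sgb false) x :=
  strip_altA (m := 1449551462) true rfl hκ covF02 covF00 hx hx' c_A00pm_202_s1 H (noExt_A)

noncomputable def cut_A00pm_202_s3 : Cut := Cut.of [[⟨3, 0, 0, 2845415833⟩], [⟨0, 1, 0, 67108864⟩, ⟨1, 0, 0, 67108864⟩, ⟨2, 1, 0, 67108864⟩], [⟨0, 1, 0, 33554432⟩, ⟨1, 0, 1, 33554432⟩, ⟨2, 1, 1, 33554432⟩]]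

noncomputable def f_A00pm_202_s3 : ℕ → ℕ → ℕ → ℕ → Bool := onCell 0 536870912 1073741824 536870912 469762048 67108864
    (rowF 1 true true false .pp 2 0 2 (qsf 0 536870912 0 536870912 2) ndF0q2 ndF0q0 pcF2 cut_A00pm_202_s3 Ext.none)

def k0_A00pm_202_s3 : ∃ t, chk3 f_A00pm_202_s3 t 1 1 1 = true :=
  ⟨(a (b (l 6) (l 6)) (l 6)), by decide +kernel⟩

theorem c_A00pm_202_s3 : CertF 0 536870912 0 536870912 469762048 67108864 true true false .pp 2 0 2
    ndF0q2 ndF0q0 pcF2 cut_A00pm_202_s3 Ext.none :=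
  certF1 (fam := true) (s1 := true) (s2 := false) (a := 2) (b := 0) (c := 2) (cn := .pp) (n1 := ndF0q2) (n2 := ndF0q0) (pc := pcF2) (cut := cut_A00pm_202_s3) (xt := Ext.none) (P1 := 0) (W1 := 536870912) (P2 := 0) (W2 := 536870912) (P3 := 469762048) (W3 := 67108864)
    rfl (fun _ => rfl) k0_A00pm_202_s3

theorem s_A00pm_202_s3 {κ x : ℝ} (hκ : κ * h0 = ken x) (hx : ((469762048 : ℕ) : ℝ) / S ≤ x)
    (hx' : x ≤ (((469762048 : ℕ) : ℝ) + (67108864 : ℕ)) / S)
    (H : CutA (VF κ) PP tKF tL pcF (Cut.of [[⟨0, 1, 0, 67108864⟩, ⟨1, 0, 0, 67108864⟩, ⟨2, 1, 0, 67108864⟩], [⟨0, 1, 0, 33554432⟩, ⟨1, 0, 1, 33554432⟩, ⟨2, 1, 1, 33554432⟩]]) 2 0 2 0 0 (sgb true) (sgb false) x) :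
    AltA (VF κ) PP tKF tL pcF [⟨4, 0, 0, 2845415833⟩] 2 0 2 0 0 (sgb true) (sgb false) x :=
  strip_altA (m := 2845415833) false rfl hκ covF02 covF00 hx hx' c_A00pm_202_s3 H (noExt_A)

noncomputable def cut_A00pm_203_s1 : Cut := Cut.of [[⟨4, 0, 0, 1449551462⟩], [⟨0, 1, 0, 33554432⟩, ⟨1, 0, 1, 33554432⟩, ⟨2, 1, 1, 33554432⟩]]

noncomputable def f_A00pm_203_s1 : ℕ → ℕ → ℕ → ℕ → Bool := onCell 0 536870912 1610612736 536870912 469762048 67108864
    (rowF 1 true true false .up 2 0 3 (qsf 0 536870912 0 536870912 3) ndF0q2 ndF0q0 pcF3 cut_A00pm_203_s1 Ext.none)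

def k0_A00pm_203_s1 : ∃ t, chk3 f_A00pm_203_s1 t 1 1 1 = true :=
  ⟨(l 6), by decide +kernel⟩

theorem c_A00pm_203_s1 : CertF 0 536870912 0 536870912 469762048 67108864 true true false .up 2 0 3
    ndF0q2 ndF0q0 pcF3 cut_A00pm_203_s1 Ext.none :=
  certF1 (fam := true) (s1 := true) (s2 := false) (a := 2) (b := 0) (c := 3) (cn := .up) (n1 := ndF0q2) (n2 := ndF0q0) (pc := pcF3) (cut := cut_A00pm_203_s1) (xt := Ext.none) (P1 := 0) (W1 := 536870912) (P2 := 0) (W2 := 536870912) (P3 := 469762048) (W3 := 67108864)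
    rfl (fun _ => rfl) k0_A00pm_203_s1

theorem s_A00pm_203_s1 {κ x : ℝ} (hκ : κ * h0 = ken x) (hx : ((469762048 : ℕ) : ℝ) / S ≤ x)
    (hx' : x ≤ (((469762048 : ℕ) : ℝ) + (67108864 : ℕ)) / S)
    (H : CutA (VF κ) PP tKF tL pcF (Cut.of [[⟨0, 1, 0, 33554432⟩, ⟨1, 0, 1, 33554432⟩, ⟨2, 1, 1, 33554432⟩]]) 2 0 3 0 0 (sgb true) (sgb false) x) :
    AltA (VF κ) PP tKF tL pcF [⟨3, 0, 0, 1449551462⟩] 2 0 3 0 0 (sgb true) (sgb false) x :=
  strip_altA (m := 1449551462) true rfl hκ covF02 covF00 hx hx' c_A00pm_203_s1 H (noExt_A)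

noncomputable def cut_A00pm_203_s3 : Cut := Cut.of [[⟨3, 0, 0, 2845415833⟩], [⟨0, 1, 0, 33554432⟩, ⟨1, 0, 1, 33554432⟩, ⟨2, 1, 1, 33554432⟩]]

noncomputable def f_A00pm_203_s3 : ℕ → ℕ → ℕ → ℕ → Bool := onCell 0 536870912 0 536870912 469762048 67108864
    (rowF 0 true true false .up 2 0 3 (qsf 0 536870912 0 536870912 3) ndF0q2 ndF0q0 pcF3 cut_A00pm_203_s3 Ext.none)

def k0_A00pm_203_s3 : ∃ t, chk3 f_A00pm_203_s3 t 1 1 1 = true :=
  ⟨(a (b (l 1) (b (a (b (l 1) (a (b (l 1) (a (l 16720336) (l 6))) (l 6))) (l 6)) (a (b (a (b (a (l 16764944) (l 6)) (a (l 16794608) (l 16805192))) (l 6)) (a (b (l 16773616) (a (l 16810576) (l 16825528))) (b (l 16847536) (l 16853160)))) (b (l 6) (l 6))))) (l 6)), by decide +kernel⟩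

theorem c_A00pm_203_s3 : CertF 0 536870912 0 536870912 469762048 67108864 true true false .up 2 0 3
    ndF0q2 ndF0q0 pcF3 cut_A00pm_203_s3 Ext.none :=
  certF0 (fam := true) (s1 := true) (s2 := false) (a := 2) (b := 0) (c := 3) (cn := .up) (n1 := ndF0q2) (n2 := ndF0q0) (pc := pcF3) (cut := cut_A00pm_203_s3) (xt := Ext.none) (P1 := 0) (W1 := 536870912) (P2 := 0) (W2 := 536870912) (P3 := 469762048) (W3 := 67108864)
    rfl k0_A00pm_203_s3

theorem s_A00pm_203_s3 {κ x : ℝ} (hκ : κ * h0 = ken x) (hx : ((469762048 : ℕ) : ℝ) / S ≤ x)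
    (hx' : x ≤ (((469762048 : ℕ) : ℝ) + (67108864 : ℕ)) / S)
    (H : CutA (VF κ) PP tKF tL pcF (Cut.of [[⟨0, 1, 0, 33554432⟩, ⟨1, 0, 1, 33554432⟩, ⟨2, 1, 1, 33554432⟩]]) 2 0 3 0 0 (sgb true) (sgb false) x) :
    AltA (VF κ) PP tKF tL pcF [⟨4, 0, 0, 2845415833⟩] 2 0 3 0 0 (sgb true) (sgb false) x :=
  strip_altA (m := 2845415833) false rfl hκ covF02 covF00 hx hx' c_A00pm_203_s3 H (noExt_A)

noncomputable def cut_A00pm_213_s1 : Cut := Cut.of [[⟨4, 0, 0, 1449551462⟩], [⟨0, 1, 0, 67108864⟩, ⟨1, 1, 0, 67108864⟩, ⟨2, 2, 0, 16777216⟩], [⟨0, 1, 0, 33554432⟩, ⟨1, 0, 1, 33554432⟩, ⟨2, 1, 1, 33554432⟩]]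

noncomputable def f_A00pm_213_s1 : ℕ → ℕ → ℕ → ℕ → Bool := onCell 0 536870912 536870912 536870912 469762048 67108864
    (rowF 0 true true false .pnn 2 1 3 (qsf 0 536870912 536870912 536870912 3) ndF0q2 ndF0q1 pcF3 cut_A00pm_213_s1 Ext.none)

def k0_A00pm_213_s1 : ∃ t, chk3 f_A00pm_213_s1 t 1 1 1 = true :=
  ⟨(l 6), by decide +kernel⟩

theorem c_A00pm_213_s1 : CertF 0 536870912 536870912 536870912 469762048 67108864 true true false .pnn 2 1 3
    ndF0q2 ndF0q1 pcF3 cut_A00pm_213_s1 Ext.none :=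
  certF0 (fam := true) (s1 := true) (s2 := false) (a := 2) (b := 1) (c := 3) (cn := .pnn) (n1 := ndF0q2) (n2 := ndF0q1) (pc := pcF3) (cut := cut_A00pm_213_s1) (xt := Ext.none) (P1 := 0) (W1 := 536870912) (P2 := 536870912) (W2 := 536870912) (P3 := 469762048) (W3 := 67108864)
    rfl k0_A00pm_213_s1

theorem s_A00pm_213_s1 {κ x : ℝ} (hκ : κ * h0 = ken x) (hx : ((469762048 : ℕ) : ℝ) / S ≤ x)
    (hx' : x ≤ (((469762048 : ℕ) : ℝ) + (67108864 : ℕ)) / S)
    (H : CutA (VF κ) PP tKF tL pcF (Cut.of [[⟨0, 1, 0, 67108864⟩, ⟨1, 1, 0, 67108864⟩, ⟨2, 2, 0, 16777216⟩], [⟨0, 1, 0, 33554432⟩, ⟨1, 0, 1, 33554432⟩, ⟨2, 1, 1, 33554432⟩]]) 2 1 3 0 0 (sgb true) (sgb false) x) :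
    AltA (VF κ) PP tKF tL pcF [⟨3, 0, 0, 1449551462⟩] 2 1 3 0 0 (sgb true) (sgb false) x :=
  strip_altA (m := 1449551462) true rfl hκ covF02 covF01 hx hx' c_A00pm_213_s1 H (noExt_A)

noncomputable def cut_A00pm_213_s3 : Cut := Cut.of [[⟨3, 0, 0, 2845415833⟩], [⟨0, 1, 0, 67108864⟩, ⟨1, 1, 0, 67108864⟩, ⟨2, 2, 0, 16777216⟩], [⟨0, 1, 0, 33554432⟩, ⟨1, 0, 1, 33554432⟩, ⟨2, 1, 1, 33554432⟩]]

noncomputable def xt_A00pm_213_s3 : Ext := strExt dd true true false .u2 .u0m .s2m .pnn 2 1 3 rfl rfl gl3 vv ndF0q2 ndF0q1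

noncomputable def f_A00pm_213_s3 : ℕ → ℕ → ℕ → ℕ → Bool := onCell 0 536870912 1610612736 536870912 469762048 67108864
    (rowF 1 true true false .pnn 2 1 3 (qsf 0 536870912 536870912 536870912 3) ndF0q2 ndF0q1 pcF3 cut_A00pm_213_s3 xt_A00pm_213_s3)

def k0_A00pm_213_s3 : ∃ t, chk3 f_A00pm_213_s3 t 2 2 1 = true :=
  ⟨(b (a (l 1) (l 6)) (b (a (a (a (b (l 16810376) (b (l 16806112) (l 16801536))) (b (l 16825256) (b (l 16820848) (l 16815840)))) (b (l 16852632) (b (l 16847272) (l 16841184)))) (a (b (l 16896912) (b (l 16888824) (a (l 16869840) (l 16891232)))) (l 6))) (a (a (a (b (b (a (l 16792944) (l 16799376)) (a (l 538090255) (l 538137871))) (a (l 538067215) (a (l 538099727) (l 538390543)))) (b (b (l 16809896) (a (l 16800056) (l 16806968))) (a (b (l 538167823) (b (l 16789096) (l 538129423))) (b (l 16800264) (b (l 16795280) (l 16792000)))))) (b (b (l 16792080) (a (l 16818152) (l 16834312))) (a (b (l 16789800) (c (l 16783752) (l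 16781160))) (b (l 16825928) (l 16796576))))) (b (b (a (a (l 16861152) (l 16881296)) (l 6)) (a (a (l 16851912) (l 16870840)) (a (c (l 16915160) (l 16887856)) (l 6)))) (b (a (a (l 16842400) (b (l 16862800) (l 16857408))) (a (a (l 16874032) (l 16883696)) (a (c (l 16896784) (l 16890512)) (l 6)))) (a (a (l 16832888) (c (l 16852128) (l 16846672))) (c (a (b (l 16872952) (l 16866944)) (a (l 16883728) (b (l 6) (l 16889928)))) (a (l 16863824) (a (l 16877432) (l 16870976)))))))))), by decide +kernel⟩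

def k1_A00pm_213_s3 : ∃ t, chk3 f_A00pm_213_s3 t 4 6 1 = true :=
  ⟨(b (a (b (a (b (a (l 4) (b (a (l 538058767) (l 538079247)) (a (l 4) (l 538059535)))) (l 4)) (b (a (b (a (l 538099983) (l 538120975)) (l 538089999)) (b (l 538152975) (l 538131983))) (a (l 538057231) (b (l 538108943) (l 538084367))))) (a (l 4) (a (l 4) (b (c (l 538136335) (l 537976079)) (l 4))))) (b (b (a (b (l 16787576) (a (l 16791488) (l 16797608))) (c (l 16789984) (l 16786848))) (a (a (b (l 538148623) (l 538124815)) (l 538177807)) (b (l 16803496) (l 538494991)))) (a (b (c (a (l 538175759) (l 538215439)) (l 538572047)) (l 538079759)) (b (a (l 538174735) (l 538215183)) (a (l 538137871) (l 538177039)))))) (a (l 4) (b (a (b (l 538051087) (l 4)) (b (a (l 538107663) (l 538146063)) (a (l 538084367) (l 538121743)))) (a (l 4) (l 4))))), by decide +kernel⟩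

def k2_A00pm_213_s3 : ∃ t, chk3 f_A00pm_213_s3 t 5 6 1 = true :=
  ⟨(b (a (b (a (b (a (l 16819832) (l 16827232)) (a (l 16790368) (l 16818168))) (b (c (l 16862480) (l 16836288)) (a (l 16825288) (l 16832656)))) (a (b (b (l 16808664) (l 538533647)) (a (l 538216975) (l 538257423))) (b (b (l 16822168) (l 16817824)) (a (l 538566671) (c (l 16816984) (l 16812584)))))) (b (a (b (b (l 16858024) (l 16852328)) (b (l 16846880) (l 16841672))) (c (a (b (l 16871152) (l 16859448)) (b (c (l 16881776) (l 16878424)) (l 16888848))) (b (l 16890264) (l 16857360)))) (a (b (b (l 16836664) (l 16831840)) (b (l 16827176) (a (l 16819248) (l 16826032)))) (c (a (b (l 16848560) (l 16838368)) (b (l 16856512) (l 16845856))) (b (l 16846384) (l 16836240)))))) (a (b (a (b (a (l 538184975) (l 538224399)) (l 538984719)) (a (b (l 538801423) (l 539043087)) (b (b (l 16808648) (l 16804728)) (b (l 16800896) (l 538270479))))) (a (b (a (l 538141967) (l 538179855)) (b (l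 538150415) (l 4))) (c (a (b (a (l 538314511) (l 538333967)) (b (l 538316559) (l 538851599))) (b (l 539435791) (b (l 538348047) (l 538346767)))) (a (b (a (l 538104079) (l 538123535)) (a (l 538086415) (b (l 538106383) (l 538099471)))) (b (l 539227919) (b (l 538129935) (l 538129167))))))) (b (a (b (c (b (l 16820728) (l 16816336)) (a (l 16810744) (l 16816960))) (a (b (l 16806848) (l 16802920)) (b (l 16813008) (l 16808888)))) (b (c (a (l 16828744) (l 16835808)) (a (l 16823432) (l 16830152))) (c (a (l 16819576) (l 16826248)) (a (l 16814880) (l 16821160))))) (a (b (a (b (l 16799080) (l 538290959)) (b (l 16804864) (l 16800920))) (b (a (l 538284047) (l 538323215)) (a (l 538275343) (l 538312207)))) (b (a (b (l 16810848) (l 16806728)) (b (l 16817048) (l 16812712))) (a (b (l 16802632) (l 538349327)) (b (l 16808408) (l 16804088)))))))), by decide +kernel⟩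

def k3_A00pm_213_s3 : ∃ t, chk3 f_A00pm_213_s3 t 2 7 1 = true :=
  ⟨(a (l 4) (b (a (b (a (l 4) (b (a (a (l 4) (l 538191887)) (l 538217999)) (l 4))) (l 4)) (b (a (b (a (l 538253327) (l 538825743)) (a (b (l 538225935) (l 538208527)) (b (l 538260495) (l 538242575)))) (b (a (b (l 538332175) (l 538314255)) (b (l 538369039) (l 538350351))) (a (b (l 538295823) (l 538277391)) (b (l 538331407) (l 538312463))))) (a (a (l 4) (b (b (l 538224911) (l 4)) (l 4))) (a (b (c (b (l 538370575) (l 538355983)) (b (l 538148111) (l 538663951))) (l 4)) (a (b (b (l 538285071) (l 538267151)) (b (l 538250255) (l 4))) (b (b (l 538302479) (l 538284303)) (b (l 538535951) (l 4)))))))) (l 4))), by decide +kernel⟩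

def k4_A00pm_213_s3 : ∃ t, chk3 f_A00pm_213_s3 t 3 2 1 = true :=
  ⟨(b (l 6) (a (b (l 6) (l 6)) (l 6))), by decide +kernel⟩

def k5_A00pm_213_s3 : ∃ t, chk3 f_A00pm_213_s3 t 6 6 1 = true :=
  ⟨(b (a (a (b (b (a (c (a (b (a (l 16889040) (l 16890608)) (l 16883704)) (b (l 6) (l 16886984))) (a (l 16880200) (l 16882576))) (l 16888888)) (a (c (b (a (l 16877360) (c (l 16883288) (l 16879848))) (l 16873472)) (l 16880496)) (a (c (b (l 16884288) (l 16879088)) (l 16874624)) (l 16880296)))) (c (a (b (l 16875120) (l 16853520)) (b (a (b (l 16873728) (l 16867880)) (b (l 16876640) (l 16871528))) (b (l 16864248) (l 16858560)))) (b (a (l 16858136) (a (l 16864328) (l 16867096))) (a (l 16847224) (l 16855008))))) (b (b (l 6) (l 16885656)) (a (b (l 16874112) (a (b (l 16865800) (l 16860872)) (l 16865944))) (b (l 16878760) (l 16869624))))) (b (l 6) (a (b (l 16886368) (l 16877464)) (l 16893360)))) (a (b (b (a (a (c (l 16843048) (l 16837104)) (c (l 16850440)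 (l 16844272))) (a (a (b (l 16855616) (l 16850192)) (b (l 16858768) (l 16853864))) (a (l 16858976) (l 16861680)))) (a (a (b (l 16832712) (l 16827992)) (b (l 16839656) (l 16834744))) (a (c (l 16847224) (l 16841288)) (c (b (l 16856464) (l 16851456)) (l 16858120))))) (c (a (a (b (l 16823512) (b (l 16816424) (l 16811688))) (b (l 16830072) (l 16820184))) (b (a (l 16836768) (b (l 16846288) (l 16840800))) (b (l 16832232) (l 16826984)))) (a (b (a (l 16818768) (l 16824984)) (b (l 16815200) (l 16810720))) (b (a (l 16831368) (l 16837928)) (b (l 16827088) (l 16822112)))))) (a (b (a (b (l 16865680) (l 16856336)) (l 16887512)) (b (a (b (l 16849056) (l 16843944)) (l 16851944)) (a (b (a (l 16837472) (l 16840248)) (c (l 16836376) (l 16830904))) (b (l 16844304) (l 16839088))))) (b (b (l 16879744) (l 16870232)) (b (l 16860208) (l 16849840)))))), by decide +kernel⟩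

def k6_A00pm_213_s3 : ∃ t, chk3 f_A00pm_213_s3 t 7 6 1 = true :=
  ⟨(b (l 6) (a (a (b (l 16886944) (b (l 16871552) (l 16860912))) (b (a (l 16896056) (l 6)) (a (l 16874928) (l 16922984)))) (a (b (l 6) (b (l 16898616) (l 16928544))) (b (l 6) (b (l 6) (l 16903400)))))), by decide +kernel⟩

def k7_A00pm_213_s3 : ∃ t, chk3 f_A00pm_213_s3 t 6 28 1 = true :=
  ⟨(a (a (b (a (b (l 16805264) (l 538386959)) (b (l 16810856) (l 16806208))) (b (a (l 538636047) (a (l 16800336) (l 16802952))) (a (a (l 538339087) (l 538356751)) (b (l 16798296) (l 16793464))))) (b (a (b (l 16816552) (l 16811696)) (b (l 16822336) (l 16817264))) (b (a (l 16806920) (l 16812280)) (a (c (l 16803880) (l 16800616)) (l 16807392))))) (a (a (b (b (l 16828192) (l 16822904)) (b (l 16817712) (l 16812616))) (b (b (a (l 16832520) (l 16835208)) (a (l 16827200) (l 16829872))) (b (a (l 16821808) (l 16824608)) (l 16817904)))) (b (a (l 16836544) (l 16841872)) (a (b (l 16828472)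 (a (l 16821912) (l 16824464))) (l 16831128))))), by decide +kernel⟩

def k8_A00pm_213_s3 : ∃ t, chk3 f_A00pm_213_s3 t 12 29 1 = true :=
  ⟨(a (b (b (a (a (l 538320143) (l 538337807)) (a (l 538355727) (l 538373647))) (a (a (l 538301711) (l 538588175)) (a (a (l 538332687) (l 538341647)) (b (l 538359055) (l 538350351))))) (c (a (a (b (l 538399503) (l 538390799)) (b (l 538683919) (l 538811407))) (a (b (l 538435343) (l 538426895)) (b (l 538453263) (l 538445327)))) (a (b (a (l 538438927) (b (l 538191887) (c (l 538241039) (l 538124815)))) (a (b (l 538157327) (l 4)) (c (l 538232079) (b (l 538116111) (l 538108431))))) (a (b (b (l 538210063) (l 538201103)) (c (l 538250255) (b (l 538134287) (l 538126351)))) (b (a (l 538488335) (l 538229007)) (b (l 538211855) (l 538204943))))))) (b (b (a (c (l 16799080) (c (l 16796968) (l 16795552))) (c (l 16804312) (l 16800904))) (a (a (b (l 16793120) (l 538368527)) (b (l 16795488) (l 16793256))) (c (l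 16799408) (b (l 16797560) (l 16795384))))) (a (a (c (b (l 538471951) (l 538464015)) (b (a (l 538238479) (l 538247695)) (b (l 538230543) (l 538223631)))) (b (b (l 538379791) (l 538373135)) (c (l 538482959) (b (l 538249231) (l 538242319))))) (a (b (b (l 538398991) (l 538392335)) (c (l 538502159) (b (l 538268431) (l 538261519)))) (b (b (l 16795672) (l 538411791)) (c (l 538521871) (b (l 16790056) (l 538280719)))))))), by decide +kernel⟩

def k9_A00pm_213_s3 : ∃ t, chk3 f_A00pm_213_s3 t 13 29 1 = true :=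
  ⟨(b (b (a (a (c (l 16809616) (l 16805632)) (l 16812728)) (a (a (l 16816576) (l 16819160)) (l 16823032))) (a (a (b (l 16803976) (l 16801568)) (c (l 16809696) (l 16805584))) (a (b (l 16813928) (l 16811312)) (a (l 16816352) (l 16818896))))) (b (a (a (c (c (l 16800248) (l 16798760)) (b (l 16797600) (l 16795384))) (c (l 16804496) (c (l 16801792) (l 16799944)))) (a (c (l 16809528) (l 16805328)) (a (l 16811072) (b (l 16814792) (l 16812120))))) (c (c (c (a (a (l 16795440) (l 16800456)) (a (l 16805496) (l 16810592))) (a (a (l 16794848) (l 16799720)) (a (l 16804624) (l 16809600)))) (c (a (a (l 16794248) (l 16798968)) (a (l 16803736) (l 16808584))) (c (a (a (l 16793800) (l 16798408)) (a (l 16803064) (l 16807808))) (a (a (l 16793496) (l 16798024)) (a (l 16802608) (l 16807288)))))) (c (c (a (a (b (l 16794176) (l 16791896)) (l 16797448)) (a (l 16801920) (l 16806496))) (a (a (b (l 16793520) (l 16791320)) (l 16796680)) (a (l 16800992) (b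 (l 16806672) (l 16804104))))) (b (a (a (l 16792528) (l 16796600)) (a (l 16800728) (l 16804984))) (a (a (a (l 16789448) (l 16791416)) (l 16794400)) (a (l 16798432) (l 16802512)))))))), by decide +kernel⟩

def k10_A00pm_213_s3 : ∃ t, chk3 f_A00pm_213_s3 t 7 14 1 = true :=
  ⟨(a (b (a (b (l 16850088) (l 16839144)) (b (l 16861256) (l 16849952))) (a (b (a (l 16825480) (l 16830648)) (a (b (l 16817216) (a (b (l 16811808) (l 16809096)) (l 16812896))) (b (l 16822208) (l 16816544)))) (b (l 16838456) (a (l 16824288) (l 16829144))))) (a (a (b (b (l 16870328) (l 16858416)) (b (l 16846312) (l 16833936))) (b (l 16914096) (b (l 16852432) (a (l 16837664) (l 16840608))))) (b (b (l 16932080) (l 16876328)) (b (a (l 16859128) (l 16864488)) (a (l 16844872) (l 16849256)))))), by decide +kernel⟩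

def k11_A00pm_213_s3 : ∃ t, chk3 f_A00pm_213_s3 t 12 30 1 = true :=
  ⟨(a (b (b (a (l 4) (a (a (l 4) (b (l 538306063) (l 4))) (c (l 538439695) (b (l 538198799) (l 538193679))))) (l 4)) (l 4)) (b (c (a (a (b (l 538458383) (l 538455567)) (b (l 538477583) (l 538743311))) (a (b (l 538497039) (b (l 538493967) (l 538493455))) (b (l 538516751) (b (l 538513935) (l 538513423))))) (a (a (b (b (l 538217487) (l 538212111)) (b (l 538476303) (l 4))) (b (b (l 538236175) (l 538230799)) (a (b (l 538221583) (l 4)) (b (l 538231055) (l 538227727))))) (b (a (c (l 538852111) (b (l 538193423) (l 538187023))) (c (l 538871823) (b (l 538212367) (l 538206223)))) (a (a (b (l 538240527) (l 538237199)) (b (l 538249999) (l 538246671))) (a (b (l 538259727) (l 538256399)) (b (l 538269455) (l 538265871))))))) (b (a (l 4) (a (a (l 4) (b (a (l 538370063) (l 538375183)) (l 4))) (a (c (l 538509839) (b (l 538254095) (l 4))) (c (l 538520079) (b (l 538263567) (l 538262543))))))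 (l 4)))), by decide +kernel⟩

def k12_A00pm_213_s3 : ∃ t, chk3 f_A00pm_213_s3 t 26 30 1 = true :=
  ⟨(b (a (b (a (a (b (l 538411791) (l 538408207)) (b (l 538421775) (l 538418191))) (a (b (l 538432015) (l 538428431)) (b (l 538442255) (l 538438671)))) (a (a (c (l 538529551) (b (l 538279183) (l 538275855))) (c (l 538539791) (b (l 538289167) (l 538285583)))) (a (c (l 538550287) (b (l 538299151) (l 538295567))) (b (l 538436111) (l 538434319))))) (a (b (a (b (l 16792576) (l 538449167)) (b (l 16793664) (l 538459663))) (a (b (l 538446607) (l 538444815)) (b (l 538457103) (l 538455311)))) (b (c (c (l 16796008) (l 16794744)) (b (l 16793912) (l 16791664))) (a (b (l 538467855) (l 538466063)) (b (l 538478607) (l 538477071)))))) (a (a (a (b (c (l 538530319) (b (l 538273551) (l 538272271))) (l 4)) (b (c (l 538540815) (b (l 538283279) (l 538282255))) (a (l 4) (b (l 538416655) (l 4))))) (a (b (c (l 538819855) (b (l 538293263) (l 538292239)))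 (b (l 538692879) (l 4))) (b (b (l 538433551) (l 538433551)) (b (l 538434831) (l 4))))) (b (a (a (b (l 538444047) (l 538444303)) (b (l 538454543) (l 538454799))) (b (a (l 538465295) (l 538476303)) (a (l 538465551) (l 538476559)))) (b (c (a (l 538580495) (l 538602767)) (a (a (l 538312463) (l 538322703)) (a (l 538333199) (l 538343695)))) (a (a (l 538448143) (l 538458895)) (a (l 538469647) (b (l 538479375) (l 538480911)))))))), by decide +kernel⟩

def k13_A00pm_213_s3 : ∃ t, chk3 f_A00pm_213_s3 t 27 30 1 = true :=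
  ⟨(b (b (b (a (c (l 16800192) (l 16796992)) (l 16803048)) (a (c (l 16797544) (c (l 16795392) (l 16793912))) (c (l 16802160) (l 16798680)))) (c (a (b (l 16794896) (c (l 16792768) (l 16791704))) (a (l 16796904) (l 16799144))) (a (a (b (l 16791360) (c (l 16789616) (l 16788560))) (b (l 16793312) (l 16790984))) (b (l 16796256) (a (l 16792888) (l 16794800)))))) (a (b (a (b (a (l 538487311) (l 538498319)) (c (l 538623247) (b (l 16785136) (l 538359055)))) (b (a (l 538509839) (l 538789647)) (c (l 16787968) (c (l 16786776) (l 16785944))))) (a (a (b (c (l 538619663) (l 538354191)) (c (l 538623247) (l 538355983))) (b (c (l 538631183) (l 538364943)) (b (l 538501647) (l 538503183)))) (a (b (c (l 538642959) (l 538375695)) (c (l 538646543) (l 538377487))) (b (c (l 16785776) (l 538386703)) (c (l 538658575) (l 538388495)))))) (b (b (c (l 16793896) (a (l 16790520) (l 16792376))) (a (c (l 16790072) (c (l 16788648) (l 16787664))) (c (l 16792168)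 (l 16789960)))) (a (c (b (c (l 16787672) (l 16786944)) (b (l 16785240) (l 16783856))) (b (b (l 16786392) (l 16785216)) (b (l 16784032) (l 538405391)))) (b (c (l 16789360) (c (l 16788016) (l 16787080))) (c (c (l 16786864) (l 16786200)) (b (l 16785744) (l 16784536)))))))), by decide +kernel⟩

def k14_A00pm_213_s3 : ∃ t, chk3 f_A00pm_213_s3 t 14 30 1 = true :=
  ⟨(b (a (a (b (a (b (l 16806416) (l 16803704)) (b (l 16808672) (a (l 16805360) (l 16806456)))) (a (b (l 16801032) (l 16798368)) (b (a (l 16802624) (l 16803712)) (l 16800440)))) (b (a (l 16809656) (l 16812000)) (a (b (l 16805352) (a (c (l 16803840) (l 16800104)) (l 16803056))) (l 16806200)))) (a (b (l 16815488) (a (l 16808432) (l 16810640))) (b (l 16820056) (l 16813912)))) (a (b (b (a (a (l 16795704) (l 16797720)) (a (c (l 16801440) (b (l 16798648) (l 16797320))) (a (b (l 16801992) (l 16800552)) (l 16802360)))) (c (a (l 16795320) (a (l 16798448) (a (l 16800024) (l 16801072))))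 (a (c (l 16793360) (l 16791984)) (a (l 16795384) (a (l 16796760) (b (l 16798352) (l 16796992))))))) (c (a (b (c (l 16792952) (l 16791880)) (a (l 16788520) (l 16790496))) (a (b (l 16795464) (l 16792464)) (b (l 16797496) (l 16794424)))) (a (b (a (l 16789304) (l 16791048)) (a (c (l 16787272) (l 16786392)) (c (l 16789032) (l 16788008)))) (a (b (l 16792800) (l 16790216)) (b (b (l 16795216) (l 16793880)) (l 16791896)))))) (b (a (a (b (l 16803976) (l 16800984)) (l 16804584)) (l 16807672)) (a (a (b (a (b (a (l 16797960) (l 16798472)) (c (l 16798232) (l 16795192))) (l 16798472)) (b (a (l 16795280) (a (l 16795976) (l 16796440))) (c (l 16795584) (a (l 16792472) (l 16793320))))) (b (l 16799984) (a (b (l 16797184) (a (c (l 16796784) (l 16793936)) (l 16795880))) (l 16797376)))) (a (b (l 16801960) (l 16798808)) (l 16802280)))))), by decide +kernel⟩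

def k15_A00pm_213_s3 : ∃ t, chk3 f_A00pm_213_s3 t 15 30 1 = true :=
  ⟨(b (a (a (l 16821352) (a (l 16845536) (b (l 16830232) (l 16823320)))) (a (b (l 16833960) (l 16826600)) (b (l 16837552) (l 16829648)))) (a (a (b (l 16811648) (a (l 16804128) (l 16805920))) (b (a (l 16814496) (l 16816376)) (b (l 16810256) (l 16806744)))) (a (b (l 16819184) (a (b (l 16812792) (l 16809112)) (l 16812352))) (b (l 16821672) (l 16834608))))), by decide +kernel⟩

def k16_A00pm_213_s3 : ∃ t, chk3 f_A00pm_213_s3 t 6 31 1 = true :=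
  ⟨(a (l 4) (b (a (b (a (l 4) (b (a (l 4) (b (a (l 538471951) (l 538482959)) (l 4))) (l 4))) (l 4)) (b (a (b (b (a (c (l 538631951) (l 538363407)) (l 538791183)) (a (l 538502159) (l 538525199))) (b (a (l 538505231) (l 538528015)) (a (l 4) (l 538531343)))) (b (b (a (a (l 538540047) (l 538552079)) (a (l 538564111) (l 538576655))) (a (c (l 538682895) (l 538409231)) (a (l 538566671) (l 538578959)))) (b (a (c (l 538685711) (l 538680591)) (a (l 538569231) (l 538581775))) (a (c (l 538688783) (l 538683919)) (a (l 538572559) (l 538584847)))))) (a (l 4) (b (b (a (l 539363855) (c (l 538717967) (l 539784463))) (a (l 4) (a (l 538580495) (l 538592783)))) (a (l 4) (a (l 4) (b (l 538597647) (l 4)))))))) (l 4))), by decide +kernel⟩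

def k17_A00pm_213_s3 : ∃ t, chk3 f_A00pm_213_s3 t 14 124 1 = true :=
  ⟨(a (a (b (a (a (b (l 538589199) (l 538591503)) (b (l 16786120) (l 538604303))) (b (c (l 16788272) (l 16786624)) (c (l 16786784) (l 16785360)))) (a (a (b (l 538594319) (l 538597647)) (b (l 538607119) (l 538610447))) (c (b (l 16785288) (c (l 16784024) (l 16783552))) (b (c (l 16784400) (l 16783768)) (c (l 16783064) (l 16782552)))))) (c (a (b (l 16789432) (b (l 16787144) (l 16785616))) (b (l 16791328) (c (l 16788584) (l 16787816)))) (a (b (c (l 16788096) (l 16787144)) (b (l 16785672) (c (l 16784688) (l 16784032)))) (b (c (l 16789784) (l 16788688)) (b (l 16787240) (l 16785904)))))) (a (a (b (c (l 16793208) (c (l 16791464) (l 16790224))) (a (b (l 16789416) (l 16787928)) (b (l 16790256) (l 16788760)))) (b (a (b (a (l 16793896) (a (l 16794232) (l 16794448))) (l 16792608)) (b (l 16795032) (a (b (l 16793640) (l 16792872)) (b (l 16794088) (l 16793304))))) (c (b (l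 16792624) (l 16790984)) (b (a (l 16789960) (l 16790744)) (l 16788944))))) (b (a (c (l 16796952) (l 16794232)) (l 16797416)) (a (b (a (a (b (l 16792960) (a (l 16792072) (l 16792280))) (l 16793000)) (l 16793664)) (b (a (c (l 16792712) (a (l 16790232) (l 16790624))) (l 16792456)) (a (l 16790824) (a (c (l 16792520) (l 16790272)) (l 16791856))))) (c (l 16795328) (l 16792880)))))), by decide +kernel⟩

def k18_A00pm_213_s3 : ∃ t, chk3 f_A00pm_213_s3 t 28 125 1 = true :=
  ⟨(a (b (a (a (b (l 538601231) (l 538605327)) (b (l 538614031) (l 538618127))) (a (b (l 538627087) (l 538631183)) (b (l 538640655) (l 539181583)))) (b (b (a (c (l 538750991) (l 539010575)) (a (l 538634511) (l 538647823))) (a (c (l 538753295) (l 539282191)) (a (l 538636815) (l 538650127)))) (b (a (c (l 538755599) (l 539285519)) (a (l 538639631) (l 538652943))) (a (l 4) (a (l 538642447) (l 538655759)))))) (b (b (a (a (c (l 16783624) (l 16782672)) (c (l 16784512) (l 16783432)))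 (c (l 16785840) (c (l 16784896) (l 16784224)))) (a (a (c (l 538797327) (l 538512655)) (a (l 538668559) (l 538675727))) (a (a (l 538682895) (l 538690063)) (b (l 16784520) (l 16783776))))) (a (b (a (c (l 538801423) (l 538786319)) (a (l 538673167) (l 538680335))) (a (c (l 538805775) (l 539329295)) (a (l 538678287) (l 538685455)))) (c (a (b (l 538831887) (l 539104527)) (b (l 16783080) (l 540194063))) (b (c (a (l 16781688) (l 16782440)) (b (l 16781976) (l 16781328))) (a (b (l 538547471) (l 538550543)) (b (l 16781192) (l 538563855)))))))), by decide +kernel⟩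

def k19_A00pm_213_s3 : ∃ t, chk3 f_A00pm_213_s3 t 29 250 1 = true :=
  ⟨(c (a (a (b (l 16787600) (l 16785976)) (b (l 16789328) (l 16787664))) (a (b (a (l 16790608) (b (a (l 16791672) (l 16792096)) (l 16791032))) (l 16789328)) (a (b (l 16792304) (b (a (l 16790792) (l 16791200)) (a (l 16789920) (l 16790328)))) (l 16792248)))) (b (a (a (l 16786056) (c (l 16788000) (l 16787056))) (a (a (l 16788624) (a (b (l 16789544) (l 16788808)) (b (l 16789912) (a (l 16789072) (l 16789256))))) (a (a (l 16789928) (l 16790336)) (l 16790936)))) (c (a (a (l 16785016) (l 16786520)) (a (l 16788008) (a (b (a (l 16789312) (l 16789696)) (a (l 16788528) (l 16788896))) (l 16789880)))) (a (a (l 16784336) (l 16785704)) (a (l 16787056) (a (b (a (a (l 16788160) (l 16788336)) (l 16788624)) (a (l 16787536) (a (l 16787792) (l 16787960)))) (l 16788816))))))), by decide +kernel⟩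

def k20_A00pm_213_s3 : ∃ t, chk3 f_A00pm_213_s3 t 29 251 1 = true :=
  ⟨(c (b (a (a (c (l 16784584) (l 16784088)) (c (l 16786288) (l 16785680))) (a (l 16787616) (a (l 16788808) (b (a (l 16789848) (l 16790240)) (a (l 16788960) (l 16789344)))))) (c (a (a (c (l 16782976) (l 16782792)) (l 16784544)) (a (l 16786184) (b (l 16788240) (l 16787320)))) (a (a (a (l 16782112) (l 16782896)) (l 16784056)) (a (l 16785576) (b (l 16787504) (l 16786640)))))) (b (b (a (a (l 16783640) (l 16785056)) (a (l 16786440) (a (l 16787472) (a (a (b (l 16788080) (l 16787704)) (l 16788072)) (l 16788360))))) (a (a (c (l 16783200) (l 16782680)) (l 16784336)) (a (l 16785712) (a (l 16786720) (a (l 16787224) (a (b (l 16787664) (l 16787280)) (l 16787648))))))) (b (a (a (c (l 16782464) (l 16782016)) (c (l 16783912) (l 16783328))) (a (c (l 16785328) (l 16784616)) (a (l 16785968) (a (l 16786464) (b (l 16786984) (l 16786592)))))) (a (a (c (l 16781736) (l 16781344))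 (c (l 16783160) (l 16782648))) (a (c (l 16784552) (l 16783920)) (c (l 16785920) (l 16785152))))))), by decide +kernel⟩

def k21_A00pm_213_s3 : ∃ t, chk3 f_A00pm_213_s3 t 15 62 1 = true :=
  ⟨(b (a (a (b (l 16800000) (a (l 16795792) (l 16797376))) (b (l 16803208) (l 16799624))) (a (a (b (l 16805408) (l 16801680)) (l 16804688)) (b (l 16807592) (l 16824528)))) (a (b (a (a (c (l 16793448) (l 16791296)) (l 16793904)) (a (l 16795328) (l 16796664))) (a (a (b (a (c (l 16790368) (l 16788512)) (l 16790200)) (b (a (a (a (b (l 16788120) (l 16787696)) (l 16788096)) (l 16788368)) (l 16788904)) (a (c (a (l 16787928) (l 16788296)) (a (b (a (l 16786448) (l 16786616)) (l 16786144)) (b (l 16786872) (a (l 16786384) (l 16786552))))) (l 16788032)))) (c (l 16791272) (b (l 16790280) (l 16788616)))) (a (c (l 16792624) (l 16790752)) (l 16792952)))) (a (a (b (l 16797904) (l 16794096)) (b (l 16798920) (b (l 16796016) (a (l 16793880) (l 16794208))))) (a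 (b (l 16799432) (l 16795448)) (a (l 16797496) (l 16797864)))))), by decide +kernel⟩

def k22_A00pm_213_s3 : ∃ t, chk3 f_A00pm_213_s3 t 14 126 1 = true :=
  ⟨(a (a (b (a (l 4) (b (a (l 4) (c (l 538796047) (l 539056143))) (l 4))) (l 4)) (b (a (a (b (a (l 538670607) (l 538677263)) (l 4)) (b (b (l 538685967) (l 538689039)) (b (l 538692623) (l 4)))) (c (b (a (l 539646223) (b (l 538855183) (l 538857487))) (a (b (l 538844175) (l 538846735)) (b (l 538860047) (l 538862351)))) (b (b (a (l 538554127) (l 538567183)) (a (l 538557967) (l 538571023))) (b (a (l 538562319) (l 538575119)) (a (l 538566927) (l 538579727)))))) (a (l 4) (b (a (l 4) (b (c (l 538864911) (l 538584591)) (l 4))) (l 4))))) (a (b (a (a (b (c (b (l 16781056) (l 538873871)) (b (l 539117583) (l 539121423))) (b (c (l 538876175) (l 539393807)) (c (l 538878735) (l 539398159)))) (a (b (b (l 538741007) (l 538744079)) (b (l 538747151) (l 538750479))) (b (b (l 538748943) (l 538751759))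 (b (l 538754831) (l 538758159))))) (b (a (b (c (l 16782640) (l 16781848)) (c (l 16781792) (l 16781128))) (c (c (l 16783192) (l 16782792)) (b (l 16782512) (l 16781784)))) (b (a (a (l 538762767) (l 538770959)) (a (l 538778895) (l 14))) (a (a (l 538766095) (l 538774031)) (l 14))))) (a (b (a (b (c (l 538881039) (l 539671567)) (c (l 538883599) (l 539945231))) (a (b (l 538753807) (l 538757647)) (b (l 538761743) (l 538765327)))) (a (l 4) (a (a (l 4) (l 14)) (l 14)))) (b (b (a (a (l 538769423) (l 14)) (l 14)) (l 14)) (l 14)))) (b (b (b (b (a (c (l 16784800) (l 16783688)) (a (l 16785312) (l 16786008))) (l 14)) (l 14)) (l 14)) (l 14)))), by decide +kernel⟩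

def k23_A00pm_213_s3 : ∃ t, chk3 f_A00pm_213_s3 t 15 126 1 = true :=
  ⟨(a (b (b (b (b (a (a (a (c (l 16787424) (a (l 16785760) (a (l 16785992) (l 16786152)))) (l 16787384)) (a (l 16788064) (l 16788720))) (a (l 16789664) (l 16790840))) (l 14)) (l 14)) (l 14)) (l 14)) (b (b (a (a (l 16791192) (a (l 16791912) (l 16792256))) (a (l 16792464) (l 16792536))) (l 14)) (l 14))), by decide +kernel⟩

def k24_A00pm_213_s3 : ∃ t, chk3 f_A00pm_213_s3 t 7 127 1 = true :=
  ⟨(a (a (l 4) (a (a (l 4) (l 14)) (l 14))) (l 14)), by decide +kernel⟩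

theorem t25_A00pm_213_s3 : ∃ t, chk3 f_A00pm_213_s3 t 7 126 1 = true := ex3_a k22_A00pm_213_s3 k23_A00pm_213_s3

theorem t26_A00pm_213_s3 : ∃ t, chk3 f_A00pm_213_s3 t 7 63 1 = true := ex3_b t25_A00pm_213_s3 k24_A00pm_213_s3

theorem t27_A00pm_213_s3 : ∃ t, chk3 f_A00pm_213_s3 t 29 125 1 = true := ex3_b k19_A00pm_213_s3 k20_A00pm_213_s3

theorem t28_A00pm_213_s3 : ∃ t, chk3 f_A00pm_213_s3 t 14 125 1 = true := ex3_a k18_A00pm_213_s3 t27_A00pm_213_s3

theorem t29_A00pm_213_s3 : ∃ t, chk3 f_A00pm_213_s3 t 14 62 1 = true := ex3_b k17_A00pm_213_s3 t28_A00pm_213_s3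

theorem t30_A00pm_213_s3 : ∃ t, chk3 f_A00pm_213_s3 t 7 62 1 = true := ex3_a t29_A00pm_213_s3 k21_A00pm_213_s3

theorem t31_A00pm_213_s3 : ∃ t, chk3 f_A00pm_213_s3 t 7 31 1 = true := ex3_b t30_A00pm_213_s3 t26_A00pm_213_s3

theorem t32_A00pm_213_s3 : ∃ t, chk3 f_A00pm_213_s3 t 3 31 1 = true := ex3_a k16_A00pm_213_s3 t31_A00pm_213_s3

theorem t33_A00pm_213_s3 : ∃ t, chk3 f_A00pm_213_s3 t 7 30 1 = true := ex3_a k14_A00pm_213_s3 k15_A00pm_213_s3

theorem t34_A00pm_213_s3 : ∃ t, chk3 f_A00pm_213_s3 t 13 30 1 = true := ex3_a k12_A00pm_213_s3 k13_A00pm_213_s3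

theorem t35_A00pm_213_s3 : ∃ t, chk3 f_A00pm_213_s3 t 6 30 1 = true := ex3_a k11_A00pm_213_s3 t34_A00pm_213_s3

theorem t36_A00pm_213_s3 : ∃ t, chk3 f_A00pm_213_s3 t 3 30 1 = true := ex3_a t35_A00pm_213_s3 t33_A00pm_213_s3

theorem t37_A00pm_213_s3 : ∃ t, chk3 f_A00pm_213_s3 t 3 15 1 = true := ex3_b t36_A00pm_213_s3 t32_A00pm_213_s3

theorem t38_A00pm_213_s3 : ∃ t, chk3 f_A00pm_213_s3 t 6 29 1 = true := ex3_a k8_A00pm_213_s3 k9_A00pm_213_s3

theorem t39_A00pm_213_s3 : ∃ t, chk3 f_A00pm_213_s3 t 6 14 1 = true := ex3_b k7_A00pm_213_s3 t38_A00pm_213_s3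

theorem t40_A00pm_213_s3 : ∃ t, chk3 f_A00pm_213_s3 t 3 14 1 = true := ex3_a t39_A00pm_213_s3 k10_A00pm_213_s3

theorem t41_A00pm_213_s3 : ∃ t, chk3 f_A00pm_213_s3 t 3 7 1 = true := ex3_b t40_A00pm_213_s3 t37_A00pm_213_s3

theorem t42_A00pm_213_s3 : ∃ t, chk3 f_A00pm_213_s3 t 3 6 1 = true := ex3_a k5_A00pm_213_s3 k6_A00pm_213_s3

theorem t43_A00pm_213_s3 : ∃ t, chk3 f_A00pm_213_s3 t 3 3 1 = true := ex3_b t42_A00pm_213_s3 t41_A00pm_213_s3

theorem t44_A00pm_213_s3 : ∃ t, chk3 f_A00pm_213_s3 t 3 1 1 = true := ex3_b k4_A00pm_213_s3 t43_A00pm_213_s3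

theorem t45_A00pm_213_s3 : ∃ t, chk3 f_A00pm_213_s3 t 2 6 1 = true := ex3_a k1_A00pm_213_s3 k2_A00pm_213_s3

theorem t46_A00pm_213_s3 : ∃ t, chk3 f_A00pm_213_s3 t 2 3 1 = true := ex3_b t45_A00pm_213_s3 k3_A00pm_213_s3

theorem t47_A00pm_213_s3 : ∃ t, chk3 f_A00pm_213_s3 t 2 1 1 = true := ex3_b k0_A00pm_213_s3 t46_A00pm_213_s3

theorem t48_A00pm_213_s3 : ∃ t, chk3 f_A00pm_213_s3 t 1 1 1 = true := ex3_a t47_A00pm_213_s3 t44_A00pm_213_s3

theorem c_A00pm_213_s3 : CertF 0 536870912 536870912 536870912 469762048 67108864 true true false .pnn 2 1 3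
    ndF0q2 ndF0q1 pcF3 cut_A00pm_213_s3 xt_A00pm_213_s3 :=
  certF1 (fam := true) (s1 := true) (s2 := false) (a := 2) (b := 1) (c := 3) (cn := .pnn) (n1 := ndF0q2) (n2 := ndF0q1) (pc := pcF3) (cut := cut_A00pm_213_s3) (xt := xt_A00pm_213_s3) (P1 := 0) (W1 := 536870912) (P2 := 536870912) (W2 := 536870912) (P3 := 469762048) (W3 := 67108864)
    rfl (fun _ => rfl) t48_A00pm_213_s3

theorem s_A00pm_213_s3 {κ x : ℝ} (hκ : κ * h0 = ken x) (hx : ((469762048 : ℕ) : ℝ) / S ≤ x)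
    (hx' : x ≤ (((469762048 : ℕ) : ℝ) + (67108864 : ℕ)) / S)
    (H : CutA (VF κ) PP tKF tL pcF (Cut.of [[⟨0, 1, 0, 67108864⟩, ⟨1, 1, 0, 67108864⟩, ⟨2, 2, 0, 16777216⟩], [⟨0, 1, 0, 33554432⟩, ⟨1, 0, 1, 33554432⟩, ⟨2, 1, 1, 33554432⟩]]) 2 1 3 0 0 (sgb true) (sgb false) x) :
    AltA (VF κ) PP tKF tL pcF [⟨4, 0, 0, 2845415833⟩] 2 1 3 0 0 (sgb true) (sgb false) x :=
  strip_altA (m := 2845415833) false rfl hκ covF02 covF01 hx hx' c_A00pm_213_s3 H ((okx hx hx').extA (T := tt) (sideF hx hx') hκ rfl rfl (.O 2 true) (.O 1 false) (Or.inr rfl))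

noncomputable def cut_A00mm_001_s1 : Cut := Cut.of [[⟨4, 0, 0, 1449551462⟩]]

noncomputable def f_A00mm_001_s1 : ℕ → ℕ → ℕ → ℕ → Bool := onCell 0 536870912 0 536870912 469762048 67108864
    (rowF 0 true false false .up 0 0 1 (qsf 0 536870912 0 536870912 1) ndF0q0 ndF0q0 pcF1 cut_A00mm_001_s1 Ext.none)

def k0_A00mm_001_s1 : ∃ t, chk3 f_A00mm_001_s1 t 1 1 1 = true :=
  ⟨(l 4), by decide +kernel⟩

theorem c_A00mm_001_s1 : CertF 0 536870912 0 536870912 469762048 67108864 true false false .up 0 0 1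
    ndF0q0 ndF0q0 pcF1 cut_A00mm_001_s1 Ext.none :=
  certF0 (fam := true) (s1 := false) (s2 := false) (a := 0) (b := 0) (c := 1) (cn := .up) (n1 := ndF0q0) (n2 := ndF0q0) (pc := pcF1) (cut := cut_A00mm_001_s1) (xt := Ext.none) (P1 := 0) (W1 := 536870912) (P2 := 0) (W2 := 536870912) (P3 := 469762048) (W3 := 67108864)
    rfl k0_A00mm_001_s1

theorem s_A00mm_001_s1 {κ x : ℝ} (hκ : κ * h0 = ken x) (hx : ((469762048 : ℕ) : ℝ) / S ≤ x)
    (hx' : x ≤ (((469762048 : ℕ) : ℝ) + (67108864 : ℕ)) / S) :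
    AltA (VF κ) PP tKF tL pcF [⟨3, 0, 0, 1449551462⟩] 0 0 1 0 0 (sgb false) (sgb false) x :=
  strip_altA (m := 1449551462) true rfl hκ covF00 covF00 hx hx' c_A00mm_001_s1 cutA_nil (noExt_A)

noncomputable def cut_A00mm_001_s3 : Cut := Cut.of [[⟨3, 0, 0, 2845415833⟩]]

noncomputable def f_A00mm_001_s3 : ℕ → ℕ → ℕ → ℕ → Bool := onCell 0 536870912 0 536870912 469762048 67108864
    (rowF 0 true false false .up 0 0 1 (qsf 0 536870912 0 536870912 1) ndF0q0 ndF0q0 pcF1 cut_A00mm_001_s3 Ext.none)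

def k0_A00mm_001_s3 : ∃ t, chk3 f_A00mm_001_s3 t 1 1 1 = true :=
  ⟨(l 4), by decide +kernel⟩

theorem c_A00mm_001_s3 : CertF 0 536870912 0 536870912 469762048 67108864 true false false .up 0 0 1
    ndF0q0 ndF0q0 pcF1 cut_A00mm_001_s3 Ext.none :=
  certF0 (fam := true) (s1 := false) (s2 := false) (a := 0) (b := 0) (c := 1) (cn := .up) (n1 := ndF0q0) (n2 := ndF0q0) (pc := pcF1) (cut := cut_A00mm_001_s3) (xt := Ext.none) (P1 := 0) (W1 := 536870912) (P2 := 0) (W2 := 536870912) (P3 := 469762048) (W3 := 67108864)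
    rfl k0_A00mm_001_s3

theorem s_A00mm_001_s3 {κ x : ℝ} (hκ : κ * h0 = ken x) (hx : ((469762048 : ℕ) : ℝ) / S ≤ x)
    (hx' : x ≤ (((469762048 : ℕ) : ℝ) + (67108864 : ℕ)) / S) :
    AltA (VF κ) PP tKF tL pcF [⟨4, 0, 0, 2845415833⟩] 0 0 1 0 0 (sgb false) (sgb false) x :=
  strip_altA (m := 2845415833) false rfl hκ covF00 covF00 hx hx' c_A00mm_001_s3 cutA_nil (noExt_A)

noncomputable def cut_A00mm_011_s1 : Cut := Cut.of [[⟨4, 0, 0, 1449551462⟩]]

noncomputable def f_A00mm_011_s1 : ℕ → ℕ → ℕ → ℕ → Bool := onCell 0 536870912 536870912 536870912 469762048 67108864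
    (rowF 0 true false false .pnn 0 1 1 (qsf 0 536870912 536870912 536870912 1) ndF0q0 ndF0q1 pcF1 cut_A00mm_011_s1 Ext.none)

def k0_A00mm_011_s1 : ∃ t, chk3 f_A00mm_011_s1 t 1 1 1 = true :=
  ⟨(l 6), by decide +kernel⟩

theorem c_A00mm_011_s1 : CertF 0 536870912 536870912 536870912 469762048 67108864 true false false .pnn 0 1 1
    ndF0q0 ndF0q1 pcF1 cut_A00mm_011_s1 Ext.none :=
  certF0 (fam := true) (s1 := false) (s2 := false) (a := 0) (b := 1) (c := 1) (cn := .pnn) (n1 := ndF0q0) (n2 := ndF0q1) (pc := pcF1) (cut := cut_A00mm_011_s1) (xt := Ext.none) (P1 := 0) (W1 := 536870912) (P2 := 536870912) (W2 := 536870912) (P3 := 469762048) (W3 := 67108864)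
    rfl k0_A00mm_011_s1

theorem s_A00mm_011_s1 {κ x : ℝ} (hκ : κ * h0 = ken x) (hx : ((469762048 : ℕ) : ℝ) / S ≤ x)
    (hx' : x ≤ (((469762048 : ℕ) : ℝ) + (67108864 : ℕ)) / S) :
    AltA (VF κ) PP tKF tL pcF [⟨3, 0, 0, 1449551462⟩] 0 1 1 0 0 (sgb false) (sgb false) x :=
  strip_altA (m := 1449551462) true rfl hκ covF00 covF01 hx hx' c_A00mm_011_s1 cutA_nil (noExt_A)

noncomputable def cut_A00mm_011_s3 : Cut := Cut.of [[⟨3, 0, 0, 2845415833⟩]]

noncomputable def f_A00mm_011_s3 : ℕ → ℕ → ℕ → ℕ → Bool := onCell 0 536870912 536870912 536870912 469762048 67108864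
    (rowF 0 true false false .pnn 0 1 1 (qsf 0 536870912 536870912 536870912 1) ndF0q0 ndF0q1 pcF1 cut_A00mm_011_s3 Ext.none)

def k0_A00mm_011_s3 : ∃ t, chk3 f_A00mm_011_s3 t 1 1 1 = true :=
  ⟨(a (l 5) (l 4)), by decide +kernel⟩

theorem c_A00mm_011_s3 : CertF 0 536870912 536870912 536870912 469762048 67108864 true false false .pnn 0 1 1
    ndF0q0 ndF0q1 pcF1 cut_A00mm_011_s3 Ext.none :=
  certF0 (fam := true) (s1 := false) (s2 := false) (a := 0) (b := 1) (c := 1) (cn := .pnn) (n1 := ndF0q0) (n2 := ndF0q1) (pc := pcF1) (cut := cut_A00mm_011_s3) (xt := Ext.none) (P1 := 0) (W1 := 536870912) (P2 := 536870912) (W2 := 536870912) (P3 := 469762048) (W3 := 67108864)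
    rfl k0_A00mm_011_s3

theorem s_A00mm_011_s3 {κ x : ℝ} (hκ : κ * h0 = ken x) (hx : ((469762048 : ℕ) : ℝ) / S ≤ x)
    (hx' : x ≤ (((469762048 : ℕ) : ℝ) + (67108864 : ℕ)) / S) :
    AltA (VF κ) PP tKF tL pcF [⟨4, 0, 0, 2845415833⟩] 0 1 1 0 0 (sgb false) (sgb false) x :=
  strip_altA (m := 2845415833) false rfl hκ covF00 covF01 hx hx' c_A00mm_011_s3 cutA_nil (noExt_A)

noncomputable def cut_A00mm_012_s1 : Cut := Cut.of [[⟨4, 0, 0, 1449551462⟩]]

noncomputable def f_A00mm_012_s1 : ℕ → ℕ → ℕ → ℕ → Bool := onCell 0 536870912 536870912 536870912 469762048 67108864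
    (rowF 0 true false false .pnp 0 1 2 (qsf 0 536870912 536870912 536870912 2) ndF0q0 ndF0q1 pcF2 cut_A00mm_012_s1 Ext.none)

def k0_A00mm_012_s1 : ∃ t, chk3 f_A00mm_012_s1 t 1 1 1 = true :=
  ⟨(l 6), by decide +kernel⟩

theorem c_A00mm_012_s1 : CertF 0 536870912 536870912 536870912 469762048 67108864 true false false .pnp 0 1 2
    ndF0q0 ndF0q1 pcF2 cut_A00mm_012_s1 Ext.none :=
  certF0 (fam := true) (s1 := false) (s2 := false) (a := 0) (b := 1) (c := 2) (cn := .pnp) (n1 := ndF0q0) (n2 := ndF0q1) (pc := pcF2) (cut := cut_A00mm_012_s1) (xt := Ext.none) (P1 := 0) (W1 := 536870912) (P2 := 536870912) (W2 := 536870912) (P3 := 469762048) (W3 := 67108864)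
    rfl k0_A00mm_012_s1

theorem s_A00mm_012_s1 {κ x : ℝ} (hκ : κ * h0 = ken x) (hx : ((469762048 : ℕ) : ℝ) / S ≤ x)
    (hx' : x ≤ (((469762048 : ℕ) : ℝ) + (67108864 : ℕ)) / S) :
    AltA (VF κ) PP tKF tL pcF [⟨3, 0, 0, 1449551462⟩] 0 1 2 0 0 (sgb false) (sgb false) x :=
  strip_altA (m := 1449551462) true rfl hκ covF00 covF01 hx hx' c_A00mm_012_s1 cutA_nil (noExt_A)

noncomputable def cut_A00mm_012_s3 : Cut := Cut.of [[⟨3, 0, 0, 2845415833⟩]]

noncomputable def f_A00mm_012_s3 : ℕ → ℕ → ℕ → ℕ → Bool := onCell 0 536870912 536870912 536870912 469762048 67108864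
    (rowF 0 true false false .pnp 0 1 2 (qsf 0 536870912 536870912 536870912 2) ndF0q0 ndF0q1 pcF2 cut_A00mm_012_s3 Ext.none)

def k0_A00mm_012_s3 : ∃ t, chk3 f_A00mm_012_s3 t 1 1 1 = true :=
  ⟨(b (l 4) (l 5)), by decide +kernel⟩

theorem c_A00mm_012_s3 : CertF 0 536870912 536870912 536870912 469762048 67108864 true false false .pnp 0 1 2
    ndF0q0 ndF0q1 pcF2 cut_A00mm_012_s3 Ext.none :=
  certF0 (fam := true) (s1 := false) (s2 := false) (a := 0) (b := 1) (c := 2) (cn := .pnp) (n1 := ndF0q0) (n2 := ndF0q1) (pc := pcF2) (cut := cut_A00mm_012_s3) (xt := Ext.none) (P1 := 0) (W1 := 536870912) (P2 := 536870912) (W2 := 536870912) (P3 := 469762048) (W3 := 67108864)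
    rfl k0_A00mm_012_s3

theorem s_A00mm_012_s3 {κ x : ℝ} (hκ : κ * h0 = ken x) (hx : ((469762048 : ℕ) : ℝ) / S ≤ x)
    (hx' : x ≤ (((469762048 : ℕ) : ℝ) + (67108864 : ℕ)) / S) :
    AltA (VF κ) PP tKF tL pcF [⟨4, 0, 0, 2845415833⟩] 0 1 2 0 0 (sgb false) (sgb false) x :=
  strip_altA (m := 2845415833) false rfl hκ covF00 covF01 hx hx' c_A00mm_012_s3 cutA_nil (noExt_A)

noncomputable def cut_A00mm_022_s1 : Cut := Cut.of [[⟨4, 0, 0, 1449551462⟩]]

noncomputable def f_A00mm_022_s1 : ℕ → ℕ → ℕ → ℕ → Bool := onCell 0 536870912 0 536870912 469762048 67108864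
    (rowF 0 true false false .pp 0 2 2 (qsf 0 536870912 0 536870912 2) ndF0q0 ndF0q2 pcF2 cut_A00mm_022_s1 Ext.none)

def k0_A00mm_022_s1 : ∃ t, chk3 f_A00mm_022_s1 t 1 1 1 = true :=
  ⟨(l 5), by decide +kernel⟩

theorem c_A00mm_022_s1 : CertF 0 536870912 0 536870912 469762048 67108864 true false false .pp 0 2 2
    ndF0q0 ndF0q2 pcF2 cut_A00mm_022_s1 Ext.none :=
  certF0 (fam := true) (s1 := false) (s2 := false) (a := 0) (b := 2) (c := 2) (cn := .pp) (n1 := ndF0q0) (n2 := ndF0q2) (pc := pcF2) (cut := cut_A00mm_022_s1) (xt := Ext.none) (P1 := 0) (W1 := 536870912) (P2 := 0) (W2 := 536870912) (P3 := 469762048) (W3 := 67108864)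
    rfl k0_A00mm_022_s1

theorem s_A00mm_022_s1 {κ x : ℝ} (hκ : κ * h0 = ken x) (hx : ((469762048 : ℕ) : ℝ) / S ≤ x)
    (hx' : x ≤ (((469762048 : ℕ) : ℝ) + (67108864 : ℕ)) / S) :
    AltA (VF κ) PP tKF tL pcF [⟨3, 0, 0, 1449551462⟩] 0 2 2 0 0 (sgb false) (sgb false) x :=
  strip_altA (m := 1449551462) true rfl hκ covF00 covF02 hx hx' c_A00mm_022_s1 cutA_nil (noExt_A)

noncomputable def cut_A00mm_022_s3 : Cut := Cut.of [[⟨3, 0, 0, 2845415833⟩]]

noncomputable def f_A00mm_022_s3 : ℕ → ℕ → ℕ → ℕ → Bool := onCell 0 536870912 0 536870912 469762048 67108864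
    (rowF 0 true false false .pp 0 2 2 (qsf 0 536870912 0 536870912 2) ndF0q0 ndF0q2 pcF2 cut_A00mm_022_s3 Ext.none)

def k0_A00mm_022_s3 : ∃ t, chk3 f_A00mm_022_s3 t 1 1 1 = true :=
  ⟨(l 5), by decide +kernel⟩

theorem c_A00mm_022_s3 : CertF 0 536870912 0 536870912 469762048 67108864 true false false .pp 0 2 2
    ndF0q0 ndF0q2 pcF2 cut_A00mm_022_s3 Ext.none :=
  certF0 (fam := true) (s1 := false) (s2 := false) (a := 0) (b := 2) (c := 2) (cn := .pp) (n1 := ndF0q0) (n2 := ndF0q2) (pc := pcF2) (cut := cut_A00mm_022_s3) (xt := Ext.none) (P1 := 0) (W1 := 536870912) (P2 := 0) (W2 := 536870912) (P3 := 469762048) (W3 := 67108864)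
    rfl k0_A00mm_022_s3

theorem s_A00mm_022_s3 {κ x : ℝ} (hκ : κ * h0 = ken x) (hx : ((469762048 : ℕ) : ℝ) / S ≤ x)
    (hx' : x ≤ (((469762048 : ℕ) : ℝ) + (67108864 : ℕ)) / S) :
    AltA (VF κ) PP tKF tL pcF [⟨4, 0, 0, 2845415833⟩] 0 2 2 0 0 (sgb false) (sgb false) x :=
  strip_altA (m := 2845415833) false rfl hκ covF00 covF02 hx hx' c_A00mm_022_s3 cutA_nil (noExt_A)

noncomputable def cut_A00mm_023_s1 : Cut := Cut.of [[⟨4, 0, 0, 1449551462⟩]]

noncomputable def f_A00mm_023_s1 : ℕ → ℕ → ℕ → ℕ → Bool := onCell 0 536870912 0 536870912 469762048 67108864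
    (rowF 0 true false false .up 0 2 3 (qsf 0 536870912 0 536870912 3) ndF0q0 ndF0q2 pcF3 cut_A00mm_023_s1 Ext.none)

def k0_A00mm_023_s1 : ∃ t, chk3 f_A00mm_023_s1 t 1 1 1 = true :=
  ⟨(l 5), by decide +kernel⟩

theorem c_A00mm_023_s1 : CertF 0 536870912 0 536870912 469762048 67108864 true false false .up 0 2 3
    ndF0q0 ndF0q2 pcF3 cut_A00mm_023_s1 Ext.none :=
  certF0 (fam := true) (s1 := false) (s2 := false) (a := 0) (b := 2) (c := 3) (cn := .up) (n1 := ndF0q0) (n2 := ndF0q2) (pc := pcF3) (cut := cut_A00mm_023_s1) (xt := Ext.none) (P1 := 0) (W1 := 536870912) (P2 := 0) (W2 := 536870912) (P3 := 469762048) (W3 := 67108864)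
    rfl k0_A00mm_023_s1

theorem s_A00mm_023_s1 {κ x : ℝ} (hκ : κ * h0 = ken x) (hx : ((469762048 : ℕ) : ℝ) / S ≤ x)
    (hx' : x ≤ (((469762048 : ℕ) : ℝ) + (67108864 : ℕ)) / S) :
    AltA (VF κ) PP tKF tL pcF [⟨3, 0, 0, 1449551462⟩] 0 2 3 0 0 (sgb false) (sgb false) x :=
  strip_altA (m := 1449551462) true rfl hκ covF00 covF02 hx hx' c_A00mm_023_s1 cutA_nil (noExt_A)

noncomputable def cut_A00mm_023_s3 : Cut := Cut.of [[⟨3, 0, 0, 2845415833⟩]]

noncomputable def f_A00mm_023_s3 : ℕ → ℕ → ℕ → ℕ → Bool := onCell 0 536870912 0 536870912 469762048 67108864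
    (rowF 0 true false false .up 0 2 3 (qsf 0 536870912 0 536870912 3) ndF0q0 ndF0q2 pcF3 cut_A00mm_023_s3 Ext.none)

def k0_A00mm_023_s3 : ∃ t, chk3 f_A00mm_023_s3 t 1 1 1 = true :=
  ⟨(l 5), by decide +kernel⟩

theorem c_A00mm_023_s3 : CertF 0 536870912 0 536870912 469762048 67108864 true false false .up 0 2 3
    ndF0q0 ndF0q2 pcF3 cut_A00mm_023_s3 Ext.none :=
  certF0 (fam := true) (s1 := false) (s2 := false) (a := 0) (b := 2) (c := 3) (cn := .up) (n1 := ndF0q0) (n2 := ndF0q2) (pc := pcF3) (cut := cut_A00mm_023_s3) (xt := Ext.none) (P1 := 0) (W1 := 536870912) (P2 := 0) (W2 := 536870912) (P3 := 469762048) (W3 := 67108864)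
    rfl k0_A00mm_023_s3

theorem s_A00mm_023_s3 {κ x : ℝ} (hκ : κ * h0 = ken x) (hx : ((469762048 : ℕ) : ℝ) / S ≤ x)
    (hx' : x ≤ (((469762048 : ℕ) : ℝ) + (67108864 : ℕ)) / S) :
    AltA (VF κ) PP tKF tL pcF [⟨4, 0, 0, 2845415833⟩] 0 2 3 0 0 (sgb false) (sgb false) x :=
  strip_altA (m := 2845415833) false rfl hκ covF00 covF02 hx hx' c_A00mm_023_s3 cutA_nil (noExt_A)

noncomputable def cut_A00mm_101_s1 : Cut := Cut.of [[⟨4, 0, 0, 1449551462⟩], [⟨0, 1, 0, 67108864⟩, ⟨1, 0, 0, 67108864⟩, ⟨2, 1, 0, 67108864⟩]]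

noncomputable def f_A00mm_101_s1 : ℕ → ℕ → ℕ → ℕ → Bool := onCell 536870912 536870912 0 536870912 469762048 67108864
    (rowF 0 true false false .npn 1 0 1 (qsf 536870912 536870912 0 536870912 1) ndF0q1 ndF0q0 pcF1 cut_A00mm_101_s1 Ext.none)

def k0_A00mm_101_s1 : ∃ t, chk3 f_A00mm_101_s1 t 1 1 1 = true :=
  ⟨(l 6), by decide +kernel⟩

theorem c_A00mm_101_s1 : CertF 536870912 536870912 0 536870912 469762048 67108864 true false false .npn 1 0 1
    ndF0q1 ndF0q0 pcF1 cut_A00mm_101_s1 Ext.none :=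
  certF0 (fam := true) (s1 := false) (s2 := false) (a := 1) (b := 0) (c := 1) (cn := .npn) (n1 := ndF0q1) (n2 := ndF0q0) (pc := pcF1) (cut := cut_A00mm_101_s1) (xt := Ext.none) (P1 := 536870912) (W1 := 536870912) (P2 := 0) (W2 := 536870912) (P3 := 469762048) (W3 := 67108864)
    rfl k0_A00mm_101_s1

theorem s_A00mm_101_s1 {κ x : ℝ} (hκ : κ * h0 = ken x) (hx : ((469762048 : ℕ) : ℝ) / S ≤ x)
    (hx' : x ≤ (((469762048 : ℕ) : ℝ) + (67108864 : ℕ)) / S)
    (H : CutA (VF κ) PP tKF tL pcF (Cut.of [[⟨0, 1, 0, 67108864⟩, ⟨1, 0, 0, 67108864⟩, ⟨2, 1, 0, 67108864⟩]]) 1 0 1 0 0 (sgb false) (sgb false) x) :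
    AltA (VF κ) PP tKF tL pcF [⟨3, 0, 0, 1449551462⟩] 1 0 1 0 0 (sgb false) (sgb false) x :=
  strip_altA (m := 1449551462) true rfl hκ covF01 covF00 hx hx' c_A00mm_101_s1 H (noExt_A)

noncomputable def cut_A00mm_101_s3 : Cut := Cut.of [[⟨3, 0, 0, 2845415833⟩], [⟨0, 1, 0, 67108864⟩, ⟨1, 0, 0, 67108864⟩, ⟨2, 1, 0, 67108864⟩]]

noncomputable def f_A00mm_101_s3 : ℕ → ℕ → ℕ → ℕ → Bool := onCell 536870912 536870912 0 536870912 469762048 67108864
    (rowF 0 true false false .npn 1 0 1 (qsf 536870912 536870912 0 536870912 1) ndF0q1 ndF0q0 pcF1 cut_A00mm_101_s3 Ext.none)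

def k0_A00mm_101_s3 : ∃ t, chk3 f_A00mm_101_s3 t 1 1 1 = true :=
  ⟨(a (l 4) (b (a (l 4) (b (a (l 4) (b (a (l 4) (b (l 14) (l 4))) (l 4))) (l 4))) (l 4))), by decide +kernel⟩

theorem c_A00mm_101_s3 : CertF 536870912 536870912 0 536870912 469762048 67108864 true false false .npn 1 0 1
    ndF0q1 ndF0q0 pcF1 cut_A00mm_101_s3 Ext.none :=
  certF0 (fam := true) (s1 := false) (s2 := false) (a := 1) (b := 0) (c := 1) (cn := .npn) (n1 := ndF0q1) (n2 := ndF0q0) (pc := pcF1) (cut := cut_A00mm_101_s3) (xt := Ext.none) (P1 := 536870912) (W1 := 536870912) (P2 := 0) (W2 := 536870912) (P3 := 469762048) (W3 := 67108864)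
    rfl k0_A00mm_101_s3

theorem s_A00mm_101_s3 {κ x : ℝ} (hκ : κ * h0 = ken x) (hx : ((469762048 : ℕ) : ℝ) / S ≤ x)
    (hx' : x ≤ (((469762048 : ℕ) : ℝ) + (67108864 : ℕ)) / S)
    (H : CutA (VF κ) PP tKF tL pcF (Cut.of [[⟨0, 1, 0, 67108864⟩, ⟨1, 0, 0, 67108864⟩, ⟨2, 1, 0, 67108864⟩]]) 1 0 1 0 0 (sgb false) (sgb false) x) :
    AltA (VF κ) PP tKF tL pcF [⟨4, 0, 0, 2845415833⟩] 1 0 1 0 0 (sgb false) (sgb false) x :=
  strip_altA (m := 2845415833) false rfl hκ covF01 covF00 hx hx' c_A00mm_101_s3 H (noExt_A)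

noncomputable def cut_A00mm_102_s1 : Cut := Cut.of [[⟨4, 0, 0, 1449551462⟩], [⟨0, 1, 0, 67108864⟩, ⟨1, 0, 0, 67108864⟩, ⟨2, 1, 0, 67108864⟩]]

noncomputable def f_A00mm_102_s1 : ℕ → ℕ → ℕ → ℕ → Bool := onCell 536870912 536870912 0 536870912 469762048 67108864
    (rowF 0 true false false .npp 1 0 2 (qsf 536870912 536870912 0 536870912 2) ndF0q1 ndF0q0 pcF2 cut_A00mm_102_s1 Ext.none)

def k0_A00mm_102_s1 : ∃ t, chk3 f_A00mm_102_s1 t 1 1 1 = true :=
  ⟨(l 6), by decide +kernel⟩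

theorem c_A00mm_102_s1 : CertF 536870912 536870912 0 536870912 469762048 67108864 true false false .npp 1 0 2
    ndF0q1 ndF0q0 pcF2 cut_A00mm_102_s1 Ext.none :=
  certF0 (fam := true) (s1 := false) (s2 := false) (a := 1) (b := 0) (c := 2) (cn := .npp) (n1 := ndF0q1) (n2 := ndF0q0) (pc := pcF2) (cut := cut_A00mm_102_s1) (xt := Ext.none) (P1 := 536870912) (W1 := 536870912) (P2 := 0) (W2 := 536870912) (P3 := 469762048) (W3 := 67108864)
    rfl k0_A00mm_102_s1

theorem s_A00mm_102_s1 {κ x : ℝ} (hκ : κ * h0 = ken x) (hx : ((469762048 : ℕ) : ℝ) / S ≤ x)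
    (hx' : x ≤ (((469762048 : ℕ) : ℝ) + (67108864 : ℕ)) / S)
    (H : CutA (VF κ) PP tKF tL pcF (Cut.of [[⟨0, 1, 0, 67108864⟩, ⟨1, 0, 0, 67108864⟩, ⟨2, 1, 0, 67108864⟩]]) 1 0 2 0 0 (sgb false) (sgb false) x) :
    AltA (VF κ) PP tKF tL pcF [⟨3, 0, 0, 1449551462⟩] 1 0 2 0 0 (sgb false) (sgb false) x :=
  strip_altA (m := 1449551462) true rfl hκ covF01 covF00 hx hx' c_A00mm_102_s1 H (noExt_A)

noncomputable def cut_A00mm_102_s3 : Cut := Cut.of [[⟨3, 0, 0, 2845415833⟩], [⟨0, 1, 0, 67108864⟩, ⟨1, 0, 0, 67108864⟩, ⟨2, 1, 0, 67108864⟩]]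

noncomputable def f_A00mm_102_s3 : ℕ → ℕ → ℕ → ℕ → Bool := onCell 536870912 536870912 0 536870912 469762048 67108864
    (rowF 0 true false false .npp 1 0 2 (qsf 536870912 536870912 0 536870912 2) ndF0q1 ndF0q0 pcF2 cut_A00mm_102_s3 Ext.none)

def k0_A00mm_102_s3 : ∃ t, chk3 f_A00mm_102_s3 t 1 1 1 = true :=
  ⟨(a (l 4) (b (a (l 4) (b (a (l 4) (a (l 4) (b (b (l 14) (l 4)) (l 4)))) (l 4))) (l 4))), by decide +kernel⟩

theorem c_A00mm_102_s3 : CertF 536870912 536870912 0 536870912 469762048 67108864 true false false .npp 1 0 2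
    ndF0q1 ndF0q0 pcF2 cut_A00mm_102_s3 Ext.none :=
  certF0 (fam := true) (s1 := false) (s2 := false) (a := 1) (b := 0) (c := 2) (cn := .npp) (n1 := ndF0q1) (n2 := ndF0q0) (pc := pcF2) (cut := cut_A00mm_102_s3) (xt := Ext.none) (P1 := 536870912) (W1 := 536870912) (P2 := 0) (W2 := 536870912) (P3 := 469762048) (W3 := 67108864)
    rfl k0_A00mm_102_s3

theorem s_A00mm_102_s3 {κ x : ℝ} (hκ : κ * h0 = ken x) (hx : ((469762048 : ℕ) : ℝ) / S ≤ x)
    (hx' : x ≤ (((469762048 : ℕ) : ℝ) + (67108864 : ℕ)) / S)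
    (H : CutA (VF κ) PP tKF tL pcF (Cut.of [[⟨0, 1, 0, 67108864⟩, ⟨1, 0, 0, 67108864⟩, ⟨2, 1, 0, 67108864⟩]]) 1 0 2 0 0 (sgb false) (sgb false) x) :
    AltA (VF κ) PP tKF tL pcF [⟨4, 0, 0, 2845415833⟩] 1 0 2 0 0 (sgb false) (sgb false) x :=
  strip_altA (m := 2845415833) false rfl hκ covF01 covF00 hx hx' c_A00mm_102_s3 H (noExt_A)

noncomputable def cut_A00mm_112_s1 : Cut := Cut.of [[⟨4, 0, 0, 1449551462⟩]]

noncomputable def f_A00mm_112_s1 : ℕ → ℕ → ℕ → ℕ → Bool := onCell 536870912 536870912 536870912 536870912 469762048 67108864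
    (rowF 0 true false false .dn 1 1 2 (qsf 536870912 536870912 536870912 536870912 2) ndF0q1 ndF0q1 pcF2 cut_A00mm_112_s1 Ext.none)

def k0_A00mm_112_s1 : ∃ t, chk3 f_A00mm_112_s1 t 1 1 1 = true :=
  ⟨(l 4), by decide +kernel⟩

theorem c_A00mm_112_s1 : CertF 536870912 536870912 536870912 536870912 469762048 67108864 true false false .dn 1 1 2
    ndF0q1 ndF0q1 pcF2 cut_A00mm_112_s1 Ext.none :=
  certF0 (fam := true) (s1 := false) (s2 := false) (a := 1) (b := 1) (c := 2) (cn := .dn) (n1 := ndF0q1) (n2 := ndF0q1) (pc := pcF2) (cut := cut_A00mm_112_s1) (xt := Ext.none) (P1 := 536870912) (W1 := 536870912) (P2 := 536870912) (W2 := 536870912) (P3 := 469762048) (W3 := 67108864)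
    rfl k0_A00mm_112_s1

theorem s_A00mm_112_s1 {κ x : ℝ} (hκ : κ * h0 = ken x) (hx : ((469762048 : ℕ) : ℝ) / S ≤ x)
    (hx' : x ≤ (((469762048 : ℕ) : ℝ) + (67108864 : ℕ)) / S) :
    AltA (VF κ) PP tKF tL pcF [⟨3, 0, 0, 1449551462⟩] 1 1 2 0 0 (sgb false) (sgb false) x :=
  strip_altA (m := 1449551462) true rfl hκ covF01 covF01 hx hx' c_A00mm_112_s1 cutA_nil (noExt_A)

noncomputable def cut_A00mm_112_s3 : Cut := Cut.of [[⟨3, 0, 0, 2845415833⟩]]

noncomputable def f_A00mm_112_s3 : ℕ → ℕ → ℕ → ℕ → Bool := onCell 536870912 536870912 536870912 536870912 469762048 67108864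
    (rowF 0 true false false .dn 1 1 2 (qsf 536870912 536870912 536870912 536870912 2) ndF0q1 ndF0q1 pcF2 cut_A00mm_112_s3 Ext.none)

def k0_A00mm_112_s3 : ∃ t, chk3 f_A00mm_112_s3 t 1 1 1 = true :=
  ⟨(l 4), by decide +kernel⟩

theorem c_A00mm_112_s3 : CertF 536870912 536870912 536870912 536870912 469762048 67108864 true false false .dn 1 1 2
    ndF0q1 ndF0q1 pcF2 cut_A00mm_112_s3 Ext.none :=
  certF0 (fam := true) (s1 := false) (s2 := false) (a := 1) (b := 1) (c := 2) (cn := .dn) (n1 := ndF0q1) (n2 := ndF0q1) (pc := pcF2) (cut := cut_A00mm_112_s3) (xt := Ext.none) (P1 := 536870912) (W1 := 536870912) (P2 := 536870912) (W2 := 536870912) (P3 := 469762048) (W3 := 67108864)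
    rfl k0_A00mm_112_s3

theorem s_A00mm_112_s3 {κ x : ℝ} (hκ : κ * h0 = ken x) (hx : ((469762048 : ℕ) : ℝ) / S ≤ x)
    (hx' : x ≤ (((469762048 : ℕ) : ℝ) + (67108864 : ℕ)) / S) :
    AltA (VF κ) PP tKF tL pcF [⟨4, 0, 0, 2845415833⟩] 1 1 2 0 0 (sgb false) (sgb false) x :=
  strip_altA (m := 2845415833) false rfl hκ covF01 covF01 hx hx' c_A00mm_112_s3 cutA_nil (noExt_A)

noncomputable def cut_A00mm_113_s1 : Cut := Cut.of [[⟨4, 0, 0, 1449551462⟩]]

noncomputable def f_A00mm_113_s1 : ℕ → ℕ → ℕ → ℕ → Bool := onCell 536870912 536870912 536870912 536870912 469762048 67108864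
    (rowF 0 true false false .nn 1 1 3 (qsf 536870912 536870912 536870912 536870912 3) ndF0q1 ndF0q1 pcF3 cut_A00mm_113_s1 Ext.none)

def k0_A00mm_113_s1 : ∃ t, chk3 f_A00mm_113_s1 t 1 1 1 = true :=
  ⟨(l 4), by decide +kernel⟩

theorem c_A00mm_113_s1 : CertF 536870912 536870912 536870912 536870912 469762048 67108864 true false false .nn 1 1 3
    ndF0q1 ndF0q1 pcF3 cut_A00mm_113_s1 Ext.none :=
  certF0 (fam := true) (s1 := false) (s2 := false) (a := 1) (b := 1) (c := 3) (cn := .nn) (n1 := ndF0q1) (n2 := ndF0q1) (pc := pcF3) (cut := cut_A00mm_113_s1) (xt := Ext.none) (P1 := 536870912) (W1 := 536870912) (P2 := 536870912) (W2 := 536870912) (P3 := 469762048) (W3 := 67108864)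
    rfl k0_A00mm_113_s1

theorem s_A00mm_113_s1 {κ x : ℝ} (hκ : κ * h0 = ken x) (hx : ((469762048 : ℕ) : ℝ) / S ≤ x)
    (hx' : x ≤ (((469762048 : ℕ) : ℝ) + (67108864 : ℕ)) / S) :
    AltA (VF κ) PP tKF tL pcF [⟨3, 0, 0, 1449551462⟩] 1 1 3 0 0 (sgb false) (sgb false) x :=
  strip_altA (m := 1449551462) true rfl hκ covF01 covF01 hx hx' c_A00mm_113_s1 cutA_nil (noExt_A)

noncomputable def cut_A00mm_113_s3 : Cut := Cut.of [[⟨3, 0, 0, 2845415833⟩]]

noncomputable def f_A00mm_113_s3 : ℕ → ℕ → ℕ → ℕ → Bool := onCell 536870912 536870912 536870912 536870912 469762048 67108864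
    (rowF 0 true false false .nn 1 1 3 (qsf 536870912 536870912 536870912 536870912 3) ndF0q1 ndF0q1 pcF3 cut_A00mm_113_s3 Ext.none)

def k0_A00mm_113_s3 : ∃ t, chk3 f_A00mm_113_s3 t 1 1 1 = true :=
  ⟨(l 4), by decide +kernel⟩

theorem c_A00mm_113_s3 : CertF 536870912 536870912 536870912 536870912 469762048 67108864 true false false .nn 1 1 3
    ndF0q1 ndF0q1 pcF3 cut_A00mm_113_s3 Ext.none :=
  certF0 (fam := true) (s1 := false) (s2 := false) (a := 1) (b := 1) (c := 3) (cn := .nn) (n1 := ndF0q1) (n2 := ndF0q1) (pc := pcF3) (cut := cut_A00mm_113_s3) (xt := Ext.none) (P1 := 536870912) (W1 := 536870912) (P2 := 536870912) (W2 := 536870912) (P3 := 469762048) (W3 := 67108864)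
    rfl k0_A00mm_113_s3

theorem s_A00mm_113_s3 {κ x : ℝ} (hκ : κ * h0 = ken x) (hx : ((469762048 : ℕ) : ℝ) / S ≤ x)
    (hx' : x ≤ (((469762048 : ℕ) : ℝ) + (67108864 : ℕ)) / S) :
    AltA (VF κ) PP tKF tL pcF [⟨4, 0, 0, 2845415833⟩] 1 1 3 0 0 (sgb false) (sgb false) x :=
  strip_altA (m := 2845415833) false rfl hκ covF01 covF01 hx hx' c_A00mm_113_s3 cutA_nil (noExt_A)

noncomputable def cut_A00mm_123_s1 : Cut := Cut.of [[⟨4, 0, 0, 1449551462⟩]]

noncomputable def f_A00mm_123_s1 : ℕ → ℕ → ℕ → ℕ → Bool := onCell 536870912 536870912 0 536870912 469762048 67108864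
    (rowF 0 true false false .npn 1 2 3 (qsf 536870912 536870912 0 536870912 3) ndF0q1 ndF0q2 pcF3 cut_A00mm_123_s1 Ext.none)

def k0_A00mm_123_s1 : ∃ t, chk3 f_A00mm_123_s1 t 1 1 1 = true :=
  ⟨(l 6), by decide +kernel⟩

theorem c_A00mm_123_s1 : CertF 536870912 536870912 0 536870912 469762048 67108864 true false false .npn 1 2 3
    ndF0q1 ndF0q2 pcF3 cut_A00mm_123_s1 Ext.none :=
  certF0 (fam := true) (s1 := false) (s2 := false) (a := 1) (b := 2) (c := 3) (cn := .npn) (n1 := ndF0q1) (n2 := ndF0q2) (pc := pcF3) (cut := cut_A00mm_123_s1) (xt := Ext.none) (P1 := 536870912) (W1 := 536870912) (P2 := 0) (W2 := 536870912) (P3 := 469762048) (W3 := 67108864)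
    rfl k0_A00mm_123_s1

theorem s_A00mm_123_s1 {κ x : ℝ} (hκ : κ * h0 = ken x) (hx : ((469762048 : ℕ) : ℝ) / S ≤ x)
    (hx' : x ≤ (((469762048 : ℕ) : ℝ) + (67108864 : ℕ)) / S) :
    AltA (VF κ) PP tKF tL pcF [⟨3, 0, 0, 1449551462⟩] 1 2 3 0 0 (sgb false) (sgb false) x :=
  strip_altA (m := 1449551462) true rfl hκ covF01 covF02 hx hx' c_A00mm_123_s1 cutA_nil (noExt_A)

noncomputable def cut_A00mm_123_s3 : Cut := Cut.of [[⟨3, 0, 0, 2845415833⟩]]

noncomputable def f_A00mm_123_s3 : ℕ → ℕ → ℕ → ℕ → Bool := onCell 536870912 536870912 0 536870912 469762048 67108864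
    (rowF 0 true false false .npn 1 2 3 (qsf 536870912 536870912 0 536870912 3) ndF0q1 ndF0q2 pcF3 cut_A00mm_123_s3 Ext.none)

def k0_A00mm_123_s3 : ∃ t, chk3 f_A00mm_123_s3 t 1 1 1 = true :=
  ⟨(a (l 5) (l 4)), by decide +kernel⟩

theorem c_A00mm_123_s3 : CertF 536870912 536870912 0 536870912 469762048 67108864 true false false .npn 1 2 3
    ndF0q1 ndF0q2 pcF3 cut_A00mm_123_s3 Ext.none :=
  certF0 (fam := true) (s1 := false) (s2 := false) (a := 1) (b := 2) (c := 3) (cn := .npn) (n1 := ndF0q1) (n2 := ndF0q2) (pc := pcF3) (cut := cut_A00mm_123_s3) (xt := Ext.none) (P1 := 536870912) (W1 := 536870912) (P2 := 0) (W2 := 536870912) (P3 := 469762048) (W3 := 67108864)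
    rfl k0_A00mm_123_s3

theorem s_A00mm_123_s3 {κ x : ℝ} (hκ : κ * h0 = ken x) (hx : ((469762048 : ℕ) : ℝ) / S ≤ x)
    (hx' : x ≤ (((469762048 : ℕ) : ℝ) + (67108864 : ℕ)) / S) :
    AltA (VF κ) PP tKF tL pcF [⟨4, 0, 0, 2845415833⟩] 1 2 3 0 0 (sgb false) (sgb false) x :=
  strip_altA (m := 2845415833) false rfl hκ covF01 covF02 hx hx' c_A00mm_123_s3 cutA_nil (noExt_A)

noncomputable def cut_A00mm_202_s1 : Cut := Cut.of [[⟨4, 0, 0, 1449551462⟩], [⟨0, 1, 0, 67108864⟩, ⟨1, 0, 0, 67108864⟩, ⟨2, 1, 0, 67108864⟩]]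

noncomputable def f_A00mm_202_s1 : ℕ → ℕ → ℕ → ℕ → Bool := onCell 0 536870912 0 536870912 469762048 67108864
    (rowF 0 true false false .pp 2 0 2 (qsf 0 536870912 0 536870912 2) ndF0q2 ndF0q0 pcF2 cut_A00mm_202_s1 Ext.none)

def k0_A00mm_202_s1 : ∃ t, chk3 f_A00mm_202_s1 t 1 1 1 = true :=
  ⟨(l 6), by decide +kernel⟩

theorem c_A00mm_202_s1 : CertF 0 536870912 0 536870912 469762048 67108864 true false false .pp 2 0 2
    ndF0q2 ndF0q0 pcF2 cut_A00mm_202_s1 Ext.none :=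
  certF0 (fam := true) (s1 := false) (s2 := false) (a := 2) (b := 0) (c := 2) (cn := .pp) (n1 := ndF0q2) (n2 := ndF0q0) (pc := pcF2) (cut := cut_A00mm_202_s1) (xt := Ext.none) (P1 := 0) (W1 := 536870912) (P2 := 0) (W2 := 536870912) (P3 := 469762048) (W3 := 67108864)
    rfl k0_A00mm_202_s1

theorem s_A00mm_202_s1 {κ x : ℝ} (hκ : κ * h0 = ken x) (hx : ((469762048 : ℕ) : ℝ) / S ≤ x)
    (hx' : x ≤ (((469762048 : ℕ) : ℝ) + (67108864 : ℕ)) / S)
    (H : CutA (VF κ) PP tKF tL pcF (Cut.of [[⟨0, 1, 0, 67108864⟩, ⟨1, 0, 0, 67108864⟩, ⟨2, 1, 0, 67108864⟩]]) 2 0 2 0 0 (sgb false) (sgb false) x) :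
    AltA (VF κ) PP tKF tL pcF [⟨3, 0, 0, 1449551462⟩] 2 0 2 0 0 (sgb false) (sgb false) x :=
  strip_altA (m := 1449551462) true rfl hκ covF02 covF00 hx hx' c_A00mm_202_s1 H (noExt_A)

noncomputable def cut_A00mm_202_s3 : Cut := Cut.of [[⟨3, 0, 0, 2845415833⟩], [⟨0, 1, 0, 67108864⟩, ⟨1, 0, 0, 67108864⟩, ⟨2, 1, 0, 67108864⟩]]

noncomputable def xt_A00mm_202_s3 : Ext := strExt dd true false false .u2 .u0m .s2m .pp 2 0 2 rfl rfl gl2 vv ndF0q2 ndF0q0

noncomputable def f_A00mm_202_s3 : ℕ → ℕ → ℕ → ℕ → Bool := onCell 0 536870912 0 536870912 469762048 67108864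
    (rowF 0 true false false .pp 2 0 2 (qsf 0 536870912 0 536870912 2) ndF0q2 ndF0q0 pcF2 cut_A00mm_202_s3 xt_A00mm_202_s3)

def k0_A00mm_202_s3 : ∃ t, chk3 f_A00mm_202_s3 t 2 1 1 = true :=
  ⟨(b (b (a (l 6) (a (l 6) (b (l 6) (a (l 6) (b (l 16587152) (l 16603040)))))) (a (b (l 6) (a (l 6) (b (l 6) (l 16712488)))) (b (a (b (l 6) (l 16730024)) (b (a (l 16623400) (l 16679880)) (a (l 16741808) (l 16713136)))) (a (b (a (l 16678368) (l 16682368)) (a (l 16710296) (l 16712560))) (a (b (l 16731896) (l 16760440)) (b (c (l 16745216) (l 16742248)) (b (l 16722416) (l 16755816)))))))) (a (b (a (b (b (l 6) (a (l 6) (l 16783720))) (b (a (l 16823928) (l 16809152)) (a (l 16847688) (l 16829264)))) (b (b (l 16743656) (a (l 16773880) (l 16766120))) (b (a (l 16796240) (l 16785592)) (a (l 16812808) (b (l 16796104) (l 2)))))) (l 2)) (b (a (b (a (b (l 16738208) (l 16761040)) (b (l 16738496) (l 536192271))) (a (b (l 536883983) (a (l 41439759623) (l 537345551)))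 (b (l 536914959) (a (l 537223951) (l 537093391))))) (b (a (b (l 535781903) (l 536736527)) (b (a (l 535307023) (l 535163919)) (a (l 535711247) (l 535567375)))) (a (b (l 536380175) (l 536884751)) (b (l 536892431) (l 536579343))))) (a (l 2) (a (l 2) (l 4)))))), by decide +kernel⟩

def k1_A00mm_202_s3 : ∃ t, chk3 f_A00mm_202_s3 t 6 8 1 = true :=
  ⟨(a (b (a (l 6) (a (l 6) (b (b (l 6) (l 16603688)) (l 16611160)))) (b (a (l 6) (a (l 16609368) (l 16620904))) (a (l 16600736) (l 16666344)))) (c (c (a (b (b (b (a (l 16616488) (l 16627312)) (l 16626880)) (b (l 16631760) (l 16636584))) (b (a (l 16637568) (l 16649848)) (l 16695240))) (b (b (b (a (l 16638640) (l 16650520)) (a (l 16644040) (l 16656200))) (a (l 16652016) (b (l 16661816) (l 16667392)))) (a (b (l 16662544) (l 16673032)) (b (l 16675688) (l 16686744))))) (a (b (b (b (a (l 16611600) (l 16622608)) (l 16622496)) (b (l 16627768) (l 16632968))) (b (a (l 16634440) (l 16646816)) (l 16692808)))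 (b (b (b (a (l 16634176) (l 16646336)) (a (l 16639960) (l 16652376))) (a (b (l 16645664) (l 16651304)) (b (l 16658344) (l 16664256)))) (a (b (l 16659672) (l 16670752)) (b (b (l 16670112) (l 16675944)) (l 16684640)))))) (a (b (b (b (a (l 16604224) (l 16615536)) (a (l 16610064) (l 16621648))) (b (a (l 16615800) (l 16627656)) (l 16648520))) (b (a (l 16629752) (l 16642304)) (a (l 16640648) (l 16653760)))) (b (b (b (a (b (l 16625864) (l 16629072)) (b (l 16638400) (l 16641728))) (a (l 16633832) (b (l 16645024) (l 16648296)))) (a (b (l 16640096) (l 16646272)) (b (l 16653160) (l 16659568)))) (a (b (b (l 16652368) (l 16658408)) (l 16667376)) (b (b (l 16665912) (l 16672192)) (b (l 16678424) (l 16684632)))))))), by decide +kernel⟩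

def k2_A00mm_202_s3 : ∃ t, chk3 f_A00mm_202_s3 t 6 9 1 = true :=
  ⟨(a (b (a (c (l 16655360) (l 16673760)) (b (l 16675488) (l 16684656))) (a (l 16669376) (b (l 16651984) (l 16703416)))) (a (b (a (a (l 534352399) (l 534329359)) (b (l 16666904) (l 16698712))) (a (b (l 16715752) (l 16684408)) (b (l 16709704) (l 16720960)))) (a (b (b (c (l 16682712) (l 16679256)) (l 534481423)) (b (b (l 16701056) (l 16727880)) (l 533533455))) (b (a (b (l 16691776) (l 16724560)) (b (l 16709624) (l 533614351))) (b (l 534638607) (l 533360143)))))), by decide +kernel⟩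

def k3_A00mm_202_s3 : ∃ t, chk3 f_A00mm_202_s3 t 7 16 1 = true :=
  ⟨(a (a (a (a (b (b (b (l 16652256) (l 16655480)) (c (l 16663864) (l 16656696))) (b (l 16666592) (l 16672848))) (b (b (b (l 16658872) (l 16662160)) (c (l 16670456) (l 16663624))) (b (l 16673472) (l 16679840)))) (a (b (b (b (c (l 16669336) (l 16662016)) (l 16669008)) (c (l 16677208) (l 16670744))) (b (c (l 16683424) (l 16677616)) (l 16686984))) (b (b (b (c (l 16676120) (l 16669208)) (l 16676048)) (b (l 16679416) (l 16682760))) (b (c (l 16690456) (l 16685016)) (c (l 16696736) (l 16691896)))))) (a (a (b (b (a (b (l 14) (l 16681448)) (l 14)) (b (c (l 16689608) (l 16683784)) (l 16690080))) (b (b (l 16693456) (l 16696808)) (c (l 16704040) (l 16699584)))) (b (b (l 14) (a (b (l 16692272) (l 16695696)) (b (l 14) (l 16699504)))) (b (b (l 16701024) (l 16704424)) (b (l 16707808) (l 16711176))))) (b (b (l 14) (a (a (a (l 533492239) (l 14)) (l 14)) (l 14))) (b (b (a (c (l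 16710952) (l 16706632)) (l 14)) (a (c (l 16714248) (l 16710216)) (c (l 16722032) (l 16718464)))) (a (a (l 533486607) (b (l 16717640) (l 16721064))) (c (b (l 16725360) (l 16728680)) (b (l 16722072) (l 16725656)))))))) (b (l 14) (b (a (l 14) (l 14)) (a (a (a (a (a (l 533404431) (l 533392911)) (a (l 533381391) (l 533369871))) (a (a (l 533358095) (l 533346319)) (a (l 533468687) (l 14)))) (l 14)) (l 14))))), by decide +kernel⟩

def k4_A00mm_202_s3 : ∃ t, chk3 f_A00mm_202_s3 t 14 17 1 = true :=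
  ⟨(a (a (a (b (b (l 16679048) (l 16685208)) (l 533671439)) (b (b (l 16686152) (l 16692424)) (b (l 16698664) (l 16704896)))) (a (b (b (l 16693408) (l 16699784)) (b (l 16706144) (l 16712480))) (b (b (l 16700832) (l 16707312)) (b (l 16713768) (l 16720208))))) (a (a (a (b (b (l 16706504) (l 16713064)) (l 533542927)) (b (b (l 16710344) (l 16716952)) (l 533524495))) (a (b (b (l 16714232) (l 16720880)) (l 533505807)) (b (b (l 16718168) (l 16724864)) (l 533486863)))) (b (b (a (b (l 16722464) (l 16725856)) (a (l 533441295) (a (l 533425935) (l 533414927)))) (a (b (l 16734480) (l 16737848)) (a (l 533437711) (l 533416463)))) (b (a (a (l 533472015) (l 533452047)) (a (l 533432079) (l 533411343))) (a (a (l 533463055) (l 533443855)) (a (l 533424143) (l 533404175))))))), by decide +kernel⟩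

def k5_A00mm_202_s3 : ∃ t, chk3 f_A00mm_202_s3 t 15 17 1 = true :=
  ⟨(b (a (a (a (a (b (b (l 16736832) (l 16740288)) (l 533864719)) (b (b (l 16741056) (l 533374479)) (a (l 533379855) (l 533369103)))) (a (b (a (l 533359119) (l 533347599)) (a (l 533358095) (l 533346831))) (b (a (l 533336079) (l 533324559)) (a (l 533335567) (l 533324303))))) (a (b (a (a (l 533312783) (l 533569551)) (b (l 14) (a (l 533289743) (l 533277711)))) (a (a (l 533313039) (l 533301519)) (a (l 533289999) (l 533546767)))) (b (b (l 14) (a (a (l 533265679) (l 533253647)) (l 14))) (a (a (a (l 533270287) (l 533264655)) (a (l 533258767) (l 533252623))) (a (a (l 533246735) (l 533240847)) (a (l 533234959) (l 533228815))))))) (b (l 14) (b (b (l 14) (b (l 14) (l 4))) (l 4)))) (a (a (a (a (b (l 533390607) (l 533383951)) (b (l 533906191) (l 533363471))) (a (b (a (l 533354767) (l 533344015)) (a (l 533349391) (l 533338895))) (b (a (l 533333007) (l 533322255)) (a (l 533328399)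 (l 533317903))))) (b (a (a (a (l 533310991) (l 533299983)) (a (l 533288719) (l 533277455))) (a (a (l 533265935) (a (l 533258255) (l 533252623))) (l 4))) (a (a (a (l 533307151) (l 533296399)) (a (l 533285391) (l 4))) (l 4)))) (l 4))), by decide +kernel⟩

def k6_A00mm_202_s3 : ∃ t, chk3 f_A00mm_202_s3 t 7 9 1 = true :=
  ⟨(b (a (a (a (a (b (l 533634063) (l 533587471)) (b (l 533603343) (l 533559567))) (a (b (l 533839887) (l 533530639)) (b (b (l 16737136) (l 16743584)) (l 533768975)))) (a (a (b (a (l 533515279) (l 533498127)) (a (l 533479183) (l 533463311))) (a (b (l 533480719) (l 533447439)) (b (l 533463311) (l 533431055)))) (a (a (b (l 533445391) (l 533414671)) (b (l 533426959) (l 533397775))) (a (b (l 533676815) (l 533380623)) (b (b (l 533395215) (l 533383951)) (l 533362959)))))) (a (a (b (a (b (a (l 533375503) (l 533355535)) (a (l 533365007) (l 533345807))) (a (a (l 533337615) (l 533327631)) (a (l 533317647) (l 533307407))))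 (a (a (l 533881871) (l 4)) (l 4))) (l 4)) (l 4))) (a (a (a (a (b (l 533531663) (l 533466127)) (b (l 533506575) (l 533444111))) (a (b (l 533480463) (l 533421071)) (b (l 533453327) (l 533665551)))) (a (a (b (l 534230287) (l 533908495)) (b (a (l 533405455) (l 533390607)) (l 534418959))) (a (b (a (l 533375503) (l 533359887)) (l 4)) (l 4)))) (l 4))), by decide +kernel⟩

def k7_A00mm_202_s3 : ∃ t, chk3 f_A00mm_202_s3 t 3 5 1 = true :=
  ⟨(a (a (b (a (b (c (l 16698680) (l 16698720)) (b (l 16681048) (l 16738448))) (b (b (l 16713824) (l 16719488)) (a (l 533846031) (l 533714959)))) (a (b (a (l 534362383) (l 534226703)) (a (l 534666767) (l 534522895))) (a (b (l 534088207) (l 534375439)) (b (l 533946895) (l 534224399))))) (b (a (b (a (l 533978895) (l 534360079)) (a (b (l 533533967) (l 533633039)) (b (l 533403151) (l 533496591)))) (a (b (a (l 533404175) (l 533391119)) (c (l 534101519) (l 534268431))) (a (b (l 533377295) (l 533482255)) (b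 (l 533362703) (l 533153807))))) (a (b (a (l 533803535) (l 534731791)) (a (l 534338831) (l 4))) (a (b (a (l 533548303) (l 533474575)) (l 4)) (l 4))))) (b (a (a (a (a (b (l 533346831) (l 533146383)) (b (l 533329935) (l 4))) (b (a (l 533379343) (b (l 533330959) (l 4))) (l 4))) (l 4)) (l 4)) (l 4))), by decide +kernel⟩

def k8_A00mm_202_s3 : ∃ t, chk3 f_A00mm_202_s3 t 3 3 1 = true :=
  ⟨(b (a (a (b (a (b (a (l 535017231) (l 534865935)) (a (l 535416335) (l 535258383))) (b (a (l 534710031) (l 534549775)) (l 4))) (l 4)) (l 4)) (l 4)) (l 4)), by decide +kernel⟩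

theorem t9_A00mm_202_s3 : ∃ t, chk3 f_A00mm_202_s3 t 7 17 1 = true := ex3_a k4_A00mm_202_s3 k5_A00mm_202_s3

theorem t10_A00mm_202_s3 : ∃ t, chk3 f_A00mm_202_s3 t 7 8 1 = true := ex3_b k3_A00mm_202_s3 t9_A00mm_202_s3

theorem t11_A00mm_202_s3 : ∃ t, chk3 f_A00mm_202_s3 t 7 4 1 = true := ex3_b t10_A00mm_202_s3 k6_A00mm_202_s3

theorem t12_A00mm_202_s3 : ∃ t, chk3 f_A00mm_202_s3 t 6 4 1 = true := ex3_b k1_A00mm_202_s3 k2_A00mm_202_s3

theorem t13_A00mm_202_s3 : ∃ t, chk3 f_A00mm_202_s3 t 3 4 1 = true := ex3_a t12_A00mm_202_s3 t11_A00mm_202_s3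

theorem t14_A00mm_202_s3 : ∃ t, chk3 f_A00mm_202_s3 t 3 2 1 = true := ex3_b t13_A00mm_202_s3 k7_A00mm_202_s3

theorem t15_A00mm_202_s3 : ∃ t, chk3 f_A00mm_202_s3 t 3 1 1 = true := ex3_b t14_A00mm_202_s3 k8_A00mm_202_s3

theorem t16_A00mm_202_s3 : ∃ t, chk3 f_A00mm_202_s3 t 1 1 1 = true := ex3_a k0_A00mm_202_s3 t15_A00mm_202_s3

theorem c_A00mm_202_s3 : CertF 0 536870912 0 536870912 469762048 67108864 true false false .pp 2 0 2
    ndF0q2 ndF0q0 pcF2 cut_A00mm_202_s3 xt_A00mm_202_s3 :=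
  certF0 (fam := true) (s1 := false) (s2 := false) (a := 2) (b := 0) (c := 2) (cn := .pp) (n1 := ndF0q2) (n2 := ndF0q0) (pc := pcF2) (cut := cut_A00mm_202_s3) (xt := xt_A00mm_202_s3) (P1 := 0) (W1 := 536870912) (P2 := 0) (W2 := 536870912) (P3 := 469762048) (W3 := 67108864)
    rfl t16_A00mm_202_s3

theorem s_A00mm_202_s3 {κ x : ℝ} (hκ : κ * h0 = ken x) (hx : ((469762048 : ℕ) : ℝ) / S ≤ x)
    (hx' : x ≤ (((469762048 : ℕ) : ℝ) + (67108864 : ℕ)) / S)
    (H : CutA (VF κ) PP tKF tL pcF (Cut.of [[⟨0, 1, 0, 67108864⟩, ⟨1, 0, 0, 67108864⟩, ⟨2, 1, 0, 67108864⟩]]) 2 0 2 0 0 (sgb false) (sgb false) x) :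
    AltA (VF κ) PP tKF tL pcF [⟨4, 0, 0, 2845415833⟩] 2 0 2 0 0 (sgb false) (sgb false) x :=
  strip_altA (m := 2845415833) false rfl hκ covF02 covF00 hx hx' c_A00mm_202_s3 H ((okx hx hx').extA (T := tt) (sideF hx hx') hκ rfl rfl (.O 2 false) (.O 0 false) (Or.inl rfl))

noncomputable def cut_A00mm_203_s1 : Cut := Cut.of [[⟨4, 0, 0, 1449551462⟩]]

noncomputable def f_A00mm_203_s1 : ℕ → ℕ → ℕ → ℕ → Bool := onCell 0 536870912 0 536870912 469762048 67108864
    (rowF 0 true false false .up 2 0 3 (qsf 0 536870912 0 536870912 3) ndF0q2 ndF0q0 pcF3 cut_A00mm_203_s1 Ext.none)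

def k0_A00mm_203_s1 : ∃ t, chk3 f_A00mm_203_s1 t 1 1 1 = true :=
  ⟨(l 6), by decide +kernel⟩

theorem c_A00mm_203_s1 : CertF 0 536870912 0 536870912 469762048 67108864 true false false .up 2 0 3
    ndF0q2 ndF0q0 pcF3 cut_A00mm_203_s1 Ext.none :=
  certF0 (fam := true) (s1 := false) (s2 := false) (a := 2) (b := 0) (c := 3) (cn := .up) (n1 := ndF0q2) (n2 := ndF0q0) (pc := pcF3) (cut := cut_A00mm_203_s1) (xt := Ext.none) (P1 := 0) (W1 := 536870912) (P2 := 0) (W2 := 536870912) (P3 := 469762048) (W3 := 67108864)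
    rfl k0_A00mm_203_s1

theorem s_A00mm_203_s1 {κ x : ℝ} (hκ : κ * h0 = ken x) (hx : ((469762048 : ℕ) : ℝ) / S ≤ x)
    (hx' : x ≤ (((469762048 : ℕ) : ℝ) + (67108864 : ℕ)) / S) :
    AltA (VF κ) PP tKF tL pcF [⟨3, 0, 0, 1449551462⟩] 2 0 3 0 0 (sgb false) (sgb false) x :=
  strip_altA (m := 1449551462) true rfl hκ covF02 covF00 hx hx' c_A00mm_203_s1 cutA_nil (noExt_A)

noncomputable def cut_A00mm_203_s3 : Cut := Cut.of [[⟨3, 0, 0, 2845415833⟩]]

noncomputable def xt_A00mm_203_s3 : Ext := strExt dd true false false .u2 .u0m .s2m .up 2 0 3 rfl rfl gl3 vv ndF0q2 ndF0q0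

noncomputable def f_A00mm_203_s3 : ℕ → ℕ → ℕ → ℕ → Bool := onCell 0 536870912 1610612736 536870912 469762048 67108864
    (rowF 1 true false false .up 2 0 3 (qsf 0 536870912 0 536870912 3) ndF0q2 ndF0q0 pcF3 cut_A00mm_203_s3 xt_A00mm_203_s3)

def k0_A00mm_203_s3 : ∃ t, chk3 f_A00mm_203_s3 t 1 1 1 = true :=
  ⟨(a (b (a (b (a (b (b (a (l 16742232) (b (l 16714032) (l 16735744))) (a (l 16762488) (l 16760944))) (a (b (l 16787168) (l 16797776)) (b (l 16781320) (l 537433871)))) (b (b (a (b (l 16721784) (l 16741072)) (b (l 16733168) (l 16749144))) (b (a (l 16755968) (l 16761040)) (a (l 16767184) (l 536378639)))) (b (a (l 536904207) (l 536807439)) (a (l 537336335) (l 537246479))))) (b (b (a (a (b (l 16798672) (l 16796752)) (a (l 537744655) (l 537696271))) (l 537587727)) (a (l 2) (l 2))) (l 2))) (b (a (b (a (b (a (b (l 16743496) (l 16756840)) (b (l 535177231) (l 535569935))) (b (a (l 535976719) (b (l 535838991) (l 536011023))) (l 536281359)))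 (b (a (a (l 535326479) (l 535304463)) (l 535259407)) (a (b (a (l 535617039) (l 535587855)) (a (l 536219407) (l 4))) (b (l 535817487) (l 4))))) (a (b (l 536716815) (l 4)) (l 4))) (b (b (a (l 535168527) (l 4)) (l 4)) (l 4))) (l 4))) (l 2)) (b (l 4) (l 2))), by decide +kernel⟩

theorem c_A00mm_203_s3 : CertF 0 536870912 0 536870912 469762048 67108864 true false false .up 2 0 3
    ndF0q2 ndF0q0 pcF3 cut_A00mm_203_s3 xt_A00mm_203_s3 :=
  certF1 (fam := true) (s1 := false) (s2 := false) (a := 2) (b := 0) (c := 3) (cn := .up) (n1 := ndF0q2) (n2 := ndF0q0) (pc := pcF3) (cut := cut_A00mm_203_s3) (xt := xt_A00mm_203_s3) (P1 := 0) (W1 := 536870912) (P2 := 0) (W2 := 536870912) (P3 := 469762048) (W3 := 67108864)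
    rfl (fun _ => rfl) k0_A00mm_203_s3

theorem s_A00mm_203_s3 {κ x : ℝ} (hκ : κ * h0 = ken x) (hx : ((469762048 : ℕ) : ℝ) / S ≤ x)
    (hx' : x ≤ (((469762048 : ℕ) : ℝ) + (67108864 : ℕ)) / S) :
    AltA (VF κ) PP tKF tL pcF [⟨4, 0, 0, 2845415833⟩] 2 0 3 0 0 (sgb false) (sgb false) x :=
  strip_altA (m := 2845415833) false rfl hκ covF02 covF00 hx hx' c_A00mm_203_s3 cutA_nil ((okx hx hx').extA (T := tt) (sideF hx hx') hκ rfl rfl (.O 2 false) (.O 0 false) (Or.inr rfl))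

noncomputable def cut_A00mm_213_s1 : Cut := Cut.of [[⟨4, 0, 0, 1449551462⟩]]

noncomputable def f_A00mm_213_s1 : ℕ → ℕ → ℕ → ℕ → Bool := onCell 0 536870912 536870912 536870912 469762048 67108864
    (rowF 0 true false false .pnn 2 1 3 (qsf 0 536870912 536870912 536870912 3) ndF0q2 ndF0q1 pcF3 cut_A00mm_213_s1 Ext.none)

def k0_A00mm_213_s1 : ∃ t, chk3 f_A00mm_213_s1 t 1 1 1 = true :=
  ⟨(l 6), by decide +kernel⟩

theorem c_A00mm_213_s1 : CertF 0 536870912 536870912 536870912 469762048 67108864 true false false .pnn 2 1 3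
    ndF0q2 ndF0q1 pcF3 cut_A00mm_213_s1 Ext.none :=
  certF0 (fam := true) (s1 := false) (s2 := false) (a := 2) (b := 1) (c := 3) (cn := .pnn) (n1 := ndF0q2) (n2 := ndF0q1) (pc := pcF3) (cut := cut_A00mm_213_s1) (xt := Ext.none) (P1 := 0) (W1 := 536870912) (P2 := 536870912) (W2 := 536870912) (P3 := 469762048) (W3 := 67108864)
    rfl k0_A00mm_213_s1

theorem s_A00mm_213_s1 {κ x : ℝ} (hκ : κ * h0 = ken x) (hx : ((469762048 : ℕ) : ℝ) / S ≤ x)
    (hx' : x ≤ (((469762048 : ℕ) : ℝ) + (67108864 : ℕ)) / S) :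
    AltA (VF κ) PP tKF tL pcF [⟨3, 0, 0, 1449551462⟩] 2 1 3 0 0 (sgb false) (sgb false) x :=
  strip_altA (m := 1449551462) true rfl hκ covF02 covF01 hx hx' c_A00mm_213_s1 cutA_nil (noExt_A)

noncomputable def cut_A00mm_213_s3 : Cut := Cut.of [[⟨3, 0, 0, 2845415833⟩]]

noncomputable def xt_A00mm_213_s3 : Ext := strExt dd true false false .u2 .u0m .s2m .pnn 2 1 3 rfl rfl gl3 vv ndF0q2 ndF0q1

noncomputable def f_A00mm_213_s3 : ℕ → ℕ → ℕ → ℕ → Bool := onCell 0 536870912 536870912 536870912 469762048 67108864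
    (rowF 0 true false false .pnn 2 1 3 (qsf 0 536870912 536870912 536870912 3) ndF0q2 ndF0q1 pcF3 cut_A00mm_213_s3 xt_A00mm_213_s3)

def k0_A00mm_213_s3 : ∃ t, chk3 f_A00mm_213_s3 t 1 1 1 = true :=
  ⟨(a (b (b (a (b (a (b (a (a (b (l 16796704) (l 16771480)) (b (l 16790904) (b (l 16787840) (l 16780328)))) (a (b (l 537863439) (l 537917967)) (l 537846799))) (a (b (a (l 538309391) (a (l 538005007) (l 537981455))) (a (l 538044431) (a (l 538010383) (b (l 537987599) (l 4))))) (b (a (l 537947151) (l 4)) (l 4)))) (b (b (l 537693455) (l 4)) (l 4))) (a (a (b (a (l 538026511) (l 4)) (l 4)) (l 4)) (l 4))) (l 4)) (l 4)) (l 4)) (l 4)), by decide +kernel⟩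

theorem c_A00mm_213_s3 : CertF 0 536870912 536870912 536870912 469762048 67108864 true false false .pnn 2 1 3
    ndF0q2 ndF0q1 pcF3 cut_A00mm_213_s3 xt_A00mm_213_s3 :=
  certF0 (fam := true) (s1 := false) (s2 := false) (a := 2) (b := 1) (c := 3) (cn := .pnn) (n1 := ndF0q2) (n2 := ndF0q1) (pc := pcF3) (cut := cut_A00mm_213_s3) (xt := xt_A00mm_213_s3) (P1 := 0) (W1 := 536870912) (P2 := 536870912) (W2 := 536870912) (P3 := 469762048) (W3 := 67108864)
    rfl k0_A00mm_213_s3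

theorem s_A00mm_213_s3 {κ x : ℝ} (hκ : κ * h0 = ken x) (hx : ((469762048 : ℕ) : ℝ) / S ≤ x)
    (hx' : x ≤ (((469762048 : ℕ) : ℝ) + (67108864 : ℕ)) / S) :
    AltA (VF κ) PP tKF tL pcF [⟨4, 0, 0, 2845415833⟩] 2 1 3 0 0 (sgb false) (sgb false) x :=
  strip_altA (m := 2845415833) false rfl hκ covF02 covF01 hx hx' c_A00mm_213_s3 cutA_nil ((okx hx hx').extA (T := tt) (sideF hx hx') hκ rfl rfl (.O 2 false) (.O 1 false) (Or.inr rfl))

noncomputable def cut_A04pp_001_s1 : Cut := Cut.of [[⟨4, 0, 0, 1449551462⟩]]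

noncomputable def f_A04pp_001_s1 : ℕ → ℕ → ℕ → ℕ → Bool := onCell 0 536870912 0 536870912 469762048 67108864
    (rowF 0 true true true .up 0 0 1 (qsf 0 536870912 0 536870912 1) ndF0q0 ndF4q0 pcF1 cut_A04pp_001_s1 Ext.none)

def k0_A04pp_001_s1 : ∃ t, chk3 f_A04pp_001_s1 t 1 1 1 = true :=
  ⟨(l 4), by decide +kernel⟩

theorem c_A04pp_001_s1 : CertF 0 536870912 0 536870912 469762048 67108864 true true true .up 0 0 1
    ndF0q0 ndF4q0 pcF1 cut_A04pp_001_s1 Ext.none :=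
  certF0 (fam := true) (s1 := true) (s2 := true) (a := 0) (b := 0) (c := 1) (cn := .up) (n1 := ndF0q0) (n2 := ndF4q0) (pc := pcF1) (cut := cut_A04pp_001_s1) (xt := Ext.none) (P1 := 0) (W1 := 536870912) (P2 := 0) (W2 := 536870912) (P3 := 469762048) (W3 := 67108864)
    rfl k0_A04pp_001_s1

theorem s_A04pp_001_s1 {κ x : ℝ} (hκ : κ * h0 = ken x) (hx : ((469762048 : ℕ) : ℝ) / S ≤ x)
    (hx' : x ≤ (((469762048 : ℕ) : ℝ) + (67108864 : ℕ)) / S) :
    AltA (VF κ) PP tKF tL pcF [⟨3, 0, 0, 1449551462⟩] 0 0 1 0 4 (sgb true) (sgb true) x :=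
  strip_altA (m := 1449551462) true rfl hκ covF00 covF40 hx hx' c_A04pp_001_s1 cutA_nil (noExt_A)

noncomputable def cut_A04pp_011_s1 : Cut := Cut.of [[⟨4, 0, 0, 1449551462⟩]]

noncomputable def f_A04pp_011_s1 : ℕ → ℕ → ℕ → ℕ → Bool := onCell 0 536870912 536870912 536870912 469762048 67108864
    (rowF 0 true true true .pnn 0 1 1 (qsf 0 536870912 536870912 536870912 1) ndF0q0 ndF4q1 pcF1 cut_A04pp_011_s1 Ext.none)

def k0_A04pp_011_s1 : ∃ t, chk3 f_A04pp_011_s1 t 1 1 1 = true :=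
  ⟨(l 4), by decide +kernel⟩

theorem c_A04pp_011_s1 : CertF 0 536870912 536870912 536870912 469762048 67108864 true true true .pnn 0 1 1
    ndF0q0 ndF4q1 pcF1 cut_A04pp_011_s1 Ext.none :=
  certF0 (fam := true) (s1 := true) (s2 := true) (a := 0) (b := 1) (c := 1) (cn := .pnn) (n1 := ndF0q0) (n2 := ndF4q1) (pc := pcF1) (cut := cut_A04pp_011_s1) (xt := Ext.none) (P1 := 0) (W1 := 536870912) (P2 := 536870912) (W2 := 536870912) (P3 := 469762048) (W3 := 67108864)
    rfl k0_A04pp_011_s1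

theorem s_A04pp_011_s1 {κ x : ℝ} (hκ : κ * h0 = ken x) (hx : ((469762048 : ℕ) : ℝ) / S ≤ x)
    (hx' : x ≤ (((469762048 : ℕ) : ℝ) + (67108864 : ℕ)) / S) :
    AltA (VF κ) PP tKF tL pcF [⟨3, 0, 0, 1449551462⟩] 0 1 1 0 4 (sgb true) (sgb true) x :=
  strip_altA (m := 1449551462) true rfl hκ covF00 covF41 hx hx' c_A04pp_011_s1 cutA_nil (noExt_A)

noncomputable def cut_A04pp_012_s1 : Cut := Cut.of [[⟨4, 0, 0, 1449551462⟩]]

noncomputable def f_A04pp_012_s1 : ℕ → ℕ → ℕ → ℕ → Bool := onCell 0 536870912 536870912 536870912 469762048 67108864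
    (rowF 0 true true true .pnp 0 1 2 (qsf 0 536870912 536870912 536870912 2) ndF0q0 ndF4q1 pcF2 cut_A04pp_012_s1 Ext.none)

def k0_A04pp_012_s1 : ∃ t, chk3 f_A04pp_012_s1 t 1 1 1 = true :=
  ⟨(l 4), by decide +kernel⟩

theorem c_A04pp_012_s1 : CertF 0 536870912 536870912 536870912 469762048 67108864 true true true .pnp 0 1 2
    ndF0q0 ndF4q1 pcF2 cut_A04pp_012_s1 Ext.none :=
  certF0 (fam := true) (s1 := true) (s2 := true) (a := 0) (b := 1) (c := 2) (cn := .pnp) (n1 := ndF0q0) (n2 := ndF4q1) (pc := pcF2) (cut := cut_A04pp_012_s1) (xt := Ext.none) (P1 := 0) (W1 := 536870912) (P2 := 536870912) (W2 := 536870912) (P3 := 469762048) (W3 := 67108864)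
    rfl k0_A04pp_012_s1

theorem s_A04pp_012_s1 {κ x : ℝ} (hκ : κ * h0 = ken x) (hx : ((469762048 : ℕ) : ℝ) / S ≤ x)
    (hx' : x ≤ (((469762048 : ℕ) : ℝ) + (67108864 : ℕ)) / S) :
    AltA (VF κ) PP tKF tL pcF [⟨3, 0, 0, 1449551462⟩] 0 1 2 0 4 (sgb true) (sgb true) x :=
  strip_altA (m := 1449551462) true rfl hκ covF00 covF41 hx hx' c_A04pp_012_s1 cutA_nil (noExt_A)

noncomputable def cut_A04pp_022_s1 : Cut := Cut.of [[⟨4, 0, 0, 1449551462⟩]]

noncomputable def f_A04pp_022_s1 : ℕ → ℕ → ℕ → ℕ → Bool := onCell 0 536870912 1073741824 536870912 469762048 67108864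
    (rowF 0 true true true .pp 0 2 2 (qsf 0 536870912 1073741824 536870912 2) ndF0q0 ndF4q2 pcF2 cut_A04pp_022_s1 Ext.none)

def k0_A04pp_022_s1 : ∃ t, chk3 f_A04pp_022_s1 t 1 1 1 = true :=
  ⟨(l 4), by decide +kernel⟩

theorem c_A04pp_022_s1 : CertF 0 536870912 1073741824 536870912 469762048 67108864 true true true .pp 0 2 2
    ndF0q0 ndF4q2 pcF2 cut_A04pp_022_s1 Ext.none :=
  certF0 (fam := true) (s1 := true) (s2 := true) (a := 0) (b := 2) (c := 2) (cn := .pp) (n1 := ndF0q0) (n2 := ndF4q2) (pc := pcF2) (cut := cut_A04pp_022_s1) (xt := Ext.none) (P1 := 0) (W1 := 536870912) (P2 := 1073741824) (W2 := 536870912) (P3 := 469762048) (W3 := 67108864)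
    rfl k0_A04pp_022_s1

theorem s_A04pp_022_s1 {κ x : ℝ} (hκ : κ * h0 = ken x) (hx : ((469762048 : ℕ) : ℝ) / S ≤ x)
    (hx' : x ≤ (((469762048 : ℕ) : ℝ) + (67108864 : ℕ)) / S) :
    AltA (VF κ) PP tKF tL pcF [⟨3, 0, 0, 1449551462⟩] 0 2 2 0 4 (sgb true) (sgb true) x :=
  strip_altA (m := 1449551462) true rfl hκ covF00 covF42 hx hx' c_A04pp_022_s1 cutA_nil (noExt_A)

noncomputable def cut_A04pp_023_s1 : Cut := Cut.of [[⟨4, 0, 0, 1449551462⟩]]

noncomputable def f_A04pp_023_s1 : ℕ → ℕ → ℕ → ℕ → Bool := onCell 0 536870912 1073741824 536870912 469762048 67108864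
    (rowF 0 true true true .up 0 2 3 (qsf 0 536870912 1073741824 536870912 3) ndF0q0 ndF4q2 pcF3 cut_A04pp_023_s1 Ext.none)

def k0_A04pp_023_s1 : ∃ t, chk3 f_A04pp_023_s1 t 1 1 1 = true :=
  ⟨(l 4), by decide +kernel⟩

theorem c_A04pp_023_s1 : CertF 0 536870912 1073741824 536870912 469762048 67108864 true true true .up 0 2 3
    ndF0q0 ndF4q2 pcF3 cut_A04pp_023_s1 Ext.none :=
  certF0 (fam := true) (s1 := true) (s2 := true) (a := 0) (b := 2) (c := 3) (cn := .up) (n1 := ndF0q0) (n2 := ndF4q2) (pc := pcF3) (cut := cut_A04pp_023_s1) (xt := Ext.none) (P1 := 0) (W1 := 536870912) (P2 := 1073741824) (W2 := 536870912) (P3 := 469762048) (W3 := 67108864)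
    rfl k0_A04pp_023_s1

theorem s_A04pp_023_s1 {κ x : ℝ} (hκ : κ * h0 = ken x) (hx : ((469762048 : ℕ) : ℝ) / S ≤ x)
    (hx' : x ≤ (((469762048 : ℕ) : ℝ) + (67108864 : ℕ)) / S) :
    AltA (VF κ) PP tKF tL pcF [⟨3, 0, 0, 1449551462⟩] 0 2 3 0 4 (sgb true) (sgb true) x :=
  strip_altA (m := 1449551462) true rfl hκ covF00 covF42 hx hx' c_A04pp_023_s1 cutA_nil (noExt_A)

noncomputable def cut_A04pp_033_s1 : Cut := Cut.of [[⟨4, 0, 0, 1449551462⟩]]

noncomputable def f_A04pp_033_s1 : ℕ → ℕ → ℕ → ℕ → Bool := onCell 0 536870912 0 1230186008 469762048 67108864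
    (rowF 0 true true true .pnn 0 3 3 (qsf 0 536870912 0 1230186008 3) ndF0q0 ndF4q3 pcF3 cut_A04pp_033_s1 Ext.none)

def k0_A04pp_033_s1 : ∃ t, chk3 f_A04pp_033_s1 t 1 1 1 = true :=
  ⟨(l 4), by decide +kernel⟩

theorem c_A04pp_033_s1 : CertF 0 536870912 0 1230186008 469762048 67108864 true true true .pnn 0 3 3
    ndF0q0 ndF4q3 pcF3 cut_A04pp_033_s1 Ext.none :=
  certF0 (fam := true) (s1 := true) (s2 := true) (a := 0) (b := 3) (c := 3) (cn := .pnn) (n1 := ndF0q0) (n2 := ndF4q3) (pc := pcF3) (cut := cut_A04pp_033_s1) (xt := Ext.none) (P1 := 0) (W1 := 536870912) (P2 := 0) (W2 := 1230186008) (P3 := 469762048) (W3 := 67108864)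
    rfl k0_A04pp_033_s1

theorem s_A04pp_033_s1 {κ x : ℝ} (hκ : κ * h0 = ken x) (hx : ((469762048 : ℕ) : ℝ) / S ≤ x)
    (hx' : x ≤ (((469762048 : ℕ) : ℝ) + (67108864 : ℕ)) / S) :
    AltA (VF κ) PP tKF tL pcF [⟨3, 0, 0, 1449551462⟩] 0 3 3 0 4 (sgb true) (sgb true) x :=
  strip_altA (m := 1449551462) true rfl hκ covF00 covF43 hx hx' c_A04pp_033_s1 cutA_nil (noExt_A)

noncomputable def cut_A04pp_101_s1 : Cut := Cut.of [[⟨4, 0, 0, 1449551462⟩]]

noncomputable def f_A04pp_101_s1 : ℕ → ℕ → ℕ → ℕ → Bool := onCell 536870912 536870912 0 536870912 469762048 67108864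
    (rowF 0 true true true .npn 1 0 1 (qsf 536870912 536870912 0 536870912 1) ndF0q1 ndF4q0 pcF1 cut_A04pp_101_s1 Ext.none)

def k0_A04pp_101_s1 : ∃ t, chk3 f_A04pp_101_s1 t 1 1 1 = true :=
  ⟨(l 4), by decide +kernel⟩

theorem c_A04pp_101_s1 : CertF 536870912 536870912 0 536870912 469762048 67108864 true true true .npn 1 0 1
    ndF0q1 ndF4q0 pcF1 cut_A04pp_101_s1 Ext.none :=
  certF0 (fam := true) (s1 := true) (s2 := true) (a := 1) (b := 0) (c := 1) (cn := .npn) (n1 := ndF0q1) (n2 := ndF4q0) (pc := pcF1) (cut := cut_A04pp_101_s1) (xt := Ext.none) (P1 := 536870912) (W1 := 536870912) (P2 := 0) (W2 := 536870912) (P3 := 469762048) (W3 := 67108864)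
    rfl k0_A04pp_101_s1

theorem s_A04pp_101_s1 {κ x : ℝ} (hκ : κ * h0 = ken x) (hx : ((469762048 : ℕ) : ℝ) / S ≤ x)
    (hx' : x ≤ (((469762048 : ℕ) : ℝ) + (67108864 : ℕ)) / S) :
    AltA (VF κ) PP tKF tL pcF [⟨3, 0, 0, 1449551462⟩] 1 0 1 0 4 (sgb true) (sgb true) x :=
  strip_altA (m := 1449551462) true rfl hκ covF01 covF40 hx hx' c_A04pp_101_s1 cutA_nil (noExt_A)

noncomputable def cut_A04pp_102_s1 : Cut := Cut.of [[⟨4, 0, 0, 1449551462⟩]]

noncomputable def f_A04pp_102_s1 : ℕ → ℕ → ℕ → ℕ → Bool := onCell 536870912 536870912 0 536870912 469762048 67108864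
    (rowF 0 true true true .npp 1 0 2 (qsf 536870912 536870912 0 536870912 2) ndF0q1 ndF4q0 pcF2 cut_A04pp_102_s1 Ext.none)

def k0_A04pp_102_s1 : ∃ t, chk3 f_A04pp_102_s1 t 1 1 1 = true :=
  ⟨(l 4), by decide +kernel⟩

theorem c_A04pp_102_s1 : CertF 536870912 536870912 0 536870912 469762048 67108864 true true true .npp 1 0 2
    ndF0q1 ndF4q0 pcF2 cut_A04pp_102_s1 Ext.none :=
  certF0 (fam := true) (s1 := true) (s2 := true) (a := 1) (b := 0) (c := 2) (cn := .npp) (n1 := ndF0q1) (n2 := ndF4q0) (pc := pcF2) (cut := cut_A04pp_102_s1) (xt := Ext.none) (P1 := 536870912) (W1 := 536870912) (P2 := 0) (W2 := 536870912) (P3 := 469762048) (W3 := 67108864)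
    rfl k0_A04pp_102_s1

theorem s_A04pp_102_s1 {κ x : ℝ} (hκ : κ * h0 = ken x) (hx : ((469762048 : ℕ) : ℝ) / S ≤ x)
    (hx' : x ≤ (((469762048 : ℕ) : ℝ) + (67108864 : ℕ)) / S) :
    AltA (VF κ) PP tKF tL pcF [⟨3, 0, 0, 1449551462⟩] 1 0 2 0 4 (sgb true) (sgb true) x :=
  strip_altA (m := 1449551462) true rfl hκ covF01 covF40 hx hx' c_A04pp_102_s1 cutA_nil (noExt_A)

noncomputable def cut_A04pp_112_s1 : Cut := Cut.of [[⟨4, 0, 0, 1449551462⟩]]

noncomputable def f_A04pp_112_s1 : ℕ → ℕ → ℕ → ℕ → Bool := onCell 536870912 536870912 536870912 536870912 469762048 67108864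
    (rowF 0 true true true .dn 1 1 2 (qsf 536870912 536870912 536870912 536870912 2) ndF0q1 ndF4q1 pcF2 cut_A04pp_112_s1 Ext.none)

def k0_A04pp_112_s1 : ∃ t, chk3 f_A04pp_112_s1 t 1 1 1 = true :=
  ⟨(l 4), by decide +kernel⟩

theorem c_A04pp_112_s1 : CertF 536870912 536870912 536870912 536870912 469762048 67108864 true true true .dn 1 1 2
    ndF0q1 ndF4q1 pcF2 cut_A04pp_112_s1 Ext.none :=
  certF0 (fam := true) (s1 := true) (s2 := true) (a := 1) (b := 1) (c := 2) (cn := .dn) (n1 := ndF0q1) (n2 := ndF4q1) (pc := pcF2) (cut := cut_A04pp_112_s1) (xt := Ext.none) (P1 := 536870912) (W1 := 536870912) (P2 := 536870912) (W2 := 536870912) (P3 := 469762048) (W3 := 67108864)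
    rfl k0_A04pp_112_s1

theorem s_A04pp_112_s1 {κ x : ℝ} (hκ : κ * h0 = ken x) (hx : ((469762048 : ℕ) : ℝ) / S ≤ x)
    (hx' : x ≤ (((469762048 : ℕ) : ℝ) + (67108864 : ℕ)) / S) :
    AltA (VF κ) PP tKF tL pcF [⟨3, 0, 0, 1449551462⟩] 1 1 2 0 4 (sgb true) (sgb true) x :=
  strip_altA (m := 1449551462) true rfl hκ covF01 covF41 hx hx' c_A04pp_112_s1 cutA_nil (noExt_A)

noncomputable def cut_A04pp_113_s1 : Cut := Cut.of [[⟨4, 0, 0, 1449551462⟩]]

noncomputable def f_A04pp_113_s1 : ℕ → ℕ → ℕ → ℕ → Bool := onCell 536870912 536870912 536870912 536870912 469762048 67108864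
    (rowF 0 true true true .nn 1 1 3 (qsf 536870912 536870912 536870912 536870912 3) ndF0q1 ndF4q1 pcF3 cut_A04pp_113_s1 Ext.none)

def k0_A04pp_113_s1 : ∃ t, chk3 f_A04pp_113_s1 t 1 1 1 = true :=
  ⟨(l 4), by decide +kernel⟩

theorem c_A04pp_113_s1 : CertF 536870912 536870912 536870912 536870912 469762048 67108864 true true true .nn 1 1 3
    ndF0q1 ndF4q1 pcF3 cut_A04pp_113_s1 Ext.none :=
  certF0 (fam := true) (s1 := true) (s2 := true) (a := 1) (b := 1) (c := 3) (cn := .nn) (n1 := ndF0q1) (n2 := ndF4q1) (pc := pcF3) (cut := cut_A04pp_113_s1) (xt := Ext.none) (P1 := 536870912) (W1 := 536870912) (P2 := 536870912) (W2 := 536870912) (P3 := 469762048) (W3 := 67108864)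
    rfl k0_A04pp_113_s1

theorem s_A04pp_113_s1 {κ x : ℝ} (hκ : κ * h0 = ken x) (hx : ((469762048 : ℕ) : ℝ) / S ≤ x)
    (hx' : x ≤ (((469762048 : ℕ) : ℝ) + (67108864 : ℕ)) / S) :
    AltA (VF κ) PP tKF tL pcF [⟨3, 0, 0, 1449551462⟩] 1 1 3 0 4 (sgb true) (sgb true) x :=
  strip_altA (m := 1449551462) true rfl hκ covF01 covF41 hx hx' c_A04pp_113_s1 cutA_nil (noExt_A)

noncomputable def cut_A04pp_123_s1 : Cut := Cut.of [[⟨4, 0, 0, 1449551462⟩]]

noncomputable def f_A04pp_123_s1 : ℕ → ℕ → ℕ → ℕ → Bool := onCell 536870912 536870912 1073741824 536870912 469762048 67108864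
    (rowF 0 true true true .npn 1 2 3 (qsf 536870912 536870912 1073741824 536870912 3) ndF0q1 ndF4q2 pcF3 cut_A04pp_123_s1 Ext.none)

def k0_A04pp_123_s1 : ∃ t, chk3 f_A04pp_123_s1 t 1 1 1 = true :=
  ⟨(l 4), by decide +kernel⟩

theorem c_A04pp_123_s1 : CertF 536870912 536870912 1073741824 536870912 469762048 67108864 true true true .npn 1 2 3
    ndF0q1 ndF4q2 pcF3 cut_A04pp_123_s1 Ext.none :=
  certF0 (fam := true) (s1 := true) (s2 := true) (a := 1) (b := 2) (c := 3) (cn := .npn) (n1 := ndF0q1) (n2 := ndF4q2) (pc := pcF3) (cut := cut_A04pp_123_s1) (xt := Ext.none) (P1 := 536870912) (W1 := 536870912) (P2 := 1073741824) (W2 := 536870912) (P3 := 469762048) (W3 := 67108864)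
    rfl k0_A04pp_123_s1

theorem s_A04pp_123_s1 {κ x : ℝ} (hκ : κ * h0 = ken x) (hx : ((469762048 : ℕ) : ℝ) / S ≤ x)
    (hx' : x ≤ (((469762048 : ℕ) : ℝ) + (67108864 : ℕ)) / S) :
    AltA (VF κ) PP tKF tL pcF [⟨3, 0, 0, 1449551462⟩] 1 2 3 0 4 (sgb true) (sgb true) x :=
  strip_altA (m := 1449551462) true rfl hκ covF01 covF42 hx hx' c_A04pp_123_s1 cutA_nil (noExt_A)

noncomputable def cut_A04pp_133_s1 : Cut := Cut.of [[⟨4, 0, 0, 1449551462⟩]]

noncomputable def f_A04pp_133_s1 : ℕ → ℕ → ℕ → ℕ → Bool := onCell 536870912 536870912 0 1230186008 469762048 67108864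
    (rowF 0 true true true .dn 1 3 3 (qsf 536870912 536870912 0 1230186008 3) ndF0q1 ndF4q3 pcF3 cut_A04pp_133_s1 Ext.none)

def k0_A04pp_133_s1 : ∃ t, chk3 f_A04pp_133_s1 t 1 1 1 = true :=
  ⟨(l 4), by decide +kernel⟩

theorem c_A04pp_133_s1 : CertF 536870912 536870912 0 1230186008 469762048 67108864 true true true .dn 1 3 3
    ndF0q1 ndF4q3 pcF3 cut_A04pp_133_s1 Ext.none :=
  certF0 (fam := true) (s1 := true) (s2 := true) (a := 1) (b := 3) (c := 3) (cn := .dn) (n1 := ndF0q1) (n2 := ndF4q3) (pc := pcF3) (cut := cut_A04pp_133_s1) (xt := Ext.none) (P1 := 536870912) (W1 := 536870912) (P2 := 0) (W2 := 1230186008) (P3 := 469762048) (W3 := 67108864)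
    rfl k0_A04pp_133_s1

theorem s_A04pp_133_s1 {κ x : ℝ} (hκ : κ * h0 = ken x) (hx : ((469762048 : ℕ) : ℝ) / S ≤ x)
    (hx' : x ≤ (((469762048 : ℕ) : ℝ) + (67108864 : ℕ)) / S) :
    AltA (VF κ) PP tKF tL pcF [⟨3, 0, 0, 1449551462⟩] 1 3 3 0 4 (sgb true) (sgb true) x :=
  strip_altA (m := 1449551462) true rfl hκ covF01 covF43 hx hx' c_A04pp_133_s1 cutA_nil (noExt_A)

noncomputable def cut_A04pp_202_s1 : Cut := Cut.of [[⟨4, 0, 0, 1449551462⟩]]

noncomputable def f_A04pp_202_s1 : ℕ → ℕ → ℕ → ℕ → Bool := onCell 0 536870912 0 536870912 469762048 67108864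
    (rowF 0 true true true .pp 2 0 2 (qsf 0 536870912 0 536870912 2) ndF0q2 ndF4q0 pcF2 cut_A04pp_202_s1 Ext.none)

def k0_A04pp_202_s1 : ∃ t, chk3 f_A04pp_202_s1 t 1 1 1 = true :=
  ⟨(l 4), by decide +kernel⟩

theorem c_A04pp_202_s1 : CertF 0 536870912 0 536870912 469762048 67108864 true true true .pp 2 0 2
    ndF0q2 ndF4q0 pcF2 cut_A04pp_202_s1 Ext.none :=
  certF0 (fam := true) (s1 := true) (s2 := true) (a := 2) (b := 0) (c := 2) (cn := .pp) (n1 := ndF0q2) (n2 := ndF4q0) (pc := pcF2) (cut := cut_A04pp_202_s1) (xt := Ext.none) (P1 := 0) (W1 := 536870912) (P2 := 0) (W2 := 536870912) (P3 := 469762048) (W3 := 67108864)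
    rfl k0_A04pp_202_s1

theorem s_A04pp_202_s1 {κ x : ℝ} (hκ : κ * h0 = ken x) (hx : ((469762048 : ℕ) : ℝ) / S ≤ x)
    (hx' : x ≤ (((469762048 : ℕ) : ℝ) + (67108864 : ℕ)) / S) :
    AltA (VF κ) PP tKF tL pcF [⟨3, 0, 0, 1449551462⟩] 2 0 2 0 4 (sgb true) (sgb true) x :=
  strip_altA (m := 1449551462) true rfl hκ covF02 covF40 hx hx' c_A04pp_202_s1 cutA_nil (noExt_A)

noncomputable def cut_A04pp_203_s1 : Cut := Cut.of [[⟨4, 0, 0, 1449551462⟩]]

noncomputable def f_A04pp_203_s1 : ℕ → ℕ → ℕ → ℕ → Bool := onCell 0 536870912 0 536870912 469762048 67108864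
    (rowF 0 true true true .up 2 0 3 (qsf 0 536870912 0 536870912 3) ndF0q2 ndF4q0 pcF3 cut_A04pp_203_s1 Ext.none)

def k0_A04pp_203_s1 : ∃ t, chk3 f_A04pp_203_s1 t 1 1 1 = true :=
  ⟨(l 4), by decide +kernel⟩

theorem c_A04pp_203_s1 : CertF 0 536870912 0 536870912 469762048 67108864 true true true .up 2 0 3
    ndF0q2 ndF4q0 pcF3 cut_A04pp_203_s1 Ext.none :=
  certF0 (fam := true) (s1 := true) (s2 := true) (a := 2) (b := 0) (c := 3) (cn := .up) (n1 := ndF0q2) (n2 := ndF4q0) (pc := pcF3) (cut := cut_A04pp_203_s1) (xt := Ext.none) (P1 := 0) (W1 := 536870912) (P2 := 0) (W2 := 536870912) (P3 := 469762048) (W3 := 67108864)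
    rfl k0_A04pp_203_s1

theorem s_A04pp_203_s1 {κ x : ℝ} (hκ : κ * h0 = ken x) (hx : ((469762048 : ℕ) : ℝ) / S ≤ x)
    (hx' : x ≤ (((469762048 : ℕ) : ℝ) + (67108864 : ℕ)) / S) :
    AltA (VF κ) PP tKF tL pcF [⟨3, 0, 0, 1449551462⟩] 2 0 3 0 4 (sgb true) (sgb true) x :=
  strip_altA (m := 1449551462) true rfl hκ covF02 covF40 hx hx' c_A04pp_203_s1 cutA_nil (noExt_A)

noncomputable def cut_A04pp_213_s1 : Cut := Cut.of [[⟨4, 0, 0, 1449551462⟩]]

noncomputable def f_A04pp_213_s1 : ℕ → ℕ → ℕ → ℕ → Bool := onCell 0 536870912 536870912 536870912 469762048 67108864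
    (rowF 0 true true true .pnn 2 1 3 (qsf 0 536870912 536870912 536870912 3) ndF0q2 ndF4q1 pcF3 cut_A04pp_213_s1 Ext.none)

def k0_A04pp_213_s1 : ∃ t, chk3 f_A04pp_213_s1 t 1 1 1 = true :=
  ⟨(l 4), by decide +kernel⟩

theorem c_A04pp_213_s1 : CertF 0 536870912 536870912 536870912 469762048 67108864 true true true .pnn 2 1 3
    ndF0q2 ndF4q1 pcF3 cut_A04pp_213_s1 Ext.none :=
  certF0 (fam := true) (s1 := true) (s2 := true) (a := 2) (b := 1) (c := 3) (cn := .pnn) (n1 := ndF0q2) (n2 := ndF4q1) (pc := pcF3) (cut := cut_A04pp_213_s1) (xt := Ext.none) (P1 := 0) (W1 := 536870912) (P2 := 536870912) (W2 := 536870912) (P3 := 469762048) (W3 := 67108864)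
    rfl k0_A04pp_213_s1

theorem s_A04pp_213_s1 {κ x : ℝ} (hκ : κ * h0 = ken x) (hx : ((469762048 : ℕ) : ℝ) / S ≤ x)
    (hx' : x ≤ (((469762048 : ℕ) : ℝ) + (67108864 : ℕ)) / S) :
    AltA (VF κ) PP tKF tL pcF [⟨3, 0, 0, 1449551462⟩] 2 1 3 0 4 (sgb true) (sgb true) x :=
  strip_altA (m := 1449551462) true rfl hκ covF02 covF41 hx hx' c_A04pp_213_s1 cutA_nil (noExt_A)

noncomputable def cut_A04pm_001_s1 : Cut := Cut.of [[⟨4, 0, 0, 1449551462⟩]]

noncomputable def xt_A04pm_001_s1 : Ext := strExt dd true true false .u0 .s0m .u0m .up 0 0 1 rfl rfl gf1 vv ndF0q0 ndF4q0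

noncomputable def f_A04pm_001_s1 : ℕ → ℕ → ℕ → ℕ → Bool := onCell 0 536870912 536870912 536870912 469762048 67108864
    (rowF 1 true true false .up 0 0 1 (qsf 0 536870912 0 536870912 1) ndF0q0 ndF4q0 pcF1 cut_A04pm_001_s1 xt_A04pm_001_s1)

def k0_A04pm_001_s1 : ∃ t, chk3 f_A04pm_001_s1 t 1 1 1 = true :=
  ⟨(a (b (l 3) (b (b (l 3) (l 2)) (l 2))) (b (b (l 3) (a (l 3) (a (b (l 3) (a (b (l 3) (b (l 535034639) (l 534577423))) (b (l 536324367) (l 535646991)))) (b (b (a (l 3) (l 537714703)) (l 537375503)) (b (l 537027343) (a (l 536303887) (l 536798735))))))) (a (b (a (b (a (l 3) (b (l 3) (l 526718735))) (a (l 2) (b (l 526248719) (l 2)))) (b (b (l 531807503) (a (l 529019407) (l 530999311))) (a (b (l 526515215) (a (l 2) (l 525770255))) (b (l 529014799) (l 526486543))))) (a (l 2) (b (a (l 2) (b (l 526123023) (l 2))) (l 2)))) (b (b (a (a (l 533211151) (b (l 534803471) (l 533777167))) (b (a (l 535637519) (l 16768096)) (a (l 16744288)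 (l 16751680)))) (a (a (b (l 530959119) (l 528944911)) (b (l 16787936) (l 16646216))) (a (b (l 16711872) (l 16661360)) (b (l 16723912) (l 16680392))))) (a (b (a (b (l 16629872) (l 16574512)) (b (l 16559472) (l 16546368))) (b (a (l 2) (l 16490112)) (l 2))) (b (b (a (l 16585968) (l 16615512)) (a (l 16476696) (l 16521672))) (a (b (l 16380152) (l 16407120)) (b (l 16388856) (l 16298432))))))))), by decide +kernel⟩

theorem c_A04pm_001_s1 : CertF 0 536870912 0 536870912 469762048 67108864 true true false .up 0 0 1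
    ndF0q0 ndF4q0 pcF1 cut_A04pm_001_s1 xt_A04pm_001_s1 :=
  certF1 (fam := true) (s1 := true) (s2 := false) (a := 0) (b := 0) (c := 1) (cn := .up) (n1 := ndF0q0) (n2 := ndF4q0) (pc := pcF1) (cut := cut_A04pm_001_s1) (xt := xt_A04pm_001_s1) (P1 := 0) (W1 := 536870912) (P2 := 0) (W2 := 536870912) (P3 := 469762048) (W3 := 67108864)
    rfl (fun _ => rfl) k0_A04pm_001_s1

theorem s_A04pm_001_s1 {κ x : ℝ} (hκ : κ * h0 = ken x) (hx : ((469762048 : ℕ) : ℝ) / S ≤ x)
    (hx' : x ≤ (((469762048 : ℕ) : ℝ) + (67108864 : ℕ)) / S) :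
    AltA (VF κ) PP tKF tL pcF [⟨3, 0, 0, 1449551462⟩] 0 0 1 0 4 (sgb true) (sgb false) x :=
  strip_altA (m := 1449551462) true rfl hκ covF00 covF40 hx hx' c_A04pm_001_s1 cutA_nil ((okx hx hx').extA (T := tt) (sideF hx hx') hκ rfl rfl (.O 0 true) (.N 0 false) (Or.inr rfl))

noncomputable def cut_A04pm_011_s1 : Cut := Cut.of [[⟨4, 0, 0, 1449551462⟩], [⟨0, 0, 0, 67108864⟩, ⟨1, 1, 0, 67108864⟩, ⟨2, 1, 0, 67108864⟩]]

noncomputable def xt_A04pm_011_s1 : Ext := strExt dd true true false .u0 .s0m .u0m .pnn 0 1 1 rfl rfl gf1 vv ndF0q0 ndF4q1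

noncomputable def f_A04pm_011_s1 : ℕ → ℕ → ℕ → ℕ → Bool := onCell 0 536870912 536870912 536870912 469762048 67108864
    (rowF 1 true true false .pnn 0 1 1 (qsf 0 536870912 536870912 536870912 1) ndF0q0 ndF4q1 pcF1 cut_A04pm_011_s1 xt_A04pm_011_s1)

def k0_A04pm_011_s1 : ∃ t, chk3 f_A04pm_011_s1 t 1 2 1 = true :=
  ⟨(a (l 3) (a (a (l 3) (l 1)) (l 1))), by decide +kernel⟩

def k1_A04pm_011_s1 : ∃ t, chk3 f_A04pm_011_s1 t 1 6 1 = true :=
  ⟨(a (b (l 3) (b (l 3) (a (l 3) (a (l 3) (a (a (l 3) (l 524580111)) (l 524758543)))))) (a (a (b (a (l 3) (b (l 3) (l 526452239))) (a (b (l 524917775) (l 525029135)) (b (l 525152271) (l 525320719)))) (b (b (l 1) (a (l 529020943) (l 1))) (b (a (l 526519055) (l 529017103)) (a (l 525657103) (l 526491407))))) (a (b (l 1) (a (b (l 1) (l 16721568)) (l 1))) (l 1)))), by decide +kernel⟩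

def k2_A04pm_011_s1 : ∃ t, chk3 f_A04pm_011_s1 t 2 7 1 = true :=
  ⟨(b (a (b (l 3) (a (l 3) (a (l 3) (a (l 3) (l 524469263))))) (a (a (b (l 3) (a (l 524286991) (l 524375567))) (b (b (l 3) (l 524420367)) (a (l 524466959) (l 524562191)))) (a (b (a (l 524568335) (l 524680207)) (a (l 524661775) (l 524764943))) (b (b (l 524832783) (l 524871695)) (a (l 524872975) (l 524986383)))))) (a (b (b (a (l 3) (a (a (l 3) (a (l 3) (l 524205071))) (a (l 524234767) (l 524311823)))) (a (a (l 3) (a (l 3) (a (l 3) (l 524693007)))) (a (a (a (l 524188687) (l 524220175)) (a (l 524251151) (l 524282383))) (a (l 524576527) (l 524379919))))) (a (b (a (b (l 3) (l 14)) (a (a (a (a (l 524190991) (l 524197135)) (l 525804047)) (a (l 524475919) (l 524220943))) (a (a (l 524233743) (l 524246543)) (l 525320463)))) (a (l 14) (a (a (l 14) (a (l 14) (l 524856335))) (a (a (l 524330767) (l 524342031)) (a (l 524353295) (l 524364303)))))) (a (a (a (b (l 524276495) (l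 524366863)) (b (l 524304911) (l 524392719))) (a (a (l 524365071) (l 524377871)) (l 525732111))) (a (b (l 524383247) (l 524729615)) (b (l 524449807) (l 524522255)))))) (a (a (b (a (l 524947983) (l 524489743)) (a (l 525613583) (l 524608271))) (b (a (l 524571663) (l 524657423)) (a (l 524679951) (l 524755983)))) (a (b (a (l 524747791) (l 524842511)) (b (l 16616416) (l 16585080))) (b (l 524714511) (l 525048335)))))), by decide +kernel⟩

def k3_A04pm_011_s1 : ∃ t, chk3 f_A04pm_011_s1 t 3 7 1 = true :=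
  ⟨(a (a (b (b (a (l 525104143) (l 525382927)) (a (l 525159695) (l 525960207))) (b (a (l 526012431) (c (l 16616984) (l 16611296))) (a (l 526865935) (l 526828303)))) (b (a (b (l 525699855) (l 525723407)) (b (l 526105871) (l 16602616))) (a (b (l 16577968) (l 16517392)) (b (l 16544256) (l 16484248))))) (b (a (a (b (l 16627272) (l 16571896)) (b (l 16560544) (l 16459992))) (b (l 1) (a (l 16478056) (l 1)))) (a (b (a (l 16514216) (l 16403720)) (a (l 16454976) (l 16345312))) (b (a (l 16377752) (l 16390504)) (a (l 16320816) (l 16296120)))))), by decide +kernel⟩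

theorem t4_A04pm_011_s1 : ∃ t, chk3 f_A04pm_011_s1 t 1 7 1 = true := ex3_a k2_A04pm_011_s1 k3_A04pm_011_s1

theorem t5_A04pm_011_s1 : ∃ t, chk3 f_A04pm_011_s1 t 1 3 1 = true := ex3_b k1_A04pm_011_s1 t4_A04pm_011_s1

theorem t6_A04pm_011_s1 : ∃ t, chk3 f_A04pm_011_s1 t 1 1 1 = true := ex3_b k0_A04pm_011_s1 t5_A04pm_011_s1

theorem c_A04pm_011_s1 : CertF 0 536870912 536870912 536870912 469762048 67108864 true true false .pnn 0 1 1
    ndF0q0 ndF4q1 pcF1 cut_A04pm_011_s1 xt_A04pm_011_s1 :=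
  certF1 (fam := true) (s1 := true) (s2 := false) (a := 0) (b := 1) (c := 1) (cn := .pnn) (n1 := ndF0q0) (n2 := ndF4q1) (pc := pcF1) (cut := cut_A04pm_011_s1) (xt := xt_A04pm_011_s1) (P1 := 0) (W1 := 536870912) (P2 := 536870912) (W2 := 536870912) (P3 := 469762048) (W3 := 67108864)
    rfl (fun _ => rfl) t6_A04pm_011_s1

theorem s_A04pm_011_s1 {κ x : ℝ} (hκ : κ * h0 = ken x) (hx : ((469762048 : ℕ) : ℝ) / S ≤ x)
    (hx' : x ≤ (((469762048 : ℕ) : ℝ) + (67108864 : ℕ)) / S)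
    (H : CutA (VF κ) PP tKF tL pcF (Cut.of [[⟨0, 0, 0, 67108864⟩, ⟨1, 1, 0, 67108864⟩, ⟨2, 1, 0, 67108864⟩]]) 0 1 1 0 4 (sgb true) (sgb false) x) :
    AltA (VF κ) PP tKF tL pcF [⟨3, 0, 0, 1449551462⟩] 0 1 1 0 4 (sgb true) (sgb false) x :=
  strip_altA (m := 1449551462) true rfl hκ covF00 covF41 hx hx' c_A04pm_011_s1 H ((okx hx hx').extA (T := tt) (sideF hx hx') hκ rfl rfl (.O 0 true) (.N 1 false) (Or.inr rfl))

noncomputable def cut_A04pm_012_s1 : Cut := Cut.of [[⟨4, 0, 0, 1449551462⟩], [⟨0, 0, 0, 67108864⟩, ⟨1, 1, 0, 67108864⟩, ⟨2, 1, 0, 67108864⟩]]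

noncomputable def f_A04pm_012_s1 : ℕ → ℕ → ℕ → ℕ → Bool := onCell 1073741824 536870912 536870912 536870912 469762048 67108864
    (rowF 2 true true false .pnp 0 1 2 (qsf 0 536870912 536870912 536870912 2) ndF0q0 ndF4q1 pcF2 cut_A04pm_012_s1 Ext.none)

def k0_A04pm_012_s1 : ∃ t, chk3 f_A04pm_012_s1 t 4 2 1 = true :=
  ⟨(b (a (b (a (b (l 16240096) (l 16265072)) (l 6)) (a (b (l 16279944) (l 16295168)) (b (l 16223448) (l 16247584)))) (l 6)) (a (b (a (b (l 16350008) (l 16390736)) (b (l 16271600) (l 16302304))) (a (b (l 16436472) (l 16524432)) (a (l 16442920) (l 16433720)))) (b (a (b (l 16279704) (l 16301648)) (l 6)) (a (b (l 16326944) (l 16353200)) (l 16423088))))), by decide +kernel⟩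

def k1_A04pm_012_s1 : ∃ t, chk3 f_A04pm_012_s1 t 8 3 1 = true :=
  ⟨(b (a (b (a (b (l 16471008) (l 16597920)) (l 16540160)) (a (b (l 16638752) (a (l 16638872) (l 16580024))) (b (l 16518232) (l 16557488)))) (b (b (l 16409944) (l 16530568)) (b (l 16566016) (a (l 16529512) (l 16503416))))) (a (b (a (a (b (a (l 16693208) (l 16679752)) (b (l 16713392) (b (l 16684616) (l 16703784)))) (b (l 16661936) (l 16689408))) (b (l 16615936) (b (l 16621840) (b (l 16676792) (l 16685296))))) (a (b (b (a (a (c (l 16734192) (l 16722904)) (l 16720896)) (l 16695504)) (a (l 14) (b (l 16698080) (l 14)))) (l 14)) (b (b (a (l 16707424) (l 16646360)) (a (b (l 16677984) (l 16686152)) (b (l 16658304) (l 16666104)))) (b (b (a (l 14) (l 16673760)) (l 14)) (l 14))))) (b (b (a (l 16647536) (l 16534312)) (a (b (l 16588112) (l 16603808)) (b (l 16556400) (l 16570544)))) (b (b (a (b (l 16615264) (l 16622744)) (l 16584200)) (a (b (l 16630088) (l 16658280)) (b (l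 16594136) (l 16600584)))) (b (a (b (a (l 16654032) (l 16634864)) (a (l 16661176) (l 16641624))) (b (l 16606912) (a (l 16622504) (l 16603800)))) (a (b (a (l 14) (b (l 16646600) (l 14))) (l 14)) (a (b (l 16649712) (b (l 16633320) (l 14))) (b (l 16609664) (b (l 16613968) (c (l 16622536) (l 16610736))))))))))), by decide +kernel⟩

def k2_A04pm_012_s1 : ∃ t, chk3 f_A04pm_012_s1 t 9 3 1 = true :=
  ⟨(b (b (a (b (l 16382136) (l 16411184)) (l 16460912)) (b (a (l 16439824) (l 16408024)) (a (l 16551120) (l 16428248)))) (b (b (a (a (l 16506440) (l 16480768)) (l 16447320)) (a (a (l 16616448) (l 16503712)) (b (l 16460872) (l 16469408)))) (a (b (b (a (l 16551008) (l 16519832)) (a (l 16562680) (l 16529968))) (b (a (b (l 16571104) (l 16576552)) (b (l 16537256) (l 16541944))) (a (b (b (l 16580544) (l 16583160)) (b (a (l 16595040) (l 16576552)) (a (l 16597680) (l 16579008)))) (b (a (l 16555096) (l 16538032)) (a (b (l 16558560) (l 16560832)) (l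 16542240)))))) (b (b (l 16561424) (a (l 16499656) (l 16471392))) (b (a (b (l 16505736) (l 16509624)) (l 16561696)) (a (b (l 16513376) (a (l 16525288) (l 16508848))) (b (l 16482312) (c (l 16496944) (l 16472848))))))))), by decide +kernel⟩

def k3_A04pm_012_s1 : ∃ t, chk3 f_A04pm_012_s1 t 5 1 1 = true :=
  ⟨(b (b (l 6) (l 6)) (b (a (b (a (a (l 16369016) (l 6)) (l 6)) (a (a (l 16397520) (b (l 16381536) (l 16392224))) (l 16375208))) (l 6)) (b (a (a (a (b (l 16418696) (l 16431352)) (b (l 16402528) (l 16495672))) (b (l 16382104) (l 16386224))) (l 6)) (a (b (a (a (b (l 16440000) (l 16445248)) (a (l 16425144) (l 16498240))) (b (l 16388560) (l 16389648))) (a (a (b (l 16450064) (b (l 16453368) (c (l 16468880) (l 16441384)))) (b (a (l 16430720) (l 16418712)) (a (l 16433848) (a (l 16424112) (l 16417904))))) (b (l 16390360) (a (l 16402440) (l 16379512))))) (a (b (l 16440304) (b (l 16352512) (b (l 16350248) (l 16348600)))) (l 6)))))), by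 decide +kernel⟩

def k4_A04pm_012_s1 : ∃ t, chk3 f_A04pm_012_s1 t 3 1 1 = true :=
  ⟨(b (l 6) (l 6)), by decide +kernel⟩

theorem t5_A04pm_012_s1 : ∃ t, chk3 f_A04pm_012_s1 t 4 3 1 = true := ex3_a k1_A04pm_012_s1 k2_A04pm_012_s1

theorem t6_A04pm_012_s1 : ∃ t, chk3 f_A04pm_012_s1 t 4 1 1 = true := ex3_b k0_A04pm_012_s1 t5_A04pm_012_s1

theorem t7_A04pm_012_s1 : ∃ t, chk3 f_A04pm_012_s1 t 2 1 1 = true := ex3_a t6_A04pm_012_s1 k3_A04pm_012_s1

theorem t8_A04pm_012_s1 : ∃ t, chk3 f_A04pm_012_s1 t 1 1 1 = true := ex3_a t7_A04pm_012_s1 k4_A04pm_012_s1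

theorem c_A04pm_012_s1 : CertF 0 536870912 536870912 536870912 469762048 67108864 true true false .pnp 0 1 2
    ndF0q0 ndF4q1 pcF2 cut_A04pm_012_s1 Ext.none :=
  certF2 (fam := true) (s1 := true) (s2 := false) (a := 0) (b := 1) (c := 2) (cn := .pnp) (n1 := ndF0q0) (n2 := ndF4q1) (pc := pcF2) (cut := cut_A04pm_012_s1) (xt := Ext.none) (P1 := 0) (W1 := 536870912) (P2 := 536870912) (W2 := 536870912) (P3 := 469762048) (W3 := 67108864)
    rfl (fun _ => rfl) t8_A04pm_012_s1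

theorem s_A04pm_012_s1 {κ x : ℝ} (hκ : κ * h0 = ken x) (hx : ((469762048 : ℕ) : ℝ) / S ≤ x)
    (hx' : x ≤ (((469762048 : ℕ) : ℝ) + (67108864 : ℕ)) / S)
    (H : CutA (VF κ) PP tKF tL pcF (Cut.of [[⟨0, 0, 0, 67108864⟩, ⟨1, 1, 0, 67108864⟩, ⟨2, 1, 0, 67108864⟩]]) 0 1 2 0 4 (sgb true) (sgb false) x) :
    AltA (VF κ) PP tKF tL pcF [⟨3, 0, 0, 1449551462⟩] 0 1 2 0 4 (sgb true) (sgb false) x :=
  strip_altA (m := 1449551462) true rfl hκ covF00 covF41 hx hx' c_A04pm_012_s1 H (noExt_A)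

noncomputable def cut_A04pm_022_s1 : Cut := Cut.of [[⟨4, 0, 0, 1449551462⟩], [⟨0, 0, 0, 67108864⟩, ⟨1, 1, 0, 67108864⟩, ⟨2, 1, 0, 67108864⟩]]

noncomputable def f_A04pm_022_s1 : ℕ → ℕ → ℕ → ℕ → Bool := onCell 0 536870912 1073741824 536870912 469762048 67108864
    (rowF 0 true true false .pp 0 2 2 (qsf 0 536870912 1073741824 536870912 2) ndF0q0 ndF4q2 pcF2 cut_A04pm_022_s1 Ext.none)

def k0_A04pm_022_s1 : ∃ t, chk3 f_A04pm_022_s1 t 4 2 1 = true :=
  ⟨(b (a (b (a (b (a (l 14) (b (l 14) (b (l 14) (l 16688584)))) (a (b (a (l 14) (l 16705200)) (a (l 16694544) (l 16631064))) (b (a (l 16685752) (l 16624768)) (l 16645440)))) (b (a (b (b (l 14) (b (l 14) (l 16643392))) (b (l 16674688) (l 16618488))) (b (b (b (a (l 14) (l 16625440)) (a (l 16627776) (l 16608480))) (b (l 16611464) (l 16604840))) (b (l 16594888) (l 16581600)))) (b (a (l 16638968) (l 16561672)) (a (l 16568296) (l 16534984))))) (b (a (a (b (l 16671136) (l 16660960)) (a (l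 16649320) (l 16632816))) (b (l 16607496) (a (l 16510384) (l 16565240)))) (a (b (l 16630280) (a (l 16515512) (l 16562808))) (b (a (l 16565304) (l 16453608)) (l 16521968))))) (b (b (a (b (b (a (a (b (l 16595864) (l 16589608)) (c (l 16581488) (l 16566600))) (b (a (l 16559104) (l 16541568)) (l 16544688))) (a (b (l 16574232) (l 16568112)) (l 16536296))) (b (a (l 16558952) (l 16525064)) (l 16592928))) (b (b (a (a (l 16563880) (l 16505536)) (c (l 16493720) (l 16469600))) (a (l 16503440) (l 16472640))) (a (l 16571936) (b (l 16463368) (a (l 16461016) (l 16447296)))))) (a (b (a (l 16528280) (l 16496824)) (a (l 16503552) (b (l 16479752) (l 16468536)))) (b (a (b (l 16472544) (a (l 16469192) (l 16455408))) (b (l 16444624) (l 16435048))) (a (l 16446344) (l 16420768))))) (b (a (b (a (b (l 16484896) (l 16472624)) (l 16450928)) (l 16523864)) (l 16402424)) (l 16464056)))) (b (a (a (b (a (b (l 16568704) (l 16455392)) (l 16513912)) (l 16387720))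 (l 16531624)) (b (l 16415512) (l 16364400))) (a (a (l 16392288) (l 16317440)) (b (l 16226200) (l 6))))), by decide +kernel⟩

def k1_A04pm_022_s1 : ∃ t, chk3 f_A04pm_022_s1 t 5 2 1 = true :=
  ⟨(b (b (b (a (b (a (a (b (b (l 16454328) (l 16450208)) (a (l 16450936) (b (l 16439208) (l 16435288)))) (b (a (b (l 16433416) (a (l 16432976) (l 16426440))) (b (c (l 16435768) (l 16403944)) (l 16416568))) (a (l 16507776) (l 16411232)))) (b (l 16387600) (l 16381408))) (a (a (b (a (b (l 16444552) (l 16440376)) (l 16429032)) (l 16427096)) (l 16406192)) (l 16371952))) (a (a (a (l 16436472) (l 16427176)) (l 6)) (l 6))) (a (a (l 16393912) (l 16352328)) (l 6))) (a (b (l 16424760) (l 16307904)) (l 6))) (b (l 6) (l 6))), by decide +kernel⟩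

def k2_A04pm_022_s1 : ∃ t, chk3 f_A04pm_022_s1 t 2 3 1 = true :=
  ⟨(b (a (a (b (a (l 16302360) (l 6)) (l 6)) (l 6)) (l 6)) (l 6)), by decide +kernel⟩

def k3_A04pm_022_s1 : ∃ t, chk3 f_A04pm_022_s1 t 3 1 1 = true :=
  ⟨(b (l 6) (l 6)), by decide +kernel⟩

theorem t4_A04pm_022_s1 : ∃ t, chk3 f_A04pm_022_s1 t 2 2 1 = true := ex3_a k0_A04pm_022_s1 k1_A04pm_022_s1

theorem t5_A04pm_022_s1 : ∃ t, chk3 f_A04pm_022_s1 t 2 1 1 = true := ex3_b t4_A04pm_022_s1 k2_A04pm_022_s1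

theorem t6_A04pm_022_s1 : ∃ t, chk3 f_A04pm_022_s1 t 1 1 1 = true := ex3_a t5_A04pm_022_s1 k3_A04pm_022_s1

theorem c_A04pm_022_s1 : CertF 0 536870912 1073741824 536870912 469762048 67108864 true true false .pp 0 2 2
    ndF0q0 ndF4q2 pcF2 cut_A04pm_022_s1 Ext.none :=
  certF0 (fam := true) (s1 := true) (s2 := false) (a := 0) (b := 2) (c := 2) (cn := .pp) (n1 := ndF0q0) (n2 := ndF4q2) (pc := pcF2) (cut := cut_A04pm_022_s1) (xt := Ext.none) (P1 := 0) (W1 := 536870912) (P2 := 1073741824) (W2 := 536870912) (P3 := 469762048) (W3 := 67108864)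
    rfl t6_A04pm_022_s1

theorem s_A04pm_022_s1 {κ x : ℝ} (hκ : κ * h0 = ken x) (hx : ((469762048 : ℕ) : ℝ) / S ≤ x)
    (hx' : x ≤ (((469762048 : ℕ) : ℝ) + (67108864 : ℕ)) / S)
    (H : CutA (VF κ) PP tKF tL pcF (Cut.of [[⟨0, 0, 0, 67108864⟩, ⟨1, 1, 0, 67108864⟩, ⟨2, 1, 0, 67108864⟩]]) 0 2 2 0 4 (sgb true) (sgb false) x) :
    AltA (VF κ) PP tKF tL pcF [⟨3, 0, 0, 1449551462⟩] 0 2 2 0 4 (sgb true) (sgb false) x :=
  strip_altA (m := 1449551462) true rfl hκ covF00 covF42 hx hx' c_A04pm_022_s1 H (noExt_A)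

noncomputable def cut_A04pm_023_s1 : Cut := Cut.of [[⟨4, 0, 0, 1449551462⟩]]

noncomputable def f_A04pm_023_s1 : ℕ → ℕ → ℕ → ℕ → Bool := onCell 1610612736 536870912 1073741824 536870912 469762048 67108864
    (rowF 2 true true false .up 0 2 3 (qsf 0 536870912 1073741824 536870912 3) ndF0q0 ndF4q2 pcF3 cut_A04pm_023_s1 Ext.none)

def k0_A04pm_023_s1 : ∃ t, chk3 f_A04pm_023_s1 t 1 1 1 = true :=
  ⟨(a (l 6) (l 6)), by decide +kernel⟩

theorem c_A04pm_023_s1 : CertF 0 536870912 1073741824 536870912 469762048 67108864 true true false .up 0 2 3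
    ndF0q0 ndF4q2 pcF3 cut_A04pm_023_s1 Ext.none :=
  certF2 (fam := true) (s1 := true) (s2 := false) (a := 0) (b := 2) (c := 3) (cn := .up) (n1 := ndF0q0) (n2 := ndF4q2) (pc := pcF3) (cut := cut_A04pm_023_s1) (xt := Ext.none) (P1 := 0) (W1 := 536870912) (P2 := 1073741824) (W2 := 536870912) (P3 := 469762048) (W3 := 67108864)
    rfl (fun _ => rfl) k0_A04pm_023_s1

theorem s_A04pm_023_s1 {κ x : ℝ} (hκ : κ * h0 = ken x) (hx : ((469762048 : ℕ) : ℝ) / S ≤ x)
    (hx' : x ≤ (((469762048 : ℕ) : ℝ) + (67108864 : ℕ)) / S) :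
    AltA (VF κ) PP tKF tL pcF [⟨3, 0, 0, 1449551462⟩] 0 2 3 0 4 (sgb true) (sgb false) x :=
  strip_altA (m := 1449551462) true rfl hκ covF00 covF42 hx hx' c_A04pm_023_s1 cutA_nil (noExt_A)

noncomputable def cut_A04pm_033_s1 : Cut := Cut.of [[⟨4, 0, 0, 1449551462⟩]]

noncomputable def f_A04pm_033_s1 : ℕ → ℕ → ℕ → ℕ → Bool := onCell 1610612736 536870912 0 1230186008 469762048 67108864
    (rowF 2 true true false .pnn 0 3 3 (qsf 0 536870912 0 1230186008 3) ndF0q0 ndF4q3 pcF3 cut_A04pm_033_s1 Ext.none)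

def k0_A04pm_033_s1 : ∃ t, chk3 f_A04pm_033_s1 t 1 1 1 = true :=
  ⟨(b (l 6) (l 6)), by decide +kernel⟩

theorem c_A04pm_033_s1 : CertF 0 536870912 0 1230186008 469762048 67108864 true true false .pnn 0 3 3
    ndF0q0 ndF4q3 pcF3 cut_A04pm_033_s1 Ext.none :=
  certF2 (fam := true) (s1 := true) (s2 := false) (a := 0) (b := 3) (c := 3) (cn := .pnn) (n1 := ndF0q0) (n2 := ndF4q3) (pc := pcF3) (cut := cut_A04pm_033_s1) (xt := Ext.none) (P1 := 0) (W1 := 536870912) (P2 := 0) (W2 := 1230186008) (P3 := 469762048) (W3 := 67108864)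
    rfl (fun _ => rfl) k0_A04pm_033_s1

theorem s_A04pm_033_s1 {κ x : ℝ} (hκ : κ * h0 = ken x) (hx : ((469762048 : ℕ) : ℝ) / S ≤ x)
    (hx' : x ≤ (((469762048 : ℕ) : ℝ) + (67108864 : ℕ)) / S) :
    AltA (VF κ) PP tKF tL pcF [⟨3, 0, 0, 1449551462⟩] 0 3 3 0 4 (sgb true) (sgb false) x :=
  strip_altA (m := 1449551462) true rfl hκ covF00 covF43 hx hx' c_A04pm_033_s1 cutA_nil (noExt_A)

noncomputable def cut_A04pm_101_s1 : Cut := Cut.of [[⟨4, 0, 0, 1449551462⟩]]

noncomputable def xt_A04pm_101_s1 : Ext := strExt dd true true false .u0 .s0m .u0m .npn 1 0 1 rfl rfl gf1 vv ndF0q1 ndF4q0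

noncomputable def f_A04pm_101_s1 : ℕ → ℕ → ℕ → ℕ → Bool := onCell 536870912 536870912 536870912 536870912 469762048 67108864
    (rowF 1 true true false .npn 1 0 1 (qsf 536870912 536870912 0 536870912 1) ndF0q1 ndF4q0 pcF1 cut_A04pm_101_s1 xt_A04pm_101_s1)

def k0_A04pm_101_s1 : ∃ t, chk3 f_A04pm_101_s1 t 1 1 1 = true :=
  ⟨(a (a (b (b (a (b (l 3) (a (b (l 3) (l 537926159)) (b (l 538021647) (l 537960207)))) (b (b (l 1) (a (l 538009103) (l 1))) (a (b (l 537998863) (l 537968655)) (b (a (l 537963023) (l 1)) (b (l 16787168) (l 16789024)))))) (a (b (a (l 537757455) (b (a (l 537865743) (l 537896463)) (l 537786383))) (a (b (l 537459471) (l 16781448)) (b (l 16788280) (l 16787872)))) (b (a (b (l 537921551) (l 16791400)) (b (l 16792512) (l 16797104))) (a (b (l 16794312) (l 16795048)) (l 16802056))))) (b (a (b (a (b (l 16775008) (l 16761584)) (l 16778728)) (a (l 16721448) (l 16739776))) (b (a (l 16788904) (l 16799264)) (a (l 16757856)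 (l 16775096)))) (a (b (a (l 16608816) (l 16645320)) (a (b (l 16453168) (l 16295744)) (l 16449848))) (b (a (l 16679072) (l 16709856)) (a (l 16513408) (l 6)))))) (b (b (a (b (l 1) (b (l 1) (a (l 16797560) (l 1)))) (l 1)) (a (b (a (b (l 16799016) (l 16802848)) (l 16811016)) (a (l 16809176) (l 16816296))) (b (b (l 1) (l 16834400)) (a (l 16824880) (l 16838048))))) (b (a (b (l 16814816) (l 16799184)) (b (l 16835264) (l 16830112))) (a (b (l 16749872) (l 6)) (l 6))))) (b (a (a (b (l 1) (b (l 1) (l 16871736))) (l 1)) (l 1)) (b (a (a (l 6) (l 6)) (l 6)) (l 6)))), by decide +kernel⟩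

theorem c_A04pm_101_s1 : CertF 536870912 536870912 0 536870912 469762048 67108864 true true false .npn 1 0 1
    ndF0q1 ndF4q0 pcF1 cut_A04pm_101_s1 xt_A04pm_101_s1 :=
  certF1 (fam := true) (s1 := true) (s2 := false) (a := 1) (b := 0) (c := 1) (cn := .npn) (n1 := ndF0q1) (n2 := ndF4q0) (pc := pcF1) (cut := cut_A04pm_101_s1) (xt := xt_A04pm_101_s1) (P1 := 536870912) (W1 := 536870912) (P2 := 0) (W2 := 536870912) (P3 := 469762048) (W3 := 67108864)
    rfl (fun _ => rfl) k0_A04pm_101_s1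

theorem s_A04pm_101_s1 {κ x : ℝ} (hκ : κ * h0 = ken x) (hx : ((469762048 : ℕ) : ℝ) / S ≤ x)
    (hx' : x ≤ (((469762048 : ℕ) : ℝ) + (67108864 : ℕ)) / S) :
    AltA (VF κ) PP tKF tL pcF [⟨3, 0, 0, 1449551462⟩] 1 0 1 0 4 (sgb true) (sgb false) x :=
  strip_altA (m := 1449551462) true rfl hκ covF01 covF40 hx hx' c_A04pm_101_s1 cutA_nil ((okx hx hx').extA (T := tt) (sideF hx hx') hκ rfl rfl (.O 1 true) (.N 0 false) (Or.inr rfl))

noncomputable def cut_A04pm_102_s1 : Cut := Cut.of [[⟨4, 0, 0, 1449551462⟩]]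

noncomputable def f_A04pm_102_s1 : ℕ → ℕ → ℕ → ℕ → Bool := onCell 536870912 536870912 1073741824 536870912 469762048 67108864
    (rowF 1 true true false .npp 1 0 2 (qsf 536870912 536870912 0 536870912 2) ndF0q1 ndF4q0 pcF2 cut_A04pm_102_s1 Ext.none)

def k0_A04pm_102_s1 : ∃ t, chk3 f_A04pm_102_s1 t 1 1 1 = true :=
  ⟨(a (b (a (b (a (b (a (b (l 6) (l 6)) (l 6)) (l 6)) (l 6)) (l 6)) (l 6)) (l 6)) (l 6)), by decide +kernel⟩

theorem c_A04pm_102_s1 : CertF 536870912 536870912 0 536870912 469762048 67108864 true true false .npp 1 0 2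
    ndF0q1 ndF4q0 pcF2 cut_A04pm_102_s1 Ext.none :=
  certF1 (fam := true) (s1 := true) (s2 := false) (a := 1) (b := 0) (c := 2) (cn := .npp) (n1 := ndF0q1) (n2 := ndF4q0) (pc := pcF2) (cut := cut_A04pm_102_s1) (xt := Ext.none) (P1 := 536870912) (W1 := 536870912) (P2 := 0) (W2 := 536870912) (P3 := 469762048) (W3 := 67108864)
    rfl (fun _ => rfl) k0_A04pm_102_s1

theorem s_A04pm_102_s1 {κ x : ℝ} (hκ : κ * h0 = ken x) (hx : ((469762048 : ℕ) : ℝ) / S ≤ x)
    (hx' : x ≤ (((469762048 : ℕ) : ℝ) + (67108864 : ℕ)) / S) :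
    AltA (VF κ) PP tKF tL pcF [⟨3, 0, 0, 1449551462⟩] 1 0 2 0 4 (sgb true) (sgb false) x :=
  strip_altA (m := 1449551462) true rfl hκ covF01 covF40 hx hx' c_A04pm_102_s1 cutA_nil (noExt_A)

noncomputable def cut_A04pm_112_s1 : Cut := Cut.of [[⟨4, 0, 0, 1449551462⟩]]

noncomputable def f_A04pm_112_s1 : ℕ → ℕ → ℕ → ℕ → Bool := onCell 536870912 536870912 536870912 536870912 469762048 67108864
    (rowF 0 true true false .dn 1 1 2 (qsf 536870912 536870912 536870912 536870912 2) ndF0q1 ndF4q1 pcF2 cut_A04pm_112_s1 Ext.none)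

def k0_A04pm_112_s1 : ∃ t, chk3 f_A04pm_112_s1 t 1 1 1 = true :=
  ⟨(a (b (a (b (a (b (a (l 16188104) (l 6)) (l 6)) (l 6)) (l 6)) (l 6)) (l 6)) (l 6)), by decide +kernel⟩

theorem c_A04pm_112_s1 : CertF 536870912 536870912 536870912 536870912 469762048 67108864 true true false .dn 1 1 2
    ndF0q1 ndF4q1 pcF2 cut_A04pm_112_s1 Ext.none :=
  certF0 (fam := true) (s1 := true) (s2 := false) (a := 1) (b := 1) (c := 2) (cn := .dn) (n1 := ndF0q1) (n2 := ndF4q1) (pc := pcF2) (cut := cut_A04pm_112_s1) (xt := Ext.none) (P1 := 536870912) (W1 := 536870912) (P2 := 536870912) (W2 := 536870912) (P3 := 469762048) (W3 := 67108864)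
    rfl k0_A04pm_112_s1

theorem s_A04pm_112_s1 {κ x : ℝ} (hκ : κ * h0 = ken x) (hx : ((469762048 : ℕ) : ℝ) / S ≤ x)
    (hx' : x ≤ (((469762048 : ℕ) : ℝ) + (67108864 : ℕ)) / S) :
    AltA (VF κ) PP tKF tL pcF [⟨3, 0, 0, 1449551462⟩] 1 1 2 0 4 (sgb true) (sgb false) x :=
  strip_altA (m := 1449551462) true rfl hκ covF01 covF41 hx hx' c_A04pm_112_s1 cutA_nil (noExt_A)

noncomputable def cut_A04pm_113_s1 : Cut := Cut.of [[⟨4, 0, 0, 1449551462⟩]]

noncomputable def f_A04pm_113_s1 : ℕ → ℕ → ℕ → ℕ → Bool := onCell 536870912 536870912 1610612736 536870912 469762048 67108864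
    (rowF 1 true true false .nn 1 1 3 (qsf 536870912 536870912 536870912 536870912 3) ndF0q1 ndF4q1 pcF3 cut_A04pm_113_s1 Ext.none)

def k0_A04pm_113_s1 : ∃ t, chk3 f_A04pm_113_s1 t 1 1 1 = true :=
  ⟨(l 6), by decide +kernel⟩

theorem c_A04pm_113_s1 : CertF 536870912 536870912 536870912 536870912 469762048 67108864 true true false .nn 1 1 3
    ndF0q1 ndF4q1 pcF3 cut_A04pm_113_s1 Ext.none :=
  certF1 (fam := true) (s1 := true) (s2 := false) (a := 1) (b := 1) (c := 3) (cn := .nn) (n1 := ndF0q1) (n2 := ndF4q1) (pc := pcF3) (cut := cut_A04pm_113_s1) (xt := Ext.none) (P1 := 536870912) (W1 := 536870912) (P2 := 536870912) (W2 := 536870912) (P3 := 469762048) (W3 := 67108864)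
    rfl (fun _ => rfl) k0_A04pm_113_s1

theorem s_A04pm_113_s1 {κ x : ℝ} (hκ : κ * h0 = ken x) (hx : ((469762048 : ℕ) : ℝ) / S ≤ x)
    (hx' : x ≤ (((469762048 : ℕ) : ℝ) + (67108864 : ℕ)) / S) :
    AltA (VF κ) PP tKF tL pcF [⟨3, 0, 0, 1449551462⟩] 1 1 3 0 4 (sgb true) (sgb false) x :=
  strip_altA (m := 1449551462) true rfl hκ covF01 covF41 hx hx' c_A04pm_113_s1 cutA_nil (noExt_A)

noncomputable def cut_A04pm_123_s1 : Cut := Cut.of [[⟨4, 0, 0, 1449551462⟩]]

noncomputable def f_A04pm_123_s1 : ℕ → ℕ → ℕ → ℕ → Bool := onCell 536870912 536870912 1073741824 536870912 469762048 67108864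
    (rowF 0 true true false .npn 1 2 3 (qsf 536870912 536870912 1073741824 536870912 3) ndF0q1 ndF4q2 pcF3 cut_A04pm_123_s1 Ext.none)

def k0_A04pm_123_s1 : ∃ t, chk3 f_A04pm_123_s1 t 1 1 1 = true :=
  ⟨(l 6), by decide +kernel⟩

theorem c_A04pm_123_s1 : CertF 536870912 536870912 1073741824 536870912 469762048 67108864 true true false .npn 1 2 3
    ndF0q1 ndF4q2 pcF3 cut_A04pm_123_s1 Ext.none :=
  certF0 (fam := true) (s1 := true) (s2 := false) (a := 1) (b := 2) (c := 3) (cn := .npn) (n1 := ndF0q1) (n2 := ndF4q2) (pc := pcF3) (cut := cut_A04pm_123_s1) (xt := Ext.none) (P1 := 536870912) (W1 := 536870912) (P2 := 1073741824) (W2 := 536870912) (P3 := 469762048) (W3 := 67108864)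
    rfl k0_A04pm_123_s1

theorem s_A04pm_123_s1 {κ x : ℝ} (hκ : κ * h0 = ken x) (hx : ((469762048 : ℕ) : ℝ) / S ≤ x)
    (hx' : x ≤ (((469762048 : ℕ) : ℝ) + (67108864 : ℕ)) / S) :
    AltA (VF κ) PP tKF tL pcF [⟨3, 0, 0, 1449551462⟩] 1 2 3 0 4 (sgb true) (sgb false) x :=
  strip_altA (m := 1449551462) true rfl hκ covF01 covF42 hx hx' c_A04pm_123_s1 cutA_nil (noExt_A)

noncomputable def cut_A04pm_133_s1 : Cut := Cut.of [[⟨4, 0, 0, 1449551462⟩]]

noncomputable def f_A04pm_133_s1 : ℕ → ℕ → ℕ → ℕ → Bool := onCell 536870912 536870912 0 1230186008 469762048 67108864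
    (rowF 0 true true false .dn 1 3 3 (qsf 536870912 536870912 0 1230186008 3) ndF0q1 ndF4q3 pcF3 cut_A04pm_133_s1 Ext.none)

def k0_A04pm_133_s1 : ∃ t, chk3 f_A04pm_133_s1 t 1 1 1 = true :=
  ⟨(l 6), by decide +kernel⟩

theorem c_A04pm_133_s1 : CertF 536870912 536870912 0 1230186008 469762048 67108864 true true false .dn 1 3 3
    ndF0q1 ndF4q3 pcF3 cut_A04pm_133_s1 Ext.none :=
  certF0 (fam := true) (s1 := true) (s2 := false) (a := 1) (b := 3) (c := 3) (cn := .dn) (n1 := ndF0q1) (n2 := ndF4q3) (pc := pcF3) (cut := cut_A04pm_133_s1) (xt := Ext.none) (P1 := 536870912) (W1 := 536870912) (P2 := 0) (W2 := 1230186008) (P3 := 469762048) (W3 := 67108864)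
    rfl k0_A04pm_133_s1

theorem s_A04pm_133_s1 {κ x : ℝ} (hκ : κ * h0 = ken x) (hx : ((469762048 : ℕ) : ℝ) / S ≤ x)
    (hx' : x ≤ (((469762048 : ℕ) : ℝ) + (67108864 : ℕ)) / S) :
    AltA (VF κ) PP tKF tL pcF [⟨3, 0, 0, 1449551462⟩] 1 3 3 0 4 (sgb true) (sgb false) x :=
  strip_altA (m := 1449551462) true rfl hκ covF01 covF43 hx hx' c_A04pm_133_s1 cutA_nil (noExt_A)

noncomputable def cut_A04pm_202_s1 : Cut := Cut.of [[⟨4, 0, 0, 1449551462⟩]]

noncomputable def f_A04pm_202_s1 : ℕ → ℕ → ℕ → ℕ → Bool := onCell 0 536870912 0 536870912 469762048 67108864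
    (rowF 0 true true false .pp 2 0 2 (qsf 0 536870912 0 536870912 2) ndF0q2 ndF4q0 pcF2 cut_A04pm_202_s1 Ext.none)

def k0_A04pm_202_s1 : ∃ t, chk3 f_A04pm_202_s1 t 1 1 1 = true :=
  ⟨(l 6), by decide +kernel⟩

theorem c_A04pm_202_s1 : CertF 0 536870912 0 536870912 469762048 67108864 true true false .pp 2 0 2
    ndF0q2 ndF4q0 pcF2 cut_A04pm_202_s1 Ext.none :=
  certF0 (fam := true) (s1 := true) (s2 := false) (a := 2) (b := 0) (c := 2) (cn := .pp) (n1 := ndF0q2) (n2 := ndF4q0) (pc := pcF2) (cut := cut_A04pm_202_s1) (xt := Ext.none) (P1 := 0) (W1 := 536870912) (P2 := 0) (W2 := 536870912) (P3 := 469762048) (W3 := 67108864)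
    rfl k0_A04pm_202_s1

theorem s_A04pm_202_s1 {κ x : ℝ} (hκ : κ * h0 = ken x) (hx : ((469762048 : ℕ) : ℝ) / S ≤ x)
    (hx' : x ≤ (((469762048 : ℕ) : ℝ) + (67108864 : ℕ)) / S) :
    AltA (VF κ) PP tKF tL pcF [⟨3, 0, 0, 1449551462⟩] 2 0 2 0 4 (sgb true) (sgb false) x :=
  strip_altA (m := 1449551462) true rfl hκ covF02 covF40 hx hx' c_A04pm_202_s1 cutA_nil (noExt_A)

noncomputable def cut_A04pm_203_s1 : Cut := Cut.of [[⟨4, 0, 0, 1449551462⟩]]

noncomputable def f_A04pm_203_s1 : ℕ → ℕ → ℕ → ℕ → Bool := onCell 0 536870912 0 536870912 469762048 67108864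
    (rowF 0 true true false .up 2 0 3 (qsf 0 536870912 0 536870912 3) ndF0q2 ndF4q0 pcF3 cut_A04pm_203_s1 Ext.none)

def k0_A04pm_203_s1 : ∃ t, chk3 f_A04pm_203_s1 t 1 1 1 = true :=
  ⟨(l 6), by decide +kernel⟩

theorem c_A04pm_203_s1 : CertF 0 536870912 0 536870912 469762048 67108864 true true false .up 2 0 3
    ndF0q2 ndF4q0 pcF3 cut_A04pm_203_s1 Ext.none :=
  certF0 (fam := true) (s1 := true) (s2 := false) (a := 2) (b := 0) (c := 3) (cn := .up) (n1 := ndF0q2) (n2 := ndF4q0) (pc := pcF3) (cut := cut_A04pm_203_s1) (xt := Ext.none) (P1 := 0) (W1 := 536870912) (P2 := 0) (W2 := 536870912) (P3 := 469762048) (W3 := 67108864)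
    rfl k0_A04pm_203_s1

theorem s_A04pm_203_s1 {κ x : ℝ} (hκ : κ * h0 = ken x) (hx : ((469762048 : ℕ) : ℝ) / S ≤ x)
    (hx' : x ≤ (((469762048 : ℕ) : ℝ) + (67108864 : ℕ)) / S) :
    AltA (VF κ) PP tKF tL pcF [⟨3, 0, 0, 1449551462⟩] 2 0 3 0 4 (sgb true) (sgb false) x :=
  strip_altA (m := 1449551462) true rfl hκ covF02 covF40 hx hx' c_A04pm_203_s1 cutA_nil (noExt_A)

noncomputable def cut_A04pm_213_s1 : Cut := Cut.of [[⟨4, 0, 0, 1449551462⟩]]

noncomputable def f_A04pm_213_s1 : ℕ → ℕ → ℕ → ℕ → Bool := onCell 0 536870912 536870912 536870912 469762048 67108864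
    (rowF 0 true true false .pnn 2 1 3 (qsf 0 536870912 536870912 536870912 3) ndF0q2 ndF4q1 pcF3 cut_A04pm_213_s1 Ext.none)

def k0_A04pm_213_s1 : ∃ t, chk3 f_A04pm_213_s1 t 1 1 1 = true :=
  ⟨(l 6), by decide +kernel⟩

theorem c_A04pm_213_s1 : CertF 0 536870912 536870912 536870912 469762048 67108864 true true false .pnn 2 1 3
    ndF0q2 ndF4q1 pcF3 cut_A04pm_213_s1 Ext.none :=
  certF0 (fam := true) (s1 := true) (s2 := false) (a := 2) (b := 1) (c := 3) (cn := .pnn) (n1 := ndF0q2) (n2 := ndF4q1) (pc := pcF3) (cut := cut_A04pm_213_s1) (xt := Ext.none) (P1 := 0) (W1 := 536870912) (P2 := 536870912) (W2 := 536870912) (P3 := 469762048) (W3 := 67108864)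
    rfl k0_A04pm_213_s1

theorem s_A04pm_213_s1 {κ x : ℝ} (hκ : κ * h0 = ken x) (hx : ((469762048 : ℕ) : ℝ) / S ≤ x)
    (hx' : x ≤ (((469762048 : ℕ) : ℝ) + (67108864 : ℕ)) / S) :
    AltA (VF κ) PP tKF tL pcF [⟨3, 0, 0, 1449551462⟩] 2 1 3 0 4 (sgb true) (sgb false) x :=
  strip_altA (m := 1449551462) true rfl hκ covF02 covF41 hx hx' c_A04pm_213_s1 cutA_nil (noExt_A)

noncomputable def cut_A04mm_001_s1 : Cut := Cut.of [[⟨4, 0, 0, 1449551462⟩]]

noncomputable def f_A04mm_001_s1 : ℕ → ℕ → ℕ → ℕ → Bool := onCell 0 536870912 0 536870912 469762048 67108864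
    (rowF 0 true false false .up 0 0 1 (qsf 0 536870912 0 536870912 1) ndF0q0 ndF4q0 pcF1 cut_A04mm_001_s1 Ext.none)

def k0_A04mm_001_s1 : ∃ t, chk3 f_A04mm_001_s1 t 1 1 1 = true :=
  ⟨(l 4), by decide +kernel⟩

theorem c_A04mm_001_s1 : CertF 0 536870912 0 536870912 469762048 67108864 true false false .up 0 0 1
    ndF0q0 ndF4q0 pcF1 cut_A04mm_001_s1 Ext.none :=
  certF0 (fam := true) (s1 := false) (s2 := false) (a := 0) (b := 0) (c := 1) (cn := .up) (n1 := ndF0q0) (n2 := ndF4q0) (pc := pcF1) (cut := cut_A04mm_001_s1) (xt := Ext.none) (P1 := 0) (W1 := 536870912) (P2 := 0) (W2 := 536870912) (P3 := 469762048) (W3 := 67108864)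
    rfl k0_A04mm_001_s1

theorem s_A04mm_001_s1 {κ x : ℝ} (hκ : κ * h0 = ken x) (hx : ((469762048 : ℕ) : ℝ) / S ≤ x)
    (hx' : x ≤ (((469762048 : ℕ) : ℝ) + (67108864 : ℕ)) / S) :
    AltA (VF κ) PP tKF tL pcF [⟨3, 0, 0, 1449551462⟩] 0 0 1 0 4 (sgb false) (sgb false) x :=
  strip_altA (m := 1449551462) true rfl hκ covF00 covF40 hx hx' c_A04mm_001_s1 cutA_nil (noExt_A)

noncomputable def cut_A04mm_011_s1 : Cut := Cut.of [[⟨4, 0, 0, 1449551462⟩]]

noncomputable def f_A04mm_011_s1 : ℕ → ℕ → ℕ → ℕ → Bool := onCell 0 536870912 536870912 536870912 469762048 67108864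
    (rowF 0 true false false .pnn 0 1 1 (qsf 0 536870912 536870912 536870912 1) ndF0q0 ndF4q1 pcF1 cut_A04mm_011_s1 Ext.none)

def k0_A04mm_011_s1 : ∃ t, chk3 f_A04mm_011_s1 t 1 1 1 = true :=
  ⟨(l 4), by decide +kernel⟩

theorem c_A04mm_011_s1 : CertF 0 536870912 536870912 536870912 469762048 67108864 true false false .pnn 0 1 1
    ndF0q0 ndF4q1 pcF1 cut_A04mm_011_s1 Ext.none :=
  certF0 (fam := true) (s1 := false) (s2 := false) (a := 0) (b := 1) (c := 1) (cn := .pnn) (n1 := ndF0q0) (n2 := ndF4q1) (pc := pcF1) (cut := cut_A04mm_011_s1) (xt := Ext.none) (P1 := 0) (W1 := 536870912) (P2 := 536870912) (W2 := 536870912) (P3 := 469762048) (W3 := 67108864)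
    rfl k0_A04mm_011_s1

theorem s_A04mm_011_s1 {κ x : ℝ} (hκ : κ * h0 = ken x) (hx : ((469762048 : ℕ) : ℝ) / S ≤ x)
    (hx' : x ≤ (((469762048 : ℕ) : ℝ) + (67108864 : ℕ)) / S) :
    AltA (VF κ) PP tKF tL pcF [⟨3, 0, 0, 1449551462⟩] 0 1 1 0 4 (sgb false) (sgb false) x :=
  strip_altA (m := 1449551462) true rfl hκ covF00 covF41 hx hx' c_A04mm_011_s1 cutA_nil (noExt_A)

noncomputable def cut_A04mm_012_s1 : Cut := Cut.of [[⟨4, 0, 0, 1449551462⟩]]

noncomputable def f_A04mm_012_s1 : ℕ → ℕ → ℕ → ℕ → Bool := onCell 0 536870912 536870912 536870912 469762048 67108864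
    (rowF 0 true false false .pnp 0 1 2 (qsf 0 536870912 536870912 536870912 2) ndF0q0 ndF4q1 pcF2 cut_A04mm_012_s1 Ext.none)

def k0_A04mm_012_s1 : ∃ t, chk3 f_A04mm_012_s1 t 1 1 1 = true :=
  ⟨(l 4), by decide +kernel⟩

theorem c_A04mm_012_s1 : CertF 0 536870912 536870912 536870912 469762048 67108864 true false false .pnp 0 1 2
    ndF0q0 ndF4q1 pcF2 cut_A04mm_012_s1 Ext.none :=
  certF0 (fam := true) (s1 := false) (s2 := false) (a := 0) (b := 1) (c := 2) (cn := .pnp) (n1 := ndF0q0) (n2 := ndF4q1) (pc := pcF2) (cut := cut_A04mm_012_s1) (xt := Ext.none) (P1 := 0) (W1 := 536870912) (P2 := 536870912) (W2 := 536870912) (P3 := 469762048) (W3 := 67108864)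
    rfl k0_A04mm_012_s1

theorem s_A04mm_012_s1 {κ x : ℝ} (hκ : κ * h0 = ken x) (hx : ((469762048 : ℕ) : ℝ) / S ≤ x)
    (hx' : x ≤ (((469762048 : ℕ) : ℝ) + (67108864 : ℕ)) / S) :
    AltA (VF κ) PP tKF tL pcF [⟨3, 0, 0, 1449551462⟩] 0 1 2 0 4 (sgb false) (sgb false) x :=
  strip_altA (m := 1449551462) true rfl hκ covF00 covF41 hx hx' c_A04mm_012_s1 cutA_nil (noExt_A)

noncomputable def cut_A04mm_022_s1 : Cut := Cut.of [[⟨4, 0, 0, 1449551462⟩]]

noncomputable def f_A04mm_022_s1 : ℕ → ℕ → ℕ → ℕ → Bool := onCell 0 536870912 1073741824 536870912 469762048 67108864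
    (rowF 0 true false false .pp 0 2 2 (qsf 0 536870912 1073741824 536870912 2) ndF0q0 ndF4q2 pcF2 cut_A04mm_022_s1 Ext.none)

def k0_A04mm_022_s1 : ∃ t, chk3 f_A04mm_022_s1 t 1 1 1 = true :=
  ⟨(l 4), by decide +kernel⟩

theorem c_A04mm_022_s1 : CertF 0 536870912 1073741824 536870912 469762048 67108864 true false false .pp 0 2 2
    ndF0q0 ndF4q2 pcF2 cut_A04mm_022_s1 Ext.none :=
  certF0 (fam := true) (s1 := false) (s2 := false) (a := 0) (b := 2) (c := 2) (cn := .pp) (n1 := ndF0q0) (n2 := ndF4q2) (pc := pcF2) (cut := cut_A04mm_022_s1) (xt := Ext.none) (P1 := 0) (W1 := 536870912) (P2 := 1073741824) (W2 := 536870912) (P3 := 469762048) (W3 := 67108864)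
    rfl k0_A04mm_022_s1

theorem s_A04mm_022_s1 {κ x : ℝ} (hκ : κ * h0 = ken x) (hx : ((469762048 : ℕ) : ℝ) / S ≤ x)
    (hx' : x ≤ (((469762048 : ℕ) : ℝ) + (67108864 : ℕ)) / S) :
    AltA (VF κ) PP tKF tL pcF [⟨3, 0, 0, 1449551462⟩] 0 2 2 0 4 (sgb false) (sgb false) x :=
  strip_altA (m := 1449551462) true rfl hκ covF00 covF42 hx hx' c_A04mm_022_s1 cutA_nil (noExt_A)

noncomputable def cut_A04mm_023_s1 : Cut := Cut.of [[⟨4, 0, 0, 1449551462⟩]]

noncomputable def f_A04mm_023_s1 : ℕ → ℕ → ℕ → ℕ → Bool := onCell 0 536870912 1073741824 536870912 469762048 67108864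
    (rowF 0 true false false .up 0 2 3 (qsf 0 536870912 1073741824 536870912 3) ndF0q0 ndF4q2 pcF3 cut_A04mm_023_s1 Ext.none)

def k0_A04mm_023_s1 : ∃ t, chk3 f_A04mm_023_s1 t 1 1 1 = true :=
  ⟨(l 4), by decide +kernel⟩

theorem c_A04mm_023_s1 : CertF 0 536870912 1073741824 536870912 469762048 67108864 true false false .up 0 2 3
    ndF0q0 ndF4q2 pcF3 cut_A04mm_023_s1 Ext.none :=
  certF0 (fam := true) (s1 := false) (s2 := false) (a := 0) (b := 2) (c := 3) (cn := .up) (n1 := ndF0q0) (n2 := ndF4q2) (pc := pcF3) (cut := cut_A04mm_023_s1) (xt := Ext.none) (P1 := 0) (W1 := 536870912) (P2 := 1073741824) (W2 := 536870912) (P3 := 469762048) (W3 := 67108864)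
    rfl k0_A04mm_023_s1

theorem s_A04mm_023_s1 {κ x : ℝ} (hκ : κ * h0 = ken x) (hx : ((469762048 : ℕ) : ℝ) / S ≤ x)
    (hx' : x ≤ (((469762048 : ℕ) : ℝ) + (67108864 : ℕ)) / S) :
    AltA (VF κ) PP tKF tL pcF [⟨3, 0, 0, 1449551462⟩] 0 2 3 0 4 (sgb false) (sgb false) x :=
  strip_altA (m := 1449551462) true rfl hκ covF00 covF42 hx hx' c_A04mm_023_s1 cutA_nil (noExt_A)

noncomputable def cut_A04mm_033_s1 : Cut := Cut.of [[⟨4, 0, 0, 1449551462⟩]]

noncomputable def f_A04mm_033_s1 : ℕ → ℕ → ℕ → ℕ → Bool := onCell 0 536870912 0 1230186008 469762048 67108864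
    (rowF 0 true false false .pnn 0 3 3 (qsf 0 536870912 0 1230186008 3) ndF0q0 ndF4q3 pcF3 cut_A04mm_033_s1 Ext.none)

def k0_A04mm_033_s1 : ∃ t, chk3 f_A04mm_033_s1 t 1 1 1 = true :=
  ⟨(l 4), by decide +kernel⟩

theorem c_A04mm_033_s1 : CertF 0 536870912 0 1230186008 469762048 67108864 true false false .pnn 0 3 3
    ndF0q0 ndF4q3 pcF3 cut_A04mm_033_s1 Ext.none :=
  certF0 (fam := true) (s1 := false) (s2 := false) (a := 0) (b := 3) (c := 3) (cn := .pnn) (n1 := ndF0q0) (n2 := ndF4q3) (pc := pcF3) (cut := cut_A04mm_033_s1) (xt := Ext.none) (P1 := 0) (W1 := 536870912) (P2 := 0) (W2 := 1230186008) (P3 := 469762048) (W3 := 67108864)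
    rfl k0_A04mm_033_s1

theorem s_A04mm_033_s1 {κ x : ℝ} (hκ : κ * h0 = ken x) (hx : ((469762048 : ℕ) : ℝ) / S ≤ x)
    (hx' : x ≤ (((469762048 : ℕ) : ℝ) + (67108864 : ℕ)) / S) :
    AltA (VF κ) PP tKF tL pcF [⟨3, 0, 0, 1449551462⟩] 0 3 3 0 4 (sgb false) (sgb false) x :=
  strip_altA (m := 1449551462) true rfl hκ covF00 covF43 hx hx' c_A04mm_033_s1 cutA_nil (noExt_A)

noncomputable def cut_A04mm_101_s1 : Cut := Cut.of [[⟨4, 0, 0, 1449551462⟩]]

noncomputable def f_A04mm_101_s1 : ℕ → ℕ → ℕ → ℕ → Bool := onCell 536870912 536870912 0 536870912 469762048 67108864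
    (rowF 0 true false false .npn 1 0 1 (qsf 536870912 536870912 0 536870912 1) ndF0q1 ndF4q0 pcF1 cut_A04mm_101_s1 Ext.none)

def k0_A04mm_101_s1 : ∃ t, chk3 f_A04mm_101_s1 t 1 1 1 = true :=
  ⟨(l 4), by decide +kernel⟩

theorem c_A04mm_101_s1 : CertF 536870912 536870912 0 536870912 469762048 67108864 true false false .npn 1 0 1
    ndF0q1 ndF4q0 pcF1 cut_A04mm_101_s1 Ext.none :=
  certF0 (fam := true) (s1 := false) (s2 := false) (a := 1) (b := 0) (c := 1) (cn := .npn) (n1 := ndF0q1) (n2 := ndF4q0) (pc := pcF1) (cut := cut_A04mm_101_s1) (xt := Ext.none) (P1 := 536870912) (W1 := 536870912) (P2 := 0) (W2 := 536870912) (P3 := 469762048) (W3 := 67108864)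
    rfl k0_A04mm_101_s1

theorem s_A04mm_101_s1 {κ x : ℝ} (hκ : κ * h0 = ken x) (hx : ((469762048 : ℕ) : ℝ) / S ≤ x)
    (hx' : x ≤ (((469762048 : ℕ) : ℝ) + (67108864 : ℕ)) / S) :
    AltA (VF κ) PP tKF tL pcF [⟨3, 0, 0, 1449551462⟩] 1 0 1 0 4 (sgb false) (sgb false) x :=
  strip_altA (m := 1449551462) true rfl hκ covF01 covF40 hx hx' c_A04mm_101_s1 cutA_nil (noExt_A)

noncomputable def cut_A04mm_102_s1 : Cut := Cut.of [[⟨4, 0, 0, 1449551462⟩]]

noncomputable def f_A04mm_102_s1 : ℕ → ℕ → ℕ → ℕ → Bool := onCell 536870912 536870912 0 536870912 469762048 67108864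
    (rowF 0 true false false .npp 1 0 2 (qsf 536870912 536870912 0 536870912 2) ndF0q1 ndF4q0 pcF2 cut_A04mm_102_s1 Ext.none)

def k0_A04mm_102_s1 : ∃ t, chk3 f_A04mm_102_s1 t 1 1 1 = true :=
  ⟨(l 4), by decide +kernel⟩

theorem c_A04mm_102_s1 : CertF 536870912 536870912 0 536870912 469762048 67108864 true false false .npp 1 0 2
    ndF0q1 ndF4q0 pcF2 cut_A04mm_102_s1 Ext.none :=
  certF0 (fam := true) (s1 := false) (s2 := false) (a := 1) (b := 0) (c := 2) (cn := .npp) (n1 := ndF0q1) (n2 := ndF4q0) (pc := pcF2) (cut := cut_A04mm_102_s1) (xt := Ext.none) (P1 := 536870912) (W1 := 536870912) (P2 := 0) (W2 := 536870912) (P3 := 469762048) (W3 := 67108864)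
    rfl k0_A04mm_102_s1

theorem s_A04mm_102_s1 {κ x : ℝ} (hκ : κ * h0 = ken x) (hx : ((469762048 : ℕ) : ℝ) / S ≤ x)
    (hx' : x ≤ (((469762048 : ℕ) : ℝ) + (67108864 : ℕ)) / S) :
    AltA (VF κ) PP tKF tL pcF [⟨3, 0, 0, 1449551462⟩] 1 0 2 0 4 (sgb false) (sgb false) x :=
  strip_altA (m := 1449551462) true rfl hκ covF01 covF40 hx hx' c_A04mm_102_s1 cutA_nil (noExt_A)

noncomputable def cut_A04mm_112_s1 : Cut := Cut.of [[⟨4, 0, 0, 1449551462⟩]]

noncomputable def f_A04mm_112_s1 : ℕ → ℕ → ℕ → ℕ → Bool := onCell 536870912 536870912 536870912 536870912 469762048 67108864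
    (rowF 0 true false false .dn 1 1 2 (qsf 536870912 536870912 536870912 536870912 2) ndF0q1 ndF4q1 pcF2 cut_A04mm_112_s1 Ext.none)

def k0_A04mm_112_s1 : ∃ t, chk3 f_A04mm_112_s1 t 1 1 1 = true :=
  ⟨(l 4), by decide +kernel⟩

theorem c_A04mm_112_s1 : CertF 536870912 536870912 536870912 536870912 469762048 67108864 true false false .dn 1 1 2
    ndF0q1 ndF4q1 pcF2 cut_A04mm_112_s1 Ext.none :=
  certF0 (fam := true) (s1 := false) (s2 := false) (a := 1) (b := 1) (c := 2) (cn := .dn) (n1 := ndF0q1) (n2 := ndF4q1) (pc := pcF2) (cut := cut_A04mm_112_s1) (xt := Ext.none) (P1 := 536870912) (W1 := 536870912) (P2 := 536870912) (W2 := 536870912) (P3 := 469762048) (W3 := 67108864)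
    rfl k0_A04mm_112_s1

theorem s_A04mm_112_s1 {κ x : ℝ} (hκ : κ * h0 = ken x) (hx : ((469762048 : ℕ) : ℝ) / S ≤ x)
    (hx' : x ≤ (((469762048 : ℕ) : ℝ) + (67108864 : ℕ)) / S) :
    AltA (VF κ) PP tKF tL pcF [⟨3, 0, 0, 1449551462⟩] 1 1 2 0 4 (sgb false) (sgb false) x :=
  strip_altA (m := 1449551462) true rfl hκ covF01 covF41 hx hx' c_A04mm_112_s1 cutA_nil (noExt_A)

noncomputable def cut_A04mm_113_s1 : Cut := Cut.of [[⟨4, 0, 0, 1449551462⟩]]

noncomputable def f_A04mm_113_s1 : ℕ → ℕ → ℕ → ℕ → Bool := onCell 536870912 536870912 536870912 536870912 469762048 67108864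
    (rowF 0 true false false .nn 1 1 3 (qsf 536870912 536870912 536870912 536870912 3) ndF0q1 ndF4q1 pcF3 cut_A04mm_113_s1 Ext.none)

def k0_A04mm_113_s1 : ∃ t, chk3 f_A04mm_113_s1 t 1 1 1 = true :=
  ⟨(l 4), by decide +kernel⟩

theorem c_A04mm_113_s1 : CertF 536870912 536870912 536870912 536870912 469762048 67108864 true false false .nn 1 1 3
    ndF0q1 ndF4q1 pcF3 cut_A04mm_113_s1 Ext.none :=
  certF0 (fam := true) (s1 := false) (s2 := false) (a := 1) (b := 1) (c := 3) (cn := .nn) (n1 := ndF0q1) (n2 := ndF4q1) (pc := pcF3) (cut := cut_A04mm_113_s1) (xt := Ext.none) (P1 := 536870912) (W1 := 536870912) (P2 := 536870912) (W2 := 536870912) (P3 := 469762048) (W3 := 67108864)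
    rfl k0_A04mm_113_s1

theorem s_A04mm_113_s1 {κ x : ℝ} (hκ : κ * h0 = ken x) (hx : ((469762048 : ℕ) : ℝ) / S ≤ x)
    (hx' : x ≤ (((469762048 : ℕ) : ℝ) + (67108864 : ℕ)) / S) :
    AltA (VF κ) PP tKF tL pcF [⟨3, 0, 0, 1449551462⟩] 1 1 3 0 4 (sgb false) (sgb false) x :=
  strip_altA (m := 1449551462) true rfl hκ covF01 covF41 hx hx' c_A04mm_113_s1 cutA_nil (noExt_A)

noncomputable def cut_A04mm_123_s1 : Cut := Cut.of [[⟨4, 0, 0, 1449551462⟩]]

noncomputable def f_A04mm_123_s1 : ℕ → ℕ → ℕ → ℕ → Bool := onCell 536870912 536870912 1073741824 536870912 469762048 67108864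
    (rowF 0 true false false .npn 1 2 3 (qsf 536870912 536870912 1073741824 536870912 3) ndF0q1 ndF4q2 pcF3 cut_A04mm_123_s1 Ext.none)

def k0_A04mm_123_s1 : ∃ t, chk3 f_A04mm_123_s1 t 1 1 1 = true :=
  ⟨(l 4), by decide +kernel⟩

theorem c_A04mm_123_s1 : CertF 536870912 536870912 1073741824 536870912 469762048 67108864 true false false .npn 1 2 3
    ndF0q1 ndF4q2 pcF3 cut_A04mm_123_s1 Ext.none :=
  certF0 (fam := true) (s1 := false) (s2 := false) (a := 1) (b := 2) (c := 3) (cn := .npn) (n1 := ndF0q1) (n2 := ndF4q2) (pc := pcF3) (cut := cut_A04mm_123_s1) (xt := Ext.none) (P1 := 536870912) (W1 := 536870912) (P2 := 1073741824) (W2 := 536870912) (P3 := 469762048) (W3 := 67108864)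
    rfl k0_A04mm_123_s1

theorem s_A04mm_123_s1 {κ x : ℝ} (hκ : κ * h0 = ken x) (hx : ((469762048 : ℕ) : ℝ) / S ≤ x)
    (hx' : x ≤ (((469762048 : ℕ) : ℝ) + (67108864 : ℕ)) / S) :
    AltA (VF κ) PP tKF tL pcF [⟨3, 0, 0, 1449551462⟩] 1 2 3 0 4 (sgb false) (sgb false) x :=
  strip_altA (m := 1449551462) true rfl hκ covF01 covF42 hx hx' c_A04mm_123_s1 cutA_nil (noExt_A)

noncomputable def cut_A04mm_133_s1 : Cut := Cut.of [[⟨4, 0, 0, 1449551462⟩]]

noncomputable def f_A04mm_133_s1 : ℕ → ℕ → ℕ → ℕ → Bool := onCell 536870912 536870912 0 1230186008 469762048 67108864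
    (rowF 0 true false false .dn 1 3 3 (qsf 536870912 536870912 0 1230186008 3) ndF0q1 ndF4q3 pcF3 cut_A04mm_133_s1 Ext.none)

def k0_A04mm_133_s1 : ∃ t, chk3 f_A04mm_133_s1 t 1 1 1 = true :=
  ⟨(l 4), by decide +kernel⟩

theorem c_A04mm_133_s1 : CertF 536870912 536870912 0 1230186008 469762048 67108864 true false false .dn 1 3 3
    ndF0q1 ndF4q3 pcF3 cut_A04mm_133_s1 Ext.none :=
  certF0 (fam := true) (s1 := false) (s2 := false) (a := 1) (b := 3) (c := 3) (cn := .dn) (n1 := ndF0q1) (n2 := ndF4q3) (pc := pcF3) (cut := cut_A04mm_133_s1) (xt := Ext.none) (P1 := 536870912) (W1 := 536870912) (P2 := 0) (W2 := 1230186008) (P3 := 469762048) (W3 := 67108864)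
    rfl k0_A04mm_133_s1

theorem s_A04mm_133_s1 {κ x : ℝ} (hκ : κ * h0 = ken x) (hx : ((469762048 : ℕ) : ℝ) / S ≤ x)
    (hx' : x ≤ (((469762048 : ℕ) : ℝ) + (67108864 : ℕ)) / S) :
    AltA (VF κ) PP tKF tL pcF [⟨3, 0, 0, 1449551462⟩] 1 3 3 0 4 (sgb false) (sgb false) x :=
  strip_altA (m := 1449551462) true rfl hκ covF01 covF43 hx hx' c_A04mm_133_s1 cutA_nil (noExt_A)

noncomputable def cut_A04mm_202_s1 : Cut := Cut.of [[⟨4, 0, 0, 1449551462⟩]]

noncomputable def f_A04mm_202_s1 : ℕ → ℕ → ℕ → ℕ → Bool := onCell 0 536870912 0 536870912 469762048 67108864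
    (rowF 0 true false false .pp 2 0 2 (qsf 0 536870912 0 536870912 2) ndF0q2 ndF4q0 pcF2 cut_A04mm_202_s1 Ext.none)

def k0_A04mm_202_s1 : ∃ t, chk3 f_A04mm_202_s1 t 1 1 1 = true :=
  ⟨(l 4), by decide +kernel⟩

theorem c_A04mm_202_s1 : CertF 0 536870912 0 536870912 469762048 67108864 true false false .pp 2 0 2
    ndF0q2 ndF4q0 pcF2 cut_A04mm_202_s1 Ext.none :=
  certF0 (fam := true) (s1 := false) (s2 := false) (a := 2) (b := 0) (c := 2) (cn := .pp) (n1 := ndF0q2) (n2 := ndF4q0) (pc := pcF2) (cut := cut_A04mm_202_s1) (xt := Ext.none) (P1 := 0) (W1 := 536870912) (P2 := 0) (W2 := 536870912) (P3 := 469762048) (W3 := 67108864)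
    rfl k0_A04mm_202_s1

theorem s_A04mm_202_s1 {κ x : ℝ} (hκ : κ * h0 = ken x) (hx : ((469762048 : ℕ) : ℝ) / S ≤ x)
    (hx' : x ≤ (((469762048 : ℕ) : ℝ) + (67108864 : ℕ)) / S) :
    AltA (VF κ) PP tKF tL pcF [⟨3, 0, 0, 1449551462⟩] 2 0 2 0 4 (sgb false) (sgb false) x :=
  strip_altA (m := 1449551462) true rfl hκ covF02 covF40 hx hx' c_A04mm_202_s1 cutA_nil (noExt_A)

noncomputable def cut_A04mm_203_s1 : Cut := Cut.of [[⟨4, 0, 0, 1449551462⟩]]

noncomputable def f_A04mm_203_s1 : ℕ → ℕ → ℕ → ℕ → Bool := onCell 0 536870912 0 536870912 469762048 67108864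
    (rowF 0 true false false .up 2 0 3 (qsf 0 536870912 0 536870912 3) ndF0q2 ndF4q0 pcF3 cut_A04mm_203_s1 Ext.none)

def k0_A04mm_203_s1 : ∃ t, chk3 f_A04mm_203_s1 t 1 1 1 = true :=
  ⟨(l 4), by decide +kernel⟩

theorem c_A04mm_203_s1 : CertF 0 536870912 0 536870912 469762048 67108864 true false false .up 2 0 3
    ndF0q2 ndF4q0 pcF3 cut_A04mm_203_s1 Ext.none :=
  certF0 (fam := true) (s1 := false) (s2 := false) (a := 2) (b := 0) (c := 3) (cn := .up) (n1 := ndF0q2) (n2 := ndF4q0) (pc := pcF3) (cut := cut_A04mm_203_s1) (xt := Ext.none) (P1 := 0) (W1 := 536870912) (P2 := 0) (W2 := 536870912) (P3 := 469762048) (W3 := 67108864)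
    rfl k0_A04mm_203_s1

theorem s_A04mm_203_s1 {κ x : ℝ} (hκ : κ * h0 = ken x) (hx : ((469762048 : ℕ) : ℝ) / S ≤ x)
    (hx' : x ≤ (((469762048 : ℕ) : ℝ) + (67108864 : ℕ)) / S) :
    AltA (VF κ) PP tKF tL pcF [⟨3, 0, 0, 1449551462⟩] 2 0 3 0 4 (sgb false) (sgb false) x :=
  strip_altA (m := 1449551462) true rfl hκ covF02 covF40 hx hx' c_A04mm_203_s1 cutA_nil (noExt_A)

noncomputable def cut_A04mm_213_s1 : Cut := Cut.of [[⟨4, 0, 0, 1449551462⟩]]

noncomputable def f_A04mm_213_s1 : ℕ → ℕ → ℕ → ℕ → Bool := onCell 0 536870912 536870912 536870912 469762048 67108864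
    (rowF 0 true false false .pnn 2 1 3 (qsf 0 536870912 536870912 536870912 3) ndF0q2 ndF4q1 pcF3 cut_A04mm_213_s1 Ext.none)

def k0_A04mm_213_s1 : ∃ t, chk3 f_A04mm_213_s1 t 1 1 1 = true :=
  ⟨(l 4), by decide +kernel⟩

theorem c_A04mm_213_s1 : CertF 0 536870912 536870912 536870912 469762048 67108864 true false false .pnn 2 1 3
    ndF0q2 ndF4q1 pcF3 cut_A04mm_213_s1 Ext.none :=
  certF0 (fam := true) (s1 := false) (s2 := false) (a := 2) (b := 1) (c := 3) (cn := .pnn) (n1 := ndF0q2) (n2 := ndF4q1) (pc := pcF3) (cut := cut_A04mm_213_s1) (xt := Ext.none) (P1 := 0) (W1 := 536870912) (P2 := 536870912) (W2 := 536870912) (P3 := 469762048) (W3 := 67108864)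
    rfl k0_A04mm_213_s1

theorem s_A04mm_213_s1 {κ x : ℝ} (hκ : κ * h0 = ken x) (hx : ((469762048 : ℕ) : ℝ) / S ≤ x)
    (hx' : x ≤ (((469762048 : ℕ) : ℝ) + (67108864 : ℕ)) / S) :
    AltA (VF κ) PP tKF tL pcF [⟨3, 0, 0, 1449551462⟩] 2 1 3 0 4 (sgb false) (sgb false) x :=
  strip_altA (m := 1449551462) true rfl hκ covF02 covF41 hx hx' c_A04mm_213_s1 cutA_nil (noExt_A)

noncomputable def cut_B00pp_001_s1 : Cut := Cut.of [[⟨4, 0, 0, 1449551462⟩]]

noncomputable def f_B00pp_001_s1 : ℕ → ℕ → ℕ → ℕ → Bool := onCell 0 536870912 0 536870912 469762048 67108864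
    (rowF 1 false true true .up 0 0 1 (qsf 0 536870912 536870912 536870912 0) ndF0q0 ndF0q1 pcF0 cut_B00pp_001_s1 Ext.none)

def k0_B00pp_001_s1 : ∃ t, chk3 f_B00pp_001_s1 t 1 1 1 = true :=
  ⟨(l 3), by decide +kernel⟩

theorem c_B00pp_001_s1 : CertF 0 536870912 536870912 536870912 469762048 67108864 false true true .up 0 0 1
    ndF0q0 ndF0q1 pcF0 cut_B00pp_001_s1 Ext.none :=
  certF1 (fam := false) (s1 := true) (s2 := true) (a := 0) (b := 0) (c := 1) (cn := .up) (n1 := ndF0q0) (n2 := ndF0q1) (pc := pcF0) (cut := cut_B00pp_001_s1) (xt := Ext.none) (P1 := 0) (W1 := 536870912) (P2 := 536870912) (W2 := 536870912) (P3 := 469762048) (W3 := 67108864)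
    rfl (fun _ => rfl) k0_B00pp_001_s1

theorem s_B00pp_001_s1 {κ x : ℝ} (hκ : κ * h0 = ken x) (hx : ((469762048 : ℕ) : ℝ) / S ≤ x)
    (hx' : x ≤ (((469762048 : ℕ) : ℝ) + (67108864 : ℕ)) / S) :
    AltB (VF κ) PP tKF tL pcF [⟨3, 0, 0, 1449551462⟩] 0 0 1 0 0 (sgb true) (sgb true) x :=
  strip_altB (m := 1449551462) true rfl hκ covF00 covF01 hx hx' c_B00pp_001_s1 cutB_nil (noExt_B)

noncomputable def cut_B00pp_001_s3 : Cut := Cut.of [[⟨3, 0, 0, 2845415833⟩]]

noncomputable def f_B00pp_001_s3 : ℕ → ℕ → ℕ → ℕ → Bool := onCell 0 536870912 536870912 536870912 469762048 67108864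
    (rowF 0 false true true .up 0 0 1 (qsf 0 536870912 536870912 536870912 0) ndF0q0 ndF0q1 pcF0 cut_B00pp_001_s3 Ext.none)

def k0_B00pp_001_s3 : ∃ t, chk3 f_B00pp_001_s3 t 1 1 1 = true :=
  ⟨(l 6), by decide +kernel⟩

theorem c_B00pp_001_s3 : CertF 0 536870912 536870912 536870912 469762048 67108864 false true true .up 0 0 1
    ndF0q0 ndF0q1 pcF0 cut_B00pp_001_s3 Ext.none :=
  certF0 (fam := false) (s1 := true) (s2 := true) (a := 0) (b := 0) (c := 1) (cn := .up) (n1 := ndF0q0) (n2 := ndF0q1) (pc := pcF0) (cut := cut_B00pp_001_s3) (xt := Ext.none) (P1 := 0) (W1 := 536870912) (P2 := 536870912) (W2 := 536870912) (P3 := 469762048) (W3 := 67108864)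
    rfl k0_B00pp_001_s3

theorem s_B00pp_001_s3 {κ x : ℝ} (hκ : κ * h0 = ken x) (hx : ((469762048 : ℕ) : ℝ) / S ≤ x)
    (hx' : x ≤ (((469762048 : ℕ) : ℝ) + (67108864 : ℕ)) / S) :
    AltB (VF κ) PP tKF tL pcF [⟨4, 0, 0, 2845415833⟩] 0 0 1 0 0 (sgb true) (sgb true) x :=
  strip_altB (m := 2845415833) false rfl hκ covF00 covF01 hx hx' c_B00pp_001_s3 cutB_nil (noExt_B)

noncomputable def cut_B00pp_011_s1 : Cut := Cut.of [[⟨4, 0, 0, 1449551462⟩], [⟨0, 0, 0, 67108864⟩, ⟨1, 1, 0, 67108864⟩, ⟨2, 1, 0, 67108864⟩]]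

noncomputable def f_B00pp_011_s1 : ℕ → ℕ → ℕ → ℕ → Bool := onCell 536870912 536870912 536870912 536870912 469762048 67108864
    (rowF 2 false true true .pnn 0 1 1 (qsf 0 536870912 536870912 536870912 1) ndF0q0 ndF0q1 pcF1 cut_B00pp_011_s1 Ext.none)

def k0_B00pp_011_s1 : ∃ t, chk3 f_B00pp_011_s1 t 1 1 1 = true :=
  ⟨(a (l 3) (b (l 3) (a (l 3) (b (l 3) (b (l 3) (a (l 3) (b (l 3) (a (l 3) (l 14))))))))), by decide +kernel⟩

theorem c_B00pp_011_s1 : CertF 0 536870912 536870912 536870912 469762048 67108864 false true true .pnn 0 1 1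
    ndF0q0 ndF0q1 pcF1 cut_B00pp_011_s1 Ext.none :=
  certF2 (fam := false) (s1 := true) (s2 := true) (a := 0) (b := 1) (c := 1) (cn := .pnn) (n1 := ndF0q0) (n2 := ndF0q1) (pc := pcF1) (cut := cut_B00pp_011_s1) (xt := Ext.none) (P1 := 0) (W1 := 536870912) (P2 := 536870912) (W2 := 536870912) (P3 := 469762048) (W3 := 67108864)
    rfl (fun _ => rfl) k0_B00pp_011_s1

theorem s_B00pp_011_s1 {κ x : ℝ} (hκ : κ * h0 = ken x) (hx : ((469762048 : ℕ) : ℝ) / S ≤ x)
    (hx' : x ≤ (((469762048 : ℕ) : ℝ) + (67108864 : ℕ)) / S)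
    (H : CutB (VF κ) PP tKF tL pcF (Cut.of [[⟨0, 0, 0, 67108864⟩, ⟨1, 1, 0, 67108864⟩, ⟨2, 1, 0, 67108864⟩]]) 0 1 1 0 0 (sgb true) (sgb true) x) :
    AltB (VF κ) PP tKF tL pcF [⟨3, 0, 0, 1449551462⟩] 0 1 1 0 0 (sgb true) (sgb true) x :=
  strip_altB (m := 1449551462) true rfl hκ covF00 covF01 hx hx' c_B00pp_011_s1 H (noExt_B)

noncomputable def cut_B00pp_011_s3 : Cut := Cut.of [[⟨3, 0, 0, 2845415833⟩], [⟨0, 0, 0, 67108864⟩, ⟨1, 1, 0, 67108864⟩, ⟨2, 1, 0, 67108864⟩]]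

noncomputable def f_B00pp_011_s3 : ℕ → ℕ → ℕ → ℕ → Bool := onCell 0 536870912 536870912 536870912 469762048 67108864
    (rowF 0 false true true .pnn 0 1 1 (qsf 0 536870912 536870912 536870912 1) ndF0q0 ndF0q1 pcF1 cut_B00pp_011_s3 Ext.none)

def k0_B00pp_011_s3 : ∃ t, chk3 f_B00pp_011_s3 t 1 1 1 = true :=
  ⟨(l 6), by decide +kernel⟩

theorem c_B00pp_011_s3 : CertF 0 536870912 536870912 536870912 469762048 67108864 false true true .pnn 0 1 1
    ndF0q0 ndF0q1 pcF1 cut_B00pp_011_s3 Ext.none :=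
  certF0 (fam := false) (s1 := true) (s2 := true) (a := 0) (b := 1) (c := 1) (cn := .pnn) (n1 := ndF0q0) (n2 := ndF0q1) (pc := pcF1) (cut := cut_B00pp_011_s3) (xt := Ext.none) (P1 := 0) (W1 := 536870912) (P2 := 536870912) (W2 := 536870912) (P3 := 469762048) (W3 := 67108864)
    rfl k0_B00pp_011_s3

theorem s_B00pp_011_s3 {κ x : ℝ} (hκ : κ * h0 = ken x) (hx : ((469762048 : ℕ) : ℝ) / S ≤ x)
    (hx' : x ≤ (((469762048 : ℕ) : ℝ) + (67108864 : ℕ)) / S)
    (H : CutB (VF κ) PP tKF tL pcF (Cut.of [[⟨0, 0, 0, 67108864⟩, ⟨1, 1, 0, 67108864⟩, ⟨2, 1, 0, 67108864⟩]]) 0 1 1 0 0 (sgb true) (sgb true) x) :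
    AltB (VF κ) PP tKF tL pcF [⟨4, 0, 0, 2845415833⟩] 0 1 1 0 0 (sgb true) (sgb true) x :=
  strip_altB (m := 2845415833) false rfl hκ covF00 covF01 hx hx' c_B00pp_011_s3 H (noExt_B)

end Pool.Agent.Strip051.G.I7_16_1_2.Tab.St.C
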