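import Pool.Agent.Strip051.G.I7_16_1_2.Tab

/-! # Certificates F0 (generated) -/

set_option linter.all false
set_option maxRecDepth 100000

namespace Pool.Agent.Strip051.G.I7_16_1_2.Tab.C.FA00

open Pool.Agent.Strip051.PB Pool.Agent.Strip051.PB.T
open Pool.Agent.Strip051.G.I7_16_1_2.Tab

noncomputable def cut_pp_001 : Cut := Cut.of [[⟨3, 0, 0, 1449551462⟩], [⟨4, 0, 0, 2845415833⟩]]

noncomputable def f_pp_001 : ℕ → ℕ → ℕ → ℕ → Bool := onCell 0 536870912 0 536870912 469762048 67108864
    (rowF 0 true true true .up 0 0 1 (qsf 0 536870912 0 536870912 1) ndF0q0 ndF0q0 pcF1 cut_pp_001 Ext.none)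

def k0_pp_001 : ∃ t, chk3 f_pp_001 t 1 1 1 = true :=
  ⟨(l 4), by decide +kernel⟩

theorem c_pp_001 : CertF 0 536870912 0 536870912 469762048 67108864 true true true .up 0 0 1
    ndF0q0 ndF0q0 pcF1 cut_pp_001 Ext.none :=
  certF0 (fam := true) (s1 := true) (s2 := true) (a := 0) (b := 0) (c := 1) (cn := .up) (n1 := ndF0q0) (n2 := ndF0q0) (pc := pcF1) (cut := cut_pp_001) (xt := Ext.none) (P1 := 0) (W1 := 536870912) (P2 := 0) (W2 := 536870912) (P3 := 469762048) (W3 := 67108864)
    rfl k0_pp_001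

noncomputable def cut_pp_011 : Cut := Cut.of [[⟨3, 0, 0, 1449551462⟩], [⟨4, 0, 0, 2845415833⟩], [⟨0, 0, 0, 67108864⟩, ⟨1, 1, 0, 67108864⟩, ⟨2, 1, 0, 67108864⟩]]

noncomputable def f_pp_011 : ℕ → ℕ → ℕ → ℕ → Bool := onCell 0 536870912 536870912 536870912 469762048 67108864
    (rowF 0 true true true .pnn 0 1 1 (qsf 0 536870912 536870912 536870912 1) ndF0q0 ndF0q1 pcF1 cut_pp_011 Ext.none)

def k0_pp_011 : ∃ t, chk3 f_pp_011 t 1 1 1 = true :=
  ⟨(l 14), by decide +kernel⟩

theorem c_pp_011 : CertF 0 536870912 536870912 536870912 469762048 67108864 true true true .pnn 0 1 1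
    ndF0q0 ndF0q1 pcF1 cut_pp_011 Ext.none :=
  certF0 (fam := true) (s1 := true) (s2 := true) (a := 0) (b := 1) (c := 1) (cn := .pnn) (n1 := ndF0q0) (n2 := ndF0q1) (pc := pcF1) (cut := cut_pp_011) (xt := Ext.none) (P1 := 0) (W1 := 536870912) (P2 := 536870912) (W2 := 536870912) (P3 := 469762048) (W3 := 67108864)
    rfl k0_pp_011

noncomputable def cut_pp_012 : Cut := Cut.of [[⟨3, 0, 0, 1449551462⟩], [⟨4, 0, 0, 2845415833⟩], [⟨0, 0, 0, 67108864⟩, ⟨1, 1, 0, 67108864⟩, ⟨2, 1, 0, 67108864⟩]]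

noncomputable def f_pp_012 : ℕ → ℕ → ℕ → ℕ → Bool := onCell 0 536870912 536870912 536870912 469762048 67108864
    (rowF 0 true true true .pnp 0 1 2 (qsf 0 536870912 536870912 536870912 2) ndF0q0 ndF0q1 pcF2 cut_pp_012 Ext.none)

def k0_pp_012 : ∃ t, chk3 f_pp_012 t 1 1 1 = true :=
  ⟨(l 14), by decide +kernel⟩

theorem c_pp_012 : CertF 0 536870912 536870912 536870912 469762048 67108864 true true true .pnp 0 1 2
    ndF0q0 ndF0q1 pcF2 cut_pp_012 Ext.none :=
  certF0 (fam := true) (s1 := true) (s2 := true) (a := 0) (b := 1) (c := 2) (cn := .pnp) (n1 := ndF0q0) (n2 := ndF0q1) (pc := pcF2) (cut := cut_pp_012) (xt := Ext.none) (P1 := 0) (W1 := 536870912) (P2 := 536870912) (W2 := 536870912) (P3 := 469762048) (W3 := 67108864)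
    rfl k0_pp_012

noncomputable def cut_pp_022 : Cut := Cut.of [[⟨3, 0, 0, 1449551462⟩], [⟨4, 0, 0, 2845415833⟩], [⟨0, 0, 0, 67108864⟩, ⟨1, 1, 0, 67108864⟩, ⟨2, 1, 0, 67108864⟩]]

noncomputable def f_pp_022 : ℕ → ℕ → ℕ → ℕ → Bool := onCell 0 536870912 0 536870912 469762048 67108864
    (rowF 0 true true true .pp 0 2 2 (qsf 0 536870912 0 536870912 2) ndF0q0 ndF0q2 pcF2 cut_pp_022 Ext.none)

def k0_pp_022 : ∃ t, chk3 f_pp_022 t 1 1 1 = true :=
  ⟨(a (b (a (b (a (b (a (b (l 16487680) (l 16489640)) (l 16475008)) (a (a (l 16500552) (l 16498784)) (l 16494600))) (b (a (l 16512816) (l 16556024)) (a (l 16519376) (l 16560064)))) (a (b (a (a (l 16521792) (l 16524008)) (b (l 16516832) (l 16535168))) (a (a (b (l 16542952) (l 16559048)) (b (l 16548032) (l 16565824))) (b (l 16596776) (a (l 16572224) (l 16578344))))) (b (a (l 16554312) (l 16571640)) (a (b (l 16562832) (l 16587152)) (l 16652928))))) (b (a (b (a (l 16599432) (l 16642136)) (a (l 16600632) (l 16640144))) (b (a (l 16683304)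 (l 16722152)) (a (l 16677712) (l 16712488)))) (a (b (a (l 16672480) (l 16688080)) (a (a (l 16621920) (l 16639336)) (a (l 16698240) (l 14)))) (b (a (l 16743336) (b (l 16710296) (l 14))) (l 14))))) (a (b (a (b (a (b (a (b (l 16572000) (l 16581232)) (l 16584984)) (a (a (b (l 16588544) (l 16598584)) (l 16598552)) (b (l 16600304) (l 16611160)))) (a (b (l 16592968) (b (l 16609368) (l 16620904))) (b (l 16600736) (l 16645376)))) (a (b (a (b (a (l 16609152) (l 16614560)) (l 14)) (l 14)) (l 14)) (l 14))) (b (a (b (a (l 16608368) (l 16615968)) (l 14)) (l 14)) (l 14))) (l 14)) (l 14))) (b (b (a (a (b (a (l 16778896) (b (l 16795344) (l 16783720))) (a (l 16743656) (b (l 16773880) (l 14)))) (b (a (b (l 16823928) (l 16809152)) (b (l 16847688) (l 14))) (l 14))) (l 2)) (l 14)) (l 14))), by decide +kernel⟩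

theorem c_pp_022 : CertF 0 536870912 0 536870912 469762048 67108864 true true true .pp 0 2 2
    ndF0q0 ndF0q2 pcF2 cut_pp_022 Ext.none :=
  certF0 (fam := true) (s1 := true) (s2 := true) (a := 0) (b := 2) (c := 2) (cn := .pp) (n1 := ndF0q0) (n2 := ndF0q2) (pc := pcF2) (cut := cut_pp_022) (xt := Ext.none) (P1 := 0) (W1 := 536870912) (P2 := 0) (W2 := 536870912) (P3 := 469762048) (W3 := 67108864)
    rfl k0_pp_022

noncomputable def cut_pp_023 : Cut := Cut.of [[⟨3, 0, 0, 1449551462⟩], [⟨4, 0, 0, 2845415833⟩]]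

noncomputable def f_pp_023 : ℕ → ℕ → ℕ → ℕ → Bool := onCell 1610612736 536870912 0 536870912 469762048 67108864
    (rowF 2 true true true .up 0 2 3 (qsf 0 536870912 0 536870912 3) ndF0q0 ndF0q2 pcF3 cut_pp_023 Ext.none)

def k0_pp_023 : ∃ t, chk3 f_pp_023 t 1 1 1 = true :=
  ⟨(a (b (a (b (a (b (a (b (l 16742232) (l 14)) (l 14)) (l 14)) (l 14)) (l 14)) (l 14)) (l 4)) (l 2)), by decide +kernel⟩

theorem c_pp_023 : CertF 0 536870912 0 536870912 469762048 67108864 true true true .up 0 2 3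
    ndF0q0 ndF0q2 pcF3 cut_pp_023 Ext.none :=
  certF2 (fam := true) (s1 := true) (s2 := true) (a := 0) (b := 2) (c := 3) (cn := .up) (n1 := ndF0q0) (n2 := ndF0q2) (pc := pcF3) (cut := cut_pp_023) (xt := Ext.none) (P1 := 0) (W1 := 536870912) (P2 := 0) (W2 := 536870912) (P3 := 469762048) (W3 := 67108864)
    rfl (fun _ => rfl) k0_pp_023

noncomputable def cut_pp_101 : Cut := Cut.of [[⟨3, 0, 0, 1449551462⟩], [⟨4, 0, 0, 2845415833⟩]]

noncomputable def f_pp_101 : ℕ → ℕ → ℕ → ℕ → Bool := onCell 536870912 536870912 0 536870912 469762048 67108864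
    (rowF 0 true true true .npn 1 0 1 (qsf 536870912 536870912 0 536870912 1) ndF0q1 ndF0q0 pcF1 cut_pp_101 Ext.none)

def k0_pp_101 : ∃ t, chk3 f_pp_101 t 1 1 1 = true :=
  ⟨(l 14), by decide +kernel⟩

theorem c_pp_101 : CertF 536870912 536870912 0 536870912 469762048 67108864 true true true .npn 1 0 1
    ndF0q1 ndF0q0 pcF1 cut_pp_101 Ext.none :=
  certF0 (fam := true) (s1 := true) (s2 := true) (a := 1) (b := 0) (c := 1) (cn := .npn) (n1 := ndF0q1) (n2 := ndF0q0) (pc := pcF1) (cut := cut_pp_101) (xt := Ext.none) (P1 := 536870912) (W1 := 536870912) (P2 := 0) (W2 := 536870912) (P3 := 469762048) (W3 := 67108864)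
    rfl k0_pp_101

noncomputable def cut_pp_102 : Cut := Cut.of [[⟨3, 0, 0, 1449551462⟩], [⟨4, 0, 0, 2845415833⟩]]

noncomputable def f_pp_102 : ℕ → ℕ → ℕ → ℕ → Bool := onCell 536870912 536870912 0 536870912 469762048 67108864
    (rowF 0 true true true .npp 1 0 2 (qsf 536870912 536870912 0 536870912 2) ndF0q1 ndF0q0 pcF2 cut_pp_102 Ext.none)

def k0_pp_102 : ∃ t, chk3 f_pp_102 t 1 1 1 = true :=
  ⟨(l 14), by decide +kernel⟩

theorem c_pp_102 : CertF 536870912 536870912 0 536870912 469762048 67108864 true true true .npp 1 0 2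
    ndF0q1 ndF0q0 pcF2 cut_pp_102 Ext.none :=
  certF0 (fam := true) (s1 := true) (s2 := true) (a := 1) (b := 0) (c := 2) (cn := .npp) (n1 := ndF0q1) (n2 := ndF0q0) (pc := pcF2) (cut := cut_pp_102) (xt := Ext.none) (P1 := 536870912) (W1 := 536870912) (P2 := 0) (W2 := 536870912) (P3 := 469762048) (W3 := 67108864)
    rfl k0_pp_102

noncomputable def cut_pp_112 : Cut := Cut.of [[⟨3, 0, 0, 1449551462⟩], [⟨4, 0, 0, 2845415833⟩]]

noncomputable def f_pp_112 : ℕ → ℕ → ℕ → ℕ → Bool := onCell 536870912 536870912 536870912 536870912 469762048 67108864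
    (rowF 0 true true true .dn 1 1 2 (qsf 536870912 536870912 536870912 536870912 2) ndF0q1 ndF0q1 pcF2 cut_pp_112 Ext.none)

def k0_pp_112 : ∃ t, chk3 f_pp_112 t 1 1 1 = true :=
  ⟨(l 4), by decide +kernel⟩

theorem c_pp_112 : CertF 536870912 536870912 536870912 536870912 469762048 67108864 true true true .dn 1 1 2
    ndF0q1 ndF0q1 pcF2 cut_pp_112 Ext.none :=
  certF0 (fam := true) (s1 := true) (s2 := true) (a := 1) (b := 1) (c := 2) (cn := .dn) (n1 := ndF0q1) (n2 := ndF0q1) (pc := pcF2) (cut := cut_pp_112) (xt := Ext.none) (P1 := 536870912) (W1 := 536870912) (P2 := 536870912) (W2 := 536870912) (P3 := 469762048) (W3 := 67108864)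
    rfl k0_pp_112

noncomputable def cut_pp_113 : Cut := Cut.of [[⟨3, 0, 0, 1449551462⟩], [⟨4, 0, 0, 2845415833⟩]]

noncomputable def f_pp_113 : ℕ → ℕ → ℕ → ℕ → Bool := onCell 536870912 536870912 536870912 536870912 469762048 67108864
    (rowF 0 true true true .nn 1 1 3 (qsf 536870912 536870912 536870912 536870912 3) ndF0q1 ndF0q1 pcF3 cut_pp_113 Ext.none)

def k0_pp_113 : ∃ t, chk3 f_pp_113 t 1 1 1 = true :=
  ⟨(l 4), by decide +kernel⟩

theorem c_pp_113 : CertF 536870912 536870912 536870912 536870912 469762048 67108864 true true true .nn 1 1 3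
    ndF0q1 ndF0q1 pcF3 cut_pp_113 Ext.none :=
  certF0 (fam := true) (s1 := true) (s2 := true) (a := 1) (b := 1) (c := 3) (cn := .nn) (n1 := ndF0q1) (n2 := ndF0q1) (pc := pcF3) (cut := cut_pp_113) (xt := Ext.none) (P1 := 536870912) (W1 := 536870912) (P2 := 536870912) (W2 := 536870912) (P3 := 469762048) (W3 := 67108864)
    rfl k0_pp_113

noncomputable def cut_pp_123 : Cut := Cut.of [[⟨3, 0, 0, 1449551462⟩], [⟨4, 0, 0, 2845415833⟩]]

noncomputable def f_pp_123 : ℕ → ℕ → ℕ → ℕ → Bool := onCell 536870912 536870912 0 536870912 469762048 67108864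
    (rowF 0 true true true .npn 1 2 3 (qsf 536870912 536870912 0 536870912 3) ndF0q1 ndF0q2 pcF3 cut_pp_123 Ext.none)

def k0_pp_123 : ∃ t, chk3 f_pp_123 t 1 1 1 = true :=
  ⟨(a (l 14) (l 4)), by decide +kernel⟩

theorem c_pp_123 : CertF 536870912 536870912 0 536870912 469762048 67108864 true true true .npn 1 2 3
    ndF0q1 ndF0q2 pcF3 cut_pp_123 Ext.none :=
  certF0 (fam := true) (s1 := true) (s2 := true) (a := 1) (b := 2) (c := 3) (cn := .npn) (n1 := ndF0q1) (n2 := ndF0q2) (pc := pcF3) (cut := cut_pp_123) (xt := Ext.none) (P1 := 536870912) (W1 := 536870912) (P2 := 0) (W2 := 536870912) (P3 := 469762048) (W3 := 67108864)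
    rfl k0_pp_123

noncomputable def cut_pp_202 : Cut := Cut.of [[⟨3, 0, 0, 1449551462⟩], [⟨4, 0, 0, 2845415833⟩]]

noncomputable def f_pp_202 : ℕ → ℕ → ℕ → ℕ → Bool := onCell 0 536870912 0 536870912 469762048 67108864
    (rowF 0 true true true .pp 2 0 2 (qsf 0 536870912 0 536870912 2) ndF0q2 ndF0q0 pcF2 cut_pp_202 Ext.none)

def k0_pp_202 : ∃ t, chk3 f_pp_202 t 1 1 1 = true :=
  ⟨(l 5), by decide +kernel⟩

theorem c_pp_202 : CertF 0 536870912 0 536870912 469762048 67108864 true true true .pp 2 0 2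
    ndF0q2 ndF0q0 pcF2 cut_pp_202 Ext.none :=
  certF0 (fam := true) (s1 := true) (s2 := true) (a := 2) (b := 0) (c := 2) (cn := .pp) (n1 := ndF0q2) (n2 := ndF0q0) (pc := pcF2) (cut := cut_pp_202) (xt := Ext.none) (P1 := 0) (W1 := 536870912) (P2 := 0) (W2 := 536870912) (P3 := 469762048) (W3 := 67108864)
    rfl k0_pp_202

noncomputable def cut_pp_203 : Cut := Cut.of [[⟨3, 0, 0, 1449551462⟩], [⟨4, 0, 0, 2845415833⟩]]

noncomputable def f_pp_203 : ℕ → ℕ → ℕ → ℕ → Bool := onCell 0 536870912 0 536870912 469762048 67108864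
    (rowF 0 true true true .up 2 0 3 (qsf 0 536870912 0 536870912 3) ndF0q2 ndF0q0 pcF3 cut_pp_203 Ext.none)

def k0_pp_203 : ∃ t, chk3 f_pp_203 t 1 1 1 = true :=
  ⟨(l 5), by decide +kernel⟩

theorem c_pp_203 : CertF 0 536870912 0 536870912 469762048 67108864 true true true .up 2 0 3
    ndF0q2 ndF0q0 pcF3 cut_pp_203 Ext.none :=
  certF0 (fam := true) (s1 := true) (s2 := true) (a := 2) (b := 0) (c := 3) (cn := .up) (n1 := ndF0q2) (n2 := ndF0q0) (pc := pcF3) (cut := cut_pp_203) (xt := Ext.none) (P1 := 0) (W1 := 536870912) (P2 := 0) (W2 := 536870912) (P3 := 469762048) (W3 := 67108864)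
    rfl k0_pp_203

noncomputable def cut_pp_213 : Cut := Cut.of [[⟨3, 0, 0, 1449551462⟩], [⟨4, 0, 0, 2845415833⟩]]

noncomputable def f_pp_213 : ℕ → ℕ → ℕ → ℕ → Bool := onCell 0 536870912 536870912 536870912 469762048 67108864
    (rowF 0 true true true .pnn 2 1 3 (qsf 0 536870912 536870912 536870912 3) ndF0q2 ndF0q1 pcF3 cut_pp_213 Ext.none)

def k0_pp_213 : ∃ t, chk3 f_pp_213 t 1 1 1 = true :=
  ⟨(a (l 5) (l 4)), by decide +kernel⟩

theorem c_pp_213 : CertF 0 536870912 536870912 536870912 469762048 67108864 true true true .pnn 2 1 3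
    ndF0q2 ndF0q1 pcF3 cut_pp_213 Ext.none :=
  certF0 (fam := true) (s1 := true) (s2 := true) (a := 2) (b := 1) (c := 3) (cn := .pnn) (n1 := ndF0q2) (n2 := ndF0q1) (pc := pcF3) (cut := cut_pp_213) (xt := Ext.none) (P1 := 0) (W1 := 536870912) (P2 := 536870912) (W2 := 536870912) (P3 := 469762048) (W3 := 67108864)
    rfl k0_pp_213

noncomputable def cut_pm_001 : Cut := Cut.of [[⟨3, 0, 0, 1449551462⟩], [⟨4, 0, 0, 2845415833⟩]]

noncomputable def f_pm_001 : ℕ → ℕ → ℕ → ℕ → Bool := onCell 0 536870912 0 536870912 469762048 67108864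
    (rowF 0 true true false .up 0 0 1 (qsf 0 536870912 0 536870912 1) ndF0q0 ndF0q0 pcF1 cut_pm_001 Ext.none)

def k0_pm_001 : ∃ t, chk3 f_pm_001 t 1 1 1 = true :=
  ⟨(l 3), by decide +kernel⟩

theorem c_pm_001 : CertF 0 536870912 0 536870912 469762048 67108864 true true false .up 0 0 1
    ndF0q0 ndF0q0 pcF1 cut_pm_001 Ext.none :=
  certF0 (fam := true) (s1 := true) (s2 := false) (a := 0) (b := 0) (c := 1) (cn := .up) (n1 := ndF0q0) (n2 := ndF0q0) (pc := pcF1) (cut := cut_pm_001) (xt := Ext.none) (P1 := 0) (W1 := 536870912) (P2 := 0) (W2 := 536870912) (P3 := 469762048) (W3 := 67108864)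
    rfl k0_pm_001

noncomputable def cut_pm_011 : Cut := Cut.of [[⟨3, 0, 0, 1449551462⟩], [⟨4, 0, 0, 2845415833⟩], [⟨0, 0, 0, 67108864⟩, ⟨1, 1, 0, 67108864⟩, ⟨2, 1, 0, 67108864⟩]]

noncomputable def f_pm_011 : ℕ → ℕ → ℕ → ℕ → Bool := onCell 0 536870912 536870912 536870912 469762048 67108864
    (rowF 1 true true false .pnn 0 1 1 (qsf 0 536870912 536870912 536870912 1) ndF0q0 ndF0q1 pcF1 cut_pm_011 Ext.none)

def k0_pm_011 : ∃ t, chk3 f_pm_011 t 1 1 1 = true :=
  ⟨(l 6), by decide +kernel⟩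

theorem c_pm_011 : CertF 0 536870912 536870912 536870912 469762048 67108864 true true false .pnn 0 1 1
    ndF0q0 ndF0q1 pcF1 cut_pm_011 Ext.none :=
  certF1 (fam := true) (s1 := true) (s2 := false) (a := 0) (b := 1) (c := 1) (cn := .pnn) (n1 := ndF0q0) (n2 := ndF0q1) (pc := pcF1) (cut := cut_pm_011) (xt := Ext.none) (P1 := 0) (W1 := 536870912) (P2 := 536870912) (W2 := 536870912) (P3 := 469762048) (W3 := 67108864)
    rfl (fun _ => rfl) k0_pm_011

noncomputable def cut_pm_012 : Cut := Cut.of [[⟨3, 0, 0, 1449551462⟩], [⟨4, 0, 0, 2845415833⟩], [⟨0, 0, 0, 67108864⟩, ⟨1, 1, 0, 67108864⟩, ⟨2, 1, 0, 67108864⟩], [⟨0, 0, 1, 33554432⟩, ⟨1, 1, 0, 33554432⟩, ⟨2, 1, 1, 33554432⟩]]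

noncomputable def f_pm_012 : ℕ → ℕ → ℕ → ℕ → Bool := onCell 1073741824 536870912 536870912 536870912 469762048 67108864
    (rowF 2 true true false .pnp 0 1 2 (qsf 0 536870912 536870912 536870912 2) ndF0q0 ndF0q1 pcF2 cut_pm_012 Ext.none)

def k0_pm_012 : ∃ t, chk3 f_pm_012 t 2 1 1 = true :=
  ⟨(a (l 6) (b (l 6) (a (l 6) (b (l 6) (b (l 6) (a (l 6) (b (b (l 6) (a (l 6) (c (l 16630480) (l 16618520)))) (b (a (l 6) (b (l 16612824) (l 16604920))) (a (c (l 16626160) (l 16595696)) (b (l 16596936) (l 16588864))))))))))), by decide +kernel⟩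

def k1_pm_012 : ∃ t, chk3 f_pm_012 t 3 2 1 = true :=
  ⟨(a (a (l 6) (l 2)) (l 2)), by decide +kernel⟩

def k2_pm_012 : ∃ t, chk3 f_pm_012 t 6 6 1 = true :=
  ⟨(b (a (l 6) (b (l 2) (a (b (l 2) (l 45734797159)) (l 2)))) (a (b (l 6) (a (l 6) (a (l 6) (a (a (l 6) (b (l 6) (l 16741016))) (b (l 16763416) (l 16745064)))))) (b (a (b (l 16807168) (a (l 16787936) (l 16801288))) (b (l 2) (l 16824088))) (a (b (a (b (l 16776912) (l 16768064)) (b (l 16790392) (l 16781632))) (a (c (l 16771032) (l 16737056)) (l 16767064))) (b (a (l 16801088) (l 16817688)) (a (l 16781984) (l 16798664))))))), by decide +kernel⟩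

def k3_pm_012 : ∃ t, chk3 f_pm_012 t 12 14 1 = true :=
  ⟨(b (a (l 6) (b (a (c (l 16726352) (b (l 6) (l 16695872))) (c (l 16737360) (a (l 16706056) (l 16710240)))) (a (b (l 16698600) (l 16688528)) (c (l 16715424) (a (l 16685912) (l 16689600)))))) (a (a (l 6) (b (c (l 16680096) (l 16660344)) (c (l 16661440) (l 16642944)))) (b (a (c (l 16685160) (l 16662304)) (a (l 16677864) (l 16681640))) (a (b (l 16658752) (l 16648888)) (c (b (l 16675776) (l 16664504)) (l 16645752)))))), by decide +kernel⟩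

def k4_pm_012 : ∃ t, chk3 f_pm_012 t 12 15 1 = true :=
  ⟨(b (a (b (a (c (l 16654152) (l 16628816)) (b (l 16638696) (l 16650744))) (a (b (l 16623920) (l 16615680)) (c (b (l 16629120) (l 16619944)) (l 16608416)))) (b (a (c (b (l 16649288) (l 16639144)) (l 16624280)) (c (b (l 16653296) (c (l 16647816) (l 16636536))) (l 16625040))) (a (c (b (c (l 16633840) (l 16624328)) (c (l 16623640) (l 16614504))) (b (l 16610216) (l 16600896))) (a (c (b (l 16630440) (c (l 16624792) (l 16614696))) (l 16604664)) (c (b (l 16631968) (l 16620760)) (l 16604760)))))) (a (b (b (a (l 16607360) (c (l 16610768) (l 16595472))) (a (l 16619952) (c (l 16601608) (l 16586832)))) (b (a (l 16611520) (c (l 16592408) (l 16578120))) (a (l 16592544) (c (l 16583184) (l 16569368))))) (b (a (c (a (b (l 16609408) (l 16599720)) (b (l 16609016) (c (l 16603288) (l 16594600)))) (b (l 16591656) (l 16582416))) (c (b (c (a (a (l 16613840) (l 16614128)) (l 16614768)) (l 16604328)) (a (c (a (l 16603224) (l 16603272))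 (l 16593968)) (c (l 16603544) (l 16593776)))) (b (l 16589520) (a (l 16580088) (l 16579168))))) (a (b (c (a (l 16590056) (c (l 16593080) (l 16584752))) (l 16573184)) (c (a (l 16580384) (c (l 16582920) (l 16574944))) (a (l 16565224) (l 16562824)))) (c (b (a (c (b (l 16595256) (l 16589960)) (l 16583744)) (c (l 16592440) (l 16583112))) (a (c (a (b (l 16584880) (l 16579672)) (l 16581896)) (a (l 16573904) (l 16573304))) (b (l 16579712) (l 16574352)))) (b (a (l 16570400) (l 16569088)) (a (c (l 16565040) (l 16556440)) (l 16559104)))))))), by decide +kernel⟩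

def k5_pm_012 : ∃ t, chk3 f_pm_012 t 13 14 1 = true :=
  ⟨(b (a (b (a (c (l 16749968) (l 16717280)) (l 16746056)) (a (c (l 16727240) (l 16696104)) (l 16723376))) (b (a (l 16760424) (l 16776608)) (a (l 16737056) (l 16752592)))) (a (b (a (c (l 16703040) (l 16673720)) (l 16699216)) (a (b (l 16670496) (l 16658480)) (c (l 16689240) (l 16658656)))) (b (a (l 16712048) (l 16726784)) (a (c (l 16702776) (l 16668816)) (c (l 16718272) (l 16680872)))))), by decide +kernel⟩

def k6_pm_012 : ∃ t, chk3 f_pm_012 t 13 15 1 = true :=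
  ⟨(b (a (b (a (c (b (l 16659728) (l 16647496)) (l 16628208)) (c (b (l 16669136) (l 16655568)) (l 16634176))) (b (c (a (l 16635376) (l 16642272)) (l 16634136)) (c (a (c (l 16629168) (l 16617584)) (c (l 16635560) (l 16622672))) (a (l 16600424) (l 16603576))))) (b (a (c (b (l 16681232) (l 16666704)) (l 16642440)) (c (b (l 16695920) (l 16680632)) (l 16653416))) (a (c (b (l 16652256) (c (l 16644840) (l 16630512))) (b (l 16622608) (l 16609304))) (c (b (l 16665024) (c (l 16657360) (l 16641464))) (b (l 16632168) (l 16617936)))))) (a (b (a (c (a (b (l 16610736) (c (l 16604392) (l 16594104))) (b (l 16612408) (l 16600392))) (b (l 16589488) (l 16578672))) (a (c (b (l 16614704) (l 16602136)) (l 16585144)) (c (b (l 16617664) (l 16604512)) (l 16586568)))) (a (c (b (c (a (l 16592792) (l 16593680)) (l 16583080)) (c (a (l 16581328) (l 16581712)) (l 16571856))) (b (l 16567976) (l 16567888))) (c (a (b (l 16589728) (l 16577488)) (b (l 16591536) (l 16578744))) (b (l 16568272) (l 16556808)))))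 (b (a (a (c (b (l 16621312) (l 16607544)) (l 16588616)) (c (b (l 16625696) (l 16611288)) (l 16601800))) (c (b (a (l 16630856) (l 16636904)) (c (a (l 16622800) (l 16628432)) (l 16611104))) (b (l 16603840) (l 16589672)))) (a (c (b (c (a (l 16599984) (l 16603408)) (l 16589264)) (c (a (l 16586296) (l 16589088)) (l 16575904))) (b (l 16570808) (l 16558344))) (c (b (c (a (l 16607568) (l 16612488)) (l 16596264)) (c (a (l 16592576) (l 16596792)) (a (l 16579984) (l 16583560)))) (b (l 16575864) (l 16578008))))))), by decide +kernel⟩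

def k7_pm_012 : ∃ t, chk3 f_pm_012 t 7 6 1 = true :=
  ⟨(b (l 2) (a (b (l 2) (a (b (l 2) (l 16826992)) (l 2))) (l 2))), by decide +kernel⟩

def k8_pm_012 : ∃ t, chk3 f_pm_012 t 14 14 1 = true :=
  ⟨(b (a (b (l 16804360) (a (l 16770024) (l 16789440))) (b (l 2) (a (l 16810168) (l 2)))) (a (b (a (l 16743464) (l 16762160)) (a (b (l 16722392) (l 16707848)) (b (l 16740440) (l 16725424)))) (b (a (l 16781808) (l 16803552)) (a (b (l 16759160) (l 16743464)) (b (l 16778864) (l 16762192)))))), by decide +kernel⟩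

def k9_pm_012 : ∃ t, chk3 f_pm_012 t 14 30 1 = true :=
  ⟨(a (b (a (b (l 16692960) (c (l 16696704) (l 16659064))) (b (l 16710000) (c (l 16714928) (l 16673808)))) (a (c (b (l 16680496) (c (l 16672824) (l 16655264))) (b (l 16644264) (l 16629272))) (b (c (l 16713816) (l 16658416)) (c (a (l 16676472) (l 16685456)) (a (l 16639192) (l 16646464)))))) (b (a (b (l 16727328) (c (l 16733112) (l 16688752))) (b (l 16745128) (c (l 16735696) (l 16704072)))) (a (b (c (l 16715424) (l 16672592)) (c (a (l 16693688) (l 16701176)) (a (l 16653144) (l 16659248)))) (b (c (l 16734976) (l 16686936)) (c (a (l 16709248) (l 16720184)) (a (l 16665904) (l 16673136))))))), by decide +kernel⟩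

def k10_pm_012 : ∃ t, chk3 f_pm_012 t 28 31 1 = true :=
  ⟨(b (a (c (b (c (a (l 16651832) (l 16659776)) (l 16638904)) (c (a (l 16634992) (l 16642280)) (a (l 16619464) (l 16625952)))) (b (l 16635024) (c (l 16606760) (l 16591032)))) (c (b (a (c (l 16668248) (l 16650240)) (c (l 16677296) (l 16658440))) (b (a (l 16646152) (c (l 16663600) (l 16645400))) (a (l 16658352) (c (l 16654408) (l 16636648))))) (b (a (l 16623512) (l 16630456)) (a (l 16607688) (c (l 16623160) (l 16605408)))))) (a (a (c (b (c (l 16618224) (l 16603504)) (b (l 16598816) (l 16611840))) (b (l 16581520) (l 16567008))) (c (b (c (b (l 16629200) (l 16620488)) (l 16609416)) (c (b (l 16611880) (l 16603352)) (l 16592984))) (b (l 16586296) (l 16571056)))) (c (b (a (c (b (l 16636816) (l 16627784)) (b (l 16620320) (l 16611744))) (c (b (a (l 16643024) (l 16647328)) (a (l 16633792) (l 16637992))) (b (l 16627856) (l 16619032)))) (a (c (b (c (l 16622720) (l 16614912)) (b (l 16612064) (l 16607624))) (b (l 16603216) (l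 16594688))) (c (b (a (l 16624536) (c (l 16632776) (l 16624472))) (a (b (l 16617616) (l 16613000)) (c (b (l 16625640) (l 16620888)) (l 16615200)))) (b (a (l 16608352) (l 16612040)) (a (l 16599592) (l 16603112)))))) (b (a (c (l 16599824) (l 16583688)) (b (l 16602048) (l 16614840))) (a (c (l 16583632) (l 16568288)) (c (b (l 16593816) (l 16585424)) (l 16573504))))))), by decide +kernel⟩

def k11_pm_012 : ∃ t, chk3 f_pm_012 t 29 62 1 = true :=
  ⟨(a (b (c (a (c (l 16685440) (l 16665816)) (c (l 16692696) (l 16672408))) (a (l 16636712) (l 16663272))) (c (a (c (b (l 16671368) (l 16661912)) (b (l 16652424) (l 16643432))) (c (b (l 16678168) (l 16668408)) (b (l 16658576) (l 16649288)))) (a (c (l 16629336) (l 16610864)) (c (l 16645200) (l 16615608))))) (b (c (a (b (l 16694856) (l 16685160)) (b (l 16703080) (l 16693088))) (a (c (l 16658760) (l 16638144)) (c (l 16665808) (l 16644496)))) (b (c (a (l 16685880) (l 16683016)) (a (l 16635176) (l 16641464))) (c (a (c (l 16675456) (l 16655704))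 (c (l 30) (l 16662688))) (a (l 16647256) (c (l 16642392) (l 16622216))))))), by decide +kernel⟩

def k12_pm_012 : ∃ t, chk3 f_pm_012 t 58 63 1 = true :=
  ⟨(c (b (a (c (b (a (l 16650952) (l 16653896)) (a (c (l 16645848) (l 16637128)) (c (l 16648704) (l 16639840)))) (b (l 16634392) (c (l 16629696) (l 16620936)))) (a (c (b (l 16656984) (c (l 16651704) (l 16642688))) (b (l 16638504) (l 16629208))) (c (b (l 16660208) (c (l 30) (l 16645680))) (b (l 16641416) (l 16631968))))) (a (a (c (b (b (l 16634360) (l 16640088)) (c (b (l 16628984) (l 16624152)) (l 16618336))) (b (l 16615048) (l 16606000))) (c (b (c (b (l 16641368) (l 16636464)) (l 16630304)) (c (b (l 16631552) (c (l 16628712) (l 16624560))) (b (l 16623128) (l 16618336)))) (b (l 16617400) (c (l 16612368) (l 16604016))))) (a (c (b (c (b (l 16644240) (l 16639256)) (l 16632992)) (a (c (b (l 16633568) (l 16628592)) (l 16622616)) (c (l 30) (l 16623912)))) (b (l 16619872) (c (l 16614760) (l 16606264)))) (c (c (l 30) (b (b (l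 16638280) (l 16633344)) (b (l 16628392) (c (l 16625584) (l 16621296))))) (b (c (l 16626920) (l 16618040)) (b (l 16615344) (l 16621064))))))) (b (a (c (b (l 16616456) (l 16607832)) (l 16594512)) (c (b (l 16621416) (l 16612504)) (l 16598728))) (a (c (b (l 16599176) (l 16590512)) (l 16578064)) (c (b (c (l 16607960) (l 16599168)) (c (l 16598880) (l 16590320))) (b (l 16586000) (l 16577488)))))), by decide +kernel⟩

def k13_pm_012 : ∃ t, chk3 f_pm_012 t 59 63 1 = true :=
  ⟨(c (b (a (a (c (b (l 16663568) (c (l 30) (l 16648800))) (b (l 16644472) (l 16634864))) (c (l 30) (b (l 16647664) (l 16648384)))) (c (l 30) (b (a (l 16651000) (l 16654488)) (a (c (l 16645880) (l 16636288)) (c (l 30) (l 16639536)))))) (a (a (a (c (c (l 30) (b (l 16638016) (b (l 16630504) (l 16625488)))) (b (l 16624520) (c (l 16619256) (l 16610512)))) (c (l 30) (b (l 16631168) (c (l 16620616) (l 16611800))))) (c (l 30) (b (b (l 16630552) (l 16636128)) (c (b (l 16625216) (c (l 16622440) (l 16618016))) (b (l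 16616232) (l 16611376)))))) (c (l 30) (b (a (c (b (l 16638312) (l 16633256)) (l 16626456)) (c (l 30) (b (l 16632048) (l 16627040)))) (a (a (b (l 16630752) (b (l 16619144) (l 16627136))) (c (l 30) (l 16617304))) (c (l 30) (b (l 16622032) (c (l 16619296) (l 16614720))))))))) (b (a (c (b (l 16626896) (c (l 16622360) (l 16613032))) (b (l 16607824) (l 16599080))) (c (b (l 16632936) (a (l 16621936) (l 16624952))) (b (l 16613224) (l 16604200)))) (a (a (c (b (l 16607176) (l 16597992)) (l 16584816)) (c (b (l 16609760) (l 16600424)) (l 16587032))) (c (b (a (l 16612480) (c (l 16620072) (l 16610608))) (a (c (l 16607528) (l 16598464)) (b (l 16608112) (l 16603288)))) (b (l 16595152) (c (l 16590648) (l 16581512))))))), by decide +kernel⟩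

def k14_pm_012 : ∃ t, chk3 f_pm_012 t 15 14 1 = true :=
  ⟨(b (l 2) (a (b (l 2) (a (c (l 16785984) (l 16765272)) (l 2))) (l 2))), by decide +kernel⟩

def k15_pm_012 : ∃ t, chk3 f_pm_012 t 15 30 1 = true :=
  ⟨(a (b (a (b (l 16749088) (c (l 16765528) (l 16721784))) (b (l 2) (c (l 16813064) (l 16744520)))) (a (b (c (l 16725176) (l 16703648)) (c (a (l 16716560) (l 16711984)) (a (l 16680960) (l 16689408)))) (b (c (l 16732880) (l 16723728)) (c (b (l 16718848) (l 16708936)) (a (l 16698504) (l 16709160)))))) (b (l 2) (a (a (a (b (l 2) (l 16694760)) (l 2)) (l 2)) (l 2)))), by decide +kernel⟩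

def k16_pm_012 : ∃ t, chk3 f_pm_012 t 30 62 1 = true :=
  ⟨(a (b (c (a (c (l 16692728) (l 16695632)) (c (l 16688984) (l 16689640))) (a (b (l 16667080) (l 16657736)) (b (l 16675112) (l 16665488)))) (b (c (a (l 16693984) (l 16691824)) (a (l 16648328) (l 16655800))) (c (a (c (l 30) (l 16670264)) (c (l 16679792) (l 30))) (a (c (l 16649304) (l 16628464)) (c (l 16656824) (l 16635304)))))) (b (c (a (l 16685096) (l 16700928)) (a (b (l 16683792) (l 16673880)) (b (l 16693128) (l 16682928)))) (b (c (a (l 16688640) (l 16684480)) (a (l 16663904) (l 16672656))) (c (a (c (l 16718744) (l 30)) (c (l 16756696) (l 16672888))) (a (c (l 16664984) (l 16642760)) (c (l 30) (l 16650856))))))), by decide +kernel⟩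

def k17_pm_012 : ∃ t, chk3 f_pm_012 t 60 63 1 = true :=
  ⟨(c (c (b (a (l 30) (b (c (l 16677936) (l 30)) (l 30))) (l 30)) (c (l 30) (a (a (a (c (l 30) (b (l 16644608) (b (l 16629560) (l 16619480)))) (l 30)) (l 30)) (l 30)))) (b (a (c (b (a (l 16637832) (l 16641288)) (a (l 16628104) (l 16631416))) (b (l 16619192) (l 16620368))) (c (b (a (l 16644896) (l 16648664)) (a (l 16645352) (c (l 30) (l 16633304)))) (b (l 16625744) (a (l 16614512) (l 16617792))))) (a (c (b (a (c (l 16623152) (l 16613536)) (b (l 16623976) (l 16619008))) (a (c (b (l 16615712) (l 16610744)) (l 16603872)) (c (b (l 16618824) (c (l 16616136) (l 16611416))) (l 16606792)))) (b (a (l 16599136) (l 16601968)) (a (l 16589840) (l 16592528)))) (c (b (a (c (b (l 16632320) (l 16627208)) (l 16619832)) (c (l 30) (l 16623200))) (a (c (b (l 16622088) (c (l 30) (l 16614560))) (b (l 16612352) (l 16607360))) (c (l 30) (b (l 16615608) (l 16610536))))) (b (a (l 16604952) (l 16618568)) (a (c (l 16600192) (l 16590536)) (c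 (l 16603256) (l 16593440)))))))), by decide +kernel⟩

def k18_pm_012 : ∃ t, chk3 f_pm_012 t 61 63 1 = true :=
  ⟨(b (c (a (c (b (l 16676216) (a (l 16667600) (l 16666600))) (l 30)) (b (c (a (l 16740688) (l 16749288)) (c (l 16670888) (l 30))) (c (a (l 16665336) (l 16716240)) (l 30)))) (a (a (c (b (l 16652584) (c (l 30) (l 16636984))) (b (l 16631048) (l 16621224))) (c (l 30) (b (l 16634784) (l 16624816)))) (c (l 30) (b (a (l 16638688) (l 16642752)) (a (l 16628568) (c (l 30) (l 16626976))))))) (c (c (c (b (a (a (l 30) (b (l 16720424) (l 30))) (a (l 16705560) (l 16735736))) (a (l 30) (b (a (l 16716520) (l 16726016)) (a (l 30) (l 16719320))))) (b (a (l 30) (a (l 30) (b (l 16716608) (l 30)))) (l 30))) (l 30)) (a (a (c (a (c (l 30) (b (l 16625832) (b (l 16618144) (l 16613016)))) (l 30)) (b (c (l 16616488) (l 16606248)) (c (b (l 16608976) (l 16603952)) (l 16596488)))) (c (l 30) (b (c (l 16620008) (l 16609608)) (c (b (l 16612376) (l 16607280)) (l 16599696))))) (c (l 30) (b (a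 (c (b (l 16626264) (l 16621112)) (l 16613120)) (c (l 30) (l 16616792))) (a (c (b (l 16615944) (c (l 30) (l 16608208))) (b (l 16605576) (l 16600536))) (c (l 30) (b (l 16609136) (l 16604016))))))))), by decide +kernel⟩

def k19_pm_012 : ∃ t, chk3 f_pm_012 t 31 62 1 = true :=
  ⟨(a (b (c (a (c (l 16797976) (l 16759584)) (c (l 16811600) (l 16774120))) (a (c (l 16700200) (l 16685464)) (c (l 16694688) (l 16678152)))) (b (c (a (l 16721328) (l 16778248)) (a (l 16683536) (l 16679464))) (c (a (c (l 16772728) (l 16710904)) (c (l 16787848) (l 16747976))) (a (c (l 30) (l 16659632)) (c (l 16666160) (l 30)))))) (a (a (b (l 2) (b (l 2) (c (l 16779032) (l 16658776)))) (l 2)) (l 2))), by decide +kernel⟩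

def k20_pm_012 : ∃ t, chk3 f_pm_012 t 31 126 1 = true :=
  ⟨(a (c (a (c (b (l 16761736) (a (l 16745920) (l 16754376))) (b (l 16667424) (a (l 16660760) (c (l 16722368) (l 30))))) (c (b (l 16777496) (l 16745656)) (b (a (l 16732512) (l 16740672)) (a (c (l 16730984) (l 16709904)) (l 16728952))))) (a (a (a (b (l 16657336) (c (l 30) (l 16635528))) (l 30)) (l 30)) (c (b (c (l 16664032) (l 30)) (l 30)) (l 30)))) (c (a (c (b (l 16792360) (l 16782136)) (b (l 16752488) (a (l 16737216) (l 16745248)))) (c (l 16801616) (b (l 2) (l 16735912)))) (a (c (b (a (l 16708472) (l 16716664)) (a (l 16654144) (c (l 16714784) (l 30)))) (l 30)) (a (a (b (l 2) (c (l 16710872) (l 30))) (l 2)) (l 2))))), by decide +kernel⟩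

def k21_pm_012 : ∃ t, chk3 f_pm_012 t 31 127 1 = true :=
  ⟨(a (c (b (a (c (a (c (l 16744680) (l 16701552)) (l 16721456)) (a (l 30) (c (b (l 16712856) (l 30)) (l 30)))) (c (a (l 16751000) (l 16759328)) (a (c (l 16697624) (l 30)) (b (l 16719784) (l 16682032))))) (a (c (b (a (c (l 16735240) (l 16712664)) (l 16733064)) (a (c (l 16728752) (l 30)) (c (l 16737912) (l 16715336)))) (l 30)) (a (c (b (l 16741912) (l 16735664)) (b (c (l 16708896) (l 30)) (l 30))) (c (l 16726536) (c (a (l 16691464) (l 16716928)) (l 30)))))) (c (l 30) (c (l 30) (c (l 30) (a (a (a (b (l 16616944) (l 16606672)) (l 30)) (l 30)) (l 30)))))) (c (a (c (b (l 16750424) (a (l 16755952) (l 16764160))) (b (a (c (l 16735816) (l 16693768)) (l 16712688)) (b (a (c (l 16726672) (l 16705208)) (l 16703616)) (a (c (l 16720392) (l 30)) (c (l 16729096) (l 16707632)))))) (c (b (l 16786656) (l 16776040)) (b (a (l 16741800) (l 16749712)) (a (a (l 16706920) (l 16711112)) (c (l 16748656) (l 16727856)))))) (c (c (a (b (a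 (l 30) (b (l 16705576) (l 30))) (l 30)) (b (a (l 16689992) (l 16719256)) (a (b (l 16701592) (l 30)) (b (l 16710160) (l 16682936))))) (b (a (l 30) (a (l 30) (b (l 2) (l 30)))) (l 30))) (l 30)))), by decide +kernel⟩

theorem s22_pm_012 : ∃ t, chk3 f_pm_012 t 31 63 1 = true := ex3_b k20_pm_012 k21_pm_012

theorem s23_pm_012 : ∃ t, chk3 f_pm_012 t 31 31 1 = true := ex3_b k19_pm_012 s22_pm_012

theorem s24_pm_012 : ∃ t, chk3 f_pm_012 t 30 63 1 = true := ex3_a k17_pm_012 k18_pm_012

theorem s25_pm_012 : ∃ t, chk3 f_pm_012 t 30 31 1 = true := ex3_b k16_pm_012 s24_pm_012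

theorem s26_pm_012 : ∃ t, chk3 f_pm_012 t 15 31 1 = true := ex3_a s25_pm_012 s23_pm_012

theorem s27_pm_012 : ∃ t, chk3 f_pm_012 t 15 15 1 = true := ex3_b k15_pm_012 s26_pm_012

theorem s28_pm_012 : ∃ t, chk3 f_pm_012 t 15 7 1 = true := ex3_b k14_pm_012 s27_pm_012

theorem s29_pm_012 : ∃ t, chk3 f_pm_012 t 29 63 1 = true := ex3_a k12_pm_012 k13_pm_012

theorem s30_pm_012 : ∃ t, chk3 f_pm_012 t 29 31 1 = true := ex3_b k11_pm_012 s29_pm_012

theorem s31_pm_012 : ∃ t, chk3 f_pm_012 t 14 31 1 = true := ex3_a k10_pm_012 s30_pm_012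

theorem s32_pm_012 : ∃ t, chk3 f_pm_012 t 14 15 1 = true := ex3_b k9_pm_012 s31_pm_012

theorem s33_pm_012 : ∃ t, chk3 f_pm_012 t 14 7 1 = true := ex3_b k8_pm_012 s32_pm_012

theorem s34_pm_012 : ∃ t, chk3 f_pm_012 t 7 7 1 = true := ex3_a s33_pm_012 s28_pm_012

theorem s35_pm_012 : ∃ t, chk3 f_pm_012 t 7 3 1 = true := ex3_b k7_pm_012 s34_pm_012

theorem s36_pm_012 : ∃ t, chk3 f_pm_012 t 13 7 1 = true := ex3_b k5_pm_012 k6_pm_012

theorem s37_pm_012 : ∃ t, chk3 f_pm_012 t 12 7 1 = true := ex3_b k3_pm_012 k4_pm_012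

theorem s38_pm_012 : ∃ t, chk3 f_pm_012 t 6 7 1 = true := ex3_a s37_pm_012 s36_pm_012

theorem s39_pm_012 : ∃ t, chk3 f_pm_012 t 6 3 1 = true := ex3_b k2_pm_012 s38_pm_012

theorem s40_pm_012 : ∃ t, chk3 f_pm_012 t 3 3 1 = true := ex3_a s39_pm_012 s35_pm_012

theorem s41_pm_012 : ∃ t, chk3 f_pm_012 t 3 1 1 = true := ex3_b k1_pm_012 s40_pm_012

theorem s42_pm_012 : ∃ t, chk3 f_pm_012 t 1 1 1 = true := ex3_a k0_pm_012 s41_pm_012

theorem c_pm_012 : CertF 0 536870912 536870912 536870912 469762048 67108864 true true false .pnp 0 1 2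
    ndF0q0 ndF0q1 pcF2 cut_pm_012 Ext.none :=
  certF2 (fam := true) (s1 := true) (s2 := false) (a := 0) (b := 1) (c := 2) (cn := .pnp) (n1 := ndF0q0) (n2 := ndF0q1) (pc := pcF2) (cut := cut_pm_012) (xt := Ext.none) (P1 := 0) (W1 := 536870912) (P2 := 536870912) (W2 := 536870912) (P3 := 469762048) (W3 := 67108864)
    rfl (fun _ => rfl) s42_pm_012

noncomputable def cut_pm_022 : Cut := Cut.of [[⟨3, 0, 0, 1449551462⟩], [⟨4, 0, 0, 2845415833⟩], [⟨0, 0, 0, 67108864⟩, ⟨1, 1, 0, 67108864⟩, ⟨2, 1, 0, 67108864⟩], [⟨0, 0, 1, 33554432⟩, ⟨1, 1, 0, 33554432⟩, ⟨2, 1, 1, 33554432⟩]]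

noncomputable def f_pm_022 : ℕ → ℕ → ℕ → ℕ → Bool := onCell 1073741824 536870912 0 536870912 469762048 67108864
    (rowF 2 true true false .pp 0 2 2 (qsf 0 536870912 0 536870912 2) ndF0q0 ndF0q2 pcF2 cut_pm_022 Ext.none)

def k0_pm_022 : ∃ t, chk3 f_pm_022 t 4 1 1 = true :=
  ⟨(b (b (l 1) (a (l 1) (a (l 1) (b (l 1) (a (l 1) (b (l 1) (b (l 16573392) (a (l 1) (l 16579440))))))))) (a (b (l 1) (l 6)) (b (a (b (l 1) (b (a (l 1) (b (a (l 1) (a (l 1) (b (l 1) (l 16620872)))) (l 6))) (l 6))) (b (b (a (b (l 1) (a (l 1) (l 16595520))) (b (a (l 16587400) (l 16586136)) (a (l 16594248) (l 16592840)))) (a (a (b (l 1) (c (a (l 16618232) (l 16617432)) (l 16603664))) (b (c (l 16609768) (l 16594816)) (c (l 16616184) (l 16602240)))) (a (b (l 16601064) (l 16607784)) (l 16623832)))) (b (a (b (a (c (b (l 16622584) (l 16625536)) (l 16611088)) (c (l 16622136) (l 16609320))) (a (c (l 16629888) (l 16618160)) (l 16621816))) (b (a (l 16614024) (l 16612056)) (l 16618152))) (a (b (a (l 6) (l 16627464))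 (l 6)) (b (l 16622944) (l 16627416)))))) (l 6)))), by decide +kernel⟩

def k1_pm_022 : ∃ t, chk3 f_pm_022 t 5 1 1 = true :=
  ⟨(b (b (a (b (a (b (l 16502056) (l 16509264)) (b (l 16552064) (l 16498360))) (a (a (l 1) (l 16521264)) (a (l 16516680) (l 16510640)))) (b (a (l 16557624) (b (l 16512424) (l 16502832))) (a (l 16487728) (l 16483616)))) (a (a (b (a (b (l 16539144) (l 16549944)) (b (l 16536216) (l 16546960))) (b (a (a (l 16562272) (l 16560936)) (l 16558504)) (a (a (l 16574960) (l 16573488)) (l 16570912)))) (b (a (l 16537768) (l 16532704)) (b (l 16552328) (a (l 16566888) (l 16562384))))) (b (a (b (l 16516288) (l 16528288)) (l 16503136)) (a (b (l 16540768) (l 16553920)) (l 16594728))))) (b (a (b (a (b (a (a (l 16588064) (l 16586408)) (l 16583624)) (a (b (l 16596904) (l 16603224)) (l 16596112))) (b (a (l 16579488) (l 16575064)) (a (l 16591728) (l 16587264)))) (a (a (b (b (l 16608976) (l 16613144)) (l 16639528)) (a (b (l 16607560) (l 16613408)) (b (a (l 16605744) (l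 16604480)) (a (l 16610816) (l 16609096))))) (b (a (l 16601504) (l 16596888)) (l 16622536)))) (b (a (b (l 16567048) (l 16579488)) (b (l 16553168) (l 16566544))) (a (b (b (l 16587888) (l 16590512)) (l 16588008)) (b (l 16577576) (l 16573712))))) (a (b (a (a (b (l 16624248) (l 6)) (b (a (l 16617248) (l 16612608)) (a (l 6) (a (l 6) (l 16611040))))) (b (a (l 16605544) (l 16596152)) (b (l 16598416) (l 16595584)))) (a (l 6) (b (l 16658448) (l 6)))) (a (b (b (l 16581696) (l 16571576)) (b (l 16616696) (b (l 16612024) (a (l 6) (l 16596664))))) (b (b (l 16561352) (l 16544232)) (b (l 16619336) (b (l 16572936) (a (l 16587712) (l 16600592))))))))), by decide +kernel⟩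

def k2_pm_022 : ∃ t, chk3 f_pm_022 t 6 1 1 = true :=
  ⟨(b (b (a (b (a (l 16702240) (l 16687728)) (a (l 16527832) (l 16578320))) (b (a (l 16652104) (l 16698296)) (a (l 16655720) (b (l 16703736) (l 16679128))))) (a (a (b (l 16499432) (l 16509840)) (b (l 16538256) (l 16502960))) (b (a (l 16583776) (l 16635504)) (a (l 16535168) (l 16574880))))) (b (a (b (a (b (l 16534784) (l 16549976)) (b (l 16510392) (l 16528648))) (a (b (l 16563008) (l 16558360)) (b (l 16544040) (l 16561624)))) (b (a (l 16489656) (l 16510312)) (b (a (l 16519848) (l 16488688)) (a (l 16520192) (l 16495480))))) (b (a (a (b (l 16539448) (l 16516992)) (b (l 16515384) (l 16504360))) (a (l 16566328) (b (l 16462488) (l 16491808)))) (a (b (a (l 16604008) (l 16592328)) (b (a (l 16558168) (a (l 16549752) (l 16545536))) (b (a (l 16566464) (a (l 16558448) (l 16554576))) (a (a (l 16575128) (c (l 16575400) (l 16562648))) (a (c (a (l 16572288) (l 16570608)) (l 16556928)) (c (b (l 16566904) (a (c (l 16574992) (l 16566928))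 (l 16569928))) (b (l 16551152) (l 16574680)))))))) (b (a (l 16564056) (l 16583736)) (b (a (l 16562568) (a (l 16541616) (l 16544272))) (a (b (a (l 16552056) (l 16551240)) (c (b (l 16565448) (a (l 16590104) (l 16569856))) (a (l 16549480) (l 16548216)))) (a (b (l 16552480) (c (b (l 16568576) (l 16572848)) (l 16549000))) (b (l 16556032) (c (a (l 16574488) (l 16577848)) (l 16552072))))))))))), by decide +kernel⟩

def k3_pm_022 : ∃ t, chk3 f_pm_022 t 7 2 1 = true :=
  ⟨(b (a (b (a (l 16741096) (l 16802360)) (a (b (l 16755856) (l 16741288)) (b (l 16803088) (b (l 16809272) (l 16797288))))) (b (a (b (l 16810344) (l 16826048)) (b (l 16841928) (l 16860840))) (a (b (l 16844328) (a (l 16846528) (l 16913936))) (b (l 16882384) (a (b (l 16890464) (l 16901464)) (l 16958896)))))) (a (b (a (l 16692848) (l 16795480)) (a (l 16622216) (l 16673064))) (b (a (b (l 16836768) (l 16797320)) (b (a (l 16972320) (b (b (a (l 16925568) (l 16938744)) (l 16948816)) (l 16914344))) (l 16866664))) (a (l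 16729640) (b (l 16821224) (l 16768840)))))), by decide +kernel⟩

def k4_pm_022 : ∃ t, chk3 f_pm_022 t 7 6 1 = true :=
  ⟨(a (a (b (l 16564048) (b (l 16478496) (l 16505728))) (b (b (l 16603352) (l 16552648)) (b (l 16498728) (l 16510128)))) (b (a (l 16620136) (l 16676744)) (a (b (l 16524408) (b (l 16473200) (l 16462944))) (b (l 16568320) (a (l 16482040) (l 16535976)))))), by decide +kernel⟩

def k5_pm_022 : ∃ t, chk3 f_pm_022 t 14 7 1 = true :=
  ⟨(b (a (b (l 16463264) (l 16537088)) (b (l 16461336) (l 16540496))) (b (a (a (l 16524912) (l 16551816)) (a (l 16556536) (l 16602416))) (a (b (a (l 16549392) (l 16599296)) (b (a (l 16583160) (c (l 16584728) (l 16557944))) (a (c (b (l 16581712) (c (a (l 16591024) (l 16596336)) (l 16580016))) (b (l 16555800) (l 16559656))) (c (a (b (l 16589752) (c (b (l 16601040) (l 16603944)) (l 16587888))) (b (l 16596176) (b (l 16600440) (c (a (l 16609200) (l 16623480)) (l 16595584))))) (a (l 16584848) (c (l 16597504) (l 16561496))))))) (b (a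 (c (l 16577488) (l 16552208)) (c (l 16585104) (l 16558024))) (b (a (c (l 16594848) (l 16565696)) (c (l 16625096) (l 16572928))) (a (b (c (a (l 16601688) (l 16606120)) (l 16593624)) (c (b (a (l 16627128) (l 16631736)) (a (c (c (a (l 16620104) (l 16633016)) (a (l 16612080) (l 16614376))) (c (l 16605112) (l 16597024))) (a (c (c (a (l 16624424) (l 30)) (l 16616792)) (l 16604360)) (c (c (l 30) (l 16619336)) (l 16606704))))) (a (c (l 16583648) (l 16567648)) (c (l 16608488) (l 16570984))))) (a (c (b (l 16611064) (c (b (l 16624328) (c (l 30) (a (b (l 16621192) (l 16630712)) (l 30)))) (b (l 16607424) (c (a (l 16613456) (l 16616136)) (a (l 16604896) (l 16607440)))))) (b (l 16578312) (c (a (l 16590720) (l 16593024)) (l 16574776)))) (c (b (l 16616552) (c (l 30) (b (l 16612808) (c (a (b (l 16618152) (l 16630256)) (l 30)) (a (l 16610120) (l 16612936)))))) (b (l 16582704) (b (l 16586608) (c (a (l 16596848) (l 16599456)) (l 16580312)))))))))))), by decide +kernel⟩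

def k6_pm_022 : ∃ t, chk3 f_pm_022 t 15 14 1 = true :=
  ⟨(a (b (l 16502352) (a (l 16501776) (l 16507536))) (b (a (l 16473864) (l 16521880)) (b (l 16528096) (l 16551264)))), by decide +kernel⟩

def k7_pm_022 : ∃ t, chk3 f_pm_022 t 15 30 1 = true :=
  ⟨(a (b (l 16559448) (a (l 16557448) (l 16567168))) (a (b (l 16553968) (l 16582096)) (b (l 16597656) (l 16624392)))), by decide +kernel⟩

def k8_pm_022 : ∃ t, chk3 f_pm_022 t 30 31 1 = true :=
  ⟨(b (a (c (l 16595352) (l 16566256)) (c (l 16615184) (l 16576528))) (b (a (c (l 16636528) (l 16582184)) (c (a (l 30) (l 16650576)) (l 16614664))) (a (b (c (a (l 16622616) (l 30)) (a (l 16587632) (l 16593120))) (b (c (a (c (l 30) (l 16618760)) (l 30)) (a (l 16591696) (l 16618320))) (c (a (c (l 30) (a (c (l 30) (b (l 16615104) (l 16627176))) (l 30))) (l 30)) (a (c (a (l 16612680) (a (l 16604344) (l 16626792))) (l 16606184)) (a (c (c (b (l 16612056) (l 16624096)) (l 16603400)) (l 16589248)) (c (c (l 30) (l 16606504)) (l 16592120)))))))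 (a (c (l 30) (b (l 16599200) (c (a (c (l 30) (c (l 30) (l 16616328))) (l 30)) (b (l 16593968) (a (l 16616120) (a (l 16597512) (l 16599144))))))) (c (a (l 30) (a (l 30) (c (c (l 16709992) (l 30)) (l 30)))) (b (l 16605896) (c (l 30) (b (l 16600520) (a (c (b (l 16605952) (l 16607432)) (l 16596632)) (c (l 30) (l 16600040))))))))))), by decide +kernel⟩

def k9_pm_022 : ∃ t, chk3 f_pm_022 t 31 31 1 = true :=
  ⟨(b (a (b (l 16604432) (l 16619912)) (a (l 16663984) (l 16651816))) (b (a (c (a (l 16671256) (l 16690824)) (l 16628656)) (c (a (l 16709352) (l 16726872)) (a (l 30) (l 16641688)))) (a (a (c (c (b (l 16706384) (b (l 16712512) (a (c (l 16723368) (l 30)) (l 16700320)))) (l 30)) (c (l 30) (b (l 16603256) (a (c (l 30) (a (l 16601280) (l 16613576))) (l 30))))) (c (b (l 16681688) (a (c (l 16707480) (l 30)) (c (l 16737400) (c (l 16693656) (l 30))))) (l 30))) (a (c (b (l 16699864) (c (b (l 16748416) (l 16752288)) (a (c (l 16713248) (l 30)) (a (l 16688096) (l 16713496))))) (l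 30)) (a (c (c (l 16758968) (b (l 16712408) (l 16699064))) (l 30)) (c (c (l 16766992) (b (l 16721024) (l 16728536))) (b (l 16657704) (c (b (l 16684480) (c (l 16698824) (l 30))) (l 30))))))))), by decide +kernel⟩

theorem s10_pm_022 : ∃ t, chk3 f_pm_022 t 15 31 1 = true := ex3_a k8_pm_022 k9_pm_022

theorem s11_pm_022 : ∃ t, chk3 f_pm_022 t 15 15 1 = true := ex3_b k7_pm_022 s10_pm_022

theorem s12_pm_022 : ∃ t, chk3 f_pm_022 t 15 7 1 = true := ex3_b k6_pm_022 s11_pm_022

theorem s13_pm_022 : ∃ t, chk3 f_pm_022 t 7 7 1 = true := ex3_a k5_pm_022 s12_pm_022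

theorem s14_pm_022 : ∃ t, chk3 f_pm_022 t 7 3 1 = true := ex3_b k4_pm_022 s13_pm_022

theorem s15_pm_022 : ∃ t, chk3 f_pm_022 t 7 1 1 = true := ex3_b k3_pm_022 s14_pm_022

theorem s16_pm_022 : ∃ t, chk3 f_pm_022 t 3 1 1 = true := ex3_a k2_pm_022 s15_pm_022

theorem s17_pm_022 : ∃ t, chk3 f_pm_022 t 2 1 1 = true := ex3_a k0_pm_022 k1_pm_022

theorem s18_pm_022 : ∃ t, chk3 f_pm_022 t 1 1 1 = true := ex3_a s17_pm_022 s16_pm_022

theorem c_pm_022 : CertF 0 536870912 0 536870912 469762048 67108864 true true false .pp 0 2 2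
    ndF0q0 ndF0q2 pcF2 cut_pm_022 Ext.none :=
  certF2 (fam := true) (s1 := true) (s2 := false) (a := 0) (b := 2) (c := 2) (cn := .pp) (n1 := ndF0q0) (n2 := ndF0q2) (pc := pcF2) (cut := cut_pm_022) (xt := Ext.none) (P1 := 0) (W1 := 536870912) (P2 := 0) (W2 := 536870912) (P3 := 469762048) (W3 := 67108864)
    rfl (fun _ => rfl) s18_pm_022

noncomputable def cut_pm_023 : Cut := Cut.of [[⟨3, 0, 0, 1449551462⟩], [⟨4, 0, 0, 2845415833⟩], [⟨0, 0, 1, 33554432⟩, ⟨1, 1, 0, 33554432⟩, ⟨2, 1, 1, 33554432⟩]]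

noncomputable def f_pm_023 : ℕ → ℕ → ℕ → ℕ → Bool := onCell 1610612736 536870912 0 536870912 469762048 67108864
    (rowF 2 true true false .up 0 2 3 (qsf 0 536870912 0 536870912 3) ndF0q0 ndF0q2 pcF3 cut_pm_023 Ext.none)

def k0_pm_023 : ∃ t, chk3 f_pm_023 t 1 1 1 = true :=
  ⟨(a (a (b (b (a (b (a (b (l 16722824) (l 16727760)) (b (l 16767008) (l 16774760))) (a (a (b (l 16722688) (l 16733144)) (l 16755544)) (l 16793928))) (b (a (b (l 16795800) (l 16807464)) (l 16795208)) (a (l 16831904) (l 16850104)))) (a (b (a (b (a (b (l 16741448) (l 16739008)) (l 16773424)) (a (l 16728760) (l 16764512))) (b (l 16819096) (l 16821552))) (a (a (l 16711768) (l 16745456)) (l 16802872))) (b (a (l 16869608) (l 16894368)) (a (l 16865000) (l 16904080))))) (b (a (a (b (a (l 16697128) (l 16731704)) (b (l 16711904) (l 16691888))) (b (a (l 16768144) (l 16804904)) (b (l 16779152) (l 16755160)))) (b (a (l 16848920) (l 16889056)) (a (b (l 16841736) (l 16839168)) (l 157941077863)))) (a (b (a (b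 (a (l 16703552) (l 16727912)) (a (l 16709848) (l 16735312))) (b (a (l 16758880) (l 16795504)) (a (l 16766840) (l 16802928)))) (b (a (a (b (l 16715680) (l 16720016)) (b (l 16742528) (l 16747824))) (a (b (l 16774520) (l 2)) (l 2))) (a (a (a (a (b (l 16713016) (b (l 16674352) (c (b (l 16759104) (c (l 16781296) (l 16739856))) (b (l 16676896) (c (c (l 16708784) (l 22)) (l 22)))))) (b (l 16720816) (c (l 116064690343) (l 123580698439)))) (b (b (l 16730832) (l 16733336)) (b (l 114453939447) (l 2)))) (b (b (l 16751984) (l 2)) (l 2))) (l 2)))) (b (a (b (b (l 16837640) (l 16840208)) (l 2)) (l 2)) (l 2))))) (b (a (b (b (l 14) (a (l 16852688) (l 2))) (a (b (l 16896968) (l 16941352)) (l 2))) (l 2)) (b (l 2) (l 2)))) (l 2)), by decide +kernel⟩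

theorem c_pm_023 : CertF 0 536870912 0 536870912 469762048 67108864 true true false .up 0 2 3
    ndF0q0 ndF0q2 pcF3 cut_pm_023 Ext.none :=
  certF2 (fam := true) (s1 := true) (s2 := false) (a := 0) (b := 2) (c := 3) (cn := .up) (n1 := ndF0q0) (n2 := ndF0q2) (pc := pcF3) (cut := cut_pm_023) (xt := Ext.none) (P1 := 0) (W1 := 536870912) (P2 := 0) (W2 := 536870912) (P3 := 469762048) (W3 := 67108864)
    rfl (fun _ => rfl) k0_pm_023

noncomputable def cut_pm_101 : Cut := Cut.of [[⟨3, 0, 0, 1449551462⟩], [⟨4, 0, 0, 2845415833⟩], [⟨0, 1, 0, 67108864⟩, ⟨1, 0, 0, 67108864⟩, ⟨2, 1, 0, 67108864⟩]]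

noncomputable def f_pm_101 : ℕ → ℕ → ℕ → ℕ → Bool := onCell 536870912 536870912 536870912 536870912 469762048 67108864
    (rowF 1 true true false .npn 1 0 1 (qsf 536870912 536870912 0 536870912 1) ndF0q1 ndF0q0 pcF1 cut_pm_101 Ext.none)

def k0_pm_101 : ∃ t, chk3 f_pm_101 t 1 1 1 = true :=
  ⟨(l 6), by decide +kernel⟩

theorem c_pm_101 : CertF 536870912 536870912 0 536870912 469762048 67108864 true true false .npn 1 0 1
    ndF0q1 ndF0q0 pcF1 cut_pm_101 Ext.none :=
  certF1 (fam := true) (s1 := true) (s2 := false) (a := 1) (b := 0) (c := 1) (cn := .npn) (n1 := ndF0q1) (n2 := ndF0q0) (pc := pcF1) (cut := cut_pm_101) (xt := Ext.none) (P1 := 536870912) (W1 := 536870912) (P2 := 0) (W2 := 536870912) (P3 := 469762048) (W3 := 67108864)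
    rfl (fun _ => rfl) k0_pm_101

noncomputable def cut_pm_102 : Cut := Cut.of [[⟨3, 0, 0, 1449551462⟩], [⟨4, 0, 0, 2845415833⟩], [⟨0, 1, 0, 67108864⟩, ⟨1, 0, 0, 67108864⟩, ⟨2, 1, 0, 67108864⟩], [⟨0, 1, 0, 33554432⟩, ⟨1, 0, 1, 33554432⟩, ⟨2, 1, 1, 33554432⟩]]

noncomputable def f_pm_102 : ℕ → ℕ → ℕ → ℕ → Bool := onCell 536870912 536870912 1073741824 536870912 469762048 67108864
    (rowF 1 true true false .npp 1 0 2 (qsf 536870912 536870912 0 536870912 2) ndF0q1 ndF0q0 pcF2 cut_pm_102 Ext.none)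

def k0_pm_102 : ∃ t, chk3 f_pm_102 t 2 1 1 = true :=
  ⟨(b (l 6) (b (b (l 6) (l 2)) (l 2))), by decide +kernel⟩

def k1_pm_102 : ∃ t, chk3 f_pm_102 t 3 2 1 = true :=
  ⟨(b (l 6) (b (l 6) (a (l 6) (a (l 6) (b (l 6) (a (a (l 6) (b (l 6) (c (l 16630480) (l 16618520)))) (a (b (l 6) (a (l 16612824) (l 16604920))) (a (b (l 16604376) (l 16596936)) (b (l 16596680) (l 16588864)))))))))), by decide +kernel⟩

def k2_pm_102 : ∃ t, chk3 f_pm_102 t 6 6 1 = true :=
  ⟨(a (b (l 6) (a (l 2) (b (a (l 2) (l 45734797159)) (l 2)))) (b (a (l 6) (b (l 6) (b (l 6) (a (b (l 6) (l 16763416)) (c (l 16757776) (b (l 16725024) (l 16729536))))))) (a (b (a (l 16807168) (b (l 16787936) (l 16801288))) (a (l 2) (l 16824088))) (b (a (b (a (l 16776912) (l 16768064)) (a (l 16790392) (l 16781632))) (b (c (l 16771032) (l 16737056)) (l 16767064))) (a (b (l 16801088) (l 16817688)) (b (l 16781984) (l 16798664))))))), by decide +kernel⟩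

def k3_pm_102 : ∃ t, chk3 f_pm_102 t 14 12 1 = true :=
  ⟨(a (b (l 6) (a (b (c (l 16726352) (a (l 6) (l 16695872))) (c (l 16737360) (b (l 16706056) (l 16710240)))) (a (b (l 16698600) (a (l 16709432) (l 16704096))) (b (l 16688528) (l 16675008))))) (b (b (l 6) (a (c (l 16680096) (l 16660344)) (c (l 16661440) (l 16642944)))) (a (a (b (l 16678584) (l 16685168)) (b (l 16668656) (l 16674128))) (a (b (l 16658752) (l 16663248)) (b (l 16648888) (a (l 16655128) (l 16649728))))))), by decide +kernel⟩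

def k4_pm_102 : ∃ t, chk3 f_pm_102 t 15 12 1 = true :=
  ⟨(a (b (a (a (b (l 16640312) (l 16638696)) (b (l 16632136) (l 16650744))) (b (a (l 16623920) (l 16615680)) (c (a (l 16629120) (l 16619944)) (l 16608416)))) (a (b (c (a (l 16649288) (l 16639144)) (l 16624280)) (c (a (l 16653296) (c (l 16647816) (l 16636536))) (l 16625040))) (b (c (a (c (l 16633840) (l 16624328)) (c (l 16623640) (l 16614504))) (a (l 16610216) (l 16600896))) (b (c (a (l 16630440) (c (l 16624792) (l 16614696))) (l 16604664)) (c (a (l 16631968) (l 16620760)) (l 16604760)))))) (b (a (a (b (l 16607360) (c (l 16610768) (l 16595472))) (b (l 16619952) (c (l 16601608) (l 16586832)))) (b (a (l 16611520) (l 16603024)) (c (a (l 16592408) (l 16583184)) (a (l 16578120) (l 16569368))))) (a (b (c (a (a (l 16611640) (l 16606672)) (b (l 16599720) (c (l 16603288) (l 16594600)))) (a (l 16591656) (l 16582416))) (c (a (c (b (b (l 16613840) (l 16614128)) (l 16614768)) (l 16604328)) (b (c (b (l 16603224) (l 16603272))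 (l 16593968)) (c (l 16603544) (l 16593776)))) (a (l 16589520) (b (l 16580088) (l 16579168))))) (b (a (c (b (l 16590056) (c (l 16593080) (l 16584752))) (l 16573184)) (c (b (l 16580384) (c (l 16582920) (l 16574944))) (b (l 16565224) (l 16562824)))) (c (a (b (c (a (l 16595256) (l 16589960)) (l 16583744)) (c (l 16592440) (l 16583112))) (b (c (b (a (l 16584880) (l 16579672)) (l 16581896)) (b (l 16573904) (l 16573304))) (a (l 16579712) (l 16574352)))) (a (b (l 16570400) (l 16569088)) (b (c (l 16565040) (l 16556440)) (l 16559104)))))))), by decide +kernel⟩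

def k5_pm_102 : ∃ t, chk3 f_pm_102 t 14 13 1 = true :=
  ⟨(a (b (a (b (c (l 16749968) (l 16717280)) (l 16746056)) (b (c (l 16727240) (l 16696104)) (l 16723376))) (a (b (l 16760424) (l 16776608)) (b (l 16737056) (l 16752592)))) (b (a (b (c (l 16703040) (l 16673720)) (l 16699216)) (a (b (l 16670496) (l 16680224)) (b (l 16658480) (l 16667368)))) (a (b (l 16712048) (l 16726784)) (b (c (l 16702776) (l 16668816)) (c (l 16718272) (l 16680872)))))), by decide +kernel⟩

def k6_pm_102 : ∃ t, chk3 f_pm_102 t 15 13 1 = true :=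
  ⟨(a (b (a (b (c (a (l 16659728) (l 16647496)) (l 16628208)) (c (a (l 16669136) (l 16655568)) (l 16634176))) (a (c (b (l 16635376) (l 16642272)) (l 16634136)) (c (b (c (l 16629168) (l 16617584)) (c (l 16635560) (l 16622672))) (b (l 16600424) (l 16603576))))) (a (b (c (a (l 16681232) (l 16666704)) (l 16642440)) (c (a (l 16695920) (l 16680632)) (l 16653416))) (b (c (a (l 16652256) (c (l 16644840) (l 16630512))) (a (l 16622608) (l 16609304))) (c (a (l 16665024) (c (l 16657360) (l 16641464))) (a (l 16632168) (l 16617936)))))) (b (a (b (c (a (a (l 16614440) (l 16608528)) (c (b (l 16604392) (l 16605816)) (l 16594448))) (a (l 16589488) (l 16578672))) (b (c (a (l 16614704) (l 16602136)) (l 16585144)) (c (a (l 16617664) (l 16604512)) (l 16586568)))) (b (c (a (c (b (l 16592792) (l 16593680)) (l 16583080)) (c (b (l 16581328) (l 16581712)) (l 16571856))) (a (l 16567976) (l 16567888))) (c (a (a (l 16593688) (l 16587392)) (a (l 16581136) (l 16574928))) (a (l 16568272) (l 16556808)))))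 (a (b (b (c (a (l 16621312) (l 16607544)) (l 16588616)) (c (a (l 16625696) (l 16611288)) (l 16601800))) (c (a (a (l 16637728) (l 16629848)) (c (b (l 16622800) (l 16628432)) (l 16611104))) (a (l 16603840) (l 16589672)))) (b (c (a (c (b (l 16599984) (l 16603408)) (l 16589264)) (c (b (l 16586296) (l 16589088)) (l 16575904))) (a (l 16570808) (l 16558344))) (c (a (c (b (l 16607568) (l 16612488)) (l 16596264)) (c (b (l 16592576) (l 16596792)) (b (l 16579984) (l 16583560)))) (a (l 16575864) (l 16572768))))))), by decide +kernel⟩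

def k7_pm_102 : ∃ t, chk3 f_pm_102 t 6 7 1 = true :=
  ⟨(a (l 2) (b (a (l 2) (b (a (l 2) (l 16826992)) (l 2))) (l 2))), by decide +kernel⟩

def k8_pm_102 : ∃ t, chk3 f_pm_102 t 14 14 1 = true :=
  ⟨(a (b (a (l 16804360) (b (l 16770024) (l 16789440))) (a (l 2) (b (l 16810168) (l 2)))) (b (a (b (l 16743464) (l 16762160)) (b (a (l 16722392) (l 16707848)) (a (l 16740440) (l 16725424)))) (a (b (l 16781808) (l 16803552)) (b (a (l 16759160) (l 16743464)) (a (l 16778864) (l 16762192)))))), by decide +kernel⟩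

def k9_pm_102 : ∃ t, chk3 f_pm_102 t 30 14 1 = true :=
  ⟨(b (a (b (a (l 16692960) (c (l 16696704) (l 16659064))) (a (l 16710000) (c (l 16714928) (l 16673808)))) (b (c (a (l 16680496) (c (l 16672824) (l 16655264))) (a (l 16644264) (l 16629272))) (a (c (l 16713816) (l 16658416)) (c (b (l 16676472) (l 16685456)) (b (l 16639192) (l 16646464)))))) (a (b (a (l 16727328) (c (l 16733112) (l 16688752))) (a (l 16745128) (c (l 16735696) (l 16704072)))) (b (a (c (l 16715424) (l 16672592)) (c (b (l 16693688) (l 16701176)) (b (l 16653144) (l 16659248)))) (a (c (l 16734976) (l 16686936)) (c (b (l 16709248) (l 16720184)) (b (l 16665904) (l 16673136))))))), by decide +kernel⟩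

def k10_pm_102 : ∃ t, chk3 f_pm_102 t 31 28 1 = true :=
  ⟨(a (b (c (a (c (b (l 16651832) (l 16659776)) (l 16638904)) (c (b (l 16634992) (l 16642280)) (b (l 16619464) (l 16625952)))) (a (l 16635024) (c (l 16606760) (l 16591032)))) (c (a (b (c (l 16668248) (l 16650240)) (c (l 16677296) (l 16658440))) (a (b (l 16646152) (c (l 16663600) (l 16645400))) (b (l 16658352) (c (l 16654408) (l 16636648))))) (a (b (l 16623512) (l 16630456)) (b (l 16607688) (c (l 16623160) (l 16605408)))))) (b (b (c (a (c (l 16618224) (l 16603504)) (a (l 16598816) (l 16611840))) (a (l 16581520) (l 16567008))) (c (a (c (a (l 16629200) (l 16620488)) (l 16609416)) (c (a (l 16611880) (l 16603352)) (l 16592984))) (a (l 16586296) (l 16571056)))) (c (a (b (c (a (l 16636816) (l 16627784)) (a (l 16620320) (l 16611744))) (c (a (b (l 16643024) (l 16647328)) (b (l 16633792) (l 16637992))) (a (l 16627856) (l 16619032)))) (b (c (a (c (l 16622720) (l 16614912)) (a (l 16612064) (l 16607624))) (a (l 16603216) (l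 16594688))) (c (a (b (l 16624536) (c (l 16632776) (l 16624472))) (b (a (l 16617616) (l 16613000)) (c (a (l 16625640) (l 16620888)) (l 16615200)))) (a (b (l 16608352) (l 16612040)) (b (l 16599592) (l 16603112)))))) (a (a (b (l 16595728) (l 16602048)) (b (l 16587776) (l 16614840))) (b (c (l 16583632) (l 16568288)) (c (a (l 16593816) (l 16585424)) (l 16573504))))))), by decide +kernel⟩

def k11_pm_102 : ∃ t, chk3 f_pm_102 t 62 29 1 = true :=
  ⟨(b (a (c (b (c (l 16685440) (l 16665816)) (c (l 16692696) (l 16672408))) (b (l 16636712) (l 16663272))) (c (b (c (a (l 16671368) (l 16661912)) (a (l 16652424) (l 16643432))) (c (a (l 16678168) (l 16668408)) (a (l 16658576) (l 16649288)))) (b (c (l 16629336) (l 16610864)) (c (l 16645200) (l 16615608))))) (a (c (b (a (l 16694856) (l 16685160)) (a (l 16703080) (l 16693088))) (b (c (l 16658760) (l 16638144)) (c (l 16665808) (l 16644496)))) (a (c (b (l 16685880) (l 16683016)) (b (l 16635176) (l 16641464))) (c (b (c (l 16675456) (l 16655704))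 (c (l 30) (l 16662688))) (b (l 16647256) (c (l 16642392) (l 16622216))))))), by decide +kernel⟩

def k12_pm_102 : ∃ t, chk3 f_pm_102 t 63 58 1 = true :=
  ⟨(c (a (b (c (a (b (l 16650952) (l 16653896)) (b (c (l 16645848) (l 16637128)) (c (l 16648704) (l 16639840)))) (a (l 16634392) (c (l 16629696) (l 16620936)))) (b (c (a (l 16656984) (c (l 16651704) (l 16642688))) (a (l 16638504) (l 16629208))) (c (a (l 16660208) (c (l 30) (l 16645680))) (a (l 16641416) (l 16631968))))) (b (b (c (a (a (l 16634360) (l 16640088)) (c (a (l 16628984) (l 16624152)) (l 16618336))) (a (l 16615048) (l 16606000))) (c (a (c (a (l 16641368) (l 16636464)) (l 16630304)) (c (a (l 16631552) (c (l 16628712) (l 16624560))) (a (l 16623128) (l 16618336)))) (a (l 16617400) (c (l 16612368) (l 16604016))))) (b (c (a (c (a (l 16644240) (l 16639256)) (l 16632992)) (b (c (a (l 16633568) (l 16628592)) (l 16622616)) (c (l 30) (l 16623912)))) (a (l 16619872) (c (l 16614760) (l 16606264)))) (c (c (l 30) (a (a (l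 16638280) (l 16633344)) (a (l 16628392) (c (l 16625584) (l 16621296))))) (a (c (l 16626920) (l 16618040)) (a (l 16615344) (l 16621064))))))) (a (b (c (a (l 16616456) (l 16607832)) (l 16594512)) (c (a (l 16621416) (l 16612504)) (l 16598728))) (b (c (a (l 16599176) (l 16590512)) (l 16578064)) (c (a (c (l 16607960) (l 16599168)) (c (l 16598880) (l 16590320))) (a (l 16586000) (l 16577488)))))), by decide +kernel⟩

def k13_pm_102 : ∃ t, chk3 f_pm_102 t 63 59 1 = true :=
  ⟨(c (a (b (b (c (a (l 16663568) (c (l 30) (l 16648800))) (a (l 16644472) (l 16634864))) (c (l 30) (a (l 16647664) (l 16648384)))) (c (l 30) (a (b (l 16651000) (l 16654488)) (b (c (l 16645880) (l 16636288)) (c (l 30) (l 16639536)))))) (b (b (b (c (c (l 30) (a (l 16638016) (a (l 16630504) (l 16625488)))) (a (l 16624520) (c (l 16619256) (l 16610512)))) (c (l 30) (a (l 16631168) (c (l 16620616) (l 16611800))))) (c (l 30) (a (a (l 16630552) (l 16636128)) (c (a (l 16625216) (c (l 16622440) (l 16618016))) (a (l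 16616232) (l 16611376)))))) (c (l 30) (a (b (c (a (l 16638312) (l 16633256)) (l 16626456)) (c (l 30) (a (l 16632048) (l 16627040)))) (b (b (a (l 16630752) (a (l 16619144) (l 16627136))) (c (l 30) (l 16617304))) (c (l 30) (a (l 16622032) (c (l 16619296) (l 16614720))))))))) (a (b (c (a (l 16626896) (c (l 16622360) (l 16613032))) (a (l 16607824) (l 16599080))) (c (a (l 16632936) (b (l 16621936) (l 16624952))) (a (l 16613224) (l 16604200)))) (b (b (c (a (l 16607176) (l 16597992)) (l 16584816)) (c (a (l 16609760) (l 16600424)) (l 16587032))) (c (a (b (l 16612480) (c (l 16620072) (l 16610608))) (a (b (l 16605368) (l 16608112)) (b (l 16600624) (l 16603288)))) (a (l 16595152) (c (l 16590648) (l 16581512))))))), by decide +kernel⟩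

def k14_pm_102 : ∃ t, chk3 f_pm_102 t 14 15 1 = true :=
  ⟨(a (l 2) (b (a (l 2) (b (c (l 16785984) (l 16765272)) (l 2))) (l 2))), by decide +kernel⟩

def k15_pm_102 : ∃ t, chk3 f_pm_102 t 30 15 1 = true :=
  ⟨(b (a (b (a (l 16749088) (c (l 16765528) (l 16721784))) (a (l 2) (c (l 16813064) (l 16744520)))) (b (a (c (l 16725176) (l 16703648)) (c (b (l 16716560) (l 16711984)) (b (l 16680960) (l 16689408)))) (a (c (l 16732880) (l 16723728)) (c (a (l 16718848) (l 16708936)) (b (l 16698504) (l 16709160)))))) (a (l 2) (a (l 2) (a (l 2) (b (b (l 16693312) (l 2)) (l 2)))))), by decide +kernel⟩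

def k16_pm_102 : ∃ t, chk3 f_pm_102 t 62 30 1 = true :=
  ⟨(b (a (c (b (c (l 16692728) (l 16695632)) (c (l 16688984) (l 16689640))) (b (a (l 16667080) (l 16657736)) (a (l 16675112) (l 16665488)))) (a (c (b (l 16693984) (l 16691824)) (b (l 16648328) (l 16655800))) (c (b (c (l 30) (l 16670264)) (c (l 16679792) (l 30))) (b (c (l 16649304) (l 16628464)) (c (l 16656824) (l 16635304)))))) (a (c (b (l 16685096) (l 16700928)) (b (a (l 16683792) (l 16673880)) (a (l 16693128) (l 16682928)))) (a (c (b (l 16688640) (l 16684480)) (b (l 16663904) (l 16672656))) (c (b (c (l 16718744) (l 30)) (c (l 16756696) (l 16672888))) (b (c (l 16664984) (l 16642760)) (c (l 30) (l 16650856))))))), by decide +kernel⟩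

def k17_pm_102 : ∃ t, chk3 f_pm_102 t 63 60 1 = true :=
  ⟨(c (c (a (b (l 30) (a (c (l 16677936) (l 30)) (l 30))) (l 30)) (c (l 30) (b (b (b (c (l 30) (a (l 16644608) (a (l 16629560) (l 16619480)))) (l 30)) (l 30)) (l 30)))) (a (b (c (a (b (l 16637832) (l 16641288)) (b (l 16628104) (l 16631416))) (a (l 16619192) (l 16620368))) (c (a (b (l 16644896) (l 16648664)) (b (l 16645352) (c (l 30) (l 16633304)))) (a (l 16625744) (b (l 16614512) (l 16617792))))) (b (c (a (a (b (l 16620792) (l 16623976)) (b (l 16615896) (l 16619008))) (b (c (a (l 16615712) (l 16610744)) (l 16603872)) (c (a (l 16618824) (c (l 16616136) (l 16611416))) (l 16606792)))) (a (b (l 16599136) (l 16601968)) (b (l 16589840) (l 16592528)))) (c (a (b (c (a (l 16632320) (l 16627208)) (l 16619832)) (c (l 30) (l 16623200))) (b (c (a (l 16622088) (c (l 30) (l 16614560))) (a (l 16612352) (l 16607360))) (c (l 30) (a (l 16615608) (l 16610536))))) (a (b (l 16604952) (l 16618568)) (b (c (l 16600192) (l 16590536)) (c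 (l 16603256) (l 16593440)))))))), by decide +kernel⟩

def k18_pm_102 : ∃ t, chk3 f_pm_102 t 63 61 1 = true :=
  ⟨(a (c (b (c (a (l 16676216) (b (l 16667600) (l 16666600))) (l 30)) (a (c (b (l 16740688) (l 16749288)) (c (l 16670888) (l 30))) (c (b (l 16665336) (l 16716240)) (l 30)))) (b (b (c (a (l 16652584) (c (l 30) (l 16636984))) (a (l 16631048) (l 16621224))) (c (l 30) (a (l 16634784) (l 16624816)))) (c (l 30) (a (b (l 16638688) (l 16642752)) (b (l 16628568) (c (l 30) (l 16626976))))))) (c (c (c (a (b (b (l 30) (a (l 16720424) (l 30))) (b (l 16705560) (l 16735736))) (b (l 30) (a (b (l 16716520) (l 16726016)) (b (l 30) (l 16719320))))) (a (b (l 30) (b (l 30) (a (l 16716608) (l 30)))) (l 30))) (l 30)) (b (b (c (b (c (l 30) (a (l 16625832) (a (l 16618144) (l 16613016)))) (l 30)) (a (c (l 16616488) (l 16606248)) (c (a (l 16608976) (l 16603952)) (l 16596488)))) (c (l 30) (a (c (l 16620008) (l 16609608)) (c (a (l 16612376) (l 16607280)) (l 16599696))))) (c (l 30) (a (b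 (c (a (l 16626264) (l 16621112)) (l 16613120)) (c (l 30) (l 16616792))) (b (c (a (l 16615944) (c (l 30) (l 16608208))) (a (l 16605576) (l 16600536))) (c (l 30) (a (l 16609136) (l 16604016))))))))), by decide +kernel⟩

def k19_pm_102 : ∃ t, chk3 f_pm_102 t 62 31 1 = true :=
  ⟨(b (a (c (b (c (l 16797976) (l 16759584)) (c (l 16811600) (l 16774120))) (b (c (l 16700200) (l 16685464)) (c (l 16694688) (l 16678152)))) (a (c (b (l 16721328) (l 16778248)) (b (l 16683536) (l 16679464))) (c (b (c (l 16772728) (l 16710904)) (c (l 16787848) (l 16747976))) (b (c (l 30) (l 16659632)) (c (l 16666160) (l 30)))))) (a (l 2) (a (l 2) (a (l 2) (b (c (l 16780128) (l 16659880)) (l 2)))))), by decide +kernel⟩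

def k20_pm_102 : ∃ t, chk3 f_pm_102 t 126 31 1 = true :=
  ⟨(b (c (b (c (a (l 16761736) (b (l 16745920) (l 16754376))) (a (l 16667424) (b (l 16660760) (c (l 16722368) (l 30))))) (c (a (l 16777496) (l 16745656)) (a (b (l 16732512) (l 16740672)) (b (c (l 16730984) (l 16709904)) (l 16728952))))) (b (b (b (a (l 16657336) (c (l 30) (l 16635528))) (l 30)) (l 30)) (c (a (c (l 16664032) (l 30)) (l 30)) (l 30)))) (c (b (c (a (l 16792360) (l 16782136)) (a (l 16752488) (b (l 16737216) (l 16745248)))) (c (l 16801616) (a (l 2) (l 16735912)))) (b (c (a (b (l 16708472) (l 16716664)) (b (l 16654144) (c (l 16714784) (l 30)))) (l 30)) (a (l 2) (a (l 2) (b (c (l 16709920) (l 30)) (l 2))))))), by decide +kernel⟩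

def k21_pm_102 : ∃ t, chk3 f_pm_102 t 127 31 1 = true :=
  ⟨(b (c (a (b (c (b (c (l 16744680) (l 16701552)) (l 16721456)) (b (l 30) (c (a (l 16712856) (l 30)) (l 30)))) (c (b (l 16751000) (l 16759328)) (b (c (l 16697624) (l 30)) (a (l 16719784) (l 16682032))))) (b (c (a (b (c (l 16735240) (l 16712664)) (l 16733064)) (b (c (l 16728752) (l 30)) (c (l 16737912) (l 16715336)))) (l 30)) (b (c (a (l 16741912) (l 16735664)) (a (c (l 16708896) (l 30)) (l 30))) (c (l 16726536) (c (a (l 16717912) (l 16711440)) (l 30)))))) (c (l 30) (c (l 30) (c (l 30) (b (b (a (l 16617912) (a (l 16610184) (l 16605024))) (l 30)) (l 30)))))) (c (b (c (a (l 16750424) (b (l 16755952) (l 16764160))) (a (b (c (l 16735816) (l 16693768)) (l 16712688)) (a (b (c (l 16726672) (l 16705208)) (l 16703616)) (b (c (l 16720392) (l 30)) (c (l 16729096) (l 16707632)))))) (c (a (l 16786656) (l 16776040)) (a (b (l 16741800) (l 16749712)) (a (b (l 16733000) (l 16741176)) (b (l 16705984) (l 16735304)))))) (c (c (b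 (a (b (l 30) (a (l 16705576) (l 30))) (l 30)) (a (b (l 16689992) (l 16719256)) (b (a (l 16701592) (l 30)) (a (l 16710160) (l 16682936))))) (a (b (l 30) (b (l 30) (a (l 2) (l 30)))) (l 30))) (l 30)))), by decide +kernel⟩

theorem s22_pm_102 : ∃ t, chk3 f_pm_102 t 63 31 1 = true := ex3_a k20_pm_102 k21_pm_102

theorem s23_pm_102 : ∃ t, chk3 f_pm_102 t 31 31 1 = true := ex3_a k19_pm_102 s22_pm_102

theorem s24_pm_102 : ∃ t, chk3 f_pm_102 t 63 30 1 = true := ex3_b k17_pm_102 k18_pm_102

theorem s25_pm_102 : ∃ t, chk3 f_pm_102 t 31 30 1 = true := ex3_a k16_pm_102 s24_pm_102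

theorem s26_pm_102 : ∃ t, chk3 f_pm_102 t 31 15 1 = true := ex3_b s25_pm_102 s23_pm_102

theorem s27_pm_102 : ∃ t, chk3 f_pm_102 t 15 15 1 = true := ex3_a k15_pm_102 s26_pm_102

theorem s28_pm_102 : ∃ t, chk3 f_pm_102 t 7 15 1 = true := ex3_a k14_pm_102 s27_pm_102

theorem s29_pm_102 : ∃ t, chk3 f_pm_102 t 63 29 1 = true := ex3_b k12_pm_102 k13_pm_102

theorem s30_pm_102 : ∃ t, chk3 f_pm_102 t 31 29 1 = true := ex3_a k11_pm_102 s29_pm_102

theorem s31_pm_102 : ∃ t, chk3 f_pm_102 t 31 14 1 = true := ex3_b k10_pm_102 s30_pm_102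

theorem s32_pm_102 : ∃ t, chk3 f_pm_102 t 15 14 1 = true := ex3_a k9_pm_102 s31_pm_102

theorem s33_pm_102 : ∃ t, chk3 f_pm_102 t 7 14 1 = true := ex3_a k8_pm_102 s32_pm_102

theorem s34_pm_102 : ∃ t, chk3 f_pm_102 t 7 7 1 = true := ex3_b s33_pm_102 s28_pm_102

theorem s35_pm_102 : ∃ t, chk3 f_pm_102 t 3 7 1 = true := ex3_a k7_pm_102 s34_pm_102

theorem s36_pm_102 : ∃ t, chk3 f_pm_102 t 7 13 1 = true := ex3_a k5_pm_102 k6_pm_102

theorem s37_pm_102 : ∃ t, chk3 f_pm_102 t 7 12 1 = true := ex3_a k3_pm_102 k4_pm_102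

theorem s38_pm_102 : ∃ t, chk3 f_pm_102 t 7 6 1 = true := ex3_b s37_pm_102 s36_pm_102

theorem s39_pm_102 : ∃ t, chk3 f_pm_102 t 3 6 1 = true := ex3_a k2_pm_102 s38_pm_102

theorem s40_pm_102 : ∃ t, chk3 f_pm_102 t 3 3 1 = true := ex3_b s39_pm_102 s35_pm_102

theorem s41_pm_102 : ∃ t, chk3 f_pm_102 t 3 1 1 = true := ex3_b k1_pm_102 s40_pm_102

theorem s42_pm_102 : ∃ t, chk3 f_pm_102 t 1 1 1 = true := ex3_a k0_pm_102 s41_pm_102

theorem c_pm_102 : CertF 536870912 536870912 0 536870912 469762048 67108864 true true false .npp 1 0 2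
    ndF0q1 ndF0q0 pcF2 cut_pm_102 Ext.none :=
  certF1 (fam := true) (s1 := true) (s2 := false) (a := 1) (b := 0) (c := 2) (cn := .npp) (n1 := ndF0q1) (n2 := ndF0q0) (pc := pcF2) (cut := cut_pm_102) (xt := Ext.none) (P1 := 536870912) (W1 := 536870912) (P2 := 0) (W2 := 536870912) (P3 := 469762048) (W3 := 67108864)
    rfl (fun _ => rfl) s42_pm_102

noncomputable def cut_pm_112 : Cut := Cut.of [[⟨3, 0, 0, 1449551462⟩], [⟨4, 0, 0, 2845415833⟩], [⟨0, 0, 1, 33554432⟩, ⟨1, 1, 0, 33554432⟩, ⟨2, 1, 1, 33554432⟩], [⟨0, 1, 0, 33554432⟩, ⟨1, 0, 1, 33554432⟩, ⟨2, 1, 1, 33554432⟩]]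

noncomputable def f_pm_112 : ℕ → ℕ → ℕ → ℕ → Bool := onCell 536870912 536870912 536870912 536870912 469762048 67108864
    (rowF 0 true true false .dn 1 1 2 (qsf 536870912 536870912 536870912 536870912 2) ndF0q1 ndF0q1 pcF2 cut_pm_112 Ext.none)

def k0_pm_112 : ∃ t, chk3 f_pm_112 t 2 2 1 = true :=
  ⟨(a (b (l 6) (b (l 6) (a (l 6) (a (b (l 6) (a (l 6) (b (l 6) (l 16850696)))) (b (a (l 6) (l 16854000)) (a (l 16861360) (l 16878536))))))) (b (a (l 6) (b (l 6) (b (a (l 6) (b (l 6) (a (l 6) (l 16850696)))) (a (b (l 6) (l 16854000)) (b (l 16861360) (l 16878536)))))) (a (b (a (b (l 6) (l 16850792)) (b (l 16850792) (l 16880432))) (a (b (l 16877600) (l 16908552)) (l 16936648))) (b (b (a (l 16877600) (l 16908552)) (l 16936648)) (a (l 16990272) (l 17053856)))))), by decide +kernel⟩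

def k1_pm_112 : ∃ t, chk3 f_pm_112 t 2 6 1 = true :=
  ⟨(a (b (a (b (a (l 6) (a (l 6) (b (l 6) (l 16836664)))) (a (b (a (l 6) (l 16815112)) (l 16832752)) (b (a (l 16828096) (l 16843000)) (a (l 16832800) (l 16849272))))) (a (b (a (b (c (l 16861968) (l 16826704)) (l 16852168)) (b (l 16860176) (l 16869864))) (a (b (l 16860168) (l 16868208)) (l 16842800))) (b (a (l 16884048) (l 16905400)) (a (l 16907928) (l 16931560))))) (a (b (a (b (l 16814120) (l 16816176)) (b (l 16846272) (l 16851512))) (a (b (l 16817672) (l 16817216)) (b (l 16856576) (l 16860112)))) (a (b (b (l 16887720) (l 16894080)) (b (l 16895472) (l 16896416))) (b (l 16925296) (l 16926440))))) (a (b (a (b (l 16942752) (l 16955000)) (l 16968280)) (a (b (l 16953904) (l 16952560)) (l 16979024))) (b (a (l 17023080) (l 17056096)) (b (l 16999464) (l 2))))), by decide +kernel⟩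

def k2_pm_112 : ∃ t, chk3 f_pm_112 t 4 14 1 = true :=
  ⟨(a (b (a (b (l 16814472) (a (l 16799552) (l 16821160))) (b (l 16857496) (a (l 16842736) (l 16862640)))) (a (b (a (l 16792008) (l 16815448)) (a (l 16741648) (l 16766536))) (b (a (l 16837304) (l 16857352)) (a (l 16788824) (l 16788240))))) (a (b (b (l 16894320) (l 16848056)) (b (a (l 16875952) (l 16893048)) (a (l 16870000) (l 16887272)))) (b (a (l 16916200) (l 16930328)) (a (l 41439979927) (l 2))))), by decide +kernel⟩

def k3_pm_112 : ∃ t, chk3 f_pm_112 t 8 30 1 = true :=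
  ⟨(a (b (a (b (l 16755960) (c (l 16806760) (l 16737416))) (b (l 16760432) (c (l 16831032) (l 16743904)))) (a (b (a (l 16717832) (l 16731792)) (c (a (l 16791064) (l 16804440)) (a (l 16717088) (l 16711240)))) (b (c (l 16827208) (l 16717360)) (c (a (l 16817032) (l 16828872)) (b (l 16712944) (l 16688960)))))) (b (a (b (l 16741232) (l 16737200)) (c (l 16873792) (b (l 16816624) (l 16812136)))) (a (c (b (l 16849184) (l 16845504)) (b (l 16721520) (a (l 16772808) (l 16785048)))) (c (l 67746536983) (b (l 16807456) (l 2)))))), by decide +kernel⟩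

def k4_pm_112 : ∃ t, chk3 f_pm_112 t 8 31 1 = true :=
  ⟨(a (b (a (b (c (a (c (l 16804928) (l 16767000)) (l 16799632)) (a (c (l 16687104) (l 16691088)) (c (l 16744080) (l 16686056)))) (b (c (a (l 16781880) (l 16795792)) (a (l 16683568) (l 16678368))) (c (a (l 16758088) (l 16793144)) (a (a (l 16675624) (l 16662864)) (c (l 16735832) (l 16655672)))))) (c (b (a (l 16812504) (l 16824600)) (a (l 16765736) (l 16820080))) (b (a (l 16693000) (l 16691096)) (a (b (l 16672304) (c (l 16750472) (l 16671240))) (a (l 86536737511) (l 2)))))) (a (c (b (a (c (l 16794616) (b (l 16756328) (a (l 16749192) (l 16756880)))) (c (l 16808496) (b (l 16771080) (l 16768032)))) (a (a (c (l 16785192) (b (l 16745800) (l 16742312))) (b (l 16752808) (l 102642907847))) (c (l 16803184) (b (l 16764904) (l 2))))) (b (c (a (b (a (l 16712608) (l 16720680)) (a (c (l 16718912) (l 22)) (l 16696040))) (b (a (l 16728536) (l 16736168)) (a (l 16724968) (l 16732712)))) (a (l 22) (a (l 22) (a (l 22) (l 15132821175)))))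 (a (c (b (a (c (l 16715152) (l 22)) (a (l 16690208) (l 16715280))) (a (c (b (l 16712264) (l 16710320)) (l 22)) (b (l 102105954359) (l 2)))) (l 22)) (a (b (c (l 99958493303) (l 22)) (l 2)) (l 2))))) (a (a (b (b (c (l 16800552) (l 89757877831)) (l 2)) (l 2)) (l 2)) (l 2)))) (b (a (a (b (b (l 73651894343) (l 2)) (l 2)) (l 2)) (l 2)) (l 2))), by decide +kernel⟩

def k5_pm_112 : ∃ t, chk3 f_pm_112 t 9 15 1 = true :=
  ⟨(b (a (b (a (l 52177222423) (l 2)) (l 2)) (l 2)) (l 2)), by decide +kernel⟩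

def k6_pm_112 : ∃ t, chk3 f_pm_112 t 5 7 1 = true :=
  ⟨(b (a (b (a (l 67209992023) (l 2)) (l 2)) (l 2)) (l 2)), by decide +kernel⟩

def k7_pm_112 : ∃ t, chk3 f_pm_112 t 6 2 1 = true :=
  ⟨(b (a (b (a (b (l 6) (b (l 6) (a (l 6) (l 16836664)))) (b (a (b (l 6) (l 16815112)) (l 16832752)) (a (b (l 16828096) (l 16843000)) (b (l 16832800) (l 16849272))))) (b (a (b (a (c (l 16861968) (l 16826704)) (l 16852168)) (a (l 16860176) (l 16869864))) (b (a (l 16860168) (l 16868208)) (l 16842800))) (a (b (l 16884048) (l 16905400)) (b (l 16907928) (l 16931560))))) (b (a (b (a (l 16814120) (l 16816176)) (a (l 16846272) (l 16851512))) (b (a (l 16817672) (l 16817216)) (a (l 16856576) (l 16860112)))) (b (a (a (l 16887720) (l 16894080)) (a (l 16895472) (l 16896416))) (a (l 16925296) (l 16926440))))) (b (a (b (a (l 16942752) (l 16955000)) (l 16968280)) (b (a (l 16953904) (l 16952560)) (l 16979024))) (a (b (l 17023080) (l 17056096)) (a (l 16999464) (l 2))))), by decide +kernel⟩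

def k8_pm_112 : ∃ t, chk3 f_pm_112 t 14 4 1 = true :=
  ⟨(b (a (b (a (l 16814472) (b (l 16799560) (l 16820832))) (a (l 16857496) (b (l 16842736) (l 16862640)))) (b (a (b (l 16791656) (l 16815448)) (b (l 16741648) (l 16766536))) (a (b (l 16837304) (l 16857352)) (b (l 16788824) (l 16788240))))) (b (a (a (l 16894320) (l 16848056)) (a (b (l 16875952) (l 16893048)) (b (l 16870000) (l 16887272)))) (a (b (l 16916200) (l 16930328)) (b (l 41439979927) (l 2))))), by decide +kernel⟩

def k9_pm_112 : ∃ t, chk3 f_pm_112 t 30 8 1 = true :=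
  ⟨(b (a (b (a (l 16755960) (c (l 16806760) (l 16737416))) (a (l 16760432) (c (l 16831032) (l 16743904)))) (b (a (b (l 16717832) (l 16731792)) (c (b (l 16791064) (l 16804440)) (b (l 16717088) (l 16711240)))) (a (c (l 16827208) (l 16717360)) (c (b (l 16817032) (l 16828872)) (a (l 16712944) (l 16688960)))))) (a (b (a (l 16741232) (l 16737200)) (c (l 16873792) (a (l 16816624) (l 16812136)))) (b (c (a (l 16849184) (l 16845504)) (a (l 16721520) (b (l 16772808) (l 16785048)))) (c (l 67746536983) (a (l 16807456) (l 2)))))), by decide +kernel⟩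

def k10_pm_112 : ∃ t, chk3 f_pm_112 t 31 8 1 = true :=
  ⟨(b (a (b (a (c (b (c (l 16804928) (l 16767000)) (l 16799632)) (b (c (l 16687104) (l 16691088)) (c (l 16744080) (l 16686056)))) (a (c (b (l 16781880) (l 16795792)) (b (l 16683568) (l 16678368))) (c (b (l 16758088) (l 16793144)) (a (b (l 16659752) (l 16654704)) (b (l 16657832) (l 16652888)))))) (c (a (b (l 16812504) (l 16824600)) (b (l 16765736) (l 16820080))) (a (b (l 16693000) (l 16691096)) (a (b (l 16672304) (l 16707360)) (b (c (l 16750472) (l 16671240)) (l 2)))))) (b (c (a (b (c (l 16794616) (a (l 16756328) (b (l 16749192) (l 16756880)))) (c (l 16808496) (a (l 16771080) (l 16768032)))) (b (b (c (l 16785192) (a (l 16745800) (l 16742312))) (a (l 16752808) (l 102642907527))) (c (l 16803184) (a (l 16764904) (l 2))))) (a (c (b (a (b (l 16712608) (l 16720680)) (b (c (l 16718912) (l 30)) (l 16696040))) (a (b (l 16728536) (l 16736168)) (b (l 16724968) (l 16732712)))) (b (l 30) (b (l 30) (a (l 16697728) (l 16651856)))))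 (b (c (a (b (c (l 16715152) (l 30)) (a (l 16714184) (l 16691312))) (b (c (a (l 16712264) (l 16710320)) (l 30)) (a (l 102105954359) (l 2)))) (l 30)) (a (b (c (l 99958493303) (l 30)) (l 2)) (l 2))))) (a (a (b (b (c (l 16800552) (l 89757877831)) (l 2)) (l 2)) (l 2)) (l 2)))) (a (a (a (b (b (l 73651894343) (l 2)) (l 2)) (l 2)) (l 2)) (l 2))), by decide +kernel⟩

def k11_pm_112 : ∃ t, chk3 f_pm_112 t 15 9 1 = true :=
  ⟨(a (b (a (b (l 52177222423) (l 2)) (l 2)) (l 2)) (l 2)), by decide +kernel⟩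

def k12_pm_112 : ∃ t, chk3 f_pm_112 t 7 5 1 = true :=
  ⟨(a (b (a (b (l 67209992023) (l 2)) (l 2)) (l 2)) (l 2)), by decide +kernel⟩

def k13_pm_112 : ∃ t, chk3 f_pm_112 t 3 3 1 = true :=
  ⟨(a (b (b (a (l 17094632) (l 2)) (l 2)) (l 2)) (l 2)), by decide +kernel⟩

theorem s14_pm_112 : ∃ t, chk3 f_pm_112 t 15 8 1 = true := ex3_a k9_pm_112 k10_pm_112

theorem s15_pm_112 : ∃ t, chk3 f_pm_112 t 15 4 1 = true := ex3_b s14_pm_112 k11_pm_112

theorem s16_pm_112 : ∃ t, chk3 f_pm_112 t 7 4 1 = true := ex3_a k8_pm_112 s15_pm_112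

theorem s17_pm_112 : ∃ t, chk3 f_pm_112 t 7 2 1 = true := ex3_b s16_pm_112 k12_pm_112

theorem s18_pm_112 : ∃ t, chk3 f_pm_112 t 3 2 1 = true := ex3_a k7_pm_112 s17_pm_112

theorem s19_pm_112 : ∃ t, chk3 f_pm_112 t 3 1 1 = true := ex3_b s18_pm_112 k13_pm_112

theorem s20_pm_112 : ∃ t, chk3 f_pm_112 t 8 15 1 = true := ex3_b k3_pm_112 k4_pm_112

theorem s21_pm_112 : ∃ t, chk3 f_pm_112 t 4 15 1 = true := ex3_a s20_pm_112 k5_pm_112

theorem s22_pm_112 : ∃ t, chk3 f_pm_112 t 4 7 1 = true := ex3_b k2_pm_112 s21_pm_112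

theorem s23_pm_112 : ∃ t, chk3 f_pm_112 t 2 7 1 = true := ex3_a s22_pm_112 k6_pm_112

theorem s24_pm_112 : ∃ t, chk3 f_pm_112 t 2 3 1 = true := ex3_b k1_pm_112 s23_pm_112

theorem s25_pm_112 : ∃ t, chk3 f_pm_112 t 2 1 1 = true := ex3_b k0_pm_112 s24_pm_112

theorem s26_pm_112 : ∃ t, chk3 f_pm_112 t 1 1 1 = true := ex3_a s25_pm_112 s19_pm_112

theorem c_pm_112 : CertF 536870912 536870912 536870912 536870912 469762048 67108864 true true false .dn 1 1 2
    ndF0q1 ndF0q1 pcF2 cut_pm_112 Ext.none :=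
  certF0 (fam := true) (s1 := true) (s2 := false) (a := 1) (b := 1) (c := 2) (cn := .dn) (n1 := ndF0q1) (n2 := ndF0q1) (pc := pcF2) (cut := cut_pm_112) (xt := Ext.none) (P1 := 536870912) (W1 := 536870912) (P2 := 536870912) (W2 := 536870912) (P3 := 469762048) (W3 := 67108864)
    rfl s26_pm_112

noncomputable def cut_pm_113 : Cut := Cut.of [[⟨3, 0, 0, 1449551462⟩], [⟨4, 0, 0, 2845415833⟩], [⟨0, 1, 0, 67108864⟩, ⟨1, 1, 0, 67108864⟩, ⟨2, 2, 0, 16777216⟩], [⟨0, 0, 1, 33554432⟩, ⟨1, 1, 0, 33554432⟩, ⟨2, 1, 1, 33554432⟩], [⟨0, 1, 0, 33554432⟩, ⟨1, 0, 1, 33554432⟩, ⟨2, 1, 1, 33554432⟩]]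

noncomputable def f_pm_113 : ℕ → ℕ → ℕ → ℕ → Bool := onCell 536870912 536870912 536870912 536870912 469762048 67108864
    (rowF 0 true true false .nn 1 1 3 (qsf 536870912 536870912 536870912 536870912 3) ndF0q1 ndF0q1 pcF3 cut_pm_113 Ext.none)

def k0_pm_113 : ∃ t, chk3 f_pm_113 t 2 2 1 = true :=
  ⟨(a (l 1) (b (l 1) (a (l 1) (b (l 1) (a (l 1) (l 16967328)))))), by decide +kernel⟩

def k1_pm_113 : ∃ t, chk3 f_pm_113 t 2 6 1 = true :=
  ⟨(a (b (l 1) (a (l 1) (b (l 1) (a (l 1) (a (l 1) (b (l 1) (l 16803928))))))) (a (b (a (l 1) (l 61773744359)) (b (a (l 95596665559) (l 16892352)) (a (b (l 16831928) (a (l 16815480) (l 16846096))) (b (l 16889368) (l 16888544))))) (b (a (l 16881704) (l 17023840)) (a (b (l 16945248) (l 16938816)) (b (l 16992000) (l 16980712)))))), by decide +kernel⟩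

def k2_pm_113 : ∃ t, chk3 f_pm_113 t 4 14 1 = true :=
  ⟨(a (b (l 1) (a (l 1) (a (l 1) (a (l 1) (b (l 1) (b (l 1) (l 16717632))))))) (b (a (b (l 1) (a (l 1) (l 96133479095))) (b (a (b (l 1) (l 113313406727)) (b (a (l 97207309239) (l 16790616)) (a (l 16779648) (l 16794288)))) (a (b (l 16768224) (l 16778768)) (b (l 16797040) (l 16807040))))) (a (a (b (b (l 1) (l 16676664)) (b (l 29561274231) (a (l 16754344) (l 16769536)))) (b (b (l 16759616) (l 16770456)) (b (l 16781048) (l 16749520)))) (a (b (l 16794456) (a (l 16807368) (l 16821456))) (b (l 16821816) (l 16841824)))))), by decide +kernel⟩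

def k3_pm_113 : ∃ t, chk3 f_pm_113 t 8 30 1 = true :=
  ⟨(a (b (l 1) (a (l 1) (a (l 1) (a (l 1) (b (l 1) (b (l 1) (c (l 16767176) (l 16688864)))))))) (b (a (a (l 1) (b (l 1) (c (l 16767992) (l 16681168)))) (b (c (a (l 16771800) (l 16786640)) (a (l 16696712) (l 16713600))) (c (a (l 16782944) (l 16797328)) (a (l 16677184) (l 16725056))))) (a (b (c (a (c (l 16783728) (l 16744792)) (l 16758288)) (a (b (l 1) (l 16689640)) (b (l 16700672) (l 16706568)))) (c (a (c (l 16794912) (l 16756344)) (c (l 16808912) (l 16771344))) (a (b (l 16674704) (c (l 16720744) (l 16682440))) (b (l 16691360) (c (l 16736616) (l 16699328)))))) (b (c (a (l 16793720) (l 16807624)) (a (b (l 16717288) (l 16722920)) (b (l 16733328) (l 16738696)))) (c (a (l 16804064) (l 16817552)) (a (b (l 16728416) (c (l 16751928) (l 16715640))) (b (l 16743928) (l 16749064)))))))), by decide +kernel⟩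

def k4_pm_113 : ∃ t, chk3 f_pm_113 t 16 62 1 = true :=
  ⟨(a (a (l 1) (a (l 1) (b (l 1) (b (l 1) (b (l 1) (c (l 16760744) (l 16658640))))))) (b (b (a (l 1) (c (l 16769096) (c (l 16710192) (l 16671024)))) (c (a (l 16717528) (l 16753736)) (a (a (l 1) (l 16662656)) (c (l 16716040) (a (l 16672640) (l 16681320)))))) (c (a (c (l 16767096) (b (l 16745224) (l 16750936))) (c (l 16802368) (b (l 16760688) (l 16766096)))) (a (b (c (a (l 16701000) (l 16709456)) (a (l 16660824) (l 16669800))) (c (a (l 16706920) (l 16715224)) (a (l 16656400) (b (l 16674232) (l 16677144))))) (b (c (a (l 16717696) (l 16725712)) (a (l 16678552) (l 16687072))) (b (a (l 16681408) (l 16689568)) (c (l 16728632) (a (l 16685696) (l 16694024))))))))), by decide +kernel⟩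

def k5_pm_113 : ∃ t, chk3 f_pm_113 t 32 63 1 = true :=
  ⟨(b (b (a (l 1) (a (c (l 16736224) (c (l 16674744) (l 30))) (c (l 16744048) (c (l 16683344) (b (l 16662384) (l 16665368)))))) (c (a (c (l 16771832) (a (l 1) (l 16734336))) (c (l 16787096) (a (l 16742488) (l 16750416)))) (b (a (l 1) (c (a (l 16700160) (l 16708648)) (a (l 30) (l 16647336)))) (a (c (a (l 1) (l 16694448)) (l 30)) (c (a (l 16703080) (l 16711480)) (a (l 30) (c (l 16681272) (l 30)))))))) (c (a (c (b (l 16777568) (l 16783152)) (b (a (l 16731904) (l 16740128)) (a (l 16716728) (l 16745752)))) (a (c (l 16791584) (b (l 16748120) (l 16753584))) (b (l 16755032) (l 16760280)))) (b (a (c (a (c (l 12381412487) (l 30)) (c (l 16709192) (b (l 16687096) (l 16690024)))) (l 30)) (c (a (b (l 16705960) (l 16687824)) (a (l 16692648) (l 16717696))) (a (l 30) (c (b (l 16684104) (l 16686896)) (l 30))))) (a (c (b (a (c (l 16705000) (l 30)) (c (l 16713488) (l 16671936))) (a (c (l 16707896) (l 30)) (a (l 16682936) (l 16708120))))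 (l 30)) (a (c (c (l 16723120) (b (l 16701416) (l 16704176))) (l 30)) (a (c (l 16698096) (l 30)) (c (l 16723064) (c (b (l 16691728) (l 16694400)) (l 30))))))))), by decide +kernel⟩

def k6_pm_113 : ∃ t, chk3 f_pm_113 t 33 63 1 = true :=
  ⟨(c (b (a (c (b (l 16796224) (l 16801496)) (b (l 16756488) (l 16740920))) (c (l 16812624) (b (l 16771352) (l 16776456)))) (a (c (l 16809144) (b (l 16767136) (l 16772208))) (c (l 16822400) (b (l 16781392) (l 16786224))))) (b (a (b (c (a (l 16712688) (l 16720840)) (a (b (l 16671312) (l 16674216)) (a (l 16658320) (l 16662592)))) (c (a (c (l 16728248) (l 16708336)) (l 16726280)) (b (a (l 16656096) (l 16664632)) (a (c (l 16689824) (l 30)) (c (l 16698152) (l 16678520)))))) (b (b (c (l 16731320) (a (l 16688480) (l 16696736))) (c (l 16713000) (a (l 16691224) (l 16699392)))) (b (c (l 16715600) (a (l 16672944) (l 16702008))) (c (l 16718168) (a (l 16675592) (l 16704576)))))) (a (b (c (a (c (l 16733648) (l 16713792)) (l 16710576)) (a (c (b (l 16692576)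 (l 16695280)) (l 30)) (a (b (l 16688944) (l 16670624)) (b (l 16693072) (l 16695688))))) (c (a (c (l 16738872) (l 16719064)) (l 16715664)) (b (a (c (l 16697936) (l 30)) (a (l 16673232) (l 16677272))) (a (c (l 16700544) (l 30)) (c (l 16708536) (a (l 30) (l 16691016))))))) (b (c (a (l 16739168) (l 16746568)) (a (c (l 16710128) (b (l 16689480) (l 16692040))) (b (l 16686120) (l 16688592)))) (c (a (l 16744088) (l 16751368)) (a (c (l 16715112) (b (l 16694552) (l 16697008))) (c (l 16722752) (b (l 16702440) (l 16704832))))))))), by decide +kernel⟩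

def k7_pm_113 : ∃ t, chk3 f_pm_113 t 17 62 1 = true :=
  ⟨(a (c (b (a (b (l 16783824) (l 16789152)) (c (l 16819128) (l 16781880))) (a (b (l 16773384) (l 16778432)) (a (l 16807016) (l 16813528)))) (b (a (a (b (l 16703216) (a (l 16706872) (l 16710936))) (b (l 16711416) (l 16675024))) (a (b (l 16719472) (l 16703904)) (b (l 16727376) (l 16732640)))) (a (b (c (a (l 16733528) (l 16741192)) (a (l 16695392) (l 16703544))) (c (a (l 16738848) (l 16746360)) (a (l 16682480) (l 16708824)))) (b (c (l 16752416) (a (l 16711552) (l 16719416))) (c (l 16757440) (a (l 16716688) (l 16724432))))))) (b (a (c (c (l 16832152) (l 16795888)) (a (b (l 16735144) (l 16740264)) (b (l 16742768) (l 16747768)))) (c (c (l 16845392) (l 16810184)) (b (a (l 16750272) (l 16758152)) (a (l 16734720) (l 16764616))))) (a (b (c (l 16821304) (a (l 16724280) (c (l 16771040) (l 16735392)))) (c (l 16826960) (a (b (l 16728080) (l 16731128)) (c (l 16777576) (l 16742176))))) (c (l 16818768) (b (c (l 16784336) (l 16749648))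 (l 16753200)))))), by decide +kernel⟩

def k8_pm_113 : ∃ t, chk3 f_pm_113 t 34 63 1 = true :=
  ⟨(c (b (a (b (l 16783336) (l 16788160)) (b (c (l 16836120) (l 16799360)) (l 16802544))) (b (a (a (l 16810472) (l 16817504)) (l 16830120)) (a (c (l 16838704) (l 16801408)) (l 16837248)))) (b (a (b (c (a (l 16744000) (l 16751360)) (a (c (l 16715560) (l 16696608)) (l 16692960))) (c (a (l 16748984) (l 16756224)) (a (c (l 16720608) (l 16680728)) (c (l 16728208) (l 16709544))))) (b (a (c (l 16758616) (l 16700696)) (c (l 16766384) (b (l 16728264) (l 16731384)))) (a (c (l 16764024) (b (a (l 16723336) (l 16727488)) (a (l 16726088) (l 16731032)))) (c (l 16773128) (c (l 16745992) (l 16727920)))))) (a (b (a (c (l 16753816) (a (l 16693144) (l 16696928))) (c (l 16740672) (b (a (l 16720512) (l 16724688)) (a (l 16723280) (l 16728288))))) (a (c (c (l 16768656) (l 16749840)) (b (a (l 16717672) (c (l 16731248) (l 16712472))) (a (c (l 16729880) (l 16711000)) (l 16725520)))) (c (l 16768608) (c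 (l 16740880) (b (l 16720360) (l 16724472)))))) (b (c (a (l 16770872) (l 16780640)) (a (b (l 16732328) (l 16736320)) (c (l 16753744) (l 16735816)))) (c (l 16783376) (c (a (l 16751352) (l 16761464)) (a (b (l 16731216) (c (l 16739752) (l 16730712))) (b (l 16741712) (a (l 16743072) (l 16748192)))))))))), by decide +kernel⟩

def k9_pm_113 : ∃ t, chk3 f_pm_113 t 35 63 1 = true :=
  ⟨(c (a (b (c (l 16854384) (l 16819024)) (l 16850344)) (b (l 16852840) (l 16865776))) (b (a (b (c (l 16780080) (a (l 16739576) (l 16749704))) (c (l 16787400) (a (l 16747248) (l 16757200)))) (c (l 16801856) (b (l 16764264) (c (l 16779976) (l 16752600))))) (a (c (b (l 16794656) (l 16801896)) (b (c (l 16768536) (a (l 16746104) (l 16756056))) (c (a (l 16771232) (l 16780688)) (a (b (l 16751872) (a (l 16753232) (l 16758184))) (c (l 16767864) (b (l 16757424) (l 16750720))))))) (a (c (l 16811488) (b (l 16753176) (a (b (l 16777304) (l 16780968)) (l 16762744)))) (c (l 16819904) (b (l 16783304) (l 16790424))))))),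 by decide +kernel⟩

def k10_pm_113 : ∃ t, chk3 f_pm_113 t 9 15 1 = true :=
  ⟨(b (a (a (b (b (c (l 16807880) (a (l 16729920) (l 16745680))) (a (c (l 16811152) (l 16740896)) (l 16727392))) (b (a (c (l 16821048) (l 16730504)) (c (l 16834488) (l 16767024))) (a (c (l 16831160) (b (l 16759208) (l 16765056))) (c (l 16845728) (l 16779296))))) (a (b (b (l 16794360) (l 16804632)) (b (l 16816048) (l 16828296))) (b (b (l 16808504) (l 16819592)) (l 16837296)))) (a (b (b (l 16830304) (l 16841536)) (l 16858160)) (b (l 16862656) (l 16882880)))) (a (a (b (b (a (c (l 16842752) (b (l 16771536) (l 16778448))) (c (l 16857832) (l 16792600))) (c (l 16862712) (a (c (l 16805384) (l 16772160)) (l 16805784)))) (c (b (l 16853896) (a (l 16880088) (l 16893328))) (b (a (b (l 16799008) (l 16784848)) (l 16818848)) (a (c (l 16831984) (b (l 16796480) (l 16782368))) (c (l 16847104) (l 16816304)))))) (b (c (l 16884144) (b (l 16817000) (l 16829328))) (c (l 16906032) (b (l 16841440) (l 16832304))))) (a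 (b (c (l 16907872) (l 16851688)) (c (l 16927296) (l 16873312))) (b (l 16902208) (c (l 16945032) (l 16895376)))))), by decide +kernel⟩

def k11_pm_113 : ∃ t, chk3 f_pm_113 t 5 7 1 = true :=
  ⟨(b (a (b (a (b (b (a (l 16815208) (l 16846120)) (a (b (l 16815328) (l 16817808)) (a (l 16839088) (l 16853832)))) (a (b (l 16824216) (l 16833656)) (b (l 16850528) (l 16859200)))) (b (a (l 16875056) (l 16901640)) (a (b (l 16876904) (l 16883000)) (b (l 16902552) (l 16905544))))) (a (b (a (l 16847944) (l 16872784)) (l 16879328)) (b (a (l 16895544) (l 16916392)) (l 16921520)))) (a (b (b (l 16937288) (a (l 16927264) (l 16948056))) (b (a (l 16934984) (l 16952592)) (l 16955456))) (b (l 16975504) (b (l 16976272) (l 16981208))))) (a (b (a (b (l 16897392) (l 16914528)) (b (l 16935656) (l 16948344))) (c (a (b (l 16953040) (l 16966216)) (b (l 16977920) (l 16986088))) (a (b (a (l 16897880) (l 16916784)) (a (b (l 16910256) (l 16917920)) (b (l 16927168) (l 16933440)))) (b (a (l 16933256) (l 16947344))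 (a (b (l 16941624) (l 16946512)) (b (l 16953712) (c (l 16965664) (l 16948768)))))))) (b (a (b (l 16965184) (l 16973104)) (b (l 16986128) (l 16989048))) (a (b (a (l 16974848) (l 16982480)) (c (l 16997040) (b (a (l 16963472) (l 16970976)) (c (l 16976176) (a (l 16958056) (l 16965080)))))) (b (c (l 17000992) (l 16978728)) (c (l 16999456) (b (l 16978136) (a (c (l 16981696) (l 16969928)) (l 16977528))))))))), by decide +kernel⟩

def k12_pm_113 : ∃ t, chk3 f_pm_113 t 6 2 1 = true :=
  ⟨(b (a (l 1) (b (l 1) (a (l 1) (b (l 1) (b (l 1) (a (l 1) (l 16803928))))))) (b (a (b (l 1) (l 61773744359)) (a (b (l 95596665559) (l 16892352)) (b (a (l 16831928) (b (l 16815480) (l 16846096))) (a (l 16889368) (l 16888544))))) (a (b (l 16881704) (l 17023840)) (b (a (l 16945248) (l 16938816)) (a (l 16992000) (l 16980712)))))), by decide +kernel⟩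

def k13_pm_113 : ∃ t, chk3 f_pm_113 t 14 4 1 = true :=
  ⟨(b (a (l 1) (b (l 1) (a (l 1) (a (l 1) (b (l 1) (b (l 1) (l 16717632))))))) (a (b (a (l 1) (b (l 1) (l 96133479095))) (a (b (a (l 1) (l 113313406727)) (a (b (l 97207309239) (l 16790616)) (b (l 16779648) (l 16794288)))) (b (a (l 16768224) (l 16778768)) (a (l 16797040) (l 16807040))))) (b (b (a (a (l 1) (l 16676664)) (a (l 29561274231) (b (l 16754344) (l 16769536)))) (a (a (l 16759616) (l 16770456)) (a (l 16781048) (l 16749520)))) (b (a (l 16793832) (b (l 16807368) (l 16821456))) (a (l 16821816) (l 16842448)))))), by decide +kernel⟩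

def k14_pm_113 : ∃ t, chk3 f_pm_113 t 30 8 1 = true :=
  ⟨(b (a (l 1) (b (l 1) (b (l 1) (a (l 1) (a (l 1) (a (l 1) (c (l 16764800) (l 16686064)))))))) (a (b (a (l 1) (b (l 1) (c (l 16767992) (l 16681168)))) (a (c (b (l 16771800) (l 16786640)) (b (l 16696712) (l 16713600))) (c (b (l 16782944) (l 16797328)) (b (l 16677184) (l 16725056))))) (b (a (c (b (c (l 16783728) (l 16744792)) (l 16758288)) (b (a (l 1) (l 16689640)) (a (l 16700672) (l 16706568)))) (c (b (c (l 16794912) (l 16756344)) (c (l 16808912) (l 16771344))) (b (a (l 16674704) (c (l 16720744) (l 16682440))) (a (l 16691360) (c (l 16736616) (l 16699328)))))) (a (c (b (l 16793720) (l 16807624)) (b (a (l 16717288) (l 16722920)) (a (l 16733328) (l 16738696)))) (c (b (l 16804064) (l 16817352)) (b (a (l 16728416) (c (l 16751928) (l 16715640))) (a (l 16743928) (l 16749064)))))))), by decide +kernel⟩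

def k15_pm_113 : ∃ t, chk3 f_pm_113 t 62 16 1 = true :=
  ⟨(b (b (l 1) (b (l 1) (a (l 1) (a (l 1) (a (l 1) (c (l 16760744) (l 16658640))))))) (a (a (b (l 1) (c (l 16769096) (c (l 16710192) (l 16671024)))) (c (b (l 16717528) (l 16753736)) (b (b (l 1) (l 16662656)) (c (l 16716040) (b (l 16672640) (l 16681320)))))) (c (b (c (l 16767096) (a (l 16745224) (l 16750936))) (c (l 16802368) (a (l 16760688) (l 16766096)))) (b (a (c (b (l 16701000) (l 16709456)) (b (l 16660824) (l 16669800))) (c (b (l 16706920) (l 16715224)) (b (l 16656400) (a (l 16674232) (l 16677144))))) (a (c (b (l 16717696) (l 16725712)) (b (l 16678552) (l 16687072))) (a (b (l 16681408) (l 16689568)) (c (l 16728632) (b (l 16685696) (l 16694024))))))))), by decide +kernel⟩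

def k16_pm_113 : ∃ t, chk3 f_pm_113 t 63 32 1 = true :=
  ⟨(a (a (b (l 1) (b (c (l 16736224) (c (l 16674744) (l 38))) (c (l 16744048) (c (l 16683344) (a (l 16662384) (l 16665368)))))) (c (b (c (l 16771832) (b (l 1) (l 16734336))) (c (l 16787096) (b (l 16742488) (l 16750416)))) (a (b (l 1) (c (b (l 16700160) (l 16708648)) (b (l 38) (l 16647336)))) (b (c (b (l 1) (l 16694448)) (l 38)) (c (b (l 16703080) (l 16711480)) (b (l 38) (c (l 16681272) (l 38)))))))) (c (b (c (a (l 16777568) (l 16783152)) (a (b (l 16731904) (l 16740128)) (b (l 16716728) (l 16745752)))) (b (c (l 16791584) (a (l 16748120) (l 16753584))) (a (l 16755032) (l 16760280)))) (a (b (c (b (c (l 12381412487) (l 38)) (c (l 16709192) (a (l 16687096) (l 16690024)))) (l 38)) (c (a (b (l 16705960) (l 16714280)) (b (l 16687824) (l 16717032))) (b (l 38) (c (a (l 16684104) (l 16686896)) (l 38))))) (b (c (a (b (c (l 16705000) (l 38)) (c (l 16713488) (l 16671936))) (b (c (l 16707896) (l 38)) (b (l 16682936) (l 16708120))))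 (l 38)) (a (c (b (l 16690608) (l 16719736)) (b (l 38) (c (b (l 38) (l 16691728)) (l 38)))) (c (b (c (l 16724472) (l 16704176)) (l 16722392)) (b (l 38) (c (a (l 16691656) (l 16692984)) (l 38))))))))), by decide +kernel⟩

def k17_pm_113 : ∃ t, chk3 f_pm_113 t 63 33 1 = true :=
  ⟨(c (a (b (c (a (l 16796224) (l 16801496)) (a (l 16756488) (l 16740920))) (c (l 16812624) (a (l 16771352) (l 16776456)))) (b (c (l 16809144) (a (l 16767136) (l 16772208))) (c (l 16822152) (a (l 16781392) (l 16786224))))) (a (b (a (c (b (l 16712688) (l 16720840)) (a (b (l 16671312) (l 16680008)) (b (l 16674216) (l 16682832)))) (c (b (c (l 16728248) (l 16708336)) (l 16726280)) (a (b (l 16656096) (l 16664632)) (b (c (l 16689824) (l 38)) (c (l 16698152) (l 16678520)))))) (a (a (c (l 16731320) (b (l 16688480) (l 16696736))) (c (l 16713000) (b (l 16691224) (l 16699392)))) (a (c (l 16715600) (b (l 16672944) (l 16702008))) (c (l 16718168) (b (l 16675592) (l 16704576)))))) (b (a (c (b (c (l 16733648) (l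 16713792)) (l 16710576)) (b (c (a (l 16692576) (l 16695280)) (l 38)) (a (c (l 16700824) (l 16681216)) (b (l 16670624) (l 16695688))))) (c (b (c (l 16738872) (l 16719064)) (l 16715664)) (a (b (c (l 16697936) (l 38)) (b (l 16673232) (l 16677272))) (b (c (l 16700544) (l 38)) (c (l 16708536) (b (l 38) (l 16691016))))))) (a (c (b (l 16739168) (l 16746568)) (b (c (l 16710128) (a (l 16689480) (l 16692040))) (a (l 16686120) (l 16688592)))) (c (b (l 16744088) (l 16751304)) (b (c (l 16715112) (a (l 16694552) (l 16697008))) (c (l 16722680) (a (l 16702440) (l 16704832))))))))), by decide +kernel⟩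

def k18_pm_113 : ∃ t, chk3 f_pm_113 t 62 17 1 = true :=
  ⟨(b (a (a (c (b (l 16783824) (l 16797928)) (b (b (l 16703216) (l 16711416)) (c (l 16742032) (l 16704888)))) (c (b (l 16789152) (l 16802984)) (b (c (l 16731992) (b (l 16689784) (l 16698088))) (b (l 16703904) (l 16732640))))) (a (c (b (l 16773384) (l 16807904)) (b (c (b (l 16733528) (l 16741192)) (b (l 16695392) (l 16703544))) (c (l 16752416) (b (l 16711552) (l 16719416))))) (c (b (l 16778432) (l 16812736)) (b (c (b (l 16738848) (l 16746360)) (b (l 16682480) (l 16708824))) (c (l 16757440) (b (l 16716688) (l 16724360))))))) (a (b (c (c (l 16831952) (l 16795672)) (a (c (l 16757072) (l 16720912)) (a (l 16721800) (l 16703360)))) (c (c (l 16845384) (l 16810184)) (a (b (l 16750216) (l 16758152)) (b (l 16734720) (l 16764680))))) (a (b (c (l 16821304) (b (l 16724216) (c (l 16771040) (l 16735392)))) (c (l 16836496) (c (l 16784336) (l 16749648)))) (b (c (l 16826960) (a (b (l 16728080) (l 16758040)) (b (l 16731128) (l 16761728))))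 (c (l 16843064) (l 16753200)))))), by decide +kernel⟩

def k19_pm_113 : ∃ t, chk3 f_pm_113 t 63 34 1 = true :=
  ⟨(c (a (a (b (l 16783336) (c (l 16836120) (l 16799360))) (b (l 16788160) (l 16802544))) (a (b (a (l 16812672) (l 16794384)) (l 16830120)) (b (c (l 16838704) (l 16801408)) (l 16837248)))) (a (b (a (c (b (l 16744000) (l 16751360)) (b (c (l 16715560) (l 16696608)) (l 16692960))) (c (b (l 16748984) (l 16756152)) (b (c (l 16720608) (l 16680728)) (c (l 16728136) (l 16709472))))) (a (b (c (l 16758552) (l 16721592)) (c (l 16766384) (a (l 16728264) (l 16731384)))) (c (b (l 16764024) (l 16773192)) (b (a (b (l 16723312) (l 16727488)) (b (l 16726088) (l 16731048))) (a (l 16735016) (l 16738928)))))) (b (a (b (c (l 16753744) (a (l 16714824) (l 16717232))) (c (l 16740672) (a (b (l 16720496) (l 16724688)) (b (l 16723280) (l 16728304))))) (b (c (c (l 16768656) (l 16749840)) (a (b (l 16717656) (c (l 16731248) (l 16712472))) (b (c (l 16729880) (l 16711000)) (l 16725536))))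 (c (l 16768672) (c (l 16740952) (a (l 16720360) (l 16724472)))))) (c (a (b (l 16770944) (l 16780640)) (l 16783376)) (a (b (a (l 16732328) (l 16736320)) (c (l 16753744) (l 16735816))) (c (b (l 16751352) (l 16761464)) (b (a (l 16731216) (c (l 16739752) (l 16730712))) (a (l 16741712) (b (l 16743072) (l 16748192)))))))))), by decide +kernel⟩

def k20_pm_113 : ∃ t, chk3 f_pm_113 t 63 35 1 = true :=
  ⟨(c (a (b (a (l 16833320) (l 16840160)) (l 16852840)) (a (l 16833920) (l 16840520))) (a (b (a (c (l 16780080) (b (l 16739648) (l 16749704))) (c (l 16787400) (a (l 16750368) (l 16733184)))) (c (l 16801856) (a (l 16764264) (c (l 16779976) (l 16752600))))) (b (c (a (l 16794656) (l 16801896)) (a (c (l 16768536) (b (l 16746104) (l 16756056))) (c (b (l 16771232) (l 16780688)) (b (a (l 16751872) (a (l 16754760) (l 16746192))) (c (l 16767864) (a (l 16757424) (l 16750720))))))) (b (c (l 16811488) (a (l 16753176) (a (l 16779616) (a (l 16782344) (l 16784152))))) (c (l 16819904) (a (l 16783304)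 (l 16790424))))))), by decide +kernel⟩

def k21_pm_113 : ∃ t, chk3 f_pm_113 t 15 9 1 = true :=
  ⟨(a (b (b (a (a (c (l 16807880) (b (l 16729920) (l 16745680))) (b (c (l 16811152) (l 16740896)) (c (l 16824328) (l 16756048)))) (a (b (c (l 16820864) (l 16730280)) (c (l 16834488) (l 16767024))) (b (c (l 16831160) (a (l 16759208) (l 16765056))) (c (l 16845912) (l 16779512))))) (b (a (a (l 16794176) (l 16804632)) (a (l 16816240) (l 16828296))) (a (a (l 16808504) (l 16819768)) (l 16837296)))) (b (a (a (l 16830304) (l 16841536)) (l 16858160)) (a (l 16862656) (l 16882880)))) (b (a (b (a (b (c (l 16842944) (a (l 16771536) (l 16778448))) (c (l 16857832) (l 16792600))) (c (l 16862712) (b (c (l 16805384) (l 16772160)) (l 16805784)))) (c (l 16884144) (a (l 16817000) (l 16829328)))) (b (c (a (l 16853896) (b (l 16880088) (l 16893328))) (a (b (a (l 16799008) (l 16784848)) (l 16818848)) (b (c (l 16831984) (a (l 16796480) (l 16782368))) (c (l 16847104) (l 16816304))))) (c (l 16906032)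 (a (l 16841440) (l 16832304))))) (b (a (c (l 16907872) (l 16851688)) (c (l 16927296) (l 16873312))) (a (l 16902208) (c (l 16945032) (l 16895376)))))), by decide +kernel⟩

def k22_pm_113 : ∃ t, chk3 f_pm_113 t 7 5 1 = true :=
  ⟨(a (b (a (b (a (a (b (l 16815208) (l 16846120)) (b (a (l 16815328) (l 16817808)) (a (l 16846328) (l 16846576)))) (b (a (l 16824216) (l 16833656)) (a (l 16850528) (l 16859200)))) (a (b (l 16875056) (l 16901640)) (b (a (l 16876904) (l 16883000)) (a (l 16902552) (l 16905544))))) (b (a (b (l 16848512) (l 16872784)) (l 16879328)) (a (b (l 16895544) (l 16916392)) (l 16921520)))) (b (a (a (l 16937288) (b (l 16927264) (l 16948056))) (a (b (l 16934984) (l 16952592)) (l 16955456))) (a (l 16975504) (a (l 16976272) (l 16981208))))) (b (a (b (a (l 16897392) (l 16914528)) (a (l 16935656) (l 16948344))) (c (b (a (l 16953040) (l 16966216)) (a (l 16977920) (l 16986088))) (b (a (b (l 16897880) (l 16916784)) (b (a (l 16910256) (l 16917920)) (a (l 16927168) (l 16933440))))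 (a (b (l 16933256) (l 16947344)) (b (a (l 16941624) (l 16946512)) (a (l 16953712) (c (l 16965664) (l 16948768)))))))) (a (b (a (l 16965184) (l 16973104)) (a (l 16986128) (l 16989048))) (b (a (a (l 16977704) (l 16980128)) (c (l 16997040) (a (b (l 16963472) (l 16970976)) (c (l 16976176) (b (l 16958056) (l 16965080)))))) (a (c (l 17000992) (l 16978728)) (c (l 16999456) (a (l 16978136) (b (c (l 16981696) (l 16969928)) (l 16977528))))))))), by decide +kernel⟩

def k23_pm_113 : ∃ t, chk3 f_pm_113 t 6 3 1 = true :=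
  ⟨(b (b (a (b (l 17074096) (l 17073400)) (b (a (l 17028696) (l 17011408)) (l 17039000))) (a (a (b (l 17028696) (l 17011408)) (l 17039000)) (l 17087712))) (b (a (b (a (l 17001248) (l 17013200)) (a (b (l 16997888) (l 16997208)) (b (l 17005696) (l 17002216)))) (b (l 17008712) (l 17012872))) (a (b (a (b (l 16997136) (l 16995048)) (b (l 16913584) (a (l 16992712) (l 16988136)))) (a (b (a (l 16991640) (l 16989384)) (a (c (l 16994968) (b (l 16979432) (a (l 16976824) (l 16974952)))) (l 16981120))) (b (l 17023104) (a (l 16973792) (l 16965024))))) (b (b (a (l 16988824) (l 16963256)) (a (l 16977960) (l 16993552))) (b (a (l 16964368) (l 16942480)) (a (a (l 16955016) (l 16943952)) (b (l 16929760) (l 16921320)))))))), by decide +kernel⟩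

def k24_pm_113 : ∃ t, chk3 f_pm_113 t 7 3 1 = true :=
  ⟨(b (a (b (a (b (l 17001248) (l 17013200)) (b (a (l 16997888) (l 16997208)) (a (l 17005696) (l 17002216)))) (a (l 17008712) (l 17012872))) (b (a (b (a (l 16997136) (l 16995048)) (a (l 16913584) (b (l 16992712) (l 16988136)))) (b (a (b (l 16991640) (l 16989384)) (b (c (l 16994968) (a (l 16979432) (b (l 16976824) (l 16974952)))) (l 16981120))) (a (l 17023104) (b (l 16973792) (l 16965024))))) (a (a (b (l 16988824) (l 16963256)) (b (l 16977960) (l 16993552))) (a (b (l 16964368) (l 16942480)) (b (b (l 16955016) (l 16943952)) (a (l 16929760) (l 16921320))))))) (a (b (b (l 16969352) (l 16963408)) (b (b (l 16961592) (a (a (b (l 16928992) (l 16923072)) (l 16974432)) (a (l 16897784) (l 16884496)))) (b (a (a (l 16916920) (b (l 16902600) (l 16898056))) (a (b (b (l 16888936) (l 14)) (l 14)) (l 14))) (a (a (l 16905032) (l 16890360)) (l 14))))) (b (a (a (l 16961592) (b (b (a (l 16928992) (l 16923072)) (l 16974432)) (b (l 16897784)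 (l 16884496)))) (a (b (b (l 16916920) (a (l 16902600) (l 16898056))) (b (a (a (l 16888936) (l 14)) (l 14)) (l 14))) (b (b (l 16905032) (l 16890360)) (l 14)))) (b (a (b (l 16878896) (l 14)) (l 14)) (l 14))))), by decide +kernel⟩

theorem s25_pm_113 : ∃ t, chk3 f_pm_113 t 3 3 1 = true := ex3_a k23_pm_113 k24_pm_113

theorem s26_pm_113 : ∃ t, chk3 f_pm_113 t 63 17 1 = true := ex3_b k19_pm_113 k20_pm_113

theorem s27_pm_113 : ∃ t, chk3 f_pm_113 t 31 17 1 = true := ex3_a k18_pm_113 s26_pm_113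

theorem s28_pm_113 : ∃ t, chk3 f_pm_113 t 63 16 1 = true := ex3_b k16_pm_113 k17_pm_113

theorem s29_pm_113 : ∃ t, chk3 f_pm_113 t 31 16 1 = true := ex3_a k15_pm_113 s28_pm_113

theorem s30_pm_113 : ∃ t, chk3 f_pm_113 t 31 8 1 = true := ex3_b s29_pm_113 s27_pm_113

theorem s31_pm_113 : ∃ t, chk3 f_pm_113 t 15 8 1 = true := ex3_a k14_pm_113 s30_pm_113

theorem s32_pm_113 : ∃ t, chk3 f_pm_113 t 15 4 1 = true := ex3_b s31_pm_113 k21_pm_113

theorem s33_pm_113 : ∃ t, chk3 f_pm_113 t 7 4 1 = true := ex3_a k13_pm_113 s32_pm_113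

theorem s34_pm_113 : ∃ t, chk3 f_pm_113 t 7 2 1 = true := ex3_b s33_pm_113 k22_pm_113

theorem s35_pm_113 : ∃ t, chk3 f_pm_113 t 3 2 1 = true := ex3_a k12_pm_113 s34_pm_113

theorem s36_pm_113 : ∃ t, chk3 f_pm_113 t 3 1 1 = true := ex3_b s35_pm_113 s25_pm_113

theorem s37_pm_113 : ∃ t, chk3 f_pm_113 t 17 63 1 = true := ex3_a k8_pm_113 k9_pm_113

theorem s38_pm_113 : ∃ t, chk3 f_pm_113 t 17 31 1 = true := ex3_b k7_pm_113 s37_pm_113

theorem s39_pm_113 : ∃ t, chk3 f_pm_113 t 16 63 1 = true := ex3_a k5_pm_113 k6_pm_113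

theorem s40_pm_113 : ∃ t, chk3 f_pm_113 t 16 31 1 = true := ex3_b k4_pm_113 s39_pm_113

theorem s41_pm_113 : ∃ t, chk3 f_pm_113 t 8 31 1 = true := ex3_a s40_pm_113 s38_pm_113

theorem s42_pm_113 : ∃ t, chk3 f_pm_113 t 8 15 1 = true := ex3_b k3_pm_113 s41_pm_113

theorem s43_pm_113 : ∃ t, chk3 f_pm_113 t 4 15 1 = true := ex3_a s42_pm_113 k10_pm_113

theorem s44_pm_113 : ∃ t, chk3 f_pm_113 t 4 7 1 = true := ex3_b k2_pm_113 s43_pm_113

theorem s45_pm_113 : ∃ t, chk3 f_pm_113 t 2 7 1 = true := ex3_a s44_pm_113 k11_pm_113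

theorem s46_pm_113 : ∃ t, chk3 f_pm_113 t 2 3 1 = true := ex3_b k1_pm_113 s45_pm_113

theorem s47_pm_113 : ∃ t, chk3 f_pm_113 t 2 1 1 = true := ex3_b k0_pm_113 s46_pm_113

theorem s48_pm_113 : ∃ t, chk3 f_pm_113 t 1 1 1 = true := ex3_a s47_pm_113 s36_pm_113

theorem c_pm_113 : CertF 536870912 536870912 536870912 536870912 469762048 67108864 true true false .nn 1 1 3
    ndF0q1 ndF0q1 pcF3 cut_pm_113 Ext.none :=
  certF0 (fam := true) (s1 := true) (s2 := false) (a := 1) (b := 1) (c := 3) (cn := .nn) (n1 := ndF0q1) (n2 := ndF0q1) (pc := pcF3) (cut := cut_pm_113) (xt := Ext.none) (P1 := 536870912) (W1 := 536870912) (P2 := 536870912) (W2 := 536870912) (P3 := 469762048) (W3 := 67108864)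
    rfl s48_pm_113

noncomputable def cut_pm_123 : Cut := Cut.of [[⟨3, 0, 0, 1449551462⟩], [⟨4, 0, 0, 2845415833⟩], [⟨0, 1, 0, 67108864⟩, ⟨1, 1, 0, 67108864⟩, ⟨2, 2, 0, 16777216⟩], [⟨0, 0, 1, 33554432⟩, ⟨1, 1, 0, 33554432⟩, ⟨2, 1, 1, 33554432⟩]]

noncomputable def f_pm_123 : ℕ → ℕ → ℕ → ℕ → Bool := onCell 1610612736 536870912 0 536870912 469762048 67108864
    (rowF 2 true true false .npn 1 2 3 (qsf 536870912 536870912 0 536870912 3) ndF0q1 ndF0q2 pcF3 cut_pm_123 Ext.none)

def k0_pm_123 : ∃ t, chk3 f_pm_123 t 4 2 1 = true :=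
  ⟨(b (l 1) (a (l 1) (b (l 1) (a (l 1) (l 16903952))))), by decide +kernel⟩

def k1_pm_123 : ∃ t, chk3 f_pm_123 t 4 6 1 = true :=
  ⟨(a (l 1) (b (a (l 1) (l 16888976)) (a (b (l 16841656) (l 16839112)) (b (l 16882600) (l 16880856))))), by decide +kernel⟩

def k2_pm_123 : ∃ t, chk3 f_pm_123 t 8 14 1 = true :=
  ⟨(a (l 1) (b (a (l 1) (l 16795472)) (a (l 46204384199) (l 16802904)))), by decide +kernel⟩

def k3_pm_123 : ∃ t, chk3 f_pm_123 t 8 30 1 = true :=
  ⟨(a (a (l 1) (b (l 16742496) (a (l 16741032) (l 16754104)))) (a (b (l 16774504) (a (l 16770440) (l 16789624))) (b (l 16810072) (l 16815456)))), by decide +kernel⟩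

def k4_pm_123 : ∃ t, chk3 f_pm_123 t 8 31 1 = true :=
  ⟨(a (b (a (b (l 16723408) (c (l 16765080) (l 16686536))) (b (l 16751976) (a (l 16747776) (l 16761456)))) (b (a (a (c (l 16760712) (l 16679968)) (c (l 16775304) (l 16696528))) (c (a (l 16789056) (l 16802048)) (a (l 16712200) (l 16727056)))) (a (a (b (c (l 16762936) (l 16628808)) (c (a (c (l 16781288) (l 16739856)) (l 16747280)) (c (a (c (l 16708784) (l 30)) (a (a (l 16682768) (l 16705840)) (l 16687984))) (l 30)))) (b (c (l 16777720) (l 16635112)) (a (c (l 16775712) (b (l 16673680) (c (l 16715384) (l 30)))) (c (l 16782960) (b (l 16681896) (c (l 16723392) (c (l 16693400) (l 30)))))))) (c (a (b (l 16791664) (l 16772456)) (b (l 16804824) (l 16806712))) (b (a (c (l 16733344) (l 16694488)) (l 16708008)) (b (a (a (l 16689896) (l 16718648)) (c (l 16749024) (l 16710880))) (a (c (a (l 16731184) (l 16738752)) (a (c (l 16701560) (l 30)) (a (l 16697752) (l 16701720)))) (c (l 16749752) (a (l 16686608) (l 16715216)))))))))) (b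 (a (a (c (l 16811984) (l 16740968)) (l 16795432)) (c (l 16853384) (l 16789216))) (b (a (a (c (l 16817448) (l 16744808)) (l 16800056)) (l 16825912)) (a (c (a (l 16821264) (l 16838784)) (b (a (l 16746816) (l 16767160)) (c (a (l 16766696) (l 16786360)) (b (a (l 16729368) (l 16750440)) (a (a (l 16724512) (l 16724920)) (c (l 16760000) (b (l 16742008) (a (l 16737088) (c (l 16751872) (l 16743032)))))))))) (c (b (l 16861728) (l 16842768)) (b (l 16795152) (a (c (l 16804688) (b (l 16770136) (c (l 16779368) (b (l 16762064) (a (l 16747000) (l 16767184)))))) (b (l 16804944) (a (c (l 16818024) (l 16763752)) (l 16788968)))))))))), by decide +kernel⟩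

def k5_pm_123 : ∃ t, chk3 f_pm_123 t 9 7 1 = true :=
  ⟨(b (a (b (b (l 16837616) (l 16840192)) (a (l 16833024) (l 16858264))) (b (b (l 16880608) (l 16882504)) (l 16888384))) (a (b (b (l 16853392) (l 16858688)) (b (a (l 16851352) (l 16877152)) (a (b (l 16856256) (c (l 16890648) (a (b (l 16820336) (c (l 16837656) (l 16806040))) (l 16836448)))) (b (l 16882240) (c (l 16914368) (l 16857424)))))) (b (b (l 16896088) (l 16902024)) (b (l 16908592) (a (l 16906152) (c (l 16948400) (l 16900648))))))), by decide +kernel⟩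

def k6_pm_123 : ∃ t, chk3 f_pm_123 t 5 2 1 = true :=
  ⟨(b (a (b (l 14) (a (l 16852632) (l 14))) (l 14)) (a (a (b (l 16896912) (l 16941320)) (b (a (l 16888824) (b (l 16869840) (l 16891232))) (b (a (l 16921320) (l 16913592)) (a (l 16922440) (l 16920712))))) (a (b (b (l 14) (a (l 16881296) (l 16870840))) (b (a (l 16902752) (c (l 16915160) (l 16887856))) (a (b (l 16900000) (l 16916208)) (a (b (l 16909232) (l 16911936)) (b (l 16903448) (l 16908312)))))) (b (l 14) (a (a (b (l 16881936) (b (l 16896864) (b (l 16903464) (l 16904720)))) (b (l 16875888) (b (l 16890304) (b (l 16897696) (l 16900256))))) (b (l 14) (b (c (l 16883728) (l 16877432)) (c (a (b (l 16894152) (l 16898296)) (l 16889928)) (l 16870976))))))))), by decide +kernel⟩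

def k7_pm_123 : ∃ t, chk3 f_pm_123 t 5 3 1 = true :=
  ⟨(b (a (b (a (l 16910504) (b (l 16918432) (l 16917152))) (a (b (l 16906792) (l 16906664)) (l 16919248))) (b (a (b (a (l 16915744) (l 16911152)) (l 16915640)) (b (a (b (l 16903720) (l 16905480)) (b (a (l 16897368) (c (b (l 16895240) (l 16897120)) (l 16889136))) (l 16897912))) (l 16927168))) (a (b (l 16919168) (l 16924616)) (b (l 16913360) (l 16921776))))) (a (b (a (b (l 16908568) (l 16916800)) (b (a (l 16921760) (l 16927368)) (a (l 16930400) (l 16936720)))) (b (a (a (l 16922176) (l 16933776)) (c (l 16962656) (a (l 16926648) (l 16956168)))) (a (b (a (l 16932128) (l 16944320)) (c (l 16967520) (a (b (l 16916088) (l 16919712)) (b (l 16930416) (l 16934320))))) (b (c (l 16974928) (a (l 16936640) (l 16946040))) (c (l 16984376) (a (a (l 16941664) (l 16947144)) (c (l 16962544) (b (l 16944016) (l 16948192))))))))) (b (a (b (b (l 16929896) (l 16933976)) (a (c (l 16953304) (l 16928888)) (b (l 16940192) (l 16947016)))) (a (b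 (l 16932576) (b (b (l 16939488) (l 16942728)) (l 16948240))) (b (l 16931224) (b (b (l 16938864) (a (l 16942456) (b (l 16940968) (l 16942728)))) (c (l 16956576) (c (l 16943568) (l 16935024))))))) (a (b (a (b (l 16951272) (l 16959048)) (b (l 16954488) (l 16962536))) (c (b (l 16983048) (l 16992792)) (b (a (l 16953336) (l 16958592)) (a (c (l 16969312) (b (l 16952384) (l 16956712))) (b (l 16965088) (l 16969648)))))) (b (c (a (l 16970640) (l 16969144)) (a (b (l 16945720) (l 16953528)) (c (l 16955424) (b (l 16942376) (l 16950152))))) (c (a (l 16989064) (l 16987208)) (a (a (b (l 16961200) (l 16970064)) (b (l 16962344) (l 16971272))) (a (b (l 16963016) (l 16971872)) (b (l 16963216) (l 16971896)))))))))), by decide +kernel⟩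

def k8_pm_123 : ∃ t, chk3 f_pm_123 t 3 1 1 = true :=
  ⟨(a (b (a (b (l 14) (b (l 14) (a (a (a (b (l 14) (b (l 14) (l 16879992))) (l 14)) (l 14)) (l 14)))) (l 14)) (b (a (b (a (b (a (b (b (a (a (l 16898400) (l 16885064)) (l 16880384)) (a (l 16888688) (c (l 16886984) (l 16880240)))) (l 16888888)) (b (l 14) (a (l 16881704) (b (l 14) (l 16877912))))) (a (l 16894792) (l 16885656))) (a (b (l 14) (b (l 16874112) (l 16878760))) (l 14))) (a (b (l 16899576) (l 16910200)) (b (a (l 16886368) (l 16877464)) (l 16893360)))) (b (l 14) (a (b (l 14) (a (l 16879744) (l 14))) (l 14)))) (a (b (a (b (a (l 16926104) (l 16918064)) (c (b (a (l 16943504) (l 16935120)) (a (l 16951328) (l 16943000))) (a (a (b (b (l 16928600) (c (l 16935688) (l 16928104))) (l 16937440)) (b (l 16926640) (l 16934000))) (b (l 16921088) (l 16928456))))) (b (l 16905560) (b (a (l 16919632) (l 16910680)) (a (l 16927160) (l 16917800))))) (c (a (b (a (l 16964368) (l 16956600)) (a (l 16982280) (l 16974768))) (b (l 16943016)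 (l 17002872))) (a (a (b (b (a (l 16945304) (l 16942304)) (a (l 16953528) (l 16950824))) (b (a (l 16962000) (l 16959488)) (a (l 16970656) (l 16968192)))) (b (b (l 16937288) (l 16946144)) (b (l 16954952) (l 16963728)))) (a (b (l 16934184) (l 16952128)) (b (l 16925336) (l 16943464)))))) (b (b (a (l 16886944) (l 14)) (a (b (l 16896056) (a (l 16907808) (l 16897312))) (a (l 16883480) (l 14)))) (b (b (a (l 16911160) (a (l 16893904) (l 14))) (a (l 16920488) (l 16897216))) (b (a (l 16929440) (l 16905768)) (a (l 16937968) (l 16913592)))))))) (b (l 14) (a (b (l 14) (l 14)) (l 14)))), by decide +kernel⟩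

theorem s9_pm_123 : ∃ t, chk3 f_pm_123 t 5 1 1 = true := ex3_b k6_pm_123 k7_pm_123

theorem s10_pm_123 : ∃ t, chk3 f_pm_123 t 8 15 1 = true := ex3_b k3_pm_123 k4_pm_123

theorem s11_pm_123 : ∃ t, chk3 f_pm_123 t 8 7 1 = true := ex3_b k2_pm_123 s10_pm_123

theorem s12_pm_123 : ∃ t, chk3 f_pm_123 t 4 7 1 = true := ex3_a s11_pm_123 k5_pm_123

theorem s13_pm_123 : ∃ t, chk3 f_pm_123 t 4 3 1 = true := ex3_b k1_pm_123 s12_pm_123

theorem s14_pm_123 : ∃ t, chk3 f_pm_123 t 4 1 1 = true := ex3_b k0_pm_123 s13_pm_123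

theorem s15_pm_123 : ∃ t, chk3 f_pm_123 t 2 1 1 = true := ex3_a s14_pm_123 s9_pm_123

theorem s16_pm_123 : ∃ t, chk3 f_pm_123 t 1 1 1 = true := ex3_a s15_pm_123 k8_pm_123

theorem c_pm_123 : CertF 536870912 536870912 0 536870912 469762048 67108864 true true false .npn 1 2 3
    ndF0q1 ndF0q2 pcF3 cut_pm_123 Ext.none :=
  certF2 (fam := true) (s1 := true) (s2 := false) (a := 1) (b := 2) (c := 3) (cn := .npn) (n1 := ndF0q1) (n2 := ndF0q2) (pc := pcF3) (cut := cut_pm_123) (xt := Ext.none) (P1 := 536870912) (W1 := 536870912) (P2 := 0) (W2 := 536870912) (P3 := 469762048) (W3 := 67108864)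
    rfl (fun _ => rfl) s16_pm_123

end Pool.Agent.Strip051.G.I7_16_1_2.Tab.C.FA00

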