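import Pool.Agent.Strip051.G.I7_16_1_2.Tab

/-! # Certificates F1 (generated) -/

set_option linter.all false
set_option maxRecDepth 100000

namespace Pool.Agent.Strip051.G.I7_16_1_2.Tab.C.FA00

open Pool.Agent.Strip051.PB Pool.Agent.Strip051.PB.T
open Pool.Agent.Strip051.G.I7_16_1_2.Tab

noncomputable def cut_pm_202 : Cut := Cut.of [[⟨3, 0, 0, 1449551462⟩], [⟨4, 0, 0, 2845415833⟩], [⟨0, 1, 0, 67108864⟩, ⟨1, 0, 0, 67108864⟩, ⟨2, 1, 0, 67108864⟩], [⟨0, 1, 0, 33554432⟩, ⟨1, 0, 1, 33554432⟩, ⟨2, 1, 1, 33554432⟩]]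

noncomputable def f_pm_202 : ℕ → ℕ → ℕ → ℕ → Bool := onCell 0 536870912 1073741824 536870912 469762048 67108864
    (rowF 1 true true false .pp 2 0 2 (qsf 0 536870912 0 536870912 2) ndF0q2 ndF0q0 pcF2 cut_pm_202 Ext.none)

def k0_pm_202 : ∃ t, chk3 f_pm_202 t 2 1 1 = true :=
  ⟨(b (b (a (l 1) (b (l 1) (b (l 1) (a (l 1) (b (l 1) (a (l 1) (b (l 1) (a (l 16572848) (l 16579440))))))))) (a (b (a (b (b (l 1) (l 16503640)) (a (l 16552064) (l 16498360))) (b (b (l 1) (l 16521264)) (b (l 16516680) (l 16510640)))) (a (b (l 16557624) (a (l 16512424) (l 16502832))) (b (l 16487728) (l 16483616)))) (b (a (b (b (a (l 16539144) (l 16549944)) (a (l 16536216) (l 16546960))) (a (l 16529696) (l 16540680))) (b (a (b (b (l 16562272) (l 16560936)) (l 16558504)) (b (a (l 16570936) (l 16577400)) (l 16570912))) (a (l 16552328) (b (l 16566888) (l 16562384))))) (a (b (a (l 16516288) (l 16528288)) (l 16503136)) (b (a (l 16540768) (l 16553920)) (l 16594728)))))) (b (a (b (a (b (l 16702240) (l 16687728))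 (b (l 16527832) (l 16578320))) (a (b (l 16652104) (l 16698296)) (b (l 16655720) (a (l 16703736) (l 16679128))))) (b (a (b (l 16499432) (l 16538256)) (a (l 16516704) (l 16568168))) (a (b (l 16583776) (l 16635504)) (b (l 16535168) (l 16574880))))) (a (b (a (b (l 16741096) (l 16802360)) (b (a (l 16755856) (l 16741288)) (a (l 16803088) (a (l 16809272) (l 16797288))))) (a (b (a (l 16810344) (l 16826048)) (a (l 16841928) (l 16860840))) (b (a (l 16844328) (b (l 16846528) (l 16913936))) (a (l 16882384) (b (a (l 16890464) (l 16901464)) (l 16958896)))))) (b (a (b (l 16692848) (l 16795480)) (b (l 16622216) (l 16673064))) (a (b (a (l 16836768) (l 16797320)) (a (b (l 16951352) (a (a (b (l 16925568) (l 16938744)) (l 16948816)) (l 16914344))) (l 16866664))) (b (l 16729640) (a (l 16821224) (l 16768840)))))))), by decide +kernel⟩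

def k1_pm_202 : ∃ t, chk3 f_pm_202 t 3 4 1 = true :=
  ⟨(b (a (l 1) (l 6)) (a (b (a (l 1) (b (l 6) (a (a (a (l 1) (b (l 1) (b (l 1) (l 16620872)))) (l 6)) (l 6)))) (a (b (a (a (l 1) (b (l 1) (l 16595520))) (b (a (l 1) (c (b (l 16618232) (l 16617432)) (l 16603664))) (a (c (l 16609768) (l 16594816)) (c (l 16616184) (l 16602240))))) (a (a (b (l 16587400) (l 16586136)) (b (l 16594248) (l 16592840))) (a (b (l 16601064) (l 16599496)) (b (l 16607784) (l 16606040))))) (a (b (a (b (c (a (l 16622584) (l 16625536)) (l 16611088)) (c (l 16622136) (l 16609320))) (b (c (l 16629888) (l 16618160)) (l 16621816))) (a (b (l 16614024) (l 16612056)) (l 16618152))) (b (a (b (l 6) (l 16627464)) (l 6)) (a (l 16622944) (l 16627416)))))) (l 6))), by decide +kernel⟩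

def k2_pm_202 : ∃ t, chk3 f_pm_202 t 3 5 1 = true :=
  ⟨(a (b (a (b (a (b (a (l 16583928) (l 16590464)) (l 16583624)) (b (a (l 16596904) (l 16603224)) (l 16596112))) (a (b (l 16579488) (l 16575064)) (b (l 16591728) (l 16587264)))) (b (b (a (a (l 16608976) (l 16613144)) (l 16639528)) (b (a (l 16607560) (l 16613408)) (a (b (l 16605744) (l 16604480)) (b (l 16610816) (l 16609096))))) (a (b (l 16601504) (l 16596888)) (l 16622536)))) (a (b (a (l 16567048) (l 16579488)) (a (l 16553168) (l 16566544))) (b (a (a (l 16587888) (l 16590512)) (l 16588008)) (a (l 16577576) (l 16573712))))) (b (a (b (b (a (l 16624248) (l 6)) (a (b (l 16617248) (l 16612608)) (b (l 6) (b (l 6) (l 16611040))))) (a (b (l 16605544) (l 16596152)) (a (l 16598416) (l 16595584)))) (b (l 6) (a (l 16658448) (l 6)))) (b (a (a (l 16581696) (l 16571576)) (a (l 16616696) (a (l 16612024) (b (l 6) (l 16596664))))) (a (a (l 16561352) (l 16544232)) (a (l 16619336) (a (l 16572936) (b (l 16587712) (l 16600592)))))))),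 by decide +kernel⟩

def k3_pm_202 : ∃ t, chk3 f_pm_202 t 3 6 1 = true :=
  ⟨(a (b (a (b (a (l 16534784) (l 16549976)) (a (l 16510392) (l 16528648))) (b (a (l 16563008) (l 16558360)) (a (l 16544040) (l 16561624)))) (a (b (l 16489656) (l 16510312)) (a (b (l 16519848) (l 16488688)) (b (l 16520192) (l 16495480))))) (a (b (b (a (l 16539448) (l 16516992)) (a (l 16515384) (l 16504360))) (b (l 16566328) (a (l 16462488) (l 16491808)))) (b (a (b (l 16604008) (l 16592328)) (a (b (l 16558168) (b (l 16549752) (l 16545536))) (a (b (l 16566464) (b (l 16558448) (l 16554576))) (b (b (l 16575128) (c (l 16575400) (l 16562648))) (b (b (l 16584992) (c (l 16570608) (l 16555696))) (c (a (l 16566904) (b (c (l 16574992) (l 16566928)) (l 16569928))) (a (l 16551152) (l 16574680)))))))) (a (b (l 16564056) (l 16583736)) (a (b (l 16562568) (b (l 16541616) (l 16544272))) (b (a (b (l 16552056) (l 16551240)) (c (a (l 16565448) (b (l 16590104) (l 16569856))) (b (l 16549480) (l 16548216)))) (b (a (l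 16552480) (c (a (l 16568576) (l 16572848)) (l 16549000))) (a (l 16556032) (c (b (l 16574488) (l 16577848)) (l 16552072)))))))))), by decide +kernel⟩

def k4_pm_202 : ∃ t, chk3 f_pm_202 t 6 7 1 = true :=
  ⟨(b (b (a (l 16564048) (a (l 16478496) (l 16505728))) (a (a (l 16603352) (l 16552648)) (a (l 16498728) (l 16510128)))) (a (b (l 16620136) (l 16676744)) (b (a (l 16524408) (a (l 16473200) (l 16462944))) (a (l 16568320) (b (l 16482040) (l 16535976)))))), by decide +kernel⟩

def k5_pm_202 : ∃ t, chk3 f_pm_202 t 7 14 1 = true :=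
  ⟨(a (b (b (l 16562256) (l 16565000)) (a (l 16461336) (l 16540496))) (a (b (b (l 16524912) (l 16551816)) (b (l 16556536) (l 16602416))) (b (a (b (l 16549392) (l 16599296)) (a (b (l 16583160) (c (l 16584728) (l 16557944))) (b (c (a (l 16581712) (c (b (l 16591024) (l 16596336)) (l 16580016))) (a (l 16555800) (l 16559656))) (c (b (a (l 16589752) (c (a (l 16601040) (l 16603944)) (l 16587888))) (a (l 16596176) (a (l 16600440) (c (b (l 16609200) (l 16623480)) (l 16595584))))) (b (l 16584848) (b (l 16567608) (l 16591344))))))) (a (b (c (l 16577488) (l 16552208)) (c (l 16585104) (l 16558024))) (a (b (c (l 16594848) (l 16565696)) (c (l 16625096) (l 16572928))) (b (a (c (b (l 16601688) (l 16606120)) (l 16593624)) (c (a (b (l 16627128) (l 16631736)) (b (c (c (b (l 16620104) (l 16633016)) (b (l 16612080) (l 16614376))) (c (l 16605112) (l 16597024))) (b (c (c (b (l 16624424) (l 30)) (l 16616792)) (l 16604360)) (c (c (l 30) (l 16619336)) (l 16606704))))) (b (c (l 16583648) (l 16567648))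 (c (l 16608488) (l 16570984))))) (b (c (a (l 16611064) (c (a (l 16624328) (c (l 30) (b (a (l 16621192) (l 16630712)) (l 30)))) (a (l 16607424) (c (b (l 16613456) (l 16616136)) (b (l 16604896) (l 16607440)))))) (a (l 16578312) (c (b (l 16590720) (l 16593024)) (l 16574776)))) (c (a (l 16616552) (c (l 30) (a (l 16612808) (c (b (a (l 16618152) (l 16630256)) (l 30)) (b (l 16610120) (l 16612936)))))) (a (l 16582704) (a (l 16586608) (c (b (l 16596848) (l 16599456)) (l 16580312)))))))))))), by decide +kernel⟩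

def k6_pm_202 : ∃ t, chk3 f_pm_202 t 14 15 1 = true :=
  ⟨(b (a (l 16502352) (b (l 16501776) (l 16507536))) (a (b (l 16473864) (l 16521880)) (a (l 16528096) (l 16551264)))), by decide +kernel⟩

def k7_pm_202 : ∃ t, chk3 f_pm_202 t 30 15 1 = true :=
  ⟨(b (a (l 16559448) (b (l 16557448) (l 16567168))) (b (a (l 16553968) (l 16582096)) (a (l 16597656) (l 16624392)))), by decide +kernel⟩

def k8_pm_202 : ∃ t, chk3 f_pm_202 t 31 30 1 = true :=
  ⟨(a (b (c (l 16595352) (l 16566256)) (c (l 16615184) (l 16576528))) (a (b (c (l 16636528) (l 16582184)) (c (b (l 30) (l 16650576)) (l 16614664))) (b (a (c (b (l 16622616) (l 30)) (b (l 16587632) (l 16593120))) (a (c (b (c (l 30) (l 16618760)) (l 30)) (b (l 16591696) (l 16618320))) (c (b (c (l 30) (b (c (l 30) (a (l 16615104) (l 16627176))) (l 30))) (l 30)) (b (c (b (l 16612680) (b (l 16604344) (l 16626792))) (l 16606184)) (b (c (c (a (l 16612056) (l 16624096)) (l 16603400)) (l 16589248)) (c (c (l 30) (l 16606504)) (l 16592120)))))))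 (b (c (l 30) (a (l 16599200) (c (b (c (l 30) (c (l 30) (l 16616328))) (l 30)) (a (l 16593968) (a (l 16596040) (b (l 16595832) (l 16612136))))))) (c (b (l 30) (a (l 16668288) (c (c (l 16711720) (l 30)) (l 30)))) (a (l 16605896) (c (l 30) (a (l 16600520) (b (c (a (l 16605952) (l 16607432)) (l 16596632)) (c (l 30) (l 16600040))))))))))), by decide +kernel⟩

def k9_pm_202 : ∃ t, chk3 f_pm_202 t 31 31 1 = true :=
  ⟨(a (b (a (l 16604432) (l 16619912)) (b (l 16663984) (l 16651816))) (a (b (c (b (l 16671256) (l 16690824)) (l 16628656)) (c (b (l 16709352) (l 16726872)) (b (l 30) (l 16641688)))) (b (b (c (c (a (l 16706384) (a (l 16712512) (b (c (l 16723368) (l 30)) (l 16700320)))) (l 30)) (c (l 30) (a (l 16603256) (b (c (l 30) (b (l 16601280) (l 16613576))) (l 30))))) (c (a (l 16681688) (b (c (l 16707480) (l 30)) (c (l 16737400) (c (l 16693656) (l 30))))) (l 30))) (a (c (b (l 16699864) (l 16738016)) (b (l 30) (l 16621584))) (c (b (c (a (l 16748416) (l 16752288)) (b (c (l 16713248)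 (l 30)) (b (l 16688096) (l 16713496)))) (c (l 16766760) (b (l 16699064) (l 16728536)))) (b (l 30) (b (l 30) (c (a (l 16684480) (c (l 16698824) (l 30))) (l 30))))))))), by decide +kernel⟩

theorem s10_pm_202 : ∃ t, chk3 f_pm_202 t 31 15 1 = true := ex3_b k8_pm_202 k9_pm_202

theorem s11_pm_202 : ∃ t, chk3 f_pm_202 t 15 15 1 = true := ex3_a k7_pm_202 s10_pm_202

theorem s12_pm_202 : ∃ t, chk3 f_pm_202 t 7 15 1 = true := ex3_a k6_pm_202 s11_pm_202

theorem s13_pm_202 : ∃ t, chk3 f_pm_202 t 7 7 1 = true := ex3_b k5_pm_202 s12_pm_202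

theorem s14_pm_202 : ∃ t, chk3 f_pm_202 t 3 7 1 = true := ex3_a k4_pm_202 s13_pm_202

theorem s15_pm_202 : ∃ t, chk3 f_pm_202 t 3 3 1 = true := ex3_b k3_pm_202 s14_pm_202

theorem s16_pm_202 : ∃ t, chk3 f_pm_202 t 3 2 1 = true := ex3_b k1_pm_202 k2_pm_202

theorem s17_pm_202 : ∃ t, chk3 f_pm_202 t 3 1 1 = true := ex3_b s16_pm_202 s15_pm_202

theorem s18_pm_202 : ∃ t, chk3 f_pm_202 t 1 1 1 = true := ex3_a k0_pm_202 s17_pm_202

theorem c_pm_202 : CertF 0 536870912 0 536870912 469762048 67108864 true true false .pp 2 0 2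
    ndF0q2 ndF0q0 pcF2 cut_pm_202 Ext.none :=
  certF1 (fam := true) (s1 := true) (s2 := false) (a := 2) (b := 0) (c := 2) (cn := .pp) (n1 := ndF0q2) (n2 := ndF0q0) (pc := pcF2) (cut := cut_pm_202) (xt := Ext.none) (P1 := 0) (W1 := 536870912) (P2 := 0) (W2 := 536870912) (P3 := 469762048) (W3 := 67108864)
    rfl (fun _ => rfl) s18_pm_202

noncomputable def cut_pm_203 : Cut := Cut.of [[⟨3, 0, 0, 1449551462⟩], [⟨4, 0, 0, 2845415833⟩], [⟨0, 1, 0, 33554432⟩, ⟨1, 0, 1, 33554432⟩, ⟨2, 1, 1, 33554432⟩]]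

noncomputable def f_pm_203 : ℕ → ℕ → ℕ → ℕ → Bool := onCell 0 536870912 1610612736 536870912 469762048 67108864
    (rowF 1 true true false .up 2 0 3 (qsf 0 536870912 0 536870912 3) ndF0q2 ndF0q0 pcF3 cut_pm_203 Ext.none)

def k0_pm_203 : ∃ t, chk3 f_pm_203 t 1 1 1 = true :=
  ⟨(a (b (b (a (b (a (b (a (l 16722824) (l 16727760)) (a (l 16767008) (l 16774760))) (b (b (a (l 16722688) (l 16733144)) (l 16755544)) (l 16793928))) (a (b (a (l 16795800) (l 16807464)) (l 16795208)) (b (l 16831904) (l 16850104)))) (b (a (b (a (b (a (l 16741448) (l 16739008)) (l 16773424)) (b (l 16728760) (l 16764512))) (a (l 16819096) (l 16821552))) (b (b (l 16711768) (l 16745456)) (l 16802872))) (a (b (l 16869608) (l 16894368)) (b (l 16865000) (l 16904080))))) (b (a (a (l 14) (b (l 16852688) (l 2))) (b (a (l 16896968) (l 16941352)) (l 2))) (l 2))) (l 2)) (b (b (a (b (b (a (b (l 16697128) (l 16731704)) (a (l 16711904) (l 16691888))) (a (b (l 16768144) (l 16804904)) (a (l 16779152) (l 16755160))))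 (a (b (l 16848920) (l 16889056)) (b (a (l 16841736) (l 16839168)) (l 157941077863)))) (b (a (b (a (b (l 16703552) (l 16727912)) (b (l 16709848) (l 16735312))) (a (b (l 16758880) (l 16795504)) (b (l 16766840) (l 16802928)))) (a (b (b (a (l 16715680) (l 16720016)) (a (l 16742528) (l 16747824))) (b (a (l 16774520) (l 2)) (l 2))) (b (b (b (b (a (l 16713016) (a (l 16674352) (c (a (l 16759104) (c (l 16781296) (l 16739856))) (a (l 16676896) (c (c (l 16708784) (l 22)) (l 22)))))) (a (l 16720816) (c (l 116064690343) (l 123580698439)))) (a (a (l 16730832) (l 16733336)) (a (l 114453939447) (l 2)))) (a (a (l 16751984) (l 2)) (l 2))) (l 2)))) (a (b (a (a (l 16837640) (l 16840208)) (l 2)) (l 2)) (l 2)))) (a (l 2) (l 2))) (l 2))), by decide +kernel⟩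

theorem c_pm_203 : CertF 0 536870912 0 536870912 469762048 67108864 true true false .up 2 0 3
    ndF0q2 ndF0q0 pcF3 cut_pm_203 Ext.none :=
  certF1 (fam := true) (s1 := true) (s2 := false) (a := 2) (b := 0) (c := 3) (cn := .up) (n1 := ndF0q2) (n2 := ndF0q0) (pc := pcF3) (cut := cut_pm_203) (xt := Ext.none) (P1 := 0) (W1 := 536870912) (P2 := 0) (W2 := 536870912) (P3 := 469762048) (W3 := 67108864)
    rfl (fun _ => rfl) k0_pm_203

noncomputable def cut_pm_213 : Cut := Cut.of [[⟨3, 0, 0, 1449551462⟩], [⟨4, 0, 0, 2845415833⟩], [⟨0, 1, 0, 67108864⟩, ⟨1, 1, 0, 67108864⟩, ⟨2, 2, 0, 16777216⟩], [⟨0, 1, 0, 33554432⟩, ⟨1, 0, 1, 33554432⟩, ⟨2, 1, 1, 33554432⟩]]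

noncomputable def f_pm_213 : ℕ → ℕ → ℕ → ℕ → Bool := onCell 0 536870912 1610612736 536870912 469762048 67108864
    (rowF 1 true true false .pnn 2 1 3 (qsf 0 536870912 536870912 536870912 3) ndF0q2 ndF0q1 pcF3 cut_pm_213 Ext.none)

def k0_pm_213 : ∃ t, chk3 f_pm_213 t 2 1 1 = true :=
  ⟨(b (b (a (l 1) (b (l 1) (a (l 1) (b (l 1) (l 16903952))))) (a (b (a (l 14) (b (l 16852632) (l 14))) (l 14)) (b (b (a (l 16896912) (l 16941320)) (a (b (l 16888824) (a (l 16869840) (l 16891232))) (a (b (l 16921320) (l 16913592)) (b (l 16922440) (l 16920712))))) (b (a (a (l 14) (b (l 16881296) (l 16870840))) (a (b (l 16902752) (c (l 16915160) (l 16887856))) (b (a (l 16900000) (l 16916208)) (a (b (l 16909232) (l 16903448)) (b (l 16911936) (l 16908312)))))) (a (l 14) (b (b (a (l 16881936) (a (l 16896864) (a (l 16903464) (l 16904720)))) (a (l 16875888) (a (l 16890304) (a (l 16897696) (l 16900256))))) (a (l 14) (a (c (l 16883728) (l 16877432)) (c (b (a (l 16894152) (l 16898296)) (l 16889928))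 (l 16870976)))))))))) (b (b (a (l 14) (a (l 14) (b (a (l 14) (a (l 14) (b (b (l 16879992) (l 14)) (l 14)))) (l 14)))) (l 14)) (l 14))), by decide +kernel⟩

def k1_pm_213 : ∃ t, chk3 f_pm_213 t 6 4 1 = true :=
  ⟨(b (l 1) (a (b (l 1) (l 16888976)) (b (a (l 16841656) (l 16839112)) (a (l 16882600) (l 16880856))))), by decide +kernel⟩

def k2_pm_213 : ∃ t, chk3 f_pm_213 t 14 8 1 = true :=
  ⟨(b (l 1) (a (b (l 1) (l 16795472)) (b (l 46204384199) (l 16802904)))), by decide +kernel⟩

def k3_pm_213 : ∃ t, chk3 f_pm_213 t 30 8 1 = true :=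
  ⟨(b (b (l 1) (a (l 16742496) (b (l 16741032) (l 16754104)))) (b (a (l 16774504) (b (l 16770440) (l 16789624))) (a (l 16810072) (l 16815456)))), by decide +kernel⟩

def k4_pm_213 : ∃ t, chk3 f_pm_213 t 31 8 1 = true :=
  ⟨(b (a (b (a (l 16723408) (c (l 16765080) (l 16686536))) (a (l 16751976) (b (l 16747776) (l 16761456)))) (a (b (b (c (l 16760712) (l 16679968)) (c (l 16775304) (l 16696528))) (c (b (l 16789056) (l 16802048)) (b (l 16712200) (l 16727056)))) (b (b (a (c (l 16762936) (l 16628808)) (c (a (l 16764064) (b (l 16739968) (l 16768640))) (c (a (l 16681456) (b (c (l 16709056) (l 30)) (a (l 16707008) (l 16686304)))) (l 30)))) (a (c (l 16777720) (l 16635112)) (b (c (l 16775712) (a (l 16673680) (c (l 16715384) (l 30)))) (c (l 16782960) (a (l 16681896) (c (l 16723392) (c (l 16693400) (l 30)))))))) (c (b (a (l 16791664) (l 16772456)) (a (l 16804824) (l 16806712))) (a (b (c (l 16733344) (l 16694488)) (l 16708008)) (a (b (b (l 16689896) (l 16718648)) (c (l 16749024)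 (l 16710880))) (b (c (b (l 16731184) (l 16738752)) (b (c (l 16701560) (l 30)) (b (l 16697752) (l 16701720)))) (c (l 16749752) (b (l 16686608) (l 16715216)))))))))) (a (b (b (c (l 16811984) (l 16740968)) (l 16795432)) (c (l 16853384) (l 16789216))) (a (b (b (c (l 16817448) (l 16744808)) (l 16800056)) (l 16825912)) (b (c (b (l 16821264) (l 16838784)) (a (b (l 16746816) (l 16767160)) (c (b (l 16766696) (l 16786360)) (a (b (l 16729368) (l 16750440)) (b (b (l 16724512) (l 16724920)) (c (l 16760000) (a (l 16742008) (b (l 16737088) (c (l 16751872) (l 16743032)))))))))) (c (a (l 16861728) (l 16842768)) (a (l 16795152) (b (c (l 16804688) (a (l 16770136) (c (l 16779368) (a (l 16762064) (b (l 16747000) (l 16767184)))))) (a (l 16804944) (b (c (l 16818024) (l 16763752)) (l 16788968)))))))))), by decide +kernel⟩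

def k5_pm_213 : ∃ t, chk3 f_pm_213 t 7 9 1 = true :=
  ⟨(a (b (a (a (l 16837616) (l 16840192)) (b (l 16833024) (l 16858264))) (a (a (l 16880608) (l 16882504)) (l 16888384))) (b (a (a (l 16853392) (l 16858688)) (a (b (l 16851352) (l 16877152)) (b (a (l 16856256) (c (l 16890648) (b (a (l 16820336) (c (l 16837656) (l 16806040))) (l 16836448)))) (a (l 16882240) (c (l 16914368) (l 16857424)))))) (a (a (l 16896088) (l 16902024)) (a (l 16908592) (b (l 16906152) (c (l 16948400) (l 16900648))))))), by decide +kernel⟩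

def k6_pm_213 : ∃ t, chk3 f_pm_213 t 3 5 1 = true :=
  ⟨(a (b (a (b (l 16910504) (a (l 16918432) (l 16917152))) (b (a (l 16906792) (l 16906664)) (l 16919248))) (a (b (a (b (l 16915744) (l 16911152)) (l 16915640)) (a (b (a (l 16903720) (l 16905480)) (a (b (l 16897368) (c (a (l 16895240) (l 16897120)) (l 16889136))) (l 16897912))) (l 16927168))) (b (a (l 16919168) (l 16924616)) (a (l 16913360) (l 16921776))))) (b (a (b (a (l 16908568) (l 16916800)) (a (b (l 16921760) (l 16927368)) (b (l 16930400) (l 16936720)))) (a (b (b (l 16922176) (l 16933776)) (c (l 16962656) (b (l 16926648) (l 16956168)))) (b (a (b (l 16932128) (l 16944320)) (c (l 16967520) (b (a (l 16916088) (l 16919712)) (a (l 16930416) (l 16934320))))) (a (c (l 16974928) (b (l 16936640) (l 16946040))) (c (l 16984376) (a (b (l 16942416) (l 16952144)) (b (l 16946568) (a (l 16955376) (l 16957608))))))))) (a (b (a (a (l 16929896) (l 16933976)) (a (b (l 16937720) (l 16940192)) (a (l 16944072) (l 16947584)))) (b (a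 (l 16932576) (a (a (l 16939488) (l 16942728)) (l 16948240))) (a (l 16931224) (a (a (l 16938864) (b (l 16942456) (a (l 16940968) (l 16942728)))) (c (l 16956576) (c (l 16943568) (l 16935024))))))) (b (a (a (b (l 16951272) (l 16954488)) (b (l 16959048) (l 16962536))) (c (a (l 16983048) (l 16992792)) (a (b (l 16953336) (l 16958592)) (a (b (l 16959680) (l 16965088)) (b (a (l 16963016) (l 16965304)) (l 16969648)))))) (a (c (b (l 16970640) (l 16969144)) (b (a (l 16945720) (l 16953528)) (c (l 16955424) (a (l 16942376) (l 16950152))))) (c (b (l 16989064) (l 16987208)) (b (a (c (l 16967408) (l 16956304)) (a (l 16968424) (l 16973064))) (a (c (l 16968056) (l 16958408)) (a (l 16969736) (l 16974184)))))))))), by decide +kernel⟩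

def k7_pm_213 : ∃ t, chk3 f_pm_213 t 3 3 1 = true :=
  ⟨(b (a (b (a (b (a (b (a (a (b (a (l 16885744) (l 16887240)) (l 16880384)) (b (l 16888688) (c (l 16886984) (l 16880240)))) (l 16888888)) (a (l 14) (b (l 16881704) (a (l 14) (l 16877912))))) (b (l 16894792) (l 16885656))) (a (l 14) (b (a (l 16874112) (l 16878760)) (l 14)))) (b (a (l 16899576) (l 16910200)) (a (b (l 16886368) (l 16877464)) (l 16893360)))) (a (l 14) (b (a (l 14) (b (l 16879744) (l 14))) (l 14)))) (b (a (b (a (b (l 16926104) (l 16918064)) (c (a (b (l 16943504) (l 16935120)) (b (l 16951328) (l 16943000))) (b (b (a (a (l 16928600) (c (l 16935688) (l 16928104))) (l 16937440)) (a (l 16926640) (l 16934000))) (a (l 16921088) (l 16928456))))) (a (l 16905560) (a (b (l 16919632) (l 16910680)) (b (l 16927160) (l 16917800))))) (c (b (a (b (l 16964368) (l 16956600)) (b (l 16982280) (l 16974768))) (a (l 16943016) (l 17002872))) (b (b (a (a (b (l 16945304) (l 16942304)) (b (l 16953528) (l 16950824))) (a (b (l 16962000)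 (l 16959488)) (b (l 16970656) (l 16968192)))) (a (a (l 16937288) (l 16946144)) (a (l 16954952) (l 16963728)))) (b (a (l 16934184) (l 16952128)) (a (l 16925336) (l 16943464)))))) (a (a (b (l 16886944) (l 14)) (b (a (l 16896056) (b (l 16907808) (l 16897312))) (b (l 16883480) (l 14)))) (a (a (b (l 16911160) (b (l 16893904) (l 14))) (b (l 16920488) (l 16897216))) (a (b (l 16929440) (l 16905768)) (b (l 16937968) (l 16913592))))))) (b (a (l 14) (l 14)) (l 14))), by decide +kernel⟩

theorem s8_pm_213 : ∃ t, chk3 f_pm_213 t 15 8 1 = true := ex3_a k3_pm_213 k4_pm_213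

theorem s9_pm_213 : ∃ t, chk3 f_pm_213 t 7 8 1 = true := ex3_a k2_pm_213 s8_pm_213

theorem s10_pm_213 : ∃ t, chk3 f_pm_213 t 7 4 1 = true := ex3_b s9_pm_213 k5_pm_213

theorem s11_pm_213 : ∃ t, chk3 f_pm_213 t 3 4 1 = true := ex3_a k1_pm_213 s10_pm_213

theorem s12_pm_213 : ∃ t, chk3 f_pm_213 t 3 2 1 = true := ex3_b s11_pm_213 k6_pm_213

theorem s13_pm_213 : ∃ t, chk3 f_pm_213 t 3 1 1 = true := ex3_b s12_pm_213 k7_pm_213

theorem s14_pm_213 : ∃ t, chk3 f_pm_213 t 1 1 1 = true := ex3_a k0_pm_213 s13_pm_213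

theorem c_pm_213 : CertF 0 536870912 536870912 536870912 469762048 67108864 true true false .pnn 2 1 3
    ndF0q2 ndF0q1 pcF3 cut_pm_213 Ext.none :=
  certF1 (fam := true) (s1 := true) (s2 := false) (a := 2) (b := 1) (c := 3) (cn := .pnn) (n1 := ndF0q2) (n2 := ndF0q1) (pc := pcF3) (cut := cut_pm_213) (xt := Ext.none) (P1 := 0) (W1 := 536870912) (P2 := 536870912) (W2 := 536870912) (P3 := 469762048) (W3 := 67108864)
    rfl (fun _ => rfl) s14_pm_213

noncomputable def cut_mm_001 : Cut := Cut.of [[⟨3, 0, 0, 1449551462⟩], [⟨4, 0, 0, 2845415833⟩]]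

noncomputable def f_mm_001 : ℕ → ℕ → ℕ → ℕ → Bool := onCell 0 536870912 0 536870912 469762048 67108864
    (rowF 0 true false false .up 0 0 1 (qsf 0 536870912 0 536870912 1) ndF0q0 ndF0q0 pcF1 cut_mm_001 Ext.none)

def k0_mm_001 : ∃ t, chk3 f_mm_001 t 1 1 1 = true :=
  ⟨(l 4), by decide +kernel⟩

theorem c_mm_001 : CertF 0 536870912 0 536870912 469762048 67108864 true false false .up 0 0 1
    ndF0q0 ndF0q0 pcF1 cut_mm_001 Ext.none :=
  certF0 (fam := true) (s1 := false) (s2 := false) (a := 0) (b := 0) (c := 1) (cn := .up) (n1 := ndF0q0) (n2 := ndF0q0) (pc := pcF1) (cut := cut_mm_001) (xt := Ext.none) (P1 := 0) (W1 := 536870912) (P2 := 0) (W2 := 536870912) (P3 := 469762048) (W3 := 67108864)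
    rfl k0_mm_001

noncomputable def cut_mm_011 : Cut := Cut.of [[⟨3, 0, 0, 1449551462⟩], [⟨4, 0, 0, 2845415833⟩]]

noncomputable def f_mm_011 : ℕ → ℕ → ℕ → ℕ → Bool := onCell 0 536870912 536870912 536870912 469762048 67108864
    (rowF 0 true false false .pnn 0 1 1 (qsf 0 536870912 536870912 536870912 1) ndF0q0 ndF0q1 pcF1 cut_mm_011 Ext.none)

def k0_mm_011 : ∃ t, chk3 f_mm_011 t 1 1 1 = true :=
  ⟨(l 14), by decide +kernel⟩

theorem c_mm_011 : CertF 0 536870912 536870912 536870912 469762048 67108864 true false false .pnn 0 1 1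
    ndF0q0 ndF0q1 pcF1 cut_mm_011 Ext.none :=
  certF0 (fam := true) (s1 := false) (s2 := false) (a := 0) (b := 1) (c := 1) (cn := .pnn) (n1 := ndF0q0) (n2 := ndF0q1) (pc := pcF1) (cut := cut_mm_011) (xt := Ext.none) (P1 := 0) (W1 := 536870912) (P2 := 536870912) (W2 := 536870912) (P3 := 469762048) (W3 := 67108864)
    rfl k0_mm_011

noncomputable def cut_mm_012 : Cut := Cut.of [[⟨3, 0, 0, 1449551462⟩], [⟨4, 0, 0, 2845415833⟩]]

noncomputable def f_mm_012 : ℕ → ℕ → ℕ → ℕ → Bool := onCell 0 536870912 536870912 536870912 469762048 67108864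
    (rowF 0 true false false .pnp 0 1 2 (qsf 0 536870912 536870912 536870912 2) ndF0q0 ndF0q1 pcF2 cut_mm_012 Ext.none)

def k0_mm_012 : ∃ t, chk3 f_mm_012 t 1 1 1 = true :=
  ⟨(l 14), by decide +kernel⟩

theorem c_mm_012 : CertF 0 536870912 536870912 536870912 469762048 67108864 true false false .pnp 0 1 2
    ndF0q0 ndF0q1 pcF2 cut_mm_012 Ext.none :=
  certF0 (fam := true) (s1 := false) (s2 := false) (a := 0) (b := 1) (c := 2) (cn := .pnp) (n1 := ndF0q0) (n2 := ndF0q1) (pc := pcF2) (cut := cut_mm_012) (xt := Ext.none) (P1 := 0) (W1 := 536870912) (P2 := 536870912) (W2 := 536870912) (P3 := 469762048) (W3 := 67108864)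
    rfl k0_mm_012

noncomputable def cut_mm_022 : Cut := Cut.of [[⟨3, 0, 0, 1449551462⟩], [⟨4, 0, 0, 2845415833⟩]]

noncomputable def f_mm_022 : ℕ → ℕ → ℕ → ℕ → Bool := onCell 0 536870912 0 536870912 469762048 67108864
    (rowF 0 true false false .pp 0 2 2 (qsf 0 536870912 0 536870912 2) ndF0q0 ndF0q2 pcF2 cut_mm_022 Ext.none)

def k0_mm_022 : ∃ t, chk3 f_mm_022 t 1 1 1 = true :=
  ⟨(l 5), by decide +kernel⟩

theorem c_mm_022 : CertF 0 536870912 0 536870912 469762048 67108864 true false false .pp 0 2 2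
    ndF0q0 ndF0q2 pcF2 cut_mm_022 Ext.none :=
  certF0 (fam := true) (s1 := false) (s2 := false) (a := 0) (b := 2) (c := 2) (cn := .pp) (n1 := ndF0q0) (n2 := ndF0q2) (pc := pcF2) (cut := cut_mm_022) (xt := Ext.none) (P1 := 0) (W1 := 536870912) (P2 := 0) (W2 := 536870912) (P3 := 469762048) (W3 := 67108864)
    rfl k0_mm_022

noncomputable def cut_mm_023 : Cut := Cut.of [[⟨3, 0, 0, 1449551462⟩], [⟨4, 0, 0, 2845415833⟩]]

noncomputable def f_mm_023 : ℕ → ℕ → ℕ → ℕ → Bool := onCell 0 536870912 0 536870912 469762048 67108864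
    (rowF 0 true false false .up 0 2 3 (qsf 0 536870912 0 536870912 3) ndF0q0 ndF0q2 pcF3 cut_mm_023 Ext.none)

def k0_mm_023 : ∃ t, chk3 f_mm_023 t 1 1 1 = true :=
  ⟨(l 5), by decide +kernel⟩

theorem c_mm_023 : CertF 0 536870912 0 536870912 469762048 67108864 true false false .up 0 2 3
    ndF0q0 ndF0q2 pcF3 cut_mm_023 Ext.none :=
  certF0 (fam := true) (s1 := false) (s2 := false) (a := 0) (b := 2) (c := 3) (cn := .up) (n1 := ndF0q0) (n2 := ndF0q2) (pc := pcF3) (cut := cut_mm_023) (xt := Ext.none) (P1 := 0) (W1 := 536870912) (P2 := 0) (W2 := 536870912) (P3 := 469762048) (W3 := 67108864)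
    rfl k0_mm_023

noncomputable def cut_mm_101 : Cut := Cut.of [[⟨3, 0, 0, 1449551462⟩], [⟨4, 0, 0, 2845415833⟩], [⟨0, 1, 0, 67108864⟩, ⟨1, 0, 0, 67108864⟩, ⟨2, 1, 0, 67108864⟩]]

noncomputable def f_mm_101 : ℕ → ℕ → ℕ → ℕ → Bool := onCell 536870912 536870912 0 536870912 469762048 67108864
    (rowF 0 true false false .npn 1 0 1 (qsf 536870912 536870912 0 536870912 1) ndF0q1 ndF0q0 pcF1 cut_mm_101 Ext.none)

def k0_mm_101 : ∃ t, chk3 f_mm_101 t 1 1 1 = true :=
  ⟨(l 14), by decide +kernel⟩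

theorem c_mm_101 : CertF 536870912 536870912 0 536870912 469762048 67108864 true false false .npn 1 0 1
    ndF0q1 ndF0q0 pcF1 cut_mm_101 Ext.none :=
  certF0 (fam := true) (s1 := false) (s2 := false) (a := 1) (b := 0) (c := 1) (cn := .npn) (n1 := ndF0q1) (n2 := ndF0q0) (pc := pcF1) (cut := cut_mm_101) (xt := Ext.none) (P1 := 536870912) (W1 := 536870912) (P2 := 0) (W2 := 536870912) (P3 := 469762048) (W3 := 67108864)
    rfl k0_mm_101

noncomputable def cut_mm_102 : Cut := Cut.of [[⟨3, 0, 0, 1449551462⟩], [⟨4, 0, 0, 2845415833⟩], [⟨0, 1, 0, 67108864⟩, ⟨1, 0, 0, 67108864⟩, ⟨2, 1, 0, 67108864⟩]]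

noncomputable def f_mm_102 : ℕ → ℕ → ℕ → ℕ → Bool := onCell 536870912 536870912 0 536870912 469762048 67108864
    (rowF 0 true false false .npp 1 0 2 (qsf 536870912 536870912 0 536870912 2) ndF0q1 ndF0q0 pcF2 cut_mm_102 Ext.none)

def k0_mm_102 : ∃ t, chk3 f_mm_102 t 1 1 1 = true :=
  ⟨(l 14), by decide +kernel⟩

theorem c_mm_102 : CertF 536870912 536870912 0 536870912 469762048 67108864 true false false .npp 1 0 2
    ndF0q1 ndF0q0 pcF2 cut_mm_102 Ext.none :=
  certF0 (fam := true) (s1 := false) (s2 := false) (a := 1) (b := 0) (c := 2) (cn := .npp) (n1 := ndF0q1) (n2 := ndF0q0) (pc := pcF2) (cut := cut_mm_102) (xt := Ext.none) (P1 := 536870912) (W1 := 536870912) (P2 := 0) (W2 := 536870912) (P3 := 469762048) (W3 := 67108864)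
    rfl k0_mm_102

noncomputable def cut_mm_112 : Cut := Cut.of [[⟨3, 0, 0, 1449551462⟩], [⟨4, 0, 0, 2845415833⟩]]

noncomputable def f_mm_112 : ℕ → ℕ → ℕ → ℕ → Bool := onCell 536870912 536870912 536870912 536870912 469762048 67108864
    (rowF 0 true false false .dn 1 1 2 (qsf 536870912 536870912 536870912 536870912 2) ndF0q1 ndF0q1 pcF2 cut_mm_112 Ext.none)

def k0_mm_112 : ∃ t, chk3 f_mm_112 t 1 1 1 = true :=
  ⟨(l 4), by decide +kernel⟩

theorem c_mm_112 : CertF 536870912 536870912 536870912 536870912 469762048 67108864 true false false .dn 1 1 2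
    ndF0q1 ndF0q1 pcF2 cut_mm_112 Ext.none :=
  certF0 (fam := true) (s1 := false) (s2 := false) (a := 1) (b := 1) (c := 2) (cn := .dn) (n1 := ndF0q1) (n2 := ndF0q1) (pc := pcF2) (cut := cut_mm_112) (xt := Ext.none) (P1 := 536870912) (W1 := 536870912) (P2 := 536870912) (W2 := 536870912) (P3 := 469762048) (W3 := 67108864)
    rfl k0_mm_112

noncomputable def cut_mm_113 : Cut := Cut.of [[⟨3, 0, 0, 1449551462⟩], [⟨4, 0, 0, 2845415833⟩]]

noncomputable def f_mm_113 : ℕ → ℕ → ℕ → ℕ → Bool := onCell 536870912 536870912 536870912 536870912 469762048 67108864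
    (rowF 0 true false false .nn 1 1 3 (qsf 536870912 536870912 536870912 536870912 3) ndF0q1 ndF0q1 pcF3 cut_mm_113 Ext.none)

def k0_mm_113 : ∃ t, chk3 f_mm_113 t 1 1 1 = true :=
  ⟨(l 4), by decide +kernel⟩

theorem c_mm_113 : CertF 536870912 536870912 536870912 536870912 469762048 67108864 true false false .nn 1 1 3
    ndF0q1 ndF0q1 pcF3 cut_mm_113 Ext.none :=
  certF0 (fam := true) (s1 := false) (s2 := false) (a := 1) (b := 1) (c := 3) (cn := .nn) (n1 := ndF0q1) (n2 := ndF0q1) (pc := pcF3) (cut := cut_mm_113) (xt := Ext.none) (P1 := 536870912) (W1 := 536870912) (P2 := 536870912) (W2 := 536870912) (P3 := 469762048) (W3 := 67108864)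
    rfl k0_mm_113

noncomputable def cut_mm_123 : Cut := Cut.of [[⟨3, 0, 0, 1449551462⟩], [⟨4, 0, 0, 2845415833⟩]]

noncomputable def f_mm_123 : ℕ → ℕ → ℕ → ℕ → Bool := onCell 536870912 536870912 0 536870912 469762048 67108864
    (rowF 0 true false false .npn 1 2 3 (qsf 536870912 536870912 0 536870912 3) ndF0q1 ndF0q2 pcF3 cut_mm_123 Ext.none)

def k0_mm_123 : ∃ t, chk3 f_mm_123 t 1 1 1 = true :=
  ⟨(a (l 5) (l 4)), by decide +kernel⟩

theorem c_mm_123 : CertF 536870912 536870912 0 536870912 469762048 67108864 true false false .npn 1 2 3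
    ndF0q1 ndF0q2 pcF3 cut_mm_123 Ext.none :=
  certF0 (fam := true) (s1 := false) (s2 := false) (a := 1) (b := 2) (c := 3) (cn := .npn) (n1 := ndF0q1) (n2 := ndF0q2) (pc := pcF3) (cut := cut_mm_123) (xt := Ext.none) (P1 := 536870912) (W1 := 536870912) (P2 := 0) (W2 := 536870912) (P3 := 469762048) (W3 := 67108864)
    rfl k0_mm_123

noncomputable def cut_mm_202 : Cut := Cut.of [[⟨3, 0, 0, 1449551462⟩], [⟨4, 0, 0, 2845415833⟩], [⟨0, 1, 0, 67108864⟩, ⟨1, 0, 0, 67108864⟩, ⟨2, 1, 0, 67108864⟩]]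

noncomputable def f_mm_202 : ℕ → ℕ → ℕ → ℕ → Bool := onCell 0 536870912 0 536870912 469762048 67108864
    (rowF 0 true false false .pp 2 0 2 (qsf 0 536870912 0 536870912 2) ndF0q2 ndF0q0 pcF2 cut_mm_202 Ext.none)

def k0_mm_202 : ∃ t, chk3 f_mm_202 t 1 1 1 = true :=
  ⟨(a (b (b (a (b (a (b (a (l 16487680) (l 16489640)) (l 16475008)) (b (b (l 16500552) (l 16498784)) (l 16494600))) (a (b (l 16512816) (l 16556024)) (b (l 16519376) (l 16581040)))) (b (a (b (b (l 16521792) (l 16524008)) (a (l 16516832) (l 16535168))) (b (b (a (l 16542952) (l 16559048)) (a (l 16548032) (l 16565824))) (a (l 16596776) (b (l 16572224) (l 16578344))))) (a (b (l 16554312) (l 16571640)) (b (a (l 16562832) (l 16587152)) (l 16654240))))) (a (b (a (b (l 16599432) (l 16642136)) (b (l 16600632) (l 16640144))) (a (b (l 16683304) (l 16722152)) (b (l 16677712) (l 16712488)))) (b (a (b (l 16672480) (l 16688080)) (a (b (l 16623400) (l 16678896)) (b (l 16658912) (l 14)))) (a (b (a (l 16678368) (l 16682368))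 (a (l 16710296) (l 14))) (l 14))))) (a (b (b (a (b (l 16778896) (a (l 16795344) (l 16783720))) (b (l 16743656) (a (l 16773880) (l 14)))) (a (b (a (l 16823928) (l 16809152)) (a (l 16847688) (l 14))) (l 14))) (l 2)) (l 14))) (b (b (a (b (a (b (a (b (a (l 16572000) (l 16581232)) (l 16584984)) (b (b (a (l 16588544) (l 16598584)) (l 16598552)) (a (l 16600304) (l 16611160)))) (a (b (l 16592968) (l 16600736)) (b (a (l 16609368) (l 16620904)) (l 16645376)))) (b (a (a (b (b (l 16609152) (l 16614560)) (l 14)) (l 14)) (l 14)) (l 14))) (a (b (a (b (l 16608368) (l 16615968)) (l 14)) (l 14)) (l 14))) (l 14)) (l 14)) (l 14))), by decide +kernel⟩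

theorem c_mm_202 : CertF 0 536870912 0 536870912 469762048 67108864 true false false .pp 2 0 2
    ndF0q2 ndF0q0 pcF2 cut_mm_202 Ext.none :=
  certF0 (fam := true) (s1 := false) (s2 := false) (a := 2) (b := 0) (c := 2) (cn := .pp) (n1 := ndF0q2) (n2 := ndF0q0) (pc := pcF2) (cut := cut_mm_202) (xt := Ext.none) (P1 := 0) (W1 := 536870912) (P2 := 0) (W2 := 536870912) (P3 := 469762048) (W3 := 67108864)
    rfl k0_mm_202

noncomputable def cut_mm_203 : Cut := Cut.of [[⟨3, 0, 0, 1449551462⟩], [⟨4, 0, 0, 2845415833⟩]]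

noncomputable def f_mm_203 : ℕ → ℕ → ℕ → ℕ → Bool := onCell 0 536870912 1610612736 536870912 469762048 67108864
    (rowF 1 true false false .up 2 0 3 (qsf 0 536870912 0 536870912 3) ndF0q2 ndF0q0 pcF3 cut_mm_203 Ext.none)

def k0_mm_203 : ∃ t, chk3 f_mm_203 t 1 1 1 = true :=
  ⟨(a (b (b (a (b (a (b (a (l 16742232) (l 14)) (l 14)) (l 14)) (l 14)) (l 14)) (l 14)) (l 2)) (l 14)), by decide +kernel⟩

theorem c_mm_203 : CertF 0 536870912 0 536870912 469762048 67108864 true false false .up 2 0 3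
    ndF0q2 ndF0q0 pcF3 cut_mm_203 Ext.none :=
  certF1 (fam := true) (s1 := false) (s2 := false) (a := 2) (b := 0) (c := 3) (cn := .up) (n1 := ndF0q2) (n2 := ndF0q0) (pc := pcF3) (cut := cut_mm_203) (xt := Ext.none) (P1 := 0) (W1 := 536870912) (P2 := 0) (W2 := 536870912) (P3 := 469762048) (W3 := 67108864)
    rfl (fun _ => rfl) k0_mm_203

noncomputable def cut_mm_213 : Cut := Cut.of [[⟨3, 0, 0, 1449551462⟩], [⟨4, 0, 0, 2845415833⟩]]

noncomputable def f_mm_213 : ℕ → ℕ → ℕ → ℕ → Bool := onCell 0 536870912 536870912 536870912 469762048 67108864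
    (rowF 0 true false false .pnn 2 1 3 (qsf 0 536870912 536870912 536870912 3) ndF0q2 ndF0q1 pcF3 cut_mm_213 Ext.none)

def k0_mm_213 : ∃ t, chk3 f_mm_213 t 1 1 1 = true :=
  ⟨(a (l 14) (l 4)), by decide +kernel⟩

theorem c_mm_213 : CertF 0 536870912 536870912 536870912 469762048 67108864 true false false .pnn 2 1 3
    ndF0q2 ndF0q1 pcF3 cut_mm_213 Ext.none :=
  certF0 (fam := true) (s1 := false) (s2 := false) (a := 2) (b := 1) (c := 3) (cn := .pnn) (n1 := ndF0q2) (n2 := ndF0q1) (pc := pcF3) (cut := cut_mm_213) (xt := Ext.none) (P1 := 0) (W1 := 536870912) (P2 := 536870912) (W2 := 536870912) (P3 := 469762048) (W3 := 67108864)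
    rfl k0_mm_213

end Pool.Agent.Strip051.G.I7_16_1_2.Tab.C.FA00

namespace Pool.Agent.Strip051.G.I7_16_1_2.Tab.C.FA01

open Pool.Agent.Strip051.PB Pool.Agent.Strip051.PB.T
open Pool.Agent.Strip051.G.I7_16_1_2.Tab

noncomputable def f_pp_001 : ℕ → ℕ → ℕ → ℕ → Bool := onCell 0 536870912 0 536870912 469762048 67108864
    (rowF 0 true true true .up 0 0 1 (qsf 0 536870912 0 536870912 1) ndF0q0 ndF1q0 pcF1 Cut.none Ext.none)

def k0_pp_001 : ∃ t, chk3 f_pp_001 t 1 1 1 = true :=
  ⟨(l 4), by decide +kernel⟩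

theorem c_pp_001 : CertF 0 536870912 0 536870912 469762048 67108864 true true true .up 0 0 1
    ndF0q0 ndF1q0 pcF1 Cut.none Ext.none :=
  certF0 (fam := true) (s1 := true) (s2 := true) (a := 0) (b := 0) (c := 1) (cn := .up) (n1 := ndF0q0) (n2 := ndF1q0) (pc := pcF1) (cut := Cut.none) (xt := Ext.none) (P1 := 0) (W1 := 536870912) (P2 := 0) (W2 := 536870912) (P3 := 469762048) (W3 := 67108864)
    rfl k0_pp_001

noncomputable def f_pp_011 : ℕ → ℕ → ℕ → ℕ → Bool := onCell 0 536870912 536870912 536870912 469762048 67108864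
    (rowF 0 true true true .pnn 0 1 1 (qsf 0 536870912 536870912 536870912 1) ndF0q0 ndF1q1 pcF1 Cut.none Ext.none)

def k0_pp_011 : ∃ t, chk3 f_pp_011 t 1 1 1 = true :=
  ⟨(l 4), by decide +kernel⟩

theorem c_pp_011 : CertF 0 536870912 536870912 536870912 469762048 67108864 true true true .pnn 0 1 1
    ndF0q0 ndF1q1 pcF1 Cut.none Ext.none :=
  certF0 (fam := true) (s1 := true) (s2 := true) (a := 0) (b := 1) (c := 1) (cn := .pnn) (n1 := ndF0q0) (n2 := ndF1q1) (pc := pcF1) (cut := Cut.none) (xt := Ext.none) (P1 := 0) (W1 := 536870912) (P2 := 536870912) (W2 := 536870912) (P3 := 469762048) (W3 := 67108864)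
    rfl k0_pp_011

noncomputable def f_pp_012 : ℕ → ℕ → ℕ → ℕ → Bool := onCell 0 536870912 536870912 536870912 469762048 67108864
    (rowF 0 true true true .pnp 0 1 2 (qsf 0 536870912 536870912 536870912 2) ndF0q0 ndF1q1 pcF2 Cut.none Ext.none)

def k0_pp_012 : ∃ t, chk3 f_pp_012 t 1 1 1 = true :=
  ⟨(l 4), by decide +kernel⟩

theorem c_pp_012 : CertF 0 536870912 536870912 536870912 469762048 67108864 true true true .pnp 0 1 2
    ndF0q0 ndF1q1 pcF2 Cut.none Ext.none :=
  certF0 (fam := true) (s1 := true) (s2 := true) (a := 0) (b := 1) (c := 2) (cn := .pnp) (n1 := ndF0q0) (n2 := ndF1q1) (pc := pcF2) (cut := Cut.none) (xt := Ext.none) (P1 := 0) (W1 := 536870912) (P2 := 536870912) (W2 := 536870912) (P3 := 469762048) (W3 := 67108864)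
    rfl k0_pp_012

noncomputable def cut_pp_022_a : Cut := Cut.of [[⟨0, 0, 0, 67108864⟩, ⟨1, 1, 0, 67108864⟩, ⟨2, 1, 0, 67108864⟩]]

noncomputable def f_pp_022_a : ℕ → ℕ → ℕ → ℕ → Bool := onCell 0 536870912 0 536870912 469762048 67108864
    (rowF 0 true true true .pp 0 2 2 (qsf 0 536870912 0 536870912 2) ndF0q0 ndF1q2a pcF2 cut_pp_022_a Ext.none)

def k0_pp_022_a : ∃ t, chk3 f_pp_022_a t 4 1 1 = true :=
  ⟨(b (a (b (a (b (l 16489352) (l 16519368)) (b (l 16505184) (l 16517736))) (a (b (l 16589512) (a (l 16557576) (l 16590664))) (b (l 16538376) (a (l 16602952) (l 16573592))))) (b (a (l 16583024) (l 16614192)) (a (b (l 16583056) (c (l 16655560) (l 16619720))) (b (l 16630304) (b (l 16633496) (l 7750919991)))))) (b (a (a (b (a (a (l 16610632) (l 16617144)) (b (l 16574568) (l 16595120))) (b (a (l 16625632) (l 16660216)) (a (a (l 16626792) (l 16633784)) (b (l 16637352) (l 16672024))))) (b (b (l 16604568) (a (l 16629456) (l 16622080))) (b (a (l 16631968) (l 16645848)) (a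 (b (l 16672232) (l 16665096)) (a (l 16689984) (l 16718896)))))) (b (a (b (l 16646312) (a (l 16636048) (l 16672496))) (b (a (l 16644440) (l 4)) (l 4))) (a (a (b (l 16713448) (b (l 4) (l 4))) (l 4)) (l 4)))) (a (b (a (a (a (b (b (l 16647784) (l 16662840)) (b (l 16678720) (l 6))) (b (b (l 16654896) (l 16670032)) (b (l 16686000) (c (l 16724416) (l 16723080))))) (b (b (l 16696968) (b (l 16697824) (l 16705648))) (b (a (l 16714208) (l 16700504)) (a (b (l 16705792) (l 16735432)) (b (l 16734304) (c (l 16743648) (l 16743000))))))) (b (b (a (l 16690312) (l 77007259527)) (a (b (l 16702016) (l 20635828743)) (l 4))) (a (a (b (l 71638579639) (l 4)) (l 4)) (l 4)))) (a (a (l 6) (a (b (l 6) (l 4)) (l 4))) (l 4))) (l 4)))), by decide +kernel⟩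

def k1_pp_022_a : ∃ t, chk3 f_pp_022_a t 5 1 1 = true :=
  ⟨(b (a (b (a (b (l 16572360) (l 16608792)) (b (l 16598664) (l 16661400))) (a (a (b (l 16610592) (a (l 16684736) (l 53921741767))) (b (l 16627008) (l 65196023319))) (b (b (l 16686840) (l 51774292343)) (l 4)))) (b (a (b (l 16642016) (l 22783388311)) (b (l 16744312) (b (l 16751120) (l 4)))) (l 4))) (l 4)), by decide +kernel⟩

def k2_pp_022_a : ∃ t, chk3 f_pp_022_a t 3 1 1 = true :=
  ⟨(b (a (a (b (a (b (b (l 16756544) (l 4)) (l 4)) (l 4)) (l 4)) (l 4)) (l 4)) (l 4)), by decide +kernel⟩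

theorem s3_pp_022_a : ∃ t, chk3 f_pp_022_a t 2 1 1 = true := ex3_a k0_pp_022_a k1_pp_022_a

theorem s4_pp_022_a : ∃ t, chk3 f_pp_022_a t 1 1 1 = true := ex3_a s3_pp_022_a k2_pp_022_a

theorem c_pp_022_a : CertF 0 536870912 0 536870912 469762048 67108864 true true true .pp 0 2 2
    ndF0q0 ndF1q2a pcF2 cut_pp_022_a Ext.none :=
  certF0 (fam := true) (s1 := true) (s2 := true) (a := 0) (b := 2) (c := 2) (cn := .pp) (n1 := ndF0q0) (n2 := ndF1q2a) (pc := pcF2) (cut := cut_pp_022_a) (xt := Ext.none) (P1 := 0) (W1 := 536870912) (P2 := 0) (W2 := 536870912) (P3 := 469762048) (W3 := 67108864)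
    rfl s4_pp_022_a

noncomputable def cut_pp_022_b : Cut := Cut.of [[⟨0, 0, 0, 67108864⟩, ⟨1, 1, 0, 67108864⟩, ⟨2, 1, 0, 67108864⟩]]

noncomputable def f_pp_022_b : ℕ → ℕ → ℕ → ℕ → Bool := onCell 0 536870912 1239849684 370763052 469762048 67108864
    (rowF 0 true true true .pp 0 2 2 (qsf 0 536870912 1239849684 370763052 2) ndF0q0 ndF1q2b pcF2 cut_pp_022_b Ext.none)

def k0_pp_022_b : ∃ t, chk3 f_pp_022_b t 1 1 1 = true :=
  ⟨(a (b (a (b (a (b (a (a (l 16482384) (l 16427288)) (l 16523144)) (a (b (l 16382480) (l 16343696)) (l 16405904))) (b (a (l 16540672) (l 16581944)) (a (l 16432104) (l 16463656)))) (a (b (a (l 16374176) (l 16301176)) (a (l 16294760) (l 16318848))) (b (a (l 16381416) (l 16427568)) (a (l 16372872) (l 16454728))))) (b (a (b (a (l 16603824) (b (l 16572864) (l 16544936))) (a (l 16502008) (b (l 16532064) (l 16524024)))) (b (a (b (l 16617240) (l 16586728)) (b (l 16679528) (l 16696288))) (a (b (l 16580552) (l 16576496)) (l 4)))) (a (b (a (l 16543856) (b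 (l 16519480) (l 4))) (a (l 16497440) (l 4))) (l 4)))) (a (b (a (a (b (l 16192664) (l 16178016)) (b (l 16275328) (l 16254256))) (b (a (l 16343960) (l 4)) (l 4))) (a (b (a (l 16186344) (l 4)) (l 4)) (l 4))) (l 4))) (b (a (b (a (b (b (a (b (l 16746328) (l 16723816)) (l 4)) (l 4)) (l 4)) (l 4)) (l 4)) (l 2)) (l 2))), by decide +kernel⟩

theorem c_pp_022_b : CertF 0 536870912 1239849684 370763052 469762048 67108864 true true true .pp 0 2 2
    ndF0q0 ndF1q2b pcF2 cut_pp_022_b Ext.none :=
  certF0 (fam := true) (s1 := true) (s2 := true) (a := 0) (b := 2) (c := 2) (cn := .pp) (n1 := ndF0q0) (n2 := ndF1q2b) (pc := pcF2) (cut := cut_pp_022_b) (xt := Ext.none) (P1 := 0) (W1 := 536870912) (P2 := 1239849684) (W2 := 370763052) (P3 := 469762048) (W3 := 67108864)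
    rfl k0_pp_022_b

noncomputable def f_pp_023_a : ℕ → ℕ → ℕ → ℕ → Bool := onCell 1610612736 536870912 0 536870912 469762048 67108864
    (rowF 2 true true true .up 0 2 3 (qsf 0 536870912 0 536870912 3) ndF0q0 ndF1q2a pcF3 Cut.none Ext.none)

def k0_pp_023_a : ∃ t, chk3 f_pp_023_a t 1 1 1 = true :=
  ⟨(a (l 4) (l 2)), by decide +kernel⟩

theorem c_pp_023_a : CertF 0 536870912 0 536870912 469762048 67108864 true true true .up 0 2 3
    ndF0q0 ndF1q2a pcF3 Cut.none Ext.none :=
  certF2 (fam := true) (s1 := true) (s2 := true) (a := 0) (b := 2) (c := 3) (cn := .up) (n1 := ndF0q0) (n2 := ndF1q2a) (pc := pcF3) (cut := Cut.none) (xt := Ext.none) (P1 := 0) (W1 := 536870912) (P2 := 0) (W2 := 536870912) (P3 := 469762048) (W3 := 67108864)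
    rfl (fun _ => rfl) k0_pp_023_a

noncomputable def f_pp_023_b : ℕ → ℕ → ℕ → ℕ → Bool := onCell 1610612736 536870912 1239849684 370763052 469762048 67108864
    (rowF 2 true true true .up 0 2 3 (qsf 0 536870912 1239849684 370763052 3) ndF0q0 ndF1q2b pcF3 Cut.none Ext.none)

def k0_pp_023_b : ∃ t, chk3 f_pp_023_b t 1 1 1 = true :=
  ⟨(a (l 4) (l 4)), by decide +kernel⟩

theorem c_pp_023_b : CertF 0 536870912 1239849684 370763052 469762048 67108864 true true true .up 0 2 3
    ndF0q0 ndF1q2b pcF3 Cut.none Ext.none :=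
  certF2 (fam := true) (s1 := true) (s2 := true) (a := 0) (b := 2) (c := 3) (cn := .up) (n1 := ndF0q0) (n2 := ndF1q2b) (pc := pcF3) (cut := Cut.none) (xt := Ext.none) (P1 := 0) (W1 := 536870912) (P2 := 1239849684) (W2 := 370763052) (P3 := 469762048) (W3 := 67108864)
    rfl (fun _ => rfl) k0_pp_023_b

noncomputable def f_pp_033 : ℕ → ℕ → ℕ → ℕ → Bool := onCell 0 536870912 1610612736 536870912 469762048 67108864
    (rowF 0 true true true .pnn 0 3 3 (qsf 0 536870912 1610612736 536870912 3) ndF0q0 ndF1q3 pcF3 Cut.none Ext.none)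

def k0_pp_033 : ∃ t, chk3 f_pp_033 t 1 1 1 = true :=
  ⟨(a (b (l 4) (l 4)) (l 4)), by decide +kernel⟩

theorem c_pp_033 : CertF 0 536870912 1610612736 536870912 469762048 67108864 true true true .pnn 0 3 3
    ndF0q0 ndF1q3 pcF3 Cut.none Ext.none :=
  certF0 (fam := true) (s1 := true) (s2 := true) (a := 0) (b := 3) (c := 3) (cn := .pnn) (n1 := ndF0q0) (n2 := ndF1q3) (pc := pcF3) (cut := Cut.none) (xt := Ext.none) (P1 := 0) (W1 := 536870912) (P2 := 1610612736) (W2 := 536870912) (P3 := 469762048) (W3 := 67108864)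
    rfl k0_pp_033

noncomputable def f_pp_101 : ℕ → ℕ → ℕ → ℕ → Bool := onCell 536870912 536870912 0 536870912 469762048 67108864
    (rowF 0 true true true .npn 1 0 1 (qsf 536870912 536870912 0 536870912 1) ndF0q1 ndF1q0 pcF1 Cut.none Ext.none)

def k0_pp_101 : ∃ t, chk3 f_pp_101 t 1 1 1 = true :=
  ⟨(l 5), by decide +kernel⟩

theorem c_pp_101 : CertF 536870912 536870912 0 536870912 469762048 67108864 true true true .npn 1 0 1
    ndF0q1 ndF1q0 pcF1 Cut.none Ext.none :=
  certF0 (fam := true) (s1 := true) (s2 := true) (a := 1) (b := 0) (c := 1) (cn := .npn) (n1 := ndF0q1) (n2 := ndF1q0) (pc := pcF1) (cut := Cut.none) (xt := Ext.none) (P1 := 536870912) (W1 := 536870912) (P2 := 0) (W2 := 536870912) (P3 := 469762048) (W3 := 67108864)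
    rfl k0_pp_101

noncomputable def f_pp_102 : ℕ → ℕ → ℕ → ℕ → Bool := onCell 536870912 536870912 0 536870912 469762048 67108864
    (rowF 0 true true true .npp 1 0 2 (qsf 536870912 536870912 0 536870912 2) ndF0q1 ndF1q0 pcF2 Cut.none Ext.none)

def k0_pp_102 : ∃ t, chk3 f_pp_102 t 1 1 1 = true :=
  ⟨(l 5), by decide +kernel⟩

theorem c_pp_102 : CertF 536870912 536870912 0 536870912 469762048 67108864 true true true .npp 1 0 2
    ndF0q1 ndF1q0 pcF2 Cut.none Ext.none :=
  certF0 (fam := true) (s1 := true) (s2 := true) (a := 1) (b := 0) (c := 2) (cn := .npp) (n1 := ndF0q1) (n2 := ndF1q0) (pc := pcF2) (cut := Cut.none) (xt := Ext.none) (P1 := 536870912) (W1 := 536870912) (P2 := 0) (W2 := 536870912) (P3 := 469762048) (W3 := 67108864)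
    rfl k0_pp_102

noncomputable def f_pp_112 : ℕ → ℕ → ℕ → ℕ → Bool := onCell 536870912 536870912 536870912 536870912 469762048 67108864
    (rowF 0 true true true .dn 1 1 2 (qsf 536870912 536870912 536870912 536870912 2) ndF0q1 ndF1q1 pcF2 Cut.none Ext.none)

def k0_pp_112 : ∃ t, chk3 f_pp_112 t 1 1 1 = true :=
  ⟨(l 4), by decide +kernel⟩

theorem c_pp_112 : CertF 536870912 536870912 536870912 536870912 469762048 67108864 true true true .dn 1 1 2
    ndF0q1 ndF1q1 pcF2 Cut.none Ext.none :=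
  certF0 (fam := true) (s1 := true) (s2 := true) (a := 1) (b := 1) (c := 2) (cn := .dn) (n1 := ndF0q1) (n2 := ndF1q1) (pc := pcF2) (cut := Cut.none) (xt := Ext.none) (P1 := 536870912) (W1 := 536870912) (P2 := 536870912) (W2 := 536870912) (P3 := 469762048) (W3 := 67108864)
    rfl k0_pp_112

noncomputable def f_pp_113 : ℕ → ℕ → ℕ → ℕ → Bool := onCell 536870912 536870912 536870912 536870912 469762048 67108864
    (rowF 0 true true true .nn 1 1 3 (qsf 536870912 536870912 536870912 536870912 3) ndF0q1 ndF1q1 pcF3 Cut.none Ext.none)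

def k0_pp_113 : ∃ t, chk3 f_pp_113 t 1 1 1 = true :=
  ⟨(l 4), by decide +kernel⟩

theorem c_pp_113 : CertF 536870912 536870912 536870912 536870912 469762048 67108864 true true true .nn 1 1 3
    ndF0q1 ndF1q1 pcF3 Cut.none Ext.none :=
  certF0 (fam := true) (s1 := true) (s2 := true) (a := 1) (b := 1) (c := 3) (cn := .nn) (n1 := ndF0q1) (n2 := ndF1q1) (pc := pcF3) (cut := Cut.none) (xt := Ext.none) (P1 := 536870912) (W1 := 536870912) (P2 := 536870912) (W2 := 536870912) (P3 := 469762048) (W3 := 67108864)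
    rfl k0_pp_113

noncomputable def f_pp_123_a : ℕ → ℕ → ℕ → ℕ → Bool := onCell 536870912 536870912 0 536870912 469762048 67108864
    (rowF 0 true true true .npn 1 2 3 (qsf 536870912 536870912 0 536870912 3) ndF0q1 ndF1q2a pcF3 Cut.none Ext.none)

def k0_pp_123_a : ∃ t, chk3 f_pp_123_a t 1 1 1 = true :=
  ⟨(l 4), by decide +kernel⟩

theorem c_pp_123_a : CertF 536870912 536870912 0 536870912 469762048 67108864 true true true .npn 1 2 3
    ndF0q1 ndF1q2a pcF3 Cut.none Ext.none :=
  certF0 (fam := true) (s1 := true) (s2 := true) (a := 1) (b := 2) (c := 3) (cn := .npn) (n1 := ndF0q1) (n2 := ndF1q2a) (pc := pcF3) (cut := Cut.none) (xt := Ext.none) (P1 := 536870912) (W1 := 536870912) (P2 := 0) (W2 := 536870912) (P3 := 469762048) (W3 := 67108864)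
    rfl k0_pp_123_a

noncomputable def f_pp_123_b : ℕ → ℕ → ℕ → ℕ → Bool := onCell 536870912 536870912 1239849684 370763052 469762048 67108864
    (rowF 0 true true true .npn 1 2 3 (qsf 536870912 536870912 1239849684 370763052 3) ndF0q1 ndF1q2b pcF3 Cut.none Ext.none)

def k0_pp_123_b : ∃ t, chk3 f_pp_123_b t 1 1 1 = true :=
  ⟨(l 4), by decide +kernel⟩

theorem c_pp_123_b : CertF 536870912 536870912 1239849684 370763052 469762048 67108864 true true true .npn 1 2 3
    ndF0q1 ndF1q2b pcF3 Cut.none Ext.none :=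
  certF0 (fam := true) (s1 := true) (s2 := true) (a := 1) (b := 2) (c := 3) (cn := .npn) (n1 := ndF0q1) (n2 := ndF1q2b) (pc := pcF3) (cut := Cut.none) (xt := Ext.none) (P1 := 536870912) (W1 := 536870912) (P2 := 1239849684) (W2 := 370763052) (P3 := 469762048) (W3 := 67108864)
    rfl k0_pp_123_b

noncomputable def f_pp_133 : ℕ → ℕ → ℕ → ℕ → Bool := onCell 536870912 536870912 1610612736 536870912 469762048 67108864
    (rowF 0 true true true .dn 1 3 3 (qsf 536870912 536870912 1610612736 536870912 3) ndF0q1 ndF1q3 pcF3 Cut.none Ext.none)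

def k0_pp_133 : ∃ t, chk3 f_pp_133 t 1 1 1 = true :=
  ⟨(l 4), by decide +kernel⟩

theorem c_pp_133 : CertF 536870912 536870912 1610612736 536870912 469762048 67108864 true true true .dn 1 3 3
    ndF0q1 ndF1q3 pcF3 Cut.none Ext.none :=
  certF0 (fam := true) (s1 := true) (s2 := true) (a := 1) (b := 3) (c := 3) (cn := .dn) (n1 := ndF0q1) (n2 := ndF1q3) (pc := pcF3) (cut := Cut.none) (xt := Ext.none) (P1 := 536870912) (W1 := 536870912) (P2 := 1610612736) (W2 := 536870912) (P3 := 469762048) (W3 := 67108864)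
    rfl k0_pp_133

noncomputable def f_pp_202 : ℕ → ℕ → ℕ → ℕ → Bool := onCell 0 536870912 0 536870912 469762048 67108864
    (rowF 0 true true true .pp 2 0 2 (qsf 0 536870912 0 536870912 2) ndF0q2 ndF1q0 pcF2 Cut.none Ext.none)

def k0_pp_202 : ∃ t, chk3 f_pp_202 t 1 1 1 = true :=
  ⟨(l 5), by decide +kernel⟩

theorem c_pp_202 : CertF 0 536870912 0 536870912 469762048 67108864 true true true .pp 2 0 2
    ndF0q2 ndF1q0 pcF2 Cut.none Ext.none :=
  certF0 (fam := true) (s1 := true) (s2 := true) (a := 2) (b := 0) (c := 2) (cn := .pp) (n1 := ndF0q2) (n2 := ndF1q0) (pc := pcF2) (cut := Cut.none) (xt := Ext.none) (P1 := 0) (W1 := 536870912) (P2 := 0) (W2 := 536870912) (P3 := 469762048) (W3 := 67108864)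
    rfl k0_pp_202

noncomputable def f_pp_203 : ℕ → ℕ → ℕ → ℕ → Bool := onCell 0 536870912 0 536870912 469762048 67108864
    (rowF 0 true true true .up 2 0 3 (qsf 0 536870912 0 536870912 3) ndF0q2 ndF1q0 pcF3 Cut.none Ext.none)

def k0_pp_203 : ∃ t, chk3 f_pp_203 t 1 1 1 = true :=
  ⟨(l 5), by decide +kernel⟩

theorem c_pp_203 : CertF 0 536870912 0 536870912 469762048 67108864 true true true .up 2 0 3
    ndF0q2 ndF1q0 pcF3 Cut.none Ext.none :=
  certF0 (fam := true) (s1 := true) (s2 := true) (a := 2) (b := 0) (c := 3) (cn := .up) (n1 := ndF0q2) (n2 := ndF1q0) (pc := pcF3) (cut := Cut.none) (xt := Ext.none) (P1 := 0) (W1 := 536870912) (P2 := 0) (W2 := 536870912) (P3 := 469762048) (W3 := 67108864)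
    rfl k0_pp_203

noncomputable def f_pp_213 : ℕ → ℕ → ℕ → ℕ → Bool := onCell 0 536870912 536870912 536870912 469762048 67108864
    (rowF 0 true true true .pnn 2 1 3 (qsf 0 536870912 536870912 536870912 3) ndF0q2 ndF1q1 pcF3 Cut.none Ext.none)

def k0_pp_213 : ∃ t, chk3 f_pp_213 t 1 1 1 = true :=
  ⟨(l 4), by decide +kernel⟩

theorem c_pp_213 : CertF 0 536870912 536870912 536870912 469762048 67108864 true true true .pnn 2 1 3
    ndF0q2 ndF1q1 pcF3 Cut.none Ext.none :=
  certF0 (fam := true) (s1 := true) (s2 := true) (a := 2) (b := 1) (c := 3) (cn := .pnn) (n1 := ndF0q2) (n2 := ndF1q1) (pc := pcF3) (cut := Cut.none) (xt := Ext.none) (P1 := 0) (W1 := 536870912) (P2 := 536870912) (W2 := 536870912) (P3 := 469762048) (W3 := 67108864)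
    rfl k0_pp_213

noncomputable def f_pm_001 : ℕ → ℕ → ℕ → ℕ → Bool := onCell 0 536870912 0 536870912 469762048 67108864
    (rowF 0 true true false .up 0 0 1 (qsf 0 536870912 0 536870912 1) ndF0q0 ndF1q0 pcF1 Cut.none Ext.none)

def k0_pm_001 : ∃ t, chk3 f_pm_001 t 1 1 1 = true :=
  ⟨(l 3), by decide +kernel⟩

theorem c_pm_001 : CertF 0 536870912 0 536870912 469762048 67108864 true true false .up 0 0 1
    ndF0q0 ndF1q0 pcF1 Cut.none Ext.none :=
  certF0 (fam := true) (s1 := true) (s2 := false) (a := 0) (b := 0) (c := 1) (cn := .up) (n1 := ndF0q0) (n2 := ndF1q0) (pc := pcF1) (cut := Cut.none) (xt := Ext.none) (P1 := 0) (W1 := 536870912) (P2 := 0) (W2 := 536870912) (P3 := 469762048) (W3 := 67108864)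
    rfl k0_pm_001

noncomputable def f_pm_011 : ℕ → ℕ → ℕ → ℕ → Bool := onCell 0 536870912 536870912 536870912 469762048 67108864
    (rowF 1 true true false .pnn 0 1 1 (qsf 0 536870912 536870912 536870912 1) ndF0q0 ndF1q1 pcF1 Cut.none Ext.none)

def k0_pm_011 : ∃ t, chk3 f_pm_011 t 1 1 1 = true :=
  ⟨(l 3), by decide +kernel⟩

theorem c_pm_011 : CertF 0 536870912 536870912 536870912 469762048 67108864 true true false .pnn 0 1 1
    ndF0q0 ndF1q1 pcF1 Cut.none Ext.none :=
  certF1 (fam := true) (s1 := true) (s2 := false) (a := 0) (b := 1) (c := 1) (cn := .pnn) (n1 := ndF0q0) (n2 := ndF1q1) (pc := pcF1) (cut := Cut.none) (xt := Ext.none) (P1 := 0) (W1 := 536870912) (P2 := 536870912) (W2 := 536870912) (P3 := 469762048) (W3 := 67108864)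
    rfl (fun _ => rfl) k0_pm_011

noncomputable def f_pm_012 : ℕ → ℕ → ℕ → ℕ → Bool := onCell 1073741824 536870912 536870912 536870912 469762048 67108864
    (rowF 2 true true false .pnp 0 1 2 (qsf 0 536870912 536870912 536870912 2) ndF0q0 ndF1q1 pcF2 Cut.none Ext.none)

def k0_pm_012 : ∃ t, chk3 f_pm_012 t 2 1 1 = true :=
  ⟨(a (a (l 3) (b (a (l 3) (b (b (l 2) (a (l 3) (b (l 2) (l 16893328)))) (b (a (l 3) (l 361482137607)) (l 3)))) (l 3))) (b (b (a (a (a (b (l 2) (l 16847784)) (l 2)) (l 2)) (l 2)) (a (a (a (b (a (l 16855192) (l 16841912)) (a (l 384030598487) (l 16815848))) (a (b (l 16828704) (l 16803352)) (a (b (l 16818944) (l 16794064)) (a (b (l 16814104) (l 16789496)) (b (l 16810872) (l 16786504)))))) (b (l 16783088) (l 16760592))) (b (a (l 16727976) (l 2)) (a (l 16699232) (l 16641688))))) (a (a (a (b (b (a (l 3) (l 352355133255)) (l 3)) (l 3)) (b (a (b (l 254644629703) (b (l 16736136) (l 16711608))) (a (b (l 16760288) (l 16714792)) (a (b (l 16755792) (b (l 16722344)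 (l 16697272))) (b (l 16752152) (l 16707216))))) (a (b (l 3) (l 3)) (a (b (b (l 16675888) (l 16649256)) (l 3)) (b (a (b (l 16670928) (l 16644024)) (b (l 16667784) (l 16640752))) (a (b (l 175724267511) (a (l 3) (l 16589472))) (b (l 16613608) (l 16586840)))))))) (b (b (l 16725904) (b (l 16693336) (l 16667616))) (b (b (l 16640296) (l 16612024)) (b (l 16583832) (b (l 16562888) (l 16549264)))))) (b (b (a (l 16667616) (l 16596008)) (a (l 16664280) (l 16552488))) (b (a (b (l 16582096) (l 16552456)) (l 16498816)) (b (l 16468528) (l 16480624))))))), by decide +kernel⟩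

def k1_pm_012 : ∃ t, chk3 f_pm_012 t 3 1 1 = true :=
  ⟨(b (a (b (l 2) (a (b (l 2) (a (l 16661760) (l 2))) (l 2))) (l 2)) (a (b (a (b (b (l 16602208) (l 16527728)) (l 16591408)) (b (b (l 2) (l 16667640)) (b (l 16604640) (l 16557560)))) (b (a (l 16570024) (l 16663184)) (a (l 16521976) (b (l 16438152) (l 16403000))))) (b (a (b (l 2) (b (l 2) (l 16702552))) (l 2)) (b (a (b (l 16636376) (l 16563232)) (a (l 16712688) (l 2))) (a (b (l 16505456) (l 16452856)) (b (l 16696784) (l 16582720))))))), by decide +kernel⟩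

theorem s2_pm_012 : ∃ t, chk3 f_pm_012 t 1 1 1 = true := ex3_a k0_pm_012 k1_pm_012

theorem c_pm_012 : CertF 0 536870912 536870912 536870912 469762048 67108864 true true false .pnp 0 1 2
    ndF0q0 ndF1q1 pcF2 Cut.none Ext.none :=
  certF2 (fam := true) (s1 := true) (s2 := false) (a := 0) (b := 1) (c := 2) (cn := .pnp) (n1 := ndF0q0) (n2 := ndF1q1) (pc := pcF2) (cut := Cut.none) (xt := Ext.none) (P1 := 0) (W1 := 536870912) (P2 := 536870912) (W2 := 536870912) (P3 := 469762048) (W3 := 67108864)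
    rfl (fun _ => rfl) s2_pm_012

noncomputable def cut_pm_022_a : Cut := Cut.of [[⟨0, 0, 0, 67108864⟩, ⟨1, 1, 0, 67108864⟩, ⟨2, 1, 0, 67108864⟩], [⟨0, 0, 1, 33554432⟩, ⟨1, 1, 0, 33554432⟩, ⟨2, 1, 1, 33554432⟩]]

noncomputable def f_pm_022_a : ℕ → ℕ → ℕ → ℕ → Bool := onCell 1073741824 536870912 0 536870912 469762048 67108864
    (rowF 2 true true false .pp 0 2 2 (qsf 0 536870912 0 536870912 2) ndF0q0 ndF1q2a pcF2 cut_pm_022_a Ext.none)

def k0_pm_022_a : ∃ t, chk3 f_pm_022_a t 4 2 1 = true :=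
  ⟨(a (l 1) (b (l 1) (a (l 1) (b (l 1) (a (l 1) (b (l 1) (a (l 1) (c (b (l 16595888) (l 16599840)) (l 16576912))))))))), by decide +kernel⟩

def k1_pm_022_a : ∃ t, chk3 f_pm_022_a t 8 3 1 = true :=
  ⟨(b (l 1) (a (b (l 1) (l 6)) (b (b (a (l 1) (a (l 1) (b (l 1) (b (a (l 1) (c (l 16675128) (l 16665480))) (a (l 6) (c (l 16678144) (l 16669344))))))) (a (l 6) (a (l 6) (a (l 6) (a (l 6) (b (l 16678112) (l 16684320))))))) (a (l 6) (a (l 6) (b (b (l 16713632) (l 16698336)) (b (l 16724584) (b (l 16712080) (b (l 16716808) (c (l 16721096) (l 16718704))))))))))), by decide +kernel⟩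

def k2_pm_022_a : ∃ t, chk3 f_pm_022_a t 9 6 1 = true :=
  ⟨(a (b (l 1) (a (a (l 1) (b (l 1) (b (c (l 16650032) (b (l 1) (l 16638640))) (a (b (l 16649616) (l 16647680)) (b (l 16647408) (l 16650600)))))) (b (a (b (l 1) (c (l 16640280) (l 16625952))) (b (c (l 16631568) (l 16616064)) (c (l 41909223511) (l 33319260535)))) (b (a (a (c (l 16646824) (l 16633904)) (b (l 16637056) (l 16640112))) (c (l 16641952) (l 16629320))) (a (a (c (l 16652344) (l 16640920)) (l 16644616)) (l 16641408)))))) (b (a (b (b (l 1) (a (l 1) (c (l 16611608) (l 16592792)))) (a (b (l 1) (c (l 16623584) (l 16606968))) (b (c (l 25803057047) (l 16598648)) (c (l 76805802487) (l 16604528))))) (c (b (a (b (l 16605376) (l 41909171895)) (b (l 16603832) (l 16607808))) (a (b (l 16614040) (l 16618280)) (l 16613712))) (b (a (l 16139328503) (l 16586880)) (a (l 16599376) (l 16597048))))) (b (a (b (a (c (l 56941593127) (l 16613248)) (l 16618072)) (a (c (l 16633384) (l 16619480)) (l 16623144))) (b (l 16613536) (l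 16617952))) (a (b (a (l 16631928) (l 16628048)) (l 16634920)) (l 16645192))))), by decide +kernel⟩

def k3_pm_022_a : ∃ t, chk3 f_pm_022_a t 9 7 1 = true :=
  ⟨(a (b (b (a (b (a (a (b (l 1) (c (l 16669448) (l 16659168))) (b (c (l 16663904) (l 16653032)) (l 16664536))) (b (a (l 16656184) (l 16653736)) (l 16658096))) (a (b (a (c (l 16672416) (l 16662968)) (l 16665160)) (a (l 16671104) (l 16668328))) (b (l 16661152) (l 16664120)))) (b (a (l 16672560) (l 16646800)) (a (l 16657184) (l 16651856)))) (a (b (a (b (l 16672864) (l 16675904)) (l 16668400)) (a (l 16680264) (l 16673688))) (b (a (l 16662376) (l 16656488)) (l 16663864)))) (b (b (a (a (l 16685592) (l 16678408)) (l 16667648)) (a (a (l 16690656) (l 16682856)) (l 16671136))) (b (a (c (l 16713104) (l 16713056)) (c (l 16699784) (l 16690752))) (b (a (a (l 16705072) (l 16698192)) (a (l 16691384) (l 16684544))) (b (a (c (l 16707400) (l 16705096)) (a (l 16696008) (l 16689144))) (a (c (a (l 16714168) (l 16707376)) (a (l 16711480)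 (l 16704384))) (a (c (l 16708504) (l 16697384)) (c (l 16693832) (l 16690408))))))))) (b (b (a (b (l 16639544) (l 16643800)) (l 16631400)) (a (b (l 16647584) (l 16650792)) (l 16636632))) (b (b (a (l 16653280) (l 16638656)) (l 16678992)) (b (a (l 16707104) (l 16694040)) (b (a (l 16674432) (l 16661280)) (a (a (a (l 16685576) (l 16682208)) (c (l 16678840) (l 16675360))) (a (c (l 16672312) (l 16670312)) (c (l 16665888) (l 16664688))))))))), by decide +kernel⟩

def k4_pm_022_a : ∃ t, chk3 f_pm_022_a t 5 2 1 = true :=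
  ⟨(a (b (a (a (l 1) (b (l 16543192) (b (l 16550664) (l 55867762855)))) (b (a (l 16542960) (l 16542368)) (a (b (l 16550768) (l 16557488)) (l 16554200)))) (a (a (a (b (l 1) (b (c (l 16589728) (l 16567160)) (b (l 67142079975) (l 16588552)))) (b (b (l 16564488) (l 30097968135)) (b (c (l 16589264) (l 16566848)) (l 16585528)))) (b (a (b (c (l 16576984) (l 16552312)) (l 16592432)) (a (b (l 16564928) (l 16571528)) (b (a (l 16564936) (l 16564920)) (a (l 16571552) (l 16571560))))) (a (b (l 16577752) (l 16584448)) (a (b (l 16577392) (l 16583616)) (b (l 16577136) (l 16583080)))))) (b (a (b (l 16565064) (l 16571648)) (l 16589776)) (b (l 16597320) (l 16580776))))) (b (a (b (l 16539904) (l 16552808)) (b (l 16533352) (l 16548144))) (b (a (a (l 16568608) (l 16567760)) (l 16565016)) (a (l 16575880) (l 16572096))))), by decide +kernel⟩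

def k5_pm_022_a : ∃ t, chk3 f_pm_022_a t 5 3 1 = true :=
  ⟨(b (a (a (b (a (b (a (c (l 16604096) (l 16585280)) (l 16593064)) (a (l 16603024) (l 16600512))) (a (b (l 16591288) (l 16597976)) (b (l 16589528) (l 16595464)))) (a (b (l 16609192) (l 16615736)) (a (l 16628000) (b (l 16600792) (l 16605024))))) (b (b (l 16585128) (l 16589088)) (b (l 16592232) (l 16594040)))) (b (a (l 16578496) (l 16568944)) (a (l 16577304) (l 16560120)))) (a (b (a (a (b (l 16620840) (l 16623728)) (b (a (l 16612816) (l 16607536)) (a (l 16613912) (l 16628416)))) (b (l 16593800) (l 16580040))) (b (a (a (l 16644592) (a (l 16611720) (l 16647176))) (l 16632712)) (a (b (a (b (l 16636280) (l 16642424)) (a (l 16630072) (a (l 16625432) (l 16622248)))) (b (a (l 16648496) (a (l 16639136) (a (l 16634464) (l 16631272)))) (a (a (a (l 16660584) (l 16656096)) (a (l 16652936) (l 16649800))) (a (c (l 16647176) (l 16642768)) (a (l 16640416) (a (l 16638000) (c (l 16638608) (l 16633904)))))))) (b (l 16672192) (b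 (a (l 16623968) (l 16612856)) (a (c (l 16632320) (l 16627224)) (l 16618808))))))) (a (b (b (l 16570848) (l 16562048)) (b (l 16590592) (b (l 16588240) (a (l 16626368) (l 16595648))))) (b (l 16560624) (b (l 16572056) (b (l 16570024) (a (l 16586688) (l 16578584)))))))), by decide +kernel⟩

def k6_pm_022_a : ∃ t, chk3 f_pm_022_a t 6 1 1 = true :=
  ⟨(b (b (a (a (l 16531696) (l 16517576)) (b (l 16469888) (l 16498736))) (a (b (a (l 16558288) (l 16548240)) (a (l 16566960) (l 16560032))) (b (l 16546072) (l 16690040)))) (b (a (b (a (l 16558528) (l 16547008)) (a (l 16541624) (l 16521400))) (b (l 16569040) (l 16486728))) (b (a (b (l 16505952) (l 16564608)) (b (l 16476000) (l 16569160))) (b (a (a (l 16577664) (l 16545136)) (a (l 16517136) (l 16537256))) (a (b (a (l 16555240) (l 16544568)) (a (a (l 16592400) (b (l 16562016) (l 16589536))) (a (b (l 16556936) (c (b (l 16568992) (l 16583272)) (l 16556384))) (b (l 16553088) (a (c (a (l 16590072) (l 16568488)) (l 16552896)) (c (l 16567696)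 (l 16551032))))))) (b (a (l 16538888) (l 16540104)) (a (b (l 16549984) (a (c (b (l 16564784) (l 16568896)) (l 16548944)) (c (l 16588408) (l 16547696)))) (a (b (l 16551144) (c (l 16591264) (l 16548496))) (b (l 16554768) (c (b (l 16573168) (l 16599168)) (l 16551584))))))))))), by decide +kernel⟩

def k7_pm_022_a : ∃ t, chk3 f_pm_022_a t 7 2 1 = true :=
  ⟨(a (b (a (l 16445872) (l 16487976)) (a (b (l 16487216) (l 16516384)) (b (l 16458232) (l 16494576)))) (b (a (l 16534920) (l 16594656)) (a (l 16533456) (l 16535200)))), by decide +kernel⟩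

def k8_pm_022_a : ∃ t, chk3 f_pm_022_a t 7 6 1 = true :=
  ⟨(a (a (b (l 16501464) (l 16442944)) (b (l 16486856) (l 16415776))) (b (a (l 16558472) (b (l 16464760) (l 16444064))) (a (l 16421472) (l 16451152)))), by decide +kernel⟩

def k9_pm_022_a : ∃ t, chk3 f_pm_022_a t 14 7 1 = true :=
  ⟨(b (a (b (l 16455936) (l 16489056)) (b (l 16457296) (l 16494792))) (b (a (a (l 16520800) (l 16527048)) (b (l 16524768) (l 16545128))) (a (b (a (l 16547136) (l 16555272)) (b (a (l 16561000) (c (l 16583816) (l 16556664))) (b (a (l 16610104) (c (l 16613408) (l 16563576))) (a (c (a (l 16584240) (l 16610192)) (l 16559424)) (c (a (c (l 16623312) (l 16587712)) (c (b (l 16607832) (a (l 16609128) (l 16633896))) (l 16615032))) (a (l 16565736) (l 16591944))))))) (b (a (l 16563144) (l 16570424)) (b (a (c (l 16594152) (l 16564576)) (c (l 16603752) (l 16572072))) (a (b (c (a (l 16601296) (l 16605800)) (l 16572080)) (b (c (a (l 16605952) (l 16610600)) (a (l 16574192) (l 16577768))) (c (a (c (c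 (a (l 16620040) (l 16622472)) (a (l 16612016) (l 16614312))) (c (l 16605040) (l 16596944))) (a (c (c (b (l 16624168) (l 16631136)) (l 16616736)) (l 16604296)) (c (c (l 14) (l 16619288)) (l 16606640)))) (a (l 16597680) (c (l 16588736) (l 16572000)))))) (b (c (a (l 16610832) (l 16616400)) (l 16580048)) (b (c (a (l 16615760) (l 16642440)) (a (l 16581824) (l 16586400))) (c (a (a (c (c (l 14) (b (l 16621136) (l 16633312))) (l 16619608)) (c (l 14) (c (l 16616096) (l 16607384)))) (c (l 14) (c (a (b (l 16618096) (l 16619752)) (l 14)) (a (l 16610072) (l 16612896))))) (a (c (l 16614120) (l 16575864)) (c (a (l 16596792) (l 16599400)) (l 16580232)))))))))))), by decide +kernel⟩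

def k10_pm_022_a : ∃ t, chk3 f_pm_022_a t 15 7 1 = true :=
  ⟨(b (a (b (l 16461672) (l 16504600)) (b (l 16498152) (l 16541240))) (b (a (b (l 16538272) (l 16562040)) (b (l 16578416) (l 16605552))) (b (a (a (l 16580272) (l 16592248)) (a (l 16612816) (l 16612184))) (a (b (a (c (l 16615520) (l 16581600)) (c (l 16640192) (l 16593408))) (b (a (c (a (l 16622552) (l 14)) (l 16611032)) (c (c (l 16634760) (l 14)) (a (l 16599008) (l 16605784)))) (a (a (b (c (l 16638240) (l 16591520)) (c (c (l 14) (a (b (l 16619608) (c (l 14) (l 16616680))) (l 14))) (c (a (l 16623120) (a (l 16604296) (l 16605784))) (l 16585144)))) (c (l 14) (b (l 16597216) (c (b (l 16608896) (c (a (l 16613592) (l 14)) (a (l 16604104) (l 16607232)))) (a (l 16589184) (l 16592064)))))) (c (a (l 14) (a (l 14) (c (c (l 16711848) (l 14)) (l 14)))) (a (b (l 16603504) (a (c (c (l 14) (l 16620224)) (l 16595096)) (c (l 14) (b (l 16597560) (l 16609488))))) (b (l 16631384) (c (l 14) (a (a (l 16621744) (l 16612968)) (c (l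 14) (l 16600008)))))))))) (b (a (c (l 16660960) (l 16607704)) (c (l 16698304) (l 16611360))) (a (a (c (b (l 16683744) (b (l 16637336) (c (a (c (l 16723440) (l 14)) (l 16700392)) (l 14)))) (b (l 16613208) (a (b (l 16616008) (c (l 14) (c (l 14) (l 16614072)))) (l 14)))) (c (b (l 16703048) (a (c (l 16728608) (l 14)) (c (l 16737560) (c (l 16704264) (l 14))))) (l 14))) (c (a (b (l 16721296) (c (l 16729568) (b (l 16705072) (a (c (l 16715288) (l 14)) (l 16692336))))) (b (l 16738544) (c (l 16766960) (a (l 16720184) (l 16728696))))) (a (l 14) (a (l 14) (a (l 14) (c (c (l 16695576) (l 14)) (l 14)))))))))))), by decide +kernel⟩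

theorem s11_pm_022_a : ∃ t, chk3 f_pm_022_a t 7 7 1 = true := ex3_a k9_pm_022_a k10_pm_022_a

theorem s12_pm_022_a : ∃ t, chk3 f_pm_022_a t 7 3 1 = true := ex3_b k8_pm_022_a s11_pm_022_a

theorem s13_pm_022_a : ∃ t, chk3 f_pm_022_a t 7 1 1 = true := ex3_b k7_pm_022_a s12_pm_022_a

theorem s14_pm_022_a : ∃ t, chk3 f_pm_022_a t 3 1 1 = true := ex3_a k6_pm_022_a s13_pm_022_a

theorem s15_pm_022_a : ∃ t, chk3 f_pm_022_a t 5 1 1 = true := ex3_b k4_pm_022_a k5_pm_022_a

theorem s16_pm_022_a : ∃ t, chk3 f_pm_022_a t 9 3 1 = true := ex3_b k2_pm_022_a k3_pm_022_a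

theorem s17_pm_022_a : ∃ t, chk3 f_pm_022_a t 4 3 1 = true := ex3_a k1_pm_022_a s16_pm_022_a

theorem s18_pm_022_a : ∃ t, chk3 f_pm_022_a t 4 1 1 = true := ex3_b k0_pm_022_a s17_pm_022_a

theorem s19_pm_022_a : ∃ t, chk3 f_pm_022_a t 2 1 1 = true := ex3_a s18_pm_022_a s15_pm_022_a

theorem s20_pm_022_a : ∃ t, chk3 f_pm_022_a t 1 1 1 = true := ex3_a s19_pm_022_a s14_pm_022_a

theorem c_pm_022_a : CertF 0 536870912 0 536870912 469762048 67108864 true true false .pp 0 2 2
    ndF0q0 ndF1q2a pcF2 cut_pm_022_a Ext.none :=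
  certF2 (fam := true) (s1 := true) (s2 := false) (a := 0) (b := 2) (c := 2) (cn := .pp) (n1 := ndF0q0) (n2 := ndF1q2a) (pc := pcF2) (cut := cut_pm_022_a) (xt := Ext.none) (P1 := 0) (W1 := 536870912) (P2 := 0) (W2 := 536870912) (P3 := 469762048) (W3 := 67108864)
    rfl (fun _ => rfl) s20_pm_022_a

noncomputable def cut_pm_022_b : Cut := Cut.of [[⟨0, 0, 0, 67108864⟩, ⟨1, 1, 0, 67108864⟩, ⟨2, 1, 0, 67108864⟩], [⟨0, 0, 1, 33554432⟩, ⟨1, 1, 0, 33554432⟩, ⟨2, 1, 1, 33554432⟩]]

noncomputable def f_pm_022_b : ℕ → ℕ → ℕ → ℕ → Bool := onCell 0 536870912 1073741824 536870912 469762048 67108864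
    (rowF 1 true true false .pp 0 2 2 (qsf 0 536870912 1239849684 370763052 2) ndF0q0 ndF1q2b pcF2 cut_pm_022_b Ext.none)

def k0_pm_022_b : ∃ t, chk3 f_pm_022_b t 1 1 1 = true :=
  ⟨(a (b (a (b (l 1) (b (a (b (a (a (l 82711358935) (l 1)) (l 1)) (a (a (b (l 16536760) (l 16516056)) (l 16546144)) (l 80027038487))) (l 1)) (a (a (b (a (l 16484936) (l 16504864)) (l 16473600)) (b (l 16532776) (l 16491032))) (a (a (l 73047694967) (l 87543205527)) (l 81637732055))))) (l 1)) (b (a (b (a (a (b (l 16407512) (l 16357752)) (l 16507096)) (b (l 16561224) (l 16452432))) (a (a (b (l 16301160) (l 16235328)) (l 16334472)) (a (l 16353640) (l 16389168)))) (b (a (a (l 77342644503) (l 132640329207)) (l 1)) (a (l 16505976) (l 140693304871)))) (a (b (a (b (l 16245544) (l 16137696)) (b (l 16271824) (l 16192592))) (a (b (l 15992096) (l 15983576)) (l 16201376))) (b (a (l 16451512) (b (l 74657937863) (l 16437096))) (a (l 16313760) (b (l 16422688) (l 16423616))))))) (b (l 1) (b (l 1) (a (b (a (b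 (l 191696385975) (l 16686840)) (l 1)) (a (b (l 16569616) (l 16570776)) (b (l 229814328535) (l 16741288)))) (l 1))))), by decide +kernel⟩

theorem c_pm_022_b : CertF 0 536870912 1239849684 370763052 469762048 67108864 true true false .pp 0 2 2
    ndF0q0 ndF1q2b pcF2 cut_pm_022_b Ext.none :=
  certF1 (fam := true) (s1 := true) (s2 := false) (a := 0) (b := 2) (c := 2) (cn := .pp) (n1 := ndF0q0) (n2 := ndF1q2b) (pc := pcF2) (cut := cut_pm_022_b) (xt := Ext.none) (P1 := 0) (W1 := 536870912) (P2 := 1239849684) (W2 := 370763052) (P3 := 469762048) (W3 := 67108864)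
    rfl (fun _ => rfl) k0_pm_022_b

noncomputable def cut_pm_023_a : Cut := Cut.of [[⟨0, 0, 1, 33554432⟩, ⟨1, 1, 0, 33554432⟩, ⟨2, 1, 1, 33554432⟩]]

noncomputable def f_pm_023_a : ℕ → ℕ → ℕ → ℕ → Bool := onCell 1610612736 536870912 0 536870912 469762048 67108864
    (rowF 2 true true false .up 0 2 3 (qsf 0 536870912 0 536870912 3) ndF0q0 ndF1q2a pcF3 cut_pm_023_a Ext.none)

def k0_pm_023_a : ∃ t, chk3 f_pm_023_a t 1 1 1 = true :=
  ⟨(a (a (b (a (b (a (l 16619224) (l 16699504)) (a (l 16607792) (l 16686408))) (b (l 16797264) (a (l 16760416) (l 16814208)))) (b (a (a (b (l 16618392) (l 16620784)) (b (l 16694304) (l 16737416))) (b (a (l 16768600) (l 16823176)) (a (l 16788768) (l 16839960)))) (a (b (a (b (l 16667808) (l 16709144)) (b (l 16740240) (a (l 16739216) (l 16778200)))) (b (a (b (l 16704976) (a (l 16700128) (l 16731408))) (a (l 142371351127) (l 2))) (a (a (a (b (l 16704280) (a (b (l 16709760) (b (l 16651792) (c (l 16738640) (c (c (l 16707656) (l 6)) (l 6))))) (b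 (l 16718072) (l 167067369847)))) (b (l 16720576) (l 162772440951))) (b (l 152571815575) (l 2))) (l 2)))) (b (a (l 108011907415) (l 2)) (l 2))))) (b (a (b (l 16864792) (a (l 16849744) (l 2))) (l 2)) (b (l 2) (l 2)))) (l 2)), by decide +kernel⟩

theorem c_pm_023_a : CertF 0 536870912 0 536870912 469762048 67108864 true true false .up 0 2 3
    ndF0q0 ndF1q2a pcF3 cut_pm_023_a Ext.none :=
  certF2 (fam := true) (s1 := true) (s2 := false) (a := 0) (b := 2) (c := 3) (cn := .up) (n1 := ndF0q0) (n2 := ndF1q2a) (pc := pcF3) (cut := cut_pm_023_a) (xt := Ext.none) (P1 := 0) (W1 := 536870912) (P2 := 0) (W2 := 536870912) (P3 := 469762048) (W3 := 67108864)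
    rfl (fun _ => rfl) k0_pm_023_a

noncomputable def cut_pm_023_b : Cut := Cut.of [[⟨0, 0, 1, 33554432⟩, ⟨1, 1, 0, 33554432⟩, ⟨2, 1, 1, 33554432⟩]]

noncomputable def f_pm_023_b : ℕ → ℕ → ℕ → ℕ → Bool := onCell 1610612736 536870912 1239849684 370763052 469762048 67108864
    (rowF 2 true true false .up 0 2 3 (qsf 0 536870912 1239849684 370763052 3) ndF0q0 ndF1q2b pcF3 cut_pm_023_b Ext.none)

def k0_pm_023_b : ∃ t, chk3 f_pm_023_b t 1 1 1 = true :=
  ⟨(a (a (b (a (b (a (b (l 16593896) (l 16526192)) (b (l 16677000) (l 16611504))) (a (b (l 16475472) (l 16437256)) (b (l 16563112) (l 16526768)))) (b (b (a (l 16746808) (l 16799464)) (l 16712888)) (b (l 16665272) (l 16632232)))) (a (b (a (b (l 16408320) (l 16448984)) (b (l 16499120) (l 16478224))) (a (b (a (l 16342560) (l 16393328)) (a (b (l 16331640) (l 16325248)) (l 16379224))) (b (l 16464504) (l 16458680)))) (b (a (l 16588512) (l 16634664)) (a (l 16554600) (l 16633000))))) (b (b (a (b (l 16884072) (l 16789008)) (b (l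 381816207783) (l 79557492503))) (a (b (l 16746896) (l 16720992)) (b (l 16774480) (l 16764208)))) (a (b (a (l 16687568) (l 16727440)) (l 16720608)) (b (a (l 16757160) (l 16779448)) (l 16793936))))) (a (b (b (l 2) (a (b (l 16803376) (l 16786680)) (a (l 16808608) (l 2)))) (a (b (a (l 16797208) (l 16812744)) (a (l 16827392) (l 16843192))) (b (a (l 16828384) (l 16843264)) (a (l 16853088) (l 4))))) (b (l 2) (l 4)))), by decide +kernel⟩

theorem c_pm_023_b : CertF 0 536870912 1239849684 370763052 469762048 67108864 true true false .up 0 2 3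
    ndF0q0 ndF1q2b pcF3 cut_pm_023_b Ext.none :=
  certF2 (fam := true) (s1 := true) (s2 := false) (a := 0) (b := 2) (c := 3) (cn := .up) (n1 := ndF0q0) (n2 := ndF1q2b) (pc := pcF3) (cut := cut_pm_023_b) (xt := Ext.none) (P1 := 0) (W1 := 536870912) (P2 := 1239849684) (W2 := 370763052) (P3 := 469762048) (W3 := 67108864)
    rfl (fun _ => rfl) k0_pm_023_b

noncomputable def f_pm_033 : ℕ → ℕ → ℕ → ℕ → Bool := onCell 0 536870912 1610612736 536870912 469762048 67108864
    (rowF 1 true true false .pnn 0 3 3 (qsf 0 536870912 1610612736 536870912 3) ndF0q0 ndF1q3 pcF3 Cut.none Ext.none)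

def k0_pm_033 : ∃ t, chk3 f_pm_033 t 1 1 1 = true :=
  ⟨(a (b (b (b (a (a (b (b (l 16568576) (l 16602720)) (l 16638600)) (l 264174117159)) (l 1)) (a (a (l 16720232) (l 16736944)) (a (l 16747728) (l 1)))) (b (a (a (l 16815424) (l 16821456)) (l 78953719719)) (a (b (l 16868064) (l 16890464)) (l 54794983687)))) (b (b (a (b (l 16901744) (l 4)) (b (l 16898584) (l 16901456))) (l 4)) (l 4))) (b (b (l 1) (a (b (l 1) (l 185254303511)) (l 1))) (b (b (a (b (l 16904136) (l 16913088)) (l 1)) (a (l 103113485943) (l 362422120711))) (l 4)))), by decide +kernel⟩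

theorem c_pm_033 : CertF 0 536870912 1610612736 536870912 469762048 67108864 true true false .pnn 0 3 3
    ndF0q0 ndF1q3 pcF3 Cut.none Ext.none :=
  certF1 (fam := true) (s1 := true) (s2 := false) (a := 0) (b := 3) (c := 3) (cn := .pnn) (n1 := ndF0q0) (n2 := ndF1q3) (pc := pcF3) (cut := Cut.none) (xt := Ext.none) (P1 := 0) (W1 := 536870912) (P2 := 1610612736) (W2 := 536870912) (P3 := 469762048) (W3 := 67108864)
    rfl (fun _ => rfl) k0_pm_033

noncomputable def cut_pm_101 : Cut := Cut.of [[⟨0, 1, 0, 67108864⟩, ⟨1, 0, 0, 67108864⟩, ⟨2, 1, 0, 67108864⟩]]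

noncomputable def f_pm_101 : ℕ → ℕ → ℕ → ℕ → Bool := onCell 536870912 536870912 0 536870912 469762048 67108864
    (rowF 2 true true false .npn 1 0 1 (qsf 536870912 536870912 0 536870912 1) ndF0q1 ndF1q0 pcF1 cut_pm_101 Ext.none)

def k0_pm_101 : ∃ t, chk3 f_pm_101 t 1 1 1 = true :=
  ⟨(a (l 3) (b (a (l 3) (b (a (l 3) (a (l 3) (a (l 3) (b (b (l 6) (l 3)) (l 3))))) (l 3))) (l 3))), by decide +kernel⟩

theorem c_pm_101 : CertF 536870912 536870912 0 536870912 469762048 67108864 true true false .npn 1 0 1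
    ndF0q1 ndF1q0 pcF1 cut_pm_101 Ext.none :=
  certF2 (fam := true) (s1 := true) (s2 := false) (a := 1) (b := 0) (c := 1) (cn := .npn) (n1 := ndF0q1) (n2 := ndF1q0) (pc := pcF1) (cut := cut_pm_101) (xt := Ext.none) (P1 := 536870912) (W1 := 536870912) (P2 := 0) (W2 := 536870912) (P3 := 469762048) (W3 := 67108864)
    rfl (fun _ => rfl) k0_pm_101

noncomputable def cut_pm_102 : Cut := Cut.of [[⟨0, 1, 0, 67108864⟩, ⟨1, 0, 0, 67108864⟩, ⟨2, 1, 0, 67108864⟩]]

noncomputable def f_pm_102 : ℕ → ℕ → ℕ → ℕ → Bool := onCell 536870912 536870912 1073741824 536870912 469762048 67108864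
    (rowF 1 true true false .npp 1 0 2 (qsf 536870912 536870912 0 536870912 2) ndF0q1 ndF1q0 pcF2 cut_pm_102 Ext.none)

def k0_pm_102 : ∃ t, chk3 f_pm_102 t 2 1 1 = true :=
  ⟨(b (b (b (l 3) (b (a (l 3) (a (b (l 3) (a (l 115058405223) (l 106468607671))) (a (b (b (l 3) (l 16924424)) (c (l 16855944) (l 16919360))) (b (b (l 3) (l 16897608)) (c (l 16874872) (l 16889016)))))) (a (a (l 2) (a (b (l 371145831735) (l 2)) (b (l 16933424) (l 16950488)))) (a (b (a (l 16941184) (l 16910736)) (l 16900728)) (b (l 16952736) (l 16846176)))))) (a (b (b (b (a (l 2) (l 50030097815)) (l 2)) (l 2)) (l 2)) (a (b (b (b (l 16876736) (b (l 16859408) (l 16848232))) (l 16822552)) (l 16778064)) (b (b (b (l 16825128) (l 16806272)) (l 16784520)) (l 16771504))))) (b (a (l 2) (a (l 2) (l 16831224))) (l 2))), by decide +kernel⟩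

def k1_pm_102 : ∃ t, chk3 f_pm_102 t 3 8 1 = true :=
  ⟨(a (b (l 3) (a (a (l 3) (b (l 3) (b (l 3) (c (l 16873472) (l 16879680))))) (a (b (l 3) (c (b (l 16885584) (l 16854512)) (b (l 16868144) (l 16857392)))) (b (c (b (c (a (l 3) (l 95194153447)) (l 61371242503)) (b (l 16877216) (l 16851528))) (c (l 78551168999) (l 16925040))) (b (c (l 16844248) (l 16845064)) (c (l 16834448) (l 16834792))))))) (a (b (b (l 3) (b (a (l 3) (a (l 3) (b (l 3) (c (c (l 16845232) (l 16843952)) (l 16822856))))) (c (a (a (l 3) (c (l 95194100455) (l 16842472))) (c (a (l 16852344) (l 16839648)) (l 23253337511))) (a (l 102173504167) (b (l 16846360) (l 16841848)))))) (a (b (a (c (b (a (l 16849304) (l 16843544)) (l 16837280)) (l 81772368087)) (c (b (a (l 16837632) (l 16831568)) (l 16825544)) (l 16871168))) (b (c (l 16822208) (l 16820984)) (l 16811376))) (b (a (b (b (l 16886032) (l 16818576)) (l 16811736)) (b (l 16891552) (l 16798912))) (b (l 16796616) (l 16788608))))) (b (a (b (b (l 3) (b (a (l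 3) (l 6)) (a (a (l 3) (c (l 76940400311) (l 16813248))) (b (l 6) (a (c (l 16806024) (l 16804936)) (l 6)))))) (c (b (a (c (b (l 16824896) (l 16810856)) (l 16832248)) (b (b (l 16821352) (l 16840488)) (l 16837696))) (a (b (l 16805984) (l 16802024)) (l 16853048))) (a (b (l 16842152) (l 16802016)) (b (l 16816888) (l 16787432))))) (b (l 6) (a (a (b (l 6) (l 16779808)) (l 6)) (l 6)))) (a (b (a (b (l 16794120) (l 16786024)) (b (l 16780928) (l 16779440))) (a (l 16782824) (l 16771424))) (a (b (b (l 16770760) (l 16764488)) (l 16755496)) (b (a (l 16755256) (l 6)) (a (l 16742816) (l 16734144)))))))), by decide +kernel⟩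

def k2_pm_102 : ∃ t, chk3 f_pm_102 t 3 9 1 = true :=
  ⟨(a (b (b (a (a (c (b (l 16881880) (l 16870944)) (l 16907080)) (c (l 16878544) (l 16862832))) (a (c (l 16860144) (l 16841232)) (c (l 16820376) (l 16819416)))) (a (a (l 16898888) (l 16858080)) (a (l 16818712) (l 16800608)))) (a (b (l 16909424) (l 16806656)) (l 16996728))) (a (a (b (b (l 16798072) (l 16784672)) (l 16791136)) (b (c (l 16792152) (l 16844264)) (l 16775424))) (b (a (a (l 16771176) (b (l 16760880) (l 16750976))) (a (b (l 16744360) (l 16733960)) (b (l 16726952) (l 16716112)))) (a (a (l 16753488) (l 16736816)) (a (l 16719104) (l 16700616)))))), by decide +kernel⟩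

def k3_pm_102 : ∃ t, chk3 f_pm_102 t 3 5 1 = true :=
  ⟨(a (b (b (a (b (l 16812184) (l 16801776)) (b (l 16784480) (l 16796864))) (a (l 16779064) (l 16802312))) (a (l 16811248) (l 16803864))) (b (a (b (a (b (l 16788728) (l 16784456)) (l 16929352)) (a (l 16778584) (l 16750232))) (b (a (b (l 16733104) (l 16725448)) (b (l 16696440) (l 16688040))) (a (l 16715584) (l 16676864)))) (a (a (l 16770080) (l 16737944)) (a (l 16700168) (l 16658464))))), by decide +kernel⟩

def k4_pm_102 : ∃ t, chk3 f_pm_102 t 3 3 1 = true :=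
  ⟨(b (a (a (l 16968728) (b (l 16808136) (l 16820424))) (a (b (l 16749560) (l 16754000)) (a (l 16874960) (b (l 16643008) (l 16650848))))) (a (b (a (l 2) (l 16838368)) (l 2)) (b (a (l 16764616) (b (l 16697000) (l 16719776))) (a (l 16787032) (b (l 16754080) (l 16819520)))))), by decide +kernel⟩

theorem s5_pm_102 : ∃ t, chk3 f_pm_102 t 3 4 1 = true := ex3_b k1_pm_102 k2_pm_102

theorem s6_pm_102 : ∃ t, chk3 f_pm_102 t 3 2 1 = true := ex3_b s5_pm_102 k3_pm_102

theorem s7_pm_102 : ∃ t, chk3 f_pm_102 t 3 1 1 = true := ex3_b s6_pm_102 k4_pm_102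

theorem s8_pm_102 : ∃ t, chk3 f_pm_102 t 1 1 1 = true := ex3_a k0_pm_102 s7_pm_102

theorem c_pm_102 : CertF 536870912 536870912 0 536870912 469762048 67108864 true true false .npp 1 0 2
    ndF0q1 ndF1q0 pcF2 cut_pm_102 Ext.none :=
  certF1 (fam := true) (s1 := true) (s2 := false) (a := 1) (b := 0) (c := 2) (cn := .npp) (n1 := ndF0q1) (n2 := ndF1q0) (pc := pcF2) (cut := cut_pm_102) (xt := Ext.none) (P1 := 536870912) (W1 := 536870912) (P2 := 0) (W2 := 536870912) (P3 := 469762048) (W3 := 67108864)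
    rfl (fun _ => rfl) s8_pm_102

noncomputable def f_pm_112 : ℕ → ℕ → ℕ → ℕ → Bool := onCell 536870912 536870912 1073741824 536870912 469762048 67108864
    (rowF 1 true true false .dn 1 1 2 (qsf 536870912 536870912 536870912 536870912 2) ndF0q1 ndF1q1 pcF2 Cut.none Ext.none)

def k0_pm_112 : ∃ t, chk3 f_pm_112 t 1 1 1 = true :=
  ⟨(a (b (b (b (l 3) (a (b (l 3) (b (a (l 3) (a (l 16912448) (l 16877704))) (a (l 122574541495) (a (l 16888168) (l 16859232))))) (b (l 1) (a (b (l 1) (l 383359523127)) (l 1))))) (b (b (b (a (a (l 16867072) (l 16850936)) (a (l 231961912519) (l 1))) (b (a (a (l 16842656) (l 16833216)) (a (l 16794808) (l 1))) (a (b (a (l 16830792) (l 16824368)) (b (a (l 16824912) (l 16819896)) (a (l 16820984) (l 16816888)))) (a (l 16788760) (l 1))))) (a (a (l 16787336) (l 16792560)) (a (l 16775032) (l 16763824)))) (a (a (l 16687152) (l 16736904)) (a (l 16753136) (l 16774088))))) (b (a (a (b (l 16632080) (l 16639104)) (b (l 16712632) (l 16734872))) (a (b (l 16761360)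 (l 16801840)) (l 16847600))) (a (a (b (l 16672400) (a (l 16676944) (l 16743504))) (b (l 16774352) (l 16794720))) (a (b (l 16847760) (l 16888936)) (l 17001320))))) (b (b (l 1) (a (b (l 1) (a (l 324303737223) (l 1))) (l 1))) (b (a (a (l 16876272) (l 279207134471)) (a (l 294239016999) (l 1))) (a (b (l 16948448) (l 16994784)) (b (a (l 16866128) (l 286186002071)) (a (l 16871616) (l 249141820951))))))), by decide +kernel⟩

theorem c_pm_112 : CertF 536870912 536870912 536870912 536870912 469762048 67108864 true true false .dn 1 1 2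
    ndF0q1 ndF1q1 pcF2 Cut.none Ext.none :=
  certF1 (fam := true) (s1 := true) (s2 := false) (a := 1) (b := 1) (c := 2) (cn := .dn) (n1 := ndF0q1) (n2 := ndF1q1) (pc := pcF2) (cut := Cut.none) (xt := Ext.none) (P1 := 536870912) (W1 := 536870912) (P2 := 536870912) (W2 := 536870912) (P3 := 469762048) (W3 := 67108864)
    rfl (fun _ => rfl) k0_pm_112

noncomputable def f_pm_113 : ℕ → ℕ → ℕ → ℕ → Bool := onCell 536870912 536870912 1610612736 536870912 469762048 67108864
    (rowF 1 true true false .nn 1 1 3 (qsf 536870912 536870912 536870912 536870912 3) ndF0q1 ndF1q1 pcF3 Cut.none Ext.none)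

def k0_pm_113 : ∃ t, chk3 f_pm_113 t 1 1 1 = true :=
  ⟨(a (b (b (a (a (b (a (l 16810640) (l 16898248)) (a (l 2) (l 16861400))) (b (a (l 16960080) (l 16995184)) (a (l 16924784) (l 16965752)))) (b (a (l 17005168) (l 17031840)) (a (l 17091648) (l 16999872)))) (a (b (a (l 2) (a (l 2) (l 16939472))) (l 2)) (a (b (l 219681710935) (l 288938071751)) (b (l 16982560) (l 16971272))))) (b (a (l 2) (b (a (l 2) (a (l 2) (l 16966096))) (l 2))) (l 2))) (b (b (a (b (l 17065888) (l 17056056)) (b (l 17087144) (l 17042912))) (a (a (l 16986032) (l 17001080)) (a (l 17042368) (l 17240328)))) (b (a (b (a (l 16972960) (l 16969312)) (a (l 328666548231) (l 17127040))) (b (a (l 16972040) (l 16988784)) (l 17169224))) (b (a (a (l 2) (l 418860177879)) (a (l 16910544) (l 16881640))) (a (l 2) (b (l 16864752) (a (l 2) (l 4)))))))), by decide +kernel⟩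

theorem c_pm_113 : CertF 536870912 536870912 536870912 536870912 469762048 67108864 true true false .nn 1 1 3
    ndF0q1 ndF1q1 pcF3 Cut.none Ext.none :=
  certF1 (fam := true) (s1 := true) (s2 := false) (a := 1) (b := 1) (c := 3) (cn := .nn) (n1 := ndF0q1) (n2 := ndF1q1) (pc := pcF3) (cut := Cut.none) (xt := Ext.none) (P1 := 536870912) (W1 := 536870912) (P2 := 536870912) (W2 := 536870912) (P3 := 469762048) (W3 := 67108864)
    rfl (fun _ => rfl) k0_pm_113

noncomputable def cut_pm_123_a : Cut := Cut.of [[⟨0, 1, 0, 67108864⟩, ⟨1, 1, 0, 67108864⟩, ⟨2, 2, 0, 16777216⟩], [⟨0, 0, 1, 33554432⟩, ⟨1, 1, 0, 33554432⟩, ⟨2, 1, 1, 33554432⟩]]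

noncomputable def f_pm_123_a : ℕ → ℕ → ℕ → ℕ → Bool := onCell 1610612736 536870912 0 536870912 469762048 67108864
    (rowF 2 true true false .npn 1 2 3 (qsf 536870912 536870912 0 536870912 3) ndF0q1 ndF1q2a pcF3 cut_pm_123_a Ext.none)

def k0_pm_123_a : ∃ t, chk3 f_pm_123_a t 4 2 1 = true :=
  ⟨(a (l 1) (b (l 1) (b (l 1) (l 16789768)))), by decide +kernel⟩

def k1_pm_123_a : ∃ t, chk3 f_pm_123_a t 4 6 1 = true :=
  ⟨(a (l 1) (b (a (l 1) (l 16823112)) (a (l 16788656) (l 16839944)))), by decide +kernel⟩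

def k2_pm_123_a : ∃ t, chk3 f_pm_123_a t 8 7 1 = true :=
  ⟨(b (a (l 1) (b (l 16740136) (a (l 16739168) (l 16778184)))) (b (a (a (l 1) (b (l 16719688) (l 16731384))) (a (b (l 16755048) (l 16766168)) (l 16798008))) (a (b (a (l 16628632) (b (l 16740384) (l 16746544))) (b (a (c (l 16762768) (l 16618584)) (a (l 16724376) (l 16759784))) (a (c (a (b (l 16760112) (a (l 16717664) (l 16767336))) (a (l 16752200) (l 16780472))) (b (a (l 16677640) (l 16694736)) (b (a (l 16630272) (c (l 16717272) (l 16677008))) (a (c (a (c (l 16708488) (l 14)) (c (l 16716856) (l 16696320))) (l 14)) (c (a (l 16714848) (l 16722888)) (a (l 14) (c (l 16692848) (l 14)))))))) (c (a (b (l 16789376) (l 16792664)) (l 16804408)) (a (b (l 16710912) (c (a (l 16729896) (l 16737496)) (a (c (l 16700240) (l 14)) (a (l 16675472) (l 16700432))))) (b (l 16726248) (b (l 16707608) (c (l 16749320) (a (l 16707088) (l 16714736)))))))))) (b (a (a (l 16767752) (l 16787256)) (l 16813864)) (b (a (a (l 16776744) (l 16795952))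 (l 16822200)) (a (c (a (l 16820024) (l 16837632)) (b (a (l 16744288) (l 16764776)) (b (a (l 16746576) (l 16767008)) (c (a (l 16766688) (l 16786384)) (a (a (l 16724056) (l 16734960)) (c (l 16759584) (b (l 16741352) (a (l 16736864) (l 16747240))))))))) (b (l 16784632) (c (l 16863224) (a (c (l 16804000) (b (l 16768928) (b (l 16770024) (c (l 16779352) (a (l 16757272) (l 16766976)))))) (b (l 16803888) (a (c (l 16817688) (l 16784336)) (l 16788624)))))))))))), by decide +kernel⟩

def k3_pm_123_a : ∃ t, chk3 f_pm_123_a t 9 7 1 = true :=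
  ⟨(b (a (b (l 16809120) (l 16825704)) (b (l 16858200) (l 16873160))) (b (a (a (l 16829880) (l 16856968)) (l 16890360)) (a (b (l 16858824) (a (b (l 16853048) (c (l 16889784) (a (a (l 16794768) (l 16823744)) (l 16835216)))) (a (l 16834096) (l 16888192)))) (b (l 16904360) (a (l 16904624) (c (l 16947504) (l 16899048))))))), by decide +kernel⟩

def k4_pm_123_a : ∃ t, chk3 f_pm_123_a t 5 1 1 = true :=
  ⟨(b (a (b (l 16822744) (a (l 16849680) (l 16870416))) (b (a (l 16873440) (l 16842904)) (l 16878664))) (b (a (b (a (l 16859360) (l 16881560)) (a (l 16874800) (l 16896784))) (b (a (l 16892896) (l 16895128)) (a (l 16908912) (l 16934672)))) (b (a (a (l 16899288) (b (l 16913632) (l 16927696))) (a (b (l 16926048) (l 16940064)) (b (l 16930928) (l 16945304)))) (a (b (a (b (l 16918168) (l 16926816)) (b (l 16939472) (l 16947824))) (a (b (l 16935888) (c (l 16966968) (a (l 16916592) (b (l 16928816) (l 16933792))))) (b (c (l 16974368) (l 16939440)) (c (l 16984232) (b (l 16946544) (a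 (l 16946160) (l 16956200))))))) (b (a (b (l 16951912) (l 16960424)) (b (l 16957000) (l 16965248))) (a (b (c (l 16983480) (l 16955248)) (c (l 16992976) (a (b (l 16959064) (l 16963976)) (b (l 16964744) (l 16969544))))) (c (b (l 16984856) (l 16993560)) (b (l 16962952) (a (b (l 16968320) (l 16973040)) (c (l 16977168) (l 16966944))))))))))), by decide +kernel⟩

def k5_pm_123_a : ∃ t, chk3 f_pm_123_a t 6 1 1 = true :=
  ⟨(b (a (b (a (b (l 16843456) (l 16852080)) (b (l 16823200) (l 16834232))) (a (l 16866416) (l 16871432))) (b (a (l 16811264) (l 16817008)) (b (a (l 16827872) (l 16811256)) (l 16831808)))) (b (b (a (l 16942584) (a (l 16856592) (l 16839584))) (a (a (l 16906392) (l 16891856)) (a (l 16875528) (l 16857352)))) (a (a (b (b (l 16924456) (l 16939784)) (b (a (l 16958416) (l 16952376)) (a (b (l 16970472) (c (l 16987488) (l 16969752))) (b (l 16964280) (l 16972128))))) (b (b (l 16909544) (l 16924992)) (b (l 16940952) (b (l 16952272) (l 16980560))))) (a (b (b (l 16892008)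 (l 16906160)) (b (l 16921448) (b (l 16932096) (l 16938824)))) (b (a (l 16925552) (l 16914776)) (b (l 16898696) (a (l 16917848) (l 16905152)))))))), by decide +kernel⟩

def k6_pm_123_a : ∃ t, chk3 f_pm_123_a t 7 1 1 = true :=
  ⟨(a (b (a (b (l 16783744) (l 16801264)) (b (a (l 16783392) (l 125325866951)) (b (l 16782248) (l 16852968)))) (b (a (b (l 16820784) (l 16837384)) (b (l 16802016) (l 16900232))) (b (a (b (l 16850552) (l 16944752)) (a (l 16922824) (l 16932032))) (a (b (l 16915592) (l 16884928)) (b (a (l 16853768) (l 16923968)) (a (l 16863368) (l 16848408))))))) (b (a (b (a (l 178476193463) (l 4)) (a (l 24930988279) (b (l 120494107191) (l 16799016)))) (a (a (b (l 4) (b (l 4) (l 16765240))) (l 4)) (l 4))) (a (b (a (b (l 16788392) (l 16863488)) (b (l 16780824) (l 16790416))) (b (a (l 16815072) (c (l 16868040) (l 16884192))) (a (b (b (l 16824232) (l 16828320)) (b (l 16831752) (l 16833992))) (a (b (l 16878840) (b (l 16820344) (l 16821952))) (b (l 16882312) (b (l 16812664)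 (l 16813848))))))) (a (b (b (a (l 16778576) (c (l 123178525879) (l 140895261511))) (a (l 16782824) (b (l 16779288) (l 16780256)))) (b (a (b (l 16790584) (l 16796352)) (b (l 16784776) (l 16789704))) (b (b (l 16796952) (a (l 16823928) (l 16837496))) (b (a (l 16804936) (l 16797176)) (a (c (l 16826776) (l 16826520)) (a (l 16817976) (b (l 16795608) (l 16795688)))))))) (b (b (l 4) (b (a (a (l 16772768) (l 4)) (l 4)) (a (a (l 16778752) (l 165591266391)) (l 4)))) (a (a (b (b (l 16780448) (l 16784776)) (b (l 16789000) (b (l 16791288) (b (l 16791592) (b (l 16791448) (l 16791808)))))) (a (b (b (l 16778712) (l 16782304)) (l 6)) (b (b (l 16778520) (l 16780664)) (l 6)))) (b (b (a (a (l 16776080) (l 303030131943)) (l 4)) (a (a (l 16779088) (l 6)) (l 6))) (l 6)))))))), by decide +kernel⟩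

theorem s7_pm_123_a : ∃ t, chk3 f_pm_123_a t 3 1 1 = true := ex3_a k5_pm_123_a k6_pm_123_a

theorem s8_pm_123_a : ∃ t, chk3 f_pm_123_a t 4 7 1 = true := ex3_a k2_pm_123_a k3_pm_123_a

theorem s9_pm_123_a : ∃ t, chk3 f_pm_123_a t 4 3 1 = true := ex3_b k1_pm_123_a s8_pm_123_a

theorem s10_pm_123_a : ∃ t, chk3 f_pm_123_a t 4 1 1 = true := ex3_b k0_pm_123_a s9_pm_123_a

theorem s11_pm_123_a : ∃ t, chk3 f_pm_123_a t 2 1 1 = true := ex3_a s10_pm_123_a k4_pm_123_a

theorem s12_pm_123_a : ∃ t, chk3 f_pm_123_a t 1 1 1 = true := ex3_a s11_pm_123_a s7_pm_123_a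

theorem c_pm_123_a : CertF 536870912 536870912 0 536870912 469762048 67108864 true true false .npn 1 2 3
    ndF0q1 ndF1q2a pcF3 cut_pm_123_a Ext.none :=
  certF2 (fam := true) (s1 := true) (s2 := false) (a := 1) (b := 2) (c := 3) (cn := .npn) (n1 := ndF0q1) (n2 := ndF1q2a) (pc := pcF3) (cut := cut_pm_123_a) (xt := Ext.none) (P1 := 536870912) (W1 := 536870912) (P2 := 0) (W2 := 536870912) (P3 := 469762048) (W3 := 67108864)
    rfl (fun _ => rfl) s12_pm_123_a

noncomputable def cut_pm_123_b : Cut := Cut.of [[⟨0, 1, 0, 67108864⟩, ⟨1, 1, 0, 67108864⟩, ⟨2, 2, 0, 16777216⟩], [⟨0, 0, 1, 33554432⟩, ⟨1, 1, 0, 33554432⟩, ⟨2, 1, 1, 33554432⟩]]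

noncomputable def f_pm_123_b : ℕ → ℕ → ℕ → ℕ → Bool := onCell 1610612736 536870912 1239849684 370763052 469762048 67108864
    (rowF 2 true true false .npn 1 2 3 (qsf 536870912 536870912 1239849684 370763052 3) ndF0q1 ndF1q2b pcF3 cut_pm_123_b Ext.none)

def k0_pm_123_b : ∃ t, chk3 f_pm_123_b t 1 1 1 = true :=
  ⟨(a (b (a (l 1) (b (a (b (a (l 16835112) (l 16851648)) (l 1)) (b (a (b (l 16863920) (l 16838496)) (b (l 16847160) (l 16825496))) (a (l 16803112) (l 16799144)))) (a (l 1) (b (l 16816224) (l 1))))) (l 1)) (a (b (a (b (b (a (b (l 16828176) (l 16811224)) (l 16867088)) (a (l 16792728) (l 16786936))) (a (l 16821936) (l 16850120))) (b (b (a (l 16854728) (b (l 16785288) (l 16783624))) (a (l 16784752) (l 16791048))) (a (l 16798120) (l 17005880)))) (a (l 1) (b (a (l 16828520) (l 16843296)) (l 1)))) (b (a (b (b (a (b (l 16783752) (l 16795064)) (a (l 16781784) (l 4))) (a (l 16808320) (l 4))) (a (b (l 16830440) (l 4)) (l 4))) (l 4)) (l 4)))), by decide +kernel⟩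

theorem c_pm_123_b : CertF 536870912 536870912 1239849684 370763052 469762048 67108864 true true false .npn 1 2 3
    ndF0q1 ndF1q2b pcF3 cut_pm_123_b Ext.none :=
  certF2 (fam := true) (s1 := true) (s2 := false) (a := 1) (b := 2) (c := 3) (cn := .npn) (n1 := ndF0q1) (n2 := ndF1q2b) (pc := pcF3) (cut := cut_pm_123_b) (xt := Ext.none) (P1 := 536870912) (W1 := 536870912) (P2 := 1239849684) (W2 := 370763052) (P3 := 469762048) (W3 := 67108864)
    rfl (fun _ => rfl) k0_pm_123_b

noncomputable def f_pm_133 : ℕ → ℕ → ℕ → ℕ → Bool := onCell 536870912 536870912 1610612736 536870912 469762048 67108864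
    (rowF 0 true true false .dn 1 3 3 (qsf 536870912 536870912 1610612736 536870912 3) ndF0q1 ndF1q3 pcF3 Cut.none Ext.none)

def k0_pm_133 : ∃ t, chk3 f_pm_133 t 1 1 1 = true :=
  ⟨(l 4), by decide +kernel⟩

theorem c_pm_133 : CertF 536870912 536870912 1610612736 536870912 469762048 67108864 true true false .dn 1 3 3
    ndF0q1 ndF1q3 pcF3 Cut.none Ext.none :=
  certF0 (fam := true) (s1 := true) (s2 := false) (a := 1) (b := 3) (c := 3) (cn := .dn) (n1 := ndF0q1) (n2 := ndF1q3) (pc := pcF3) (cut := Cut.none) (xt := Ext.none) (P1 := 536870912) (W1 := 536870912) (P2 := 1610612736) (W2 := 536870912) (P3 := 469762048) (W3 := 67108864)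
    rfl k0_pm_133

noncomputable def cut_pm_202 : Cut := Cut.of [[⟨0, 1, 0, 67108864⟩, ⟨1, 0, 0, 67108864⟩, ⟨2, 1, 0, 67108864⟩]]

noncomputable def f_pm_202 : ℕ → ℕ → ℕ → ℕ → Bool := onCell 0 536870912 0 536870912 469762048 67108864
    (rowF 0 true true false .pp 2 0 2 (qsf 0 536870912 0 536870912 2) ndF0q2 ndF1q0 pcF2 cut_pm_202 Ext.none)

def k0_pm_202 : ∃ t, chk3 f_pm_202 t 2 1 1 = true :=
  ⟨(b (b (a (b (a (b (b (a (l 16490704) (l 16499856)) (l 16481480)) (l 16468496)) (b (b (l 16516008) (l 16503864)) (l 16479392))) (a (b (l 16515848) (l 16561024)) (b (l 16511200) (l 16563120)))) (b (b (a (b (a (l 16532936) (l 16545128)) (l 16529144)) (b (a (b (l 16560208) (l 16556224)) (b (a (l 16570616) (l 16577936)) (l 16570688))) (a (l 16549272) (l 16564296)))) (a (b (l 16516456) (l 16500672)) (b (l 16546536) (l 16533656)))) (a (l 16558744) (l 16712560)))) (a (b (a (l 16624144) (l 16634112)) (a (l 16695192) (l 16715792))) (b (a (b (l 16606632) (l 16663624)) (l 16598944))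 (a (l 16734664) (b (l 16696952) (l 16761472)))))) (b (a (b (a (l 16741960) (l 16775648)) (a (l 16748696) (l 16803272))) (b (a (l 16812136) (l 16837944)) (l 17079880))) (a (l 2) (b (l 17145672) (l 2))))), by decide +kernel⟩

def k1_pm_202 : ∃ t, chk3 f_pm_202 t 3 2 1 = true :=
  ⟨(b (a (b (b (a (b (a (b (a (l 16585448) (l 16593144)) (l 16585920)) (b (a (l 16611472) (b (l 16609800) (l 16608232))) (l 16601752))) (a (l 16579976) (l 16596088))) (b (b (a (c (b (a (l 16624160) (l 16632080)) (l 16626288)) (a (l 16610520) (l 16619472))) (a (b (c (l 16640824) (l 16630160)) (l 16633672)) (b (c (l 16661200) (l 16641096)) (l 16643672)))) (a (l 16617904) (l 16635376))) (a (l 16612296) (l 16628792)))) (a (b (l 16579064) (l 16568136)) (b (a (l 16603704) (l 16619744)) (a (l 16593648) (l 16609896))))) (a (b (l 16547992) (l 16517024)) (b (a (l 16575416) (b (b (l 16664696) (l 16595848)) (l 16585920))) (l 16554312)))) (b (a (b (b (b (a (a (b (c (l 16661680) (l 16653024)) (l 16654816))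 (b (c (l 16678712) (b (l 16666496) (l 16665152))) (l 16666896))) (a (b (l 6) (l 16679864)) (l 6))) (a (a (l 16650736) (l 16662432)) (a (l 16675080) (l 16688664)))) (a (l 16669136) (b (l 16675128) (l 16668240)))) (b (a (l 16636920) (l 16657904)) (l 16666112))) (b (a (b (l 6) (b (l 6) (l 16695544))) (l 6)) (b (a (l 16725344) (a (l 16710224) (l 6))) (a (l 16668384) (a (l 16698624) (l 16719280)))))) (a (b (b (l 16642496) (a (l 16600888) (l 16614912))) (a (l 16579960) (b (l 16623320) (l 16594504)))) (a (b (l 16673984) (b (l 16638992) (l 16756448))) (b (a (l 16682336) (l 16786128)) (a (l 16662472) (l 16681504))))))) (a (b (b (l 16713208) (l 16643024)) (a (l 16672128) (l 16621832))) (b (a (b (l 16573040) (l 16572112)) (b (a (l 16618784) (a (l 16729264) (b (l 16667616) (l 16659264)))) (l 16747688))) (a (l 16592400) (a (l 16595856) (l 16619064)))))), by decide +kernel⟩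

def k2_pm_202 : ∃ t, chk3 f_pm_202 t 3 3 1 = true :=
  ⟨(b (a (b (b (l 16736400) (a (l 16854432) (l 16769632))) (a (l 17032064) (l 16951744))) (b (a (l 16661744) (a (l 16621632) (l 16698600))) (a (b (l 16747552) (l 16818368)) (a (l 16705128) (l 16659480))))) (b (a (a (l 17044688) (l 17257768)) (a (l 16949736) (b (l 16766024) (l 16835928)))) (a (l 2) (a (l 17172256) (a (l 17018896) (l 16918432)))))), by decide +kernel⟩

theorem s3_pm_202 : ∃ t, chk3 f_pm_202 t 3 1 1 = true := ex3_b k1_pm_202 k2_pm_202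

theorem s4_pm_202 : ∃ t, chk3 f_pm_202 t 1 1 1 = true := ex3_a k0_pm_202 s3_pm_202

theorem c_pm_202 : CertF 0 536870912 0 536870912 469762048 67108864 true true false .pp 2 0 2
    ndF0q2 ndF1q0 pcF2 cut_pm_202 Ext.none :=
  certF0 (fam := true) (s1 := true) (s2 := false) (a := 2) (b := 0) (c := 2) (cn := .pp) (n1 := ndF0q2) (n2 := ndF1q0) (pc := pcF2) (cut := cut_pm_202) (xt := Ext.none) (P1 := 0) (W1 := 536870912) (P2 := 0) (W2 := 536870912) (P3 := 469762048) (W3 := 67108864)
    rfl s4_pm_202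

noncomputable def f_pm_203 : ℕ → ℕ → ℕ → ℕ → Bool := onCell 0 536870912 1610612736 536870912 469762048 67108864
    (rowF 1 true true false .up 2 0 3 (qsf 0 536870912 0 536870912 3) ndF0q2 ndF1q0 pcF3 Cut.none Ext.none)

def k0_pm_203 : ∃ t, chk3 f_pm_203 t 1 1 1 = true :=
  ⟨(b (b (a (a (b (l 16710920) (l 16750368)) (b (l 16789544) (l 16800344))) (b (a (l 16891304) (l 16946288)) (a (l 16900168) (l 16973528)))) (a (b (a (l 4) (l 16783568)) (l 2)) (a (l 2) (l 2)))) (l 2)), by decide +kernel⟩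

theorem c_pm_203 : CertF 0 536870912 0 536870912 469762048 67108864 true true false .up 2 0 3
    ndF0q2 ndF1q0 pcF3 Cut.none Ext.none :=
  certF1 (fam := true) (s1 := true) (s2 := false) (a := 2) (b := 0) (c := 3) (cn := .up) (n1 := ndF0q2) (n2 := ndF1q0) (pc := pcF3) (cut := Cut.none) (xt := Ext.none) (P1 := 0) (W1 := 536870912) (P2 := 0) (W2 := 536870912) (P3 := 469762048) (W3 := 67108864)
    rfl (fun _ => rfl) k0_pm_203

noncomputable def f_pm_213 : ℕ → ℕ → ℕ → ℕ → Bool := onCell 0 536870912 1610612736 536870912 469762048 67108864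
    (rowF 1 true true false .pnn 2 1 3 (qsf 0 536870912 536870912 536870912 3) ndF0q2 ndF1q1 pcF3 Cut.none Ext.none)

def k0_pm_213 : ∃ t, chk3 f_pm_213 t 1 1 1 = true :=
  ⟨(a (a (b (b (l 1) (l 4)) (l 4)) (b (b (l 239478937799) (b (l 16830944) (l 16803920))) (l 4))) (b (b (b (a (l 1) (l 17056616)) (a (l 16992048) (l 17049520))) (b (a (l 16911240) (l 17012072)) (a (l 16862456) (l 16963616)))) (b (b (a (l 16858808) (l 16922104)) (a (l 4) (l 16890608))) (b (a (l 4) (l 16851864)) (l 4))))), by decide +kernel⟩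

theorem c_pm_213 : CertF 0 536870912 536870912 536870912 469762048 67108864 true true false .pnn 2 1 3
    ndF0q2 ndF1q1 pcF3 Cut.none Ext.none :=
  certF1 (fam := true) (s1 := true) (s2 := false) (a := 2) (b := 1) (c := 3) (cn := .pnn) (n1 := ndF0q2) (n2 := ndF1q1) (pc := pcF3) (cut := Cut.none) (xt := Ext.none) (P1 := 0) (W1 := 536870912) (P2 := 536870912) (W2 := 536870912) (P3 := 469762048) (W3 := 67108864)
    rfl (fun _ => rfl) k0_pm_213

noncomputable def f_mm_001 : ℕ → ℕ → ℕ → ℕ → Bool := onCell 0 536870912 0 536870912 469762048 67108864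
    (rowF 0 true false false .up 0 0 1 (qsf 0 536870912 0 536870912 1) ndF0q0 ndF1q0 pcF1 Cut.none Ext.none)

def k0_mm_001 : ∃ t, chk3 f_mm_001 t 1 1 1 = true :=
  ⟨(l 4), by decide +kernel⟩

theorem c_mm_001 : CertF 0 536870912 0 536870912 469762048 67108864 true false false .up 0 0 1
    ndF0q0 ndF1q0 pcF1 Cut.none Ext.none :=
  certF0 (fam := true) (s1 := false) (s2 := false) (a := 0) (b := 0) (c := 1) (cn := .up) (n1 := ndF0q0) (n2 := ndF1q0) (pc := pcF1) (cut := Cut.none) (xt := Ext.none) (P1 := 0) (W1 := 536870912) (P2 := 0) (W2 := 536870912) (P3 := 469762048) (W3 := 67108864)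
    rfl k0_mm_001

noncomputable def f_mm_011 : ℕ → ℕ → ℕ → ℕ → Bool := onCell 0 536870912 536870912 536870912 469762048 67108864
    (rowF 0 true false false .pnn 0 1 1 (qsf 0 536870912 536870912 536870912 1) ndF0q0 ndF1q1 pcF1 Cut.none Ext.none)

def k0_mm_011 : ∃ t, chk3 f_mm_011 t 1 1 1 = true :=
  ⟨(l 4), by decide +kernel⟩

theorem c_mm_011 : CertF 0 536870912 536870912 536870912 469762048 67108864 true false false .pnn 0 1 1
    ndF0q0 ndF1q1 pcF1 Cut.none Ext.none :=
  certF0 (fam := true) (s1 := false) (s2 := false) (a := 0) (b := 1) (c := 1) (cn := .pnn) (n1 := ndF0q0) (n2 := ndF1q1) (pc := pcF1) (cut := Cut.none) (xt := Ext.none) (P1 := 0) (W1 := 536870912) (P2 := 536870912) (W2 := 536870912) (P3 := 469762048) (W3 := 67108864)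
    rfl k0_mm_011

noncomputable def f_mm_012 : ℕ → ℕ → ℕ → ℕ → Bool := onCell 0 536870912 536870912 536870912 469762048 67108864
    (rowF 0 true false false .pnp 0 1 2 (qsf 0 536870912 536870912 536870912 2) ndF0q0 ndF1q1 pcF2 Cut.none Ext.none)

def k0_mm_012 : ∃ t, chk3 f_mm_012 t 1 1 1 = true :=
  ⟨(l 4), by decide +kernel⟩

theorem c_mm_012 : CertF 0 536870912 536870912 536870912 469762048 67108864 true false false .pnp 0 1 2
    ndF0q0 ndF1q1 pcF2 Cut.none Ext.none :=
  certF0 (fam := true) (s1 := false) (s2 := false) (a := 0) (b := 1) (c := 2) (cn := .pnp) (n1 := ndF0q0) (n2 := ndF1q1) (pc := pcF2) (cut := Cut.none) (xt := Ext.none) (P1 := 0) (W1 := 536870912) (P2 := 536870912) (W2 := 536870912) (P3 := 469762048) (W3 := 67108864)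
    rfl k0_mm_012

noncomputable def f_mm_022_a : ℕ → ℕ → ℕ → ℕ → Bool := onCell 0 536870912 0 536870912 469762048 67108864
    (rowF 0 true false false .pp 0 2 2 (qsf 0 536870912 0 536870912 2) ndF0q0 ndF1q2a pcF2 Cut.none Ext.none)

def k0_mm_022_a : ∃ t, chk3 f_mm_022_a t 1 1 1 = true :=
  ⟨(l 5), by decide +kernel⟩

theorem c_mm_022_a : CertF 0 536870912 0 536870912 469762048 67108864 true false false .pp 0 2 2
    ndF0q0 ndF1q2a pcF2 Cut.none Ext.none :=
  certF0 (fam := true) (s1 := false) (s2 := false) (a := 0) (b := 2) (c := 2) (cn := .pp) (n1 := ndF0q0) (n2 := ndF1q2a) (pc := pcF2) (cut := Cut.none) (xt := Ext.none) (P1 := 0) (W1 := 536870912) (P2 := 0) (W2 := 536870912) (P3 := 469762048) (W3 := 67108864)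
    rfl k0_mm_022_a

noncomputable def f_mm_022_b : ℕ → ℕ → ℕ → ℕ → Bool := onCell 0 536870912 1239849684 370763052 469762048 67108864
    (rowF 0 true false false .pp 0 2 2 (qsf 0 536870912 1239849684 370763052 2) ndF0q0 ndF1q2b pcF2 Cut.none Ext.none)

def k0_mm_022_b : ∃ t, chk3 f_mm_022_b t 1 1 1 = true :=
  ⟨(l 5), by decide +kernel⟩

theorem c_mm_022_b : CertF 0 536870912 1239849684 370763052 469762048 67108864 true false false .pp 0 2 2
    ndF0q0 ndF1q2b pcF2 Cut.none Ext.none :=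
  certF0 (fam := true) (s1 := false) (s2 := false) (a := 0) (b := 2) (c := 2) (cn := .pp) (n1 := ndF0q0) (n2 := ndF1q2b) (pc := pcF2) (cut := Cut.none) (xt := Ext.none) (P1 := 0) (W1 := 536870912) (P2 := 1239849684) (W2 := 370763052) (P3 := 469762048) (W3 := 67108864)
    rfl k0_mm_022_b

noncomputable def f_mm_023_a : ℕ → ℕ → ℕ → ℕ → Bool := onCell 0 536870912 0 536870912 469762048 67108864
    (rowF 0 true false false .up 0 2 3 (qsf 0 536870912 0 536870912 3) ndF0q0 ndF1q2a pcF3 Cut.none Ext.none)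

def k0_mm_023_a : ∃ t, chk3 f_mm_023_a t 1 1 1 = true :=
  ⟨(l 5), by decide +kernel⟩

theorem c_mm_023_a : CertF 0 536870912 0 536870912 469762048 67108864 true false false .up 0 2 3
    ndF0q0 ndF1q2a pcF3 Cut.none Ext.none :=
  certF0 (fam := true) (s1 := false) (s2 := false) (a := 0) (b := 2) (c := 3) (cn := .up) (n1 := ndF0q0) (n2 := ndF1q2a) (pc := pcF3) (cut := Cut.none) (xt := Ext.none) (P1 := 0) (W1 := 536870912) (P2 := 0) (W2 := 536870912) (P3 := 469762048) (W3 := 67108864)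
    rfl k0_mm_023_a

noncomputable def f_mm_023_b : ℕ → ℕ → ℕ → ℕ → Bool := onCell 0 536870912 1239849684 370763052 469762048 67108864
    (rowF 0 true false false .up 0 2 3 (qsf 0 536870912 1239849684 370763052 3) ndF0q0 ndF1q2b pcF3 Cut.none Ext.none)

def k0_mm_023_b : ∃ t, chk3 f_mm_023_b t 1 1 1 = true :=
  ⟨(l 5), by decide +kernel⟩

theorem c_mm_023_b : CertF 0 536870912 1239849684 370763052 469762048 67108864 true false false .up 0 2 3
    ndF0q0 ndF1q2b pcF3 Cut.none Ext.none :=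
  certF0 (fam := true) (s1 := false) (s2 := false) (a := 0) (b := 2) (c := 3) (cn := .up) (n1 := ndF0q0) (n2 := ndF1q2b) (pc := pcF3) (cut := Cut.none) (xt := Ext.none) (P1 := 0) (W1 := 536870912) (P2 := 1239849684) (W2 := 370763052) (P3 := 469762048) (W3 := 67108864)
    rfl k0_mm_023_b

noncomputable def f_mm_033 : ℕ → ℕ → ℕ → ℕ → Bool := onCell 0 536870912 1610612736 536870912 469762048 67108864
    (rowF 0 true false false .pnn 0 3 3 (qsf 0 536870912 1610612736 536870912 3) ndF0q0 ndF1q3 pcF3 Cut.none Ext.none)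

def k0_mm_033 : ∃ t, chk3 f_mm_033 t 1 1 1 = true :=
  ⟨(l 5), by decide +kernel⟩

theorem c_mm_033 : CertF 0 536870912 1610612736 536870912 469762048 67108864 true false false .pnn 0 3 3
    ndF0q0 ndF1q3 pcF3 Cut.none Ext.none :=
  certF0 (fam := true) (s1 := false) (s2 := false) (a := 0) (b := 3) (c := 3) (cn := .pnn) (n1 := ndF0q0) (n2 := ndF1q3) (pc := pcF3) (cut := Cut.none) (xt := Ext.none) (P1 := 0) (W1 := 536870912) (P2 := 1610612736) (W2 := 536870912) (P3 := 469762048) (W3 := 67108864)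
    rfl k0_mm_033

noncomputable def cut_mm_101 : Cut := Cut.of [[⟨0, 1, 0, 67108864⟩, ⟨1, 0, 0, 67108864⟩, ⟨2, 1, 0, 67108864⟩]]

noncomputable def f_mm_101 : ℕ → ℕ → ℕ → ℕ → Bool := onCell 536870912 536870912 0 536870912 469762048 67108864
    (rowF 0 true false false .npn 1 0 1 (qsf 536870912 536870912 0 536870912 1) ndF0q1 ndF1q0 pcF1 cut_mm_101 Ext.none)

def k0_mm_101 : ∃ t, chk3 f_mm_101 t 1 1 1 = true :=
  ⟨(a (l 4) (b (a (l 4) (b (a (l 4) (b (a (l 4) (b (l 6) (l 4))) (l 4))) (l 4))) (l 4))), by decide +kernel⟩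

theorem c_mm_101 : CertF 536870912 536870912 0 536870912 469762048 67108864 true false false .npn 1 0 1
    ndF0q1 ndF1q0 pcF1 cut_mm_101 Ext.none :=
  certF0 (fam := true) (s1 := false) (s2 := false) (a := 1) (b := 0) (c := 1) (cn := .npn) (n1 := ndF0q1) (n2 := ndF1q0) (pc := pcF1) (cut := cut_mm_101) (xt := Ext.none) (P1 := 536870912) (W1 := 536870912) (P2 := 0) (W2 := 536870912) (P3 := 469762048) (W3 := 67108864)
    rfl k0_mm_101

noncomputable def cut_mm_102 : Cut := Cut.of [[⟨0, 1, 0, 67108864⟩, ⟨1, 0, 0, 67108864⟩, ⟨2, 1, 0, 67108864⟩]]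

noncomputable def f_mm_102 : ℕ → ℕ → ℕ → ℕ → Bool := onCell 536870912 536870912 0 536870912 469762048 67108864
    (rowF 0 true false false .npp 1 0 2 (qsf 536870912 536870912 0 536870912 2) ndF0q1 ndF1q0 pcF2 cut_mm_102 Ext.none)

def k0_mm_102 : ∃ t, chk3 f_mm_102 t 1 1 1 = true :=
  ⟨(a (l 4) (b (a (l 4) (b (a (l 4) (a (l 4) (b (b (l 6) (l 4)) (l 4)))) (l 4))) (l 4))), by decide +kernel⟩

theorem c_mm_102 : CertF 536870912 536870912 0 536870912 469762048 67108864 true false false .npp 1 0 2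
    ndF0q1 ndF1q0 pcF2 cut_mm_102 Ext.none :=
  certF0 (fam := true) (s1 := false) (s2 := false) (a := 1) (b := 0) (c := 2) (cn := .npp) (n1 := ndF0q1) (n2 := ndF1q0) (pc := pcF2) (cut := cut_mm_102) (xt := Ext.none) (P1 := 536870912) (W1 := 536870912) (P2 := 0) (W2 := 536870912) (P3 := 469762048) (W3 := 67108864)
    rfl k0_mm_102

noncomputable def f_mm_112 : ℕ → ℕ → ℕ → ℕ → Bool := onCell 536870912 536870912 536870912 536870912 469762048 67108864
    (rowF 0 true false false .dn 1 1 2 (qsf 536870912 536870912 536870912 536870912 2) ndF0q1 ndF1q1 pcF2 Cut.none Ext.none)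

def k0_mm_112 : ∃ t, chk3 f_mm_112 t 1 1 1 = true :=
  ⟨(l 4), by decide +kernel⟩

theorem c_mm_112 : CertF 536870912 536870912 536870912 536870912 469762048 67108864 true false false .dn 1 1 2
    ndF0q1 ndF1q1 pcF2 Cut.none Ext.none :=
  certF0 (fam := true) (s1 := false) (s2 := false) (a := 1) (b := 1) (c := 2) (cn := .dn) (n1 := ndF0q1) (n2 := ndF1q1) (pc := pcF2) (cut := Cut.none) (xt := Ext.none) (P1 := 536870912) (W1 := 536870912) (P2 := 536870912) (W2 := 536870912) (P3 := 469762048) (W3 := 67108864)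
    rfl k0_mm_112

noncomputable def f_mm_113 : ℕ → ℕ → ℕ → ℕ → Bool := onCell 536870912 536870912 536870912 536870912 469762048 67108864
    (rowF 0 true false false .nn 1 1 3 (qsf 536870912 536870912 536870912 536870912 3) ndF0q1 ndF1q1 pcF3 Cut.none Ext.none)

def k0_mm_113 : ∃ t, chk3 f_mm_113 t 1 1 1 = true :=
  ⟨(l 4), by decide +kernel⟩

theorem c_mm_113 : CertF 536870912 536870912 536870912 536870912 469762048 67108864 true false false .nn 1 1 3
    ndF0q1 ndF1q1 pcF3 Cut.none Ext.none :=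
  certF0 (fam := true) (s1 := false) (s2 := false) (a := 1) (b := 1) (c := 3) (cn := .nn) (n1 := ndF0q1) (n2 := ndF1q1) (pc := pcF3) (cut := Cut.none) (xt := Ext.none) (P1 := 536870912) (W1 := 536870912) (P2 := 536870912) (W2 := 536870912) (P3 := 469762048) (W3 := 67108864)
    rfl k0_mm_113

noncomputable def f_mm_123_a : ℕ → ℕ → ℕ → ℕ → Bool := onCell 536870912 536870912 0 536870912 469762048 67108864
    (rowF 0 true false false .npn 1 2 3 (qsf 536870912 536870912 0 536870912 3) ndF0q1 ndF1q2a pcF3 Cut.none Ext.none)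

def k0_mm_123_a : ∃ t, chk3 f_mm_123_a t 1 1 1 = true :=
  ⟨(l 4), by decide +kernel⟩

theorem c_mm_123_a : CertF 536870912 536870912 0 536870912 469762048 67108864 true false false .npn 1 2 3
    ndF0q1 ndF1q2a pcF3 Cut.none Ext.none :=
  certF0 (fam := true) (s1 := false) (s2 := false) (a := 1) (b := 2) (c := 3) (cn := .npn) (n1 := ndF0q1) (n2 := ndF1q2a) (pc := pcF3) (cut := Cut.none) (xt := Ext.none) (P1 := 536870912) (W1 := 536870912) (P2 := 0) (W2 := 536870912) (P3 := 469762048) (W3 := 67108864)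
    rfl k0_mm_123_a

noncomputable def f_mm_123_b : ℕ → ℕ → ℕ → ℕ → Bool := onCell 536870912 536870912 1239849684 370763052 469762048 67108864
    (rowF 0 true false false .npn 1 2 3 (qsf 536870912 536870912 1239849684 370763052 3) ndF0q1 ndF1q2b pcF3 Cut.none Ext.none)

def k0_mm_123_b : ∃ t, chk3 f_mm_123_b t 1 1 1 = true :=
  ⟨(l 4), by decide +kernel⟩

theorem c_mm_123_b : CertF 536870912 536870912 1239849684 370763052 469762048 67108864 true false false .npn 1 2 3
    ndF0q1 ndF1q2b pcF3 Cut.none Ext.none :=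
  certF0 (fam := true) (s1 := false) (s2 := false) (a := 1) (b := 2) (c := 3) (cn := .npn) (n1 := ndF0q1) (n2 := ndF1q2b) (pc := pcF3) (cut := Cut.none) (xt := Ext.none) (P1 := 536870912) (W1 := 536870912) (P2 := 1239849684) (W2 := 370763052) (P3 := 469762048) (W3 := 67108864)
    rfl k0_mm_123_b

noncomputable def f_mm_133 : ℕ → ℕ → ℕ → ℕ → Bool := onCell 536870912 536870912 1610612736 536870912 469762048 67108864
    (rowF 0 true false false .dn 1 3 3 (qsf 536870912 536870912 1610612736 536870912 3) ndF0q1 ndF1q3 pcF3 Cut.none Ext.none)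

def k0_mm_133 : ∃ t, chk3 f_mm_133 t 1 1 1 = true :=
  ⟨(l 4), by decide +kernel⟩

theorem c_mm_133 : CertF 536870912 536870912 1610612736 536870912 469762048 67108864 true false false .dn 1 3 3
    ndF0q1 ndF1q3 pcF3 Cut.none Ext.none :=
  certF0 (fam := true) (s1 := false) (s2 := false) (a := 1) (b := 3) (c := 3) (cn := .dn) (n1 := ndF0q1) (n2 := ndF1q3) (pc := pcF3) (cut := Cut.none) (xt := Ext.none) (P1 := 536870912) (W1 := 536870912) (P2 := 1610612736) (W2 := 536870912) (P3 := 469762048) (W3 := 67108864)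
    rfl k0_mm_133

noncomputable def cut_mm_202 : Cut := Cut.of [[⟨0, 1, 0, 67108864⟩, ⟨1, 0, 0, 67108864⟩, ⟨2, 1, 0, 67108864⟩]]

noncomputable def f_mm_202 : ℕ → ℕ → ℕ → ℕ → Bool := onCell 0 536870912 0 536870912 469762048 67108864
    (rowF 0 true false false .pp 2 0 2 (qsf 0 536870912 0 536870912 2) ndF0q2 ndF1q0 pcF2 cut_mm_202 Ext.none)

def k0_mm_202 : ∃ t, chk3 f_mm_202 t 2 1 1 = true :=
  ⟨(b (b (a (b (a (b (b (l 16489808) (l 16479656)) (l 16474328)) (b (b (l 16498504) (l 16492992)) (l 16484112))) (a (l 16538360) (l 16544832))) (b (b (a (b (l 16540712) (l 16518176)) (b (a (l 16540912) (l 16557024)) (l 16551280))) (a (l 16515584) (l 16575368))) (b (l 16711920) (l 16697008)))) (a (b (a (l 16617728) (l 16618952)) (a (l 16680272) (l 16673528))) (b (b (l 16689488) (l 16791816)) (a (l 16678440) (l 16823848))))) (b (a (b (a (l 16713992) (l 16701624)) (a (l 16715560) (l 4))) (a (l 4) (l 4))) (l 4))), by decide +kernel⟩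

def k1_mm_202 : ∃ t, chk3 f_mm_202 t 3 1 1 = true :=
  ⟨(b (b (a (b (b (a (b (b (a (l 16573536) (a (l 16587560) (l 16597608))) (a (l 16575824) (l 16595632))) (a (l 16579192) (l 16600056))) (b (b (a (a (l 16608192) (b (l 16618352) (l 16620288))) (a (b (c (l 16634440) (l 16625496)) (l 16632072)) (b (c (l 16646400) (l 16638040)) (l 16644480)))) (a (l 16617472) (a (l 16635176) (l 16647800)))) (a (l 16622872) (b (l 16645736) (l 16649904))))) (a (b (l 16595080) (l 16600352)) (a (l 16675448) (l 16733496)))) (a (b (l 16611688) (l 16647688)) (b (a (l 16654304) (l 16727640)) (l 16867536)))) (b (a (a (b (b (b (a (b (c (l 16658976) (b (l 16650600) (l 16651992))) (l 16657536)) (b (b (a (l 16664632) (l 6)) (l 16669400)) (l 16671296))) (a (l 16661072) (l 16675040))) (b (l 16693816) (l 16677528))) (b (l 16684416) (l 16695168))) (b (b (b (b (l 6) (a (l 16685816) (l 6))) (a (l 16689752) (b (l 6) (l 16706640)))) (b (a (l 16694896) (l 16710656)) (l 16728912))) (b (b (l 16734136) (l 16740688))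 (l 16793696)))) (b (a (a (b (l 6) (b (l 6) (l 16733112))) (l 6)) (l 6)) (a (b (a (l 16776008) (l 4)) (l 4)) (l 4)))) (a (a (b (l 16822352) (l 4)) (l 4)) (l 4)))) (a (b (a (b (l 16677088) (l 4)) (l 4)) (l 4)) (l 4))) (l 4)), by decide +kernel⟩

theorem s2_mm_202 : ∃ t, chk3 f_mm_202 t 1 1 1 = true := ex3_a k0_mm_202 k1_mm_202

theorem c_mm_202 : CertF 0 536870912 0 536870912 469762048 67108864 true false false .pp 2 0 2
    ndF0q2 ndF1q0 pcF2 cut_mm_202 Ext.none :=
  certF0 (fam := true) (s1 := false) (s2 := false) (a := 2) (b := 0) (c := 2) (cn := .pp) (n1 := ndF0q2) (n2 := ndF1q0) (pc := pcF2) (cut := cut_mm_202) (xt := Ext.none) (P1 := 0) (W1 := 536870912) (P2 := 0) (W2 := 536870912) (P3 := 469762048) (W3 := 67108864)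
    rfl s2_mm_202

noncomputable def f_mm_203 : ℕ → ℕ → ℕ → ℕ → Bool := onCell 0 536870912 0 536870912 469762048 67108864
    (rowF 0 true false false .up 2 0 3 (qsf 0 536870912 0 536870912 3) ndF0q2 ndF1q0 pcF3 Cut.none Ext.none)

def k0_mm_203 : ∃ t, chk3 f_mm_203 t 1 1 1 = true :=
  ⟨(b (l 1) (a (b (b (l 1) (a (l 36742577623) (l 4))) (l 4)) (l 4))), by decide +kernel⟩

theorem c_mm_203 : CertF 0 536870912 0 536870912 469762048 67108864 true false false .up 2 0 3
    ndF0q2 ndF1q0 pcF3 Cut.none Ext.none :=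
  certF0 (fam := true) (s1 := false) (s2 := false) (a := 2) (b := 0) (c := 3) (cn := .up) (n1 := ndF0q2) (n2 := ndF1q0) (pc := pcF3) (cut := Cut.none) (xt := Ext.none) (P1 := 0) (W1 := 536870912) (P2 := 0) (W2 := 536870912) (P3 := 469762048) (W3 := 67108864)
    rfl k0_mm_203

noncomputable def f_mm_213 : ℕ → ℕ → ℕ → ℕ → Bool := onCell 0 536870912 536870912 536870912 469762048 67108864
    (rowF 0 true false false .pnn 2 1 3 (qsf 0 536870912 536870912 536870912 3) ndF0q2 ndF1q1 pcF3 Cut.none Ext.none)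

def k0_mm_213 : ∃ t, chk3 f_mm_213 t 1 1 1 = true :=
  ⟨(l 4), by decide +kernel⟩

theorem c_mm_213 : CertF 0 536870912 536870912 536870912 469762048 67108864 true false false .pnn 2 1 3
    ndF0q2 ndF1q1 pcF3 Cut.none Ext.none :=
  certF0 (fam := true) (s1 := false) (s2 := false) (a := 2) (b := 1) (c := 3) (cn := .pnn) (n1 := ndF0q2) (n2 := ndF1q1) (pc := pcF3) (cut := Cut.none) (xt := Ext.none) (P1 := 0) (W1 := 536870912) (P2 := 536870912) (W2 := 536870912) (P3 := 469762048) (W3 := 67108864)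
    rfl k0_mm_213

end Pool.Agent.Strip051.G.I7_16_1_2.Tab.C.FA01

namespace Pool.Agent.Strip051.G.I7_16_1_2.Tab.C.FA02

open Pool.Agent.Strip051.PB Pool.Agent.Strip051.PB.T
open Pool.Agent.Strip051.G.I7_16_1_2.Tab

noncomputable def f_pp_001 : ℕ → ℕ → ℕ → ℕ → Bool := onCell 0 536870912 0 536870912 469762048 67108864
    (rowF 0 true true true .up 0 0 1 (qsf 0 536870912 0 536870912 1) ndF0q0 ndF2q0 pcF1 Cut.none Ext.none)

def k0_pp_001 : ∃ t, chk3 f_pp_001 t 1 1 1 = true :=
  ⟨(l 4), by decide +kernel⟩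

theorem c_pp_001 : CertF 0 536870912 0 536870912 469762048 67108864 true true true .up 0 0 1
    ndF0q0 ndF2q0 pcF1 Cut.none Ext.none :=
  certF0 (fam := true) (s1 := true) (s2 := true) (a := 0) (b := 0) (c := 1) (cn := .up) (n1 := ndF0q0) (n2 := ndF2q0) (pc := pcF1) (cut := Cut.none) (xt := Ext.none) (P1 := 0) (W1 := 536870912) (P2 := 0) (W2 := 536870912) (P3 := 469762048) (W3 := 67108864)
    rfl k0_pp_001

noncomputable def f_pp_011 : ℕ → ℕ → ℕ → ℕ → Bool := onCell 0 536870912 536870912 536870912 469762048 67108864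
    (rowF 0 true true true .pnn 0 1 1 (qsf 0 536870912 536870912 536870912 1) ndF0q0 ndF2q1 pcF1 Cut.none Ext.none)

def k0_pp_011 : ∃ t, chk3 f_pp_011 t 1 1 1 = true :=
  ⟨(l 4), by decide +kernel⟩

theorem c_pp_011 : CertF 0 536870912 536870912 536870912 469762048 67108864 true true true .pnn 0 1 1
    ndF0q0 ndF2q1 pcF1 Cut.none Ext.none :=
  certF0 (fam := true) (s1 := true) (s2 := true) (a := 0) (b := 1) (c := 1) (cn := .pnn) (n1 := ndF0q0) (n2 := ndF2q1) (pc := pcF1) (cut := Cut.none) (xt := Ext.none) (P1 := 0) (W1 := 536870912) (P2 := 536870912) (W2 := 536870912) (P3 := 469762048) (W3 := 67108864)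
    rfl k0_pp_011

noncomputable def f_pp_012 : ℕ → ℕ → ℕ → ℕ → Bool := onCell 0 536870912 536870912 536870912 469762048 67108864
    (rowF 0 true true true .pnp 0 1 2 (qsf 0 536870912 536870912 536870912 2) ndF0q0 ndF2q1 pcF2 Cut.none Ext.none)

def k0_pp_012 : ∃ t, chk3 f_pp_012 t 1 1 1 = true :=
  ⟨(l 4), by decide +kernel⟩

theorem c_pp_012 : CertF 0 536870912 536870912 536870912 469762048 67108864 true true true .pnp 0 1 2
    ndF0q0 ndF2q1 pcF2 Cut.none Ext.none :=
  certF0 (fam := true) (s1 := true) (s2 := true) (a := 0) (b := 1) (c := 2) (cn := .pnp) (n1 := ndF0q0) (n2 := ndF2q1) (pc := pcF2) (cut := Cut.none) (xt := Ext.none) (P1 := 0) (W1 := 536870912) (P2 := 536870912) (W2 := 536870912) (P3 := 469762048) (W3 := 67108864)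
    rfl k0_pp_012

noncomputable def f_pp_022 : ℕ → ℕ → ℕ → ℕ → Bool := onCell 0 536870912 1073741824 536870912 469762048 67108864
    (rowF 0 true true true .pp 0 2 2 (qsf 0 536870912 1073741824 536870912 2) ndF0q0 ndF2q2 pcF2 Cut.none Ext.none)

def k0_pp_022 : ∃ t, chk3 f_pp_022 t 1 1 1 = true :=
  ⟨(l 4), by decide +kernel⟩

theorem c_pp_022 : CertF 0 536870912 1073741824 536870912 469762048 67108864 true true true .pp 0 2 2
    ndF0q0 ndF2q2 pcF2 Cut.none Ext.none :=
  certF0 (fam := true) (s1 := true) (s2 := true) (a := 0) (b := 2) (c := 2) (cn := .pp) (n1 := ndF0q0) (n2 := ndF2q2) (pc := pcF2) (cut := Cut.none) (xt := Ext.none) (P1 := 0) (W1 := 536870912) (P2 := 1073741824) (W2 := 536870912) (P3 := 469762048) (W3 := 67108864)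
    rfl k0_pp_022

noncomputable def f_pp_023 : ℕ → ℕ → ℕ → ℕ → Bool := onCell 0 536870912 1073741824 536870912 469762048 67108864
    (rowF 0 true true true .up 0 2 3 (qsf 0 536870912 1073741824 536870912 3) ndF0q0 ndF2q2 pcF3 Cut.none Ext.none)

def k0_pp_023 : ∃ t, chk3 f_pp_023 t 1 1 1 = true :=
  ⟨(l 4), by decide +kernel⟩

theorem c_pp_023 : CertF 0 536870912 1073741824 536870912 469762048 67108864 true true true .up 0 2 3
    ndF0q0 ndF2q2 pcF3 Cut.none Ext.none :=
  certF0 (fam := true) (s1 := true) (s2 := true) (a := 0) (b := 2) (c := 3) (cn := .up) (n1 := ndF0q0) (n2 := ndF2q2) (pc := pcF3) (cut := Cut.none) (xt := Ext.none) (P1 := 0) (W1 := 536870912) (P2 := 1073741824) (W2 := 536870912) (P3 := 469762048) (W3 := 67108864)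
    rfl k0_pp_023

noncomputable def f_pp_033 : ℕ → ℕ → ℕ → ℕ → Bool := onCell 0 536870912 0 1230186008 469762048 67108864
    (rowF 0 true true true .pnn 0 3 3 (qsf 0 536870912 0 1230186008 3) ndF0q0 ndF2q3 pcF3 Cut.none Ext.none)

def k0_pp_033 : ∃ t, chk3 f_pp_033 t 1 1 1 = true :=
  ⟨(b (l 4) (l 4)), by decide +kernel⟩

theorem c_pp_033 : CertF 0 536870912 0 1230186008 469762048 67108864 true true true .pnn 0 3 3
    ndF0q0 ndF2q3 pcF3 Cut.none Ext.none :=
  certF0 (fam := true) (s1 := true) (s2 := true) (a := 0) (b := 3) (c := 3) (cn := .pnn) (n1 := ndF0q0) (n2 := ndF2q3) (pc := pcF3) (cut := Cut.none) (xt := Ext.none) (P1 := 0) (W1 := 536870912) (P2 := 0) (W2 := 1230186008) (P3 := 469762048) (W3 := 67108864)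
    rfl k0_pp_033

noncomputable def f_pp_101 : ℕ → ℕ → ℕ → ℕ → Bool := onCell 536870912 536870912 0 536870912 469762048 67108864
    (rowF 0 true true true .npn 1 0 1 (qsf 536870912 536870912 0 536870912 1) ndF0q1 ndF2q0 pcF1 Cut.none Ext.none)

def k0_pp_101 : ∃ t, chk3 f_pp_101 t 1 1 1 = true :=
  ⟨(l 4), by decide +kernel⟩

theorem c_pp_101 : CertF 536870912 536870912 0 536870912 469762048 67108864 true true true .npn 1 0 1
    ndF0q1 ndF2q0 pcF1 Cut.none Ext.none :=
  certF0 (fam := true) (s1 := true) (s2 := true) (a := 1) (b := 0) (c := 1) (cn := .npn) (n1 := ndF0q1) (n2 := ndF2q0) (pc := pcF1) (cut := Cut.none) (xt := Ext.none) (P1 := 536870912) (W1 := 536870912) (P2 := 0) (W2 := 536870912) (P3 := 469762048) (W3 := 67108864)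
    rfl k0_pp_101

noncomputable def f_pp_102 : ℕ → ℕ → ℕ → ℕ → Bool := onCell 536870912 536870912 0 536870912 469762048 67108864
    (rowF 0 true true true .npp 1 0 2 (qsf 536870912 536870912 0 536870912 2) ndF0q1 ndF2q0 pcF2 Cut.none Ext.none)

def k0_pp_102 : ∃ t, chk3 f_pp_102 t 1 1 1 = true :=
  ⟨(l 4), by decide +kernel⟩

theorem c_pp_102 : CertF 536870912 536870912 0 536870912 469762048 67108864 true true true .npp 1 0 2
    ndF0q1 ndF2q0 pcF2 Cut.none Ext.none :=
  certF0 (fam := true) (s1 := true) (s2 := true) (a := 1) (b := 0) (c := 2) (cn := .npp) (n1 := ndF0q1) (n2 := ndF2q0) (pc := pcF2) (cut := Cut.none) (xt := Ext.none) (P1 := 536870912) (W1 := 536870912) (P2 := 0) (W2 := 536870912) (P3 := 469762048) (W3 := 67108864)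
    rfl k0_pp_102

noncomputable def f_pp_112 : ℕ → ℕ → ℕ → ℕ → Bool := onCell 536870912 536870912 536870912 536870912 469762048 67108864
    (rowF 0 true true true .dn 1 1 2 (qsf 536870912 536870912 536870912 536870912 2) ndF0q1 ndF2q1 pcF2 Cut.none Ext.none)

def k0_pp_112 : ∃ t, chk3 f_pp_112 t 1 1 1 = true :=
  ⟨(l 4), by decide +kernel⟩

theorem c_pp_112 : CertF 536870912 536870912 536870912 536870912 469762048 67108864 true true true .dn 1 1 2
    ndF0q1 ndF2q1 pcF2 Cut.none Ext.none :=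
  certF0 (fam := true) (s1 := true) (s2 := true) (a := 1) (b := 1) (c := 2) (cn := .dn) (n1 := ndF0q1) (n2 := ndF2q1) (pc := pcF2) (cut := Cut.none) (xt := Ext.none) (P1 := 536870912) (W1 := 536870912) (P2 := 536870912) (W2 := 536870912) (P3 := 469762048) (W3 := 67108864)
    rfl k0_pp_112

noncomputable def f_pp_113 : ℕ → ℕ → ℕ → ℕ → Bool := onCell 536870912 536870912 536870912 536870912 469762048 67108864
    (rowF 0 true true true .nn 1 1 3 (qsf 536870912 536870912 536870912 536870912 3) ndF0q1 ndF2q1 pcF3 Cut.none Ext.none)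

def k0_pp_113 : ∃ t, chk3 f_pp_113 t 1 1 1 = true :=
  ⟨(l 4), by decide +kernel⟩

theorem c_pp_113 : CertF 536870912 536870912 536870912 536870912 469762048 67108864 true true true .nn 1 1 3
    ndF0q1 ndF2q1 pcF3 Cut.none Ext.none :=
  certF0 (fam := true) (s1 := true) (s2 := true) (a := 1) (b := 1) (c := 3) (cn := .nn) (n1 := ndF0q1) (n2 := ndF2q1) (pc := pcF3) (cut := Cut.none) (xt := Ext.none) (P1 := 536870912) (W1 := 536870912) (P2 := 536870912) (W2 := 536870912) (P3 := 469762048) (W3 := 67108864)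
    rfl k0_pp_113

noncomputable def f_pp_123 : ℕ → ℕ → ℕ → ℕ → Bool := onCell 536870912 536870912 1073741824 536870912 469762048 67108864
    (rowF 0 true true true .npn 1 2 3 (qsf 536870912 536870912 1073741824 536870912 3) ndF0q1 ndF2q2 pcF3 Cut.none Ext.none)

def k0_pp_123 : ∃ t, chk3 f_pp_123 t 1 1 1 = true :=
  ⟨(l 4), by decide +kernel⟩

theorem c_pp_123 : CertF 536870912 536870912 1073741824 536870912 469762048 67108864 true true true .npn 1 2 3
    ndF0q1 ndF2q2 pcF3 Cut.none Ext.none :=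
  certF0 (fam := true) (s1 := true) (s2 := true) (a := 1) (b := 2) (c := 3) (cn := .npn) (n1 := ndF0q1) (n2 := ndF2q2) (pc := pcF3) (cut := Cut.none) (xt := Ext.none) (P1 := 536870912) (W1 := 536870912) (P2 := 1073741824) (W2 := 536870912) (P3 := 469762048) (W3 := 67108864)
    rfl k0_pp_123

noncomputable def f_pp_133 : ℕ → ℕ → ℕ → ℕ → Bool := onCell 536870912 536870912 0 1230186008 469762048 67108864
    (rowF 0 true true true .dn 1 3 3 (qsf 536870912 536870912 0 1230186008 3) ndF0q1 ndF2q3 pcF3 Cut.none Ext.none)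

def k0_pp_133 : ∃ t, chk3 f_pp_133 t 1 1 1 = true :=
  ⟨(l 4), by decide +kernel⟩

theorem c_pp_133 : CertF 536870912 536870912 0 1230186008 469762048 67108864 true true true .dn 1 3 3
    ndF0q1 ndF2q3 pcF3 Cut.none Ext.none :=
  certF0 (fam := true) (s1 := true) (s2 := true) (a := 1) (b := 3) (c := 3) (cn := .dn) (n1 := ndF0q1) (n2 := ndF2q3) (pc := pcF3) (cut := Cut.none) (xt := Ext.none) (P1 := 536870912) (W1 := 536870912) (P2 := 0) (W2 := 1230186008) (P3 := 469762048) (W3 := 67108864)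
    rfl k0_pp_133

noncomputable def f_pp_202 : ℕ → ℕ → ℕ → ℕ → Bool := onCell 0 536870912 0 536870912 469762048 67108864
    (rowF 0 true true true .pp 2 0 2 (qsf 0 536870912 0 536870912 2) ndF0q2 ndF2q0 pcF2 Cut.none Ext.none)

def k0_pp_202 : ∃ t, chk3 f_pp_202 t 1 1 1 = true :=
  ⟨(l 5), by decide +kernel⟩

theorem c_pp_202 : CertF 0 536870912 0 536870912 469762048 67108864 true true true .pp 2 0 2
    ndF0q2 ndF2q0 pcF2 Cut.none Ext.none :=
  certF0 (fam := true) (s1 := true) (s2 := true) (a := 2) (b := 0) (c := 2) (cn := .pp) (n1 := ndF0q2) (n2 := ndF2q0) (pc := pcF2) (cut := Cut.none) (xt := Ext.none) (P1 := 0) (W1 := 536870912) (P2 := 0) (W2 := 536870912) (P3 := 469762048) (W3 := 67108864)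
    rfl k0_pp_202

noncomputable def f_pp_203 : ℕ → ℕ → ℕ → ℕ → Bool := onCell 0 536870912 0 536870912 469762048 67108864
    (rowF 0 true true true .up 2 0 3 (qsf 0 536870912 0 536870912 3) ndF0q2 ndF2q0 pcF3 Cut.none Ext.none)

def k0_pp_203 : ∃ t, chk3 f_pp_203 t 1 1 1 = true :=
  ⟨(l 5), by decide +kernel⟩

theorem c_pp_203 : CertF 0 536870912 0 536870912 469762048 67108864 true true true .up 2 0 3
    ndF0q2 ndF2q0 pcF3 Cut.none Ext.none :=
  certF0 (fam := true) (s1 := true) (s2 := true) (a := 2) (b := 0) (c := 3) (cn := .up) (n1 := ndF0q2) (n2 := ndF2q0) (pc := pcF3) (cut := Cut.none) (xt := Ext.none) (P1 := 0) (W1 := 536870912) (P2 := 0) (W2 := 536870912) (P3 := 469762048) (W3 := 67108864)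
    rfl k0_pp_203

noncomputable def f_pp_213 : ℕ → ℕ → ℕ → ℕ → Bool := onCell 0 536870912 536870912 536870912 469762048 67108864
    (rowF 0 true true true .pnn 2 1 3 (qsf 0 536870912 536870912 536870912 3) ndF0q2 ndF2q1 pcF3 Cut.none Ext.none)

def k0_pp_213 : ∃ t, chk3 f_pp_213 t 1 1 1 = true :=
  ⟨(l 4), by decide +kernel⟩

theorem c_pp_213 : CertF 0 536870912 536870912 536870912 469762048 67108864 true true true .pnn 2 1 3
    ndF0q2 ndF2q1 pcF3 Cut.none Ext.none :=
  certF0 (fam := true) (s1 := true) (s2 := true) (a := 2) (b := 1) (c := 3) (cn := .pnn) (n1 := ndF0q2) (n2 := ndF2q1) (pc := pcF3) (cut := Cut.none) (xt := Ext.none) (P1 := 0) (W1 := 536870912) (P2 := 536870912) (W2 := 536870912) (P3 := 469762048) (W3 := 67108864)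
    rfl k0_pp_213

noncomputable def f_pm_001 : ℕ → ℕ → ℕ → ℕ → Bool := onCell 0 536870912 0 536870912 469762048 67108864
    (rowF 0 true true false .up 0 0 1 (qsf 0 536870912 0 536870912 1) ndF0q0 ndF2q0 pcF1 Cut.none Ext.none)

def k0_pm_001 : ∃ t, chk3 f_pm_001 t 1 1 1 = true :=
  ⟨(a (l 3) (b (l 3) (b (l 3) (a (l 3) (b (l 3) (a (l 3) (b (a (l 3) (b (l 3) (a (l 3) (a (l 3) (b (l 3) (b (l 3) (l 75866491671))))))) (a (l 3) (b (a (b (l 3) (l 3)) (b (a (b (l 3) (l 74792723687)) (b (c (l 84993320023) (l 74792712599)) (c (l 90362001079) (l 16704152)))) (a (a (b (l 72645259543) (l 33990505927)) (b (l 35601135287) (l 16690448))) (b (l 16693392) (l 16677528))))) (a (b (a (l 3) (c (b (l 82845808199) (l 32379915015)) (b (l 78550640743) (l 16611520)))) (a (b (c (l 80698332551) (l 35600975975)) (c (l 29695567719) (l 16616528))) (c (l 16704048) (l 16603856)))) (b (a (c (l 16719216) (l 16620664)) (l 16652272)) (c (l 16689808) (l 16570520))))))))))))), by decide +kernel⟩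

theorem c_pm_001 : CertF 0 536870912 0 536870912 469762048 67108864 true true false .up 0 0 1
    ndF0q0 ndF2q0 pcF1 Cut.none Ext.none :=
  certF0 (fam := true) (s1 := true) (s2 := false) (a := 0) (b := 0) (c := 1) (cn := .up) (n1 := ndF0q0) (n2 := ndF2q0) (pc := pcF1) (cut := Cut.none) (xt := Ext.none) (P1 := 0) (W1 := 536870912) (P2 := 0) (W2 := 536870912) (P3 := 469762048) (W3 := 67108864)
    rfl k0_pm_001

noncomputable def cut_pm_011 : Cut := Cut.of [[⟨0, 0, 0, 67108864⟩, ⟨1, 1, 0, 67108864⟩, ⟨2, 1, 0, 67108864⟩]]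

noncomputable def f_pm_011 : ℕ → ℕ → ℕ → ℕ → Bool := onCell 536870912 536870912 536870912 536870912 469762048 67108864
    (rowF 2 true true false .pnn 0 1 1 (qsf 0 536870912 536870912 536870912 1) ndF0q0 ndF2q1 pcF1 cut_pm_011 Ext.none)

def k0_pm_011 : ∃ t, chk3 f_pm_011 t 2 1 1 = true :=
  ⟨(l 3), by decide +kernel⟩

def k1_pm_011 : ∃ t, chk3 f_pm_011 t 3 4 1 = true :=
  ⟨(a (l 3) (a (l 3) (b (a (l 3) (b (a (c (b (a (a (l 86066858759) (l 16678944)) (l 16686120)) (a (a (l 86066842967) (l 16622432)) (b (l 16658072) (l 16638448)))) (b (a (b (l 90898641479) (l 89824888263)) (l 16597920)) (a (a (l 80161231063) (l 16603864)) (l 16581936)))) (b (b (l 16704640) (l 16582376)) (a (c (l 16627168) (l 16552320)) (l 16553584)))) (a (b (a (c (a (l 79087542887) (l 16626056)) (a (l 68886982567) (l 16594496))) (c (l 16607536) (l 16572504))) (a (c (a (l 71571357623) (l 16616784)) (a (l 65128862615) (l 16587952))) (c (l 16593744) (l 16565936)))) (b (c (a (l 16582920) (l 16558320))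 (l 16527912)) (c (a (l 16562704) (l 16531392)) (l 16521352)))))) (a (l 3) (b (a (a (a (l 3) (b (b (l 16598368) (l 16617248)) (b (l 16615464) (l 16613848)))) (b (c (l 16608824) (l 16561920)) (c (l 16615144) (l 16559560)))) (b (c (a (l 16556776) (l 16525528)) (l 16517344)) (c (a (l 16553256) (l 16522264)) (l 16536656)))) (a (a (a (l 3) (b (b (l 16614392) (l 16595912)) (l 16620032))) (b (c (l 16605680) (l 16561704)) (c (l 16589464) (l 16567032)))) (b (c (a (l 16554976) (l 16524528)) (l 16560424)) (c (l 16566872) (l 16525160))))))))), by decide +kernel⟩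

def k2_pm_011 : ∃ t, chk3 f_pm_011 t 3 5 1 = true :=
  ⟨(a (l 3) (a (l 3) (a (l 3) (b (a (a (l 3) (b (b (c (l 16592904) (l 16571312)) (c (l 16595472) (l 16574968))) (b (c (l 16618392) (l 16578224)) (c (l 25400405879) (l 16581456))))) (b (a (c (l 16608320) (l 16546272)) (c (l 16538008) (l 16518912))) (a (b (l 16561024) (l 16584736)) (c (l 16543960) (l 16527112))))) (a (a (l 3) (a (b (b (l 3) (l 3)) (l 3)) (b (b (l 16607288) (l 34527189159)) (c (b (l 16598880) (l 30232226487)) (l 35600933079))))) (b (a (c (b (l 16574288) (l 16576536)) (l 16581952)) (c (l 16569728) (l 16535000))) (b (a (c (l 16579152) (l 16567576)) (l 16547128)) (a (c (l 16608448) (l 16572752)) (l 16572360))))))))), by decide +kernel⟩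

def k3_pm_011 : ∃ t, chk3 f_pm_011 t 3 3 1 = true :=
  ⟨(a (l 3) (b (a (l 3) (a (l 3) (b (a (b (a (l 3) (a (l 3) (a (l 3) (b (l 45264600071) (l 3))))) (l 3)) (b (a (b (c (a (l 16597952) (l 16584904)) (l 16583016)) (c (l 39895910023) (l 16597712))) (b (c (l 16565312) (l 16557392)) (l 16576128))) (a (b (c (l 16641456) (l 16612248)) (c (l 16655616) (l 16626696))) (b (l 16590752) (l 16605216))))) (a (l 3) (b (a (b (c (l 42043481559) (l 16641104)) (c (l 40969767511) (l 16676472))) (b (l 16640536) (l 16654824))) (a (a (l 3) (b (l 16687848) (l 16697800))) (b (c (l 16651416) (l 16645056)) (a (l 16668680) (l 16656184))))))))) (a (l 3) (a (l 3) (b (a (l 3) (b (a (b (a (l 3) (l 41506702119)) (l 3)) (a (b (l 16704000) (c (l 16720776) (l 16695328))) (b (l 16670576) (l 16706040)))) (a (l 3) (a (a (b (l 33453677623) (l 3)) (b (l 16729960) (c (l 18958181399) (l 16743232)))) (b (c (l 16701640) (l 16697896)) (a (l 16733288) (l 16732344))))))) (a (l 3) (b (b (b (b (a (l 3) (a (c (l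 33453710151) (l 16745312)) (l 16734272))) (l 6)) (l 6)) (l 6)) (l 6)))))))), by decide +kernel⟩

theorem s4_pm_011 : ∃ t, chk3 f_pm_011 t 3 2 1 = true := ex3_b k1_pm_011 k2_pm_011

theorem s5_pm_011 : ∃ t, chk3 f_pm_011 t 3 1 1 = true := ex3_b s4_pm_011 k3_pm_011

theorem s6_pm_011 : ∃ t, chk3 f_pm_011 t 1 1 1 = true := ex3_a k0_pm_011 s5_pm_011

theorem c_pm_011 : CertF 0 536870912 536870912 536870912 469762048 67108864 true true false .pnn 0 1 1
    ndF0q0 ndF2q1 pcF1 cut_pm_011 Ext.none :=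
  certF2 (fam := true) (s1 := true) (s2 := false) (a := 0) (b := 1) (c := 1) (cn := .pnn) (n1 := ndF0q0) (n2 := ndF2q1) (pc := pcF1) (cut := cut_pm_011) (xt := Ext.none) (P1 := 0) (W1 := 536870912) (P2 := 536870912) (W2 := 536870912) (P3 := 469762048) (W3 := 67108864)
    rfl (fun _ => rfl) s6_pm_011

noncomputable def cut_pm_012 : Cut := Cut.of [[⟨0, 0, 0, 67108864⟩, ⟨1, 1, 0, 67108864⟩, ⟨2, 1, 0, 67108864⟩]]

noncomputable def f_pm_012 : ℕ → ℕ → ℕ → ℕ → Bool := onCell 1073741824 536870912 536870912 536870912 469762048 67108864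
    (rowF 2 true true false .pnp 0 1 2 (qsf 0 536870912 536870912 536870912 2) ndF0q0 ndF2q1 pcF2 cut_pm_012 Ext.none)

def k0_pm_012 : ∃ t, chk3 f_pm_012 t 2 2 1 = true :=
  ⟨(b (a (b (a (a (b (a (b (a (b (l 16597504) (l 16616432)) (l 16576856)) (a (c (b (l 16605584) (l 16581744)) (l 16495016)) (l 16528352))) (b (l 16566816) (l 16518224))) (a (b (a (c (b (l 16556808) (l 16530712)) (l 16485480)) (l 16475304)) (a (c (a (l 16532544) (l 16496552)) (l 16478912)) (l 16462864))) (b (l 16464976) (l 16419160)))) (b (a (l 16536720) (l 2)) (b (l 16459864) (l 16402864)))) (a (b (l 2) (l 16452992)) (l 2))) (a (a (b (a (b (c (b (l 16526232) (l 16523880)) (l 16503320)) (c (b (l 16522112) (l 16520936)) (l 16501688))) (b (l 16413992) (l 16411328))) (a (a (b (c (b (l 16495680) (l 16499560)) (l 16477112)) (l 16515664)) (b (l 16458816) (l 16466640))) (b (l 16414872) (l 16423544)))) (b (a (l 16352176) (l 16311752)) (l 16452416))) (a (b (l 16338136) (l 16267352)) (b (l 16394120) (l 16317800)))))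 (b (l 2) (a (a (b (l 2) (l 16388456)) (l 2)) (l 2)))) (a (a (a (a (b (a (b (b (l 16521392) (l 16505080)) (b (l 16508976) (l 16512368))) (b (l 16476000) (l 16484624))) (a (b (b (l 16515520) (l 16518784)) (b (l 16522440) (l 16547560))) (b (l 16491264) (l 16519224)))) (b (b (l 16454592) (l 16444216)) (b (l 16493232) (l 16520912)))) (b (b (l 16428200) (l 16440168)) (b (l 16428936) (l 16465224)))) (b (a (b (l 16296368) (l 16326032)) (b (l 16334968) (l 16352880))) (a (b (l 16358648) (l 16433528)) (b (l 16370824) (l 16391336))))) (a (b (a (a (l 16369552) (l 16387864)) (l 16416128)) (a (a (l 16390224) (l 16399120)) (l 16413664))) (b (a (l 16461336) (l 2)) (b (l 16466752) (l 16456112)))))), by decide +kernel⟩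

def k1_pm_012 : ∃ t, chk3 f_pm_012 t 8 3 1 = true :=
  ⟨(b (a (b (a (b (a (b (c (l 16540488) (l 16532608)) (l 16551408)) (b (l 16510048) (l 16525144))) (a (b (l 16566088) (l 16580584)) (l 16589264))) (b (l 16540128) (l 16549208))) (b (a (a (b (l 16594952) (l 16609232)) (l 16618128)) (l 16557328)) (a (a (a (a (l 16661224) (l 16633856)) (l 16666152)) (l 16667656)) (l 16606944)))) (b (b (l 16481680) (l 16489544)) (b (l 16518600) (a (l 16538904) (l 16514776))))) (a (b (a (a (a (b (b (l 16658504) (l 16672928)) (b (l 16697960) (a (l 16705392) (l 16698936)))) (b (l 16705280) (b (l 16674552) (l 16710176)))) (b (l 16696248) (b (l 16654968) (l 16690536)))) (b (l 16641248) (b (l 16624416) (l 16661744)))) (a (b (a (b (a (a (c (l 16732008) (l 16719120)) (l 16734760)) (l 16725000)) (l 6)) (b (l 16706520) (a (l 6) (l 16697448)))) (l 6)) (b (b (a (l 16666296) (l 16647448)) (a (b (l 16678424) (l 16686400)) (b (l 16658960) (l 16666528)))) (b (b (a (l 6) (l 16674008)) (l 6)) (l 6)))))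 (b (b (a (l 16558872) (l 16541456)) (a (b (l 16591712) (l 16606280)) (b (l 16561088) (l 16573872)))) (b (b (a (l 16641544) (l 16586416)) (a (b (l 16631112) (l 16638032)) (b (l 16595656) (l 16601712)))) (b (a (b (a (l 16654424) (l 16635424)) (a (l 16661400) (l 16641960))) (b (l 16607696) (a (l 16622944) (l 16604352)))) (a (b (a (l 6) (b (l 16646800) (l 6))) (l 6)) (b (a (l 16628968) (l 16609952)) (a (b (l 16633424) (l 6)) (b (l 16614096) (c (l 16622552) (l 16610792))))))))))), by decide +kernel⟩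

def k2_pm_012 : ∃ t, chk3 f_pm_012 t 9 3 1 = true :=
  ⟨(b (b (a (b (l 16418312) (l 16438456)) (b (l 16405808) (l 16417192))) (a (b (l 16459728) (l 16523048)) (b (l 16430144) (l 16444040)))) (b (a (b (a (l 16514936) (l 16490328)) (a (l 16537456) (l 16509352))) (b (l 16457920) (a (l 16483688) (l 16460056)))) (b (a (b (a (l 16553848) (l 16523200)) (a (l 16564440) (l 16532104))) (b (l 16502472) (a (l 16502080) (l 16474088)))) (a (b (a (b (l 16572200) (l 16577264)) (b (l 16538616) (l 16542848))) (a (b (a (l 16591376) (l 16573224)) (a (b (l 16595208) (l 16597728)) (b (l 16576752) (l 16579064)))) (b (a (l 16555576) (l 16538552)) (a (c (l 16567824) (l 16551456)) (l 16542400))))) (b (a (l 16529960) (l 16479280)) (a (b (l 16513976) (c (l 16527256) (l 16506648))) (b (l 16482992) (c (l 16497104) (l 16473104))))))))), by decide +kernel⟩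

def k3_pm_012 : ∃ t, chk3 f_pm_012 t 5 3 1 = true :=
  ⟨(b (a (b (a (a (l 16404360) (l 16404672)) (l 16406776)) (a (a (l 16417496) (l 16470664)) (l 16396760))) (b (a (l 16419832) (l 16441336)) (b (l 16402416) (l 16387360)))) (b (a (a (a (b (l 16430264) (l 16438536)) (b (l 16414856) (l 16419528))) (b (l 16394976) (l 16394432))) (b (l 16372008) (a (l 16368928) (l 16353792)))) (a (a (b (a (l 16467320) (a (l 16429080) (l 16418480))) (a (b (l 16451696) (b (l 16454136) (l 16497592))) (a (b (l 16432480) (l 16434392)) (b (l 16420568) (a (l 16424680) (l 16418488)))))) (b (b (l 16393824) (l 16393192)) (b (l 16392352) (a (l 16403040) (l 16380144))))) (b (a (l 16360960) (l 16338112)) (a (b (l 16354624) (a (l 16359552) (l 16341320))) (b (l 16326584) (a (l 16325528) (l 16312280)))))))), by decide +kernel⟩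

def k4_pm_012 : ∃ t, chk3 f_pm_012 t 3 1 1 = true :=
  ⟨(b (a (b (l 2) (a (b (l 2) (a (l 16525664) (l 2))) (l 2))) (l 2)) (a (b (a (b (a (l 16476680) (l 16518600)) (a (l 16418328) (l 16447872))) (b (a (l 16561432) (l 2)) (a (l 16493768) (l 16534872)))) (b (a (b (l 16384248) (a (l 16350064) (l 16361000))) (b (l 16448728) (l 16403296))) (a (b (a (l 16326280) (l 16326616)) (a (b (l 16308896) (l 16297296)) (b (l 16302920) (l 16287264)))) (b (a (l 16342640) (l 16373400)) (a (l 16300048) (b (l 16334424) (l 16308144))))))) (b (a (b (l 2) (a (l 16612792) (l 2))) (l 2)) (a (b (a (b (l 16519688) (l 16476168)) (b (l 16601112) (l 16521872))) (a (b (l 16421032) (b (l 16374672) (l 16343640))) (b (l 16479160) (a (l 16406048) (l 16445496))))) (b (a (b (l 2) (l 16624584)) (l 2)) (a (b (l 16551576) (a (l 16474744) (l 16488984))) (b (l 16638648) (l 16464232)))))))), by decide +kernel⟩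

theorem s5_pm_012 : ∃ t, chk3 f_pm_012 t 4 3 1 = true := ex3_a k1_pm_012 k2_pm_012

theorem s6_pm_012 : ∃ t, chk3 f_pm_012 t 2 3 1 = true := ex3_a s5_pm_012 k3_pm_012

theorem s7_pm_012 : ∃ t, chk3 f_pm_012 t 2 1 1 = true := ex3_b k0_pm_012 s6_pm_012

theorem s8_pm_012 : ∃ t, chk3 f_pm_012 t 1 1 1 = true := ex3_a s7_pm_012 k4_pm_012

theorem c_pm_012 : CertF 0 536870912 536870912 536870912 469762048 67108864 true true false .pnp 0 1 2
    ndF0q0 ndF2q1 pcF2 cut_pm_012 Ext.none :=
  certF2 (fam := true) (s1 := true) (s2 := false) (a := 0) (b := 1) (c := 2) (cn := .pnp) (n1 := ndF0q0) (n2 := ndF2q1) (pc := pcF2) (cut := cut_pm_012) (xt := Ext.none) (P1 := 0) (W1 := 536870912) (P2 := 536870912) (W2 := 536870912) (P3 := 469762048) (W3 := 67108864)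
    rfl (fun _ => rfl) s8_pm_012

noncomputable def f_pm_022 : ℕ → ℕ → ℕ → ℕ → Bool := onCell 1073741824 536870912 1073741824 536870912 469762048 67108864
    (rowF 2 true true false .pp 0 2 2 (qsf 0 536870912 1073741824 536870912 2) ndF0q0 ndF2q2 pcF2 Cut.none Ext.none)

def k0_pm_022 : ∃ t, chk3 f_pm_022 t 4 2 1 = true :=
  ⟨(a (l 3) (b (a (l 3) (b (a (a (a (l 3) (b (l 2489637919287) (l 16708208))) (b (b (b (c (l 16649488) (l 16643256)) (l 16638640)) (l 16647192)) (c (l 16680848) (l 16678968)))) (b (b (a (b (l 16636984) (l 16629248)) (l 16623872)) (l 16675024)) (a (l 16670480) (l 16597944)))) (a (b (b (a (l 16622376) (l 16614000)) (a (b (l 82845617271) (a (l 81771868551) (l 16614664))) (c (l 16615576) (l 16604840)))) (a (b (b (a (c (l 89690709879) (l 16608352)) (l 98280638519)) (a (l 1) (l 88080088535))) (l 1)) (a (b (a (l 90227570247) (l 97743760039)) (l 1)) (b (l 106870565575) (l 98280625367))))) (b (a (b (l 16605816) (l 16603096)) (l 16596888)) (a (b (c (l 16606912)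 (l 16592112)) (b (l 87006322935) (l 106333631783))) (b (l 16593240) (b (l 16590216) (l 85932498007)))))))) (a (l 1) (b (a (l 1) (b (b (a (l 1) (l 113312901207)) (l 1)) (l 1))) (l 1))))), by decide +kernel⟩

def k1_pm_022 : ∃ t, chk3 f_pm_022 t 10 2 1 = true :=
  ⟨(a (a (b (b (b (b (a (l 16614688) (l 16605664)) (l 16656576)) (a (l 16588232) (l 16578336))) (b (a (l 16588968) (l 16580864)) (a (b (l 16586696) (l 16583360)) (b (l 16579944) (l 16577488))))) (b (b (a (b (b (l 95059345351) (l 104186150343)) (l 1)) (b (b (l 16574528) (l 118681683191)) (c (l 113312924087) (l 110628562839)))) (l 1)) (l 1))) (a (b (b (b (b (l 16597184) (l 16580944)) (l 16567888)) (b (l 16572264) (b (l 16572704) (l 16571136)))) (b (b (b (a (l 16569232) (l 16566504)) (a (l 102038669159) (l 89153759431))) (l 1)) (l 1))) (b (b (b (a (l 16667224) (l 16662928)) (l 16557376)) (b (l 16563752) (l 16565632))) (b (b (b (a (l 16563856) (l 16561384)) (a (l 101501786631) (a (l 16558168) (l 16557184)))) (b (a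 (l 1) (a (l 1) (l 169684261447))) (l 1))) (l 1))))) (b (b (b (b (l 16571224) (l 16554680)) (l 16528568)) (b (l 16624000) (l 16546904))) (b (b (a (b (l 16553792) (l 16551136)) (l 16540520)) (b (a (b (l 101501662727) (l 97743556343)) (b (l 16538144) (l 16536944))) (a (b (l 200822808711) (l 1)) (b (l 109554692343) (l 96669781511))))) (b (b (a (l 1) (b (l 207265234855) (l 1))) (l 1)) (l 1))))), by decide +kernel⟩

def k2_pm_022 : ∃ t, chk3 f_pm_022 t 11 2 1 = true :=
  ⟨(b (a (b (b (b (a (l 16552752) (l 16541736)) (l 16530088)) (l 16501464)) (b (l 16499016) (l 16514288))) (b (b (b (a (l 16531864) (l 16523216)) (l 16509728)) (l 16522408)) (b (l 16454592) (l 16479304)))) (b (a (b (l 16521528) (a (b (l 16527584) (a (l 16528344) (l 16524096))) (l 16517584))) (b (l 16494568) (l 16502608))) (a (b (a (b (a (l 99354109191) (l 112239018647)) (l 215318274871)) (b (l 16516488) (a (l 108480917863) (l 110628422599)))) (a (l 1) (b (l 220686966007) (l 1)))) (b (a (b (l 16509096) (l 16508328))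 (l 16501976)) (a (b (l 128345171111) (l 226055660455)) (b (l 16501768) (l 137471998727))))))), by decide +kernel⟩

def k3_pm_022 : ∃ t, chk3 f_pm_022 t 2 3 1 = true :=
  ⟨(a (l 1) (a (l 1) (b (b (b (a (l 1) (a (l 1) (l 234645580567))) (l 1)) (l 1)) (l 1)))), by decide +kernel⟩

def k4_pm_022 : ∃ t, chk3 f_pm_022 t 3 1 1 = true :=
  ⟨(b (a (b (b (b (a (b (b (a (a (l 16520280) (l 16514488)) (a (l 16510200) (c (l 16519928) (l 16495144)))) (a (l 16508152) (l 16498928))) (a (l 16494152) (l 16484016))) (b (a (b (a (l 16506704) (l 16508016)) (l 16496320)) (b (l 16514680) (l 16502328))) (a (l 16480088) (l 16483968)))) (a (b (l 16551816) (l 16509216)) (a (l 16446280) (l 16447232)))) (a (a (l 16509728) (l 16504536)) (b (l 16478408) (l 16355856)))) (a (b (a (b (l 16465568) (l 16481192)) (l 16531392)) (a (b (l 16490968) (a (l 16497008) (l 16492560))) (b (l 16475008) (l 16485320)))) (a (b (l 16438880) (l 16466976)) (b (l 16385224) (l 16451392))))) (b (b (a (b (a (b (l 16527344)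 (l 16498128)) (b (l 16557800) (l 16524392))) (a (l 16456432) (l 16476976))) (b (a (l 16581848) (l 16651720)) (l 16527176))) (a (b (l 16426184) (l 16340104)) (a (l 16443104) (l 16430272)))) (a (b (a (l 16348520) (l 16309440)) (l 16509624)) (b (l 16347912) (l 16390592))))) (b (a (a (b (a (b (a (l 142303848087) (l 97206747495)) (l 246456728263)) (b (l 16490528) (l 165389387591))) (b (a (l 1) (l 262025985095)) (l 1))) (b (a (b (l 16485712) (l 16492592)) (l 16486608)) (b (a (l 182032345495) (l 16501168)) (a (l 287795803351) (l 182032277191))))) (a (b (a (l 16482136) (l 16479720)) (a (b (l 16504768) (l 16516112)) (l 16520176))) (b (l 16477616) (l 16536800)))) (a (b (a (l 1) (b (a (l 1) (l 300143862279)) (l 1))) (l 1)) (b (a (b (a (b (l 195990886407) (l 190085244503)) (l 16542704)) (a (l 314639441415) (l 197064684455))) (b (l 16572664) (a (l 16595368) (l 16620600)))) (a (b (a (l 1) (l 335577524263)) (l 1)) (a (b (l 206728463047) (l 364568705287)) (b (l 16674472) (l 215855373895)))))))),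 by decide +kernel⟩

theorem s5_pm_022 : ∃ t, chk3 f_pm_022 t 5 2 1 = true := ex3_a k1_pm_022 k2_pm_022

theorem s6_pm_022 : ∃ t, chk3 f_pm_022 t 2 2 1 = true := ex3_a k0_pm_022 s5_pm_022

theorem s7_pm_022 : ∃ t, chk3 f_pm_022 t 2 1 1 = true := ex3_b s6_pm_022 k3_pm_022

theorem s8_pm_022 : ∃ t, chk3 f_pm_022 t 1 1 1 = true := ex3_a s7_pm_022 k4_pm_022

theorem c_pm_022 : CertF 0 536870912 1073741824 536870912 469762048 67108864 true true false .pp 0 2 2
    ndF0q0 ndF2q2 pcF2 Cut.none Ext.none :=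
  certF2 (fam := true) (s1 := true) (s2 := false) (a := 0) (b := 2) (c := 2) (cn := .pp) (n1 := ndF0q0) (n2 := ndF2q2) (pc := pcF2) (cut := Cut.none) (xt := Ext.none) (P1 := 0) (W1 := 536870912) (P2 := 1073741824) (W2 := 536870912) (P3 := 469762048) (W3 := 67108864)
    rfl (fun _ => rfl) s8_pm_022

noncomputable def f_pm_023 : ℕ → ℕ → ℕ → ℕ → Bool := onCell 1610612736 536870912 1073741824 536870912 469762048 67108864
    (rowF 2 true true false .up 0 2 3 (qsf 0 536870912 1073741824 536870912 3) ndF0q0 ndF2q2 pcF3 Cut.none Ext.none)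

def k0_pm_023 : ∃ t, chk3 f_pm_023 t 1 1 1 = true :=
  ⟨(a (b (a (b (a (b (b (a (l 16534456) (l 16661192)) (a (l 16484240) (l 16610432))) (b (l 16505016) (l 16471472))) (b (b (l 2) (l 16754568)) (a (l 16652816) (l 16735320)))) (a (b (l 16547096) (l 16452496)) (b (l 16633248) (l 16604344)))) (b (b (l 2) (a (l 282495364519) (l 2))) (b (a (l 16766488) (l 16846648)) (a (l 16720816) (l 16800680))))) (a (b (a (b (l 16518120) (l 16573264)) (b (l 16612528) (l 16645064))) (b (a (b (l 16623488) (l 16663360)) (l 16688456)) (a (b (l 16665416) (a (b (l 16726000) (l 16743592)) (l 16754056))) (b (l 16732632) (l 16760520))))) (b (a (b (l 16701496) (l 16707552)) (b (l 16768808) (l 16758520))) (b (a (l 16730008) (l 16766912)) (a (l 16767120) (l 16790000)))))) (b (a (b (l 2) (a (l 178879348567) (l 2))) (l 2)) (a (b (a (b (l 16806144) (l 16790608)) (b (l 16811528) (l 16801224))) (a (b (l 16794432) (l 16811792)) (b (l 16808000) (l 16825032)))) (b (a (l 250283080647) (l 2)) (a (b (l 16820048)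 (l 16835456)) (a (l 16932432) (a (l 16822416) (l 4)))))))), by decide +kernel⟩

theorem c_pm_023 : CertF 0 536870912 1073741824 536870912 469762048 67108864 true true false .up 0 2 3
    ndF0q0 ndF2q2 pcF3 Cut.none Ext.none :=
  certF2 (fam := true) (s1 := true) (s2 := false) (a := 0) (b := 2) (c := 3) (cn := .up) (n1 := ndF0q0) (n2 := ndF2q2) (pc := pcF3) (cut := Cut.none) (xt := Ext.none) (P1 := 0) (W1 := 536870912) (P2 := 1073741824) (W2 := 536870912) (P3 := 469762048) (W3 := 67108864)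
    rfl (fun _ => rfl) k0_pm_023

noncomputable def f_pm_033 : ℕ → ℕ → ℕ → ℕ → Bool := onCell 1610612736 536870912 0 1230186008 469762048 67108864
    (rowF 2 true true false .pnn 0 3 3 (qsf 0 536870912 0 1230186008 3) ndF0q0 ndF2q3 pcF3 Cut.none Ext.none)

def k0_pm_033 : ∃ t, chk3 f_pm_033 t 1 1 1 = true :=
  ⟨(b (a (l 1) (a (l 1) (l 4))) (b (a (a (l 1) (a (l 1) (b (l 1) (b (l 1) (l 16838304))))) (a (a (b (l 1) (l 16903088)) (b (l 16933824) (l 16906816))) (a (b (l 4) (l 16891384)) (l 4)))) (a (b (a (l 1) (a (b (l 389801815399) (a (l 16731552) (l 16762784))) (b (l 16819256) (l 16805904)))) (a (b (a (l 1) (a (b (l 1) (l 227129547303)) (b (l 16704248) (l 16707984)))) (a (b (a (l 1) (a (l 232498156071) (l 16667512))) (a (b (l 186327215239) (l 176126597879)) (b (l 161094430375) (l 16635696)))) (b (a (l 16685168) (l 16709040)) (b (l 16693144) (l 16676000))))) (b (a (a (l 16732392) (l 16758912)) (l 16795664)) (a (b (l 16746264) (l 16735272)) (b (l 16788200) (l 16779144))))))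 (a (b (a (a (l 16849832) (l 16867368)) (l 17071224)) (a (b (l 16836048) (l 16819248)) (b (l 16856648) (l 16839960)))) (b (a (l 16875096) (l 4)) (a (b (l 16861368) (l 16843768)) (a (b (l 4) (l 16839896)) (l 4)))))))), by decide +kernel⟩

theorem c_pm_033 : CertF 0 536870912 0 1230186008 469762048 67108864 true true false .pnn 0 3 3
    ndF0q0 ndF2q3 pcF3 Cut.none Ext.none :=
  certF2 (fam := true) (s1 := true) (s2 := false) (a := 0) (b := 3) (c := 3) (cn := .pnn) (n1 := ndF0q0) (n2 := ndF2q3) (pc := pcF3) (cut := Cut.none) (xt := Ext.none) (P1 := 0) (W1 := 536870912) (P2 := 0) (W2 := 1230186008) (P3 := 469762048) (W3 := 67108864)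
    rfl (fun _ => rfl) k0_pm_033

noncomputable def f_pm_101 : ℕ → ℕ → ℕ → ℕ → Bool := onCell 536870912 536870912 0 536870912 469762048 67108864
    (rowF 2 true true false .npn 1 0 1 (qsf 536870912 536870912 0 536870912 1) ndF0q1 ndF2q0 pcF1 Cut.none Ext.none)

def k0_pm_101 : ∃ t, chk3 f_pm_101 t 2 1 1 = true :=
  ⟨(l 3), by decide +kernel⟩

def k1_pm_101 : ∃ t, chk3 f_pm_101 t 3 2 1 = true :=
  ⟨(a (l 3) (b (a (l 3) (a (b (a (b (b (l 57076360887) (l 16897256)) (l 54928987479)) (b (l 16888328) (l 16892432))) (a (b (l 16944504) (l 16973832)) (b (l 16918864) (l 16946848)))) (b (b (a (l 16845736) (l 16825576)) (l 16880104)) (b (l 16884272) (l 16910592))))) (a (l 3) (b (a (a (a (l 3) (b (l 16997896) (l 17031768))) (b (l 16976648) (l 17008928))) (b (l 16959432) (l 16968176))) (b (a (a (l 1089479410551) (c (l 17045560) (l 17107208))) (l 17021592)) (a (a (l 3) (a (b (l 143512807015) (c (l 17061648) (a (l 176798898359) (l 17077784)))) (b (l 17066616) (l 17082672)))) (a (l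 17052304) (l 17022352)))))))), by decide +kernel⟩

def k2_pm_101 : ∃ t, chk3 f_pm_101 t 3 3 1 = true :=
  ⟨(b (a (l 3) (a (l 3) (b (a (a (l 3) (b (b (a (b (a (l 173577720903) (l 17049344)) (l 131701710967)) (l 17093824)) (a (l 82846434263) (l 17080752))) (b (c (l 17078648) (l 17107304)) (l 51171141543)))) (b (a (b (l 17068800) (l 17058072)) (l 17055696)) (a (c (l 17047248) (l 17066624)) (l 17011600)))) (b (a (a (l 3) (b (l 48486717175) (l 47949774311))) (a (a (l 17001688) (l 16990976)) (l 16975336))) (a (a (l 3) (b (l 45265347911) (l 51170835047))) (a (b (l 16958656) (l 16930248)) (l 16925800))))))) (a (l 3) (b (a (l 3) (a (a (l 3) (a (l 3) (b (b (l 16913992) (l 16881896)) (b (l 65129177287) (c (l 16850840) (l 54391680951)))))) (b (a (b (l 16899480) (l 16866968)) (b (l 16880800) (l 16847360))) (a (b (a (l 16838104) (l 16827656)) (a (b (l 16811976) (l 16794200)) (l 16791840))) (b (l 16811968) (l 16774800)))))) (a (l 3) (a (a (l 3) (a (l 3) (a (l 3) (b (b (l 62981521239)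 (b (l 16751104) (c (l 16756544) (l 16690520)))) (b (b (l 144451725431) (l 1)) (l 1)))))) (b (a (b (a (c (l 16808960) (l 16725184)) (l 16754928)) (b (a (l 16740712) (l 16726968)) (a (c (l 16768264) (l 16677520)) (l 16708536)))) (b (a (l 16742360) (l 16729872)) (b (l 16706504) (l 16686664)))) (b (a (b (a (c (l 16753848) (l 16661040)) (l 16692040)) (a (l 177737622583) (l 16677104))) (b (l 16626584) (a (l 16660288) (l 16643512)))) (a (a (l 1) (l 180958704503)) (c (b (l 16688696) (l 16671128)) (l 71436944039)))))))))), by decide +kernel⟩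

theorem s3_pm_101 : ∃ t, chk3 f_pm_101 t 3 1 1 = true := ex3_b k1_pm_101 k2_pm_101

theorem s4_pm_101 : ∃ t, chk3 f_pm_101 t 1 1 1 = true := ex3_a k0_pm_101 s3_pm_101

theorem c_pm_101 : CertF 536870912 536870912 0 536870912 469762048 67108864 true true false .npn 1 0 1
    ndF0q1 ndF2q0 pcF1 Cut.none Ext.none :=
  certF2 (fam := true) (s1 := true) (s2 := false) (a := 1) (b := 0) (c := 1) (cn := .npn) (n1 := ndF0q1) (n2 := ndF2q0) (pc := pcF1) (cut := Cut.none) (xt := Ext.none) (P1 := 536870912) (W1 := 536870912) (P2 := 0) (W2 := 536870912) (P3 := 469762048) (W3 := 67108864)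
    rfl (fun _ => rfl) s4_pm_101

noncomputable def f_pm_102 : ℕ → ℕ → ℕ → ℕ → Bool := onCell 1073741824 536870912 0 536870912 469762048 67108864
    (rowF 2 true true false .npp 1 0 2 (qsf 536870912 536870912 0 536870912 2) ndF0q1 ndF2q0 pcF2 Cut.none Ext.none)

def k0_pm_102 : ∃ t, chk3 f_pm_102 t 2 2 1 = true :=
  ⟨(a (b (a (b (a (b (a (b (l 16805200) (l 16815784)) (l 16808640)) (a (l 16829736) (l 16807968))) (b (a (l 179952517271) (l 2)) (a (l 16785664) (l 16765752)))) (a (b (l 16837888) (l 16862096)) (b (l 16815256) (l 16808696)))) (b (a (b (l 2) (a (l 16748416) (l 2))) (l 2)) (a (b (l 16757000) (l 16815488)) (b (l 16730936) (l 16770680))))) (a (a (b (l 16985160) (a (l 17082744) (l 16942856))) (b (l 16839056) (l 16891736))) (b (a (l 16800440) (l 16820248)) (a (l 16831376) (l 16796152))))) (b (a (b (l 2) (a (b (l 2) (l 16724744)) (l 2))) (l 2)) (a (b (a (l 16788784) (l 16757360)) (l 16998280)) (b (b (l 2) (l 17000128)) (a (l 16810144) (l 16811960)))))), by decide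 +kernel⟩

def k1_pm_102 : ∃ t, chk3 f_pm_102 t 2 3 1 = true :=
  ⟨(b (a (a (b (b (a (l 17009776) (l 16918352)) (a (a (l 16985848) (l 16951472)) (l 16902576))) (a (b (a (l 16952560) (l 16921144)) (a (l 16905680) (l 16878488))) (b (l 16877152) (l 16841856)))) (b (a (l 16852448) (l 16809560)) (a (l 16817496) (l 16791456)))) (a (b (b (l 16821448) (l 16867592)) (a (l 16785360) (l 16803744))) (b (l 16903408) (l 16872968)))) (a (a (b (a (b (a (l 16845776) (l 16823456)) (a (b (l 16793656) (l 16756288)) (l 16757672))) (b (l 16795224) (l 16737512))) (a (b (a (b (a (l 16721632) (l 16713064)) (b (l 16686936) (a (l 16670408) (l 16662832)))) (b (l 16702336) (l 16663816))) (a (b (a (b (l 16651312) (l 16591448)) (l 16634768)) (a (b (c (l 16673224) (l 16554704)) (c (l 16654256) (l 16533544))) (l 16554832))) (b (l 16626168) (l 16588712)))) (b (b (l 16688312) (l 16652792)) (b (l 16617976) (l 16582160))))) (b (a (l 16746632) (l 16738656)) (b (a (l 16668144) (l 16677936)) (a (l 16606424)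 (l 16626632))))) (b (a (a (l 16746976) (l 16770872)) (l 16828360)) (a (a (b (l 16699088) (l 16657552)) (l 16715000)) (l 16780904))))), by decide +kernel⟩

def k2_pm_102 : ∃ t, chk3 f_pm_102 t 3 1 1 = true :=
  ⟨(b (a (b (l 2) (a (b (l 2) (a (l 16845632) (l 2))) (l 2))) (l 2)) (b (a (a (b (b (l 16950104) (l 17030544)) (l 17001536)) (b (a (l 17095528) (l 2)) (a (l 17081440) (l 17133840)))) (a (b (l 2) (a (l 17195552) (l 2))) (l 2))) (a (b (a (l 16915320) (l 16990096)) (a (l 16869608) (l 16938744))) (a (b (l 17325824) (a (l 16979408) (l 17008016))) (b (a (l 17150592) (l 2)) (b (l 17085048) (l 17040968))))))), by decide +kernel⟩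

theorem s3_pm_102 : ∃ t, chk3 f_pm_102 t 2 1 1 = true := ex3_b k0_pm_102 k1_pm_102

theorem s4_pm_102 : ∃ t, chk3 f_pm_102 t 1 1 1 = true := ex3_a s3_pm_102 k2_pm_102

theorem c_pm_102 : CertF 536870912 536870912 0 536870912 469762048 67108864 true true false .npp 1 0 2
    ndF0q1 ndF2q0 pcF2 Cut.none Ext.none :=
  certF2 (fam := true) (s1 := true) (s2 := false) (a := 1) (b := 0) (c := 2) (cn := .npp) (n1 := ndF0q1) (n2 := ndF2q0) (pc := pcF2) (cut := Cut.none) (xt := Ext.none) (P1 := 536870912) (W1 := 536870912) (P2 := 0) (W2 := 536870912) (P3 := 469762048) (W3 := 67108864)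
    rfl (fun _ => rfl) s4_pm_102

noncomputable def f_pm_112 : ℕ → ℕ → ℕ → ℕ → Bool := onCell 1073741824 536870912 536870912 536870912 469762048 67108864
    (rowF 2 true true false .dn 1 1 2 (qsf 536870912 536870912 536870912 536870912 2) ndF0q1 ndF2q1 pcF2 Cut.none Ext.none)

def k0_pm_112 : ∃ t, chk3 f_pm_112 t 1 1 1 = true :=
  ⟨(a (b (b (a (b (a (a (b (b (a (b (l 228740404855) (l 222834808743)) (l 16566832)) (l 219613277655)) (l 381211357447)) (b (b (l 16558680) (l 16511880)) (l 205117544327))) (b (a (l 16546224) (l 16573528)) (a (l 16453008) (l 16493248)))) (a (a (l 1) (b (l 343093387143) (l 1))) (b (a (l 16338240) (l 16394128)) (a (l 16287912) (l 16317648))))) (b (a (a (b (l 16611536) (l 16545592)) (l 16632096)) (l 16716160)) (a (a (b (l 16462792) (l 16388432)) (l 16498312)) (b (l 16648384) (l 16590240))))) (a (a (l 1) (b (a (l 1) (l 303901939815)) (l 1))) (a (b (a (a (l 16369136) (l 16387600)) (l 16415976)) (a (l 1) (l 16412768))) (b (a (l 16461344) (l 16530952))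 (l 138545934407))))) (a (l 1) (b (a (l 1) (b (l 285111706135) (l 1))) (l 1)))) (b (a (b (b (a (l 16817776) (l 16895984)) (a (l 16756416) (l 16850232))) (a (b (l 16669080) (a (l 16525672) (l 16596416))) (b (l 16793784) (a (l 16683120) (l 16747240))))) (b (a (b (l 16949832) (l 16916120)) (b (l 17001360) (l 16964496))) (a (b (l 16873352) (l 16822040)) (b (l 16929368) (l 16892120))))) (a (b (a (b (l 130492924743) (l 289943527591)) (b (a (l 16561448) (l 16652648)) (a (l 16493248) (l 16534696)))) (a (l 1) (b (l 352757258023) (l 1)))) (a (b (b (a (l 16720168) (l 16776440)) (a (l 16612800) (l 16689512))) (b (a (l 136398210839) (b (l 16601096) (l 16521728))) (a (l 1) (b (l 16478760) (l 1))))) (b (b (l 16842712) (a (l 16750216) (l 16795680))) (b (a (b (l 16682560) (l 16624560)) (b (l 16738696) (l 16693904))) (a (b (l 16551424) (l 372084336007)) (b (l 16638632) (l 16464072))))))))), by decide +kernel⟩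

theorem c_pm_112 : CertF 536870912 536870912 536870912 536870912 469762048 67108864 true true false .dn 1 1 2
    ndF0q1 ndF2q1 pcF2 Cut.none Ext.none :=
  certF2 (fam := true) (s1 := true) (s2 := false) (a := 1) (b := 1) (c := 2) (cn := .dn) (n1 := ndF0q1) (n2 := ndF2q1) (pc := pcF2) (cut := Cut.none) (xt := Ext.none) (P1 := 536870912) (W1 := 536870912) (P2 := 536870912) (W2 := 536870912) (P3 := 469762048) (W3 := 67108864)
    rfl (fun _ => rfl) k0_pm_112

noncomputable def f_pm_113 : ℕ → ℕ → ℕ → ℕ → Bool := onCell 536870912 536870912 1610612736 536870912 469762048 67108864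
    (rowF 1 true true false .nn 1 1 3 (qsf 536870912 536870912 536870912 536870912 3) ndF0q1 ndF2q1 pcF3 Cut.none Ext.none)

def k0_pm_113 : ∃ t, chk3 f_pm_113 t 1 1 1 = true :=
  ⟨(a (b (b (a (b (a (a (b (b (l 16551712) (l 180488377991)) (l 304505625367)) (b (l 16655624) (l 16675760))) (b (l 16759168) (a (l 16746656) (l 16802600)))) (a (a (l 2) (l 296452896951)) (a (l 16761352) (l 16818264)))) (b (a (l 16860480) (l 16924608)) (a (l 16883648) (l 16947504)))) (a (a (l 2) (b (l 373762812711) (l 2))) (b (a (l 16925784) (l 16988664)) (a (l 17003960) (l 17051720))))) (b (a (l 2) (b (l 402218171223) (l 2))) (l 2))) (b (a (b (b (a (l 16965264) (l 16989824)) (l 17001968)) (b (l 17029048) (l 17057816))) (b (b (a (l 17009880) (l 17036752)) (a (l 17016128) (l 17024512))) (b (l 17015792) (l 17004584)))) (b (b (a (b (l 17078560) (l 17091120)) (l 4)) (a (l 17099040) (l 4))) (l 4)))), by decide +kernel⟩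

theorem c_pm_113 : CertF 536870912 536870912 536870912 536870912 469762048 67108864 true true false .nn 1 1 3
    ndF0q1 ndF2q1 pcF3 Cut.none Ext.none :=
  certF1 (fam := true) (s1 := true) (s2 := false) (a := 1) (b := 1) (c := 3) (cn := .nn) (n1 := ndF0q1) (n2 := ndF2q1) (pc := pcF3) (cut := Cut.none) (xt := Ext.none) (P1 := 536870912) (W1 := 536870912) (P2 := 536870912) (W2 := 536870912) (P3 := 469762048) (W3 := 67108864)
    rfl (fun _ => rfl) k0_pm_113

noncomputable def f_pm_123 : ℕ → ℕ → ℕ → ℕ → Bool := onCell 1610612736 536870912 1073741824 536870912 469762048 67108864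
    (rowF 2 true true false .npn 1 2 3 (qsf 536870912 536870912 1073741824 536870912 3) ndF0q1 ndF2q2 pcF3 Cut.none Ext.none)

def k0_pm_123 : ∃ t, chk3 f_pm_123 t 1 1 1 = true :=
  ⟨(a (b (a (b (b (a (b (a (l 16534320) (l 16661176)) (l 167537178855)) (b (a (l 16763040) (l 16841296)) (l 16754576))) (a (a (l 1) (l 16545336)) (a (l 16652464) (l 16735224)))) (a (l 1) (b (l 223908937575) (l 1)))) (b (b (a (b (a (l 16900176) (l 16941216)) (l 16879928)) (b (l 16976488) (l 16944120))) (a (b (l 16843160) (l 16811112)) (l 16921704))) (b (a (l 16766240) (l 16846664)) (a (l 16720096) (l 16800520))))) (a (l 1) (b (a (l 1) (b (l 16768464) (l 1))) (l 1)))) (b (a (b (b (a (l 17070312) (l 17055768)) (a (l 17055728) (l 16914744))) (a (b (l 16883176) (l 16839208)) (b (l 16949072) (l 16842248)))) (a (b (b (a (b (l 16893792) (l 16883880)) (b (l 16891552) (l 16856072))) (l 16865144)) (b (l 16858456) (l 16821600))) (b (a (b (b (l 16844120) (l 16833320)) (b (l 16824920) (l 16822080))) (a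 (b (l 16815760) (l 16805904)) (a (b (l 16886280) (l 16840640)) (b (a (l 16795696) (l 910231609911)) (a (l 16794336) (l 16917768)))))) (a (b (l 16820528) (l 16800040)) (a (l 17027256) (a (b (l 16793168) (l 16792008)) (b (a (l 16790368) (a (l 16789376) (l 16788824))) (l 16852928)))))))) (a (b (b (a (l 16806080) (l 16811528)) (a (l 16790600) (l 16801256))) (a (l 1) (b (l 16808224) (l 1)))) (b (a (b (l 16804104) (l 16801488)) (a (l 16883192) (a (l 16806464) (a (l 16802960) (l 16981496))))) (a (b (l 16820096) (l 16835624)) (a (l 17037296) (a (l 16822416) (l 4)))))))), by decide +kernel⟩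

theorem c_pm_123 : CertF 536870912 536870912 1073741824 536870912 469762048 67108864 true true false .npn 1 2 3
    ndF0q1 ndF2q2 pcF3 Cut.none Ext.none :=
  certF2 (fam := true) (s1 := true) (s2 := false) (a := 1) (b := 2) (c := 3) (cn := .npn) (n1 := ndF0q1) (n2 := ndF2q2) (pc := pcF3) (cut := Cut.none) (xt := Ext.none) (P1 := 536870912) (W1 := 536870912) (P2 := 1073741824) (W2 := 536870912) (P3 := 469762048) (W3 := 67108864)
    rfl (fun _ => rfl) k0_pm_123

noncomputable def f_pm_133 : ℕ → ℕ → ℕ → ℕ → Bool := onCell 536870912 536870912 0 1230186008 469762048 67108864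
    (rowF 0 true true false .dn 1 3 3 (qsf 536870912 536870912 0 1230186008 3) ndF0q1 ndF2q3 pcF3 Cut.none Ext.none)

def k0_pm_133 : ∃ t, chk3 f_pm_133 t 1 1 1 = true :=
  ⟨(b (l 2) (b (l 2) (a (l 4) (l 2)))), by decide +kernel⟩

theorem c_pm_133 : CertF 536870912 536870912 0 1230186008 469762048 67108864 true true false .dn 1 3 3
    ndF0q1 ndF2q3 pcF3 Cut.none Ext.none :=
  certF0 (fam := true) (s1 := true) (s2 := false) (a := 1) (b := 3) (c := 3) (cn := .dn) (n1 := ndF0q1) (n2 := ndF2q3) (pc := pcF3) (cut := Cut.none) (xt := Ext.none) (P1 := 536870912) (W1 := 536870912) (P2 := 0) (W2 := 1230186008) (P3 := 469762048) (W3 := 67108864)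
    rfl k0_pm_133

noncomputable def f_pm_202 : ℕ → ℕ → ℕ → ℕ → Bool := onCell 0 536870912 0 536870912 469762048 67108864
    (rowF 0 true true false .pp 2 0 2 (qsf 0 536870912 0 536870912 2) ndF0q2 ndF2q0 pcF2 Cut.none Ext.none)

def k0_pm_202 : ∃ t, chk3 f_pm_202 t 1 1 1 = true :=
  ⟨(a (a (b (b (b (a (l 16596200) (l 16600136)) (l 16642088)) (b (l 16670200) (l 16671120))) (b (b (l 16760040) (l 4)) (l 2))) (b (b (b (b (a (l 16597232) (l 16609912)) (a (l 16620792) (l 16632920))) (a (l 16656760) (l 16666712))) (b (l 16706320) (l 16731320))) (b (b (l 16905608) (l 16966256)) (l 4)))) (b (b (a (a (b (b (l 16631832) (l 16643056)) (l 16679880)) (b (b (l 16666768) (l 16666880)) (l 16684456))) (b (a (b (b (l 16717664) (l 16712080)) (l 16705944)) (b (a (b (b (l 16763088) (l 16759352)) (l 16754008)) (a (b (b (l 16786072) (l 16782368)) (l 16776872)) (b (l 16800032) (l 16792872)))) (a (l 16744400) (l 16775008)))) (a (l 16705696) (a (l 16733520) (l 16758864))))) (a (b (a (l 16731008)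 (l 16743376)) (a (l 16780552) (l 16806992))) (b (a (l 16739232) (l 16752992)) (a (l 16818960) (l 16804168))))) (b (a (b (l 17081920) (l 17084872)) (b (a (l 16979504) (l 16999664)) (a (l 17141632) (l 17128736)))) (a (b (a (l 16982472) (l 17019864)) (l 2)) (b (a (l 17047120) (l 17064424)) (a (l 17003840) (l 17039304))))))), by decide +kernel⟩

theorem c_pm_202 : CertF 0 536870912 0 536870912 469762048 67108864 true true false .pp 2 0 2
    ndF0q2 ndF2q0 pcF2 Cut.none Ext.none :=
  certF0 (fam := true) (s1 := true) (s2 := false) (a := 2) (b := 0) (c := 2) (cn := .pp) (n1 := ndF0q2) (n2 := ndF2q0) (pc := pcF2) (cut := Cut.none) (xt := Ext.none) (P1 := 0) (W1 := 536870912) (P2 := 0) (W2 := 536870912) (P3 := 469762048) (W3 := 67108864)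
    rfl k0_pm_202

noncomputable def f_pm_203 : ℕ → ℕ → ℕ → ℕ → Bool := onCell 0 536870912 1610612736 536870912 469762048 67108864
    (rowF 1 true true false .up 2 0 3 (qsf 0 536870912 0 536870912 3) ndF0q2 ndF2q0 pcF3 Cut.none Ext.none)

def k0_pm_203 : ∃ t, chk3 f_pm_203 t 1 1 1 = true :=
  ⟨(b (a (b (l 4) (l 4)) (b (a (b (l 13120709399) (l 16913872)) (b (b (l 17027744) (l 17009632)) (b (l 16994488) (l 2)))) (a (l 2) (l 2)))) (l 2)), by decide +kernel⟩

theorem c_pm_203 : CertF 0 536870912 0 536870912 469762048 67108864 true true false .up 2 0 3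
    ndF0q2 ndF2q0 pcF3 Cut.none Ext.none :=
  certF1 (fam := true) (s1 := true) (s2 := false) (a := 2) (b := 0) (c := 3) (cn := .up) (n1 := ndF0q2) (n2 := ndF2q0) (pc := pcF3) (cut := Cut.none) (xt := Ext.none) (P1 := 0) (W1 := 536870912) (P2 := 0) (W2 := 536870912) (P3 := 469762048) (W3 := 67108864)
    rfl (fun _ => rfl) k0_pm_203

noncomputable def f_pm_213 : ℕ → ℕ → ℕ → ℕ → Bool := onCell 0 536870912 536870912 536870912 469762048 67108864
    (rowF 0 true true false .pnn 2 1 3 (qsf 0 536870912 536870912 536870912 3) ndF0q2 ndF2q1 pcF3 Cut.none Ext.none)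

def k0_pm_213 : ∃ t, chk3 f_pm_213 t 1 1 1 = true :=
  ⟨(a (l 4) (b (b (a (l 4) (b (b (l 17011936) (l 16994904)) (l 16990344))) (a (l 4) (a (l 4) (b (l 17055720) (l 4))))) (l 4))), by decide +kernel⟩

theorem c_pm_213 : CertF 0 536870912 536870912 536870912 469762048 67108864 true true false .pnn 2 1 3
    ndF0q2 ndF2q1 pcF3 Cut.none Ext.none :=
  certF0 (fam := true) (s1 := true) (s2 := false) (a := 2) (b := 1) (c := 3) (cn := .pnn) (n1 := ndF0q2) (n2 := ndF2q1) (pc := pcF3) (cut := Cut.none) (xt := Ext.none) (P1 := 0) (W1 := 536870912) (P2 := 536870912) (W2 := 536870912) (P3 := 469762048) (W3 := 67108864)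
    rfl k0_pm_213

noncomputable def f_mm_001 : ℕ → ℕ → ℕ → ℕ → Bool := onCell 0 536870912 0 536870912 469762048 67108864
    (rowF 0 true false false .up 0 0 1 (qsf 0 536870912 0 536870912 1) ndF0q0 ndF2q0 pcF1 Cut.none Ext.none)

def k0_mm_001 : ∃ t, chk3 f_mm_001 t 1 1 1 = true :=
  ⟨(l 4), by decide +kernel⟩

theorem c_mm_001 : CertF 0 536870912 0 536870912 469762048 67108864 true false false .up 0 0 1
    ndF0q0 ndF2q0 pcF1 Cut.none Ext.none :=
  certF0 (fam := true) (s1 := false) (s2 := false) (a := 0) (b := 0) (c := 1) (cn := .up) (n1 := ndF0q0) (n2 := ndF2q0) (pc := pcF1) (cut := Cut.none) (xt := Ext.none) (P1 := 0) (W1 := 536870912) (P2 := 0) (W2 := 536870912) (P3 := 469762048) (W3 := 67108864)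
    rfl k0_mm_001

noncomputable def f_mm_011 : ℕ → ℕ → ℕ → ℕ → Bool := onCell 0 536870912 536870912 536870912 469762048 67108864
    (rowF 0 true false false .pnn 0 1 1 (qsf 0 536870912 536870912 536870912 1) ndF0q0 ndF2q1 pcF1 Cut.none Ext.none)

def k0_mm_011 : ∃ t, chk3 f_mm_011 t 1 1 1 = true :=
  ⟨(l 4), by decide +kernel⟩

theorem c_mm_011 : CertF 0 536870912 536870912 536870912 469762048 67108864 true false false .pnn 0 1 1
    ndF0q0 ndF2q1 pcF1 Cut.none Ext.none :=
  certF0 (fam := true) (s1 := false) (s2 := false) (a := 0) (b := 1) (c := 1) (cn := .pnn) (n1 := ndF0q0) (n2 := ndF2q1) (pc := pcF1) (cut := Cut.none) (xt := Ext.none) (P1 := 0) (W1 := 536870912) (P2 := 536870912) (W2 := 536870912) (P3 := 469762048) (W3 := 67108864)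
    rfl k0_mm_011

noncomputable def f_mm_012 : ℕ → ℕ → ℕ → ℕ → Bool := onCell 0 536870912 536870912 536870912 469762048 67108864
    (rowF 0 true false false .pnp 0 1 2 (qsf 0 536870912 536870912 536870912 2) ndF0q0 ndF2q1 pcF2 Cut.none Ext.none)

def k0_mm_012 : ∃ t, chk3 f_mm_012 t 1 1 1 = true :=
  ⟨(l 4), by decide +kernel⟩

theorem c_mm_012 : CertF 0 536870912 536870912 536870912 469762048 67108864 true false false .pnp 0 1 2
    ndF0q0 ndF2q1 pcF2 Cut.none Ext.none :=
  certF0 (fam := true) (s1 := false) (s2 := false) (a := 0) (b := 1) (c := 2) (cn := .pnp) (n1 := ndF0q0) (n2 := ndF2q1) (pc := pcF2) (cut := Cut.none) (xt := Ext.none) (P1 := 0) (W1 := 536870912) (P2 := 536870912) (W2 := 536870912) (P3 := 469762048) (W3 := 67108864)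
    rfl k0_mm_012

noncomputable def f_mm_022 : ℕ → ℕ → ℕ → ℕ → Bool := onCell 0 536870912 1073741824 536870912 469762048 67108864
    (rowF 0 true false false .pp 0 2 2 (qsf 0 536870912 1073741824 536870912 2) ndF0q0 ndF2q2 pcF2 Cut.none Ext.none)

def k0_mm_022 : ∃ t, chk3 f_mm_022 t 1 1 1 = true :=
  ⟨(l 4), by decide +kernel⟩

theorem c_mm_022 : CertF 0 536870912 1073741824 536870912 469762048 67108864 true false false .pp 0 2 2
    ndF0q0 ndF2q2 pcF2 Cut.none Ext.none :=
  certF0 (fam := true) (s1 := false) (s2 := false) (a := 0) (b := 2) (c := 2) (cn := .pp) (n1 := ndF0q0) (n2 := ndF2q2) (pc := pcF2) (cut := Cut.none) (xt := Ext.none) (P1 := 0) (W1 := 536870912) (P2 := 1073741824) (W2 := 536870912) (P3 := 469762048) (W3 := 67108864)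
    rfl k0_mm_022

noncomputable def f_mm_023 : ℕ → ℕ → ℕ → ℕ → Bool := onCell 0 536870912 1073741824 536870912 469762048 67108864
    (rowF 0 true false false .up 0 2 3 (qsf 0 536870912 1073741824 536870912 3) ndF0q0 ndF2q2 pcF3 Cut.none Ext.none)

def k0_mm_023 : ∃ t, chk3 f_mm_023 t 1 1 1 = true :=
  ⟨(l 4), by decide +kernel⟩

theorem c_mm_023 : CertF 0 536870912 1073741824 536870912 469762048 67108864 true false false .up 0 2 3
    ndF0q0 ndF2q2 pcF3 Cut.none Ext.none :=
  certF0 (fam := true) (s1 := false) (s2 := false) (a := 0) (b := 2) (c := 3) (cn := .up) (n1 := ndF0q0) (n2 := ndF2q2) (pc := pcF3) (cut := Cut.none) (xt := Ext.none) (P1 := 0) (W1 := 536870912) (P2 := 1073741824) (W2 := 536870912) (P3 := 469762048) (W3 := 67108864)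
    rfl k0_mm_023

noncomputable def f_mm_033 : ℕ → ℕ → ℕ → ℕ → Bool := onCell 0 536870912 0 1230186008 469762048 67108864
    (rowF 0 true false false .pnn 0 3 3 (qsf 0 536870912 0 1230186008 3) ndF0q0 ndF2q3 pcF3 Cut.none Ext.none)

def k0_mm_033 : ∃ t, chk3 f_mm_033 t 1 1 1 = true :=
  ⟨(l 5), by decide +kernel⟩

theorem c_mm_033 : CertF 0 536870912 0 1230186008 469762048 67108864 true false false .pnn 0 3 3
    ndF0q0 ndF2q3 pcF3 Cut.none Ext.none :=
  certF0 (fam := true) (s1 := false) (s2 := false) (a := 0) (b := 3) (c := 3) (cn := .pnn) (n1 := ndF0q0) (n2 := ndF2q3) (pc := pcF3) (cut := Cut.none) (xt := Ext.none) (P1 := 0) (W1 := 536870912) (P2 := 0) (W2 := 1230186008) (P3 := 469762048) (W3 := 67108864)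
    rfl k0_mm_033

noncomputable def f_mm_101 : ℕ → ℕ → ℕ → ℕ → Bool := onCell 536870912 536870912 0 536870912 469762048 67108864
    (rowF 0 true false false .npn 1 0 1 (qsf 536870912 536870912 0 536870912 1) ndF0q1 ndF2q0 pcF1 Cut.none Ext.none)

def k0_mm_101 : ∃ t, chk3 f_mm_101 t 1 1 1 = true :=
  ⟨(l 4), by decide +kernel⟩

theorem c_mm_101 : CertF 536870912 536870912 0 536870912 469762048 67108864 true false false .npn 1 0 1
    ndF0q1 ndF2q0 pcF1 Cut.none Ext.none :=
  certF0 (fam := true) (s1 := false) (s2 := false) (a := 1) (b := 0) (c := 1) (cn := .npn) (n1 := ndF0q1) (n2 := ndF2q0) (pc := pcF1) (cut := Cut.none) (xt := Ext.none) (P1 := 536870912) (W1 := 536870912) (P2 := 0) (W2 := 536870912) (P3 := 469762048) (W3 := 67108864)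
    rfl k0_mm_101

noncomputable def f_mm_102 : ℕ → ℕ → ℕ → ℕ → Bool := onCell 536870912 536870912 0 536870912 469762048 67108864
    (rowF 0 true false false .npp 1 0 2 (qsf 536870912 536870912 0 536870912 2) ndF0q1 ndF2q0 pcF2 Cut.none Ext.none)

def k0_mm_102 : ∃ t, chk3 f_mm_102 t 1 1 1 = true :=
  ⟨(l 4), by decide +kernel⟩

theorem c_mm_102 : CertF 536870912 536870912 0 536870912 469762048 67108864 true false false .npp 1 0 2
    ndF0q1 ndF2q0 pcF2 Cut.none Ext.none :=
  certF0 (fam := true) (s1 := false) (s2 := false) (a := 1) (b := 0) (c := 2) (cn := .npp) (n1 := ndF0q1) (n2 := ndF2q0) (pc := pcF2) (cut := Cut.none) (xt := Ext.none) (P1 := 536870912) (W1 := 536870912) (P2 := 0) (W2 := 536870912) (P3 := 469762048) (W3 := 67108864)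
    rfl k0_mm_102

noncomputable def f_mm_112 : ℕ → ℕ → ℕ → ℕ → Bool := onCell 536870912 536870912 536870912 536870912 469762048 67108864
    (rowF 0 true false false .dn 1 1 2 (qsf 536870912 536870912 536870912 536870912 2) ndF0q1 ndF2q1 pcF2 Cut.none Ext.none)

def k0_mm_112 : ∃ t, chk3 f_mm_112 t 1 1 1 = true :=
  ⟨(l 4), by decide +kernel⟩

theorem c_mm_112 : CertF 536870912 536870912 536870912 536870912 469762048 67108864 true false false .dn 1 1 2
    ndF0q1 ndF2q1 pcF2 Cut.none Ext.none :=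
  certF0 (fam := true) (s1 := false) (s2 := false) (a := 1) (b := 1) (c := 2) (cn := .dn) (n1 := ndF0q1) (n2 := ndF2q1) (pc := pcF2) (cut := Cut.none) (xt := Ext.none) (P1 := 536870912) (W1 := 536870912) (P2 := 536870912) (W2 := 536870912) (P3 := 469762048) (W3 := 67108864)
    rfl k0_mm_112

noncomputable def f_mm_113 : ℕ → ℕ → ℕ → ℕ → Bool := onCell 536870912 536870912 536870912 536870912 469762048 67108864
    (rowF 0 true false false .nn 1 1 3 (qsf 536870912 536870912 536870912 536870912 3) ndF0q1 ndF2q1 pcF3 Cut.none Ext.none)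

def k0_mm_113 : ∃ t, chk3 f_mm_113 t 1 1 1 = true :=
  ⟨(l 4), by decide +kernel⟩

theorem c_mm_113 : CertF 536870912 536870912 536870912 536870912 469762048 67108864 true false false .nn 1 1 3
    ndF0q1 ndF2q1 pcF3 Cut.none Ext.none :=
  certF0 (fam := true) (s1 := false) (s2 := false) (a := 1) (b := 1) (c := 3) (cn := .nn) (n1 := ndF0q1) (n2 := ndF2q1) (pc := pcF3) (cut := Cut.none) (xt := Ext.none) (P1 := 536870912) (W1 := 536870912) (P2 := 536870912) (W2 := 536870912) (P3 := 469762048) (W3 := 67108864)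
    rfl k0_mm_113

noncomputable def f_mm_123 : ℕ → ℕ → ℕ → ℕ → Bool := onCell 536870912 536870912 1073741824 536870912 469762048 67108864
    (rowF 0 true false false .npn 1 2 3 (qsf 536870912 536870912 1073741824 536870912 3) ndF0q1 ndF2q2 pcF3 Cut.none Ext.none)

def k0_mm_123 : ∃ t, chk3 f_mm_123 t 1 1 1 = true :=
  ⟨(l 4), by decide +kernel⟩

theorem c_mm_123 : CertF 536870912 536870912 1073741824 536870912 469762048 67108864 true false false .npn 1 2 3
    ndF0q1 ndF2q2 pcF3 Cut.none Ext.none :=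
  certF0 (fam := true) (s1 := false) (s2 := false) (a := 1) (b := 2) (c := 3) (cn := .npn) (n1 := ndF0q1) (n2 := ndF2q2) (pc := pcF3) (cut := Cut.none) (xt := Ext.none) (P1 := 536870912) (W1 := 536870912) (P2 := 1073741824) (W2 := 536870912) (P3 := 469762048) (W3 := 67108864)
    rfl k0_mm_123

noncomputable def f_mm_133 : ℕ → ℕ → ℕ → ℕ → Bool := onCell 536870912 536870912 0 1230186008 469762048 67108864
    (rowF 0 true false false .dn 1 3 3 (qsf 536870912 536870912 0 1230186008 3) ndF0q1 ndF2q3 pcF3 Cut.none Ext.none)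

def k0_mm_133 : ∃ t, chk3 f_mm_133 t 1 1 1 = true :=
  ⟨(l 4), by decide +kernel⟩

theorem c_mm_133 : CertF 536870912 536870912 0 1230186008 469762048 67108864 true false false .dn 1 3 3
    ndF0q1 ndF2q3 pcF3 Cut.none Ext.none :=
  certF0 (fam := true) (s1 := false) (s2 := false) (a := 1) (b := 3) (c := 3) (cn := .dn) (n1 := ndF0q1) (n2 := ndF2q3) (pc := pcF3) (cut := Cut.none) (xt := Ext.none) (P1 := 536870912) (W1 := 536870912) (P2 := 0) (W2 := 1230186008) (P3 := 469762048) (W3 := 67108864)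
    rfl k0_mm_133

noncomputable def f_mm_202 : ℕ → ℕ → ℕ → ℕ → Bool := onCell 0 536870912 0 536870912 469762048 67108864
    (rowF 0 true false false .pp 2 0 2 (qsf 0 536870912 0 536870912 2) ndF0q2 ndF2q0 pcF2 Cut.none Ext.none)

def k0_mm_202 : ∃ t, chk3 f_mm_202 t 1 1 1 = true :=
  ⟨(b (a (b (a (b (b (l 16591576) (l 16614856)) (a (l 16639152) (l 16645288))) (b (b (a (l 16610288) (l 16633096)) (l 16895760)) (b (l 16658752) (l 4)))) (a (b (l 16655584) (l 4)) (l 4))) (b (a (b (a (b (b (l 16655752) (l 16666256)) (l 4)) (l 4)) (l 4)) (l 4)) (l 4))) (l 4)), by decide +kernel⟩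

theorem c_mm_202 : CertF 0 536870912 0 536870912 469762048 67108864 true false false .pp 2 0 2
    ndF0q2 ndF2q0 pcF2 Cut.none Ext.none :=
  certF0 (fam := true) (s1 := false) (s2 := false) (a := 2) (b := 0) (c := 2) (cn := .pp) (n1 := ndF0q2) (n2 := ndF2q0) (pc := pcF2) (cut := Cut.none) (xt := Ext.none) (P1 := 0) (W1 := 536870912) (P2 := 0) (W2 := 536870912) (P3 := 469762048) (W3 := 67108864)
    rfl k0_mm_202

noncomputable def f_mm_203 : ℕ → ℕ → ℕ → ℕ → Bool := onCell 0 536870912 1610612736 536870912 469762048 67108864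
    (rowF 1 true false false .up 2 0 3 (qsf 0 536870912 0 536870912 3) ndF0q2 ndF2q0 pcF3 Cut.none Ext.none)

def k0_mm_203 : ∃ t, chk3 f_mm_203 t 1 1 1 = true :=
  ⟨(l 4), by decide +kernel⟩

theorem c_mm_203 : CertF 0 536870912 0 536870912 469762048 67108864 true false false .up 2 0 3
    ndF0q2 ndF2q0 pcF3 Cut.none Ext.none :=
  certF1 (fam := true) (s1 := false) (s2 := false) (a := 2) (b := 0) (c := 3) (cn := .up) (n1 := ndF0q2) (n2 := ndF2q0) (pc := pcF3) (cut := Cut.none) (xt := Ext.none) (P1 := 0) (W1 := 536870912) (P2 := 0) (W2 := 536870912) (P3 := 469762048) (W3 := 67108864)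
    rfl (fun _ => rfl) k0_mm_203

noncomputable def f_mm_213 : ℕ → ℕ → ℕ → ℕ → Bool := onCell 0 536870912 536870912 536870912 469762048 67108864
    (rowF 0 true false false .pnn 2 1 3 (qsf 0 536870912 536870912 536870912 3) ndF0q2 ndF2q1 pcF3 Cut.none Ext.none)

def k0_mm_213 : ∃ t, chk3 f_mm_213 t 1 1 1 = true :=
  ⟨(l 4), by decide +kernel⟩

theorem c_mm_213 : CertF 0 536870912 536870912 536870912 469762048 67108864 true false false .pnn 2 1 3
    ndF0q2 ndF2q1 pcF3 Cut.none Ext.none :=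
  certF0 (fam := true) (s1 := false) (s2 := false) (a := 2) (b := 1) (c := 3) (cn := .pnn) (n1 := ndF0q2) (n2 := ndF2q1) (pc := pcF3) (cut := Cut.none) (xt := Ext.none) (P1 := 0) (W1 := 536870912) (P2 := 536870912) (W2 := 536870912) (P3 := 469762048) (W3 := 67108864)
    rfl k0_mm_213

end Pool.Agent.Strip051.G.I7_16_1_2.Tab.C.FA02

namespace Pool.Agent.Strip051.G.I7_16_1_2.Tab.C.FA03

open Pool.Agent.Strip051.PB Pool.Agent.Strip051.PB.T
open Pool.Agent.Strip051.G.I7_16_1_2.Tab

noncomputable def f_pp_001 : ℕ → ℕ → ℕ → ℕ → Bool := onCell 0 536870912 0 536870912 469762048 67108864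
    (rowF 0 true true true .up 0 0 1 (qsf 0 536870912 0 536870912 1) ndF0q0 ndF3q0 pcF1 Cut.none Ext.none)

def k0_pp_001 : ∃ t, chk3 f_pp_001 t 1 1 1 = true :=
  ⟨(l 4), by decide +kernel⟩

theorem c_pp_001 : CertF 0 536870912 0 536870912 469762048 67108864 true true true .up 0 0 1
    ndF0q0 ndF3q0 pcF1 Cut.none Ext.none :=
  certF0 (fam := true) (s1 := true) (s2 := true) (a := 0) (b := 0) (c := 1) (cn := .up) (n1 := ndF0q0) (n2 := ndF3q0) (pc := pcF1) (cut := Cut.none) (xt := Ext.none) (P1 := 0) (W1 := 536870912) (P2 := 0) (W2 := 536870912) (P3 := 469762048) (W3 := 67108864)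
    rfl k0_pp_001

noncomputable def f_pp_011 : ℕ → ℕ → ℕ → ℕ → Bool := onCell 0 536870912 536870912 536870912 469762048 67108864
    (rowF 0 true true true .pnn 0 1 1 (qsf 0 536870912 536870912 536870912 1) ndF0q0 ndF3q1 pcF1 Cut.none Ext.none)

def k0_pp_011 : ∃ t, chk3 f_pp_011 t 1 1 1 = true :=
  ⟨(l 4), by decide +kernel⟩

theorem c_pp_011 : CertF 0 536870912 536870912 536870912 469762048 67108864 true true true .pnn 0 1 1
    ndF0q0 ndF3q1 pcF1 Cut.none Ext.none :=
  certF0 (fam := true) (s1 := true) (s2 := true) (a := 0) (b := 1) (c := 1) (cn := .pnn) (n1 := ndF0q0) (n2 := ndF3q1) (pc := pcF1) (cut := Cut.none) (xt := Ext.none) (P1 := 0) (W1 := 536870912) (P2 := 536870912) (W2 := 536870912) (P3 := 469762048) (W3 := 67108864)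
    rfl k0_pp_011

noncomputable def f_pp_012 : ℕ → ℕ → ℕ → ℕ → Bool := onCell 0 536870912 536870912 536870912 469762048 67108864
    (rowF 0 true true true .pnp 0 1 2 (qsf 0 536870912 536870912 536870912 2) ndF0q0 ndF3q1 pcF2 Cut.none Ext.none)

def k0_pp_012 : ∃ t, chk3 f_pp_012 t 1 1 1 = true :=
  ⟨(l 4), by decide +kernel⟩

theorem c_pp_012 : CertF 0 536870912 536870912 536870912 469762048 67108864 true true true .pnp 0 1 2
    ndF0q0 ndF3q1 pcF2 Cut.none Ext.none :=
  certF0 (fam := true) (s1 := true) (s2 := true) (a := 0) (b := 1) (c := 2) (cn := .pnp) (n1 := ndF0q0) (n2 := ndF3q1) (pc := pcF2) (cut := Cut.none) (xt := Ext.none) (P1 := 0) (W1 := 536870912) (P2 := 536870912) (W2 := 536870912) (P3 := 469762048) (W3 := 67108864)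
    rfl k0_pp_012

noncomputable def f_pp_022 : ℕ → ℕ → ℕ → ℕ → Bool := onCell 0 536870912 1073741824 536870912 469762048 67108864
    (rowF 0 true true true .pp 0 2 2 (qsf 0 536870912 1073741824 536870912 2) ndF0q0 ndF3q2 pcF2 Cut.none Ext.none)

def k0_pp_022 : ∃ t, chk3 f_pp_022 t 1 1 1 = true :=
  ⟨(l 4), by decide +kernel⟩

theorem c_pp_022 : CertF 0 536870912 1073741824 536870912 469762048 67108864 true true true .pp 0 2 2
    ndF0q0 ndF3q2 pcF2 Cut.none Ext.none :=
  certF0 (fam := true) (s1 := true) (s2 := true) (a := 0) (b := 2) (c := 2) (cn := .pp) (n1 := ndF0q0) (n2 := ndF3q2) (pc := pcF2) (cut := Cut.none) (xt := Ext.none) (P1 := 0) (W1 := 536870912) (P2 := 1073741824) (W2 := 536870912) (P3 := 469762048) (W3 := 67108864)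
    rfl k0_pp_022

noncomputable def f_pp_023 : ℕ → ℕ → ℕ → ℕ → Bool := onCell 0 536870912 1073741824 536870912 469762048 67108864
    (rowF 0 true true true .up 0 2 3 (qsf 0 536870912 1073741824 536870912 3) ndF0q0 ndF3q2 pcF3 Cut.none Ext.none)

def k0_pp_023 : ∃ t, chk3 f_pp_023 t 1 1 1 = true :=
  ⟨(l 4), by decide +kernel⟩

theorem c_pp_023 : CertF 0 536870912 1073741824 536870912 469762048 67108864 true true true .up 0 2 3
    ndF0q0 ndF3q2 pcF3 Cut.none Ext.none :=
  certF0 (fam := true) (s1 := true) (s2 := true) (a := 0) (b := 2) (c := 3) (cn := .up) (n1 := ndF0q0) (n2 := ndF3q2) (pc := pcF3) (cut := Cut.none) (xt := Ext.none) (P1 := 0) (W1 := 536870912) (P2 := 1073741824) (W2 := 536870912) (P3 := 469762048) (W3 := 67108864)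
    rfl k0_pp_023

noncomputable def f_pp_033 : ℕ → ℕ → ℕ → ℕ → Bool := onCell 0 536870912 0 1230186008 469762048 67108864
    (rowF 0 true true true .pnn 0 3 3 (qsf 0 536870912 0 1230186008 3) ndF0q0 ndF3q3 pcF3 Cut.none Ext.none)

def k0_pp_033 : ∃ t, chk3 f_pp_033 t 1 1 1 = true :=
  ⟨(b (l 4) (l 4)), by decide +kernel⟩

theorem c_pp_033 : CertF 0 536870912 0 1230186008 469762048 67108864 true true true .pnn 0 3 3
    ndF0q0 ndF3q3 pcF3 Cut.none Ext.none :=
  certF0 (fam := true) (s1 := true) (s2 := true) (a := 0) (b := 3) (c := 3) (cn := .pnn) (n1 := ndF0q0) (n2 := ndF3q3) (pc := pcF3) (cut := Cut.none) (xt := Ext.none) (P1 := 0) (W1 := 536870912) (P2 := 0) (W2 := 1230186008) (P3 := 469762048) (W3 := 67108864)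
    rfl k0_pp_033

noncomputable def f_pp_101 : ℕ → ℕ → ℕ → ℕ → Bool := onCell 536870912 536870912 0 536870912 469762048 67108864
    (rowF 0 true true true .npn 1 0 1 (qsf 536870912 536870912 0 536870912 1) ndF0q1 ndF3q0 pcF1 Cut.none Ext.none)

def k0_pp_101 : ∃ t, chk3 f_pp_101 t 1 1 1 = true :=
  ⟨(l 4), by decide +kernel⟩

theorem c_pp_101 : CertF 536870912 536870912 0 536870912 469762048 67108864 true true true .npn 1 0 1
    ndF0q1 ndF3q0 pcF1 Cut.none Ext.none :=
  certF0 (fam := true) (s1 := true) (s2 := true) (a := 1) (b := 0) (c := 1) (cn := .npn) (n1 := ndF0q1) (n2 := ndF3q0) (pc := pcF1) (cut := Cut.none) (xt := Ext.none) (P1 := 536870912) (W1 := 536870912) (P2 := 0) (W2 := 536870912) (P3 := 469762048) (W3 := 67108864)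
    rfl k0_pp_101

noncomputable def f_pp_102 : ℕ → ℕ → ℕ → ℕ → Bool := onCell 536870912 536870912 0 536870912 469762048 67108864
    (rowF 0 true true true .npp 1 0 2 (qsf 536870912 536870912 0 536870912 2) ndF0q1 ndF3q0 pcF2 Cut.none Ext.none)

def k0_pp_102 : ∃ t, chk3 f_pp_102 t 1 1 1 = true :=
  ⟨(l 4), by decide +kernel⟩

theorem c_pp_102 : CertF 536870912 536870912 0 536870912 469762048 67108864 true true true .npp 1 0 2
    ndF0q1 ndF3q0 pcF2 Cut.none Ext.none :=
  certF0 (fam := true) (s1 := true) (s2 := true) (a := 1) (b := 0) (c := 2) (cn := .npp) (n1 := ndF0q1) (n2 := ndF3q0) (pc := pcF2) (cut := Cut.none) (xt := Ext.none) (P1 := 536870912) (W1 := 536870912) (P2 := 0) (W2 := 536870912) (P3 := 469762048) (W3 := 67108864)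
    rfl k0_pp_102

noncomputable def f_pp_112 : ℕ → ℕ → ℕ → ℕ → Bool := onCell 536870912 536870912 536870912 536870912 469762048 67108864
    (rowF 0 true true true .dn 1 1 2 (qsf 536870912 536870912 536870912 536870912 2) ndF0q1 ndF3q1 pcF2 Cut.none Ext.none)

def k0_pp_112 : ∃ t, chk3 f_pp_112 t 1 1 1 = true :=
  ⟨(l 4), by decide +kernel⟩

theorem c_pp_112 : CertF 536870912 536870912 536870912 536870912 469762048 67108864 true true true .dn 1 1 2
    ndF0q1 ndF3q1 pcF2 Cut.none Ext.none :=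
  certF0 (fam := true) (s1 := true) (s2 := true) (a := 1) (b := 1) (c := 2) (cn := .dn) (n1 := ndF0q1) (n2 := ndF3q1) (pc := pcF2) (cut := Cut.none) (xt := Ext.none) (P1 := 536870912) (W1 := 536870912) (P2 := 536870912) (W2 := 536870912) (P3 := 469762048) (W3 := 67108864)
    rfl k0_pp_112

noncomputable def f_pp_113 : ℕ → ℕ → ℕ → ℕ → Bool := onCell 536870912 536870912 536870912 536870912 469762048 67108864
    (rowF 0 true true true .nn 1 1 3 (qsf 536870912 536870912 536870912 536870912 3) ndF0q1 ndF3q1 pcF3 Cut.none Ext.none)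

def k0_pp_113 : ∃ t, chk3 f_pp_113 t 1 1 1 = true :=
  ⟨(l 4), by decide +kernel⟩

theorem c_pp_113 : CertF 536870912 536870912 536870912 536870912 469762048 67108864 true true true .nn 1 1 3
    ndF0q1 ndF3q1 pcF3 Cut.none Ext.none :=
  certF0 (fam := true) (s1 := true) (s2 := true) (a := 1) (b := 1) (c := 3) (cn := .nn) (n1 := ndF0q1) (n2 := ndF3q1) (pc := pcF3) (cut := Cut.none) (xt := Ext.none) (P1 := 536870912) (W1 := 536870912) (P2 := 536870912) (W2 := 536870912) (P3 := 469762048) (W3 := 67108864)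
    rfl k0_pp_113

noncomputable def f_pp_123 : ℕ → ℕ → ℕ → ℕ → Bool := onCell 536870912 536870912 1073741824 536870912 469762048 67108864
    (rowF 0 true true true .npn 1 2 3 (qsf 536870912 536870912 1073741824 536870912 3) ndF0q1 ndF3q2 pcF3 Cut.none Ext.none)

def k0_pp_123 : ∃ t, chk3 f_pp_123 t 1 1 1 = true :=
  ⟨(l 4), by decide +kernel⟩

theorem c_pp_123 : CertF 536870912 536870912 1073741824 536870912 469762048 67108864 true true true .npn 1 2 3
    ndF0q1 ndF3q2 pcF3 Cut.none Ext.none :=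
  certF0 (fam := true) (s1 := true) (s2 := true) (a := 1) (b := 2) (c := 3) (cn := .npn) (n1 := ndF0q1) (n2 := ndF3q2) (pc := pcF3) (cut := Cut.none) (xt := Ext.none) (P1 := 536870912) (W1 := 536870912) (P2 := 1073741824) (W2 := 536870912) (P3 := 469762048) (W3 := 67108864)
    rfl k0_pp_123

noncomputable def f_pp_133 : ℕ → ℕ → ℕ → ℕ → Bool := onCell 536870912 536870912 0 1230186008 469762048 67108864
    (rowF 0 true true true .dn 1 3 3 (qsf 536870912 536870912 0 1230186008 3) ndF0q1 ndF3q3 pcF3 Cut.none Ext.none)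

def k0_pp_133 : ∃ t, chk3 f_pp_133 t 1 1 1 = true :=
  ⟨(l 4), by decide +kernel⟩

theorem c_pp_133 : CertF 536870912 536870912 0 1230186008 469762048 67108864 true true true .dn 1 3 3
    ndF0q1 ndF3q3 pcF3 Cut.none Ext.none :=
  certF0 (fam := true) (s1 := true) (s2 := true) (a := 1) (b := 3) (c := 3) (cn := .dn) (n1 := ndF0q1) (n2 := ndF3q3) (pc := pcF3) (cut := Cut.none) (xt := Ext.none) (P1 := 536870912) (W1 := 536870912) (P2 := 0) (W2 := 1230186008) (P3 := 469762048) (W3 := 67108864)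
    rfl k0_pp_133

noncomputable def f_pp_202 : ℕ → ℕ → ℕ → ℕ → Bool := onCell 0 536870912 0 536870912 469762048 67108864
    (rowF 0 true true true .pp 2 0 2 (qsf 0 536870912 0 536870912 2) ndF0q2 ndF3q0 pcF2 Cut.none Ext.none)

def k0_pp_202 : ∃ t, chk3 f_pp_202 t 1 1 1 = true :=
  ⟨(l 5), by decide +kernel⟩

theorem c_pp_202 : CertF 0 536870912 0 536870912 469762048 67108864 true true true .pp 2 0 2
    ndF0q2 ndF3q0 pcF2 Cut.none Ext.none :=
  certF0 (fam := true) (s1 := true) (s2 := true) (a := 2) (b := 0) (c := 2) (cn := .pp) (n1 := ndF0q2) (n2 := ndF3q0) (pc := pcF2) (cut := Cut.none) (xt := Ext.none) (P1 := 0) (W1 := 536870912) (P2 := 0) (W2 := 536870912) (P3 := 469762048) (W3 := 67108864)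
    rfl k0_pp_202

noncomputable def f_pp_203 : ℕ → ℕ → ℕ → ℕ → Bool := onCell 0 536870912 0 536870912 469762048 67108864
    (rowF 0 true true true .up 2 0 3 (qsf 0 536870912 0 536870912 3) ndF0q2 ndF3q0 pcF3 Cut.none Ext.none)

def k0_pp_203 : ∃ t, chk3 f_pp_203 t 1 1 1 = true :=
  ⟨(l 5), by decide +kernel⟩

theorem c_pp_203 : CertF 0 536870912 0 536870912 469762048 67108864 true true true .up 2 0 3
    ndF0q2 ndF3q0 pcF3 Cut.none Ext.none :=
  certF0 (fam := true) (s1 := true) (s2 := true) (a := 2) (b := 0) (c := 3) (cn := .up) (n1 := ndF0q2) (n2 := ndF3q0) (pc := pcF3) (cut := Cut.none) (xt := Ext.none) (P1 := 0) (W1 := 536870912) (P2 := 0) (W2 := 536870912) (P3 := 469762048) (W3 := 67108864)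
    rfl k0_pp_203

noncomputable def f_pp_213 : ℕ → ℕ → ℕ → ℕ → Bool := onCell 0 536870912 536870912 536870912 469762048 67108864
    (rowF 0 true true true .pnn 2 1 3 (qsf 0 536870912 536870912 536870912 3) ndF0q2 ndF3q1 pcF3 Cut.none Ext.none)

def k0_pp_213 : ∃ t, chk3 f_pp_213 t 1 1 1 = true :=
  ⟨(l 4), by decide +kernel⟩

theorem c_pp_213 : CertF 0 536870912 536870912 536870912 469762048 67108864 true true true .pnn 2 1 3
    ndF0q2 ndF3q1 pcF3 Cut.none Ext.none :=
  certF0 (fam := true) (s1 := true) (s2 := true) (a := 2) (b := 1) (c := 3) (cn := .pnn) (n1 := ndF0q2) (n2 := ndF3q1) (pc := pcF3) (cut := Cut.none) (xt := Ext.none) (P1 := 0) (W1 := 536870912) (P2 := 536870912) (W2 := 536870912) (P3 := 469762048) (W3 := 67108864)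
    rfl k0_pp_213

noncomputable def f_pm_001 : ℕ → ℕ → ℕ → ℕ → Bool := onCell 0 536870912 536870912 536870912 469762048 67108864
    (rowF 1 true true false .up 0 0 1 (qsf 0 536870912 0 536870912 1) ndF0q0 ndF3q0 pcF1 Cut.none Ext.none)

def k0_pm_001 : ∃ t, chk3 f_pm_001 t 1 1 1 = true :=
  ⟨(b (l 3) (a (b (l 3) (l 2)) (b (l 3) (a (b (b (l 3) (l 2)) (l 2)) (b (a (b (b (l 3) (b (l 3) (a (a (l 2) (l 3)) (a (l 61907782359) (l 16700304))))) (a (a (l 2) (b (b (a (l 2) (l 91368578135)) (l 2)) (l 2))) (b (a (b (a (l 16705176) (l 16695328)) (l 16686112)) (l 16678912)) (l 76336166423)))) (b (b (a (l 3) (b (l 3) (a (l 60834186439) (l 64592268151)))) (a (a (l 62444740023) (l 61907955239)) (a (l 16767344) (l 16753152)))) (a (b (l 16713232) (l 16638680)) (b (l 16699032) (l 16645056))))) (a (a (l 2) (b (l 80094237079) (l 2))) (b (a (l 16583024) (l 16588032)) (a (l 16504792) (l 16496608))))))))), by decide +kernel⟩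

theorem c_pm_001 : CertF 0 536870912 0 536870912 469762048 67108864 true true false .up 0 0 1
    ndF0q0 ndF3q0 pcF1 Cut.none Ext.none :=
  certF1 (fam := true) (s1 := true) (s2 := false) (a := 0) (b := 0) (c := 1) (cn := .up) (n1 := ndF0q0) (n2 := ndF3q0) (pc := pcF1) (cut := Cut.none) (xt := Ext.none) (P1 := 0) (W1 := 536870912) (P2 := 0) (W2 := 536870912) (P3 := 469762048) (W3 := 67108864)
    rfl (fun _ => rfl) k0_pm_001

noncomputable def cut_pm_011 : Cut := Cut.of [[⟨0, 0, 0, 67108864⟩, ⟨1, 1, 0, 67108864⟩, ⟨2, 1, 0, 67108864⟩]]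

noncomputable def f_pm_011 : ℕ → ℕ → ℕ → ℕ → Bool := onCell 0 536870912 536870912 536870912 469762048 67108864
    (rowF 1 true true false .pnn 0 1 1 (qsf 0 536870912 536870912 536870912 1) ndF0q0 ndF3q1 pcF1 cut_pm_011 Ext.none)

def k0_pm_011 : ∃ t, chk3 f_pm_011 t 1 2 1 = true :=
  ⟨(l 3), by decide +kernel⟩

def k1_pm_011 : ∃ t, chk3 f_pm_011 t 2 6 1 = true :=
  ⟨(l 3), by decide +kernel⟩

def k2_pm_011 : ∃ t, chk3 f_pm_011 t 4 7 1 = true :=
  ⟨(b (l 3) (a (b (l 3) (a (b (l 3) (l 6)) (b (l 3) (b (a (b (l 3) (l 6)) (b (b (a (l 3) (c (a (l 3) (l 16744976)) (l 16750776))) (a (a (l 3) (c (l 118816187287) (l 16747776))) (c (c (l 16753904) (l 16752944)) (l 16751952)))) (a (c (a (b (c (l 16749432) (l 16748672)) (l 6)) (c (l 16743280) (l 16752960))) (b (l 16751040) (l 16752192))) (c (b (l 16749240) (l 16745080)) (l 16745816))))) (a (l 6) (a (a (l 6) (b (l 16744392) (l 6))) (b (l 16738128) (l 16729904)))))))) (b (l 3) (b (a (b (l 3) (b (a (l 3) (c (a (a (l 3) (l 16734680))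 (l 16744224)) (a (l 16744824) (l 16736296)))) (a (a (a (l 3) (b (l 3) (a (l 16756600) (l 16749272)))) (c (b (a (l 3) (l 16736776)) (l 16745208)) (l 16745208))) (a (c (l 16744240) (l 16736696)) (l 16734464))))) (a (b (a (l 3) (c (b (l 3) (l 16720120)) (l 16731272))) (b (a (l 16738168) (l 16730952)) (l 16726936))) (b (c (b (b (l 3) (l 16734720)) (l 16728480)) (l 16728736)) (c (l 16726360) (l 16712360))))) (a (b (a (b (c (a (b (a (l 16740880) (l 16736768)) (l 16745152)) (l 16738960)) (a (l 16745536) (l 16726560))) (a (b (l 16740064) (l 16746424)) (l 16740080))) (b (c (l 16737952) (l 16734712)) (l 16727416))) (a (b (l 16730808) (l 16727816)) (b (l 16719168) (l 16710936)))) (b (a (b (l 16718656) (l 16710392)) (l 16697336)) (a (l 16698032) (l 16680832)))))))), by decide +kernel⟩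

def k3_pm_011 : ∃ t, chk3 f_pm_011 t 5 7 1 = true :=
  ⟨(b (l 3) (b (b (a (l 3) (a (a (l 3) (b (l 3) (c (l 16678520) (l 16670376)))) (a (b (l 3) (l 16678696)) (c (l 16676312) (l 16666528))))) (b (a (a (l 3) (a (a (l 3) (l 16273784071)) (a (l 16707856) (l 16698736)))) (a (a (c (l 16688680) (l 16671144)) (l 16677272)) (l 16662568))) (a (a (a (b (l 3) (c (l 16728128) (l 16723432))) (a (l 16727024) (l 16718216))) (a (l 16715328) (l 16697152))) (a (c (l 16672984) (l 16645336)) (l 16633872))))) (a (b (b (a (a (c (l 16726088) (l 16711168)) (l 16716512)) (c (l 16692688) (l 16666152))) (a (c (l 16711112) (l 16696376)) (l 16672992))) (a (b (l 16692176) (l 16675672)) (c (l 16661136) (l 16646352)))) (a (b (c (l 16660576) (l 16641632)) (l 16611200)) (b (l 16628264) (l 16573040)))))), by decide +kernel⟩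

def k4_pm_011 : ∃ t, chk3 f_pm_011 t 3 3 1 = true :=
  ⟨(b (l 3) (a (b (b (l 3) (b (a (l 3) (a (a (l 3) (b (l 3) (l 53317684087))) (a (l 78550604967) (l 83919264935)))) (a (b (a (l 3) (a (l 3) (l 16646536))) (a (a (l 3) (l 16664352)) (a (l 16625512) (l 16606920)))) (a (a (l 53854564711) (l 16596848)) (a (l 16574264) (l 16528712)))))) (a (a (b (b (b (b (l 16664568) (l 16650056)) (l 16636120)) (l 16629432)) (b (l 16572032) (l 16536176))) (b (b (b (a (l 16606808) (l 16588112)) (a (l 16588128) (l 16548440))) (l 16572160)) (c (l 16542184) (l 16514384)))) (b (a (a (b (b (l 16547560) (l 16528856)) (l 16501056)) (l 16561680)) (b (l 16524920) (l 16467096))) (a (l 16520168) (l 16454888))))) (b (a (b (b (l 3) (b (l 3) (a (a (l 3) (l 3)) (a (l 87543244615) (l 1))))) (b (a (b (a (l 16559064) (l 16579376)) (l 16544552)) (a (c (l 16576248) (l 16491336)) (l 90764553351))) (a (l 16529016) (c (l 16546224) (l 16447376))))) (b (l 1) (a (b (l 1) (l 90764504551)) (l 1)))) (a (b (a (c (l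 16487944) (l 16473632)) (b (l 16418472) (l 16392176))) (b (l 16438520) (l 16398968))) (b (a (b (l 16489320) (l 16367832)) (b (l 1) (l 16428456))) (a (b (l 16347904) (l 16303416)) (b (l 16348480) (l 16283904)))))))), by decide +kernel⟩

theorem s5_pm_011 : ∃ t, chk3 f_pm_011 t 2 7 1 = true := ex3_a k2_pm_011 k3_pm_011

theorem s6_pm_011 : ∃ t, chk3 f_pm_011 t 2 3 1 = true := ex3_b k1_pm_011 s5_pm_011

theorem s7_pm_011 : ∃ t, chk3 f_pm_011 t 1 3 1 = true := ex3_a s6_pm_011 k4_pm_011

theorem s8_pm_011 : ∃ t, chk3 f_pm_011 t 1 1 1 = true := ex3_b k0_pm_011 s7_pm_011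

theorem c_pm_011 : CertF 0 536870912 536870912 536870912 469762048 67108864 true true false .pnn 0 1 1
    ndF0q0 ndF3q1 pcF1 cut_pm_011 Ext.none :=
  certF1 (fam := true) (s1 := true) (s2 := false) (a := 0) (b := 1) (c := 1) (cn := .pnn) (n1 := ndF0q0) (n2 := ndF3q1) (pc := pcF1) (cut := cut_pm_011) (xt := Ext.none) (P1 := 0) (W1 := 536870912) (P2 := 536870912) (W2 := 536870912) (P3 := 469762048) (W3 := 67108864)
    rfl (fun _ => rfl) s8_pm_011

end Pool.Agent.Strip051.G.I7_16_1_2.Tab.C.FA03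

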