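import Pool.Agent.Strip051.G.I7_16_1_2.Tab

/-! # Certificates F3 (generated) -/

set_option linter.all false
set_option maxRecDepth 100000

namespace Pool.Agent.Strip051.G.I7_16_1_2.Tab.C.FA24

open Pool.Agent.Strip051.PB Pool.Agent.Strip051.PB.T
open Pool.Agent.Strip051.G.I7_16_1_2.Tab

noncomputable def f_pm_123 : ℕ → ℕ → ℕ → ℕ → Bool := onCell 536870912 536870912 1610612736 536870912 469762048 67108864
    (rowF 1 true true false .npn 1 2 3 (qsf 536870912 536870912 1073741824 536870912 3) ndF2q1 ndF4q2 pcF3 Cut.none Ext.none)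

def k0_pm_123 : ∃ t, chk3 f_pm_123 t 1 1 1 = true :=
  ⟨(a (b (a (b (l 17457656) (l 17230512)) (l 608847511479)) (b (a (l 17028792) (l 17175688)) (b (a (l 16858152) (l 16958072)) (a (b (l 16801672) (l 16796520)) (b (l 16830032) (l 16787464)))))) (b (b (l 1) (l 569119313559)) (b (l 17466576) (b (l 17049664) (b (l 16907248) (b (l 16839064) (l 16795368))))))), by decide +kernel⟩

theorem c_pm_123 : CertF 536870912 536870912 1073741824 536870912 469762048 67108864 true true false .npn 1 2 3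
    ndF2q1 ndF4q2 pcF3 Cut.none Ext.none :=
  certF1 (fam := true) (s1 := true) (s2 := false) (a := 1) (b := 2) (c := 3) (cn := .npn) (n1 := ndF2q1) (n2 := ndF4q2) (pc := pcF3) (cut := Cut.none) (xt := Ext.none) (P1 := 536870912) (W1 := 536870912) (P2 := 1073741824) (W2 := 536870912) (P3 := 469762048) (W3 := 67108864)
    rfl (fun _ => rfl) k0_pm_123

noncomputable def f_pm_133 : ℕ → ℕ → ℕ → ℕ → Bool := onCell 536870912 536870912 0 1230186008 469762048 67108864
    (rowF 0 true true false .dn 1 3 3 (qsf 536870912 536870912 0 1230186008 3) ndF2q1 ndF4q3 pcF3 Cut.none Ext.none)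

def k0_pm_133 : ∃ t, chk3 f_pm_133 t 1 1 1 = true :=
  ⟨(b (l 2) (b (l 2) (a (b (l 2) (l 4)) (l 2)))), by decide +kernel⟩

theorem c_pm_133 : CertF 536870912 536870912 0 1230186008 469762048 67108864 true true false .dn 1 3 3
    ndF2q1 ndF4q3 pcF3 Cut.none Ext.none :=
  certF0 (fam := true) (s1 := true) (s2 := false) (a := 1) (b := 3) (c := 3) (cn := .dn) (n1 := ndF2q1) (n2 := ndF4q3) (pc := pcF3) (cut := Cut.none) (xt := Ext.none) (P1 := 536870912) (W1 := 536870912) (P2 := 0) (W2 := 1230186008) (P3 := 469762048) (W3 := 67108864)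
    rfl k0_pm_133

noncomputable def f_pm_202 : ℕ → ℕ → ℕ → ℕ → Bool := onCell 1073741824 536870912 1073741824 536870912 469762048 67108864
    (rowF 1 true true false .pp 2 0 2 (qsf 1073741824 536870912 0 536870912 2) ndF2q2 ndF4q0 pcF2 Cut.none Ext.none)

def k0_pm_202 : ∃ t, chk3 f_pm_202 t 1 1 1 = true :=
  ⟨(a (b (b (a (a (b (a (b (l 16948248) (l 17005704)) (l 16877008)) (a (l 17072824) (l 16989920))) (b (a (l 16782328) (l 1)) (b (l 16810224) (l 16943464)))) (a (b (l 1) (l 166463776935)) (l 1))) (a (b (a (l 17114488) (l 16980592)) (l 17140608)) (b (a (l 16744280) (l 16769656)) (l 16910240)))) (b (a (b (l 17150592) (l 17146856)) (b (l 16953144) (l 16987408))) (a (l 17212736) (l 17053848)))) (b (a (b (l 1) (a (b (l 1) (l 16808688)) (l 1))) (l 1)) (a (b (b (l 16827960) (l 16874856)) (l 17076672)) (b (b (l 1) (l 16747408)) (a (l 16842328) (l 16797760)))))), by decide +kernel⟩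

theorem c_pm_202 : CertF 1073741824 536870912 0 536870912 469762048 67108864 true true false .pp 2 0 2
    ndF2q2 ndF4q0 pcF2 Cut.none Ext.none :=
  certF1 (fam := true) (s1 := true) (s2 := false) (a := 2) (b := 0) (c := 2) (cn := .pp) (n1 := ndF2q2) (n2 := ndF4q0) (pc := pcF2) (cut := Cut.none) (xt := Ext.none) (P1 := 1073741824) (W1 := 536870912) (P2 := 0) (W2 := 536870912) (P3 := 469762048) (W3 := 67108864)
    rfl (fun _ => rfl) k0_pm_202

noncomputable def f_pm_203 : ℕ → ℕ → ℕ → ℕ → Bool := onCell 1610612736 536870912 0 536870912 469762048 67108864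
    (rowF 2 true true false .up 2 0 3 (qsf 1073741824 536870912 0 536870912 3) ndF2q2 ndF4q0 pcF3 Cut.none Ext.none)

def k0_pm_203 : ∃ t, chk3 f_pm_203 t 1 1 1 = true :=
  ⟨(a (b (a (b (a (l 16823704) (l 4)) (a (l 16860888) (l 16812880))) (l 4)) (a (b (l 16935640) (l 17032856)) (b (l 4) (l 16831528)))) (b (l 4) (l 4))), by decide +kernel⟩

theorem c_pm_203 : CertF 1073741824 536870912 0 536870912 469762048 67108864 true true false .up 2 0 3
    ndF2q2 ndF4q0 pcF3 Cut.none Ext.none :=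
  certF2 (fam := true) (s1 := true) (s2 := false) (a := 2) (b := 0) (c := 3) (cn := .up) (n1 := ndF2q2) (n2 := ndF4q0) (pc := pcF3) (cut := Cut.none) (xt := Ext.none) (P1 := 1073741824) (W1 := 536870912) (P2 := 0) (W2 := 536870912) (P3 := 469762048) (W3 := 67108864)
    rfl (fun _ => rfl) k0_pm_203

noncomputable def f_pm_213 : ℕ → ℕ → ℕ → ℕ → Bool := onCell 1073741824 536870912 1610612736 536870912 469762048 67108864
    (rowF 1 true true false .pnn 2 1 3 (qsf 1073741824 536870912 536870912 536870912 3) ndF2q2 ndF4q1 pcF3 Cut.none Ext.none)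

def k0_pm_213 : ∃ t, chk3 f_pm_213 t 1 1 1 = true :=
  ⟨(a (b (b (a (l 16858240) (l 16989904)) (b (l 16967552) (l 16942416))) (l 4)) (b (b (l 1) (l 4)) (l 4))), by decide +kernel⟩

theorem c_pm_213 : CertF 1073741824 536870912 536870912 536870912 469762048 67108864 true true false .pnn 2 1 3
    ndF2q2 ndF4q1 pcF3 Cut.none Ext.none :=
  certF1 (fam := true) (s1 := true) (s2 := false) (a := 2) (b := 1) (c := 3) (cn := .pnn) (n1 := ndF2q2) (n2 := ndF4q1) (pc := pcF3) (cut := Cut.none) (xt := Ext.none) (P1 := 1073741824) (W1 := 536870912) (P2 := 536870912) (W2 := 536870912) (P3 := 469762048) (W3 := 67108864)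
    rfl (fun _ => rfl) k0_pm_213

noncomputable def f_pm_303 : ℕ → ℕ → ℕ → ℕ → Bool := onCell 0 1230186008 1610612736 536870912 469762048 67108864
    (rowF 1 true true false .npn 3 0 3 (qsf 0 1230186008 0 536870912 3) ndF2q3 ndF4q0 pcF3 Cut.none Ext.none)

def k0_pm_303 : ∃ t, chk3 f_pm_303 t 1 1 1 = true :=
  ⟨(a (l 4) (a (l 4) (b (l 4) (l 4)))), by decide +kernel⟩

theorem c_pm_303 : CertF 0 1230186008 0 536870912 469762048 67108864 true true false .npn 3 0 3
    ndF2q3 ndF4q0 pcF3 Cut.none Ext.none :=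
  certF1 (fam := true) (s1 := true) (s2 := false) (a := 3) (b := 0) (c := 3) (cn := .npn) (n1 := ndF2q3) (n2 := ndF4q0) (pc := pcF3) (cut := Cut.none) (xt := Ext.none) (P1 := 0) (W1 := 1230186008) (P2 := 0) (W2 := 536870912) (P3 := 469762048) (W3 := 67108864)
    rfl (fun _ => rfl) k0_pm_303

noncomputable def f_pm_313 : ℕ → ℕ → ℕ → ℕ → Bool := onCell 0 1230186008 536870912 536870912 469762048 67108864
    (rowF 0 true true false .dn 3 1 3 (qsf 0 1230186008 536870912 536870912 3) ndF2q3 ndF4q1 pcF3 Cut.none Ext.none)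

def k0_pm_313 : ∃ t, chk3 f_pm_313 t 1 1 1 = true :=
  ⟨(a (l 2) (l 4)), by decide +kernel⟩

theorem c_pm_313 : CertF 0 1230186008 536870912 536870912 469762048 67108864 true true false .dn 3 1 3
    ndF2q3 ndF4q1 pcF3 Cut.none Ext.none :=
  certF0 (fam := true) (s1 := true) (s2 := false) (a := 3) (b := 1) (c := 3) (cn := .dn) (n1 := ndF2q3) (n2 := ndF4q1) (pc := pcF3) (cut := Cut.none) (xt := Ext.none) (P1 := 0) (W1 := 1230186008) (P2 := 536870912) (W2 := 536870912) (P3 := 469762048) (W3 := 67108864)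
    rfl k0_pm_313

noncomputable def f_mm_001 : ℕ → ℕ → ℕ → ℕ → Bool := onCell 0 536870912 0 536870912 469762048 67108864
    (rowF 0 true false false .up 0 0 1 (qsf 0 536870912 0 536870912 1) ndF2q0 ndF4q0 pcF1 Cut.none Ext.none)

def k0_mm_001 : ∃ t, chk3 f_mm_001 t 1 1 1 = true :=
  ⟨(l 4), by decide +kernel⟩

theorem c_mm_001 : CertF 0 536870912 0 536870912 469762048 67108864 true false false .up 0 0 1
    ndF2q0 ndF4q0 pcF1 Cut.none Ext.none :=
  certF0 (fam := true) (s1 := false) (s2 := false) (a := 0) (b := 0) (c := 1) (cn := .up) (n1 := ndF2q0) (n2 := ndF4q0) (pc := pcF1) (cut := Cut.none) (xt := Ext.none) (P1 := 0) (W1 := 536870912) (P2 := 0) (W2 := 536870912) (P3 := 469762048) (W3 := 67108864)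
    rfl k0_mm_001

noncomputable def f_mm_011 : ℕ → ℕ → ℕ → ℕ → Bool := onCell 0 536870912 536870912 536870912 469762048 67108864
    (rowF 0 true false false .pnn 0 1 1 (qsf 0 536870912 536870912 536870912 1) ndF2q0 ndF4q1 pcF1 Cut.none Ext.none)

def k0_mm_011 : ∃ t, chk3 f_mm_011 t 1 1 1 = true :=
  ⟨(l 4), by decide +kernel⟩

theorem c_mm_011 : CertF 0 536870912 536870912 536870912 469762048 67108864 true false false .pnn 0 1 1
    ndF2q0 ndF4q1 pcF1 Cut.none Ext.none :=
  certF0 (fam := true) (s1 := false) (s2 := false) (a := 0) (b := 1) (c := 1) (cn := .pnn) (n1 := ndF2q0) (n2 := ndF4q1) (pc := pcF1) (cut := Cut.none) (xt := Ext.none) (P1 := 0) (W1 := 536870912) (P2 := 536870912) (W2 := 536870912) (P3 := 469762048) (W3 := 67108864)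
    rfl k0_mm_011

noncomputable def f_mm_012 : ℕ → ℕ → ℕ → ℕ → Bool := onCell 0 536870912 536870912 536870912 469762048 67108864
    (rowF 0 true false false .pnp 0 1 2 (qsf 0 536870912 536870912 536870912 2) ndF2q0 ndF4q1 pcF2 Cut.none Ext.none)

def k0_mm_012 : ∃ t, chk3 f_mm_012 t 1 1 1 = true :=
  ⟨(l 4), by decide +kernel⟩

theorem c_mm_012 : CertF 0 536870912 536870912 536870912 469762048 67108864 true false false .pnp 0 1 2
    ndF2q0 ndF4q1 pcF2 Cut.none Ext.none :=
  certF0 (fam := true) (s1 := false) (s2 := false) (a := 0) (b := 1) (c := 2) (cn := .pnp) (n1 := ndF2q0) (n2 := ndF4q1) (pc := pcF2) (cut := Cut.none) (xt := Ext.none) (P1 := 0) (W1 := 536870912) (P2 := 536870912) (W2 := 536870912) (P3 := 469762048) (W3 := 67108864)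
    rfl k0_mm_012

noncomputable def f_mm_022 : ℕ → ℕ → ℕ → ℕ → Bool := onCell 0 536870912 1073741824 536870912 469762048 67108864
    (rowF 0 true false false .pp 0 2 2 (qsf 0 536870912 1073741824 536870912 2) ndF2q0 ndF4q2 pcF2 Cut.none Ext.none)

def k0_mm_022 : ∃ t, chk3 f_mm_022 t 1 1 1 = true :=
  ⟨(l 4), by decide +kernel⟩

theorem c_mm_022 : CertF 0 536870912 1073741824 536870912 469762048 67108864 true false false .pp 0 2 2
    ndF2q0 ndF4q2 pcF2 Cut.none Ext.none :=
  certF0 (fam := true) (s1 := false) (s2 := false) (a := 0) (b := 2) (c := 2) (cn := .pp) (n1 := ndF2q0) (n2 := ndF4q2) (pc := pcF2) (cut := Cut.none) (xt := Ext.none) (P1 := 0) (W1 := 536870912) (P2 := 1073741824) (W2 := 536870912) (P3 := 469762048) (W3 := 67108864)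
    rfl k0_mm_022

noncomputable def f_mm_023 : ℕ → ℕ → ℕ → ℕ → Bool := onCell 0 536870912 1073741824 536870912 469762048 67108864
    (rowF 0 true false false .up 0 2 3 (qsf 0 536870912 1073741824 536870912 3) ndF2q0 ndF4q2 pcF3 Cut.none Ext.none)

def k0_mm_023 : ∃ t, chk3 f_mm_023 t 1 1 1 = true :=
  ⟨(l 4), by decide +kernel⟩

theorem c_mm_023 : CertF 0 536870912 1073741824 536870912 469762048 67108864 true false false .up 0 2 3
    ndF2q0 ndF4q2 pcF3 Cut.none Ext.none :=
  certF0 (fam := true) (s1 := false) (s2 := false) (a := 0) (b := 2) (c := 3) (cn := .up) (n1 := ndF2q0) (n2 := ndF4q2) (pc := pcF3) (cut := Cut.none) (xt := Ext.none) (P1 := 0) (W1 := 536870912) (P2 := 1073741824) (W2 := 536870912) (P3 := 469762048) (W3 := 67108864)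
    rfl k0_mm_023

noncomputable def f_mm_033 : ℕ → ℕ → ℕ → ℕ → Bool := onCell 0 536870912 0 1230186008 469762048 67108864
    (rowF 0 true false false .pnn 0 3 3 (qsf 0 536870912 0 1230186008 3) ndF2q0 ndF4q3 pcF3 Cut.none Ext.none)

def k0_mm_033 : ∃ t, chk3 f_mm_033 t 1 1 1 = true :=
  ⟨(l 4), by decide +kernel⟩

theorem c_mm_033 : CertF 0 536870912 0 1230186008 469762048 67108864 true false false .pnn 0 3 3
    ndF2q0 ndF4q3 pcF3 Cut.none Ext.none :=
  certF0 (fam := true) (s1 := false) (s2 := false) (a := 0) (b := 3) (c := 3) (cn := .pnn) (n1 := ndF2q0) (n2 := ndF4q3) (pc := pcF3) (cut := Cut.none) (xt := Ext.none) (P1 := 0) (W1 := 536870912) (P2 := 0) (W2 := 1230186008) (P3 := 469762048) (W3 := 67108864)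
    rfl k0_mm_033

noncomputable def f_mm_101 : ℕ → ℕ → ℕ → ℕ → Bool := onCell 536870912 536870912 0 536870912 469762048 67108864
    (rowF 0 true false false .npn 1 0 1 (qsf 536870912 536870912 0 536870912 1) ndF2q1 ndF4q0 pcF1 Cut.none Ext.none)

def k0_mm_101 : ∃ t, chk3 f_mm_101 t 1 1 1 = true :=
  ⟨(l 4), by decide +kernel⟩

theorem c_mm_101 : CertF 536870912 536870912 0 536870912 469762048 67108864 true false false .npn 1 0 1
    ndF2q1 ndF4q0 pcF1 Cut.none Ext.none :=
  certF0 (fam := true) (s1 := false) (s2 := false) (a := 1) (b := 0) (c := 1) (cn := .npn) (n1 := ndF2q1) (n2 := ndF4q0) (pc := pcF1) (cut := Cut.none) (xt := Ext.none) (P1 := 536870912) (W1 := 536870912) (P2 := 0) (W2 := 536870912) (P3 := 469762048) (W3 := 67108864)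
    rfl k0_mm_101

noncomputable def f_mm_102 : ℕ → ℕ → ℕ → ℕ → Bool := onCell 536870912 536870912 0 536870912 469762048 67108864
    (rowF 0 true false false .npp 1 0 2 (qsf 536870912 536870912 0 536870912 2) ndF2q1 ndF4q0 pcF2 Cut.none Ext.none)

def k0_mm_102 : ∃ t, chk3 f_mm_102 t 1 1 1 = true :=
  ⟨(l 4), by decide +kernel⟩

theorem c_mm_102 : CertF 536870912 536870912 0 536870912 469762048 67108864 true false false .npp 1 0 2
    ndF2q1 ndF4q0 pcF2 Cut.none Ext.none :=
  certF0 (fam := true) (s1 := false) (s2 := false) (a := 1) (b := 0) (c := 2) (cn := .npp) (n1 := ndF2q1) (n2 := ndF4q0) (pc := pcF2) (cut := Cut.none) (xt := Ext.none) (P1 := 536870912) (W1 := 536870912) (P2 := 0) (W2 := 536870912) (P3 := 469762048) (W3 := 67108864)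
    rfl k0_mm_102

noncomputable def f_mm_112 : ℕ → ℕ → ℕ → ℕ → Bool := onCell 536870912 536870912 536870912 536870912 469762048 67108864
    (rowF 0 true false false .dn 1 1 2 (qsf 536870912 536870912 536870912 536870912 2) ndF2q1 ndF4q1 pcF2 Cut.none Ext.none)

def k0_mm_112 : ∃ t, chk3 f_mm_112 t 1 1 1 = true :=
  ⟨(l 4), by decide +kernel⟩

theorem c_mm_112 : CertF 536870912 536870912 536870912 536870912 469762048 67108864 true false false .dn 1 1 2
    ndF2q1 ndF4q1 pcF2 Cut.none Ext.none :=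
  certF0 (fam := true) (s1 := false) (s2 := false) (a := 1) (b := 1) (c := 2) (cn := .dn) (n1 := ndF2q1) (n2 := ndF4q1) (pc := pcF2) (cut := Cut.none) (xt := Ext.none) (P1 := 536870912) (W1 := 536870912) (P2 := 536870912) (W2 := 536870912) (P3 := 469762048) (W3 := 67108864)
    rfl k0_mm_112

noncomputable def f_mm_113 : ℕ → ℕ → ℕ → ℕ → Bool := onCell 536870912 536870912 536870912 536870912 469762048 67108864
    (rowF 0 true false false .nn 1 1 3 (qsf 536870912 536870912 536870912 536870912 3) ndF2q1 ndF4q1 pcF3 Cut.none Ext.none)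

def k0_mm_113 : ∃ t, chk3 f_mm_113 t 1 1 1 = true :=
  ⟨(l 4), by decide +kernel⟩

theorem c_mm_113 : CertF 536870912 536870912 536870912 536870912 469762048 67108864 true false false .nn 1 1 3
    ndF2q1 ndF4q1 pcF3 Cut.none Ext.none :=
  certF0 (fam := true) (s1 := false) (s2 := false) (a := 1) (b := 1) (c := 3) (cn := .nn) (n1 := ndF2q1) (n2 := ndF4q1) (pc := pcF3) (cut := Cut.none) (xt := Ext.none) (P1 := 536870912) (W1 := 536870912) (P2 := 536870912) (W2 := 536870912) (P3 := 469762048) (W3 := 67108864)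
    rfl k0_mm_113

noncomputable def f_mm_123 : ℕ → ℕ → ℕ → ℕ → Bool := onCell 536870912 536870912 1073741824 536870912 469762048 67108864
    (rowF 0 true false false .npn 1 2 3 (qsf 536870912 536870912 1073741824 536870912 3) ndF2q1 ndF4q2 pcF3 Cut.none Ext.none)

def k0_mm_123 : ∃ t, chk3 f_mm_123 t 1 1 1 = true :=
  ⟨(l 4), by decide +kernel⟩

theorem c_mm_123 : CertF 536870912 536870912 1073741824 536870912 469762048 67108864 true false false .npn 1 2 3
    ndF2q1 ndF4q2 pcF3 Cut.none Ext.none :=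
  certF0 (fam := true) (s1 := false) (s2 := false) (a := 1) (b := 2) (c := 3) (cn := .npn) (n1 := ndF2q1) (n2 := ndF4q2) (pc := pcF3) (cut := Cut.none) (xt := Ext.none) (P1 := 536870912) (W1 := 536870912) (P2 := 1073741824) (W2 := 536870912) (P3 := 469762048) (W3 := 67108864)
    rfl k0_mm_123

noncomputable def f_mm_133 : ℕ → ℕ → ℕ → ℕ → Bool := onCell 536870912 536870912 0 1230186008 469762048 67108864
    (rowF 0 true false false .dn 1 3 3 (qsf 536870912 536870912 0 1230186008 3) ndF2q1 ndF4q3 pcF3 Cut.none Ext.none)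

def k0_mm_133 : ∃ t, chk3 f_mm_133 t 1 1 1 = true :=
  ⟨(l 4), by decide +kernel⟩

theorem c_mm_133 : CertF 536870912 536870912 0 1230186008 469762048 67108864 true false false .dn 1 3 3
    ndF2q1 ndF4q3 pcF3 Cut.none Ext.none :=
  certF0 (fam := true) (s1 := false) (s2 := false) (a := 1) (b := 3) (c := 3) (cn := .dn) (n1 := ndF2q1) (n2 := ndF4q3) (pc := pcF3) (cut := Cut.none) (xt := Ext.none) (P1 := 536870912) (W1 := 536870912) (P2 := 0) (W2 := 1230186008) (P3 := 469762048) (W3 := 67108864)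
    rfl k0_mm_133

noncomputable def f_mm_202 : ℕ → ℕ → ℕ → ℕ → Bool := onCell 1073741824 536870912 0 536870912 469762048 67108864
    (rowF 0 true false false .pp 2 0 2 (qsf 1073741824 536870912 0 536870912 2) ndF2q2 ndF4q0 pcF2 Cut.none Ext.none)

def k0_mm_202 : ∃ t, chk3 f_mm_202 t 1 1 1 = true :=
  ⟨(l 4), by decide +kernel⟩

theorem c_mm_202 : CertF 1073741824 536870912 0 536870912 469762048 67108864 true false false .pp 2 0 2
    ndF2q2 ndF4q0 pcF2 Cut.none Ext.none :=
  certF0 (fam := true) (s1 := false) (s2 := false) (a := 2) (b := 0) (c := 2) (cn := .pp) (n1 := ndF2q2) (n2 := ndF4q0) (pc := pcF2) (cut := Cut.none) (xt := Ext.none) (P1 := 1073741824) (W1 := 536870912) (P2 := 0) (W2 := 536870912) (P3 := 469762048) (W3 := 67108864)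
    rfl k0_mm_202

noncomputable def f_mm_203 : ℕ → ℕ → ℕ → ℕ → Bool := onCell 1073741824 536870912 0 536870912 469762048 67108864
    (rowF 0 true false false .up 2 0 3 (qsf 1073741824 536870912 0 536870912 3) ndF2q2 ndF4q0 pcF3 Cut.none Ext.none)

def k0_mm_203 : ∃ t, chk3 f_mm_203 t 1 1 1 = true :=
  ⟨(l 4), by decide +kernel⟩

theorem c_mm_203 : CertF 1073741824 536870912 0 536870912 469762048 67108864 true false false .up 2 0 3
    ndF2q2 ndF4q0 pcF3 Cut.none Ext.none :=
  certF0 (fam := true) (s1 := false) (s2 := false) (a := 2) (b := 0) (c := 3) (cn := .up) (n1 := ndF2q2) (n2 := ndF4q0) (pc := pcF3) (cut := Cut.none) (xt := Ext.none) (P1 := 1073741824) (W1 := 536870912) (P2 := 0) (W2 := 536870912) (P3 := 469762048) (W3 := 67108864)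
    rfl k0_mm_203

noncomputable def f_mm_213 : ℕ → ℕ → ℕ → ℕ → Bool := onCell 1073741824 536870912 536870912 536870912 469762048 67108864
    (rowF 0 true false false .pnn 2 1 3 (qsf 1073741824 536870912 536870912 536870912 3) ndF2q2 ndF4q1 pcF3 Cut.none Ext.none)

def k0_mm_213 : ∃ t, chk3 f_mm_213 t 1 1 1 = true :=
  ⟨(l 4), by decide +kernel⟩

theorem c_mm_213 : CertF 1073741824 536870912 536870912 536870912 469762048 67108864 true false false .pnn 2 1 3
    ndF2q2 ndF4q1 pcF3 Cut.none Ext.none :=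
  certF0 (fam := true) (s1 := false) (s2 := false) (a := 2) (b := 1) (c := 3) (cn := .pnn) (n1 := ndF2q2) (n2 := ndF4q1) (pc := pcF3) (cut := Cut.none) (xt := Ext.none) (P1 := 1073741824) (W1 := 536870912) (P2 := 536870912) (W2 := 536870912) (P3 := 469762048) (W3 := 67108864)
    rfl k0_mm_213

noncomputable def f_mm_303 : ℕ → ℕ → ℕ → ℕ → Bool := onCell 0 1230186008 0 536870912 469762048 67108864
    (rowF 0 true false false .npn 3 0 3 (qsf 0 1230186008 0 536870912 3) ndF2q3 ndF4q0 pcF3 Cut.none Ext.none)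

def k0_mm_303 : ∃ t, chk3 f_mm_303 t 1 1 1 = true :=
  ⟨(l 4), by decide +kernel⟩

theorem c_mm_303 : CertF 0 1230186008 0 536870912 469762048 67108864 true false false .npn 3 0 3
    ndF2q3 ndF4q0 pcF3 Cut.none Ext.none :=
  certF0 (fam := true) (s1 := false) (s2 := false) (a := 3) (b := 0) (c := 3) (cn := .npn) (n1 := ndF2q3) (n2 := ndF4q0) (pc := pcF3) (cut := Cut.none) (xt := Ext.none) (P1 := 0) (W1 := 1230186008) (P2 := 0) (W2 := 536870912) (P3 := 469762048) (W3 := 67108864)
    rfl k0_mm_303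

noncomputable def f_mm_313 : ℕ → ℕ → ℕ → ℕ → Bool := onCell 0 1230186008 536870912 536870912 469762048 67108864
    (rowF 0 true false false .dn 3 1 3 (qsf 0 1230186008 536870912 536870912 3) ndF2q3 ndF4q1 pcF3 Cut.none Ext.none)

def k0_mm_313 : ∃ t, chk3 f_mm_313 t 1 1 1 = true :=
  ⟨(l 4), by decide +kernel⟩

theorem c_mm_313 : CertF 0 1230186008 536870912 536870912 469762048 67108864 true false false .dn 3 1 3
    ndF2q3 ndF4q1 pcF3 Cut.none Ext.none :=
  certF0 (fam := true) (s1 := false) (s2 := false) (a := 3) (b := 1) (c := 3) (cn := .dn) (n1 := ndF2q3) (n2 := ndF4q1) (pc := pcF3) (cut := Cut.none) (xt := Ext.none) (P1 := 0) (W1 := 1230186008) (P2 := 536870912) (W2 := 536870912) (P3 := 469762048) (W3 := 67108864)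
    rfl k0_mm_313

end Pool.Agent.Strip051.G.I7_16_1_2.Tab.C.FA24

namespace Pool.Agent.Strip051.G.I7_16_1_2.Tab.C.FA33

open Pool.Agent.Strip051.PB Pool.Agent.Strip051.PB.T
open Pool.Agent.Strip051.G.I7_16_1_2.Tab

noncomputable def f_pp_001 : ℕ → ℕ → ℕ → ℕ → Bool := onCell 0 536870912 0 536870912 469762048 67108864
    (rowF 0 true true true .up 0 0 1 (qsf 0 536870912 0 536870912 1) ndF3q0 ndF3q0 pcF1 Cut.none Ext.none)

def k0_pp_001 : ∃ t, chk3 f_pp_001 t 1 1 1 = true :=
  ⟨(l 4), by decide +kernel⟩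

theorem c_pp_001 : CertF 0 536870912 0 536870912 469762048 67108864 true true true .up 0 0 1
    ndF3q0 ndF3q0 pcF1 Cut.none Ext.none :=
  certF0 (fam := true) (s1 := true) (s2 := true) (a := 0) (b := 0) (c := 1) (cn := .up) (n1 := ndF3q0) (n2 := ndF3q0) (pc := pcF1) (cut := Cut.none) (xt := Ext.none) (P1 := 0) (W1 := 536870912) (P2 := 0) (W2 := 536870912) (P3 := 469762048) (W3 := 67108864)
    rfl k0_pp_001

noncomputable def f_pp_011 : ℕ → ℕ → ℕ → ℕ → Bool := onCell 0 536870912 536870912 536870912 469762048 67108864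
    (rowF 0 true true true .pnn 0 1 1 (qsf 0 536870912 536870912 536870912 1) ndF3q0 ndF3q1 pcF1 Cut.none Ext.none)

def k0_pp_011 : ∃ t, chk3 f_pp_011 t 1 1 1 = true :=
  ⟨(l 4), by decide +kernel⟩

theorem c_pp_011 : CertF 0 536870912 536870912 536870912 469762048 67108864 true true true .pnn 0 1 1
    ndF3q0 ndF3q1 pcF1 Cut.none Ext.none :=
  certF0 (fam := true) (s1 := true) (s2 := true) (a := 0) (b := 1) (c := 1) (cn := .pnn) (n1 := ndF3q0) (n2 := ndF3q1) (pc := pcF1) (cut := Cut.none) (xt := Ext.none) (P1 := 0) (W1 := 536870912) (P2 := 536870912) (W2 := 536870912) (P3 := 469762048) (W3 := 67108864)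
    rfl k0_pp_011

noncomputable def f_pp_012 : ℕ → ℕ → ℕ → ℕ → Bool := onCell 0 536870912 536870912 536870912 469762048 67108864
    (rowF 0 true true true .pnp 0 1 2 (qsf 0 536870912 536870912 536870912 2) ndF3q0 ndF3q1 pcF2 Cut.none Ext.none)

def k0_pp_012 : ∃ t, chk3 f_pp_012 t 1 1 1 = true :=
  ⟨(l 4), by decide +kernel⟩

theorem c_pp_012 : CertF 0 536870912 536870912 536870912 469762048 67108864 true true true .pnp 0 1 2
    ndF3q0 ndF3q1 pcF2 Cut.none Ext.none :=
  certF0 (fam := true) (s1 := true) (s2 := true) (a := 0) (b := 1) (c := 2) (cn := .pnp) (n1 := ndF3q0) (n2 := ndF3q1) (pc := pcF2) (cut := Cut.none) (xt := Ext.none) (P1 := 0) (W1 := 536870912) (P2 := 536870912) (W2 := 536870912) (P3 := 469762048) (W3 := 67108864)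
    rfl k0_pp_012

noncomputable def f_pp_022 : ℕ → ℕ → ℕ → ℕ → Bool := onCell 0 536870912 1073741824 536870912 469762048 67108864
    (rowF 0 true true true .pp 0 2 2 (qsf 0 536870912 1073741824 536870912 2) ndF3q0 ndF3q2 pcF2 Cut.none Ext.none)

def k0_pp_022 : ∃ t, chk3 f_pp_022 t 1 1 1 = true :=
  ⟨(l 4), by decide +kernel⟩

theorem c_pp_022 : CertF 0 536870912 1073741824 536870912 469762048 67108864 true true true .pp 0 2 2
    ndF3q0 ndF3q2 pcF2 Cut.none Ext.none :=
  certF0 (fam := true) (s1 := true) (s2 := true) (a := 0) (b := 2) (c := 2) (cn := .pp) (n1 := ndF3q0) (n2 := ndF3q2) (pc := pcF2) (cut := Cut.none) (xt := Ext.none) (P1 := 0) (W1 := 536870912) (P2 := 1073741824) (W2 := 536870912) (P3 := 469762048) (W3 := 67108864)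
    rfl k0_pp_022

noncomputable def f_pp_023 : ℕ → ℕ → ℕ → ℕ → Bool := onCell 0 536870912 1073741824 536870912 469762048 67108864
    (rowF 0 true true true .up 0 2 3 (qsf 0 536870912 1073741824 536870912 3) ndF3q0 ndF3q2 pcF3 Cut.none Ext.none)

def k0_pp_023 : ∃ t, chk3 f_pp_023 t 1 1 1 = true :=
  ⟨(l 4), by decide +kernel⟩

theorem c_pp_023 : CertF 0 536870912 1073741824 536870912 469762048 67108864 true true true .up 0 2 3
    ndF3q0 ndF3q2 pcF3 Cut.none Ext.none :=
  certF0 (fam := true) (s1 := true) (s2 := true) (a := 0) (b := 2) (c := 3) (cn := .up) (n1 := ndF3q0) (n2 := ndF3q2) (pc := pcF3) (cut := Cut.none) (xt := Ext.none) (P1 := 0) (W1 := 536870912) (P2 := 1073741824) (W2 := 536870912) (P3 := 469762048) (W3 := 67108864)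
    rfl k0_pp_023

noncomputable def f_pp_033 : ℕ → ℕ → ℕ → ℕ → Bool := onCell 0 536870912 0 1230186008 469762048 67108864
    (rowF 0 true true true .pnn 0 3 3 (qsf 0 536870912 0 1230186008 3) ndF3q0 ndF3q3 pcF3 Cut.none Ext.none)

def k0_pp_033 : ∃ t, chk3 f_pp_033 t 1 1 1 = true :=
  ⟨(l 4), by decide +kernel⟩

theorem c_pp_033 : CertF 0 536870912 0 1230186008 469762048 67108864 true true true .pnn 0 3 3
    ndF3q0 ndF3q3 pcF3 Cut.none Ext.none :=
  certF0 (fam := true) (s1 := true) (s2 := true) (a := 0) (b := 3) (c := 3) (cn := .pnn) (n1 := ndF3q0) (n2 := ndF3q3) (pc := pcF3) (cut := Cut.none) (xt := Ext.none) (P1 := 0) (W1 := 536870912) (P2 := 0) (W2 := 1230186008) (P3 := 469762048) (W3 := 67108864)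
    rfl k0_pp_033

noncomputable def f_pp_101 : ℕ → ℕ → ℕ → ℕ → Bool := onCell 536870912 536870912 0 536870912 469762048 67108864
    (rowF 0 true true true .npn 1 0 1 (qsf 536870912 536870912 0 536870912 1) ndF3q1 ndF3q0 pcF1 Cut.none Ext.none)

def k0_pp_101 : ∃ t, chk3 f_pp_101 t 1 1 1 = true :=
  ⟨(l 4), by decide +kernel⟩

theorem c_pp_101 : CertF 536870912 536870912 0 536870912 469762048 67108864 true true true .npn 1 0 1
    ndF3q1 ndF3q0 pcF1 Cut.none Ext.none :=
  certF0 (fam := true) (s1 := true) (s2 := true) (a := 1) (b := 0) (c := 1) (cn := .npn) (n1 := ndF3q1) (n2 := ndF3q0) (pc := pcF1) (cut := Cut.none) (xt := Ext.none) (P1 := 536870912) (W1 := 536870912) (P2 := 0) (W2 := 536870912) (P3 := 469762048) (W3 := 67108864)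
    rfl k0_pp_101

noncomputable def f_pp_102 : ℕ → ℕ → ℕ → ℕ → Bool := onCell 536870912 536870912 0 536870912 469762048 67108864
    (rowF 0 true true true .npp 1 0 2 (qsf 536870912 536870912 0 536870912 2) ndF3q1 ndF3q0 pcF2 Cut.none Ext.none)

def k0_pp_102 : ∃ t, chk3 f_pp_102 t 1 1 1 = true :=
  ⟨(l 4), by decide +kernel⟩

theorem c_pp_102 : CertF 536870912 536870912 0 536870912 469762048 67108864 true true true .npp 1 0 2
    ndF3q1 ndF3q0 pcF2 Cut.none Ext.none :=
  certF0 (fam := true) (s1 := true) (s2 := true) (a := 1) (b := 0) (c := 2) (cn := .npp) (n1 := ndF3q1) (n2 := ndF3q0) (pc := pcF2) (cut := Cut.none) (xt := Ext.none) (P1 := 536870912) (W1 := 536870912) (P2 := 0) (W2 := 536870912) (P3 := 469762048) (W3 := 67108864)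
    rfl k0_pp_102

noncomputable def f_pp_112 : ℕ → ℕ → ℕ → ℕ → Bool := onCell 536870912 536870912 536870912 536870912 469762048 67108864
    (rowF 0 true true true .dn 1 1 2 (qsf 536870912 536870912 536870912 536870912 2) ndF3q1 ndF3q1 pcF2 Cut.none Ext.none)

def k0_pp_112 : ∃ t, chk3 f_pp_112 t 1 1 1 = true :=
  ⟨(l 4), by decide +kernel⟩

theorem c_pp_112 : CertF 536870912 536870912 536870912 536870912 469762048 67108864 true true true .dn 1 1 2
    ndF3q1 ndF3q1 pcF2 Cut.none Ext.none :=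
  certF0 (fam := true) (s1 := true) (s2 := true) (a := 1) (b := 1) (c := 2) (cn := .dn) (n1 := ndF3q1) (n2 := ndF3q1) (pc := pcF2) (cut := Cut.none) (xt := Ext.none) (P1 := 536870912) (W1 := 536870912) (P2 := 536870912) (W2 := 536870912) (P3 := 469762048) (W3 := 67108864)
    rfl k0_pp_112

noncomputable def f_pp_113 : ℕ → ℕ → ℕ → ℕ → Bool := onCell 536870912 536870912 536870912 536870912 469762048 67108864
    (rowF 0 true true true .nn 1 1 3 (qsf 536870912 536870912 536870912 536870912 3) ndF3q1 ndF3q1 pcF3 Cut.none Ext.none)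

def k0_pp_113 : ∃ t, chk3 f_pp_113 t 1 1 1 = true :=
  ⟨(l 4), by decide +kernel⟩

theorem c_pp_113 : CertF 536870912 536870912 536870912 536870912 469762048 67108864 true true true .nn 1 1 3
    ndF3q1 ndF3q1 pcF3 Cut.none Ext.none :=
  certF0 (fam := true) (s1 := true) (s2 := true) (a := 1) (b := 1) (c := 3) (cn := .nn) (n1 := ndF3q1) (n2 := ndF3q1) (pc := pcF3) (cut := Cut.none) (xt := Ext.none) (P1 := 536870912) (W1 := 536870912) (P2 := 536870912) (W2 := 536870912) (P3 := 469762048) (W3 := 67108864)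
    rfl k0_pp_113

noncomputable def f_pp_123 : ℕ → ℕ → ℕ → ℕ → Bool := onCell 536870912 536870912 1073741824 536870912 469762048 67108864
    (rowF 0 true true true .npn 1 2 3 (qsf 536870912 536870912 1073741824 536870912 3) ndF3q1 ndF3q2 pcF3 Cut.none Ext.none)

def k0_pp_123 : ∃ t, chk3 f_pp_123 t 1 1 1 = true :=
  ⟨(l 4), by decide +kernel⟩

theorem c_pp_123 : CertF 536870912 536870912 1073741824 536870912 469762048 67108864 true true true .npn 1 2 3
    ndF3q1 ndF3q2 pcF3 Cut.none Ext.none :=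
  certF0 (fam := true) (s1 := true) (s2 := true) (a := 1) (b := 2) (c := 3) (cn := .npn) (n1 := ndF3q1) (n2 := ndF3q2) (pc := pcF3) (cut := Cut.none) (xt := Ext.none) (P1 := 536870912) (W1 := 536870912) (P2 := 1073741824) (W2 := 536870912) (P3 := 469762048) (W3 := 67108864)
    rfl k0_pp_123

noncomputable def f_pp_133 : ℕ → ℕ → ℕ → ℕ → Bool := onCell 536870912 536870912 0 1230186008 469762048 67108864
    (rowF 0 true true true .dn 1 3 3 (qsf 536870912 536870912 0 1230186008 3) ndF3q1 ndF3q3 pcF3 Cut.none Ext.none)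

def k0_pp_133 : ∃ t, chk3 f_pp_133 t 1 1 1 = true :=
  ⟨(l 4), by decide +kernel⟩

theorem c_pp_133 : CertF 536870912 536870912 0 1230186008 469762048 67108864 true true true .dn 1 3 3
    ndF3q1 ndF3q3 pcF3 Cut.none Ext.none :=
  certF0 (fam := true) (s1 := true) (s2 := true) (a := 1) (b := 3) (c := 3) (cn := .dn) (n1 := ndF3q1) (n2 := ndF3q3) (pc := pcF3) (cut := Cut.none) (xt := Ext.none) (P1 := 536870912) (W1 := 536870912) (P2 := 0) (W2 := 1230186008) (P3 := 469762048) (W3 := 67108864)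
    rfl k0_pp_133

noncomputable def f_pp_202 : ℕ → ℕ → ℕ → ℕ → Bool := onCell 1073741824 536870912 0 536870912 469762048 67108864
    (rowF 0 true true true .pp 2 0 2 (qsf 1073741824 536870912 0 536870912 2) ndF3q2 ndF3q0 pcF2 Cut.none Ext.none)

def k0_pp_202 : ∃ t, chk3 f_pp_202 t 1 1 1 = true :=
  ⟨(l 4), by decide +kernel⟩

theorem c_pp_202 : CertF 1073741824 536870912 0 536870912 469762048 67108864 true true true .pp 2 0 2
    ndF3q2 ndF3q0 pcF2 Cut.none Ext.none :=
  certF0 (fam := true) (s1 := true) (s2 := true) (a := 2) (b := 0) (c := 2) (cn := .pp) (n1 := ndF3q2) (n2 := ndF3q0) (pc := pcF2) (cut := Cut.none) (xt := Ext.none) (P1 := 1073741824) (W1 := 536870912) (P2 := 0) (W2 := 536870912) (P3 := 469762048) (W3 := 67108864)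
    rfl k0_pp_202

noncomputable def f_pp_203 : ℕ → ℕ → ℕ → ℕ → Bool := onCell 1073741824 536870912 0 536870912 469762048 67108864
    (rowF 0 true true true .up 2 0 3 (qsf 1073741824 536870912 0 536870912 3) ndF3q2 ndF3q0 pcF3 Cut.none Ext.none)

def k0_pp_203 : ∃ t, chk3 f_pp_203 t 1 1 1 = true :=
  ⟨(l 4), by decide +kernel⟩

theorem c_pp_203 : CertF 1073741824 536870912 0 536870912 469762048 67108864 true true true .up 2 0 3
    ndF3q2 ndF3q0 pcF3 Cut.none Ext.none :=
  certF0 (fam := true) (s1 := true) (s2 := true) (a := 2) (b := 0) (c := 3) (cn := .up) (n1 := ndF3q2) (n2 := ndF3q0) (pc := pcF3) (cut := Cut.none) (xt := Ext.none) (P1 := 1073741824) (W1 := 536870912) (P2 := 0) (W2 := 536870912) (P3 := 469762048) (W3 := 67108864)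
    rfl k0_pp_203

noncomputable def f_pp_213 : ℕ → ℕ → ℕ → ℕ → Bool := onCell 1073741824 536870912 536870912 536870912 469762048 67108864
    (rowF 0 true true true .pnn 2 1 3 (qsf 1073741824 536870912 536870912 536870912 3) ndF3q2 ndF3q1 pcF3 Cut.none Ext.none)

def k0_pp_213 : ∃ t, chk3 f_pp_213 t 1 1 1 = true :=
  ⟨(l 4), by decide +kernel⟩

theorem c_pp_213 : CertF 1073741824 536870912 536870912 536870912 469762048 67108864 true true true .pnn 2 1 3
    ndF3q2 ndF3q1 pcF3 Cut.none Ext.none :=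
  certF0 (fam := true) (s1 := true) (s2 := true) (a := 2) (b := 1) (c := 3) (cn := .pnn) (n1 := ndF3q2) (n2 := ndF3q1) (pc := pcF3) (cut := Cut.none) (xt := Ext.none) (P1 := 1073741824) (W1 := 536870912) (P2 := 536870912) (W2 := 536870912) (P3 := 469762048) (W3 := 67108864)
    rfl k0_pp_213

noncomputable def f_pp_303 : ℕ → ℕ → ℕ → ℕ → Bool := onCell 0 1230186008 0 536870912 469762048 67108864
    (rowF 0 true true true .npn 3 0 3 (qsf 0 1230186008 0 536870912 3) ndF3q3 ndF3q0 pcF3 Cut.none Ext.none)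

def k0_pp_303 : ∃ t, chk3 f_pp_303 t 1 1 1 = true :=
  ⟨(l 4), by decide +kernel⟩

theorem c_pp_303 : CertF 0 1230186008 0 536870912 469762048 67108864 true true true .npn 3 0 3
    ndF3q3 ndF3q0 pcF3 Cut.none Ext.none :=
  certF0 (fam := true) (s1 := true) (s2 := true) (a := 3) (b := 0) (c := 3) (cn := .npn) (n1 := ndF3q3) (n2 := ndF3q0) (pc := pcF3) (cut := Cut.none) (xt := Ext.none) (P1 := 0) (W1 := 1230186008) (P2 := 0) (W2 := 536870912) (P3 := 469762048) (W3 := 67108864)
    rfl k0_pp_303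

noncomputable def f_pp_313 : ℕ → ℕ → ℕ → ℕ → Bool := onCell 0 1230186008 536870912 536870912 469762048 67108864
    (rowF 0 true true true .dn 3 1 3 (qsf 0 1230186008 536870912 536870912 3) ndF3q3 ndF3q1 pcF3 Cut.none Ext.none)

def k0_pp_313 : ∃ t, chk3 f_pp_313 t 1 1 1 = true :=
  ⟨(l 4), by decide +kernel⟩

theorem c_pp_313 : CertF 0 1230186008 536870912 536870912 469762048 67108864 true true true .dn 3 1 3
    ndF3q3 ndF3q1 pcF3 Cut.none Ext.none :=
  certF0 (fam := true) (s1 := true) (s2 := true) (a := 3) (b := 1) (c := 3) (cn := .dn) (n1 := ndF3q3) (n2 := ndF3q1) (pc := pcF3) (cut := Cut.none) (xt := Ext.none) (P1 := 0) (W1 := 1230186008) (P2 := 536870912) (W2 := 536870912) (P3 := 469762048) (W3 := 67108864)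
    rfl k0_pp_313

noncomputable def f_pm_001 : ℕ → ℕ → ℕ → ℕ → Bool := onCell 0 536870912 0 536870912 469762048 67108864
    (rowF 0 true true false .up 0 0 1 (qsf 0 536870912 0 536870912 1) ndF3q0 ndF3q0 pcF1 Cut.none Ext.none)

def k0_pm_001 : ∃ t, chk3 f_pm_001 t 1 1 1 = true :=
  ⟨(l 3), by decide +kernel⟩

theorem c_pm_001 : CertF 0 536870912 0 536870912 469762048 67108864 true true false .up 0 0 1
    ndF3q0 ndF3q0 pcF1 Cut.none Ext.none :=
  certF0 (fam := true) (s1 := true) (s2 := false) (a := 0) (b := 0) (c := 1) (cn := .up) (n1 := ndF3q0) (n2 := ndF3q0) (pc := pcF1) (cut := Cut.none) (xt := Ext.none) (P1 := 0) (W1 := 536870912) (P2 := 0) (W2 := 536870912) (P3 := 469762048) (W3 := 67108864)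
    rfl k0_pm_001

noncomputable def f_pm_011 : ℕ → ℕ → ℕ → ℕ → Bool := onCell 0 536870912 536870912 536870912 469762048 67108864
    (rowF 1 true true false .pnn 0 1 1 (qsf 0 536870912 536870912 536870912 1) ndF3q0 ndF3q1 pcF1 Cut.none Ext.none)

def k0_pm_011 : ∃ t, chk3 f_pm_011 t 1 1 1 = true :=
  ⟨(l 3), by decide +kernel⟩

theorem c_pm_011 : CertF 0 536870912 536870912 536870912 469762048 67108864 true true false .pnn 0 1 1
    ndF3q0 ndF3q1 pcF1 Cut.none Ext.none :=
  certF1 (fam := true) (s1 := true) (s2 := false) (a := 0) (b := 1) (c := 1) (cn := .pnn) (n1 := ndF3q0) (n2 := ndF3q1) (pc := pcF1) (cut := Cut.none) (xt := Ext.none) (P1 := 0) (W1 := 536870912) (P2 := 536870912) (W2 := 536870912) (P3 := 469762048) (W3 := 67108864)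
    rfl (fun _ => rfl) k0_pm_011

noncomputable def f_pm_012 : ℕ → ℕ → ℕ → ℕ → Bool := onCell 1073741824 536870912 536870912 536870912 469762048 67108864
    (rowF 2 true true false .pnp 0 1 2 (qsf 0 536870912 536870912 536870912 2) ndF3q0 ndF3q1 pcF2 Cut.none Ext.none)

def k0_pm_012 : ∃ t, chk3 f_pm_012 t 1 1 1 = true :=
  ⟨(a (a (l 3) (a (a (a (l 3) (a (l 3) (a (l 3) (b (l 16957392) (b (l 16953256) (a (l 3) (l 16878456))))))) (b (l 16972168) (b (l 16970736) (l 16892624)))) (b (l 17019104) (b (l 17029128) (l 16949200))))) (a (b (l 17146192) (b (l 17197824) (l 17134064))) (b (l 2) (l 17544704)))), by decide +kernel⟩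

theorem c_pm_012 : CertF 0 536870912 536870912 536870912 469762048 67108864 true true false .pnp 0 1 2
    ndF3q0 ndF3q1 pcF2 Cut.none Ext.none :=
  certF2 (fam := true) (s1 := true) (s2 := false) (a := 0) (b := 1) (c := 2) (cn := .pnp) (n1 := ndF3q0) (n2 := ndF3q1) (pc := pcF2) (cut := Cut.none) (xt := Ext.none) (P1 := 0) (W1 := 536870912) (P2 := 536870912) (W2 := 536870912) (P3 := 469762048) (W3 := 67108864)
    rfl (fun _ => rfl) k0_pm_012

noncomputable def f_pm_022 : ℕ → ℕ → ℕ → ℕ → Bool := onCell 0 536870912 1073741824 536870912 469762048 67108864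
    (rowF 1 true true false .pp 0 2 2 (qsf 0 536870912 1073741824 536870912 2) ndF3q0 ndF3q2 pcF2 Cut.none Ext.none)

def k0_pm_022 : ∃ t, chk3 f_pm_022 t 1 1 1 = true :=
  ⟨(a (b (b (b (a (a (l 3) (b (l 1) (a (l 334504531303) (l 1)))) (l 1)) (a (b (a (a (l 16763240) (l 16788248)) (b (l 418793228375) (l 16829688))) (a (l 16747920) (l 16809592))) (b (l 1) (a (b (l 1) (l 16904464)) (l 1))))) (a (b (a (l 16705960) (l 16774184)) (l 16692656)) (b (a (l 442952695239) (l 477849607927)) (l 16876736)))) (b (a (l 16620216) (l 16821000)) (b (l 16662080) (a (l 16475200) (l 16735464))))) (b (b (l 1) (b (l 1) (a (l 535295229831) (l 1)))) (b (a (l 17141976) (l 17837744)) (b (l 17263728) (l 17165320))))), by decide +kernel⟩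

theorem c_pm_022 : CertF 0 536870912 1073741824 536870912 469762048 67108864 true true false .pp 0 2 2
    ndF3q0 ndF3q2 pcF2 Cut.none Ext.none :=
  certF1 (fam := true) (s1 := true) (s2 := false) (a := 0) (b := 2) (c := 2) (cn := .pp) (n1 := ndF3q0) (n2 := ndF3q2) (pc := pcF2) (cut := Cut.none) (xt := Ext.none) (P1 := 0) (W1 := 536870912) (P2 := 1073741824) (W2 := 536870912) (P3 := 469762048) (W3 := 67108864)
    rfl (fun _ => rfl) k0_pm_022

noncomputable def f_pm_023 : ℕ → ℕ → ℕ → ℕ → Bool := onCell 0 536870912 1610612736 536870912 469762048 67108864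
    (rowF 1 true true false .up 0 2 3 (qsf 0 536870912 1073741824 536870912 3) ndF3q0 ndF3q2 pcF3 Cut.none Ext.none)

def k0_pm_023 : ∃ t, chk3 f_pm_023 t 1 1 1 = true :=
  ⟨(a (b (b (b (l 16800696) (l 16658440)) (b (l 16623920) (l 16694952))) (b (b (l 16778304) (l 2)) (l 2))) (b (b (b (l 17195552) (l 17181312)) (l 17299344)) (b (l 16918776) (b (l 4) (l 4))))), by decide +kernel⟩

theorem c_pm_023 : CertF 0 536870912 1073741824 536870912 469762048 67108864 true true false .up 0 2 3
    ndF3q0 ndF3q2 pcF3 Cut.none Ext.none :=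
  certF1 (fam := true) (s1 := true) (s2 := false) (a := 0) (b := 2) (c := 3) (cn := .up) (n1 := ndF3q0) (n2 := ndF3q2) (pc := pcF3) (cut := Cut.none) (xt := Ext.none) (P1 := 0) (W1 := 536870912) (P2 := 1073741824) (W2 := 536870912) (P3 := 469762048) (W3 := 67108864)
    rfl (fun _ => rfl) k0_pm_023

noncomputable def f_pm_033 : ℕ → ℕ → ℕ → ℕ → Bool := onCell 1610612736 536870912 0 1230186008 469762048 67108864
    (rowF 2 true true false .pnn 0 3 3 (qsf 0 536870912 0 1230186008 3) ndF3q0 ndF3q3 pcF3 Cut.none Ext.none)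

def k0_pm_033 : ∃ t, chk3 f_pm_033 t 1 1 1 = true :=
  ⟨(a (b (l 1) (b (b (l 1) (a (l 1) (a (l 1) (l 16860920)))) (a (b (l 1) (a (b (l 1) (l 16165712)) (l 16382336))) (b (l 848826821719) (l 16673352))))) (a (b (l 1) (b (a (l 437047252727) (l 4)) (a (l 16788280) (l 16806416)))) (b (a (l 4) (l 4)) (b (l 4) (l 4))))), by decide +kernel⟩

theorem c_pm_033 : CertF 0 536870912 0 1230186008 469762048 67108864 true true false .pnn 0 3 3
    ndF3q0 ndF3q3 pcF3 Cut.none Ext.none :=
  certF2 (fam := true) (s1 := true) (s2 := false) (a := 0) (b := 3) (c := 3) (cn := .pnn) (n1 := ndF3q0) (n2 := ndF3q3) (pc := pcF3) (cut := Cut.none) (xt := Ext.none) (P1 := 0) (W1 := 536870912) (P2 := 0) (W2 := 1230186008) (P3 := 469762048) (W3 := 67108864)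
    rfl (fun _ => rfl) k0_pm_033

noncomputable def f_pm_101 : ℕ → ℕ → ℕ → ℕ → Bool := onCell 536870912 536870912 0 536870912 469762048 67108864
    (rowF 2 true true false .npn 1 0 1 (qsf 536870912 536870912 0 536870912 1) ndF3q1 ndF3q0 pcF1 Cut.none Ext.none)

def k0_pm_101 : ∃ t, chk3 f_pm_101 t 1 1 1 = true :=
  ⟨(l 3), by decide +kernel⟩

theorem c_pm_101 : CertF 536870912 536870912 0 536870912 469762048 67108864 true true false .npn 1 0 1
    ndF3q1 ndF3q0 pcF1 Cut.none Ext.none :=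
  certF2 (fam := true) (s1 := true) (s2 := false) (a := 1) (b := 0) (c := 1) (cn := .npn) (n1 := ndF3q1) (n2 := ndF3q0) (pc := pcF1) (cut := Cut.none) (xt := Ext.none) (P1 := 536870912) (W1 := 536870912) (P2 := 0) (W2 := 536870912) (P3 := 469762048) (W3 := 67108864)
    rfl (fun _ => rfl) k0_pm_101

noncomputable def f_pm_102 : ℕ → ℕ → ℕ → ℕ → Bool := onCell 536870912 536870912 1073741824 536870912 469762048 67108864
    (rowF 1 true true false .npp 1 0 2 (qsf 536870912 536870912 0 536870912 2) ndF3q1 ndF3q0 pcF2 Cut.none Ext.none)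

def k0_pm_102 : ∃ t, chk3 f_pm_102 t 1 1 1 = true :=
  ⟨(b (b (l 3) (b (b (b (l 3) (b (l 3) (b (l 3) (a (l 16957392) (a (l 16953256) (b (l 3) (l 16878456))))))) (a (l 16972168) (a (l 16970736) (l 16892624)))) (a (l 17019104) (a (l 17029128) (l 16949200))))) (a (b (l 17146192) (l 2)) (b (a (l 17197824) (l 17134064)) (l 17544704)))), by decide +kernel⟩

theorem c_pm_102 : CertF 536870912 536870912 0 536870912 469762048 67108864 true true false .npp 1 0 2
    ndF3q1 ndF3q0 pcF2 Cut.none Ext.none :=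
  certF1 (fam := true) (s1 := true) (s2 := false) (a := 1) (b := 0) (c := 2) (cn := .npp) (n1 := ndF3q1) (n2 := ndF3q0) (pc := pcF2) (cut := Cut.none) (xt := Ext.none) (P1 := 536870912) (W1 := 536870912) (P2 := 0) (W2 := 536870912) (P3 := 469762048) (W3 := 67108864)
    rfl (fun _ => rfl) k0_pm_102

noncomputable def f_pm_112 : ℕ → ℕ → ℕ → ℕ → Bool := onCell 536870912 536870912 1073741824 536870912 469762048 67108864
    (rowF 1 true true false .dn 1 1 2 (qsf 536870912 536870912 536870912 536870912 2) ndF3q1 ndF3q1 pcF2 Cut.none Ext.none)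

def k0_pm_112 : ∃ t, chk3 f_pm_112 t 1 1 1 = true :=
  ⟨(b (b (l 3) (a (b (b (b (l 3) (b (l 3) (b (l 3) (l 16987192)))) (l 17008800)) (l 17082048)) (b (l 1) (l 17056928)))) (a (l 17542296) (l 398929783207))), by decide +kernel⟩

theorem c_pm_112 : CertF 536870912 536870912 536870912 536870912 469762048 67108864 true true false .dn 1 1 2
    ndF3q1 ndF3q1 pcF2 Cut.none Ext.none :=
  certF1 (fam := true) (s1 := true) (s2 := false) (a := 1) (b := 1) (c := 2) (cn := .dn) (n1 := ndF3q1) (n2 := ndF3q1) (pc := pcF2) (cut := Cut.none) (xt := Ext.none) (P1 := 536870912) (W1 := 536870912) (P2 := 536870912) (W2 := 536870912) (P3 := 469762048) (W3 := 67108864)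
    rfl (fun _ => rfl) k0_pm_112

noncomputable def f_pm_113 : ℕ → ℕ → ℕ → ℕ → Bool := onCell 536870912 536870912 1610612736 536870912 469762048 67108864
    (rowF 1 true true false .nn 1 1 3 (qsf 536870912 536870912 536870912 536870912 3) ndF3q1 ndF3q1 pcF3 Cut.none Ext.none)

def k0_pm_113 : ∃ t, chk3 f_pm_113 t 1 1 1 = true :=
  ⟨(a (b (b (l 17734592) (l 17581600)) (b (l 17445680) (l 2))) (b (l 17712528) (b (l 17317984) (b (l 17076976) (b (l 16965008) (l 17061464)))))), by decide +kernel⟩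

theorem c_pm_113 : CertF 536870912 536870912 536870912 536870912 469762048 67108864 true true false .nn 1 1 3
    ndF3q1 ndF3q1 pcF3 Cut.none Ext.none :=
  certF1 (fam := true) (s1 := true) (s2 := false) (a := 1) (b := 1) (c := 3) (cn := .nn) (n1 := ndF3q1) (n2 := ndF3q1) (pc := pcF3) (cut := Cut.none) (xt := Ext.none) (P1 := 536870912) (W1 := 536870912) (P2 := 536870912) (W2 := 536870912) (P3 := 469762048) (W3 := 67108864)
    rfl (fun _ => rfl) k0_pm_113

noncomputable def f_pm_123 : ℕ → ℕ → ℕ → ℕ → Bool := onCell 1610612736 536870912 1073741824 536870912 469762048 67108864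
    (rowF 2 true true false .npn 1 2 3 (qsf 536870912 536870912 1073741824 536870912 3) ndF3q1 ndF3q2 pcF3 Cut.none Ext.none)

def k0_pm_123 : ∃ t, chk3 f_pm_123 t 1 1 1 = true :=
  ⟨(a (a (b (a (l 17384768) (l 17507312)) (l 1)) (b (b (l 17212400) (l 17394544)) (l 17027016))) (a (b (a (l 17095176) (l 16981416)) (l 17107416)) (a (b (l 16865032) (l 16820896)) (b (l 4) (l 4))))), by decide +kernel⟩

theorem c_pm_123 : CertF 536870912 536870912 1073741824 536870912 469762048 67108864 true true false .npn 1 2 3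
    ndF3q1 ndF3q2 pcF3 Cut.none Ext.none :=
  certF2 (fam := true) (s1 := true) (s2 := false) (a := 1) (b := 2) (c := 3) (cn := .npn) (n1 := ndF3q1) (n2 := ndF3q2) (pc := pcF3) (cut := Cut.none) (xt := Ext.none) (P1 := 536870912) (W1 := 536870912) (P2 := 1073741824) (W2 := 536870912) (P3 := 469762048) (W3 := 67108864)
    rfl (fun _ => rfl) k0_pm_123

noncomputable def f_pm_133 : ℕ → ℕ → ℕ → ℕ → Bool := onCell 536870912 536870912 0 1230186008 469762048 67108864
    (rowF 0 true true false .dn 1 3 3 (qsf 536870912 536870912 0 1230186008 3) ndF3q1 ndF3q3 pcF3 Cut.none Ext.none)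

def k0_pm_133 : ∃ t, chk3 f_pm_133 t 1 1 1 = true :=
  ⟨(b (l 2) (l 4)), by decide +kernel⟩

theorem c_pm_133 : CertF 536870912 536870912 0 1230186008 469762048 67108864 true true false .dn 1 3 3
    ndF3q1 ndF3q3 pcF3 Cut.none Ext.none :=
  certF0 (fam := true) (s1 := true) (s2 := false) (a := 1) (b := 3) (c := 3) (cn := .dn) (n1 := ndF3q1) (n2 := ndF3q3) (pc := pcF3) (cut := Cut.none) (xt := Ext.none) (P1 := 536870912) (W1 := 536870912) (P2 := 0) (W2 := 1230186008) (P3 := 469762048) (W3 := 67108864)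
    rfl k0_pm_133

noncomputable def f_pm_202 : ℕ → ℕ → ℕ → ℕ → Bool := onCell 1073741824 536870912 0 536870912 469762048 67108864
    (rowF 2 true true false .pp 2 0 2 (qsf 1073741824 536870912 0 536870912 2) ndF3q2 ndF3q0 pcF2 Cut.none Ext.none)

def k0_pm_202 : ∃ t, chk3 f_pm_202 t 1 1 1 = true :=
  ⟨(a (a (b (a (b (b (l 3) (a (l 1) (b (l 334504531303) (l 1)))) (l 1)) (b (a (b (b (l 16763240) (l 16788248)) (a (l 357589944407) (l 16829688))) (b (l 16747920) (l 16809592))) (a (l 1) (b (a (l 1) (l 16904464)) (l 1))))) (l 1)) (b (b (a (b (l 16705960) (l 16774184)) (l 16692656)) (a (b (l 358663962055) (l 477849607927)) (l 16876736))) (a (l 1) (b (l 535295229831) (l 1))))) (a (b (b (l 16620216) (l 16821000)) (b (l 17141976) (l 17837744))) (b (a (l 16662080) (b (l 16475200) (l 16735464))) (a (l 17263728) (l 17165320))))), by decide +kernel⟩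

theorem c_pm_202 : CertF 1073741824 536870912 0 536870912 469762048 67108864 true true false .pp 2 0 2
    ndF3q2 ndF3q0 pcF2 Cut.none Ext.none :=
  certF2 (fam := true) (s1 := true) (s2 := false) (a := 2) (b := 0) (c := 2) (cn := .pp) (n1 := ndF3q2) (n2 := ndF3q0) (pc := pcF2) (cut := Cut.none) (xt := Ext.none) (P1 := 1073741824) (W1 := 536870912) (P2 := 0) (W2 := 536870912) (P3 := 469762048) (W3 := 67108864)
    rfl (fun _ => rfl) k0_pm_202

noncomputable def f_pm_203 : ℕ → ℕ → ℕ → ℕ → Bool := onCell 1073741824 536870912 1610612736 536870912 469762048 67108864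
    (rowF 1 true true false .up 2 0 3 (qsf 1073741824 536870912 0 536870912 3) ndF3q2 ndF3q0 pcF3 Cut.none Ext.none)

def k0_pm_203 : ∃ t, chk3 f_pm_203 t 1 1 1 = true :=
  ⟨(a (b (b (b (l 17303400) (l 17491552)) (l 17408816)) (b (b (l 17050432) (l 2)) (l 2))) (b (b (b (l 111703104871) (l 16844200)) (b (l 16956392) (l 17030984))) (b (l 17042752) (b (l 16818336) (l 4))))), by decide +kernel⟩

theorem c_pm_203 : CertF 1073741824 536870912 0 536870912 469762048 67108864 true true false .up 2 0 3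
    ndF3q2 ndF3q0 pcF3 Cut.none Ext.none :=
  certF1 (fam := true) (s1 := true) (s2 := false) (a := 2) (b := 0) (c := 3) (cn := .up) (n1 := ndF3q2) (n2 := ndF3q0) (pc := pcF3) (cut := Cut.none) (xt := Ext.none) (P1 := 1073741824) (W1 := 536870912) (P2 := 0) (W2 := 536870912) (P3 := 469762048) (W3 := 67108864)
    rfl (fun _ => rfl) k0_pm_203

noncomputable def f_pm_213 : ℕ → ℕ → ℕ → ℕ → Bool := onCell 1073741824 536870912 1610612736 536870912 469762048 67108864
    (rowF 1 true true false .pnn 2 1 3 (qsf 1073741824 536870912 536870912 536870912 3) ndF3q2 ndF3q1 pcF3 Cut.none Ext.none)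

def k0_pm_213 : ∃ t, chk3 f_pm_213 t 1 1 1 = true :=
  ⟨(a (b (b (b (l 17384768) (l 17507312)) (a (l 17212400) (l 17394544))) (b (b (l 17095176) (l 16981416)) (b (l 16865032) (l 4)))) (b (b (l 1) (l 17027016)) (b (l 17107416) (b (l 16820896) (l 4))))), by decide +kernel⟩

theorem c_pm_213 : CertF 1073741824 536870912 536870912 536870912 469762048 67108864 true true false .pnn 2 1 3
    ndF3q2 ndF3q1 pcF3 Cut.none Ext.none :=
  certF1 (fam := true) (s1 := true) (s2 := false) (a := 2) (b := 1) (c := 3) (cn := .pnn) (n1 := ndF3q2) (n2 := ndF3q1) (pc := pcF3) (cut := Cut.none) (xt := Ext.none) (P1 := 1073741824) (W1 := 536870912) (P2 := 536870912) (W2 := 536870912) (P3 := 469762048) (W3 := 67108864)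
    rfl (fun _ => rfl) k0_pm_213

noncomputable def f_pm_303 : ℕ → ℕ → ℕ → ℕ → Bool := onCell 0 1230186008 1610612736 536870912 469762048 67108864
    (rowF 1 true true false .npn 3 0 3 (qsf 0 1230186008 0 536870912 3) ndF3q3 ndF3q0 pcF3 Cut.none Ext.none)

def k0_pm_303 : ∃ t, chk3 f_pm_303 t 1 1 1 = true :=
  ⟨(b (a (l 1) (a (a (l 1) (b (l 1) (b (l 1) (l 16860920)))) (b (a (l 1) (b (a (l 1) (l 16165712)) (l 16382336))) (a (l 866006690903) (l 16673336))))) (b (a (l 1) (a (b (l 437047252727) (l 4)) (b (l 16788264) (l 16806416)))) (a (b (l 4) (l 4)) (a (l 4) (l 4))))), by decide +kernel⟩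

theorem c_pm_303 : CertF 0 1230186008 0 536870912 469762048 67108864 true true false .npn 3 0 3
    ndF3q3 ndF3q0 pcF3 Cut.none Ext.none :=
  certF1 (fam := true) (s1 := true) (s2 := false) (a := 3) (b := 0) (c := 3) (cn := .npn) (n1 := ndF3q3) (n2 := ndF3q0) (pc := pcF3) (cut := Cut.none) (xt := Ext.none) (P1 := 0) (W1 := 1230186008) (P2 := 0) (W2 := 536870912) (P3 := 469762048) (W3 := 67108864)
    rfl (fun _ => rfl) k0_pm_303

noncomputable def f_pm_313 : ℕ → ℕ → ℕ → ℕ → Bool := onCell 0 1230186008 536870912 536870912 469762048 67108864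
    (rowF 0 true true false .dn 3 1 3 (qsf 0 1230186008 536870912 536870912 3) ndF3q3 ndF3q1 pcF3 Cut.none Ext.none)

def k0_pm_313 : ∃ t, chk3 f_pm_313 t 1 1 1 = true :=
  ⟨(a (l 2) (l 4)), by decide +kernel⟩

theorem c_pm_313 : CertF 0 1230186008 536870912 536870912 469762048 67108864 true true false .dn 3 1 3
    ndF3q3 ndF3q1 pcF3 Cut.none Ext.none :=
  certF0 (fam := true) (s1 := true) (s2 := false) (a := 3) (b := 1) (c := 3) (cn := .dn) (n1 := ndF3q3) (n2 := ndF3q1) (pc := pcF3) (cut := Cut.none) (xt := Ext.none) (P1 := 0) (W1 := 1230186008) (P2 := 536870912) (W2 := 536870912) (P3 := 469762048) (W3 := 67108864)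
    rfl k0_pm_313

noncomputable def f_mm_001 : ℕ → ℕ → ℕ → ℕ → Bool := onCell 0 536870912 0 536870912 469762048 67108864
    (rowF 0 true false false .up 0 0 1 (qsf 0 536870912 0 536870912 1) ndF3q0 ndF3q0 pcF1 Cut.none Ext.none)

def k0_mm_001 : ∃ t, chk3 f_mm_001 t 1 1 1 = true :=
  ⟨(l 4), by decide +kernel⟩

theorem c_mm_001 : CertF 0 536870912 0 536870912 469762048 67108864 true false false .up 0 0 1
    ndF3q0 ndF3q0 pcF1 Cut.none Ext.none :=
  certF0 (fam := true) (s1 := false) (s2 := false) (a := 0) (b := 0) (c := 1) (cn := .up) (n1 := ndF3q0) (n2 := ndF3q0) (pc := pcF1) (cut := Cut.none) (xt := Ext.none) (P1 := 0) (W1 := 536870912) (P2 := 0) (W2 := 536870912) (P3 := 469762048) (W3 := 67108864)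
    rfl k0_mm_001

noncomputable def f_mm_011 : ℕ → ℕ → ℕ → ℕ → Bool := onCell 0 536870912 536870912 536870912 469762048 67108864
    (rowF 0 true false false .pnn 0 1 1 (qsf 0 536870912 536870912 536870912 1) ndF3q0 ndF3q1 pcF1 Cut.none Ext.none)

def k0_mm_011 : ∃ t, chk3 f_mm_011 t 1 1 1 = true :=
  ⟨(l 4), by decide +kernel⟩

theorem c_mm_011 : CertF 0 536870912 536870912 536870912 469762048 67108864 true false false .pnn 0 1 1
    ndF3q0 ndF3q1 pcF1 Cut.none Ext.none :=
  certF0 (fam := true) (s1 := false) (s2 := false) (a := 0) (b := 1) (c := 1) (cn := .pnn) (n1 := ndF3q0) (n2 := ndF3q1) (pc := pcF1) (cut := Cut.none) (xt := Ext.none) (P1 := 0) (W1 := 536870912) (P2 := 536870912) (W2 := 536870912) (P3 := 469762048) (W3 := 67108864)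
    rfl k0_mm_011

noncomputable def f_mm_012 : ℕ → ℕ → ℕ → ℕ → Bool := onCell 0 536870912 536870912 536870912 469762048 67108864
    (rowF 0 true false false .pnp 0 1 2 (qsf 0 536870912 536870912 536870912 2) ndF3q0 ndF3q1 pcF2 Cut.none Ext.none)

def k0_mm_012 : ∃ t, chk3 f_mm_012 t 1 1 1 = true :=
  ⟨(l 4), by decide +kernel⟩

theorem c_mm_012 : CertF 0 536870912 536870912 536870912 469762048 67108864 true false false .pnp 0 1 2
    ndF3q0 ndF3q1 pcF2 Cut.none Ext.none :=
  certF0 (fam := true) (s1 := false) (s2 := false) (a := 0) (b := 1) (c := 2) (cn := .pnp) (n1 := ndF3q0) (n2 := ndF3q1) (pc := pcF2) (cut := Cut.none) (xt := Ext.none) (P1 := 0) (W1 := 536870912) (P2 := 536870912) (W2 := 536870912) (P3 := 469762048) (W3 := 67108864)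
    rfl k0_mm_012

noncomputable def f_mm_022 : ℕ → ℕ → ℕ → ℕ → Bool := onCell 0 536870912 1073741824 536870912 469762048 67108864
    (rowF 0 true false false .pp 0 2 2 (qsf 0 536870912 1073741824 536870912 2) ndF3q0 ndF3q2 pcF2 Cut.none Ext.none)

def k0_mm_022 : ∃ t, chk3 f_mm_022 t 1 1 1 = true :=
  ⟨(l 4), by decide +kernel⟩

theorem c_mm_022 : CertF 0 536870912 1073741824 536870912 469762048 67108864 true false false .pp 0 2 2
    ndF3q0 ndF3q2 pcF2 Cut.none Ext.none :=
  certF0 (fam := true) (s1 := false) (s2 := false) (a := 0) (b := 2) (c := 2) (cn := .pp) (n1 := ndF3q0) (n2 := ndF3q2) (pc := pcF2) (cut := Cut.none) (xt := Ext.none) (P1 := 0) (W1 := 536870912) (P2 := 1073741824) (W2 := 536870912) (P3 := 469762048) (W3 := 67108864)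
    rfl k0_mm_022

noncomputable def f_mm_023 : ℕ → ℕ → ℕ → ℕ → Bool := onCell 0 536870912 1073741824 536870912 469762048 67108864
    (rowF 0 true false false .up 0 2 3 (qsf 0 536870912 1073741824 536870912 3) ndF3q0 ndF3q2 pcF3 Cut.none Ext.none)

def k0_mm_023 : ∃ t, chk3 f_mm_023 t 1 1 1 = true :=
  ⟨(l 4), by decide +kernel⟩

theorem c_mm_023 : CertF 0 536870912 1073741824 536870912 469762048 67108864 true false false .up 0 2 3
    ndF3q0 ndF3q2 pcF3 Cut.none Ext.none :=
  certF0 (fam := true) (s1 := false) (s2 := false) (a := 0) (b := 2) (c := 3) (cn := .up) (n1 := ndF3q0) (n2 := ndF3q2) (pc := pcF3) (cut := Cut.none) (xt := Ext.none) (P1 := 0) (W1 := 536870912) (P2 := 1073741824) (W2 := 536870912) (P3 := 469762048) (W3 := 67108864)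
    rfl k0_mm_023

noncomputable def f_mm_033 : ℕ → ℕ → ℕ → ℕ → Bool := onCell 0 536870912 0 1230186008 469762048 67108864
    (rowF 0 true false false .pnn 0 3 3 (qsf 0 536870912 0 1230186008 3) ndF3q0 ndF3q3 pcF3 Cut.none Ext.none)

def k0_mm_033 : ∃ t, chk3 f_mm_033 t 1 1 1 = true :=
  ⟨(l 4), by decide +kernel⟩

theorem c_mm_033 : CertF 0 536870912 0 1230186008 469762048 67108864 true false false .pnn 0 3 3
    ndF3q0 ndF3q3 pcF3 Cut.none Ext.none :=
  certF0 (fam := true) (s1 := false) (s2 := false) (a := 0) (b := 3) (c := 3) (cn := .pnn) (n1 := ndF3q0) (n2 := ndF3q3) (pc := pcF3) (cut := Cut.none) (xt := Ext.none) (P1 := 0) (W1 := 536870912) (P2 := 0) (W2 := 1230186008) (P3 := 469762048) (W3 := 67108864)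
    rfl k0_mm_033

noncomputable def f_mm_101 : ℕ → ℕ → ℕ → ℕ → Bool := onCell 536870912 536870912 0 536870912 469762048 67108864
    (rowF 0 true false false .npn 1 0 1 (qsf 536870912 536870912 0 536870912 1) ndF3q1 ndF3q0 pcF1 Cut.none Ext.none)

def k0_mm_101 : ∃ t, chk3 f_mm_101 t 1 1 1 = true :=
  ⟨(l 4), by decide +kernel⟩

theorem c_mm_101 : CertF 536870912 536870912 0 536870912 469762048 67108864 true false false .npn 1 0 1
    ndF3q1 ndF3q0 pcF1 Cut.none Ext.none :=
  certF0 (fam := true) (s1 := false) (s2 := false) (a := 1) (b := 0) (c := 1) (cn := .npn) (n1 := ndF3q1) (n2 := ndF3q0) (pc := pcF1) (cut := Cut.none) (xt := Ext.none) (P1 := 536870912) (W1 := 536870912) (P2 := 0) (W2 := 536870912) (P3 := 469762048) (W3 := 67108864)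
    rfl k0_mm_101

noncomputable def f_mm_102 : ℕ → ℕ → ℕ → ℕ → Bool := onCell 536870912 536870912 0 536870912 469762048 67108864
    (rowF 0 true false false .npp 1 0 2 (qsf 536870912 536870912 0 536870912 2) ndF3q1 ndF3q0 pcF2 Cut.none Ext.none)

def k0_mm_102 : ∃ t, chk3 f_mm_102 t 1 1 1 = true :=
  ⟨(l 4), by decide +kernel⟩

theorem c_mm_102 : CertF 536870912 536870912 0 536870912 469762048 67108864 true false false .npp 1 0 2
    ndF3q1 ndF3q0 pcF2 Cut.none Ext.none :=
  certF0 (fam := true) (s1 := false) (s2 := false) (a := 1) (b := 0) (c := 2) (cn := .npp) (n1 := ndF3q1) (n2 := ndF3q0) (pc := pcF2) (cut := Cut.none) (xt := Ext.none) (P1 := 536870912) (W1 := 536870912) (P2 := 0) (W2 := 536870912) (P3 := 469762048) (W3 := 67108864)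
    rfl k0_mm_102

noncomputable def f_mm_112 : ℕ → ℕ → ℕ → ℕ → Bool := onCell 536870912 536870912 536870912 536870912 469762048 67108864
    (rowF 0 true false false .dn 1 1 2 (qsf 536870912 536870912 536870912 536870912 2) ndF3q1 ndF3q1 pcF2 Cut.none Ext.none)

def k0_mm_112 : ∃ t, chk3 f_mm_112 t 1 1 1 = true :=
  ⟨(l 4), by decide +kernel⟩

theorem c_mm_112 : CertF 536870912 536870912 536870912 536870912 469762048 67108864 true false false .dn 1 1 2
    ndF3q1 ndF3q1 pcF2 Cut.none Ext.none :=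
  certF0 (fam := true) (s1 := false) (s2 := false) (a := 1) (b := 1) (c := 2) (cn := .dn) (n1 := ndF3q1) (n2 := ndF3q1) (pc := pcF2) (cut := Cut.none) (xt := Ext.none) (P1 := 536870912) (W1 := 536870912) (P2 := 536870912) (W2 := 536870912) (P3 := 469762048) (W3 := 67108864)
    rfl k0_mm_112

noncomputable def f_mm_113 : ℕ → ℕ → ℕ → ℕ → Bool := onCell 536870912 536870912 536870912 536870912 469762048 67108864
    (rowF 0 true false false .nn 1 1 3 (qsf 536870912 536870912 536870912 536870912 3) ndF3q1 ndF3q1 pcF3 Cut.none Ext.none)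

def k0_mm_113 : ∃ t, chk3 f_mm_113 t 1 1 1 = true :=
  ⟨(l 4), by decide +kernel⟩

theorem c_mm_113 : CertF 536870912 536870912 536870912 536870912 469762048 67108864 true false false .nn 1 1 3
    ndF3q1 ndF3q1 pcF3 Cut.none Ext.none :=
  certF0 (fam := true) (s1 := false) (s2 := false) (a := 1) (b := 1) (c := 3) (cn := .nn) (n1 := ndF3q1) (n2 := ndF3q1) (pc := pcF3) (cut := Cut.none) (xt := Ext.none) (P1 := 536870912) (W1 := 536870912) (P2 := 536870912) (W2 := 536870912) (P3 := 469762048) (W3 := 67108864)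
    rfl k0_mm_113

noncomputable def f_mm_123 : ℕ → ℕ → ℕ → ℕ → Bool := onCell 536870912 536870912 1073741824 536870912 469762048 67108864
    (rowF 0 true false false .npn 1 2 3 (qsf 536870912 536870912 1073741824 536870912 3) ndF3q1 ndF3q2 pcF3 Cut.none Ext.none)

def k0_mm_123 : ∃ t, chk3 f_mm_123 t 1 1 1 = true :=
  ⟨(l 4), by decide +kernel⟩

theorem c_mm_123 : CertF 536870912 536870912 1073741824 536870912 469762048 67108864 true false false .npn 1 2 3
    ndF3q1 ndF3q2 pcF3 Cut.none Ext.none :=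
  certF0 (fam := true) (s1 := false) (s2 := false) (a := 1) (b := 2) (c := 3) (cn := .npn) (n1 := ndF3q1) (n2 := ndF3q2) (pc := pcF3) (cut := Cut.none) (xt := Ext.none) (P1 := 536870912) (W1 := 536870912) (P2 := 1073741824) (W2 := 536870912) (P3 := 469762048) (W3 := 67108864)
    rfl k0_mm_123

noncomputable def f_mm_133 : ℕ → ℕ → ℕ → ℕ → Bool := onCell 536870912 536870912 0 1230186008 469762048 67108864
    (rowF 0 true false false .dn 1 3 3 (qsf 536870912 536870912 0 1230186008 3) ndF3q1 ndF3q3 pcF3 Cut.none Ext.none)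

def k0_mm_133 : ∃ t, chk3 f_mm_133 t 1 1 1 = true :=
  ⟨(l 4), by decide +kernel⟩

theorem c_mm_133 : CertF 536870912 536870912 0 1230186008 469762048 67108864 true false false .dn 1 3 3
    ndF3q1 ndF3q3 pcF3 Cut.none Ext.none :=
  certF0 (fam := true) (s1 := false) (s2 := false) (a := 1) (b := 3) (c := 3) (cn := .dn) (n1 := ndF3q1) (n2 := ndF3q3) (pc := pcF3) (cut := Cut.none) (xt := Ext.none) (P1 := 536870912) (W1 := 536870912) (P2 := 0) (W2 := 1230186008) (P3 := 469762048) (W3 := 67108864)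
    rfl k0_mm_133

noncomputable def f_mm_202 : ℕ → ℕ → ℕ → ℕ → Bool := onCell 1073741824 536870912 0 536870912 469762048 67108864
    (rowF 0 true false false .pp 2 0 2 (qsf 1073741824 536870912 0 536870912 2) ndF3q2 ndF3q0 pcF2 Cut.none Ext.none)

def k0_mm_202 : ∃ t, chk3 f_mm_202 t 1 1 1 = true :=
  ⟨(l 4), by decide +kernel⟩

theorem c_mm_202 : CertF 1073741824 536870912 0 536870912 469762048 67108864 true false false .pp 2 0 2
    ndF3q2 ndF3q0 pcF2 Cut.none Ext.none :=
  certF0 (fam := true) (s1 := false) (s2 := false) (a := 2) (b := 0) (c := 2) (cn := .pp) (n1 := ndF3q2) (n2 := ndF3q0) (pc := pcF2) (cut := Cut.none) (xt := Ext.none) (P1 := 1073741824) (W1 := 536870912) (P2 := 0) (W2 := 536870912) (P3 := 469762048) (W3 := 67108864)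
    rfl k0_mm_202

noncomputable def f_mm_203 : ℕ → ℕ → ℕ → ℕ → Bool := onCell 1073741824 536870912 0 536870912 469762048 67108864
    (rowF 0 true false false .up 2 0 3 (qsf 1073741824 536870912 0 536870912 3) ndF3q2 ndF3q0 pcF3 Cut.none Ext.none)

def k0_mm_203 : ∃ t, chk3 f_mm_203 t 1 1 1 = true :=
  ⟨(l 4), by decide +kernel⟩

theorem c_mm_203 : CertF 1073741824 536870912 0 536870912 469762048 67108864 true false false .up 2 0 3
    ndF3q2 ndF3q0 pcF3 Cut.none Ext.none :=
  certF0 (fam := true) (s1 := false) (s2 := false) (a := 2) (b := 0) (c := 3) (cn := .up) (n1 := ndF3q2) (n2 := ndF3q0) (pc := pcF3) (cut := Cut.none) (xt := Ext.none) (P1 := 1073741824) (W1 := 536870912) (P2 := 0) (W2 := 536870912) (P3 := 469762048) (W3 := 67108864)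
    rfl k0_mm_203

noncomputable def f_mm_213 : ℕ → ℕ → ℕ → ℕ → Bool := onCell 1073741824 536870912 536870912 536870912 469762048 67108864
    (rowF 0 true false false .pnn 2 1 3 (qsf 1073741824 536870912 536870912 536870912 3) ndF3q2 ndF3q1 pcF3 Cut.none Ext.none)

def k0_mm_213 : ∃ t, chk3 f_mm_213 t 1 1 1 = true :=
  ⟨(l 4), by decide +kernel⟩

theorem c_mm_213 : CertF 1073741824 536870912 536870912 536870912 469762048 67108864 true false false .pnn 2 1 3
    ndF3q2 ndF3q1 pcF3 Cut.none Ext.none :=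
  certF0 (fam := true) (s1 := false) (s2 := false) (a := 2) (b := 1) (c := 3) (cn := .pnn) (n1 := ndF3q2) (n2 := ndF3q1) (pc := pcF3) (cut := Cut.none) (xt := Ext.none) (P1 := 1073741824) (W1 := 536870912) (P2 := 536870912) (W2 := 536870912) (P3 := 469762048) (W3 := 67108864)
    rfl k0_mm_213

noncomputable def f_mm_303 : ℕ → ℕ → ℕ → ℕ → Bool := onCell 0 1230186008 0 536870912 469762048 67108864
    (rowF 0 true false false .npn 3 0 3 (qsf 0 1230186008 0 536870912 3) ndF3q3 ndF3q0 pcF3 Cut.none Ext.none)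

def k0_mm_303 : ∃ t, chk3 f_mm_303 t 1 1 1 = true :=
  ⟨(l 4), by decide +kernel⟩

theorem c_mm_303 : CertF 0 1230186008 0 536870912 469762048 67108864 true false false .npn 3 0 3
    ndF3q3 ndF3q0 pcF3 Cut.none Ext.none :=
  certF0 (fam := true) (s1 := false) (s2 := false) (a := 3) (b := 0) (c := 3) (cn := .npn) (n1 := ndF3q3) (n2 := ndF3q0) (pc := pcF3) (cut := Cut.none) (xt := Ext.none) (P1 := 0) (W1 := 1230186008) (P2 := 0) (W2 := 536870912) (P3 := 469762048) (W3 := 67108864)
    rfl k0_mm_303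

noncomputable def f_mm_313 : ℕ → ℕ → ℕ → ℕ → Bool := onCell 0 1230186008 536870912 536870912 469762048 67108864
    (rowF 0 true false false .dn 3 1 3 (qsf 0 1230186008 536870912 536870912 3) ndF3q3 ndF3q1 pcF3 Cut.none Ext.none)

def k0_mm_313 : ∃ t, chk3 f_mm_313 t 1 1 1 = true :=
  ⟨(l 4), by decide +kernel⟩

theorem c_mm_313 : CertF 0 1230186008 536870912 536870912 469762048 67108864 true false false .dn 3 1 3
    ndF3q3 ndF3q1 pcF3 Cut.none Ext.none :=
  certF0 (fam := true) (s1 := false) (s2 := false) (a := 3) (b := 1) (c := 3) (cn := .dn) (n1 := ndF3q3) (n2 := ndF3q1) (pc := pcF3) (cut := Cut.none) (xt := Ext.none) (P1 := 0) (W1 := 1230186008) (P2 := 536870912) (W2 := 536870912) (P3 := 469762048) (W3 := 67108864)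
    rfl k0_mm_313

end Pool.Agent.Strip051.G.I7_16_1_2.Tab.C.FA33

namespace Pool.Agent.Strip051.G.I7_16_1_2.Tab.C.FA34

open Pool.Agent.Strip051.PB Pool.Agent.Strip051.PB.T
open Pool.Agent.Strip051.G.I7_16_1_2.Tab

noncomputable def f_pp_001 : ℕ → ℕ → ℕ → ℕ → Bool := onCell 0 536870912 0 536870912 469762048 67108864
    (rowF 0 true true true .up 0 0 1 (qsf 0 536870912 0 536870912 1) ndF3q0 ndF4q0 pcF1 Cut.none Ext.none)

def k0_pp_001 : ∃ t, chk3 f_pp_001 t 1 1 1 = true :=
  ⟨(l 4), by decide +kernel⟩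

theorem c_pp_001 : CertF 0 536870912 0 536870912 469762048 67108864 true true true .up 0 0 1
    ndF3q0 ndF4q0 pcF1 Cut.none Ext.none :=
  certF0 (fam := true) (s1 := true) (s2 := true) (a := 0) (b := 0) (c := 1) (cn := .up) (n1 := ndF3q0) (n2 := ndF4q0) (pc := pcF1) (cut := Cut.none) (xt := Ext.none) (P1 := 0) (W1 := 536870912) (P2 := 0) (W2 := 536870912) (P3 := 469762048) (W3 := 67108864)
    rfl k0_pp_001

noncomputable def f_pp_011 : ℕ → ℕ → ℕ → ℕ → Bool := onCell 0 536870912 536870912 536870912 469762048 67108864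
    (rowF 0 true true true .pnn 0 1 1 (qsf 0 536870912 536870912 536870912 1) ndF3q0 ndF4q1 pcF1 Cut.none Ext.none)

def k0_pp_011 : ∃ t, chk3 f_pp_011 t 1 1 1 = true :=
  ⟨(l 4), by decide +kernel⟩

theorem c_pp_011 : CertF 0 536870912 536870912 536870912 469762048 67108864 true true true .pnn 0 1 1
    ndF3q0 ndF4q1 pcF1 Cut.none Ext.none :=
  certF0 (fam := true) (s1 := true) (s2 := true) (a := 0) (b := 1) (c := 1) (cn := .pnn) (n1 := ndF3q0) (n2 := ndF4q1) (pc := pcF1) (cut := Cut.none) (xt := Ext.none) (P1 := 0) (W1 := 536870912) (P2 := 536870912) (W2 := 536870912) (P3 := 469762048) (W3 := 67108864)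
    rfl k0_pp_011

noncomputable def f_pp_012 : ℕ → ℕ → ℕ → ℕ → Bool := onCell 0 536870912 536870912 536870912 469762048 67108864
    (rowF 0 true true true .pnp 0 1 2 (qsf 0 536870912 536870912 536870912 2) ndF3q0 ndF4q1 pcF2 Cut.none Ext.none)

def k0_pp_012 : ∃ t, chk3 f_pp_012 t 1 1 1 = true :=
  ⟨(l 4), by decide +kernel⟩

theorem c_pp_012 : CertF 0 536870912 536870912 536870912 469762048 67108864 true true true .pnp 0 1 2
    ndF3q0 ndF4q1 pcF2 Cut.none Ext.none :=
  certF0 (fam := true) (s1 := true) (s2 := true) (a := 0) (b := 1) (c := 2) (cn := .pnp) (n1 := ndF3q0) (n2 := ndF4q1) (pc := pcF2) (cut := Cut.none) (xt := Ext.none) (P1 := 0) (W1 := 536870912) (P2 := 536870912) (W2 := 536870912) (P3 := 469762048) (W3 := 67108864)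
    rfl k0_pp_012

noncomputable def f_pp_022 : ℕ → ℕ → ℕ → ℕ → Bool := onCell 0 536870912 1073741824 536870912 469762048 67108864
    (rowF 0 true true true .pp 0 2 2 (qsf 0 536870912 1073741824 536870912 2) ndF3q0 ndF4q2 pcF2 Cut.none Ext.none)

def k0_pp_022 : ∃ t, chk3 f_pp_022 t 1 1 1 = true :=
  ⟨(l 4), by decide +kernel⟩

theorem c_pp_022 : CertF 0 536870912 1073741824 536870912 469762048 67108864 true true true .pp 0 2 2
    ndF3q0 ndF4q2 pcF2 Cut.none Ext.none :=
  certF0 (fam := true) (s1 := true) (s2 := true) (a := 0) (b := 2) (c := 2) (cn := .pp) (n1 := ndF3q0) (n2 := ndF4q2) (pc := pcF2) (cut := Cut.none) (xt := Ext.none) (P1 := 0) (W1 := 536870912) (P2 := 1073741824) (W2 := 536870912) (P3 := 469762048) (W3 := 67108864)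
    rfl k0_pp_022

noncomputable def f_pp_023 : ℕ → ℕ → ℕ → ℕ → Bool := onCell 0 536870912 1073741824 536870912 469762048 67108864
    (rowF 0 true true true .up 0 2 3 (qsf 0 536870912 1073741824 536870912 3) ndF3q0 ndF4q2 pcF3 Cut.none Ext.none)

def k0_pp_023 : ∃ t, chk3 f_pp_023 t 1 1 1 = true :=
  ⟨(l 4), by decide +kernel⟩

theorem c_pp_023 : CertF 0 536870912 1073741824 536870912 469762048 67108864 true true true .up 0 2 3
    ndF3q0 ndF4q2 pcF3 Cut.none Ext.none :=
  certF0 (fam := true) (s1 := true) (s2 := true) (a := 0) (b := 2) (c := 3) (cn := .up) (n1 := ndF3q0) (n2 := ndF4q2) (pc := pcF3) (cut := Cut.none) (xt := Ext.none) (P1 := 0) (W1 := 536870912) (P2 := 1073741824) (W2 := 536870912) (P3 := 469762048) (W3 := 67108864)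
    rfl k0_pp_023

noncomputable def f_pp_033 : ℕ → ℕ → ℕ → ℕ → Bool := onCell 0 536870912 0 1230186008 469762048 67108864
    (rowF 0 true true true .pnn 0 3 3 (qsf 0 536870912 0 1230186008 3) ndF3q0 ndF4q3 pcF3 Cut.none Ext.none)

def k0_pp_033 : ∃ t, chk3 f_pp_033 t 1 1 1 = true :=
  ⟨(l 4), by decide +kernel⟩

theorem c_pp_033 : CertF 0 536870912 0 1230186008 469762048 67108864 true true true .pnn 0 3 3
    ndF3q0 ndF4q3 pcF3 Cut.none Ext.none :=
  certF0 (fam := true) (s1 := true) (s2 := true) (a := 0) (b := 3) (c := 3) (cn := .pnn) (n1 := ndF3q0) (n2 := ndF4q3) (pc := pcF3) (cut := Cut.none) (xt := Ext.none) (P1 := 0) (W1 := 536870912) (P2 := 0) (W2 := 1230186008) (P3 := 469762048) (W3 := 67108864)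
    rfl k0_pp_033

noncomputable def f_pp_101 : ℕ → ℕ → ℕ → ℕ → Bool := onCell 536870912 536870912 0 536870912 469762048 67108864
    (rowF 0 true true true .npn 1 0 1 (qsf 536870912 536870912 0 536870912 1) ndF3q1 ndF4q0 pcF1 Cut.none Ext.none)

def k0_pp_101 : ∃ t, chk3 f_pp_101 t 1 1 1 = true :=
  ⟨(l 4), by decide +kernel⟩

theorem c_pp_101 : CertF 536870912 536870912 0 536870912 469762048 67108864 true true true .npn 1 0 1
    ndF3q1 ndF4q0 pcF1 Cut.none Ext.none :=
  certF0 (fam := true) (s1 := true) (s2 := true) (a := 1) (b := 0) (c := 1) (cn := .npn) (n1 := ndF3q1) (n2 := ndF4q0) (pc := pcF1) (cut := Cut.none) (xt := Ext.none) (P1 := 536870912) (W1 := 536870912) (P2 := 0) (W2 := 536870912) (P3 := 469762048) (W3 := 67108864)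
    rfl k0_pp_101

noncomputable def f_pp_102 : ℕ → ℕ → ℕ → ℕ → Bool := onCell 536870912 536870912 0 536870912 469762048 67108864
    (rowF 0 true true true .npp 1 0 2 (qsf 536870912 536870912 0 536870912 2) ndF3q1 ndF4q0 pcF2 Cut.none Ext.none)

def k0_pp_102 : ∃ t, chk3 f_pp_102 t 1 1 1 = true :=
  ⟨(l 4), by decide +kernel⟩

theorem c_pp_102 : CertF 536870912 536870912 0 536870912 469762048 67108864 true true true .npp 1 0 2
    ndF3q1 ndF4q0 pcF2 Cut.none Ext.none :=
  certF0 (fam := true) (s1 := true) (s2 := true) (a := 1) (b := 0) (c := 2) (cn := .npp) (n1 := ndF3q1) (n2 := ndF4q0) (pc := pcF2) (cut := Cut.none) (xt := Ext.none) (P1 := 536870912) (W1 := 536870912) (P2 := 0) (W2 := 536870912) (P3 := 469762048) (W3 := 67108864)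
    rfl k0_pp_102

noncomputable def f_pp_112 : ℕ → ℕ → ℕ → ℕ → Bool := onCell 536870912 536870912 536870912 536870912 469762048 67108864
    (rowF 0 true true true .dn 1 1 2 (qsf 536870912 536870912 536870912 536870912 2) ndF3q1 ndF4q1 pcF2 Cut.none Ext.none)

def k0_pp_112 : ∃ t, chk3 f_pp_112 t 1 1 1 = true :=
  ⟨(l 4), by decide +kernel⟩

theorem c_pp_112 : CertF 536870912 536870912 536870912 536870912 469762048 67108864 true true true .dn 1 1 2
    ndF3q1 ndF4q1 pcF2 Cut.none Ext.none :=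
  certF0 (fam := true) (s1 := true) (s2 := true) (a := 1) (b := 1) (c := 2) (cn := .dn) (n1 := ndF3q1) (n2 := ndF4q1) (pc := pcF2) (cut := Cut.none) (xt := Ext.none) (P1 := 536870912) (W1 := 536870912) (P2 := 536870912) (W2 := 536870912) (P3 := 469762048) (W3 := 67108864)
    rfl k0_pp_112

noncomputable def f_pp_113 : ℕ → ℕ → ℕ → ℕ → Bool := onCell 536870912 536870912 536870912 536870912 469762048 67108864
    (rowF 0 true true true .nn 1 1 3 (qsf 536870912 536870912 536870912 536870912 3) ndF3q1 ndF4q1 pcF3 Cut.none Ext.none)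

def k0_pp_113 : ∃ t, chk3 f_pp_113 t 1 1 1 = true :=
  ⟨(l 4), by decide +kernel⟩

theorem c_pp_113 : CertF 536870912 536870912 536870912 536870912 469762048 67108864 true true true .nn 1 1 3
    ndF3q1 ndF4q1 pcF3 Cut.none Ext.none :=
  certF0 (fam := true) (s1 := true) (s2 := true) (a := 1) (b := 1) (c := 3) (cn := .nn) (n1 := ndF3q1) (n2 := ndF4q1) (pc := pcF3) (cut := Cut.none) (xt := Ext.none) (P1 := 536870912) (W1 := 536870912) (P2 := 536870912) (W2 := 536870912) (P3 := 469762048) (W3 := 67108864)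
    rfl k0_pp_113

noncomputable def f_pp_123 : ℕ → ℕ → ℕ → ℕ → Bool := onCell 536870912 536870912 1073741824 536870912 469762048 67108864
    (rowF 0 true true true .npn 1 2 3 (qsf 536870912 536870912 1073741824 536870912 3) ndF3q1 ndF4q2 pcF3 Cut.none Ext.none)

def k0_pp_123 : ∃ t, chk3 f_pp_123 t 1 1 1 = true :=
  ⟨(l 4), by decide +kernel⟩

theorem c_pp_123 : CertF 536870912 536870912 1073741824 536870912 469762048 67108864 true true true .npn 1 2 3
    ndF3q1 ndF4q2 pcF3 Cut.none Ext.none :=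
  certF0 (fam := true) (s1 := true) (s2 := true) (a := 1) (b := 2) (c := 3) (cn := .npn) (n1 := ndF3q1) (n2 := ndF4q2) (pc := pcF3) (cut := Cut.none) (xt := Ext.none) (P1 := 536870912) (W1 := 536870912) (P2 := 1073741824) (W2 := 536870912) (P3 := 469762048) (W3 := 67108864)
    rfl k0_pp_123

noncomputable def f_pp_133 : ℕ → ℕ → ℕ → ℕ → Bool := onCell 536870912 536870912 0 1230186008 469762048 67108864
    (rowF 0 true true true .dn 1 3 3 (qsf 536870912 536870912 0 1230186008 3) ndF3q1 ndF4q3 pcF3 Cut.none Ext.none)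

def k0_pp_133 : ∃ t, chk3 f_pp_133 t 1 1 1 = true :=
  ⟨(l 4), by decide +kernel⟩

theorem c_pp_133 : CertF 536870912 536870912 0 1230186008 469762048 67108864 true true true .dn 1 3 3
    ndF3q1 ndF4q3 pcF3 Cut.none Ext.none :=
  certF0 (fam := true) (s1 := true) (s2 := true) (a := 1) (b := 3) (c := 3) (cn := .dn) (n1 := ndF3q1) (n2 := ndF4q3) (pc := pcF3) (cut := Cut.none) (xt := Ext.none) (P1 := 536870912) (W1 := 536870912) (P2 := 0) (W2 := 1230186008) (P3 := 469762048) (W3 := 67108864)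
    rfl k0_pp_133

noncomputable def f_pp_202 : ℕ → ℕ → ℕ → ℕ → Bool := onCell 1073741824 536870912 0 536870912 469762048 67108864
    (rowF 0 true true true .pp 2 0 2 (qsf 1073741824 536870912 0 536870912 2) ndF3q2 ndF4q0 pcF2 Cut.none Ext.none)

def k0_pp_202 : ∃ t, chk3 f_pp_202 t 1 1 1 = true :=
  ⟨(l 4), by decide +kernel⟩

theorem c_pp_202 : CertF 1073741824 536870912 0 536870912 469762048 67108864 true true true .pp 2 0 2
    ndF3q2 ndF4q0 pcF2 Cut.none Ext.none :=
  certF0 (fam := true) (s1 := true) (s2 := true) (a := 2) (b := 0) (c := 2) (cn := .pp) (n1 := ndF3q2) (n2 := ndF4q0) (pc := pcF2) (cut := Cut.none) (xt := Ext.none) (P1 := 1073741824) (W1 := 536870912) (P2 := 0) (W2 := 536870912) (P3 := 469762048) (W3 := 67108864)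
    rfl k0_pp_202

noncomputable def f_pp_203 : ℕ → ℕ → ℕ → ℕ → Bool := onCell 1073741824 536870912 0 536870912 469762048 67108864
    (rowF 0 true true true .up 2 0 3 (qsf 1073741824 536870912 0 536870912 3) ndF3q2 ndF4q0 pcF3 Cut.none Ext.none)

def k0_pp_203 : ∃ t, chk3 f_pp_203 t 1 1 1 = true :=
  ⟨(l 4), by decide +kernel⟩

theorem c_pp_203 : CertF 1073741824 536870912 0 536870912 469762048 67108864 true true true .up 2 0 3
    ndF3q2 ndF4q0 pcF3 Cut.none Ext.none :=
  certF0 (fam := true) (s1 := true) (s2 := true) (a := 2) (b := 0) (c := 3) (cn := .up) (n1 := ndF3q2) (n2 := ndF4q0) (pc := pcF3) (cut := Cut.none) (xt := Ext.none) (P1 := 1073741824) (W1 := 536870912) (P2 := 0) (W2 := 536870912) (P3 := 469762048) (W3 := 67108864)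
    rfl k0_pp_203

noncomputable def f_pp_213 : ℕ → ℕ → ℕ → ℕ → Bool := onCell 1073741824 536870912 536870912 536870912 469762048 67108864
    (rowF 0 true true true .pnn 2 1 3 (qsf 1073741824 536870912 536870912 536870912 3) ndF3q2 ndF4q1 pcF3 Cut.none Ext.none)

def k0_pp_213 : ∃ t, chk3 f_pp_213 t 1 1 1 = true :=
  ⟨(l 4), by decide +kernel⟩

theorem c_pp_213 : CertF 1073741824 536870912 536870912 536870912 469762048 67108864 true true true .pnn 2 1 3
    ndF3q2 ndF4q1 pcF3 Cut.none Ext.none :=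
  certF0 (fam := true) (s1 := true) (s2 := true) (a := 2) (b := 1) (c := 3) (cn := .pnn) (n1 := ndF3q2) (n2 := ndF4q1) (pc := pcF3) (cut := Cut.none) (xt := Ext.none) (P1 := 1073741824) (W1 := 536870912) (P2 := 536870912) (W2 := 536870912) (P3 := 469762048) (W3 := 67108864)
    rfl k0_pp_213

noncomputable def f_pp_303 : ℕ → ℕ → ℕ → ℕ → Bool := onCell 0 1230186008 0 536870912 469762048 67108864
    (rowF 0 true true true .npn 3 0 3 (qsf 0 1230186008 0 536870912 3) ndF3q3 ndF4q0 pcF3 Cut.none Ext.none)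

def k0_pp_303 : ∃ t, chk3 f_pp_303 t 1 1 1 = true :=
  ⟨(l 4), by decide +kernel⟩

theorem c_pp_303 : CertF 0 1230186008 0 536870912 469762048 67108864 true true true .npn 3 0 3
    ndF3q3 ndF4q0 pcF3 Cut.none Ext.none :=
  certF0 (fam := true) (s1 := true) (s2 := true) (a := 3) (b := 0) (c := 3) (cn := .npn) (n1 := ndF3q3) (n2 := ndF4q0) (pc := pcF3) (cut := Cut.none) (xt := Ext.none) (P1 := 0) (W1 := 1230186008) (P2 := 0) (W2 := 536870912) (P3 := 469762048) (W3 := 67108864)
    rfl k0_pp_303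

noncomputable def f_pp_313 : ℕ → ℕ → ℕ → ℕ → Bool := onCell 0 1230186008 536870912 536870912 469762048 67108864
    (rowF 0 true true true .dn 3 1 3 (qsf 0 1230186008 536870912 536870912 3) ndF3q3 ndF4q1 pcF3 Cut.none Ext.none)

def k0_pp_313 : ∃ t, chk3 f_pp_313 t 1 1 1 = true :=
  ⟨(l 4), by decide +kernel⟩

theorem c_pp_313 : CertF 0 1230186008 536870912 536870912 469762048 67108864 true true true .dn 3 1 3
    ndF3q3 ndF4q1 pcF3 Cut.none Ext.none :=
  certF0 (fam := true) (s1 := true) (s2 := true) (a := 3) (b := 1) (c := 3) (cn := .dn) (n1 := ndF3q3) (n2 := ndF4q1) (pc := pcF3) (cut := Cut.none) (xt := Ext.none) (P1 := 0) (W1 := 1230186008) (P2 := 536870912) (W2 := 536870912) (P3 := 469762048) (W3 := 67108864)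
    rfl k0_pp_313

noncomputable def f_pm_001 : ℕ → ℕ → ℕ → ℕ → Bool := onCell 0 536870912 0 536870912 469762048 67108864
    (rowF 0 true true false .up 0 0 1 (qsf 0 536870912 0 536870912 1) ndF3q0 ndF4q0 pcF1 Cut.none Ext.none)

def k0_pm_001 : ∃ t, chk3 f_pm_001 t 1 1 1 = true :=
  ⟨(l 3), by decide +kernel⟩

theorem c_pm_001 : CertF 0 536870912 0 536870912 469762048 67108864 true true false .up 0 0 1
    ndF3q0 ndF4q0 pcF1 Cut.none Ext.none :=
  certF0 (fam := true) (s1 := true) (s2 := false) (a := 0) (b := 0) (c := 1) (cn := .up) (n1 := ndF3q0) (n2 := ndF4q0) (pc := pcF1) (cut := Cut.none) (xt := Ext.none) (P1 := 0) (W1 := 536870912) (P2 := 0) (W2 := 536870912) (P3 := 469762048) (W3 := 67108864)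
    rfl k0_pm_001

noncomputable def f_pm_011 : ℕ → ℕ → ℕ → ℕ → Bool := onCell 0 536870912 536870912 536870912 469762048 67108864
    (rowF 1 true true false .pnn 0 1 1 (qsf 0 536870912 536870912 536870912 1) ndF3q0 ndF4q1 pcF1 Cut.none Ext.none)

def k0_pm_011 : ∃ t, chk3 f_pm_011 t 1 1 1 = true :=
  ⟨(l 3), by decide +kernel⟩

theorem c_pm_011 : CertF 0 536870912 536870912 536870912 469762048 67108864 true true false .pnn 0 1 1
    ndF3q0 ndF4q1 pcF1 Cut.none Ext.none :=
  certF1 (fam := true) (s1 := true) (s2 := false) (a := 0) (b := 1) (c := 1) (cn := .pnn) (n1 := ndF3q0) (n2 := ndF4q1) (pc := pcF1) (cut := Cut.none) (xt := Ext.none) (P1 := 0) (W1 := 536870912) (P2 := 536870912) (W2 := 536870912) (P3 := 469762048) (W3 := 67108864)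
    rfl (fun _ => rfl) k0_pm_011

noncomputable def f_pm_012 : ℕ → ℕ → ℕ → ℕ → Bool := onCell 1073741824 536870912 536870912 536870912 469762048 67108864
    (rowF 2 true true false .pnp 0 1 2 (qsf 0 536870912 536870912 536870912 2) ndF3q0 ndF4q1 pcF2 Cut.none Ext.none)

def k0_pm_012 : ∃ t, chk3 f_pm_012 t 1 1 1 = true :=
  ⟨(a (a (l 3) (b (a (a (a (l 3) (a (l 16944616) (a (l 16950264) (b (l 2) (l 16957352))))) (l 16968904)) (l 17017552)) (a (a (a (l 3) (a (l 3) (b (a (l 3) (l 16943944)) (a (l 3) (a (l 16873080) (l 16874560)))))) (b (l 16961192) (l 16888552))) (b (l 17019272) (l 16944752))))) (a (b (l 17234016) (b (l 17188584) (l 17129320))) (b (l 2) (l 17535824)))), by decide +kernel⟩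

theorem c_pm_012 : CertF 0 536870912 536870912 536870912 469762048 67108864 true true false .pnp 0 1 2
    ndF3q0 ndF4q1 pcF2 Cut.none Ext.none :=
  certF2 (fam := true) (s1 := true) (s2 := false) (a := 0) (b := 1) (c := 2) (cn := .pnp) (n1 := ndF3q0) (n2 := ndF4q1) (pc := pcF2) (cut := Cut.none) (xt := Ext.none) (P1 := 0) (W1 := 536870912) (P2 := 536870912) (W2 := 536870912) (P3 := 469762048) (W3 := 67108864)
    rfl (fun _ => rfl) k0_pm_012

noncomputable def f_pm_022 : ℕ → ℕ → ℕ → ℕ → Bool := onCell 0 536870912 1073741824 536870912 469762048 67108864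
    (rowF 1 true true false .pp 0 2 2 (qsf 0 536870912 1073741824 536870912 2) ndF3q0 ndF4q2 pcF2 Cut.none Ext.none)

def k0_pm_022 : ∃ t, chk3 f_pm_022 t 1 1 1 = true :=
  ⟨(b (b (l 3) (a (b (b (b (l 3) (b (l 3) (b (l 3) (a (b (l 3) (l 16732408)) (b (l 16828608) (l 16828312)))))) (a (l 16720160) (l 16825856))) (a (l 16683432) (l 16816000))) (b (l 1) (a (l 603477535319) (l 1))))) (a (b (a (a (l 16536528) (l 16651520)) (b (l 16798736) (l 16778744))) (a (b (l 16494480) (l 16399352)) (b (l 16756416) (l 16732056)))) (b (a (l 629247313191) (l 675956061543)) (a (l 17012200) (l 17473016))))), by decide +kernel⟩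

theorem c_pm_022 : CertF 0 536870912 1073741824 536870912 469762048 67108864 true true false .pp 0 2 2
    ndF3q0 ndF4q2 pcF2 Cut.none Ext.none :=
  certF1 (fam := true) (s1 := true) (s2 := false) (a := 0) (b := 2) (c := 2) (cn := .pp) (n1 := ndF3q0) (n2 := ndF4q2) (pc := pcF2) (cut := Cut.none) (xt := Ext.none) (P1 := 0) (W1 := 536870912) (P2 := 1073741824) (W2 := 536870912) (P3 := 469762048) (W3 := 67108864)
    rfl (fun _ => rfl) k0_pm_022

noncomputable def f_pm_023 : ℕ → ℕ → ℕ → ℕ → Bool := onCell 1610612736 536870912 1073741824 536870912 469762048 67108864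
    (rowF 2 true true false .up 0 2 3 (qsf 0 536870912 1073741824 536870912 3) ndF3q0 ndF4q2 pcF3 Cut.none Ext.none)

def k0_pm_023 : ∃ t, chk3 f_pm_023 t 1 1 1 = true :=
  ⟨(a (b (a (b (l 17368320) (l 17048768)) (l 17219376)) (a (b (l 16748208) (a (l 16333776) (l 16537936))) (l 16990920))) (a (b (l 190154007079) (l 16956024)) (b (l 2) (a (l 16835768) (b (l 2) (l 16796392)))))), by decide +kernel⟩

theorem c_pm_023 : CertF 0 536870912 1073741824 536870912 469762048 67108864 true true false .up 0 2 3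
    ndF3q0 ndF4q2 pcF3 Cut.none Ext.none :=
  certF2 (fam := true) (s1 := true) (s2 := false) (a := 0) (b := 2) (c := 3) (cn := .up) (n1 := ndF3q0) (n2 := ndF4q2) (pc := pcF3) (cut := Cut.none) (xt := Ext.none) (P1 := 0) (W1 := 536870912) (P2 := 1073741824) (W2 := 536870912) (P3 := 469762048) (W3 := 67108864)
    rfl (fun _ => rfl) k0_pm_023

noncomputable def f_pm_033 : ℕ → ℕ → ℕ → ℕ → Bool := onCell 1610612736 536870912 0 1230186008 469762048 67108864
    (rowF 2 true true false .pnn 0 3 3 (qsf 0 536870912 0 1230186008 3) ndF3q0 ndF4q3 pcF3 Cut.none Ext.none)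

def k0_pm_033 : ∃ t, chk3 f_pm_033 t 1 1 1 = true :=
  ⟨(a (b (l 1) (b (b (l 1) (a (l 1) (a (l 1) (l 16894336)))) (b (a (l 1) (a (l 16779800) (l 16799032))) (a (a (l 379064322103) (l 16590088)) (l 16701120))))) (a (b (l 1) (b (a (l 386044457783) (l 16903776)) (b (l 16827080) (l 16795432)))) (b (a (l 823057436119) (l 4)) (b (a (l 16862704) (l 4)) (a (l 16808128) (a (l 16831768) (l 4))))))), by decide +kernel⟩

theorem c_pm_033 : CertF 0 536870912 0 1230186008 469762048 67108864 true true false .pnn 0 3 3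
    ndF3q0 ndF4q3 pcF3 Cut.none Ext.none :=
  certF2 (fam := true) (s1 := true) (s2 := false) (a := 0) (b := 3) (c := 3) (cn := .pnn) (n1 := ndF3q0) (n2 := ndF4q3) (pc := pcF3) (cut := Cut.none) (xt := Ext.none) (P1 := 0) (W1 := 536870912) (P2 := 0) (W2 := 1230186008) (P3 := 469762048) (W3 := 67108864)
    rfl (fun _ => rfl) k0_pm_033

noncomputable def f_pm_101 : ℕ → ℕ → ℕ → ℕ → Bool := onCell 536870912 536870912 536870912 536870912 469762048 67108864
    (rowF 1 true true false .npn 1 0 1 (qsf 536870912 536870912 0 536870912 1) ndF3q1 ndF4q0 pcF1 Cut.none Ext.none)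

def k0_pm_101 : ∃ t, chk3 f_pm_101 t 1 1 1 = true :=
  ⟨(l 3), by decide +kernel⟩

theorem c_pm_101 : CertF 536870912 536870912 0 536870912 469762048 67108864 true true false .npn 1 0 1
    ndF3q1 ndF4q0 pcF1 Cut.none Ext.none :=
  certF1 (fam := true) (s1 := true) (s2 := false) (a := 1) (b := 0) (c := 1) (cn := .npn) (n1 := ndF3q1) (n2 := ndF4q0) (pc := pcF1) (cut := Cut.none) (xt := Ext.none) (P1 := 536870912) (W1 := 536870912) (P2 := 0) (W2 := 536870912) (P3 := 469762048) (W3 := 67108864)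
    rfl (fun _ => rfl) k0_pm_101

noncomputable def f_pm_102 : ℕ → ℕ → ℕ → ℕ → Bool := onCell 536870912 536870912 1073741824 536870912 469762048 67108864
    (rowF 1 true true false .npp 1 0 2 (qsf 536870912 536870912 0 536870912 2) ndF3q1 ndF4q0 pcF2 Cut.none Ext.none)

def k0_pm_102 : ∃ t, chk3 f_pm_102 t 1 1 1 = true :=
  ⟨(a (b (b (l 3) (b (b (b (l 3) (a (l 2) (b (l 17002744) (b (l 17009040) (l 17013536))))) (a (l 2) (l 17036360))) (a (l 2) (l 17112232)))) (a (l 2) (b (b (l 17255624) (l 2)) (l 2)))) (b (b (b (l 3) (a (l 3) (b (l 3) (l 17038184)))) (b (b (b (a (l 17019336) (l 17055680)) (b (a (l 17029032) (l 17062064)) (a (b (l 17034264) (l 17038344)) (b (l 17065920) (b (l 17068248) (l 17070008)))))) (a (l 17059712) (l 17087280))) (a (l 17130408) (l 17147608)))) (a (b (l 17366344) (l 17989736)) (b (l 17348952) (l 17899488))))), by decide +kernel⟩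

theorem c_pm_102 : CertF 536870912 536870912 0 536870912 469762048 67108864 true true false .npp 1 0 2
    ndF3q1 ndF4q0 pcF2 Cut.none Ext.none :=
  certF1 (fam := true) (s1 := true) (s2 := false) (a := 1) (b := 0) (c := 2) (cn := .npp) (n1 := ndF3q1) (n2 := ndF4q0) (pc := pcF2) (cut := Cut.none) (xt := Ext.none) (P1 := 536870912) (W1 := 536870912) (P2 := 0) (W2 := 536870912) (P3 := 469762048) (W3 := 67108864)
    rfl (fun _ => rfl) k0_pm_102

noncomputable def f_pm_112 : ℕ → ℕ → ℕ → ℕ → Bool := onCell 1073741824 536870912 536870912 536870912 469762048 67108864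
    (rowF 2 true true false .dn 1 1 2 (qsf 536870912 536870912 536870912 536870912 2) ndF3q1 ndF4q1 pcF2 Cut.none Ext.none)

def k0_pm_112 : ∃ t, chk3 f_pm_112 t 1 1 1 = true :=
  ⟨(b (a (a (l 3) (a (a (a (l 3) (a (l 16975816) (a (l 16983376) (l 17198000)))) (l 17011368)) (l 17090152))) (l 17589192)) (a (a (l 1) (a (l 1) (l 482144682439))) (l 552475583815))), by decide +kernel⟩

theorem c_pm_112 : CertF 536870912 536870912 536870912 536870912 469762048 67108864 true true false .dn 1 1 2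
    ndF3q1 ndF4q1 pcF2 Cut.none Ext.none :=
  certF2 (fam := true) (s1 := true) (s2 := false) (a := 1) (b := 1) (c := 2) (cn := .dn) (n1 := ndF3q1) (n2 := ndF4q1) (pc := pcF2) (cut := Cut.none) (xt := Ext.none) (P1 := 536870912) (W1 := 536870912) (P2 := 536870912) (W2 := 536870912) (P3 := 469762048) (W3 := 67108864)
    rfl (fun _ => rfl) k0_pm_112

noncomputable def f_pm_113 : ℕ → ℕ → ℕ → ℕ → Bool := onCell 536870912 536870912 1610612736 536870912 469762048 67108864
    (rowF 1 true true false .nn 1 1 3 (qsf 536870912 536870912 536870912 536870912 3) ndF3q1 ndF4q1 pcF3 Cut.none Ext.none)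

def k0_pm_113 : ∃ t, chk3 f_pm_113 t 1 1 1 = true :=
  ⟨(a (b (b (l 17742648) (l 17585352)) (b (l 17437680) (l 2))) (b (l 17795768) (b (l 17314584) (b (l 17076400) (b (l 16963824) (l 127339801271)))))), by decide +kernel⟩

theorem c_pm_113 : CertF 536870912 536870912 536870912 536870912 469762048 67108864 true true false .nn 1 1 3
    ndF3q1 ndF4q1 pcF3 Cut.none Ext.none :=
  certF1 (fam := true) (s1 := true) (s2 := false) (a := 1) (b := 1) (c := 3) (cn := .nn) (n1 := ndF3q1) (n2 := ndF4q1) (pc := pcF3) (cut := Cut.none) (xt := Ext.none) (P1 := 536870912) (W1 := 536870912) (P2 := 536870912) (W2 := 536870912) (P3 := 469762048) (W3 := 67108864)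
    rfl (fun _ => rfl) k0_pm_113

noncomputable def f_pm_123 : ℕ → ℕ → ℕ → ℕ → Bool := onCell 1610612736 536870912 1073741824 536870912 469762048 67108864
    (rowF 2 true true false .npn 1 2 3 (qsf 536870912 536870912 1073741824 536870912 3) ndF3q1 ndF4q2 pcF3 Cut.none Ext.none)

def k0_pm_123 : ∃ t, chk3 f_pm_123 t 1 1 1 = true :=
  ⟨(a (b (a (b (l 17544400) (l 17145560)) (l 17398184)) (a (l 1) (l 16990744))) (a (b (l 18288658423) (l 17033440)) (b (a (l 17027320) (a (l 16900792) (a (l 16836112) (l 16794992)))) (a (l 16871920) (a (l 16786584) (l 16922320)))))), by decide +kernel⟩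

theorem c_pm_123 : CertF 536870912 536870912 1073741824 536870912 469762048 67108864 true true false .npn 1 2 3
    ndF3q1 ndF4q2 pcF3 Cut.none Ext.none :=
  certF2 (fam := true) (s1 := true) (s2 := false) (a := 1) (b := 2) (c := 3) (cn := .npn) (n1 := ndF3q1) (n2 := ndF4q2) (pc := pcF3) (cut := Cut.none) (xt := Ext.none) (P1 := 536870912) (W1 := 536870912) (P2 := 1073741824) (W2 := 536870912) (P3 := 469762048) (W3 := 67108864)
    rfl (fun _ => rfl) k0_pm_123

noncomputable def f_pm_133 : ℕ → ℕ → ℕ → ℕ → Bool := onCell 536870912 536870912 0 1230186008 469762048 67108864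
    (rowF 0 true true false .dn 1 3 3 (qsf 536870912 536870912 0 1230186008 3) ndF3q1 ndF4q3 pcF3 Cut.none Ext.none)

def k0_pm_133 : ∃ t, chk3 f_pm_133 t 1 1 1 = true :=
  ⟨(b (l 2) (b (l 2) (a (l 4) (l 2)))), by decide +kernel⟩

theorem c_pm_133 : CertF 536870912 536870912 0 1230186008 469762048 67108864 true true false .dn 1 3 3
    ndF3q1 ndF4q3 pcF3 Cut.none Ext.none :=
  certF0 (fam := true) (s1 := true) (s2 := false) (a := 1) (b := 3) (c := 3) (cn := .dn) (n1 := ndF3q1) (n2 := ndF4q3) (pc := pcF3) (cut := Cut.none) (xt := Ext.none) (P1 := 536870912) (W1 := 536870912) (P2 := 0) (W2 := 1230186008) (P3 := 469762048) (W3 := 67108864)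
    rfl k0_pm_133

noncomputable def f_pm_202 : ℕ → ℕ → ℕ → ℕ → Bool := onCell 1073741824 536870912 0 536870912 469762048 67108864
    (rowF 2 true true false .pp 2 0 2 (qsf 1073741824 536870912 0 536870912 2) ndF3q2 ndF4q0 pcF2 Cut.none Ext.none)

def k0_pm_202 : ∃ t, chk3 f_pm_202 t 1 1 1 = true :=
  ⟨(a (b (a (a (b (b (a (b (l 570727851015) (l 611530315639)) (l 230888893063)) (a (l 1) (l 605088159047))) (l 1)) (b (b (l 17008176) (l 565359649687)) (b (l 606698832327) (l 1)))) (b (a (b (l 16947048) (l 17001720)) (l 16950552)) (a (b (l 553011596935) (l 609383045367)) (l 17136192)))) (a (l 1) (b (a (l 1) (l 590056887847)) (l 1)))) (a (b (b (l 16938256) (l 17065688)) (b (a (l 17504248) (l 17371304)) (l 616900692567))) (b (b (a (l 16938152) (l 16929176)) (l 17119040)) (a (l 78955561271) (l 17497752))))), by decide +kernel⟩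

theorem c_pm_202 : CertF 1073741824 536870912 0 536870912 469762048 67108864 true true false .pp 2 0 2
    ndF3q2 ndF4q0 pcF2 Cut.none Ext.none :=
  certF2 (fam := true) (s1 := true) (s2 := false) (a := 2) (b := 0) (c := 2) (cn := .pp) (n1 := ndF3q2) (n2 := ndF4q0) (pc := pcF2) (cut := Cut.none) (xt := Ext.none) (P1 := 1073741824) (W1 := 536870912) (P2 := 0) (W2 := 536870912) (P3 := 469762048) (W3 := 67108864)
    rfl (fun _ => rfl) k0_pm_202

noncomputable def f_pm_203 : ℕ → ℕ → ℕ → ℕ → Bool := onCell 1610612736 536870912 0 536870912 469762048 67108864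
    (rowF 2 true true false .up 2 0 3 (qsf 1073741824 536870912 0 536870912 3) ndF3q2 ndF4q0 pcF3 Cut.none Ext.none)

def k0_pm_203 : ∃ t, chk3 f_pm_203 t 1 1 1 = true :=
  ⟨(a (a (b (a (l 16919352) (l 16897496)) (a (l 17394960) (l 17303864))) (b (l 16859784) (l 17243504))) (a (b (l 16808392) (l 16962240)) (b (l 2) (l 4)))), by decide +kernel⟩

theorem c_pm_203 : CertF 1073741824 536870912 0 536870912 469762048 67108864 true true false .up 2 0 3
    ndF3q2 ndF4q0 pcF3 Cut.none Ext.none :=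
  certF2 (fam := true) (s1 := true) (s2 := false) (a := 2) (b := 0) (c := 3) (cn := .up) (n1 := ndF3q2) (n2 := ndF4q0) (pc := pcF3) (cut := Cut.none) (xt := Ext.none) (P1 := 1073741824) (W1 := 536870912) (P2 := 0) (W2 := 536870912) (P3 := 469762048) (W3 := 67108864)
    rfl (fun _ => rfl) k0_pm_203

noncomputable def f_pm_213 : ℕ → ℕ → ℕ → ℕ → Bool := onCell 1073741824 536870912 1610612736 536870912 469762048 67108864
    (rowF 1 true true false .pnn 2 1 3 (qsf 1073741824 536870912 536870912 536870912 3) ndF3q2 ndF4q1 pcF3 Cut.none Ext.none)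

def k0_pm_213 : ∃ t, chk3 f_pm_213 t 1 1 1 = true :=
  ⟨(a (b (b (b (l 17490968) (l 17375920)) (a (l 17182592) (l 17295952))) (b (b (l 17067232) (l 16966408)) (b (l 16857240) (l 4)))) (b (b (l 1) (l 17032552)) (b (l 258806374743) (l 4)))), by decide +kernel⟩

theorem c_pm_213 : CertF 1073741824 536870912 536870912 536870912 469762048 67108864 true true false .pnn 2 1 3
    ndF3q2 ndF4q1 pcF3 Cut.none Ext.none :=
  certF1 (fam := true) (s1 := true) (s2 := false) (a := 2) (b := 1) (c := 3) (cn := .pnn) (n1 := ndF3q2) (n2 := ndF4q1) (pc := pcF3) (cut := Cut.none) (xt := Ext.none) (P1 := 1073741824) (W1 := 536870912) (P2 := 536870912) (W2 := 536870912) (P3 := 469762048) (W3 := 67108864)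
    rfl (fun _ => rfl) k0_pm_213

noncomputable def f_pm_303 : ℕ → ℕ → ℕ → ℕ → Bool := onCell 0 1230186008 0 536870912 469762048 67108864
    (rowF 0 true true false .npn 3 0 3 (qsf 0 1230186008 0 536870912 3) ndF3q3 ndF4q0 pcF3 Cut.none Ext.none)

def k0_pm_303 : ∃ t, chk3 f_pm_303 t 1 1 1 = true :=
  ⟨(a (l 4) (a (l 4) (b (a (b (l 4) (l 4)) (b (a (l 16823912) (l 16844184)) (a (l 4) (l 16842880)))) (l 4)))), by decide +kernel⟩

theorem c_pm_303 : CertF 0 1230186008 0 536870912 469762048 67108864 true true false .npn 3 0 3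
    ndF3q3 ndF4q0 pcF3 Cut.none Ext.none :=
  certF0 (fam := true) (s1 := true) (s2 := false) (a := 3) (b := 0) (c := 3) (cn := .npn) (n1 := ndF3q3) (n2 := ndF4q0) (pc := pcF3) (cut := Cut.none) (xt := Ext.none) (P1 := 0) (W1 := 1230186008) (P2 := 0) (W2 := 536870912) (P3 := 469762048) (W3 := 67108864)
    rfl k0_pm_303

noncomputable def f_pm_313 : ℕ → ℕ → ℕ → ℕ → Bool := onCell 0 1230186008 536870912 536870912 469762048 67108864
    (rowF 0 true true false .dn 3 1 3 (qsf 0 1230186008 536870912 536870912 3) ndF3q3 ndF4q1 pcF3 Cut.none Ext.none)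

def k0_pm_313 : ∃ t, chk3 f_pm_313 t 1 1 1 = true :=
  ⟨(a (l 2) (l 4)), by decide +kernel⟩

theorem c_pm_313 : CertF 0 1230186008 536870912 536870912 469762048 67108864 true true false .dn 3 1 3
    ndF3q3 ndF4q1 pcF3 Cut.none Ext.none :=
  certF0 (fam := true) (s1 := true) (s2 := false) (a := 3) (b := 1) (c := 3) (cn := .dn) (n1 := ndF3q3) (n2 := ndF4q1) (pc := pcF3) (cut := Cut.none) (xt := Ext.none) (P1 := 0) (W1 := 1230186008) (P2 := 536870912) (W2 := 536870912) (P3 := 469762048) (W3 := 67108864)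
    rfl k0_pm_313

noncomputable def f_mm_001 : ℕ → ℕ → ℕ → ℕ → Bool := onCell 0 536870912 0 536870912 469762048 67108864
    (rowF 0 true false false .up 0 0 1 (qsf 0 536870912 0 536870912 1) ndF3q0 ndF4q0 pcF1 Cut.none Ext.none)

def k0_mm_001 : ∃ t, chk3 f_mm_001 t 1 1 1 = true :=
  ⟨(l 4), by decide +kernel⟩

theorem c_mm_001 : CertF 0 536870912 0 536870912 469762048 67108864 true false false .up 0 0 1
    ndF3q0 ndF4q0 pcF1 Cut.none Ext.none :=
  certF0 (fam := true) (s1 := false) (s2 := false) (a := 0) (b := 0) (c := 1) (cn := .up) (n1 := ndF3q0) (n2 := ndF4q0) (pc := pcF1) (cut := Cut.none) (xt := Ext.none) (P1 := 0) (W1 := 536870912) (P2 := 0) (W2 := 536870912) (P3 := 469762048) (W3 := 67108864)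
    rfl k0_mm_001

noncomputable def f_mm_011 : ℕ → ℕ → ℕ → ℕ → Bool := onCell 0 536870912 536870912 536870912 469762048 67108864
    (rowF 0 true false false .pnn 0 1 1 (qsf 0 536870912 536870912 536870912 1) ndF3q0 ndF4q1 pcF1 Cut.none Ext.none)

def k0_mm_011 : ∃ t, chk3 f_mm_011 t 1 1 1 = true :=
  ⟨(l 4), by decide +kernel⟩

theorem c_mm_011 : CertF 0 536870912 536870912 536870912 469762048 67108864 true false false .pnn 0 1 1
    ndF3q0 ndF4q1 pcF1 Cut.none Ext.none :=
  certF0 (fam := true) (s1 := false) (s2 := false) (a := 0) (b := 1) (c := 1) (cn := .pnn) (n1 := ndF3q0) (n2 := ndF4q1) (pc := pcF1) (cut := Cut.none) (xt := Ext.none) (P1 := 0) (W1 := 536870912) (P2 := 536870912) (W2 := 536870912) (P3 := 469762048) (W3 := 67108864)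
    rfl k0_mm_011

noncomputable def f_mm_012 : ℕ → ℕ → ℕ → ℕ → Bool := onCell 0 536870912 536870912 536870912 469762048 67108864
    (rowF 0 true false false .pnp 0 1 2 (qsf 0 536870912 536870912 536870912 2) ndF3q0 ndF4q1 pcF2 Cut.none Ext.none)

def k0_mm_012 : ∃ t, chk3 f_mm_012 t 1 1 1 = true :=
  ⟨(l 4), by decide +kernel⟩

theorem c_mm_012 : CertF 0 536870912 536870912 536870912 469762048 67108864 true false false .pnp 0 1 2
    ndF3q0 ndF4q1 pcF2 Cut.none Ext.none :=
  certF0 (fam := true) (s1 := false) (s2 := false) (a := 0) (b := 1) (c := 2) (cn := .pnp) (n1 := ndF3q0) (n2 := ndF4q1) (pc := pcF2) (cut := Cut.none) (xt := Ext.none) (P1 := 0) (W1 := 536870912) (P2 := 536870912) (W2 := 536870912) (P3 := 469762048) (W3 := 67108864)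
    rfl k0_mm_012

noncomputable def f_mm_022 : ℕ → ℕ → ℕ → ℕ → Bool := onCell 0 536870912 1073741824 536870912 469762048 67108864
    (rowF 0 true false false .pp 0 2 2 (qsf 0 536870912 1073741824 536870912 2) ndF3q0 ndF4q2 pcF2 Cut.none Ext.none)

def k0_mm_022 : ∃ t, chk3 f_mm_022 t 1 1 1 = true :=
  ⟨(l 4), by decide +kernel⟩

theorem c_mm_022 : CertF 0 536870912 1073741824 536870912 469762048 67108864 true false false .pp 0 2 2
    ndF3q0 ndF4q2 pcF2 Cut.none Ext.none :=
  certF0 (fam := true) (s1 := false) (s2 := false) (a := 0) (b := 2) (c := 2) (cn := .pp) (n1 := ndF3q0) (n2 := ndF4q2) (pc := pcF2) (cut := Cut.none) (xt := Ext.none) (P1 := 0) (W1 := 536870912) (P2 := 1073741824) (W2 := 536870912) (P3 := 469762048) (W3 := 67108864)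
    rfl k0_mm_022

noncomputable def f_mm_023 : ℕ → ℕ → ℕ → ℕ → Bool := onCell 0 536870912 1073741824 536870912 469762048 67108864
    (rowF 0 true false false .up 0 2 3 (qsf 0 536870912 1073741824 536870912 3) ndF3q0 ndF4q2 pcF3 Cut.none Ext.none)

def k0_mm_023 : ∃ t, chk3 f_mm_023 t 1 1 1 = true :=
  ⟨(l 4), by decide +kernel⟩

theorem c_mm_023 : CertF 0 536870912 1073741824 536870912 469762048 67108864 true false false .up 0 2 3
    ndF3q0 ndF4q2 pcF3 Cut.none Ext.none :=
  certF0 (fam := true) (s1 := false) (s2 := false) (a := 0) (b := 2) (c := 3) (cn := .up) (n1 := ndF3q0) (n2 := ndF4q2) (pc := pcF3) (cut := Cut.none) (xt := Ext.none) (P1 := 0) (W1 := 536870912) (P2 := 1073741824) (W2 := 536870912) (P3 := 469762048) (W3 := 67108864)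
    rfl k0_mm_023

noncomputable def f_mm_033 : ℕ → ℕ → ℕ → ℕ → Bool := onCell 0 536870912 0 1230186008 469762048 67108864
    (rowF 0 true false false .pnn 0 3 3 (qsf 0 536870912 0 1230186008 3) ndF3q0 ndF4q3 pcF3 Cut.none Ext.none)

def k0_mm_033 : ∃ t, chk3 f_mm_033 t 1 1 1 = true :=
  ⟨(l 4), by decide +kernel⟩

theorem c_mm_033 : CertF 0 536870912 0 1230186008 469762048 67108864 true false false .pnn 0 3 3
    ndF3q0 ndF4q3 pcF3 Cut.none Ext.none :=
  certF0 (fam := true) (s1 := false) (s2 := false) (a := 0) (b := 3) (c := 3) (cn := .pnn) (n1 := ndF3q0) (n2 := ndF4q3) (pc := pcF3) (cut := Cut.none) (xt := Ext.none) (P1 := 0) (W1 := 536870912) (P2 := 0) (W2 := 1230186008) (P3 := 469762048) (W3 := 67108864)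
    rfl k0_mm_033

noncomputable def f_mm_101 : ℕ → ℕ → ℕ → ℕ → Bool := onCell 536870912 536870912 0 536870912 469762048 67108864
    (rowF 0 true false false .npn 1 0 1 (qsf 536870912 536870912 0 536870912 1) ndF3q1 ndF4q0 pcF1 Cut.none Ext.none)

def k0_mm_101 : ∃ t, chk3 f_mm_101 t 1 1 1 = true :=
  ⟨(l 4), by decide +kernel⟩

theorem c_mm_101 : CertF 536870912 536870912 0 536870912 469762048 67108864 true false false .npn 1 0 1
    ndF3q1 ndF4q0 pcF1 Cut.none Ext.none :=
  certF0 (fam := true) (s1 := false) (s2 := false) (a := 1) (b := 0) (c := 1) (cn := .npn) (n1 := ndF3q1) (n2 := ndF4q0) (pc := pcF1) (cut := Cut.none) (xt := Ext.none) (P1 := 536870912) (W1 := 536870912) (P2 := 0) (W2 := 536870912) (P3 := 469762048) (W3 := 67108864)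
    rfl k0_mm_101

noncomputable def f_mm_102 : ℕ → ℕ → ℕ → ℕ → Bool := onCell 536870912 536870912 0 536870912 469762048 67108864
    (rowF 0 true false false .npp 1 0 2 (qsf 536870912 536870912 0 536870912 2) ndF3q1 ndF4q0 pcF2 Cut.none Ext.none)

def k0_mm_102 : ∃ t, chk3 f_mm_102 t 1 1 1 = true :=
  ⟨(l 4), by decide +kernel⟩

theorem c_mm_102 : CertF 536870912 536870912 0 536870912 469762048 67108864 true false false .npp 1 0 2
    ndF3q1 ndF4q0 pcF2 Cut.none Ext.none :=
  certF0 (fam := true) (s1 := false) (s2 := false) (a := 1) (b := 0) (c := 2) (cn := .npp) (n1 := ndF3q1) (n2 := ndF4q0) (pc := pcF2) (cut := Cut.none) (xt := Ext.none) (P1 := 536870912) (W1 := 536870912) (P2 := 0) (W2 := 536870912) (P3 := 469762048) (W3 := 67108864)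
    rfl k0_mm_102

noncomputable def f_mm_112 : ℕ → ℕ → ℕ → ℕ → Bool := onCell 536870912 536870912 536870912 536870912 469762048 67108864
    (rowF 0 true false false .dn 1 1 2 (qsf 536870912 536870912 536870912 536870912 2) ndF3q1 ndF4q1 pcF2 Cut.none Ext.none)

def k0_mm_112 : ∃ t, chk3 f_mm_112 t 1 1 1 = true :=
  ⟨(l 4), by decide +kernel⟩

theorem c_mm_112 : CertF 536870912 536870912 536870912 536870912 469762048 67108864 true false false .dn 1 1 2
    ndF3q1 ndF4q1 pcF2 Cut.none Ext.none :=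
  certF0 (fam := true) (s1 := false) (s2 := false) (a := 1) (b := 1) (c := 2) (cn := .dn) (n1 := ndF3q1) (n2 := ndF4q1) (pc := pcF2) (cut := Cut.none) (xt := Ext.none) (P1 := 536870912) (W1 := 536870912) (P2 := 536870912) (W2 := 536870912) (P3 := 469762048) (W3 := 67108864)
    rfl k0_mm_112

noncomputable def f_mm_113 : ℕ → ℕ → ℕ → ℕ → Bool := onCell 536870912 536870912 536870912 536870912 469762048 67108864
    (rowF 0 true false false .nn 1 1 3 (qsf 536870912 536870912 536870912 536870912 3) ndF3q1 ndF4q1 pcF3 Cut.none Ext.none)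

def k0_mm_113 : ∃ t, chk3 f_mm_113 t 1 1 1 = true :=
  ⟨(l 4), by decide +kernel⟩

theorem c_mm_113 : CertF 536870912 536870912 536870912 536870912 469762048 67108864 true false false .nn 1 1 3
    ndF3q1 ndF4q1 pcF3 Cut.none Ext.none :=
  certF0 (fam := true) (s1 := false) (s2 := false) (a := 1) (b := 1) (c := 3) (cn := .nn) (n1 := ndF3q1) (n2 := ndF4q1) (pc := pcF3) (cut := Cut.none) (xt := Ext.none) (P1 := 536870912) (W1 := 536870912) (P2 := 536870912) (W2 := 536870912) (P3 := 469762048) (W3 := 67108864)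
    rfl k0_mm_113

noncomputable def f_mm_123 : ℕ → ℕ → ℕ → ℕ → Bool := onCell 536870912 536870912 1073741824 536870912 469762048 67108864
    (rowF 0 true false false .npn 1 2 3 (qsf 536870912 536870912 1073741824 536870912 3) ndF3q1 ndF4q2 pcF3 Cut.none Ext.none)

def k0_mm_123 : ∃ t, chk3 f_mm_123 t 1 1 1 = true :=
  ⟨(l 4), by decide +kernel⟩

theorem c_mm_123 : CertF 536870912 536870912 1073741824 536870912 469762048 67108864 true false false .npn 1 2 3
    ndF3q1 ndF4q2 pcF3 Cut.none Ext.none :=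
  certF0 (fam := true) (s1 := false) (s2 := false) (a := 1) (b := 2) (c := 3) (cn := .npn) (n1 := ndF3q1) (n2 := ndF4q2) (pc := pcF3) (cut := Cut.none) (xt := Ext.none) (P1 := 536870912) (W1 := 536870912) (P2 := 1073741824) (W2 := 536870912) (P3 := 469762048) (W3 := 67108864)
    rfl k0_mm_123

noncomputable def f_mm_133 : ℕ → ℕ → ℕ → ℕ → Bool := onCell 536870912 536870912 0 1230186008 469762048 67108864
    (rowF 0 true false false .dn 1 3 3 (qsf 536870912 536870912 0 1230186008 3) ndF3q1 ndF4q3 pcF3 Cut.none Ext.none)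

def k0_mm_133 : ∃ t, chk3 f_mm_133 t 1 1 1 = true :=
  ⟨(l 4), by decide +kernel⟩

theorem c_mm_133 : CertF 536870912 536870912 0 1230186008 469762048 67108864 true false false .dn 1 3 3
    ndF3q1 ndF4q3 pcF3 Cut.none Ext.none :=
  certF0 (fam := true) (s1 := false) (s2 := false) (a := 1) (b := 3) (c := 3) (cn := .dn) (n1 := ndF3q1) (n2 := ndF4q3) (pc := pcF3) (cut := Cut.none) (xt := Ext.none) (P1 := 536870912) (W1 := 536870912) (P2 := 0) (W2 := 1230186008) (P3 := 469762048) (W3 := 67108864)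
    rfl k0_mm_133

noncomputable def f_mm_202 : ℕ → ℕ → ℕ → ℕ → Bool := onCell 1073741824 536870912 0 536870912 469762048 67108864
    (rowF 0 true false false .pp 2 0 2 (qsf 1073741824 536870912 0 536870912 2) ndF3q2 ndF4q0 pcF2 Cut.none Ext.none)

def k0_mm_202 : ∃ t, chk3 f_mm_202 t 1 1 1 = true :=
  ⟨(l 4), by decide +kernel⟩

theorem c_mm_202 : CertF 1073741824 536870912 0 536870912 469762048 67108864 true false false .pp 2 0 2
    ndF3q2 ndF4q0 pcF2 Cut.none Ext.none :=
  certF0 (fam := true) (s1 := false) (s2 := false) (a := 2) (b := 0) (c := 2) (cn := .pp) (n1 := ndF3q2) (n2 := ndF4q0) (pc := pcF2) (cut := Cut.none) (xt := Ext.none) (P1 := 1073741824) (W1 := 536870912) (P2 := 0) (W2 := 536870912) (P3 := 469762048) (W3 := 67108864)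
    rfl k0_mm_202

noncomputable def f_mm_203 : ℕ → ℕ → ℕ → ℕ → Bool := onCell 1073741824 536870912 0 536870912 469762048 67108864
    (rowF 0 true false false .up 2 0 3 (qsf 1073741824 536870912 0 536870912 3) ndF3q2 ndF4q0 pcF3 Cut.none Ext.none)

def k0_mm_203 : ∃ t, chk3 f_mm_203 t 1 1 1 = true :=
  ⟨(l 4), by decide +kernel⟩

theorem c_mm_203 : CertF 1073741824 536870912 0 536870912 469762048 67108864 true false false .up 2 0 3
    ndF3q2 ndF4q0 pcF3 Cut.none Ext.none :=
  certF0 (fam := true) (s1 := false) (s2 := false) (a := 2) (b := 0) (c := 3) (cn := .up) (n1 := ndF3q2) (n2 := ndF4q0) (pc := pcF3) (cut := Cut.none) (xt := Ext.none) (P1 := 1073741824) (W1 := 536870912) (P2 := 0) (W2 := 536870912) (P3 := 469762048) (W3 := 67108864)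
    rfl k0_mm_203

noncomputable def f_mm_213 : ℕ → ℕ → ℕ → ℕ → Bool := onCell 1073741824 536870912 536870912 536870912 469762048 67108864
    (rowF 0 true false false .pnn 2 1 3 (qsf 1073741824 536870912 536870912 536870912 3) ndF3q2 ndF4q1 pcF3 Cut.none Ext.none)

def k0_mm_213 : ∃ t, chk3 f_mm_213 t 1 1 1 = true :=
  ⟨(l 4), by decide +kernel⟩

theorem c_mm_213 : CertF 1073741824 536870912 536870912 536870912 469762048 67108864 true false false .pnn 2 1 3
    ndF3q2 ndF4q1 pcF3 Cut.none Ext.none :=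
  certF0 (fam := true) (s1 := false) (s2 := false) (a := 2) (b := 1) (c := 3) (cn := .pnn) (n1 := ndF3q2) (n2 := ndF4q1) (pc := pcF3) (cut := Cut.none) (xt := Ext.none) (P1 := 1073741824) (W1 := 536870912) (P2 := 536870912) (W2 := 536870912) (P3 := 469762048) (W3 := 67108864)
    rfl k0_mm_213

noncomputable def f_mm_303 : ℕ → ℕ → ℕ → ℕ → Bool := onCell 0 1230186008 0 536870912 469762048 67108864
    (rowF 0 true false false .npn 3 0 3 (qsf 0 1230186008 0 536870912 3) ndF3q3 ndF4q0 pcF3 Cut.none Ext.none)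

def k0_mm_303 : ∃ t, chk3 f_mm_303 t 1 1 1 = true :=
  ⟨(l 4), by decide +kernel⟩

theorem c_mm_303 : CertF 0 1230186008 0 536870912 469762048 67108864 true false false .npn 3 0 3
    ndF3q3 ndF4q0 pcF3 Cut.none Ext.none :=
  certF0 (fam := true) (s1 := false) (s2 := false) (a := 3) (b := 0) (c := 3) (cn := .npn) (n1 := ndF3q3) (n2 := ndF4q0) (pc := pcF3) (cut := Cut.none) (xt := Ext.none) (P1 := 0) (W1 := 1230186008) (P2 := 0) (W2 := 536870912) (P3 := 469762048) (W3 := 67108864)
    rfl k0_mm_303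

noncomputable def f_mm_313 : ℕ → ℕ → ℕ → ℕ → Bool := onCell 0 1230186008 536870912 536870912 469762048 67108864
    (rowF 0 true false false .dn 3 1 3 (qsf 0 1230186008 536870912 536870912 3) ndF3q3 ndF4q1 pcF3 Cut.none Ext.none)

def k0_mm_313 : ∃ t, chk3 f_mm_313 t 1 1 1 = true :=
  ⟨(l 4), by decide +kernel⟩

theorem c_mm_313 : CertF 0 1230186008 536870912 536870912 469762048 67108864 true false false .dn 3 1 3
    ndF3q3 ndF4q1 pcF3 Cut.none Ext.none :=
  certF0 (fam := true) (s1 := false) (s2 := false) (a := 3) (b := 1) (c := 3) (cn := .dn) (n1 := ndF3q3) (n2 := ndF4q1) (pc := pcF3) (cut := Cut.none) (xt := Ext.none) (P1 := 0) (W1 := 1230186008) (P2 := 536870912) (W2 := 536870912) (P3 := 469762048) (W3 := 67108864)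
    rfl k0_mm_313

end Pool.Agent.Strip051.G.I7_16_1_2.Tab.C.FA34

namespace Pool.Agent.Strip051.G.I7_16_1_2.Tab.C.FA44

open Pool.Agent.Strip051.PB Pool.Agent.Strip051.PB.T
open Pool.Agent.Strip051.G.I7_16_1_2.Tab

noncomputable def f_pp_001 : ℕ → ℕ → ℕ → ℕ → Bool := onCell 0 536870912 0 536870912 469762048 67108864
    (rowF 0 true true true .up 0 0 1 (qsf 0 536870912 0 536870912 1) ndF4q0 ndF4q0 pcF1 Cut.none Ext.none)

def k0_pp_001 : ∃ t, chk3 f_pp_001 t 1 1 1 = true :=
  ⟨(l 4), by decide +kernel⟩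

theorem c_pp_001 : CertF 0 536870912 0 536870912 469762048 67108864 true true true .up 0 0 1
    ndF4q0 ndF4q0 pcF1 Cut.none Ext.none :=
  certF0 (fam := true) (s1 := true) (s2 := true) (a := 0) (b := 0) (c := 1) (cn := .up) (n1 := ndF4q0) (n2 := ndF4q0) (pc := pcF1) (cut := Cut.none) (xt := Ext.none) (P1 := 0) (W1 := 536870912) (P2 := 0) (W2 := 536870912) (P3 := 469762048) (W3 := 67108864)
    rfl k0_pp_001

noncomputable def f_pp_011 : ℕ → ℕ → ℕ → ℕ → Bool := onCell 0 536870912 536870912 536870912 469762048 67108864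
    (rowF 0 true true true .pnn 0 1 1 (qsf 0 536870912 536870912 536870912 1) ndF4q0 ndF4q1 pcF1 Cut.none Ext.none)

def k0_pp_011 : ∃ t, chk3 f_pp_011 t 1 1 1 = true :=
  ⟨(l 4), by decide +kernel⟩

theorem c_pp_011 : CertF 0 536870912 536870912 536870912 469762048 67108864 true true true .pnn 0 1 1
    ndF4q0 ndF4q1 pcF1 Cut.none Ext.none :=
  certF0 (fam := true) (s1 := true) (s2 := true) (a := 0) (b := 1) (c := 1) (cn := .pnn) (n1 := ndF4q0) (n2 := ndF4q1) (pc := pcF1) (cut := Cut.none) (xt := Ext.none) (P1 := 0) (W1 := 536870912) (P2 := 536870912) (W2 := 536870912) (P3 := 469762048) (W3 := 67108864)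
    rfl k0_pp_011

noncomputable def f_pp_012 : ℕ → ℕ → ℕ → ℕ → Bool := onCell 0 536870912 536870912 536870912 469762048 67108864
    (rowF 0 true true true .pnp 0 1 2 (qsf 0 536870912 536870912 536870912 2) ndF4q0 ndF4q1 pcF2 Cut.none Ext.none)

def k0_pp_012 : ∃ t, chk3 f_pp_012 t 1 1 1 = true :=
  ⟨(l 4), by decide +kernel⟩

theorem c_pp_012 : CertF 0 536870912 536870912 536870912 469762048 67108864 true true true .pnp 0 1 2
    ndF4q0 ndF4q1 pcF2 Cut.none Ext.none :=
  certF0 (fam := true) (s1 := true) (s2 := true) (a := 0) (b := 1) (c := 2) (cn := .pnp) (n1 := ndF4q0) (n2 := ndF4q1) (pc := pcF2) (cut := Cut.none) (xt := Ext.none) (P1 := 0) (W1 := 536870912) (P2 := 536870912) (W2 := 536870912) (P3 := 469762048) (W3 := 67108864)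
    rfl k0_pp_012

noncomputable def f_pp_022 : ℕ → ℕ → ℕ → ℕ → Bool := onCell 0 536870912 1073741824 536870912 469762048 67108864
    (rowF 0 true true true .pp 0 2 2 (qsf 0 536870912 1073741824 536870912 2) ndF4q0 ndF4q2 pcF2 Cut.none Ext.none)

def k0_pp_022 : ∃ t, chk3 f_pp_022 t 1 1 1 = true :=
  ⟨(l 4), by decide +kernel⟩

theorem c_pp_022 : CertF 0 536870912 1073741824 536870912 469762048 67108864 true true true .pp 0 2 2
    ndF4q0 ndF4q2 pcF2 Cut.none Ext.none :=
  certF0 (fam := true) (s1 := true) (s2 := true) (a := 0) (b := 2) (c := 2) (cn := .pp) (n1 := ndF4q0) (n2 := ndF4q2) (pc := pcF2) (cut := Cut.none) (xt := Ext.none) (P1 := 0) (W1 := 536870912) (P2 := 1073741824) (W2 := 536870912) (P3 := 469762048) (W3 := 67108864)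
    rfl k0_pp_022

noncomputable def f_pp_023 : ℕ → ℕ → ℕ → ℕ → Bool := onCell 0 536870912 1073741824 536870912 469762048 67108864
    (rowF 0 true true true .up 0 2 3 (qsf 0 536870912 1073741824 536870912 3) ndF4q0 ndF4q2 pcF3 Cut.none Ext.none)

def k0_pp_023 : ∃ t, chk3 f_pp_023 t 1 1 1 = true :=
  ⟨(l 4), by decide +kernel⟩

theorem c_pp_023 : CertF 0 536870912 1073741824 536870912 469762048 67108864 true true true .up 0 2 3
    ndF4q0 ndF4q2 pcF3 Cut.none Ext.none :=
  certF0 (fam := true) (s1 := true) (s2 := true) (a := 0) (b := 2) (c := 3) (cn := .up) (n1 := ndF4q0) (n2 := ndF4q2) (pc := pcF3) (cut := Cut.none) (xt := Ext.none) (P1 := 0) (W1 := 536870912) (P2 := 1073741824) (W2 := 536870912) (P3 := 469762048) (W3 := 67108864)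
    rfl k0_pp_023

noncomputable def f_pp_033 : ℕ → ℕ → ℕ → ℕ → Bool := onCell 0 536870912 0 1230186008 469762048 67108864
    (rowF 0 true true true .pnn 0 3 3 (qsf 0 536870912 0 1230186008 3) ndF4q0 ndF4q3 pcF3 Cut.none Ext.none)

def k0_pp_033 : ∃ t, chk3 f_pp_033 t 1 1 1 = true :=
  ⟨(l 4), by decide +kernel⟩

theorem c_pp_033 : CertF 0 536870912 0 1230186008 469762048 67108864 true true true .pnn 0 3 3
    ndF4q0 ndF4q3 pcF3 Cut.none Ext.none :=
  certF0 (fam := true) (s1 := true) (s2 := true) (a := 0) (b := 3) (c := 3) (cn := .pnn) (n1 := ndF4q0) (n2 := ndF4q3) (pc := pcF3) (cut := Cut.none) (xt := Ext.none) (P1 := 0) (W1 := 536870912) (P2 := 0) (W2 := 1230186008) (P3 := 469762048) (W3 := 67108864)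
    rfl k0_pp_033

noncomputable def f_pp_101 : ℕ → ℕ → ℕ → ℕ → Bool := onCell 536870912 536870912 0 536870912 469762048 67108864
    (rowF 0 true true true .npn 1 0 1 (qsf 536870912 536870912 0 536870912 1) ndF4q1 ndF4q0 pcF1 Cut.none Ext.none)

def k0_pp_101 : ∃ t, chk3 f_pp_101 t 1 1 1 = true :=
  ⟨(l 4), by decide +kernel⟩

theorem c_pp_101 : CertF 536870912 536870912 0 536870912 469762048 67108864 true true true .npn 1 0 1
    ndF4q1 ndF4q0 pcF1 Cut.none Ext.none :=
  certF0 (fam := true) (s1 := true) (s2 := true) (a := 1) (b := 0) (c := 1) (cn := .npn) (n1 := ndF4q1) (n2 := ndF4q0) (pc := pcF1) (cut := Cut.none) (xt := Ext.none) (P1 := 536870912) (W1 := 536870912) (P2 := 0) (W2 := 536870912) (P3 := 469762048) (W3 := 67108864)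
    rfl k0_pp_101

noncomputable def f_pp_102 : ℕ → ℕ → ℕ → ℕ → Bool := onCell 536870912 536870912 0 536870912 469762048 67108864
    (rowF 0 true true true .npp 1 0 2 (qsf 536870912 536870912 0 536870912 2) ndF4q1 ndF4q0 pcF2 Cut.none Ext.none)

def k0_pp_102 : ∃ t, chk3 f_pp_102 t 1 1 1 = true :=
  ⟨(l 4), by decide +kernel⟩

theorem c_pp_102 : CertF 536870912 536870912 0 536870912 469762048 67108864 true true true .npp 1 0 2
    ndF4q1 ndF4q0 pcF2 Cut.none Ext.none :=
  certF0 (fam := true) (s1 := true) (s2 := true) (a := 1) (b := 0) (c := 2) (cn := .npp) (n1 := ndF4q1) (n2 := ndF4q0) (pc := pcF2) (cut := Cut.none) (xt := Ext.none) (P1 := 536870912) (W1 := 536870912) (P2 := 0) (W2 := 536870912) (P3 := 469762048) (W3 := 67108864)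
    rfl k0_pp_102

noncomputable def f_pp_112 : ℕ → ℕ → ℕ → ℕ → Bool := onCell 536870912 536870912 536870912 536870912 469762048 67108864
    (rowF 0 true true true .dn 1 1 2 (qsf 536870912 536870912 536870912 536870912 2) ndF4q1 ndF4q1 pcF2 Cut.none Ext.none)

def k0_pp_112 : ∃ t, chk3 f_pp_112 t 1 1 1 = true :=
  ⟨(l 4), by decide +kernel⟩

theorem c_pp_112 : CertF 536870912 536870912 536870912 536870912 469762048 67108864 true true true .dn 1 1 2
    ndF4q1 ndF4q1 pcF2 Cut.none Ext.none :=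
  certF0 (fam := true) (s1 := true) (s2 := true) (a := 1) (b := 1) (c := 2) (cn := .dn) (n1 := ndF4q1) (n2 := ndF4q1) (pc := pcF2) (cut := Cut.none) (xt := Ext.none) (P1 := 536870912) (W1 := 536870912) (P2 := 536870912) (W2 := 536870912) (P3 := 469762048) (W3 := 67108864)
    rfl k0_pp_112

noncomputable def f_pp_113 : ℕ → ℕ → ℕ → ℕ → Bool := onCell 536870912 536870912 536870912 536870912 469762048 67108864
    (rowF 0 true true true .nn 1 1 3 (qsf 536870912 536870912 536870912 536870912 3) ndF4q1 ndF4q1 pcF3 Cut.none Ext.none)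

def k0_pp_113 : ∃ t, chk3 f_pp_113 t 1 1 1 = true :=
  ⟨(l 4), by decide +kernel⟩

theorem c_pp_113 : CertF 536870912 536870912 536870912 536870912 469762048 67108864 true true true .nn 1 1 3
    ndF4q1 ndF4q1 pcF3 Cut.none Ext.none :=
  certF0 (fam := true) (s1 := true) (s2 := true) (a := 1) (b := 1) (c := 3) (cn := .nn) (n1 := ndF4q1) (n2 := ndF4q1) (pc := pcF3) (cut := Cut.none) (xt := Ext.none) (P1 := 536870912) (W1 := 536870912) (P2 := 536870912) (W2 := 536870912) (P3 := 469762048) (W3 := 67108864)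
    rfl k0_pp_113

noncomputable def f_pp_123 : ℕ → ℕ → ℕ → ℕ → Bool := onCell 536870912 536870912 1073741824 536870912 469762048 67108864
    (rowF 0 true true true .npn 1 2 3 (qsf 536870912 536870912 1073741824 536870912 3) ndF4q1 ndF4q2 pcF3 Cut.none Ext.none)

def k0_pp_123 : ∃ t, chk3 f_pp_123 t 1 1 1 = true :=
  ⟨(l 4), by decide +kernel⟩

theorem c_pp_123 : CertF 536870912 536870912 1073741824 536870912 469762048 67108864 true true true .npn 1 2 3
    ndF4q1 ndF4q2 pcF3 Cut.none Ext.none :=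
  certF0 (fam := true) (s1 := true) (s2 := true) (a := 1) (b := 2) (c := 3) (cn := .npn) (n1 := ndF4q1) (n2 := ndF4q2) (pc := pcF3) (cut := Cut.none) (xt := Ext.none) (P1 := 536870912) (W1 := 536870912) (P2 := 1073741824) (W2 := 536870912) (P3 := 469762048) (W3 := 67108864)
    rfl k0_pp_123

noncomputable def f_pp_133 : ℕ → ℕ → ℕ → ℕ → Bool := onCell 536870912 536870912 0 1230186008 469762048 67108864
    (rowF 0 true true true .dn 1 3 3 (qsf 536870912 536870912 0 1230186008 3) ndF4q1 ndF4q3 pcF3 Cut.none Ext.none)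

def k0_pp_133 : ∃ t, chk3 f_pp_133 t 1 1 1 = true :=
  ⟨(l 4), by decide +kernel⟩

theorem c_pp_133 : CertF 536870912 536870912 0 1230186008 469762048 67108864 true true true .dn 1 3 3
    ndF4q1 ndF4q3 pcF3 Cut.none Ext.none :=
  certF0 (fam := true) (s1 := true) (s2 := true) (a := 1) (b := 3) (c := 3) (cn := .dn) (n1 := ndF4q1) (n2 := ndF4q3) (pc := pcF3) (cut := Cut.none) (xt := Ext.none) (P1 := 536870912) (W1 := 536870912) (P2 := 0) (W2 := 1230186008) (P3 := 469762048) (W3 := 67108864)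
    rfl k0_pp_133

noncomputable def f_pp_202 : ℕ → ℕ → ℕ → ℕ → Bool := onCell 1073741824 536870912 0 536870912 469762048 67108864
    (rowF 0 true true true .pp 2 0 2 (qsf 1073741824 536870912 0 536870912 2) ndF4q2 ndF4q0 pcF2 Cut.none Ext.none)

def k0_pp_202 : ∃ t, chk3 f_pp_202 t 1 1 1 = true :=
  ⟨(l 4), by decide +kernel⟩

theorem c_pp_202 : CertF 1073741824 536870912 0 536870912 469762048 67108864 true true true .pp 2 0 2
    ndF4q2 ndF4q0 pcF2 Cut.none Ext.none :=
  certF0 (fam := true) (s1 := true) (s2 := true) (a := 2) (b := 0) (c := 2) (cn := .pp) (n1 := ndF4q2) (n2 := ndF4q0) (pc := pcF2) (cut := Cut.none) (xt := Ext.none) (P1 := 1073741824) (W1 := 536870912) (P2 := 0) (W2 := 536870912) (P3 := 469762048) (W3 := 67108864)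
    rfl k0_pp_202

noncomputable def f_pp_203 : ℕ → ℕ → ℕ → ℕ → Bool := onCell 1073741824 536870912 0 536870912 469762048 67108864
    (rowF 0 true true true .up 2 0 3 (qsf 1073741824 536870912 0 536870912 3) ndF4q2 ndF4q0 pcF3 Cut.none Ext.none)

def k0_pp_203 : ∃ t, chk3 f_pp_203 t 1 1 1 = true :=
  ⟨(l 4), by decide +kernel⟩

theorem c_pp_203 : CertF 1073741824 536870912 0 536870912 469762048 67108864 true true true .up 2 0 3
    ndF4q2 ndF4q0 pcF3 Cut.none Ext.none :=
  certF0 (fam := true) (s1 := true) (s2 := true) (a := 2) (b := 0) (c := 3) (cn := .up) (n1 := ndF4q2) (n2 := ndF4q0) (pc := pcF3) (cut := Cut.none) (xt := Ext.none) (P1 := 1073741824) (W1 := 536870912) (P2 := 0) (W2 := 536870912) (P3 := 469762048) (W3 := 67108864)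
    rfl k0_pp_203

noncomputable def f_pp_213 : ℕ → ℕ → ℕ → ℕ → Bool := onCell 1073741824 536870912 536870912 536870912 469762048 67108864
    (rowF 0 true true true .pnn 2 1 3 (qsf 1073741824 536870912 536870912 536870912 3) ndF4q2 ndF4q1 pcF3 Cut.none Ext.none)

def k0_pp_213 : ∃ t, chk3 f_pp_213 t 1 1 1 = true :=
  ⟨(l 4), by decide +kernel⟩

theorem c_pp_213 : CertF 1073741824 536870912 536870912 536870912 469762048 67108864 true true true .pnn 2 1 3
    ndF4q2 ndF4q1 pcF3 Cut.none Ext.none :=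
  certF0 (fam := true) (s1 := true) (s2 := true) (a := 2) (b := 1) (c := 3) (cn := .pnn) (n1 := ndF4q2) (n2 := ndF4q1) (pc := pcF3) (cut := Cut.none) (xt := Ext.none) (P1 := 1073741824) (W1 := 536870912) (P2 := 536870912) (W2 := 536870912) (P3 := 469762048) (W3 := 67108864)
    rfl k0_pp_213

noncomputable def f_pp_303 : ℕ → ℕ → ℕ → ℕ → Bool := onCell 0 1230186008 0 536870912 469762048 67108864
    (rowF 0 true true true .npn 3 0 3 (qsf 0 1230186008 0 536870912 3) ndF4q3 ndF4q0 pcF3 Cut.none Ext.none)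

def k0_pp_303 : ∃ t, chk3 f_pp_303 t 1 1 1 = true :=
  ⟨(l 4), by decide +kernel⟩

theorem c_pp_303 : CertF 0 1230186008 0 536870912 469762048 67108864 true true true .npn 3 0 3
    ndF4q3 ndF4q0 pcF3 Cut.none Ext.none :=
  certF0 (fam := true) (s1 := true) (s2 := true) (a := 3) (b := 0) (c := 3) (cn := .npn) (n1 := ndF4q3) (n2 := ndF4q0) (pc := pcF3) (cut := Cut.none) (xt := Ext.none) (P1 := 0) (W1 := 1230186008) (P2 := 0) (W2 := 536870912) (P3 := 469762048) (W3 := 67108864)
    rfl k0_pp_303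

noncomputable def f_pp_313 : ℕ → ℕ → ℕ → ℕ → Bool := onCell 0 1230186008 536870912 536870912 469762048 67108864
    (rowF 0 true true true .dn 3 1 3 (qsf 0 1230186008 536870912 536870912 3) ndF4q3 ndF4q1 pcF3 Cut.none Ext.none)

def k0_pp_313 : ∃ t, chk3 f_pp_313 t 1 1 1 = true :=
  ⟨(l 4), by decide +kernel⟩

theorem c_pp_313 : CertF 0 1230186008 536870912 536870912 469762048 67108864 true true true .dn 3 1 3
    ndF4q3 ndF4q1 pcF3 Cut.none Ext.none :=
  certF0 (fam := true) (s1 := true) (s2 := true) (a := 3) (b := 1) (c := 3) (cn := .dn) (n1 := ndF4q3) (n2 := ndF4q1) (pc := pcF3) (cut := Cut.none) (xt := Ext.none) (P1 := 0) (W1 := 1230186008) (P2 := 536870912) (W2 := 536870912) (P3 := 469762048) (W3 := 67108864)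
    rfl k0_pp_313

noncomputable def f_pm_001 : ℕ → ℕ → ℕ → ℕ → Bool := onCell 0 536870912 0 536870912 469762048 67108864
    (rowF 0 true true false .up 0 0 1 (qsf 0 536870912 0 536870912 1) ndF4q0 ndF4q0 pcF1 Cut.none Ext.none)

def k0_pm_001 : ∃ t, chk3 f_pm_001 t 1 1 1 = true :=
  ⟨(l 3), by decide +kernel⟩

theorem c_pm_001 : CertF 0 536870912 0 536870912 469762048 67108864 true true false .up 0 0 1
    ndF4q0 ndF4q0 pcF1 Cut.none Ext.none :=
  certF0 (fam := true) (s1 := true) (s2 := false) (a := 0) (b := 0) (c := 1) (cn := .up) (n1 := ndF4q0) (n2 := ndF4q0) (pc := pcF1) (cut := Cut.none) (xt := Ext.none) (P1 := 0) (W1 := 536870912) (P2 := 0) (W2 := 536870912) (P3 := 469762048) (W3 := 67108864)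
    rfl k0_pm_001

noncomputable def f_pm_011 : ℕ → ℕ → ℕ → ℕ → Bool := onCell 0 536870912 536870912 536870912 469762048 67108864
    (rowF 1 true true false .pnn 0 1 1 (qsf 0 536870912 536870912 536870912 1) ndF4q0 ndF4q1 pcF1 Cut.none Ext.none)

def k0_pm_011 : ∃ t, chk3 f_pm_011 t 1 1 1 = true :=
  ⟨(l 3), by decide +kernel⟩

theorem c_pm_011 : CertF 0 536870912 536870912 536870912 469762048 67108864 true true false .pnn 0 1 1
    ndF4q0 ndF4q1 pcF1 Cut.none Ext.none :=
  certF1 (fam := true) (s1 := true) (s2 := false) (a := 0) (b := 1) (c := 1) (cn := .pnn) (n1 := ndF4q0) (n2 := ndF4q1) (pc := pcF1) (cut := Cut.none) (xt := Ext.none) (P1 := 0) (W1 := 536870912) (P2 := 536870912) (W2 := 536870912) (P3 := 469762048) (W3 := 67108864)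
    rfl (fun _ => rfl) k0_pm_011

noncomputable def f_pm_012 : ℕ → ℕ → ℕ → ℕ → Bool := onCell 1073741824 536870912 536870912 536870912 469762048 67108864
    (rowF 2 true true false .pnp 0 1 2 (qsf 0 536870912 536870912 536870912 2) ndF4q0 ndF4q1 pcF2 Cut.none Ext.none)

def k0_pm_012 : ∃ t, chk3 f_pm_012 t 1 1 1 = true :=
  ⟨(a (a (b (l 3) (a (l 3) (b (l 3) (a (l 3) (l 295984665527))))) (b (a (a (a (l 3) (a (l 3) (b (l 2) (a (l 17011664) (l 17016088))))) (b (l 2) (l 17039152))) (b (l 2) (l 17116888))) (a (a (a (b (l 17014424) (l 17051456)) (a (b (l 17025104) (l 17059424)) (b (a (l 17029952) (l 17033832)) (a (l 17063056) (a (l 17065304) (l 17067040)))))) (b (l 17054784) (l 17084080))) (b (l 17124856) (l 17143896))))) (b (a (b (l 2) (a (l 17265640) (l 2))) (l 2)) (b (a (l 17362208) (l 17994032)) (a (l 17344800) (l 17896064))))), by decide +kernel⟩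

theorem c_pm_012 : CertF 0 536870912 536870912 536870912 469762048 67108864 true true false .pnp 0 1 2
    ndF4q0 ndF4q1 pcF2 Cut.none Ext.none :=
  certF2 (fam := true) (s1 := true) (s2 := false) (a := 0) (b := 1) (c := 2) (cn := .pnp) (n1 := ndF4q0) (n2 := ndF4q1) (pc := pcF2) (cut := Cut.none) (xt := Ext.none) (P1 := 0) (W1 := 536870912) (P2 := 536870912) (W2 := 536870912) (P3 := 469762048) (W3 := 67108864)
    rfl (fun _ => rfl) k0_pm_012

noncomputable def f_pm_022 : ℕ → ℕ → ℕ → ℕ → Bool := onCell 1073741824 536870912 1073741824 536870912 469762048 67108864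
    (rowF 2 true true false .pp 0 2 2 (qsf 0 536870912 1073741824 536870912 2) ndF4q0 ndF4q2 pcF2 Cut.none Ext.none)

def k0_pm_022 : ∃ t, chk3 f_pm_022 t 1 1 1 = true :=
  ⟨(a (a (b (a (l 3) (b (a (l 3) (b (l 17020704) (l 16969128))) (a (l 1) (b (l 16880112) (l 1))))) (l 1)) (b (a (a (a (b (b (l 17032288) (l 16974720)) (l 17046656)) (a (b (l 17003744) (l 16917592)) (b (a (l 17005920) (a (l 17007088) (l 17007912))) (l 16920200)))) (b (l 17017256) (l 16882640))) (b (l 17048856) (l 16933328))) (b (a (l 1) (l 16767336)) (l 1)))) (b (a (b (l 17157464) (l 16964824)) (b (l 17450928) (l 17059688))) (a (b (l 16832704) (l 412350199047)) (b (l 16906720) (a (l 16840952) (l 16846592)))))), by decide +kernel⟩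

theorem c_pm_022 : CertF 0 536870912 1073741824 536870912 469762048 67108864 true true false .pp 0 2 2
    ndF4q0 ndF4q2 pcF2 Cut.none Ext.none :=
  certF2 (fam := true) (s1 := true) (s2 := false) (a := 0) (b := 2) (c := 2) (cn := .pp) (n1 := ndF4q0) (n2 := ndF4q2) (pc := pcF2) (cut := Cut.none) (xt := Ext.none) (P1 := 0) (W1 := 536870912) (P2 := 1073741824) (W2 := 536870912) (P3 := 469762048) (W3 := 67108864)
    rfl (fun _ => rfl) k0_pm_022

noncomputable def f_pm_023 : ℕ → ℕ → ℕ → ℕ → Bool := onCell 1610612736 536870912 1073741824 536870912 469762048 67108864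
    (rowF 2 true true false .up 0 2 3 (qsf 0 536870912 1073741824 536870912 3) ndF4q0 ndF4q2 pcF3 Cut.none Ext.none)

def k0_pm_023 : ∃ t, chk3 f_pm_023 t 1 1 1 = true :=
  ⟨(a (b (a (b (l 17649736) (l 17254176)) (b (l 17604632) (l 17479648))) (a (b (l 16982904) (l 16871280)) (b (l 17162464) (l 16923952)))) (b (a (b (l 2) (l 17269144)) (l 2)) (a (b (l 17185752) (l 16935120)) (a (b (l 16920152) (l 16805888)) (b (l 2) (l 16788416)))))), by decide +kernel⟩

theorem c_pm_023 : CertF 0 536870912 1073741824 536870912 469762048 67108864 true true false .up 0 2 3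
    ndF4q0 ndF4q2 pcF3 Cut.none Ext.none :=
  certF2 (fam := true) (s1 := true) (s2 := false) (a := 0) (b := 2) (c := 3) (cn := .up) (n1 := ndF4q0) (n2 := ndF4q2) (pc := pcF3) (cut := Cut.none) (xt := Ext.none) (P1 := 0) (W1 := 536870912) (P2 := 1073741824) (W2 := 536870912) (P3 := 469762048) (W3 := 67108864)
    rfl (fun _ => rfl) k0_pm_023

noncomputable def f_pm_033 : ℕ → ℕ → ℕ → ℕ → Bool := onCell 1610612736 536870912 0 1230186008 469762048 67108864
    (rowF 2 true true false .pnn 0 3 3 (qsf 0 536870912 0 1230186008 3) ndF4q0 ndF4q3 pcF3 Cut.none Ext.none)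

def k0_pm_033 : ∃ t, chk3 f_pm_033 t 1 1 1 = true :=
  ⟨(b (a (l 1) (l 4)) (b (a (a (l 1) (l 16838672)) (l 4)) (a (a (b (l 1) (a (l 16806760) (l 16821984))) (b (l 16789336) (l 16824848))) (a (b (l 16786536) (l 16802672)) (a (l 16784768) (l 4)))))), by decide +kernel⟩

theorem c_pm_033 : CertF 0 536870912 0 1230186008 469762048 67108864 true true false .pnn 0 3 3
    ndF4q0 ndF4q3 pcF3 Cut.none Ext.none :=
  certF2 (fam := true) (s1 := true) (s2 := false) (a := 0) (b := 3) (c := 3) (cn := .pnn) (n1 := ndF4q0) (n2 := ndF4q3) (pc := pcF3) (cut := Cut.none) (xt := Ext.none) (P1 := 0) (W1 := 536870912) (P2 := 0) (W2 := 1230186008) (P3 := 469762048) (W3 := 67108864)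
    rfl (fun _ => rfl) k0_pm_033

noncomputable def f_pm_101 : ℕ → ℕ → ℕ → ℕ → Bool := onCell 536870912 536870912 536870912 536870912 469762048 67108864
    (rowF 1 true true false .npn 1 0 1 (qsf 536870912 536870912 0 536870912 1) ndF4q1 ndF4q0 pcF1 Cut.none Ext.none)

def k0_pm_101 : ∃ t, chk3 f_pm_101 t 1 1 1 = true :=
  ⟨(l 3), by decide +kernel⟩

theorem c_pm_101 : CertF 536870912 536870912 0 536870912 469762048 67108864 true true false .npn 1 0 1
    ndF4q1 ndF4q0 pcF1 Cut.none Ext.none :=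
  certF1 (fam := true) (s1 := true) (s2 := false) (a := 1) (b := 0) (c := 1) (cn := .npn) (n1 := ndF4q1) (n2 := ndF4q0) (pc := pcF1) (cut := Cut.none) (xt := Ext.none) (P1 := 536870912) (W1 := 536870912) (P2 := 0) (W2 := 536870912) (P3 := 469762048) (W3 := 67108864)
    rfl (fun _ => rfl) k0_pm_101

noncomputable def f_pm_102 : ℕ → ℕ → ℕ → ℕ → Bool := onCell 536870912 536870912 1073741824 536870912 469762048 67108864
    (rowF 1 true true false .npp 1 0 2 (qsf 536870912 536870912 0 536870912 2) ndF4q1 ndF4q0 pcF2 Cut.none Ext.none)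

def k0_pm_102 : ∃ t, chk3 f_pm_102 t 1 1 1 = true :=
  ⟨(a (b (b (l 3) (b (b (b (l 3) (b (l 3) (a (l 2) (b (l 17011664) (l 17016088))))) (a (l 2) (l 17039152))) (a (l 2) (l 17116888)))) (a (l 2) (b (b (l 17265640) (l 2)) (l 2)))) (b (b (b (l 3) (a (l 3) (b (l 3) (l 295984665527)))) (b (b (b (a (l 17014424) (l 17051456)) (b (a (l 17025104) (l 17059424)) (a (b (l 17029952) (l 17033832)) (b (l 17063056) (b (l 17065304) (l 17067040)))))) (a (l 17054784) (l 17084080))) (a (l 17124856) (l 17143896)))) (a (b (l 17362208) (l 17994032)) (b (l 17344800) (l 17896064))))), by decide +kernel⟩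

theorem c_pm_102 : CertF 536870912 536870912 0 536870912 469762048 67108864 true true false .npp 1 0 2
    ndF4q1 ndF4q0 pcF2 Cut.none Ext.none :=
  certF1 (fam := true) (s1 := true) (s2 := false) (a := 1) (b := 0) (c := 2) (cn := .npp) (n1 := ndF4q1) (n2 := ndF4q0) (pc := pcF2) (cut := Cut.none) (xt := Ext.none) (P1 := 536870912) (W1 := 536870912) (P2 := 0) (W2 := 536870912) (P3 := 469762048) (W3 := 67108864)
    rfl (fun _ => rfl) k0_pm_102

noncomputable def f_pm_112 : ℕ → ℕ → ℕ → ℕ → Bool := onCell 536870912 536870912 1073741824 536870912 469762048 67108864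
    (rowF 1 true true false .dn 1 1 2 (qsf 536870912 536870912 536870912 536870912 2) ndF4q1 ndF4q1 pcF2 Cut.none Ext.none)

def k0_pm_112 : ∃ t, chk3 f_pm_112 t 1 1 1 = true :=
  ⟨(a (b (b (l 3) (b (b (b (l 3) (b (l 3) (b (l 17006816) (l 17179264)))) (l 17034520)) (l 17112136))) (b (l 17356736) (l 17941856))) (b (b (l 1) (b (l 1) (l 17127200))) (b (l 17378448) (l 17907480)))), by decide +kernel⟩

theorem c_pm_112 : CertF 536870912 536870912 536870912 536870912 469762048 67108864 true true false .dn 1 1 2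
    ndF4q1 ndF4q1 pcF2 Cut.none Ext.none :=
  certF1 (fam := true) (s1 := true) (s2 := false) (a := 1) (b := 1) (c := 2) (cn := .dn) (n1 := ndF4q1) (n2 := ndF4q1) (pc := pcF2) (cut := Cut.none) (xt := Ext.none) (P1 := 536870912) (W1 := 536870912) (P2 := 536870912) (W2 := 536870912) (P3 := 469762048) (W3 := 67108864)
    rfl (fun _ => rfl) k0_pm_112

noncomputable def f_pm_113 : ℕ → ℕ → ℕ → ℕ → Bool := onCell 536870912 536870912 536870912 536870912 469762048 67108864
    (rowF 0 true true false .nn 1 1 3 (qsf 536870912 536870912 536870912 536870912 3) ndF4q1 ndF4q1 pcF3 Cut.none Ext.none)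

def k0_pm_113 : ∃ t, chk3 f_pm_113 t 1 1 1 = true :=
  ⟨(a (b (l 408593624375) (l 462818998647)) (b (l 462818998647) (a (l 17649104) (b (l 17489280) (a (l 17246544) (b (l 17158208) (a (l 17018056) (b (l 16971400) (l 16874936))))))))), by decide +kernel⟩

theorem c_pm_113 : CertF 536870912 536870912 536870912 536870912 469762048 67108864 true true false .nn 1 1 3
    ndF4q1 ndF4q1 pcF3 Cut.none Ext.none :=
  certF0 (fam := true) (s1 := true) (s2 := false) (a := 1) (b := 1) (c := 3) (cn := .nn) (n1 := ndF4q1) (n2 := ndF4q1) (pc := pcF3) (cut := Cut.none) (xt := Ext.none) (P1 := 536870912) (W1 := 536870912) (P2 := 536870912) (W2 := 536870912) (P3 := 469762048) (W3 := 67108864)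
    rfl k0_pm_113

noncomputable def f_pm_123 : ℕ → ℕ → ℕ → ℕ → Bool := onCell 1610612736 536870912 1073741824 536870912 469762048 67108864
    (rowF 2 true true false .npn 1 2 3 (qsf 536870912 536870912 1073741824 536870912 3) ndF4q1 ndF4q2 pcF3 Cut.none Ext.none)

def k0_pm_123 : ∃ t, chk3 f_pm_123 t 1 1 1 = true :=
  ⟨(a (b (a (b (l 17606368) (l 17236728)) (l 17494616)) (a (l 1) (l 17143320))) (a (b (b (l 17316016) (l 17224880)) (b (l 17142424) (l 16945080))) (b (a (l 17038432) (a (l 16905648) (b (l 16822696) (l 16790456)))) (a (l 16872640) (a (l 16770640) (l 16783616)))))), by decide +kernel⟩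

theorem c_pm_123 : CertF 536870912 536870912 1073741824 536870912 469762048 67108864 true true false .npn 1 2 3
    ndF4q1 ndF4q2 pcF3 Cut.none Ext.none :=
  certF2 (fam := true) (s1 := true) (s2 := false) (a := 1) (b := 2) (c := 3) (cn := .npn) (n1 := ndF4q1) (n2 := ndF4q2) (pc := pcF3) (cut := Cut.none) (xt := Ext.none) (P1 := 536870912) (W1 := 536870912) (P2 := 1073741824) (W2 := 536870912) (P3 := 469762048) (W3 := 67108864)
    rfl (fun _ => rfl) k0_pm_123

noncomputable def f_pm_133 : ℕ → ℕ → ℕ → ℕ → Bool := onCell 536870912 536870912 0 1230186008 469762048 67108864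
    (rowF 0 true true false .dn 1 3 3 (qsf 536870912 536870912 0 1230186008 3) ndF4q1 ndF4q3 pcF3 Cut.none Ext.none)

def k0_pm_133 : ∃ t, chk3 f_pm_133 t 1 1 1 = true :=
  ⟨(b (l 2) (b (l 2) (l 4))), by decide +kernel⟩

theorem c_pm_133 : CertF 536870912 536870912 0 1230186008 469762048 67108864 true true false .dn 1 3 3
    ndF4q1 ndF4q3 pcF3 Cut.none Ext.none :=
  certF0 (fam := true) (s1 := true) (s2 := false) (a := 1) (b := 3) (c := 3) (cn := .dn) (n1 := ndF4q1) (n2 := ndF4q3) (pc := pcF3) (cut := Cut.none) (xt := Ext.none) (P1 := 536870912) (W1 := 536870912) (P2 := 0) (W2 := 1230186008) (P3 := 469762048) (W3 := 67108864)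
    rfl k0_pm_133

noncomputable def f_pm_202 : ℕ → ℕ → ℕ → ℕ → Bool := onCell 1073741824 536870912 1073741824 536870912 469762048 67108864
    (rowF 1 true true false .pp 2 0 2 (qsf 1073741824 536870912 0 536870912 2) ndF4q2 ndF4q0 pcF2 Cut.none Ext.none)

def k0_pm_202 : ∃ t, chk3 f_pm_202 t 1 1 1 = true :=
  ⟨(a (b (b (b (l 3) (a (b (l 3) (a (l 17020704) (l 16969128))) (b (l 1) (a (l 16880112) (l 1))))) (b (b (b (a (a (l 17032288) (l 16974720)) (l 17046656)) (b (a (l 17003744) (l 16917592)) (a (b (l 17005920) (b (l 17007088) (l 17007912))) (l 16920200)))) (a (l 17017256) (l 16882640))) (a (l 17048856) (l 16933328)))) (b (a (l 17157464) (l 16964824)) (a (l 17450928) (l 17059688)))) (b (b (l 1) (a (b (l 1) (l 16767336)) (l 1))) (b (a (l 16832704) (l 412350198887)) (a (l 16906720) (b (l 16840952) (l 16846592)))))), by decide +kernel⟩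

theorem c_pm_202 : CertF 1073741824 536870912 0 536870912 469762048 67108864 true true false .pp 2 0 2
    ndF4q2 ndF4q0 pcF2 Cut.none Ext.none :=
  certF1 (fam := true) (s1 := true) (s2 := false) (a := 2) (b := 0) (c := 2) (cn := .pp) (n1 := ndF4q2) (n2 := ndF4q0) (pc := pcF2) (cut := Cut.none) (xt := Ext.none) (P1 := 1073741824) (W1 := 536870912) (P2 := 0) (W2 := 536870912) (P3 := 469762048) (W3 := 67108864)
    rfl (fun _ => rfl) k0_pm_202

noncomputable def f_pm_203 : ℕ → ℕ → ℕ → ℕ → Bool := onCell 1073741824 536870912 1610612736 536870912 469762048 67108864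
    (rowF 1 true true false .up 2 0 3 (qsf 1073741824 536870912 0 536870912 3) ndF4q2 ndF4q0 pcF3 Cut.none Ext.none)

def k0_pm_203 : ∃ t, chk3 f_pm_203 t 1 1 1 = true :=
  ⟨(a (b (b (a (l 17649736) (l 17254176)) (a (l 17604632) (l 17479648))) (a (l 2) (b (l 17269144) (l 2)))) (b (b (a (l 16982904) (l 16871280)) (a (l 17162464) (l 16923952))) (b (a (l 17185752) (l 16935120)) (b (a (l 16920152) (l 16805888)) (a (l 2) (l 16788416)))))), by decide +kernel⟩

theorem c_pm_203 : CertF 1073741824 536870912 0 536870912 469762048 67108864 true true false .up 2 0 3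
    ndF4q2 ndF4q0 pcF3 Cut.none Ext.none :=
  certF1 (fam := true) (s1 := true) (s2 := false) (a := 2) (b := 0) (c := 3) (cn := .up) (n1 := ndF4q2) (n2 := ndF4q0) (pc := pcF3) (cut := Cut.none) (xt := Ext.none) (P1 := 1073741824) (W1 := 536870912) (P2 := 0) (W2 := 536870912) (P3 := 469762048) (W3 := 67108864)
    rfl (fun _ => rfl) k0_pm_203

noncomputable def f_pm_213 : ℕ → ℕ → ℕ → ℕ → Bool := onCell 1073741824 536870912 1610612736 536870912 469762048 67108864
    (rowF 1 true true false .pnn 2 1 3 (qsf 1073741824 536870912 536870912 536870912 3) ndF4q2 ndF4q1 pcF3 Cut.none Ext.none)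

def k0_pm_213 : ∃ t, chk3 f_pm_213 t 1 1 1 = true :=
  ⟨(a (b (b (a (l 17606368) (l 17236728)) (l 17620448)) (b (a (l 17316016) (l 17224880)) (b (l 17038432) (b (l 16905648) (a (l 16822696) (l 16790456)))))) (b (b (l 1) (l 17143320)) (b (a (l 17142424) (l 16945080)) (b (l 16872640) (b (l 16770640) (l 16783616)))))), by decide +kernel⟩

theorem c_pm_213 : CertF 1073741824 536870912 536870912 536870912 469762048 67108864 true true false .pnn 2 1 3
    ndF4q2 ndF4q1 pcF3 Cut.none Ext.none :=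
  certF1 (fam := true) (s1 := true) (s2 := false) (a := 2) (b := 1) (c := 3) (cn := .pnn) (n1 := ndF4q2) (n2 := ndF4q1) (pc := pcF3) (cut := Cut.none) (xt := Ext.none) (P1 := 1073741824) (W1 := 536870912) (P2 := 536870912) (W2 := 536870912) (P3 := 469762048) (W3 := 67108864)
    rfl (fun _ => rfl) k0_pm_213

noncomputable def f_pm_303 : ℕ → ℕ → ℕ → ℕ → Bool := onCell 0 1230186008 1610612736 536870912 469762048 67108864
    (rowF 1 true true false .npn 3 0 3 (qsf 0 1230186008 0 536870912 3) ndF4q3 ndF4q0 pcF3 Cut.none Ext.none)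

def k0_pm_303 : ∃ t, chk3 f_pm_303 t 1 1 1 = true :=
  ⟨(a (b (l 1) (l 4)) (a (b (b (l 1) (l 16838672)) (l 4)) (b (b (a (l 1) (a (l 16808056) (l 16827056))) (a (l 16789336) (l 16824824))) (b (a (l 16786536) (l 16802672)) (b (l 16785032) (l 4)))))), by decide +kernel⟩

theorem c_pm_303 : CertF 0 1230186008 0 536870912 469762048 67108864 true true false .npn 3 0 3
    ndF4q3 ndF4q0 pcF3 Cut.none Ext.none :=
  certF1 (fam := true) (s1 := true) (s2 := false) (a := 3) (b := 0) (c := 3) (cn := .npn) (n1 := ndF4q3) (n2 := ndF4q0) (pc := pcF3) (cut := Cut.none) (xt := Ext.none) (P1 := 0) (W1 := 1230186008) (P2 := 0) (W2 := 536870912) (P3 := 469762048) (W3 := 67108864)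
    rfl (fun _ => rfl) k0_pm_303

noncomputable def f_pm_313 : ℕ → ℕ → ℕ → ℕ → Bool := onCell 0 1230186008 536870912 536870912 469762048 67108864
    (rowF 0 true true false .dn 3 1 3 (qsf 0 1230186008 536870912 536870912 3) ndF4q3 ndF4q1 pcF3 Cut.none Ext.none)

def k0_pm_313 : ∃ t, chk3 f_pm_313 t 1 1 1 = true :=
  ⟨(a (l 2) (a (l 2) (l 4))), by decide +kernel⟩

theorem c_pm_313 : CertF 0 1230186008 536870912 536870912 469762048 67108864 true true false .dn 3 1 3
    ndF4q3 ndF4q1 pcF3 Cut.none Ext.none :=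
  certF0 (fam := true) (s1 := true) (s2 := false) (a := 3) (b := 1) (c := 3) (cn := .dn) (n1 := ndF4q3) (n2 := ndF4q1) (pc := pcF3) (cut := Cut.none) (xt := Ext.none) (P1 := 0) (W1 := 1230186008) (P2 := 536870912) (W2 := 536870912) (P3 := 469762048) (W3 := 67108864)
    rfl k0_pm_313

noncomputable def f_mm_001 : ℕ → ℕ → ℕ → ℕ → Bool := onCell 0 536870912 0 536870912 469762048 67108864
    (rowF 0 true false false .up 0 0 1 (qsf 0 536870912 0 536870912 1) ndF4q0 ndF4q0 pcF1 Cut.none Ext.none)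

def k0_mm_001 : ∃ t, chk3 f_mm_001 t 1 1 1 = true :=
  ⟨(l 4), by decide +kernel⟩

theorem c_mm_001 : CertF 0 536870912 0 536870912 469762048 67108864 true false false .up 0 0 1
    ndF4q0 ndF4q0 pcF1 Cut.none Ext.none :=
  certF0 (fam := true) (s1 := false) (s2 := false) (a := 0) (b := 0) (c := 1) (cn := .up) (n1 := ndF4q0) (n2 := ndF4q0) (pc := pcF1) (cut := Cut.none) (xt := Ext.none) (P1 := 0) (W1 := 536870912) (P2 := 0) (W2 := 536870912) (P3 := 469762048) (W3 := 67108864)
    rfl k0_mm_001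

noncomputable def f_mm_011 : ℕ → ℕ → ℕ → ℕ → Bool := onCell 0 536870912 536870912 536870912 469762048 67108864
    (rowF 0 true false false .pnn 0 1 1 (qsf 0 536870912 536870912 536870912 1) ndF4q0 ndF4q1 pcF1 Cut.none Ext.none)

def k0_mm_011 : ∃ t, chk3 f_mm_011 t 1 1 1 = true :=
  ⟨(l 4), by decide +kernel⟩

theorem c_mm_011 : CertF 0 536870912 536870912 536870912 469762048 67108864 true false false .pnn 0 1 1
    ndF4q0 ndF4q1 pcF1 Cut.none Ext.none :=
  certF0 (fam := true) (s1 := false) (s2 := false) (a := 0) (b := 1) (c := 1) (cn := .pnn) (n1 := ndF4q0) (n2 := ndF4q1) (pc := pcF1) (cut := Cut.none) (xt := Ext.none) (P1 := 0) (W1 := 536870912) (P2 := 536870912) (W2 := 536870912) (P3 := 469762048) (W3 := 67108864)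
    rfl k0_mm_011

noncomputable def f_mm_012 : ℕ → ℕ → ℕ → ℕ → Bool := onCell 0 536870912 536870912 536870912 469762048 67108864
    (rowF 0 true false false .pnp 0 1 2 (qsf 0 536870912 536870912 536870912 2) ndF4q0 ndF4q1 pcF2 Cut.none Ext.none)

def k0_mm_012 : ∃ t, chk3 f_mm_012 t 1 1 1 = true :=
  ⟨(l 4), by decide +kernel⟩

theorem c_mm_012 : CertF 0 536870912 536870912 536870912 469762048 67108864 true false false .pnp 0 1 2
    ndF4q0 ndF4q1 pcF2 Cut.none Ext.none :=
  certF0 (fam := true) (s1 := false) (s2 := false) (a := 0) (b := 1) (c := 2) (cn := .pnp) (n1 := ndF4q0) (n2 := ndF4q1) (pc := pcF2) (cut := Cut.none) (xt := Ext.none) (P1 := 0) (W1 := 536870912) (P2 := 536870912) (W2 := 536870912) (P3 := 469762048) (W3 := 67108864)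
    rfl k0_mm_012

noncomputable def f_mm_022 : ℕ → ℕ → ℕ → ℕ → Bool := onCell 0 536870912 1073741824 536870912 469762048 67108864
    (rowF 0 true false false .pp 0 2 2 (qsf 0 536870912 1073741824 536870912 2) ndF4q0 ndF4q2 pcF2 Cut.none Ext.none)

def k0_mm_022 : ∃ t, chk3 f_mm_022 t 1 1 1 = true :=
  ⟨(l 4), by decide +kernel⟩

theorem c_mm_022 : CertF 0 536870912 1073741824 536870912 469762048 67108864 true false false .pp 0 2 2
    ndF4q0 ndF4q2 pcF2 Cut.none Ext.none :=
  certF0 (fam := true) (s1 := false) (s2 := false) (a := 0) (b := 2) (c := 2) (cn := .pp) (n1 := ndF4q0) (n2 := ndF4q2) (pc := pcF2) (cut := Cut.none) (xt := Ext.none) (P1 := 0) (W1 := 536870912) (P2 := 1073741824) (W2 := 536870912) (P3 := 469762048) (W3 := 67108864)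
    rfl k0_mm_022

noncomputable def f_mm_023 : ℕ → ℕ → ℕ → ℕ → Bool := onCell 0 536870912 1073741824 536870912 469762048 67108864
    (rowF 0 true false false .up 0 2 3 (qsf 0 536870912 1073741824 536870912 3) ndF4q0 ndF4q2 pcF3 Cut.none Ext.none)

def k0_mm_023 : ∃ t, chk3 f_mm_023 t 1 1 1 = true :=
  ⟨(l 4), by decide +kernel⟩

theorem c_mm_023 : CertF 0 536870912 1073741824 536870912 469762048 67108864 true false false .up 0 2 3
    ndF4q0 ndF4q2 pcF3 Cut.none Ext.none :=
  certF0 (fam := true) (s1 := false) (s2 := false) (a := 0) (b := 2) (c := 3) (cn := .up) (n1 := ndF4q0) (n2 := ndF4q2) (pc := pcF3) (cut := Cut.none) (xt := Ext.none) (P1 := 0) (W1 := 536870912) (P2 := 1073741824) (W2 := 536870912) (P3 := 469762048) (W3 := 67108864)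
    rfl k0_mm_023

noncomputable def f_mm_033 : ℕ → ℕ → ℕ → ℕ → Bool := onCell 0 536870912 0 1230186008 469762048 67108864
    (rowF 0 true false false .pnn 0 3 3 (qsf 0 536870912 0 1230186008 3) ndF4q0 ndF4q3 pcF3 Cut.none Ext.none)

def k0_mm_033 : ∃ t, chk3 f_mm_033 t 1 1 1 = true :=
  ⟨(l 4), by decide +kernel⟩

theorem c_mm_033 : CertF 0 536870912 0 1230186008 469762048 67108864 true false false .pnn 0 3 3
    ndF4q0 ndF4q3 pcF3 Cut.none Ext.none :=
  certF0 (fam := true) (s1 := false) (s2 := false) (a := 0) (b := 3) (c := 3) (cn := .pnn) (n1 := ndF4q0) (n2 := ndF4q3) (pc := pcF3) (cut := Cut.none) (xt := Ext.none) (P1 := 0) (W1 := 536870912) (P2 := 0) (W2 := 1230186008) (P3 := 469762048) (W3 := 67108864)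
    rfl k0_mm_033

noncomputable def f_mm_101 : ℕ → ℕ → ℕ → ℕ → Bool := onCell 536870912 536870912 0 536870912 469762048 67108864
    (rowF 0 true false false .npn 1 0 1 (qsf 536870912 536870912 0 536870912 1) ndF4q1 ndF4q0 pcF1 Cut.none Ext.none)

def k0_mm_101 : ∃ t, chk3 f_mm_101 t 1 1 1 = true :=
  ⟨(l 4), by decide +kernel⟩

theorem c_mm_101 : CertF 536870912 536870912 0 536870912 469762048 67108864 true false false .npn 1 0 1
    ndF4q1 ndF4q0 pcF1 Cut.none Ext.none :=
  certF0 (fam := true) (s1 := false) (s2 := false) (a := 1) (b := 0) (c := 1) (cn := .npn) (n1 := ndF4q1) (n2 := ndF4q0) (pc := pcF1) (cut := Cut.none) (xt := Ext.none) (P1 := 536870912) (W1 := 536870912) (P2 := 0) (W2 := 536870912) (P3 := 469762048) (W3 := 67108864)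
    rfl k0_mm_101

noncomputable def f_mm_102 : ℕ → ℕ → ℕ → ℕ → Bool := onCell 536870912 536870912 0 536870912 469762048 67108864
    (rowF 0 true false false .npp 1 0 2 (qsf 536870912 536870912 0 536870912 2) ndF4q1 ndF4q0 pcF2 Cut.none Ext.none)

def k0_mm_102 : ∃ t, chk3 f_mm_102 t 1 1 1 = true :=
  ⟨(l 4), by decide +kernel⟩

theorem c_mm_102 : CertF 536870912 536870912 0 536870912 469762048 67108864 true false false .npp 1 0 2
    ndF4q1 ndF4q0 pcF2 Cut.none Ext.none :=
  certF0 (fam := true) (s1 := false) (s2 := false) (a := 1) (b := 0) (c := 2) (cn := .npp) (n1 := ndF4q1) (n2 := ndF4q0) (pc := pcF2) (cut := Cut.none) (xt := Ext.none) (P1 := 536870912) (W1 := 536870912) (P2 := 0) (W2 := 536870912) (P3 := 469762048) (W3 := 67108864)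
    rfl k0_mm_102

noncomputable def f_mm_112 : ℕ → ℕ → ℕ → ℕ → Bool := onCell 536870912 536870912 536870912 536870912 469762048 67108864
    (rowF 0 true false false .dn 1 1 2 (qsf 536870912 536870912 536870912 536870912 2) ndF4q1 ndF4q1 pcF2 Cut.none Ext.none)

def k0_mm_112 : ∃ t, chk3 f_mm_112 t 1 1 1 = true :=
  ⟨(l 4), by decide +kernel⟩

theorem c_mm_112 : CertF 536870912 536870912 536870912 536870912 469762048 67108864 true false false .dn 1 1 2
    ndF4q1 ndF4q1 pcF2 Cut.none Ext.none :=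
  certF0 (fam := true) (s1 := false) (s2 := false) (a := 1) (b := 1) (c := 2) (cn := .dn) (n1 := ndF4q1) (n2 := ndF4q1) (pc := pcF2) (cut := Cut.none) (xt := Ext.none) (P1 := 536870912) (W1 := 536870912) (P2 := 536870912) (W2 := 536870912) (P3 := 469762048) (W3 := 67108864)
    rfl k0_mm_112

noncomputable def f_mm_113 : ℕ → ℕ → ℕ → ℕ → Bool := onCell 536870912 536870912 536870912 536870912 469762048 67108864
    (rowF 0 true false false .nn 1 1 3 (qsf 536870912 536870912 536870912 536870912 3) ndF4q1 ndF4q1 pcF3 Cut.none Ext.none)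

def k0_mm_113 : ∃ t, chk3 f_mm_113 t 1 1 1 = true :=
  ⟨(l 4), by decide +kernel⟩

theorem c_mm_113 : CertF 536870912 536870912 536870912 536870912 469762048 67108864 true false false .nn 1 1 3
    ndF4q1 ndF4q1 pcF3 Cut.none Ext.none :=
  certF0 (fam := true) (s1 := false) (s2 := false) (a := 1) (b := 1) (c := 3) (cn := .nn) (n1 := ndF4q1) (n2 := ndF4q1) (pc := pcF3) (cut := Cut.none) (xt := Ext.none) (P1 := 536870912) (W1 := 536870912) (P2 := 536870912) (W2 := 536870912) (P3 := 469762048) (W3 := 67108864)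
    rfl k0_mm_113

noncomputable def f_mm_123 : ℕ → ℕ → ℕ → ℕ → Bool := onCell 536870912 536870912 1073741824 536870912 469762048 67108864
    (rowF 0 true false false .npn 1 2 3 (qsf 536870912 536870912 1073741824 536870912 3) ndF4q1 ndF4q2 pcF3 Cut.none Ext.none)

def k0_mm_123 : ∃ t, chk3 f_mm_123 t 1 1 1 = true :=
  ⟨(l 4), by decide +kernel⟩

theorem c_mm_123 : CertF 536870912 536870912 1073741824 536870912 469762048 67108864 true false false .npn 1 2 3
    ndF4q1 ndF4q2 pcF3 Cut.none Ext.none :=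
  certF0 (fam := true) (s1 := false) (s2 := false) (a := 1) (b := 2) (c := 3) (cn := .npn) (n1 := ndF4q1) (n2 := ndF4q2) (pc := pcF3) (cut := Cut.none) (xt := Ext.none) (P1 := 536870912) (W1 := 536870912) (P2 := 1073741824) (W2 := 536870912) (P3 := 469762048) (W3 := 67108864)
    rfl k0_mm_123

noncomputable def f_mm_133 : ℕ → ℕ → ℕ → ℕ → Bool := onCell 536870912 536870912 0 1230186008 469762048 67108864
    (rowF 0 true false false .dn 1 3 3 (qsf 536870912 536870912 0 1230186008 3) ndF4q1 ndF4q3 pcF3 Cut.none Ext.none)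

def k0_mm_133 : ∃ t, chk3 f_mm_133 t 1 1 1 = true :=
  ⟨(l 4), by decide +kernel⟩

theorem c_mm_133 : CertF 536870912 536870912 0 1230186008 469762048 67108864 true false false .dn 1 3 3
    ndF4q1 ndF4q3 pcF3 Cut.none Ext.none :=
  certF0 (fam := true) (s1 := false) (s2 := false) (a := 1) (b := 3) (c := 3) (cn := .dn) (n1 := ndF4q1) (n2 := ndF4q3) (pc := pcF3) (cut := Cut.none) (xt := Ext.none) (P1 := 536870912) (W1 := 536870912) (P2 := 0) (W2 := 1230186008) (P3 := 469762048) (W3 := 67108864)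
    rfl k0_mm_133

noncomputable def f_mm_202 : ℕ → ℕ → ℕ → ℕ → Bool := onCell 1073741824 536870912 0 536870912 469762048 67108864
    (rowF 0 true false false .pp 2 0 2 (qsf 1073741824 536870912 0 536870912 2) ndF4q2 ndF4q0 pcF2 Cut.none Ext.none)

def k0_mm_202 : ∃ t, chk3 f_mm_202 t 1 1 1 = true :=
  ⟨(l 4), by decide +kernel⟩

theorem c_mm_202 : CertF 1073741824 536870912 0 536870912 469762048 67108864 true false false .pp 2 0 2
    ndF4q2 ndF4q0 pcF2 Cut.none Ext.none :=
  certF0 (fam := true) (s1 := false) (s2 := false) (a := 2) (b := 0) (c := 2) (cn := .pp) (n1 := ndF4q2) (n2 := ndF4q0) (pc := pcF2) (cut := Cut.none) (xt := Ext.none) (P1 := 1073741824) (W1 := 536870912) (P2 := 0) (W2 := 536870912) (P3 := 469762048) (W3 := 67108864)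
    rfl k0_mm_202

noncomputable def f_mm_203 : ℕ → ℕ → ℕ → ℕ → Bool := onCell 1073741824 536870912 0 536870912 469762048 67108864
    (rowF 0 true false false .up 2 0 3 (qsf 1073741824 536870912 0 536870912 3) ndF4q2 ndF4q0 pcF3 Cut.none Ext.none)

def k0_mm_203 : ∃ t, chk3 f_mm_203 t 1 1 1 = true :=
  ⟨(l 4), by decide +kernel⟩

theorem c_mm_203 : CertF 1073741824 536870912 0 536870912 469762048 67108864 true false false .up 2 0 3
    ndF4q2 ndF4q0 pcF3 Cut.none Ext.none :=
  certF0 (fam := true) (s1 := false) (s2 := false) (a := 2) (b := 0) (c := 3) (cn := .up) (n1 := ndF4q2) (n2 := ndF4q0) (pc := pcF3) (cut := Cut.none) (xt := Ext.none) (P1 := 1073741824) (W1 := 536870912) (P2 := 0) (W2 := 536870912) (P3 := 469762048) (W3 := 67108864)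
    rfl k0_mm_203

noncomputable def f_mm_213 : ℕ → ℕ → ℕ → ℕ → Bool := onCell 1073741824 536870912 536870912 536870912 469762048 67108864
    (rowF 0 true false false .pnn 2 1 3 (qsf 1073741824 536870912 536870912 536870912 3) ndF4q2 ndF4q1 pcF3 Cut.none Ext.none)

def k0_mm_213 : ∃ t, chk3 f_mm_213 t 1 1 1 = true :=
  ⟨(l 4), by decide +kernel⟩

theorem c_mm_213 : CertF 1073741824 536870912 536870912 536870912 469762048 67108864 true false false .pnn 2 1 3
    ndF4q2 ndF4q1 pcF3 Cut.none Ext.none :=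
  certF0 (fam := true) (s1 := false) (s2 := false) (a := 2) (b := 1) (c := 3) (cn := .pnn) (n1 := ndF4q2) (n2 := ndF4q1) (pc := pcF3) (cut := Cut.none) (xt := Ext.none) (P1 := 1073741824) (W1 := 536870912) (P2 := 536870912) (W2 := 536870912) (P3 := 469762048) (W3 := 67108864)
    rfl k0_mm_213

noncomputable def f_mm_303 : ℕ → ℕ → ℕ → ℕ → Bool := onCell 0 1230186008 0 536870912 469762048 67108864
    (rowF 0 true false false .npn 3 0 3 (qsf 0 1230186008 0 536870912 3) ndF4q3 ndF4q0 pcF3 Cut.none Ext.none)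

def k0_mm_303 : ∃ t, chk3 f_mm_303 t 1 1 1 = true :=
  ⟨(l 4), by decide +kernel⟩

theorem c_mm_303 : CertF 0 1230186008 0 536870912 469762048 67108864 true false false .npn 3 0 3
    ndF4q3 ndF4q0 pcF3 Cut.none Ext.none :=
  certF0 (fam := true) (s1 := false) (s2 := false) (a := 3) (b := 0) (c := 3) (cn := .npn) (n1 := ndF4q3) (n2 := ndF4q0) (pc := pcF3) (cut := Cut.none) (xt := Ext.none) (P1 := 0) (W1 := 1230186008) (P2 := 0) (W2 := 536870912) (P3 := 469762048) (W3 := 67108864)
    rfl k0_mm_303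

noncomputable def f_mm_313 : ℕ → ℕ → ℕ → ℕ → Bool := onCell 0 1230186008 536870912 536870912 469762048 67108864
    (rowF 0 true false false .dn 3 1 3 (qsf 0 1230186008 536870912 536870912 3) ndF4q3 ndF4q1 pcF3 Cut.none Ext.none)

def k0_mm_313 : ∃ t, chk3 f_mm_313 t 1 1 1 = true :=
  ⟨(l 4), by decide +kernel⟩

theorem c_mm_313 : CertF 0 1230186008 536870912 536870912 469762048 67108864 true false false .dn 3 1 3
    ndF4q3 ndF4q1 pcF3 Cut.none Ext.none :=
  certF0 (fam := true) (s1 := false) (s2 := false) (a := 3) (b := 1) (c := 3) (cn := .dn) (n1 := ndF4q3) (n2 := ndF4q1) (pc := pcF3) (cut := Cut.none) (xt := Ext.none) (P1 := 0) (W1 := 1230186008) (P2 := 536870912) (W2 := 536870912) (P3 := 469762048) (W3 := 67108864)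
    rfl k0_mm_313

end Pool.Agent.Strip051.G.I7_16_1_2.Tab.C.FA44

namespace Pool.Agent.Strip051.G.I7_16_1_2.Tab.C.FB00

open Pool.Agent.Strip051.PB Pool.Agent.Strip051.PB.T
open Pool.Agent.Strip051.G.I7_16_1_2.Tab

noncomputable def cut_pp_001 : Cut := Cut.of [[⟨3, 0, 0, 1449551462⟩], [⟨4, 0, 0, 2845415833⟩]]

noncomputable def f_pp_001 : ℕ → ℕ → ℕ → ℕ → Bool := onCell 0 536870912 536870912 536870912 469762048 67108864
    (rowF 0 false true true .up 0 0 1 (qsf 0 536870912 536870912 536870912 0) ndF0q0 ndF0q1 pcF0 cut_pp_001 Ext.none)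

def k0_pp_001 : ∃ t, chk3 f_pp_001 t 1 1 1 = true :=
  ⟨(l 6), by decide +kernel⟩

theorem c_pp_001 : CertF 0 536870912 536870912 536870912 469762048 67108864 false true true .up 0 0 1
    ndF0q0 ndF0q1 pcF0 cut_pp_001 Ext.none :=
  certF0 (fam := false) (s1 := true) (s2 := true) (a := 0) (b := 0) (c := 1) (cn := .up) (n1 := ndF0q0) (n2 := ndF0q1) (pc := pcF0) (cut := cut_pp_001) (xt := Ext.none) (P1 := 0) (W1 := 536870912) (P2 := 536870912) (W2 := 536870912) (P3 := 469762048) (W3 := 67108864)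
    rfl k0_pp_001

noncomputable def cut_pp_011 : Cut := Cut.of [[⟨3, 0, 0, 1449551462⟩], [⟨4, 0, 0, 2845415833⟩], [⟨0, 0, 0, 67108864⟩, ⟨1, 1, 0, 67108864⟩, ⟨2, 1, 0, 67108864⟩]]

noncomputable def f_pp_011 : ℕ → ℕ → ℕ → ℕ → Bool := onCell 0 536870912 536870912 536870912 469762048 67108864
    (rowF 0 false true true .pnn 0 1 1 (qsf 0 536870912 536870912 536870912 1) ndF0q0 ndF0q1 pcF1 cut_pp_011 Ext.none)

def k0_pp_011 : ∃ t, chk3 f_pp_011 t 1 1 1 = true :=
  ⟨(l 6), by decide +kernel⟩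

theorem c_pp_011 : CertF 0 536870912 536870912 536870912 469762048 67108864 false true true .pnn 0 1 1
    ndF0q0 ndF0q1 pcF1 cut_pp_011 Ext.none :=
  certF0 (fam := false) (s1 := true) (s2 := true) (a := 0) (b := 1) (c := 1) (cn := .pnn) (n1 := ndF0q0) (n2 := ndF0q1) (pc := pcF1) (cut := cut_pp_011) (xt := Ext.none) (P1 := 0) (W1 := 536870912) (P2 := 536870912) (W2 := 536870912) (P3 := 469762048) (W3 := 67108864)
    rfl k0_pp_011

noncomputable def cut_pp_012 : Cut := Cut.of [[⟨3, 0, 0, 1449551462⟩], [⟨4, 0, 0, 2845415833⟩], [⟨0, 0, 0, 67108864⟩, ⟨1, 1, 0, 67108864⟩, ⟨2, 1, 0, 67108864⟩]]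

noncomputable def f_pp_012 : ℕ → ℕ → ℕ → ℕ → Bool := onCell 536870912 536870912 0 536870912 469762048 67108864
    (rowF 2 false true true .pnp 0 1 2 (qsf 0 536870912 0 536870912 1) ndF0q0 ndF0q2 pcF1 cut_pp_012 Ext.none)

def k0_pp_012 : ∃ t, chk3 f_pp_012 t 1 1 1 = true :=
  ⟨(a (l 6) (b (a (b (b (a (a (l 16753432) (l 16739352)) (a (l 16720976) (l 16698808))) (a (l 6) (a (l 6) (l 16705784)))) (l 6)) (b (a (b (a (l 16673832) (l 16647056)) (a (l 16681776) (l 16655696))) (b (a (l 16619256) (l 16612288)) (a (l 16628232) (l 16621200)))) (a (b (a (l 6) (l 16742528)) (l 6)) (a (b (a (l 16648824) (l 16634928)) (l 6)) (b (a (l 16620864) (l 16606744)) (a (b (l 16634536) (l 6)) (b (l 16620320) (l 16632088)))))))) (l 6))), by decide +kernel⟩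

theorem c_pp_012 : CertF 0 536870912 0 536870912 469762048 67108864 false true true .pnp 0 1 2
    ndF0q0 ndF0q2 pcF1 cut_pp_012 Ext.none :=
  certF2 (fam := false) (s1 := true) (s2 := true) (a := 0) (b := 1) (c := 2) (cn := .pnp) (n1 := ndF0q0) (n2 := ndF0q2) (pc := pcF1) (cut := cut_pp_012) (xt := Ext.none) (P1 := 0) (W1 := 536870912) (P2 := 0) (W2 := 536870912) (P3 := 469762048) (W3 := 67108864)
    rfl (fun _ => rfl) k0_pp_012

noncomputable def cut_pp_022 : Cut := Cut.of [[⟨3, 0, 0, 1449551462⟩], [⟨4, 0, 0, 2845415833⟩], [⟨0, 0, 0, 67108864⟩, ⟨1, 1, 0, 67108864⟩, ⟨2, 1, 0, 67108864⟩]]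

noncomputable def f_pp_022 : ℕ → ℕ → ℕ → ℕ → Bool := onCell 0 536870912 0 536870912 469762048 67108864
    (rowF 0 false true true .pp 0 2 2 (qsf 0 536870912 0 536870912 2) ndF0q0 ndF0q2 pcF2 cut_pp_022 Ext.none)

def k0_pp_022 : ∃ t, chk3 f_pp_022 t 1 1 1 = true :=
  ⟨(a (b (a (b (b (a (a (l 16508952) (l 16521128)) (a (l 16530272) (l 16536512))) (a (a (l 16527640) (l 16538040)) (a (l 16544744) (l 16547984)))) (a (b (a (b (l 16543552) (l 16555120)) (b (l 16552584) (l 16563312))) (a (b (a (l 16565016) (l 16570048)) (a (b (l 16575248) (l 16582456)) (l 16583656))) (b (l 16575224) (l 16609552)))) (b (a (l 16625784) (l 16604824)) (a (a (l 16626888) (l 16605992)) (b (l 16663488) (a (l 16596912) (b (l 16605376) (l 6)))))))) (a (a (b (b (l 16538568) (l 16566752)) (b (b (l 16645424) (a (l 16598000) (l 575021882711))) (a (b (l 212097168375) (l 445099237143)) (l 1)))) (b (b (l 1) (l 1)) (l 1))) (l 1))) (a (b (a (b (a (a (b (b (l 16589880) (a (l 16596144) (l 16598752))) (b (a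 (l 16603960) (l 16606528)) (a (c (l 16618304) (l 16605192)) (l 16614496)))) (b (l 16598216) (b (l 16609752) (l 16617968)))) (a (b (l 16601672) (l 16617696)) (b (l 16604296) (l 16682968)))) (b (a (a (b (a (c (l 16626016) (l 16613944)) (l 16622920)) (l 6)) (l 6)) (l 6)) (l 6))) (b (a (b (l 16678288) (l 6)) (l 6)) (l 6))) (l 6)) (l 6))) (l 1)), by decide +kernel⟩

theorem c_pp_022 : CertF 0 536870912 0 536870912 469762048 67108864 false true true .pp 0 2 2
    ndF0q0 ndF0q2 pcF2 cut_pp_022 Ext.none :=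
  certF0 (fam := false) (s1 := true) (s2 := true) (a := 0) (b := 2) (c := 2) (cn := .pp) (n1 := ndF0q0) (n2 := ndF0q2) (pc := pcF2) (cut := cut_pp_022) (xt := Ext.none) (P1 := 0) (W1 := 536870912) (P2 := 0) (W2 := 536870912) (P3 := 469762048) (W3 := 67108864)
    rfl k0_pp_022

noncomputable def cut_pp_101 : Cut := Cut.of [[⟨3, 0, 0, 1449551462⟩], [⟨4, 0, 0, 2845415833⟩]]

noncomputable def f_pp_101 : ℕ → ℕ → ℕ → ℕ → Bool := onCell 536870912 536870912 536870912 536870912 469762048 67108864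
    (rowF 0 false true true .npn 1 0 1 (qsf 536870912 536870912 536870912 536870912 0) ndF0q1 ndF0q1 pcF0 cut_pp_101 Ext.none)

def k0_pp_101 : ∃ t, chk3 f_pp_101 t 1 1 1 = true :=
  ⟨(l 3), by decide +kernel⟩

theorem c_pp_101 : CertF 536870912 536870912 536870912 536870912 469762048 67108864 false true true .npn 1 0 1
    ndF0q1 ndF0q1 pcF0 cut_pp_101 Ext.none :=
  certF0 (fam := false) (s1 := true) (s2 := true) (a := 1) (b := 0) (c := 1) (cn := .npn) (n1 := ndF0q1) (n2 := ndF0q1) (pc := pcF0) (cut := cut_pp_101) (xt := Ext.none) (P1 := 536870912) (W1 := 536870912) (P2 := 536870912) (W2 := 536870912) (P3 := 469762048) (W3 := 67108864)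
    rfl k0_pp_101

noncomputable def cut_pp_102 : Cut := Cut.of [[⟨3, 0, 0, 1449551462⟩], [⟨4, 0, 0, 2845415833⟩]]

noncomputable def f_pp_102 : ℕ → ℕ → ℕ → ℕ → Bool := onCell 536870912 536870912 0 536870912 469762048 67108864
    (rowF 0 false true true .npp 1 0 2 (qsf 536870912 536870912 0 536870912 0) ndF0q1 ndF0q2 pcF0 cut_pp_102 Ext.none)

def k0_pp_102 : ∃ t, chk3 f_pp_102 t 1 1 1 = true :=
  ⟨(a (l 6) (l 3)), by decide +kernel⟩

theorem c_pp_102 : CertF 536870912 536870912 0 536870912 469762048 67108864 false true true .npp 1 0 2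
    ndF0q1 ndF0q2 pcF0 cut_pp_102 Ext.none :=
  certF0 (fam := false) (s1 := true) (s2 := true) (a := 1) (b := 0) (c := 2) (cn := .npp) (n1 := ndF0q1) (n2 := ndF0q2) (pc := pcF0) (cut := cut_pp_102) (xt := Ext.none) (P1 := 536870912) (W1 := 536870912) (P2 := 0) (W2 := 536870912) (P3 := 469762048) (W3 := 67108864)
    rfl k0_pp_102

noncomputable def cut_pp_112 : Cut := Cut.of [[⟨3, 0, 0, 1449551462⟩], [⟨4, 0, 0, 2845415833⟩]]

noncomputable def f_pp_112 : ℕ → ℕ → ℕ → ℕ → Bool := onCell 536870912 536870912 0 536870912 469762048 67108864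
    (rowF 0 false true true .dn 1 1 2 (qsf 536870912 536870912 0 536870912 1) ndF0q1 ndF0q2 pcF1 cut_pp_112 Ext.none)

def k0_pp_112 : ∃ t, chk3 f_pp_112 t 1 1 1 = true :=
  ⟨(a (l 6) (l 1)), by decide +kernel⟩

theorem c_pp_112 : CertF 536870912 536870912 0 536870912 469762048 67108864 false true true .dn 1 1 2
    ndF0q1 ndF0q2 pcF1 cut_pp_112 Ext.none :=
  certF0 (fam := false) (s1 := true) (s2 := true) (a := 1) (b := 1) (c := 2) (cn := .dn) (n1 := ndF0q1) (n2 := ndF0q2) (pc := pcF1) (cut := cut_pp_112) (xt := Ext.none) (P1 := 536870912) (W1 := 536870912) (P2 := 0) (W2 := 536870912) (P3 := 469762048) (W3 := 67108864)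
    rfl k0_pp_112

noncomputable def cut_pp_202 : Cut := Cut.of [[⟨3, 0, 0, 1449551462⟩], [⟨4, 0, 0, 2845415833⟩]]

noncomputable def f_pp_202 : ℕ → ℕ → ℕ → ℕ → Bool := onCell 0 536870912 0 536870912 469762048 67108864
    (rowF 0 false true true .pp 2 0 2 (qsf 0 536870912 0 536870912 0) ndF0q2 ndF0q2 pcF0 cut_pp_202 Ext.none)

def k0_pp_202 : ∃ t, chk3 f_pp_202 t 1 1 1 = true :=
  ⟨(l 3), by decide +kernel⟩

theorem c_pp_202 : CertF 0 536870912 0 536870912 469762048 67108864 false true true .pp 2 0 2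
    ndF0q2 ndF0q2 pcF0 cut_pp_202 Ext.none :=
  certF0 (fam := false) (s1 := true) (s2 := true) (a := 2) (b := 0) (c := 2) (cn := .pp) (n1 := ndF0q2) (n2 := ndF0q2) (pc := pcF0) (cut := cut_pp_202) (xt := Ext.none) (P1 := 0) (W1 := 536870912) (P2 := 0) (W2 := 536870912) (P3 := 469762048) (W3 := 67108864)
    rfl k0_pp_202

noncomputable def cut_pm_001 : Cut := Cut.of [[⟨3, 0, 0, 1449551462⟩], [⟨4, 0, 0, 2845415833⟩], [⟨0, 0, 1, 33554432⟩, ⟨1, 1, 2, 33554432⟩, ⟨2, 1, 0, 33554432⟩]]

noncomputable def f_pm_001 : ℕ → ℕ → ℕ → ℕ → Bool := onCell 0 536870912 536870912 536870912 469762048 67108864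
    (rowF 0 false true false .up 0 0 1 (qsf 0 536870912 536870912 536870912 0) ndF0q0 ndF0q1 pcF0 cut_pm_001 Ext.none)

def k0_pm_001 : ∃ t, chk3 f_pm_001 t 2 1 1 = true :=
  ⟨(b (l 4) (b (l 14) (l 2))), by decide +kernel⟩

def k1_pm_001 : ∃ t, chk3 f_pm_001 t 3 2 1 = true :=
  ⟨(l 14), by decide +kernel⟩

def k2_pm_001 : ∃ t, chk3 f_pm_001 t 3 6 1 = true :=
  ⟨(a (l 14) (b (l 14) (b (a (l 14) (a (l 14) (b (a (l 14) (c (l 16793720) (l 16755464))) (a (c (l 16777504) (l 16735368)) (c (l 16787656) (l 16744616)))))) (a (a (l 14) (b (l 14) (a (l 14) (l 16714464)))) (a (b (a (l 16730192) (l 16737288)) (a (l 16719216) (l 16726128))) (b (a (l 16746024) (c (l 16780352) (l 16732344))) (a (l 16734944) (c (l 16772096) (l 16718968))))))))), by decide +kernel⟩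

def k3_pm_001 : ∃ t, chk3 f_pm_001 t 6 7 1 = true :=
  ⟨(b (b (l 14) (l 2)) (l 2)), by decide +kernel⟩

def k4_pm_001 : ∃ t, chk3 f_pm_001 t 7 14 1 = true :=
  ⟨(a (a (b (b (a (l 14) (b (l 14) (l 16719696))) (a (b (l 14) (l 2)) (b (a (l 48955765847) (l 16709856)) (a (l 55935114167) (l 52713852311))))) (b (a (l 2) (b (a (l 2) (c (l 53250809479) (b (l 63451290679) (l 2)))) (l 2))) (l 2))) (b (b (a (l 16695448) (l 16706216)) (a (b (l 16705392) (b (l 16707088) (a (l 16711448) (l 16706216)))) (b (l 16703040) (b (l 16682024) (l 16702184))))) (b (a (b (a (c (l 16740376) (l 16695752)) (l 16705400)) (a (l 49492614247) (l 16701624))) (b (l 16680424) (a (l 16699112) (l 16698400)))) (a (b (a (l 2) (l 33386487975)) (l 2)) (b (c (l 16707696) (l 16685008)) (a (l 16705400) (l 16686160))))))) (a (b (b (a (l 16709544) (l 16736512)) (a (b (b (l 16705056) (l 16704248)) (a (l 16702112) (l 16704672))) (b (b (l 16752544) (l 16730192)) (l 16710192)))) (b (a (b (c (l 16735088) (l 16669976))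 (a (l 16699184) (l 16701632))) (b (l 16709944) (a (l 16705824) (l 16711432)))) (a (a (b (l 16695408) (l 16668216)) (b (l 16698248) (l 16703800))) (a (b (l 16702656) (l 16698240)) (b (l 16708808) (l 16704624)))))) (b (b (b (a (l 16726560) (l 16736952)) (a (b (l 16722504) (a (l 16718096) (l 16722880))) (b (a (l 16730248) (l 16757240)) (a (l 16749464) (l 16736304))))) (a (b (a (l 16758416) (l 16723424)) (l 16721632)) (b (l 16755440) (l 16736896)))) (b (a (b (l 16722384) (l 16722112)) (b (l 16738752) (l 16739784))) (a (b (l 16720528) (a (l 16712784) (l 16722240))) (b (l 16739728) (l 16738320))))))), by decide +kernel⟩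

def k5_pm_001 : ∃ t, chk3 f_pm_001 t 14 15 1 = true :=
  ⟨(b (a (l 2) (b (a (l 2) (b (a (l 2) (l 16690544)) (l 2))) (l 2))) (l 2)), by decide +kernel⟩

def k6_pm_001 : ∃ t, chk3 f_pm_001 t 15 30 1 = true :=
  ⟨(a (b (c (a (b (a (l 16719552) (l 16725360)) (a (l 16708272) (l 16716240))) (b (a (l 16731872) (l 16738784)) (a (l 16724680) (l 16733480)))) (a (b (l 16663336) (a (l 16635208) (l 16632296))) (b (a (l 16652088) (l 16659224)) (b (l 16627128) (l 16641936))))) (a (b (a (l 2) (c (l 14596019095) (l 16621200))) (l 2)) (b (c (a (l 16703248) (l 16724840)) (a (l 16624720) (l 16615712))) (a (c (l 16743388967) (l 83315356375)) (b (c (l 16715704) (l 16623728)) (c (l 16687096) (l 16613320))))))) (b (a (b (a (c (l 16746928) (l 16667880)) (b (l 16718960) (l 16716208))) (a (c (l 16742352) (l 16659320)) (c (l 16752344) (l 16712128)))) (b (l 16735264) (a (b (l 16725184) (l 16721912)) (l 16737160)))) (b (b (a (a (l 16695096) (l 16705960)) (a (c (l 16759872) (l 16675840)) (l 16732424)))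 (a (a (c (l 16733808) (l 16645424)) (l 16712520)) (a (c (l 16757032) (l 16670848)) (c (l 16770528) (l 16686152))))) (a (c (a (b (l 16728768) (l 16722664)) (b (l 16741576) (l 16736832))) (a (c (l 16615128) (l 16610384)) (l 16606656))) (b (a (c (l 16753920) (l 16665600)) (c (l 16767288) (l 16680616))) (a (c (l 16750672) (a (l 16656392) (l 16663952))) (b (c (l 16764736) (l 16676336)) (c (l 16763136) (l 16673712))))))))), by decide +kernel⟩

def k7_pm_001 : ∃ t, chk3 f_pm_001 t 15 31 1 = true :=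
  ⟨(a (b (a (l 2) (b (b (a (l 2) (b (c (l 73651742807) (l 16604960)) (l 2))) (l 2)) (l 2))) (l 2)) (b (a (b (a (b (c (b (l 16696752) (l 16715888)) (l 19427684535)) (c (l 47881955063) (l 16597400))) (c (b (b (l 16733088) (l 16731704)) (l 16729544)) (b (l 16597112) (l 16615536)))) (b (a (c (l 44660723127) (l 16615392)) (c (l 23185923143) (l 16613056))) (a (l 2) (c (c (l 16746896) (l 16701192)) (l 16616048))))) (b (b (a (c (l 16747272) (l 16655896)) (c (l 16761224) (l 16671672))) (a (c (l 16744848) (l 16653736)) (c (l 16759320) (l 16670096)))) (c (a (b (l 16742480) (c (l 16762520) (l 16717832))) (b (l 16757344) (l 16755488))) (a (b (l 16609792) (l 16607992)) (b (l 16647560) (l 16604256)))))) (a (b (a (l 2) (a (l 2) (b (b (l 42513163943) (l 2)) (l 2)))) (l 2)) (c (b (a (a (b (l 16713136) (l 46808256231)) (b (l 16742144) (l 50029499799))) (a (b (l 16749960) (l 16706376)) (b (l 16757552) (l 16756088)))) (b (a (a (l 2) (l 47345142663)) (c (l 16772312) (a (l 48418897239) (l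 16733464)))) (a (l 2) (c (a (l 16767104) (l 16774936)) (a (l 55935088647) (b (l 16732800) (l 47345168151))))))) (c (b (a (a (l 41976296135) (b (l 16675360) (l 44123826119))) (b (a (l 16683936) (l 16692280)) (a (l 16682776) (l 16691312)))) (b (a (b (l 57545555031) (l 2)) (a (b (l 16682088) (l 43050098103)) (b (l 16690760) (l 16669520)))) (c (a (l 2) (a (l 61840623671) (b (l 16700936) (a (l 16698600) (l 16702936))))) (l 22)))) (b (a (l 22) (b (l 16601944) (l 22))) (l 22))))))), by decide +kernel⟩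

theorem s8_pm_001 : ∃ t, chk3 f_pm_001 t 15 15 1 = true := ex3_b k6_pm_001 k7_pm_001

theorem s9_pm_001 : ∃ t, chk3 f_pm_001 t 7 15 1 = true := ex3_a k5_pm_001 s8_pm_001

theorem s10_pm_001 : ∃ t, chk3 f_pm_001 t 7 7 1 = true := ex3_b k4_pm_001 s9_pm_001

theorem s11_pm_001 : ∃ t, chk3 f_pm_001 t 3 7 1 = true := ex3_a k3_pm_001 s10_pm_001

theorem s12_pm_001 : ∃ t, chk3 f_pm_001 t 3 3 1 = true := ex3_b k2_pm_001 s11_pm_001

theorem s13_pm_001 : ∃ t, chk3 f_pm_001 t 3 1 1 = true := ex3_b k1_pm_001 s12_pm_001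

theorem s14_pm_001 : ∃ t, chk3 f_pm_001 t 1 1 1 = true := ex3_a k0_pm_001 s13_pm_001

theorem c_pm_001 : CertF 0 536870912 536870912 536870912 469762048 67108864 false true false .up 0 0 1
    ndF0q0 ndF0q1 pcF0 cut_pm_001 Ext.none :=
  certF0 (fam := false) (s1 := true) (s2 := false) (a := 0) (b := 0) (c := 1) (cn := .up) (n1 := ndF0q0) (n2 := ndF0q1) (pc := pcF0) (cut := cut_pm_001) (xt := Ext.none) (P1 := 0) (W1 := 536870912) (P2 := 536870912) (W2 := 536870912) (P3 := 469762048) (W3 := 67108864)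
    rfl s14_pm_001

noncomputable def cut_pm_011 : Cut := Cut.of [[⟨3, 0, 0, 1449551462⟩], [⟨4, 0, 0, 2845415833⟩], [⟨0, 0, 0, 67108864⟩, ⟨1, 1, 0, 67108864⟩, ⟨2, 1, 0, 67108864⟩], [⟨0, 0, 1, 33554432⟩, ⟨1, 1, 2, 33554432⟩, ⟨2, 1, 0, 33554432⟩]]

noncomputable def f_pm_011 : ℕ → ℕ → ℕ → ℕ → Bool := onCell 536870912 536870912 536870912 536870912 469762048 67108864
    (rowF 2 false true false .pnn 0 1 1 (qsf 0 536870912 536870912 536870912 1) ndF0q0 ndF0q1 pcF1 cut_pm_011 Ext.none)

def k0_pm_011 : ∃ t, chk3 f_pm_011 t 2 2 1 = true :=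
  ⟨(l 4), by decide +kernel⟩

def k1_pm_011 : ∃ t, chk3 f_pm_011 t 4 6 1 = true :=
  ⟨(l 14), by decide +kernel⟩

def k2_pm_011 : ∃ t, chk3 f_pm_011 t 8 14 1 = true :=
  ⟨(b (a (b (l 14) (a (a (l 16561472) (l 16566872)) (c (l 16594024) (l 16591040)))) (l 14)) (a (b (b (a (b (a (l 16595376) (l 16534808)) (l 16550024)) (b (l 16555688) (a (l 16533024) (l 16545376)))) (a (c (l 16595320) (l 16513520)) (a (l 16536120) (l 16531208)))) (a (a (b (l 16569712) (l 16582264)) (b (l 16556224) (l 16546456))) (b (c (l 16557464) (l 16532480)) (c (l 16567304) (l 16543264))))) (b (b (a (b (l 16570088) (l 16571776)) (l 14)) (a (a (l 16536224) (l 16561440)) (b (a (l 16567784) (l 14)) (l 16550384)))) (a (b (c (l 16554952) (l 16540024)) (c (l 16565008) (l 16547584))) (b (l 16575936) (c (l 16569704) (l 16553176))))))), by decide +kernel⟩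

def k3_pm_011 : ∃ t, chk3 f_pm_011 t 8 30 1 = true :=
  ⟨(a (b (a (a (b (l 16618880) (c (l 16658352) (l 16576488))) (b (l 16571320) (l 16594000))) (a (b (l 16565920) (l 16592648)) (b (l 16565528) (l 16600624)))) (a (b (a (c (l 16679352) (l 16597552)) (c (l 16661896) (l 16591496))) (a (c (b (l 16696680) (l 16709040)) (l 16621984)) (a (l 16626888) (l 16617072)))) (b (c (a (l 16643944) (l 16625488)) (a (l 16586400) (l 16582224))) (a (c (l 16623656) (l 16605152)) (c (l 16625080) (l 16598744)))))) (b (a (a (b (l 16565840) (l 16598904)) (b (l 16566536) (l 16597920))) (b (c (l 16577912) (l 16559024)) (c (l 16607952) (l 16565680)))) (a (b (c (a (l 16606536) (l 16601480)) (a (l 16578880) (l 16576336))) (c (a (l 16625864) (l 16616704)) (a (l 16593280) (l 16588688)))) (b (c (a (l 16598792) (l 16596576)) (l 16594824)) (c (a (l 16611856) (l 16607848)) (a (l 16584920) (l 16581920))))))), by decide +kernel⟩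

def k4_pm_011 : ∃ t, chk3 f_pm_011 t 16 62 1 = true :=
  ⟨(a (b (b (a (b (c (b (l 16717120) (l 16719120)) (l 16638480)) (l 16617496)) (b (c (l 16678976) (l 16627024)) (l 16619808))) (a (c (l 16722744) (l 16642112)) (c (l 16705080) (l 16629016)))) (b (a (c (l 16726000) (l 16623560)) (c (l 16708384) (l 16629624))) (a (c (l 16708584) (l 16626344)) (c (l 16691040) (l 16630616))))) (b (b (a (b (l 16617552) (a (l 16647128) (l 16636984))) (c (l 16641744) (l 16627784))) (c (l 16635152) (a (l 16620976) (l 16613776)))) (c (a (a (l 16633528) (l 16624096)) (a (l 16635408) (l 16625520))) (a (b (l 16621416) (l 16622248)) (b (l 16614040) (l 16614688)))))), by decide +kernel⟩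

def k5_pm_011 : ∃ t, chk3 f_pm_011 t 16 63 1 = true :=
  ⟨(a (b (a (c (a (b (l 16737624) (l 16741752)) (b (l 16729128) (l 16712352))) (c (b (l 16629232) (l 16632944)) (l 30))) (c (b (c (l 16737296) (l 16694688)) (c (l 16741736) (a (l 16703368) (l 16694224)))) (b (c (l 30) (l 16621896)) (l 30)))) (c (a (b (c (l 16763104) (a (l 16725272) (l 16716672))) (b (c (l 16766720) (a (l 16728696) (l 16720176))) (c (l 16769232) (a (l 16731096) (c (l 16733272) (l 16711968)))))) (b (c (a (l 16750728) (l 16742192)) (a (l 16686864) (c (l 16709624) (l 30)))) (c (a (l 16755760) (l 16726352)) (a (b (l 16711408) (a (l 16716112) (l 16690720))) (c (b (l 16713304) (l 16715872)) (l 30)))))) (a (c (c (a (a (a (b (l 16697232) (l 16701648)) (l 30)) (l 30)) (l 30)) (l 30)) (l 30)) (l 30)))) (b (c (a (b (l 16634736) (c (l 16703080) (a (l 16684848) (l 30)))) (b (l 16636440) (a (l 16635312) (l 16635960)))) (b (a (l 16623488) (l 16615744)) (c (l 30) (a (l 16615056) (l 16607472))))) (c (a (b (c (a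 (l 16733424) (l 16724416)) (a (b (l 16688256) (l 16690656)) (l 30))) (c (a (c (l 16749696) (l 16727592)) (c (l 16740904) (b (l 16717168) (l 16719880)))) (a (a (c (l 16697304) (l 30)) (l 30)) (l 30)))) (c (b (a (l 16715152) (c (l 16717064) (l 30))) (a (b (l 16719136) (a (l 16724232) (l 16698616))) (c (b (l 16721136) (l 16723984)) (l 30)))) (l 30))) (c (l 30) (a (b (a (l 30) (l 16625280)) (l 30)) (b (a (l 16610912) (l 16607208)) (c (l 30) (a (b (l 16607200) (l 30)) (b (l 16603504) (a (l 16615920) (l 16603600))))))))))), by decide +kernel⟩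

def k6_pm_011 : ∃ t, chk3 f_pm_011 t 17 62 1 = true :=
  ⟨(b (a (b (a (c (l 16642240) (l 16605512)) (c (l 16629888) (l 16599600))) (c (l 16636736) (l 16625440))) (a (b (c (l 16623304) (l 16594240)) (l 16643128)) (b (l 16603384) (c (l 16620976) (l 16591920))))) (a (c (a (l 16639096) (l 16640216)) (a (l 16628640) (l 16601696))) (c (a (l 16638944) (l 16643608)) (a (l 16596408) (l 16591776))))), by decide +kernel⟩

def k7_pm_011 : ∃ t, chk3 f_pm_011 t 17 63 1 = true :=
  ⟨(a (b (c (a (a (b (l 16663280) (l 16636344)) (l 30)) (b (l 16637568) (l 30))) (a (b (l 16608752) (c (l 16619432) (l 16600608))) (b (l 16602464) (c (l 16612616) (l 16594432))))) (c (a (a (a (c (b (l 16698336) (c (l 16715408) (l 30))) (l 30)) (l 30)) (l 30)) (l 30)) (b (a (c (a (l 30) (l 16619624)) (a (l 16603672) (l 16600312))) (c (a (l 16616104) (l 16612752)) (a (l 16597112) (l 16594080)))) (a (c (l 30) (b (a (l 16605016) (l 16601568)) (a (c (l 30) (b (l 16600680) (l 16601192))) (c (a (l 16618960) (l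 16606728)) (l 16597520))))) (c (c (l 30) (a (b (l 16612912) (l 30)) (b (l 16609552) (a (l 16616760) (l 16609848))))) (b (a (l 16598288) (l 16595168)) (a (c (b (l 16603912) (l 16604448)) (l 16594264)) (c (l 16600920) (l 16591168))))))))) (b (b (c (a (l 16630720) (l 16624552)) (a (l 16596856) (l 16591880))) (c (c (l 30) (a (l 16624032) (l 16617920))) (a (c (l 16606464) (l 16588904)) (l 16613448)))) (c (c (l 30) (b (a (a (l 30) (l 16624592)) (a (l 16621416) (l 16618392))) (a (l 30) (a (b (l 16633712) (l 30)) (b (l 16641080) (c (l 30) (c (l 30) (l 16619792)))))))) (a (b (c (a (l 16609560) (l 16606536)) (l 16589832)) (c (a (b (l 16611064) (c (l 30) (c (l 16609824) (l 16605024)))) (b (l 16607944) (c (c (l 30) (l 16611400)) (l 16604312)))) (a (b (l 16592208) (c (l 16597824) (l 16588224))) (b (l 16589392) (l 16590144))))) (b (c (a (l 16603656) (l 16600936)) (l 16584680)) (c (a (b (l 16604976) (c (b (l 16610360) (l 16610944)) (l 16601360))) (c (b (l 16606648) (l 16607696)) (l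 16598112))) (a (c (l 16591680) (l 16582472)) (l 16584520)))))))), by decide +kernel⟩

def k8_pm_011 : ∃ t, chk3 f_pm_011 t 9 14 1 = true :=
  ⟨(b (l 14) (a (b (a (b (l 14) (b (l 14) (a (l 16579184) (l 14)))) (l 14)) (a (b (l 16584232) (l 16598344)) (b (b (l 14) (l 16572368)) (l 16615288)))) (b (l 14) (b (l 14) (a (l 16623088) (l 14)))))), by decide +kernel⟩

def k9_pm_011 : ∃ t, chk3 f_pm_011 t 9 30 1 = true :=
  ⟨(a (b (a (b (c (l 16580304) (l 16562568)) (c (l 16586632) (l 16566728))) (b (c (l 16583672) (l 16567056)) (c (l 16587224) (l 16568696)))) (a (b (c (l 16625568) (l 16571960)) (c (a (l 16604344) (l 16601376)) (a (l 16579408) (l 16577408)))) (a (b (l 16581600) (l 16629048)) (b (l 16581152) (l 16606216))))) (a (b (b (c (l 16589160) (l 16573424)) (c (l 16590672) (l 16573184))) (b (c (l 16593136) (l 16573832)) (c (l 16596696) (l 16575520)))) (b (b (l 16588320) (l 16587656)) (b (l 16608824) (l 16620520))))), by decide +kernel⟩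

def k10_pm_011 : ∃ t, chk3 f_pm_011 t 18 62 1 = true :=
  ⟨(b (a (b (c (l 16631288) (l 16584104)) (c (a (l 16616032) (l 16632640)) (a (l 16588128) (l 16584880)))) (b (c (l 16602712) (l 16578624)) (c (a (l 16628704) (b (l 16603728) (l 16604240))) (a (l 16582048) (l 16579568))))) (a (c (a (l 16617464) (l 16612920)) (a (l 16587760) (l 16584336))) (c (a (l 16608704) (l 16604888)) (a (l 16581232) (l 16578520))))), by decide +kernel⟩

def k11_pm_011 : ∃ t, chk3 f_pm_011 t 36 63 1 = true :=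
  ⟨(b (c (a (b (l 16619016) (c (l 16628816) (l 16612432))) (c (b (l 16621704) (l 16623360)) (l 16627992))) (a (c (l 16595720) (l 16579656)) (c (l 16591520) (l 16576024)))) (c (b (a (c (a (l 30) (l 16629680)) (a (l 16615520) (l 16612800))) (c (a (l 16626816) (l 16624104)) (a (l 16610224) (l 16607792)))) (a (c (l 30) (a (b (l 16617144) (c (l 30) (b (l 16613576) (l 16614184)))) (b (l 16614320) (c (b (l 16619584) (c (l 30) (l 16618024))) (l 16621552))))) (c (c (l 30) (a (b (l 16624456) (l 30)) (b (l 16621712) (b (l 16622656) (c (l 30) (l 16621176)))))) (a (b (l 16611648) (c (b (l 16616792) (l 16627896)) (l 16608392))) (b (l 16609112) (c (l 16619672) (l 16605856))))))) (a (b (c (l 16597128) (l 16580112)) (b (c (l 16608696) (l 16580696)) (c (a (c (l 16604880) (l 16595888)) (l 16597792)) (l 16602200)))) (b (c (l 16592544) (l 16576096)) (c (a (c (l 16599256) (l 16590632)) (l 16613632)) (a (l 16577696) (l 16575696))))))), by decide +kernel⟩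

def k12_pm_011 : ∃ t, chk3 f_pm_011 t 37 63 1 = true :=
  ⟨(b (c (a (c (b (l 16617072) (l 16618504)) (l 16602832)) (c (b (l 16612792) (l 16614056)) (l 16598960))) (a (c (l 16587880) (l 16572928)) (l 16598320))) (c (b (a (c (a (l 16621536) (l 16619104)) (l 16604408)) (c (a (l 16616808) (l 16614592)) (l 16600352))) (b (a (c (a (l 16623240) (l 16620696)) (a (l 16606712) (l 16604448))) (c (a (l 16618296) (l 16616032)) (l 16601336))) (a (c (a (c (l 30) (b (l 16620000) (l 16625872))) (b (l 16632088) (c (c (l 30) (l 16624320)) (l 16618072)))) (a (c (l 16611888) (l 16603456)) (l 16615824))) (c (a (c (a (l 16624144) (l 16622904)) (l 16615368)) (c (c (l 16623136) (l 16619120)) (l 16613104))) (a (l 16603136) (l 16601064)))))) (b (a (l 16601528) (l 16598280)) (a (c (a (l 16590504) (l 16588480)) (l 16572928)) (c (a (l 16586576) (l 16584808)) (l 16569704)))))), by decide +kernel⟩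

def k13_pm_011 : ∃ t, chk3 f_pm_011 t 19 31 1 = true :=
  ⟨(b (b (a (b (c (l 16600096) (l 16577504)) (c (a (b (l 16601872) (l 16602856)) (l 16603688)) (a (l 16579032) (l 16580248)))) (b (l 16590656) (c (l 16604104) (l 16581440)))) (a (c (a (l 16603304) (l 16603848)) (a (l 16577728) (l 16578736))) (c (b (l 16603744) (l 16604040)) (l 16579288)))) (a (b (c (a (c (l 16611440) (l 16597392)) (b (l 16604256) (l 16604944))) (a (l 16576344) (l 16577008))) (c (a (b (c (l 16624008) (l 16598520)) (b (c (a (l 16614904) (l 16614832)) (l 16599368)) (c (a (c (l 16625144) (l 16611968)) (c (l 16619768) (l 16611888))) (a (l 16600072) (l 16600064))))) (b (c (l 16613352) (l 16598560)) (c (b (l 16614552) (b (l 16615232) (a (l 16615856) (l 16615544)))) (b (l 16599280) (l 16610360))))) (a (b (l 16576032) (c (a (l 16584016) (l 16584136)) (l 16568400))) (b (l 16576424) (c (l 16584160) (l 16568760)))))) (a (b (c (l 16625464) (l 16577408)) (c (b (c (l 16612824) (l 16598288)) (c (b (l 16613880)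 (c (a (l 16618784) (l 16618296)) (l 16616112))) (b (l 16598856) (l 16609840)))) (b (l 16576544) (c (l 16583952) (l 16568816))))) (b (c (l 16625096) (l 16577624)) (c (b (l 16625864) (b (a (l 16605776) (l 16605312)) (c (a (l 16624424) (l 16613352)) (l 16609064)))) (b (l 16576456) (c (l 16583512) (l 16568672)))))))), by decide +kernel⟩

def k14_pm_011 : ∃ t, chk3 f_pm_011 t 5 6 1 = true :=
  ⟨(l 14), by decide +kernel⟩

def k15_pm_011 : ∃ t, chk3 f_pm_011 t 5 14 1 = true :=
  ⟨(l 14), by decide +kernel⟩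

def k16_pm_011 : ∃ t, chk3 f_pm_011 t 10 15 1 = true :=
  ⟨(b (b (a (a (b (l 16616472) (l 16614328)) (b (l 14) (l 16620296))) (l 14)) (a (a (b (l 16613032) (l 16612656)) (b (l 16617296) (l 16615208))) (b (a (l 16601048) (l 14)) (a (l 16597128) (l 16600640))))) (b (a (b (a (c (l 16602920) (l 16581984)) (c (l 16603080) (l 16583504))) (a (b (c (b (l 16603928) (l 16603896)) (l 16580984)) (l 16612624)) (b (c (b (l 16603688) (l 16602864)) (l 16582072)) (l 16612264)))) (b (a (c (l 16603288) (l 16585224)) (c (l 16603952) (l 16587536))) (b (a (c (b (l 16602352) (l 16601728)) (l 16583144)) (c (b (l 16601648) (l 16601112)) (l 16584216))) (a (l 16611664) (c (l 16599392) (l 16580880)))))) (a (b (a (c (b (l 16603208) (l 16603208)) (b (l 16578328) (l 16577048))) (c (b (l 16601680) (l 16601248)) (l 16577448))) (c (a (b (a (l 16604008) (l 16602944)) (b (a (l 16625488) (l 16603288)) (a (c (c (l 16616064) (l 16608664)) (l 16597592)) (c (l 16610864) (l 16596424))))) (b (c (l 16618144)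 (l 16594592)) (c (a (c (l 16612488) (l 16605512)) (c (l 16610648) (l 16603864))) (a (l 16595080) (l 16593728))))) (a (b (c (l 16582904) (l 16569224)) (a (c (l 16582888) (l 16568376)) (c (l 16582120) (l 16567960)))) (b (l 16575136) (a (l 16595312) (l 16573584)))))) (b (a (c (a (l 16599912) (l 16598824)) (l 16577064)) (c (c (l 16602408) (l 16592056)) (l 16576776))) (a (c (c (b (l 16604464) (a (l 16615896) (l 16603504))) (a (l 16592560) (l 16591216))) (b (l 16574048) (a (l 16572800) (l 16572008)))) (c (c (b (l 16601080) (a (l 16601568) (l 16599616))) (b (l 16589760) (l 16588616))) (b (l 16573024) (l 16570880)))))))), by decide +kernel⟩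

def k17_pm_011 : ∃ t, chk3 f_pm_011 t 11 15 1 = true :=
  ⟨(b (b (l 14) (a (b (l 14) (a (l 16626024) (l 14))) (l 14))) (b (b (a (a (c (l 16605392) (l 16590720)) (c (l 16607752) (l 16594904))) (l 14)) (b (a (a (c (l 16600992) (l 16585392)) (c (l 16601592) (l 16587968))) (a (c (l 16603192) (l 16591624)) (l 14))) (a (a (c (b (l 16598800) (l 16597856)) (l 16581528)) (c (b (l 16598912) (l 16597168)) (l 16583448))) (a (c (b (l 16599456) (l 16596968)) (l 16586376)) (l 14))))) (a (b (a (c (c (l 16599992) (l 16590656)) (l 16576928)) (c (c (l 16598072) (l 16589840)) (l 16577800))) (a (c (c (b (l 16597840) (a (l 16597712) (l 16595896))) (b (l 16587544) (l 16585872))) (l 16571056)) (c (c (b (l 16595080) (a (l 16594232) (l 16592712))) (l 16584776)) (l 16570784)))) (b (b (c (a (l 16594712) (l 16595008)) (l 16603904)) (c (a (l 16591696) (l 16591472)) (l 16599352))) (a (c (c (b (l 16592952) (a (l 16591360) (l 16590192))) (l 16583544)) (l 16571344)) (c (c (b (l 16591560) (a (l 16589208)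 (l 16588440))) (l 16583128)) (l 16572808))))))), by decide +kernel⟩

def k18_pm_011 : ∃ t, chk3 f_pm_011 t 3 1 1 = true :=
  ⟨(b (l 4) (b (l 4) (a (b (l 14) (a (b (l 14) (b (l 14) (a (a (b (a (b (l 14) (l 16589232)) (l 14)) (c (a (a (l 16587736) (l 16590408)) (l 16594432)) (l 16579464))) (b (l 14) (c (a (l 16599808) (l 16605216)) (l 16590720)))) (l 14)))) (l 14))) (l 14)))), by decide +kernel⟩

theorem s19_pm_011 : ∃ t, chk3 f_pm_011 t 5 15 1 = true := ex3_a k16_pm_011 k17_pm_011

theorem s20_pm_011 : ∃ t, chk3 f_pm_011 t 5 7 1 = true := ex3_b k15_pm_011 s19_pm_011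

theorem s21_pm_011 : ∃ t, chk3 f_pm_011 t 5 3 1 = true := ex3_b k14_pm_011 s20_pm_011

theorem s22_pm_011 : ∃ t, chk3 f_pm_011 t 18 63 1 = true := ex3_a k11_pm_011 k12_pm_011

theorem s23_pm_011 : ∃ t, chk3 f_pm_011 t 18 31 1 = true := ex3_b k10_pm_011 s22_pm_011

theorem s24_pm_011 : ∃ t, chk3 f_pm_011 t 9 31 1 = true := ex3_a s23_pm_011 k13_pm_011

theorem s25_pm_011 : ∃ t, chk3 f_pm_011 t 9 15 1 = true := ex3_b k9_pm_011 s24_pm_011

theorem s26_pm_011 : ∃ t, chk3 f_pm_011 t 9 7 1 = true := ex3_b k8_pm_011 s25_pm_011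

theorem s27_pm_011 : ∃ t, chk3 f_pm_011 t 17 31 1 = true := ex3_b k6_pm_011 k7_pm_011

theorem s28_pm_011 : ∃ t, chk3 f_pm_011 t 16 31 1 = true := ex3_b k4_pm_011 k5_pm_011

theorem s29_pm_011 : ∃ t, chk3 f_pm_011 t 8 31 1 = true := ex3_a s28_pm_011 s27_pm_011

theorem s30_pm_011 : ∃ t, chk3 f_pm_011 t 8 15 1 = true := ex3_b k3_pm_011 s29_pm_011

theorem s31_pm_011 : ∃ t, chk3 f_pm_011 t 8 7 1 = true := ex3_b k2_pm_011 s30_pm_011

theorem s32_pm_011 : ∃ t, chk3 f_pm_011 t 4 7 1 = true := ex3_a s31_pm_011 s26_pm_011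

theorem s33_pm_011 : ∃ t, chk3 f_pm_011 t 4 3 1 = true := ex3_b k1_pm_011 s32_pm_011

theorem s34_pm_011 : ∃ t, chk3 f_pm_011 t 2 3 1 = true := ex3_a s33_pm_011 s21_pm_011

theorem s35_pm_011 : ∃ t, chk3 f_pm_011 t 2 1 1 = true := ex3_b k0_pm_011 s34_pm_011

theorem s36_pm_011 : ∃ t, chk3 f_pm_011 t 1 1 1 = true := ex3_a s35_pm_011 k18_pm_011

theorem c_pm_011 : CertF 0 536870912 536870912 536870912 469762048 67108864 false true false .pnn 0 1 1
    ndF0q0 ndF0q1 pcF1 cut_pm_011 Ext.none :=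
  certF2 (fam := false) (s1 := true) (s2 := false) (a := 0) (b := 1) (c := 1) (cn := .pnn) (n1 := ndF0q0) (n2 := ndF0q1) (pc := pcF1) (cut := cut_pm_011) (xt := Ext.none) (P1 := 0) (W1 := 536870912) (P2 := 536870912) (W2 := 536870912) (P3 := 469762048) (W3 := 67108864)
    rfl (fun _ => rfl) s36_pm_011

noncomputable def cut_pm_012 : Cut := Cut.of [[⟨3, 0, 0, 1449551462⟩], [⟨4, 0, 0, 2845415833⟩], [⟨0, 0, 0, 67108864⟩, ⟨1, 1, 0, 67108864⟩, ⟨2, 1, 0, 67108864⟩], [⟨0, 0, 1, 33554432⟩, ⟨1, 1, 2, 33554432⟩, ⟨2, 1, 0, 33554432⟩]]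

noncomputable def f_pm_012 : ℕ → ℕ → ℕ → ℕ → Bool := onCell 536870912 536870912 0 536870912 469762048 67108864
    (rowF 2 false true false .pnp 0 1 2 (qsf 0 536870912 0 536870912 1) ndF0q0 ndF0q2 pcF1 cut_pm_012 Ext.none)

def k0_pm_012 : ∃ t, chk3 f_pm_012 t 2 2 1 = true :=
  ⟨(a (b (l 2) (a (l 2) (b (l 2) (a (l 2) (b (l 2) (l 16880944)))))) (b (a (b (l 6) (a (l 16804784) (l 16799648))) (b (a (l 16778192) (l 16768984)) (a (l 16791672) (l 16781168)))) (a (b (a (l 16829752) (l 16822432)) (a (l 16853704) (b (l 16841320) (l 16831576)))) (b (a (l 16812616) (l 16797416)) (a (b (l 16821512) (l 16792008)) (l 16771680)))))), by decide +kernel⟩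

def k1_pm_012 : ∃ t, chk3 f_pm_012 t 4 6 1 = true :=
  ⟨(a (l 2) (b (a (l 2) (l 16846288)) (a (l 16787048) (l 16750376)))), by decide +kernel⟩

def k2_pm_012 : ∃ t, chk3 f_pm_012 t 8 14 1 = true :=
  ⟨(a (l 2) (b (l 16762248) (l 16717800))), by decide +kernel⟩

def k3_pm_012 : ∃ t, chk3 f_pm_012 t 8 30 1 = true :=
  ⟨(a (b (l 16681392) (a (l 2) (l 16710792))) (a (l 16667432) (l 16657704))), by decide +kernel⟩

def k4_pm_012 : ∃ t, chk3 f_pm_012 t 16 31 1 = true :=
  ⟨(b (a (b (l 16727992) (l 16635648)) (b (l 16695824) (l 16643808))) (b (a (b (l 16629240) (a (l 16633264) (l 16637344))) (a (l 16632376) (l 16634592))) (a (a (c (b (l 16754704) (c (l 16751216) (b (l 16731008) (a (l 16733248) (l 16703888))))) (c (b (l 16692248) (a (b (l 16693368) (c (l 16680784) (l 30))) (l 30))) (l 30))) (c (b (l 16717496) (c (a (l 16760200) (l 16751912)) (b (l 16713944) (a (c (l 16726992) (l 16684488)) (c (l 16718248) (l 30)))))) (l 30))) (a (c (b (l 16679312) (a (c (l 16722416) (b (l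 16700480) (c (l 16709248) (l 30)))) (c (b (l 16735656) (l 16712568)) (l 30)))) (l 30)) (c (c (b (l 16725472) (b (l 16722080) (a (c (l 16735776) (l 16713128)) (c (l 16726568) (l 30))))) (l 30)) (b (l 16627048) (c (l 30) (a (l 30) (a (l 30) (a (l 30) (c (l 30) (l 16605024)))))))))))), by decide +kernel⟩

def k5_pm_012 : ∃ t, chk3 f_pm_012 t 17 31 1 = true :=
  ⟨(b (a (c (l 16655816) (l 16629752)) (b (l 16638024) (l 16631360))) (b (a (c (l 16639760) (l 16619896)) (c (l 16644496) (l 16606232))) (a (b (c (a (l 16641728) (l 30)) (a (l 16619176) (l 16611936))) (a (a (c (b (l 16663808) (c (c (l 16717088) (l 30)) (l 30))) (b (l 16618960) (c (l 30) (c (l 30) (l 16602112))))) (c (l 30) (b (l 16615224) (c (l 30) (c (a (l 30) (l 16607936)) (l 16598648)))))) (c (l 30) (c (a (l 30) (a (l 30) (a (l 30) (c (l 30) (l 16611272))))) (b (l 16600000) (a (a (l 16611672) (l 16599536)) (c (l 16602056) (l 16592208)))))))) (b (c (a (l 30) (l 16636688)) (a (l 16605312) (l 16599264))) (c (a (l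 30) (c (l 30) (b (l 16625456) (a (l 30) (a (l 30) (c (l 30) (l 16617280))))))) (b (a (c (l 16613040) (l 16593784)) (l 16618448)) (a (c (c (a (l 30) (a (l 30) (l 16614176))) (a (l 16613840) (l 16605440))) (a (l 16594056) (l 16591136))) (c (b (l 16605928) (a (c (l 16611536) (l 16602152)) (l 16614400))) (a (l 16588360) (l 16585728)))))))))), by decide +kernel⟩

def k6_pm_012 : ∃ t, chk3 f_pm_012 t 9 14 1 = true :=
  ⟨(a (b (l 16713008) (l 16670752)) (b (l 16683328) (l 16646360))), by decide +kernel⟩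

def k7_pm_012 : ∃ t, chk3 f_pm_012 t 9 30 1 = true :=
  ⟨(a (a (l 16642504) (l 16629104)) (a (l 16620208) (l 16615344))), by decide +kernel⟩

def k8_pm_012 : ∃ t, chk3 f_pm_012 t 9 31 1 = true :=
  ⟨(a (b (a (l 16642144) (l 16651664)) (b (a (c (l 16630696) (l 16594784)) (c (l 16619160) (l 16585456))) (a (b (c (a (l 16630024) (l 16623928)) (a (l 16593784) (l 16588832))) (c (a (c (l 30) (b (l 16619208) (a (b (l 16619856) (c (l 30) (l 16614760))) (c (a (l 30) (l 16620384)) (l 16612168))))) (c (a (l 30) (a (l 30) (a (l 30) (c (l 30) (l 16623632))))) (b (l 16613520) (a (c (b (l 16618496) (l 16617984)) (l 16609440)) (c (l 16615512) (l 16606848)))))) (b (a (l 16592112) (l 16587280)) (a (c (a (l 16611888) (l 16598752)) (l 16582040)) (c (a (l 16596240) (l 16593864)) (l 16577584)))))) (c (b (a (l 16618384) (l 16613376)) (a (c (b (l 16625328) (a (c (l 30) (b (l 16621680) (l 16621192))) (c (a (l 30) (l 16626560)) (l 16618840)))) (b (l 16608384) (a (l 16619144) (l 16606264))))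 (c (b (l 16620192) (a (c (b (l 16624848) (l 16624400)) (l 16616368)) (c (l 16622160) (l 16614040)))) (a (l 16604432) (l 16602280))))) (a (b (l 16584392) (c (b (l 16591440) (l 16590544)) (l 16574080))) (b (l 16580464) (c (l 16586984) (l 16570608)))))))) (b (a (b (l 16605520) (l 16600992)) (l 16600696)) (b (a (c (l 16613152) (l 16580968)) (l 16637456)) (a (c (a (b (l 16610800) (c (b (l 16617576) (a (c (l 16620896) (l 16612864)) (l 16627216))) (a (l 16601216) (l 16601144)))) (b (l 16610288) (b (l 16609136) (c (a (l 16626960) (l 16626616)) (l 16600528))))) (c (b (l 16586488) (a (l 16585144) (l 16585088))) (a (l 16569880) (l 16569984)))) (c (b (l 16608872) (b (c (l 16615600) (l 16600144)) (c (a (a (l 16615712) (l 16615216)) (a (l 16614648) (l 16614008))) (a (l 16599936) (l 16599072))))) (b (l 16577920) (c (a (l 16584720) (l 16584104)) (l 16579584)))))))), by decide +kernel⟩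

def k9_pm_012 : ∃ t, chk3 f_pm_012 t 5 3 1 = true :=
  ⟨(b (a (b (a (l 16807512) (l 16769536)) (a (l 16718832) (l 16688624))) (b (a (l 16732160) (l 16693744)) (a (l 16657456) (b (l 16640664) (l 16611480))))) (a (b (b (a (l 16660784) (l 16637624)) (a (l 16630016) (l 16612320))) (b (a (b (l 16611752) (l 16602632)) (b (l 16597680) (l 16590720))) (b (a (b (l 16596896) (l 16635784)) (b (l 16586888) (l 16637568))) (a (a (b (l 16613856) (c (b (l 16606056) (a (c (b (l 16613488) (l 16623440)) (l 16598240)) (c (l 16622080) (l 16596936)))) (b (l 16576352) (a (l 16596824) (l 16575072))))) (b (l 16610544) (c (b (l 16602496) (c (a (l 16609784) (l 16607840)) (a (l 16595488) (l 16593928)))) (b (l 16574256) (a (l 16574176) (l 16573216)))))) (a (b (l 16606832) (c (b (l 16598472) (c (a (l 16605792) (l 16603672)) (l 16591472))) (b (l 16571912) (l 16592704)))) (b (l 16602984) (c (b (l 16594248) (c (a (l 16601512) (l 16599344)) (l 16588088))) (l 16569672)))))))) (b (b (a (l 16613640) (l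 16588464)) (a (l 16592784) (l 16573200))) (b (a (b (l 16582112) (l 16577920)) (b (l 16567176) (l 16566440))) (b (a (a (l 16578520) (l 16573904)) (a (l 16569848) (l 16566592))) (a (b (a (l 16599224) (l 16574904)) (c (a (b (l 16590064) (a (l 16591376) (l 16589568))) (b (l 16586288) (a (l 16587904) (l 16586408)))) (a (l 16567768) (l 16566456)))) (a (c (b (l 16581536) (c (b (l 16587784) (l 16610032)) (l 16579312))) (l 16564568)) (c (b (l 16578464) (c (b (l 16584816) (l 16607552)) (l 16577840))) (l 16564496))))))))), by decide +kernel⟩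

def k10_pm_012 : ∃ t, chk3 f_pm_012 t 3 2 1 = true :=
  ⟨(a (b (a (b (a (l 16757088) (l 16741368)) (a (l 16767728) (l 16750192))) (b (a (l 16721408) (l 16697944)) (a (l 16727912) (b (l 16701528) (l 16699968))))) (a (b (a (b (l 16779840) (l 16777880)) (b (l 16756624) (l 16739640))) (a (l 16729264) (l 16688320))) (b (a (b (l 16723648) (l 16694112)) (l 16664544)) (a (l 16648696) (l 16611544))))) (b (a (b (a (l 16672016) (l 16644096)) (a (b (l 16672720) (l 16660240)) (b (l 16636568) (l 16613456)))) (b (a (b (l 16616280) (l 16610720)) (b (l 16584848) (l 16570008))) (a (a (l 16592064) (l 16570344)) (a (l 16549776) (l 16530480))))) (a (b (a (l 16620800) (l 16580368)) (a (b (l 16586872) (l 16569040)) (b (l 16554360) (l 16542352)))) (a (b (a (l 16552728) (l 16535768)) (a (l 16528928) (l 16517472))) (b (l 16512672) (a (l 16507200) (l 16498128))))))), by decide +kernel⟩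

def k11_pm_012 : ∃ t, chk3 f_pm_012 t 3 3 1 = true :=
  ⟨(a (b (a (b (a (l 16657768) (b (l 16640360) (l 16613080))) (a (b (l 16611976) (l 16588736)) (b (l 16590928) (l 16574944)))) (b (a (b (l 16608688) (l 16587832)) (b (l 16580360) (l 16566056))) (a (b (l 16572640) (l 16564056)) (b (l 16557760) (l 16556272))))) (b (a (b (a (l 16572408) (l 16566352)) (a (l 16564184) (l 16566080))) (a (b (l 16562952) (l 16570192)) (b (l 16562336) (b (l 16572040) (l 16581400))))) (a (b (a (b (l 16563832) (l 16566920)) (b (l 16571632) (l 16578600))) (b (a (a (l 16568912) (l 16576360)) (a (l 16584120) (l 16592216))) (b (a (a (l 16595216) (l 16583152)) (a (l 16592320) (l 16601784))) (a (a (c (c (b (l 16588192) (l 16590464)) (l 16582240)) (l 16571952)) (c (l 16595352) (l 16582120))) (a (c (l 16605128) (l 16592552)) (l 14)))))) (b (a (b (l 16581320) (l 16591936)) (b (l 16593064) (l 16628088))) (a (b (a (l 16600672) (l 16609528)) (l 14)) (l 14)))))) (b (a (b (a (b (l 16555784) (l 16547968))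 (b (l 16535224) (l 16533744))) (a (b (l 16546392) (l 16551720)) (b (l 16538640) (l 16550472)))) (b (a (b (l 16518872) (l 16523512)) (a (l 16555888) (b (l 16509528) (l 16525200)))) (b (a (l 16555544) (a (l 16537104) (c (l 16544848) (l 16529720)))) (a (l 16605000) (a (l 16582048) (a (l 16568416) (l 16615032))))))) (a (b (a (b (a (l 16563704) (l 16565576)) (c (l 16611104) (l 16644648))) (b (a (l 16568184) (l 16571544)) (a (l 16636008) (l 16600488)))) (a (b (b (l 16627968) (l 14)) (l 14)) (l 14))) (b (b (a (c (l 16600864) (l 16626416)) (a (b (l 16582624) (l 16599008)) (b (c (l 16593408) (l 16593024)) (l 14)))) (a (b (l 16643960) (l 14)) (l 14))) (l 14))))), by decide +kernel⟩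

theorem s12_pm_012 : ∃ t, chk3 f_pm_012 t 3 1 1 = true := ex3_b k10_pm_012 k11_pm_012

theorem s13_pm_012 : ∃ t, chk3 f_pm_012 t 9 15 1 = true := ex3_b k7_pm_012 k8_pm_012

theorem s14_pm_012 : ∃ t, chk3 f_pm_012 t 9 7 1 = true := ex3_b k6_pm_012 s13_pm_012

theorem s15_pm_012 : ∃ t, chk3 f_pm_012 t 8 31 1 = true := ex3_a k4_pm_012 k5_pm_012

theorem s16_pm_012 : ∃ t, chk3 f_pm_012 t 8 15 1 = true := ex3_b k3_pm_012 s15_pm_012

theorem s17_pm_012 : ∃ t, chk3 f_pm_012 t 8 7 1 = true := ex3_b k2_pm_012 s16_pm_012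

theorem s18_pm_012 : ∃ t, chk3 f_pm_012 t 4 7 1 = true := ex3_a s17_pm_012 s14_pm_012

theorem s19_pm_012 : ∃ t, chk3 f_pm_012 t 4 3 1 = true := ex3_b k1_pm_012 s18_pm_012

theorem s20_pm_012 : ∃ t, chk3 f_pm_012 t 2 3 1 = true := ex3_a s19_pm_012 k9_pm_012

theorem s21_pm_012 : ∃ t, chk3 f_pm_012 t 2 1 1 = true := ex3_b k0_pm_012 s20_pm_012

theorem s22_pm_012 : ∃ t, chk3 f_pm_012 t 1 1 1 = true := ex3_a s21_pm_012 s12_pm_012

theorem c_pm_012 : CertF 0 536870912 0 536870912 469762048 67108864 false true false .pnp 0 1 2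
    ndF0q0 ndF0q2 pcF1 cut_pm_012 Ext.none :=
  certF2 (fam := false) (s1 := true) (s2 := false) (a := 0) (b := 1) (c := 2) (cn := .pnp) (n1 := ndF0q0) (n2 := ndF0q2) (pc := pcF1) (cut := cut_pm_012) (xt := Ext.none) (P1 := 0) (W1 := 536870912) (P2 := 0) (W2 := 536870912) (P3 := 469762048) (W3 := 67108864)
    rfl (fun _ => rfl) s22_pm_012

noncomputable def cut_pm_022 : Cut := Cut.of [[⟨3, 0, 0, 1449551462⟩], [⟨4, 0, 0, 2845415833⟩], [⟨0, 0, 0, 67108864⟩, ⟨1, 1, 0, 67108864⟩, ⟨2, 1, 0, 67108864⟩]]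

noncomputable def f_pm_022 : ℕ → ℕ → ℕ → ℕ → Bool := onCell 0 536870912 0 536870912 469762048 67108864
    (rowF 0 false true false .pp 0 2 2 (qsf 0 536870912 0 536870912 2) ndF0q0 ndF0q2 pcF2 cut_pm_022 Ext.none)

def k0_pm_022 : ∃ t, chk3 f_pm_022 t 1 1 1 = true :=
  ⟨(a (b (a (b (b (b (a (a (l 16499680) (l 16511784)) (l 16528296)) (a (l 16545600) (a (l 16520480) (l 16530376)))) (a (a (l 16502896) (l 16507032)) (a (l 16512328) (l 16519208)))) (a (b (a (l 16602432) (l 16514744)) (a (b (l 16535664) (l 16601648)) (l 16615048))) (b (a (l 16511232) (l 16508416)) (a (l 16519064) (l 16506696))))) (a (a (b (b (b (l 16536960) (l 16538304)) (b (l 16534984) (l 16521104))) (b (l 16506704) (l 16494440))) (b (b (l 1) (l 1)) (l 1))) (l 1))) (a (b (a (a (b (a (b (l 16568464) (a (l 16588768) (l 16583984))) (b (l 16560336) (l 16576552))) (b (a (a (b (l 16603768) (l 16614536)) (l 16603600)) (l 16615864)) (a (l 14) (b (l 16610040) (l 14))))) (b (b (l 16589336) (l 16644704)) (a (b (l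 16582736) (l 16643512)) (a (l 16624024) (l 16616976))))) (b (a (b (l 16528968) (l 16538208)) (l 16592320)) (a (b (l 16573712) (a (l 16577880) (l 16570864))) (b (l 16541328) (l 1))))) (b (a (a (l 14) (b (b (a (l 14) (l 16603968)) (l 14)) (l 14))) (b (a (a (l 154652019687) (l 1)) (l 1)) (l 1))) (l 14))) (b (l 1) (l 1)))) (l 1)), by decide +kernel⟩

theorem c_pm_022 : CertF 0 536870912 0 536870912 469762048 67108864 false true false .pp 0 2 2
    ndF0q0 ndF0q2 pcF2 cut_pm_022 Ext.none :=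
  certF0 (fam := false) (s1 := true) (s2 := false) (a := 0) (b := 2) (c := 2) (cn := .pp) (n1 := ndF0q0) (n2 := ndF0q2) (pc := pcF2) (cut := cut_pm_022) (xt := Ext.none) (P1 := 0) (W1 := 536870912) (P2 := 0) (W2 := 536870912) (P3 := 469762048) (W3 := 67108864)
    rfl k0_pm_022

noncomputable def cut_pm_101 : Cut := Cut.of [[⟨3, 0, 0, 1449551462⟩], [⟨4, 0, 0, 2845415833⟩], [⟨0, 1, 0, 53687091⟩, ⟨1, 0, 0, 53687091⟩, ⟨2, 1, 0, 53687091⟩], [⟨0, 0, 1, 33554432⟩, ⟨1, 1, 2, 33554432⟩, ⟨2, 1, 0, 33554432⟩]]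

noncomputable def f_pm_101 : ℕ → ℕ → ℕ → ℕ → Bool := onCell 536870912 536870912 536870912 536870912 469762048 67108864
    (rowF 0 false true false .npn 1 0 1 (qsf 536870912 536870912 536870912 536870912 0) ndF0q1 ndF0q1 pcF0 cut_pm_101 Ext.none)

def k0_pm_101 : ∃ t, chk3 f_pm_101 t 2 2 1 = true :=
  ⟨(a (b (l 14) (a (l 14) (b (l 14) (a (b (l 14) (a (l 14) (l 16854344))) (b (a (l 14) (l 16875104)) (a (l 16867792) (l 16882040))))))) (b (a (l 14) (l 1)) (a (a (b (b (l 14) (b (l 14) (a (l 14) (l 16896592)))) (b (b (a (l 16887600) (l 16902560)) (l 16920416)) (a (l 16896912) (l 16912184)))) (a (b (b (l 14) (b (l 16903952) (l 16911424))) (b (b (l 16917688) (l 16922696)) (b (l 16926488) (l 16929176)))) (b (b (l 1) (b (l 16918456) (l 16926240))) (b (b (l 16932816) (l 16938112)) (b (l 16942112) (l 16944928)))))) (b (b (l 1) (a (b (l 1) (a (l 16940920) (l 1))) (l 1))) (a (b (a (b (l 16947832) (l 16953432)) (b (l 81101460375) (c (l 16975072) (l 16983072)))) (b (a (l 16957704)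 (b (l 16972216) (l 16974160))) (a (l 16960704) (l 16976344)))) (b (a (a (b (l 1) (l 16979744)) (l 1)) (l 1)) (a (b (b (l 32783115367) (l 35467474743)) (a (l 16987992) (l 16995536))) (b (b (l 1) (l 62847922567)) (c (b (l 17011856) (l 17013552)) (b (l 25803830071) (l 17001560))))))))))), by decide +kernel⟩

def k1_pm_101 : ∃ t, chk3 f_pm_101 t 4 6 1 = true :=
  ⟨(b (a (a (b (l 14) (a (b (l 14) (c (l 16808456) (l 16773920))) (b (c (l 16821576) (l 16790584)) (c (l 16819392) (l 16784360))))) (b (a (l 14) (b (l 14) (l 16830984))) (a (b (l 16817128) (l 16813432)) (b (l 16829096) (l 16825872))))) (a (b (a (b (l 16843656) (l 16843344)) (l 16856536)) (a (b (l 16841800) (l 16838984)) (l 16854056))) (a (b (l 16870312) (l 16868312)) (b (l 16884816) (l 16883200))))) (a (b (a (a (b (c (l 16804328) (l 16765384)) (c (l 16798824) (l 16755272))) (b (c (l 16815816) (l 16776560)) (c (l 16810872) (l 16767168)))) (a (b (c (l 16828048) (l 16788824)) (c (l 16823672) (l 16780168))) (b (l 16821296)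 (l 16794392)))) (a (b (a (c (l 16792016) (l 16743640)) (c (l 16804624) (l 16756256))) (a (c (l 16784112) (l 16730752)) (a (l 16746096) (l 16731976)))) (b (a (a (l 16790440) (l 16797400)) (c (l 16831824) (l 16784520))) (a (b (l 16766056) (a (l 16778456) (b (l 16787032) (l 16764136)))) (b (l 16801680) (b (a (l 16794464) (l 16802488)) (a (b (l 16793088) (l 16792792)) (l 16802088)))))))) (b (a (a (b (l 16834872) (l 16829456)) (b (l 16849032) (l 16844072))) (a (l 16861600) (l 16877008))) (a (b (a (l 16822720) (l 16837856)) (a (b (a (l 16812976) (l 16821008)) (b (a (l 16810656) (l 16819544)) (l 16818152))) (b (a (l 16829560) (l 16837904)) (l 16837792)))) (a (b (l 16853408) (b (l 16851448) (l 16859944))) (b (l 16871304) (l 16876680))))))), by decide +kernel⟩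

def k2_pm_101 : ∃ t, chk3 f_pm_101 t 4 14 1 = true :=
  ⟨(a (b (a (b (b (a (a (l 16745920) (b (l 16753600) (b (l 16751488) (l 16750640)))) (b (a (l 16760288) (b (l 16767952) (l 16767128))) (a (b (l 16758752) (l 16758928)) (l 16767712)))) (a (a (b (b (l 16742856) (l 16743280)) (l 16744592)) (l 16752336)) (a (l 16761840) (l 16771680)))) (a (b (l 16751752) (l 16755240)) (b (a (l 16766328) (l 16776696)) (l 16776048)))) (b (a (b (b (a (b (l 16775696) (l 16775592)) (l 16763800)) (l 16740920)) (a (l 16781952) (l 16792552))) (b (a (l 16796896) (l 16807496)) (l 16808912))) (a (b (l 16751056) (l 16798736)) (b (l 16815784) (l 16822616))))) (a (b (a (b (l 16758280) (l 16760656)) (b (l 16780312) (l 16784056))) (a (b (l 16762144) (l 16762496)) (b (l 16787064) (l 16789136)))) (a (b (b (l 16804232) (l 16809304)) (b (l 16813784) (l 16817488))) (b (b (l 16829272) (l 16835600)) (b (l 16841448) (l 16846656)))))) (b (a (a (b (b (l 16823784) (l 16831512)) (b (l 16839360) (l 16847208)))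 (b (l 16850464) (l 16867936))) (a (b (l 16873808) (l 16892856)) (b (l 16897504) (l 16917888)))) (a (b (a (l 16858744) (l 16885280)) (a (l 16872880) (l 16901600))) (a (b (l 16911872) (l 16930040)) (b (l 16938280) (l 16957952)))))), by decide +kernel⟩

def k3_pm_101 : ∃ t, chk3 f_pm_101 t 8 30 1 = true :=
  ⟨(a (b (a (b (l 16761480) (l 16737840)) (b (l 16790056) (l 16768624))) (b (a (a (l 16746184) (l 16762376)) (c (l 16824792) (l 16749752))) (a (b (a (l 16740712) (l 16758000)) (b (l 16725352) (a (c (l 16778256) (l 16691144)) (l 16753000)))) (b (l 16784704) (c (l 16820936) (b (l 16743352) (l 16740584))))))) (b (a (b (l 16820240) (l 16821832)) (b (l 16851080) (l 16854528))) (b (a (c (l 16856656) (l 16787024)) (l 16856840)) (a (b (l 16821192) (c (l 16854368) (a (l 16771464) (l 16791432)))) (b (a (l 16848888) (l 16867208)) (l 16812512)))))), by decide +kernel⟩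

def k4_pm_101 : ∃ t, chk3 f_pm_101 t 8 62 1 = true :=
  ⟨(a (a (b (a (c (b (l 16775880) (l 16773248)) (b (l 16688528) (l 16685960))) (b (l 16750296) (c (l 16788784) (l 16704112)))) (c (a (b (l 16771256) (l 16769904)) (b (l 16785816) (l 16762776))) (a (b (l 16684320) (c (l 16705288) (l 16661640))) (b (a (l 16696448) (l 16705656)) (a (l 16695144) (l 16703312)))))) (b (c (l 16815408) (a (l 16725536) (l 16745368))) (a (b (l 16740312) (c (l 16799088) (a (l 16712464) (l 16722008)))) (c (l 16816792) (c (l 16757888) (l 16718096)))))) (a (b (c (l 16848624) (a (l 16765200) (l 16784840))) (c (l 16820160) (a (b (l 16759208) (l 16755824)) (b (l 16778544) (l 16774944))))) (b (a (l 16796816) (l 16856072)) (c (l 16872624) (a (l 16774624) (l 16814136)))))), by decide +kernel⟩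

def k5_pm_101 : ∃ t, chk3 f_pm_101 t 32 63 1 = true :=
  ⟨(b (c (a (b (l 16768536) (c (l 16788400) (l 16746168))) (b (l 16782336) (c (l 16802168) (l 16760912)))) (a (a (b (l 16657736) (l 16623088)) (b (l 16686856) (c (l 16707696) (l 16665176)))) (b (c (l 16719592) (l 16656344)) (c (a (l 16715560) (l 16723208)) (a (l 16673528) (l 16681664)))))) (c (a (b (c (l 16787232) (a (l 16741432) (l 16749176))) (c (a (l 16782552) (l 16789936)) (a (b (l 16740896) (l 16740624)) (b (l 16748760) (l 16748560))))) (b (c (l 16801296) (l 16739400)) (c (l 16800600) (a (l 16735352) (l 16763784))))) (b (a (a (c (b (l 16699200) (l 16699016)) (l 30)) (b (l 16623456) (c (l 16707312) (l 30)))) (c (a (l 16694408) (l 16723184)) (a (c (l 16684280) (l 30)) (b (l 16682024) (l 16682368))))) (a (c (a (b (c (l 16709416) (l 16688408)) (c (a (l 16707216) (l 16711432)) (l 30))) (b (c (l 16717664) (l 16696904)) (c (l 16717648) (a (l 16684432) (l 16699152))))) (l 30)) (c (a (b (l 16715432) (c (l 16725744)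 (a (l 16703328) (l 16707440)))) (b (l 16723352) (c (l 16733616) (l 16713504)))) (c (a (b (l 16684656) (l 30)) (b (l 16692944) (c (l 16698416) (l 30)))) (l 30))))))), by decide +kernel⟩

def k6_pm_101 : ∃ t, chk3 f_pm_101 t 33 63 1 = true :=
  ⟨(b (a (c (b (a (l 16792800) (l 16800520)) (c (l 16815344) (l 16775080))) (b (a (l 16689568) (l 16719616)) (a (c (l 16730552) (l 16689480)) (c (l 16738352) (l 16697832))))) (c (b (l 16812520) (l 16810296)) (b (l 16733848) (c (l 16751560) (a (l 16707176) (l 16716912)))))) (c (a (b (c (l 16814416) (l 16774456)) (c (l 16814112) (a (l 16771032) (l 16778064)))) (a (b (l 16804744) (l 16804248)) (b (l 16812288) (l 16811080)))) (a (b (b (a (l 16710416) (l 16717960)) (c (l 16734576) (a (l 16690488) (l 16698384)))) (c (a (b (l 16731056) (l 16710360)) (b (l 16738536) (l 16738888))) (a (b (c (l 16701016) (l 16680968)) (c (a (l 16699520) (l 16703536)) (l 30))) (b (c (l 16708864) (l 16689056)) (c (l 16709448) (b (l 16689616) (a (l 30) (l 16692032))))))))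 (b (a (c (l 16745800) (b (l 16706224) (l 16706232))) (c (l 16754352) (b (l 16715760) (l 16715224)))) (a (c (b (l 16745784) (l 16746232)) (b (l 16706680) (c (l 16717152) (b (l 16697544) (l 16697976))))) (c (b (l 16753512) (l 16753504)) (b (a (l 16712664) (l 16717216)) (a (l 16692192) (c (l 16726736) (l 16707656)))))))))), by decide +kernel⟩

def k7_pm_101 : ∃ t, chk3 f_pm_101 t 17 63 1 = true :=
  ⟨(a (b (c (a (l 16827272) (l 16842984)) (a (c (l 16770696) (b (l 16733872) (l 16731616))) (b (l 16771832) (c (l 16787408) (l 16751048))))) (c (a (b (l 16823928) (c (l 16841000) (l 16803712))) (c (l 16856320) (l 16820384))) (b (a (c (l 16767632) (a (l 16725152) (l 16734792))) (c (l 16785264) (a (l 16744368) (l 16753864)))) (c (a (a (l 16762000) (l 16770672)) (c (l 16792616) (l 16774696))) (a (a (b (l 16724376) (a (l 16721712) (l 16726440))) (c (l 16742944) (b (l 16724640) (c (l 16728912) (l 16719696))))) (c (a (l 16752184) (l 16761344)) (a (b (l 16734296) (a (l 16731496) (a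 (l 16735080) (l 16737456)))) (b (l 16743872) (b (l 16743496) (a (l 16740928) (l 16745648))))))))))) (c (b (a (l 16858336) (l 16873304)) (a (c (l 16870544) (l 16836056)) (c (l 16884376) (l 16851352)))) (b (a (b (l 16790392) (c (l 16804944) (l 16770152))) (b (l 16808584) (l 16784536))) (c (a (b (l 16802552) (c (l 16809280) (l 16792096))) (b (l 16819472) (l 16796376))) (a (b (a (l 16763280) (l 16772608)) (c (a (l 16770424) (l 16779424)) (a (b (l 16753376) (b (l 16752936) (a (l 16750352) (l 16755040)))) (b (l 16762792) (a (a (l 16758664) (l 16760992)) (l 16764472)))))) (b (a (l 16781848) (l 16790984)) (b (a (l 16780424) (l 16789448)) (a (c (l 16787936) (c (l 16775528) (l 16767264))) (l 16788616))))))))), by decide +kernel⟩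

def k8_pm_101 : ∃ t, chk3 f_pm_101 t 9 15 1 = true :=
  ⟨(b (a (b (a (b (l 16881952) (l 16887048)) (l 16915944)) (a (b (l 16891184) (b (l 16893568) (l 16889296))) (b (l 16924768) (b (l 16926920) (l 16921968))))) (b (a (l 16946536) (l 16976168)) (b (a (l 16957248) (l 16988800)) (a (l 16954464) (l 16983896))))) (a (b (a (b (c (l 16911328) (l 16850856)) (c (l 16902440) (a (l 16832272) (l 16849968)))) (b (l 16913256) (l 16903016))) (a (c (b (l 16894920) (a (l 16881992) (l 16895656))) (b (a (b (l 16826368) (l 16823040)) (l 16841864)) (a (b (c (l 16835976) (l 16804480)) (c (l 16833592) (a (l 16797904) (l 16806672)))) (b (l 16837040) (l 16813496))))) (b (c (l 16922048) (l 16866704)) (c (l 16915184) (a (l 16851880) (l 16867520)))))) (b (a (c (l 16961160) (l 16913504)) (c (l 16984960) (l 16943968))) (a (c (l 16943000) (b (l 16897912) (l 16889872))) (c (l 16965120) (b (l 16926704) (l 16917544))))))), by decide +kernel⟩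

def k9_pm_101 : ∃ t, chk3 f_pm_101 t 5 6 1 = true :=
  ⟨(b (a (b (a (a (l 16899920) (l 16915384)) (b (l 16938504) (l 16939168))) (a (l 16906168) (b (l 16938720) (l 16937144)))) (a (b (b (a (l 16962592) (l 16978408)) (a (l 16963360) (l 16979288))) (b (a (l 16962960) (l 16978952)) (l 16969248))) (b (a (b (a (l 16990232) (l 16997912)) (l 16995000)) (a (b (l 17005504) (l 17006696)) (b (a (l 17011200) (l 17014944)) (l 17014352)))) (b (a (l 16994752) (l 17010312)) (a (l 16993224) (l 17008824)))))) (a (a (b (l 16900592) (b (a (l 16888080) (l 16904160)) (l 16906328))) (b (b (l 16934456) (a (l 16922744) (l 16939576))) (b (a (l 16941120) (l 16936592)) (l 16938328)))) (b (b (a (l 16966544) (a (l 16990416) (l 17005976))) (a (b (l 16963824) (a (l 16954376) (l 16968720))) (b (a (l 16988264) (l 17001944)) (a (l 16983184) (l 16996112))))) (a (b (l 16960000) (l 16963168)) (b (l 16983896) (l 16981088)))))), by decide +kernel⟩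

def k10_pm_101 : ∃ t, chk3 f_pm_101 t 5 14 1 = true :=
  ⟨(a (a (b (b (a (l 16919288) (l 16936016)) (a (l 16942672) (l 16963248))) (b (a (l 16964120) (l 16988888)) (a (l 16984920) (l 17010408)))) (b (b (l 16954416) (l 17020824)) (b (a (b (l 17000504) (l 17016104)) (l 17013904)) (a (l 17034224) (c (l 17119736) (a (l 17083320) (l 17109096))))))) (b (a (b (l 16972616) (l 16988992)) (b (l 16984040) (l 16992904))) (a (a (b (l 17013904) (l 17070952)) (b (l 17012536) (l 17042736))) (b (l 17029080) (a (l 17034640) (l 17026000)))))), by decide +kernel⟩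

def k11_pm_101 : ∃ t, chk3 f_pm_101 t 5 30 1 = true :=
  ⟨(a (b (a (a (l 17004384) (l 17030648)) (a (l 17096720) (b (l 17071696) (l 17081448)))) (a (b (a (a (l 17011224) (l 17025304)) (b (l 17042344) (c (l 17056392) (l 17054968)))) (a (l 17010888) (l 17033976))) (a (b (b (l 17066672) (c (l 17074800) (l 17080552))) (l 17053912)) (b (b (l 17088424) (a (l 17081808) (l 17090424))) (l 17070704))))) (a (c (b (a (a (l 17091400) (l 17091688)) (l 17083280)) (c (b (a (l 17167480) (l 17109288)) (a (l 17087648) (l 17091400))) (b (b (a (l 17106512) (l 17084856)) (a (l 17101976) (l 17084712))) (a (l 17085392) (l 17090592))))) (b (a (a (b (l 17100896) (l 17094648)) (b (l 17078200) (a (l 17101336) (l 17101872)))) (b (l 17068816) (l 17072176))) (c (b (b (a (l 17084296) (b (l 17083304) (a (a (l 17084312) (l 17080512)) (l 17077632)))) (a (l 17101424) (a (l 17072120) (l 17077792)))) (a (l 17083328) (a (l 17092720) (l 17082080)))) (b (a (b (a (l 17101960) (b (l 17095552) (l 17051560)))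 (l 17080032)) (a (b (b (l 17082752) (a (b (l 17080872) (l 17080640)) (l 17076912))) (a (l 17085312) (b (l 17077312) (l 17079560)))) (b (b (l 17077760) (l 17074296)) (l 17074568)))) (a (l 17060488) (a (l 17072344) (b (l 17045376) (l 17081456)))))))) (a (c (b (l 17068792) (l 17118896)) (b (l 17034432) (b (a (a (l 17074512) (l 17072512)) (l 17069528)) (l 17071928)))) (b (a (l 17056232) (l 17048952)) (b (l 17064904) (l 17059720)))))), by decide +kernel⟩

def k12_pm_101 : ∃ t, chk3 f_pm_101 t 5 31 1 = true :=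
  ⟨(a (a (b (a (b (l 16995728) (l 16982424)) (b (l 17017496) (l 17003024))) (c (a (l 16984464) (l 17000576)) (a (b (l 16952640) (l 16942328)) (b (l 16975200) (l 16963696))))) (b (a (b (l 17036040) (l 17020344)) (b (l 17051368) (l 17034392))) (c (a (l 17013464) (l 17023176)) (a (b (l 16994328) (l 16981600)) (b (l 17010072) (l 16996096)))))) (a (b (a (b (l 17063504) (l 17045232)) (b (c (l 17073648) (l 17029752)) (l 17073896))) (b (a (l 17029192) (l 17035752)) (c (l 17046496) (a (l 17007256) (l 17015168))))) (a (c (b (b (l 17069296) (l 17056352)) (l 17065648)) (b (b (a (l 17074856) (l 17067760)) (a (l 17056080) (l 17055688))) (b (l 17037488) (l 17019888)))) (b (c (l 17047760) (l 17047872)) (b (a (b (l 17062240) (l 17055832)) (l 17030688)) (a (l 17023280) (b (l 17023928) (l 17038952)))))))), by decide +kernel⟩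

def k13_pm_101 : ∃ t, chk3 f_pm_101 t 3 2 1 = true :=
  ⟨(a (b (l 1) (a (b (l 1) (b (l 1) (a (a (a (a (b (l 1) (l 56405480455)) (l 1)) (l 1)) (l 1)) (l 1)))) (l 1))) (l 1)), by decide +kernel⟩

def k14_pm_101 : ∃ t, chk3 f_pm_101 t 12 6 1 = true :=
  ⟨(b (b (a (a (a (b (b (l 17019944) (l 17021032)) (l 17021928)) (b (b (l 17027224) (l 17028392)) (b (l 17029200) (l 17029648)))) (b (b (l 1) (c (l 53184333767) (l 52110580359))) (b (c (l 17044216) (l 17051816)) (l 13992752343)))) (b (l 1) (a (b (l 1) (l 47815649271)) (l 1)))) (a (b (a (b (l 17025872) (l 17025528)) (a (l 17036992) (l 17044288))) (a (l 17024248) (l 17060264))) (b (a (b (l 17075800) (l 17054752)) (a (l 43520702951) (l 1))) (a (b (l 17054224) (l 17053264)) (a (l 17074480) (c (b (l 17071272) (l 17070280)) (l 51573777447))))))) (b (a (b (a (l 17042872) (b (l 17037376) (b (l 17036064) (l 17033952)))) (a (b (l 17014392) (l 17007208)) (l 17021408))) (b (b (a (l 17051856) (a (l 17062208) (l 17090000))) (a (b (l 17071456)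 (l 17045056)) (b (a (b (l 17060824) (l 17057848)) (l 17063552)) (a (l 17052272) (l 17056200))))) (a (l 17030160) (b (l 17043728) (l 17031368))))) (a (b (l 17022696) (l 16993208)) (b (a (l 17011496) (l 17016080)) (l 17021104))))), by decide +kernel⟩

def k15_pm_101 : ∃ t, chk3 f_pm_101 t 13 6 1 = true :=
  ⟨(b (b (l 1) (a (a (a (a (b (l 1) (l 29562095143)) (l 1)) (l 1)) (l 1)) (l 1))) (b (a (b (b (b (a (a (l 118682557799) (l 1)) (l 1)) (a (a (b (l 17041344) (a (l 17072360) (b (l 104187045575) (l 17071152)))) (b (l 1) (l 469259317399))) (l 1))) (b (a (a (l 17067792) (a (l 17041920) (l 315177291783))) (l 1)) (a (l 21509029623) (l 365643129767)))) (a (b (c (l 17050664) (l 17049320)) (l 17036160)) (b (c (l 65532439367) (l 199213222295)) (l 17060160)))) (b (l 1) (b (l 1) (a (l 81101694119) (l 1))))) (a (b (a (l 17019104) (b (l 17026344) (l 17015160))) (a (l 17001832) (l 17001136))) (b (a (b (l 17026640) (l 17014496)) (b (l 1) (l 17012320))) (a (l 16999040) (b (l 17000856)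 (l 16990760))))))), by decide +kernel⟩

def k16_pm_101 : ∃ t, chk3 f_pm_101 t 6 7 1 = true :=
  ⟨(b (a (a (b (b (l 16990160) (l 16992320)) (b (l 16999712) (l 17054472))) (b (b (l 16991720) (l 16988080)) (b (l 16988880) (l 17014984)))) (b (a (b (l 16988504) (l 16979960)) (b (a (l 16983040) (l 16977896)) (l 16988944))) (a (b (l 16975328) (l 16974208)) (b (l 16959016) (l 16952992))))) (b (a (a (a (b (a (l 17041776) (l 17035352)) (l 17043048)) (b (l 17046104) (l 17025416))) (b (b (l 17000712) (l 17006512)) (l 17000656))) (b (b (a (l 16975552) (l 16950144)) (a (l 16976784) (c (l 16972656) (l 17008160)))) (a (l 17011736) (l 16961976)))) (a (b (a (c (l 17021264) (l 17019480)) (l 17008448)) (a (a (a (l 17038736) (l 17009208)) (l 17017856)) (a (l 16981312) (l 16966512)))) (b (a (a (l 16965104) (l 16950760)) (a (l 16936768) (l 16923040))) (a (a (l 16952256) (l 16938360)) (a (l 16924696) (l 16911176))))))), by decide +kernel⟩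

def k17_pm_101 : ∃ t, chk3 f_pm_101 t 7 3 1 = true :=
  ⟨(b (a (b (l 1) (b (l 1) (a (a (b (l 1) (b (l 1) (l 16985672))) (l 1)) (l 1)))) (l 1)) (a (b (a (a (b (b (l 16971704) (l 16956784)) (b (l 16945272) (l 16936408))) (b (b (l 16964512) (l 16948304)) (b (l 16935408) (l 16925032)))) (b (b (l 1) (a (l 16939144) (l 1))) (a (b (l 16925120) (l 16913504)) (b (l 16914504) (l 16901904))))) (b (b (a (b (l 16924744) (a (l 16927504) (l 16914120))) (b (l 16899648) (a (l 16901048) (b (l 16889536) (l 16887192))))) (a (a (l 16920424) (l 16907008)) (a (l 16893792) (l 16880720)))) (a (b (a (l 16909496) (l 16896048)) (a (l 16918680) (b (l 16887216) (l 6)))) (b (a (l 16882624) (l 6)) (l 6))))) (b (b (l 1) (b (l 1) (a (a (l 142304611527) (l 1)) (l 1)))) (b (b (a (b (a (l 16881304) (l 1)) (l 6)) (l 1)) (l 6)) (l 6))))), by decide +kernel⟩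

theorem s18_pm_101 : ∃ t, chk3 f_pm_101 t 6 6 1 = true := ex3_a k14_pm_101 k15_pm_101

theorem s19_pm_101 : ∃ t, chk3 f_pm_101 t 6 3 1 = true := ex3_b s18_pm_101 k16_pm_101

theorem s20_pm_101 : ∃ t, chk3 f_pm_101 t 3 3 1 = true := ex3_a s19_pm_101 k17_pm_101

theorem s21_pm_101 : ∃ t, chk3 f_pm_101 t 3 1 1 = true := ex3_b k13_pm_101 s20_pm_101

theorem s22_pm_101 : ∃ t, chk3 f_pm_101 t 5 15 1 = true := ex3_b k11_pm_101 k12_pm_101

theorem s23_pm_101 : ∃ t, chk3 f_pm_101 t 5 7 1 = true := ex3_b k10_pm_101 s22_pm_101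

theorem s24_pm_101 : ∃ t, chk3 f_pm_101 t 5 3 1 = true := ex3_b k9_pm_101 s23_pm_101

theorem s25_pm_101 : ∃ t, chk3 f_pm_101 t 16 63 1 = true := ex3_a k5_pm_101 k6_pm_101

theorem s26_pm_101 : ∃ t, chk3 f_pm_101 t 8 63 1 = true := ex3_a s25_pm_101 k7_pm_101

theorem s27_pm_101 : ∃ t, chk3 f_pm_101 t 8 31 1 = true := ex3_b k4_pm_101 s26_pm_101

theorem s28_pm_101 : ∃ t, chk3 f_pm_101 t 8 15 1 = true := ex3_b k3_pm_101 s27_pm_101

theorem s29_pm_101 : ∃ t, chk3 f_pm_101 t 4 15 1 = true := ex3_a s28_pm_101 k8_pm_101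

theorem s30_pm_101 : ∃ t, chk3 f_pm_101 t 4 7 1 = true := ex3_b k2_pm_101 s29_pm_101

theorem s31_pm_101 : ∃ t, chk3 f_pm_101 t 4 3 1 = true := ex3_b k1_pm_101 s30_pm_101

theorem s32_pm_101 : ∃ t, chk3 f_pm_101 t 2 3 1 = true := ex3_a s31_pm_101 s24_pm_101

theorem s33_pm_101 : ∃ t, chk3 f_pm_101 t 2 1 1 = true := ex3_b k0_pm_101 s32_pm_101

theorem s34_pm_101 : ∃ t, chk3 f_pm_101 t 1 1 1 = true := ex3_a s33_pm_101 s21_pm_101

theorem c_pm_101 : CertF 536870912 536870912 536870912 536870912 469762048 67108864 false true false .npn 1 0 1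
    ndF0q1 ndF0q1 pcF0 cut_pm_101 Ext.none :=
  certF0 (fam := false) (s1 := true) (s2 := false) (a := 1) (b := 0) (c := 1) (cn := .npn) (n1 := ndF0q1) (n2 := ndF0q1) (pc := pcF0) (cut := cut_pm_101) (xt := Ext.none) (P1 := 536870912) (W1 := 536870912) (P2 := 536870912) (W2 := 536870912) (P3 := 469762048) (W3 := 67108864)
    rfl s34_pm_101

noncomputable def cut_pm_102 : Cut := Cut.of [[⟨3, 0, 0, 1449551462⟩], [⟨4, 0, 0, 2845415833⟩], [⟨0, 1, 0, 67108864⟩, ⟨1, 0, 0, 67108864⟩, ⟨2, 1, 0, 67108864⟩], [⟨0, 0, 1, 33554432⟩, ⟨1, 1, 2, 33554432⟩, ⟨2, 1, 0, 33554432⟩]]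

noncomputable def f_pm_102 : ℕ → ℕ → ℕ → ℕ → Bool := onCell 0 536870912 0 536870912 469762048 67108864
    (rowF 2 false true false .npp 1 0 2 (qsf 536870912 536870912 0 536870912 0) ndF0q1 ndF0q2 pcF0 cut_pm_102 Ext.none)

def k0_pm_102 : ∃ t, chk3 f_pm_102 t 2 1 1 = true :=
  ⟨(b (l 6) (a (b (l 3) (b (l 6) (a (l 6) (b (l 6) (l 6))))) (b (l 6) (b (a (l 6) (b (l 6) (a (l 6) (b (a (l 6) (c (l 16878632) (l 16882424))) (c (l 16892808) (l 16894824)))))) (b (a (a (l 6) (a (l 6) (b (l 6) (l 16890200)))) (b (a (c (l 16889576) (l 16868216)) (a (l 16907248) (l 16920200))) (a (a (l 16902896) (l 16915752)) (a (l 16928984) (l 16942784))))) (a (a (b (a (l 6) (l 16885352)) (a (l 16893832) (l 16907144))) (b (a (l 16898376) (l 16911432)) (a (l 16920488) (l 16933960)))) (b (a (a (l 16924608) (l 16938104)) (a (l 16952072) (l 16966808))) (a (a (l 16947680) (l 16961816)) (a (l 16976632) (l 16992312)))))))))), by decide +kernel⟩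

def k1_pm_102 : ∃ t, chk3 f_pm_102 t 6 1 1 = true :=
  ⟨(b (l 6) (b (b (l 6) (a (a (l 6) (b (l 6) (l 6))) (b (a (l 6) (c (a (l 16861568) (l 16872960)) (l 16859032))) (a (b (c (l 16867656) (l 16877840)) (a (c (l 16877776) (l 16888400)) (c (l 16888536) (l 16901352)))) (a (b (l 16890272) (l 16904008)) (b (l 16902752) (l 16910936))))))) (a (b (b (a (a (l 6) (b (l 6) (c (l 16880744) (l 16886680)))) (b (a (c (l 16873360) (l 16880736)) (c (l 16883624) (l 16892464))) (c (l 16894216) (l 16900024)))) (a (c (a (l 16899352) (l 16908184)) (l 16922320)) (a (a (l 16913800) (l 16917048)) (l 16968544)))) (a (b (a (a (l 16961160) (l 16943352)) (b (l 16936936) (l 16957760))) (a (b (l 16976808) (c (l 17004704) (l 17000496))) (b (l 16980024) (c (l 17007952) (l 17000224))))) (b (a (b (l 16941776) (l 16960840)) (b (l 16944888) (l 16961984))) (b (a (l 16981160) (l 16979992)) (a (c (l 17008896) (l 16997384)) (c (l 17007168) (l 16991560))))))) (b (a (a (b (c (l 16939128) (l 16907080)) (l 16946696))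 (b (l 16908368) (l 16928376))) (b (c (l 16935376) (l 16919248)) (a (l 16928768) (l 16926872)))) (b (a (a (l 16995384) (l 16971952)) (a (l 16945960) (l 16938304))) (b (a (a (l 16976088) (l 16969408)) (a (l 16959832) (l 16947304))) (a (a (a (l 16994232) (l 16990128)) (c (l 16995208) (b (l 16967808) (l 16973208)))) (b (a (l 16967112) (l 16951936)) (c (l 16981024) (a (l 16956880) (l 16937144))))))))))), by decide +kernel⟩

def k2_pm_102 : ∃ t, chk3 f_pm_102 t 7 2 1 = true :=
  ⟨(b (l 6) (a (l 6) (b (l 6) (b (l 6) (a (l 6) (l 16844160)))))), by decide +kernel⟩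

def k3_pm_102 : ∃ t, chk3 f_pm_102 t 7 6 1 = true :=
  ⟨(a (b (b (l 6) (a (a (l 6) (l 16873304)) (a (l 16886792) (l 16901160)))) (b (b (a (l 16890664) (l 16918864)) (a (a (l 16900992) (l 16914000)) (a (l 16926152) (l 16934216)))) (a (b (a (l 16914192) (l 16921288)) (l 16917408)) (l 16921840)))) (a (b (b (l 16847416) (b (l 16915208) (a (l 16925656) (l 16940920)))) (b (a (l 16917464) (l 16941808)) (l 16917144))) (b (b (l 16899960) (b (l 16949896) (a (l 16956000) (l 16967520)))) (b (l 16940720) (l 16906208))))), by decide +kernel⟩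

def k4_pm_102 : ∃ t, chk3 f_pm_102 t 14 7 1 = true :=
  ⟨(b (a (b (a (l 16918032) (l 16916968)) (a (l 16922600) (l 16915880))) (b (a (l 16913640) (l 16907896)) (a (l 16906568) (l 16895032)))) (a (a (b (l 16927928) (b (l 16931672) (c (l 16954504) (b (l 16914616) (l 16914016))))) (b (l 16914704) (b (l 16913224) (a (l 16917704) (l 16905960))))) (b (a (l 16899008) (b (l 16884536) (l 16877112))) (b (a (l 16892192) (b (l 16871136) (l 16866968))) (a (b (l 16888488) (c (l 16912688) (a (l 16866784) (l 16851960)))) (b (c (l 16890208) (l 16835480)) (c (a (l 16894168) (l 16881184)) (a (b (l 16838168) (l 16834992)) (b (l 16822568) (c (l 16834176) (a (l 16807872) (l 16799320)))))))))))), by decide +kernel⟩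

def k5_pm_102 : ∃ t, chk3 f_pm_102 t 15 14 1 = true :=
  ⟨(a (b (l 16811856) (a (l 16881408) (l 16866384))) (b (l 16874968) (a (l 16851128) (l 16835096)))), by decide +kernel⟩

def k6_pm_102 : ∃ t, chk3 f_pm_102 t 15 30 1 = true :=
  ⟨(a (a (b (l 16866416) (l 16855696)) (b (l 16846816) (l 16832808))) (a (b (l 16827280) (l 16810200)) (b (l 16806960) (l 16787040)))), by decide +kernel⟩

def k7_pm_102 : ∃ t, chk3 f_pm_102 t 30 31 1 = true :=
  ⟨(b (a (b (l 16847096) (l 16841104)) (a (l 16824392) (l 16810808))) (a (b (c (l 16865152) (a (l 16812744) (l 16797056))) (c (a (l 16867736) (l 16853872)) (b (a (l 16806520) (l 16790048)) (a (c (l 16818328) (b (l 16787488) (a (l 16789456) (c (l 16788776) (l 16751472))))) (c (l 16781096) (b (l 16769880) (b (c (l 16776248) (l 16738464)) (a (a (l 16773248) (l 16747760)) (b (l 16762272) (a (l 16742880) (l 16738312))))))))))) (b (c (l 16838640) (a (l 16781000) (l 16764656))) (c (a (l 16839616) (c (l 16843072) (l 16807024))) (b (a (l 16773208)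 (l 16756096)) (a (c (l 16785432) (b (l 16751904) (b (c (l 16758440) (l 16740872)) (c (l 16757016) (a (a (l 16746336) (l 16741640)) (a (l 16736920) (l 16732184))))))) (c (a (l 16772744) (l 16764192)) (b (l 16733664) (a (a (l 16716360) (l 16732672)) (c (l 16734960) (l 16716368))))))))))), by decide +kernel⟩

def k8_pm_102 : ∃ t, chk3 f_pm_102 t 31 31 1 = true :=
  ⟨(b (a (a (l 16798056) (l 16764896)) (a (l 16730816) (l 16674864))) (a (b (c (a (l 16818744) (l 16806432)) (a (l 16749488) (l 16735336))) (c (a (b (l 16813232) (l 16767544)) (b (l 16800416) (c (l 16815736) (l 16777000)))) (b (a (l 16719288) (l 16704592)) (a (c (a (l 16756416) (l 16749336)) (a (a (l 16720824) (l 16696136)) (b (l 16713168) (c (l 16719200) (l 16700072))))) (a (b (l 16724464) (b (l 16680064) (c (l 16739832) (a (l 16702896) (l 16677952))))) (c (l 16713560) (b (l 16697488) (c (l 16703592) (l 30))))))))) (b (c (a (l 16793208) (l 16779192)) (l 16654656)) (c (a (b (l 16786752) (a (l 16785968) (l 16736824)))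 (b (l 16772248) (c (l 16787936) (a (l 16751128) (l 16722264))))) (b (a (c (l 16729112) (l 16690856)) (l 16630560)) (b (a (a (l 16708832) (l 16679704)) (c (l 16687200) (l 30))) (a (c (a (l 16704280) (c (l 16727328) (l 16707208))) (a (a (c (l 16697512) (l 30)) (l 30)) (l 30))) (c (a (a (l 16690160) (l 16685992)) (c (l 16710928) (l 30))) (l 30))))))))), by decide +kernel⟩

theorem s9_pm_102 : ∃ t, chk3 f_pm_102 t 15 31 1 = true := ex3_a k7_pm_102 k8_pm_102

theorem s10_pm_102 : ∃ t, chk3 f_pm_102 t 15 15 1 = true := ex3_b k6_pm_102 s9_pm_102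

theorem s11_pm_102 : ∃ t, chk3 f_pm_102 t 15 7 1 = true := ex3_b k5_pm_102 s10_pm_102

theorem s12_pm_102 : ∃ t, chk3 f_pm_102 t 7 7 1 = true := ex3_a k4_pm_102 s11_pm_102

theorem s13_pm_102 : ∃ t, chk3 f_pm_102 t 7 3 1 = true := ex3_b k3_pm_102 s12_pm_102

theorem s14_pm_102 : ∃ t, chk3 f_pm_102 t 7 1 1 = true := ex3_b k2_pm_102 s13_pm_102

theorem s15_pm_102 : ∃ t, chk3 f_pm_102 t 3 1 1 = true := ex3_a k1_pm_102 s14_pm_102

theorem s16_pm_102 : ∃ t, chk3 f_pm_102 t 1 1 1 = true := ex3_a k0_pm_102 s15_pm_102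

theorem c_pm_102 : CertF 536870912 536870912 0 536870912 469762048 67108864 false true false .npp 1 0 2
    ndF0q1 ndF0q2 pcF0 cut_pm_102 Ext.none :=
  certF2 (fam := false) (s1 := true) (s2 := false) (a := 1) (b := 0) (c := 2) (cn := .npp) (n1 := ndF0q1) (n2 := ndF0q2) (pc := pcF0) (cut := cut_pm_102) (xt := Ext.none) (P1 := 536870912) (W1 := 536870912) (P2 := 0) (W2 := 536870912) (P3 := 469762048) (W3 := 67108864)
    rfl (fun _ => rfl) s16_pm_102

noncomputable def cut_pm_112 : Cut := Cut.of [[⟨3, 0, 0, 1449551462⟩], [⟨4, 0, 0, 2845415833⟩], [⟨0, 0, 1, 33554432⟩, ⟨1, 1, 2, 33554432⟩, ⟨2, 1, 0, 33554432⟩]]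

noncomputable def f_pm_112 : ℕ → ℕ → ℕ → ℕ → Bool := onCell 536870912 536870912 0 536870912 469762048 67108864
    (rowF 2 false true false .dn 1 1 2 (qsf 536870912 536870912 0 536870912 1) ndF0q1 ndF0q2 pcF1 cut_pm_112 Ext.none)

def k0_pm_112 : ∃ t, chk3 f_pm_112 t 1 1 1 = true :=
  ⟨(a (b (a (b (l 6) (a (b (a (l 6) (a (l 6) (l 16826568))) (a (a (l 16835648) (l 16846408)) (l 16863592))) (b (a (l 16835560) (l 16834480)) (a (l 16875584) (b (l 16860760) (l 16880968)))))) (a (b (b (l 6) (a (l 16804808) (l 1))) (a (b (l 16829800) (l 16853792)) (l 1))) (l 1))) (a (b (a (b (a (b (l 16873952) (l 16883944)) (l 16890632)) (a (l 16803872) (l 16824552))) (b (a (b (l 16897880) (l 16861064)) (l 16846384)) (a (l 16787152) (l 16750640)))) (a (b (a (b (l 16801400) (a (l 16780200) (l 16758424))) (b (l 16762280) (l 16717888))) (b (a (a (b (l 16756896) (l 16740560)) (l 16657840)) (b (l 16682632) (l 1))) (a (a (a (a (b (l 16735112) (b (l 16618352) (c (b (l 16758608) (c (l 16776064) (l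 16709288))) (b (l 16675856) (b (l 16630552) (c (c (l 16686024) (l 22)) (l 22))))))) (b (l 16727616) (c (l 174516460551) (l 160557678439)))) (b (l 16632048) (b (l 160557666167) (l 1)))) (b (l 161094549207) (l 1))) (l 1)))) (b (a (l 176663961175) (l 1)) (l 1)))) (b (l 1) (l 1)))) (l 1)), by decide +kernel⟩

theorem c_pm_112 : CertF 536870912 536870912 0 536870912 469762048 67108864 false true false .dn 1 1 2
    ndF0q1 ndF0q2 pcF1 cut_pm_112 Ext.none :=
  certF2 (fam := false) (s1 := true) (s2 := false) (a := 1) (b := 1) (c := 2) (cn := .dn) (n1 := ndF0q1) (n2 := ndF0q2) (pc := pcF1) (cut := cut_pm_112) (xt := Ext.none) (P1 := 536870912) (W1 := 536870912) (P2 := 0) (W2 := 536870912) (P3 := 469762048) (W3 := 67108864)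
    rfl (fun _ => rfl) k0_pm_112

noncomputable def cut_pm_202 : Cut := Cut.of [[⟨3, 0, 0, 1449551462⟩], [⟨4, 0, 0, 2845415833⟩], [⟨0, 1, 0, 67108864⟩, ⟨1, 0, 0, 67108864⟩, ⟨2, 1, 0, 67108864⟩]]

noncomputable def f_pm_202 : ℕ → ℕ → ℕ → ℕ → Bool := onCell 0 536870912 0 536870912 469762048 67108864
    (rowF 0 false true false .pp 2 0 2 (qsf 0 536870912 0 536870912 0) ndF0q2 ndF0q2 pcF0 cut_pm_202 Ext.none)

def k0_pm_202 : ∃ t, chk3 f_pm_202 t 1 1 1 = true :=
  ⟨(l 6), by decide +kernel⟩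

theorem c_pm_202 : CertF 0 536870912 0 536870912 469762048 67108864 false true false .pp 2 0 2
    ndF0q2 ndF0q2 pcF0 cut_pm_202 Ext.none :=
  certF0 (fam := false) (s1 := true) (s2 := false) (a := 2) (b := 0) (c := 2) (cn := .pp) (n1 := ndF0q2) (n2 := ndF0q2) (pc := pcF0) (cut := cut_pm_202) (xt := Ext.none) (P1 := 0) (W1 := 536870912) (P2 := 0) (W2 := 536870912) (P3 := 469762048) (W3 := 67108864)
    rfl k0_pm_202

noncomputable def cut_mm_001 : Cut := Cut.of [[⟨3, 0, 0, 1449551462⟩], [⟨4, 0, 0, 2845415833⟩]]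

noncomputable def f_mm_001 : ℕ → ℕ → ℕ → ℕ → Bool := onCell 0 536870912 536870912 536870912 469762048 67108864
    (rowF 0 false false false .up 0 0 1 (qsf 0 536870912 536870912 536870912 0) ndF0q0 ndF0q1 pcF0 cut_mm_001 Ext.none)

def k0_mm_001 : ∃ t, chk3 f_mm_001 t 1 1 1 = true :=
  ⟨(l 6), by decide +kernel⟩

theorem c_mm_001 : CertF 0 536870912 536870912 536870912 469762048 67108864 false false false .up 0 0 1
    ndF0q0 ndF0q1 pcF0 cut_mm_001 Ext.none :=
  certF0 (fam := false) (s1 := false) (s2 := false) (a := 0) (b := 0) (c := 1) (cn := .up) (n1 := ndF0q0) (n2 := ndF0q1) (pc := pcF0) (cut := cut_mm_001) (xt := Ext.none) (P1 := 0) (W1 := 536870912) (P2 := 536870912) (W2 := 536870912) (P3 := 469762048) (W3 := 67108864)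
    rfl k0_mm_001

noncomputable def cut_mm_011 : Cut := Cut.of [[⟨3, 0, 0, 1449551462⟩], [⟨4, 0, 0, 2845415833⟩]]

noncomputable def f_mm_011 : ℕ → ℕ → ℕ → ℕ → Bool := onCell 0 536870912 536870912 536870912 469762048 67108864
    (rowF 0 false false false .pnn 0 1 1 (qsf 0 536870912 536870912 536870912 1) ndF0q0 ndF0q1 pcF1 cut_mm_011 Ext.none)

def k0_mm_011 : ∃ t, chk3 f_mm_011 t 1 1 1 = true :=
  ⟨(l 6), by decide +kernel⟩

theorem c_mm_011 : CertF 0 536870912 536870912 536870912 469762048 67108864 false false false .pnn 0 1 1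
    ndF0q0 ndF0q1 pcF1 cut_mm_011 Ext.none :=
  certF0 (fam := false) (s1 := false) (s2 := false) (a := 0) (b := 1) (c := 1) (cn := .pnn) (n1 := ndF0q0) (n2 := ndF0q1) (pc := pcF1) (cut := cut_mm_011) (xt := Ext.none) (P1 := 0) (W1 := 536870912) (P2 := 536870912) (W2 := 536870912) (P3 := 469762048) (W3 := 67108864)
    rfl k0_mm_011

noncomputable def cut_mm_012 : Cut := Cut.of [[⟨3, 0, 0, 1449551462⟩], [⟨4, 0, 0, 2845415833⟩]]

noncomputable def f_mm_012 : ℕ → ℕ → ℕ → ℕ → Bool := onCell 0 536870912 0 536870912 469762048 67108864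
    (rowF 0 false false false .pnp 0 1 2 (qsf 0 536870912 0 536870912 1) ndF0q0 ndF0q2 pcF1 cut_mm_012 Ext.none)

def k0_mm_012 : ∃ t, chk3 f_mm_012 t 1 1 1 = true :=
  ⟨(l 5), by decide +kernel⟩

theorem c_mm_012 : CertF 0 536870912 0 536870912 469762048 67108864 false false false .pnp 0 1 2
    ndF0q0 ndF0q2 pcF1 cut_mm_012 Ext.none :=
  certF0 (fam := false) (s1 := false) (s2 := false) (a := 0) (b := 1) (c := 2) (cn := .pnp) (n1 := ndF0q0) (n2 := ndF0q2) (pc := pcF1) (cut := cut_mm_012) (xt := Ext.none) (P1 := 0) (W1 := 536870912) (P2 := 0) (W2 := 536870912) (P3 := 469762048) (W3 := 67108864)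
    rfl k0_mm_012

noncomputable def cut_mm_022 : Cut := Cut.of [[⟨3, 0, 0, 1449551462⟩], [⟨4, 0, 0, 2845415833⟩]]

noncomputable def f_mm_022 : ℕ → ℕ → ℕ → ℕ → Bool := onCell 0 536870912 0 536870912 469762048 67108864
    (rowF 0 false false false .pp 0 2 2 (qsf 0 536870912 0 536870912 2) ndF0q0 ndF0q2 pcF2 cut_mm_022 Ext.none)

def k0_mm_022 : ∃ t, chk3 f_mm_022 t 1 1 1 = true :=
  ⟨(l 5), by decide +kernel⟩

theorem c_mm_022 : CertF 0 536870912 0 536870912 469762048 67108864 false false false .pp 0 2 2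
    ndF0q0 ndF0q2 pcF2 cut_mm_022 Ext.none :=
  certF0 (fam := false) (s1 := false) (s2 := false) (a := 0) (b := 2) (c := 2) (cn := .pp) (n1 := ndF0q0) (n2 := ndF0q2) (pc := pcF2) (cut := cut_mm_022) (xt := Ext.none) (P1 := 0) (W1 := 536870912) (P2 := 0) (W2 := 536870912) (P3 := 469762048) (W3 := 67108864)
    rfl k0_mm_022

noncomputable def cut_mm_101 : Cut := Cut.of [[⟨3, 0, 0, 1449551462⟩], [⟨4, 0, 0, 2845415833⟩]]

noncomputable def f_mm_101 : ℕ → ℕ → ℕ → ℕ → Bool := onCell 536870912 536870912 536870912 536870912 469762048 67108864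
    (rowF 0 false false false .npn 1 0 1 (qsf 536870912 536870912 536870912 536870912 0) ndF0q1 ndF0q1 pcF0 cut_mm_101 Ext.none)

def k0_mm_101 : ∃ t, chk3 f_mm_101 t 1 1 1 = true :=
  ⟨(l 3), by decide +kernel⟩

theorem c_mm_101 : CertF 536870912 536870912 536870912 536870912 469762048 67108864 false false false .npn 1 0 1
    ndF0q1 ndF0q1 pcF0 cut_mm_101 Ext.none :=
  certF0 (fam := false) (s1 := false) (s2 := false) (a := 1) (b := 0) (c := 1) (cn := .npn) (n1 := ndF0q1) (n2 := ndF0q1) (pc := pcF0) (cut := cut_mm_101) (xt := Ext.none) (P1 := 536870912) (W1 := 536870912) (P2 := 536870912) (W2 := 536870912) (P3 := 469762048) (W3 := 67108864)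
    rfl k0_mm_101

noncomputable def cut_mm_102 : Cut := Cut.of [[⟨3, 0, 0, 1449551462⟩], [⟨4, 0, 0, 2845415833⟩]]

noncomputable def f_mm_102 : ℕ → ℕ → ℕ → ℕ → Bool := onCell 536870912 536870912 0 536870912 469762048 67108864
    (rowF 0 false false false .npp 1 0 2 (qsf 536870912 536870912 0 536870912 0) ndF0q1 ndF0q2 pcF0 cut_mm_102 Ext.none)

def k0_mm_102 : ∃ t, chk3 f_mm_102 t 1 1 1 = true :=
  ⟨(a (l 5) (l 3)), by decide +kernel⟩

theorem c_mm_102 : CertF 536870912 536870912 0 536870912 469762048 67108864 false false false .npp 1 0 2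
    ndF0q1 ndF0q2 pcF0 cut_mm_102 Ext.none :=
  certF0 (fam := false) (s1 := false) (s2 := false) (a := 1) (b := 0) (c := 2) (cn := .npp) (n1 := ndF0q1) (n2 := ndF0q2) (pc := pcF0) (cut := cut_mm_102) (xt := Ext.none) (P1 := 536870912) (W1 := 536870912) (P2 := 0) (W2 := 536870912) (P3 := 469762048) (W3 := 67108864)
    rfl k0_mm_102

noncomputable def cut_mm_112 : Cut := Cut.of [[⟨3, 0, 0, 1449551462⟩], [⟨4, 0, 0, 2845415833⟩]]

noncomputable def f_mm_112 : ℕ → ℕ → ℕ → ℕ → Bool := onCell 536870912 536870912 0 536870912 469762048 67108864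
    (rowF 2 false false false .dn 1 1 2 (qsf 536870912 536870912 0 536870912 1) ndF0q1 ndF0q2 pcF1 cut_mm_112 Ext.none)

def k0_mm_112 : ∃ t, chk3 f_mm_112 t 1 1 1 = true :=
  ⟨(l 5), by decide +kernel⟩

theorem c_mm_112 : CertF 536870912 536870912 0 536870912 469762048 67108864 false false false .dn 1 1 2
    ndF0q1 ndF0q2 pcF1 cut_mm_112 Ext.none :=
  certF2 (fam := false) (s1 := false) (s2 := false) (a := 1) (b := 1) (c := 2) (cn := .dn) (n1 := ndF0q1) (n2 := ndF0q2) (pc := pcF1) (cut := cut_mm_112) (xt := Ext.none) (P1 := 536870912) (W1 := 536870912) (P2 := 0) (W2 := 536870912) (P3 := 469762048) (W3 := 67108864)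
    rfl (fun _ => rfl) k0_mm_112

noncomputable def cut_mm_202 : Cut := Cut.of [[⟨3, 0, 0, 1449551462⟩], [⟨4, 0, 0, 2845415833⟩]]

noncomputable def f_mm_202 : ℕ → ℕ → ℕ → ℕ → Bool := onCell 0 536870912 0 536870912 469762048 67108864
    (rowF 0 false false false .pp 2 0 2 (qsf 0 536870912 0 536870912 0) ndF0q2 ndF0q2 pcF0 cut_mm_202 Ext.none)

def k0_mm_202 : ∃ t, chk3 f_mm_202 t 1 1 1 = true :=
  ⟨(l 3), by decide +kernel⟩

theorem c_mm_202 : CertF 0 536870912 0 536870912 469762048 67108864 false false false .pp 2 0 2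
    ndF0q2 ndF0q2 pcF0 cut_mm_202 Ext.none :=
  certF0 (fam := false) (s1 := false) (s2 := false) (a := 2) (b := 0) (c := 2) (cn := .pp) (n1 := ndF0q2) (n2 := ndF0q2) (pc := pcF0) (cut := cut_mm_202) (xt := Ext.none) (P1 := 0) (W1 := 536870912) (P2 := 0) (W2 := 536870912) (P3 := 469762048) (W3 := 67108864)
    rfl k0_mm_202

end Pool.Agent.Strip051.G.I7_16_1_2.Tab.C.FB00

namespace Pool.Agent.Strip051.G.I7_16_1_2.Tab.C.FB01

open Pool.Agent.Strip051.PB Pool.Agent.Strip051.PB.T
open Pool.Agent.Strip051.G.I7_16_1_2.Tab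

noncomputable def f_pp_001 : ℕ → ℕ → ℕ → ℕ → Bool := onCell 0 536870912 536870912 536870912 469762048 67108864
    (rowF 0 false true true .up 0 0 1 (qsf 0 536870912 536870912 536870912 0) ndF0q0 ndF1q1 pcF0 Cut.none Ext.none)

def k0_pp_001 : ∃ t, chk3 f_pp_001 t 1 1 1 = true :=
  ⟨(l 3), by decide +kernel⟩

theorem c_pp_001 : CertF 0 536870912 536870912 536870912 469762048 67108864 false true true .up 0 0 1
    ndF0q0 ndF1q1 pcF0 Cut.none Ext.none :=
  certF0 (fam := false) (s1 := true) (s2 := true) (a := 0) (b := 0) (c := 1) (cn := .up) (n1 := ndF0q0) (n2 := ndF1q1) (pc := pcF0) (cut := Cut.none) (xt := Ext.none) (P1 := 0) (W1 := 536870912) (P2 := 536870912) (W2 := 536870912) (P3 := 469762048) (W3 := 67108864)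
    rfl k0_pp_001

noncomputable def f_pp_011 : ℕ → ℕ → ℕ → ℕ → Bool := onCell 0 536870912 536870912 536870912 469762048 67108864
    (rowF 0 false true true .pnn 0 1 1 (qsf 0 536870912 536870912 536870912 1) ndF0q0 ndF1q1 pcF1 Cut.none Ext.none)

def k0_pp_011 : ∃ t, chk3 f_pp_011 t 1 1 1 = true :=
  ⟨(l 3), by decide +kernel⟩

theorem c_pp_011 : CertF 0 536870912 536870912 536870912 469762048 67108864 false true true .pnn 0 1 1
    ndF0q0 ndF1q1 pcF1 Cut.none Ext.none :=
  certF0 (fam := false) (s1 := true) (s2 := true) (a := 0) (b := 1) (c := 1) (cn := .pnn) (n1 := ndF0q0) (n2 := ndF1q1) (pc := pcF1) (cut := Cut.none) (xt := Ext.none) (P1 := 0) (W1 := 536870912) (P2 := 536870912) (W2 := 536870912) (P3 := 469762048) (W3 := 67108864)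
    rfl k0_pp_011

noncomputable def cut_pp_012_a : Cut := Cut.of [[⟨0, 0, 0, 67108864⟩, ⟨1, 1, 0, 67108864⟩, ⟨2, 1, 0, 67108864⟩]]

noncomputable def f_pp_012_a : ℕ → ℕ → ℕ → ℕ → Bool := onCell 536870912 536870912 0 536870912 469762048 67108864
    (rowF 2 false true true .pnp 0 1 2 (qsf 0 536870912 0 536870912 1) ndF0q0 ndF1q2a pcF1 cut_pp_012_a Ext.none)

def k0_pp_012_a : ∃ t, chk3 f_pp_012_a t 2 1 1 = true :=
  ⟨(l 3), by decide +kernel⟩

def k1_pp_012_a : ∃ t, chk3 f_pp_012_a t 12 2 1 = true :=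
  ⟨(b (l 3) (l 3)), by decide +kernel⟩

def k2_pp_012_a : ∃ t, chk3 f_pp_012_a t 26 4 1 = true :=
  ⟨(b (a (b (c (a (b (a (b (l 61370999783) (l 3)) (b (l 16744480) (l 60834125655))) (a (l 3) (l 59223520999))) (b (a (l 16741312) (l 16736592)) (a (b (l 61370993319) (l 58686644215)) (b (l 16741208) (l 56539160007))))) (a (b (a (b (a (l 65665966823) (l 66202833607)) (l 3)) (b (l 16748896) (a (l 65129092791) (l 63518480327)))) (a (l 3) (b (l 64592224807) (l 3)))) (b (a (l 16745944) (l 16736352)) (a (b (a (l 64592218727) (l 62981606247)) (l 64055350759)) (b (l 16740480) (a (l 63518473735) (l 62444731975))))))) (a (l 3) (b (a (l 3) (b (c (l 58686640951) (a (l 3) (l 62444732855))) (l 3))) (l 3)))) (b (a (a (a (b (l 16733120) (l 16738952)) (l 16744296)) (l 16751400)) (l 16744688)) (c (a (b (a (b (l 53854802135) (l 58149766759)) (l 52781056007)) (a (l 3) (l 57612895175))) (b (l 16732424) (a (l 54928531895) (l 16736056)))) (a (b (c (a (l 59760376503) (l 56002281095)) (a (b (l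 64055338759) (l 62444731031)) (b (l 16737064) (l 58686634023)))) (a (l 3) (b (a (l 59760376071) (l 59223501079)) (l 3)))) (b (l 16742680) (a (b (l 57612889271) (a (l 58686631127) (l 58686627031))) (b (l 16734104) (l 57076015191)))))))) (a (l 3) (b (a (l 3) (b (a (l 3) (c (l 56539146839) (b (a (l 58149757111) (l 56002274103)) (l 56539147335)))) (l 3))) (l 3)))), by decide +kernel⟩

def k3_pp_012_a : ∃ t, chk3 f_pp_012_a t 27 4 1 = true :=
  ⟨(b (b (a (l 16731488) (l 16693504)) (a (a (c (l 16747160) (b (l 16723640) (l 16729048))) (l 16738504)) (l 16725480))) (a (b (c (a (b (a (l 48486086519) (l 16732744)) (a (l 54391665255) (l 50633560311))) (b (l 16725864) (a (l 16739232) (l 16729424)))) (a (b (a (b (l 16735216) (a (l 57612883127) (l 56002270903))) (l 16732304)) (a (b (l 56002273383) (l 3)) (c (l 53317913703) (a (l 54928527399) (l 55465394247))))) (b (l 16725904) (a (b (l 16732072) (c (l 16734968) (l 52781044055))) (l 16729152))))) (a (l 3) (b (a (c (l 53854787943) (b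 (a (l 52781043879) (l 52244168887)) (l 3))) (c (l 44191115639) (b (l 51707299223) (a (l 52781040871) (l 50096687271))))) (l 3)))) (b (a (b (l 16717160) (l 16743720)) (l 16732208)) (b (a (c (l 16738896) (a (b (l 16728936) (l 16736896)) (l 16726040))) (l 16719576)) (a (c (a (l 53317910663) (l 16737184)) (a (b (c (l 49559819255) (l 52781035271)) (l 51707299159)) (b (l 16730120) (c (l 16738272) (l 47949202311))))) (c (l 16725152) (a (l 16727232) (l 16722976)))))))), by decide +kernel⟩

def k4_pp_012_a : ∃ t, chk3 f_pp_012_a t 13 5 1 = true :=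
  ⟨(a (l 3) (b (a (l 3) (b (a (b (c (l 51170433479) (a (l 3) (b (l 49559812615) (l 3)))) (l 3)) (b (c (a (l 39359274135) (l 16728768)) (a (c (l 41506756487) (a (l 46875454087) (l 44727975671))) (c (l 16728624) (l 45264842471)))) (c (l 50633556551) (a (l 3) (b (c (l 44727977879) (l 47949193719)) (l 3)))))) (l 3))) (l 3))), by decide +kernel⟩

def k5_pp_012_a : ∃ t, chk3 f_pp_012_a t 6 3 1 = true :=
  ⟨(l 3), by decide +kernel⟩

def k6_pp_012_a : ∃ t, chk3 f_pp_012_a t 14 4 1 = true :=
  ⟨(a (a (b (l 16703504) (b (l 16719352) (a (c (l 16713240) (l 16713912)) (l 16726024)))) (b (l 16668008) (c (l 16727856) (l 16730032)))) (b (l 16692488) (a (l 16712944) (l 16655488)))), by decide +kernel⟩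

def k7_pp_012_a : ∃ t, chk3 f_pp_012_a t 14 5 1 = true :=
  ⟨(a (b (a (b (a (b (c (l 16721992) (l 16729984)) (c (l 31306212967) (a (b (l 16728440) (c (l 16731384) (l 43117361591))) (l 16736088)))) (c (l 16736960) (b (l 16713656) (l 16719240)))) (a (b (c (l 50096679847) (a (c (l 45264845335) (l 44191102727)) (b (l 40433004679) (l 44191097799)))) (l 3)) (c (b (l 16735432) (a (l 38822403271) (l 16728784))) (b (c (l 16735504) (a (l 38822389687) (l 16722736))) (a (b (l 39359266023) (l 3)) (b (l 16727184) (l 38822392919))))))) (b (a (c (l 16707144) (l 16708056)) (l 16720200)) (a (a (b (l 16718528) (c (l 16724376) (l 16734912))) (b (l 16714216) (l 16720168))) (c (l 16710288) (l 16731992))))) (a (b (b (a (l 3) (c (l 47412331367) (a (l 3) (c (l 33453695767) (l 38822391815))))) (l 3)) (l 3)) (b (a (c (b (l 23790021959) (l 49559810279)) (c (b (l 30769337223) (l 39359262839)) (b (a (b (l 33990551799) (l 33453686391)) (l 33453679495)) (a (l 3) (l 36674903751))))) (c (b (l 16719536)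 (l 23790018439)) (b (c (l 16719848) (l 16719800)) (c (l 27011234999) (a (l 28084974775) (l 16723784)))))) (b (a (l 3) (c (l 44191106967) (a (l 33990553463) (c (l 16740648) (l 23253141287))))) (l 3))))) (b (a (b (l 16707728) (a (l 16723264) (l 16714920))) (b (l 16670640) (l 16723624))) (a (b (c (b (l 16727440) (l 16733768)) (a (b (l 16711488) (l 16728072)) (l 16727216))) (a (c (b (l 16744632) (c (l 29158732679) (l 18421313559))) (b (c (l 16723888) (a (l 16736352) (l 16721720))) (c (l 21642534807) (a (l 22179403895) (l 22179396439))))) (c (c (l 16739056) (l 16739488)) (b (l 16715520) (c (l 16721984) (l 16732416)))))) (a (b (l 16718560) (c (l 16730720) (b (l 16707256) (l 16713688)))) (b (l 16710352) (c (l 16722288) (l 16723264))))))), by decide +kernel⟩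

def k8_pp_012_a : ∃ t, chk3 f_pp_012_a t 15 2 1 = true :=
  ⟨(b (a (b (l 16645680) (b (l 16650216) (l 16679608))) (a (l 16650176) (l 16639288))) (a (b (a (a (l 16685320) (l 16677568)) (l 16666144)) (a (a (b (l 16676056) (l 16719960)) (c (l 16710088) (b (l 16674040) (l 16686176)))) (c (l 16708688) (b (l 16683296) (l 16695280))))) (b (a (l 16651240) (l 16636616)) (b (a (l 16646248) (l 16631200)) (a (l 16689648) (l 16663880)))))), by decide +kernel⟩

def k9_pp_012_a : ∃ t, chk3 f_pp_012_a t 14 3 1 = true :=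
  ⟨(b (a (l 3) (b (a (b (a (b (c (l 49022944135) (c (l 16273833367) (a (l 3) (l 17884440759)))) (l 3)) (a (b (c (l 16730624) (c (l 16730736) (l 16810692551))) (l 3)) (c (b (l 16726408) (l 16738552)) (b (l 23790006071) (c (l 16743880) (l 14663214199)))))) (l 3)) (a (b (c (b (l 16719960) (l 8757638839)) (b (c (l 16720328) (l 16720296)) (c (l 20568781927) (a (l 16739664) (l 16725072))))) (b (a (c (l 22179409655) (c (l 16746760) (l 9831381415))) (c (l 16742648) (c (l 16732256) (l 10368245623)))) (l 3))) (b (c (l 16735968) (b (l 16712096) (c (l 16718920) (l 16718912)))) (a (b (c (l 16727984) (l 18421300359)) (c (l 10905127863) (c (l 16745904) (l 8220757767)))) (b (c (l 16723736) (l 16723976)) (c (l 16731288) (c (l 16731360) (l 16741672)))))))) (a (l 3) (b (a (l 3) (a (l 3) (a (l 3) (b (b (l 16736016) (l 3)) (l 3))))) (l 3))))) (l 3)), by decide +kernel⟩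

def k10_pp_012_a : ∃ t, chk3 f_pp_012_a t 30 6 1 = true :=
  ⟨(b (b (a (c (a (l 16727592) (l 16719344)) (a (c (l 16728224) (l 16728352)) (l 16720224))) (c (l 16707216) (a (l 16712200) (l 16704256)))) (a (a (c (b (l 16717424) (l 16745944)) (b (l 16728296) (c (l 16725160) (l 16735528)))) (c (l 16733848) (b (l 16709656) (l 16727424)))) (a (c (l 16725640) (a (l 16728200) (l 16724176))) (b (l 16714304) (l 16721616))))) (a (b (a (a (b (c (l 7683904071) (c (l 16745296) (l 16745080))) (c (l 16810706695) (l 46875460343))) (b (c (l 16730680) (l 16741128)) (b (a (l 16737656) (l 16735624)) (l 8757644727)))) (a (b (c (l 16726488) (l 16726536)) (c (l 16745032) (l 16741568))) (b (c (l 16722328) (l 16722448)) (c (l 16730376) (l 16730256))))) (a (l 3) (a (b (b (l 11978868903) (l 3)) (l 3)) (b (b (l 16736504) (a (l 16741640) (l 16739632))) (a (l 3) (b (l 16743768) (l 3))))))) (b (a (c (b (l 16737104) (l 16745128)) (b (l 16726832) (a (l 16726176) (l 16722104)))) (c (c (l 16732784) (l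 16733064)) (b (l 16708264) (l 16716024)))) (a (a (b (c (l 16745024) (l 16734256)) (b (l 15200093959) (c (l 16750344) (l 16744728)))) (b (c (l 16730392) (l 16730168)) (b (l 16736640) (l 16744872)))) (b (c (l 16734696) (a (l 16726096) (l 16722040))) (c (a (l 16745256) (l 16730648)) (a (l 16734480) (l 16730400)))))))), by decide +kernel⟩

def k11_pp_012_a : ∃ t, chk3 f_pp_012_a t 31 6 1 = true :=
  ⟨(b (b (a (c (l 16670464) (l 16702936)) (c (l 16655064) (l 16687368))) (a (a (c (l 16688592) (l 16710200)) (l 16712592)) (a (l 16694280) (l 16686504)))) (a (b (a (b (l 16721160) (l 16726352)) (b (l 16692224) (l 16700000))) (a (b (c (l 16737040) (l 16726472)) (c (l 16735000) (a (l 16726344) (l 16722296)))) (b (l 16726400) (c (l 16737384) (l 16726736))))) (b (a (a (l 16711160) (l 16707216)) (b (l 16676488) (l 16684176))) (a (c (l 16725192) (b (l 16699968) (l 16708224))) (b (l 16692144) (l 16721368)))))), by decide +kernel⟩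

def k12_pp_012_a : ∃ t, chk3 f_pp_012_a t 30 7 1 = true :=
  ⟨(b (a (l 3) (b (a (a (l 3) (b (b (c (l 16750640) (l 16745008)) (c (l 3925823015) (l 16749344))) (l 3))) (a (b (b (l 16743808) (c (l 16750992) (l 16745344))) (a (l 3) (b (l 16754288) (l 3)))) (b (b (l 16737080) (c (l 16741640) (l 16741264))) (b (c (l 16751408) (l 16750984)) (c (c (l 16755984) (l 16755856)) (c (l 16755640) (l 16755336))))))) (b (a (l 3) (a (l 3) (a (l 3) (a (l 3) (b (l 16753584) (l 3)))))) (l 3)))) (l 3)), by decide +kernel⟩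

def k13_pp_012_a : ∃ t, chk3 f_pp_012_a t 31 7 1 = true :=
  ⟨(b (a (b (a (b (c (a (l 16745784) (l 16731200)) (a (l 16740232) (l 16730920))) (a (c (b (l 16742032) (l 16746632)) (b (l 16741648) (l 16746192))) (b (l 16737800) (c (l 16742504) (l 16742104))))) (a (b (c (l 16727120) (l 16726864)) (b (l 16733720) (l 16738264))) (b (c (l 16723072) (l 16722824)) (c (l 16732032) (l 16736944))))) (a (b (a (a (b (c (l 16757528) (l 16751816)) (l 3)) (b (c (l 16750264) (l 16749784)) (c (l 16760160) (l 16757056)))) (b (c (l 16747160) (l 16751960)) (a (c (l 16758160) (l 16757664)) (a (l 16751176) (l 16750144))))) (a (l 3) (a (b (b (l 16758864) (l 3)) (l 3)) (a (b (c (l 16761392) (l 16760864)) (l 3)) (b (c (l 16755144) (l 16754608)) (c (l 16762512) (l 16762000))))))) (b (b (a (c (l 16743040) (l 16742624)) (l 16744032)) (a (c (l 16747768) (l 16752536)) (c (l 16743648) (l 16743200)))) (a (a (a (b (c (l 16754112) (l 16753584)) (b (l 16757496) (l 3))) (b (l 16758096) (b (l 16756480) (l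 16758888)))) (b (c (l 16751528) (l 16751016)) (b (l 16754928) (l 6)))) (b (c (l 16753680) (l 16753184)) (l 6)))))) (b (a (b (a (l 16729456) (l 16735920)) (a (c (l 16727976) (l 16727648)) (c (l 16723928) (l 16723600)))) (a (b (l 16710936) (l 16735512)) (b (l 16706936) (l 16726248)))) (a (b (a (b (l 16734712) (l 16744624)) (c (l 16743624) (l 16737976))) (a (b (c (l 16744328) (l 16743848)) (l 6)) (l 6))) (b (a (c (l 16729088) (l 16728672)) (l 6)) (l 6))))) (a (a (l 3) (b (l 6) (l 3))) (l 6))), by decide +kernel⟩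

theorem s14_pp_012_a : ∃ t, chk3 f_pp_012_a t 15 7 1 = true := ex3_a k12_pp_012_a k13_pp_012_a

theorem s15_pp_012_a : ∃ t, chk3 f_pp_012_a t 15 6 1 = true := ex3_a k10_pp_012_a k11_pp_012_a

theorem s16_pp_012_a : ∃ t, chk3 f_pp_012_a t 15 3 1 = true := ex3_b s15_pp_012_a s14_pp_012_a

theorem s17_pp_012_a : ∃ t, chk3 f_pp_012_a t 7 3 1 = true := ex3_a k9_pp_012_a s16_pp_012_a

theorem s18_pp_012_a : ∃ t, chk3 f_pp_012_a t 14 2 1 = true := ex3_b k6_pp_012_a k7_pp_012_a

theorem s19_pp_012_a : ∃ t, chk3 f_pp_012_a t 7 2 1 = true := ex3_a s18_pp_012_a k8_pp_012_a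

theorem s20_pp_012_a : ∃ t, chk3 f_pp_012_a t 7 1 1 = true := ex3_b s19_pp_012_a s17_pp_012_a

theorem s21_pp_012_a : ∃ t, chk3 f_pp_012_a t 13 4 1 = true := ex3_a k2_pp_012_a k3_pp_012_a

theorem s22_pp_012_a : ∃ t, chk3 f_pp_012_a t 13 2 1 = true := ex3_b s21_pp_012_a k4_pp_012_a

theorem s23_pp_012_a : ∃ t, chk3 f_pp_012_a t 6 2 1 = true := ex3_a k1_pp_012_a s22_pp_012_a

theorem s24_pp_012_a : ∃ t, chk3 f_pp_012_a t 6 1 1 = true := ex3_b s23_pp_012_a k5_pp_012_a

theorem s25_pp_012_a : ∃ t, chk3 f_pp_012_a t 3 1 1 = true := ex3_a s24_pp_012_a s20_pp_012_a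

theorem s26_pp_012_a : ∃ t, chk3 f_pp_012_a t 1 1 1 = true := ex3_a k0_pp_012_a s25_pp_012_a

theorem c_pp_012_a : CertF 0 536870912 0 536870912 469762048 67108864 false true true .pnp 0 1 2
    ndF0q0 ndF1q2a pcF1 cut_pp_012_a Ext.none :=
  certF2 (fam := false) (s1 := true) (s2 := true) (a := 0) (b := 1) (c := 2) (cn := .pnp) (n1 := ndF0q0) (n2 := ndF1q2a) (pc := pcF1) (cut := cut_pp_012_a) (xt := Ext.none) (P1 := 0) (W1 := 536870912) (P2 := 0) (W2 := 536870912) (P3 := 469762048) (W3 := 67108864)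
    rfl (fun _ => rfl) s26_pp_012_a

noncomputable def cut_pp_012_b : Cut := Cut.of [[⟨0, 0, 0, 67108864⟩, ⟨1, 1, 0, 67108864⟩, ⟨2, 1, 0, 67108864⟩]]

noncomputable def f_pp_012_b : ℕ → ℕ → ℕ → ℕ → Bool := onCell 536870912 536870912 1239849684 370763052 469762048 67108864
    (rowF 2 false true true .pnp 0 1 2 (qsf 0 536870912 1239849684 370763052 1) ndF0q0 ndF1q2b pcF1 cut_pp_012_b Ext.none)

def k0_pp_012_b : ∃ t, chk3 f_pp_012_b t 2 1 1 = true :=
  ⟨(b (l 3) (l 2)), by decide +kernel⟩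

def k1_pp_012_b : ∃ t, chk3 f_pp_012_b t 3 2 1 = true :=
  ⟨(a (a (b (a (l 3) (b (l 3) (l 3))) (l 3)) (b (a (b (a (b (a (a (b (b (a (c (l 61371000695) (l 65129095991)) (l 16746072)) (l 61907876023)) (l 61371012055)) (b (c (l 16743592) (l 16741792)) (l 16743168))) (b (a (l 16738144) (l 16733552)) (l 16736184))) (a (b (l 61907892231) (l 58149808263)) (b (l 16737024) (l 16738504)))) (b (b (l 16753536) (l 16722032)) (a (l 16727848) (l 16717936)))) (a (a (l 3) (a (b (l 66739701447) (l 3)) (b (l 16739544) (l 59760379863)))) (b (a (l 16731752) (l 16721192)) (a (b (l 16736824) (l 16741328)) (l 16727728))))) (b (a (b (l 16724672) (l 16703096)) (b (l 16686072) (l 16683776))) (a (b (l 16705192) (l 16710576)) (b (l 16684016) (l 16687576))))) (a (a (l 3) (b (a (b (b (l 57076016951) (l 54391668391)) (c (l 47949295671) (l 48486111943))) (b (c (l 16747936) (l 16728016)) (c (l 16763584) (l 39359285831)))) (a (l 3) (b (b (l 54391677607) (l 53317934135)) (l 51707341495))))) (b (a (b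 (l 16730288) (a (l 16738808) (l 16726024))) (b (l 16694904) (l 16706440))) (a (b (a (l 16754320) (l 16741616)) (a (l 16772480) (l 16759776))) (b (l 16721616) (l 16739632))))))) (a (b (b (a (b (l 16703080) (l 16718896)) (c (l 16687232) (l 16689464))) (a (a (l 16684792) (l 16663696)) (a (l 16643496) (l 16624000)))) (a (b (a (l 16695824) (l 16648704)) (a (b (l 16693480) (l 16711120)) (l 16672240))) (b (a (l 16623912) (l 16600176)) (a (l 16642696) (l 16613080))))) (b (a (b (c (l 16635784) (l 16638584)) (b (l 16600296) (l 16571760))) (a (b (l 16574048) (l 16548328)) (b (l 16560120) (l 16551952)))) (a (b (a (l 16577032) (l 16554768)) (l 16623256)) (b (a (l 16533120) (l 16512216)) (a (l 16531176) (l 16505672))))))), by decide +kernel⟩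

def k2_pp_012_b : ∃ t, chk3 f_pp_012_b t 3 3 1 = true :=
  ⟨(a (a (l 2) (b (a (l 3) (b (a (b (l 16787120) (l 16810888)) (b (l 16760592) (l 16784568))) (a (l 2) (l 101569374951)))) (l 2))) (a (b (a (b (a (l 16743216) (l 16712352)) (a (l 16797008) (l 16766112))) (b (b (l 16652600) (l 16674976)) (l 16715088))) (a (l 2) (b (l 16785216) (l 2)))) (b (b (a (l 16595960) (l 16530728)) (a (l 16640344) (l 16566080))) (a (b (l 16705984) (l 16780480)) (b (l 16624096) (l 16722864)))))), by decide +kernel⟩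

theorem s3_pp_012_b : ∃ t, chk3 f_pp_012_b t 3 1 1 = true := ex3_b k1_pp_012_b k2_pp_012_b

theorem s4_pp_012_b : ∃ t, chk3 f_pp_012_b t 1 1 1 = true := ex3_a k0_pp_012_b s3_pp_012_b

theorem c_pp_012_b : CertF 0 536870912 1239849684 370763052 469762048 67108864 false true true .pnp 0 1 2
    ndF0q0 ndF1q2b pcF1 cut_pp_012_b Ext.none :=
  certF2 (fam := false) (s1 := true) (s2 := true) (a := 0) (b := 1) (c := 2) (cn := .pnp) (n1 := ndF0q0) (n2 := ndF1q2b) (pc := pcF1) (cut := cut_pp_012_b) (xt := Ext.none) (P1 := 0) (W1 := 536870912) (P2 := 1239849684) (W2 := 370763052) (P3 := 469762048) (W3 := 67108864)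
    rfl (fun _ => rfl) s4_pp_012_b

noncomputable def cut_pp_022_a : Cut := Cut.of [[⟨0, 0, 0, 67108864⟩, ⟨1, 1, 0, 67108864⟩, ⟨2, 1, 0, 67108864⟩]]

noncomputable def f_pp_022_a : ℕ → ℕ → ℕ → ℕ → Bool := onCell 0 536870912 0 536870912 469762048 67108864
    (rowF 0 false true true .pp 0 2 2 (qsf 0 536870912 0 536870912 2) ndF0q0 ndF1q2a pcF2 cut_pp_022_a Ext.none)

def k0_pp_022_a : ∃ t, chk3 f_pp_022_a t 2 2 1 = true :=
  ⟨(a (a (b (a (b (a (l 16546072) (l 16550880)) (a (b (l 16553536) (l 16560048)) (l 16561392))) (b (l 16555184) (l 16564976))) (a (c (b (a (b (l 16578576) (l 16584800)) (l 16583976)) (a (a (b (l 16590680) (l 16598952)) (l 16596864)) (l 16599224))) (b (a (b (l 16555832) (l 16562960)) (l 16565664)) (a (b (l 16571112) (l 16581088)) (l 16583408)))) (b (a (l 16577608) (l 16578768)) (a (l 16595280) (l 16598288))))) (b (a (b (l 16555520) (l 16564312)) (l 16653008)) (b (a (l 16663168) (l 16686136)) (a (a (l 16600312) (l 16600512)) (a (l 16680744) (b (l 16615696)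 (a (l 16631152) (l 251288879015)))))))) (a (b (a (b (c (l 16658504) (l 16676864)) (a (b (l 16577224) (l 16588056)) (b (l 16593704) (l 245920127511)))) (b (l 1) (l 1))) (a (b (a (b (l 16600744) (l 238403920519)) (b (l 291554139223) (l 387117191079))) (a (b (a (l 246457018471) (l 359199914007)) (a (l 350073131111) (l 1))) (l 1))) (l 1))) (l 1))), by decide +kernel⟩

def k1_pp_022_a : ∃ t, chk3 f_pp_022_a t 4 6 1 = true :=
  ⟨(a (a (b (a (b (a (c (b (l 16606256) (l 16611792)) (l 16590840)) (l 16603552)) (a (c (b (l 16617856) (l 16624488)) (l 16626008)) (l 16638032))) (b (l 16608104) (a (l 16620584) (l 16623960)))) (a (b (a (b (c (l 16631736) (l 16617296)) (c (l 16639664) (l 16626440))) (b (l 16628776) (l 16637664))) (a (a (b (c (l 16647424) (l 16634976)) (c (l 16657120) (l 16645808))) (b (l 16643800) (l 16654160))) (b (l 16647376) (l 16657816)))) (b (a (l 16637384) (l 16641240)) (b (l 16653856) (l 16664456))))) (b (a (b (l 16613376) (l 16628640)) (b (l 16617736) (l 16633432)))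 (a (b (l 16646256) (b (l 16661008) (l 16671808))) (b (l 16714312) (a (l 16691768) (l 16715240)))))) (b (a (a (l 16670416) (b (l 16621072) (a (l 16641904) (a (l 16670112) (l 16653832))))) (a (b (a (l 16677408) (b (l 16638656) (l 16650520))) (a (b (l 16654040) (l 244309605623)) (b (l 265784427351) (l 343630735575)))) (b (a (b (l 241088341767) (l 322155865687)) (l 351146900231)) (l 1)))) (a (b (b (a (l 16649904) (a (l 16662808) (b (l 16668496) (l 236793427831)))) (a (l 16715672) (a (b (l 16673760) (l 16681256)) (a (l 295312370279) (l 339335793911))))) (a (a (b (l 16674064) (a (l 16708984) (l 16692752))) (b (b (l 16679656) (l 16687552)) (b (l 249141494327) (a (l 281890631751) (l 1))))) (b (a (b (l 259878899191) (l 320008456871)) (l 1)) (l 1)))) (b (a (a (b (a (l 314639711959) (l 1)) (l 1)) (l 1)) (l 1)) (l 1))))), by decide +kernel⟩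

def k2_pp_022_a : ∃ t, chk3 f_pp_022_a t 4 7 1 = true :=
  ⟨(a (b (a (b (a (a (a (b (c (l 16667608) (l 16657472)) (b (a (l 16670792) (l 16672152)) (l 6))) (b (l 16665288) (l 16681824))) (b (l 16669024) (l 16691544))) (b (a (l 16673656) (l 16677840)) (a (l 16685776) (l 16690096)))) (l 6)) (b (a (a (a (l 16707904) (l 16730752)) (a (l 16711584) (l 16713304))) (b (a (l 16688288) (b (l 16714448) (a (l 16699792) (l 16704552)))) (b (a (l 16732912) (a (l 16708664) (b (l 231961659351) (l 278669434439)))) (a (l 6) (a (l 6) (l 345241440951)))))) (a (l 6) (a (l 6) (a (l 6) (l 1)))))) (a (l 6) (a (l 6) (l 1)))) (b (a (b (a (b (a (b (a (l 16700616) (l 263637028311)) (a (l 260952681655) (l 346852036711))) (b (l 352757613255) (l 1))) (a (b (a (l 345241432279) (l 1)) (l 1)) (l 1))) (l 1)) (l 1)) (l 1)) (l 1))), by decide +kernel⟩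

def k3_pp_022_a : ∃ t, chk3 f_pp_022_a t 5 3 1 = true :=
  ⟨(b (l 1) (l 1)), by decide +kernel⟩

def k4_pp_022_a : ∃ t, chk3 f_pp_022_a t 3 1 1 = true :=
  ⟨(l 1), by decide +kernel⟩

theorem s5_pp_022_a : ∃ t, chk3 f_pp_022_a t 4 3 1 = true := ex3_b k1_pp_022_a k2_pp_022_a

theorem s6_pp_022_a : ∃ t, chk3 f_pp_022_a t 2 3 1 = true := ex3_a s5_pp_022_a k3_pp_022_a

theorem s7_pp_022_a : ∃ t, chk3 f_pp_022_a t 2 1 1 = true := ex3_b k0_pp_022_a s6_pp_022_a

theorem s8_pp_022_a : ∃ t, chk3 f_pp_022_a t 1 1 1 = true := ex3_a s7_pp_022_a k4_pp_022_a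

theorem c_pp_022_a : CertF 0 536870912 0 536870912 469762048 67108864 false true true .pp 0 2 2
    ndF0q0 ndF1q2a pcF2 cut_pp_022_a Ext.none :=
  certF0 (fam := false) (s1 := true) (s2 := true) (a := 0) (b := 2) (c := 2) (cn := .pp) (n1 := ndF0q0) (n2 := ndF1q2a) (pc := pcF2) (cut := cut_pp_022_a) (xt := Ext.none) (P1 := 0) (W1 := 536870912) (P2 := 0) (W2 := 536870912) (P3 := 469762048) (W3 := 67108864)
    rfl s8_pp_022_a

noncomputable def cut_pp_022_b : Cut := Cut.of [[⟨0, 0, 0, 67108864⟩, ⟨1, 1, 0, 67108864⟩, ⟨2, 1, 0, 67108864⟩]]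

noncomputable def f_pp_022_b : ℕ → ℕ → ℕ → ℕ → Bool := onCell 0 536870912 1073741824 536870912 469762048 67108864
    (rowF 1 false true true .pp 0 2 2 (qsf 0 536870912 1239849684 370763052 2) ndF0q0 ndF1q2b pcF2 cut_pp_022_b Ext.none)

def k0_pp_022_b : ∃ t, chk3 f_pp_022_b t 1 1 1 = true :=
  ⟨(a (b (b (a (a (b (l 1) (a (b (l 1) (l 187401119591)) (b (l 132640430583) (l 44056658263)))) (b (b (a (l 1) (l 97206915175)) (a (l 49962368759) (l 16546720))) (a (b (l 16592392) (l 16511056)) (l 16508576)))) (b (b (a (a (l 16648184) (l 16579336)) (a (l 16536112) (l 16539912))) (a (l 16531448) (l 16536032))) (a (l 16505992) (b (l 16396208) (l 16336544))))) (a (a (b (a (b (a (b (l 188474903399) (l 16540008)) (l 16534488)) (l 16543080)) (b (l 16509088) (l 16469464))) (a (b (l 16481280) (l 16417864)) (b (l 16429920) (l 16387824)))) (b (a (l 16475248) (l 16416712)) (a (l 16376528) (l 16341264)))) (a (b (a (l 16397160) (l 16332168)) (l 16345552)) (b (l 16278880) (l 16190424)))))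 (b (a (a (b (a (b (l 16371984) (l 16320624)) (l 16378208)) (a (l 16332656) (l 16189880))) (b (l 16367432) (l 16188864))) (b (a (l 16222408) (l 16232456)) (a (l 16183168) (l 16425736)))) (a (b (a (b (l 16128672) (l 16029728)) (l 16122664)) (a (l 16039944) (l 16338840))) (b (a (l 16380016) (l 2)) (l 2))))) (b (b (a (b (a (b (b (a (l 16498232) (l 16492176)) (l 16513184)) (l 16478304)) (b (a (b (l 16493648) (l 16473584)) (l 16495784)) (l 16449504))) (a (l 16447080) (l 16389448))) (b (a (b (a (l 16520312) (l 16557888)) (l 16506616)) (b (l 16652208) (l 16666320))) (a (l 16491768) (l 16692672)))) (a (a (b (l 16259048) (l 16285728)) (b (l 16364568) (l 16514144))) (a (l 16630448) (l 2)))) (b (a (a (l 16536096) (l 2)) (l 2)) (l 2)))), by decide +kernel⟩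

theorem c_pp_022_b : CertF 0 536870912 1239849684 370763052 469762048 67108864 false true true .pp 0 2 2
    ndF0q0 ndF1q2b pcF2 cut_pp_022_b Ext.none :=
  certF1 (fam := false) (s1 := true) (s2 := true) (a := 0) (b := 2) (c := 2) (cn := .pp) (n1 := ndF0q0) (n2 := ndF1q2b) (pc := pcF2) (cut := cut_pp_022_b) (xt := Ext.none) (P1 := 0) (W1 := 536870912) (P2 := 1239849684) (W2 := 370763052) (P3 := 469762048) (W3 := 67108864)
    rfl (fun _ => rfl) k0_pp_022_b

noncomputable def f_pp_023 : ℕ → ℕ → ℕ → ℕ → Bool := onCell 0 536870912 1073741824 536870912 469762048 67108864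
    (rowF 1 false true true .up 0 2 3 (qsf 0 536870912 1610612736 536870912 2) ndF0q0 ndF1q3 pcF2 Cut.none Ext.none)

def k0_pp_023 : ∃ t, chk3 f_pp_023 t 1 1 1 = true :=
  ⟨(a (b (a (l 1) (b (l 1) (a (l 1) (b (l 1) (l 212097391015))))) (b (a (a (l 1) (b (l 1) (l 233572203767))) (b (a (l 219613623047) (l 16356184)) (l 222834707975))) (a (b (a (l 247530225639) (l 177200510199)) (a (l 237866744567) (l 16407064))) (b (a (l 16444368) (l 16578320)) (a (l 16548776) (l 16674352)))))) (b (a (b (a (l 1) (b (l 1) (l 251825147703))) (b (a (l 232498376135) (l 244845728583)) (l 233572121623))) (b (b (a (l 273836546327) (b (l 289943037479) (l 16465440))) (a (l 16352960) (l 16585008))) (a (l 16589208) (l 16735416)))) (b (a (a (l 16520832) (l 16669840)) (a (l 16768880) (l 16833976))) (a (b (l 16743288) (l 16809768)) (b (l 16860536) (l 16870272)))))), by decide +kernel⟩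

theorem c_pp_023 : CertF 0 536870912 1610612736 536870912 469762048 67108864 false true true .up 0 2 3
    ndF0q0 ndF1q3 pcF2 Cut.none Ext.none :=
  certF1 (fam := false) (s1 := true) (s2 := true) (a := 0) (b := 2) (c := 3) (cn := .up) (n1 := ndF0q0) (n2 := ndF1q3) (pc := pcF2) (cut := Cut.none) (xt := Ext.none) (P1 := 0) (W1 := 536870912) (P2 := 1610612736) (W2 := 536870912) (P3 := 469762048) (W3 := 67108864)
    rfl (fun _ => rfl) k0_pp_023

end Pool.Agent.Strip051.G.I7_16_1_2.Tab.C.FB01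

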