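import Pool.Agent.Strip051.G.I7_16_1_2.StF

/-! # Unit strips 6 (generated) -/

set_option linter.all false
set_option maxRecDepth 100000

namespace Pool.Agent.Strip051.G.I7_16_1_2.Tab.St.C

open Pool.Agent.Strip051.PB Pool.Agent.Strip051.PB.T Pool.Agent.StripNear Pool.Agent.Strip051.LC
open Pool.Agent.Strip051.G.I7_16_1_2.Tab Pool.Agent.Strip051.G.I7_16_1_2.Tab.St

noncomputable def cut_B00pp_012_s1 : Cut := Cut.of [[⟨4, 0, 0, 1449551462⟩], [⟨0, 0, 0, 67108864⟩, ⟨1, 1, 0, 67108864⟩, ⟨2, 1, 0, 67108864⟩]]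

noncomputable def xt_B00pp_012_s1 : Ext := strExt dd false true true .u0 .u2 .u0m .pnp 0 1 2 rfl rfl gf1 vv ndF0q0 ndF0q2

noncomputable def f_B00pp_012_s1 : ℕ → ℕ → ℕ → ℕ → Bool := onCell 536870912 536870912 0 536870912 469762048 67108864
    (rowF 2 false true true .pnp 0 1 2 (qsf 0 536870912 0 536870912 1) ndF0q0 ndF0q2 pcF1 cut_B00pp_012_s1 xt_B00pp_012_s1)

def k0_B00pp_012_s1 : ∃ t, chk3 f_B00pp_012_s1 t 2 1 1 = true :=
  ⟨(b (a (b (l 2) (l 3)) (b (a (b (b (a (a (l 2) (l 16780112)) (l 536905231)) (a (l 536982287) (l 536793359))) (a (a (l 2) (l 536757775)) (l 536609295))) (b (b (a (l 16772512) (l 16764168)) (a (l 16771272) (l 16763448))) (a (l 536414479) (l 536230671)))) (a (l 3) (b (a (b (l 536201487) (l 3)) (b (l 536014351) (a (l 535893007) (l 535823119)))) (l 3))))) (l 3)), by decide +kernel⟩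

def k1_B00pp_012_s1 : ∃ t, chk3 f_B00pp_012_s1 t 3 2 1 = true :=
  ⟨(a (b (b (a (a (l 16753432) (l 16739352)) (a (l 16720976) (l 16698808))) (a (a (l 536083983) (l 535911951)) (a (l 16768664) (l 16705784)))) (a (b (b (a (l 535877903) (l 535703823)) (a (l 535711503) (l 535538191))) (a (l 535428879) (l 535260431))) (b (a (b (l 16734256) (l 535338767)) (b (l 16713952) (l 16763304))) (a (b (l 535159055) (l 535239695)) (b (l 534934287) (l 534745359)))))) (b (a (b (l 6) (a (l 16681776) (l 16655696))) (l 6)) (a (b (a (c (l 16783576) (l 16773832)) (l 16742528)) (a (b (l 16749840) (a (l 16767304) (l 16713448))) (b (l 16724624) (a (l 16700920) (l 16687856))))) (a (b (b (l 16637712) (l 16645776)) (b (l 16697544) (a (l 16674344) (l 16660480)))) (b (b (l 6) (l 16701536)) (a (b (l 16634536) (l 16646360)) (b (l 16620320) (l 16632088)))))))), by decide +kernel⟩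

def k2_B00pp_012_s1 : ∃ t, chk3 f_B00pp_012_s1 t 6 3 1 = true :=
  ⟨(b (a (b (a (l 3) (b (l 534972687) (l 3))) (l 3)) (b (a (b (l 534771215) (l 534576143)) (b (l 534831631) (a (l 534425615) (l 534328591)))) (a (l 3) (b (a (l 3) (l 534132239)) (l 3))))) (l 3)), by decide +kernel⟩

def k3_B00pp_012_s1 : ∃ t, chk3 f_B00pp_012_s1 t 7 6 1 = true :=
  ⟨(a (b (a (b (a (l 534422799) (l 534332943)) (a (l 534236175) (l 534417423))) (a (b (l 534249231) (l 534873359)) (b (l 16732896) (b (l 16733568) (l 533950991))))) (a (b (a (b (l 534094095) (l 533996303)) (b (l 534009871) (l 533913871))) (a (a (l 3) (b (l 533878287) (l 3))) (b (l 534085135) (a (l 533739279) (l 533702415))))) (b (b (a (l 533932047) (l 533860111)) (a (c (l 533911823) (l 533769743)) (c (l 533833743) (l 533975823)))) (b (a (c (l 533813775) (l 533945103)) (a (l 533694735) (l 533662991))) (a (c (l 533714447) (l 533850895)) (a (l 533600271) (l 533569551)))))))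 (b (a (b (a (l 16719408) (l 16716024)) (a (a (l 533945359) (l 534718223)) (a (l 16713712) (l 16706672)))) (a (b (l 16701872) (a (l 16699568) (l 16692400))) (b (a (l 16649184) (l 16641984)) (a (l 16685184) (l 16677928))))) (a (b (c (a (b (l 16737528) (l 534029839)) (a (l 16731376) (l 16724288))) (a (b (l 534276879) (a (l 16737064) (l 16719640))) (b (a (l 16703800) (l 16696744)) (a (l 16712616) (l 16705520))))) (a (c (b (l 534472719) (l 534646031)) (a (b (l 533580815) (l 533490959)) (b (l 533556239) (l 533467663)))) (b (a (l 533577231) (l 534088975)) (a (l 534292751) (c (l 16735640) (l 533963279)))))) (b (a (b (a (l 16690712) (l 16683504)) (a (l 16720224) (l 16692016))) (b (a (l 16676240) (l 16668944)) (a (l 16684720) (l 16677384)))) (c (a (a (b (l 16708912) (l 16717904)) (b (l 16701608) (l 16710560))) (a (l 16701376) (b (l 16686784) (l 16695664)))) (a (a (b (l 16717880) (a (l 16718520) (l 16714880))) (b (l 16700136)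 (c (l 16709664) (l 534317583)))) (a (a (l 16701960) (l 16698296)) (a (l 16691992) (l 16690936))))))))), by decide +kernel⟩

def k4_B00pp_012_s1 : ∃ t, chk3 f_B00pp_012_s1 t 14 7 1 = true :=
  ⟨(b (a (l 3) (b (a (b (a (l 533568783) (l 533536015)) (l 3)) (a (b (l 533504783) (l 533408015)) (b (l 533475343) (c (l 533433103) (l 533598991))))) (a (l 3) (b (b (a (l 3) (l 533310223)) (l 3)) (l 3))))) (l 3)), by decide +kernel⟩

def k5_B00pp_012_s1 : ∃ t, chk3 f_B00pp_012_s1 t 30 7 1 = true :=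
  ⟨(b (b (a (b (a (l 533715983) (c (l 533468175) (l 533915151))) (a (c (l 533402127) (l 534113551)) (a (l 533337615) (l 533325583)))) (a (b (c (l 533707535) (l 534162959)) (a (l 533582607) (l 533840143))) (a (b (l 533382671) (l 534097935)) (b (l 533640463) (c (l 533585423) (l 533787663)))))) (a (b (b (a (l 533285135) (l 533798415)) (a (c (l 533283599) (l 533194767)) (c (l 533256463) (l 533712911)))) (a (l 3) (a (b (l 533176079) (l 3)) (b (l 533165583) (l 533118735))))) (b (b (c (a (l 533277967) (l 533521935)) (c (a (l 533221647) (l 533740303)) (c (a (l 533464335) (l 533717519)) (a (l 533447951) (l 533703183))))) (a (c (l 533230863) (l 533964303)) (a (l 533182735) (l 533173519)))) (a (b (a (l 533155855) (l 533146383)) (a (l 533109263) (l 533100303))) (c (b (l 533159951) (l 533112847)) (c (b (l 533381391) (l 534140687)) (b (b (l 533635087) (l 533612815)) (a (l 533047567) (l 533310735))))))))) (b (a (l 3) (b (a (c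 (a (l 533605391) (l 534130959)) (c (b (a (l 533045775) (l 533038095)) (l 3)) (b (b (l 533557263) (l 533534223)) (l 3)))) (c (a (l 534388239) (b (l 533334799) (l 533556495))) (c (b (a (l 533030671) (l 533292047)) (a (l 533253135) (l 532977935))) (c (a (b (l 533277967) (l 533500943)) (b (l 533540879) (l 532958735))) (a (b (l 533264399) (l 533487631)) (b (l 533528335) (l 532946447))))))) (a (l 3) (b (c (a (l 3) (l 532972303)) (c (c (a (l 3) (l 532938255)) (a (l 3) (l 532925455))) (c (a (l 3) (l 532912911)) (a (l 3) (l 533706511))))) (l 3))))) (l 3))), by decide +kernel⟩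

def k6_B00pp_012_s1 : ∃ t, chk3 f_B00pp_012_s1 t 31 7 1 = true :=
  ⟨(b (b (a (b (a (a (l 533898511) (l 533888527)) (a (l 533073679) (a (l 16728912) (l 16716568)))) (b (a (l 534095119) (a (l 16728416) (l 16724688))) (a (a (l 533253903) (l 533244943)) (a (l 533236495) (l 16729584))))) (b (a (c (l 16712368) (c (l 16711712) (l 16711312))) (a (l 16716800) (l 16702560))) (b (a (l 16719072) (l 16711552)) (a (c (l 16734744) (l 16723656)) (c (l 16727152) (l 16716120)))))) (a (b (b (a (b (l 533751055) (l 533728783)) (a (l 533461263) (l 533721871))) (a (a (l 533433359) (l 533425167)) (a (l 533685775) (l 533141263)))) (a (b (a (l 533388559) (l 533649167)) (c (l 534164751) (c (a (l 533330447) (l 533055247)) (a (l 533573903) (l 533032463))))) (b (a (l 533104655) (l 533365775)) (c (a (l 533083407) (l 14)) (c (a (l 533049103) (l 14)) (c (a (l 533032975) (l 14)) (a (l 533022991) (l 14)))))))) (b (a (a (b (l 533177615) (l 16735760))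 (c (l 16729728) (l 16731880))) (a (c (l 16725912) (l 16728088)) (l 14))) (a (b (a (l 533895695) (l 14)) (l 14)) (l 14))))) (a (b (b (a (b (c (c (l 533325839) (l 534372623)) (c (a (l 533016847) (l 533010447)) (a (l 532992783) (l 532988175)))) (c (a (l 533009935) (l 14)) (c (c (a (l 532977679) (l 14)) (a (l 532965391) (l 14))) (c (a (l 532953615) (l 14)) (c (a (l 532945167) (l 14)) (b (a (l 532954383) (l 14)) (a (l 533200911) (l 14)))))))) (l 14)) (l 14)) (l 14)) (l 14))), by decide +kernel⟩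

theorem t7_B00pp_012_s1 : ∃ t, chk3 f_B00pp_012_s1 t 15 7 1 = true := ex3_a k5_B00pp_012_s1 k6_B00pp_012_s1

theorem t8_B00pp_012_s1 : ∃ t, chk3 f_B00pp_012_s1 t 7 7 1 = true := ex3_a k4_B00pp_012_s1 t7_B00pp_012_s1

theorem t9_B00pp_012_s1 : ∃ t, chk3 f_B00pp_012_s1 t 7 3 1 = true := ex3_b k3_B00pp_012_s1 t8_B00pp_012_s1

theorem t10_B00pp_012_s1 : ∃ t, chk3 f_B00pp_012_s1 t 3 3 1 = true := ex3_a k2_B00pp_012_s1 t9_B00pp_012_s1

theorem t11_B00pp_012_s1 : ∃ t, chk3 f_B00pp_012_s1 t 3 1 1 = true := ex3_b k1_B00pp_012_s1 t10_B00pp_012_s1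

theorem t12_B00pp_012_s1 : ∃ t, chk3 f_B00pp_012_s1 t 1 1 1 = true := ex3_a k0_B00pp_012_s1 t11_B00pp_012_s1

theorem c_B00pp_012_s1 : CertF 0 536870912 0 536870912 469762048 67108864 false true true .pnp 0 1 2
    ndF0q0 ndF0q2 pcF1 cut_B00pp_012_s1 xt_B00pp_012_s1 :=
  certF2 (fam := false) (s1 := true) (s2 := true) (a := 0) (b := 1) (c := 2) (cn := .pnp) (n1 := ndF0q0) (n2 := ndF0q2) (pc := pcF1) (cut := cut_B00pp_012_s1) (xt := xt_B00pp_012_s1) (P1 := 0) (W1 := 536870912) (P2 := 0) (W2 := 536870912) (P3 := 469762048) (W3 := 67108864)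
    rfl (fun _ => rfl) t12_B00pp_012_s1

theorem s_B00pp_012_s1 {κ x : ℝ} (hκ : κ * h0 = ken x) (hx : ((469762048 : ℕ) : ℝ) / S ≤ x)
    (hx' : x ≤ (((469762048 : ℕ) : ℝ) + (67108864 : ℕ)) / S)
    (H : CutB (VF κ) PP tKF tL pcF (Cut.of [[⟨0, 0, 0, 67108864⟩, ⟨1, 1, 0, 67108864⟩, ⟨2, 1, 0, 67108864⟩]]) 0 1 2 0 0 (sgb true) (sgb true) x) :
    AltB (VF κ) PP tKF tL pcF [⟨3, 0, 0, 1449551462⟩] 0 1 2 0 0 (sgb true) (sgb true) x :=
  strip_altB (m := 1449551462) true rfl hκ covF00 covF02 hx hx' c_B00pp_012_s1 H ((okx hx hx').extB (T := tt) (sideF hx hx') hκ rfl rfl (.O 0 true) (.O 2 true) (Or.inr rfl))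

noncomputable def cut_B00pp_012_s3 : Cut := Cut.of [[⟨3, 0, 0, 2845415833⟩], [⟨0, 0, 0, 67108864⟩, ⟨1, 1, 0, 67108864⟩, ⟨2, 1, 0, 67108864⟩]]

noncomputable def f_B00pp_012_s3 : ℕ → ℕ → ℕ → ℕ → Bool := onCell 0 536870912 0 536870912 469762048 67108864
    (rowF 0 false true true .pnp 0 1 2 (qsf 0 536870912 0 536870912 1) ndF0q0 ndF0q2 pcF1 cut_B00pp_012_s3 Ext.none)

def k0_B00pp_012_s3 : ∃ t, chk3 f_B00pp_012_s3 t 1 1 1 = true :=
  ⟨(l 6), by decide +kernel⟩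

theorem c_B00pp_012_s3 : CertF 0 536870912 0 536870912 469762048 67108864 false true true .pnp 0 1 2
    ndF0q0 ndF0q2 pcF1 cut_B00pp_012_s3 Ext.none :=
  certF0 (fam := false) (s1 := true) (s2 := true) (a := 0) (b := 1) (c := 2) (cn := .pnp) (n1 := ndF0q0) (n2 := ndF0q2) (pc := pcF1) (cut := cut_B00pp_012_s3) (xt := Ext.none) (P1 := 0) (W1 := 536870912) (P2 := 0) (W2 := 536870912) (P3 := 469762048) (W3 := 67108864)
    rfl k0_B00pp_012_s3

theorem s_B00pp_012_s3 {κ x : ℝ} (hκ : κ * h0 = ken x) (hx : ((469762048 : ℕ) : ℝ) / S ≤ x)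
    (hx' : x ≤ (((469762048 : ℕ) : ℝ) + (67108864 : ℕ)) / S)
    (H : CutB (VF κ) PP tKF tL pcF (Cut.of [[⟨0, 0, 0, 67108864⟩, ⟨1, 1, 0, 67108864⟩, ⟨2, 1, 0, 67108864⟩]]) 0 1 2 0 0 (sgb true) (sgb true) x) :
    AltB (VF κ) PP tKF tL pcF [⟨4, 0, 0, 2845415833⟩] 0 1 2 0 0 (sgb true) (sgb true) x :=
  strip_altB (m := 2845415833) false rfl hκ covF00 covF02 hx hx' c_B00pp_012_s3 H (noExt_B)

noncomputable def cut_B00pp_022_s1 : Cut := Cut.of [[⟨4, 0, 0, 1449551462⟩], [⟨0, 0, 0, 67108864⟩, ⟨1, 1, 0, 67108864⟩, ⟨2, 1, 0, 67108864⟩]]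

noncomputable def f_B00pp_022_s1 : ℕ → ℕ → ℕ → ℕ → Bool := onCell 1073741824 536870912 0 536870912 469762048 67108864
    (rowF 2 false true true .pp 0 2 2 (qsf 0 536870912 0 536870912 2) ndF0q0 ndF0q2 pcF2 cut_B00pp_022_s1 Ext.none)

def k0_B00pp_022_s1 : ∃ t, chk3 f_B00pp_022_s1 t 4 2 1 = true :=
  ⟨(b (l 6) (a (b (l 6) (a (a (b (l 6) (l 16651472)) (l 16627952)) (l 6))) (l 6))), by decide +kernel⟩

def k1_B00pp_022_s1 : ∃ t, chk3 f_B00pp_022_s1 t 8 3 1 = true :=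
  ⟨(b (a (b (b (a (a (l 16631288) (l 16623680)) (l 16611576)) (a (a (b (l 16666136) (a (l 16656128) (l 16652232))) (b (l 16637288) (l 16646200))) (l 16692080))) (a (a (a (b (b (c (l 16668072) (l 16661848)) (c (l 16687296) (l 16670984))) (b (a (b (l 16692128) (l 16696704)) (l 16681888)) (a (c (b (l 16693480) (l 16697992)) (l 16701096)) (l 16701536)))) (b (b (l 16660952) (l 16669800)) (b (l 16678776) (l 16687864)))) (b (b (l 16654816) (l 16663528)) (b (l 16672368) (l 16681336)))) (b (b (l 16683784) (l 16692232)) (b (l 16700808) (l 16709616))))) (a (a (b (c (l 16654360) (l 16654800)) (b (l 16639640) (l 16712064))) (b (c (l 16676272) (l 16696072)) (b (l 16638496) (l 16667824)))) (b (b (l 16604688) (l 16629792)) (b (b (l 16631512) (l 16640104)) (b (l 16648688) (a (l 16658896) (l 16655416))))))) (a (b (b (a (a (a (a (b (b (b (l 16698936) (l 16701272)) (b (l 16703616) (l 16705968))) (b (b (l 16708328) (l 14)) (l 14)))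 (b (l 16710808) (c (l 16711584) (l 16707936)))) (b (l 16697080) (l 16716888))) (a (b (l 16692656) (l 16701896)) (l 16724216))) (a (l 16706680) (b (l 16677280) (l 16729736)))) (l 14)) (l 14)) (a (b (b (b (a (l 16674480) (l 16671280)) (b (l 16680096) (l 14))) (l 14)) (l 14)) (a (b (b (b (l 16667632) (b (l 16674088) (l 14))) (l 14)) (l 1)) (a (b (b (b (l 16664616) (b (l 16670736) (l 14))) (l 14)) (l 1)) (b (b (b (b (l 16660472) (l 16664440)) (b (l 44056741047) (l 16672256))) (l 1)) (l 1))))))), by decide +kernel⟩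

def k2_B00pp_022_s1 : ∃ t, chk3 f_B00pp_022_s1 t 9 3 1 = true :=
  ⟨(b (b (b (l 6) (a (a (b (l 16612632) (l 16619640)) (a (b (l 6) (l 16616184)) (l 6))) (l 6))) (a (b (a (b (l 16627064) (a (l 16636112) (l 16632944))) (b (a (l 16622896) (b (l 16639640) (l 99354383143))) (a (b (l 16627904) (a (l 16632048) (l 99891271399))) (b (l 73047714535) (l 51036023671))))) (a (b (a (l 16643856) (b (l 16638328) (a (l 16642912) (l 16640888)))) (a (b (l 16649600) (a (l 16654456) (l 16652336))) (b (a (l 16646536) (l 56941626391)) (a (l 58552250631) (l 1))))) (a (b (c (b (l 68215906439) (l 38688013127)) (l 75732080471)) (l 1)) (l 1)))) (a (b (b (b (l 6) (l 54794108503)) (l 1)) (l 1)) (l 1)))) (b (a (b (a (b (a (b (a (l 16658304) (l 49425456967)) (a (l 48351716823) (l 16659712))) (b (l 16652472) (l 1))) (a (b (c (l 16669112) (l 16659784)) (l 1)) (l 1))) (l 1)) (l 1)) (l 1)) (l 1))), by decide +kernel⟩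

def k3_B00pp_022_s1 : ∃ t, chk3 f_B00pp_022_s1 t 5 1 1 = true :=
  ⟨(b (l 6) (b (l 1) (l 1))), by decide +kernel⟩

def k4_B00pp_022_s1 : ∃ t, chk3 f_B00pp_022_s1 t 3 1 1 = true :=
  ⟨(l 1), by decide +kernel⟩

theorem t5_B00pp_022_s1 : ∃ t, chk3 f_B00pp_022_s1 t 4 3 1 = true := ex3_a k1_B00pp_022_s1 k2_B00pp_022_s1

theorem t6_B00pp_022_s1 : ∃ t, chk3 f_B00pp_022_s1 t 4 1 1 = true := ex3_b k0_B00pp_022_s1 t5_B00pp_022_s1

theorem t7_B00pp_022_s1 : ∃ t, chk3 f_B00pp_022_s1 t 2 1 1 = true := ex3_a t6_B00pp_022_s1 k3_B00pp_022_s1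

theorem t8_B00pp_022_s1 : ∃ t, chk3 f_B00pp_022_s1 t 1 1 1 = true := ex3_a t7_B00pp_022_s1 k4_B00pp_022_s1

theorem c_B00pp_022_s1 : CertF 0 536870912 0 536870912 469762048 67108864 false true true .pp 0 2 2
    ndF0q0 ndF0q2 pcF2 cut_B00pp_022_s1 Ext.none :=
  certF2 (fam := false) (s1 := true) (s2 := true) (a := 0) (b := 2) (c := 2) (cn := .pp) (n1 := ndF0q0) (n2 := ndF0q2) (pc := pcF2) (cut := cut_B00pp_022_s1) (xt := Ext.none) (P1 := 0) (W1 := 536870912) (P2 := 0) (W2 := 536870912) (P3 := 469762048) (W3 := 67108864)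
    rfl (fun _ => rfl) t8_B00pp_022_s1

theorem s_B00pp_022_s1 {κ x : ℝ} (hκ : κ * h0 = ken x) (hx : ((469762048 : ℕ) : ℝ) / S ≤ x)
    (hx' : x ≤ (((469762048 : ℕ) : ℝ) + (67108864 : ℕ)) / S)
    (H : CutB (VF κ) PP tKF tL pcF (Cut.of [[⟨0, 0, 0, 67108864⟩, ⟨1, 1, 0, 67108864⟩, ⟨2, 1, 0, 67108864⟩]]) 0 2 2 0 0 (sgb true) (sgb true) x) :
    AltB (VF κ) PP tKF tL pcF [⟨3, 0, 0, 1449551462⟩] 0 2 2 0 0 (sgb true) (sgb true) x :=
  strip_altB (m := 1449551462) true rfl hκ covF00 covF02 hx hx' c_B00pp_022_s1 H (noExt_B)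

noncomputable def cut_B00pp_022_s3 : Cut := Cut.of [[⟨3, 0, 0, 2845415833⟩], [⟨0, 0, 0, 67108864⟩, ⟨1, 1, 0, 67108864⟩, ⟨2, 1, 0, 67108864⟩]]

noncomputable def f_B00pp_022_s3 : ℕ → ℕ → ℕ → ℕ → Bool := onCell 0 536870912 0 536870912 469762048 67108864
    (rowF 0 false true true .pp 0 2 2 (qsf 0 536870912 0 536870912 2) ndF0q0 ndF0q2 pcF2 cut_B00pp_022_s3 Ext.none)

def k0_B00pp_022_s3 : ∃ t, chk3 f_B00pp_022_s3 t 1 1 1 = true :=
  ⟨(l 6), by decide +kernel⟩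

theorem c_B00pp_022_s3 : CertF 0 536870912 0 536870912 469762048 67108864 false true true .pp 0 2 2
    ndF0q0 ndF0q2 pcF2 cut_B00pp_022_s3 Ext.none :=
  certF0 (fam := false) (s1 := true) (s2 := true) (a := 0) (b := 2) (c := 2) (cn := .pp) (n1 := ndF0q0) (n2 := ndF0q2) (pc := pcF2) (cut := cut_B00pp_022_s3) (xt := Ext.none) (P1 := 0) (W1 := 536870912) (P2 := 0) (W2 := 536870912) (P3 := 469762048) (W3 := 67108864)
    rfl k0_B00pp_022_s3

theorem s_B00pp_022_s3 {κ x : ℝ} (hκ : κ * h0 = ken x) (hx : ((469762048 : ℕ) : ℝ) / S ≤ x)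
    (hx' : x ≤ (((469762048 : ℕ) : ℝ) + (67108864 : ℕ)) / S)
    (H : CutB (VF κ) PP tKF tL pcF (Cut.of [[⟨0, 0, 0, 67108864⟩, ⟨1, 1, 0, 67108864⟩, ⟨2, 1, 0, 67108864⟩]]) 0 2 2 0 0 (sgb true) (sgb true) x) :
    AltB (VF κ) PP tKF tL pcF [⟨4, 0, 0, 2845415833⟩] 0 2 2 0 0 (sgb true) (sgb true) x :=
  strip_altB (m := 2845415833) false rfl hκ covF00 covF02 hx hx' c_B00pp_022_s3 H (noExt_B)

noncomputable def cut_B00pp_101_s1 : Cut := Cut.of [[⟨4, 0, 0, 1449551462⟩]]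

noncomputable def f_B00pp_101_s1 : ℕ → ℕ → ℕ → ℕ → Bool := onCell 536870912 536870912 536870912 536870912 469762048 67108864
    (rowF 0 false true true .npn 1 0 1 (qsf 536870912 536870912 536870912 536870912 0) ndF0q1 ndF0q1 pcF0 cut_B00pp_101_s1 Ext.none)

def k0_B00pp_101_s1 : ∃ t, chk3 f_B00pp_101_s1 t 1 1 1 = true :=
  ⟨(l 3), by decide +kernel⟩

theorem c_B00pp_101_s1 : CertF 536870912 536870912 536870912 536870912 469762048 67108864 false true true .npn 1 0 1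
    ndF0q1 ndF0q1 pcF0 cut_B00pp_101_s1 Ext.none :=
  certF0 (fam := false) (s1 := true) (s2 := true) (a := 1) (b := 0) (c := 1) (cn := .npn) (n1 := ndF0q1) (n2 := ndF0q1) (pc := pcF0) (cut := cut_B00pp_101_s1) (xt := Ext.none) (P1 := 536870912) (W1 := 536870912) (P2 := 536870912) (W2 := 536870912) (P3 := 469762048) (W3 := 67108864)
    rfl k0_B00pp_101_s1

theorem s_B00pp_101_s1 {κ x : ℝ} (hκ : κ * h0 = ken x) (hx : ((469762048 : ℕ) : ℝ) / S ≤ x)
    (hx' : x ≤ (((469762048 : ℕ) : ℝ) + (67108864 : ℕ)) / S) :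
    AltB (VF κ) PP tKF tL pcF [⟨3, 0, 0, 1449551462⟩] 1 0 1 0 0 (sgb true) (sgb true) x :=
  strip_altB (m := 1449551462) true rfl hκ covF01 covF01 hx hx' c_B00pp_101_s1 cutB_nil (noExt_B)

noncomputable def cut_B00pp_101_s3 : Cut := Cut.of [[⟨3, 0, 0, 2845415833⟩]]

noncomputable def f_B00pp_101_s3 : ℕ → ℕ → ℕ → ℕ → Bool := onCell 536870912 536870912 536870912 536870912 469762048 67108864
    (rowF 0 false true true .npn 1 0 1 (qsf 536870912 536870912 536870912 536870912 0) ndF0q1 ndF0q1 pcF0 cut_B00pp_101_s3 Ext.none)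

def k0_B00pp_101_s3 : ∃ t, chk3 f_B00pp_101_s3 t 1 1 1 = true :=
  ⟨(l 3), by decide +kernel⟩

theorem c_B00pp_101_s3 : CertF 536870912 536870912 536870912 536870912 469762048 67108864 false true true .npn 1 0 1
    ndF0q1 ndF0q1 pcF0 cut_B00pp_101_s3 Ext.none :=
  certF0 (fam := false) (s1 := true) (s2 := true) (a := 1) (b := 0) (c := 1) (cn := .npn) (n1 := ndF0q1) (n2 := ndF0q1) (pc := pcF0) (cut := cut_B00pp_101_s3) (xt := Ext.none) (P1 := 536870912) (W1 := 536870912) (P2 := 536870912) (W2 := 536870912) (P3 := 469762048) (W3 := 67108864)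
    rfl k0_B00pp_101_s3

theorem s_B00pp_101_s3 {κ x : ℝ} (hκ : κ * h0 = ken x) (hx : ((469762048 : ℕ) : ℝ) / S ≤ x)
    (hx' : x ≤ (((469762048 : ℕ) : ℝ) + (67108864 : ℕ)) / S) :
    AltB (VF κ) PP tKF tL pcF [⟨4, 0, 0, 2845415833⟩] 1 0 1 0 0 (sgb true) (sgb true) x :=
  strip_altB (m := 2845415833) false rfl hκ covF01 covF01 hx hx' c_B00pp_101_s3 cutB_nil (noExt_B)

noncomputable def cut_B00pp_102_s1 : Cut := Cut.of [[⟨4, 0, 0, 1449551462⟩]]

noncomputable def f_B00pp_102_s1 : ℕ → ℕ → ℕ → ℕ → Bool := onCell 0 536870912 0 536870912 469762048 67108864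
    (rowF 2 false true true .npp 1 0 2 (qsf 536870912 536870912 0 536870912 0) ndF0q1 ndF0q2 pcF0 cut_B00pp_102_s1 Ext.none)

def k0_B00pp_102_s1 : ∃ t, chk3 f_B00pp_102_s1 t 1 1 1 = true :=
  ⟨(a (b (l 3) (l 3)) (l 3)), by decide +kernel⟩

theorem c_B00pp_102_s1 : CertF 536870912 536870912 0 536870912 469762048 67108864 false true true .npp 1 0 2
    ndF0q1 ndF0q2 pcF0 cut_B00pp_102_s1 Ext.none :=
  certF2 (fam := false) (s1 := true) (s2 := true) (a := 1) (b := 0) (c := 2) (cn := .npp) (n1 := ndF0q1) (n2 := ndF0q2) (pc := pcF0) (cut := cut_B00pp_102_s1) (xt := Ext.none) (P1 := 536870912) (W1 := 536870912) (P2 := 0) (W2 := 536870912) (P3 := 469762048) (W3 := 67108864)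
    rfl (fun _ => rfl) k0_B00pp_102_s1

theorem s_B00pp_102_s1 {κ x : ℝ} (hκ : κ * h0 = ken x) (hx : ((469762048 : ℕ) : ℝ) / S ≤ x)
    (hx' : x ≤ (((469762048 : ℕ) : ℝ) + (67108864 : ℕ)) / S) :
    AltB (VF κ) PP tKF tL pcF [⟨3, 0, 0, 1449551462⟩] 1 0 2 0 0 (sgb true) (sgb true) x :=
  strip_altB (m := 1449551462) true rfl hκ covF01 covF02 hx hx' c_B00pp_102_s1 cutB_nil (noExt_B)

noncomputable def cut_B00pp_102_s3 : Cut := Cut.of [[⟨3, 0, 0, 2845415833⟩]]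

noncomputable def f_B00pp_102_s3 : ℕ → ℕ → ℕ → ℕ → Bool := onCell 536870912 536870912 0 536870912 469762048 67108864
    (rowF 0 false true true .npp 1 0 2 (qsf 536870912 536870912 0 536870912 0) ndF0q1 ndF0q2 pcF0 cut_B00pp_102_s3 Ext.none)

def k0_B00pp_102_s3 : ∃ t, chk3 f_B00pp_102_s3 t 1 1 1 = true :=
  ⟨(l 6), by decide +kernel⟩

theorem c_B00pp_102_s3 : CertF 536870912 536870912 0 536870912 469762048 67108864 false true true .npp 1 0 2
    ndF0q1 ndF0q2 pcF0 cut_B00pp_102_s3 Ext.none :=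
  certF0 (fam := false) (s1 := true) (s2 := true) (a := 1) (b := 0) (c := 2) (cn := .npp) (n1 := ndF0q1) (n2 := ndF0q2) (pc := pcF0) (cut := cut_B00pp_102_s3) (xt := Ext.none) (P1 := 536870912) (W1 := 536870912) (P2 := 0) (W2 := 536870912) (P3 := 469762048) (W3 := 67108864)
    rfl k0_B00pp_102_s3

theorem s_B00pp_102_s3 {κ x : ℝ} (hκ : κ * h0 = ken x) (hx : ((469762048 : ℕ) : ℝ) / S ≤ x)
    (hx' : x ≤ (((469762048 : ℕ) : ℝ) + (67108864 : ℕ)) / S) :
    AltB (VF κ) PP tKF tL pcF [⟨4, 0, 0, 2845415833⟩] 1 0 2 0 0 (sgb true) (sgb true) x :=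
  strip_altB (m := 2845415833) false rfl hκ covF01 covF02 hx hx' c_B00pp_102_s3 cutB_nil (noExt_B)

noncomputable def cut_B00pp_112_s1 : Cut := Cut.of [[⟨4, 0, 0, 1449551462⟩]]

noncomputable def xt_B00pp_112_s1 : Ext := strExt dd false true true .u0 .u2 .u0m .dn 1 1 2 rfl rfl gf1 vv ndF0q1 ndF0q2

noncomputable def f_B00pp_112_s1 : ℕ → ℕ → ℕ → ℕ → Bool := onCell 536870912 536870912 0 536870912 469762048 67108864
    (rowF 0 false true true .dn 1 1 2 (qsf 536870912 536870912 0 536870912 1) ndF0q1 ndF0q2 pcF1 cut_B00pp_112_s1 xt_B00pp_112_s1)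

def k0_B00pp_112_s1 : ∃ t, chk3 f_B00pp_112_s1 t 1 1 1 = true :=
  ⟨(a (a (b (b (a (b (a (b (b (l 537132303) (l 537080335)) (l 537009935)) (b (a (l 537248015) (l 537331727)) (a (l 537141775) (l 3)))) (a (a (l 536802319) (l 3)) (l 3))) (b (a (b (l 537388815) (l 3)) (l 3)) (l 3))) (l 3)) (l 3)) (l 3)) (l 1)), by decide +kernel⟩

theorem c_B00pp_112_s1 : CertF 536870912 536870912 0 536870912 469762048 67108864 false true true .dn 1 1 2
    ndF0q1 ndF0q2 pcF1 cut_B00pp_112_s1 xt_B00pp_112_s1 :=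
  certF0 (fam := false) (s1 := true) (s2 := true) (a := 1) (b := 1) (c := 2) (cn := .dn) (n1 := ndF0q1) (n2 := ndF0q2) (pc := pcF1) (cut := cut_B00pp_112_s1) (xt := xt_B00pp_112_s1) (P1 := 536870912) (W1 := 536870912) (P2 := 0) (W2 := 536870912) (P3 := 469762048) (W3 := 67108864)
    rfl k0_B00pp_112_s1

theorem s_B00pp_112_s1 {κ x : ℝ} (hκ : κ * h0 = ken x) (hx : ((469762048 : ℕ) : ℝ) / S ≤ x)
    (hx' : x ≤ (((469762048 : ℕ) : ℝ) + (67108864 : ℕ)) / S) :
    AltB (VF κ) PP tKF tL pcF [⟨3, 0, 0, 1449551462⟩] 1 1 2 0 0 (sgb true) (sgb true) x :=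
  strip_altB (m := 1449551462) true rfl hκ covF01 covF02 hx hx' c_B00pp_112_s1 cutB_nil ((okx hx hx').extB (T := tt) (sideF hx hx') hκ rfl rfl (.O 1 true) (.O 2 true) (Or.inr rfl))

noncomputable def cut_B00pp_112_s3 : Cut := Cut.of [[⟨3, 0, 0, 2845415833⟩]]

noncomputable def f_B00pp_112_s3 : ℕ → ℕ → ℕ → ℕ → Bool := onCell 536870912 536870912 0 536870912 469762048 67108864
    (rowF 0 false true true .dn 1 1 2 (qsf 536870912 536870912 0 536870912 1) ndF0q1 ndF0q2 pcF1 cut_B00pp_112_s3 Ext.none)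

def k0_B00pp_112_s3 : ∃ t, chk3 f_B00pp_112_s3 t 1 1 1 = true :=
  ⟨(l 6), by decide +kernel⟩

theorem c_B00pp_112_s3 : CertF 536870912 536870912 0 536870912 469762048 67108864 false true true .dn 1 1 2
    ndF0q1 ndF0q2 pcF1 cut_B00pp_112_s3 Ext.none :=
  certF0 (fam := false) (s1 := true) (s2 := true) (a := 1) (b := 1) (c := 2) (cn := .dn) (n1 := ndF0q1) (n2 := ndF0q2) (pc := pcF1) (cut := cut_B00pp_112_s3) (xt := Ext.none) (P1 := 536870912) (W1 := 536870912) (P2 := 0) (W2 := 536870912) (P3 := 469762048) (W3 := 67108864)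
    rfl k0_B00pp_112_s3

theorem s_B00pp_112_s3 {κ x : ℝ} (hκ : κ * h0 = ken x) (hx : ((469762048 : ℕ) : ℝ) / S ≤ x)
    (hx' : x ≤ (((469762048 : ℕ) : ℝ) + (67108864 : ℕ)) / S) :
    AltB (VF κ) PP tKF tL pcF [⟨4, 0, 0, 2845415833⟩] 1 1 2 0 0 (sgb true) (sgb true) x :=
  strip_altB (m := 2845415833) false rfl hκ covF01 covF02 hx hx' c_B00pp_112_s3 cutB_nil (noExt_B)

noncomputable def cut_B00pp_202_s1 : Cut := Cut.of [[⟨4, 0, 0, 1449551462⟩]]

noncomputable def f_B00pp_202_s1 : ℕ → ℕ → ℕ → ℕ → Bool := onCell 0 536870912 0 536870912 469762048 67108864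
    (rowF 0 false true true .pp 2 0 2 (qsf 0 536870912 0 536870912 0) ndF0q2 ndF0q2 pcF0 cut_B00pp_202_s1 Ext.none)

def k0_B00pp_202_s1 : ∃ t, chk3 f_B00pp_202_s1 t 1 1 1 = true :=
  ⟨(l 3), by decide +kernel⟩

theorem c_B00pp_202_s1 : CertF 0 536870912 0 536870912 469762048 67108864 false true true .pp 2 0 2
    ndF0q2 ndF0q2 pcF0 cut_B00pp_202_s1 Ext.none :=
  certF0 (fam := false) (s1 := true) (s2 := true) (a := 2) (b := 0) (c := 2) (cn := .pp) (n1 := ndF0q2) (n2 := ndF0q2) (pc := pcF0) (cut := cut_B00pp_202_s1) (xt := Ext.none) (P1 := 0) (W1 := 536870912) (P2 := 0) (W2 := 536870912) (P3 := 469762048) (W3 := 67108864)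
    rfl k0_B00pp_202_s1

theorem s_B00pp_202_s1 {κ x : ℝ} (hκ : κ * h0 = ken x) (hx : ((469762048 : ℕ) : ℝ) / S ≤ x)
    (hx' : x ≤ (((469762048 : ℕ) : ℝ) + (67108864 : ℕ)) / S) :
    AltB (VF κ) PP tKF tL pcF [⟨3, 0, 0, 1449551462⟩] 2 0 2 0 0 (sgb true) (sgb true) x :=
  strip_altB (m := 1449551462) true rfl hκ covF02 covF02 hx hx' c_B00pp_202_s1 cutB_nil (noExt_B)

noncomputable def cut_B00pp_202_s3 : Cut := Cut.of [[⟨3, 0, 0, 2845415833⟩]]

noncomputable def f_B00pp_202_s3 : ℕ → ℕ → ℕ → ℕ → Bool := onCell 0 536870912 0 536870912 469762048 67108864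
    (rowF 0 false true true .pp 2 0 2 (qsf 0 536870912 0 536870912 0) ndF0q2 ndF0q2 pcF0 cut_B00pp_202_s3 Ext.none)

def k0_B00pp_202_s3 : ∃ t, chk3 f_B00pp_202_s3 t 1 1 1 = true :=
  ⟨(l 3), by decide +kernel⟩

theorem c_B00pp_202_s3 : CertF 0 536870912 0 536870912 469762048 67108864 false true true .pp 2 0 2
    ndF0q2 ndF0q2 pcF0 cut_B00pp_202_s3 Ext.none :=
  certF0 (fam := false) (s1 := true) (s2 := true) (a := 2) (b := 0) (c := 2) (cn := .pp) (n1 := ndF0q2) (n2 := ndF0q2) (pc := pcF0) (cut := cut_B00pp_202_s3) (xt := Ext.none) (P1 := 0) (W1 := 536870912) (P2 := 0) (W2 := 536870912) (P3 := 469762048) (W3 := 67108864)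
    rfl k0_B00pp_202_s3

theorem s_B00pp_202_s3 {κ x : ℝ} (hκ : κ * h0 = ken x) (hx : ((469762048 : ℕ) : ℝ) / S ≤ x)
    (hx' : x ≤ (((469762048 : ℕ) : ℝ) + (67108864 : ℕ)) / S) :
    AltB (VF κ) PP tKF tL pcF [⟨4, 0, 0, 2845415833⟩] 2 0 2 0 0 (sgb true) (sgb true) x :=
  strip_altB (m := 2845415833) false rfl hκ covF02 covF02 hx hx' c_B00pp_202_s3 cutB_nil (noExt_B)

noncomputable def cut_B00pm_001_s1 : Cut := Cut.of [[⟨4, 0, 0, 1449551462⟩], [⟨0, 0, 1, 33554432⟩, ⟨1, 1, 2, 33554432⟩, ⟨2, 1, 0, 33554432⟩]]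

noncomputable def f_B00pm_001_s1 : ℕ → ℕ → ℕ → ℕ → Bool := onCell 0 536870912 536870912 536870912 469762048 67108864
    (rowF 0 false true false .up 0 0 1 (qsf 0 536870912 536870912 536870912 0) ndF0q0 ndF0q1 pcF0 cut_B00pm_001_s1 Ext.none)

def k0_B00pm_001_s1 : ∃ t, chk3 f_B00pm_001_s1 t 1 1 1 = true :=
  ⟨(l 6), by decide +kernel⟩

theorem c_B00pm_001_s1 : CertF 0 536870912 536870912 536870912 469762048 67108864 false true false .up 0 0 1
    ndF0q0 ndF0q1 pcF0 cut_B00pm_001_s1 Ext.none :=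
  certF0 (fam := false) (s1 := true) (s2 := false) (a := 0) (b := 0) (c := 1) (cn := .up) (n1 := ndF0q0) (n2 := ndF0q1) (pc := pcF0) (cut := cut_B00pm_001_s1) (xt := Ext.none) (P1 := 0) (W1 := 536870912) (P2 := 536870912) (W2 := 536870912) (P3 := 469762048) (W3 := 67108864)
    rfl k0_B00pm_001_s1

theorem s_B00pm_001_s1 {κ x : ℝ} (hκ : κ * h0 = ken x) (hx : ((469762048 : ℕ) : ℝ) / S ≤ x)
    (hx' : x ≤ (((469762048 : ℕ) : ℝ) + (67108864 : ℕ)) / S)
    (H : CutB (VF κ) PP tKF tL pcF (Cut.of [[⟨0, 0, 1, 33554432⟩, ⟨1, 1, 2, 33554432⟩, ⟨2, 1, 0, 33554432⟩]]) 0 0 1 0 0 (sgb true) (sgb false) x) :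
    AltB (VF κ) PP tKF tL pcF [⟨3, 0, 0, 1449551462⟩] 0 0 1 0 0 (sgb true) (sgb false) x :=
  strip_altB (m := 1449551462) true rfl hκ covF00 covF01 hx hx' c_B00pm_001_s1 H (noExt_B)

noncomputable def cut_B00pm_001_s3 : Cut := Cut.of [[⟨3, 0, 0, 2845415833⟩], [⟨0, 0, 1, 33554432⟩, ⟨1, 1, 2, 33554432⟩, ⟨2, 1, 0, 33554432⟩]]

noncomputable def xt_B00pm_001_s3 : Ext := strExt dd false true false .u0 .u0m .s0m .up 0 0 1 rfl rfl gl0 vv ndF0q0 ndF0q1

noncomputable def f_B00pm_001_s3 : ℕ → ℕ → ℕ → ℕ → Bool := onCell 0 536870912 536870912 536870912 469762048 67108864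
    (rowF 0 false true false .up 0 0 1 (qsf 0 536870912 536870912 536870912 0) ndF0q0 ndF0q1 pcF0 cut_B00pm_001_s3 xt_B00pm_001_s3)

def k0_B00pm_001_s3 : ∃ t, chk3 f_B00pm_001_s3 t 2 1 1 = true :=
  ⟨(b (l 4) (b (b (l 4) (l 2)) (l 2))), by decide +kernel⟩

def k1_B00pm_001_s3 : ∃ t, chk3 f_B00pm_001_s3 t 3 2 1 = true :=
  ⟨(b (l 4) (a (l 4) (b (a (l 4) (b (a (l 4) (b (l 4) (l 538146063))) (a (b (l 4) (l 537598735)) (a (l 537889807) (l 538037263))))) (a (a (b (l 4) (b (a (l 4) (a (l 4) (l 536328207))) (a (l 536188175) (l 536381967)))) (b (a (l 4) (l 537155343)) (b (a (l 536750095) (l 536943631)) (a (b (l 536633103) (a (l 536499727) (l 536604431))) (b (l 536833807) (l 536757775)))))) (b (a (b (l 537472783) (l 537344783)) (c (a (l 537967119) (l 538095375)) (b (l 537479439) (l 537349903)))) (a (b (l 537213967) (a (l 536986127) (l 537163791))) (b (a (l 537457935) (l 537612559)) (a (l 537330959) (l 537489679))))))))),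 by decide +kernel⟩

def k2_B00pm_001_s3 : ∃ t, chk3 f_B00pm_001_s3 t 6 6 1 = true :=
  ⟨(a (b (a (l 4) (b (l 4) (a (l 4) (b (l 4) (b (l 4) (a (b (l 4) (l 2)) (c (l 535393039) (l 534890255)))))))) (a (l 2) (b (a (l 2) (b (a (l 2) (a (l 2) (a (l 2) (b (l 535546639) (l 2))))) (l 2))) (l 2)))) (b (a (b (l 4) (a (b (l 534651407) (c (l 535420943) (l 534655503))) (b (l 534942991) (l 534834191)))) (b (a (l 535456527) (l 535709199)) (b (l 535345167) (a (l 535087375) (l 535327759))))) (b (a (b (a (b (c (a (l 535454223) (l 535315983)) (l 534899215)) (a (a (l 2) (a (l 2) (l 535344143))) (l 535800591))) (c (b (l 535350287) (l 535349007)) (l 534765583))) (a (a (l 2) (a (l 2) (b (l 535964175) (l 2)))) (b (c (l 536045839) (l 535023631)) (a (c (a (l 2) (l 19964868247)) (l 20501723367)) (l 535392015))))) (b (a (l 535277071) (l 535224591)) (a (c (l 535805967) (l 534879503)) (l 535175439)))) (a (a (l 2) (b (b (a (l 2) (c (l 23186098791)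 (l 24259806599))) (l 2)) (l 2))) (b (a (b (a (c (l 16759112) (l 16736456)) (l 16746168)) (a (l 26407324103) (l 26944170631))) (b (l 535186191) (l 535579407))) (a (b (a (l 2) (l 29628541719)) (l 2)) (b (a (l 16758600) (l 16724064)) (a (l 34460342055) (l 16749296))))))))), by decide +kernel⟩

def k3_B00pm_001_s3 : ∃ t, chk3 f_B00pm_001_s3 t 7 6 1 = true :=
  ⟨(b (a (a (b (a (l 535941647) (l 536155919)) (a (l 535628815) (l 535845903))) (b (a (b (l 536434703) (l 536278287)) (b (a (l 536589839) (l 536691727)) (l 536486415))) (a (b (l 536124943) (l 535976463)) (b (l 536333839) (l 536185359))))) (a (b (b (a (l 536839951) (l 537024527)) (a (l 536689167) (l 536881423))) (a (b (l 536538639) (l 536391439)) (b (l 536735503) (l 536590351)))) (b (b (a (l 537198095) (l 537361935)) (a (l 537060879) (l 537230351))) (a (b (l 536921615) (c (l 16789304) (l 16756832))) (b (l 537096463) (c (l 16798384) (l 16764704))))))) (a (a (a (b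 (b (l 535435535) (l 535355663)) (b (l 535335439) (a (b (l 16717232) (l 16719144)) (l 16714336)))) (b (b (l 535639823) (l 535537935)) (b (l 535480335) (l 535354383)))) (b (a (a (l 535731215) (l 535829775)) (b (l 536044559) (l 16735960))) (b (a (l 16721832) (l 16724960)) (a (l 16670240) (l 16714464))))) (b (a (b (a (l 536249359) (l 536449039)) (a (l 16741120) (l 16747968))) (b (a (c (l 16784080) (l 16746880)) (c (l 16793720) (l 16755464))) (a (c (l 16777504) (l 16735368)) (c (l 16787656) (l 16744616))))) (a (b (a (l 16730192) (l 16737288)) (a (l 16719216) (l 6))) (b (a (l 16746024) (l 6)) (l 6)))))), by decide +kernel⟩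

def k4_B00pm_001_s3 : ∃ t, chk3 f_B00pm_001_s3 t 3 7 1 = true :=
  ⟨(a (b (a (l 2) (b (a (l 2) (b (a (l 2) (b (a (l 2) (l 38755293975)) (l 2))) (l 2))) (l 2))) (l 2)) (b (b (a (b (a (b (a (a (l 16724968) (l 16714864)) (l 16709184)) (a (a (l 46808322919) (l 16722344)) (l 16719696))) (a (l 16695448) (l 16706216))) (a (a (b (a (l 2) (l 50029546823)) (l 2)) (b (a (l 47882029591) (l 16709856)) (a (l 55935116615) (l 6)))) (l 6))) (l 6)) (a (a (a (l 2) (l 6)) (l 6)) (l 6))) (l 6))), by decide +kernel⟩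

theorem t5_B00pm_001_s3 : ∃ t, chk3 f_B00pm_001_s3 t 3 6 1 = true := ex3_a k2_B00pm_001_s3 k3_B00pm_001_s3

theorem t6_B00pm_001_s3 : ∃ t, chk3 f_B00pm_001_s3 t 3 3 1 = true := ex3_b t5_B00pm_001_s3 k4_B00pm_001_s3

theorem t7_B00pm_001_s3 : ∃ t, chk3 f_B00pm_001_s3 t 3 1 1 = true := ex3_b k1_B00pm_001_s3 t6_B00pm_001_s3

theorem t8_B00pm_001_s3 : ∃ t, chk3 f_B00pm_001_s3 t 1 1 1 = true := ex3_a k0_B00pm_001_s3 t7_B00pm_001_s3

theorem c_B00pm_001_s3 : CertF 0 536870912 536870912 536870912 469762048 67108864 false true false .up 0 0 1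
    ndF0q0 ndF0q1 pcF0 cut_B00pm_001_s3 xt_B00pm_001_s3 :=
  certF0 (fam := false) (s1 := true) (s2 := false) (a := 0) (b := 0) (c := 1) (cn := .up) (n1 := ndF0q0) (n2 := ndF0q1) (pc := pcF0) (cut := cut_B00pm_001_s3) (xt := xt_B00pm_001_s3) (P1 := 0) (W1 := 536870912) (P2 := 536870912) (W2 := 536870912) (P3 := 469762048) (W3 := 67108864)
    rfl t8_B00pm_001_s3

theorem s_B00pm_001_s3 {κ x : ℝ} (hκ : κ * h0 = ken x) (hx : ((469762048 : ℕ) : ℝ) / S ≤ x)
    (hx' : x ≤ (((469762048 : ℕ) : ℝ) + (67108864 : ℕ)) / S)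
    (H : CutB (VF κ) PP tKF tL pcF (Cut.of [[⟨0, 0, 1, 33554432⟩, ⟨1, 1, 2, 33554432⟩, ⟨2, 1, 0, 33554432⟩]]) 0 0 1 0 0 (sgb true) (sgb false) x) :
    AltB (VF κ) PP tKF tL pcF [⟨4, 0, 0, 2845415833⟩] 0 0 1 0 0 (sgb true) (sgb false) x :=
  strip_altB (m := 2845415833) false rfl hκ covF00 covF01 hx hx' c_B00pm_001_s3 H ((okx hx hx').extB (T := tt) (sideF hx hx') hκ rfl rfl (.O 0 true) (.O 1 false) (Or.inl rfl))

noncomputable def cut_B00pm_011_s1 : Cut := Cut.of [[⟨4, 0, 0, 1449551462⟩], [⟨0, 0, 0, 67108864⟩, ⟨1, 1, 0, 67108864⟩, ⟨2, 1, 0, 67108864⟩], [⟨0, 0, 1, 33554432⟩, ⟨1, 1, 2, 33554432⟩, ⟨2, 1, 0, 33554432⟩]]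

noncomputable def f_B00pm_011_s1 : ℕ → ℕ → ℕ → ℕ → Bool := onCell 0 536870912 536870912 536870912 469762048 67108864
    (rowF 0 false true false .pnn 0 1 1 (qsf 0 536870912 536870912 536870912 1) ndF0q0 ndF0q1 pcF1 cut_B00pm_011_s1 Ext.none)

def k0_B00pm_011_s1 : ∃ t, chk3 f_B00pm_011_s1 t 1 1 1 = true :=
  ⟨(l 6), by decide +kernel⟩

theorem c_B00pm_011_s1 : CertF 0 536870912 536870912 536870912 469762048 67108864 false true false .pnn 0 1 1
    ndF0q0 ndF0q1 pcF1 cut_B00pm_011_s1 Ext.none :=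
  certF0 (fam := false) (s1 := true) (s2 := false) (a := 0) (b := 1) (c := 1) (cn := .pnn) (n1 := ndF0q0) (n2 := ndF0q1) (pc := pcF1) (cut := cut_B00pm_011_s1) (xt := Ext.none) (P1 := 0) (W1 := 536870912) (P2 := 536870912) (W2 := 536870912) (P3 := 469762048) (W3 := 67108864)
    rfl k0_B00pm_011_s1

theorem s_B00pm_011_s1 {κ x : ℝ} (hκ : κ * h0 = ken x) (hx : ((469762048 : ℕ) : ℝ) / S ≤ x)
    (hx' : x ≤ (((469762048 : ℕ) : ℝ) + (67108864 : ℕ)) / S)
    (H : CutB (VF κ) PP tKF tL pcF (Cut.of [[⟨0, 0, 0, 67108864⟩, ⟨1, 1, 0, 67108864⟩, ⟨2, 1, 0, 67108864⟩], [⟨0, 0, 1, 33554432⟩, ⟨1, 1, 2, 33554432⟩, ⟨2, 1, 0, 33554432⟩]]) 0 1 1 0 0 (sgb true) (sgb false) x) :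
    AltB (VF κ) PP tKF tL pcF [⟨3, 0, 0, 1449551462⟩] 0 1 1 0 0 (sgb true) (sgb false) x :=
  strip_altB (m := 1449551462) true rfl hκ covF00 covF01 hx hx' c_B00pm_011_s1 H (noExt_B)

noncomputable def cut_B00pm_011_s3 : Cut := Cut.of [[⟨3, 0, 0, 2845415833⟩], [⟨0, 0, 0, 67108864⟩, ⟨1, 1, 0, 67108864⟩, ⟨2, 1, 0, 67108864⟩], [⟨0, 0, 1, 33554432⟩, ⟨1, 1, 2, 33554432⟩, ⟨2, 1, 0, 33554432⟩]]

noncomputable def xt_B00pm_011_s3 : Ext := strExt dd false true false .u0 .u0m .s0m .pnn 0 1 1 rfl rfl gl1 vv ndF0q0 ndF0q1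

noncomputable def f_B00pm_011_s3 : ℕ → ℕ → ℕ → ℕ → Bool := onCell 0 536870912 536870912 536870912 469762048 67108864
    (rowF 0 false true false .pnn 0 1 1 (qsf 0 536870912 536870912 536870912 1) ndF0q0 ndF0q1 pcF1 cut_B00pm_011_s3 xt_B00pm_011_s3)

def k0_B00pm_011_s3 : ∃ t, chk3 f_B00pm_011_s3 t 2 2 1 = true :=
  ⟨(l 4), by decide +kernel⟩

def k1_B00pm_011_s3 : ∃ t, chk3 f_B00pm_011_s3 t 4 6 1 = true :=
  ⟨(l 4), by decide +kernel⟩

def k2_B00pm_011_s3 : ∃ t, chk3 f_B00pm_011_s3 t 4 14 1 = true :=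
  ⟨(b (l 4) (a (l 4) (a (l 4) (a (l 4) (b (l 4) (c (l 533676559) (l 532609295))))))), by decide +kernel⟩

def k3_B00pm_011_s3 : ∃ t, chk3 f_B00pm_011_s3 t 4 30 1 = true :=
  ⟨(a (b (l 4) (a (l 4) (a (l 4) (a (l 4) (b (l 4) (a (l 4) (l 533940239))))))) (a (b (a (l 4) (a (l 4) (c (l 533731855) (l 532416783)))) (b (a (a (l 4) (b (l 4) (l 533923855))) (a (l 533926415) (l 533940495))) (a (a (a (l 533947919) (l 533955343)) (b (l 533949199) (l 534243343))) (a (l 534245647) (l 533991695))))) (a (b (a (c (l 533478159) (l 532427791)) (c (l 533223439) (l 532438031))) (a (a (l 533979151) (l 533985551)) (c (l 533320207) (l 532545551)))) (a (b (l 533902607) (c (l 533065743) (l 532555535))) (b (l 533644815) (l 534016527)))))), by decide +kernel⟩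

def k4_B00pm_011_s3 : ∃ t, chk3 f_B00pm_011_s3 t 8 31 1 = true :=
  ⟨(b (a (b (l 4) (l 14)) (a (b (a (l 4) (a (l 4) (b (l 4) (b (l 4) (l 534247183))))) (a (b (b (l 4) (l 14)) (l 14)) (c (a (b (l 534091791) (l 534116111)) (a (l 532772879) (l 532777743))) (a (l 533126671) (l 532865039))))) (b (a (a (b (l 4) (l 534248975)) (b (l 533962767) (l 533988879))) (a (b (l 533970959) (l 533996815)) (l 534259983))) (a (a (b (l 534275343) (a (l 534033935) (l 534037775))) (b (l 534283535) (l 534309903))) (a (b (l 534022927) (l 534049295)) (b (l 534030863) (l 534057231))))))) (a (l 14) (b (a (a (l 14) (b (a (l 14) (b (l 534313487) (l 14))) (l 14))) (b (b (a (a (l 534321679) (l 534061327)) (a (l 534069263) (b (l 533805327) (c (l 16754480) (l 16742456))))) (a (a (l 534335247) (b (l 534071567) (c (c (l 16759040) (l 16758192)) (l 16757312)))) (a (c (b (l 16756536) (l 16744376)) (l 16754248)) (c (l 16752024) (l 16739864))))) (c (a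 (a (a (l 14) (a (l 14) (b (l 16758400) (l 14)))) (b (l 16756152) (l 16742608))) (b (l 16745576) (l 16737296))) (b (a (b (a (l 16759480) (l 16745064)) (l 16755800)) (l 16749000)) (a (c (l 16753616) (l 16752992)) (l 16735216)))))) (a (l 14) (a (a (l 14) (b (b (l 16738456) (l 14)) (l 14))) (b (b (c (l 16734240) (l 16731904)) (c (l 16741712) (l 16728592))) (b (c (l 16728040) (l 16725128)) (l 16723232)))))))), by decide +kernel⟩

def k5_B00pm_011_s3 : ∃ t, chk3 f_B00pm_011_s3 t 9 62 1 = true :=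
  ⟨(a (a (b (a (a (l 533999375) (l 534006799)) (b (l 534269199) (l 534295055))) (a (a (l 534320143) (b (l 533777679) (b (l 533260559) (b (l 16756392) (c (l 16739864) (l 16738056)))))) (b (l 534321423) (c (b (a (l 16740496) (l 16736632)) (a (c (l 16737624) (l 16746832)) (l 16743704))) (b (l 16747144) (l 16743488)))))) (b (a (b (l 534015759) (l 534041871)) (l 534043407)) (b (a (a (l 533262607) (c (l 16749984) (l 16742480))) (b (a (l 16751704) (l 16747664)) (a (l 16748096) (l 16744200)))) (a (b (a (c (l 16743272) (l 16730504)) (l 16748584)) (l 16747488)) (b (l 16743136) (l 16740248)))))) (b (a (a (l 534057487) (b (l 532983567) (b (l 16740800) (a (l 16739264) (l 16735312))))) (b (a (l 16738128) (c (l 16732360) (l 16728392))) (a (c (l 16733384) (l 16729640)) (l 16734344)))) (a (a (b (b (c (l 16743472) (l 16740448)) (l 16738736)) (l 16734504)) (b (c (l 16713880) (l 16710296)) (l 16727384))) (b (b (l 16734024) (l 16731352))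 (a (l 16699360) (l 16692368)))))), by decide +kernel⟩

def k6_B00pm_011_s3 : ∃ t, chk3 f_B00pm_011_s3 t 9 63 1 = true :=
  ⟨(a (b (c (a (a (b (b (a (c (l 16752160) (l 16751056)) (l 16747872)) (l 16736240)) (b (l 16733264) (l 16730280))) (b (b (l 16732120) (l 16729200)) (l 16724816))) (a (b (l 16723680) (l 16717936)) (b (l 16716768) (l 16711128)))) (a (b (a (b (b (l 16748768) (l 16747048)) (l 16744664)) (l 16749200)) (a (l 16739832) (l 16721912))) (b (a (l 16741728) (l 16713368)) (c (l 16732712) (l 16731128))))) (c (a (b (b (a (l 16727280) (l 16720400)) (a (l 16724288) (l 16717416))) (a (l 16719680) (l 16712960))) (b (b (l 16720792) (l 16707304)) (l 16713568))) (a (b (b (l 16731280) (a (l 16721208) (l 16713880))) (a (l 16716120) (l 16708920))) (b (b (l 16727304) (l 16703064)) (l 16698304))))) (b (a (b (a (l 16707856) (l 16700848)) (c (l 16701064) (l 16696544))) (b (c (l 16693112) (l 16688112)) (c (l 16698488) (l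 16703560)))) (a (b (a (l 16717272) (l 16689536)) (l 16708240)) (b (l 16695304) (l 16674304))))), by decide +kernel⟩

def k7_B00pm_011_s3 : ∃ t, chk3 f_B00pm_011_s3 t 5 6 1 = true :=
  ⟨(a (l 4) (b (l 4) (b (l 4) (b (a (l 4) (a (l 4) (l 533051919))) (a (a (l 4) (l 533037839)) (a (l 533081871) (l 532848911))))))), by decide +kernel⟩

def k8_B00pm_011_s3 : ∃ t, chk3 f_B00pm_011_s3 t 5 14 1 = true :=
  ⟨(a (a (b (l 4) (a (b (l 4) (l 534088975)) (b (a (l 532391183) (l 532395791)) (l 533835791)))) (b (b (l 4) (a (l 533182223) (l 533262607))) (a (b (l 533761807) (l 533577999)) (b (l 533559311) (a (l 533055247) (l 533078287)))))) (a (b (b (a (b (l 533285647) (l 533305871)) (b (l 532537103) (l 533097487))) (a (b (l 533325071) (l 533075215)) (b (l 533120271) (l 533142031)))) (a (b (l 533370383) (l 533670671)) (b (l 533442575) (l 533481487)))) (b (b (a (l 533405711) (l 533179919)) (a (c (l 532806415) (l 532516623)) (l 533507599)))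 (a (b (l 533507087) (l 533552911)) (b (l 533563919) (l 533616655)))))), by decide +kernel⟩

def k9_B00pm_011_s3 : ∃ t, chk3 f_B00pm_011_s3 t 5 30 1 = true :=
  ⟨(a (b (a (a (a (l 533386255) (l 533395215)) (a (l 533134863) (l 533142031))) (a (l 533953807) (c (l 533297167) (l 532503567)))) (a (a (a (l 534027279) (b (l 532667919) (b (l 16727872) (l 16731400)))) (b (l 533751311) (a (b (l 16719584) (l 16723376)) (b (l 16711432) (l 16715672))))) (b (c (a (a (l 16716296) (l 16708312)) (a (l 16710880) (l 16702808))) (a (l 16706968) (l 16700544))) (a (b (a (l 16713808) (l 16705936)) (l 16704984)) (a (l 16696504) (l 16689312)))))) (b (b (a (a (l 533430287) (l 16708576)) (a (l 16693496) (a (l 16682768) (l 16675872)))) (a (a (l 533733903) (b (l 16697800) (c (l 16684984) (l 16687576)))) (a (a (l 16684328) (l 16677960)) (l 16669936)))) (b (a (a (b (c (l 16693560) (l 16696944)) (l 16684864)) (a (a (l 16677728) (l 16674608))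 (l 16670384))) (a (l 16673320) (l 16664376))) (a (a (a (l 16682128) (l 16674944)) (c (a (l 16640392) (l 16654976)) (l 16660880))) (a (c (l 16648360) (l 16618360)) (c (l 16620728) (l 16610104))))))), by decide +kernel⟩

def k10_B00pm_011_s3 : ∃ t, chk3 f_B00pm_011_s3 t 5 31 1 = true :=
  ⟨(a (b (a (b (a (b (a (c (l 16724656) (l 16699256)) (l 16725128)) (b (l 16725000) (l 16722448))) (a (c (l 16687112) (l 16681640)) (l 16708536))) (a (b (a (l 16690640) (l 16683648)) (c (l 16684928) (l 16679408))) (b (c (l 16676464) (l 16670424)) (l 16678824)))) (a (b (a (l 16701496) (l 16694488)) (c (l 16660808) (l 16653912))) (b (c (l 16656344) (l 16649232)) (c (l 16647592) (l 16640096))))) (a (a (b (b (c (l 16679896) (l 16674056)) (c (l 16695976) (l 16668760))) (c (l 16667992) (l 16660664))) (b (b (l 16684384) (c (l 16662136) (l 16655112))) (c (l 16656000) (l 16647744)))) (b (b (a (c (l 16653976) (l 16646688)) (c (l 16641304)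 (l 16633408))) (a (c (l 16649552) (l 16641776)) (l 16633080))) (a (l 16660592) (l 16648744))))) (b (a (a (b (c (l 16642664) (l 16635040)) (c (l 16634360) (l 16626400))) (b (c (l 16628912) (l 16620904)) (c (c (l 16623312) (l 16618888)) (l 16612768)))) (b (b (a (c (l 16640944) (l 16611160)) (l 16608944)) (a (a (c (l 16616944) (l 16608624)) (l 16608320)) (l 16604384))) (c (a (a (l 16611000) (b (l 16607648) (a (l 16604104) (l 16611976)))) (b (l 16604744) (b (l 16600712) (l 16608616)))) (b (a (l 16622768) (l 16594472)) (a (a (l 16600600) (l 16594280)) (l 16589616)))))) (b (b (a (a (c (l 16628448) (l 16620072)) (a (l 16635280) (l 16628800))) (c (a (a (l 16606048) (l 16599888)) (c (l 16608552) (l 16592712))) (a (l 16593816) (l 16585008)))) (a (a (l 16620824) (l 16608664)) (a (c (l 16601888) (l 16591640)) (c (a (l 16593560) (l 16591464)) (l 16581544))))) (a (a (c (l 16621656) (l 16610952)) (c (l 16610640) (l 16599280)))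 (a (c (c (l 16602888) (l 16596728)) (l 16587848)) (a (a (l 16607816) (l 6)) (l 6))))))), by decide +kernel⟩

def k11_B00pm_011_s3 : ∃ t, chk3 f_B00pm_011_s3 t 3 2 1 = true :=
  ⟨(b (l 1) (a (l 4) (l 1))), by decide +kernel⟩

def k12_B00pm_011_s3 : ∃ t, chk3 f_B00pm_011_s3 t 3 6 1 = true :=
  ⟨(a (a (b (a (l 4) (b (l 4) (a (l 4) (b (l 4) (l 532624143))))) (a (b (b (l 4) (a (l 532727567) (l 532730127))) (a (b (l 533071375) (l 533144079)) (b (l 532813327) (l 532893455)))) (b (c (a (b (l 532747791) (l 532577551)) (b (c (l 533480975) (l 532770831)) (l 532625167))) (a (l 532567567) (b (l 532248335) (l 532331535)))) (a (c (l 533258767) (l 532474127)) (c (b (l 532653327) (l 532754447)) (l 532744207)))))) (b (b (l 1) (a (b (l 1) (a (l 533424399) (l 1))) (l 1))) (b (a (b (a (c (l 533676303) (l 532353295)) (l 533787663)) (a (c (l 533245711) (l 532299023)) (c (l 533770511) (l 532472591)))) (b (l 1) (a (l 533604623) (l 1))))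 (a (a (c (b (l 532771599) (l 532727055)) (b (l 532406799) (l 532508943))) (c (b (l 533357839) (l 532904207)) (l 532684047))) (b (a (c (l 533857295) (l 532583951)) (l 533682959)) (c (a (l 533461263) (l 16708848)) (l 532823311))))))) (b (l 1) (a (b (l 1) (a (b (l 1) (a (b (l 1) (l 16637568)) (l 1))) (l 1))) (l 1)))), by decide +kernel⟩

def k13_B00pm_011_s3 : ∃ t, chk3 f_B00pm_011_s3 t 6 14 1 = true :=
  ⟨(b (a (a (b (a (l 533213967) (l 533239055)) (a (l 533280527) (l 533313295))) (a (b (l 532986639) (l 533068303)) (b (l 533261071) (l 533350927)))) (a (b (a (c (l 532835087) (l 532607503)) (l 533151503)) (a (c (l 16650984) (l 16642136)) (a (l 16632544) (l 16622936)))) (b (a (c (l 533027343) (l 16647296)) (b (l 16613552) (l 16591304))) (a (c (l 16633736) (l 16624304)) (c (l 16588480) (l 16644496)))))) (a (b (a (a (l 533344015) (l 533383951)) (a (l 533415439) (l 533437455))) (a (a (l 533403919) (b (l 16674544) (a (l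 16666000) (l 16659160)))) (a (b (l 16658984) (b (l 16650752) (l 16646792))) (b (a (l 16605208) (l 16640200)) (b (l 16637392) (l 16596408)))))) (a (b (a (c (l 16628888) (l 16618088)) (b (l 16631856) (l 16621744))) (b (a (b (l 16630688) (l 16627064)) (b (l 16615408) (l 16575680))) (a (l 16629424) (l 16620976)))) (b (b (a (l 16654352) (l 16571120)) (a (b (l 16647096) (c (l 16587624) (l 16596368))) (b (a (l 16632616) (l 16540456)) (l 16549264)))) (a (b (l 16586304) (c (l 16579344) (l 16564360))) (l 6)))))), by decide +kernel⟩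

def k14_B00pm_011_s3 : ∃ t, chk3 f_B00pm_011_s3 t 6 15 1 = true :=
  ⟨(a (b (b (a (a (b (b (l 16668096) (l 16663728)) (l 16661288)) (b (a (l 16657248) (l 16611312)) (l 16611248))) (a (b (l 16646952) (l 16604072)) (b (l 16597264) (l 16597704)))) (a (a (b (l 16614688) (l 16650896)) (b (l 16608008) (l 16603808))) (b (a (l 16602280) (l 16597376)) (a (l 16599616) (l 6))))) (a (a (b (b (c (l 16608448) (l 16596064)) (b (c (l 16602440) (l 16590096)) (c (b (l 16599288) (l 16596920)) (l 16585928)))) (b (b (l 16609160) (l 6)) (l 6))) (b (b (c (l 16605832) (l 16591616)) (l 6)) (l 6))) (b (l 6) (l 6)))) (a (b (b (a (b (l 16590024) (l 16591864)) (b (a (l 16584640) (l 6)) (l 6))) (l 6)) (l 6)) (l 6))), by decide +kernel⟩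

def k15_B00pm_011_s3 : ∃ t, chk3 f_B00pm_011_s3 t 7 7 1 = true :=
  ⟨(b (a (a (a (b (b (c (l 16638624) (l 16579192)) (l 16574720)) (b (b (b (l 16616392) (a (l 16615304) (l 6))) (l 6)) (l 6))) (b (b (b (l 1) (l 16606024)) (c (l 16610552) (l 16538728))) (l 6))) (b (b (l 1) (l 6)) (l 6))) (l 6)) (l 6)), by decide +kernel⟩

theorem t16_B00pm_011_s3 : ∃ t, chk3 f_B00pm_011_s3 t 6 7 1 = true := ex3_b k13_B00pm_011_s3 k14_B00pm_011_s3

theorem t17_B00pm_011_s3 : ∃ t, chk3 f_B00pm_011_s3 t 3 7 1 = true := ex3_a t16_B00pm_011_s3 k15_B00pm_011_s3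

theorem t18_B00pm_011_s3 : ∃ t, chk3 f_B00pm_011_s3 t 3 3 1 = true := ex3_b k12_B00pm_011_s3 t17_B00pm_011_s3

theorem t19_B00pm_011_s3 : ∃ t, chk3 f_B00pm_011_s3 t 3 1 1 = true := ex3_b k11_B00pm_011_s3 t18_B00pm_011_s3

theorem t20_B00pm_011_s3 : ∃ t, chk3 f_B00pm_011_s3 t 5 15 1 = true := ex3_b k9_B00pm_011_s3 k10_B00pm_011_s3

theorem t21_B00pm_011_s3 : ∃ t, chk3 f_B00pm_011_s3 t 5 7 1 = true := ex3_b k8_B00pm_011_s3 t20_B00pm_011_s3

theorem t22_B00pm_011_s3 : ∃ t, chk3 f_B00pm_011_s3 t 5 3 1 = true := ex3_b k7_B00pm_011_s3 t21_B00pm_011_s3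

theorem t23_B00pm_011_s3 : ∃ t, chk3 f_B00pm_011_s3 t 9 31 1 = true := ex3_b k5_B00pm_011_s3 k6_B00pm_011_s3

theorem t24_B00pm_011_s3 : ∃ t, chk3 f_B00pm_011_s3 t 4 31 1 = true := ex3_a k4_B00pm_011_s3 t23_B00pm_011_s3

theorem t25_B00pm_011_s3 : ∃ t, chk3 f_B00pm_011_s3 t 4 15 1 = true := ex3_b k3_B00pm_011_s3 t24_B00pm_011_s3

theorem t26_B00pm_011_s3 : ∃ t, chk3 f_B00pm_011_s3 t 4 7 1 = true := ex3_b k2_B00pm_011_s3 t25_B00pm_011_s3

theorem t27_B00pm_011_s3 : ∃ t, chk3 f_B00pm_011_s3 t 4 3 1 = true := ex3_b k1_B00pm_011_s3 t26_B00pm_011_s3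

theorem t28_B00pm_011_s3 : ∃ t, chk3 f_B00pm_011_s3 t 2 3 1 = true := ex3_a t27_B00pm_011_s3 t22_B00pm_011_s3

theorem t29_B00pm_011_s3 : ∃ t, chk3 f_B00pm_011_s3 t 2 1 1 = true := ex3_b k0_B00pm_011_s3 t28_B00pm_011_s3

theorem t30_B00pm_011_s3 : ∃ t, chk3 f_B00pm_011_s3 t 1 1 1 = true := ex3_a t29_B00pm_011_s3 t19_B00pm_011_s3

theorem c_B00pm_011_s3 : CertF 0 536870912 536870912 536870912 469762048 67108864 false true false .pnn 0 1 1
    ndF0q0 ndF0q1 pcF1 cut_B00pm_011_s3 xt_B00pm_011_s3 :=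
  certF0 (fam := false) (s1 := true) (s2 := false) (a := 0) (b := 1) (c := 1) (cn := .pnn) (n1 := ndF0q0) (n2 := ndF0q1) (pc := pcF1) (cut := cut_B00pm_011_s3) (xt := xt_B00pm_011_s3) (P1 := 0) (W1 := 536870912) (P2 := 536870912) (W2 := 536870912) (P3 := 469762048) (W3 := 67108864)
    rfl t30_B00pm_011_s3

theorem s_B00pm_011_s3 {κ x : ℝ} (hκ : κ * h0 = ken x) (hx : ((469762048 : ℕ) : ℝ) / S ≤ x)
    (hx' : x ≤ (((469762048 : ℕ) : ℝ) + (67108864 : ℕ)) / S)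
    (H : CutB (VF κ) PP tKF tL pcF (Cut.of [[⟨0, 0, 0, 67108864⟩, ⟨1, 1, 0, 67108864⟩, ⟨2, 1, 0, 67108864⟩], [⟨0, 0, 1, 33554432⟩, ⟨1, 1, 2, 33554432⟩, ⟨2, 1, 0, 33554432⟩]]) 0 1 1 0 0 (sgb true) (sgb false) x) :
    AltB (VF κ) PP tKF tL pcF [⟨4, 0, 0, 2845415833⟩] 0 1 1 0 0 (sgb true) (sgb false) x :=
  strip_altB (m := 2845415833) false rfl hκ covF00 covF01 hx hx' c_B00pm_011_s3 H ((okx hx hx').extB (T := tt) (sideF hx hx') hκ rfl rfl (.O 0 true) (.O 1 false) (Or.inr rfl))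

noncomputable def cut_B00pm_012_s1 : Cut := Cut.of [[⟨4, 0, 0, 1449551462⟩], [⟨0, 0, 0, 67108864⟩, ⟨1, 1, 0, 67108864⟩, ⟨2, 1, 0, 67108864⟩], [⟨0, 0, 1, 33554432⟩, ⟨1, 1, 2, 33554432⟩, ⟨2, 1, 0, 33554432⟩]]

noncomputable def f_B00pm_012_s1 : ℕ → ℕ → ℕ → ℕ → Bool := onCell 0 536870912 0 536870912 469762048 67108864
    (rowF 0 false true false .pnp 0 1 2 (qsf 0 536870912 0 536870912 1) ndF0q0 ndF0q2 pcF1 cut_B00pm_012_s1 Ext.none)

def k0_B00pm_012_s1 : ∃ t, chk3 f_B00pm_012_s1 t 1 1 1 = true :=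
  ⟨(a (l 6) (b (a (b (a (l 6) (b (a (l 6) (l 16742720)) (l 6))) (l 6)) (b (b (a (a (l 16757928) (l 16769592)) (a (l 16778784) (a (l 16783816) (l 16786192)))) (a (l 6) (a (l 16793648) (l 16801016)))) (l 6))) (l 6))), by decide +kernel⟩

theorem c_B00pm_012_s1 : CertF 0 536870912 0 536870912 469762048 67108864 false true false .pnp 0 1 2
    ndF0q0 ndF0q2 pcF1 cut_B00pm_012_s1 Ext.none :=
  certF0 (fam := false) (s1 := true) (s2 := false) (a := 0) (b := 1) (c := 2) (cn := .pnp) (n1 := ndF0q0) (n2 := ndF0q2) (pc := pcF1) (cut := cut_B00pm_012_s1) (xt := Ext.none) (P1 := 0) (W1 := 536870912) (P2 := 0) (W2 := 536870912) (P3 := 469762048) (W3 := 67108864)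
    rfl k0_B00pm_012_s1

theorem s_B00pm_012_s1 {κ x : ℝ} (hκ : κ * h0 = ken x) (hx : ((469762048 : ℕ) : ℝ) / S ≤ x)
    (hx' : x ≤ (((469762048 : ℕ) : ℝ) + (67108864 : ℕ)) / S)
    (H : CutB (VF κ) PP tKF tL pcF (Cut.of [[⟨0, 0, 0, 67108864⟩, ⟨1, 1, 0, 67108864⟩, ⟨2, 1, 0, 67108864⟩], [⟨0, 0, 1, 33554432⟩, ⟨1, 1, 2, 33554432⟩, ⟨2, 1, 0, 33554432⟩]]) 0 1 2 0 0 (sgb true) (sgb false) x) :
    AltB (VF κ) PP tKF tL pcF [⟨3, 0, 0, 1449551462⟩] 0 1 2 0 0 (sgb true) (sgb false) x :=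
  strip_altB (m := 1449551462) true rfl hκ covF00 covF02 hx hx' c_B00pm_012_s1 H (noExt_B)

noncomputable def cut_B00pm_012_s3 : Cut := Cut.of [[⟨3, 0, 0, 2845415833⟩], [⟨0, 0, 0, 67108864⟩, ⟨1, 1, 0, 67108864⟩, ⟨2, 1, 0, 67108864⟩], [⟨0, 0, 1, 33554432⟩, ⟨1, 1, 2, 33554432⟩, ⟨2, 1, 0, 33554432⟩]]

noncomputable def f_B00pm_012_s3 : ℕ → ℕ → ℕ → ℕ → Bool := onCell 536870912 536870912 0 536870912 469762048 67108864
    (rowF 2 false true false .pnp 0 1 2 (qsf 0 536870912 0 536870912 1) ndF0q0 ndF0q2 pcF1 cut_B00pm_012_s3 Ext.none)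

def k0_B00pm_012_s3 : ∃ t, chk3 f_B00pm_012_s3 t 2 1 1 = true :=
  ⟨(b (l 6) (a (l 6) (l 6))), by decide +kernel⟩

def k1_B00pm_012_s3 : ∃ t, chk3 f_B00pm_012_s3 t 3 1 1 = true :=
  ⟨(b (l 6) (a (b (l 6) (b (l 6) (b (a (l 6) (b (a (l 6) (l 16593064)) (a (l 16591936) (l 16649056)))) (b (a (a (l 6) (c (l 16594888) (l 16581792))) (a (a (l 16600672) (l 16609528)) (c (l 16670312) (l 16661160)))) (a (b (a (l 6) (c (l 16603472) (l 16590920))) (a (a (l 6) (c (l 16595352) (l 16582120))) (c (a (l 16605128) (l 16615120)) (l 16597920)))) (b (c (a (l 16622176) (l 16642184)) (a (l 16611352) (l 16633328))) (a (a (l 16619728) (l 16630688)) (a (l 16641992) (l 16674632))))))))) (b (l 6) (b (b (a (l 6) (a (b (l 6) (l 16627288)) (a (c (l 16589904) (l 16601664)) (a (a (l 16597840) (l 16600608)) (b (l 16596040) (l 16613416)))))) (b (a (a (l 6) (l 16589352)) (a (l 16643960) (a (l 16617056) (a (l 16626424) (l 16632496))))) (a (a (l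 16592056) (l 16607792)) (a (c (l 16643184) (l 16651136)) (a (a (l 16633480) (l 16640248)) (a (l 16646880) (l 14))))))) (a (a (b (b (l 16648936) (a (l 16619736) (l 16628816))) (b (b (l 16680632) (l 16680584)) (b (a (l 16654360) (l 16666072)) (a (l 16686672) (b (l 16675032) (l 16681224)))))) (a (b (b (l 16618880) (l 16638416)) (b (l 16681256) (b (l 16678200) (a (l 16687704) (l 16715200))))) (b (b (l 16627544) (l 16690472)) (b (b (l 16665712) (l 16677944)) (b (l 16711744) (b (l 16721736) (c (l 16720248) (l 16705648)))))))) (b (a (b (a (l 16636784) (l 16646592)) (a (l 16664416) (l 16691312))) (a (b (c (l 16679048) (l 16669280)) (l 14)) (l 14))) (a (a (b (b (l 16677376) (l 16711256)) (a (b (l 16700480) (b (l 16710848) (l 16728440))) (b (l 16707088) (l 14)))) (b (b (l 16710512) (l 14)) (l 14))) (l 14)))))))), by decide +kernel⟩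

theorem t2_B00pm_012_s3 : ∃ t, chk3 f_B00pm_012_s3 t 1 1 1 = true := ex3_a k0_B00pm_012_s3 k1_B00pm_012_s3

theorem c_B00pm_012_s3 : CertF 0 536870912 0 536870912 469762048 67108864 false true false .pnp 0 1 2
    ndF0q0 ndF0q2 pcF1 cut_B00pm_012_s3 Ext.none :=
  certF2 (fam := false) (s1 := true) (s2 := false) (a := 0) (b := 1) (c := 2) (cn := .pnp) (n1 := ndF0q0) (n2 := ndF0q2) (pc := pcF1) (cut := cut_B00pm_012_s3) (xt := Ext.none) (P1 := 0) (W1 := 536870912) (P2 := 0) (W2 := 536870912) (P3 := 469762048) (W3 := 67108864)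
    rfl (fun _ => rfl) t2_B00pm_012_s3

theorem s_B00pm_012_s3 {κ x : ℝ} (hκ : κ * h0 = ken x) (hx : ((469762048 : ℕ) : ℝ) / S ≤ x)
    (hx' : x ≤ (((469762048 : ℕ) : ℝ) + (67108864 : ℕ)) / S)
    (H : CutB (VF κ) PP tKF tL pcF (Cut.of [[⟨0, 0, 0, 67108864⟩, ⟨1, 1, 0, 67108864⟩, ⟨2, 1, 0, 67108864⟩], [⟨0, 0, 1, 33554432⟩, ⟨1, 1, 2, 33554432⟩, ⟨2, 1, 0, 33554432⟩]]) 0 1 2 0 0 (sgb true) (sgb false) x) :
    AltB (VF κ) PP tKF tL pcF [⟨4, 0, 0, 2845415833⟩] 0 1 2 0 0 (sgb true) (sgb false) x :=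
  strip_altB (m := 2845415833) false rfl hκ covF00 covF02 hx hx' c_B00pm_012_s3 H (noExt_B)

noncomputable def cut_B00pm_022_s1 : Cut := Cut.of [[⟨4, 0, 0, 1449551462⟩], [⟨0, 0, 0, 67108864⟩, ⟨1, 1, 0, 67108864⟩, ⟨2, 1, 0, 67108864⟩]]

noncomputable def f_B00pm_022_s1 : ℕ → ℕ → ℕ → ℕ → Bool := onCell 1073741824 536870912 0 536870912 469762048 67108864
    (rowF 2 false true false .pp 0 2 2 (qsf 0 536870912 0 536870912 2) ndF0q0 ndF0q2 pcF2 cut_B00pm_022_s1 Ext.none)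

def k0_B00pm_022_s1 : ∃ t, chk3 f_B00pm_022_s1 t 1 1 1 = true :=
  ⟨(l 6), by decide +kernel⟩

theorem c_B00pm_022_s1 : CertF 0 536870912 0 536870912 469762048 67108864 false true false .pp 0 2 2
    ndF0q0 ndF0q2 pcF2 cut_B00pm_022_s1 Ext.none :=
  certF2 (fam := false) (s1 := true) (s2 := false) (a := 0) (b := 2) (c := 2) (cn := .pp) (n1 := ndF0q0) (n2 := ndF0q2) (pc := pcF2) (cut := cut_B00pm_022_s1) (xt := Ext.none) (P1 := 0) (W1 := 536870912) (P2 := 0) (W2 := 536870912) (P3 := 469762048) (W3 := 67108864)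
    rfl (fun _ => rfl) k0_B00pm_022_s1

theorem s_B00pm_022_s1 {κ x : ℝ} (hκ : κ * h0 = ken x) (hx : ((469762048 : ℕ) : ℝ) / S ≤ x)
    (hx' : x ≤ (((469762048 : ℕ) : ℝ) + (67108864 : ℕ)) / S)
    (H : CutB (VF κ) PP tKF tL pcF (Cut.of [[⟨0, 0, 0, 67108864⟩, ⟨1, 1, 0, 67108864⟩, ⟨2, 1, 0, 67108864⟩]]) 0 2 2 0 0 (sgb true) (sgb false) x) :
    AltB (VF κ) PP tKF tL pcF [⟨3, 0, 0, 1449551462⟩] 0 2 2 0 0 (sgb true) (sgb false) x :=
  strip_altB (m := 1449551462) true rfl hκ covF00 covF02 hx hx' c_B00pm_022_s1 H (noExt_B)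

noncomputable def cut_B00pm_022_s3 : Cut := Cut.of [[⟨3, 0, 0, 2845415833⟩], [⟨0, 0, 0, 67108864⟩, ⟨1, 1, 0, 67108864⟩, ⟨2, 1, 0, 67108864⟩]]

noncomputable def f_B00pm_022_s3 : ℕ → ℕ → ℕ → ℕ → Bool := onCell 0 536870912 0 536870912 469762048 67108864
    (rowF 0 false true false .pp 0 2 2 (qsf 0 536870912 0 536870912 2) ndF0q0 ndF0q2 pcF2 cut_B00pm_022_s3 Ext.none)

def k0_B00pm_022_s3 : ∃ t, chk3 f_B00pm_022_s3 t 1 1 1 = true :=
  ⟨(a (b (l 6) (a (b (a (a (a (b (l 6) (a (b (b (l 16603768) (l 16614536)) (b (a (l 16627416) (l 16624360)) (b (l 16634784) (l 16640936)))) (b (l 16603600) (b (l 16619696) (l 16631272))))) (b (l 6) (b (l 16636840) (a (l 16618928) (l 16612136))))) (b (l 6) (b (l 6) (a (l 16643512) (l 16586832))))) (a (b (l 6) (b (l 6) (l 6))) (l 6))) (a (a (b (b (a (a (b (a (c (l 16656112) (l 16648368)) (l 16648784)) (a (b (l 16662224) (l 14)) (l 16662040))) (b (l 16643512) (l 16656464))) (b (l 16632584)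 (a (l 16648824) (l 16640936)))) (l 14)) (l 14)) (a (b (b (l 16654432) (l 14)) (l 14)) (b (b (b (l 16603968) (l 16618168)) (b (l 58552174199) (l 146062142279))) (l 1)))) (b (a (b (a (b (l 16596240) (l 16609152)) (l 1)) (l 1)) (l 1)) (l 1)))) (b (l 1) (l 1)))) (l 1)), by decide +kernel⟩

theorem c_B00pm_022_s3 : CertF 0 536870912 0 536870912 469762048 67108864 false true false .pp 0 2 2
    ndF0q0 ndF0q2 pcF2 cut_B00pm_022_s3 Ext.none :=
  certF0 (fam := false) (s1 := true) (s2 := false) (a := 0) (b := 2) (c := 2) (cn := .pp) (n1 := ndF0q0) (n2 := ndF0q2) (pc := pcF2) (cut := cut_B00pm_022_s3) (xt := Ext.none) (P1 := 0) (W1 := 536870912) (P2 := 0) (W2 := 536870912) (P3 := 469762048) (W3 := 67108864)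
    rfl k0_B00pm_022_s3

theorem s_B00pm_022_s3 {κ x : ℝ} (hκ : κ * h0 = ken x) (hx : ((469762048 : ℕ) : ℝ) / S ≤ x)
    (hx' : x ≤ (((469762048 : ℕ) : ℝ) + (67108864 : ℕ)) / S)
    (H : CutB (VF κ) PP tKF tL pcF (Cut.of [[⟨0, 0, 0, 67108864⟩, ⟨1, 1, 0, 67108864⟩, ⟨2, 1, 0, 67108864⟩]]) 0 2 2 0 0 (sgb true) (sgb false) x) :
    AltB (VF κ) PP tKF tL pcF [⟨4, 0, 0, 2845415833⟩] 0 2 2 0 0 (sgb true) (sgb false) x :=
  strip_altB (m := 2845415833) false rfl hκ covF00 covF02 hx hx' c_B00pm_022_s3 H (noExt_B)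

noncomputable def cut_B00pm_101_s1 : Cut := Cut.of [[⟨4, 0, 0, 1449551462⟩], [⟨0, 1, 0, 53687091⟩, ⟨1, 0, 0, 53687091⟩, ⟨2, 1, 0, 53687091⟩], [⟨0, 0, 1, 33554432⟩, ⟨1, 1, 2, 33554432⟩, ⟨2, 1, 0, 33554432⟩]]

noncomputable def f_B00pm_101_s1 : ℕ → ℕ → ℕ → ℕ → Bool := onCell 536870912 536870912 536870912 536870912 469762048 67108864
    (rowF 0 false true false .npn 1 0 1 (qsf 536870912 536870912 536870912 536870912 0) ndF0q1 ndF0q1 pcF0 cut_B00pm_101_s1 Ext.none)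

def k0_B00pm_101_s1 : ∃ t, chk3 f_B00pm_101_s1 t 1 1 1 = true :=
  ⟨(a (l 6) (b (l 6) (a (b (l 6) (b (l 6) (b (l 6) (a (l 6) (b (l 6) (a (l 6) (a (l 6) (l 16911176)))))))) (b (a (l 6) (l 1)) (a (a (b (l 6) (b (l 6) (b (a (l 16909496) (l 16896048)) (a (l 16939648) (b (l 16887216) (l 16881120)))))) (b (l 6) (b (b (a (l 6) (b (l 16893496) (b (l 16889536) (l 16887192)))) (a (l 16893792) (l 16880720))) (b (a (l 16882624) (l 16890112)) (a (b (l 16873600) (l 16867368)) (b (l 16859768) (c (l 16857216) (l 16850032)))))))) (b (a (a (b (l 1) (b (l 1) (l 142841485223))) (l 1)) (l 1)) (b (a (b (a (b (l 16881304) (b (l 110629182951) (l 16874568))) (b (l 1) (b (l 1) (l 191696640071)))) (a (b (l 16870560) (l 16864816)) (l 14))) (b (l 1) (l 14))) (a (a (b (b (l 16858688) (l 16852256)) (b (a (l 16849184) (l 16841992)) (a (l 16842464) (l 16835064)))) (l 14)) (l 14))))))))), by decide +kernel⟩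

theorem c_B00pm_101_s1 : CertF 536870912 536870912 536870912 536870912 469762048 67108864 false true false .npn 1 0 1
    ndF0q1 ndF0q1 pcF0 cut_B00pm_101_s1 Ext.none :=
  certF0 (fam := false) (s1 := true) (s2 := false) (a := 1) (b := 0) (c := 1) (cn := .npn) (n1 := ndF0q1) (n2 := ndF0q1) (pc := pcF0) (cut := cut_B00pm_101_s1) (xt := Ext.none) (P1 := 536870912) (W1 := 536870912) (P2 := 536870912) (W2 := 536870912) (P3 := 469762048) (W3 := 67108864)
    rfl k0_B00pm_101_s1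

theorem s_B00pm_101_s1 {κ x : ℝ} (hκ : κ * h0 = ken x) (hx : ((469762048 : ℕ) : ℝ) / S ≤ x)
    (hx' : x ≤ (((469762048 : ℕ) : ℝ) + (67108864 : ℕ)) / S)
    (H : CutB (VF κ) PP tKF tL pcF (Cut.of [[⟨0, 1, 0, 53687091⟩, ⟨1, 0, 0, 53687091⟩, ⟨2, 1, 0, 53687091⟩], [⟨0, 0, 1, 33554432⟩, ⟨1, 1, 2, 33554432⟩, ⟨2, 1, 0, 33554432⟩]]) 1 0 1 0 0 (sgb true) (sgb false) x) :
    AltB (VF κ) PP tKF tL pcF [⟨3, 0, 0, 1449551462⟩] 1 0 1 0 0 (sgb true) (sgb false) x :=
  strip_altB (m := 1449551462) true rfl hκ covF01 covF01 hx hx' c_B00pm_101_s1 H (noExt_B)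

noncomputable def cut_B00pm_101_s3 : Cut := Cut.of [[⟨3, 0, 0, 2845415833⟩], [⟨0, 1, 0, 53687091⟩, ⟨1, 0, 0, 53687091⟩, ⟨2, 1, 0, 53687091⟩], [⟨0, 0, 1, 33554432⟩, ⟨1, 1, 2, 33554432⟩, ⟨2, 1, 0, 33554432⟩]]

noncomputable def xt_B00pm_101_s3 : Ext := strExt dd false true false .u0 .u0m .s0m .npn 1 0 1 rfl rfl gl0 vv ndF0q1 ndF0q1

noncomputable def f_B00pm_101_s3 : ℕ → ℕ → ℕ → ℕ → Bool := onCell 536870912 536870912 536870912 536870912 469762048 67108864
    (rowF 0 false true false .npn 1 0 1 (qsf 536870912 536870912 536870912 536870912 0) ndF0q1 ndF0q1 pcF0 cut_B00pm_101_s3 xt_B00pm_101_s3)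

def k0_B00pm_101_s3 : ∃ t, chk3 f_B00pm_101_s3 t 4 2 1 = true :=
  ⟨(b (a (b (l 4) (a (b (l 4) (a (l 4) (b (l 4) (c (l 538964495) (l 538525711))))) (b (a (l 4) (b (l 4) (a (l 4) (l 539168271)))) (a (b (b (l 4) (l 538939919)) (l 538864143)) (b (a (a (b (l 4) (l 539003151)) (b (l 539073039) (l 539027983))) (b (l 539107599) (l 539064079))) (a (a (l 538930191) (l 538956303)) (b (l 539017999) (l 538969615)))))))) (b (a (a (l 4) (l 1)) (l 1)) (a (b (a (b (l 539287567) (l 539227407)) (l 539321103)) (b (l 539196943) (a (a (l 539043599) (l 539089935)) (l 539155471)))) (b (a (a (l 539354895) (l 1)) (l 1)) (a (b (l 539296271) (l 539231759)) (b (l 84859247143) (l 16834568))))))) (a (b (a (b (a (b (l 538481167) (l 538359567)) (b (l 538621711) (l 538500111))) (a (l 538180879) (b (l 538379023) (l 538258703)))) (b (a (b (l 538753295) (l 538635535)) (b (a (l 538838031) (l 538892303)) (a (l 538724367) (l 16807280)))) (a (b (l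 538515215) (l 538395151)) (a (l 538550799) (l 538610703))))) (a (b (a (l 537941775) (b (l 538139407) (l 538021135))) (a (b (l 537760783) (l 537640975)) (b (l 537903631) (l 537786127)))) (b (a (c (l 538454287) (l 537987599)) (b (l 16822400) (l 16826296))) (a (b (l 16818472) (l 16820032)) (b (l 16829160) (l 16830960)))))) (a (b (b (a (b (l 538971151) (l 538863631)) (b (l 539066639) (l 16827096))) (a (b (l 16822464) (l 16828584)) (l 538804495))) (a (b (b (l 16833680) (l 16837744)) (b (l 16840784) (l 16842784))) (b (b (l 16845920) (l 16850136)) (l 16854344)))) (b (b (a (l 539109391) (b (l 16844328) (l 16853120))) (a (l 538904079) (b (l 16860832) (l 16867456)))) (b (a (l 16861088) (l 16875104)) (a (l 16867792) (l 16882040))))))), by decide +kernel⟩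

def k1_B00pm_101_s3 : ∃ t, chk3 f_B00pm_101_s3 t 5 2 1 = true :=
  ⟨(b (a (b (l 1) (a (b (l 1) (a (b (l 1) (l 16847920)) (l 1))) (l 1))) (l 1)) (b (a (b (a (a (b (l 16857920) (l 16867000)) (b (l 16871768) (l 16881120))) (b (l 1) (a (l 16895344) (l 1)))) (b (a (a (l 16875016) (l 16889432)) (a (l 16903952) (l 16918456))) (a (a (l 16881880) (l 16896592)) (a (l 16911424) (l 6))))) (a (b (l 1) (l 6)) (l 1))) (b (a (a (b (a (l 16887600) (l 16902560)) (l 16941384)) (l 6)) (l 6)) (a (l 6) (l 6))))), by decide +kernel⟩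

def k2_B00pm_101_s3 : ∃ t, chk3 f_B00pm_101_s3 t 2 3 1 = true :=
  ⟨(a (b (b (a (b (b (a (a (l 537517327) (l 16810096)) (a (l 16820376) (l 16831592))) (a (a (l 537390607) (l 537542671)) (a (l 16819424) (l 16830984)))) (a (a (b (l 537261583) (c (l 16808456) (l 16773920))) (b (c (l 16821576) (l 16790584)) (c (l 16819392) (l 16784360)))) (a (b (l 16817128) (l 16813432)) (b (l 16829096) (l 6))))) (a (b (a (b (l 16843656) (l 16843344)) (l 16856536)) (l 6)) (l 6))) (a (b (a (a (b (c (l 16804328) (l 16765384)) (l 6)) (l 6)) (l 6)) (l 6)) (l 6))) (l 6)) (b (l 6) (l 6))), by decide +kernel⟩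

def k3_B00pm_101_s3 : ∃ t, chk3 f_B00pm_101_s3 t 3 1 1 = true :=
  ⟨(b (a (b (l 1) (l 6)) (l 1)) (l 6)), by decide +kernel⟩

theorem t4_B00pm_101_s3 : ∃ t, chk3 f_B00pm_101_s3 t 2 2 1 = true := ex3_a k0_B00pm_101_s3 k1_B00pm_101_s3

theorem t5_B00pm_101_s3 : ∃ t, chk3 f_B00pm_101_s3 t 2 1 1 = true := ex3_b t4_B00pm_101_s3 k2_B00pm_101_s3

theorem t6_B00pm_101_s3 : ∃ t, chk3 f_B00pm_101_s3 t 1 1 1 = true := ex3_a t5_B00pm_101_s3 k3_B00pm_101_s3

theorem c_B00pm_101_s3 : CertF 536870912 536870912 536870912 536870912 469762048 67108864 false true false .npn 1 0 1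
    ndF0q1 ndF0q1 pcF0 cut_B00pm_101_s3 xt_B00pm_101_s3 :=
  certF0 (fam := false) (s1 := true) (s2 := false) (a := 1) (b := 0) (c := 1) (cn := .npn) (n1 := ndF0q1) (n2 := ndF0q1) (pc := pcF0) (cut := cut_B00pm_101_s3) (xt := xt_B00pm_101_s3) (P1 := 536870912) (W1 := 536870912) (P2 := 536870912) (W2 := 536870912) (P3 := 469762048) (W3 := 67108864)
    rfl t6_B00pm_101_s3

theorem s_B00pm_101_s3 {κ x : ℝ} (hκ : κ * h0 = ken x) (hx : ((469762048 : ℕ) : ℝ) / S ≤ x)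
    (hx' : x ≤ (((469762048 : ℕ) : ℝ) + (67108864 : ℕ)) / S)
    (H : CutB (VF κ) PP tKF tL pcF (Cut.of [[⟨0, 1, 0, 53687091⟩, ⟨1, 0, 0, 53687091⟩, ⟨2, 1, 0, 53687091⟩], [⟨0, 0, 1, 33554432⟩, ⟨1, 1, 2, 33554432⟩, ⟨2, 1, 0, 33554432⟩]]) 1 0 1 0 0 (sgb true) (sgb false) x) :
    AltB (VF κ) PP tKF tL pcF [⟨4, 0, 0, 2845415833⟩] 1 0 1 0 0 (sgb true) (sgb false) x :=
  strip_altB (m := 2845415833) false rfl hκ covF01 covF01 hx hx' c_B00pm_101_s3 H ((okx hx hx').extB (T := tt) (sideF hx hx') hκ rfl rfl (.O 1 true) (.O 1 false) (Or.inl rfl))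

noncomputable def cut_B00pm_102_s1 : Cut := Cut.of [[⟨4, 0, 0, 1449551462⟩], [⟨0, 1, 0, 67108864⟩, ⟨1, 0, 0, 67108864⟩, ⟨2, 1, 0, 67108864⟩], [⟨0, 0, 1, 33554432⟩, ⟨1, 1, 2, 33554432⟩, ⟨2, 1, 0, 33554432⟩]]

noncomputable def xt_B00pm_102_s1 : Ext := strExt dd false true false .u0 .u2 .u0m .npp 1 0 2 rfl rfl gf0 vv ndF0q1 ndF0q2

noncomputable def f_B00pm_102_s1 : ℕ → ℕ → ℕ → ℕ → Bool := onCell 536870912 536870912 0 536870912 469762048 67108864
    (rowF 0 false true false .npp 1 0 2 (qsf 536870912 536870912 0 536870912 0) ndF0q1 ndF0q2 pcF0 cut_B00pm_102_s1 xt_B00pm_102_s1)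

def k0_B00pm_102_s1 : ∃ t, chk3 f_B00pm_102_s1 t 2 1 1 = true :=
  ⟨(b (a (a (l 2) (a (l 2) (b (l 2) (b (l 2) (b (l 2) (l 16833520)))))) (b (a (a (a (l 2) (b (l 3) (l 538557199))) (b (l 3) (l 538441231))) (b (l 3) (a (l 538312975) (l 3)))) (a (b (a (b (l 538724367) (l 538798095)) (b (l 538563855) (l 538638863))) (a (b (l 538867215) (l 16800184)) (a (l 538777615) (l 538705935)))) (b (a (b (l 538433807) (b (l 538490383) (l 538526479))) (b (a (l 538362127) (l 3)) (a (l 538432527) (l 538360847)))) (a (b (l 538577935) (l 538640143)) (a (b (l 538496527) (l 538555919)) (l 538452239))))))) (a (b (l 6) (l 6)) (b (a (a (b (b (l 16908552) (l 6)) (l 6)) (b (b (l 538833423) (l 16902080)) (l 6))) (b (a (b (l 538700303) (c (l 16783440) (l 16884120))) (a (c (l 537458703) (l 538801167)) (b (l 538542351) (l 538601487)))) (b (a (a (l 16903120) (l 16889792)) (a (l 16876208) (l 16758520))) (a (l 6) (a (b (l 16892752) (l 6)) (c (l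 16795984) (l 16891904))))))) (l 6)))), by decide +kernel⟩

def k1_B00pm_102_s1 : ∃ t, chk3 f_B00pm_102_s1 t 3 2 1 = true :=
  ⟨(a (b (l 3) (a (b (a (b (l 3) (l 538272015)) (l 3)) (b (a (l 538336783) (c (l 538264335) (l 538349583))) (a (l 538401551) (c (l 538856719) (l 538421775))))) (l 3))) (l 3)), by decide +kernel⟩

def k2_B00pm_102_s1 : ∃ t, chk3 f_B00pm_102_s1 t 3 6 1 = true :=
  ⟨(a (a (b (a (b (c (l 538412815) (l 538584079)) (c (l 538476559) (l 538651151))) (b (c (l 538925071) (l 538497551)) (c (l 539803151) (l 538574607)))) (a (a (b (l 538617871) (b (l 16867648) (l 16794904))) (c (l 539380239) (l 538732047))) (b (c (l 539073807) (l 538653711)) (c (l 539691535) (l 538735631))))) (b (b (a (c (l 538412559) (l 538478607)) (l 3)) (a (c (l 538756367) (l 538559759)) (c (a (l 538515983) (l 538537999)) (l 538564111)))) (b (a (c (l 539103759) (l 538642191)) (c (a (l 538595599) (l 538617615)) (l 538647311))) (a (c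 (a (l 538638863) (l 538657807)) (l 538725903)) (c (a (l 538678543) (l 538700559)) (a (l 538727183) (l 538731023))))))) (b (l 3) (b (a (a (a (c (l 538640399) (l 538652431)) (l 3)) (l 3)) (l 3)) (a (a (a (c (l 538991631) (l 538736143)) (c (l 539282191) (l 538742031))) (a (c (a (l 538758415) (l 3)) (l 538748431)) (l 3))) (l 3))))), by decide +kernel⟩

def k3_B00pm_102_s1 : ∃ t, chk3 f_B00pm_102_s1 t 6 7 1 = true :=
  ⟨(b (a (b (b (a (c (a (l 16886448) (l 16876200)) (a (l 16895720) (l 16884136))) (c (a (l 16866184) (l 16856328)) (l 16866832))) (a (c (l 16892352) (l 16898240)) (a (c (l 16878560) (l 16884448)) (a (c (l 16870648) (l 16875864)) (c (b (l 16862496) (l 16868504)) (l 16869968)))))) (a (l 6) (a (b (l 16787752) (l 6)) (b (c (a (l 16926152) (l 16878648)) (l 16906224)) (c (l 16895632) (l 16897800)))))) (b (a (a (b (c (l 16846296) (l 16849536)) (c (l 16857704) (l 16861304))) (c (l 538744335) (l 16843928))) (c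 (a (l 538765071) (l 538786831)) (a (l 538812687) (l 538816271)))) (a (b (a (c (l 16912344) (l 16873736)) (c (b (l 16856048) (l 16862320)) (l 16861552))) (c (l 16877904) (l 16879392))) (b (a (c (c (l 16848760) (l 16847680)) (l 16849584)) (c (l 538853647) (l 16837360))) (c (a (b (l 16857248) (l 16863608)) (b (l 16845424) (a (l 16854728) (l 16848576)))) (a (l 16861712) (a (l 16852360) (l 16845984)))))))) (a (l 6) (a (a (b (b (l 16896832) (l 6)) (l 6)) (b (c (l 16892576) (l 16807304)) (b (l 16911016) (l 6)))) (b (a (c (l 16880200) (l 16878616)) (c (b (l 16861152) (l 16874240)) (l 16866112))) (c (a (l 16908144) (l 16936960)) (b (l 16910664) (l 16901936))))))), by decide +kernel⟩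

def k4_B00pm_102_s1 : ∃ t, chk3 f_B00pm_102_s1 t 7 14 1 = true :=
  ⟨(a (a (b (a (c (l 539882255) (l 538820623)) (c (a (l 538822415) (l 538832399)) (l 538825231))) (a (b (c (l 538874639) (l 16824832)) (c (a (l 16839392) (l 16833176)) (c (l 16793888) (l 16837392)))) (c (a (l 538909455) (l 538918671)) (l 538907663)))) (a (b (c (a (l 538841871) (l 538851343)) (l 538829583)) (c (a (l 538927119) (l 538935311)) (l 539178255))) (b (c (a (l 538860047) (l 538868495)) (l 538833935)) (c (a (l 539748367) (b (l 538929679) (l 538970383))) (l 540253455))))) (b (l 3) (a (a (a (c (b (l 538936591) (l 538976271)) (l 538903567)) (c (b (l 539211279) (l 540592399)) (l 538901519))) (a (a (b (l 3) (l 540532751)) (l 3)) (l 3))) (l 3)))), by decide +kernel⟩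

def k5_B00pm_102_s1 : ∃ t, chk3 f_B00pm_102_s1 t 14 15 1 = true :=
  ⟨(b (a (c (b (b (a (a (l 16848696) (l 16842272)) (a (l 16835808) (l 16829208))) (a (l 16851720) (a (l 16842032) (c (l 16836304) (l 16834664))))) (a (l 16861344) (l 16848088))) (b (a (b (l 16845400) (l 16850832)) (b (l 16832136) (a (l 16841456) (l 16834688)))) (c (l 16852528) (l 16852680)))) (a (c (b (a (b (l 16822472) (l 16828512)) (l 538998799)) (b (b (a (l 16833144) (l 16826128)) (a (l 16836240) (l 16829216))) (l 16837456))) (b (a (l 16824872) (l 16817944)) (b (a (l 16833664) (l 16826672)) (l 16835456)))) (c (b (a (l 539005199) (l 539010831)) (a (b (c (l 16821336) (l 16819912)) (a (l 16828504) (b (l 16823280) (l 16826408)))) (b (l 539040527) (b (l 16817744) (a (l 16822688) (l 16818944)))))) (b (l 539236879) (a (b (l 16819592) (l 16825328)) (b (l 16812344) (c (l 16818056) (l 16818352)))))))) (a (b (c (a (l 16874696) (l 16861200)) (a (l 16870088)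 (l 16856880))) (a (l 16884848) (c (l 16875160) (l 16868408)))) (b (c (a (l 16847248) (c (l 16833968) (l 16831600))) (a (b (l 16840720) (l 16846184)) (b (l 16827024) (l 16832368)))) (a (c (l 16861128) (l 16854768)) (c (a (l 16850256) (l 16842800)) (b (l 16837944) (l 16843768))))))), by decide +kernel⟩

def k6_B00pm_102_s1 : ∃ t, chk3 f_B00pm_102_s1 t 15 15 1 = true :=
  ⟨(b (a (a (b (a (c (l 539283983) (l 538958095)) (c (a (l 539015183) (l 539016463)) (l 538954511))) (c (b (a (l 539044623) (l 540121615)) (a (a (l 16813648) (l 16809856)) (l 540408591))) (a (b (l 16805008) (l 16810760)) (l 538988047)))) (b (c (a (c (l 540683279) (l 538987535)) (a (l 539019023) (l 540361743))) (a (l 538951183) (l 539753743))) (a (c (a (l 539053839) (l 539054095)) (l 538983183)) (a (a (l 539793935) (l 540061199)) (a (l 540059919) (l 540327183)))))) (b (l 3) (l 14))) (a (a (b (c (b (a (b (a (l 16818256) (l 16814424)) (l 16819560)) (a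 (b (l 16810552) (l 16813648)) (b (l 16806664) (a (l 16810696) (l 16808736))))) (c (l 16821720) (l 16819752))) (a (b (b (l 16815088) (l 16817752)) (l 16821728)) (b (a (l 16831856) (l 16828072)) (l 16814464)))) (a (b (l 16829056) (l 16835648)) (a (b (l 16823416) (l 14)) (l 14)))) (b (a (b (a (b (l 539014415) (c (l 16805760) (l 16804760))) (l 539821583)) (l 14)) (l 14)) (l 14))) (l 14))), by decide +kernel⟩

theorem t7_B00pm_102_s1 : ∃ t, chk3 f_B00pm_102_s1 t 7 15 1 = true := ex3_a k5_B00pm_102_s1 k6_B00pm_102_s1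

theorem t8_B00pm_102_s1 : ∃ t, chk3 f_B00pm_102_s1 t 7 7 1 = true := ex3_b k4_B00pm_102_s1 t7_B00pm_102_s1

theorem t9_B00pm_102_s1 : ∃ t, chk3 f_B00pm_102_s1 t 3 7 1 = true := ex3_a k3_B00pm_102_s1 t8_B00pm_102_s1

theorem t10_B00pm_102_s1 : ∃ t, chk3 f_B00pm_102_s1 t 3 3 1 = true := ex3_b k2_B00pm_102_s1 t9_B00pm_102_s1

theorem t11_B00pm_102_s1 : ∃ t, chk3 f_B00pm_102_s1 t 3 1 1 = true := ex3_b k1_B00pm_102_s1 t10_B00pm_102_s1

theorem t12_B00pm_102_s1 : ∃ t, chk3 f_B00pm_102_s1 t 1 1 1 = true := ex3_a k0_B00pm_102_s1 t11_B00pm_102_s1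

theorem c_B00pm_102_s1 : CertF 536870912 536870912 0 536870912 469762048 67108864 false true false .npp 1 0 2
    ndF0q1 ndF0q2 pcF0 cut_B00pm_102_s1 xt_B00pm_102_s1 :=
  certF0 (fam := false) (s1 := true) (s2 := false) (a := 1) (b := 0) (c := 2) (cn := .npp) (n1 := ndF0q1) (n2 := ndF0q2) (pc := pcF0) (cut := cut_B00pm_102_s1) (xt := xt_B00pm_102_s1) (P1 := 536870912) (W1 := 536870912) (P2 := 0) (W2 := 536870912) (P3 := 469762048) (W3 := 67108864)
    rfl t12_B00pm_102_s1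

theorem s_B00pm_102_s1 {κ x : ℝ} (hκ : κ * h0 = ken x) (hx : ((469762048 : ℕ) : ℝ) / S ≤ x)
    (hx' : x ≤ (((469762048 : ℕ) : ℝ) + (67108864 : ℕ)) / S)
    (H : CutB (VF κ) PP tKF tL pcF (Cut.of [[⟨0, 1, 0, 67108864⟩, ⟨1, 0, 0, 67108864⟩, ⟨2, 1, 0, 67108864⟩], [⟨0, 0, 1, 33554432⟩, ⟨1, 1, 2, 33554432⟩, ⟨2, 1, 0, 33554432⟩]]) 1 0 2 0 0 (sgb true) (sgb false) x) :
    AltB (VF κ) PP tKF tL pcF [⟨3, 0, 0, 1449551462⟩] 1 0 2 0 0 (sgb true) (sgb false) x :=
  strip_altB (m := 1449551462) true rfl hκ covF01 covF02 hx hx' c_B00pm_102_s1 H ((okx hx hx').extB (T := tt) (sideF hx hx') hκ rfl rfl (.O 1 true) (.O 2 false) (Or.inl rfl))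

noncomputable def cut_B00pm_102_s3 : Cut := Cut.of [[⟨3, 0, 0, 2845415833⟩], [⟨0, 1, 0, 67108864⟩, ⟨1, 0, 0, 67108864⟩, ⟨2, 1, 0, 67108864⟩], [⟨0, 0, 1, 33554432⟩, ⟨1, 1, 2, 33554432⟩, ⟨2, 1, 0, 33554432⟩]]

noncomputable def f_B00pm_102_s3 : ℕ → ℕ → ℕ → ℕ → Bool := onCell 536870912 536870912 0 536870912 469762048 67108864
    (rowF 0 false true false .npp 1 0 2 (qsf 536870912 536870912 0 536870912 0) ndF0q1 ndF0q2 pcF0 cut_B00pm_102_s3 Ext.none)

def k0_B00pm_102_s3 : ∃ t, chk3 f_B00pm_102_s3 t 1 1 1 = true :=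
  ⟨(l 6), by decide +kernel⟩

theorem c_B00pm_102_s3 : CertF 536870912 536870912 0 536870912 469762048 67108864 false true false .npp 1 0 2
    ndF0q1 ndF0q2 pcF0 cut_B00pm_102_s3 Ext.none :=
  certF0 (fam := false) (s1 := true) (s2 := false) (a := 1) (b := 0) (c := 2) (cn := .npp) (n1 := ndF0q1) (n2 := ndF0q2) (pc := pcF0) (cut := cut_B00pm_102_s3) (xt := Ext.none) (P1 := 536870912) (W1 := 536870912) (P2 := 0) (W2 := 536870912) (P3 := 469762048) (W3 := 67108864)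
    rfl k0_B00pm_102_s3

theorem s_B00pm_102_s3 {κ x : ℝ} (hκ : κ * h0 = ken x) (hx : ((469762048 : ℕ) : ℝ) / S ≤ x)
    (hx' : x ≤ (((469762048 : ℕ) : ℝ) + (67108864 : ℕ)) / S)
    (H : CutB (VF κ) PP tKF tL pcF (Cut.of [[⟨0, 1, 0, 67108864⟩, ⟨1, 0, 0, 67108864⟩, ⟨2, 1, 0, 67108864⟩], [⟨0, 0, 1, 33554432⟩, ⟨1, 1, 2, 33554432⟩, ⟨2, 1, 0, 33554432⟩]]) 1 0 2 0 0 (sgb true) (sgb false) x) :
    AltB (VF κ) PP tKF tL pcF [⟨4, 0, 0, 2845415833⟩] 1 0 2 0 0 (sgb true) (sgb false) x :=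
  strip_altB (m := 2845415833) false rfl hκ covF01 covF02 hx hx' c_B00pm_102_s3 H (noExt_B)

noncomputable def cut_B00pm_112_s1 : Cut := Cut.of [[⟨4, 0, 0, 1449551462⟩], [⟨0, 0, 1, 33554432⟩, ⟨1, 1, 2, 33554432⟩, ⟨2, 1, 0, 33554432⟩]]

noncomputable def xt_B00pm_112_s1 : Ext := strExt dd false true false .u0 .u2 .u0m .dn 1 1 2 rfl rfl gf1 vv ndF0q1 ndF0q2

noncomputable def f_B00pm_112_s1 : ℕ → ℕ → ℕ → ℕ → Bool := onCell 536870912 536870912 0 536870912 469762048 67108864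
    (rowF 2 false true false .dn 1 1 2 (qsf 536870912 536870912 0 536870912 1) ndF0q1 ndF0q2 pcF1 cut_B00pm_112_s1 xt_B00pm_112_s1)

def k0_B00pm_112_s1 : ∃ t, chk3 f_B00pm_112_s1 t 1 1 1 = true :=
  ⟨(a (b (a (b (a (b (a (b (l 3) (l 537210383)) (b (a (l 537456399) (l 537485839)) (a (l 537545999) (b (l 537559055) (l 16773968))))) (a (b (l 537571087) (l 537663503)) (a (l 537426959) (b (l 16791456) (l 16803040))))) (b (a (b (l 537494287) (a (l 537602063) (l 16789408))) (b (a (l 537429519) (l 16784920)) (l 537482511))) (a (a (l 16760312) (l 16806016)) (a (l 16806928) (l 16806728))))) (a (b (a (b (l 537756431) (l 16772584)) (a (l 16818792) (l 16826568))) (a (a (l 16835648) (l 16846408)) (l 16863592))) (b (a (l 16835560) (l 16834480)) (b (l 6) (l 6))))) (a (a (b (b (b (l 537199375) (l 16791184)) (l 16804808)) (b (l 16829800) (l 6))) (b (b (l 1) (l 1)) (l 1))) (l 1))) (a (b (l 6) (l 6)) (l 6))) (l 1)), by decide +kernel⟩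

theorem c_B00pm_112_s1 : CertF 536870912 536870912 0 536870912 469762048 67108864 false true false .dn 1 1 2
    ndF0q1 ndF0q2 pcF1 cut_B00pm_112_s1 xt_B00pm_112_s1 :=
  certF2 (fam := false) (s1 := true) (s2 := false) (a := 1) (b := 1) (c := 2) (cn := .dn) (n1 := ndF0q1) (n2 := ndF0q2) (pc := pcF1) (cut := cut_B00pm_112_s1) (xt := xt_B00pm_112_s1) (P1 := 536870912) (W1 := 536870912) (P2 := 0) (W2 := 536870912) (P3 := 469762048) (W3 := 67108864)
    rfl (fun _ => rfl) k0_B00pm_112_s1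

theorem s_B00pm_112_s1 {κ x : ℝ} (hκ : κ * h0 = ken x) (hx : ((469762048 : ℕ) : ℝ) / S ≤ x)
    (hx' : x ≤ (((469762048 : ℕ) : ℝ) + (67108864 : ℕ)) / S)
    (H : CutB (VF κ) PP tKF tL pcF (Cut.of [[⟨0, 0, 1, 33554432⟩, ⟨1, 1, 2, 33554432⟩, ⟨2, 1, 0, 33554432⟩]]) 1 1 2 0 0 (sgb true) (sgb false) x) :
    AltB (VF κ) PP tKF tL pcF [⟨3, 0, 0, 1449551462⟩] 1 1 2 0 0 (sgb true) (sgb false) x :=
  strip_altB (m := 1449551462) true rfl hκ covF01 covF02 hx hx' c_B00pm_112_s1 H ((okx hx hx').extB (T := tt) (sideF hx hx') hκ rfl rfl (.O 1 true) (.O 2 false) (Or.inr rfl))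

noncomputable def cut_B00pm_112_s3 : Cut := Cut.of [[⟨3, 0, 0, 2845415833⟩], [⟨0, 0, 1, 33554432⟩, ⟨1, 1, 2, 33554432⟩, ⟨2, 1, 0, 33554432⟩]]

noncomputable def f_B00pm_112_s3 : ℕ → ℕ → ℕ → ℕ → Bool := onCell 536870912 536870912 0 536870912 469762048 67108864
    (rowF 0 false true false .dn 1 1 2 (qsf 536870912 536870912 0 536870912 1) ndF0q1 ndF0q2 pcF1 cut_B00pm_112_s3 Ext.none)

def k0_B00pm_112_s3 : ∃ t, chk3 f_B00pm_112_s3 t 1 1 1 = true :=
  ⟨(l 6), by decide +kernel⟩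

theorem c_B00pm_112_s3 : CertF 536870912 536870912 0 536870912 469762048 67108864 false true false .dn 1 1 2
    ndF0q1 ndF0q2 pcF1 cut_B00pm_112_s3 Ext.none :=
  certF0 (fam := false) (s1 := true) (s2 := false) (a := 1) (b := 1) (c := 2) (cn := .dn) (n1 := ndF0q1) (n2 := ndF0q2) (pc := pcF1) (cut := cut_B00pm_112_s3) (xt := Ext.none) (P1 := 536870912) (W1 := 536870912) (P2 := 0) (W2 := 536870912) (P3 := 469762048) (W3 := 67108864)
    rfl k0_B00pm_112_s3

theorem s_B00pm_112_s3 {κ x : ℝ} (hκ : κ * h0 = ken x) (hx : ((469762048 : ℕ) : ℝ) / S ≤ x)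
    (hx' : x ≤ (((469762048 : ℕ) : ℝ) + (67108864 : ℕ)) / S)
    (H : CutB (VF κ) PP tKF tL pcF (Cut.of [[⟨0, 0, 1, 33554432⟩, ⟨1, 1, 2, 33554432⟩, ⟨2, 1, 0, 33554432⟩]]) 1 1 2 0 0 (sgb true) (sgb false) x) :
    AltB (VF κ) PP tKF tL pcF [⟨4, 0, 0, 2845415833⟩] 1 1 2 0 0 (sgb true) (sgb false) x :=
  strip_altB (m := 2845415833) false rfl hκ covF01 covF02 hx hx' c_B00pm_112_s3 H (noExt_B)

noncomputable def cut_B00pm_202_s1 : Cut := Cut.of [[⟨4, 0, 0, 1449551462⟩], [⟨0, 1, 0, 67108864⟩, ⟨1, 0, 0, 67108864⟩, ⟨2, 1, 0, 67108864⟩]]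

noncomputable def f_B00pm_202_s1 : ℕ → ℕ → ℕ → ℕ → Bool := onCell 0 536870912 0 536870912 469762048 67108864
    (rowF 0 false true false .pp 2 0 2 (qsf 0 536870912 0 536870912 0) ndF0q2 ndF0q2 pcF0 cut_B00pm_202_s1 Ext.none)

def k0_B00pm_202_s1 : ∃ t, chk3 f_B00pm_202_s1 t 1 1 1 = true :=
  ⟨(a (l 3) (b (l 3) (b (l 3) (a (l 3) (b (l 3) (a (l 3) (l 14))))))), by decide +kernel⟩

theorem c_B00pm_202_s1 : CertF 0 536870912 0 536870912 469762048 67108864 false true false .pp 2 0 2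
    ndF0q2 ndF0q2 pcF0 cut_B00pm_202_s1 Ext.none :=
  certF0 (fam := false) (s1 := true) (s2 := false) (a := 2) (b := 0) (c := 2) (cn := .pp) (n1 := ndF0q2) (n2 := ndF0q2) (pc := pcF0) (cut := cut_B00pm_202_s1) (xt := Ext.none) (P1 := 0) (W1 := 536870912) (P2 := 0) (W2 := 536870912) (P3 := 469762048) (W3 := 67108864)
    rfl k0_B00pm_202_s1

theorem s_B00pm_202_s1 {κ x : ℝ} (hκ : κ * h0 = ken x) (hx : ((469762048 : ℕ) : ℝ) / S ≤ x)
    (hx' : x ≤ (((469762048 : ℕ) : ℝ) + (67108864 : ℕ)) / S)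
    (H : CutB (VF κ) PP tKF tL pcF (Cut.of [[⟨0, 1, 0, 67108864⟩, ⟨1, 0, 0, 67108864⟩, ⟨2, 1, 0, 67108864⟩]]) 2 0 2 0 0 (sgb true) (sgb false) x) :
    AltB (VF κ) PP tKF tL pcF [⟨3, 0, 0, 1449551462⟩] 2 0 2 0 0 (sgb true) (sgb false) x :=
  strip_altB (m := 1449551462) true rfl hκ covF02 covF02 hx hx' c_B00pm_202_s1 H (noExt_B)

noncomputable def cut_B00pm_202_s3 : Cut := Cut.of [[⟨3, 0, 0, 2845415833⟩], [⟨0, 1, 0, 67108864⟩, ⟨1, 0, 0, 67108864⟩, ⟨2, 1, 0, 67108864⟩]]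

noncomputable def f_B00pm_202_s3 : ℕ → ℕ → ℕ → ℕ → Bool := onCell 0 536870912 0 536870912 469762048 67108864
    (rowF 0 false true false .pp 2 0 2 (qsf 0 536870912 0 536870912 0) ndF0q2 ndF0q2 pcF0 cut_B00pm_202_s3 Ext.none)

def k0_B00pm_202_s3 : ∃ t, chk3 f_B00pm_202_s3 t 1 1 1 = true :=
  ⟨(l 6), by decide +kernel⟩

theorem c_B00pm_202_s3 : CertF 0 536870912 0 536870912 469762048 67108864 false true false .pp 2 0 2
    ndF0q2 ndF0q2 pcF0 cut_B00pm_202_s3 Ext.none :=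
  certF0 (fam := false) (s1 := true) (s2 := false) (a := 2) (b := 0) (c := 2) (cn := .pp) (n1 := ndF0q2) (n2 := ndF0q2) (pc := pcF0) (cut := cut_B00pm_202_s3) (xt := Ext.none) (P1 := 0) (W1 := 536870912) (P2 := 0) (W2 := 536870912) (P3 := 469762048) (W3 := 67108864)
    rfl k0_B00pm_202_s3

theorem s_B00pm_202_s3 {κ x : ℝ} (hκ : κ * h0 = ken x) (hx : ((469762048 : ℕ) : ℝ) / S ≤ x)
    (hx' : x ≤ (((469762048 : ℕ) : ℝ) + (67108864 : ℕ)) / S)
    (H : CutB (VF κ) PP tKF tL pcF (Cut.of [[⟨0, 1, 0, 67108864⟩, ⟨1, 0, 0, 67108864⟩, ⟨2, 1, 0, 67108864⟩]]) 2 0 2 0 0 (sgb true) (sgb false) x) :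
    AltB (VF κ) PP tKF tL pcF [⟨4, 0, 0, 2845415833⟩] 2 0 2 0 0 (sgb true) (sgb false) x :=
  strip_altB (m := 2845415833) false rfl hκ covF02 covF02 hx hx' c_B00pm_202_s3 H (noExt_B)

noncomputable def cut_B00mm_001_s1 : Cut := Cut.of [[⟨4, 0, 0, 1449551462⟩]]

noncomputable def f_B00mm_001_s1 : ℕ → ℕ → ℕ → ℕ → Bool := onCell 0 536870912 0 536870912 469762048 67108864
    (rowF 1 false false false .up 0 0 1 (qsf 0 536870912 536870912 536870912 0) ndF0q0 ndF0q1 pcF0 cut_B00mm_001_s1 Ext.none)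

def k0_B00mm_001_s1 : ∃ t, chk3 f_B00mm_001_s1 t 1 1 1 = true :=
  ⟨(l 3), by decide +kernel⟩

theorem c_B00mm_001_s1 : CertF 0 536870912 536870912 536870912 469762048 67108864 false false false .up 0 0 1
    ndF0q0 ndF0q1 pcF0 cut_B00mm_001_s1 Ext.none :=
  certF1 (fam := false) (s1 := false) (s2 := false) (a := 0) (b := 0) (c := 1) (cn := .up) (n1 := ndF0q0) (n2 := ndF0q1) (pc := pcF0) (cut := cut_B00mm_001_s1) (xt := Ext.none) (P1 := 0) (W1 := 536870912) (P2 := 536870912) (W2 := 536870912) (P3 := 469762048) (W3 := 67108864)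
    rfl (fun _ => rfl) k0_B00mm_001_s1

theorem s_B00mm_001_s1 {κ x : ℝ} (hκ : κ * h0 = ken x) (hx : ((469762048 : ℕ) : ℝ) / S ≤ x)
    (hx' : x ≤ (((469762048 : ℕ) : ℝ) + (67108864 : ℕ)) / S) :
    AltB (VF κ) PP tKF tL pcF [⟨3, 0, 0, 1449551462⟩] 0 0 1 0 0 (sgb false) (sgb false) x :=
  strip_altB (m := 1449551462) true rfl hκ covF00 covF01 hx hx' c_B00mm_001_s1 cutB_nil (noExt_B)

noncomputable def cut_B00mm_001_s3 : Cut := Cut.of [[⟨3, 0, 0, 2845415833⟩]]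

noncomputable def f_B00mm_001_s3 : ℕ → ℕ → ℕ → ℕ → Bool := onCell 0 536870912 536870912 536870912 469762048 67108864
    (rowF 0 false false false .up 0 0 1 (qsf 0 536870912 536870912 536870912 0) ndF0q0 ndF0q1 pcF0 cut_B00mm_001_s3 Ext.none)

def k0_B00mm_001_s3 : ∃ t, chk3 f_B00mm_001_s3 t 1 1 1 = true :=
  ⟨(l 6), by decide +kernel⟩

theorem c_B00mm_001_s3 : CertF 0 536870912 536870912 536870912 469762048 67108864 false false false .up 0 0 1
    ndF0q0 ndF0q1 pcF0 cut_B00mm_001_s3 Ext.none :=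
  certF0 (fam := false) (s1 := false) (s2 := false) (a := 0) (b := 0) (c := 1) (cn := .up) (n1 := ndF0q0) (n2 := ndF0q1) (pc := pcF0) (cut := cut_B00mm_001_s3) (xt := Ext.none) (P1 := 0) (W1 := 536870912) (P2 := 536870912) (W2 := 536870912) (P3 := 469762048) (W3 := 67108864)
    rfl k0_B00mm_001_s3

theorem s_B00mm_001_s3 {κ x : ℝ} (hκ : κ * h0 = ken x) (hx : ((469762048 : ℕ) : ℝ) / S ≤ x)
    (hx' : x ≤ (((469762048 : ℕ) : ℝ) + (67108864 : ℕ)) / S) :
    AltB (VF κ) PP tKF tL pcF [⟨4, 0, 0, 2845415833⟩] 0 0 1 0 0 (sgb false) (sgb false) x :=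
  strip_altB (m := 2845415833) false rfl hκ covF00 covF01 hx hx' c_B00mm_001_s3 cutB_nil (noExt_B)

noncomputable def cut_B00mm_011_s1 : Cut := Cut.of [[⟨4, 0, 0, 1449551462⟩]]

noncomputable def f_B00mm_011_s1 : ℕ → ℕ → ℕ → ℕ → Bool := onCell 0 536870912 536870912 536870912 469762048 67108864
    (rowF 1 false false false .pnn 0 1 1 (qsf 0 536870912 536870912 536870912 1) ndF0q0 ndF0q1 pcF1 cut_B00mm_011_s1 Ext.none)

def k0_B00mm_011_s1 : ∃ t, chk3 f_B00mm_011_s1 t 1 1 1 = true :=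
  ⟨(l 5), by decide +kernel⟩

theorem c_B00mm_011_s1 : CertF 0 536870912 536870912 536870912 469762048 67108864 false false false .pnn 0 1 1
    ndF0q0 ndF0q1 pcF1 cut_B00mm_011_s1 Ext.none :=
  certF1 (fam := false) (s1 := false) (s2 := false) (a := 0) (b := 1) (c := 1) (cn := .pnn) (n1 := ndF0q0) (n2 := ndF0q1) (pc := pcF1) (cut := cut_B00mm_011_s1) (xt := Ext.none) (P1 := 0) (W1 := 536870912) (P2 := 536870912) (W2 := 536870912) (P3 := 469762048) (W3 := 67108864)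
    rfl (fun _ => rfl) k0_B00mm_011_s1

theorem s_B00mm_011_s1 {κ x : ℝ} (hκ : κ * h0 = ken x) (hx : ((469762048 : ℕ) : ℝ) / S ≤ x)
    (hx' : x ≤ (((469762048 : ℕ) : ℝ) + (67108864 : ℕ)) / S) :
    AltB (VF κ) PP tKF tL pcF [⟨3, 0, 0, 1449551462⟩] 0 1 1 0 0 (sgb false) (sgb false) x :=
  strip_altB (m := 1449551462) true rfl hκ covF00 covF01 hx hx' c_B00mm_011_s1 cutB_nil (noExt_B)

noncomputable def cut_B00mm_011_s3 : Cut := Cut.of [[⟨3, 0, 0, 2845415833⟩]]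

noncomputable def f_B00mm_011_s3 : ℕ → ℕ → ℕ → ℕ → Bool := onCell 0 536870912 536870912 536870912 469762048 67108864
    (rowF 0 false false false .pnn 0 1 1 (qsf 0 536870912 536870912 536870912 1) ndF0q0 ndF0q1 pcF1 cut_B00mm_011_s3 Ext.none)

def k0_B00mm_011_s3 : ∃ t, chk3 f_B00mm_011_s3 t 1 1 1 = true :=
  ⟨(l 6), by decide +kernel⟩

theorem c_B00mm_011_s3 : CertF 0 536870912 536870912 536870912 469762048 67108864 false false false .pnn 0 1 1
    ndF0q0 ndF0q1 pcF1 cut_B00mm_011_s3 Ext.none :=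
  certF0 (fam := false) (s1 := false) (s2 := false) (a := 0) (b := 1) (c := 1) (cn := .pnn) (n1 := ndF0q0) (n2 := ndF0q1) (pc := pcF1) (cut := cut_B00mm_011_s3) (xt := Ext.none) (P1 := 0) (W1 := 536870912) (P2 := 536870912) (W2 := 536870912) (P3 := 469762048) (W3 := 67108864)
    rfl k0_B00mm_011_s3

theorem s_B00mm_011_s3 {κ x : ℝ} (hκ : κ * h0 = ken x) (hx : ((469762048 : ℕ) : ℝ) / S ≤ x)
    (hx' : x ≤ (((469762048 : ℕ) : ℝ) + (67108864 : ℕ)) / S) :
    AltB (VF κ) PP tKF tL pcF [⟨4, 0, 0, 2845415833⟩] 0 1 1 0 0 (sgb false) (sgb false) x :=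
  strip_altB (m := 2845415833) false rfl hκ covF00 covF01 hx hx' c_B00mm_011_s3 cutB_nil (noExt_B)

noncomputable def cut_B00mm_012_s1 : Cut := Cut.of [[⟨4, 0, 0, 1449551462⟩]]

noncomputable def f_B00mm_012_s1 : ℕ → ℕ → ℕ → ℕ → Bool := onCell 0 536870912 0 536870912 469762048 67108864
    (rowF 0 false false false .pnp 0 1 2 (qsf 0 536870912 0 536870912 1) ndF0q0 ndF0q2 pcF1 cut_B00mm_012_s1 Ext.none)

def k0_B00mm_012_s1 : ∃ t, chk3 f_B00mm_012_s1 t 1 1 1 = true :=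
  ⟨(l 5), by decide +kernel⟩

theorem c_B00mm_012_s1 : CertF 0 536870912 0 536870912 469762048 67108864 false false false .pnp 0 1 2
    ndF0q0 ndF0q2 pcF1 cut_B00mm_012_s1 Ext.none :=
  certF0 (fam := false) (s1 := false) (s2 := false) (a := 0) (b := 1) (c := 2) (cn := .pnp) (n1 := ndF0q0) (n2 := ndF0q2) (pc := pcF1) (cut := cut_B00mm_012_s1) (xt := Ext.none) (P1 := 0) (W1 := 536870912) (P2 := 0) (W2 := 536870912) (P3 := 469762048) (W3 := 67108864)
    rfl k0_B00mm_012_s1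

theorem s_B00mm_012_s1 {κ x : ℝ} (hκ : κ * h0 = ken x) (hx : ((469762048 : ℕ) : ℝ) / S ≤ x)
    (hx' : x ≤ (((469762048 : ℕ) : ℝ) + (67108864 : ℕ)) / S) :
    AltB (VF κ) PP tKF tL pcF [⟨3, 0, 0, 1449551462⟩] 0 1 2 0 0 (sgb false) (sgb false) x :=
  strip_altB (m := 1449551462) true rfl hκ covF00 covF02 hx hx' c_B00mm_012_s1 cutB_nil (noExt_B)

noncomputable def cut_B00mm_012_s3 : Cut := Cut.of [[⟨3, 0, 0, 2845415833⟩]]

noncomputable def f_B00mm_012_s3 : ℕ → ℕ → ℕ → ℕ → Bool := onCell 0 536870912 0 536870912 469762048 67108864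
    (rowF 0 false false false .pnp 0 1 2 (qsf 0 536870912 0 536870912 1) ndF0q0 ndF0q2 pcF1 cut_B00mm_012_s3 Ext.none)

def k0_B00mm_012_s3 : ∃ t, chk3 f_B00mm_012_s3 t 1 1 1 = true :=
  ⟨(l 5), by decide +kernel⟩

theorem c_B00mm_012_s3 : CertF 0 536870912 0 536870912 469762048 67108864 false false false .pnp 0 1 2
    ndF0q0 ndF0q2 pcF1 cut_B00mm_012_s3 Ext.none :=
  certF0 (fam := false) (s1 := false) (s2 := false) (a := 0) (b := 1) (c := 2) (cn := .pnp) (n1 := ndF0q0) (n2 := ndF0q2) (pc := pcF1) (cut := cut_B00mm_012_s3) (xt := Ext.none) (P1 := 0) (W1 := 536870912) (P2 := 0) (W2 := 536870912) (P3 := 469762048) (W3 := 67108864)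
    rfl k0_B00mm_012_s3

theorem s_B00mm_012_s3 {κ x : ℝ} (hκ : κ * h0 = ken x) (hx : ((469762048 : ℕ) : ℝ) / S ≤ x)
    (hx' : x ≤ (((469762048 : ℕ) : ℝ) + (67108864 : ℕ)) / S) :
    AltB (VF κ) PP tKF tL pcF [⟨4, 0, 0, 2845415833⟩] 0 1 2 0 0 (sgb false) (sgb false) x :=
  strip_altB (m := 2845415833) false rfl hκ covF00 covF02 hx hx' c_B00mm_012_s3 cutB_nil (noExt_B)

noncomputable def cut_B00mm_022_s1 : Cut := Cut.of [[⟨4, 0, 0, 1449551462⟩]]

noncomputable def f_B00mm_022_s1 : ℕ → ℕ → ℕ → ℕ → Bool := onCell 0 536870912 0 536870912 469762048 67108864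
    (rowF 0 false false false .pp 0 2 2 (qsf 0 536870912 0 536870912 2) ndF0q0 ndF0q2 pcF2 cut_B00mm_022_s1 Ext.none)

def k0_B00mm_022_s1 : ∃ t, chk3 f_B00mm_022_s1 t 1 1 1 = true :=
  ⟨(l 5), by decide +kernel⟩

theorem c_B00mm_022_s1 : CertF 0 536870912 0 536870912 469762048 67108864 false false false .pp 0 2 2
    ndF0q0 ndF0q2 pcF2 cut_B00mm_022_s1 Ext.none :=
  certF0 (fam := false) (s1 := false) (s2 := false) (a := 0) (b := 2) (c := 2) (cn := .pp) (n1 := ndF0q0) (n2 := ndF0q2) (pc := pcF2) (cut := cut_B00mm_022_s1) (xt := Ext.none) (P1 := 0) (W1 := 536870912) (P2 := 0) (W2 := 536870912) (P3 := 469762048) (W3 := 67108864)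
    rfl k0_B00mm_022_s1

theorem s_B00mm_022_s1 {κ x : ℝ} (hκ : κ * h0 = ken x) (hx : ((469762048 : ℕ) : ℝ) / S ≤ x)
    (hx' : x ≤ (((469762048 : ℕ) : ℝ) + (67108864 : ℕ)) / S) :
    AltB (VF κ) PP tKF tL pcF [⟨3, 0, 0, 1449551462⟩] 0 2 2 0 0 (sgb false) (sgb false) x :=
  strip_altB (m := 1449551462) true rfl hκ covF00 covF02 hx hx' c_B00mm_022_s1 cutB_nil (noExt_B)

noncomputable def cut_B00mm_022_s3 : Cut := Cut.of [[⟨3, 0, 0, 2845415833⟩]]

noncomputable def f_B00mm_022_s3 : ℕ → ℕ → ℕ → ℕ → Bool := onCell 0 536870912 0 536870912 469762048 67108864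
    (rowF 0 false false false .pp 0 2 2 (qsf 0 536870912 0 536870912 2) ndF0q0 ndF0q2 pcF2 cut_B00mm_022_s3 Ext.none)

def k0_B00mm_022_s3 : ∃ t, chk3 f_B00mm_022_s3 t 1 1 1 = true :=
  ⟨(l 5), by decide +kernel⟩

theorem c_B00mm_022_s3 : CertF 0 536870912 0 536870912 469762048 67108864 false false false .pp 0 2 2
    ndF0q0 ndF0q2 pcF2 cut_B00mm_022_s3 Ext.none :=
  certF0 (fam := false) (s1 := false) (s2 := false) (a := 0) (b := 2) (c := 2) (cn := .pp) (n1 := ndF0q0) (n2 := ndF0q2) (pc := pcF2) (cut := cut_B00mm_022_s3) (xt := Ext.none) (P1 := 0) (W1 := 536870912) (P2 := 0) (W2 := 536870912) (P3 := 469762048) (W3 := 67108864)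
    rfl k0_B00mm_022_s3

theorem s_B00mm_022_s3 {κ x : ℝ} (hκ : κ * h0 = ken x) (hx : ((469762048 : ℕ) : ℝ) / S ≤ x)
    (hx' : x ≤ (((469762048 : ℕ) : ℝ) + (67108864 : ℕ)) / S) :
    AltB (VF κ) PP tKF tL pcF [⟨4, 0, 0, 2845415833⟩] 0 2 2 0 0 (sgb false) (sgb false) x :=
  strip_altB (m := 2845415833) false rfl hκ covF00 covF02 hx hx' c_B00mm_022_s3 cutB_nil (noExt_B)

noncomputable def cut_B00mm_101_s1 : Cut := Cut.of [[⟨4, 0, 0, 1449551462⟩]]

noncomputable def f_B00mm_101_s1 : ℕ → ℕ → ℕ → ℕ → Bool := onCell 536870912 536870912 536870912 536870912 469762048 67108864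
    (rowF 0 false false false .npn 1 0 1 (qsf 536870912 536870912 536870912 536870912 0) ndF0q1 ndF0q1 pcF0 cut_B00mm_101_s1 Ext.none)

def k0_B00mm_101_s1 : ∃ t, chk3 f_B00mm_101_s1 t 1 1 1 = true :=
  ⟨(l 3), by decide +kernel⟩

theorem c_B00mm_101_s1 : CertF 536870912 536870912 536870912 536870912 469762048 67108864 false false false .npn 1 0 1
    ndF0q1 ndF0q1 pcF0 cut_B00mm_101_s1 Ext.none :=
  certF0 (fam := false) (s1 := false) (s2 := false) (a := 1) (b := 0) (c := 1) (cn := .npn) (n1 := ndF0q1) (n2 := ndF0q1) (pc := pcF0) (cut := cut_B00mm_101_s1) (xt := Ext.none) (P1 := 536870912) (W1 := 536870912) (P2 := 536870912) (W2 := 536870912) (P3 := 469762048) (W3 := 67108864)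
    rfl k0_B00mm_101_s1

theorem s_B00mm_101_s1 {κ x : ℝ} (hκ : κ * h0 = ken x) (hx : ((469762048 : ℕ) : ℝ) / S ≤ x)
    (hx' : x ≤ (((469762048 : ℕ) : ℝ) + (67108864 : ℕ)) / S) :
    AltB (VF κ) PP tKF tL pcF [⟨3, 0, 0, 1449551462⟩] 1 0 1 0 0 (sgb false) (sgb false) x :=
  strip_altB (m := 1449551462) true rfl hκ covF01 covF01 hx hx' c_B00mm_101_s1 cutB_nil (noExt_B)

noncomputable def cut_B00mm_101_s3 : Cut := Cut.of [[⟨3, 0, 0, 2845415833⟩]]

noncomputable def f_B00mm_101_s3 : ℕ → ℕ → ℕ → ℕ → Bool := onCell 536870912 536870912 536870912 536870912 469762048 67108864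
    (rowF 0 false false false .npn 1 0 1 (qsf 536870912 536870912 536870912 536870912 0) ndF0q1 ndF0q1 pcF0 cut_B00mm_101_s3 Ext.none)

def k0_B00mm_101_s3 : ∃ t, chk3 f_B00mm_101_s3 t 1 1 1 = true :=
  ⟨(l 3), by decide +kernel⟩

theorem c_B00mm_101_s3 : CertF 536870912 536870912 536870912 536870912 469762048 67108864 false false false .npn 1 0 1
    ndF0q1 ndF0q1 pcF0 cut_B00mm_101_s3 Ext.none :=
  certF0 (fam := false) (s1 := false) (s2 := false) (a := 1) (b := 0) (c := 1) (cn := .npn) (n1 := ndF0q1) (n2 := ndF0q1) (pc := pcF0) (cut := cut_B00mm_101_s3) (xt := Ext.none) (P1 := 536870912) (W1 := 536870912) (P2 := 536870912) (W2 := 536870912) (P3 := 469762048) (W3 := 67108864)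
    rfl k0_B00mm_101_s3

theorem s_B00mm_101_s3 {κ x : ℝ} (hκ : κ * h0 = ken x) (hx : ((469762048 : ℕ) : ℝ) / S ≤ x)
    (hx' : x ≤ (((469762048 : ℕ) : ℝ) + (67108864 : ℕ)) / S) :
    AltB (VF κ) PP tKF tL pcF [⟨4, 0, 0, 2845415833⟩] 1 0 1 0 0 (sgb false) (sgb false) x :=
  strip_altB (m := 2845415833) false rfl hκ covF01 covF01 hx hx' c_B00mm_101_s3 cutB_nil (noExt_B)

noncomputable def cut_B00mm_102_s1 : Cut := Cut.of [[⟨4, 0, 0, 1449551462⟩]]

noncomputable def f_B00mm_102_s1 : ℕ → ℕ → ℕ → ℕ → Bool := onCell 536870912 536870912 0 536870912 469762048 67108864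
    (rowF 0 false false false .npp 1 0 2 (qsf 536870912 536870912 0 536870912 0) ndF0q1 ndF0q2 pcF0 cut_B00mm_102_s1 Ext.none)

def k0_B00mm_102_s1 : ∃ t, chk3 f_B00mm_102_s1 t 1 1 1 = true :=
  ⟨(a (l 5) (l 3)), by decide +kernel⟩

theorem c_B00mm_102_s1 : CertF 536870912 536870912 0 536870912 469762048 67108864 false false false .npp 1 0 2
    ndF0q1 ndF0q2 pcF0 cut_B00mm_102_s1 Ext.none :=
  certF0 (fam := false) (s1 := false) (s2 := false) (a := 1) (b := 0) (c := 2) (cn := .npp) (n1 := ndF0q1) (n2 := ndF0q2) (pc := pcF0) (cut := cut_B00mm_102_s1) (xt := Ext.none) (P1 := 536870912) (W1 := 536870912) (P2 := 0) (W2 := 536870912) (P3 := 469762048) (W3 := 67108864)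
    rfl k0_B00mm_102_s1

theorem s_B00mm_102_s1 {κ x : ℝ} (hκ : κ * h0 = ken x) (hx : ((469762048 : ℕ) : ℝ) / S ≤ x)
    (hx' : x ≤ (((469762048 : ℕ) : ℝ) + (67108864 : ℕ)) / S) :
    AltB (VF κ) PP tKF tL pcF [⟨3, 0, 0, 1449551462⟩] 1 0 2 0 0 (sgb false) (sgb false) x :=
  strip_altB (m := 1449551462) true rfl hκ covF01 covF02 hx hx' c_B00mm_102_s1 cutB_nil (noExt_B)

noncomputable def cut_B00mm_102_s3 : Cut := Cut.of [[⟨3, 0, 0, 2845415833⟩]]

noncomputable def f_B00mm_102_s3 : ℕ → ℕ → ℕ → ℕ → Bool := onCell 536870912 536870912 0 536870912 469762048 67108864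
    (rowF 0 false false false .npp 1 0 2 (qsf 536870912 536870912 0 536870912 0) ndF0q1 ndF0q2 pcF0 cut_B00mm_102_s3 Ext.none)

def k0_B00mm_102_s3 : ∃ t, chk3 f_B00mm_102_s3 t 1 1 1 = true :=
  ⟨(l 6), by decide +kernel⟩

theorem c_B00mm_102_s3 : CertF 536870912 536870912 0 536870912 469762048 67108864 false false false .npp 1 0 2
    ndF0q1 ndF0q2 pcF0 cut_B00mm_102_s3 Ext.none :=
  certF0 (fam := false) (s1 := false) (s2 := false) (a := 1) (b := 0) (c := 2) (cn := .npp) (n1 := ndF0q1) (n2 := ndF0q2) (pc := pcF0) (cut := cut_B00mm_102_s3) (xt := Ext.none) (P1 := 536870912) (W1 := 536870912) (P2 := 0) (W2 := 536870912) (P3 := 469762048) (W3 := 67108864)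
    rfl k0_B00mm_102_s3

theorem s_B00mm_102_s3 {κ x : ℝ} (hκ : κ * h0 = ken x) (hx : ((469762048 : ℕ) : ℝ) / S ≤ x)
    (hx' : x ≤ (((469762048 : ℕ) : ℝ) + (67108864 : ℕ)) / S) :
    AltB (VF κ) PP tKF tL pcF [⟨4, 0, 0, 2845415833⟩] 1 0 2 0 0 (sgb false) (sgb false) x :=
  strip_altB (m := 2845415833) false rfl hκ covF01 covF02 hx hx' c_B00mm_102_s3 cutB_nil (noExt_B)

noncomputable def cut_B00mm_112_s1 : Cut := Cut.of [[⟨4, 0, 0, 1449551462⟩]]

noncomputable def f_B00mm_112_s1 : ℕ → ℕ → ℕ → ℕ → Bool := onCell 536870912 536870912 0 536870912 469762048 67108864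
    (rowF 2 false false false .dn 1 1 2 (qsf 536870912 536870912 0 536870912 1) ndF0q1 ndF0q2 pcF1 cut_B00mm_112_s1 Ext.none)

def k0_B00mm_112_s1 : ∃ t, chk3 f_B00mm_112_s1 t 1 1 1 = true :=
  ⟨(l 5), by decide +kernel⟩

theorem c_B00mm_112_s1 : CertF 536870912 536870912 0 536870912 469762048 67108864 false false false .dn 1 1 2
    ndF0q1 ndF0q2 pcF1 cut_B00mm_112_s1 Ext.none :=
  certF2 (fam := false) (s1 := false) (s2 := false) (a := 1) (b := 1) (c := 2) (cn := .dn) (n1 := ndF0q1) (n2 := ndF0q2) (pc := pcF1) (cut := cut_B00mm_112_s1) (xt := Ext.none) (P1 := 536870912) (W1 := 536870912) (P2 := 0) (W2 := 536870912) (P3 := 469762048) (W3 := 67108864)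
    rfl (fun _ => rfl) k0_B00mm_112_s1

theorem s_B00mm_112_s1 {κ x : ℝ} (hκ : κ * h0 = ken x) (hx : ((469762048 : ℕ) : ℝ) / S ≤ x)
    (hx' : x ≤ (((469762048 : ℕ) : ℝ) + (67108864 : ℕ)) / S) :
    AltB (VF κ) PP tKF tL pcF [⟨3, 0, 0, 1449551462⟩] 1 1 2 0 0 (sgb false) (sgb false) x :=
  strip_altB (m := 1449551462) true rfl hκ covF01 covF02 hx hx' c_B00mm_112_s1 cutB_nil (noExt_B)

noncomputable def cut_B00mm_112_s3 : Cut := Cut.of [[⟨3, 0, 0, 2845415833⟩]]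

noncomputable def f_B00mm_112_s3 : ℕ → ℕ → ℕ → ℕ → Bool := onCell 536870912 536870912 0 536870912 469762048 67108864
    (rowF 0 false false false .dn 1 1 2 (qsf 536870912 536870912 0 536870912 1) ndF0q1 ndF0q2 pcF1 cut_B00mm_112_s3 Ext.none)

def k0_B00mm_112_s3 : ∃ t, chk3 f_B00mm_112_s3 t 1 1 1 = true :=
  ⟨(l 6), by decide +kernel⟩

theorem c_B00mm_112_s3 : CertF 536870912 536870912 0 536870912 469762048 67108864 false false false .dn 1 1 2
    ndF0q1 ndF0q2 pcF1 cut_B00mm_112_s3 Ext.none :=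
  certF0 (fam := false) (s1 := false) (s2 := false) (a := 1) (b := 1) (c := 2) (cn := .dn) (n1 := ndF0q1) (n2 := ndF0q2) (pc := pcF1) (cut := cut_B00mm_112_s3) (xt := Ext.none) (P1 := 536870912) (W1 := 536870912) (P2 := 0) (W2 := 536870912) (P3 := 469762048) (W3 := 67108864)
    rfl k0_B00mm_112_s3

theorem s_B00mm_112_s3 {κ x : ℝ} (hκ : κ * h0 = ken x) (hx : ((469762048 : ℕ) : ℝ) / S ≤ x)
    (hx' : x ≤ (((469762048 : ℕ) : ℝ) + (67108864 : ℕ)) / S) :
    AltB (VF κ) PP tKF tL pcF [⟨4, 0, 0, 2845415833⟩] 1 1 2 0 0 (sgb false) (sgb false) x :=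
  strip_altB (m := 2845415833) false rfl hκ covF01 covF02 hx hx' c_B00mm_112_s3 cutB_nil (noExt_B)

noncomputable def cut_B00mm_202_s1 : Cut := Cut.of [[⟨4, 0, 0, 1449551462⟩]]

noncomputable def f_B00mm_202_s1 : ℕ → ℕ → ℕ → ℕ → Bool := onCell 0 536870912 0 536870912 469762048 67108864
    (rowF 0 false false false .pp 2 0 2 (qsf 0 536870912 0 536870912 0) ndF0q2 ndF0q2 pcF0 cut_B00mm_202_s1 Ext.none)

def k0_B00mm_202_s1 : ∃ t, chk3 f_B00mm_202_s1 t 1 1 1 = true :=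
  ⟨(l 3), by decide +kernel⟩

theorem c_B00mm_202_s1 : CertF 0 536870912 0 536870912 469762048 67108864 false false false .pp 2 0 2
    ndF0q2 ndF0q2 pcF0 cut_B00mm_202_s1 Ext.none :=
  certF0 (fam := false) (s1 := false) (s2 := false) (a := 2) (b := 0) (c := 2) (cn := .pp) (n1 := ndF0q2) (n2 := ndF0q2) (pc := pcF0) (cut := cut_B00mm_202_s1) (xt := Ext.none) (P1 := 0) (W1 := 536870912) (P2 := 0) (W2 := 536870912) (P3 := 469762048) (W3 := 67108864)
    rfl k0_B00mm_202_s1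

theorem s_B00mm_202_s1 {κ x : ℝ} (hκ : κ * h0 = ken x) (hx : ((469762048 : ℕ) : ℝ) / S ≤ x)
    (hx' : x ≤ (((469762048 : ℕ) : ℝ) + (67108864 : ℕ)) / S) :
    AltB (VF κ) PP tKF tL pcF [⟨3, 0, 0, 1449551462⟩] 2 0 2 0 0 (sgb false) (sgb false) x :=
  strip_altB (m := 1449551462) true rfl hκ covF02 covF02 hx hx' c_B00mm_202_s1 cutB_nil (noExt_B)

noncomputable def cut_B00mm_202_s3 : Cut := Cut.of [[⟨3, 0, 0, 2845415833⟩]]

noncomputable def f_B00mm_202_s3 : ℕ → ℕ → ℕ → ℕ → Bool := onCell 0 536870912 0 536870912 469762048 67108864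
    (rowF 0 false false false .pp 2 0 2 (qsf 0 536870912 0 536870912 0) ndF0q2 ndF0q2 pcF0 cut_B00mm_202_s3 Ext.none)

def k0_B00mm_202_s3 : ∃ t, chk3 f_B00mm_202_s3 t 1 1 1 = true :=
  ⟨(l 3), by decide +kernel⟩

theorem c_B00mm_202_s3 : CertF 0 536870912 0 536870912 469762048 67108864 false false false .pp 2 0 2
    ndF0q2 ndF0q2 pcF0 cut_B00mm_202_s3 Ext.none :=
  certF0 (fam := false) (s1 := false) (s2 := false) (a := 2) (b := 0) (c := 2) (cn := .pp) (n1 := ndF0q2) (n2 := ndF0q2) (pc := pcF0) (cut := cut_B00mm_202_s3) (xt := Ext.none) (P1 := 0) (W1 := 536870912) (P2 := 0) (W2 := 536870912) (P3 := 469762048) (W3 := 67108864)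
    rfl k0_B00mm_202_s3

theorem s_B00mm_202_s3 {κ x : ℝ} (hκ : κ * h0 = ken x) (hx : ((469762048 : ℕ) : ℝ) / S ≤ x)
    (hx' : x ≤ (((469762048 : ℕ) : ℝ) + (67108864 : ℕ)) / S) :
    AltB (VF κ) PP tKF tL pcF [⟨4, 0, 0, 2845415833⟩] 2 0 2 0 0 (sgb false) (sgb false) x :=
  strip_altB (m := 2845415833) false rfl hκ covF02 covF02 hx hx' c_B00mm_202_s3 cutB_nil (noExt_B)

noncomputable def cut_B04pp_001_s1 : Cut := Cut.of [[⟨4, 0, 0, 1449551462⟩]]

noncomputable def f_B04pp_001_s1 : ℕ → ℕ → ℕ → ℕ → Bool := onCell 0 536870912 0 536870912 469762048 67108864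
    (rowF 1 false true true .up 0 0 1 (qsf 0 536870912 536870912 536870912 0) ndF0q0 ndF4q1 pcF0 cut_B04pp_001_s1 Ext.none)

def k0_B04pp_001_s1 : ∃ t, chk3 f_B04pp_001_s1 t 1 1 1 = true :=
  ⟨(l 3), by decide +kernel⟩

theorem c_B04pp_001_s1 : CertF 0 536870912 536870912 536870912 469762048 67108864 false true true .up 0 0 1
    ndF0q0 ndF4q1 pcF0 cut_B04pp_001_s1 Ext.none :=
  certF1 (fam := false) (s1 := true) (s2 := true) (a := 0) (b := 0) (c := 1) (cn := .up) (n1 := ndF0q0) (n2 := ndF4q1) (pc := pcF0) (cut := cut_B04pp_001_s1) (xt := Ext.none) (P1 := 0) (W1 := 536870912) (P2 := 536870912) (W2 := 536870912) (P3 := 469762048) (W3 := 67108864)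
    rfl (fun _ => rfl) k0_B04pp_001_s1

theorem s_B04pp_001_s1 {κ x : ℝ} (hκ : κ * h0 = ken x) (hx : ((469762048 : ℕ) : ℝ) / S ≤ x)
    (hx' : x ≤ (((469762048 : ℕ) : ℝ) + (67108864 : ℕ)) / S) :
    AltB (VF κ) PP tKF tL pcF [⟨3, 0, 0, 1449551462⟩] 0 0 1 0 4 (sgb true) (sgb true) x :=
  strip_altB (m := 1449551462) true rfl hκ covF00 covF41 hx hx' c_B04pp_001_s1 cutB_nil (noExt_B)

noncomputable def cut_B04pp_011_s1 : Cut := Cut.of [[⟨4, 0, 0, 1449551462⟩], [⟨0, 0, 0, 67108864⟩, ⟨1, 1, 0, 67108864⟩, ⟨2, 1, 0, 67108864⟩]]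

noncomputable def f_B04pp_011_s1 : ℕ → ℕ → ℕ → ℕ → Bool := onCell 0 536870912 536870912 536870912 469762048 67108864
    (rowF 1 false true true .pnn 0 1 1 (qsf 0 536870912 536870912 536870912 1) ndF0q0 ndF4q1 pcF1 cut_B04pp_011_s1 Ext.none)

def k0_B04pp_011_s1 : ∃ t, chk3 f_B04pp_011_s1 t 1 1 1 = true :=
  ⟨(b (l 3) (a (b (l 3) (a (b (l 3) (a (b (l 3) (a (l 14) (l 3))) (l 3))) (l 3))) (l 3))), by decide +kernel⟩

theorem c_B04pp_011_s1 : CertF 0 536870912 536870912 536870912 469762048 67108864 false true true .pnn 0 1 1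
    ndF0q0 ndF4q1 pcF1 cut_B04pp_011_s1 Ext.none :=
  certF1 (fam := false) (s1 := true) (s2 := true) (a := 0) (b := 1) (c := 1) (cn := .pnn) (n1 := ndF0q0) (n2 := ndF4q1) (pc := pcF1) (cut := cut_B04pp_011_s1) (xt := Ext.none) (P1 := 0) (W1 := 536870912) (P2 := 536870912) (W2 := 536870912) (P3 := 469762048) (W3 := 67108864)
    rfl (fun _ => rfl) k0_B04pp_011_s1

theorem s_B04pp_011_s1 {κ x : ℝ} (hκ : κ * h0 = ken x) (hx : ((469762048 : ℕ) : ℝ) / S ≤ x)
    (hx' : x ≤ (((469762048 : ℕ) : ℝ) + (67108864 : ℕ)) / S)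
    (H : CutB (VF κ) PP tKF tL pcF (Cut.of [[⟨0, 0, 0, 67108864⟩, ⟨1, 1, 0, 67108864⟩, ⟨2, 1, 0, 67108864⟩]]) 0 1 1 0 4 (sgb true) (sgb true) x) :
    AltB (VF κ) PP tKF tL pcF [⟨3, 0, 0, 1449551462⟩] 0 1 1 0 4 (sgb true) (sgb true) x :=
  strip_altB (m := 1449551462) true rfl hκ covF00 covF41 hx hx' c_B04pp_011_s1 H (noExt_B)

noncomputable def cut_B04pp_012_s1 : Cut := Cut.of [[⟨4, 0, 0, 1449551462⟩], [⟨0, 0, 0, 67108864⟩, ⟨1, 1, 0, 67108864⟩, ⟨2, 1, 0, 67108864⟩]]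

noncomputable def f_B04pp_012_s1 : ℕ → ℕ → ℕ → ℕ → Bool := onCell 0 536870912 536870912 536870912 469762048 67108864
    (rowF 1 false true true .pnp 0 1 2 (qsf 0 536870912 1073741824 536870912 1) ndF0q0 ndF4q2 pcF1 cut_B04pp_012_s1 Ext.none)

def k0_B04pp_012_s1 : ∃ t, chk3 f_B04pp_012_s1 t 1 1 1 = true :=
  ⟨(b (l 3) (a (b (l 3) (b (l 3) (a (a (a (b (l 3) (l 14)) (l 3)) (l 3)) (l 3)))) (l 3))), by decide +kernel⟩

theorem c_B04pp_012_s1 : CertF 0 536870912 1073741824 536870912 469762048 67108864 false true true .pnp 0 1 2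
    ndF0q0 ndF4q2 pcF1 cut_B04pp_012_s1 Ext.none :=
  certF1 (fam := false) (s1 := true) (s2 := true) (a := 0) (b := 1) (c := 2) (cn := .pnp) (n1 := ndF0q0) (n2 := ndF4q2) (pc := pcF1) (cut := cut_B04pp_012_s1) (xt := Ext.none) (P1 := 0) (W1 := 536870912) (P2 := 1073741824) (W2 := 536870912) (P3 := 469762048) (W3 := 67108864)
    rfl (fun _ => rfl) k0_B04pp_012_s1

theorem s_B04pp_012_s1 {κ x : ℝ} (hκ : κ * h0 = ken x) (hx : ((469762048 : ℕ) : ℝ) / S ≤ x)
    (hx' : x ≤ (((469762048 : ℕ) : ℝ) + (67108864 : ℕ)) / S)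
    (H : CutB (VF κ) PP tKF tL pcF (Cut.of [[⟨0, 0, 0, 67108864⟩, ⟨1, 1, 0, 67108864⟩, ⟨2, 1, 0, 67108864⟩]]) 0 1 2 0 4 (sgb true) (sgb true) x) :
    AltB (VF κ) PP tKF tL pcF [⟨3, 0, 0, 1449551462⟩] 0 1 2 0 4 (sgb true) (sgb true) x :=
  strip_altB (m := 1449551462) true rfl hκ covF00 covF42 hx hx' c_B04pp_012_s1 H (noExt_B)

noncomputable def cut_B04pp_022_s1 : Cut := Cut.of [[⟨4, 0, 0, 1449551462⟩], [⟨0, 0, 0, 67108864⟩, ⟨1, 1, 0, 67108864⟩, ⟨2, 1, 0, 67108864⟩]]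

noncomputable def xt_B04pp_022_s1 : Ext := strExt dd false true true .u0 .s2 .u2 .pp 0 2 2 rfl rfl gf2 vv ndF0q0 ndF4q2

noncomputable def f_B04pp_022_s1 : ℕ → ℕ → ℕ → ℕ → Bool := onCell 0 536870912 1073741824 536870912 469762048 67108864
    (rowF 1 false true true .pp 0 2 2 (qsf 0 536870912 1073741824 536870912 2) ndF0q0 ndF4q2 pcF2 cut_B04pp_022_s1 xt_B04pp_022_s1)

def k0_B04pp_022_s1 : ∃ t, chk3 f_B04pp_022_s1 t 8 8 1 = true :=
  ⟨(b (a (b (l 14) (a (l 14) (b (l 14) (c (c (a (l 14) (a (l 14) (b (l 14) (l 16747224)))) (a (l 14) (a (l 14) (b (l 14) (l 16747048))))) (a (l 14) (a (l 14) (b (l 14) (l 16746728)))))))) (a (a (b (l 14) (a (b (l 14) (a (b (l 14) (l 16760296)) (b (l 525028479) (l 16762184)))) (b (b (l 14) (l 524985983)) (a (l 526403455) (l 525880703))))) (b (l 3) (b (a (a (a (l 524984959) (l 524991871)) (l 526610047)) (b (l 3) (l 525315455))) (a (b (l 526678143) (l 526724367)) (a (l 525118079) (l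 525132159)))))) (b (l 3) (a (b (b (l 3) (a (l 525077119) (l 3))) (a (b (l 525128319) (l 525174655)) (b (l 525158271) (l 525204863)))) (b (l 3) (a (l 526279807) (l 525772927))))))) (a (a (b (a (l 14) (b (l 14) (l 16701360))) (a (b (l 16677456) (l 16661560)) (b (l 16685384) (l 16669480)))) (b (b (a (b (l 14) (l 16742200)) (b (a (l 16735104) (l 16738952)) (l 16728960))) (a (l 16709168) (b (l 16720880) (l 16712840)))) (b (a (l 16693160) (l 16700832)) (l 16686304)))) (b (a (a (a (b (b (l 16753256) (l 16734720)) (l 16722616)) (b (b (l 16746552) (l 16738520)) (l 16726432))) (a (b (a (l 525100415) (l 525112959)) (l 16751184)) (b (l 525122687) (l 525114751)))) (a (a (b (l 525149311) (l 525137535)) (b (l 526786175) (l 525160063))) (b (a (l 526007167) (l 525228415)) (a (l 525719423) (l 525204863))))) (a (b (a (l 16729352) (l 16736944)) (b (l 16721088) (l 16692144))) (a (b (l 16744424) (l 16707360)) (b (l 525722239) (l 16714744))))))),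 by decide +kernel⟩

def k1_B04pp_022_s1 : ∃ t, chk3 f_B04pp_022_s1 t 9 8 1 = true :=
  ⟨(a (b (b (l 3) (a (a (a (b (l 3) (l 525266047)) (l 3)) (l 3)) (l 3))) (a (b (a (b (a (l 525254783) (l 525281663)) (l 525223039)) (b (l 525309567) (l 525272703))) (a (b (l 525230719) (l 16743000)) (b (l 525275263) (l 16750176)))) (b (b (a (l 526977551) (l 3)) (a (l 525322111) (l 526177151))) (b (a (l 525319807) (l 525364607)) (a (l 525344127) (l 525385855)))))) (b (l 3) (b (a (b (l 3) (a (l 525422463) (l 3))) (l 3)) (a (b (a (l 525410175) (l 525456511)) (l 525423743)) (b (l 525509503) (l 525519231)))))), by decide +kernel⟩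

def k2_B04pp_022_s1 : ∃ t, chk3 f_B04pp_022_s1 t 4 9 1 = true :=
  ⟨(a (b (b (a (a (b (l 16691656) (l 16675928)) (b (l 16665232) (l 16649504))) (a (a (l 16668616) (l 16717984)) (b (l 16705424) (l 16699984)))) (a (a (l 16652424) (l 16667968)) (a (l 16682960) (c (l 16697496) (l 16697392))))) (a (a (b (l 16621320) (l 16548592)) (b (l 16595000) (l 16564336))) (a (b (l 16610104) (l 16663472)) (b (l 16624688) (l 16594336))))) (b (b (a (a (a (b (l 16705976) (l 16689960)) (l 526172543)) (a (l 525405311) (l 525443455))) (a (a (l 525482367) (l 525522047)) (b (l 525552255) (l 525602687)))) (a (b (a (l 16677568) (l 16733760)) (a (l 16661872) (l 16675968))) (a (b (l 16726584) (l 16689768)) (b (l 525666431) (l 16745104))))) (a (b (a (l 16680808) (l 16694496)) (a (l 16608600) (l 16622448))) (b (a (l 16708112) (l 16721488)) (a (l 16677824) (l 16690792)))))), by decide +kernel⟩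

def k3_B04pp_022_s1 : ∃ t, chk3 f_B04pp_022_s1 t 5 4 1 = true :=
  ⟨(b (a (b (l 3) (a (b (l 3) (a (b (l 3) (l 525616767)) (l 3))) (l 3))) (l 3)) (b (a (a (b (a (l 525655423) (l 526554239)) (a (b (l 525755007) (l 16737120)) (b (l 525846399) (l 525920383)))) (b (a (l 525846911) (b (l 3) (l 525986687))) (b (a (l 525673855) (l 526310783)) (a (l 526015359) (l 526115967))))) (b (l 3) (a (b (a (l 526148991) (l 526261119)) (a (l 526220671) (l 526331007))) (b (l 3) (l 526496895))))) (a (b (a (a (c (l 16733888) (l 16734888)) (b (l 16754952) (l 16697432))) (b (a (l 526101375) (l 526201471)) (a (l 16751544) (l 16742320)))) (a (b (l 16717656) (l 16702512)) (b (a (l 16694208) (l 16705952)) (l 16726776)))) (b (a (b (l 526341759) (l 526439039)) (b (l 526579071) (l 526674815))) (a (b (l 527085183) (l 528277263)) (b (l 526782847) (l 527434367))))))), by decide +kernel⟩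

def k4_B04pp_022_s1 : ∃ t, chk3 f_B04pp_022_s1 t 2 5 1 = true :=
  ⟨(b (a (b (b (a (a (l 16526040) (l 16556848)) (a (l 16585824) (a (l 16606488) (l 16682728)))) (a (a (a (l 16571464) (l 16587432)) (l 16610464)) (a (b (l 16647768) (l 16548752)) (b (l 16675408) (l 16576576))))) (a (a (l 16535728) (l 16483880)) (a (l 16514464) (l 16627504)))) (b (b (a (a (b (l 16687632) (l 16631592)) (b (l 16711800) (l 16697136))) (b (a (l 16734216) (a (l 16708088) (l 16759936))) (a (l 16719280) (c (l 16738544) (l 16740352))))) (b (a (a (l 16617448) (l 16641632)) (a (l 16705256) (l 16725040))) (c (b (a (a (l 16606096) (l 16630536)) (a (l 16736984) (l 16673120))) (a (a (l 16598640) (l 16623240)) (a (b (l 16648008) (l 16644368)) (b (l 16668936) (l 16665840))))) (b (a (a (l 16607280) (l 16631936)) (a (l 16654656) (l 16674712))) (a (a (l 16599584) (l 16624328)) (a (b (l 16649296) (l 16645416)) (b (l 16754152) (l 16666896)))))))) (a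 (a (l 16655256) (l 16681600)) (a (l 16685568) (l 16719312))))) (a (a (a (b (l 16481440) (l 16347288)) (b (l 16515728) (l 16384464))) (a (b (l 16548968) (l 16421008)) (b (l 16581184) (l 16456936)))) (a (a (b (l 16612384) (l 16492240)) (b (l 16642568) (l 16526240))) (b (a (l 16671248) (l 16697792)) (a (l 16558200) (l 16589224)))))), by decide +kernel⟩

def k5_B04pp_022_s1 : ∃ t, chk3 f_B04pp_022_s1 t 2 3 1 = true :=
  ⟨(b (a (a (b (a (b (l 16301824) (l 16262016)) (b (l 16342568) (l 16307072))) (l 6)) (b (b (a (l 16383112) (l 16423448)) (a (l 16352360) (l 16397008))) (a (l 16402224) (l 16369584)))) (b (a (b (a (l 16462768) (l 16500160)) (l 16544088)) (b (l 16638216) (l 16548656))) (b (a (l 16449112) (l 16605704)) (l 6)))) (l 6)), by decide +kernel⟩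

def k6_B04pp_022_s1 : ∃ t, chk3 f_B04pp_022_s1 t 3 1 1 = true :=
  ⟨(b (b (b (l 3) (a (b (l 3) (a (b (a (b (l 526838911) (l 526931071)) (l 3)) (a (b (l 527841407) (b (l 527120255) (l 527150463))) (b (a (l 527244671) (l 527450239)) (a (l 527347071) (l 527409791))))) (b (l 3) (a (b (l 3) (l 528373887)) (l 3))))) (l 3))) (b (b (a (b (a (b (a (a (l 16748424) (l 527209343)) (a (l 527272831) (l 527305855))) (a (a (l 16711720) (l 16762424)) (b (l 527206527) (l 527174783)))) (b (a (l 528206463) (l 527531647)) (a (b (l 527276927) (l 527195263)) (b (l 527330175) (l 527288703))))) (a (a (b (b (l 16788520) (l 16697680)) (b (l 16775552) (b (l 16771816) (l 16706480)))) (b (b (l 527207295) (l 16755824)) (b (c (l 16707136) (l 16708384)) (c (b (l 16745784) (l 16785984)) (b (l 16746712) (l 16744664)))))) (b (b (a (l 527216511) (b (l 527557759) (l 527751039))) (a (a (l 16725464) (l 16732856)) (a (l 16781928) (l 2)))) (b (a (b (l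 16766552) (l 16805968)) (b (l 21575510887) (l 23186076215))) (a (a (b (l 16758320) (l 16714768)) (b (a (l 16722200) (l 16767920)) (l 16722656))) (b (b (l 16778128) (l 16755976)) (a (l 16730312) (l 2)))))))) (b (b (b (l 3) (l 2)) (l 2)) (l 2))) (a (a (a (b (l 16759480) (l 16659928)) (b (l 16693976) (l 16680832))) (a (b (l 16753760) (l 16701584)) (b (b (l 16773080) (l 2)) (l 2)))) (l 2))) (a (b (a (a (l 16639296) (l 16664640)) (a (l 16690176) (l 2))) (a (a (l 16620480) (l 16652408)) (l 2))) (l 2)))) (a (b (b (a (b (l 16643472) (l 2)) (l 2)) (l 2)) (l 2)) (l 2))), by decide +kernel⟩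

theorem t7_B04pp_022_s1 : ∃ t, chk3 f_B04pp_022_s1 t 4 8 1 = true := ex3_a k0_B04pp_022_s1 k1_B04pp_022_s1

theorem t8_B04pp_022_s1 : ∃ t, chk3 f_B04pp_022_s1 t 4 4 1 = true := ex3_b t7_B04pp_022_s1 k2_B04pp_022_s1

theorem t9_B04pp_022_s1 : ∃ t, chk3 f_B04pp_022_s1 t 2 4 1 = true := ex3_a t8_B04pp_022_s1 k3_B04pp_022_s1

theorem t10_B04pp_022_s1 : ∃ t, chk3 f_B04pp_022_s1 t 2 2 1 = true := ex3_b t9_B04pp_022_s1 k4_B04pp_022_s1

theorem t11_B04pp_022_s1 : ∃ t, chk3 f_B04pp_022_s1 t 2 1 1 = true := ex3_b t10_B04pp_022_s1 k5_B04pp_022_s1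

theorem t12_B04pp_022_s1 : ∃ t, chk3 f_B04pp_022_s1 t 1 1 1 = true := ex3_a t11_B04pp_022_s1 k6_B04pp_022_s1

theorem c_B04pp_022_s1 : CertF 0 536870912 1073741824 536870912 469762048 67108864 false true true .pp 0 2 2
    ndF0q0 ndF4q2 pcF2 cut_B04pp_022_s1 xt_B04pp_022_s1 :=
  certF1 (fam := false) (s1 := true) (s2 := true) (a := 0) (b := 2) (c := 2) (cn := .pp) (n1 := ndF0q0) (n2 := ndF4q2) (pc := pcF2) (cut := cut_B04pp_022_s1) (xt := xt_B04pp_022_s1) (P1 := 0) (W1 := 536870912) (P2 := 1073741824) (W2 := 536870912) (P3 := 469762048) (W3 := 67108864)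
    rfl (fun _ => rfl) t12_B04pp_022_s1

theorem s_B04pp_022_s1 {κ x : ℝ} (hκ : κ * h0 = ken x) (hx : ((469762048 : ℕ) : ℝ) / S ≤ x)
    (hx' : x ≤ (((469762048 : ℕ) : ℝ) + (67108864 : ℕ)) / S)
    (H : CutB (VF κ) PP tKF tL pcF (Cut.of [[⟨0, 0, 0, 67108864⟩, ⟨1, 1, 0, 67108864⟩, ⟨2, 1, 0, 67108864⟩]]) 0 2 2 0 4 (sgb true) (sgb true) x) :
    AltB (VF κ) PP tKF tL pcF [⟨3, 0, 0, 1449551462⟩] 0 2 2 0 4 (sgb true) (sgb true) x :=
  strip_altB (m := 1449551462) true rfl hκ covF00 covF42 hx hx' c_B04pp_022_s1 H ((okx hx hx').extB (T := tt) (sideF hx hx') hκ rfl rfl (.O 0 true) (.N 2 true) rfl)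

noncomputable def cut_B04pp_023_s1 : Cut := Cut.of [[⟨4, 0, 0, 1449551462⟩]]

noncomputable def xt_B04pp_023_s1 : Ext := strExt dd false true true .u0 .s2 .u2 .up 0 2 3 rfl rfl gf2 vv ndF0q0 ndF4q3

noncomputable def f_B04pp_023_s1 : ℕ → ℕ → ℕ → ℕ → Bool := onCell 1073741824 536870912 0 1230186008 469762048 67108864
    (rowF 2 false true true .up 0 2 3 (qsf 0 536870912 0 1230186008 2) ndF0q0 ndF4q3 pcF2 cut_B04pp_023_s1 xt_B04pp_023_s1)

def k0_B04pp_023_s1 : ∃ t, chk3 f_B04pp_023_s1 t 1 2 1 = true :=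
  ⟨(a (l 2) (a (l 2) (l 6))), by decide +kernel⟩

def k1_B04pp_023_s1 : ∃ t, chk3 f_B04pp_023_s1 t 1 6 1 = true :=
  ⟨(a (a (l 2) (a (l 2) (b (l 2) (b (l 2) (a (l 2) (l 16786632)))))) (a (b (a (l 2) (l 16918024)) (a (b (l 16805040) (l 16795776)) (b (l 16819984) (l 16810152)))) (l 6))), by decide +kernel⟩

def k2_B04pp_023_s1 : ∃ t, chk3 f_B04pp_023_s1 t 4 7 1 = true :=
  ⟨(b (l 2) (l 3)), by decide +kernel⟩

def k3_B04pp_023_s1 : ∃ t, chk3 f_B04pp_023_s1 t 40 7 1 = true :=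
  ⟨(b (l 3) (b (l 3) (b (a (l 3) (a (l 3) (b (a (l 3) (l 531213695)) (b (a (l 3) (l 530473599)) (a (l 529941887) (l 529979263)))))) (a (b (l 3) (l 527956095)) (a (l 528619135) (b (l 529226623) (l 528084095))))))), by decide +kernel⟩

def k4_B04pp_023_s1 : ∃ t, chk3 f_B04pp_023_s1 t 41 14 1 = true :=
  ⟨(a (l 3) (a (b (l 2) (b (l 2) (a (b (l 3) (l 534614655)) (b (a (l 535049087) (l 535090303)) (a (l 534656895) (l 534695039)))))) (a (b (l 2) (b (l 2) (a (b (a (l 535130495) (b (l 535262079) (l 535070847))) (a (l 534730367) (l 534761343))) (b (a (b (l 535313023) (l 16776064)) (b (l 535360639) (l 16775856))) (a (b (l 16775608) (l 16775056)) (b (l 16775384) (l 16774800))))))) (a (a (b (l 2) (b (l 2) (b (a (a (l 17817406087) (l 16775896)) (l 16775824)) (a (l 16774928) (l 16774808))))) (b (l 2) (b (l 2) (b (l 16775680) (l 16774632))))) (b (l 2) (b (l 2) (b (l 16775408) (l 16774288)))))))), by decide +kernel⟩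

def k5_B04pp_023_s1 : ∃ t, chk3 f_B04pp_023_s1 t 41 15 1 = true :=
  ⟨(b (a (b (a (l 3) (b (a (l 3) (l 534114431)) (l 533563775))) (a (b (l 3) (l 532131711)) (b (l 532942719) (l 532218751)))) (b (a (a (b (l 534159999) (l 533631359)) (b (a (l 534202495) (l 534239359)) (a (l 533674879) (l 533711231)))) (b (a (a (b (l 534409855) (l 16774032)) (a (l 16773976) (l 16773680))) (a (a (a (l 16773464) (l 16773320)) (l 16773104)) (l 16772680))) (a (a (l 533754127) (a (l 16771992) (l 16771640))) (a (a (a (l 16771376) (l 16771200)) (l 16770936)) (l 16770424))))) (a (a (b (l 533015679) (l 532297855)) (b (l 533077775) (l 532362767))) (b (a (a (l 16769848) (a (l 16769184) (l 16768760))) (a (a (a (l 16768448) (l 16768232)) (l 16767920)) (l 16767296))) (a (a (l 16766080) (c (l 16767848) (l 16762296))) (a (a (a (l 16764416) (l 16764160)) (l 16763784)) (l 16763040))))))) (a (b (b (a (l 531275391) (a (l 531344767) (l 531398271)))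 (a (b (a (l 530520191) (l 530568831)) (l 530069887)) (b (l 530657151) (l 530187135)))) (a (b (a (l 529277311) (l 529331327)) (a (l 528130943) (l 16774736))) (b (a (l 529391999) (l 16776072)) (c (l 16773000) (l 16766160))))) (b (a (b (a (l 531459711) (c (l 16765840) (l 16759856))) (a (l 16780368) (l 16756312))) (c (b (a (a (l 16764312) (l 16763336)) (a (a (a (l 16762736) (l 16762504)) (l 16762152)) (l 16761448))) (a (a (l 16758488) (l 16757328)) (b (l 16757360) (l 16753816)))) (b (a (a (l 16757552) (l 16756080)) (a (a (a (l 16755184) (l 16754832)) (l 16754296)) (l 16753648))) (a (a (l 16749776) (l 16748616)) (b (l 16749152) (l 16745424)))))) (a (b (a (l 16751448) (l 16747904)) (b (l 16783800) (l 16777616))) (a (b (a (l 16745336) (l 16743680)) (a (l 16734016) (l 16732896))) (b (b (l 16743832) (l 16738528)) (l 16773304))))))), by decide +kernel⟩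

def k6_B04pp_023_s1 : ∃ t, chk3 f_B04pp_023_s1 t 21 7 1 = true :=
  ⟨(b (a (b (l 2) (b (b (l 2) (l 182099906247)) (a (b (l 16779064) (l 16772304)) (l 16770176)))) (b (b (l 2) (l 16774336)) (b (l 16771216) (l 16766264)))) (b (b (a (b (l 16773408) (l 16785872)) (l 16758248)) (a (b (l 16760608) (l 16754960)) (l 16746112))) (b (a (b (l 16747824) (l 16740064)) (l 16729952)) (a (b (l 16731112) (l 16721592)) (l 16708480))))), by decide +kernel⟩

def k7_B04pp_023_s1 : ∃ t, chk3 f_B04pp_023_s1 t 11 7 1 = true :=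
  ⟨(b (a (b (b (l 16777288) (l 16773320)) (b (l 16767984) (l 16760016))) (b (l 16777104) (l 16781664))) (a (b (b (l 16747824) (l 16729496)) (b (l 16707136) (l 16679952))) (b (b (l 16737424) (l 16712288)) (b (l 16675496) (l 16639408))))), by decide +kernel⟩

def k8_B04pp_023_s1 : ∃ t, chk3 f_B04pp_023_s1 t 3 7 1 = true :=
  ⟨(a (b (b (a (a (l 16780728) (l 16785504)) (l 16794608)) (a (a (l 16759608) (l 16760392)) (l 16764528))) (b (a (a (l 16715768) (l 16708512)) (l 16701856)) (a (b (l 16643600) (l 16574688)) (l 16567512)))) (l 6)), by decide +kernel⟩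

theorem t9_B04pp_023_s1 : ∃ t, chk3 f_B04pp_023_s1 t 41 7 1 = true := ex3_b k4_B04pp_023_s1 k5_B04pp_023_s1

theorem t10_B04pp_023_s1 : ∃ t, chk3 f_B04pp_023_s1 t 20 7 1 = true := ex3_a k3_B04pp_023_s1 t9_B04pp_023_s1

theorem t11_B04pp_023_s1 : ∃ t, chk3 f_B04pp_023_s1 t 10 7 1 = true := ex3_a t10_B04pp_023_s1 k6_B04pp_023_s1

theorem t12_B04pp_023_s1 : ∃ t, chk3 f_B04pp_023_s1 t 5 7 1 = true := ex3_a t11_B04pp_023_s1 k7_B04pp_023_s1

theorem t13_B04pp_023_s1 : ∃ t, chk3 f_B04pp_023_s1 t 2 7 1 = true := ex3_a k2_B04pp_023_s1 t12_B04pp_023_s1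

theorem t14_B04pp_023_s1 : ∃ t, chk3 f_B04pp_023_s1 t 1 7 1 = true := ex3_a t13_B04pp_023_s1 k8_B04pp_023_s1

theorem t15_B04pp_023_s1 : ∃ t, chk3 f_B04pp_023_s1 t 1 3 1 = true := ex3_b k1_B04pp_023_s1 t14_B04pp_023_s1

theorem t16_B04pp_023_s1 : ∃ t, chk3 f_B04pp_023_s1 t 1 1 1 = true := ex3_b k0_B04pp_023_s1 t15_B04pp_023_s1

theorem c_B04pp_023_s1 : CertF 0 536870912 0 1230186008 469762048 67108864 false true true .up 0 2 3
    ndF0q0 ndF4q3 pcF2 cut_B04pp_023_s1 xt_B04pp_023_s1 :=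
  certF2 (fam := false) (s1 := true) (s2 := true) (a := 0) (b := 2) (c := 3) (cn := .up) (n1 := ndF0q0) (n2 := ndF4q3) (pc := pcF2) (cut := cut_B04pp_023_s1) (xt := xt_B04pp_023_s1) (P1 := 0) (W1 := 536870912) (P2 := 0) (W2 := 1230186008) (P3 := 469762048) (W3 := 67108864)
    rfl (fun _ => rfl) t16_B04pp_023_s1

theorem s_B04pp_023_s1 {κ x : ℝ} (hκ : κ * h0 = ken x) (hx : ((469762048 : ℕ) : ℝ) / S ≤ x)
    (hx' : x ≤ (((469762048 : ℕ) : ℝ) + (67108864 : ℕ)) / S) :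
    AltB (VF κ) PP tKF tL pcF [⟨3, 0, 0, 1449551462⟩] 0 2 3 0 4 (sgb true) (sgb true) x :=
  strip_altB (m := 1449551462) true rfl hκ covF00 covF43 hx hx' c_B04pp_023_s1 cutB_nil ((okx hx hx').extB (T := tt) (sideF hx hx') hκ rfl rfl (.O 0 true) (.N 3 true) rfl)

noncomputable def cut_B04pp_033_s1 : Cut := Cut.of [[⟨4, 0, 0, 1449551462⟩]]

noncomputable def f_B04pp_033_s1 : ℕ → ℕ → ℕ → ℕ → Bool := onCell 1610612736 536870912 0 1230186008 469762048 67108864
    (rowF 2 false true true .pnn 0 3 3 (qsf 0 536870912 0 1230186008 3) ndF0q0 ndF4q3 pcF3 cut_B04pp_033_s1 Ext.none)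

def k0_B04pp_033_s1 : ∃ t, chk3 f_B04pp_033_s1 t 1 1 1 = true :=
  ⟨(b (l 6) (l 6)), by decide +kernel⟩

theorem c_B04pp_033_s1 : CertF 0 536870912 0 1230186008 469762048 67108864 false true true .pnn 0 3 3
    ndF0q0 ndF4q3 pcF3 cut_B04pp_033_s1 Ext.none :=
  certF2 (fam := false) (s1 := true) (s2 := true) (a := 0) (b := 3) (c := 3) (cn := .pnn) (n1 := ndF0q0) (n2 := ndF4q3) (pc := pcF3) (cut := cut_B04pp_033_s1) (xt := Ext.none) (P1 := 0) (W1 := 536870912) (P2 := 0) (W2 := 1230186008) (P3 := 469762048) (W3 := 67108864)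
    rfl (fun _ => rfl) k0_B04pp_033_s1

theorem s_B04pp_033_s1 {κ x : ℝ} (hκ : κ * h0 = ken x) (hx : ((469762048 : ℕ) : ℝ) / S ≤ x)
    (hx' : x ≤ (((469762048 : ℕ) : ℝ) + (67108864 : ℕ)) / S) :
    AltB (VF κ) PP tKF tL pcF [⟨3, 0, 0, 1449551462⟩] 0 3 3 0 4 (sgb true) (sgb true) x :=
  strip_altB (m := 1449551462) true rfl hκ covF00 covF43 hx hx' c_B04pp_033_s1 cutB_nil (noExt_B)

noncomputable def cut_B04pp_101_s1 : Cut := Cut.of [[⟨4, 0, 0, 1449551462⟩]]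

noncomputable def f_B04pp_101_s1 : ℕ → ℕ → ℕ → ℕ → Bool := onCell 536870912 536870912 536870912 536870912 469762048 67108864
    (rowF 0 false true true .npn 1 0 1 (qsf 536870912 536870912 536870912 536870912 0) ndF0q1 ndF4q1 pcF0 cut_B04pp_101_s1 Ext.none)

def k0_B04pp_101_s1 : ∃ t, chk3 f_B04pp_101_s1 t 1 1 1 = true :=
  ⟨(a (l 3) (l 5)), by decide +kernel⟩

theorem c_B04pp_101_s1 : CertF 536870912 536870912 536870912 536870912 469762048 67108864 false true true .npn 1 0 1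
    ndF0q1 ndF4q1 pcF0 cut_B04pp_101_s1 Ext.none :=
  certF0 (fam := false) (s1 := true) (s2 := true) (a := 1) (b := 0) (c := 1) (cn := .npn) (n1 := ndF0q1) (n2 := ndF4q1) (pc := pcF0) (cut := cut_B04pp_101_s1) (xt := Ext.none) (P1 := 536870912) (W1 := 536870912) (P2 := 536870912) (W2 := 536870912) (P3 := 469762048) (W3 := 67108864)
    rfl k0_B04pp_101_s1

theorem s_B04pp_101_s1 {κ x : ℝ} (hκ : κ * h0 = ken x) (hx : ((469762048 : ℕ) : ℝ) / S ≤ x)
    (hx' : x ≤ (((469762048 : ℕ) : ℝ) + (67108864 : ℕ)) / S) :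
    AltB (VF κ) PP tKF tL pcF [⟨3, 0, 0, 1449551462⟩] 1 0 1 0 4 (sgb true) (sgb true) x :=
  strip_altB (m := 1449551462) true rfl hκ covF01 covF41 hx hx' c_B04pp_101_s1 cutB_nil (noExt_B)

noncomputable def cut_B04pp_102_s1 : Cut := Cut.of [[⟨4, 0, 0, 1449551462⟩]]

noncomputable def f_B04pp_102_s1 : ℕ → ℕ → ℕ → ℕ → Bool := onCell 536870912 536870912 1073741824 536870912 469762048 67108864
    (rowF 0 false true true .npp 1 0 2 (qsf 536870912 536870912 1073741824 536870912 0) ndF0q1 ndF4q2 pcF0 cut_B04pp_102_s1 Ext.none)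

def k0_B04pp_102_s1 : ∃ t, chk3 f_B04pp_102_s1 t 1 1 1 = true :=
  ⟨(a (l 3) (b (l 5) (l 3))), by decide +kernel⟩

theorem c_B04pp_102_s1 : CertF 536870912 536870912 1073741824 536870912 469762048 67108864 false true true .npp 1 0 2
    ndF0q1 ndF4q2 pcF0 cut_B04pp_102_s1 Ext.none :=
  certF0 (fam := false) (s1 := true) (s2 := true) (a := 1) (b := 0) (c := 2) (cn := .npp) (n1 := ndF0q1) (n2 := ndF4q2) (pc := pcF0) (cut := cut_B04pp_102_s1) (xt := Ext.none) (P1 := 536870912) (W1 := 536870912) (P2 := 1073741824) (W2 := 536870912) (P3 := 469762048) (W3 := 67108864)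
    rfl k0_B04pp_102_s1

theorem s_B04pp_102_s1 {κ x : ℝ} (hκ : κ * h0 = ken x) (hx : ((469762048 : ℕ) : ℝ) / S ≤ x)
    (hx' : x ≤ (((469762048 : ℕ) : ℝ) + (67108864 : ℕ)) / S) :
    AltB (VF κ) PP tKF tL pcF [⟨3, 0, 0, 1449551462⟩] 1 0 2 0 4 (sgb true) (sgb true) x :=
  strip_altB (m := 1449551462) true rfl hκ covF01 covF42 hx hx' c_B04pp_102_s1 cutB_nil (noExt_B)

noncomputable def cut_B04pp_112_s1 : Cut := Cut.of [[⟨4, 0, 0, 1449551462⟩]]

noncomputable def f_B04pp_112_s1 : ℕ → ℕ → ℕ → ℕ → Bool := onCell 536870912 536870912 1073741824 536870912 469762048 67108864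
    (rowF 0 false true true .dn 1 1 2 (qsf 536870912 536870912 1073741824 536870912 1) ndF0q1 ndF4q2 pcF1 cut_B04pp_112_s1 Ext.none)

def k0_B04pp_112_s1 : ∃ t, chk3 f_B04pp_112_s1 t 1 1 1 = true :=
  ⟨(a (l 3) (b (l 5) (l 3))), by decide +kernel⟩

theorem c_B04pp_112_s1 : CertF 536870912 536870912 1073741824 536870912 469762048 67108864 false true true .dn 1 1 2
    ndF0q1 ndF4q2 pcF1 cut_B04pp_112_s1 Ext.none :=
  certF0 (fam := false) (s1 := true) (s2 := true) (a := 1) (b := 1) (c := 2) (cn := .dn) (n1 := ndF0q1) (n2 := ndF4q2) (pc := pcF1) (cut := cut_B04pp_112_s1) (xt := Ext.none) (P1 := 536870912) (W1 := 536870912) (P2 := 1073741824) (W2 := 536870912) (P3 := 469762048) (W3 := 67108864)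
    rfl k0_B04pp_112_s1

theorem s_B04pp_112_s1 {κ x : ℝ} (hκ : κ * h0 = ken x) (hx : ((469762048 : ℕ) : ℝ) / S ≤ x)
    (hx' : x ≤ (((469762048 : ℕ) : ℝ) + (67108864 : ℕ)) / S) :
    AltB (VF κ) PP tKF tL pcF [⟨3, 0, 0, 1449551462⟩] 1 1 2 0 4 (sgb true) (sgb true) x :=
  strip_altB (m := 1449551462) true rfl hκ covF01 covF42 hx hx' c_B04pp_112_s1 cutB_nil (noExt_B)

noncomputable def cut_B04pp_113_s1 : Cut := Cut.of [[⟨4, 0, 0, 1449551462⟩], [⟨0, 1, 0, 67108864⟩, ⟨1, 1, 0, 67108864⟩, ⟨2, 2, 0, 16777216⟩]]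

noncomputable def f_B04pp_113_s1 : ℕ → ℕ → ℕ → ℕ → Bool := onCell 536870912 536870912 0 1230186008 469762048 67108864
    (rowF 2 false true true .nn 1 1 3 (qsf 536870912 536870912 0 1230186008 1) ndF0q1 ndF4q3 pcF1 cut_B04pp_113_s1 Ext.none)

def k0_B04pp_113_s1 : ∃ t, chk3 f_B04pp_113_s1 t 1 1 1 = true :=
  ⟨(b (a (l 2) (a (l 2) (b (a (l 2) (b (a (l 2) (l 14)) (l 3))) (l 3)))) (b (a (a (l 2) (b (l 2) (a (l 2) (l 3)))) (a (l 3) (l 3))) (a (a (b (l 2) (l 3)) (l 3)) (l 3)))), by decide +kernel⟩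

theorem c_B04pp_113_s1 : CertF 536870912 536870912 0 1230186008 469762048 67108864 false true true .nn 1 1 3
    ndF0q1 ndF4q3 pcF1 cut_B04pp_113_s1 Ext.none :=
  certF2 (fam := false) (s1 := true) (s2 := true) (a := 1) (b := 1) (c := 3) (cn := .nn) (n1 := ndF0q1) (n2 := ndF4q3) (pc := pcF1) (cut := cut_B04pp_113_s1) (xt := Ext.none) (P1 := 536870912) (W1 := 536870912) (P2 := 0) (W2 := 1230186008) (P3 := 469762048) (W3 := 67108864)
    rfl (fun _ => rfl) k0_B04pp_113_s1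

theorem s_B04pp_113_s1 {κ x : ℝ} (hκ : κ * h0 = ken x) (hx : ((469762048 : ℕ) : ℝ) / S ≤ x)
    (hx' : x ≤ (((469762048 : ℕ) : ℝ) + (67108864 : ℕ)) / S)
    (H : CutB (VF κ) PP tKF tL pcF (Cut.of [[⟨0, 1, 0, 67108864⟩, ⟨1, 1, 0, 67108864⟩, ⟨2, 2, 0, 16777216⟩]]) 1 1 3 0 4 (sgb true) (sgb true) x) :
    AltB (VF κ) PP tKF tL pcF [⟨3, 0, 0, 1449551462⟩] 1 1 3 0 4 (sgb true) (sgb true) x :=
  strip_altB (m := 1449551462) true rfl hκ covF01 covF43 hx hx' c_B04pp_113_s1 H (noExt_B)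

noncomputable def cut_B04pp_123_s1 : Cut := Cut.of [[⟨4, 0, 0, 1449551462⟩], [⟨0, 1, 0, 67108864⟩, ⟨1, 1, 0, 67108864⟩, ⟨2, 2, 0, 16777216⟩]]

noncomputable def xt_B04pp_123_s1 : Ext := strExt dd false true true .u0 .s2 .u2 .npn 1 2 3 rfl rfl gf2 vv ndF0q1 ndF4q3

noncomputable def f_B04pp_123_s1 : ℕ → ℕ → ℕ → ℕ → Bool := onCell 1073741824 536870912 0 1230186008 469762048 67108864
    (rowF 2 false true true .npn 1 2 3 (qsf 536870912 536870912 0 1230186008 2) ndF0q1 ndF4q3 pcF2 cut_B04pp_123_s1 xt_B04pp_123_s1)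

def k0_B04pp_123_s1 : ∃ t, chk3 f_B04pp_123_s1 t 1 2 1 = true :=
  ⟨(b (a (a (a (b (a (l 14) (a (l 14) (b (l 16781984) (b (l 16779672) (a (l 14) (b (l 16778456) (l 16777632))))))) (a (l 3) (b (a (l 14) (b (a (l 536842639) (b (l 16777088) (l 536826255))) (l 536766607))) (l 3)))) (b (a (b (l 16784096) (l 16782416)) (l 16786768)) (a (b (a (b (a (l 16777296) (l 16778008)) (a (l 536786319) (l 16787232))) (b (l 16779480) (l 16777616))) (a (l 536688927) (b (a (l 16781920) (l 16776536)) (l 536712079)))) (b (l 16782328) (a (b (l 16777760) (l 16797448)) (l 16779416)))))) (a (b (l 16790240) (a (b (l 16789328) (l 16783320)) (l 16796184))) (b (l 6) (l 16817280)))) (a (l 6) (l 6))) (a (a (a (l 3) (a (b (b (a (l 3) (l 536630047)) (l 3)) (l 3)) (b (b (a (l 536701583) (a (l 16797472) (l 16777168))) (a (l 536616847) (l 536715295))) (a (l 3) (b (b (l 536673935) (l 536640543)) (b (l 536613151) (l 3))))))) (a (a (a (b (b (l 16779024)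 (a (l 16776904) (l 16777528))) (b (a (l 536709519) (l 536773919)) (a (l 536593551) (l 537166879)))) (a (b (b (l 16781072) (l 16779032)) (b (l 16798456) (a (b (l 16776616) (l 16776568)) (l 16777208)))) (b (l 16781912) (a (b (l 16779048) (l 16778208)) (b (a (l 16779880) (l 16780312)) (a (l 16821376) (l 16822200))))))) (b (l 16787856) (b (l 16786792) (l 16787240)))) (b (l 16809792) (a (l 16969840) (l 16820072))))) (a (a (b (l 16841384) (l 16840048)) (l 6)) (l 6)))), by decide +kernel⟩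

def k1_B04pp_123_s1 : ∃ t, chk3 f_B04pp_123_s1 t 4 6 1 = true :=
  ⟨(l 3), by decide +kernel⟩

def k2_B04pp_123_s1 : ∃ t, chk3 f_B04pp_123_s1 t 40 6 1 = true :=
  ⟨(a (l 3) (b (b (b (a (l 536485519) (l 536495247)) (a (l 3) (l 536386079))) (l 3)) (l 3))), by decide +kernel⟩

def k3_B04pp_123_s1 : ∃ t, chk3 f_B04pp_123_s1 t 82 6 1 = true :=
  ⟨(b (b (b (a (l 536558879) (l 16777096)) (a (l 536645519) (l 536895375))) (b (a (l 536688527) (l 537235599)) (a (l 3) (l 537061519)))) (l 3)), by decide +kernel⟩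

def k4_B04pp_123_s1 : ∃ t, chk3 f_B04pp_123_s1 t 83 12 1 = true :=
  ⟨(b (a (b (l 16777984) (a (l 16777776) (l 16778304))) (a (b (l 16821056) (a (l 16778832) (l 16779248))) (b (l 16780040) (l 16779888)))) (b (a (a (l 537164943) (l 537294367)) (a (a (l 16778600) (l 16799960)) (b (l 16779648) (b (l 16779496) (l 16779384))))) (a (a (l 537276559) (a (l 537382543) (l 537451807))) (a (a (b (l 16778328) (l 16778128)) (a (l 16788984) (l 16789152))) (a (a (a (l 16778792) (l 16778872)) (l 16778992)) (l 16779232)))))), by decide +kernel⟩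

def k5_B04pp_123_s1 : ∃ t, chk3 f_B04pp_123_s1 t 166 13 1 = true :=
  ⟨(b (b (a (l 539012751) (b (l 538862735) (l 537566239))) (a (l 3) (b (l 537609247) (l 3)))) (l 3)), by decide +kernel⟩

def k6_B04pp_123_s1 : ∃ t, chk3 f_B04pp_123_s1 t 334 13 1 = true :=
  ⟨(b (b (a (b (l 537610527) (l 537647391)) (b (a (l 16778112) (l 16778256)) (a (l 537672223) (l 16783216)))) (a (b (a (l 537651087) (l 537653647)) (a (l 537619599) (b (l 537611151) (l 537555087)))) (b (a (b (l 16777648) (l 537620623)) (a (l 537622927) (l 16777712))) (a (a (l 539154063) (l 537515407)) (b (l 537516175) (a (l 537427599) (l 16777408))))))) (a (b (b (b (l 537511711) (l 3)) (l 3)) (l 3)) (b (b (a (b (a (l 537378447) (l 537320847)) (a (l 537237391) (l 537235343))) (b (a (l 537327247) (l 537307791)) (l 537235855))) (a (a (l 3) (l 537161615)) (l 537162639))) (b (a (l 3) (b (l 537076111) (l 3))) (l 3))))), by decide +kernel⟩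

def k7_B04pp_123_s1 : ∃ t, chk3 f_B04pp_123_s1 t 1340 13 1 = true :=
  ⟨(a (a (a (a (b (b (b (l 16778336) (l 16778032)) (b (l 16777736) (l 537454991))) (b (b (b (l 16777344) (l 16777288)) (l 537162895)) (b (l 537045391) (l 3)))) (b (b (b (l 16778344) (l 16778040)) (b (l 16777744) (l 537453455))) (b (b (b (l 16777344) (l 16777288)) (l 537162895)) (b (l 537045391) (l 3))))) (b (b (b (l 16778352) (l 16778048)) (b (l 16777752) (b (l 16777552) (l 16777440)))) (b (b (b (l 16777352) (l 16777296)) (l 537162895)) (b (l 537045391) (l 3))))) (b (b (b (l 16778376) (l 16778072)) (b (l 16777768) (c (l 16777656) (l 16777352)))) (b (b (b (l 16777360) (l 16777304)) (l 537162895)) (b (b (l 537076111) (l 537013551)) (l 3))))) (b (b (c (l 16789128) (l 16788400)) (b (l 16777800) (c (l 16777696) (l 16777368)))) (b (b (b (l 16777384) (l 16777328)) (b (l 16777288) (b (l 16777264) (l 16777248)))) (b (b (a (l 537076111) (b (l 16777248)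 (l 16777232))) (l 537013551)) (l 536912431))))), by decide +kernel⟩

def k8_B04pp_123_s1 : ∃ t, chk3 f_B04pp_123_s1 t 1341 13 1 = true :=
  ⟨(a (a (b (b (b (l 16778480) (l 16778160)) (b (l 16777840) (l 16777560))) (b (b (b (l 16777408) (l 16777344)) (b (l 16777304) (l 16777272))) (b (b (b (l 16777248) (l 16777240)) (l 537013551)) (l 536912175)))) (a (b (b (b (l 16778504) (l 16778176)) (b (l 16777856) (l 16777576))) (b (b (b (l 16777416) (l 16777352)) (b (l 16777312) (l 16777280))) (b (b (b (l 16777256) (l 16777248)) (l 537013551)) (b (l 536946991) (l 536876591))))) (a (b (b (b (l 16778520) (l 16778192)) (b (l 16777864) (l 16777576))) (b (b (b (l 16777424) (l 16777360)) (b (l 16777320) (l 16777280))) (b (b (b (l 16777264) (l 16777248)) (b (l 16777240) (l 16777232))) (b (b (l 16777224) (l 16777224)) (b (l 16777216) (l 16777216)))))) (b (b (b (l 16778528) (l 16778192)) (b (l 16777872) (l 16777584))) (b (b (b (l 16777432)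 (l 16777368)) (b (l 16777320) (l 16777280))) (b (b (l 16777256) (b (l 16777240) (l 16777232))) (b (b (l 16777224) (l 16777224)) (b (l 16777216) (l 16777216))))))))) (b (b (b (l 16778560) (l 16778224)) (b (l 16777896) (l 16777608))) (b (b (b (l 16777448) (l 16777376)) (b (l 16777336) (l 16777296))) (b (b (l 16777264) (l 537013343)) (b (l 536947039) (l 536876639)))))), by decide +kernel⟩

def k9_B04pp_123_s1 : ∃ t, chk3 f_B04pp_123_s1 t 671 13 1 = true :=
  ⟨(b (b (b (l 16778720) (l 16778360)) (b (l 16778008) (l 16777696))) (b (b (b (l 16777520) (l 16777448)) (b (l 16777392) (l 16777344))) (b (b (l 16777304) (l 16777272)) (l 536911967)))), by decide +kernel⟩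

def k10_B04pp_123_s1 : ∃ t, chk3 f_B04pp_123_s1 t 21 6 1 = true :=
  ⟨(b (b (b (l 16786984) (l 16786288)) (a (b (l 16782640) (l 16781648)) (l 16787088))) (a (b (b (b (l 16780768) (l 16780144)) (a (b (l 16778816) (l 16778360)) (l 16779880))) (b (a (a (b (l 16777776) (l 16777576)) (b (l 16778240) (l 16777920))) (l 16778680)) (a (b (b (l 16777568) (l 16777456)) (l 536910175)) (l 16777688)))) (b (b (l 16784080) (l 16781928)) (b (l 16780064) (l 16778408))))), by decide +kernel⟩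

def k11_B04pp_123_s1 : ∃ t, chk3 f_B04pp_123_s1 t 11 6 1 = true :=
  ⟨(b (a (b (l 16799904) (l 16794904)) (b (l 16815008) (l 16804024))) (a (b (a (l 16786312) (l 16789568)) (b (l 16783424) (l 16780536))) (b (l 16794576) (l 16786640)))), by decide +kernel⟩

def k12_B04pp_123_s1 : ∃ t, chk3 f_B04pp_123_s1 t 3 6 1 = true :=
  ⟨(a (b (a (b (l 16826064) (l 16814872)) (l 17169704)) (a (b (l 16805048) (a (l 16792424) (l 16798912))) (b (l 16820088) (l 1)))) (l 6)), by decide +kernel⟩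

def k13_B04pp_123_s1 : ∃ t, chk3 f_B04pp_123_s1 t 4 7 1 = true :=
  ⟨(b (l 3) (l 3)), by decide +kernel⟩

def k14_B04pp_123_s1 : ∃ t, chk3 f_B04pp_123_s1 t 20 28 1 = true :=
  ⟨(a (l 3) (a (l 3) (a (l 3) (a (a (l 3) (b (l 3) (a (b (l 3) (a (l 3) (l 536231807))) (b (b (l 3) (l 536373375)) (l 536233855))))) (a (a (b (l 536683055) (b (b (a (l 536464767) (b (l 536487471) (b (l 16777184) (l 16777176)))) (a (l 536375679) (b (l 16777168) (l 16777144)))) (a (a (l 536235647) (l 536236415)) (b (b (l 16777120) (l 16777096)) (l 16777040))))) (a (a (b (b (l 536763695) (l 536598575)) (b (b (b (l 16777176) (l 16777160)) (b (l 16777136) (l 16777120))) (b (l 16777080) (l 16777000)))) (a (b (b (b (l 536802351) (l 536724015)) (b (l 536641583) (l 536554799))) (b (b (b (l 16777160) (l 16777144)) (l 16777120)) (b (l 16777064) (l 16776984)))) (a (b (b (b (b (l 16777208) (l 16777208)) (b (l 16777208) (l 16777200))) (b (b (l 16777200)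 (l 16777192)) (b (l 16777184) (l 16777168)))) (b (b (b (l 16777160) (l 16777144)) (l 16777112)) (b (l 16777056) (l 16776976)))) (b (b (b (b (l 16777208) (l 16777208)) (b (l 16777208) (l 16777200))) (b (b (l 16777192) (l 16777184)) (b (l 16777176) (l 16777168)))) (b (b (b (l 16777152) (l 16777136)) (l 16777104)) (b (l 16777048) (l 16776968))))))) (b (b (b (l 536802399) (l 536723807)) (b (l 536641375) (l 536554847))) (b (b (b (l 16777136) (l 16777120)) (l 16777088)) (b (l 16777024) (l 16776944)))))) (b (l 536682079) (b (b (l 16777064) (l 16777000)) (b (l 16776928) (l 16776832))))))))), by decide +kernel⟩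

def k15_B04pp_123_s1 : ∃ t, chk3 f_B04pp_123_s1 t 20 29 1 = true :=
  ⟨(a (l 3) (a (l 3) (b (a (a (l 3) (b (l 3) (b (l 3) (l 535329551)))) (a (a (a (b (l 3) (b (l 535568511) (l 535400319))) (b (b (l 535957887) (l 535789695)) (b (l 535618943) (l 535444095)))) (b (a (b (a (l 536323711) (l 536065151)) (a (l 535849599) (l 535916671))) (b (a (l 536063871) (l 536076415)) (a (l 535914367) (l 535927679)))) (a (b (a (l 535668351) (l 535705471)) (l 536308095)) (b (l 536010879) (l 535554431))))) (a (a (a (a (a (a (b (b (l 536079487) (l 16776888)) (b (l 16776704) (l 16776464))) (b (b (l 536079743) (l 16776880)) (b (l 16776696) (l 16776448)))) (b (b (l 536079999) (l 16776872)) (b (l 16776688) (l 16776440)))) (b (b (l 16776984) (l 16776848)) (b (l 16776656) (l 16776408)))) (b (b (l 16776944) (l 16776800)) (b (l 16776608) (l 16776352)))) (a (a (b (b (l 16776904) (l 16776760)) (b (l 16776552) (l 16776288))) (a (b (b (l 16776880)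 (l 16776736)) (b (l 16776528) (l 16776264))) (a (b (b (l 16776872) (l 16776720)) (b (l 16776520) (l 16776248))) (b (b (l 16776864) (l 16776712)) (b (l 16776512) (l 16776240)))))) (b (b (l 16776840) (l 16776680)) (b (l 16776472) (l 16776192))))) (b (b (l 16776704) (l 16776528)) (b (l 16776296) (l 16776000)))))) (b (b (a (a (l 3) (l 536236671)) (a (a (a (l 535223423) (l 535262079)) (a (l 535313023) (l 535360639))) (a (a (a (l 16776112) (l 16776024)) (l 16775888)) (l 16775632)))) (a (a (l 3) (l 534979455)) (a (a (a (l 535036031) (l 1)) (l 1)) (l 1)))) (l 1))))), by decide +kernel⟩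

def k16_B04pp_123_s1 : ∃ t, chk3 f_B04pp_123_s1 t 21 14 1 = true :=
  ⟨(a (b (b (l 536709983) (a (b (b (l 536495967) (l 16776440)) (b (l 16776256) (l 16776048))) (b (l 16775760) (l 16775016)))) (a (a (b (b (b (l 16776192) (l 16775944)) (l 16778072)) (b (l 16774512) (l 1))) (b (b (l 16775240) (l 16774368)) (l 1))) (b (b (l 16774088) (l 16772856)) (l 1)))) (b (b (l 16776560) (l 16774336)) (b (l 16771216) (l 1)))), by decide +kernel⟩

def k17_B04pp_123_s1 : ∃ t, chk3 f_B04pp_123_s1 t 10 15 1 = true :=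
  ⟨(a (b (a (l 3) (l 1)) (l 1)) (l 1)), by decide +kernel⟩

def k18_B04pp_123_s1 : ∃ t, chk3 f_B04pp_123_s1 t 11 7 1 = true :=
  ⟨(b (b (a (b (l 16777296) (l 16773328)) (l 47815086423)) (l 1)) (l 1)), by decide +kernel⟩

def k19_B04pp_123_s1 : ∃ t, chk3 f_B04pp_123_s1 t 3 7 1 = true :=
  ⟨(l 1), by decide +kernel⟩

theorem t20_B04pp_123_s1 : ∃ t, chk3 f_B04pp_123_s1 t 20 14 1 = true := ex3_b k14_B04pp_123_s1 k15_B04pp_123_s1

theorem t21_B04pp_123_s1 : ∃ t, chk3 f_B04pp_123_s1 t 10 14 1 = true := ex3_a t20_B04pp_123_s1 k16_B04pp_123_s1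

theorem t22_B04pp_123_s1 : ∃ t, chk3 f_B04pp_123_s1 t 10 7 1 = true := ex3_b t21_B04pp_123_s1 k17_B04pp_123_s1

theorem t23_B04pp_123_s1 : ∃ t, chk3 f_B04pp_123_s1 t 5 7 1 = true := ex3_a t22_B04pp_123_s1 k18_B04pp_123_s1

theorem t24_B04pp_123_s1 : ∃ t, chk3 f_B04pp_123_s1 t 2 7 1 = true := ex3_a k13_B04pp_123_s1 t23_B04pp_123_s1

theorem t25_B04pp_123_s1 : ∃ t, chk3 f_B04pp_123_s1 t 1 7 1 = true := ex3_a t24_B04pp_123_s1 k19_B04pp_123_s1

theorem t26_B04pp_123_s1 : ∃ t, chk3 f_B04pp_123_s1 t 670 13 1 = true := ex3_a k7_B04pp_123_s1 k8_B04pp_123_s1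

theorem t27_B04pp_123_s1 : ∃ t, chk3 f_B04pp_123_s1 t 335 13 1 = true := ex3_a t26_B04pp_123_s1 k9_B04pp_123_s1

theorem t28_B04pp_123_s1 : ∃ t, chk3 f_B04pp_123_s1 t 167 13 1 = true := ex3_a k6_B04pp_123_s1 t27_B04pp_123_s1

theorem t29_B04pp_123_s1 : ∃ t, chk3 f_B04pp_123_s1 t 83 13 1 = true := ex3_a k5_B04pp_123_s1 t28_B04pp_123_s1

theorem t30_B04pp_123_s1 : ∃ t, chk3 f_B04pp_123_s1 t 83 6 1 = true := ex3_b k4_B04pp_123_s1 t29_B04pp_123_s1

theorem t31_B04pp_123_s1 : ∃ t, chk3 f_B04pp_123_s1 t 41 6 1 = true := ex3_a k3_B04pp_123_s1 t30_B04pp_123_s1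

theorem t32_B04pp_123_s1 : ∃ t, chk3 f_B04pp_123_s1 t 20 6 1 = true := ex3_a k2_B04pp_123_s1 t31_B04pp_123_s1

theorem t33_B04pp_123_s1 : ∃ t, chk3 f_B04pp_123_s1 t 10 6 1 = true := ex3_a t32_B04pp_123_s1 k10_B04pp_123_s1

theorem t34_B04pp_123_s1 : ∃ t, chk3 f_B04pp_123_s1 t 5 6 1 = true := ex3_a t33_B04pp_123_s1 k11_B04pp_123_s1

theorem t35_B04pp_123_s1 : ∃ t, chk3 f_B04pp_123_s1 t 2 6 1 = true := ex3_a k1_B04pp_123_s1 t34_B04pp_123_s1

theorem t36_B04pp_123_s1 : ∃ t, chk3 f_B04pp_123_s1 t 1 6 1 = true := ex3_a t35_B04pp_123_s1 k12_B04pp_123_s1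

theorem t37_B04pp_123_s1 : ∃ t, chk3 f_B04pp_123_s1 t 1 3 1 = true := ex3_b t36_B04pp_123_s1 t25_B04pp_123_s1

theorem t38_B04pp_123_s1 : ∃ t, chk3 f_B04pp_123_s1 t 1 1 1 = true := ex3_b k0_B04pp_123_s1 t37_B04pp_123_s1

theorem c_B04pp_123_s1 : CertF 536870912 536870912 0 1230186008 469762048 67108864 false true true .npn 1 2 3
    ndF0q1 ndF4q3 pcF2 cut_B04pp_123_s1 xt_B04pp_123_s1 :=
  certF2 (fam := false) (s1 := true) (s2 := true) (a := 1) (b := 2) (c := 3) (cn := .npn) (n1 := ndF0q1) (n2 := ndF4q3) (pc := pcF2) (cut := cut_B04pp_123_s1) (xt := xt_B04pp_123_s1) (P1 := 536870912) (W1 := 536870912) (P2 := 0) (W2 := 1230186008) (P3 := 469762048) (W3 := 67108864)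
    rfl (fun _ => rfl) t38_B04pp_123_s1

theorem s_B04pp_123_s1 {κ x : ℝ} (hκ : κ * h0 = ken x) (hx : ((469762048 : ℕ) : ℝ) / S ≤ x)
    (hx' : x ≤ (((469762048 : ℕ) : ℝ) + (67108864 : ℕ)) / S)
    (H : CutB (VF κ) PP tKF tL pcF (Cut.of [[⟨0, 1, 0, 67108864⟩, ⟨1, 1, 0, 67108864⟩, ⟨2, 2, 0, 16777216⟩]]) 1 2 3 0 4 (sgb true) (sgb true) x) :
    AltB (VF κ) PP tKF tL pcF [⟨3, 0, 0, 1449551462⟩] 1 2 3 0 4 (sgb true) (sgb true) x :=
  strip_altB (m := 1449551462) true rfl hκ covF01 covF43 hx hx' c_B04pp_123_s1 H ((okx hx hx').extB (T := tt) (sideF hx hx') hκ rfl rfl (.O 1 true) (.N 3 true) rfl)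

noncomputable def cut_B04pp_133_s1 : Cut := Cut.of [[⟨4, 0, 0, 1449551462⟩]]

noncomputable def f_B04pp_133_s1 : ℕ → ℕ → ℕ → ℕ → Bool := onCell 1610612736 536870912 0 1230186008 469762048 67108864
    (rowF 2 false true true .dn 1 3 3 (qsf 536870912 536870912 0 1230186008 3) ndF0q1 ndF4q3 pcF3 cut_B04pp_133_s1 Ext.none)

def k0_B04pp_133_s1 : ∃ t, chk3 f_B04pp_133_s1 t 1 1 1 = true :=
  ⟨(b (l 6) (l 1)), by decide +kernel⟩

theorem c_B04pp_133_s1 : CertF 536870912 536870912 0 1230186008 469762048 67108864 false true true .dn 1 3 3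
    ndF0q1 ndF4q3 pcF3 cut_B04pp_133_s1 Ext.none :=
  certF2 (fam := false) (s1 := true) (s2 := true) (a := 1) (b := 3) (c := 3) (cn := .dn) (n1 := ndF0q1) (n2 := ndF4q3) (pc := pcF3) (cut := cut_B04pp_133_s1) (xt := Ext.none) (P1 := 536870912) (W1 := 536870912) (P2 := 0) (W2 := 1230186008) (P3 := 469762048) (W3 := 67108864)
    rfl (fun _ => rfl) k0_B04pp_133_s1

theorem s_B04pp_133_s1 {κ x : ℝ} (hκ : κ * h0 = ken x) (hx : ((469762048 : ℕ) : ℝ) / S ≤ x)
    (hx' : x ≤ (((469762048 : ℕ) : ℝ) + (67108864 : ℕ)) / S) :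
    AltB (VF κ) PP tKF tL pcF [⟨3, 0, 0, 1449551462⟩] 1 3 3 0 4 (sgb true) (sgb true) x :=
  strip_altB (m := 1449551462) true rfl hκ covF01 covF43 hx hx' c_B04pp_133_s1 cutB_nil (noExt_B)

noncomputable def cut_B04pp_202_s1 : Cut := Cut.of [[⟨4, 0, 0, 1449551462⟩]]

noncomputable def f_B04pp_202_s1 : ℕ → ℕ → ℕ → ℕ → Bool := onCell 0 536870912 1073741824 536870912 469762048 67108864
    (rowF 0 false true true .pp 2 0 2 (qsf 0 536870912 1073741824 536870912 0) ndF0q2 ndF4q2 pcF0 cut_B04pp_202_s1 Ext.none)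

def k0_B04pp_202_s1 : ∃ t, chk3 f_B04pp_202_s1 t 1 1 1 = true :=
  ⟨(l 5), by decide +kernel⟩

theorem c_B04pp_202_s1 : CertF 0 536870912 1073741824 536870912 469762048 67108864 false true true .pp 2 0 2
    ndF0q2 ndF4q2 pcF0 cut_B04pp_202_s1 Ext.none :=
  certF0 (fam := false) (s1 := true) (s2 := true) (a := 2) (b := 0) (c := 2) (cn := .pp) (n1 := ndF0q2) (n2 := ndF4q2) (pc := pcF0) (cut := cut_B04pp_202_s1) (xt := Ext.none) (P1 := 0) (W1 := 536870912) (P2 := 1073741824) (W2 := 536870912) (P3 := 469762048) (W3 := 67108864)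
    rfl k0_B04pp_202_s1

theorem s_B04pp_202_s1 {κ x : ℝ} (hκ : κ * h0 = ken x) (hx : ((469762048 : ℕ) : ℝ) / S ≤ x)
    (hx' : x ≤ (((469762048 : ℕ) : ℝ) + (67108864 : ℕ)) / S) :
    AltB (VF κ) PP tKF tL pcF [⟨3, 0, 0, 1449551462⟩] 2 0 2 0 4 (sgb true) (sgb true) x :=
  strip_altB (m := 1449551462) true rfl hκ covF02 covF42 hx hx' c_B04pp_202_s1 cutB_nil (noExt_B)

noncomputable def cut_B04pp_203_s1 : Cut := Cut.of [[⟨4, 0, 0, 1449551462⟩]]

noncomputable def f_B04pp_203_s1 : ℕ → ℕ → ℕ → ℕ → Bool := onCell 0 536870912 0 1230186008 469762048 67108864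
    (rowF 0 false true true .up 2 0 3 (qsf 0 536870912 0 1230186008 0) ndF0q2 ndF4q3 pcF0 cut_B04pp_203_s1 Ext.none)

def k0_B04pp_203_s1 : ∃ t, chk3 f_B04pp_203_s1 t 1 1 1 = true :=
  ⟨(b (l 2) (b (l 2) (a (l 5) (l 3)))), by decide +kernel⟩

theorem c_B04pp_203_s1 : CertF 0 536870912 0 1230186008 469762048 67108864 false true true .up 2 0 3
    ndF0q2 ndF4q3 pcF0 cut_B04pp_203_s1 Ext.none :=
  certF0 (fam := false) (s1 := true) (s2 := true) (a := 2) (b := 0) (c := 3) (cn := .up) (n1 := ndF0q2) (n2 := ndF4q3) (pc := pcF0) (cut := cut_B04pp_203_s1) (xt := Ext.none) (P1 := 0) (W1 := 536870912) (P2 := 0) (W2 := 1230186008) (P3 := 469762048) (W3 := 67108864)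
    rfl k0_B04pp_203_s1

theorem s_B04pp_203_s1 {κ x : ℝ} (hκ : κ * h0 = ken x) (hx : ((469762048 : ℕ) : ℝ) / S ≤ x)
    (hx' : x ≤ (((469762048 : ℕ) : ℝ) + (67108864 : ℕ)) / S) :
    AltB (VF κ) PP tKF tL pcF [⟨3, 0, 0, 1449551462⟩] 2 0 3 0 4 (sgb true) (sgb true) x :=
  strip_altB (m := 1449551462) true rfl hκ covF02 covF43 hx hx' c_B04pp_203_s1 cutB_nil (noExt_B)

noncomputable def cut_B04pp_213_s1 : Cut := Cut.of [[⟨4, 0, 0, 1449551462⟩], [⟨0, 1, 0, 67108864⟩, ⟨1, 1, 0, 67108864⟩, ⟨2, 2, 0, 16777216⟩]]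

noncomputable def f_B04pp_213_s1 : ℕ → ℕ → ℕ → ℕ → Bool := onCell 0 536870912 0 1230186008 469762048 67108864
    (rowF 0 false true true .pnn 2 1 3 (qsf 0 536870912 0 1230186008 1) ndF0q2 ndF4q3 pcF1 cut_B04pp_213_s1 Ext.none)

def k0_B04pp_213_s1 : ∃ t, chk3 f_B04pp_213_s1 t 1 1 1 = true :=
  ⟨(a (b (l 3) (l 5)) (b (b (a (l 3) (b (a (l 3) (l 14)) (l 3))) (l 3)) (b (l 3) (l 3)))), by decide +kernel⟩

theorem c_B04pp_213_s1 : CertF 0 536870912 0 1230186008 469762048 67108864 false true true .pnn 2 1 3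
    ndF0q2 ndF4q3 pcF1 cut_B04pp_213_s1 Ext.none :=
  certF0 (fam := false) (s1 := true) (s2 := true) (a := 2) (b := 1) (c := 3) (cn := .pnn) (n1 := ndF0q2) (n2 := ndF4q3) (pc := pcF1) (cut := cut_B04pp_213_s1) (xt := Ext.none) (P1 := 0) (W1 := 536870912) (P2 := 0) (W2 := 1230186008) (P3 := 469762048) (W3 := 67108864)
    rfl k0_B04pp_213_s1

theorem s_B04pp_213_s1 {κ x : ℝ} (hκ : κ * h0 = ken x) (hx : ((469762048 : ℕ) : ℝ) / S ≤ x)
    (hx' : x ≤ (((469762048 : ℕ) : ℝ) + (67108864 : ℕ)) / S)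
    (H : CutB (VF κ) PP tKF tL pcF (Cut.of [[⟨0, 1, 0, 67108864⟩, ⟨1, 1, 0, 67108864⟩, ⟨2, 2, 0, 16777216⟩]]) 2 1 3 0 4 (sgb true) (sgb true) x) :
    AltB (VF κ) PP tKF tL pcF [⟨3, 0, 0, 1449551462⟩] 2 1 3 0 4 (sgb true) (sgb true) x :=
  strip_altB (m := 1449551462) true rfl hκ covF02 covF43 hx hx' c_B04pp_213_s1 H (noExt_B)

noncomputable def cut_B04pm_001_s1 : Cut := Cut.of [[⟨4, 0, 0, 1449551462⟩]]

noncomputable def f_B04pm_001_s1 : ℕ → ℕ → ℕ → ℕ → Bool := onCell 0 536870912 536870912 536870912 469762048 67108864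
    (rowF 0 false true false .up 0 0 1 (qsf 0 536870912 536870912 536870912 0) ndF0q0 ndF4q1 pcF0 cut_B04pm_001_s1 Ext.none)

def k0_B04pm_001_s1 : ∃ t, chk3 f_B04pm_001_s1 t 1 1 1 = true :=
  ⟨(l 4), by decide +kernel⟩

theorem c_B04pm_001_s1 : CertF 0 536870912 536870912 536870912 469762048 67108864 false true false .up 0 0 1
    ndF0q0 ndF4q1 pcF0 cut_B04pm_001_s1 Ext.none :=
  certF0 (fam := false) (s1 := true) (s2 := false) (a := 0) (b := 0) (c := 1) (cn := .up) (n1 := ndF0q0) (n2 := ndF4q1) (pc := pcF0) (cut := cut_B04pm_001_s1) (xt := Ext.none) (P1 := 0) (W1 := 536870912) (P2 := 536870912) (W2 := 536870912) (P3 := 469762048) (W3 := 67108864)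
    rfl k0_B04pm_001_s1

theorem s_B04pm_001_s1 {κ x : ℝ} (hκ : κ * h0 = ken x) (hx : ((469762048 : ℕ) : ℝ) / S ≤ x)
    (hx' : x ≤ (((469762048 : ℕ) : ℝ) + (67108864 : ℕ)) / S) :
    AltB (VF κ) PP tKF tL pcF [⟨3, 0, 0, 1449551462⟩] 0 0 1 0 4 (sgb true) (sgb false) x :=
  strip_altB (m := 1449551462) true rfl hκ covF00 covF41 hx hx' c_B04pm_001_s1 cutB_nil (noExt_B)

noncomputable def cut_B04pm_011_s1 : Cut := Cut.of [[⟨4, 0, 0, 1449551462⟩]]

noncomputable def f_B04pm_011_s1 : ℕ → ℕ → ℕ → ℕ → Bool := onCell 0 536870912 536870912 536870912 469762048 67108864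
    (rowF 0 false true false .pnn 0 1 1 (qsf 0 536870912 536870912 536870912 1) ndF0q0 ndF4q1 pcF1 cut_B04pm_011_s1 Ext.none)

def k0_B04pm_011_s1 : ∃ t, chk3 f_B04pm_011_s1 t 1 1 1 = true :=
  ⟨(l 4), by decide +kernel⟩

theorem c_B04pm_011_s1 : CertF 0 536870912 536870912 536870912 469762048 67108864 false true false .pnn 0 1 1
    ndF0q0 ndF4q1 pcF1 cut_B04pm_011_s1 Ext.none :=
  certF0 (fam := false) (s1 := true) (s2 := false) (a := 0) (b := 1) (c := 1) (cn := .pnn) (n1 := ndF0q0) (n2 := ndF4q1) (pc := pcF1) (cut := cut_B04pm_011_s1) (xt := Ext.none) (P1 := 0) (W1 := 536870912) (P2 := 536870912) (W2 := 536870912) (P3 := 469762048) (W3 := 67108864)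
    rfl k0_B04pm_011_s1

theorem s_B04pm_011_s1 {κ x : ℝ} (hκ : κ * h0 = ken x) (hx : ((469762048 : ℕ) : ℝ) / S ≤ x)
    (hx' : x ≤ (((469762048 : ℕ) : ℝ) + (67108864 : ℕ)) / S) :
    AltB (VF κ) PP tKF tL pcF [⟨3, 0, 0, 1449551462⟩] 0 1 1 0 4 (sgb true) (sgb false) x :=
  strip_altB (m := 1449551462) true rfl hκ covF00 covF41 hx hx' c_B04pm_011_s1 cutB_nil (noExt_B)

noncomputable def cut_B04pm_012_s1 : Cut := Cut.of [[⟨4, 0, 0, 1449551462⟩]]

noncomputable def f_B04pm_012_s1 : ℕ → ℕ → ℕ → ℕ → Bool := onCell 0 536870912 1073741824 536870912 469762048 67108864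
    (rowF 0 false true false .pnp 0 1 2 (qsf 0 536870912 1073741824 536870912 1) ndF0q0 ndF4q2 pcF1 cut_B04pm_012_s1 Ext.none)

def k0_B04pm_012_s1 : ∃ t, chk3 f_B04pm_012_s1 t 1 1 1 = true :=
  ⟨(l 4), by decide +kernel⟩

theorem c_B04pm_012_s1 : CertF 0 536870912 1073741824 536870912 469762048 67108864 false true false .pnp 0 1 2
    ndF0q0 ndF4q2 pcF1 cut_B04pm_012_s1 Ext.none :=
  certF0 (fam := false) (s1 := true) (s2 := false) (a := 0) (b := 1) (c := 2) (cn := .pnp) (n1 := ndF0q0) (n2 := ndF4q2) (pc := pcF1) (cut := cut_B04pm_012_s1) (xt := Ext.none) (P1 := 0) (W1 := 536870912) (P2 := 1073741824) (W2 := 536870912) (P3 := 469762048) (W3 := 67108864)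
    rfl k0_B04pm_012_s1

theorem s_B04pm_012_s1 {κ x : ℝ} (hκ : κ * h0 = ken x) (hx : ((469762048 : ℕ) : ℝ) / S ≤ x)
    (hx' : x ≤ (((469762048 : ℕ) : ℝ) + (67108864 : ℕ)) / S) :
    AltB (VF κ) PP tKF tL pcF [⟨3, 0, 0, 1449551462⟩] 0 1 2 0 4 (sgb true) (sgb false) x :=
  strip_altB (m := 1449551462) true rfl hκ covF00 covF42 hx hx' c_B04pm_012_s1 cutB_nil (noExt_B)

noncomputable def cut_B04pm_022_s1 : Cut := Cut.of [[⟨4, 0, 0, 1449551462⟩]]

noncomputable def f_B04pm_022_s1 : ℕ → ℕ → ℕ → ℕ → Bool := onCell 0 536870912 1073741824 536870912 469762048 67108864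
    (rowF 0 false true false .pp 0 2 2 (qsf 0 536870912 1073741824 536870912 2) ndF0q0 ndF4q2 pcF2 cut_B04pm_022_s1 Ext.none)

def k0_B04pm_022_s1 : ∃ t, chk3 f_B04pm_022_s1 t 1 1 1 = true :=
  ⟨(l 4), by decide +kernel⟩

theorem c_B04pm_022_s1 : CertF 0 536870912 1073741824 536870912 469762048 67108864 false true false .pp 0 2 2
    ndF0q0 ndF4q2 pcF2 cut_B04pm_022_s1 Ext.none :=
  certF0 (fam := false) (s1 := true) (s2 := false) (a := 0) (b := 2) (c := 2) (cn := .pp) (n1 := ndF0q0) (n2 := ndF4q2) (pc := pcF2) (cut := cut_B04pm_022_s1) (xt := Ext.none) (P1 := 0) (W1 := 536870912) (P2 := 1073741824) (W2 := 536870912) (P3 := 469762048) (W3 := 67108864)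
    rfl k0_B04pm_022_s1

theorem s_B04pm_022_s1 {κ x : ℝ} (hκ : κ * h0 = ken x) (hx : ((469762048 : ℕ) : ℝ) / S ≤ x)
    (hx' : x ≤ (((469762048 : ℕ) : ℝ) + (67108864 : ℕ)) / S) :
    AltB (VF κ) PP tKF tL pcF [⟨3, 0, 0, 1449551462⟩] 0 2 2 0 4 (sgb true) (sgb false) x :=
  strip_altB (m := 1449551462) true rfl hκ covF00 covF42 hx hx' c_B04pm_022_s1 cutB_nil (noExt_B)

noncomputable def cut_B04pm_023_s1 : Cut := Cut.of [[⟨4, 0, 0, 1449551462⟩]]

noncomputable def f_B04pm_023_s1 : ℕ → ℕ → ℕ → ℕ → Bool := onCell 0 536870912 0 1230186008 469762048 67108864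
    (rowF 0 false true false .up 0 2 3 (qsf 0 536870912 0 1230186008 2) ndF0q0 ndF4q3 pcF2 cut_B04pm_023_s1 Ext.none)

def k0_B04pm_023_s1 : ∃ t, chk3 f_B04pm_023_s1 t 1 1 1 = true :=
  ⟨(l 6), by decide +kernel⟩

theorem c_B04pm_023_s1 : CertF 0 536870912 0 1230186008 469762048 67108864 false true false .up 0 2 3
    ndF0q0 ndF4q3 pcF2 cut_B04pm_023_s1 Ext.none :=
  certF0 (fam := false) (s1 := true) (s2 := false) (a := 0) (b := 2) (c := 3) (cn := .up) (n1 := ndF0q0) (n2 := ndF4q3) (pc := pcF2) (cut := cut_B04pm_023_s1) (xt := Ext.none) (P1 := 0) (W1 := 536870912) (P2 := 0) (W2 := 1230186008) (P3 := 469762048) (W3 := 67108864)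
    rfl k0_B04pm_023_s1

theorem s_B04pm_023_s1 {κ x : ℝ} (hκ : κ * h0 = ken x) (hx : ((469762048 : ℕ) : ℝ) / S ≤ x)
    (hx' : x ≤ (((469762048 : ℕ) : ℝ) + (67108864 : ℕ)) / S) :
    AltB (VF κ) PP tKF tL pcF [⟨3, 0, 0, 1449551462⟩] 0 2 3 0 4 (sgb true) (sgb false) x :=
  strip_altB (m := 1449551462) true rfl hκ covF00 covF43 hx hx' c_B04pm_023_s1 cutB_nil (noExt_B)

noncomputable def cut_B04pm_033_s1 : Cut := Cut.of [[⟨4, 0, 0, 1449551462⟩]]

noncomputable def f_B04pm_033_s1 : ℕ → ℕ → ℕ → ℕ → Bool := onCell 0 536870912 0 1230186008 469762048 67108864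
    (rowF 0 false true false .pnn 0 3 3 (qsf 0 536870912 0 1230186008 3) ndF0q0 ndF4q3 pcF3 cut_B04pm_033_s1 Ext.none)

def k0_B04pm_033_s1 : ∃ t, chk3 f_B04pm_033_s1 t 1 1 1 = true :=
  ⟨(l 6), by decide +kernel⟩

theorem c_B04pm_033_s1 : CertF 0 536870912 0 1230186008 469762048 67108864 false true false .pnn 0 3 3
    ndF0q0 ndF4q3 pcF3 cut_B04pm_033_s1 Ext.none :=
  certF0 (fam := false) (s1 := true) (s2 := false) (a := 0) (b := 3) (c := 3) (cn := .pnn) (n1 := ndF0q0) (n2 := ndF4q3) (pc := pcF3) (cut := cut_B04pm_033_s1) (xt := Ext.none) (P1 := 0) (W1 := 536870912) (P2 := 0) (W2 := 1230186008) (P3 := 469762048) (W3 := 67108864)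
    rfl k0_B04pm_033_s1

theorem s_B04pm_033_s1 {κ x : ℝ} (hκ : κ * h0 = ken x) (hx : ((469762048 : ℕ) : ℝ) / S ≤ x)
    (hx' : x ≤ (((469762048 : ℕ) : ℝ) + (67108864 : ℕ)) / S) :
    AltB (VF κ) PP tKF tL pcF [⟨3, 0, 0, 1449551462⟩] 0 3 3 0 4 (sgb true) (sgb false) x :=
  strip_altB (m := 1449551462) true rfl hκ covF00 covF43 hx hx' c_B04pm_033_s1 cutB_nil (noExt_B)

noncomputable def cut_B04pm_101_s1 : Cut := Cut.of [[⟨4, 0, 0, 1449551462⟩]]

noncomputable def f_B04pm_101_s1 : ℕ → ℕ → ℕ → ℕ → Bool := onCell 536870912 536870912 536870912 536870912 469762048 67108864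
    (rowF 0 false true false .npn 1 0 1 (qsf 536870912 536870912 536870912 536870912 0) ndF0q1 ndF4q1 pcF0 cut_B04pm_101_s1 Ext.none)

def k0_B04pm_101_s1 : ∃ t, chk3 f_B04pm_101_s1 t 1 1 1 = true :=
  ⟨(l 4), by decide +kernel⟩

theorem c_B04pm_101_s1 : CertF 536870912 536870912 536870912 536870912 469762048 67108864 false true false .npn 1 0 1
    ndF0q1 ndF4q1 pcF0 cut_B04pm_101_s1 Ext.none :=
  certF0 (fam := false) (s1 := true) (s2 := false) (a := 1) (b := 0) (c := 1) (cn := .npn) (n1 := ndF0q1) (n2 := ndF4q1) (pc := pcF0) (cut := cut_B04pm_101_s1) (xt := Ext.none) (P1 := 536870912) (W1 := 536870912) (P2 := 536870912) (W2 := 536870912) (P3 := 469762048) (W3 := 67108864)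
    rfl k0_B04pm_101_s1

theorem s_B04pm_101_s1 {κ x : ℝ} (hκ : κ * h0 = ken x) (hx : ((469762048 : ℕ) : ℝ) / S ≤ x)
    (hx' : x ≤ (((469762048 : ℕ) : ℝ) + (67108864 : ℕ)) / S) :
    AltB (VF κ) PP tKF tL pcF [⟨3, 0, 0, 1449551462⟩] 1 0 1 0 4 (sgb true) (sgb false) x :=
  strip_altB (m := 1449551462) true rfl hκ covF01 covF41 hx hx' c_B04pm_101_s1 cutB_nil (noExt_B)

noncomputable def cut_B04pm_102_s1 : Cut := Cut.of [[⟨4, 0, 0, 1449551462⟩]]

noncomputable def f_B04pm_102_s1 : ℕ → ℕ → ℕ → ℕ → Bool := onCell 536870912 536870912 1073741824 536870912 469762048 67108864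
    (rowF 0 false true false .npp 1 0 2 (qsf 536870912 536870912 1073741824 536870912 0) ndF0q1 ndF4q2 pcF0 cut_B04pm_102_s1 Ext.none)

def k0_B04pm_102_s1 : ∃ t, chk3 f_B04pm_102_s1 t 1 1 1 = true :=
  ⟨(l 6), by decide +kernel⟩

theorem c_B04pm_102_s1 : CertF 536870912 536870912 1073741824 536870912 469762048 67108864 false true false .npp 1 0 2
    ndF0q1 ndF4q2 pcF0 cut_B04pm_102_s1 Ext.none :=
  certF0 (fam := false) (s1 := true) (s2 := false) (a := 1) (b := 0) (c := 2) (cn := .npp) (n1 := ndF0q1) (n2 := ndF4q2) (pc := pcF0) (cut := cut_B04pm_102_s1) (xt := Ext.none) (P1 := 536870912) (W1 := 536870912) (P2 := 1073741824) (W2 := 536870912) (P3 := 469762048) (W3 := 67108864)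
    rfl k0_B04pm_102_s1

theorem s_B04pm_102_s1 {κ x : ℝ} (hκ : κ * h0 = ken x) (hx : ((469762048 : ℕ) : ℝ) / S ≤ x)
    (hx' : x ≤ (((469762048 : ℕ) : ℝ) + (67108864 : ℕ)) / S) :
    AltB (VF κ) PP tKF tL pcF [⟨3, 0, 0, 1449551462⟩] 1 0 2 0 4 (sgb true) (sgb false) x :=
  strip_altB (m := 1449551462) true rfl hκ covF01 covF42 hx hx' c_B04pm_102_s1 cutB_nil (noExt_B)

noncomputable def cut_B04pm_112_s1 : Cut := Cut.of [[⟨4, 0, 0, 1449551462⟩]]

noncomputable def f_B04pm_112_s1 : ℕ → ℕ → ℕ → ℕ → Bool := onCell 536870912 536870912 1073741824 536870912 469762048 67108864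
    (rowF 0 false true false .dn 1 1 2 (qsf 536870912 536870912 1073741824 536870912 1) ndF0q1 ndF4q2 pcF1 cut_B04pm_112_s1 Ext.none)

def k0_B04pm_112_s1 : ∃ t, chk3 f_B04pm_112_s1 t 1 1 1 = true :=
  ⟨(l 6), by decide +kernel⟩

theorem c_B04pm_112_s1 : CertF 536870912 536870912 1073741824 536870912 469762048 67108864 false true false .dn 1 1 2
    ndF0q1 ndF4q2 pcF1 cut_B04pm_112_s1 Ext.none :=
  certF0 (fam := false) (s1 := true) (s2 := false) (a := 1) (b := 1) (c := 2) (cn := .dn) (n1 := ndF0q1) (n2 := ndF4q2) (pc := pcF1) (cut := cut_B04pm_112_s1) (xt := Ext.none) (P1 := 536870912) (W1 := 536870912) (P2 := 1073741824) (W2 := 536870912) (P3 := 469762048) (W3 := 67108864)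
    rfl k0_B04pm_112_s1

theorem s_B04pm_112_s1 {κ x : ℝ} (hκ : κ * h0 = ken x) (hx : ((469762048 : ℕ) : ℝ) / S ≤ x)
    (hx' : x ≤ (((469762048 : ℕ) : ℝ) + (67108864 : ℕ)) / S) :
    AltB (VF κ) PP tKF tL pcF [⟨3, 0, 0, 1449551462⟩] 1 1 2 0 4 (sgb true) (sgb false) x :=
  strip_altB (m := 1449551462) true rfl hκ covF01 covF42 hx hx' c_B04pm_112_s1 cutB_nil (noExt_B)

noncomputable def cut_B04pm_113_s1 : Cut := Cut.of [[⟨4, 0, 0, 1449551462⟩], [⟨0, 1, 0, 67108864⟩, ⟨1, 1, 0, 67108864⟩, ⟨2, 2, 0, 16777216⟩]]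

noncomputable def f_B04pm_113_s1 : ℕ → ℕ → ℕ → ℕ → Bool := onCell 536870912 536870912 0 1230186008 469762048 67108864
    (rowF 0 false true false .nn 1 1 3 (qsf 536870912 536870912 0 1230186008 1) ndF0q1 ndF4q3 pcF1 cut_B04pm_113_s1 Ext.none)

def k0_B04pm_113_s1 : ∃ t, chk3 f_B04pm_113_s1 t 1 1 1 = true :=
  ⟨(b (a (l 2) (a (l 2) (b (a (l 2) (a (l 2) (b (l 14) (l 16800776)))) (a (l 6) (b (l 16837368) (l 6)))))) (b (l 6) (l 6))), by decide +kernel⟩

theorem c_B04pm_113_s1 : CertF 536870912 536870912 0 1230186008 469762048 67108864 false true false .nn 1 1 3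
    ndF0q1 ndF4q3 pcF1 cut_B04pm_113_s1 Ext.none :=
  certF0 (fam := false) (s1 := true) (s2 := false) (a := 1) (b := 1) (c := 3) (cn := .nn) (n1 := ndF0q1) (n2 := ndF4q3) (pc := pcF1) (cut := cut_B04pm_113_s1) (xt := Ext.none) (P1 := 536870912) (W1 := 536870912) (P2 := 0) (W2 := 1230186008) (P3 := 469762048) (W3 := 67108864)
    rfl k0_B04pm_113_s1

theorem s_B04pm_113_s1 {κ x : ℝ} (hκ : κ * h0 = ken x) (hx : ((469762048 : ℕ) : ℝ) / S ≤ x)
    (hx' : x ≤ (((469762048 : ℕ) : ℝ) + (67108864 : ℕ)) / S)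
    (H : CutB (VF κ) PP tKF tL pcF (Cut.of [[⟨0, 1, 0, 67108864⟩, ⟨1, 1, 0, 67108864⟩, ⟨2, 2, 0, 16777216⟩]]) 1 1 3 0 4 (sgb true) (sgb false) x) :
    AltB (VF κ) PP tKF tL pcF [⟨3, 0, 0, 1449551462⟩] 1 1 3 0 4 (sgb true) (sgb false) x :=
  strip_altB (m := 1449551462) true rfl hκ covF01 covF43 hx hx' c_B04pm_113_s1 H (noExt_B)

noncomputable def cut_B04pm_123_s1 : Cut := Cut.of [[⟨4, 0, 0, 1449551462⟩], [⟨0, 1, 0, 67108864⟩, ⟨1, 1, 0, 67108864⟩, ⟨2, 2, 0, 16777216⟩]]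

noncomputable def f_B04pm_123_s1 : ℕ → ℕ → ℕ → ℕ → Bool := onCell 1073741824 536870912 0 1230186008 469762048 67108864
    (rowF 2 false true false .npn 1 2 3 (qsf 536870912 536870912 0 1230186008 2) ndF0q1 ndF4q3 pcF2 cut_B04pm_123_s1 Ext.none)

def k0_B04pm_123_s1 : ∃ t, chk3 f_B04pm_123_s1 t 1 1 1 = true :=
  ⟨(b (a (a (b (a (b (a (l 14) (l 16788496)) (b (l 16803768) (l 16820552))) (b (l 16792776) (l 6))) (b (l 6) (l 6))) (b (b (l 6) (l 6)) (l 6))) (l 6)) (l 6)), by decide +kernel⟩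

theorem c_B04pm_123_s1 : CertF 536870912 536870912 0 1230186008 469762048 67108864 false true false .npn 1 2 3
    ndF0q1 ndF4q3 pcF2 cut_B04pm_123_s1 Ext.none :=
  certF2 (fam := false) (s1 := true) (s2 := false) (a := 1) (b := 2) (c := 3) (cn := .npn) (n1 := ndF0q1) (n2 := ndF4q3) (pc := pcF2) (cut := cut_B04pm_123_s1) (xt := Ext.none) (P1 := 536870912) (W1 := 536870912) (P2 := 0) (W2 := 1230186008) (P3 := 469762048) (W3 := 67108864)
    rfl (fun _ => rfl) k0_B04pm_123_s1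

theorem s_B04pm_123_s1 {κ x : ℝ} (hκ : κ * h0 = ken x) (hx : ((469762048 : ℕ) : ℝ) / S ≤ x)
    (hx' : x ≤ (((469762048 : ℕ) : ℝ) + (67108864 : ℕ)) / S)
    (H : CutB (VF κ) PP tKF tL pcF (Cut.of [[⟨0, 1, 0, 67108864⟩, ⟨1, 1, 0, 67108864⟩, ⟨2, 2, 0, 16777216⟩]]) 1 2 3 0 4 (sgb true) (sgb false) x) :
    AltB (VF κ) PP tKF tL pcF [⟨3, 0, 0, 1449551462⟩] 1 2 3 0 4 (sgb true) (sgb false) x :=
  strip_altB (m := 1449551462) true rfl hκ covF01 covF43 hx hx' c_B04pm_123_s1 H (noExt_B)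

noncomputable def cut_B04pm_133_s1 : Cut := Cut.of [[⟨4, 0, 0, 1449551462⟩]]

noncomputable def f_B04pm_133_s1 : ℕ → ℕ → ℕ → ℕ → Bool := onCell 1610612736 536870912 0 1230186008 469762048 67108864
    (rowF 2 false true false .dn 1 3 3 (qsf 536870912 536870912 0 1230186008 3) ndF0q1 ndF4q3 pcF3 cut_B04pm_133_s1 Ext.none)

def k0_B04pm_133_s1 : ∃ t, chk3 f_B04pm_133_s1 t 1 1 1 = true :=
  ⟨(l 6), by decide +kernel⟩

theorem c_B04pm_133_s1 : CertF 536870912 536870912 0 1230186008 469762048 67108864 false true false .dn 1 3 3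
    ndF0q1 ndF4q3 pcF3 cut_B04pm_133_s1 Ext.none :=
  certF2 (fam := false) (s1 := true) (s2 := false) (a := 1) (b := 3) (c := 3) (cn := .dn) (n1 := ndF0q1) (n2 := ndF4q3) (pc := pcF3) (cut := cut_B04pm_133_s1) (xt := Ext.none) (P1 := 536870912) (W1 := 536870912) (P2 := 0) (W2 := 1230186008) (P3 := 469762048) (W3 := 67108864)
    rfl (fun _ => rfl) k0_B04pm_133_s1

theorem s_B04pm_133_s1 {κ x : ℝ} (hκ : κ * h0 = ken x) (hx : ((469762048 : ℕ) : ℝ) / S ≤ x)
    (hx' : x ≤ (((469762048 : ℕ) : ℝ) + (67108864 : ℕ)) / S) :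
    AltB (VF κ) PP tKF tL pcF [⟨3, 0, 0, 1449551462⟩] 1 3 3 0 4 (sgb true) (sgb false) x :=
  strip_altB (m := 1449551462) true rfl hκ covF01 covF43 hx hx' c_B04pm_133_s1 cutB_nil (noExt_B)

noncomputable def cut_B04pm_202_s1 : Cut := Cut.of [[⟨4, 0, 0, 1449551462⟩]]

noncomputable def f_B04pm_202_s1 : ℕ → ℕ → ℕ → ℕ → Bool := onCell 0 536870912 1073741824 536870912 469762048 67108864
    (rowF 0 false true false .pp 2 0 2 (qsf 0 536870912 1073741824 536870912 0) ndF0q2 ndF4q2 pcF0 cut_B04pm_202_s1 Ext.none)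

def k0_B04pm_202_s1 : ∃ t, chk3 f_B04pm_202_s1 t 1 1 1 = true :=
  ⟨(a (b (l 6) (b (l 6) (l 6))) (l 6)), by decide +kernel⟩

theorem c_B04pm_202_s1 : CertF 0 536870912 1073741824 536870912 469762048 67108864 false true false .pp 2 0 2
    ndF0q2 ndF4q2 pcF0 cut_B04pm_202_s1 Ext.none :=
  certF0 (fam := false) (s1 := true) (s2 := false) (a := 2) (b := 0) (c := 2) (cn := .pp) (n1 := ndF0q2) (n2 := ndF4q2) (pc := pcF0) (cut := cut_B04pm_202_s1) (xt := Ext.none) (P1 := 0) (W1 := 536870912) (P2 := 1073741824) (W2 := 536870912) (P3 := 469762048) (W3 := 67108864)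
    rfl k0_B04pm_202_s1

theorem s_B04pm_202_s1 {κ x : ℝ} (hκ : κ * h0 = ken x) (hx : ((469762048 : ℕ) : ℝ) / S ≤ x)
    (hx' : x ≤ (((469762048 : ℕ) : ℝ) + (67108864 : ℕ)) / S) :
    AltB (VF κ) PP tKF tL pcF [⟨3, 0, 0, 1449551462⟩] 2 0 2 0 4 (sgb true) (sgb false) x :=
  strip_altB (m := 1449551462) true rfl hκ covF02 covF42 hx hx' c_B04pm_202_s1 cutB_nil (noExt_B)

noncomputable def cut_B04pm_203_s1 : Cut := Cut.of [[⟨4, 0, 0, 1449551462⟩]]

noncomputable def f_B04pm_203_s1 : ℕ → ℕ → ℕ → ℕ → Bool := onCell 0 536870912 0 1230186008 469762048 67108864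
    (rowF 0 false true false .up 2 0 3 (qsf 0 536870912 0 1230186008 0) ndF0q2 ndF4q3 pcF0 cut_B04pm_203_s1 Ext.none)

def k0_B04pm_203_s1 : ∃ t, chk3 f_B04pm_203_s1 t 1 1 1 = true :=
  ⟨(b (l 2) (b (l 2) (a (b (b (l 2) (a (a (l 295916679655) (l 16770120)) (a (l 16780768) (l 6)))) (a (a (b (l 16756152) (l 16746656)) (b (l 16930088) (l 6))) (l 6))) (l 6)))), by decide +kernel⟩

theorem c_B04pm_203_s1 : CertF 0 536870912 0 1230186008 469762048 67108864 false true false .up 2 0 3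
    ndF0q2 ndF4q3 pcF0 cut_B04pm_203_s1 Ext.none :=
  certF0 (fam := false) (s1 := true) (s2 := false) (a := 2) (b := 0) (c := 3) (cn := .up) (n1 := ndF0q2) (n2 := ndF4q3) (pc := pcF0) (cut := cut_B04pm_203_s1) (xt := Ext.none) (P1 := 0) (W1 := 536870912) (P2 := 0) (W2 := 1230186008) (P3 := 469762048) (W3 := 67108864)
    rfl k0_B04pm_203_s1

theorem s_B04pm_203_s1 {κ x : ℝ} (hκ : κ * h0 = ken x) (hx : ((469762048 : ℕ) : ℝ) / S ≤ x)
    (hx' : x ≤ (((469762048 : ℕ) : ℝ) + (67108864 : ℕ)) / S) :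
    AltB (VF κ) PP tKF tL pcF [⟨3, 0, 0, 1449551462⟩] 2 0 3 0 4 (sgb true) (sgb false) x :=
  strip_altB (m := 1449551462) true rfl hκ covF02 covF43 hx hx' c_B04pm_203_s1 cutB_nil (noExt_B)

noncomputable def cut_B04pm_213_s1 : Cut := Cut.of [[⟨4, 0, 0, 1449551462⟩], [⟨0, 1, 0, 67108864⟩, ⟨1, 1, 0, 67108864⟩, ⟨2, 2, 0, 16777216⟩]]

noncomputable def xt_B04pm_213_s1 : Ext := strExt dd false true false .u2 .s2m .u0m .pnn 2 1 3 rfl rfl gf1 vv ndF0q2 ndF4q3

noncomputable def f_B04pm_213_s1 : ℕ → ℕ → ℕ → ℕ → Bool := onCell 0 536870912 0 1230186008 469762048 67108864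
    (rowF 0 false true false .pnn 2 1 3 (qsf 0 536870912 0 1230186008 1) ndF0q2 ndF4q3 pcF1 cut_B04pm_213_s1 xt_B04pm_213_s1)

def k0_B04pm_213_s1 : ∃ t, chk3 f_B04pm_213_s1 t 1 1 1 = true :=
  ⟨(b (a (b (l 3) (a (l 3) (b (l 3) (a (b (l 3) (l 537446671)) (l 537715471))))) (b (a (a (l 3) (b (l 3) (a (l 3) (l 537264399)))) (b (a (a (l 3) (l 14)) (l 14)) (a (a (b (l 537221903) (l 537329167)) (b (a (l 537227023) (l 14)) (l 16785528))) (b (b (l 14) (l 16828768)) (l 16794216))))) (a (a (b (a (l 537383183) (l 537400079)) (b (l 537464591) (l 537501711))) (b (a (l 537420047) (l 538517007)) (b (l 16797584) (l 16809152)))) (b (a (a (b (l 16788240) (l 16798616)) (l 16801376)) (l 16898736)) (a (l 16824288) (l 16850936)))))) (b (a (a (b (a (l 3) (l 538994447)) (a (b (a (l 3) (l 537252879)) (a (l 537156367) (l 537177615))) (b (b (l 537319439) (l 537281807)) (b (l 537204239) (l 16785336))))) (b (a (b (l 537446415) (l 537415695))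 (b (l 537476623) (l 16796224))) (b (a (b (l 16788400) (l 16791264)) (l 16803464)) (l 16843608)))) (a (b (b (l 16875080) (l 16823752)) (b (l 16837712) (l 6))) (b (l 6) (l 6)))) (a (b (b (a (a (a (l 537085967) (b (l 16781472) (l 16783072))) (l 16787976)) (a (l 16798960) (l 6))) (a (a (b (l 16783824) (l 16789048)) (l 16796656)) (l 16934536))) (a (l 1) (l 6))) (l 6)))), by decide +kernel⟩

theorem c_B04pm_213_s1 : CertF 0 536870912 0 1230186008 469762048 67108864 false true false .pnn 2 1 3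
    ndF0q2 ndF4q3 pcF1 cut_B04pm_213_s1 xt_B04pm_213_s1 :=
  certF0 (fam := false) (s1 := true) (s2 := false) (a := 2) (b := 1) (c := 3) (cn := .pnn) (n1 := ndF0q2) (n2 := ndF4q3) (pc := pcF1) (cut := cut_B04pm_213_s1) (xt := xt_B04pm_213_s1) (P1 := 0) (W1 := 536870912) (P2 := 0) (W2 := 1230186008) (P3 := 469762048) (W3 := 67108864)
    rfl k0_B04pm_213_s1

theorem s_B04pm_213_s1 {κ x : ℝ} (hκ : κ * h0 = ken x) (hx : ((469762048 : ℕ) : ℝ) / S ≤ x)
    (hx' : x ≤ (((469762048 : ℕ) : ℝ) + (67108864 : ℕ)) / S)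
    (H : CutB (VF κ) PP tKF tL pcF (Cut.of [[⟨0, 1, 0, 67108864⟩, ⟨1, 1, 0, 67108864⟩, ⟨2, 2, 0, 16777216⟩]]) 2 1 3 0 4 (sgb true) (sgb false) x) :
    AltB (VF κ) PP tKF tL pcF [⟨3, 0, 0, 1449551462⟩] 2 1 3 0 4 (sgb true) (sgb false) x :=
  strip_altB (m := 1449551462) true rfl hκ covF02 covF43 hx hx' c_B04pm_213_s1 H ((okx hx hx').extB (T := tt) (sideF hx hx') hκ rfl rfl (.O 2 true) (.N 3 false) (Or.inr rfl))

noncomputable def cut_B04mm_001_s1 : Cut := Cut.of [[⟨4, 0, 0, 1449551462⟩]]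

noncomputable def f_B04mm_001_s1 : ℕ → ℕ → ℕ → ℕ → Bool := onCell 0 536870912 0 536870912 469762048 67108864
    (rowF 1 false false false .up 0 0 1 (qsf 0 536870912 536870912 536870912 0) ndF0q0 ndF4q1 pcF0 cut_B04mm_001_s1 Ext.none)

def k0_B04mm_001_s1 : ∃ t, chk3 f_B04mm_001_s1 t 1 1 1 = true :=
  ⟨(l 3), by decide +kernel⟩

theorem c_B04mm_001_s1 : CertF 0 536870912 536870912 536870912 469762048 67108864 false false false .up 0 0 1
    ndF0q0 ndF4q1 pcF0 cut_B04mm_001_s1 Ext.none :=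
  certF1 (fam := false) (s1 := false) (s2 := false) (a := 0) (b := 0) (c := 1) (cn := .up) (n1 := ndF0q0) (n2 := ndF4q1) (pc := pcF0) (cut := cut_B04mm_001_s1) (xt := Ext.none) (P1 := 0) (W1 := 536870912) (P2 := 536870912) (W2 := 536870912) (P3 := 469762048) (W3 := 67108864)
    rfl (fun _ => rfl) k0_B04mm_001_s1

theorem s_B04mm_001_s1 {κ x : ℝ} (hκ : κ * h0 = ken x) (hx : ((469762048 : ℕ) : ℝ) / S ≤ x)
    (hx' : x ≤ (((469762048 : ℕ) : ℝ) + (67108864 : ℕ)) / S) :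
    AltB (VF κ) PP tKF tL pcF [⟨3, 0, 0, 1449551462⟩] 0 0 1 0 4 (sgb false) (sgb false) x :=
  strip_altB (m := 1449551462) true rfl hκ covF00 covF41 hx hx' c_B04mm_001_s1 cutB_nil (noExt_B)

noncomputable def cut_B04mm_011_s1 : Cut := Cut.of [[⟨4, 0, 0, 1449551462⟩]]

noncomputable def f_B04mm_011_s1 : ℕ → ℕ → ℕ → ℕ → Bool := onCell 0 536870912 536870912 536870912 469762048 67108864
    (rowF 1 false false false .pnn 0 1 1 (qsf 0 536870912 536870912 536870912 1) ndF0q0 ndF4q1 pcF1 cut_B04mm_011_s1 Ext.none)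

def k0_B04mm_011_s1 : ∃ t, chk3 f_B04mm_011_s1 t 1 1 1 = true :=
  ⟨(l 5), by decide +kernel⟩

theorem c_B04mm_011_s1 : CertF 0 536870912 536870912 536870912 469762048 67108864 false false false .pnn 0 1 1
    ndF0q0 ndF4q1 pcF1 cut_B04mm_011_s1 Ext.none :=
  certF1 (fam := false) (s1 := false) (s2 := false) (a := 0) (b := 1) (c := 1) (cn := .pnn) (n1 := ndF0q0) (n2 := ndF4q1) (pc := pcF1) (cut := cut_B04mm_011_s1) (xt := Ext.none) (P1 := 0) (W1 := 536870912) (P2 := 536870912) (W2 := 536870912) (P3 := 469762048) (W3 := 67108864)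
    rfl (fun _ => rfl) k0_B04mm_011_s1

theorem s_B04mm_011_s1 {κ x : ℝ} (hκ : κ * h0 = ken x) (hx : ((469762048 : ℕ) : ℝ) / S ≤ x)
    (hx' : x ≤ (((469762048 : ℕ) : ℝ) + (67108864 : ℕ)) / S) :
    AltB (VF κ) PP tKF tL pcF [⟨3, 0, 0, 1449551462⟩] 0 1 1 0 4 (sgb false) (sgb false) x :=
  strip_altB (m := 1449551462) true rfl hκ covF00 covF41 hx hx' c_B04mm_011_s1 cutB_nil (noExt_B)

noncomputable def cut_B04mm_012_s1 : Cut := Cut.of [[⟨4, 0, 0, 1449551462⟩]]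

noncomputable def f_B04mm_012_s1 : ℕ → ℕ → ℕ → ℕ → Bool := onCell 0 536870912 1073741824 536870912 469762048 67108864
    (rowF 0 false false false .pnp 0 1 2 (qsf 0 536870912 1073741824 536870912 1) ndF0q0 ndF4q2 pcF1 cut_B04mm_012_s1 Ext.none)

def k0_B04mm_012_s1 : ∃ t, chk3 f_B04mm_012_s1 t 1 1 1 = true :=
  ⟨(l 5), by decide +kernel⟩

theorem c_B04mm_012_s1 : CertF 0 536870912 1073741824 536870912 469762048 67108864 false false false .pnp 0 1 2
    ndF0q0 ndF4q2 pcF1 cut_B04mm_012_s1 Ext.none :=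
  certF0 (fam := false) (s1 := false) (s2 := false) (a := 0) (b := 1) (c := 2) (cn := .pnp) (n1 := ndF0q0) (n2 := ndF4q2) (pc := pcF1) (cut := cut_B04mm_012_s1) (xt := Ext.none) (P1 := 0) (W1 := 536870912) (P2 := 1073741824) (W2 := 536870912) (P3 := 469762048) (W3 := 67108864)
    rfl k0_B04mm_012_s1

theorem s_B04mm_012_s1 {κ x : ℝ} (hκ : κ * h0 = ken x) (hx : ((469762048 : ℕ) : ℝ) / S ≤ x)
    (hx' : x ≤ (((469762048 : ℕ) : ℝ) + (67108864 : ℕ)) / S) :
    AltB (VF κ) PP tKF tL pcF [⟨3, 0, 0, 1449551462⟩] 0 1 2 0 4 (sgb false) (sgb false) x :=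
  strip_altB (m := 1449551462) true rfl hκ covF00 covF42 hx hx' c_B04mm_012_s1 cutB_nil (noExt_B)

noncomputable def cut_B04mm_022_s1 : Cut := Cut.of [[⟨4, 0, 0, 1449551462⟩]]

noncomputable def f_B04mm_022_s1 : ℕ → ℕ → ℕ → ℕ → Bool := onCell 0 536870912 1073741824 536870912 469762048 67108864
    (rowF 0 false false false .pp 0 2 2 (qsf 0 536870912 1073741824 536870912 2) ndF0q0 ndF4q2 pcF2 cut_B04mm_022_s1 Ext.none)

def k0_B04mm_022_s1 : ∃ t, chk3 f_B04mm_022_s1 t 1 1 1 = true :=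
  ⟨(l 5), by decide +kernel⟩

theorem c_B04mm_022_s1 : CertF 0 536870912 1073741824 536870912 469762048 67108864 false false false .pp 0 2 2
    ndF0q0 ndF4q2 pcF2 cut_B04mm_022_s1 Ext.none :=
  certF0 (fam := false) (s1 := false) (s2 := false) (a := 0) (b := 2) (c := 2) (cn := .pp) (n1 := ndF0q0) (n2 := ndF4q2) (pc := pcF2) (cut := cut_B04mm_022_s1) (xt := Ext.none) (P1 := 0) (W1 := 536870912) (P2 := 1073741824) (W2 := 536870912) (P3 := 469762048) (W3 := 67108864)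
    rfl k0_B04mm_022_s1

theorem s_B04mm_022_s1 {κ x : ℝ} (hκ : κ * h0 = ken x) (hx : ((469762048 : ℕ) : ℝ) / S ≤ x)
    (hx' : x ≤ (((469762048 : ℕ) : ℝ) + (67108864 : ℕ)) / S) :
    AltB (VF κ) PP tKF tL pcF [⟨3, 0, 0, 1449551462⟩] 0 2 2 0 4 (sgb false) (sgb false) x :=
  strip_altB (m := 1449551462) true rfl hκ covF00 covF42 hx hx' c_B04mm_022_s1 cutB_nil (noExt_B)

noncomputable def cut_B04mm_023_s1 : Cut := Cut.of [[⟨4, 0, 0, 1449551462⟩]]

noncomputable def f_B04mm_023_s1 : ℕ → ℕ → ℕ → ℕ → Bool := onCell 0 536870912 0 1230186008 469762048 67108864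
    (rowF 0 false false false .up 0 2 3 (qsf 0 536870912 0 1230186008 2) ndF0q0 ndF4q3 pcF2 cut_B04mm_023_s1 Ext.none)

def k0_B04mm_023_s1 : ∃ t, chk3 f_B04mm_023_s1 t 1 1 1 = true :=
  ⟨(l 5), by decide +kernel⟩

theorem c_B04mm_023_s1 : CertF 0 536870912 0 1230186008 469762048 67108864 false false false .up 0 2 3
    ndF0q0 ndF4q3 pcF2 cut_B04mm_023_s1 Ext.none :=
  certF0 (fam := false) (s1 := false) (s2 := false) (a := 0) (b := 2) (c := 3) (cn := .up) (n1 := ndF0q0) (n2 := ndF4q3) (pc := pcF2) (cut := cut_B04mm_023_s1) (xt := Ext.none) (P1 := 0) (W1 := 536870912) (P2 := 0) (W2 := 1230186008) (P3 := 469762048) (W3 := 67108864)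
    rfl k0_B04mm_023_s1

theorem s_B04mm_023_s1 {κ x : ℝ} (hκ : κ * h0 = ken x) (hx : ((469762048 : ℕ) : ℝ) / S ≤ x)
    (hx' : x ≤ (((469762048 : ℕ) : ℝ) + (67108864 : ℕ)) / S) :
    AltB (VF κ) PP tKF tL pcF [⟨3, 0, 0, 1449551462⟩] 0 2 3 0 4 (sgb false) (sgb false) x :=
  strip_altB (m := 1449551462) true rfl hκ covF00 covF43 hx hx' c_B04mm_023_s1 cutB_nil (noExt_B)

noncomputable def cut_B04mm_033_s1 : Cut := Cut.of [[⟨4, 0, 0, 1449551462⟩]]

noncomputable def f_B04mm_033_s1 : ℕ → ℕ → ℕ → ℕ → Bool := onCell 0 536870912 0 1230186008 469762048 67108864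
    (rowF 0 false false false .pnn 0 3 3 (qsf 0 536870912 0 1230186008 3) ndF0q0 ndF4q3 pcF3 cut_B04mm_033_s1 Ext.none)

def k0_B04mm_033_s1 : ∃ t, chk3 f_B04mm_033_s1 t 1 1 1 = true :=
  ⟨(l 5), by decide +kernel⟩

theorem c_B04mm_033_s1 : CertF 0 536870912 0 1230186008 469762048 67108864 false false false .pnn 0 3 3
    ndF0q0 ndF4q3 pcF3 cut_B04mm_033_s1 Ext.none :=
  certF0 (fam := false) (s1 := false) (s2 := false) (a := 0) (b := 3) (c := 3) (cn := .pnn) (n1 := ndF0q0) (n2 := ndF4q3) (pc := pcF3) (cut := cut_B04mm_033_s1) (xt := Ext.none) (P1 := 0) (W1 := 536870912) (P2 := 0) (W2 := 1230186008) (P3 := 469762048) (W3 := 67108864)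
    rfl k0_B04mm_033_s1

theorem s_B04mm_033_s1 {κ x : ℝ} (hκ : κ * h0 = ken x) (hx : ((469762048 : ℕ) : ℝ) / S ≤ x)
    (hx' : x ≤ (((469762048 : ℕ) : ℝ) + (67108864 : ℕ)) / S) :
    AltB (VF κ) PP tKF tL pcF [⟨3, 0, 0, 1449551462⟩] 0 3 3 0 4 (sgb false) (sgb false) x :=
  strip_altB (m := 1449551462) true rfl hκ covF00 covF43 hx hx' c_B04mm_033_s1 cutB_nil (noExt_B)

noncomputable def cut_B04mm_101_s1 : Cut := Cut.of [[⟨4, 0, 0, 1449551462⟩], [⟨0, 1, 0, 67108864⟩, ⟨1, 0, 0, 67108864⟩, ⟨2, 1, 0, 67108864⟩]]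

noncomputable def f_B04mm_101_s1 : ℕ → ℕ → ℕ → ℕ → Bool := onCell 536870912 536870912 0 536870912 469762048 67108864
    (rowF 1 false false false .npn 1 0 1 (qsf 536870912 536870912 536870912 536870912 0) ndF0q1 ndF4q1 pcF0 cut_B04mm_101_s1 Ext.none)

def k0_B04mm_101_s1 : ∃ t, chk3 f_B04mm_101_s1 t 1 1 1 = true :=
  ⟨(a (l 3) (b (b (a (l 3) (a (l 3) (b (a (l 3) (b (l 14) (l 3))) (l 3)))) (l 3)) (l 3))), by decide +kernel⟩

theorem c_B04mm_101_s1 : CertF 536870912 536870912 536870912 536870912 469762048 67108864 false false false .npn 1 0 1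
    ndF0q1 ndF4q1 pcF0 cut_B04mm_101_s1 Ext.none :=
  certF1 (fam := false) (s1 := false) (s2 := false) (a := 1) (b := 0) (c := 1) (cn := .npn) (n1 := ndF0q1) (n2 := ndF4q1) (pc := pcF0) (cut := cut_B04mm_101_s1) (xt := Ext.none) (P1 := 536870912) (W1 := 536870912) (P2 := 536870912) (W2 := 536870912) (P3 := 469762048) (W3 := 67108864)
    rfl (fun _ => rfl) k0_B04mm_101_s1

theorem s_B04mm_101_s1 {κ x : ℝ} (hκ : κ * h0 = ken x) (hx : ((469762048 : ℕ) : ℝ) / S ≤ x)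
    (hx' : x ≤ (((469762048 : ℕ) : ℝ) + (67108864 : ℕ)) / S)
    (H : CutB (VF κ) PP tKF tL pcF (Cut.of [[⟨0, 1, 0, 67108864⟩, ⟨1, 0, 0, 67108864⟩, ⟨2, 1, 0, 67108864⟩]]) 1 0 1 0 4 (sgb false) (sgb false) x) :
    AltB (VF κ) PP tKF tL pcF [⟨3, 0, 0, 1449551462⟩] 1 0 1 0 4 (sgb false) (sgb false) x :=
  strip_altB (m := 1449551462) true rfl hκ covF01 covF41 hx hx' c_B04mm_101_s1 H (noExt_B)

noncomputable def cut_B04mm_102_s1 : Cut := Cut.of [[⟨4, 0, 0, 1449551462⟩], [⟨0, 1, 0, 67108864⟩, ⟨1, 0, 0, 67108864⟩, ⟨2, 1, 0, 67108864⟩]]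

noncomputable def f_B04mm_102_s1 : ℕ → ℕ → ℕ → ℕ → Bool := onCell 536870912 536870912 0 536870912 469762048 67108864
    (rowF 1 false false false .npp 1 0 2 (qsf 536870912 536870912 1073741824 536870912 0) ndF0q1 ndF4q2 pcF0 cut_B04mm_102_s1 Ext.none)

def k0_B04mm_102_s1 : ∃ t, chk3 f_B04mm_102_s1 t 1 1 1 = true :=
  ⟨(a (l 3) (b (a (l 3) (b (a (l 3) (b (a (l 3) (b (l 14) (l 3))) (l 3))) (l 3))) (l 3))), by decide +kernel⟩

theorem c_B04mm_102_s1 : CertF 536870912 536870912 1073741824 536870912 469762048 67108864 false false false .npp 1 0 2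
    ndF0q1 ndF4q2 pcF0 cut_B04mm_102_s1 Ext.none :=
  certF1 (fam := false) (s1 := false) (s2 := false) (a := 1) (b := 0) (c := 2) (cn := .npp) (n1 := ndF0q1) (n2 := ndF4q2) (pc := pcF0) (cut := cut_B04mm_102_s1) (xt := Ext.none) (P1 := 536870912) (W1 := 536870912) (P2 := 1073741824) (W2 := 536870912) (P3 := 469762048) (W3 := 67108864)
    rfl (fun _ => rfl) k0_B04mm_102_s1

theorem s_B04mm_102_s1 {κ x : ℝ} (hκ : κ * h0 = ken x) (hx : ((469762048 : ℕ) : ℝ) / S ≤ x)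
    (hx' : x ≤ (((469762048 : ℕ) : ℝ) + (67108864 : ℕ)) / S)
    (H : CutB (VF κ) PP tKF tL pcF (Cut.of [[⟨0, 1, 0, 67108864⟩, ⟨1, 0, 0, 67108864⟩, ⟨2, 1, 0, 67108864⟩]]) 1 0 2 0 4 (sgb false) (sgb false) x) :
    AltB (VF κ) PP tKF tL pcF [⟨3, 0, 0, 1449551462⟩] 1 0 2 0 4 (sgb false) (sgb false) x :=
  strip_altB (m := 1449551462) true rfl hκ covF01 covF42 hx hx' c_B04mm_102_s1 H (noExt_B)

noncomputable def cut_B04mm_112_s1 : Cut := Cut.of [[⟨4, 0, 0, 1449551462⟩]]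

noncomputable def f_B04mm_112_s1 : ℕ → ℕ → ℕ → ℕ → Bool := onCell 536870912 536870912 1073741824 536870912 469762048 67108864
    (rowF 2 false false false .dn 1 1 2 (qsf 536870912 536870912 1073741824 536870912 1) ndF0q1 ndF4q2 pcF1 cut_B04mm_112_s1 Ext.none)

def k0_B04mm_112_s1 : ∃ t, chk3 f_B04mm_112_s1 t 1 1 1 = true :=
  ⟨(a (l 3) (l 5)), by decide +kernel⟩

theorem c_B04mm_112_s1 : CertF 536870912 536870912 1073741824 536870912 469762048 67108864 false false false .dn 1 1 2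
    ndF0q1 ndF4q2 pcF1 cut_B04mm_112_s1 Ext.none :=
  certF2 (fam := false) (s1 := false) (s2 := false) (a := 1) (b := 1) (c := 2) (cn := .dn) (n1 := ndF0q1) (n2 := ndF4q2) (pc := pcF1) (cut := cut_B04mm_112_s1) (xt := Ext.none) (P1 := 536870912) (W1 := 536870912) (P2 := 1073741824) (W2 := 536870912) (P3 := 469762048) (W3 := 67108864)
    rfl (fun _ => rfl) k0_B04mm_112_s1

theorem s_B04mm_112_s1 {κ x : ℝ} (hκ : κ * h0 = ken x) (hx : ((469762048 : ℕ) : ℝ) / S ≤ x)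
    (hx' : x ≤ (((469762048 : ℕ) : ℝ) + (67108864 : ℕ)) / S) :
    AltB (VF κ) PP tKF tL pcF [⟨3, 0, 0, 1449551462⟩] 1 1 2 0 4 (sgb false) (sgb false) x :=
  strip_altB (m := 1449551462) true rfl hκ covF01 covF42 hx hx' c_B04mm_112_s1 cutB_nil (noExt_B)

noncomputable def cut_B04mm_113_s1 : Cut := Cut.of [[⟨4, 0, 0, 1449551462⟩]]

noncomputable def f_B04mm_113_s1 : ℕ → ℕ → ℕ → ℕ → Bool := onCell 536870912 536870912 0 1230186008 469762048 67108864
    (rowF 0 false false false .nn 1 1 3 (qsf 536870912 536870912 0 1230186008 1) ndF0q1 ndF4q3 pcF1 cut_B04mm_113_s1 Ext.none)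

def k0_B04mm_113_s1 : ∃ t, chk3 f_B04mm_113_s1 t 1 1 1 = true :=
  ⟨(b (l 5) (a (l 5) (b (a (l 5) (l 3)) (l 3)))), by decide +kernel⟩

theorem c_B04mm_113_s1 : CertF 536870912 536870912 0 1230186008 469762048 67108864 false false false .nn 1 1 3
    ndF0q1 ndF4q3 pcF1 cut_B04mm_113_s1 Ext.none :=
  certF0 (fam := false) (s1 := false) (s2 := false) (a := 1) (b := 1) (c := 3) (cn := .nn) (n1 := ndF0q1) (n2 := ndF4q3) (pc := pcF1) (cut := cut_B04mm_113_s1) (xt := Ext.none) (P1 := 536870912) (W1 := 536870912) (P2 := 0) (W2 := 1230186008) (P3 := 469762048) (W3 := 67108864)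
    rfl k0_B04mm_113_s1

theorem s_B04mm_113_s1 {κ x : ℝ} (hκ : κ * h0 = ken x) (hx : ((469762048 : ℕ) : ℝ) / S ≤ x)
    (hx' : x ≤ (((469762048 : ℕ) : ℝ) + (67108864 : ℕ)) / S) :
    AltB (VF κ) PP tKF tL pcF [⟨3, 0, 0, 1449551462⟩] 1 1 3 0 4 (sgb false) (sgb false) x :=
  strip_altB (m := 1449551462) true rfl hκ covF01 covF43 hx hx' c_B04mm_113_s1 cutB_nil (noExt_B)

noncomputable def cut_B04mm_123_s1 : Cut := Cut.of [[⟨4, 0, 0, 1449551462⟩]]

noncomputable def f_B04mm_123_s1 : ℕ → ℕ → ℕ → ℕ → Bool := onCell 1073741824 536870912 0 1230186008 469762048 67108864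
    (rowF 2 false false false .npn 1 2 3 (qsf 536870912 536870912 0 1230186008 2) ndF0q1 ndF4q3 pcF2 cut_B04mm_123_s1 Ext.none)

def k0_B04mm_123_s1 : ∃ t, chk3 f_B04mm_123_s1 t 1 1 1 = true :=
  ⟨(b (l 5) (l 5)), by decide +kernel⟩

theorem c_B04mm_123_s1 : CertF 536870912 536870912 0 1230186008 469762048 67108864 false false false .npn 1 2 3
    ndF0q1 ndF4q3 pcF2 cut_B04mm_123_s1 Ext.none :=
  certF2 (fam := false) (s1 := false) (s2 := false) (a := 1) (b := 2) (c := 3) (cn := .npn) (n1 := ndF0q1) (n2 := ndF4q3) (pc := pcF2) (cut := cut_B04mm_123_s1) (xt := Ext.none) (P1 := 536870912) (W1 := 536870912) (P2 := 0) (W2 := 1230186008) (P3 := 469762048) (W3 := 67108864)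
    rfl (fun _ => rfl) k0_B04mm_123_s1

theorem s_B04mm_123_s1 {κ x : ℝ} (hκ : κ * h0 = ken x) (hx : ((469762048 : ℕ) : ℝ) / S ≤ x)
    (hx' : x ≤ (((469762048 : ℕ) : ℝ) + (67108864 : ℕ)) / S) :
    AltB (VF κ) PP tKF tL pcF [⟨3, 0, 0, 1449551462⟩] 1 2 3 0 4 (sgb false) (sgb false) x :=
  strip_altB (m := 1449551462) true rfl hκ covF01 covF43 hx hx' c_B04mm_123_s1 cutB_nil (noExt_B)

noncomputable def cut_B04mm_133_s1 : Cut := Cut.of [[⟨4, 0, 0, 1449551462⟩]]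

noncomputable def f_B04mm_133_s1 : ℕ → ℕ → ℕ → ℕ → Bool := onCell 1610612736 536870912 0 1230186008 469762048 67108864
    (rowF 2 false false false .dn 1 3 3 (qsf 536870912 536870912 0 1230186008 3) ndF0q1 ndF4q3 pcF3 cut_B04mm_133_s1 Ext.none)

def k0_B04mm_133_s1 : ∃ t, chk3 f_B04mm_133_s1 t 1 1 1 = true :=
  ⟨(l 5), by decide +kernel⟩

theorem c_B04mm_133_s1 : CertF 536870912 536870912 0 1230186008 469762048 67108864 false false false .dn 1 3 3
    ndF0q1 ndF4q3 pcF3 cut_B04mm_133_s1 Ext.none :=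
  certF2 (fam := false) (s1 := false) (s2 := false) (a := 1) (b := 3) (c := 3) (cn := .dn) (n1 := ndF0q1) (n2 := ndF4q3) (pc := pcF3) (cut := cut_B04mm_133_s1) (xt := Ext.none) (P1 := 536870912) (W1 := 536870912) (P2 := 0) (W2 := 1230186008) (P3 := 469762048) (W3 := 67108864)
    rfl (fun _ => rfl) k0_B04mm_133_s1

theorem s_B04mm_133_s1 {κ x : ℝ} (hκ : κ * h0 = ken x) (hx : ((469762048 : ℕ) : ℝ) / S ≤ x)
    (hx' : x ≤ (((469762048 : ℕ) : ℝ) + (67108864 : ℕ)) / S) :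
    AltB (VF κ) PP tKF tL pcF [⟨3, 0, 0, 1449551462⟩] 1 3 3 0 4 (sgb false) (sgb false) x :=
  strip_altB (m := 1449551462) true rfl hκ covF01 covF43 hx hx' c_B04mm_133_s1 cutB_nil (noExt_B)

noncomputable def cut_B04mm_202_s1 : Cut := Cut.of [[⟨4, 0, 0, 1449551462⟩], [⟨0, 1, 0, 67108864⟩, ⟨1, 0, 0, 67108864⟩, ⟨2, 1, 0, 67108864⟩]]

noncomputable def xt_B04mm_202_s1 : Ext := strExt dd false false false .u2 .s2m .u0m .pp 2 0 2 rfl rfl gf0 vv ndF0q2 ndF4q2

noncomputable def f_B04mm_202_s1 : ℕ → ℕ → ℕ → ℕ → Bool := onCell 0 536870912 0 536870912 469762048 67108864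
    (rowF 1 false false false .pp 2 0 2 (qsf 0 536870912 1073741824 536870912 0) ndF0q2 ndF4q2 pcF0 cut_B04mm_202_s1 xt_B04mm_202_s1)

def k0_B04mm_202_s1 : ∃ t, chk3 f_B04mm_202_s1 t 2 1 1 = true :=
  ⟨(b (b (a (l 6) (b (a (l 6) (b (l 6) (l 16654280))) (a (b (l 6) (l 16644592)) (l 16646408)))) (a (b (l 6) (a (l 6) (b (l 16655752) (l 16667376)))) (b (a (l 16649080) (b (a (l 16650456) (l 16658400)) (a (l 16661576) (l 16677016)))) (a (b (l 16664304) (l 16687344)) (b (a (l 16684488) (l 16698816)) (l 16838440)))))) (a (b (a (b (l 16837896) (l 16726048)) (b (b (l 16689616) (l 16708624)) (l 16805680))) (l 2)) (b (a (b (b (l 16705080) (l 16721608)) (a (b (l 16729480) (l 16742928)) (l 534590223))) (b (a (l 534371855) (l 534072847)) (a (l 534272015) (l 533934607)))) (a (l 2) (a (l 2) (l 3)))))), by decide +kernel⟩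

def k1_B04mm_202_s1 : ∃ t, chk3 f_B04mm_202_s1 t 3 4 1 = true :=
  ⟨(a (b (a (b (a (l 16654720) (l 16745112)) (l 16653880)) (b (b (a (l 16663224) (l 16671888)) (l 16668816)) (a (l 16665888) (l 16679968)))) (a (b (l 16656016) (b (l 16661224) (l 16665160))) (a (b (b (l 16670904) (l 16675000)) (a (l 16768392) (l 16781464))) (b (b (a (l 16682840) (l 16691968)) (l 16781984)) (b (l 16794568) (l 16766728)))))) (b (a (b (a (b (l 16685744) (l 16690504)) (b (b (l 16745576) (l 16707056)) (a (l 16706176) (l 16718624)))) (a (b (l 16695976) (a (l 16777112) (l 16792168))) (a (b (b (l 16711296) (l 16714560)) (a (l 16803952) (l 16770376))) (b (b (l 16766264) (l 16772872)) (b (l 16779912) (l 16766592)))))) (b (a (b (l 14) (a (b (l 14) (a (l 16730824) (l 16780976))) (l 14))) (l 14)) (a (a (b (a (b (l 16778920) (l 16744320)) (l 531481103)) (a (l 531317775) (l 531220239))) (a (b (a (l 531151631) (l 531103759)) (a (l 531157775) (l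 531108879))) (a (b (l 531055375) (l 531059471)) (b (l 531005967) (l 3))))) (b (a (a (b (l 14) (a (l 530946319) (l 3))) (l 3)) (l 3)) (l 3))))) (a (a (b (a (b (l 16789912) (l 16719536)) (b (l 16721376) (l 16778128))) (a (l 532112143) (l 531926287))) (a (b (a (l 531741711) (l 531648783)) (l 532270607)) (b (a (l 531554575) (l 531458319)) (a (l 531596559) (l 3))))) (b (a (a (a (l 531897103) (a (l 531292943) (l 531243535))) (l 3)) (l 3)) (l 3))))), by decide +kernel⟩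

def k2_B04mm_202_s1 : ∃ t, chk3 f_B04mm_202_s1 t 3 5 1 = true :=
  ⟨(a (a (b (a (b (l 16671080) (l 16694472)) (b (l 16818824) (l 16800760))) (a (l 533674511) (l 534151183))) (b (a (b (l 532798991) (l 532876815)) (a (l 533416207) (l 534039055))) (a (b (l 532942607) (l 532990735)) (a (l 532717071) (l 3))))) (b (a (a (a (b (l 532176655) (l 532237071)) (b (l 531985423) (l 3))) (l 3)) (l 3)) (l 3))), by decide +kernel⟩

def k3_B04mm_202_s1 : ∃ t, chk3 f_B04mm_202_s1 t 3 3 1 = true :=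
  ⟨(b (a (a (b (a (l 533752335) (l 535018511)) (l 3)) (l 3)) (l 3)) (l 3)), by decide +kernel⟩

theorem t4_B04mm_202_s1 : ∃ t, chk3 f_B04mm_202_s1 t 3 2 1 = true := ex3_b k1_B04mm_202_s1 k2_B04mm_202_s1

theorem t5_B04mm_202_s1 : ∃ t, chk3 f_B04mm_202_s1 t 3 1 1 = true := ex3_b t4_B04mm_202_s1 k3_B04mm_202_s1

theorem t6_B04mm_202_s1 : ∃ t, chk3 f_B04mm_202_s1 t 1 1 1 = true := ex3_a k0_B04mm_202_s1 t5_B04mm_202_s1

theorem c_B04mm_202_s1 : CertF 0 536870912 1073741824 536870912 469762048 67108864 false false false .pp 2 0 2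
    ndF0q2 ndF4q2 pcF0 cut_B04mm_202_s1 xt_B04mm_202_s1 :=
  certF1 (fam := false) (s1 := false) (s2 := false) (a := 2) (b := 0) (c := 2) (cn := .pp) (n1 := ndF0q2) (n2 := ndF4q2) (pc := pcF0) (cut := cut_B04mm_202_s1) (xt := xt_B04mm_202_s1) (P1 := 0) (W1 := 536870912) (P2 := 1073741824) (W2 := 536870912) (P3 := 469762048) (W3 := 67108864)
    rfl (fun _ => rfl) t6_B04mm_202_s1

theorem s_B04mm_202_s1 {κ x : ℝ} (hκ : κ * h0 = ken x) (hx : ((469762048 : ℕ) : ℝ) / S ≤ x)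
    (hx' : x ≤ (((469762048 : ℕ) : ℝ) + (67108864 : ℕ)) / S)
    (H : CutB (VF κ) PP tKF tL pcF (Cut.of [[⟨0, 1, 0, 67108864⟩, ⟨1, 0, 0, 67108864⟩, ⟨2, 1, 0, 67108864⟩]]) 2 0 2 0 4 (sgb false) (sgb false) x) :
    AltB (VF κ) PP tKF tL pcF [⟨3, 0, 0, 1449551462⟩] 2 0 2 0 4 (sgb false) (sgb false) x :=
  strip_altB (m := 1449551462) true rfl hκ covF02 covF42 hx hx' c_B04mm_202_s1 H ((okx hx hx').extB (T := tt) (sideF hx hx') hκ rfl rfl (.O 2 false) (.N 2 false) (Or.inl rfl))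

noncomputable def cut_B04mm_203_s1 : Cut := Cut.of [[⟨4, 0, 0, 1449551462⟩]]

noncomputable def xt_B04mm_203_s1 : Ext := strExt dd false false false .u2 .s2m .u0m .up 2 0 3 rfl rfl gf0 vv ndF0q2 ndF4q3

noncomputable def f_B04mm_203_s1 : ℕ → ℕ → ℕ → ℕ → Bool := onCell 0 536870912 0 1230186008 469762048 67108864
    (rowF 0 false false false .up 2 0 3 (qsf 0 536870912 0 1230186008 0) ndF0q2 ndF4q3 pcF0 cut_B04mm_203_s1 xt_B04mm_203_s1)

def k0_B04mm_203_s1 : ∃ t, chk3 f_B04mm_203_s1 t 1 1 1 = true :=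
  ⟨(b (l 2) (b (l 2) (a (a (b (b (l 2) (a (b (l 2) (a (l 16770496) (l 536482319))) (l 538087695))) (b (a (b (l 16807760) (l 16756144)) (l 535307023)) (a (b (l 16741528) (l 16721712)) (b (l 535733263) (l 16734672))))) (b (l 3) (a (b (a (l 535965455) (l 3)) (a (b (l 535388687) (l 535087119)) (b (l 535318031) (l 534862351)))) (b (l 3) (b (l 3) (a (l 534628367) (l 3))))))) (l 3)))), by decide +kernel⟩

theorem c_B04mm_203_s1 : CertF 0 536870912 0 1230186008 469762048 67108864 false false false .up 2 0 3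
    ndF0q2 ndF4q3 pcF0 cut_B04mm_203_s1 xt_B04mm_203_s1 :=
  certF0 (fam := false) (s1 := false) (s2 := false) (a := 2) (b := 0) (c := 3) (cn := .up) (n1 := ndF0q2) (n2 := ndF4q3) (pc := pcF0) (cut := cut_B04mm_203_s1) (xt := xt_B04mm_203_s1) (P1 := 0) (W1 := 536870912) (P2 := 0) (W2 := 1230186008) (P3 := 469762048) (W3 := 67108864)
    rfl k0_B04mm_203_s1

theorem s_B04mm_203_s1 {κ x : ℝ} (hκ : κ * h0 = ken x) (hx : ((469762048 : ℕ) : ℝ) / S ≤ x)
    (hx' : x ≤ (((469762048 : ℕ) : ℝ) + (67108864 : ℕ)) / S) :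
    AltB (VF κ) PP tKF tL pcF [⟨3, 0, 0, 1449551462⟩] 2 0 3 0 4 (sgb false) (sgb false) x :=
  strip_altB (m := 1449551462) true rfl hκ covF02 covF43 hx hx' c_B04mm_203_s1 cutB_nil ((okx hx hx').extB (T := tt) (sideF hx hx') hκ rfl rfl (.O 2 false) (.N 3 false) (Or.inl rfl))

noncomputable def cut_B04mm_213_s1 : Cut := Cut.of [[⟨4, 0, 0, 1449551462⟩]]

noncomputable def xt_B04mm_213_s1 : Ext := strExt dd false false false .u2 .s2m .u0m .pnn 2 1 3 rfl rfl gf1 vv ndF0q2 ndF4q3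

noncomputable def f_B04mm_213_s1 : ℕ → ℕ → ℕ → ℕ → Bool := onCell 0 536870912 0 1230186008 469762048 67108864
    (rowF 0 false false false .pnn 2 1 3 (qsf 0 536870912 0 1230186008 1) ndF0q2 ndF4q3 pcF1 cut_B04mm_213_s1 xt_B04mm_213_s1)

def k0_B04mm_213_s1 : ∃ t, chk3 f_B04mm_213_s1 t 1 1 1 = true :=
  ⟨(b (a (l 3) (b (l 5) (l 3))) (b (b (l 3) (a (a (l 3) (l 3)) (l 3))) (a (a (b (b (a (a (l 537055503) (b (l 3) (l 537009167))) (l 3)) (a (a (b (l 16779296) (l 16781960)) (l 537010191)) (l 537193999))) (l 1)) (b (l 3) (b (a (l 1) (l 3)) (l 1)))) (l 3)))), by decide +kernel⟩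

theorem c_B04mm_213_s1 : CertF 0 536870912 0 1230186008 469762048 67108864 false false false .pnn 2 1 3
    ndF0q2 ndF4q3 pcF1 cut_B04mm_213_s1 xt_B04mm_213_s1 :=
  certF0 (fam := false) (s1 := false) (s2 := false) (a := 2) (b := 1) (c := 3) (cn := .pnn) (n1 := ndF0q2) (n2 := ndF4q3) (pc := pcF1) (cut := cut_B04mm_213_s1) (xt := xt_B04mm_213_s1) (P1 := 0) (W1 := 536870912) (P2 := 0) (W2 := 1230186008) (P3 := 469762048) (W3 := 67108864)
    rfl k0_B04mm_213_s1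

theorem s_B04mm_213_s1 {κ x : ℝ} (hκ : κ * h0 = ken x) (hx : ((469762048 : ℕ) : ℝ) / S ≤ x)
    (hx' : x ≤ (((469762048 : ℕ) : ℝ) + (67108864 : ℕ)) / S) :
    AltB (VF κ) PP tKF tL pcF [⟨3, 0, 0, 1449551462⟩] 2 1 3 0 4 (sgb false) (sgb false) x :=
  strip_altB (m := 1449551462) true rfl hκ covF02 covF43 hx hx' c_B04mm_213_s1 cutB_nil ((okx hx hx').extB (T := tt) (sideF hx hx') hκ rfl rfl (.O 2 false) (.N 3 false) (Or.inr rfl))

noncomputable def cut_B40pp_001_s1 : Cut := Cut.of [[⟨4, 0, 0, 1449551462⟩]]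

noncomputable def xt_B40pp_001_s1 : Ext := strExt dd false true true .s0 .u0 .u0m .up 0 0 1 rfl rfl gf0 vv ndF4q0 ndF0q1

noncomputable def f_B40pp_001_s1 : ℕ → ℕ → ℕ → ℕ → Bool := onCell 0 536870912 0 536870912 469762048 67108864
    (rowF 1 false true true .up 0 0 1 (qsf 0 536870912 536870912 536870912 0) ndF4q0 ndF0q1 pcF0 cut_B40pp_001_s1 xt_B40pp_001_s1)

def k0_B40pp_001_s1 : ∃ t, chk3 f_B40pp_001_s1 t 1 1 1 = true :=
  ⟨(a (b (l 3) (a (l 3) (b (l 3) (b (l 3) (a (b (l 3) (a (l 537684751) (l 537509647))) (b (l 537178127) (l 537151759))))))) (b (l 3) (b (a (l 3) (b (a (l 3) (b (l 3) (a (l 3) (l 530176783)))) (a (b (l 3) (l 533590031)) (b (l 531156751) (l 531352847))))) (a (b (a (b (l 3) (a (l 536655119) (l 536181519))) (b (a (l 535575311) (l 534911759)) (a (l 535617807) (l 534983183)))) (a (b (l 536441103) (l 536451087)) (b (l 535388431) (l 535450639)))) (b (a (b (l 533718543) (l 534363663)) (b (l 531535119)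 (l 531721487))) (a (b (l 533940751) (l 534073103)) (b (a (l 16563864) (l 16485664)) (a (l 16505192) (l 6))))))))), by decide +kernel⟩

theorem c_B40pp_001_s1 : CertF 0 536870912 536870912 536870912 469762048 67108864 false true true .up 0 0 1
    ndF4q0 ndF0q1 pcF0 cut_B40pp_001_s1 xt_B40pp_001_s1 :=
  certF1 (fam := false) (s1 := true) (s2 := true) (a := 0) (b := 0) (c := 1) (cn := .up) (n1 := ndF4q0) (n2 := ndF0q1) (pc := pcF0) (cut := cut_B40pp_001_s1) (xt := xt_B40pp_001_s1) (P1 := 0) (W1 := 536870912) (P2 := 536870912) (W2 := 536870912) (P3 := 469762048) (W3 := 67108864)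
    rfl (fun _ => rfl) k0_B40pp_001_s1

theorem s_B40pp_001_s1 {κ x : ℝ} (hκ : κ * h0 = ken x) (hx : ((469762048 : ℕ) : ℝ) / S ≤ x)
    (hx' : x ≤ (((469762048 : ℕ) : ℝ) + (67108864 : ℕ)) / S) :
    AltB (VF κ) PP tKF tL pcF [⟨3, 0, 0, 1449551462⟩] 0 0 1 4 0 (sgb true) (sgb true) x :=
  strip_altB (m := 1449551462) true rfl hκ covF40 covF01 hx hx' c_B40pp_001_s1 cutB_nil ((okx hx hx').extB (T := tt) (sideF hx hx') hκ rfl rfl (.N 0 true) (.O 1 true) (Or.inl rfl))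

noncomputable def cut_B40pp_011_s1 : Cut := Cut.of [[⟨4, 0, 0, 1449551462⟩]]

noncomputable def xt_B40pp_011_s1 : Ext := strExt dd false true true .s0 .u0 .u0m .pnn 0 1 1 rfl rfl gf1 vv ndF4q0 ndF0q1

noncomputable def f_B40pp_011_s1 : ℕ → ℕ → ℕ → ℕ → Bool := onCell 536870912 536870912 536870912 536870912 469762048 67108864
    (rowF 2 false true true .pnn 0 1 1 (qsf 0 536870912 536870912 536870912 1) ndF4q0 ndF0q1 pcF1 cut_B40pp_011_s1 xt_B40pp_011_s1)

def k0_B40pp_011_s1 : ∃ t, chk3 f_B40pp_011_s1 t 1 1 1 = true :=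
  ⟨(a (a (b (b (a (b (l 3) (a (b (l 3) (l 537893391)) (b (l 538009103) (l 537912079)))) (b (b (l 1) (a (l 538295055) (l 1))) (a (l 538022159) (b (l 538231055) (l 538011407))))) (a (b (a (l 537696783) (l 537776399)) (a (l 537265167) (l 537458959))) (b (a (b (l 537875983) (l 16791216)) (b (l 16792424) (l 16796840))) (a (l 16794664) (l 16801432))))) (b (a (b (a (l 16852904) (l 16778528)) (a (l 16721976) (l 16740632))) (b (l 16876920) (l 16765688))) (b (a (l 16629312) (l 16695880)) (l 6)))) (b (b (a (b (l 1) (a (b (l 1) (l 16797528)) (l 1))) (l 1)) (a (b (a (b (l 16798968) (l 16802648)) (l 16811056)) (a (l 16808504) (l 16815760))) (b (b (l 1) (l 16835064)) (b (l 16831712) (l 16831120))))) (b (a (b (l 16812984) (l 16795976)) (b (l 16833456) (l 6))) (l 6)))) (b (b (l 1) (a (a (b (l 1) (l 297997254247)) (l 1)) (l 1))) (a (b (b (l 6) (l 6)) (l 6)) (l 6)))), by decide +kernel⟩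

theorem c_B40pp_011_s1 : CertF 0 536870912 536870912 536870912 469762048 67108864 false true true .pnn 0 1 1
    ndF4q0 ndF0q1 pcF1 cut_B40pp_011_s1 xt_B40pp_011_s1 :=
  certF2 (fam := false) (s1 := true) (s2 := true) (a := 0) (b := 1) (c := 1) (cn := .pnn) (n1 := ndF4q0) (n2 := ndF0q1) (pc := pcF1) (cut := cut_B40pp_011_s1) (xt := xt_B40pp_011_s1) (P1 := 0) (W1 := 536870912) (P2 := 536870912) (W2 := 536870912) (P3 := 469762048) (W3 := 67108864)
    rfl (fun _ => rfl) k0_B40pp_011_s1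

theorem s_B40pp_011_s1 {κ x : ℝ} (hκ : κ * h0 = ken x) (hx : ((469762048 : ℕ) : ℝ) / S ≤ x)
    (hx' : x ≤ (((469762048 : ℕ) : ℝ) + (67108864 : ℕ)) / S) :
    AltB (VF κ) PP tKF tL pcF [⟨3, 0, 0, 1449551462⟩] 0 1 1 4 0 (sgb true) (sgb true) x :=
  strip_altB (m := 1449551462) true rfl hκ covF40 covF01 hx hx' c_B40pp_011_s1 cutB_nil ((okx hx hx').extB (T := tt) (sideF hx hx') hκ rfl rfl (.N 0 true) (.O 1 true) (Or.inr rfl))

noncomputable def cut_B40pp_012_s1 : Cut := Cut.of [[⟨4, 0, 0, 1449551462⟩]]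

noncomputable def f_B40pp_012_s1 : ℕ → ℕ → ℕ → ℕ → Bool := onCell 0 536870912 0 536870912 469762048 67108864
    (rowF 0 false true true .pnp 0 1 2 (qsf 0 536870912 0 536870912 1) ndF4q0 ndF0q2 pcF1 cut_B40pp_012_s1 Ext.none)

def k0_B40pp_012_s1 : ∃ t, chk3 f_B40pp_012_s1 t 1 1 1 = true :=
  ⟨(a (l 6) (l 6)), by decide +kernel⟩

theorem c_B40pp_012_s1 : CertF 0 536870912 0 536870912 469762048 67108864 false true true .pnp 0 1 2
    ndF4q0 ndF0q2 pcF1 cut_B40pp_012_s1 Ext.none :=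
  certF0 (fam := false) (s1 := true) (s2 := true) (a := 0) (b := 1) (c := 2) (cn := .pnp) (n1 := ndF4q0) (n2 := ndF0q2) (pc := pcF1) (cut := cut_B40pp_012_s1) (xt := Ext.none) (P1 := 0) (W1 := 536870912) (P2 := 0) (W2 := 536870912) (P3 := 469762048) (W3 := 67108864)
    rfl k0_B40pp_012_s1

theorem s_B40pp_012_s1 {κ x : ℝ} (hκ : κ * h0 = ken x) (hx : ((469762048 : ℕ) : ℝ) / S ≤ x)
    (hx' : x ≤ (((469762048 : ℕ) : ℝ) + (67108864 : ℕ)) / S) :
    AltB (VF κ) PP tKF tL pcF [⟨3, 0, 0, 1449551462⟩] 0 1 2 4 0 (sgb true) (sgb true) x :=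
  strip_altB (m := 1449551462) true rfl hκ covF40 covF02 hx hx' c_B40pp_012_s1 cutB_nil (noExt_B)

noncomputable def cut_B40pp_022_s1 : Cut := Cut.of [[⟨4, 0, 0, 1449551462⟩]]

noncomputable def f_B40pp_022_s1 : ℕ → ℕ → ℕ → ℕ → Bool := onCell 1073741824 536870912 0 536870912 469762048 67108864
    (rowF 2 false true true .pp 0 2 2 (qsf 0 536870912 0 536870912 2) ndF4q0 ndF0q2 pcF2 cut_B40pp_022_s1 Ext.none)

def k0_B40pp_022_s1 : ∃ t, chk3 f_B40pp_022_s1 t 1 1 1 = true :=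
  ⟨(l 6), by decide +kernel⟩

theorem c_B40pp_022_s1 : CertF 0 536870912 0 536870912 469762048 67108864 false true true .pp 0 2 2
    ndF4q0 ndF0q2 pcF2 cut_B40pp_022_s1 Ext.none :=
  certF2 (fam := false) (s1 := true) (s2 := true) (a := 0) (b := 2) (c := 2) (cn := .pp) (n1 := ndF4q0) (n2 := ndF0q2) (pc := pcF2) (cut := cut_B40pp_022_s1) (xt := Ext.none) (P1 := 0) (W1 := 536870912) (P2 := 0) (W2 := 536870912) (P3 := 469762048) (W3 := 67108864)
    rfl (fun _ => rfl) k0_B40pp_022_s1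

theorem s_B40pp_022_s1 {κ x : ℝ} (hκ : κ * h0 = ken x) (hx : ((469762048 : ℕ) : ℝ) / S ≤ x)
    (hx' : x ≤ (((469762048 : ℕ) : ℝ) + (67108864 : ℕ)) / S) :
    AltB (VF κ) PP tKF tL pcF [⟨3, 0, 0, 1449551462⟩] 0 2 2 4 0 (sgb true) (sgb true) x :=
  strip_altB (m := 1449551462) true rfl hκ covF40 covF02 hx hx' c_B40pp_022_s1 cutB_nil (noExt_B)

noncomputable def cut_B40pp_101_s1 : Cut := Cut.of [[⟨4, 0, 0, 1449551462⟩], [⟨0, 1, 0, 67108864⟩, ⟨1, 0, 0, 67108864⟩, ⟨2, 1, 0, 67108864⟩]]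

noncomputable def xt_B40pp_101_s1 : Ext := strExt dd false true true .s0 .u0 .u0m .npn 1 0 1 rfl rfl gf0 vv ndF4q1 ndF0q1

noncomputable def f_B40pp_101_s1 : ℕ → ℕ → ℕ → ℕ → Bool := onCell 536870912 536870912 536870912 536870912 469762048 67108864
    (rowF 0 false true true .npn 1 0 1 (qsf 536870912 536870912 536870912 536870912 0) ndF4q1 ndF0q1 pcF0 cut_B40pp_101_s1 xt_B40pp_101_s1)

def k0_B40pp_101_s1 : ∃ t, chk3 f_B40pp_101_s1 t 1 1 1 = true :=
  ⟨(a (b (l 3) (a (b (b (a (b (l 3) (l 528658191)) (l 3)) (a (b (l 529265935) (l 530059791)) (b (l 529433871) (l 529698831)))) (b (a (b (l 530766607) (a (l 16536584) (l 16560608))) (b (l 530981903) (l 531416335))) (b (a (l 16493464) (a (l 16525808) (l 16547920))) (a (l 6) (l 16507032))))) (b (b (l 3) (a (b (l 3) (a (l 529400079) (l 529211151))) (l 3))) (b (a (b (a (l 530155023) (l 529964815)) (a (l 530874639) (l 530687759))) (b (a (l 529774351) (l 529586447)) (a (l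 530499599) (l 530308623)))) (b (a (a (l 16571312) (l 16763608)) (a (l 531195663) (l 531009807))) (a (b (l 16537056) (l 16509200)) (a (l 16554272) (l 16744784)))))))) (b (l 3) (a (b (l 3) (b (b (l 3) (a (a (l 530119695) (l 529937935)) (a (a (l 529804303) (l 3)) (l 3)))) (a (b (a (l 530820879) (l 530632719)) (a (l 16684976) (l 531320079))) (a (b (a (l 530494991) (l 530406415)) (l 532207631)) (b (a (l 530320911) (l 531045903)) (b (l 530761743) (l 16724224))))))) (b (l 3) (b (l 3) (a (b (b (l 3) (a (a (l 530308111) (l 530229519)) (a (a (l 530178831) (l 3)) (l 3)))) (a (a (l 531366415) (b (l 530560783) (l 530897167))) (a (b (l 530480143) (l 530811663)) (b (a (l 530434575) (l 530401295)) (b (l 530632975) (l 16748688)))))) (b (l 3) (a (a (a (b (l 531983631) (l 530688783)) (l 14)) (l 14)) (l 14))))))))), by decide +kernel⟩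

theorem c_B40pp_101_s1 : CertF 536870912 536870912 536870912 536870912 469762048 67108864 false true true .npn 1 0 1
    ndF4q1 ndF0q1 pcF0 cut_B40pp_101_s1 xt_B40pp_101_s1 :=
  certF0 (fam := false) (s1 := true) (s2 := true) (a := 1) (b := 0) (c := 1) (cn := .npn) (n1 := ndF4q1) (n2 := ndF0q1) (pc := pcF0) (cut := cut_B40pp_101_s1) (xt := xt_B40pp_101_s1) (P1 := 536870912) (W1 := 536870912) (P2 := 536870912) (W2 := 536870912) (P3 := 469762048) (W3 := 67108864)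
    rfl k0_B40pp_101_s1

theorem s_B40pp_101_s1 {κ x : ℝ} (hκ : κ * h0 = ken x) (hx : ((469762048 : ℕ) : ℝ) / S ≤ x)
    (hx' : x ≤ (((469762048 : ℕ) : ℝ) + (67108864 : ℕ)) / S)
    (H : CutB (VF κ) PP tKF tL pcF (Cut.of [[⟨0, 1, 0, 67108864⟩, ⟨1, 0, 0, 67108864⟩, ⟨2, 1, 0, 67108864⟩]]) 1 0 1 4 0 (sgb true) (sgb true) x) :
    AltB (VF κ) PP tKF tL pcF [⟨3, 0, 0, 1449551462⟩] 1 0 1 4 0 (sgb true) (sgb true) x :=
  strip_altB (m := 1449551462) true rfl hκ covF41 covF01 hx hx' c_B40pp_101_s1 H ((okx hx hx').extB (T := tt) (sideF hx hx') hκ rfl rfl (.N 1 true) (.O 1 true) (Or.inl rfl))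

end Pool.Agent.Strip051.G.I7_16_1_2.Tab.St.C
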