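import Pool.Agent.Strip051.G.I7_16_1_2.Tab

/-! # Certificates F4 (generated) -/

set_option linter.all false
set_option maxRecDepth 100000

namespace Pool.Agent.Strip051.G.I7_16_1_2.Tab.C.FB01

open Pool.Agent.Strip051.PB Pool.Agent.Strip051.PB.T
open Pool.Agent.Strip051.G.I7_16_1_2.Tab

noncomputable def f_pp_033 : ℕ → ℕ → ℕ → ℕ → Bool := onCell 1610612736 536870912 1610612736 536870912 469762048 67108864
    (rowF 2 false true true .pnn 0 3 3 (qsf 0 536870912 1610612736 536870912 3) ndF0q0 ndF1q3 pcF3 Cut.none Ext.none)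

def k0_pp_033 : ∃ t, chk3 f_pp_033 t 1 1 1 = true :=
  ⟨(a (a (b (b (a (b (a (b (l 88617298423) (l 16589168)) (l 320545275927)) (l 16640464)) (b (l 338799297207) (l 16708456))) (a (l 16910448) (l 16753032))) (b (a (l 16819480) (l 16822392)) (a (l 16848424) (l 16849080)))) (b (b (a (b (l 1) (l 361885055895)) (l 1)) (a (l 301218705575) (l 388191954311))) (b (a (l 16834528) (l 16858528)) (a (l 16849728) (l 16853968))))) (a (b (b (l 1) (b (l 1) (l 4))) (l 4)) (l 4))), by decide +kernel⟩

theorem c_pp_033 : CertF 0 536870912 1610612736 536870912 469762048 67108864 false true true .pnn 0 3 3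
    ndF0q0 ndF1q3 pcF3 Cut.none Ext.none :=
  certF2 (fam := false) (s1 := true) (s2 := true) (a := 0) (b := 3) (c := 3) (cn := .pnn) (n1 := ndF0q0) (n2 := ndF1q3) (pc := pcF3) (cut := Cut.none) (xt := Ext.none) (P1 := 0) (W1 := 536870912) (P2 := 1610612736) (W2 := 536870912) (P3 := 469762048) (W3 := 67108864)
    rfl (fun _ => rfl) k0_pp_033

noncomputable def f_pp_101 : ℕ → ℕ → ℕ → ℕ → Bool := onCell 536870912 536870912 536870912 536870912 469762048 67108864
    (rowF 0 false true true .npn 1 0 1 (qsf 536870912 536870912 536870912 536870912 0) ndF0q1 ndF1q1 pcF0 Cut.none Ext.none)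

def k0_pp_101 : ∃ t, chk3 f_pp_101 t 1 1 1 = true :=
  ⟨(l 3), by decide +kernel⟩

theorem c_pp_101 : CertF 536870912 536870912 536870912 536870912 469762048 67108864 false true true .npn 1 0 1
    ndF0q1 ndF1q1 pcF0 Cut.none Ext.none :=
  certF0 (fam := false) (s1 := true) (s2 := true) (a := 1) (b := 0) (c := 1) (cn := .npn) (n1 := ndF0q1) (n2 := ndF1q1) (pc := pcF0) (cut := Cut.none) (xt := Ext.none) (P1 := 536870912) (W1 := 536870912) (P2 := 536870912) (W2 := 536870912) (P3 := 469762048) (W3 := 67108864)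
    rfl k0_pp_101

noncomputable def f_pp_102_a : ℕ → ℕ → ℕ → ℕ → Bool := onCell 536870912 536870912 0 536870912 469762048 67108864
    (rowF 0 false true true .npp 1 0 2 (qsf 536870912 536870912 0 536870912 0) ndF0q1 ndF1q2a pcF0 Cut.none Ext.none)

def k0_pp_102_a : ∃ t, chk3 f_pp_102_a t 1 1 1 = true :=
  ⟨(l 3), by decide +kernel⟩

theorem c_pp_102_a : CertF 536870912 536870912 0 536870912 469762048 67108864 false true true .npp 1 0 2
    ndF0q1 ndF1q2a pcF0 Cut.none Ext.none :=
  certF0 (fam := false) (s1 := true) (s2 := true) (a := 1) (b := 0) (c := 2) (cn := .npp) (n1 := ndF0q1) (n2 := ndF1q2a) (pc := pcF0) (cut := Cut.none) (xt := Ext.none) (P1 := 536870912) (W1 := 536870912) (P2 := 0) (W2 := 536870912) (P3 := 469762048) (W3 := 67108864)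
    rfl k0_pp_102_a

noncomputable def f_pp_102_b : ℕ → ℕ → ℕ → ℕ → Bool := onCell 536870912 536870912 0 536870912 469762048 67108864
    (rowF 1 false true true .npp 1 0 2 (qsf 536870912 536870912 1239849684 370763052 0) ndF0q1 ndF1q2b pcF0 Cut.none Ext.none)

def k0_pp_102_b : ∃ t, chk3 f_pp_102_b t 1 1 1 = true :=
  ⟨(l 3), by decide +kernel⟩

theorem c_pp_102_b : CertF 536870912 536870912 1239849684 370763052 469762048 67108864 false true true .npp 1 0 2
    ndF0q1 ndF1q2b pcF0 Cut.none Ext.none :=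
  certF1 (fam := false) (s1 := true) (s2 := true) (a := 1) (b := 0) (c := 2) (cn := .npp) (n1 := ndF0q1) (n2 := ndF1q2b) (pc := pcF0) (cut := Cut.none) (xt := Ext.none) (P1 := 536870912) (W1 := 536870912) (P2 := 1239849684) (W2 := 370763052) (P3 := 469762048) (W3 := 67108864)
    rfl (fun _ => rfl) k0_pp_102_b

noncomputable def f_pp_112_a : ℕ → ℕ → ℕ → ℕ → Bool := onCell 536870912 536870912 0 536870912 469762048 67108864
    (rowF 0 false true true .dn 1 1 2 (qsf 536870912 536870912 0 536870912 1) ndF0q1 ndF1q2a pcF1 Cut.none Ext.none)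

def k0_pp_112_a : ∃ t, chk3 f_pp_112_a t 1 1 1 = true :=
  ⟨(l 3), by decide +kernel⟩

theorem c_pp_112_a : CertF 536870912 536870912 0 536870912 469762048 67108864 false true true .dn 1 1 2
    ndF0q1 ndF1q2a pcF1 Cut.none Ext.none :=
  certF0 (fam := false) (s1 := true) (s2 := true) (a := 1) (b := 1) (c := 2) (cn := .dn) (n1 := ndF0q1) (n2 := ndF1q2a) (pc := pcF1) (cut := Cut.none) (xt := Ext.none) (P1 := 536870912) (W1 := 536870912) (P2 := 0) (W2 := 536870912) (P3 := 469762048) (W3 := 67108864)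
    rfl k0_pp_112_a

noncomputable def f_pp_112_b : ℕ → ℕ → ℕ → ℕ → Bool := onCell 536870912 536870912 1239849684 370763052 469762048 67108864
    (rowF 0 false true true .dn 1 1 2 (qsf 536870912 536870912 1239849684 370763052 1) ndF0q1 ndF1q2b pcF1 Cut.none Ext.none)

def k0_pp_112_b : ∃ t, chk3 f_pp_112_b t 1 1 1 = true :=
  ⟨(a (b (l 3) (a (b (a (b (a (b (l 3) (a (l 84993422279) (l 3))) (l 3)) (a (b (a (l 16800328) (l 87677800311)) (l 16804608)) (b (l 89288514791) (a (l 16847952) (l 86067251703))))) (l 3)) (a (b (a (b (l 16794416) (l 16787792)) (b (a (l 16841576) (l 16868800)) (l 16849256))) (a (l 16780320) (b (l 16844376) (l 16840856)))) (b (a (b (l 90899214615) (l 86604164103)) (l 3)) (a (b (l 16871264) (l 16887904)) (a (l 103784149191) (l 131701470327)))))) (l 3))) (l 3)), by decide +kernel⟩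

theorem c_pp_112_b : CertF 536870912 536870912 1239849684 370763052 469762048 67108864 false true true .dn 1 1 2
    ndF0q1 ndF1q2b pcF1 Cut.none Ext.none :=
  certF0 (fam := false) (s1 := true) (s2 := true) (a := 1) (b := 1) (c := 2) (cn := .dn) (n1 := ndF0q1) (n2 := ndF1q2b) (pc := pcF1) (cut := Cut.none) (xt := Ext.none) (P1 := 536870912) (W1 := 536870912) (P2 := 1239849684) (W2 := 370763052) (P3 := 469762048) (W3 := 67108864)
    rfl k0_pp_112_b

noncomputable def cut_pp_113 : Cut := Cut.of [[⟨0, 1, 0, 67108864⟩, ⟨1, 1, 0, 67108864⟩, ⟨2, 2, 0, 16777216⟩]]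

noncomputable def f_pp_113 : ℕ → ℕ → ℕ → ℕ → Bool := onCell 536870912 536870912 536870912 536870912 469762048 67108864
    (rowF 1 false true true .nn 1 1 3 (qsf 536870912 536870912 1610612736 536870912 1) ndF0q1 ndF1q3 pcF1 cut_pp_113 Ext.none)

def k0_pp_113 : ∃ t, chk3 f_pp_113 t 1 2 1 = true :=
  ⟨(a (l 3) (l 3)), by decide +kernel⟩

def k1_pp_113 : ∃ t, chk3 f_pp_113 t 2 3 1 = true :=
  ⟨(b (a (a (l 1) (a (l 1) (a (l 1) (l 3)))) (l 3)) (a (b (a (b (l 1) (a (l 1) (l 207265650999))) (a (b (l 228203533335) (l 16714968)) (b (b (a (l 235719827911) (a (l 237867466503) (l 149954844487))) (l 16816768)) (l 16790088)))) (a (b (a (l 16567240) (l 16641672)) (a (l 16541440) (l 16664520))) (b (a (l 16736440) (l 16812912)) (a (l 16762048) (l 16838352))))) (b (b (a (b (a (a (l 151028589959) (l 152102368279)) (l 3)) (a (b (l 68350487079) (l 16839352)) (b (l 158008042455) (l 16892296)))) (b (l 3) (a (l 164450586375) (l 3)))) (a (a (l 16852088) (l 16903464)) (a (b (l 16941592) (l 16948136))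 (b (l 173040652311) (l 16978136))))) (a (b (l 16899512) (l 16920544)) (b (l 16972184) (l 16981416)))))), by decide +kernel⟩

def k2_pp_113 : ∃ t, chk3 f_pp_113 t 3 3 1 = true :=
  ⟨(b (l 3) (a (b (a (b (l 3) (a (l 178946283719) (l 168745709079))) (l 3)) (a (b (a (l 16994984) (l 16995200)) (l 16990184)) (b (a (l 192904720567) (b (l 489794399479) (l 16952440))) (l 17018984)))) (b (l 3) (a (b (b (l 3) (a (a (l 248202454567) (l 427517278727)) (l 474225002631))) (b (a (l 16931040) (a (l 264845360151) (l 279877702391))) (a (l 16903264) (a (l 16876424) (l 16859680))))) (b (l 3) (a (b (b (l 3) (a (l 420000975783) (l 430201494039))) (b (a (l 16846632) (a (l 298668114983) (a (l 307258038119) (l 313163610535)))) (a (l 16840312) (l 16824008)))) (b (l 3) (b (a (b (l 3) (a (b (l 409263490455) (l 316921689639)) (l 410337214903))) (l 3)) (a (b (a (l 16813880) (a (l 319606026087) (b (l 397989173415) (l 322827241223)))) (a (l 16809712) (l 16801360))) (b (a (b (l 3) (a (b (l 395304807367) (a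 (l 328195937959) (l 386177997415))) (b (l 3) (l 395304796775)))) (l 3)) (a (b (a (l 16796232) (b (a (l 335175254199) (l 6)) (l 6))) (a (l 16793840) (l 6))) (l 6)))))))))))), by decide +kernel⟩

theorem s3_pp_113 : ∃ t, chk3 f_pp_113 t 1 3 1 = true := ex3_a k1_pp_113 k2_pp_113

theorem s4_pp_113 : ∃ t, chk3 f_pp_113 t 1 1 1 = true := ex3_b k0_pp_113 s3_pp_113

theorem c_pp_113 : CertF 536870912 536870912 1610612736 536870912 469762048 67108864 false true true .nn 1 1 3
    ndF0q1 ndF1q3 pcF1 cut_pp_113 Ext.none :=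
  certF1 (fam := false) (s1 := true) (s2 := true) (a := 1) (b := 1) (c := 3) (cn := .nn) (n1 := ndF0q1) (n2 := ndF1q3) (pc := pcF1) (cut := cut_pp_113) (xt := Ext.none) (P1 := 536870912) (W1 := 536870912) (P2 := 1610612736) (W2 := 536870912) (P3 := 469762048) (W3 := 67108864)
    rfl (fun _ => rfl) s4_pp_113

noncomputable def cut_pp_123 : Cut := Cut.of [[⟨0, 1, 0, 67108864⟩, ⟨1, 1, 0, 67108864⟩, ⟨2, 2, 0, 16777216⟩]]

noncomputable def f_pp_123 : ℕ → ℕ → ℕ → ℕ → Bool := onCell 536870912 536870912 1073741824 536870912 469762048 67108864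
    (rowF 1 false true true .npn 1 2 3 (qsf 536870912 536870912 1610612736 536870912 2) ndF0q1 ndF1q3 pcF2 cut_pp_123 Ext.none)

def k0_pp_123 : ∃ t, chk3 f_pp_123 t 1 1 1 = true :=
  ⟨(a (b (a (b (b (a (a (l 16628152) (l 16731480)) (b (l 16835520) (l 16852320))) (a (l 16762496) (l 16868448))) (a (l 16828728) (l 16876344))) (b (b (a (l 16935280) (l 16973464)) (a (l 16921208) (l 16933040))) (a (l 16885552) (l 16861288)))) (a (b (l 16924496) (b (a (l 16862384) (l 16846808)) (a (l 16853520) (l 16883128)))) (b (a (l 16829112) (b (l 16808120) (l 16947600))) (a (b (l 17044592) (l 2)) (l 2))))) (b (a (b (b (a (b (l 16978744) (l 16950728)) (l 16918456)) (a (l 16906744) (l 16849368))) (b (a (l 16842832) (l 16766680)) (a (l 16812024) (l 310949287959)))) (b (b (a (b (l 16868104) (l 16833480)) (b (a (l 16876056) (b (a (l 16794520) (b (a (l 16785640) (l 6)) (l 542877172823))) (l 519791767079))) (a (l 16779056) (l 603543582135)))) (a (l 16879616) (a (l 534287299895) (l 2)))) (a (b (b (l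 359804554471) (l 2)) (l 2)) (l 2)))) (a (b (a (b (l 16855008) (l 2)) (l 2)) (l 2)) (l 2)))), by decide +kernel⟩

theorem c_pp_123 : CertF 536870912 536870912 1610612736 536870912 469762048 67108864 false true true .npn 1 2 3
    ndF0q1 ndF1q3 pcF2 cut_pp_123 Ext.none :=
  certF1 (fam := false) (s1 := true) (s2 := true) (a := 1) (b := 2) (c := 3) (cn := .npn) (n1 := ndF0q1) (n2 := ndF1q3) (pc := pcF2) (cut := cut_pp_123) (xt := Ext.none) (P1 := 536870912) (W1 := 536870912) (P2 := 1610612736) (W2 := 536870912) (P3 := 469762048) (W3 := 67108864)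
    rfl (fun _ => rfl) k0_pp_123

noncomputable def f_pp_133 : ℕ → ℕ → ℕ → ℕ → Bool := onCell 1610612736 536870912 1610612736 536870912 469762048 67108864
    (rowF 2 false true true .dn 1 3 3 (qsf 536870912 536870912 1610612736 536870912 3) ndF0q1 ndF1q3 pcF3 Cut.none Ext.none)

def k0_pp_133 : ∃ t, chk3 f_pp_133 t 1 1 1 = true :=
  ⟨(a (b (l 1) (a (b (l 1) (a (l 575022948231) (l 1))) (l 1))) (l 1)), by decide +kernel⟩

theorem c_pp_133 : CertF 536870912 536870912 1610612736 536870912 469762048 67108864 false true true .dn 1 3 3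
    ndF0q1 ndF1q3 pcF3 Cut.none Ext.none :=
  certF2 (fam := false) (s1 := true) (s2 := true) (a := 1) (b := 3) (c := 3) (cn := .dn) (n1 := ndF0q1) (n2 := ndF1q3) (pc := pcF3) (cut := Cut.none) (xt := Ext.none) (P1 := 536870912) (W1 := 536870912) (P2 := 1610612736) (W2 := 536870912) (P3 := 469762048) (W3 := 67108864)
    rfl (fun _ => rfl) k0_pp_133

noncomputable def f_pp_202_a : ℕ → ℕ → ℕ → ℕ → Bool := onCell 0 536870912 0 536870912 469762048 67108864
    (rowF 0 false true true .pp 2 0 2 (qsf 0 536870912 0 536870912 0) ndF0q2 ndF1q2a pcF0 Cut.none Ext.none)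

def k0_pp_202_a : ∃ t, chk3 f_pp_202_a t 1 1 1 = true :=
  ⟨(l 3), by decide +kernel⟩

theorem c_pp_202_a : CertF 0 536870912 0 536870912 469762048 67108864 false true true .pp 2 0 2
    ndF0q2 ndF1q2a pcF0 Cut.none Ext.none :=
  certF0 (fam := false) (s1 := true) (s2 := true) (a := 2) (b := 0) (c := 2) (cn := .pp) (n1 := ndF0q2) (n2 := ndF1q2a) (pc := pcF0) (cut := Cut.none) (xt := Ext.none) (P1 := 0) (W1 := 536870912) (P2 := 0) (W2 := 536870912) (P3 := 469762048) (W3 := 67108864)
    rfl k0_pp_202_a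

noncomputable def f_pp_202_b : ℕ → ℕ → ℕ → ℕ → Bool := onCell 0 536870912 1239849684 370763052 469762048 67108864
    (rowF 0 false true true .pp 2 0 2 (qsf 0 536870912 1239849684 370763052 0) ndF0q2 ndF1q2b pcF0 Cut.none Ext.none)

def k0_pp_202_b : ∃ t, chk3 f_pp_202_b t 1 1 1 = true :=
  ⟨(l 3), by decide +kernel⟩

theorem c_pp_202_b : CertF 0 536870912 1239849684 370763052 469762048 67108864 false true true .pp 2 0 2
    ndF0q2 ndF1q2b pcF0 Cut.none Ext.none :=
  certF0 (fam := false) (s1 := true) (s2 := true) (a := 2) (b := 0) (c := 2) (cn := .pp) (n1 := ndF0q2) (n2 := ndF1q2b) (pc := pcF0) (cut := Cut.none) (xt := Ext.none) (P1 := 0) (W1 := 536870912) (P2 := 1239849684) (W2 := 370763052) (P3 := 469762048) (W3 := 67108864)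
    rfl k0_pp_202_b

noncomputable def f_pp_203 : ℕ → ℕ → ℕ → ℕ → Bool := onCell 0 536870912 0 536870912 469762048 67108864
    (rowF 1 false true true .up 2 0 3 (qsf 0 536870912 1610612736 536870912 0) ndF0q2 ndF1q3 pcF0 Cut.none Ext.none)

def k0_pp_203 : ∃ t, chk3 f_pp_203 t 1 1 1 = true :=
  ⟨(l 3), by decide +kernel⟩

theorem c_pp_203 : CertF 0 536870912 1610612736 536870912 469762048 67108864 false true true .up 2 0 3
    ndF0q2 ndF1q3 pcF0 Cut.none Ext.none :=
  certF1 (fam := false) (s1 := true) (s2 := true) (a := 2) (b := 0) (c := 3) (cn := .up) (n1 := ndF0q2) (n2 := ndF1q3) (pc := pcF0) (cut := Cut.none) (xt := Ext.none) (P1 := 0) (W1 := 536870912) (P2 := 1610612736) (W2 := 536870912) (P3 := 469762048) (W3 := 67108864)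
    rfl (fun _ => rfl) k0_pp_203

noncomputable def cut_pp_213 : Cut := Cut.of [[⟨0, 1, 0, 67108864⟩, ⟨1, 1, 0, 67108864⟩, ⟨2, 2, 0, 16777216⟩]]

noncomputable def f_pp_213 : ℕ → ℕ → ℕ → ℕ → Bool := onCell 0 536870912 1610612736 536870912 469762048 67108864
    (rowF 0 false true true .pnn 2 1 3 (qsf 0 536870912 1610612736 536870912 1) ndF0q2 ndF1q3 pcF1 cut_pp_213 Ext.none)

def k0_pp_213 : ∃ t, chk3 f_pp_213 t 1 1 1 = true :=
  ⟨(b (l 3) (a (l 3) (b (l 3) (a (l 3) (b (l 3) (a (l 3) (b (l 3) (b (l 3) (b (l 3) (l 6)))))))))), by decide +kernel⟩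

theorem c_pp_213 : CertF 0 536870912 1610612736 536870912 469762048 67108864 false true true .pnn 2 1 3
    ndF0q2 ndF1q3 pcF1 cut_pp_213 Ext.none :=
  certF0 (fam := false) (s1 := true) (s2 := true) (a := 2) (b := 1) (c := 3) (cn := .pnn) (n1 := ndF0q2) (n2 := ndF1q3) (pc := pcF1) (cut := cut_pp_213) (xt := Ext.none) (P1 := 0) (W1 := 536870912) (P2 := 1610612736) (W2 := 536870912) (P3 := 469762048) (W3 := 67108864)
    rfl k0_pp_213

noncomputable def f_pm_001 : ℕ → ℕ → ℕ → ℕ → Bool := onCell 0 536870912 536870912 536870912 469762048 67108864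
    (rowF 0 false true false .up 0 0 1 (qsf 0 536870912 536870912 536870912 0) ndF0q0 ndF1q1 pcF0 Cut.none Ext.none)

def k0_pm_001 : ∃ t, chk3 f_pm_001 t 1 1 1 = true :=
  ⟨(l 4), by decide +kernel⟩

theorem c_pm_001 : CertF 0 536870912 536870912 536870912 469762048 67108864 false true false .up 0 0 1
    ndF0q0 ndF1q1 pcF0 Cut.none Ext.none :=
  certF0 (fam := false) (s1 := true) (s2 := false) (a := 0) (b := 0) (c := 1) (cn := .up) (n1 := ndF0q0) (n2 := ndF1q1) (pc := pcF0) (cut := Cut.none) (xt := Ext.none) (P1 := 0) (W1 := 536870912) (P2 := 536870912) (W2 := 536870912) (P3 := 469762048) (W3 := 67108864)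
    rfl k0_pm_001

noncomputable def f_pm_011 : ℕ → ℕ → ℕ → ℕ → Bool := onCell 0 536870912 536870912 536870912 469762048 67108864
    (rowF 0 false true false .pnn 0 1 1 (qsf 0 536870912 536870912 536870912 1) ndF0q0 ndF1q1 pcF1 Cut.none Ext.none)

def k0_pm_011 : ∃ t, chk3 f_pm_011 t 1 1 1 = true :=
  ⟨(l 4), by decide +kernel⟩

theorem c_pm_011 : CertF 0 536870912 536870912 536870912 469762048 67108864 false true false .pnn 0 1 1
    ndF0q0 ndF1q1 pcF1 Cut.none Ext.none :=
  certF0 (fam := false) (s1 := true) (s2 := false) (a := 0) (b := 1) (c := 1) (cn := .pnn) (n1 := ndF0q0) (n2 := ndF1q1) (pc := pcF1) (cut := Cut.none) (xt := Ext.none) (P1 := 0) (W1 := 536870912) (P2 := 536870912) (W2 := 536870912) (P3 := 469762048) (W3 := 67108864)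
    rfl k0_pm_011

noncomputable def cut_pm_012_a : Cut := Cut.of [[⟨0, 0, 0, 67108864⟩, ⟨1, 1, 0, 67108864⟩, ⟨2, 1, 0, 67108864⟩], [⟨0, 0, 1, 33554432⟩, ⟨1, 1, 2, 33554432⟩, ⟨2, 1, 0, 33554432⟩]]

noncomputable def f_pm_012_a : ℕ → ℕ → ℕ → ℕ → Bool := onCell 536870912 536870912 0 536870912 469762048 67108864
    (rowF 2 false true false .pnp 0 1 2 (qsf 0 536870912 0 536870912 1) ndF0q0 ndF1q2a pcF1 cut_pm_012_a Ext.none)

def k0_pm_012_a : ∃ t, chk3 f_pm_012_a t 4 2 1 = true :=
  ⟨(a (l 2) (b (l 2) (a (l 2) (l 16693944)))), by decide +kernel⟩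

def k1_pm_012_a : ∃ t, chk3 f_pm_012_a t 4 6 1 = true :=
  ⟨(a (l 2) (b (a (l 2) (l 16606744)) (a (l 16625416) (l 16566808)))), by decide +kernel⟩

def k2_pm_012_a : ∃ t, chk3 f_pm_012_a t 8 14 1 = true :=
  ⟨(a (l 2) (b (l 16660976) (l 16638840))), by decide +kernel⟩

def k3_pm_012_a : ∃ t, chk3 f_pm_012_a t 8 30 1 = true :=
  ⟨(a (a (l 2) (l 16613744)) (b (l 16623024) (l 16613360))), by decide +kernel⟩

def k4_pm_012_a : ∃ t, chk3 f_pm_012_a t 16 31 1 = true :=
  ⟨(b (a (l 16618784) (l 16624944)) (b (a (a (l 16645584) (l 16649144)) (a (l 16651680) (l 16632152))) (a (a (c (b (l 16749728) (c (l 16770584) (b (l 16728368) (a (l 16732376) (l 16702984))))) (b (l 16665456) (b (l 16630896) (c (a (c (l 16700816) (l 14)) (l 14)) (l 14))))) (c (b (l 16733144) (c (a (l 16758512) (l 16750168)) (b (l 16711112) (a (c (l 16726080) (l 16704504)) (c (l 16717304) (l 14)))))) (l 14))) (b (a (c (l 16715560) (l 14)) (c (l 16696944) (l 16620376))) (c (b (a (c (l 16737312) (l 16692856)) (l 16638672))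 (a (c (a (l 16741464) (l 16732600)) (a (c (l 16708272) (l 14)) (l 14))) (c (a (c (l 16734832) (l 16712136)) (c (l 16725592) (l 14))) (l 14)))) (a (l 14) (a (l 14) (a (l 14) (c (l 14) (c (l 14) (l 16603352))))))))))), by decide +kernel⟩

def k5_pm_012_a : ∃ t, chk3 f_pm_012_a t 17 31 1 = true :=
  ⟨(b (a (l 16626616) (l 16606968)) (b (a (c (l 16626784) (l 16606624)) (c (l 16630032) (l 16593184))) (b (a (c (a (l 16677224) (l 14)) (a (l 16612544) (l 16605360))) (c (a (l 14) (l 16629520)) (a (l 16598792) (l 16592808)))) (a (a (c (b (l 16639808) (c (a (c (l 16716080) (l 14)) (l 14)) (l 14))) (c (l 14) (b (l 16603600) (a (c (l 14) (l 16601048)) (a (a (l 16614456) (l 16624064)) (l 16612288)))))) (c (l 14) (b (l 16627624) (c (a (l 14) (a (l 14) (c (l 14) (l 16609960)))) (b (l 16597448) (a (c (l 16604504) (l 16594512)) (l 16617264))))))) (c (a (l 14) (c (l 14) (a (l 14) (a (l 14) (c (l 14) (l 16615568)))))) (a (b (l 16600160) (c (a (c (l 14) (l 16607496)) (c (a (l 14) (l 16613048))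 (l 16604344))) (a (l 16593000) (l 16590088)))) (b (l 16594256) (c (b (l 16604280) (a (c (l 16610976) (l 16601608)) (l 16613856))) (a (l 16587312) (l 16584688)))))))))), by decide +kernel⟩

def k6_pm_012_a : ∃ t, chk3 f_pm_012_a t 9 7 1 = true :=
  ⟨(b (a (b (l 16580328) (l 16576944)) (b (l 16555904) (l 16557256))) (b (a (b (l 16579072) (l 16582936)) (a (l 16567472) (l 16564608))) (a (b (a (l 16593960) (l 16583136)) (b (a (c (l 16616504) (l 16582024)) (c (l 16605288) (l 16573024))) (a (b (c (a (l 16622928) (l 16616904)) (a (l 16587400) (l 16582528))) (c (a (b (l 16645672) (c (l 14) (b (l 16616648) (a (c (l 14) (l 16614192)) (a (a (l 16627368) (l 16616160)) (l 16625576)))))) (b (l 16639744) (b (c (l 16638912) (l 16611048)) (c (a (l 14) (c (l 14) (c (l 14) (l 16621168)))) (a (c (l 16617408) (l 16608624)) (c (l 16614688) (l 16606048))))))) (a (b (l 16588928) (c (a (l 16600312) (l 16597672)) (l 16581008))) (c (a (l 16594584) (l 16592200)) (l 16576032))))) (b (c (a (l 16611440)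 (l 16606520)) (l 16597256)) (c (b (a (l 16634360) (l 16608568)) (a (c (b (l 16622816) (a (c (l 14) (l 16620608)) (c (c (l 14) (l 16624296)) (l 16618024)))) (a (l 16628504) (l 16605144))) (c (a (b (l 16618960) (c (l 16623800) (l 16615576))) (a (l 16617512) (l 16616352))) (a (l 16602888) (l 16600768))))) (a (a (l 16602448) (l 16600456)) (c (l 16584888) (l 16568632)))))))) (b (a (l 16577608) (l 16576000)) (b (a (c (l 16599720) (l 16568960)) (l 16583336)) (a (b (c (a (l 16604064) (l 16603680)) (l 16572552)) (c (b (a (l 16606192) (l 16605848)) (a (a (c (a (l 16615752) (l 16615704)) (l 16599736)) (c (l 16615584) (l 16599696))) (c (a (l 16615344) (l 16615016)) (l 16599464)))) (a (c (l 16583088) (l 16567208)) (l 16596224)))) (c (b (l 16602472) (b (l 16625648) (c (a (a (l 16614600) (l 16614112)) (a (l 16613560) (l 16612936))) (a (l 16598888) (l 16598056))))) (b (l 16572224) (a (l 16596024) (l 16595600)))))))))), by decide +kernel⟩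

def k7_pm_012_a : ∃ t, chk3 f_pm_012_a t 5 1 1 = true :=
  ⟨(b (a (b (l 16845384) (l 16724384)) (b (l 16709568) (a (l 16561176) (l 16543168)))) (b (a (b (l 16554176) (l 16619776)) (b (a (l 16510688) (l 16481360)) (a (l 16501944) (l 16479296)))) (b (a (a (l 16565576) (l 16614352)) (a (l 16599512) (b (l 16491016) (l 16507160)))) (a (b (a (l 16601080) (l 16571128)) (b (a (a (l 16573656) (l 16570416)) (a (l 16566672) (l 16562696))) (a (b (a (l 16581224) (l 16578408)) (a (c (b (l 16599920) (b (l 16602208) (a (c (l 16622384) (l 16596992)) (c (l 16610320) (l 16595752))))) (b (l 16570904) (a (l 16574032) (l 16573288)))) (c (b (l 16596616) (c (a (l 16607752) (l 16605856)) (a (l 16593576) (l 16592056)))) (a (l 16591968) (l 16570032))))) (b (a (l 16575200) (l 16571832)) (a (c (b (l 16592848) (c (a (l 16603848) (l 16601768)) (l 16589664))) (b (l 16566952) (l 16570096))) (b (l 16597776) (c (a (l 16614368) (l 16591512)) (l 16568216)))))))) (b (a (l 16581392) (b (l 16523200) (l 16536136)))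 (b (a (a (l 16558688) (l 16555000)) (c (l 16558448) (l 16543056))) (a (b (c (l 16598472) (l 16556912)) (c (a (b (l 16584952) (a (l 16589656) (l 16587896))) (a (l 16605224) (l 16603696))) (a (l 16564800) (l 16563640)))) (c (b (l 16591784) (a (a (l 16602336) (l 16601160)) (a (l 16600192) (l 16599432)))) (a (l 16559200) (l 16559424)))))))))), by decide +kernel⟩

def k8_pm_012_a : ∃ t, chk3 f_pm_012_a t 3 2 1 = true :=
  ⟨(a (a (b (l 16633296) (a (l 16490632) (l 16465976))) (b (l 16487072) (a (l 16443136) (l 16431528)))) (a (b (l 16583632) (a (l 16445488) (b (l 16450872) (l 16462672)))) (b (a (b (l 16451352) (l 16451632)) (b (l 16453624) (l 16454744))) (a (b (l 16458248) (l 16472840)) (b (l 16463264) (a (l 16479072) (l 16482536))))))), by decide +kernel⟩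

def k9_pm_012_a : ∃ t, chk3 f_pm_012_a t 6 3 1 = true :=
  ⟨(b (a (b (l 16474904) (a (l 16465552) (l 16463104))) (b (l 16480448) (l 16573552))) (b (b (a (l 16570576) (l 16541696)) (a (a (l 16504880) (l 16514544)) (a (l 16525848) (l 16539000)))) (a (a (b (b (l 16524688) (l 16540112)) (b (a (l 16552880) (l 16561544)) (c (a (b (l 16573120) (a (l 16580584) (l 16585448))) (a (l 16585200) (l 16590000))) (a (l 16564856) (l 16574936))))) (b (l 16609808) (b (l 16596056) (b (l 16611736) (a (l 16617560) (l 16607128)))))) (a (b (l 16625616) (b (l 16636080) (b (l 16632352) (a (l 16617952) (l 16629088))))) (b (b (l 16569016) (l 16612024)) (b (l 16677536) (b (l 16654320) (a (l 16640552) (l 16652368))))))))), by decide +kernel⟩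

def k10_pm_012_a : ∃ t, chk3 f_pm_012_a t 7 3 1 = true :=
  ⟨(b (a (b (a (l 16467392) (l 16546544)) (a (l 16495584) (b (l 16506880) (l 16527216)))) (a (b (a (l 16494472) (l 16501024)) (a (l 16594544) (b (l 16528912) (l 16552904)))) (b (a (l 16507080) (b (l 16503416) (l 16521880))) (a (b (l 16536864) (l 16562336)) (b (l 16544336) (a (l 16569120) (l 16573480))))))) (a (b (a (l 16622680) (b (l 16541440) (l 16602648))) (b (a (a (l 16636224) (l 16635792)) (a (l 16635840) (l 16667824))) (b (a (a (l 16630976) (l 16642440)) (a (l 16696272) (l 16708592))) (b (a (a (l 16650768) (l 16662904)) (a (l 16675448) (l 16709376))) (a (a (l 16685528) (b (l 16673512) (l 16680728))) (b (a (l 16686376) (l 16699648)) (a (l 16714776) (c (l 16719824) (l 16705344))))))))) (b (a (b (a (l 16570160) (l 16581704)) (a (l 16602640) (b (l 16606736) (l 16625384)))) (a (b (a (l 16590080) (l 16595504)) (b (l 16619176) (l 16659760))) (b (a (l 16600824) (b (l 16597216) (l 16614896))) (a (b (l 16628216) (l 16648568))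 (b (l 16634104) (l 6)))))) (b (a (a (l 16683384) (b (l 16687600) (l 16678544))) (a (b (a (l 16656528) (l 6)) (l 6)) (l 6))) (a (a (a (b (l 16676176) (b (l 16698400) (b (l 16709864) (l 16728128)))) (b (l 16682672) (b (l 16726168) (l 6)))) (b (a (l 16710248) (l 6)) (l 6))) (l 6)))))), by decide +kernel⟩

theorem s11_pm_012_a : ∃ t, chk3 f_pm_012_a t 3 3 1 = true := ex3_a k9_pm_012_a k10_pm_012_a

theorem s12_pm_012_a : ∃ t, chk3 f_pm_012_a t 3 1 1 = true := ex3_b k8_pm_012_a s11_pm_012_a

theorem s13_pm_012_a : ∃ t, chk3 f_pm_012_a t 8 31 1 = true := ex3_a k4_pm_012_a k5_pm_012_a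

theorem s14_pm_012_a : ∃ t, chk3 f_pm_012_a t 8 15 1 = true := ex3_b k3_pm_012_a s13_pm_012_a

theorem s15_pm_012_a : ∃ t, chk3 f_pm_012_a t 8 7 1 = true := ex3_b k2_pm_012_a s14_pm_012_a

theorem s16_pm_012_a : ∃ t, chk3 f_pm_012_a t 4 7 1 = true := ex3_a s15_pm_012_a k6_pm_012_a

theorem s17_pm_012_a : ∃ t, chk3 f_pm_012_a t 4 3 1 = true := ex3_b k1_pm_012_a s16_pm_012_a

theorem s18_pm_012_a : ∃ t, chk3 f_pm_012_a t 4 1 1 = true := ex3_b k0_pm_012_a s17_pm_012_a

theorem s19_pm_012_a : ∃ t, chk3 f_pm_012_a t 2 1 1 = true := ex3_a s18_pm_012_a k7_pm_012_a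

theorem s20_pm_012_a : ∃ t, chk3 f_pm_012_a t 1 1 1 = true := ex3_a s19_pm_012_a s12_pm_012_a

theorem c_pm_012_a : CertF 0 536870912 0 536870912 469762048 67108864 false true false .pnp 0 1 2
    ndF0q0 ndF1q2a pcF1 cut_pm_012_a Ext.none :=
  certF2 (fam := false) (s1 := true) (s2 := false) (a := 0) (b := 1) (c := 2) (cn := .pnp) (n1 := ndF0q0) (n2 := ndF1q2a) (pc := pcF1) (cut := cut_pm_012_a) (xt := Ext.none) (P1 := 0) (W1 := 536870912) (P2 := 0) (W2 := 536870912) (P3 := 469762048) (W3 := 67108864)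
    rfl (fun _ => rfl) s20_pm_012_a

noncomputable def cut_pm_012_b : Cut := Cut.of [[⟨0, 0, 0, 67108864⟩, ⟨1, 1, 0, 67108864⟩, ⟨2, 1, 0, 67108864⟩], [⟨0, 0, 1, 33554432⟩, ⟨1, 1, 2, 33554432⟩, ⟨2, 1, 0, 33554432⟩]]

noncomputable def f_pm_012_b : ℕ → ℕ → ℕ → ℕ → Bool := onCell 0 536870912 536870912 536870912 469762048 67108864
    (rowF 1 false true false .pnp 0 1 2 (qsf 0 536870912 1239849684 370763052 1) ndF0q0 ndF1q2b pcF1 cut_pm_012_b Ext.none)

def k0_pm_012_b : ∃ t, chk3 f_pm_012_b t 1 1 1 = true :=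
  ⟨(a (b (l 1) (b (l 1) (a (l 1) (b (a (l 1) (a (l 299070145687) (a (l 266321007703) (l 225518823783)))) (a (b (a (l 1) (l 172905521143)) (a (l 85395645879) (l 16452968))) (b (l 16560096) (a (l 16414792) (l 16384280)))))))) (b (a (l 1) (b (l 1) (a (b (l 1) (a (l 291554435671) (l 231962038119))) (b (a (l 298533911847) (l 196528343447)) (l 91838757207))))) (a (b (a (b (l 1) (a (l 350073074007) (l 243772659815))) (b (a (l 289406796407) (l 343093805415)) (b (l 16705912) (l 16417568)))) (a (b (a (b (l 16470168) (l 16421848)) (l 16414856)) (b (l 16428864) (a (l 16362056) (l 16348728)))) (b (b (l 16413392) (l 16398600)) (b (l 16397248) (a (l 16345416) (l 16354192)))))) (b (a (b (a (l 132640466919) (l 16524896)) (l 16488280)) (b (l 16485680) (l 16518032))) (a (b (b (l 16443296) (l 16431904)) (b (l 16415264) (a (l 16377400) (l 16415648)))) (b (l 16559472) (b (l 16507160) (a (l 16466984) (l 16559728))))))))), by decide +kernel⟩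

theorem c_pm_012_b : CertF 0 536870912 1239849684 370763052 469762048 67108864 false true false .pnp 0 1 2
    ndF0q0 ndF1q2b pcF1 cut_pm_012_b Ext.none :=
  certF1 (fam := false) (s1 := true) (s2 := false) (a := 0) (b := 1) (c := 2) (cn := .pnp) (n1 := ndF0q0) (n2 := ndF1q2b) (pc := pcF1) (cut := cut_pm_012_b) (xt := Ext.none) (P1 := 0) (W1 := 536870912) (P2 := 1239849684) (W2 := 370763052) (P3 := 469762048) (W3 := 67108864)
    rfl (fun _ => rfl) k0_pm_012_b

noncomputable def cut_pm_022_a : Cut := Cut.of [[⟨0, 0, 0, 67108864⟩, ⟨1, 1, 0, 67108864⟩, ⟨2, 1, 0, 67108864⟩]]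

noncomputable def f_pm_022_a : ℕ → ℕ → ℕ → ℕ → Bool := onCell 1073741824 536870912 0 536870912 469762048 67108864
    (rowF 2 false true false .pp 0 2 2 (qsf 0 536870912 0 536870912 2) ndF0q0 ndF1q2a pcF2 cut_pm_022_a Ext.none)

def k0_pm_022_a : ∃ t, chk3 f_pm_022_a t 1 1 1 = true :=
  ⟨(a (a (b (a (b (a (l 16560952) (b (l 16455320) (l 16460656))) (a (b (l 16468344) (l 16531032)) (b (l 16474144) (l 16518408)))) (b (c (l 16559672) (l 16559488)) (b (l 16600192) (a (l 16500864) (a (l 16508296) (l 207265281767)))))) (b (a (a (b (a (l 16539432) (l 16525136)) (a (b (l 16551848) (l 16580056)) (b (l 16559640) (l 16588584)))) (a (b (l 16530640) (a (l 16642208) (l 16603296))) (b (l 16534816) (l 16649040)))) (b (a (c (l 16601312) (l 16600992)) (a (b (l 16544424) (l 238403807687)) (b (l 336114304119) (l 1)))) (a (b (a (l 16576456) (a (l 16589016) (l 329135051351))) (a (b (l 16605224) (a (l 16621800) (l 16630216))) (b (l 359736747623) (l 1)))) (b (a (l 372084759159) (l 1)) (l 1)))))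 (a (b (b (a (a (a (l 16610960) (l 16615936)) (b (l 16613520) (l 16632016))) (a (l 16672408) (a (l 16701144) (b (l 16635280) (l 253436379719))))) (a (l 6) (a (l 6) (a (l 6) (a (l 6) (l 1)))))) (a (l 6) (a (l 6) (l 1)))) (b (a (b (a (b (a (l 242162073351) (l 388727844663)) (l 396244075687)) (l 1)) (l 1)) (l 1)) (l 1))))) (b (a (b (a (b (l 16474032) (l 207265203911)) (l 417718564999)) (a (b (a (l 16499560) (l 320008110679)) (a (l 339335482055) (l 1))) (l 1))) (l 1)) (b (l 1) (l 1)))) (l 1)), by decide +kernel⟩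

theorem c_pm_022_a : CertF 0 536870912 0 536870912 469762048 67108864 false true false .pp 0 2 2
    ndF0q0 ndF1q2a pcF2 cut_pm_022_a Ext.none :=
  certF2 (fam := false) (s1 := true) (s2 := false) (a := 0) (b := 2) (c := 2) (cn := .pp) (n1 := ndF0q0) (n2 := ndF1q2a) (pc := pcF2) (cut := cut_pm_022_a) (xt := Ext.none) (P1 := 0) (W1 := 536870912) (P2 := 0) (W2 := 536870912) (P3 := 469762048) (W3 := 67108864)
    rfl (fun _ => rfl) k0_pm_022_a

noncomputable def cut_pm_022_b : Cut := Cut.of [[⟨0, 0, 0, 67108864⟩, ⟨1, 1, 0, 67108864⟩, ⟨2, 1, 0, 67108864⟩]]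

noncomputable def f_pm_022_b : ℕ → ℕ → ℕ → ℕ → Bool := onCell 0 536870912 1073741824 536870912 469762048 67108864
    (rowF 1 false true false .pp 0 2 2 (qsf 0 536870912 1239849684 370763052 2) ndF0q0 ndF1q2b pcF2 cut_pm_022_b Ext.none)

def k0_pm_022_b : ∃ t, chk3 f_pm_022_b t 1 1 1 = true :=
  ⟨(a (b (b (a (a (b (l 1) (a (a (l 1) (l 278132228583)) (b (l 184716727431) (l 16452600)))) (b (a (b (l 1) (l 144451344263)) (b (l 16543560) (l 16452544))) (a (l 16549192) (l 16381544)))) (b (a (b (a (l 16473536) (l 16410344)) (l 16452472)) (b (a (l 16375440) (l 16348416)) (l 16351616))) (a (b (l 16349960) (l 16311056)) (b (l 16301528) (l 16272896))))) (a (a (b (a (b (a (l 158409856279) (l 16470000)) (l 16405280)) (l 16397480)) (a (l 16418488) (l 16275992))) (b (l 16386280) (l 16250624))) (b (a (l 16378488) (l 16229792)) (a (l 16191608) (l 16168808))))) (b (a (b (a (c (l 16336528) (l 16334768)) (l 16122144)) (a (b (l 16110680) (l 16064912)) (l 15955768))) (b (a (l 16077608) (l 16099128))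 (a (l 16056016) (l 16353608)))) (a (b (a (l 16158160) (l 16117128)) (a (l 16260208) (l 16438880))) (b (l 16466096) (l 2))))) (b (a (b (b (a (b (a (l 16329824) (l 16320264)) (l 16345728)) (b (a (l 16320920) (l 16396856)) (l 16336848))) (a (b (l 16284688) (l 16265816)) (b (l 16306368) (l 16296744)))) (b (a (l 16237136) (l 16281536)) (a (l 16195720) (l 16463392)))) (b (b (a (b (a (b (l 16362352) (l 16361192)) (b (l 16404360) (l 16405616))) (a (l 16359456) (l 16407328))) (a (b (b (l 16459728) (l 16465304)) (l 16522544)) (b (l 16483992) (l 16652120)))) (a (l 16447288) (b (l 16645296) (l 2)))) (a (b (l 16559584) (l 2)) (l 2)))) (b (a (b (l 16510584) (l 2)) (l 2)) (l 2)))), by decide +kernel⟩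

theorem c_pm_022_b : CertF 0 536870912 1239849684 370763052 469762048 67108864 false true false .pp 0 2 2
    ndF0q0 ndF1q2b pcF2 cut_pm_022_b Ext.none :=
  certF1 (fam := false) (s1 := true) (s2 := false) (a := 0) (b := 2) (c := 2) (cn := .pp) (n1 := ndF0q0) (n2 := ndF1q2b) (pc := pcF2) (cut := cut_pm_022_b) (xt := Ext.none) (P1 := 0) (W1 := 536870912) (P2 := 1239849684) (W2 := 370763052) (P3 := 469762048) (W3 := 67108864)
    rfl (fun _ => rfl) k0_pm_022_b

noncomputable def f_pm_023 : ℕ → ℕ → ℕ → ℕ → Bool := onCell 0 536870912 1073741824 536870912 469762048 67108864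
    (rowF 1 false true false .up 0 2 3 (qsf 0 536870912 1610612736 536870912 2) ndF0q0 ndF1q3 pcF2 Cut.none Ext.none)

def k0_pm_023 : ∃ t, chk3 f_pm_023 t 1 1 1 = true :=
  ⟨(a (b (b (l 1) (a (l 1) (b (l 1) (a (l 1) (l 234108970823))))) (b (a (b (l 1) (a (l 1) (l 254509688375))) (b (l 251288728071) (l 233034889447))) (a (b (b (l 259878113799) (l 274910268151)) (a (l 308732862567) (l 16347608))) (b (l 16442960) (l 16633768))))) (b (a (b (b (l 1) (a (l 1) (l 246993771751))) (b (a (l 243235894647) (l 16560344)) (a (l 16419176) (l 16536584)))) (b (b (a (l 255583945527) (b (a (l 264174064727) (l 232498795095)) (l 104723151335))) (a (l 248604573143) (a (l 16760360) (l 16815360)))) (a (b (l 16661560) (l 16702808)) (b (l 16784936) (l 16793680))))) (a (b (b (l 16541504) (l 16650752)) (b (l 16739592) (l 16805072))) (b (b (l 16784744) (l 16815624)) (l 17017480))))), by decide +kernel⟩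

theorem c_pm_023 : CertF 0 536870912 1610612736 536870912 469762048 67108864 false true false .up 0 2 3
    ndF0q0 ndF1q3 pcF2 Cut.none Ext.none :=
  certF1 (fam := false) (s1 := true) (s2 := false) (a := 0) (b := 2) (c := 3) (cn := .up) (n1 := ndF0q0) (n2 := ndF1q3) (pc := pcF2) (cut := Cut.none) (xt := Ext.none) (P1 := 0) (W1 := 536870912) (P2 := 1610612736) (W2 := 536870912) (P3 := 469762048) (W3 := 67108864)
    rfl (fun _ => rfl) k0_pm_023

noncomputable def f_pm_033 : ℕ → ℕ → ℕ → ℕ → Bool := onCell 1610612736 536870912 1610612736 536870912 469762048 67108864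
    (rowF 2 false true false .pnn 0 3 3 (qsf 0 536870912 1610612736 536870912 3) ndF0q0 ndF1q3 pcF3 Cut.none Ext.none)

def k0_pm_033 : ∃ t, chk3 f_pm_033 t 1 1 1 = true :=
  ⟨(a (b (a (a (b (l 4) (l 16728672)) (l 4)) (l 4)) (a (b (a (l 16834864) (l 16853928)) (a (l 16845728) (l 16848552))) (a (b (l 4) (l 16853136)) (l 4)))) (l 4)), by decide +kernel⟩

theorem c_pm_033 : CertF 0 536870912 1610612736 536870912 469762048 67108864 false true false .pnn 0 3 3
    ndF0q0 ndF1q3 pcF3 Cut.none Ext.none :=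
  certF2 (fam := false) (s1 := true) (s2 := false) (a := 0) (b := 3) (c := 3) (cn := .pnn) (n1 := ndF0q0) (n2 := ndF1q3) (pc := pcF3) (cut := Cut.none) (xt := Ext.none) (P1 := 0) (W1 := 536870912) (P2 := 1610612736) (W2 := 536870912) (P3 := 469762048) (W3 := 67108864)
    rfl (fun _ => rfl) k0_pm_033

noncomputable def f_pm_101 : ℕ → ℕ → ℕ → ℕ → Bool := onCell 0 536870912 536870912 536870912 469762048 67108864
    (rowF 2 false true false .npn 1 0 1 (qsf 536870912 536870912 536870912 536870912 0) ndF0q1 ndF1q1 pcF0 Cut.none Ext.none)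

def k0_pm_101 : ∃ t, chk3 f_pm_101 t 1 1 1 = true :=
  ⟨(a (b (l 4) (a (b (a (b (l 4) (a (l 16875192) (l 4))) (l 4)) (a (a (b (l 17082128) (l 16937096)) (b (b (l 16882520) (l 16889128)) (l 16929928))) (b (b (l 4) (a (l 16874856) (l 16854952))) (b (a (l 16877696) (l 16855376)) (l 16864272))))) (b (l 4) (b (l 4) (a (a (b (l 16828552) (l 16820952)) (b (l 4) (l 16785904))) (a (l 16806272) (l 4))))))) (l 4)), by decide +kernel⟩

theorem c_pm_101 : CertF 536870912 536870912 536870912 536870912 469762048 67108864 false true false .npn 1 0 1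
    ndF0q1 ndF1q1 pcF0 Cut.none Ext.none :=
  certF2 (fam := false) (s1 := true) (s2 := false) (a := 1) (b := 0) (c := 1) (cn := .npn) (n1 := ndF0q1) (n2 := ndF1q1) (pc := pcF0) (cut := Cut.none) (xt := Ext.none) (P1 := 536870912) (W1 := 536870912) (P2 := 536870912) (W2 := 536870912) (P3 := 469762048) (W3 := 67108864)
    rfl (fun _ => rfl) k0_pm_101

noncomputable def cut_pm_102_a : Cut := Cut.of [[⟨0, 1, 0, 67108864⟩, ⟨1, 0, 0, 67108864⟩, ⟨2, 1, 0, 67108864⟩], [⟨0, 0, 1, 33554432⟩, ⟨1, 1, 2, 33554432⟩, ⟨2, 1, 0, 33554432⟩]]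

noncomputable def f_pm_102_a : ℕ → ℕ → ℕ → ℕ → Bool := onCell 536870912 536870912 0 536870912 469762048 67108864
    (rowF 0 false true false .npp 1 0 2 (qsf 536870912 536870912 0 536870912 0) ndF0q1 ndF1q2a pcF0 cut_pm_102_a Ext.none)

def k0_pm_102_a : ∃ t, chk3 f_pm_102_a t 2 2 1 = true :=
  ⟨(a (a (l 2) (b (l 2) (b (l 2) (l 16864744)))) (a (a (b (l 16850176) (b (l 16863752) (l 16845192))) (b (l 16821192) (b (l 16865432) (l 16848920)))) (b (a (l 16839968) (b (l 16777432) (l 16784976))) (b (a (l 16821528) (l 16799072)) (a (l 16839008) (l 16818800)))))), by decide +kernel⟩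

def k1_pm_102_a : ∃ t, chk3 f_pm_102_a t 4 6 1 = true :=
  ⟨(a (l 2) (b (a (l 2) (l 16817576)) (a (l 16763936) (l 16921040)))), by decide +kernel⟩

def k2_pm_102_a : ∃ t, chk3 f_pm_102_a t 8 14 1 = true :=
  ⟨(a (l 2) (b (l 16745688) (a (l 16741912) (l 16768048)))), by decide +kernel⟩

def k3_pm_102_a : ∃ t, chk3 f_pm_102_a t 8 30 1 = true :=
  ⟨(a (a (l 2) (b (l 16722896) (l 16732224))) (a (b (l 16752560) (l 16761312)) (b (l 16777936) (l 16787264)))), by decide +kernel⟩

def k4_pm_102_a : ∃ t, chk3 f_pm_102_a t 16 31 1 = true :=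
  ⟨(b (a (a (l 2) (l 16719464)) (a (l 16735456) (l 16750552))) (a (b (b (l 16635384) (c (l 16762840) (l 16619872))) (a (b (c (l 16759032) (l 16656344)) (c (c (l 16783712) (a (l 16738480) (l 16746504))) (c (b (l 16700416) (a (c (l 16708352) (l 14)) (a (l 16683416) (l 16708584)))) (l 14)))) (c (b (l 16774272) (a (l 16732560) (l 16781824))) (b (l 16673640) (a (b (l 16692856) (c (b (l 16714328) (l 16694248)) (l 14))) (b (l 16701200) (c (l 16722824) (b (l 16682464) (c (l 16682752) (l 14)))))))))) (b (c (a (l 16783176) (l 16796904)) (a (l 16706520) (l 16722216))) (c (a (b (l 16788632) (c (l 16811984) (l 16772792))) (a (l 16800680) (l 16807120))) (a (b (l 16710976) (c (a (l 16708832) (l 16737432)) (b (l 16693768) (c (a (l 16701040) (l 16709016)) (a (l 14) (a (l 14) (l 16691552))))))) (b (l 16726448) (c (a (l 16744848) (l 16752016)) (c (a (l 16716040) (l 16723560)) (b (l 16700096) (a (l 16697520) (l 16705272))))))))))), by decide +kernel⟩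

def k5_pm_102_a : ∃ t, chk3 f_pm_102_a t 17 31 1 = true :=
  ⟨(b (a (a (l 16764744) (l 16778176)) (b (l 16795888) (l 16802944))) (a (b (a (c (l 16809816) (l 16737072)) (c (l 16823280) (l 16752896))) (a (c (b (l 16815304) (l 16798472)) (b (c (l 16760032) (l 16723296)) (a (b (l 16739920) (c (l 16760496) (a (l 16720728) (l 16725296)))) (c (l 16767976) (b (l 16730264) (c (l 16741512) (l 16723160))))))) (c (l 16831952) (b (l 16758696) (c (l 16780776) (b (l 16744136) (b (l 16745744) (a (a (l 16739872) (l 16723552)) (b (l 16751184) (a (l 16728456) (l 16733072))))))))))) (b (c (l 16844320) (l 16778112)) (c (a (l 16846496) (l 16860672)) (a (b (l 16776016) (c (l 16797568) (b (l 16762360) (b (l 16743080) (a (a (a (l 16736240) (l 16738528)) (l 16741952)) (a (l 16746504) (l 16772000))))))) (b (l 16792992) (c (l 16814000) (b (l 16780232) (a (c (l 16786384) (l 16769912)) (l 16787032)))))))))), by decide +kernel⟩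

def k6_pm_102_a : ∃ t, chk3 f_pm_102_a t 9 7 1 = true :=
  ⟨(b (a (b (l 16790328) (a (l 16790320) (l 16811752))) (b (l 16826632) (l 16842120))) (a (b (a (b (l 16802064) (l 16813384)) (l 16832384)) (b (a (l 16827856) (l 16854816)) (a (c (a (l 16869488) (l 16882656)) (b (l 16810664) (a (a (b (l 16805464) (l 16789328)) (l 16816088)) (l 16807232)))) (a (b (l 16861912) (l 16851144)) (l 16880544))))) (b (a (l 16855672) (l 16877000)) (c (a (l 16914384) (l 16934960)) (b (l 16868832) (a (l 16875408) (l 16902032))))))), by decide +kernel⟩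

def k7_pm_102_a : ∃ t, chk3 f_pm_102_a t 5 3 1 = true :=
  ⟨(b (a (b (a (l 16834936) (l 16844272)) (a (b (l 16836664) (l 16843616)) (l 16855480))) (b (a (l 16845624) (l 16840008)) (a (l 16946008) (b (l 16853000) (l 16868024))))) (a (b (a (b (l 16856336) (l 16876024)) (b (l 16876720) (l 16899504))) (c (b (a (l 16922120) (l 16943968)) (a (b (l 16949904) (l 17011128)) (b (l 16973192) (l 17016688)))) (b (a (l 16887360) (l 16918336)) (a (b (l 16914416) (a (l 16925848) (l 16967296))) (b (l 16947512) (a (l 16963416) (l 16977184))))))) (b (a (b (l 16887264) (l 16912480)) (b (l 16888536) (l 16915568))) (b (a (b (l 16936464) (l 16955136)) (b (l 16940576) (l 16959704))) (a (b (a (l 16973168) (l 16978296)) (c (l 17028480) (a (l 16987696) (l 16995040)))) (b (a (l 16980608) (l 16980424)) (a (l 17024656) (l 17024248)))))))), by decide +kernel⟩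

def k8_pm_102_a : ∃ t, chk3 f_pm_102_a t 12 2 1 = true :=
  ⟨(b (a (b (a (l 16777568) (a (l 16784600) (l 16784560))) (l 16776184)) (a (b (b (l 16776480) (l 16782456)) (l 16785576)) (b (b (a (l 16766728) (b (a (l 16758456) (b (l 16750320) (l 16755624))) (l 16761496))) (a (l 16775112) (l 16768544))) (b (l 16779400) (l 16784600))))) (a (b (l 16783160) (l 16800224)) (b (l 16778272) (l 16785112)))), by decide +kernel⟩

def k9_pm_102_a : ∃ t, chk3 f_pm_102_a t 26 8 1 = true :=
  ⟨(a (b (a (b (c (a (b (a (l 93583253831) (l 105931284023)) (l 16752496)) (b (l 116131825767) (a (l 97341350583) (l 108615635463)))) (a (b (a (l 94656996023) (b (l 108615635047) (l 98415089735))) (l 16750248)) (b (l 111836856599) (a (b (l 100025700967) (l 16747920)) (b (l 112373728519) (l 101636312199)))))) (a (l 16755392) (b (c (l 16750832) (a (l 16749680) (l 16747744))) (l 16752488)))) (c (b (l 3) (a (b (a (l 101636314631) (l 111836857847)) (l 88751411431)) (b (l 3) (a (l 104857536855) (l 115058080231)))))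 (b (l 3) (a (b (a (b (l 103783794343) (l 16746384)) (l 108078759255)) (a (l 16748144) (l 91972633303))) (b (l 3) (a (b (l 107541887751) (l 95730727799)) (l 111299981799))))))) (a (b (l 16758496) (l 16763448)) (b (a (l 16752240) (b (a (l 16747640) (b (c (l 96804470775) (l 98415082791)) (l 16746128))) (l 16749288))) (l 16755424)))) (b (l 3) (a (c (b (a (b (a (l 108078759111) (l 118816173575)) (a (l 16746944) (l 97878212823))) (b (l 3) (l 113984339495))) (a (l 16750520) (b (a (l 16745216) (l 104320660471)) (l 16747208)))) (b (a (b (a (b (l 111836852103) (l 100562564919)) (l 114521204359)) (a (l 16745056) (b (l 102710047063) (l 16743688)))) (b (l 3) (a (b (l 129553589319) (l 105931271047)) (l 3)))) (a (l 16747624) (b (a (l 91972627927) (b (l 108078753223) (l 95193851495))) (l 16744912))))) (c (b (l 3) (a (b (l 117205556679) (a (l 92509498663) (l 108078753639))) (l 120963648263))) (b (l 3) (a (b (a (l 112910589095) (l 3)) (a (b (l 97878206503) (l 16742576)) (b (l 113447459447)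 (l 100562559575)))) (b (l 3) (a (l 116668682647) (l 3))))))))), by decide +kernel⟩

def k10_pm_102_a : ∃ t, chk3 f_pm_102_a t 26 9 1 = true :=
  ⟨(a (b (a (l 16770352) (l 16763024)) (l 16775496)) (b (a (b (l 16752312) (l 16757592)) (b (a (b (c (l 16745488) (l 16743392)) (l 16747224)) (b (a (b (c (l 101099431287) (l 103246912647)) (l 16741832)) (b (l 119889908583) (c (l 104320655159) (l 107005007575)))) (c (l 16743760) (a (l 16742864) (l 92509493623))))) (a (l 16751336) (l 16747040)))) (a (l 16765184) (l 16757312)))), by decide +kernel⟩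

def k11_pm_102_a : ∃ t, chk3 f_pm_102_a t 27 4 1 = true :=
  ⟨(b (l 3) (a (b (a (c (b (a (b (l 3) (a (l 104857525959) (l 116668682055))) (l 3)) (a (b (l 90362011463) (l 16745296)) (b (l 113447455607) (l 93583234791)))) (b (a (b (l 3) (a (b (l 109689360711) (l 95730717351)) (b (l 3) (l 112373713847)))) (l 3)) (a (b (a (l 16741368) (b (l 98951943143) (l 16740000))) (l 16742824)) (b (a (b (l 115594937911) (l 102173167159)) (l 119353032055)) (a (l 16739864) (c (l 100025683911) (l 102173166167))))))) (b (l 3) (a (b (l 3) (a (b (l 128479837975) (c (l 109152487975) (l 109689359671))) (l 3))) (l 3)))) (c (a (b (l 16747680) (l 16754032)) (b (a (b (l 97878201143) (l 16741856)) (b (l 120963642391) (a (l 93046359767) (l 111299968391)))) (a (l 16746776) (l 16741792)))) (a (b (l 16744544) (l 16749456)) (b (a (b (a (l 93583230711) (b (l 112910581111) (l 97878196279))) (l 16739864)) (c (b (l 119889899623) (l 104320647351)) (b (a (l 118279287415) (l 3)) (a (l 100025680455) (b (l 119353028775)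 (l 107004999767)))))) (a (l 16743624) (b (l 16738400) (l 16740928))))))) (c (b (l 3) (a (b (l 125795483271) (a (b (l 105394387543) (l 16738416)) (b (l 3) (l 113984319111)))) (l 3))) (b (l 3) (a (b (a (b (l 3) (l 127406099751)) (l 3)) (a (c (b (l 110763095431) (l 16737344)) (b (a (b (l 110763094791) (l 16735688)) (l 117205543495)) (l 96267580935))) (b (l 3) (a (b (l 117205543591) (l 102173160231)) (l 122574250519))))) (l 3)))))), by decide +kernel⟩

def k12_pm_102_a : ∃ t, chk3 f_pm_102_a t 13 5 1 = true :=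
  ⟨(a (b (a (l 16868680) (b (l 16771168) (l 16779712))) (a (l 16778824) (l 16784632))) (b (a (b (a (l 16759880) (b (l 16748688) (l 16754376))) (l 16808600)) (b (a (b (a (l 16742096) (b (a (l 16737272) (c (l 95730710103) (c (l 100025675383) (l 103246901287)))) (l 16739096))) (l 16745744)) (c (b (a (b (l 118816154423) (l 97341323111)) (l 124721729847)) (a (l 16740104) (b (l 102173158263) (l 16736736)))) (c (b (a (b (l 118816153655) (l 101636289015)) (l 124721729303)) (a (l 16738552) (b (l 105931253575) (l 16735712)))) (b (a (b (a (l 116668670647) (l 3)) (a (l 16734720) (b (l 116131799415) (l 101099414439)))) (b (l 3) (l 124184859415))) (a (l 16737480) (b (a (l 102173157815) (l 116131798039)) (l 16734920))))))) (a (l 16754560) (b (a (l 16745072) (l 16740624)) (l 16748920))))) (a (b (l 16776656) (l 16783904)) (b (a (l 16766120) (l 16758048)) (l 16815504))))), by decide +kernel⟩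

def k13_pm_102_a : ∃ t, chk3 f_pm_102_a t 14 4 1 = true :=
  ⟨(l 3), by decide +kernel⟩

def k14_pm_102_a : ∃ t, chk3 f_pm_102_a t 28 10 1 = true :=
  ⟨(a (b (a (b (l 3) (c (a (b (l 129016696455) (l 111836831783)) (l 3)) (a (b (l 128479824759) (c (l 113984314647) (a (l 110226218967) (l 122574246583)))) (l 3)))) (l 3)) (a (c (b (a (l 87140775943) (b (l 116668667271) (l 94656965207))) (l 16741304)) (b (a (b (a (l 16734992) (b (l 101636284167) (l 16733648))) (l 16736696)) (b (a (b (l 123111117719) (l 106468121687)) (l 128479824743)) (a (l 16733680) (b (l 110763087767) (l 16732344))))) (a (l 16740840) (l 16736824)))) (b (a (b (l 3) (a (c (l 119353020903) (b (l 3) (l 118279279367))) (l 3))) (l 3)) (a (b (c (l 100025671719) (a (l 98415058631) (b (l 123111116471) (l 105394378727)))) (c (l 16735480) (l 16734184))) (b (a (c (l 126869211319) (l 129016694439)) (l 3)) (c (l 105394378183) (c (l 110763086727) (a (l 107541862103) (l 123111115159))))))))) (l 3)), by decide +kernel⟩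

def k15_pm_102_a : ∃ t, chk3 f_pm_102_a t 28 11 1 = true :=
  ⟨(a (b (a (b (l 16746312) (l 16752616)) (b (a (l 16739640) (c (l 16735800) (b (a (l 16733992) (l 97878186855)) (l 16735856)))) (l 16743840))) (a (l 16762120) (b (l 16750368) (l 16756952)))) (b (a (c (b (a (b (l 116131794007) (l 94120092567)) (l 124184853383)) (a (l 16738016) (b (l 104320639639) (l 16734808)))) (b (c (a (b (l 119353019143) (l 99488799175)) (l 127406078727)) (a (b (a (l 117205536407) (l 130627305959)) (a (l 16732520) (l 107541861431))) (b (l 3) (l 126869209351)))) (a (l 16736224) (b (a (l 98415057415) (b (l 123647985879) (l 105394377591))) (l 16733672))))) (b (l 3) (a (c (b (l 127406079063) (l 109689344183)) (b (l 131701051367) (a (b (l 111299956487) (l 16731392)) (l 123647985399)))) (l 3)))) (a (b (a (l 16743760) (l 16739296)) (l 16748288)) (c (b (a (l 16735384) (b (l 115594922199) (l 97341318743))) (l 16740464)) (c (b (a (l 16734512) (b (l 120426760263) (l 101636282967))) (l 16738896)) (b (a (b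 (l 100025669799) (l 16735280)) (b (a (l 118816148535) (l 133311659927)) (l 106468121287))) (l 16737848))))))), by decide +kernel⟩

def k16_pm_102_a : ∃ t, chk3 f_pm_102_a t 29 5 1 = true :=
  ⟨(b (l 3) (a (b (l 3) (a (c (b (a (l 124721723687) (l 3)) (a (b (l 104320640151) (l 16734888)) (b (l 128479820919) (l 109152473623)))) (b (a (b (l 3) (a (l 125258598215) (l 3))) (l 3)) (a (b (a (l 100562541751) (b (l 126332340503) (l 108615603783))) (l 16733912)) (b (l 134385400871) (a (l 110763087559) (l 126332340567)))))) (l 3))) (l 3))), by decide +kernel⟩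

def k17_pm_102_a : ∃ t, chk3 f_pm_102_a t 15 2 1 = true :=
  ⟨(l 3), by decide +kernel⟩

def k18_pm_102_a : ∃ t, chk3 f_pm_102_a t 6 3 1 = true :=
  ⟨(b (a (b (a (b (l 16818088) (l 16831160)) (b (l 16800520) (l 16814128))) (a (c (l 16896048) (l 16852552)) (b (l 16830032) (l 16848160)))) (b (a (l 16811528) (b (a (l 16780112) (l 16803584)) (l 16781232))) (a (a (b (l 16816464) (c (l 16941296) (l 16837136))) (b (l 16807040) (c (l 16931096) (l 16826320)))) (a (b (l 16797392) (l 16814224)) (l 16827056))))) (a (b (b (a (l 16882696) (a (l 16874592) (l 16867088))) (a (a (l 16912736) (l 16908792)) (c (a (l 16988544) (l 16957424)) (b (l 16890952) (l 16925536))))) (a (b (b (a (l 16938144) (l 16934240)) (a (l 16957328) (a (l 16954312) (l 16949768)))) (a (a (b (l 16978952) (b (l 16995464) (l 17026264))) (b (l 16997648) (l 16994128))) (b (l 17009760) (l 16982264)))) (b (b (a (l 16967416) (l 16912344)) (l 16932352)) (b (l 16945912) (l 16980760))))) (b (a (b (a (l 16878048) (l 16845680))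 (c (l 16876336) (l 16874272))) (a (b (l 16834368) (l 16856264)) (b (l 16822992) (l 16844192)))) (b (a (a (l 16905728) (l 16892792)) (c (l 16897568) (l 16892976))) (a (a (l 16932080) (l 16939568)) (a (l 16926264) (b (l 16885616) (l 16898464)))))))), by decide +kernel⟩

def k19_pm_102_a : ∃ t, chk3 f_pm_102_a t 28 6 1 = true :=
  ⟨(b (a (b (c (l 16774680) (l 16767240)) (l 16781472)) (a (b (l 16779584) (l 16772240)) (b (b (l 16746400) (l 16753504)) (l 16806280)))) (a (c (l 16893096) (l 16784664)) (b (l 16765008) (l 16782832)))), by decide +kernel⟩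

def k20_pm_102_a : ∃ t, chk3 f_pm_102_a t 29 6 1 = true :=
  ⟨(b (a (b (a (b (a (l 16739752) (b (c (l 16733816) (a (l 16734112) (l 102710026663))) (l 16737088))) (a (l 16746936) (l 16742528))) (c (b (a (b (l 117205535815) (l 98951933623)) (l 127406079495)) (a (l 16738792) (b (l 105931251655) (l 16735872)))) (b (c (a (b (l 122574244919) (l 105394381767)) (l 131701046855)) (a (b (l 126869214359) (l 109689348215)) (b (l 3) (l 133311661639)))) (a (l 16737368) (b (a (l 105394382951) (l 121500508279)) (l 16735048)))))) (a (b (l 16752096) (l 16759584)) (b (a (l 16745528) (l 16746368)) (l 16771912)))) (b (a (b (l 3) (a (c (b (l 133311661159) (l 113984314151)) (b (l 138680370199) (a (b (l 121500506567) (l 16732920)) (l 131701052151)))) (l 3))) (l 3)) (a (b (a (b (a (l 16735936) (c (l 16733888) (l 108078739751))) (l 16738616)) (b (a (c (l 117205540295) (l 124721732839)) (l 3)) (a (c (l 16735536) (l 16734992)) (c (l 105931257367) (b (l 125795475767) (l 109152481511)))))) (a (l 16744384)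 (b (c (l 16738512) (l 16737536)) (l 16741952)))) (c (b (a (l 132237931543) (l 3)) (a (b (a (l 96804453959) (l 120963638967)) (l 16737920)) (b (l 3) (a (l 106468127527) (l 132774798807))))) (b (a (b (l 3) (a (l 134922279607) (l 3))) (l 3)) (a (b (a (l 111836839191) (l 127942960535)) (a (l 16738160) (l 104320648023))) (b (l 3) (a (b (l 130090445495) (l 113447451959)) (l 138680378519))))))))) (a (a (b (l 16770872) (l 16781264)) (b (a (l 16785760) (l 16802504)) (l 16777840))) (b (b (a (a (l 16752240) (l 16747888)) (a (b (l 16741536) (l 16745536)) (a (b (l 16738280) (l 16742280)) (b (c (l 100562554071) (l 113984322999)) (l 16740120))))) (a (l 16779096) (a (l 16751648) (b (l 16745264) (l 16749376))))) (a (b (l 16787272) (l 16795336)) (b (a (l 16759960) (l 16755664)) (l 16745336)))))), by decide +kernel⟩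

def k21_pm_102_a : ∃ t, chk3 f_pm_102_a t 15 6 1 = true :=
  ⟨(a (b (l 3) (a (b (a (a (c (b (b (l 127942962279) (a (l 16738200) (l 116131807079))) (b (l 16741376) (l 16745832))) (b (b (a (l 131701059687) (l 3)) (a (l 108078748503) (l 124721741063))) (b (l 16740448) (l 16744296)))) (b (b (l 3) (l 3)) (c (b (a (l 104857525879) (l 129016709095)) (a (l 16742280) (l 95193851927))) (b (a (l 118279293559) (l 135996030311)) (a (l 16741344) (l 112910591367)))))) (b (l 3) (a (a (b (l 3) (c (l 120963649047) (l 129553582839))) (l 3)) (l 3)))) (a (b (a (b (l 16749248) (l 16753480)) (b (c (l 16745608) (l 16744280)) (l 16749192))) (a (l 16759952) (l 16781896))) (b (c (a (b (a (l 16742088) (b (l 123111134567) (l 96804466071))) (a (l 16746640) (l 16744296))) (b (l 134922291847) (a (b (l 113447465271) (l 16743104)) (l 125795496887)))) (a (b (a (l 16741336) (l 123111135591)) (l 16744344)) (b (l 141364741783) (a (b (l 123111141143) (l 16742408)) (l 133311683383))))) (a (b (l 16754464) (l 16753584))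 (b (a (l 16751272) (b (c (l 99488824807) (l 109689371767)) (l 16744992))) (c (l 16750016) (l 16748656))))))) (b (l 3) (a (b (l 3) (a (b (a (b (l 133311686087) (a (l 103246923287) (l 125258629223))) (l 3)) (a (c (l 16746536) (l 16745712)) (b (a (l 116131826087) (l 134922302039)) (c (l 96804474791) (l 108078763623))))) (b (l 3) (a (b (l 3) (l 131701088375)) (l 3))))) (l 3))))) (l 3)), by decide +kernel⟩

def k22_pm_102_a : ∃ t, chk3 f_pm_102_a t 14 7 1 = true :=
  ⟨(b (b (a (a (c (l 16833872) (l 16811176)) (l 16799376)) (a (l 16808304) (b (c (l 16822808) (l 16755128)) (l 16780112)))) (a (a (c (l 16834064) (l 16831696)) (b (l 16814352) (l 16824912))) (a (b (l 16801536) (a (l 16815376) (l 16808672))) (b (l 16788408) (c (l 16862920) (l 16797856)))))) (a (b (c (a (l 16857432) (l 16844296)) (l 16846464)) (b (a (l 16872456) (l 16859128)) (a (l 16885096) (l 16871584)))) (b (a (c (l 16830728) (l 16827032)) (a (b (l 16812672) (l 16823568)) (c (b (l 16828232) (l 16818608)) (l 16836512))))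 (b (a (l 16845512) (c (l 16834312) (l 16829480))) (a (c (l 16861696) (l 16854744)) (c (l 16847184) (l 16840840))))))), by decide +kernel⟩

def k23_pm_102_a : ∃ t, chk3 f_pm_102_a t 30 14 1 = true :=
  ⟨(a (a (b (b (c (l 16768592) (l 16764928)) (l 16775352)) (b (l 16779376) (l 16788048))) (b (a (b (l 16781232) (l 16790280)) (b (b (l 16753760) (l 16758248)) (l 16807056))) (b (l 16771016) (l 16781224)))) (b (a (b (a (b (a (l 16750576) (c (l 16748920) (l 16747976))) (c (l 16754816) (l 16753256))) (b (a (b (a (l 16745784) (l 123111150503)) (c (l 16747800) (l 16747080))) (b (l 140827883943) (a (l 113984347575) (l 132774823159)))) (a (c (l 16751368) (l 16750304)) (b (c (l 94656996023) (l 107005026727)) (l 16749872))))) (a (b (l 16758568) (l 16763192)) (b (a (l 16755400) (l 16753296)) (l 16779936)))) (b (a (b (l 3) (a (b (a (l 125258632615) (l 3)) (a (l 16748304) (l 121500543271))) (b (l 3) (l 139217276167)))) (l 3)) (b (a (c (a (b (l 16750392) (l 16752808)) (b (l 115058094791) (l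 92509517335))) (a (l 16750752) (b (l 124721764887) (l 105931289975)))) (a (b (l 3) (c (l 124721766567) (l 133311700087))) (l 3))) (a (a (l 16755808) (c (l 16754192) (l 16753224))) (a (b (a (l 16750984) (b (l 126332382935) (l 16750536))) (c (l 16753144) (l 16752376))) (b (a (l 136532927671) (l 3)) (a (c (l 101636325223) (l 113447484599)) (b (l 3) (l 125258644039))))))))) (a (b (a (l 16770224) (b (l 16763656) (l 16768400))) (a (l 16778944) (l 16775528))) (b (b (a (a (l 16760496) (l 16758392)) (a (c (l 16756840) (l 16755768)) (b (c (l 90362039303) (l 104857553863)) (l 16755384)))) (a (l 16785168) (a (l 16761048) (c (l 16759552) (l 16758376))))) (a (b (l 16769008) (l 16773848)) (b (a (l 16765864) (l 16763768)) (l 16790672))))))), by decide +kernel⟩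

def k24_pm_102_a : ∃ t, chk3 f_pm_102_a t 31 14 1 = true :=
  ⟨(a (b (l 3) (a (b (a (b (a (b (a (b (l 133311705959) (l 115058099543)) (l 142438510871)) (a (l 16756448) (b (l 124721776311) (l 16754688)))) (b (l 3) (c (l 133848578439) (l 141364770023)))) (b (a (c (l 16756056) (l 16755256)) (a (c (l 99488847559) (l 111836877319)) (b (l 141364772935) (l 123648037495)))) (a (l 16758056) (a (l 16756496) (b (l 99488848311) (l 16756056)))))) (b (l 3) (a (b (l 3) (a (b (l 131164228135) (c (l 101636331847) (l 113447490407))) (l 141364780119))) (l 3)))) (a (c (b (a (l 16762328) (b (l 16758824) (l 16761352))) (l 16766288)) (b (a (l 16761064) (l 16759088)) (l 16764816))) (b (a (b (a (c (l 16757144) (l 16756440)) (b (a (l 107005041271) (l 132237972567)) (l 100562594327))) (c (l 16759112) (l 16758288))) (b (a (c (l 130627359719) (l 138143551287)) (l 3)) (a (b (c (l 100562593111) (l 112373751623)) (l 16757760)) (b (l 140291037111) (a (l 105931302615) (l 131164233335)))))) (a (b (l 16761144)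 (l 16763600)) (b (a (l 16759584) (c (l 87677695527) (l 103783822247))) (c (l 16761976) (l 16761048))))))) (b (l 3) (a (b (l 3) (a (b (a (b (a (l 124721784999) (l 144586006615)) (c (l 98951983527) (l 112373755079))) (b (l 3) (l 139217298407))) (a (c (l 16760312) (l 16759568)) (b (a (l 104320693079) (l 6)) (l 6)))) (b (l 3) (l 6)))) (l 3))))) (l 3)), by decide +kernel⟩

def k25_pm_102_a : ∃ t, chk3 f_pm_102_a t 15 15 1 = true :=
  ⟨(a (b (b (a (a (c (l 16841896) (l 16797800)) (l 16791192)) (a (c (l 16806016) (l 16783208)) (a (l 16778800) (b (l 16795576) (l 16778744))))) (b (a (a (l 16806608) (l 16809688)) (a (l 16791688) (l 16784104))) (a (a (l 16812064) (l 16804672)) (a (c (l 16840272) (l 16796448)) (l 16789360))))) (a (b (c (l 16819144) (l 16815352)) (c (a (l 16835848) (l 16828032)) (b (l 16823664) (l 16829472)))) (b (b (a (c (l 16804096) (l 16801752)) (l 6)) (l 6)) (l 6)))) (b (a (a (b (a (b (c (l 16771416) (l 16769648)) (c (l 16776528) (l 16774528))) (b (a (b (l 16766072)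 (l 16768560)) (b (l 16763984) (l 6))) (l 6))) (l 6)) (l 6)) (l 6)) (l 6))), by decide +kernel⟩

theorem s26_pm_102_a : ∃ t, chk3 f_pm_102_a t 15 14 1 = true := ex3_a k23_pm_102_a k24_pm_102_a

theorem s27_pm_102_a : ∃ t, chk3 f_pm_102_a t 15 7 1 = true := ex3_b s26_pm_102_a k25_pm_102_a

theorem s28_pm_102_a : ∃ t, chk3 f_pm_102_a t 7 7 1 = true := ex3_a k22_pm_102_a s27_pm_102_a

theorem s29_pm_102_a : ∃ t, chk3 f_pm_102_a t 14 6 1 = true := ex3_a k19_pm_102_a k20_pm_102_a

theorem s30_pm_102_a : ∃ t, chk3 f_pm_102_a t 7 6 1 = true := ex3_a s29_pm_102_a k21_pm_102_a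

theorem s31_pm_102_a : ∃ t, chk3 f_pm_102_a t 7 3 1 = true := ex3_b s30_pm_102_a s28_pm_102_a

theorem s32_pm_102_a : ∃ t, chk3 f_pm_102_a t 3 3 1 = true := ex3_a k18_pm_102_a s31_pm_102_a

theorem s33_pm_102_a : ∃ t, chk3 f_pm_102_a t 28 5 1 = true := ex3_b k14_pm_102_a k15_pm_102_a

theorem s34_pm_102_a : ∃ t, chk3 f_pm_102_a t 14 5 1 = true := ex3_a s33_pm_102_a k16_pm_102_a

theorem s35_pm_102_a : ∃ t, chk3 f_pm_102_a t 14 2 1 = true := ex3_b k13_pm_102_a s34_pm_102_a

theorem s36_pm_102_a : ∃ t, chk3 f_pm_102_a t 7 2 1 = true := ex3_a s35_pm_102_a k17_pm_102_a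

theorem s37_pm_102_a : ∃ t, chk3 f_pm_102_a t 26 4 1 = true := ex3_b k9_pm_102_a k10_pm_102_a

theorem s38_pm_102_a : ∃ t, chk3 f_pm_102_a t 13 4 1 = true := ex3_a s37_pm_102_a k11_pm_102_a

theorem s39_pm_102_a : ∃ t, chk3 f_pm_102_a t 13 2 1 = true := ex3_b s38_pm_102_a k12_pm_102_a

theorem s40_pm_102_a : ∃ t, chk3 f_pm_102_a t 6 2 1 = true := ex3_a k8_pm_102_a s39_pm_102_a

theorem s41_pm_102_a : ∃ t, chk3 f_pm_102_a t 3 2 1 = true := ex3_a s40_pm_102_a s36_pm_102_a

theorem s42_pm_102_a : ∃ t, chk3 f_pm_102_a t 3 1 1 = true := ex3_b s41_pm_102_a s32_pm_102_a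

theorem s43_pm_102_a : ∃ t, chk3 f_pm_102_a t 8 31 1 = true := ex3_a k4_pm_102_a k5_pm_102_a

theorem s44_pm_102_a : ∃ t, chk3 f_pm_102_a t 8 15 1 = true := ex3_b k3_pm_102_a s43_pm_102_a

theorem s45_pm_102_a : ∃ t, chk3 f_pm_102_a t 8 7 1 = true := ex3_b k2_pm_102_a s44_pm_102_a

theorem s46_pm_102_a : ∃ t, chk3 f_pm_102_a t 4 7 1 = true := ex3_a s45_pm_102_a k6_pm_102_a

theorem s47_pm_102_a : ∃ t, chk3 f_pm_102_a t 4 3 1 = true := ex3_b k1_pm_102_a s46_pm_102_a

theorem s48_pm_102_a : ∃ t, chk3 f_pm_102_a t 2 3 1 = true := ex3_a s47_pm_102_a k7_pm_102_a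

theorem s49_pm_102_a : ∃ t, chk3 f_pm_102_a t 2 1 1 = true := ex3_b k0_pm_102_a s48_pm_102_a

theorem s50_pm_102_a : ∃ t, chk3 f_pm_102_a t 1 1 1 = true := ex3_a s49_pm_102_a s42_pm_102_a

theorem c_pm_102_a : CertF 536870912 536870912 0 536870912 469762048 67108864 false true false .npp 1 0 2
    ndF0q1 ndF1q2a pcF0 cut_pm_102_a Ext.none :=
  certF0 (fam := false) (s1 := true) (s2 := false) (a := 1) (b := 0) (c := 2) (cn := .npp) (n1 := ndF0q1) (n2 := ndF1q2a) (pc := pcF0) (cut := cut_pm_102_a) (xt := Ext.none) (P1 := 536870912) (W1 := 536870912) (P2 := 0) (W2 := 536870912) (P3 := 469762048) (W3 := 67108864)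
    rfl s50_pm_102_a

noncomputable def cut_pm_102_b : Cut := Cut.of [[⟨0, 1, 0, 67108864⟩, ⟨1, 0, 0, 67108864⟩, ⟨2, 1, 0, 67108864⟩], [⟨0, 0, 1, 33554432⟩, ⟨1, 1, 2, 33554432⟩, ⟨2, 1, 0, 33554432⟩]]

noncomputable def f_pm_102_b : ℕ → ℕ → ℕ → ℕ → Bool := onCell 536870912 536870912 1239849684 370763052 469762048 67108864
    (rowF 0 false true false .npp 1 0 2 (qsf 536870912 536870912 1239849684 370763052 0) ndF0q1 ndF1q2b pcF0 cut_pm_102_b Ext.none)

def k0_pm_102_b : ∃ t, chk3 f_pm_102_b t 2 1 1 = true :=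
  ⟨(b (a (l 2) (b (a (b (a (l 16804848) (l 16783960)) (l 2)) (a (b (l 16793488) (l 16786488)) (b (b (l 16775184) (l 16790104)) (l 16803496)))) (a (l 2) (b (a (l 2) (l 16820416)) (l 2))))) (l 2)), by decide +kernel⟩

def k1_pm_102_b : ∃ t, chk3 f_pm_102_b t 3 2 1 = true :=
  ⟨(a (b (a (b (a (b (a (l 16787240) (l 16783288)) (a (l 16792464) (l 16786056))) (a (b (a (l 16775856) (l 16769424)) (l 16774960)) (b (a (b (l 16761936) (l 16762344)) (b (a (l 16755872) (b (c (l 16752864) (l 16750312)) (l 16751704))) (l 16754208))) (a (l 16764072) (l 16755904))))) (a (a (l 16800792) (l 16793552)) (a (l 16782216) (b (l 16764752) (l 16771824))))) (a (b (a (b (a (b (a (b (a (b (c (l 101636318263) (l 100025702535)) (l 95730735799)) (l 3)) (a (l 16748440) (l 213305462615))) (l 3)) (a (b (l 98951973831) (l 16747904)) (l 211157973639))) (l 3)) (a (b (a (l 16748680) (l 106468168119)) (l 98951988439)) (b (l 3) (l 136532908439)))) (l 3)) (a (a (b (b (l 16750248) (l 16753264)) (l 16758944)) (b (b (l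 139217266487) (l 141364755399)) (a (l 16751936) (b (l 141901609879) (l 16749328))))) (a (b (l 3) (a (b (l 3) (l 143512240199)) (l 3))) (l 3)))) (l 3))) (a (b (a (l 16813160) (a (l 16799344) (l 16785992))) (a (l 2) (l 16817824))) (a (b (a (b (a (l 16768528) (b (l 16756752) (l 16762184))) (l 16775728)) (a (b (a (b (l 145659704183) (l 16754920)) (b (l 3) (l 156934024007))) (b (a (l 16761000) (l 149954674311)) (l 16744208))) (b (l 3) (a (b (l 161765864439) (l 153175943111)) (l 3))))) (a (b (l 16789440) (l 16805240)) (a (b (l 16776128) (l 16792616)) (b (c (l 156397216551) (b (l 155323407671) (l 157470904407))) (b (l 156397151223) (l 16787904)))))) (b (l 3) (a (a (b (l 3) (l 240685932583)) (l 3)) (l 3)))))) (l 3)), by decide +kernel⟩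

def k2_pm_102_b : ∃ t, chk3 f_pm_102_b t 3 3 1 = true :=
  ⟨(a (a (l 2) (b (a (b (a (l 16832904) (b (l 16807008) (l 2))) (l 2)) (b (a (b (a (l 160155271719) (l 3)) (l 164987207799)) (l 3)) (a (l 2) (b (l 260550236695) (l 2))))) (l 2))) (a (b (l 3) (a (l 2) (l 3))) (l 3))), by decide +kernel⟩

theorem s3_pm_102_b : ∃ t, chk3 f_pm_102_b t 3 1 1 = true := ex3_b k1_pm_102_b k2_pm_102_b

theorem s4_pm_102_b : ∃ t, chk3 f_pm_102_b t 1 1 1 = true := ex3_a k0_pm_102_b s3_pm_102_b

theorem c_pm_102_b : CertF 536870912 536870912 1239849684 370763052 469762048 67108864 false true false .npp 1 0 2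
    ndF0q1 ndF1q2b pcF0 cut_pm_102_b Ext.none :=
  certF0 (fam := false) (s1 := true) (s2 := false) (a := 1) (b := 0) (c := 2) (cn := .npp) (n1 := ndF0q1) (n2 := ndF1q2b) (pc := pcF0) (cut := cut_pm_102_b) (xt := Ext.none) (P1 := 536870912) (W1 := 536870912) (P2 := 1239849684) (W2 := 370763052) (P3 := 469762048) (W3 := 67108864)
    rfl s4_pm_102_b

noncomputable def cut_pm_112_a : Cut := Cut.of [[⟨0, 0, 1, 33554432⟩, ⟨1, 1, 2, 33554432⟩, ⟨2, 1, 0, 33554432⟩]]

noncomputable def f_pm_112_a : ℕ → ℕ → ℕ → ℕ → Bool := onCell 536870912 536870912 0 536870912 469762048 67108864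
    (rowF 2 false true false .dn 1 1 2 (qsf 536870912 536870912 0 536870912 1) ndF0q1 ndF1q2a pcF1 cut_pm_112_a Ext.none)

def k0_pm_112_a : ∃ t, chk3 f_pm_112_a t 1 1 1 = true :=
  ⟨(a (a (b (a (b (a (l 16797728) (l 16810816)) (a (l 16793872) (l 16778648))) (b (b (l 16861184) (l 16793424)) (a (l 16745224) (l 16693976)))) (b (a (b (a (l 16764112) (l 16730496)) (a (l 16741152) (l 16692912))) (a (a (l 16669848) (l 16634824)) (l 177737626871))) (a (b (a (b (l 16721008) (a (l 16721416) (l 16691896))) (b (l 16661008) (l 16638928))) (b (a (a (b (l 16712696) (l 16707280)) (l 16613776)) (l 190085515191)) (a (a (a (b (l 16710936) (a (b (l 16712680) (b (l 16627960) (c (c (l 16774488) (l 16732448)) (c (c (l 8086438007) (l 6)) (l 6))))) (b (l 16704232) (l 197601880679)))) (b (l 16694088) (l 195454392711))) (l 191159331863)) (l 1)))) (b (a (l 190085551143) (l 1)) (l 1))))) (b (a (b (l 16887544) (l 171295375975)) (l 1)) (b (l 1) (l 1)))) (l 1)), by decide +kernel⟩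

theorem c_pm_112_a : CertF 536870912 536870912 0 536870912 469762048 67108864 false true false .dn 1 1 2
    ndF0q1 ndF1q2a pcF1 cut_pm_112_a Ext.none :=
  certF2 (fam := false) (s1 := true) (s2 := false) (a := 1) (b := 1) (c := 2) (cn := .dn) (n1 := ndF0q1) (n2 := ndF1q2a) (pc := pcF1) (cut := cut_pm_112_a) (xt := Ext.none) (P1 := 536870912) (W1 := 536870912) (P2 := 0) (W2 := 536870912) (P3 := 469762048) (W3 := 67108864)
    rfl (fun _ => rfl) k0_pm_112_a

noncomputable def cut_pm_112_b : Cut := Cut.of [[⟨0, 0, 1, 33554432⟩, ⟨1, 1, 2, 33554432⟩, ⟨2, 1, 0, 33554432⟩]]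

noncomputable def f_pm_112_b : ℕ → ℕ → ℕ → ℕ → Bool := onCell 536870912 536870912 536870912 536870912 469762048 67108864
    (rowF 1 false true false .dn 1 1 2 (qsf 536870912 536870912 1239849684 370763052 1) ndF0q1 ndF1q2b pcF1 cut_pm_112_b Ext.none)

def k0_pm_112_b : ∃ t, chk3 f_pm_112_b t 1 1 1 = true :=
  ⟨(a (b (a (b (a (b (l 1) (a (l 185254358391) (l 219613739431))) (b (a (l 189549360199) (l 232498686695)) (a (l 16788408) (l 16751872)))) (a (b (a (l 16776320) (l 16727456)) (a (l 16630784) (l 16662696))) (b (l 16720528) (l 16727592)))) (b (a (b (b (l 16853824) (l 16757200)) (l 16763648)) (b (l 16903440) (l 16857856))) (a (b (l 16801120) (l 16842624)) (b (l 16918200) (l 16978544))))) (b (a (a (b (l 16645288) (l 16646296)) (b (l 16759392) (l 16796808))) (a (b (l 16876504) (l 16903248)) (l 17000952))) (a (a (b (l 16663504) (a (b (l 16665112) (l 16686368)) (l 16770048))) (b (a (l 16802224) (l 16860160)) (a (l 16840104) (l 2)))) (a (b (l 16925544) (l 2)) (l 2))))) (b (b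 (a (b (a (a (l 16844112) (l 16847296)) (a (b (l 16828336) (l 16862976)) (b (a (l 130090535271) (l 258939626471)) (a (l 16861728) (l 143512358071))))) (a (l 16908216) (a (l 16928080) (b (l 126869418903) (l 16931976))))) (a (b (l 3) (a (b (l 289004551591) (l 151565661895)) (l 3))) (l 3))) (a (a (b (l 17012864) (l 17089576)) (b (a (l 16985392) (l 16908920)) (l 291621754535))) (a (a (b (b (l 365710099447) (l 2)) (l 2)) (l 2)) (l 2)))) (a (b (b (l 233103764311) (l 2)) (l 2)) (l 2)))), by decide +kernel⟩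

theorem c_pm_112_b : CertF 536870912 536870912 1239849684 370763052 469762048 67108864 false true false .dn 1 1 2
    ndF0q1 ndF1q2b pcF1 cut_pm_112_b Ext.none :=
  certF1 (fam := false) (s1 := true) (s2 := false) (a := 1) (b := 1) (c := 2) (cn := .dn) (n1 := ndF0q1) (n2 := ndF1q2b) (pc := pcF1) (cut := cut_pm_112_b) (xt := Ext.none) (P1 := 536870912) (W1 := 536870912) (P2 := 1239849684) (W2 := 370763052) (P3 := 469762048) (W3 := 67108864)
    rfl (fun _ => rfl) k0_pm_112_b

noncomputable def cut_pm_113 : Cut := Cut.of [[⟨0, 1, 0, 67108864⟩, ⟨1, 1, 0, 67108864⟩, ⟨2, 2, 0, 16777216⟩]]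

noncomputable def f_pm_113 : ℕ → ℕ → ℕ → ℕ → Bool := onCell 536870912 536870912 536870912 536870912 469762048 67108864
    (rowF 1 false true false .nn 1 1 3 (qsf 536870912 536870912 1610612736 536870912 1) ndF0q1 ndF1q3 pcF1 cut_pm_113 Ext.none)

def k0_pm_113 : ∃ t, chk3 f_pm_113 t 2 1 1 = true :=
  ⟨(b (a (l 1) (b (l 1) (a (l 1) (b (l 1) (l 16892048))))) (b (a (a (l 1) (l 192771247191)) (a (l 118683216087) (b (l 17040912) (l 17075240)))) (a (a (b (l 222835282439) (a (l 16932792) (l 16961624))) (b (l 17010328) (a (l 16977048) (l 16983536)))) (a (b (l 17017864) (l 16986768)) (b (l 17015656) (l 16983424)))))), by decide +kernel⟩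

def k1_pm_113 : ∃ t, chk3 f_pm_113 t 3 2 1 = true :=
  ⟨(b (a (b (l 1) (a (l 1) (a (l 1) (b (l 1) (a (l 1) (l 207802681687)))))) (a (b (l 3) (a (a (b (l 1) (b (a (l 1) (l 3)) (a (l 106870960679) (l 187535817607)))) (l 3)) (l 3))) (l 3))) (a (b (a (l 250215848295) (a (l 118682253143) (b (a (l 16809200) (l 16818080)) (l 16869232)))) (a (l 16916056) (a (l 16933008) (b (l 16919720) (l 16964968))))) (a (b (a (b (a (b (a (l 16810224) (l 110226381879)) (l 16841496)) (b (l 3) (l 190220220455))) (a (b (l 16868680) (l 16894152)) (b (l 122037668567) (l 119353290119)))) (l 3)) (a (b (a (l 16929232) (l 115595305607)) (l 16971296)) (a (b (l 215990204151) (l 132775304279)) (l 3)))) (l 3)))), by decide +kernel⟩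

def k2_pm_113 : ∃ t, chk3 f_pm_113 t 3 3 1 = true :=
  ⟨(b (a (b (a (l 17031896) (b (l 17003664) (l 17038824))) (a (l 17063400) (l 17035472))) (a (b (a (b (l 17001048) (l 17020776)) (b (l 142975923319) (l 134385758183))) (a (l 17010136) (a (l 16996904) (l 16987944)))) (a (b (b (l 3) (l 237465139559)) (b (l 195052323079) (a (l 16959760) (l 197736717319)))) (l 3)))) (a (b (a (l 17000632) (l 16972424)) (a (l 16966648) (l 16936184))) (a (b (a (l 16967640) (l 16927992)) (a (l 16906768) (l 17009736))) (a (b (b (b (l 173577432215) (l 16914896)) (a (l 16899816) (l 16888712))) (a (b (l 16875840) (l 16853712)) (b (l 16862992) (l 16838496)))) (b (a (b (a (l 147807593511) (l 3)) (b (l 188072805591) (l 190220275639))) (l 3)) (a (b (a (l 16852824) (b (l 74792995383) (l 16838800))) (b (l 16828896) (l 16815064))) (b (a (b (l 193441437495) (b (l 193441415559) (l 195588884567))) (l 3)) (a (b (a (l 16818472) (b (a (l 16819008) (l 118816325959)) (a (l 16811448) (l 16809208)))) (b (l 16804928)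 (l 16797144))) (a (b (b (l 191293889479) (b (l 193978232391) (a (l 148881067495) (l 192367609415)))) (b (a (l 16798984) (b (b (l 197736312551) (l 200957530039)) (c (l 16795800) (l 16793216)))) (a (l 16790832) (l 6)))) (b (l 3) (b (a (b (a (l 188072630375) (l 3)) (b (l 193441332087) (l 6))) (l 3)) (l 6)))))))))))), by decide +kernel⟩

theorem s3_pm_113 : ∃ t, chk3 f_pm_113 t 3 1 1 = true := ex3_b k1_pm_113 k2_pm_113

theorem s4_pm_113 : ∃ t, chk3 f_pm_113 t 1 1 1 = true := ex3_a k0_pm_113 s3_pm_113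

theorem c_pm_113 : CertF 536870912 536870912 1610612736 536870912 469762048 67108864 false true false .nn 1 1 3
    ndF0q1 ndF1q3 pcF1 cut_pm_113 Ext.none :=
  certF1 (fam := false) (s1 := true) (s2 := false) (a := 1) (b := 1) (c := 3) (cn := .nn) (n1 := ndF0q1) (n2 := ndF1q3) (pc := pcF1) (cut := cut_pm_113) (xt := Ext.none) (P1 := 536870912) (W1 := 536870912) (P2 := 1610612736) (W2 := 536870912) (P3 := 469762048) (W3 := 67108864)
    rfl (fun _ => rfl) s4_pm_113

noncomputable def cut_pm_123 : Cut := Cut.of [[⟨0, 1, 0, 67108864⟩, ⟨1, 1, 0, 67108864⟩, ⟨2, 2, 0, 16777216⟩]]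

noncomputable def f_pm_123 : ℕ → ℕ → ℕ → ℕ → Bool := onCell 536870912 536870912 1073741824 536870912 469762048 67108864
    (rowF 1 false true false .npn 1 2 3 (qsf 536870912 536870912 1610612736 536870912 2) ndF0q1 ndF1q3 pcF2 cut_pm_123 Ext.none)

def k0_pm_123 : ∃ t, chk3 f_pm_123 t 1 1 1 = true :=
  ⟨(a (b (a (b (a (b (a (b (a (l 16893440) (l 16911704)) (l 16878448)) (a (l 16911272) (l 16921152))) (l 16862776)) (b (a (l 16932688) (l 16941816)) (l 16888520))) (a (l 16836528) (b (l 16860424) (l 16850352)))) (b (b (a (l 16946536) (l 16942704)) (a (l 16892784) (l 16884768))) (a (l 16851456) (b (l 16848008) (l 16827856))))) (a (b (a (l 16847696) (l 16852264)) (a (l 16962464) (b (l 16845384) (l 17002992)))) (b (a (b (l 16839192) (l 16825696)) (b (l 16806160) (l 16802352))) (a (b (l 16938992) (l 2)) (l 2))))) (b (a (b (a (b (l 16924672) (l 16863288)) (b (l 16892272) (l 16829048))) (a (b (l 16823080) (l 16789864)) (b (b (l 16794456) (l 16771656)) (a (l 16764032) (l 2))))) (b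 (a (b (b (a (l 16878744) (l 16850800)) (l 16827000)) (a (l 16794328) (l 16996824))) (b (b (b (a (l 16828216) (b (a (l 16804840) (a (b (l 16791624) (l 6)) (l 6))) (a (l 16794224) (a (l 6) (l 1263357907767))))) (a (l 16807648) (a (l 16779040) (l 1268189756775)))) (a (l 16862984) (a (l 1239198695687) (l 2)))) (a (a (l 1153299836487) (l 2)) (l 2)))) (a (b (a (l 1012639657415) (l 2)) (l 2)) (l 2)))) (a (b (a (b (l 771047893335) (l 2)) (l 2)) (l 2)) (l 2)))), by decide +kernel⟩

theorem c_pm_123 : CertF 536870912 536870912 1610612736 536870912 469762048 67108864 false true false .npn 1 2 3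
    ndF0q1 ndF1q3 pcF2 cut_pm_123 Ext.none :=
  certF1 (fam := false) (s1 := true) (s2 := false) (a := 1) (b := 2) (c := 3) (cn := .npn) (n1 := ndF0q1) (n2 := ndF1q3) (pc := pcF2) (cut := cut_pm_123) (xt := Ext.none) (P1 := 536870912) (W1 := 536870912) (P2 := 1610612736) (W2 := 536870912) (P3 := 469762048) (W3 := 67108864)
    rfl (fun _ => rfl) k0_pm_123

noncomputable def f_pm_133 : ℕ → ℕ → ℕ → ℕ → Bool := onCell 536870912 536870912 1610612736 536870912 469762048 67108864
    (rowF 0 false true false .dn 1 3 3 (qsf 536870912 536870912 1610612736 536870912 3) ndF0q1 ndF1q3 pcF3 Cut.none Ext.none)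

def k0_pm_133 : ∃ t, chk3 f_pm_133 t 1 1 1 = true :=
  ⟨(a (b (l 1) (a (b (l 1) (a (l 274912075607) (l 1))) (l 1))) (l 1)), by decide +kernel⟩

theorem c_pm_133 : CertF 536870912 536870912 1610612736 536870912 469762048 67108864 false true false .dn 1 3 3
    ndF0q1 ndF1q3 pcF3 Cut.none Ext.none :=
  certF0 (fam := false) (s1 := true) (s2 := false) (a := 1) (b := 3) (c := 3) (cn := .dn) (n1 := ndF0q1) (n2 := ndF1q3) (pc := pcF3) (cut := Cut.none) (xt := Ext.none) (P1 := 536870912) (W1 := 536870912) (P2 := 1610612736) (W2 := 536870912) (P3 := 469762048) (W3 := 67108864)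
    rfl k0_pm_133

noncomputable def cut_pm_202_a : Cut := Cut.of [[⟨0, 1, 0, 67108864⟩, ⟨1, 0, 0, 67108864⟩, ⟨2, 1, 0, 67108864⟩]]

noncomputable def f_pm_202_a : ℕ → ℕ → ℕ → ℕ → Bool := onCell 0 536870912 0 536870912 469762048 67108864
    (rowF 0 false true false .pp 2 0 2 (qsf 0 536870912 0 536870912 0) ndF0q2 ndF1q2a pcF0 cut_pm_202_a Ext.none)

def k0_pm_202_a : ∃ t, chk3 f_pm_202_a t 1 1 1 = true :=
  ⟨(a (l 3) (b (l 3) (a (l 3) (b (l 3) (a (l 3) (b (l 3) (l 6))))))), by decide +kernel⟩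

theorem c_pm_202_a : CertF 0 536870912 0 536870912 469762048 67108864 false true false .pp 2 0 2
    ndF0q2 ndF1q2a pcF0 cut_pm_202_a Ext.none :=
  certF0 (fam := false) (s1 := true) (s2 := false) (a := 2) (b := 0) (c := 2) (cn := .pp) (n1 := ndF0q2) (n2 := ndF1q2a) (pc := pcF0) (cut := cut_pm_202_a) (xt := Ext.none) (P1 := 0) (W1 := 536870912) (P2 := 0) (W2 := 536870912) (P3 := 469762048) (W3 := 67108864)
    rfl k0_pm_202_a

noncomputable def cut_pm_202_b : Cut := Cut.of [[⟨0, 1, 0, 67108864⟩, ⟨1, 0, 0, 67108864⟩, ⟨2, 1, 0, 67108864⟩]]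

noncomputable def f_pm_202_b : ℕ → ℕ → ℕ → ℕ → Bool := onCell 0 536870912 1239849684 370763052 469762048 67108864
    (rowF 0 false true false .pp 2 0 2 (qsf 0 536870912 1239849684 370763052 0) ndF0q2 ndF1q2b pcF0 cut_pm_202_b Ext.none)

def k0_pm_202_b : ∃ t, chk3 f_pm_202_b t 1 1 1 = true :=
  ⟨(l 3), by decide +kernel⟩

theorem c_pm_202_b : CertF 0 536870912 1239849684 370763052 469762048 67108864 false true false .pp 2 0 2
    ndF0q2 ndF1q2b pcF0 cut_pm_202_b Ext.none :=
  certF0 (fam := false) (s1 := true) (s2 := false) (a := 2) (b := 0) (c := 2) (cn := .pp) (n1 := ndF0q2) (n2 := ndF1q2b) (pc := pcF0) (cut := cut_pm_202_b) (xt := Ext.none) (P1 := 0) (W1 := 536870912) (P2 := 1239849684) (W2 := 370763052) (P3 := 469762048) (W3 := 67108864)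
    rfl k0_pm_202_b

noncomputable def f_pm_203 : ℕ → ℕ → ℕ → ℕ → Bool := onCell 0 536870912 0 536870912 469762048 67108864
    (rowF 1 false true false .up 2 0 3 (qsf 0 536870912 1610612736 536870912 0) ndF0q2 ndF1q3 pcF0 Cut.none Ext.none)

def k0_pm_203 : ∃ t, chk3 f_pm_203 t 1 1 1 = true :=
  ⟨(l 3), by decide +kernel⟩

theorem c_pm_203 : CertF 0 536870912 1610612736 536870912 469762048 67108864 false true false .up 2 0 3
    ndF0q2 ndF1q3 pcF0 Cut.none Ext.none :=
  certF1 (fam := false) (s1 := true) (s2 := false) (a := 2) (b := 0) (c := 3) (cn := .up) (n1 := ndF0q2) (n2 := ndF1q3) (pc := pcF0) (cut := Cut.none) (xt := Ext.none) (P1 := 0) (W1 := 536870912) (P2 := 1610612736) (W2 := 536870912) (P3 := 469762048) (W3 := 67108864)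
    rfl (fun _ => rfl) k0_pm_203

noncomputable def cut_pm_213 : Cut := Cut.of [[⟨0, 1, 0, 67108864⟩, ⟨1, 1, 0, 67108864⟩, ⟨2, 2, 0, 16777216⟩]]

noncomputable def f_pm_213 : ℕ → ℕ → ℕ → ℕ → Bool := onCell 0 536870912 1610612736 536870912 469762048 67108864
    (rowF 0 false true false .pnn 2 1 3 (qsf 0 536870912 1610612736 536870912 1) ndF0q2 ndF1q3 pcF1 cut_pm_213 Ext.none)

def k0_pm_213 : ∃ t, chk3 f_pm_213 t 1 1 1 = true :=
  ⟨(b (l 3) (a (l 3) (b (l 3) (a (l 3) (a (l 3) (b (l 3) (a (l 3) (a (l 3) (b (l 3) (b (l 3) (b (l 3) (l 6)))))))))))), by decide +kernel⟩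

theorem c_pm_213 : CertF 0 536870912 1610612736 536870912 469762048 67108864 false true false .pnn 2 1 3
    ndF0q2 ndF1q3 pcF1 cut_pm_213 Ext.none :=
  certF0 (fam := false) (s1 := true) (s2 := false) (a := 2) (b := 1) (c := 3) (cn := .pnn) (n1 := ndF0q2) (n2 := ndF1q3) (pc := pcF1) (cut := cut_pm_213) (xt := Ext.none) (P1 := 0) (W1 := 536870912) (P2 := 1610612736) (W2 := 536870912) (P3 := 469762048) (W3 := 67108864)
    rfl k0_pm_213

noncomputable def f_mm_001 : ℕ → ℕ → ℕ → ℕ → Bool := onCell 0 536870912 536870912 536870912 469762048 67108864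
    (rowF 0 false false false .up 0 0 1 (qsf 0 536870912 536870912 536870912 0) ndF0q0 ndF1q1 pcF0 Cut.none Ext.none)

def k0_mm_001 : ∃ t, chk3 f_mm_001 t 1 1 1 = true :=
  ⟨(l 3), by decide +kernel⟩

theorem c_mm_001 : CertF 0 536870912 536870912 536870912 469762048 67108864 false false false .up 0 0 1
    ndF0q0 ndF1q1 pcF0 Cut.none Ext.none :=
  certF0 (fam := false) (s1 := false) (s2 := false) (a := 0) (b := 0) (c := 1) (cn := .up) (n1 := ndF0q0) (n2 := ndF1q1) (pc := pcF0) (cut := Cut.none) (xt := Ext.none) (P1 := 0) (W1 := 536870912) (P2 := 536870912) (W2 := 536870912) (P3 := 469762048) (W3 := 67108864)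
    rfl k0_mm_001

noncomputable def f_mm_011 : ℕ → ℕ → ℕ → ℕ → Bool := onCell 0 536870912 536870912 536870912 469762048 67108864
    (rowF 0 false false false .pnn 0 1 1 (qsf 0 536870912 536870912 536870912 1) ndF0q0 ndF1q1 pcF1 Cut.none Ext.none)

def k0_mm_011 : ∃ t, chk3 f_mm_011 t 1 1 1 = true :=
  ⟨(l 3), by decide +kernel⟩

theorem c_mm_011 : CertF 0 536870912 536870912 536870912 469762048 67108864 false false false .pnn 0 1 1
    ndF0q0 ndF1q1 pcF1 Cut.none Ext.none :=
  certF0 (fam := false) (s1 := false) (s2 := false) (a := 0) (b := 1) (c := 1) (cn := .pnn) (n1 := ndF0q0) (n2 := ndF1q1) (pc := pcF1) (cut := Cut.none) (xt := Ext.none) (P1 := 0) (W1 := 536870912) (P2 := 536870912) (W2 := 536870912) (P3 := 469762048) (W3 := 67108864)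
    rfl k0_mm_011

noncomputable def f_mm_012_a : ℕ → ℕ → ℕ → ℕ → Bool := onCell 0 536870912 0 536870912 469762048 67108864
    (rowF 0 false false false .pnp 0 1 2 (qsf 0 536870912 0 536870912 1) ndF0q0 ndF1q2a pcF1 Cut.none Ext.none)

def k0_mm_012_a : ∃ t, chk3 f_mm_012_a t 1 1 1 = true :=
  ⟨(l 5), by decide +kernel⟩

theorem c_mm_012_a : CertF 0 536870912 0 536870912 469762048 67108864 false false false .pnp 0 1 2
    ndF0q0 ndF1q2a pcF1 Cut.none Ext.none :=
  certF0 (fam := false) (s1 := false) (s2 := false) (a := 0) (b := 1) (c := 2) (cn := .pnp) (n1 := ndF0q0) (n2 := ndF1q2a) (pc := pcF1) (cut := Cut.none) (xt := Ext.none) (P1 := 0) (W1 := 536870912) (P2 := 0) (W2 := 536870912) (P3 := 469762048) (W3 := 67108864)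
    rfl k0_mm_012_a

noncomputable def f_mm_012_b : ℕ → ℕ → ℕ → ℕ → Bool := onCell 0 536870912 1239849684 370763052 469762048 67108864
    (rowF 0 false false false .pnp 0 1 2 (qsf 0 536870912 1239849684 370763052 1) ndF0q0 ndF1q2b pcF1 Cut.none Ext.none)

def k0_mm_012_b : ∃ t, chk3 f_mm_012_b t 1 1 1 = true :=
  ⟨(l 5), by decide +kernel⟩

theorem c_mm_012_b : CertF 0 536870912 1239849684 370763052 469762048 67108864 false false false .pnp 0 1 2
    ndF0q0 ndF1q2b pcF1 Cut.none Ext.none :=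
  certF0 (fam := false) (s1 := false) (s2 := false) (a := 0) (b := 1) (c := 2) (cn := .pnp) (n1 := ndF0q0) (n2 := ndF1q2b) (pc := pcF1) (cut := Cut.none) (xt := Ext.none) (P1 := 0) (W1 := 536870912) (P2 := 1239849684) (W2 := 370763052) (P3 := 469762048) (W3 := 67108864)
    rfl k0_mm_012_b

noncomputable def f_mm_022_a : ℕ → ℕ → ℕ → ℕ → Bool := onCell 0 536870912 0 536870912 469762048 67108864
    (rowF 0 false false false .pp 0 2 2 (qsf 0 536870912 0 536870912 2) ndF0q0 ndF1q2a pcF2 Cut.none Ext.none)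

def k0_mm_022_a : ∃ t, chk3 f_mm_022_a t 1 1 1 = true :=
  ⟨(l 5), by decide +kernel⟩

theorem c_mm_022_a : CertF 0 536870912 0 536870912 469762048 67108864 false false false .pp 0 2 2
    ndF0q0 ndF1q2a pcF2 Cut.none Ext.none :=
  certF0 (fam := false) (s1 := false) (s2 := false) (a := 0) (b := 2) (c := 2) (cn := .pp) (n1 := ndF0q0) (n2 := ndF1q2a) (pc := pcF2) (cut := Cut.none) (xt := Ext.none) (P1 := 0) (W1 := 536870912) (P2 := 0) (W2 := 536870912) (P3 := 469762048) (W3 := 67108864)
    rfl k0_mm_022_a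

noncomputable def f_mm_022_b : ℕ → ℕ → ℕ → ℕ → Bool := onCell 0 536870912 1239849684 370763052 469762048 67108864
    (rowF 0 false false false .pp 0 2 2 (qsf 0 536870912 1239849684 370763052 2) ndF0q0 ndF1q2b pcF2 Cut.none Ext.none)

def k0_mm_022_b : ∃ t, chk3 f_mm_022_b t 1 1 1 = true :=
  ⟨(l 5), by decide +kernel⟩

theorem c_mm_022_b : CertF 0 536870912 1239849684 370763052 469762048 67108864 false false false .pp 0 2 2
    ndF0q0 ndF1q2b pcF2 Cut.none Ext.none :=
  certF0 (fam := false) (s1 := false) (s2 := false) (a := 0) (b := 2) (c := 2) (cn := .pp) (n1 := ndF0q0) (n2 := ndF1q2b) (pc := pcF2) (cut := Cut.none) (xt := Ext.none) (P1 := 0) (W1 := 536870912) (P2 := 1239849684) (W2 := 370763052) (P3 := 469762048) (W3 := 67108864)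
    rfl k0_mm_022_b

noncomputable def f_mm_023 : ℕ → ℕ → ℕ → ℕ → Bool := onCell 0 536870912 1610612736 536870912 469762048 67108864
    (rowF 0 false false false .up 0 2 3 (qsf 0 536870912 1610612736 536870912 2) ndF0q0 ndF1q3 pcF2 Cut.none Ext.none)

def k0_mm_023 : ∃ t, chk3 f_mm_023 t 1 1 1 = true :=
  ⟨(l 5), by decide +kernel⟩

theorem c_mm_023 : CertF 0 536870912 1610612736 536870912 469762048 67108864 false false false .up 0 2 3
    ndF0q0 ndF1q3 pcF2 Cut.none Ext.none :=
  certF0 (fam := false) (s1 := false) (s2 := false) (a := 0) (b := 2) (c := 3) (cn := .up) (n1 := ndF0q0) (n2 := ndF1q3) (pc := pcF2) (cut := Cut.none) (xt := Ext.none) (P1 := 0) (W1 := 536870912) (P2 := 1610612736) (W2 := 536870912) (P3 := 469762048) (W3 := 67108864)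
    rfl k0_mm_023

noncomputable def f_mm_033 : ℕ → ℕ → ℕ → ℕ → Bool := onCell 0 536870912 1610612736 536870912 469762048 67108864
    (rowF 0 false false false .pnn 0 3 3 (qsf 0 536870912 1610612736 536870912 3) ndF0q0 ndF1q3 pcF3 Cut.none Ext.none)

def k0_mm_033 : ∃ t, chk3 f_mm_033 t 1 1 1 = true :=
  ⟨(l 5), by decide +kernel⟩

theorem c_mm_033 : CertF 0 536870912 1610612736 536870912 469762048 67108864 false false false .pnn 0 3 3
    ndF0q0 ndF1q3 pcF3 Cut.none Ext.none :=
  certF0 (fam := false) (s1 := false) (s2 := false) (a := 0) (b := 3) (c := 3) (cn := .pnn) (n1 := ndF0q0) (n2 := ndF1q3) (pc := pcF3) (cut := Cut.none) (xt := Ext.none) (P1 := 0) (W1 := 536870912) (P2 := 1610612736) (W2 := 536870912) (P3 := 469762048) (W3 := 67108864)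
    rfl k0_mm_033

noncomputable def f_mm_101 : ℕ → ℕ → ℕ → ℕ → Bool := onCell 536870912 536870912 536870912 536870912 469762048 67108864
    (rowF 0 false false false .npn 1 0 1 (qsf 536870912 536870912 536870912 536870912 0) ndF0q1 ndF1q1 pcF0 Cut.none Ext.none)

def k0_mm_101 : ∃ t, chk3 f_mm_101 t 1 1 1 = true :=
  ⟨(l 3), by decide +kernel⟩

theorem c_mm_101 : CertF 536870912 536870912 536870912 536870912 469762048 67108864 false false false .npn 1 0 1
    ndF0q1 ndF1q1 pcF0 Cut.none Ext.none :=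
  certF0 (fam := false) (s1 := false) (s2 := false) (a := 1) (b := 0) (c := 1) (cn := .npn) (n1 := ndF0q1) (n2 := ndF1q1) (pc := pcF0) (cut := Cut.none) (xt := Ext.none) (P1 := 536870912) (W1 := 536870912) (P2 := 536870912) (W2 := 536870912) (P3 := 469762048) (W3 := 67108864)
    rfl k0_mm_101

noncomputable def f_mm_102_a : ℕ → ℕ → ℕ → ℕ → Bool := onCell 536870912 536870912 0 536870912 469762048 67108864
    (rowF 0 false false false .npp 1 0 2 (qsf 536870912 536870912 0 536870912 0) ndF0q1 ndF1q2a pcF0 Cut.none Ext.none)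

def k0_mm_102_a : ∃ t, chk3 f_mm_102_a t 1 1 1 = true :=
  ⟨(l 3), by decide +kernel⟩

theorem c_mm_102_a : CertF 536870912 536870912 0 536870912 469762048 67108864 false false false .npp 1 0 2
    ndF0q1 ndF1q2a pcF0 Cut.none Ext.none :=
  certF0 (fam := false) (s1 := false) (s2 := false) (a := 1) (b := 0) (c := 2) (cn := .npp) (n1 := ndF0q1) (n2 := ndF1q2a) (pc := pcF0) (cut := Cut.none) (xt := Ext.none) (P1 := 536870912) (W1 := 536870912) (P2 := 0) (W2 := 536870912) (P3 := 469762048) (W3 := 67108864)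
    rfl k0_mm_102_a

noncomputable def f_mm_102_b : ℕ → ℕ → ℕ → ℕ → Bool := onCell 536870912 536870912 1239849684 370763052 469762048 67108864
    (rowF 0 false false false .npp 1 0 2 (qsf 536870912 536870912 1239849684 370763052 0) ndF0q1 ndF1q2b pcF0 Cut.none Ext.none)

def k0_mm_102_b : ∃ t, chk3 f_mm_102_b t 1 1 1 = true :=
  ⟨(l 5), by decide +kernel⟩

theorem c_mm_102_b : CertF 536870912 536870912 1239849684 370763052 469762048 67108864 false false false .npp 1 0 2
    ndF0q1 ndF1q2b pcF0 Cut.none Ext.none :=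
  certF0 (fam := false) (s1 := false) (s2 := false) (a := 1) (b := 0) (c := 2) (cn := .npp) (n1 := ndF0q1) (n2 := ndF1q2b) (pc := pcF0) (cut := Cut.none) (xt := Ext.none) (P1 := 536870912) (W1 := 536870912) (P2 := 1239849684) (W2 := 370763052) (P3 := 469762048) (W3 := 67108864)
    rfl k0_mm_102_b

noncomputable def f_mm_112_a : ℕ → ℕ → ℕ → ℕ → Bool := onCell 536870912 536870912 0 536870912 469762048 67108864
    (rowF 0 false false false .dn 1 1 2 (qsf 536870912 536870912 0 536870912 1) ndF0q1 ndF1q2a pcF1 Cut.none Ext.none)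

def k0_mm_112_a : ∃ t, chk3 f_mm_112_a t 1 1 1 = true :=
  ⟨(l 3), by decide +kernel⟩

theorem c_mm_112_a : CertF 536870912 536870912 0 536870912 469762048 67108864 false false false .dn 1 1 2
    ndF0q1 ndF1q2a pcF1 Cut.none Ext.none :=
  certF0 (fam := false) (s1 := false) (s2 := false) (a := 1) (b := 1) (c := 2) (cn := .dn) (n1 := ndF0q1) (n2 := ndF1q2a) (pc := pcF1) (cut := Cut.none) (xt := Ext.none) (P1 := 536870912) (W1 := 536870912) (P2 := 0) (W2 := 536870912) (P3 := 469762048) (W3 := 67108864)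
    rfl k0_mm_112_a

noncomputable def f_mm_112_b : ℕ → ℕ → ℕ → ℕ → Bool := onCell 536870912 536870912 1239849684 370763052 469762048 67108864
    (rowF 0 false false false .dn 1 1 2 (qsf 536870912 536870912 1239849684 370763052 1) ndF0q1 ndF1q2b pcF1 Cut.none Ext.none)

def k0_mm_112_b : ∃ t, chk3 f_mm_112_b t 1 1 1 = true :=
  ⟨(l 5), by decide +kernel⟩

theorem c_mm_112_b : CertF 536870912 536870912 1239849684 370763052 469762048 67108864 false false false .dn 1 1 2
    ndF0q1 ndF1q2b pcF1 Cut.none Ext.none :=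
  certF0 (fam := false) (s1 := false) (s2 := false) (a := 1) (b := 1) (c := 2) (cn := .dn) (n1 := ndF0q1) (n2 := ndF1q2b) (pc := pcF1) (cut := Cut.none) (xt := Ext.none) (P1 := 536870912) (W1 := 536870912) (P2 := 1239849684) (W2 := 370763052) (P3 := 469762048) (W3 := 67108864)
    rfl k0_mm_112_b

noncomputable def f_mm_113 : ℕ → ℕ → ℕ → ℕ → Bool := onCell 536870912 536870912 1610612736 536870912 469762048 67108864
    (rowF 0 false false false .nn 1 1 3 (qsf 536870912 536870912 1610612736 536870912 1) ndF0q1 ndF1q3 pcF1 Cut.none Ext.none)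

def k0_mm_113 : ∃ t, chk3 f_mm_113 t 1 1 1 = true :=
  ⟨(l 5), by decide +kernel⟩

theorem c_mm_113 : CertF 536870912 536870912 1610612736 536870912 469762048 67108864 false false false .nn 1 1 3
    ndF0q1 ndF1q3 pcF1 Cut.none Ext.none :=
  certF0 (fam := false) (s1 := false) (s2 := false) (a := 1) (b := 1) (c := 3) (cn := .nn) (n1 := ndF0q1) (n2 := ndF1q3) (pc := pcF1) (cut := Cut.none) (xt := Ext.none) (P1 := 536870912) (W1 := 536870912) (P2 := 1610612736) (W2 := 536870912) (P3 := 469762048) (W3 := 67108864)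
    rfl k0_mm_113

noncomputable def f_mm_123 : ℕ → ℕ → ℕ → ℕ → Bool := onCell 536870912 536870912 1610612736 536870912 469762048 67108864
    (rowF 0 false false false .npn 1 2 3 (qsf 536870912 536870912 1610612736 536870912 2) ndF0q1 ndF1q3 pcF2 Cut.none Ext.none)

def k0_mm_123 : ∃ t, chk3 f_mm_123 t 1 1 1 = true :=
  ⟨(l 5), by decide +kernel⟩

theorem c_mm_123 : CertF 536870912 536870912 1610612736 536870912 469762048 67108864 false false false .npn 1 2 3
    ndF0q1 ndF1q3 pcF2 Cut.none Ext.none :=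
  certF0 (fam := false) (s1 := false) (s2 := false) (a := 1) (b := 2) (c := 3) (cn := .npn) (n1 := ndF0q1) (n2 := ndF1q3) (pc := pcF2) (cut := Cut.none) (xt := Ext.none) (P1 := 536870912) (W1 := 536870912) (P2 := 1610612736) (W2 := 536870912) (P3 := 469762048) (W3 := 67108864)
    rfl k0_mm_123

noncomputable def f_mm_133 : ℕ → ℕ → ℕ → ℕ → Bool := onCell 536870912 536870912 1610612736 536870912 469762048 67108864
    (rowF 0 false false false .dn 1 3 3 (qsf 536870912 536870912 1610612736 536870912 3) ndF0q1 ndF1q3 pcF3 Cut.none Ext.none)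

def k0_mm_133 : ∃ t, chk3 f_mm_133 t 1 1 1 = true :=
  ⟨(l 5), by decide +kernel⟩

theorem c_mm_133 : CertF 536870912 536870912 1610612736 536870912 469762048 67108864 false false false .dn 1 3 3
    ndF0q1 ndF1q3 pcF3 Cut.none Ext.none :=
  certF0 (fam := false) (s1 := false) (s2 := false) (a := 1) (b := 3) (c := 3) (cn := .dn) (n1 := ndF0q1) (n2 := ndF1q3) (pc := pcF3) (cut := Cut.none) (xt := Ext.none) (P1 := 536870912) (W1 := 536870912) (P2 := 1610612736) (W2 := 536870912) (P3 := 469762048) (W3 := 67108864)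
    rfl k0_mm_133

noncomputable def f_mm_202_a : ℕ → ℕ → ℕ → ℕ → Bool := onCell 0 536870912 0 536870912 469762048 67108864
    (rowF 0 false false false .pp 2 0 2 (qsf 0 536870912 0 536870912 0) ndF0q2 ndF1q2a pcF0 Cut.none Ext.none)

def k0_mm_202_a : ∃ t, chk3 f_mm_202_a t 1 1 1 = true :=
  ⟨(l 3), by decide +kernel⟩

theorem c_mm_202_a : CertF 0 536870912 0 536870912 469762048 67108864 false false false .pp 2 0 2
    ndF0q2 ndF1q2a pcF0 Cut.none Ext.none :=
  certF0 (fam := false) (s1 := false) (s2 := false) (a := 2) (b := 0) (c := 2) (cn := .pp) (n1 := ndF0q2) (n2 := ndF1q2a) (pc := pcF0) (cut := Cut.none) (xt := Ext.none) (P1 := 0) (W1 := 536870912) (P2 := 0) (W2 := 536870912) (P3 := 469762048) (W3 := 67108864)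
    rfl k0_mm_202_a

noncomputable def f_mm_202_b : ℕ → ℕ → ℕ → ℕ → Bool := onCell 0 536870912 1239849684 370763052 469762048 67108864
    (rowF 0 false false false .pp 2 0 2 (qsf 0 536870912 1239849684 370763052 0) ndF0q2 ndF1q2b pcF0 Cut.none Ext.none)

def k0_mm_202_b : ∃ t, chk3 f_mm_202_b t 1 1 1 = true :=
  ⟨(l 3), by decide +kernel⟩

theorem c_mm_202_b : CertF 0 536870912 1239849684 370763052 469762048 67108864 false false false .pp 2 0 2
    ndF0q2 ndF1q2b pcF0 Cut.none Ext.none :=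
  certF0 (fam := false) (s1 := false) (s2 := false) (a := 2) (b := 0) (c := 2) (cn := .pp) (n1 := ndF0q2) (n2 := ndF1q2b) (pc := pcF0) (cut := Cut.none) (xt := Ext.none) (P1 := 0) (W1 := 536870912) (P2 := 1239849684) (W2 := 370763052) (P3 := 469762048) (W3 := 67108864)
    rfl k0_mm_202_b

noncomputable def f_mm_203 : ℕ → ℕ → ℕ → ℕ → Bool := onCell 0 536870912 0 536870912 469762048 67108864
    (rowF 1 false false false .up 2 0 3 (qsf 0 536870912 1610612736 536870912 0) ndF0q2 ndF1q3 pcF0 Cut.none Ext.none)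

def k0_mm_203 : ∃ t, chk3 f_mm_203 t 1 1 1 = true :=
  ⟨(l 3), by decide +kernel⟩

theorem c_mm_203 : CertF 0 536870912 1610612736 536870912 469762048 67108864 false false false .up 2 0 3
    ndF0q2 ndF1q3 pcF0 Cut.none Ext.none :=
  certF1 (fam := false) (s1 := false) (s2 := false) (a := 2) (b := 0) (c := 3) (cn := .up) (n1 := ndF0q2) (n2 := ndF1q3) (pc := pcF0) (cut := Cut.none) (xt := Ext.none) (P1 := 0) (W1 := 536870912) (P2 := 1610612736) (W2 := 536870912) (P3 := 469762048) (W3 := 67108864)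
    rfl (fun _ => rfl) k0_mm_203

noncomputable def f_mm_213 : ℕ → ℕ → ℕ → ℕ → Bool := onCell 0 536870912 1610612736 536870912 469762048 67108864
    (rowF 0 false false false .pnn 2 1 3 (qsf 0 536870912 1610612736 536870912 1) ndF0q2 ndF1q3 pcF1 Cut.none Ext.none)

def k0_mm_213 : ∃ t, chk3 f_mm_213 t 1 1 1 = true :=
  ⟨(a (l 3) (l 5)), by decide +kernel⟩

theorem c_mm_213 : CertF 0 536870912 1610612736 536870912 469762048 67108864 false false false .pnn 2 1 3
    ndF0q2 ndF1q3 pcF1 Cut.none Ext.none :=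
  certF0 (fam := false) (s1 := false) (s2 := false) (a := 2) (b := 1) (c := 3) (cn := .pnn) (n1 := ndF0q2) (n2 := ndF1q3) (pc := pcF1) (cut := Cut.none) (xt := Ext.none) (P1 := 0) (W1 := 536870912) (P2 := 1610612736) (W2 := 536870912) (P3 := 469762048) (W3 := 67108864)
    rfl k0_mm_213

end Pool.Agent.Strip051.G.I7_16_1_2.Tab.C.FB01

namespace Pool.Agent.Strip051.G.I7_16_1_2.Tab.C.FB02

open Pool.Agent.Strip051.PB Pool.Agent.Strip051.PB.T
open Pool.Agent.Strip051.G.I7_16_1_2.Tab

noncomputable def f_pp_001 : ℕ → ℕ → ℕ → ℕ → Bool := onCell 0 536870912 0 536870912 469762048 67108864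
    (rowF 1 false true true .up 0 0 1 (qsf 0 536870912 536870912 536870912 0) ndF0q0 ndF2q1 pcF0 Cut.none Ext.none)

def k0_pp_001 : ∃ t, chk3 f_pp_001 t 1 1 1 = true :=
  ⟨(l 3), by decide +kernel⟩

theorem c_pp_001 : CertF 0 536870912 536870912 536870912 469762048 67108864 false true true .up 0 0 1
    ndF0q0 ndF2q1 pcF0 Cut.none Ext.none :=
  certF1 (fam := false) (s1 := true) (s2 := true) (a := 0) (b := 0) (c := 1) (cn := .up) (n1 := ndF0q0) (n2 := ndF2q1) (pc := pcF0) (cut := Cut.none) (xt := Ext.none) (P1 := 0) (W1 := 536870912) (P2 := 536870912) (W2 := 536870912) (P3 := 469762048) (W3 := 67108864)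
    rfl (fun _ => rfl) k0_pp_001

noncomputable def cut_pp_011 : Cut := Cut.of [[⟨0, 0, 0, 67108864⟩, ⟨1, 1, 0, 67108864⟩, ⟨2, 1, 0, 67108864⟩]]

noncomputable def f_pp_011 : ℕ → ℕ → ℕ → ℕ → Bool := onCell 0 536870912 536870912 536870912 469762048 67108864
    (rowF 1 false true true .pnn 0 1 1 (qsf 0 536870912 536870912 536870912 1) ndF0q0 ndF2q1 pcF1 cut_pp_011 Ext.none)

def k0_pp_011 : ∃ t, chk3 f_pp_011 t 1 1 1 = true :=
  ⟨(b (l 3) (a (b (l 3) (a (b (l 3) (a (b (l 3) (a (l 6) (l 3))) (l 3))) (l 3))) (l 3))), by decide +kernel⟩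

theorem c_pp_011 : CertF 0 536870912 536870912 536870912 469762048 67108864 false true true .pnn 0 1 1
    ndF0q0 ndF2q1 pcF1 cut_pp_011 Ext.none :=
  certF1 (fam := false) (s1 := true) (s2 := true) (a := 0) (b := 1) (c := 1) (cn := .pnn) (n1 := ndF0q0) (n2 := ndF2q1) (pc := pcF1) (cut := cut_pp_011) (xt := Ext.none) (P1 := 0) (W1 := 536870912) (P2 := 536870912) (W2 := 536870912) (P3 := 469762048) (W3 := 67108864)
    rfl (fun _ => rfl) k0_pp_011

noncomputable def f_pp_012 : ℕ → ℕ → ℕ → ℕ → Bool := onCell 0 536870912 536870912 536870912 469762048 67108864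
    (rowF 1 false true true .pnp 0 1 2 (qsf 0 536870912 1073741824 536870912 1) ndF0q0 ndF2q2 pcF1 Cut.none Ext.none)

def k0_pp_012 : ∃ t, chk3 f_pp_012 t 1 1 1 = true :=
  ⟨(l 3), by decide +kernel⟩

theorem c_pp_012 : CertF 0 536870912 1073741824 536870912 469762048 67108864 false true true .pnp 0 1 2
    ndF0q0 ndF2q2 pcF1 Cut.none Ext.none :=
  certF1 (fam := false) (s1 := true) (s2 := true) (a := 0) (b := 1) (c := 2) (cn := .pnp) (n1 := ndF0q0) (n2 := ndF2q2) (pc := pcF1) (cut := Cut.none) (xt := Ext.none) (P1 := 0) (W1 := 536870912) (P2 := 1073741824) (W2 := 536870912) (P3 := 469762048) (W3 := 67108864)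
    rfl (fun _ => rfl) k0_pp_012

noncomputable def f_pp_022 : ℕ → ℕ → ℕ → ℕ → Bool := onCell 0 536870912 1073741824 536870912 469762048 67108864
    (rowF 1 false true true .pp 0 2 2 (qsf 0 536870912 1073741824 536870912 2) ndF0q0 ndF2q2 pcF2 Cut.none Ext.none)

def k0_pp_022 : ∃ t, chk3 f_pp_022 t 4 2 1 = true :=
  ⟨(b (b (l 3) (a (b (a (l 3) (b (l 3) (b (l 3) (a (l 16614384) (l 16609744))))) (b (a (a (b (c (a (b (l 16621968) (l 16617664)) (l 16618200)) (a (l 16605984) (l 16604504))) (c (a (l 16611800) (l 16610592)) (l 16595464))) (b (c (l 16615656) (l 16602160)) (l 16601080))) (b (a (l 16605568) (l 16601792)) (a (l 16598328) (l 16595408)))) (a (a (b (c (l 16603928) (l 16586168)) (a (l 16587496) (l 16587072))) (b (l 16593504) (l 16586264))) (b (l 16590560) (l 16584560))))) (b (b (l 3) (b (l 3) (a (l 16602728) (l 16593152)))) (b (a (b (l 16596360) (l 16591288)) (l 16586784)) (a (l 16584240) (l 16579744)))))) (b (a (b (b (a (b (a (a (l 16579744) (l 16579656)) (l 16579352))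 (a (a (l 16593176) (l 16572376)) (l 16572680))) (b (l 16578888) (l 16573320))) (b (a (a (b (l 16587688) (l 16563208)) (l 16566144)) (l 16567808)) (a (a (b (l 16559920) (b (l 16557704) (l 16556328))) (b (l 16561792) (l 16559280))) (l 16605120)))) (a (a (a (b (l 16548056) (l 16535656)) (l 16543536)) (l 16546160)) (l 16550600))) (b (b (a (b (l 16577536) (l 16572960)) (l 16572824)) (a (l 16629984) (l 16566680))) (a (l 16554832) (l 16557088)))) (a (a (b (a (a (b (l 16524872) (l 16515696)) (l 16522944)) (l 16526984)) (a (b (l 16509928) (l 16504208)) (l 16514056))) (b (l 16534144) (l 16523672))) (a (l 16537272) (l 16544040))))), by decide +kernel⟩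

def k1_pp_022 : ∃ t, chk3 f_pp_022 t 5 2 1 = true :=
  ⟨(b (b (l 3) (b (b (l 3) (a (a (l 16627376) (l 16572440)) (a (l 88214215383) (l 16540136)))) (a (b (a (l 16578384) (l 16568368)) (a (l 16573728) (l 16565960))) (b (a (l 16556384) (l 16541976)) (l 16571440))))) (b (b (b (a (a (l 16568600) (l 16562456)) (l 16549104)) (a (l 16562616) (a (l 16553608) (l 16543832)))) (a (l 16556632) (a (l 16549968) (l 16546976)))) (a (a (b (l 16550192) (l 16546968)) (b (l 16549864) (l 16554216))) (a (b (l 16552104) (l 16565064)) (b (l 16557880) (l 16575208)))))), by decide +kernel⟩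

def k2_pp_022 : ∃ t, chk3 f_pp_022 t 2 3 1 = true :=
  ⟨(b (a (a (b (a (b (a (l 16498672) (l 16507424)) (a (l 16497040) (l 16507184))) (b (l 16519248) (l 16520952))) (a (b (l 16507872) (a (l 16513856) (l 16525376))) (b (a (l 16523928) (l 16532792)) (a (l 16538880) (l 16554112))))) (b (a (b (l 16532552) (l 16535368)) (b (l 16541968) (l 16552704))) (a (b (l 16550216) (l 16579512)) (b (l 16576792) (l 16610256))))) (b (a (a (b (l 16554192) (l 16573808)) (b (l 16570104) (l 16593832))) (a (b (l 16585152) (l 16608536)) (b (l 16595288) (l 16616712)))) (a (a (b (l 16602008) (l 16634488)) (b (l 16621368) (l 16650984))) (a (b (l 16633680) (l 2)) (l 2))))) (a (b (a (a (b (a (b (l 16526752) (l 16540608)) (l 16551752)) (b (l 16576568) (l 16608576))) (b (a (l 16572080) (l 16592224)) (a (l 16626248) (l 16646360)))) (b (a (l 16618600) (l 16648000)) (a (l 16671216) (l 16721648)))) (a (b (a (a (l 16607536) (l 16673560)) (l 16636736)) (a (a (l 16671440) (l 16698832)) (b (l 16793272) (l 2))))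 (b (a (b (l 16747248) (l 2)) (l 2)) (l 2)))) (b (a (b (a (l 16679768) (l 2)) (l 2)) (l 2)) (l 2)))), by decide +kernel⟩

def k3_pp_022 : ∃ t, chk3 f_pp_022 t 3 1 1 = true :=
  ⟨(b (b (a (b (l 3) (a (b (b (a (l 3) (l 16494248)) (a (l 16519688) (l 16515432))) (b (a (l 16524512) (l 16483192)) (a (l 16527712) (l 16513808)))) (b (a (b (l 16502784) (l 16471136)) (b (l 16503528) (l 16451184))) (b (a (l 16489312) (l 16473568)) (a (l 16504120) (l 16489320)))))) (b (l 3) (a (b (b (a (l 79087250167) (b (l 16480472) (l 16507368))) (a (l 16456944) (b (l 16514536) (l 16522784)))) (b (a (l 16469832) (l 16537120)) (a (l 16475304) (l 2)))) (a (a (b (b (l 100562380103) (l 2)) (l 2)) (l 2)) (l 2))))) (a (b (a (b (a (b (l 16530552) (l 16536808)) (b (l 16523128) (l 16534320))) (a (l 16547416) (l 16547136))) (b (a (b (l 16516112) (l 16528448)) (b (l 16502160) (l 16515048))) (a (l 16541648) (l 16528016)))) (a (a (b (l 16563008) (l 16580680)) (b (l 16563456) (l 16579976))) (a (b (l 16557264) (l 2))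 (l 2)))) (b (a (b (a (b (l 16503704) (l 2)) (l 2)) (l 2)) (l 2)) (l 2)))) (a (b (b (a (b (a (l 16599200) (l 2)) (l 2)) (l 2)) (l 2)) (l 2)) (l 2))), by decide +kernel⟩

theorem s4_pp_022 : ∃ t, chk3 f_pp_022 t 2 2 1 = true := ex3_a k0_pp_022 k1_pp_022

theorem s5_pp_022 : ∃ t, chk3 f_pp_022 t 2 1 1 = true := ex3_b s4_pp_022 k2_pp_022

theorem s6_pp_022 : ∃ t, chk3 f_pp_022 t 1 1 1 = true := ex3_a s5_pp_022 k3_pp_022

theorem c_pp_022 : CertF 0 536870912 1073741824 536870912 469762048 67108864 false true true .pp 0 2 2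
    ndF0q0 ndF2q2 pcF2 Cut.none Ext.none :=
  certF1 (fam := false) (s1 := true) (s2 := true) (a := 0) (b := 2) (c := 2) (cn := .pp) (n1 := ndF0q0) (n2 := ndF2q2) (pc := pcF2) (cut := Cut.none) (xt := Ext.none) (P1 := 0) (W1 := 536870912) (P2 := 1073741824) (W2 := 536870912) (P3 := 469762048) (W3 := 67108864)
    rfl (fun _ => rfl) s6_pp_022

noncomputable def f_pp_023 : ℕ → ℕ → ℕ → ℕ → Bool := onCell 1073741824 536870912 0 1230186008 469762048 67108864
    (rowF 2 false true true .up 0 2 3 (qsf 0 536870912 0 1230186008 2) ndF0q0 ndF2q3 pcF2 Cut.none Ext.none)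

def k0_pp_023 : ∃ t, chk3 f_pp_023 t 1 1 1 = true :=
  ⟨(b (a (l 2) (a (l 2) (b (a (l 2) (l 16851864)) (a (b (l 16832808) (l 16824968)) (b (l 16849824) (l 16839944)))))) (b (a (a (l 2) (b (l 2) (a (l 2) (b (l 2) (l 16818288))))) (a (b (a (l 2) (l 16804272)) (a (b (l 16800656) (l 16791880)) (l 16894040))) (a (b (l 16813856) (b (l 16800576) (l 16785680))) (b (l 16826208) (b (l 16810352) (l 16795352)))))) (a (a (b (l 2) (a (b (l 2) (l 3)) (b (a (b (l 2) (a (l 236860905527) (l 16807768))) (a (b (l 16826680) (l 16780216)) (l 16780464))) (a (b (a (a (l 16785344) (l 16768696)) (l 16743808)) (a (b (a (l 16731600) (l 16712552)) (l 16697616)) (b (l 16684368) (l 16655264)))) (b (a (l 16711680) (l 16681384)) (a (l 16632712) (l 16598088))))))) (b (a (b (a (l 2) (l 16831832)) (a (a (l 16832000) (l 16814104)) (l 16789112))) (b (l 16796504) (l 16745808))) (b (a (a (a (l 16756360) (l 16733464)) (l 16702096)) (b (l 16684568) (l 16628944))) (a (b (a (l 16640064) (l 16597176)) (a (a (l 16567472)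 (l 16540672)) (l 16509112))) (b (l 16558568) (l 16472064)))))) (b (a (b (a (l 16764688) (l 16754696)) (a (l 16714272) (l 16710432))) (a (b (l 16763064) (l 16726848)) (b (l 16782120) (l 16762704)))) (a (b (a (l 16634096) (l 16642080)) (b (a (l 16548224) (l 16569832)) (a (l 16465960) (l 16493344)))) (b (a (l 16754808) (a (l 16709120) (l 16737960))) (a (b (l 16611920) (l 16542016)) (b (a (l 16661560) (l 16697352)) (a (l 16598232) (b (l 16663656) (l 16612288))))))))))), by decide +kernel⟩

theorem c_pp_023 : CertF 0 536870912 0 1230186008 469762048 67108864 false true true .up 0 2 3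
    ndF0q0 ndF2q3 pcF2 Cut.none Ext.none :=
  certF2 (fam := false) (s1 := true) (s2 := true) (a := 0) (b := 2) (c := 3) (cn := .up) (n1 := ndF0q0) (n2 := ndF2q3) (pc := pcF2) (cut := Cut.none) (xt := Ext.none) (P1 := 0) (W1 := 536870912) (P2 := 0) (W2 := 1230186008) (P3 := 469762048) (W3 := 67108864)
    rfl (fun _ => rfl) k0_pp_023

noncomputable def f_pp_033 : ℕ → ℕ → ℕ → ℕ → Bool := onCell 1610612736 536870912 0 1230186008 469762048 67108864
    (rowF 2 false true true .pnn 0 3 3 (qsf 0 536870912 0 1230186008 3) ndF0q0 ndF2q3 pcF3 Cut.none Ext.none)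

def k0_pp_033 : ∃ t, chk3 f_pp_033 t 1 1 1 = true :=
  ⟨(b (b (a (a (a (l 16836936) (l 16839464)) (a (l 16840240) (l 16842808))) (l 4)) (a (a (a (l 17073456) (l 16850608)) (a (l 16855856) (l 16861328))) (a (a (l 16871912) (l 4)) (l 4)))) (b (b (a (a (a (l 16836240) (l 16847576)) (a (l 16859200) (l 16875504))) (a (a (l 16898896) (l 16924320)) (l 4))) (a (a (a (b (l 16820032) (l 16798968)) (l 16819408)) (a (l 16831864) (l 16857304))) (a (a (l 16903688) (l 547642734263)) (l 1)))) (a (a (b (a (b (l 16772416) (a (l 16736352) (l 16744440))) (b (l 16777736) (l 16742504))) (b (a (a (l 16693528) (b (l 16715352) (l 16692648))) (b (a (l 16713368) (l 16710080)) (a (l 16646232) (l 256120579351)))) (a (b (a (l 16656032) (a (l 16668672) (l 16665336))) (a (b (l 142840758327) (l 151967407831)) (b (a (l 165926110167) (l 1)) (l 1)))) (b (a (l 222297880855) (l 1)) (l 1))))) (b (a (b (l 16787672) (l 16749448)) (b (l 16817184) (l 1))) (b (a (b (l 307660400055) (l 1)) (l 1)) (l 1)))) (l 1)))),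 by decide +kernel⟩

theorem c_pp_033 : CertF 0 536870912 0 1230186008 469762048 67108864 false true true .pnn 0 3 3
    ndF0q0 ndF2q3 pcF3 Cut.none Ext.none :=
  certF2 (fam := false) (s1 := true) (s2 := true) (a := 0) (b := 3) (c := 3) (cn := .pnn) (n1 := ndF0q0) (n2 := ndF2q3) (pc := pcF3) (cut := Cut.none) (xt := Ext.none) (P1 := 0) (W1 := 536870912) (P2 := 0) (W2 := 1230186008) (P3 := 469762048) (W3 := 67108864)
    rfl (fun _ => rfl) k0_pp_033

noncomputable def f_pp_101 : ℕ → ℕ → ℕ → ℕ → Bool := onCell 536870912 536870912 536870912 536870912 469762048 67108864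
    (rowF 0 false true true .npn 1 0 1 (qsf 536870912 536870912 536870912 536870912 0) ndF0q1 ndF2q1 pcF0 Cut.none Ext.none)

def k0_pp_101 : ∃ t, chk3 f_pp_101 t 1 1 1 = true :=
  ⟨(a (l 3) (l 5)), by decide +kernel⟩

theorem c_pp_101 : CertF 536870912 536870912 536870912 536870912 469762048 67108864 false true true .npn 1 0 1
    ndF0q1 ndF2q1 pcF0 Cut.none Ext.none :=
  certF0 (fam := false) (s1 := true) (s2 := true) (a := 1) (b := 0) (c := 1) (cn := .npn) (n1 := ndF0q1) (n2 := ndF2q1) (pc := pcF0) (cut := Cut.none) (xt := Ext.none) (P1 := 536870912) (W1 := 536870912) (P2 := 536870912) (W2 := 536870912) (P3 := 469762048) (W3 := 67108864)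
    rfl k0_pp_101

noncomputable def f_pp_102 : ℕ → ℕ → ℕ → ℕ → Bool := onCell 536870912 536870912 0 536870912 469762048 67108864
    (rowF 1 false true true .npp 1 0 2 (qsf 536870912 536870912 1073741824 536870912 0) ndF0q1 ndF2q2 pcF0 Cut.none Ext.none)

def k0_pp_102 : ∃ t, chk3 f_pp_102 t 1 1 1 = true :=
  ⟨(l 3), by decide +kernel⟩

theorem c_pp_102 : CertF 536870912 536870912 1073741824 536870912 469762048 67108864 false true true .npp 1 0 2
    ndF0q1 ndF2q2 pcF0 Cut.none Ext.none :=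
  certF1 (fam := false) (s1 := true) (s2 := true) (a := 1) (b := 0) (c := 2) (cn := .npp) (n1 := ndF0q1) (n2 := ndF2q2) (pc := pcF0) (cut := Cut.none) (xt := Ext.none) (P1 := 536870912) (W1 := 536870912) (P2 := 1073741824) (W2 := 536870912) (P3 := 469762048) (W3 := 67108864)
    rfl (fun _ => rfl) k0_pp_102

noncomputable def f_pp_112 : ℕ → ℕ → ℕ → ℕ → Bool := onCell 536870912 536870912 1073741824 536870912 469762048 67108864
    (rowF 0 false true true .dn 1 1 2 (qsf 536870912 536870912 1073741824 536870912 1) ndF0q1 ndF2q2 pcF1 Cut.none Ext.none)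

def k0_pp_112 : ∃ t, chk3 f_pp_112 t 1 1 1 = true :=
  ⟨(a (l 3) (l 3)), by decide +kernel⟩

theorem c_pp_112 : CertF 536870912 536870912 1073741824 536870912 469762048 67108864 false true true .dn 1 1 2
    ndF0q1 ndF2q2 pcF1 Cut.none Ext.none :=
  certF0 (fam := false) (s1 := true) (s2 := true) (a := 1) (b := 1) (c := 2) (cn := .dn) (n1 := ndF0q1) (n2 := ndF2q2) (pc := pcF1) (cut := Cut.none) (xt := Ext.none) (P1 := 536870912) (W1 := 536870912) (P2 := 1073741824) (W2 := 536870912) (P3 := 469762048) (W3 := 67108864)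
    rfl k0_pp_112

noncomputable def cut_pp_113 : Cut := Cut.of [[⟨0, 1, 0, 67108864⟩, ⟨1, 1, 0, 67108864⟩, ⟨2, 2, 0, 16777216⟩]]

noncomputable def f_pp_113 : ℕ → ℕ → ℕ → ℕ → Bool := onCell 536870912 536870912 0 1230186008 469762048 67108864
    (rowF 2 false true true .nn 1 1 3 (qsf 536870912 536870912 0 1230186008 1) ndF0q1 ndF2q3 pcF1 cut_pp_113 Ext.none)

def k0_pp_113 : ∃ t, chk3 f_pp_113 t 1 1 1 = true :=
  ⟨(b (a (l 2) (a (l 2) (a (l 3) (a (l 3) (b (b (l 6) (l 3)) (l 3)))))) (b (a (l 3) (a (l 3) (l 3))) (a (b (l 3) (l 3)) (l 3)))), by decide +kernel⟩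

theorem c_pp_113 : CertF 536870912 536870912 0 1230186008 469762048 67108864 false true true .nn 1 1 3
    ndF0q1 ndF2q3 pcF1 cut_pp_113 Ext.none :=
  certF2 (fam := false) (s1 := true) (s2 := true) (a := 1) (b := 1) (c := 3) (cn := .nn) (n1 := ndF0q1) (n2 := ndF2q3) (pc := pcF1) (cut := cut_pp_113) (xt := Ext.none) (P1 := 536870912) (W1 := 536870912) (P2 := 0) (W2 := 1230186008) (P3 := 469762048) (W3 := 67108864)
    rfl (fun _ => rfl) k0_pp_113

noncomputable def cut_pp_123 : Cut := Cut.of [[⟨0, 1, 0, 67108864⟩, ⟨1, 1, 0, 67108864⟩, ⟨2, 2, 0, 16777216⟩]]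

noncomputable def f_pp_123 : ℕ → ℕ → ℕ → ℕ → Bool := onCell 1073741824 536870912 0 1230186008 469762048 67108864
    (rowF 2 false true true .npn 1 2 3 (qsf 536870912 536870912 0 1230186008 2) ndF0q1 ndF2q3 pcF2 cut_pp_123 Ext.none)

def k0_pp_123 : ∃ t, chk3 f_pp_123 t 1 2 1 = true :=
  ⟨(b (a (a (b (a (a (l 6) (l 16782264)) (l 16785240)) (a (b (a (l 6) (l 16788000)) (a (a (a (l 3) (a (l 3) (b (b (a (l 253570876119) (l 16794096)) (l 253034010407)) (a (l 3) (l 253034018839))))) (a (a (a (b (l 16795376) (l 16800888)) (b (l 16795304) (l 16800800))) (b (l 16795232) (l 16800624))) (l 16860680))) (l 16796088))) (l 16790232))) (a (l 16810592) (l 16796160))) (a (a (l 16809208) (l 16825112)) (a (l 16841872) (l 16852032)))) (a (a (a (a (b (a (l 3) (a (b (b (a (l 253570925815) (l 16806720)) (a (l 250886560679) (l 16813312))) (b (l 249275962183) (l 247665364999))) (b (a (l 16830720) (l 16809320)) (a (l 70498017815) (l 16823424))))) (a (l 3) (a (l 3) (b (b (l 244444196999) (l 242833603175))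 (a (l 3) (l 242296800375)))))) (b (a (b (l 16808008) (a (l 16843416) (l 16820856))) (l 16812440)) (b (a (a (a (l 16838840) (l 16837864)) (l 16836400)) (l 16833328)) (a (a (a (l 16857056) (l 16855880)) (l 16854000)) (l 16871328))))) (b (a (l 16808352) (l 16803496)) (a (l 16960848) (l 16825480)))) (a (b (l 16798664) (l 17023000)) (b (l 16797872) (l 16803608)))) (a (a (b (l 16806256) (l 16803856)) (l 16815112)) (a (b (l 16832808) (l 16825000)) (b (l 16849872) (l 16840104)))))), by decide +kernel⟩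

def k1_pp_123 : ∃ t, chk3 f_pp_123 t 1 6 1 = true :=
  ⟨(a (a (a (b (a (l 3) (a (b (a (a (l 234243760791) (l 16876000)) (l 16873784)) (a (a (l 3) (l 231559467751)) (b (l 16889864) (l 16901264)))) (b (a (l 16870688) (l 16867520)) (a (l 16891864) (l 16888000))))) (a (l 3) (b (a (a (l 3) (b (l 220822037495) (l 217063963623))) (a (b (l 16908448) (l 16919432)) (l 16930016))) (a (a (l 3) (a (l 3) (b (l 535965256647) (l 3)))) (a (b (c (l 16937848) (b (l 16920000) (l 211158357959))) (c (l 211158443399) (a (b (a (l 505363611351) (l 16931056)) (l 214916451207)) (b (l 16928544) (l 16930528))))) (b (l 16924256) (b (l 16931904) (l 16934200)))))))) (b (a (b (l 16859400) (l 16877568)) (l 16937512)) (a (b (a (l 16901384) (l 16890904)) (a (b (l 16915368) (a (l 16926712) (l 16920280))) (l 16907392))) (b (l 16875096) (l 16889712))))) (b (a (a (l 16880864) (l 16826256)) (l 16812864)) (a (a (a (l 17013800) (l 16961576)) (l 16989448)) (b (l 16818456) (l 16818288))))) (a (b (a (l 16803280) (l 16867208))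 (a (b (l 16800648) (l 16791792)) (b (l 16794872) (l 1)))) (b (a (l 16814024) (l 1)) (l 1)))), by decide +kernel⟩

def k2_pp_123 : ∃ t, chk3 f_pp_123 t 1 7 1 = true :=
  ⟨(a (a (b (a (a (l 3) (a (l 3) (b (a (b (b (a (l 213305837943) (l 16939480)) (l 210621498295)) (a (l 3) (l 209010881495))) (b (l 16934232) (l 16931544))) (a (b (l 203642178407) (l 3)) (b (l 16924992) (l 16912272)))))) (a (b (a (b (l 16923672) (l 16920104)) (l 16907968)) (a (b (l 16911928) (l 16897400)) (b (l 16894712) (l 16877240)))) (b (l 16886312) (b (l 16868816) (l 16847720))))) (a (b (a (l 3) (a (l 3) (a (l 3) (b (l 16890360) (l 423222186007))))) (l 3)) (b (a (a (b (l 16873360) (a (l 16842352) (l 16828664))) (b (l 16849888) (l 16807712))) (a (b (l 16826656) (l 16780120)) (l 16780216))) (a (b (a (a (l 55331239079) (l 1)) (l 1)) (l 1)) (l 1))))) (b (a (b (a (l 16858616) (l 16831832)) (a (a (l 16831976) (l 16814040)) (l 16788928))) (b (l 16796336) (l 1))) (b (a (a (a (l 16756016) (l 1)) (l 1)) (l 1)) (l 1))))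 (l 1)), by decide +kernel⟩

theorem s3_pp_123 : ∃ t, chk3 f_pp_123 t 1 3 1 = true := ex3_b k1_pp_123 k2_pp_123

theorem s4_pp_123 : ∃ t, chk3 f_pp_123 t 1 1 1 = true := ex3_b k0_pp_123 s3_pp_123

theorem c_pp_123 : CertF 536870912 536870912 0 1230186008 469762048 67108864 false true true .npn 1 2 3
    ndF0q1 ndF2q3 pcF2 cut_pp_123 Ext.none :=
  certF2 (fam := false) (s1 := true) (s2 := true) (a := 1) (b := 2) (c := 3) (cn := .npn) (n1 := ndF0q1) (n2 := ndF2q3) (pc := pcF2) (cut := cut_pp_123) (xt := Ext.none) (P1 := 536870912) (W1 := 536870912) (P2 := 0) (W2 := 1230186008) (P3 := 469762048) (W3 := 67108864)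
    rfl (fun _ => rfl) s4_pp_123

noncomputable def f_pp_133 : ℕ → ℕ → ℕ → ℕ → Bool := onCell 536870912 536870912 0 1230186008 469762048 67108864
    (rowF 0 false true true .dn 1 3 3 (qsf 536870912 536870912 0 1230186008 3) ndF0q1 ndF2q3 pcF3 Cut.none Ext.none)

def k0_pp_133 : ∃ t, chk3 f_pp_133 t 1 1 1 = true :=
  ⟨(b (a (a (b (b (l 16824776) (l 1)) (l 1)) (l 1)) (l 1)) (l 1)), by decide +kernel⟩

theorem c_pp_133 : CertF 536870912 536870912 0 1230186008 469762048 67108864 false true true .dn 1 3 3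
    ndF0q1 ndF2q3 pcF3 Cut.none Ext.none :=
  certF0 (fam := false) (s1 := true) (s2 := true) (a := 1) (b := 3) (c := 3) (cn := .dn) (n1 := ndF0q1) (n2 := ndF2q3) (pc := pcF3) (cut := Cut.none) (xt := Ext.none) (P1 := 536870912) (W1 := 536870912) (P2 := 0) (W2 := 1230186008) (P3 := 469762048) (W3 := 67108864)
    rfl k0_pp_133

noncomputable def f_pp_202 : ℕ → ℕ → ℕ → ℕ → Bool := onCell 0 536870912 1073741824 536870912 469762048 67108864
    (rowF 0 false true true .pp 2 0 2 (qsf 0 536870912 1073741824 536870912 0) ndF0q2 ndF2q2 pcF0 Cut.none Ext.none)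

def k0_pp_202 : ∃ t, chk3 f_pp_202 t 1 1 1 = true :=
  ⟨(l 3), by decide +kernel⟩

theorem c_pp_202 : CertF 0 536870912 1073741824 536870912 469762048 67108864 false true true .pp 2 0 2
    ndF0q2 ndF2q2 pcF0 Cut.none Ext.none :=
  certF0 (fam := false) (s1 := true) (s2 := true) (a := 2) (b := 0) (c := 2) (cn := .pp) (n1 := ndF0q2) (n2 := ndF2q2) (pc := pcF0) (cut := Cut.none) (xt := Ext.none) (P1 := 0) (W1 := 536870912) (P2 := 1073741824) (W2 := 536870912) (P3 := 469762048) (W3 := 67108864)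
    rfl k0_pp_202

noncomputable def f_pp_203 : ℕ → ℕ → ℕ → ℕ → Bool := onCell 0 536870912 0 1230186008 469762048 67108864
    (rowF 0 false true true .up 2 0 3 (qsf 0 536870912 0 1230186008 0) ndF0q2 ndF2q3 pcF0 Cut.none Ext.none)

def k0_pp_203 : ∃ t, chk3 f_pp_203 t 1 1 1 = true :=
  ⟨(b (l 2) (l 3)), by decide +kernel⟩

theorem c_pp_203 : CertF 0 536870912 0 1230186008 469762048 67108864 false true true .up 2 0 3
    ndF0q2 ndF2q3 pcF0 Cut.none Ext.none :=
  certF0 (fam := false) (s1 := true) (s2 := true) (a := 2) (b := 0) (c := 3) (cn := .up) (n1 := ndF0q2) (n2 := ndF2q3) (pc := pcF0) (cut := Cut.none) (xt := Ext.none) (P1 := 0) (W1 := 536870912) (P2 := 0) (W2 := 1230186008) (P3 := 469762048) (W3 := 67108864)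
    rfl k0_pp_203

noncomputable def cut_pp_213 : Cut := Cut.of [[⟨0, 1, 0, 67108864⟩, ⟨1, 1, 0, 67108864⟩, ⟨2, 2, 0, 16777216⟩]]

noncomputable def f_pp_213 : ℕ → ℕ → ℕ → ℕ → Bool := onCell 0 536870912 0 1230186008 469762048 67108864
    (rowF 0 false true true .pnn 2 1 3 (qsf 0 536870912 0 1230186008 1) ndF0q2 ndF2q3 pcF1 cut_pp_213 Ext.none)

def k0_pp_213 : ∃ t, chk3 f_pp_213 t 1 1 1 = true :=
  ⟨(b (a (l 3) (b (a (l 3) (a (l 3) (b (l 6) (l 3)))) (l 3))) (l 3)), by decide +kernel⟩

theorem c_pp_213 : CertF 0 536870912 0 1230186008 469762048 67108864 false true true .pnn 2 1 3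
    ndF0q2 ndF2q3 pcF1 cut_pp_213 Ext.none :=
  certF0 (fam := false) (s1 := true) (s2 := true) (a := 2) (b := 1) (c := 3) (cn := .pnn) (n1 := ndF0q2) (n2 := ndF2q3) (pc := pcF1) (cut := cut_pp_213) (xt := Ext.none) (P1 := 0) (W1 := 536870912) (P2 := 0) (W2 := 1230186008) (P3 := 469762048) (W3 := 67108864)
    rfl k0_pp_213

noncomputable def f_pm_001 : ℕ → ℕ → ℕ → ℕ → Bool := onCell 0 536870912 536870912 536870912 469762048 67108864
    (rowF 0 false true false .up 0 0 1 (qsf 0 536870912 536870912 536870912 0) ndF0q0 ndF2q1 pcF0 Cut.none Ext.none)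

def k0_pm_001 : ∃ t, chk3 f_pm_001 t 1 1 1 = true :=
  ⟨(l 4), by decide +kernel⟩

theorem c_pm_001 : CertF 0 536870912 536870912 536870912 469762048 67108864 false true false .up 0 0 1
    ndF0q0 ndF2q1 pcF0 Cut.none Ext.none :=
  certF0 (fam := false) (s1 := true) (s2 := false) (a := 0) (b := 0) (c := 1) (cn := .up) (n1 := ndF0q0) (n2 := ndF2q1) (pc := pcF0) (cut := Cut.none) (xt := Ext.none) (P1 := 0) (W1 := 536870912) (P2 := 536870912) (W2 := 536870912) (P3 := 469762048) (W3 := 67108864)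
    rfl k0_pm_001

noncomputable def f_pm_011 : ℕ → ℕ → ℕ → ℕ → Bool := onCell 0 536870912 536870912 536870912 469762048 67108864
    (rowF 0 false true false .pnn 0 1 1 (qsf 0 536870912 536870912 536870912 1) ndF0q0 ndF2q1 pcF1 Cut.none Ext.none)

def k0_pm_011 : ∃ t, chk3 f_pm_011 t 1 1 1 = true :=
  ⟨(l 4), by decide +kernel⟩

theorem c_pm_011 : CertF 0 536870912 536870912 536870912 469762048 67108864 false true false .pnn 0 1 1
    ndF0q0 ndF2q1 pcF1 Cut.none Ext.none :=
  certF0 (fam := false) (s1 := true) (s2 := false) (a := 0) (b := 1) (c := 1) (cn := .pnn) (n1 := ndF0q0) (n2 := ndF2q1) (pc := pcF1) (cut := Cut.none) (xt := Ext.none) (P1 := 0) (W1 := 536870912) (P2 := 536870912) (W2 := 536870912) (P3 := 469762048) (W3 := 67108864)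
    rfl k0_pm_011

noncomputable def f_pm_012 : ℕ → ℕ → ℕ → ℕ → Bool := onCell 0 536870912 1073741824 536870912 469762048 67108864
    (rowF 0 false true false .pnp 0 1 2 (qsf 0 536870912 1073741824 536870912 1) ndF0q0 ndF2q2 pcF1 Cut.none Ext.none)

def k0_pm_012 : ∃ t, chk3 f_pm_012 t 1 1 1 = true :=
  ⟨(a (l 4) (b (a (b (b (a (l 4) (a (l 4) (b (l 4) (l 4)))) (l 4)) (l 4)) (b (a (b (a (b (l 16308960) (l 16325232)) (b (l 16219208) (l 16266008))) (a (b (l 16308040) (l 16330992)) (l 16443136))) (b (b (a (l 16172936) (b (l 16110304) (l 16187464))) (a (l 16248424) (l 16232248))) (a (l 16311192) (l 16305752)))) (a (a (b (l 4) (l 4)) (b (a (l 16361472) (l 16366840)) (l 16409432))) (b (a (l 16373440) (l 16382032)) (a (l 16412664) (l 16435128)))))) (a (l 4) (a (a (l 4) (b (b (l 16394256) (l 16391360)) (l 4))) (b (b (a (l 16434368) (l 16468520)) (a (l 16506672) (l 16494920))) (b (b (a (l 16448376) (l 16508504)) (a (b (l 16455128) (l 16467416)) (l 16530136))) (a (b (b (l 133243790679)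 (l 137001887319)) (l 267998702535)) (b (l 16572472) (l 170288082647))))))))), by decide +kernel⟩

theorem c_pm_012 : CertF 0 536870912 1073741824 536870912 469762048 67108864 false true false .pnp 0 1 2
    ndF0q0 ndF2q2 pcF1 Cut.none Ext.none :=
  certF0 (fam := false) (s1 := true) (s2 := false) (a := 0) (b := 1) (c := 2) (cn := .pnp) (n1 := ndF0q0) (n2 := ndF2q2) (pc := pcF1) (cut := Cut.none) (xt := Ext.none) (P1 := 0) (W1 := 536870912) (P2 := 1073741824) (W2 := 536870912) (P3 := 469762048) (W3 := 67108864)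
    rfl k0_pm_012

noncomputable def f_pm_022 : ℕ → ℕ → ℕ → ℕ → Bool := onCell 1073741824 536870912 1073741824 536870912 469762048 67108864
    (rowF 2 false true false .pp 0 2 2 (qsf 0 536870912 1073741824 536870912 2) ndF0q0 ndF2q2 pcF2 Cut.none Ext.none)

def k0_pm_022 : ∃ t, chk3 f_pm_022 t 1 1 1 = true :=
  ⟨(a (b (l 4) (b (l 4) (a (a (b (l 4) (a (b (a (l 16470152) (l 16443440)) (a (l 16549896) (l 16565000))) (b (l 4) (l 16496608)))) (l 4)) (l 4)))) (l 4)), by decide +kernel⟩

theorem c_pm_022 : CertF 0 536870912 1073741824 536870912 469762048 67108864 false true false .pp 0 2 2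
    ndF0q0 ndF2q2 pcF2 Cut.none Ext.none :=
  certF2 (fam := false) (s1 := true) (s2 := false) (a := 0) (b := 2) (c := 2) (cn := .pp) (n1 := ndF0q0) (n2 := ndF2q2) (pc := pcF2) (cut := Cut.none) (xt := Ext.none) (P1 := 0) (W1 := 536870912) (P2 := 1073741824) (W2 := 536870912) (P3 := 469762048) (W3 := 67108864)
    rfl (fun _ => rfl) k0_pm_022

noncomputable def f_pm_023 : ℕ → ℕ → ℕ → ℕ → Bool := onCell 0 536870912 0 1230186008 469762048 67108864
    (rowF 0 false true false .up 0 2 3 (qsf 0 536870912 0 1230186008 2) ndF0q0 ndF2q3 pcF2 Cut.none Ext.none)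

def k0_pm_023 : ∃ t, chk3 f_pm_023 t 1 1 1 = true :=
  ⟨(b (a (l 2) (a (l 2) (b (a (l 2) (l 16849064)) (a (b (l 16847536) (l 16850216)) (l 17109024))))) (a (l 4) (a (b (l 4) (l 4)) (a (b (b (l 16844568) (b (l 16825328) (l 16798000))) (b (b (l 16755600) (l 4)) (l 4))) (b (b (l 16858048) (l 17066200)) (b (b (l 16793864) (l 16749264)) (b (a (l 16656912) (l 16703584)) (b (a (l 16575136) (l 16637736)) (a (b (l 16516616) (l 16447912)) (b (l 16588672) (l 16525848))))))))))), by decide +kernel⟩

theorem c_pm_023 : CertF 0 536870912 0 1230186008 469762048 67108864 false true false .up 0 2 3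
    ndF0q0 ndF2q3 pcF2 Cut.none Ext.none :=
  certF0 (fam := false) (s1 := true) (s2 := false) (a := 0) (b := 2) (c := 3) (cn := .up) (n1 := ndF0q0) (n2 := ndF2q3) (pc := pcF2) (cut := Cut.none) (xt := Ext.none) (P1 := 0) (W1 := 536870912) (P2 := 0) (W2 := 1230186008) (P3 := 469762048) (W3 := 67108864)
    rfl k0_pm_023

noncomputable def f_pm_033 : ℕ → ℕ → ℕ → ℕ → Bool := onCell 1610612736 536870912 0 1230186008 469762048 67108864
    (rowF 2 false true false .pnn 0 3 3 (qsf 0 536870912 0 1230186008 3) ndF0q0 ndF2q3 pcF3 Cut.none Ext.none)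

def k0_pm_033 : ∃ t, chk3 f_pm_033 t 1 1 1 = true :=
  ⟨(a (b (a (b (a (l 16837528) (l 16838592)) (a (l 16847064) (l 16845520))) (b (a (l 16839872) (l 4)) (l 4))) (b (a (l 4) (l 4)) (l 4))) (b (l 4) (l 4))), by decide +kernel⟩

theorem c_pm_033 : CertF 0 536870912 0 1230186008 469762048 67108864 false true false .pnn 0 3 3
    ndF0q0 ndF2q3 pcF3 Cut.none Ext.none :=
  certF2 (fam := false) (s1 := true) (s2 := false) (a := 0) (b := 3) (c := 3) (cn := .pnn) (n1 := ndF0q0) (n2 := ndF2q3) (pc := pcF3) (cut := Cut.none) (xt := Ext.none) (P1 := 0) (W1 := 536870912) (P2 := 0) (W2 := 1230186008) (P3 := 469762048) (W3 := 67108864)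
    rfl (fun _ => rfl) k0_pm_033

noncomputable def f_pm_101 : ℕ → ℕ → ℕ → ℕ → Bool := onCell 536870912 536870912 536870912 536870912 469762048 67108864
    (rowF 0 false true false .npn 1 0 1 (qsf 536870912 536870912 536870912 536870912 0) ndF0q1 ndF2q1 pcF0 Cut.none Ext.none)

def k0_pm_101 : ∃ t, chk3 f_pm_101 t 1 1 1 = true :=
  ⟨(l 4), by decide +kernel⟩

theorem c_pm_101 : CertF 536870912 536870912 536870912 536870912 469762048 67108864 false true false .npn 1 0 1
    ndF0q1 ndF2q1 pcF0 Cut.none Ext.none :=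
  certF0 (fam := false) (s1 := true) (s2 := false) (a := 1) (b := 0) (c := 1) (cn := .npn) (n1 := ndF0q1) (n2 := ndF2q1) (pc := pcF0) (cut := Cut.none) (xt := Ext.none) (P1 := 536870912) (W1 := 536870912) (P2 := 536870912) (W2 := 536870912) (P3 := 469762048) (W3 := 67108864)
    rfl k0_pm_101

noncomputable def f_pm_102 : ℕ → ℕ → ℕ → ℕ → Bool := onCell 536870912 536870912 1073741824 536870912 469762048 67108864
    (rowF 0 false true false .npp 1 0 2 (qsf 536870912 536870912 1073741824 536870912 0) ndF0q1 ndF2q2 pcF0 Cut.none Ext.none)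

def k0_pm_102 : ∃ t, chk3 f_pm_102 t 2 1 1 = true :=
  ⟨(b (b (a (a (b (a (b (b (l 16381536) (l 16368312)) (l 16354448)) (b (b (l 16461576) (l 16450296)) (l 16439728))) (a (l 2) (b (l 16436944) (l 2)))) (b (a (b (l 16524976) (l 16510272)) (b (a (l 16573504) (l 16603912)) (a (l 16554992) (l 16587704)))) (a (b (l 16504872) (l 16506104)) (b (l 16563528) (l 16560632))))) (b (a (a (b (l 16656544) (l 16635272)) (b (l 16722512) (l 16695200))) (b (a (l 16781336) (l 16830968)) (a (l 16748664) (l 16793800)))) (a (b (a (l 16621936) (l 16676480)) (a (l 16615488) (l 16666368))) (b (l 16746312) (l 16730200))))) (a (b (a (l 2) (a (l 2) (b (l 16562976) (l 2)))) (l 2)) (a (b (b (a (l 16616040) (l 16664680)) (a (l 16623312) (l 16671224))) (a (l 2) (b (l 16685792) (l 2)))) (b (b (a (l 16706776) (l 16741152)) (a (l 16712272) (l 16745792))) (b (a (l 16727184) (l 16760768)) (a (l 16749616) (l 16783568))))))) (a (l 2) (b (b (a (l 2) (a (l 2) (l 16825808))) (l 2)) (l 2)))), by decide +kernel⟩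

def k1_pm_102 : ∃ t, chk3 f_pm_102 t 3 1 1 = true :=
  ⟨(b (a (b (b (a (b (a (b (l 16876808) (l 16858560)) (l 16883368)) (a (l 16830144) (l 16852576))) (b (a (l 16886544) (l 16881544)) (l 17000528))) (a (b (l 16853336) (l 16788088)) (b (a (l 16831408) (l 16825032)) (a (l 16806832) (l 16887216))))) (a (b (b (l 16798552) (l 16781400)) (b (l 16798968) (l 16825544))) (b (b (l 17004888) (l 16810352)) (l 16866888)))) (b (b (a (b (a (l 16869912) (l 16853264)) (l 16954312)) (b (a (b (l 16843216) (l 16824728)) (b (l 16823808) (l 16808560))) (a (l 16807928) (a (l 16818064) (l 16802528))))) (a (b (a (l 16811544) (l 16801184)) (l 16924896)) (a (b (l 16818472) (l 16804696)) (b (l 16789824) (l 16763976))))) (a (b (a (b (l 16810464) (l 16837792)) (l 16978992)) (a (l 16869336) (l 16818088))) (b (a (l 16772464) (l 16725384)) (a (b (l 16746600) (l 16747632)) (b (l 16689744) (l 16821384))))))) (a (b (a (b (b (l 16856152) (l 16888720)) (l 16998472)) (b (a (l 16930032) (l 16941224)) (l 17201136)))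 (a (l 2) (b (l 17251768) (l 2)))) (b (a (b (a (l 16909712) (l 16843136)) (a (l 16945016) (l 16856336))) (b (a (l 16755608) (b (l 16668760) (l 16663728))) (a (l 16749992) (l 16836816)))) (a (b (a (l 16971304) (l 16851392)) (b (l 16883736) (l 2))) (b (a (b (l 16729648) (l 16704952)) (b (l 16637368) (l 16630280))) (a (b (l 16689408) (l 16718744)) (l 16639312))))))), by decide +kernel⟩

theorem s2_pm_102 : ∃ t, chk3 f_pm_102 t 1 1 1 = true := ex3_a k0_pm_102 k1_pm_102

theorem c_pm_102 : CertF 536870912 536870912 1073741824 536870912 469762048 67108864 false true false .npp 1 0 2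
    ndF0q1 ndF2q2 pcF0 Cut.none Ext.none :=
  certF0 (fam := false) (s1 := true) (s2 := false) (a := 1) (b := 0) (c := 2) (cn := .npp) (n1 := ndF0q1) (n2 := ndF2q2) (pc := pcF0) (cut := Cut.none) (xt := Ext.none) (P1 := 536870912) (W1 := 536870912) (P2 := 1073741824) (W2 := 536870912) (P3 := 469762048) (W3 := 67108864)
    rfl s2_pm_102

noncomputable def f_pm_112 : ℕ → ℕ → ℕ → ℕ → Bool := onCell 536870912 536870912 1073741824 536870912 469762048 67108864
    (rowF 0 false true false .dn 1 1 2 (qsf 536870912 536870912 1073741824 536870912 1) ndF0q1 ndF2q2 pcF1 Cut.none Ext.none)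

def k0_pm_112 : ∃ t, chk3 f_pm_112 t 1 1 1 = true :=
  ⟨(a (b (b (a (a (b (a (b (l 16397424) (l 16217952)) (l 175052898839)) (a (l 16301408) (b (l 16314256) (l 16326000)))) (b (a (b (l 1) (l 279742676279)) (l 1)) (a (b (a (l 16390440) (l 16437376)) (l 16418832)) (b (l 16507344) (l 16512992))))) (a (b (l 1) (b (l 1) (a (l 16589712) (l 1)))) (l 1))) (a (a (b (a (b (l 16370896) (l 16408024)) (b (l 16376008) (l 16418728))) (a (l 16455344) (l 16473184))) (b (a (b (l 16432496) (l 16453224)) (b (l 16523720) (l 16540880))) (a (b (l 16482056) (l 16517400)) (b (l 16565128) (l 16595760))))) (a (b (a (b (l 16597888) (l 16611704)) (b (l 16656896) (l 16668104))) (a (b (l 16632144) (l 16658552)) (b (l 16685440) (l 16708856)))) (a (b (l 282428016983) (l 16989152)) (b (l 1) (l 16896704)))))) (a (b (a (b (a (l 16503200) (l 16533192)) (a (l 16539472) (l 16588064))) (b (a (l 16578808) (l 16650136)) (a (b (l 16645904) (l 16689424)) (l 16730016)))) (b (a (b (l 16613248) (l 16668432)) (b (l 16760584)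 (l 16804400))) (a (b (a (l 16684488) (l 16766192)) (a (l 16741416) (l 16816600))) (a (l 16848688) (l 16891456))))) (b (a (b (b (a (l 16690080) (l 16737592)) (l 16748304)) (l 16799928)) (b (l 16809128) (l 16870584))) (b (a (l 16867520) (l 16927712)) (a (l 16937608) (l 16984520)))))) (b (a (b (l 1) (b (l 1) (a (b (l 1) (l 16825760)) (l 1)))) (l 1)) (a (b (a (b (l 16872672) (l 16936040)) (b (l 231962648215) (l 17024256))) (b (a (l 16990016) (l 17106024)) (a (l 17038328) (l 17174872)))) (b (a (b (l 1) (l 386581495399)) (l 1)) (a (b (l 17062632) (l 16941352)) (b (a (l 498786816775) (l 1)) (a (l 16801352) (l 16737112)))))))), by decide +kernel⟩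

theorem c_pm_112 : CertF 536870912 536870912 1073741824 536870912 469762048 67108864 false true false .dn 1 1 2
    ndF0q1 ndF2q2 pcF1 Cut.none Ext.none :=
  certF0 (fam := false) (s1 := true) (s2 := false) (a := 1) (b := 1) (c := 2) (cn := .dn) (n1 := ndF0q1) (n2 := ndF2q2) (pc := pcF1) (cut := Cut.none) (xt := Ext.none) (P1 := 536870912) (W1 := 536870912) (P2 := 1073741824) (W2 := 536870912) (P3 := 469762048) (W3 := 67108864)
    rfl k0_pm_112

noncomputable def cut_pm_113 : Cut := Cut.of [[⟨0, 1, 0, 67108864⟩, ⟨1, 1, 0, 67108864⟩, ⟨2, 2, 0, 16777216⟩]]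

noncomputable def f_pm_113 : ℕ → ℕ → ℕ → ℕ → Bool := onCell 536870912 536870912 0 1230186008 469762048 67108864
    (rowF 0 false true false .nn 1 1 3 (qsf 536870912 536870912 0 1230186008 1) ndF0q1 ndF2q3 pcF1 cut_pm_113 Ext.none)

def k0_pm_113 : ∃ t, chk3 f_pm_113 t 1 1 1 = true :=
  ⟨(b (a (l 2) (a (l 2) (b (a (l 2) (a (l 2) (b (l 6) (b (l 6) (l 16885784))))) (a (b (l 396311683223) (l 16891880)) (b (a (l 16835184) (a (l 16826088) (l 16845464))) (b (a (l 16860560) (l 16854248)) (l 17091024))))))) (b (a (b (l 2) (a (l 2) (a (l 2) (b (l 2) (l 17007288))))) (a (b (a (l 2) (l 16955504)) (a (l 16995840) (b (l 16966992) (l 16974832)))) (b (a (l 16927544) (a (l 16926072) (l 16979792))) (a (l 17100136) (b (l 17090520) (a (l 17002824) (l 16987544))))))) (a (b (a (l 2) (a (b (l 313097116263) (l 309875784167)) (b (l 16994088) (l 16984152)))) (a (b (a (l 2) (a (l 264778017255) (l 16890184))) (a (b (a (l 2) (l 202500610951)) (a (b (l 186394212423) (l 16610728)) (b (l 16739624) (l 16707376))))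 (b (a (l 16823496) (l 16872096)) (a (l 16792960) (l 16845208))))) (b (a (l 16937104) (l 16973488)) (a (b (l 16922240) (l 16900640)) (l 17188936))))) (b (a (a (b (l 16991072) (l 16992616)) (b (l 16988960) (l 17009520))) (a (b (l 17028144) (l 17067696)) (a (l 17023000) (b (l 17024472) (l 17001144))))) (a (b (a (l 16994792) (l 17034512)) (a (l 16993640) (l 17059576))) (a (b (l 17057552) (b (l 17037576) (l 17041096))) (b (a (l 17000632) (l 16978040)) (b (l 16954728) (l 16941960))))))))), by decide +kernel⟩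

theorem c_pm_113 : CertF 536870912 536870912 0 1230186008 469762048 67108864 false true false .nn 1 1 3
    ndF0q1 ndF2q3 pcF1 cut_pm_113 Ext.none :=
  certF0 (fam := false) (s1 := true) (s2 := false) (a := 1) (b := 1) (c := 3) (cn := .nn) (n1 := ndF0q1) (n2 := ndF2q3) (pc := pcF1) (cut := cut_pm_113) (xt := Ext.none) (P1 := 536870912) (W1 := 536870912) (P2 := 0) (W2 := 1230186008) (P3 := 469762048) (W3 := 67108864)
    rfl k0_pm_113

noncomputable def cut_pm_123 : Cut := Cut.of [[⟨0, 1, 0, 67108864⟩, ⟨1, 1, 0, 67108864⟩, ⟨2, 2, 0, 16777216⟩]]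

noncomputable def f_pm_123 : ℕ → ℕ → ℕ → ℕ → Bool := onCell 1073741824 536870912 0 1230186008 469762048 67108864
    (rowF 2 false true false .npn 1 2 3 (qsf 536870912 536870912 0 1230186008 2) ndF0q1 ndF2q3 pcF2 cut_pm_123 Ext.none)

def k0_pm_123 : ∃ t, chk3 f_pm_123 t 1 1 1 = true :=
  ⟨(b (b (a (a (a (a (b (l 6) (b (l 6) (l 16809312))) (b (l 16784752) (l 16802832))) (b (l 16787536) (l 16803688))) (a (l 16799416) (l 16808984))) (a (a (l 16823680) (l 16840432)) (a (l 16850232) (l 16852416)))) (a (a (a (b (a (l 16840664) (l 16838400)) (b (l 16875672) (l 16903248))) (b (l 16835888) (l 16880312))) (b (l 16933344) (a (l 16876072) (l 16876152)))) (a (a (b (l 16854928) (l 16876176)) (b (l 16861088) (l 16872160))) (a (l 16863768) (l 16899672))))) (b (a (a (b (a (b (l 16930704) (l 16955488)) (b (l 16914256) (l 16930296))) (b (a (l 16991032) (l 16938256)) (a (l 16973184) (l 16928648)))) (a (b (l 16949800) (b (l 16910616) (l 16891472))) (b (l 16895792) (b (l 16886704) (l 16858920)))))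 (a (a (b (l 16882792) (l 181496608535)) (b (l 16868320) (l 17031928))) (b (a (l 16853408) (l 1)) (l 1)))) (a (b (a (a (b (a (l 16975896) (l 16943784)) (b (l 16932656) (a (l 16921944) (l 16882712)))) (b (l 16903272) (a (l 16865032) (l 16832408)))) (a (b (l 16855536) (a (l 16799640) (l 16767664))) (b (l 16809944) (l 1)))) (a (b (a (a (b (l 16880592) (l 16822064)) (b (l 16836560) (l 16771216))) (a (b (l 16793904) (l 16720240)) (l 16711936))) (a (b (a (a (l 16712776) (l 16724520)) (l 16678496)) (a (b (a (l 16665888) (l 16631320)) (a (l 16566864) (l 16528576))) (b (l 16578072) (l 1)))) (b (a (l 16617024) (l 1)) (l 1)))) (b (a (a (l 16665512) (l 1)) (l 1)) (l 1)))) (l 1)))), by decide +kernel⟩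

theorem c_pm_123 : CertF 536870912 536870912 0 1230186008 469762048 67108864 false true false .npn 1 2 3
    ndF0q1 ndF2q3 pcF2 cut_pm_123 Ext.none :=
  certF2 (fam := false) (s1 := true) (s2 := false) (a := 1) (b := 2) (c := 3) (cn := .npn) (n1 := ndF0q1) (n2 := ndF2q3) (pc := pcF2) (cut := cut_pm_123) (xt := Ext.none) (P1 := 536870912) (W1 := 536870912) (P2 := 0) (W2 := 1230186008) (P3 := 469762048) (W3 := 67108864)
    rfl (fun _ => rfl) k0_pm_123

noncomputable def f_pm_133 : ℕ → ℕ → ℕ → ℕ → Bool := onCell 1610612736 536870912 0 1230186008 469762048 67108864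
    (rowF 2 false true false .dn 1 3 3 (qsf 536870912 536870912 0 1230186008 3) ndF0q1 ndF2q3 pcF3 Cut.none Ext.none)

def k0_pm_133 : ∃ t, chk3 f_pm_133 t 1 1 1 = true :=
  ⟨(b (b (a (a (l 16838480) (l 1)) (l 1)) (l 1)) (l 1)), by decide +kernel⟩

theorem c_pm_133 : CertF 536870912 536870912 0 1230186008 469762048 67108864 false true false .dn 1 3 3
    ndF0q1 ndF2q3 pcF3 Cut.none Ext.none :=
  certF2 (fam := false) (s1 := true) (s2 := false) (a := 1) (b := 3) (c := 3) (cn := .dn) (n1 := ndF0q1) (n2 := ndF2q3) (pc := pcF3) (cut := Cut.none) (xt := Ext.none) (P1 := 536870912) (W1 := 536870912) (P2 := 0) (W2 := 1230186008) (P3 := 469762048) (W3 := 67108864)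
    rfl (fun _ => rfl) k0_pm_133

noncomputable def f_pm_202 : ℕ → ℕ → ℕ → ℕ → Bool := onCell 0 536870912 0 536870912 469762048 67108864
    (rowF 1 false true false .pp 2 0 2 (qsf 0 536870912 1073741824 536870912 0) ndF0q2 ndF2q2 pcF0 Cut.none Ext.none)

def k0_pm_202 : ∃ t, chk3 f_pm_202 t 2 1 1 = true :=
  ⟨(l 3), by decide +kernel⟩

def k1_pm_202 : ∃ t, chk3 f_pm_202 t 3 2 1 = true :=
  ⟨(b (a (b (a (b (l 3) (l 3)) (a (b (a (a (b (b (a (b (c (a (l 138680186775) (l 16621424)) (l 147270103559)) (c (l 134922091127) (l 16607376))) (b (l 16615440) (c (l 16621224) (l 16608640)))) (a (b (l 133848343399) (l 16612832)) (b (a (l 16614344) (l 16614800)) (l 16613824)))) (b (l 133848358759) (l 134385220631))) (b (b (l 16615912) (b (l 16636656) (a (l 16614680) (l 16615456)))) (b (a (l 16613488) (l 16614248)) (l 16612136)))) (b (l 16616952) (a (b (l 16657408) (l 16613496)) (b (l 16615768) (l 16614760))))) (b (a (a (l 135458974519) (l 16609376)) (b (l 16611992) (l 16610032))) (a (l 134385233175)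 (l 16606528)))) (b (b (l 16621488) (l 16617176)) (a (b (a (l 16760232) (l 16612960)) (l 16607864)) (b (l 16613560) (l 16632576)))))) (a (l 3) (a (b (a (b (l 134922091735) (l 135995815895)) (b (l 16601856) (l 16597560))) (b (l 132237720823) (l 133311449447))) (b (a (l 16599480) (l 16599360)) (a (l 16588240) (l 16585816)))))) (b (a (b (a (l 16656360) (b (l 16714440) (l 16698328))) (a (l 16621216) (l 16674104))) (a (b (b (a (l 16748848) (l 16768656)) (l 16744616)) (l 16722712)) (b (a (b (l 16787320) (l 16776536)) (b (l 16806536) (l 16796400))) (a (l 16756856) (l 16780136))))) (a (a (b (b (l 16602560) (l 16595824)) (l 16645360)) (l 16627936)) (a (l 16804520) (b (l 16741352) (l 16713616)))))) (a (a (l 3) (b (a (a (l 3) (b (l 130090213175) (l 132774533495))) (b (l 16658072) (a (l 16564680) (l 16556536)))) (a (b (l 133311330983) (l 3)) (b (a (l 16551320) (l 16540400)) (l 16613200))))) (b (a (a (b (l 16564064) (l 16544768)) (b (l 16587240) (l 16568504))) (a (b (l 16637968) (l 16612992))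 (l 16674088))) (a (a (l 16617512) (l 16563056)) (a (l 16753608) (l 16630544)))))), by decide +kernel⟩

def k2_pm_202 : ∃ t, chk3 f_pm_202 t 3 3 1 = true :=
  ⟨(b (a (a (l 3) (a (l 3) (b (b (l 16573176) (l 124721233607)) (b (l 168744708951) (l 171965882007))))) (b (a (a (l 16517064) (l 16516744)) (a (l 16558504) (l 16666160))) (a (a (b (l 16469560) (l 16485168)) (b (l 16507856) (l 16506136))) (a (l 16735320) (l 16584304))))) (a (b (a (l 3) (a (l 3) (a (l 3) (b (l 158007205031) (l 304036175431))))) (l 2)) (b (a (b (a (l 16543200) (l 16500376)) (a (a (l 160154763399) (l 16491408)) (l 16500568))) (a (l 16728856) (b (l 16582856) (l 16577512)))) (b (a (a (l 744740399399) (l 16566800)) (l 16553200)) (a (l 2) (l 16649280)))))), by decide +kernel⟩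

theorem s3_pm_202 : ∃ t, chk3 f_pm_202 t 3 1 1 = true := ex3_b k1_pm_202 k2_pm_202

theorem s4_pm_202 : ∃ t, chk3 f_pm_202 t 1 1 1 = true := ex3_a k0_pm_202 s3_pm_202

theorem c_pm_202 : CertF 0 536870912 1073741824 536870912 469762048 67108864 false true false .pp 2 0 2
    ndF0q2 ndF2q2 pcF0 Cut.none Ext.none :=
  certF1 (fam := false) (s1 := true) (s2 := false) (a := 2) (b := 0) (c := 2) (cn := .pp) (n1 := ndF0q2) (n2 := ndF2q2) (pc := pcF0) (cut := Cut.none) (xt := Ext.none) (P1 := 0) (W1 := 536870912) (P2 := 1073741824) (W2 := 536870912) (P3 := 469762048) (W3 := 67108864)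
    rfl (fun _ => rfl) s4_pm_202

noncomputable def f_pm_203 : ℕ → ℕ → ℕ → ℕ → Bool := onCell 0 536870912 0 1230186008 469762048 67108864
    (rowF 0 false true false .up 2 0 3 (qsf 0 536870912 0 1230186008 0) ndF0q2 ndF2q3 pcF0 Cut.none Ext.none)

def k0_pm_203 : ∃ t, chk3 f_pm_203 t 1 1 1 = true :=
  ⟨(b (l 2) (a (l 3) (b (l 2) (b (l 2) (a (b (l 3) (a (l 3) (l 3))) (b (a (a (a (b (l 2) (l 162839858407)) (l 2)) (l 2)) (l 2)) (a (b (a (b (l 154249829479) (l 152102281031)) (l 16816792)) (a (b (a (l 152102160935) (l 16745632)) (l 16715656)) (l 16761264))) (b (a (l 16842072) (l 2)) (l 16812608))))))))), by decide +kernel⟩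

theorem c_pm_203 : CertF 0 536870912 0 1230186008 469762048 67108864 false true false .up 2 0 3
    ndF0q2 ndF2q3 pcF0 Cut.none Ext.none :=
  certF0 (fam := false) (s1 := true) (s2 := false) (a := 2) (b := 0) (c := 3) (cn := .up) (n1 := ndF0q2) (n2 := ndF2q3) (pc := pcF0) (cut := Cut.none) (xt := Ext.none) (P1 := 0) (W1 := 536870912) (P2 := 0) (W2 := 1230186008) (P3 := 469762048) (W3 := 67108864)
    rfl k0_pm_203

noncomputable def cut_pm_213 : Cut := Cut.of [[⟨0, 1, 0, 67108864⟩, ⟨1, 1, 0, 67108864⟩, ⟨2, 2, 0, 16777216⟩]]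

noncomputable def f_pm_213 : ℕ → ℕ → ℕ → ℕ → Bool := onCell 0 536870912 0 1230186008 469762048 67108864
    (rowF 0 false true false .pnn 2 1 3 (qsf 0 536870912 0 1230186008 1) ndF0q2 ndF2q3 pcF1 cut_pm_213 Ext.none)

def k0_pm_213 : ∃ t, chk3 f_pm_213 t 1 2 1 = true :=
  ⟨(a (l 3) (b (a (l 3) (a (l 3) (b (l 6) (a (l 3) (a (b (l 6) (a (b (l 392083573479) (l 283098789751)) (b (a (l 280414424823) (l 16795920)) (l 16801696)))) (b (l 6) (a (l 16799744) (l 16800736)))))))) (a (l 3) (a (b (l 3) (l 3)) (b (a (a (l 3) (b (b (l 3) (l 426443346295)) (b (l 270213925879) (l 260550265751)))) (b (a (a (b (l 271824513543) (l 16814360)) (l 16812224)) (l 16814368)) (b (l 16824872) (l 16833752)))) (a (b (a (l 474761777623) (b (l 215453139799) (l 16846000))) (a (l 205789509879) (l 16882272))) (b (a (l 16845960) (l 16850784)) (l 16869656)))))))), by decide +kernel⟩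

def k1_pm_213 : ∃ t, chk3 f_pm_213 t 1 3 1 = true :=
  ⟨(b (a (l 3) (a (l 3) (b (a (a (l 3) (b (l 3) (b (l 193978386727) (l 183240992295)))) (a (b (a (l 189683468151) (l 16883456)) (b (l 16898136) (l 16910632))) (b (l 16893120) (l 16918672)))) (a (a (l 3) (a (b (l 3) (a (l 3) (b (b (l 3) (l 161229358183)) (c (l 155323829063) (b (b (l 152639417031) (l 148881325927)) (l 142438876967)))))) (b (b (l 169282394055) (a (l 16923176) (l 16926936))) (b (b (l 16933848) (l 16939584)) (a (b (l 16943264) (l 16946200)) (l 16948880)))))) (a (b (b (l 16923472) (l 16936360)) (b (l 16948912) (a (l 16955264) (l 16964256)))) (b (l 16945880) (l 17035688))))))) (b (a (l 3) (a (l 3) (a (b (a (l 3) (a (c (b (l 148344507319) (l 16950648)) (b (b (l 142438872327) (l 135996419703)) (l 127406506727))) (b (c (l 16959336) (l 16939776)) (l 16948248)))) (a (b (a (l 3) (l 333028030503)) (l 148881272487)) (b (a (l 16933512) (l 16943256)) (l 16927632)))) (b (a (b (l 16963392) (l 16963176)) (l 16985728)) (a (b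 (l 16959304) (l 16950152)) (l 16980016)))))) (a (l 3) (a (b (l 3) (l 1)) (b (b (a (a (a (l 3) (l 16889912)) (l 16908464)) (l 16989856)) (a (a (a (l 160692348039) (l 16855912)) (l 16878224)) (l 17008312))) (a (b (a (b (l 152102322743) (l 1)) (l 16832048)) (l 1)) (b (l 16950784) (l 16816848)))))))), by decide +kernel⟩

theorem s2_pm_213 : ∃ t, chk3 f_pm_213 t 1 1 1 = true := ex3_b k0_pm_213 k1_pm_213

theorem c_pm_213 : CertF 0 536870912 0 1230186008 469762048 67108864 false true false .pnn 2 1 3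
    ndF0q2 ndF2q3 pcF1 cut_pm_213 Ext.none :=
  certF0 (fam := false) (s1 := true) (s2 := false) (a := 2) (b := 1) (c := 3) (cn := .pnn) (n1 := ndF0q2) (n2 := ndF2q3) (pc := pcF1) (cut := cut_pm_213) (xt := Ext.none) (P1 := 0) (W1 := 536870912) (P2 := 0) (W2 := 1230186008) (P3 := 469762048) (W3 := 67108864)
    rfl s2_pm_213

noncomputable def f_mm_001 : ℕ → ℕ → ℕ → ℕ → Bool := onCell 0 536870912 0 536870912 469762048 67108864
    (rowF 1 false false false .up 0 0 1 (qsf 0 536870912 536870912 536870912 0) ndF0q0 ndF2q1 pcF0 Cut.none Ext.none)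

def k0_mm_001 : ∃ t, chk3 f_mm_001 t 1 1 1 = true :=
  ⟨(l 3), by decide +kernel⟩

theorem c_mm_001 : CertF 0 536870912 536870912 536870912 469762048 67108864 false false false .up 0 0 1
    ndF0q0 ndF2q1 pcF0 Cut.none Ext.none :=
  certF1 (fam := false) (s1 := false) (s2 := false) (a := 0) (b := 0) (c := 1) (cn := .up) (n1 := ndF0q0) (n2 := ndF2q1) (pc := pcF0) (cut := Cut.none) (xt := Ext.none) (P1 := 0) (W1 := 536870912) (P2 := 536870912) (W2 := 536870912) (P3 := 469762048) (W3 := 67108864)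
    rfl (fun _ => rfl) k0_mm_001

noncomputable def f_mm_011 : ℕ → ℕ → ℕ → ℕ → Bool := onCell 0 536870912 536870912 536870912 469762048 67108864
    (rowF 1 false false false .pnn 0 1 1 (qsf 0 536870912 536870912 536870912 1) ndF0q0 ndF2q1 pcF1 Cut.none Ext.none)

def k0_mm_011 : ∃ t, chk3 f_mm_011 t 1 1 1 = true :=
  ⟨(l 5), by decide +kernel⟩

theorem c_mm_011 : CertF 0 536870912 536870912 536870912 469762048 67108864 false false false .pnn 0 1 1
    ndF0q0 ndF2q1 pcF1 Cut.none Ext.none :=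
  certF1 (fam := false) (s1 := false) (s2 := false) (a := 0) (b := 1) (c := 1) (cn := .pnn) (n1 := ndF0q0) (n2 := ndF2q1) (pc := pcF1) (cut := Cut.none) (xt := Ext.none) (P1 := 0) (W1 := 536870912) (P2 := 536870912) (W2 := 536870912) (P3 := 469762048) (W3 := 67108864)
    rfl (fun _ => rfl) k0_mm_011

noncomputable def f_mm_012 : ℕ → ℕ → ℕ → ℕ → Bool := onCell 0 536870912 1073741824 536870912 469762048 67108864
    (rowF 0 false false false .pnp 0 1 2 (qsf 0 536870912 1073741824 536870912 1) ndF0q0 ndF2q2 pcF1 Cut.none Ext.none)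

def k0_mm_012 : ∃ t, chk3 f_mm_012 t 1 1 1 = true :=
  ⟨(l 5), by decide +kernel⟩

theorem c_mm_012 : CertF 0 536870912 1073741824 536870912 469762048 67108864 false false false .pnp 0 1 2
    ndF0q0 ndF2q2 pcF1 Cut.none Ext.none :=
  certF0 (fam := false) (s1 := false) (s2 := false) (a := 0) (b := 1) (c := 2) (cn := .pnp) (n1 := ndF0q0) (n2 := ndF2q2) (pc := pcF1) (cut := Cut.none) (xt := Ext.none) (P1 := 0) (W1 := 536870912) (P2 := 1073741824) (W2 := 536870912) (P3 := 469762048) (W3 := 67108864)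
    rfl k0_mm_012

noncomputable def f_mm_022 : ℕ → ℕ → ℕ → ℕ → Bool := onCell 0 536870912 1073741824 536870912 469762048 67108864
    (rowF 0 false false false .pp 0 2 2 (qsf 0 536870912 1073741824 536870912 2) ndF0q0 ndF2q2 pcF2 Cut.none Ext.none)

def k0_mm_022 : ∃ t, chk3 f_mm_022 t 1 1 1 = true :=
  ⟨(l 5), by decide +kernel⟩

theorem c_mm_022 : CertF 0 536870912 1073741824 536870912 469762048 67108864 false false false .pp 0 2 2
    ndF0q0 ndF2q2 pcF2 Cut.none Ext.none :=
  certF0 (fam := false) (s1 := false) (s2 := false) (a := 0) (b := 2) (c := 2) (cn := .pp) (n1 := ndF0q0) (n2 := ndF2q2) (pc := pcF2) (cut := Cut.none) (xt := Ext.none) (P1 := 0) (W1 := 536870912) (P2 := 1073741824) (W2 := 536870912) (P3 := 469762048) (W3 := 67108864)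
    rfl k0_mm_022

noncomputable def f_mm_023 : ℕ → ℕ → ℕ → ℕ → Bool := onCell 0 536870912 0 1230186008 469762048 67108864
    (rowF 0 false false false .up 0 2 3 (qsf 0 536870912 0 1230186008 2) ndF0q0 ndF2q3 pcF2 Cut.none Ext.none)

def k0_mm_023 : ∃ t, chk3 f_mm_023 t 1 1 1 = true :=
  ⟨(l 5), by decide +kernel⟩

theorem c_mm_023 : CertF 0 536870912 0 1230186008 469762048 67108864 false false false .up 0 2 3
    ndF0q0 ndF2q3 pcF2 Cut.none Ext.none :=
  certF0 (fam := false) (s1 := false) (s2 := false) (a := 0) (b := 2) (c := 3) (cn := .up) (n1 := ndF0q0) (n2 := ndF2q3) (pc := pcF2) (cut := Cut.none) (xt := Ext.none) (P1 := 0) (W1 := 536870912) (P2 := 0) (W2 := 1230186008) (P3 := 469762048) (W3 := 67108864)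
    rfl k0_mm_023

noncomputable def f_mm_033 : ℕ → ℕ → ℕ → ℕ → Bool := onCell 0 536870912 0 1230186008 469762048 67108864
    (rowF 0 false false false .pnn 0 3 3 (qsf 0 536870912 0 1230186008 3) ndF0q0 ndF2q3 pcF3 Cut.none Ext.none)

def k0_mm_033 : ∃ t, chk3 f_mm_033 t 1 1 1 = true :=
  ⟨(l 5), by decide +kernel⟩

theorem c_mm_033 : CertF 0 536870912 0 1230186008 469762048 67108864 false false false .pnn 0 3 3
    ndF0q0 ndF2q3 pcF3 Cut.none Ext.none :=
  certF0 (fam := false) (s1 := false) (s2 := false) (a := 0) (b := 3) (c := 3) (cn := .pnn) (n1 := ndF0q0) (n2 := ndF2q3) (pc := pcF3) (cut := Cut.none) (xt := Ext.none) (P1 := 0) (W1 := 536870912) (P2 := 0) (W2 := 1230186008) (P3 := 469762048) (W3 := 67108864)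
    rfl k0_mm_033

noncomputable def cut_mm_101 : Cut := Cut.of [[⟨0, 1, 0, 67108864⟩, ⟨1, 0, 0, 67108864⟩, ⟨2, 1, 0, 67108864⟩]]

noncomputable def f_mm_101 : ℕ → ℕ → ℕ → ℕ → Bool := onCell 536870912 536870912 0 536870912 469762048 67108864
    (rowF 1 false false false .npn 1 0 1 (qsf 536870912 536870912 536870912 536870912 0) ndF0q1 ndF2q1 pcF0 cut_mm_101 Ext.none)

def k0_mm_101 : ∃ t, chk3 f_mm_101 t 1 1 1 = true :=
  ⟨(a (l 3) (b (a (l 3) (b (a (l 3) (b (a (l 3) (b (l 6) (l 3))) (l 3))) (l 3))) (l 3))), by decide +kernel⟩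

theorem c_mm_101 : CertF 536870912 536870912 536870912 536870912 469762048 67108864 false false false .npn 1 0 1
    ndF0q1 ndF2q1 pcF0 cut_mm_101 Ext.none :=
  certF1 (fam := false) (s1 := false) (s2 := false) (a := 1) (b := 0) (c := 1) (cn := .npn) (n1 := ndF0q1) (n2 := ndF2q1) (pc := pcF0) (cut := cut_mm_101) (xt := Ext.none) (P1 := 536870912) (W1 := 536870912) (P2 := 536870912) (W2 := 536870912) (P3 := 469762048) (W3 := 67108864)
    rfl (fun _ => rfl) k0_mm_101

noncomputable def f_mm_102 : ℕ → ℕ → ℕ → ℕ → Bool := onCell 536870912 536870912 0 536870912 469762048 67108864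
    (rowF 1 false false false .npp 1 0 2 (qsf 536870912 536870912 1073741824 536870912 0) ndF0q1 ndF2q2 pcF0 Cut.none Ext.none)

def k0_mm_102 : ∃ t, chk3 f_mm_102 t 1 1 1 = true :=
  ⟨(l 3), by decide +kernel⟩

theorem c_mm_102 : CertF 536870912 536870912 1073741824 536870912 469762048 67108864 false false false .npp 1 0 2
    ndF0q1 ndF2q2 pcF0 Cut.none Ext.none :=
  certF1 (fam := false) (s1 := false) (s2 := false) (a := 1) (b := 0) (c := 2) (cn := .npp) (n1 := ndF0q1) (n2 := ndF2q2) (pc := pcF0) (cut := Cut.none) (xt := Ext.none) (P1 := 536870912) (W1 := 536870912) (P2 := 1073741824) (W2 := 536870912) (P3 := 469762048) (W3 := 67108864)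
    rfl (fun _ => rfl) k0_mm_102

noncomputable def f_mm_112 : ℕ → ℕ → ℕ → ℕ → Bool := onCell 536870912 536870912 1073741824 536870912 469762048 67108864
    (rowF 2 false false false .dn 1 1 2 (qsf 536870912 536870912 1073741824 536870912 1) ndF0q1 ndF2q2 pcF1 Cut.none Ext.none)

def k0_mm_112 : ∃ t, chk3 f_mm_112 t 1 1 1 = true :=
  ⟨(l 5), by decide +kernel⟩

theorem c_mm_112 : CertF 536870912 536870912 1073741824 536870912 469762048 67108864 false false false .dn 1 1 2
    ndF0q1 ndF2q2 pcF1 Cut.none Ext.none :=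
  certF2 (fam := false) (s1 := false) (s2 := false) (a := 1) (b := 1) (c := 2) (cn := .dn) (n1 := ndF0q1) (n2 := ndF2q2) (pc := pcF1) (cut := Cut.none) (xt := Ext.none) (P1 := 536870912) (W1 := 536870912) (P2 := 1073741824) (W2 := 536870912) (P3 := 469762048) (W3 := 67108864)
    rfl (fun _ => rfl) k0_mm_112

noncomputable def f_mm_113 : ℕ → ℕ → ℕ → ℕ → Bool := onCell 536870912 536870912 0 1230186008 469762048 67108864
    (rowF 0 false false false .nn 1 1 3 (qsf 536870912 536870912 0 1230186008 1) ndF0q1 ndF2q3 pcF1 Cut.none Ext.none)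

def k0_mm_113 : ∃ t, chk3 f_mm_113 t 1 1 1 = true :=
  ⟨(b (l 5) (l 5)), by decide +kernel⟩

theorem c_mm_113 : CertF 536870912 536870912 0 1230186008 469762048 67108864 false false false .nn 1 1 3
    ndF0q1 ndF2q3 pcF1 Cut.none Ext.none :=
  certF0 (fam := false) (s1 := false) (s2 := false) (a := 1) (b := 1) (c := 3) (cn := .nn) (n1 := ndF0q1) (n2 := ndF2q3) (pc := pcF1) (cut := Cut.none) (xt := Ext.none) (P1 := 536870912) (W1 := 536870912) (P2 := 0) (W2 := 1230186008) (P3 := 469762048) (W3 := 67108864)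
    rfl k0_mm_113

noncomputable def f_mm_123 : ℕ → ℕ → ℕ → ℕ → Bool := onCell 536870912 536870912 0 1230186008 469762048 67108864
    (rowF 0 false false false .npn 1 2 3 (qsf 536870912 536870912 0 1230186008 2) ndF0q1 ndF2q3 pcF2 Cut.none Ext.none)

def k0_mm_123 : ∃ t, chk3 f_mm_123 t 1 1 1 = true :=
  ⟨(b (l 5) (l 5)), by decide +kernel⟩

theorem c_mm_123 : CertF 536870912 536870912 0 1230186008 469762048 67108864 false false false .npn 1 2 3
    ndF0q1 ndF2q3 pcF2 Cut.none Ext.none :=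
  certF0 (fam := false) (s1 := false) (s2 := false) (a := 1) (b := 2) (c := 3) (cn := .npn) (n1 := ndF0q1) (n2 := ndF2q3) (pc := pcF2) (cut := Cut.none) (xt := Ext.none) (P1 := 536870912) (W1 := 536870912) (P2 := 0) (W2 := 1230186008) (P3 := 469762048) (W3 := 67108864)
    rfl k0_mm_123

noncomputable def f_mm_133 : ℕ → ℕ → ℕ → ℕ → Bool := onCell 1610612736 536870912 0 1230186008 469762048 67108864
    (rowF 2 false false false .dn 1 3 3 (qsf 536870912 536870912 0 1230186008 3) ndF0q1 ndF2q3 pcF3 Cut.none Ext.none)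

def k0_mm_133 : ∃ t, chk3 f_mm_133 t 1 1 1 = true :=
  ⟨(l 5), by decide +kernel⟩

theorem c_mm_133 : CertF 536870912 536870912 0 1230186008 469762048 67108864 false false false .dn 1 3 3
    ndF0q1 ndF2q3 pcF3 Cut.none Ext.none :=
  certF2 (fam := false) (s1 := false) (s2 := false) (a := 1) (b := 3) (c := 3) (cn := .dn) (n1 := ndF0q1) (n2 := ndF2q3) (pc := pcF3) (cut := Cut.none) (xt := Ext.none) (P1 := 536870912) (W1 := 536870912) (P2 := 0) (W2 := 1230186008) (P3 := 469762048) (W3 := 67108864)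
    rfl (fun _ => rfl) k0_mm_133

noncomputable def f_mm_202 : ℕ → ℕ → ℕ → ℕ → Bool := onCell 0 536870912 1073741824 536870912 469762048 67108864
    (rowF 0 false false false .pp 2 0 2 (qsf 0 536870912 1073741824 536870912 0) ndF0q2 ndF2q2 pcF0 Cut.none Ext.none)

def k0_mm_202 : ∃ t, chk3 f_mm_202 t 1 1 1 = true :=
  ⟨(l 3), by decide +kernel⟩

theorem c_mm_202 : CertF 0 536870912 1073741824 536870912 469762048 67108864 false false false .pp 2 0 2
    ndF0q2 ndF2q2 pcF0 Cut.none Ext.none :=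
  certF0 (fam := false) (s1 := false) (s2 := false) (a := 2) (b := 0) (c := 2) (cn := .pp) (n1 := ndF0q2) (n2 := ndF2q2) (pc := pcF0) (cut := Cut.none) (xt := Ext.none) (P1 := 0) (W1 := 536870912) (P2 := 1073741824) (W2 := 536870912) (P3 := 469762048) (W3 := 67108864)
    rfl k0_mm_202

noncomputable def f_mm_203 : ℕ → ℕ → ℕ → ℕ → Bool := onCell 0 536870912 0 1230186008 469762048 67108864
    (rowF 0 false false false .up 2 0 3 (qsf 0 536870912 0 1230186008 0) ndF0q2 ndF2q3 pcF0 Cut.none Ext.none)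

def k0_mm_203 : ∃ t, chk3 f_mm_203 t 1 1 1 = true :=
  ⟨(b (l 2) (l 3)), by decide +kernel⟩

theorem c_mm_203 : CertF 0 536870912 0 1230186008 469762048 67108864 false false false .up 2 0 3
    ndF0q2 ndF2q3 pcF0 Cut.none Ext.none :=
  certF0 (fam := false) (s1 := false) (s2 := false) (a := 2) (b := 0) (c := 3) (cn := .up) (n1 := ndF0q2) (n2 := ndF2q3) (pc := pcF0) (cut := Cut.none) (xt := Ext.none) (P1 := 0) (W1 := 536870912) (P2 := 0) (W2 := 1230186008) (P3 := 469762048) (W3 := 67108864)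
    rfl k0_mm_203

noncomputable def f_mm_213 : ℕ → ℕ → ℕ → ℕ → Bool := onCell 0 536870912 0 1230186008 469762048 67108864
    (rowF 0 false false false .pnn 2 1 3 (qsf 0 536870912 0 1230186008 1) ndF0q2 ndF2q3 pcF1 Cut.none Ext.none)

def k0_mm_213 : ∃ t, chk3 f_mm_213 t 1 1 1 = true :=
  ⟨(b (a (l 3) (l 5)) (l 3)), by decide +kernel⟩

theorem c_mm_213 : CertF 0 536870912 0 1230186008 469762048 67108864 false false false .pnn 2 1 3
    ndF0q2 ndF2q3 pcF1 Cut.none Ext.none :=
  certF0 (fam := false) (s1 := false) (s2 := false) (a := 2) (b := 1) (c := 3) (cn := .pnn) (n1 := ndF0q2) (n2 := ndF2q3) (pc := pcF1) (cut := Cut.none) (xt := Ext.none) (P1 := 0) (W1 := 536870912) (P2 := 0) (W2 := 1230186008) (P3 := 469762048) (W3 := 67108864)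
    rfl k0_mm_213

end Pool.Agent.Strip051.G.I7_16_1_2.Tab.C.FB02

namespace Pool.Agent.Strip051.G.I7_16_1_2.Tab.C.FB03

open Pool.Agent.Strip051.PB Pool.Agent.Strip051.PB.T
open Pool.Agent.Strip051.G.I7_16_1_2.Tab

noncomputable def f_pp_001 : ℕ → ℕ → ℕ → ℕ → Bool := onCell 0 536870912 0 536870912 469762048 67108864
    (rowF 1 false true true .up 0 0 1 (qsf 0 536870912 536870912 536870912 0) ndF0q0 ndF3q1 pcF0 Cut.none Ext.none)

def k0_pp_001 : ∃ t, chk3 f_pp_001 t 1 1 1 = true :=
  ⟨(l 3), by decide +kernel⟩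

theorem c_pp_001 : CertF 0 536870912 536870912 536870912 469762048 67108864 false true true .up 0 0 1
    ndF0q0 ndF3q1 pcF0 Cut.none Ext.none :=
  certF1 (fam := false) (s1 := true) (s2 := true) (a := 0) (b := 0) (c := 1) (cn := .up) (n1 := ndF0q0) (n2 := ndF3q1) (pc := pcF0) (cut := Cut.none) (xt := Ext.none) (P1 := 0) (W1 := 536870912) (P2 := 536870912) (W2 := 536870912) (P3 := 469762048) (W3 := 67108864)
    rfl (fun _ => rfl) k0_pp_001

noncomputable def cut_pp_011 : Cut := Cut.of [[⟨0, 0, 0, 67108864⟩, ⟨1, 1, 0, 67108864⟩, ⟨2, 1, 0, 67108864⟩]]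

noncomputable def f_pp_011 : ℕ → ℕ → ℕ → ℕ → Bool := onCell 0 536870912 536870912 536870912 469762048 67108864
    (rowF 1 false true true .pnn 0 1 1 (qsf 0 536870912 536870912 536870912 1) ndF0q0 ndF3q1 pcF1 cut_pp_011 Ext.none)

def k0_pp_011 : ∃ t, chk3 f_pp_011 t 1 1 1 = true :=
  ⟨(b (l 3) (a (b (l 3) (a (b (l 3) (a (b (l 3) (a (l 6) (l 3))) (l 3))) (l 3))) (l 3))), by decide +kernel⟩

theorem c_pp_011 : CertF 0 536870912 536870912 536870912 469762048 67108864 false true true .pnn 0 1 1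
    ndF0q0 ndF3q1 pcF1 cut_pp_011 Ext.none :=
  certF1 (fam := false) (s1 := true) (s2 := true) (a := 0) (b := 1) (c := 1) (cn := .pnn) (n1 := ndF0q0) (n2 := ndF3q1) (pc := pcF1) (cut := cut_pp_011) (xt := Ext.none) (P1 := 0) (W1 := 536870912) (P2 := 536870912) (W2 := 536870912) (P3 := 469762048) (W3 := 67108864)
    rfl (fun _ => rfl) k0_pp_011

noncomputable def f_pp_012 : ℕ → ℕ → ℕ → ℕ → Bool := onCell 0 536870912 536870912 536870912 469762048 67108864
    (rowF 1 false true true .pnp 0 1 2 (qsf 0 536870912 1073741824 536870912 1) ndF0q0 ndF3q2 pcF1 Cut.none Ext.none)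

def k0_pp_012 : ∃ t, chk3 f_pp_012 t 1 1 1 = true :=
  ⟨(l 3), by decide +kernel⟩

theorem c_pp_012 : CertF 0 536870912 1073741824 536870912 469762048 67108864 false true true .pnp 0 1 2
    ndF0q0 ndF3q2 pcF1 Cut.none Ext.none :=
  certF1 (fam := false) (s1 := true) (s2 := true) (a := 0) (b := 1) (c := 2) (cn := .pnp) (n1 := ndF0q0) (n2 := ndF3q2) (pc := pcF1) (cut := Cut.none) (xt := Ext.none) (P1 := 0) (W1 := 536870912) (P2 := 1073741824) (W2 := 536870912) (P3 := 469762048) (W3 := 67108864)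
    rfl (fun _ => rfl) k0_pp_012

noncomputable def f_pp_022 : ℕ → ℕ → ℕ → ℕ → Bool := onCell 0 536870912 1073741824 536870912 469762048 67108864
    (rowF 1 false true true .pp 0 2 2 (qsf 0 536870912 1073741824 536870912 2) ndF0q0 ndF3q2 pcF2 Cut.none Ext.none)

def k0_pp_022 : ∃ t, chk3 f_pp_022 t 1 1 1 = true :=
  ⟨(a (b (b (l 3) (b (b (b (l 3) (b (l 3) (b (a (l 3) (a (l 16633744) (l 168208478919))) (a (b (a (l 3) (a (l 16513680) (l 16559248))) (a (a (l 16484968) (l 16467408)) (a (l 16510888) (l 16556696)))) (b (a (b (l 16630664) (l 16629504)) (b (l 16727416) (l 16726432))) (a (l 16627824) (l 16745960))))))) (a (a (a (l 16487264) (l 16441448)) (a (l 16487216) (l 16535008))) (a (l 16608600) (l 16708432)))) (a (a (a (l 16329968) (l 16369992)) (a (l 16421528) (l 16474320))) (a (a (l 16527768) (l 16581376)) (l 16660896))))) (b (a (a (a (l 16274440) (b (l 16276632) (l 16181752))) (b (l 16426096) (l 16275336))) (a (b (l 16479680) (l 16399608)) (b (l 16594168) (l 16528736))))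 (a (b (a (l 16089256) (l 16201496)) (a (b (l 15964224) (l 16063856)) (l 16345952))) (b (a (l 16420416) (l 2)) (l 2))))) (b (b (l 3) (b (b (a (b (l 3) (b (a (a (l 3) (b (l 3) (l 16854792))) (b (a (l 3) (b (l 3) (a (l 211695391527) (l 2)))) (a (a (l 16891216) (l 16936736)) (b (a (l 16962584) (l 2)) (l 18891682711))))) (b (a (a (l 16802792) (l 16851136)) (a (l 16920760) (b (l 16950416) (l 16948656)))) (b (a (b (l 16824344) (l 16823488)) (b (l 17817897815) (l 17817890967))) (a (a (l 16798320) (l 16846904)) (a (l 16895696) (l 16945456))))))) (b (a (b (l 3) (l 2)) (l 2)) (l 2))) (a (a (l 16849520) (b (l 16934040) (l 16900400))) (l 2))) (a (a (l 16765112) (l 16867360)) (l 2)))) (b (a (a (b (l 16704352) (l 2)) (l 2)) (l 2)) (l 2)))), by decide +kernel⟩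

theorem c_pp_022 : CertF 0 536870912 1073741824 536870912 469762048 67108864 false true true .pp 0 2 2
    ndF0q0 ndF3q2 pcF2 Cut.none Ext.none :=
  certF1 (fam := false) (s1 := true) (s2 := true) (a := 0) (b := 2) (c := 2) (cn := .pp) (n1 := ndF0q0) (n2 := ndF3q2) (pc := pcF2) (cut := Cut.none) (xt := Ext.none) (P1 := 0) (W1 := 536870912) (P2 := 1073741824) (W2 := 536870912) (P3 := 469762048) (W3 := 67108864)
    rfl (fun _ => rfl) k0_pp_022

noncomputable def f_pp_023 : ℕ → ℕ → ℕ → ℕ → Bool := onCell 1073741824 536870912 0 1230186008 469762048 67108864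
    (rowF 2 false true true .up 0 2 3 (qsf 0 536870912 0 1230186008 2) ndF0q0 ndF3q3 pcF2 Cut.none Ext.none)

def k0_pp_023 : ∃ t, chk3 f_pp_023 t 1 1 1 = true :=
  ⟨(b (a (l 2) (a (l 2) (b (a (l 2) (b (l 16850752) (l 16843120))) (a (l 87611274007) (l 17019408))))) (b (a (a (l 2) (a (l 2) (b (l 2) (b (l 2) (l 452682916471))))) (a (a (b (l 2) (a (l 16792400) (l 16787576))) (b (l 16801648) (l 16828992))) (b (a (l 16814216) (l 16829824)) (a (l 16900392) (l 16812048))))) (a (a (b (l 2) (l 3)) (a (a (a (b (b (l 2) (b (l 2) (l 418323458071))) (b (b (l 270214073735) (l 117742665191)) (b (a (l 3) (l 16853040)) (l 3)))) (b (b (l 2) (a (l 16863552) (a (l 16895888) (a (l 16891080) (l 16887872))))) (a (b (l 16827016) (b (l 16829120) (b (l 16779824) (a (l 16750808) (l 16738928))))) (a (b (l 16875768) (b (l 16811576) (b (l 16762096) (l 16727064)))) (b (a (l 16868832) (l 16864280)) (a (b (l 16803144) (a (l 16737200) (l 16734304))) (b (l 16797680) (b (l 16747552) (l 16712512))))))))) (b (b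 (l 510128019687) (l 16862256)) (b (b (l 16841904) (l 16807896)) (b (l 16754264) (b (l 16697912) (l 16683560)))))) (b (b (a (l 16826504) (l 16801240)) (b (l 16804256) (l 16787232))) (b (b (l 16759192) (l 16716952)) (b (l 16696816) (a (l 16622344) (l 16541360))))))) (a (b (b (a (l 16773456) (l 16757440)) (a (l 16780840) (l 16711424))) (b (a (b (l 16688600) (l 16637560)) (b (l 16651600) (l 16592928))) (a (b (l 16567400) (a (l 16493144) (l 16454480))) (b (l 16514624) (a (l 16423912) (l 16400096)))))) (b (a (b (l 16758144) (l 16704184)) (b (l 16770672) (l 16711680))) (b (a (b (l 16636504) (l 16571312)) (l 16625824)) (a (b (l 16485600) (a (l 16381904) (l 16368408))) (b (l 16495776) (b (l 16471648) (a (l 16325384) (l 16318264))))))))))), by decide +kernel⟩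

theorem c_pp_023 : CertF 0 536870912 0 1230186008 469762048 67108864 false true true .up 0 2 3
    ndF0q0 ndF3q3 pcF2 Cut.none Ext.none :=
  certF2 (fam := false) (s1 := true) (s2 := true) (a := 0) (b := 2) (c := 3) (cn := .up) (n1 := ndF0q0) (n2 := ndF3q3) (pc := pcF2) (cut := Cut.none) (xt := Ext.none) (P1 := 0) (W1 := 536870912) (P2 := 0) (W2 := 1230186008) (P3 := 469762048) (W3 := 67108864)
    rfl (fun _ => rfl) k0_pp_023

noncomputable def f_pp_033 : ℕ → ℕ → ℕ → ℕ → Bool := onCell 1610612736 536870912 0 1230186008 469762048 67108864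
    (rowF 2 false true true .pnn 0 3 3 (qsf 0 536870912 0 1230186008 3) ndF0q0 ndF3q3 pcF3 Cut.none Ext.none)

def k0_pp_033 : ∃ t, chk3 f_pp_033 t 1 1 1 = true :=
  ⟨(b (b (a (a (a (l 16836432) (l 16839192)) (a (l 16842264) (l 16847624))) (a (a (l 16852760) (l 4)) (l 4))) (a (a (a (l 17009816) (b (l 16851392) (l 16854920))) (a (l 16924680) (l 16994800))) (a (a (l 16876344) (l 16886104)) (a (l 16902032) (l 4))))) (b (a (a (a (b (l 16840888) (l 16826592)) (b (l 16853480) (l 16836720))) (a (b (l 16865888) (l 16847880)) (b (l 16880024) (l 16862240)))) (a (a (b (l 16899384) (l 16891512)) (b (l 16929384) (l 404835053591))) (a (b (l 16956432) (l 1)) (l 1)))) (a (a (b (a (b (l 16795776) (l 16755712)) (b (l 16798952) (l 16747840))) (b (a (b (l 16709704) (l 16668616)) (l 47278093367)) (a (b (l 38687969799) (a (b (l 16584376) (l 16641280)) (l 275448145175))) (b (l 287258894743) (l 1))))) (b (b (a (l 16801856) (l 16809216)) (a (l 16737768) (l 1))) (b (a (l 297459837079) (l 1)) (l 1))))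 (l 1)))), by decide +kernel⟩

theorem c_pp_033 : CertF 0 536870912 0 1230186008 469762048 67108864 false true true .pnn 0 3 3
    ndF0q0 ndF3q3 pcF3 Cut.none Ext.none :=
  certF2 (fam := false) (s1 := true) (s2 := true) (a := 0) (b := 3) (c := 3) (cn := .pnn) (n1 := ndF0q0) (n2 := ndF3q3) (pc := pcF3) (cut := Cut.none) (xt := Ext.none) (P1 := 0) (W1 := 536870912) (P2 := 0) (W2 := 1230186008) (P3 := 469762048) (W3 := 67108864)
    rfl (fun _ => rfl) k0_pp_033

noncomputable def f_pp_101 : ℕ → ℕ → ℕ → ℕ → Bool := onCell 536870912 536870912 536870912 536870912 469762048 67108864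
    (rowF 0 false true true .npn 1 0 1 (qsf 536870912 536870912 536870912 536870912 0) ndF0q1 ndF3q1 pcF0 Cut.none Ext.none)

def k0_pp_101 : ∃ t, chk3 f_pp_101 t 1 1 1 = true :=
  ⟨(a (l 3) (l 5)), by decide +kernel⟩

theorem c_pp_101 : CertF 536870912 536870912 536870912 536870912 469762048 67108864 false true true .npn 1 0 1
    ndF0q1 ndF3q1 pcF0 Cut.none Ext.none :=
  certF0 (fam := false) (s1 := true) (s2 := true) (a := 1) (b := 0) (c := 1) (cn := .npn) (n1 := ndF0q1) (n2 := ndF3q1) (pc := pcF0) (cut := Cut.none) (xt := Ext.none) (P1 := 536870912) (W1 := 536870912) (P2 := 536870912) (W2 := 536870912) (P3 := 469762048) (W3 := 67108864)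
    rfl k0_pp_101

noncomputable def f_pp_102 : ℕ → ℕ → ℕ → ℕ → Bool := onCell 536870912 536870912 1073741824 536870912 469762048 67108864
    (rowF 0 false true true .npp 1 0 2 (qsf 536870912 536870912 1073741824 536870912 0) ndF0q1 ndF3q2 pcF0 Cut.none Ext.none)

def k0_pp_102 : ∃ t, chk3 f_pp_102 t 1 1 1 = true :=
  ⟨(l 3), by decide +kernel⟩

theorem c_pp_102 : CertF 536870912 536870912 1073741824 536870912 469762048 67108864 false true true .npp 1 0 2
    ndF0q1 ndF3q2 pcF0 Cut.none Ext.none :=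
  certF0 (fam := false) (s1 := true) (s2 := true) (a := 1) (b := 0) (c := 2) (cn := .npp) (n1 := ndF0q1) (n2 := ndF3q2) (pc := pcF0) (cut := Cut.none) (xt := Ext.none) (P1 := 536870912) (W1 := 536870912) (P2 := 1073741824) (W2 := 536870912) (P3 := 469762048) (W3 := 67108864)
    rfl k0_pp_102

noncomputable def f_pp_112 : ℕ → ℕ → ℕ → ℕ → Bool := onCell 536870912 536870912 1073741824 536870912 469762048 67108864
    (rowF 0 false true true .dn 1 1 2 (qsf 536870912 536870912 1073741824 536870912 1) ndF0q1 ndF3q2 pcF1 Cut.none Ext.none)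

def k0_pp_112 : ∃ t, chk3 f_pp_112 t 1 1 1 = true :=
  ⟨(l 3), by decide +kernel⟩

theorem c_pp_112 : CertF 536870912 536870912 1073741824 536870912 469762048 67108864 false true true .dn 1 1 2
    ndF0q1 ndF3q2 pcF1 Cut.none Ext.none :=
  certF0 (fam := false) (s1 := true) (s2 := true) (a := 1) (b := 1) (c := 2) (cn := .dn) (n1 := ndF0q1) (n2 := ndF3q2) (pc := pcF1) (cut := Cut.none) (xt := Ext.none) (P1 := 536870912) (W1 := 536870912) (P2 := 1073741824) (W2 := 536870912) (P3 := 469762048) (W3 := 67108864)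
    rfl k0_pp_112

noncomputable def cut_pp_113 : Cut := Cut.of [[⟨0, 1, 0, 67108864⟩, ⟨1, 1, 0, 67108864⟩, ⟨2, 2, 0, 16777216⟩]]

noncomputable def f_pp_113 : ℕ → ℕ → ℕ → ℕ → Bool := onCell 536870912 536870912 0 1230186008 469762048 67108864
    (rowF 2 false true true .nn 1 1 3 (qsf 536870912 536870912 0 1230186008 1) ndF0q1 ndF3q3 pcF1 cut_pp_113 Ext.none)

def k0_pp_113 : ∃ t, chk3 f_pp_113 t 1 1 1 = true :=
  ⟨(b (a (l 2) (a (l 2) (b (a (l 2) (a (l 2) (b (l 6) (l 3)))) (l 3)))) (a (b (a (l 2) (l 3)) (a (b (l 2) (l 3)) (l 3))) (b (l 3) (l 3)))), by decide +kernel⟩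

theorem c_pp_113 : CertF 536870912 536870912 0 1230186008 469762048 67108864 false true true .nn 1 1 3
    ndF0q1 ndF3q3 pcF1 cut_pp_113 Ext.none :=
  certF2 (fam := false) (s1 := true) (s2 := true) (a := 1) (b := 1) (c := 3) (cn := .nn) (n1 := ndF0q1) (n2 := ndF3q3) (pc := pcF1) (cut := cut_pp_113) (xt := Ext.none) (P1 := 536870912) (W1 := 536870912) (P2 := 0) (W2 := 1230186008) (P3 := 469762048) (W3 := 67108864)
    rfl (fun _ => rfl) k0_pp_113

noncomputable def cut_pp_123 : Cut := Cut.of [[⟨0, 1, 0, 67108864⟩, ⟨1, 1, 0, 67108864⟩, ⟨2, 2, 0, 16777216⟩]]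

noncomputable def f_pp_123 : ℕ → ℕ → ℕ → ℕ → Bool := onCell 1073741824 536870912 0 1230186008 469762048 67108864
    (rowF 2 false true true .npn 1 2 3 (qsf 536870912 536870912 0 1230186008 2) ndF0q1 ndF3q3 pcF2 cut_pp_123 Ext.none)

def k0_pp_123 : ∃ t, chk3 f_pp_123 t 1 4 1 = true :=
  ⟨(a (a (a (a (b (l 6) (b (l 6) (l 3))) (b (a (l 6) (l 16781440)) (a (b (l 6) (a (b (a (l 3) (c (b (a (l 213305546695) (b (l 226727318647) (l 219747998423))) (l 3)) (b (a (b (a (l 3) (l 206326221095)) (l 3)) (b (a (l 219211122679) (l 16786264)) (a (l 197199417063) (l 210084318615)))) (l 3)))) (l 3)) (b (a (b (a (b (l 16786984) (a (c (l 16788792) (l 229948543671)) (l 16787792))) (l 16787176)) (a (b (c (l 225116709095) (a (l 207936836455) (l 221358608919))) (a (l 3) (l 205252485303))) (b (l 16788488) (a (b (l 224579837287) (l 214916161959)) (l 232632901623))))) (b (l 16786792) (a (l 16788680) (l 16788392)))) (c (a (b (a (l 3) (l 212768682343)) (l 3)) (b (a (l 217063654647) (l 16791400)) (a (l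 205789364023) (l 208473718343)))) (a (b (a (l 3) (b (l 205252484807) (l 3))) (l 3)) (b (a (b (l 225116711399) (l 213305549687)) (l 16789072)) (a (l 192367587223) (b (l 212768679991) (l 200957521991))))))))) (b (a (b (l 16781976) (l 16784016)) (l 16782672)) (a (b (a (l 16787128) (l 16786592)) (a (b (l 16789792) (a (b (l 16791432) (a (l 218674265159) (l 16792368))) (l 16791600))) (l 16790128))) (b (l 16785904) (l 16789104))))))) (b (l 16784072) (a (a (b (l 16782624) (a (l 16786576) (l 16785752))) (l 16784048)) (l 16784848)))) (a (a (l 16786624) (l 16789448)) (l 16794440))) (a (a (l 16803872) (l 16817920)) (a (l 16833728) (b (l 16850784) (l 16843136))))), by decide +kernel⟩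

def k1_pp_123 : ∃ t, chk3 f_pp_123 t 2 5 1 = true :=
  ⟨(a (a (a (l 3) (b (a (l 3) (b (a (b (a (b (a (b (a (l 202568138711) (l 210621202087)) (l 196125689719)) (b (l 16793152) (a (l 202031269287) (l 222432363511)))) (a (l 3) (b (l 203105013095) (l 3)))) (b (l 16798368) (c (l 213842444679) (a (l 204178752359) (l 16793544))))) (a (l 3) (b (a (l 192367599783) (b (l 220284885303) (l 200420663879))) (l 3)))) (b (a (l 16793440) (l 16792640)) (a (b (a (b (l 16796400) (l 214379309223)) (l 16796544)) (a (l 203641892119) (b (l 16798312) (l 202031282663)))) (b (l 16795872) (l 16798216))))) (a (l 3) (b (a (b (a (l 3) (l 195588832503)) (l 3)) (b (a (l 199883798871) (l 16800448)) (a (l 187535773047) (l 190220126631)))) (l 3))))) (l 3))) (a (b (a (b (a (b (l 16791440) (l 16795664)) (l 16792000)) (a (b (a (b (l 16799680) (a (l 16802512) (l 16801968))) (l 16799920)) (a (b (a (l 200957549207) (l 203105038327)) (l 190757006919)) (b (l 16803792) (l 197736339927)))) (b (l 16798344) (l 16803432))))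 (b (l 16789920) (a (l 16798736) (l 16796704)))) (a (b (a (b (a (l 3) (b (l 199883815943) (l 178945856455))) (l 3)) (b (a (b (l 16808240) (l 209547510343)) (l 16808464)) (a (l 184314593703) (b (l 16813064) (l 197736360471))))) (a (l 3) (b (a (l 3) (l 174114036487)) (l 3)))) (b (a (b (l 16806512) (a (l 16813296) (l 16811864))) (l 16806880)) (a (b (a (l 166061005847) (l 16818576)) (a (l 3) (b (l 203105101447) (l 180019656855)))) (b (l 16816232) (a (l 16845352) (l 16822656))))))) (b (a (b (l 16787864) (l 16793992)) (l 16788960)) (a (b (l 16844936) (a (l 16837608) (l 16813360))) (b (l 16798424) (l 16808728)))))) (a (b (a (l 16850496) (l 16788992)) (a (b (l 16793240) (l 16842560)) (l 16792248))) (b (l 16794816) (l 16855552)))), by decide +kernel⟩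

def k2_pp_123 : ∃ t, chk3 f_pp_123 t 3 5 1 = true :=
  ⟨(a (a (b (l 16804160) (l 16800376)) (b (l 16812152) (l 16810168))) (a (b (l 16820576) (l 16820192)) (b (l 16833032) (l 16830512)))), by decide +kernel⟩

def k3_pp_123 : ∃ t, chk3 f_pp_123 t 2 6 1 = true :=
  ⟨(a (a (l 3) (b (a (a (l 3) (b (a (l 3) (b (a (l 187535867879) (l 180556552087)) (b (l 178945928839) (l 164987273511)))) (l 3))) (a (b (a (b (l 16827832) (a (l 180019696599) (l 16835288))) (l 16870040)) (a (c (b (a (l 185388381527) (l 197199577431)) (a (l 3) (l 196125814791))) (b (l 187535901703) (l 175724732791))) (b (l 16861760) (a (b (l 16849024) (l 188609652647)) (l 16848904))))) (b (a (l 16824024) (l 16819920)) (a (b (l 16835952) (l 16844880)) (l 16835568))))) (a (l 3) (a (a (l 3) (b (b (a (b (l 191293980823) (l 3)) (b (l 16877384) (l 186999056887))) (a (l 3) (b (l 186462180583) (l 3)))) (l 3))) (b (a (b (a (l 16877296) (l 16853496)) (a (c (b (l 16868248) (l 185925331879)) (l 177335402023)) (b (l 16861760) (l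 16867776)))) (b (l 16849304) (l 16860280))) (a (b (a (c (b (l 182704088951) (l 3)) (l 179482858279)) (c (b (l 198810239495) (l 190757160423)) (l 169819234295))) (a (l 3) (a (l 3) (b (l 178946041495) (l 3))))) (b (a (b (l 16871056) (l 16877848)) (l 16871256)) (a (c (b (l 16909592) (l 195052185671)) (l 151028782567)) (b (l 16881776) (l 16889464)))))))))) (a (a (a (b (b (l 16835328) (a (l 16830592) (l 16825992))) (b (a (l 16870072) (l 16843536)) (a (b (l 16866496) (a (l 16882208) (l 16878752))) (b (l 16860288) (l 16873536))))) (a (b (l 16962568) (b (l 16838224) (b (l 16854136) (l 16866688)))) (b (l 16896104) (a (b (l 16834424) (l 16855624)) (b (l 16831936) (a (l 16853240) (l 16851648))))))) (b (l 17035472) (b (l 16822200) (b (l 16834504) (l 16843784))))) (b (b (l 16793864) (l 16797080)) (b (l 16886920) (a (l 16819000) (l 16802848)))))), by decide +kernel⟩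

def k4_pp_123 : ∃ t, chk3 f_pp_123 t 3 6 1 = true :=
  ⟨(a (b (a (l 17004128) (l 16801680)) (b (a (l 16791144) (l 16792312)) (a (l 16786688) (l 1)))) (b (a (l 16814432) (l 1)) (l 1))), by decide +kernel⟩

def k5_pp_123 : ∃ t, chk3 f_pp_123 t 1 7 1 = true :=
  ⟨(a (a (b (a (l 3) (a (l 3) (b (a (l 3) (a (l 3) (b (a (c (b (l 185388490871) (l 3)) (l 184314743959)) (b (l 16918440) (c (l 211158337239) (l 16902456)))) (a (l 3) (b (l 209547728999) (l 206863387063)))))) (l 3)))) (l 3)) (a (a (a (b (b (a (b (a (l 16918648) (l 16893736)) (b (l 16907136) (l 16893552))) (b (l 16887768) (l 16901648))) (a (b (a (l 16927608) (l 16922096)) (l 16934280)) (b (l 16913816) (l 16920872)))) (b (b (l 270750936535) (l 1)) (l 1))) (b (a (b (b (l 16879720) (l 16892224)) (b (l 16902576) (l 16906880))) (a (b (l 16879744) (l 16895816)) (a (b (l 16876512) (l 16891000)) (b (l 16874592) (l 16887792))))) (l 1))) (b (b (b (l 16852920) (l 16860216)) (l 16820008)) (l 1))) (b (b (a (l 16826440) (l 16801096))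 (l 1)) (l 1)))) (l 1)), by decide +kernel⟩

theorem s6_pp_123 : ∃ t, chk3 f_pp_123 t 1 6 1 = true := ex3_a k3_pp_123 k4_pp_123

theorem s7_pp_123 : ∃ t, chk3 f_pp_123 t 1 3 1 = true := ex3_b s6_pp_123 k5_pp_123

theorem s8_pp_123 : ∃ t, chk3 f_pp_123 t 1 5 1 = true := ex3_a k1_pp_123 k2_pp_123

theorem s9_pp_123 : ∃ t, chk3 f_pp_123 t 1 2 1 = true := ex3_b k0_pp_123 s8_pp_123

theorem s10_pp_123 : ∃ t, chk3 f_pp_123 t 1 1 1 = true := ex3_b s9_pp_123 s7_pp_123

theorem c_pp_123 : CertF 536870912 536870912 0 1230186008 469762048 67108864 false true true .npn 1 2 3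
    ndF0q1 ndF3q3 pcF2 cut_pp_123 Ext.none :=
  certF2 (fam := false) (s1 := true) (s2 := true) (a := 1) (b := 2) (c := 3) (cn := .npn) (n1 := ndF0q1) (n2 := ndF3q3) (pc := pcF2) (cut := cut_pp_123) (xt := Ext.none) (P1 := 536870912) (W1 := 536870912) (P2 := 0) (W2 := 1230186008) (P3 := 469762048) (W3 := 67108864)
    rfl (fun _ => rfl) s10_pp_123

noncomputable def f_pp_133 : ℕ → ℕ → ℕ → ℕ → Bool := onCell 536870912 536870912 0 1230186008 469762048 67108864
    (rowF 0 false true true .dn 1 3 3 (qsf 536870912 536870912 0 1230186008 3) ndF0q1 ndF3q3 pcF3 Cut.none Ext.none)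

def k0_pp_133 : ∃ t, chk3 f_pp_133 t 1 1 1 = true :=
  ⟨(b (b (a (a (a (l 1089345239111) (l 1)) (l 1)) (l 1)) (l 1)) (l 1)), by decide +kernel⟩

theorem c_pp_133 : CertF 536870912 536870912 0 1230186008 469762048 67108864 false true true .dn 1 3 3
    ndF0q1 ndF3q3 pcF3 Cut.none Ext.none :=
  certF0 (fam := false) (s1 := true) (s2 := true) (a := 1) (b := 3) (c := 3) (cn := .dn) (n1 := ndF0q1) (n2 := ndF3q3) (pc := pcF3) (cut := Cut.none) (xt := Ext.none) (P1 := 536870912) (W1 := 536870912) (P2 := 0) (W2 := 1230186008) (P3 := 469762048) (W3 := 67108864)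
    rfl k0_pp_133

noncomputable def f_pp_202 : ℕ → ℕ → ℕ → ℕ → Bool := onCell 0 536870912 1073741824 536870912 469762048 67108864
    (rowF 0 false true true .pp 2 0 2 (qsf 0 536870912 1073741824 536870912 0) ndF0q2 ndF3q2 pcF0 Cut.none Ext.none)

def k0_pp_202 : ∃ t, chk3 f_pp_202 t 1 1 1 = true :=
  ⟨(l 5), by decide +kernel⟩

theorem c_pp_202 : CertF 0 536870912 1073741824 536870912 469762048 67108864 false true true .pp 2 0 2
    ndF0q2 ndF3q2 pcF0 Cut.none Ext.none :=
  certF0 (fam := false) (s1 := true) (s2 := true) (a := 2) (b := 0) (c := 2) (cn := .pp) (n1 := ndF0q2) (n2 := ndF3q2) (pc := pcF0) (cut := Cut.none) (xt := Ext.none) (P1 := 0) (W1 := 536870912) (P2 := 1073741824) (W2 := 536870912) (P3 := 469762048) (W3 := 67108864)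
    rfl k0_pp_202

noncomputable def f_pp_203 : ℕ → ℕ → ℕ → ℕ → Bool := onCell 0 536870912 0 1230186008 469762048 67108864
    (rowF 0 false true true .up 2 0 3 (qsf 0 536870912 0 1230186008 0) ndF0q2 ndF3q3 pcF0 Cut.none Ext.none)

def k0_pp_203 : ∃ t, chk3 f_pp_203 t 1 1 1 = true :=
  ⟨(b (l 2) (b (l 2) (l 3))), by decide +kernel⟩

theorem c_pp_203 : CertF 0 536870912 0 1230186008 469762048 67108864 false true true .up 2 0 3
    ndF0q2 ndF3q3 pcF0 Cut.none Ext.none :=
  certF0 (fam := false) (s1 := true) (s2 := true) (a := 2) (b := 0) (c := 3) (cn := .up) (n1 := ndF0q2) (n2 := ndF3q3) (pc := pcF0) (cut := Cut.none) (xt := Ext.none) (P1 := 0) (W1 := 536870912) (P2 := 0) (W2 := 1230186008) (P3 := 469762048) (W3 := 67108864)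
    rfl k0_pp_203

noncomputable def cut_pp_213 : Cut := Cut.of [[⟨0, 1, 0, 67108864⟩, ⟨1, 1, 0, 67108864⟩, ⟨2, 2, 0, 16777216⟩]]

noncomputable def f_pp_213 : ℕ → ℕ → ℕ → ℕ → Bool := onCell 0 536870912 0 1230186008 469762048 67108864
    (rowF 0 false true true .pnn 2 1 3 (qsf 0 536870912 0 1230186008 1) ndF0q2 ndF3q3 pcF1 cut_pp_213 Ext.none)

def k0_pp_213 : ∃ t, chk3 f_pp_213 t 1 1 1 = true :=
  ⟨(b (a (l 3) (b (a (l 3) (a (l 3) (b (l 6) (l 3)))) (l 3))) (b (l 3) (l 3))), by decide +kernel⟩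

theorem c_pp_213 : CertF 0 536870912 0 1230186008 469762048 67108864 false true true .pnn 2 1 3
    ndF0q2 ndF3q3 pcF1 cut_pp_213 Ext.none :=
  certF0 (fam := false) (s1 := true) (s2 := true) (a := 2) (b := 1) (c := 3) (cn := .pnn) (n1 := ndF0q2) (n2 := ndF3q3) (pc := pcF1) (cut := cut_pp_213) (xt := Ext.none) (P1 := 0) (W1 := 536870912) (P2 := 0) (W2 := 1230186008) (P3 := 469762048) (W3 := 67108864)
    rfl k0_pp_213

noncomputable def f_pm_001 : ℕ → ℕ → ℕ → ℕ → Bool := onCell 0 536870912 536870912 536870912 469762048 67108864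
    (rowF 0 false true false .up 0 0 1 (qsf 0 536870912 536870912 536870912 0) ndF0q0 ndF3q1 pcF0 Cut.none Ext.none)

def k0_pm_001 : ∃ t, chk3 f_pm_001 t 1 1 1 = true :=
  ⟨(l 4), by decide +kernel⟩

theorem c_pm_001 : CertF 0 536870912 536870912 536870912 469762048 67108864 false true false .up 0 0 1
    ndF0q0 ndF3q1 pcF0 Cut.none Ext.none :=
  certF0 (fam := false) (s1 := true) (s2 := false) (a := 0) (b := 0) (c := 1) (cn := .up) (n1 := ndF0q0) (n2 := ndF3q1) (pc := pcF0) (cut := Cut.none) (xt := Ext.none) (P1 := 0) (W1 := 536870912) (P2 := 536870912) (W2 := 536870912) (P3 := 469762048) (W3 := 67108864)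
    rfl k0_pm_001

noncomputable def f_pm_011 : ℕ → ℕ → ℕ → ℕ → Bool := onCell 0 536870912 536870912 536870912 469762048 67108864
    (rowF 0 false true false .pnn 0 1 1 (qsf 0 536870912 536870912 536870912 1) ndF0q0 ndF3q1 pcF1 Cut.none Ext.none)

def k0_pm_011 : ∃ t, chk3 f_pm_011 t 1 1 1 = true :=
  ⟨(l 4), by decide +kernel⟩

theorem c_pm_011 : CertF 0 536870912 536870912 536870912 469762048 67108864 false true false .pnn 0 1 1
    ndF0q0 ndF3q1 pcF1 Cut.none Ext.none :=
  certF0 (fam := false) (s1 := true) (s2 := false) (a := 0) (b := 1) (c := 1) (cn := .pnn) (n1 := ndF0q0) (n2 := ndF3q1) (pc := pcF1) (cut := Cut.none) (xt := Ext.none) (P1 := 0) (W1 := 536870912) (P2 := 536870912) (W2 := 536870912) (P3 := 469762048) (W3 := 67108864)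
    rfl k0_pm_011

noncomputable def f_pm_012 : ℕ → ℕ → ℕ → ℕ → Bool := onCell 0 536870912 1073741824 536870912 469762048 67108864
    (rowF 0 false true false .pnp 0 1 2 (qsf 0 536870912 1073741824 536870912 1) ndF0q0 ndF3q2 pcF1 Cut.none Ext.none)

def k0_pm_012 : ∃ t, chk3 f_pm_012 t 1 1 1 = true :=
  ⟨(l 4), by decide +kernel⟩

theorem c_pm_012 : CertF 0 536870912 1073741824 536870912 469762048 67108864 false true false .pnp 0 1 2
    ndF0q0 ndF3q2 pcF1 Cut.none Ext.none :=
  certF0 (fam := false) (s1 := true) (s2 := false) (a := 0) (b := 1) (c := 2) (cn := .pnp) (n1 := ndF0q0) (n2 := ndF3q2) (pc := pcF1) (cut := Cut.none) (xt := Ext.none) (P1 := 0) (W1 := 536870912) (P2 := 1073741824) (W2 := 536870912) (P3 := 469762048) (W3 := 67108864)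
    rfl k0_pm_012

noncomputable def f_pm_022 : ℕ → ℕ → ℕ → ℕ → Bool := onCell 0 536870912 1073741824 536870912 469762048 67108864
    (rowF 0 false true false .pp 0 2 2 (qsf 0 536870912 1073741824 536870912 2) ndF0q0 ndF3q2 pcF2 Cut.none Ext.none)

def k0_pm_022 : ∃ t, chk3 f_pm_022 t 1 1 1 = true :=
  ⟨(l 4), by decide +kernel⟩

theorem c_pm_022 : CertF 0 536870912 1073741824 536870912 469762048 67108864 false true false .pp 0 2 2
    ndF0q0 ndF3q2 pcF2 Cut.none Ext.none :=
  certF0 (fam := false) (s1 := true) (s2 := false) (a := 0) (b := 2) (c := 2) (cn := .pp) (n1 := ndF0q0) (n2 := ndF3q2) (pc := pcF2) (cut := Cut.none) (xt := Ext.none) (P1 := 0) (W1 := 536870912) (P2 := 1073741824) (W2 := 536870912) (P3 := 469762048) (W3 := 67108864)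
    rfl k0_pm_022

noncomputable def f_pm_023 : ℕ → ℕ → ℕ → ℕ → Bool := onCell 0 536870912 0 1230186008 469762048 67108864
    (rowF 0 false true false .up 0 2 3 (qsf 0 536870912 0 1230186008 2) ndF0q0 ndF3q3 pcF2 Cut.none Ext.none)

def k0_pm_023 : ∃ t, chk3 f_pm_023 t 1 1 1 = true :=
  ⟨(a (b (l 2) (l 4)) (b (a (l 2) (b (a (l 2) (l 16847432)) (a (b (l 16850496) (l 4)) (b (l 16855832) (l 16863896))))) (b (l 4) (l 4)))), by decide +kernel⟩

theorem c_pm_023 : CertF 0 536870912 0 1230186008 469762048 67108864 false true false .up 0 2 3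
    ndF0q0 ndF3q3 pcF2 Cut.none Ext.none :=
  certF0 (fam := false) (s1 := true) (s2 := false) (a := 0) (b := 2) (c := 3) (cn := .up) (n1 := ndF0q0) (n2 := ndF3q3) (pc := pcF2) (cut := Cut.none) (xt := Ext.none) (P1 := 0) (W1 := 536870912) (P2 := 0) (W2 := 1230186008) (P3 := 469762048) (W3 := 67108864)
    rfl k0_pm_023

noncomputable def f_pm_033 : ℕ → ℕ → ℕ → ℕ → Bool := onCell 1610612736 536870912 0 1230186008 469762048 67108864
    (rowF 2 false true false .pnn 0 3 3 (qsf 0 536870912 0 1230186008 3) ndF0q0 ndF3q3 pcF3 Cut.none Ext.none)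

def k0_pm_033 : ∃ t, chk3 f_pm_033 t 1 1 1 = true :=
  ⟨(b (a (a (b (l 16841128) (a (l 16853376) (l 4))) (a (l 16854976) (b (l 4) (l 4)))) (l 4)) (l 4)), by decide +kernel⟩

theorem c_pm_033 : CertF 0 536870912 0 1230186008 469762048 67108864 false true false .pnn 0 3 3
    ndF0q0 ndF3q3 pcF3 Cut.none Ext.none :=
  certF2 (fam := false) (s1 := true) (s2 := false) (a := 0) (b := 3) (c := 3) (cn := .pnn) (n1 := ndF0q0) (n2 := ndF3q3) (pc := pcF3) (cut := Cut.none) (xt := Ext.none) (P1 := 0) (W1 := 536870912) (P2 := 0) (W2 := 1230186008) (P3 := 469762048) (W3 := 67108864)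
    rfl (fun _ => rfl) k0_pm_033

noncomputable def f_pm_101 : ℕ → ℕ → ℕ → ℕ → Bool := onCell 536870912 536870912 536870912 536870912 469762048 67108864
    (rowF 0 false true false .npn 1 0 1 (qsf 536870912 536870912 536870912 536870912 0) ndF0q1 ndF3q1 pcF0 Cut.none Ext.none)

def k0_pm_101 : ∃ t, chk3 f_pm_101 t 1 1 1 = true :=
  ⟨(l 4), by decide +kernel⟩

theorem c_pm_101 : CertF 536870912 536870912 536870912 536870912 469762048 67108864 false true false .npn 1 0 1
    ndF0q1 ndF3q1 pcF0 Cut.none Ext.none :=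
  certF0 (fam := false) (s1 := true) (s2 := false) (a := 1) (b := 0) (c := 1) (cn := .npn) (n1 := ndF0q1) (n2 := ndF3q1) (pc := pcF0) (cut := Cut.none) (xt := Ext.none) (P1 := 536870912) (W1 := 536870912) (P2 := 536870912) (W2 := 536870912) (P3 := 469762048) (W3 := 67108864)
    rfl k0_pm_101

noncomputable def f_pm_102 : ℕ → ℕ → ℕ → ℕ → Bool := onCell 536870912 536870912 0 536870912 469762048 67108864
    (rowF 1 false true false .npp 1 0 2 (qsf 536870912 536870912 1073741824 536870912 0) ndF0q1 ndF3q2 pcF0 Cut.none Ext.none)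

def k0_pm_102 : ∃ t, chk3 f_pm_102 t 1 1 1 = true :=
  ⟨(a (l 4) (b (b (a (b (l 1) (a (l 1) (b (l 1) (a (l 1) (l 237330499655))))) (b (a (a (l 1) (b (l 1) (l 300144505479))) (a (b (l 327525062871) (l 16892472)) (b (l 199749450551) (a (l 16895728) (l 16914008))))) (a (a (l 255584344199) (l 226593433799)) (a (b (l 16890000) (l 16898928)) (l 16929704))))) (a (a (l 4) (b (a (l 4) (b (l 16808440) (l 16820104))) (a (l 16792160) (l 16837432)))) (a (b (a (l 16855544) (l 16887080)) (l 16893168)) (b (a (l 16919224) (l 16970688)) (a (l 16947640) (b (l 16993888) (l 17005728))))))) (b (a (a (l 4) (b (l 16839128) (l 16862896))) (a (b (l 16916480) (a (l 16920456) (l 16953224))) (b (a (l 16970136) (l 17021240)) (a (l 16986880) (l 17038320))))) (a (b (a (l 16790048) (l 16885056)) (b (l 16854112) (a (l 16820856) (l 16903816)))) (a (b (a (l 16937296) (l 16967552)) (a (l 16949192) (b (l 16974024) (l 16977704)))) (a (b (l 16997744) (b (l 17003512) (l 17006000))) (b (b (l 17043912) (l 17043048))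 (l 17043240)))))))), by decide +kernel⟩

theorem c_pm_102 : CertF 536870912 536870912 1073741824 536870912 469762048 67108864 false true false .npp 1 0 2
    ndF0q1 ndF3q2 pcF0 Cut.none Ext.none :=
  certF1 (fam := false) (s1 := true) (s2 := false) (a := 1) (b := 0) (c := 2) (cn := .npp) (n1 := ndF0q1) (n2 := ndF3q2) (pc := pcF0) (cut := Cut.none) (xt := Ext.none) (P1 := 536870912) (W1 := 536870912) (P2 := 1073741824) (W2 := 536870912) (P3 := 469762048) (W3 := 67108864)
    rfl (fun _ => rfl) k0_pm_102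

noncomputable def f_pm_112 : ℕ → ℕ → ℕ → ℕ → Bool := onCell 536870912 536870912 1073741824 536870912 469762048 67108864
    (rowF 2 false true false .dn 1 1 2 (qsf 536870912 536870912 1073741824 536870912 1) ndF0q1 ndF3q2 pcF1 Cut.none Ext.none)

def k0_pm_112 : ∃ t, chk3 f_pm_112 t 1 1 1 = true :=
  ⟨(b (l 4) (a (a (b (a (b (l 16779936) (a (l 16897200) (l 16869392))) (l 41574369367)) (a (b (a (b (l 16952920) (l 16971928)) (l 16945312)) (b (a (l 16995824) (l 16975000)) (l 17007840))) (b (b (l 16887184) (l 16923864)) (a (l 16969688) (l 16954376))))) (b (l 4) (a (b (l 16830264) (a (l 16933344) (l 16911624))) (b (l 16713296) (l 16854456))))) (b (l 4) (a (a (b (l 4) (l 16742560)) (l 4)) (l 4))))), by decide +kernel⟩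

theorem c_pm_112 : CertF 536870912 536870912 1073741824 536870912 469762048 67108864 false true false .dn 1 1 2
    ndF0q1 ndF3q2 pcF1 Cut.none Ext.none :=
  certF2 (fam := false) (s1 := true) (s2 := false) (a := 1) (b := 1) (c := 2) (cn := .dn) (n1 := ndF0q1) (n2 := ndF3q2) (pc := pcF1) (cut := Cut.none) (xt := Ext.none) (P1 := 536870912) (W1 := 536870912) (P2 := 1073741824) (W2 := 536870912) (P3 := 469762048) (W3 := 67108864)
    rfl (fun _ => rfl) k0_pm_112

noncomputable def cut_pm_113 : Cut := Cut.of [[⟨0, 1, 0, 67108864⟩, ⟨1, 1, 0, 67108864⟩, ⟨2, 2, 0, 16777216⟩]]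

noncomputable def f_pm_113 : ℕ → ℕ → ℕ → ℕ → Bool := onCell 536870912 536870912 0 1230186008 469762048 67108864
    (rowF 0 false true false .nn 1 1 3 (qsf 536870912 536870912 0 1230186008 1) ndF0q1 ndF3q3 pcF1 cut_pm_113 Ext.none)

def k0_pm_113 : ∃ t, chk3 f_pm_113 t 1 1 1 = true :=
  ⟨(b (a (l 2) (a (l 2) (b (a (l 2) (a (l 2) (b (l 6) (l 16882408)))) (a (b (l 16876856) (l 16905160)) (b (a (l 16840640) (l 16825960)) (l 16872512)))))) (b (a (b (l 2) (a (l 2) (a (l 2) (l 17078496)))) (a (b (a (l 2) (l 16989952)) (a (l 17034504) (l 16998912))) (b (a (l 16938648) (l 16929312)) (a (l 16972048) (l 16997176))))) (a (a (b (l 2) (l 4)) (b (a (b (l 321687238551) (l 17127768)) (b (l 17009520) (l 16978680))) (a (b (l 16862776) (l 4)) (b (l 16944360) (l 16908976))))) (b (a (a (l 17005952) (l 16998992)) (a (l 16995408) (b (l 17040416) (l 17051200)))) (a (a (b (l 16983624) (b (l 16969328) (l 16959792))) (b (l 16993688) (l 17197640))) (b (a (l 17004360) (l 17059568)) (a (l 17111440) (l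 17066504)))))))), by decide +kernel⟩

theorem c_pm_113 : CertF 536870912 536870912 0 1230186008 469762048 67108864 false true false .nn 1 1 3
    ndF0q1 ndF3q3 pcF1 cut_pm_113 Ext.none :=
  certF0 (fam := false) (s1 := true) (s2 := false) (a := 1) (b := 1) (c := 3) (cn := .nn) (n1 := ndF0q1) (n2 := ndF3q3) (pc := pcF1) (cut := cut_pm_113) (xt := Ext.none) (P1 := 536870912) (W1 := 536870912) (P2 := 0) (W2 := 1230186008) (P3 := 469762048) (W3 := 67108864)
    rfl k0_pm_113

noncomputable def cut_pm_123 : Cut := Cut.of [[⟨0, 1, 0, 67108864⟩, ⟨1, 1, 0, 67108864⟩, ⟨2, 2, 0, 16777216⟩]]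

noncomputable def f_pm_123 : ℕ → ℕ → ℕ → ℕ → Bool := onCell 1073741824 536870912 0 1230186008 469762048 67108864
    (rowF 2 false true false .npn 1 2 3 (qsf 536870912 536870912 0 1230186008 2) ndF0q1 ndF3q3 pcF2 cut_pm_123 Ext.none)

def k0_pm_123 : ∃ t, chk3 f_pm_123 t 1 1 1 = true :=
  ⟨(b (b (a (a (a (b (a (l 6) (l 16786528)) (a (l 16806488) (l 16808432))) (b (l 16789824) (l 16811272))) (a (b (l 16795712) (l 16818088)) (l 16817328))) (a (a (l 16832704) (b (l 16838752) (l 16853728))) (a (l 16850944) (l 16851544)))) (a (a (b (a (l 16847912) (l 16849864)) (a (l 16905128) (b (l 16887480) (l 16913744)))) (b (a (l 16855688) (l 16863000)) (a (l 16898736) (l 16896400)))) (a (a (b (l 16868768) (l 16890760)) (l 16876840)) (a (l 17037216) (b (l 16858192) (l 16860344)))))) (b (a (a (b (a (l 16969328) (l 16951528)) (a (b (l 17005416) (l 17005192)) (b (l 16967136) (l 16952152)))) (a (b (l 16933384) (b (l 16932776) (l 16904872))) (b (l 16915096) (l 17030408)))) (a (b (a (l 16895728)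 (l 16875616)) (a (l 4) (l 4))) (a (l 4) (l 1)))) (b (a (a (a (b (l 16970000) (b (l 16905032) (l 4))) (b (l 16899320) (l 4))) (l 4)) (l 1)) (l 4)))), by decide +kernel⟩

theorem c_pm_123 : CertF 536870912 536870912 0 1230186008 469762048 67108864 false true false .npn 1 2 3
    ndF0q1 ndF3q3 pcF2 cut_pm_123 Ext.none :=
  certF2 (fam := false) (s1 := true) (s2 := false) (a := 1) (b := 2) (c := 3) (cn := .npn) (n1 := ndF0q1) (n2 := ndF3q3) (pc := pcF2) (cut := cut_pm_123) (xt := Ext.none) (P1 := 536870912) (W1 := 536870912) (P2 := 0) (W2 := 1230186008) (P3 := 469762048) (W3 := 67108864)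
    rfl (fun _ => rfl) k0_pm_123

noncomputable def f_pm_133 : ℕ → ℕ → ℕ → ℕ → Bool := onCell 1610612736 536870912 0 1230186008 469762048 67108864
    (rowF 2 false true false .dn 1 3 3 (qsf 536870912 536870912 0 1230186008 3) ndF0q1 ndF3q3 pcF3 Cut.none Ext.none)

def k0_pm_133 : ∃ t, chk3 f_pm_133 t 1 1 1 = true :=
  ⟨(b (b (a (a (l 16840768) (l 1)) (l 1)) (l 1)) (l 1)), by decide +kernel⟩

theorem c_pm_133 : CertF 536870912 536870912 0 1230186008 469762048 67108864 false true false .dn 1 3 3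
    ndF0q1 ndF3q3 pcF3 Cut.none Ext.none :=
  certF2 (fam := false) (s1 := true) (s2 := false) (a := 1) (b := 3) (c := 3) (cn := .dn) (n1 := ndF0q1) (n2 := ndF3q3) (pc := pcF3) (cut := Cut.none) (xt := Ext.none) (P1 := 536870912) (W1 := 536870912) (P2 := 0) (W2 := 1230186008) (P3 := 469762048) (W3 := 67108864)
    rfl (fun _ => rfl) k0_pm_133

noncomputable def f_pm_202 : ℕ → ℕ → ℕ → ℕ → Bool := onCell 0 536870912 0 536870912 469762048 67108864
    (rowF 1 false true false .pp 2 0 2 (qsf 0 536870912 1073741824 536870912 0) ndF0q2 ndF3q2 pcF0 Cut.none Ext.none)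

def k0_pm_202 : ∃ t, chk3 f_pm_202 t 2 1 1 = true :=
  ⟨(b (b (a (b (a (b (a (b (l 16480680) (l 16476032)) (l 16472488)) (a (b (l 16531024) (l 148880453623)) (b (l 16471144) (l 16486784)))) (b (l 16526976) (l 16524896))) (a (b (a (b (l 16567664) (l 161228712951)) (a (l 16514416) (l 16518144))) (a (l 203641427943) (l 16666104))) (b (a (b (l 16513416) (l 16535416)) (l 16551648)) (a (l 16567448) (b (l 16567304) (l 16586304)))))) (b (b (a (a (l 16583152) (l 16606448)) (l 16650504)) (a (l 16592912) (l 16648744))) (a (l 16600936) (b (l 16654576) (l 16657088))))) (a (b (a (a (l 3) (b (l 130090314503) (l 188072358967))) (b (a (l 16611240) (l 16619808)) (a (l 16658264) (l 16663896)))) (a (l 3) (a (b (l 124721874983) (l 137606686583)) (b (l 16710744) (l 16758144))))) (b (a (b (a (l 16628328) (l 16647496)) (a (l 16673024) (l 16680800))) (l 16689328)) (a (a (l 16740544) (l 16770904)) (b (l 16738888) (l 16782464)))))) (b (a (a (l 3) (b (a (b (l 213842458647) (l 3)) (b (l 121500829703)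 (a (l 210621326007) (l 125795907751)))) (a (l 3) (b (b (l 145123212359) (l 227801319847)) (l 3))))) (b (a (b (l 16815080) (a (l 16859384) (l 16866432))) (b (l 16832824) (l 16881344))) (a (a (b (a (b (l 16893944) (l 129554107367)) (l 16909456)) (b (a (b (l 135459666231) (a (l 221358931367) (l 166531130327))) (l 16946560)) (l 1822777795559))) (b (l 16915288) (l 16965608))) (l 16954528)))) (a (l 2) (b (a (l 2) (l 1108739467751)) (l 2))))), by decide +kernel⟩

def k1_pm_202 : ∃ t, chk3 f_pm_202 t 3 1 1 = true :=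
  ⟨(b (b (b (a (a (l 16708232) (b (l 16750880) (l 16769200))) (a (b (a (l 16789784) (l 16826752)) (l 16825000)) (a (b (l 16854960) (l 16873944)) (b (l 16891352) (l 16913504))))) (a (a (b (l 16715112) (l 16714632)) (l 16792200)) (a (b (l 16849464) (l 16871408)) (a (l 16911728) (l 16964344))))) (a (b (a (l 16845264) (b (l 16793400) (l 16794296))) (a (l 16783280) (l 16826752))) (b (a (l 16902368) (a (l 16985528) (l 17052840))) (a (b (l 16905536) (l 16903472)) (l 17097352))))) (b (a (b (a (l 16882872) (l 16928200)) (a (l 16989208) (l 17062504))) (b (a (b (l 16950952) (l 17034680)) (b (l 17133136) (l 17161320))) (a (l 17170880) (b (l 17131456) (l 17106712))))) (a (b (a (l 17096208) (l 17166336)) (l 2)) (b (l 17104144) (a (l 17119696) (l 17077064)))))), by decide +kernel⟩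

theorem s2_pm_202 : ∃ t, chk3 f_pm_202 t 1 1 1 = true := ex3_a k0_pm_202 k1_pm_202

theorem c_pm_202 : CertF 0 536870912 1073741824 536870912 469762048 67108864 false true false .pp 2 0 2
    ndF0q2 ndF3q2 pcF0 Cut.none Ext.none :=
  certF1 (fam := false) (s1 := true) (s2 := false) (a := 2) (b := 0) (c := 2) (cn := .pp) (n1 := ndF0q2) (n2 := ndF3q2) (pc := pcF0) (cut := Cut.none) (xt := Ext.none) (P1 := 0) (W1 := 536870912) (P2 := 1073741824) (W2 := 536870912) (P3 := 469762048) (W3 := 67108864)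
    rfl (fun _ => rfl) s2_pm_202

noncomputable def f_pm_203 : ℕ → ℕ → ℕ → ℕ → Bool := onCell 0 536870912 0 1230186008 469762048 67108864
    (rowF 0 false true false .up 2 0 3 (qsf 0 536870912 0 1230186008 0) ndF0q2 ndF3q3 pcF0 Cut.none Ext.none)

def k0_pm_203 : ∃ t, chk3 f_pm_203 t 1 1 1 = true :=
  ⟨(b (l 2) (b (l 2) (a (b (a (l 3) (b (l 2) (a (l 3) (b (l 2) (l 264778397303))))) (a (l 3) (b (a (b (l 305110728983) (l 202031464391)) (b (l 16928464) (l 16911456))) (a (a (b (l 197736389703) (a (b (l 3) (l 190220015127)) (l 49023107511))) (b (l 16849088) (l 16782032))) (b (l 16873920) (l 16811112)))))) (b (l 2) (a (b (a (l 16940968) (l 16963248)) (a (l 16889584) (b (l 16953096) (l 16942160)))) (b (a (l 17009664) (l 2)) (a (l 17116648) (l 17185392)))))))), by decide +kernel⟩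

theorem c_pm_203 : CertF 0 536870912 0 1230186008 469762048 67108864 false true false .up 2 0 3
    ndF0q2 ndF3q3 pcF0 Cut.none Ext.none :=
  certF0 (fam := false) (s1 := true) (s2 := false) (a := 2) (b := 0) (c := 3) (cn := .up) (n1 := ndF0q2) (n2 := ndF3q3) (pc := pcF0) (cut := Cut.none) (xt := Ext.none) (P1 := 0) (W1 := 536870912) (P2 := 0) (W2 := 1230186008) (P3 := 469762048) (W3 := 67108864)
    rfl k0_pm_203

end Pool.Agent.Strip051.G.I7_16_1_2.Tab.C.FB03

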