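import Pool.Agent.Strip051.G.I7_16_1_2.Gn
import Pool.Agent.Strip051.PB.Corns

/-! # Certificates of the aligned corners (generated) -/

set_option linter.all false

namespace Pool.Agent.Strip051.G.I7_16_1_2.Tab.CN

open Pool.Agent.Strip051.PB

def B102E_000_1_2_1 :
    ∃ t, chk3 (onCell 0 67108864 0 1073741824 469762048 67108864 (corT false 3 c0N cB102E gN0q1 gN0q2 gN0q0 gN1q0 true true)) t 1 2 1 = true :=
  ⟨(T.b (T.l 1) (T.b (T.l 1) (T.a (T.b (T.l 1) (T.a (T.b (T.l 1) (T.a (T.b (T.l 1) (T.a (T.b (T.l 1) (T.a (T.b (T.l 1) (T.a (T.b (T.l 1) (T.a (T.b (T.l 1) (T.b (T.l 1) (T.l 0))) (T.l 1))) (T.l 1))) (T.l 1))) (T.l 1))) (T.l 1))) (T.l 1))) (T.l 1)))), by decide +kernel⟩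

def B102E_000_2_192_1 :
    ∃ t, chk3 (onCell 0 67108864 0 1073741824 469762048 67108864 (corT false 3 c0N cB102E gN0q1 gN0q2 gN0q0 gN1q0 true true)) t 2 192 1 = true :=
  ⟨(T.a (T.b (T.a (T.b (T.a (T.b (T.c (T.a (T.l 0) (T.b (T.l 1) (T.a (T.l 0) (T.l 1)))) (T.c (T.l 0) (T.l 0))) (T.l 0)) (T.a (T.b (T.l 1) (T.c (T.b (T.a (T.l 816) (T.l 1)) (T.l 0)) (T.l 0))) (T.l 1))) (T.c (T.c (T.a (T.l 0) (T.c (T.a (T.l 0) (T.c (T.a (T.l 0) (T.c (T.a (T.l 0) (T.b (T.b (T.l 1) (T.l 816)) (T.l 0))) (T.l 0))) (T.l 0))) (T.l 0))) (T.l 0)) (T.l 0))) (T.a (T.b (T.l 1) (T.b (T.a (T.a (T.c (T.b (T.l 1) (T.l 816)) (T.l 816)) (T.l 1)) (T.l 1)) (T.a (T.c (T.l 0) (T.l 0)) (T.b (T.l 1) (T.a (T.l 0) (T.l 1)))))) (T.l 1))) (T.a (T.l 0) (T.b (T.a (T.c (T.l 0) (T.l 0)) (T.b (T.a (T.c (T.b (T.a (T.l 816) (T.l 1)) (T.l 816)) (T.l 816)) (T.l 1)) (T.c (T.c (T.c (T.a (T.l 0)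 (T.a (T.l 816) (T.b (T.l 1) (T.l 816)))) (T.l 0)) (T.l 0)) (T.l 0)))) (T.l 0)))) (T.a (T.b (T.l 1) (T.b (T.a (T.a (T.a (T.a (T.b (T.l 1) (T.a (T.l 1) (T.l 1))) (T.l 1)) (T.l 1)) (T.l 1)) (T.l 1)) (T.a (T.c (T.a (T.l 0) (T.b (T.b (T.l 1) (T.a (T.l 816) (T.l 1))) (T.l 816))) (T.c (T.c (T.a (T.l 816) (T.a (T.l 816) (T.b (T.l 1) (T.l 816)))) (T.l 816)) (T.l 0))) (T.a (T.b (T.l 1) (T.c (T.b (T.a (T.l 1) (T.l 1)) (T.l 816)) (T.l 816))) (T.l 1))))) (T.l 1))), by decide +kernel⟩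

def B102E_000_2_193_1 :
    ∃ t, chk3 (onCell 0 67108864 0 1073741824 469762048 67108864 (corT false 3 c0N cB102E gN0q1 gN0q2 gN0q0 gN1q0 true true)) t 2 193 1 = true :=
  ⟨(T.a (T.c (T.l 0) (T.l 0)) (T.a (T.a (T.l 0) (T.c (T.a (T.l 0) (T.c (T.b (T.a (T.l 0) (T.b (T.a (T.l 816) (T.b (T.b (T.l 1) (T.l 816)) (T.l 816))) (T.l 0))) (T.l 0)) (T.l 0))) (T.l 0))) (T.b (T.b (T.a (T.b (T.a (T.a (T.l 1) (T.l 1)) (T.l 1)) (T.a (T.c (T.l 816) (T.l 816)) (T.a (T.c (T.b (T.l 1) (T.l 816)) (T.l 816)) (T.l 1)))) (T.l 1)) (T.a (T.c (T.l 0) (T.l 0)) (T.b (T.a (T.b (T.l 1) (T.c (T.c (T.l 816) (T.l 816)) (T.l 816))) (T.l 1)) (T.c (T.c (T.a (T.l 816) (T.a (T.l 816) (T.b (T.l 1) (T.l 816)))) (T.l 816)) (T.l 816))))) (T.c (T.l 0) (T.l 0))))), by decide +kernel⟩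

def B102E_000_3_96_1 :
    ∃ t, chk3 (onCell 0 67108864 0 1073741824 469762048 67108864 (corT false 3 c0N cB102E gN0q1 gN0q2 gN0q0 gN1q0 true true)) t 3 96 1 = true :=
  ⟨(T.a (T.b (T.l 1) (T.b (T.a (T.a (T.a (T.b (T.l 1) (T.a (T.l 1) (T.l 1))) (T.l 1)) (T.l 1)) (T.l 1)) (T.a (T.b (T.a (T.c (T.b (T.a (T.c (T.l 816) (T.l 816)) (T.b (T.l 1) (T.a (T.l 816) (T.l 1)))) (T.l 816)) (T.c (T.a (T.l 816) (T.a (T.l 816) (T.b (T.l 1) (T.l 816)))) (T.l 816))) (T.a (T.b (T.l 1) (T.b (T.l 1) (T.c (T.c (T.l 816) (T.l 816)) (T.l 816)))) (T.l 1))) (T.a (T.l 0) (T.c (T.a (T.l 816) (T.a (T.l 816) (T.b (T.b (T.l 1) (T.l 816)) (T.l 816)))) (T.l 816)))) (T.a (T.b (T.l 1) (T.b (T.a (T.l 1) (T.l 1)) (T.a (T.c (T.c (T.c (T.c (T.l 816) (T.l 816)) (T.l 816)) (T.l 816)) (T.l 816)) (T.a (T.c (T.b (T.l 1) (T.l 816)) (T.l 816)) (T.l 1))))) (T.l 1))))) (T.l 1)), by decide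 +kernel⟩

def B102E_000_1_97_1 :
    ∃ t, chk3 (onCell 0 67108864 0 1073741824 469762048 67108864 (corT false 3 c0N cB102E gN0q1 gN0q2 gN0q0 gN1q0 true true)) t 1 97 1 = true :=
  ⟨(T.a (T.c (T.a (T.l 204) (T.l 0)) (T.a (T.l 0) (T.l 0))) (T.a (T.b (T.a (T.l 0) (T.b (T.b (T.a (T.c (T.l 816) (T.l 816)) (T.b (T.a (T.b (T.l 1) (T.c (T.c (T.c (T.c (T.a (T.l 816) (T.a (T.l 816) (T.l 1))) (T.l 816)) (T.l 816)) (T.l 816)) (T.l 816))) (T.l 1)) (T.c (T.a (T.l 816) (T.a (T.l 816) (T.b (T.l 1) (T.l 816)))) (T.l 816)))) (T.c (T.l 0) (T.l 0))) (T.l 0))) (T.l 0)) (T.b (T.b (T.a (T.b (T.a (T.a (T.l 1) (T.l 1)) (T.l 1)) (T.a (T.c (T.b (T.a (T.c (T.c (T.c (T.a (T.l 816) (T.a (T.l 816) (T.b (T.l 1) (T.l 816)))) (T.l 816)) (T.l 816)) (T.l 816)) (T.a (T.b (T.l 1) (T.l 816)) (T.l 1))) (T.l 816)) (T.a (T.l 816) (T.b (T.b (T.l 1) (T.l 816)) (T.l 816)))) (T.a (T.b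 (T.l 1) (T.b (T.l 1) (T.c (T.c (T.c (T.a (T.l 816) (T.a (T.l 816) (T.l 1))) (T.l 816)) (T.l 816)) (T.l 816)))) (T.l 1)))) (T.l 1)) (T.a (T.a (T.l 0) (T.b (T.a (T.l 816) (T.c (T.b (T.b (T.a (T.c (T.l 816) (T.l 816)) (T.l 1)) (T.l 816)) (T.l 816)) (T.l 816))) (T.l 0))) (T.b (T.a (T.b (T.l 1) (T.a (T.c (T.c (T.c (T.a (T.l 816) (T.a (T.l 816) (T.b (T.l 1) (T.l 816)))) (T.l 816)) (T.l 816)) (T.l 816)) (T.a (T.b (T.l 1) (T.b (T.l 1) (T.l 816))) (T.l 1)))) (T.l 1)) (T.a (T.c (T.c (T.l 816) (T.l 816)) (T.l 816)) (T.b (T.a (T.b (T.l 1) (T.c (T.c (T.c (T.a (T.l 816) (T.a (T.l 816) (T.l 1))) (T.l 816)) (T.l 816)) (T.l 816))) (T.l 1)) (T.a (T.l 816) (T.c (T.b (T.a (T.c (T.l 816) (T.l 816)) (T.l 1)) (T.l 816)) (T.l 816)))))))) (T.c (T.a (T.l 0) (T.l 0)) (T.l 0))))), by decide +kernel⟩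

def B102E_000_1_49_1 :
    ∃ t, chk3 (onCell 0 67108864 0 1073741824 469762048 67108864 (corT false 3 c0N cB102E gN0q1 gN0q2 gN0q0 gN1q0 true true)) t 1 49 1 = true :=
  ⟨(T.a (T.c (T.l 204) (T.l 0)) (T.b (T.a (T.l 0) (T.l 0)) (T.l 0))), by decide +kernel⟩

def B102E_000_1_25_1 :
    ∃ t, chk3 (onCell 0 67108864 0 1073741824 469762048 67108864 (corT false 3 c0N cB102E gN0q1 gN0q2 gN0q0 gN1q0 true true)) t 1 25 1 = true :=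
  ⟨(T.a (T.b (T.l 204) (T.l 204)) (T.c (T.l 204) (T.l 0))), by decide +kernel⟩

def B102E_000_1_13_1 :
    ∃ t, chk3 (onCell 0 67108864 0 1073741824 469762048 67108864 (corT false 3 c0N cB102E gN0q1 gN0q2 gN0q0 gN1q0 true true)) t 1 13 1 = true :=
  ⟨(T.b (T.a (T.l 204) (T.l 204)) (T.a (T.l 204) (T.l 204))), by decide +kernel⟩

def B102E_000_1_7_1 :
    ∃ t, chk3 (onCell 0 67108864 0 1073741824 469762048 67108864 (corT false 3 c0N cB102E gN0q1 gN0q2 gN0q0 gN1q0 true true)) t 1 7 1 = true :=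
  ⟨(T.b (T.a (T.l 204) (T.l 204)) (T.l 2)), by decide +kernel⟩

theorem B102E_000_2_96_1 :
    ∃ t, chk3 (onCell 0 67108864 0 1073741824 469762048 67108864 (corT false 3 c0N cB102E gN0q1 gN0q2 gN0q0 gN1q0 true true)) t 2 96 1 = true :=
  ex3_b B102E_000_2_192_1 B102E_000_2_193_1
theorem B102E_000_1_96_1 :
    ∃ t, chk3 (onCell 0 67108864 0 1073741824 469762048 67108864 (corT false 3 c0N cB102E gN0q1 gN0q2 gN0q0 gN1q0 true true)) t 1 96 1 = true :=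
  ex3_a B102E_000_2_96_1 B102E_000_3_96_1
theorem B102E_000_1_48_1 :
    ∃ t, chk3 (onCell 0 67108864 0 1073741824 469762048 67108864 (corT false 3 c0N cB102E gN0q1 gN0q2 gN0q0 gN1q0 true true)) t 1 48 1 = true :=
  ex3_b B102E_000_1_96_1 B102E_000_1_97_1
theorem B102E_000_1_24_1 :
    ∃ t, chk3 (onCell 0 67108864 0 1073741824 469762048 67108864 (corT false 3 c0N cB102E gN0q1 gN0q2 gN0q0 gN1q0 true true)) t 1 24 1 = true :=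
  ex3_b B102E_000_1_48_1 B102E_000_1_49_1
theorem B102E_000_1_12_1 :
    ∃ t, chk3 (onCell 0 67108864 0 1073741824 469762048 67108864 (corT false 3 c0N cB102E gN0q1 gN0q2 gN0q0 gN1q0 true true)) t 1 12 1 = true :=
  ex3_b B102E_000_1_24_1 B102E_000_1_25_1
theorem B102E_000_1_6_1 :
    ∃ t, chk3 (onCell 0 67108864 0 1073741824 469762048 67108864 (corT false 3 c0N cB102E gN0q1 gN0q2 gN0q0 gN1q0 true true)) t 1 6 1 = true :=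
  ex3_b B102E_000_1_12_1 B102E_000_1_13_1
theorem B102E_000_1_3_1 :
    ∃ t, chk3 (onCell 0 67108864 0 1073741824 469762048 67108864 (corT false 3 c0N cB102E gN0q1 gN0q2 gN0q0 gN1q0 true true)) t 1 3 1 = true :=
  ex3_b B102E_000_1_6_1 B102E_000_1_7_1
theorem B102E_000 :
    ∃ t, chk3 (onCell 0 67108864 0 1073741824 469762048 67108864 (corT false 3 c0N cB102E gN0q1 gN0q2 gN0q0 gN1q0 true true)) t 1 1 1 = true :=
  ex3_b B102E_000_1_2_1 B102E_000_1_3_1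

def B102E_001 :
    ∃ t, chk3 (onCell 0 67108864 0 1073741824 469762048 67108864 (corT false 3 c0N cB102E gN0q1 gN0q2 gN1q0 gN2q0 true false)) t 1 1 1 = true :=
  ⟨(T.b (T.l 1) (T.b (T.b (T.l 1) (T.b (T.l 1) (T.b (T.l 1) (T.l 204)))) (T.a (T.b (T.l 204) (T.l 0)) (T.b (T.l 204) (T.l 0))))), by decide +kernel⟩

def B102E_010 :
    ∃ t, chk3 (onCell 0 67108864 0 1073741824 469762048 67108864 (corT false 3 c0N cB102E gN0q1 gN1q2 gN0q0 gN1q0 true true)) t 1 1 1 = true :=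
  ⟨(T.b (T.b (T.l 1) (T.b (T.b (T.l 1) (T.a (T.b (T.b (T.l 1) (T.b (T.a (T.b (T.l 1) (T.a (T.c (T.c (T.l 204) (T.l 204)) (T.a (T.l 220) (T.b (T.l 1) (T.l 204)))) (T.a (T.a (T.a (T.b (T.l 1) (T.c (T.l 204) (T.l 204))) (T.l 1)) (T.l 1)) (T.l 1)))) (T.l 1)) (T.a (T.c (T.l 204) (T.c (T.l 204) (T.a (T.l 204) (T.l 220)))) (T.b (T.a (T.b (T.l 1) (T.c (T.l 220) (T.c (T.l 220) (T.c (T.l 220) (T.a (T.l 204) (T.a (T.l 204) (T.l 1))))))) (T.l 1)) (T.c (T.c (T.l 220) (T.a (T.l 204) (T.a (T.l 204) (T.l 220)))) (T.a (T.l 204) (T.b (T.a (T.l 220) (T.l 1)) (T.l 220)))))))) (T.a (T.l 204) (T.c (T.l 220) (T.a (T.l 204) (T.l 204))))) (T.b (T.a (T.a (T.b (T.l 1) (T.a (T.b (T.l 1) (T.a (T.b (T.l 1) (T.a (T.b (T.l 1) (T.c (T.l 204) (T.l 220))) (T.l 1))) (T.l 1))) (T.l 1))) (T.l 1)) (T.l 1)) (T.a (T.a (T.b (T.c (T.l 220) (T.c (T.l 220) (T.a (T.l 204) (T.l 220))))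 (T.l 204)) (T.b (T.a (T.b (T.b (T.b (T.l 1) (T.c (T.l 204) (T.l 220))) (T.l 220)) (T.l 204)) (T.b (T.b (T.l 1) (T.c (T.l 220) (T.c (T.l 204) (T.l 220)))) (T.l 220))) (T.l 220))) (T.b (T.b (T.a (T.b (T.l 1) (T.c (T.c (T.l 204) (T.l 220)) (T.a (T.l 220) (T.c (T.l 204) (T.l 220))))) (T.l 1)) (T.a (T.c (T.l 204) (T.l 204)) (T.c (T.l 204) (T.l 220)))) (T.a (T.l 204) (T.l 204))))))) (T.a (T.b (T.l 204) (T.l 204)) (T.a (T.b (T.l 204) (T.l 204)) (T.b (T.a (T.b (T.l 204) (T.l 204)) (T.l 204)) (T.l 204)))))) (T.b (T.a (T.l 204) (T.b (T.b (T.l 0) (T.l 204)) (T.l 204))) (T.l 2))), by decide +kernel⟩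

def B102E_011 :
    ∃ t, chk3 (onCell 0 67108864 0 1073741824 469762048 67108864 (corT false 3 c0N cB102E gN0q1 gN1q2 gN1q0 gN2q0 true false)) t 1 1 1 = true :=
  ⟨(T.b (T.l 1) (T.a (T.b (T.b (T.l 1) (T.l 204)) (T.l 0)) (T.b (T.b (T.l 1) (T.l 204)) (T.b (T.l 204) (T.l 0))))), by decide +kernel⟩

def B102L_200 :
    ∃ t, chk3 (onCell 0 67108864 0 1073741824 469762048 67108864 (corT false 3 c0N cB102L gN2q1 gN0q2 gN0q0 gN1q0 true true)) t 1 1 1 = true :=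
  ⟨(T.b (T.a (T.l 204) (T.l 2)) (T.b (T.l 0) (T.l 0))), by decide +kernel⟩

def B102L_201 :
    ∃ t, chk3 (onCell 0 67108864 0 1073741824 469762048 67108864 (corT false 3 c0N cB102L gN2q1 gN0q2 gN1q0 gN2q0 true false)) t 1 1 1 = true :=
  ⟨(T.b (T.a (T.l 204) (T.b (T.l 204) (T.l 204))) (T.b (T.l 204) (T.l 1))), by decide +kernel⟩

def B102L_210 :
    ∃ t, chk3 (onCell 0 67108864 0 1073741824 469762048 67108864 (corT false 3 c0N cB102L gN2q1 gN1q2 gN0q0 gN1q0 true true)) t 1 1 1 = true :=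
  ⟨(T.b (T.b (T.b (T.a (T.a (T.l 204) (T.l 204)) (T.l 0)) (T.a (T.l 204) (T.l 0))) (T.a (T.l 204) (T.b (T.l 0) (T.l 0)))) (T.b (T.b (T.a (T.l 204) (T.l 0)) (T.l 0)) (T.l 0))), by decide +kernel⟩

def B102L_211 :
    ∃ t, chk3 (onCell 0 67108864 0 1073741824 469762048 67108864 (corT false 3 c0N cB102L gN2q1 gN1q2 gN1q0 gN2q0 true false)) t 1 1 1 = true :=
  ⟨(T.b (T.b (T.a (T.a (T.l 204) (T.b (T.l 204) (T.l 204))) (T.b (T.l 204) (T.l 0))) (T.a (T.l 1) (T.l 1))) (T.l 1)), by decide +kernel⟩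

def B102L_300 :
    ∃ t, chk3 (onCell 0 67108864 0 1073741824 469762048 67108864 (corT false 3 c0N cB102L gN3q1 gN0q2 gN0q0 gN1q0 true true)) t 1 1 1 = true :=
  ⟨(T.b (T.b (T.l 2) (T.l 2)) (T.b (T.l 204) (T.l 0))), by decide +kernel⟩

def B102L_301 :
    ∃ t, chk3 (onCell 0 67108864 0 1073741824 469762048 67108864 (corT false 3 c0N cB102L gN3q1 gN0q2 gN1q0 gN2q0 true false)) t 1 1 1 = true :=
  ⟨(T.b (T.a (T.l 204) (T.b (T.l 204) (T.l 204))) (T.b (T.l 204) (T.l 1))), by decide +kernel⟩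

def B102L_310 :
    ∃ t, chk3 (onCell 0 67108864 0 1073741824 469762048 67108864 (corT false 3 c0N cB102L gN3q1 gN1q2 gN0q0 gN1q0 true true)) t 1 1 1 = true :=
  ⟨(T.b (T.b (T.a (T.a (T.l 204) (T.b (T.l 204) (T.l 204))) (T.b (T.l 2) (T.l 0))) (T.a (T.l 204) (T.b (T.l 0) (T.l 0)))) (T.b (T.b (T.a (T.l 204) (T.l 0)) (T.l 204)) (T.l 0))), by decide +kernel⟩

def B102L_311 :
    ∃ t, chk3 (onCell 0 67108864 0 1073741824 469762048 67108864 (corT false 3 c0N cB102L gN3q1 gN1q2 gN1q0 gN2q0 true false)) t 1 1 1 = true :=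
  ⟨(T.b (T.b (T.a (T.a (T.l 204) (T.b (T.l 204) (T.l 204))) (T.b (T.l 204) (T.l 0))) (T.a (T.l 1) (T.b (T.l 0) (T.l 1)))) (T.l 1)), by decide +kernel⟩

def B102L_400 :
    ∃ t, chk3 (onCell 0 67108864 0 1073741824 469762048 67108864 (corT false 3 c0N cB102L gN4q1 gN0q2 gN0q0 gN1q0 true true)) t 1 1 1 = true :=
  ⟨(T.b (T.l 2) (T.l 0)), by decide +kernel⟩

def B102L_401 :
    ∃ t, chk3 (onCell 0 67108864 0 1073741824 469762048 67108864 (corT false 3 c0N cB102L gN4q1 gN0q2 gN1q0 gN2q0 true false)) t 1 1 1 = true :=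
  ⟨(T.b (T.a (T.l 204) (T.b (T.l 204) (T.l 204))) (T.b (T.l 204) (T.l 204))), by decide +kernel⟩

def B102L_410 :
    ∃ t, chk3 (onCell 0 67108864 0 1073741824 469762048 67108864 (corT false 3 c0N cB102L gN4q1 gN1q2 gN0q0 gN1q0 true true)) t 1 1 1 = true :=
  ⟨(T.b (T.b (T.a (T.a (T.l 204) (T.b (T.l 2) (T.l 204))) (T.b (T.l 2) (T.l 2))) (T.a (T.l 204) (T.b (T.l 0) (T.l 0)))) (T.b (T.a (T.l 204) (T.b (T.l 0) (T.l 204))) (T.l 204))), by decide +kernel⟩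

def B102L_411 :
    ∃ t, chk3 (onCell 0 67108864 0 1073741824 469762048 67108864 (corT false 3 c0N cB102L gN4q1 gN1q2 gN1q0 gN2q0 true false)) t 1 1 1 = true :=
  ⟨(T.b (T.b (T.a (T.a (T.l 204) (T.b (T.l 204) (T.l 204))) (T.b (T.l 204) (T.l 0))) (T.a (T.l 204) (T.b (T.l 0) (T.l 0)))) (T.b (T.l 1) (T.l 1))), by decide +kernel⟩

def B102R_040 :
    ∃ t, chk3 (onCell 0 67108864 0 1073741824 469762048 67108864 (corT false 3 c0N cB102R gN0q1 gN4q2 gN0q0 gN1q0 true true)) t 1 1 1 = true :=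
  ⟨(T.l 1), by decide +kernel⟩

def B102R_041 :
    ∃ t, chk3 (onCell 0 67108864 0 1073741824 469762048 67108864 (corT false 3 c0N cB102R gN0q1 gN4q2 gN1q0 gN2q0 true false)) t 1 1 1 = true :=
  ⟨(T.l 1), by decide +kernel⟩

def B202E_000 :
    ∃ t, chk3 (onCell 0 67108864 0 1073741824 469762048 67108864 (corT false 3 c0N cB202E gN0q2 gN0q2 gN0q0 gN1q0 true true)) t 1 1 1 = true :=
  ⟨(T.l 1), by decide +kernel⟩

def B202E_001 :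
    ∃ t, chk3 (onCell 0 67108864 0 1073741824 469762048 67108864 (corT false 3 c0N cB202E gN0q2 gN0q2 gN1q0 gN2q0 true false)) t 1 1 1 = true :=
  ⟨(T.l 1), by decide +kernel⟩

def B202E_010 :
    ∃ t, chk3 (onCell 0 67108864 0 1073741824 469762048 67108864 (corT false 3 c0N cB202E gN0q2 gN1q2 gN0q0 gN1q0 true true)) t 1 1 1 = true :=
  ⟨(T.l 1), by decide +kernel⟩

def B202E_011 :
    ∃ t, chk3 (onCell 0 67108864 0 1073741824 469762048 67108864 (corT false 3 c0N cB202E gN0q2 gN1q2 gN1q0 gN2q0 true false)) t 1 1 1 = true :=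
  ⟨(T.l 1), by decide +kernel⟩

def B202E_100 :
    ∃ t, chk3 (onCell 0 67108864 0 1073741824 469762048 67108864 (corT false 3 c0N cB202E gN1q2 gN0q2 gN0q0 gN1q0 true true)) t 1 1 1 = true :=
  ⟨(T.l 1), by decide +kernel⟩

def B202E_101 :
    ∃ t, chk3 (onCell 0 67108864 0 1073741824 469762048 67108864 (corT false 3 c0N cB202E gN1q2 gN0q2 gN1q0 gN2q0 true false)) t 1 1 1 = true :=
  ⟨(T.l 1), by decide +kernel⟩

def B202E_110 :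
    ∃ t, chk3 (onCell 0 67108864 0 1073741824 469762048 67108864 (corT false 3 c0N cB202E gN1q2 gN1q2 gN0q0 gN1q0 true true)) t 1 1 1 = true :=
  ⟨(T.l 1), by decide +kernel⟩

def B202E_111 :
    ∃ t, chk3 (onCell 0 67108864 0 1073741824 469762048 67108864 (corT false 3 c0N cB202E gN1q2 gN1q2 gN1q0 gN2q0 true false)) t 1 1 1 = true :=
  ⟨(T.l 1), by decide +kernel⟩

def B202L_400 :
    ∃ t, chk3 (onCell 0 67108864 0 1073741824 469762048 67108864 (corT false 3 c0N cB202L gN4q2 gN0q2 gN0q0 gN1q0 true true)) t 1 1 1 = true :=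
  ⟨(T.l 2), by decide +kernel⟩

def B202L_401 :
    ∃ t, chk3 (onCell 0 67108864 0 1073741824 469762048 67108864 (corT false 3 c0N cB202L gN4q2 gN0q2 gN1q0 gN2q0 true false)) t 1 1 1 = true :=
  ⟨(T.a (T.l 0) (T.b (T.l 0) (T.l 0))), by decide +kernel⟩

def B202L_410 :
    ∃ t, chk3 (onCell 0 67108864 0 1073741824 469762048 67108864 (corT false 3 c0N cB202L gN4q2 gN1q2 gN0q0 gN1q0 true true)) t 1 1 1 = true :=
  ⟨(T.b (T.a (T.a (T.l 204) (T.l 2)) (T.l 2)) (T.l 2)), by decide +kernel⟩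

def B202L_411 :
    ∃ t, chk3 (onCell 0 67108864 0 1073741824 469762048 67108864 (corT false 3 c0N cB202L gN4q2 gN1q2 gN1q0 gN2q0 true false)) t 1 1 1 = true :=
  ⟨(T.a (T.a (T.l 0) (T.l 0)) (T.b (T.l 0) (T.l 0))), by decide +kernel⟩

def B202R_040_1_4_1 :
    ∃ t, chk3 (onCell 0 67108864 0 1073741824 469762048 67108864 (corT false 3 c0N cB202R gN0q2 gN4q2 gN0q0 gN1q0 true true)) t 1 4 1 = true :=
  ⟨(T.l 1), by decide +kernel⟩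

def B202R_040_1_20_1 :
    ∃ t, chk3 (onCell 0 67108864 0 1073741824 469762048 67108864 (corT false 3 c0N cB202R gN0q2 gN4q2 gN0q0 gN1q0 true true)) t 1 20 1 = true :=
  ⟨(T.l 1), by decide +kernel⟩

def B202R_040_1_84_1 :
    ∃ t, chk3 (onCell 0 67108864 0 1073741824 469762048 67108864 (corT false 3 c0N cB202R gN0q2 gN4q2 gN0q0 gN1q0 true true)) t 1 84 1 = true :=
  ⟨(T.a (T.l 1) (T.b (T.l 1) (T.b (T.l 1) (T.b (T.l 1) (T.a (T.a (T.l 1) (T.a (T.l 1) (T.a (T.l 1) (T.a (T.l 1) (T.b (T.l 1) (T.b (T.l 1) (T.c (T.l 816) (T.l 0)))))))) (T.a (T.b (T.a (T.l 1) (T.a (T.l 1) (T.a (T.l 1) (T.a (T.l 1) (T.a (T.l 1) (T.b (T.l 1) (T.c (T.l 816) (T.l 0)))))))) (T.c (T.a (T.b (T.a (T.l 1) (T.a (T.l 1) (T.l 816))) (T.l 816)) (T.l 0)) (T.c (T.a (T.c (T.l 816) (T.l 816)) (T.l 0)) (T.l 0)))) (T.b (T.c (T.a (T.b (T.l 1) (T.l 816)) (T.l 816)) (T.c (T.a (T.b (T.l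 1) (T.l 816)) (T.l 0)) (T.l 0))) (T.l 0)))))))), by decide +kernel⟩

def B202R_040_1_85_1 :
    ∃ t, chk3 (onCell 0 67108864 0 1073741824 469762048 67108864 (corT false 3 c0N cB202R gN0q2 gN4q2 gN0q0 gN1q0 true true)) t 1 85 1 = true :=
  ⟨(T.b (T.a (T.b (T.a (T.a (T.l 1) (T.b (T.l 1) (T.b (T.l 1) (T.b (T.l 1) (T.a (T.a (T.l 1) (T.c (T.b (T.l 1) (T.l 0)) (T.l 0))) (T.c (T.l 0) (T.l 0))))))) (T.b (T.a (T.l 1) (T.a (T.l 1) (T.b (T.l 1) (T.b (T.l 1) (T.c (T.c (T.a (T.a (T.l 1) (T.l 816)) (T.l 816)) (T.l 816)) (T.l 0)))))) (T.a (T.b (T.a (T.l 1) (T.b (T.l 1) (T.c (T.c (T.c (T.a (T.l 816) (T.l 816)) (T.l 816)) (T.l 816)) (T.l 0)))) (T.c (T.c (T.a (T.l 0) (T.l 0)) (T.l 0)) (T.l 0))) (T.c (T.c (T.a (T.c (T.a (T.a (T.b (T.b (T.l 1) (T.l 816)) (T.l 0)) (T.l 0)) (T.l 0)) (T.l 0)) (T.l 0)) (T.l 0)) (T.l 0))))) (T.a (T.b (T.a (T.b (T.a (T.a (T.l 1) (T.b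 (T.l 1) (T.c (T.b (T.l 1) (T.l 0)) (T.l 0)))) (T.b (T.a (T.l 1) (T.c (T.b (T.l 1) (T.l 0)) (T.l 0))) (T.c (T.l 0) (T.l 0)))) (T.c (T.l 0) (T.l 0))) (T.c (T.c (T.l 0) (T.l 0)) (T.l 0))) (T.l 0)) (T.c (T.l 0) (T.l 0)))) (T.a (T.b (T.b (T.a (T.b (T.a (T.l 1) (T.a (T.l 1) (T.b (T.l 1) (T.b (T.l 1) (T.l 0))))) (T.c (T.a (T.b (T.a (T.l 1) (T.l 816)) (T.l 0)) (T.l 0)) (T.l 0))) (T.b (T.c (T.a (T.b (T.a (T.l 1) (T.c (T.l 816) (T.l 816))) (T.l 816)) (T.l 0)) (T.c (T.l 0) (T.l 0))) (T.l 0))) (T.c (T.l 0) (T.l 0))) (T.l 0)) (T.c (T.l 0) (T.l 0)))) (T.a (T.a (T.l 0) (T.l 0)) (T.l 0))), by decide +kernel⟩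

def B202R_040_1_43_1 :
    ∃ t, chk3 (onCell 0 67108864 0 1073741824 469762048 67108864 (corT false 3 c0N cB202R gN0q2 gN4q2 gN0q0 gN1q0 true true)) t 1 43 1 = true :=
  ⟨(T.a (T.a (T.l 0) (T.l 0)) (T.l 0)), by decide +kernel⟩

def B202R_040_1_11_1 :
    ∃ t, chk3 (onCell 0 67108864 0 1073741824 469762048 67108864 (corT false 3 c0N cB202R gN0q2 gN4q2 gN0q0 gN1q0 true true)) t 1 11 1 = true :=
  ⟨(T.b (T.l 0) (T.l 0)), by decide +kernel⟩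

def B202R_040_1_3_1 :
    ∃ t, chk3 (onCell 0 67108864 0 1073741824 469762048 67108864 (corT false 3 c0N cB202R gN0q2 gN4q2 gN0q0 gN1q0 true true)) t 1 3 1 = true :=
  ⟨(T.b (T.b (T.l 0) (T.l 2)) (T.l 2)), by decide +kernel⟩

theorem B202R_040_1_42_1 :
    ∃ t, chk3 (onCell 0 67108864 0 1073741824 469762048 67108864 (corT false 3 c0N cB202R gN0q2 gN4q2 gN0q0 gN1q0 true true)) t 1 42 1 = true :=
  ex3_b B202R_040_1_84_1 B202R_040_1_85_1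
theorem B202R_040_1_21_1 :
    ∃ t, chk3 (onCell 0 67108864 0 1073741824 469762048 67108864 (corT false 3 c0N cB202R gN0q2 gN4q2 gN0q0 gN1q0 true true)) t 1 21 1 = true :=
  ex3_b B202R_040_1_42_1 B202R_040_1_43_1
theorem B202R_040_1_10_1 :
    ∃ t, chk3 (onCell 0 67108864 0 1073741824 469762048 67108864 (corT false 3 c0N cB202R gN0q2 gN4q2 gN0q0 gN1q0 true true)) t 1 10 1 = true :=
  ex3_b B202R_040_1_20_1 B202R_040_1_21_1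
theorem B202R_040_1_5_1 :
    ∃ t, chk3 (onCell 0 67108864 0 1073741824 469762048 67108864 (corT false 3 c0N cB202R gN0q2 gN4q2 gN0q0 gN1q0 true true)) t 1 5 1 = true :=
  ex3_b B202R_040_1_10_1 B202R_040_1_11_1
theorem B202R_040_1_2_1 :
    ∃ t, chk3 (onCell 0 67108864 0 1073741824 469762048 67108864 (corT false 3 c0N cB202R gN0q2 gN4q2 gN0q0 gN1q0 true true)) t 1 2 1 = true :=
  ex3_b B202R_040_1_4_1 B202R_040_1_5_1
theorem B202R_040 :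
    ∃ t, chk3 (onCell 0 67108864 0 1073741824 469762048 67108864 (corT false 3 c0N cB202R gN0q2 gN4q2 gN0q0 gN1q0 true true)) t 1 1 1 = true :=
  ex3_b B202R_040_1_2_1 B202R_040_1_3_1

def B202R_041 :
    ∃ t, chk3 (onCell 0 67108864 0 1073741824 469762048 67108864 (corT false 3 c0N cB202R gN0q2 gN4q2 gN1q0 gN2q0 true false)) t 1 1 1 = true :=
  ⟨(T.b (T.l 1) (T.a (T.b (T.b (T.l 0) (T.l 0)) (T.l 0)) (T.b (T.b (T.l 0) (T.l 0)) (T.b (T.l 0) (T.l 0))))), by decide +kernel⟩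

def B202R_140 :
    ∃ t, chk3 (onCell 0 67108864 0 1073741824 469762048 67108864 (corT false 3 c0N cB202R gN1q2 gN4q2 gN0q0 gN1q0 true true)) t 1 1 1 = true :=
  ⟨(T.b (T.l 1) (T.b (T.b (T.l 1) (T.a (T.l 816) (T.a (T.a (T.l 816) (T.b (T.l 816) (T.l 0))) (T.b (T.l 0) (T.l 0))))) (T.b (T.a (T.l 816) (T.a (T.l 0) (T.l 0))) (T.l 2)))), by decide +kernel⟩

def B202R_141 :
    ∃ t, chk3 (onCell 0 67108864 0 1073741824 469762048 67108864 (corT false 3 c0N cB202R gN1q2 gN4q2 gN1q0 gN2q0 true false)) t 1 1 1 = true :=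
  ⟨(T.b (T.l 1) (T.b (T.l 1) (T.b (T.a (T.l 0) (T.a (T.l 0) (T.l 0))) (T.a (T.a (T.l 816) (T.b (T.l 816) (T.l 0))) (T.b (T.l 0) (T.l 0)))))), by decide +kernel⟩

end Pool.Agent.Strip051.G.I7_16_1_2.Tab.CN
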