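import Pool.Agent.Strip051.G.I7_16_1_2.Tab

/-! # Certificates N1 (generated) -/

set_option linter.all false
set_option maxRecDepth 100000

namespace Pool.Agent.Strip051.G.I7_16_1_2.Tab.C.NA00

open Pool.Agent.Strip051.PB Pool.Agent.Strip051.PB.T
open Pool.Agent.Strip051.G.I7_16_1_2.Tab

noncomputable def cut_pm_012 : Cut := Cut.of [[⟨0, 0, 0, 67108864⟩, ⟨1, 1, 0, 67108864⟩, ⟨2, 1, 0, 67108864⟩], [⟨0, 0, 1, 33554432⟩, ⟨1, 1, 0, 33554432⟩, ⟨2, 1, 1, 33554432⟩]]

noncomputable def f_pm_012 : ℕ → ℕ → ℕ → ℕ → Bool := onCell 1073741824 536870912 536870912 536870912 469762048 67108864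
    (rowN 3 2 true true false .pnp 0 1 2 (qsf 0 536870912 536870912 536870912 2) ndN0q0 ndN0q1 pcN2 cut_pm_012 Ext.none)

def k0_pm_012 : ∃ t, chk3 f_pm_012 t 4 2 1 = true :=
  ⟨(b (l 3) (l 3)), by decide +kernel⟩

def k1_pm_012 : ∃ t, chk3 f_pm_012 t 5 4 1 = true :=
  ⟨(a (a (a (l 3) (l 2)) (l 2)) (l 2)), by decide +kernel⟩

def k2_pm_012 : ∃ t, chk3 f_pm_012 t 20 5 1 = true :=
  ⟨(a (b (l 3) (b (l 3) (a (l 3) (b (a (l 3) (b (l 195051922471) (l 175187734311))) (a (b (l 3) (l 179482694855)) (c (b (l 16787520) (l 16787536)) (b (l 16783712) (l 16782656)))))))) (a (b (b (l 3) (a (l 3) (b (l 3) (a (l 3) (b (l 192367605447) (l 138143644423)))))) (b (b (a (l 3) (a (b (l 187535765287) (l 16786864)) (b (l 16788448) (l 16790392)))) (a (b (l 176798360839) (c (l 134922428839) (l 134922429399))) (b (a (l 16788848) (l 16792968)) (l 16780520)))) (a (b (b (a (l 16786040) (l 16789064)) (l 16786992)) (b (l 16784072) (l 16781168))) (c (b (l 16789672) (l 16780432)) (b (l 16783256) (l 16795224)))))) (a (a (b (b (l 3) (b (b (l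 194515088999) (l 139754261783)) (b (l 135459295015) (l 16790064)))) (b (b (b (l 16791928) (l 16794944)) (l 16791400)) (b (l 16783448) (l 16793120)))) (b (b (b (l 2) (b (l 2) (a (l 196662568119) (l 16790032)))) (b (b (c (l 16802248) (l 144049219575)) (a (l 16789968) (l 16791096))) (b (l 16791592) (l 16793344)))) (b (b (l 16785408) (l 16790208)) (b (l 16781016) (l 16789488))))) (b (a (b (b (l 2) (b (l 2) (a (l 16790832) (l 29091740151)))) (a (b (b (l 16791336) (l 16792208)) (l 16794696)) (a (b (l 16792400) (l 16795824)) (b (l 16792832) (l 16796568))))) (b (b (l 2) (a (a (a (l 16791680) (l 16791832)) (l 16792072)) (l 16792568))) (b (a (a (a (l 16793168) (l 16793400)) (l 16793760)) (l 16794520)) (b (l 16797024) (l 16798160))))) (b (a (a (b (l 16795512) (l 16788976)) (b (l 16795048) (l 16788008))) (b (l 16794168) (l 16786408))) (a (b (a (l 16778960) (l 16777488)) (a (l 16765608) (l 16784592))) (b (l 16796104) (l 16781536)))))))), by decide +kernel⟩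

def k3_pm_012 : ∃ t, chk3 f_pm_012 t 21 5 1 = true :=
  ⟨(a (b (b (a (b (l 2) (l 16785888)) (l 2)) (a (b (l 16800560) (l 16797160)) (b (l 16798064) (l 16790296)))) (b (b (a (l 16790024) (l 16779936)) (l 16815616)) (b (l 16800248) (l 16760968)))) (b (b (l 2) (b (l 16784800) (l 16772824))) (b (b (l 16757832) (l 16739552)) (b (l 16733472) (l 16739912))))), by decide +kernel⟩

def k4_pm_012 : ∃ t, chk3 f_pm_012 t 11 5 1 = true :=
  ⟨(b (a (b (l 2) (b (l 2) (l 16761856))) (l 2)) (b (b (a (l 16752576) (l 2)) (a (l 16737560) (l 16749344))) (a (a (l 16783296) (l 16765752)) (b (l 16750336) (l 16750664))))), by decide +kernel⟩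

def k5_pm_012 : ∃ t, chk3 f_pm_012 t 8 6 1 = true :=
  ⟨(l 3), by decide +kernel⟩

def k6_pm_012 : ∃ t, chk3 f_pm_012 t 18 6 1 = true :=
  ⟨(b (l 3) (a (l 3) (b (l 3) (b (l 3) (a (l 3) (a (l 3) (b (l 3) (b (a (l 3) (a (b (l 3) (c (c (a (l 138680472663) (l 107541958887)) (a (l 139217342135) (l 107005086503))) (l 148344151479))) (c (b (c (a (l 137069860119) (l 105931346343)) (l 120963732023)) (c (l 16780312) (l 16779432))) (b (l 146196667607) (l 16778240))))) (b (a (a (l 3) (c (c (a (l 140291085223) (l 108078829463)) (a (l 140827954727) (l 108078828023))) (c (l 122574339431) (l 123111209383)))) (c (c (l 56539220951) (l 16779056)) (l 16777856))) (a (c (a (a (b (l 3) (l 127943055239)) (b (l 127943055303) (l 16779792))) (c (l 16780128) (l 16779280))) (a (c (l 123648081159) (l 123648080231)) (l 16778152))) (c (l 16778520) (l 16776816)))))))))))), by decide +kernel⟩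

def k7_pm_012 : ∃ t, chk3 f_pm_012 t 19 12 1 = true :=
  ⟨(a (l 3) (b (l 3) (a (b (l 3) (a (l 3) (a (l 3) (b (l 3) (c (l 163376557463) (l 161229047975)))))) (b (a (l 3) (c (b (l 163913429367) (a (l 146733540119) (l 107541975895))) (b (l 163376552679) (a (l 180019542711) (l 16780872))))) (a (b (a (l 3) (b (l 153175987975) (l 153176004183))) (a (c (b (l 151028526823) (l 16782992)) (l 122037488007)) (c (l 16782808) (l 16779672)))) (a (b (b (l 107005104551) (l 16781528)) (l 16790016)) (b (l 16780720) (l 16777192)))))))), by decide +kernel⟩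

def k8_pm_012 : ∃ t, chk3 f_pm_012 t 38 26 1 = true :=
  ⟨(a (l 3) (b (l 3) (a (b (l 3) (a (l 3) (b (l 3) (c (a (l 3) (b (l 156934084391) (l 106468218743))) (l 175187691735))))) (b (a (l 3) (b (l 3) (c (a (l 131701152279) (l 95730798439)) (l 138143609607)))) (a (b (c (a (l 158007826103) (b (l 144586058295) (l 16781384))) (l 163376532743)) (c (c (l 75866572375) (l 16775328)) (l 72645344455))) (b (c (l 65666027415) (l 16778880)) (c (l 16779768) (l 16777280)))))))), by decide +kernel⟩

def k9_pm_012 : ∃ t, chk3 f_pm_012 t 76 27 1 = true :=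
  ⟨(b (a (b (l 3) (a (l 3) (b (l 3) (a (l 3) (c (l 171429607943) (l 176261432311)))))) (b (a (l 3) (b (l 3) (a (l 3) (c (b (l 3) (l 143512311399)) (l 145122920167))))) (a (b (a (l 3) (c (l 163913415495) (l 167671498007))) (c (a (b (l 158544696023) (c (l 104857604151) (l 103783860759))) (c (b (l 100562637079) (l 16780832)) (l 84993376695))) (a (b (l 161229047447) (l 103246988311)) (c (l 16776472) (l 16778256))))) (b (c (a (b (l 148881020167) (l 95730799063)) (c (l 78550928359) (l 16780128))) (a (l 140827961783) (l 16778696))) (c (l 16782272) (l 16777608)))))) (a (b (a (b (l 3) (b (a (l 3) (c (a (l 131164279783) (l 100562637863)) (l 114521276471))) (c (a (c (a (l 134385505767) (l 103246991975)) (l 117742503431)) (l 16780024)) (a (l 117742501671) (l 16778320))))) (b (c (a (b (l 3) (a (l 128479926807) (l 93583316263))) (b (c (l 108615700295) (l 108078827719)) (l 16780168))) (a (b (l 3) (l 111300051271)) (c (l 90362083399) (l 89825211399)))) (c (c (l 16779928) (l 16778912)) (l 16778872)))) (c (b (a (c (b (l 16780160)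 (l 16779232)) (l 16778776)) (l 16777088)) (c (l 16776080) (l 16775064))) (a (b (c (l 16777896) (l 16777096)) (l 16775048)) (b (l 16775192) (l 16772336))))) (c (b (a (b (c (l 16780088) (l 16779024)) (l 16777272)) (c (l 16776664) (l 16775512))) (b (l 16783528) (l 16780360))) (b (b (c (l 16777016) (l 16776096)) (l 16784456)) (b (l 16781544) (l 16778456)))))), by decide +kernel⟩

def k10_pm_012 : ∃ t, chk3 f_pm_012 t 77 27 1 = true :=
  ⟨(b (a (b (a (b (c (c (l 155860358583) (l 157470974567)) (l 185925109287)) (c (a (b (l 126869313543) (l 16780832)) (l 67276640903)) (a (c (l 104857598599) (l 103783855383)) (l 16778712)))) (c (b (a (c (l 96804538935) (l 95730795559)) (l 16780872)) (l 16779776)) (b (c (l 82309018935) (l 16773232)) (l 16777520)))) (c (b (c (l 16779360) (l 16778144)) (l 16786736)) (b (c (l 16777024) (l 16776016)) (l 16774008)))) (b (b (c (l 16784000) (l 16776304)) (a (l 16786816) (l 16773632))) (c (c (l 16772736) (l 16771408)) (l 16785400)))) (a (b (c (c (l 16782976) (l 16781768)) (b (l 16781688) (l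 16789168))) (b (l 16781752) (l 16778488))) (c (b (l 16786768) (l 16780160)) (b (l 16784568) (l 16757216))))), by decide +kernel⟩

def k11_pm_012 : ∃ t, chk3 f_pm_012 t 39 13 1 = true :=
  ⟨(b (a (b (a (b (l 3) (a (b (l 3) (c (l 159081568471) (l 158544693415))) (b (c (l 145659817607) (l 176261443031)) (c (c (l 87677733127) (l 16781432)) (l 16776984))))) (b (a (b (l 3) (c (l 130090556423) (l 126869305255))) (b (c (l 104320731495) (l 16774784)) (c (l 16782344) (l 16779512)))) (c (a (b (l 16782264) (l 16781232)) (l 16780256)) (a (l 60297313031) (l 16777264))))) (a (c (b (a (b (a (l 116131894679) (l 16781864)) (l 16781296)) (l 16780528)) (c (l 16778200) (l 16776720))) (b (a (b (l 127943060375) (l 16778784)) (l 16777824)) (c (l 16775368) (l 16774152)))) (b (c (l 16787608) (l 16784664)) (c (l 16792760) (l 16789904))))) (b (b (a (c (c (l 16781728) (l 16779992)) (l 16777656)) (c (l 16775904) (l 16772400))) (a (c (l 16776608) (l 16773392)) (l 16789856))) (b (a (c (l 16771328) (l 16789192)) (l 16784176)) (c (l 16783152)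 (l 16780184))))) (c (a (b (a (b (l 16793000) (l 16786880)) (b (l 16786776) (l 16759448))) (b (c (l 16777832) (l 16776544)) (l 16770464))) (b (b (l 16776848) (l 16770360)) (b (l 16763736) (l 16760744)))) (b (a (b (c (l 16785280) (l 16786736)) (c (l 16781792) (l 16780744))) (a (l 16774384) (l 16768264))) (a (b (l 16774952) (l 16770536)) (l 16759568))))), by decide +kernel⟩

def k12_pm_012 : ∃ t, chk3 f_pm_012 t 16 14 1 = true :=
  ⟨(l 3), by decide +kernel⟩

def k13_pm_012 : ∃ t, chk3 f_pm_012 t 17 28 1 = true :=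
  ⟨(l 3), by decide +kernel⟩

def k14_pm_012 : ∃ t, chk3 f_pm_012 t 34 29 1 = true :=
  ⟨(l 3), by decide +kernel⟩

def k15_pm_012 : ∃ t, chk3 f_pm_012 t 35 58 1 = true :=
  ⟨(l 3), by decide +kernel⟩

def k16_pm_012 : ∃ t, chk3 f_pm_012 t 70 59 1 = true :=
  ⟨(b (l 3) (a (l 3) (b (l 3) (a (b (l 3) (a (l 3) (a (l 3) (a (l 3) (b (l 3) (b (l 3) (c (c (l 159618436583) (l 161765919927)) (l 161229049719)))))))) (b (a (l 3) (a (b (l 3) (b (l 3) (c (c (a (l 169818981831) (l 139217342023)) (a (l 174113948615) (l 140291083351))) (c (l 165524016247) (l 153175982823))))) (c (c (b (l 193441302231) (b (a (l 160155307447) (l 74255958903)) (l 16777920))) (b (l 198810010791) (a (b (l 162302790775) (l 16777744)) (l 61907926695)))) (b (l 205789334535) (c (c (l 77477185079) (l 77477184855)) (l 76403443271)))))) (a (c (b (a (l 3) (b (c (l 182703883719) (l 186998850503)) (a (c (l 149954760295) (l 152102243479)) (c (l 16778008) (l 16777752))))) (a (c (b (a (l 161765918087) (b (l 130090534183) (l 16778016))) (c (l 64592281543) (l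 64592281271))) (b (a (l 165524013975) (l 108078828263)) (l 65129151975))) (c (l 16777656) (l 16777384)))) (b (a (l 3) (b (l 192367561575) (c (l 110763181655) (l 112910664983)))) (a (b (c (l 140827952295) (l 141901694567)) (l 58686702503)) (l 16778352)))) (b (a (c (c (c (b (a (l 83382763863) (l 16777992)) (l 16777776)) (l 53854862583)) (l 53317994391)) (c (l 16777368) (l 16777152))) (c (l 16777216) (l 16776712))) (c (c (l 16776776) (l 16776504)) (l 16778768))))))))), by decide +kernel⟩

def k17_pm_012 : ∃ t, chk3 f_pm_012 t 142 118 1 = true :=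
  ⟨(b (l 3) (a (l 3) (b (l 3) (b (l 3) (a (l 3) (c (c (a (l 185388241207) (b (a (l 156934080199) (l 90898957351)) (l 66739766023))) (a (l 189683205271) (b (l 151028502727) (l 16777864)))) (a (b (l 3) (l 184851371479)) (c (b (l 153175985863) (l 16777584)) (l 112910665367))))))))), by decide +kernel⟩

def k18_pm_012 : ∃ t, chk3 f_pm_012 t 143 236 1 = true :=
  ⟨(a (l 3) (b (a (l 3) (c (c (b (l 185388244423) (a (l 183777628663) (b (a (l 151028501767) (l 87140861783)) (l 16777688)))) (b (l 205789333079) (a (l 187535721735) (b (l 149417889623) (l 16777992))))) (b (l 212768653943) (a (l 192904432567) (b (a (l 156934080055) (l 16777600)) (l 16777520)))))) (c (b (a (a (l 3) (b (l 176261438151) (c (a (l 155323469303) (l 89825216135)) (l 152102244263)))) (c (a (b (a (l 122574341863) (l 16778344)) (l 16778224)) (l 16777944)) (c (a (b (l 84993376423) (l 16777952)) (l 16777664)) (l 57076086903)))) (a (a (a (b (l 3) (c (l 125258696343) (l 126332437447))) (b (c (l 140291082535) (l 141901694407)) (l 66739767751))) (c (c (l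 59760443911) (l 16778112)) (l 16777856))) (l 16779904))) (b (a (a (l 3) (c (l 173040211767) (l 175724565799))) (c (l 56539219767) (l 16777184))) (a (a (b (l 183777624471) (c (l 84993375623) (l 83919633255))) (c (l 16777536) (l 16777256))) (l 16776616)))))), by decide +kernel⟩

def k19_pm_012 : ∃ t, chk3 f_pm_012 t 143 237 1 = true :=
  ⟨(a (b (a (a (l 3) (b (l 3) (b (l 3) (c (c (a (l 157470951175) (l 91972699415)) (l 152639115335)) (c (l 154249727719) (l 120963724791)))))) (c (c (b (a (l 186461980503) (b (a (l 157470953047) (l 91435828663)) (l 68350379015))) (a (b (a (l 126332437991) (l 16778264)) (l 16778136)) (l 16777848))) (b (a (l 190220076231) (b (l 153175986151) (l 16777936))) (c (c (l 58149832535) (l 58149832375)) (l 58149832375)))) (b (a (l 196125658023) (c (b (l 154786598519) (l 16777632)) (l 113447536199))) (c (a (l 64592279975) (l 16777192)) (l 58149832023))))) (b (c (a (c (a (b (l 156934082855) (a (l 125795570775) (l 16778216))) (c (l 59760443559) (l 16777040))) (a (a (l 172503336087) (a (l 142975438663)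 (l 100562635495))) (l 60297314055))) (l 16779800)) (a (a (c (b (l 184851366503) (l 101636377415)) (l 137606727655)) (c (l 16777488) (l 16777224))) (l 16776552))) (c (c (c (l 16778512) (l 16777024)) (l 16778080)) (c (l 16779088) (l 16776192))))) (c (b (c (c (a (l 16777512) (l 16776288)) (l 16778040)) (c (l 16777856) (l 16776368))) (c (l 16777624) (l 16777272))) (a (b (c (l 16776736) (l 16776448)) (l 16778784)) (b (l 16777960) (l 16778784))))), by decide +kernel⟩

def k20_pm_012 : ∃ t, chk3 f_pm_012 t 142 238 1 = true :=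
  ⟨(a (b (a (l 3) (a (l 3) (a (l 3) (c (c (l 201494366375) (l 206863074871)) (l 214379269431))))) (c (a (b (l 3) (a (l 3) (c (b (l 174113949271) (a (l 166060888487) (l 80698409783))) (b (l 178945786919) (a (l 170355854279) (l 16777848)))))) (a (a (b (l 3) (b (c (l 135996116199) (l 136532986583)) (l 16777840))) (b (b (l 3) (c (l 155860340151) (l 157470952535))) (c (l 16777928) (l 16777640)))) (b (c (b (a (l 152639114423) (c (l 85530248055) (l 84993376855))) (l 61371056839)) (b (a (l 155323467783) (l 83919634775)) (l 16777768))) (l 16777408)))) (a (b (l 3) (a (l 3) (b (l 203104977239) (c (l 128479919943) (l 129553662807))))) (c (b (a (l 190220075591) (c (l 85530248919) (l 84993377751))) (a (l 62981670567) (l 16776992))) (b (a (l 194515042423) (l 83919636087)) (l 52244251879)))))) (b (c (a (b (a (l 3) (b (c (l 178408916695) (l 182703883399)) (c (a (l 155323467399) (c (l 89288344519) (l 88214602407))) (a (l 159081564695) (l 87140860311))))) (a (b (c (l 174650820199) (l 177872045111)) (a (c (l 142438567367) (l 142975437559))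 (l 60834187383))) (c (c (l 57076088903) (l 16776600)) (l 57612959463)))) (b (a (b (a (c (l 146733535287) (l 147807276215)) (l 64055412871)) (l 16777864)) (l 16777560)) (c (l 16777200) (l 16776880)))) (b (a (a (l 3) (c (l 159618433607) (l 163376529527))) (c (a (l 68887250599) (l 16777104)) (l 56539219351))) (a (a (b (l 182703885207) (a (l 142975438471) (l 16777440))) (c (l 16777408) (l 16777160))) (l 16776456)))) (a (c (c (c (l 16777192) (l 16777032)) (l 16778112)) (c (l 16776520) (l 16776272))) (c (c (l 16775848) (l 16775536)) (c (l 16775256) (l 16775008)))))), by decide +kernel⟩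

def k21_pm_012 : ∃ t, chk3 f_pm_012 t 142 239 1 = true :=
  ⟨(c (c (a (b (a (b (a (b (a (l 3) (l 148344147543)) (a (c (l 90898956711) (l 89825214711)) (l 16778000))) (c (l 16777920) (l 16777768))) (l 16777336)) (l 16776560)) (c (l 16777200) (l 16777216))) (b (c (l 16774688) (l 16774528)) (l 16776600))) (b (a (a (b (a (b (l 169282113079) (c (l 87677732375) (l 86603990135))) (l 16777560)) (l 16777048)) (l 16776264)) (c (l 16774384) (l 16776864))) (a (a (l 16775688) (l 16774384)) (l 16777632)))) (b (c (a (a (b (a (b (l 172503335463) (l 85530248839)) (l 16777296)) (l 16776792)) (l 16776000)) (c (l 16776736) (l 16779232))) (a (a (b (a (l 125258696663) (l 16777072)) (l 16776560)) (l 16775768)) (c (l 16779128) (l 16779024)))) (a (a (c (l 16775440) (l 16775232)) (l 16777968)) (c (l 16772160) (l 16771968))))), by decide +kernel⟩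

def k22_pm_012 : ∃ t, chk3 f_pm_012 t 143 119 1 = true :=
  ⟨(a (b (b (c (c (c (l 16775856) (l 16775680)) (c (l 16775512) (l 16775352))) (a (c (l 16775776) (l 16775520)) (l 16779592))) (c (c (l 16775840) (l 16776176)) (c (l 16778528) (l 16773056)))) (b (c (c (l 16777184) (l 16776888)) (l 16771288)) (c (l 16775088) (l 16769408)))) (b (b (c (c (l 16778352) (l 16778016)) (c (l 16777736) (l 16772248))) (c (l 16776264) (l 16770504))) (c (a (l 16774040) (l 16772688)) (l 16770432)))), by decide +kernel⟩

def k23_pm_012 : ∃ t, chk3 f_pm_012 t 32 30 1 = true :=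
  ⟨(l 3), by decide +kernel⟩

def k24_pm_012 : ∃ t, chk3 f_pm_012 t 33 60 1 = true :=
  ⟨(l 3), by decide +kernel⟩

def k25_pm_012 : ∃ t, chk3 f_pm_012 t 66 61 1 = true :=
  ⟨(l 3), by decide +kernel⟩

def k26_pm_012 : ∃ t, chk3 f_pm_012 t 67 122 1 = true :=
  ⟨(l 3), by decide +kernel⟩

def k27_pm_012 : ∃ t, chk3 f_pm_012 t 134 123 1 = true :=
  ⟨(l 3), by decide +kernel⟩

def k28_pm_012 : ∃ t, chk3 f_pm_012 t 135 246 1 = true :=
  ⟨(l 3), by decide +kernel⟩

def k29_pm_012 : ∃ t, chk3 f_pm_012 t 270 247 1 = true :=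
  ⟨(b (l 3) (b (l 3) (l 6))), by decide +kernel⟩

def k30_pm_012 : ∃ t, chk3 f_pm_012 t 271 494 1 = true :=
  ⟨(a (b (l 3) (b (l 3) (a (l 3) (a (l 3) (c (c (b (l 3) (l 155860338391)) (l 184851366551)) (c (l 190756946423) (l 196662526311))))))) (b (a (l 3) (b (l 3) (c (c (a (l 197199397863) (b (l 178945786535) (c (l 90362086583) (l 90898957367)))) (a (l 203641848615) (b (l 180019528599) (l 86067119399)))) (c (a (l 209547428487) (b (l 181630141495) (l 89288344567))) (a (l 215989879271) (l 135459242615)))))) (c (a (a (b (l 3) (c (b (a (l 183240754775) (l 129016792311)) (l 65129153671)) (b (l 145659790823) (l 16777960)))) (b (b (l 3) (c (c (l 130627405111) (l 132774888679)) (l 130627405239))) (c (l 39896220631) (l 16777136)))) (c (b (a (a (b (l 144049178055) (l 16777360)) (l 54928606423)) (l 16777112)) (l 16777392)) (b (a (b (l 116668761399) (l 16777216)) (l 16777032)) (l 16777976)))) (b (b (a (l 3) (a (c (l 119353115815) (l 122574341159)) (l 16778368))) (a (a (l 3) (c (l 133848630567) (l 139217339479))) (c (l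 16776992) (l 16776928)))) (a (a (c (b (l 149954757975) (l 16777232)) (b (l 153712854231) (l 16777176))) (c (l 16777064) (l 16777008))) (c (l 16777912) (l 16777856))))))), by decide +kernel⟩

def k31_pm_012 : ∃ t, chk3 f_pm_012 t 271 495 1 = true :=
  ⟨(a (b (a (a (b (l 3) (l 6)) (b (c (c (l 198810010615) (l 204715590487)) (c (l 211158041271) (l 217600492071))) (a (l 6) (c (c (c (l 61907927959) (l 16777312)) (l 60834186119)) (c (l 16777184) (l 16777128)))))) (b (c (c (a (b (l 189146333879) (c (l 93046441191) (l 105931342999))) (c (b (l 81235280951) (l 16777200)) (l 61371057111))) (a (b (l 188609462807) (l 103783859479)) (c (l 61907927943) (l 64055411431)))) (c (a (b (l 178408916807) (l 106468213911)) (c (l 16777184) (l 16777152))) (c (a (l 141364823111) (l 16777120)) (a (l 143512306695) (l 16777088))))) (a (c (c (l 16777096) (l 16777024)) (c (l 16776960) (l 16776904))) (c (c (l 16776776) (l 16776712)) (l 16777936))))) (a (l 6) (a (l 6) (c (c (l 16775952) (l 16775896)) (l 16775832))))) (c (b (a (b (c (c (l 16776856)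 (l 16776824)) (l 16777424)) (c (l 16777600) (l 16776232))) (c (c (l 16775936) (l 16775896)) (l 16775856))) (c (l 16775792) (l 16776408))) (b (a (b (c (l 16778016) (l 16777960)) (l 16776152)) (l 16777096)) (l 16776432)))), by decide +kernel⟩

def k32_pm_012 : ∃ t, chk3 f_pm_012 t 16 31 1 = true :=
  ⟨(a (l 6) (b (a (l 6) (b (a (l 6) (b (b (b (b (a (l 6) (a (l 6) (c (l 16775792) (l 16774480)))) (l 6)) (l 6)) (l 6)) (l 6))) (l 6))) (l 6))), by decide +kernel⟩

def k33_pm_012 : ∃ t, chk3 f_pm_012 t 68 60 1 = true :=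
  ⟨(l 3), by decide +kernel⟩

def k34_pm_012 : ∃ t, chk3 f_pm_012 t 69 120 1 = true :=
  ⟨(l 3), by decide +kernel⟩

def k35_pm_012 : ∃ t, chk3 f_pm_012 t 138 121 1 = true :=
  ⟨(b (l 3) (a (l 3) (b (a (l 3) (a (l 3) (b (l 3) (c (c (b (l 195588785431) (a (l 154786595991) (c (l 77477185111) (l 77477184951)))) (b (l 201494365127) (a (l 156934079895) (l 75866572375)))) (b (l 209547429671) (c (a (l 158007822087) (l 16777392)) (l 126332438135))))))) (a (b (a (l 3) (a (l 3) (b (l 3) (b (l 3) (c (c (l 133311758919) (l 134385501207)) (l 130627406007)))))) (b (c (c (a (l 193441301719) (a (b (l 157470952199) (l 66739764855)) (l 16776888))) (a (l 198810010535) (a (l 117742503783) (l 16777392)))) (a (a (l 3) (l 193978171703)) (c (c (l 80161539399) (l 80161539271)) (l 78014055767)))) (c (a (c (a (b (l 182703883191) (l 126869308551)) (c (l 72645346775) (l 72645346631))) (a (l 147270404087) (l 71034734087))) (c (l 16777248) (l 16777096))) (a (c (a (l 151028500215) (l 16777352)) (l 120963727703)) (l 16778200))))) (c (b (a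 (b (c (a (l 190756946983) (b (l 162302790279) (l 68887248471))) (a (l 196662526695) (l 120963729287))) (a (c (c (l 75329701399) (l 75866572151)) (l 73719088695)) (l 16778664))) (c (c (l 16777272) (l 16777184)) (l 16777064))) (c (c (l 16776600) (l 16776520)) (c (l 16776440) (l 16776368)))) (a (b (b (c (a (l 202031235527) (l 124721825319)) (l 149417887575)) (c (l 59760444727) (l 16777136))) (c (l 16776584) (l 16776456))) (b (c (l 16776920) (l 16776792)) (l 16778512)))))))), by decide +kernel⟩

def k36_pm_012 : ∃ t, chk3 f_pm_012 t 278 242 1 = true :=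
  ⟨(b (l 3) (a (l 3) (b (a (l 3) (a (l 3) (b (l 3) (b (l 3) (c (c (l 148881017623) (l 150491630199)) (l 141364823207)))))) (b (c (b (a (l 3) (c (a (l 166597757511) (l 16777736)) (l 116668762087))) (a (a (l 3) (l 179482659975)) (c (l 60297316071) (l 16777512)))) (a (l 210084301863) (c (c (l 83382764999) (l 84456506519)) (l 81772152199)))) (a (c (c (a (b (l 3) (l 147807275927)) (c (l 78550926951) (l 78550926775))) (a (l 160692175655) (l 77477185031))) (c (a (l 162839659655) (l 16777416)) (l 128479921799))) (c (c (l 16777392) (l 16777216)) (l 16776976))))))), by decide +kernel⟩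

def k37_pm_012 : ∃ t, chk3 f_pm_012 t 279 242 1 = true :=
  ⟨(b (a (a (l 3) (b (l 3) (c (c (b (l 194515043639) (a (b (l 3) (l 147807275687)) (l 76403443175))) (b (l 200420623287) (a (l 171966463367) (l 75329701431)))) (b (l 207936818183) (c (l 123648082583) (l 126869309079)))))) (b (c (a (b (l 3) (c (c (l 176798304775) (l 178945785607)) (l 171429593863))) (c (b (a (l 188609463431) (b (l 160692177591) (l 76403442055))) (c (l 59760445143) (l 60297315847))) (b (a (l 193441301255) (l 119889987143)) (l 58686703319)))) (c (a (l 188609462951) (b (l 144049178775) (l 16777344))) (a (l 193978171751) (b (l 148344145607) (l 16777184))))) (b (a (c (c (a (b (l 163913403015) (l 92509570855)) (l 16777696)) (c (l 81235281575) (l 81772152295))) (c (l 79624668855) (l 79624668519))) (c (l 16777208) (l 16776856))) (c (c (l 16777152) (l 16776952)) (c (l 16776784) (l 16776624)))))) (c (b (a (a (b (c (a (l 192367559799) (b (l 165524015719) (l 94657054791))) (a (l 197199397639) (l 123648083863))) (c (c (l 62444799783) (l 62444799607))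 (l 61907928743))) (c (l 32916899543) (l 16777168))) (c (l 16776432) (l 16776240))) (c (a (l 16778032) (l 16775432)) (a (l 16776536) (l 16775248)))) (b (a (a (b (c (l 146733533463) (l 151565371223)) (c (l 16777984) (l 16777184))) (c (l 16777000) (l 16776848))) (c (l 16776072) (l 16775928))) (a (c (l 16776376) (l 16776232)) (l 16778304))))), by decide +kernel⟩

def k38_pm_012 : ∃ t, chk3 f_pm_012 t 139 243 1 = true :=
  ⟨(a (b (a (b (c (a (b (l 3) (a (l 3) (c (b (l 3) (l 146733534071)) (l 159618434151)))) (b (a (c (l 192904430679) (l 198273139463)) (c (a (l 151565372599) (l 93046440679)) (l 124184954791))) (c (c (a (l 78550926983) (l 16777544)) (l 62981670423)) (l 61371057847)))) (c (a (l 191830688503) (b (l 147270403047) (l 61907928455))) (a (l 197199397335) (b (l 152102242135) (l 16777168))))) (b (a (a (c (c (a (l 146196660487) (l 90362086775)) (l 123111212951)) (c (l 126869308967) (l 129553663287))) (c (c (l 58686701543) (l 16777448)) (l 16778536))) (c (l 16778424) (l 16776808))) (c (c (l 16777032) (l 16776864))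 (c (l 16776712) (l 16776584))))) (c (b (c (c (a (l 16777344) (l 16776728)) (l 16777608)) (c (l 16776864) (l 16776784))) (c (l 16776008) (l 16775840))) (b (c (c (l 16776704) (l 16776632)) (c (l 16776560) (l 16776496))) (c (l 16778312) (l 16778192))))) (b (c (a (c (l 16777592) (l 16777432)) (c (l 16774984) (l 16777456))) (a (c (l 16777296) (l 16778488)) (l 16777264))) (c (a (c (l 16777888) (l 16777736)) (l 16776504)) (c (l 16775656) (l 16774248))))) (a (b (b (c (c (l 16775720) (l 16775544)) (c (l 16775400) (l 16777896))) (c (c (l 16774704) (l 16777160)) (l 16774352))) (c (c (l 16773160) (l 16773016)) (l 16775488))) (b (c (b (l 16776952) (l 16773312)) (l 16774864)) (c (l 16773088) (l 16771728))))), by decide +kernel⟩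

def k39_pm_012 : ∃ t, chk3 f_pm_012 t 136 122 1 = true :=
  ⟨(b (l 3) (a (l 3) (b (l 3) (a (l 3) (a (l 3) (a (l 3) (b (l 3) (b (l 3) (c (c (b (l 196125655863) (l 117742503607)) (b (l 202031235687) (l 121500599703))) (c (l 145122920135) (l 149417887255))))))))))), by decide +kernel⟩

def k40_pm_012 : ∃ t, chk3 f_pm_012 t 137 244 1 = true :=
  ⟨(a (l 3) (b (l 3) (a (a (l 3) (a (l 3) (b (l 3) (b (l 3) (c (c (l 192367559655) (l 198273139431)) (l 206326204071)))))) (b (a (l 3) (b (l 3) (c (a (c (l 197199397927) (l 203104977687)) (c (b (l 171429595543) (l 87677732455)) (l 129016791719))) (a (l 211694911911) (c (l 133311760007) (l 137606727031)))))) (c (b (a (a (l 3) (c (b (l 3) (l 139754210839)) (l 166597755447))) (a (c (b (l 119353116423) (l 16777512)) (l 79624668807)) (a (l 16778016) (l 16777216)))) (a (c (a (b (l 160692177575) (l 78014055975)) (l 16777464)) (a (b (l 166060884679) (l 16777472)) (l 16777336))) (c (l 16777024) (l 16776896)))) (b (a (c (l 184314495495) (l 189683204391)) (c (c (l 66202895431) (l 16777704))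 (l 64592282679))) (a (a (b (l 163913401975) (l 69960992711)) (a (l 49559897895) (l 16777096))) (c (l 16776776) (l 16776680))))))))), by decide +kernel⟩

def k41_pm_012 : ∃ t, chk3 f_pm_012 t 274 245 1 = true :=
  ⟨(b (a (l 3) (b (l 3) (a (a (l 3) (b (l 3) (c (c (l 170892723015) (l 175724560983)) (c (l 181093269895) (l 175187691063))))) (a (b (l 3) (c (c (b (l 131701147415) (l 16777496)) (c (l 90898957655) (l 90898957543))) (c (l 87677732247) (l 109152568551)))) (c (b (c (b (l 192367559495) (l 113984407239)) (b (l 188072593255) (l 117205632471))) (c (l 16777336) (l 16777216))) (b (c (l 142975436487) (l 146733532679)) (l 16778376))))))) (a (b (a (l 3) (c (c (b (l 198273139991) (a (b (l 3) (l 134385501943)) (b (l 117205632663) (l 16777432)))) (b (l 204715590679) (a (l 166060884487) (c (l 81235281159) (l 81235281047))))) (b (a (l 3) (l 211694911959)) (c (a (l 158007822087) (l 78014055767)) (a (l 162302789191) (l 79624668231)))))) (c (b (a (c (a (l 190220075943) (b (l 154249725399) (l 73719088535))) (a (l 196125655751)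 (b (l 155860338247) (l 16777408)))) (c (c (l 16777256) (l 16777200)) (l 16777768))) (a (a (b (c (l 89825215943) (l 89825215735)) (l 16777960)) (a (l 16778520) (l 16777056))) (c (l 16776712) (l 16776608)))) (a (b (a (c (l 195588784631) (l 200957493559)) (c (l 120963728871) (l 123648083271))) (c (c (l 57612960615) (l 16777112)) (l 58686702215))) (b (c (l 16777016) (l 16776928)) (l 16778440))))) (c (a (c (b (b (a (b (l 183240753895) (l 87677732343)) (l 56539219367)) (l 16777112)) (l 16777648)) (b (b (a (b (l 174650820727) (l 88214603031)) (l 16777328)) (l 16777000)) (l 16777544))) (b (c (c (l 16776768) (l 16776712)) (l 16777608)) (c (l 16777000) (l 16778208)))) (b (c (a (b (a (l 131164276407) (l 16777224)) (l 16776904)) (l 16777512)) (a (b (c (l 109689439303) (l 111300051959)) (l 16776816)) (l 16778080))) (c (c (l 16777808) (l 16775808)) (l 16775752)))))), by decide +kernel⟩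

def k42_pm_012 : ∃ t, chk3 f_pm_012 t 275 245 1 = true :=
  ⟨(b (a (b (c (a (b (l 3) (c (a (l 186998850455) (b (l 147807274407) (l 16778208))) (a (l 192367559335) (b (l 148881016407) (l 16777432))))) (c (b (a (b (l 3) (l 126332438359)) (c (l 75329701335) (l 75329701207))) (l 16777912)) (b (a (l 147270404199) (l 73182217703)) (l 16777136)))) (a (b (l 3) (c (a (l 190220075447) (l 116131890711)) (a (l 195588784375) (l 119889986823)))) (b (c (a (l 152639112935) (l 73719088391)) (a (l 156934080023) (l 16777216))) (c (l 16777024) (l 16776928))))) (a (b (c (a (c (c (l 67276637543) (l 67813508327)) (l 66202895671)) (l 16778472)) (c (l 52244251751) (l 16777704))) (c (c (l 16776880) (l 16776760)) (c (l 16776656) (l 16776568)))) (c (c (l 16776496) (l 16776384)) (c (l 16776280) (l 16778816))))) (b (a (c (c (l 16777544) (l 16776768)) (c (l 16776656) (l 16776560))) (c (c (l 16776256) (l 16776128)) (c (l 16776024) (l 16778560)))) (c (c (c (l 16776872) (l 16778120)) (l 16777712)) (c (l 16775328) (l 16775256))))) (a (c (c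 (b (a (l 16776096) (l 16778072)) (l 16774712)) (a (b (l 16777296) (l 16774944)) (l 16774824))) (c (c (l 16776064) (l 16775048)) (l 16776312))) (c (c (l 16775248) (l 16775160)) (l 16775128)))), by decide +kernel⟩

def k43_pm_012 : ∃ t, chk3 f_pm_012 t 272 246 1 = true :=
  ⟨(b (l 3) (a (a (l 3) (b (l 3) (c (c (b (l 196125656279) (a (b (l 3) (c (l 124721825111) (l 126332437767))) (b (c (l 110226310375) (l 111836923015)) (l 16777296)))) (b (l 202031236103) (a (b (l 3) (l 124721825223)) (c (l 74792830023) (l 74792829943))))) (c (b (l 208473686855) (a (l 146196661335) (c (l 75329700775) (l 77477184263)))) (b (l 214379266727) (a (l 153175983527) (l 73182217111))))))) (b (c (a (b (l 3) (a (l 3) (c (b (l 3) (l 143512307463)) (l 175187690039)))) (a (b (l 3) (c (b (l 128479921159) (l 16777392)) (b (l 131701147111) (l 16777296)))) (b (c (b (l 193978172167) (c (l 115058148695) (l 116668761351))) (b (l 199883752007) (l 116131890551))) (c (l 16777224) (l 16777128))))) (a (b (l 3) (c (l 189683204743) (l 195588784599))) (a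 (b (l 3) (c (c (l 89288344615) (l 107541955543)) (l 105931342951))) (b (c (b (l 192367560295) (l 119353115847)) (l 145659790791)) (c (l 16777048) (l 16776976)))))) (c (a (b (c (a (b (l 163913401703) (c (l 83919635575) (l 84456506391))) (c (l 53317993543) (l 16777296))) (a (b (l 164987143671) (l 81772151943)) (l 51170509911))) (c (l 16776960) (l 16776880))) (a (c (l 16777528) (l 16777488)) (c (l 16777736) (l 16777656)))) (a (b (c (a (b (l 168745239975) (l 16777304)) (l 16777152)) (a (l 129553663239) (l 16777080))) (c (l 16776800) (l 16776736))) (b (a (l 16778456) (l 16777816)) (l 16776800))))))), by decide +kernel⟩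

def k44_pm_012 : ∃ t, chk3 f_pm_012 t 273 492 1 = true :=
  ⟨(a (b (a (l 3) (a (l 3) (b (l 3) (c (c (l 197736268807) (l 203641848615)) (l 212231784231))))) (c (a (b (l 3) (a (c (b (l 3) (l 174650819287)) (l 188609462967)) (c (b (l 148344145719) (l 71034733879)) (b (l 153175983655) (l 16777376))))) (b (c (a (b (l 3) (l 132774889143)) (b (l 116131890183) (l 16777384))) (a (l 166597755383) (c (l 80698410183) (l 81235280999)))) (c (c (l 16777192) (l 16777136)) (c (l 16777088) (l 16777040))))) (a (b (l 3) (a (c (l 194515042807) (l 199883751767)) (c (b (l 157470950775) (l 16777288)) (l 122037470439)))) (b (c (a (l 171429593415) (l 76940313895)) (a (l 161229047319) (l 78550926391))) (c (l 16778288) (l 16776904)))))) (b (c (b (a (a (l 3) (c (l 173577077559) (l 178408915559))) (c (a (b (l 134922372823) (l 16777456)) (l 16777296)) (a (b (l 138680468999) (l 16777352)) (l 16777192)))) (a (c (a (b (l 184851366615) (l 87677732423)) (c (l 58686702807) (l 16777368))) (a (b (l 173577078887) (l 89288344791)) (l 57076090055)))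 (c (l 16776944) (l 16776840)))) (b (c (a (l 192367559303) (a (l 107541955975) (l 16777096))) (a (l 198273139159) (c (l 76403442407) (l 76403442327)))) (c (a (a (l 131164275063) (l 16777200)) (l 16776752)) (a (a (l 136532985207) (l 16777120)) (l 16776672))))) (a (b (c (c (l 16777056) (l 16776952)) (c (l 16776864) (l 16776792))) (c (c (l 16776528) (l 16776432)) (l 16778288))) (c (c (c (l 16776176) (l 16776120)) (l 16777368)) (c (l 16775984) (l 16775920)))))), by decide +kernel⟩

def k45_pm_012 : ∃ t, chk3 f_pm_012 t 273 493 1 = true :=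
  ⟨(c (a (b (c (a (a (b (a (b (l 122574341479) (l 16777368)) (l 16777344)) (l 16776912)) (l 16777672)) (c (l 16776392) (l 16776344))) (c (a (b (a (l 68350379063) (l 16777040)) (l 16776680)) (l 16777616)) (a (b (l 54391735143) (l 16776640)) (l 16777576)))) (a (c (l 16777576) (l 16775864)) (l 16776560))) (a (c (b (l 16777032) (l 16774640)) (l 16776416)) (c (l 16775840) (l 16774464)))) (c (a (b (a (a (b (l 65666024519) (l 16776736)) (l 16777992)) (a (l 16777680) (l 16777360))) (l 16775480)) (l 16776048)) (a (a (b (b (c (l 16777032) (l 16777000)) (l 16776520)) (l 16775752)) (l 16776952)) (l 16776048)))), by decide +kernel⟩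

def k46_pm_012 : ∃ t, chk3 f_pm_012 t 136 247 1 = true :=
  ⟨(a (b (c (a (b (b (a (a (c (b (l 3) (l 151028500247)) (l 181630141031)) (c (b (a (l 178408916631) (l 120963728695)) (l 60297315479)) (b (l 140827952615) (l 16777304)))) (c (c (l 16777088) (l 16777048)) (c (l 16777008) (l 16776968)))) (a (a (b (c (l 74255959271) (l 74792830023)) (l 16778136)) (c (l 16777016) (l 16776936))) (c (l 16776528) (l 16776456)))) (a (b (c (l 16776632) (l 16777872)) (c (l 16777400) (l 16776024))) (c (l 16775712) (l 16775648)))) (b (a (b (a (l 16777856) (l 16777536)) (l 16776664)) (a (l 16776616) (l 16775304))) (l 16776016))) (a (c (b (b (a (a (l 186998849991) (b (l 144586048839) (l 16777232))) (l 16777896)) (a (a (l 58149831543) (l 16776864)) (a (l 16776544) (l 16776232)))) (c (l 16776584) (l 16775904))) (b (a (b (a (l 192367558967) (l 111836922343)) (c (l 16778280) (l 16776936))) (b (l 16778152) (l 16776336))) (l 16775872))) (c (c (l 16776664) (l 16776480)) (l 16776472)))) (a (c (c (l 16775776) (l 16775808)) (c (l 16775816)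 (l 16775800))) (c (c (l 16774776) (l 16774784)) (c (l 16773456) (l 16773424))))) (c (b (c (c (l 16774848) (l 16774864)) (c (l 16774880) (l 16774888))) (a (a (l 16774024) (l 16773512)) (c (l 16774064) (l 16774040)))) (a (b (c (l 16775408) (l 16774088)) (c (l 16775032) (l 16774968))) (b (c (l 16773048) (l 16773016)) (c (l 16771360) (l 16771264)))))), by decide +kernel⟩

def k47_pm_012 : ∃ t, chk3 f_pm_012 t 137 123 1 = true :=
  ⟨(b (c (b (a (a (a (c (b (c (l 16776592) (l 16776536)) (l 16776808)) (b (c (l 16776488) (l 16776440)) (l 16775416))) (b (b (l 16778104) (l 16776912)) (l 16774808))) (c (c (l 16775088) (l 16774384)) (l 16775640))) (c (l 16773944) (l 16773992))) (a (c (l 16774744) (l 16774776)) (c (l 16773680) (l 16772376)))) (a (b (a (a (b (b (a (l 16778064) (l 16777752)) (l 16776744)) (l 16775320)) (c (l 16775224) (l 16775176))) (c (l 16775584) (l 16774296))) (c (l 16774456) (l 16774440))) (b (c (l 16774008) (l 16775304)) (c (l 16772344) (c (l 16773616) (l 16773568)))))) (c (a (c (b (l 16772832) (c (l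 16771224) (l 16771208))) (b (l 16772824) (c (l 16769872) (l 16769840)))) (b (c (c (l 16772088) (l 16769464)) (a (l 16769952) (l 16768912))) (c (l 16769160) (l 16767776)))) (a (a (c (b (l 16774616) (l 16770304)) (b (l 16774560) (l 16770184))) (b (c (l 16770944) (l 16770864)) (c (l 16769240) (l 16769104)))) (c (b (c (l 16769376) (l 16769328)) (l 16767648)) (b (l 16770552) (l 16767480)))))), by decide +kernel⟩

def k48_pm_012 : ∃ t, chk3 f_pm_012 t 276 244 1 = true :=
  ⟨(b (a (a (l 3) (b (l 3) (c (b (a (l 3) (c (l 182703884487) (l 188072592007))) (c (a (b (l 188072592231) (l 110763181719)) (l 61907928727)) (a (l 136532985799) (l 16777424)))) (c (b (l 192904430167) (a (l 140291081943) (l 16777296))) (b (l 198810009959) (c (l 115058148583) (l 117742502951))))))) (b (c (a (b (l 3) (a (l 3) (c (b (l 192367559575) (l 118279374519)) (l 142438565863)))) (b (c (a (l 186461979607) (b (l 151565372311) (l 63518539479))) (a (l 191830688439) (l 113984407303))) (c (c (l 55465477543) (l 56002348295)) (l 53317993975)))) (a (b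 (l 3) (c (l 172503335319) (l 177872044199))) (b (c (a (l 197199397287) (l 117205632519)) (l 142975436615)) (c (l 16777864) (l 16777088))))) (a (b (a (c (c (b (l 140827952151) (l 16776944)) (l 108615698151)) (c (l 111300052471) (l 114521277719))) (c (c (l 16777456) (l 16777320)) (l 16777128))) (c (c (l 16777144) (l 16777000)) (l 16778128))) (c (c (l 16776768) (l 16776624)) (c (l 16776504) (l 16776392)))))) (c (b (a (a (b (a (c (l 168745239399) (l 173040206439)) (c (b (l 130090534567) (l 16776904)) (l 86067119799))) (c (c (l 16778072) (l 16777352)) (l 16777904))) (c (l 16778336) (l 16776888))) (c (c (l 16776104) (l 16776032)) (c (l 16775968) (l 16775904)))) (a (c (c (l 16776360) (l 16776288)) (c (l 16777536) (l 16777480))) (c (l 16777648) (l 16774904)))) (a (a (c (b (b (a (l 171429594599) (l 86067119559)) (l 16777128)) (l 16776400)) (b (b (a (l 173577078359) (l 86603990183)) (l 16777016)) (l 16776304))) (b (c (l 16776768) (l 16776656)) (l 16778344))) (b (a (a (l 16778864) (l 16778552)) (l 16778072)) (l 16776080))))),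 by decide +kernel⟩

def k49_pm_012 : ∃ t, chk3 f_pm_012 t 277 244 1 = true :=
  ⟨(c (b (c (a (a (b (a (l 16777288) (l 16776984)) (l 16776128)) (b (l 16776504) (l 16775480))) (b (l 16778160) (l 16777120))) (b (a (c (l 16777040) (l 16776640)) (l 16778016)) (a (l 16777632) (l 16774368)))) (a (a (b (l 16777648) (l 16773984)) (l 16775496)) (l 16774192))) (c (b (a (c (b (l 16776576) (l 16775576)) (b (l 16776512) (l 16778144))) (b (l 16777896) (l 16774264))) (l 16774696)) (b (a (b (c (l 16776456) (l 16776400)) (l 16775448)) (l 16774680)) (l 16775992)))), by decide +kernel⟩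

def k50_pm_012 : ∃ t, chk3 f_pm_012 t 138 245 1 = true :=
  ⟨(a (c (b (b (a (c (l 16777248) (l 16777784)) (l 16776544)) (c (l 16774888) (l 16774792))) (c (l 16773456) (l 16774816))) (b (c (c (l 16775248) (l 16775216)) (l 16775840)) (c (l 16774840) (l 16774832)))) (c (b (c (l 16772936) (l 16774312)) (c (l 16770080) (l 16770112))) (b (c (l 16771720) (l 16771720)) (c (l 16770104) (l 16773984))))), by decide +kernel⟩

def k51_pm_012 : ∃ t, chk3 f_pm_012 t 139 122 1 = true :=
  ⟨(b (c (a (b (a (b (l 16776784) (l 16773128)) (l 16773648)) (l 16773752)) (c (l 16772392) (l 16772472))) (a (b (c (l 16774144) (l 16774144)) (l 16773832)) (c (l 16772496) (l 16772488)))) (c (a (b (l 16772208) (l 16769328)) (c (l 16768016) (l 16768024))) (a (b (c (l 16769600) (l 16772176)) (c (l 16767976) (l 16767888))) (c (b (l 16767472) (l 16765848)) (c (l 16769208) (l 16769144)))))), by decide +kernel⟩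

def k52_pm_012 : ∃ t, chk3 f_pm_012 t 69 123 1 = true :=
  ⟨(c (b (b (a (c (a (l 16773208) (l 16771136)) (a (l 16770600) (l 16771128))) (a (c (l 16766440) (l 16766408)) (l 16765976))) (a (a (c (l 16772280) (l 16770456)) (c (l 16766928) (l 16766888))) (a (c (l 16764848) (l 16764784)) (l 16762720)))) (a (a (c (b (l 16767400) (l 16765776)) (b (l 16767336) (l 16765672))) (b (c (l 16765320) (l 16765240)) (l 16764944))) (b (a (l 16765808) (l 16761088)) (c (l 16763168) (l 16763024))))) (a (b (a (b (a (l 16773712) (l 16773624)) (c (l 16771536) (l 16768808))) (c (b (l 16768456) (l 16766792)) (b (l 16768360) (l 16766640)))) (a (b (c (l 16767232) (l 16767072)) (c (l 16765520) (l 16765312))) (c (b (l 16765096) (l 16763384)) (b (l 16764904) (l 16763136))))) (b (a (b (c (l 16766328) (l 16766184)) (c (l 16764656) (l 16764472))) (c (l 16764672) (l 16764472))) (a (b (l 16762856) (l 16761112)) (c (l 16759968) (l 16759672)))))), by decide +kernel⟩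

def k53_pm_012 : ∃ t, chk3 f_pm_012 t 140 240 1 = true :=
  ⟨(a (l 3) (b (l 3) (a (a (l 3) (b (l 3) (c (c (l 198810011335) (l 204715590903)) (l 212768656583)))) (a (b (l 3) (c (b (a (l 3) (c (l 160692178407) (l 163376532711))) (c (c (a (l 138143599879) (l 16777904)) (l 82845894647)) (c (l 82845894343) (l 82845894135)))) (b (c (l 186461979079) (l 177872044535)) (c (l 81235281607) (l 81235281239))))) (c (b (b (l 3) (b (c (l 176261432583) (l 180556399431)) (a (l 175187692983) (a (l 85530248823) (l 16777792))))) (c (c (l 49023027047) (l 49559897719)) (l 48486156039))) (b (b (l 3) (c (l 142975436967) (l 146196662007))) (c (l 16777248) (l 16777056)))))))), by decide +kernel⟩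

def k54_pm_012 : ∃ t, chk3 f_pm_012 t 280 241 1 = true :=
  ⟨(b (a (l 3) (a (l 3) (b (l 3) (c (c (b (l 185925109015) (a (b (l 162302790887) (l 131164277255)) (c (l 16777232) (l 16777784)))) (b (l 190756946807) (c (l 110763181895) (l 112373794439)))) (b (a (l 3) (l 175187692999)) (c (l 112373794615) (l 115058148807))))))) (a (c (b (a (l 3) (b (l 3) (c (a (l 3) (b (l 168208370823) (l 137069857479))) (l 165524013831)))) (b (b (a (l 3) (c (c (l 91972699175) (l 90898957719)) (l 88214603607))) (a (a (l 3) (l 171966467383)) (c (l 60834185319) (l 16777552)))) (a (b (c (a (l 173040208919) (l 105394473319)) (l 139754210871)) (c (c (l 81772151783) (l 80161539591)) (l 78550927143))) (l 16778680)))) (b (a (l 3) (c (l 184314495591) (l 189146333463))) (a (b (l 204178721735) (c (l 119353116647) (l 122037470823))) (c (c (l 61371057511) (l 61371057335)) (l 60297315591))))) (b (c (a (c (b (a (l 182167012503) (a (l 140827954199) (l 76940312887))) (l 53854865303)) (b (a (l 186461979399) (l 92509569623)) (l 16777528))) (c (l 16777416)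 (l 16777200))) (a (c (b (l 138143598647) (l 16777336)) (b (l 141364823799) (l 16777168))) (l 22179481415))) (c (c (l 16776808) (l 16776592)) (c (l 16776408) (l 16776240)))))), by decide +kernel⟩

def k55_pm_012 : ∃ t, chk3 f_pm_012 t 281 241 1 = true :=
  ⟨(b (a (c (a (b (b (l 3) (a (l 182703885943) (b (l 173040209287) (a (l 146196663335) (l 16777784))))) (b (c (c (l 69424121799) (l 69424121527)) (l 68350379879)) (l 16777376))) (b (a (c (b (l 171966465223) (l 16777840)) (b (l 169818983447) (l 16777624))) (c (c (l 60297316247) (l 60834186887)) (l 59760445271))) (l 16778320))) (a (b (b (l 3) (c (l 155860338535) (l 158544693079))) (c (l 54928606775) (l 16778408))) (b (b (a (l 168208371479) (l 76940314375)) (l 16778544)) (l 16776608)))) (c (c (c (l 16778040) (l 16776608)) (c (l 16776488) (l 16776384))) (c (c (l 16776280) (l 16776184)) (c (l 16776096) (l 16776008))))) (a (c (c (c (l 16776072) (l 16775960)) (c (l 16775848) (l 16775752))) (b (c (l 16776088) (l 16775920)) (l 16777672))) (c (c (l 16777328) (l 16777120))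 (c (l 16776936) (l 16774168))))), by decide +kernel⟩

def k56_pm_012 : ∃ t, chk3 f_pm_012 t 141 120 1 = true :=
  ⟨(b (a (b (a (b (l 3) (b (a (l 3) (c (a (l 181093273287) (c (l 146196663319) (l 148344147207))) (c (l 159081562903) (l 161229046999)))) (c (c (a (l 186998850935) (a (a (l 139754212263) (l 16777960)) (l 16777848))) (a (l 191830688679) (l 71034734103))) (a (l 198273141623) (c (l 16777488) (l 16777296)))))) (c (b (b (a (a (l 3) (l 173040209591)) (c (a (b (l 142975436583) (l 16778000)) (l 16777936)) (l 81772152135))) (a (c (a (l 167671500183) (c (l 82309024375) (l 81772150743))) (a (l 170892725207) (l 81235279575))) (l 16777600))) (c (c (l 16777472) (l 16777344)) (l 16777808))) (b (a (b (l 206863073655) (c (l 128479922119) (l 131164276263))) (c (l 64592283415) (l 65129153831))) (c (l 16776928) (l 16776720))))) (c (a (b (b (a (c (a (l 153712856631) (l 71034732919)) (c (l 113984407495) (l 115058149111))) (l 16777496)) (c (l 16777488) (l 16777248))) (c (l 16776824) (l 16776584))) (c (l 16777336) (l 16777088)))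 (c (a (b (a (b (l 116131891047) (l 16777296)) (l 16776952)) (l 16776368)) (l 16776872)) (a (b (a (l 73719088679) (l 16776752)) (l 16776176)) (l 16777992))))) (a (b (b (c (c (l 16777104) (l 16776840)) (c (l 16776600) (l 16776392))) (c (l 16777352) (l 16778208))) (c (c (l 16774720) (l 16774472)) (c (l 16776888) (l 16776704)))) (b (c (c (l 16775360) (l 16775096)) (c (l 16774864) (l 16777288))) (c (c (l 16773400) (l 16778400)) (l 16772864))))) (b (c (a (a (c (l 16776688) (l 16777768)) (c (l 16776688) (l 16776456))) (a (l 16776560) (l 16771296))) (a (a (c (l 16777568) (l 16777400)) (l 16775368)) (l 16774224))) (c (a (c (a (l 16776016) (l 16777312)) (l 16773504)) (l 16772592)) (a (c (l 16772352) (l 16772224)) (l 16775080))))), by decide +kernel⟩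

def k57_pm_012 : ∃ t, chk3 f_pm_012 t 70 121 1 = true :=
  ⟨(a (b (c (a (b (c (a (a (b (l 16777392) (l 16776456)) (l 16777616)) (c (l 16775384) (l 16775280))) (a (b (l 16777880) (l 16775936)) (c (l 16775184) (l 16777712)))) (a (b (a (l 16775360) (l 16774712)) (l 16776648)) (a (l 16777480) (l 16772896)))) (b (c (a (l 16776640) (l 16775320)) (a (l 16776448) (l 16772512))) (c (l 16771336) (l 16771168)))) (b (a (a (b (c (l 16776712) (l 16776552)) (c (l 16775760) (l 16775616))) (b (c (l 16775448) (l 16775296)) (l 16774400))) (c (l 16774320) (l 16772888))) (a (c (c (l 16774664) (l 16773616)) (l 16773528)) (l 16773712)))) (c (a (a (b (l 16773816) (l 16770520)) (l 16772848)) (c (l 16771216) (l 16771320))) (a (c (l 16773504) (l 16773544)) (c (l 16771376) (l 16768760))))) (a (b (c (c (l 16772328) (l 16772200)) (c (l 16772304) (l 16772352))) (c (c (l 16769128) (l 16766600)) (b (l 16767400) (l 16771072)))) (b (c (l 16771344) (l 16770192)) (c (l 16767080) (c (l 16769736) (l 16769664)))))), by decide +kernel⟩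

def k58_pm_012 : ∃ t, chk3 f_pm_012 t 71 60 1 = true :=
  ⟨(b (a (a (c (b (a (b (c (l 16774040) (l 16773776)) (l 16777184)) (b (l 16777816) (l 16770608))) (l 16771256)) (b (b (c (l 16776824) (l 16772712)) (l 16776136)) (l 16771064))) (b (c (b (l 16775816) (l 16773848)) (l 16771856)) (c (l 16771328) (l 16771536)))) (b (c (a (l 16769528) (l 16769920)) (c (l 16771216) (l 16771288))) (c (c (l 16768088) (l 16768240)) (c (l 16768320) (l 16765688))))) (c (a (b (c (l 16769432) (l 16766928)) (a (l 16764976) (l 16760248))) (a (b (l 16761104) (l 16764704)) (b (l 16759008) (l 16756048)))) (a (b (c (l 16766976) (l 16766288)) (c (c (l 16764008) (l 16763888)) (a (l 16762256) (l 16760096)))) (a (b (a (l 16761664) (l 16760600)) (l 16758032)) (b (l 16764232) (l 16755888)))))), by decide +kernel⟩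

def k59_pm_012 : ∃ t, chk3 f_pm_012 t 70 61 1 = true :=
  ⟨(b (c (b (a (c (b (l 16770024) (l 16768504)) (a (l 16770368) (l 16765640))) (a (c (l 16768752) (l 16768776)) (a (l 16767192) (l 16766144)))) (b (a (a (l 16770648) (l 16768544)) (c (l 16760152) (l 16760120))) (a (a (a (l 16764352) (l 16763304)) (l 16761728)) (c (l 16758584) (l 16758520))))) (a (a (b (c (l 16770368) (l 16769008)) (b (l 16767912) (l 16763632))) (b (b (l 16771624) (l 16767392)) (c (l 16762392) (l 16762216)))) (b (c (a (l 16763480) (l 16761344)) (b (l 16765712) (l 16761456))) (a (c (l 16760256) (l 16760048)) (c (l 16758120) (l 16757880)))))) (b (c (a (c (a (l 16761456) (l 16759360)) (b (l 16763752) (l 16759496))) (a (c (l 16757256) (l 16757152)) (l 16755104))) (a (a (c (l 16761224) (l 16760992)) (c (l 16759088) (l 16758816))) (a (a (l 16757352) (l 16756272)) (l 16757280)))) (b (a (c (c (l 16757984) (l 16757840)) (c (l 16757616) (l 16757296))) (c (l 16756328) (l 16755784))) (a (c (c (l 16756336) (l 16756168)) (c (l 16755896) (l 16755528)))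 (c (l 16754656) (c (l 16751616) (l 16751192))))))), by decide +kernel⟩

def k60_pm_012 : ∃ t, chk3 f_pm_012 t 71 61 1 = true :=
  ⟨(b (b (c (a (a (a (l 16759848) (l 16758792)) (l 16759832)) (c (l 16754064) (l 16754032))) (a (a (c (l 16759216) (l 16759032)) (l 16756984)) (c (l 16753888) (l 16753632)))) (a (c (c (l 16757792) (l 16757720)) (c (l 16757544) (l 16757256))) (c (c (l 16750984) (l 16750888)) (c (l 16750672) (l 16750328))))) (b (b (c (a (l 16752760) (l 16748560)) (a (l 16752288) (l 16748016))) (a (c (l 16751136) (l 16750592)) (c (a (l 16747984) (l 16745872)) (a (l 16747376) (l 16745224))))) (a (a (c (b (l 16750552) (l 16748864)) (b (l 16749944) (l 16748184))) (c (b (l 16748416) (l 16746752)) (b (l 16747784) (l 16746016)))) (c (b (l 16747880) (l 16743448)) (b (a (l 16745640) (l 16743408)) (l 16742648)))))), by decide +kernel⟩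

def k61_pm_012 : ∃ t, chk3 f_pm_012 t 68 62 1 = true :=
  ⟨(b (a (c (a (a (b (b (c (l 16774176) (l 16774152)) (l 6)) (l 6)) (b (b (c (c (l 16774480) (l 16771848)) (l 16773128)) (c (l 16770216) (l 16770136))) (l 6))) (b (a (b (c (l 16770840) (l 16770784)) (c (l 16769200) (l 16769096))) (c (b (l 16769816) (l 16768168)) (b (l 16769744) (l 16768056)))) (b (c (l 16768320) (l 16768176)) (l 6)))) (a (b (a (b (a (b (l 16773464) (l 6)) (b (l 16775560) (l 16772064))) (l 6)) (b (c (l 16773056) (l 16771656)) (c (l 16770016) (l 16769856)))) (l 6)) (b (b (c (c (l 16771504) (l 16770136)) (c (l 16770072) (l 16769992))) (c (c (l 16768472) (l 16768384)) (c (l 16768288) (l 16768184)))) (a (l 6) (a (l 6) (b (l 16765736) (l 6))))))) (c (b (b (c (a (l 16769584) (l 16766208)) (a (l 16769496) (l 16766088))) (a (c (l 16766616) (l 16766488)) (c (l 16764544) (l 16764384)))) (a (c (b (l 16764944) (l 16763240)) (b (l 16764768) (l 16763016))) (c (b (l 16762856) (l 16761144)) (b (l 16762656) (l 16760912))))) (b (a (c (b (l 16769360) (l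 16766304)) (b (l 16769176) (l 16766064))) (b (c (l 16765920) (l 16765696)) (c (l 16764168) (l 16763896)))) (a (c (b (l 16764536) (l 16762736)) (b (l 16764240) (l 16762392))) (c (b (l 16762392) (l 16760600)) (b (l 16762064) (l 16760216))))))) (b (b (a (l 6) (a (l 6) (a (l 6) (c (l 16758760) (l 16758024))))) (l 6)) (l 6))), by decide +kernel⟩

def k62_pm_012 : ∃ t, chk3 f_pm_012 t 69 62 1 = true :=
  ⟨(b (b (c (a (a (b (a (l 16764584) (l 16763536)) (l 16763688)) (b (l 16761968) (l 16760272))) (c (a (l 16759096) (l 16756992)) (b (l 16758704) (l 16756984)))) (a (b (a (a (l 16764208) (l 16763128)) (l 16762824)) (a (a (l 16762424) (l 16761344)) (l 16759728))) (c (b (l 16761064) (l 16756680)) (b (l 16760712) (l 16758904))))) (b (a (a (c (l 16763288) (c (l 16760256) (l 16759888))) (c (l 16758552) (l 16757920))) (a (c (l 16756440) (l 16755768)) (c (l 16754296) (c (l 16753800) (l 16753344))))) (a (a (c (l 16758928) (c (l 16758456) (l 16758032))) (c (l 16758760) (c (l 16756296) (l 16755848)))) (c (a (c (l 16754808) (l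 16754520)) (l 16752536)) (a (a (l 16755768) (l 16754688)) (l 16754336)))))) (b (b (a (c (a (c (l 16757280) (l 16758296)) (c (l 16755176) (l 16754856))) (b (a (l 16756864) (c (l 16754920) (l 16754432))) (a (c (l 16756152) (l 16755672)) (l 16753704)))) (c (l 16754344) (c (l 16751104) (l 16750576)))) (a (a (a (l 6) (c (l 16754752) (l 16753888))) (c (l 16753112) (l 16752208))) (c (l 16755072) (l 16752800)))) (b (a (a (l 6) (c (l 16751184) (l 16750208))) (c (l 16747904) (l 16752112))) (a (l 6) (c (l 16745976) (l 16744848)))))), by decide +kernel⟩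

def k63_pm_012 : ∃ t, chk3 f_pm_012 t 35 62 1 = true :=
  ⟨(a (b (a (a (b (c (c (l 16754872) (l 16754656)) (c (l 16754344) (l 16753920))) (c (b (l 16752192) (l 16750328)) (b (c (l 16751656) (l 16751160)) (l 16749472)))) (b (b (c (l 16753528) (l 16752888)) (c (l 16751800) (c (l 16751304) (l 16750832)))) (c (l 16749072) (l 16753464)))) (a (b (c (b (l 16751392) (l 16749680)) (b (l 16750712) (l 16748904))) (c (l 16746880) (l 16745984))) (c (b (b (l 16749288) (l 16747464)) (l 16744696)) (b (b (l 16748560) (l 16746656)) (l 16743760))))) (a (c (b (c (l 16746592) (l 16746192)) (l 16745200)) (b (c (l 16745696) (l 16745096)) (c (l 16741744) (l 16741072)))) (b (c (l 16747280) (l 16746200)) (c (l 16738216) (l 16736976))))) (b (b (c (a (l 16747720) (l 16740728)) (a (c (l 16744520) (l 16743976)) (l 16739808))) (a (c (l 16741416) (l 16745656)) (c (l 16737056) (l 16735968)))) (b (a (c (l 16737672) (l 16736512)) (c (l 16733312) (l 16732064))) (c (a (l 16733856) (l 16729504)) (c (l 16735944) (l 16735160)))))), by decide +kernel⟩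

def k64_pm_012 : ∃ t, chk3 f_pm_012 t 17 63 1 = true :=
  ⟨(a (a (l 6) (b (a (l 6) (a (l 6) (b (b (l 16747600) (l 6)) (l 6)))) (l 6))) (b (a (b (c (a (l 16743920) (l 16734328)) (a (l 16742608) (l 16732936))) (c (c (l 16738112) (l 16737432)) (c (l 16736688) (l 16735856)))) (b (c (a (l 16729984) (l 16725640)) (a (l 16728512) (l 16724096))) (c (l 16729104) (l 16727464)))) (a (a (l 6) (a (l 6) (b (l 16724456) (l 6)))) (b (c (l 16730344) (l 16728568)) (c (l 16726272) (l 16724368)))))), by decide +kernel⟩

def k65_pm_012 : ∃ t, chk3 f_pm_012 t 72 28 1 = true :=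
  ⟨(l 3), by decide +kernel⟩

def k66_pm_012 : ∃ t, chk3 f_pm_012 t 73 56 1 = true :=
  ⟨(l 3), by decide +kernel⟩

def k67_pm_012 : ∃ t, chk3 f_pm_012 t 73 114 1 = true :=
  ⟨(a (l 3) (b (l 3) (a (l 3) (b (l 3) (a (l 3) (c (b (a (l 3) (c (l 151565372711) (l 153175984391))) (a (c (b (l 3) (l 134922374967)) (l 147270404423)) (c (c (l 80698411671) (l 80161540167)) (l 16778672)))) (b (a (l 3) (l 155860337575)) (a (l 149417886999) (l 78014055815))))))))), by decide +kernel⟩

def k68_pm_012 : ∃ t, chk3 f_pm_012 t 73 115 1 = true :=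
  ⟨(a (b (l 3) (a (l 3) (b (b (l 3) (a (l 3) (c (a (l 3) (c (b (l 3) (l 137606729143)) (l 151028500487))) (l 191830693527)))) (b (a (l 3) (c (b (a (l 161765919079) (c (l 83382766423) (l 16778496))) (a (c (l 126332439399) (l 126869309271)) (l 16778656))) (a (c (l 142975435287) (l 169818985095)) (l 72645346391)))) (c (a (a (l 3) (c (b (l 150491630439) (l 115058149943)) (b (l 153175985159) (l 115058149143)))) (c (c (l 16778280) (l 16778656)) (l 16778272))) (a (c (l 176261437607) (l 177872044327)) (l 58686702455))))))) (b (a (b (l 3) (a (c (c (l 180556406999) (l 184314502279)) (l 210084299351)) (c (b (a (l 3) (c (b (l 141901696279) (l 88214604903)) (l 124721824967))) (a (c (b (l 132774890919) (l 81235283111)) (l 116668761111)) (l 16778728))) (b (a (l 3) (l 149954761527)) (c (a (l 116668760343) (l 16777952)) (l 77477181527)))))) (c (a (b (b (a (l 3) (c (b (l 158544694455) (l 126332440039)) (l 140291082679))) (a (c (b (l 150491630807) (l 117742505207)) (l 132774888903)) (c (l 16779144) (l 16778584)))) (c (c (l 16778888)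 (l 16778576)) (l 16778144))) (b (a (b (c (l 75329702647) (l 16778632)) (l 16778584)) (l 16778432)) (l 16777416))) (b (a (b (a (l 3) (l 168745244487)) (a (l 159618437911) (l 16777840))) (c (l 16777800) (l 16777312))) (c (l 16777120) (l 16776624))))) (b (a (c (a (a (b (c (l 156934081431) (l 159081564103)) (c (b (l 112910666631) (l 16778984)) (l 80161539255))) (b (c (b (l 123111214135) (l 16779040)) (l 86067119111)) (l 16778552))) (c (l 16778496) (l 16777920))) (a (b (a (l 162302788295) (c (l 84456505591) (l 16777656))) (c (l 69424119159) (l 16777520))) (l 16777160))) (c (c (l 16776824) (l 16776216)) (l 16780648))) (c (a (c (l 16780312) (l 16777120)) (l 16780112)) (a (c (l 16776592) (l 16776128)) (l 16773792)))))), by decide +kernel⟩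

def k69_pm_012 : ∃ t, chk3 f_pm_012 t 74 56 1 = true :=
  ⟨(b (l 3) (a (b (l 3) (a (l 3) (b (l 3) (b (l 3) (a (l 3) (a (l 3) (c (c (l 140291084167) (l 141364825047)) (l 142975436423)))))))) (b (a (a (l 3) (b (l 3) (c (c (l 169282118455) (l 171966466439)) (l 176798313351)))) (c (b (c (a (l 175187693351) (b (a (l 3) (l 117205635239)) (a (l 115058151527) (l 16779744)))) (a (l 178945788359) (b (l 135459245239) (l 84993377879)))) (a (b (a (l 155860340007) (c (l 112373796759) (l 112373795591))) (c (a (l 109689442135) (l 16779640)) (l 81235281351))) (c (l 16779424) (l 16778688)))) (b (a (l 178945796999) (b (a (l 3) (l 117742503927)) (l 97878278887))) (a (b (a (l 161765920103) (l 112373794791)) (l 79624667927)) (l 16777696))))) (a (c (c (b (a (b (l 3) (l 158544700151)) (a (b (l 149954760567) (l 88751476439)) (b (l 91435831063) (l 16779528)))) (a (b (a (l 143512309623) (l 85530250903)) (c (l 72645347911) (l 16779336))) (l 16779112))) (b (a (l 169282122295) (b (a (l 151565372119) (l 16778984)) (l 76940314215))) (a (b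 (a (l 144586050311) (l 16778928)) (l 16778840)) (l 16778400)))) (b (a (b (l 3) (l 163913411639)) (b (a (l 154786597495) (l 16778112)) (l 75866571799))) (a (b (a (l 147270404039) (l 16778072)) (l 71034733879)) (l 16777456)))) (c (b (c (l 16778856) (l 16778112)) (l 16782432)) (c (l 16776800) (l 16776176))))))), by decide +kernel⟩

def k70_pm_012 : ∃ t, chk3 f_pm_012 t 75 56 1 = true :=
  ⟨(b (a (b (a (l 3) (a (b (l 3) (c (b (c (l 140291087495) (l 141364825351)) (c (a (l 125258699751) (l 16780024)) (l 106468214711))) (b (l 142975436359) (l 106468213639)))) (c (b (a (b (l 3) (l 127406184071)) (b (l 127943055111) (l 16779712))) (c (l 16779920) (l 16779112))) (b (c (l 125258702647) (l 124184950759)) (l 16778032))))) (b (a (a (l 3) (c (b (a (l 3) (c (l 124184957815) (l 124184956151))) (c (a (l 122574344903) (l 16779936)) (l 104320730791))) (b (l 141901694535) (l 104857600743)))) (c (c (a (l 16779808) (l 16779056)) (l 16778664)) (c (l 16777920) (l 16777240)))) (a (c (a (b (a (l 3) (c (l 120963731991) (l 120963730503)))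 (c (a (l 119353119095) (l 16779840)) (l 101636376103))) (c (l 16779688) (l 16778920))) (a (a (l 139754216167) (l 86603989591)) (l 16777880))) (c (l 16777960) (l 16776416))))) (c (b (a (a (a (b (l 68887253943) (l 16778984)) (l 16779048)) (l 16778328)) (l 16776568)) (c (l 16780624) (l 16779712))) (a (b (c (l 16777592) (l 16776872)) (l 16774608)) (b (l 16774856) (l 16771872))))) (a (a (c (a (b (c (b (l 16779560) (l 16778552)) (l 16778344)) (l 16776048)) (b (l 16782936) (l 16774728))) (b (c (l 16777120) (l 16776464)) (l 16779192))) (b (c (l 16781088) (l 16774312)) (c (l 16772656) (l 16781664)))) (b (c (b (l 16783016) (l 16781360)) (l 16780616)) (c (l 16778816) (l 16777336))))), by decide +kernel⟩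

def k71_pm_012 : ∃ t, chk3 f_pm_012 t 74 114 1 = true :=
  ⟨(a (a (b (b (l 3) (b (l 3) (a (l 3) (a (l 3) (c (c (b (l 138143600983) (l 88751476439)) (l 122037471111)) (l 122574341143)))))) (c (b (a (b (a (l 3) (l 163376537447)) (a (c (l 157470952727) (l 159081564391)) (c (b (l 124721827575) (l 16779296)) (l 110763181831)))) (a (b (c (b (l 131701149703) (l 83919638183)) (l 116668761895)) (l 16778912)) (c (l 16779128) (l 16778496)))) (a (a (b (c (b (l 117742505463) (l 16779256)) (l 84456507175)) (l 16778760)) (l 16779944)) (l 16777944))) (b (a (b (l 178408915543) (a (l 161765917527) (l 110763181127))) (c (b (l 80161537511) (l 16777888)) (l 72108471831))) (a (c (l 66202893047) (l 16777464)) (l 16776760))))) (b (a (a (b (l 3) (b (c (c (b (l 143512309479) (l 113447538439)) (l 127406180567)) (l 128479921335)) (c (l 66739769703) (l 16777904)))) (b (b (l 3) (c (c (b (l 148881018567) (l 119353118711)) (l 132238018871)) (l 133311759607))) (c (c (l 61907930023) (l 16778640)) (l 16777792)))) (c (b (b (a (c (b (l 153712856759)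 (l 124721827975)) (l 137069857399)) (c (l 78550929063) (l 16778864))) (c (l 66202897287) (l 16778736))) (l 16781008)) (b (b (a (l 138143597991) (l 16778016)) (l 16777872)) (l 16777144)))) (c (c (c (l 16777456) (l 16777104)) (l 16779216)) (c (l 16775976) (l 16775416))))) (a (c (a (b (c (l 16780968) (l 16777640)) (l 16775000)) (b (l 16782072) (l 16773640))) (b (c (l 16776424) (l 16775832)) (c (l 16773344) (l 16772776)))) (b (c (c (l 16775280) (l 16774520)) (l 16781392)) (c (l 16782032) (l 16780752))))), by decide +kernel⟩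

def k72_pm_012 : ∃ t, chk3 f_pm_012 t 74 115 1 = true :=
  ⟨(a (b (c (a (c (c (l 16776856) (l 16776520)) (l 16778168)) (c (l 16774040) (l 16773376))) (a (c (l 16778072) (l 16774928)) (c (l 16772776) (l 16772256)))) (a (c (c (l 16773328) (l 16772704)) (c (l 16772152) (l 16782160))) (c (l 16778072) (l 16779600)))) (b (a (c (l 16776152) (l 16780200)) (c (l 16778536) (l 16766872))) (c (c (l 16776744) (l 16776104)) (l 16775336)))), by decide +kernel⟩

def k73_pm_012 : ∃ t, chk3 f_pm_012 t 75 57 1 = true :=
  ⟨(b (a (b (c (c (l 16781600) (l 16780816)) (c (l 16780120) (l 16779528))) (c (c (l 16778104) (l 16777360)) (l 16776448))) (c (b (l 16775352) (l 16771832)) (c (l 16762080) (l 16761544)))) (c (a (b (l 16774176) (l 16770592)) (l 16763856)) (a (c (l 16771512) (l 16760664)) (l 16766856)))), by decide +kernel⟩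

def k74_pm_012 : ∃ t, chk3 f_pm_012 t 72 116 1 = true :=
  ⟨(a (l 3) (b (l 3) (a (b (l 3) (b (l 3) (b (l 3) (a (l 3) (a (l 3) (c (c (a (l 156397211351) (l 114521279079)) (l 132774888663)) (l 159618437223))))))) (b (b (a (l 3) (a (l 3) (c (a (c (l 146733536423) (l 148344145719)) (b (l 140291083943) (l 16778544))) (c (l 155323469879) (l 155860340263))))) (a (c (c (l 178408922791) (l 182167013031)) (l 207936815607)) (c (a (c (b (a (l 160155306503) (l 120963730311)) (l 80161540295)) (b (l 138143598279) (l 16778304))) (c (l 16778632) (l 16778168))) (a (c (l 140291083895) (l 140291083191)) (l 16777552))))) (c (a (a (b (c (b (l 3) (l 147270404599)) (l 161765923527)) (b (a (a (l 137606729287) (l 92509572519)) (l 16778472)) (l 16778392))) (b (a (b (l 144586051399) (l 78014057783)) (c (l 72645347463) (l 16778272))) (l 16778160))) (c (l 16778008) (l 16777528))) (a (b (a (l 166060889719) (c (l 83919633687) (l 82309020407))) (c (a (l 16777200) (l 16777520)) (l 16776040))) (c (l 16777088) (l 16776696)))))))), by decide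 +kernel⟩

def k75_pm_012 : ∃ t, chk3 f_pm_012 t 144 117 1 = true :=
  ⟨(b (a (l 3) (b (l 3) (a (l 3) (c (b (a (l 3) (b (l 3) (c (a (l 3) (l 134922373847)) (l 151028500007)))) (b (a (l 3) (c (a (l 123648084327) (l 16778560)) (l 85530247975))) (a (c (a (l 155860340391) (l 112373795111)) (l 132238017335)) (l 16778264)))) (a (c (l 191293820231) (l 195051918583)) (b (l 190220075447) (c (l 74255957191) (l 16777456)))))))) (a (b (b (l 3) (a (l 3) (a (l 3) (c (c (l 171429600487) (l 175187690871)) (l 201494364567))))) (a (a (l 3) (b (l 3) (c (b (c (l 167134627847) (l 170892723511)) (c (a (l 145659792279) (l 83919636391)) (l 145659792999))) (c (l 167134631879) (l 169282109719))))) (a (c (a (b (l 3) (b (b (l 131164277719) (l 16778264)) (l 16778184))) (b (b (l 3) (c (l 126869309575) (l 127406179703))) (l 16778136))) (b (b (l 3) (l 169818984871)) (c (l 69424118951) (l 16777384)))) (c (b (c (b (a (l 139217341143) (l 16778480)) (l 16778416)) (b (l 118816249287) (l 16778032))) (l 16777816)) (c (c (l 62981670167) (l 62981670167))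 (l 61907928599)))))) (a (b (a (b (l 3) (b (c (c (a (l 162302789751) (l 119889987767)) (l 162302792807)) (l 163913404807)) (c (c (c (l 77477184855) (l 16778400)) (l 16778120)) (l 74792829495)))) (c (b (b (c (l 155860338855) (l 158544692663)) (c (a (l 131701148135) (l 16778528)) (l 112910664247))) (c (l 16778336) (l 16777936))) (b (c (b (l 162302789703) (l 113447534487)) (l 120963734247)) (l 16777408)))) (c (c (l 16777592) (l 16777184)) (c (l 16776808) (l 16776480)))) (b (a (c (b (c (c (l 64055411751) (l 16778352)) (l 16778056)) (l 16777672)) (c (l 16777424) (l 16777088))) (c (l 16780120) (l 16776720))) (c (l 16778792) (l 16775408)))))), by decide +kernel⟩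

def k76_pm_012 : ∃ t, chk3 f_pm_012 t 145 117 1 = true :=
  ⟨(b (a (c (b (a (b (l 3) (c (a (l 173040208151) (b (a (l 3) (l 124721826343)) (c (l 81772152503) (l 81235281175)))) (a (l 176798303719) (b (l 142438565495) (l 16777560))))) (b (a (a (c (l 151565374375) (l 153712854615)) (b (l 147270407143) (l 78550928503))) (c (c (l 66202895703) (l 16778496)) (l 16778176))) (c (l 16778320) (l 16777872)))) (b (a (a (c (b (a (l 145659792551) (l 16778600)) (l 16778560)) (b (l 124721824535) (l 16778152))) (l 16778160)) (l 16777416)) (c (l 16780080) (l 16777008)))) (b (a (b (l 3) (a (l 182167016999) (c (l 141901697159) (l 142438567591)))) (b (a (c (l 158544695671) (l 159618437175)) (l 65666024071)) (l 16777944))) (a (a (b (b (l 148881018967) (l 16777616)) (l 16777240)) (l 16777064)) (l 16776208)))) (c (c (b (c (l 16777200) (l 16776944)) (l 16775368)) (b (l 16779216) (l 16774896))) (b (c (l 16776160) (l 16775776)) (c (l 16774472) (l 16774104))))) (a (c (b (c (l 16776216) (l 16775768)) (c (l 16774424) (l 16773992))) (a (c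 (l 16777768) (l 16777424)) (c (l 16773832) (l 16778736)))) (b (c (c (l 16773560) (l 16773104)) (l 16777768)) (c (l 16776728) (l 16770736))))), by decide +kernel⟩

def k77_pm_012 : ∃ t, chk3 f_pm_012 t 73 116 1 = true :=
  ⟨(a (b (a (b (a (l 3) (c (c (b (l 178408917735) (a (l 161765919351) (b (a (l 149417889591) (l 16778880)) (l 16778872)))) (b (l 182167013143) (a (l 164450272999) (b (l 127943050935) (l 16778392))))) (b (l 187535726199) (a (l 168208373415) (c (l 111300050695) (l 111300050087)))))) (b (a (a (l 3) (b (l 3) (c (c (l 139754212151) (l 140827953111)) (l 169818986471)))) (c (a (c (b (a (l 132774890743) (l 16778856)) (l 16778816)) (l 80698409671)) (l 16778384)) (c (a (l 79624666999) (l 16777688)) (l 16776152)))) (c (a (a (c (b (l 163376532023) (a (l 147807276711) (l 16778800))) (l 143512311527)) (c (c (l 73719088727) (l 73182217495)) (l 72645346215))) (l 16780672)) (a (a (l 168745244599) (l 72108474871)) (l 16777120))))) (a (c (b (a (b (c (b (l 139217341399) (l 84456507927)) (b (l 140827953303) (l 16778432)))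 (l 16778488)) (c (l 16778632) (l 16778112))) (l 16779952)) (a (b (b (c (l 122037468951) (l 122574339255)) (l 16777576)) (l 16776648)) (c (l 16777016) (l 16776584)))) (c (c (l 16779808) (l 16776640)) (c (l 16776136) (l 16775696))))) (b (c (a (a (a (b (c (l 64592283655) (l 16778264)) (l 16777992)) (l 16780448)) (l 16779600)) (c (l 16775344) (l 16774808))) (a (a (c (l 16777384) (l 16776976)) (l 16776040)) (l 16779352))) (c (a (c (l 16776232) (l 16775720)) (l 16778552)) (a (c (l 16775264) (l 16774864)) (l 16777632))))) (a (b (c (c (c (l 16775432) (l 16775128)) (l 16777328)) (c (l 16776824) (l 16778992))) (c (c (l 16776968) (l 16776432)) (c (l 16775968) (l 16770336)))) (c (b (c (l 16772560) (l 16771976)) (l 16776512)) (b (c (l 16776712) (l 16776280)) (l 16767744))))), by decide +kernel⟩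

def k78_pm_012 : ∃ t, chk3 f_pm_012 t 73 117 1 = true :=
  ⟨(c (a (b (a (b (a (l 16774896) (l 16773552)) (l 16777672)) (c (l 16776080) (l 16775592))) (c (a (l 16775128) (l 16772352)) (a (l 16774688) (l 16766664)))) (b (a (l 16775656) (l 16764976)) (l 16767912))) (c (a (b (a (c (l 16772768) (l 16777816)) (l 16775168)) (l 16770960)) (b (l 16765752) (l 16762344))) (a (b (a (l 16777544) (l 16769576)) (l 16767392)) (l 16769104)))), by decide +kernel⟩

def k79_pm_012 : ∃ t, chk3 f_pm_012 t 36 59 1 = true :=
  ⟨(a (b (a (b (a (b (c (a (b (a (b (c (a (l 3) (l 132238018727)) (l 151028499815)) (c (a (l 118816245591) (l 16778384)) (l 82309021927))) (c (l 57076090151) (l 16777904))) (c (l 16777896) (l 16777512))) (c (l 16777160) (l 16776760))) (a (b (a (c (b (l 175187692711) (l 81235279623)) (l 132774886951)) (l 57076089479)) (l 16779632)) (c (l 16776400) (l 16776080)))) (c (c (c (l 16776160) (l 16775960)) (l 16778288)) (c (l 16777944) (l 16777640)))) (b (c (c (l 16775256) (l 16774848)) (c (l 16774480) (l 16774160)))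 (c (c (l 16773408) (l 16773016)) (l 16777760)))) (a (b (c (c (l 16774216) (l 16773848)) (c (l 16778760) (l 16778480))) (c (c (l 16772328) (l 16777216)) (l 16776784))) (b (c (l 16776568) (l 16770696)) (c (l 16774672) (l 16768848))))) (c (b (a (b (c (l 16772568) (l 16772160)) (l 16775728)) (c (l 16774128) (l 16768488))) (c (b (l 16772656) (l 16765504)) (l 16768720))) (b (a (a (l 16777960) (l 16770056)) (l 16770632)) (l 16770392)))) (b (a (a (c (b (l 16775480) (l 16768312)) (l 16771376)) (c (l 16769176) (l 16771552))) (c (l 16767936) (l 16768360))) (c (a (c (l 16766824) (l 16769608)) (l 16765296)) (a (c (l 16769784) (l 16764640)) (l 16765576))))) (a (b (c (b (c (l 16767352) (l 16766952)) (l 16766312)) (b (l 16769416) (l 16766808))) (c (c (l 16762320) (l 16762568)) (c (l 16760088) (l 16760112)))) (b (c (b (l 16764624) (l 16762160)) (c (l 16763816) (l 16763952))) (b (c (l 16754368) (l 16765128)) (c (l 16751744) (l 16762360)))))), by decide +kernel⟩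

def k80_pm_012 : ∃ t, chk3 f_pm_012 t 37 29 1 = true :=
  ⟨(b (c (a (b (b (a (a (c (l 16769760) (l 16779664)) (l 16777104)) (l 16772800)) (a (c (l 16772544) (l 16764144)) (l 16769152))) (a (b (l 16771200) (l 16768120)) (l 16762536))) (b (a (l 16760256) (l 16761440)) (b (l 16760152) (l 16757864)))) (a (a (b (b (c (l 16777752) (l 16766856)) (l 16774008)) (c (l 16764632) (l 16764880))) (b (l 16766672) (l 16760624))) (b (c (l 16761640) (l 16761976)) (a (l 16762752) (l 16760344))))) (a (b (c (a (c (l 16759088) (l 16754192)) (l 16753848)) (a (b (l 16755752) (l 16763632)) (c (l 16760768) (l 16760816)))) (b (a (c (l 16750256) (l 16750456)) (c (l 16746152) (l 16746344))) (a (c (l 16758128) (l 16747696)) (c (l 16743552) (l 16743592))))) (b (a (c (l 16756320) (c (l 16746216) (l 16746232))) (c (l 16752304) (b (l 16743504) (l 16740920)))) (a (c (c (l 16740656) (l 16740912)) (b (l 16742280) (l 16739544))) (c (l 16747304) (b (l 16738272) (l 16735552))))))), by decide +kernel⟩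

def k81_pm_012 : ∃ t, chk3 f_pm_012 t 38 14 1 = true :=
  ⟨(b (b (a (b (a (b (c (l 16782968) (l 16781192)) (c (l 16779696) (l 16778008))) (b (c (l 16777056) (l 16764776)) (l 16778008))) (c (a (b (l 16776312) (l 16772864)) (l 16768504)) (b (c (l 16772072) (l 16771416)) (l 16768376)))) (a (b (a (l 16775048) (l 16766680)) (l 16763312)) (b (l 16761928) (l 16758184)))) (b (a (a (c (l 16764976) (l 16766936)) (l 16763584)) (c (l 16755536) (l 16757128))) (a (a (l 16765888) (c (l 16747112) (l 16748392))) (c (l 16751776) (c (l 16742336) (l 16753208)))))) (b (b (a (c (l 16752824) (a (l 16747944) (l 16754488))) (c (l 16752968) (b (l 16760288) (l 16737072)))) (a (a (b (l 16759896) (l 16757552)) (b (l 16755984) (l 16753656))) (c (c (l 16743056) (l 16733176)) (a (l 16735472) (l 16731704))))) (b (a (a (c (l 16748344) (l 16738264)) (c (l 16733976) (l 16734368))) (c (b (l 16750288) (c (l 16747528) (l 16737472))) (a (b (l 16731800) (l 16729152)) (b (l 16727920) (l 16725080))))) (b (a (c (a (l 16734160) (l 16730176)) (a (l 16734336)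 (l 16730344))) (c (a (l 16726160) (l 16721608)) (a (l 16726264) (l 16721688)))) (a (a (c (l 16731480) (l 16731512)) (c (l 16727432) (l 16727408))) (c (l 16720616) (l 16720552))))))), by decide +kernel⟩

def k82_pm_012 : ∃ t, chk3 f_pm_012 t 39 14 1 = true :=
  ⟨(b (a (b (b (c (l 16754616) (l 16746384)) (c (l 16751488) (l 16742896))) (b (a (l 16761320) (l 16757672)) (c (l 16744360) (c (l 16734896) (l 16735200))))) (b (c (c (l 16745280) (l 16746584)) (a (l 16755000) (l 16756720))) (b (a (l 16754136) (l 16750704)) (c (l 16747760) (a (l 16729736) (l 16726136)))))) (b (b (a (c (l 16750864) (a (l 16732608) (l 16728984))) (c (b (l 16744608) (l 16742192)) (a (b (l 16726512) (l 16724056)) (b (l 16722672) (l 16719552))))) (a (a (c (l 16727224) (b (l 16729184) (l 16726664))) (c (l 16744400) (b (l 16725376) (l 16722520)))) (c (a (l 16719024) (l 16714272)) (a (l 16719456) (l 16714632))))) (a (b (c (c (l 16729912) (l 16725088)) (a (b (l 16723840) (l 16720456)) (l 16717488))) (c (l 16715728) (c (l 16713168) (l 16712824))))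 (b (c (l 16710248) (c (l 16710448) (l 16710184))) (c (l 16703744) (l 16708808)))))), by decide +kernel⟩

def k83_pm_012 : ∃ t, chk3 f_pm_012 t 36 30 1 = true :=
  ⟨(b (a (b (b (c (a (l 16766776) (l 16762584)) (a (c (l 16761720) (l 16761736)) (c (l 16762728) (l 16757448)))) (c (a (l 16761352) (c (l 16759720) (l 16754592))) (a (c (l 16764064) (l 16764000)) (c (l 16754592) (l 16754472))))) (a (b (c (b (l 16764448) (l 16760368)) (c (l 16755848) (l 16755696))) (c (c (l 16752888) (l 16752896)) (c (l 16752784) (l 16752560)))) (b (c (c (l 16751640) (l 16751696)) (l 16754152)) (c (l 16751360) (l 16748440))))) (b (a (b (c (l 16753176) (l 16756848)) (c (c (l 16750336) (l 16750424)) (l 16750312))) (b (c (l 16759536) (l 16749032)) (c (l 16746280) (l 16746112)))) (b (a (c (l 16747536) (l 16747304)) (c (l 16743432) (l 16743120))) (a (c (l 16744608) (l 16744224)) (c (l 16745680) (l 16745224)))))) (b (b (a (a (b (c (l 16750640) (l 16750312)) (c (l 16749112) (l 16748704))) (c (l 16745720) (l 16745272))) (a (c (b (l 16742336)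 (l 16740784)) (b (l 16741848) (l 16740208))) (b (c (l 16738208) (l 16737616)) (l 16741496)))) (a (a (c (c (l 16746776) (l 16746664)) (c (l 16746408) (l 16746016))) (a (c (l 16743600) (l 16743032)) (c (l 16741544) (l 16746152)))) (c (a (l 16738336) (l 16733928)) (a (l 16742864) (l 16733128))))) (c (a (a (b (b (l 16749592) (l 16742672)) (l 16739976)) (b (l 16739160) (l 16735608))) (b (a (l 16734800) (l 16730440)) (l 16734312))) (a (b (a (b (a (l 16744792) (l 16742656)) (l 16741944)) (l 16738384)) (c (l 16742416) (l 16741824))) (b (a (l 16733928) (l 16729472)) (l 16733232)))))), by decide +kernel⟩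

def k84_pm_012 : ∃ t, chk3 f_pm_012 t 37 30 1 = true :=
  ⟨(b (a (b (a (b (c (l 16744960) (l 16744864)) (c (l 16742200) (l 16741960))) (b (c (l 16740880) (l 16740768)) (c (l 16738136) (l 16737872)))) (b (a (c (l 16739320) (l 16738936)) (c (l 16740456) (b (l 16735592) (l 16734024)))) (a (c (a (l 16737416) (l 16735328)) (a (l 16736864) (l 16734736))) (c (l 16731968) (l 16731384))))) (a (b (b (c (l 16736848) (l 16736736)) (c (l 16734008) (c (l 16733896) (l 16733536)))) (c (b (l 16730912) (l 16727536)) (b (l 16730464) (l 16726928)))) (b (c (b (l 16732760) (l 16729816)) (b (l 16732648) (l 16729512))) (c (l 16724768) (l 16724224))))) (c (a (b (a (b (l 16733000) (l 16729568)) (l 16732112)) (a (b (l 16726072) (l 16722528)) (l 16719872))) (b (c (l 16725496) (l 16725272)) (b (l 16714920) (l 16711360)))) (a (b (a (b (l 16732272) (l 16728672)) (l 16731272)) (a (l 16728416) (l 16718712))) (b (c (l 16724848) (l 16724208)) (c (l 16712344) (l 16722064)))))), by decide +kernel⟩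

def k85_pm_012 : ∃ t, chk3 f_pm_012 t 19 30 1 = true :=
  ⟨(a (b (b (b (a (a (c (l 16728648) (l 16728488)) (c (l 16724120) (l 16723944))) (c (l 16717336) (l 16717112))) (c (a (l 16723056) (l 16714016)) (a (l 16722728) (l 16713632)))) (a (c (c (l 16718024) (l 16717976)) (c (l 16717696) (l 16722408))) (c (c (l 16708952) (l 16708896)) (c (l 16708592) (l 16708032))))) (c (b (a (a (l 16713440) (l 16708912)) (l 16707296)) (a (b (l 16705896) (l 16702328)) (l 16700232))) (b (a (c (l 16710592) (l 16709928)) (c (l 16701472) (l 16700784))) (a (b (l 16704800) (l 16701088)) (l 16704304))))) (a (b (b (c (l 16709120) (c (l 16706320) (l 16705856))) (c (l 16699728) (l 16704312))) (b (c (l 16692808) (l 16702368)) (c (l 16685728) (l 16684560)))) (b (b (c (l 16697096) (l 16707128)) (c (l 16690304) (l 16689592))) (b (c (l 16683376) (l 16682424)) (c (l 16676304) (l 16675128)))))), by decide +kernel⟩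

def k86_pm_012 : ∃ t, chk3 f_pm_012 t 9 31 1 = true :=
  ⟨(a (b (a (c (b (b (a (a (l 16736368) (l 16732000)) (l 16730704)) (a (a (l 16732688) (l 16728336)) (l 16721800))) (b (a (l 16732016) (l 16718080)) (a (l 16728224) (l 16714304)))) (b (a (b (a (l 16735352) (l 16730904)) (a (l 16731520) (l 16727080))) (a (l 16729800) (l 16730600))) (a (b (l 16730648) (l 16731952)) (b (l 16716552) (l 16712632))))) (c (b (a (b (l 16721944) (l 16718288)) (b (l 16707744) (l 16704088))) (a (c (l 16713048) (l 16712320)) (l 16703744))) (b (a (a (l 16726160) (l 16711216)) (b (l 16706368) (l 16702576))) (a (c (l 16716704) (l 16715720)) (l 16707280))))) (b (a (a (b (c (l 16719128) (l 16717472)) (c (l 16715208) (l 16713424))) (b (c (l 16710464) (l 16708664)) (c (l 16706568) (l 16704640)))) (a (a (c (l 16702040) (l 16700072)) (c (l 16697592) (l 16695632))) (c (l 16701352) (l 16699416)))) (a (a (b (c (l 16711224) (l 16709312)) (c (l 16707184) (l 16705152))) (b (c (l 16702608) (l 16700568)) (l 16708032))) (b (a (c (l 16693928) (l 16691792))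 (l 16694496)) (a (l 16696712) (l 16679984)))))) (b (a (a (b (c (l 16702128) (l 16705936)) (c (l 16689464) (l 16687784))) (b (c (l 16687752) (l 16686328)) (c (l 16680336) (l 16678696)))) (a (b (c (l 16678496) (l 16677096)) (c (l 16671112) (l 16669496))) (b (c (l 16669096) (l 16667712)) (c (l 16661736) (l 16660168))))) (a (a (b (c (l 16681848) (l 16679952)) (c (l 16674048) (l 16671960))) (b (c (l 16672760) (l 16670912)) (c (l 16665000) (l 16662976)))) (a (b (c (l 16663560) (l 16661768)) (l 16675912)) (b (l 16677040) (l 16666696)))))), by decide +kernel⟩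

def k87_pm_012 : ∃ t, chk3 f_pm_012 t 40 6 1 = true :=
  ⟨(b (b (a (b (a (l 3) (b (l 3) (a (l 3) (l 168745266983)))) (a (b (l 3) (a (l 3) (l 156397237079))) (b (a (l 163913428999) (l 16783680)) (c (l 16784696) (l 16780616))))) (b (a (a (b (l 171429621207) (l 16784224)) (b (l 16784768) (l 16783224))) (c (l 16784256) (l 16779128))) (a (c (l 16782504) (l 16788336)) (c (l 16777072) (l 16792936))))) (a (a (b (a (b (c (l 120426877927) (l 16781208)) (l 16781672)) (b (l 16782448) (l 16779864))) (b (c (l 16779408) (l 16775544)) (l 16793928))) (b (b (l 16790320) (l 16797016)) (b (l 16792504) (l 16787504)))) (b (a (c (l 16795480) (l 16790904)) (b (l 16788712) (l 16783808))) (a (b (l 16785824) (l 16780552)) (l 16786432))))) (a (b (b (c (b (l 16787504) (l 16781720)) (a (l 16784384) (l 16777488))) (a (b (l 16777352) (l 16771232)) (l 16773920))) (b (a (l 16760200) (l 16759736)) (b (l 16757952) (l 16757936)))) (a (b (b (l 16782544) (l 16759928)) (b (l 16756416) (c (l 16729528) (l 16752912)))) (b (b (l 16764640) (l 16756440))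 (b (l 16753280) (c (l 16726688) (l 16728888))))))), by decide +kernel⟩

def k88_pm_012 : ∃ t, chk3 f_pm_012 t 41 6 1 = true :=
  ⟨(a (b (b (b (a (b (l 16777840) (l 16774016)) (c (l 16771880) (l 16786912))) (a (a (l 16790304) (l 16786616)) (l 16780672))) (b (a (l 16778816) (l 16781168)) (a (l 16768272) (l 16760024)))) (b (b (a (l 16756928) (l 16753176)) (a (l 16753528) (l 16751248))) (b (a (l 16750528) (c (l 16746672) (l 16749232))) (a (b (l 16726536) (l 16744648)) (b (l 16744304) (c (l 16717848) (l 16719336))))))) (a (b (b (b (c (l 16784536) (l 16778464)) (b (l 16774384) (l 16769472))) (b (b (l 16764400) (l 16759184)) (l 16753112))) (b (b (l 16746528) (c (l 16747784) (l 16750872))) (b (b (l 16756808) (c (l 16741480) (l 16743472))) (c (l 16733712) (l 16735248))))) (a (b (b (a (b (l 16754464) (l 16744880)) (b (l 16751920) (l 16742296))) (b (a (l 16734704) (l 16733264)) (a (l 16732088) (l 16732184)))) (b (a (b (l 16730400) (l 16748032)) (b (l 16730072) (l 16756000))) (b (c (l 16735864) (l 16737976)) (c (l 16725552)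 (l 16727080))))) (b (b (b (l 16768768) (l 16759248)) (b (l 16754800) (c (l 16730032) (l 16734256)))) (b (b (a (a (a (l 16729520) (c (l 16726032) (l 16750496))) (l 16726888)) (l 16726920)) (c (l 16718136) (l 16741784))) (b (c (l 16708384) (l 16731432)) (c (l 16719368) (l 16720864)))))))), by decide +kernel⟩

def k89_pm_012 : ∃ t, chk3 f_pm_012 t 21 6 1 = true :=
  ⟨(a (b (b (b (l 16781656) (l 16760456)) (b (l 16757288) (l 16764664))) (b (b (c (l 16747256) (l 16769480)) (c (l 16726000) (l 16737376))) (b (b (l 16718320) (l 16712768)) (c (c (l 16714504) (l 16714800)) (l 16722632))))) (b (b (b (l 16743208) (l 16764256)) (b (l 16740160) (l 16734880))) (b (b (b (l 16730688) (l 16725360)) (b (l 16718816) (l 16712256))) (b (b (l 16705688) (l 16699120)) (b (l 16692584) (l 16686024)))))), by decide +kernel⟩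

def k90_pm_012 : ∃ t, chk3 f_pm_012 t 11 6 1 = true :=
  ⟨(b (a (b (b (l 16745096) (l 16745032)) (b (a (l 16742784) (l 16744416)) (a (l 16737992) (l 16740928)))) (b (b (l 16750240) (l 16749016)) (b (l 16746968) (l 16744072)))) (b (b (a (a (l 16730120) (l 16734168)) (a (l 16738208) (l 16741568))) (a (a (l 16716648) (l 16719816)) (a (b (l 16730112) (l 16720600)) (b (l 16736104) (l 16727632))))) (a (b (a (l 16701552) (l 16702784)) (a (b (l 16690192) (l 16682640)) (b (l 16689912) (l 16681320)))) (b (a (l 16706352) (c (l 16720496) (l 16704712))) (a (c (l 16692848) (l 16681176)) (c (l 16698512) (l 16683528))))))), by decide +kernel⟩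

def k91_pm_012 : ∃ t, chk3 f_pm_012 t 20 14 1 = true :=
  ⟨(a (b (a (b (b (a (l 16754088) (l 16750832)) (a (l 16750880) (l 16747688))) (a (b (l 16747408) (c (l 16721472) (b (l 16723720) (l 16721136)))) (b (c (l 16722104) (l 16723232)) (c (l 16716952) (l 16717736))))) (a (b (c (l 16744928) (b (l 16727488) (l 16723832))) (b (c (l 16717920) (l 16718888)) (c (l 16711840) (l 16712512)))) (b (b (l 16747200) (c (l 16718440) (l 16719592))) (b (l 16713136) (l 16706960))))) (b (b (c (a (l 16713224) (l 16702976)) (a (l 16713752) (l 16703320))) (c (a (l 16706960) (l 16696712)) (a (l 16707208) (l 16696792)))) (a (b (c (l 16700568) (l 16700536)) (c (l 16694040) (l 16693752))) (b (c (l 16690328) (l 16690152)) (c (l 16683816) (l 16683416)))))) (a (c (b (a (b (b (l 16718512) (l 16712728)) (l 16701576)) (b (l 16709312) (b (l 16700568) (l 16694616)))) (b (b (l 16691488) (l 16706264)) (b (l 16699960) (l 16693544)))) (b (b (b (a (l 16719832) (l 16713344)) (l 16710376)) (b (l 16704240) (l 16698000))) (b (b (l 16691664) (l 16685232))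 (b (l 16678712) (l 16672088))))) (b (a (b (b (l 16731392) (c (l 16698840) (l 16699672))) (b (c (l 16693104) (l 16693672)) (c (l 16687272) (l 16687592)))) (b (c (a (l 16714864) (l 16709008)) (a (l 16715840) (l 16709976))) (b (a (l 16707000) (l 16701384)) (a (l 16701240) (l 16695808))))) (b (a (c (b (l 16681336) (l 16675288)) (b (l 16681424) (l 16675176))) (c (a (l 16692328) (l 16685840)) (a (l 16692368) (l 16687240)))) (a (b (c (l 16669144) (l 16668832)) (l 16683720)) (a (c (l 16680448) (l 16680136)) (b (l 16678512) (l 16672568)))))))), by decide +kernel⟩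

def k92_pm_012 : ∃ t, chk3 f_pm_012 t 21 14 1 = true :=
  ⟨(b (b (b (a (c (l 16685384) (l 16685176)) (l 16679432)) (a (c (l 16679712) (l 16679320)) (l 16672824))) (a (c (c (l 16692072) (l 16691944)) (l 16696632)) (b (l 16666152) (l 16680392)))) (b (a (b (l 16688088) (l 16682024)) (b (l 16673624) (l 16666808))) (a (b (l 16670648) (l 16664440)) (b (l 16659952) (l 16653056))))), by decide +kernel⟩

def k93_pm_012 : ∃ t, chk3 f_pm_012 t 10 15 1 = true :=
  ⟨(a (a (a (b (b (b (c (l 16687384) (l 16686848)) (c (l 16680592) (l 16679832))) (b (c (l 16673680) (l 16672704)) (c (l 16666640) (l 16665456)))) (b (b (c (l 16659464) (l 16658104)) (c (l 16652168) (l 16650648))) (b (l 16664952) (l 16657320)))) (b (b (a (b (l 16679680) (l 16672800)) (b (l 16674400) (l 16667568))) (b (b (l 16685904) (l 16682392)) (c (l 16656592) (l 16655424)))) (b (b (c (l 16649504) (l 16648176)) (l 16662608)) (b (l 16655216) (l 16626736))))) (b (c (b (a (b (l 16687024) (l 16680384)) (a (c (l 16674384) (l 16674208)) (a (l 16668160) (l 16663672))))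 (a (b (l 16673648) (l 16666800)) (a (l 16661200) (b (l 16656744) (l 16650352))))) (a (b (b (l 16665384) (l 16658584)) (a (l 16672096) (l 16666456))) (b (a (c (l 16673848) (l 16673288)) (a (l 16646584) (l 16642192))) (a (b (l 16642616) (l 16635840)) (b (l 16661248) (l 16649520)))))) (b (a (b (l 16664552) (l 16652184)) (a (a (l 16648792) (l 16645640)) (a (l 16641888) (l 16638120)))) (a (c (l 16642024) (l 16651008)) (a (l 16633120) (c (l 16632560) (l 16631352))))))) (b (b (a (b (l 16658152) (l 16651800)) (b (l 16646120) (l 16639144))) (a (b (l 16645360) (l 16638848)) (c (l 16629960) (l 16627216)))) (b (a (b (l 16632256) (l 16625584)) (a (l 16618024) (l 16611024))) (a (c (l 16616120) (l 16614728)) (l 16610664))))), by decide +kernel⟩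

def k94_pm_012 : ∃ t, chk3 f_pm_012 t 11 7 1 = true :=
  ⟨(b (b (a (b (a (c (l 16673968) (l 16668552)) (b (l 16672744) (l 16664208))) (a (b (l 16660040) (l 16652504)) (b (l 16655720) (l 16647248)))) (b (a (c (l 16673312) (l 16662192)) (c (l 16676680) (l 16662464))) (a (b (l 16653464) (l 16643952)) (c (l 16654920) (l 16641488))))) (a (a (b (c (l 16643608) (l 16638488)) (c (l 16638736) (l 16623368))) (b (c (l 16638208) (l 16630760)) (c (l 16621152) (l 16614152)))) (b (a (c (l 16634744) (l 16624808)) (c (l 16633416) (l 16620808))) (a (c (l 16615736) (l 16606464)) (c (l 16612304) (l 16621552)))))) (b (c (b (a (a (l 16622664) (l 16625064)) (a (l 16617928) (b (l 16596704) (l 16586432)))) (a (a (l 16618360) (l 16608096)) (a (l 16599304) (l 16592112)))) (b (a (b (l 16627608) (l 16619704)) (a (l 16588392) (l 16601704))) (a (a (l 16614088) (l 16581176)) (b (l 16591296) (l 16582080))))) (b (c (a (b (l 16621864) (l 16603344)) (a (l 16580960) (l 16572088))) (a (b (l 16617152) (l 16609384)) (b (l 16572968) (l 16563976))))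 (a (a (l 16601488) (c (l 16574648) (l 16569968))) (a (c (l 16562968) (l 16535928)) (c (l 16552568) (l 16523976))))))), by decide +kernel⟩

def k95_pm_012 : ∃ t, chk3 f_pm_012 t 3 2 1 = true :=
  ⟨(a (b (l 2) (b (l 2) (a (b (l 2) (a (l 16782544) (l 2))) (l 2)))) (l 2)), by decide +kernel⟩

def k96_pm_012 : ∃ t, chk3 f_pm_012 t 6 6 1 = true :=
  ⟨(b (a (b (a (b (l 16759544) (l 16757424)) (b (l 2) (l 16770856))) (a (b (l 16754632) (l 16751088)) (b (l 16767424) (l 16763296)))) (b (l 2) (a (b (l 2) (l 16781200)) (l 2)))) (a (b (a (b (l 16746752) (a (b (l 16740464) (l 16733728)) (l 16742360))) (b (l 16758456) (a (l 16748752) (l 16756336)))) (a (b (a (c (l 16729160) (l 16709952)) (l 16726360)) (a (c (l 16707304) (l 16688800)) (a (l 16683304) (l 16687152)))) (b (a (l 16733416) (l 16742248)) (a (c (l 16725624) (l 16700536)) (c (l 16734840) (l 16706768)))))) (b (a (b (l 16775920) (l 16769872)) (b (l 2) (l 16793264))) (a (b (a (l 16752776) (l 16764520)) (a (l 16730480) (l 16741984))) (b (l 16783992) (l 16762976)))))),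 by decide +kernel⟩

def k97_pm_012 : ∃ t, chk3 f_pm_012 t 6 14 1 = true :=
  ⟨(a (b (a (b (a (c (l 16682784) (l 16665296)) (b (l 16688192) (l 16674944))) (a (c (l 16658584) (l 16642088)) (b (l 16661856) (l 16648808)))) (b (a (c (l 16702280) (b (l 16684256) (l 16672032))) (a (l 16675456) (l 16700144))) (b (a (l 16670640) (c (l 16693144) (l 16666312))) (a (l 16656112) (c (l 16679096) (l 16652872)))))) (a (b (a (c (l 16634608) (l 16619152)) (c (l 16638560) (l 16625304))) (a (b (l 16609616) (l 16598248)) (c (b (l 16618896) (l 16605968)) (l 16616200)))) (b (b (a (l 16641816) (c (l 16663896) (l 16638416))) (a (l 16627600) (c (l 16647664) (l 16623056)))) (a (c (b (l 16623784) (l 16609472)) (l 16612128)) (c (b (l 16631744) (l 16615960)) (b (l 16608016) (l 16593128))))))) (b (a (b (a (c (l 16721576) (l 16691320)) (l 16716824)) (a (b (l 16687728) (l 16674784)) (c (l 16706184) (l 16674056)))) (b (a (l 16729120) (l 16743536)) (a (l 16701152) (l 16714184)))) (a (b (b (a (c (l 16675184) (l 16646680)) (l 16669448)) (a (c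 (l 16659776) (l 16632048)) (l 16634272))) (a (b (c (l 16643216) (l 16616400)) (c (l 16625656) (l 16599880))) (c (b (l 16655040) (l 16638288)) (b (l 16625248) (l 16609440))))) (b (a (c (l 16688560) (l 16654912)) (c (l 16701480) (l 16665040))) (b (a (l 16628128) (l 16659424)) (a (c (l 16649408) (l 16617744)) (l 16632648))))))), by decide +kernel⟩

def k98_pm_012 : ∃ t, chk3 f_pm_012 t 12 15 1 = true :=
  ⟨(b (a (b (a (b (l 16608040) (l 16596984)) (c (b (l 16593208) (l 16580640)) (l 16592072))) (a (b (l 16586072) (l 16575328)) (c (b (l 16568304) (l 16556152)) (l 16568832)))) (b (a (c (b (l 16595344) (l 16581424)) (b (l 16576344) (l 16563248))) (c (b (l 16600368) (a (l 16583872) (l 16586344))) (b (l 16578456) (l 16564016)))) (a (c (b (l 16567744) (l 16554312)) (b (l 16550408) (l 16537848))) (c (b (a (l 16569120) (l 16570840)) (a (l 16554640) (l 16555616))) (b (l 16549856) (l 16535992)))))) (a (b (b (a (l 16564712) (c (l 16544192) (l 16530984))) (a (l 16533280) (l 16547192))) (a (c (l 16543584) (l 16513280)) (b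 (l 16536024) (l 16504104)))) (b (a (c (b (l 16541192) (l 16528304)) (b (l 16525600) (l 16513616))) (c (b (a (l 16540464) (l 16540720)) (a (l 16526616) (l 16526152))) (b (l 16522464) (l 16509288)))) (a (c (b (l 16515696) (l 16503376)) (b (l 16501920) (l 16490544))) (c (b (l 16533424) (l 16498952)) (b (l 16496512) (l 16484080))))))), by decide +kernel⟩

def k99_pm_012 : ∃ t, chk3 f_pm_012 t 13 30 1 = true :=
  ⟨(a (b (a (c (b (l 16608488) (l 16602024)) (b (l 16583752) (l 16567872))) (b (c (l 16620400) (l 16592632)) (c (c (l 16608120) (l 16594944)) (l 16574992)))) (a (c (b (c (l 16580464) (l 16569224)) (c (l 16563808) (l 16553104))) (b (l 16552272) (l 16537000))) (c (a (b (l 16580776) (l 16563144)) (b (l 16585832) (l 16567328))) (b (l 16557848) (l 16541032))))) (b (a (b (c (a (l 16630304) (l 16635632)) (l 16601968)) (c (a (l 16611624) (l 16618232)) (a (l 16582768) (l 16587888)))) (b (c (l 16643240) (l 16609872)) (c (l 16626048) (l 16593704)))) (a (a (c (b (l 16591824) (l 16572432)) (b (l 16564304) (l 16546248)))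 (c (b (l 16598904) (c (l 16585336) (l 16571608))) (b (l 16569840) (l 16550840)))) (b (c (a (c (l 16613144) (l 16598016)) (l 16611048)) (a (l 16575056) (l 16579168))) (c (a (c (l 16592856) (l 16578392)) (b (l 16597488) (l 16587664))) (a (l 16556464) (c (l 16569472) (l 16554024)))))))), by decide +kernel⟩

def k100_pm_012 : ∃ t, chk3 f_pm_012 t 13 31 1 = true :=
  ⟨(a (b (a (c (b (c (l 16547480) (l 16537328)) (c (l 16531512) (l 16521920))) (b (l 16522080) (l 16507552))) (c (a (b (l 16545864) (l 16528968)) (b (l 16549184) (l 16531440))) (b (l 16524592) (l 16508568)))) (a (c (b (l 16532384) (l 16496544)) (b (l 16493440) (l 16479768))) (c (b (c (l 16518240) (l 16508144)) (a (l 16496464) (l 16497288))) (b (l 16493000) (l 16477920))))) (b (a (c (b (c (a (l 16559552) (l 16565016)) (a (l 16547216) (l 16551992))) (c (a (l 16540584) (l 16545104)) (l 16551696))) (b (c (l 16536720) (l 16523904)) (a (l 16511352) (l 16514224)))) (b (c (a (c (l 16571456) (l 16557728)) (b (l 16577208) (l 16566288))) (a (l 16536952) (c (l 16549992)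 (l 16535296)))) (c (a (c (l 16550568) (l 16537592)) (c (b (l 16562464) (l 16551624)) (l 16543352))) (a (l 16517976) (l 16543632))))) (c (a (b (c (a (l 16522056) (l 16525648)) (l 16533416)) (a (l 16498872) (l 16522232))) (b (a (c (l 16530144) (l 16517928)) (b (l 16555344) (l 16544952))) (a (c (l 16510232) (l 16498784)) (c (l 16535656) (l 16502608))))) (a (b (l 16516456) (l 16478832)) (b (a (l 16499496) (l 16524232)) (a (l 16481560) (l 16484416))))))), by decide +kernel⟩

def k101_pm_012 : ∃ t, chk3 f_pm_012 t 7 6 1 = true :=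
  ⟨(b (l 2) (a (b (l 2) (a (b (l 2) (l 16798624)) (l 2))) (l 2))), by decide +kernel⟩

def k102_pm_012 : ∃ t, chk3 f_pm_012 t 14 14 1 = true :=
  ⟨(b (a (b (l 16769320) (a (l 16729424) (l 16747016))) (b (l 2) (a (l 16766856) (l 2)))) (a (b (a (l 16697048) (l 16713048)) (a (c (l 16682008) (l 16644456)) (b (l 16686616) (l 16668576)))) (b (a (l 16730704) (l 16756712)) (a (b (l 16702728) (l 16683624)) (b (l 16725048) (l 16701728)))))), by decide +kernel⟩

def k103_pm_012 : ∃ t, chk3 f_pm_012 t 14 30 1 = true :=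
  ⟨(a (b (a (b (c (l 16655288) (l 16619232)) (c (l 16637152) (l 16602176))) (b (c (l 16669576) (l 16630768)) (c (l 16650472) (l 16612800)))) (a (b (c (a (l 16616120) (l 16621712)) (a (l 16582944) (l 16587240))) (c (a (c (l 16605792) (l 16589952)) (l 16608216)) (a (l 16565928) (l 16569744)))) (b (c (a (l 16627856) (l 16634568)) (a (l 16592064) (l 16597432))) (c (a (l 16608608) (l 16604304)) (a (l 16574080) (l 16589448)))))) (b (a (b (c (l 16684864) (l 16643384)) (c (l 16664600) (l 16624320))) (b (l 16658536) (c (l 16672864) (l 16637024)))) (a (b (c (a (l 16641032) (l 16647288)) (a (l 16602632) (l 16607696))) (c (a (l 16599672) (l 16626216)) (a (l 16583592) (l 16588016)))) (b (c (l 16645568) (a (l 16613392) (l 16619744))) (c (a (l 16632432) (l 16626400)) (a (l 16593048) (l 16598728))))))), by decide +kernel⟩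

def k104_pm_012 : ∃ t, chk3 f_pm_012 t 28 62 1 = true :=
  ⟨(a (b (b (c (a (c (l 16591528) (l 16576176)) (l 16588856)) (a (l 16552888) (l 16556600))) (c (a (c (l 16581224) (l 16566232)) (l 16579416)) (a (l 16543496) (l 16547840)))) (c (a (c (b (l 16570280) (l 16558864)) (b (l 16555672) (l 16544672))) (c (b (a (l 16576032) (l 16578816)) (a (l 16565016) (l 16568696))) (b (l 16562008) (a (l 16550272) (l 16553600))))) (a (c (l 16535712) (l 16521088)) (c (b (l 16546576) (l 16536744)) (b (l 16531016) (l 16521584)))))) (c (b (b (a (l 16594088) (l 16599880)) (a (l 16584384) (c (l 16598328) (l 16581432)))) (a (c (b (l 16582608) (l 16572704)) (b (l 16566688) (l 16557136))) (c (b (l 16588152) (a (l 16576600) (l 16579368))) (b (l 16571616) (a (l 16560584) (l 16563040)))))) (b (a (c (l 16564408) (l 16547672)) (b (l 16565072) (l 16576768))) (a (c (b (l 16550624) (l 16541440)) (l 16530008)) (c (b (l 16554928) (l 16545480)) (b (l 16538096) (l 16529024))))))), by decide +kernel⟩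

def k105_pm_012 : ∃ t, chk3 f_pm_012 t 28 63 1 = true :=
  ⟨(a (c (b (a (c (b (l 16547624) (l 16536512)) (l 16544208)) (c (b (a (l 16553360) (l 16557536)) (c (l 16547248) (l 16540240))) (b (l 16540952) (l 16529680)))) (a (c (b (l 16525536) (l 16514704)) (l 16528344)) (c (b (l 16542712) (l 16541832)) (b (l 16518608) (l 16507680))))) (b (a (c (l 16514824) (l 16501080)) (b (l 16539952) (l 16529368))) (a (l 16509144) (c (l 16520616) (l 16486080))))) (c (b (a (c (b (a (c (l 16564960) (l 16557472)) (l 16563992)) (a (l 16555152) (b (l 16556408) (l 16561448)))) (b (a (l 16546184) (l 16548648)) (a (l 16535296) (l 16549120)))) (c (b (a (l 16566472) (l 16574336)) (a (c (l 16560152) (l 16552552)) (b (l 16561400) (l 16561504)))) (b (a (l 16550832) (l 16553144)) (a (l 16541088) (l 16548512))))) (a (c (a (b (l 16537960) (l 16526168)) (b (c (l 16545752) (l 16538520)) (l 16540536))) (b (a (l 16523808) (l 16527624)) (l 16535168))) (c (b (a (c (b (l 16552392) (l 16552064)) (b (l 16544936) (l 16539472))) (c (b (l 16554928) (l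 16549752)) (a (l 16544216) (l 16545376)))) (a (c (b (l 16540904) (l 16534696)) (l 16541120)) (c (a (b (l 16543848) (l 16538000)) (b (l 16545176) (l 16545080))) (a (l 16544032) (b (l 16537736) (l 16532504)))))) (a (b (c (l 16534680) (l 16527224)) (l 16540784)) (b (c (l 16537208) (l 16529592)) (c (a (l 16526208) (l 16527672)) (l 16529928))))))) (b (a (c (b (l 16542480) (a (l 16520576) (l 16523560))) (b (l 16516552) (l 16506904))) (a (b (l 16527104) (l 16517952)) (c (a (l 16531816) (l 16532816)) (l 16516280)))) (a (c (b (l 16511272) (l 16500232)) (l 16517712)) (c (a (b (l 16515976) (l 16505296)) (b (l 16518112) (l 16529248))) (a (l 16516616) (b (l 16502688) (l 16493288)))))))), by decide +kernel⟩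

def k106_pm_012 : ∃ t, chk3 f_pm_012 t 29 62 1 = true :=
  ⟨(a (c (b (a (b (l 16605272) (l 16589736)) (c (l 16593096) (l 16585384))) (a (c (b (l 16593208) (a (l 16581728) (l 16583696))) (b (l 16576096) (a (l 16565120) (l 16566840)))) (c (b (l 16597800) (a (l 16585808) (l 16588080))) (b (l 16580176) (a (l 16568704) (l 16570712)))))) (b (a (b (l 16569272) (l 16559704)) (c (l 16577504) (l 16558968))) (a (c (b (l 16558840) (l 16549088)) (b (l 16541416) (l 16532056))) (c (b (l 16562384) (l 16552296)) (b (l 16544432) (l 16534744)))))) (c (b (a (c (l 16619840) (l 16601088)) (c (l 16620736) (l 16606960))) (a (c (b (l 16603024) (l 16581288)) (b (l 16584856) (l 16574016))) (c (l 14) (b (l 16590176) (l 16578968))))) (b (a (c (l 16582160) (l 16563048)) (c (l 16587448) (l 16567744))) (a (c (b (l 16566520) (l 16556088)) (b (l 16548016) (l 16538000))) (c (b (l 16571280) (l 16560496)) (b (l 16552200) (l 16541840))))))), by decide +kernel⟩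

def k107_pm_012 : ∃ t, chk3 f_pm_012 t 58 126 1 = true :=
  ⟨(c (a (c (b (a (l 16571296) (l 16573088)) (a (b (l 16563472) (l 16563504)) (b (l 16565128) (l 16565064)))) (b (a (l 16555072) (l 16556624)) (a (c (l 16549008) (l 16541056)) (c (l 16550440) (l 16542368))))) (c (b (a (l 16575016) (l 16577096)) (a (b (l 16566920) (l 16566768)) (c (l 14) (l 16561992)))) (b (a (l 16558304) (l 16560136)) (a (c (l 16552008) (l 16543816)) (c (l 16553720) (l 16545408)))))) (a (c (b (a (l 16538712) (l 16540008)) (a (l 16529072) (l 16530200))) (b (l 16522712) (l 16513400))) (c (b (a (l 16541448) (l 16543024)) (a (l 16531472) (l 16532872))) (b (l 16525080) (l 16515440))))), by decide +kernel⟩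

def k108_pm_012 : ∃ t, chk3 f_pm_012 t 58 127 1 = true :=
  ⟨(c (a (c (b (a (c (b (l 16556912) (l 16551648)) (b (l 16549176) (l 16544016))) (c (b (l 16558440) (c (l 16555016) (l 16551152))) (b (l 16550592) (l 16545344)))) (b (a (c (c (l 16548272) (l 16544512)) (l 16538864)) (c (a (l 16547392) (l 16548096)) (l 16540096))) (a (c (c (l 16543000) (l 16539288)) (l 16533712)) (c (a (l 16542072) (l 16542728)) (l 16534856))))) (b (a (c (l 16538880) (l 16531136)) (c (l 16540136) (l 16532272))) (a (c (l 16528776) (l 16521240)) (c (l 16535096) (l 16522208))))) (c (b (a (c (b (l 16560104) (c (l 14) (l 16552704))) (b (l 16552144) (l 16546800))) (c (l 14) (b (l 16553840) (l 16548408)))) (a (a (c (c (l 14) (b (l 16546904) (l 16541520))) (c (l 16540376) (l 16536528))) (c (l 14) (c (l 16541088) (l 16537216)))) (c (l 14) (a (b (l 16542584) (l 16537184)) (b (l 16543376) (l 16537928)))))) (b (a (b (l 16540136) (l 16540192)) (c (b (l 16545720) (l 16540400)) (l 16534960))) (a (c (c (l 16533000) (l 16529128)) (l 16523304)) (c (a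 (l 16532064) (l 16532776)) (l 16524536)))))) (a (c (b (a (l 16519456) (l 16520424)) (a (l 16509872) (l 16510672))) (b (l 16504112) (l 16494872))) (c (b (a (l 16521512) (l 16522744)) (a (l 16511592) (l 16523136))) (b (l 16516320) (l 16517240))))), by decide +kernel⟩

def k109_pm_012 : ∃ t, chk3 f_pm_012 t 59 126 1 = true :=
  ⟨(c (a (a (c (b (l 16579336) (c (l 14) (l 16563976))) (b (l 16562120) (c (l 16555584) (l 16547144)))) (c (l 14) (b (l 16564248) (c (l 16557592) (l 16549032))))) (c (l 14) (b (a (l 16566536) (l 16568992)) (a (c (l 16559760) (l 16551072)) (c (l 14) (l 16553264)))))) (a (c (b (a (l 16544744) (l 16546616)) (a (l 16534416) (l 16536112))) (b (l 16538480) (a (l 16517320) (l 16518752)))) (c (b (a (l 16548632) (l 16550816)) (a (c (l 16542336) (l 16533568)) (c (l 16544400) (l 16535496)))) (b (a (l 16530560) (l 16532464)) (a (l 16520328) (l 16522056)))))), by decide +kernel⟩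

def k110_pm_012 : ∃ t, chk3 f_pm_012 t 59 127 1 = true :=
  ⟨(c (a (a (c (a (a (c (l 14) (b (l 16552224) (c (l 14) (l 16539272)))) (l 14)) (l 14)) (b (c (b (l 16547448) (l 16542032)) (l 16536520)) (c (b (l 16536616) (c (l 16533192) (l 16529224))) (c (l 16527912) (l 16523904))))) (c (l 14) (b (c (b (l 16549320) (l 16543808)) (b (l 16540920) (l 16535520))) (a (c (b (l 16537864) (l 16532384)) (l 16527040)) (c (c (l 14) (l 16533944)) (l 16527832)))))) (c (l 14) (b (a (c (b (l 16551344) (l 16550984)) (b (l 16542824) (l 16537328))) (c (l 14) (b (l 16544880) (l 16539288)))) (a (a (c (b (l 16539664) (l 16534088)) (c (l 16530720) (l 16526608))) (c (l 14) (c (l 16531608) (l 16527464)))) (c (l 14) (a (b (l 16533224) (l 16527672)) (b (l 16534200) (l 16528600)))))))) (a (c (b (a (c (l 16528264) (l 16519968)) (c (l 16529840) (l 16521424))) (a (c (l 16517880) (l 16509816)) (c (l 16519280) (l 16511088)))) (b (a (l 16507464) (l 16508720)) (a (l 16497640) (l 16498736)))) (c (b (a (c (l 16531568) (l 16523024)) (b (l 16531824)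 (l 16536896))) (b (a (l 16519328) (c (l 16525248) (l 16516752))) (a (l 16524504) (c (l 16519792) (l 16511416))))) (b (a (l 16510128) (l 16511680)) (a (l 16499968) (l 16501344)))))), by decide +kernel⟩

def k111_pm_012 : ∃ t, chk3 f_pm_012 t 15 14 1 = true :=
  ⟨(b (l 2) (a (b (l 2) (a (a (l 16716608) (l 2)) (l 2))) (l 2))), by decide +kernel⟩

def k112_pm_012 : ∃ t, chk3 f_pm_012 t 15 30 1 = true :=
  ⟨(a (b (a (b (l 16690512) (c (l 16708488) (l 16652480))) (b (l 2) (l 16636944))) (a (b (c (l 16641952) (l 16609624)) (c (b (l 16642992) (l 16628936)) (a (l 16605088) (l 16612144)))) (b (a (l 16645488) (l 16642080)) (c (l 16636808) (a (l 16619944) (l 16633496)))))) (b (l 2) (a (a (a (b (l 2) (l 16629688)) (l 2)) (l 2)) (l 2)))), by decide +kernel⟩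

def k113_pm_012 : ∃ t, chk3 f_pm_012 t 30 62 1 = true :=
  ⟨(a (b (c (a (c (l 16621408) (l 16613504)) (l 16596096)) (a (c (l 16593400) (l 16573096)) (c (l 16600048) (l 16579120)))) (b (c (a (l 16592256) (l 16593776)) (a (c (l 16576696) (l 16557024)) (l 16562192))) (c (a (c (l 14) (l 16584576)) (c (l 16583104) (l 14))) (a (c (l 16565536) (l 16546312)) (c (l 16571264) (l 16551448)))))) (c (b (a (l 16616312) (l 16614584)) (a (b (l 16594232) (c (l 16667648) (l 14))) (b (l 16593664) (l 16578888)))) (b (a (c (l 16607432) (l 16585864)) (c (l 16605704) (l 16593360))) (b (a (l 16558208) (l 16565456)) (a (c (l 16577696) (l 16557264)) (c (l 14) (l 16563816))))))), by decide +kernel⟩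

def k114_pm_012 : ∃ t, chk3 f_pm_012 t 60 63 1 = true :=
  ⟨(b (c (a (a (a (c (l 14) (b (l 16570936) (l 16559480))) (l 14)) (l 14)) (a (l 14) (a (l 14) (b (l 16568904) (l 14))))) (a (c (b (a (l 16553152) (l 16555656)) (a (c (l 16546624) (l 16537584)) (c (l 16549008) (l 16539832)))) (b (a (l 16534520) (l 16536744)) (a (l 16523936) (l 16525976)))) (c (b (a (l 16558328) (l 16561176)) (a (c (l 16551560) (l 16542240)) (c (l 14) (l 16544824)))) (b (a (l 16539128) (l 16541672)) (a (l 16528176) (l 16530544)))))) (c (a (a (a (c (l 14) (a (c (l 14) (b (l 16543416) (b (l 16534952) (l 16529320)))) (l 14))) (l 14)) (l 14)) (l 14)) (a (c (b (b (a (l 16533840) (l 16536016)) (a (c (l 16532704) (l 16523952)) (c (l 16534848) (l 16525968)))) (a (c (b (l 16527144) (l 16521592)) (l 16515800)) (c (a (b (l 16528664) (l 16523048)) (b (l 16529736) (l 16524064))) (b (l 16520440) (l 16514912))))) (b (a (l 16513384) (c (l 16519752) (l 16510720))) (a (l 16513352) (c (l 16508936) (l 16500152))))) (c (b (b (a (l 16548840) (l 16551352))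 (a (c (l 16537168) (l 16528144)) (c (l 14) (l 16530488)))) (a (a (c (b (l 16530848) (l 16525128)) (l 16519184)) (c (l 14) (c (l 16522464) (l 16518016)))) (c (l 14) (b (l 16524768) (c (l 16521288) (l 16516824)))))) (b (a (c (l 16521840) (l 16512672)) (c (l 16524088) (l 16514776))) (a (c (l 16510832) (l 16501912)) (c (b (l 16515696) (l 16510104)) (l 16503840)))))))), by decide +kernel⟩

def k115_pm_012 : ∃ t, chk3 f_pm_012 t 61 63 1 = true :=
  ⟨(b (a (c (c (b (a (l 16646512) (l 16657480)) (a (l 16566992) (c (l 16654992) (l 14)))) (l 14)) (a (c (b (l 16564200) (c (l 14) (l 16547584))) (b (l 16544400) (l 16533080))) (c (l 14) (b (l 16547296) (l 16546272))))) (c (b (c (l 16631504) (l 16579104)) (c (a (l 16631504) (l 16663344)) (l 14))) (c (l 14) (b (a (l 16550384) (l 16553648)) (a (l 16543920) (l 16541752)))))) (a (a (c (l 14) (c (a (c (l 14) (b (l 16535256) (b (l 16526568) (l 16520776)))) (l 14)) (b (b (l 16524608) (l 16529456)) (c (b (l 16517968) (l 16512288)) (l 16505928))))) (c (b (b (c (l 16586760) (l 14))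 (l 14)) (l 14)) (c (l 14) (b (c (b (l 16532000) (l 16526208)) (l 16519504)) (c (b (l 16520416) (c (l 16516952) (l 16512328))) (b (l 16511008) (l 16505368))))))) (c (c (c (b (a (l 16649848) (l 16660992)) (a (b (l 16637240) (l 14)) (b (l 16648728) (l 16640296)))) (a (l 14) (b (b (l 16637776) (l 14)) (l 14)))) (l 14)) (c (l 14) (b (b (a (l 16529920) (l 16532848)) (a (c (l 16528928) (l 16519240)) (c (l 14) (l 16521992)))) (a (a (c (b (l 16522368) (l 16516520)) (l 16509992)) (c (l 14) (l 16511248))) (c (l 14) (b (l 16516144) (c (l 16512704) (l 16507904)))))))))), by decide +kernel⟩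

def k116_pm_012 : ∃ t, chk3 f_pm_012 t 62 31 1 = true :=
  ⟨(b (c (b (a (c (l 16739984) (l 16693512)) (l 16734208)) (a (c (l 16714536) (b (l 16672720) (l 16658056))) (b (l 16715440) (l 16660248)))) (b (a (l 16581248) (l 16600912)) (a (b (l 16578480) (a (l 16580016) (l 14))) (c (l 16594744) (l 14))))) (c (b (a (c (b (l 16693816) (a (l 16673944) (l 16684288))) (b (l 16579800) (a (l 16558184) (l 16569184)))) (c (b (l 16713192) (l 16699328)) (b (l 16621400) (a (l 16621864) (l 16653312))))) (a (b (c (a (c (l 16671856) (l 16644808)) (l 16669112)) (a (l 14) (a (l 14) (l 16559328)))) (c (a (b (l 16604200) (c (l 16651736) (l 14))) (b (l 16657248) (c (l 16662888) (l 16635256)))) (l 14))) (c (b (a (l 16679616) (l 16689856)) (a (c (l 16677664) (l 16629600)) (l 16653824))) (c (b (a (l 16639944) (l 16650688)) (a (b (l 16627592) (l 14)) (b (l 16638664) (l 16630408)))) (a (l 14) (b (b (l 16628536) (l 14)) (l 14))))))) (c (b (a (l 14) (b (l 16571176) (l 14))) (l 14)) (c (l 14) (c (l 14) (a (a (a (b (l 16531888) (b (l 16524632)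 (l 16512848))) (l 14)) (l 14)) (l 14))))))), by decide +kernel⟩

def k117_pm_012 : ∃ t, chk3 f_pm_012 t 63 31 1 = true :=
  ⟨(b (b (l 2) (a (b (l 2) (c (l 16720472) (l 16562184))) (l 2))) (c (b (a (c (l 16688424) (b (l 16682984) (a (l 16663536) (l 16673512)))) (c (l 16742976) (b (l 2) (l 16688016)))) (a (c (b (l 16704744) (a (l 16685200) (l 16695344))) (b (a (c (l 16661168) (l 16635256)) (l 16658608)) (a (c (l 16624504) (b (l 16623032) (l 14))) (c (l 16656128) (b (l 16633912) (l 16625744)))))) (c (b (l 16723728) (l 16710096)) (a (b (l 16668744) (a (l 16629968) (l 16656152))) (b (l 16678624) (l 16621912)))))) (c (b (a (b (l 16571088) (a (l 16549984) (l 16560592))) (b (l 2) (a (l 16633856) (l 2)))) (c (a (a (l 14) (b (b (l 16624176) (l 14)) (l 14))) (b (a (l 16630744) (l 16641104)) (a (b (l 16618656) (l 14)) (b (l 16629344) (l 16621264))))) (a (l 14) (b (a (l 14) (b (l 2) (l 14))) (l 14))))) (b (a (l 14) (b (l 2) (l 14))) (l 14))))), by decide +kernel⟩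

theorem s118_pm_012 : ∃ t, chk3 f_pm_012 t 31 31 1 = true := ex3_a k116_pm_012 k117_pm_012

theorem s119_pm_012 : ∃ t, chk3 f_pm_012 t 30 63 1 = true := ex3_a k114_pm_012 k115_pm_012

theorem s120_pm_012 : ∃ t, chk3 f_pm_012 t 30 31 1 = true := ex3_b k113_pm_012 s119_pm_012

theorem s121_pm_012 : ∃ t, chk3 f_pm_012 t 15 31 1 = true := ex3_a s120_pm_012 s118_pm_012

theorem s122_pm_012 : ∃ t, chk3 f_pm_012 t 15 15 1 = true := ex3_b k112_pm_012 s121_pm_012

theorem s123_pm_012 : ∃ t, chk3 f_pm_012 t 15 7 1 = true := ex3_b k111_pm_012 s122_pm_012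

theorem s124_pm_012 : ∃ t, chk3 f_pm_012 t 59 63 1 = true := ex3_b k109_pm_012 k110_pm_012

theorem s125_pm_012 : ∃ t, chk3 f_pm_012 t 58 63 1 = true := ex3_b k107_pm_012 k108_pm_012

theorem s126_pm_012 : ∃ t, chk3 f_pm_012 t 29 63 1 = true := ex3_a s125_pm_012 s124_pm_012

theorem s127_pm_012 : ∃ t, chk3 f_pm_012 t 29 31 1 = true := ex3_b k106_pm_012 s126_pm_012

theorem s128_pm_012 : ∃ t, chk3 f_pm_012 t 28 31 1 = true := ex3_b k104_pm_012 k105_pm_012

theorem s129_pm_012 : ∃ t, chk3 f_pm_012 t 14 31 1 = true := ex3_a s128_pm_012 s127_pm_012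

theorem s130_pm_012 : ∃ t, chk3 f_pm_012 t 14 15 1 = true := ex3_b k103_pm_012 s129_pm_012

theorem s131_pm_012 : ∃ t, chk3 f_pm_012 t 14 7 1 = true := ex3_b k102_pm_012 s130_pm_012

theorem s132_pm_012 : ∃ t, chk3 f_pm_012 t 7 7 1 = true := ex3_a s131_pm_012 s123_pm_012

theorem s133_pm_012 : ∃ t, chk3 f_pm_012 t 7 3 1 = true := ex3_b k101_pm_012 s132_pm_012

theorem s134_pm_012 : ∃ t, chk3 f_pm_012 t 13 15 1 = true := ex3_b k99_pm_012 k100_pm_012

theorem s135_pm_012 : ∃ t, chk3 f_pm_012 t 6 15 1 = true := ex3_a k98_pm_012 s134_pm_012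

theorem s136_pm_012 : ∃ t, chk3 f_pm_012 t 6 7 1 = true := ex3_b k97_pm_012 s135_pm_012

theorem s137_pm_012 : ∃ t, chk3 f_pm_012 t 6 3 1 = true := ex3_b k96_pm_012 s136_pm_012

theorem s138_pm_012 : ∃ t, chk3 f_pm_012 t 3 3 1 = true := ex3_a s137_pm_012 s133_pm_012

theorem s139_pm_012 : ∃ t, chk3 f_pm_012 t 3 1 1 = true := ex3_b k95_pm_012 s138_pm_012

theorem s140_pm_012 : ∃ t, chk3 f_pm_012 t 10 14 1 = true := ex3_a k91_pm_012 k92_pm_012

theorem s141_pm_012 : ∃ t, chk3 f_pm_012 t 10 7 1 = true := ex3_b s140_pm_012 k93_pm_012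

theorem s142_pm_012 : ∃ t, chk3 f_pm_012 t 5 7 1 = true := ex3_a s141_pm_012 k94_pm_012

theorem s143_pm_012 : ∃ t, chk3 f_pm_012 t 20 6 1 = true := ex3_a k87_pm_012 k88_pm_012

theorem s144_pm_012 : ∃ t, chk3 f_pm_012 t 10 6 1 = true := ex3_a s143_pm_012 k89_pm_012

theorem s145_pm_012 : ∃ t, chk3 f_pm_012 t 5 6 1 = true := ex3_a s144_pm_012 k90_pm_012

theorem s146_pm_012 : ∃ t, chk3 f_pm_012 t 5 3 1 = true := ex3_b s145_pm_012 s142_pm_012

theorem s147_pm_012 : ∃ t, chk3 f_pm_012 t 18 30 1 = true := ex3_a k83_pm_012 k84_pm_012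

theorem s148_pm_012 : ∃ t, chk3 f_pm_012 t 9 30 1 = true := ex3_a s147_pm_012 k85_pm_012

theorem s149_pm_012 : ∃ t, chk3 f_pm_012 t 9 15 1 = true := ex3_b s148_pm_012 k86_pm_012

theorem s150_pm_012 : ∃ t, chk3 f_pm_012 t 19 14 1 = true := ex3_a k81_pm_012 k82_pm_012

theorem s151_pm_012 : ∃ t, chk3 f_pm_012 t 73 58 1 = true := ex3_b k77_pm_012 k78_pm_012

theorem s152_pm_012 : ∃ t, chk3 f_pm_012 t 72 117 1 = true := ex3_a k75_pm_012 k76_pm_012

theorem s153_pm_012 : ∃ t, chk3 f_pm_012 t 72 58 1 = true := ex3_b k74_pm_012 s152_pm_012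

theorem s154_pm_012 : ∃ t, chk3 f_pm_012 t 36 58 1 = true := ex3_a s153_pm_012 s151_pm_012

theorem s155_pm_012 : ∃ t, chk3 f_pm_012 t 36 29 1 = true := ex3_b s154_pm_012 k79_pm_012

theorem s156_pm_012 : ∃ t, chk3 f_pm_012 t 18 29 1 = true := ex3_a s155_pm_012 k80_pm_012

theorem s157_pm_012 : ∃ t, chk3 f_pm_012 t 74 57 1 = true := ex3_b k71_pm_012 k72_pm_012

theorem s158_pm_012 : ∃ t, chk3 f_pm_012 t 37 57 1 = true := ex3_a s157_pm_012 k73_pm_012

theorem s159_pm_012 : ∃ t, chk3 f_pm_012 t 37 56 1 = true := ex3_a k69_pm_012 k70_pm_012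

theorem s160_pm_012 : ∃ t, chk3 f_pm_012 t 37 28 1 = true := ex3_b s159_pm_012 s158_pm_012

theorem s161_pm_012 : ∃ t, chk3 f_pm_012 t 73 57 1 = true := ex3_b k67_pm_012 k68_pm_012

theorem s162_pm_012 : ∃ t, chk3 f_pm_012 t 73 28 1 = true := ex3_b k66_pm_012 s161_pm_012

theorem s163_pm_012 : ∃ t, chk3 f_pm_012 t 36 28 1 = true := ex3_a k65_pm_012 s162_pm_012

theorem s164_pm_012 : ∃ t, chk3 f_pm_012 t 18 28 1 = true := ex3_a s163_pm_012 s160_pm_012

theorem s165_pm_012 : ∃ t, chk3 f_pm_012 t 18 14 1 = true := ex3_b s164_pm_012 s156_pm_012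

theorem s166_pm_012 : ∃ t, chk3 f_pm_012 t 9 14 1 = true := ex3_a s165_pm_012 s150_pm_012

theorem s167_pm_012 : ∃ t, chk3 f_pm_012 t 9 7 1 = true := ex3_b s166_pm_012 s149_pm_012

theorem s168_pm_012 : ∃ t, chk3 f_pm_012 t 34 62 1 = true := ex3_a k61_pm_012 k62_pm_012

theorem s169_pm_012 : ∃ t, chk3 f_pm_012 t 17 62 1 = true := ex3_a s168_pm_012 k63_pm_012

theorem s170_pm_012 : ∃ t, chk3 f_pm_012 t 17 31 1 = true := ex3_b s169_pm_012 k64_pm_012

theorem s171_pm_012 : ∃ t, chk3 f_pm_012 t 35 61 1 = true := ex3_a k59_pm_012 k60_pm_012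

theorem s172_pm_012 : ∃ t, chk3 f_pm_012 t 140 241 1 = true := ex3_a k54_pm_012 k55_pm_012

theorem s173_pm_012 : ∃ t, chk3 f_pm_012 t 140 120 1 = true := ex3_b k53_pm_012 s172_pm_012

theorem s174_pm_012 : ∃ t, chk3 f_pm_012 t 70 120 1 = true := ex3_a s173_pm_012 k56_pm_012

theorem s175_pm_012 : ∃ t, chk3 f_pm_012 t 70 60 1 = true := ex3_b s174_pm_012 k57_pm_012

theorem s176_pm_012 : ∃ t, chk3 f_pm_012 t 35 60 1 = true := ex3_a s175_pm_012 k58_pm_012

theorem s177_pm_012 : ∃ t, chk3 f_pm_012 t 35 30 1 = true := ex3_b s176_pm_012 s171_pm_012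

theorem s178_pm_012 : ∃ t, chk3 f_pm_012 t 138 244 1 = true := ex3_a k48_pm_012 k49_pm_012

theorem s179_pm_012 : ∃ t, chk3 f_pm_012 t 138 122 1 = true := ex3_b s178_pm_012 k50_pm_012

theorem s180_pm_012 : ∃ t, chk3 f_pm_012 t 69 122 1 = true := ex3_a s179_pm_012 k51_pm_012

theorem s181_pm_012 : ∃ t, chk3 f_pm_012 t 69 61 1 = true := ex3_b s180_pm_012 k52_pm_012

theorem s182_pm_012 : ∃ t, chk3 f_pm_012 t 273 246 1 = true := ex3_b k44_pm_012 k45_pm_012

theorem s183_pm_012 : ∃ t, chk3 f_pm_012 t 136 246 1 = true := ex3_a k43_pm_012 s182_pm_012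

theorem s184_pm_012 : ∃ t, chk3 f_pm_012 t 136 123 1 = true := ex3_b s183_pm_012 k46_pm_012

theorem s185_pm_012 : ∃ t, chk3 f_pm_012 t 68 123 1 = true := ex3_a s184_pm_012 k47_pm_012

theorem s186_pm_012 : ∃ t, chk3 f_pm_012 t 137 245 1 = true := ex3_a k41_pm_012 k42_pm_012

theorem s187_pm_012 : ∃ t, chk3 f_pm_012 t 137 122 1 = true := ex3_b k40_pm_012 s186_pm_012

theorem s188_pm_012 : ∃ t, chk3 f_pm_012 t 68 122 1 = true := ex3_a k39_pm_012 s187_pm_012

theorem s189_pm_012 : ∃ t, chk3 f_pm_012 t 68 61 1 = true := ex3_b s188_pm_012 s185_pm_012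

theorem s190_pm_012 : ∃ t, chk3 f_pm_012 t 34 61 1 = true := ex3_a s189_pm_012 s181_pm_012

theorem s191_pm_012 : ∃ t, chk3 f_pm_012 t 139 242 1 = true := ex3_a k36_pm_012 k37_pm_012

theorem s192_pm_012 : ∃ t, chk3 f_pm_012 t 139 121 1 = true := ex3_b s191_pm_012 k38_pm_012

theorem s193_pm_012 : ∃ t, chk3 f_pm_012 t 69 121 1 = true := ex3_a k35_pm_012 s192_pm_012

theorem s194_pm_012 : ∃ t, chk3 f_pm_012 t 69 60 1 = true := ex3_b k34_pm_012 s193_pm_012

theorem s195_pm_012 : ∃ t, chk3 f_pm_012 t 34 60 1 = true := ex3_a k33_pm_012 s194_pm_012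

theorem s196_pm_012 : ∃ t, chk3 f_pm_012 t 34 30 1 = true := ex3_b s195_pm_012 s190_pm_012

theorem s197_pm_012 : ∃ t, chk3 f_pm_012 t 17 30 1 = true := ex3_a s196_pm_012 s177_pm_012

theorem s198_pm_012 : ∃ t, chk3 f_pm_012 t 17 15 1 = true := ex3_b s197_pm_012 s170_pm_012

theorem s199_pm_012 : ∃ t, chk3 f_pm_012 t 271 247 1 = true := ex3_b k30_pm_012 k31_pm_012

theorem s200_pm_012 : ∃ t, chk3 f_pm_012 t 135 247 1 = true := ex3_a k29_pm_012 s199_pm_012

theorem s201_pm_012 : ∃ t, chk3 f_pm_012 t 135 123 1 = true := ex3_b k28_pm_012 s200_pm_012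

theorem s202_pm_012 : ∃ t, chk3 f_pm_012 t 67 123 1 = true := ex3_a k27_pm_012 s201_pm_012

theorem s203_pm_012 : ∃ t, chk3 f_pm_012 t 67 61 1 = true := ex3_b k26_pm_012 s202_pm_012

theorem s204_pm_012 : ∃ t, chk3 f_pm_012 t 33 61 1 = true := ex3_a k25_pm_012 s203_pm_012

theorem s205_pm_012 : ∃ t, chk3 f_pm_012 t 33 30 1 = true := ex3_b k24_pm_012 s204_pm_012

theorem s206_pm_012 : ∃ t, chk3 f_pm_012 t 16 30 1 = true := ex3_a k23_pm_012 s205_pm_012

theorem s207_pm_012 : ∃ t, chk3 f_pm_012 t 16 15 1 = true := ex3_b s206_pm_012 k32_pm_012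

theorem s208_pm_012 : ∃ t, chk3 f_pm_012 t 8 15 1 = true := ex3_a s207_pm_012 s198_pm_012

theorem s209_pm_012 : ∃ t, chk3 f_pm_012 t 142 119 1 = true := ex3_b k20_pm_012 k21_pm_012

theorem s210_pm_012 : ∃ t, chk3 f_pm_012 t 71 119 1 = true := ex3_a s209_pm_012 k22_pm_012

theorem s211_pm_012 : ∃ t, chk3 f_pm_012 t 143 118 1 = true := ex3_b k18_pm_012 k19_pm_012

theorem s212_pm_012 : ∃ t, chk3 f_pm_012 t 71 118 1 = true := ex3_a k17_pm_012 s211_pm_012

theorem s213_pm_012 : ∃ t, chk3 f_pm_012 t 71 59 1 = true := ex3_b s212_pm_012 s210_pm_012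

theorem s214_pm_012 : ∃ t, chk3 f_pm_012 t 35 59 1 = true := ex3_a k16_pm_012 s213_pm_012

theorem s215_pm_012 : ∃ t, chk3 f_pm_012 t 35 29 1 = true := ex3_b k15_pm_012 s214_pm_012

theorem s216_pm_012 : ∃ t, chk3 f_pm_012 t 17 29 1 = true := ex3_a k14_pm_012 s215_pm_012

theorem s217_pm_012 : ∃ t, chk3 f_pm_012 t 17 14 1 = true := ex3_b k13_pm_012 s216_pm_012

theorem s218_pm_012 : ∃ t, chk3 f_pm_012 t 8 14 1 = true := ex3_a k12_pm_012 s217_pm_012

theorem s219_pm_012 : ∃ t, chk3 f_pm_012 t 8 7 1 = true := ex3_b s218_pm_012 s208_pm_012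

theorem s220_pm_012 : ∃ t, chk3 f_pm_012 t 4 7 1 = true := ex3_a s219_pm_012 s167_pm_012

theorem s221_pm_012 : ∃ t, chk3 f_pm_012 t 38 27 1 = true := ex3_a k9_pm_012 k10_pm_012

theorem s222_pm_012 : ∃ t, chk3 f_pm_012 t 38 13 1 = true := ex3_b k8_pm_012 s221_pm_012

theorem s223_pm_012 : ∃ t, chk3 f_pm_012 t 19 13 1 = true := ex3_a s222_pm_012 k11_pm_012

theorem s224_pm_012 : ∃ t, chk3 f_pm_012 t 19 6 1 = true := ex3_b k7_pm_012 s223_pm_012

theorem s225_pm_012 : ∃ t, chk3 f_pm_012 t 9 6 1 = true := ex3_a k6_pm_012 s224_pm_012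

theorem s226_pm_012 : ∃ t, chk3 f_pm_012 t 4 6 1 = true := ex3_a k5_pm_012 s225_pm_012

theorem s227_pm_012 : ∃ t, chk3 f_pm_012 t 4 3 1 = true := ex3_b s226_pm_012 s220_pm_012

theorem s228_pm_012 : ∃ t, chk3 f_pm_012 t 2 3 1 = true := ex3_a s227_pm_012 s146_pm_012

theorem s229_pm_012 : ∃ t, chk3 f_pm_012 t 10 5 1 = true := ex3_a k2_pm_012 k3_pm_012

theorem s230_pm_012 : ∃ t, chk3 f_pm_012 t 5 5 1 = true := ex3_a s229_pm_012 k4_pm_012

theorem s231_pm_012 : ∃ t, chk3 f_pm_012 t 5 2 1 = true := ex3_b k1_pm_012 s230_pm_012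

theorem s232_pm_012 : ∃ t, chk3 f_pm_012 t 2 2 1 = true := ex3_a k0_pm_012 s231_pm_012

theorem s233_pm_012 : ∃ t, chk3 f_pm_012 t 2 1 1 = true := ex3_b s232_pm_012 s228_pm_012

theorem s234_pm_012 : ∃ t, chk3 f_pm_012 t 1 1 1 = true := ex3_a s233_pm_012 s139_pm_012

theorem c_pm_012 : CertN 0 536870912 536870912 536870912 469762048 67108864 3 true true false .pnp 0 1 2
    ndN0q0 ndN0q1 pcN2 cut_pm_012 Ext.none :=
  certN2 (fam := true) (s1 := true) (s2 := false) (a := 0) (b := 1) (c := 2) (cn := .pnp) (n1 := ndN0q0) (n2 := ndN0q1) (pc := pcN2) (cut := cut_pm_012) (xt := Ext.none) (P1 := 0) (W1 := 536870912) (P2 := 536870912) (W2 := 536870912) (P3 := 469762048) (W3 := 67108864) (N0 := 3)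
    rfl (fun _ => rfl) s234_pm_012

end Pool.Agent.Strip051.G.I7_16_1_2.Tab.C.NA00

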