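import Pool.Agent.Strip051.G.I7_16_1_2.Tab

/-! # Certificates N2 (generated) -/

set_option linter.all false
set_option maxRecDepth 100000

namespace Pool.Agent.Strip051.G.I7_16_1_2.Tab.C.NA00

open Pool.Agent.Strip051.PB Pool.Agent.Strip051.PB.T
open Pool.Agent.Strip051.G.I7_16_1_2.Tab

noncomputable def cut_pm_022 : Cut := Cut.of [[⟨0, 0, 0, 67108864⟩, ⟨1, 1, 0, 67108864⟩, ⟨2, 1, 0, 67108864⟩], [⟨0, 0, 1, 33554432⟩, ⟨1, 1, 0, 33554432⟩, ⟨2, 1, 1, 33554432⟩]]

noncomputable def f_pm_022 : ℕ → ℕ → ℕ → ℕ → Bool := onCell 1073741824 536870912 0 536870912 469762048 67108864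
    (rowN 3 2 true true false .pp 0 2 2 (qsf 0 536870912 0 536870912 2) ndN0q0 ndN0q2 pcN2 cut_pm_022 Ext.none)

def k0_pm_022 : ∃ t, chk3 f_pm_022 t 4 2 1 = true :=
  ⟨(b (l 1) (a (l 1) (b (l 1) (a (l 1) (a (l 1) (b (l 1) (a (l 1) (b (l 16534328) (l 16541752))))))))), by decide +kernel⟩

def k1_pm_022 : ∃ t, chk3 f_pm_022 t 8 3 1 = true :=
  ⟨(b (l 1) (b (a (l 1) (b (a (l 1) (a (l 1) (b (l 1) (b (l 16649400) (l 16653856))))) (a (l 6) (a (l 6) (a (l 6) (b (l 16658848) (l 16667512))))))) (a (l 6) (a (l 6) (a (l 6) (a (l 6) (b (b (l 16676040) (l 16684400)) (b (l 16713592) (a (l 6) (b (l 16721576) (l 16706576))))))))))), by decide +kernel⟩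

def k2_pm_022 : ∃ t, chk3 f_pm_022 t 9 6 1 = true :=
  ⟨(a (b (l 1) (b (a (l 1) (a (b (l 1) (a (l 1) (l 16602080))) (b (a (l 1) (l 16612664)) (c (l 16604384) (l 16594048))))) (a (a (l 1) (b (l 16615136) (b (l 16621136) (l 16625160)))) (b (a (a (l 16611584) (l 16609488)) (l 16606440)) (a (l 16618096) (l 16613488)))))) (b (b (a (b (l 1) (a (l 1) (l 16561848))) (b (a (l 16551472) (l 16549432)) (a (l 16559576) (l 16557304)))) (a (b (a (l 1) (c (l 16576688) (l 16563536))) (a (a (l 16582384) (l 16601960)) (l 16599880))) (b (a (l 16567808) (l 16565296)) (a (l 16576152) (l 16573400))))) (b (a (b (a (b (l 16608800) (l 16591048)) (c (l 16592368) (l 16580272))) (a (l 16595928) (l 16592520))) (b (a (l 16604608) (l 16580752)) (a (l 16589184) (l 16585904)))) (a (b (a (l 16602448) (l 16598536)) (a (l 16608992) (l 16604568))) (b (a (l 16594696) (l 16590928)) (a (l 16600232) (l 16595968))))))), by decide +kernel⟩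

def k3_pm_022 : ∃ t, chk3 f_pm_022 t 9 7 1 = true :=
  ⟨(b (a (a (b (b (a (b (l 16634808) (l 16639048)) (l 16631216)) (a (l 16666400) (l 16639224))) (b (a (l 16674808) (l 16647168)) (a (l 16683120) (l 16655000)))) (b (b (a (l 16625656) (l 16620544)) (a (l 16633184) (l 16627560))) (b (a (l 16640648) (l 16634504)) (c (l 16667440) (l 16663680))))) (b (a (b (a (l 16615528) (l 16610600)) (a (l 16622032) (l 16616584))) (b (l 16624352) (l 16608608))) (a (b (l 16646448) (a (l 16634752) (l 16628264))) (b (l 16634704) (l 16639696))))) (a (b (a (a (b (b (l 16668264) (l 16672312)) (l 16699288)) (b (l 16683672) (l 16670208))) (b (b (l 16670832) (l 16684736)) (c (l 16680168) (l 16678384)))) (b (a (a (l 16707224) (l 16698760)) (a (l 16690232) (l 16681616))) (b (a (a (l 16716224) (l 16686704)) (c (l 16695432) (l 16672880))) (c (a (a (l 16723072) (l 16693552)) (a (l 16684928) (l 16676056))) (a (a (l 16700224) (l 16691560)) (a (l 16682864) (l 16674056))))))) (b (a (b (c (l 16638960) (l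 16635712)) (l 16653504)) (b (l 16665464) (l 16659520))) (b (a (l 16679824) (l 16653248)) (a (b (l 16676920) (a (l 16687160) (l 16678192))) (a (l 16676816) (l 16657192))))))), by decide +kernel⟩

def k4_pm_022 : ∃ t, chk3 f_pm_022 t 5 2 1 = true :=
  ⟨(b (a (b (a (a (l 1) (l 16513944)) (b (l 16469792) (l 16475192))) (a (a (l 1) (b (l 16481328) (l 16489408))) (a (l 16485584) (l 16485088)))) (b (a (b (l 16490384) (l 16473816)) (b (l 16467624) (l 16468824))) (a (l 16525080) (l 16477720)))) (a (b (a (a (b (l 16499264) (l 16509952)) (b (l 16498392) (l 16508168))) (b (l 16496640) (a (l 16506160) (l 16504064)))) (a (b (a (a (l 16522632) (l 16521336)) (l 16519280)) (a (b (l 16531920) (l 16539000)) (l 16531936))) (b (a (l 16516416) (l 16513584)) (a (l 16528264) (l 16524728))))) (b (a (b (l 16492808) (l 16500040)) (b (l 16486312) (l 16492504))) (a (b (l 16508576) (a (l 16520848) (l 16516536))) (b (l 16499952) (l 16509112)))))), by decide +kernel⟩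

def k5_pm_022 : ∃ t, chk3 f_pm_022 t 5 6 1 = true :=
  ⟨(a (a (b (b (a (b (l 16546344) (l 16553864)) (b (l 16542080) (l 16549168))) (a (b (l 16561512) (c (l 16575704) (l 16562360))) (b (l 16556368) (l 16563664)))) (a (b (b (a (l 16577880) (l 16575000)) (a (l 16582680) (l 16579504))) (b (a (l 16587224) (l 16583584)) (l 16610720))) (a (b (b (l 16572088) (l 16576376)) (b (l 16580040) (l 16583704))) (a (b (b (l 16569912) (l 16574072)) (l 16579240)) (b (a (b (l 16568808) (l 16572960)) (b (l 16567992) (l 16572176))) (a (l 16578000) (b (l 16575480) (l 16578736)))))))) (b (b (a (b (l 16537808) (l 16544488)) (l 16536968)) (a (b (l 16551280) (l 16558144)) (b (l 16546496) (l 16552984)))) (b (a (b (c (l 16571392) (l 16557928)) (l 16568824)) (b (l 16559488) (l 16563112))) (a (b (l 16571448) (l 16574072)) (b (l 16564520) (l 16565888)))))) (b (a (b (a (l 16532448) (l 16527544)) (a (b (l 16541472) (l 16547608)) (l 16539096))) (b (a (l 16522176) (l 16516272)) (a (l 16533144) (l 16526712))))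 (a (b (b (a (l 16553752) (l 16547704)) (a (l 16557344) (l 16551408))) (a (b (l 16557608) (l 16557680)) (l 16550112))) (b (b (a (l 16541272) (l 16534384)) (a (l 16545192) (l 16538560))) (a (l 16542344) (l 16534392)))))), by decide +kernel⟩

def k6_pm_022 : ∃ t, chk3 f_pm_022 t 5 7 1 = true :=
  ⟨(a (b (a (a (b (b (l 16594056) (l 16598296)) (b (l 16602432) (l 16627376))) (a (b (b (l 16587336) (l 16590888)) (b (l 16594320) (l 16597584))) (a (b (l 16585928) (l 16592184)) (a (b (l 16584504) (l 16590576)) (b (l 16604592) (l 16610568)))))) (b (a (b (l 16576640) (l 16579112)) (b (l 16567184) (l 16568352))) (a (b (l 16581432) (l 16583552)) (b (l 16569344) (l 16570088))))) (a (a (b (b (l 16652104) (c (l 16636216) (l 16632944))) (b (l 16637704) (a (l 16647912) (l 16638416)))) (a (b (b (l 16600600) (l 16603312)) (b (l 16605640) (l 16628512))) (a (b (b (l 16596256) (l 16598648)) (l 16626456)) (a (b (l 16616752) (b (l 16598696) (l 16600088))) (b (b (l 16593448) (l 16595688)) (b (l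 16618504) (l 16598880))))))) (a (b (b (l 16585400) (l 16586904)) (b (l 16629920) (l 16609480))) (b (b (l 16570512) (l 16570528)) (b (l 16570032) (l 16589880)))))) (b (b (a (a (l 16557680) (l 16547296)) (a (l 16536672) (l 16525736))) (a (b (l 16571824) (a (l 16556352) (l 16542256))) (b (l 16525000) (l 16562216)))) (b (a (b (a (l 16555264) (l 16539552)) (c (l 16536240) (l 16548584))) (a (b (l 16523280) (l 16518152)) (l 16544912))) (b (a (l 16563000) (l 16527208)) (a (c (l 16567016) (l 16564056)) (a (l 16545488) (l 16554392))))))), by decide +kernel⟩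

def k7_pm_022 : ∃ t, chk3 f_pm_022 t 6 1 1 = true :=
  ⟨(b (b (a (b (b (l 16490864) (a (l 16458584) (l 16447352))) (a (l 16489360) (l 16453984))) (b (a (l 16455888) (l 16488112)) (a (l 16432856) (l 16509872)))) (a (b (a (l 16500352) (l 16506840)) (a (b (l 16488488) (l 16496864)) (b (l 16473328) (l 16481224)))) (b (a (l 16444808) (l 16420720)) (a (l 16520520) (l 16431128))))) (b (a (a (b (b (l 16506256) (a (l 16519696) (l 16512016))) (b (a (b (l 16526960) (l 16531344)) (l 16542296)) (a (l 16526184) (l 16517656)))) (b (b (l 16490040) (a (l 16503568) (l 16494232))) (b (a (l 16512400) (l 16502624)) (a (l 16508536) (b (l 16503768) (l 16494000)))))) (b (a (b (l 16469696) (l 16478312)) (b (l 16443752) (l 16452384))) (b (a (a (l 16491936) (l 16480128)) (l 16460000)) (a (b (l 16509304) (l 16477520)) (b (l 16463736) (l 16452704)))))) (b (a (a (b (a (l 16514408) (l 16502600)) (a (l 16542704) (l 16527184))) (a (b (l 16490232) (b (l 16474504) (l 16462896))) (b (l 16477192) (l 16493504))))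 (a (b (b (l 16463488) (l 16469384)) (a (l 16433072) (l 16413200))) (b (l 16508296) (l 16450248)))) (a (b (a (b (l 16479424) (l 16491112)) (b (l 16460752) (l 16493216))) (a (b (l 16535872) (a (l 16522552) (l 16534000))) (b (c (l 16512840) (l 16503096)) (a (c (l 16489672) (l 16478496)) (c (l 16505168) (l 16471120)))))) (b (a (c (l 16497928) (l 16488792)) (b (l 16457048) (l 16475688))) (b (a (a (l 16457040) (l 16453552)) (a (l 16452432) (l 16475144))) (a (a (c (l 16501512) (l 16465744)) (c (b (l 16474464) (l 16483944)) (l 16462528))) (a (c (b (l 16475512) (l 16485848)) (l 16461912)) (b (l 16511424) (c (c (l 16496392) (l 16485448)) (l 16469024))))))))))), by decide +kernel⟩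

def k8_pm_022 : ∃ t, chk3 f_pm_022 t 7 2 1 = true :=
  ⟨(b (a (b (a (l 16521488) (l 16557912)) (a (l 16590152) (l 16610928))) (a (b (l 16596552) (l 16635528)) (b (l 16636848) (l 16643648)))) (a (b (a (l 16476464) (l 16540592)) (a (l 16447616) (l 16499872))) (b (a (l 16572656) (b (l 16637568) (l 16596560))) (a (b (l 16496312) (l 16460040)) (l 16578144))))), by decide +kernel⟩

def k9_pm_022 : ∃ t, chk3 f_pm_022 t 7 6 1 = true :=
  ⟨(a (b (a (b (l 16409760) (l 16409992)) (l 16467200)) (a (b (l 16510752) (b (l 16494672) (a (l 16431072) (l 16414184)))) (b (a (l 16398968) (l 16380152)) (b (l 16436736) (a (l 16398120) (l 16382160)))))) (b (a (b (l 16424368) (l 16389392)) (b (l 16479848) (l 16455024))) (a (b (l 16397312) (a (b (l 16362904) (l 16362320)) (l 16378992))) (b (l 16450976) (a (l 16390384) (l 16433288)))))), by decide +kernel⟩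

def k10_pm_022 : ∃ t, chk3 f_pm_022 t 14 14 1 = true :=
  ⟨(a (a (b (l 16396624) (l 16427552)) (b (l 16375512) (l 16450944))) (b (a (l 16376080) (l 16363408)) (a (l 16432432) (l 16435472)))), by decide +kernel⟩

def k11_pm_022 : ∃ t, chk3 f_pm_022 t 14 30 1 = true :=
  ⟨(a (a (b (l 16416360) (l 16437408)) (b (l 16421112) (l 16464888))) (a (b (l 16426464) (l 16472392)) (b (l 16433096) (c (l 16470200) (l 16447320))))), by decide +kernel⟩

def k12_pm_022 : ∃ t, chk3 f_pm_022 t 28 31 1 = true :=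
  ⟨(b (a (c (l 16469112) (l 16449080)) (c (l 16520728) (l 16456288))) (a (c (b (l 16487136) (c (a (l 16502968) (l 16529520)) (a (l 16491112) (l 16496048)))) (b (l 16464496) (a (l 16473256) (l 16477192)))) (b (c (a (l 16495264) (l 16501960)) (l 16494216)) (c (a (c (b (l 16511664) (b (l 16516880) (l 16520400))) (l 16522952)) (b (l 16533352) (c (a (l 16534912) (a (l 16548536) (c (l 16543792) (l 16526144)))) (a (l 16510504) (l 16535328))))) (a (c (l 16488736) (l 16475424)) (c (b (l 16491856) (l 16519208)) (l 16502000))))))), by decide +kernel⟩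

def k13_pm_022 : ∃ t, chk3 f_pm_022 t 29 31 1 = true :=
  ⟨(b (b (a (l 16491888) (c (l 16490328) (l 16464592))) (a (c (l 16496472) (l 16470704)) (c (l 16503040) (l 16475424)))) (a (b (c (a (l 16508280) (l 16511928)) (a (l 16481072) (l 16483744))) (c (b (a (c (l 16525592) (l 16511360)) (c (l 16528440) (l 16513768))) (b (a (c (a (l 16530032) (l 16531336)) (l 16516056)) (c (l 16554168) (l 16518176))) (a (c (a (c (b (l 16536152) (l 16537736)) (l 16529608)) (c (a (l 16537840) (l 16538456)) (l 16530712))) (a (l 16518576) (l 16519520))) (c (a (c (a (l 16539112) (l 14)) (l 16531920)) (c (l 14) (b (l 16532472) (l 16539296)))) (a (l 16531040) (c (l 16525584) (l 16517872))))))) (b (a (l 16489824) (l 16491544)) (a (c (a (l 16502320) (l 16503160)) (l 16487760)) (c (a (l 16503952) (l 16504872)) (l 16489016)))))) (b (c (a (l 16514272) (l 16517064)) (a (l 16485224) (l 16487112))) (c (b (a (c (l 16531224) (l 16516112)) (c (l 14) (l 16519024))) (a (c (a (b (l 16535352) (a (c (l 14) (l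 16534360)) (l 14))) (l 14)) (b (l 16520688) (a (c (l 16526952) (l 16519128)) (c (b (l 16527680) (l 16539744)) (l 16520528))))) (c (l 14) (b (l 16544752) (a (c (a (l 16529704) (l 14)) (l 16522072)) (c (l 14) (b (l 16522976) (l 16524560)))))))) (b (a (l 16493208) (l 16495416)) (a (c (a (l 16505920) (l 16528088)) (l 16490656)) (c (b (l 16507712) (a (l 16509912) (c (l 16515544) (l 16507288)))) (b (l 16491496) (l 16515160))))))))), by decide +kernel⟩

def k14_pm_022 : ∃ t, chk3 f_pm_022 t 15 14 1 = true :=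
  ⟨(a (b (b (l 16387416) (l 16414816)) (a (l 16462944) (b (l 16393184) (l 16418768)))) (b (a (l 16396584) (b (l 16423640) (l 16440832))) (a (l 16455264) (c (l 16531792) (l 16412944))))), by decide +kernel⟩

def k15_pm_022 : ∃ t, chk3 f_pm_022 t 15 30 1 = true :=
  ⟨(a (a (b (l 16439360) (l 16505712)) (b (l 16443672) (c (l 16492496) (l 16455848)))) (a (b (l 16456936) (b (l 16478224) (l 16493168))) (b (c (l 16567032) (l 16451192)) (c (l 16593192) (l 16479744))))), by decide +kernel⟩

def k16_pm_022 : ∃ t, chk3 f_pm_022 t 30 31 1 = true :=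
  ⟨(b (b (a (l 16502888) (l 16514672)) (a (c (l 16508912) (l 16479512)) (c (l 16510784) (l 16485976)))) (a (b (c (a (l 16520464) (l 16524488)) (a (l 16489568) (l 16492624))) (c (a (a (b (l 16529576) (c (l 14) (b (l 16526488) (a (c (l 14) (l 16525136)) (l 14))))) (b (l 16531616) (l 14))) (l 14)) (a (b (l 16519176) (c (b (l 16510920) (a (c (l 16517272) (l 16508888)) (c (b (l 16518360) (l 16519944)) (l 16510640)))) (a (l 16494848) (l 16496376)))) (b (c (l 16510008) (l 16493160)) (b (c (l 16535720) (l 16497512)) (c (a (c (a (l 16520664) (l 14)) (l 16512552)) (c (l 14) (b (l 16513832) (l 16515416)))) (a (l 16499504) (l 16511864)))))))) (b (c (a (l 14) (c (l 16590768) (l 14))) (a (l 16496304) (l 16500648))) (c (a (l 14) (a (l 14) (a (l 14) (c (c (l 16630672) (l 14)) (l 14))))) (b (a (c (l 16514312) (l 16496928)) (c (l 14) (l 16501368))) (b (a (c (a (l 16518048) (l 14)) (l 16501456)) (c (l 14) (l 16527048))) (a (c (a (a (c (l 14) (l 16516288)) (l 14)) (l 14)) (a (c (l 16507904)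 (l 16498912)) (c (l 16518040) (l 16501040)))) (c (l 14) (a (c (a (l 16511992) (l 14)) (l 16503336)) (c (l 14) (l 16516304))))))))))), by decide +kernel⟩

def k17_pm_022 : ∃ t, chk3 f_pm_022 t 31 31 1 = true :=
  ⟨(b (b (a (c (l 16567184) (l 16481968)) (c (l 16614072) (l 16502592))) (a (a (l 16516944) (l 16519040)) (c (a (l 16617440) (l 16639392)) (l 16508032)))) (a (b (c (a (l 16528584) (c (l 16637944) (l 16581952))) (a (l 16505696) (l 16511488))) (c (b (a (c (l 16605992) (l 14)) (c (l 16649640) (a (l 14) (l 16600088)))) (a (c (a (c (l 16643464) (l 14)) (c (l 16654792) (l 16626864))) (l 14)) (a (c (l 16631096) (l 14)) (c (l 16663016) (c (l 16622080) (l 14)))))) (a (c (l 14) (b (l 16506504) (a (a (c (l 14) (l 16515376)) (b (l 16510696) (l 14))) (l 14)))) (l 14)))) (c (a (b (c (l 16659840) (l 16605288)) (c (a (l 16669800) (l 16680264)) (b (l 16588400) (a (c (l 16633280) (l 14)) (c (l 16644208) (l 16606992)))))) (b (c (l 16680680) (l 16627520)) (c (b (l 16691744) (l 16699248))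 (b (l 16639136) (a (l 16620720) (l 16652264)))))) (a (l 14) (a (l 14) (b (l 16552848) (b (l 16528520) (c (c (b (l 16611032) (l 16615112)) (l 14)) (l 14))))))))), by decide +kernel⟩

theorem s18_pm_022 : ∃ t, chk3 f_pm_022 t 15 31 1 = true := ex3_a k16_pm_022 k17_pm_022

theorem s19_pm_022 : ∃ t, chk3 f_pm_022 t 15 15 1 = true := ex3_b k15_pm_022 s18_pm_022

theorem s20_pm_022 : ∃ t, chk3 f_pm_022 t 15 7 1 = true := ex3_b k14_pm_022 s19_pm_022

theorem s21_pm_022 : ∃ t, chk3 f_pm_022 t 14 31 1 = true := ex3_a k12_pm_022 k13_pm_022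

theorem s22_pm_022 : ∃ t, chk3 f_pm_022 t 14 15 1 = true := ex3_b k11_pm_022 s21_pm_022

theorem s23_pm_022 : ∃ t, chk3 f_pm_022 t 14 7 1 = true := ex3_b k10_pm_022 s22_pm_022

theorem s24_pm_022 : ∃ t, chk3 f_pm_022 t 7 7 1 = true := ex3_a s23_pm_022 s20_pm_022

theorem s25_pm_022 : ∃ t, chk3 f_pm_022 t 7 3 1 = true := ex3_b k9_pm_022 s24_pm_022

theorem s26_pm_022 : ∃ t, chk3 f_pm_022 t 7 1 1 = true := ex3_b k8_pm_022 s25_pm_022

theorem s27_pm_022 : ∃ t, chk3 f_pm_022 t 3 1 1 = true := ex3_a k7_pm_022 s26_pm_022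

theorem s28_pm_022 : ∃ t, chk3 f_pm_022 t 5 3 1 = true := ex3_b k5_pm_022 k6_pm_022

theorem s29_pm_022 : ∃ t, chk3 f_pm_022 t 5 1 1 = true := ex3_b k4_pm_022 s28_pm_022

theorem s30_pm_022 : ∃ t, chk3 f_pm_022 t 9 3 1 = true := ex3_b k2_pm_022 k3_pm_022

theorem s31_pm_022 : ∃ t, chk3 f_pm_022 t 4 3 1 = true := ex3_a k1_pm_022 s30_pm_022

theorem s32_pm_022 : ∃ t, chk3 f_pm_022 t 4 1 1 = true := ex3_b k0_pm_022 s31_pm_022

theorem s33_pm_022 : ∃ t, chk3 f_pm_022 t 2 1 1 = true := ex3_a s32_pm_022 s29_pm_022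

theorem s34_pm_022 : ∃ t, chk3 f_pm_022 t 1 1 1 = true := ex3_a s33_pm_022 s27_pm_022

theorem c_pm_022 : CertN 0 536870912 0 536870912 469762048 67108864 3 true true false .pp 0 2 2
    ndN0q0 ndN0q2 pcN2 cut_pm_022 Ext.none :=
  certN2 (fam := true) (s1 := true) (s2 := false) (a := 0) (b := 2) (c := 2) (cn := .pp) (n1 := ndN0q0) (n2 := ndN0q2) (pc := pcN2) (cut := cut_pm_022) (xt := Ext.none) (P1 := 0) (W1 := 536870912) (P2 := 0) (W2 := 536870912) (P3 := 469762048) (W3 := 67108864) (N0 := 3)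
    rfl (fun _ => rfl) s34_pm_022

noncomputable def cut_pm_023 : Cut := Cut.of [[⟨0, 0, 1, 33554432⟩, ⟨1, 1, 0, 33554432⟩, ⟨2, 1, 1, 33554432⟩]]

noncomputable def f_pm_023 : ℕ → ℕ → ℕ → ℕ → Bool := onCell 1610612736 536870912 0 536870912 469762048 67108864
    (rowN 3 2 true true false .up 0 2 3 (qsf 0 536870912 0 536870912 3) ndN0q0 ndN0q2 pcN3 cut_pm_023 Ext.none)

def k0_pm_023 : ∃ t, chk3 f_pm_023 t 4 2 1 = true :=
  ⟨(b (a (a (b (b (l 16705880) (a (l 16680976) (l 16675864))) (a (b (l 16674848) (l 16667120)) (l 16663056))) (b (b (l 16679624) (l 16668848)) (a (l 16654776) (l 16646896)))) (b (a (l 16732144) (b (l 16716520) (l 16706968))) (a (l 16654200) (l 16693192)))) (a (b (a (b (a (b (l 16659176) (l 16642096)) (l 16642312)) (a (l 16605312) (l 16598392))) (b (a (l 16632784) (l 16622024)) (l 16585592))) (a (a (l 16603872) (l 16570448)) (a (l 16544936) (l 16581688)))) (b (a (b (l 16634704) (l 16624576)) (b (l 16679672) (l 16671576))) (a (l 16628008) (l 16676560))))),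 by decide +kernel⟩

def k1_pm_023 : ∃ t, chk3 f_pm_023 t 4 3 1 = true :=
  ⟨(a (b (a (b (a (b (l 16468304) (l 16487256)) (b (l 16515312) (l 16531760))) (a (b (l 16513456) (l 16546768)) (b (l 16554792) (l 16584840)))) (b (a (l 16565072) (l 16604800)) (a (b (l 16596320) (l 16625200)) (b (l 16637448) (l 16666624))))) (b (a (b (a (b (l 16572432) (l 16581680)) (b (l 16609480) (l 16619280))) (a (b (l 16590976) (l 16601072)) (b (l 16628760) (l 16639024)))) (b (a (b (l 16649568) (l 16659920)) (l 16696672)) (a (b (l 16669304) (l 16679416)) (l 16695304)))) (a (b (a (a (b (l 16601912) (l 16613536)) (b (l 16621792) (l 16612528))) (a (b (l 16640752) (l 16631568)) (b (l 16658888) (l 16649752)))) (b (b (a (c (l 16683112) (l 16582264)) (c (l 16718952) (l 74188451799))) (a (c (a (l 16680040) (l 16698832)) (l 16525744)) (l 2))) (a (a (c (b (l 16686648) (a (c (l 16714048) (l 16642040)) (l 78483565447))) (c (b (l 16610144) (a (a (c (l 16621808) (l 6)) (l 82778412935)) (l 81704684407))) (l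 6))) (b (c (l 16705464) (l 81704602167)) (l 2))) (l 2)))) (b (a (b (a (l 16679144) (l 2)) (l 2)) (l 2)) (l 2))))) (b (b (a (b (l 16645896) (l 16664824)) (l 16706720)) (a (b (l 16689032) (l 16718272)) (b (l 16741608) (l 2)))) (b (a (b (b (l 16743144) (l 16755320)) (l 2)) (l 2)) (l 2)))), by decide +kernel⟩

def k2_pm_023 : ∃ t, chk3 f_pm_023 t 5 1 1 = true :=
  ⟨(a (b (a (b (b (b (l 16738208) (l 16731408)) (l 16722048)) (b (l 16731944) (b (l 16707856) (l 16717688)))) (b (b (l 2) (l 2)) (l 2))) (b (l 2) (l 2))) (b (l 2) (l 2))), by decide +kernel⟩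

def k3_pm_023 : ∃ t, chk3 f_pm_023 t 3 1 1 = true :=
  ⟨(l 2), by decide +kernel⟩

theorem s4_pm_023 : ∃ t, chk3 f_pm_023 t 4 1 1 = true := ex3_b k0_pm_023 k1_pm_023

theorem s5_pm_023 : ∃ t, chk3 f_pm_023 t 2 1 1 = true := ex3_a s4_pm_023 k2_pm_023

theorem s6_pm_023 : ∃ t, chk3 f_pm_023 t 1 1 1 = true := ex3_a s5_pm_023 k3_pm_023

theorem c_pm_023 : CertN 0 536870912 0 536870912 469762048 67108864 3 true true false .up 0 2 3
    ndN0q0 ndN0q2 pcN3 cut_pm_023 Ext.none :=
  certN2 (fam := true) (s1 := true) (s2 := false) (a := 0) (b := 2) (c := 3) (cn := .up) (n1 := ndN0q0) (n2 := ndN0q2) (pc := pcN3) (cut := cut_pm_023) (xt := Ext.none) (P1 := 0) (W1 := 536870912) (P2 := 0) (W2 := 536870912) (P3 := 469762048) (W3 := 67108864) (N0 := 3)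
    rfl (fun _ => rfl) s6_pm_023

noncomputable def cut_pm_101 : Cut := Cut.of [[⟨0, 1, 0, 67108864⟩, ⟨1, 0, 0, 67108864⟩, ⟨2, 1, 0, 67108864⟩]]

noncomputable def f_pm_101 : ℕ → ℕ → ℕ → ℕ → Bool := onCell 536870912 536870912 536870912 536870912 469762048 67108864
    (rowN 3 1 true true false .npn 1 0 1 (qsf 536870912 536870912 0 536870912 1) ndN0q1 ndN0q0 pcN1 cut_pm_101 Ext.none)

def k0_pm_101 : ∃ t, chk3 f_pm_101 t 1 1 1 = true :=
  ⟨(b (l 3) (a (l 3) (b (l 3) (a (l 3) (b (l 3) (a (l 3) (b (l 3) (a (l 3) (l 6))))))))), by decide +kernel⟩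

theorem c_pm_101 : CertN 536870912 536870912 0 536870912 469762048 67108864 3 true true false .npn 1 0 1
    ndN0q1 ndN0q0 pcN1 cut_pm_101 Ext.none :=
  certN1 (fam := true) (s1 := true) (s2 := false) (a := 1) (b := 0) (c := 1) (cn := .npn) (n1 := ndN0q1) (n2 := ndN0q0) (pc := pcN1) (cut := cut_pm_101) (xt := Ext.none) (P1 := 536870912) (W1 := 536870912) (P2 := 0) (W2 := 536870912) (P3 := 469762048) (W3 := 67108864) (N0 := 3)
    rfl (fun _ => rfl) k0_pm_101

end Pool.Agent.Strip051.G.I7_16_1_2.Tab.C.NA00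

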