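import Pool.Agent.Strip051.G.I7_16_1_2.Tab

/-! # Certificates N4 (generated) -/

set_option linter.all false
set_option maxRecDepth 100000

namespace Pool.Agent.Strip051.G.I7_16_1_2.Tab.C.NA00

open Pool.Agent.Strip051.PB Pool.Agent.Strip051.PB.T
open Pool.Agent.Strip051.G.I7_16_1_2.Tab

noncomputable def cut_pm_112 : Cut := Cut.of [[⟨0, 0, 1, 33554432⟩, ⟨1, 1, 0, 33554432⟩, ⟨2, 1, 1, 33554432⟩], [⟨0, 1, 0, 33554432⟩, ⟨1, 0, 1, 33554432⟩, ⟨2, 1, 1, 33554432⟩]]

noncomputable def f_pm_112 : ℕ → ℕ → ℕ → ℕ → Bool := onCell 536870912 536870912 1073741824 536870912 469762048 67108864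
    (rowN 3 1 true true false .dn 1 1 2 (qsf 536870912 536870912 536870912 536870912 2) ndN0q1 ndN0q1 pcN2 cut_pm_112 Ext.none)

def k0_pm_112 : ∃ t, chk3 f_pm_112 t 2 4 1 = true :=
  ⟨(a (l 3) (l 3)), by decide +kernel⟩

def k1_pm_112 : ∃ t, chk3 f_pm_112 t 4 40 1 = true :=
  ⟨(l 3), by decide +kernel⟩

def k2_pm_112 : ∃ t, chk3 f_pm_112 t 4 82 1 = true :=
  ⟨(l 3), by decide +kernel⟩

def k3_pm_112 : ∃ t, chk3 f_pm_112 t 8 83 1 = true :=
  ⟨(b (a (a (b (l 3) (b (l 3) (a (l 149954796455) (l 199883782343)))) (l 3)) (l 3)) (b (a (a (b (a (l 16790704) (c (l 16794096) (l 16787136))) (a (b (l 16791216) (l 16791536)) (b (l 16790984) (l 16791240)))) (b (b (a (l 205252486167) (l 3)) (a (l 16792016) (a (l 168208391095) (l 1059414107543)))) (a (b (l 16790936) (l 16791152)) (a (b (l 16790992) (l 16791192)) (a (b (l 16790696) (l 16790984)) (b (c (l 190220104007) (c (l 191293836583) (l 192367575047))) (c (l 16794632) (l 16786552)))))))) (b (l 3) (a (a (b (c (a (a (b (l 215453036151) (l 16794176))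 (l 218137389735)) (l 220821744439)) (a (a (b (l 217063635367) (l 16785648)) (l 221358603463)) (l 224042958311))) (a (b (a (l 16789968) (l 16789320)) (l 16789744)) (b (l 16788416) (l 16788496)))) (b (l 3) (a (l 210084316759) (l 16786392)))) (a (b (l 3) (l 217600509095)) (l 3))))) (a (a (b (b (b (a (l 16791792) (l 16791448)) (l 16791752)) (l 16792000)) (l 16792528)) (b (b (b (a (l 16791328) (a (l 16791336) (l 16790960))) (a (l 16791440) (a (l 16791440) (l 16791096)))) (a (l 16791624) (a (l 16791600) (l 16791304)))) (a (l 16792024) (l 16791816)))) (a (b (b (a (b (a (l 16789848) (l 16788568)) (l 16789288)) (b (l 16786920) (l 16786960))) (a (l 16789440) (l 16787032))) (a (l 16789784) (l 16787200))) (b (b (b (a (l 16785184) (l 16783928)) (a (l 16785184) (l 16783904))) (a (l 16785192) (l 16783856))) (a (l 16785224) (l 16783784))))))), by decide +kernel⟩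

def k4_pm_112 : ∃ t, chk3 f_pm_112 t 9 83 1 = true :=
  ⟨(b (l 3) (b (a (l 3) (a (b (l 3) (a (l 3) (b (l 3) (c (l 16790080) (l 16786472))))) (b (l 3) (a (a (b (l 3) (l 16786920)) (b (l 241222828263) (c (l 16792304) (l 16783712)))) (b (b (a (l 3) (a (b (l 3) (a (l 16784648) (l 175724576743))) (l 16790400))) (a (c (l 16793472) (l 16784856)) (a (a (l 16789904) (a (l 16790136) (l 16790240))) (l 16790472)))) (a (b (l 16789128) (l 16789136)) (a (b (a (l 16789928) (l 16790240)) (l 16790120)) (b (l 16790552) (l 16790632))))))))) (a (a (b (b (b (l 3) (a (l 16783080) (l 16782696))) (l 16793224)) (l 16782568)) (b (b (b (l 3) (a (l 16782736) (l 16783208))) (l 16793296)) (l 16782600))) (a (b (b (b (a (l 16784184) (l 16785544)) (a (l 16784120) (l 16785504))) (a (l 16784032) (l 16785448))) (a (l 16783864) (l 16785328))) (b (b (b (a (l 16787400) (a (l 16789152) (c (l 16794504) (l 16786440)))) (a (l 16787392) (a (l 16789168) (l 16790472)))) (a (l 16787368) (a (l 16789192) (l 16790552)))) (a (l 16787344)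 (l 16789960))))))), by decide +kernel⟩

def k5_pm_112 : ∃ t, chk3 f_pm_112 t 4 21 1 = true :=
  ⟨(a (b (a (b (a (b (l 16794728) (l 16800176)) (a (l 16795288) (b (l 16793224) (l 16796368)))) (a (l 16799640) (l 16805152))) (b (a (a (a (a (l 16794000) (l 16793344)) (l 16791992)) (l 16789128)) (b (l 16800232) (l 16785328))) (a (a (l 16803632) (l 16800840)) (l 16790336)))) (a (a (l 16768536) (l 16789696)) (a (l 16787560) (l 16774456)))) (a (b (a (b (b (l 16782048) (l 16781424)) (l 16781552)) (b (b (l 16781904) (l 16780832)) (l 16779312))) (a (l 16772488) (l 16777000))) (b (b (a (b (l 16794552) (l 16783456)) (a (l 16787472) (l 16792688))) (a (l 16783104) (l 16793840))) (b (l 16806176) (l 16770928))))), by decide +kernel⟩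

def k6_pm_112 : ∃ t, chk3 f_pm_112 t 4 11 1 = true :=
  ⟨(a (b (a (a (l 16816256) (l 16761768)) (a (l 16767824) (a (l 16759920) (l 16770488)))) (a (a (l 16750832) (l 16750040)) (a (l 16760984) (l 16781024)))) (a (b (a (b (l 16777520) (l 16785472)) (b (l 16786192) (l 16794960))) (a (l 16796088) (l 16807144))) (b (a (b (l 16787880) (l 16798968)) (b (l 16782872) (l 16797800))) (a (l 16835520) (b (l 16811472) (l 16824768)))))), by decide +kernel⟩

def k7_pm_112 : ∃ t, chk3 f_pm_112 t 5 5 1 = true :=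
  ⟨(b (b (b (a (l 3) (l 1)) (b (a (a (l 3) (l 1)) (l 1)) (b (a (a (b (l 3) (a (a (l 3) (b (l 3) (l 199883777991))) (a (b (l 3) (l 146196696071)) (b (l 196662568119) (l 16800520))))) (l 1)) (l 1)) (a (b (a (b (b (a (a (l 3) (l 198273168823)) (a (l 16790424) (l 16790640))) (a (a (a (l 523080064199) (l 16790736)) (l 16790688)) (a (l 16790752) (l 16791016)))) (a (a (b (a (c (l 16794776) (l 16787192)) (l 16790968)) (a (c (l 16794904) (l 16787440)) (l 16791168))) (b (l 16790936) (l 16791160))) (a (b (l 16791040) (l 16791304)) (b (l 16791352) (l 16791664))))) (l 1)) (a (a (b (b (b (a (a (l 16791264) (l 16791328)) (l 16791336)) (a (l 16791392) (l 16791456))) (a (l 16791552) (l 16791640))) (a (l 16791888) (l 16792032))) (b (b (b (l 16802168) (l 16791832)) (l 16792072)) (l 16792568))) (a (b (l 1) (l 16794520)) (l 1)))) (l 1))))) (a (b (a (a (b (a (b (l 16782608) (l 16795704)) (l 16794936)) (a (l 16804032) (l 16804320))) (a (l 16779232) (l 16802664))) (a (a (l 16801928) (l 16799216)) (l 188475254727)))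 (a (a (l 16841352) (l 16830800)) (a (l 16784784) (l 16772824)))) (b (l 1) (a (l 48352025767) (l 1))))) (a (a (a (b (b (l 16770288) (l 16791072)) (b (l 16807256) (l 16823128))) (b (b (l 16795888) (l 16778536)) (l 16807112))) (b (a (b (l 16774424) (l 16759160)) (a (l 16825952) (l 16801000))) (b (a (l 16785528) (l 16767744)) (l 16799760)))) (b (a (a (l 16752608) (l 16758512)) (b (l 1) (l 16765696))) (a (a (b (l 16751408) (l 16774632)) (l 16795696)) (l 45667641287))))), by decide +kernel⟩

def k8_pm_112 : ∃ t, chk3 f_pm_112 t 2 6 1 = true :=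
  ⟨(a (a (b (a (b (a (l 16759976) (l 16761448)) (a (l 16767856) (l 16771344))) (b (a (l 16773768) (l 16794904)) (a (l 16786048) (l 16810272)))) (a (b (a (l 16776424) (l 16781720)) (a (b (l 16782768) (l 16782704)) (l 16793816))) (b (a (l 16799384) (l 16828016)) (a (l 16814840) (l 16848552))))) (b (a (b (a (l 16811888) (l 16825240)) (a (l 16830696) (l 16847376))) (b (a (l 16835368) (l 16842872)) (a (l 16860312) (l 16870168)))) (a (b (a (l 16852856) (l 16873712)) (a (l 16878576) (l 16904664))) (b (a (l 16890640) (l 16903872)) (a (l 16926512) (l 16944016)))))) (a (b (a (b (a (b (l 16838656) (l 16852816)) (b (l 16833608) (l 16851088))) (a (l 16874792) (l 16874816))) (b (a (l 16835208) (l 16825192)) (a (l 16873488) (b (l 16858416) (l 16880560))))) (a (b (a (l 16910144) (l 16910536)) (a (l 16953208) (l 16954624))) (b (a (l 16910648) (l 16910496)) (l 16955472)))) (b (a (b (a (l 16811800) (l 16815088)) (a (l 16860112) (l 16847216))) (b (a (l 16798128) (l 16765072)) (a (l 16830584) (l 16809528))))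 (a (b (a (b (l 16897792) (l 16920376)) (b (l 16888872) (l 16916800))) (a (l 16955128) (l 16954344))) (b (a (b (l 16874968) (l 16906408)) (l 16873672)) (a (b (l 16937680) (l 16965928)) (b (l 16925512) (l 16960416)))))))), by decide +kernel⟩

def k9_pm_112 : ∃ t, chk3 f_pm_112 t 4 14 1 = true :=
  ⟨(a (a (b (a (b (l 16774968) (l 16763488)) (b (l 16799448) (l 16794760))) (a (b (l 16748880) (c (l 16751720) (l 16707024))) (b (l 16784944) (l 16775928)))) (b (a (l 16831072) (l 16872760)) (a (b (l 16834696) (l 16827424)) (b (l 16890832) (l 16891936))))) (a (b (a (l 16908656) (l 16940560)) (b (l 16953600) (l 16965712))) (b (a (l 16968096) (l 16991144)) (a (l 17016496) (l 17045680))))), by decide +kernel⟩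

def k10_pm_112 : ∃ t, chk3 f_pm_112 t 4 15 1 = true :=
  ⟨(a (a (b (a (a (b (c (l 16752032) (l 16674168)) (b (l 16658320) (c (l 16736280) (l 16648024)))) (b (l 16713480) (b (l 16682416) (l 16654272)))) (b (l 16744624) (a (l 16680464) (l 16701232)))) (a (b (c (a (b (l 16708304) (c (l 16745112) (l 16677528))) (b (l 16752608) (l 16746032))) (b (a (l 16596264) (l 16645456)) (a (c (l 16609624) (a (l 6) (l 16612152))) (l 16615192)))) (c (b (a (c (l 16737928) (a (l 16682984) (l 16696760))) (c (l 16761768) (l 16716288))) (b (a (c (l 16732240) (a (l 16676072) (l 16690240))) (l 16733576)) (a (c (l 16728312) (a (l 16671328) (l 16685760))) (l 16687848)))) (c (b (a (b (l 16581224) (a (l 16610392) (l 16646576))) (l 16607576)) (a (a (c (b (l 16638576) (a (l 16629336) (l 16637232))) (l 6)) (b (l 16641512) (c (l 16648736) (l 16623928)))) (a (b (l 16656328) (l 16651416)) (l 16668192)))) (a (l 6) (a (l 6) (b (l 16631832) (l 16579392))))))) (b (a (b (l 16649408) (l 16642280)) (c (l 16790992) (l 16670680)))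 (b (a (c (l 16761952) (l 16612256)) (l 16637032)) (c (a (l 16755424) (l 16777072)) (a (b (l 16605432) (l 16579808)) (c (l 16713640) (l 16671016)))))))) (b (a (b (l 16818808) (l 16767216)) (b (l 16884968) (l 16876032))) (a (b (a (l 16717600) (l 16753200)) (a (c (l 16807088) (l 16687440)) (l 16721040))) (b (l 16845432) (c (l 16886560) (l 16804608)))))) (a (b (a (b (l 16945792) (l 16939072)) (l 16973280)) (a (c (l 16926608) (l 16880080)) (b (l 16989488) (l 16978448)))) (b (a (l 17037160) (l 17076544)) (a (l 16995448) (l 17082704))))), by decide +kernel⟩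

def k11_pm_112 : ∃ t, chk3 f_pm_112 t 5 7 1 = true :=
  ⟨(a (b (a (b (a (l 17004160) (l 17007104)) (a (l 17063152) (l 17068672))) (b (l 16989288) (l 17075048))) (a (b (c (l 17113920) (l 17094176)) (l 17112184)) (b (l 17113704) (l 17132280)))) (b (b (a (l 17010880) (a (l 17009184) (l 17007096))) (a (l 17079296) (l 17077824))) (a (b (l 17160168) (l 17160880)) (b (l 17162744) (l 17200904))))), by decide +kernel⟩

def k12_pm_112 : ∃ t, chk3 f_pm_112 t 3 2 1 = true :=
  ⟨(a (b (l 1) (b (l 1) (a (b (l 1) (a (l 67142475767) (l 1))) (l 1)))) (l 1)), by decide +kernel⟩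

def k13_pm_112 : ∃ t, chk3 f_pm_112 t 3 6 1 = true :=
  ⟨(a (a (b (a (b (l 36003937591) (a (l 16789696) (l 16775144))) (b (l 75195508855) (l 26340259207))) (a (b (a (l 16852752) (l 16827144)) (a (b (l 16907160) (l 16946104)) (l 16904584))) (b (a (l 16803480) (l 16785912)) (a (l 16878480) (l 16847552))))) (b (a (b (l 1) (a (l 16758400) (l 1))) (l 1)) (a (b (a (l 16775944) (l 16769856)) (a (l 16819432) (l 16798528))) (b (a (l 69289868295) (l 1)) (a (l 52110031095) (l 16762960)))))) (a (b (l 1) (a (b (l 1) (a (l 59089234887) (l 1))) (l 1))) (l 1))), by decide +kernel⟩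

def k14_pm_112 : ∃ t, chk3 f_pm_112 t 6 7 1 = true :=
  ⟨(a (a (b (b (a (b (l 16984928) (l 17019888)) (b (l 16968264) (l 17011296))) (a (l 17073144) (l 17068576))) (b (c (l 17151464) (l 17114072)) (l 17180160))) (b (b (a (l 16946784) (l 16940472)) (a (b (l 17039664) (l 17082360)) (b (l 17017792) (l 17070216)))) (b (a (l 17127208) (l 17114632)) (l 17124504)))) (b (a (b (a (l 16908504) (l 16871600)) (a (l 16995040) (l 16982392))) (b (a (b (l 16815912) (l 16858784)) (b (l 16789160) (l 16817872))) (a (l 16940792) (b (l 16866064) (l 16921480))))) (b (a (a (l 17056144) (l 16988288)) (a (l 17036528) (l 16955008))) (a (l 17100296) (b (l 17035920) (l 17082192)))))), by decide +kernel⟩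

def k15_pm_112 : ∃ t, chk3 f_pm_112 t 7 14 1 = true :=
  ⟨(a (a (b (a (l 16748376) (b (l 16729408) (l 16747016))) (a (b (l 16810624) (l 16860336)) (b (l 16766880) (l 16802416)))) (b (a (b (l 1) (l 16713032)) (l 1)) (a (b (l 16730712) (l 16756736)) (b (l 48888548919) (l 27413754615))))) (a (b (l 1) (a (b (l 1) (a (l 16658528) (l 1))) (l 1))) (l 1))), by decide +kernel⟩

def k16_pm_112 : ∃ t, chk3 f_pm_112 t 14 15 1 = true :=
  ⟨(a (b (a (b (l 16916984) (l 16969960)) (b (l 16852104) (l 16907976))) (a (b (l 17018672) (l 17062464)) (b (l 16959720) (l 17007512)))) (b (a (b (a (l 16783696) (l 16757080)) (l 16822008)) (b (b (l 16716624) (l 16710712)) (a (l 16752688) (l 16704112)))) (a (b (l 16877440) (l 16949248)) (b (a (l 16850048) (l 16774032)) (l 16846392))))), by decide +kernel⟩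

def k17_pm_112 : ∃ t, chk3 f_pm_112 t 30 15 1 = true :=
  ⟨(b (a (b (a (l 16690520) (l 20971217479)) (a (l 16680464) (c (l 16761784) (l 16658712)))) (b (a (c (l 16662912) (l 49962197031)) (l 1)) (a (b (l 16645488) (l 16642080)) (c (l 19360631703) (b (l 16619944) (l 16633496)))))) (b (a (a (b (l 16706568) (l 16795664)) (b (l 16744400) (l 16679488))) (a (c (l 16771112) (l 16646328)) (b (c (l 16741200) (l 16631640)) (c (l 16757328) (l 16649856))))) (a (b (c (l 16842416) (l 16751792)) (l 16773848)) (b (a (c (l 16796520) (l 16654312)) (l 16625688)) (a (l 16678912) (c (l 16749112) (c (a (l 16736936) (l 16721032)) (l 16646752)))))))), by decide +kernel⟩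

def k18_pm_112 : ∃ t, chk3 f_pm_112 t 31 15 1 = true :=
  ⟨(b (a (a (a (b (l 1) (b (l 1) (l 49962164679))) (l 1)) (l 1)) (l 1)) (b (b (a (c (a (l 20971282503) (l 61236538231)) (a (l 16581248) (l 48351519559))) (l 1)) (a (c (a (l 16734208) (c (l 16732784) (l 18286901543))) (a (l 16600920) (c (l 11844344327) (l 14)))) (a (a (a (c (l 16649904) (l 51035846071)) (l 1)) (l 1)) (l 1)))) (a (c (a (b (l 16750768) (l 16766504)) (b (c (l 16750128) (l 16703416)) (l 16701896))) (a (b (l 16598704) (l 16595600)) (b (c (l 16593456) (b (l 14) (l 16572088))) (a (l 16575232) (l 16581896))))) (c (a (b (c (l 16683184) (a (l 16682984) (l 15065647959))) (c (l 16742976) (a (l 16701672) (l 16688024)))) (b (c (l 69289658343) (a (l 63920867463) (l 1))) (a (b (l 15065656791) (l 16661576)) (b (l 64994639319) (a (l 16672032) (l 30098028615)))))) (c (a (b (a (l 16571088) (b (l 16549984) (l 16581560))) (a (l 16611952) (b (l 16633856) (l 16643968)))) (b (a (b (l 1) (l 54793943319)) (l 1)) (c (a (b (l 16630744) (l 16641112))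 (b (l 62310204727) (a (l 16629344) (l 16600296)))) (a (b (l 14) (a (l 16619976) (l 14))) (l 14))))) (a (b (l 14) (a (l 16563816) (l 14))) (l 14))))))), by decide +kernel⟩

theorem s19_pm_112 : ∃ t, chk3 f_pm_112 t 15 15 1 = true := ex3_a k17_pm_112 k18_pm_112

theorem s20_pm_112 : ∃ t, chk3 f_pm_112 t 7 15 1 = true := ex3_a k16_pm_112 s19_pm_112

theorem s21_pm_112 : ∃ t, chk3 f_pm_112 t 7 7 1 = true := ex3_b k15_pm_112 s20_pm_112

theorem s22_pm_112 : ∃ t, chk3 f_pm_112 t 3 7 1 = true := ex3_a k14_pm_112 s21_pm_112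

theorem s23_pm_112 : ∃ t, chk3 f_pm_112 t 3 3 1 = true := ex3_b k13_pm_112 s22_pm_112

theorem s24_pm_112 : ∃ t, chk3 f_pm_112 t 3 1 1 = true := ex3_b k12_pm_112 s23_pm_112

theorem s25_pm_112 : ∃ t, chk3 f_pm_112 t 4 7 1 = true := ex3_b k9_pm_112 k10_pm_112

theorem s26_pm_112 : ∃ t, chk3 f_pm_112 t 2 7 1 = true := ex3_a s25_pm_112 k11_pm_112

theorem s27_pm_112 : ∃ t, chk3 f_pm_112 t 2 3 1 = true := ex3_b k8_pm_112 s26_pm_112

theorem s28_pm_112 : ∃ t, chk3 f_pm_112 t 4 83 1 = true := ex3_a k3_pm_112 k4_pm_112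

theorem s29_pm_112 : ∃ t, chk3 f_pm_112 t 4 41 1 = true := ex3_b k2_pm_112 s28_pm_112

theorem s30_pm_112 : ∃ t, chk3 f_pm_112 t 4 20 1 = true := ex3_b k1_pm_112 s29_pm_112

theorem s31_pm_112 : ∃ t, chk3 f_pm_112 t 4 10 1 = true := ex3_b s30_pm_112 k5_pm_112

theorem s32_pm_112 : ∃ t, chk3 f_pm_112 t 4 5 1 = true := ex3_b s31_pm_112 k6_pm_112

theorem s33_pm_112 : ∃ t, chk3 f_pm_112 t 2 5 1 = true := ex3_a s32_pm_112 k7_pm_112

theorem s34_pm_112 : ∃ t, chk3 f_pm_112 t 2 2 1 = true := ex3_b k0_pm_112 s33_pm_112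

theorem s35_pm_112 : ∃ t, chk3 f_pm_112 t 2 1 1 = true := ex3_b s34_pm_112 s27_pm_112

theorem s36_pm_112 : ∃ t, chk3 f_pm_112 t 1 1 1 = true := ex3_a s35_pm_112 s24_pm_112

theorem c_pm_112 : CertN 536870912 536870912 536870912 536870912 469762048 67108864 3 true true false .dn 1 1 2
    ndN0q1 ndN0q1 pcN2 cut_pm_112 Ext.none :=
  certN1 (fam := true) (s1 := true) (s2 := false) (a := 1) (b := 1) (c := 2) (cn := .dn) (n1 := ndN0q1) (n2 := ndN0q1) (pc := pcN2) (cut := cut_pm_112) (xt := Ext.none) (P1 := 536870912) (W1 := 536870912) (P2 := 536870912) (W2 := 536870912) (P3 := 469762048) (W3 := 67108864) (N0 := 3)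
    rfl (fun _ => rfl) s36_pm_112

noncomputable def cut_pm_113 : Cut := Cut.of [[⟨0, 1, 0, 67108864⟩, ⟨1, 1, 0, 67108864⟩, ⟨2, 2, 0, 16777216⟩], [⟨0, 0, 1, 33554432⟩, ⟨1, 1, 0, 33554432⟩, ⟨2, 1, 1, 33554432⟩], [⟨0, 1, 0, 33554432⟩, ⟨1, 0, 1, 33554432⟩, ⟨2, 1, 1, 33554432⟩]]

noncomputable def f_pm_113 : ℕ → ℕ → ℕ → ℕ → Bool := onCell 536870912 536870912 536870912 536870912 469762048 67108864
    (rowN 3 0 true true false .nn 1 1 3 (qsf 536870912 536870912 536870912 536870912 3) ndN0q1 ndN0q1 pcN3 cut_pm_113 Ext.none)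

def k0_pm_113 : ∃ t, chk3 f_pm_113 t 2 2 1 = true :=
  ⟨(a (l 1) (b (l 1) (a (l 1) (b (l 1) (a (l 1) (l 25803857943)))))), by decide +kernel⟩

def k1_pm_113 : ∃ t, chk3 f_pm_113 t 2 6 1 = true :=
  ⟨(a (b (l 1) (a (l 1) (a (l 1) (b (l 1) (b (l 1) (l 16898920)))))) (a (b (a (l 1) (l 37614870311)) (a (b (l 16998400) (a (l 16987608) (l 17012912))) (b (l 17049368) (l 17046448)))) (b (b (l 17023528) (a (l 17104200) (l 17145112))) (a (l 17003136) (l 17054040))))), by decide +kernel⟩

def k2_pm_113 : ∃ t, chk3 f_pm_113 t 4 14 1 = true :=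
  ⟨(a (b (l 1) (a (l 1) (a (l 1) (a (l 1) (b (l 1) (l 16764136)))))) (a (b (b (l 1) (a (l 1) (l 16859592))) (a (b (l 34930139287) (a (l 16814880) (l 16843440))) (b (l 16872760) (c (l 16913712) (l 16854696))))) (b (b (a (l 16899816) (l 16952056)) (a (l 16912880) (l 16962256))) (a (b (l 16924544) (l 16934536)) (b (l 16971848) (l 16980840)))))), by decide +kernel⟩

def k3_pm_113 : ∃ t, chk3 f_pm_113 t 16 30 1 = true :=
  ⟨(b (l 1) (a (l 1) (a (l 1) (b (l 1) (c (l 16733320) (l 16598400)))))), by decide +kernel⟩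

def k4_pm_113 : ∃ t, chk3 f_pm_113 t 16 62 1 = true :=
  ⟨(a (a (l 1) (a (l 1) (b (l 1) (b (l 1) (c (l 16712224) (l 16593200)))))) (b (c (a (l 16720456) (l 16737912)) (a (b (l 1) (l 16604776)) (b (l 16643552) (l 16645568)))) (c (a (c (l 16748576) (l 16700904)) (l 16742104)) (a (a (b (l 16622624) (l 16603528)) (b (l 16632744) (l 16613624))) (c (b (l 16671024) (l 16672880)) (b (l 16623848) (l 16625608))))))), by decide +kernel⟩

def k5_pm_113 : ∃ t, chk3 f_pm_113 t 16 63 1 = true :=
  ⟨(a (c (b (a (c (l 16716704) (b (l 1) (l 17750016279))) (c (l 16735096) (b (l 16685040) (l 16686888)))) (a (b (a (l 16676276295) (l 16678208)) (c (l 16721368) (a (l 16665672) (l 16675688)))) (c (l 16738792) (b (l 16688632) (l 16669280))))) (b (c (a (b (l 1) (a (l 1) (l 16621744))) (b (a (l 16630448) (l 16640680)) (a (l 16632200) (l 16642416)))) (a (l 14) (a (l 14) (b (l 16591144) (c (l 16605224) (l 14)))))) (b (c (a (a (c (l 16625576) (l 14)) (a (l 16599784) (l 16626040))) (a (c (l 16646376) (l 16621288))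 (l 16644032))) (a (l 14) (a (l 14) (a (l 14) (b (l 16596576) (l 16597304)))))) (a (c (c (a (b (l 16626776) (l 16627544)) (l 16637680)) (a (l 14) (b (l 16611832) (l 16591584)))) (l 14)) (b (c (a (l 16634992) (l 16645160)) (a (l 14) (c (l 16607832) (l 14)))) (c (a (l 16614752) (l 16645888)) (a (l 14) (c (l 16587544) (l 14))))))))) (c (b (a (c (l 16752576) (l 16683736)) (c (l 16769168) (l 16722504))) (a (b (l 16731312) (l 16711968)) (c (l 16772736) (l 16725888)))) (b (a (b (c (l 16655584) (a (l 16601768) (l 16612144))) (c (a (l 16652376) (l 16662104)) (a (c (l 16615664) (l 14)) (l 16592752)))) (b (a (l 16604216) (l 16634776)) (c (l 16676264) (a (l 16623832) (l 16633696))))) (a (c (b (a (l 16653976) (l 16663672)) (a (l 16655456) (l 16665136))) (c (b (a (l 16617176) (l 16627344)) (a (b (l 16618232) (l 16618904)) (l 16628728))) (a (l 14) (a (l 14) (b (l 16605584) (l 16606904)))))) (c (b (l 16677792) (a (l 16674576) (l 16683824))) (b (a (c (l 16637280) (l 16613240)) (l 16635120)) (a (b (l 16626280)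 (l 16600704)) (c (l 16648344) (l 16603592))))))))), by decide +kernel⟩

def k6_pm_113 : ∃ t, chk3 f_pm_113 t 17 15 1 = true :=
  ⟨(b (a (b (b (l 1) (a (l 1) (l 16715568))) (a (c (b (l 16752624) (l 16757536)) (b (l 16663584) (b (l 16667080) (l 16669288)))) (c (l 16786120) (b (l 16699488) (l 16704128))))) (b (c (a (l 16805320) (l 16833712)) (b (l 16740176) (l 16724576))) (a (c (l 16815576) (b (l 16733848) (l 16738416))) (b (l 16804080) (l 16787672))))) (a (b (a (c (b (l 16762048) (l 16766152)) (a (b (l 16642216) (c (l 16689912) (l 16643928))) (b (l 16681568) (c (l 16707656) (l 16662992))))) (a (c (l 16787448) (b (l 16699512) (l 16703320))) (c (l 16802344) (b (l 16717048) (l 16720784))))) (c (a (a (b (l 16761920) (l 16765568)) (b (l 16777664) (l 16782376))) (b (l 16801504) (l 16807656))) (a (c (b (a (l 16693360) (l 16711072)) (a (b (l 16695680) (l 16697680)) (l 16715736))) (b (a (b (l 16646408) (l 16647928)) (b (l 16665488) (l 16667064))) (a (b (l 16628408) (a (b (l 16645496) (l 16646456))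 (l 16656384))) (b (l 16669096) (l 16672368))))) (b (a (b (l 16705904) (l 16708032)) (a (l 16720856) (l 16730240))) (b (c (l 16742464) (l 16699784)) (l 16704088)))))) (c (b (a (b (l 16822248) (l 16826888)) (l 16853824)) (b (l 16827336) (l 16855272))) (b (a (b (l 16742664) (c (l 16767280) (l 16727192))) (b (l 16775992) (l 16782288))) (a (b (a (l 16744448) (l 16762920)) (l 16761216)) (l 16793256)))))), by decide +kernel⟩

def k7_pm_113 : ∃ t, chk3 f_pm_113 t 9 15 1 = true :=
  ⟨(a (b (a (b (c (l 16874128) (a (l 16790920) (l 16820984))) (c (l 16884112) (a (b (l 16798120) (l 16803016)) (l 16831808)))) (b (c (l 16923696) (l 16865056)) (a (l 16892352) (l 16918600)))) (a (b (a (b (l 16844048) (l 16850832)) (l 16876856)) (b (l 16830184) (l 16815544))) (b (l 16917256) (l 16928264)))) (b (a (b (l 16944584) (l 16955064)) (l 16994048)) (a (b (l 16964608) (l 16973272)) (l 17008136)))), by decide +kernel⟩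

def k8_pm_113 : ∃ t, chk3 f_pm_113 t 5 7 1 = true :=
  ⟨(b (a (a (b (b (a (l 16991632) (l 17015008)) (a (l 16998432) (l 17018792))) (b (a (l 17006456) (l 17025544)) (l 17023112))) (b (b (l 17045560) (l 17046384)) (l 17051168))) (a (b (l 17076592) (l 17072752)) (b (l 17096760) (l 17085952)))) (b (a (a (c (l 17047344) (l 17015624)) (l 17054992)) (a (l 17068920) (l 17073768))) (a (a (c (l 17053336) (l 17024056)) (l 17054088)) (a (l 17059872) (l 17056744))))), by decide +kernel⟩

def k9_pm_113 : ∃ t, chk3 f_pm_113 t 6 2 1 = true :=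
  ⟨(b (a (l 1) (b (l 1) (b (l 1) (a (l 1) (l 19897950759))))) (b (a (b (l 1) (l 37614870311)) (b (a (l 16998400) (b (l 16987608) (l 17012912))) (a (l 17049368) (l 17046448)))) (a (a (l 17023528) (b (l 17104200) (l 17145112))) (b (l 17003136) (l 17054040))))), by decide +kernel⟩

def k10_pm_113 : ∃ t, chk3 f_pm_113 t 14 4 1 = true :=
  ⟨(b (a (l 1) (a (l 1) (a (l 1) (b (l 1) (b (l 1) (l 36540613015)))))) (b (a (a (l 1) (b (l 1) (l 16859592))) (b (a (l 34930139287) (a (l 16826328) (l 16832168))) (a (l 16872760) (c (l 16913200) (l 16854080))))) (a (a (b (l 16899816) (l 16952056)) (b (l 16912880) (l 16961736))) (b (a (l 16924008) (l 16934536)) (a (l 16971848) (l 16981344)))))), by decide +kernel⟩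

def k11_pm_113 : ∃ t, chk3 f_pm_113 t 30 16 1 = true :=
  ⟨(a (l 1) (a (l 1) (b (l 1) (b (l 1) (c (l 16733320) (l 16598400)))))), by decide +kernel⟩

def k12_pm_113 : ∃ t, chk3 f_pm_113 t 62 16 1 = true :=
  ⟨(b (b (l 1) (a (l 1) (a (l 1) (b (l 1) (c (l 16712224) (l 16593200)))))) (a (c (b (l 16720456) (l 16737912)) (b (a (l 1) (l 16604776)) (a (l 16643552) (l 16645568)))) (c (b (c (l 16748576) (l 16700904)) (l 16742104)) (b (a (c (l 16651872) (l 16603472)) (b (l 16603528) (l 16613624))) (c (a (l 16671024) (l 16672880)) (a (l 16623848) (l 16625608))))))), by decide +kernel⟩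

def k13_pm_113 : ∃ t, chk3 f_pm_113 t 63 16 1 = true :=
  ⟨(b (c (a (b (c (l 16716704) (a (l 1) (l 17750016279))) (c (l 16735096) (a (l 16685040) (l 16686888)))) (b (a (b (l 16676276295) (l 16678208)) (c (l 16721368) (b (l 16665672) (l 16675688)))) (c (l 16738792) (a (l 16688632) (l 16669280))))) (a (c (b (a (l 1) (b (l 1) (l 16621744))) (a (b (l 16630448) (l 16640680)) (b (l 16632200) (l 16642416)))) (b (l 22) (b (l 22) (a (l 16591144) (c (l 16605224) (l 22)))))) (a (c (b (a (b (l 1) (l 16623000)) (b (l 9159973895) (l 16623800))) (b (c (l 16646376) (l 16621288)) (l 16644032))) (b (l 22) (b (l 22) (a (l 16572936) (c (l 16607120) (l 22)))))) (b (c (c (b (a (l 16626776) (l 16627544)) (l 16637680)) (b (l 22) (a (l 16611832) (l 16591584)))) (l 22)) (a (c (b (l 16634992) (l 16645160)) (b (l 22) (c (l 16607832) (l 22)))) (c (b (l 16614752) (l 16645888)) (b (l 22) (c (l 16587544) (l 22))))))))) (c (a (b (c (l 16752576) (l 16683736)) (c (l 16769168) (l 16722504))) (a (b (l 16731312) (l 16748424))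 (b (l 16711968) (l 16750064)))) (a (b (a (c (l 16655584) (b (l 16601768) (l 16612144))) (c (b (l 16652376) (l 16662104)) (b (c (l 16615664) (l 22)) (l 16592752)))) (a (b (l 16604216) (l 16634776)) (c (l 16676264) (b (l 16623832) (l 16633696))))) (b (c (a (b (l 16653976) (l 16663672)) (b (l 16655456) (l 16665136))) (c (a (b (l 16617176) (l 16627344)) (b (a (l 16618232) (l 16618904)) (l 16628728))) (b (l 22) (b (l 22) (a (l 16605584) (l 16606904)))))) (c (a (l 16677792) (b (l 16674576) (l 16683776))) (a (b (c (l 16637280) (l 16613240)) (l 16635120)) (b (a (l 16626280) (l 16600704)) (c (l 16648288) (l 16624512))))))))), by decide +kernel⟩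

def k14_pm_113 : ∃ t, chk3 f_pm_113 t 15 17 1 = true :=
  ⟨(a (b (a (a (l 1) (b (l 1) (l 16715568))) (b (c (a (l 16752624) (l 16757536)) (a (l 16663584) (a (l 16667080) (l 16669288)))) (c (l 16786120) (a (l 16699488) (l 16704128))))) (a (c (b (l 16805320) (l 16833712)) (a (l 16740176) (l 16724576))) (a (b (l 16752648) (l 16804080)) (b (a (l 16777128) (l 16779352)) (l 16787520))))) (b (a (b (c (a (l 16762048) (l 16766152)) (b (a (l 16642216) (c (l 16689912) (l 16643928))) (a (l 16681568) (c (l 16707656) (l 16662992))))) (b (c (l 16787448) (a (l 16699512) (l 16703320))) (c (l 16802344) (a (l 16717048) (l 16720784))))) (c (a (b (l 16727848) (l 16801504)) (b (a (l 16772704) (l 16775312)) (l 16807824))) (b (c (a (b (l 16693360) (l 16711072)) (b (a (l 16695632) (l 16697680)) (l 16715736))) (a (b (a (l 16646408) (l 16647928)) (a (l 16665488) (l 16667008))) (b (a (l 16628360) (b (a (l 16645480) (l 16646456)) (l 16656384))) (a (l 16669096) (l 16672424))))) (a (a (a (l 16714400) (l 16694568)) (a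 (l 16674944) (l 16676504))) (a (c (l 16742464) (l 16699784)) (l 16704088)))))) (c (a (b (a (l 16822088) (l 16826888)) (l 16853824)) (a (l 16827336) (l 16855272))) (a (b (a (l 16742488) (c (l 16767272) (l 16727192))) (a (l 16775992) (l 16782464))) (b (a (b (l 16744448) (l 16762920)) (l 16761216)) (l 16793256)))))), by decide +kernel⟩

def k15_pm_113 : ∃ t, chk3 f_pm_113 t 15 9 1 = true :=
  ⟨(b (a (b (a (c (l 16873576) (b (l 16790920) (l 16820984))) (c (l 16884104) (b (a (l 16797960) (l 16803016)) (l 16831808)))) (a (c (l 16923696) (l 16865056)) (b (l 16892352) (l 16918600)))) (b (a (a (a (l 16794464) (l 16860776)) (l 16844712)) (a (l 16830184) (l 16815544))) (a (l 16917256) (l 16928264)))) (a (b (a (l 16945120) (l 16955064)) (l 16994048)) (b (a (l 16964608) (l 16973272)) (l 17008136)))), by decide +kernel⟩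

def k16_pm_113 : ∃ t, chk3 f_pm_113 t 7 5 1 = true :=
  ⟨(a (b (b (a (a (b (l 16991152) (l 17014696)) (b (l 16998424) (l 17018984))) (a (b (l 17006944) (l 17025544)) (l 17023112))) (a (a (l 17045560) (l 17046384)) (l 17051168))) (b (a (l 17076592) (l 17072752)) (a (l 17096760) (l 17085952)))) (a (b (b (c (l 17047344) (l 17015624)) (l 17054992)) (b (l 17068920) (l 17073768))) (b (b (c (l 17053336) (l 17024056)) (l 17054088)) (b (l 17059872) (l 17056744))))), by decide +kernel⟩

def k17_pm_113 : ∃ t, chk3 f_pm_113 t 3 3 1 = true :=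
  ⟨(a (b (b (a (b (l 17189376) (l 17180808)) (b (l 17134160) (l 17136800))) (a (a (l 17134160) (l 17136800)) (l 17118864))) (b (a (b (l 17103848) (l 17084072)) (b (l 17072672) (l 17044656))) (a (b (a (l 17068384) (l 17052168)) (a (l 17043240) (l 17020104))) (a (b (l 17028592) (l 16991312)) (b (l 16990528) (l 16957488)))))) (b (a (b (a (l 17103848) (l 17084072)) (a (l 17072672) (l 17044656))) (b (a (b (l 17068384) (l 17052168)) (b (l 17043240) (l 17020104))) (b (a (l 17028592) (l 16991312)) (a (l 16990528) (l 16957488))))) (a (b (b (l 17011376) (l 16976400)) (b (a (l 16997064) (b (l 16931024) (l 16911792))) (b (a (l 16928624) (a (l 16839200) (b (l 16889368) (l 16880504)))) (a (l 16912080) (a (l 16885104) (l 16867400)))))) (b (a (b (l 16997064) (a (l 16931024) (l 16911792))) (a (b (l 16928624) (b (l 16839200) (a (l 16889368) (l 16880504)))) (b (l 16912080) (b (l 16885104) (l 16867400))))) (b (a (l 16887296) (b (a (l 16867896) (l 16849840)) (a (l 16850368) (b (l 16836704) (a (l 16874520)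 (l 16823088)))))) (a (a (b (l 16867896) (l 16849840)) (b (l 16850368) (a (l 16836704) (b (l 16874520) (l 16823088))))) (b (a (l 16831968) (b (a (l 16823544) (l 16814240)) (a (l 16814192) (a (b (l 16810056) (l 16826432)) (l 16802768))))) (a (a (b (l 16823544) (l 16814240)) (b (l 16814192) (b (a (l 16810056) (l 16826432)) (l 16802768)))) (b (a (l 16804448) (a (a (l 16799328) (l 16797248)) (b (l 16796008) (b (l 16792592) (l 6))))) (a (b (b (l 16799328) (l 16797248)) (a (l 16796008) (a (l 16792592) (l 6)))) (b (a (l 16790784) (l 6)) (l 6)))))))))))), by decide +kernel⟩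

theorem s18_pm_113 : ∃ t, chk3 f_pm_113 t 31 16 1 = true := ex3_a k12_pm_113 k13_pm_113

theorem s19_pm_113 : ∃ t, chk3 f_pm_113 t 15 16 1 = true := ex3_a k11_pm_113 s18_pm_113

theorem s20_pm_113 : ∃ t, chk3 f_pm_113 t 15 8 1 = true := ex3_b s19_pm_113 k14_pm_113

theorem s21_pm_113 : ∃ t, chk3 f_pm_113 t 15 4 1 = true := ex3_b s20_pm_113 k15_pm_113

theorem s22_pm_113 : ∃ t, chk3 f_pm_113 t 7 4 1 = true := ex3_a k10_pm_113 s21_pm_113

theorem s23_pm_113 : ∃ t, chk3 f_pm_113 t 7 2 1 = true := ex3_b s22_pm_113 k16_pm_113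

theorem s24_pm_113 : ∃ t, chk3 f_pm_113 t 3 2 1 = true := ex3_a k9_pm_113 s23_pm_113

theorem s25_pm_113 : ∃ t, chk3 f_pm_113 t 3 1 1 = true := ex3_b s24_pm_113 k17_pm_113

theorem s26_pm_113 : ∃ t, chk3 f_pm_113 t 16 31 1 = true := ex3_b k4_pm_113 k5_pm_113

theorem s27_pm_113 : ∃ t, chk3 f_pm_113 t 16 15 1 = true := ex3_b k3_pm_113 s26_pm_113

theorem s28_pm_113 : ∃ t, chk3 f_pm_113 t 8 15 1 = true := ex3_a s27_pm_113 k6_pm_113

theorem s29_pm_113 : ∃ t, chk3 f_pm_113 t 4 15 1 = true := ex3_a s28_pm_113 k7_pm_113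

theorem s30_pm_113 : ∃ t, chk3 f_pm_113 t 4 7 1 = true := ex3_b k2_pm_113 s29_pm_113

theorem s31_pm_113 : ∃ t, chk3 f_pm_113 t 2 7 1 = true := ex3_a s30_pm_113 k8_pm_113

theorem s32_pm_113 : ∃ t, chk3 f_pm_113 t 2 3 1 = true := ex3_b k1_pm_113 s31_pm_113

theorem s33_pm_113 : ∃ t, chk3 f_pm_113 t 2 1 1 = true := ex3_b k0_pm_113 s32_pm_113

theorem s34_pm_113 : ∃ t, chk3 f_pm_113 t 1 1 1 = true := ex3_a s33_pm_113 s25_pm_113

theorem c_pm_113 : CertN 536870912 536870912 536870912 536870912 469762048 67108864 3 true true false .nn 1 1 3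
    ndN0q1 ndN0q1 pcN3 cut_pm_113 Ext.none :=
  certN0 (fam := true) (s1 := true) (s2 := false) (a := 1) (b := 1) (c := 3) (cn := .nn) (n1 := ndN0q1) (n2 := ndN0q1) (pc := pcN3) (cut := cut_pm_113) (xt := Ext.none) (P1 := 536870912) (W1 := 536870912) (P2 := 536870912) (W2 := 536870912) (P3 := 469762048) (W3 := 67108864) (N0 := 3)
    rfl s34_pm_113

noncomputable def cut_pm_123 : Cut := Cut.of [[⟨0, 1, 0, 67108864⟩, ⟨1, 1, 0, 67108864⟩, ⟨2, 2, 0, 16777216⟩], [⟨0, 0, 1, 33554432⟩, ⟨1, 1, 0, 33554432⟩, ⟨2, 1, 1, 33554432⟩]]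

noncomputable def f_pm_123 : ℕ → ℕ → ℕ → ℕ → Bool := onCell 1610612736 536870912 0 536870912 469762048 67108864
    (rowN 3 2 true true false .npn 1 2 3 (qsf 536870912 536870912 0 536870912 3) ndN0q1 ndN0q2 pcN3 cut_pm_123 Ext.none)

def k0_pm_123 : ∃ t, chk3 f_pm_123 t 4 2 1 = true :=
  ⟨(b (l 1) (a (l 1) (b (l 1) (a (l 1) (l 16676536))))), by decide +kernel⟩

def k1_pm_123 : ∃ t, chk3 f_pm_123 t 4 6 1 = true :=
  ⟨(a (l 1) (b (a (l 1) (b (l 16697024) (l 16717064))) (a (b (l 16689008) (l 41909367703)) (b (a (l 16730144) (l 16754296)) (a (l 16760640) (l 16793488)))))), by decide +kernel⟩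

def k2_pm_123 : ∃ t, chk3 f_pm_123 t 8 14 1 = true :=
  ⟨(a (l 1) (b (a (l 1) (l 31171857079)) (a (b (l 1) (l 16679416)) (b (l 16711448) (l 16721096))))), by decide +kernel⟩

def k3_pm_123 : ∃ t, chk3 f_pm_123 t 8 30 1 = true :=
  ⟨(a (a (l 1) (a (b (l 1) (l 16589624)) (b (l 16658880) (l 16607808)))) (a (b (a (l 16679144) (l 16701192)) (a (l 16648904) (l 16712576))) (b (a (l 16721688) (l 16740984)) (a (b (l 16729904) (l 16736504)) (c (l 16799048) (l 16717728)))))), by decide +kernel⟩

def k4_pm_123 : ∃ t, chk3 f_pm_123 t 16 31 1 = true :=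
  ⟨(b (c (a (a (l 1) (l 16695608)) (a (l 16713464) (l 16730488))) (a (b (a (l 1) (l 16592800)) (l 16530984)) (a (b (l 16613136) (l 16619584)) (b (l 16632568) (l 16639048))))) (a (b (a (c (l 16686648) (l 16532000)) (c (l 16705472) (a (l 16579608) (l 16611024)))) (c (a (c (l 16718744) (b (l 16666312) (a (l 16664728) (l 16674728)))) (c (l 16736960) (b (l 16685808) (l 16689264)))) (c (a (c (b (l 16628016) (a (l 16626184) (l 16636672))) (b (l 16602360) (a (l 14) (b (l 16610304) (l 16612040))))) (b (l 16635984) (a (b (l 16633464) (l 16635208)) (l 16644488)))) (a (l 14) (a (l 14) (a (l 14) (a (l 14) (c (l 16609288) (l 14))))))))) (c (b (a (l 16723368) (l 16740408)) (a (c (l 16754264) (l 16706080)) (l 16747272))) (b (a (c (l 16650672) (l 16580744)) (c (l 16669544) (l 16621824))) (a (b (a (l 16584392) (l 16615336)) (c (a (l 16654392) (l 16664064)) (a (c (l 16617480) (l 14)) (b (l 16614536) (c (l 16628488) (l 16604064)))))) (b (c (l 16674672) (l 16605984)) (c (l 16678160) (a (b (l 16624584) (l 16626344))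 (l 16614320))))))))), by decide +kernel⟩

def k5_pm_123 : ∃ t, chk3 f_pm_123 t 17 31 1 = true :=
  ⟨(a (b (a (c (l 16749056) (b (l 16653984) (l 16660376))) (b (l 16721616) (a (l 16722840) (l 16715184)))) (c (a (b (l 16759368) (a (c (l 16785048) (l 16739232)) (l 16777160))) (b (l 16786464) (l 16802752))) (a (b (a (l 16661072) (b (l 16671136) (l 16675632))) (a (a (b (l 16663200) (b (l 16665912) (a (a (l 16644440) (l 16646328)) (l 16649848)))) (b (l 16669496) (b (l 16674000) (l 16678688)))) (b (l 16661632) (l 16691920)))) (a (b (l 16689520) (l 16686496)) (b (l 16708600) (l 16727200)))))) (b (a (b (l 16725856) (l 16761368)) (l 16787064)) (c (a (l 16826880) (l 16857120)) (b (l 16755696) (a (l 16755608) (l 16791304)))))), by decide +kernel⟩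

def k6_pm_123 : ∃ t, chk3 f_pm_123 t 9 7 1 = true :=
  ⟨(b (a (b (a (l 16733000) (b (l 16757864) (l 16772536))) (a (b (l 16747808) (l 16738688)) (b (l 16787400) (l 16808032)))) (b (a (b (l 16790920) (l 16814600)) (l 16846464)) (a (l 16847664) (l 16892176)))) (a (b (a (b (a (l 16763480) (l 16791064)) (l 16803864)) (b (l 16833240) (l 16860008))) (a (b (l 16833632) (c (l 16898424) (a (l 16815944) (l 16847184)))) (b (l 16888376) (l 16918192)))) (b (a (l 16895920) (l 16938088)) (a (b (l 16935280) (l 16963088)) (l 16987712))))), by decide +kernel⟩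

def k7_pm_123 : ∃ t, chk3 f_pm_123 t 5 1 1 = true :=
  ⟨(b (a (b (a (b (b (l 16738208) (l 16731408)) (l 16722048)) (b (a (b (l 16750120) (l 16744912)) (b (l 16756544) (l 16752192))) (a (l 16738216) (l 16747680)))) (b (a (a (l 16703072) (l 16718288)) (a (l 16731592) (l 16746168))) (a (b (l 16707864) (l 16718328)) (b (a (l 16731008) (l 16750640)) (l 16755240))))) (b (b (a (a (b (l 16763416) (l 16760536)) (b (l 16769888) (l 16768720))) (b (a (a (l 16773952) (l 16776488)) (a (l 16779240) (l 65196289463))) (a (l 16775744) (l 16782608)))) (a (a (l 16758864) (l 16769600)) (a (l 16778992) (l 16787568)))) (b (a (a (l 16762056) (l 16776200)) (a (l 16788544) (l 16799384))) (a (b (l 16777928) (l 16791360)) (b (l 16806472) (l 16860568)))))) (b (a (b (a (b (l 16737008) (l 16805920)) (b (l 16781936) (l 16816144))) (a (b (l 16800672) (l 16848280)) (b (l 16857504) (l 16905160)))) (b (a (b (l 16819312) (l 16855480)) (b (l 16841688) (l 16874664))) (a (b (l 16896728) (l 16939120)) (b (l 16908928) (l 16942696)))))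 (a (b (a (b (a (l 16885224) (l 16918312)) (l 16947536)) (b (a (l 16945952) (l 16967768)) (a (l 16988952) (l 17003568)))) (a (b (a (l 16973656) (l 17001456)) (a (b (l 17007256) (l 17026744)) (l 17032264))) (b (l 17062424) (l 17041040)))) (b (b (a (l 16980008) (l 16977384)) (a (l 17008456) (l 17069064))) (b (a (l 17025936) (l 17022648)) (a (l 17043976) (l 17038488))))))), by decide +kernel⟩

def k8_pm_123 : ∃ t, chk3 f_pm_123 t 6 2 1 = true :=
  ⟨(a (b (a (b (b (a (b (l 4) (a (l 103851039047) (l 213372636567))) (l 4)) (a (a (l 16790056) (l 76470640807)) (b (a (l 111904063255) (l 167201741623)) (a (l 16784696) (l 94724206615))))) (a (l 16796576) (a (l 16805744) (b (l 16791144) (l 16810608))))) (b (b (l 4) (a (b (l 4) (a (l 110830294855) (l 125325811655))) (l 4))) (b (a (b (a (l 16782368) (l 104924739575)) (a (l 16790168) (l 16785256))) (b (a (l 113514649287) (l 128547038071)) (a (l 16781880) (l 106535353287)))) (a (l 16807416) (b (a (l 16789312) (l 16784472)) (l 16797976)))))) (b (a (a (l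 16787944) (l 16813928)) (a (l 16813456) (l 16811712))) (a (a (l 16825064) (l 16826640)) (l 16825360)))) (b (b (l 4) (a (b (a (b (l 4) (a (l 119420229495) (l 4))) (l 4)) (a (b (a (l 92576710167) (l 109219702295)) (a (l 16788080) (l 16783408))) (b (a (b (l 4) (l 125325808999)) (l 4)) (a (b (l 106535339367) (l 16781440)) (b (l 128010163991) (l 109219681047)))))) (b (l 4) (l 4)))) (a (b (b (a (l 16802840) (b (a (l 16786504) (l 16803096)) (l 16793632))) (a (l 16811216) (l 16808120))) (a (l 16821600) (l 16817912))) (b (a (b (b (a (b (l 112977777159) (l 93113569543)) (a (l 120493970295) (l 132842003527))) (a (l 16784616) (a (l 16781512) (l 95261053319)))) (b (a (l 16794384) (l 16787680)) (l 16802544))) (b (a (b (l 4) (c (l 118883397367) (b (l 129083900359) (l 107609064039)))) (l 4)) (b (a (b (l 16791592) (l 16784256)) (b (a (l 108682820407) (l 127473291479)) (a (l 16781040) (l 95261043911)))) (a (l 16790856) (a (l 16786104) (l 16783432)))))) (b (a (l 16809440) (b (l 16818512) (l 16805984))) (a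 (l 16817280) (l 16811560))))))), by decide +kernel⟩

def k9_pm_123 : ∃ t, chk3 f_pm_123 t 6 3 1 = true :=
  ⟨(b (a (b (a (b (l 16843360) (l 16868968)) (b (l 16839296) (l 16857104))) (a (b (l 16898968) (l 16930384)) (b (l 16883784) (l 16911720)))) (b (a (b (a (l 16834896) (l 16831344)) (a (l 16848280) (l 16843000))) (a (l 16832200) (l 16825736))) (a (b (l 16867008) (l 16911896)) (b (a (l 16852800) (l 16843464)) (l 16784200))))) (a (b (a (b (l 16962272) (l 16991008)) (b (l 16939544) (l 16965552))) (a (l 17035760) (l 16989208))) (b (a (b (l 16872712) (l 16937000)) (b (l 16803784) (l 16906216))) (a (l 17001624) (a (l 16935544) (l 16919040)))))), by decide +kernel⟩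

def k10_pm_123 : ∃ t, chk3 f_pm_123 t 14 4 1 = true :=
  ⟨(l 4), by decide +kernel⟩

def k11_pm_123 : ∃ t, chk3 f_pm_123 t 14 5 1 = true :=
  ⟨(a (b (b (l 4) (a (b (a (b (l 4) (a (l 116735872855) (l 4))) (l 4)) (a (b (a (l 16780112) (l 109756551031)) (a (l 16782720) (l 16780688))) (b (a (l 129620775143) (l 4)) (a (l 104387852103) (b (l 4) (l 116199001639)))))) (l 4))) (a (b (b (a (b (l 16784968) (l 16789112)) (b (a (l 16781360) (l 90966078311)) (l 16783280))) (a (l 16796200) (a (l 16790776) (l 16787504)))) (b (l 16802256) (l 16806848))) (b (b (a (b (a (b (l 126399548999) (l 108682817975)) (l 4)) (a (l 16780128) (b (l 116199001447) (l 101703494983)))) (b (l 4) (a (b (l 4) (l 127473290663)) (l 4)))) (c (a (l 16794704) (a (l 89892354535) (b (l 126936422823) (l 91502953287)))) (a (a (l 16783400) (l 16780728)) (b (a (l 101166613415) (l 122641448919)) (a (l 16779912) (l 96871654839)))))) (a (b (l 16791000) (l 16799936)) (b (a (l 16765184) (l 16793792)) (l 16792552)))))) (b (l 4) (a (b (b (l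 4) (a (b (l 4) (a (b (l 130694516087) (a (l 104387845015) (l 122641452071))) (l 4))) (l 4))) (a (b (b (a (c (l 16780848) (l 85597364855)) (c (l 116199024679) (b (l 122104577959) (l 104387838471)))) (a (l 16782304) (c (l 16781112) (l 16778848)))) (a (l 16787528) (l 16797592))) (b (b (l 4) (c (a (l 111367186311) (l 139821325207)) (a (b (l 116735868919) (l 99556008231)) (b (l 4) (l 131231383575))))) (b (a (c (l 16781392) (l 16779280)) (b (a (l 104387846535) (l 126399548151)) (c (l 97945400503) (l 94724168887)))) (a (l 16783312) (c (l 16781664) (l 16779680))))))) (b (l 4) (a (b (l 4) (a (b (b (l 4) (a (l 123715193527) (l 4))) (b (a (l 92576686007) (c (l 123178324871) (l 118346481687))) (c (l 16780288) (l 84523621063)))) (b (l 4) (b (l 4) (a (c (l 120493970183) (l 116198998103)) (l 4)))))) (l 4)))))), by decide +kernel⟩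

def k12_pm_123 : ∃ t, chk3 f_pm_123 t 15 2 1 = true :=
  ⟨(l 4), by decide +kernel⟩

def k13_pm_123 : ∃ t, chk3 f_pm_123 t 14 3 1 = true :=
  ⟨(b (a (a (b (b (l 16813392) (l 16802112)) (b (b (l 16830832) (l 16837088)) (l 16849760))) (b (b (a (l 16807424) (l 16803280)) (l 16814512)) (b (l 16824784) (b (l 16833448) (l 16841264))))) (b (a (b (a (b (l 16793736) (l 16800992)) (b (b (a (l 16786760) (l 16783744)) (l 16788824)) (l 16794552))) (a (l 16807616) (l 16802856))) (b (a (b (a (b (c (l 16781912) (l 16780056)) (l 16784112)) (b (a (c (l 16780368) (l 82376135975)) (b (c (l 118346486439) (l 114051514519)) (l 85060491095))) (c (l 16782112) (l 16780384)))) (b (a (l 16787552) (l 16784408)) (l 16789480))) (b (a (b (a (b (l 4) (c (l 116735873607) (l 111904030951))) (l 4)) (a (c (l 16780448) (l 16778576)) (b (c (l 115125260791) (l 110830289191)) (l 81302394231)))) (b (l 4) (a (b (l 4) (c (l 113514647975) (l 109219676503))) (l 4)))) (a (b (c (l 16782264) (l 16780648)) (l 16784616)) (b (a (c (l 16780504)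 (l 16778744)) (b (c (l 112977776967) (a (l 95797906183) (l 117809610919))) (l 16779200))) (c (l 16782344) (l 16780840)))))) (a (b (l 16794960) (l 16800120)) (b (c (l 16809344) (a (l 16789272) (l 16764824))) (l 16794880))))) (a (b (l 16814776) (l 16825664)) (b (a (l 16807032) (l 16801728)) (b (l 16811448) (l 16816552)))))) (b (a (b (l 16859984) (l 16875144)) (b (a (l 16860096) (b (a (l 16825480) (l 16818728)) (l 16828352))) (a (l 16810320) (l 16784736)))) (b (a (l 16888360) (a (l 16863832) (l 16847544))) (a (l 16899192) (a (l 16873208) (l 16855744)))))), by decide +kernel⟩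

def k14_pm_123 : ∃ t, chk3 f_pm_123 t 60 12 1 = true :=
  ⟨(b (a (b (l 4) (c (a (b (a (b (l 4) (l 112440905975)) (l 147874387735)) (a (l 16780496) (b (l 111904034967) (l 16779968)))) (b (l 4) (a (b (l 144653160887) (l 112440905783)) (b (l 4) (l 145726902647))))) (a (b (b (l 4) (a (a (l 95261035319) (l 116735869127)) (l 139821318135))) (a (l 16778848) (b (a (l 94724164599) (l 116735869127)) (l 16778296)))) (b (l 4) (a (b (l 140895059959) (a (l 95261035687) (l 116735869127))) (b (l 4) (l 142505672711))))))) (l 4)) (a (b (c (a (b (l 16782344) (l 16785208)) (b (a (l 16780432) (b (l 113514657975) (l 16779864))) (l 16782256))) (a (b (l 16780944) (l 16784144)) (b (a (l 16778888) (b (a (l 95797906919) (l 119957094583)) (l 16778296))) (l 16780960)))) (a (l 16789584) (b (l 16763672) (l 16787768)))) (b (a (b (a (b (l 4) (a (c (l 99019137175) (l 97408519783)) (b (l 4) (c (l 115662133623) (l 112977774567))))) (l 4)) (a (c (l 16780304) (b (l 16778272) (l 16779488))) (b (a (c (l 101166621175) (b (l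 114051514727) (l 16777744))) (b (l 4) (c (l 118883359207) (l 116198998343)))) (c (l 16779696) (l 79154908423))))) (b (l 4) (a (b (l 4) (c (a (l 103850976151) (l 132305128967)) (a (b (l 118346481959) (l 16777696)) (b (l 4) (l 121567707399))))) (l 4)))) (a (b (c (l 16782080) (l 16780872)) (c (l 16784816) (l 16783936))) (b (a (b (c (l 16779592) (c (l 16778560) (l 80765520311))) (l 16780056)) (c (b (a (l 107609067047) (l 137673838023)) (l 86671106951)) (b (a (b (l 124252061927) (l 90966066967)) (b (l 4) (l 127473287351))) (a (l 16778360) (c (l 88818585127) (l 87744841639)))))) (a (l 16782048) (c (l 16781088) (l 16779912)))))))), by decide +kernel⟩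

def k15_pm_123 : ∃ t, chk3 f_pm_123 t 61 12 1 = true :=
  ⟨(b (l 4) (a (b (l 4) (a (b (a (b (l 4) (c (a (l 112977786487) (l 144116288935)) (a (b (l 131768254615) (l 97945389335)) (b (l 4) (l 136600092791))))) (l 4)) (a (b (a (c (l 16779584) (l 16778256)) (c (l 95261040327) (b (a (l 16777616) (l 110293419559)) (l 16777936)))) (l 16779776)) (b (a (b (c (l 142505676007) (l 141431930967)) (c (l 107072199159) (a (l 93113550007) (l 119957094743)))) (b (l 4) (c (l 147874385127) (l 146800640055)))) (a (c (l 16779416) (l 16778128)) (b (c (l 116199004903) (a (l 99019130423) (l 126399545623))) (c (l 16779120) (l 16777808))))))) (b (l 4) (a (b (l 4) (a (b (l 4) (c (l 121030839415) (a (l 105998452471) (l 133915738327)))) (l 4))) (l 4))))) (l 4))), by decide +kernel⟩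

def k16_pm_123 : ∃ t, chk3 f_pm_123 t 60 13 1 = true :=
  ⟨(b (a (b (l 16794136) (l 16798472)) (b (a (l 16788992) (b (c (l 16784464) (l 16783648)) (l 16787032))) (l 16792872))) (a (l 16805288) (l 16804632))), by decide +kernel⟩

def k17_pm_123 : ∃ t, chk3 f_pm_123 t 122 26 1 = true :=
  ⟨(b (a (b (a (l 16781704) (c (l 16780704) (l 16779592))) (c (l 16773504) (l 16783240))) (b (a (b (a (c (l 16779232) (c (l 16778336) (l 16777600))) (b (c (l 126936419351) (a (l 113514645351) (l 141968801943))) (c (l 16778952) (c (l 16778032) (l 90429195367))))) (c (l 16779920) (l 16778768))) (b (a (b (l 4) (c (l 133378870231) (a (l 124252062023) (l 4)))) (l 4)) (a (c (l 91502943511) (b (a (l 16777720) (l 104387839911)) (l 16778064))) (b (c (l 140358192055) (a (l 133378867431) (l 4))) (c (l 103850973815) (a (l 16777640) (b (l 131768254759) (l 97408516935)))))))) (a (c (l 16781672) (l 16780736)) (b (c (l 16779680) (c (l 16778880) (l 16778224))) (l 16780344))))) (a (l 16798376) (b (a (l 16783936) (l 16787520))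 (l 16785800)))), by decide +kernel⟩

def k18_pm_123 : ∃ t, chk3 f_pm_123 t 123 52 1 = true :=
  ⟨(a (b (a (b (l 4) (a (b (l 4) (c (l 148411255719) (a (l 143579414679) (l 4)))) (l 4))) (l 4)) (a (a (b (b (c (l 114588392567) (a (l 96334775959) (b (l 145726898391) (l 114051515559)))) (c (l 16779024) (l 16777864))) (l 16779256)) (b (b (l 4) (c (a (l 106535326887) (l 137136966407)) (a (b (l 121567708343) (l 16777576)) (b (l 4) (l 128547029319))))) (c (l 16779120) (c (l 16778320) (l 82376132135))))) (b (l 4) (a (b (c (a (l 116735874567) (l 148411255527)) (a (b (l 136600092951) (l 102240355431)) (l 149484994695))) (c (l 94724167255) (c (l 94187293815) (a (l 16777464) (l 100629742679))))) (a (b (l 4) (c (l 131768257207) (b (l 153779962039) (l 121030837607)))) (l 4)))))) (l 4)), by decide +kernel⟩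

def k19_pm_123 : ∃ t, chk3 f_pm_123 t 123 53 1 = true :=
  ⟨(a (a (b (c (l 16781072) (l 16780192)) (l 16783248)) (b (b (a (c (l 16779456) (l 16778424)) (c (b (a (l 16778800) (l 111904036231)) (l 16779072)) (b (a (l 16777688) (b (l 129620771143) (l 94724162471))) (l 16778016)))) (c (l 16780168) (l 16779240))) (c (l 16781904) (l 16781184)))) (b (a (b (a (b (c (l 150558744375) (a (b (l 4) (l 138747576583)) (l 4))) (c (a (l 16779504) (l 128010160759)) (a (c (l 96334776695) (l 96334775159)) (b (l 148411252951) (c (l 113514645527) (l 115662127703)))))) (b (l 4) (a (c (l 158611802759) (l 160759283815)) (l 4)))) (a (c (l 16779152) (c (l 16778424) (l 16777832))) (b (c (a (l 109219681607) (l 142505675303)) (a (b (c (l 124788934775) (l 125325804199)) (l 16777568)) (c (l 143042544487) (l 143579414023)))) (c (l 89355457527) (c (l 89355455223) (a (l 16777592) (l 93650420567))))))) (b (l 4) (a (b (l 4) (c (a (l 125862677031) (l 158074931735)) (a (b (l 145726898407) (c (l 111904032807) (l 111904031399)))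 (l 160222412919)))) (l 4)))) (a (b (c (l 16779824) (l 16778912)) (l 16780584)) (b (a (c (b (c (l 99556005991) (l 100092875799)) (l 16779056)) (b (a (l 16777768) (b (c (l 122641451207) (l 123178320615)) (l 16777592))) (l 16778096))) (b (a (c (l 141968804295) (b (l 4) (a (l 121030837207) (l 154316833015)))) (l 4)) (c (a (l 16778632) (l 123178324999)) (a (c (l 16777912) (l 92576678679)) (c (l 124252065287) (b (l 146263768679) (l 111367160519))))))) (a (l 16782040) (c (l 16779112) (c (l 16778456) (l 16777912)))))))), by decide +kernel⟩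

def k20_pm_123 : ∃ t, chk3 f_pm_123 t 61 27 1 = true :=
  ⟨(a (b (a (l 16792744) (l 16789776)) (l 16795448)) (b (a (b (l 16795472) (l 16787552)) (b (a (c (l 16782672) (l 16782112)) (c (l 16781080) (l 16785624))) (b (l 16793920) (l 16784656)))) (a (l 16790792) (l 16798152)))), by decide +kernel⟩

def k21_pm_123 : ∃ t, chk3 f_pm_123 t 30 7 1 = true :=
  ⟨(b (a (b (b (a (l 16780896) (l 16785088)) (l 16814192)) (l 16822136)) (b (a (b (l 16799664) (l 16803992)) (b (l 16793232) (l 16797256))) (a (b (l 16808568) (l 16813064)) (b (b (l 16800216) (l 16802264)) (l 16805424))))) (a (b (b (l 16808088) (l 16833160)) (l 16880160)) (a (b (l 16819096) (l 16825072)) (b (b (l 16809216) (l 16791560)) (a (l 16818504) (l 16835112)))))), by decide +kernel⟩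

def k22_pm_123 : ∃ t, chk3 f_pm_123 t 62 12 1 = true :=
  ⟨(l 4), by decide +kernel⟩

def k23_pm_123 : ∃ t, chk3 f_pm_123 t 62 26 1 = true :=
  ⟨(a (b (l 4) (a (b (l 4) (a (b (a (b (l 4) (a (c (l 159148673479) (b (l 4) (l 158074929335))) (l 4))) (l 4)) (a (b (c (a (l 108145939703) (l 143579416935)) (a (b (c (l 123178322167) (l 123715191719)) (l 16777592)) (b (l 4) (a (l 122641450023) (l 156464316647))))) (c (l 89355457559) (c (l 89355455223) (a (l 16777648) (l 93650420615))))) (b (l 4) (a (c (b (l 146263771447) (l 111904034823)) (b (a (l 141431931191) (l 4)) (c (l 113514645655) (l 112977773431)))) (c (l 162906769783) (b (l 4) (l 162369896615))))))) (l 4))) (l 4))) (l 4)), by decide +kernel⟩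

def k24_pm_123 : ∃ t, chk3 f_pm_123 t 248 54 1 = true :=
  ⟨(b (a (b (a (c (l 16779408) (l 16778560)) (c (b (a (l 16778688) (b (l 125325808023) (l 16778512))) (l 16778960)) (b (a (l 16777768) (b (a (l 109756548135) (l 144653156647)) (l 90429195223))) (l 16778088)))) (c (l 16780080) (l 16779328))) (b (a (b (a (b (l 4) (c (l 138747578631) (a (l 129620772007) (l 163980509399)))) (l 4)) (c (a (l 96334778695) (b (l 152706222311) (l 118346486055))) (a (c (l 96871647623) (b (l 104387838791) (l 16777440))) (a (b (l 148948123927) (l 98482258807)) (c (l 146800640807) (l 147874381463)))))) (l 4)) (a (c (l 16778992) (c (l 16778392) (l 16777896))) (b (b (a (c (l 132305129927) (a (c (l 118346483447) (l 119957094919)) (l 154853703927))) (l 4)) (a (c (l 16778440) (c (l 16777800) (l 97408516711))) (c (l 147337513127) (c (l 148948124439) (l 150021865127))))) (c (c (l 95797909047) (l 96334779079)) (a (l 16777872) (b (c (l 112977774839) (a (l 16777264) (l 126399545847))) (l 16777664)))))))) (a (b (l 16786136)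 (l 16782072)) (a (b (l 16779672) (l 16780808)) (b (c (l 16779248) (l 16778472)) (l 16779984))))), by decide +kernel⟩

def k25_pm_123 : ∃ t, chk3 f_pm_123 t 249 54 1 = true :=
  ⟨(b (a (b (l 4) (a (b (l 4) (a (c (b (l 162906769559) (l 127473291751)) (b (l 166127992999) (a (c (l 16777704) (l 111367160327)) (l 147874382103)))) (l 4))) (l 4))) (l 4)) (a (b (a (b (c (a (l 16778520) (b (l 143042545767) (l 107072196439))) (a (c (l 16777920) (l 16777424)) (b (a (c (l 133915739799) (l 134452609575)) (l 4)) (c (l 108145936535) (a (l 16777304) (l 119957095047)))))) (c (l 16778784) (l 16777984))) (b (a (c (l 165591124119) (c (l 167738606263) (l 169349220439))) (l 4)) (b (a (c (l 124252066327) (a (l 105461580919) (c (l 143042545239) (l 144116285207)))) (l 4)) (a (c (l 16778424) (l 16777600)) (c (l 140895062055) (a (c (l 129620772663) (l 130694513319)) (l 168275476695))))))) (a (c (l 16779496) (l 16778792)) (c (c (l 89892329703) (b (l 93113553207) (l 16778840))) (b (a (l 16777944) (c (l 98482260471)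 (b (l 106535322663) (l 16777472)))) (l 16778264))))) (b (l 4) (a (b (a (c (b (l 159148673031) (l 122641453527)) (b (a (l 154853703943) (l 4)) (a (l 102777226343) (c (l 140895061751) (l 141968801591))))) (l 4)) (c (a (l 16778496) (b (l 140895061991) (l 104387841783))) (a (l 84523615543) (b (a (c (l 128010159927) (l 129083900615)) (l 168275476695)) (c (l 105461581975) (l 105461580871)))))) (b (l 4) (a (a (b (l 4) (c (l 151632481575) (l 154853705255))) (l 4)) (l 4))))))), by decide +kernel⟩

def k26_pm_123 : ∃ t, chk3 f_pm_123 t 124 55 1 = true :=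
  ⟨(a (b (c (l 16793600) (a (l 16783680) (l 16781872))) (l 16785272)) (b (a (b (c (l 16780136) (l 16779520)) (c (l 16781176) (l 16780688))) (b (a (c (l 16778984) (c (l 16778480) (l 16778056))) (b (b (a (c (l 123178324471) (a (l 102240355431) (c (l 141968803559) (l 142505672519)))) (l 4)) (a (c (l 16778368) (l 16777608)) (c (l 142505677287) (a (c (l 129620772711) (l 130157642615)) (l 170959831255))))) (c (c (l 93650425047) (l 93650424119)) (a (l 16777960) (c (l 99556002439) (b (a (l 16777352) (l 117272740647)) (l 16777496))))))) (a (l 16779704) (c (l 16779184) (l 16778536))))) (a (l 16793112) (c (l 16787640) (a (l 16781104) (l 16780208)))))), by decide +kernel⟩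

def k27_pm_123 : ∃ t, chk3 f_pm_123 t 250 54 1 = true :=
  ⟨(l 4), by decide +kernel⟩

def k28_pm_123 : ∃ t, chk3 f_pm_123 t 250 110 1 = true :=
  ⟨(a (b (a (b (l 4) (a (c (b (l 162906769287) (a (l 16778240) (l 143042547159))) (b (a (l 158074929399) (l 4)) (a (l 104924710135) (c (l 145190029079) (l 146263768903))))) (l 4))) (l 4)) (a (a (c (l 84523618695) (c (l 16778136) (l 83449873831))) (b (c (b (a (l 131768258007) (l 172570445655)) (l 108682809255)) (b (a (c (l 133378869143) (l 134452609895)) (l 176865411271)) (a (l 16777568) (c (l 121567709047) (l 122641449911))))) (c (l 16778504) (l 16777808)))) (b (a (a (b (l 4) (c (l 161296156471) (l 165054251239))) (l 4)) (l 4)) (b (a (c (a (l 16778192) (l 149484998359)) (a (c (l 16777664) (l 110293418695)) (c (l 151632478919) (l 153243090743)))) (l 4)) (a (c (l 16778280) (c (l 16777776) (l 16777360))) (a (c (l 138747579959) (c (l 141431932855) (l 142505673639))) (l 4))))))) (l 4)), by decide +kernel⟩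

def k29_pm_123 : ∃ t, chk3 f_pm_123 t 250 111 1 = true :=
  ⟨(a (b (a (c (l 16779376) (l 16778784)) (c (b (c (l 97945392951) (a (l 16778432) (l 105461583863))) (l 16778840)) (b (a (l 16777912) (b (a (l 16777536) (c (l 130157643671) (l 131231384551))) (l 16777664))) (l 16778216)))) (a (l 16780144) (c (l 16779544) (l 16779008)))) (b (a (b (a (c (b (l 176328541991) (a (l 117272743335) (l 160759285479))) (b (a (l 175791669447) (l 4)) (a (c (l 119420225399) (l 119957095399)) (l 164517381639)))) (l 4)) (a (c (l 94724165703) (c (l 94724163927) (b (l 100629742631) (l 16777552)))) (c (b (l 161296159015) (a (l 16778176) (l 139821321863))) (b (a (c (l 152169350951) (l 153779961687)) (l 4)) (a (l 97945388151) (c (l 142505674727) (l 144116286471))))))) (l 4)) (a (c (c (l 16778872) (l 16778632)) (c (l 81302392039) (b (l 16777720) (l 16778240)))) (b (b (a (c (a (l 129620774535) (l 175791670967)) (a (c (l 132305127399) (l 133915739207)) (l 180623507639))) (l 4)) (a (c (l 108682809431) (a (l 16777568)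 (c (l 122641450903) (l 123715191863)))) (c (l 174181058231) (a (l 170422960343) (l 4))))) (a (c (l 16778424) (l 16777808)) (c (b (a (l 111367163063) (l 156464320215)) (l 16778192)) (b (a (c (l 112977774375) (l 113514644359)) (c (l 159148671623) (l 161296154439))) (c (l 16777736) (l 96334775319))))))))), by decide +kernel⟩

def k30_pm_123 : ∃ t, chk3 f_pm_123 t 251 27 1 = true :=
  ⟨(b (l 4) (b (l 4) (a (b (l 4) (a (b (l 4) (b (l 4) (a (a (c (l 147337514855) (c (l 150021867447) (l 151632478071))) (l 4)) (l 4)))) (l 4))) (l 4)))), by decide +kernel⟩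

def k31_pm_123 : ∃ t, chk3 f_pm_123 t 124 28 1 = true :=
  ⟨(b (a (l 16788336) (a (l 16785864) (a (l 16784536) (l 16792816)))) (a (l 16792136) (l 16788720))), by decide +kernel⟩

def k32_pm_123 : ∃ t, chk3 f_pm_123 t 250 28 1 = true :=
  ⟨(a (b (b (b (c (l 16780928) (l 16780544)) (l 16781792)) (l 16783320)) (l 16786136)) (c (b (b (b (a (l 16779688) (l 16778888)) (l 16785472)) (l 16781640)) (l 16784384)) (b (b (b (a (l 16779200) (c (l 16778496) (l 16778168))) (l 16785064)) (b (l 16780888) (l 16781936))) (l 16784448)))), by decide +kernel⟩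

def k33_pm_123 : ∃ t, chk3 f_pm_123 t 502 56 1 = true :=
  ⟨(b (b (a (a (c (b (b (a (l 16778136) (l 138747580103)) (l 16778232)) (l 16778536)) (b (b (a (l 16777512) (c (l 141431933047) (l 143042544807))) (l 16777624)) (l 16777968))) (b (b (l 4) (c (a (l 130694516343) (l 179012896343)) (a (c (l 132841998407) (l 134452610263)) (l 184381604023)))) (c (c (l 101703488039) (l 102240358295)) (b (a (l 16777568) (c (l 124788934679) (l 125325804695))) (l 16777696))))) (b (l 4) (a (c (b (l 179012898983) (a (l 114051517671) (l 163443639831))) (b (a (l 175791672071) (l 4)) (a (c (l 116198999959) (l 117272740903)) (c (l 165591122519) (l 168275476311))))) (l 4)))) (a (c (l 16779000) (c (l 16778640) (l 16778344))) (b (a (c (c (l 16778328) (l 16778096)) (c (l 94724164119) (b (l 100092871943) (l 16777584)))) (c (b (a (l 154853707527) (l 4)) (a (l 16778064) (l 147874385655))) (b (a (c (l 158074929767) (l 160222412663)) (l 4)) (a (l 100629742935) (c (l 150558738983) (l 152706219927)))))) (c (c (l 16778536)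 (l 16778320)) (c (l 84523617031) (a (l 16777944) (l 16777536))))))) (b (a (c (l 16779912) (l 16779520)) (c (l 16779088) (l 16778632))) (c (a (l 16780824) (l 16779984)) (l 16785336)))), by decide +kernel⟩

def k34_pm_123 : ∃ t, chk3 f_pm_123 t 503 56 1 = true :=
  ⟨(b (b (l 4) (a (b (l 4) (b (a (a (c (l 141431934871) (b (l 167738606791) (l 128010159607))) (l 4)) (l 4)) (a (a (c (l 16778088) (l 16777528)) (c (l 134989483831) (a (l 121567708679) (l 155390576135)))) (c (l 192971540215) (a (l 194045280423) (l 4)))))) (l 4))) (b (a (b (a (c (l 16778280) (l 16777752)) (c (b (a (l 128010161735) (l 182234121671)) (c (l 108682809255) (l 110293421447))) (b (a (c (l 131231385719) (l 132841997783)) (l 187602829495)) (a (l 16777576) (c (l 125325805719) (l 126399546711)))))) (c (l 16778504) (c (l 16778152) (l 16777856)))) (b (a (a (a (b (l 4) (c (l 169349221223) (l 175254798567))) (l 4)) (l 4)) (l 4)) (b (a (c (a (l 116735872263) (l 171496703383)) (a (c (l 119420225543) (l 120493966631)) (b (l 4) (l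 166664865335)))) (l 4)) (a (c (l 102240358119) (c (l 103850969447) (a (l 16777456) (l 115125257463)))) (a (b (l 4) (c (l 154853706727) (l 159685543303))) (l 4)))))) (a (c (l 16779144) (l 16778728)) (b (a (c (l 16778328) (l 16777840)) (c (b (a (l 107072195527) (l 161833026935)) (l 95797906695)) (b (a (c (l 16777600) (l 109756548215)) (c (l 164517380647) (l 167201737159))) (c (l 16777704) (l 96871646551))))) (c (l 16778544) (c (l 16778224) (l 16777952))))))), by decide +kernel⟩

def k35_pm_123 : ∃ t, chk3 f_pm_123 t 251 57 1 = true :=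
  ⟨(a (b (c (l 16781744) (l 16781600)) (l 16783512)) (b (a (c (l 16780456) (l 16785448)) (b (c (l 16779184) (l 16778808)) (l 16785160))) (c (l 16781728) (l 16781656)))), by decide +kernel⟩

def k36_pm_123 : ∃ t, chk3 f_pm_123 t 62 29 1 = true :=
  ⟨(a (b (a (l 16795920) (l 16792336)) (a (l 16799688) (l 16793216))) (a (b (l 16788736) (b (l 16791256) (l 16792872))) (b (a (l 16786032) (b (l 16783400) (l 16785016))) (b (l 16787512) (a (l 16790016) (l 16788104)))))), by decide +kernel⟩

def k37_pm_123 : ∃ t, chk3 f_pm_123 t 62 15 1 = true :=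
  ⟨(b (b (a (b (l 16800432) (l 16802064)) (a (l 16779560) (b (l 16787920) (l 16792000)))) (a (l 16783312) (l 16793384))) (b (a (l 16827696) (a (l 16800296) (l 16818272))) (a (l 16808320) (c (l 16820376) (l 16820400))))), by decide +kernel⟩

def k38_pm_123 : ∃ t, chk3 f_pm_123 t 63 6 1 = true :=
  ⟨(l 4), by decide +kernel⟩

def k39_pm_123 : ∃ t, chk3 f_pm_123 t 252 56 1 = true :=
  ⟨(a (b (l 4) (b (l 4) (a (b (b (l 4) (a (a (c (l 157001190999) (c (l 160222413367) (b (l 191360925543) (l 148948124679)))) (l 4)) (l 4))) (b (a (c (a (l 16777984) (l 153243094599)) (a (l 100092872183) (c (l 156464319111) (b (l 185455345527) (l 143579415591))))) (l 4)) (a (c (l 16778072) (c (l 16777720) (l 16777440))) (a (c (l 150021869111) (c (l 153243093815) (b (l 180623507335) (l 138747577399)))) (l 4))))) (l 4)))) (l 4)), by decide +kernel⟩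

def k40_pm_123 : ∃ t, chk3 f_pm_123 t 504 57 1 = true :=
  ⟨(b (b (a (a (c (l 16778560) (l 16778136)) (b (c (b (a (l 16777984) (l 147337514695)) (l 16778072)) (b (a (l 16777504) (c (l 150021868343) (b (l 176865410967) (l 134452610119)))) (l 16777608))) (c (l 16778360) (l 16777928)))) (b (b (l 4) (a (a (c (l 144653160135) (c (l 147874384695) (b (l 173644186743) (l 130694513671)))) (l 4)) (l 4))) (b (a (c (a (l 16777984) (c (l 141968805431) (l 143042546999))) (a (l 16777520) (c (l 145726901047) (b (l 170959832231) (l 128010159127))))) (l 4)) (a (c (l 16778072) (l 16777624)) (a (c (c (l 140358192679) (l 141431934247)) (c (l 144116288311) (b (l 168812348631) (l 125862675495)))) (l 4)))))) (c (a (l 16779184) (b (a (l 16778360) (b (a (l 16777976) (c (l 139284450823) (l 141431934231))) (l 16778064))) (l 16778552))) (a (l 16778848) (a (l 16778168) (b (b (a (l 16777528) (c (l 143579417399) (b (l 167201735991) (l 124252062775)))) (l 16777632)) (l 16777952)))))) (a (b (l 16785160) (l 16780784))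 (b (c (l 16779160) (l 16778856)) (l 16785120)))), by decide +kernel⟩

def k41_pm_123 : ∃ t, chk3 f_pm_123 t 505 57 1 = true :=
  ⟨(b (a (b (l 4) (a (b (c (a (b (l 205319570823) (c (l 138747579895) (l 140895063319))) (l 211225151175)) (a (b (l 213372633287) (c (l 143042546487) (b (l 166664865175) (l 123178320951)))) (b (l 4) (l 213909504215)))) (c (a (l 16778056) (b (c (l 138747579879) (l 139821321479)) (l 16777952))) (b (a (l 16777536) (c (l 143042546567) (b (l 166664865175) (l 123178320967)))) (l 16777632)))) (b (l 4) (a (b (c (l 206930183543) (l 214983246055)) (c (c (l 139284450775) (l 140358192375)) (c (l 143579417543) (b (l 167738606999) (l 123715191879))))) (b (l 4) (c (l 208540796279) (l 217130729719))))))) (l 4)) (a (c (b (a (l 16778528) (b (a (l 16778032) (b (c (l 140358192567) (l 141968805095)) (l 16777936))) (l 16778312))) (l 16781728)) (b (a (l 16778176) (b (b (a (l 16777528) (c (l 144653159367) (a (l 124252062791) (l 169886090647)))) (l 16777632)) (l 16777944))) (l 16781456)))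 (b (a (a (b (c (b (l 211225150839) (c (l 141968805447) (l 143579417975))) (b (l 219815084295) (c (a (l 124788934359) (l 168812349511)) (a (l 126399546599) (l 172570445367))))) (c (l 16778008) (l 16777624))) (b (l 4) (c (b (c (l 144116289063) (l 145726901447)) (l 16777904)) (b (c (a (l 127473288983) (l 172033574983)) (a (l 129083901143) (l 176328541751))) (l 16777512))))) (b (l 4) (a (b (l 4) (c (c (l 146800643767) (l 148948126887)) (c (a (l 131231385431) (l 176865413175)) (a (l 132841997607) (l 181160379943))))) (l 4)))) (a (c (l 16778472) (c (l 16778240) (l 16778040))) (b (c (a (l 16777976) (b (c (l 148411256487) (l 152169352503)) (l 16777872))) (a (l 16777600) (b (c (a (l 134989481879) (l 182234122279)) (a (l 137673835879) (l 186529087415))) (l 16777496)))) (c (l 16778240) (l 16777904))))))), by decide +kernel⟩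

def k42_pm_123 : ∃ t, chk3 f_pm_123 t 253 28 1 = true :=
  ⟨(b (l 4) (a (b (l 4) (a (b (l 4) (a (b (a (b (l 4) (c (c (l 152169353015) (l 157001190695)) (c (a (l 140895061975) (l 188676573207)) (a (l 143579415975) (l 193508409271))))) (l 4)) (c (a (l 16777936) (b (c (l 156464320439) (l 161833029047)) (l 16777832))) (a (c (l 16777680) (l 16777464)) (b (a (c (l 147337513063) (l 150558738055)) (l 201024604903)) (l 100629743383))))) (b (l 4) (a (b (l 4) (c (a (l 149484997575) (l 202098344983)) (a (c (l 154853705959) (l 158611801719)) (l 210151407783)))) (l 4))))) (l 4))) (l 4))), by decide +kernel⟩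

def k43_pm_123 : ∃ t, chk3 f_pm_123 t 126 29 1 = true :=
  ⟨(a (b (a (b (c (l 16781584) (l 16781568)) (l 16783176)) (b (a (c (l 16780272) (l 16785384)) (b (c (l 16781648) (c (l 16778848) (l 16778688))) (l 16784952))) (c (l 16781312) (l 16786576)))) (a (b (l 16784704) (l 16786184)) (l 6))) (b (a (b (a (b (a (c (l 16779696) (c (l 16778168) (l 16777984))) (b (c (a (c (l 16777960) (l 16777816)) (b (a (l 157001190487) (l 212298892375)) (l 110293421271))) (a (c (l 97945389351) (l 99019130679)) (b (a (c (l 163980511447) (l 167738607367)) (l 221425696919)) (c (l 112977774663) (l 114051515991))))) (c (l 16778144) (l 16777832)))) (a (c (l 16779128) (l 16778912)) (c (l 16778688) (l 16778440)))) (b (a (b (a (a (b (l 4) (c (l 168275479623) (c (l 174181058583) (l 178476025751)))) (l 4)) (l 4)) (c (a (c (l 104387841815) (l 106535325175)) (b (a (l 179012897831) (l 4)) (c (l 123178323207) (l 125862677639)))) (b (a (c (l 120493967559) (c (l 121567709079) (l 122104579607))) (a (b (l 4) (l 167738607447))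 (l 4))) (a (l 16777592) (a (l 16777440) (b (l 176865412759) (l 16777384))))))) (b (l 4) (a (b (l 4) (c (l 220351956071) (a (b (l 4) (l 185992218263)) (l 4)))) (l 4)))) (a (c (c (l 16778312) (l 16778200)) (c (l 16778056) (l 16777888))) (b (a (c (b (c (l 131231387015) (l 134452612199)) (l 16777856)) (b (a (l 16777992) (a (l 144116287351) (l 176865413095))) (l 16777544))) (a (b (c (l 210151408631) (l 219278213271)) (c (l 115662129767) (l 119957096231))) (b (l 4) (l 6)))) (l 6))))) (a (a (l 16785424) (l 6)) (l 6))) (b (a (b (l 4) (b (b (l 4) (l 6)) (l 6))) (l 4)) (l 6))) (l 6))), by decide +kernel⟩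

def k44_pm_123 : ∃ t, chk3 f_pm_123 t 126 15 1 = true :=
  ⟨(a (b (a (b (b (b (l 16776768) (l 16787944)) (l 16788968)) (l 16801296)) (l 6)) (a (b (l 16792760) (l 16793824)) (l 6))) (l 6)), by decide +kernel⟩

def k45_pm_123 : ∃ t, chk3 f_pm_123 t 127 7 1 = true :=
  ⟨(b (b (l 4) (b (b (l 4) (l 6)) (l 6))) (l 6)), by decide +kernel⟩

theorem s46_pm_123 : ∃ t, chk3 f_pm_123 t 252 57 1 = true := ex3_a k40_pm_123 k41_pm_123

theorem s47_pm_123 : ∃ t, chk3 f_pm_123 t 252 28 1 = true := ex3_b k39_pm_123 s46_pm_123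

theorem s48_pm_123 : ∃ t, chk3 f_pm_123 t 126 28 1 = true := ex3_a s47_pm_123 k42_pm_123

theorem s49_pm_123 : ∃ t, chk3 f_pm_123 t 126 14 1 = true := ex3_b s48_pm_123 k43_pm_123

theorem s50_pm_123 : ∃ t, chk3 f_pm_123 t 126 7 1 = true := ex3_b s49_pm_123 k44_pm_123

theorem s51_pm_123 : ∃ t, chk3 f_pm_123 t 63 7 1 = true := ex3_a s50_pm_123 k45_pm_123

theorem s52_pm_123 : ∃ t, chk3 f_pm_123 t 63 3 1 = true := ex3_b k38_pm_123 s51_pm_123

theorem s53_pm_123 : ∃ t, chk3 f_pm_123 t 251 56 1 = true := ex3_a k33_pm_123 k34_pm_123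

theorem s54_pm_123 : ∃ t, chk3 f_pm_123 t 251 28 1 = true := ex3_b s53_pm_123 k35_pm_123

theorem s55_pm_123 : ∃ t, chk3 f_pm_123 t 125 28 1 = true := ex3_a k32_pm_123 s54_pm_123

theorem s56_pm_123 : ∃ t, chk3 f_pm_123 t 62 28 1 = true := ex3_a k31_pm_123 s55_pm_123

theorem s57_pm_123 : ∃ t, chk3 f_pm_123 t 62 14 1 = true := ex3_b s56_pm_123 k36_pm_123

theorem s58_pm_123 : ∃ t, chk3 f_pm_123 t 62 7 1 = true := ex3_b s57_pm_123 k37_pm_123

theorem s59_pm_123 : ∃ t, chk3 f_pm_123 t 250 55 1 = true := ex3_b k28_pm_123 k29_pm_123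

theorem s60_pm_123 : ∃ t, chk3 f_pm_123 t 250 27 1 = true := ex3_b k27_pm_123 s59_pm_123

theorem s61_pm_123 : ∃ t, chk3 f_pm_123 t 125 27 1 = true := ex3_a s60_pm_123 k30_pm_123

theorem s62_pm_123 : ∃ t, chk3 f_pm_123 t 124 54 1 = true := ex3_a k24_pm_123 k25_pm_123

theorem s63_pm_123 : ∃ t, chk3 f_pm_123 t 124 27 1 = true := ex3_b s62_pm_123 k26_pm_123

theorem s64_pm_123 : ∃ t, chk3 f_pm_123 t 62 27 1 = true := ex3_a s63_pm_123 s61_pm_123

theorem s65_pm_123 : ∃ t, chk3 f_pm_123 t 62 13 1 = true := ex3_b k23_pm_123 s64_pm_123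

theorem s66_pm_123 : ∃ t, chk3 f_pm_123 t 62 6 1 = true := ex3_b k22_pm_123 s65_pm_123

theorem s67_pm_123 : ∃ t, chk3 f_pm_123 t 62 3 1 = true := ex3_b s66_pm_123 s58_pm_123

theorem s68_pm_123 : ∃ t, chk3 f_pm_123 t 31 3 1 = true := ex3_a s67_pm_123 s52_pm_123

theorem s69_pm_123 : ∃ t, chk3 f_pm_123 t 123 26 1 = true := ex3_b k18_pm_123 k19_pm_123

theorem s70_pm_123 : ∃ t, chk3 f_pm_123 t 61 26 1 = true := ex3_a k17_pm_123 s69_pm_123

theorem s71_pm_123 : ∃ t, chk3 f_pm_123 t 61 13 1 = true := ex3_b s70_pm_123 k20_pm_123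

theorem s72_pm_123 : ∃ t, chk3 f_pm_123 t 30 13 1 = true := ex3_a k16_pm_123 s71_pm_123

theorem s73_pm_123 : ∃ t, chk3 f_pm_123 t 30 12 1 = true := ex3_a k14_pm_123 k15_pm_123

theorem s74_pm_123 : ∃ t, chk3 f_pm_123 t 30 6 1 = true := ex3_b s73_pm_123 s72_pm_123

theorem s75_pm_123 : ∃ t, chk3 f_pm_123 t 30 3 1 = true := ex3_b s74_pm_123 k21_pm_123

theorem s76_pm_123 : ∃ t, chk3 f_pm_123 t 15 3 1 = true := ex3_a s75_pm_123 s68_pm_123

theorem s77_pm_123 : ∃ t, chk3 f_pm_123 t 7 3 1 = true := ex3_a k13_pm_123 s76_pm_123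

theorem s78_pm_123 : ∃ t, chk3 f_pm_123 t 14 2 1 = true := ex3_b k10_pm_123 k11_pm_123

theorem s79_pm_123 : ∃ t, chk3 f_pm_123 t 7 2 1 = true := ex3_a s78_pm_123 k12_pm_123

theorem s80_pm_123 : ∃ t, chk3 f_pm_123 t 7 1 1 = true := ex3_b s79_pm_123 s77_pm_123

theorem s81_pm_123 : ∃ t, chk3 f_pm_123 t 6 1 1 = true := ex3_b k8_pm_123 k9_pm_123

theorem s82_pm_123 : ∃ t, chk3 f_pm_123 t 3 1 1 = true := ex3_a s81_pm_123 s80_pm_123

theorem s83_pm_123 : ∃ t, chk3 f_pm_123 t 8 31 1 = true := ex3_a k4_pm_123 k5_pm_123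

theorem s84_pm_123 : ∃ t, chk3 f_pm_123 t 8 15 1 = true := ex3_b k3_pm_123 s83_pm_123

theorem s85_pm_123 : ∃ t, chk3 f_pm_123 t 8 7 1 = true := ex3_b k2_pm_123 s84_pm_123

theorem s86_pm_123 : ∃ t, chk3 f_pm_123 t 4 7 1 = true := ex3_a s85_pm_123 k6_pm_123

theorem s87_pm_123 : ∃ t, chk3 f_pm_123 t 4 3 1 = true := ex3_b k1_pm_123 s86_pm_123

theorem s88_pm_123 : ∃ t, chk3 f_pm_123 t 4 1 1 = true := ex3_b k0_pm_123 s87_pm_123

theorem s89_pm_123 : ∃ t, chk3 f_pm_123 t 2 1 1 = true := ex3_a s88_pm_123 k7_pm_123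

theorem s90_pm_123 : ∃ t, chk3 f_pm_123 t 1 1 1 = true := ex3_a s89_pm_123 s82_pm_123

theorem c_pm_123 : CertN 536870912 536870912 0 536870912 469762048 67108864 3 true true false .npn 1 2 3
    ndN0q1 ndN0q2 pcN3 cut_pm_123 Ext.none :=
  certN2 (fam := true) (s1 := true) (s2 := false) (a := 1) (b := 2) (c := 3) (cn := .npn) (n1 := ndN0q1) (n2 := ndN0q2) (pc := pcN3) (cut := cut_pm_123) (xt := Ext.none) (P1 := 536870912) (W1 := 536870912) (P2 := 0) (W2 := 536870912) (P3 := 469762048) (W3 := 67108864) (N0 := 3)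
    rfl (fun _ => rfl) s90_pm_123

noncomputable def cut_pm_202 : Cut := Cut.of [[⟨0, 1, 0, 67108864⟩, ⟨1, 0, 0, 67108864⟩, ⟨2, 1, 0, 67108864⟩], [⟨0, 1, 0, 33554432⟩, ⟨1, 0, 1, 33554432⟩, ⟨2, 1, 1, 33554432⟩]]

noncomputable def f_pm_202 : ℕ → ℕ → ℕ → ℕ → Bool := onCell 0 536870912 1073741824 536870912 469762048 67108864
    (rowN 3 1 true true false .pp 2 0 2 (qsf 0 536870912 0 536870912 2) ndN0q2 ndN0q0 pcN2 cut_pm_202 Ext.none)

def k0_pm_202 : ∃ t, chk3 f_pm_202 t 2 1 1 = true :=
  ⟨(b (b (a (l 1) (b (l 1) (a (l 1) (b (l 1) (b (l 1) (a (l 1) (b (l 1) (a (l 16534328) (l 16541752))))))))) (a (b (a (b (b (l 1) (a (l 16469120) (l 16474360))) (a (l 16469792) (l 16475192))) (b (b (l 1) (a (l 16481328) (l 16489408))) (b (l 16485584) (l 16485088)))) (a (b (a (l 16490384) (l 16473816)) (a (l 16467624) (l 16468824))) (b (a (l 16479584) (l 16485976)) (l 16477720)))) (b (a (b (b (a (l 16499264) (b (l 1) (l 16509528))) (a (l 16498392) (l 16508168))) (a (l 16496640) (b (l 16506160) (l 16504064))))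 (b (a (b (b (l 16522632) (l 16521336)) (l 16519280)) (b (a (l 16531920) (l 16539000)) (l 16531936))) (a (b (l 16516416) (l 16513584)) (b (l 16528264) (l 16524728))))) (a (b (a (l 16492808) (l 16500040)) (a (l 16486312) (l 16492504))) (b (a (l 16508576) (b (l 16520848) (l 16516536))) (a (l 16499952) (l 16509112))))))) (b (a (b (a (a (l 16490864) (b (l 16458584) (l 16447352))) (b (l 16489360) (l 16453984))) (a (b (l 16455888) (l 16488112)) (b (l 16432856) (l 16509872)))) (b (a (b (l 16500352) (l 16506840)) (b (a (l 16488488) (l 16496864)) (a (l 16473328) (l 16481224)))) (a (b (l 16444808) (l 16420720)) (b (l 16520520) (l 16431128))))) (a (b (a (b (l 16521488) (l 16557912)) (b (l 16590152) (l 16610928))) (b (a (l 16596552) (l 16635528)) (a (l 16636848) (l 16643648)))) (b (a (b (l 16476464) (l 16540592)) (b (l 16447616) (l 16499872))) (a (b (l 16572656) (a (l 16637568) (l 16596560))) (b (a (l 16496312) (l 16460040)) (l 16578144))))))), by decide +kernel⟩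

def k1_pm_202 : ∃ t, chk3 f_pm_202 t 3 8 1 = true :=
  ⟨(a (l 1) (a (b (l 1) (a (b (l 1) (b (l 1) (a (l 1) (b (l 16663696) (l 16671064))))) (b (l 6) (b (l 6) (b (l 6) (a (l 16658848) (l 16667512))))))) (b (l 6) (b (l 6) (b (l 6) (b (l 6) (a (a (l 16676040) (l 16684400)) (a (l 16713592) (b (l 6) (a (l 16721576) (l 16706576))))))))))), by decide +kernel⟩

def k2_pm_202 : ∃ t, chk3 f_pm_202 t 6 9 1 = true :=
  ⟨(b (a (l 1) (a (b (l 1) (b (a (l 1) (b (l 1) (l 16602080))) (a (a (l 1) (l 16594152)) (a (l 16597640) (l 16601136))))) (b (b (l 1) (a (a (l 1) (l 16617120)) (a (l 16621136) (l 16625160)))) (a (b (b (l 16611584) (l 16609488)) (l 16606440)) (b (l 16618096) (l 16613488)))))) (a (a (b (a (l 1) (b (l 1) (l 16561848))) (a (b (l 16551472) (l 16549432)) (b (l 16559576) (l 16557304)))) (b (a (b (l 1) (a (l 16568168) (l 16572432))) (b (b (l 16582384) (a (l 16578760) (l 16583176))) (l 16599880))) (a (b (l 16567808) (l 16565296)) (b (l 16576152) (l 16573400))))) (a (b (a (b (c (l 16595160) (l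 16583360)) (c (l 16592368) (l 16580272))) (b (l 16595928) (l 16592520))) (a (b (l 16604608) (l 16580752)) (b (l 16589184) (l 16585904)))) (b (a (b (l 16602448) (l 16598536)) (b (l 16608992) (l 16604568))) (a (b (l 16594696) (l 16590928)) (b (l 16600232) (l 16595968))))))), by decide +kernel⟩

def k3_pm_202 : ∃ t, chk3 f_pm_202 t 7 9 1 = true :=
  ⟨(a (b (b (a (a (b (a (l 16634808) (l 16639048)) (l 16631216)) (b (l 16661152) (l 16639224))) (a (b (l 16674808) (l 16647168)) (b (l 16683120) (l 16655000)))) (a (a (b (l 16625656) (l 16620544)) (b (l 16633184) (l 16627560))) (a (b (l 16640648) (l 16634504)) (c (l 16667440) (l 16663680))))) (a (b (a (b (l 16615528) (l 16610600)) (b (l 16622032) (l 16616584))) (a (l 16624352) (l 16608608))) (b (a (l 16646448) (b (l 16634752) (l 16628264))) (a (l 16634704) (l 16639696))))) (b (a (b (b (a (a (l 16668264) (l 16672312)) (l 16699288)) (a (l 16683672) (l 16670208))) (a (a (l 16670832) (l 16684736)) (c (l 16680168) (l 16678384)))) (a (b (b (l 16707224)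 (l 16698760)) (b (l 16690232) (l 16681616))) (a (b (b (l 16716224) (l 16686704)) (c (l 16695432) (l 16672880))) (c (b (b (l 16723072) (l 16693552)) (b (l 16684928) (l 16676056))) (b (b (l 16700224) (l 16691560)) (b (l 16682864) (l 16674056))))))) (a (b (a (c (l 16638960) (l 16635712)) (l 16653504)) (a (l 16665464) (l 16659520))) (a (b (l 16679824) (l 16653248)) (b (a (l 16676920) (b (l 16687160) (l 16678192))) (b (l 16676816) (l 16657192))))))), by decide +kernel⟩

def k4_pm_202 : ∃ t, chk3 f_pm_202 t 6 5 1 = true :=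
  ⟨(b (b (a (a (b (a (l 16546344) (l 16553864)) (a (l 16542080) (l 16549168))) (b (a (l 16561512) (c (l 16575704) (l 16562360))) (a (l 16556368) (l 16563664)))) (b (a (a (b (l 16577880) (l 16575000)) (b (l 16582680) (l 16579504))) (a (b (l 16587224) (l 16583584)) (l 16610720))) (b (a (a (l 16572088) (l 16576376)) (a (l 16580040) (l 16583704))) (b (a (a (l 16569912) (l 16574072)) (l 16579240)) (a (b (a (l 16568808) (l 16572960)) (a (l 16567992) (l 16572176))) (b (l 16578000) (a (l 16575480) (l 16578736)))))))) (a (a (b (a (l 16537808) (l 16544488)) (l 16536968)) (b (a (l 16551280) (l 16558144)) (a (l 16546496) (l 16552984)))) (a (b (a (c (l 16571392) (l 16557928)) (l 16568824)) (a (l 16559488) (l 16563112))) (b (a (l 16571448) (l 16574072)) (a (l 16564520) (l 16565888)))))) (a (b (a (b (l 16532448) (l 16527544)) (b (a (l 16541472) (l 16547608)) (l 16539096))) (a (b (l 16522176) (l 16516272)) (b (l 16533144) (l 16526712)))) (b (a (a (b (l 16553752) (l 16547704)) (b (l 16557344) (l 16551408)))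 (b (a (l 16557608) (l 16557680)) (l 16550112))) (a (a (b (l 16541272) (l 16534384)) (b (l 16545192) (l 16538560))) (b (l 16542344) (l 16534392)))))), by decide +kernel⟩

def k5_pm_202 : ∃ t, chk3 f_pm_202 t 7 5 1 = true :=
  ⟨(b (a (b (b (a (a (l 16594056) (l 16598296)) (a (l 16602432) (l 16627376))) (b (a (a (l 16587336) (l 16590888)) (a (l 16594320) (l 16597584))) (b (a (l 16585928) (l 16592184)) (a (b (l 16584504) (l 16583616)) (b (l 16590576) (l 16610568)))))) (a (b (a (l 16576640) (l 16579112)) (l 16583608)) (b (a (l 16581432) (l 16583552)) (a (l 16569344) (l 16570088))))) (b (b (a (a (l 16652104) (c (l 16636216) (l 16632944))) (a (l 16637704) (b (l 16647912) (l 16638416)))) (b (a (b (l 16645568) (l 16642432)) (c (l 16628808) (l 16626592))) (b (a (a (l 16596256) (l 16598648)) (l 16625144)) (b (a (l 16616752) (c (l 16600912) (l 16598168))) (a (a (l 16593448) (l 16595688)) (a (l 16618504) (l 16598880))))))) (b (a (a (l 16585400) (l 16586904)) (a (l 16629920) (l 16609480))) (a (a (l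 16570512) (l 16570528)) (a (l 16570032) (l 16589880)))))) (a (a (b (b (l 16557680) (l 16547296)) (b (l 16536672) (l 16525736))) (b (b (l 16577808) (l 16564488)) (a (l 16525000) (l 16562216)))) (a (b (a (b (l 16555264) (l 16539552)) (c (l 16536240) (l 16548584))) (b (a (l 16523280) (l 16518152)) (l 16544912))) (a (b (l 16563000) (l 16527208)) (b (l 16591728) (a (l 16536256) (l 16563192))))))), by decide +kernel⟩

def k6_pm_202 : ∃ t, chk3 f_pm_202 t 3 6 1 = true :=
  ⟨(a (b (b (a (a (l 16506256) (b (l 16519696) (l 16512016))) (a (b (a (l 16526960) (l 16531344)) (l 16542296)) (b (l 16526184) (l 16517656)))) (a (a (l 16490040) (b (l 16503568) (l 16494232))) (a (b (l 16512400) (l 16502624)) (b (l 16508536) (a (l 16503768) (l 16494000)))))) (a (b (a (l 16469696) (l 16478312)) (a (l 16443752) (l 16452384))) (a (b (b (l 16491936) (l 16480128)) (l 16460000)) (b (a (l 16509304) (l 16477520)) (a (l 16463736) (l 16452704)))))) (a (b (b (a (b (l 16514408) (l 16502600)) (b (l 16542704) (l 16527184)))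 (a (a (l 16489104) (l 16499240)) (b (a (l 16474504) (l 16462896)) (l 16493504)))) (b (a (a (l 16463488) (l 16469384)) (b (l 16433072) (l 16413200))) (a (l 16508296) (l 16450248)))) (b (a (b (a (l 16479424) (l 16491112)) (a (l 16460752) (l 16493216))) (b (a (l 16535872) (b (l 16522552) (l 16534000))) (a (c (l 16512840) (l 16503096)) (b (c (l 16489672) (l 16478496)) (c (l 16484192) (l 16471120)))))) (a (b (c (l 16497928) (l 16488792)) (a (l 16457048) (l 16475688))) (a (b (b (l 16457040) (l 16453552)) (b (l 16452432) (l 16475144))) (b (b (c (l 16480544) (l 16465744)) (c (a (l 16474464) (l 16483944)) (l 16462528))) (b (c (a (l 16475512) (l 16485848)) (l 16461912)) (a (l 16511424) (c (c (l 16496392) (l 16485448)) (l 16469024)))))))))), by decide +kernel⟩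

def k7_pm_202 : ∃ t, chk3 f_pm_202 t 6 7 1 = true :=
  ⟨(b (a (b (a (l 16409760) (l 16409992)) (l 16461952)) (b (a (l 16510752) (a (l 16494672) (b (l 16431072) (l 16414184)))) (a (b (l 16398968) (l 16380152)) (a (l 16436736) (b (l 16398120) (l 16382160)))))) (a (b (a (l 16424368) (l 16389392)) (a (l 16479848) (l 16455024))) (b (a (l 16397312) (b (a (l 16362904) (l 16362320)) (l 16378992))) (a (l 16450976) (b (l 16390384) (l 16433288)))))), by decide +kernel⟩

def k8_pm_202 : ∃ t, chk3 f_pm_202 t 14 14 1 = true :=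
  ⟨(b (b (a (l 16396624) (l 16427552)) (a (l 16375512) (l 16450944))) (a (b (l 16376080) (l 16363408)) (b (l 16432432) (l 16435472)))), by decide +kernel⟩

def k9_pm_202 : ∃ t, chk3 f_pm_202 t 30 14 1 = true :=
  ⟨(b (b (a (l 16416360) (l 16437408)) (a (l 16421112) (l 16464888))) (b (a (l 16426464) (l 16472392)) (a (l 16433096) (c (l 16470200) (l 16447320))))), by decide +kernel⟩

def k10_pm_202 : ∃ t, chk3 f_pm_202 t 31 28 1 = true :=
  ⟨(a (b (c (l 16469112) (l 16449080)) (c (l 16520728) (l 16456288))) (b (c (a (l 16487136) (c (b (l 16502968) (l 16529520)) (b (l 16491112) (l 16496048)))) (a (l 16464496) (b (l 16473256) (l 16477192)))) (a (c (b (l 16495264) (l 16501960)) (l 16494216)) (a (c (b (l 16505200) (l 16533352)) (b (l 16479192) (l 16484960))) (c (b (c (a (l 16516880) (l 16520400)) (l 16505232)) (c (b (l 16545400) (b (l 16548536) (c (l 16543792) (l 16526144)))) (b (l 16510504) (l 16535328)))) (b (l 16484976) (c (l 16519208) (l 16483920)))))))), by decide +kernel⟩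

def k11_pm_202 : ∃ t, chk3 f_pm_202 t 31 29 1 = true :=
  ⟨(a (a (b (l 16491888) (c (l 16490328) (l 16464592))) (b (c (l 16496472) (l 16470704)) (c (l 16503040) (l 16475424)))) (b (a (c (b (l 16508280) (l 16511928)) (b (l 16481072) (l 16483744))) (c (a (b (c (l 16525592) (l 16511360)) (c (l 16528440) (l 16513768))) (a (b (c (b (l 16530032) (l 16531336)) (l 16516056)) (c (l 16554168) (l 16518176))) (b (c (b (c (a (l 16536152) (l 16537736)) (l 16529608)) (c (b (l 16537840) (l 16538456)) (l 16530712))) (b (l 16518576) (l 16519520))) (c (b (c (b (l 16539112) (l 14)) (l 16531920)) (c (l 14) (a (l 16532472) (l 16539296)))) (b (l 16531040) (c (l 16525584) (l 16517872))))))) (a (b (l 16489824) (l 16491544)) (b (c (b (l 16502320) (l 16503160)) (l 16487760)) (c (b (l 16503952) (l 16504872)) (l 16489016)))))) (a (c (b (l 16514272) (l 16517064)) (b (l 16485224) (l 16487112))) (c (a (b (c (l 16531224) (l 16516112)) (c (l 14) (l 16519024))) (b (c (b (a (l 16535352) (b (c (l 14) (l 16534360)) (l 14)))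 (l 14)) (a (l 16520688) (b (c (l 16526952) (l 16519128)) (c (a (l 16527680) (l 16539744)) (l 16520528))))) (c (l 14) (a (l 16544752) (b (c (b (l 16529704) (l 14)) (l 16522072)) (c (l 14) (a (l 16522976) (l 16524560)))))))) (a (b (l 16493208) (l 16495416)) (b (c (b (l 16505920) (l 16528088)) (l 16490656)) (c (a (l 16507712) (b (l 16509912) (c (l 16515544) (l 16507288)))) (a (l 16491496) (l 16515160))))))))), by decide +kernel⟩

def k12_pm_202 : ∃ t, chk3 f_pm_202 t 14 15 1 = true :=
  ⟨(b (a (a (l 16387416) (l 16414816)) (b (l 16462944) (a (l 16393184) (l 16418768)))) (a (b (l 16396584) (a (l 16423640) (l 16440832))) (b (l 16455264) (c (l 16531792) (l 16412944))))), by decide +kernel⟩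

def k13_pm_202 : ∃ t, chk3 f_pm_202 t 30 15 1 = true :=
  ⟨(b (b (a (l 16439360) (l 16505712)) (a (l 16443672) (c (l 16492496) (l 16455848)))) (b (a (l 16456936) (a (l 16478224) (l 16493168))) (a (c (l 16567032) (l 16451192)) (c (l 16593192) (l 16479744))))), by decide +kernel⟩

def k14_pm_202 : ∃ t, chk3 f_pm_202 t 31 30 1 = true :=
  ⟨(a (a (b (l 16502888) (l 16514672)) (b (c (l 16508912) (l 16479512)) (c (l 16510784) (l 16485976)))) (b (a (c (b (l 16520464) (l 16524488)) (b (l 16489568) (l 16492624))) (c (b (b (a (l 16529576) (c (l 14) (a (l 16526488) (b (c (l 14) (l 16525136)) (l 14))))) (a (l 16531616) (l 14))) (l 14)) (b (a (l 16519176) (a (c (l 16510920) (l 16494200)) (c (b (c (l 16517272) (l 16508888)) (c (a (l 16518360) (l 16519944)) (l 16510640))) (b (l 16496240) (l 16497800))))) (a (c (l 16510008) (l 16493160)) (a (c (l 16535720) (l 16497512)) (c (b (c (b (l 16520664) (l 14)) (l 16512552)) (c (l 14) (a (l 16513832) (l 16515416)))) (b (l 16499504) (l 16511864)))))))) (a (c (b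 (l 14) (c (l 16590768) (l 14))) (b (l 16496304) (l 16500648))) (c (b (l 14) (b (l 14) (a (l 16538312) (c (c (l 16631848) (l 14)) (l 14))))) (a (b (c (l 16514312) (l 16496928)) (c (l 14) (l 16501368))) (a (b (c (b (l 16518048) (l 14)) (l 16501456)) (c (l 14) (l 16527048))) (b (c (b (b (c (l 14) (l 16516288)) (l 14)) (l 14)) (b (c (l 16507904) (l 16498912)) (c (l 16518040) (l 16501040)))) (c (l 14) (b (c (b (l 16511992) (l 14)) (l 16503336)) (c (l 14) (l 16516304))))))))))), by decide +kernel⟩

def k15_pm_202 : ∃ t, chk3 f_pm_202 t 31 31 1 = true :=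
  ⟨(a (b (a (c (l 16567184) (l 16481968)) (b (l 16516944) (l 16519040))) (c (b (a (l 16602720) (l 16617440)) (l 16611240)) (a (l 16502592) (l 16508032)))) (b (a (c (b (l 16528584) (c (l 16637944) (l 16581952))) (b (l 16505696) (l 16511488))) (c (a (b (c (l 16605992) (l 14)) (c (l 16649640) (b (l 14) (l 16600088)))) (b (c (b (c (l 16643464) (l 14)) (c (l 16654792) (l 16626864))) (l 14)) (b (c (l 16631096) (l 14)) (c (l 16663016) (c (l 16622080) (l 14)))))) (b (c (l 14) (a (l 16506504) (b (a (l 16510000) (b (c (l 14) (l 16507792)) (l 14))) (l 14)))) (l 14)))) (c (b (a (c (l 16659840) (l 16605288)) (c (b (l 16669800) (l 16680264)) (a (l 16585784) (b (c (l 16633280) (l 14)) (c (l 16644208) (l 16596504)))))) (a (c (l 16680680) (l 16627520)) (c (l 16674520) (a (l 16639136) (b (l 16620720) (l 16652264)))))) (b (l 14) (b (l 14) (a (l 16552848) (a (l 16528520) (c (c (a (l 16611032) (l 16615112)) (l 14)) (l 14))))))))), by decide +kernel⟩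

theorem s16_pm_202 : ∃ t, chk3 f_pm_202 t 31 15 1 = true := ex3_b k14_pm_202 k15_pm_202

theorem s17_pm_202 : ∃ t, chk3 f_pm_202 t 15 15 1 = true := ex3_a k13_pm_202 s16_pm_202

theorem s18_pm_202 : ∃ t, chk3 f_pm_202 t 7 15 1 = true := ex3_a k12_pm_202 s17_pm_202

theorem s19_pm_202 : ∃ t, chk3 f_pm_202 t 31 14 1 = true := ex3_b k10_pm_202 k11_pm_202

theorem s20_pm_202 : ∃ t, chk3 f_pm_202 t 15 14 1 = true := ex3_a k9_pm_202 s19_pm_202

theorem s21_pm_202 : ∃ t, chk3 f_pm_202 t 7 14 1 = true := ex3_a k8_pm_202 s20_pm_202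

theorem s22_pm_202 : ∃ t, chk3 f_pm_202 t 7 7 1 = true := ex3_b s21_pm_202 s18_pm_202

theorem s23_pm_202 : ∃ t, chk3 f_pm_202 t 3 7 1 = true := ex3_a k7_pm_202 s22_pm_202

theorem s24_pm_202 : ∃ t, chk3 f_pm_202 t 3 3 1 = true := ex3_b k6_pm_202 s23_pm_202

theorem s25_pm_202 : ∃ t, chk3 f_pm_202 t 3 5 1 = true := ex3_a k4_pm_202 k5_pm_202

theorem s26_pm_202 : ∃ t, chk3 f_pm_202 t 3 9 1 = true := ex3_a k2_pm_202 k3_pm_202

theorem s27_pm_202 : ∃ t, chk3 f_pm_202 t 3 4 1 = true := ex3_b k1_pm_202 s26_pm_202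

theorem s28_pm_202 : ∃ t, chk3 f_pm_202 t 3 2 1 = true := ex3_b s27_pm_202 s25_pm_202

theorem s29_pm_202 : ∃ t, chk3 f_pm_202 t 3 1 1 = true := ex3_b s28_pm_202 s24_pm_202

theorem s30_pm_202 : ∃ t, chk3 f_pm_202 t 1 1 1 = true := ex3_a k0_pm_202 s29_pm_202

theorem c_pm_202 : CertN 0 536870912 0 536870912 469762048 67108864 3 true true false .pp 2 0 2
    ndN0q2 ndN0q0 pcN2 cut_pm_202 Ext.none :=
  certN1 (fam := true) (s1 := true) (s2 := false) (a := 2) (b := 0) (c := 2) (cn := .pp) (n1 := ndN0q2) (n2 := ndN0q0) (pc := pcN2) (cut := cut_pm_202) (xt := Ext.none) (P1 := 0) (W1 := 536870912) (P2 := 0) (W2 := 536870912) (P3 := 469762048) (W3 := 67108864) (N0 := 3)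
    rfl (fun _ => rfl) s30_pm_202

noncomputable def cut_pm_203 : Cut := Cut.of [[⟨0, 1, 0, 33554432⟩, ⟨1, 0, 1, 33554432⟩, ⟨2, 1, 1, 33554432⟩]]

noncomputable def f_pm_203 : ℕ → ℕ → ℕ → ℕ → Bool := onCell 0 536870912 1610612736 536870912 469762048 67108864
    (rowN 3 1 true true false .up 2 0 3 (qsf 0 536870912 0 536870912 3) ndN0q2 ndN0q0 pcN3 cut_pm_203 Ext.none)

def k0_pm_203 : ∃ t, chk3 f_pm_203 t 2 1 1 = true :=
  ⟨(b (b (a (b (b (a (a (l 16705880) (b (l 16680976) (l 16675864))) (b (a (l 16674848) (l 16667120)) (l 16663056))) (a (a (l 16679624) (l 16668848)) (b (l 16654776) (l 16646896)))) (a (b (l 16732144) (a (l 16716520) (l 16706968))) (b (l 16654200) (l 16693192)))) (b (a (b (a (b (a (l 16659176) (l 16642096)) (l 16642312)) (b (l 16605312) (l 16598392))) (a (b (l 16632784) (l 16622024)) (l 16585592))) (b (b (l 16603872) (l 16570448)) (b (l 16544936) (l 16581688)))) (a (b (a (l 16634704) (l 16624576)) (a (l 16679672) (l 16671576))) (b (l 16628008) (l 16676560))))) (b (b (a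 (a (a (l 16738208) (l 16731408)) (l 16722048)) (a (l 16731944) (a (l 16707856) (l 16717688)))) (a (a (l 2) (l 2)) (l 2))) (l 2))) (l 2)), by decide +kernel⟩

def k1_pm_203 : ∃ t, chk3 f_pm_203 t 3 1 1 = true :=
  ⟨(b (b (b (a (b (a (b (a (l 16468304) (l 16487256)) (a (l 16515312) (l 16531760))) (b (a (l 16513456) (l 16546768)) (a (l 16554792) (l 16584840)))) (a (b (l 16565072) (l 16604800)) (b (a (l 16596320) (l 16625200)) (a (l 16637448) (l 16666624))))) (a (b (a (b (a (l 16572432) (l 16581680)) (a (l 16609480) (l 16619280))) (b (a (l 16590976) (l 16601072)) (a (l 16628760) (l 16639024)))) (a (b (a (l 16649568) (l 16659920)) (l 16696672)) (b (a (l 16669304) (l 16679416)) (l 16695304)))) (b (a (b (a (c (l 16662096) (l 16561488)) (b (l 16613536) (l 16612528))) (a (c (l 16697736) (l 16602064)) (b (l 16631568) (l 16649752)))) (a (a (b (c (l 16683112) (l 16582264)) (c (l 16718952) (l 74188451799))) (b (c (b (l 16680040) (l 16698832)) (l 16525744)) (l 2))) (b (b (c (a (l 16686648) (a (l 16670744)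 (b (l 16648352) (l 2)))) (c (a (l 16610144) (b (a (l 16609848) (c (l 16626184) (l 6))) (l 81704684407))) (l 6))) (a (c (l 16705464) (l 81704602167)) (l 2))) (l 2)))) (a (b (a (b (l 16679144) (l 2)) (l 2)) (l 2)) (l 2))))) (a (a (b (a (l 16645896) (l 16664824)) (l 16706720)) (b (a (l 16689032) (l 16718272)) (a (l 16741608) (l 2)))) (a (b (a (a (l 16743144) (l 16755320)) (l 2)) (l 2)) (l 2)))) (a (l 2) (l 2))) (l 2)), by decide +kernel⟩

theorem s2_pm_203 : ∃ t, chk3 f_pm_203 t 1 1 1 = true := ex3_a k0_pm_203 k1_pm_203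

theorem c_pm_203 : CertN 0 536870912 0 536870912 469762048 67108864 3 true true false .up 2 0 3
    ndN0q2 ndN0q0 pcN3 cut_pm_203 Ext.none :=
  certN1 (fam := true) (s1 := true) (s2 := false) (a := 2) (b := 0) (c := 3) (cn := .up) (n1 := ndN0q2) (n2 := ndN0q0) (pc := pcN3) (cut := cut_pm_203) (xt := Ext.none) (P1 := 0) (W1 := 536870912) (P2 := 0) (W2 := 536870912) (P3 := 469762048) (W3 := 67108864) (N0 := 3)
    rfl (fun _ => rfl) s2_pm_203

end Pool.Agent.Strip051.G.I7_16_1_2.Tab.C.NA00

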