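import Pool.Agent.Strip051.G.I7_16_1_2.Tab

/-! # Certificates N5 (generated) -/

set_option linter.all false
set_option maxRecDepth 100000

namespace Pool.Agent.Strip051.G.I7_16_1_2.Tab.C.NA00

open Pool.Agent.Strip051.PB Pool.Agent.Strip051.PB.T
open Pool.Agent.Strip051.G.I7_16_1_2.Tab

noncomputable def cut_pm_213 : Cut := Cut.of [[⟨0, 1, 0, 67108864⟩, ⟨1, 1, 0, 67108864⟩, ⟨2, 2, 0, 16777216⟩], [⟨0, 1, 0, 33554432⟩, ⟨1, 0, 1, 33554432⟩, ⟨2, 1, 1, 33554432⟩]]

noncomputable def f_pm_213 : ℕ → ℕ → ℕ → ℕ → Bool := onCell 0 536870912 1610612736 536870912 469762048 67108864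
    (rowN 3 1 true true false .pnn 2 1 3 (qsf 0 536870912 536870912 536870912 3) ndN0q2 ndN0q1 pcN3 cut_pm_213 Ext.none)

def k0_pm_213 : ∃ t, chk3 f_pm_213 t 2 2 1 = true :=
  ⟨(b (a (l 1) (b (l 1) (a (l 1) (b (l 1) (l 16676536))))) (b (a (b (a (a (l 16738208) (l 16731408)) (l 16722048)) (a (b (a (l 16750120) (l 16744912)) (a (l 16756544) (l 16752192))) (b (l 16738216) (l 16747680)))) (a (b (b (l 16703072) (l 16718288)) (b (l 16731592) (l 16746168))) (b (a (l 16707864) (l 16718328)) (a (b (l 16731008) (l 16750640)) (l 16755240))))) (a (a (b (b (a (l 16763416) (l 16760536)) (a (l 16769888) (l 16768720))) (a (b (b (l 16773952) (l 16776488)) (b (l 16779240) (l 65196289463))) (b (l 16775744) (l 16782608)))) (b (b (l 16758864) (l 16769600)) (b (l 16778992) (l 16787568)))) (a (b (b (l 16762056) (l 16776200)) (b (l 16788544) (l 16799384))) (b (a (l 16777928) (l 16791360)) (a (l 16806472) (l 16860568))))))), by decide +kernel⟩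

def k1_pm_213 : ∃ t, chk3 f_pm_213 t 2 6 1 = true :=
  ⟨(b (a (b (a (a (b (a (l 4) (b (l 103851039047) (l 213372636567))) (l 4)) (b (b (l 16790056) (l 76470640807)) (a (b (l 111904063255) (l 167201741623)) (b (l 16784696) (l 94724206615))))) (b (l 16796576) (a (b (l 16804272) (l 16791144)) (l 16808224)))) (a (a (l 4) (b (a (l 4) (b (l 110830294855) (l 125325811655))) (l 4))) (a (b (a (b (l 16782368) (l 104924739575)) (b (l 16790168) (l 16785256))) (a (b (l 113514649287) (l 128547038071)) (b (l 16781880) (l 106535353287)))) (b (l 16807416) (a (b (l 16789312) (l 16784472)) (l 16797976)))))) (a (b (b (l 16787944) (l 16813928)) (b (l 16813456) (l 16811712))) (b (b (l 16825064) (l 16826640)) (l 16825360)))) (a (a (l 4) (b (a (b (a (l 4) (b (l 119420229495) (l 4))) (l 4)) (b (a (b (l 92576710167) (l 109219702295)) (b (l 16788080) (l 16783408))) (a (b (a (l 4) (l 125325808999)) (l 4)) (b (a (l 106535339367) (l 16781440)) (a (l 128010163991) (l 109219681047)))))) (a (l 4) (l 4)))) (b (a (a (b (l 16802840)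 (a (b (l 16786504) (l 16803096)) (l 16793632))) (b (l 16811216) (l 16808120))) (b (l 16821600) (l 16817912))) (a (b (a (a (b (a (l 112977777159) (l 93113569543)) (b (l 120493970295) (l 132842003527))) (b (l 16784616) (b (l 16781512) (l 95261053319)))) (a (b (l 16794384) (l 16787680)) (l 16802544))) (a (a (l 4) (b (c (l 118883397367) (a (l 129083900359) (l 107609064039))) (l 4))) (a (b (a (l 16791592) (l 16784256)) (a (b (l 108682820407) (l 127473291479)) (b (l 16781040) (l 95261043911)))) (b (l 16790856) (b (l 16786104) (l 16783432)))))) (a (b (l 16809440) (a (l 16818512) (l 16805984))) (b (l 16817280) (l 16811560))))))), by decide +kernel⟩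

def k2_pm_213 : ∃ t, chk3 f_pm_213 t 4 14 1 = true :=
  ⟨(l 4), by decide +kernel⟩

def k3_pm_213 : ∃ t, chk3 f_pm_213 t 5 14 1 = true :=
  ⟨(b (a (a (l 4) (b (a (b (a (l 4) (b (l 116735872855) (l 4))) (l 4)) (b (a (b (l 16780112) (l 109756551031)) (b (l 16782720) (l 16780688))) (a (b (l 129620775143) (l 4)) (b (l 104387852103) (a (l 4) (l 116199001639)))))) (l 4))) (b (a (a (b (a (l 16784968) (l 16789112)) (a (b (l 16781360) (l 90966078311)) (l 16783280))) (b (l 16796200) (b (l 16790776) (l 16787504)))) (a (l 16802256) (l 16806848))) (a (a (b (a (b (a (l 126399548999) (l 108682817975)) (l 4)) (b (l 16780128) (a (l 116199001447) (l 101703494983)))) (a (l 4) (b (a (l 4) (l 127473290663)) (l 4)))) (c (b (l 16794704) (b (l 89892354535) (a (l 126936422823) (l 91502953287)))) (b (b (l 16783400) (l 16780728)) (a (b (l 101166613415) (l 122641448919)) (b (l 16779912) (l 96871654839)))))) (b (a (l 16791000) (l 16799936)) (a (b (l 16765184) (l 16793792)) (l 16792552)))))) (a (l 4) (b (a (a (l 4) (b (a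 (l 4) (b (a (l 130694516087) (b (l 104387845015) (l 122641452071))) (l 4))) (l 4))) (b (a (a (b (c (l 16780848) (l 85597364695)) (c (l 116199003703) (a (l 122104577959) (l 104387838471)))) (b (l 16782304) (c (l 16781112) (l 16778848)))) (b (l 16787528) (l 16797592))) (a (a (l 4) (c (b (l 111367186311) (l 139821325207)) (b (a (l 116735868919) (l 99556008231)) (a (l 4) (l 131231383575))))) (a (b (c (l 16781392) (l 16779280)) (a (b (l 104387846535) (l 126399548151)) (c (l 97945400503) (l 94724168887)))) (b (l 16783312) (c (l 16781664) (l 16779680))))))) (a (l 4) (b (a (l 4) (b (a (a (l 4) (b (l 123715193527) (l 4))) (a (b (l 92576686007) (c (l 123178324871) (l 118346481687))) (c (l 16780288) (l 84523621063)))) (a (l 4) (a (l 4) (b (c (l 120493970183) (l 116198998103)) (l 4)))))) (l 4)))))), by decide +kernel⟩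

def k4_pm_213 : ∃ t, chk3 f_pm_213 t 2 15 1 = true :=
  ⟨(l 4), by decide +kernel⟩

def k5_pm_213 : ∃ t, chk3 f_pm_213 t 6 4 1 = true :=
  ⟨(b (l 1) (a (b (l 1) (a (l 16697024) (l 16717064))) (b (a (l 16689008) (l 41909367527)) (a (b (l 16730144) (l 16754296)) (b (l 16760640) (l 16793488)))))), by decide +kernel⟩

def k6_pm_213 : ∃ t, chk3 f_pm_213 t 14 8 1 = true :=
  ⟨(b (l 1) (a (b (l 1) (l 31171857079)) (b (a (l 1) (l 16679416)) (a (l 16711448) (l 16721096))))), by decide +kernel⟩

def k7_pm_213 : ∃ t, chk3 f_pm_213 t 30 8 1 = true :=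
  ⟨(b (b (l 1) (a (b (l 1) (l 16658880)) (b (l 16589624) (l 16607808)))) (b (a (b (l 16679144) (l 16701192)) (b (l 16648904) (l 16712576))) (a (b (l 16721688) (l 16740984)) (b (a (l 16729904) (l 16736504)) (c (l 16799048) (l 16717728)))))), by decide +kernel⟩

def k8_pm_213 : ∃ t, chk3 f_pm_213 t 31 16 1 = true :=
  ⟨(a (c (b (b (l 1) (l 16695608)) (b (l 16713464) (l 16730488))) (b (a (b (l 1) (l 16592800)) (l 16530984)) (b (a (l 16613136) (l 16619584)) (a (l 16632568) (l 16639048))))) (b (a (b (c (l 16686648) (l 16532000)) (c (l 16705472) (b (l 16579608) (l 16611024)))) (c (b (c (l 16718744) (a (l 16666312) (b (l 16664728) (l 16674728)))) (c (l 16736960) (a (l 16685808) (l 16689264)))) (c (b (c (a (l 16628016) (b (l 16626184) (l 16636672))) (a (l 16602360) (b (l 14) (a (l 16610304) (l 16612040))))) (a (l 16635984) (b (a (l 16633464) (l 16635208)) (l 16644488)))) (b (l 14) (b (l 14) (a (l 16591112) (a (l 16593704) (c (l 16607960) (l 14))))))))) (c (a (b (l 16723368) (l 16740408)) (b (c (l 16754264)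 (l 16706080)) (l 16747272))) (a (b (c (l 16650672) (l 16580744)) (c (l 16669544) (l 16621824))) (b (a (b (l 16584392) (l 16615336)) (c (b (l 16654392) (l 16664064)) (b (c (l 16617480) (l 14)) (a (l 16614536) (c (l 16628488) (l 16604064)))))) (a (c (l 16674672) (l 16605984)) (c (l 16678160) (b (a (l 16624584) (l 16626344)) (l 16614320))))))))), by decide +kernel⟩

def k9_pm_213 : ∃ t, chk3 f_pm_213 t 31 17 1 = true :=
  ⟨(b (a (b (c (l 16749056) (a (l 16653984) (l 16660376))) (a (l 16721616) (b (l 16722840) (l 16715184)))) (c (b (a (l 16759368) (b (c (l 16785048) (l 16739232)) (l 16777160))) (a (l 16786464) (l 16802752))) (b (a (b (l 16661072) (a (l 16671136) (l 16675632))) (b (b (a (l 16663200) (a (l 16665912) (b (a (l 16665656) (l 16646072)) (l 16649848)))) (a (l 16669496) (a (l 16674000) (l 16678688)))) (a (l 16661632) (l 16691920)))) (a (b (l 16689520) (l 16708600)) (a (l 16712656) (l 16701200)))))) (a (b (a (l 16725856) (l 16761368)) (l 16787064)) (c (b (l 16826880) (l 16857120)) (a (l 16755696)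 (b (l 16755608) (l 16791304)))))), by decide +kernel⟩

def k10_pm_213 : ∃ t, chk3 f_pm_213 t 7 9 1 = true :=
  ⟨(a (b (a (b (l 16733000) (a (l 16757864) (l 16772536))) (b (a (l 16747808) (l 16738688)) (a (l 16787400) (l 16808032)))) (a (b (a (l 16790920) (l 16814600)) (l 16846464)) (b (l 16847664) (l 16892176)))) (b (a (b (a (b (l 16763480) (l 16791064)) (l 16803864)) (a (l 16833240) (l 16860008))) (b (a (l 16833632) (c (l 16898424) (b (l 16815944) (l 16847184)))) (a (l 16888376) (l 16918192)))) (a (b (l 16895920) (l 16938088)) (b (a (l 16935280) (l 16963088)) (l 16987712))))), by decide +kernel⟩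

def k11_pm_213 : ∃ t, chk3 f_pm_213 t 3 5 1 = true :=
  ⟨(a (b (a (b (a (l 16737008) (l 16805920)) (a (l 16781936) (l 16816144))) (b (a (l 16800672) (l 16848280)) (a (l 16857504) (l 16905160)))) (a (a (b (l 16819312) (l 16841688)) (b (l 16855480) (l 16874664))) (b (a (l 16896728) (l 16939120)) (a (l 16908928) (l 16942696))))) (b (a (b (a (b (l 16885224) (l 16918312)) (l 16947536)) (a (b (l 16945952) (l 16967768)) (b (l 16988952) (l 17003568)))) (b (a (b (l 16973656) (l 17001456)) (b (a (l 17007256) (l 17026744)) (l 17032264))) (a (l 17062424) (l 17041040)))) (a (a (b (l 16980008) (l 16977384)) (b (l 17008456) (l 17069064))) (a (b (l 17025936) (l 17022648)) (b (l 17043976) (l 17038488)))))), by decide +kernel⟩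

def k12_pm_213 : ∃ t, chk3 f_pm_213 t 3 6 1 = true :=
  ⟨(a (b (a (b (a (l 16843360) (l 16868968)) (a (l 16839296) (l 16857104))) (b (a (l 16898968) (l 16930384)) (a (l 16883784) (l 16911720)))) (a (b (a (b (l 16834896) (l 16831344)) (b (l 16848280) (l 16843000))) (b (l 16832200) (l 16825736))) (b (a (l 16867008) (l 16911896)) (a (b (l 16852800) (l 16843464)) (l 16784200))))) (b (a (b (a (l 16962272) (l 16991008)) (a (l 16939544) (l 16965552))) (b (l 17035760) (l 16989208))) (a (b (a (l 16872712) (l 16937000)) (a (l 16803784) (l 16906216))) (b (l 17001624) (b (l 16935544) (l 16919040)))))), by decide +kernel⟩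

def k13_pm_213 : ∃ t, chk3 f_pm_213 t 3 14 1 = true :=
  ⟨(a (b (b (a (a (l 16813392) (l 16802112)) (a (a (l 16830832) (l 16837088)) (l 16849760))) (a (a (b (l 16807424) (l 16803280)) (l 16814512)) (a (l 16824784) (a (l 16833448) (l 16841264))))) (a (b (a (b (a (l 16793736) (l 16800992)) (a (a (b (l 16786760) (l 16783744)) (l 16788824)) (l 16794552))) (b (l 16807616) (l 16802856))) (a (b (a (b (a (c (l 16781912) (l 16780056)) (l 16784112)) (a (b (c (l 16780368) (l 82376135975)) (a (c (l 118346486439) (l 114051514519)) (l 85060491095))) (c (l 16782112) (l 16780384)))) (a (b (l 16787552) (l 16784408)) (l 16789480))) (a (b (a (b (a (l 4) (c (l 116735873607) (l 111904030951))) (l 4)) (b (c (l 16780448) (l 16778576)) (a (c (l 115125260791) (l 110830289191)) (l 81302394231)))) (a (l 4) (b (a (l 4) (c (l 113514647975) (l 109219676503))) (l 4)))) (b (a (c (l 16782264) (l 16780648)) (l 16784616)) (a (b (c (l 16780504) (l 16778744)) (a (c (l 112977776967) (b (l 95797906183) (l 117809610919))) (l 16779200)))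 (c (l 16782344) (l 16780840)))))) (b (a (l 16794960) (l 16800120)) (a (c (l 16809344) (b (l 16789272) (l 16764824))) (l 16794880))))) (b (a (l 16814776) (l 16825664)) (a (b (l 16807032) (l 16801728)) (a (l 16811448) (l 16816552)))))) (a (b (a (l 16859984) (l 16875144)) (a (b (l 16797176) (a (b (l 16825480) (l 16818728)) (l 16828352))) (b (l 16810320) (l 16784736)))) (a (b (l 16888360) (b (l 16863832) (l 16847544))) (b (l 16899192) (b (l 16873208) (l 16855744)))))), by decide +kernel⟩

def k14_pm_213 : ∃ t, chk3 f_pm_213 t 12 60 1 = true :=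
  ⟨(a (b (a (l 4) (c (b (a (b (a (l 4) (l 112440905975)) (l 147874387735)) (b (l 16780496) (a (l 111904034967) (l 16779968)))) (a (l 4) (b (a (l 144653160887) (l 112440905783)) (a (l 4) (l 145726902647))))) (b (a (a (l 4) (b (b (l 95261035319) (l 116735869127)) (l 139821318135))) (b (l 16778848) (a (b (l 94724164599) (l 116735869127)) (l 16778296)))) (a (l 4) (b (a (l 140895059959) (b (l 95261035687) (l 116735869127))) (a (l 4) (l 142505672711))))))) (l 4)) (b (a (c (b (a (l 16782344) (l 16785208)) (a (b (l 16780432) (a (l 113514657975) (l 16779864))) (l 16782256))) (b (a (l 16780944) (l 16784144)) (a (b (l 16778888) (a (b (l 95797906919) (l 119957094583)) (l 16778296))) (l 16780960)))) (b (l 16789584) (a (l 16763672) (l 16787768)))) (a (b (a (b (a (l 4) (b (c (l 99019137175) (l 97408519783)) (a (l 4) (c (l 115662133623) (l 112977774567))))) (l 4)) (b (c (l 16780304) (a (l 16778272) (l 16779488))) (a (b (c (l 101166621175) (a (l 114051514727) (l 16777744))) (a (l 4) (c (l 118883359207) (l 116198998343))))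 (c (l 16779696) (l 79154908423))))) (a (l 4) (b (a (l 4) (c (b (l 103850976151) (l 132305128967)) (b (a (l 118346481959) (l 16777696)) (a (l 4) (l 121567707399))))) (l 4)))) (b (a (c (l 16782080) (l 16780872)) (c (l 16784816) (l 16783936))) (a (b (a (c (l 16779592) (c (l 16778560) (l 80765520311))) (l 16780056)) (c (a (b (l 107609067047) (l 137673838023)) (l 86671106951)) (a (b (a (l 124252061927) (l 90966066967)) (a (l 4) (l 127473287351))) (b (l 16778360) (c (l 88818585127) (l 87744841639)))))) (b (l 16782048) (c (l 16781088) (l 16779912)))))))), by decide +kernel⟩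

def k15_pm_213 : ∃ t, chk3 f_pm_213 t 12 61 1 = true :=
  ⟨(a (l 4) (b (a (l 4) (b (a (b (a (l 4) (c (b (l 112977786487) (l 144116288935)) (b (a (l 131768254615) (l 97945389335)) (a (l 4) (l 136600092791))))) (l 4)) (b (a (b (c (l 16779584) (l 16778256)) (c (l 95261040327) (a (b (l 16777616) (l 110293419559)) (l 16777936)))) (l 16779776)) (a (b (a (c (l 142505676007) (l 141431930967)) (c (l 107072199159) (b (l 93113550007) (l 119957094743)))) (a (l 4) (c (l 147874385127) (l 146800640055)))) (b (c (l 16779416) (l 16778128)) (a (c (l 116199004903) (b (l 99019130423) (l 126399545623))) (c (l 16779120) (l 16777808))))))) (a (l 4) (b (a (l 4) (b (a (l 4) (c (l 121030839415) (b (l 105998452423) (l 133915738327)))) (l 4))) (l 4))))) (l 4))), by decide +kernel⟩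

def k16_pm_213 : ∃ t, chk3 f_pm_213 t 13 60 1 = true :=
  ⟨(a (b (a (l 16794136) (l 16798472)) (a (b (l 16788992) (a (c (l 16784464) (l 16783648)) (l 16787032))) (l 16792872))) (b (l 16805288) (l 16804632))), by decide +kernel⟩

def k17_pm_213 : ∃ t, chk3 f_pm_213 t 26 122 1 = true :=
  ⟨(a (b (a (b (l 16781704) (c (l 16780704) (l 16779592))) (c (l 16773504) (l 16783240))) (a (b (a (b (c (l 16779232) (c (l 16778336) (l 16777600))) (a (c (l 126936419351) (b (l 113514645351) (l 141968801943))) (c (l 16778952) (c (l 16778032) (l 90429195367))))) (c (l 16779920) (l 16778768))) (a (b (a (l 4) (c (l 133378870231) (b (l 124252062023) (l 4)))) (l 4)) (b (c (l 91502943511) (a (b (l 16777720) (l 104387839911)) (l 16778064))) (a (c (l 140358192055) (b (l 133378867431) (l 4))) (c (l 103850973815) (b (l 16777640) (a (l 131768254759) (l 97408516935)))))))) (b (c (l 16781672) (l 16780736)) (a (c (l 16779680) (c (l 16778880) (l 16778224))) (l 16780344))))) (b (l 16798376) (a (b (l 16783936) (l 16787520)) (l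 16785800)))), by decide +kernel⟩

def k18_pm_213 : ∃ t, chk3 f_pm_213 t 52 123 1 = true :=
  ⟨(b (a (b (a (l 4) (b (a (l 4) (c (l 148411255719) (b (l 143579414679) (l 4)))) (l 4))) (l 4)) (b (b (a (a (c (l 114588392567) (b (l 96334775959) (a (l 145726898375) (l 114051515559)))) (c (l 16779024) (l 16777864))) (l 16779256)) (a (a (l 4) (c (b (l 106535326887) (l 137136966407)) (b (a (l 121567708343) (l 16777576)) (a (l 4) (l 128547029319))))) (c (l 16779120) (c (l 16778320) (l 82376132135))))) (a (l 4) (b (a (c (b (l 116735874567) (l 148411255527)) (b (a (l 136600092951) (l 102240355431)) (l 149484994695))) (c (l 94724167255) (c (l 94187293815) (b (l 16777464) (l 100629742679))))) (a (l 4) (b (c (l 131768257207) (a (l 153779962039) (l 121030837607))) (l 4))))))) (l 4)), by decide +kernel⟩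

def k19_pm_213 : ∃ t, chk3 f_pm_213 t 53 123 1 = true :=
  ⟨(b (b (a (c (l 16781072) (l 16780192)) (l 16783248)) (a (a (b (c (l 16779456) (l 16778424)) (c (a (b (l 16778800) (l 111904036231)) (l 16779072)) (a (b (l 16777688) (a (l 129620771143) (l 94724162503))) (l 16778016)))) (c (l 16780168) (l 16779240))) (c (l 16781904) (l 16781184)))) (a (b (a (b (a (c (l 150558744375) (b (a (l 4) (l 138747576583)) (l 4))) (c (b (l 16779504) (l 128010160759)) (b (c (l 96334776695) (l 96334775159)) (a (l 148411252951) (c (l 113514645527) (l 115662127703)))))) (a (l 4) (b (c (l 158611802759) (l 160759283815)) (l 4)))) (b (c (l 16779152) (c (l 16778424) (l 16777832))) (a (c (b (l 109219681527) (l 142505675303)) (b (a (c (l 124788934775) (l 125325804199)) (l 16777568)) (c (l 143042544487) (l 143579414023)))) (c (l 89355457527) (c (l 89355455223) (b (l 16777592) (l 93650420567))))))) (a (l 4) (b (a (l 4) (c (b (l 125862677031) (l 158074931735)) (b (a (l 145726898407) (c (l 111904032807) (l 111904031399))) (l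 160222412919)))) (l 4)))) (b (a (c (l 16779824) (l 16778912)) (l 16780584)) (a (b (c (a (c (l 99556005991) (l 100092875799)) (l 16779056)) (a (b (l 16777768) (a (c (l 122641451207) (l 123178320615)) (l 16777592))) (l 16778096))) (a (b (c (l 141968804295) (a (l 4) (b (l 121030837207) (l 154316833015)))) (l 4)) (c (b (l 16778632) (l 123178324999)) (b (c (l 16777912) (l 92576678679)) (c (l 124252065287) (a (l 146263768679) (l 111367160519))))))) (b (l 16782040) (c (l 16779112) (c (l 16778456) (l 16777912)))))))), by decide +kernel⟩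

def k20_pm_213 : ∃ t, chk3 f_pm_213 t 27 61 1 = true :=
  ⟨(b (a (b (l 16792744) (l 16789776)) (l 16795448)) (a (b (a (l 16795472) (l 16787552)) (a (b (c (l 16782672) (l 16782112)) (c (l 16781080) (l 16785624))) (a (l 16793920) (l 16784656)))) (b (l 16790792) (l 16798152)))), by decide +kernel⟩

def k21_pm_213 : ∃ t, chk3 f_pm_213 t 7 30 1 = true :=
  ⟨(a (b (a (a (b (l 16780896) (l 16785088)) (l 16814192)) (l 16822136)) (a (b (a (l 16799664) (l 16803992)) (a (l 16793232) (l 16797256))) (b (a (l 16808568) (l 16813064)) (a (a (l 16800216) (l 16802264)) (l 16805424))))) (a (b (a (l 16808088) (l 16833160)) (a (l 16813184) (b (l 16799808) (l 16791560)))) (b (l 16880160) (b (l 16825072) (b (l 16818504) (l 16835112)))))), by decide +kernel⟩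

def k22_pm_213 : ∃ t, chk3 f_pm_213 t 12 62 1 = true :=
  ⟨(l 4), by decide +kernel⟩

def k23_pm_213 : ∃ t, chk3 f_pm_213 t 26 62 1 = true :=
  ⟨(b (a (l 4) (b (a (l 4) (b (a (b (a (l 4) (b (c (l 159148673479) (a (l 4) (l 158074929335))) (l 4))) (l 4)) (b (a (c (b (l 108145939703) (l 143579416935)) (b (a (c (l 123178322167) (l 123715191719)) (l 16777592)) (a (l 4) (b (l 122641450023) (l 156464316647))))) (c (l 89355457559) (c (l 89355455223) (b (l 16777648) (l 93650420695))))) (a (l 4) (b (c (a (l 146263771447) (l 111904034823)) (a (b (l 141431931191) (l 4)) (c (l 113514645735) (l 112977773431)))) (c (l 162906769783) (a (l 4) (l 162369896615))))))) (l 4))) (l 4))) (l 4)), by decide +kernel⟩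

def k24_pm_213 : ∃ t, chk3 f_pm_213 t 54 248 1 = true :=
  ⟨(a (b (a (b (c (l 16779408) (l 16778560)) (c (a (b (l 16778688) (a (l 125325808023) (l 16778512))) (l 16778960)) (a (b (l 16777768) (a (b (l 109756548135) (l 144653156647)) (l 90429195223))) (l 16778088)))) (c (l 16780080) (l 16779328))) (a (b (a (a (l 4) (b (c (l 138747578631) (b (l 130157642919) (l 163980509399))) (l 4))) (c (b (l 96334778695) (a (l 152706222311) (l 118346486055))) (b (c (l 96871647623) (a (l 104387838791) (l 16777440))) (b (a (l 148948123927) (l 98482258807)) (c (l 146800640807) (l 147874381463)))))) (l 4)) (b (c (l 16778992) (c (l 16778392) (l 16777896))) (a (a (b (c (l 132305129927) (b (c (l 118346483447) (l 119957094919)) (l 154853703927))) (l 4)) (b (c (l 16778440) (c (l 16777800) (l 97408516711))) (c (l 147337513127) (c (l 148948124439) (l 150021865127))))) (c (c (l 95797909047) (l 96334779079)) (b (l 16777872) (a (c (l 112977774871) (b (l 16777264) (l 126399545927))) (l 16777664)))))))) (b (a (l 16786136)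 (l 16782072)) (a (b (l 16779672) (c (l 16779248) (l 16778472))) (c (l 16780664) (l 16780048))))), by decide +kernel⟩

def k25_pm_213 : ∃ t, chk3 f_pm_213 t 54 249 1 = true :=
  ⟨(a (b (a (l 4) (b (a (l 4) (b (c (a (l 162906769559) (l 127473291751)) (a (l 166127992999) (b (c (l 16777704) (l 111367160327)) (l 147874382103)))) (l 4))) (l 4))) (l 4)) (b (a (b (a (c (b (l 16778520) (a (l 143042545767) (l 107072196439))) (b (c (l 16777920) (l 16777424)) (a (b (c (l 133915739799) (l 134452609575)) (l 4)) (c (l 108145936535) (b (l 16777304) (l 119957095047)))))) (c (l 16778784) (l 16777984))) (a (b (c (l 165591124119) (c (l 167738606263) (l 169349220439))) (l 4)) (a (b (c (l 124252066327) (b (l 105461580919) (c (l 143042545239) (l 144116285207)))) (l 4)) (b (c (l 16778424) (l 16777600)) (c (l 140895062055) (b (c (l 129620772663) (l 130694513319)) (l 168275476695))))))) (b (c (l 16779496) (l 16778792)) (c (c (l 89892329703) (a (l 93113553207) (l 16778840))) (a (b (l 16777944) (c (l 98482260471) (a (l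 106535322663) (l 16777472)))) (l 16778264))))) (a (l 4) (b (a (b (c (a (l 159148673031) (l 122641453527)) (a (b (l 154853703943) (l 4)) (b (l 102777226343) (c (l 140895061751) (l 141968801591))))) (l 4)) (c (b (l 16778496) (a (l 140895061991) (l 104387841783))) (b (l 84523615543) (a (b (c (l 128010159927) (l 129083900615)) (l 168275476695)) (c (l 105461581975) (l 105461580871)))))) (a (l 4) (a (l 4) (b (b (c (l 151632481575) (l 154853705255)) (l 4)) (l 4)))))))), by decide +kernel⟩

def k26_pm_213 : ∃ t, chk3 f_pm_213 t 55 124 1 = true :=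
  ⟨(b (a (c (l 16793600) (b (l 16783680) (l 16781872))) (l 16785272)) (a (b (a (c (l 16780136) (l 16779520)) (c (l 16781176) (l 16780688))) (a (b (c (l 16778984) (c (l 16778480) (l 16778056))) (a (a (b (c (l 123178324471) (b (l 102240355431) (c (l 141968803559) (l 142505672519)))) (l 4)) (b (c (l 16778368) (l 16777608)) (c (l 142505677287) (b (c (l 129620772711) (l 130157642615)) (l 170959831255))))) (c (c (l 93650425047) (l 93650424119)) (b (l 16777960) (c (l 99556002439) (a (b (l 16777352) (l 117272740647)) (l 16777496))))))) (b (l 16779704) (c (l 16779184) (l 16778536))))) (b (l 16793112) (c (l 16787640) (a (l 16780080) (l 16781224)))))), by decide +kernel⟩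

def k27_pm_213 : ∃ t, chk3 f_pm_213 t 54 250 1 = true :=
  ⟨(l 4), by decide +kernel⟩

def k28_pm_213 : ∃ t, chk3 f_pm_213 t 110 250 1 = true :=
  ⟨(b (a (b (a (l 4) (b (c (a (l 162906769287) (b (l 16778240) (l 143042547159))) (a (b (l 158074929399) (l 4)) (b (l 104387839143) (c (l 145190029079) (l 146263768903))))) (l 4))) (l 4)) (b (b (c (l 84523618695) (c (l 16778136) (l 83449873831))) (a (c (a (b (l 131768258007) (l 172570445655)) (l 108682809255)) (a (b (c (l 133378869143) (l 134452609895)) (l 176865411271)) (b (l 16777568) (c (l 121567709047) (l 122641449911))))) (c (l 16778504) (l 16777808)))) (a (a (l 4) (b (b (c (l 161296156471) (l 165054251239)) (l 4)) (l 4))) (a (b (c (b (l 16778192) (l 149484998359)) (b (c (l 16777664) (l 110293418695)) (c (l 151632478919) (l 153243090743)))) (l 4)) (b (c (l 16778280) (c (l 16777776) (l 16777360))) (b (c (l 138747579959) (c (l 141431932855) (l 142505673639))) (l 4))))))) (l 4)), by decide +kernel⟩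

def k29_pm_213 : ∃ t, chk3 f_pm_213 t 111 250 1 = true :=
  ⟨(b (a (b (c (l 16779376) (l 16778784)) (c (a (c (l 97945392951) (b (l 16778432) (l 105461583863))) (l 16778840)) (a (b (l 16777912) (a (b (l 16777536) (c (l 130157643671) (l 131231384551))) (l 16777664))) (l 16778216)))) (b (l 16780144) (c (l 16779544) (l 16779008)))) (a (b (a (b (c (a (l 176328541991) (b (l 117272743335) (l 160759285479))) (a (b (l 175791669447) (l 4)) (b (c (l 119420225399) (l 119957095399)) (l 164517381639)))) (l 4)) (b (c (l 94724165703) (c (l 94724163927) (a (l 100629742631) (l 16777552)))) (c (a (l 161296159015) (b (l 16778176) (l 139821321863))) (a (b (c (l 152169350951) (l 153779961687)) (l 4)) (b (l 97945388151) (c (l 142505674727) (l 144116286471))))))) (l 4)) (b (c (c (l 16778872) (l 16778632)) (c (l 81302392039) (a (l 16777720) (l 16778240)))) (a (a (b (c (b (l 129620774535) (l 175791670967)) (b (c (l 132305127399) (l 133915739207)) (l 180623507639))) (l 4)) (b (c (l 108682809271) (b (l 16777568) (c (l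 122641450903) (l 123715191863)))) (c (l 174181058231) (b (l 170422960343) (l 4))))) (b (c (l 16778424) (l 16777808)) (c (a (b (l 111367163063) (l 156464320215)) (l 16778192)) (a (b (c (l 112977774375) (l 113514644359)) (c (l 159148671623) (l 161296154439))) (c (l 16777736) (l 96334775319))))))))), by decide +kernel⟩

def k30_pm_213 : ∃ t, chk3 f_pm_213 t 27 251 1 = true :=
  ⟨(a (l 4) (a (l 4) (b (a (l 4) (b (a (l 4) (a (l 4) (b (b (c (l 147337514855) (c (l 150021867447) (l 151632478071))) (l 4)) (l 4)))) (l 4))) (l 4)))), by decide +kernel⟩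

def k31_pm_213 : ∃ t, chk3 f_pm_213 t 28 124 1 = true :=
  ⟨(a (b (l 16788336) (a (a (l 16788624) (l 16784456)) (l 16785952))) (b (l 16792136) (l 16788720))), by decide +kernel⟩

def k32_pm_213 : ∃ t, chk3 f_pm_213 t 28 250 1 = true :=
  ⟨(b (a (a (a (c (l 16780928) (l 16780544)) (l 16781792)) (l 16783320)) (l 16786136)) (c (a (a (a (b (l 16779688) (l 16778888)) (l 16785472)) (l 16781640)) (l 16784384)) (a (a (a (b (l 16779200) (c (l 16778496) (l 16778168))) (l 16785064)) (a (l 16780888) (l 16781936))) (l 16784448)))), by decide +kernel⟩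

def k33_pm_213 : ∃ t, chk3 f_pm_213 t 56 502 1 = true :=
  ⟨(a (a (b (b (c (a (a (b (l 16778136) (l 138747580103)) (l 16778232)) (l 16778536)) (a (a (b (l 16777512) (c (l 141431933047) (l 143042544807))) (l 16777624)) (l 16777968))) (a (a (l 4) (c (b (l 130694516343) (l 179012896343)) (b (c (l 132841998407) (l 134452610263)) (l 184381604023)))) (c (c (l 101703488039) (l 102240358295)) (a (b (l 16777568) (c (l 124788934679) (l 125325804695))) (l 16777696))))) (a (l 4) (b (c (a (l 179012898983) (b (l 114051517671) (l 163443639831))) (a (b (l 175791672071) (l 4)) (b (c (l 116198999959) (l 117272740903)) (c (l 165591122519) (l 168275476311))))) (l 4)))) (b (c (l 16779000) (c (l 16778640) (l 16778344))) (a (b (c (c (l 16778328) (l 16778096)) (c (l 94724164119) (a (l 100092871943) (l 16777584)))) (c (a (b (l 154853707527) (l 4)) (b (l 16778064) (l 147874385655))) (a (b (c (l 158074929767) (l 160222412663)) (l 4)) (b (l 100629742935) (c (l 150558738983) (l 152706219927)))))) (c (c (l 16778536) (l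 16778320)) (c (l 84523617031) (b (l 16777944) (l 16777536))))))) (a (b (c (l 16779912) (l 16779520)) (c (l 16779088) (l 16778632))) (c (b (l 16780824) (l 16779984)) (l 16785336)))), by decide +kernel⟩

def k34_pm_213 : ∃ t, chk3 f_pm_213 t 56 503 1 = true :=
  ⟨(a (a (l 4) (b (a (l 4) (a (b (b (c (l 141431934871) (a (l 167738606791) (l 128010159607))) (l 4)) (l 4)) (b (b (c (l 16778088) (l 16777528)) (c (l 134989483831) (a (l 158074930567) (l 118346483047)))) (c (l 192971540215) (b (l 194045280423) (l 4)))))) (l 4))) (a (b (a (b (c (l 16778280) (l 16777752)) (c (a (b (l 128010161735) (l 182234121671)) (c (l 108682809255) (l 110293421447))) (a (b (c (l 131231385719) (l 132841997783)) (l 187602829495)) (b (l 16777576) (c (l 125325805719) (l 126399546711)))))) (c (l 16778504) (c (l 16778152) (l 16777856)))) (a (b (a (l 4) (a (l 4) (b (c (l 168275479383) (l 174181056743)) (l 4)))) (l 4)) (a (b (c (b (l 116735872263) (l 171496703383)) (b (c (l 119420225543) (l 120493966631)) (a (l 4) (l 166664865335))))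 (l 4)) (b (c (l 102240358119) (c (l 103850969447) (b (l 16777456) (l 115125257463)))) (a (l 4) (b (c (l 154853706727) (l 159685543303)) (l 4))))))) (b (c (l 16779144) (l 16778728)) (a (b (c (l 16778328) (l 16777840)) (c (a (b (l 107072195527) (l 161833026935)) (l 95797906695)) (a (b (c (l 16777600) (l 109756548215)) (c (l 164517380647) (l 167201737159))) (c (l 16777704) (l 96871646551))))) (c (l 16778544) (c (l 16778224) (l 16777952))))))), by decide +kernel⟩

def k35_pm_213 : ∃ t, chk3 f_pm_213 t 57 251 1 = true :=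
  ⟨(b (a (c (l 16781744) (l 16781600)) (l 16783512)) (a (b (c (l 16780456) (l 16785448)) (a (c (l 16779184) (l 16778808)) (l 16785160))) (c (l 16781728) (l 16781656)))), by decide +kernel⟩

def k36_pm_213 : ∃ t, chk3 f_pm_213 t 29 62 1 = true :=
  ⟨(b (a (b (l 16795920) (l 16792336)) (b (l 16799688) (l 16793216))) (b (a (l 16788736) (a (l 16791256) (l 16792872))) (a (a (a (l 16789128) (l 16784712)) (l 16785928)) (a (l 16787512) (b (l 16790016) (l 16788104)))))), by decide +kernel⟩

def k37_pm_213 : ∃ t, chk3 f_pm_213 t 15 62 1 = true :=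
  ⟨(a (a (b (a (l 16800432) (l 16802064)) (b (l 16779560) (a (l 16787920) (l 16792000)))) (b (l 16783312) (l 16793384))) (a (b (l 16827696) (b (l 16800296) (l 16818272))) (b (l 16808320) (c (l 16820376) (l 16820400))))), by decide +kernel⟩

def k38_pm_213 : ∃ t, chk3 f_pm_213 t 6 63 1 = true :=
  ⟨(l 4), by decide +kernel⟩

def k39_pm_213 : ∃ t, chk3 f_pm_213 t 56 252 1 = true :=
  ⟨(b (a (l 4) (a (l 4) (b (a (a (l 4) (b (b (c (l 157001190999) (c (l 160222413367) (a (l 191360925543) (l 148948124679)))) (l 4)) (l 4))) (a (b (c (b (l 16777984) (l 153243094599)) (b (l 100092872183) (c (l 156464319111) (a (l 185455345527) (l 143579415591))))) (l 4)) (b (c (l 16778072) (c (l 16777720) (l 16777440))) (b (c (l 150021869111) (c (l 153243093815) (a (l 180623507335) (l 138747577399)))) (l 4))))) (l 4)))) (l 4)), by decide +kernel⟩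

def k40_pm_213 : ∃ t, chk3 f_pm_213 t 57 504 1 = true :=
  ⟨(a (a (b (b (c (l 16778560) (l 16778136)) (a (c (a (b (l 16777984) (l 147337514695)) (l 16778072)) (a (b (l 16777504) (c (l 150021868343) (a (l 176865410967) (l 134452610119)))) (l 16777608))) (c (l 16778360) (l 16777928)))) (a (a (l 4) (b (b (c (l 144653160135) (c (l 147874384695) (a (l 173644186743) (l 130694513671)))) (l 4)) (l 4))) (a (b (c (b (l 16777984) (c (l 141968805431) (l 143042546999))) (b (l 16777520) (c (l 145726901047) (a (l 170959832231) (l 128010159127))))) (l 4)) (b (c (l 16778072) (l 16777624)) (b (c (c (l 140358192679) (l 141431934247)) (c (l 144116288311) (a (l 168812348631) (l 125862675495)))) (l 4)))))) (c (b (l 16779184) (a (b (l 16778360) (a (b (l 16777976) (c (l 139284450823) (l 141431934231))) (l 16778064))) (l 16778552))) (b (l 16778848) (b (l 16778168) (a (a (b (l 16777528) (c (l 143579417399) (a (l 167201735991) (l 124252062775)))) (l 16777632)) (l 16777952)))))) (a (b (l 16785160) (c (l 16779160) (l 16778856)))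 (b (l 16780784) (l 16785120)))), by decide +kernel⟩

def k41_pm_213 : ∃ t, chk3 f_pm_213 t 57 505 1 = true :=
  ⟨(a (b (a (l 4) (b (a (c (b (a (l 205319570823) (c (l 138747579895) (l 140895063319))) (l 211225151175)) (b (a (l 213372633287) (c (l 143042546487) (a (l 166664865175) (l 123178320951)))) (a (l 4) (l 213909504215)))) (c (b (l 16778056) (a (c (l 138747579879) (l 139821321479)) (l 16777952))) (a (b (l 16777536) (c (l 143042546567) (a (l 166664865175) (l 123178320967)))) (l 16777632)))) (a (l 4) (a (b (c (l 206930183543) (l 214983246055)) (l 4)) (b (c (c (l 139284450775) (l 140895063207)) (c (l 143579417543) (a (l 167738606999) (l 123715191879)))) (c (l 208540796279) (l 217130729719))))))) (l 4)) (b (c (a (b (l 16778528) (a (b (l 16778032) (a (c (l 140358192567) (l 141968805095)) (l 16777936))) (l 16778312))) (l 16781728)) (a (b (l 16778176) (a (a (b (l 16777528) (c (l 144653159367) (b (l 124252062791) (l 169886090647)))) (l 16777632)) (l 16777944))) (l 16781456))) (a (b (b (a (c (a (l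 211225150839) (c (l 141968805447) (l 143579417975))) (a (l 219815084295) (c (b (l 124788934359) (l 168812349511)) (b (l 126399546599) (l 172570445367))))) (c (l 16778008) (l 16777624))) (a (l 4) (c (a (c (l 144116289063) (l 145726901447)) (l 16777904)) (a (c (b (l 127473288983) (l 172033574983)) (b (l 129083901143) (l 176328541751))) (l 16777512))))) (a (l 4) (b (a (l 4) (c (c (l 146800643767) (l 148948126887)) (c (b (l 131231385431) (l 176865413175)) (b (l 132841997607) (l 181160379943))))) (l 4)))) (b (c (l 16778472) (c (l 16778240) (l 16778040))) (a (c (b (l 16777976) (a (c (l 148411256487) (l 152169352503)) (l 16777872))) (b (l 16777600) (a (c (b (l 134989481879) (l 182234122279)) (b (l 137673835879) (l 186529087415))) (l 16777496)))) (c (l 16778240) (l 16777904))))))), by decide +kernel⟩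

def k42_pm_213 : ∃ t, chk3 f_pm_213 t 28 253 1 = true :=
  ⟨(a (l 4) (b (a (l 4) (b (a (l 4) (b (a (b (a (l 4) (c (c (l 152169353015) (l 157001190695)) (c (b (l 140895061975) (l 188676573207)) (b (l 143579415975) (l 193508409271))))) (l 4)) (c (b (l 16777936) (a (c (l 156464320439) (l 161833029047)) (l 16777832))) (b (c (l 16777680) (l 16777464)) (a (b (c (l 147337513063) (l 150558738055)) (l 201024604903)) (l 100629743383))))) (a (l 4) (b (a (l 4) (c (b (l 149484997575) (l 202098344983)) (b (c (l 154853705959) (l 158611801719)) (l 210151407783)))) (l 4))))) (l 4))) (l 4))), by decide +kernel⟩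

def k43_pm_213 : ∃ t, chk3 f_pm_213 t 29 126 1 = true :=
  ⟨(b (a (b (a (c (l 16781584) (l 16781568)) (l 16783176)) (a (b (c (l 16780272) (l 16785384)) (a (c (l 16781648) (c (l 16778848) (l 16778688))) (l 16784952))) (c (l 16781312) (l 16786576)))) (b (a (l 16784704) (l 16786184)) (l 6))) (a (b (a (b (a (b (c (l 16779696) (c (l 16778168) (l 16777984))) (a (c (b (c (l 16777960) (l 16777816)) (a (b (l 157001190487) (l 212298892375)) (l 110293421271))) (b (c (l 97945389351) (l 99019130679)) (a (b (c (l 163443640535) (l 167738607367)) (l 221425696919)) (c (l 112977774663) (l 114051515991))))) (c (l 16778144) (l 16777832)))) (b (c (l 16779128) (l 16778912)) (c (l 16778688) (l 16778440)))) (a (b (a (b (a (l 4) (b (c (l 168275479623) (c (l 174181058583) (l 178476025751))) (l 4))) (l 4)) (c (b (c (l 104387841815) (l 106535325175)) (a (b (l 179012897831) (l 4)) (c (l 122641452295) (l 125862677639)))) (a (b (c (l 120493967559) (c (l 121567709079) (l 122104579607))) (b (a (l 4) (l 167738607447)) (l 4)))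 (b (l 16777592) (a (b (l 16777400) (l 176865412759)) (l 16777432)))))) (a (l 4) (b (a (l 4) (c (l 220351956071) (b (a (l 4) (l 185992218263)) (l 4)))) (l 4)))) (b (c (c (l 16778312) (l 16778200)) (c (l 16778056) (l 16777888))) (a (b (c (a (c (l 131231387015) (l 134452612199)) (l 16777856)) (a (a (b (l 16777376) (l 195655894663)) (l 111904032423)) (l 16777544))) (b (a (c (l 210151408631) (l 219278213271)) (c (l 115662129767) (l 119957096231))) (a (l 4) (l 6)))) (l 6))))) (b (b (l 16785424) (l 6)) (l 6))) (a (b (a (l 4) (a (a (l 4) (l 6)) (l 6))) (l 4)) (l 6))) (l 6))), by decide +kernel⟩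

def k44_pm_213 : ∃ t, chk3 f_pm_213 t 15 126 1 = true :=
  ⟨(b (a (a (b (a (a (l 16776768) (l 16787944)) (l 16788968)) (l 6)) (l 16788456)) (b (a (l 16792760) (l 16793824)) (l 6))) (l 6)), by decide +kernel⟩

def k45_pm_213 : ∃ t, chk3 f_pm_213 t 7 127 1 = true :=
  ⟨(a (a (l 4) (a (a (l 4) (l 6)) (l 6))) (l 6)), by decide +kernel⟩

theorem s46_pm_213 : ∃ t, chk3 f_pm_213 t 57 252 1 = true := ex3_b k40_pm_213 k41_pm_213

theorem s47_pm_213 : ∃ t, chk3 f_pm_213 t 28 252 1 = true := ex3_a k39_pm_213 s46_pm_213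

theorem s48_pm_213 : ∃ t, chk3 f_pm_213 t 28 126 1 = true := ex3_b s47_pm_213 k42_pm_213

theorem s49_pm_213 : ∃ t, chk3 f_pm_213 t 14 126 1 = true := ex3_a s48_pm_213 k43_pm_213

theorem s50_pm_213 : ∃ t, chk3 f_pm_213 t 7 126 1 = true := ex3_a s49_pm_213 k44_pm_213

theorem s51_pm_213 : ∃ t, chk3 f_pm_213 t 7 63 1 = true := ex3_b s50_pm_213 k45_pm_213

theorem s52_pm_213 : ∃ t, chk3 f_pm_213 t 3 63 1 = true := ex3_a k38_pm_213 s51_pm_213

theorem s53_pm_213 : ∃ t, chk3 f_pm_213 t 56 251 1 = true := ex3_b k33_pm_213 k34_pm_213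

theorem s54_pm_213 : ∃ t, chk3 f_pm_213 t 28 251 1 = true := ex3_a s53_pm_213 k35_pm_213

theorem s55_pm_213 : ∃ t, chk3 f_pm_213 t 28 125 1 = true := ex3_b k32_pm_213 s54_pm_213

theorem s56_pm_213 : ∃ t, chk3 f_pm_213 t 28 62 1 = true := ex3_b k31_pm_213 s55_pm_213

theorem s57_pm_213 : ∃ t, chk3 f_pm_213 t 14 62 1 = true := ex3_a s56_pm_213 k36_pm_213

theorem s58_pm_213 : ∃ t, chk3 f_pm_213 t 7 62 1 = true := ex3_a s57_pm_213 k37_pm_213

theorem s59_pm_213 : ∃ t, chk3 f_pm_213 t 55 250 1 = true := ex3_a k28_pm_213 k29_pm_213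

theorem s60_pm_213 : ∃ t, chk3 f_pm_213 t 27 250 1 = true := ex3_a k27_pm_213 s59_pm_213

theorem s61_pm_213 : ∃ t, chk3 f_pm_213 t 27 125 1 = true := ex3_b s60_pm_213 k30_pm_213

theorem s62_pm_213 : ∃ t, chk3 f_pm_213 t 54 124 1 = true := ex3_b k24_pm_213 k25_pm_213

theorem s63_pm_213 : ∃ t, chk3 f_pm_213 t 27 124 1 = true := ex3_a s62_pm_213 k26_pm_213

theorem s64_pm_213 : ∃ t, chk3 f_pm_213 t 27 62 1 = true := ex3_b s63_pm_213 s61_pm_213

theorem s65_pm_213 : ∃ t, chk3 f_pm_213 t 13 62 1 = true := ex3_a k23_pm_213 s64_pm_213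

theorem s66_pm_213 : ∃ t, chk3 f_pm_213 t 6 62 1 = true := ex3_a k22_pm_213 s65_pm_213

theorem s67_pm_213 : ∃ t, chk3 f_pm_213 t 3 62 1 = true := ex3_a s66_pm_213 s58_pm_213

theorem s68_pm_213 : ∃ t, chk3 f_pm_213 t 3 31 1 = true := ex3_b s67_pm_213 s52_pm_213

theorem s69_pm_213 : ∃ t, chk3 f_pm_213 t 26 123 1 = true := ex3_a k18_pm_213 k19_pm_213

theorem s70_pm_213 : ∃ t, chk3 f_pm_213 t 26 61 1 = true := ex3_b k17_pm_213 s69_pm_213

theorem s71_pm_213 : ∃ t, chk3 f_pm_213 t 13 61 1 = true := ex3_a s70_pm_213 k20_pm_213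

theorem s72_pm_213 : ∃ t, chk3 f_pm_213 t 13 30 1 = true := ex3_b k16_pm_213 s71_pm_213

theorem s73_pm_213 : ∃ t, chk3 f_pm_213 t 12 30 1 = true := ex3_b k14_pm_213 k15_pm_213

theorem s74_pm_213 : ∃ t, chk3 f_pm_213 t 6 30 1 = true := ex3_a s73_pm_213 s72_pm_213

theorem s75_pm_213 : ∃ t, chk3 f_pm_213 t 3 30 1 = true := ex3_a s74_pm_213 k21_pm_213

theorem s76_pm_213 : ∃ t, chk3 f_pm_213 t 3 15 1 = true := ex3_b s75_pm_213 s68_pm_213

theorem s77_pm_213 : ∃ t, chk3 f_pm_213 t 3 7 1 = true := ex3_b k13_pm_213 s76_pm_213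

theorem s78_pm_213 : ∃ t, chk3 f_pm_213 t 3 3 1 = true := ex3_b k12_pm_213 s77_pm_213

theorem s79_pm_213 : ∃ t, chk3 f_pm_213 t 31 8 1 = true := ex3_b k8_pm_213 k9_pm_213

theorem s80_pm_213 : ∃ t, chk3 f_pm_213 t 15 8 1 = true := ex3_a k7_pm_213 s79_pm_213

theorem s81_pm_213 : ∃ t, chk3 f_pm_213 t 7 8 1 = true := ex3_a k6_pm_213 s80_pm_213

theorem s82_pm_213 : ∃ t, chk3 f_pm_213 t 7 4 1 = true := ex3_b s81_pm_213 k10_pm_213

theorem s83_pm_213 : ∃ t, chk3 f_pm_213 t 3 4 1 = true := ex3_a k5_pm_213 s82_pm_213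

theorem s84_pm_213 : ∃ t, chk3 f_pm_213 t 3 2 1 = true := ex3_b s83_pm_213 k11_pm_213

theorem s85_pm_213 : ∃ t, chk3 f_pm_213 t 3 1 1 = true := ex3_b s84_pm_213 s78_pm_213

theorem s86_pm_213 : ∃ t, chk3 f_pm_213 t 2 14 1 = true := ex3_a k2_pm_213 k3_pm_213

theorem s87_pm_213 : ∃ t, chk3 f_pm_213 t 2 7 1 = true := ex3_b s86_pm_213 k4_pm_213

theorem s88_pm_213 : ∃ t, chk3 f_pm_213 t 2 3 1 = true := ex3_b k1_pm_213 s87_pm_213

theorem s89_pm_213 : ∃ t, chk3 f_pm_213 t 2 1 1 = true := ex3_b k0_pm_213 s88_pm_213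

theorem s90_pm_213 : ∃ t, chk3 f_pm_213 t 1 1 1 = true := ex3_a s89_pm_213 s85_pm_213

theorem c_pm_213 : CertN 0 536870912 536870912 536870912 469762048 67108864 3 true true false .pnn 2 1 3
    ndN0q2 ndN0q1 pcN3 cut_pm_213 Ext.none :=
  certN1 (fam := true) (s1 := true) (s2 := false) (a := 2) (b := 1) (c := 3) (cn := .pnn) (n1 := ndN0q2) (n2 := ndN0q1) (pc := pcN3) (cut := cut_pm_213) (xt := Ext.none) (P1 := 0) (W1 := 536870912) (P2 := 536870912) (W2 := 536870912) (P3 := 469762048) (W3 := 67108864) (N0 := 3)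
    rfl (fun _ => rfl) s90_pm_213

noncomputable def f_mm_001 : ℕ → ℕ → ℕ → ℕ → Bool := onCell 0 536870912 0 536870912 469762048 67108864
    (rowN 3 0 true false false .up 0 0 1 (qsf 0 536870912 0 536870912 1) ndN0q0 ndN0q0 pcN1 Cut.none Ext.none)

def k0_mm_001 : ∃ t, chk3 f_mm_001 t 1 1 1 = true :=
  ⟨(l 4), by decide +kernel⟩

theorem c_mm_001 : CertN 0 536870912 0 536870912 469762048 67108864 3 true false false .up 0 0 1
    ndN0q0 ndN0q0 pcN1 Cut.none Ext.none :=
  certN0 (fam := true) (s1 := false) (s2 := false) (a := 0) (b := 0) (c := 1) (cn := .up) (n1 := ndN0q0) (n2 := ndN0q0) (pc := pcN1) (cut := Cut.none) (xt := Ext.none) (P1 := 0) (W1 := 536870912) (P2 := 0) (W2 := 536870912) (P3 := 469762048) (W3 := 67108864) (N0 := 3)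
    rfl k0_mm_001

noncomputable def f_mm_011 : ℕ → ℕ → ℕ → ℕ → Bool := onCell 0 536870912 536870912 536870912 469762048 67108864
    (rowN 3 0 true false false .pnn 0 1 1 (qsf 0 536870912 536870912 536870912 1) ndN0q0 ndN0q1 pcN1 Cut.none Ext.none)

def k0_mm_011 : ∃ t, chk3 f_mm_011 t 1 1 1 = true :=
  ⟨(a (l 5) (l 4)), by decide +kernel⟩

theorem c_mm_011 : CertN 0 536870912 536870912 536870912 469762048 67108864 3 true false false .pnn 0 1 1
    ndN0q0 ndN0q1 pcN1 Cut.none Ext.none :=
  certN0 (fam := true) (s1 := false) (s2 := false) (a := 0) (b := 1) (c := 1) (cn := .pnn) (n1 := ndN0q0) (n2 := ndN0q1) (pc := pcN1) (cut := Cut.none) (xt := Ext.none) (P1 := 0) (W1 := 536870912) (P2 := 536870912) (W2 := 536870912) (P3 := 469762048) (W3 := 67108864) (N0 := 3)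
    rfl k0_mm_011

noncomputable def f_mm_012 : ℕ → ℕ → ℕ → ℕ → Bool := onCell 0 536870912 536870912 536870912 469762048 67108864
    (rowN 3 0 true false false .pnp 0 1 2 (qsf 0 536870912 536870912 536870912 2) ndN0q0 ndN0q1 pcN2 Cut.none Ext.none)

def k0_mm_012 : ∃ t, chk3 f_mm_012 t 1 1 1 = true :=
  ⟨(b (l 4) (l 5)), by decide +kernel⟩

theorem c_mm_012 : CertN 0 536870912 536870912 536870912 469762048 67108864 3 true false false .pnp 0 1 2
    ndN0q0 ndN0q1 pcN2 Cut.none Ext.none :=
  certN0 (fam := true) (s1 := false) (s2 := false) (a := 0) (b := 1) (c := 2) (cn := .pnp) (n1 := ndN0q0) (n2 := ndN0q1) (pc := pcN2) (cut := Cut.none) (xt := Ext.none) (P1 := 0) (W1 := 536870912) (P2 := 536870912) (W2 := 536870912) (P3 := 469762048) (W3 := 67108864) (N0 := 3)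
    rfl k0_mm_012

noncomputable def f_mm_022 : ℕ → ℕ → ℕ → ℕ → Bool := onCell 0 536870912 0 536870912 469762048 67108864
    (rowN 3 0 true false false .pp 0 2 2 (qsf 0 536870912 0 536870912 2) ndN0q0 ndN0q2 pcN2 Cut.none Ext.none)

def k0_mm_022 : ∃ t, chk3 f_mm_022 t 1 1 1 = true :=
  ⟨(l 5), by decide +kernel⟩

theorem c_mm_022 : CertN 0 536870912 0 536870912 469762048 67108864 3 true false false .pp 0 2 2
    ndN0q0 ndN0q2 pcN2 Cut.none Ext.none :=
  certN0 (fam := true) (s1 := false) (s2 := false) (a := 0) (b := 2) (c := 2) (cn := .pp) (n1 := ndN0q0) (n2 := ndN0q2) (pc := pcN2) (cut := Cut.none) (xt := Ext.none) (P1 := 0) (W1 := 536870912) (P2 := 0) (W2 := 536870912) (P3 := 469762048) (W3 := 67108864) (N0 := 3)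
    rfl k0_mm_022

noncomputable def f_mm_023 : ℕ → ℕ → ℕ → ℕ → Bool := onCell 0 536870912 0 536870912 469762048 67108864
    (rowN 3 0 true false false .up 0 2 3 (qsf 0 536870912 0 536870912 3) ndN0q0 ndN0q2 pcN3 Cut.none Ext.none)

def k0_mm_023 : ∃ t, chk3 f_mm_023 t 1 1 1 = true :=
  ⟨(l 5), by decide +kernel⟩

theorem c_mm_023 : CertN 0 536870912 0 536870912 469762048 67108864 3 true false false .up 0 2 3
    ndN0q0 ndN0q2 pcN3 Cut.none Ext.none :=
  certN0 (fam := true) (s1 := false) (s2 := false) (a := 0) (b := 2) (c := 3) (cn := .up) (n1 := ndN0q0) (n2 := ndN0q2) (pc := pcN3) (cut := Cut.none) (xt := Ext.none) (P1 := 0) (W1 := 536870912) (P2 := 0) (W2 := 536870912) (P3 := 469762048) (W3 := 67108864) (N0 := 3)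
    rfl k0_mm_023

noncomputable def cut_mm_101 : Cut := Cut.of [[⟨0, 1, 0, 67108864⟩, ⟨1, 0, 0, 67108864⟩, ⟨2, 1, 0, 67108864⟩]]

noncomputable def f_mm_101 : ℕ → ℕ → ℕ → ℕ → Bool := onCell 536870912 536870912 0 536870912 469762048 67108864
    (rowN 3 0 true false false .npn 1 0 1 (qsf 536870912 536870912 0 536870912 1) ndN0q1 ndN0q0 pcN1 cut_mm_101 Ext.none)

def k0_mm_101 : ∃ t, chk3 f_mm_101 t 1 1 1 = true :=
  ⟨(a (l 4) (b (a (l 4) (b (a (l 4) (b (a (l 4) (b (l 6) (l 4))) (l 4))) (l 4))) (l 4))), by decide +kernel⟩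

theorem c_mm_101 : CertN 536870912 536870912 0 536870912 469762048 67108864 3 true false false .npn 1 0 1
    ndN0q1 ndN0q0 pcN1 cut_mm_101 Ext.none :=
  certN0 (fam := true) (s1 := false) (s2 := false) (a := 1) (b := 0) (c := 1) (cn := .npn) (n1 := ndN0q1) (n2 := ndN0q0) (pc := pcN1) (cut := cut_mm_101) (xt := Ext.none) (P1 := 536870912) (W1 := 536870912) (P2 := 0) (W2 := 536870912) (P3 := 469762048) (W3 := 67108864) (N0 := 3)
    rfl k0_mm_101

noncomputable def cut_mm_102 : Cut := Cut.of [[⟨0, 1, 0, 67108864⟩, ⟨1, 0, 0, 67108864⟩, ⟨2, 1, 0, 67108864⟩]]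

noncomputable def f_mm_102 : ℕ → ℕ → ℕ → ℕ → Bool := onCell 536870912 536870912 0 536870912 469762048 67108864
    (rowN 3 0 true false false .npp 1 0 2 (qsf 536870912 536870912 0 536870912 2) ndN0q1 ndN0q0 pcN2 cut_mm_102 Ext.none)

def k0_mm_102 : ∃ t, chk3 f_mm_102 t 1 1 1 = true :=
  ⟨(a (l 4) (b (a (l 4) (b (a (l 4) (b (a (l 4) (b (l 6) (l 4))) (l 4))) (l 4))) (l 4))), by decide +kernel⟩

theorem c_mm_102 : CertN 536870912 536870912 0 536870912 469762048 67108864 3 true false false .npp 1 0 2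
    ndN0q1 ndN0q0 pcN2 cut_mm_102 Ext.none :=
  certN0 (fam := true) (s1 := false) (s2 := false) (a := 1) (b := 0) (c := 2) (cn := .npp) (n1 := ndN0q1) (n2 := ndN0q0) (pc := pcN2) (cut := cut_mm_102) (xt := Ext.none) (P1 := 536870912) (W1 := 536870912) (P2 := 0) (W2 := 536870912) (P3 := 469762048) (W3 := 67108864) (N0 := 3)
    rfl k0_mm_102

noncomputable def f_mm_112 : ℕ → ℕ → ℕ → ℕ → Bool := onCell 536870912 536870912 536870912 536870912 469762048 67108864
    (rowN 3 0 true false false .dn 1 1 2 (qsf 536870912 536870912 536870912 536870912 2) ndN0q1 ndN0q1 pcN2 Cut.none Ext.none)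

def k0_mm_112 : ∃ t, chk3 f_mm_112 t 1 1 1 = true :=
  ⟨(l 4), by decide +kernel⟩

theorem c_mm_112 : CertN 536870912 536870912 536870912 536870912 469762048 67108864 3 true false false .dn 1 1 2
    ndN0q1 ndN0q1 pcN2 Cut.none Ext.none :=
  certN0 (fam := true) (s1 := false) (s2 := false) (a := 1) (b := 1) (c := 2) (cn := .dn) (n1 := ndN0q1) (n2 := ndN0q1) (pc := pcN2) (cut := Cut.none) (xt := Ext.none) (P1 := 536870912) (W1 := 536870912) (P2 := 536870912) (W2 := 536870912) (P3 := 469762048) (W3 := 67108864) (N0 := 3)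
    rfl k0_mm_112

noncomputable def f_mm_113 : ℕ → ℕ → ℕ → ℕ → Bool := onCell 536870912 536870912 536870912 536870912 469762048 67108864
    (rowN 3 0 true false false .nn 1 1 3 (qsf 536870912 536870912 536870912 536870912 3) ndN0q1 ndN0q1 pcN3 Cut.none Ext.none)

def k0_mm_113 : ∃ t, chk3 f_mm_113 t 1 1 1 = true :=
  ⟨(l 4), by decide +kernel⟩

theorem c_mm_113 : CertN 536870912 536870912 536870912 536870912 469762048 67108864 3 true false false .nn 1 1 3
    ndN0q1 ndN0q1 pcN3 Cut.none Ext.none :=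
  certN0 (fam := true) (s1 := false) (s2 := false) (a := 1) (b := 1) (c := 3) (cn := .nn) (n1 := ndN0q1) (n2 := ndN0q1) (pc := pcN3) (cut := Cut.none) (xt := Ext.none) (P1 := 536870912) (W1 := 536870912) (P2 := 536870912) (W2 := 536870912) (P3 := 469762048) (W3 := 67108864) (N0 := 3)
    rfl k0_mm_113

noncomputable def f_mm_123 : ℕ → ℕ → ℕ → ℕ → Bool := onCell 536870912 536870912 0 536870912 469762048 67108864
    (rowN 3 0 true false false .npn 1 2 3 (qsf 536870912 536870912 0 536870912 3) ndN0q1 ndN0q2 pcN3 Cut.none Ext.none)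

def k0_mm_123 : ∃ t, chk3 f_mm_123 t 1 1 1 = true :=
  ⟨(a (l 5) (l 4)), by decide +kernel⟩

theorem c_mm_123 : CertN 536870912 536870912 0 536870912 469762048 67108864 3 true false false .npn 1 2 3
    ndN0q1 ndN0q2 pcN3 Cut.none Ext.none :=
  certN0 (fam := true) (s1 := false) (s2 := false) (a := 1) (b := 2) (c := 3) (cn := .npn) (n1 := ndN0q1) (n2 := ndN0q2) (pc := pcN3) (cut := Cut.none) (xt := Ext.none) (P1 := 536870912) (W1 := 536870912) (P2 := 0) (W2 := 536870912) (P3 := 469762048) (W3 := 67108864) (N0 := 3)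
    rfl k0_mm_123

end Pool.Agent.Strip051.G.I7_16_1_2.Tab.C.NA00

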