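import Pool.Agent.Strip051.G.I7_16_1_2.Tab

/-! # Certificates N6 (generated) -/

set_option linter.all false
set_option maxRecDepth 100000

namespace Pool.Agent.Strip051.G.I7_16_1_2.Tab.C.NA00

open Pool.Agent.Strip051.PB Pool.Agent.Strip051.PB.T
open Pool.Agent.Strip051.G.I7_16_1_2.Tab

noncomputable def cut_mm_202 : Cut := Cut.of [[⟨0, 1, 0, 67108864⟩, ⟨1, 0, 0, 67108864⟩, ⟨2, 1, 0, 67108864⟩]]

noncomputable def f_mm_202 : ℕ → ℕ → ℕ → ℕ → Bool := onCell 0 536870912 0 536870912 469762048 67108864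
    (rowN 3 0 true false false .pp 2 0 2 (qsf 0 536870912 0 536870912 2) ndN0q2 ndN0q0 pcN2 cut_mm_202 Ext.none)

def k0_mm_202 : ∃ t, chk3 f_mm_202 t 2 2 1 = true :=
  ⟨(b (a (b (a (b (b (l 16511432) (l 16470920)) (l 16472936)) (b (b (l 16476256) (l 16480992)) (l 16529496))) (a (b (l 16474792) (l 16475088)) (b (l 16537280) (l 16481152)))) (b (b (a (b (a (l 16489768) (l 16502672)) (l 16546000)) (b (a (l 16517568) (l 16576064)) (a (l 16527344) (l 16545120)))) (a (b (l 16532456) (l 16539664)) (b (a (l 16536912) (l 16555928)) (a (l 16546304) (l 16566568))))) (a (b (b (l 16546696) (l 16553560)) (a (l 16530864) (l 16574888))) (a (b (l 16602024) (l 16620104)) (b (b (l 16577064) (l 16587456)) (b (l 16597776) (l 16608072))))))) (a (b (a (l 16572096) (b (l 16508008) (l 16534056))) (a (a (l 16597456) (l 16608744)) (b (l 16552376) (l 16583688)))) (b (a (b (a (l 16542208) (l 16568752)) (l 16652608)) (b (a (l 16638072) (c (l 16668488) (l 16662424))) (a (l 16656288) (b (l 16660176) (l 16670824))))) (a (b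 (l 16644952) (l 16684280)) (b (a (l 16675216) (c (l 16721096) (l 16716352))) (a (l 16695504) (b (l 16725528) (l 16737696)))))))), by decide +kernel⟩

def k1_mm_202 : ∃ t, chk3 f_mm_202 t 4 6 1 = true :=
  ⟨(b (a (b (l 16590976) (l 16626032)) (b (l 16658008) (l 16690112))) (a (b (l 16661048) (l 16704488)) (b (c (l 16704328) (l 16700216)) (a (l 16693320) (l 16734840))))), by decide +kernel⟩

def k2_mm_202 : ∃ t, chk3 f_mm_202 t 5 6 1 = true :=
  ⟨(b (a (b (a (l 16641768) (l 16684640)) (a (l 16693504) (b (l 16686576) (l 16701168)))) (b (a (b (l 16691312) (l 16724376)) (b (l 16758384) (b (l 16760704) (l 16767752)))) (a (b (l 16737440) (c (l 16755408) (l 16752208))) (a (b (l 16747888) (c (l 16766608) (l 16760112))) (b (c (l 16770472) (l 16764776)) (b (a (l 16774400) (l 16783944)) (a (l 16782344) (c (c (l 16784552) (l 16792736)) (l 16789304))))))))) (a (b (a (l 16737712) (b (l 16735856) (l 16748752))) (a (b (l 16707040) (l 16725856)) (b (c (l 16774624) (l 16765680)) (b (l 16781312) (l 2))))) (b (a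 (b (c (l 16771816) (l 16766400)) (a (l 16773640) (a (l 16791440) (b (l 16777048) (l 16785800))))) (b (a (b (l 16786096) (a (l 16778904) (c (l 16791496) (l 16786000)))) (a (b (c (l 16792704) (l 16787672)) (a (c (l 30299677079) (l 16782960)) (c (b (l 44795185959) (l 4)) (l 58753807607)))) (b (c (a (b (l 16775808) (l 49090150663)) (b (l 66270003255) (l 4))) (a (l 27615300423) (l 72175582359))) (l 4)))) (a (a (b (b (l 16785256) (l 16789360)) (c (b (l 16795704) (l 42110834391)) (l 22246610919))) (b (b (c (l 16786216) (l 16781864)) (a (l 36742129015) (l 4))) (l 4))) (l 4)))) (a (a (b (b (l 16766976) (l 16787272)) (a (b (l 16780760) (l 37144790423)) (b (b (l 16789352) (l 16793544)) (a (c (l 43721450807) (l 16784264)) (l 4))))) (b (a (b (l 16784208) (c (l 16790216) (l 16790064))) (b (c (l 29225937911) (l 16791584)) (c (a (l 53921986215) (l 4)) (l 67880613783)))) (a (b (c (a (l 47479545655) (l 4)) (l 58753805847)) (l 4)) (l 4)))) (b (a (a (b (c (a (l 65733137095) (l 4)) (l 77544293559)) (l 4)) (l 4))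 (l 4)) (l 4)))))), by decide +kernel⟩

def k3_mm_202 : ∃ t, chk3 f_mm_202 t 2 7 1 = true :=
  ⟨(a (l 2) (a (l 2) (a (l 2) (l 4)))), by decide +kernel⟩

def k4_mm_202 : ∃ t, chk3 f_mm_202 t 6 8 1 = true :=
  ⟨(a (b (b (a (b (l 16549632) (l 16555728)) (b (a (l 16564744) (l 16575712)) (a (l 16571224) (l 16582424)))) (a (a (l 16559552) (l 16569888)) (a (l 16580824) (a (l 16589408) (l 16595336))))) (a (b (a (l 16571192) (l 16582048)) (l 16609376)) (a (b (l 16593472) (l 16605944)) (b (l 16605480) (l 16618408))))) (b (a (b (b (a (l 16587352) (c (l 16604608) (l 16594720))) (a (l 16594280) (l 16606824))) (b (a (l 16601160) (l 16613904)) (a (l 16607976) (l 16620928)))) (b (b (a (c (l 16617352) (l 16608112)) (c (b (l 16628992) (l 16632664)) (b (l 16620368) (l 16624248)))) (a (c (l 16624480) (l 16615656)) (c (l 16638136) (l 16651000)))) (b (a (c (l 16631552) (l 16623136)) (c (l 16645384) (l 16637688))) (a (c (l 16638568) (l 16630552)) (c (l 16652568) (l 16645280)))))) (a (b (b (a (l 16614744) (l 16627896))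 (a (l 16621464) (l 16634816))) (b (a (l 16628144) (l 16641688)) (a (l 16634776) (l 16648520)))) (b (a (b (l 16662696) (l 16648832)) (b (c (l 16659704) (l 16652808)) (c (l 16666784) (l 16660288)))) (a (b (l 16655888) (l 16662896)) (b (c (l 16673808) (l 16667704)) (c (l 16680792) (l 16675072)))))))), by decide +kernel⟩

def k5_mm_202 : ∃ t, chk3 f_mm_202 t 6 9 1 = true :=
  ⟨(a (b (a (b (l 16620976) (l 16632472)) (b (a (l 16618272) (l 16631184)) (c (l 16661736) (l 16654616)))) (a (b (l 16643896) (l 16655288)) (a (b (l 16642648) (l 16654760)) (b (l 16656440) (l 16668984))))) (b (b (b (a (a (l 16641376) (l 16655312)) (a (l 16669864) (c (l 16687736) (l 16682384)))) (a (a (l 16647944) (l 16662072)) (a (l 16676792) (c (l 16694640) (l 16689656))))) (a (a (l 16678696) (b (l 16668792) (l 16675488))) (b (a (l 16683688) (c (l 16701512) (l 16696888))) (a (l 16711520) (b (l 16725424) (l 16728920)))))) (a (b (a (l 16691680) (b (l 16682160) (l 16688824))) (a (l 16704616) (c (l 16722048) (l 16717480)))) (b (a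 (b (l 16718360) (l 16725176)) (a (c (l 16735592) (l 16731616)) (b (l 16717200) (l 16745160)))) (a (c (b (l 16713064) (l 16719704)) (b (l 16709000) (l 16715944))) (a (b (l 16722984) (l 16750840)) (b (l 16741640) (a (l 16736032) (l 16761152))))))))), by decide +kernel⟩

def k6_mm_202 : ∃ t, chk3 f_mm_202 t 14 16 1 = true :=
  ⟨(b (a (b (a (c (b (l 16643184) (l 16646944)) (b (l 16635352) (l 16639312))) (b (a (l 16650744) (a (l 16656664) (l 6))) (a (l 16654664) (l 16662632)))) (a (c (a (l 16648840) (l 16656232)) (a (l 16641312) (l 16649128))) (c (b (l 16665840) (l 16669640)) (b (l 16669768) (l 16673776))))) (b (a (a (a (b (l 6) (l 16668760)) (l 6)) (l 6)) (l 6)) (a (c (b (a (l 16677736) (l 16685960)) (a (l 16681584) (l 16689840))) (b (a (l 16671864) (l 16680576)) (a (l 16675928) (l 16684664)))) (a (b (l 6) (c (l 16698320) (l 16693648))) (l 6))))) (a (a (a (b (c (l 16656208) (l 16649096)) (l 16660168)) (b (c (l 16663680) (l 16656984)) (c (l 16671064) (l 16664784)))) (b (c (a (l 16671352) (l 16679232))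 (b (l 16677768) (l 16681736))) (c (a (l 16678808) (l 16686752)) (a (l 16672960) (l 16681360))))) (a (b (a (b (a (l 16680592) (l 16684800)) (l 16691848)) (c (b (l 16693696) (l 16697536)) (b (l 16688744) (l 16692792)))) (a (b (l 16700992) (l 16704872)) (c (b (l 16701368) (l 16705168)) (b (l 16696832) (l 16700848))))) (b (a (c (b (l 16702208) (l 16706080)) (b (l 16697752) (l 16701840))) (b (l 6) (c (l 16714856) (l 16716376)))) (a (c (b (l 16709936) (l 16713768)) (b (l 16705904) (l 16709952))) (c (b (l 16729216) (l 16733080)) (b (l 16720472) (l 16724544)))))))), by decide +kernel⟩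

def k7_mm_202 : ∃ t, chk3 f_mm_202 t 14 17 1 = true :=
  ⟨(a (c (b (a (b (l 16695552) (l 16681816)) (b (a (l 16686200) (l 16694216)) (a (l 16693536) (l 16701608)))) (a (b (l 16688992) (l 16717088)) (b (a (l 16700816) (l 16708952)) (a (l 16708040) (l 16716240))))) (b (a (b (a (l 16664464) (l 16672512)) (l 16686608)) (b (a (l 16680768) (l 16689232)) (a (l 16688504) (l 16697040)))) (a (b (l 16694184) (l 16701696)) (b (a (l 16696184) (l 16704784)) (a (l 16703800) (l 16712464)))))) (b (c (a (b (a (l 16702424) (b (l 16708960) (l 16712736))) (a (l 16709880) (b (l 16716488) (l 16720232)))) (b (a (b (l 16717584) (l 16721384)) (b (l 16731680) (l 16735504))) (a (b (l 16725168) (l 16728936)) (b (l 16739304) (a (l 16735600) (l 16740112)))))) (a (b (a (l 16708408) (b (l 16704848) (l 16708832))) (a (l 16716280) (b (l 16712792) (l 16716744)))) (b (a (b (l 16713984) (l 16717992)) (b (l 16728600) (l 16733952))) (a (b (l 16721984) (l 16725960)) (b (a (l 16729024) (l 16733800)) (a (l 16733024) (l 16737808)))))))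 (b (a (a (c (l 16717280) (l 16724080)) (c (b (l 16723960) (l 16727672)) (b (l 16720672) (l 16724584)))) (a (c (b (l 16732688) (l 16736416)) (b (l 16729920) (l 16744344))) (c (b (a (l 16739368) (l 16743888)) (c (l 16751136) (l 16750120))) (b (c (l 16739952) (l 16744088)) (c (l 16749112) (l 16748104)))))) (a (a (c (l 16735104) (l 16731824)) (c (c (l 16744392) (l 16742992)) (b (l 16728488) (l 16732368)))) (a (c (b (l 16750624) (l 16749088)) (b (l 16743024) (l 16746936))) (a (c (b (l 16746848) (l 16750568)) (b (l 16744896) (l 16748824))) (c (b (l 16751400) (l 16760368)) (b (l 16749720) (l 16758904))))))))), by decide +kernel⟩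

def k8_mm_202 : ∃ t, chk3 f_mm_202 t 15 16 1 = true :=
  ⟨(a (b (l 6) (a (b (l 6) (a (c (b (a (l 16725472) (l 16730056)) (c (l 16737576) (l 16736208))) (b (c (l 16730784) (l 16729296)) (c (l 16734832) (l 16733456)))) (b (l 6) (a (c (l 16738592) (l 16741504)) (a (b (l 6) (l 16747304)) (l 6)))))) (l 6))) (l 6)), by decide +kernel⟩

def k9_mm_202 : ∃ t, chk3 f_mm_202 t 60 34 1 = true :=
  ⟨(c (a (a (b (b (l 16733216) (l 16737056)) (b (l 16740880) (l 16744688))) (b (b (l 16737816) (l 16741664)) (b (l 16745504) (l 16754560)))) (b (b (a (l 16747720) (c (l 16747648) (l 16746736))) (a (l 16751576) (c (l 16751472) (l 16750664)))) (a (b (l 16754112) (c (l 16754376) (l 16753640))) (b (c (l 16760512) (l 16759816)) (b (l 16763040) (l 16762336)))))) (a (b (b (c (l 16738864) (l 16737592)) (c (l 16742872) (l 16741912))) (b (a (l 16738640) (l 16748784)) (a (l 16742656) (l 16752808)))) (b (b (a (l 16745600) (c (l 16745824) (l 16744904))) (a (l 16749680) (c (l 16749856) (l 16749056)))) (a (b (c (l 16748920) (l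 16748080)) (c (l 16752904) (l 16752176))) (b (c (l 16759120) (l 16755800)) (b (l 16761808) (l 16761208))))))), by decide +kernel⟩

def k10_mm_202 : ∃ t, chk3 f_mm_202 t 61 68 1 = true :=
  ⟨(a (a (a (b (c (l 16750776) (l 16754400)) (c (l 16757280) (l 16755880))) (b (c (l 16755800) (l 16754984)) (c (c (l 16757384) (l 16756752)) (c (l 16756128) (l 16755504))))) (b (l 6) (c (c (b (l 16760016) (l 16764552)) (b (l 16759472) (l 16764064))) (c (b (l 16758928) (l 16763576)) (b (l 16758392) (l 16763088)))))) (a (b (l 6) (b (l 6) (c (c (a (l 16765560) (l 16770624)) (a (l 16765184) (l 16770320))) (c (a (l 16764800) (l 16770016)) (a (l 16764432) (l 16769712)))))) (l 6))), by decide +kernel⟩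

def k11_mm_202 : ∃ t, chk3 f_mm_202 t 122 69 1 = true :=
  ⟨(b (c (a (c (b (l 16759056) (l 16760952)) (b (l 16758472) (l 16760424))) (a (b (l 16762400) (l 16766952)) (b (l 16767464) (a (l 16766160) (l 16770016))))) (a (c (b (l 16757888) (l 16759896)) (b (l 16757312) (l 16759376))) (a (b (l 16761456) (l 16766120)) (b (l 16766672) (a (l 16765448) (l 16769368)))))) (c (c (a (b (l 16765472) (l 16767360)) (a (b (l 16766440) (l 16768336)) (b (l 16771472) (l 16772056)))) (a (b (l 16764992) (l 16766936)) (a (b (l 16766072) (l 16768016)) (b (l 16771184) (l 16771816))))) (c (a (b (l 16764520) (l 16766520)) (a (b (l 16765712) (l 16767712)) (b (l 16768272) (l 16771584)))) (a (b (l 16764056) (l 16766112)) (a (b (l 16765360) (l 16767416)) (b (l 16767992) (l 16771368))))))), by decide +kernel⟩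

def k12_mm_202 : ∃ t, chk3 f_mm_202 t 246 138 1 = true :=
  ⟨(c (c (a (b (l 16767472) (l 16770688)) (a (b (l 16769304) (l 16771208)) (b (l 16770528) (l 16773096)))) (a (b (l 16767144) (l 16770416)) (a (b (l 16769032) (l 16770992)) (b (l 16770296) (l 16773568))))) (c (a (b (l 16766824) (l 16770152)) (b (l 16770560) (a (l 16770784) (l 16773392)))) (a (b (l 16766512) (l 16769888)) (b (l 16770320) (a (l 16770584) (l 16773232)))))), by decide +kernel⟩

def k13_mm_202 : ∃ t, chk3 f_mm_202 t 246 139 1 = true :=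
  ⟨(a (a (c (c (b (l 16770672) (l 16773880)) (b (l 16770432) (l 16773696))) (b (c (l 16770208) (l 16769984)) (c (l 16773520) (l 16773352)))) (b (c (c (l 16773200) (l 16773000)) (c (l 16772808) (l 16771312))) (c (c (c (l 16775136) (l 16775064)) (c (l 16774992) (l 16774920))) (c (c (l 16774848) (l 16774784)) (c (l 16774720) (l 16774656)))))) (b (a (c (c (c (l 16774472) (l 16774384)) (c (l 16772992) (l 16772912))) (c (c (l 16772832) (l 16772760)) (c (l 16772688) (l 16772616)))) (b (c (c (l 16773864) (l 16773728)) (c (l 16773592) (l 16773472))) (c (c (l 16775472) (l 16775360)) (c (l 16775256) (l 16775488))))) (c (a (c (b (l 16775848) (c (l 16776168) (l 16776120))) (b (l 16775728) (c (l 16776072) (l 16776680)))) (c (a (b (l 16776768) (c (l 16776752) (l 16776880))) (c (b (l 16776096) (b (l 16777456) (a (a (l 16777040) (b (l 16777072) (l 43721426039))) (a (b (l 16777232) (l 97945388407)) (b (l 68954358967) (l 4)))))) (b (l 16776056) (b (l 16777424) (a (c (l 7751074967) (l 16777744)) (b (a (l 16777208)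 (l 64659391719)) (l 148411253303))))))) (a (b (l 16776672) (l 16776664)) (b (c (l 16777328) (l 16777288)) (b (l 16777384) (c (a (l 16777728) (b (l 38889588055) (l 150558736919))) (a (l 16777704) (b (l 38352717063) (l 148948124167))))))))) (c (b (a (l 16775616) (l 16776264)) (b (a (l 16775056) (l 16777016)) (a (l 16776864) (a (l 16776536) (a (l 16777680) (b (l 38889588183) (l 92039808951))))))) (a (b (l 16775512) (l 16776536)) (b (l 16776192) (c (a (l 16776248) (b (l 16776656) (a (l 16777664) (l 75933680823)))) (a (l 16776224) (b (l 16776640) (a (l 16777648) (l 72712455351))))))))))), by decide +kernel⟩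

def k14_mm_202 : ∃ t, chk3 f_mm_202 t 494 138 1 = true :=
  ⟨(c (a (c (b (l 16773072) (c (l 16774360) (l 16774288))) (b (l 16772872) (c (l 16774216) (l 16774144)))) (b (a (c (l 16773992) (l 16772512)) (l 6)) (b (c (l 16775080) (l 16775616)) (c (c (l 16776056) (l 16776008)) (c (l 16775968) (l 16775920)))))) (a (c (b (l 16772680) (c (l 16774080) (l 16774016))) (b (l 16772496) (c (l 16774608) (l 16774544)))) (c (b (c (l 16774024) (l 16773952)) (b (l 16775504) (c (l 16775880) (l 16775840)))) (b (c (l 16773880) (l 16773808)) (b (l 16775400) (a (l 16774792) (l 16776776))))))), by decide +kernel⟩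

def k15_mm_202 : ∃ t, chk3 f_mm_202 t 495 138 1 = true :=
  ⟨(b (l 6) (a (c (c (a (b (l 16776008) (b (l 16776072) (l 16777368))) (c (b (l 16776648) (b (l 16777360) (a (l 16777680) (a (b (l 16777136) (l 64659391767)) (b (l 38889587815) (l 4)))))) (b (l 16776608) (b (l 16777328) (a (l 16777656) (b (l 18488493143) (a (l 63585649911) (l 4)))))))) (a (b (l 16775920) (a (l 16777064) (l 16776728))) (b (c (l 16776576) (l 16777192)) (b (l 16777288) (a (l 16777624) (a (b (l 16777088) (l 61975037399)) (b (l 37278975239) (l 4)))))))) (c (b (l 16776160) (b (l 16776760) (a (l 16776440) (a (l 16777592) (b (l 16777800) (a (l 61975037287) (l 4))))))) (b (l 16776096) (b (l 16776880) (a (l 16776400) (a (l 16777568) (b (l 16777776) (l 72712455863)))))))) (b (b (l 6) (b (l 6) (a (a (a (c (l 16777672) (l 16777920)) (l 6)) (l 6)) (l 6)))) (c (a (b (c (b (a (l 16777688) (c (a (l 35668362327) (l 84523615655)) (a (l 31910265911) (l 84523615623)))) (b (a (c (l 16777552) (l 16777864)) (l 4)) (a (a (l 16777904) (l 4))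 (l 4)))) (b (a (l 16776992) (a (l 34594620663) (a (l 76470551911) (l 4)))) (a (a (l 16777816) (l 58753811895)) (l 4)))) (a (a (c (c (l 146800640679) (l 146263769735)) (l 149484995175)) (l 4)) (l 4))) (l 4)) (c (a (a (b (c (c (l 14193525911) (l 13656654983)) (l 13119784215)) (l 148948124423)) (b (b (c (l 52311360839) (l 52311360839)) (l 4)) (l 4))) (l 4)) (a (b (a (c (l 16777736) (l 16777728)) (b (l 52848231911) (l 4))) (l 153779962967)) (l 4))))))), by decide +kernel⟩

def k16_mm_202 : ∃ t, chk3 f_mm_202 t 494 278 1 = true :=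
  ⟨(a (a (c (c (b (l 16774792) (l 16776392)) (b (l 16774680) (l 16776312))) (c (b (l 16774576) (l 16776888)) (l 16775656))) (c (c (b (l 16776064) (a (l 16776856) (b (l 16776272) (l 16777400)))) (b (l 16776624) (l 16776616))) (c (b (l 16776536) (l 16776888)) (b (l 16776464) (l 16776840))))) (b (a (c (c (c (l 16776040) (l 16776000)) (c (l 16777280) (l 16777240))) (c (l 16776536) (l 16777136))) (c (a (c (c (l 16776504) (l 16777128)) (l 16776752)) (b (c (l 16776560) (l 16776496)) (c (c (l 16777704) (l 16777680)) (l 16777808)))) (c (c (l 16777208) (l 16777184)) (c (l 16777168) (l 16777152))))) (c (a (b (c (c (l 16777408) (l 16777376)) (l 16777336)) (a (c (c (c (l 16777736) (l 16777720)) (l 16777704)) (l 16777832)) (a (b (c (l 16777824) (c (l 16777136) (l 16777120))) (c (c (l 77007422903) (l 77007422791)) (l 73786197543))) (b (c (c (l 52311360695) (l 50700747943)) (l 49090135447)) (l 4))))) (b (a (b (c (l 16777736) (l 16777040)) (a (c (l 22246589703) (l 16777856)) (c (c (l 74859939159) (l 75396809959))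 (l 71101842951)))) (b (a (c (c (l 48553264311) (l 47479522455)) (l 45868909927)) (c (c (l 136600093463) (l 105998451943)) (l 95797905159))) (l 4))) (l 4))) (a (a (c (c (l 16777392) (l 16777376)) (l 16777680)) (b (c (l 16776800) (l 16776776)) (a (c (c (l 38352717159) (l 38352717111)) (l 41573942727)) (c (b (l 16777896) (l 4)) (l 88281711815))))) (b (c (c (a (a (l 16777056) (l 36205233495)) (l 126936416743)) (a (l 19025364263) (b (l 60901295511) (l 4)))) (a (c (l 27615298423) (l 16777768)) (b (l 77544293463) (l 4)))) (l 4)))))), by decide +kernel⟩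

def k17_mm_202 : ∃ t, chk3 f_mm_202 t 494 279 1 = true :=
  ⟨(a (b (c (a (a (c (c (l 16776552) (l 16777176)) (l 16777128)) (b (c (l 16776608) (l 16776544)) (b (c (l 16776960) (l 16777568)) (c (c (l 17951622263) (l 16777848)) (l 16777896))))) (b (b (c (c (l 16777616) (l 16777592)) (l 16777560)) (a (c (l 16777032) (c (l 16777000) (l 16776976))) (a (c (c (l 16777760) (l 16777904)) (l 16777880)) (c (c (l 81839261143) (l 80228648295)) (l 77007423031))))) (a (a (b (c (l 16777848) (l 16777152)) (c (c (l 86134228375) (l 83986744775)) (l 80228648535))) (b (c (c (l 60901295255) (l 57680069831)) (l 54995715559)) (l 4))) (l 4)))) (a (c (c (l 16777416) (l 16777392)) (c (l 16777544) (l 16777200))) (b (a (c (l 16776824) (l 16776792)) (b (l 16778000) (c (l 49627006487) (l 61975036967)))) (a (b (c (l 34057749943) (l 16777840)) (c (l 87207970695) (l 86134228791))) (l 4))))) (c (a (b (a (b (c (l 16777784) (l 16777088)) (a (c (c (l 39963329655) (l 16777600)) (l 16777904)) (c (c (l 94187291991) (l 86134228455))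 (l 83449874023)))) (a (b (b (c (l 16777776) (l 16777904)) (l 4)) (l 4)) (l 4))) (l 4)) (l 4)) (a (b (c (b (a (l 16777048) (c (l 69491230279) (l 69491230183))) (a (l 53921973831) (l 4))) (a (c (l 24394073527) (l 28689040487)) (l 134989480487))) (l 4)) (l 4)))) (a (a (a (b (b (b (c (c (c (l 55532586183) (l 52848231687)) (l 52311360935)) (c (l 51774489879) (l 16777904))) (l 4)) (l 4)) (l 4)) (l 4)) (l 4)) (l 4))), by decide +kernel⟩

def k18_mm_202 : ∃ t, chk3 f_mm_202 t 495 139 1 = true :=
  ⟨(b (a (b (c (a (b (b (c (c (l 16777568) (l 16777544)) (l 16777512)) (a (c (l 16776984) (l 16777600)) (a (c (l 16341009623) (l 16777840)) (c (c (l 70028100823) (l 66806875399)) (l 64659391975))))) (a (a (b (c (l 16777800) (c (l 16777112) (l 16777096))) (c (c (l 73786197223) (l 70028100903)) (l 67880617463))) (b (c (c (l 45868909671) (l 44795167815)) (l 43184555351)) (l 4))) (b (b (c (l 147874382295) (l 146800641735)) (l 4)) (l 4)))) (b (a (b (a (c (c (l 42647684199) (l 41573942343)) (l 40500200727)) (c (c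 (l 92576679367) (l 90966066615)) (l 140895061639))) (l 4)) (l 4)) (l 4))) (a (a (b (c (l 16776776) (l 16776752)) (b (c (l 16777816) (l 16777800)) (c (c (l 77007423047) (l 76470552135)) (l 77007423207)))) (c (b (a (l 16777688) (b (l 16777064) (l 64659391863))) (l 154316833575)) (b (c (l 23857201991) (l 16777744)) (l 154853704487)))) (b (a (b (c (c (l 56606328183) (l 56606328183)) (l 57143199255)) (l 4)) (l 4)) (l 4)))) (l 4)) (l 4)) (l 4)), by decide +kernel⟩

def k19_mm_202 : ∃ t, chk3 f_mm_202 t 60 70 1 = true :=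
  ⟨(b (a (c (a (l 16748472) (l 16758360)) (a (l 16746656) (l 16755512))) (a (c (c (l 16763376) (l 16762744)) (c (l 16762120) (l 16761496))) (c (c (b (l 16761880) (l 16766384)) (b (l 16761368) (l 16765920))) (c (a (l 16760600) (l 16765720)) (a (l 16760088) (l 16765288)))))) (b (a (c (c (l 16759256) (l 16758488)) (c (l 16757728) (l 16756984))) (a (c (l 16765904) (l 16762192)) (c (c (l 16768256) (l 16767840)) (c (l 16767440) (l 16767048))))) (a (c (c (l 16761120) (l 16759088)) (c (l 16758384) (l 16757688))) (c (a (l 16765824) (a (l 16768744) (a (l 16767920) (l 16771744)))) (a (c (l 16761808) (l 16761328)) (a (l 16767976) (a (l 16767256) (l 16771160)))))))), by decide +kernel⟩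

def k20_mm_202 : ∃ t, chk3 f_mm_202 t 120 71 1 = true :=
  ⟨(a (b (c (l 16761248) (l 16758536)) (c (c (l 16760048) (l 16759440)) (c (l 16758840) (l 16758264)))) (a (b (c (l 16764736) (l 16763544)) (c (l 16765856) (c (l 16762496) (l 16762024)))) (b (c (l 16764456) (l 16763416)) (c (c (l 16765800) (l 16765368)) (c (l 16764952) (l 16764552)))))), by decide +kernel⟩

def k21_mm_202 : ∃ t, chk3 f_mm_202 t 242 71 1 = true :=
  ⟨(c (c (b (b (l 16764664) (l 16769144)) (a (l 16770752) (b (l 16769544) (l 16774016)))) (b (b (l 16764216) (l 16768744)) (a (l 16770392) (b (l 16769232) (l 16773752))))) (b (c (b (l 16763776) (l 16768352)) (b (l 16763344) (l 16767984))) (c (a (l 16769392) (b (l 16768936) (l 16773512))) (a (l 16769064) (b (l 16768656) (l 16773280)))))), by decide +kernel⟩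

def k22_mm_202 : ∃ t, chk3 f_mm_202 t 243 71 1 = true :=
  ⟨(b (b (c (a (l 16770632) (c (l 16773168) (l 16772896))) (a (l 16769968) (c (l 16772640) (l 16772400)))) (a (c (c (l 16770040) (l 16769752)) (c (l 16769472) (l 16769208))) (c (c (c (l 16773776) (l 16774976)) (c (l 16774864) (l 16774760))) (c (c (l 16774656) (l 16774560)) (c (l 16774464) (l 16774376)))))) (a (b (c (c (l 16773208) (l 16772968)) (c (l 16772744) (l 16772536))) (c (c (c (l 16775112) (l 16775008)) (a (l 16772952) (l 16775480))) (a (c (l 16772760) (l 16772592)) (c (c (l 16774056) (l 16776600)) (l 16776504))))) (b (a (c (c (l 16774984) (l 16774800)) (c (l 16774632) (l 16775784))) (c (c (c (l 16776208) (l 16776136)) (c (l 16776056) (l 16775984))) (c (c (l 16775920) (l 16776512)) (l 16775776)))) (a (c (b (c (l 16775064) (l 16774912)) (c (l 16776640) (l 16777832))) (c (b (l 16774784) (l 16777072)) (l 16776000))) (b (c (c (c (l 16776936) (l 16776872)) (l 16776792)) (c (l 16777360) (l 16777288))) (c (b (b (a (l 16777784) (c (l 16778104)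 (l 16778352))) (a (l 16778024) (a (c (l 16777200) (l 16777120)) (c (c (l 96334775607) (l 98482259047)) (l 70564972711))))) (b (a (c (l 16776984) (l 16776904)) (a (c (c (l 77544293575) (l 64659391959)) (l 54995716135)) (l 4))) (a (a (l 16778336) (c (l 43184555863) (l 40500201191))) (l 4)))) (c (a (c (l 16778040) (l 16778008)) (b (c (l 20099106727) (l 19025364839)) (l 131768255127))) (a (l 16777968) (b (l 25467815399) (l 131768255143)))))))))), by decide +kernel⟩

def k23_mm_202 : ∃ t, chk3 f_mm_202 t 244 70 1 = true :=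
  ⟨(b (b (a (c (l 16767848) (l 16767048)) (c (c (l 16767816) (l 16767488)) (c (l 16767160) (l 16766840)))) (a (c (l 16769752) (l 16768408)) (c (c (l 16772320) (l 16772040)) (c (l 16769152) (l 16768888))))) (c (a (c (b (l 16769192) (l 16772368)) (b (l 16768888) (l 16773432))) (c (b (l 16772888) (a (l 16774168) (c (l 16775408) (l 16775320)))) (b (l 16772496) (a (l 16773968) (a (l 16773584) (l 16775520)))))) (a (b (c (l 16768592) (l 16768320)) (c (l 16773192) (l 16772968))) (a (b (c (l 16770496) (l 16770272)) (c (l 16773784) (l 16774928))) (b (c (l 16771768) (l 16771584)) (c (c (l 16775096) (l 16775032)) (c (l 16774960) (l 16774904)))))))), by decide +kernel⟩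

def k24_mm_202 : ∃ t, chk3 f_mm_202 t 245 140 1 = true :=
  ⟨(c (c (b (a (l 16771536) (a (l 16772032) (l 16774232))) (a (c (l 16773472) (l 16773360)) (a (c (l 16775272) (l 16775192)) (b (l 16775976) (c (l 16776944) (l 16776888)))))) (a (b (l 16772584) (c (l 16773256) (l 16773160))) (a (b (l 16771824) (c (l 16775112) (l 16775040))) (b (l 16773736) (b (l 16775840) (a (l 16775192) (l 16777128))))))) (c (c (b (a (l 16769768) (c (l 16773648) (l 16773608))) (a (l 16773064) (a (l 16774968) (b (l 16774448) (l 16776744))))) (a (b (l 16769648) (l 16772968)) (b (c (l 16773568) (l 16773520)) (a (l 16774904) (a (l 16775872) (l 16776528)))))) (a (b (l 16772088) (c (l 16772872) (l 16772784))) (b (b (l 16774216) (l 16773608)) (a (c (l 16774840) (l 16774776)) (b (l 16775624) (l 16776648))))))), by decide +kernel⟩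

def k25_mm_202 : ∃ t, chk3 f_mm_202 t 490 141 1 = true :=
  ⟨(b (a (c (c (l 16774696) (l 16774520)) (c (l 16774360) (l 16774208))) (c (c (c (l 16775280) (l 16775208)) (b (l 16773968) (l 16776248))) (b (c (l 16773832) (l 16773704)) (c (l 16776136) (l 16776040))))) (a (b (c (c (l 16776104) (l 16774656)) (c (l 16775848) (l 16775736))) (c (c (c (l 16777064) (l 16777008)) (c (l 16776952) (l 16776904))) (c (c (l 16776856) (l 16776816)) (l 16776760)))) (c (c (a (b (l 16775696) (c (l 16776976) (c (l 16777272) (l 16777256)))) (b (l 16776872) (c (b (c (a (l 16776880) (l 13656655063)) (l 16777832)) (a (b (l 16777216) (l 68417488535)) (l 137673835207))) (b (l 16777968) (a (b (l 16777184) (l 66270004839)) (l 139284447911)))))) (a (b (l 16775592) (l 16777208)) (b (l 16777520) (b (c (l 16777936) (l 16777904)) (b (a (l 16777792) (l 78618036183)) (a (l 61975037911) (l 4))))))) (a (c (b (l 16776808) (l 16777144)) (b (l 16776728) (l 16777744))) (c (b (l 16776136) (b (l 16778192) (a (c (l 37278975623) (l 60901294743))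 (l 140358189655)))) (b (l 16776080) (b (l 16778152) (a (l 38352717703) (l 85060487687))))))))), by decide +kernel⟩

def k26_mm_202 : ∃ t, chk3 f_mm_202 t 491 282 1 = true :=
  ⟨(a (b (c (c (l 16775984) (l 16776040)) (c (c (l 16776456) (l 16776408)) (l 16776344))) (c (a (c (l 16777280) (l 16777184)) (c (c (l 16776920) (l 16776880)) (l 16777152))) (c (c (l 16776784) (l 16776752)) (l 16776704)))) (b (c (b (c (c (l 16776328) (l 16776944)) (l 16776880)) (a (c (l 16776472) (l 16776400)) (a (c (l 16776928) (l 16777520)) (b (c (l 16777768) (c (l 16777072) (l 16777048))) (a (c (l 16777920) (l 16777880)) (c (l 74323068647) (l 72712455847))))))) (b (c (l 16776816) (l 16777416)) (a (l 16777616) (c (c (c (l 8287946087) (l 16777976)) (l 7751075447)) (l 10435429719))))) (c (a (b (c (c (c (l 16777632) (l 16777608)) (l 16777584)) (c (l 16777552) (l 16777520))) (b (a (c (l 16777800) (a (l 16777008) (l 16777816))) (a (c (l 56069457511) (l 54458844711)) (l 4))) (a (a (c (l 34594620935) (l 16777896)) (c (l 83449874199)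 (l 79691777751))) (l 4)))) (b (a (b (c (c (l 34594620775) (l 32984007991)) (l 31910266423)) (c (l 135526351335) (a (l 75933681351) (l 4)))) (l 4)) (l 4))) (a (c (b (l 16778144) (a (c (l 24394073639) (l 16777984)) (b (l 67343746903) (l 4)))) (b (l 16778104) (a (l 29225911607) (b (l 67343746743) (l 4))))) (b (a (a (b (l 16778408) (l 78081165783)) (b (l 54458845479) (l 4))) (l 4)) (l 4)))))), by decide +kernel⟩

def k27_mm_202 : ∃ t, chk3 f_mm_202 t 491 283 1 = true :=
  ⟨(a (b (c (a (a (c (c (l 16776768) (l 16777384)) (l 16777336)) (b (c (l 16776816) (l 16776752)) (b (c (l 16777824) (l 16777768)) (a (c (l 42110813735) (l 16777912)) (c (l 91502937927) (l 87207970567)))))) (a (b (c (c (l 8287946039) (l 16777768)) (l 16778048)) (a (b (c (l 63585650327) (l 61438166615)) (l 4)) (l 4))) (b (b (c (c (l 40500200855) (l 38352717191)) (l 36742104759)) (c (l 142505673239) (l 144653158135))) (l 4)))) (a (b (c (l 16776536) (l 16776488)) (a (l 16778160) (b (l 16778360) (a (l 44258298119) (l 87207971191)))))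 (a (c (b (l 16777672) (b (l 72175585159) (l 4))) (b (l 16778296) (l 81302391255))) (b (c (b (l 16777872) (l 89355454503)) (c (l 74859938951) (l 71101842583))) (l 4))))) (a (a (b (b (c (c (c (l 46405780903) (l 43721426375)) (l 41573942999)) (c (l 16778056) (l 16777872))) (c (c (l 148411253319) (l 151632478727)) (c (l 95797905335) (l 95261034423)))) (l 4)) (l 4)) (l 4))) (l 4)), by decide +kernel⟩

def k28_mm_202 : ∃ t, chk3 f_mm_202 t 488 142 1 = true :=
  ⟨(b (a (c (c (l 16772328) (l 16772112)) (c (l 16771912) (l 16771728))) (c (c (l 16774832) (l 16774656)) (c (l 16774488) (l 16774344)))) (a (c (c (c (l 16774240) (l 16774152)) (c (l 16774072) (l 16773992))) (c (c (l 16773920) (l 16776472)) (c (l 16776400) (l 16776336)))) (c (b (c (l 16774920) (l 16774784)) (c (c (l 16775888) (l 16775824)) (l 16777376))) (c (b (l 16774656) (l 16776952)) (b (l 16777168) (l 16776872)))))), by decide +kernel⟩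

def k29_mm_202 : ∃ t, chk3 f_mm_202 t 489 142 1 = true :=
  ⟨(b (c (b (a (c (l 16774256) (l 16774096)) (c (l 16776112) (l 16775992))) (b (a (c (l 16774952) (l 16774816)) (c (l 16777464) (l 16777368))) (c (a (l 16775424) (a (l 16776320) (a (l 16776768) (l 16777728)))) (a (l 16775296) (l 16777192))))) (c (a (b (l 16773960) (l 16776256)) (b (l 16777200) (c (l 16776896) (l 16777512)))) (b (l 16775800) (a (l 16776160) (l 16777144))))) (a (b (c (c (c (l 16776800) (l 16776752)) (a (l 16775712) (l 16777640))) (c (l 16776584) (l 16777168))) (c (a (b (c (l 16776520) (l 16776424)) (c (c (l 16777664) (l 16778272)) (c (l 16778232) (l 16778200)))) (a (b (c (l 16776960) (l 16776888)) (c (b (c (l 50163876791) (l 16777944)) (c (l 116198999335) (l 119957095511))) (b (l 16778224) (l 84523616423)))) (b (b (c (l 16777144) (l 16777080)) (c (c (l 63585649847) (l 52848231879)) (l 48016394087))) (l 4)))) (c (a (l 16777912) (b (c (l 16777992) (l 16777640)) (a (c (l 52848232327) (l 52848232151)) (l 4)))) (a (l 16777856)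 (b (l 16777936) (a (l 53385103399) (l 4))))))) (b (c (a (b (c (l 16776784) (l 16778016)) (b (c (c (l 9898558967) (l 16777776)) (l 16778048)) (c (a (l 16777864) (c (l 108145935591) (l 87207970567))) (a (l 16778456) (l 78618036327))))) (a (b (b (c (l 16777112) (l 16777048)) (c (c (l 64122520455) (l 46942651783)) (l 42647684823))) (l 4)) (b (b (c (c (l 66270004759) (l 62511908407)) (l 57680070567)) (l 4)) (l 4)))) (b (a (l 16777928) (a (c (l 16778112) (l 16777744)) (c (b (l 87207969623) (l 4)) (l 70564972855)))) (b (a (c (l 16778328) (l 16778288)) (l 4)) (a (c (c (l 43184555847) (l 43184555831)) (l 52311361143)) (l 4))))) (a (a (b (b (a (c (c (l 51237619335) (l 16777920)) (l 51774490887)) (l 4)) (l 4)) (l 4)) (l 4)) (l 4))))), by decide +kernel⟩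

def k30_mm_202 : ∃ t, chk3 f_mm_202 t 488 286 1 = true :=
  ⟨(a (b (c (c (l 16776896) (l 16776776)) (c (l 16776664) (l 16775264))) (b (c (c (l 16777592) (l 16777488)) (c (l 16776088) (l 16776016))) (a (c (c (l 16776448) (l 16776344)) (l 16777536)) (c (c (c (c (l 16777736) (l 16777712)) (l 16778008)) (l 16778280)) (c (l 16778216) (l 16778168)))))) (b (c (a (c (c (l 16776512) (l 16776456)) (l 16777696)) (b (c (l 16778160) (l 16778072)) (a (c (c (l 16777840) (l 16777800)) (l 16778400)) (c (b (c (l 55532586023) (l 44258297143)) (l 95261034775)) (b (l 38352717511) (l 90966067575)))))) (a (c (l 16776304) (l 16776240)) (b (l 16777976) (a (c (l 16778344) (l 16776992)) (b (l 41573943783) (l 89892326375)))))) (c (a (a (b (c (l 16777024) (l 16778256)) (b (c (c (l 64122520631) (l 55532586151)) (l 44258297575)) (l 4))) (a (b (c (c (l 16777920) (l 16777224)) (l 16777832)) (l 4)) (b (c (c (l 58753811975) (l 51237619479)) (l 48553265335)) (l 4)))) (b (a (a (b (c (l 67880617719) (l 63585650423)) (l 4)) (l 4))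 (l 4)) (l 4))) (c (a (b (c (l 14193526567) (l 16778024)) (c (l 124788933175) (l 125325804071))) (b (l 144116286311) (l 4))) (a (b (l 16777992) (l 125862674999)) (l 148948125047)))))), by decide +kernel⟩

def k31_mm_202 : ∃ t, chk3 f_mm_202 t 488 287 1 = true :=
  ⟨(a (b (c (b (c (a (l 16778216) (a (b (l 16777888) (c (l 88818582791) (l 72712455799))) (l 138747576999))) (a (l 16778136) (a (a (l 16778192) (l 53385103575)) (b (l 82376132711) (l 4))))) (a (a (c (c (l 20099106295) (l 16777856)) (l 16778128)) (b (c (c (l 71101842551) (l 60364424487)) (l 49627006839)) (l 4))) (l 4))) (b (a (l 16778032) (c (a (l 39963330679) (l 86134229655)) (a (l 16778184) (l 86134229511)))) (a (c (a (l 16778400) (l 64659393031)) (a (l 16778360) (l 65196263623))) (l 4)))) (a (a (b (b (c (c (l 90429196679) (l 87744842055)) (l 86134230023)) (l 4)) (l 4)) (l 4)) (l 4))) (l 4)), by decide +kernel⟩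

def k32_mm_202 : ∃ t, chk3 f_mm_202 t 489 143 1 = true :=
  ⟨(b (a (a (b (b (b (a (c (c (l 16777176) (l 16778416)) (l 16778344)) (a (c (c (l 60364424839) (l 16777920)) (l 58753812775)) (l 4))) (a (c (c (c (l 77544293399) (l 60901295527)) (l 53385103223)) (c (l 81302389623) (l 16777904))) (l 4))) (l 4)) (l 4)) (l 4)) (l 4)) (l 4)), by decide +kernel⟩

def k33_mm_202 : ∃ t, chk3 f_mm_202 t 245 71 1 = true :=
  ⟨(b (a (b (a (b (c (b (c (c (l 16776448) (l 16777056)) (l 16776992)) (a (c (l 16776592) (l 16777816)) (b (c (c (l 16777752) (l 16777712)) (l 16777992)) (a (c (l 16777808) (l 16778400)) (a (c (l 57680070263) (l 54995715623)) (l 4)))))) (b (c (l 16777576) (l 16776208)) (a (l 16777720) (a (l 16778208) (c (c (l 41037072199) (l 65733132983)) (l 42110814135)))))) (c (a (b (a (c (l 16776904) (l 16776832)) (a (c (l 16777784) (l 16778376)) (b (l 16778112) (c (l 61438166663) (l 58753812023))))) (b (c (a (l 19562235575) (l 141968802311)) (a (l 16777848) (l 91502938167))) (a (c (c (l 82913003207) (l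 77544294183)) (l 72712456247)) (l 4)))) (b (a (b (c (c (l 63048779095) (l 56069457431)) (l 52311361399)) (l 4)) (l 4)) (l 4))) (a (c (b (l 16778088) (a (c (l 44795168567) (l 72175583911)) (l 149484995255))) (b (l 16778208) (a (l 45868910535) (l 150021866183)))) (b (a (c (b (l 75396809767) (l 4)) (l 66806876407)) (l 4)) (l 4))))) (b (a (a (c (b (c (c (c (l 17414751543) (l 15804138823)) (l 13656655367)) (l 12582913783)) (b (c (c (l 115662128327) (l 89355454343)) (l 85597358087)) (l 4))) (c (b (l 16777728) (l 144653156999)) (b (l 16777696) (l 90429196855)))) (b (b (c (c (c (l 53921973655) (l 49627006471)) (l 47479522999)) (c (l 68417487863) (l 16777880))) (l 4)) (l 4))) (l 4)) (l 4))) (l 4)) (l 4)) (l 4)), by decide +kernel⟩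

def k34_mm_202 : ∃ t, chk3 f_mm_202 t 492 280 1 = true :=
  ⟨(c (b (a (c (l 16773992) (l 16773848)) (c (c (l 16775240) (l 16775184)) (c (l 16775128) (l 16775080)))) (b (c (a (l 16774696) (l 16776576)) (a (l 16774576) (l 16777144))) (c (a (l 16775168) (c (l 16776736) (l 16776864))) (a (l 16775056) (l 16776976))))) (a (b (c (l 16773712) (l 16773584)) (c (l 16776024) (l 16775272))) (a (c (l 16775840) (l 16775760)) (c (b (l 16776640) (l 16776984)) (b (l 16776568) (l 16777592)))))), by decide +kernel⟩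

def k35_mm_202 : ∃ t, chk3 f_mm_202 t 492 281 1 = true :=
  ⟨(a (c (b (c (c (l 16776560) (l 16776512)) (a (l 16775472) (l 16777416))) (a (c (c (l 16777192) (l 16777152)) (l 16777096)) (b (c (c (l 16777400) (l 16777528)) (l 16777488)) (b (a (c (l 16777088) (l 16777688)) (a (c (l 42110813719) (l 16777912)) (c (l 90966067015) (l 88818583319)))) (a (a (c (l 16777896) (l 16777856)) (c (l 67343746743) (l 65733133943))) (l 4)))))) (b (c (l 16776360) (l 16776296)) (b (c (c (l 16777128) (l 16777096)) (l 16777392)) (c (a (l 16776632) (a (c (l 16777952) (l 16777768)) (b (l 57143199479) (l 4)))) (a (l 16776592) (a (l 16777752) (a (l 81302389959) (l 92576680119)))))))) (b (c (a (b (c (l 16777872) (l 16777800)) (a (c (l 16776872) (l 16777472)) (b (c (l 16777064) (l 16777664)) (c (c (c (l 42110813415) (l 39963329831)) (l 38352717175)) (c (l 37278975319) (l 16777896)))))) (a (c (b (l 16777832) (b (a (l 35131491831) (l 81839261463)) (l 4))) (b (l 16777616) (b (c (l 53385102839) (l 52311360999)) (l 4)))) (b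 (b (c (c (l 16777872) (l 16777848)) (l 16777816)) (a (c (a (l 46942651751) (l 75933681175)) (l 55532586551)) (l 4))) (l 4)))) (a (c (c (b (l 16777752) (l 16777928)) (l 16777656)) (c (l 16777640) (l 16777616))) (a (b (a (l 16778128) (l 16777968)) (b (a (l 38352717879) (l 81839262055)) (l 4))) (a (b (c (l 21709719047) (l 16777800)) (l 4)) (b (b (l 28152170535) (l 4)) (l 4)))))) (a (b (b (c (c (a (c (l 21709718711) (l 16777872)) (l 144116285991)) (a (l 16777840) (a (l 84523615927) (l 4)))) (c (a (l 16777800) (l 90429196263)) (a (l 16777776) (l 90429196183)))) (a (a (c (c (l 63585650327) (l 61975037543)) (c (l 16777936) (l 16777936))) (l 4)) (l 4))) (l 4)) (l 4)))), by decide +kernel⟩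

def k36_mm_202 : ∃ t, chk3 f_mm_202 t 986 280 1 = true :=
  ⟨(b (c (a (c (c (l 16776152) (l 16776104)) (c (l 16777376) (l 16777344))) (b (c (l 16777160) (l 16777752)) (a (c (l 16776824) (l 16777424)) (b (c (l 16777008) (l 16777616)) (c (c (c (l 28689040535) (l 29225911511)) (l 28152169735)) (l 23320331703)))))) (a (c (l 16775984) (l 16775920)) (c (c (b (l 16777704) (l 16777552)) (l 16777608)) (c (l 16777584) (l 16777568))))) (c (a (b (c (c (l 16777512) (l 16777480)) (l 16777432)) (a (b (c (l 16777032) (l 16777640)) (c (c (c (l 36205233351) (l 34594620663)) (l 33520878887)) (c (l 32447137031) (l 16777880)))) (b (a (c (l 26004686215) (l 16777880)) (c (c (l 84523615511) (l 78081164695)) (l 73786197687))) (l 4)))) (b (a (b (c (l 10435429767) (l 16777792)) (a (c (a (l 38352717143) (l 67880617415)) (l 49090135575)) (l 4))) (a (a (b (c (l 65733133751) (l 63585650087)) (l 4)) (l 4)) (l 4))) (l 4))) (b (c (a (l 16777384) (a (b (l 16777752) (l 63048779495)) (l 141431931527))) (a (l 16777352) (a (c (l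 51774489559) (l 45868909671)) (l 141431931527)))) (a (a (c (l 10972300791) (l 16777704)) (b (c (l 48016393799) (l 60364424199)) (l 4))) (l 4))))), by decide +kernel⟩

def k37_mm_202 : ∃ t, chk3 f_mm_202 t 987 280 1 = true :=
  ⟨(b (c (a (b (a (c (l 16777784) (l 16776912)) (b (c (l 16777808) (l 16777760)) (a (c (c (l 47479522439) (l 45868909655)) (l 42647684471)) (c (l 91502937959) (l 91502937751))))) (a (a (b (c (l 16777896) (l 16777856)) (c (l 97945388919) (l 97408517639))) (b (c (c (l 72175584647) (l 72175584535)) (l 67343746711)) (l 4))) (l 4))) (b (a (a (b (b (c (l 51237618935) (l 16777904)) (l 4)) (l 4)) (l 4)) (l 4)) (l 4))) (a (a (b (c (l 16776872) (l 16776840)) (c (b (l 43184555495) (l 97945389031)) (c (l 79691777255) (l 76470551783)))) (a (b (c (l 16777776) (l 16777752)) (l 4)) (b (c (c (l 48016393751) (l 48016393655)) (l 49090135735)) (l 4)))) (a (b (c (l 138210706007) (l 138210706007)) (l 4)) (l 4)))) (l 4)), by decide +kernel⟩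

def k38_mm_202 : ∃ t, chk3 f_mm_202 t 493 281 1 = true :=
  ⟨(a (a (a (a (b (b (a (b (c (c (l 74323068391) (l 71638713815)) (l 74323069015)) (l 4)) (l 4)) (l 4)) (l 4)) (l 4)) (l 4)) (l 4)) (l 4)), by decide +kernel⟩

def k39_mm_202 : ∃ t, chk3 f_mm_202 t 246 141 1 = true :=
  ⟨(a (b (a (b (c (a (a (b (c (c (l 16777744) (l 16777712)) (l 16777344)) (a (b (c (l 49090135639) (l 47479522839)) (l 4)) (l 4))) (b (b (c (c (l 26541557047) (l 16777896)) (l 22246589959)) (a (c (l 70564972231) (l 68954359447)) (l 4))) (l 4))) (a (b (b (c (l 150021866071) (l 150021867335)) (l 4)) (l 4)) (l 4))) (c (a (a (b (l 16778280) (b (l 61975037735) (l 4))) (b (a (l 36205233767) (l 94187291703)) (l 4))) (b (l 155390575719) (l 4))) (a (a (b (l 16778248) (b (l 81839260663) (l 4))) (b (c (l 65733133351) (l 48553264839)) (l 4))) (l 157001188983)))) (l 4)) (l 4)) (l 4)) (l 4)), by decide +kernel⟩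

def k40_mm_202 : ∃ t, chk3 f_mm_202 t 247 70 1 = true :=
  ⟨(l 4), by decide +kernel⟩

def k41_mm_202 : ∃ t, chk3 f_mm_202 t 123 71 1 = true :=
  ⟨(l 4), by decide +kernel⟩

def k42_mm_202 : ∃ t, chk3 f_mm_202 t 31 17 1 = true :=
  ⟨(a (b (a (b (l 6) (a (b (b (l 6) (b (l 6) (l 4))) (l 4)) (l 4))) (l 4)) (l 4)) (l 4)), by decide +kernel⟩

def k43_mm_202 : ∃ t, chk3 f_mm_202 t 28 18 1 = true :=
  ⟨(a (b (b (c (l 16724176) (l 16709160)) (c (l 16731216) (l 16721816))) (a (b (l 16711208) (l 16739296)) (b (l 16729936) (c (l 16728256) (l 16725040))))) (b (a (b (c (l 16715224) (l 16711360)) (c (l 16722352) (l 16718872))) (b (c (l 16723472) (l 16720088)) (c (l 16730656) (l 16738144)))) (b (a (c (l 16729440) (l 16726336)) (c (l 16748288) (l 16745656))) (a (c (l 16736496) (l 16744232)) (c (c (l 16755976) (l 16754808)) (c (l 16753680) (l 16752584))))))), by decide +kernel⟩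

def k44_mm_202 : ∃ t, chk3 f_mm_202 t 29 36 1 = true :=
  ⟨(a (a (b (c (l 16742392) (b (l 16727104) (l 16730928))) (c (b (l 16737344) (l 16740952)) (c (l 16747744) (l 16746512)))) (b (c (b (l 16738712) (l 16742368)) (b (l 16736232) (l 16750576))) (c (b (l 16756496) (l 16754880)) (b (l 16754408) (l 16752992))))) (a (c (b (b (l 16754088) (c (l 16756904) (l 16756008))) (a (c (l 16760104) (l 16759288)) (b (l 16762352) (l 16766008)))) (b (b (a (l 16743216) (l 16747944)) (c (l 16755136) (l 16754280))) (a (c (l 16758496) (l 16757728)) (b (l 16760936) (l 16764792))))) (b (c (a (b (l 16754280) (l 16763208)) (b (l 16764088) (c (l 16768064) (l 16767512)))) (a (b (l 16757976) (l 16761872)) (b (c (l 16757888) (l 16757272)) (c (l 16766984) (l 16766472))))) (b (b (c (a (l 16760728) (l 16767928)) (a (l 16759536) (l 16767024))) (a (c (l 16762560) (l 16761472)) (c (c (l 16767368) (l 16766936)) (c (l 16766536) (l 16766152))))) (a (c (c (l 16768176) (l 16767680)) (c (l 16767216) (l 16766768))) (b (c (c (l 16771800)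 (l 16771416)) (c (l 16771064) (l 16770736))) (a (c (l 16772280) (l 16774224)) (c (c (l 16772120) (l 16771824)) (c (l 16771560) (l 16771320)))))))))), by decide +kernel⟩

def k45_mm_202 : ∃ t, chk3 f_mm_202 t 58 37 1 = true :=
  ⟨(b (a (c (c (l 16757368) (l 16756280)) (b (l 16742328) (l 16756584))) (c (b (c (l 16753696) (l 16763304)) (c (l 16762504) (l 16761712))) (a (c (l 16762024) (l 16761192)) (b (l 16753888) (l 16762936))))) (a (c (b (l 16762192) (l 16760512)) (b (l 16755104) (c (l 16754008) (l 16763704)))) (a (c (b (l 16758240) (l 16767064)) (b (l 16756792) (l 16765800))) (b (c (l 16767904) (l 16766720)) (c (c (l 16771768) (l 16771232)) (c (l 16770728) (l 16770272))))))), by decide +kernel⟩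

def k46_mm_202 : ∃ t, chk3 f_mm_202 t 118 37 1 = true :=
  ⟨(b (a (b (c (l 16765152) (l 16763856)) (c (l 16767456) (c (l 16762688) (l 16762168)))) (a (b (c (l 16763272) (l 16762184)) (c (l 16769520) (l 16768624))) (b (c (l 16770776) (l 16769824)) (c (c (l 16774616) (l 16774208)) (c (l 16773832) (l 16773480)))))) (a (b (c (c (l 16772624) (l 16769512)) (c (l 16769056) (l 16768640))) (b (c (c (l 16775288) (l 16774864)) (c (l 16774480) (l 16774136))) (c (c (l 16774440) (l 16774064)) (a (l 16775000) (l 16777384))))) (b (c (b (c (l 16773560) (l 16773184)) (a (l 16774032) (c (l 16776456) (l 16776160)))) (a (c (l 16775216) (l 16774896)) (b (l 16775200) (b (l 16775320) (l 16776264))))) (a (b (c (c (l 16773376) (l 16773056)) (l 16775280)) (c (a (l 16778368) (b (l 16777744) (l 16778632))) (c (l 16775960) (l 16777080)))) (b (c (a (c (l 16775048) (l 16774784)) (b (l 16778216) (c (l 16776592) (l 16779008)))) (c (l 16776472) (l 16776304))) (a (c (b (c (l 16776368) (l 16776144)) (c (a (l 16776952) (b (l 16777264)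 (l 84523616263))) (b (l 16779448) (a (l 16776976) (l 62511910279))))) (b (l 16778504) (a (l 16779152) (a (l 18488496183) (b (l 16778368) (l 4)))))) (a (b (c (c (c (l 21172848263) (l 16778448)) (l 16778976)) (c (l 16777520) (l 16779376))) (b (c (c (l 117272740359) (l 76470554503)) (l 75933684695)) (l 4))) (b (b (c (c (l 58216941143) (l 38889590007)) (l 41573945431)) (l 4)) (l 4))))))))), by decide +kernel⟩

def k47_mm_202 : ∃ t, chk3 f_mm_202 t 238 74 1 = true :=
  ⟨(b (c (a (c (l 16768032) (l 16767600)) (c (l 16772904) (l 16772544))) (a (c (l 16767192) (l 16766816)) (b (l 16773712) (l 16774320)))) (b (c (a (l 16773160) (c (l 16772976) (l 16772680))) (a (l 16775112) (c (l 16775048) (l 16774816)))) (a (c (c (l 16772512) (l 16772192)) (c (l 16771912) (l 16776904))) (c (c (c (l 16777456) (l 16777320)) (l 16777800)) (c (l 16776936) (l 16776752)))))), by decide +kernel⟩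

def k48_mm_202 : ∃ t, chk3 f_mm_202 t 239 148 1 = true :=
  ⟨(c (b (c (a (l 16771648) (l 16775232)) (a (l 16771328) (l 16774992))) (b (a (l 16775472) (c (l 16777896) (l 16777688))) (a (c (l 16773896) (l 16773640)) (a (l 16778120) (a (l 16778328) (c (c (l 16778368) (l 16778288)) (l 16778832))))))) (b (c (a (l 16771040) (l 16776736)) (l 16774648)) (b (a (l 16776280) (l 16776448)) (a (l 16775936) (a (l 16777776) (c (l 16777760) (l 16777656))))))), by decide +kernel⟩

def k49_mm_202 : ∃ t, chk3 f_mm_202 t 239 149 1 = true :=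
  ⟨(a (b (c (a (c (l 16774672) (l 16774432)) (b (l 16777872) (a (l 16778488) (l 16778408)))) (c (l 16776144) (l 16775984))) (a (b (c (c (l 16776016) (l 16775816)) (l 16778192)) (a (c (c (l 16776616) (l 16776432)) (l 16778848)) (b (c (l 16778832) (l 16776600)) (c (c (c (l 43721426743) (l 40500200807)) (l 29225913271)) (c (l 16778440) (l 16778360)))))) (a (c (b (c (l 16776848) (l 16776688)) (a (b (c (l 16777344) (l 16777208)) (l 4)) (c (l 125325804247) (l 130157642343)))) (b (l 16777808) (b (a (l 16778376) (l 66806878167)) (l 4)))) (b (b (c (c (l 16777184) (l 16777040)) (l 16778184)) (c (c (a (l 58753812007) (l 115662129127)) (a (l 16778624) (l 89892326535))) (c (l 57143201063) (l 57143200663)))) (l 4))))) (b (c (a (b (c (l 16777144) (l 16777632)) (c (a (c (l 20099105927) (l 16778368)) (b (c (l 52848232151) (l 55532586247)) (l 134989480711))) (a (c (l 16778296) (l 16778224)) (b (c (l 37278976439) (l 35668363671)) (l 139821318807))))) (b (a (c (b (l 16777104) (a (l 45332039111) (l 101166614391)))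 (b (l 16776968) (a (l 16778568) (l 76470553623)))) (a (b (c (l 71101842983) (l 50163878599)) (l 4)) (l 4))) (l 4))) (a (b (c (l 16776176) (l 16776064)) (a (c (l 16778136) (l 16778040)) (b (c (l 35131493127) (l 16778432)) (c (l 139821321399) (l 88281714071))))) (b (c (a (b (l 16776848) (l 49627008119)) (l 126936416967)) (a (l 29762783271) (l 126936417015))) (l 4)))) (a (a (b (b (c (c (l 115662127623) (l 119957094791)) (c (l 71638715943) (l 71638715591))) (l 4)) (l 4)) (l 4)) (l 4)))), by decide +kernel⟩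

def k50_mm_202 : ∃ t, chk3 f_mm_202 t 238 75 1 = true :=
  ⟨(b (a (a (b (c (l 16776208) (l 16774392)) (c (c (l 16778136) (l 16777896)) (l 16777608))) (c (a (b (l 16777064) (c (l 16777000) (l 16778112))) (b (l 16778288) (b (l 16778984) (b (c (l 16777104) (l 16776944)) (c (c (l 63585650679) (l 64122521303)) (l 44795170087)))))) (b (l 16776920) (b (l 16778352) (a (l 16778992) (c (l 19562237303) (l 16778272))))))) (b (c (b (a (l 16778040) (c (c (l 16776712) (l 16776608)) (l 16778440))) (b (a (l 16778720) (a (c (l 16777024) (l 16776864)) (c (a (l 16778056) (l 102777227127)) (c (l 57680071031) (l 52311362231))))) (a (c (l 16776640) (l 16776448)) (a (c (c (l 53385103287) (l 55532586455)) (l 36742106327)) (l 4))))) (b (c (l 16777040) (l 16778208)) (c (a (l 16776064) (a (l 34057749159) (l 115662127495))) (a (l 16775936) (a (l 16778192) (b (l 16778688) (l 4))))))) (a (a (c (b (c (l 16778328) (l 16778160)) (a (b (c (l 59827554039) (l 16778640)) (l 4)) (l 4))) (b (l 16779272) (b (c (l 58216942871) (l 58216942567))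 (l 4)))) (b (c (c (b (l 33520878951) (l 115125256711)) (b (l 16778496) (l 73786199943))) (c (b (l 16777072) (l 120493968263)) (l 47479524903))) (l 4))) (a (a (b (c (c (l 138210706327) (l 143579415335)) (l 139821318951)) (l 4)) (l 4)) (l 4))))) (a (b (b (a (c (c (c (l 16778200) (l 16778096)) (l 16778608)) (c (l 16779104) (l 16778984))) (a (c (c (b (l 48016393703) (l 125862675063)) (b (l 30836526055) (l 131231384039))) (b (l 34057752519) (c (l 133378867655) (l 82376134023)))) (l 4))) (b (a (c (c (a (l 16777184) (l 92576679959)) (a (l 16777016) (l 68954361287))) (a (l 16779448) (c (l 112440904439) (l 66270006391)))) (l 4)) (a (a (c (c (l 75396810519) (l 53385104855)) (c (l 51774491943) (l 16778520))) (l 4)) (l 4)))) (l 4)) (l 4))), by decide +kernel⟩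

def k51_mm_202 : ∃ t, chk3 f_mm_202 t 239 75 1 = true :=
  ⟨(b (a (b (b (a (c (a (b (c (l 24930944215) (l 16778424)) (a (c (l 71101843175) (l 51774491287)) (l 4))) (c (l 135526351959) (b (l 130694513143) (l 4)))) (a (c (b (l 16777000) (l 64659393943)) (l 42110815671)) (c (l 140358190023) (l 138210706439)))) (l 4)) (l 4)) (l 4)) (l 4)) (l 4)), by decide +kernel⟩

def k52_mm_202 : ∃ t, chk3 f_mm_202 t 28 38 1 = true :=
  ⟨(a (a (b (l 16735888) (c (l 16733968) (l 16730992))) (b (c (l 16735224) (l 16732352)) (c (l 16752648) (l 16750120)))) (c (b (a (l 16754000) (b (l 16750208) (l 16764216))) (a (c (l 16761536) (l 16760456)) (a (l 16762096) (c (l 16766776) (l 16766008))))) (b (a (l 16751608) (b (l 16758704) (l 16762408))) (c (a (l 16759432) (b (l 16756000) (l 16770120))) (a (l 16758456) (b (l 16765720) (l 16769448))))))), by decide +kernel⟩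

def k53_mm_202 : ∃ t, chk3 f_mm_202 t 28 39 1 = true :=
  ⟨(a (b (a (c (l 16740840) (l 16738176)) (c (l 16759568) (c (l 16747408) (l 16756856)))) (a (c (l 16768664) (l 16755832)) (c (c (l 16766976) (l 16765968)) (b (l 16762784) (l 16766392))))) (a (a (b (c (l 16765840) (l 16764000)) (c (c (l 16773192) (l 16772360)) (c (l 16771608) (l 16770920)))) (b (c (c (l 16760016) (l 16769648)) (c (l 16768848) (l 16768120))) (b (c (l 16775288) (l 16773944)) (c (l 16773512) (c (l 16767352) (l 16777320)))))) (b (a (b (c (l 16762112) (l 16760680)) (c (l 16776080) (l 16774824))) (b (c (l 16771656) (l 16773112)) (c (c (l 16775432) (l 16774880)) (a (l 16773008) (l 16775304))))) (a (b (c (l 16776288) (l 16773232)) (c (c (l 16778056) (a (l 16771200) (l 16778624))) (a (l 16775736) (l 16778024)))) (b (a (c (l 16777552) (l 16776664)) (b (c (l 16778840) (l 16778056)) (c (c (l 16775528) (l 16775128)) (l 16777264)))) (a (b (c (l 16780144) (l 16779408)) (b (c (c (l 16776368) (l 16775992)) (l 16778152)) (a (c (l 16779104)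 (l 16775864)) (c (c (c (l 52311361239) (l 52311362087)) (c (l 54995715735) (l 37278978039))) (c (l 36205237223) (l 16779592)))))) (a (b (c (c (l 16777984) (l 16778944)) (l 16778520)) (b (c (c (a (l 43184556311) (l 103314096759)) (a (l 16777296) (l 99556001799))) (a (l 46405781479) (l 101166614551))) (l 4))) (b (b (c (c (l 20635977415) (l 16779592)) (l 16877881527)) (a (c (c (l 65196263911) (l 49627008983)) (l 67880618071)) (l 4))) (l 4))))))))), by decide +kernel⟩

def k54_mm_202 : ∃ t, chk3 f_mm_202 t 116 38 1 = true :=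
  ⟨(a (b (c (c (l 16769312) (l 16763256)) (c (l 16762496) (l 16761784))) (b (c (l 16768960) (l 16767704)) (c (c (l 16767544) (l 16766952)) (c (l 16771656) (l 16771168))))) (b (b (c (l 16760992) (l 16764888)) (c (l 16769784) (l 16767312))) (b (c (c (l 16773600) (l 16773056)) (c (l 16772568) (l 16772128))) (c (a (l 16775752) (c (l 16778168) (l 16777744))) (c (b (l 16775312) (l 16777144)) (l 16775880)))))), by decide +kernel⟩

def k55_mm_202 : ∃ t, chk3 f_mm_202 t 117 76 1 = true :=
  ⟨(a (b (c (c (l 16765688) (l 16765104)) (c (l 16764560) (l 16769304))) (c (c (l 16774440) (l 16773944)) (b (l 16772360) (l 16774880)))) (b (b (c (l 16771552) (c (l 16768272) (l 16767888))) (a (c (l 16769600) (l 16768768)) (c (l 16777072) (l 16776384)))) (a (b (c (l 16776624) (l 16775888)) (c (l 16778400) (l 16777760))) (b (c (c (l 16773792) (l 16773448)) (l 16775640)) (b (c (l 16778872) (l 16777040)) (c (c (l 16775968) (l 16778312)) (l 16776672))))))), by decide +kernel⟩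

def k56_mm_202 : ∃ t, chk3 f_mm_202 t 234 77 1 = true :=
  ⟨(b (a (c (c (l 16776848) (l 16776408)) (c (l 16776016) (l 16775680))) (b (c (l 16777952) (l 16777264)) (c (c (l 16774656) (l 16774312)) (l 16776504)))) (a (b (c (l 16779272) (l 16778632)) (c (a (l 16777856) (c (c (l 16776560) (l 16776400)) (l 16778808))) (c (l 16777984) (l 16777768)))) (b (a (c (c (l 16775840) (l 16775528)) (l 16777776)) (a (c (c (l 16777952) (l 16778984)) (l 16778664)) (b (c (l 16779224) (l 16776160)) (c (c (c (l 53385103831) (l 53921974359)) (c (l 56069457335) (l 37815848119))) (c (l 36205236151) (l 16778376)))))) (b (a (c (c (c (l 16778160) (l 16778352)) (l 16779480)) (c (l 16779272) (l 16779104))) (a (b (c (c (l 62511908903) (l 48016395159)) (l 46405784183)) (l 4)) (l 4))) (a (a (a (c (c (l 43721427079) (l 16778592)) (l 32984011415)) (c (c (l 76470553047) (l 58216943511)) (l 58216944999))) (l 4)) (l 4)))))), by decide +kernel⟩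

def k57_mm_202 : ∃ t, chk3 f_mm_202 t 235 77 1 = true :=
  ⟨(b (a (a (c (b (l 16776992) (c (l 16777584) (l 16778616))) (c (l 16776480) (l 16777240))) (c (b (l 16779088) (b (c (l 16778224) (l 16779296)) (a (b (l 16779760) (c (l 67880618087) (l 51774491719))) (c (l 115125256823) (l 119957094839))))) (b (l 16777600) (b (l 16779008) (a (c (l 16779064) (l 16778288)) (b (l 63585653735) (l 4))))))) (b (c (a (b (l 16778768) (a (a (l 16779224) (l 16779488)) (b (l 16779680) (c (l 57143199783) (l 41573944311))))) (a (b (c (l 16777080) (l 16776856)) (c (l 108145934871) (l 112977772871))) (b (c (b (l 16777376) (l 90966067431)) (c (l 46942653703) (l 43721428407))) (l 4)))) (c (a (b (l 16778416) (l 16779352)) (b (a (l 16776672) (l 43184558151)) (l 128010158919))) (a (l 16778720) (b (l 27078429031) (l 126936417207))))) (b (a (a (c (c (b (l 16778104) (l 104924711015)) (b (l 16777256) (l 107072194279))) (c (l 49090138423) (l 49090137799))) (l 4)) (l 4)) (l 4)))) (a (b (a (a (c (b (c (l 16778568) (l 16777032))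 (c (l 122104578791) (l 129083900471))) (b (l 16779392) (l 128010158647))) (b (b (c (c (l 51237619735) (l 16777328)) (l 16779424)) (l 4)) (l 4))) (l 4)) (l 4)) (l 4))), by decide +kernel⟩

def k58_mm_202 : ∃ t, chk3 f_mm_202 t 116 78 1 = true :=
  ⟨(a (b (b (c (l 16775120) (l 16774176)) (c (l 16776872) (l 16776016))) (c (c (a (l 16778632) (b (l 16774664) (a (l 16775832) (b (l 16776456) (c (l 22783461735) (l 16778512)))))) (a (l 16778176) (a (l 16779832) (b (l 16774816) (c (l 16779272) (l 16779136)))))) (b (l 16776544) (a (l 16778528) (c (b (l 16780520) (l 16779480)) (l 16778128)))))) (b (a (b (c (l 16778392) (l 16777656)) (c (c (l 16775088) (l 16774712)) (l 16776880))) (b (c (c (l 16776824) (c (l 16775248) (l 16775088))) (b (l 16779528) (l 16777832))) (c (a (b (l 16778712) (c (l 13119784295) (l 16779432))) (a (c (b (l 16777024) (l 77007424167)) (b (l 16776752) (b (l 16777352) (l 4)))) (b (c (l 46942652567) (l 31373397991)) (l 4)))) (c (a (l 16778752) (b (l 16779456) (l 116198998375))) (a (l 16778544)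 (b (l 16779288) (l 69491234471))))))) (a (b (b (c (c (l 16777672) (l 16778656)) (l 16778264)) (a (c (l 16779120) (l 16775976)) (a (c (c (l 27078428647) (l 16777160)) (l 24394074327)) (c (c (l 84523617159) (l 64122524551)) (l 88281712919))))) (a (a (c (b (c (l 16777208) (l 16776936)) (c (l 103850967607) (l 71638717575))) (b (l 16779232) (l 97408518359))) (b (c (c (l 62511909415) (l 45868912871)) (c (l 43721429239) (l 16778456))) (l 4))) (l 4))) (b (a (b (c (a (c (l 54995716375) (l 38352719991)) (c (l 121567707831) (l 127473287655))) (a (c (l 36742107255) (l 16779680)) (l 81839266519))) (l 4)) (l 4)) (l 4))))), by decide +kernel⟩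

def k59_mm_202 : ∃ t, chk3 f_mm_202 t 116 79 1 = true :=
  ⟨(a (b (a (a (b (c (l 16780456) (l 16774544)) (b (c (l 16779104) (l 16775912)) (c (c (c (l 34594622151) (l 35131492279)) (c (l 36742104247) (l 19025366695))) (c (l 17414754775) (l 16779392))))) (b (c (c (l 16776464) (l 16778744)) (l 16778320)) (b (a (c (c (l 16777392) (l 16777120)) (l 16779424)) (c (c (l 78618036999) (l 59827556967)) (l 82376132759))) (l 4)))) (b (b (a (c (c (l 16777072) (l 16776776)) (l 16779032)) (a (c (c (l 70028102407) (l 53385105623)) (b (l 16779680) (l 4))) (l 4))) (a (c (a (c (l 47479523927) (l 34057752471)) (c (l 112977773159) (l 117272740167))) (a (l 50700748887) (l 107609065495))) (l 4))) (l 4))) (a (b (b (a (a (c (c (l 87207971591) (l 67343749943)) (l 91502938199)) (l 4)) (l 4)) (l 4)) (l 4)) (l 4))) (l 4)), by decide +kernel⟩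

def k60_mm_202 : ∃ t, chk3 f_mm_202 t 117 39 1 = true :=
  ⟨(b (a (b (a (b (b (a (c (c (l 16776672) (l 16776384)) (l 16778664)) (a (c (c (l 34594621287) (l 18488495943)) (l 30299657143)) (c (c (l 104924709399) (l 110293418263)) (l 94724164023)))) (a (a (c (c (l 16777232) (l 16776984)) (l 16779304)) (c (c (b (l 16777488) (l 103850969047)) (c (l 71638714199) (l 53385104599))) (b (l 16779664) (l 78081168823)))) (l 4))) (a (b (b (c (c (l 117809611431) (l 123715191255)) (l 110293420407)) (l 4)) (l 4)) (l 4))) (l 4)) (l 4)) (l 4)) (l 4)), by decide +kernel⟩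

def k61_mm_202 : ∃ t, chk3 f_mm_202 t 236 76 1 = true :=
  ⟨(b (c (a (b (l 16777528) (c (l 16774240) (l 16776536))) (c (b (l 16777312) (a (l 16775888) (b (l 16776544) (a (l 16778440) (b (l 42110814039) (l 118883353111)))))) (b (l 16777016) (a (l 16778248) (b (l 16776320) (a (l 16779552) (b (l 16778560) (l 112440903143)))))))) (a (b (l 16776880) (l 16776144)) (a (c (l 16775792) (l 16775592)) (a (b (l 16774328) (b (l 16775744) (l 16779312))) (b (l 16777552) (b (l 16778968) (b (l 16779360) (l 78081168519)))))))) (a (b (b (c (c (l 16775552) (l 16775272)) (l 16776240)) (a (c (l 16778352) (l 16775272)) (c (c (c (l 16778328) (l 16778208)) (l 16779360)) (c (l 16779176) (l 16779032))))) (b (c (a (c (l 16776728) (l 16776496)) (c (a (b (l 16777296) (l 80228649127)) (l 125325804343)) (a (c (l 39963331735) (l 37278977351)) (l 130157642407)))) (a (l 16778832) (a (c (l 36742106903) (l 16779048)) (b (l 72712459271) (l 4))))) (a (a (c (c (c (l 26541557623) (l 16777240)) (l 16779064)) (l 13119787415)) (b (c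 (c (l 61975038151) (l 45868911799)) (l 47479525863)) (l 4))) (l 4)))) (b (b (b (c (a (c (l 16776960) (l 16776744)) (c (l 122104578871) (l 128547029671))) (a (l 16779112) (a (l 65196266375) (l 4)))) (a (a (c (l 16779616) (l 16776664)) (c (c (l 68417489095) (l 50700750183)) (l 52311364135))) (l 4))) (a (a (b (c (c (l 52848232391) (l 36742106199)) (l 38889590967)) (l 4)) (l 4)) (l 4))) (l 4)))), by decide +kernel⟩

def k62_mm_202 : ∃ t, chk3 f_mm_202 t 237 76 1 = true :=
  ⟨(b (a (b (a (b (c (l 16778400) (l 16777984)) (c (c (l 16778088) (l 16779184)) (l 16778928))) (b (c (a (c (l 16776728) (l 16776512)) (b (l 16779568) (c (l 50163877591) (l 33520880663)))) (c (l 16778616) (l 16779144))) (c (c (a (b (l 16778656) (l 93113551207)) (l 137673835575)) (a (b (l 16777176) (l 70564974359)) (l 142505673655))) (a (b (l 16778296) (l 70028104535)) (l 139284448183))))) (b (a (c (c (a (c (l 35131492295) (l 36742104359)) (b (l 75933681799) (l 4))) (a (c (l 20635978615) (l 16778440)) (b (l 56606330263) (l 4))))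 (a (c (l 16778992) (l 16778224)) (b (l 57143202455) (l 4)))) (l 4)) (l 4))) (b (b (b (a (a (c (c (l 67343746887) (l 47479524679)) (l 49627009399)) (l 4)) (l 4)) (l 4)) (l 4)) (l 4))) (l 4)), by decide +kernel⟩

def k63_mm_202 : ∃ t, chk3 f_mm_202 t 118 77 1 = true :=
  ⟨(a (b (a (b (b (b (a (c (c (l 136063222839) (l 141431931815)) (l 140895060919)) (l 4)) (l 4)) (l 4)) (l 4)) (l 4)) (l 4)) (l 4)), by decide +kernel⟩

def k64_mm_202 : ∃ t, chk3 f_mm_202 t 119 38 1 = true :=
  ⟨(l 4), by decide +kernel⟩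

def k65_mm_202 : ∃ t, chk3 f_mm_202 t 59 39 1 = true :=
  ⟨(l 4), by decide +kernel⟩

def k66_mm_202 : ∃ t, chk3 f_mm_202 t 120 72 1 = true :=
  ⟨(a (c (b (c (l 16766344) (l 16765832)) (c (b (l 16766472) (l 16770912)) (b (l 16766032) (l 16770528)))) (c (b (l 16765344) (b (l 16765616) (l 16770168))) (b (l 16764872) (b (l 16765224) (l 16769824))))) (b (b (c (c (l 16770032) (l 16769640)) (c (l 16769264) (l 16768912))) (c (c (l 16771376) (c (l 16771608) (l 16771440))) (a (l 16769800) (c (l 16769816) (l 16769544))))) (a (b (c (l 16772376) (c (l 16769288) (l 16769000))) (c (c (l 16771752) (l 16771472)) (c (l 16771216) (l 16773608)))) (b (c (c (l 16774864) (l 16774608)) (c (l 16774368) (l 16774160))) (c (c (c (l 16775432) (l 16775328)) (c (l 16775224) (l 16775128))) (c (a (l 16773064) (l 16776920)) (l 16774832))))))), by decide +kernel⟩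

def k67_mm_202 : ∃ t, chk3 f_mm_202 t 240 73 1 = true :=
  ⟨(b (a (c (c (l 16772496) (l 16772152)) (c (l 16771176) (c (l 16771600) (l 16771464)))) (c (b (c (l 16771264) (l 16770960)) (c (l 16775704) (l 16775456))) (b (c (l 16770688) (l 16770432)) (c (l 16775224) (l 16775688))))) (a (b (c (c (l 16775224) (l 16774944)) (c (l 16774704) (l 16774480))) (c (c (c (l 16777088) (l 16776968)) (c (l 16776856) (l 16776752))) (b (l 16774728) (l 16775696)))) (b (c (b (c (l 16777064) (l 16776848)) (c (l 16776328) (l 16777784))) (c (a (l 16776528) (l 16777752)) (l 16775688))) (a (c (a (c (l 16778464) (l 16778288)) (b (l 16778496) (c (l 16777512) (l 16778032)))) (c (l 16776968) (l 16777016))) (b (a (c (c (l 16776536) (l 16776384)) (l 16777520)) (c (b (c (l 16776880) (l 16776744)) (c (c (l 39963329927) (a (l 16777144) (l 65733133591))) (c (l 23857203495) (l 16778496)))) (c (l 8287947335) (l 16778120)))) (b (c (a (c (c (l 16778544) (l 16777168)) (l 16778392)) (c (l 128010158759) (l 130694513223))) (a (l 9898560839)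 (c (l 78618037847) (l 79154908471)))) (a (a (c (c (c (l 69491230375) (l 70028101063)) (l 49627007671)) (l 52311363127)) (l 4)) (l 4)))))))), by decide +kernel⟩

def k68_mm_202 : ∃ t, chk3 f_mm_202 t 241 146 1 = true :=
  ⟨(a (a (c (c (b (l 16772992) (l 16777432)) (b (l 16772744) (l 16777240))) (c (b (l 16772528) (l 16777064)) (l 16774952))) (b (c (c (l 16774152) (l 16776560)) (c (l 16776376) (l 16776216))) (c (a (c (l 16776992) (l 16778136)) (b (l 16778344) (c (l 16776704) (l 16777888)))) (c (l 16776664) (l 16776880))))) (b (c (c (b (c (l 16776136) (l 16776048)) (a (l 16775768) (a (l 16776632) (b (l 16776984) (a (l 19562236119) (b (l 73249326343) (l 4))))))) (a (c (l 16777800) (l 16777720)) (b (l 16777184) (a (l 16777816) (b (l 16778184) (a (l 16778496) (l 66806876967))))))) (b (c (l 16776440) (l 16776320)) (a (l 16778032) (a (l 16777664) (b (l 16778048) (a (l 16778712) (a (l 60364426359) (l 105461582471)))))))) (a (b (a (c (c (l 16776384) (l 16776240)) (l 16777384)) (c (b (l 16778632) (c (c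 (l 23857202295) (l 16778464)) (l 16778384))) (c (l 16778056) (l 16777984)))) (b (a (c (c (l 16778368) (l 16778248)) (l 16778120)) (a (c (c (c (l 71638713911) (l 74323068135)) (l 50700749447)) (c (l 50163878343) (l 16778536))) (l 4))) (a (c (c (a (c (l 45868910007) (l 16777968)) (b (l 88818582935) (l 4))) (a (l 16778392) (l 77007424359))) (c (c (l 50163878455) (l 49627007431)) (l 50700749495))) (l 4)))) (a (a (b (c (c (b (l 16777160) (b (l 80228648327) (l 4))) (b (l 16777048) (l 72175586087))) (c (b (l 16776968) (l 70564973239)) (l 49090135895))) (l 4)) (b (b (c (c (c (l 65733133815) (l 58753812039)) (l 46405782087)) (c (l 45868910919) (l 16778528))) (l 4)) (l 4))) (l 4))))), by decide +kernel⟩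

def k69_mm_202 : ∃ t, chk3 f_mm_202 t 241 147 1 = true :=
  ⟨(a (b (a (c (c (a (c (l 16777032) (l 16776952)) (b (l 16776456) (b (l 16778440) (a (c (l 57143199319) (l 58753811719)) (l 132841996887))))) (b (l 16777328) (b (l 16778680) (a (l 16776872) (a (l 39963331143) (l 88281713799)))))) (a (c (l 16777368) (l 16777264)) (b (l 16777448) (b (l 16778184) (a (l 42647686327) (l 86134231015)))))) (c (b (a (b (a (l 16777904) (l 16778192)) (c (c (l 31373395207) (l 19025365095)) (l 16341011031))) (a (c (b (l 16777224) (l 127473287703)) (b (l 16777120) (l 81302391879))) (b (c (c (l 76470552247) (l 79154906471)) (l 55532587719)) (l 4)))) (a (a (b (b (a (l 24394075175) (l 65196264855)) (l 4)) (l 4)) (l 4)) (l 4))) (a (b (c (l 18488492711) (l 16778048)) (c (l 133915739047) (l 133378868167))) (b (c (b (l 35668363959) (l 142505673431)) (b (l 16778448) (l 141968802551))) (l 4))))) (a (a (b (b (c (c (a (l 19562235991) (b (l 67880617447) (l 4))) (a (l 16778496) (l 65733135175))) (c (l 42647685927) (l 42647685623)))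 (l 4)) (l 4)) (l 4)) (l 4))) (l 4)), by decide +kernel⟩

def k70_mm_202 : ∃ t, chk3 f_mm_202 t 242 144 1 = true :=
  ⟨(c (c (a (b (l 16770896) (l 16774048)) (a (b (l 16772656) (l 16775800)) (b (l 16775136) (a (l 16776688) (b (l 16775504) (l 16776416)))))) (a (b (l 16770608) (l 16773816)) (b (c (l 16774392) (l 16774288)) (a (l 16775624) (c (b (l 16775088) (l 16777336)) (l 16776808)))))) (a (c (b (l 16770344) (l 16773600)) (b (l 16770096) (c (l 16774760) (l 16774672)))) (c (b (c (l 16774192) (l 16774104)) (a (l 16776776) (l 16776224))) (b (c (l 16774016) (l 16773936)) (a (l 16776640) (l 16776288)))))), by decide +kernel⟩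

def k71_mm_202 : ∃ t, chk3 f_mm_202 t 484 145 1 = true :=
  ⟨(b (c (b (c (l 16775424) (l 16776536)) (c (c (l 16776384) (l 16776296)) (c (l 16777520) (l 16777440)))) (c (l 16775536) (a (l 16776072) (l 16777352)))) (a (c (a (c (l 16776832) (l 16776672)) (b (l 16777536) (c (l 16776560) (l 16777744)))) (c (l 16776520) (l 16776744))) (b (a (c (c (l 16776232) (l 16776096)) (l 16777248)) (c (c (c (l 16778160) (l 16778096)) (l 16777360)) (c (l 16777920) (l 16777856)))) (b (a (c (c (l 16776912) (l 16776800)) (l 16777984)) (c (c (a (c (l 49627006199) (l 38352717447)) (l 125862674967)) (a (l 32447138103) (l 130157642167))) (c (a (l 16778496) (l 77544295223)) (l 51774491335)))) (b (a (c (c (c (l 16777928) (l 16778536)) (l 16778464)) (l 15267269511)) (l 4)) (a (a (c (c (l 16777312) (l 16777224)) (l 16778448)) (l 4)) (l 4))))))), by decide +kernel⟩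

def k72_mm_202 : ∃ t, chk3 f_mm_202 t 485 145 1 = true :=
  ⟨(b (a (c (c (b (l 16777176) (b (l 16777208) (a (l 16776720) (a (l 16777152) (b (l 16777968) (l 105461581127)))))) (b (l 16777040) (b (l 16777744) (b (l 16778104) (a (l 16776720) (a (l 16777168) (l 77007423847))))))) (b (l 16776912) (a (l 16777536) (a (l 16778016) (b (l 16778080) (a (l 39426460423) (l 66270006471))))))) (c (a (b (c (c (l 16776776) (l 16776720)) (l 16777952)) (b (c (a (c (l 36205233207) (l 16777904)) (b (l 60901296119) (l 4))) (a (l 16778176) (b (l 56069457959) (l 4)))) (l 4))) (b (c (b (c (l 9361688167) (l 16778392)) (a (c (l 59827553735) (l 49090135911)) (l 143042544327))) (b (l 16778320) (a (c (l 45868910535) (l 44258297735)) (l 147337511543)))) (l 4))) (b (c (a (l 16777856) (b (l 16778248) (a (l 43721427095) (l 92039809879)))) (b (l 16777864) (a (l 16776728) (a (l 16777872) (l 92039809735))))) (a (b (c (a (l 16778432) (l 68954360423)) (l 45868911143)) (l 4)) (l 4))))) (a (b (b (c (a (c (c (c (l 24930944135) (l 16877880887))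 (l 12582914007)) (c (l 16778408) (l 16778368))) (a (c (l 121030836695) (b (l 61975038103) (l 4))) (l 4))) (a (c (l 16778312) (l 16778256)) (c (l 135526351527) (l 134452609735)))) (a (a (c (c (c (l 64659392391) (l 61975037767)) (b (l 16778568) (l 85597358503))) (c (l 52848232919) (l 69491229975))) (l 4)) (l 4))) (l 4)) (l 4))), by decide +kernel⟩

def k73_mm_202 : ∃ t, chk3 f_mm_202 t 486 144 1 = true :=
  ⟨(b (c (c (b (c (l 16776488) (l 16776408)) (b (a (l 16775232) (l 16777072)) (a (l 16775696) (b (c (l 16776792) (l 16776736)) (a (l 16776696) (a (l 16777128) (l 55532586983))))))) (a (c (l 16776200) (l 16776120)) (b (l 16776904) (b (l 16777616) (a (l 16776472) (c (l 13656655751) (l 16778056))))))) (b (c (l 16776160) (l 16776048)) (c (a (l 16777824) (c (b (l 16777544) (l 16778360)) (l 16777752))) (a (l 16777720) (c (l 16777720) (l 16777688)))))) (a (b (c (c (c (l 16777072) (l 16777008)) (l 16776920)) (c (l 16777480) (l 16777408))) (c (b (a (c (l 16776776) (l 16776672)) (c (a (c (l 16777896) (l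 16777192)) (b (l 47479523191) (l 4))) (a (l 16778440) (b (l 16778264) (l 4))))) (b (a (c (l 16778424) (l 16778336)) (c (l 139821318871) (l 143579415175))) (a (a (l 16778456) (c (l 67880618183) (l 64659392615))) (l 4)))) (c (a (c (l 5603592215) (l 16341009239)) (b (a (l 16777064) (l 60364425719)) (l 147337511799))) (a (l 16778088) (b (l 39426460119) (l 146800640903)))))) (b (b (c (a (a (l 16778152) (c (l 16778168) (l 16778408))) (a (b (c (l 40500201303) (l 16777920)) (c (l 123178321191) (l 90966067527))) (l 4))) (a (c (l 16778184) (l 16776816)) (a (b (l 40500202023) (l 90429197415)) (l 4)))) (a (c (c (a (b (l 16777224) (l 63048779767)) (l 131768255063)) (a (c (l 37278975719) (l 16778224)) (b (l 73786198199) (l 4)))) (c (a (l 35668363335) (l 81302391527)) (a (l 16777824) (l 81302391367)))) (l 4))) (l 4)))), by decide +kernel⟩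

def k74_mm_202 : ∃ t, chk3 f_mm_202 t 487 144 1 = true :=
  ⟨(b (a (b (c (b (c (c (l 16777360) (l 16777304)) (l 16777232)) (c (a (l 16776840) (a (b (l 16777160) (l 50163877735)) (b (l 65196263431) (l 4)))) (a (l 16778056) (a (l 22246590535) (a (l 66270005575) (l 4)))))) (b (c (l 16777808) (l 16777744)) (a (l 16777944) (c (a (l 16778128) (l 72712456823)) (a (l 16778416) (l 73249327575)))))) (a (a (b (c (c (l 16778464) (l 16778376)) (l 16778288)) (b (c (c (l 70564972759) (l 67343747207)) (l 68417489735)) (l 4))) (b (b (c (c (l 34057750327) (l 16777904)) (l 16778480)) (c (c (l 87744842087) (l 84523616535)) (l 82913004503))) (l 4))) (l 4))) (a (a (b (b (b (c (c (l 23857202951) (l 16777872)) (l 16778456)) (c (c (l 79691778343) (l 76470552807)) (l 77007424423))) (l 4)) (l 4)) (b (l 4) (l 4))) (l 4))) (l 4)), by decide +kernel⟩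

def k75_mm_202 : ∃ t, chk3 f_mm_202 t 243 145 1 = true :=
  ⟨(a (b (a (a (a (b (b (b (c (c (l 54995715959) (l 49090136119)) (l 52311362295)) (l 4)) (l 4)) (l 4)) (l 4)) (l 4)) (l 4)) (l 4)) (l 4)), by decide +kernel⟩

def k76_mm_202 : ∃ t, chk3 f_mm_202 t 121 73 1 = true :=
  ⟨(a (b (a (b (a (c (a (b (c (c (l 16778232) (l 16778168)) (l 16778416)) (b (c (a (c (l 58753811943) (l 58753811687)) (l 136600093319)) (a (l 41573943783) (l 142505673255))) (l 4))) (b (a (c (b (l 16777088) (b (l 66806875239) (l 4))) (b (l 16776984) (l 61975038695))) (b (c (c (l 55532586279) (l 43721426615)) (l 37278976375)) (l 4))) (l 4))) (b (c (a (l 16777992) (b (l 16778376) (a (l 61438167623) (l 4)))) (a (l 16777920) (b (l 16778320) (l 73249328279)))) (a (b (c (a (l 16778384) (l 87207971671)) (l 58753813351)) (l 4)) (l 4)))) (a (a (b (a (b (c (c (l 82376133287) (l 78618036807)) (l 79154908503)) (l 4)) (l 4)) (l 4)) (l 4)) (l 4))) (l 4)) (l 4)) (l 4)) (l 4)), by decide +kernel⟩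

def k77_mm_202 : ∃ t, chk3 f_mm_202 t 60 37 1 = true :=
  ⟨(a (b (a (b (a (b (c (b (a (l 16777704) (c (l 16776328) (l 16777472))) (a (c (l 16776088) (l 16775904)) (c (a (c (l 16776976) (l 16776896)) (b (c (l 31373395335) (l 16777896)) (a (l 64659392007) (l 4)))) (a (l 16778104) (b (l 15804140135) (a (l 60364426039) (l 4))))))) (b (c (l 16776728) (l 16776600)) (b (c (a (l 16775520) (l 16778056)) (l 16777992)) (a (l 16778560) (a (l 16778184) (a (l 61438168679) (l 4))))))) (a (a (c (c (b (l 16776688) (b (c (l 39426459223) (l 41037071511)) (l 125325804167))) (b (l 16776536) (b (l 22783462215) (l 129620771351)))) (b (l 16777656) (a (b (l 16778232) (l 70564974295)) (b (l 47479524903) (l 4))))) (b (b (c (c (l 16777032) (l 16776888)) (l 16778040)) (c (c (a (l 16778624) (l 89892324983)) (c (l 44258298439) (l 42647685703))) (c (l 42110815095) (l 16778504)))) (l 4))) (a (b (b (c (c (a (l 59290682711) (l 115662129063)) (a (l 39963331143) (l 88281713831))) (c (l 56606330007) (l 57143200615))) (l 4)) (l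 4)) (l 4)))) (b (a (a (a (b (c (c (l 16778344) (l 16778216)) (l 16778056)) (c (c (l 138210706391) (l 141968802679)) (b (l 80228650887) (l 4)))) (b (b (c (l 16778992) (l 16776816)) (c (c (c (l 76470552231) (l 75933681207)) (l 54995716823)) (l 57143201335))) (l 4))) (b (b (c (c (a (l 30299654343) (l 103850968711)) (a (l 16778560) (l 75933682647))) (c (l 49627008087) (l 49627007719))) (l 4)) (l 4))) (l 4)) (l 4))) (l 4)) (l 4)) (l 4)) (l 4)), by decide +kernel⟩

def k78_mm_202 : ∃ t, chk3 f_mm_202 t 61 18 1 = true :=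
  ⟨(l 4), by decide +kernel⟩

def k79_mm_202 : ∃ t, chk3 f_mm_202 t 30 19 1 = true :=
  ⟨(l 4), by decide +kernel⟩

def k80_mm_202 : ∃ t, chk3 f_mm_202 t 31 9 1 = true :=
  ⟨(l 4), by decide +kernel⟩

def k81_mm_202 : ∃ t, chk3 f_mm_202 t 12 10 1 = true :=
  ⟨(b (a (b (l 16666704) (l 16699144)) (c (b (l 16697904) (l 16731040)) (b (l 16713552) (l 16726192)))) (a (b (l 16710744) (l 16722512)) (a (b (l 16712336) (l 16724800)) (b (l 16748768) (l 16751136))))), by decide +kernel⟩

def k82_mm_202 : ∃ t, chk3 f_mm_202 t 13 20 1 = true :=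
  ⟨(a (b (a (c (l 16698912) (l 16694304)) (c (l 16735048) (l 16741512))) (a (c (l 16732624) (l 16728488)) (b (l 16742976) (l 16754872)))) (a (b (c (a (l 16746672) (l 16754568)) (b (l 16743840) (l 16750752))) (c (b (l 16760624) (l 16767296)) (b (l 16757664) (l 16764584)))) (a (b (b (l 16757712) (b (l 16762872) (l 16766312))) (c (b (l 16772688) (l 16768952)) (b (l 16770328) (l 16772088)))) (b (b (c (l 16746328) (l 16764808)) (c (l 16763600) (l 16761392))) (b (c (l 16773008) (b (l 16766696) (l 16770224))) (b (c (l 16775480) (l 16773752)) (c (l 16778872) (l 16777280)))))))), by decide +kernel⟩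

def k83_mm_202 : ∃ t, chk3 f_mm_202 t 26 21 1 = true :=
  ⟨(a (b (b (l 16740296) (l 16746856)) (c (l 16769000) (l 16760360))) (b (c (b (l 16757976) (l 16764584)) (b (l 16754768) (l 16761568))) (a (b (l 16765632) (l 16772376)) (b (l 16773856) (a (l 16778576) (l 16777488)))))), by decide +kernel⟩

def k84_mm_202 : ∃ t, chk3 f_mm_202 t 54 21 1 = true :=
  ⟨(b (a (b (l 16768536) (a (l 16773264) (l 16772168))) (b (c (l 16767544) (l 16765256)) (c (a (l 16772232) (l 16776312)) (l 16777464)))) (a (b (c (l 16772864) (l 16770608)) (b (c (l 16777912) (l 16775824)) (a (l 16780752) (c (l 16783256) (l 16781448))))) (b (a (c (l 16778960) (l 16777040)) (b (c (l 16781352) (l 16779608)) (c (c (l 16779864) (l 16778992)) (l 16777208)))) (a (b (c (l 16781336) (l 16782272)) (c (a (c (l 12582919335) (l 16780544)) (b (c (l 29225912967) (l 16776456)) (c (a (l 57143199223) (l 4)) (l 73249326135)))) (a (l 16779456) (b (l 16780768) (a (l 34594629287) (l 4)))))) (b (a (b (c (l 16775592) (l 16774152)) (a (c (l 16781888)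 (l 16775360)) (c (b (l 16777152) (l 60901295639)) (l 26541564871)))) (b (a (c (c (l 16777320) (l 16776664)) (l 16781048)) (b (c (l 32984011751) (l 16776464)) (l 4))) (c (c (l 101703484807) (l 108145934679)) (l 114588385127)))) (b (a (a (b (c (l 53921974535) (l 16776720)) (l 4)) (l 4)) (l 4)) (l 4))))))), by decide +kernel⟩

def k85_mm_202 : ∃ t, chk3 f_mm_202 t 55 42 1 = true :=
  ⟨(a (b (c (c (l 16776240) (l 16775200)) (b (l 16772104) (l 16775608))) (a (c (c (l 16780888) (l 16779928)) (l 16778688)) (b (c (l 16782800) (l 16781288)) (a (c (l 16779848) (l 16778464)) (b (c (l 16781008) (l 16774520)) (b (c (c (l 16777232) (l 16776640)) (l 16781112)) (c (a (l 17414758343) (l 70028100807)) (c (l 31910271895) (l 16779224))))))))) (b (a (b (c (l 16780184) (l 16778616)) (c (l 16780920) (l 16776896))) (b (b (c (l 16778208) (l 16782120)) (c (l 16781176) (l 16778640))) (a (b (c (l 16780496) (l 16774056)) (c (a (l 16781592) (c (c (l 36742105143) (l 36205233111)) (l 24930943143))) (c (l 16781336) (l 16780896))))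 (a (c (b (c (l 16777000) (l 16776440)) (c (l 82376132183) (l 86671098743))) (b (l 16780960) (b (l 42647691303) (l 4)))) (b (b (c (c (l 16777496) (l 16777008)) (l 16776392)) (c (c (l 67343746999) (l 71101842791)) (l 52848238967))) (l 4)))))) (a (b (c (c (a (l 16780944) (b (l 23320331719) (a (b (l 16777400) (l 67880614519)) (l 92039808519)))) (a (l 16780232) (b (l 16781440) (a (l 31373392535) (l 99556000503))))) (a (l 16778016) (b (l 16780648) (a (c (l 16780776) (l 16776472)) (b (l 56069464775) (l 4)))))) (a (b (c (c (a (l 30299655623) (b (l 55532587191) (l 4))) (a (l 16776912) (l 72175585287))) (a (l 16781448) (b (l 16781448) (l 4)))) (l 4)) (l 4))) (b (a (a (b (b (c (a (l 16777224) (l 54458845447)) (l 16781872)) (l 4)) (l 4)) (l 4)) (l 4)) (l 4))))), by decide +kernel⟩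

def k86_mm_202 : ∃ t, chk3 f_mm_202 t 55 43 1 = true :=
  ⟨(a (b (a (b (a (c (l 16779136) (l 16782864)) (b (c (l 16775056) (l 16773672)) (c (c (l 26541557687) (l 16776312)) (l 16780696)))) (a (b (c (c (l 16776648) (l 16775936)) (l 16780248)) (c (c (a (l 34594623303) (l 70028101511)) (a (l 16777016) (l 72712455975))) (c (b (l 16781848) (l 48016399655)) (l 38352723655)))) (b (c (a (c (l 56606326631) (l 42647684231)) (c (l 91502937847) (l 97408517015))) (c (a (l 16779520) (l 104387838247)) (l 49627013911))) (l 4)))) (b (a (a (b (c (l 16781728) (l 16775304)) (c (c (l 59290682887) (l 61975037847)) (b (l 16776664) (l 4)))) (b (c (c (l 45332040279) (l 16777136)) (l 14730404359)) (l 4))) (a (b (c (c (l 80765519639) (l 85060486119)) (b (l 43184562567) (l 4))) (l 4)) (l 4))) (l 4))) (l 4)) (l 4)), by decide +kernel⟩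

def k87_mm_202 : ∃ t, chk3 f_mm_202 t 12 11 1 = true :=
  ⟨(b (a (b (l 16734528) (c (l 16749200) (l 16744736))) (b (a (l 16758464) (b (l 16750456) (l 16757056))) (a (l 16760984) (c (b (l 16765608) (l 16772328)) (l 16773264))))) (a (a (b (l 16730136) (l 16743176)) (b (l 16767976) (a (l 16756176) (l 16775304)))) (b (a (b (l 16760528) (l 16777816)) (b (c (l 16779120) (l 16775720)) (a (l 16780032) (b (l 16781480) (c (l 16781216) (l 16778280)))))) (a (b (c (l 16776288) (l 16772392)) (c (a (l 16779056) (l 16787392)) (l 16779432))) (a (b (c (l 16778224) (l 16785408)) (a (c (l 16785552) (l 16779848)) (b (c (l 16785136) (l 16782416)) (a (c (l 26004700599) (l 16784944)) (b (c (l 35668374551) (l 16775728)) (l 4)))))) (b (a (b (l 16783672) (c (c (l 16775936) (l 16774600)) (l 16783208))) (b (c (c (l 22783470519) (l 16780496)) (l 16784016)) (a (c (c (l 51237622615) (l 52848229383)) (c (l 21709727127) (l 16775608))) (l 4)))) (a (b (c (a (c (l 44258299575) (l 16782000)) (b (l 61438167751) (l 4))) (a (l 16783120)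 (b (l 16783040) (l 4)))) (l 4)) (l 4)))))))), by decide +kernel⟩

def k88_mm_202 : ∃ t, chk3 f_mm_202 t 26 22 1 = true :=
  ⟨(b (a (c (b (l 16768464) (l 16775144)) (b (l 16765264) (l 16772080))) (a (b (c (l 16780576) (l 16777896)) (b (l 16779040) (c (l 16778504) (l 16776064)))) (b (c (c (l 16778832) (l 16777576)) (l 16778552)) (b (c (a (l 16781192) (c (l 16781392) (l 16779400))) (c (l 16776392) (l 16780720))) (a (c (l 16781840) (l 16777240)) (b (a (c (l 16776016) (l 16774344)) (c (c (l 57680067735) (l 44795167463)) (c (l 28689047479) (l 16776320)))) (a (c (c (l 46405783847) (l 48016392263)) (l 36742104231)) (l 4)))))))) (a (b (c (a (l 16777808) (l 16775456)) (l 16778960)) (b (a (l 16781312) (c (l 16780496) (l 16777944))) (a (l 16784744) (a (l 16783120) (c (c (l 16877889239) (l 16779904)) (l 16783608)))))) (a (b (a (c (c (l 16782160) (l 16780856)) (l 16779136)) (b (c (l 16783800) (l 16781680)) (a (c (c (l 16776048) (l 16775016)) (l 16784096)) (b (c (l 17414761367) (l 16780136)) (c (c (l 59290683463)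 (l 46942650983)) (l 52848231351)))))) (a (b (b (c (l 16780288) (l 16773008)) (c (a (l 16775640) (c (l 44795171895) (l 16777000))) (l 13656654951))) (c (c (a (b (l 16777576) (l 78081166007)) (l 96334776567)) (a (b (l 16776680) (l 65196261287)) (l 102240355271))) (a (b (l 16780720) (l 53385114967)) (l 109756546551)))) (a (b (b (c (c (l 50163880423) (l 50163876743)) (l 40500199911)) (l 4)) (l 4)) (l 4)))) (b (a (a (b (c (c (b (l 16775896) (l 16777320)) (l 16780952)) (l 16779688)) (a (b (c (l 55532586919) (l 16781800)) (l 4)) (l 4))) (b (c (b (c (l 36205236503) (l 16776800)) (c (l 71638714887) (l 76470551927))) (b (l 16778368) (a (l 38889597607) (l 4)))) (l 4))) (a (b (c (c (l 107609064423) (l 113514643575)) (l 118883352503)) (l 4)) (l 4))) (l 4))))), by decide +kernel⟩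

def k89_mm_202 : ∃ t, chk3 f_mm_202 t 27 22 1 = true :=
  ⟨(a (b (a (b (a (b (c (l 16782560) (l 16780632)) (b (c (l 16779760) (l 16783240)) (c (c (a (l 16775616) (l 32984009927)) (l 16780928)) (l 16782080)))) (b (a (c (l 16782880) (l 16783856)) (b (c (l 16781368) (l 16774656)) (a (c (c (l 16777504) (l 16776808)) (l 16781128)) (c (c (l 67880617879) (l 54458844007)) (l 42110822679))))) (a (c (b (c (l 43184555031) (l 23320332279)) (c (l 85597358279) (l 90429195479))) (b (c (l 16781592) (l 16775768)) (l 98482258199))) (l 4)))) (a (b (a (b (c (c (l 16777080) (l 16776264)) (l 16780432)) (a (c (c (l 50163880119) (l 16777288)) (l 16781672)) (l 4))) (a (b (b (c (l 49627007239) (l 16776376)) (l 4)) (l 4)) (l 4))) (l 4)) (l 4))) (b (a (b (b (a (a (c (c (l 45332041719) (l 16777144)) (l 16781568)) (c (c (l 68954359895) (l 73786197047)) (l 59827563719))) (l 4)) (l 4)) (l 4)) (l 4)) (l 4))) (l 4)) (l 4)), by decide +kernel⟩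

def k90_mm_202 : ∃ t, chk3 f_mm_202 t 13 23 1 = true :=
  ⟨(a (a (b (a (b (c (b (l 16779176) (c (l 16783232) (l 16781800))) (b (l 16786840) (l 16779856))) (a (b (c (l 16783800) (l 16770728)) (a (c (l 16785984) (l 16773160)) (c (b (l 16776512) (l 55532586343)) (l 24394072407)))) (a (b (c (c (l 16776688) (l 16775544)) (l 16784456)) (b (c (l 59827553975) (l 50163874583)) (l 4))) (b (b (c (l 28152181143) (l 16775256)) (c (l 71638709143) (l 46405792759))) (l 4))))) (b (a (b (c (c (l 16775192) (l 16773976)) (l 16782792)) (c (a (c (l 27078434695) (l 16781448)) (b (c (l 49090139351) (l 16777208)) (l 4))) (a (l 16780040) (b (l 32984007335) (l 4))))) (b (a (b (c (l 16781760) (l 16774648)) (c (c (l 54995718727) (l 52311361335)) (l 45332037303))) (a (b (c (l 38352726983) (l 16776304)) (l 4)) (l 4))) (l 4))) (a (a (b (b (c (l 66270005495) (l 55532598807)) (l 4)) (l 4)) (l 4)) (l 4)))) (a (b (a (a (b (b (c (l 35131503415) (l 16781128)) (l 4)) (l 4)) (l 4)) (l 4)) (l 4)) (l 4))) (l 4)) (l 4)), by decide +kernel⟩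

def k91_mm_202 : ∃ t, chk3 f_mm_202 t 56 40 1 = true :=
  ⟨(a (b (c (l 16765016) (c (l 16763456) (l 16762512))) (b (c (l 16770144) (l 16768320)) (c (l 16773560) (l 16771880)))) (b (c (b (l 16771632) (l 16775072)) (b (l 16769984) (c (l 16773920) (l 16773256)))) (a (c (c (l 16778504) (l 16777728)) (b (l 16774936) (l 16778512))) (b (c (l 16775360) (l 16774152)) (c (a (l 16777728) (b (l 16773728) (l 16780656))) (c (l 16775344) (l 16777528))))))), by decide +kernel⟩

def k92_mm_202 : ∃ t, chk3 f_mm_202 t 112 41 1 = true :=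
  ⟨(b (b (c (l 16776968) (l 16775440)) (c (c (l 16780776) (l 16779992)) (c (l 16779304) (l 16778704)))) (a (b (c (l 16781680) (l 16780328)) (b (c (l 16778968) (l 16777744)) (a (c (l 16774360) (l 16773168)) (c (c (c (l 16776808) (l 16776512)) (l 16781344)) (l 16780632))))) (b (a (c (l 16779536) (l 16778400)) (b (c (l 16780744) (l 16779736)) (b (c (c (l 16779592) (l 16776472)) (l 16781080)) (a (c (l 10435435591) (l 16776160)) (c (c (l 70028102119) (l 72175585191)) (l 53921980487)))))) (a (a (b (c (l 16781480) (l 16775264)) (c (c (b (l 16777600) (l 85597357479)) (b (l 16777160) (l 89355454023))) (b (l 16779248) (l 67343754039)))) (b (b (c (l 16782040) (l 16775928)) (c (a (l 17951627943) (l 56606328215)) (l 46942651959))) (l 4))) (a (b (b (c (c (l 54995716455) (l 56606328679)) (l 60901296103)) (l 4)) (l 4)) (l 4)))))), by decide +kernel⟩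

def k93_mm_202 : ∃ t, chk3 f_mm_202 t 113 41 1 = true :=
  ⟨(b (a (b (c (c (l 16778320) (l 16777664)) (l 16776840)) (a (a (c (l 16779792) (l 16778736)) (c (b (l 16774744) (l 16780312)) (l 16777232))) (c (b (c (a (l 16776040) (l 16778312)) (l 16778656)) (a (c (b (l 16777184) (l 56069458551)) (b (l 16776736) (l 58753812103))) (b (c (l 71638715111) (l 73786198055)) (l 4)))) (b (l 16780648) (a (c (l 17414756631) (l 16779144)) (b (l 76470552583) (l 4))))))) (b (a (a (c (c (l 16775608) (l 16775072)) (l 16777016)) (b (c (l 16775528) (l 16774616)) (c (b (l 16781976) (c (l 43184556535) (l 45868909719))) (c (l 16780536) (l 16778920))))) (a (b (c (c (l 16776776) (l 16776320)) (l 16780992)) (b (c (c (l 58216942295) (l 44258300567)) (l 61975038167)) (l 4))) (b (b (c (c (l 16777320) (l 16776928)) (l 16779056)) (c (c (l 73249328103) (l 77007423255)) (l 77544294759))) (l 4)))) (a (b (a (c (c (b (l 16777520) (l 90429195463)) (b (l 16777128) (l 89892325511))) (b (l 16780584) (l 65733140807))) (l 4)) (l 4)) (l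 4)))) (a (b (a (a (b (c (c (l 13656655991) (l 16779392)) (l 16780776)) (c (c (l 111367160615) (l 117272740215)) (l 121030836535))) (b (b (c (c (l 42110814439) (l 16777976)) (l 46405781399)) (l 4)) (l 4))) (l 4)) (l 4)) (l 4))), by decide +kernel⟩

def k94_mm_202 : ∃ t, chk3 f_mm_202 t 114 40 1 = true :=
  ⟨(b (c (a (b (l 16777952) (l 16778776)) (b (c (l 16777264) (l 16776688)) (a (c (l 16779600) (l 16779080)) (b (l 16780592) (a (c (l 16776712) (l 16776304)) (c (b (l 16777272) (l 85060486183)) (b (l 16776928) (a (l 57680070183) (l 4))))))))) (a (b (l 16776680) (l 16775048)) (b (l 16775952) (b (c (l 16776240) (l 16778496)) (b (c (l 16777584) (l 16777256)) (a (l 16774544) (a (l 16778880) (c (l 56606332743) (l 56606332215))))))))) (a (b (c (a (l 16778520) (b (l 16779776) (a (l 16780936) (c (l 16778240) (l 16779144))))) (b (l 16777752) (c (l 16777128) (l 16779384)))) (a (a (b (c (l 16775296) (l 16774408)) (c (c (b (l 16776744) (l 23857203351)) (l 3456111783)) (a (l 16781168) (l 9898564231)))) (b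 (c (c (l 16776544) (l 16776096)) (l 16780776)) (b (c (c (l 44258298631) (l 31910269287)) (l 47479523319)) (l 4)))) (b (b (a (c (c (l 16777112) (l 16776712)) (l 16776224)) (c (c (l 74859941079) (a (l 16777416) (l 4))) (l 79154907511))) (a (c (c (l 59290683239) (l 45868913303)) (c (l 41573946695) (l 16779680))) (l 4))) (l 4)))) (b (a (a (c (b (l 16781336) (b (c (l 25467816359) (l 16777128)) (c (l 98482258791) (l 103850967335)))) (b (l 16780576) (b (l 14193530951) (a (l 79154906823) (l 4))))) (b (b (c (l 16779320) (l 16776016)) (c (c (c (l 46942652999) (l 46942652823)) (l 32984008983)) (c (l 30836528039) (l 16779472)))) (c (c (l 130694514007) (l 136600093831)) (l 137136964855)))) (b (a (b (c (c (a (l 16777568) (l 86134229287)) (c (l 63585650903) (l 48016396183))) (c (l 43721430391) (l 44258300743))) (l 4)) (l 4)) (l 4))) (l 4)))), by decide +kernel⟩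

def k95_mm_202 : ∃ t, chk3 f_mm_202 t 115 40 1 = true :=
  ⟨(b (a (b (a (b (c (l 16779304) (l 16778464)) (c (c (l 16777296) (l 16778176)) (l 16777656))) (b (c (a (l 16780896) (c (c (l 16776992) (l 16776800)) (l 16779152))) (c (l 16778288) (l 16778008))) (b (c (a (c (l 16777072) (l 16776728)) (c (a (l 60364425575) (l 4)) (l 94724161991))) (a (l 16778920) (a (l 63585650679) (l 4)))) (a (c (c (a (l 38889588855) (l 90966067655)) (a (l 16777272) (l 93650421719))) (c (l 46405784999) (l 46405784407))) (l 4))))) (a (b (b (a (c (l 16776488) (l 16775816)) (c (c (c (l 49627007687) (l 48553265879)) (c (l 50700748583) (l 35668364919))) (c (l 33520882663) (l 16779528)))) (c (a (c (l 28152170903) (l 14730400247)) (a (l 108682805703) (l 4))) (a (l 15804143607) (l 130694513223)))) (a (a (b (c (c (l 77544294791) (l 79154907015)) (l 82376132487)) (l 4)) (l 4)) (l 4))) (l 4))) (b (a (a (b (c (b (c (c (l 31910267271) (l 29762783623)) (c (l 16778536) (l 16777088))) (c (l 108682805911) (l 115662127463))) (a (b (l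 16776488) (l 86671099895)) (b (l 54995716087) (l 4)))) (l 4)) (l 4)) (l 4)) (l 4))) (l 4)), by decide +kernel⟩

def k96_mm_202 : ∃ t, chk3 f_mm_202 t 57 41 1 = true :=
  ⟨(a (b (a (b (a (a (a (b (c (c (l 103314096887) (l 108682805543)) (l 112977772663)) (l 4)) (l 4)) (l 4)) (l 4)) (l 4)) (l 4)) (l 4)) (l 4)), by decide +kernel⟩

def k97_mm_202 : ∃ t, chk3 f_mm_202 t 28 21 1 = true :=
  ⟨(a (b (a (b (a (b (a (b (c (c (l 16776296) (l 16775704)) (l 16780176)) (a (c (c (l 27615300391) (l 16776824)) (l 16781424)) (b (c (c (l 56069456023) (l 16777360)) (l 46942651943)) (l 4)))) (b (b (a (c (l 12046048583) (l 16776160)) (c (c (l 68417489143) (l 71638713911)) (l 53385109719))) (a (a (c (l 48553264823) (l 16776784)) (l 4)) (l 4))) (l 4))) (a (b (c (c (l 122641450151) (l 128547029847)) (l 130157642743)) (l 4)) (l 4))) (l 4)) (l 4)) (l 4)) (l 4)) (l 4)), by decide +kernel⟩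

def k98_mm_202 : ∃ t, chk3 f_mm_202 t 29 10 1 = true :=
  ⟨(l 4), by decide +kernel⟩

def k99_mm_202 : ∃ t, chk3 f_mm_202 t 15 10 1 = true :=
  ⟨(l 4), by decide +kernel⟩

def k100_mm_202 : ∃ t, chk3 f_mm_202 t 7 11 1 = true :=
  ⟨(l 4), by decide +kernel⟩

def k101_mm_202 : ∃ t, chk3 f_mm_202 t 12 24 1 = true :=
  ⟨(a (b (a (l 16772568) (a (l 16775392) (b (l 16775384) (l 16782560)))) (a (c (l 16779064) (l 16779288)) (a (b (l 16781032) (c (l 16790480) (l 16786264))) (b (c (c (l 16782248) (l 16790720)) (l 16787856)) (a (c (b (l 16773744) (l 30836541751)) (l 16785248)) (b (c (c (l 37278987063) (l 16781888)) (l 16877894631)) (c (a (l 70564973639) (l 4)) (l 63585671223)))))))) (a (b (a (b (c (l 16786064) (l 16782184)) (c (a (l 16790936) (c (l 16785256) (l 16783568))) (l 16784208))) (b (a (c (l 16781696) (l 16788776)) (b (c (l 16773456) (l 16770376)) (c (c (l 30299663639) (l 16781168)) (l 16784552)))) (a (c (b (c (l 16781992) (l 16775312)) (c (l 71638708135) (l 59290680519))) (b (l 16783760) (a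 (l 22246602983) (l 4)))) (a (b (b (c (l 36742117239) (l 16775624)) (l 4)) (l 4)) (l 4))))) (a (b (a (b (c (l 16785368) (l 16771704)) (c (a (l 16787448) (l 63048780087)) (l 25467831031))) (b (c (c (l 57143200839) (l 41037069703)) (a (l 16785552) (l 48553280423))) (l 4))) (l 4)) (l 4))) (b (a (b (a (b (c (c (a (l 16776880) (l 51237623447)) (l 30299659239)) (c (l 16780656) (l 16774288))) (c (c (l 79154906407) (l 83449874647)) (l 89355453015))) (l 4)) (l 4)) (l 4)) (l 4)))), by decide +kernel⟩

def k102_mm_202 : ∃ t, chk3 f_mm_202 t 12 25 1 = true :=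
  ⟨(a (b (b (a (c (l 16784952) (l 16780032)) (b (a (c (a (l 16772608) (l 28689057559)) (l 16781472)) (a (c (c (l 77544296967) (l 63048774599)) (l 54458864599)) (l 4))) (a (a (c (l 16786280) (l 16772432)) (c (a (l 46942666023) (l 4)) (l 45332057687))) (l 4)))) (a (a (l 16785456) (b (c (l 16783920) (l 16790384)) (c (a (l 16774728) (l 45868922391)) (l 27615297367)))) (a (a (b (c (l 59290678551) (l 36742121671)) (l 4)) (l 4)) (l 4)))) (a (a (b (c (b (l 16793256) (a (l 16773656) (l 35668380839))) (l 16785656)) (a (b (c (l 16787256) (l 16773328)) (c (l 67343748695) (l 42647702407))) (l 4))) (a (b (b (c (l 37815864775) (l 16785256)) (l 4)) (l 4)) (l 4))) (l 4))) (l 4)), by decide +kernel⟩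

def k103_mm_202 : ∃ t, chk3 f_mm_202 t 13 12 1 = true :=
  ⟨(l 4), by decide +kernel⟩

def k104_mm_202 : ∃ t, chk3 f_mm_202 t 6 13 1 = true :=
  ⟨(a (l 4) (l 4)), by decide +kernel⟩

def k105_mm_202 : ∃ t, chk3 f_mm_202 t 7 6 1 = true :=
  ⟨(l 4), by decide +kernel⟩

def k106_mm_202 : ∃ t, chk3 f_mm_202 t 3 7 1 = true :=
  ⟨(l 4), by decide +kernel⟩

theorem s107_mm_202 : ∃ t, chk3 f_mm_202 t 12 12 1 = true := ex3_b k101_mm_202 k102_mm_202

theorem s108_mm_202 : ∃ t, chk3 f_mm_202 t 6 12 1 = true := ex3_a s107_mm_202 k103_mm_202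

theorem s109_mm_202 : ∃ t, chk3 f_mm_202 t 6 6 1 = true := ex3_b s108_mm_202 k104_mm_202

theorem s110_mm_202 : ∃ t, chk3 f_mm_202 t 3 6 1 = true := ex3_a s109_mm_202 k105_mm_202

theorem s111_mm_202 : ∃ t, chk3 f_mm_202 t 3 3 1 = true := ex3_b s110_mm_202 k106_mm_202

theorem s112_mm_202 : ∃ t, chk3 f_mm_202 t 57 40 1 = true := ex3_a k94_mm_202 k95_mm_202

theorem s113_mm_202 : ∃ t, chk3 f_mm_202 t 57 20 1 = true := ex3_b s112_mm_202 k96_mm_202

theorem s114_mm_202 : ∃ t, chk3 f_mm_202 t 56 41 1 = true := ex3_a k92_mm_202 k93_mm_202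

theorem s115_mm_202 : ∃ t, chk3 f_mm_202 t 56 20 1 = true := ex3_b k91_mm_202 s114_mm_202

theorem s116_mm_202 : ∃ t, chk3 f_mm_202 t 28 20 1 = true := ex3_a s115_mm_202 s113_mm_202

theorem s117_mm_202 : ∃ t, chk3 f_mm_202 t 28 10 1 = true := ex3_b s116_mm_202 k97_mm_202

theorem s118_mm_202 : ∃ t, chk3 f_mm_202 t 14 10 1 = true := ex3_a s117_mm_202 k98_mm_202

theorem s119_mm_202 : ∃ t, chk3 f_mm_202 t 7 10 1 = true := ex3_a s118_mm_202 k99_mm_202

theorem s120_mm_202 : ∃ t, chk3 f_mm_202 t 7 5 1 = true := ex3_b s119_mm_202 k100_mm_202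

theorem s121_mm_202 : ∃ t, chk3 f_mm_202 t 13 22 1 = true := ex3_a k88_mm_202 k89_mm_202

theorem s122_mm_202 : ∃ t, chk3 f_mm_202 t 13 11 1 = true := ex3_b s121_mm_202 k90_mm_202

theorem s123_mm_202 : ∃ t, chk3 f_mm_202 t 6 11 1 = true := ex3_a k87_mm_202 s122_mm_202

theorem s124_mm_202 : ∃ t, chk3 f_mm_202 t 55 21 1 = true := ex3_b k85_mm_202 k86_mm_202

theorem s125_mm_202 : ∃ t, chk3 f_mm_202 t 27 21 1 = true := ex3_a k84_mm_202 s124_mm_202

theorem s126_mm_202 : ∃ t, chk3 f_mm_202 t 13 21 1 = true := ex3_a k83_mm_202 s125_mm_202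

theorem s127_mm_202 : ∃ t, chk3 f_mm_202 t 13 10 1 = true := ex3_b k82_mm_202 s126_mm_202

theorem s128_mm_202 : ∃ t, chk3 f_mm_202 t 6 10 1 = true := ex3_a k81_mm_202 s127_mm_202

theorem s129_mm_202 : ∃ t, chk3 f_mm_202 t 6 5 1 = true := ex3_b s128_mm_202 s123_mm_202

theorem s130_mm_202 : ∃ t, chk3 f_mm_202 t 3 5 1 = true := ex3_a s129_mm_202 s120_mm_202

theorem s131_mm_202 : ∃ t, chk3 f_mm_202 t 243 144 1 = true := ex3_a k73_mm_202 k74_mm_202

theorem s132_mm_202 : ∃ t, chk3 f_mm_202 t 243 72 1 = true := ex3_b s131_mm_202 k75_mm_202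

theorem s133_mm_202 : ∃ t, chk3 f_mm_202 t 242 145 1 = true := ex3_a k71_mm_202 k72_mm_202

theorem s134_mm_202 : ∃ t, chk3 f_mm_202 t 242 72 1 = true := ex3_b k70_mm_202 s133_mm_202

theorem s135_mm_202 : ∃ t, chk3 f_mm_202 t 121 72 1 = true := ex3_a s134_mm_202 s132_mm_202

theorem s136_mm_202 : ∃ t, chk3 f_mm_202 t 121 36 1 = true := ex3_b s135_mm_202 k76_mm_202

theorem s137_mm_202 : ∃ t, chk3 f_mm_202 t 241 73 1 = true := ex3_b k68_mm_202 k69_mm_202

theorem s138_mm_202 : ∃ t, chk3 f_mm_202 t 120 73 1 = true := ex3_a k67_mm_202 s137_mm_202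

theorem s139_mm_202 : ∃ t, chk3 f_mm_202 t 120 36 1 = true := ex3_b k66_mm_202 s138_mm_202

theorem s140_mm_202 : ∃ t, chk3 f_mm_202 t 60 36 1 = true := ex3_a s139_mm_202 s136_mm_202

theorem s141_mm_202 : ∃ t, chk3 f_mm_202 t 60 18 1 = true := ex3_b s140_mm_202 k77_mm_202

theorem s142_mm_202 : ∃ t, chk3 f_mm_202 t 30 18 1 = true := ex3_a s141_mm_202 k78_mm_202

theorem s143_mm_202 : ∃ t, chk3 f_mm_202 t 30 9 1 = true := ex3_b s142_mm_202 k79_mm_202

theorem s144_mm_202 : ∃ t, chk3 f_mm_202 t 15 9 1 = true := ex3_a s143_mm_202 k80_mm_202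

theorem s145_mm_202 : ∃ t, chk3 f_mm_202 t 118 76 1 = true := ex3_a k61_mm_202 k62_mm_202

theorem s146_mm_202 : ∃ t, chk3 f_mm_202 t 118 38 1 = true := ex3_b s145_mm_202 k63_mm_202

theorem s147_mm_202 : ∃ t, chk3 f_mm_202 t 59 38 1 = true := ex3_a s146_mm_202 k64_mm_202

theorem s148_mm_202 : ∃ t, chk3 f_mm_202 t 59 19 1 = true := ex3_b s147_mm_202 k65_mm_202

theorem s149_mm_202 : ∃ t, chk3 f_mm_202 t 116 39 1 = true := ex3_b k58_mm_202 k59_mm_202

theorem s150_mm_202 : ∃ t, chk3 f_mm_202 t 58 39 1 = true := ex3_a s149_mm_202 k60_mm_202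

theorem s151_mm_202 : ∃ t, chk3 f_mm_202 t 117 77 1 = true := ex3_a k56_mm_202 k57_mm_202

theorem s152_mm_202 : ∃ t, chk3 f_mm_202 t 117 38 1 = true := ex3_b k55_mm_202 s151_mm_202

theorem s153_mm_202 : ∃ t, chk3 f_mm_202 t 58 38 1 = true := ex3_a k54_mm_202 s152_mm_202

theorem s154_mm_202 : ∃ t, chk3 f_mm_202 t 58 19 1 = true := ex3_b s153_mm_202 s150_mm_202

theorem s155_mm_202 : ∃ t, chk3 f_mm_202 t 29 19 1 = true := ex3_a s154_mm_202 s148_mm_202

theorem s156_mm_202 : ∃ t, chk3 f_mm_202 t 28 19 1 = true := ex3_b k52_mm_202 k53_mm_202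

theorem s157_mm_202 : ∃ t, chk3 f_mm_202 t 14 19 1 = true := ex3_a s156_mm_202 s155_mm_202

theorem s158_mm_202 : ∃ t, chk3 f_mm_202 t 119 75 1 = true := ex3_a k50_mm_202 k51_mm_202

theorem s159_mm_202 : ∃ t, chk3 f_mm_202 t 239 74 1 = true := ex3_b k48_mm_202 k49_mm_202

theorem s160_mm_202 : ∃ t, chk3 f_mm_202 t 119 74 1 = true := ex3_a k47_mm_202 s159_mm_202

theorem s161_mm_202 : ∃ t, chk3 f_mm_202 t 119 37 1 = true := ex3_b s160_mm_202 s158_mm_202

theorem s162_mm_202 : ∃ t, chk3 f_mm_202 t 59 37 1 = true := ex3_a k46_mm_202 s161_mm_202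

theorem s163_mm_202 : ∃ t, chk3 f_mm_202 t 29 37 1 = true := ex3_a k45_mm_202 s162_mm_202

theorem s164_mm_202 : ∃ t, chk3 f_mm_202 t 29 18 1 = true := ex3_b k44_mm_202 s163_mm_202

theorem s165_mm_202 : ∃ t, chk3 f_mm_202 t 14 18 1 = true := ex3_a k43_mm_202 s164_mm_202

theorem s166_mm_202 : ∃ t, chk3 f_mm_202 t 14 9 1 = true := ex3_b s165_mm_202 s157_mm_202

theorem s167_mm_202 : ∃ t, chk3 f_mm_202 t 7 9 1 = true := ex3_a s166_mm_202 s144_mm_202

theorem s168_mm_202 : ∃ t, chk3 f_mm_202 t 493 280 1 = true := ex3_a k36_mm_202 k37_mm_202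

theorem s169_mm_202 : ∃ t, chk3 f_mm_202 t 493 140 1 = true := ex3_b s168_mm_202 k38_mm_202

theorem s170_mm_202 : ∃ t, chk3 f_mm_202 t 492 140 1 = true := ex3_b k34_mm_202 k35_mm_202

theorem s171_mm_202 : ∃ t, chk3 f_mm_202 t 246 140 1 = true := ex3_a s170_mm_202 s169_mm_202

theorem s172_mm_202 : ∃ t, chk3 f_mm_202 t 246 70 1 = true := ex3_b s171_mm_202 k39_mm_202

theorem s173_mm_202 : ∃ t, chk3 f_mm_202 t 123 70 1 = true := ex3_a s172_mm_202 k40_mm_202

theorem s174_mm_202 : ∃ t, chk3 f_mm_202 t 123 35 1 = true := ex3_b s173_mm_202 k41_mm_202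

theorem s175_mm_202 : ∃ t, chk3 f_mm_202 t 488 143 1 = true := ex3_b k30_mm_202 k31_mm_202

theorem s176_mm_202 : ∃ t, chk3 f_mm_202 t 244 143 1 = true := ex3_a s175_mm_202 k32_mm_202

theorem s177_mm_202 : ∃ t, chk3 f_mm_202 t 244 142 1 = true := ex3_a k28_mm_202 k29_mm_202

theorem s178_mm_202 : ∃ t, chk3 f_mm_202 t 244 71 1 = true := ex3_b s177_mm_202 s176_mm_202

theorem s179_mm_202 : ∃ t, chk3 f_mm_202 t 122 71 1 = true := ex3_a s178_mm_202 k33_mm_202

theorem s180_mm_202 : ∃ t, chk3 f_mm_202 t 491 141 1 = true := ex3_b k26_mm_202 k27_mm_202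

theorem s181_mm_202 : ∃ t, chk3 f_mm_202 t 245 141 1 = true := ex3_a k25_mm_202 s180_mm_202

theorem s182_mm_202 : ∃ t, chk3 f_mm_202 t 245 70 1 = true := ex3_b k24_mm_202 s181_mm_202

theorem s183_mm_202 : ∃ t, chk3 f_mm_202 t 122 70 1 = true := ex3_a k23_mm_202 s182_mm_202

theorem s184_mm_202 : ∃ t, chk3 f_mm_202 t 122 35 1 = true := ex3_b s183_mm_202 s179_mm_202

theorem s185_mm_202 : ∃ t, chk3 f_mm_202 t 61 35 1 = true := ex3_a s184_mm_202 s174_mm_202

theorem s186_mm_202 : ∃ t, chk3 f_mm_202 t 121 71 1 = true := ex3_a k21_mm_202 k22_mm_202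

theorem s187_mm_202 : ∃ t, chk3 f_mm_202 t 60 71 1 = true := ex3_a k20_mm_202 s186_mm_202

theorem s188_mm_202 : ∃ t, chk3 f_mm_202 t 60 35 1 = true := ex3_b k19_mm_202 s187_mm_202

theorem s189_mm_202 : ∃ t, chk3 f_mm_202 t 30 35 1 = true := ex3_a s188_mm_202 s185_mm_202

theorem s190_mm_202 : ∃ t, chk3 f_mm_202 t 494 139 1 = true := ex3_b k16_mm_202 k17_mm_202

theorem s191_mm_202 : ∃ t, chk3 f_mm_202 t 247 139 1 = true := ex3_a s190_mm_202 k18_mm_202

theorem s192_mm_202 : ∃ t, chk3 f_mm_202 t 247 138 1 = true := ex3_a k14_mm_202 k15_mm_202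

theorem s193_mm_202 : ∃ t, chk3 f_mm_202 t 247 69 1 = true := ex3_b s192_mm_202 s191_mm_202

theorem s194_mm_202 : ∃ t, chk3 f_mm_202 t 246 69 1 = true := ex3_b k12_mm_202 k13_mm_202

theorem s195_mm_202 : ∃ t, chk3 f_mm_202 t 123 69 1 = true := ex3_a s194_mm_202 s193_mm_202

theorem s196_mm_202 : ∃ t, chk3 f_mm_202 t 61 69 1 = true := ex3_a k11_mm_202 s195_mm_202

theorem s197_mm_202 : ∃ t, chk3 f_mm_202 t 61 34 1 = true := ex3_b k10_mm_202 s196_mm_202

theorem s198_mm_202 : ∃ t, chk3 f_mm_202 t 30 34 1 = true := ex3_a k9_mm_202 s197_mm_202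

theorem s199_mm_202 : ∃ t, chk3 f_mm_202 t 30 17 1 = true := ex3_b s198_mm_202 s189_mm_202

theorem s200_mm_202 : ∃ t, chk3 f_mm_202 t 15 17 1 = true := ex3_a s199_mm_202 k42_mm_202

theorem s201_mm_202 : ∃ t, chk3 f_mm_202 t 15 8 1 = true := ex3_b k8_mm_202 s200_mm_202

theorem s202_mm_202 : ∃ t, chk3 f_mm_202 t 14 8 1 = true := ex3_b k6_mm_202 k7_mm_202

theorem s203_mm_202 : ∃ t, chk3 f_mm_202 t 7 8 1 = true := ex3_a s202_mm_202 s201_mm_202

theorem s204_mm_202 : ∃ t, chk3 f_mm_202 t 7 4 1 = true := ex3_b s203_mm_202 s167_mm_202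

theorem s205_mm_202 : ∃ t, chk3 f_mm_202 t 6 4 1 = true := ex3_b k4_mm_202 k5_mm_202

theorem s206_mm_202 : ∃ t, chk3 f_mm_202 t 3 4 1 = true := ex3_a s205_mm_202 s204_mm_202

theorem s207_mm_202 : ∃ t, chk3 f_mm_202 t 3 2 1 = true := ex3_b s206_mm_202 s130_mm_202

theorem s208_mm_202 : ∃ t, chk3 f_mm_202 t 3 1 1 = true := ex3_b s207_mm_202 s111_mm_202

theorem s209_mm_202 : ∃ t, chk3 f_mm_202 t 2 6 1 = true := ex3_a k1_mm_202 k2_mm_202

theorem s210_mm_202 : ∃ t, chk3 f_mm_202 t 2 3 1 = true := ex3_b s209_mm_202 k3_mm_202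

theorem s211_mm_202 : ∃ t, chk3 f_mm_202 t 2 1 1 = true := ex3_b k0_mm_202 s210_mm_202

theorem s212_mm_202 : ∃ t, chk3 f_mm_202 t 1 1 1 = true := ex3_a s211_mm_202 s208_mm_202

theorem c_mm_202 : CertN 0 536870912 0 536870912 469762048 67108864 3 true false false .pp 2 0 2
    ndN0q2 ndN0q0 pcN2 cut_mm_202 Ext.none :=
  certN0 (fam := true) (s1 := false) (s2 := false) (a := 2) (b := 0) (c := 2) (cn := .pp) (n1 := ndN0q2) (n2 := ndN0q0) (pc := pcN2) (cut := cut_mm_202) (xt := Ext.none) (P1 := 0) (W1 := 536870912) (P2 := 0) (W2 := 536870912) (P3 := 469762048) (W3 := 67108864) (N0 := 3)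
    rfl s212_mm_202

noncomputable def f_mm_203 : ℕ → ℕ → ℕ → ℕ → Bool := onCell 0 536870912 1610612736 536870912 469762048 67108864
    (rowN 3 1 true false false .up 2 0 3 (qsf 0 536870912 0 536870912 3) ndN0q2 ndN0q0 pcN3 Cut.none Ext.none)

def k0_mm_203 : ∃ t, chk3 f_mm_203 t 2 8 1 = true :=
  ⟨(a (a (b (a (l 16734128) (b (l 16700352) (l 16700856))) (a (l 16691008) (l 16745208))) (b (b (a (l 16710088) (l 16723320)) (a (l 16712376) (l 16727384))) (b (a (l 16715720) (l 16753584)) (a (l 16720352) (l 16760528))))) (a (b (a (b (l 16782048) (c (l 16772208) (l 16761808))) (b (a (l 16775848) (b (l 16784608) (b (l 16787256) (l 16789128)))) (a (b (l 16780984) (l 16784736)) (b (a (l 16789200) (c (b (l 16776016) (l 36742128439)) (l 12582919351))) (a (c (l 25467846455) (l 16790968)) (c (a (l 53921991943) (l 4)) (l 64659387207))))))) (a (b (b (l 16771968) (l 16786248)) (a (l 16787544) (b (l 16786168) (c (l 31373437607) (l 23320357223))))) (b (a (b (c (l 16792624) (l 16785424)) (a (l 16791520) (c (b (l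 16798568) (l 53385128823)) (l 29225912455)))) (a (b (c (a (l 39426485991) (l 4)) (l 46405776567)) (l 4)) (l 4))) (a (b (a (c (l 41037107255) (l 36205262711)) (l 4)) (l 4)) (l 4))))) (b (a (a (b (a (b (c (l 16795536) (l 16789792)) (c (a (l 16792872) (l 59827557511)) (a (l 16793200) (l 46942644919)))) (a (b (b (l 32447165031) (l 4)) (l 4)) (l 4))) (l 4)) (l 4)) (l 4)) (l 4)))), by decide +kernel⟩

def k1_mm_203 : ∃ t, chk3 f_mm_203 t 2 9 1 = true :=
  ⟨(a (a (b (a (l 16699472) (l 16734680)) (a (l 16726624) (b (l 16732320) (l 16742184)))) (b (b (a (l 16728024) (a (l 16743728) (l 16776064))) (a (l 16737568) (a (l 16754296) (b (l 16763128) (l 16789248))))) (a (b (l 16768976) (a (l 16753088) (b (l 16761592) (l 16766680)))) (b (a (b (l 16762288) (l 16788368)) (b (a (l 16770464) (b (l 38352750071) (l 46942686823))) (a (c (l 44795198567) (l 16792432)) (c (l 72175596439) (l 70028099671))))) (a (b (a (l 16769624) (c (l 43721455463) (l 16770640))) (a (c (l 42647712167) (l 16769904)) (c (l 65733144423) (l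 61975032679)))) (b (a (c (l 68417499511) (l 66806872519)) (l 4)) (l 4))))))) (a (a (b (b (a (b (l 16785072) (c (l 16794512) (l 16786520))) (b (a (c (l 16797480) (l 16790752)) (c (l 71101850247) (l 61438164439))) (a (c (l 63585656615) (l 48553296215)) (l 4)))) (a (b (a (l 16792496) (c (l 59290688311) (l 50700769607))) (a (c (l 52311390359) (l 48553288135)) (l 4))) (l 4))) (l 4)) (l 4)) (l 4))), by decide +kernel⟩

def k2_mm_203 : ∃ t, chk3 f_mm_203 t 2 5 1 = true :=
  ⟨(b (a (a (b (a (b (l 16741536) (l 16749496)) (b (l 16771464) (b (l 16755984) (l 67209563543)))) (l 2)) (b (a (b (c (a (l 16769600) (b (l 39426487447) (a (l 16778528) (b (l 49090162759) (l 65196274407))))) (a (l 16757968) (b (l 16766632) (a (l 16768704) (l 58216933335))))) (a (b (c (l 16797376) (l 16765648)) (a (l 74188882455) (b (c (l 46405807159) (l 16771640)) (l 2)))) (a (c (b (b (l 47479549207) (l 58753823095)) (b (l 71101857991) (l 2))) (b (l 52848222935) (l 73249326247))) (l 4)))) (b (a (b (a (c (b (l 53921981575) (l 68417500311))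 (l 60364418407)) (l 4)) (l 4)) (l 4)) (l 4))) (l 2))) (l 4)) (l 2)), by decide +kernel⟩

def k3_mm_203 : ∃ t, chk3 f_mm_203 t 2 3 1 = true :=
  ⟨(l 2), by decide +kernel⟩

def k4_mm_203 : ∃ t, chk3 f_mm_203 t 3 1 1 = true :=
  ⟨(b (l 4) (l 2)), by decide +kernel⟩

theorem s5_mm_203 : ∃ t, chk3 f_mm_203 t 2 4 1 = true := ex3_b k0_mm_203 k1_mm_203

theorem s6_mm_203 : ∃ t, chk3 f_mm_203 t 2 2 1 = true := ex3_b s5_mm_203 k2_mm_203

theorem s7_mm_203 : ∃ t, chk3 f_mm_203 t 2 1 1 = true := ex3_b s6_mm_203 k3_mm_203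

theorem s8_mm_203 : ∃ t, chk3 f_mm_203 t 1 1 1 = true := ex3_a s7_mm_203 k4_mm_203

theorem c_mm_203 : CertN 0 536870912 0 536870912 469762048 67108864 3 true false false .up 2 0 3
    ndN0q2 ndN0q0 pcN3 Cut.none Ext.none :=
  certN1 (fam := true) (s1 := false) (s2 := false) (a := 2) (b := 0) (c := 3) (cn := .up) (n1 := ndN0q2) (n2 := ndN0q0) (pc := pcN3) (cut := Cut.none) (xt := Ext.none) (P1 := 0) (W1 := 536870912) (P2 := 0) (W2 := 536870912) (P3 := 469762048) (W3 := 67108864) (N0 := 3)
    rfl (fun _ => rfl) s8_mm_203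

noncomputable def f_mm_213 : ℕ → ℕ → ℕ → ℕ → Bool := onCell 0 536870912 536870912 536870912 469762048 67108864
    (rowN 3 0 true false false .pnn 2 1 3 (qsf 0 536870912 536870912 536870912 3) ndN0q2 ndN0q1 pcN3 Cut.none Ext.none)

def k0_mm_213 : ∃ t, chk3 f_mm_213 t 1 1 1 = true :=
  ⟨(a (b (b (b (a (a (b (a (b (l 16776528) (a (l 16760032) (b (l 16761856) (l 16764784)))) (b (a (b (l 16759416) (l 16763952)) (b (l 16794768) (a (l 16770936) (b (l 16774040) (c (l 44258323399) (l 16770960)))))) (a (b (a (l 16766480) (l 16792040)) (a (l 16792112) (b (l 16795264) (a (l 16775328) (c (c (l 46405807415) (l 16785248)) (l 16771880)))))) (b (a (c (b (l 16779904) (a (l 16780920) (l 45868936007))) (l 39963339975)) (b (c (a (l 45868935751) (l 63585662823)) (l 54995706055)) (a (c (b (l 59290694663) (l 68417502247)) (l 61438159031)) (l 4)))) (a (b (a (c (c (l 46942677991) (l 16779912)) (l 16771912)) (c (b (l 59827565815) (l 68417502471)) (l 60901288023))) (a (c (b (a (l 54995741271) (l 65196276071)) (l 66270019047))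 (l 60364417015)) (l 4))) (l 4)))))) (a (a (b (l 16766072) (l 16771392)) (b (b (l 16767744) (l 16770480)) (b (l 16793888) (l 16796616)))) (b (a (a (b (c (l 16780056) (l 16768912)) (l 49627043831)) (b (b (b (c (a (l 16782248) (a (l 16783472) (l 57680098103))) (l 44795174583)) (a (l 16777048) (l 61975039815))) (a (l 51237650887) (l 4))) (l 4))) (l 4)) (l 4)))) (b (a (b (a (b (a (c (b (l 16779328) (l 44258322855)) (l 16780448)) (b (c (a (l 46942676503) (l 65196274631)) (l 50700760535)) (c (l 67343760535) (l 65196258439)))) (a (b (c (a (l 46405806119) (l 64659404183)) (l 51237631191)) (a (c (l 64122533495) (l 62511901111)) (l 4))) (l 4))) (l 4)) (l 4)) (l 4)) (l 4))) (l 4)) (a (a (b (a (b (a (b (l 16774400) (l 16775928)) (l 4)) (l 4)) (l 4)) (l 4)) (l 4)) (l 4))) (l 4)) (l 4)) (l 4)), by decide +kernel⟩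

theorem c_mm_213 : CertN 0 536870912 536870912 536870912 469762048 67108864 3 true false false .pnn 2 1 3
    ndN0q2 ndN0q1 pcN3 Cut.none Ext.none :=
  certN0 (fam := true) (s1 := false) (s2 := false) (a := 2) (b := 1) (c := 3) (cn := .pnn) (n1 := ndN0q2) (n2 := ndN0q1) (pc := pcN3) (cut := Cut.none) (xt := Ext.none) (P1 := 0) (W1 := 536870912) (P2 := 536870912) (W2 := 536870912) (P3 := 469762048) (W3 := 67108864) (N0 := 3)
    rfl k0_mm_213

end Pool.Agent.Strip051.G.I7_16_1_2.Tab.C.NA00

namespace Pool.Agent.Strip051.G.I7_16_1_2.Tab.C.NA01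

open Pool.Agent.Strip051.PB Pool.Agent.Strip051.PB.T
open Pool.Agent.Strip051.G.I7_16_1_2.Tab

noncomputable def f_pp_001 : ℕ → ℕ → ℕ → ℕ → Bool := onCell 0 536870912 0 536870912 469762048 67108864
    (rowN 3 0 true true true .up 0 0 1 (qsf 0 536870912 0 536870912 1) ndN0q0 ndN1q0 pcN1 Cut.none Ext.none)

def k0_pp_001 : ∃ t, chk3 f_pp_001 t 1 1 1 = true :=
  ⟨(l 4), by decide +kernel⟩

theorem c_pp_001 : CertN 0 536870912 0 536870912 469762048 67108864 3 true true true .up 0 0 1
    ndN0q0 ndN1q0 pcN1 Cut.none Ext.none :=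
  certN0 (fam := true) (s1 := true) (s2 := true) (a := 0) (b := 0) (c := 1) (cn := .up) (n1 := ndN0q0) (n2 := ndN1q0) (pc := pcN1) (cut := Cut.none) (xt := Ext.none) (P1 := 0) (W1 := 536870912) (P2 := 0) (W2 := 536870912) (P3 := 469762048) (W3 := 67108864) (N0 := 3)
    rfl k0_pp_001

noncomputable def f_pp_011 : ℕ → ℕ → ℕ → ℕ → Bool := onCell 0 536870912 536870912 536870912 469762048 67108864
    (rowN 3 0 true true true .pnn 0 1 1 (qsf 0 536870912 536870912 536870912 1) ndN0q0 ndN1q1 pcN1 Cut.none Ext.none)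

def k0_pp_011 : ∃ t, chk3 f_pp_011 t 1 1 1 = true :=
  ⟨(l 4), by decide +kernel⟩

theorem c_pp_011 : CertN 0 536870912 536870912 536870912 469762048 67108864 3 true true true .pnn 0 1 1
    ndN0q0 ndN1q1 pcN1 Cut.none Ext.none :=
  certN0 (fam := true) (s1 := true) (s2 := true) (a := 0) (b := 1) (c := 1) (cn := .pnn) (n1 := ndN0q0) (n2 := ndN1q1) (pc := pcN1) (cut := Cut.none) (xt := Ext.none) (P1 := 0) (W1 := 536870912) (P2 := 536870912) (W2 := 536870912) (P3 := 469762048) (W3 := 67108864) (N0 := 3)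
    rfl k0_pp_011

noncomputable def f_pp_012 : ℕ → ℕ → ℕ → ℕ → Bool := onCell 0 536870912 536870912 536870912 469762048 67108864
    (rowN 3 0 true true true .pnp 0 1 2 (qsf 0 536870912 536870912 536870912 2) ndN0q0 ndN1q1 pcN2 Cut.none Ext.none)

def k0_pp_012 : ∃ t, chk3 f_pp_012 t 1 1 1 = true :=
  ⟨(l 4), by decide +kernel⟩

theorem c_pp_012 : CertN 0 536870912 536870912 536870912 469762048 67108864 3 true true true .pnp 0 1 2
    ndN0q0 ndN1q1 pcN2 Cut.none Ext.none :=
  certN0 (fam := true) (s1 := true) (s2 := true) (a := 0) (b := 1) (c := 2) (cn := .pnp) (n1 := ndN0q0) (n2 := ndN1q1) (pc := pcN2) (cut := Cut.none) (xt := Ext.none) (P1 := 0) (W1 := 536870912) (P2 := 536870912) (W2 := 536870912) (P3 := 469762048) (W3 := 67108864) (N0 := 3)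
    rfl k0_pp_012

end Pool.Agent.Strip051.G.I7_16_1_2.Tab.C.NA01

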