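import Pool.Agent.Strip051.G.I7_16_1_2.Tab

/-! # Certificates N7 (generated) -/

set_option linter.all false
set_option maxRecDepth 100000

namespace Pool.Agent.Strip051.G.I7_16_1_2.Tab.C.NA01

open Pool.Agent.Strip051.PB Pool.Agent.Strip051.PB.T
open Pool.Agent.Strip051.G.I7_16_1_2.Tab

noncomputable def cut_pp_022_a : Cut := Cut.of [[⟨0, 0, 0, 67108864⟩, ⟨1, 1, 0, 67108864⟩, ⟨2, 1, 0, 67108864⟩]]

noncomputable def f_pp_022_a : ℕ → ℕ → ℕ → ℕ → Bool := onCell 0 536870912 0 536870912 469762048 67108864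
    (rowN 3 0 true true true .pp 0 2 2 (qsf 0 536870912 0 536870912 2) ndN0q0 ndN1q2a pcN2 cut_pp_022_a Ext.none)

def k0_pp_022_a : ∃ t, chk3 f_pp_022_a t 4 2 1 = true :=
  ⟨(a (b (a (b (l 16463400) (a (l 16465664) (l 16478352))) (a (l 16591352) (l 16582584))) (a (b (a (l 16483328) (l 16497008)) (a (b (l 16502712) (l 16519224)) (l 16601616))) (a (b (l 16531704) (b (l 16531400) (l 16548648))) (b (l 16545528) (b (l 16545832) (l 16563416)))))) (b (a (b (l 16530912) (a (l 16516872) (l 16530032))) (b (l 16576072) (l 16586896))) (a (b (a (l 16580464) (l 16594624)) (a (l 16632336) (l 16647200))) (b (c (l 16638256) (l 16580936)) (a (l 16662296) (a (l 16674256) (l 16683008))))))), by decide +kernel⟩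

def k1_pp_022_a : ∃ t, chk3 f_pp_022_a t 4 3 1 = true :=
  ⟨(b (a (b (b (a (a (l 16538496) (l 16553544)) (a (l 16589552) (l 16625576))) (a (a (a (l 16556824) (l 16564528)) (l 16617968)) (a (l 16633280) (l 16606632)))) (b (b (a (a (l 16579160) (l 16594752)) (a (l 16631224) (l 16625704))) (a (a (l 16613520) (l 16629256)) (a (l 16665848) (l 16639456)))) (b (a (a (a (l 16602776) (l 16610752)) (l 16664568)) (a (l 16638368) (c (l 16655096) (l 16653480)))) (a (a (a (l 16617784) (l 16625832)) (b (l 16654880) (l 16683648))) (a (l 16664144) (c (l 29225704919) (l 25467601911))))))) (b (b (a (a (l 16598744) (l 16613976)) (a (l 16694024) (l 4))) (a (a (l 16642928) (b (l 16631768) (l 56069204471))) (l 4))) (a (a (a (b (l 16665664) (l 75933479383)) (b (l 16695712) (l 4))) (l 4)) (l 4)))) (a (b (a (a (b (b (a (l 16633648) (l 16641768)) (a (l 16666120) (l 16690048))) (a (b (a (l 6) (l 16691104)) (l 6)) (a (b (l 16695240) (l 6)) (b (l 16699352) (c (l 16718936) (l 16717080)))))) (b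 (b (a (l 16670808) (l 16678832)) (a (l 16698184) (l 16674816))) (b (a (b (l 16700928) (l 16710064)) (c (l 16698664) (l 16694568))) (a (a (b (l 16696408) (l 6)) (b (l 16700520) (l 16731120))) (a (b (l 16725632) (l 16735528)) (b (l 16730112) (l 4))))))) (b (b (a (a (l 16665840) (l 16684512)) (b (l 84523417655) (l 4))) (a (a (b (l 16699456) (l 16687368)) (l 67343578023)) (l 4))) (a (a (b (a (l 57679919431) (l 4)) (l 4)) (l 4)) (l 4)))) (a (a (l 6) (a (b (l 6) (l 4)) (l 4))) (l 4))) (l 4))), by decide +kernel⟩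

def k2_pp_022_a : ∃ t, chk3 f_pp_022_a t 5 1 1 = true :=
  ⟨(b (a (b (a (a (l 16646624) (l 16660512)) (b (l 16608000) (l 16693040))) (b (b (a (l 16618064) (a (l 16621712) (l 16662856))) (a (a (l 16604256) (l 16642184)) (a (l 16662656) (l 4)))) (a (a (b (l 48016051383) (l 16688168)) (b (l 16684992) (l 4))) (l 4)))) (b (a (b (l 16659144) (c (a (l 16658432) (l 16700720)) (a (l 16655136) (l 42647408343)))) (b (a (b (l 16635792) (l 16649472)) (l 16704848)) (a (l 54995478215) (l 4)))) (l 4))) (l 4)), by decide +kernel⟩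

def k3_pp_022_a : ∃ t, chk3 f_pp_022_a t 3 1 1 = true :=
  ⟨(b (a (a (b (a (b (a (l 16726816) (l 56069281639)) (l 4)) (l 4)) (l 4)) (l 4)) (l 4)) (l 4)), by decide +kernel⟩

theorem s4_pp_022_a : ∃ t, chk3 f_pp_022_a t 4 1 1 = true := ex3_b k0_pp_022_a k1_pp_022_a

theorem s5_pp_022_a : ∃ t, chk3 f_pp_022_a t 2 1 1 = true := ex3_a s4_pp_022_a k2_pp_022_a

theorem s6_pp_022_a : ∃ t, chk3 f_pp_022_a t 1 1 1 = true := ex3_a s5_pp_022_a k3_pp_022_a

theorem c_pp_022_a : CertN 0 536870912 0 536870912 469762048 67108864 3 true true true .pp 0 2 2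
    ndN0q0 ndN1q2a pcN2 cut_pp_022_a Ext.none :=
  certN0 (fam := true) (s1 := true) (s2 := true) (a := 0) (b := 2) (c := 2) (cn := .pp) (n1 := ndN0q0) (n2 := ndN1q2a) (pc := pcN2) (cut := cut_pp_022_a) (xt := Ext.none) (P1 := 0) (W1 := 536870912) (P2 := 0) (W2 := 536870912) (P3 := 469762048) (W3 := 67108864) (N0 := 3)
    rfl s6_pp_022_a

noncomputable def cut_pp_022_b : Cut := Cut.of [[⟨0, 0, 0, 67108864⟩, ⟨1, 1, 0, 67108864⟩, ⟨2, 1, 0, 67108864⟩]]

noncomputable def f_pp_022_b : ℕ → ℕ → ℕ → ℕ → Bool := onCell 0 536870912 1239849684 370763052 469762048 67108864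
    (rowN 3 0 true true true .pp 0 2 2 (qsf 0 536870912 1239849684 370763052 2) ndN0q0 ndN1q2b pcN2 cut_pp_022_b Ext.none)

def k0_pp_022_b : ∃ t, chk3 f_pp_022_b t 1 1 1 = true :=
  ⟨(a (b (a (b (a (b (a (a (l 16516552) (l 16507080)) (b (l 16525024) (l 16440784))) (a (c (l 16442064) (l 16430736)) (b (l 16379064) (l 16340184)))) (b (a (b (l 16527056) (l 16466080)) (b (l 16530056) (l 16514056))) (a (b (l 16407120) (l 16371568)) (b (l 16437736) (l 16406416))))) (a (b (a (l 16357272) (l 16390688)) (a (l 16245336) (l 16266472))) (b (a (l 16407208) (l 16449752)) (a (l 16336352) (l 16460896))))) (b (a (b (a (b (l 16534600) (l 16543488)) (b (l 16604312) (l 16576160))) (a (b (l 16471720) (l 16445672)) (a (l 16530480) (l 16574552)))) (b (a (b (l 16656168) (a (l 16561600) (l 16581216))) (b (c (l 16694760) (l 16688288)) (l 16679456))) (a (a (l 16600824) (l 16629296)) (l 4)))) (a (b (a (b (l 16424504) (l 16411864)) (b (l 16482360) (l 4))) (a (l 16513888) (l 4))) (l 4)))) (a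 (b (a (b (a (l 16125648) (l 16222960)) (a (l 16110680) (l 16170224))) (b (a (l 16315296) (l 4)) (l 4))) (a (a (b (l 16089200) (l 4)) (l 4)) (l 4))) (l 4))) (b (a (b (a (b (b (a (a (l 16702208) (l 16726472)) (l 4)) (l 4)) (l 4)) (l 4)) (l 4)) (l 2)) (l 2))), by decide +kernel⟩

theorem c_pp_022_b : CertN 0 536870912 1239849684 370763052 469762048 67108864 3 true true true .pp 0 2 2
    ndN0q0 ndN1q2b pcN2 cut_pp_022_b Ext.none :=
  certN0 (fam := true) (s1 := true) (s2 := true) (a := 0) (b := 2) (c := 2) (cn := .pp) (n1 := ndN0q0) (n2 := ndN1q2b) (pc := pcN2) (cut := cut_pp_022_b) (xt := Ext.none) (P1 := 0) (W1 := 536870912) (P2 := 1239849684) (W2 := 370763052) (P3 := 469762048) (W3 := 67108864) (N0 := 3)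
    rfl k0_pp_022_b

noncomputable def f_pp_023_a : ℕ → ℕ → ℕ → ℕ → Bool := onCell 1610612736 536870912 0 536870912 469762048 67108864
    (rowN 3 2 true true true .up 0 2 3 (qsf 0 536870912 0 536870912 3) ndN0q0 ndN1q2a pcN3 Cut.none Ext.none)

def k0_pp_023_a : ∃ t, chk3 f_pp_023_a t 1 1 1 = true :=
  ⟨(a (l 4) (l 2)), by decide +kernel⟩

theorem c_pp_023_a : CertN 0 536870912 0 536870912 469762048 67108864 3 true true true .up 0 2 3
    ndN0q0 ndN1q2a pcN3 Cut.none Ext.none :=
  certN2 (fam := true) (s1 := true) (s2 := true) (a := 0) (b := 2) (c := 3) (cn := .up) (n1 := ndN0q0) (n2 := ndN1q2a) (pc := pcN3) (cut := Cut.none) (xt := Ext.none) (P1 := 0) (W1 := 536870912) (P2 := 0) (W2 := 536870912) (P3 := 469762048) (W3 := 67108864) (N0 := 3)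
    rfl (fun _ => rfl) k0_pp_023_a

noncomputable def f_pp_023_b : ℕ → ℕ → ℕ → ℕ → Bool := onCell 1610612736 536870912 1239849684 370763052 469762048 67108864
    (rowN 3 2 true true true .up 0 2 3 (qsf 0 536870912 1239849684 370763052 3) ndN0q0 ndN1q2b pcN3 Cut.none Ext.none)

def k0_pp_023_b : ∃ t, chk3 f_pp_023_b t 1 1 1 = true :=
  ⟨(a (l 4) (l 4)), by decide +kernel⟩

theorem c_pp_023_b : CertN 0 536870912 1239849684 370763052 469762048 67108864 3 true true true .up 0 2 3
    ndN0q0 ndN1q2b pcN3 Cut.none Ext.none :=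
  certN2 (fam := true) (s1 := true) (s2 := true) (a := 0) (b := 2) (c := 3) (cn := .up) (n1 := ndN0q0) (n2 := ndN1q2b) (pc := pcN3) (cut := Cut.none) (xt := Ext.none) (P1 := 0) (W1 := 536870912) (P2 := 1239849684) (W2 := 370763052) (P3 := 469762048) (W3 := 67108864) (N0 := 3)
    rfl (fun _ => rfl) k0_pp_023_b

noncomputable def f_pp_033 : ℕ → ℕ → ℕ → ℕ → Bool := onCell 0 536870912 1610612736 536870912 469762048 67108864
    (rowN 3 0 true true true .pnn 0 3 3 (qsf 0 536870912 1610612736 536870912 3) ndN0q0 ndN1q3 pcN3 Cut.none Ext.none)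

def k0_pp_033 : ∃ t, chk3 f_pp_033 t 1 1 1 = true :=
  ⟨(a (b (l 4) (l 4)) (l 4)), by decide +kernel⟩

theorem c_pp_033 : CertN 0 536870912 1610612736 536870912 469762048 67108864 3 true true true .pnn 0 3 3
    ndN0q0 ndN1q3 pcN3 Cut.none Ext.none :=
  certN0 (fam := true) (s1 := true) (s2 := true) (a := 0) (b := 3) (c := 3) (cn := .pnn) (n1 := ndN0q0) (n2 := ndN1q3) (pc := pcN3) (cut := Cut.none) (xt := Ext.none) (P1 := 0) (W1 := 536870912) (P2 := 1610612736) (W2 := 536870912) (P3 := 469762048) (W3 := 67108864) (N0 := 3)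
    rfl k0_pp_033

noncomputable def f_pp_101 : ℕ → ℕ → ℕ → ℕ → Bool := onCell 536870912 536870912 0 536870912 469762048 67108864
    (rowN 3 0 true true true .npn 1 0 1 (qsf 536870912 536870912 0 536870912 1) ndN0q1 ndN1q0 pcN1 Cut.none Ext.none)

def k0_pp_101 : ∃ t, chk3 f_pp_101 t 1 1 1 = true :=
  ⟨(l 5), by decide +kernel⟩

theorem c_pp_101 : CertN 536870912 536870912 0 536870912 469762048 67108864 3 true true true .npn 1 0 1
    ndN0q1 ndN1q0 pcN1 Cut.none Ext.none :=
  certN0 (fam := true) (s1 := true) (s2 := true) (a := 1) (b := 0) (c := 1) (cn := .npn) (n1 := ndN0q1) (n2 := ndN1q0) (pc := pcN1) (cut := Cut.none) (xt := Ext.none) (P1 := 536870912) (W1 := 536870912) (P2 := 0) (W2 := 536870912) (P3 := 469762048) (W3 := 67108864) (N0 := 3)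
    rfl k0_pp_101

noncomputable def f_pp_102 : ℕ → ℕ → ℕ → ℕ → Bool := onCell 536870912 536870912 0 536870912 469762048 67108864
    (rowN 3 0 true true true .npp 1 0 2 (qsf 536870912 536870912 0 536870912 2) ndN0q1 ndN1q0 pcN2 Cut.none Ext.none)

def k0_pp_102 : ∃ t, chk3 f_pp_102 t 1 1 1 = true :=
  ⟨(l 5), by decide +kernel⟩

theorem c_pp_102 : CertN 536870912 536870912 0 536870912 469762048 67108864 3 true true true .npp 1 0 2
    ndN0q1 ndN1q0 pcN2 Cut.none Ext.none :=
  certN0 (fam := true) (s1 := true) (s2 := true) (a := 1) (b := 0) (c := 2) (cn := .npp) (n1 := ndN0q1) (n2 := ndN1q0) (pc := pcN2) (cut := Cut.none) (xt := Ext.none) (P1 := 536870912) (W1 := 536870912) (P2 := 0) (W2 := 536870912) (P3 := 469762048) (W3 := 67108864) (N0 := 3)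
    rfl k0_pp_102

noncomputable def f_pp_112 : ℕ → ℕ → ℕ → ℕ → Bool := onCell 536870912 536870912 536870912 536870912 469762048 67108864
    (rowN 3 0 true true true .dn 1 1 2 (qsf 536870912 536870912 536870912 536870912 2) ndN0q1 ndN1q1 pcN2 Cut.none Ext.none)

def k0_pp_112 : ∃ t, chk3 f_pp_112 t 1 1 1 = true :=
  ⟨(l 4), by decide +kernel⟩

theorem c_pp_112 : CertN 536870912 536870912 536870912 536870912 469762048 67108864 3 true true true .dn 1 1 2
    ndN0q1 ndN1q1 pcN2 Cut.none Ext.none :=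
  certN0 (fam := true) (s1 := true) (s2 := true) (a := 1) (b := 1) (c := 2) (cn := .dn) (n1 := ndN0q1) (n2 := ndN1q1) (pc := pcN2) (cut := Cut.none) (xt := Ext.none) (P1 := 536870912) (W1 := 536870912) (P2 := 536870912) (W2 := 536870912) (P3 := 469762048) (W3 := 67108864) (N0 := 3)
    rfl k0_pp_112

noncomputable def f_pp_113 : ℕ → ℕ → ℕ → ℕ → Bool := onCell 536870912 536870912 536870912 536870912 469762048 67108864
    (rowN 3 0 true true true .nn 1 1 3 (qsf 536870912 536870912 536870912 536870912 3) ndN0q1 ndN1q1 pcN3 Cut.none Ext.none)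

def k0_pp_113 : ∃ t, chk3 f_pp_113 t 1 1 1 = true :=
  ⟨(l 4), by decide +kernel⟩

theorem c_pp_113 : CertN 536870912 536870912 536870912 536870912 469762048 67108864 3 true true true .nn 1 1 3
    ndN0q1 ndN1q1 pcN3 Cut.none Ext.none :=
  certN0 (fam := true) (s1 := true) (s2 := true) (a := 1) (b := 1) (c := 3) (cn := .nn) (n1 := ndN0q1) (n2 := ndN1q1) (pc := pcN3) (cut := Cut.none) (xt := Ext.none) (P1 := 536870912) (W1 := 536870912) (P2 := 536870912) (W2 := 536870912) (P3 := 469762048) (W3 := 67108864) (N0 := 3)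
    rfl k0_pp_113

noncomputable def f_pp_123_a : ℕ → ℕ → ℕ → ℕ → Bool := onCell 536870912 536870912 0 536870912 469762048 67108864
    (rowN 3 0 true true true .npn 1 2 3 (qsf 536870912 536870912 0 536870912 3) ndN0q1 ndN1q2a pcN3 Cut.none Ext.none)

def k0_pp_123_a : ∃ t, chk3 f_pp_123_a t 1 1 1 = true :=
  ⟨(l 4), by decide +kernel⟩

theorem c_pp_123_a : CertN 536870912 536870912 0 536870912 469762048 67108864 3 true true true .npn 1 2 3
    ndN0q1 ndN1q2a pcN3 Cut.none Ext.none :=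
  certN0 (fam := true) (s1 := true) (s2 := true) (a := 1) (b := 2) (c := 3) (cn := .npn) (n1 := ndN0q1) (n2 := ndN1q2a) (pc := pcN3) (cut := Cut.none) (xt := Ext.none) (P1 := 536870912) (W1 := 536870912) (P2 := 0) (W2 := 536870912) (P3 := 469762048) (W3 := 67108864) (N0 := 3)
    rfl k0_pp_123_a

noncomputable def f_pp_123_b : ℕ → ℕ → ℕ → ℕ → Bool := onCell 536870912 536870912 1239849684 370763052 469762048 67108864
    (rowN 3 0 true true true .npn 1 2 3 (qsf 536870912 536870912 1239849684 370763052 3) ndN0q1 ndN1q2b pcN3 Cut.none Ext.none)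

def k0_pp_123_b : ∃ t, chk3 f_pp_123_b t 1 1 1 = true :=
  ⟨(l 4), by decide +kernel⟩

theorem c_pp_123_b : CertN 536870912 536870912 1239849684 370763052 469762048 67108864 3 true true true .npn 1 2 3
    ndN0q1 ndN1q2b pcN3 Cut.none Ext.none :=
  certN0 (fam := true) (s1 := true) (s2 := true) (a := 1) (b := 2) (c := 3) (cn := .npn) (n1 := ndN0q1) (n2 := ndN1q2b) (pc := pcN3) (cut := Cut.none) (xt := Ext.none) (P1 := 536870912) (W1 := 536870912) (P2 := 1239849684) (W2 := 370763052) (P3 := 469762048) (W3 := 67108864) (N0 := 3)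
    rfl k0_pp_123_b

noncomputable def f_pp_133 : ℕ → ℕ → ℕ → ℕ → Bool := onCell 536870912 536870912 1610612736 536870912 469762048 67108864
    (rowN 3 0 true true true .dn 1 3 3 (qsf 536870912 536870912 1610612736 536870912 3) ndN0q1 ndN1q3 pcN3 Cut.none Ext.none)

def k0_pp_133 : ∃ t, chk3 f_pp_133 t 1 1 1 = true :=
  ⟨(l 4), by decide +kernel⟩

theorem c_pp_133 : CertN 536870912 536870912 1610612736 536870912 469762048 67108864 3 true true true .dn 1 3 3
    ndN0q1 ndN1q3 pcN3 Cut.none Ext.none :=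
  certN0 (fam := true) (s1 := true) (s2 := true) (a := 1) (b := 3) (c := 3) (cn := .dn) (n1 := ndN0q1) (n2 := ndN1q3) (pc := pcN3) (cut := Cut.none) (xt := Ext.none) (P1 := 536870912) (W1 := 536870912) (P2 := 1610612736) (W2 := 536870912) (P3 := 469762048) (W3 := 67108864) (N0 := 3)
    rfl k0_pp_133

noncomputable def f_pp_202 : ℕ → ℕ → ℕ → ℕ → Bool := onCell 0 536870912 0 536870912 469762048 67108864
    (rowN 3 0 true true true .pp 2 0 2 (qsf 0 536870912 0 536870912 2) ndN0q2 ndN1q0 pcN2 Cut.none Ext.none)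

def k0_pp_202 : ∃ t, chk3 f_pp_202 t 1 1 1 = true :=
  ⟨(l 5), by decide +kernel⟩

theorem c_pp_202 : CertN 0 536870912 0 536870912 469762048 67108864 3 true true true .pp 2 0 2
    ndN0q2 ndN1q0 pcN2 Cut.none Ext.none :=
  certN0 (fam := true) (s1 := true) (s2 := true) (a := 2) (b := 0) (c := 2) (cn := .pp) (n1 := ndN0q2) (n2 := ndN1q0) (pc := pcN2) (cut := Cut.none) (xt := Ext.none) (P1 := 0) (W1 := 536870912) (P2 := 0) (W2 := 536870912) (P3 := 469762048) (W3 := 67108864) (N0 := 3)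
    rfl k0_pp_202

noncomputable def f_pp_203 : ℕ → ℕ → ℕ → ℕ → Bool := onCell 0 536870912 0 536870912 469762048 67108864
    (rowN 3 0 true true true .up 2 0 3 (qsf 0 536870912 0 536870912 3) ndN0q2 ndN1q0 pcN3 Cut.none Ext.none)

def k0_pp_203 : ∃ t, chk3 f_pp_203 t 1 1 1 = true :=
  ⟨(l 5), by decide +kernel⟩

theorem c_pp_203 : CertN 0 536870912 0 536870912 469762048 67108864 3 true true true .up 2 0 3
    ndN0q2 ndN1q0 pcN3 Cut.none Ext.none :=
  certN0 (fam := true) (s1 := true) (s2 := true) (a := 2) (b := 0) (c := 3) (cn := .up) (n1 := ndN0q2) (n2 := ndN1q0) (pc := pcN3) (cut := Cut.none) (xt := Ext.none) (P1 := 0) (W1 := 536870912) (P2 := 0) (W2 := 536870912) (P3 := 469762048) (W3 := 67108864) (N0 := 3)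
    rfl k0_pp_203

noncomputable def f_pp_213 : ℕ → ℕ → ℕ → ℕ → Bool := onCell 0 536870912 536870912 536870912 469762048 67108864
    (rowN 3 0 true true true .pnn 2 1 3 (qsf 0 536870912 536870912 536870912 3) ndN0q2 ndN1q1 pcN3 Cut.none Ext.none)

def k0_pp_213 : ∃ t, chk3 f_pp_213 t 1 1 1 = true :=
  ⟨(l 4), by decide +kernel⟩

theorem c_pp_213 : CertN 0 536870912 536870912 536870912 469762048 67108864 3 true true true .pnn 2 1 3
    ndN0q2 ndN1q1 pcN3 Cut.none Ext.none :=
  certN0 (fam := true) (s1 := true) (s2 := true) (a := 2) (b := 1) (c := 3) (cn := .pnn) (n1 := ndN0q2) (n2 := ndN1q1) (pc := pcN3) (cut := Cut.none) (xt := Ext.none) (P1 := 0) (W1 := 536870912) (P2 := 536870912) (W2 := 536870912) (P3 := 469762048) (W3 := 67108864) (N0 := 3)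
    rfl k0_pp_213

noncomputable def f_pm_001 : ℕ → ℕ → ℕ → ℕ → Bool := onCell 0 536870912 0 536870912 469762048 67108864
    (rowN 3 0 true true false .up 0 0 1 (qsf 0 536870912 0 536870912 1) ndN0q0 ndN1q0 pcN1 Cut.none Ext.none)

def k0_pm_001 : ∃ t, chk3 f_pm_001 t 1 1 1 = true :=
  ⟨(l 3), by decide +kernel⟩

theorem c_pm_001 : CertN 0 536870912 0 536870912 469762048 67108864 3 true true false .up 0 0 1
    ndN0q0 ndN1q0 pcN1 Cut.none Ext.none :=
  certN0 (fam := true) (s1 := true) (s2 := false) (a := 0) (b := 0) (c := 1) (cn := .up) (n1 := ndN0q0) (n2 := ndN1q0) (pc := pcN1) (cut := Cut.none) (xt := Ext.none) (P1 := 0) (W1 := 536870912) (P2 := 0) (W2 := 536870912) (P3 := 469762048) (W3 := 67108864) (N0 := 3)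
    rfl k0_pm_001

noncomputable def f_pm_011 : ℕ → ℕ → ℕ → ℕ → Bool := onCell 0 536870912 536870912 536870912 469762048 67108864
    (rowN 3 1 true true false .pnn 0 1 1 (qsf 0 536870912 536870912 536870912 1) ndN0q0 ndN1q1 pcN1 Cut.none Ext.none)

def k0_pm_011 : ∃ t, chk3 f_pm_011 t 1 1 1 = true :=
  ⟨(l 3), by decide +kernel⟩

theorem c_pm_011 : CertN 0 536870912 536870912 536870912 469762048 67108864 3 true true false .pnn 0 1 1
    ndN0q0 ndN1q1 pcN1 Cut.none Ext.none :=
  certN1 (fam := true) (s1 := true) (s2 := false) (a := 0) (b := 1) (c := 1) (cn := .pnn) (n1 := ndN0q0) (n2 := ndN1q1) (pc := pcN1) (cut := Cut.none) (xt := Ext.none) (P1 := 0) (W1 := 536870912) (P2 := 536870912) (W2 := 536870912) (P3 := 469762048) (W3 := 67108864) (N0 := 3)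
    rfl (fun _ => rfl) k0_pm_011

noncomputable def f_pm_012 : ℕ → ℕ → ℕ → ℕ → Bool := onCell 1073741824 536870912 536870912 536870912 469762048 67108864
    (rowN 3 2 true true false .pnp 0 1 2 (qsf 0 536870912 536870912 536870912 2) ndN0q0 ndN1q1 pcN2 Cut.none Ext.none)

def k0_pm_012 : ∃ t, chk3 f_pm_012 t 4 1 1 = true :=
  ⟨(a (l 3) (b (a (l 3) (b (b (l 2) (a (l 3) (b (l 2) (a (l 294910311079) (l 16983512))))) (b (a (l 3) (b (a (l 3) (l 234780655015)) (l 3))) (l 3)))) (l 3))), by decide +kernel⟩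

def k1_pm_012 : ∃ t, chk3 f_pm_012 t 5 2 1 = true :=
  ⟨(a (a (a (b (b (l 2) (b (l 2) (a (l 16961576) (l 2)))) (b (b (a (l 16977840) (l 16977784)) (a (l 248739305431) (l 17004240))) (a (b (l 315848275079) (l 3)) (b (l 258939842727) (a (l 259476646919) (l 16913184)))))) (b (l 2) (a (b (l 16929280) (b (l 16960168) (l 16926992))) (a (b (l 16996608) (b (l 16953520) (l 16920448))) (a (b (l 16997784) (l 16934648)) (b (l 16995352) (l 16932840))))))) (b (l 2) (b (b (l 16990288) (l 16963256)) (b (l 16933152) (l 16900512))))) (b (l 2) (b (a (l 16944624) (l 2)) (a (l 16889216) (l 16860480))))), by decide +kernel⟩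

def k2_pm_012 : ∃ t, chk3 f_pm_012 t 5 3 1 = true :=
  ⟨(a (b (a (a (b (a (l 3) (b (b (l 259476693543) (l 252497296423)) (b (l 273972139863) (l 3)))) (l 3)) (a (b (b (a (c (l 16929880) (l 16864800)) (l 16892696)) (a (c (l 16893872) (l 254107778231)) (c (l 16888736) (l 16827752)))) (b (a (c (l 238001690951) (l 237464709703)) (c (l 16848336) (l 192904423207))) (a (l 3) (c (l 16803608) (l 227264084263))))) (a (b (b (l 16888192) (l 16853840)) (b (a (l 16816336) (l 16814064)) (a (l 16773736) (l 16771248)))) (a (b (b (l 16884960) (l 16850648)) (b (a (l 16812400) (l 16811352)) (a (l 16769472) (l 16768296)))) (b (b (l 16882712) (l 16848576)) (b (l 16809744) (l 16766552))))))) (b (b (l 16866224) (l 16829864)) (b (l 16790936) (a (l 16755936) (l 16736176))))) (a (a (l 3) (a (b (l 3) (l 3)) (a (b (b (a (l 209547262071) (l 16724952)) (a (l 3) (l 177335015943))) (l 3)) (b (a (b (a (l 16722912) (l 16721600)) (a (l 16673536) (l 16672064))) (b (l 16719672) (l 16669912))) (a (b (a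 (l 16622288) (b (l 16633560) (l 16607584))) (a (l 3) (b (l 16581568) (l 3)))) (b (b (l 16631216) (l 16605112)) (b (l 16578960) (l 16552968)))))))) (b (b (a (l 16707896) (l 16686160)) (a (l 16656768) (l 16632528))) (b (b (l 16604016) (l 16576456)) (b (l 16548816) (l 16521304)))))) (a (b (b (l 16815896) (b (l 16750736) (l 16704160))) (b (b (l 16651208) (l 16594120)) (b (l 16534192) (b (l 16488512) (l 16458216))))) (b (b (l 16781824) (l 16682048)) (b (b (l 16598928) (l 16537400)) (b (l 16472640) (b (l 16422776) (l 16389792))))))), by decide +kernel⟩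

def k3_pm_012 : ∃ t, chk3 f_pm_012 t 3 1 1 = true :=
  ⟨(b (a (b (l 2) (a (b (l 2) (a (l 16828432) (l 2))) (l 2))) (l 2)) (a (b (a (b (a (l 16742472) (l 16698776)) (b (l 16635856) (l 16612264))) (b (a (l 16644560) (l 2)) (b (l 16511232) (l 16430560)))) (b (a (a (b (l 16536280) (l 16472728)) (b (l 16465864) (l 16394736))) (b (l 16348624) (l 16261040))) (a (b (a (l 16403576) (l 16324488)) (l 16313904)) (b (l 16226864) (l 16219976))))) (b (a (b (l 2) (b (l 2) (l 16528152))) (l 2)) (a (b (l 16405664) (b (l 16234792) (l 16220376))) (b (b (l 2) (l 16533880)) (b (l 16438080) (l 16312744))))))), by decide +kernel⟩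

theorem s4_pm_012 : ∃ t, chk3 f_pm_012 t 5 1 1 = true := ex3_b k1_pm_012 k2_pm_012

theorem s5_pm_012 : ∃ t, chk3 f_pm_012 t 2 1 1 = true := ex3_a k0_pm_012 s4_pm_012

theorem s6_pm_012 : ∃ t, chk3 f_pm_012 t 1 1 1 = true := ex3_a s5_pm_012 k3_pm_012

theorem c_pm_012 : CertN 0 536870912 536870912 536870912 469762048 67108864 3 true true false .pnp 0 1 2
    ndN0q0 ndN1q1 pcN2 Cut.none Ext.none :=
  certN2 (fam := true) (s1 := true) (s2 := false) (a := 0) (b := 1) (c := 2) (cn := .pnp) (n1 := ndN0q0) (n2 := ndN1q1) (pc := pcN2) (cut := Cut.none) (xt := Ext.none) (P1 := 0) (W1 := 536870912) (P2 := 536870912) (W2 := 536870912) (P3 := 469762048) (W3 := 67108864) (N0 := 3)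
    rfl (fun _ => rfl) s6_pm_012

noncomputable def cut_pm_022_a : Cut := Cut.of [[⟨0, 0, 0, 67108864⟩, ⟨1, 1, 0, 67108864⟩, ⟨2, 1, 0, 67108864⟩], [⟨0, 0, 1, 33554432⟩, ⟨1, 1, 0, 33554432⟩, ⟨2, 1, 1, 33554432⟩]]

noncomputable def f_pm_022_a : ℕ → ℕ → ℕ → ℕ → Bool := onCell 1073741824 536870912 0 536870912 469762048 67108864
    (rowN 3 2 true true false .pp 0 2 2 (qsf 0 536870912 0 536870912 2) ndN0q0 ndN1q2a pcN2 cut_pm_022_a Ext.none)

def k0_pm_022_a : ∃ t, chk3 f_pm_022_a t 4 2 1 = true :=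
  ⟨(a (l 1) (a (l 1) (b (l 1) (b (l 1) (a (l 1) (b (l 1) (a (l 1) (l 16541136)))))))), by decide +kernel⟩

def k1_pm_022_a : ∃ t, chk3 f_pm_022_a t 4 3 1 = true :=
  ⟨(a (b (l 1) (b (a (l 1) (b (b (l 1) (a (l 1) (a (l 1) (l 16670904)))) (a (l 6) (a (l 6) (b (l 16658464) (l 16687960)))))) (a (l 6) (a (l 6) (a (l 6) (a (l 6) (b (b (l 16673416) (l 16682080)) (b (l 16692216) (b (l 16722360) (l 16728504)))))))))) (b (b (a (l 1) (a (b (a (l 1) (l 16557424)) (a (l 16594056) (l 16589936))) (b (a (l 16574984) (l 16550720)) (b (l 16560216) (l 16565712))))) (a (a (b (l 1) (a (l 1) (b (l 16612504) (l 16620232)))) (b (a (l 16616752) (b (l 16587280) (l 16594152))) (a (b (l 16606624) (l 16614040)) (l 16625720)))) (a (b (b (l 16580280) (l 16586664)) (b (l 16593152) (l 16599704))) (b (b (l 16571344) (l 16577080)) (b (l 16582896) (l 16588752)))))) (b (a (a (b (a (b (l 16634712) (l 16642888)) (b (l 16628040) (l 16635880))) (a (b (l 16651080) (l 16659240)) (b (l 16643720) (l 16651520))))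 (b (b (l 16639392) (l 16646712)) (b (l 16654000) (l 16675976)))) (b (a (b (l 16606288) (l 16612864)) (l 16634328)) (a (b (l 16619392) (l 16646784)) (c (l 16632848) (l 16627296))))) (b (a (a (b (b (l 16682272) (l 16665224)) (l 16692480)) (a (a (l 16678136) (l 16674128)) (l 16671144))) (a (a (l 16660344) (l 16673560)) (a (l 16665904) (l 16658376)))) (a (b (a (a (l 16706736) (l 16698144)) (c (l 16685568) (l 16684504))) (a (a (b (a (l 16718048) (l 16692768)) (c (l 16701976) (l 16700080))) (b (l 16707272) (c (l 16693408) (l 16691392)))) (a (a (a (l 16704984) (l 16702800)) (l 16704728)) (b (l 16663544) (l 16695872))))) (b (a (l 16667216) (l 16650096)) (b (a (l 16665848) (l 16658176)) (a (a (l 16686952) (l 16677968)) (a (l 16668904) (l 16638760)))))))))), by decide +kernel⟩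

def k2_pm_022_a : ∃ t, chk3 f_pm_022_a t 5 2 1 = true :=
  ⟨(a (b (a (a (l 1) (b (l 16492544) (b (l 16498904) (l 16505304)))) (b (a (l 16490688) (l 16489112)) (a (b (l 16496672) (l 16502768)) (l 16497872)))) (a (a (a (b (l 1) (b (l 16530392) (l 16538512))) (b (b (l 16515232) (l 16521816)) (b (l 16528384) (l 16536008)))) (a (b (b (l 16513768) (l 16520344)) (b (l 16526488) (l 16533640))) (b (a (b (l 16512664) (l 16519280)) (a (b (l 16512064) (l 16518760)) (b (l 16511576) (l 16518464)))) (a (b (l 16525144) (l 16531992)) (b (a (l 16524560) (l 16524192)) (l 16552048)))))) (b (a (b (l 16510208) (l 16516912)) (b (l 16507776) (l 16514584))) (b (a (l 16522120) (l 16518808)) (a (l 16528136) (l 16523496)))))) (b (a (b (l 16486248) (a (l 16495672) (l 16493168))) (b (l 16480976) (l 16488704))) (a (b (b (l 16503808) (l 16552672)) (b (l 16514144) (l 16516776))) (b (b (l 16497376) (l 16504504)) (b (l 16507848) (l 16507832)))))), by decide +kernel⟩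

def k3_pm_022_a : ∃ t, chk3 f_pm_022_a t 5 3 1 = true :=
  ⟨(b (a (a (a (b (b (a (l 16547552) (l 16544504)) (l 16597488)) (b (l 16586536) (l 16596848))) (a (b (b (l 16541640) (l 16550328)) (b (l 16559472) (l 16568832))) (b (a (b (l 16539672) (l 16547992)) (b (l 16559584) (l 16546768))) (b (a (l 16556752) (l 16555344)) (a (l 16565696) (l 16585040)))))) (b (b (a (l 16534936) (l 16528896)) (a (l 16542312) (l 16534792))) (b (a (l 16550048) (l 16540968)) (a (l 16557880) (l 16547120))))) (b (a (b (l 16519992) (l 16523592)) (b (l 16508024) (l 16508376))) (a (b (l 16527304) (l 16530808)) (b (l 16508584) (l 16508264))))) (a (b (a (a (b (l 16607144) (b (l 16593600) (l 16598384))) (a (b (l 16578104) (l 16586896)) (a (b (l 16574504) (l 16582792)) (b (l 16593616) (a (l 16581208) (l 16580272)))))) (b (a (l 16565480) (l 16552904)) (b (l 16584712) (l 16587408)))) (a (a (b (a (l 16651000) (l 16604512)) (b (l 16634152) (a (l 16626400) (l 16616856)))) (a (b (l 16637040) (l 16635600))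 (b (a (l 16611408) (b (l 16606904) (l 16631824))) (a (l 16619896) (a (l 16617896) (c (l 16597288) (l 16594224))))))) (b (b (l 16621192) (a (l 16580152) (l 16562760))) (a (b (l 16583840) (l 16608072)) (l 16597904))))) (b (b (a (l 16554664) (l 16506888)) (a (a (l 16542936) (l 16527632)) (l 16566680))) (b (a (a (l 16565480) (l 16526632)) (l 16529992)) (a (a (l 16588544) (l 16572408)) (a (l 16569576) (l 16557312))))))), by decide +kernel⟩

def k4_pm_022_a : ∃ t, chk3 f_pm_022_a t 6 1 1 = true :=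
  ⟨(b (b (a (a (b (l 16473568) (l 16481000)) (b (l 16463400) (l 16470792))) (b (l 16483408) (l 16512320))) (a (a (b (l 16492696) (b (l 16500448) (l 16498616))) (b (l 16481944) (b (l 16490824) (l 16488736)))) (a (b (l 16468272) (l 16476992)) (b (l 16450856) (l 16461032))))) (b (a (b (a (l 16515272) (l 16479168)) (a (b (l 16488896) (l 16484352)) (b (l 16467712) (l 16458440)))) (b (a (l 16462552) (l 16443864)) (b (l 16557680) (a (l 16429736) (l 16397144))))) (b (a (a (b (l 16499176) (l 16459040)) (b (l 16446824) (l 16431648))) (a (b (l 16411720) (l 16415600)) (a (l 16454240) (l 16451176)))) (b (a (a (l 16501976) (l 16514408)) (a (a (l 16472712) (l 16467992)) (b (l 16413632) (l 16453384)))) (a (a (b (l 16523320) (c (l 16542064) (l 16533536))) (b (l 16506056) (a (l 16525248) (c (l 16483600) (l 16470392))))) (b (a (l 16516392) (a (l 16451296) (l 16453288))) (a (a (c (l 16480016) (l 16465064)) (c (l 16499736) (l 16461904))) (a (c (b (l 16475000) (l 16485656)) (l 16461368))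 (c (b (l 16479240) (b (l 16487856) (l 16514672))) (l 16497824)))))))))), by decide +kernel⟩

def k5_pm_022_a : ∃ t, chk3 f_pm_022_a t 7 2 1 = true :=
  ⟨(a (b (a (l 16496720) (b (l 16379400) (l 16391720))) (b (a (l 16428416) (l 16404608)) (a (l 16502992) (l 16416560)))) (b (a (l 16373512) (l 16386136)) (a (b (l 16376416) (l 16410632)) (b (l 16348448) (l 16369960))))), by decide +kernel⟩

def k6_pm_022_a : ∃ t, chk3 f_pm_022_a t 7 6 1 = true :=
  ⟨(a (a (b (l 16526920) (a (l 16383112) (l 16343464))) (b (b (l 16413280) (l 16388504)) (b (l 16356992) (l 16339440)))) (b (a (b (l 16412712) (l 16364608)) (b (l 16376144) (l 16328944))) (a (l 16393064) (b (l 16344184) (l 16373560))))), by decide +kernel⟩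

def k7_pm_022_a : ∃ t, chk3 f_pm_022_a t 14 14 1 = true :=
  ⟨(a (b (l 16389128) (l 16470712)) (b (l 16390872) (l 16457512))), by decide +kernel⟩

def k8_pm_022_a : ∃ t, chk3 f_pm_022_a t 14 15 1 = true :=
  ⟨(b (a (a (l 16447248) (l 16495352)) (a (l 16502608) (b (l 16435360) (l 16460168)))) (a (b (a (l 16458448) (c (l 16478800) (l 16455576))) (b (a (l 16517376) (c (l 16519432) (l 16472824))) (a (a (c (l 16517912) (l 16473040)) (c (b (l 16498976) (l 16526448)) (l 16477000))) (c (a (b (l 16505136) (c (l 16539600) (l 16505200))) (b (l 16512360) (c (a (l 16545400) (b (l 16526784) (c (l 16544584) (l 16526912)))) (a (l 16510472) (l 16514336))))) (a (l 16502896) (b (l 16484760) (c (l 16519152) (l 16483832)))))))) (b (a (c (l 16489992) (l 16464384)) (b (l 16478328) (l 16510784))) (a (b (c (a (l 16508392) (l 16512192)) (a (l 16480792) (l 16483600))) (c (a (b (l 16539496) (b (c (l 16530672) (l 16516056)) (c (c (b (l 16536744) (a (l 16537744) (l 16544184))) (a (l 16529616)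 (l 16530728))) (a (l 16518568) (l 16519520))))) (b (l 16521232) (c (b (l 16533272) (a (c (a (l 16539136) (l 14)) (l 16531936)) (c (l 14) (b (l 16532504) (l 16544552))))) (b (l 16518208) (a (l 16520560) (c (l 16525600) (l 16517880))))))) (a (b (l 16489672) (c (a (l 16502280) (l 16503136)) (l 16487688))) (c (a (l 16501232) (l 16523096)) (l 16507424))))) (b (c (l 16537104) (l 16486192)) (b (c (a (l 16523880) (l 16527112)) (a (l 16493192) (l 16495480))) (c (a (c (a (b (l 16535464) (a (c (l 14) (l 16534392)) (l 14))) (l 14)) (b (l 16520760) (a (c (l 16526976) (l 16519144)) (c (b (l 16527720) (l 16529280)) (l 16520552))))) (c (l 14) (b (l 16523896) (a (c (a (l 16529736) (l 14)) (l 16522096)) (c (l 14) (b (l 16523032) (l 16524576))))))) (b (a (l 16497232) (l 16520616)) (a (c (c (l 16522392) (l 16503944)) (l 16491936)) (c (a (l 16509928) (l 16521928)) (l 16494192))))))))))), by decide +kernel⟩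

def k9_pm_022_a : ∃ t, chk3 f_pm_022_a t 15 14 1 = true :=
  ⟨(a (b (l 16401856) (a (l 16405752) (l 16413328))) (b (l 16409376) (l 16473128))), by decide +kernel⟩

def k10_pm_022_a : ∃ t, chk3 f_pm_022_a t 15 30 1 = true :=
  ⟨(a (a (b (l 16442960) (l 16466168)) (l 16512992)) (b (l 16488880) (a (l 16489152) (l 16540936)))), by decide +kernel⟩

def k11_pm_022_a : ∃ t, chk3 f_pm_022_a t 30 31 1 = true :=
  ⟨(b (a (c (l 16504016) (l 16474632)) (c (l 16525776) (l 16481240))) (b (a (c (l 16544240) (l 16512384)) (c (l 16539064) (l 16520056))) (a (a (c (b (l 16530952) (c (l 14) (b (l 16527640) (a (a (c (l 14) (l 16525176)) (l 14)) (l 14))))) (b (l 16498336) (c (b (l 16511016) (a (c (l 16517304) (l 16508912)) (c (l 16529680) (l 16510672)))) (a (l 16494864) (l 16496408))))) (c (l 14) (b (l 16501808) (c (b (l 16514888) (a (c (a (l 16520712) (l 14)) (l 16512584)) (c (l 14) (l 16525152)))) (b (l 16497576) (a (l 16499528) (l 16522376))))))) (a (c (l 14) (b (l 16505920) (c (b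 (l 16519416) (a (a (c (l 14) (l 16516336)) (l 14)) (l 14))) (b (l 16501560) (a (c (l 16507944) (l 16498936)) (c (l 16520712) (l 16501072))))))) (c (a (l 14) (a (l 14) (c (c (l 16631144) (l 14)) (l 14)))) (b (l 16510712) (c (l 14) (b (l 16506224) (a (c (a (l 16512040) (l 14)) (l 16503376)) (c (l 14) (l 16505856))))))))))), by decide +kernel⟩

def k12_pm_022_a : ∃ t, chk3 f_pm_022_a t 31 31 1 = true :=
  ⟨(b (a (c (l 16514576) (l 16490504)) (a (l 16514808) (l 16517608))) (a (c (b (a (l 16587568) (l 16611432)) (b (a (l 16536344) (c (l 16650416) (l 16594912))) (a (c (a (c (l 16643704) (l 14)) (c (l 16655040) (l 16627104))) (l 14)) (a (c (l 16652320) (l 14)) (c (l 16663280) (c (l 16622312) (l 14))))))) (b (l 16530472) (a (b (l 16516224) (c (l 14) (a (a (c (l 14) (l 16506296)) (b (l 16510872) (l 14))) (l 14)))) (l 14)))) (a (c (b (l 16634152) (c (a (l 16670344) (l 16680824)) (b (l 16617960) (a (c (l 16633528) (l 14)) (c (l 16644464) (l 16617720)))))) (l 14)) (a (b (l 16523120)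 (c (c (l 16691048) (b (l 16634512) (l 16620976))) (l 14))) (b (l 16523872) (c (c (l 16701008) (b (l 16645216) (l 16652520))) (a (l 14) (c (c (l 16612224) (l 14)) (l 14))))))))), by decide +kernel⟩

theorem s13_pm_022_a : ∃ t, chk3 f_pm_022_a t 15 31 1 = true := ex3_a k11_pm_022_a k12_pm_022_a

theorem s14_pm_022_a : ∃ t, chk3 f_pm_022_a t 15 15 1 = true := ex3_b k10_pm_022_a s13_pm_022_a

theorem s15_pm_022_a : ∃ t, chk3 f_pm_022_a t 15 7 1 = true := ex3_b k9_pm_022_a s14_pm_022_a

theorem s16_pm_022_a : ∃ t, chk3 f_pm_022_a t 14 7 1 = true := ex3_b k7_pm_022_a k8_pm_022_a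

theorem s17_pm_022_a : ∃ t, chk3 f_pm_022_a t 7 7 1 = true := ex3_a s16_pm_022_a s15_pm_022_a

theorem s18_pm_022_a : ∃ t, chk3 f_pm_022_a t 7 3 1 = true := ex3_b k6_pm_022_a s17_pm_022_a

theorem s19_pm_022_a : ∃ t, chk3 f_pm_022_a t 7 1 1 = true := ex3_b k5_pm_022_a s18_pm_022_a

theorem s20_pm_022_a : ∃ t, chk3 f_pm_022_a t 3 1 1 = true := ex3_a k4_pm_022_a s19_pm_022_a

theorem s21_pm_022_a : ∃ t, chk3 f_pm_022_a t 5 1 1 = true := ex3_b k2_pm_022_a k3_pm_022_a

theorem s22_pm_022_a : ∃ t, chk3 f_pm_022_a t 4 1 1 = true := ex3_b k0_pm_022_a k1_pm_022_a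

theorem s23_pm_022_a : ∃ t, chk3 f_pm_022_a t 2 1 1 = true := ex3_a s22_pm_022_a s21_pm_022_a

theorem s24_pm_022_a : ∃ t, chk3 f_pm_022_a t 1 1 1 = true := ex3_a s23_pm_022_a s20_pm_022_a

theorem c_pm_022_a : CertN 0 536870912 0 536870912 469762048 67108864 3 true true false .pp 0 2 2
    ndN0q0 ndN1q2a pcN2 cut_pm_022_a Ext.none :=
  certN2 (fam := true) (s1 := true) (s2 := false) (a := 0) (b := 2) (c := 2) (cn := .pp) (n1 := ndN0q0) (n2 := ndN1q2a) (pc := pcN2) (cut := cut_pm_022_a) (xt := Ext.none) (P1 := 0) (W1 := 536870912) (P2 := 0) (W2 := 536870912) (P3 := 469762048) (W3 := 67108864) (N0 := 3)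
    rfl (fun _ => rfl) s24_pm_022_a

noncomputable def cut_pm_022_b : Cut := Cut.of [[⟨0, 0, 0, 67108864⟩, ⟨1, 1, 0, 67108864⟩, ⟨2, 1, 0, 67108864⟩], [⟨0, 0, 1, 33554432⟩, ⟨1, 1, 0, 33554432⟩, ⟨2, 1, 1, 33554432⟩]]

noncomputable def f_pm_022_b : ℕ → ℕ → ℕ → ℕ → Bool := onCell 0 536870912 1073741824 536870912 469762048 67108864
    (rowN 3 1 true true false .pp 0 2 2 (qsf 0 536870912 1239849684 370763052 2) ndN0q0 ndN1q2b pcN2 cut_pm_022_b Ext.none)

def k0_pm_022_b : ∃ t, chk3 f_pm_022_b t 1 1 1 = true :=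
  ⟨(a (b (a (b (l 1) (a (b (a (b (b (l 1) (a (l 16533688) (l 1))) (a (b (l 16485544) (l 16459000)) (l 48351522279))) (b (l 1) (a (l 55330884007) (l 1)))) (a (b (a (l 16419424) (l 16444664)) (l 16379392)) (b (a (l 16469376) (l 16493448)) (l 16429096)))) (b (l 1) (b (a (l 64457695799) (l 1)) (a (l 16497424) (l 72510740535)))))) (l 1)) (b (a (a (b (b (a (l 16325760) (l 16375928)) (l 16322216)) (a (l 16180344) (l 16232784))) (b (b (a (l 16423888) (l 16469144)) (l 16456248)) (a (l 16283112) (l 16330928)))) (b (a (b (a (l 80563771671) (l 1)) (a (l 16458960) (l 16519168))) (l 1)) (a (b (l 38687792471) (l 16389256)) (a (l 76268813847) (b (l 1) (l 16459208)))))) (b (a (a (b (l 16107088) (l 16034216)) (b (l 16212200) (l 16143368))) (a (b (l 16327384) (l 16241544)) (b (a (l 16367176) (l 16422672)) (l 16313952)))) (b (a (a (l 15952936) (l 16067112)) (a (l 16170200) (l 16257760))) (a (l 16137256) (a (l 16137080) (l 16226856))))))) (b (l 1) (b (l 1) (a (b (a (b (l 118144695095)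 (l 83247971223)) (l 1)) (a (b (l 16427408) (l 16326816)) (b (l 135861550007) (l 146598895287)))) (l 1))))), by decide +kernel⟩

theorem c_pm_022_b : CertN 0 536870912 1239849684 370763052 469762048 67108864 3 true true false .pp 0 2 2
    ndN0q0 ndN1q2b pcN2 cut_pm_022_b Ext.none :=
  certN1 (fam := true) (s1 := true) (s2 := false) (a := 0) (b := 2) (c := 2) (cn := .pp) (n1 := ndN0q0) (n2 := ndN1q2b) (pc := pcN2) (cut := cut_pm_022_b) (xt := Ext.none) (P1 := 0) (W1 := 536870912) (P2 := 1239849684) (W2 := 370763052) (P3 := 469762048) (W3 := 67108864) (N0 := 3)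
    rfl (fun _ => rfl) k0_pm_022_b

noncomputable def cut_pm_023_a : Cut := Cut.of [[⟨0, 0, 1, 33554432⟩, ⟨1, 1, 0, 33554432⟩, ⟨2, 1, 1, 33554432⟩]]

noncomputable def f_pm_023_a : ℕ → ℕ → ℕ → ℕ → Bool := onCell 1610612736 536870912 0 536870912 469762048 67108864
    (rowN 3 2 true true false .up 0 2 3 (qsf 0 536870912 0 536870912 3) ndN0q0 ndN1q2a pcN3 cut_pm_023_a Ext.none)

def k0_pm_023_a : ∃ t, chk3 f_pm_023_a t 1 1 1 = true :=
  ⟨(a (a (b (a (b (a (l 16531552) (l 16535312)) (a (b (l 16447464) (l 16467968)) (b (l 16544024) (l 16563168)))) (b (a (l 16608768) (l 16664000)) (a (l 16631840) (l 16691000)))) (a (b (a (b (a (l 16479288) (l 16526344)) (b (l 16530160) (l 16548952))) (b (a (l 16572288) (l 16617768)) (a (l 16606216) (l 16652416)))) (b (a (b (a (l 16548312) (l 16591304)) (a (l 16574448) (l 16616456))) (b (a (l 16635672) (l 16680568)) (a (l 16659712) (l 16703288)))) (a (b (a (b (l 16596560) (l 16612480)) (b (l 16637672) (l 16652920))) (b (a (c (l 16659760)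 (l 16514456)) (c (l 16717872) (l 122506849335))) (a (a (a (b (l 16521952) (c (c (l 16713104) (l 16661856)) (a (c (c (l 16620480) (l 6)) (l 6)) (l 134317902055)))) (c (l 125191343095) (l 132707292359))) (c (l 124654501255) (l 130023008455))) (l 2)))) (b (a (b (l 16679888) (l 2)) (l 2)) (l 2))))) (b (b (a (l 16675336) (l 16734856)) (a (l 16710728) (l 16771016))) (b (a (b (l 16736944) (l 2)) (l 2)) (l 2))))) (b (a (b (a (l 16705088) (l 16734592)) (a (l 16734416) (l 2))) (l 2)) (b (l 2) (l 2)))) (l 2)), by decide +kernel⟩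

theorem c_pm_023_a : CertN 0 536870912 0 536870912 469762048 67108864 3 true true false .up 0 2 3
    ndN0q0 ndN1q2a pcN3 cut_pm_023_a Ext.none :=
  certN2 (fam := true) (s1 := true) (s2 := false) (a := 0) (b := 2) (c := 3) (cn := .up) (n1 := ndN0q0) (n2 := ndN1q2a) (pc := pcN3) (cut := cut_pm_023_a) (xt := Ext.none) (P1 := 0) (W1 := 536870912) (P2 := 0) (W2 := 536870912) (P3 := 469762048) (W3 := 67108864) (N0 := 3)
    rfl (fun _ => rfl) k0_pm_023_a

noncomputable def cut_pm_023_b : Cut := Cut.of [[⟨0, 0, 1, 33554432⟩, ⟨1, 1, 0, 33554432⟩, ⟨2, 1, 1, 33554432⟩]]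

noncomputable def f_pm_023_b : ℕ → ℕ → ℕ → ℕ → Bool := onCell 1610612736 536870912 1239849684 370763052 469762048 67108864
    (rowN 3 2 true true false .up 0 2 3 (qsf 0 536870912 1239849684 370763052 3) ndN0q0 ndN1q2b pcN3 cut_pm_023_b Ext.none)

def k0_pm_023_b : ∃ t, chk3 f_pm_023_b t 1 1 1 = true :=
  ⟨(a (a (b (a (b (b (a (l 16507440) (l 16523608)) (a (l 16502720) (l 16509848))) (b (a (l 16489304) (l 16511008)) (l 16500968))) (b (b (a (l 16593984) (l 16648632)) (a (l 16580184) (l 16637424))) (b (l 16611200) (l 16619704)))) (a (b (b (l 16494688) (l 16490240)) (a (l 16495440) (l 16573256))) (b (b (l 16631184) (l 16642736)) (a (l 16629384) (l 16679432))))) (b (b (b (a (a (l 16689912) (l 16720480)) (a (l 16744296) (l 2))) (a (a (l 16682080) (l 16716528)) (l 16774568))) (a (b (l 16702640) (l 16709056)) (b (l 16757968) (l 16765592)))) (a (b (b (l 16717904) (l 16727880)) (l 16743656)) (b (b (l 16775584) (l 16787208)) (l 16805224))))) (a (b (b (l 2) (a (b (l 16790856)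 (l 16800304)) (a (l 16855488) (l 2)))) (a (b (a (l 16809832) (l 16824016)) (l 16842856)) (b (a (l 16836968) (l 16849088)) (a (l 16860656) (l 4))))) (b (l 2) (l 4)))), by decide +kernel⟩

theorem c_pm_023_b : CertN 0 536870912 1239849684 370763052 469762048 67108864 3 true true false .up 0 2 3
    ndN0q0 ndN1q2b pcN3 cut_pm_023_b Ext.none :=
  certN2 (fam := true) (s1 := true) (s2 := false) (a := 0) (b := 2) (c := 3) (cn := .up) (n1 := ndN0q0) (n2 := ndN1q2b) (pc := pcN3) (cut := cut_pm_023_b) (xt := Ext.none) (P1 := 0) (W1 := 536870912) (P2 := 1239849684) (W2 := 370763052) (P3 := 469762048) (W3 := 67108864) (N0 := 3)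
    rfl (fun _ => rfl) k0_pm_023_b

noncomputable def f_pm_033 : ℕ → ℕ → ℕ → ℕ → Bool := onCell 1610612736 536870912 1610612736 536870912 469762048 67108864
    (rowN 3 2 true true false .pnn 0 3 3 (qsf 0 536870912 1610612736 536870912 3) ndN0q0 ndN1q3 pcN3 Cut.none Ext.none)

def k0_pm_033 : ∃ t, chk3 f_pm_033 t 1 1 1 = true :=
  ⟨(a (a (b (a (b (b (a (l 16676120) (l 16711888)) (l 232498958199)) (l 1)) (b (b (l 16760608) (l 16748440)) (b (l 16732520) (l 1)))) (l 1)) (a (b (b (b (l 16820208) (l 16819744)) (b (l 16816464) (l 16810624))) (l 1)) (b (b (b (l 16861584) (l 16868224)) (a (l 16862648) (l 16886440))) (b (a (l 1) (l 16900280)) (l 1))))) (a (b (a (b (a (l 16885592) (l 16895272)) (a (l 16904440) (l 4))) (l 4)) (l 4)) (l 4))), by decide +kernel⟩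

theorem c_pm_033 : CertN 0 536870912 1610612736 536870912 469762048 67108864 3 true true false .pnn 0 3 3
    ndN0q0 ndN1q3 pcN3 Cut.none Ext.none :=
  certN2 (fam := true) (s1 := true) (s2 := false) (a := 0) (b := 3) (c := 3) (cn := .pnn) (n1 := ndN0q0) (n2 := ndN1q3) (pc := pcN3) (cut := Cut.none) (xt := Ext.none) (P1 := 0) (W1 := 536870912) (P2 := 1610612736) (W2 := 536870912) (P3 := 469762048) (W3 := 67108864) (N0 := 3)
    rfl (fun _ => rfl) k0_pm_033

noncomputable def cut_pm_101 : Cut := Cut.of [[⟨0, 1, 0, 67108864⟩, ⟨1, 0, 0, 67108864⟩, ⟨2, 1, 0, 67108864⟩]]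

noncomputable def f_pm_101 : ℕ → ℕ → ℕ → ℕ → Bool := onCell 536870912 536870912 0 536870912 469762048 67108864
    (rowN 3 2 true true false .npn 1 0 1 (qsf 536870912 536870912 0 536870912 1) ndN0q1 ndN1q0 pcN1 cut_pm_101 Ext.none)

def k0_pm_101 : ∃ t, chk3 f_pm_101 t 1 1 1 = true :=
  ⟨(a (l 3) (b (a (l 3) (b (a (l 3) (a (l 3) (a (l 3) (b (b (l 6) (l 3)) (l 3))))) (l 3))) (l 3))), by decide +kernel⟩

theorem c_pm_101 : CertN 536870912 536870912 0 536870912 469762048 67108864 3 true true false .npn 1 0 1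
    ndN0q1 ndN1q0 pcN1 cut_pm_101 Ext.none :=
  certN2 (fam := true) (s1 := true) (s2 := false) (a := 1) (b := 0) (c := 1) (cn := .npn) (n1 := ndN0q1) (n2 := ndN1q0) (pc := pcN1) (cut := cut_pm_101) (xt := Ext.none) (P1 := 536870912) (W1 := 536870912) (P2 := 0) (W2 := 536870912) (P3 := 469762048) (W3 := 67108864) (N0 := 3)
    rfl (fun _ => rfl) k0_pm_101

noncomputable def cut_pm_102 : Cut := Cut.of [[⟨0, 1, 0, 67108864⟩, ⟨1, 0, 0, 67108864⟩, ⟨2, 1, 0, 67108864⟩]]

noncomputable def f_pm_102 : ℕ → ℕ → ℕ → ℕ → Bool := onCell 536870912 536870912 1073741824 536870912 469762048 67108864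
    (rowN 3 1 true true false .npp 1 0 2 (qsf 536870912 536870912 0 536870912 2) ndN0q1 ndN1q0 pcN2 cut_pm_102 Ext.none)

def k0_pm_102 : ∃ t, chk3 f_pm_102 t 2 1 1 = true :=
  ⟨(b (b (b (l 3) (b (a (l 3) (a (b (l 3) (a (l 16861752) (l 16990776))) (a (b (l 135459802695) (l 16951440)) (b (l 125259058839) (l 16907752))))) (b (a (a (l 2) (a (c (l 168678301527) (l 183173768583)) (l 190757018535))) (a (c (l 16984368) (l 16970944)) (l 16902608))) (a (a (l 2) (a (l 2) (l 16973016))) (a (l 16981112) (l 16877744)))))) (b (a (b (b (a (l 2) (l 184784384279)) (l 2)) (l 2)) (a (b (b (l 16955504) (b (l 16936312) (l 16924480))) (l 16892360)) (b (b (l 16853632) (l 16829968)) (l 16799552)))) (a (l 2) (a (l 16823080) (l 16771976))))) (b (a (l 2) (a (l 2) (l 16827520))) (l 2))), by decide +kernel⟩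

def k1_pm_102 : ∃ t, chk3 f_pm_102 t 6 4 1 = true :=
  ⟨(b (b (l 3) (a (a (l 3) (b (l 3) (b (l 3) (l 16885664)))) (a (b (l 3) (b (c (l 16872288) (l 16893520)) (l 16880920))) (b (b (c (l 113447816711) (l 76940552647)) (a (l 16884912) (l 16851472))) (b (l 16867624) (l 16835640)))))) (b (a (b (a (l 16990896) (l 16867832)) (l 16972816)) (b (a (l 16863760) (l 16924552)) (a (l 16842104) (l 16800520)))) (a (b (l 16834600) (l 16813512)) (a (l 16793552) (l 16783432))))), by decide +kernel⟩

def k2_pm_102 : ∃ t, chk3 f_pm_102 t 7 4 1 = true :=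
  ⟨(b (a (b (b (l 3) (a (a (l 3) (b (l 3) (b (l 3) (l 16844152)))) (a (b (l 3) (c (l 16856384) (l 16852640))) (b (c (l 111300202375) (l 63518650455)) (b (l 16821672) (l 16816848)))))) (b (b (a (c (b (l 16868552) (l 16843144)) (b (l 16928304) (l 16838960))) (a (l 16823216) (l 16830480))) (a (c (l 16898288) (l 16935520)) (c (l 16873552) (l 16887704)))) (b (a (l 16863952) (l 16797160)) (a (l 16811904) (l 16789096))))) (b (a (a (a (b (l 3) (b (c (l 16840776) (l 16837272)) (l 16829400))) (b (b (l 3) (c (l 118279485415) (l 74792931575))) (b (c (l 16812488) (l 16829672)) (l 16801064)))) (a (b (b (l 3) (b (l 3) (b (l 6) (l 16808248)))) (b (c (l 16825712) (l 16821904)) (l 16793512))) (b (l 6) (b (b (l 6) (l 16792488)) (l 16785992))))) (b (l 6) (b (l 6) (a (a (l 16781840) (l 6)) (l 6))))) (b (a (a (b (l 16795432) (l 16787000)) (l 16783712)) (a (a (l 16773464) (l 16763968)) (a (l 16754088) (l 6)))) (a (a (l 16786184) (l 16773856)) (a (l 16754936) (a (l 16739792) (l 16729528)))))))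 (a (b (a (b (l 16797896) (l 16785304)) (b (l 16785000) (l 16788616))) (a (l 16794584) (l 16774912))) (a (b (a (l 16773136) (l 16838808)) (a (l 16748816) (l 16729024))) (b (a (b (l 16741560) (l 16728384)) (b (l 16720856) (l 16707296))) (a (l 16708136) (l 16686648)))))), by decide +kernel⟩

def k3_pm_102 : ∃ t, chk3 f_pm_102 t 3 5 1 = true :=
  ⟨(a (b (a (b (l 16933536) (l 16781472)) (b (b (l 16789136) (l 16798288)) (l 16794456))) (a (l 16809696) (l 16827048))) (b (a (b (b (l 16878688) (a (l 16774160) (l 16805608))) (l 16869896)) (b (a (b (l 16719656) (l 16704552)) (b (l 16677344) (b (l 16667032) (l 16659304)))) (a (l 16686872) (l 16644400)))) (a (a (l 16740624) (l 16702520)) (a (l 16659544) (l 16655552))))), by decide +kernel⟩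

def k4_pm_102 : ∃ t, chk3 f_pm_102 t 3 3 1 = true :=
  ⟨(b (a (a (l 16822712) (a (l 16787920) (l 16754304))) (a (b (l 16700064) (l 16684000)) (b (a (l 16628672) (l 16577736)) (a (l 16603328) (l 16557872))))) (a (b (l 16939064) (l 2)) (b (a (l 16671120) (b (l 16581752) (l 16585816))) (a (l 16725992) (l 16734208))))), by decide +kernel⟩

theorem s5_pm_102 : ∃ t, chk3 f_pm_102 t 3 4 1 = true := ex3_a k1_pm_102 k2_pm_102

theorem s6_pm_102 : ∃ t, chk3 f_pm_102 t 3 2 1 = true := ex3_b s5_pm_102 k3_pm_102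

theorem s7_pm_102 : ∃ t, chk3 f_pm_102 t 3 1 1 = true := ex3_b s6_pm_102 k4_pm_102

theorem s8_pm_102 : ∃ t, chk3 f_pm_102 t 1 1 1 = true := ex3_a k0_pm_102 s7_pm_102

theorem c_pm_102 : CertN 536870912 536870912 0 536870912 469762048 67108864 3 true true false .npp 1 0 2
    ndN0q1 ndN1q0 pcN2 cut_pm_102 Ext.none :=
  certN1 (fam := true) (s1 := true) (s2 := false) (a := 1) (b := 0) (c := 2) (cn := .npp) (n1 := ndN0q1) (n2 := ndN1q0) (pc := pcN2) (cut := cut_pm_102) (xt := Ext.none) (P1 := 536870912) (W1 := 536870912) (P2 := 0) (W2 := 536870912) (P3 := 469762048) (W3 := 67108864) (N0 := 3)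
    rfl (fun _ => rfl) s8_pm_102

noncomputable def f_pm_112 : ℕ → ℕ → ℕ → ℕ → Bool := onCell 536870912 536870912 1073741824 536870912 469762048 67108864
    (rowN 3 1 true true false .dn 1 1 2 (qsf 536870912 536870912 536870912 536870912 2) ndN0q1 ndN1q1 pcN2 Cut.none Ext.none)

def k0_pm_112 : ∃ t, chk3 f_pm_112 t 1 1 1 = true :=
  ⟨(a (b (b (b (l 3) (b (a (l 3) (l 1)) (a (a (b (l 3) (a (b (l 215453405591) (l 16961192)) (a (l 16954880) (l 16955320)))) (a (b (l 591262809287) (l 16959488)) (b (l 16983624) (l 16977200)))) (a (l 253437400855) (l 1))))) (b (a (b (b (a (a (b (l 16963200) (l 16965792)) (l 16954600)) (a (l 16956264) (l 16971752))) (b (a (a (l 16970616) (l 16958208)) (l 16961848)) (a (b (a (l 16977520) (l 16962888)) (b (a (l 16982304) (l 16964552)) (a (l 16985040) (l 16962968)))) (b (l 16961624) (b (l 16956424) (l 16949952)))))) (a (a (l 16977280) (l 16986752)) (l 16963696))) (a (b (b (l 16935016) (b (l 16922704) (l 16914264))) (l 16888176)) (b (l 1) (l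 16785872)))) (a (a (a (l 16890864) (l 16904688)) (l 16926400)) (a (l 16814336) (l 16771664))))) (b (a (a (b (l 16885800) (l 16727424)) (b (l 16751464) (l 16688600))) (a (l 16762248) (l 16835192))) (a (b (a (l 16501552) (l 16697488)) (a (a (l 16440312) (l 16563296)) (l 16735120))) (b (a (l 16830104) (l 16947928)) (a (l 16878792) (l 17003840)))))) (b (b (l 1) (a (b (l 1) (l 283502012007)) (l 1))) (b (a (a (l 16824544) (l 16854704)) (a (l 167537772471) (l 1))) (a (b (l 17031632) (l 16946280)) (b (a (l 16681008) (l 209413151495)) (a (l 16735696) (l 16659800))))))), by decide +kernel⟩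

theorem c_pm_112 : CertN 536870912 536870912 536870912 536870912 469762048 67108864 3 true true false .dn 1 1 2
    ndN0q1 ndN1q1 pcN2 Cut.none Ext.none :=
  certN1 (fam := true) (s1 := true) (s2 := false) (a := 1) (b := 1) (c := 2) (cn := .dn) (n1 := ndN0q1) (n2 := ndN1q1) (pc := pcN2) (cut := Cut.none) (xt := Ext.none) (P1 := 536870912) (W1 := 536870912) (P2 := 536870912) (W2 := 536870912) (P3 := 469762048) (W3 := 67108864) (N0 := 3)
    rfl (fun _ => rfl) k0_pm_112

noncomputable def f_pm_113 : ℕ → ℕ → ℕ → ℕ → Bool := onCell 536870912 536870912 1610612736 536870912 469762048 67108864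
    (rowN 3 1 true true false .nn 1 1 3 (qsf 536870912 536870912 536870912 536870912 3) ndN0q1 ndN1q1 pcN3 Cut.none Ext.none)

def k0_pm_113 : ∃ t, chk3 f_pm_113 t 1 1 1 = true :=
  ⟨(a (b (b (a (a (b (a (l 16559488) (l 16692552)) (a (l 2) (l 16711424))) (b (l 16867128) (l 318465794567))) (b (a (l 16977280) (l 17047424)) (a (l 16988144) (l 17029512)))) (a (b (a (l 2) (l 411344554103)) (l 2)) (a (b (l 17000408) (l 309876160935)) (l 184784705767)))) (b (a (l 2) (b (a (l 2) (l 296991295159)) (l 2))) (l 2))) (b (b (a (b (l 17001512) (l 17115856)) (b (a (l 16870496) (l 16758960)) (l 16904760))) (a (a (l 17040056) (l 17071088)) (a (l 17030344) (l 17096216)))) (b (a (a (b (l 17028336) (l 17027376)) (b (l 17017320) (l 17002824))) (b (a (l 17036592) (l 16958336)) (a (l 16979808) (l 16946272)))) (b (a (a (l 2) (l 480063679687)) (a (l 16937632) (l 16897304))) (a (l 2) (b (l 16883216) (a (l 2) (l 4)))))))), by decide +kernel⟩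

theorem c_pm_113 : CertN 536870912 536870912 536870912 536870912 469762048 67108864 3 true true false .nn 1 1 3
    ndN0q1 ndN1q1 pcN3 Cut.none Ext.none :=
  certN1 (fam := true) (s1 := true) (s2 := false) (a := 1) (b := 1) (c := 3) (cn := .nn) (n1 := ndN0q1) (n2 := ndN1q1) (pc := pcN3) (cut := Cut.none) (xt := Ext.none) (P1 := 536870912) (W1 := 536870912) (P2 := 536870912) (W2 := 536870912) (P3 := 469762048) (W3 := 67108864) (N0 := 3)
    rfl (fun _ => rfl) k0_pm_113

noncomputable def cut_pm_123_a : Cut := Cut.of [[⟨0, 1, 0, 67108864⟩, ⟨1, 1, 0, 67108864⟩, ⟨2, 2, 0, 16777216⟩], [⟨0, 0, 1, 33554432⟩, ⟨1, 1, 0, 33554432⟩, ⟨2, 1, 1, 33554432⟩]]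

noncomputable def f_pm_123_a : ℕ → ℕ → ℕ → ℕ → Bool := onCell 1610612736 536870912 0 536870912 469762048 67108864
    (rowN 3 2 true true false .npn 1 2 3 (qsf 536870912 536870912 0 536870912 3) ndN0q1 ndN1q2a pcN3 cut_pm_123_a Ext.none)

def k0_pm_123_a : ∃ t, chk3 f_pm_123_a t 4 2 1 = true :=
  ⟨(a (l 1) (b (l 1) (a (l 1) (l 16690928)))), by decide +kernel⟩

def k1_pm_123_a : ∃ t, chk3 f_pm_123_a t 8 3 1 = true :=
  ⟨(b (l 1) (b (a (l 1) (b (l 50499198247) (a (l 16659704) (l 16703296)))) (b (a (a (l 1) (b (l 16637664) (l 16610984))) (a (b (l 16679888) (l 16694344)) (b (l 16722552) (a (l 16726680) (l 16752184))))) (a (b (a (b (l 16583008) (l 16528720)) (c (l 16717880) (a (l 16609392) (l 16629512)))) (a (c (b (a (l 16683632) (l 16702800)) (a (b (l 16690200) (a (l 16647824) (l 16699472))) (a (l 16685776) (l 16715992)))) (b (b (l 16525896) (l 16530592)) (b (a (l 16524408) (c (l 16634176) (l 16583632))) (a (c (a (c (l 16625520) (l 14)) (a (l 16599664) (l 16625912)))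 (l 14)) (a (c (b (l 16632536) (l 16634896)) (l 14)) (c (l 16643896) (b (l 16592664) (c (l 16607632) (l 14))))))))) (b (c (a (l 16721024) (l 16738368)) (a (l 16622704) (l 16642536))) (c (a (c (l 16753568) (l 16705200)) (l 16746584)) (a (b (c (l 16654160) (l 16604888)) (c (a (l 16653832) (l 16663528)) (a (c (l 16616840) (l 14)) (a (l 16591256) (l 16617328))))) (b (l 16628280) (c (l 16677672) (a (b (l 16623688) (l 16626040)) (l 16634712))))))))) (a (b (a (c (l 16745456) (l 16651360)) (b (l 16716488) (l 16684456))) (c (a (b (l 16757544) (a (l 16761560) (l 16776560))) (b (l 16784776) (l 16802184))) (a (b (a (l 16658088) (l 16670744)) (a (b (l 16643968) (c (a (l 16690488) (l 16698992)) (a (b (l 16641584) (a (l 16642640) (l 16647168))) (l 16631728)))) (b (l 16681144) (l 16691424)))) (b (l 16696488) (b (l 16711256) (l 16700736)))))) (b (b (l 16716808) (l 16775128)) (c (l 16841312) (b (l 16753120) (a (l 16754720) (l 16790472)))))))))), by decide +kernel⟩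

def k2_pm_123_a : ∃ t, chk3 f_pm_123_a t 9 3 1 = true :=
  ⟨(b (b (a (l 1) (l 16734864)) (a (b (l 16702848) (l 16718848)) (b (l 16765320) (l 16787584)))) (b (a (b (a (l 16719616) (l 16754896)) (a (l 16743080) (l 16788448))) (b (l 16818928) (l 16862680))) (a (b (a (b (l 16770008) (l 16798120)) (l 16840704)) (a (b (l 16830136) (a (l 16849448) (l 16878112))) (b (l 16885360) (l 16917184)))) (b (a (l 16890728) (l 16933656)) (a (l 16947680) (l 16986304)))))), by decide +kernel⟩

def k3_pm_123_a : ∃ t, chk3 f_pm_123_a t 5 1 1 = true :=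
  ⟨(b (b (a (a (l 16705080) (l 16735416)) (a (l 16764552) (l 16789992))) (a (a (b (l 16723616) (l 16746704)) (b (l 16758272) (l 16789456))) (a (l 16813184) (l 16967112)))) (b (a (b (a (l 16786256) (l 16841056)) (a (b (l 16830360) (l 16864456)) (l 16910408))) (b (a (l 16885632) (l 16909656)) (a (b (l 16935944) (l 16967256)) (l 16942216)))) (a (b (a (b (l 16900664) (l 16941416)) (b (l 16960728) (l 16991520))) (a (b (a (l 16969912) (l 16998360)) (a (l 17036200) (l 17031384))) (b (l 17018360) (l 17040528)))) (b (a (l 17124080) (l 16999600)) (a (b (l 17025000) (l 17043880)) (b (l 17022696) (l 17038736))))))), by decide +kernel⟩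

def k4_pm_123_a : ∃ t, chk3 f_pm_123_a t 3 1 1 = true :=
  ⟨(a (b (a (a (b (l 16890208) (a (l 16850608) (l 16849088))) (b (l 16810240) (l 16841176))) (b (a (l 16806000) (l 16798480)) (a (l 16914008) (l 17028696)))) (b (a (a (l 16949888) (l 16909600)) (b (l 16860736) (l 16892448))) (a (b (a (l 16882696) (l 16964568)) (a (l 17015904) (l 16991240))) (b (a (l 16938112) (l 16908560)) (a (l 16962296) (l 17014480)))))) (a (b (a (b (l 16787552) (l 16805656)) (b (a (l 16780416) (l 16840368)) (l 16789848))) (b (a (b (l 16828864) (l 16769344)) (b (l 16808272) (l 16826200))) (b (a (l 16877840) (l 16909728)) (a (b (l 16892864) (l 16900552)) (b (l 16859304) (l 16933800)))))) (b (a (b (a (l 180623745063) (l 4)) (a (l 16780608) (c (l 77544635847) (l 79692111927)))) (a (b (l 4) (b (l 4) (l 116199354743))) (l 4))) (a (b (b (a (l 16792472) (l 16782608)) (a (l 16806576) (l 16794392))) (b (a (l 16823376) (l 16807992)) (b (a (l 16834144) (l 16817488)) (a (l 16839112) (b (l 16820720)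 (l 16821936)))))) (a (b (b (a (l 16780448) (l 16839832)) (a (l 16784768) (l 16884440))) (b (b (l 16832072) (a (l 16799688) (l 16791792))) (b (b (l 16757712) (l 16822752)) (b (a (l 16807640) (l 16798952)) (a (l 16808528) (b (l 16799416) (l 16799880))))))) (b (a (b (l 4) (a (l 16840088) (l 16851576))) (l 4)) (b (b (a (a (l 16781272) (l 16820248)) (a (l 16840992) (l 4))) (a (b (l 16783008) (l 16785208)) (a (a (l 16779424) (l 6)) (l 6)))) (a (a (b (l 16790336) (b (l 16792424) (l 16808528))) (l 6)) (l 6))))))))), by decide +kernel⟩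

theorem s5_pm_123_a : ∃ t, chk3 f_pm_123_a t 4 3 1 = true := ex3_a k1_pm_123_a k2_pm_123_a

theorem s6_pm_123_a : ∃ t, chk3 f_pm_123_a t 4 1 1 = true := ex3_b k0_pm_123_a s5_pm_123_a

theorem s7_pm_123_a : ∃ t, chk3 f_pm_123_a t 2 1 1 = true := ex3_a s6_pm_123_a k3_pm_123_a

theorem s8_pm_123_a : ∃ t, chk3 f_pm_123_a t 1 1 1 = true := ex3_a s7_pm_123_a k4_pm_123_a

theorem c_pm_123_a : CertN 536870912 536870912 0 536870912 469762048 67108864 3 true true false .npn 1 2 3
    ndN0q1 ndN1q2a pcN3 cut_pm_123_a Ext.none :=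
  certN2 (fam := true) (s1 := true) (s2 := false) (a := 1) (b := 2) (c := 3) (cn := .npn) (n1 := ndN0q1) (n2 := ndN1q2a) (pc := pcN3) (cut := cut_pm_123_a) (xt := Ext.none) (P1 := 536870912) (W1 := 536870912) (P2 := 0) (W2 := 536870912) (P3 := 469762048) (W3 := 67108864) (N0 := 3)
    rfl (fun _ => rfl) s8_pm_123_a

noncomputable def cut_pm_123_b : Cut := Cut.of [[⟨0, 1, 0, 67108864⟩, ⟨1, 1, 0, 67108864⟩, ⟨2, 2, 0, 16777216⟩], [⟨0, 0, 1, 33554432⟩, ⟨1, 1, 0, 33554432⟩, ⟨2, 1, 1, 33554432⟩]]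

noncomputable def f_pm_123_b : ℕ → ℕ → ℕ → ℕ → Bool := onCell 1610612736 536870912 1239849684 370763052 469762048 67108864
    (rowN 3 2 true true false .npn 1 2 3 (qsf 536870912 536870912 1239849684 370763052 3) ndN0q1 ndN1q2b pcN3 cut_pm_123_b Ext.none)

def k0_pm_123_b : ∃ t, chk3 f_pm_123_b t 1 1 1 = true :=
  ⟨(a (b (a (l 1) (b (a (b (a (l 16689832) (l 16804848)) (l 1)) (b (b (a (l 16748856) (l 16773120)) (a (l 16743464) (l 16764664))) (a (l 16742936) (l 16763048)))) (a (l 1) (b (l 16883800) (l 1))))) (l 1)) (a (b (a (b (b (a (l 16868488) (l 16792560)) (a (l 16777632) (l 16786168))) (b (a (l 16783960) (l 16795440)) (l 16800344))) (b (b (a (l 16792112) (l 16786648)) (a (l 16789200) (l 16791048))) (b (a (l 16802408) (l 16808008)) (a (l 16818200) (l 16828096))))) (a (l 1) (b (a (l 16836960) (b (l 16843280) (l 4))) (l 1)))) (b (a (b (b (a (b (l 16781696) (l 16788776)) (a (l 16784240) (l 4))) (a (l 16804376) (l 4))) (b (a (l 16822864) (l 4)) (l 4))) (l 4)) (l 4)))),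 by decide +kernel⟩

theorem c_pm_123_b : CertN 536870912 536870912 1239849684 370763052 469762048 67108864 3 true true false .npn 1 2 3
    ndN0q1 ndN1q2b pcN3 cut_pm_123_b Ext.none :=
  certN2 (fam := true) (s1 := true) (s2 := false) (a := 1) (b := 2) (c := 3) (cn := .npn) (n1 := ndN0q1) (n2 := ndN1q2b) (pc := pcN3) (cut := cut_pm_123_b) (xt := Ext.none) (P1 := 536870912) (W1 := 536870912) (P2 := 1239849684) (W2 := 370763052) (P3 := 469762048) (W3 := 67108864) (N0 := 3)
    rfl (fun _ => rfl) k0_pm_123_b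

noncomputable def f_pm_133 : ℕ → ℕ → ℕ → ℕ → Bool := onCell 536870912 536870912 1610612736 536870912 469762048 67108864
    (rowN 3 0 true true false .dn 1 3 3 (qsf 536870912 536870912 1610612736 536870912 3) ndN0q1 ndN1q3 pcN3 Cut.none Ext.none)

def k0_pm_133 : ∃ t, chk3 f_pm_133 t 1 1 1 = true :=
  ⟨(l 4), by decide +kernel⟩

theorem c_pm_133 : CertN 536870912 536870912 1610612736 536870912 469762048 67108864 3 true true false .dn 1 3 3
    ndN0q1 ndN1q3 pcN3 Cut.none Ext.none :=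
  certN0 (fam := true) (s1 := true) (s2 := false) (a := 1) (b := 3) (c := 3) (cn := .dn) (n1 := ndN0q1) (n2 := ndN1q3) (pc := pcN3) (cut := Cut.none) (xt := Ext.none) (P1 := 536870912) (W1 := 536870912) (P2 := 1610612736) (W2 := 536870912) (P3 := 469762048) (W3 := 67108864) (N0 := 3)
    rfl k0_pm_133

noncomputable def cut_pm_202 : Cut := Cut.of [[⟨0, 1, 0, 67108864⟩, ⟨1, 0, 0, 67108864⟩, ⟨2, 1, 0, 67108864⟩]]

noncomputable def f_pm_202 : ℕ → ℕ → ℕ → ℕ → Bool := onCell 0 536870912 0 536870912 469762048 67108864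
    (rowN 3 0 true true false .pp 2 0 2 (qsf 0 536870912 0 536870912 2) ndN0q2 ndN1q0 pcN2 cut_pm_202 Ext.none)

def k0_pm_202 : ∃ t, chk3 f_pm_202 t 2 1 1 = true :=
  ⟨(b (a (b (a (b (b (b (a (l 16465680) (l 16471416)) (l 16544608)) (l 16470968)) (l 16452792)) (b (b (b (l 16482224) (l 16474240)) (l 16459048)) (l 16603520))) (b (a (l 16528272) (l 16516472)) (l 16598272))) (a (b (b (b (b (a (l 16494912) (l 16505368)) (l 16491520)) (l 16475816)) (l 16440520)) (b (l 16511704) (l 16585520))) (b (b (b (b (a (l 16518024) (b (l 16535560) (l 16530840))) (l 16537048)) (b (l 16505224) (l 16493168))) (l 16518456)) (b (l 16494248) (l 16618912))))) (b (b (a (l 16662392) (a (l 16660560) (l 16656648))) (a (l 16698080) (l 16725608))) (b (a (l 2) (a (l 2) (l 16776904))) (l 2)))), by decide +kernel⟩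

def k1_pm_202 : ∃ t, chk3 f_pm_202 t 3 2 1 = true :=
  ⟨(b (a (b (b (a (b (a (b (a (l 16548504) (l 16557912)) (l 16548280)) (b (a (l 16567856) (l 16578360)) (l 16567944))) (a (l 16540376) (l 16559696))) (b (a (b (a (b (l 16589800) (l 16587480)) (l 16598048)) (a (l 16583680) (l 16593264))) (b (a (l 16629400) (b (l 16621712) (l 16618576))) (l 16608576))) (a (b (l 16583240) (l 16577720)) (l 16621176)))) (a (b (l 16538472) (l 16525816)) (b (a (l 16589488) (l 16609880)) (a (l 16555504) (l 16576464))))) (a (b (l 16504760) (l 16470912)) (b (b (a (l 16541224) (a (l 16557616) (a (l 16774936) (l 16571072)))) (l 16651240)) (l 16512032)))) (b (a (b (b (a (b (a (l 16633296) (b (l 16649456) (l 16645800))) (a (l 16626456) (l 16640280))) (b (a (b (l 6) (l 16661224)) (l 6)) (a (l 16655376) (l 16671704)))) (a (b (l 16647384) (l 16619592)) (a (l 16643584) (l 16659216)))) (b (a (l 16609568) (l 16635296)) (l 16712632))) (b (a (b (l 6) (b (l 6) (l 16703032))) (l 6)) (a (b (l 16755568)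 (l 16658064)) (a (a (l 16754968) (l 16766104)) (b (l 6) (l 16713048)))))) (a (b (a (b (l 16582368) (a (l 16626072) (l 16718128))) (l 16679736)) (a (l 16606720) (a (l 16687104) (b (l 16712456) (l 16574096))))) (b (a (l 16679424) (b (a (l 16677080) (l 16699184)) (l 16695424))) (a (b (l 16617344) (a (l 16615304) (l 16614280))) (b (l 16660688) (l 16646952))))))) (a (b (a (l 16486752) (l 16495816)) (a (l 16542352) (l 16521680))) (b (a (l 16633376) (b (a (l 16670912) (a (l 16847784) (b (l 16644072) (l 16630976)))) (l 16583064))) (a (l 16520096) (a (l 16539000) (l 16569512)))))), by decide +kernel⟩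

def k2_pm_202 : ∃ t, chk3 f_pm_202 t 3 3 1 = true :=
  ⟨(b (a (b (b (l 16584816) (a (l 16661552) (l 16602736))) (a (l 16729584) (l 16676800))) (b (a (l 16546848) (l 16560272)) (a (b (l 16590648) (l 16629656)) (b (l 16548856) (l 16570600))))) (b (a (a (l 16807488) (l 16802272)) (a (l 16707224) (b (l 16598776) (l 16634792)))) (a (l 2) (a (l 16856256) (b (l 16682792) (l 16766368)))))), by decide +kernel⟩

theorem s3_pm_202 : ∃ t, chk3 f_pm_202 t 3 1 1 = true := ex3_b k1_pm_202 k2_pm_202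

theorem s4_pm_202 : ∃ t, chk3 f_pm_202 t 1 1 1 = true := ex3_a k0_pm_202 s3_pm_202

theorem c_pm_202 : CertN 0 536870912 0 536870912 469762048 67108864 3 true true false .pp 2 0 2
    ndN0q2 ndN1q0 pcN2 cut_pm_202 Ext.none :=
  certN0 (fam := true) (s1 := true) (s2 := false) (a := 2) (b := 0) (c := 2) (cn := .pp) (n1 := ndN0q2) (n2 := ndN1q0) (pc := pcN2) (cut := cut_pm_202) (xt := Ext.none) (P1 := 0) (W1 := 536870912) (P2 := 0) (W2 := 536870912) (P3 := 469762048) (W3 := 67108864) (N0 := 3)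
    rfl s4_pm_202

noncomputable def f_pm_203 : ℕ → ℕ → ℕ → ℕ → Bool := onCell 0 536870912 1610612736 536870912 469762048 67108864
    (rowN 3 1 true true false .up 2 0 3 (qsf 0 536870912 0 536870912 3) ndN0q2 ndN1q0 pcN3 Cut.none Ext.none)

def k0_pm_203 : ∃ t, chk3 f_pm_203 t 1 1 1 = true :=
  ⟨(b (b (a (a (b (l 16769488) (l 16717152)) (b (l 16601416) (l 16705896))) (b (a (l 16550472) (l 16605816)) (a (l 16684744) (l 16688784)))) (a (b (a (l 4) (b (l 16739104) (l 2))) (l 2)) (a (l 2) (l 2)))) (l 2)), by decide +kernel⟩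

theorem c_pm_203 : CertN 0 536870912 0 536870912 469762048 67108864 3 true true false .up 2 0 3
    ndN0q2 ndN1q0 pcN3 Cut.none Ext.none :=
  certN1 (fam := true) (s1 := true) (s2 := false) (a := 2) (b := 0) (c := 3) (cn := .up) (n1 := ndN0q2) (n2 := ndN1q0) (pc := pcN3) (cut := Cut.none) (xt := Ext.none) (P1 := 0) (W1 := 536870912) (P2 := 0) (W2 := 536870912) (P3 := 469762048) (W3 := 67108864) (N0 := 3)
    rfl (fun _ => rfl) k0_pm_203

noncomputable def f_pm_213 : ℕ → ℕ → ℕ → ℕ → Bool := onCell 0 536870912 1610612736 536870912 469762048 67108864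
    (rowN 3 1 true true false .pnn 2 1 3 (qsf 0 536870912 536870912 536870912 3) ndN0q2 ndN1q1 pcN3 Cut.none Ext.none)

def k0_pm_213 : ∃ t, chk3 f_pm_213 t 1 1 1 = true :=
  ⟨(a (b (a (b (l 1) (l 4)) (b (b (l 1) (l 16724376)) (b (l 16597664) (l 16826088)))) (l 4)) (b (b (b (a (l 1) (l 16615816)) (a (l 16689984) (l 16716432))) (b (a (l 16752120) (l 16794656)) (a (l 16790600) (a (l 16827280) (l 16872232))))) (b (b (a (l 16846856) (b (l 16872896) (l 16879848))) (a (l 4) (l 16876520))) (b (a (l 4) (l 16937592)) (l 4))))), by decide +kernel⟩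

theorem c_pm_213 : CertN 0 536870912 536870912 536870912 469762048 67108864 3 true true false .pnn 2 1 3
    ndN0q2 ndN1q1 pcN3 Cut.none Ext.none :=
  certN1 (fam := true) (s1 := true) (s2 := false) (a := 2) (b := 1) (c := 3) (cn := .pnn) (n1 := ndN0q2) (n2 := ndN1q1) (pc := pcN3) (cut := Cut.none) (xt := Ext.none) (P1 := 0) (W1 := 536870912) (P2 := 536870912) (W2 := 536870912) (P3 := 469762048) (W3 := 67108864) (N0 := 3)
    rfl (fun _ => rfl) k0_pm_213

noncomputable def f_mm_001 : ℕ → ℕ → ℕ → ℕ → Bool := onCell 0 536870912 0 536870912 469762048 67108864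
    (rowN 3 0 true false false .up 0 0 1 (qsf 0 536870912 0 536870912 1) ndN0q0 ndN1q0 pcN1 Cut.none Ext.none)

def k0_mm_001 : ∃ t, chk3 f_mm_001 t 1 1 1 = true :=
  ⟨(l 4), by decide +kernel⟩

theorem c_mm_001 : CertN 0 536870912 0 536870912 469762048 67108864 3 true false false .up 0 0 1
    ndN0q0 ndN1q0 pcN1 Cut.none Ext.none :=
  certN0 (fam := true) (s1 := false) (s2 := false) (a := 0) (b := 0) (c := 1) (cn := .up) (n1 := ndN0q0) (n2 := ndN1q0) (pc := pcN1) (cut := Cut.none) (xt := Ext.none) (P1 := 0) (W1 := 536870912) (P2 := 0) (W2 := 536870912) (P3 := 469762048) (W3 := 67108864) (N0 := 3)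
    rfl k0_mm_001

noncomputable def f_mm_011 : ℕ → ℕ → ℕ → ℕ → Bool := onCell 0 536870912 536870912 536870912 469762048 67108864
    (rowN 3 0 true false false .pnn 0 1 1 (qsf 0 536870912 536870912 536870912 1) ndN0q0 ndN1q1 pcN1 Cut.none Ext.none)

def k0_mm_011 : ∃ t, chk3 f_mm_011 t 1 1 1 = true :=
  ⟨(l 4), by decide +kernel⟩

theorem c_mm_011 : CertN 0 536870912 536870912 536870912 469762048 67108864 3 true false false .pnn 0 1 1
    ndN0q0 ndN1q1 pcN1 Cut.none Ext.none :=
  certN0 (fam := true) (s1 := false) (s2 := false) (a := 0) (b := 1) (c := 1) (cn := .pnn) (n1 := ndN0q0) (n2 := ndN1q1) (pc := pcN1) (cut := Cut.none) (xt := Ext.none) (P1 := 0) (W1 := 536870912) (P2 := 536870912) (W2 := 536870912) (P3 := 469762048) (W3 := 67108864) (N0 := 3)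
    rfl k0_mm_011

noncomputable def f_mm_012 : ℕ → ℕ → ℕ → ℕ → Bool := onCell 0 536870912 536870912 536870912 469762048 67108864
    (rowN 3 0 true false false .pnp 0 1 2 (qsf 0 536870912 536870912 536870912 2) ndN0q0 ndN1q1 pcN2 Cut.none Ext.none)

def k0_mm_012 : ∃ t, chk3 f_mm_012 t 1 1 1 = true :=
  ⟨(l 4), by decide +kernel⟩

theorem c_mm_012 : CertN 0 536870912 536870912 536870912 469762048 67108864 3 true false false .pnp 0 1 2
    ndN0q0 ndN1q1 pcN2 Cut.none Ext.none :=
  certN0 (fam := true) (s1 := false) (s2 := false) (a := 0) (b := 1) (c := 2) (cn := .pnp) (n1 := ndN0q0) (n2 := ndN1q1) (pc := pcN2) (cut := Cut.none) (xt := Ext.none) (P1 := 0) (W1 := 536870912) (P2 := 536870912) (W2 := 536870912) (P3 := 469762048) (W3 := 67108864) (N0 := 3)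
    rfl k0_mm_012

noncomputable def f_mm_022_a : ℕ → ℕ → ℕ → ℕ → Bool := onCell 0 536870912 0 536870912 469762048 67108864
    (rowN 3 0 true false false .pp 0 2 2 (qsf 0 536870912 0 536870912 2) ndN0q0 ndN1q2a pcN2 Cut.none Ext.none)

def k0_mm_022_a : ∃ t, chk3 f_mm_022_a t 1 1 1 = true :=
  ⟨(l 5), by decide +kernel⟩

theorem c_mm_022_a : CertN 0 536870912 0 536870912 469762048 67108864 3 true false false .pp 0 2 2
    ndN0q0 ndN1q2a pcN2 Cut.none Ext.none :=
  certN0 (fam := true) (s1 := false) (s2 := false) (a := 0) (b := 2) (c := 2) (cn := .pp) (n1 := ndN0q0) (n2 := ndN1q2a) (pc := pcN2) (cut := Cut.none) (xt := Ext.none) (P1 := 0) (W1 := 536870912) (P2 := 0) (W2 := 536870912) (P3 := 469762048) (W3 := 67108864) (N0 := 3)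
    rfl k0_mm_022_a

noncomputable def f_mm_022_b : ℕ → ℕ → ℕ → ℕ → Bool := onCell 0 536870912 1239849684 370763052 469762048 67108864
    (rowN 3 0 true false false .pp 0 2 2 (qsf 0 536870912 1239849684 370763052 2) ndN0q0 ndN1q2b pcN2 Cut.none Ext.none)

def k0_mm_022_b : ∃ t, chk3 f_mm_022_b t 1 1 1 = true :=
  ⟨(l 5), by decide +kernel⟩

theorem c_mm_022_b : CertN 0 536870912 1239849684 370763052 469762048 67108864 3 true false false .pp 0 2 2
    ndN0q0 ndN1q2b pcN2 Cut.none Ext.none :=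
  certN0 (fam := true) (s1 := false) (s2 := false) (a := 0) (b := 2) (c := 2) (cn := .pp) (n1 := ndN0q0) (n2 := ndN1q2b) (pc := pcN2) (cut := Cut.none) (xt := Ext.none) (P1 := 0) (W1 := 536870912) (P2 := 1239849684) (W2 := 370763052) (P3 := 469762048) (W3 := 67108864) (N0 := 3)
    rfl k0_mm_022_b

noncomputable def f_mm_023_a : ℕ → ℕ → ℕ → ℕ → Bool := onCell 0 536870912 0 536870912 469762048 67108864
    (rowN 3 0 true false false .up 0 2 3 (qsf 0 536870912 0 536870912 3) ndN0q0 ndN1q2a pcN3 Cut.none Ext.none)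

def k0_mm_023_a : ∃ t, chk3 f_mm_023_a t 1 1 1 = true :=
  ⟨(l 5), by decide +kernel⟩

theorem c_mm_023_a : CertN 0 536870912 0 536870912 469762048 67108864 3 true false false .up 0 2 3
    ndN0q0 ndN1q2a pcN3 Cut.none Ext.none :=
  certN0 (fam := true) (s1 := false) (s2 := false) (a := 0) (b := 2) (c := 3) (cn := .up) (n1 := ndN0q0) (n2 := ndN1q2a) (pc := pcN3) (cut := Cut.none) (xt := Ext.none) (P1 := 0) (W1 := 536870912) (P2 := 0) (W2 := 536870912) (P3 := 469762048) (W3 := 67108864) (N0 := 3)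
    rfl k0_mm_023_a

noncomputable def f_mm_023_b : ℕ → ℕ → ℕ → ℕ → Bool := onCell 0 536870912 1239849684 370763052 469762048 67108864
    (rowN 3 0 true false false .up 0 2 3 (qsf 0 536870912 1239849684 370763052 3) ndN0q0 ndN1q2b pcN3 Cut.none Ext.none)

def k0_mm_023_b : ∃ t, chk3 f_mm_023_b t 1 1 1 = true :=
  ⟨(l 5), by decide +kernel⟩

theorem c_mm_023_b : CertN 0 536870912 1239849684 370763052 469762048 67108864 3 true false false .up 0 2 3
    ndN0q0 ndN1q2b pcN3 Cut.none Ext.none :=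
  certN0 (fam := true) (s1 := false) (s2 := false) (a := 0) (b := 2) (c := 3) (cn := .up) (n1 := ndN0q0) (n2 := ndN1q2b) (pc := pcN3) (cut := Cut.none) (xt := Ext.none) (P1 := 0) (W1 := 536870912) (P2 := 1239849684) (W2 := 370763052) (P3 := 469762048) (W3 := 67108864) (N0 := 3)
    rfl k0_mm_023_b

noncomputable def f_mm_033 : ℕ → ℕ → ℕ → ℕ → Bool := onCell 0 536870912 1610612736 536870912 469762048 67108864
    (rowN 3 0 true false false .pnn 0 3 3 (qsf 0 536870912 1610612736 536870912 3) ndN0q0 ndN1q3 pcN3 Cut.none Ext.none)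

def k0_mm_033 : ∃ t, chk3 f_mm_033 t 1 1 1 = true :=
  ⟨(l 5), by decide +kernel⟩

theorem c_mm_033 : CertN 0 536870912 1610612736 536870912 469762048 67108864 3 true false false .pnn 0 3 3
    ndN0q0 ndN1q3 pcN3 Cut.none Ext.none :=
  certN0 (fam := true) (s1 := false) (s2 := false) (a := 0) (b := 3) (c := 3) (cn := .pnn) (n1 := ndN0q0) (n2 := ndN1q3) (pc := pcN3) (cut := Cut.none) (xt := Ext.none) (P1 := 0) (W1 := 536870912) (P2 := 1610612736) (W2 := 536870912) (P3 := 469762048) (W3 := 67108864) (N0 := 3)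
    rfl k0_mm_033

noncomputable def cut_mm_101 : Cut := Cut.of [[⟨0, 1, 0, 67108864⟩, ⟨1, 0, 0, 67108864⟩, ⟨2, 1, 0, 67108864⟩]]

noncomputable def f_mm_101 : ℕ → ℕ → ℕ → ℕ → Bool := onCell 536870912 536870912 0 536870912 469762048 67108864
    (rowN 3 0 true false false .npn 1 0 1 (qsf 536870912 536870912 0 536870912 1) ndN0q1 ndN1q0 pcN1 cut_mm_101 Ext.none)

def k0_mm_101 : ∃ t, chk3 f_mm_101 t 1 1 1 = true :=
  ⟨(a (l 4) (b (a (l 4) (b (a (l 4) (a (l 4) (b (b (l 6) (l 4)) (l 2)))) (l 4))) (l 4))), by decide +kernel⟩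

theorem c_mm_101 : CertN 536870912 536870912 0 536870912 469762048 67108864 3 true false false .npn 1 0 1
    ndN0q1 ndN1q0 pcN1 cut_mm_101 Ext.none :=
  certN0 (fam := true) (s1 := false) (s2 := false) (a := 1) (b := 0) (c := 1) (cn := .npn) (n1 := ndN0q1) (n2 := ndN1q0) (pc := pcN1) (cut := cut_mm_101) (xt := Ext.none) (P1 := 536870912) (W1 := 536870912) (P2 := 0) (W2 := 536870912) (P3 := 469762048) (W3 := 67108864) (N0 := 3)
    rfl k0_mm_101

noncomputable def cut_mm_102 : Cut := Cut.of [[⟨0, 1, 0, 67108864⟩, ⟨1, 0, 0, 67108864⟩, ⟨2, 1, 0, 67108864⟩]]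

noncomputable def f_mm_102 : ℕ → ℕ → ℕ → ℕ → Bool := onCell 536870912 536870912 0 536870912 469762048 67108864
    (rowN 3 0 true false false .npp 1 0 2 (qsf 536870912 536870912 0 536870912 2) ndN0q1 ndN1q0 pcN2 cut_mm_102 Ext.none)

def k0_mm_102 : ∃ t, chk3 f_mm_102 t 1 1 1 = true :=
  ⟨(a (l 4) (b (a (l 4) (b (a (l 4) (a (l 4) (b (b (l 6) (l 4)) (l 4)))) (l 4))) (l 4))), by decide +kernel⟩

theorem c_mm_102 : CertN 536870912 536870912 0 536870912 469762048 67108864 3 true false false .npp 1 0 2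
    ndN0q1 ndN1q0 pcN2 cut_mm_102 Ext.none :=
  certN0 (fam := true) (s1 := false) (s2 := false) (a := 1) (b := 0) (c := 2) (cn := .npp) (n1 := ndN0q1) (n2 := ndN1q0) (pc := pcN2) (cut := cut_mm_102) (xt := Ext.none) (P1 := 536870912) (W1 := 536870912) (P2 := 0) (W2 := 536870912) (P3 := 469762048) (W3 := 67108864) (N0 := 3)
    rfl k0_mm_102

noncomputable def f_mm_112 : ℕ → ℕ → ℕ → ℕ → Bool := onCell 536870912 536870912 536870912 536870912 469762048 67108864
    (rowN 3 0 true false false .dn 1 1 2 (qsf 536870912 536870912 536870912 536870912 2) ndN0q1 ndN1q1 pcN2 Cut.none Ext.none)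

def k0_mm_112 : ∃ t, chk3 f_mm_112 t 1 1 1 = true :=
  ⟨(l 4), by decide +kernel⟩

theorem c_mm_112 : CertN 536870912 536870912 536870912 536870912 469762048 67108864 3 true false false .dn 1 1 2
    ndN0q1 ndN1q1 pcN2 Cut.none Ext.none :=
  certN0 (fam := true) (s1 := false) (s2 := false) (a := 1) (b := 1) (c := 2) (cn := .dn) (n1 := ndN0q1) (n2 := ndN1q1) (pc := pcN2) (cut := Cut.none) (xt := Ext.none) (P1 := 536870912) (W1 := 536870912) (P2 := 536870912) (W2 := 536870912) (P3 := 469762048) (W3 := 67108864) (N0 := 3)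
    rfl k0_mm_112

noncomputable def f_mm_113 : ℕ → ℕ → ℕ → ℕ → Bool := onCell 536870912 536870912 536870912 536870912 469762048 67108864
    (rowN 3 0 true false false .nn 1 1 3 (qsf 536870912 536870912 536870912 536870912 3) ndN0q1 ndN1q1 pcN3 Cut.none Ext.none)

def k0_mm_113 : ∃ t, chk3 f_mm_113 t 1 1 1 = true :=
  ⟨(l 4), by decide +kernel⟩

theorem c_mm_113 : CertN 536870912 536870912 536870912 536870912 469762048 67108864 3 true false false .nn 1 1 3
    ndN0q1 ndN1q1 pcN3 Cut.none Ext.none :=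
  certN0 (fam := true) (s1 := false) (s2 := false) (a := 1) (b := 1) (c := 3) (cn := .nn) (n1 := ndN0q1) (n2 := ndN1q1) (pc := pcN3) (cut := Cut.none) (xt := Ext.none) (P1 := 536870912) (W1 := 536870912) (P2 := 536870912) (W2 := 536870912) (P3 := 469762048) (W3 := 67108864) (N0 := 3)
    rfl k0_mm_113

noncomputable def f_mm_123_a : ℕ → ℕ → ℕ → ℕ → Bool := onCell 536870912 536870912 0 536870912 469762048 67108864
    (rowN 3 0 true false false .npn 1 2 3 (qsf 536870912 536870912 0 536870912 3) ndN0q1 ndN1q2a pcN3 Cut.none Ext.none)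

def k0_mm_123_a : ∃ t, chk3 f_mm_123_a t 1 1 1 = true :=
  ⟨(l 4), by decide +kernel⟩

theorem c_mm_123_a : CertN 536870912 536870912 0 536870912 469762048 67108864 3 true false false .npn 1 2 3
    ndN0q1 ndN1q2a pcN3 Cut.none Ext.none :=
  certN0 (fam := true) (s1 := false) (s2 := false) (a := 1) (b := 2) (c := 3) (cn := .npn) (n1 := ndN0q1) (n2 := ndN1q2a) (pc := pcN3) (cut := Cut.none) (xt := Ext.none) (P1 := 536870912) (W1 := 536870912) (P2 := 0) (W2 := 536870912) (P3 := 469762048) (W3 := 67108864) (N0 := 3)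
    rfl k0_mm_123_a

noncomputable def f_mm_123_b : ℕ → ℕ → ℕ → ℕ → Bool := onCell 536870912 536870912 1239849684 370763052 469762048 67108864
    (rowN 3 0 true false false .npn 1 2 3 (qsf 536870912 536870912 1239849684 370763052 3) ndN0q1 ndN1q2b pcN3 Cut.none Ext.none)

def k0_mm_123_b : ∃ t, chk3 f_mm_123_b t 1 1 1 = true :=
  ⟨(l 4), by decide +kernel⟩

theorem c_mm_123_b : CertN 536870912 536870912 1239849684 370763052 469762048 67108864 3 true false false .npn 1 2 3
    ndN0q1 ndN1q2b pcN3 Cut.none Ext.none :=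
  certN0 (fam := true) (s1 := false) (s2 := false) (a := 1) (b := 2) (c := 3) (cn := .npn) (n1 := ndN0q1) (n2 := ndN1q2b) (pc := pcN3) (cut := Cut.none) (xt := Ext.none) (P1 := 536870912) (W1 := 536870912) (P2 := 1239849684) (W2 := 370763052) (P3 := 469762048) (W3 := 67108864) (N0 := 3)
    rfl k0_mm_123_b

noncomputable def f_mm_133 : ℕ → ℕ → ℕ → ℕ → Bool := onCell 536870912 536870912 1610612736 536870912 469762048 67108864
    (rowN 3 0 true false false .dn 1 3 3 (qsf 536870912 536870912 1610612736 536870912 3) ndN0q1 ndN1q3 pcN3 Cut.none Ext.none)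

def k0_mm_133 : ∃ t, chk3 f_mm_133 t 1 1 1 = true :=
  ⟨(l 4), by decide +kernel⟩

theorem c_mm_133 : CertN 536870912 536870912 1610612736 536870912 469762048 67108864 3 true false false .dn 1 3 3
    ndN0q1 ndN1q3 pcN3 Cut.none Ext.none :=
  certN0 (fam := true) (s1 := false) (s2 := false) (a := 1) (b := 3) (c := 3) (cn := .dn) (n1 := ndN0q1) (n2 := ndN1q3) (pc := pcN3) (cut := Cut.none) (xt := Ext.none) (P1 := 536870912) (W1 := 536870912) (P2 := 1610612736) (W2 := 536870912) (P3 := 469762048) (W3 := 67108864) (N0 := 3)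
    rfl k0_mm_133

noncomputable def cut_mm_202 : Cut := Cut.of [[⟨0, 1, 0, 67108864⟩, ⟨1, 0, 0, 67108864⟩, ⟨2, 1, 0, 67108864⟩]]

noncomputable def f_mm_202 : ℕ → ℕ → ℕ → ℕ → Bool := onCell 0 536870912 0 536870912 469762048 67108864
    (rowN 3 0 true false false .pp 2 0 2 (qsf 0 536870912 0 536870912 2) ndN0q2 ndN1q0 pcN2 cut_mm_202 Ext.none)

def k0_mm_202 : ∃ t, chk3 f_mm_202 t 2 1 1 = true :=
  ⟨(b (b (a (b (b (a (b (a (l 16465416) (l 16465520)) (l 16460144)) (b (l 16472936) (l 16470736))) (a (l 16451280) (l 16466128))) (b (l 16525360) (l 16500824))) (a (b (b (b (a (l 16486528) (l 16499504)) (l 16494128)) (l 16494256)) (l 16619552)) (b (b (b (a (l 16514488) (b (l 16529872) (l 16532384))) (l 16589840)) (l 16594512)) (b (l 16546712) (l 16591400))))) (a (b (a (l 16546512) (l 16573896)) (a (l 16621024) (l 16649504))) (b (b (l 16679200) (a (l 16630736) (l 16675080))) (a (l 16680712) (l 16775824))))) (b (a (b (l 16769752) (l 16840296)) (a (l 4) (l 4))) (l 4))), by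 decide +kernel⟩

def k1_mm_202 : ∃ t, chk3 f_mm_202 t 3 1 1 = true :=
  ⟨(b (b (a (b (b (a (a (b (b (l 16548216) (l 16551400)) (l 16555824)) (b (b (b (l 16588920) (l 16569904)) (l 16572736)) (l 16578088))) (b (a (b (a (l 16586080) (b (l 16597288) (l 16599616))) (l 16596712)) (b (a (b (l 16610328) (l 16612808)) (b (c (l 16628280) (l 16619944)) (l 16626752))) (a (l 16616416) (l 16630576)))) (a (l 16665840) (b (l 16649248) (l 16632800))))) (a (b (l 16594032) (l 16578216)) (b (b (l 16664968) (l 16647816)) (l 16700680)))) (a (b (l 16624576) (l 16649624)) (b (a (l 16654136) (l 16710080)) (a (l 16695424) (l 4))))) (b (a (b (b (b (a (a (b (c (l 16642504) (l 16634952)) (l 16641504)) (b (a (l 16650232) (a (l 16656168) (l 6))) (l 16657104))) (a (b (l 6) (l 16694576)) (l 6))) (a (a (l 16645528) (l 16661320)) (a (b (l 16676560) (l 16679448)) (b (l 6) (l 16697128))))) (b (a (l 16669208) (b (l 16712160) (l 16714968))) (a (l 16663744) (l 16729600)))) (a (b (l 16693728) (l 16695432))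 (b (a (l 16704160) (l 16735352)) (l 16775360)))) (b (a (b (l 6) (b (l 6) (a (l 16731192) (l 6)))) (l 6)) (a (b (a (l 16786960) (l 4)) (l 4)) (l 4)))) (a (b (a (b (l 16715184) (l 4)) (l 4)) (l 4)) (l 4)))) (a (b (a (b (l 16688296) (l 4)) (l 4)) (l 4)) (l 4))) (l 4)), by decide +kernel⟩

theorem s2_mm_202 : ∃ t, chk3 f_mm_202 t 1 1 1 = true := ex3_a k0_mm_202 k1_mm_202

theorem c_mm_202 : CertN 0 536870912 0 536870912 469762048 67108864 3 true false false .pp 2 0 2
    ndN0q2 ndN1q0 pcN2 cut_mm_202 Ext.none :=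
  certN0 (fam := true) (s1 := false) (s2 := false) (a := 2) (b := 0) (c := 2) (cn := .pp) (n1 := ndN0q2) (n2 := ndN1q0) (pc := pcN2) (cut := cut_mm_202) (xt := Ext.none) (P1 := 0) (W1 := 536870912) (P2 := 0) (W2 := 536870912) (P3 := 469762048) (W3 := 67108864) (N0 := 3)
    rfl s2_mm_202

noncomputable def f_mm_203 : ℕ → ℕ → ℕ → ℕ → Bool := onCell 0 536870912 1610612736 536870912 469762048 67108864
    (rowN 3 1 true false false .up 2 0 3 (qsf 0 536870912 0 536870912 3) ndN0q2 ndN1q0 pcN3 Cut.none Ext.none)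

def k0_mm_203 : ∃ t, chk3 f_mm_203 t 1 1 1 = true :=
  ⟨(b (b (a (b (a (l 16912408) (l 4)) (l 4)) (l 4)) (l 4)) (l 2)), by decide +kernel⟩

theorem c_mm_203 : CertN 0 536870912 0 536870912 469762048 67108864 3 true false false .up 2 0 3
    ndN0q2 ndN1q0 pcN3 Cut.none Ext.none :=
  certN1 (fam := true) (s1 := false) (s2 := false) (a := 2) (b := 0) (c := 3) (cn := .up) (n1 := ndN0q2) (n2 := ndN1q0) (pc := pcN3) (cut := Cut.none) (xt := Ext.none) (P1 := 0) (W1 := 536870912) (P2 := 0) (W2 := 536870912) (P3 := 469762048) (W3 := 67108864) (N0 := 3)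
    rfl (fun _ => rfl) k0_mm_203

noncomputable def f_mm_213 : ℕ → ℕ → ℕ → ℕ → Bool := onCell 0 536870912 536870912 536870912 469762048 67108864
    (rowN 3 0 true false false .pnn 2 1 3 (qsf 0 536870912 536870912 536870912 3) ndN0q2 ndN1q1 pcN3 Cut.none Ext.none)

def k0_mm_213 : ∃ t, chk3 f_mm_213 t 1 1 1 = true :=
  ⟨(l 4), by decide +kernel⟩

theorem c_mm_213 : CertN 0 536870912 536870912 536870912 469762048 67108864 3 true false false .pnn 2 1 3
    ndN0q2 ndN1q1 pcN3 Cut.none Ext.none :=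
  certN0 (fam := true) (s1 := false) (s2 := false) (a := 2) (b := 1) (c := 3) (cn := .pnn) (n1 := ndN0q2) (n2 := ndN1q1) (pc := pcN3) (cut := Cut.none) (xt := Ext.none) (P1 := 0) (W1 := 536870912) (P2 := 536870912) (W2 := 536870912) (P3 := 469762048) (W3 := 67108864) (N0 := 3)
    rfl k0_mm_213

end Pool.Agent.Strip051.G.I7_16_1_2.Tab.C.NA01

namespace Pool.Agent.Strip051.G.I7_16_1_2.Tab.C.NA02

open Pool.Agent.Strip051.PB Pool.Agent.Strip051.PB.T
open Pool.Agent.Strip051.G.I7_16_1_2.Tab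

noncomputable def f_pp_001 : ℕ → ℕ → ℕ → ℕ → Bool := onCell 0 536870912 0 536870912 469762048 67108864
    (rowN 3 0 true true true .up 0 0 1 (qsf 0 536870912 0 536870912 1) ndN0q0 ndN2q0 pcN1 Cut.none Ext.none)

def k0_pp_001 : ∃ t, chk3 f_pp_001 t 1 1 1 = true :=
  ⟨(l 4), by decide +kernel⟩

theorem c_pp_001 : CertN 0 536870912 0 536870912 469762048 67108864 3 true true true .up 0 0 1
    ndN0q0 ndN2q0 pcN1 Cut.none Ext.none :=
  certN0 (fam := true) (s1 := true) (s2 := true) (a := 0) (b := 0) (c := 1) (cn := .up) (n1 := ndN0q0) (n2 := ndN2q0) (pc := pcN1) (cut := Cut.none) (xt := Ext.none) (P1 := 0) (W1 := 536870912) (P2 := 0) (W2 := 536870912) (P3 := 469762048) (W3 := 67108864) (N0 := 3)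
    rfl k0_pp_001

noncomputable def f_pp_011 : ℕ → ℕ → ℕ → ℕ → Bool := onCell 0 536870912 536870912 536870912 469762048 67108864
    (rowN 3 0 true true true .pnn 0 1 1 (qsf 0 536870912 536870912 536870912 1) ndN0q0 ndN2q1 pcN1 Cut.none Ext.none)

def k0_pp_011 : ∃ t, chk3 f_pp_011 t 1 1 1 = true :=
  ⟨(l 4), by decide +kernel⟩

theorem c_pp_011 : CertN 0 536870912 536870912 536870912 469762048 67108864 3 true true true .pnn 0 1 1
    ndN0q0 ndN2q1 pcN1 Cut.none Ext.none :=
  certN0 (fam := true) (s1 := true) (s2 := true) (a := 0) (b := 1) (c := 1) (cn := .pnn) (n1 := ndN0q0) (n2 := ndN2q1) (pc := pcN1) (cut := Cut.none) (xt := Ext.none) (P1 := 0) (W1 := 536870912) (P2 := 536870912) (W2 := 536870912) (P3 := 469762048) (W3 := 67108864) (N0 := 3)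
    rfl k0_pp_011

noncomputable def f_pp_012 : ℕ → ℕ → ℕ → ℕ → Bool := onCell 0 536870912 536870912 536870912 469762048 67108864
    (rowN 3 0 true true true .pnp 0 1 2 (qsf 0 536870912 536870912 536870912 2) ndN0q0 ndN2q1 pcN2 Cut.none Ext.none)

def k0_pp_012 : ∃ t, chk3 f_pp_012 t 1 1 1 = true :=
  ⟨(l 4), by decide +kernel⟩

theorem c_pp_012 : CertN 0 536870912 536870912 536870912 469762048 67108864 3 true true true .pnp 0 1 2
    ndN0q0 ndN2q1 pcN2 Cut.none Ext.none :=
  certN0 (fam := true) (s1 := true) (s2 := true) (a := 0) (b := 1) (c := 2) (cn := .pnp) (n1 := ndN0q0) (n2 := ndN2q1) (pc := pcN2) (cut := Cut.none) (xt := Ext.none) (P1 := 0) (W1 := 536870912) (P2 := 536870912) (W2 := 536870912) (P3 := 469762048) (W3 := 67108864) (N0 := 3)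
    rfl k0_pp_012

noncomputable def f_pp_022 : ℕ → ℕ → ℕ → ℕ → Bool := onCell 0 536870912 1073741824 536870912 469762048 67108864
    (rowN 3 0 true true true .pp 0 2 2 (qsf 0 536870912 1073741824 536870912 2) ndN0q0 ndN2q2 pcN2 Cut.none Ext.none)

def k0_pp_022 : ∃ t, chk3 f_pp_022 t 1 1 1 = true :=
  ⟨(l 4), by decide +kernel⟩

theorem c_pp_022 : CertN 0 536870912 1073741824 536870912 469762048 67108864 3 true true true .pp 0 2 2
    ndN0q0 ndN2q2 pcN2 Cut.none Ext.none :=
  certN0 (fam := true) (s1 := true) (s2 := true) (a := 0) (b := 2) (c := 2) (cn := .pp) (n1 := ndN0q0) (n2 := ndN2q2) (pc := pcN2) (cut := Cut.none) (xt := Ext.none) (P1 := 0) (W1 := 536870912) (P2 := 1073741824) (W2 := 536870912) (P3 := 469762048) (W3 := 67108864) (N0 := 3)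
    rfl k0_pp_022

noncomputable def f_pp_023 : ℕ → ℕ → ℕ → ℕ → Bool := onCell 0 536870912 1073741824 536870912 469762048 67108864
    (rowN 3 0 true true true .up 0 2 3 (qsf 0 536870912 1073741824 536870912 3) ndN0q0 ndN2q2 pcN3 Cut.none Ext.none)

def k0_pp_023 : ∃ t, chk3 f_pp_023 t 1 1 1 = true :=
  ⟨(l 4), by decide +kernel⟩

theorem c_pp_023 : CertN 0 536870912 1073741824 536870912 469762048 67108864 3 true true true .up 0 2 3
    ndN0q0 ndN2q2 pcN3 Cut.none Ext.none :=
  certN0 (fam := true) (s1 := true) (s2 := true) (a := 0) (b := 2) (c := 3) (cn := .up) (n1 := ndN0q0) (n2 := ndN2q2) (pc := pcN3) (cut := Cut.none) (xt := Ext.none) (P1 := 0) (W1 := 536870912) (P2 := 1073741824) (W2 := 536870912) (P3 := 469762048) (W3 := 67108864) (N0 := 3)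
    rfl k0_pp_023

noncomputable def f_pp_033 : ℕ → ℕ → ℕ → ℕ → Bool := onCell 0 536870912 0 1230186008 469762048 67108864
    (rowN 3 0 true true true .pnn 0 3 3 (qsf 0 536870912 0 1230186008 3) ndN0q0 ndN2q3 pcN3 Cut.none Ext.none)

def k0_pp_033 : ∃ t, chk3 f_pp_033 t 1 1 1 = true :=
  ⟨(b (l 4) (l 4)), by decide +kernel⟩

theorem c_pp_033 : CertN 0 536870912 0 1230186008 469762048 67108864 3 true true true .pnn 0 3 3
    ndN0q0 ndN2q3 pcN3 Cut.none Ext.none :=
  certN0 (fam := true) (s1 := true) (s2 := true) (a := 0) (b := 3) (c := 3) (cn := .pnn) (n1 := ndN0q0) (n2 := ndN2q3) (pc := pcN3) (cut := Cut.none) (xt := Ext.none) (P1 := 0) (W1 := 536870912) (P2 := 0) (W2 := 1230186008) (P3 := 469762048) (W3 := 67108864) (N0 := 3)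
    rfl k0_pp_033

noncomputable def f_pp_101 : ℕ → ℕ → ℕ → ℕ → Bool := onCell 536870912 536870912 0 536870912 469762048 67108864
    (rowN 3 0 true true true .npn 1 0 1 (qsf 536870912 536870912 0 536870912 1) ndN0q1 ndN2q0 pcN1 Cut.none Ext.none)

def k0_pp_101 : ∃ t, chk3 f_pp_101 t 1 1 1 = true :=
  ⟨(l 4), by decide +kernel⟩

theorem c_pp_101 : CertN 536870912 536870912 0 536870912 469762048 67108864 3 true true true .npn 1 0 1
    ndN0q1 ndN2q0 pcN1 Cut.none Ext.none :=
  certN0 (fam := true) (s1 := true) (s2 := true) (a := 1) (b := 0) (c := 1) (cn := .npn) (n1 := ndN0q1) (n2 := ndN2q0) (pc := pcN1) (cut := Cut.none) (xt := Ext.none) (P1 := 536870912) (W1 := 536870912) (P2 := 0) (W2 := 536870912) (P3 := 469762048) (W3 := 67108864) (N0 := 3)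
    rfl k0_pp_101

noncomputable def f_pp_102 : ℕ → ℕ → ℕ → ℕ → Bool := onCell 536870912 536870912 0 536870912 469762048 67108864
    (rowN 3 0 true true true .npp 1 0 2 (qsf 536870912 536870912 0 536870912 2) ndN0q1 ndN2q0 pcN2 Cut.none Ext.none)

def k0_pp_102 : ∃ t, chk3 f_pp_102 t 1 1 1 = true :=
  ⟨(l 4), by decide +kernel⟩

theorem c_pp_102 : CertN 536870912 536870912 0 536870912 469762048 67108864 3 true true true .npp 1 0 2
    ndN0q1 ndN2q0 pcN2 Cut.none Ext.none :=
  certN0 (fam := true) (s1 := true) (s2 := true) (a := 1) (b := 0) (c := 2) (cn := .npp) (n1 := ndN0q1) (n2 := ndN2q0) (pc := pcN2) (cut := Cut.none) (xt := Ext.none) (P1 := 536870912) (W1 := 536870912) (P2 := 0) (W2 := 536870912) (P3 := 469762048) (W3 := 67108864) (N0 := 3)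
    rfl k0_pp_102

noncomputable def f_pp_112 : ℕ → ℕ → ℕ → ℕ → Bool := onCell 536870912 536870912 536870912 536870912 469762048 67108864
    (rowN 3 0 true true true .dn 1 1 2 (qsf 536870912 536870912 536870912 536870912 2) ndN0q1 ndN2q1 pcN2 Cut.none Ext.none)

def k0_pp_112 : ∃ t, chk3 f_pp_112 t 1 1 1 = true :=
  ⟨(l 4), by decide +kernel⟩

theorem c_pp_112 : CertN 536870912 536870912 536870912 536870912 469762048 67108864 3 true true true .dn 1 1 2
    ndN0q1 ndN2q1 pcN2 Cut.none Ext.none :=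
  certN0 (fam := true) (s1 := true) (s2 := true) (a := 1) (b := 1) (c := 2) (cn := .dn) (n1 := ndN0q1) (n2 := ndN2q1) (pc := pcN2) (cut := Cut.none) (xt := Ext.none) (P1 := 536870912) (W1 := 536870912) (P2 := 536870912) (W2 := 536870912) (P3 := 469762048) (W3 := 67108864) (N0 := 3)
    rfl k0_pp_112

noncomputable def f_pp_113 : ℕ → ℕ → ℕ → ℕ → Bool := onCell 536870912 536870912 536870912 536870912 469762048 67108864
    (rowN 3 0 true true true .nn 1 1 3 (qsf 536870912 536870912 536870912 536870912 3) ndN0q1 ndN2q1 pcN3 Cut.none Ext.none)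

def k0_pp_113 : ∃ t, chk3 f_pp_113 t 1 1 1 = true :=
  ⟨(l 4), by decide +kernel⟩

theorem c_pp_113 : CertN 536870912 536870912 536870912 536870912 469762048 67108864 3 true true true .nn 1 1 3
    ndN0q1 ndN2q1 pcN3 Cut.none Ext.none :=
  certN0 (fam := true) (s1 := true) (s2 := true) (a := 1) (b := 1) (c := 3) (cn := .nn) (n1 := ndN0q1) (n2 := ndN2q1) (pc := pcN3) (cut := Cut.none) (xt := Ext.none) (P1 := 536870912) (W1 := 536870912) (P2 := 536870912) (W2 := 536870912) (P3 := 469762048) (W3 := 67108864) (N0 := 3)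
    rfl k0_pp_113

noncomputable def f_pp_123 : ℕ → ℕ → ℕ → ℕ → Bool := onCell 536870912 536870912 1073741824 536870912 469762048 67108864
    (rowN 3 0 true true true .npn 1 2 3 (qsf 536870912 536870912 1073741824 536870912 3) ndN0q1 ndN2q2 pcN3 Cut.none Ext.none)

def k0_pp_123 : ∃ t, chk3 f_pp_123 t 1 1 1 = true :=
  ⟨(l 4), by decide +kernel⟩

theorem c_pp_123 : CertN 536870912 536870912 1073741824 536870912 469762048 67108864 3 true true true .npn 1 2 3
    ndN0q1 ndN2q2 pcN3 Cut.none Ext.none :=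
  certN0 (fam := true) (s1 := true) (s2 := true) (a := 1) (b := 2) (c := 3) (cn := .npn) (n1 := ndN0q1) (n2 := ndN2q2) (pc := pcN3) (cut := Cut.none) (xt := Ext.none) (P1 := 536870912) (W1 := 536870912) (P2 := 1073741824) (W2 := 536870912) (P3 := 469762048) (W3 := 67108864) (N0 := 3)
    rfl k0_pp_123

noncomputable def f_pp_133 : ℕ → ℕ → ℕ → ℕ → Bool := onCell 536870912 536870912 0 1230186008 469762048 67108864
    (rowN 3 0 true true true .dn 1 3 3 (qsf 536870912 536870912 0 1230186008 3) ndN0q1 ndN2q3 pcN3 Cut.none Ext.none)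

def k0_pp_133 : ∃ t, chk3 f_pp_133 t 1 1 1 = true :=
  ⟨(l 4), by decide +kernel⟩

theorem c_pp_133 : CertN 536870912 536870912 0 1230186008 469762048 67108864 3 true true true .dn 1 3 3
    ndN0q1 ndN2q3 pcN3 Cut.none Ext.none :=
  certN0 (fam := true) (s1 := true) (s2 := true) (a := 1) (b := 3) (c := 3) (cn := .dn) (n1 := ndN0q1) (n2 := ndN2q3) (pc := pcN3) (cut := Cut.none) (xt := Ext.none) (P1 := 536870912) (W1 := 536870912) (P2 := 0) (W2 := 1230186008) (P3 := 469762048) (W3 := 67108864) (N0 := 3)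
    rfl k0_pp_133

noncomputable def f_pp_202 : ℕ → ℕ → ℕ → ℕ → Bool := onCell 0 536870912 0 536870912 469762048 67108864
    (rowN 3 0 true true true .pp 2 0 2 (qsf 0 536870912 0 536870912 2) ndN0q2 ndN2q0 pcN2 Cut.none Ext.none)

def k0_pp_202 : ∃ t, chk3 f_pp_202 t 1 1 1 = true :=
  ⟨(l 5), by decide +kernel⟩

theorem c_pp_202 : CertN 0 536870912 0 536870912 469762048 67108864 3 true true true .pp 2 0 2
    ndN0q2 ndN2q0 pcN2 Cut.none Ext.none :=
  certN0 (fam := true) (s1 := true) (s2 := true) (a := 2) (b := 0) (c := 2) (cn := .pp) (n1 := ndN0q2) (n2 := ndN2q0) (pc := pcN2) (cut := Cut.none) (xt := Ext.none) (P1 := 0) (W1 := 536870912) (P2 := 0) (W2 := 536870912) (P3 := 469762048) (W3 := 67108864) (N0 := 3)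
    rfl k0_pp_202

noncomputable def f_pp_203 : ℕ → ℕ → ℕ → ℕ → Bool := onCell 0 536870912 0 536870912 469762048 67108864
    (rowN 3 0 true true true .up 2 0 3 (qsf 0 536870912 0 536870912 3) ndN0q2 ndN2q0 pcN3 Cut.none Ext.none)

def k0_pp_203 : ∃ t, chk3 f_pp_203 t 1 1 1 = true :=
  ⟨(l 5), by decide +kernel⟩

theorem c_pp_203 : CertN 0 536870912 0 536870912 469762048 67108864 3 true true true .up 2 0 3
    ndN0q2 ndN2q0 pcN3 Cut.none Ext.none :=
  certN0 (fam := true) (s1 := true) (s2 := true) (a := 2) (b := 0) (c := 3) (cn := .up) (n1 := ndN0q2) (n2 := ndN2q0) (pc := pcN3) (cut := Cut.none) (xt := Ext.none) (P1 := 0) (W1 := 536870912) (P2 := 0) (W2 := 536870912) (P3 := 469762048) (W3 := 67108864) (N0 := 3)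
    rfl k0_pp_203

noncomputable def f_pp_213 : ℕ → ℕ → ℕ → ℕ → Bool := onCell 0 536870912 536870912 536870912 469762048 67108864
    (rowN 3 0 true true true .pnn 2 1 3 (qsf 0 536870912 536870912 536870912 3) ndN0q2 ndN2q1 pcN3 Cut.none Ext.none)

def k0_pp_213 : ∃ t, chk3 f_pp_213 t 1 1 1 = true :=
  ⟨(l 4), by decide +kernel⟩

theorem c_pp_213 : CertN 0 536870912 536870912 536870912 469762048 67108864 3 true true true .pnn 2 1 3
    ndN0q2 ndN2q1 pcN3 Cut.none Ext.none :=
  certN0 (fam := true) (s1 := true) (s2 := true) (a := 2) (b := 1) (c := 3) (cn := .pnn) (n1 := ndN0q2) (n2 := ndN2q1) (pc := pcN3) (cut := Cut.none) (xt := Ext.none) (P1 := 0) (W1 := 536870912) (P2 := 536870912) (W2 := 536870912) (P3 := 469762048) (W3 := 67108864) (N0 := 3)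
    rfl k0_pp_213

noncomputable def f_pm_001 : ℕ → ℕ → ℕ → ℕ → Bool := onCell 536870912 536870912 0 536870912 469762048 67108864
    (rowN 3 2 true true false .up 0 0 1 (qsf 0 536870912 0 536870912 1) ndN0q0 ndN2q0 pcN1 Cut.none Ext.none)

def k0_pm_001 : ∃ t, chk3 f_pm_001 t 2 1 1 = true :=
  ⟨(l 3), by decide +kernel⟩

def k1_pm_001 : ∃ t, chk3 f_pm_001 t 3 2 1 = true :=
  ⟨(a (l 3) (l 2)), by decide +kernel⟩

def k2_pm_001 : ∃ t, chk3 f_pm_001 t 3 3 1 = true :=
  ⟨(b (a (l 3) (a (l 3) (l 2))) (a (l 3) (b (a (l 3) (a (a (l 3) (l 2)) (l 2))) (a (l 3) (a (b (a (l 3) (a (l 3) (a (l 3) (b (l 2) (b (l 2) (c (b (l 59760082727) (c (l 57612686231) (l 56538826951))) (b (l 53317568839) (c (l 52780706583) (l 51706868871))))))))) (a (l 3) (b (a (l 3) (a (l 3) (a (l 3) (a (l 3) (b (c (b (l 16582576) (l 16574448)) (b (l 16544288) (l 16535352))) (c (b (l 16587120) (l 16578656)) (c (l 51706944743) (l 16447736)))))))) (l 3)))) (b (b (l 2) (a (b (l 2) (b (l 2) (a (a (a (c (l 16632496)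 (l 16510584)) (l 2)) (l 2)) (l 2)))) (l 2))) (a (b (b (a (a (c (b (c (l 16649872) (l 16589192)) (l 16569464)) (b (l 16537480) (l 16528344))) (c (l 16607632) (l 16500784))) (c (l 16595728) (l 16463000))) (a (c (a (b (l 16571480) (c (l 16625112) (l 16563144))) (l 16590152)) (a (b (l 16519016) (l 16509520)) (l 16481504))) (c (l 16577360) (l 16484624)))) (c (b (a (c (a (b (l 16616528) (l 16607768)) (l 16603896)) (a (b (l 16554120) (l 16544928)) (l 16539584))) (a (l 16562768) (l 16553560))) (a (a (b (c (l 16598840) (l 16535552)) (c (l 16589736) (l 16526008))) (b (l 16557768) (l 16548104))) (a (l 16543120) (l 16533240)))) (b (a (a (b (l 16499840) (l 38285075383)) (b (l 16445552) (l 16435328))) (b (l 16426888) (l 16416088))) (a (c (a (b (l 16470880) (l 16460888)) (l 16453480)) (l 44190410295)) (b (l 16405072) (l 16393848)))))) (b (b (l 2) (a (c (l 16560112) (l 16418568)) (l 2))) (b (a (c (l 16539656) (l 16395896)) (l 16488112)) (a (c (l 16518312) (l 16372288)) (c (l 16498160)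 (l 16344704)))))))))))), by decide +kernel⟩

theorem s3_pm_001 : ∃ t, chk3 f_pm_001 t 3 1 1 = true := ex3_b k1_pm_001 k2_pm_001

theorem s4_pm_001 : ∃ t, chk3 f_pm_001 t 1 1 1 = true := ex3_a k0_pm_001 s3_pm_001

theorem c_pm_001 : CertN 0 536870912 0 536870912 469762048 67108864 3 true true false .up 0 0 1
    ndN0q0 ndN2q0 pcN1 Cut.none Ext.none :=
  certN2 (fam := true) (s1 := true) (s2 := false) (a := 0) (b := 0) (c := 1) (cn := .up) (n1 := ndN0q0) (n2 := ndN2q0) (pc := pcN1) (cut := Cut.none) (xt := Ext.none) (P1 := 0) (W1 := 536870912) (P2 := 0) (W2 := 536870912) (P3 := 469762048) (W3 := 67108864) (N0 := 3)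
    rfl (fun _ => rfl) s4_pm_001

noncomputable def cut_pm_011 : Cut := Cut.of [[⟨0, 0, 0, 67108864⟩, ⟨1, 1, 0, 67108864⟩, ⟨2, 1, 0, 67108864⟩]]

noncomputable def f_pm_011 : ℕ → ℕ → ℕ → ℕ → Bool := onCell 536870912 536870912 536870912 536870912 469762048 67108864
    (rowN 3 2 true true false .pnn 0 1 1 (qsf 0 536870912 536870912 536870912 1) ndN0q0 ndN2q1 pcN1 cut_pm_011 Ext.none)

def k0_pm_011 : ∃ t, chk3 f_pm_011 t 2 1 1 = true :=
  ⟨(l 3), by decide +kernel⟩

def k1_pm_011 : ∃ t, chk3 f_pm_011 t 6 4 1 = true :=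
  ⟨(l 3), by decide +kernel⟩

def k2_pm_011 : ∃ t, chk3 f_pm_011 t 7 8 1 = true :=
  ⟨(a (l 3) (a (l 3) (b (a (a (b (c (b (a (b (c (l 33990180295) (l 16535416)) (a (l 56001890487) (l 16530688))) (c (l 16557608) (l 16497952))) (a (c (a (l 54391291207) (l 16544968)) (a (l 52780606871) (l 16485648))) (c (l 16537144) (l 16476480)))) (b (a (b (l 59223023479) (l 65128407991)) (l 16407864)) (b (l 65128416503) (l 64054681623)))) (c (b (a (c (a (l 49559456727) (l 35063932375)) (a (l 47948767239) (l 16464208))) (c (l 16516080) (l 16454400))) (a (c (a (l 3) (l 29158311559)) (l 59222873943)) (c (l 16494408) (l 16431696)))) (b (a (l 57612246519) (l 16384944)) (l 58149134151)))) (b (c (b (a (l 16517208) (l 16506536)) (a (l 16495464) (l 16484008))) (a (l 16381848) (l 16346224))) (c (b (c (l 16499136) (l 16434656)) (c (l 16476176) (l 16410576))) (l 16382096)))) (b (a (c (b (l 16490416) (l 16466704)) (l 16345048)) (b (l 16482904) (l 16498208))) (c (a (b (l 16442208) (l 16416896))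 (b (l 16417160) (l 16390040))) (l 16362016)))) (a (b (a (c (a (c (b (a (l 3) (l 56538709015)) (l 54927938951)) (b (l 54927922151) (l 16425904))) (b (c (l 16472088) (l 16408336)) (l 16424600))) (b (l 55464792999) (l 16427816))) (c (b (c (l 16452488) (l 16385744)) (l 16404624)) (l 16370448))) (a (a (c (b (l 49022376503) (l 3)) (l 40432446807)) (c (b (l 16417224) (l 16422784)) (l 16406656))) (c (b (l 16412208) (l 16396952)) (l 16381552)))) (c (b (a (b (l 16390728) (l 16363664)) (l 16326512)) (a (l 16380456) (l 16325000))) (b (l 16361528) (l 16373256))))))), by decide +kernel⟩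

def k3_pm_011 : ∃ t, chk3 f_pm_011 t 7 9 1 = true :=
  ⟨(a (l 3) (a (l 3) (a (b (b (a (a (l 3) (c (b (l 16429032) (l 16438104)) (l 16441728))) (c (b (l 16403032) (l 16410488)) (l 16415792))) (a (a (l 3) (b (l 18957653927) (l 16473720))) (c (b (l 16420248) (l 16431304)) (l 16434456)))) (b (b (c (a (l 36137596919) (l 16441584)) (l 13589003783)) (a (l 29158292487) (l 16445056))) (a (c (l 29695195095) (l 16486064)) (c (l 16464296) (l 16452120))))) (b (b (c (a (l 16393008) (l 16337976)) (l 16386376)) (c (b (l 16408128) (l 16417416)) (l 16423728))) (b (c (b (l 16406640) (l 16417456)) (l 16443064)) (c (l 16452936) (l 16421360))))))), by decide +kernel⟩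

def k4_pm_011 : ∃ t, chk3 f_pm_011 t 3 5 1 = true :=
  ⟨(a (l 3) (a (l 3) (b (a (l 3) (a (a (l 3) (b (b (l 16515968) (l 16529944)) (b (l 16542456) (l 16551352)))) (b (b (c (l 16470136) (l 16438792)) (c (l 16485280) (l 16454376))) (b (c (l 16498728) (l 16468480)) (c (l 16510800) (l 16481408)))))) (a (l 3) (a (a (l 3) (a (b (b (l 3) (l 3)) (l 3)) (b (b (l 16515192) (l 16525832)) (c (l 16575056) (l 16560104))))) (a (b (c (l 16542896) (l 16514864)) (b (l 16534560) (l 16566144))) (b (c (l 16490824) (l 16484320)) (c (l 16532648) (l 16507880))))))))), by decide +kernel⟩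

def k5_pm_011 : ∃ t, chk3 f_pm_011 t 3 3 1 = true :=
  ⟨(a (l 3) (a (l 3) (b (a (l 3) (b (a (a (l 3) (a (l 3) (b (b (l 16593824) (l 3)) (l 3)))) (a (a (b (b (l 16568696) (l 16589584)) (b (l 16609648) (l 16628976))) (b (b (l 16553928) (l 16575000)) (b (l 16574272) (l 16593776)))) (b (b (b (l 16505320) (l 16537184)) (l 16574088)) (b (l 16594552) (l 16614272))))) (a (l 3) (b (b (a (a (l 16647672) (l 16633616)) (c (l 16614520) (l 16589184))) (a (a (l 3) (l 16651944)) (c (l 16633080) (l 16607656)))) (a (a (l 3) (b (l 16664568) (c (l 16668376) (l 16664256)))) (a (b (l 16655896) (l 16673520)) (b (l 16620976) (l 16659664)))))))) (a (l 3) (b (a (l 3) (b (a (b (a (l 3) (c (l 16695904) (l 16702592))) (l 3)) (b (a (c (l 16671840) (l 16667872)) (l 16671832)) (a (c (l 16699240) (l 16695640)) (c (l 16696096) (l 16671408))))) (a (l 3) (a (a (b (b (l 16724048) (l 3)) (l 3)) (b (c (l 16712608) (l 16719880)) (b (l 16723680) (a (l 3) (l 16730432))))) (b (b (l 16707032) (l 16705032))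 (b (c (l 16714960) (l 16701520)) (c (l 16723288) (l 16720592)))))))) (a (l 3) (b (a (l 3) (b (b (b (a (a (l 3) (l 16738416)) (c (l 16729528) (l 16716544))) (l 6)) (l 6)) (l 6))) (l 6)))))))), by decide +kernel⟩

theorem s6_pm_011 : ∃ t, chk3 f_pm_011 t 7 4 1 = true := ex3_b k2_pm_011 k3_pm_011

theorem s7_pm_011 : ∃ t, chk3 f_pm_011 t 3 4 1 = true := ex3_a k1_pm_011 s6_pm_011

theorem s8_pm_011 : ∃ t, chk3 f_pm_011 t 3 2 1 = true := ex3_b s7_pm_011 k4_pm_011

theorem s9_pm_011 : ∃ t, chk3 f_pm_011 t 3 1 1 = true := ex3_b s8_pm_011 k5_pm_011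

theorem s10_pm_011 : ∃ t, chk3 f_pm_011 t 1 1 1 = true := ex3_a k0_pm_011 s9_pm_011

theorem c_pm_011 : CertN 0 536870912 536870912 536870912 469762048 67108864 3 true true false .pnn 0 1 1
    ndN0q0 ndN2q1 pcN1 cut_pm_011 Ext.none :=
  certN2 (fam := true) (s1 := true) (s2 := false) (a := 0) (b := 1) (c := 1) (cn := .pnn) (n1 := ndN0q0) (n2 := ndN2q1) (pc := pcN1) (cut := cut_pm_011) (xt := Ext.none) (P1 := 0) (W1 := 536870912) (P2 := 536870912) (W2 := 536870912) (P3 := 469762048) (W3 := 67108864) (N0 := 3)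
    rfl (fun _ => rfl) s10_pm_011

noncomputable def cut_pm_012 : Cut := Cut.of [[⟨0, 0, 0, 67108864⟩, ⟨1, 1, 0, 67108864⟩, ⟨2, 1, 0, 67108864⟩]]

noncomputable def f_pm_012 : ℕ → ℕ → ℕ → ℕ → Bool := onCell 1073741824 536870912 536870912 536870912 469762048 67108864
    (rowN 3 2 true true false .pnp 0 1 2 (qsf 0 536870912 536870912 536870912 2) ndN0q0 ndN2q1 pcN2 cut_pm_012 Ext.none)

def k0_pm_012 : ∃ t, chk3 f_pm_012 t 2 2 1 = true :=
  ⟨(b (a (b (a (a (b (b (a (a (b (l 16449976) (l 16443440)) (l 16417264)) (l 16381648)) (a (a (b (l 16435920) (l 16291376)) (l 16402344)) (l 16367360))) (a (b (a (b (l 16293024) (l 16298664)) (l 16257208)) (c (l 16326944) (l 16286680))) (b (l 16243704) (l 16243304)))) (b (b (l 2) (a (l 16340760) (l 2))) (b (a (l 16281448) (l 16304672)) (l 16187056)))) (b (l 2) (a (a (l 16303736) (l 2)) (l 2)))) (a (a (b (a (b (c (l 16329968) (l 16300512)) (c (l 16344768) (l 16315528))) (b (l 16257704) (l 16273328))) (a (b (c (l 16382696) (l 16353616))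 (l 16398184)) (b (l 16267984) (l 16285248)))) (b (a (l 16239488) (l 16233976)) (b (l 16237464) (l 16234688)))) (b (a (b (l 16227120) (l 16208656)) (l 16280680)) (a (b (l 16220960) (l 16233752)) (l 16243312))))) (b (l 2) (a (a (a (b (l 2) (l 16262224)) (l 2)) (l 2)) (l 2)))) (a (a (b (a (a (a (b (l 16444000) (l 16453128)) (b (l 16389080) (l 16420896))) (b (l 16377120) (l 16370872))) (b (a (l 16282344) (l 16279360)) (a (l 16293416) (l 16308616)))) (a (a (b (c (l 16486168) (l 16480944)) (a (l 16500912) (l 16470072))) (b (l 16398688) (b (l 16406856) (l 16431160)))) (b (a (l 16331128) (l 16337776)) (a (b (l 16362416) (l 16404816)) (l 16393984))))) (b (a (b (l 16274832) (l 16362784)) (b (l 16259272) (l 16277592))) (a (b (a (l 16305288) (l 16298896)) (a (l 16333688) (l 16319528))) (b (l 16294120) (l 16372280))))) (a (b (a (a (l 16275768) (l 16370776)) (l 16299632)) (a (a (l 16361176) (b (l 16299176) (l 16328432))) (l 16426864))) (b (a (l 16323384) (l 2)) (a (l 16308024)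 (l 16323464)))))), by decide +kernel⟩

def k1_pm_012 : ∃ t, chk3 f_pm_012 t 8 6 1 = true :=
  ⟨(a (b (a (b (b (c (l 16487872) (l 16486248)) (l 16551032)) (b (l 16572080) (a (l 16564856) (l 16514760)))) (b (l 16478040) (l 16508304))) (a (a (a (b (b (l 16570344) (l 16589024)) (b (l 16607208) (l 16625000))) (b (l 16607528) (b (l 16593200) (l 16611088)))) (b (b (l 16523968) (l 16543024)) (b (l 16592984) (l 16611040)))) (b (l 16573784) (c (l 16602400) (l 16579024))))) (b (b (a (l 16406544) (l 16401520)) (a (l 16454040) (l 16424192))) (b (a (l 16483480) (l 16470864)) (b (l 16509736) (l 16546160))))), by decide +kernel⟩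

def k2_pm_012 : ∃ t, chk3 f_pm_012 t 8 7 1 = true :=
  ⟨(b (a (a (a (b (b (c (l 16669000) (l 16654544)) (b (l 16679984) (c (l 16658872) (l 16655312)))) (b (a (c (l 16699408) (l 16675064)) (l 16684000)) (a (b (l 16710448) (c (l 16699312) (l 16696552))) (c (l 16702304) (l 16678664))))) (b (b (l 16649688) (l 16667072)) (a (b (l 16670200) (l 16687208)) (b (l 16656320) (l 16652392))))) (b (b (l 16586320) (l 16619664)) (a (b (l 16614384) (l 16652456)) (l 16637424)))) (a (b (l 16569392) (b (l 16574056) (l 16591280))) (b (l 16497616) (b (l 16531504) (l 16547328))))) (a (b (b (a (b (a (a (c (l 16718112) (l 16705144)) (l 16713672)) (a (l 16699904) (c (l 16666008) (l 16664192)))) (a (a (l 6) (l 16722128)) (a (l 16708360) (l 16673560)))) (a (l 16669432) (l 16643768))) (a (a (l 6) (a (l 6) (l 16696744))) (a (b (l 16682160) (l 16691416)) (l 16651408)))) (a (l 6) (b (a (l 6) (b (l 16654440) (l 6))) (l 6)))) (b (b (a (l 16608552) (l 16584240)) (a (a (l 16616720) (l 16614040)) (a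 (l 16569792) (l 16546904)))) (b (a (a (b (l 16650816) (l 16659520)) (b (l 16605760) (l 16614184))) (a (l 16607064) (l 16562584))) (b (a (a (l 6) (l 16622576)) (a (l 16598272) (l 16574320))) (a (l 6) (a (l 16606352) (l 16582104)))))))), by decide +kernel⟩

def k3_pm_012 : ∃ t, chk3 f_pm_012 t 9 3 1 = true :=
  ⟨(b (b (a (b (a (l 16357144) (l 16337376)) (a (l 16375680) (l 16351384))) (b (l 16316688) (l 16344256))) (a (b (a (l 16397528) (l 16369248)) (a (l 16422096) (l 16389952))) (b (l 16376120) (l 16390648)))) (b (a (a (b (l 16469728) (b (l 16469808) (l 16484144))) (b (l 16412992) (l 16458752))) (b (a (l 16380648) (l 16351264)) (a (l 16401712) (l 16368400)))) (b (a (b (a (l 16498672) (l 16457208)) (a (l 16534296) (l 16470376))) (a (b (l 16418512) (l 16430016)) (l 16429136))) (a (b (a (l 16569976) (l 16483664)) (a (b (l 16539072) (l 16567384)) (b (l 16493672) (l 16500344)))) (b (a (l 16441696) (l 16402080)) (a (l 16474464) (l 16412216))))))), by decide +kernel⟩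

def k4_pm_012 : ∃ t, chk3 f_pm_012 t 5 3 1 = true :=
  ⟨(b (a (b (a (a (l 16303024) (a (l 16299072) (l 16343288))) (b (l 16300984) (l 16289448))) (a (a (l 16435832) (b (l 16359016) (l 16424696))) (b (l 16278184) (l 16273560)))) (b (a (l 16286504) (l 16286752)) (b (l 16319864) (a (l 16245416) (l 16233376))))) (a (b (a (a (b (l 16325232) (l 16338240)) (b (a (l 16308304) (l 16299992)) (a (l 16318096) (l 16307440)))) (b (l 16272744) (l 16275128))) (b (a (a (l 16353120) (a (l 16329856) (a (l 16319472) (l 16313704)))) (b (l 16278376) (l 16281096))) (a (a (b (l 16365200) (l 16373528)) (a (l 16364040) (b (l 16346000) (a (l 16334168) (l 16326888))))) (b (l 16284216) (l 16308648))))) (b (b (a (l 16234808) (l 16209608)) (a (l 16228008) (l 16192696))) (b (a (l 16224440) (l 16179648)) (a (b (l 16223232) (l 16222984)) (b (l 16172232) (l 16167880))))))), by decide +kernel⟩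

def k5_pm_012 : ∃ t, chk3 f_pm_012 t 3 1 1 = true :=
  ⟨(b (a (b (l 2) (a (b (l 2) (a (l 16354864) (l 2))) (l 2))) (l 2)) (a (b (a (b (a (l 16301144) (l 16325600)) (a (l 16244480) (l 16253984))) (b (a (l 16413320) (l 2)) (a (l 16279648) (l 16310112)))) (b (a (b (l 16283672) (a (l 16170832) (l 16167048))) (b (l 16226016) (l 16181712))) (a (b (a (l 16147288) (l 16129176)) (a (l 16127720) (l 16098664))) (b (a (l 16130256) (l 16144440)) (a (l 16084696) (l 16091120)))))) (b (a (b (l 2) (a (l 16462680) (l 2))) (l 2)) (a (b (a (l 16244416) (l 16364432)) (a (b (l 16170792) (l 16111200)) (b (l 16205072) (l 16150616)))) (b (a (l 16503016) (l 2)) (a (b (l 16317296) (l 16179856)) (b (l 16463344) (l 16333688)))))))), by decide +kernel⟩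

theorem s6_pm_012 : ∃ t, chk3 f_pm_012 t 8 3 1 = true := ex3_b k1_pm_012 k2_pm_012

theorem s7_pm_012 : ∃ t, chk3 f_pm_012 t 4 3 1 = true := ex3_a s6_pm_012 k3_pm_012

theorem s8_pm_012 : ∃ t, chk3 f_pm_012 t 2 3 1 = true := ex3_a s7_pm_012 k4_pm_012

theorem s9_pm_012 : ∃ t, chk3 f_pm_012 t 2 1 1 = true := ex3_b k0_pm_012 s8_pm_012

theorem s10_pm_012 : ∃ t, chk3 f_pm_012 t 1 1 1 = true := ex3_a s9_pm_012 k5_pm_012

theorem c_pm_012 : CertN 0 536870912 536870912 536870912 469762048 67108864 3 true true false .pnp 0 1 2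
    ndN0q0 ndN2q1 pcN2 cut_pm_012 Ext.none :=
  certN2 (fam := true) (s1 := true) (s2 := false) (a := 0) (b := 1) (c := 2) (cn := .pnp) (n1 := ndN0q0) (n2 := ndN2q1) (pc := pcN2) (cut := cut_pm_012) (xt := Ext.none) (P1 := 0) (W1 := 536870912) (P2 := 536870912) (W2 := 536870912) (P3 := 469762048) (W3 := 67108864) (N0 := 3)
    rfl (fun _ => rfl) s10_pm_012

noncomputable def f_pm_022 : ℕ → ℕ → ℕ → ℕ → Bool := onCell 0 536870912 1073741824 536870912 469762048 67108864
    (rowN 3 1 true true false .pp 0 2 2 (qsf 0 536870912 1073741824 536870912 2) ndN0q0 ndN2q2 pcN2 Cut.none Ext.none)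

def k0_pm_022 : ∃ t, chk3 f_pm_022 t 2 4 1 = true :=
  ⟨(b (l 3) (a (b (l 3) (a (b (b (a (a (a (b (l 16591024) (l 16584384)) (l 9294272663)) (c (l 16603504) (l 16594640))) (a (l 16608264) (l 16616168))) (a (a (c (l 16583504) (l 16570688)) (l 16606840)) (a (l 16594384) (l 16602200)))) (a (a (b (c (l 16572056) (l 16557584)) (l 16552936)) (b (l 16573352) (l 16561320))) (a (b (l 16581216) (l 16568608)) (l 16645400)))) (b (a (a (c (l 16680256) (l 16676984)) (l 16673352)) (b (l 3) (a (l 16674184) (l 347388753863)))) (a (b (l 16661256) (l 16648336)) (a (l 16639880) (b (l 97743853047) (l 16620744))))))) (b (l 1) (a (a (b (l 1) (b (l 1) (l 366179206583))) (l 1)) (l 1))))), by decide +kernel⟩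

def k1_pm_022 : ∃ t, chk3 f_pm_022 t 2 5 1 = true :=
  ⟨(b (b (b (b (a (a (a (a (l 16541096) (l 16549520)) (l 16581160)) (a (l 16572688) (l 16580320))) (a (a (l 308733961927) (l 1)) (l 1))) (a (a (a (a (l 16529320) (l 16537808)) (l 16548176)) (a (l 16560032) (l 16567944))) (a (a (a (l 16578256) (l 335040651095)) (l 1)) (l 1)))) (b (a (a (a (a (b (l 16520760) (l 16516880)) (l 16526984)) (l 16599832)) (a (l 16568496) (l 16555368))) (a (a (b (l 16646008) (l 16626760)) (l 1)) (l 1))) (a (b (a (a (a (l 16513960) (l 16521872)) (l 16531320)) (a (l 16540448) (l 16547400))) (a (a (a (b (l 16512896) (c (l 16524320) (l 16500368))) (b (l 16520752) (l 16520368))) (a (l 16526936) (l 16532160))) (a (l 16538440) (l 16587288)))) (a (b (a (l 16595992) (l 1)) (a (l 16588072) (l 305512695543))) (l 1))))) (a (a (a (a (b (c (l 16513720) (l 16488544)) (c (l 16494432) (l 16467296))) (b (l 16508968) (l 16488104))) (a (l 16504792) (l 16509952))) (a (l 16536496) (l 16583096))) (a (a (l 16541968)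 (b (l 230887599447) (l 16600808))) (a (b (l 1) (l 249678073591)) (l 1))))) (a (a (a (b (a (b (l 16462568) (l 16445400)) (l 16460176)) (a (l 16422328) (l 16428224))) (b (l 16468120) (l 16434928))) (a (b (l 16474936) (l 16440080)) (b (l 16476632) (l 16440648)))) (a (b (c (l 16579632) (l 16585760)) (a (l 16435288) (l 16425352))) (a (b (a (l 16578008) (l 191695897239)) (l 16501184)) (b (b (l 1) (l 265784145735)) (a (l 16552400) (l 204580792375))))))), by decide +kernel⟩

def k2_pm_022 : ∃ t, chk3 f_pm_022 t 2 3 1 = true :=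
  ⟨(b (a (a (b (a (b (l 16399544) (l 16379808)) (b (l 16408048) (l 16387048))) (a (l 16362744) (l 16367480))) (b (b (l 16454224) (l 16389512)) (a (l 16368424) (l 16364752)))) (a (b (a (l 16412384) (l 16398576)) (l 16453704)) (b (b (a (l 16371424) (a (l 16405576) (l 16427896))) (l 16455368)) (l 16427048)))) (a (b (a (b (a (b (l 16360560) (l 16362408)) (l 16362776)) (a (l 16377520) (l 16371448))) (l 16423816)) (a (b (a (l 16414224) (l 16397296)) (a (l 16500128) (l 16443104))) (b (a (l 16384616) (l 16374848)) (a (l 16415528) (l 16396400))))) (b (a (l 16380256) (l 16267592)) (a (l 16360240) (l 16308496))))), by decide +kernel⟩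

def k3_pm_022 : ∃ t, chk3 f_pm_022 t 3 1 1 = true :=
  ⟨(b (b (l 1) (b (l 1) (a (a (a (b (l 1) (l 275984677639)) (l 1)) (l 1)) (l 1)))) (b (a (a (b (a (b (a (l 16543648) (l 207801982743)) (l 16465112)) (b (l 282963970263) (a (l 136935125287) (l 210486318119)))) (b (a (l 16341264) (l 16395376)) (a (l 16274744) (l 16338536)))) (b (a (b (l 1) (l 290480152247)) (l 1)) (a (b (l 211023163319) (l 16398088)) (b (l 296922616503) (l 223371215847))))) (a (b (l 1) (a (b (l 1) (l 301754498999)) (l 1))) (l 1))) (a (b (a (b (l 16259760) (l 16195056)) (b (a (l 16345632) (l 16413264)) (l 16409192))) (a (l 16217488) (b (l 16264464) (l 16242432)))) (a (b (b (a (l 227666320423) (l 292627752951)) (a (l 16443360) (l 244846213687))) (b (l 16500776) (l 16394672))) (a (b (l 299607165463) (l 229277097879)) (b (l 1) (l 274911154311))))))), by decide +kernel⟩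

theorem s4_pm_022 : ∃ t, chk3 f_pm_022 t 2 2 1 = true := ex3_b k0_pm_022 k1_pm_022

theorem s5_pm_022 : ∃ t, chk3 f_pm_022 t 2 1 1 = true := ex3_b s4_pm_022 k2_pm_022

theorem s6_pm_022 : ∃ t, chk3 f_pm_022 t 1 1 1 = true := ex3_a s5_pm_022 k3_pm_022

theorem c_pm_022 : CertN 0 536870912 1073741824 536870912 469762048 67108864 3 true true false .pp 0 2 2
    ndN0q0 ndN2q2 pcN2 Cut.none Ext.none :=
  certN1 (fam := true) (s1 := true) (s2 := false) (a := 0) (b := 2) (c := 2) (cn := .pp) (n1 := ndN0q0) (n2 := ndN2q2) (pc := pcN2) (cut := Cut.none) (xt := Ext.none) (P1 := 0) (W1 := 536870912) (P2 := 1073741824) (W2 := 536870912) (P3 := 469762048) (W3 := 67108864) (N0 := 3)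
    rfl (fun _ => rfl) s6_pm_022

noncomputable def f_pm_023 : ℕ → ℕ → ℕ → ℕ → Bool := onCell 1610612736 536870912 1073741824 536870912 469762048 67108864
    (rowN 3 2 true true false .up 0 2 3 (qsf 0 536870912 1073741824 536870912 3) ndN0q0 ndN2q2 pcN3 Cut.none Ext.none)

def k0_pm_023 : ∃ t, chk3 f_pm_023 t 1 1 1 = true :=
  ⟨(a (b (a (b (a (b (b (a (l 16535264) (l 16650264)) (l 16538736)) (b (l 16485504) (l 16442120))) (b (b (l 2) (l 16730496)) (b (l 16687784) (l 16649648)))) (a (b (l 16371120) (l 16373520)) (b (l 16600752) (l 16563712)))) (b (b (l 2) (a (l 214849563671) (l 2))) (b (a (l 16735688) (l 16814816)) (a (l 16695568) (l 16778400))))) (a (b (a (b (l 16402088) (l 16454704)) (b (l 16561136) (l 16585320))) (b (a (b (l 16498592) (l 16533224)) (l 16622768)) (a (b (l 16570672) (l 16603448)) (l 16671168)))) (b (b (a (l 16678184) (l 16757112)) (a (l 16683032) (l 16752352))) (b (a (l 16703400) (l 16762224)) (a (l 16735416) (l 16785760)))))) (b (a (b (l 2) (b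 (l 2) (a (l 16819736) (l 2)))) (l 2)) (a (b (b (a (l 16800424) (l 16815712)) (a (l 16794608) (l 16814104))) (b (a (l 16802456) (l 16824832)) (a (l 16826248) (l 16850456)))) (b (a (l 190153267735) (l 2)) (a (b (a (l 16836848) (l 16841736)) (a (l 16858704) (l 16856024))) (a (l 94053728663) (b (l 2) (l 16992552)))))))), by decide +kernel⟩

theorem c_pm_023 : CertN 0 536870912 1073741824 536870912 469762048 67108864 3 true true false .up 0 2 3
    ndN0q0 ndN2q2 pcN3 Cut.none Ext.none :=
  certN2 (fam := true) (s1 := true) (s2 := false) (a := 0) (b := 2) (c := 3) (cn := .up) (n1 := ndN0q0) (n2 := ndN2q2) (pc := pcN3) (cut := Cut.none) (xt := Ext.none) (P1 := 0) (W1 := 536870912) (P2 := 1073741824) (W2 := 536870912) (P3 := 469762048) (W3 := 67108864) (N0 := 3)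
    rfl (fun _ => rfl) k0_pm_023

noncomputable def f_pm_033 : ℕ → ℕ → ℕ → ℕ → Bool := onCell 1610612736 536870912 0 1230186008 469762048 67108864
    (rowN 3 2 true true false .pnn 0 3 3 (qsf 0 536870912 0 1230186008 3) ndN0q0 ndN2q3 pcN3 Cut.none Ext.none)

def k0_pm_033 : ∃ t, chk3 f_pm_033 t 1 1 1 = true :=
  ⟨(b (a (l 1) (a (l 1) (l 4))) (b (a (a (l 1) (a (l 1) (b (l 1) (l 16915920)))) (a (a (b (l 1) (l 16932152)) (b (l 16954480) (l 16932416))) (a (b (l 4) (l 16914936)) (l 4)))) (a (b (a (l 1) (a (l 16898480) (l 16866080))) (a (b (a (l 1) (l 16653296)) (a (b (l 231424737767) (a (l 16485368) (l 16558424))) (b (l 16645280) (l 16634208)))) (b (a (l 16752872) (l 16826200)) (b (l 16774472) (a (l 16720144) (l 16789408)))))) (a (b (a (l 16902384) (l 16912024)) (a (b (l 16874944) (l 16847240)) (b (l 16892280) (l 16872768)))) (b (a (l 16901376) (l 4)) (a (b (l 16887920) (b (l 16879584) (l 16866816))) (b (l 4) (a (l 16860064) (l 4))))))))), by decide +kernel⟩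

theorem c_pm_033 : CertN 0 536870912 0 1230186008 469762048 67108864 3 true true false .pnn 0 3 3
    ndN0q0 ndN2q3 pcN3 Cut.none Ext.none :=
  certN2 (fam := true) (s1 := true) (s2 := false) (a := 0) (b := 3) (c := 3) (cn := .pnn) (n1 := ndN0q0) (n2 := ndN2q3) (pc := pcN3) (cut := Cut.none) (xt := Ext.none) (P1 := 0) (W1 := 536870912) (P2 := 0) (W2 := 1230186008) (P3 := 469762048) (W3 := 67108864) (N0 := 3)
    rfl (fun _ => rfl) k0_pm_033

noncomputable def f_pm_101 : ℕ → ℕ → ℕ → ℕ → Bool := onCell 536870912 536870912 536870912 536870912 469762048 67108864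
    (rowN 3 1 true true false .npn 1 0 1 (qsf 536870912 536870912 0 536870912 1) ndN0q1 ndN2q0 pcN1 Cut.none Ext.none)

def k0_pm_101 : ∃ t, chk3 f_pm_101 t 2 2 1 = true :=
  ⟨(a (l 3) (b (a (b (l 1) (l 3)) (l 1)) (l 3))), by decide +kernel⟩

def k1_pm_101 : ∃ t, chk3 f_pm_101 t 4 6 1 = true :=
  ⟨(l 3), by decide +kernel⟩

def k2_pm_101 : ∃ t, chk3 f_pm_101 t 4 14 1 = true :=
  ⟨(l 3), by decide +kernel⟩

def k3_pm_101 : ∃ t, chk3 f_pm_101 t 8 15 1 = true :=
  ⟨(a (b (b (l 3) (b (l 3) (b (l 3) (a (b (l 3) (a (c (a (c (l 16668656) (l 16610096)) (l 16652904)) (a (c (l 16571160) (l 16488896)) (l 16535136))) (c (l 16672952) (l 16558336)))) (c (a (l 16704352) (l 16730656)) (a (l 16574320) (l 16625952))))))) (b (a (b (a (c (b (a (b (c (l 16659272) (l 16599496)) (l 16620296)) (b (l 16642640) (l 16632216))) (a (l 16607624) (l 16617576))) (b (a (b (a (l 16545536) (l 16510576)) (l 16516632)) (b (l 16522288) (l 16509272))) (a (l 16479808) (l 16532920)))) (b (c (l 16657840)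 (l 16539392)) (a (b (l 16574400) (l 16562496)) (l 16583456)))) (a (c (b (l 16595144) (l 16577784)) (b (l 16463568) (l 16441904))) (a (b (a (l 16542416) (l 16548568)) (l 16525264)) (b (l 16538656) (l 16515488))))) (b (c (a (l 16674968) (l 16702168)) (a (l 16558320) (l 16590008))) (a (b (l 16582568) (c (l 16622824) (l 16492920))) (l 16580528)))) (a (b (a (c (l 16549904) (l 16449192)) (c (l 16569720) (l 16450184))) (a (c (l 16509552) (l 16357328)) (c (l 16531784) (l 16382008)))) (b (a (c (b (l 16601536) (l 16581424)) (b (l 16466272) (l 16441112))) (b (l 16565648) (l 16540856))) (a (c (l 16552832) (l 16405416)) (c (l 16576384) (l 16473968))))))) (b (b (l 3) (b (l 3) (a (b (l 3) (c (l 16757336) (a (l 16649048) (l 16664480)))) (c (l 16793576) (a (l 30232334055) (l 30232364871)))))) (b (a (c (b (l 16729752) (l 16691032)) (b (a (l 16613856) (l 16629808)) (l 16572880))) (c (b (l 16758336) (l 16721016)) (b (a (l 16646264) (l 16663112)) (l 16607256)))) (a (b (c (l 16649736)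 (l 16520824)) (a (b (l 16540400) (l 16514512)) (l 16544776))) (c (l 16660336) (b (l 16556912) (l 16503152))))))), by decide +kernel⟩

def k4_pm_101 : ∃ t, chk3 f_pm_101 t 9 15 1 = true :=
  ⟨(b (b (l 3) (b (a (l 3) (a (l 3) (c (l 16937192) (c (l 16889400) (l 68887423335))))) (a (a (c (l 16821920) (a (l 16724080) (l 16740808))) (c (l 16850688) (c (l 16787712) (l 16744528)))) (a (c (l 16879456) (c (l 16820616) (l 16780280))) (c (l 16907848) (c (l 16853480) (l 35601340679))))))) (a (b (a (c (l 16770272) (b (l 16688984) (l 16643264))) (c (l 16801040) (b (l 16724280) (l 16680264)))) (a (c (l 16693912) (l 16569312)) (c (l 16728088) (l 16609248)))) (b (a (c (l 16831792) (b (l 16760024) (l 16717720))) (c (l 16862104) (b (l 16795800) (l 16755176)))) (a (c (l 16762320) (l 16649720)) (c (l 16796136) (l 16690224)))))), by decide +kernel⟩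

def k5_pm_101 : ∃ t, chk3 f_pm_101 t 5 3 1 = true :=
  ⟨(b (l 3) (b (l 3) (a (b (b (l 3) (a (c (a (l 20569291287) (l 16991632)) (a (b (a (l 24864074071) (l 16924336)) (a (l 16863080) (l 16887480))) (b (l 16958888) (l 16922688)))) (a (c (l 17025120) (l 17005192)) (l 17060808)))) (a (c (a (b (l 16896808) (l 16834824)) (l 16970872)) (a (b (a (l 16805512) (l 16831192)) (l 16737424)) (b (l 16868112) (l 16791936)))) (a (b (l 16943088) (l 16880248)) (b (l 16979488) (l 16920040))))) (b (b (l 3) (a (a (l 17071120) (b (l 17102568) (l 17080488))) (l 17083736))) (a (b (l 17068144) (l 16970712)) (b (a (l 17055800) (l 17054016)) (a (l 17010776) (l 17024688)))))))), by decide +kernel⟩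

def k6_pm_101 : ∃ t, chk3 f_pm_101 t 3 1 1 = true :=
  ⟨(b (a (b (l 1) (a (b (l 1) (l 3)) (l 1))) (l 1)) (a (b (l 3) (b (l 3) (b (a (a (l 74793593255) (l 111837720423)) (b (a (l 239612812359) (l 323364522711)) (l 17028192))) (a (a (l 17028528) (l 17009232)) (l 16995760))))) (b (a (b (l 1) (l 3)) (l 1)) (b (a (l 3) (l 3)) (b (a (b (b (l 3) (a (l 16965704) (a (l 16944184) (l 249276195815)))) (a (l 16953464) (b (l 16926776) (l 16916848)))) (b (a (b (l 3) (a (b (c (l 155189553175) (a (l 254107984231) (a (a (l 253034240535) (l 709777165591)) (l 839163050391)))) (l 16914520)) (l 832183723623))) (l 1)) (a (b (l 162168890455) (l 16886928)) (l 851510998583)))) (a (l 17124000) (b (a (l 16869880) (l 16860512)) (l 16873176)))))))), by decide +kernel⟩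

theorem s7_pm_101 : ∃ t, chk3 f_pm_101 t 4 15 1 = true := ex3_a k3_pm_101 k4_pm_101

theorem s8_pm_101 : ∃ t, chk3 f_pm_101 t 4 7 1 = true := ex3_b k2_pm_101 s7_pm_101

theorem s9_pm_101 : ∃ t, chk3 f_pm_101 t 4 3 1 = true := ex3_b k1_pm_101 s8_pm_101

theorem s10_pm_101 : ∃ t, chk3 f_pm_101 t 2 3 1 = true := ex3_a s9_pm_101 k5_pm_101

theorem s11_pm_101 : ∃ t, chk3 f_pm_101 t 2 1 1 = true := ex3_b k0_pm_101 s10_pm_101

theorem s12_pm_101 : ∃ t, chk3 f_pm_101 t 1 1 1 = true := ex3_a s11_pm_101 k6_pm_101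

theorem c_pm_101 : CertN 536870912 536870912 0 536870912 469762048 67108864 3 true true false .npn 1 0 1
    ndN0q1 ndN2q0 pcN1 Cut.none Ext.none :=
  certN1 (fam := true) (s1 := true) (s2 := false) (a := 1) (b := 0) (c := 1) (cn := .npn) (n1 := ndN0q1) (n2 := ndN2q0) (pc := pcN1) (cut := Cut.none) (xt := Ext.none) (P1 := 536870912) (W1 := 536870912) (P2 := 0) (W2 := 536870912) (P3 := 469762048) (W3 := 67108864) (N0 := 3)
    rfl (fun _ => rfl) s12_pm_101

noncomputable def f_pm_102 : ℕ → ℕ → ℕ → ℕ → Bool := onCell 1073741824 536870912 0 536870912 469762048 67108864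
    (rowN 3 2 true true false .npp 1 0 2 (qsf 536870912 536870912 0 536870912 2) ndN0q1 ndN2q0 pcN2 Cut.none Ext.none)

def k0_pm_102 : ∃ t, chk3 f_pm_102 t 2 2 1 = true :=
  ⟨(a (b (a (b (b (a (l 16824328) (l 16742856)) (a (l 16865824) (l 16725400))) (a (l 16861000) (b (l 16782632) (l 16803592)))) (b (a (b (l 2) (l 16651232)) (l 2)) (a (b (l 16721544) (l 16771536)) (b (l 16637816) (l 16704816))))) (a (a (b (l 17129504) (l 17191352)) (b (l 16845408) (l 16885832))) (b (a (l 16815712) (l 16794352)) (a (l 16823600) (l 16798680))))) (b (b (l 2) (a (a (b (l 2) (l 16638848)) (l 2)) (l 2))) (a (b (b (l 16764744) (l 16750064)) (l 16831832)) (b (b (l 2) (l 16691416)) (l 16780296))))), by decide +kernel⟩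

def k1_pm_102 : ∃ t, chk3 f_pm_102 t 2 3 1 = true :=
  ⟨(b (a (a (b (b (a (l 16958824) (l 16887128)) (a (a (l 16925888) (l 16892792)) (l 16849200))) (a (b (a (b (l 16875048) (l 16834808)) (l 16829544)) (a (b (l 16789824) (a (l 16744288) (l 16736328))) (l 16749040))) (b (l 16797616) (l 16732088)))) (b (a (l 16820568) (l 16796744)) (a (b (l 16773176) (l 16725784)) (l 16757320)))) (a (a (b (a (l 16803752) (l 16824208)) (a (l 16776760) (l 16796440))) (b (l 16881200) (l 16833992))) (b (l 17023688) (l 16928480)))) (a (b (a (a (b (a (b (a (l 16696056) (l 16685448)) (a (l 16655928) (l 16642328))) (b (l 16677640) (l 16629824))) (a (b (a (l 16616536) (l 16603200)) (a (l 16535464) (l 16564168))) (b (l 16588304) (l 16549584)))) (b (l 16651288) (a (b (l 16580376) (l 16539872)) (l 16566144)))) (a (b (l 16665712) (l 16592008)) (l 16669664))) (a (b (a (a (b (a (c (l 16610376) (l 16466400)) (l 16525672)) (b (a (l 16511344) (l 16497528)) (a (l 16472576) (l 16479272)))) (b (l 16511112)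 (b (l 16482688) (l 16464048)))) (b (l 16501464) (a (l 16464040) (l 16466040)))) (a (a (b (b (a (c (l 16552832) (l 16401144)) (l 16467320)) (a (l 16459448) (l 16456992))) (b (a (l 16456776) (l 16437600)) (c (l 16490608) (l 16331536)))) (b (b (l 16450896) (l 16443432)) (b (l 16432712) (l 16416240)))) (b (a (l 16435136) (l 16435488)) (a (l 16415656) (l 16412128))))) (b (a (b (l 16530056) (l 16489552)) (l 16573208)) (a (b (l 16456176) (l 16428488)) (b (l 16518232) (l 16484800)))))) (b (a (a (a (l 16708680) (l 16738040)) (l 16785088)) (l 16880416)) (a (a (a (b (l 16628624) (l 16563928)) (b (l 16666880) (l 16608016))) (b (l 16726232) (l 16674440))) (b (l 16836720) (l 16798872)))))), by decide +kernel⟩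

def k2_pm_102 : ∃ t, chk3 f_pm_102 t 3 1 1 = true :=
  ⟨(b (a (b (l 2) (a (b (l 2) (a (l 16763016) (l 2))) (l 2))) (l 2)) (b (a (a (b (b (l 16929888) (l 17064984)) (l 17057576)) (b (a (l 17076664) (l 2)) (l 17138736))) (a (b (l 2) (a (l 17168952) (l 2))) (l 2))) (a (b (a (l 16985248) (l 17050992)) (a (l 16921176) (l 17018504))) (a (b (a (l 17084616) (l 17106080)) (b (l 17061808) (l 17050992))) (b (l 17315312) (l 17089592)))))), by decide +kernel⟩

theorem s3_pm_102 : ∃ t, chk3 f_pm_102 t 2 1 1 = true := ex3_b k0_pm_102 k1_pm_102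

theorem s4_pm_102 : ∃ t, chk3 f_pm_102 t 1 1 1 = true := ex3_a s3_pm_102 k2_pm_102

theorem c_pm_102 : CertN 536870912 536870912 0 536870912 469762048 67108864 3 true true false .npp 1 0 2
    ndN0q1 ndN2q0 pcN2 Cut.none Ext.none :=
  certN2 (fam := true) (s1 := true) (s2 := false) (a := 1) (b := 0) (c := 2) (cn := .npp) (n1 := ndN0q1) (n2 := ndN2q0) (pc := pcN2) (cut := Cut.none) (xt := Ext.none) (P1 := 536870912) (W1 := 536870912) (P2 := 0) (W2 := 536870912) (P3 := 469762048) (W3 := 67108864) (N0 := 3)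
    rfl (fun _ => rfl) s4_pm_102

noncomputable def f_pm_112 : ℕ → ℕ → ℕ → ℕ → Bool := onCell 1073741824 536870912 536870912 536870912 469762048 67108864
    (rowN 3 2 true true false .dn 1 1 2 (qsf 536870912 536870912 536870912 536870912 2) ndN0q1 ndN2q1 pcN2 Cut.none Ext.none)

def k0_pm_112 : ∃ t, chk3 f_pm_112 t 2 1 1 = true :=
  ⟨(b (b (a (b (a (a (b (b (a (c (a (l 167536772263) (l 16449424)) (l 16279216)) (l 16381624)) (a (l 236255805063) (l 16367360))) (a (l 1) (l 227665838343))) (b (b (a (l 16387952) (l 16388744)) (a (l 16340736) (l 16354992))) (b (l 16397216) (l 166462902135)))) (b (a (a (l 16379544) (l 16393872)) (l 16434952)) (a (a (l 16341216) (l 16323112)) (l 16363304)))) (a (a (l 1) (b (l 219075860263) (l 1))) (b (a (b (l 16227104) (l 16208640)) (b (l 16299528) (l 16246072))) (a (l 220149745911) (l 16243320))))) (b (a (a (a (b (l 16494312) (l 16418960)) (b (l 16541352) (l 16465536))) (b (l 16614440) (l 16543536))) (b (l 16752008) (l 16697312))) (a (a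 (b (a (l 16334952) (l 16380936)) (a (l 16268488) (l 16303752))) (b (l 16460456) (l 16372312))) (b (l 16632104) (l 16551088))))) (a (a (l 1) (b (b (a (l 1) (l 16259072)) (l 1)) (l 1))) (a (b (a (a (l 16275536) (l 16391680)) (l 82174140247)) (a (l 1) (l 206728207319))) (b (a (l 16367728) (l 16464976)) (a (l 16307800) (l 16335344)))))) (a (l 1) (b (a (l 1) (b (l 204044017719) (l 1))) (l 1)))), by decide +kernel⟩

def k1_pm_112 : ∃ t, chk3 f_pm_112 t 3 1 1 = true :=
  ⟨(b (a (b (b (a (l 16877536) (l 16980000)) (a (b (l 16816752) (l 16766296)) (l 16923272))) (a (b (a (l 16607376) (l 16723488)) (a (l 16398096) (l 16535360))) (b (l 16849536) (a (l 16677424) (l 16783056))))) (b (a (b (l 17033776) (l 17005232)) (b (l 17061656) (l 17046200))) (a (b (l 16958120) (a (l 16860392) (l 16921752))) (b (l 17021832) (l 16986088))))) (a (b (a (b (a (l 16300912) (l 16338400)) (l 208875738759)) (b (a (l 16440072) (l 16597792)) (a (l 16279384) (l 16320272)))) (a (l 1) (b (l 237866575239)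 (l 1)))) (b (a (b (a (l 16731144) (l 16830072)) (a (l 16496216) (l 16645552))) (b (l 16929144) (a (l 16776368) (l 16865160)))) (a (b (a (l 16244128) (l 139082124807)) (a (l 1) (l 247529944743))) (b (a (b (l 16604744) (l 16463872)) (l 16685312)) (a (l 170220473095) (b (l 16480144) (l 16333696)))))))), by decide +kernel⟩

theorem s2_pm_112 : ∃ t, chk3 f_pm_112 t 1 1 1 = true := ex3_a k0_pm_112 k1_pm_112

theorem c_pm_112 : CertN 536870912 536870912 536870912 536870912 469762048 67108864 3 true true false .dn 1 1 2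
    ndN0q1 ndN2q1 pcN2 Cut.none Ext.none :=
  certN2 (fam := true) (s1 := true) (s2 := false) (a := 1) (b := 1) (c := 2) (cn := .dn) (n1 := ndN0q1) (n2 := ndN2q1) (pc := pcN2) (cut := Cut.none) (xt := Ext.none) (P1 := 536870912) (W1 := 536870912) (P2 := 536870912) (W2 := 536870912) (P3 := 469762048) (W3 := 67108864) (N0 := 3)
    rfl (fun _ => rfl) s2_pm_112

noncomputable def f_pm_113 : ℕ → ℕ → ℕ → ℕ → Bool := onCell 536870912 536870912 1610612736 536870912 469762048 67108864
    (rowN 3 1 true true false .nn 1 1 3 (qsf 536870912 536870912 536870912 536870912 3) ndN0q1 ndN2q1 pcN3 Cut.none Ext.none)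

def k0_pm_113 : ∃ t, chk3 f_pm_113 t 1 1 1 = true :=
  ⟨(a (b (b (a (b (a (b (a (l 16431232) (l 16605296)) (l 245986946807)) (b (l 16832000) (l 16862144))) (a (l 323296600631) (l 16902648))) (b (a (l 17004240) (l 17074136)) (a (l 17049728) (l 17104640)))) (a (a (l 2) (b (l 16978616) (l 2))) (b (a (l 17103168) (l 17132968)) (l 288401617367)))) (b (a (l 2) (b (l 309339671399) (l 2))) (l 2))) (b (b (a (b (a (l 17109136) (l 17112808)) (l 17117944)) (b (a (b (l 17100592) (l 17093320)) (b (l 17080712) (l 17070552))) (a (l 17086192) (b (l 17061744) (l 17053400))))) (a (b (l 17122952) (l 17130648)) (b (l 17061760) (l 17051592)))) (b (b (a (l 17145864) (l 4)) (a (l 17155016) (l 4))) (l 4)))), by decide +kernel⟩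

theorem c_pm_113 : CertN 536870912 536870912 536870912 536870912 469762048 67108864 3 true true false .nn 1 1 3
    ndN0q1 ndN2q1 pcN3 Cut.none Ext.none :=
  certN1 (fam := true) (s1 := true) (s2 := false) (a := 1) (b := 1) (c := 3) (cn := .nn) (n1 := ndN0q1) (n2 := ndN2q1) (pc := pcN3) (cut := Cut.none) (xt := Ext.none) (P1 := 536870912) (W1 := 536870912) (P2 := 536870912) (W2 := 536870912) (P3 := 469762048) (W3 := 67108864) (N0 := 3)
    rfl (fun _ => rfl) k0_pm_113

noncomputable def f_pm_123 : ℕ → ℕ → ℕ → ℕ → Bool := onCell 536870912 536870912 1610612736 536870912 469762048 67108864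
    (rowN 3 1 true true false .npn 1 2 3 (qsf 536870912 536870912 1073741824 536870912 3) ndN0q1 ndN2q2 pcN3 Cut.none Ext.none)

def k0_pm_123 : ∃ t, chk3 f_pm_123 t 1 1 1 = true :=
  ⟨(a (b (b (a (a (b (a (l 246456990519) (l 313029141911)) (a (l 16688168) (l 16754360))) (a (b (l 343094208663) (l 16857776)) (l 358663727607))) (a (l 372085768279) (l 1))) (a (a (l 17017336) (b (l 16900792) (l 16885024))) (a (b (l 339336831655) (l 16978336)) (l 356516457815)))) (a (b (b (a (l 16809856) (l 16859360)) (a (l 16812328) (l 16826040))) (b (a (a (l 16838384) (l 16967720)) (l 16808136)) (b (a (l 16839224) (l 16823392)) (a (b (l 16834096) (l 4)) (b (l 16825520) (l 4)))))) (b (a (l 16892872) (l 16945496)) (b (a (l 16853432) (l 16833664)) (b (l 16795680) (b (l 16803904) (b (l 16804400) (l 16876656)))))))) (b (b (l 1) (a (a (l 351147882295) (l 1)) (l 1))) (b (a (a (l 349000012039) (l 323230318999)) (a (b (l 1) (l 350073852247)) (l 1))) (b (a (a (l 16867552) (l 16883480)) (a (l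 350073733799) (b (l 1) (l 417719236455)))) (a (b (a (l 16813992) (l 16826640)) (b (l 16817944) (b (l 16828912) (a (l 16786088) (b (l 16785736) (l 16804544)))))) (b (a (l 16839976) (l 309808720071)) (b (a (l 16812176) (l 16816760)) (b (a (l 16798856) (l 16801576)) (b (l 983246051623) (a (l 16870976) (l 871040028439))))))))))), by decide +kernel⟩

theorem c_pm_123 : CertN 536870912 536870912 1073741824 536870912 469762048 67108864 3 true true false .npn 1 2 3
    ndN0q1 ndN2q2 pcN3 Cut.none Ext.none :=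
  certN1 (fam := true) (s1 := true) (s2 := false) (a := 1) (b := 2) (c := 3) (cn := .npn) (n1 := ndN0q1) (n2 := ndN2q2) (pc := pcN3) (cut := Cut.none) (xt := Ext.none) (P1 := 536870912) (W1 := 536870912) (P2 := 1073741824) (W2 := 536870912) (P3 := 469762048) (W3 := 67108864) (N0 := 3)
    rfl (fun _ => rfl) k0_pm_123

noncomputable def f_pm_133 : ℕ → ℕ → ℕ → ℕ → Bool := onCell 536870912 536870912 0 1230186008 469762048 67108864
    (rowN 3 0 true true false .dn 1 3 3 (qsf 536870912 536870912 0 1230186008 3) ndN0q1 ndN2q3 pcN3 Cut.none Ext.none)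

def k0_pm_133 : ∃ t, chk3 f_pm_133 t 1 1 1 = true :=
  ⟨(b (l 2) (b (l 2) (a (l 4) (l 2)))), by decide +kernel⟩

theorem c_pm_133 : CertN 536870912 536870912 0 1230186008 469762048 67108864 3 true true false .dn 1 3 3
    ndN0q1 ndN2q3 pcN3 Cut.none Ext.none :=
  certN0 (fam := true) (s1 := true) (s2 := false) (a := 1) (b := 3) (c := 3) (cn := .dn) (n1 := ndN0q1) (n2 := ndN2q3) (pc := pcN3) (cut := Cut.none) (xt := Ext.none) (P1 := 536870912) (W1 := 536870912) (P2 := 0) (W2 := 1230186008) (P3 := 469762048) (W3 := 67108864) (N0 := 3)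
    rfl k0_pm_133

noncomputable def f_pm_202 : ℕ → ℕ → ℕ → ℕ → Bool := onCell 0 536870912 0 536870912 469762048 67108864
    (rowN 3 0 true true false .pp 2 0 2 (qsf 0 536870912 0 536870912 2) ndN0q2 ndN2q0 pcN2 Cut.none Ext.none)

def k0_pm_202 : ∃ t, chk3 f_pm_202 t 1 1 1 = true :=
  ⟨(a (a (b (b (b (l 16535872) (l 16488128)) (b (l 16608904) (l 16714728))) (b (b (l 16884920) (l 4)) (l 2))) (b (b (b (b (l 16612992) (l 16431976)) (l 16496808)) (b (l 16611632) (l 16728512))) (b (b (l 16919736) (l 17039200)) (l 4)))) (b (b (a (a (b (l 16488160) (l 16533208)) (b (l 16712040) (l 16559160))) (b (a (b (l 16632704) (l 16597584)) (b (a (l 16693120) (l 16738896)) (l 16766048))) (a (l 16604632) (l 16668440)))) (a (b (a (l 16622496) (l 16641312)) (l 16843936)) (b (a (l 16655520) (l 16689128)) (a (l 16759608) (l 16763064))))) (b (a (b (l 16954216) (l 17119136)) (b (a (l 16976976) (l 16997192)) (a (l 17156808) (l 17159320)))) (b (a (a (l 16969448) (l 17013920)) (l 17066416))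 (a (l 2) (a (l 17011696) (l 17051120))))))), by decide +kernel⟩

theorem c_pm_202 : CertN 0 536870912 0 536870912 469762048 67108864 3 true true false .pp 2 0 2
    ndN0q2 ndN2q0 pcN2 Cut.none Ext.none :=
  certN0 (fam := true) (s1 := true) (s2 := false) (a := 2) (b := 0) (c := 2) (cn := .pp) (n1 := ndN0q2) (n2 := ndN2q0) (pc := pcN2) (cut := Cut.none) (xt := Ext.none) (P1 := 0) (W1 := 536870912) (P2 := 0) (W2 := 536870912) (P3 := 469762048) (W3 := 67108864) (N0 := 3)
    rfl k0_pm_202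

noncomputable def f_pm_203 : ℕ → ℕ → ℕ → ℕ → Bool := onCell 0 536870912 1610612736 536870912 469762048 67108864
    (rowN 3 1 true true false .up 2 0 3 (qsf 0 536870912 0 536870912 3) ndN0q2 ndN2q0 pcN3 Cut.none Ext.none)

def k0_pm_203 : ∃ t, chk3 f_pm_203 t 1 1 1 = true :=
  ⟨(b (a (b (l 4) (l 4)) (b (a (b (a (l 16951344) (l 16978080)) (b (l 16935400) (l 4))) (b (b (l 17031272) (a (l 17000664) (l 17037248))) (a (b (l 16988440) (l 2)) (l 2)))) (a (l 2) (l 2)))) (l 2)), by decide +kernel⟩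

theorem c_pm_203 : CertN 0 536870912 0 536870912 469762048 67108864 3 true true false .up 2 0 3
    ndN0q2 ndN2q0 pcN3 Cut.none Ext.none :=
  certN1 (fam := true) (s1 := true) (s2 := false) (a := 2) (b := 0) (c := 3) (cn := .up) (n1 := ndN0q2) (n2 := ndN2q0) (pc := pcN3) (cut := Cut.none) (xt := Ext.none) (P1 := 0) (W1 := 536870912) (P2 := 0) (W2 := 536870912) (P3 := 469762048) (W3 := 67108864) (N0 := 3)
    rfl (fun _ => rfl) k0_pm_203

noncomputable def f_pm_213 : ℕ → ℕ → ℕ → ℕ → Bool := onCell 0 536870912 1610612736 536870912 469762048 67108864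
    (rowN 3 1 true true false .pnn 2 1 3 (qsf 0 536870912 536870912 536870912 3) ndN0q2 ndN2q1 pcN3 Cut.none Ext.none)

def k0_pm_213 : ∃ t, chk3 f_pm_213 t 1 1 1 = true :=
  ⟨(b (a (b (l 4) (l 4)) (b (a (b (l 1) (b (l 16935344) (l 4))) (b (a (l 17007296) (l 17043112)) (a (l 16981976) (l 17020816)))) (a (l 4) (b (a (l 4) (l 16998032)) (l 4))))) (l 4)), by decide +kernel⟩

theorem c_pm_213 : CertN 0 536870912 536870912 536870912 469762048 67108864 3 true true false .pnn 2 1 3
    ndN0q2 ndN2q1 pcN3 Cut.none Ext.none :=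
  certN1 (fam := true) (s1 := true) (s2 := false) (a := 2) (b := 1) (c := 3) (cn := .pnn) (n1 := ndN0q2) (n2 := ndN2q1) (pc := pcN3) (cut := Cut.none) (xt := Ext.none) (P1 := 0) (W1 := 536870912) (P2 := 536870912) (W2 := 536870912) (P3 := 469762048) (W3 := 67108864) (N0 := 3)
    rfl (fun _ => rfl) k0_pm_213

noncomputable def f_mm_001 : ℕ → ℕ → ℕ → ℕ → Bool := onCell 0 536870912 0 536870912 469762048 67108864
    (rowN 3 0 true false false .up 0 0 1 (qsf 0 536870912 0 536870912 1) ndN0q0 ndN2q0 pcN1 Cut.none Ext.none)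

def k0_mm_001 : ∃ t, chk3 f_mm_001 t 1 1 1 = true :=
  ⟨(l 4), by decide +kernel⟩

theorem c_mm_001 : CertN 0 536870912 0 536870912 469762048 67108864 3 true false false .up 0 0 1
    ndN0q0 ndN2q0 pcN1 Cut.none Ext.none :=
  certN0 (fam := true) (s1 := false) (s2 := false) (a := 0) (b := 0) (c := 1) (cn := .up) (n1 := ndN0q0) (n2 := ndN2q0) (pc := pcN1) (cut := Cut.none) (xt := Ext.none) (P1 := 0) (W1 := 536870912) (P2 := 0) (W2 := 536870912) (P3 := 469762048) (W3 := 67108864) (N0 := 3)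
    rfl k0_mm_001

noncomputable def f_mm_011 : ℕ → ℕ → ℕ → ℕ → Bool := onCell 0 536870912 536870912 536870912 469762048 67108864
    (rowN 3 0 true false false .pnn 0 1 1 (qsf 0 536870912 536870912 536870912 1) ndN0q0 ndN2q1 pcN1 Cut.none Ext.none)

def k0_mm_011 : ∃ t, chk3 f_mm_011 t 1 1 1 = true :=
  ⟨(l 4), by decide +kernel⟩

theorem c_mm_011 : CertN 0 536870912 536870912 536870912 469762048 67108864 3 true false false .pnn 0 1 1
    ndN0q0 ndN2q1 pcN1 Cut.none Ext.none :=
  certN0 (fam := true) (s1 := false) (s2 := false) (a := 0) (b := 1) (c := 1) (cn := .pnn) (n1 := ndN0q0) (n2 := ndN2q1) (pc := pcN1) (cut := Cut.none) (xt := Ext.none) (P1 := 0) (W1 := 536870912) (P2 := 536870912) (W2 := 536870912) (P3 := 469762048) (W3 := 67108864) (N0 := 3)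
    rfl k0_mm_011

noncomputable def f_mm_012 : ℕ → ℕ → ℕ → ℕ → Bool := onCell 0 536870912 536870912 536870912 469762048 67108864
    (rowN 3 0 true false false .pnp 0 1 2 (qsf 0 536870912 536870912 536870912 2) ndN0q0 ndN2q1 pcN2 Cut.none Ext.none)

def k0_mm_012 : ∃ t, chk3 f_mm_012 t 1 1 1 = true :=
  ⟨(l 4), by decide +kernel⟩

theorem c_mm_012 : CertN 0 536870912 536870912 536870912 469762048 67108864 3 true false false .pnp 0 1 2
    ndN0q0 ndN2q1 pcN2 Cut.none Ext.none :=
  certN0 (fam := true) (s1 := false) (s2 := false) (a := 0) (b := 1) (c := 2) (cn := .pnp) (n1 := ndN0q0) (n2 := ndN2q1) (pc := pcN2) (cut := Cut.none) (xt := Ext.none) (P1 := 0) (W1 := 536870912) (P2 := 536870912) (W2 := 536870912) (P3 := 469762048) (W3 := 67108864) (N0 := 3)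
    rfl k0_mm_012

noncomputable def f_mm_022 : ℕ → ℕ → ℕ → ℕ → Bool := onCell 0 536870912 1073741824 536870912 469762048 67108864
    (rowN 3 0 true false false .pp 0 2 2 (qsf 0 536870912 1073741824 536870912 2) ndN0q0 ndN2q2 pcN2 Cut.none Ext.none)

def k0_mm_022 : ∃ t, chk3 f_mm_022 t 1 1 1 = true :=
  ⟨(l 4), by decide +kernel⟩

theorem c_mm_022 : CertN 0 536870912 1073741824 536870912 469762048 67108864 3 true false false .pp 0 2 2
    ndN0q0 ndN2q2 pcN2 Cut.none Ext.none :=
  certN0 (fam := true) (s1 := false) (s2 := false) (a := 0) (b := 2) (c := 2) (cn := .pp) (n1 := ndN0q0) (n2 := ndN2q2) (pc := pcN2) (cut := Cut.none) (xt := Ext.none) (P1 := 0) (W1 := 536870912) (P2 := 1073741824) (W2 := 536870912) (P3 := 469762048) (W3 := 67108864) (N0 := 3)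
    rfl k0_mm_022

noncomputable def f_mm_023 : ℕ → ℕ → ℕ → ℕ → Bool := onCell 0 536870912 1073741824 536870912 469762048 67108864
    (rowN 3 0 true false false .up 0 2 3 (qsf 0 536870912 1073741824 536870912 3) ndN0q0 ndN2q2 pcN3 Cut.none Ext.none)

def k0_mm_023 : ∃ t, chk3 f_mm_023 t 1 1 1 = true :=
  ⟨(l 4), by decide +kernel⟩

theorem c_mm_023 : CertN 0 536870912 1073741824 536870912 469762048 67108864 3 true false false .up 0 2 3
    ndN0q0 ndN2q2 pcN3 Cut.none Ext.none :=
  certN0 (fam := true) (s1 := false) (s2 := false) (a := 0) (b := 2) (c := 3) (cn := .up) (n1 := ndN0q0) (n2 := ndN2q2) (pc := pcN3) (cut := Cut.none) (xt := Ext.none) (P1 := 0) (W1 := 536870912) (P2 := 1073741824) (W2 := 536870912) (P3 := 469762048) (W3 := 67108864) (N0 := 3)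
    rfl k0_mm_023

noncomputable def f_mm_033 : ℕ → ℕ → ℕ → ℕ → Bool := onCell 0 536870912 0 1230186008 469762048 67108864
    (rowN 3 0 true false false .pnn 0 3 3 (qsf 0 536870912 0 1230186008 3) ndN0q0 ndN2q3 pcN3 Cut.none Ext.none)

def k0_mm_033 : ∃ t, chk3 f_mm_033 t 1 1 1 = true :=
  ⟨(l 5), by decide +kernel⟩

theorem c_mm_033 : CertN 0 536870912 0 1230186008 469762048 67108864 3 true false false .pnn 0 3 3
    ndN0q0 ndN2q3 pcN3 Cut.none Ext.none :=
  certN0 (fam := true) (s1 := false) (s2 := false) (a := 0) (b := 3) (c := 3) (cn := .pnn) (n1 := ndN0q0) (n2 := ndN2q3) (pc := pcN3) (cut := Cut.none) (xt := Ext.none) (P1 := 0) (W1 := 536870912) (P2 := 0) (W2 := 1230186008) (P3 := 469762048) (W3 := 67108864) (N0 := 3)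
    rfl k0_mm_033

noncomputable def f_mm_101 : ℕ → ℕ → ℕ → ℕ → Bool := onCell 536870912 536870912 0 536870912 469762048 67108864
    (rowN 3 0 true false false .npn 1 0 1 (qsf 536870912 536870912 0 536870912 1) ndN0q1 ndN2q0 pcN1 Cut.none Ext.none)

def k0_mm_101 : ∃ t, chk3 f_mm_101 t 1 1 1 = true :=
  ⟨(l 4), by decide +kernel⟩

theorem c_mm_101 : CertN 536870912 536870912 0 536870912 469762048 67108864 3 true false false .npn 1 0 1
    ndN0q1 ndN2q0 pcN1 Cut.none Ext.none :=
  certN0 (fam := true) (s1 := false) (s2 := false) (a := 1) (b := 0) (c := 1) (cn := .npn) (n1 := ndN0q1) (n2 := ndN2q0) (pc := pcN1) (cut := Cut.none) (xt := Ext.none) (P1 := 536870912) (W1 := 536870912) (P2 := 0) (W2 := 536870912) (P3 := 469762048) (W3 := 67108864) (N0 := 3)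
    rfl k0_mm_101

noncomputable def f_mm_102 : ℕ → ℕ → ℕ → ℕ → Bool := onCell 536870912 536870912 0 536870912 469762048 67108864
    (rowN 3 0 true false false .npp 1 0 2 (qsf 536870912 536870912 0 536870912 2) ndN0q1 ndN2q0 pcN2 Cut.none Ext.none)

def k0_mm_102 : ∃ t, chk3 f_mm_102 t 1 1 1 = true :=
  ⟨(l 4), by decide +kernel⟩

theorem c_mm_102 : CertN 536870912 536870912 0 536870912 469762048 67108864 3 true false false .npp 1 0 2
    ndN0q1 ndN2q0 pcN2 Cut.none Ext.none :=
  certN0 (fam := true) (s1 := false) (s2 := false) (a := 1) (b := 0) (c := 2) (cn := .npp) (n1 := ndN0q1) (n2 := ndN2q0) (pc := pcN2) (cut := Cut.none) (xt := Ext.none) (P1 := 536870912) (W1 := 536870912) (P2 := 0) (W2 := 536870912) (P3 := 469762048) (W3 := 67108864) (N0 := 3)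
    rfl k0_mm_102

noncomputable def f_mm_112 : ℕ → ℕ → ℕ → ℕ → Bool := onCell 536870912 536870912 536870912 536870912 469762048 67108864
    (rowN 3 0 true false false .dn 1 1 2 (qsf 536870912 536870912 536870912 536870912 2) ndN0q1 ndN2q1 pcN2 Cut.none Ext.none)

def k0_mm_112 : ∃ t, chk3 f_mm_112 t 1 1 1 = true :=
  ⟨(l 4), by decide +kernel⟩

theorem c_mm_112 : CertN 536870912 536870912 536870912 536870912 469762048 67108864 3 true false false .dn 1 1 2
    ndN0q1 ndN2q1 pcN2 Cut.none Ext.none :=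
  certN0 (fam := true) (s1 := false) (s2 := false) (a := 1) (b := 1) (c := 2) (cn := .dn) (n1 := ndN0q1) (n2 := ndN2q1) (pc := pcN2) (cut := Cut.none) (xt := Ext.none) (P1 := 536870912) (W1 := 536870912) (P2 := 536870912) (W2 := 536870912) (P3 := 469762048) (W3 := 67108864) (N0 := 3)
    rfl k0_mm_112

noncomputable def f_mm_113 : ℕ → ℕ → ℕ → ℕ → Bool := onCell 536870912 536870912 536870912 536870912 469762048 67108864
    (rowN 3 0 true false false .nn 1 1 3 (qsf 536870912 536870912 536870912 536870912 3) ndN0q1 ndN2q1 pcN3 Cut.none Ext.none)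

def k0_mm_113 : ∃ t, chk3 f_mm_113 t 1 1 1 = true :=
  ⟨(l 4), by decide +kernel⟩

theorem c_mm_113 : CertN 536870912 536870912 536870912 536870912 469762048 67108864 3 true false false .nn 1 1 3
    ndN0q1 ndN2q1 pcN3 Cut.none Ext.none :=
  certN0 (fam := true) (s1 := false) (s2 := false) (a := 1) (b := 1) (c := 3) (cn := .nn) (n1 := ndN0q1) (n2 := ndN2q1) (pc := pcN3) (cut := Cut.none) (xt := Ext.none) (P1 := 536870912) (W1 := 536870912) (P2 := 536870912) (W2 := 536870912) (P3 := 469762048) (W3 := 67108864) (N0 := 3)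
    rfl k0_mm_113

noncomputable def f_mm_123 : ℕ → ℕ → ℕ → ℕ → Bool := onCell 536870912 536870912 1073741824 536870912 469762048 67108864
    (rowN 3 0 true false false .npn 1 2 3 (qsf 536870912 536870912 1073741824 536870912 3) ndN0q1 ndN2q2 pcN3 Cut.none Ext.none)

def k0_mm_123 : ∃ t, chk3 f_mm_123 t 1 1 1 = true :=
  ⟨(l 4), by decide +kernel⟩

theorem c_mm_123 : CertN 536870912 536870912 1073741824 536870912 469762048 67108864 3 true false false .npn 1 2 3
    ndN0q1 ndN2q2 pcN3 Cut.none Ext.none :=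
  certN0 (fam := true) (s1 := false) (s2 := false) (a := 1) (b := 2) (c := 3) (cn := .npn) (n1 := ndN0q1) (n2 := ndN2q2) (pc := pcN3) (cut := Cut.none) (xt := Ext.none) (P1 := 536870912) (W1 := 536870912) (P2 := 1073741824) (W2 := 536870912) (P3 := 469762048) (W3 := 67108864) (N0 := 3)
    rfl k0_mm_123

noncomputable def f_mm_133 : ℕ → ℕ → ℕ → ℕ → Bool := onCell 536870912 536870912 0 1230186008 469762048 67108864
    (rowN 3 0 true false false .dn 1 3 3 (qsf 536870912 536870912 0 1230186008 3) ndN0q1 ndN2q3 pcN3 Cut.none Ext.none)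

def k0_mm_133 : ∃ t, chk3 f_mm_133 t 1 1 1 = true :=
  ⟨(l 4), by decide +kernel⟩

theorem c_mm_133 : CertN 536870912 536870912 0 1230186008 469762048 67108864 3 true false false .dn 1 3 3
    ndN0q1 ndN2q3 pcN3 Cut.none Ext.none :=
  certN0 (fam := true) (s1 := false) (s2 := false) (a := 1) (b := 3) (c := 3) (cn := .dn) (n1 := ndN0q1) (n2 := ndN2q3) (pc := pcN3) (cut := Cut.none) (xt := Ext.none) (P1 := 536870912) (W1 := 536870912) (P2 := 0) (W2 := 1230186008) (P3 := 469762048) (W3 := 67108864) (N0 := 3)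
    rfl k0_mm_133

noncomputable def f_mm_202 : ℕ → ℕ → ℕ → ℕ → Bool := onCell 0 536870912 0 536870912 469762048 67108864
    (rowN 3 0 true false false .pp 2 0 2 (qsf 0 536870912 0 536870912 2) ndN0q2 ndN2q0 pcN2 Cut.none Ext.none)

def k0_mm_202 : ∃ t, chk3 f_mm_202 t 1 1 1 = true :=
  ⟨(b (a (b (b (a (l 16605952) (b (l 16512136) (l 16477552))) (a (l 16510888) (b (l 16525016) (l 4)))) (a (b (l 16616000) (l 4)) (l 4))) (b (a (b (a (b (l 16522112) (l 4)) (l 4)) (l 4)) (l 4)) (l 4))) (l 4)), by decide +kernel⟩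

theorem c_mm_202 : CertN 0 536870912 0 536870912 469762048 67108864 3 true false false .pp 2 0 2
    ndN0q2 ndN2q0 pcN2 Cut.none Ext.none :=
  certN0 (fam := true) (s1 := false) (s2 := false) (a := 2) (b := 0) (c := 2) (cn := .pp) (n1 := ndN0q2) (n2 := ndN2q0) (pc := pcN2) (cut := Cut.none) (xt := Ext.none) (P1 := 0) (W1 := 536870912) (P2 := 0) (W2 := 536870912) (P3 := 469762048) (W3 := 67108864) (N0 := 3)
    rfl k0_mm_202

noncomputable def f_mm_203 : ℕ → ℕ → ℕ → ℕ → Bool := onCell 0 536870912 1610612736 536870912 469762048 67108864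
    (rowN 3 1 true false false .up 2 0 3 (qsf 0 536870912 0 536870912 3) ndN0q2 ndN2q0 pcN3 Cut.none Ext.none)

def k0_mm_203 : ∃ t, chk3 f_mm_203 t 1 1 1 = true :=
  ⟨(l 4), by decide +kernel⟩

theorem c_mm_203 : CertN 0 536870912 0 536870912 469762048 67108864 3 true false false .up 2 0 3
    ndN0q2 ndN2q0 pcN3 Cut.none Ext.none :=
  certN1 (fam := true) (s1 := false) (s2 := false) (a := 2) (b := 0) (c := 3) (cn := .up) (n1 := ndN0q2) (n2 := ndN2q0) (pc := pcN3) (cut := Cut.none) (xt := Ext.none) (P1 := 0) (W1 := 536870912) (P2 := 0) (W2 := 536870912) (P3 := 469762048) (W3 := 67108864) (N0 := 3)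
    rfl (fun _ => rfl) k0_mm_203

noncomputable def f_mm_213 : ℕ → ℕ → ℕ → ℕ → Bool := onCell 0 536870912 536870912 536870912 469762048 67108864
    (rowN 3 0 true false false .pnn 2 1 3 (qsf 0 536870912 536870912 536870912 3) ndN0q2 ndN2q1 pcN3 Cut.none Ext.none)

def k0_mm_213 : ∃ t, chk3 f_mm_213 t 1 1 1 = true :=
  ⟨(l 4), by decide +kernel⟩

theorem c_mm_213 : CertN 0 536870912 536870912 536870912 469762048 67108864 3 true false false .pnn 2 1 3
    ndN0q2 ndN2q1 pcN3 Cut.none Ext.none :=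
  certN0 (fam := true) (s1 := false) (s2 := false) (a := 2) (b := 1) (c := 3) (cn := .pnn) (n1 := ndN0q2) (n2 := ndN2q1) (pc := pcN3) (cut := Cut.none) (xt := Ext.none) (P1 := 0) (W1 := 536870912) (P2 := 536870912) (W2 := 536870912) (P3 := 469762048) (W3 := 67108864) (N0 := 3)
    rfl k0_mm_213

end Pool.Agent.Strip051.G.I7_16_1_2.Tab.C.NA02

namespace Pool.Agent.Strip051.G.I7_16_1_2.Tab.C.NA03

open Pool.Agent.Strip051.PB Pool.Agent.Strip051.PB.T
open Pool.Agent.Strip051.G.I7_16_1_2.Tab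

noncomputable def f_pp_001 : ℕ → ℕ → ℕ → ℕ → Bool := onCell 0 536870912 0 536870912 469762048 67108864
    (rowN 3 0 true true true .up 0 0 1 (qsf 0 536870912 0 536870912 1) ndN0q0 ndN3q0 pcN1 Cut.none Ext.none)

def k0_pp_001 : ∃ t, chk3 f_pp_001 t 1 1 1 = true :=
  ⟨(l 4), by decide +kernel⟩

theorem c_pp_001 : CertN 0 536870912 0 536870912 469762048 67108864 3 true true true .up 0 0 1
    ndN0q0 ndN3q0 pcN1 Cut.none Ext.none :=
  certN0 (fam := true) (s1 := true) (s2 := true) (a := 0) (b := 0) (c := 1) (cn := .up) (n1 := ndN0q0) (n2 := ndN3q0) (pc := pcN1) (cut := Cut.none) (xt := Ext.none) (P1 := 0) (W1 := 536870912) (P2 := 0) (W2 := 536870912) (P3 := 469762048) (W3 := 67108864) (N0 := 3)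
    rfl k0_pp_001

noncomputable def f_pp_011 : ℕ → ℕ → ℕ → ℕ → Bool := onCell 0 536870912 536870912 536870912 469762048 67108864
    (rowN 3 0 true true true .pnn 0 1 1 (qsf 0 536870912 536870912 536870912 1) ndN0q0 ndN3q1 pcN1 Cut.none Ext.none)

def k0_pp_011 : ∃ t, chk3 f_pp_011 t 1 1 1 = true :=
  ⟨(l 4), by decide +kernel⟩

theorem c_pp_011 : CertN 0 536870912 536870912 536870912 469762048 67108864 3 true true true .pnn 0 1 1
    ndN0q0 ndN3q1 pcN1 Cut.none Ext.none :=
  certN0 (fam := true) (s1 := true) (s2 := true) (a := 0) (b := 1) (c := 1) (cn := .pnn) (n1 := ndN0q0) (n2 := ndN3q1) (pc := pcN1) (cut := Cut.none) (xt := Ext.none) (P1 := 0) (W1 := 536870912) (P2 := 536870912) (W2 := 536870912) (P3 := 469762048) (W3 := 67108864) (N0 := 3)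
    rfl k0_pp_011

noncomputable def f_pp_012 : ℕ → ℕ → ℕ → ℕ → Bool := onCell 0 536870912 536870912 536870912 469762048 67108864
    (rowN 3 0 true true true .pnp 0 1 2 (qsf 0 536870912 536870912 536870912 2) ndN0q0 ndN3q1 pcN2 Cut.none Ext.none)

def k0_pp_012 : ∃ t, chk3 f_pp_012 t 1 1 1 = true :=
  ⟨(l 4), by decide +kernel⟩

theorem c_pp_012 : CertN 0 536870912 536870912 536870912 469762048 67108864 3 true true true .pnp 0 1 2
    ndN0q0 ndN3q1 pcN2 Cut.none Ext.none :=
  certN0 (fam := true) (s1 := true) (s2 := true) (a := 0) (b := 1) (c := 2) (cn := .pnp) (n1 := ndN0q0) (n2 := ndN3q1) (pc := pcN2) (cut := Cut.none) (xt := Ext.none) (P1 := 0) (W1 := 536870912) (P2 := 536870912) (W2 := 536870912) (P3 := 469762048) (W3 := 67108864) (N0 := 3)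
    rfl k0_pp_012

noncomputable def f_pp_022 : ℕ → ℕ → ℕ → ℕ → Bool := onCell 0 536870912 1073741824 536870912 469762048 67108864
    (rowN 3 0 true true true .pp 0 2 2 (qsf 0 536870912 1073741824 536870912 2) ndN0q0 ndN3q2 pcN2 Cut.none Ext.none)

def k0_pp_022 : ∃ t, chk3 f_pp_022 t 1 1 1 = true :=
  ⟨(l 4), by decide +kernel⟩

theorem c_pp_022 : CertN 0 536870912 1073741824 536870912 469762048 67108864 3 true true true .pp 0 2 2
    ndN0q0 ndN3q2 pcN2 Cut.none Ext.none :=
  certN0 (fam := true) (s1 := true) (s2 := true) (a := 0) (b := 2) (c := 2) (cn := .pp) (n1 := ndN0q0) (n2 := ndN3q2) (pc := pcN2) (cut := Cut.none) (xt := Ext.none) (P1 := 0) (W1 := 536870912) (P2 := 1073741824) (W2 := 536870912) (P3 := 469762048) (W3 := 67108864) (N0 := 3)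
    rfl k0_pp_022

noncomputable def f_pp_023 : ℕ → ℕ → ℕ → ℕ → Bool := onCell 0 536870912 1073741824 536870912 469762048 67108864
    (rowN 3 0 true true true .up 0 2 3 (qsf 0 536870912 1073741824 536870912 3) ndN0q0 ndN3q2 pcN3 Cut.none Ext.none)

def k0_pp_023 : ∃ t, chk3 f_pp_023 t 1 1 1 = true :=
  ⟨(l 4), by decide +kernel⟩

theorem c_pp_023 : CertN 0 536870912 1073741824 536870912 469762048 67108864 3 true true true .up 0 2 3
    ndN0q0 ndN3q2 pcN3 Cut.none Ext.none :=
  certN0 (fam := true) (s1 := true) (s2 := true) (a := 0) (b := 2) (c := 3) (cn := .up) (n1 := ndN0q0) (n2 := ndN3q2) (pc := pcN3) (cut := Cut.none) (xt := Ext.none) (P1 := 0) (W1 := 536870912) (P2 := 1073741824) (W2 := 536870912) (P3 := 469762048) (W3 := 67108864) (N0 := 3)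
    rfl k0_pp_023

noncomputable def f_pp_033 : ℕ → ℕ → ℕ → ℕ → Bool := onCell 0 536870912 0 1230186008 469762048 67108864
    (rowN 3 0 true true true .pnn 0 3 3 (qsf 0 536870912 0 1230186008 3) ndN0q0 ndN3q3 pcN3 Cut.none Ext.none)

def k0_pp_033 : ∃ t, chk3 f_pp_033 t 1 1 1 = true :=
  ⟨(b (l 4) (l 4)), by decide +kernel⟩

theorem c_pp_033 : CertN 0 536870912 0 1230186008 469762048 67108864 3 true true true .pnn 0 3 3
    ndN0q0 ndN3q3 pcN3 Cut.none Ext.none :=
  certN0 (fam := true) (s1 := true) (s2 := true) (a := 0) (b := 3) (c := 3) (cn := .pnn) (n1 := ndN0q0) (n2 := ndN3q3) (pc := pcN3) (cut := Cut.none) (xt := Ext.none) (P1 := 0) (W1 := 536870912) (P2 := 0) (W2 := 1230186008) (P3 := 469762048) (W3 := 67108864) (N0 := 3)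
    rfl k0_pp_033

noncomputable def f_pp_101 : ℕ → ℕ → ℕ → ℕ → Bool := onCell 536870912 536870912 0 536870912 469762048 67108864
    (rowN 3 0 true true true .npn 1 0 1 (qsf 536870912 536870912 0 536870912 1) ndN0q1 ndN3q0 pcN1 Cut.none Ext.none)

def k0_pp_101 : ∃ t, chk3 f_pp_101 t 1 1 1 = true :=
  ⟨(l 4), by decide +kernel⟩

theorem c_pp_101 : CertN 536870912 536870912 0 536870912 469762048 67108864 3 true true true .npn 1 0 1
    ndN0q1 ndN3q0 pcN1 Cut.none Ext.none :=
  certN0 (fam := true) (s1 := true) (s2 := true) (a := 1) (b := 0) (c := 1) (cn := .npn) (n1 := ndN0q1) (n2 := ndN3q0) (pc := pcN1) (cut := Cut.none) (xt := Ext.none) (P1 := 536870912) (W1 := 536870912) (P2 := 0) (W2 := 536870912) (P3 := 469762048) (W3 := 67108864) (N0 := 3)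
    rfl k0_pp_101

noncomputable def f_pp_102 : ℕ → ℕ → ℕ → ℕ → Bool := onCell 536870912 536870912 0 536870912 469762048 67108864
    (rowN 3 0 true true true .npp 1 0 2 (qsf 536870912 536870912 0 536870912 2) ndN0q1 ndN3q0 pcN2 Cut.none Ext.none)

def k0_pp_102 : ∃ t, chk3 f_pp_102 t 1 1 1 = true :=
  ⟨(l 4), by decide +kernel⟩

theorem c_pp_102 : CertN 536870912 536870912 0 536870912 469762048 67108864 3 true true true .npp 1 0 2
    ndN0q1 ndN3q0 pcN2 Cut.none Ext.none :=
  certN0 (fam := true) (s1 := true) (s2 := true) (a := 1) (b := 0) (c := 2) (cn := .npp) (n1 := ndN0q1) (n2 := ndN3q0) (pc := pcN2) (cut := Cut.none) (xt := Ext.none) (P1 := 536870912) (W1 := 536870912) (P2 := 0) (W2 := 536870912) (P3 := 469762048) (W3 := 67108864) (N0 := 3)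
    rfl k0_pp_102

noncomputable def f_pp_112 : ℕ → ℕ → ℕ → ℕ → Bool := onCell 536870912 536870912 536870912 536870912 469762048 67108864
    (rowN 3 0 true true true .dn 1 1 2 (qsf 536870912 536870912 536870912 536870912 2) ndN0q1 ndN3q1 pcN2 Cut.none Ext.none)

def k0_pp_112 : ∃ t, chk3 f_pp_112 t 1 1 1 = true :=
  ⟨(l 4), by decide +kernel⟩

theorem c_pp_112 : CertN 536870912 536870912 536870912 536870912 469762048 67108864 3 true true true .dn 1 1 2
    ndN0q1 ndN3q1 pcN2 Cut.none Ext.none :=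
  certN0 (fam := true) (s1 := true) (s2 := true) (a := 1) (b := 1) (c := 2) (cn := .dn) (n1 := ndN0q1) (n2 := ndN3q1) (pc := pcN2) (cut := Cut.none) (xt := Ext.none) (P1 := 536870912) (W1 := 536870912) (P2 := 536870912) (W2 := 536870912) (P3 := 469762048) (W3 := 67108864) (N0 := 3)
    rfl k0_pp_112

noncomputable def f_pp_113 : ℕ → ℕ → ℕ → ℕ → Bool := onCell 536870912 536870912 536870912 536870912 469762048 67108864
    (rowN 3 0 true true true .nn 1 1 3 (qsf 536870912 536870912 536870912 536870912 3) ndN0q1 ndN3q1 pcN3 Cut.none Ext.none)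

def k0_pp_113 : ∃ t, chk3 f_pp_113 t 1 1 1 = true :=
  ⟨(l 4), by decide +kernel⟩

theorem c_pp_113 : CertN 536870912 536870912 536870912 536870912 469762048 67108864 3 true true true .nn 1 1 3
    ndN0q1 ndN3q1 pcN3 Cut.none Ext.none :=
  certN0 (fam := true) (s1 := true) (s2 := true) (a := 1) (b := 1) (c := 3) (cn := .nn) (n1 := ndN0q1) (n2 := ndN3q1) (pc := pcN3) (cut := Cut.none) (xt := Ext.none) (P1 := 536870912) (W1 := 536870912) (P2 := 536870912) (W2 := 536870912) (P3 := 469762048) (W3 := 67108864) (N0 := 3)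
    rfl k0_pp_113

noncomputable def f_pp_123 : ℕ → ℕ → ℕ → ℕ → Bool := onCell 536870912 536870912 1073741824 536870912 469762048 67108864
    (rowN 3 0 true true true .npn 1 2 3 (qsf 536870912 536870912 1073741824 536870912 3) ndN0q1 ndN3q2 pcN3 Cut.none Ext.none)

def k0_pp_123 : ∃ t, chk3 f_pp_123 t 1 1 1 = true :=
  ⟨(l 4), by decide +kernel⟩

theorem c_pp_123 : CertN 536870912 536870912 1073741824 536870912 469762048 67108864 3 true true true .npn 1 2 3
    ndN0q1 ndN3q2 pcN3 Cut.none Ext.none :=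
  certN0 (fam := true) (s1 := true) (s2 := true) (a := 1) (b := 2) (c := 3) (cn := .npn) (n1 := ndN0q1) (n2 := ndN3q2) (pc := pcN3) (cut := Cut.none) (xt := Ext.none) (P1 := 536870912) (W1 := 536870912) (P2 := 1073741824) (W2 := 536870912) (P3 := 469762048) (W3 := 67108864) (N0 := 3)
    rfl k0_pp_123

noncomputable def f_pp_133 : ℕ → ℕ → ℕ → ℕ → Bool := onCell 536870912 536870912 0 1230186008 469762048 67108864
    (rowN 3 0 true true true .dn 1 3 3 (qsf 536870912 536870912 0 1230186008 3) ndN0q1 ndN3q3 pcN3 Cut.none Ext.none)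

def k0_pp_133 : ∃ t, chk3 f_pp_133 t 1 1 1 = true :=
  ⟨(l 4), by decide +kernel⟩

theorem c_pp_133 : CertN 536870912 536870912 0 1230186008 469762048 67108864 3 true true true .dn 1 3 3
    ndN0q1 ndN3q3 pcN3 Cut.none Ext.none :=
  certN0 (fam := true) (s1 := true) (s2 := true) (a := 1) (b := 3) (c := 3) (cn := .dn) (n1 := ndN0q1) (n2 := ndN3q3) (pc := pcN3) (cut := Cut.none) (xt := Ext.none) (P1 := 536870912) (W1 := 536870912) (P2 := 0) (W2 := 1230186008) (P3 := 469762048) (W3 := 67108864) (N0 := 3)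
    rfl k0_pp_133

noncomputable def f_pp_202 : ℕ → ℕ → ℕ → ℕ → Bool := onCell 0 536870912 0 536870912 469762048 67108864
    (rowN 3 0 true true true .pp 2 0 2 (qsf 0 536870912 0 536870912 2) ndN0q2 ndN3q0 pcN2 Cut.none Ext.none)

def k0_pp_202 : ∃ t, chk3 f_pp_202 t 1 1 1 = true :=
  ⟨(l 5), by decide +kernel⟩

theorem c_pp_202 : CertN 0 536870912 0 536870912 469762048 67108864 3 true true true .pp 2 0 2
    ndN0q2 ndN3q0 pcN2 Cut.none Ext.none :=
  certN0 (fam := true) (s1 := true) (s2 := true) (a := 2) (b := 0) (c := 2) (cn := .pp) (n1 := ndN0q2) (n2 := ndN3q0) (pc := pcN2) (cut := Cut.none) (xt := Ext.none) (P1 := 0) (W1 := 536870912) (P2 := 0) (W2 := 536870912) (P3 := 469762048) (W3 := 67108864) (N0 := 3)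
    rfl k0_pp_202

noncomputable def f_pp_203 : ℕ → ℕ → ℕ → ℕ → Bool := onCell 0 536870912 0 536870912 469762048 67108864
    (rowN 3 0 true true true .up 2 0 3 (qsf 0 536870912 0 536870912 3) ndN0q2 ndN3q0 pcN3 Cut.none Ext.none)

def k0_pp_203 : ∃ t, chk3 f_pp_203 t 1 1 1 = true :=
  ⟨(l 5), by decide +kernel⟩

theorem c_pp_203 : CertN 0 536870912 0 536870912 469762048 67108864 3 true true true .up 2 0 3
    ndN0q2 ndN3q0 pcN3 Cut.none Ext.none :=
  certN0 (fam := true) (s1 := true) (s2 := true) (a := 2) (b := 0) (c := 3) (cn := .up) (n1 := ndN0q2) (n2 := ndN3q0) (pc := pcN3) (cut := Cut.none) (xt := Ext.none) (P1 := 0) (W1 := 536870912) (P2 := 0) (W2 := 536870912) (P3 := 469762048) (W3 := 67108864) (N0 := 3)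
    rfl k0_pp_203

noncomputable def f_pp_213 : ℕ → ℕ → ℕ → ℕ → Bool := onCell 0 536870912 536870912 536870912 469762048 67108864
    (rowN 3 0 true true true .pnn 2 1 3 (qsf 0 536870912 536870912 536870912 3) ndN0q2 ndN3q1 pcN3 Cut.none Ext.none)

def k0_pp_213 : ∃ t, chk3 f_pp_213 t 1 1 1 = true :=
  ⟨(l 4), by decide +kernel⟩

theorem c_pp_213 : CertN 0 536870912 536870912 536870912 469762048 67108864 3 true true true .pnn 2 1 3
    ndN0q2 ndN3q1 pcN3 Cut.none Ext.none :=
  certN0 (fam := true) (s1 := true) (s2 := true) (a := 2) (b := 1) (c := 3) (cn := .pnn) (n1 := ndN0q2) (n2 := ndN3q1) (pc := pcN3) (cut := Cut.none) (xt := Ext.none) (P1 := 0) (W1 := 536870912) (P2 := 536870912) (W2 := 536870912) (P3 := 469762048) (W3 := 67108864) (N0 := 3)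
    rfl k0_pp_213

noncomputable def f_pm_001 : ℕ → ℕ → ℕ → ℕ → Bool := onCell 0 536870912 536870912 536870912 469762048 67108864
    (rowN 3 1 true true false .up 0 0 1 (qsf 0 536870912 0 536870912 1) ndN0q0 ndN3q0 pcN1 Cut.none Ext.none)

def k0_pm_001 : ∃ t, chk3 f_pm_001 t 1 1 1 = true :=
  ⟨(b (l 3) (a (b (l 3) (l 2)) (b (l 3) (a (b (b (l 3) (l 2)) (l 2)) (a (b (a (b (a (l 3) (b (l 3) (b (l 3) (l 3)))) (a (l 2) (b (b (a (l 2) (l 76336126439)) (l 2)) (l 2)))) (b (b (l 3) (b (l 3) (a (c (l 16696464) (l 51170293719)) (l 16634056)))) (b (a (c (l 16675312) (b (l 16642848) (l 16631416))) (l 16629288)) (l 65061806855)))) (a (l 2) (b (l 66672398007) (l 2)))) (b (b (a (b (l 3) (a (b (l 16690360) (l 16674088)) (l 59760255559))) (b (a (l 64055266935) (l 54928479415)) (a (l 16692128) (l 16701888)))) (a (b (a (l 16647880) (l 16650712)) (l 16610248)) (b (l 16662544) (l 16624248)))) (b (a (l 16544528) (l 16642040)) (a (l 16451528) (l 16452336))))))))), by decide +kernel⟩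

theorem c_pm_001 : CertN 0 536870912 0 536870912 469762048 67108864 3 true true false .up 0 0 1
    ndN0q0 ndN3q0 pcN1 Cut.none Ext.none :=
  certN1 (fam := true) (s1 := true) (s2 := false) (a := 0) (b := 0) (c := 1) (cn := .up) (n1 := ndN0q0) (n2 := ndN3q0) (pc := pcN1) (cut := Cut.none) (xt := Ext.none) (P1 := 0) (W1 := 536870912) (P2 := 0) (W2 := 536870912) (P3 := 469762048) (W3 := 67108864) (N0 := 3)
    rfl (fun _ => rfl) k0_pm_001

noncomputable def cut_pm_011 : Cut := Cut.of [[⟨0, 0, 0, 67108864⟩, ⟨1, 1, 0, 67108864⟩, ⟨2, 1, 0, 67108864⟩]]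

noncomputable def f_pm_011 : ℕ → ℕ → ℕ → ℕ → Bool := onCell 0 536870912 536870912 536870912 469762048 67108864
    (rowN 3 1 true true false .pnn 0 1 1 (qsf 0 536870912 536870912 536870912 1) ndN0q0 ndN3q1 pcN1 cut_pm_011 Ext.none)

def k0_pm_011 : ∃ t, chk3 f_pm_011 t 1 2 1 = true :=
  ⟨(l 3), by decide +kernel⟩

def k1_pm_011 : ∃ t, chk3 f_pm_011 t 2 6 1 = true :=
  ⟨(l 3), by decide +kernel⟩

def k2_pm_011 : ∃ t, chk3 f_pm_011 t 4 14 1 = true :=
  ⟨(l 3), by decide +kernel⟩

def k3_pm_011 : ∃ t, chk3 f_pm_011 t 8 15 1 = true :=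
  ⟨(b (l 3) (a (b (l 3) (l 6)) (b (l 3) (b (b (b (a (l 3) (a (l 3) (a (l 3) (b (l 3) (l 1778323719))))) (a (l 3) (a (a (l 3) (c (l 16752552) (l 16751056))) (a (c (l 16742872) (l 16741248)) (c (l 16738400) (l 16736664)))))) (a (l 6) (b (c (a (a (l 16752504) (l 16742816)) (l 16741352)) (a (a (l 16751088) (l 16741280)) (l 16739656))) (a (a (l 6) (c (l 16738288) (l 16736736))) (c (l 16731576) (l 16729864)))))) (a (l 6) (a (b (b (c (l 16741232) (l 16739712)) (l 6)) (l 6)) (b (b (c (l 16727048) (l 16725312)) (c (l 16722528) (l 16720768))) (b (l 16727576) (l 16733536))))))))), by decide +kernel⟩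

def k4_pm_011 : ∃ t, chk3 f_pm_011 t 9 15 1 = true :=
  ⟨(b (l 3) (b (a (b (l 3) (b (a (l 3) (b (a (l 3) (c (l 16726744) (l 16724360))) (a (c (l 16731464) (l 16729264)) (c (l 16722280) (l 16719848))))) (a (b (a (l 3) (a (l 3) (l 16737992))) (a (a (l 3) (c (l 16738400) (l 16736512))) (c (l 16736864) (l 16729552)))) (a (a (c (l 16727032) (l 16724816)) (c (l 16722440) (l 16720120))) (a (l 16732280) (l 16732816)))))) (a (b (a (l 3) (b (l 3) (a (l 16731416) (l 16731880)))) (a (b (c (l 16715200) (l 16712584)) (c (l 16706120) (l 16703488))) (b (c (l 16705736) (l 16702944)) (l 16716152)))) (b (c (b (b (l 3) (l 16728064)) (b (l 16723592) (l 16719072))) (a (b (l 3) (l 16702264)) (b (l 16701424) (l 16692392)))) (b (a (l 16715552) (l 16705744)) (a (l 16706480) (l 16696680)))))) (a (b (c (a (b (a (a (l 16741400) (l 16731640)) (l 16731384)) (a (l 16731392) (l 16715760))) (b (a (l 16715664) (l 16706408)) (a (l 16706600) (l 16697352)))) (a (a (b (a (l 16739568) (l 16729704)) (l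 16728160)) (b (l 16727976) (l 16713632))) (a (b (l 16713376) (l 16704280)) (b (l 16703936) (l 16694848))))) (a (a (b (b (l 16732768) (l 16733472)) (c (l 16706760) (l 16704744))) (b (c (l 16706712) (l 16704544)) (l 16717504))) (a (b (l 16717304) (l 16708256)) (c (l 16704784) (l 16702208))))) (a (b (a (b (l 16716640) (l 16707576)) (b (l 16707088) (l 16698032))) (c (a (l 16674472) (l 16665032)) (l 16672184))) (b (c (l 16700128) (l 16670864)) (l 16667872)))))), by decide +kernel⟩

def k5_pm_011 : ∃ t, chk3 f_pm_011 t 5 7 1 = true :=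
  ⟨(b (l 3) (b (a (b (l 3) (b (a (l 3) (a (a (l 3) (l 16692920)) (c (l 16678176) (l 16675928)))) (a (a (a (l 3) (a (l 16722384) (l 16714696))) (b (c (l 16708096) (l 16704696)) (l 16707856))) (a (c (l 16671976) (l 16678912)) (l 16658464))))) (a (a (b (l 3) (c (l 16660768) (l 16653672))) (b (b (l 3) (l 16657216)) (c (l 16639992) (l 16629784)))) (b (a (c (l 16652056) (l 16648152)) (l 17884234535)) (c (l 16620240) (l 16610920))))) (a (b (b (a (a (c (a (l 16711072) (l 16701040)) (l 16697576)) (b (l 16698832) (l 16689800))) (a (l 16662592) (l 16640576))) (a (a (a (l 16691280) (l 16681200)) (l 16665808)) (a (l 16644672) (l 16622784)))) (b (a (a (l 16668232) (l 16647856)) (l 16637056)) (a (c (l 16663016) (l 16638576)) (l 16619328)))) (b (a (b (l 16634192) (l 16616464)) (a (l 16577736) (l 16579928))) (a (c (l 16589448) (l 16588816)) (a (l 16563000) (l 16514040))))))), by decide +kernel⟩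

def k6_pm_011 : ∃ t, chk3 f_pm_011 t 3 6 1 = true :=
  ⟨(l 3), by decide +kernel⟩

def k7_pm_011 : ∃ t, chk3 f_pm_011 t 6 7 1 = true :=
  ⟨(b (b (l 3) (b (a (l 3) (a (b (l 3) (a (l 3) (l 32916503223))) (a (b (l 3) (c (l 16554960) (l 16531296))) (b (c (l 43653884151) (l 16554504)) (c (l 16522104) (l 16517760)))))) (a (a (b (l 3) (a (l 3) (l 16617112))) (a (b (l 3) (l 16608680)) (b (l 25400345143) (l 16570136)))) (a (a (b (l 16578960) (l 16554080)) (b (l 16553024) (l 16518440))) (a (b (l 16539616) (l 16505184)) (b (l 16506904) (l 16493432))))))) (a (b (a (a (b (l 16613456) (l 16592896)) (b (l 16586184) (l 16553480))) (b (b (c (l 16585464) (l 16584880)) (l 16570808)) (b (l 16555784) (l 16498304)))) (b (a (a (l 16518968) (l 16500528)) (b (l 16524224) (l 16486736))) (a (c (l 16487816) (l 16474120)) (c (l 16431736) (l 16479608))))) (b (b (a (b (l 16553504) (l 16538968)) (c (l 16501664) (l 16495552))) (a (b (l 16502928) (l 16487336)) (l 16510424))) (a (b (c (l 16465656)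 (l 16459960)) (l 16470608)) (b (l 16457032) (l 16422472)))))), by decide +kernel⟩

def k8_pm_011 : ∃ t, chk3 f_pm_011 t 7 7 1 = true :=
  ⟨(b (a (b (b (l 3) (b (l 3) (b (a (l 3) (l 1)) (a (a (l 3) (c (l 44727660343) (l 16521072))) (a (c (l 75731980071) (l 16507944)) (l 1)))))) (a (b (a (b (c (l 51706923783) (l 16541520)) (l 16530584)) (c (b (b (l 16562488) (l 16514096)) (l 16505096)) (b (l 16530760) (l 16496744)))) (a (c (l 16493552) (l 16486168)) (c (l 16486088) (l 16476632)))) (b (c (a (b (c (l 16534536) (l 16505344)) (l 16495688)) (l 82174462263)) (a (b (l 16498136) (l 16485512)) (l 16499816))) (c (a (l 16476688) (l 16465184)) (l 16500760))))) (b (l 1) (b (l 1) (a (c (l 91301020039) (l 16454896)) (l 1))))) (a (b (a (b (a (l 16461952) (l 16453496)) (a (l 16431648) (l 16423208))) (b (c (l 16464408) (l 16430128)) (l 16448480))) (a (b (l 16436856) (l 16402096)) (b (l 16373824) (l 16338784)))) (b (a (b (c (l 16421408) (l 16405112)) (l 16403728)) (b (l 1) (l 16382256)))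 (a (b (l 16349688) (l 16314184)) (b (l 16327832) (l 16291848)))))), by decide +kernel⟩

theorem s9_pm_011 : ∃ t, chk3 f_pm_011 t 3 7 1 = true := ex3_a k7_pm_011 k8_pm_011

theorem s10_pm_011 : ∃ t, chk3 f_pm_011 t 3 3 1 = true := ex3_b k6_pm_011 s9_pm_011

theorem s11_pm_011 : ∃ t, chk3 f_pm_011 t 4 15 1 = true := ex3_a k3_pm_011 k4_pm_011

theorem s12_pm_011 : ∃ t, chk3 f_pm_011 t 4 7 1 = true := ex3_b k2_pm_011 s11_pm_011

theorem s13_pm_011 : ∃ t, chk3 f_pm_011 t 2 7 1 = true := ex3_a s12_pm_011 k5_pm_011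

theorem s14_pm_011 : ∃ t, chk3 f_pm_011 t 2 3 1 = true := ex3_b k1_pm_011 s13_pm_011

theorem s15_pm_011 : ∃ t, chk3 f_pm_011 t 1 3 1 = true := ex3_a s14_pm_011 s10_pm_011

theorem s16_pm_011 : ∃ t, chk3 f_pm_011 t 1 1 1 = true := ex3_b k0_pm_011 s15_pm_011

theorem c_pm_011 : CertN 0 536870912 536870912 536870912 469762048 67108864 3 true true false .pnn 0 1 1
    ndN0q0 ndN3q1 pcN1 cut_pm_011 Ext.none :=
  certN1 (fam := true) (s1 := true) (s2 := false) (a := 0) (b := 1) (c := 1) (cn := .pnn) (n1 := ndN0q0) (n2 := ndN3q1) (pc := pcN1) (cut := cut_pm_011) (xt := Ext.none) (P1 := 0) (W1 := 536870912) (P2 := 536870912) (W2 := 536870912) (P3 := 469762048) (W3 := 67108864) (N0 := 3)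
    rfl (fun _ => rfl) s16_pm_011

noncomputable def cut_pm_012 : Cut := Cut.of [[⟨0, 0, 0, 67108864⟩, ⟨1, 1, 0, 67108864⟩, ⟨2, 1, 0, 67108864⟩]]

noncomputable def f_pm_012 : ℕ → ℕ → ℕ → ℕ → Bool := onCell 0 536870912 1073741824 536870912 469762048 67108864
    (rowN 3 1 true true false .pnp 0 1 2 (qsf 0 536870912 536870912 536870912 2) ndN0q0 ndN3q1 pcN2 cut_pm_012 Ext.none)

def k0_pm_012 : ∃ t, chk3 f_pm_012 t 2 8 1 = true :=
  ⟨(a (b (a (a (l 6) (a (l 6) (a (l 6) (a (l 6) (a (l 6) (b (b (l 16718752) (l 16678960)) (l 16675840))))))) (b (b (a (a (b (a (l 16717736) (l 16708592)) (l 16693344)) (a (l 16705192) (l 16685408))) (a (a (l 16655048) (l 16645560)) (l 16641632))) (a (a (l 16684464) (l 16671288)) (a (l 16631552) (l 16612384)))) (a (a (b (l 16673392) (l 16636800)) (l 16657816)) (b (l 16647856) (l 16612592))))) (a (a (b (l 6) (l 2)) (a (b (l 6) (b (l 6) (l 2))) (b (a (l 6) (b (l 16634392) (l 16618488))) (a (b (l 6) (l 16593712)) (b (l 16602352) (a (l 16587928)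 (l 16584056))))))) (a (a (b (b (a (l 16625728) (l 16617032)) (l 16626896)) (b (l 16611224) (a (l 16578240) (l 16570456)))) (b (b (l 16603936) (l 16589088)) (b (l 16574024) (l 16558736)))) (b (a (l 16621296) (l 16583128)) (a (l 16550448) (l 16534488)))))) (a (b (b (a (a (l 16654584) (l 16602936)) (c (l 16573440) (l 16571024))) (a (l 16604096) (l 16547072))) (a (b (l 16546944) (a (l 16518584) (l 16502808))) (b (l 16502800) (l 16500456)))) (b (a (a (l 16552960) (l 16535320)) (c (l 16510848) (l 16487320))) (a (b (l 16491264) (l 16449456)) (l 16514368))))), by decide +kernel⟩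

def k1_pm_012 : ∃ t, chk3 f_pm_012 t 2 9 1 = true :=
  ⟨(a (a (a (l 2) (a (l 2) (b (b (a (l 2) (b (l 16569400) (l 2))) (l 2)) (l 2)))) (a (a (b (b (a (b (l 16561952) (l 16545440)) (b (l 16554480) (l 16538280))) (a (l 2) (l 16513728))) (l 2)) (b (b (a (l 16539080) (l 16531728)) (a (b (l 16515056) (l 16498944)) (b (l 16508184) (l 16492424)))) (b (a (l 2) (l 16468416)) (l 2)))) (b (a (b (l 16520680) (l 16511256)) (b (l 16505960) (l 16476896))) (a (b (a (l 16504376) (l 16456456)) (a (l 2) (l 16425176))) (b (l 16447504) (a (l 16419952) (l 16414752))))))) (a (a (b (b (a (l 16491312) (l 16476784)) (a (l 16463576) (l 16450384))) (a (b (l 16435640) (l 16406992)) (b (l 16423904) (l 16396776)))) (b (b (l 16455344) (l 16430936)) (b (l 16406664) (l 16381792)))) (b (a (b (l 16427800) (l 16406064)) (l 16413520)) (a (b (l 16384728) (l 16362856)) (l 16355224))))), by decide +kernel⟩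

def k2_pm_012 : ∃ t, chk3 f_pm_012 t 2 5 1 = true :=
  ⟨(a (b (a (l 2) (b (a (l 2) (b (a (l 2) (l 16407544)) (l 2))) (l 2))) (l 2)) (a (a (b (b (b (a (a (l 16379968) (l 16375616)) (l 16369144)) (a (b (l 16355656) (l 2)) (b (l 16348256) (b (l 16338120) (l 16331992))))) (a (l 2) (b (l 16312640) (l 2)))) (l 2)) (b (b (b (l 16398464) (b (l 16337488) (b (l 16328360) (a (l 16325968) (l 16320128))))) (a (b (l 16307552) (l 16275600)) (b (l 16302688) (l 16272152)))) (b (a (l 2) (l 16224488)) (l 2)))) (b (b (a (b (l 16340664) (b (l 16324048) (b (l 16316208) (l 16311800)))) (b (l 16326344) (b (l 16312056) (l 16304040)))) (a (a (l 16283680) (l 16280104)) (l 16275392))) (a (b (a (b (l 16238896) (l 16207776)) (l 16222880)) (a (l 2) (l 16161632))) (b (l 16222768) (a (l 16164408) (l 16167784))))))), by decide +kernel⟩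

def k3_pm_012 : ∃ t, chk3 f_pm_012 t 2 3 1 = true :=
  ⟨(b (b (b (a (l 2) (a (l 2) (a (l 2) (l 16105528)))) (l 2)) (l 2)) (l 2)), by decide +kernel⟩

def k4_pm_012 : ∃ t, chk3 f_pm_012 t 3 1 1 = true :=
  ⟨(b (b (a (b (a (b (a (b (l 16463208) (l 16468600)) (b (l 16406256) (l 16394848))) (a (l 16466040) (l 16440184))) (b (a (b (l 16393992) (l 16364456)) (b (l 16344848) (l 16338976))) (a (l 16352296) (l 16330784)))) (a (b (a (l 16370104) (l 16350264)) (a (l 16338464) (l 16324200))) (b (a (l 16332760) (l 16317720)) (a (l 16313248) (l 16305984))))) (b (a (a (b (b (l 16323456) (l 16320088)) (l 16315560)) (b (b (l 16300944) (l 16300128)) (l 16299256))) (b (a (l 16359912) (l 16316384)) (a (l 16279624) (l 16261928)))) (a (b (a (l 16307536) (l 16296176)) (a (l 16302600) (l 16296920))) (b (l 16316416) (l 16283520))))) (a (b (b (a (b (l 16350336) (a (b (l 16301968) (l 16295512)) (l 16334504))) (b (l 16295416) (b (l 16288632) (l 16285544)))) (a (a (l 16270720) (l 16268216))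 (l 16270288))) (a (a (b (l 16224344) (l 16173920)) (l 16206832)) (a (l 16217096) (l 16231872)))) (b (b (a (b (l 16296032) (b (l 16294200) (l 16293824))) (b (l 16288968) (b (l 16291144) (l 16292160)))) (a (l 16286656) (l 16294672))) (a (l 16323832) (l 16291264))))) (b (a (a (b (a (b (l 16140552) (l 16061776)) (b (l 16136624) (l 16085288))) (a (l 2) (l 16044488))) (b (a (l 16135480) (l 16164504)) (a (l 16124296) (l 16084608)))) (a (b (l 16278440) (a (l 16136184) (l 16185232))) (b (l 16273712) (l 16242976)))) (a (a (l 2) (b (b (a (l 2) (l 16017088)) (l 2)) (l 2))) (b (a (b (a (l 16081344) (l 16143448)) (l 60765614135)) (b (l 16212448) (l 16193912))) (a (b (l 16059248) (l 2)) (b (l 16175264) (l 16176448))))))), by decide +kernel⟩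

theorem s5_pm_012 : ∃ t, chk3 f_pm_012 t 2 4 1 = true := ex3_b k0_pm_012 k1_pm_012

theorem s6_pm_012 : ∃ t, chk3 f_pm_012 t 2 2 1 = true := ex3_b s5_pm_012 k2_pm_012

theorem s7_pm_012 : ∃ t, chk3 f_pm_012 t 2 1 1 = true := ex3_b s6_pm_012 k3_pm_012

theorem s8_pm_012 : ∃ t, chk3 f_pm_012 t 1 1 1 = true := ex3_a s7_pm_012 k4_pm_012

theorem c_pm_012 : CertN 0 536870912 536870912 536870912 469762048 67108864 3 true true false .pnp 0 1 2
    ndN0q0 ndN3q1 pcN2 cut_pm_012 Ext.none :=
  certN1 (fam := true) (s1 := true) (s2 := false) (a := 0) (b := 1) (c := 2) (cn := .pnp) (n1 := ndN0q0) (n2 := ndN3q1) (pc := pcN2) (cut := cut_pm_012) (xt := Ext.none) (P1 := 0) (W1 := 536870912) (P2 := 536870912) (W2 := 536870912) (P3 := 469762048) (W3 := 67108864) (N0 := 3)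
    rfl (fun _ => rfl) s8_pm_012

noncomputable def f_pm_022 : ℕ → ℕ → ℕ → ℕ → Bool := onCell 0 536870912 1073741824 536870912 469762048 67108864
    (rowN 3 1 true true false .pp 0 2 2 (qsf 0 536870912 1073741824 536870912 2) ndN0q0 ndN3q2 pcN2 Cut.none Ext.none)

def k0_pm_022 : ∃ t, chk3 f_pm_022 t 1 1 1 = true :=
  ⟨(a (b (b (l 3) (b (b (b (l 3) (b (a (l 3) (a (l 3) (l 1))) (a (b (l 3) (b (a (b (l 3) (l 16519424)) (b (l 16470072) (l 16551904))) (a (a (l 16467904) (l 16469456)) (l 16486016)))) (a (b (a (l 16460832) (l 1)) (b (a (l 16438640) (l 1)) (l 16458904))) (l 1))))) (a (a (a (l 16432872) (l 16434920)) (a (l 16433352) (l 16427664))) (a (a (l 16396240) (l 16401200)) (l 84321657079)))) (a (a (a (l 16333528) (l 16337032)) (b (l 16409272) (l 16324264))) (a (a (l 16323208) (l 16329296)) (a (l 16353088) (l 123512955287)))))) (a (b (a (b (l 16266264) (l 16111544)) (b (l 16206968) (l 16077784))) (a (b (l 15913448) (l 15797632)) (l 15987272))) (b (a (b (l 16212896)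 (l 16066760)) (b (l 16280088) (l 16101640))) (a (l 15983304) (l 16012640))))) (b (b (l 1) (b (l 1) (a (a (a (b (l 1) (l 16294792)) (l 1)) (l 1)) (l 1)))) (a (b (a (b (a (l 16266616) (l 107406832295)) (l 16247152)) (b (a (l 136397753351) (l 1)) (a (l 16168264) (l 151430000711)))) (a (b (l 16058256) (l 15977112)) (b (l 16155480) (l 16053352)))) (b (a (b (l 1) (a (l 167536130215) (l 1))) (l 1)) (a (b (a (l 16158424) (l 180957856663)) (l 16133128)) (b (l 179347286119) (l 211022713031))))))), by decide +kernel⟩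

theorem c_pm_022 : CertN 0 536870912 1073741824 536870912 469762048 67108864 3 true true false .pp 0 2 2
    ndN0q0 ndN3q2 pcN2 Cut.none Ext.none :=
  certN1 (fam := true) (s1 := true) (s2 := false) (a := 0) (b := 2) (c := 2) (cn := .pp) (n1 := ndN0q0) (n2 := ndN3q2) (pc := pcN2) (cut := Cut.none) (xt := Ext.none) (P1 := 0) (W1 := 536870912) (P2 := 1073741824) (W2 := 536870912) (P3 := 469762048) (W3 := 67108864) (N0 := 3)
    rfl (fun _ => rfl) k0_pm_022

noncomputable def f_pm_023 : ℕ → ℕ → ℕ → ℕ → Bool := onCell 0 536870912 1073741824 536870912 469762048 67108864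
    (rowN 3 0 true true false .up 0 2 3 (qsf 0 536870912 1073741824 536870912 3) ndN0q0 ndN3q2 pcN3 Cut.none Ext.none)

def k0_pm_023 : ∃ t, chk3 f_pm_023 t 1 1 1 = true :=
  ⟨(a (b (a (l 1) (b (l 1) (l 139618998343))) (b (a (l 188473836727) (l 138008133463)) (a (b (l 16068256) (a (l 16116576) (l 16359400))) (b (l 16445208) (l 16616520))))) (b (a (b (a (l 1) (l 189548180711)) (l 194916660231)) (b (a (l 228739739367) (l 259878259319)) (a (l 16540856) (l 16703704)))) (a (b (l 16551488) (a (l 16731968) (l 16808248))) (b (l 16791768) (a (l 16848936) (b (l 16860256) (b (l 16865832) (a (l 16865664) (a (l 16864352) (l 16967360)))))))))), by decide +kernel⟩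

theorem c_pm_023 : CertN 0 536870912 1073741824 536870912 469762048 67108864 3 true true false .up 0 2 3
    ndN0q0 ndN3q2 pcN3 Cut.none Ext.none :=
  certN0 (fam := true) (s1 := true) (s2 := false) (a := 0) (b := 2) (c := 3) (cn := .up) (n1 := ndN0q0) (n2 := ndN3q2) (pc := pcN3) (cut := Cut.none) (xt := Ext.none) (P1 := 0) (W1 := 536870912) (P2 := 1073741824) (W2 := 536870912) (P3 := 469762048) (W3 := 67108864) (N0 := 3)
    rfl k0_pm_023

noncomputable def f_pm_033 : ℕ → ℕ → ℕ → ℕ → Bool := onCell 1610612736 536870912 0 1230186008 469762048 67108864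
    (rowN 3 2 true true false .pnn 0 3 3 (qsf 0 536870912 0 1230186008 3) ndN0q0 ndN3q3 pcN3 Cut.none Ext.none)

def k0_pm_033 : ∃ t, chk3 f_pm_033 t 1 1 1 = true :=
  ⟨(b (a (l 1) (a (l 1) (a (b (l 1) (l 16944408)) (l 4)))) (b (a (a (l 1) (a (l 1) (b (l 1) (l 16953992)))) (a (a (b (l 1) (l 16966840)) (b (l 16975048) (l 16944760))) (a (b (l 16929512) (l 16912240)) (a (l 16890744) (l 4))))) (a (a (b (l 1) (a (b (l 1) (a (l 16699392) (l 16717976))) (b (l 16783824) (l 16744448)))) (b (a (l 16862920) (l 16874808)) (b (l 16820360) (l 16792984)))) (a (b (a (l 16890936) (l 16896216)) (b (a (l 16851080) (l 16865160)) (l 16838400))) (a (b (l 16894040) (b (l 16863168) (l 16847024))) (b (a (l 16873992) (a (l 16861848) (l 4))) (a (b (l 16860088) (l 16840704)) (a (l 16841832) (l 16834968))))))))), by decide +kernel⟩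

theorem c_pm_033 : CertN 0 536870912 0 1230186008 469762048 67108864 3 true true false .pnn 0 3 3
    ndN0q0 ndN3q3 pcN3 Cut.none Ext.none :=
  certN2 (fam := true) (s1 := true) (s2 := false) (a := 0) (b := 3) (c := 3) (cn := .pnn) (n1 := ndN0q0) (n2 := ndN3q3) (pc := pcN3) (cut := Cut.none) (xt := Ext.none) (P1 := 0) (W1 := 536870912) (P2 := 0) (W2 := 1230186008) (P3 := 469762048) (W3 := 67108864) (N0 := 3)
    rfl (fun _ => rfl) k0_pm_033

noncomputable def f_pm_101 : ℕ → ℕ → ℕ → ℕ → Bool := onCell 536870912 536870912 536870912 536870912 469762048 67108864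
    (rowN 3 1 true true false .npn 1 0 1 (qsf 536870912 536870912 0 536870912 1) ndN0q1 ndN3q0 pcN1 Cut.none Ext.none)

def k0_pm_101 : ∃ t, chk3 f_pm_101 t 2 2 1 = true :=
  ⟨(a (l 3) (b (a (b (l 1) (l 3)) (l 1)) (l 3))), by decide +kernel⟩

def k1_pm_101 : ∃ t, chk3 f_pm_101 t 2 6 1 = true :=
  ⟨(a (b (l 3) (b (l 3) (a (a (l 3) (b (l 3) (b (l 3) (a (l 16762304) (l 59223520775))))) (a (b (l 3) (a (c (l 56002455255) (b (l 52781095367) (l 16757216))) (c (l 59223692759) (b (l 60297290935) (l 16763264))))) (a (b (l 3) (b (a (l 66739746519) (l 71034719511)) (l 16786184))) (b (c (l 61908126103) (b (l 3) (l 65666061271))) (c (l 16858800) (b (l 16795032) (l 16780904))))))))) (b (l 3) (a (b (a (l 3) (a (l 3) (a (l 3) (b (l 3) (l 105394794615))))) (a (b (a (c (l 52781352935) (b (l 3) (l 58149893895))) (c (l 57076346551) (b (l 73719206951) (l 16839728)))) (a (c (l 16872224) (l 16801480)) (c (l 16887848) (l 16819056)))) (b (a (c (l 16922504) (b (l 62981828999) (l 16856896)))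 (c (l 16937144) (l 67276848759))) (a (l 16869784) (l 16885376))))) (b (b (l 3) (a (b (l 3) (a (l 70498139127) (l 16959416))) (a (c (l 17001624) (l 78014462199)) (l 82846350903)))) (a (b (a (c (l 16951160) (l 16897280)) (l 16939088)) (l 16907584)) (b (a (l 16953152) (l 16966608)) (l 16934824))))))), by decide +kernel⟩

def k2_pm_101 : ∃ t, chk3 f_pm_101 t 2 7 1 = true :=
  ⟨(a (a (b (b (a (b (a (l 57075986647) (l 59760356935)) (a (l 16713984) (l 16727872))) (b (a (b (l 16770472) (l 16756944)) (c (l 16801432) (l 16730672))) (a (l 16735392) (l 16737760)))) (a (b (l 16688176) (l 16651512)) (a (l 16686392) (l 16688384)))) (a (b (l 16587632) (l 16483696)) (b (a (l 16604992) (l 16605408)) (l 16499240)))) (b (b (a (b (a (c (l 16808064) (l 16734456)) (c (l 16816720) (l 16740736))) (a (l 16743176) (l 16751032))) (b (a (l 16788184) (l 16798912)) (a (l 16760848) (l 16772224)))) (a (b (l 16715176) (l 16678944)) (b (l 16735928) (l 16700824)))) (a (b (l 16613968) (l 16503568))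 (b (l 16636968) (l 16525752))))) (b (a (b (a (b (a (l 16812952) (l 16830184)) (l 16796448)) (b (l 16854864) (l 16831728))) (a (b (l 16768472) (l 16736328)) (b (l 16806808) (l 16778664)))) (b (a (b (l 16885296) (l 16863664)) (l 16902040)) (a (l 16829392) (l 16861000)))) (a (b (a (l 16677424) (l 16727264)) (a (l 16572608) (l 16634328))) (b (a (l 16772392) (l 16812208)) (a (l 16691200) (l 16742472)))))), by decide +kernel⟩

def k3_pm_101 : ∃ t, chk3 f_pm_101 t 3 1 1 = true :=
  ⟨(b (a (b (l 1) (a (b (l 1) (l 3)) (l 1))) (l 1)) (a (b (b (a (l 3) (l 3)) (a (b (a (b (c (l 235854782823) (l 221896005687)) (a (l 17009696) (l 17022912))) (b (a (l 89289024775) (l 17085408)) (l 17041176))) (a (b (l 16985656) (l 16959264)) (l 16993824))) (b (a (b (a (l 17096680) (l 17106456)) (l 17061848)) (l 315177774615)) (a (l 17011424) (l 17023664))))) (b (a (b (a (l 16926040) (l 16946000)) (a (l 16888000) (l 16909808))) (b (l 16986960) (l 16930320))) (a (b (a (l 16846696) (l 16875104)) (a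 (l 16788328) (l 16827928))) (b (l 16903216) (l 16871336))))) (b (a (b (l 1) (b (l 1) (l 318935880919))) (l 1)) (b (a (b (a (l 16972200) (l 16967744)) (l 16933824)) (b (l 1) (l 16898920))) (a (a (l 16902160) (l 16896816)) (b (l 16876600) (l 16868144))))))), by decide +kernel⟩

theorem s4_pm_101 : ∃ t, chk3 f_pm_101 t 2 3 1 = true := ex3_b k1_pm_101 k2_pm_101

theorem s5_pm_101 : ∃ t, chk3 f_pm_101 t 2 1 1 = true := ex3_b k0_pm_101 s4_pm_101

theorem s6_pm_101 : ∃ t, chk3 f_pm_101 t 1 1 1 = true := ex3_a s5_pm_101 k3_pm_101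

theorem c_pm_101 : CertN 536870912 536870912 0 536870912 469762048 67108864 3 true true false .npn 1 0 1
    ndN0q1 ndN3q0 pcN1 Cut.none Ext.none :=
  certN1 (fam := true) (s1 := true) (s2 := false) (a := 1) (b := 0) (c := 1) (cn := .npn) (n1 := ndN0q1) (n2 := ndN3q0) (pc := pcN1) (cut := Cut.none) (xt := Ext.none) (P1 := 536870912) (W1 := 536870912) (P2 := 0) (W2 := 536870912) (P3 := 469762048) (W3 := 67108864) (N0 := 3)
    rfl (fun _ => rfl) s6_pm_101

noncomputable def f_pm_102 : ℕ → ℕ → ℕ → ℕ → Bool := onCell 536870912 536870912 1073741824 536870912 469762048 67108864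
    (rowN 3 1 true true false .npp 1 0 2 (qsf 536870912 536870912 0 536870912 2) ndN0q1 ndN3q0 pcN2 Cut.none Ext.none)

def k0_pm_102 : ∃ t, chk3 f_pm_102 t 1 1 1 = true :=
  ⟨(a (b (a (b (b (a (a (b (l 16408808) (l 16386288)) (b (l 16423608) (l 16404360))) (a (b (l 16426168) (l 16412888)) (b (l 16448080) (l 16439368)))) (a (a (l 2) (l 16396536)) (b (l 16427056) (l 16439264)))) (b (a (l 2) (l 16468296)) (l 2))) (b (b (b (a (a (l 16497424) (l 16563880)) (a (l 16625792) (l 16682408))) (a (l 16521016) (l 16638864))) (a (l 16597296) (l 16647728))) (a (b (l 16580224) (l 16634768)) (b (l 16690848) (l 16743088))))) (b (a (l 2) (a (l 2) (l 16807640))) (l 2))) (b (a (b (b (a (b (a (l 16734048) (l 16779936)) (l 16738112)) (a (l 16804160) (l 16832968))) (a (l 16744136) (l 16818784))) (a (b (l 16785728) (l 16835672)) (b (l 16860992) (l 16908504)))) (b (a (b (b (l 16870504) (l 16853672)) (l 16870232)) (b (a (l 16869544) (l 16852440)) (a (l 16905088) (l 16951672)))) (a (b (l 16919456)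 (l 16965304)) (b (l 16981200) (l 17018712))))) (b (a (b (l 16915776) (l 16943824)) (b (a (l 16998256) (l 17041448)) (l 17040992))) (a (b (l 16960600) (l 2)) (b (l 17051672) (l 17056744)))))), by decide +kernel⟩

theorem c_pm_102 : CertN 536870912 536870912 0 536870912 469762048 67108864 3 true true false .npp 1 0 2
    ndN0q1 ndN3q0 pcN2 Cut.none Ext.none :=
  certN1 (fam := true) (s1 := true) (s2 := false) (a := 1) (b := 0) (c := 2) (cn := .npp) (n1 := ndN0q1) (n2 := ndN3q0) (pc := pcN2) (cut := Cut.none) (xt := Ext.none) (P1 := 536870912) (W1 := 536870912) (P2 := 0) (W2 := 536870912) (P3 := 469762048) (W3 := 67108864) (N0 := 3)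
    rfl (fun _ => rfl) k0_pm_102

noncomputable def f_pm_112 : ℕ → ℕ → ℕ → ℕ → Bool := onCell 536870912 536870912 1073741824 536870912 469762048 67108864
    (rowN 3 1 true true false .dn 1 1 2 (qsf 536870912 536870912 536870912 536870912 2) ndN0q1 ndN3q1 pcN2 Cut.none Ext.none)

def k0_pm_112 : ∃ t, chk3 f_pm_112 t 1 1 1 = true :=
  ⟨(a (b (b (a (b (a (a (b (b (l 16229760) (l 16236712)) (l 16246552)) (b (l 212633533831) (l 16267112))) (a (l 216928702855) (l 1))) (a (a (l 16266824) (l 16376368)) (a (l 16370360) (l 16404240)))) (b (l 1) (a (l 222834397271) (l 1)))) (a (b (a (b (b (l 16300072) (b (l 16305088) (l 16306792))) (l 16314984)) (l 16414576)) (a (l 16325848) (l 16459904))) (a (b (l 16555328) (l 16630312)) (l 158947734583)))) (b (a (a (b (l 16323576) (l 16340296)) (b (l 16533520) (l 16601560))) (a (l 16734256) (l 16839872))) (a (b (a (a (l 16321048) (l 16464104)) (l 16849376)) (a (a (l 16379736) (l 16519320)) (l 16713824))) (b (a (l 16816432) (l 16905760))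 (a (l 16860312) (l 16939360)))))) (b (a (b (l 1) (a (l 240552318503) (l 1))) (l 1)) (b (a (b (l 16935152) (l 16969392)) (b (l 1) (l 17049664))) (b (a (l 17101280) (l 17059760)) (a (l 17021136) (l 17065744)))))), by decide +kernel⟩

theorem c_pm_112 : CertN 536870912 536870912 536870912 536870912 469762048 67108864 3 true true false .dn 1 1 2
    ndN0q1 ndN3q1 pcN2 Cut.none Ext.none :=
  certN1 (fam := true) (s1 := true) (s2 := false) (a := 1) (b := 1) (c := 2) (cn := .dn) (n1 := ndN0q1) (n2 := ndN3q1) (pc := pcN2) (cut := Cut.none) (xt := Ext.none) (P1 := 536870912) (W1 := 536870912) (P2 := 536870912) (W2 := 536870912) (P3 := 469762048) (W3 := 67108864) (N0 := 3)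
    rfl (fun _ => rfl) k0_pm_112

noncomputable def f_pm_113 : ℕ → ℕ → ℕ → ℕ → Bool := onCell 536870912 536870912 1610612736 536870912 469762048 67108864
    (rowN 3 1 true true false .nn 1 1 3 (qsf 536870912 536870912 536870912 536870912 3) ndN0q1 ndN3q1 pcN3 Cut.none Ext.none)

def k0_pm_113 : ∃ t, chk3 f_pm_113 t 1 1 1 = true :=
  ⟨(a (b (b (a (b (a (a (b (l 16431240) (l 16462784)) (l 16621984)) (b (l 16835496) (l 16864392))) (a (l 315780370343) (l 16902656))) (b (a (l 17009224) (l 17079008)) (a (l 17053320) (l 17105688)))) (a (a (l 2) (b (l 16971936) (l 2))) (b (a (l 17102456) (l 17131320)) (l 300749646759)))) (b (a (l 2) (b (l 312024021175) (l 2))) (l 2))) (b (b (a (b (l 17108512) (l 17114280)) (b (l 17077760) (l 17072016))) (b (a (l 17122536) (l 17064048)) (a (l 17131976) (l 17054264)))) (b (a (b (l 17146832) (l 17153856)) (l 4)) (l 4)))), by decide +kernel⟩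

theorem c_pm_113 : CertN 536870912 536870912 536870912 536870912 469762048 67108864 3 true true false .nn 1 1 3
    ndN0q1 ndN3q1 pcN3 Cut.none Ext.none :=
  certN1 (fam := true) (s1 := true) (s2 := false) (a := 1) (b := 1) (c := 3) (cn := .nn) (n1 := ndN0q1) (n2 := ndN3q1) (pc := pcN3) (cut := Cut.none) (xt := Ext.none) (P1 := 536870912) (W1 := 536870912) (P2 := 536870912) (W2 := 536870912) (P3 := 469762048) (W3 := 67108864) (N0 := 3)
    rfl (fun _ => rfl) k0_pm_113

noncomputable def f_pm_123 : ℕ → ℕ → ℕ → ℕ → Bool := onCell 536870912 536870912 1610612736 536870912 469762048 67108864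
    (rowN 3 1 true true false .npn 1 2 3 (qsf 536870912 536870912 1073741824 536870912 3) ndN0q1 ndN3q2 pcN3 Cut.none Ext.none)

def k0_pm_123 : ∃ t, chk3 f_pm_123 t 1 1 1 = true :=
  ⟨(a (b (b (a (b (a (a (l 16594640) (l 303365548599)) (b (l 1) (l 329136145447))) (a (l 16707992) (l 325914895607))) (b (l 1) (a (l 342558112023) (l 1)))) (a (a (l 16782400) (l 16877816)) (a (l 16984912) (l 332357763031)))) (b (a (a (l 16844616) (l 16865560)) (b (l 16952544) (a (l 16894208) (l 16935400)))) (b (a (a (l 16862280) (l 16857720)) (l 17007848)) (a (b (l 16856528) (a (l 16942440) (a (l 16850064) (l 16865440)))) (b (l 16857480) (b (l 16844576) (l 16835832))))))) (b (b (l 1) (a (a (l 326989220823) (l 1)) (l 1))) (b (a (b (a (l 17053608) (l 17115288)) (a (l 16983512) (l 17032912))) (b (l 1) (a (l 17125344) (l 1)))) (b (a (l 16934664) (a (l 224446464599) (l 17160352))) (b (a (l 16875272) (l 16889616)) (a (b (l 16848384) (l 16831032)) (l 4))))))), by decide +kernel⟩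

theorem c_pm_123 : CertN 536870912 536870912 1073741824 536870912 469762048 67108864 3 true true false .npn 1 2 3
    ndN0q1 ndN3q2 pcN3 Cut.none Ext.none :=
  certN1 (fam := true) (s1 := true) (s2 := false) (a := 1) (b := 2) (c := 3) (cn := .npn) (n1 := ndN0q1) (n2 := ndN3q2) (pc := pcN3) (cut := Cut.none) (xt := Ext.none) (P1 := 536870912) (W1 := 536870912) (P2 := 1073741824) (W2 := 536870912) (P3 := 469762048) (W3 := 67108864) (N0 := 3)
    rfl (fun _ => rfl) k0_pm_123

noncomputable def f_pm_133 : ℕ → ℕ → ℕ → ℕ → Bool := onCell 536870912 536870912 0 1230186008 469762048 67108864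
    (rowN 3 0 true true false .dn 1 3 3 (qsf 536870912 536870912 0 1230186008 3) ndN0q1 ndN3q3 pcN3 Cut.none Ext.none)

def k0_pm_133 : ∃ t, chk3 f_pm_133 t 1 1 1 = true :=
  ⟨(b (l 2) (b (l 2) (a (b (l 2) (a (b (l 2) (a (l 4) (l 2))) (l 2))) (l 2)))), by decide +kernel⟩

theorem c_pm_133 : CertN 536870912 536870912 0 1230186008 469762048 67108864 3 true true false .dn 1 3 3
    ndN0q1 ndN3q3 pcN3 Cut.none Ext.none :=
  certN0 (fam := true) (s1 := true) (s2 := false) (a := 1) (b := 3) (c := 3) (cn := .dn) (n1 := ndN0q1) (n2 := ndN3q3) (pc := pcN3) (cut := Cut.none) (xt := Ext.none) (P1 := 536870912) (W1 := 536870912) (P2 := 0) (W2 := 1230186008) (P3 := 469762048) (W3 := 67108864) (N0 := 3)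
    rfl k0_pm_133

noncomputable def f_pm_202 : ℕ → ℕ → ℕ → ℕ → Bool := onCell 0 536870912 1073741824 536870912 469762048 67108864
    (rowN 3 1 true true false .pp 2 0 2 (qsf 0 536870912 0 536870912 2) ndN0q2 ndN3q0 pcN2 Cut.none Ext.none)

def k0_pm_202 : ∃ t, chk3 f_pm_202 t 1 1 1 = true :=
  ⟨(a (b (b (b (l 1) (a (l 1) (a (l 1) (l 16619232)))) (a (b (b (l 16649336) (l 16723648)) (l 16816224)) (b (b (l 16710880) (l 16773272)) (l 16860360)))) (b (b (a (l 16912200) (l 16959624)) (a (l 4) (l 17027776))) (a (l 4) (l 4)))) (b (b (a (b (l 1) (a (l 16677912) (l 16743624))) (b (a (l 16753880) (a (b (l 16800128) (l 16823376)) (l 16871568))) (a (b (l 16806544) (l 16844200)) (a (l 16876872) (l 16927288))))) (a (b (a (l 16805056) (l 16855720)) (l 16939168)) (b (a (l 16918992) (l 17027544)) (l 17120720)))) (b (b (a (l 17052752) (l 17079688)) (a (l 17055024) (l 17061976))) (a (b (l 17008520) (l 16977736)) (b (l 17049488) (l 17037080)))))), by decide +kernel⟩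

theorem c_pm_202 : CertN 0 536870912 0 536870912 469762048 67108864 3 true true false .pp 2 0 2
    ndN0q2 ndN3q0 pcN2 Cut.none Ext.none :=
  certN1 (fam := true) (s1 := true) (s2 := false) (a := 2) (b := 0) (c := 2) (cn := .pp) (n1 := ndN0q2) (n2 := ndN3q0) (pc := pcN2) (cut := Cut.none) (xt := Ext.none) (P1 := 0) (W1 := 536870912) (P2 := 0) (W2 := 536870912) (P3 := 469762048) (W3 := 67108864) (N0 := 3)
    rfl (fun _ => rfl) k0_pm_202

noncomputable def f_pm_203 : ℕ → ℕ → ℕ → ℕ → Bool := onCell 0 536870912 1610612736 536870912 469762048 67108864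
    (rowN 3 1 true true false .up 2 0 3 (qsf 0 536870912 0 536870912 3) ndN0q2 ndN3q0 pcN3 Cut.none Ext.none)

def k0_pm_203 : ∃ t, chk3 f_pm_203 t 1 1 1 = true :=
  ⟨(a (l 4) (b (b (b (a (l 4) (l 17022896)) (l 17153624)) (l 4)) (l 2))), by decide +kernel⟩

theorem c_pm_203 : CertN 0 536870912 0 536870912 469762048 67108864 3 true true false .up 2 0 3
    ndN0q2 ndN3q0 pcN3 Cut.none Ext.none :=
  certN1 (fam := true) (s1 := true) (s2 := false) (a := 2) (b := 0) (c := 3) (cn := .up) (n1 := ndN0q2) (n2 := ndN3q0) (pc := pcN3) (cut := Cut.none) (xt := Ext.none) (P1 := 0) (W1 := 536870912) (P2 := 0) (W2 := 536870912) (P3 := 469762048) (W3 := 67108864) (N0 := 3)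
    rfl (fun _ => rfl) k0_pm_203

end Pool.Agent.Strip051.G.I7_16_1_2.Tab.C.NA03

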