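import Pool.Agent.Strip051.G.I7_16_1_2.Tab

/-! # Certificates N10 (generated) -/

set_option linter.all false
set_option maxRecDepth 100000

namespace Pool.Agent.Strip051.G.I7_16_1_2.Tab.C.NB00

open Pool.Agent.Strip051.PB Pool.Agent.Strip051.PB.T
open Pool.Agent.Strip051.G.I7_16_1_2.Tab

noncomputable def cut_pp_012 : Cut := Cut.of [[⟨0, 0, 0, 67108864⟩, ⟨1, 1, 0, 67108864⟩, ⟨2, 1, 0, 67108864⟩]]

noncomputable def f_pp_012 : ℕ → ℕ → ℕ → ℕ → Bool := onCell 536870912 536870912 0 536870912 469762048 67108864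
    (rowN 3 2 false true true .pnp 0 1 2 (qsf 0 536870912 0 536870912 1) ndN0q0 ndN0q2 pcN1 cut_pp_012 Ext.none)

def k0_pp_012 : ∃ t, chk3 f_pp_012 t 4 1 1 = true :=
  ⟨(b (b (l 2) (l 3)) (l 3)), by decide +kernel⟩

def k1_pp_012 : ∃ t, chk3 f_pp_012 t 5 1 1 = true :=
  ⟨(b (b (a (b (a (a (l 2) (a (l 2) (b (l 16827488) (l 16786296)))) (b (a (l 16839248) (l 16846336)) (a (b (l 16822792) (l 16811680)) (l 16830432)))) (a (b (a (l 2) (a (l 2) (b (b (l 16795272) (a (b (l 16790880) (l 76940335447)) (l 16791880))) (b (a (l 3) (l 75866591063)) (l 3))))) (l 3)) (b (a (b (a (l 16797856) (l 16803800)) (a (b (a (l 64592325479) (l 16791784)) (a (l 3) (l 74255977719))) (b (l 16795568) (a (l 64055460087) (l 16791752))))) (b (l 16815336) (a (l 16798760) (l 16806120)))) (a (b (a (l 3) (b (a (l 3) (l 72645364423)) (l 3))) (l 3)) (c (b (a (b (l 53318012871) (l 82845915111)) (l 46875570791)) (a (l 3) (l 89288403143))) (b (a (b (l 52244274375) (l 82845903191)) (l 42580590583)) (a (l 3) (l 89288391623)))))))) (b (a (b (l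 16844024) (l 16809368)) (b (l 16834784) (l 16823352))) (a (a (b (l 16816928) (b (a (l 16800472) (l 16806672)) (a (b (a (l 16789056) (l 16792200)) (a (l 90898969463) (l 71034773015))) (b (l 16797952) (l 44191209191))))) (b (l 16816960) (a (l 16804408) (l 16804976)))) (a (b (l 16814640) (l 16804336)) (b (l 16810608) (l 16801920)))))) (a (l 3) (b (a (b (a (b (a (l 3) (b (a (l 88751485223) (l 65129180759)) (l 3))) (l 3)) (b (a (b (l 16791280) (a (l 77477195543) (l 65129189575))) (l 16784960)) (a (l 3) (b (a (l 81772186023) (l 16786256)) (l 3))))) (l 3)) (b (a (b (l 16796784) (a (b (l 16791992) (l 87140909831)) (l 16791752))) (a (l 16794288) (l 16794408))) (a (b (a (l 105931367271) (b (l 80161587671) (l 93046486407))) (l 3)) (b (a (b (l 16789088) (l 65666071799)) (l 16789496)) (a (l 107542000263) (b (l 62981716855) (l 93583336567))))))) (l 3)))) (l 3)), by decide +kernel⟩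

def k2_pp_012 : ∃ t, chk3 f_pp_012 t 6 4 1 = true :=
  ⟨(a (a (b (b (l 16822248) (l 16813048)) (a (l 16803616) (l 16799736))) (b (b (l 16805640) (l 16798536)) (a (l 16794048) (l 16786512)))) (b (a (b (l 16781544) (l 16776456)) (b (l 16749976) (l 16746880))) (a (a (l 16777048) (l 16765576)) (a (l 16752224) (l 16737080))))), by decide +kernel⟩

def k3_pp_012 : ∃ t, chk3 f_pp_012 t 6 5 1 = true :=
  ⟨(a (b (a (b (a (l 16793976) (l 16791736)) (a (b (l 16790192) (a (b (l 16787928) (a (l 74792862599) (l 16786368))) (l 16787920))) (b (l 16788976) (l 16787568)))) (a (b (l 16787624) (l 16785384)) (b (l 16781632) (l 16780448)))) (a (b (a (b (c (a (l 101636402151) (b (l 35601256311) (l 76940342071))) (a (l 102710138183) (b (l 16772872) (a (l 94120183111) (l 87140886055))))) (l 3)) (b (a (b (l 16786560) (a (l 36138127671) (l 16785520))) (l 16786104)) (a (b (a (l 87677777031) (b (l 16784080) (l 87140896135))) (l 3)) (b (c (l 16787280) (l 16782584)) (a (l 81772176503) (b (l 16783920) (l 88751498679))))))) (l 3))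 (b (a (b (l 16805624) (a (c (l 16776992) (l 16782120)) (l 16783976))) (a (l 16782168) (l 16779776))) (a (b (a (a (c (l 101636422455) (l 101636396343)) (b (b (l 16783672) (l 75329726807)) (l 100562656871))) (b (c (l 16786208) (l 16781520)) (a (b (l 71034759655) (l 87140885127)) (b (l 16783328) (l 66202920967))))) (a (l 3) (b (a (l 3) (l 103247011511)) (l 3)))) (b (a (c (l 16785784) (l 16780520)) (l 16781464)) (a (b (a (b (l 60834210615) (c (l 77477190999) (l 61907917015))) (c (l 16784664) (l 16780952))) (a (l 3) (a (l 96804560407) (b (l 87677753191) (l 3))))) (b (l 16782328) (b (c (l 16779096) (l 16780608)) (a (a (l 93583338407) (l 79624687495)) (l 16782168)))))))))) (b (a (b (a (l 16773680) (l 16763664)) (a (l 16773472) (l 16764424))) (b (a (l 16751728) (l 16738000)) (a (l 16753424) (l 16740600)))) (a (b (a (b (l 16774440) (l 16775776)) (l 16788032)) (a (b (a (l 16779056) (l 16776000)) (a (c (l 16783616) (l 16778488)) (l 16778424))) (b (l 16770360) (a (l 16775160) (l 16771304))))) (a (b (l 16757016)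 (b (l 16761056) (l 16785480))) (b (l 16745096) (b (l 16749816) (l 16753736))))))), by decide +kernel⟩

def k4_pp_012 : ∃ t, chk3 f_pp_012 t 7 2 1 = true :=
  ⟨(a (b (b (a (b (l 16711800) (l 16710512)) (b (l 16668024) (l 16668400))) (a (a (l 16720296) (l 16701960)) (a (l 16682176) (l 16661104)))) (a (b (a (b (l 16722568) (l 16726040)) (l 16728776)) (b (a (l 16731400) (l 16716048)) (a (b (l 16736776) (l 16741128)) (l 16745448)))) (b (a (l 16710664) (l 16691200)) (b (a (l 16699152) (l 16680880)) (a (l 16729384) (l 16711920)))))) (b (a (b (a (l 16633128) (l 16608536)) (a (l 16638904) (l 16615760))) (b (a (l 16583320) (l 16557728)) (a (l 16591880) (l 16567504)))) (a (b (a (l 16691512) (l 16669848)) (a (b (l 16661376) (l 16693224)) (b (l 16640840) (l 16673464)))) (b (a (b (l 16601216) (l 16609344)) (b (l 16577816) (l 16586632))) (a (b (l 16619464) (l 16652856)) (b (l 16618440) (a (l 16616008) (l 16605264)))))))), by decide +kernel⟩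

def k5_pp_012 : ∃ t, chk3 f_pp_012 t 12 6 1 = true :=
  ⟨(b (a (l 3) (b (a (l 3) (b (a (l 3) (b (a (l 3) (b (a (l 98952043879) (l 44728062855)) (l 97341431207))) (l 3))) (l 3))) (l 3))) (l 3)), by decide +kernel⟩

def k6_pp_012 : ∃ t, chk3 f_pp_012 t 26 12 1 = true :=
  ⟨(b (a (b (a (b (a (b (l 16781968) (a (l 90898977495) (l 37748742551))) (l 16781672)) (c (a (l 103783884279) (b (a (l 57612964679) (l 16783080)) (l 88214633575))) (a (l 98415170871) (b (l 42043702519) (l 84993398743))))) (b (l 16790808) (a (b (l 16781440) (c (a (l 49559901159) (l 16782952)) (l 16774760))) (l 16780904)))) (a (l 3) (b (a (b (a (l 96267689415) (c (l 67276640855) (l 65129153015))) (l 3)) (b (c (l 35064386215) (l 16779840)) (a (c (l 90898961719) (l 87140861431)) (a (l 94120199751) (l 74792845991))))) (l 3)))) (b (a (c (l 16780864) (l 16775912)) (l 16795848)) (b (a (a (c (l 27548193719) (l 16779384)) (l 16779960)) (l 16788224)) (a (a (b (c (a (l 82845919495) (l 52244254279)) (a (l 104320751143) (l 16779592))) (l 3)) (b (c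 (l 16782296) (l 16779344)) (a (c (b (l 56002352951) (l 90898961703)) (b (l 16779416) (l 89288349607))) (c (l 45264933383) (l 16779512))))) (c (a (l 16781856) (l 16780768)) (l 16777872)))))) (a (l 3) (b (a (a (l 3) (a (l 3) (b (c (l 108078850999) (l 117742502727)) (l 3)))) (b (b (a (c (a (b (l 16781728) (l 75329707303)) (l 16781872)) (a (b (l 16779416) (l 71034734375)) (l 16779344))) (l 16780080)) (a (a (l 3) (c (b (l 68350383447) (l 3)) (l 83382786263))) (a (b (l 16780440) (c (l 62444802919) (l 58149831815))) (l 16780344)))) (a (l 3) (b (a (c (l 107541958839) (l 106468213463)) (c (b (l 56539222615) (l 93046444759)) (b (l 16779152) (l 94120189095)))) (l 3))))) (l 3)))), by decide +kernel⟩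

def k7_pp_012 : ∃ t, chk3 f_pp_012 t 27 12 1 = true :=
  ⟨(b (a (b (c (l 16792856) (l 16786240)) (a (c (l 16777536) (l 16772800)) (l 16781272))) (b (a (l 16760976) (l 16755344)) (c (l 16787336) (l 16781208)))) (a (b (b (a (c (l 16785456) (l 16776736)) (l 16785024)) (a (b (a (a (c (c (l 44728061383) (l 16780856)) (l 16779184)) (l 16780048)) (l 16779152)) (a (c (a (l 97341427303) (b (l 16781256) (a (l 94657057495) (l 66202900519)))) (a (l 96267687303) (b (l 16779120) (l 71571604695)))) (c (c (l 16781912) (l 16780568)) (l 16778728)))) (c (l 16789344) (l 16775432)))) (a (b (a (l 3) (a (b (b (c (a (l 89288352679) (l 58686707223)) (l 65129153207)) (l 3)) (l 3)) (b (c (b (l 16781160) (c (l 62981672887) (l 59223574599))) (b (l 16778960) (l 56539218311))) (c (l 110226334055) (l 110763180727))))) (l 3)) (b (a (b (c (l 16780872) (l 16778344)) (c (a (b (c (l 55465479911) (l 53317994535)) (l 94120196599)) (c (b (l 16781576) (l 49559900119)) (l 40433091527))) (a (b (l 50096767591) (l 92509570263)) (l 37748735687))))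 (c (l 16780032) (l 16777248))) (a (b (a (l 3) (a (l 3) (b (c (l 72645350695) (l 68887250695)) (l 3)))) (l 3)) (b (c (a (b (l 43117449927) (a (l 93583315255) (l 64592286391))) (l 16780728)) (a (b (l 16778832) (l 95193934135)) (l 16778568))) (a (l 3) (c (b (a (l 84456510167) (l 53317997399)) (l 109152571031)) (b (l 87140870455) (l 109152568007))))))))) (b (c (a (l 16773584) (l 16768696)) (a (l 16769128) (l 16763728))) (a (b (c (l 16787792) (l 16773944)) (a (b (c (l 16779928) (l 16777368)) (c (a (b (l 16780640) (a (c (l 71571608247) (l 69960993863)) (l 16780528))) (l 16780392)) (a (b (l 16778600) (l 72645354471)) (l 16778192)))) (c (l 16778776) (l 16776008)))) (c (b (l 16772736) (l 16786048)) (b (l 16768784) (l 16782784))))))), by decide +kernel⟩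

def k8_pp_012 : ∃ t, chk3 f_pp_012 t 13 13 1 = true :=
  ⟨(a (l 3) (b (a (l 3) (b (a (b (a (b (a (c (c (l 111300065927) (l 111836945671)) (l 112910685335)) (c (b (c (a (l 62981673159) (l 16781000)) (l 48486155511)) (a (l 3) (c (l 79624672631) (l 78014057783)))) (b (l 45264928775) (l 88214613383)))) (l 3)) (b (c (a (c (b (l 16780920) (l 44728061175)) (l 36674994679)) (l 16779960)) (c (l 26474444967) (l 16777680))) (b (c (a (a (l 100562636503) (c (l 69424123911) (l 68350380359))) (c (l 16780848) (l 16779856))) (a (a (l 100025762791) (l 66739766183)) (l 16778504))) (a (l 3) (c (a (b (l 76940318295) (l 3)) (c (l 56002350823) (l 53317994679))) (a (l 85530249607) (l 16777240))))))) (l 3)) (b (c (a (c (b (l 16779392) (l 16780392)) (l 16778680)) (l 16777288)) (a (c (l 16777504) (l 16776400)) (l 16774560))) (a (b (c (a (b (a (b (l 64592286727) (l 95193927559)) (c (l 47412416615) (l 16779728))) (a (l 3) (l 98415163207))) (b (l 16780072) (a (b (l 16780080) (l 79624672679)) (l 16780120)))) (a (b (a (l 74255958775)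 (l 16778528)) (l 103783874567)) (c (b (l 16778624) (l 46875540567)) (l 29158792583)))) (a (l 3) (a (l 3) (b (b (c (c (l 72645350135) (l 71034735767)) (l 16778360)) (l 3)) (l 3))))) (b (c (l 16784512) (l 16777120)) (c (a (b (c (a (b (l 16780512) (l 66202898967)) (l 16780496)) (l 42043704183)) (a (l 106468226583) (b (l 53854868167) (l 87677734759)))) (c (b (l 16780192) (l 38285610071)) (l 16779376))) (a (b (c (l 16778808) (l 16778056)) (a (l 107005084391) (l 94120190855))) (l 27011318103))))))) (b (a (l 3) (a (l 3) (b (b (a (l 3) (c (a (b (c (l 81772155975) (l 80161541335)) (l 3)) (c (b (l 16780336) (l 74255962535)) (l 53854864871))) (a (b (l 78550927159) (l 3)) (l 49559896439)))) (l 3)) (l 3)))) (l 3)))) (l 3))), by decide +kernel⟩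

def k9_pp_012 : ∃ t, chk3 f_pp_012 t 6 7 1 = true :=
  ⟨(l 3), by decide +kernel⟩

def k10_pp_012 : ∃ t, chk3 f_pp_012 t 14 12 1 = true :=
  ⟨(a (a (a (b (b (l 16749256) (l 16754608)) (b (l 16781464) (c (l 16779512) (l 16775392)))) (b (b (l 16742720) (l 16748280)) (b (l 16754376) (c (l 16763320) (l 16758792))))) (a (b (l 16759648) (b (l 16747816) (c (l 16757120) (l 16752248)))) (b (l 16752392) (b (l 16740848) (c (l 16750472) (l 16745328)))))) (a (a (b (l 16744760) (b (l 16733496) (l 16761640))) (b (l 16715792) (c (l 16753528) (l 16747504)))) (b (b (l 16699808) (l 16727408)) (a (b (l 16717712) (l 16725224)) (b (l 16709320) (l 16717000)))))), by decide +kernel⟩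

def k11_pp_012 : ∃ t, chk3 f_pp_012 t 56 52 1 = true :=
  ⟨(a (c (b (l 16784136) (a (c (l 16778592) (l 16777336)) (l 16775576))) (a (b (l 16771888) (l 16786088)) (l 16781488))) (c (b (l 16768160) (l 16782048)) (b (l 16764528) (l 16779008)))), by decide +kernel⟩

def k12_pp_012 : ∃ t, chk3 f_pp_012 t 112 53 1 = true :=
  ⟨(b (a (b (c (a (b (l 16779816) (a (b (c (l 67276640295) (l 16779336)) (l 96804539799)) (c (b (l 16780288) (l 54928609415)) (l 16779440)))) (l 16779408)) (a (b (l 16778112) (a (l 101099511671) (l 16778344))) (l 16777552))) (a (a (l 3) (c (c (l 115595032567) (l 117205643911)) (l 135459242631))) (a (b (c (b (l 47412417191) (a (l 98415152631) (l 73182221335))) (l 87677740999)) (l 3)) (c (b (l 36674998631) (b (c (l 74792832935) (l 73719089703)) (l 3))) (b (l 16778232) (b (l 73182217687) (l 3))))))) (c (b (l 16777944) (a (a (b (l 16779576) (a (b (l 16779720) (l 78014059671)) (l 41506836807))) (l 16779464)) (l 16778840))) (b (l 16775784) (a (c (b (l 16778064) (l 38285605703)) (l 30232539623))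 (l 16776960))))) (a (l 3) (b (a (b (c (a (b (l 98952028487) (l 3)) (b (c (l 53854867271) (l 16779248)) (c (l 91435831335) (l 90362088247)))) (a (l 112373793383) (c (l 74255968391) (l 94657059623)))) (l 3)) (c (b (c (a (l 40969964695) (l 16779904)) (l 16779184)) (b (a (a (l 96804539687) (l 73182220903)) (l 16779600)) (a (l 3) (a (l 88214607031) (l 56002351639))))) (b (l 16778056) (c (a (l 95730801159) (l 49559895607)) (l 82309024679))))) (l 3)))), by decide +kernel⟩

def k13_pp_012 : ∃ t, chk3 f_pp_012 t 113 53 1 = true :=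
  ⟨(b (a (c (l 16781592) (l 16784528)) (a (l 16783560) (l 16782112))) (a (b (c (c (a (l 16779624) (l 16778688)) (l 16778232)) (c (l 16777336) (l 16776512))) (a (a (b (c (b (c (a (l 77477187943) (l 16779872)) (l 56539220071)) (c (l 100025765527) (l 100025764279))) (b (l 51707380919) (l 99488891751))) (l 3)) (b (c (c (b (l 16779904) (l 52244254231)) (l 41506833671)) (l 36674994759)) (c (b (c (a (l 3) (l 82309026151)) (l 91435829911)) (l 3)) (l 104320737623)))) (c (b (l 16779176) (a (b (c (l 45801803463) (l 16779120)) (c (a (l 97341411047) (l 72108478407)) (l 82309023959))) (c (l 16779808) (l 16779048)))) (a (b (l 16777832) (a (l 98415156391) (l 43654316791))) (l 16777712))))) (c (c (b (l 16776912) (l 16778512)) (l 16781928)) (c (l 16775704) (l 16774784))))), by decide +kernel⟩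

def k14_pp_012 : ∃ t, chk3 f_pp_012 t 57 26 1 = true :=
  ⟨(c (b (a (b (l 16762128) (l 16765656)) (l 16778424)) (a (b (l 16779800) (a (l 16785008) (l 16771592))) (b (l 16763016) (l 16777400)))) (b (a (c (l 16761072) (l 16780264)) (l 16763880)) (a (b (l 16776896) (c (l 16781768) (l 16780656))) (b (l 16759752) (l 16774648))))), by decide +kernel⟩

def k15_pp_012 : ∃ t, chk3 f_pp_012 t 56 27 1 = true :=
  ⟨(b (a (l 3) (b (a (b (a (l 3) (a (l 3) (b (c (b (c (a (l 87677735479) (l 54928609175)) (l 73719088935)) (l 109152575367)) (b (l 73719087879) (l 109689438855))) (l 3)))) (l 3)) (b (b (c (a (a (b (l 16779392) (a (a (l 84456510151) (l 70497866247)) (l 16779376))) (l 16779248)) (l 16778608)) (a (c (a (l 42043702775) (l 16778144)) (l 32916895159)) (l 16776992))) (a (c (a (b (c (l 100562636247) (l 100025764151)) (l 3)) (b (c (c (l 50633640903) (l 49023027623)) (l 16779016)) (c (a (l 3) (l 81235283863)) (l 91435829799)))) (a (l 112373806423) (b (l 16778120) (l 115595028855)))) (c (c (a (l 37211867735) (l 16779416))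 (l 16778824)) (l 25400705687)))) (a (l 3) (b (b (c (a (a (l 96267673719) (a (l 77477188007) (l 53317996999))) (l 16779288)) (a (l 81772159367) (l 16778008))) (a (l 3) (c (c (a (l 85530251287) (l 51707383447)) (a (l 84993378967) (l 16778928))) (c (l 72645345831) (l 16777800))))) (c (c (l 126332445191) (l 128479932903)) (l 146196660999)))))) (l 3))) (l 3)), by decide +kernel⟩

def k16_pp_012 : ∃ t, chk3 f_pp_012 t 114 54 1 = true :=
  ⟨(a (b (c (b (l 16782496) (a (b (c (l 16779360) (l 16778584)) (a (b (c (a (l 74792832551) (l 16779568)) (l 51707381127)) (c (a (l 3) (l 89825218167)) (l 100025764039))) (c (c (b (l 16779696) (l 47949286039)) (l 39359350135)) (l 37211865959)))) (c (l 16778744) (l 16777912)))) (b (l 16775456) (a (b (l 16777536) (a (b (l 47412413143) (c (l 100025763047) (l 101099505287))) (l 32380027223))) (l 16776776)))) (b (a (a (l 3) (b (b (c (a (l 105931344551) (b (l 56002351495) (l 93583315783))) (l 112373799463)) (l 3)) (l 3))) (a (b (b (c (c (l 16779512) (l 16778864)) (l 16777984)) (c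 (c (a (l 94657056167) (l 57612962999)) (a (l 95193926823) (l 16778816))) (l 102173251831))) (l 3)) (c (b (l 16779048) (b (c (a (l 82845896151) (l 16779432)) (c (l 57612960727) (l 56002347511))) (c (l 108078833831) (l 108615698407)))) (b (l 16777752) (b (c (l 53854863463) (l 16777768)) (l 109152578375)))))) (l 3))) (b (c (c (l 16781224) (l 16774960)) (l 16781400)) (b (c (a (a (b (l 16778632) (a (b (l 16779096) (b (l 16779088) (l 83382767847))) (l 16779064))) (l 16778480)) (l 16777584)) (a (c (c (l 16777856) (l 16777528)) (l 16777056)) (l 16776032))) (a (b (c (a (a (l 3) (b (b (l 76403445847) (l 102710119095)) (l 3))) (b (c (l 43654318759) (l 16778776)) (a (c (l 103783861319) (l 103783860279)) (b (l 50633642167) (l 88751476967))))) (a (l 130090538615) (b (l 16777952) (l 109689444807)))) (l 3)) (c (b (c (c (l 16779296) (l 16778936)) (l 16778424)) (b (a (c (a (l 91435830599) (l 52781124551)) (a (l 91435829767) (l 16778728))) (l 16778944)) (a (c (l 116131892071) (l 117205632855)) (a (b (l 53854867431) (l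 94120186279)) (l 41506836199))))) (b (l 16777480) (a (b (c (l 98952026855) (l 97341412647)) (l 118279373303)) (c (b (l 16778048) (l 49559895879)) (l 37748733623))))))))), by decide +kernel⟩

def k17_pp_012 : ∃ t, chk3 f_pp_012 t 115 54 1 = true :=
  ⟨(a (b (c (l 16782984) (l 16780824)) (c (b (l 16780744) (c (a (l 16778456) (l 16777176)) (l 16779672))) (c (b (l 16774160) (l 16776312)) (l 16777120)))) (b (c (l 16769352) (l 16767000)) (c (c (l 16774000) (l 16773016)) (l 16776888)))), by decide +kernel⟩

def k18_pp_012 : ∃ t, chk3 f_pp_012 t 114 55 1 = true :=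
  ⟨(b (a (l 3) (b (a (l 3) (a (l 3) (b (c (b (c (a (l 3) (l 95730797703)) (l 106468225143)) (l 3)) (l 136532994791)) (l 3)))) (l 3))) (l 3)), by decide +kernel⟩

def k19_pp_012 : ∃ t, chk3 f_pp_012 t 115 110 1 = true :=
  ⟨(a (b (a (a (b (c (a (b (c (l 55465478903) (l 16778672)) (l 113447536967)) (b (l 16778952) (c (b (l 58149834087) (l 98952024295)) (l 82309023559)))) (b (l 39359349335) (c (l 96267674535) (l 116668764791)))) (l 3)) (c (b (c (c (l 16778024) (l 16779016)) (l 16778552)) (b (c (a (l 100025764823) (b (l 16779200) (l 81772154247))) (a (l 101099506983) (l 54928606855))) (l 3))) (b (l 16777712) (b (c (l 104857605447) (l 69424114759)) (l 3))))) (a (c (b (l 16778416) (b (l 16778856) (c (a (b (l 61907930327) (l 104857604487)) (l 46875544279)) (a (l 86067119911) (l 16778624))))) (b (l 16777152) (c (b (l 16778008) (l 74792834503)) (l 29158799335)))) (c (c (l 16778608) (l 16777920)) (l 16776976)))) (a (l 3) (b (c (a (a (l 3) (c (l 117205638967) (l 118816255959))) (a (b (c (b (l 16779136) (l 86067121495))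 (l 57612961223)) (l 3)) (b (l 16778856) (c (b (l 77477186695) (l 107541957431)) (l 89825216471))))) (a (l 141901693479) (c (b (l 44728057527) (l 103783869671)) (l 86067121063)))) (l 3)))) (b (c (c (l 16776992) (l 16776208)) (l 16780368)) (a (c (a (b (c (c (b (l 16779112) (l 43117446935)) (l 35064381895)) (l 32916898039)) (b (c (a (l 108078828247) (b (l 16779080) (l 90362088871))) (a (l 108615698215) (l 75866572087))) (l 3))) (b (l 16778312) (b (c (l 16779056) (l 16778488)) (c (a (b (l 81772153927) (l 3)) (l 51707382087)) (a (l 94120183927) (l 16778536)))))) (b (c (l 16777696) (l 16777168)) (a (b (a (l 112373796951) (l 75866571415)) (l 3)) (b (l 16777728) (b (l 47412413047) (l 112373798391)))))) (c (c (l 16778176) (l 16777504)) (l 16779208))))), by decide +kernel⟩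

def k20_pp_012 : ∃ t, chk3 f_pp_012 t 115 111 1 = true :=
  ⟨(a (l 3) (b (a (b (a (l 3) (c (c (l 128479928199) (l 130090534743)) (l 147270402695))) (l 3)) (a (b (c (a (b (c (b (l 16779016) (l 94657056311)) (l 79087797479)) (l 3)) (b (l 39359352007) (c (b (l 85530250295) (l 3)) (l 98415151559)))) (b (a (l 101099508919) (l 16777800)) (l 111300056679))) (l 3)) (b (c (a (b (l 16778640) (a (b (l 16778744) (l 88214605591)) (l 44191190343))) (l 16778584)) (c (l 32916896455) (l 16777432))) (b (c (a (l 116131896503) (c (b (l 56539220823) (l 99488894759)) (l 82309022919))) (a (l 117742502359) (l 104320733991))) (l 3))))) (l 3))), by decide +kernel⟩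

def k21_pp_012 : ∃ t, chk3 f_pp_012 t 29 26 1 = true :=
  ⟨(a (c (b (a (l 16750560) (l 16743264)) (a (c (l 16769632) (l 16767904)) (l 16761632))) (b (a (l 16746256) (l 16738776)) (a (c (l 16766248) (l 16764664)) (c (l 16748464) (l 16767744))))) (a (c (b (l 16735584) (l 16743632)) (b (l 16730984) (l 16750424))) (b (l 16746144) (c (l 16735752) (l 16731976))))), by decide +kernel⟩

def k22_pp_012 : ∃ t, chk3 f_pp_012 t 58 27 1 = true :=
  ⟨(b (a (b (c (l 16774872) (a (l 16763552) (l 16760008))) (c (c (l 16779688) (l 16775944)) (a (l 16778736) (l 16764736)))) (b (c (l 16757376) (l 16765008)) (c (l 16772200) (a (l 16761136) (l 16757448))))) (a (b (c (a (c (l 16780272) (l 16779432)) (l 16776584)) (a (c (l 16778640) (l 16777904)) (l 16774824))) (a (b (c (a (b (l 16777904) (a (b (c (l 16777640) (l 16778416)) (a (c (b (l 89288346727) (l 3)) (l 101636376343)) (c (b (l 16778960) (l 80161540823)) (l 53317993447)))) (l 16779080))) (l 16782256)) (a (a (b (l 16777072) (b (l 16777704) (a (l 103246994151) (l 48486154823))))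 (l 16776896)) (l 16775752))) (a (b (c (a (b (l 126869314743) (l 3)) (b (a (b (a (l 81772154375) (l 16778672)) (l 105931346679)) (c (l 16778928) (l 16778432))) (a (l 3) (c (l 104857605191) (l 105394472615))))) (a (l 152102241031) (b (a (l 108078830615) (l 16777768)) (l 135996113335)))) (l 3)) (c (a (a (b (b (l 16778552) (b (l 16778656) (a (l 98415153063) (l 59760446919)))) (l 3)) (b (l 16778496) (b (b (a (l 86067121527) (l 16778624)) (l 106468220103)) (l 3)))) (b (l 16778104) (b (c (c (l 39896220887) (l 16778720)) (l 16778344)) (a (c (l 108078833175) (l 108615698007)) (c (b (l 16778848) (l 87140862663)) (l 57612960407)))))) (c (b (b (l 16777376) (l 22716349991)) (a (l 124721824551) (b (l 16777888) (a (l 111300053927) (l 54928605191))))) (b (l 16777136) (a (l 126332436599) (b (l 16777472) (l 94657053463)))))))) (b (c (l 16779920) (l 16778496)) (c (a (c (b (l 16777408) (l 16778336)) (l 16777296)) (l 16776088)) (c (l 16778576) (l 16778024)))))) (b (c (c (l 16777200) (l 16770912)) (a (l 16776496) (l 16762352)))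 (a (c (c (l 16778136) (l 16777344)) (c (l 16776592) (l 16775888))) (c (l 16774264) (l 16772608)))))), by decide +kernel⟩

def k23_pp_012 : ∃ t, chk3 f_pp_012 t 59 27 1 = true :=
  ⟨(a (c (b (c (l 16763424) (l 16761952)) (b (l 16769416) (c (l 16769328) (l 16768360)))) (b (a (l 16761768) (l 16757912)) (a (b (l 16758608) (l 16768888)) (c (l 16768320) (l 16767320))))) (b (c (l 16757576) (c (l 16752712) (l 16751288))) (b (c (l 16751304) (l 16759400)) (c (l 16763896) (c (l 16764984) (l 16764016)))))), by decide +kernel⟩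

def k24_pp_012 : ∃ t, chk3 f_pp_012 t 15 6 1 = true :=
  ⟨(a (b (a (b (c (l 16710152) (l 16702392)) (a (b (l 16700624) (l 16708480)) (b (l 16691656) (l 16699680)))) (b (c (l 16690816) (l 16683752)) (a (b (l 16682424) (l 16690624)) (b (l 16672968) (l 16681336))))) (a (b (b (a (l 16737776) (l 16708160)) (a (c (l 16727528) (l 16723752)) (c (l 16718992) (l 16715280)))) (c (b (a (l 16746880) (l 16728008)) (a (b (l 16743336) (l 16758616)) (c (l 16759072) (l 16747384)))) (b (a (l 16743872) (l 16735504)) (a (a (l 16755960) (l 16751880)) (b (l 16732568) (l 16748224)))))) (b (b (a (l 16699264) (l 16690136)) (a (c (l 16710168) (l 16706600)) (l 16720336))) (a (b (c (l 16719336) (l 16737416)) (c (l 16742064) (c (l 16737720) (l 16736624)))) (b (c (l 16710392) (l 16728648)) (c (l 16741120) (c (l 16739496) (l 16727976)))))))) (b (a (a (b (l 16651424) (c (l 16670056) (l 16665312))) (b (l 16641320) (l 16699824))) (b (b (l 16663736) (l 16608936)) (a (l 16647976) (l 16637952)))) (a (a (b (b (l 16680800) (l 16711144))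 (a (b (l 16702232) (l 16733344)) (c (l 16703912) (l 16705704)))) (b (a (l 16709944) (l 16673728)) (b (l 16690720) (l 16703624)))) (a (b (l 16674392) (c (l 16697880) (l 16698976))) (b (l 16667304) (a (l 16700520) (l 16695952))))))), by decide +kernel⟩

def k25_pp_012 : ∃ t, chk3 f_pp_012 t 28 14 1 = true :=
  ⟨(l 3), by decide +kernel⟩

def k26_pp_012 : ∃ t, chk3 f_pp_012 t 116 56 1 = true :=
  ⟨(b (b (a (l 3) (a (b (c (b (a (a (b (a (l 90362088887) (l 16778576)) (l 110763182039)) (c (l 47949285079) (l 16778360))) (l 16778360)) (c (a (l 120963736295) (a (b (l 16778800) (l 90898959095)) (l 16778768))) (a (l 122574346871) (a (c (l 60834185831) (l 59223572695)) (l 16778296))))) (a (b (a (l 113984410935) (l 16777736)) (l 141901693351)) (a (c (l 31843153511) (l 16774896)) (l 16777472)))) (b (a (l 3) (a (l 3) (c (b (c (l 80698411319) (l 80161539559)) (l 114521278343)) (l 116668765383)))) (l 3))) (c (b (l 16780288) (a (b (c (c (a (l 50096768535) (l 16778800)) (l 40969961847)) (l 38822477831)) (a (c (l 114521278711)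 (l 115595019719)) (c (b (l 16778744) (l 94120184663)) (l 98952025543)))) (c (l 16778496) (l 16777992)))) (b (l 16776616) (a (b (c (l 16777848) (l 16777456)) (a (l 117742507559) (c (l 98415153543) (l 97341410871)))) (l 16777304)))))) (a (l 3) (a (l 3) (a (l 3) (b (c (c (b (a (b (l 83382765767) (l 3)) (c (l 51707380999) (l 50096767959))) (l 126332444023)) (b (a (l 98952026871) (l 47949284007)) (l 127943050727))) (b (c (l 83382764887) (l 83919636487)) (l 146733531591))) (l 3)))))) (l 3)), by decide +kernel⟩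

def k27_pp_012 : ∃ t, chk3 f_pp_012 t 117 112 1 = true :=
  ⟨(a (b (c (c (l 16780168) (l 16780848)) (c (l 16780264) (l 16774472))) (a (c (a (a (b (b (l 16778384) (c (b (l 16778696) (l 97878281191)) (l 101099508599))) (l 3)) (b (c (l 16778560) (l 16778080)) (c (c (l 132238021559) (l 133311760343)) (l 134922377751)))) (b (l 16777888) (a (b (a (b (l 16778456) (l 88751475719)) (l 40969964103)) (c (l 120426858615) (l 122037470583))) (b (l 16778336) (c (b (l 54391736311) (l 101099506919)) (l 102710121079)))))) (c (b (a (a (l 43654318167) (l 16777648)) (l 16777160)) (a (l 133848630151) (b (l 38285605719) (l 104857601527)))) (b (a (l 33453770535) (l 16776728)) (a (l 135996113175) (b (l 16777440) (l 105394473271)))))) (a (c (c (b (l 16777464) (c (l 16778512) (l 16778264))) (l 16777440)) (c (l 16776960) (l 16776520))) (c (l 16776952) (l 16775928))))) (a (c (c (l 16780160) (l 16779512)) (c (l 16778904) (l 16773096))) (c (l 16778104) (l 16776808)))), by decide +kernel⟩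

def k28_pp_012 : ∃ t, chk3 f_pp_012 t 234 113 1 = true :=
  ⟨(b (a (l 3) (b (c (a (b (c (a (b (l 89288345783) (l 3)) (b (l 16778616) (l 78014056295))) (a (l 104320735799) (l 50633638103))) (a (l 3) (l 124184959815))) (b (l 16778176) (c (a (b (l 56002348951) (l 104320732599)) (l 16778576)) (a (l 104857604807) (l 16778152))))) (a (b (c (a (l 105394476967) (l 16776536)) (l 88214603959)) (l 151028498951)) (c (b (l 16777528) (l 52781123943)) (l 36138125223)))) (b (a (l 3) (a (l 3) (b (c (a (l 111300055223) (l 79624669799)) (l 115058151383)) (l 3)))) (l 3)))) (l 3)), by decide +kernel⟩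

def k29_pp_012 : ∃ t, chk3 f_pp_012 t 235 113 1 = true :=
  ⟨(b (c (a (b (c (l 16777680) (l 16777176)) (a (a (b (b (l 16778360) (a (l 94657055655) (l 53854866151))) (l 126869314343)) (b (l 16778248) (c (b (l 57612961431) (l 107541958311)) (b (l 16778168) (l 108078828103))))) (c (c (l 30769414375) (l 16778160)) (l 16777824)))) (c (l 16776680) (l 16776144))) (a (b (l 16776488) (a (b (c (l 16776048) (l 16777424)) (c (l 109689438935) (l 109152570151))) (l 16777224))) (l 16780656))) (a (b (a (l 3) (c (b (c (a (b (a (l 113447538151) (l 81235282119)) (l 3)) (b (l 16778520) (c (l 81772152327) (l 81772151959)))) (a (l 109689444791) (a (l 61371056663) (l 16778136)))) (a (l 3) (l 129016797959))) (b (c (a (l 111300056887) (l 50633637111)) (l 91972700583)) (l 154249724503)))) (l 3)) (c (b (a (a (b (l 16778208) (b (c (l 59223573991) (l 16778128)) (c (l 108615698407) (l 110763183015)))) (c (c (l 34527510903) (l 16778240)) (l 16777928))) (l 16777664)) (a (a (l 3) (c (a (l 137069856935) (l 135996117527)) (l 140827957751)))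 (a (b (b (l 16778280) (a (l 101099506791) (l 57076091287))) (l 131164281575)) (b (l 16778160) (c (b (c (l 60834186567) (l 59223573463)) (l 110763181975)) (b (l 57076089543) (l 113447537831))))))) (c (b (a (a (a (l 55465478503) (l 30769412903)) (l 16777544)) (l 16777024)) (a (l 141364823063) (b (l 31843154535) (l 113447535239)))) (b (a (b (l 16777112) (l 52781123559)) (l 16776632)) (a (l 144049177079) (b (l 16776088) (l 112373795751)))))))), by decide +kernel⟩

def k30_pp_012 : ∃ t, chk3 f_pp_012 t 58 57 1 = true :=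
  ⟨(l 3), by decide +kernel⟩

def k31_pp_012 : ∃ t, chk3 f_pp_012 t 59 56 1 = true :=
  ⟨(a (a (a (b (c (l 16776344) (l 16774968)) (c (b (l 16774712) (b (l 16776488) (a (a (b (l 16777880) (c (l 42043704263) (l 16778056))) (l 16777784)) (l 16777232)))) (b (l 16773624) (c (b (l 16775776) (l 16776984)) (l 16775992))))) (b (c (l 16769304) (l 16767856)) (c (c (l 16779712) (l 16779136)) (c (l 16778600) (l 16778096))))) (b (c (l 16771792) (l 16770264)) (c (c (l 16777032) (l 16776408)) (c (l 16775816) (l 16773952))))) (c (b (c (l 16766576) (l 16765696)) (a (c (l 16768112) (l 16772664)) (l 16769192))) (b (a (l 16766408) (l 16757240)) (a (c (l 16772016) (l 16771400)) (l 16767800))))), by decide +kernel⟩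

def k32_pp_012 : ∃ t, chk3 f_pp_012 t 236 114 1 = true :=
  ⟨(b (a (b (b (c (b (a (a (c (a (l 119353118183) (l 84993378343)) (l 99488892327)) (l 16778240)) (l 16777872)) (a (a (l 3) (a (l 103246990439) (l 58149832951))) (l 16778080))) (a (c (a (l 132774888055) (l 40433088711)) (l 94657055223)) (l 16777240))) (c (a (a (l 3) (l 133311765207)) (c (a (b (c (l 61907928135) (l 60297315127)) (l 112910665559)) (l 42580575079)) (a (b (l 58149831207) (l 116131892679)) (l 16778016)))) (a (l 157470950039) (a (b (l 71571607031) (l 134922374887)) (l 34527510583))))) (b (b (a (l 3) (c (c (l 132774891895) (l 134922372279)) (l 126869312983))) (l 3)) (l 3))) (c (b (c (l 16777384) (l 16776944)) (a (a (b (b (l 39896221943) (c (l 108615701847) (l 108615700903))) (l 135459248823)) (b (l 16778072) (c (b (c (l 62981669863) (l 61371056791)) (l 115058149143)) (b (l 59223572887) (l 118279376599))))) (c (c (l 21642609527) (l 16777944)) (l 16777648)))) (b (l 16778960) (c (a (b (l 40433092631) (l 116131892375)) (l 16777288)) (a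 (b (l 16777376) (l 118279372887)) (l 16776952)))))) (a (l 3) (b (b (a (l 3) (c (a (c (l 131701147383) (l 133848630407)) (b (l 39896221783) (c (l 108615701095) (l 108615700007)))) (c (a (l 135996113495) (l 42580572439)) (l 96267668215)))) (l 3)) (l 3)))), by decide +kernel⟩

def k33_pp_012 : ∃ t, chk3 f_pp_012 t 237 114 1 = true :=
  ⟨(b (a (c (a (l 16779128) (l 16775640)) (l 16777824)) (c (l 16779544) (l 16773352))) (a (c (b (a (b (l 16778536) (c (a (b (a (l 88751474471) (l 16778328)) (l 116668761815)) (c (l 43654316407) (l 16776896))) (a (b (l 59760443655) (l 119889989623)) (l 16776640)))) (l 16780040)) (c (a (b (a (l 3) (l 132774891783)) (l 3)) (b (a (b (l 16778288) (l 108615700519)) (l 16778160)) (a (l 3) (a (l 109152571639) (b (l 16778288) (l 108615699287)))))) (a (l 142975439111) (a (b (b (l 16777952) (l 109152571031)) (l 3)) (b (l 16777808) (l 98952021319)))))) (a (c (b (b (l 16777352) (a (l 98952021591) (l 16777632))) (l 145659790503)) (b (b (l 16777032) (l 56002349111)) (l 148881015495))) (b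 (l 16776680) (b (c (l 41506834487) (l 16777344)) (a (l 3) (c (l 99488893031) (l 100025763735))))))) (a (c (b (l 16776600) (c (c (l 22716350935) (l 16777824)) (l 16778208))) (c (l 16777936) (l 16776288))) (c (l 16778968) (l 16778176))))), by decide +kernel⟩

def k34_pp_012 : ∃ t, chk3 f_pp_012 t 118 115 1 = true :=
  ⟨(a (l 3) (b (a (l 3) (b (b (c (a (a (c (l 133311762631) (l 135459243079)) (c (b (l 16778248) (l 108615700615)) (l 58149832359))) (l 16778432)) (a (a (l 127406178631) (c (l 54928607095) (l 16777424))) (l 16777120))) (a (l 3) (a (c (b (a (l 112910668263) (l 16778088)) (c (l 118816245351) (l 120963728423))) (c (l 99488893239) (l 100562634631))) (c (b (l 16777952) (c (l 51170509623) (l 16777928))) (l 16776792))))) (b (a (l 3) (a (l 3) (c (c (l 133311762583) (l 135996113959)) (l 127943054775)))) (l 3)))) (l 3))), by decide +kernel⟩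

def k35_pp_012 : ∃ t, chk3 f_pp_012 t 119 114 1 = true :=
  ⟨(b (a (c (l 16776792) (l 16774424)) (c (l 16767760) (l 16771848))) (a (c (c (l 16776960) (l 16776480)) (c (l 16776040) (l 16775624))) (c (l 16775584) (l 16773264)))), by decide +kernel⟩

def k36_pp_012 : ∃ t, chk3 f_pp_012 t 119 115 1 = true :=
  ⟨(a (b (c (a (b (c (l 16777072) (l 16776688)) (a (a (b (c (b (l 16778200) (c (l 108078829447) (l 108615700071))) (l 58149833079)) (l 140291084327)) (b (l 16777880) (c (b (a (l 89825215895) (l 16778200)) (l 119353121447)) (b (l 77477186535) (l 121500599303))))) (c (c (b (l 16777616) (l 30232541751)) (l 16778360)) (l 20031998007)))) (c (l 16778560) (l 16775528))) (a (b (l 16778776) (a (b (c (l 40969963671) (l 38285608583)) (a (l 159081562615) (c (l 98952022471) (l 100562634615)))) (c (l 16777128) (l 16776840)))) (c (l 16775152) (l 16774800)))) (a (b (a (l 3) (c (c (b (a (l 133311762535) (b (l 16778152) (a (l 109689440951) (l 60297315415)))) (l 153712855095)) (b (a (l 135996119175) (l 57612962103))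 (l 157470950935))) (b (a (l 128479925687) (c (l 54928607095) (l 16777400))) (l 162302788439)))) (l 3)) (c (b (a (a (b (l 16777832) (a (c (l 127406182471) (l 129016792039)) (b (l 16778016) (l 127406183527)))) (c (c (l 24863834519) (l 16777816)) (l 16777576))) (l 16779776)) (a (b (a (l 3) (b (c (l 120963731527) (l 122037472999)) (l 3))) (l 3)) (a (b (c (c (b (l 16778184) (l 106468216743)) (l 59223574791)) (c (l 57612961767) (l 56539219687))) (l 153175983543)) (b (l 16777776) (a (c (l 126869311495) (l 128479921095)) (b (l 16777976) (l 126869311351))))))) (c (b (a (b (l 16777192) (a (l 98952022279) (l 16777520))) (l 16776656)) (a (l 147807274247) (b (a (l 53854865239) (l 16777344)) (a (l 158544691943) (l 98415151351))))) (b (a (b (l 16776920) (a (l 100562634599) (l 16777272))) (l 16776368)) (a (l 151028499303) (b (l 37211866839) (l 122574340199)))))))) (c (b (c (l 16778416) (l 16775336)) (a (a (b (l 16776280) (c (c (l 23253223415) (l 16778888)) (l 16777992))) (l 16778632)) (l 16777240))) (b (c (l 16774912)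 (l 16774512)) (a (a (c (l 8220837847) (l 16776112)) (l 16777944)) (l 16776496))))), by decide +kernel⟩

def k37_pp_012 : ∃ t, chk3 f_pp_012 t 29 29 1 = true :=
  ⟨(a (l 3) (b (a (l 3) (b (a (l 3) (b (a (b (c (a (b (b (c (a (l 119353118903) (l 16778056)) (a (l 120426860391) (l 16777776))) (a (l 3) (c (a (l 108078827767) (l 57612960695)) (l 104857604151)))) (a (l 3) (l 152639112599))) (a (b (l 16777720) (c (b (a (l 107541958215) (l 16778072)) (l 135459243399)) (b (l 44728056887) (l 137606726551)))) (c (c (l 16777200) (l 16777696)) (l 16777472)))) (a (b (a (c (l 127406178823) (l 125795567959)) (c (l 52781123447) (l 16777368))) (l 162302788487)) (b (l 16776976) (a (b (l 52244252967) (l 133311762551)) (l 16778648))))) (b (b (a (l 3) (a (l 3) (c (c (l 117742506119) (l 118816247623)) (l 108615698439)))) (l 3)) (l 3))) (c (b (c (l 16776736) (l 16776400)) (a (a (a (b (b (l 16777920) (l 124184956807)) (l 3)) (b (c (c (l 44728057991) (l 16777960)) (l 16777760)) (l 149954757863))) (b (l 16777664) (c (b (a (l 104320732199)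 (l 16778032)) (l 133848630615)) (b (l 44191186007) (l 136532984695))))) (c (c (l 21642610535) (l 16777432)) (l 16778520)))) (b (l 16777904) (a (b (c (a (l 51707381575) (l 16777256)) (l 35601253991)) (a (l 159081562647) (c (l 95730796791) (l 97341409143)))) (c (l 16776936) (l 16776688)))))) (a (l 3) (b (a (l 3) (c (c (b (b (a (a (l 125258698375) (l 102710119447)) (l 16777952)) (a (l 3) (a (l 122037472375) (l 16778024)))) (l 153175984055)) (b (a (l 123111211911) (c (l 53854865255) (l 52781123191))) (l 156934079975))) (b (a (b (l 105931344455) (l 3)) (c (l 50096768791) (l 16777336))) (l 158007823831)))) (l 3))))) (l 3))) (l 3))), by decide +kernel⟩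

def k38_pp_012 : ∃ t, chk3 f_pp_012 t 14 15 1 = true :=
  ⟨(l 3), by decide +kernel⟩

def k39_pp_012 : ∃ t, chk3 f_pp_012 t 30 28 1 = true :=
  ⟨(a (b (a (c (a (c (l 16768480) (l 16763696)) (c (l 16764496) (l 16763624))) (b (c (l 16762152) (l 16756040)) (a (l 16763824) (l 16754544)))) (b (c (l 16755368) (l 16748256)) (c (c (l 16750384) (l 16760040)) (c (l 16754008) (l 16753240))))) (a (a (b (c (c (l 16765504) (l 16770128)) (c (l 16769536) (l 16768976))) (b (c (l 16774344) (l 16770760)) (c (c (l 16777208) (l 16774152)) (c (l 16773744) (l 16773360))))) (b (c (l 16766480) (l 16763920)) (b (c (l 16765168) (l 16769368)) (c (l 16770448) (l 16769536))))) (c (b (a (l 16757200) (l 16753096)) (a (c (l 16762768) (l 16767464)) (l 16763648))) (b (a (l 16761144) (l 16751768)) (a (c (l 16766944) (l 16763832)) (c (l 16757584) (l 16757064))))))) (a (a (b (c (l 16751632) (b (l 16736704) (l 16742096))) (b (c (l 16748920) (l 16747576)) (c (l 16764744) (l 16755768)))) (b (b (l 16733344) (l 16749104)) (b (c (l 16744680)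 (l 16743336)) (c (l 16750040) (l 16754160))))) (a (b (c (l 16753496) (l 16741344)) (b (c (l 16740376) (l 16739056)) (c (l 16745760) (l 16744648)))) (b (b (l 16724624) (l 16740432)) (b (l 16745848) (c (l 16741416) (l 16740336))))))), by decide +kernel⟩

def k40_pp_012 : ∃ t, chk3 f_pp_012 t 120 116 1 = true :=
  ⟨(a (a (b (c (c (l 16778160) (l 16777808)) (c (l 16777480) (l 16774560))) (c (b (a (a (b (l 16777608) (a (b (c (l 101099506679) (l 101099506375)) (l 3)) (c (b (l 16777984) (l 120426859783)) (l 62444800071)))) (c (l 22179481623) (l 16777360))) (l 16779472)) (a (b (a (l 3) (b (c (a (l 123648085671) (l 98952022999)) (l 103246988679)) (l 3))) (l 3)) (a (a (b (c (b (l 16777960) (l 118816247031)) (l 61371058215)) (l 3)) (b (c (l 39896219767) (l 16777672)) (l 147807276743))) (b (l 16777544) (c (b (c (l 45264927479) (l 42580573495)) (l 130090536759)) (b (l 16777744) (l 132238022583))))))) (b (a (b (l 16776880) (a (b (l 47412414695) (l 124184954407)) (l 16777272))) (l 16776296)) (a (b (c (l 137069856743)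 (l 140291080551)) (l 3)) (b (c (c (l 36674995815) (l 16777304)) (l 31843157639)) (a (l 151565369863) (c (l 91435829479) (l 93583312775)))))))) (c (b (l 16776064) (a (b (l 16775928) (a (c (l 16777560) (l 16777296)) (l 16776992))) (l 16778264))) (b (l 16775360) (a (c (l 16778784) (l 16778528)) (l 16777680))))) (c (a (b (l 16771496) (a (l 16777304) (l 16773712))) (b (l 16769520) (l 16774856))) (a (b (l 16773360) (a (l 16776688) (l 16773072))) (b (l 16768720) (l 16774176))))), by decide +kernel⟩

def k41_pp_012 : ∃ t, chk3 f_pp_012 t 240 117 1 = true :=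
  ⟨(b (a (l 3) (b (c (a (c (b (a (a (l 145659790679) (c (l 104857601943) (l 105394473127))) (a (b (l 16777904) (l 115058150615)) (l 16777864))) (l 152102242135)) (b (a (b (l 99488892951) (l 3)) (c (l 49559897879) (l 48486155831))) (l 155860338103))) (b (l 16779888) (c (a (b (c (l 41506831975) (l 16776896)) (a (l 3) (l 112373796135))) (l 16777104)) (a (b (l 16777704) (l 116668761351)) (l 16777512))))) (a (b (a (b (l 98952022871) (l 3)) (c (l 45801801367) (l 16777288))) (a (l 3) (l 149954757111))) (a (b (l 16777000) (b (l 40433092743) (l 115058150199))) (l 16778192)))) (b (a (l 3) (a (l 3) (c (b (a (l 130090536631) (b (l 16777808) (l 109152570759))) (l 155323466887)) (c (l 120426856871) (l 115595020711))))) (l 3)))) (l 3)), by decide +kernel⟩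

def k42_pp_012 : ∃ t, chk3 f_pp_012 t 241 117 1 = true :=
  ⟨(b (c (c (a (b (l 16776360) (a (a (b (c (b (l 16777840) (l 65129154551)) (l 47949285287)) (l 146733532567)) (b (l 16777536) (b (l 38822478839) (l 110763181607)))) (l 16777192))) (l 16777736)) (a (b (l 16776080) (a (b (c (l 35064383335) (l 33990641287)) (a (l 149954757639) (b (l 16777664) (l 111300053063)))) (l 16776936))) (l 16777440))) (a (a (b (l 16776176) (b (c (l 31306286807) (l 16778376)) (a (l 147807274759) (b (l 16778680) (l 110763183063))))) (c (l 16778640) (l 16778408))) (c (l 16777160) (l 16776904)))) (b (a (a (l 3) (c (b (a (b (c (c (l 89825216711) (l 90362087415)) (l 90898958455)) (l 153175983175)) (c (c (b (l 16777768) (l 60834187175)) (l 45264930615)) (l 42580576135))) (c (c (l 148881019287) (l 145659790983)) (l 148344145255))) (c (b (a (l 110226311895) (l 16777408)) (l 152102241287)) (b (a (l 112373795223) (l 16777224)) (l 155860337351))))) (c (a (b (l 16779736) (c (a (b (l 16777832) (c (l 105394472967) (l 105931344007))) (l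 16777616)) (a (b (l 16777624) (l 106468215031)) (l 16777392)))) (l 16779136)) (b (l 16777656) (a (a (b (l 16777336) (a (l 144586050519) (l 88214603927))) (l 16777088)) (l 16776392))))) (a (l 3) (c (a (b (a (l 3) (c (b (a (l 121500601511) (l 52781124311)) (l 148881016023)) (b (l 86603991047) (l 152639112023)))) (l 3)) (a (b (c (c (l 43117446999) (l 41506834119)) (l 38822479655)) (b (c (l 122574341191) (l 123111212727)) (l 3))) (b (l 16777256) (b (c (l 16777120) (l 16777568)) (a (l 134385503847) (b (l 46338671799) (l 116131892567))))))) (a (b (a (l 3) (c (l 107005085015) (l 109152569671))) (l 3)) (b (c (l 25937577639) (l 16776976)) (a (b (l 120426859559) (l 3)) (c (c (l 61371057975) (l 60297315991)) (l 57076090679))))))))), by decide +kernel⟩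

def k43_pp_012 : ∃ t, chk3 f_pp_012 t 121 58 1 = true :=
  ⟨(b (b (a (c (l 16769144) (l 16768288)) (c (l 16762456) (l 16766784))) (a (a (c (l 16770248) (l 16772152)) (c (l 16768240) (l 16767480))) (c (l 16767808) (c (l 16764576) (l 16764200))))) (a (c (a (b (l 16775608) (b (l 16777672) (a (c (l 16777016) (l 16776784)) (l 16778552)))) (b (l 16773608) (c (l 16776520) (l 16776240)))) (b (a (c (l 16772528) (l 16772248)) (l 16772968)) (a (b (l 16775848) (a (l 16778432) (l 16775472))) (c (l 16775976) (l 16775728))))) (c (a (b (l 16768960) (l 16774360)) (c (l 16771112) (l 16770768))) (a (b (l 16768288) (c (l 16771312) (l 16771048))) (b (l 16766216) (l 16771728)))))), by decide +kernel⟩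

def k44_pp_012 : ∃ t, chk3 f_pp_012 t 120 59 1 = true :=
  ⟨(l 3), by decide +kernel⟩

def k45_pp_012 : ∃ t, chk3 f_pp_012 t 242 118 1 = true :=
  ⟨(b (a (b (c (b (a (c (a (b (c (l 69960992807) (l 68887250791)) (l 145659790471)) (c (l 39359350551) (l 38285608519))) (a (b (l 66202896359) (l 148881015591)) (l 35601254071))) (l 16779568)) (b (a (a (l 3) (c (l 115058149511) (l 115595020727))) (c (l 16777528) (l 16777320))) (a (l 3) (a (c (a (l 130627406855) (l 51170509271)) (l 95193925815)) (l 16777504))))) (c (a (b (a (b (l 64055412375) (l 144049177063)) (l 16777312)) (l 147807274567)) (b (l 16776632) (a (c (l 57612961447) (l 56539219463)) (l 16777064)))) (a (b (a (l 104857602375) (l 16777136)) (l 151565370007)) (b (l 16776440) (a (l 52781123335) (l 16776888)))))) (b (a (l 3) (c (a (b (l 157470950471) (l 3)) (c (b (c (l 64592283543) (l 63518541527)) (l 141364825735)) (b (l 60834187111) (l 135459242727)))) (a (l 167671497479) (c (b (l 58149832295) (l 134922372663)) (l 101099505847))))) (l 3))) (a (b (c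 (l 16778944) (l 16778520)) (c (b (c (c (l 27548190439) (l 16778032)) (l 23253223031)) (b (a (c (a (l 139217339447) (l 90898958055)) (l 109689440503)) (l 22716352775)) (a (l 3) (c (a (l 117205631623) (l 16777776)) (l 89288345655))))) (c (b (l 16777032) (a (l 133848629751) (c (l 53317994071) (l 52244252087)))) (b (l 16776864) (a (l 137606725863) (l 48486155975)))))) (c (c (l 16778120) (l 16777232)) (c (l 16777016) (l 16776824))))) (a (l 3) (b (b (a (a (l 3) (c (c (l 155323467223) (l 159618434199)) (l 161229046503))) (c (c (a (b (c (l 59223574295) (l 57612961367)) (l 126869308407)) (l 29695674151)) (a (b (l 54928606919) (l 124184955239)) (l 16777368))) (c (a (b (l 16777424) (l 126332438679)) (l 16777192)) (a (l 95730795463) (l 16777032))))) (b (a (l 3) (a (l 3) (c (c (a (l 145122919399) (l 71571605367)) (l 102710118615)) (c (l 105394472887) (l 107541956279))))) (l 3))) (l 3)))), by decide +kernel⟩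

def k46_pp_012 : ∃ t, chk3 f_pp_012 t 243 118 1 = true :=
  ⟨(b (a (c (c (l 16776624) (l 16776384)) (c (l 16775496) (l 16775280))) (c (c (l 16772640) (l 16772376)) (c (l 16774752) (l 16774520)))) (a (c (b (a (a (a (b (l 16777128) (b (l 16777576) (c (l 106468214407) (l 107541956327)))) (c (l 21105739575) (l 16777128))) (l 16778832)) (l 16777440)) (a (b (c (a (l 152639112583) (b (c (l 52781123191) (l 51707381191)) (a (l 3) (l 100562634775)))) (a (l 151565370439) (b (l 48486155879) (l 116668762503)))) (l 3)) (b (c (l 18958255799) (l 16777064)) (b (a (c (a (l 130627406823) (l 62444799735)) (l 95730796615)) (l 16777408)) (a (l 159081564503) (a (c (l 95730796503) (l 97341408951)) (l 32380029079))))))) (a (a (c (b (b (l 16776728) (l 46875543287)) (l 161765918183)) (b (b (l 16776560) (l 43654317687)) (l 166060885223))) (b (l 16777808) (b (c (b (l 16777384) (l 119889987527)) (l 90362086215)) (l 3)))) (b (l 16777056) (b (c (l 16776896) (l 16776736)) (a (b (c (l 98415150903) (l 100562634311)) (l 167671497239))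 (c (l 42043704967) (l 38285608471))))))) (b (c (c (l 16774736) (l 16774512)) (c (l 16774296) (l 16774104))) (c (c (l 16777768) (l 16777240)) (c (l 16777056) (l 16776888)))))), by decide +kernel⟩

def k47_pp_012 : ∃ t, chk3 f_pp_012 t 121 119 1 = true :=
  ⟨(a (l 3) (b (a (b (b (b (a (l 3) (a (l 3) (a (l 3) (c (c (l 122037470311) (l 123111212407)) (l 120963729847))))) (l 3)) (l 3)) (l 3)) (a (b (a (b (c (c (b (l 44728059543) (a (l 152639112167) (l 90362087335))) (b (l 16777488) (l 109689440423))) (c (b (l 16777336) (l 111836923799)) (c (l 64592283319) (l 63518541367)))) (l 3)) (c (b (c (l 16777392) (l 16777216)) (b (c (a (l 115595019911) (l 52781123143)) (l 88214602487)) (c (l 153175983223) (l 156934079319)))) (b (l 16776984) (b (c (l 90362087191) (l 91972699767)) (l 156934078935))))) (l 3)) (c (a (a (b (b (l 16776944) (b (l 16777432) (c (l 84456507287) (l 86603990647)))) (l 3)) (b (c (l 16777136) (l 16776960)) (b (b (c (l 108615698487) (l 110763181815)) (l 3)) (l 3)))) (b (l 16778648) (b (c (b (l 16778232)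 (a (l 145122919303) (l 69960992487))) (b (l 16777416) (l 101099504487))) (l 3)))) (b (a (c (c (l 22179481015) (l 16778192)) (l 16273901111)) (l 16777656)) (b (b (a (c (l 125258696839) (l 127943051175)) (l 16778192)) (a (l 3) (c (l 103246989191) (l 105931343527)))) (l 3)))))) (l 3))), by decide +kernel⟩

def k48_pp_012 : ∃ t, chk3 f_pp_012 t 61 58 1 = true :=
  ⟨(a (c (b (a (c (l 16759928) (l 16764704)) (c (l 16755728) (l 16755256))) (b (a (l 16766440) (l 16759632)) (a (c (l 16766784) (l 16769064)) (l 16767672)))) (b (a (c (l 16761632) (l 16761208)) (c (l 16754800) (l 16756984))) (a (a (b (l 16764136) (l 16767024)) (c (l 16766272) (l 16765944))) (b (l 16761488) (c (l 16761920) (l 16761600)))))) (c (b (a (l 16761712) (l 16757392)) (a (c (l 16767472) (l 16761848)) (l 16760352))) (b (a (c (l 16750536) (l 16750096)) (l 16753872)) (a (a (c (l 16757304) (l 16756960)) (l 16760232)) (l 16751760))))), by decide +kernel⟩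

def k49_pp_012 : ∃ t, chk3 f_pp_012 t 122 118 1 = true :=
  ⟨(c (a (b (a (l 16773080) (l 16773632)) (c (a (l 16776024) (l 16771344)) (a (l 16774488) (l 16771104)))) (a (b (l 16766304) (l 16771760)) (b (l 16764200) (l 16767040)))) (a (b (a (c (l 16770056) (l 16769808)) (l 16769144)) (a (c (l 16774272) (l 16774064)) (a (l 16772600) (l 16772856)))) (b (a (l 16765728) (l 16763608)) (a (a (l 16769184) (l 16768128)) (l 16767848))))), by decide +kernel⟩

def k50_pp_012 : ∃ t, chk3 f_pp_012 t 244 238 1 = true :=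
  ⟨(c (b (a (c (l 16776832) (l 16776632)) (l 16774672)) (a (a (b (c (l 16777064) (l 16776896)) (a (b (c (a (l 102710118391) (l 16777624)) (c (l 67813508775) (l 66739766823))) (c (l 140827952135) (l 144586048247))) (c (c (b (l 16777360) (l 50633639415)) (l 36674995687)) (l 32916899495)))) (c (l 16776416) (l 16776240))) (c (l 16776200) (l 16776016)))) (a (a (b (l 16776888) (b (l 16777976) (a (c (b (l 63518541479) (l 148344144391)) (b (l 61371057591) (l 152102240551))) (c (l 16778488) (l 16777048))))) (c (l 16776664) (l 16776176))) (c (c (l 16775152) (l 16775064)) (c (l 16774976) (l 16774888))))), by decide +kernel⟩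

def k51_pp_012 : ∃ t, chk3 f_pp_012 t 244 239 1 = true :=
  ⟨(a (b (c (a (b (a (l 3) (b (c (a (l 158007821287) (l 96804538279)) (l 113447536967)) (l 3))) (l 3)) (a (c (b (b (l 16777496) (a (l 122037470903) (l 58686703255))) (l 159081563623)) (b (b (l 16777344) (a (l 123111212903) (l 16777504))) (l 163376530663))) (b (l 16778432) (b (a (c (l 90898958199) (l 93046441591)) (l 27011319767)) (c (l 132774888999) (l 135996113559)))))) (a (a (l 3) (b (c (l 140291080775) (l 144586047863)) (l 3))) (a (a (b (c (l 86067118631) (l 65129154151)) (l 3)) (b (c (l 16777256) (l 16777128)) (l 164450271895))) (b (l 16776832) (c (b (l 55465477639) (l 139754209719)) (b (l 16777912) (l 132238018535))))))) (l 3)) (b (a (a (c (a (c (c (l 24326964695) (l 16777800)) (l 18421384759)) (l 16778496)) (c (l 16778072) (l 16776624))) (c (l 16777792) (l 16777488))) (c (l 16777352) (l 16776704))) (c (a (b (b (c (a (a (l 150491628423) (l 84456507175)) (l 16777408)) (a (a (l 154249724551) (l 86603990567)) (l 16777264))) (a (l 3) (c (a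 (l 107541956615) (l 16777584)) (c (l 71571605175) (l 70497863223))))) (a (l 3) (c (l 151028499831) (l 155323466871)))) (b (c (l 16776856) (l 16776704)) (c (a (b (c (l 53317994055) (l 52244252103)) (a (l 3) (l 101636376471))) (l 16777952)) (a (b (l 49023026759) (l 127406178871)) (l 16777152))))) (c (a (b (a (b (l 107541956471) (l 3)) (b (l 16777136) (l 66739767079))) (l 163913401735)) (b (l 16776568) (a (b (l 16777976) (l 119353116775)) (l 16777024)))) (a (b (a (l 138680467751) (c (l 45801801143) (l 44191188295))) (l 168208368823)) (b (l 16776440) (a (b (l 16777208) (l 122037471143)) (l 16776904)))))))), by decide +kernel⟩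

def k52_pp_012 : ∃ t, chk3 f_pp_012 t 245 119 1 = true :=
  ⟨(c (b (c (a (l 16774736) (l 16770024)) (a (l 16773208) (l 16769800))) (b (a (c (l 16774248) (l 16774072)) (l 16773376)) (a (a (a (l 16777688) (l 16777168)) (l 16776392)) (a (l 16776664) (l 16772992))))) (b (a (c (l 16773008) (l 16772496)) (c (l 16769584) (l 16769384))) (c (a (b (l 16773904) (c (l 16775408) (l 16775336))) (b (l 16771792) (l 16773264))) (a (b (l 16773744) (l 16775896)) (b (l 16771624) (l 16773112)))))), by decide +kernel⟩

def k53_pp_012 : ∃ t, chk3 f_pp_012 t 123 59 1 = true :=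
  ⟨(b (b (c (a (l 16766256) (l 16761968)) (a (c (l 16760560) (l 16760272)) (c (l 16756264) (l 16755976)))) (c (a (c (l 16769248) (l 16768968)) (l 16764824)) (a (a (l 16769656) (l 16762272)) (l 16759048)))) (b (c (a (a (l 16770416) (l 16770912)) (l 16762456)) (a (c (a (l 16767464) (l 16765328)) (l 16766512)) (l 16762648))) (c (a (a (c (l 16773408) (l 16771896)) (c (l 16768664) (l 16768464))) (a (l 16771664) (l 16769512))) (a (a (b (l 16772200) (a (l 16771592) (l 16770528))) (l 16768264)) (c (l 16765704) (l 16765512)))))), by decide +kernel⟩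

def k54_pp_012 : ∃ t, chk3 f_pp_012 t 31 14 1 = true :=
  ⟨(a (b (c (a (a (b (l 16744640) (l 16734328)) (b (l 16740120) (l 16729864))) (b (l 16712288) (l 16728320))) (a (b (l 16721240) (a (l 16734504) (l 16728808))) (b (l 16711032) (l 16730032)))) (b (a (a (b (l 16743400) (a (l 16748864) (l 16746680))) (b (l 16737688) (l 16746656))) (c (a (l 16741704) (l 16742432)) (b (l 16735920) (l 16741696)))) (a (c (b (a (l 16755120) (l 16749416)) (a (c (l 16761000) (l 16761432)) (l 16760432))) (b (a (l 16755872) (l 16754128)) (a (c (l 16761872) (l 16761664)) (l 16758712)))) (c (b (l 16749288) (a (l 16756000) (l 6))) (b (b (l 16746056) (l 16748992)) (a (l 16755632) (l 6))))))) (b (b (a (l 16712976) (l 16704560)) (a (c (l 16724360) (l 16723712)) (c (l 16716592) (l 16715704)))) (a (a (b (c (l 16737880) (l 16737432)) (b (l 16741272) (l 6))) (b (c (l 16723472) (l 16733392)) (l 6))) (b (b (l 16723536) (l 6)) (l 6))))), by decide +kernel⟩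

def k55_pp_012 : ∃ t, chk3 f_pp_012 t 60 30 1 = true :=
  ⟨(l 3), by decide +kernel⟩

def k56_pp_012 : ∃ t, chk3 f_pp_012 t 244 120 1 = true :=
  ⟨(b (a (l 3) (b (b (a (l 3) (a (l 3) (c (a (c (l 143512306743) (l 147807273799)) (b (c (l 62981670471) (l 60834186567)) (l 160155304759))) (b (c (l 96804538215) (l 99488892583)) (l 170892722807))))) (l 3)) (l 3))) (l 3)), by decide +kernel⟩

def k57_pp_012 : ∃ t, chk3 f_pp_012 t 245 240 1 = true :=
  ⟨(a (b (c (a (a (a (b (b (l 16777360) (c (l 94657054535) (l 97341408871))) (l 3)) (b (c (l 16777368) (l 16777232)) (b (c (l 117742504023) (l 120426858343)) (l 3)))) (b (l 16778240) (c (b (c (l 44191188391) (l 16777464)) (a (l 154249724791) (l 87677732631))) (b (l 39896221095) (a (l 158544691863) (l 89825216055)))))) (c (c (l 16777944) (l 16776560)) (l 16777768))) (c (a (a (b (c (l 42043704695) (l 40433091911)) (l 153175982887)) (b (l 16776728) (b (l 16777248) (l 108615698455)))) (l 16777632)) (a (b (c (l 23253222791) (l 21105739127)) (a (l 157470950007) (b (l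 16777144) (l 111300052839)))) (l 16777512)))) (a (l 3) (c (b (a (b (c (a (l 111300052935) (l 49559897559)) (a (l 113984407271) (l 16777424))) (c (l 148881015831) (l 153175982903))) (b (l 16778464) (a (c (l 72108476103) (l 69960992215)) (l 16777360)))) (a (l 3) (b (c (a (l 3) (l 103783860135)) (l 130627404359)) (l 3)))) (b (a (b (c (l 86603989479) (l 88751474247)) (c (l 156934079095) (l 161229046199))) (c (c (l 35064382679) (l 16778432)) (l 16778024))) (a (l 3) (b (c (l 134922371447) (l 123111213015)) (l 3))))))) (c (c (b (l 16776352) (a (b (l 16776640) (a (b (l 16778064) (a (l 128479922039) (l 64592283287))) (l 16777096))) (l 16777280))) (b (l 16776200) (a (b (l 16776504) (a (b (l 16777280) (a (l 130090534807) (l 62444799415))) (l 16776968))) (l 16775824)))) (c (b (l 16775728) (a (b (l 16776376) (a (b (l 16777168) (l 98415149607)) (l 16776848))) (l 16775696))) (b (l 16775432) (a (a (a (b (l 16776656) (l 90362085815)) (l 16777752)) (l 16776376)) (l 16775584)))))), by decide +kernel⟩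

def k58_pp_012 : ∃ t, chk3 f_pp_012 t 245 241 1 = true :=
  ⟨(a (l 3) (b (a (b (c (c (a (l 162839660055) (b (a (l 96267666615) (l 16777464)) (a (l 3) (l 119353116711)))) (a (l 167134627143) (b (c (l 63518541271) (l 61907928519)) (l 142975435447)))) (b (a (l 173040206519) (c (l 58149832311) (l 54928606727))) (c (l 157470950375) (l 161765917495)))) (l 3)) (c (a (b (a (c (c (l 40433091991) (l 39359350039)) (l 35601253815)) (l 16778416)) (b (c (a (l 156397208423) (c (l 89825215991) (l 91435828631))) (a (l 160692175511) (l 90898957895))) (l 3))) (b (l 16778032) (c (b (l 16777304) (a (l 111836923815) (l 50633639287))) (b (l 16777192) (a (l 113984407335) (l 16777392)))))) (b (c (c (l 16778144) (l 16778088)) (l 16777688)) (b (a (c (l 108615698471) (l 111300052855)) (l 16778344)) (a (l 3) (c (a (l 117205632551) (l 16777296)) (l 88751474231))))))) (b (b (a (l 3) (a (l 3) (a (l 3) (c (c (l 144586048295) (l 142975436087)) (l 138143598679))))) (l 3)) (l 3)))), by decide +kernel⟩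

def k59_pp_012 : ∃ t, chk3 f_pp_012 t 122 121 1 = true :=
  ⟨(l 3), by decide +kernel⟩

def k60_pp_012 : ∃ t, chk3 f_pp_012 t 246 120 1 = true :=
  ⟨(b (c (c (b (a (l 16772944) (l 16770832)) (a (l 16775704) (l 16772280))) (b (a (l 16772776) (l 16770656)) (a (l 16775560) (l 16772120)))) (c (a (b (l 16772624) (l 16774768)) (a (l 16771768) (l 16770696))) (a (b (l 16772480) (l 16774800)) (l 16771336)))) (a (b (a (c (c (l 16777024) (l 16776896)) (c (l 16776784) (l 16776016))) (c (c (l 16775320) (l 16775192)) (c (l 16775064) (l 16774952)))) (a (c (b (a (a (b (c (c (l 81772152327) (l 82845894039)) (l 69960992247)) (l 3)) (b (l 16777976) (c (l 103783859431) (l 106468214439)))) (c (c (l 16777872) (l 16777152)) (l 16778384))) (a (l 3) (b (c (a (l 137069855447) (c (l 67276637495) (l 66739766471))) (a (l 129553663879) (l 62444799367))) (c (l 162839659671) (l 167671497687))))) (b (c (a (b (l 47412413863) (l 136532984199)) (l 16776968)) (a (b (l 16777888) (l 122574342135)) (l 16776872))) (a (l 3) (b (c (a (l 132774889175)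 (l 16777992)) (l 100025763479)) (l 174113949687))))) (c (c (b (l 16776408) (a (b (l 16777200) (a (c (l 96804537911) (l 98415150551)) (l 16777416))) (l 16776872))) (b (l 16776288) (a (a (b (l 16777216) (l 98415150663)) (l 16777144)) (l 16776760)))) (b (c (l 16776184) (l 16776080)) (a (b (l 16776944) (a (a (l 113984407799) (l 81772152599)) (l 16778480))) (l 16777920)))))) (a (c (b (l 16775504) (c (l 16777040) (l 16775600))) (c (b (l 16774000) (l 16775488)) (b (l 16773880) (l 16775384)))) (b (c (l 16775752) (l 16775488)) (c (c (l 16774664) (l 16774536)) (c (l 16774424) (l 16774312))))))), by decide +kernel⟩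

def k61_pp_012 : ∃ t, chk3 f_pp_012 t 247 120 1 = true :=
  ⟨(c (c (a (b (l 16772048) (a (l 16774184) (l 16774424))) (b (l 16767280) (c (l 16772856) (l 16772776)))) (a (b (b (l 16768512) (l 16769984)) (b (l 16771456) (l 16774248))) (b (l 16772344) (l 16770048)))) (b (a (l 16769664) (l 16766848)) (c (a (b (l 16771320) (l 16773632)) (l 16769912)) (a (a (l 16772480) (l 16771400)) (l 16770432))))), by decide +kernel⟩

def k62_pp_012 : ∃ t, chk3 f_pp_012 t 246 121 1 = true :=
  ⟨(b (a (b (a (l 3) (b (c (a (b (c (a (l 3) (l 118279374855)) (l 144049177271)) (l 3)) (c (b (c (l 43654317431) (l 42580575495)) (a (l 156934079303) (c (l 89288344999) (l 90362086743)))) (b (l 38822479207) (a (l 161229046423) (l 89288345111))))) (c (a (l 156397208439) (b (l 16777848) (a (l 161229046247) (l 91972699495)))) (a (l 160692175575) (b (l 16777112) (l 109152569223))))) (l 3))) (l 3)) (b (c (a (b (c (l 9831449591) (l 16778016)) (b (a (c (a (b (l 95193925111) (l 151565371063)) (l 49559897367)) (a (l 112373794567) (l 16777352)))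 (l 16778352)) (a (c (l 151028499447) (l 155323466567)) (a (c (a (l 95730796087) (l 54928606455)) (l 68350379463)) (l 16777920))))) (c (l 16777112) (l 16776672))) (c (a (b (l 16776608) (a (b (a (l 115058148967) (l 16777264)) (l 159618433703)) (c (l 31306286311) (l 30232544391)))) (l 16776576)) (a (b (l 16776520) (a (b (l 84456505783) (l 163913400855)) (c (l 16777672) (l 16778288)))) (l 16776480)))) (a (b (a (l 3) (a (l 3) (b (c (c (b (l 83919635831) (l 140827953079)) (l 103783859847)) (c (l 106468214247) (l 109689439575))) (l 3)))) (l 3)) (b (c (c (a (b (l 29695673623) (a (l 136532984487) (c (l 64592282919) (l 64055411911)))) (l 16776960)) (a (b (l 16777192) (a (l 127943051047) (l 60297315639))) (l 16776856))) (a (a (b (l 25937577687) (a (l 3) (l 114521278727))) (c (l 32916899159) (l 16777736))) (l 16777384))) (c (c (a (l 163376530935) (b (a (c (l 94120183287) (l 95730795943)) (l 16777360)) (c (l 138143597431) (l 140291080999)))) (a (l 168208368967) (b (a (l 94657054279) (l 16777264)) (l 143512306343))))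 (c (a (l 173040207015) (b (c (l 57612961095) (l 56539219191)) (l 147807273495))) (a (l 178408915991) (b (l 50633639383) (l 152102240647))))))))) (l 3)), by decide +kernel⟩

def k63_pp_012 : ∃ t, chk3 f_pp_012 t 247 242 1 = true :=
  ⟨(a (c (b (c (c (l 16775552) (l 16775488)) (c (l 16775432) (l 16775208))) (c (a (a (b (l 16776432) (b (l 16776976) (c (l 40969962743) (l 39896220823)))) (l 16777584)) (l 16776784)) (a (a (b (l 16776328) (b (l 16776880) (l 35064382807))) (l 16776168)) (l 16776680)))) (c (b (a (l 16774848) (l 16773768)) (a (a (b (l 16776240) (l 19495126167)) (l 16776080)) (l 16775928))) (b (a (l 16774744) (l 16773664)) (a (a (b (l 16776152) (l 16778216)) (l 16775992)) (l 16775840))))) (c (a (b (l 16775488) (a (l 16775928) (l 16776704))) (b (l 16771792) (l 16775896))) (a (c (b (l 16772696) (l 16774192)) (l 16773752)) (c (l 16772528) (l 16772584))))), by decide +kernel⟩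

def k64_pp_012 : ∃ t, chk3 f_pp_012 t 494 243 1 = true :=
  ⟨(b (a (b (b (c (a (c (a (l 151565370151) (c (l 85530248567) (l 87140861207))) (a (l 155860337271) (l 85530248679))) (c (l 16777176) (l 16777088))) (a (a (l 161229047495) (b (l 16777904) (l 108615698487))) (l 16777624))) (a (l 3) (c (c (a (b (l 91435828519) (l 146733532967)) (l 44728059207)) (a (l 108615698071) (l 16777312))) (c (a (l 110763181655) (l 16777232)) (c (l 64055412039) (l 62981670151)))))) (a (l 3) (b (c (c (l 149417886663) (l 154249724711)) (c (l 158544691863) (l 162839659031))) (l 3)))) (c (b (c (l 16777232) (l 16776480)) (a (a (b (c (c (l 68887250263) (l 67813508359)) (l 64055412103)) (l 3)) (b (l 16777856) (c (b (l 69960992039) (l 135996114231)) (l 98952021591)))) (c (c (l 16777720) (l 16777024)) (l 16777608)))) (b (c (l 16776392) (l 16776320)) (a (c (b (c (l 44191188119) (l 16777680)) (a (l 3) (l 101099505111))) (b (l 36138124599) (l 139754209527))) (c (l 16776872) (l 16776800)))))) (a (l 3) (b (a (l 3) (c (b (c (a (l 133848629879)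 (c (l 60297315511) (l 58686702775))) (a (l 122574341879) (l 55465477351))) (c (l 161765917767) (l 166597755831))) (a (c (l 154786595511) (l 159618433591)) (b (c (l 52244251815) (l 16777208)) (l 167134627591))))) (l 3)))), by decide +kernel⟩

def k65_pp_012 : ∃ t, chk3 f_pp_012 t 495 243 1 = true :=
  ⟨(b (c (c (a (c (l 16777216) (l 16776512)) (l 16776120)) (a (c (l 16775808) (l 16775760)) (l 16774704))) (c (a (c (l 16775720) (l 16775672)) (l 16774616)) (a (c (l 16775632) (l 16775600)) (l 16775184)))) (a (b (a (b (c (l 16777672) (l 16777520)) (a (c (c (a (l 107005085271) (l 66202895623)) (l 88751473511)) (c (l 91435828599) (l 93583312135))) (c (c (l 16777288) (l 16777208)) (l 16778408)))) (c (c (l 16776720) (l 16776632)) (c (l 16776552) (l 16776480)))) (b (c (a (a (l 3) (b (c (l 96267666823) (l 98952021239)) (l 165524014999))) (b (l 16777784) (l 6))) (a (c (l 145659789815) (l 149954756999)) (c (l 16777768) (l 16777040)))) (a (l 3) (l 6)))) (b (a (c (l 16777448) (l 16777288)) (l 6)) (l 6)))), by decide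 +kernel⟩

def k66_pp_012 : ∃ t, chk3 f_pp_012 t 61 61 1 = true :=
  ⟨(a (l 3) (b (a (l 3) (a (l 3) (a (l 3) (l 6)))) (l 3))), by decide +kernel⟩

def k67_pp_012 : ∃ t, chk3 f_pp_012 t 30 31 1 = true :=
  ⟨(l 3), by decide +kernel⟩

def k68_pp_012 : ∃ t, chk3 f_pp_012 t 31 15 1 = true :=
  ⟨(b (a (b (a (b (b (c (a (l 16765576) (l 16762184)) (a (l 16765888) (l 16761848))) (a (a (c (l 16768616) (l 16768328)) (a (l 16767824) (l 16767712))) (c (l 16765120) (l 16764840)))) (a (a (c (c (b (l 16771464) (b (c (l 16774528) (l 16773816)) (l 6))) (b (l 16771504) (b (a (l 16773624) (l 6)) (l 6)))) (a (b (l 16772040) (b (l 16773488) (l 6))) (b (l 16770792) (l 6)))) (b (c (l 16770048) (l 16769816)) (l 6))) (l 6))) (l 6)) (l 6)) (l 6)) (l 6)), by decide +kernel⟩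

theorem s69_pp_012 : ∃ t, chk3 f_pp_012 t 247 243 1 = true := ex3_a k64_pp_012 k65_pp_012

theorem s70_pp_012 : ∃ t, chk3 f_pp_012 t 247 121 1 = true := ex3_b k63_pp_012 s69_pp_012

theorem s71_pp_012 : ∃ t, chk3 f_pp_012 t 123 121 1 = true := ex3_a k62_pp_012 s70_pp_012

theorem s72_pp_012 : ∃ t, chk3 f_pp_012 t 123 120 1 = true := ex3_a k60_pp_012 k61_pp_012

theorem s73_pp_012 : ∃ t, chk3 f_pp_012 t 123 60 1 = true := ex3_b s72_pp_012 s71_pp_012

theorem s74_pp_012 : ∃ t, chk3 f_pp_012 t 245 120 1 = true := ex3_b k57_pp_012 k58_pp_012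

theorem s75_pp_012 : ∃ t, chk3 f_pp_012 t 122 120 1 = true := ex3_a k56_pp_012 s74_pp_012

theorem s76_pp_012 : ∃ t, chk3 f_pp_012 t 122 60 1 = true := ex3_b s75_pp_012 k59_pp_012

theorem s77_pp_012 : ∃ t, chk3 f_pp_012 t 61 60 1 = true := ex3_a s76_pp_012 s73_pp_012

theorem s78_pp_012 : ∃ t, chk3 f_pp_012 t 61 30 1 = true := ex3_b s77_pp_012 k66_pp_012

theorem s79_pp_012 : ∃ t, chk3 f_pp_012 t 30 30 1 = true := ex3_a k55_pp_012 s78_pp_012

theorem s80_pp_012 : ∃ t, chk3 f_pp_012 t 30 15 1 = true := ex3_b s79_pp_012 k67_pp_012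

theorem s81_pp_012 : ∃ t, chk3 f_pp_012 t 15 15 1 = true := ex3_a s80_pp_012 k68_pp_012

theorem s82_pp_012 : ∃ t, chk3 f_pp_012 t 244 119 1 = true := ex3_b k50_pp_012 k51_pp_012

theorem s83_pp_012 : ∃ t, chk3 f_pp_012 t 122 119 1 = true := ex3_a s82_pp_012 k52_pp_012

theorem s84_pp_012 : ∃ t, chk3 f_pp_012 t 122 59 1 = true := ex3_b k49_pp_012 s83_pp_012

theorem s85_pp_012 : ∃ t, chk3 f_pp_012 t 61 59 1 = true := ex3_a s84_pp_012 k53_pp_012

theorem s86_pp_012 : ∃ t, chk3 f_pp_012 t 61 29 1 = true := ex3_b k48_pp_012 s85_pp_012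

theorem s87_pp_012 : ∃ t, chk3 f_pp_012 t 121 118 1 = true := ex3_a k45_pp_012 k46_pp_012

theorem s88_pp_012 : ∃ t, chk3 f_pp_012 t 121 59 1 = true := ex3_b s87_pp_012 k47_pp_012

theorem s89_pp_012 : ∃ t, chk3 f_pp_012 t 60 59 1 = true := ex3_a k44_pp_012 s88_pp_012

theorem s90_pp_012 : ∃ t, chk3 f_pp_012 t 120 117 1 = true := ex3_a k41_pp_012 k42_pp_012

theorem s91_pp_012 : ∃ t, chk3 f_pp_012 t 120 58 1 = true := ex3_b k40_pp_012 s90_pp_012

theorem s92_pp_012 : ∃ t, chk3 f_pp_012 t 60 58 1 = true := ex3_a s91_pp_012 k43_pp_012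

theorem s93_pp_012 : ∃ t, chk3 f_pp_012 t 60 29 1 = true := ex3_b s92_pp_012 s89_pp_012

theorem s94_pp_012 : ∃ t, chk3 f_pp_012 t 30 29 1 = true := ex3_a s93_pp_012 s86_pp_012

theorem s95_pp_012 : ∃ t, chk3 f_pp_012 t 30 14 1 = true := ex3_b k39_pp_012 s94_pp_012

theorem s96_pp_012 : ∃ t, chk3 f_pp_012 t 15 14 1 = true := ex3_a s95_pp_012 k54_pp_012

theorem s97_pp_012 : ∃ t, chk3 f_pp_012 t 15 7 1 = true := ex3_b s96_pp_012 s81_pp_012

theorem s98_pp_012 : ∃ t, chk3 f_pp_012 t 119 57 1 = true := ex3_b k35_pp_012 k36_pp_012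

theorem s99_pp_012 : ∃ t, chk3 f_pp_012 t 118 114 1 = true := ex3_a k32_pp_012 k33_pp_012

theorem s100_pp_012 : ∃ t, chk3 f_pp_012 t 118 57 1 = true := ex3_b s99_pp_012 k34_pp_012

theorem s101_pp_012 : ∃ t, chk3 f_pp_012 t 59 57 1 = true := ex3_a s100_pp_012 s98_pp_012

theorem s102_pp_012 : ∃ t, chk3 f_pp_012 t 59 28 1 = true := ex3_b k31_pp_012 s101_pp_012

theorem s103_pp_012 : ∃ t, chk3 f_pp_012 t 117 113 1 = true := ex3_a k28_pp_012 k29_pp_012

theorem s104_pp_012 : ∃ t, chk3 f_pp_012 t 117 56 1 = true := ex3_b k27_pp_012 s103_pp_012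

theorem s105_pp_012 : ∃ t, chk3 f_pp_012 t 58 56 1 = true := ex3_a k26_pp_012 s104_pp_012

theorem s106_pp_012 : ∃ t, chk3 f_pp_012 t 58 28 1 = true := ex3_b s105_pp_012 k30_pp_012

theorem s107_pp_012 : ∃ t, chk3 f_pp_012 t 29 28 1 = true := ex3_a s106_pp_012 s102_pp_012

theorem s108_pp_012 : ∃ t, chk3 f_pp_012 t 29 14 1 = true := ex3_b s107_pp_012 k37_pp_012

theorem s109_pp_012 : ∃ t, chk3 f_pp_012 t 14 14 1 = true := ex3_a k25_pp_012 s108_pp_012

theorem s110_pp_012 : ∃ t, chk3 f_pp_012 t 14 7 1 = true := ex3_b s109_pp_012 k38_pp_012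

theorem s111_pp_012 : ∃ t, chk3 f_pp_012 t 7 7 1 = true := ex3_a s110_pp_012 s97_pp_012

theorem s112_pp_012 : ∃ t, chk3 f_pp_012 t 29 27 1 = true := ex3_a k22_pp_012 k23_pp_012

theorem s113_pp_012 : ∃ t, chk3 f_pp_012 t 29 13 1 = true := ex3_b k21_pp_012 s112_pp_012

theorem s114_pp_012 : ∃ t, chk3 f_pp_012 t 115 55 1 = true := ex3_b k19_pp_012 k20_pp_012

theorem s115_pp_012 : ∃ t, chk3 f_pp_012 t 57 55 1 = true := ex3_a k18_pp_012 s114_pp_012

theorem s116_pp_012 : ∃ t, chk3 f_pp_012 t 57 54 1 = true := ex3_a k16_pp_012 k17_pp_012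

theorem s117_pp_012 : ∃ t, chk3 f_pp_012 t 57 27 1 = true := ex3_b s116_pp_012 s115_pp_012

theorem s118_pp_012 : ∃ t, chk3 f_pp_012 t 28 27 1 = true := ex3_a k15_pp_012 s117_pp_012

theorem s119_pp_012 : ∃ t, chk3 f_pp_012 t 56 53 1 = true := ex3_a k12_pp_012 k13_pp_012

theorem s120_pp_012 : ∃ t, chk3 f_pp_012 t 56 26 1 = true := ex3_b k11_pp_012 s119_pp_012

theorem s121_pp_012 : ∃ t, chk3 f_pp_012 t 28 26 1 = true := ex3_a s120_pp_012 k14_pp_012

theorem s122_pp_012 : ∃ t, chk3 f_pp_012 t 28 13 1 = true := ex3_b s121_pp_012 s118_pp_012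

theorem s123_pp_012 : ∃ t, chk3 f_pp_012 t 14 13 1 = true := ex3_a s122_pp_012 s113_pp_012

theorem s124_pp_012 : ∃ t, chk3 f_pp_012 t 14 6 1 = true := ex3_b k10_pp_012 s123_pp_012

theorem s125_pp_012 : ∃ t, chk3 f_pp_012 t 7 6 1 = true := ex3_a s124_pp_012 k24_pp_012

theorem s126_pp_012 : ∃ t, chk3 f_pp_012 t 7 3 1 = true := ex3_b s125_pp_012 s111_pp_012

theorem s127_pp_012 : ∃ t, chk3 f_pp_012 t 13 12 1 = true := ex3_a k6_pp_012 k7_pp_012

theorem s128_pp_012 : ∃ t, chk3 f_pp_012 t 13 6 1 = true := ex3_b s127_pp_012 k8_pp_012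

theorem s129_pp_012 : ∃ t, chk3 f_pp_012 t 6 6 1 = true := ex3_a k5_pp_012 s128_pp_012

theorem s130_pp_012 : ∃ t, chk3 f_pp_012 t 6 3 1 = true := ex3_b s129_pp_012 k9_pp_012

theorem s131_pp_012 : ∃ t, chk3 f_pp_012 t 3 3 1 = true := ex3_a s130_pp_012 s126_pp_012

theorem s132_pp_012 : ∃ t, chk3 f_pp_012 t 6 2 1 = true := ex3_b k2_pp_012 k3_pp_012

theorem s133_pp_012 : ∃ t, chk3 f_pp_012 t 3 2 1 = true := ex3_a s132_pp_012 k4_pp_012

theorem s134_pp_012 : ∃ t, chk3 f_pp_012 t 3 1 1 = true := ex3_b s133_pp_012 s131_pp_012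

theorem s135_pp_012 : ∃ t, chk3 f_pp_012 t 2 1 1 = true := ex3_a k0_pp_012 k1_pp_012

theorem s136_pp_012 : ∃ t, chk3 f_pp_012 t 1 1 1 = true := ex3_a s135_pp_012 s134_pp_012

theorem c_pp_012 : CertN 0 536870912 0 536870912 469762048 67108864 3 false true true .pnp 0 1 2
    ndN0q0 ndN0q2 pcN1 cut_pp_012 Ext.none :=
  certN2 (fam := false) (s1 := true) (s2 := true) (a := 0) (b := 1) (c := 2) (cn := .pnp) (n1 := ndN0q0) (n2 := ndN0q2) (pc := pcN1) (cut := cut_pp_012) (xt := Ext.none) (P1 := 0) (W1 := 536870912) (P2 := 0) (W2 := 536870912) (P3 := 469762048) (W3 := 67108864) (N0 := 3)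
    rfl (fun _ => rfl) s136_pp_012

noncomputable def cut_pp_022 : Cut := Cut.of [[⟨0, 0, 0, 67108864⟩, ⟨1, 1, 0, 67108864⟩, ⟨2, 1, 0, 67108864⟩]]

noncomputable def f_pp_022 : ℕ → ℕ → ℕ → ℕ → Bool := onCell 1073741824 536870912 0 536870912 469762048 67108864
    (rowN 3 2 false true true .pp 0 2 2 (qsf 0 536870912 0 536870912 2) ndN0q0 ndN0q2 pcN2 cut_pp_022 Ext.none)

def k0_pp_022 : ∃ t, chk3 f_pp_022 t 4 2 1 = true :=
  ⟨(b (a (b (a (l 16477280) (l 16482080)) (a (l 16500992) (l 16545088))) (b (a (l 16482704) (l 16480536)) (a (l 16500928) (l 16517288)))) (a (b (a (l 16592928) (b (l 16521632) (l 16535568))) (a (a (l 16611856) (l 16585600)) (b (l 16593064) (l 16631336)))) (b (a (b (l 16516888) (l 16528896)) (b (l 16510024) (l 16520256))) (a (b (l 16563288) (a (l 16560144) (l 16554016))) (b (a (l 16534584) (l 16528432)) (a (l 16547824) (b (l 16537312) (l 16543584)))))))), by decide +kernel⟩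

def k1_pp_022 : ∃ t, chk3 f_pp_022 t 4 3 1 = true :=
  ⟨(a (b (a (b (b (l 16653928) (a (l 16663960) (l 16678440))) (a (b (c (l 16686984) (l 16664160)) (b (l 16702656) (c (l 16714872) (l 16712880)))) (b (l 16686920) (c (l 16675280) (l 16674112))))) (b (b (a (l 16589768) (l 16583832)) (a (c (l 16632360) (l 16628416)) (b (l 16597704) (l 16606856)))) (b (a (c (l 16649608) (l 16646008)) (b (l 16614528) (l 16622048))) (a (b (l 16660744) (a (l 16651296) (l 16646152))) (b (l 16650848) (a (l 16640760) (l 16635128))))))) (a (b (b (a (a (b (c (l 16709624) (l 16707296)) (b (l 16716832) (l 6))) (b (l 16678632) (l 16710752))) (a (l 16708488) (b (l 16666224) (l 16676448)))) (l 6)) (l 6)) (a (b (b (b (a (l 16660792) (l 16655192)) (a (l 16691512) (l 16664480))) (l 6)) (l 6)) (b (a (b (b (l 16649352) (l 16679160)) (l 6)) (b (b (l 16643280) (b (l 16649536) (l 16653784))) (b (l 16681256) (l 1)))) (l 1))))) (b (b (a (b (a (l 16576752) (l 16611288)) (a (b (l 16589568) (l 16598120)) (b (l 16581112) (a (l 16591152) (l 16586840)))))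 (b (a (b (l 16558240) (l 16586376)) (b (l 16550000) (l 16556488))) (a (b (a (l 16574840) (l 16570296)) (a (l 47814722679) (l 16577320))) (l 1)))) (a (b (a (b (l 16605280) (a (l 16614584) (l 16609312))) (b (a (l 16597928) (l 33319227511)) (a (l 16624976) (l 16598944)))) (a (b (a (l 16621784) (l 16616096)) (a (l 16629256) (l 16623152))) (b (a (l 16610360) (l 1)) (l 1)))) (b (a (b (a (c (l 16594456) (l 16582144)) (l 1)) (l 1)) (l 1)) (l 1)))) (b (b (a (a (b (a (l 16657952) (l 16630456)) (a (l 16644944) (l 1))) (l 1)) (l 1)) (l 1)) (l 1)))), by decide +kernel⟩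

def k2_pp_022 : ∃ t, chk3 f_pp_022 t 5 1 1 = true :=
  ⟨(b (a (a (a (b (b (l 16476888) (l 16490680)) (b (b (l 16502600) (l 16511432)) (b (l 16521280) (l 16542704)))) (b (b (l 16473640) (l 16485968)) (b (l 79489960087) (l 1)))) (b (b (l 1) (l 1)) (l 1))) (l 1)) (b (l 1) (l 1))), by decide +kernel⟩

def k3_pp_022 : ∃ t, chk3 f_pp_022 t 3 1 1 = true :=
  ⟨(l 1), by decide +kernel⟩

theorem s4_pp_022 : ∃ t, chk3 f_pp_022 t 4 1 1 = true := ex3_b k0_pp_022 k1_pp_022

theorem s5_pp_022 : ∃ t, chk3 f_pp_022 t 2 1 1 = true := ex3_a s4_pp_022 k2_pp_022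

theorem s6_pp_022 : ∃ t, chk3 f_pp_022 t 1 1 1 = true := ex3_a s5_pp_022 k3_pp_022

theorem c_pp_022 : CertN 0 536870912 0 536870912 469762048 67108864 3 false true true .pp 0 2 2
    ndN0q0 ndN0q2 pcN2 cut_pp_022 Ext.none :=
  certN2 (fam := false) (s1 := true) (s2 := true) (a := 0) (b := 2) (c := 2) (cn := .pp) (n1 := ndN0q0) (n2 := ndN0q2) (pc := pcN2) (cut := cut_pp_022) (xt := Ext.none) (P1 := 0) (W1 := 536870912) (P2 := 0) (W2 := 536870912) (P3 := 469762048) (W3 := 67108864) (N0 := 3)
    rfl (fun _ => rfl) s6_pp_022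

noncomputable def f_pp_101 : ℕ → ℕ → ℕ → ℕ → Bool := onCell 536870912 536870912 536870912 536870912 469762048 67108864
    (rowN 3 0 false true true .npn 1 0 1 (qsf 536870912 536870912 536870912 536870912 0) ndN0q1 ndN0q1 pcN0 Cut.none Ext.none)

def k0_pp_101 : ∃ t, chk3 f_pp_101 t 1 1 1 = true :=
  ⟨(l 3), by decide +kernel⟩

theorem c_pp_101 : CertN 536870912 536870912 536870912 536870912 469762048 67108864 3 false true true .npn 1 0 1
    ndN0q1 ndN0q1 pcN0 Cut.none Ext.none :=
  certN0 (fam := false) (s1 := true) (s2 := true) (a := 1) (b := 0) (c := 1) (cn := .npn) (n1 := ndN0q1) (n2 := ndN0q1) (pc := pcN0) (cut := Cut.none) (xt := Ext.none) (P1 := 536870912) (W1 := 536870912) (P2 := 536870912) (W2 := 536870912) (P3 := 469762048) (W3 := 67108864) (N0 := 3)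
    rfl k0_pp_101

noncomputable def f_pp_102 : ℕ → ℕ → ℕ → ℕ → Bool := onCell 0 536870912 0 536870912 469762048 67108864
    (rowN 3 2 false true true .npp 1 0 2 (qsf 536870912 536870912 0 536870912 0) ndN0q1 ndN0q2 pcN0 Cut.none Ext.none)

def k0_pp_102 : ∃ t, chk3 f_pp_102 t 1 1 1 = true :=
  ⟨(a (b (l 3) (l 3)) (l 3)), by decide +kernel⟩

theorem c_pp_102 : CertN 536870912 536870912 0 536870912 469762048 67108864 3 false true true .npp 1 0 2
    ndN0q1 ndN0q2 pcN0 Cut.none Ext.none :=
  certN2 (fam := false) (s1 := true) (s2 := true) (a := 1) (b := 0) (c := 2) (cn := .npp) (n1 := ndN0q1) (n2 := ndN0q2) (pc := pcN0) (cut := Cut.none) (xt := Ext.none) (P1 := 536870912) (W1 := 536870912) (P2 := 0) (W2 := 536870912) (P3 := 469762048) (W3 := 67108864) (N0 := 3)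
    rfl (fun _ => rfl) k0_pp_102

noncomputable def f_pp_112 : ℕ → ℕ → ℕ → ℕ → Bool := onCell 536870912 536870912 0 536870912 469762048 67108864
    (rowN 3 0 false true true .dn 1 1 2 (qsf 536870912 536870912 0 536870912 1) ndN0q1 ndN0q2 pcN1 Cut.none Ext.none)

def k0_pp_112 : ∃ t, chk3 f_pp_112 t 8 2 1 = true :=
  ⟨(b (b (a (b (a (l 16822632) (a (l 16813904) (b (l 16813096) (l 16783216)))) (a (b (l 16786600) (a (l 16800192) (a (l 16796640) (c (l 49559933063) (l 46338694119))))) (b (a (l 16800176) (b (a (l 16799152) (l 16796472)) (a (l 16794968) (b (l 16793472) (a (l 16792232) (a (l 53854878231) (b (l 16791088) (c (l 68887276183) (l 67813522135))))))))) (a (b (a (l 16794688) (c (l 16796632) (l 16789032))) (a (b (l 54391759159) (l 77477207735)) (b (l 76940337367) (l 3)))) (b (a (b (c (l 56002383495) (l 53318014407)) (a (l 68350400295) (l 106468237047))) (b (b (a (l 63518558071) (l 130627428311)) (l 132774911143)) (l 3))) (l 3)))))) (b (a (a (b (l 16805488) (b (l 16799344) (l 16795424))) (b (l 16798064)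 (b (l 16792632) (a (l 16790728) (l 16784144))))) (b (a (l 16791752) (b (l 16788088) (l 16785648))) (a (b (a (l 16788496) (l 16786240)) (a (b (l 16786464) (l 77477199703)) (l 82845906359))) (b (a (l 70497876343) (l 84456517335)) (l 3))))) (a (b (a (b (a (l 16782832) (c (l 37211892919) (l 32916909111))) (a (b (c (a (l 16795784) (l 41506859319)) (a (l 16787072) (l 38285620247))) (b (b (a (c (l 16794648) (l 16786016)) (c (l 80698440919) (l 79624681767))) (a (c (c (l 54928640791) (l 53854890391)) (c (l 52244269111) (l 51170522631))) (l 3))) (a (a (c (l 80698442263) (l 80161554087)) (l 3)) (l 3)))) (a (b (b (l 44728073575) (l 82309043399)) (l 3)) (l 88214620103)))) (b (a (b (l 39896233751) (a (l 72108490631) (l 84993394391))) (a (l 80161555351) (l 88214617095))) (l 3))) (l 3)) (l 3)))) (a (b (a (b (a (b (a (l 16794024) (l 52781153191)) (a (b (l 58686739159) (l 81235301671)) (l 80161558183))) (b (a (b (l 56539249207) (l 79087819287)) (l 78550957191)) (l 3))) (l 3)) (l 3)) (l 3)) (l 3))) (l 3)), by decide +kernel⟩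

def k1_pp_112 : ∃ t, chk3 f_pp_112 t 9 2 1 = true :=
  ⟨(b (b (a (b (a (b (a (b (l 16784368) (a (l 72645359735) (l 85530258183))) (a (l 83919666311) (l 93046451271))) (l 3)) (l 3)) (l 3)) (l 3)) (l 3)) (l 3)), by decide +kernel⟩

def k2_pp_112 : ∃ t, chk3 f_pp_112 t 5 2 1 = true :=
  ⟨(l 3), by decide +kernel⟩

def k3_pp_112 : ∃ t, chk3 f_pp_112 t 2 3 1 = true :=
  ⟨(l 3), by decide +kernel⟩

def k4_pp_112 : ∃ t, chk3 f_pp_112 t 3 1 1 = true :=
  ⟨(l 1), by decide +kernel⟩

theorem s5_pp_112 : ∃ t, chk3 f_pp_112 t 4 2 1 = true := ex3_a k0_pp_112 k1_pp_112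

theorem s6_pp_112 : ∃ t, chk3 f_pp_112 t 2 2 1 = true := ex3_a s5_pp_112 k2_pp_112

theorem s7_pp_112 : ∃ t, chk3 f_pp_112 t 2 1 1 = true := ex3_b s6_pp_112 k3_pp_112

theorem s8_pp_112 : ∃ t, chk3 f_pp_112 t 1 1 1 = true := ex3_a s7_pp_112 k4_pp_112

theorem c_pp_112 : CertN 536870912 536870912 0 536870912 469762048 67108864 3 false true true .dn 1 1 2
    ndN0q1 ndN0q2 pcN1 Cut.none Ext.none :=
  certN0 (fam := false) (s1 := true) (s2 := true) (a := 1) (b := 1) (c := 2) (cn := .dn) (n1 := ndN0q1) (n2 := ndN0q2) (pc := pcN1) (cut := Cut.none) (xt := Ext.none) (P1 := 536870912) (W1 := 536870912) (P2 := 0) (W2 := 536870912) (P3 := 469762048) (W3 := 67108864) (N0 := 3)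
    rfl s8_pp_112

noncomputable def f_pp_202 : ℕ → ℕ → ℕ → ℕ → Bool := onCell 0 536870912 0 536870912 469762048 67108864
    (rowN 3 0 false true true .pp 2 0 2 (qsf 0 536870912 0 536870912 0) ndN0q2 ndN0q2 pcN0 Cut.none Ext.none)

def k0_pp_202 : ∃ t, chk3 f_pp_202 t 1 1 1 = true :=
  ⟨(l 3), by decide +kernel⟩

theorem c_pp_202 : CertN 0 536870912 0 536870912 469762048 67108864 3 false true true .pp 2 0 2
    ndN0q2 ndN0q2 pcN0 Cut.none Ext.none :=
  certN0 (fam := false) (s1 := true) (s2 := true) (a := 2) (b := 0) (c := 2) (cn := .pp) (n1 := ndN0q2) (n2 := ndN0q2) (pc := pcN0) (cut := Cut.none) (xt := Ext.none) (P1 := 0) (W1 := 536870912) (P2 := 0) (W2 := 536870912) (P3 := 469762048) (W3 := 67108864) (N0 := 3)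
    rfl k0_pp_202

noncomputable def cut_pm_001 : Cut := Cut.of [[⟨0, 0, 1, 33554432⟩, ⟨1, 1, 2, 33554432⟩, ⟨2, 1, 0, 33554432⟩]]

noncomputable def f_pm_001 : ℕ → ℕ → ℕ → ℕ → Bool := onCell 0 536870912 536870912 536870912 469762048 67108864
    (rowN 3 0 false true false .up 0 0 1 (qsf 0 536870912 536870912 536870912 0) ndN0q0 ndN0q1 pcN0 cut_pm_001 Ext.none)

def k0_pm_001 : ∃ t, chk3 f_pm_001 t 2 1 1 = true :=
  ⟨(b (l 4) (b (b (l 4) (l 2)) (l 2))), by decide +kernel⟩

def k1_pm_001 : ∃ t, chk3 f_pm_001 t 3 4 1 = true :=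
  ⟨(l 4), by decide +kernel⟩

def k2_pm_001 : ∃ t, chk3 f_pm_001 t 6 5 1 = true :=
  ⟨(l 4), by decide +kernel⟩

def k3_pm_001 : ∃ t, chk3 f_pm_001 t 7 10 1 = true :=
  ⟨(a (l 4) (b (a (l 4) (b (l 4) (a (l 4) (b (l 4) (a (l 4) (b (l 171496719767) (a (l 168812363175) (l 146263809431)))))))) (a (b (l 4) (a (l 4) (b (a (l 4) (l 179012915495)) (a (l 176865430919) (b (l 161833038039) (l 125325861143)))))) (b (a (b (l 4) (a (l 4) (b (l 169349234119) (a (l 164517393063) (l 16780552))))) (b (a (b (l 170422977063) (a (l 166664878295) (l 16792400))) (b (l 129620816263) (l 16775376))) (a (b (l 125325849703) (l 16772648)) (l 16770872)))) (a (b (a (b (l 166664878119) (l 144653163463)) (b (l 16798264) (l 16773032))) (a (l 16795032) (l 16774432))) (b (l 16795336) (l 16786528))))))), by decide +kernel⟩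

def k4_pm_001 : ∃ t, chk3 f_pm_001 t 7 11 1 = true :=
  ⟨(a (b (a (l 4) (b (l 4) (a (l 4) (b (a (l 4) (b (l 177939171559) (l 160222422743))) (a (b (l 174717943847) (l 168275482471)) (c (l 16799248) (l 16795736))))))) (a (b (a (l 4) (b (l 4) (a (l 4) (b (l 4) (l 183307877671))))) (a (b (l 4) (a (l 4) (b (l 185455364247) (a (l 180086647479) (l 16789040))))) (b (a (b (l 4) (l 189213452791)) (b (a (l 147337551095) (l 16798656)) (l 16808632))) (a (a (b (l 134989512487) (l 16777304)) (l 16799136)) (l 16786984))))) (b (a (b (a (l 181160402519) (b (l 171496714711) (l 124788978407))) (a (b (l 171496710007) (l 90966135911)) (l 16799336))) (b (a (c (l 16819872) (l 16796472)) (l 16784088)) (l 16795792))) (a (b (l 16789520) (l 16785288)) (l 16787968))))) (a (b (a (b (b (a (l 4) (l 173107333255)) (a (b (l 4) (l 168275489607)) (b (l 155390581351) (l 16797464)))) (b (a (b (l 126399604551) (l 16776032)) (l 16797472)) (l 16805336))) (b (b (a (b (l 158611810103) (l 16798336)) (l 16795320)) (a (l 16775072) (l 16780096)))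 (l 16806008))) (b (a (l 16797536) (l 16799720)) (l 16793032))) (b (b (a (b (l 16780632) (l 16799592)) (l 16820944)) (a (l 16809896) (l 16814448))) (b (l 16807912) (l 16805928))))), by decide +kernel⟩

def k5_pm_001 : ∃ t, chk3 f_pm_001 t 6 12 1 = true :=
  ⟨(a (a (l 4) (b (l 4) (b (l 4) (a (l 4) (b (l 4) (a (b (l 4) (l 2)) (b (a (l 4) (c (l 153243119799) (l 163980534103))) (a (b (a (l 2) (l 126399572279)) (l 2)) (b (l 97408555239) (l 16779960)))))))))) (b (a (l 4) (b (a (l 4) (b (l 4) (a (b (l 4) (l 187602833799)) (b (a (l 181160391239) (l 133378896327)) (a (l 107609106215) (l 16777688)))))) (a (b (a (l 4) (b (l 4) (a (l 4) (l 170422965495)))) (b (a (l 180623544567) (a (b (l 141431961783) (l 16778040)) (l 16777672))) (a (a (l 172570452391) (b (l 16789464) (l 16777616))) (l 16802752)))) (b (a (b (a (l 172570451495) (l 111904080407)) (l 97945440727)) (l 16805928)) (a (l 16784472) (l 16780304)))))) (a (b (a (b (l 4) (a (l 4) (b (l 4) (a (l 4) (b (l 171496710983) (l 130157669175)))))) (b (a (b (l 4) (a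 (l 4) (l 176328552071))) (b (a (l 4) (l 167738632583)) (a (b (l 165591128135) (l 16788688)) (l 16798728)))) (a (b (a (b (l 4) (l 165054257303)) (b (l 131231412327) (l 16798680))) (a (c (l 124252092103) (l 126399567111)) (l 16780912))) (b (l 16797912) (l 16783576))))) (a (b (a (b (a (l 4) (l 175791681111)) (a (b (l 4) (l 162906773415)) (b (l 150021890183) (l 100092910727)))) (b (a (b (l 163980515431) (l 106535355671)) (l 98482300311)) (a (l 16779208) (l 16783584)))) (a (a (b (b (l 102240390887) (l 16778176)) (l 16783176)) (l 16793952)) (l 16782168))) (b (a (b (l 16783736) (l 16782320)) (l 16779392)) (l 16796008)))) (b (a (a (b (a (b (l 105998496439) (l 16783256)) (l 16784032)) (l 16781200)) (l 16769000)) (b (l 16775696) (l 16769336))) (a (b (l 16770440) (l 16763048)) (l 16759344)))))), by decide +kernel⟩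

def k6_pm_001 : ∃ t, chk3 f_pm_001 t 6 13 1 = true :=
  ⟨(a (b (a (l 2) (b (a (l 2) (b (a (l 2) (b (l 96200594839) (l 2))) (l 2))) (l 2))) (l 2)) (b (a (a (b (b (a (l 16781072) (l 16776848)) (a (l 16776448) (l 16771608))) (b (l 31239189127) (l 2))) (a (b (l 16768480) (l 16759632)) (b (l 16762096) (l 16752744)))) (b (a (a (l 16754968) (l 16749968)) (l 16745120)) (a (b (l 16742904) (l 16739240)) (l 16730360)))) (a (b (a (l 2) (b (l 38218465367) (l 2))) (l 2)) (b (a (b (l 16737176) (l 38218429223)) (b (l 16720024) (l 16716744))) (a (b (l 44660880551) (l 2)) (b (l 16717704) (l 42513360039))))))), by decide +kernel⟩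

def k7_pm_001 : ∃ t, chk3 f_pm_001 t 7 6 1 = true :=
  ⟨(b (a (b (a (b (a (b (a (b (l 188676584311) (a (l 144116318919) (l 16798424))) (b (l 106535378023) (l 16782968))) (a (a (l 16810280) (l 16785240)) (l 16784752))) (b (l 16783936) (l 16779040))) (a (b (l 16801104) (l 16774736)) (l 16772712))) (b (a (l 16779696) (l 16782288)) (a (l 16772616) (l 16775896)))) (a (b (a (l 16766600) (l 16763232)) (a (l 16754504) (l 16751744))) (b (a (l 16763848) (l 16767816)) (a (l 16753032) (l 16757752))))) (b (a (b (a (l 16786512) (l 16792280)) (a (l 16780840) (l 16787224))) (b (l 16803232) (l 16799160))) (b (a (a (l 16773408) (l 16780496)) (l 16793376)) (a (a (l 16764064) (l 16771840)) (a (l 16780984) (l 16791328)))))) (a (a (b (a (b (l 16740736) (l 16725952)) (b (l 16738344) (l 16723560))) (b (a (l 16711528) (a (l 16709144) (l 16708168))) (a (b (l 16702368) (l 16697752)) (c (l 16721104) (l 16668296))))) (b (b (a (l 16740224) (l 16745712)) (a (l 16725792) (l 16731920))) (b (a (l 16710536) (l 16716960)) (a (b (l 16699416)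 (l 16692592)) (l 16701920))))) (b (a (b (a (l 16752768) (l 16761288)) (a (l 16739664) (l 16748880))) (b (a (l 16771136) (l 16782232)) (a (l 16759456) (l 16771280)))) (a (b (a (l 16725128) (l 16734880)) (a (l 16709976) (l 16719856))) (b (a (l 16746072) (l 16758560)) (a (l 16731360) (l 16744328))))))), by decide +kernel⟩

def k8_pm_001 : ∃ t, chk3 f_pm_001 t 6 7 1 = true :=
  ⟨(b (a (l 2) (b (a (l 2) (b (a (l 2) (b (l 50029536263) (l 2))) (l 2))) (l 2))) (l 2)), by decide +kernel⟩

def k9_pm_001 : ∃ t, chk3 f_pm_001 t 14 14 1 = true :=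
  ⟨(a (b (b (a (b (c (l 16721632) (l 16687536)) (c (l 16733200) (l 51640123799))) (b (l 16687392) (a (l 16686920) (l 16682776)))) (a (b (c (l 46808366727) (l 60230069815)) (l 2)) (a (b (l 16671800) (l 57545667127)) (b (l 16681824) (l 47345094167))))) (b (a (l 2) (b (a (l 2) (c (l 38755226775) (b (l 50566318167) (l 2)))) (l 2))) (l 2))) (b (b (a (c (l 16714848) (l 16653192)) (b (l 16691656) (l 16685872))) (a (b (l 16658432) (b (l 16679016) (a (l 16680192) (l 16676536)))) (b (l 16681448) (b (l 16636464) (l 16631064))))) (b (a (a (b (c (l 16685176) (l 16651624)) (l 45197514567)) (b (l 16665792) (l 31775732199))) (b (a (l 16621000) (l 16661992)) (a (l 16624240) (l 16603216)))) (a (b (a (l 2) (l 24796406759)) (l 2)) (b (a (l 19427695319) (l 16603936)) (a (c (l 16602016) (l 16566960)) (c (l 19427696007) (l 16552872)))))))), by decide +kernel⟩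

def k10_pm_001 : ∃ t, chk3 f_pm_001 t 15 14 1 = true :=
  ⟨(a (b (b (a (l 16695608) (l 16704848)) (a (b (a (l 16685488) (l 16688592)) (a (l 16676368) (l 16679552))) (b (b (l 16696480) (l 16692376)) (l 16686576)))) (b (a (b (a (l 16663112) (l 16666616)) (c (a (l 16687776) (l 16691704)) (l 16585632))) (b (l 16675432) (a (l 16635640) (l 16665016)))) (a (b (c (a (l 16671608) (l 16675800)) (a (l 16583032) (l 16586632))) (c (a (l 16651888) (l 16657528)) (a (l 16556936) (l 16562224)))) (b (a (c (l 16682024) (l 16592640)) (b (l 16651792) (l 16641608))) (a (c (l 16663960) (l 16568440)) (b (l 16609568) (a (l 16616736) (l 16621440)))))))) (b (b (a (b (l 16719904) (l 16713160)) (b (l 16732952) (b (l 16727856) (l 16724760)))) (a (b (a (l 16702672) (l 16710584)) (l 16700792)) (b (l 16723496) (l 16719552)))) (b (a (b (l 16692064) (l 16659160)) (b (l 16713240) (c (l 16744232) (l 16663568)))) (a (b (a (l 16658296) (l 16670920)) (a (b (l 16643040) (l 16605184)) (l 16651928))) (b (c (l 16734120) (l 16648840)) (c (l 16720576)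 (l 16629984))))))), by decide +kernel⟩

def k11_pm_001 : ∃ t, chk3 f_pm_001 t 14 15 1 = true :=
  ⟨(b (a (l 2) (b (a (l 2) (a (l 2) (b (b (l 16573464) (l 2)) (l 2)))) (l 2))) (l 2)), by decide +kernel⟩

def k12_pm_001 : ∃ t, chk3 f_pm_001 t 30 30 1 = true :=
  ⟨(b (c (a (b (a (b (l 16634312) (l 16621008)) (b (l 16641288) (l 16629048))) (a (b (l 16606280) (l 2)) (b (l 16615536) (l 16600600)))) (b (a (b (l 16649032) (l 16637760)) (b (l 16657344) (l 16647024))) (a (b (l 16625360) (l 16611696)) (b (l 16635640) (l 16623120))))) (a (b (a (l 16525800) (l 16512248)) (a (l 16513528) (l 16509104))) (b (a (b (l 16548712) (l 16534032)) (b (l 16557136) (l 16543552))) (a (b (l 16518032) (l 16479592)) (b (l 16528720) (l 16533560)))))) (a (a (l 2) (b (b (c (l 53250528151) (l 16468240)) (l 2)) (l 2))) (b (c (a (b (a (l 16593488) (l 16599808)) (a (l 16576456) (l 16583552))) (b (a (l 16606176) (l 16612584)) (a (l 16590664) (l 16597776)))) (a (b (l 16460496) (l 16460560)) (c (b (l 16524008) (l 16505832)) (l 16434792))))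 (a (a (l 2) (b (c (l 57008535927) (l 16420984)) (l 2))) (a (c (b (c (l 16603528) (l 16543256)) (c (l 59156005943) (l 62377196183))) (b (l 16429552) (l 46807721031))) (c (b (c (l 16611280) (l 16551328)) (c (l 16573384) (l 19427520903))) (b (l 16521984) (c (l 16489752) (l 16404000))))))))), by decide +kernel⟩

def k13_pm_001 : ∃ t, chk3 f_pm_001 t 31 60 1 = true :=
  ⟨(a (b (a (c (b (l 16668232) (l 16657240)) (b (l 16568680) (l 16554240))) (b (l 16634560) (c (l 16671752) (l 16570184)))) (a (c (b (l 16646184) (l 16634800)) (b (l 16539768) (l 16545904))) (c (b (a (l 16655288) (l 16663512)) (a (l 16643640) (l 16650584))) (b (a (l 16549512) (l 16558656)) (a (l 16534328) (l 16541880)))))) (b (c (a (l 16694384) (l 16711896)) (a (l 16596608) (l 16616320))) (a (b (l 16605376) (a (b (l 16610136) (l 16602192)) (l 16616912))) (c (l 16690944) (l 16588568))))), by decide +kernel⟩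

def k14_pm_001 : ∃ t, chk3 f_pm_001 t 62 61 1 = true :=
  ⟨(b (a (c (b (a (l 16619024) (l 16625472)) (a (l 16604888) (l 16611984))) (b (a (l 16505304) (l 16512200)) (a (l 16487272) (l 16494912)))) (c (b (a (l 16631936) (l 16638352)) (a (l 16619056) (l 16626104))) (b (a (l 16519112) (l 16526000)) (a (l 16502536) (l 16531120))))) (a (a (c (b (c (l 16618992) (l 16559360)) (c (l 16602888) (l 16541144))) (b (l 16509528) (c (l 16478088) (l 16413680)))) (c (b (c (l 16626648) (l 16567352)) (c (l 16611336) (l 16549984))) (b (l 16538968) (c (l 16487312) (l 16423288))))) (c (b (a (c (l 16634248) (l 16575280)) (c (l 16641784) (l 16583160))) (c (a (l 16619688) (l 16627936)) (a (l 16558728) (l 16577864)))) (b (a (c (l 16515072) (l 16453584)) (c (l 16523280) (l 16462120))) (a (c (l 16496448) (l 16432808)) (c (l 16505480) (l 16442232))))))), by decide +kernel⟩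

def k15_pm_001 : ∃ t, chk3 f_pm_001 t 63 61 1 = true :=
  ⟨(b (a (b (c (a (b (l 16649008) (l 16642368)) (l 16655616)) (a (b (l 16538304) (l 16529728)) (l 16545216))) (c (a (l 16612096) (b (l 16644488) (l 16637512))) (a (l 16559624) (b (l 16530904) (l 16542888))))) (b (c (l 16671928) (l 16563792)) (a (b (l 16600032) (c (l 16647760) (l 16533488))) (a (l 16578832) (l 16590368))))) (b (a (c (a (c (l 16649256) (l 16590968)) (c (l 16656600) (l 16598656))) (a (c (l 16531424) (l 16470600)) (c (l 16539456) (l 16478960)))) (c (a (b (c (l 16668320) (l 16611336)) (c (l 16661496) (l 16603512))) (b (l 16651824) (l 16601720))) (a (b (a (l 16520272) (l 16526520)) (c (l 16544248) (l 16483664))) (b (l 16537056) (l 16568552))))) (a (b (c (a (l 16588856) (l 16586432)) (a (l 16529760) (l 16559552))) (c (a (c (l 16632632) (l 16571984)) (c (l 16620040) (b (l 16582496) (l 16579056)))) (a (c (l 16509976) (l 16446584)) (c (b (l 16521136) (l 16517248)) (l 16477216))))) (b (c (a (c (l 16655128) (l 16596208)) (c (l 16643520) (a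 (l 16602984) (l 16609096)))) (a (c (l 16535968) (l 16474368)) (a (c (l 16543104) (l 16481872)) (l 16540360)))) (c (b (a (l 16599904) (a (l 16626960) (l 16589952))) (a (c (l 16648112) (l 16588160)) (a (l 16582984) (b (a (l 16628032) (l 16609728)) (l 16629648))))) (b (a (l 16540904) (a (l 16505640) (l 16553120))) (a (c (l 16547816) (l 16464136)) (a (c (l 16534024) (l 16471688)) (c (b (l 16538920) (l 16539200)) (l 16497992)))))))))), by decide +kernel⟩

def k16_pm_001 : ∃ t, chk3 f_pm_001 t 30 31 1 = true :=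
  ⟨(b (b (a (l 2) (b (a (l 2) (a (l 2) (b (b (c (l 61840342023) (l 45197068135)) (l 2)) (l 2)))) (l 2))) (l 2)) (l 2)), by decide +kernel⟩

def k17_pm_001 : ∃ t, chk3 f_pm_001 t 62 62 1 = true :=
  ⟨(b (c (a (b (b (a (b (c (l 16592104) (l 16528992)) (l 16538336)) (b (c (l 16601464) (l 16538824)) (l 16548952))) (c (a (l 16591904) (l 16602280)) (a (l 16528824) (l 16539816)))) (c (a (l 15669498455) (l 15132649559)) (a (l 15132542839) (b (l 16541824) (l 16544024))))) (b (b (a (c (l 16611080) (b (l 16548768) (l 16549120))) (c (l 16620728) (l 16559200))) (c (l 16617424) (a (l 16550584) (l 16561128)))) (c (a (l 16615240) (l 16625320)) (a (b (l 16552696) (l 16554992)) (b (l 16563336) (l 16565720)))))) (c (a (b (b (b (a (l 16464504) (l 16474824)) (l 16489624)) (a (l 16464416) (l 16476024))) (c (a (l 16483928) (l 16495552)) (l 6))) (b (a (b (b (l 16485280) (l 16485704)) (l 16487400)) (b (l 16496320) (l 16498552))) (a (b (l 16489848) (l 16492504)) (b (l 16501104) (l 16503864))))) (b (b (a (b (l 16383200) (l 16402944))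 (a (l 16441696) (l 16432064))) (a (l 16383792) (l 6))) (a (a (l 16402624) (l 6)) (l 6))))) (c (a (a (l 2) (a (l 2) (b (b (l 8690133447) (l 2)) (l 2)))) (b (c (a (l 15669551943) (l 16629760)) (a (b (l 16557472) (l 16560144)) (b (l 16568296) (l 16571048)))) (c (a (l 15132692247) (l 15669584919)) (a (b (l 16563008) (l 2)) (b (l 16574000) (l 16556176)))))) (b (a (c (a (l 2) (b (l 16483680) (l 2))) (l 21574825447)) (c (a (b (l 16495376) (l 16498464)) (b (l 16506832) (l 16510016))) (l 6))) (a (l 2) (c (a (b (l 16501776) (l 2)) (b (l 16513416) (l 16527528))) (l 6)))))), by decide +kernel⟩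

def k18_pm_001 : ∃ t, chk3 f_pm_001 t 63 62 1 = true :=
  ⟨(b (a (c (b (c (a (l 16610248) (l 16640688)) (a (b (l 16569344) (l 16571456)) (l 16580448))) (c (a (l 16635176) (l 16644824)) (a (l 16574968) (l 16585216)))) (b (a (c (b (l 16507032) (l 16509480)) (l 16444752)) (c (l 16539856) (l 16455968))) (c (a (l 16513528) (l 16524376)) (a (l 16450832) (l 16462288))))) (c (b (c (a (l 16649976) (l 16658968)) (a (l 16579824) (b (l 16598776) (l 16601184)))) (c (a (l 16654264) (l 16663496)) (a (l 16595240) (l 16605056)))) (b (c (a (l 16560784) (b (l 16538192) (l 16540960))) (a (l 16467000) (b (l 16476248) (l 16479416)))) (c (a (l 16555976) (l 16566384)) (a (l 16473520) (l 16505496)))))) (c (a (b (c (a (l 16639776) (l 16649568)) (a (b (l 16578888) (l 16581728)) (l 16569712))) (c (a (l 16645024) (l 16654944)) (a (b (l 16584752) (l 16587976)) (c (l 16611504) (l 16582224))))) (b (c (a (l 16659144) (l 16668504)) (a (l 16600864) (l 16610832))) (c (a (l 16664648) (l 16674128)) (a (c (l 16621664) (l 16592704)) (l 16617312)))))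 (a (c (b (a (b (l 16518048) (l 16521320)) (b (l 16529032) (l 16532392))) (a (b (l 16524808) (l 16528520)) (b (l 16535960) (l 16539752)))) (a (l 6) (b (b (l 16467640) (l 6)) (l 6)))) (b (c (a (b (l 16539784) (l 16543224)) (b (l 16550312) (l 16553832))) (a (b (l 16479008) (l 16482952)) (l 16513104))) (c (a (b (l 16546880) (l 16550744)) (b (l 16557560) (l 16561496))) (c (a (l 16504280) (l 16515464)) (l 6))))))), by decide +kernel⟩

def k19_pm_001 : ∃ t, chk3 f_pm_001 t 62 63 1 = true :=
  ⟨(b (a (l 2) (a (l 2) (b (a (l 2) (b (b (c (l 16569872) (l 19427511623)) (l 2)) (l 2))) (l 2)))) (l 2)), by decide +kernel⟩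

def k20_pm_001 : ∃ t, chk3 f_pm_001 t 63 63 1 = true :=
  ⟨(c (b (a (b (c (a (l 16629976) (l 16660992)) (a (b (l 16591400) (l 16743240167)) (b (l 16602056) (l 16605744)))) (b (c (l 17280263879) (a (l 16206377575) (l 10837691319))) (c (l 16743379719) (a (l 2) (l 16206409303))))) (b (c (a (l 16670808) (l 16680392)) (a (c (l 16628528) (l 16600064)) (c (l 16638584) (l 16610432)))) (b (c (l 16680712) (a (l 16620168) (l 16630464))) (c (l 16684344) (a (l 16603352) (l 16634664)))))) (a (b (a (l 2) (b (c (l 16673296) (l 17280160407)) (l 2))) (l 2)) (b (b (c (l 16667176) (a (l 12448344455) (l 16639072))) (c (l 16206567431) (a (l 15132708999) (l 16622720)))) (b (c (l 19427802103) (a (l 18353944887) (l 14058999495))) (c (l 19427811351) (a (l 2) (l 13522139687))))))) (b (a (c (c (b (a (b (l 16547280) (l 16551304)) (b (l 16558424) (l 16562520))) (a (b (l 16534584) (l 2)) (b (l 16566840) (l 17280091991)))) (b (a (l 6) (b (l 16529048) (l 6))) (l 6))) (l 6)) (c (b (a (b (l 16554824) (c (l 16573488) (l 16544720))) (b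 (l 16565640) (l 16549040))) (a (b (c (l 16577864) (l 16549408)) (c (l 16582472) (l 6))) (b (c (l 16588640) (l 16560512)) (c (l 16593304) (l 16565496))))) (b (a (l 6) (b (l 16507688) (l 6))) (l 6)))) (c (c (a (b (a (l 2) (b (l 23185682247) (l 2))) (l 2)) (b (a (b (l 8690190551) (a (l 16589616) (l 16595144))) (b (l 16598192) (a (l 16600608) (l 16606008)))) (a (b (a (l 2) (l 16600472)) (l 2)) (b (a (l 16605952) (l 16611368)) (a (l 24259500375) (l 16616976)))))) (a (l 6) (b (a (l 6) (b (a (l 6) (l 16573496)) (l 6))) (l 6)))) (l 6)))), by decide +kernel⟩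

theorem s21_pm_001 : ∃ t, chk3 f_pm_001 t 31 63 1 = true := ex3_a k19_pm_001 k20_pm_001

theorem s22_pm_001 : ∃ t, chk3 f_pm_001 t 31 62 1 = true := ex3_a k17_pm_001 k18_pm_001

theorem s23_pm_001 : ∃ t, chk3 f_pm_001 t 31 31 1 = true := ex3_b s22_pm_001 s21_pm_001

theorem s24_pm_001 : ∃ t, chk3 f_pm_001 t 15 31 1 = true := ex3_a k16_pm_001 s23_pm_001

theorem s25_pm_001 : ∃ t, chk3 f_pm_001 t 31 61 1 = true := ex3_a k14_pm_001 k15_pm_001

theorem s26_pm_001 : ∃ t, chk3 f_pm_001 t 31 30 1 = true := ex3_b k13_pm_001 s25_pm_001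

theorem s27_pm_001 : ∃ t, chk3 f_pm_001 t 15 30 1 = true := ex3_a k12_pm_001 s26_pm_001

theorem s28_pm_001 : ∃ t, chk3 f_pm_001 t 15 15 1 = true := ex3_b s27_pm_001 s24_pm_001

theorem s29_pm_001 : ∃ t, chk3 f_pm_001 t 7 15 1 = true := ex3_a k11_pm_001 s28_pm_001

theorem s30_pm_001 : ∃ t, chk3 f_pm_001 t 7 14 1 = true := ex3_a k9_pm_001 k10_pm_001

theorem s31_pm_001 : ∃ t, chk3 f_pm_001 t 7 7 1 = true := ex3_b s30_pm_001 s29_pm_001

theorem s32_pm_001 : ∃ t, chk3 f_pm_001 t 3 7 1 = true := ex3_a k8_pm_001 s31_pm_001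

theorem s33_pm_001 : ∃ t, chk3 f_pm_001 t 6 6 1 = true := ex3_b k5_pm_001 k6_pm_001

theorem s34_pm_001 : ∃ t, chk3 f_pm_001 t 3 6 1 = true := ex3_a s33_pm_001 k7_pm_001

theorem s35_pm_001 : ∃ t, chk3 f_pm_001 t 3 3 1 = true := ex3_b s34_pm_001 s32_pm_001

theorem s36_pm_001 : ∃ t, chk3 f_pm_001 t 7 5 1 = true := ex3_b k3_pm_001 k4_pm_001

theorem s37_pm_001 : ∃ t, chk3 f_pm_001 t 3 5 1 = true := ex3_a k2_pm_001 s36_pm_001

theorem s38_pm_001 : ∃ t, chk3 f_pm_001 t 3 2 1 = true := ex3_b k1_pm_001 s37_pm_001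

theorem s39_pm_001 : ∃ t, chk3 f_pm_001 t 3 1 1 = true := ex3_b s38_pm_001 s35_pm_001

theorem s40_pm_001 : ∃ t, chk3 f_pm_001 t 1 1 1 = true := ex3_a k0_pm_001 s39_pm_001

theorem c_pm_001 : CertN 0 536870912 536870912 536870912 469762048 67108864 3 false true false .up 0 0 1
    ndN0q0 ndN0q1 pcN0 cut_pm_001 Ext.none :=
  certN0 (fam := false) (s1 := true) (s2 := false) (a := 0) (b := 0) (c := 1) (cn := .up) (n1 := ndN0q0) (n2 := ndN0q1) (pc := pcN0) (cut := cut_pm_001) (xt := Ext.none) (P1 := 0) (W1 := 536870912) (P2 := 536870912) (W2 := 536870912) (P3 := 469762048) (W3 := 67108864) (N0 := 3)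
    rfl s40_pm_001

end Pool.Agent.Strip051.G.I7_16_1_2.Tab.C.NB00

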