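import Pool.Agent.Strip051.G.I7_16_1_2.Tab

/-! # Certificates N11 (generated) -/

set_option linter.all false
set_option maxRecDepth 100000

namespace Pool.Agent.Strip051.G.I7_16_1_2.Tab.C.NB00

open Pool.Agent.Strip051.PB Pool.Agent.Strip051.PB.T
open Pool.Agent.Strip051.G.I7_16_1_2.Tab

noncomputable def cut_pm_011 : Cut := Cut.of [[⟨0, 0, 0, 67108864⟩, ⟨1, 1, 0, 67108864⟩, ⟨2, 1, 0, 67108864⟩], [⟨0, 0, 1, 33554432⟩, ⟨1, 1, 2, 33554432⟩, ⟨2, 1, 0, 33554432⟩]]

noncomputable def f_pm_011 : ℕ → ℕ → ℕ → ℕ → Bool := onCell 0 536870912 536870912 536870912 469762048 67108864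
    (rowN 3 0 false true false .pnn 0 1 1 (qsf 0 536870912 536870912 536870912 1) ndN0q0 ndN0q1 pcN1 cut_pm_011 Ext.none)

def k0_pm_011 : ∃ t, chk3 f_pm_011 t 2 2 1 = true :=
  ⟨(l 4), by decide +kernel⟩

def k1_pm_011 : ∃ t, chk3 f_pm_011 t 4 6 1 = true :=
  ⟨(l 4), by decide +kernel⟩

def k2_pm_011 : ∃ t, chk3 f_pm_011 t 8 14 1 = true :=
  ⟨(l 4), by decide +kernel⟩

def k3_pm_011 : ∃ t, chk3 f_pm_011 t 9 28 1 = true :=
  ⟨(l 4), by decide +kernel⟩

def k4_pm_011 : ∃ t, chk3 f_pm_011 t 18 29 1 = true :=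
  ⟨(l 4), by decide +kernel⟩

def k5_pm_011 : ∃ t, chk3 f_pm_011 t 19 58 1 = true :=
  ⟨(l 4), by decide +kernel⟩

def k6_pm_011 : ∃ t, chk3 f_pm_011 t 38 59 1 = true :=
  ⟨(l 4), by decide +kernel⟩

def k7_pm_011 : ∃ t, chk3 f_pm_011 t 39 118 1 = true :=
  ⟨(l 4), by decide +kernel⟩

def k8_pm_011 : ∃ t, chk3 f_pm_011 t 78 119 1 = true :=
  ⟨(b (l 4) (a (l 4) (b (l 4) (a (b (l 4) (b (l 4) (a (l 4) (a (l 4) (c (l 157001188951) (l 175791670263)))))) (b (a (l 4) (a (l 4) (b (l 4) (c (b (l 157538059703) (l 128547033895)) (l 112440908343))))) (a (b (a (l 4) (b (l 4) (c (l 131231388791) (l 134989484343)))) (c (c (l 83449876903) (l 80765522071)) (c (l 77544295719) (l 74859940679)))) (a (c (c (l 59827556215) (l 58753813575)) (c (l 56069458455) (l 16778568))) (c (l 16779952) (l 16776864))))))))), by decide +kernel⟩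

def k9_pm_011 : ∃ t, chk3 f_pm_011 t 79 119 1 = true :=
  ⟨(b (a (l 4) (b (a (l 4) (a (l 4) (a (l 4) (b (l 4) (c (l 161833028455) (l 169349220519)))))) (a (b (l 4) (a (a (l 4) (b (l 4) (c (l 163443642183) (l 162369897079)))) (c (b (a (l 159148672919) (l 129620776791)) (c (l 75396812647) (l 16779056))) (b (a (l 166664865015) (l 115125262807)) (c (l 16777560) (l 16777392)))))) (b (a (b (l 4) (a (c (l 155927447159) (l 175254799303)) (c (l 121030841943) (l 102240361095)))) (c (b (a (l 164517381463) (l 106535325527)) (l 16780384)) (b (a (l 169349218999) (l 93650423671)) (l 16777296)))) (c (c (a (l 16778976) (l 16776664)) (l 16779512)) (c (l 16779232) (l 16776352))))))) (a (b (a (b (l 4) (a (l 4) (b (l 4) (c (c (l 134452610247) (l 134989480807)) (a (l 173107315511) (l 82376136311)))))) (b (b (a (l 4) (a (l 4) (c (l 155390576151) (l 174717928327)))) (a (a (l 4) (c (l 158611801911) (l 166127994039))) (c (a (l 127473292727) (l 74859942503)) (a (l 109219682727) (l 16780096))))) (a (c (b (c (l 107072197815) (l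 105461584567)) (l 16780224)) (b (a (l 115125262983) (l 71638717191)) (l 16777144))) (c (l 16779688) (l 16776536))))) (c (c (a (b (a (b (l 146263770535) (l 63048781335)) (l 16777464)) (l 16776152)) (l 16774888)) (a (b (a (b (l 147337512007) (l 16777664)) (l 16777200)) (l 16775840)) (l 16774544))) (a (c (b (a (b (l 147874382615) (l 16777472)) (l 16776952)) (l 16775560)) (b (a (b (l 148948124167) (l 16777296)) (l 16776728)) (l 16775304))) (b (l 16779040) (l 16778288))))) (c (b (a (b (a (a (c (l 70564974871) (l 66806878103)) (l 16780160)) (l 16776792)) (l 16775408)) (c (l 16774304) (l 16773928))) (c (l 16776704) (l 16776280))) (a (b (b (a (c (l 56606328791) (l 34057752855)) (l 16776224)) (l 16780024)) (l 16776920)) (b (a (l 16779264) (l 16778056)) (l 16774496)))))), by decide +kernel⟩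

def k10_pm_011 : ∃ t, chk3 f_pm_011 t 16 30 1 = true :=
  ⟨(l 4), by decide +kernel⟩

def k11_pm_011 : ∃ t, chk3 f_pm_011 t 17 60 1 = true :=
  ⟨(l 4), by decide +kernel⟩

def k12_pm_011 : ∃ t, chk3 f_pm_011 t 34 61 1 = true :=
  ⟨(l 4), by decide +kernel⟩

def k13_pm_011 : ∃ t, chk3 f_pm_011 t 35 122 1 = true :=
  ⟨(l 4), by decide +kernel⟩

def k14_pm_011 : ∃ t, chk3 f_pm_011 t 70 123 1 = true :=
  ⟨(l 4), by decide +kernel⟩

def k15_pm_011 : ∃ t, chk3 f_pm_011 t 71 246 1 = true :=
  ⟨(l 4), by decide +kernel⟩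

def k16_pm_011 : ∃ t, chk3 f_pm_011 t 142 247 1 = true :=
  ⟨(l 4), by decide +kernel⟩

def k17_pm_011 : ∃ t, chk3 f_pm_011 t 143 494 1 = true :=
  ⟨(l 4), by decide +kernel⟩

def k18_pm_011 : ∃ t, chk3 f_pm_011 t 286 495 1 = true :=
  ⟨(b (l 4) (a (l 4) (b (l 4) (c (a (a (l 4) (b (l 4) (c (b (l 132305127399) (l 79691777511)) (b (l 139284448999) (l 80228648247))))) (c (b (a (l 163980510119) (b (l 130694514567) (l 64659391911))) (c (l 30299653127) (l 16777856))) (b (a (l 167738606391) (b (l 134452610775) (l 16777984))) (c (l 16777824) (l 16778448))))) (a (a (l 4) (b (l 4) (c (b (l 139284448919) (l 16777920)) (l 74323069383)))) (c (b (a (l 171496702695) (c (l 81839261351) (l 81302390391))) (l 16778400)) (b (a (l 175791669911) (l 66806876535)) (l 16778352)))))))), by decide +kernel⟩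

def k19_pm_011 : ∃ t, chk3 f_pm_011 t 287 495 1 = true :=
  ⟨(b (a (l 4) (c (b (a (l 4) (b (l 4) (c (l 166664865063) (l 169886090423)))) (a (b (l 4) (c (a (b (l 4) (l 105461581575)) (c (l 62511908327) (l 61438166471))) (a (b (l 4) (l 105461581399)) (c (l 59827553687) (l 60901295367))))) (c (b (a (b (l 4) (l 93650421447)) (c (l 53385102839) (l 52311360951))) (l 16777064)) (b (a (b (l 4) (l 93113550359)) (l 40500201287)) (l 16776984))))) (b (a (l 4) (b (l 4) (c (l 174717928535) (l 179012895751)))) (b (a (l 4) (c (a (b (l 4) (l 16778024)) (l 16778256)) (a (l 85060487703) (l 16778536)))) (c (a (a (l 95797905959) (l 41573943367)) (l 16776920)) (a (a (l 92576680567) (l 38352717815)) (l 16776864))))))) (c (b (a (a (b (l 4) (c (a (l 160222413639) (b (l 125862676279) (l 16778032))) (a (l 161833026279) (c (l 85060486519) (l 84523615559))))) (c (b (a (l 151095608039) (c (l 71101842951) (l 71638713735))) (l 16778448)) (b (a (l 153243091591) (c (l 71101842775) (l 70028100903))) (l 16778384)))) (c (c (l 16777272)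 (l 16777224)) (c (l 16777184) (l 16777144)))) (c (a (a (c (l 16777936) (l 16777576)) (l 16776408)) (l 16775608)) (a (a (a (l 16778312) (l 16776728)) (l 16776320)) (l 16775496)))) (a (b (a (b (l 4) (c (a (l 165054251655) (c (l 78618035639) (l 77007422871))) (a (l 167738606135) (l 59290683703)))) (c (b (a (l 155927446055) (l 48553265335)) (l 16778320)) (b (a (l 100629744503) (l 52311361655)) (l 16778264)))) (a (c (c (l 16778120) (l 16778088)) (l 16778048)) (c (l 16776240) (l 16776168)))) (c (b (c (l 16777104) (l 16777064)) (l 16775400)) (b (l 16776688) (l 16776616)))))), by decide +kernel⟩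

def k20_pm_011 : ∃ t, chk3 f_pm_011 t 16 31 1 = true :=
  ⟨(b (b (l 4) (l 6)) (l 6)), by decide +kernel⟩

def k21_pm_011 : ∃ t, chk3 f_pm_011 t 68 124 1 = true :=
  ⟨(l 4), by decide +kernel⟩

def k22_pm_011 : ∃ t, chk3 f_pm_011 t 69 248 1 = true :=
  ⟨(l 4), by decide +kernel⟩

def k23_pm_011 : ∃ t, chk3 f_pm_011 t 138 249 1 = true :=
  ⟨(l 4), by decide +kernel⟩

def k24_pm_011 : ∃ t, chk3 f_pm_011 t 139 498 1 = true :=
  ⟨(l 4), by decide +kernel⟩

def k25_pm_011 : ∃ t, chk3 f_pm_011 t 278 499 1 = true :=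
  ⟨(l 4), by decide +kernel⟩

def k26_pm_011 : ∃ t, chk3 f_pm_011 t 279 998 1 = true :=
  ⟨(l 4), by decide +kernel⟩

def k27_pm_011 : ∃ t, chk3 f_pm_011 t 279 999 2 = true :=
  ⟨(a (b (l 4) (a (b (l 4) (a (l 4) (a (l 4) (b (l 4) (c (l 92576679527) (l 90966066775)))))) (a (b (l 4) (b (a (l 4) (c (l 86671099495) (l 85597357623))) (c (c (l 16777608) (l 16777912)) (l 22783460759)))) (b (a (l 4) (b (l 4) (c (l 81302390343) (l 80228648471)))) (c (c (l 16777800) (l 16777776)) (l 16777912)))))) (b (a (b (l 4) (a (l 4) (a (c (l 163443639047) (l 167738606279)) (b (l 4) (c (l 70564972039) (l 68954359255)))))) (a (b (l 4) (b (a (c (l 104924710679) (l 103850968839)) (c (l 65196262887) (l 63585650103))) (c (l 16777864) (l 16777824)))) (c (b (b (l 4) (a (l 103850968823) (l 56069457335))) (l 16777728)) (b (b (l 4) (c (l 75933681015) (l 75933680983))) (l 16777688))))) (c (a (b (a (b (a (l 107609065271) (l 75933681191)) (l 17414751575)) (l 16777920)) (l 16777064)) (c (l 16776472) (l 16776448))) (a (b (a (b (a (l 105998452519)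 (l 74323068439)) (l 16777856)) (l 16777720)) (l 16777344)) (c (l 16776416) (l 16777048)))))), by decide +kernel⟩

def k28_pm_011 : ∃ t, chk3 f_pm_011 t 279 999 3 = true :=
  ⟨(a (b (l 4) (a (b (l 4) (a (l 4) (b (l 4) (c (c (l 98482259559) (l 97945388631)) (l 92039808967))))) (a (b (l 4) (b (c (c (l 94187292231) (l 93650421287)) (l 87744841639)) (c (l 16777856) (l 16777832)))) (b (b (l 4) (c (c (l 92039808471) (l 89355453959)) (l 83449874311))) (c (l 16777712) (l 16777688)))))) (b (a (b (l 4) (a (l 4) (b (l 4) (c (c (l 83449873799) (l 82913002871)) (l 75396810551))))) (a (a (b (l 4) (b (c (l 104387839703) (l 104387839655)) (b (l 38889588711) (l 16777128)))) (b (l 4) (c (l 21172848199) (l 16777824)))) (c (b (b (l 4) (c (l 74859939143) (l 72175584631))) (l 16777648)) (b (b (l 4) (l 66806875895)) (l 16777616))))) (c (c (a (b (b (a (l 87744841127) (l 16777160)) (l 16777696)) (l 16776656)) (l 16777016)) (a (a (b (b (l 87207970199) (l 16777160)) (l 16776776)) (l 16777736)) (l 16776992))) (a (a (a (b (b (l 107072194295)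 (l 16777864)) (l 16776816)) (c (l 16777936) (l 16777920))) (c (l 16777720) (l 16777376))) (c (l 16776968) (l 16776952)))))), by decide +kernel⟩

def k29_pm_011 : ∃ t, chk3 f_pm_011 t 68 125 1 = true :=
  ⟨(b (b (l 4) (l 6)) (l 6)), by decide +kernel⟩

def k30_pm_011 : ∃ t, chk3 f_pm_011 t 276 500 1 = true :=
  ⟨(l 4), by decide +kernel⟩

def k31_pm_011 : ∃ t, chk3 f_pm_011 t 277 1000 1 = true :=
  ⟨(l 4), by decide +kernel⟩

def k32_pm_011 : ∃ t, chk3 f_pm_011 t 554 1001 1 = true :=
  ⟨(b (l 4) (c (a (l 4) (b (l 4) (a (a (l 4) (b (l 4) (c (c (l 90966066487) (l 90966066455)) (l 84523615767)))) (c (b (a (l 4) (c (l 92576679031) (l 86134228215))) (c (l 23857202199) (l 16777728))) (a (b (l 4) (l 35668362471)) (b (l 79154906663) (l 16777144))))))) (a (l 4) (b (l 4) (a (a (l 4) (b (l 4) (c (l 83449873943) (l 82913002999)))) (b (a (l 4) (c (l 78618035703) (l 78081164759))) (c (l 16777840) (l 16777816)))))))), by decide +kernel⟩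

def k33_pm_011 : ∃ t, chk3 f_pm_011 t 555 1001 1 = true :=
  ⟨(c (b (a (l 4) (b (l 4) (a (b (l 4) (a (c (c (l 136063222839) (l 138210706455)) (l 102240356055)) (c (c (l 77544293399) (l 77007422455)) (l 64122521031)))) (b (a (c (c (l 134989480983) (l 136063222775)) (l 102240356023)) (c (c (l 80228647767) (l 74859938711)) (l 59290682791))) (c (l 16777840) (l 16777808)))))) (c (b (a (a (a (l 4) (b (l 4) (a (l 97408517671) (l 70564971847)))) (c (b (a (l 137673835607) (l 82376131639)) (l 16777872)) (b (a (l 139284448311) (l 82376131607)) (l 16777856)))) (a (b (l 10435429559) (l 16776952)) (l 16776808))) (a (a (c (c (l 16777776) (l 16777760)) (l 16777752)) (l 16776840)) (l 16777104))) (b (b (a (a (l 4) (a (l 103850968823) (l 68954359271))) (l 16777848)) (a (a (a (l 4) (l 74323068423)) (l 16777840)) (l 16777432))) (a (a (a (l 7214204199) (l 16777000)) (l 16776800)) (l 16777048))))) (b (a (l 4) (a (b (l 4) (b (l 4) (c (c (l 75933681111) (l 75933681095)) (c (l 75396810167) (l 75396810135))))) (a (b (l 4) (b (c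 (l 103314097767) (l 102777226855)) (c (l 16777848) (l 16777824)))) (b (l 4) (c (c (l 16777808) (l 16777832)) (l 17414751655)))))) (c (b (a (a (b (l 4) (c (l 83986744855) (l 83449873927))) (b (c (l 79691777527) (l 79691777511)) (l 16777808))) (c (l 16777536) (l 16777520))) (a (c (l 16777728) (l 16777552)) (l 16777000))) (c (a (b (a (b (l 4) (l 83449873911)) (b (l 79154906583) (l 16777136))) (l 16777536)) (l 16776912)) (a (b (a (b (l 4) (l 82913002983)) (b (l 79154906567) (l 16777120))) (l 16777520)) (l 16776888)))))), by decide +kernel⟩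

def k34_pm_011 : ∃ t, chk3 f_pm_011 t 276 501 1 = true :=
  ⟨(b (b (b (l 4) (l 6)) (l 6)) (l 6)), by decide +kernel⟩

def k35_pm_011 : ∃ t, chk3 f_pm_011 t 277 1002 1 = true :=
  ⟨(c (a (b (a (b (b (a (l 4) (a (l 4) (b (l 4) (c (l 86671099079) (l 83986744551))))) (c (a (c (l 152706220583) (l 153779962391)) (c (c (l 34594620343) (l 34057749415)) (l 29762782263))) (c (a (l 155927446007) (l 28152169575)) (a (l 100629743207) (l 16777728))))) (c (a (a (l 6) (l 16777744)) (l 16777552)) (a (a (l 6) (l 16777712)) (l 16777512)))) (a (b (b (c (c (c (l 30836523927) (l 30836523911)) (l 26541556759)) (c (l 16777720) (l 16777872))) (c (l 16777008) (l 16776968))) (c (l 16776632) (l 16776584))) (c (c (l 16776632) (l 16776608)) (c (l 16776912) (l 16777216))))) (c (c (a (l 16776624) (l 16775768)) (a (l 16776592) (l 16775736))) (c (a (l 16776568) (l 16775704)) (a (l 16776544) (l 16775672))))) (a (b (c (c (l 16776568) (l 16776536)) (c (l 16776512) (l 16776480))) (c (l 16775880) (l 16775800))) (c (b (c (l 16775720) (l 16775680))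 (l 16774704)) (b (l 16775960) (l 16774608))))) (a (b (c (b (c (a (a (l 162369897191) (b (l 97408517671) (l 16777872))) (c (l 16777600) (l 16777592))) (a (a (l 164517380807) (b (l 96871646743) (l 16777864))) (l 16777744))) (a (a (a (l 6) (l 16777688)) (l 16777480)) (l 16777064))) (a (c (b (a (l 165591122615) (b (l 96871646727) (l 16777856))) (l 16777760)) (b (a (l 166127993511) (b (l 96334775799) (l 16777840))) (l 16777912))) (b (c (l 16777896) (l 16777880)) (l 16777680)))) (a (b (c (l 16777096) (l 16777056)) (l 6)) (c (c (l 16775640) (l 16775608)) (c (l 16775584) (l 16776864))))) (c (c (b (a (l 16776784) (l 16775576)) (l 16774816)) (b (a (l 16776760) (l 16775552)) (l 16775432))) (b (l 16776280) (c (l 16775392) (l 16775360)))))), by decide +kernel⟩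

def k36_pm_011 : ∃ t, chk3 f_pm_011 t 277 1003 1 = true :=
  ⟨(b (a (a (l 6) (c (c (l 16774760) (l 16774664)) (c (l 16774576) (l 16774504)))) (c (c (l 16774624) (l 16774512)) (c (l 16774408) (l 16774312)))) (a (l 6) (c (c (l 16772968) (l 16772832)) (c (l 16772704) (l 16772584))))), by decide +kernel⟩

def k37_pm_011 : ∃ t, chk3 f_pm_011 t 556 1000 1 = true :=
  ⟨(b (l 4) (c (a (l 4) (a (b (l 4) (b (l 4) (a (c (c (l 113514644487) (l 113514644455)) (l 88281712215)) (c (l 42110813479) (l 38889588039))))) (b (l 4) (b (a (b (l 4) (c (l 79154906263) (l 16777944))) (c (l 36742104359) (l 16777928))) (c (l 16777128) (l 16777088)))))) (a (l 4) (a (b (l 4) (b (l 4) (c (c (l 60364424535) (l 59827553607)) (l 56606328503)))) (a (b (l 4) (b (c (l 82376132103) (l 81839261143)) (l 16778096))) (b (l 4) (c (l 16777776) (l 16777752)))))))), by decide +kernel⟩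

def k38_pm_011 : ∃ t, chk3 f_pm_011 t 557 1000 1 = true :=
  ⟨(c (b (a (a (l 4) (b (l 4) (b (l 4) (c (l 163443638919) (l 167738606167))))) (a (b (l 4) (c (b (l 161833026151) (c (c (l 61975036679) (l 61975036663)) (l 43184555223))) (b (l 164517380647) (c (l 41037071623) (l 39963329783))))) (a (b (l 4) (b (c (c (l 81839260599) (l 81302389655)) (l 61975037367)) (c (l 16777136) (l 16777096)))) (b (b (l 4) (c (l 102777226967) (l 101703485127))) (c (l 16777784) (l 16777744)))))) (c (c (a (b (b (a (l 163980509879) (c (l 68417487687) (l 57143198679))) (a (b (l 100629742519) (l 16777952)) (l 16777104))) (l 16776864)) (l 16776920)) (a (b (a (b (l 166127993495) (c (l 59290682503) (l 59290682487))) (a (b (l 96871646087) (l 16777152)) (l 16777144))) (l 16776848)) (l 16776896))) (a (b (a (b (l 168812348023) (c (l 54995715335) (l 54458844391))) (b (c (l 45868909815) (l 50163877079)) (l 16777056))) (c (l 16776824) (l 16776800))) (c (l 16776872) (l 16776760))))) (b (a (b (l 4) (a (l 4) (b (l 4) (c (l 170959831591) (l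 175254798839))))) (a (b (l 4) (b (c (l 167738606071) (l 170959831511)) (c (l 36205233687) (l 34057749991)))) (b (b (l 4) (c (l 162906767831) (l 100629743639))) (c (c (l 16777792) (l 16777776)) (l 9898559015))))) (a (c (b (a (b (l 173107315271) (c (l 53921973463) (l 51774489863))) (c (c (l 19025364167) (l 18488493239)) (l 16877880647))) (l 16777760)) (b (a (b (l 177402282519) (l 49627006439)) (b (l 45332039127) (l 16777000))) (l 16777720))) (c (c (l 16776736) (l 16776720)) (b (l 16777688) (l 16776176)))))), by decide +kernel⟩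

def k39_pm_011 : ∃ t, chk3 f_pm_011 t 278 1001 1 = true :=
  ⟨(c (a (b (c (a (b (a (b (l 4) (a (l 100629743255) (a (l 72712455511) (l 42110813399)))) (b (c (a (l 118883353639) (l 64122520375)) (a (l 118883353607) (l 16777608))) (l 16777808))) (c (l 16777256) (l 16777560))) (b (a (l 16777672) (l 16776752)) (l 16777040))) (a (b (a (b (l 4) (a (l 99556001431) (l 54458844519))) (b (a (l 94187292231) (l 44258297143)) (l 16777776))) (c (l 16777536) (l 16777520))) (b (c (l 16776856) (l 16776832)) (l 16776992)))) (a (c (c (l 16776184) (l 16776152)) (c (l 16776120) (l 16776752))) (c (l 16775968) (l 16775896)))) (a (b (c (c (l 16776128) (l 16776096)) (c (l 16776064) (l 16776032))) (c (l 16775112) (l 16775032))) (c (b (l 16776240) (l 16774592)) (b (l 16776168) (l 16774488))))) (a (c (c (b (a (b (a (b (l 4) (l 68417488279)) (b (l 64122520951) (l 16777096))) (l 16777504)) (c (l 16776808) (l 16776800))) (a (l 16776720) (l 16775520))) (b (a (b (a (b (l 4) (l 67880617351)) (b (l 63585650023) (l 16777080))) (l 16777488))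 (c (l 16776704) (l 16776696))) (a (l 16776696) (l 16775488)))) (a (b (b (a (b (l 4) (c (l 67343746407) (l 66806875479))) (a (b (l 92576679447) (l 16777136)) (l 16777784))) (l 16776968)) (c (l 16777328) (l 16777304))) (b (l 16777160) (l 16776752)))) (c (a (b (a (l 16776784) (l 16775856)) (l 16774952)) (b (l 16776096) (l 16774392))) (a (l 16776064) (b (l 16776688) (l 16774312)))))), by decide +kernel⟩

def k40_pm_011 : ∃ t, chk3 f_pm_011 t 279 500 1 = true :=
  ⟨(b (c (c (c (a (b (a (b (a (b (a (l 4) (l 120493966455)) (l 37815846023)) (c (l 14193525815) (l 13656654887))) (l 16776808)) (l 16776864)) (c (l 16776144) (l 16776128))) (b (l 16776080) (l 16774760))) (a (a (b (b (a (b (l 103850968871) (l 36742104167)) (c (l 16777816) (l 16777808))) (l 16776784)) (l 16776032)) (b (l 16776832) (l 16775504))) (b (l 16776040) (l 16774712)))) (c (b (a (a (b (a (b (l 110830290375) (l 35668362311)) (l 16777792)) (l 16776760)) (l 16776808)) (l 16776000)) (a (l 16776064) (l 16774656))) (a (b (a (b (a (b (l 107609064967)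 (l 16777912)) (l 16777776)) (l 16776744)) (l 16776784)) (l 16776032)) (b (l 16775968) (l 16774616))))) (c (a (a (b (b (a (b (a (l 4) (l 95797904967)) (l 28152169959)) (l 7214204279)) (l 16777368)) (c (l 16775944) (l 16775912))) (b (c (l 16776760) (l 16776736)) (l 16776688))) (b (c (l 16775928) (l 16775896)) (l 16774872))) (b (b (a (a (a (b (l 97945388871) (l 16777864)) (l 16778048)) (l 16777296)) (c (l 16777112) (l 16777088))) (a (l 16777048) (l 16776568))) (c (a (c (l 16775944) (l 16775928)) (l 16774480)) (l 16775992))))) (a (c (c (b (c (l 16774816) (l 16774768)) (l 16774456)) (b (c (l 16774720) (l 16774672)) (l 16773680))) (b (c (c (l 16774632) (l 16774584)) (c (l 16774544) (l 16774512))) (c (l 16773568) (l 16773464)))) (c (c (c (l 16773936) (l 16773864)) (c (l 16773800) (l 16773728))) (c (c (l 16773664) (l 16773608)) (b (l 16773400) (l 16772336)))))), by decide +kernel⟩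

def k41_pm_011 : ∃ t, chk3 f_pm_011 t 139 501 1 = true :=
  ⟨(c (c (c (c (a (b (a (b (l 16774944) (l 16773960)) (l 16774064)) (a (l 16772480) (l 16771440))) (b (a (l 16772368) (l 16771328)) (l 16769880))) (a (b (a (b (l 16774920) (l 16773928)) (l 16774032)) (a (l 16772440) (l 16771392))) (b (l 16772456) (l 16769824)))) (a (b (a (a (l 16774976) (l 16774776)) (l 16773984)) (b (l 16773664) (l 16771352))) (b (a (l 16772264) (l 16771208)) (l 16771048)))) (b (a (a (b (c (l 16774840) (l 16774800)) (l 16774456)) (c (l 16773912) (l 16773856))) (a (l 16772808) (l 16772384))) (a (a (a (l 16773848) (l 16772000)) (l 16772496)) (c (l 16770936) (l 16769520))))) (c (a (a (c (b (b (l 16774752) (l 16773720)) (l 16772160)) (b (l 16774680) (l 16772088))) (b (b (l 16774936) (l 16772584)) (l 16772328))) (b (a (l 16772656) (l 16770896)) (c (l 16769416) (l 16769312)))) (b (a (a (b (a (l 16774944) (l 16774376)) (l 16774904)) (a (l 16773936) (l 16774024))) (a (l 16772520) (l 16770736))) (a (a (l 16772648) (l 16772176)) (l 16770480))))),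 by decide +kernel⟩

def k42_pm_011 : ∃ t, chk3 f_pm_011 t 69 251 1 = true :=
  ⟨(a (b (a (l 6) (a (l 6) (b (c (c (l 16772136) (l 16772616)) (c (l 16772448) (l 16772296))) (l 6)))) (l 6)) (b (c (c (a (b (c (l 16771272) (l 16771160)) (l 16769224)) (b (l 16769112) (l 16765816))) (a (b (c (l 16771048) (l 16770944)) (l 16768952)) (b (l 16768840) (l 16765496)))) (c (a (b (c (l 16770840) (l 16770744)) (l 16768704)) (b (l 16769896) (l 16765192))) (a (b (c (l 16769344) (l 16769248)) (l 16769784)) (c (l 16767352) (l 16767232))))) (c (b (a (c (l 16765920) (l 16765600)) (c (l 16763824) (l 16763456))) (a (l 6) (l 16764248))) (a (b (c (l 16765304) (l 16765032)) (l 6)) (c (l 16764688) (l 16764344)))))), by decide +kernel⟩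

def k43_pm_011 : ∃ t, chk3 f_pm_011 t 140 248 1 = true :=
  ⟨(l 4), by decide +kernel⟩

def k44_pm_011 : ∃ t, chk3 f_pm_011 t 141 496 1 = true :=
  ⟨(l 4), by decide +kernel⟩

def k45_pm_011 : ∃ t, chk3 f_pm_011 t 282 497 1 = true :=
  ⟨(b (l 4) (a (l 4) (a (l 4) (a (l 4) (b (l 4) (b (l 4) (b (l 4) (c (c (c (l 111367161239) (l 110830290295)) (l 89355454423)) (c (l 88818583431) (l 87207970647)))))))))), by decide +kernel⟩

def k46_pm_011 : ∃ t, chk3 f_pm_011 t 283 994 1 = true :=
  ⟨(a (l 4) (a (l 4) (b (l 4) (b (l 4) (c (c (a (l 165054251943) (b (l 111367162071) (l 50700748471))) (a (l 168812348247) (b (l 110293420167) (l 47479522935)))) (a (c (l 172570444567) (l 175791669975)) (c (b (l 110293420103) (l 16777928)) (b (l 110293420039) (l 16777896))))))))), by decide +kernel⟩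

def k47_pm_011 : ∃ t, chk3 f_pm_011 t 283 995 1 = true :=
  ⟨(c (a (b (a (l 4) (a (l 4) (b (l 4) (b (l 4) (c (c (l 88281711975) (l 89892324583)) (l 70564972343)))))) (a (a (b (l 4) (b (c (c (l 105998452087) (l 105461581143)) (l 85060487079)) (c (l 16777928) (l 16777232)))) (c (b (c (l 138747576951) (l 139821318743)) (l 16777800)) (b (b (l 4) (l 80228648839)) (l 16778400)))) (a (b (b (c (c (l 95261033783) (l 95261033735)) (l 75396810599)) (c (l 16777240) (l 16777192))) (c (l 16776880) (l 16776816))) (c (c (l 16776880) (l 16776848)) (l 16777128))))) (c (b (a (a (b (l 4) (a (b (l 116198999383) (l 16777272)) (l 16777920))) (b (b (l 165054251719) (c (l 79691777239) (l 79154906295))) (l 16777072))) (b (a (b (l 56069457575) (l 16777176)) (l 16777040)) (l 16776680))) (c (l 16776552) (l 16776512))) (a (b (a (b (l 4) (c (l 36205233591) (l 33520879079))) (b (b (l 112440903911) (l 60901295879)) (l 16777016))) (l 16776720)) (a (b (a (b (l 36205233943) (l 16776816)) (l 16777584)) (l 16775984)) (b (l 16776728) (l 16775712))))))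 (a (b (a (l 4) (a (l 4) (b (l 4) (b (l 4) (c (l 68954359543) (l 67343746759)))))) (a (a (b (l 4) (b (c (l 83449874279) (l 82376132391)) (b (l 27615299863) (l 16777104)))) (b (b (l 4) (c (l 78618036039) (l 77544294151))) (c (l 16777040) (l 16777000)))) (b (a (b (c (l 73786197783) (l 72175584999)) (l 16778440)) (c (l 16777008) (l 16776960))) (c (l 16776624) (l 16776576))))) (a (b (b (a (l 4) (c (b (l 112977774743) (l 59290683079)) (b (l 112977774679) (l 16777888)))) (a (c (c (l 32447137207) (l 16777880)) (l 25467815831)) (l 16778256))) (c (c (l 16776344) (l 16776312)) (l 16777584))) (c (b (a (b (l 22246590199) (l 16776688)) (l 16776672)) (l 16775776)) (b (b (l 16778168) (l 16776496)) (l 16775704)))))), by decide +kernel⟩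

def k48_pm_011 : ∃ t, chk3 f_pm_011 t 280 498 1 = true :=
  ⟨(l 4), by decide +kernel⟩

def k49_pm_011 : ∃ t, chk3 f_pm_011 t 281 996 1 = true :=
  ⟨(l 4), by decide +kernel⟩

def k50_pm_011 : ∃ t, chk3 f_pm_011 t 281 997 2 = true :=
  ⟨(a (b (l 4) (a (b (l 4) (b (a (l 4) (a (l 4) (c (l 88818583095) (l 86671099415)))) (a (a (l 4) (c (l 93650421367) (l 92576679479))) (c (l 25467815335) (l 16777896))))) (c (c (b (a (l 144653157047) (b (l 104924710087) (l 16777256))) (l 16777680)) (b (a (l 145726898839) (b (l 91502937575) (l 16777240))) (l 16777656))) (c (b (a (l 147337511543) (b (l 90966066631) (l 16777216))) (l 16777632)) (b (a (l 148948124247) (b (l 87744841207) (l 16777200))) (l 16777608)))))) (b (a (b (l 4) (b (a (l 4) (a (c (l 108682807047) (l 107609065191)) (c (l 61438166423) (l 16777936)))) (a (c (c (l 96334775543) (l 100092871799)) (c (l 86134228391) (l 85597357447))) (c (l 16777216) (l 16777176))))) (b (a (b (l 4) (a (c (l 103850968839) (l 101703485207)) (c (l 56606328135) (l 16777936)))) (b (c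 (c (l 79154906343) (l 79154906295)) (c (l 85060486135) (l 80765518887))) (c (l 16777184) (l 16777136)))) (c (l 16777440) (l 16777552)))) (a (b (c (c (l 16777648) (l 16776968)) (l 16777912)) (c (l 16776488) (l 16776424))) (c (l 16776536) (l 16776464))))), by decide +kernel⟩

def k51_pm_011 : ∃ t, chk3 f_pm_011 t 281 997 3 = true :=
  ⟨(a (b (l 4) (a (b (l 4) (b (a (l 4) (c (l 88281712567) (l 87207970695))) (c (a (l 92576679895) (l 16777856)) (a (l 92039808935) (l 16777824))))) (c (b (c (a (l 150558736951) (a (l 64122521111) (l 16777888))) (a (l 152169349655) (c (l 40500200983) (l 39963330055)))) (l 16777904)) (b (a (b (l 4) (l 82913003351)) (b (l 78081165111) (l 16777136))) (l 16778192))))) (b (a (b (l 4) (c (a (b (l 4) (l 74859939655)) (b (l 70028101399) (l 16777136))) (c (a (l 146263769527) (l 32984008167)) (a (l 86671099911) (l 31373395399))))) (c (b (a (b (l 4) (l 65733134071)) (b (l 60901295831) (l 16777096))) (l 16778160)) (b (a (b (l 4) (l 64659392199)) (a (l 37278975639) (l 16777776))) (l 16778120))))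 (a (b (c (l 16777544) (l 16778160)) (a (l 16777792) (l 16777512))) (c (l 16777384) (l 16777328))))), by decide +kernel⟩

def k52_pm_011 : ∃ t, chk3 f_pm_011 t 280 998 2 = true :=
  ⟨(a (b (l 4) (a (b (l 4) (a (l 4) (b (l 4) (a (c (l 93650421383) (l 92576679495)) (c (l 45868909895) (l 16777944)))))) (a (a (b (l 4) (b (c (l 87744841319) (l 87207970343)) (c (l 16777208) (l 16777176)))) (b (l 4) (c (c (l 16777872) (l 16777192)) (l 16777824)))) (b (c (b (l 163980509863) (c (l 70564971527) (l 64122520711))) (b (l 168812348007) (c (l 63585649767) (l 58216940775)))) (c (l 16777008) (l 16776968)))))) (b (a (b (l 4) (a (a (l 4) (c (l 163443639031) (l 167201735351))) (c (b (l 160759284311) (c (l 58216940487) (l 60364424023))) (b (l 162906767895) (c (l 59290682167) (l 16777936)))))) (a (b (b (l 4) (c (l 154853704247) (l 102240356439))) (c (c (c (l 24394073079) (l 20635976839)) (l 17951622407)) (c (l 16777832) (l 16777816)))) (b (c (b (c (l 123178321239) (l 123178321207)) (c (l 48016393143) (l 16777952))) (b (c (l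 123178321175) (l 108682806839)) (l 30836524519))) (c (l 16776944) (l 16776896))))) (a (b (a (b (c (c (l 61438166007) (l 60364424151)) (c (l 52848231527) (l 57143198791))) (c (l 16777120) (l 16777072))) (c (l 16776976) (l 16776928))) (c (l 16776616) (l 16776560))) (c (c (l 16776352) (l 16776320)) (c (l 16776288) (l 16776256)))))), by decide +kernel⟩

def k53_pm_011 : ∃ t, chk3 f_pm_011 t 280 998 3 = true :=
  ⟨(a (b (l 4) (a (a (l 4) (b (l 4) (b (l 4) (c (l 59290683111) (l 58216941239))))) (b (a (l 4) (c (b (l 172570444343) (l 50700748471)) (b (l 105998452839) (l 49090135687)))) (a (b (c (l 54995715783) (l 53921973911)) (l 16778200)) (c (l 16776920) (l 16776888)))))) (b (b (b (a (l 4) (a (l 4) (c (l 99556001623) (l 96334776263)))) (a (l 4) (c (a (l 102240356391) (l 16777888)) (a (l 101703485431) (l 16777864))))) (c (a (a (l 171496702743) (b (l 104924710983) (l 36742104615))) (c (l 16777656) (l 16777640))) (a (a (b (l 4) (l 105998452807)) (b (l 103850969111) (l 16777888))) (l 16777944)))) (c (c (a (a (b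 (l 18488493431) (l 16776656)) (l 16776640)) (l 16776232)) (a (b (l 16778000) (l 16776496)) (l 16776200))) (c (a (b (l 16777984) (l 16776472)) (l 16777488)) (a (a (l 16777848) (l 16776576)) (l 16777464)))))), by decide +kernel⟩

def k54_pm_011 : ∃ t, chk3 f_pm_011 t 280 999 1 = true :=
  ⟨(c (c (a (a (b (b (a (b (a (l 99556001527) (l 50700748151)) (l 16777832)) (l 16777696)) (l 16777336)) (l 16776256)) (b (a (l 16776856) (l 16776920)) (l 16775408))) (b (c (l 16776280) (l 16776240)) (l 16775272))) (c (a (b (a (a (b (b (l 71638713687) (l 16777152)) (l 16776768)) (l 16776752)) (l 16776352)) (l 16775936)) (l 16775528)) (a (b (a (a (b (b (l 71101842743) (l 16777128)) (l 16776752)) (l 16776736)) (l 16776320)) (l 16775896)) (b (l 16776160) (l 16774480))))) (c (b (a (a (b (a (a (b (l 96334775911) (l 16777168)) (l 16777824)) (l 16777616)) (l 16777232)) (c (l 16776952) (l 16776928))) (c (l 16776128) (l 16776088))) (a (c (l 16775864) (l 16775832)) (l 16775064))) (b (a (a (b (a (c (l 28152169911) (l 26541557159))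 (l 16778232)) (l 16777848)) (c (l 16777560) (l 16777536))) (c (l 16776056) (l 16776680))) (a (b (l 16777032) (l 16776496)) (l 16774976))))), by decide +kernel⟩

def k55_pm_011 : ∃ t, chk3 f_pm_011 t 281 499 1 = true :=
  ⟨(b (c (c (a (a (a (a (b (c (c (l 16777672) (l 16777656)) (l 16777720)) (l 16776008)) (b (l 16777192) (l 16775872))) (b (l 16776992) (l 16775672))) (b (l 16776600) (l 16775280))) (b (c (l 16775504) (l 16775456)) (l 16775144))) (a (b (c (a (b (l 16777664) (l 16776504)) (l 16776224)) (a (b (l 16777648) (l 16776480)) (l 16776192))) (c (l 16775480) (l 16775440))) (b (c (l 16775416) (l 16775368)) (l 16775032)))) (a (a (a (b (b (c (l 16777752) (l 16777720)) (l 16777864)) (c (l 16775800) (l 16775736))) (c (l 16776696) (l 16776640))) (c (b (l 16777456) (l 16775104)) (l 16776216))) (c (b (c (l 16775328) (l 16776600)) (l 16775584)) (l 16775528)))) (a (b (c (c (l 16775208) (l 16775096)) (c (l 16775000) (l 16775560))) (c (c (l 16773560) (l 16773424)) (c (l 16773304) (l 16773192)))) (c (c (c (l 16773040)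 (l 16772960)) (l 16773504)) (c (l 16773368) (l 16773240))))), by decide +kernel⟩

def k56_pm_011 : ∃ t, chk3 f_pm_011 t 282 996 2 = true :=
  ⟨(a (b (a (l 4) (a (l 4) (a (l 4) (b (l 4) (c (l 160759284423) (l 162369897095)))))) (a (a (b (l 4) (c (b (l 165591122631) (c (l 74859939015) (l 79691777031))) (b (l 169349218951) (l 57680070407)))) (b (c (l 164517381031) (l 168812348263)) (a (b (c (l 88281712119) (l 85597357527)) (l 16778176)) (c (l 16777864) (l 16777816))))) (b (a (b (c (l 162369897079) (l 106535323799)) (c (a (l 84523615623) (l 16777304)) (l 45332039255))) (c (c (l 26004686039) (l 23320331511)) (c (l 16777864) (l 16777840)))) (c (l 16776880) (l 16776824))))) (b (a (a (b (l 4) (c (b (c (l 126936417815) (l 127473288679)) (l 38889588311)) (b (l 104387840071) (l 36205233671)))) (c (b (c (l 153243091735) (l 154853704439)) (c (l 16777880) (l 16777856))) (b (b (l 4) (l 103850968871)) (l 16778144)))) (b (b (c (a (c (l 116198999495) (l 116198999447)) (l 16777944)) (a (l 94187292663) (l 16777904))) (c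 (c (l 16777856) (l 16777168)) (l 16777792))) (c (l 16776816) (l 16776760)))) (c (c (l 16776600) (l 16776648)) (c (l 16776528) (c (l 16776584) (l 16776568)))))), by decide +kernel⟩

def k57_pm_011 : ∃ t, chk3 f_pm_011 t 282 996 3 = true :=
  ⟨(a (b (a (l 4) (a (l 4) (b (l 4) (c (l 167201735383) (l 170422960791))))) (a (a (b (l 4) (c (b (l 109219678375) (l 56606328519)) (b (l 109219678327) (l 54995715719)))) (b (c (l 172033573671) (l 177402282727)) (c (c (l 16777856) (l 16777840)) (l 19025364631)))) (a (c (b (b (l 108145936471) (l 42110813735)) (l 16776912)) (b (b (l 108682807335) (l 16777896)) (l 16776872))) (b (c (l 15804138999) (l 16777776)) (l 16777928))))) (b (a (a (b (l 4) (c (b (l 103850969095) (l 16777912)) (b (l 103314098135) (l 16777880)))) (b (a (l 4) (c (l 156464316919) (l 101166614551))) (c (l 16777776) (l 16778392)))) (a (b (b (c (l 93113550775) (l 92039808887)) (c (l 16777880) (l 16777184))) (l 16778152)) (c (c (l 16778144) (l 16778120)) (l 16778088)))) (c (a (c (l 16776496) (l 16776472))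 (l 16777240)) (l 16776800)))), by decide +kernel⟩

def k58_pm_011 : ∃ t, chk3 f_pm_011 t 282 997 1 = true :=
  ⟨(c (c (a (a (b (a (l 16777128) (l 16776536)) (l 16775680)) (b (l 16776792) (l 16775152))) (b (c (l 16775368) (l 16775320)) (l 16774352))) (a (a (b (a (l 16777072) (l 16776472)) (l 16775592)) (b (l 16777376) (l 16775048))) (b (l 16775744) (l 16774240)))) (b (c (a (l 16776936) (c (l 16775184) (l 16775144))) (a (l 16776880) (c (l 16775104) (l 16776376)))) (c (a (c (l 16775256) (l 16775216)) (l 16774128)) (l 16775416)))), by decide +kernel⟩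

def k59_pm_011 : ∃ t, chk3 f_pm_011 t 283 498 1 = true :=
  ⟨(c (c (b (b (a (c (l 16776616) (l 16776576)) (l 16775864)) (a (l 16775608) (l 16774224))) (a (c (l 16774480) (l 16774416)) (l 16773392))) (a (b (b (c (l 16776544) (l 16776504)) (l 16775512)) (c (l 16774344) (l 16773624))) (b (b (l 16775768) (l 16774096)) (l 16773880)))) (a (c (b (c (b (l 16776472) (l 16775112)) (l 16776248)) (b (l 16774056) (l 16773016))) (b (c (l 16776208) (l 16776176)) (b (l 16773952) (l 16772896)))) (c (b (b (l 16775672) (l 16773976)) (l 16773736)) (b (b (l 16775256) (l 16773872)) (l 16772944))))), by decide +kernel⟩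

def k60_pm_011 : ∃ t, chk3 f_pm_011 t 141 499 1 = true :=
  ⟨(c (c (c (a (b (a (l 16774616) (l 16772912)) (l 16772120)) (b (l 16772648) (l 16769368))) (a (b (a (l 16774552) (l 16772832)) (l 16772680)) (b (l 16772544) (l 16769240)))) (c (a (b (a (l 16774488) (l 16772752)) (l 16772584)) (b (l 16772448) (l 16769120))) (a (b (a (l 16774424) (l 16772680)) (l 16772488)) (b (l 16772352) (l 16769000))))) (a (a (c (b (b (l 16774200) (l 16773160)) (l 16771600)) (b (b (l 16774104) (l 16773040)) (l 16771456))) (c (b (l 16773224) (l 16770496)) (b (l 16773096) (l 16770320)))) (c (b (c (l 16772256) (l 16772176)) (l 16770144)) (b (c (l 16772088) (l 16772008)) (l 16769936))))), by decide +kernel⟩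

def k61_pm_011 : ∃ t, chk3 f_pm_011 t 284 496 1 = true :=
  ⟨(b (l 4) (a (l 4) (a (l 4) (b (l 4) (b (l 4) (c (c (a (b (l 4) (l 86134228775)) (c (l 58216940663) (l 57143198791))) (a (b (l 4) (l 81302390647)) (c (l 56069456919) (l 44258297207)))) (c (a (b (l 4) (l 79691777831)) (c (l 41037071783) (l 16777912))) (a (b (l 4) (l 77544294119)) (l 31373395911))))))))), by decide +kernel⟩

def k62_pm_011 : ∃ t, chk3 f_pm_011 t 285 992 1 = true :=
  ⟨(a (l 4) (b (l 4) (c (a (a (l 4) (b (l 4) (c (l 157001188135) (l 159685542615)))) (a (b (l 4) (c (b (l 109219678311) (l 16778008)) (c (l 78618035559) (l 75396810119)))) (c (b (b (l 4) (l 106535323543)) (l 16777888)) (b (l 151632478839) (l 16778488))))) (a (a (l 4) (b (l 4) (c (l 162369897095) (l 166127993399)))) (a (b (l 4) (c (c (l 67880617559) (l 67343746599)) (l 57143199879))) (b (c (l 154316833319) (l 157001187815)) (c (l 16777120) (l 16777072)))))))), by decide +kernel⟩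

def k63_pm_011 : ∃ t, chk3 f_pm_011 t 285 993 1 = true :=
  ⟨(a (b (c (b (a (l 4) (c (a (l 4) (l 163443639175)) (l 168275477575))) (b (a (l 4) (c (a (l 132841998119) (l 62511908231)) (a (l 115125258423) (l 53921973799)))) (a (c (l 165591122935) (l 169886090135)) (a (c (l 69491230071) (l 63048779367)) (l 16778464))))) (a (b (l 4) (c (l 174181057623) (l 178476024839))) (b (c (l 172033573879) (l 175791670199)) (a (c (b (l 115125258343) (l 16777912)) (b (l 116199000103) (l 16777880))) (c (l 16777856) (l 16778464)))))) (c (a (c (b (a (b (l 4) (l 75933681383)) (c (l 49090135191) (l 50163876871))) (l 16776992)) (b (a (b (l 4) (l 71101843255)) (c (l 49627005911) (l 16777928))) (l 16776928))) (c (l 16777032) (l 16777288))) (b (c (a (a (a (l 103850969495) (l 73786198151)) (l 28152170295)) (l 16776832)) (a (a (b (l 4) (l 16777896)) (l 16778176)) (l 16776776))) (c (c (l 16776608) (l 16776576)) (l 16777848))))) (c (b (b (b (c (a (a (l 131768256199) (l 16778016)) (l 16777000)) (a (a (l 113514645607) (l 16777968))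 (l 16776936))) (a (a (c (l 60364424455) (l 16777976)) (l 16778432)) (l 16778032))) (c (l 16776984) (l 16776904))) (c (l 16776240) (l 16776144))) (a (a (b (b (c (b (l 113514645527) (l 16777936)) (c (l 70564972279) (l 69491230423))) (c (l 16776928) (l 16776872))) (c (l 16776152) (l 16776088))) (b (c (l 16778216) (l 16778168)) (l 16777640))) (c (b (l 16776488) (l 16775456)) (l 16776232))))), by decide +kernel⟩

def k64_pm_011 : ∃ t, chk3 f_pm_011 t 284 994 1 = true :=
  ⟨(c (a (a (b (l 4) (c (b (a (l 161296155479) (b (l 108145936519) (l 43721426391))) (c (c (l 16777816) (l 16777800)) (l 16777776))) (b (a (l 163443639047) (b (l 107609065527) (l 16777960))) (c (l 16777752) (l 16777720))))) (b (b (l 4) (c (a (b (l 4) (l 104924710999)) (b (l 97945389111) (l 16777976))) (a (l 155927446183) (b (l 96334776295) (l 16777272))))) (b (c (a (l 15804139143) (l 16776968)) (l 16778024)) (c (l 16776608) (l 16776536))))) (c (c (b (a (b (a (l 144653157047) (c (l 64659391735) (l 64122520807))) (l 16777080)) (l 16777456)) (l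 16776080)) (b (a (b (a (l 145726898839) (c (l 63585649863) (l 65733133415))) (l 16777048)) (l 16776760)) (l 16776040))) (b (a (b (a (b (l 4) (l 91502938039)) (b (l 86134228887) (l 16777240))) (l 16778312)) (c (l 16776728) (l 16776696))) (c (l 16775992) (l 16775952))))) (a (b (a (l 4) (b (l 4) (c (a (l 158611800679) (c (l 57680070359) (l 57143199415))) (a (l 161296155175) (c (l 56069457559) (l 55532586615)))))) (c (a (b (a (l 166664864439) (b (l 106535323639) (l 16777912))) (l 16778016)) (c (l 16777400) (l 16778032))) (a (b (a (l 169886089847) (c (l 63585650391) (l 62511908535))) (l 16778296)) (c (l 16778000) (l 16777976))))) (b (b (c (a (a (b (l 4) (l 89892325239)) (c (l 46405781063) (l 44795168295))) (l 16778224)) (a (a (b (l 4) (l 88281712439)) (l 37815846967)) (l 16778168))) (c (c (l 16778000) (l 16777968)) (c (l 16777944) (l 16777912)))) (c (c (l 16777224) (l 16777192)) (c (l 16777152) (l 16777120)))))), by decide +kernel⟩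

def k65_pm_011 : ∃ t, chk3 f_pm_011 t 284 995 1 = true :=
  ⟨(a (b (a (c (c (l 16777048) (l 16777632)) (c (l 16777568) (l 16777504))) (c (c (l 16775864) (l 16775776)) (c (l 16775696) (l 16775624)))) (c (c (l 16775800) (l 16775688)) (c (l 16776248) (l 16776160)))) (c (c (b (l 16775728) (l 16774080)) (b (l 16776272) (l 16773944))) (c (b (l 16776168) (l 16773824)) (b (l 16776080) (l 16773712))))), by decide +kernel⟩

def k66_pm_011 : ∃ t, chk3 f_pm_011 t 285 497 1 = true :=
  ⟨(a (b (c (c (b (c (l 16776008) (l 16775960)) (l 16775000)) (b (c (l 16775920) (l 16775880)) (l 16774888))) (c (l 16775952) (l 16775872))) (c (c (l 16774168) (l 16774024)) (c (l 16773888) (c (l 16773136) (l 16773072))))) (b (c (c (c (l 16775120) (l 16775056)) (b (l 16774808) (l 16773792))) (c (b (l 16774704) (l 16773664)) (b (l 16774608) (l 16773552)))) (c (c (l 16772448) (l 16772280)) (c (l 16772112) (l 16771968))))), by decide +kernel⟩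

def k67_pm_011 : ∃ t, chk3 f_pm_011 t 286 496 1 = true :=
  ⟨(b (a (b (c (a (a (l 4) (b (l 4) (b (l 4) (c (l 95797905223) (l 89892325271))))) (a (b (l 4) (c (c (l 61438166327) (l 60364424455)) (c (l 61438166151) (l 60364424279)))) (b (b (l 4) (c (l 91502937623) (l 82913003175))) (b (l 8824818135) (l 16778312))))) (a (a (l 4) (b (l 4) (b (l 4) (c (l 87744841543) (l 85597357815))))) (a (b (l 4) (c (l 38352717879) (l 35668363239))) (c (b (b (l 4) (l 80228648535)) (l 16777040)) (b (l 81839262247) (l 16776984)))))) (c (a (a (b (c (c (l 67343746471) (l 66270004599)) (c (l 70028100775) (l 68954358903))) (c (l 16776976) (l 16776904))) (c (l 16777608) (l 16778200))) (c (l 16776560) (l 16776480))) (b (a (c (c (c (l 29762782871) (l 29225911927)) (l 26004686743)) (c (l 24394073959) (l 23320332087))) (l 16776960)) (c (l 16777736) (l 16777672))))) (c (b (b (a (a (b (c (l 85597357559) (l 81302390247)) (l 16778536)) (a (l 16778464) (l 16778336))) (c (l 16776728) (l 16776648))) (c (l 16776504) (l 16776416))) (c (l 16776416)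 (l 16776320))) (a (b (c (c (l 16778208) (l 16778176)) (c (l 16778152) (l 16778120))) (c (l 16775848) (l 16775768))) (c (b (l 16776320) (l 16775288)) (l 16776056))))) (b (c (a (c (l 16776496) (l 16776400)) (c (l 16774776) (l 16774648))) (c (l 16775752) (l 16775656))) (c (c (a (l 16774848) (l 16773784)) (a (l 16774728) (l 16773640))) (c (a (l 16774616) (l 16773504)) (c (l 16774632) (l 16774576)))))), by decide +kernel⟩

def k68_pm_011 : ∃ t, chk3 f_pm_011 t 287 496 1 = true :=
  ⟨(a (b (c (c (b (l 16776344) (l 16774696)) (b (l 16776888) (l 16774568))) (c (b (l 16776792) (l 16774448)) (l 16775528))) (c (c (l 16774528) (l 16774360)) (c (l 16774216) (l 16774072)))) (b (c (c (l 16774784) (l 16774640)) (c (c (l 16773880) (l 16773816)) (c (l 16773760) (l 16776320)))) (c (c (l 16772152) (l 16771960)) (c (l 16771784) (l 16771624))))), by decide +kernel⟩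

def k69_pm_011 : ∃ t, chk3 f_pm_011 t 143 497 1 = true :=
  ⟨(a (c (b (c (a (l 16774024) (l 16772304)) (a (l 16773864) (l 16772120))) (c (l 16771840) (l 16771296))) (c (b (a (l 16773720) (l 16771952)) (l 16771096)) (c (l 16772824) (l 16772912)))) (c (b (c (l 16772016) (l 16771792)) (c (l 16768736) (l 16768464))) (c (b (l 16771584) (l 16768208)) (b (l 16770744) (l 16767984))))), by decide +kernel⟩

def k70_pm_011 : ∃ t, chk3 f_pm_011 t 71 249 1 = true :=
  ⟨(a (b (c (a (b (c (a (c (l 16773696) (l 16773616)) (l 16773904)) (a (c (l 16773552) (l 16773480)) (l 16773736))) (c (c (l 16772512) (l 16772408)) (c (l 16772304) (l 16770896)))) (b (c (c (l 16771056) (l 16770952)) (l 16771776)) (c (l 16770336) (l 16768768)))) (a (a (b (c (c (l 16773416) (l 16773352)) (c (l 16773296) (l 16774552))) (c (l 16771312) (l 16771152))) (c (b (l 16773584) (l 16770200)) (b (l 16773440) (l 16770016)))) (b (c (l 16771424) (a (l 16770992) (l 16769856))) (a (l 16770128) (l 16770480))))) (b (c (c (a (l 16770480) (l 16767048)) (a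 (l 16770224) (l 16766744))) (c (a (l 16769992) (l 16766464)) (a (l 16769784) (l 16766200)))) (c (a (c (l 16767192) (l 16766888)) (l 16766200)) (a (c (l 16766608) (l 16766360)) (l 16766864))))) (a (c (b (c (c (l 16769280) (l 16769128)) (c (l 16768984) (l 16768848))) (c (l 16766568) (l 16766184))) (c (b (c (l 16768712) (l 16768592)) (l 16765824)) (b (b (l 16768152) (l 16766040)) (l 16765504)))) (c (b (c (l 16767080) (l 16766744)) (c (l 16761824) (l 16761392))) (b (c (l 16766424) (l 16766136)) (c (l 16760984) (l 16760616)))))), by decide +kernel⟩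

def k71_pm_011 : ∃ t, chk3 f_pm_011 t 70 250 1 = true :=
  ⟨(a (b (c (c (c (c (a (b (a (l 16774880) (l 16773176)) (l 16772392)) (b (l 16772928) (l 16769648))) (a (b (a (l 16774848) (l 16773144)) (l 16772344)) (b (l 16772880) (l 16769584)))) (c (a (b (a (l 16774816) (l 16773104)) (l 16772296)) (b (l 16772832) (l 16769528))) (a (b (a (l 16774792) (l 16773072)) (l 16772248)) (b (l 16772784) (l 16769472))))) (c (c (a (b (a (l 16774760) (l 16773032)) (l 16772864)) (b (l 16772736) (l 16769408))) (a (b (a (l 16774736) (l 16773000)) (l 16772816)) (b (l 16772688) (l 16769352)))) (a (b (a (c (l 16774704) (l 16774680)) (l 16772944)) (l 16772264)) (b (l 16771968) (l 16769272))))) (c (b (c (a (a (l 16774472) (l 16772880)) (l 16771888)) (a (a (l 16774424) (l 16772816)) (l 16771800))) (a (c (l 16772016) (l 16771936)) (l 16770416))) (b (a (a (b (l 16775048) (l 16773328)) (b (l 16773256) (l 16772200))) (a (l 16772904) (l 16770464))) (a (a (l 16772392) (l 16770600)) (l 16770216))))) (c (c (b (a (c (l 16771048) (l 16769616))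 (l 16770192)) (a (l 16769000) (l 16765592))) (a (b (l 16770432) (l 16767416)) (c (l 16767656) (l 16767512)))) (c (a (b (l 16770552) (l 16767152)) (c (l 16767368) (l 16767232))) (a (b (l 16770352) (l 16766920)) (c (l 16767096) (l 16766976)))))) (c (a (c (b (b (l 16770744) (l 16767448)) (c (l 16767192) (l 16767008))) (b (b (l 16770504) (l 16767160)) (l 16765424))) (b (b (c (l 16767320) (l 16767032)) (c (l 16765344) (l 16765000))) (c (l 16764992) (l 16764576)))) (a (c (b (b (l 16770280) (l 16766896)) (l 16765088)) (b (b (l 16770080) (l 16766648)) (l 16764784))) (b (b (a (l 16769808) (l 16766072)) (l 16765840)) (a (l 16764568) (l 16763456)))))), by decide +kernel⟩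

def k72_pm_011 : ∃ t, chk3 f_pm_011 t 70 251 1 = true :=
  ⟨(a (a (c (b (c (c (l 16766112) (l 16765936)) (c (l 16767064) (l 16766896))) (c (l 16763360) (l 16760288))) (b (b (c (l 16765072) (l 16764792)) (l 16765448)) (c (l 16759864) (l 16759472)))) (c (b (c (l 16763928) (l 16764832)) (c (l 16758648) (l 16758144))) (b (c (l 16764448) (l 16764104)) (l 16760064)))) (a (b (c (c (l 16760512) (l 16760056)) (c (l 16759624) (l 16759232))) (c (l 16758888) (l 16757848))) (c (b (c (l 16758416) (l 16757904)) (l 16759392)) (b (l 16759816) (l 16753008))))), by decide +kernel⟩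

def k73_pm_011 : ∃ t, chk3 f_pm_011 t 71 125 1 = true :=
  ⟨(b (a (a (c (b (c (l 16765536) (l 16766472)) (c (l 16760264) (l 16759800))) (b (b (l 16765696) (l 16764920)) (c (l 16759360) (l 16758960)))) (b (c (c (l 16762112) (l 16761680)) (c (l 16761288) (l 16760928))) (c (l 16760512) (l 16759544)))) (c (c (b (c (l 16761696) (l 16761432)) (l 16757616)) (b (l 16761056) (l 16754392))) (b (a (l 16761488) (l 16759248)) (c (l 16753840) (l 16753320))))) (a (c (b (c (l 16757888) (l 16757288)) (c (l 16751312) (l 16750624))) (b (c (l 16756736) (l 16753608)) (l 16752296))) (c (b (c (l 16751056) (l 16750360)) (l 16751952)) (b (l 16752024) (l 16745232))))), by decide +kernel⟩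

def k74_pm_011 : ∃ t, chk3 f_pm_011 t 17 63 1 = true :=
  ⟨(b (a (b (a (l 6) (a (l 6) (a (l 6) (a (l 6) (b (c (l 16760696) (l 16757120)) (l 6)))))) (l 6)) (b (a (a (a (c (b (c (l 16756768) (l 16756216)) (l 16755088)) (b (l 16758080) (l 16751240))) (c (b (l 16756992) (l 16750360)) (b (l 16753240) (l 16749040)))) (b (c (c (l 16756792) (l 16750864)) (c (l 16750224) (l 16749632))) (b (c (l 16748192) (l 16746776)) (c (a (l 16747264) (l 16745152)) (l 16749944))))) (c (b (a (l 16752208) (c (l 16748472) (l 16747576))) (a (b (l 16749240) (l 16742024)) (l 16744080))) (b (a (l 16750736) (c (l 16746736) (l 16745968))) (a (a (l 16747696) (l 16750744)) (l 16737016))))) (a (a (a (l 6) (a (l 6) (b (c (l 16745856) (l 16744344)) (l 6)))) (c (b (l 16748528) (l 16739472)) (b (l 16746896) (l 16737656)))) (c (b (c (l 16742880) (l 16736648)) (c (l 16733864) (l 16732816))) (a (b (l 16737376) (l 16733392)) (l 16741600)))))) (a (l 6) (a (a (l 6) (a (l 6) (b (b (l 16741456) (l 6)) (l 6)))) (b (c (b (l 16734768) (c (l 16726344)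 (l 16725152))) (b (l 16737760) (l 16731176))) (b (c (l 16727384) (l 16729880)) (c (l 16724008) (l 16715584))))))), by decide +kernel⟩

def k75_pm_011 : ∃ t, chk3 f_pm_011 t 36 60 1 = true :=
  ⟨(l 4), by decide +kernel⟩

def k76_pm_011 : ∃ t, chk3 f_pm_011 t 37 120 1 = true :=
  ⟨(l 4), by decide +kernel⟩

def k77_pm_011 : ∃ t, chk3 f_pm_011 t 74 121 1 = true :=
  ⟨(l 4), by decide +kernel⟩

def k78_pm_011 : ∃ t, chk3 f_pm_011 t 75 242 1 = true :=
  ⟨(l 4), by decide +kernel⟩

def k79_pm_011 : ∃ t, chk3 f_pm_011 t 150 243 1 = true :=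
  ⟨(b (l 4) (a (l 4) (b (a (l 4) (a (l 4) (b (l 4) (c (c (l 164517381655) (l 168275477831)) (c (l 170959832215) (l 172570444791)))))) (a (a (b (l 4) (c (b (c (l 160222414263) (l 164517381351)) (c (l 101166615559) (l 99556002631))) (c (a (l 165591122791) (l 108145937015)) (l 142505673159)))) (b (a (l 4) (b (l 4) (c (l 157538061831) (l 103314101239)))) (c (c (c (l 60364425767) (l 59290683815)) (l 58753812567)) (c (l 45332040375) (l 37278976983))))) (b (c (a (b (c (l 163980510391) (l 167738606583)) (c (l 83449875063) (l 80228649415))) (c (l 48553265527) (l 47479523271))) (c (a (b (l 172033573687) (l 16778624)) (l 16778576)) (a (b (l 175791669911) (l 16778560)) (l 16777152)))) (c (c (l 16776888) (l 16776728)) (l 16779136))))))), by decide +kernel⟩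

def k80_pm_011 : ∃ t, chk3 f_pm_011 t 151 243 1 = true :=
  ⟨(b (a (b (l 4) (a (l 4) (a (l 4) (b (l 4) (b (l 4) (c (c (l 111367162791) (l 108682808183)) (c (l 107072195255) (l 104924711447)))))))) (b (a (l 4) (b (l 4) (b (a (l 4) (a (l 4) (c (l 114051518999) (l 109219680727)))) (c (a (c (l 162906768519) (l 166664864679)) (c (l 16778888) (l 16777504))) (a (c (l 170959831783) (l 142505675735)) (l 48016396583)))))) (a (a (b (a (l 4) (b (l 4) (c (l 158074930183) (l 108145939239)))) (c (c (c (l 66806876791) (l 65733134839)) (l 63585651015)) (c (l 62511908807) (l 46942653063)))) (c (b (b (c (l 155927446791) (l 159685542951)) (c (l 93113551687) (l 90966067831))) (l 16779776)) (b (c (a (l 154853704359) (l 97945389815)) (l 89892326551)) (l 16779480)))) (b (c (a (c (l 52848233111) (l 16778432)) (l 16777048)) (c (l 18488495367) (l 16779576))) (c (l 16778976) (l 16778632)))))) (a (b (a (a (b (l 4) (b (c (c (l 156464317399) (l 135526354071)) (c (l 134452612151) (l 133378870167))) (c (c (l 16778904) (l 16777488))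 (l 42110816503)))) (b (c (c (l 153243092263) (l 155390575687)) (c (l 157538059159) (l 159685542631))) (c (c (l 16777432) (l 16777288)) (c (l 16777160) (l 16777040))))) (a (c (b (b (c (l 118883356311) (l 120493968007)) (c (l 16777568) (l 16777432))) (l 16776848)) (b (c (l 68954360295) (l 53921975607)) (l 16776552))) (c (c (l 16776880) (l 16776712)) (c (l 16776560) (l 16776416))))) (c (a (b (l 16778992) (l 16778336)) (l 16778384)) (c (l 16775384) (l 16775224)))) (c (b (c (l 16776184) (l 16775816)) (c (l 16773560) (l 16773312))) (c (c (l 16774656) (l 16774720)) (l 16775232))))), by decide +kernel⟩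

def k81_pm_011 : ∃ t, chk3 f_pm_011 t 72 122 1 = true :=
  ⟨(l 4), by decide +kernel⟩

def k82_pm_011 : ∃ t, chk3 f_pm_011 t 73 244 1 = true :=
  ⟨(l 4), by decide +kernel⟩

def k83_pm_011 : ∃ t, chk3 f_pm_011 t 146 245 1 = true :=
  ⟨(b (l 4) (a (l 4) (b (l 4) (a (l 4) (a (l 4) (b (l 4) (b (l 4) (c (c (l 148411253639) (l 150558737143)) (c (l 152706220663) (l 154853704215)))))))))), by decide +kernel⟩

def k84_pm_011 : ∃ t, chk3 f_pm_011 t 147 490 1 = true :=
  ⟨(a (l 4) (b (l 4) (b (l 4) (a (l 4) (c (c (a (l 165054252647) (b (l 158611801079) (l 61438167207))) (a (l 168812348871) (b (l 158611800919) (l 60901295959)))) (c (a (l 172570445111) (b (l 160759284439) (l 60364424727))) (a (l 175254799543) (b (l 162906767959) (l 16778576))))))))), by decide +kernel⟩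

def k85_pm_011 : ∃ t, chk3 f_pm_011 t 147 491 1 = true :=
  ⟨(a (b (a (l 4) (a (l 4) (b (l 4) (b (l 4) (c (c (a (l 130157644455) (l 77544294407)) (a (l 130157644311) (l 16778008))) (c (l 78081166215) (l 74859940711))))))) (a (a (b (l 4) (c (b (c (a (l 159148672055) (l 107609065959)) (l 142505673367)) (c (l 44258297687) (l 16778632))) (c (b (l 144653156887) (l 16778552)) (b (l 96334777479) (l 16777168))))) (b (b (l 4) (c (c (a (l 163980510151) (l 97945389463)) (a (l 167738606391) (l 99019130967))) (c (l 92039810103) (l 88281713783)))) (c (c (l 10435430695) (l 16778360)) (c (l 16778264) (l 16778184))))) (b (a (b (c (c (a (l 162369897303) (l 89892325559)) (a (l 133378869879) (l 88281712679))) (c (a (l 140895062183) (l 88818583303)) (l 81302391815))) (c (c (l 16777336) (l 16777240)) (l 12046044487))) (c (c (l 16777064) (l 16776952)) (c (l 16776856) (l 16776760)))) (c (c (l 16776360) (l 16776232)) (c (l 16776120) (l 16776016)))))) (b (a (b (c (c (a (l 167738607431) (b (l 165054252247) (c (l 82913003591) (l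 82376132599)))) (a (l 171496703671) (b (l 168812348471) (l 78618036263)))) (c (a (l 174717928999) (b (l 172570444727) (l 65733134903))) (a (l 180086637991) (b (l 176865411895) (l 60901296743))))) (a (b (c (c (a (l 121030839015) (l 16778128)) (c (l 86671100167) (l 87744841767))) (c (l 72712456871) (l 67343747879))) (c (l 16778504) (l 16778312))) (c (c (l 16776968) (l 16776856)) (l 16778664)))) (a (b (b (c (c (l 70564972599) (l 67343746999)) (c (l 63048779591) (l 48016394695))) (c (l 16778416) (l 16779520))) (c (l 16777688) (l 16778760))) (c (c (l 16776392) (l 16776256)) (c (l 16776136) (l 16776024))))) (c (a (c (l 16776432) (l 16775960)) (c (l 16774696) (l 16774528))) (c (l 16775512) (l 16775464))))), by decide +kernel⟩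

def k86_pm_011 : ∃ t, chk3 f_pm_011 t 144 246 1 = true :=
  ⟨(l 4), by decide +kernel⟩

def k87_pm_011 : ∃ t, chk3 f_pm_011 t 145 492 1 = true :=
  ⟨(l 4), by decide +kernel⟩

def k88_pm_011 : ∃ t, chk3 f_pm_011 t 290 493 1 = true :=
  ⟨(b (l 4) (c (a (b (l 4) (b (l 4) (a (l 4) (c (a (l 104924711463) (l 61438166647)) (a (l 97945389815) (l 60364424615)))))) (a (b (b (l 4) (c (l 166127994087) (l 169886090359))) (c (b (a (b (l 136600094679) (l 92039808807)) (l 51237619367)) (l 16777096)) (b (a (l 92039809527) (l 16778000)) (l 16777008)))) (b (c (b (l 163980510343) (a (l 91502938327) (l 16778040))) (b (l 167738606599) (c (l 68417488359) (l 73786197351)))) (c (l 16776816) (l 16776720))))) (a (b (l 4) (a (l 4) (b (l 4) (c (a (l 96334776967) (l 16777960)) (a (l 94187293239) (l 16778560)))))) (a (c (b (l 173644187143) (a (b (l 90429196679) (l 16777072)) (l 16778360))) (b (l 179012896167) (a (b (l 85597358551) (l 16777000)) (l 16778288)))) (c (b (b (l 170959831959) (c (l 67343746359) (l 54458844919))) (l 16776632))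 (b (b (l 173644186423) (c (l 52311361239) (l 47479523159))) (l 16776552))))))), by decide +kernel⟩

def k89_pm_011 : ∃ t, chk3 f_pm_011 t 291 493 1 = true :=
  ⟨(b (c (a (b (l 4) (a (b (l 4) (c (l 158074930199) (l 160759284647))) (b (c (a (l 4) (l 109756550039)) (l 153243091767)) (c (c (l 52848232167) (l 53385102919)) (c (l 53921973671) (l 52848231767)))))) (a (a (b (l 4) (b (c (l 66270005063) (l 65733133895)) (l 16778320))) (b (b (l 4) (c (l 112440903863) (l 101703485895))) (c (l 16777040) (l 16776944)))) (c (b (b (a (l 165054252039) (l 103314098263)) (l 34057750391)) (l 16776640)) (b (b (a (l 169349219191) (l 101703485399)) (l 27615299607)) (l 16776536))))) (a (b (l 4) (b (a (l 4) (c (l 155927446215) (l 158611800679))) (c (a (l 163443639095) (l 33520879991)) (a (l 166127993559) (l 29762783639))))) (b (a (b (l 4) (c (l 148411253351) (l 151095607815))) (c (b (a (l 173107315463) (l 88818583895)) (l 16778504)) (b (l 143579414935) (l 16778432)))) (c (c (a (l 16778328) (l 16776464)) (l 16778016)) (c (l 16777968)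 (l 16777936)))))) (c (c (b (a (a (a (b (l 86671099879) (l 16777144)) (l 16778432)) (l 16776728)) (l 16775928)) (c (l 16776168) (l 16776104))) (c (a (b (a (b (l 60901295575) (l 16776944)) (l 16776648)) (l 16775928)) (l 16775336)) (a (b (a (b (l 59290682775) (l 16776896)) (l 16776608)) (l 16775872)) (l 16775272)))) (b (a (a (b (a (b (l 101166616071) (l 16778752)) (l 16778800)) (l 16778112)) (c (l 16776536) (l 16776456))) (c (l 16775696) (l 16775592))) (c (c (l 16775912) (l 16775856)) (l 16775448))))), by decide +kernel⟩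

def k90_pm_011 : ∃ t, chk3 f_pm_011 t 288 494 1 = true :=
  ⟨(b (l 4) (a (a (l 4) (b (l 4) (b (l 4) (c (c (l 162369897575) (l 164517381111)) (c (l 167738606487) (l 170959831879)))))) (c (b (a (l 4) (a (l 4) (b (l 4) (b (l 4) (c (l 105998452583) (l 104924710647)))))) (b (c (a (a (l 4) (l 150558737127)) (c (a (l 70564972231) (l 16777272)) (l 51237618935))) (a (a (l 4) (l 153243091575)) (c (l 39963330199) (l 36205233911)))) (b (a (c (a (l 125862676439) (l 16777384)) (a (l 124788934519) (l 16777320))) (l 16778296)) (c (c (l 16778376) (l 16777024)) (l 16778280))))) (b (a (l 4) (a (l 4) (b (l 4) (c (l 95797906103) (l 94187293271))))) (c (a (b (l 160759284535) (c (l 40500201223) (l 37278975863))) (a (b (l 50163878087) (l 16776880)) (l 16776864))) (a (b (l 163980509911) (c (l 34057750503) (l 32447137719))) (c (l 8287946727) (l 16778232)))))))), by decide +kernel⟩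

def k91_pm_011 : ∃ t, chk3 f_pm_011 t 289 494 1 = true :=
  ⟨(b (a (a (l 4) (b (l 4) (b (l 4) (c (c (c (l 134989480695) (l 136063222471)) (c (l 137673835143) (l 138747576919))) (c (a (l 173107315495) (l 81839262039)) (a (l 178476024519) (l 77544294823))))))) (b (a (l 4) (b (l 4) (c (c (a (l 159148671799) (c (l 82376132407) (l 81839261447))) (a (l 160222413495) (l 69491230871))) (c (a (l 162906767959) (l 65196263639)) (a (l 108682808215) (l 62511908983)))))) (a (c (c (b (a (l 163443639191) (b (l 131231385639) (l 16778048))) (c (l 16777936) (l 16777240))) (b (a (l 167201735463) (l 78081165511)) (l 16778496))) (c (b (a (l 171496702647) (l 73786198279)) (l 16778424)) (b (a (l 175254798951) (l 69491231063)) (l 16778368)))) (c (c (c (l 16778312) (l 16776960)) (l 16778208)) (c (l 16778128) (l 16778056)))))) (c (b (a (c (c (a (b (l 141968802647) (l 43184555415)) (b (l 37278975319) (l 16776840))) (a (b (l 143042544423) (l 45332038823)) (b (l 16777936) (l 16776800)))) (a (b (a (l 4) (l 91502938647)) (c (l 44258296935)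 (l 16777744))) (c (l 16778152) (l 16778280)))) (c (l 16776920) (l 16776824))) (c (a (l 16776680) (l 16775280)) (a (l 16776584) (l 16775160)))) (b (c (a (a (b (a (l 4) (l 89892325815)) (l 23320332519)) (c (l 16778240) (l 16778208))) (l 16776728)) (a (a (b (a (l 4) (l 86134229511)) (l 16778456)) (l 16778152)) (l 16777296))) (c (l 16776176) (l 16776168))))), by decide +kernel⟩

def k92_pm_011 : ∃ t, chk3 f_pm_011 t 144 495 1 = true :=
  ⟨(a (b (c (a (b (b (a (c (l 164517381319) (l 169349219415)) (a (c (b (l 129083902007) (l 16778032)) (b (l 132305127287) (l 16777328))) (c (l 16777976) (l 16778568)))) (c (a (a (a (l 109219678727) (l 84523616215)) (l 38889588375)) (l 16776984)) (a (a (a (l 104924711495) (l 82376132455)) (l 16777952)) (l 16776904)))) (c (c (l 16776536) (l 16776488)) (c (l 16776448) (l 16776400)))) (c (b (l 16776760) (l 16775448)) (b (l 16776664) (l 16775328)))) (c (a (b (b (a (l 172570444791) (a (l 70564972999) (l 16777200))) (a (a (b (l 139284449063) (l 16778576)) (l 16778544)) (l 16776832)))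 (c (l 16776360) (l 16776320))) (l 16776232)) (b (a (a (b (l 176328541095) (a (l 77007423943) (l 16778496))) (a (b (l 68954360183) (l 16776912)) (l 16778200))) (c (l 16776192) (l 16776160))) (l 16776680)))) (c (a (c (b (l 16775528) (l 16774544)) (b (l 16775416) (l 16774408))) (c (l 16774624) (l 16774472))) (c (a (c (l 16775480) (l 16775424)) (l 16774328)) (l 16775264)))) (c (c (b (a (c (l 16774904) (l 16774840)) (l 16775112)) (c (l 16773728) (l 16772312))) (a (c (b (l 16774768) (l 16772760)) (l 16774592)) (b (l 16774952) (l 16771624)))) (c (a (a (l 16774848) (l 16774088)) (b (l 16774808) (l 16771432))) (b (l 16774920) (c (l 16773184) (l 16773104)))))), by decide +kernel⟩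

def k93_pm_011 : ∃ t, chk3 f_pm_011 t 145 247 1 = true :=
  ⟨(b (c (a (c (b (b (a (a (b (a (l 148411253463) (l 67880617751)) (l 16777176)) (l 16778208)) (l 16776104)) (a (l 16776184) (l 16775112))) (a (l 16775360) (l 16773632))) (b (a (b (a (b (a (l 105461582839) (l 70028101047)) (l 16777096)) (l 16776808)) (l 16776080)) (b (l 16775992) (l 16774984))) (a (l 16775224) (l 16773464)))) (b (a (c (l 16775192) (l 16775040)) (b (l 16776168) (l 16775496))) (c (l 16772680) (l 16772472)))) (a (c (b (b (b (a (a (a (l 104387840903) (l 52311361591)) (l 16776976)) (l 16776144)) (a (l 16778056) (l 16775632))) (l 16775832)) (l 16774568)) (b (a (a (b (b (a (l 108682807623) (l 16777896)) (l 16776960)) (l 16776176)) (l 16776456)) (l 16775600)) (l 16774560))) (c (b (l 16774216) (l 16772280)) (a (l 16774384) (l 16772576))))) (a (c (c (b (l 16773016) (l 16770224)) (b (c (l 16772048) (l 16771952)) (l 16769976))) (c (b (c (l 16771856) (l 16771768)) (l 16769752)) (l 16772064))) (c (b (c (l 16770056) (l 16769800)) (c (l 16768088)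 (l 16767784))) (b (c (l 16769568) (l 16769352)) (c (l 16767504) (l 16767256)))))), by decide +kernel⟩

def k94_pm_011 : ∃ t, chk3 f_pm_011 t 292 492 1 = true :=
  ⟨(b (a (l 4) (b (l 4) (a (l 4) (c (c (l 166664865607) (l 170422961847)) (c (l 175254799927) (l 179549767111)))))) (c (a (b (l 4) (a (b (l 4) (c (a (l 163443639191) (l 93650421783)) (a (l 167201735447) (l 92039808919)))) (c (b (a (l 159148671799) (l 83986745319)) (l 16777272)) (b (a (l 162369897127) (l 82376132455)) (l 16777184))))) (b (a (b (l 4) (c (a (l 126399547863) (l 70564972519)) (a (l 121030838775) (l 70028101319)))) (b (c (a (l 117809613015) (l 61438166951)) (a (l 117272741975) (l 16778040))) (l 16778776))) (c (c (l 16776760) (l 16776704)) (l 16777608)))) (b (a (l 4) (b (a (l 4) (c (b (l 97408518743) (l 16778632)) (c (l 80765519543) (l 79154906759)))) (a (c (a (l 129083901847) (l 16778608)) (a (l 106535324503) (l 16778568))) (l 16778272)))) (a (a (b (l 4) (c (a (l 170959831719) (l 82376132711)) (a (l 117809613623) (l 79691778055))))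 (c (b (a (l 134989482151) (l 79154906871)) (l 16777104)) (b (a (l 116735871687) (l 16778544)) (l 16777024)))) (c (l 16777832) (l 16777744)))))), by decide +kernel⟩

def k95_pm_011 : ∃ t, chk3 f_pm_011 t 293 492 1 = true :=
  ⟨(b (a (a (b (l 4) (c (b (c (l 165054252231) (l 169349219399)) (c (a (l 105998453031) (l 16778096)) (c (l 77007423367) (l 79154906791)))) (c (b (l 172570444743) (c (l 78618035815) (l 77007423031))) (b (l 176865411927) (l 55532587703))))) (a (b (l 4) (b (c (c (l 96334776535) (l 97408518055)) (c (l 95797905207) (l 85597358087))) (c (l 16778488) (l 16778312)))) (b (c (c (l 163980510535) (l 167738606775)) (c (l 170959832119) (l 173107315655))) (c (c (l 16778512) (l 16777104)) (c (l 16777016) (l 16776936)))))) (b (c (a (b (c (l 155927446519) (l 158074930023)) (c (c (l 59827554279) (l 58753812375)) (c (l 57680070471) (l 57680070311)))) (b (c (l 52311361351) (l 52311361015)) (l 16778264))) (c (a (b (l 160759284455) (l 41037072839)) (c (l 16778392) (l 16778344))) (a (b (l 162906767991) (l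 36742105495)) (l 16778288)))) (c (c (l 16776552) (l 16776432)) (c (l 16776328) (l 16776224))))) (c (a (c (c (l 16776840) (l 16776120)) (c (l 16776056) (l 16776000))) (c (l 16776384) (l 16776232))) (c (c (l 16776032) (l 16775976)) (l 16776384)))), by decide +kernel⟩

def k96_pm_011 : ∃ t, chk3 f_pm_011 t 146 493 1 = true :=
  ⟨(c (c (b (a (a (b (c (l 16778160) (l 16778104)) (l 16775840)) (l 16775912)) (c (l 16775000) (l 16774904))) (a (a (l 16774360) (l 16773288)) (l 16772984))) (b (a (a (a (b (l 16778296) (l 16775984)) (l 16775944)) (l 16775768)) (c (l 16774816) (l 16774728))) (a (a (l 16774200) (l 16773096)) (l 16772752)))) (c (a (b (a (a (b (l 16778216) (l 16775880)) (l 16776488)) (c (l 16775016) (l 16774952))) (a (l 16774056) (l 16772928))) (c (l 16773376) (l 16773200))) (a (b (a (c (l 19025361335) (l 16776408)) (c (l 16774896) (l 16777464))) (l 16774000)) (b (l 16773464) (l 16773664))))), by decide +kernel⟩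

def k97_pm_011 : ∃ t, chk3 f_pm_011 t 147 246 1 = true :=
  ⟨(c (b (c (b (a (a (a (l 16776232) (l 16775696)) (l 16774888)) (l 16773928)) (a (c (l 16773512) (l 16773408)) (l 16771296))) (b (a (a (a (l 16776112) (l 16775560)) (l 16774728)) (c (l 16773112) (l 16773016))) (a (c (l 16773312) (l 16773224)) (l 16771048)))) (a (b (c (l 16771488) (l 16771248)) (c (l 16769520) (l 16769232))) (c (l 16769656) (l 16769016)))) (b (c (a (b (l 16775920) (c (l 16773136) (l 16773048))) (c (l 16772560) (l 16772464))) (a (b (l 16776008) (l 16772928)) (l 16772976))) (c (a (b (l 16771032) (l 16768976)) (c (l 16767816) (l 16767672))) (b (l 16770832) (l 16768248))))), by decide +kernel⟩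

def k98_pm_011 : ∃ t, chk3 f_pm_011 t 73 247 1 = true :=
  ⟨(a (a (c (c (b (b (l 16773160) (l 16769880)) (l 16768240)) (b (b (l 16772944) (l 16769616)) (l 16767904))) (c (b (b (l 16772088) (l 16769376)) (l 16767600)) (b (l 16771352) (c (l 16766080) (l 16765944))))) (c (b (b (a (l 16772728) (l 16769016)) (l 16768880)) (c (l 16764776) (l 16764392))) (b (b (c (l 16769176) (l 16768952)) (c (l 16767120) (l 16766856))) (c (l 16764040) (l 16763712))))) (a (c (b (b (l 16768688) (l 16765392)) (c (l 16762624) (l 16762192))) (b (b (l 16772024) (l 16769952)) (c (l 16761784) (l 16761416)))) (b (c (c (l 16764408) (l 16764008)) (c (l 16763632) (l 16763296))) (c (l 16762848) (l 16764568))))), by decide +kernel⟩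

def k99_pm_011 : ∃ t, chk3 f_pm_011 t 148 244 1 = true :=
  ⟨(b (l 4) (a (l 4) (b (l 4) (a (a (l 4) (b (l 4) (c (c (l 166664865559) (l 170422961783)) (c (l 175254799831) (l 178476025175))))) (a (b (l 4) (c (b (c (l 163980510391) (l 168275477511)) (c (l 75396811303) (l 74323069159))) (b (c (l 172033573735) (l 176328540903)) (c (l 72175585223) (l 70564972199))))) (b (c (c (l 164517381671) (l 167738606967)) (c (l 170959832279) (l 172570444887))) (c (b (c (l 67880618455) (l 67880617991)) (l 16779760)) (c (l 25467816743) (l 16778416))))))))), by decide +kernel⟩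

def k100_pm_011 : ∃ t, chk3 f_pm_011 t 149 488 1 = true :=
  ⟨(a (l 4) (b (l 4) (c (b (a (l 4) (c (a (l 165591123639) (b (l 162906768471) (l 73249327591))) (a (l 169886090743) (b (l 166127993751) (l 70028101959))))) (b (c (a (l 167738607479) (c (l 51237619943) (l 50163877991))) (a (l 171496703671) (c (l 49627006951) (l 49627006679)))) (a (a (l 4) (c (l 91502938887) (l 89892325975))) (l 16778304)))) (a (b (l 4) (a (l 4) (b (c (l 174717928423) (l 177939153751)) (c (l 89355454743) (l 90429196183))))) (c (b (a (l 173644186951) (b (l 168275477239) (l 16778672))) (c (l 20099107351) (l 17951623671))) (b (a (l 177939154103) (b (l 169349218919) (l 16777296))) (c (l 16778272) (l 16778216)))))))), by decide +kernel⟩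

def k101_pm_011 : ∃ t, chk3 f_pm_011 t 149 489 1 = true :=
  ⟨(a (b (c (a (b (l 4) (a (l 4) (b (l 4) (c (l 145190028135) (l 116735872407))))) (b (a (l 4) (b (l 4) (c (l 106535324727) (l 106535324391)))) (c (a (b (l 117272742743) (l 16777480)) (l 16777240)) (a (b (l 114588388167) (l 16777376)) (l 16777112))))) (a (a (l 4) (b (l 4) (c (l 158074930151) (l 160759284567)))) (a (b (l 4) (b (c (l 115662129655) (l 99556002903)) (l 24394075847))) (b (b (l 4) (c (l 107072194967) (l 92576680871))) (l 16778904))))) (c (a (c (b (a (b (l 153243091927) (l 61438167271)) (l 33520879447)) (l 16776656)) (b (a (b (l 155390575399) (l 16778088)) (l 16778520)) (l 16776512))) (c (l 16776064) (l 16775904))) (a (b (c (a (b (l 157001187975) (l 16777344)) (l 16778408)) (a (b (l 113514647079) (l 16777264)) (l 16777000))) (c (l 16776384) (l 16776264))) (c (l 16775760) (l 16775624))))) (c (a (a (b (b (b (c (l 97945390055) (l 98482260631)) (l 16779312)) (l 16779264)) (l 16777784)) (b (b (l 16779040) (l 16776096)) (l 16777232))) (b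 (b (l 16778888) (l 16777896)) (l 16777056))) (a (a (b (b (b (a (l 104924713335) (l 57680072503)) (l 16779744)) (l 16779000)) (l 16777448)) (b (c (l 16776384) (l 16776256)) (l 16776872))) (c (l 16775160) (l 16775000))))), by decide +kernel⟩

def k102_pm_011 : ∃ t, chk3 f_pm_011 t 148 245 1 = true :=
  ⟨(b (a (b (b (l 4) (b (a (l 4) (a (l 4) (c (c (l 102777227959) (l 103850969463)) (c (l 90966067991) (l 87207971575))))) (a (l 4) (a (c (c (l 110293420823) (l 111367162327)) (c (l 95261035639) (l 92576680951))) (c (c (l 16777384) (l 16777272)) (l 16779088)))))) (a (b (b (a (l 4) (c (c (l 140358189863) (l 142505673351)) (c (l 100629745015) (l 98482261239)))) (c (a (c (l 148411253655) (l 150558737143)) (c (l 16778112) (l 16777360))) (c (a (l 152706220647) (l 16777264)) (a (l 104387841719) (l 16777184))))) (a (c (a (c (l 43721426775) (l 43721426407)) (l 16778424)) (c (l 16778400) (l 16778312))) (c (l 16778680) (l 16779104)))) (b (c (c (c (l 16776984) (l 16776920)) (l 16778136)) (c (l 16778024) (l 16777920)))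 (c (c (l 16775976) (l 16775832)) (l 16778248))))) (c (c (b (a (b (a (b (l 4) (l 94724164215)) (b (l 86671100471) (l 16777296))) (l 16776856)) (l 16776928)) (c (l 16774896) (l 16774800))) (b (a (b (a (b (l 4) (l 94187293047)) (c (l 53921974103) (l 54995715671))) (l 16776720)) (l 16776776)) (c (l 16774712) (l 16774624)))) (c (b (a (b (a (b (l 4) (l 87207971287)) (c (l 54995715495) (l 55532586231))) (l 16776600)) (l 16776312)) (l 16774664)) (a (b (b (a (b (l 4) (l 81302391287)) (c (l 38352717943) (l 34594621639))) (l 16776496)) (l 16774936)) (l 16775968))))) (c (a (c (b (a (l 16775584) (l 16774504)) (l 16774384)) (b (c (l 16775576) (l 16775168)) (l 16774176))) (b (c (l 16775496) (l 16775272)) (c (l 16770904) (l 16770640)))) (c (a (c (l 16774968) (l 16774968)) (b (l 16775072) (l 16770392))) (a (b (l 16775240) (l 16775768)) (l 16772200))))), by decide +kernel⟩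

def k103_pm_011 : ∃ t, chk3 f_pm_011 t 149 245 1 = true :=
  ⟨(c (b (a (c (b (c (l 16774696) (l 16774592)) (l 16772672)) (b (c (l 16774504) (l 16774408)) (l 16772440))) (b (c (l 16772464) (l 16772224)) (c (l 16770496) (l 16770208)))) (a (b (c (l 16770704) (l 16770424)) (l 16771192)) (c (l 16767536) (l 16767184)))) (b (c (a (b (l 16774280) (l 16772224)) (l 16771464)) (a (b (l 16774120) (l 16774656)) (l 16771408))) (c (a (l 16769144) (l 16766864)) (l 16769704)))), by decide +kernel⟩

def k104_pm_011 : ∃ t, chk3 f_pm_011 t 75 244 1 = true :=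
  ⟨(a (b (a (b (c (b (a (l 4) (a (b (l 4) (c (l 118883356151) (l 119957097127))) (b (c (l 111367162791) (l 108682808199)) (c (l 16777496) (l 16777368))))) (c (a (a (l 161833026999) (b (l 146263769975) (l 16777552))) (l 16778408)) (a (a (l 162906768631) (b (l 126399548663) (l 16777440))) (l 16779568)))) (a (b (l 4) (c (a (l 165054252119) (b (l 124252064839) (l 16777344))) (a (l 167738606519) (c (l 79154907463) (l 75396811175))))) (b (a (c (l 152706220887) (l 155390575287)) (b (c (l 107072195287) (l 108682807543)) (l 16779824))) (c (l 16776816) (l 16776696))))) (b (a (c (a (c (l 42647685159) (l 16777968)) (l 16779480)) (c (l 16778896) (l 16779432))) (c (l 16778672) (l 16778352))) (c (c (l 16775704) (l 16775520)) (c (l 16775352) (l 16775208))))) (c (b (c (c (l 16777008) (l 16776912)) (c (l 16776656) (l 16776568))) (c (l 16774008) (l 16773784))) (c (b (a (l 16777504) (l 16775056)) (l 16776200)) (b (l 16775968) (l 16773392))))) (c (a (b (c (l 16776848) (l 16776632)) (c (l 16772256) (l 16772000))) (b (c (l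 16772040) (l 16771768)) (l 16773840))) (a (c (b (l 16776440) (l 16771768)) (l 16773904)) (c (l 16770664) (l 16770912))))) (a (c (b (b (c (l 16773792) (l 16773552)) (c (l 16771816) (l 16771536))) (c (l 16768856) (l 16768512))) (b (c (l 16772880) (l 16772752)) (c (l 16773448) (l 16767920)))) (c (b (b (l 16775376) (l 16774688)) (c (l 16766656) (l 16766264))) (c (c (l 16769832) (l 16769848)) (l 16770616))))), by decide +kernel⟩

def k105_pm_011 : ∃ t, chk3 f_pm_011 t 75 245 1 = true :=
  ⟨(b (c (a (a (c (l 16770608) (l 16770288)) (c (l 16767104) (l 16766736))) (c (l 16765456) (c (l 16763472) (l 16763256)))) (c (a (b (l 16768568) (l 16771760)) (c (l 16763056) (l 16762856))) (a (l 16768888) (l 16762576)))) (c (a (a (c (l 16765352) (l 16764952)) (l 16768176)) (c (l 16759880) (l 16759344))) (c (a (l 16763520) (l 16758856)) (a (l 16763736) (l 16758416))))), by decide +kernel⟩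

def k106_pm_011 : ∃ t, chk3 f_pm_011 t 37 123 1 = true :=
  ⟨(a (b (a (a (c (b (b (c (l 16771104) (l 16770848)) (c (l 16769136) (l 16768832))) (c (l 16766184) (l 16765816))) (c (b (l 16769952) (l 16765480)) (b (l 16770008) (l 16765176)))) (c (b (c (l 16769264) (l 16768928)) (c (l 16764016) (l 16763592))) (b (b (l 16773448) (l 16771384)) (c (l 16763208) (l 16762864))))) (c (b (c (c (l 16766112) (l 16765896)) (c (l 16765688) (l 16765496))) (c (l 16763376) (l 16762880))) (b (c (b (l 16770168) (l 16762880)) (l 16764216)) (a (l 16765984) (l 16758448))))) (c (a (b (c (l 16763784) (l 16761992)) (c (l 16757240) (l 16756672))) (b (c (l 16756832) (l 16756248)) (l 16757808))) (a (c (b (l 16761552) (l 16756144)) (c (l 16759584) (l 16759624))) (c (b (l 16755712) (l 16751624)) (l 16754288))))) (a (c (b (b (c (l 16760328) (l 16759816)) (c (l 16756400) (l 16755800))) (c (l 16753144) (l 16752416))) (c (b (b (l 16759344) (l 16755248)) (b (l 16751168) (l 16747088))) (b (l 16759128) (l 16748520)))) (c (b (b (c (l 16755944)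 (l 16755328)) (l 16751664)) (c (l 16746152) (l 16745328))) (b (b (l 16762368) (l 16760872)) (c (l 16744568) (l 16743880)))))), by decide +kernel⟩

def k107_pm_011 : ∃ t, chk3 f_pm_011 t 76 120 1 = true :=
  ⟨(l 4), by decide +kernel⟩

def k108_pm_011 : ∃ t, chk3 f_pm_011 t 77 240 1 = true :=
  ⟨(a (l 4) (b (l 4) (a (l 4) (b (l 4) (a (a (l 4) (b (l 4) (c (l 160759285591) (l 168275477831)))) (a (b (l 4) (c (b (l 156464317719) (l 109756551991)) (b (l 132305129751) (l 99556003511)))) (b (a (l 4) (c (l 155927446839) (l 174181057319))) (c (c (l 16779088) (l 16777624)) (l 46405784599))))))))), by decide +kernel⟩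

def k109_pm_011 : ∃ t, chk3 f_pm_011 t 154 241 1 = true :=
  ⟨(b (a (l 4) (b (l 4) (a (l 4) (a (l 4) (b (l 4) (c (b (l 158611801447) (l 108682810343)) (b (l 166127993703) (l 96871650775)))))))) (a (b (a (l 4) (a (l 4) (b (l 4) (b (l 4) (c (l 164517383767) (l 111904036455)))))) (a (a (b (l 4) (c (c (l 145190028407) (l 146263769959)) (b (l 167738606535) (l 96871650791)))) (b (a (l 4) (c (l 159148675095) (l 176328541175))) (c (c (l 72712457415) (l 69491231671)) (c (l 16778760) (l 16777336))))) (c (b (a (b (l 155927449303) (l 92039810839)) (c (l 16777712) (l 16777552))) (l 16779704)) (b (c (c (l 82376133495) (l 82913004151)) (c (l 82913003911) (l 76470552727))) (l 16779328))))) (b (b (a (a (l 4) (b (l 4) (c (c (l 137673838007) (l 138747579559)) (l 111367165143)))) (c (c (c (l 62511910071) (l 61438168071)) (l 58753813271)) (c (l 58753812631) (l 41037073735)))) (c (a (a (c (l 100629745463) (l 98482261543)) (c (l 16777648) (l 16777472))) (l 16776840)) (a (a (b (l 111904036247) (l 16780016)) (l 16779856)) (l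 16776432)))) (c (c (l 16776056) (l 16775816)) (c (l 16775592) (l 16775384)))))), by decide +kernel⟩

def k110_pm_011 : ∃ t, chk3 f_pm_011 t 155 241 1 = true :=
  ⟨(b (a (b (a (l 4) (b (l 4) (c (a (b (l 4) (l 162906770983)) (b (l 130157646391) (l 16778952))) (a (b (l 4) (l 113514649143)) (c (l 96334777495) (l 93650422711)))))) (c (a (b (a (b (l 4) (l 156464317655)) (b (l 153779962983) (l 94187294519))) (c (l 51237620871) (l 49627007607))) (c (l 28152169991) (l 16779568))) (c (a (b (l 143579416631) (l 16778624)) (l 16776744)) (a (b (l 145190027831) (l 16777160)) (l 16776552))))) (b (a (c (b (a (b (l 4) (l 128547033559)) (c (l 84523617719) (l 81302391927))) (c (l 16777480) (l 16777272))) (b (a (b (l 4) (l 111367164999)) (c (l 16778704) (l 16777328))) (l 16779608))) (c (l 16779424) (l 16778984))) (c (c (l 16775544) (l 16775272)) (c (l 16775024) (l 16774800))))) (c (a (b (a (l 16778848) (l 16775112)) (l 16778928)) (c (l 16772584) (l 16777496))) (a (c (l 16774456) (l 16774384)) (c (l 16777192) (l 16771672))))),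 by decide +kernel⟩

def k111_pm_011 : ∃ t, chk3 f_pm_011 t 152 242 1 = true :=
  ⟨(b (l 4) (a (b (l 4) (a (l 4) (a (b (l 4) (c (c (l 144116286567) (l 145190028151)) (c (l 146800640695) (l 148948124151)))) (b (b (l 4) (c (l 159685545847) (l 176328543703))) (c (c (l 67343748311) (l 66270005959)) (c (l 65196263671) (l 64122521399))))))) (b (a (a (l 4) (b (l 4) (c (c (l 165054252663) (l 169349219719)) (c (l 173107315895) (l 177402282999))))) (b (a (l 4) (c (c (l 160222414199) (l 162369897591)) (c (l 161833026471) (l 163980509927)))) (c (c (a (b (l 161296155703) (l 16777576)) (l 16777568)) (a (l 96334777719) (l 16777408))) (a (c (l 97945389911) (l 85597359415)) (l 22783463879))))) (c (a (b (a (c (b (l 155927446823) (l 98482260855)) (l 131768255143)) (c (l 57143200503) (l 16778800))) (l 16779592)) (c (l 16776472) (l 16776272))) (b (a (a (c (l 111367162887) (l 93650423751)) (b (l 59827556855) (l 16777088))) (l 16779128)) (c (l 16776152) (l 16775992))))))), by decide +kernel⟩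

def k112_pm_011 : ∃ t, chk3 f_pm_011 t 153 242 1 = true :=
  ⟨(b (a (b (l 4) (a (a (l 4) (b (l 4) (c (c (l 145190028407) (l 146263769991)) (c (l 147874382503) (l 149484995047))))) (a (b (a (l 4) (c (l 160222415639) (l 176865413463))) (c (c (l 70564973783) (l 68417489799)) (c (l 66270005767) (l 16778640)))) (c (b (c (l 131231384487) (l 111367163607)) (l 16777288)) (b (b (l 174717930807) (l 70564975383)) (l 16776952)))))) (b (a (b (l 4) (c (a (c (l 165054252663) (l 168812348791)) (c (l 99019132791) (l 99019132295))) (a (b (l 4) (l 171496705207)) (b (l 109756552647) (l 54458847735))))) (c (c (b (a (l 160222414183) (l 86671101511)) (l 16777408)) (b (a (l 162369897575) (l 84523617623)) (l 16777216))) (b (a (b (l 4) (l 108682810711)) (c (l 78618037207) (l 77007423975))) (c (l 16777048) (l 16776888))))) (a (b (c (c (l 42647685623) (l 16778640)) (c (l 16778480) (l 16777024))) (c (l 16776496) (l 16776112))) (c (l 16778504) (l 16778088))))) (c (b (c (a (a (a (b (l 84523617815) (l 16777096)) (l 16777040)) (l 16776240))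 (l 16774592)) (a (a (b (c (l 58753813079) (l 58753812775)) (l 16776640)) (l 16776024)) (l 16774336))) (a (c (l 16774832) (l 16774592)) (l 16777704))) (a (a (b (a (b (c (l 79154907783) (l 78618036375)) (l 16776664)) (l 16779384)) (l 16777464)) (b (c (l 16775824) (l 16775648)) (l 16776296))) (c (l 16773232) (l 16773496))))), by decide +kernel⟩

def k113_pm_011 : ∃ t, chk3 f_pm_011 t 76 243 1 = true :=
  ⟨(a (b (c (a (b (c (a (b (a (l 159148672343) (b (l 125862678055) (l 16777616))) (l 16778592)) (l 16779328)) (a (b (a (l 158611801207) (l 78618037047)) (l 16777112)) (l 16776520))) (c (l 16775304) (l 16775088))) (b (c (l 16775072) (l 16774840)) (l 16776888))) (b (c (a (a (b (a (l 160759284647) (l 76470553047)) (l 16776960)) (l 16776344)) (l 16774624)) (a (a (b (a (l 162369897207) (l 67880618551)) (l 16776824)) (l 16776192)) (l 16777056))) (a (c (l 16775536) (l 16774704)) (l 16776392)))) (a (c (b (c (l 16773336) (l 16773072)) (l 16776448)) (c (l 16772136) (l 16772232))) (c (c (l 16770136) (l 16769800)) (c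 (l 16774736) (l 16769216))))) (a (c (b (c (l 16773184) (l 16775496)) (c (l 16767920) (l 16767528))) (c (b (l 16771288) (l 16767176)) (l 16771896))) (c (b (c (l 16769648) (l 16769288)) (l 16770712)) (c (l 16768712) (l 16768544))))), by decide +kernel⟩

def k114_pm_011 : ∃ t, chk3 f_pm_011 t 77 121 1 = true :=
  ⟨(b (c (a (a (b (b (c (l 16777944) (l 16777384)) (l 16778136)) (c (l 16771376) (l 16776288))) (b (c (l 16775728) (l 16776728)) (l 16774192))) (a (b (a (l 16776496) (l 16775360)) (l 16771920)) (b (l 16773648) (l 16764400)))) (a (b (a (b (a (a (l 16779248) (l 16778680)) (l 16777808)) (l 16777640)) (c (l 16776448) (l 16772264))) (a (c (l 16775984) (l 16770464)) (l 16774144))) (c (b (l 16769664) (l 16764888)) (b (l 16770000) (l 16764512))))) (a (c (c (b (l 16771544) (l 16762344)) (b (l 16771760) (l 16761832))) (c (b (l 16765464) (l 16766600)) (l 16766952))) (c (b (l 16769400) (l 16768024)) (c (l 16760040) (l 16760880))))), by decide +kernel⟩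

def k115_pm_011 : ∃ t, chk3 f_pm_011 t 78 120 1 = true :=
  ⟨(b (a (b (a (l 4) (b (l 4) (a (b (l 4) (c (c (l 145190028695) (l 146263770199)) (c (l 147874382647) (l 148948124231)))) (c (b (c (a (l 153779963495) (l 108682809079)) (l 134989482119)) (c (l 16777712) (l 16777504))) (b (c (l 136063222343) (l 137136963911)) (l 25467819383)))))) (a (b (a (b (l 4) (a (l 4) (b (l 4) (c (l 129620775847) (l 116199003495))))) (b (c (c (l 158611801767) (l 157538059623)) (c (l 159148672087) (l 160759284567))) (c (c (l 68417490823) (l 65196264775)) (c (l 63585651479) (l 61975038119))))) (a (c (b (a (b (l 131231388695) (l 89355456199)) (l 54995717431)) (l 16777136)) (b (c (l 74323069847) (l 68954360519)) (l 16776712))) (c (l 16776544) (l 16778688)))) (c (b (a (a (c (l 46405782663) (l 47479523735)) (l 16777080)) (l 16776272)) (l 16777488)) (b (a (c (l 16341012407) (l 16779432)) (l 16775768)) (l 16779552))))) (b (a (b (a (b (a (l 4) (c (l 160222414711) (l 167738606887))) (c (c (a (l 160222414183) (l 92576681447)) (l 103314100743))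 (c (l 103314100119) (l 104387841207)))) (c (b (a (b (l 155927446839) (l 119420228471)) (l 73786199927)) (l 16777392)) (b (c (l 93113552375) (l 92576680903)) (l 16776952)))) (c (c (l 16779312) (l 16776416)) (c (l 16776168) (l 16775936)))) (c (b (c (l 16776424) (l 16776136)) (l 16779544)) (b (c (l 16775864) (l 16775624)) (l 16778928)))) (c (a (c (l 16773760) (l 16773424)) (l 16776536)) (c (b (l 16778200) (l 16776136)) (l 16772936))))) (c (a (a (b (b (c (l 16775288) (l 16775000)) (l 16778384)) (l 16775376)) (b (c (l 16772048) (l 16771688)) (l 16773088))) (b (c (l 16773880) (l 16773448)) (l 16772256))) (c (a (b (b (l 16773560) (l 16776744)) (l 16768744)) (b (l 16767800) (l 16768920))) (a (b (l 16773896) (l 16768728)) (l 16769280))))), by decide +kernel⟩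

def k116_pm_011 : ∃ t, chk3 f_pm_011 t 79 120 1 = true :=
  ⟨(a (a (b (c (b (l 16778248) (l 16774224)) (c (l 16771904) (l 16772056))) (c (c (l 16768464) (l 16767912)) (c (l 16762168) (l 16761712)))) (c (b (b (l 16775936) (l 16766664)) (l 16768480)) (b (b (l 16775168) (l 16771000)) (l 16767392)))) (c (b (b (l 16775072) (l 16768408)) (c (l 16767944) (l 16767272))) (b (b (l 16767280) (l 16762128)) (l 16761136)))), by decide +kernel⟩

def k117_pm_011 : ∃ t, chk3 f_pm_011 t 39 121 1 = true :=
  ⟨(a (a (c (b (b (c (l 16765224) (l 16769984)) (l 16766208)) (c (l 16765800) (l 16765128))) (b (b (l 16765240) (l 16759944)) (b (l 16766296) (l 16762168)))) (c (b (b (l 16770864) (l 16766856)) (l 16760864)) (b (l 16762488) (l 16759464)))) (a (c (b (c (l 16764600) (l 16763880)) (l 16756240)) (c (l 16754216) (l 16754552))) (c (b (l 16759568) (l 16751584)) (b (l 16747616) (l 16739368))))), by decide +kernel⟩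

def k118_pm_011 : ∃ t, chk3 f_pm_011 t 19 61 1 = true :=
  ⟨(a (b (a (a (c (a (b (b (c (l 16768400) (l 16768032)) (l 16769464)) (c (l 16761160) (l 16760600))) (b (b (l 16771216) (l 16761984)) (c (l 16756336) (l 16755720)))) (b (c (b (l 16767200) (l 16767688)) (b (l 16767536) (l 16762056))) (b (b (l 16764392) (l 16762328)) (l 16761856)))) (c (b (b (c (l 16762856) (l 16767608)) (l 16766480)) (b (l 16765128) (l 16750672))) (b (c (b (l 16767160) (l 16757816)) (l 16762048)) (c (l 16751688) (l 16751112))))) (a (c (b (b (l 16763336) (l 16764592)) (c (l 16748560) (l 16747768))) (b (c (l 16755872) (l 16756008)) (l 16747368))) (c (b (c (l 16762424) (l 16761696)) (l 16754112)) (b (c (l 16761032) (l 16749944)) (l 16742016))))) (b (a (c (a (c (l 16749584) (l 16754072)) (c (l 16745168) (l 16744312))) (a (a (l 16759464) (l 16757144)) (l 16743168))) (b (c (l 16750440) (l 16748704)) (c (l 16746496) (l 16744608)))) (a (c (b (a (l 16743264) (l 16738808)) (l 16747584)) (a (l 16750088) (l 16745464))) (a (c (l 16732352) (l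 16730328)) (c (l 16727848) (l 16725664)))))) (b (b (c (a (a (l 16757488) (l 16752904)) (c (l 16746496) (l 16745448))) (a (a (l 16745504) (l 16740752)) (l 16738808))) (a (c (a (l 16739072) (l 16734488)) (l 16737552)) (a (l 16744504) (l 16745024)))) (c (a (b (l 16744624) (l 16742016)) (a (l 16733816) (l 16734432))) (a (b (l 16726760) (l 16739592)) (b (l 16717256) (l 16730120)))))), by decide +kernel⟩

def k119_pm_011 : ∃ t, chk3 f_pm_011 t 36 124 1 = true :=
  ⟨(a (b (a (b (c (a (b (c (c (l 16773888) (l 16773792)) (a (l 16772888) (l 16771792))) (c (l 16771864) (l 16771632))) (b (c (l 16771704) (l 16771464)) (c (l 16768416) (l 16768136)))) (c (a (b (a (l 16772728) (l 16771608)) (l 16771416)) (b (l 16771240) (l 16767872))) (a (c (l 16772320) (l 16772232)) (b (l 16771040) (l 16767632))))) (c (a (b (c (l 16768576) (l 16768296)) (c (l 16766608) (l 16766280))) (b (l 16767584) (l 16766904))) (a (c (c (l 16768392) (l 16768256)) (b (l 16767808) (l 16765704))) (b (l 16766976) (l 16768824))))) (a (c (b (c (l 16768576)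 (l 16768264)) (c (l 16763328) (l 16762920))) (b (b (a (l 16770752) (l 16767000)) (l 16766792)) (c (l 16762544) (l 16762200)))) (b (c (b (l 16768560) (l 16763944)) (b (l 16767920) (l 16763224))) (c (l 16762920) (c (l 16760304) (l 16759912)))))) (c (c (a (b (c (l 16764656) (l 16763784)) (l 16761264)) (b (l 16760944) (l 16754392))) (b (a (a (l 16763248) (l 16761072)) (l 16760416)) (a (l 16760752) (l 16753768)))) (a (c (b (a (l 16762888) (l 16760656)) (l 16760272)) (b (a (l 16762552) (l 16760280)) (l 16759832))) (c (b (l 16759928) (l 16753200)) (b (l 16759488) (l 16752672)))))) (b (c (a (a (b (a (l 16765936) (l 16762232)) (l 16761416)) (b (l 16763224) (l 16756624))) (b (a (l 16758424) (l 16756248)) (l 16755992))) (a (a (b (a (l 16767800) (l 16761424)) (l 16763088)) (b (l 16761032) (l 16755584))) (a (b (l 16762696) (l 16753312)) (c (l 16756008) (l 16755480))))) (c (a (b (c (l 16754056) (l 16753424)) (l 16755008)) (b (l 16754640) (l 16745440))) (a (b (a (l 16753696) (l 16751440)) (l 16753672)) (b (l 16753288)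 (l 16743920)))))), by decide +kernel⟩

def k120_pm_011 : ∃ t, chk3 f_pm_011 t 36 125 1 = true :=
  ⟨(a (b (b (a (c (c (l 16754704) (l 16754096)) (c (l 16753528) (l 16753008))) (c (l 16752720) (l 16754024))) (c (a (l 16753032) (l 16746128)) (a (l 16751728) (l 16744632)))) (c (a (b (l 16751672) (l 16742456)) (b (l 16742160) (l 16743480))) (b (a (l 16744944) (l 16740488)) (a (l 16740792) (l 16746864))))) (a (c (b (c (l 16749496) (l 16748632)) (b (l 16737872) (l 16739200))) (b (c (l 16747840) (l 16747112)) (b (l 16736024) (l 16742424)))) (a (b (c (l 16740584) (l 16738856)) (b (l 16733616) (l 16734896))) (b (c (l 16738424) (l 16736608)) (b (l 16741936) (l 16727536)))))), by decide +kernel⟩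

def k121_pm_011 : ∃ t, chk3 f_pm_011 t 37 62 1 = true :=
  ⟨(b (b (a (b (a (c (l 16755600) (a (l 16752912) (l 16750632))) (c (l 16748600) (l 16747216))) (a (c (l 16749016) (l 16747648)) (c (l 16744648) (l 16743096)))) (a (c (c (l 16742696) (l 16741800)) (c (l 16740976) (l 16740224))) (c (l 16748320) (l 16746496)))) (b (c (a (a (l 16745056) (l 16740696)) (l 16739376)) (a (a (l 16743520) (l 16738984)) (l 16742640))) (c (a (a (l 16741104) (l 16736752)) (l 16730200)) (a (a (l 16739400) (l 16734872)) (l 16728064))))) (c (b (a (a (l 16740424) (l 16736128)) (b (l 16726296) (c (l 16733592) (l 16732264)))) (a (b (c (l 16733048) (l 16731816)) (l 16723512)) (l 16716984))) (b (b (a (l 16735648) (l 16723992)) (a (a (l 16731176) (l 16726688)) (c (l 16731040) (l 16729920)))) (a (a (b (l 16727120) (l 16723240)) (l 16731248)) (l 16714328))))), by decide +kernel⟩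

def k122_pm_011 : ∃ t, chk3 f_pm_011 t 19 62 1 = true :=
  ⟨(b (a (a (c (b (c (l 16742264) (l 16741120)) (a (l 16725560) (l 16721128))) (b (c (l 16734840) (l 16741768)) (c (l 16721512) (l 16720432)))) (b (c (l 16732744) (l 16735584)) (b (l 16730744) (a (l 16734344) (l 16729824))))) (b (a (c (l 16713224) (l 16731488)) (c (l 16725176) (l 16722176))) (a (c (l 16726600) (l 16723640)) (l 16718768)))) (a (a (b (b (a (l 16728896) (l 16734920)) (l 16733480)) (b (l 16729880) (l 16726272))) (c (b (l 16707168) (l 16700224)) (b (l 16704232) (l 16697032)))) (c (a (l 16705744) (l 16686736)) (b (l 16712096) (l 16705016))))), by decide +kernel⟩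

def k123_pm_011 : ∃ t, chk3 f_pm_011 t 9 63 1 = true :=
  ⟨(a (b (b (a (a (b (c (a (c (l 16744256) (l 16743272)) (l 16734312)) (a (c (l 16742360) (l 16746752)) (l 16732312))) (c (l 16737928) (l 16741080))) (b (c (l 16728144) (l 16725880)) (c (l 16724440) (l 16722032)))) (a (c (l 16728520) (l 16725880)) (c (l 16709776) (l 16706848)))) (a (a (a (c (l 16739584) (l 16726848)) (c (l 16725008) (l 16722600))) (c (l 16729368) (l 16726728))) (a (c (l 16710712) (l 16707776)) (c (l 16702544) (l 16699336))))) (b (b (a (a (c (l 16721408) (l 16718832)) (c (l 16713296) (l 16710424))) (a (l 16714144) (l 16716448))) (c (a (a (l 16728192) (l 16709704)) (l 16708368)) (a (a (l 16714928) (l 16706600)) (l 16704736)))) (a (a (c (b (l 16714320) (l 16711032)) (b (l 16711168) (l 16707440))) (c (b (l 16706544) (l 16703376)) (l 16711672))) (a (c (l 16697312) (l 16693136)) (c (l 16689720) (l 16685152)))))) (a (a (b (b (c (l 16701496) (l 16698312)) (c (l 16694360) (l 16690904))) (b (b (l 16708264) (l 16684216)) (c (l 16682176) (l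 16677224)))) (b (b (l 16701952) (l 16705296)) (b (c (l 16679792) (l 16675552)) (l 16693016)))) (b (a (b (l 16704008) (l 16697032)) (c (l 16683776) (l 16690264))) (b (a (l 16690760) (l 16661976)) (c (l 16663560) (l 16657688)))))), by decide +kernel⟩

def k124_pm_011 : ∃ t, chk3 f_pm_011 t 5 12 1 = true :=
  ⟨(l 4), by decide +kernel⟩

def k125_pm_011 : ∃ t, chk3 f_pm_011 t 10 13 1 = true :=
  ⟨(l 4), by decide +kernel⟩

def k126_pm_011 : ∃ t, chk3 f_pm_011 t 11 26 1 = true :=
  ⟨(l 4), by decide +kernel⟩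

def k127_pm_011 : ∃ t, chk3 f_pm_011 t 22 27 1 = true :=
  ⟨(b (l 4) (a (l 4) (b (l 4) (c (a (l 4) (b (l 4) (a (l 4) (b (a (l 4) (l 159148676487)) (a (b (l 161833030519) (l 146800642519)) (b (l 138210717623) (l 16778728))))))) (a (l 4) (b (l 4) (a (l 4) (b (a (l 4) (l 165054254471)) (a (l 171496703623) (l 98482265383)))))))))), by decide +kernel⟩

def k128_pm_011 : ∃ t, chk3 f_pm_011 t 23 54 1 = true :=
  ⟨(a (l 4) (b (a (l 4) (a (l 4) (b (l 4) (c (l 168812359543) (l 175254807767))))) (a (c (b (l 4) (a (b (l 4) (l 167201744167)) (b (l 163980516455) (a (l 152169352855) (l 123715206263))))) (b (l 4) (a (l 176328550487) (b (l 170422964919) (a (l 177402283399) (l 16777440)))))) (c (b (a (b (l 4) (l 156464321655)) (b (a (l 156464321559) (l 141968817319)) (l 88281720455))) (a (b (a (l 157001189799) (l 16778832)) (l 16779744)) (l 16777720))) (b (a (b (l 4) (l 180623510215)) (b (l 158074940743) (l 16778712))) (a (b (a (l 140358202151) (l 16778664)) (l 16777848)) (l 16775232))))))), by decide +kernel⟩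

def k129_pm_011 : ∃ t, chk3 f_pm_011 t 23 55 1 = true :=
  ⟨(a (b (c (a (l 4) (b (a (l 4) (b (l 4) (a (l 4) (l 152706223815)))) (a (b (l 164517387671) (a (l 153243094743) (l 120493980359))) (b (a (l 155390587543) (l 16778808)) (l 16779288))))) (a (l 4) (b (a (l 4) (c (l 183844739623) (l 187065964071))) (a (b (l 171496707239) (a (l 177402283639) (l 106535330711))) (b (a (l 137673846743) (l 16778528)) (l 16777480)))))) (a (c (b (a (b (l 4) (a (l 4) (l 153243094695))) (b (a (l 158611805639) (l 147874394727)) (a (b (l 123178333175) (l 16778592)) (l 16779528)))) (a (b (a (b (l 152169352439) (l 133915749783)) (l 16779032)) (l 16778688)) (l 16776296))) (b (a (b (l 4) (a (l 4) (l 174181058199))) (b (a (l 164517383511) (l 126399560231)) (a (l 103314104311) (l 16778080)))) (a (b (a (l 119420239351) (l 16778400)) (l 16776952)) (l 16774152)))) (b (a (c (b (l 61975040791) (l 16777160)) (l 16784656)) (l 16783616)) (c (l 16779344) (l 16776720))))) (c (b (a (b (a (b (a (l 158074934631) (l 156464318903)) (a (l 125862689207)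 (l 16779856))) (l 16785816)) (l 16785272)) (b (l 16772664) (l 16764320))) (a (a (l 16786088) (l 16780648)) (l 16772296))) (a (b (b (a (b (a (l 163443641415) (l 139284460071)) (a (l 16780048) (l 16778408))) (l 16787744)) (l 16782728)) (l 16762064)) (b (l 16765560) (l 16748000))))), by decide +kernel⟩

def k130_pm_011 : ∃ t, chk3 f_pm_011 t 20 28 1 = true :=
  ⟨(l 4), by decide +kernel⟩

def k131_pm_011 : ∃ t, chk3 f_pm_011 t 21 56 1 = true :=
  ⟨(l 4), by decide +kernel⟩

def k132_pm_011 : ∃ t, chk3 f_pm_011 t 42 57 1 = true :=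
  ⟨(b (l 4) (a (l 4) (b (l 4) (a (b (l 4) (a (l 4) (b (l 4) (c (c (l 157538065991) (l 153243092775)) (a (l 163443640087) (l 117272749703)))))) (b (b (a (l 4) (a (l 4) (c (l 154316835463) (l 160759285127)))) (a (c (l 162369900887) (l 169886092375)) (c (a (b (l 152706222375) (l 138747583591)) (l 94187296855)) (a (l 138747584407) (l 16777792))))) (a (b (c (a (l 152169351447) (b (l 125325811927) (l 16783280))) (a (l 173107315799) (l 100629748087))) (c (l 59827557207) (l 16777536))) (c (l 16777448) (l 16776368)))))))), by decide +kernel⟩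

def k133_pm_011 : ∃ t, chk3 f_pm_011 t 43 57 1 = true :=
  ⟨(b (a (b (l 4) (a (l 4) (b (l 4) (a (l 4) (b (l 4) (c (l 157001196119) (l 179549767767))))))) (b (a (l 4) (b (l 4) (a (b (l 4) (c (l 158611804199) (l 165591124567))) (b (c (l 155390577927) (l 178476025639)) (c (c (l 118346493031) (l 114051525367)) (l 101166619191)))))) (a (b (a (l 4) (c (b (l 163443643287) (a (l 154853706615) (l 134452618407))) (c (l 165054258567) (l 165591123591)))) (a (c (b (a (l 159148674679) (l 146800642023)) (a (l 128547038647) (l 16778640))) (b (l 168812354023) (l 86671103111))) (b (c (a (l 112977782919) (l 16778664)) (l 16783176)) (l 16782512)))) (c (b (a (b (a (l 148948125911) (l 121567716807)) (l 16778720)) (l 16778000)) (l 16775576)) (b (a (b (a (l 172033573703) (l 16777408)) (l 16777800)) (l 16776760)) (l 16774120)))))) (a (b (a (c (b (l 4) (a (b (l 4) (a (l 161833029351) (l 166127994887))) (b (a (l 156464319447) (l 151095614119)) (a (l 110830298503) (l 16778488))))) (b (l 4) (a (c (l 177939156279) (l 178476026599))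 (b (a (l 162906769079) (l 126936424471)) (l 56069464695))))) (b (c (a (b (l 160222417159) (a (l 151095609639) (l 119420233399))) (b (a (l 159148678023) (l 16779384)) (l 16778416))) (a (b (l 167201737623) (a (l 174181057527) (l 105461585655))) (b (c (l 104387845191) (l 99556006183)) (l 16777408)))) (c (a (b (l 16778560) (l 16777280)) (l 16776008)) (a (l 16782224) (l 16774680))))) (c (a (b (a (b (a (l 127473296919) (l 16778520)) (l 16777920)) (l 16776752)) (l 16774048)) (c (l 16771608) (l 16781296))) (a (b (a (b (a (l 107609073671) (l 16777800)) (l 16776880)) (l 16775544)) (l 16783200)) (l 16769784)))) (b (c (a (b (l 16781608) (l 16772432)) (l 16780016)) (a (b (l 16780256) (l 16770904)) (l 16778336))) (c (l 16779408) (l 16768448))))), by decide +kernel⟩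

def k134_pm_011 : ∃ t, chk3 f_pm_011 t 40 58 1 = true :=
  ⟨(l 4), by decide +kernel⟩

def k135_pm_011 : ∃ t, chk3 f_pm_011 t 41 116 1 = true :=
  ⟨(a (l 4) (b (l 4) (a (l 4) (b (l 4) (a (a (l 4) (b (l 4) (c (l 158611803175) (l 165591123991)))) (a (b (l 4) (c (b (l 152169351143) (l 120493972999)) (b (l 158611801031) (l 104924716823)))) (b (c (b (l 4) (l 148411254471)) (l 174181057847)) (c (l 72175589239) (l 16777672))))))))), by decide +kernel⟩

def k136_pm_011 : ∃ t, chk3 f_pm_011 t 82 117 1 = true :=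
  ⟨(b (a (l 4) (b (l 4) (b (l 4) (b (l 4) (a (l 4) (a (l 4) (c (l 157001193991) (l 137673840871)))))))) (a (b (a (l 4) (a (l 4) (b (l 4) (c (l 161296158087) (l 170422962663))))) (a (b (l 4) (c (a (b (l 4) (l 154853705703)) (b (l 165591126263) (l 94724167191))) (a (b (l 4) (l 175791670391)) (b (l 169349219143) (l 87207973239))))) (c (b (a (b (l 4) (l 158611804151)) (b (l 131231391015) (l 16778088))) (c (l 16777832) (l 16777464))) (b (a (b (l 4) (l 139284453367)) (c (l 90429199303) (l 85060489415))) (c (l 16777112) (l 16776784)))))) (a (a (b (b (l 4) (c (b (l 156464318695) (l 122104585527)) (b (l 163443639623) (l 104924717047)))) (c (l 16779624) (l 16781456))) (b (c (b (b (l 4) (l 153243092903)) (c (l 78081168439) (l 75396813191))) (b (l 177402285079) (c (l 16777736) (l 16777504)))) (c (l 16775896) (l 16775032)))) (b (c (b (a (b (l 165054252679) (l 96334779191)) (l 57680073303)) (l 16777056)) (b (a (b (l 167738606295) (l 16780112)) (l 16777448)) (l 16776240))) (c (l 16774136) (l 16778424)))))), by decide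 +kernel⟩

def k137_pm_011 : ∃ t, chk3 f_pm_011 t 83 117 1 = true :=
  ⟨(b (a (b (a (l 4) (b (l 4) (c (a (b (l 4) (l 151095609159)) (b (l 163443639863) (l 16779168))) (a (l 176865412647) (b (l 138210712551) (l 16777592)))))) (a (c (a (b (l 160222416119) (c (l 96334780375) (l 93650425047))) (b (b (l 154853705847) (l 121030844039)) (l 16777896))) (b (a (l 167201736983) (b (l 161296155799) (l 105461587863))) (c (l 66806877415) (l 54458847191)))) (c (b (c (l 54995719015) (l 16779160)) (l 16776384)) (c (b (l 16777496) (l 16775696)) (l 16781512))))) (c (b (a (b (a (b (l 158611802743) (l 134989487527)) (c (l 95797909079) (l 92576683015))) (c (l 16778008) (l 16777592))) (l 16781872)) (c (l 16774144) (l 16773576))) (b (a (b (a (b (l 165591123559) (l 134989486535)) (c (l 89355456903) (l 16777472))) (l 16782248)) (l 16780936)) (b (l 16779096) (l 16782240))))) (c (b (a (b (l 16780840) (l 16778832)) (l 16780224)) (c (l 16778872) (l 16778224))) (a (a (b (l 16780104) (l 16770672)) (l 16770920)) (l 16776928)))), by decide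 +kernel⟩

def k138_pm_011 : ∃ t, chk3 f_pm_011 t 80 118 1 = true :=
  ⟨(b (l 4) (a (b (l 4) (a (l 4) (a (l 4) (b (l 4) (c (c (l 161296156967) (l 160759285623)) (c (l 161833027079) (l 163443639495))))))) (b (a (l 4) (b (l 4) (c (b (c (l 167201737575) (l 170959833511)) (a (l 155927450135) (c (l 92039811335) (l 16778936)))) (a (b (l 4) (l 175791670471)) (b (l 166664867287) (l 68417493063)))))) (b (a (a (l 4) (c (b (l 158611802391) (a (l 160759284951) (l 101166616151))) (b (l 166127994391) (a (l 137136968999) (l 16778680))))) (a (c (c (b (l 103850971895) (l 16777856)) (l 67880620103)) (c (l 65733135527) (l 64659392791))) (c (l 16777184) (l 16776544)))) (c (a (a (b (a (l 152169350615) (l 116199004295)) (l 16779192)) (l 16780072)) (l 16775848)) (a (a (b (a (l 173644186359) (l 103314100423)) (l 16777408)) (l 16776872)) (l 16775136))))))), by decide +kernel⟩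

def k139_pm_011 : ∃ t, chk3 f_pm_011 t 81 118 1 = true :=
  ⟨(b (a (b (l 4) (a (l 4) (a (b (l 4) (c (b (l 158611802423) (a (l 124788939335) (l 110293424487))) (c (l 145726899127) (l 146800640599)))) (b (a (l 4) (c (l 157538060599) (l 176865412599))) (c (c (l 73786201047) (l 71101846023)) (c (l 67880619783) (l 67343747783))))))) (b (a (a (l 4) (b (l 4) (b (l 4) (c (a (l 155390576471) (l 133915744311)) (l 154853709559))))) (a (b (c (l 161833029095) (l 170959833719)) (c (b (a (l 151632479799) (l 127473293239)) (l 16778032)) (b (l 114051522295) (l 16777536)))) (c (b (b (l 157538060583) (l 122104584999)) (l 16777720)) (b (b (l 165054252471) (l 101703491831)) (l 16777072))))) (c (a (b (b (a (a (l 159148673175) (l 125325810263)) (l 79154910695)) (c (l 60901298823) (l 59290685511))) (l 16776816)) (c (l 16775752) (l 16775312))) (a (b (a (b (l 169886090119) (l 83986747335)) (l 29762788183)) (l 16776096)) (c (l 16774912) (l 16774536)))))) (a (a (b (b (b (c (c (l 154853708567) (l 155927447303)) (c (l 157001188727)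 (l 158074930199))) (a (c (a (l 156464318279) (l 132305131527)) (a (l 163443639351) (l 130694518039))) (c (l 16780584) (l 16777488)))) (c (c (l 40500201783) (l 16778544)) (c (l 16776920) (l 16776632)))) (c (l 16779776) (c (l 16773936) (l 16773576)))) (b (c (c (l 16776384) (l 16775992)) (c (l 16775624) (l 16775280))) (c (l 16777424) (l 16776544)))) (b (c (c (l 16778176) (l 16777688)) (a (l 16778264) (l 16775792))) (c (l 16773848) (l 16767584))))), by decide +kernel⟩

def k140_pm_011 : ∃ t, chk3 f_pm_011 t 40 119 1 = true :=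
  ⟨(a (b (a (b (a (a (b (l 4) (c (b (l 158611804903) (a (l 155390578343) (l 88281715591))) (b (l 177402286119) (a (l 121030842567) (l 16780064))))) (b (a (l 4) (b (l 4) (c (l 152169350567) (l 172033573591)))) (c (c (b (l 96334778887) (l 16777704)) (l 62511910343)) (c (l 61975038487) (l 60901295911))))) (b (c (a (b (a (l 161296156711) (l 158611801255)) (c (l 85060489255) (l 82376134263))) (c (l 16779152) (l 16777552))) (b (a (a (l 167201736023) (l 137673839559)) (l 48553268951)) (c (l 51774490663) (l 16779744)))) (c (l 16779080) (l 16778448)))) (c (a (c (l 16778592) (l 16778248)) (l 16778736)) (a (b (l 16780088) (l 16779360)) (l 16777976)))) (b (a (c (c (l 16775376) (l 16774984)) (c (l 16774632) (l 16774304))) (c (l 16778088) (l 16777272))) (c (l 16777832) (l 16770056)))) (a (b (c (c (l 16776096) (l 16775640)) (a (l 16776240) (l 16773800))) (c (l 16771808) (l 16766256))) (c (c (l 16774656) (l 16774072)) (l 16768040)))) (a (c (b (b (l 16774536) (l 16775704)) (l 16769592)) (b (b (l 16768992) (l 16764144))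 (l 16768352))) (c (b (l 16772952) (l 16764784)) (b (l 16766520) (l 16763384))))), by decide +kernel⟩

def k141_pm_011 : ∃ t, chk3 f_pm_011 t 41 59 1 = true :=
  ⟨(b (a (a (a (b (c (b (a (b (c (l 77007426503) (l 73786200679)) (l 16776728)) (l 16776560)) (l 16773176)) (b (b (c (l 56606328487) (l 30836528535)) (l 16775368)) (l 16777504))) (c (l 16777528) (l 16776432))) (b (c (b (l 16780088) (l 16770784)) (b (l 16779208) (l 16780256))) (c (l 16775104) (l 16763440)))) (b (c (c (l 16779992) (l 16779400)) (c (l 16778856) (l 16775736))) (c (l 16771440) (l 16770144)))) (c (a (b (l 16774792) (l 16766520)) (b (l 16769832) (l 16761536))) (b (a (l 16773536) (l 16768416)) (l 16762512)))) (a (c (b (c (l 16768688) (l 16765288)) (l 16761432)) (b (l 16761624) (l 16755864))) (b (c (l 16761040) (l 16754080)) (c (l 16747616) (l 16745696))))), by decide +kernel⟩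

def k142_pm_011 : ∃ t, chk3 f_pm_011 t 42 58 1 = true :=
  ⟨(b (a (b (a (l 4) (b (a (l 4) (a (l 4) (b (l 4) (c (l 154853706295) (l 176865412519))))) (a (b (c (a (l 4) (l 159148674327)) (l 170422963335)) (c (a (b (l 160759286647) (l 126399553495)) (c (l 111367164423) (l 105461585335))) (a (l 167201735735) (l 97408521351)))) (c (b (a (b (l 153243093191) (l 133378874679)) (l 83986750375)) (l 16777880)) (b (a (l 145726903943) (l 16777760)) (l 16776976)))))) (a (b (a (b (l 4) (c (c (l 164517383063) (l 165591124263)) (a (l 168275479015) (l 152169355095)))) (c (b (a (l 157001190215) (b (l 148948125495) (l 116735876679))) (c (l 66270008967) (l 63585653687))) (b (a (l 163980510951) (l 117809616791)) (c (l 16777752) (l 16777424))))) (c (a (a (b (a (l 130694521159) (l 100629746583)) (l 16777688)) (l 16780160)) (l 16775904)) (a (b (c (l 78081167463) (l 77544295399)) (l 16776280)) (l 16774880)))) (c (b (a (b (c (l 16780960) (l 16777912)) (l 16776496)) (l 16775152)) (l 16777528)) (b (a (c (l 16781920) (l 16781472))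 (l 16774040)) (l 16778952))))) (c (b (b (a (a (b (c (l 167201737831) (l 169886091703)) (a (b (l 128547037063) (l 16777888)) (l 16778392))) (b (a (l 96871651287) (l 16778280)) (l 16777272))) (l 16780072)) (a (c (l 16775896) (l 16775280)) (l 16770728))) (a (c (l 16780272) (l 16779552)) (l 16774904))) (a (b (c (b (a (b (l 171496703847) (l 84523619671)) (l 27078433767)) (l 16774712)) (b (a (b (l 169349219671) (l 80765521927)) (l 16782144)) (l 16774176))) (l 16778568)) (b (b (l 16780144) (l 16779848)) (l 16762904))))) (c (a (a (b (b (l 16778328) (l 16779424)) (l 16773160)) (b (l 16776504) (l 16768104))) (b (a (l 16771440) (l 16766384)) (c (l 16760920) (l 16759976)))) (a (b (a (b (l 16777200) (l 16778192)) (l 16775152)) (l 16769184)) (b (b (l 16769496) (l 16765168)) (l 16758704))))), by decide +kernel⟩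

def k143_pm_011 : ∃ t, chk3 f_pm_011 t 43 58 1 = true :=
  ⟨(c (b (a (b (a (l 16778328) (l 16773304)) (l 16767344)) (c (l 16767248) (l 16768776))) (a (b (l 16769296) (l 16760728)) (l 16754864))) (b (a (b (c (l 16774600) (l 16773856)) (l 16760336)) (b (l 16758512) (l 16765592))) (a (l 16752568) (l 16752592)))), by decide +kernel⟩

def k144_pm_011 : ∃ t, chk3 f_pm_011 t 21 59 1 = true :=
  ⟨(a (b (c (a (a (b (l 16764816) (l 16767000)) (l 16760824)) (a (l 16755688) (l 16750496))) (a (b (l 16760656) (l 16752176)) (l 16745888))) (c (a (a (l 16749408) (l 16744312)) (l 16741808)) (a (l 16739552) (l 16739512)))) (b (b (a (c (l 16752176) (l 16750032)) (l 16740720)) (a (l 16742512) (l 16732072))) (a (c (l 16731264) (l 16728784)) (c (l 16720672) (l 16718008))))), by decide +kernel⟩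

def k145_pm_011 : ∃ t, chk3 f_pm_011 t 44 56 1 = true :=
  ⟨(b (a (l 4) (l 4)) (a (b (l 4) (a (a (l 4) (b (l 4) (c (l 162369902743) (l 172033577543)))) (c (b (a (l 4) (b (l 4) (l 153243093991))) (a (b (l 157001191143) (a (l 146263771207) (l 16783264))) (b (c (l 118883363815) (l 110293423351)) (l 16778760)))) (b (a (l 4) (b (l 4) (l 176865412503))) (a (b (l 163443640487) (l 114588392759)) (b (l 97408523463) (l 16777608))))))) (b (c (a (b (l 4) (a (l 165054257735) (b (l 158074933383) (l 141431940647)))) (b (a (b (l 4) (l 154316836183)) (b (l 150021868167) (l 110830301127))) (a (b (l 123715203175) (l 16779016)) (l 16778344)))) (a (b (l 4) (a (l 172570448791) (b (l 163980511703) (l 128010167943)))) (b (a (b (l 4) (l 160222414503)) (b (l 170959832039) (l 16777648))) (a (b (l 110293425159) (l 16777920)) (l 16776888))))) (c (a (b (a (b (a (l 154316835911) (l 122641459303)) (l 93650427223)) (l 16778832)) (l 16776864)) (l 16779392)) (a (b (a (b (l 158611800855) (l 16778024)) (l 16777624)) (l 16775288)) (b (l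 16774344) (l 16770256))))))), by decide +kernel⟩

def k146_pm_011 : ∃ t, chk3 f_pm_011 t 45 56 1 = true :=
  ⟨(b (a (a (c (b (l 4) (b (a (l 4) (l 158611805207)) (a (b (l 158611804615) (l 154853711063)) (b (l 132305137399) (l 16779136))))) (b (l 4) (b (a (l 4) (l 165054254295)) (a (b (l 167738608327) (l 141968812439)) (b (l 122104583559) (l 16778136)))))) (b (a (l 4) (b (l 4) (c (b (l 161296159431) (l 140358191399)) (l 167201741479)))) (c (b (a (b (l 151095610263) (l 119957107143)) (l 16779232)) (l 16777896)) (b (a (b (l 176328541335) (l 16777480)) (l 16778144)) (l 16776232))))) (c (b (a (b (a (l 159148676343) (b (l 151632481383) (l 127473299271))) (a (b (l 136063233847) (l 16779000)) (l 16779056))) (b (a (l 16779296) (l 16778512)) (l 16776280))) (a (l 16775320) (l 16770408))) (b (a (b (a (l 165054254423) (b (l 156464317687) (l 16777400))) (a (l 93650426071) (l 16777592))) (b (l 16782976) (l 16774288))) (b (l 16783304) (l 16779160))))) (a (b (a (b (c (a (l 16779080) (l 16777664)) (l 16782328)) (l 16783432))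 (c (l 16772328) (l 16780760))) (c (l 16777120) (l 16774936))) (b (c (l 16785640) (l 16783248)) (l 16775856)))), by decide +kernel⟩

def k147_pm_011 : ∃ t, chk3 f_pm_011 t 22 57 1 = true :=
  ⟨(a (b (a (b (a (b (a (b (l 4) (c (a (l 157001190791) (l 123715201239)) (l 165054257367))) (c (b (a (l 152169351847) (l 135526359991)) (l 16781320)) (b (l 147337519335) (l 16778016)))) (a (b (c (c (l 100629747911) (l 16780608)) (l 85060491127)) (l 16783016)) (l 16784472))) (c (c (l 16781520) (l 16780680)) (b (l 16781432) (l 16772232)))) (a (b (a (l 16780400) (l 16783200)) (l 16780328)) (a (l 16778592) (l 16776008)))) (a (b (b (l 16782608) (l 16778456)) (l 16772112)) (b (l 16775376) (l 16766864)))) (b (c (a (l 16772432) (l 16772624)) (a (l 16775704) (l 16749344))) (a (c (l 16774448) (l 16761840)) (l 16762848)))) (b (c (a (b (l 16779184) (l 16770696)) (l 16764384)) (a (l 16763336) (l 16761624))) (a (c (l 16757920) (l 16755232)) (c (l 16747304) (l 16744320))))), by decide +kernel⟩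

def k148_pm_011 : ∃ t, chk3 f_pm_011 t 23 28 1 = true :=
  ⟨(a (a (b (b (b (c (l 16781432) (l 16779040)) (l 16776984)) (c (l 16770776) (l 16767952))) (b (c (l 16753632) (l 16750576)) (l 16729576))) (b (b (c (l 16777112) (l 16774208)) (c (l 16759888) (l 16756752))) (b (l 16740944) (l 16723696)))) (b (b (a (l 16764432) (l 16752984)) (a (l 16746984) (l 16735464))) (b (a (l 16729624) (l 16718072)) (c (l 16698144) (l 16704800))))), by decide +kernel⟩

def k149_pm_011 : ∃ t, chk3 f_pm_011 t 11 29 1 = true :=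
  ⟨(a (b (a (b (a (b (l 16762152) (l 16756184)) (c (l 16751344) (l 16748720))) (a (c (l 16744624) (l 16742072)) (l 16732800))) (b (a (c (l 16740872) (l 16737960)) (l 16728584)) (c (l 16718552) (l 16715320)))) (a (b (c (l 16717128) (l 16719488)) (c (l 16705224) (l 16702480))) (b (c (l 16701528) (l 16698144)) (l 16693144)))) (b (a (b (c (l 16713992) (l 16710440)) (c (l 16697000) (l 16693304))) (b (l 16690808) (l 16682976))) (a (b (l 16688544) (l 16661352)) (a (l 16663992) (l 16654208))))), by decide +kernel⟩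

def k150_pm_011 : ∃ t, chk3 f_pm_011 t 10 30 1 = true :=
  ⟨(a (b (a (a (a (b (c (b (b (l 16773000) (l 16768952)) (l 16762904)) (b (l 16764592) (l 16761520))) (b (a (l 16757840) (l 16752816)) (l 16744584))) (b (c (b (l 16766248) (l 16758176)) (b (l 16764936) (l 16746144))) (b (c (l 16750144) (l 16737872)) (l 16746336)))) (b (b (c (a (l 16761480) (l 16756664)) (l 16757528)) (c (l 16756248) (l 16743984))) (c (b (l 16742976) (l 16745488)) (l 16735552)))) (b (c (a (b (l 16754616) (l 16730808)) (l 16736752)) (a (l 16743376) (l 16733224))) (b (a (l 16742552) (l 16732536)) (a (l 16734464) (l 16724456))))) (a (b (a (c (b (l 16736592) (l 16739176)) (l 16727688)) (b (l 16736248) (l 16728232))) (a (b (l 16729896) (l 16721944)) (b (l 16720272) (l 16712480)))) (b (c (b (l 16725584) (l 16715104)) (l 16710832)) (b (a (l 16710496) (l 16700664)) (a (l 16702856) (l 16693304)))))) (b (c (a (b (a (l 16735832) (l 16725520)) (a (l 16719800) (l 16709496))) (b (l 16704360) (l 16693584))) (b (a (a (l 16733392) (l 16722880))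 (l 16706736)) (a (l 16711760) (l 16690768)))) (a (a (b (l 16702288) (c (l 16689152) (l 16685568))) (b (l 16692032) (c (l 16658512) (l 16654856)))) (a (b (l 16692112) (l 16668064)) (b (l 16671008) (l 16658312)))))), by decide +kernel⟩

def k151_pm_011 : ∃ t, chk3 f_pm_011 t 10 31 1 = true :=
  ⟨(b (a (b (a (a (b (c (l 16715968) (l 16691784)) (l 16707392)) (b (l 16705080) (l 16698512))) (a (c (l 16673776) (l 16691088)) (l 16689008))) (a (c (a (l 16678160) (l 16669520)) (a (l 16674456) (l 16665664))) (c (a (l 16660792) (l 16651984)) (a (l 16656816) (l 16647912))))) (a (b (a (l 16674592) (l 16665328)) (b (l 16671072) (l 16664800))) (a (b (l 16655944) (l 16643784)) (b (l 16646432) (l 16634528))))) (a (a (b (a (b (l 16666072) (l 16680440)) (b (l 16657520) (l 16672096))) (b (l 16671200) (c (l 16648856) (l 16642296)))) (b (c (b (l 16646720) (l 16661936)) (b (l 16642448) (l 16657240))) (a (l 16657480) (l 16649896)))) (a (b (a (b (l 16631472) (l 16626104)) (b (l 16622648) (l 16617888))) (c (l 16631600) (l 16614008)))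 (b (b (a (l 16613856) (l 16604928)) (l 16605680)) (c (l 16606264) (l 16598696)))))), by decide +kernel⟩

def k152_pm_011 : ∃ t, chk3 f_pm_011 t 11 15 1 = true :=
  ⟨(b (b (a (a (b (a (l 16692016) (l 16682184)) (a (l 16676728) (l 16667672))) (b (l 16677616) (b (l 16656632) (l 16654408)))) (a (b (l 16647352) (c (l 16641888) (l 16632384))) (b (l 16637696) (l 16621416)))) (a (a (b (c (l 16656920) (l 16656104)) (c (l 16645312) (l 16620720))) (a (b (l 16641392) (l 16628144)) (b (l 16630736) (l 16618480)))) (a (b (l 16618448) (c (l 16608744) (l 16583816))) (b (l 16602720) (l 16603184))))) (a (b (a (a (b (l 16636784) (l 16625136)) (b (l 16606016) (l 16615600))) (b (c (l 16592760) (l 16589328)) (a (l 16605912) (l 16596048)))) (a (b (b (a (l 16595880) (l 16586752)) (l 16589320)) (a (l 16591208) (l 16583680))) (b (b (a (l 16577560) (l 16568368)) (l 16572768)) (a (l 16576144) (l 16568592))))) (b (b (a (a (l 16602816) (l 16590264)) (l 16591672)) (a (a (l 16586008) (b (l 16579944) (l 16573728))) (b (l 16571528) (l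 16575648)))) (a (b (b (a (l 16559216) (l 16550176)) (l 16556024)) (a (l 16561024) (l 16553424))) (a (b (l 16580440) (c (l 16550032) (l 16541456))) (b (l 16539152) (c (b (l 16542840) (l 16544304)) (l 16534960)))))))), by decide +kernel⟩

def k153_pm_011 : ∃ t, chk3 f_pm_011 t 3 2 1 = true :=
  ⟨(b (l 1) (a (l 4) (l 1))), by decide +kernel⟩

def k154_pm_011 : ∃ t, chk3 f_pm_011 t 6 12 1 = true :=
  ⟨(a (b (l 4) (a (l 4) (b (l 4) (a (l 4) (b (l 4) (a (b (l 4) (a (l 4) (l 174181067719))) (c (b (l 171496714071) (a (l 155927450903) (l 16778464))) (b (l 202098352071) (a (l 175791671079) (l 16777784)))))))))) (b (l 1) (a (b (l 1) (a (b (l 1) (a (a (l 145525617351) (l 1)) (l 1))) (l 1))) (l 1)))), by decide +kernel⟩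

def k155_pm_011 : ∃ t, chk3 f_pm_011 t 12 26 1 = true :=
  ⟨(a (b (l 4) (a (b (l 4) (a (l 4) (c (b (l 4) (a (l 168275487655) (b (l 157538064183) (l 134989497623)))) (b (l 4) (a (l 174717935655) (b (l 161833028615) (l 123178330311))))))) (b (a (a (l 4) (b (l 4) (c (l 167201744599) (l 173107321479)))) (b (a (l 4) (b (l 168275493303) (a (l 155927448679) (l 112440929319)))) (c (a (b (l 154853708711) (l 128010176055)) (l 16780848)) (a (b (l 182234122215) (l 16777360)) (l 16779216))))) (c (a (b (a (b (l 167201744023) (l 152706224135)) (b (l 144116304919) (l 16779568))) (a (b (l 102240378263) (l 16780416)) (l 16778552))) (l 16785648)) (a (b (a (l 177939161687) (b (l 132842015191) (l 16779160))) (a (l 16789568) (l 16775640))) (l 16787448)))))) (b (a (c (b (a (l 4) (b (l 4) (a (l 4) (l 158611807031)))) (a (b (l 172570460279) (a (l 160759292231) (b (l 152169353175) (l 16778440)))) (b (a (l 168812351751) (l 16779000)) (l 16780600)))) (b (a (l 4) (a (l 4) (l 197803396055))) (a (b (l 182234133127) (a (l 187602834487)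 (l 107072225271))) (b (a (l 161296155799) (l 16779160)) (l 16777704))))) (c (b (a (b (a (l 168275486487) (l 160222416135)) (a (l 125325817959) (l 16781568))) (l 16792864)) (l 16766960)) (b (a (b (a (l 173107320983) (l 122104607751)) (a (l 97945406759) (l 16779224))) (l 16797112)) (l 16765080)))) (a (a (b (a (b (c (l 90966085207) (l 71101866375)) (l 16777168)) (l 16786472)) (l 16782832)) (b (l 16763736) (l 16749272))) (b (b (l 16774280) (l 16764680)) (l 16750200))))), by decide +kernel⟩

def k156_pm_011 : ∃ t, chk3 f_pm_011 t 12 27 1 = true :=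
  ⟨(a (b (a (b (c (a (b (a (l 4) (b (l 4) (l 154853708423))) (a (b (l 159148677687) (l 139821333655)) (b (a (l 143042558759) (l 16779032)) (l 16780104)))) (b (a (b (l 159148684647) (l 16779104)) (l 16780056)) (l 16775984))) (a (b (a (l 4) (b (l 4) (l 176328542247))) (a (b (l 168812351431) (l 110830312855)) (b (l 88818594359) (l 16778096)))) (b (a (b (l 151632478855) (l 16778920)) (l 16777760)) (l 16772984)))) (a (b (c (a (l 16779704) (l 16775744)) (l 16785880)) (l 16784496)) (c (l 16784568) (l 16760088)))) (b (a (b (l 16792944) (l 16784368)) (l 16776896)) (a (l 16770920) (l 16758592)))) (b (a (c (l 16772720) (l 16779608)) (l 16757080)) (a (a (l 16758968) (l 16747032)) (l 16738984)))) (b (a (c (l 16771888) (l 16767408)) (c (l 16744880) (l 16740104))) (a (c (l 16734880) (l 16730424)) (c (l 16707304) (l 16704440))))), by decide +kernel⟩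

def k157_pm_011 : ∃ t, chk3 f_pm_011 t 13 13 1 = true :=
  ⟨(a (a (b (b (b (l 16770400) (l 16764448)) (b (l 16746408) (l 16726272))) (b (l 16720864) (b (l 16669808) (l 16656288)))) (b (b (l 16768344) (l 16723792)) (b (l 16681240) (l 16650248)))) (b (b (l 1) (a (l 16693616) (l 1))) (b (a (l 16656048) (b (l 1) (l 16638592))) (a (b (l 16638192) (l 16622528)) (c (l 16631936) (l 16613272)))))), by decide +kernel⟩

def k158_pm_011 : ∃ t, chk3 f_pm_011 t 7 6 1 = true :=
  ⟨(b (l 1) (a (b (l 1) (a (b (l 1) (a (c (l 16634696) (l 16578648)) (l 1))) (l 1))) (l 1))), by decide +kernel⟩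

def k159_pm_011 : ∃ t, chk3 f_pm_011 t 6 14 1 = true :=
  ⟨(b (a (a (b (b (a (a (l 16741256) (l 16729232)) (l 16721072)) (a (a (l 16723680) (l 16711600)) (l 16692888))) (a (b (l 16715976) (l 16693464)) (c (l 16679512) (l 16677152)))) (b (a (c (l 16688312) (l 16685688)) (c (l 16664112) (l 16655472))) (a (c (l 16655656) (l 16647048)) (c (l 16626928) (l 16628288))))) (a (b (a (c (l 16635576) (l 16636784)) (b (l 16625808) (l 16613224))) (a (b (l 16616872) (l 16604160)) (c (l 16594712) (l 16594376)))) (b (a (b (l 16610320) (l 16598304)) (b (l 16596584) (l 16585144))) (a (c (l 16581240) (l 16579688)) (c (b (l 16554192) (l 16543384)) (l 16566664)))))) (a (b (a (a (c (l 16664904) (l 16668472)) (c (l 16647168) (l 16638504))) (a (c (l 16618384) (l 16619800)) (c (l 16595952) (l 16602000)))) (a (a (c (l 16638864) (l 16630032)) (b (l 16617520) (l 16608656))) (b (a (l 16599720) (a (l 16566088) (l 16578096))) (a (b (l 16589296) (l 16590496)) (a (l 16579528) (l 16557152)))))) (a (b (a (b (l 16591680) (l 16579440)) (b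 (l 16576720) (c (l 16564688) (l 16563512)))) (b (b (a (l 16580144) (a (l 16557712) (l 16548088))) (a (a (l 16566024) (l 16555496)) (l 16548736))) (a (l 16559968) (c (l 16515000) (l 16536808))))) (b (a (b (l 16563480) (b (a (l 16537176) (l 16530704)) (a (l 16550672) (l 16542000)))) (b (a (l 16533776) (l 16549080)) (b (a (l 16544968) (l 16537280)) (c (l 16527752) (l 16503888))))) (a (b (b (l 16542112) (l 16526600)) (c (l 16492304) (l 16513904))) (b (a (l 16528832) (l 16507920)) (c (b (l 16478752) (l 16465600)) (l 16491808)))))))), by decide +kernel⟩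

def k160_pm_011 : ∃ t, chk3 f_pm_011 t 12 15 1 = true :=
  ⟨(b (a (a (b (b (c (l 16616528) (l 16607528)) (l 16594576)) (b (l 16587624) (l 16579320))) (b (b (c (l 16584408) (l 16606432)) (l 16578264)) (c (l 16583824) (l 16577080)))) (b (a (a (l 16573056) (l 16569880)) (b (l 16546904) (l 16546176))) (a (c (l 16570752) (l 16552672)) (c (l 16568248) (l 16538888))))) (b (a (b (a (l 16580120) (l 16558576)) (b (c (l 16570272) (l 16553328)) (a (l 16566888) (c (l 16530944) (l 16523480))))) (b (a (l 16547848) (l 16537288)) (a (b (l 16521824) (l 16540968)) (b (l 16534304) (l 16514048))))) (a (b (a (c (l 16538352) (l 16530792)) (c (l 16533848) (l 16524152))) (a (c (a (l 16540760) (l 16539304)) (l 16529584)) (c (a (l 16537992) (l 16557800)) (l 16524656)))) (b (a (c (l 16529728) (l 16518000)) (c (l 16546848) (l 16512248))) (a (b (c (l 16533960) (l 16519808)) (c (a (l 16536920) (l 16536264)) (l 16520840))) (c (b (l 16552744) (a (l 16556696) (c (l 16539776) (l 16530744)))) (a (l 16517528) (l 16515784)))))))), by decide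 +kernel⟩

def k161_pm_011 : ∃ t, chk3 f_pm_011 t 13 30 1 = true :=
  ⟨(a (b (a (b (l 16528904) (l 16529896)) (b (c (l 16513240) (l 16506816)) (l 16512800))) (a (c (l 16544520) (l 16524952)) (b (l 16514560) (l 16515360)))) (b (a (b (c (l 16503688) (l 16486632)) (c (l 16508992) (l 16490448))) (a (b (l 16473768) (l 16479768)) (b (l 16462672) (l 16469456)))) (a (b (a (l 16481416) (l 16493776)) (l 16521920)) (b (c (a (l 16468736) (l 16459432)) (l 16496336)) (c (a (l 16473648) (l 16465408)) (a (l 16462600) (l 16454216))))))), by decide +kernel⟩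

def k162_pm_011 : ∃ t, chk3 f_pm_011 t 13 31 1 = true :=
  ⟨(a (b (b (a (c (l 16510760) (l 16500376)) (c (l 16499808) (l 16488584))) (a (b (c (l 16509808) (l 16498696)) (l 16507624)) (b (c (l 16500784) (l 16488576)) (l 16500752)))) (b (a (c (b (l 16519368) (l 16524648)) (l 16506672)) (c (a (l 16518968) (l 16516728)) (l 16500848))) (c (a (b (c (l 16534176) (l 16525288)) (c (a (l 16539632) (b (l 16538032) (l 16540840))) (a (l 16530096) (l 16529424)))) (a (b (l 16528080) (c (b (l 16537616) (l 16540752)) (l 16528712))) (b (l 16526840) (c (a (l 16538952) (l 16549240)) (l 16527912))))) (a (b (l 16511648) (a (l 16515480) (l 16514080))) (b (l 16507608) (a (l 16512664) (c (l 16516808) (l 16505536)))))))) (b (a (b (c (l 16488240) (l 16476272)) (b (a (l 16487472) (l 16482864)) (l 16514112))) (b (b (c (l 16504480) (l 16460912)) (c (l 16476576) (l 16463648))) (c (l 16508824) (l 16472328)))) (b (a (c (a (l 16514304) (l 16511664)) (l 16515488)) (a (c (l 16508776) (l 16489272)) (c (l 16526568) (l 16485472)))) (a (a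 (c (b (l 16525464) (b (l 16551880) (c (c (l 16543168) (l 16537400)) (l 16528672)))) (b (l 16504352) (c (l 16515472) (l 16503768)))) (c (b (l 16523904) (b (l 16545616) (c (a (l 16539968) (l 16539696)) (l 16527792)))) (b (l 16502008) (c (l 16514008) (l 16501888))))) (c (b (a (l 16543096) (l 16541072)) (a (a (c (b (l 16534896) (l 16539376)) (l 16525056)) (c (b (l 16534328) (l 16549488)) (l 16534880))) (c (b (l 16533360) (b (l 16537096) (a (l 16539784) (l 16539336)))) (b (l 16521048) (c (l 16528720) (l 16522256)))))) (b (a (l 16499496) (l 16496760)) (c (b (l 16520112) (a (l 16514136) (l 16512496))) (a (l 16499864) (l 16497664))))))))), by decide +kernel⟩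

def k163_pm_011 : ∃ t, chk3 f_pm_011 t 14 28 1 = true :=
  ⟨(a (b (a (c (b (l 16600080) (l 16573928)) (l 16577160)) (c (b (l 1) (l 16581912)) (l 30097911271))) (a (c (b (l 16545056) (l 16534120)) (b (l 16539840) (l 16529144))) (c (b (l 16575816) (a (l 16528512) (l 16528176))) (b (l 16530088) (l 16519984))))) (b (l 1) (a (a (a (b (l 1) (b (l 1) (l 20434264743))) (l 1)) (l 1)) (l 1)))), by decide +kernel⟩

def k164_pm_011 : ∃ t, chk3 f_pm_011 t 14 29 1 = true :=
  ⟨(a (b (b (a (b (c (l 16526328) (l 16520992)) (a (c (l 16522016) (l 16517032)) (c (l 16515648) (l 16510000)))) (b (c (a (l 16519928) (b (l 16518080) (l 16510976))) (a (l 16513224) (l 16507120))) (c (a (l 16506944) (l 16498184)) (l 16517320)))) (a (c (a (l 16500280) (l 16511768)) (l 16533504)) (c (a (l 16502488) (b (l 16486840) (l 16477128))) (a (l 16477072) (l 16467648))))) (a (b (a (c (l 16488024) (l 16486168)) (c (l 16478144) (l 16476008))) (c (a (l 16454720) (l 16465416)) (l 16465144))) (b (c (a (l 16470344) (c (l 16489768) (l 16458432)))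 (a (l 16466032) (l 16456256))) (c (a (c (l 16456488) (l 16434328)) (c (l 16491912) (l 16434832))) (a (l 16433824) (l 16423704)))))) (b (b (a (c (a (b (l 16517624) (l 16508744)) (l 8086266967)) (a (l 16489328) (l 16477120))) (l 1)) (a (c (a (l 16537256) (c (l 16535792) (l 16483768))) (a (l 16456480) (l 16464640))) (a (a (b (l 1) (l 16527192)) (l 1)) (l 1)))) (a (b (c (a (b (l 16481760) (l 16472648)) (b (l 16497432) (l 16489112))) (a (l 16444496) (l 16430864))) (a (c (b (l 16463456) (l 16454176)) (l 16411344)) (c (b (l 16480720) (l 16472272)) (l 16417856)))) (b (c (a (b (l 16512952) (l 16505368)) (c (l 16551376) (l 16498256))) (a (l 16421920) (l 16438632))) (a (c (b (l 16497752) (l 16490080)) (l 16423880)) (c (b (l 16514528) (l 16507600)) (b (l 16404672) (l 16396008)))))))), by decide +kernel⟩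

def k165_pm_011 : ∃ t, chk3 f_pm_011 t 15 14 1 = true :=
  ⟨(b (l 1) (a (b (l 1) (a (a (a (b (l 1) (c (l 16565712) (l 16413992))) (l 1)) (l 1)) (l 1))) (l 1))), by decide +kernel⟩

def k166_pm_011 : ∃ t, chk3 f_pm_011 t 28 30 1 = true :=
  ⟨(b (a (b (c (b (l 16446296) (l 16451024)) (l 16442160)) (c (a (l 16442080) (l 16431232)) (l 16449440))) (c (a (b (b (l 16411464) (l 16412360)) (l 16441032)) (b (a (l 16439040) (l 16405072)) (c (l 16421288) (l 16406528)))) (b (l 16430936) (a (l 16411920) (l 16400448))))) (a (b (c (a (l 16449664) (l 16439704)) (l 16455872)) (c (a (l 16456680) (l 16447456)) (a (l 16445408) (l 16436152)))) (b (c (a (l 16450440) (c (l 16421352) (l 16416512))) (a (l 16419704) (l 16409168))) (c (a (l 16459064) (c (l 16431256) (l 16425672))) (a (l 16426768) (l 16417120)))))), by decide +kernel⟩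

def k167_pm_011 : ∃ t, chk3 f_pm_011 t 29 30 1 = true :=
  ⟨(b (a (c (b (a (b (l 16444792) (l 16456280)) (b (l 16484712) (l 16497072))) (a (b (l 16404744) (l 16405520)) (c (b (l 16476128) (l 16467824)) (l 16391040)))) (b (c (l 16402760) (l 16396904)) (a (l 16391760) (l 16385624)))) (b (c (a (b (l 16524296) (c (l 16503400) (l 16445624))) (b (l 16542576) (c (l 16522080) (l 16465064)))) (c (a (l 16391928) (l 16411712)) (l 16383632))) (c (a (b (c (l 16496000) (l 16437320)) (c (l 16488528) (l 16428968))) (b (c (l 16515448) (l 16457592)) (c (l 16508760) (l 16450088)))) (a (l 16390440) (l 16385288))))) (a (b (b (c (a (l 16408552) (c (l 16459416) (l 16400904))) (l 16417160)) (c (a (l 16413952) (c (l 16471888) (l 16406520))) (l 16421928))) (c (a (a (l 16422832) (l 16431096)) (c (b (l 16421360) (l 16412680)) (l 16414552))) (a (l 16410128) (l 16405576)))) (c (c (b (a (b (l 16501952) (a (l 16467824) (l 16478904))) (b (a (l 16496824) (l 16507208)) (a (l 16489832) (l 16500616)))) (a (b (a (l 16459920) (l 16471432))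 (a (l 16451944) (l 16463912))) (b (a (l 16482784) (l 16493984)) (a (l 16475696) (l 16487312))))) (b (a (l 16405840) (b (l 16442536) (l 16434960))) (a (l 16421288) (b (l 16406376) (l 16419712))))) (b (a (l 16391192) (l 16407864)) (a (l 16401528) (c (l 16401280) (l 16394768))))))), by decide +kernel⟩

def k168_pm_011 : ∃ t, chk3 f_pm_011 t 28 62 1 = true :=
  ⟨(b (a (b (c (a (l 16461424) (l 16452904)) (l 16465792)) (c (a (b (l 16463696) (l 16466192)) (b (l 16455680) (l 16459168))) (a (l 16473360) (l 16465472)))) (b (c (a (l 16444176) (l 16435200)) (l 16427056)) (c (a (b (l 16447504) (l 16452328)) (b (l 16439128) (l 16445144))) (a (l 16436200) (l 16428120))))) (a (c (a (b (l 16474584) (l 16485808)) (c (l 16478712) (l 16470544))) (a (l 16463944) (l 16457984))) (c (a (c (l 16493784) (l 16464456)) (c (l 16487408) (l 16457928))) (a (l 16451640) (l 16444888))))), by decide +kernel⟩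

def k169_pm_011 : ∃ t, chk3 f_pm_011 t 28 63 1 = true :=
  ⟨(a (b (a (c (c (l 16507168) (l 16496968)) (l 16481368)) (c (b (l 16492296) (l 16503856)) (b (l 16472192) (l 16481472)))) (c (b (a (c (l 16523696) (l 16511848)) (c (l 16521208) (l 16509032))) (a (c (b (l 16531824) (c (a (l 16540768) (l 16540176)) (a (l 16534240) (l 16533560)))) (b (l 16519152) (c (l 16537792) (l 16520656)))) (c (b (l 16529968) (c (a (l 16549992) (l 16549232)) (a (l 16532792) (l 16531944)))) (b (l 16516952) (c (l 16525592) (l 16518776)))))) (b (a (l 16493776) (l 16490496)) (c (b (l 16515592) (a (l 16510616) (l 16508472))) (a (l 16495240) (l 16492560)))))) (b (b (c (a (l 16508520) (c (l 16487424) (l 16477088))) (a (l 16466984) (l 16461328))) (c (a (c (l 16505568) (l 16494248)) (c (l 16522272) (l 16489752))) (a (l 16477016) (l 16472184)))) (c (b (a (c (a (l 16519096) (l 16517528)) (l 16516272)) (c (a (l 16515856) (l 16535032)) (a (l 16503168) (l 16501248)))) (a (c (b (l 16527744) (c (a (l 16548376) (l 16536944)) (a (l 16531008)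 (l 16529976)))) (b (l 16514400) (c (l 16523552) (l 16516560)))) (c (a (b (l 16525792) (c (l 16535896) (l 16528848))) (b (l 16534840) (c (a (l 16535032) (b (l 16532704) (l 16536216))) (a (l 16527920) (l 16527312))))) (a (b (l 16512216) (l 16518216)) (b (l 16510640) (c (l 16520456) (l 16513264))))))) (a (b (c (l 16493176) (l 16480424)) (c (b (l 16500928) (l 16506008)) (l 16489584))) (b (c (l 16489296) (l 16476288)) (c (a (l 16522192) (l 16510104)) (a (l 16487104) (l 16485360)))))))), by decide +kernel⟩

def k170_pm_011 : ∃ t, chk3 f_pm_011 t 29 62 1 = true :=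
  ⟨(b (a (b (c (a (l 16429016) (c (l 16428728) (l 16422328))) (a (l 16416296) (l 16412432))) (c (a (a (l 16458544) (l 16457352)) (a (l 16435416) (l 16434688))) (a (l 16422840) (l 16420240)))) (c (b (a (c (b (l 16452088) (c (l 14) (l 16432600))) (l 16419504)) (b (a (l 16418104) (l 16472280)) (c (l 14) (l 16418560)))) (a (c (l 16447896) (l 16430112)) (c (l 14) (l 16429240)))) (b (a (l 16409256) (c (l 16410168) (l 16402952))) (a (l 16418512) (l 16417112))))) (a (c (a (b (l 16451520) (l 16486672)) (c (b (l 16454408) (l 16469848)) (l 16474048))) (a (l 16440824) (l 16460112))) (c (a (c (b (l 16453832) (l 16480392)) (b (l 16445040) (l 16459832))) (c (l 14) (b (l 16444744) (l 16460128)))) (a (c (l 16442864) (l 16433080)) (c (l 16463456) (l 16432320)))))), by decide +kernel⟩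

def k171_pm_011 : ∃ t, chk3 f_pm_011 t 58 63 1 = true :=
  ⟨(b (b (c (a (c (l 16485016) (l 16474400)) (c (l 16485144) (l 16474168))) (a (l 16458208) (l 16457416))) (c (a (c (l 16520496) (l 16487672)) (c (a (l 16500096) (l 16500640)) (l 16488096))) (a (l 16469648) (l 16469472)))) (c (b (a (c (a (l 16534624) (l 16535240)) (a (l 16500672) (l 16501088))) (c (a (c (l 16518344) (l 16511688)) (c (l 14) (l 16512520))) (a (l 16501632) (l 16502320)))) (a (c (a (b (l 16545232) (a (c (l 16545160) (l 16527480)) (c (l 16545672) (l 16527936)))) (b (c (l 16528648) (l 16521624)) (b (a (l 16530296) (l 16530840)) (c (a (l 16537576) (l 16538192)) (l 16530464))))) (a (b (l 16510360) (c (l 16520456) (l 16513176))) (b (l 16511032) (c (l 16521344) (l 16513952))))) (c (c (a (b (l 16529712) (a (c (l 14) (l 16535112)) (l 14))) (l 14)) (a (b (l 16522584) (a (l 16529552) (l 16540640))) (b (l 16523688) (b (l 16529264) (a (l 16532640) (l 16533336)))))) (a (b (l 16511840) (c (l 16532856) (l 16514872))) (b (l 16512776) (c (b (l 16521768)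 (l 16525320)) (l 16515928))))))) (a (b (c (l 16487640) (l 16474296)) (c (a (l 16520272) (b (l 16496808) (l 16502808))) (a (l 16484848) (l 16485144)))) (b (c (l 16488312) (l 16474552)) (b (a (l 16490112) (l 16511696)) (c (a (l 16503560) (l 16504448)) (l 16509632))))))), by decide +kernel⟩

def k172_pm_011 : ∃ t, chk3 f_pm_011 t 59 63 1 = true :=
  ⟨(b (c (a (c (a (b (l 16485648) (l 16501328)) (l 14)) (b (l 16474496) (l 16510048))) (c (l 14) (b (l 16475424) (a (l 16490216) (l 16491152))))) (b (a (l 16457160) (l 16457464)) (a (c (l 16476288) (l 16463344)) (c (l 16477424) (l 16464048))))) (c (b (a (c (a (c (l 14) (l 16513504)) (l 14)) (a (l 16503136) (l 16525080))) (c (l 14) (a (c (l 16508792) (l 16501640)) (c (l 14) (l 16502848))))) (a (a (c (a (c (l 14) (b (l 16524616) (c (l 14) (l 16530272)))) (l 14)) (b (l 16513856) (c (a (l 16524520) (l 16535696)) (l 16527616)))) (c (l 14) (b (l 16525568) (b (a (l 16520216) (l 16520928)) (c (a (l 16527792) (l 16528584)) (l 16520256)))))) (c (l 14) (c (a (b (l 16520264)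 (a (c (l 14) (l 16525528)) (l 14))) (l 14)) (a (b (l 16512624) (a (l 16519576) (l 16520352))) (b (l 16514096) (a (l 16530352) (a (l 16521816) (l 16522256))))))))) (b (a (c (a (l 16489192) (l 16489944)) (l 16475320)) (c (a (l 16490832) (l 16491864)) (l 16476648))) (a (c (a (b (l 16498968) (l 16515960)) (b (l 16499960) (c (l 16510592) (l 16502672)))) (a (l 16486880) (l 16508688))) (b (c (a (l 16501096) (l 16502384)) (l 16486080)) (c (a (c (l 16511952) (l 16503920)) (c (b (l 16511680) (l 16515264)) (l 16505312))) (a (l 16491800) (l 16493000)))))))), by decide +kernel⟩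

def k173_pm_011 : ∃ t, chk3 f_pm_011 t 30 60 1 = true :=
  ⟨(a (b (b (a (c (l 16539560) (l 16406728)) (l 1)) (a (c (c (l 16540392) (l 16484128)) (l 16398888)) (c (c (l 16558320) (l 16502832)) (l 16439744)))) (b (c (a (c (l 16534472) (l 16477440)) (c (l 16553088) (l 16496880))) (a (l 16391056) (l 16453712))) (c (a (c (l 16528528) (l 16470736)) (c (l 16547832) (l 16490920))) (a (l 16383216) (c (l 16433600) (l 16375856)))))) (b (l 1) (a (a (b (l 1) (c (l 16533952) (l 16420664))) (l 1)) (l 1)))), by decide +kernel⟩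

def k174_pm_011 : ∃ t, chk3 f_pm_011 t 30 61 1 = true :=
  ⟨(a (b (c (a (a (b (l 16509104) (c (l 16511264) (l 16451752))) (b (l 16519472) (c (l 16521776) (l 16462760)))) (a (b (l 16529712) (c (l 16532152) (l 16473640))) (b (l 16539832) (c (l 16542384) (l 16484376))))) (a (c (l 16401312) (l 16380272)) (b (l 16382080) (l 16390872)))) (c (a (b (a (c (l 16505032) (l 16444792)) (c (l 16515920) (l 16456216))) (a (c (l 16498768) (l 16437816)) (c (l 16510056) (l 16449672)))) (b (a (c (l 16526672) (l 16467488)) (c (l 16537272) (l 16478616))) (a (c (l 16521176) (l 16461352)) (c (l 16532144) (l 16472880))))) (a (c (l 16409008) (l 16391760)) (c (b (l 16392800) (l 16407216)) (l 16389424))))) (b (a (c (b (a (l 16549832) (l 16538744)) (a (c (l 16552496) (l 16494984)) (c (l 16562472) (l 16505456)))) (c (b (l 16448400) (a (l 16437096) (l 16448072))) (l 16387768))) (a (a (b (l 1) (c (l 16541592) (l 16427592))) (l 1)) (l 1))) (c (a (b (a (c (l 16547728) (l 16489600)) (c (l 16558040) (l 16500440))) (a (c (l 16542960) (l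 16484248)) (c (l 16553624) (l 16495464)))) (b (a (c (l 16568216) (l 16511144)) (c (l 16578264) (l 16521712))) (a (c (l 16564136) (l 16506528)) (c (l 16574496) (l 16517440))))) (c (a (b (a (l 16431120) (l 16442496)) (a (l 16425192) (l 16436968))) (b (a (l 16453736) (l 16464832)) (a (l 16448600) (l 16460072)))) (a (l 16403552) (b (l 16380816) (l 16396352))))))), by decide +kernel⟩

def k175_pm_011 : ∃ t, chk3 f_pm_011 t 31 30 1 = true :=
  ⟨(b (l 1) (a (b (l 1) (b (l 1) (b (l 1) (a (a (c (l 16555584) (l 16462704)) (l 1)) (l 1))))) (l 1))), by decide +kernel⟩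

def k176_pm_011 : ∃ t, chk3 f_pm_011 t 30 124 1 = true :=
  ⟨(a (c (b (a (b (a (l 16505304) (l 16517184)) (b (c (a (l 16491880) (b (l 16503856) (l 16503464))) (l 16415496)) (c (l 16497816) (l 16436304)))) (b (a (l 16528888) (c (l 16528352) (l 16468640))) (c (a (b (b (l 16515496) (l 16515552)) (l 16516056)) (l 16548456)) (l 14)))) (a (c (a (l 16493272) (l 16505728)) (l 16437800)) (c (a (l 16517976) (l 16530000)) (l 14)))) (b (a (b (l 16402240) (l 16416416)) (b (l 16400608) (c (l 16409104) (l 16401088)))) (a (l 16416352) (l 16416288)))) (c (b (b (b (a (c (l 16545440) (l 16507632)) (a (l 16532664) (l 16543528))) (a (a (c (l 16538960) (l 16479760)) (c (l 16553616) (l 16533336))) (a (b (l 16549024) (l 16532056)) (c (l 16571856) (l 16514392))))) (a (c (l 16555520) (l 16527952)) (a (l 16533040) (l 16544448)))) (a (c (a (l 16541824) (l 16553440)) (a (l 16482328) (l 16494560))) (c (a (l 16564856) (l 16576072)) (a (l 16506592) (l 16518416))))) (b (a (b (a (l 16400016) (a (l 16400496) (l 16396200))) (l 16405624))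 (b (c (b (l 16472288) (l 14)) (l 16401128)) (c (l 14) (l 16402320)))) (a (c (l 16428912) (l 16412224)) (c (l 14) (l 16413480)))))), by decide +kernel⟩

def k177_pm_011 : ∃ t, chk3 f_pm_011 t 30 125 1 = true :=
  ⟨(a (c (a (b (c (a (l 14) (l 16530232)) (l 16445104)) (c (l 14) (l 16471560))) (c (b (a (l 16542688) (l 16554920)) (c (a (l 16541560) (l 16553808)) (l 14))) (l 14))) (a (a (l 16458408) (l 16469080)) (c (b (l 16436048) (l 16451248)) (l 16453632)))) (a (c (b (c (a (l 16545944) (l 16557728)) (a (l 14) (l 16519664))) (c (a (b (l 16549600) (l 16552312)) (b (l 16561504) (l 16564296))) (l 14))) (c (b (l 16437440) (l 16463664)) (b (l 16426648) (l 16441040)))) (c (b (c (a (l 16569288) (l 16580640)) (a (l 16531864) (l 16543848))) (c (a (b (l 16573176) (l 16576048)) (b (l 16584632) (l 16587560))) (c (a (l 16530768) (l 16542736)) (l 14)))) (c (l 14) (b (l 16428360) (l 16443248)))))), by decide +kernel⟩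

def k178_pm_011 : ∃ t, chk3 f_pm_011 t 60 63 1 = true :=
  ⟨(b (c (a (a (c (l 14) (b (l 16476552) (l 16492248))) (l 14)) (b (c (a (l 14) (b (l 16542936) (l 14))) (l 14)) (l 14))) (a (c (b (l 16464632) (l 16500144)) (b (l 16452096) (l 16465336))) (b (c (l 16466416) (l 16453424)) (c (a (l 16480920) (l 16482288)) (l 16467240))))) (c (c (l 14) (c (l 14) (a (a (b (l 16504216) (b (l 16515712) (a (c (l 14) (l 16520880)) (l 14)))) (l 14)) (l 14)))) (b (a (c (a (l 16493056) (l 16515376)) (a (l 16478040) (l 16479144))) (b (a (l 16505560) (l 16507032)) (c (a (l 16499664) (l 16501416)) (l 16484536)))) (a (c (a (b (l 16503824) (c (a (l 16514712) (l 16515584)) (l 16506856))) (b (l 16526384) (a (c (l 16526984) (l 16508120)) (b (l 16511384) (c (l 16519344) (l 16510816)))))) (a (b (l 16487824) (l 16515328)) (b (l 16489168) (c (l 16500104) (l 16491608))))) (c (c (a (b (l 16511272) (a (b (l 16516536) (l 16520360)) (l 14))) (l 14)) (a (b (l 16503064) (b (l 16508576) (l 16520120))) (b (l 16504912) (a (l 16522400) (a (l 16512704)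 (l 16513240)))))) (a (b (l 16490664) (c (l 16501832) (l 16493200))) (b (l 16492320) (c (b (l 16501920) (l 16505512)) (l 16494952))))))))), by decide +kernel⟩

def k179_pm_011 : ∃ t, chk3 f_pm_011 t 61 63 1 = true :=
  ⟨(b (c (a (c (b (a (b (l 16555248) (l 16558408)) (b (l 16567312) (l 16570552))) (a (b (l 16561808) (l 14)) (b (l 16574024) (c (l 16592456) (l 14))))) (l 14)) (b (c (a (b (l 16579136) (l 16582448)) (b (l 16590712) (l 16594088))) (a (l 14) (b (l 16532880) (l 14)))) (c (a (b (l 16585992) (c (l 16604312) (l 14))) (b (l 16597696) (l 16580560))) (l 14)))) (c (a (a (b (l 16468232) (l 16483824)) (l 14)) (l 14)) (a (b (l 16455424) (l 16490792)) (b (l 16458152) (a (l 16472240) (l 16474064)))))) (b (c (c (c (a (a (l 14) (b (l 16596384) (l 14))) (a (b (l 16608304) (l 16612536)) (b (l 16619952) (l 16624240)))) (a (l 14) (a (l 14) (b (l 16591224) (l 14))))) (l 14)) (a (c (a (c (l 14) (l 16495456)) (l 14)) (a (l 16483408) (l 16506144))) (c (l 14) (a (c (l 16491264) (l 16482936)) (c (l 14) (l 16484984))))))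 (c (a (l 14) (c (c (a (b (a (l 14) (l 16619976)) (l 14)) (b (l 16628768) (a (l 16630608) (l 16636440)))) (l 14)) (l 14))) (a (c (c (l 14) (a (a (a (b (l 16506168) (l 16524272)) (l 14)) (l 14)) (l 14))) (a (b (l 16494144) (c (b (l 16503928) (l 16518088)) (l 16496864))) (b (l 16517104) (a (c (l 16517904) (l 16498416)) (b (l 16502192) (a (l 16516088) (l 16516664))))))) (c (l 14) (c (a (b (l 16502720) (b (l 16508464) (c (l 14) (l 16515232)))) (l 14)) (a (b (l 16493872) (b (l 16499368) (l 16513520))) (b (l 16496144) (b (l 16501760) (c (l 16513104) (l 16503144))))))))))), by decide +kernel⟩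

def k180_pm_011 : ∃ t, chk3 f_pm_011 t 31 62 1 = true :=
  ⟨(a (b (c (a (a (b (b (b (c (l 16582720) (l 16525928)) (l 16554392)) (l 16555672)) (c (l 16587088) (l 16530048))) (b (b (l 1) (l 16566720)) (c (l 16597920) (l 16541480)))) (a (b (l 1) (b (l 1) (l 16560832))) (l 1))) (a (b (a (b (b (c (l 16468848) (l 16411464)) (l 16440056)) (l 16462168)) (b (l 1) (l 16474400))) (c (a (l 16472680) (l 16484728)) (l 16421320))) (b (l 1) (a (c (l 16496576) (l 14)) (l 1))))) (c (a (b (c (a (l 16591784) (l 16602720)) (a (l 16534640) (l 16546200))) (c (a (b (l 16595856) (l 16598848)) (l 16587400)) (a (b (l 16538680) (l 16541664)) (b (l 16550328) (l 16553376))))) (b (c (a (l 16613456) (l 16623992)) (a (l 16557552) (l 16547728))) (c (a (l 16619192) (l 16629808)) (a (b (l 16561760) (l 16564856)) (b (l 16572976) (l 16576120)))))) (a (c (a (l 14) (b (l 16510320) (l 14))) (b (l 16430896) (l 16456728))) (c (b (a (l 16522296) (l 16534056)) (c (a (l 16521128) (l 16532840)) (l 14))) (l 14))))) (b (l 1) (b (l 1) (b (l 1) (a (a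 (a (c (l 16590896) (l 16522552)) (l 1)) (l 1)) (l 1)))))), by decide +kernel⟩

def k181_pm_011 : ∃ t, chk3 f_pm_011 t 62 63 1 = true :=
  ⟨(b (c (a (b (c (a (b (l 16602056) (l 16605488)) (c (l 16628960) (l 16600800))) (a (b (l 16544888) (l 16548344)) (b (l 16556656) (l 16560168)))) (b (c (a (l 16609152) (l 16620360)) (a (l 16552040) (l 16563928))) (c (a (l 16613040) (l 16624296)) (a (l 14) (c (l 16582056) (l 14)))))) (b (c (a (l 16599584) (l 16636480)) (a (b (l 16568184) (l 16571752)) (b (l 16579496) (l 16583104)))) (c (a (c (l 16647168) (l 16619392)) (c (l 16657752) (l 16630312))) (a (b (l 16554592) (c (l 16593576) (l 14))) (b (l 16586952) (c (l 16604840) (l 16577224))))))) (c (a (l 14) (a (l 14) (b (b (l 16523904) (l 14)) (l 14)))) (a (a (b (l 16460728) (l 16476080)) (l 14)) (l 14)))) (c (a (c (b (a (c (b (l 16631344) (l 16635680)) (b (l 16602960) (l 16607344))) (c (l 16644640) (b (l 16614432) (l 16618864)))) (a (c (b (l 16640248) (l 16645056)) (b (a (l 14) (l 16614888)) (l 14))) (c (b (l 16651456)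 (l 16656312)) (b (l 16623536) (a (l 16625584) (l 16631312)))))) (b (a (l 14) (b (c (l 16586288) (l 14)) (l 14))) (l 14))) (b (b (c (a (l 16639512) (l 16650304)) (a (c (l 16597848) (l 14)) (c (l 16609152) (l 16581592)))) (c (a (l 16643952) (l 16654776)) (c (a (l 16602368) (l 16613712)) (l 14)))) (b (c (a (l 16627656) (l 16659480)) (c (a (a (l 14) (l 16610016)) (l 16618520)) (l 14))) (c (a (c (l 16667280) (l 16639784)) (l 16664424)) (a (l 14) (c (a (l 16620752) (l 16626392)) (l 14))))))) (a (a (a (c (l 14) (b (l 16511912) (b (l 16523504) (c (l 14) (b (l 16503672) (l 16507480)))))) (l 14)) (l 14)) (l 14)))), by decide +kernel⟩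

def k182_pm_011 : ∃ t, chk3 f_pm_011 t 63 63 1 = true :=
  ⟨(c (b (a (b (c (a (l 16646944) (l 16657184)) (a (b (l 16590576) (l 16594224)) (c (l 16616768) (l 16589712)))) (c (a (l 16654552) (l 16664840)) (a (b (l 16598104) (l 16581256)) (a (l 16587400) (l 16613776))))) (a (a (b (l 1) (b (l 1) (l 16605944))) (l 1)) (l 1))) (a (b (c (a (l 16642104) (l 16673392)) (a (c (b (l 16620200) (l 16624784)) (b (l 16592976) (l 16576648))) (c (l 16633280) (b (l 16604112) (l 16608784))))) (c (a (c (l 16685936) (l 16659088)) (l 16682872)) (a (c (b (l 16629624) (l 16634704)) (b (a (l 14) (l 16605352)) (l 14))) (c (b (l 16640464) (l 16645568)) (b (l 16603224) (a (l 16616120) (l 16621656))))))) (b (b (c (l 16686176) (a (l 16628296) (l 1))) (c (l 16690696) (a (l 16611976) (l 16643448)))) (c (a (l 16692968) (l 16702808)) (a (c (l 16653592) (b (l 16624632) (l 16629832))) (b (l 16648360) (l 16632552))))))) (b (a (c (b (a (b (l 16535632) (l 16539320)) (b (l 1) (l 16550856))) (a (b (l 16543272) (l 14)) (b (l 16533872) (c (l 16572640)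 (l 14))))) (l 14)) (a (c (b (l 1) (b (l 1) (c (l 16583840) (l 14)))) (l 14)) (l 1))) (c (c (a (b (a (l 14) (b (l 16577112) (l 14))) (l 14)) (b (a (b (l 16588336) (a (l 16590312) (l 16595864))) (b (l 1) (l 16604080))) (a (b (a (l 14) (l 16600888)) (l 14)) (b (a (l 16606392) (l 16611824)) (a (l 16611680) (l 16617128)))))) (a (l 14) (b (a (l 14) (b (l 1) (l 14))) (l 14)))) (l 14)))), by decide +kernel⟩

theorem s183_pm_011 : ∃ t, chk3 f_pm_011 t 31 63 1 = true := ex3_a k181_pm_011 k182_pm_011

theorem s184_pm_011 : ∃ t, chk3 f_pm_011 t 31 31 1 = true := ex3_b k180_pm_011 s183_pm_011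

theorem s185_pm_011 : ∃ t, chk3 f_pm_011 t 30 63 1 = true := ex3_a k178_pm_011 k179_pm_011

theorem s186_pm_011 : ∃ t, chk3 f_pm_011 t 30 62 1 = true := ex3_b k176_pm_011 k177_pm_011

theorem s187_pm_011 : ∃ t, chk3 f_pm_011 t 30 31 1 = true := ex3_b s186_pm_011 s185_pm_011

theorem s188_pm_011 : ∃ t, chk3 f_pm_011 t 15 31 1 = true := ex3_a s187_pm_011 s184_pm_011

theorem s189_pm_011 : ∃ t, chk3 f_pm_011 t 30 30 1 = true := ex3_b k173_pm_011 k174_pm_011

theorem s190_pm_011 : ∃ t, chk3 f_pm_011 t 15 30 1 = true := ex3_a s189_pm_011 k175_pm_011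

theorem s191_pm_011 : ∃ t, chk3 f_pm_011 t 15 15 1 = true := ex3_b s190_pm_011 s188_pm_011

theorem s192_pm_011 : ∃ t, chk3 f_pm_011 t 29 63 1 = true := ex3_a k171_pm_011 k172_pm_011

theorem s193_pm_011 : ∃ t, chk3 f_pm_011 t 29 31 1 = true := ex3_b k170_pm_011 s192_pm_011

theorem s194_pm_011 : ∃ t, chk3 f_pm_011 t 28 31 1 = true := ex3_b k168_pm_011 k169_pm_011

theorem s195_pm_011 : ∃ t, chk3 f_pm_011 t 14 31 1 = true := ex3_a s194_pm_011 s193_pm_011

theorem s196_pm_011 : ∃ t, chk3 f_pm_011 t 14 30 1 = true := ex3_a k166_pm_011 k167_pm_011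

theorem s197_pm_011 : ∃ t, chk3 f_pm_011 t 14 15 1 = true := ex3_b s196_pm_011 s195_pm_011

theorem s198_pm_011 : ∃ t, chk3 f_pm_011 t 7 15 1 = true := ex3_a s197_pm_011 s191_pm_011

theorem s199_pm_011 : ∃ t, chk3 f_pm_011 t 14 14 1 = true := ex3_b k163_pm_011 k164_pm_011

theorem s200_pm_011 : ∃ t, chk3 f_pm_011 t 7 14 1 = true := ex3_a s199_pm_011 k165_pm_011

theorem s201_pm_011 : ∃ t, chk3 f_pm_011 t 7 7 1 = true := ex3_b s200_pm_011 s198_pm_011

theorem s202_pm_011 : ∃ t, chk3 f_pm_011 t 13 15 1 = true := ex3_b k161_pm_011 k162_pm_011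

theorem s203_pm_011 : ∃ t, chk3 f_pm_011 t 6 15 1 = true := ex3_a k160_pm_011 s202_pm_011

theorem s204_pm_011 : ∃ t, chk3 f_pm_011 t 6 7 1 = true := ex3_b k159_pm_011 s203_pm_011

theorem s205_pm_011 : ∃ t, chk3 f_pm_011 t 3 7 1 = true := ex3_a s204_pm_011 s201_pm_011

theorem s206_pm_011 : ∃ t, chk3 f_pm_011 t 12 13 1 = true := ex3_b k155_pm_011 k156_pm_011

theorem s207_pm_011 : ∃ t, chk3 f_pm_011 t 6 13 1 = true := ex3_a s206_pm_011 k157_pm_011

theorem s208_pm_011 : ∃ t, chk3 f_pm_011 t 6 6 1 = true := ex3_b k154_pm_011 s207_pm_011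

theorem s209_pm_011 : ∃ t, chk3 f_pm_011 t 3 6 1 = true := ex3_a s208_pm_011 k158_pm_011

theorem s210_pm_011 : ∃ t, chk3 f_pm_011 t 3 3 1 = true := ex3_b s209_pm_011 s205_pm_011

theorem s211_pm_011 : ∃ t, chk3 f_pm_011 t 3 1 1 = true := ex3_b k153_pm_011 s210_pm_011

theorem s212_pm_011 : ∃ t, chk3 f_pm_011 t 10 15 1 = true := ex3_b k150_pm_011 k151_pm_011

theorem s213_pm_011 : ∃ t, chk3 f_pm_011 t 5 15 1 = true := ex3_a s212_pm_011 k152_pm_011

theorem s214_pm_011 : ∃ t, chk3 f_pm_011 t 22 56 1 = true := ex3_a k145_pm_011 k146_pm_011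

theorem s215_pm_011 : ∃ t, chk3 f_pm_011 t 22 28 1 = true := ex3_b s214_pm_011 k147_pm_011

theorem s216_pm_011 : ∃ t, chk3 f_pm_011 t 11 28 1 = true := ex3_a s215_pm_011 k148_pm_011

theorem s217_pm_011 : ∃ t, chk3 f_pm_011 t 11 14 1 = true := ex3_b s216_pm_011 k149_pm_011

theorem s218_pm_011 : ∃ t, chk3 f_pm_011 t 21 58 1 = true := ex3_a k142_pm_011 k143_pm_011

theorem s219_pm_011 : ∃ t, chk3 f_pm_011 t 21 29 1 = true := ex3_b s218_pm_011 k144_pm_011

theorem s220_pm_011 : ∃ t, chk3 f_pm_011 t 40 118 1 = true := ex3_a k138_pm_011 k139_pm_011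

theorem s221_pm_011 : ∃ t, chk3 f_pm_011 t 40 59 1 = true := ex3_b s220_pm_011 k140_pm_011

theorem s222_pm_011 : ∃ t, chk3 f_pm_011 t 20 59 1 = true := ex3_a s221_pm_011 k141_pm_011

theorem s223_pm_011 : ∃ t, chk3 f_pm_011 t 41 117 1 = true := ex3_a k136_pm_011 k137_pm_011

theorem s224_pm_011 : ∃ t, chk3 f_pm_011 t 41 58 1 = true := ex3_b k135_pm_011 s223_pm_011

theorem s225_pm_011 : ∃ t, chk3 f_pm_011 t 20 58 1 = true := ex3_a k134_pm_011 s224_pm_011

theorem s226_pm_011 : ∃ t, chk3 f_pm_011 t 20 29 1 = true := ex3_b s225_pm_011 s222_pm_011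

theorem s227_pm_011 : ∃ t, chk3 f_pm_011 t 10 29 1 = true := ex3_a s226_pm_011 s219_pm_011

theorem s228_pm_011 : ∃ t, chk3 f_pm_011 t 21 57 1 = true := ex3_a k132_pm_011 k133_pm_011

theorem s229_pm_011 : ∃ t, chk3 f_pm_011 t 21 28 1 = true := ex3_b k131_pm_011 s228_pm_011

theorem s230_pm_011 : ∃ t, chk3 f_pm_011 t 10 28 1 = true := ex3_a k130_pm_011 s229_pm_011

theorem s231_pm_011 : ∃ t, chk3 f_pm_011 t 10 14 1 = true := ex3_b s230_pm_011 s227_pm_011

theorem s232_pm_011 : ∃ t, chk3 f_pm_011 t 5 14 1 = true := ex3_a s231_pm_011 s217_pm_011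

theorem s233_pm_011 : ∃ t, chk3 f_pm_011 t 5 7 1 = true := ex3_b s232_pm_011 s213_pm_011

theorem s234_pm_011 : ∃ t, chk3 f_pm_011 t 23 27 1 = true := ex3_b k128_pm_011 k129_pm_011

theorem s235_pm_011 : ∃ t, chk3 f_pm_011 t 11 27 1 = true := ex3_a k127_pm_011 s234_pm_011

theorem s236_pm_011 : ∃ t, chk3 f_pm_011 t 11 13 1 = true := ex3_b k126_pm_011 s235_pm_011

theorem s237_pm_011 : ∃ t, chk3 f_pm_011 t 5 13 1 = true := ex3_a k125_pm_011 s236_pm_011

theorem s238_pm_011 : ∃ t, chk3 f_pm_011 t 5 6 1 = true := ex3_b k124_pm_011 s237_pm_011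

theorem s239_pm_011 : ∃ t, chk3 f_pm_011 t 5 3 1 = true := ex3_b s238_pm_011 s233_pm_011

theorem s240_pm_011 : ∃ t, chk3 f_pm_011 t 36 62 1 = true := ex3_b k119_pm_011 k120_pm_011

theorem s241_pm_011 : ∃ t, chk3 f_pm_011 t 18 62 1 = true := ex3_a s240_pm_011 k121_pm_011

theorem s242_pm_011 : ∃ t, chk3 f_pm_011 t 9 62 1 = true := ex3_a s241_pm_011 k122_pm_011

theorem s243_pm_011 : ∃ t, chk3 f_pm_011 t 9 31 1 = true := ex3_b s242_pm_011 k123_pm_011

theorem s244_pm_011 : ∃ t, chk3 f_pm_011 t 39 120 1 = true := ex3_a k115_pm_011 k116_pm_011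

theorem s245_pm_011 : ∃ t, chk3 f_pm_011 t 39 60 1 = true := ex3_b s244_pm_011 k117_pm_011

theorem s246_pm_011 : ∃ t, chk3 f_pm_011 t 76 242 1 = true := ex3_a k111_pm_011 k112_pm_011

theorem s247_pm_011 : ∃ t, chk3 f_pm_011 t 76 121 1 = true := ex3_b s246_pm_011 k113_pm_011

theorem s248_pm_011 : ∃ t, chk3 f_pm_011 t 38 121 1 = true := ex3_a s247_pm_011 k114_pm_011

theorem s249_pm_011 : ∃ t, chk3 f_pm_011 t 77 241 1 = true := ex3_a k109_pm_011 k110_pm_011

theorem s250_pm_011 : ∃ t, chk3 f_pm_011 t 77 120 1 = true := ex3_b k108_pm_011 s249_pm_011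

theorem s251_pm_011 : ∃ t, chk3 f_pm_011 t 38 120 1 = true := ex3_a k107_pm_011 s250_pm_011

theorem s252_pm_011 : ∃ t, chk3 f_pm_011 t 38 60 1 = true := ex3_b s251_pm_011 s248_pm_011

theorem s253_pm_011 : ∃ t, chk3 f_pm_011 t 19 60 1 = true := ex3_a s252_pm_011 s245_pm_011

theorem s254_pm_011 : ∃ t, chk3 f_pm_011 t 19 30 1 = true := ex3_b s253_pm_011 k118_pm_011

theorem s255_pm_011 : ∃ t, chk3 f_pm_011 t 75 122 1 = true := ex3_b k104_pm_011 k105_pm_011

theorem s256_pm_011 : ∃ t, chk3 f_pm_011 t 74 245 1 = true := ex3_a k102_pm_011 k103_pm_011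

theorem s257_pm_011 : ∃ t, chk3 f_pm_011 t 149 244 1 = true := ex3_b k100_pm_011 k101_pm_011

theorem s258_pm_011 : ∃ t, chk3 f_pm_011 t 74 244 1 = true := ex3_a k99_pm_011 s257_pm_011

theorem s259_pm_011 : ∃ t, chk3 f_pm_011 t 74 122 1 = true := ex3_b s258_pm_011 s256_pm_011

theorem s260_pm_011 : ∃ t, chk3 f_pm_011 t 37 122 1 = true := ex3_a s259_pm_011 s255_pm_011

theorem s261_pm_011 : ∃ t, chk3 f_pm_011 t 37 61 1 = true := ex3_b s260_pm_011 k106_pm_011

theorem s262_pm_011 : ∃ t, chk3 f_pm_011 t 146 492 1 = true := ex3_a k94_pm_011 k95_pm_011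

theorem s263_pm_011 : ∃ t, chk3 f_pm_011 t 146 246 1 = true := ex3_b s262_pm_011 k96_pm_011

theorem s264_pm_011 : ∃ t, chk3 f_pm_011 t 73 246 1 = true := ex3_a s263_pm_011 k97_pm_011

theorem s265_pm_011 : ∃ t, chk3 f_pm_011 t 73 123 1 = true := ex3_b s264_pm_011 k98_pm_011

theorem s266_pm_011 : ∃ t, chk3 f_pm_011 t 144 494 1 = true := ex3_a k90_pm_011 k91_pm_011

theorem s267_pm_011 : ∃ t, chk3 f_pm_011 t 144 247 1 = true := ex3_b s266_pm_011 k92_pm_011

theorem s268_pm_011 : ∃ t, chk3 f_pm_011 t 72 247 1 = true := ex3_a s267_pm_011 k93_pm_011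

theorem s269_pm_011 : ∃ t, chk3 f_pm_011 t 145 493 1 = true := ex3_a k88_pm_011 k89_pm_011

theorem s270_pm_011 : ∃ t, chk3 f_pm_011 t 145 246 1 = true := ex3_b k87_pm_011 s269_pm_011

theorem s271_pm_011 : ∃ t, chk3 f_pm_011 t 72 246 1 = true := ex3_a k86_pm_011 s270_pm_011

theorem s272_pm_011 : ∃ t, chk3 f_pm_011 t 72 123 1 = true := ex3_b s271_pm_011 s268_pm_011

theorem s273_pm_011 : ∃ t, chk3 f_pm_011 t 36 123 1 = true := ex3_a s272_pm_011 s265_pm_011

theorem s274_pm_011 : ∃ t, chk3 f_pm_011 t 147 245 1 = true := ex3_b k84_pm_011 k85_pm_011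

theorem s275_pm_011 : ∃ t, chk3 f_pm_011 t 73 245 1 = true := ex3_a k83_pm_011 s274_pm_011

theorem s276_pm_011 : ∃ t, chk3 f_pm_011 t 73 122 1 = true := ex3_b k82_pm_011 s275_pm_011

theorem s277_pm_011 : ∃ t, chk3 f_pm_011 t 36 122 1 = true := ex3_a k81_pm_011 s276_pm_011

theorem s278_pm_011 : ∃ t, chk3 f_pm_011 t 36 61 1 = true := ex3_b s277_pm_011 s273_pm_011

theorem s279_pm_011 : ∃ t, chk3 f_pm_011 t 18 61 1 = true := ex3_a s278_pm_011 s261_pm_011

theorem s280_pm_011 : ∃ t, chk3 f_pm_011 t 75 243 1 = true := ex3_a k79_pm_011 k80_pm_011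

theorem s281_pm_011 : ∃ t, chk3 f_pm_011 t 75 121 1 = true := ex3_b k78_pm_011 s280_pm_011

theorem s282_pm_011 : ∃ t, chk3 f_pm_011 t 37 121 1 = true := ex3_a k77_pm_011 s281_pm_011

theorem s283_pm_011 : ∃ t, chk3 f_pm_011 t 37 60 1 = true := ex3_b k76_pm_011 s282_pm_011

theorem s284_pm_011 : ∃ t, chk3 f_pm_011 t 18 60 1 = true := ex3_a k75_pm_011 s283_pm_011

theorem s285_pm_011 : ∃ t, chk3 f_pm_011 t 18 30 1 = true := ex3_b s284_pm_011 s279_pm_011

theorem s286_pm_011 : ∃ t, chk3 f_pm_011 t 9 30 1 = true := ex3_a s285_pm_011 s254_pm_011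

theorem s287_pm_011 : ∃ t, chk3 f_pm_011 t 9 15 1 = true := ex3_b s286_pm_011 s243_pm_011

theorem s288_pm_011 : ∃ t, chk3 f_pm_011 t 70 125 1 = true := ex3_b k71_pm_011 k72_pm_011

theorem s289_pm_011 : ∃ t, chk3 f_pm_011 t 35 125 1 = true := ex3_a s288_pm_011 k73_pm_011

theorem s290_pm_011 : ∃ t, chk3 f_pm_011 t 143 496 1 = true := ex3_a k67_pm_011 k68_pm_011

theorem s291_pm_011 : ∃ t, chk3 f_pm_011 t 143 248 1 = true := ex3_b s290_pm_011 k69_pm_011

theorem s292_pm_011 : ∃ t, chk3 f_pm_011 t 284 497 1 = true := ex3_b k64_pm_011 k65_pm_011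

theorem s293_pm_011 : ∃ t, chk3 f_pm_011 t 142 497 1 = true := ex3_a s292_pm_011 k66_pm_011

theorem s294_pm_011 : ∃ t, chk3 f_pm_011 t 285 496 1 = true := ex3_b k62_pm_011 k63_pm_011

theorem s295_pm_011 : ∃ t, chk3 f_pm_011 t 142 496 1 = true := ex3_a k61_pm_011 s294_pm_011

theorem s296_pm_011 : ∃ t, chk3 f_pm_011 t 142 248 1 = true := ex3_b s295_pm_011 s293_pm_011

theorem s297_pm_011 : ∃ t, chk3 f_pm_011 t 71 248 1 = true := ex3_a s296_pm_011 s291_pm_011

theorem s298_pm_011 : ∃ t, chk3 f_pm_011 t 71 124 1 = true := ex3_b s297_pm_011 k70_pm_011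

theorem s299_pm_011 : ∃ t, chk3 f_pm_011 t 282 996 1 = true := ex3_c k56_pm_011 k57_pm_011

theorem s300_pm_011 : ∃ t, chk3 f_pm_011 t 282 498 1 = true := ex3_b s299_pm_011 k58_pm_011

theorem s301_pm_011 : ∃ t, chk3 f_pm_011 t 141 498 1 = true := ex3_a s300_pm_011 k59_pm_011

theorem s302_pm_011 : ∃ t, chk3 f_pm_011 t 141 249 1 = true := ex3_b s301_pm_011 k60_pm_011

theorem s303_pm_011 : ∃ t, chk3 f_pm_011 t 280 998 1 = true := ex3_c k52_pm_011 k53_pm_011

theorem s304_pm_011 : ∃ t, chk3 f_pm_011 t 280 499 1 = true := ex3_b s303_pm_011 k54_pm_011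

theorem s305_pm_011 : ∃ t, chk3 f_pm_011 t 140 499 1 = true := ex3_a s304_pm_011 k55_pm_011

theorem s306_pm_011 : ∃ t, chk3 f_pm_011 t 281 997 1 = true := ex3_c k50_pm_011 k51_pm_011

theorem s307_pm_011 : ∃ t, chk3 f_pm_011 t 281 498 1 = true := ex3_b k49_pm_011 s306_pm_011

theorem s308_pm_011 : ∃ t, chk3 f_pm_011 t 140 498 1 = true := ex3_a k48_pm_011 s307_pm_011

theorem s309_pm_011 : ∃ t, chk3 f_pm_011 t 140 249 1 = true := ex3_b s308_pm_011 s305_pm_011

theorem s310_pm_011 : ∃ t, chk3 f_pm_011 t 70 249 1 = true := ex3_a s309_pm_011 s302_pm_011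

theorem s311_pm_011 : ∃ t, chk3 f_pm_011 t 283 497 1 = true := ex3_b k46_pm_011 k47_pm_011

theorem s312_pm_011 : ∃ t, chk3 f_pm_011 t 141 497 1 = true := ex3_a k45_pm_011 s311_pm_011

theorem s313_pm_011 : ∃ t, chk3 f_pm_011 t 141 248 1 = true := ex3_b k44_pm_011 s312_pm_011

theorem s314_pm_011 : ∃ t, chk3 f_pm_011 t 70 248 1 = true := ex3_a k43_pm_011 s313_pm_011

theorem s315_pm_011 : ∃ t, chk3 f_pm_011 t 70 124 1 = true := ex3_b s314_pm_011 s310_pm_011

theorem s316_pm_011 : ∃ t, chk3 f_pm_011 t 35 124 1 = true := ex3_a s315_pm_011 s298_pm_011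

theorem s317_pm_011 : ∃ t, chk3 f_pm_011 t 35 62 1 = true := ex3_b s316_pm_011 s289_pm_011

theorem s318_pm_011 : ∃ t, chk3 f_pm_011 t 278 1000 1 = true := ex3_a k37_pm_011 k38_pm_011

theorem s319_pm_011 : ∃ t, chk3 f_pm_011 t 278 500 1 = true := ex3_b s318_pm_011 k39_pm_011

theorem s320_pm_011 : ∃ t, chk3 f_pm_011 t 139 500 1 = true := ex3_a s319_pm_011 k40_pm_011

theorem s321_pm_011 : ∃ t, chk3 f_pm_011 t 139 250 1 = true := ex3_b s320_pm_011 k41_pm_011

theorem s322_pm_011 : ∃ t, chk3 f_pm_011 t 277 501 1 = true := ex3_b k35_pm_011 k36_pm_011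

theorem s323_pm_011 : ∃ t, chk3 f_pm_011 t 138 501 1 = true := ex3_a k34_pm_011 s322_pm_011

theorem s324_pm_011 : ∃ t, chk3 f_pm_011 t 277 1001 1 = true := ex3_a k32_pm_011 k33_pm_011

theorem s325_pm_011 : ∃ t, chk3 f_pm_011 t 277 500 1 = true := ex3_b k31_pm_011 s324_pm_011

theorem s326_pm_011 : ∃ t, chk3 f_pm_011 t 138 500 1 = true := ex3_a k30_pm_011 s325_pm_011

theorem s327_pm_011 : ∃ t, chk3 f_pm_011 t 138 250 1 = true := ex3_b s326_pm_011 s323_pm_011

theorem s328_pm_011 : ∃ t, chk3 f_pm_011 t 69 250 1 = true := ex3_a s327_pm_011 s321_pm_011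

theorem s329_pm_011 : ∃ t, chk3 f_pm_011 t 69 125 1 = true := ex3_b s328_pm_011 k42_pm_011

theorem s330_pm_011 : ∃ t, chk3 f_pm_011 t 34 125 1 = true := ex3_a k29_pm_011 s329_pm_011

theorem s331_pm_011 : ∃ t, chk3 f_pm_011 t 279 999 1 = true := ex3_c k27_pm_011 k28_pm_011

theorem s332_pm_011 : ∃ t, chk3 f_pm_011 t 279 499 1 = true := ex3_b k26_pm_011 s331_pm_011

theorem s333_pm_011 : ∃ t, chk3 f_pm_011 t 139 499 1 = true := ex3_a k25_pm_011 s332_pm_011

theorem s334_pm_011 : ∃ t, chk3 f_pm_011 t 139 249 1 = true := ex3_b k24_pm_011 s333_pm_011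

theorem s335_pm_011 : ∃ t, chk3 f_pm_011 t 69 249 1 = true := ex3_a k23_pm_011 s334_pm_011

theorem s336_pm_011 : ∃ t, chk3 f_pm_011 t 69 124 1 = true := ex3_b k22_pm_011 s335_pm_011

theorem s337_pm_011 : ∃ t, chk3 f_pm_011 t 34 124 1 = true := ex3_a k21_pm_011 s336_pm_011

theorem s338_pm_011 : ∃ t, chk3 f_pm_011 t 34 62 1 = true := ex3_b s337_pm_011 s330_pm_011

theorem s339_pm_011 : ∃ t, chk3 f_pm_011 t 17 62 1 = true := ex3_a s338_pm_011 s317_pm_011

theorem s340_pm_011 : ∃ t, chk3 f_pm_011 t 17 31 1 = true := ex3_b s339_pm_011 k74_pm_011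

theorem s341_pm_011 : ∃ t, chk3 f_pm_011 t 8 31 1 = true := ex3_a k20_pm_011 s340_pm_011

theorem s342_pm_011 : ∃ t, chk3 f_pm_011 t 143 495 1 = true := ex3_a k18_pm_011 k19_pm_011

theorem s343_pm_011 : ∃ t, chk3 f_pm_011 t 143 247 1 = true := ex3_b k17_pm_011 s342_pm_011

theorem s344_pm_011 : ∃ t, chk3 f_pm_011 t 71 247 1 = true := ex3_a k16_pm_011 s343_pm_011

theorem s345_pm_011 : ∃ t, chk3 f_pm_011 t 71 123 1 = true := ex3_b k15_pm_011 s344_pm_011

theorem s346_pm_011 : ∃ t, chk3 f_pm_011 t 35 123 1 = true := ex3_a k14_pm_011 s345_pm_011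

theorem s347_pm_011 : ∃ t, chk3 f_pm_011 t 35 61 1 = true := ex3_b k13_pm_011 s346_pm_011

theorem s348_pm_011 : ∃ t, chk3 f_pm_011 t 17 61 1 = true := ex3_a k12_pm_011 s347_pm_011

theorem s349_pm_011 : ∃ t, chk3 f_pm_011 t 17 30 1 = true := ex3_b k11_pm_011 s348_pm_011

theorem s350_pm_011 : ∃ t, chk3 f_pm_011 t 8 30 1 = true := ex3_a k10_pm_011 s349_pm_011

theorem s351_pm_011 : ∃ t, chk3 f_pm_011 t 8 15 1 = true := ex3_b s350_pm_011 s341_pm_011

theorem s352_pm_011 : ∃ t, chk3 f_pm_011 t 4 15 1 = true := ex3_a s351_pm_011 s287_pm_011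

theorem s353_pm_011 : ∃ t, chk3 f_pm_011 t 39 119 1 = true := ex3_a k8_pm_011 k9_pm_011

theorem s354_pm_011 : ∃ t, chk3 f_pm_011 t 39 59 1 = true := ex3_b k7_pm_011 s353_pm_011

theorem s355_pm_011 : ∃ t, chk3 f_pm_011 t 19 59 1 = true := ex3_a k6_pm_011 s354_pm_011

theorem s356_pm_011 : ∃ t, chk3 f_pm_011 t 19 29 1 = true := ex3_b k5_pm_011 s355_pm_011

theorem s357_pm_011 : ∃ t, chk3 f_pm_011 t 9 29 1 = true := ex3_a k4_pm_011 s356_pm_011

theorem s358_pm_011 : ∃ t, chk3 f_pm_011 t 9 14 1 = true := ex3_b k3_pm_011 s357_pm_011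

theorem s359_pm_011 : ∃ t, chk3 f_pm_011 t 4 14 1 = true := ex3_a k2_pm_011 s358_pm_011

theorem s360_pm_011 : ∃ t, chk3 f_pm_011 t 4 7 1 = true := ex3_b s359_pm_011 s352_pm_011

theorem s361_pm_011 : ∃ t, chk3 f_pm_011 t 4 3 1 = true := ex3_b k1_pm_011 s360_pm_011

theorem s362_pm_011 : ∃ t, chk3 f_pm_011 t 2 3 1 = true := ex3_a s361_pm_011 s239_pm_011

theorem s363_pm_011 : ∃ t, chk3 f_pm_011 t 2 1 1 = true := ex3_b k0_pm_011 s362_pm_011

theorem s364_pm_011 : ∃ t, chk3 f_pm_011 t 1 1 1 = true := ex3_a s363_pm_011 s211_pm_011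

theorem c_pm_011 : CertN 0 536870912 536870912 536870912 469762048 67108864 3 false true false .pnn 0 1 1
    ndN0q0 ndN0q1 pcN1 cut_pm_011 Ext.none :=
  certN0 (fam := false) (s1 := true) (s2 := false) (a := 0) (b := 1) (c := 1) (cn := .pnn) (n1 := ndN0q0) (n2 := ndN0q1) (pc := pcN1) (cut := cut_pm_011) (xt := Ext.none) (P1 := 0) (W1 := 536870912) (P2 := 536870912) (W2 := 536870912) (P3 := 469762048) (W3 := 67108864) (N0 := 3)
    rfl s364_pm_011

end Pool.Agent.Strip051.G.I7_16_1_2.Tab.C.NB00

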