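import Pool.Agent.Strip051.G.I7_16_1_2.Tab

/-! # Certificates N12 (generated) -/

set_option linter.all false
set_option maxRecDepth 100000

namespace Pool.Agent.Strip051.G.I7_16_1_2.Tab.C.NB00

open Pool.Agent.Strip051.PB Pool.Agent.Strip051.PB.T
open Pool.Agent.Strip051.G.I7_16_1_2.Tab

noncomputable def cut_pm_012 : Cut := Cut.of [[⟨0, 0, 0, 67108864⟩, ⟨1, 1, 0, 67108864⟩, ⟨2, 1, 0, 67108864⟩], [⟨0, 0, 1, 33554432⟩, ⟨1, 1, 2, 33554432⟩, ⟨2, 1, 0, 33554432⟩]]

noncomputable def f_pm_012 : ℕ → ℕ → ℕ → ℕ → Bool := onCell 536870912 536870912 0 536870912 469762048 67108864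
    (rowN 3 2 false true false .pnp 0 1 2 (qsf 0 536870912 0 536870912 1) ndN0q0 ndN0q2 pcN1 cut_pm_012 Ext.none)

def k0_pm_012 : ∃ t, chk3 f_pm_012 t 4 2 1 = true :=
  ⟨(a (l 2) (b (l 2) (b (l 2) (a (l 2) (b (l 2) (b (l 16949192) (a (l 2) (l 16970160)))))))), by decide +kernel⟩

def k1_pm_012 : ∃ t, chk3 f_pm_012 t 4 6 1 = true :=
  ⟨(a (l 2) (a (b (l 2) (b (l 17083312) (l 16993792))) (b (b (a (b (l 2) (l 17035256)) (l 17043040)) (l 17068520)) (b (l 17000648) (a (l 16933800) (l 16895936)))))), by decide +kernel⟩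

def k2_pm_012 : ∃ t, chk3 f_pm_012 t 8 14 1 = true :=
  ⟨(a (l 2) (a (b (l 2) (l 16813544)) (b (l 16945448) (l 16759728)))), by decide +kernel⟩

def k3_pm_012 : ∃ t, chk3 f_pm_012 t 16 15 1 = true :=
  ⟨(b (a (l 2) (b (l 16777448) (b (l 16711688) (l 16680680)))) (b (a (a (l 2) (c (l 16728704) (l 16594144))) (c (a (l 16647696) (l 16649472)) (b (l 16643184) (a (l 14) (l 16601352))))) (a (c (b (a (l 16702536) (c (l 16729368) (l 16679744))) (a (c (b (l 16725752) (l 16689728)) (b (l 16675584) (a (c (l 16677240) (l 16651592)) (b (l 16658232) (l 16628928))))) (a (c (l 16661792) (b (l 16660272) (b (l 16647712) (c (l 16652432) (l 16604992))))) (b (l 16654736) (c (l 16685712) (c (l 16624952) (l 14))))))) (c (a (b (l 16587664) (c (b (l 16637680) (a (a (l 16628512) (l 16623160)) (l 14))) (l 14))) (b (l 16587736) (l 14))) (l 14))) (b (c (a (c (l 16710080) (l 16638120)) (l 16579672)) (a (l 14) (c (l 14) (l 16559448)))) (a (c (b (c (l 16686288) (a (l 16638920) (l 16627824))) (c (a (l 16654288) (b (l 16668696)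 (l 16639352))) (a (b (l 16625856) (c (l 16609616) (l 14))) (l 14)))) (l 14)) (a (c (b (l 16559584) (c (b (l 16657784) (c (l 16663056) (l 16635400))) (l 14))) (l 14)) (c (b (l 16569240) (c (c (l 16656168) (l 14)) (l 14))) (a (l 14) (b (l 16545344) (c (l 14) (b (l 16524552) (c (l 14) (l 16512760))))))))))))), by decide +kernel⟩

def k4_pm_012 : ∃ t, chk3 f_pm_012 t 17 15 1 = true :=
  ⟨(b (a (b (l 16764224) (c (l 16703432) (l 16663448))) (b (l 16728672) (c (l 16704400) (l 16641696)))) (b (a (c (b (l 16655856) (l 16622568)) (b (l 16617552) (a (l 16592184) (l 16583752)))) (c (a (l 16626584) (l 16605376)) (b (l 16599536) (a (l 16576032) (l 16568992))))) (a (b (c (a (l 16578392) (l 16554920)) (a (c (l 14) (l 16551920)) (c (l 16565984) (l 16545128)))) (a (c (a (b (l 16557624) (c (b (l 16635088) (c (l 16640400) (l 14))) (l 14))) (b (l 16566688) (l 14))) (c (l 14) (b (l 16531064) (a (b (l 16522304) (c (l 14) (a (l 16511376) (l 16510032)))) (b (l 16519472) (c (a (l 14) (l 16516920)) (l 16508112))))))) (c (l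 14) (b (c (l 16544784) (l 16525256)) (c (a (l 14) (a (l 14) (a (l 14) (c (l 14) (l 16524136))))) (a (b (l 16516816) (c (a (l 16515640) (l 16514400)) (l 16505696))) (b (l 16514336) (c (l 16517872) (l 16503448))))))))) (b (c (a (l 14) (c (l 14) (l 16572768))) (a (c (l 16559272) (l 16539024)) (c (l 16553240) (l 16533576)))) (c (a (l 14) (a (l 14) (a (l 14) (b (l 16559336) (c (l 14) (b (l 16540560) (c (l 14) (l 16529888)))))))) (a (b (c (l 16539080) (l 16520136)) (c (a (b (l 16530456) (c (l 14) (a (l 16519976) (l 16518840)))) (a (c (l 14) (l 16520912)) (b (l 16527448) (c (l 16525480) (l 16516696))))) (a (b (l 16512024) (c (l 16510408) (l 16501376))) (c (l 16511392) (l 16502384))))) (b (c (l 16534056) (l 16515664)) (c (a (b (l 16525768) (c (a (l 16524400) (l 16523360)) (l 16515192))) (c (a (l 16525464) (l 16524464)) (l 16516304))) (a (c (l 16509416) (l 16500544)) (l 16503240)))))))))), by decide +kernel⟩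

def k5_pm_012 : ∃ t, chk3 f_pm_012 t 9 14 1 = true :=
  ⟨(a (b (a (l 16906632) (l 16870208)) (a (l 16685936) (b (l 16788608) (l 16734232)))) (b (a (l 16835744) (l 16803088)) (a (b (l 16759448) (l 16709168)) (b (l 16732096) (l 16685848))))), by decide +kernel⟩

def k6_pm_012 : ∃ t, chk3 f_pm_012 t 18 30 1 = true :=
  ⟨(a (b (l 16703392) (c (l 16671336) (l 16622640))) (b (l 16659856) (c (l 16652304) (l 16585240)))), by decide +kernel⟩

def k7_pm_012 : ∃ t, chk3 f_pm_012 t 18 62 1 = true :=
  ⟨(a (a (c (l 16597104) (l 16543712)) (c (l 16589504) (l 16547800))) (a (c (l 16582536) (l 16541992)) (c (l 16576216) (l 16536800)))), by decide +kernel⟩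

def k8_pm_012 : ∃ t, chk3 f_pm_012 t 18 63 1 = true :=
  ⟨(a (b (c (a (c (l 14) (l 16566816)) (c (l 16579824) (l 16561512))) (a (c (l 16547856) (l 16528760)) (c (l 16543088) (l 16524552)))) (c (b (a (c (l 14) (l 16547368)) (c (l 16560144) (l 16543080))) (a (c (l 14) (a (b (l 16538928) (c (l 14) (a (l 16528904) (l 16527960)))) (a (c (l 14) (l 16530096)) (b (l 16536392) (c (l 16534384) (l 16526192)))))) (c (a (l 14) (a (l 14) (b (l 16549104) (c (l 14) (l 16538976))))) (a (b (l 16534992) (c (a (l 16533496) (l 16532648)) (l 16524960))) (c (a (l 16534800) (l 16533984)) (l 16526296)))))) (a (c (b (l 16529664) (a (b (l 16521720) (c (l 16520040) (l 16511616))) (c (l 16521264) (l 16512864)))) (b (l 16511824) (a (l 16501640) (l 16500184)))) (c (b (l 16525888) (a (c (l 16519648) (l 16511368)) (l 16514096))) (b (l 16508568) (a (l 16498880) (l 16497712))))))) (c (b (a (c (l 16574608) (l 16556816)) (c (l 16570016) (l 16552728))) (a (c (b (l 16555960) (a (b (l 16547744) (c (l 14) (a (l 16538176) (l 16537416))))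 (b (l 16546056) (a (c (l 14) (l 16536680)) (c (l 16544968) (l 16535992)))))) (b (l 16539384) (c (b (l 16534912) (a (l 16529952) (l 16528608))) (a (l 16524848) (l 16523536))))) (c (b (l 16552400) (b (a (l 16544512) (l 16543120)) (a (c (a (l 16542944) (l 16542264)) (l 16535016)) (c (a (l 16541624) (l 16541016)) (l 16533848))))) (b (l 16536288) (a (c (l 16530104) (l 16522360)) (c (l 16528960) (l 16521328))))))) (b (a (l 16540416) (l 16537088)) (a (c (b (l 16522688) (a (l 16512824) (l 16511688))) (b (l 16505872) (l 16496224))) (c (b (l 16520072) (a (l 16510688) (l 16509824))) (b (l 16503736) (l 16494712))))))), by decide +kernel⟩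

def k9_pm_012 : ∃ t, chk3 f_pm_012 t 19 15 1 = true :=
  ⟨(b (a (b (l 16639248) (c (l 16635136) (l 16591616))) (b (l 16620472) (c (l 16620776) (b (l 16588536) (l 16570432))))) (b (a (a (c (l 16570240) (l 16552936)) (b (l 16577256) (c (l 16575104) (l 16539424)))) (c (b (l 16590680) (a (l 16573048) (l 16572280))) (b (l 16553672) (a (l 16538288) (l 16538336))))) (a (b (a (c (b (l 16562808) (l 16552072)) (c (l 16532224) (l 16515248))) (c (b (l 16560168) (l 16551048)) (l 16543808))) (a (c (a (a (b (l 16542464) (c (b (l 16542112) (c (l 16540576) (l 16533176))) (l 16524488))) (b (l 16541752) (c (b (l 16541792) (l 16537096)) (l 16524536)))) (b (l 16541568) (c (b (l 16542336) (c (l 16541504) (l 16534216))) (l 16525288)))) (c (b (l 16518352) (a (l 16509488) (l 16510360))) (a (l 16498408) (l 16498856)))) (b (c (c (l 16550096) (l 16534832)) (l 16511712)) (c (c (b (l 16543512) (c (a (l 16542376) (l 16543160)) (a (l 16535176) (l 16536040)))) (a (l 16526320) (l 16527256))) (c (l 16512120) (l 16497312)))))) (c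 (b (a (l 16555896) (l 16555944)) (a (b (c (l 16550968) (l 16536072)) (c (b (l 16544736) (c (a (l 16543840) (l 16544432)) (a (l 16536816) (l 16537496)))) (a (l 16528096) (l 16528864)))) (b (c (l 16551504) (l 16536992)) (c (b (l 16545624) (b (l 16547976) (a (l 16551040) (l 16541064)))) (a (l 16529544) (l 16530160)))))) (b (a (l 16523808) (l 16524640)) (b (a (l 16513488) (l 16514960)) (a (c (l 16524648) (l 16499688)) (c (l 16515896) (l 16501768))))))))), by decide +kernel⟩

def k10_pm_012 : ∃ t, chk3 f_pm_012 t 5 2 1 = true :=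
  ⟨(b (a (b (a (b (l 51640304215) (l 16855672)) (b (l 16863568) (l 16881936))) (a (l 16821648) (l 16912880))) (b (a (l 16866544) (l 16854136)) (a (l 16900960) (l 16884008)))) (a (a (b (l 16927504) (b (l 16959712) (b (a (l 16968104) (l 16966288)) (a (l 16993392) (l 17033232))))) (b (l 16920136) (b (a (l 16985208) (b (l 16991808) (b (l 17002520) (l 17006680)))) (a (b (l 16976360) (l 17018392)) (l 16995392))))) (b (a (b (l 16931368) (l 16954504)) (b (l 16910344) (b (l 16925176) (a (l 16941104) (c (l 16959736) (b (l 16892048) (l 16892160))))))) (a (b (b (a (l 16979216) (b (l 16962944) (l 16965264))) (a (l 16963352) (l 16957944))) (a (l 16964472) (l 16932368))) (a (b (b (c (l 16978304) (l 16907640)) (l 16929296)) (l 16900920)) (b (l 16909488) (l 16870000))))))), by decide +kernel⟩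

def k11_pm_012 : ∃ t, chk3 f_pm_012 t 5 6 1 = true :=
  ⟨(a (b (a (b (l 16979360) (l 16991880)) (b (l 16972928) (l 16916736))) (a (b (l 16922520) (a (l 16859560) (l 16824760))) (b (a (l 16866768) (l 16831848)) (a (l 16792008) (l 16742208))))) (b (a (b (a (l 16919864) (l 16885688)) (a (l 16862896) (l 16830808))) (b (a (l 16853784) (l 16821936)) (a (l 16800080) (l 16769464)))) (a (b (a (l 16800560) (l 16772112)) (a (c (l 16765504) (l 16710264)) (c (l 16739112) (l 16686968)))) (b (a (l 16701936) (c (l 16741952) (l 16690224))) (a (c (l 16713088) (l 16664152)) (c (l 16687584) (l 16641984))))))), by decide +kernel⟩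

def k12_pm_012 : ∃ t, chk3 f_pm_012 t 10 14 1 = true :=
  ⟨(a (b (a (l 16772064) (b (l 16763032) (l 16722680))) (a (b (l 16706312) (l 16664736)) (b (l 16684360) (l 16627712)))) (b (a (b (l 16735792) (l 16700464)) (b (l 16713344) (l 16681424))) (a (b (l 16667304) (c (l 16657416) (l 16613752))) (b (l 16650872) (c (l 16642664) (l 16601552)))))), by decide +kernel⟩

def k13_pm_012 : ∃ t, chk3 f_pm_012 t 20 15 1 = true :=
  ⟨(b (b (a (c (l 16648368) (l 16604552)) (c (l 16636936) (l 16595360))) (a (c (l 16611744) (b (l 16580264) (l 16565352))) (c (b (l 16612080) (l 16596408)) (b (l 16574016) (l 16560736))))) (b (a (c (b (l 16586384) (a (l 16571152) (l 16569776))) (b (l 16551200) (a (l 16538064) (l 16537592)))) (c (b (l 16581496) (a (l 16568208) (l 16566472))) (b (l 16548248) (a (l 16536944) (l 16536168))))) (c (b (a (a (c (l 16563256) (l 16548136)) (c (l 16562560) (l 16547872))) (a (c (l 16561648) (l 16547408)) (c (l 16560560) (l 16546784)))) (a (a (c (b (l 16551752) (a (c (l 16547608) (l 16540872)) (c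 (l 16547840) (l 16541208)))) (b (l 16537632) (a (l 16530696) (l 16531176)))) (c (b (l 16551736) (b (l 16546536) (a (l 16543024) (l 16543248)))) (b (l 16538032) (c (l 16535080) (l 16528520))))) (a (c (b (l 16551504) (c (a (l 16548176) (l 16548184)) (l 16541928))) (b (l 16538232) (c (l 16535616) (l 16529264)))) (b (a (l 16544744) (l 16544616)) (c (a (l 16545104) (l 16545080)) (l 16532920)))))) (b (a (a (l 16525224) (l 16525592)) (a (l 16525792) (l 16525864))) (b (a (a (l 16516192) (l 16517200)) (a (l 16518040) (l 16518744))) (a (a (c (l 16517360) (l 16503616)) (c (l 16518608) (l 16505256))) (a (c (l 16519664) (l 16506728)) (c (l 16520576) (l 16508064))))))))), by decide +kernel⟩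

def k14_pm_012 : ∃ t, chk3 f_pm_012 t 21 15 1 = true :=
  ⟨(b (b (a (c (l 16625576) (l 16586320)) (c (l 16613992) (l 16577168))) (a (c (b (l 16603208) (l 16589232)) (b (l 16567368) (l 16555704))) (c (b (l 16594080) (l 16581776)) (b (l 16560576) (l 16550520))))) (b (a (c (b (l 16576032) (a (l 16564600) (l 16562640))) (b (l 16544856) (a (l 16535304) (l 16534368)))) (c (b (l 16570272) (c (l 16566216) (l 16553008))) (b (l 16541288) (l 16543432)))) (c (a (b (a (c (l 16559328) (l 16546040)) (c (l 16557992) (l 16545192))) (a (b (a (l 16544448) (l 16544256)) (c (a (l 16545024) (l 16544944)) (l 16533264))) (c (b (l 16549864) (c (l 16547568) (l 16541976))) (l 16535744)))) (b (a (c (l 16556576) (l 16544296)) (c (l 16555120) (l 16543368))) (a (c (b (l 16549112) (l 16544472)) (l 16535704)) (c (b (l 16548312) (l 16544112)) (l 16535632))))) (a (b (a (l 16525824) (l 16525728)) (a (c (l 16523512) (l 16511144)) (c (l 16524016) (l 16512120)))) (b (a (l 16525592) (l 16525456)) (a (l 16518784) (l 16519480))))))), by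 decide +kernel⟩

def k15_pm_012 : ∃ t, chk3 f_pm_012 t 11 7 1 = true :=
  ⟨(b (a (b (a (b (l 16691664) (l 16662328)) (b (l 16670296) (l 16643544))) (a (b (l 16592600) (c (l 16627936) (l 16589496))) (b (c (l 16638320) (l 16598728)) (c (l 16613464) (l 16577792))))) (b (a (b (l 16649400) (l 16625248)) (b (l 16629152) (l 16607600))) (a (b (c (l 16621312) (l 16584704)) (c (l 16599392) (l 16566616))) (b (l 16567184) (c (l 16586040) (l 16556256)))))) (b (a (b (a (c (l 16602408) (l 16568128)) (c (l 16591040) (l 16559432))) (a (c (b (l 16584936) (l 16574288)) (b (l 16553880) (l 16545416))) (c (b (l 16575968) (l 16566968)) (l 16544024)))) (b (a (c (l 16580096) (l 16551264)) (c (l 16569904) (l 16543952))) (a (c (b (l 16567496) (l 16560152)) (l 16539048)) (c (b (l 16559768) (l 16554128)) (l 16534904))))) (a (b (a (c (b (l 16564456) (a (l 16556504) (l 16554456))) (b (l 16537800) (l 16531056))) (c (b (l 16558824) (c (l 16557032) (l 16546128))) (b (l 16534600) (l 16529536)))) (c (a (b (a (c (l 16553648) (l 16542432))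 (l 16567848)) (a (c (b (l 16547496) (l 16543736)) (l 16535560)) (c (l 16545048) (l 16535544)))) (a (b (l 16545784) (a (l 16540136) (l 16540072))) (b (l 16544832) (l 16540056)))) (a (b (l 16546288) (a (l 16520192) (l 16520984))) (b (l 16525456) (l 16522448))))) (b (a (c (b (l 16553720) (c (l 16553040) (l 16543384))) (b (l 16532048) (l 16528656))) (c (b (l 16549384) (l 16545600)) (l 16529456))) (a (a (c (b (l 16544032) (l 16540136)) (l 16525048)) (c (b (l 16543400) (l 16540376)) (l 16526064))) (a (c (a (l 16541792) (l 16541824)) (l 16527272)) (c (l 16552464) (l 16528696)))))))), by decide +kernel⟩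

def k16_pm_012 : ∃ t, chk3 f_pm_012 t 6 2 1 = true :=
  ⟨(b (a (b (a (l 16838640) (b (l 16814000) (l 16823544))) (a (a (l 16869632) (l 16859248)) (b (l 16834328) (l 16825448)))) (b (a (b (l 16787872) (l 16795368)) (b (l 16754424) (l 16760160))) (a (b (l 16804160) (a (l 16822904) (b (l 16802552) (l 16807064)))) (b (l 16746224) (a (b (l 16783416) (a (l 16790816) (l 16777656))) (b (l 16761128) (l 16753960))))))) (a (b (a (b (a (l 16893680) (l 16881320)) (a (a (b (l 16910248) (l 16911304)) (b (l 16902936) (l 16898392))) (b (c (l 16921104) (b (l 16857704) (l 16855912))) (l 16877408)))) (b (a (a (l 16870656) (a (l 16843744) (b (l 16858144) (l 16863392)))) (b (l 16848392) (a (b (l 16856720) (l 16854104)) (l 16842624)))) (a (c (l 16887952) (b (l 16832944) (l 16816808))) (l 16825968)))) (a (a (b (l 16880504) (l 16838976)) (b (l 16850552) (l 16808624))) (b (a (l 16819824) (l 16788704)) (a (l 16778440) (l 16727672))))) (b (a (b (a (b (c (l 16857808) (b (l 16800896) (l 16800336))) (l 16820024)) (a (b (l 16811304)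 (l 16796096)) (l 16788328))) (a (l 16794384) (l 16762264))) (b (a (l 16763456) (l 16730080)) (a (l 16730088) (l 16698312)))) (a (b (a (l 16757544) (l 16726744)) (a (l 16669744) (c (l 16714936) (l 16667920)))) (b (a (l 16696664) (l 16667544)) (a (c (l 16686288) (l 16642648)) (c (l 16658936) (l 16618696)))))))), by decide +kernel⟩

def k17_pm_012 : ∃ t, chk3 f_pm_012 t 7 2 1 = true :=
  ⟨(a (b (b (a (b (l 16714536) (l 16718672)) (b (l 16669232) (a (l 16684064) (l 16659168)))) (a (b (a (l 16735184) (b (l 16711184) (l 16710568))) (a (b (c (l 16756912) (l 16710288)) (l 16719568)) (l 16692528))) (b (a (b (l 16685784) (l 16678768)) (l 16649560)) (a (l 16658032) (l 16624344))))) (a (b (b (a (l 16696752) (l 16663912)) (a (l 16667264) (l 16637240))) (b (a (l 16639600) (l 16613008)) (a (l 16604064) (l 16591848)))) (b (a (b (l 16631968) (l 16608488)) (b (l 16601232) (l 16581224))) (b (a (l 16587920) (l 16564480)) (a (l 16570760) (l 16551368)))))) (b (a (b (b (l 16619728) (a (l 16631432) (l 16601048))) (a (l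 16624272) (l 16570848))) (b (b (a (l 16579824) (l 16550824)) (a (l 16568232) (l 16534968))) (a (l 16540184) (l 16511600)))) (a (b (a (b (l 16572008) (l 16555640)) (b (l 16544536) (l 16531896))) (a (b (l 16542784) (l 16533736)) (b (l 16522944) (l 16517904)))) (b (a (b (l 16519016) (l 16510120)) (b (l 16495624) (l 16490424))) (a (b (l 16505032) (l 16503920)) (b (l 16489120) (l 16491816))))))), by decide +kernel⟩

def k18_pm_012 : ∃ t, chk3 f_pm_012 t 6 6 1 = true :=
  ⟨(a (b (a (b (a (l 16791440) (l 16741920)) (a (c (l 16768432) (l 16714336)) (c (l 16741920) (l 16690632)))) (b (a (c (l 16761544) (l 16708648)) (c (l 16733064) (l 16683264))) (a (c (l 16716384) (l 16646984)) (b (l 16678576) (l 16659864))))) (a (b (a (c (l 16716120) (l 16667408)) (b (l 16682072) (l 16660376))) (a (b (l 16656264) (l 16634200)) (c (l 16650568) (b (l 16618896) (l 16601272))))) (b (a (c (l 16673744) (b (l 16639104) (l 16621320))) (c (l 16654456) (b (l 16621168) (l 16605936)))) (a (c (l 16614712) (b (l 16604880) (l 16590104)))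 (c (b (l 16629432) (l 16614880)) (b (l 16592216) (l 16580232))))))) (b (a (b (a (c (l 16705704) (l 16659032)) (c (l 16679656) (l 16636136))) (a (b (l 16655896) (l 16618560)) (c (l 16647576) (b (l 16614368) (l 16601344))))) (b (a (c (l 16655016) (l 16614664)) (c (l 16631856) (l 16594664))) (a (c (l 16627560) (b (l 16596112) (l 16585384))) (c (l 16609064) (b (l 16579368) (l 16570920)))))) (a (b (a (c (l 16636608) (b (l 16604680) (l 16591984))) (c (l 16620200) (b (l 16589640) (l 16579448)))) (a (c (b (l 16615752) (l 16604080)) (b (l 16580904) (l 16571624))) (c (b (l 16603424) (l 16594552)) (b (l 16570936) (l 16564296))))) (b (a (c (l 16594760) (b (l 16576064) (l 16568328))) (c (b (l 16595336) (l 16588224)) (b (l 16563960) (l 16558616)))) (a (c (b (l 16592448) (l 16586288)) (b (l 16562320) (l 16558224))) (b (c (l 16582824) (l 16555048)) (c (l 16579288) (l 16553400)))))))), by decide +kernel⟩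

def k19_pm_012 : ∃ t, chk3 f_pm_012 t 6 14 1 = true :=
  ⟨(a (a (b (a (b (l 16613736) (c (l 16612496) (l 16577880))) (b (c (l 16621392) (l 16585408)) (c (l 16604488) (l 16571648)))) (a (b (c (l 16594408) (l 16563248)) (c (l 16578848) (l 16551248))) (b (c (l 16589832) (l 16560232)) (c (l 16577728) (l 16551456))))) (b (a (b (c (l 16611216) (l 16577224)) (c (l 16597528) (l 16566480))) (b (c (l 16602192) (l 16570208)) (c (l 16591616) (l 16562376)))) (a (b (c (l 16586152) (l 16558136)) (c (l 16577328) (l 16552432))) (b (c (l 16583368) (l 16556960)) (c (l 16577688) (l 16554192)))))) (a (b (a (b (c (l 16594336) (l 16564368)) (c (l 16586736) (l 16559328))) (b (c (l 16587648) (l 16559696)) (c (l 16582912) (a (l 16557712) (l 16556976))))) (a (b (c (l 16581488) (a (l 16556664) (l 16556768))) (c (l 16578800) (a (l 16556000) (l 16557464)))) (b (c (l 16580520) (a (l 16557112) (l 16557680))) (c (l 16580680) (a (l 16559128) (l 16560992)))))) (b (a (b (a (l 16559616) (l 16557648)) (c (l 16580128) (a (l 16556504)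 (l 16556288)))) (b (a (l 16566448) (l 16565056)) (c (l 16578384) (a (l 16556344) (l 16556648))))) (c (a (b (l 16580472) (l 16583344)) (b (l 16581336) (a (l 16585824) (l 16587728)))) (a (b (a (l 16558480) (l 16559512)) (a (l 16563056) (l 16565320))) (b (a (l 16560784) (l 16562272)) (a (l 16567784) (l 16570448)))))))), by decide +kernel⟩

def k20_pm_012 : ∃ t, chk3 f_pm_012 t 6 15 1 = true :=
  ⟨(a (b (a (b (a (c (l 16566128) (l 16542184)) (c (l 16568456) (l 16545616))) (a (c (b (l 16558560) (l 16554632)) (l 16536368)) (c (l 16562328) (l 16542992)))) (a (b (c (l 16571344) (l 16549648)) (c (l 16568472) (l 16550048))) (b (c (l 16574824) (l 16554312)) (c (l 16575024) (l 16557568))))) (a (b (a (c (b (l 16551600) (l 16549520)) (l 16534152)) (c (b (l 16559896) (l 16559480)) (l 16543904))) (a (c (b (l 16548432) (l 16548384)) (l 16556864)) (c (b (l 16560032) (l 16561600)) (l 16548680)))) (b (a (c (b (l 16568440) (l 16569592)) (l 16553920)) (c (l 16599528) (l 16564232))) (a (c (b (l 16571696) (l 16574784))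 (l 16561552)) (c (b (l 16583472) (l 16587992)) (l 16595536)))))) (b (a (b (a (c (l 16578904) (l 16570096)) (c (l 16583600) (a (l 16563984) (l 16567120)))) (a (c (l 16582016) (l 16586544)) (c (l 16599960) (b (l 16571576) (l 16576632))))) (b (a (c (a (l 16587504) (l 16590328)) (a (l 16570424) (l 16573888))) (c (a (l 16593304) (l 16596432)) (a (l 16577528) (l 16581336)))) (a (c (b (l 16594920) (l 16599920)) (b (l 16580000) (l 16586248))) (c (b (l 16602720) (l 16608928)) (b (l 16588992) (l 16596360)))))) (c (a (b (a (l 16609376) (b (l 16595880) (l 16601248))) (a (b (l 16595392) (l 16601264)) (b (l 16607480) (l 16614616)))) (b (a (b (l 16605712) (l 16612320)) (b (l 16615912) (l 16623696))) (a (b (l 16619768) (l 16628104)) (b (l 16632296) (l 16662720))))) (a (b (a (l 16595840) (b (l 16582520) (l 16589256))) (a (l 16608712) (b (l 16596888) (l 16605432)))) (b (a (b (l 16593304) (l 16601192)) (b (l 16604520) (l 16613488))) (a (b (l 16609944) (l 16619592)) (b (l 16623296) (l 16633976)))))))), by decide +kernel⟩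

def k21_pm_012 : ∃ t, chk3 f_pm_012 t 7 6 1 = true :=
  ⟨(a (b (a (b (a (c (l 16610240) (l 16576192)) (c (l 16590224) (l 16559304))) (a (b (l 16580024) (l 16573064)) (a (l 16565880) (l 16559296)))) (b (a (c (l 16571856) (l 16544032)) (c (l 16555160) (l 16530416))) (a (c (l 16562944) (l 16537528)) (c (l 16550736) (l 16528112))))) (a (b (a (c (l 16579712) (b (l 16553320) (l 16550320))) (c (l 16569128) (b (l 16544152) (l 16543424)))) (a (b (c (l 16574552) (l 16549112)) (c (l 16573544) (l 16549832))) (b (c (l 16567616) (l 16544496)) (c (l 16569032) (l 16547488))))) (b (a (b (l 16548128) (l 16548944)) (b (l 16540600) (l 16543608))) (a (b (c (l 16562000) (l 16541192)) (c (l 16565752) (l 16546376))) (b (l 16548368) (c (l 16563680) (l 16546464))))))) (a (b (b (a (l 16529256) (l 16517504)) (a (b (l 16529184) (l 16531080)) (b (l 16520496) (l 16524440)))) (b (a (b (l 16534536) (l 16539656)) (b (l 16529936) (l 16537072))) (a (b (l 16546512) (c (l 16562824) (l 16547736))) (b (l 16545936) (a (l 16556136) (l 16557128))))))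 (b (a (b (l 16507472) (b (l 16513432) (l 16519336))) (b (l 16520152) (a (l 16512832) (l 16510976)))) (b (a (b (l 16526792) (l 16535856)) (a (l 16530576) (l 16551504))) (b (a (l 16546624) (a (l 16547952) (l 16549232))) (a (a (l 16558416) (l 16559984)) (a (l 16561848) (l 16563992)))))))), by decide +kernel⟩

def k22_pm_012 : ∃ t, chk3 f_pm_012 t 14 14 1 = true :=
  ⟨(a (b (a (a (b (l 16563944) (l 16567424)) (b (l 16563120) (l 16567784))) (b (c (l 16572440) (l 16552536)) (c (l 16577968) (l 16559776)))) (a (b (c (l 16583096) (a (l 16564000) (l 16565960))) (c (a (l 16589832) (l 16592120)) (a (l 16573312) (l 16576368)))) (b (c (l 16585752) (a (l 16568136) (l 16570552))) (c (a (l 16594608) (l 16597296)) (a (l 16579632) (l 16583088)))))) (b (a (b (c (l 16571472) (l 16553584)) (c (l 16579280) (l 16562952))) (b (c (l 16571608) (l 16555736)) (c (l 16581600) (l 16567128)))) (a (a (b (l 16580704) (c (l 16600176) (l 16586744))) (b (l 16583136) (c (l 16603248) (l 16590592)))) (a (b (l 16585792) (c (l 16606520)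 (l 16594640))) (b (l 16588672) (c (l 16609984) (l 16598880))))))), by decide +kernel⟩

def k23_pm_012 : ∃ t, chk3 f_pm_012 t 14 15 1 = true :=
  ⟨(b (a (b (a (c (a (l 16599728) (l 16603184)) (a (l 16585304) (l 16589448))) (c (a (l 16606800) (l 16610584)) (a (l 16593752) (l 16598232)))) (a (c (b (l 16611056) (l 16618416)) (b (l 16598552) (l 16606984))) (c (b (l 16619952) (l 16628384)) (b (l 16608696) (l 16618120))))) (b (a (c (a (l 16614536) (l 16618648)) (a (l 16602872) (l 16607680))) (a (c (l 16622936) (l 16612664)) (c (l 16627384) (l 16617808)))) (b (a (c (l 16629408) (l 16619424)) (c (l 16639448) (l 16641224))) (a (c (l 16638864) (l 16640272)) (a (l 16642952) (l 16648888)))))) (b (a (a (b (c (l 16626520) (l 16616176)) (c (l 16635408) (l 16626160))) (b (c (l 16637552) (l 16649264)) (c (l 16657968) (l 16649712)))) (a (a (b (l 16662856) (l 16663520)) (b (l 16658504) (c (l 16663104) (l 16656128)))) (b (a (l 16664752) (c (l 16664024) (l 16657256))) (a (c (l 16669536) (l 16663072)) (c (l 16676072) (l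 16670128)))))) (a (a (a (b (l 16637688) (l 16669496)) (b (l 16665352) (l 16671432))) (a (b (l 16661632) (c (l 16666128) (l 16659736))) (b (c (l 16661488) (l 16654504)) (c (l 16673232) (l 16667256))))) (a (b (c (a (l 16668200) (l 16674992)) (a (l 16661672) (l 16668936))) (c (a (l 16690888) (b (l 16684392) (l 16690912))) (a (l 16674856) (l 16693008)))) (b (a (c (l 16692352) (l 16676288)) (c (l 16699328) (l 16694224))) (b (c (a (l 16691600) (l 16698888)) (a (l 16686688) (l 16694424))) (a (c (l 16698336) (l 16693880)) (c (l 16716320) (l 16701808))))))))), by decide +kernel⟩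

def k24_pm_012 : ∃ t, chk3 f_pm_012 t 15 7 1 = true :=
  ⟨(b (a (b (a (b (c (l 16572864) (l 16558976)) (a (l 16577384) (l 16579760))) (b (a (l 16568248) (l 16570184)) (a (l 16582368) (l 16585232)))) (a (b (a (l 16591768) (l 16595088)) (a (c (l 16613640) (l 16603312)) (c (l 16617504) (l 16607936)))) (b (a (l 16598624) (l 16602384)) (a (c (l 16621552) (l 16612752)) (c (l 16625800) (l 16617760)))))) (b (a (b (a (l 16572384) (l 16574848)) (a (l 16588328) (l 16591672))) (a (b (l 16577576) (l 16595248)) (b (l 16580568) (a (l 16598088) (l 16600056))))) (a (b (a (l 16606352) (l 16631520)) (a (c (l 16630240) (l 16622960)) (b (l 16626056) (l 16637128)))) (a (b (c (l 16618376) (l 16611608)) (b (l 16631056) (l 6))) (b (a (l 16618392) (l 6)) (l 6)))))) (a (b (b (b (a (a (l 16622464) (l 16627384)) (a (l 16632472) (l 16637736))) (a (a (l 16632640) (l 16637992)) (a (l 16643512) (l 16649184)))) (b (a (a (l 16643464) (l 16649248)) (a (l 16655176) (l 16671744))) (a (a (l 16665440) (c (l 16664360) (l 16657976))) (a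 (c (l 16670392) (l 16664608)) (c (l 16676568) (l 16671384)))))) (a (b (b (a (c (l 16670232) (l 16664024)) (c (l 16676568) (l 16670920))) (a (c (l 16682712) (l 16677288)) (c (l 16699944) (l 16695056)))) (b (b (a (c (l 16692520) (l 16687696)) (c (l 16699576) (l 16695256))) (a (c (l 16699296) (l 16694880)) (l 6))) (a (c (b (l 16706256) (c (l 16714288) (l 16712528))) (b (l 16702256) (l 16720304))) (l 6)))) (b (b (a (c (l 16683016) (l 16677936)) (l 6)) (l 6)) (l 6)))) (b (a (a (b (b (l 16643168) (l 16655024)) (l 6)) (l 6)) (l 6)) (l 6)))), by decide +kernel⟩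

theorem s25_pm_012 : ∃ t, chk3 f_pm_012 t 14 7 1 = true := ex3_b k22_pm_012 k23_pm_012

theorem s26_pm_012 : ∃ t, chk3 f_pm_012 t 7 7 1 = true := ex3_a s25_pm_012 k24_pm_012

theorem s27_pm_012 : ∃ t, chk3 f_pm_012 t 7 3 1 = true := ex3_b k21_pm_012 s26_pm_012

theorem s28_pm_012 : ∃ t, chk3 f_pm_012 t 6 7 1 = true := ex3_b k19_pm_012 k20_pm_012

theorem s29_pm_012 : ∃ t, chk3 f_pm_012 t 6 3 1 = true := ex3_b k18_pm_012 s28_pm_012

theorem s30_pm_012 : ∃ t, chk3 f_pm_012 t 3 3 1 = true := ex3_a s29_pm_012 s27_pm_012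

theorem s31_pm_012 : ∃ t, chk3 f_pm_012 t 3 2 1 = true := ex3_a k16_pm_012 k17_pm_012

theorem s32_pm_012 : ∃ t, chk3 f_pm_012 t 3 1 1 = true := ex3_b s31_pm_012 s30_pm_012

theorem s33_pm_012 : ∃ t, chk3 f_pm_012 t 10 15 1 = true := ex3_a k13_pm_012 k14_pm_012

theorem s34_pm_012 : ∃ t, chk3 f_pm_012 t 10 7 1 = true := ex3_b k12_pm_012 s33_pm_012

theorem s35_pm_012 : ∃ t, chk3 f_pm_012 t 5 7 1 = true := ex3_a s34_pm_012 k15_pm_012

theorem s36_pm_012 : ∃ t, chk3 f_pm_012 t 5 3 1 = true := ex3_b k11_pm_012 s35_pm_012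

theorem s37_pm_012 : ∃ t, chk3 f_pm_012 t 5 1 1 = true := ex3_b k10_pm_012 s36_pm_012

theorem s38_pm_012 : ∃ t, chk3 f_pm_012 t 18 31 1 = true := ex3_b k7_pm_012 k8_pm_012

theorem s39_pm_012 : ∃ t, chk3 f_pm_012 t 18 15 1 = true := ex3_b k6_pm_012 s38_pm_012

theorem s40_pm_012 : ∃ t, chk3 f_pm_012 t 9 15 1 = true := ex3_a s39_pm_012 k9_pm_012

theorem s41_pm_012 : ∃ t, chk3 f_pm_012 t 9 7 1 = true := ex3_b k5_pm_012 s40_pm_012

theorem s42_pm_012 : ∃ t, chk3 f_pm_012 t 8 15 1 = true := ex3_a k3_pm_012 k4_pm_012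

theorem s43_pm_012 : ∃ t, chk3 f_pm_012 t 8 7 1 = true := ex3_b k2_pm_012 s42_pm_012

theorem s44_pm_012 : ∃ t, chk3 f_pm_012 t 4 7 1 = true := ex3_a s43_pm_012 s41_pm_012

theorem s45_pm_012 : ∃ t, chk3 f_pm_012 t 4 3 1 = true := ex3_b k1_pm_012 s44_pm_012

theorem s46_pm_012 : ∃ t, chk3 f_pm_012 t 4 1 1 = true := ex3_b k0_pm_012 s45_pm_012

theorem s47_pm_012 : ∃ t, chk3 f_pm_012 t 2 1 1 = true := ex3_a s46_pm_012 s37_pm_012

theorem s48_pm_012 : ∃ t, chk3 f_pm_012 t 1 1 1 = true := ex3_a s47_pm_012 s32_pm_012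

theorem c_pm_012 : CertN 0 536870912 0 536870912 469762048 67108864 3 false true false .pnp 0 1 2
    ndN0q0 ndN0q2 pcN1 cut_pm_012 Ext.none :=
  certN2 (fam := false) (s1 := true) (s2 := false) (a := 0) (b := 1) (c := 2) (cn := .pnp) (n1 := ndN0q0) (n2 := ndN0q2) (pc := pcN1) (cut := cut_pm_012) (xt := Ext.none) (P1 := 0) (W1 := 536870912) (P2 := 0) (W2 := 536870912) (P3 := 469762048) (W3 := 67108864) (N0 := 3)
    rfl (fun _ => rfl) s48_pm_012

noncomputable def cut_pm_022 : Cut := Cut.of [[⟨0, 0, 0, 67108864⟩, ⟨1, 1, 0, 67108864⟩, ⟨2, 1, 0, 67108864⟩]]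

noncomputable def f_pm_022 : ℕ → ℕ → ℕ → ℕ → Bool := onCell 0 536870912 0 536870912 469762048 67108864
    (rowN 3 0 false true false .pp 0 2 2 (qsf 0 536870912 0 536870912 2) ndN0q0 ndN0q2 pcN2 cut_pm_022 Ext.none)

def k0_pm_022 : ∃ t, chk3 f_pm_022 t 2 2 1 = true :=
  ⟨(a (b (a (b (a (b (l 16511416) (l 16468224)) (b (l 16471728) (l 16469560))) (a (l 16493352) (l 16468904))) (b (b (l 16535304) (a (l 16469392) (b (l 16466544) (l 16464712)))) (a (l 16464136) (l 16478592)))) (a (b (a (b (l 16482616) (l 16493328)) (l 16562624)) (a (b (l 16569024) (a (l 16524632) (l 16516632))) (b (l 16492336) (l 16545976)))) (b (a (l 16509912) (l 16518296)) (a (b (l 16477136) (l 16506896)) (a (l 16509896) (l 16437128)))))) (a (a (b (b (b (l 16463816) (l 16457512)) (b (l 16453168) (l 16445056))) (b (l 16440400) (a (l 16447592) (l 1)))) (b (b (l 1) (l 1)) (l 1))) (l 1))), by decide +kernel⟩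

def k1_pm_022 : ∃ t, chk3 f_pm_022 t 2 3 1 = true :=
  ⟨(a (b (a (a (b (a (b (b (l 16537296) (l 16546528)) (b (l 16556392) (l 16587880))) (b (l 16532584) (l 16571912))) (b (b (a (a (l 16581000) (l 16575208)) (l 16566360)) (a (a (l 16593064) (l 16586944)) (l 16577592))) (a (b (a (c (l 16610464) (l 16601240)) (l 16599416)) (a (c (l 16623680) (l 16615176)) (l 16612664))) (b (l 16610536) (a (l 16605792) (l 16598824)))))) (a (b (b (l 16522880) (l 16539856)) (b (l 16596248) (b (l 16576104) (l 16609144)))) (b (b (l 16512808) (l 16528384)) (b (l 16567664) (b (l 16562216) (l 16573600)))))) (b (a (b (l 16559800) (c (l 16555784) (l 16569768))) (b (l 16459496) (a (l 16491152) (l 1)))) (a (b (a (l 16575328) (l 16498592)) (a (a (l 16577928) (l 16591416)) (l 16545520))) (b (a (l 16505184) (l 1)) (l 1))))) (a (b (b (a (a (a (b (c (l 16637672) (l 16650928)) (b (a (l 16646960) (l 16643312)) (l 6))) (b (l 16647688) (c (l 16644848) (l 16638408)))) (b (a (l 16619520) (l 16612216)) (a (l 16655072) (l 16626464)))) (a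 (a (b (l 16604816) (l 16618720)) (b (l 16597296) (l 16610872))) (b (l 16627744) (a (l 16602896) (l 16615776))))) (a (l 6) (a (l 6) (a (l 6) (a (l 6) (l 1)))))) (a (l 6) (a (l 6) (l 1)))) (b (a (b (a (b (l 16559560) (l 16582408)) (l 1)) (l 1)) (l 1)) (l 1)))) (b (l 1) (l 1))), by decide +kernel⟩

def k2_pm_022 : ∃ t, chk3 f_pm_022 t 3 1 1 = true :=
  ⟨(l 1), by decide +kernel⟩

theorem s3_pm_022 : ∃ t, chk3 f_pm_022 t 2 1 1 = true := ex3_b k0_pm_022 k1_pm_022

theorem s4_pm_022 : ∃ t, chk3 f_pm_022 t 1 1 1 = true := ex3_a s3_pm_022 k2_pm_022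

theorem c_pm_022 : CertN 0 536870912 0 536870912 469762048 67108864 3 false true false .pp 0 2 2
    ndN0q0 ndN0q2 pcN2 cut_pm_022 Ext.none :=
  certN0 (fam := false) (s1 := true) (s2 := false) (a := 0) (b := 2) (c := 2) (cn := .pp) (n1 := ndN0q0) (n2 := ndN0q2) (pc := pcN2) (cut := cut_pm_022) (xt := Ext.none) (P1 := 0) (W1 := 536870912) (P2 := 0) (W2 := 536870912) (P3 := 469762048) (W3 := 67108864) (N0 := 3)
    rfl s4_pm_022

noncomputable def cut_pm_101 : Cut := Cut.of [[⟨0, 1, 0, 53687091⟩, ⟨1, 0, 0, 53687091⟩, ⟨2, 1, 0, 53687091⟩], [⟨0, 0, 1, 33554432⟩, ⟨1, 1, 2, 33554432⟩, ⟨2, 1, 0, 33554432⟩]]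

noncomputable def f_pm_101 : ℕ → ℕ → ℕ → ℕ → Bool := onCell 536870912 536870912 536870912 536870912 469762048 67108864
    (rowN 3 0 false true false .npn 1 0 1 (qsf 536870912 536870912 536870912 536870912 0) ndN0q1 ndN0q1 pcN0 cut_pm_101 Ext.none)

def k0_pm_101 : ∃ t, chk3 f_pm_101 t 8 4 1 = true :=
  ⟨(b (l 4) (a (b (l 4) (b (l 4) (a (l 4) (b (l 4) (a (l 4) (b (l 4) (a (l 4) (b (l 220888845207) (a (l 213372650919) (l 146263793239)))))))))) (b (b (l 4) (a (l 4) (a (l 4) (b (l 4) (a (l 4) (b (l 4) (l 228405037751))))))) (a (b (a (l 4) (b (l 4) (a (l 4) (b (l 4) (a (l 234847490103) (l 223573199319)))))) (b (a (a (l 4) (b (l 4) (a (l 234847490183) (l 220888844711)))) (a (b (a (l 234847490199) (l 222499457543)) (a (l 204245844535) (l 16784584))) (b (l 204245854231) (l 16782576)))) (a (a (b (a (l 230552522695) (b (l 234310618311) (l 216057010119))) (a (b (l 211225171767) (l 16784328)) (l 16783752))) (b (a (l 201561489559) (l 16784256)) (l 16781288))) (a (l 16764048) (l 16774280))))) (b (b (a (a (l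 4) (b (l 4) (l 226794425303))) (a (b (l 227331296055) (l 209077690599)) (b (l 214983269927) (l 16783440)))) (a (a (b (l 227331296375) (l 206393327527)) (b (l 206930207975) (l 16783192))) (b (l 16782024) (l 16777720)))) (a (b (b (l 16781440) (l 16776208)) (l 16767944)) (b (l 16766024) (l 16789992)))))))), by decide +kernel⟩

def k1_pm_101 : ∃ t, chk3 f_pm_101 t 9 4 1 = true :=
  ⟨(b (a (a (l 4) (l 1)) (l 1)) (a (b (b (a (a (l 4) (b (l 4) (a (l 4) (b (l 4) (l 228405037431))))) (b (l 1) (a (b (l 1) (l 379064431863)) (l 1)))) (a (b (a (b (l 4) (a (l 4) (l 230015650327))) (b (a (l 230552521223) (l 213372655687)) (a (l 213372655719) (l 16783400)))) (a (b (a (l 228941908551) (l 213909526999)) (a (l 214446398615) (l 16783488))) (b (l 16782200) (l 16778464)))) (a (b (a (l 16781952) (l 16777568)) (l 16762304)) (l 238404380583)))) (b (a (a (b (b (l 16782240) (l 16778400)) (l 16764064)) (b (l 16763304) (l 16788376))) (l 16813744)) (a (l 16812008) (l 16813072)))) (a (b (b (l 1) (l 22045316535)) (b (l 16816536)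 (l 16822520))) (b (l 1) (b (l 16828016) (l 16834400)))))), by decide +kernel⟩

def k2_pm_101 : ∃ t, chk3 f_pm_101 t 4 5 1 = true :=
  ⟨(a (b (a (b (b (a (b (l 4) (a (l 4) (b (l 4) (a (l 173107332231) (l 158611814583))))) (b (a (b (l 4) (a (l 4) (l 159685557495))) (b (a (b (l 206393328503) (l 155390602391)) (l 138210734871)) (l 129083932055))) (a (b (a (l 159148686071) (l 16782664)) (l 16780616)) (l 16795664)))) (a (b (a (b (l 174181075015) (a (l 170422976887) (l 157001200519))) (b (a (l 158074943047) (l 16781656)) (l 16779232))) (a (b (a (l 148948165543) (l 16780408)) (l 16777528)) (l 16790200))) (b (a (l 16793256) (l 16766056)) (l 16771624)))) (a (b (a (l 16812776) (l 16776504)) (l 16803240)) (b (l 16791856) (l 16833016)))) (b (a (b (a (a (b (l 16799288) (l 16763384)) (l 16826904)) (l 16815824)) (a (l 16761400) (l 16806464))) (b (l 16811240) (l 16822040))) (a (b (l 16832672) (l 16833960)) (l 16828200)))) (a (b (b (l 16828392) (l 16825984)) (b (l 16825304) (l 16824464))) (b (a (l 16834752) (l 16836120))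 (a (l 16836600) (l 16840104))))) (b (a (b (a (b (l 16814224) (l 16822176)) (b (l 16820824) (l 16829272))) (a (l 16831968) (l 16839584))) (b (a (b (l 16830752) (l 16839152)) (b (l 16842400) (l 16850744))) (a (l 16849480) (b (l 16858032) (l 16864208))))) (a (b (a (l 16841576) (l 16849616)) (a (l 16846352) (l 16854688))) (b (a (l 16859560) (b (l 16869216) (l 16873032))) (a (l 16864744) (b (l 16875616) (l 16876920))))))), by decide +kernel⟩

def k3_pm_101 : ∃ t, chk3 f_pm_101 t 5 2 1 = true :=
  ⟨(b (a (b (l 1) (b (l 1) (a (b (l 1) (a (l 16848848) (l 1))) (l 1)))) (l 1)) (a (b (b (a (b (a (l 16856160) (l 16872160)) (a (l 16864376) (l 16880208))) (b (l 1) (a (l 16897000) (l 1)))) (a (b (a (l 16871800) (l 16887720)) (a (l 16878080) (l 16894304))) (b (a (l 16904360) (l 16921768)) (a (l 16911032) (l 16928320))))) (b (a (a (b (l 16883168) (l 16887056)) (b (l 16899640) (l 16903720))) (b (a (l 16916664) (l 16934048)) (a (l 16920984) (l 16938656)))) (a (a (b (l 16889704) (l 16891080)) (b (l 16906536) (l 16908072)))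 (b (a (l 16923976) (l 16941864)) (a (l 16925664) (l 16943728)))))) (b (b (l 1) (b (l 1) (a (a (l 47815425191) (l 1)) (l 1)))) (c (b (a (b (a (l 16965816) (l 16983744)) (a (l 16971240) (l 16989000))) (b (l 1) (a (l 17006872) (l 1)))) (a (b (l 17026080) (l 17008176)) (b (a (l 17010992) (l 17028664)) (a (l 17014032) (l 17031592))))) (b (a (b (a (l 16937448) (l 16955904)) (a (l 16941432) (l 16960000))) (b (l 1) (a (l 39225576855) (l 1)))) (a (b (a (l 16944104) (l 16962936)) (a (l 16945248) (l 16964536))) (b (a (b (l 16981400) (l 16982624)) (b (l 1) (l 17001912))) (a (l 16983832) (b (l 17002920) (l 17003664)))))))))), by decide +kernel⟩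

def k4_pm_101 : ∃ t, chk3 f_pm_101 t 4 12 1 = true :=
  ⟨(a (b (a (a (l 16815944) (l 16827160)) (a (l 16834552) (l 16838992))) (a (a (l 16806216) (l 16818480)) (a (b (l 16829400) (l 16823832)) (b (l 16834248) (l 16828896))))) (a (b (b (l 16871392) (a (l 16844712) (l 16853360))) (b (a (l 16841240) (l 16850032)) (a (l 16836064) (l 16845008)))) (b (a (b (l 16865240) (l 16863608)) (b (l 16876832) (l 16875264))) (a (b (l 16860392) (l 16855512)) (b (l 16872144) (l 16867400)))))), by decide +kernel⟩

def k5_pm_101 : ∃ t, chk3 f_pm_101 t 4 13 1 = true :=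
  ⟨(a (b (a (b (a (l 16794432) (l 16807696)) (a (l 16784232) (l 16798208))) (a (b (l 16816536) (l 16807456)) (b (l 16821760) (l 16812760)))) (a (b (a (l 16772224) (l 16786944)) (a (l 16758576) (l 16773952))) (b (a (l 16796496) (c (l 16830336) (l 16772992))) (a (a (l 16782832) (b (l 16788096) (l 16781888))) (b (l 16792224) (b (a (l 16785496) (l 16789160)) (a (l 16762056) (l 16787704)))))))) (b (a (b (a (l 16829088) (l 16838208)) (a (l 16799256) (c (l 16857624) (l 16801112)))) (a (b (l 16848880) (c (l 16869312) (l 16811176))) (b (l 16860936) (c (l 16882152) (l 16822864))))) (a (b (a (a (l 16807296) (l 16790600)) (c (l 16849496) (b (l 16791384) (l 16784176)))) (b (a (a (l 16797704) (c (l 16834368) (l 16770064))) (a (b (l 16808488) (b (l 16806160) (a (l 16803536) (l 16806712)))) (b (l 16813800) (b (a (l 16810344) (l 16792600)) (l 16812952))))) (a (b (a (b (l 16793712) (l 16771784)) (c (l 16831920) (b (l 16765632) (l 16766728)))) (c (l 16831056) (l 16765048))) (a (l 16787384) (l 16795680))))) (b (a (c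 (l 16861328) (b (l 16801696) (l 16794664))) (b (c (l 16876456) (l 16813664)) (b (l 16841072) (a (c (l 16868136) (l 16802616)) (b (l 16821768) (l 16842448)))))) (a (a (b (b (b (l 16820168) (a (l 16817512) (l 16799856))) (l 16820776)) (l 16825432)) (b (b (b (a (l 16825008) (l 16807440)) (l 16827248)) (l 16829776)) (l 16834640))) (b (a (c (l 16869888) (b (l 16802288) (l 16806032))) (l 16846528)) (a (l 16844256) (l 16853840)))))))), by decide +kernel⟩

def k6_pm_101 : ∃ t, chk3 f_pm_101 t 4 14 1 = true :=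
  ⟨(a (b (a (b (a (b (a (l 16743784) (l 16752128)) (a (l 16738592) (l 16748936))) (b (b (l 16765808) (l 16763472)) (l 16765552))) (a (b (l 16743856) (l 16741992)) (b (l 16767216) (l 16767448)))) (a (b (b (a (b (l 16775248) (l 16776688)) (l 16779648)) (l 16781640)) (a (l 16783120) (l 16788312))) (b (c (l 16823496) (a (l 16754744) (l 16760704))) (b (l 16796304) (l 16798888))))) (a (b (a (b (l 16738088) (c (l 16770496) (l 16692536))) (b (l 16765904) (l 16741272))) (a (b (c (l 16763256) (l 16681296)) (c (l 16753008) (l 16645464))) (b (c (l 16794744) (l 16716904)) (c (l 16787632) (l 16705856))))) (c (b (a (l 16821360) (l 16835744)) (a (b (l 16818448) (l 16813768)) (b (l 16834880) (l 16831944)))) (b (a (b (l 16751184) (l 16748328)) (b (l 16764816) (l 16763584))) (a (b (l 16743088) (l 16735096)) (b (l 16760304) (l 16754632))))))) (b (a (b (a (c (l 16837744) (b (l 16768744) (l 16773312))) (a (b (l 16813952) (l 16819296)) (b (l 16822544) (l 16828216)))) (a (c (l 16846992) (b (l 16777232) (l 16780232))) (c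 (l 16864528) (b (l 16794984) (l 16799080))))) (b (a (c (l 16872216) (b (l 16803168) (l 16809384))) (c (l 16891672) (b (l 16823624) (l 16830680)))) (a (b (l 16827312) (l 16853528)) (c (l 16904360) (b (l 16837400) (l 16843608)))))) (b (a (a (c (l 16852880) (b (l 16782040) (l 16782376))) (b (l 16815600) (l 16838928))) (a (a (l 16854344) (l 16865776)) (c (l 16915088) (b (l 16849112) (l 16853720))))) (a (a (c (l 16853544) (b (l 16780960) (l 16777488))) (c (l 16875312) (b (l 16804360) (l 16802936)))) (a (c (l 16898472) (b (l 16829944) (l 16830416))) (c (l 16922592) (b (l 16857232) (l 16859448)))))))), by decide +kernel⟩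

def k7_pm_101 : ∃ t, chk3 f_pm_101 t 16 30 1 = true :=
  ⟨(b (a (b (c (l 16739312) (a (l 16636856) (l 16658112))) (c (a (l 16711288) (l 16732088)) (a (l 16611744) (l 16635560)))) (a (b (l 16682344) (c (l 16753264) (l 16659928))) (b (l 16745232) (c (l 16774720) (l 16684768))))) (b (a (a (c (b (l 16694144) (l 16681096)) (b (l 16589200) (l 16572216))) (c (l 16711064) (b (l 16615184) (l 16599784)))) (b (a (l 16628232) (l 16674184)) (c (l 16741376) (a (l 16627768) (l 16656088))))) (a (b (a (c (c (l 16694136) (l 16638808)) (c (l 16582272) (l 16524480))) (c (l 16691984) (l 16582792))) (b (a (c (c (l 16683072) (l 16626144)) (c (l 16567920) (l 16508376))) (c (l 16681264) (l 16568928))) (a (b (c (a (l 16620944) (l 16634648)) (a (l 16543688) (l 16559520))) (c (a (c (l 16668648) (l 16610104)) (l 16654056)) (a (c (l 16550216) (l 16488952)) (l 16536640)))) (c (b (a (l 16669376) (l 16683288)) (l 16675680)) (b (a (l 16554512) (l 16570696)) (l 16561864)))))) (b (c (a (l 16717536) (l 16743200)) (a (l 16612416) (l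 16642304))) (b (a (c (l 16708256) (a (l 16592240) (l 16608032))) (c (l 16735208) (a (l 16623784) (l 16639528)))) (a (c (l 16704288) (a (l 16586992) (l 16603792))) (c (l 16732640) (l 16628616)))))))), by decide +kernel⟩

def k8_pm_101 : ∃ t, chk3 f_pm_101 t 17 30 1 = true :=
  ⟨(b (a (b (a (l 16760688) (l 16770560)) (c (l 16796200) (a (l 16703224) (l 16715168)))) (b (a (l 16781248) (l 16792640)) (c (l 16818992) (a (l 16727968) (l 16741528))))) (b (a (c (a (l 16776392) (l 16788720)) (a (l 16662304) (l 16697168))) (c (l 16808272) (a (l 16711864) (l 16727232)))) (a (b (c (l 16769696) (a (l 16665104) (l 16680680))) (c (a (b (l 16755880) (l 16754232)) (l 16769368)) (b (a (b (l 16656952) (l 16654568)) (b (l 16673440) (l 16672288))) (a (l 16653920) (l 16671272))))) (b (c (a (l 16791008) (l 16805992)) (a (l 16676296) (b (l 16716296) (l 16690992)))) (c (a (l 16784744) (l 16800328)) (a (b (l 16669272) (l 16688888)) (l 16707616))))))), by decide +kernel⟩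

def k9_pm_101 : ∃ t, chk3 f_pm_101 t 32 124 1 = true :=
  ⟨(a (c (b (a (c (b (l 16668648) (l 16669480)) (b (a (l 16606616) (l 16613480)) (a (l 16608304) (l 16613752)))) (c (l 16681984) (b (l 16624744) (l 16624336)))) (a (c (l 16672416) (b (l 16613272) (l 16616080))) (c (b (l 16681848) (l 16683032)) (b (a (l 16621064) (l 16627880)) (a (l 16623160) (l 16628560)))))) (b (a (a (b (c (l 16546536) (l 16485104)) (l 16560056)) (b (l 16565568) (c (l 16554312) (l 16493576)))) (b (l 16536232) (c (l 16565720) (l 16505816)))) (a (c (b (l 16554008) (l 16557232)) (b (l 16493480) (l 16497176))) (a (b (b (l 16563360) (l 16553728)) (l 16556048)) (b (l 16561032) (c (l 16570512) (l 16511272))))))) (b (c (c (l 16702600) (l 16646968)) (c (l 16590112) (l 16532008))) (c (a (c (l 16695248) (l 16607680)) (l 16681504)) (a (b (l 16552584) (c (l 16581840) (l 16523432))) (l 16569328))))), by decide +kernel⟩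

def k10_pm_101 : ∃ t, chk3 f_pm_101 t 32 125 1 = true :=
  ⟨(c (a (b (c (a (l 16677648) (l 16686488)) (a (l 16620576) (b (l 16628512) (l 16631720)))) (c (a (l 16683384) (l 16692432)) (a (l 16627176) (l 16636832)))) (b (a (c (b (l 16695640) (l 16697184)) (b (a (l 16636232) (l 16642984)) (l 16620568))) (c (l 16709072) (l 16654344))) (a (c (l 16701160) (l 16646144)) (c (l 16711144) (b (l 16655552) (l 16657784)))))) (a (b (c (a (l 16562392) (b (l 16570688) (l 16574376))) (a (b (l 16501056) (l 16505168)) (b (l 16511712) (l 16515928)))) (c (a (b (l 16568008) (l 16572008)) (b (l 16578232) (l 16582296))) (a (b (l 16509512) (l 16514088)) (b (l 16520344) (l 16524992))))) (b (a (a (b (b (l 16559648) (l 16560760)) (l 16552960)) (b (l 16557392) (c (l 16587552) (l 16529936)))) (b (l 16569816) (c (l 16598768) (l 16541992)))) (a (c (b (l 16588208) (l 16592360)) (b (l 16530928) (l 16535664))) (a (b (c (l 16596376) (l 16539624)) (l 16556008)) (b (l 16554616) (c (l 16605400) (l 16549544)))))))), by decide +kernel⟩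

def k11_pm_101 : ∃ t, chk3 f_pm_101 t 32 126 1 = true :=
  ⟨(c (a (c (b (a (l 16689752) (l 16698888)) (a (l 16696784) (l 16706000))) (b (a (l 16634520) (l 16644272)) (a (c (l 16656232) (l 16628960)) (l 16652464)))) (b (c (l 16691104) (a (l 16653800) (l 16662992))) (c (l 16719384) (a (l 16662080) (l 16671464))))) (a (b (c (a (b (l 16576224) (l 16580648)) (b (l 16586568) (l 16591048))) (a (b (l 16518904) (l 16523960)) (b (l 16529872) (l 16534992)))) (c (a (b (c (l 16599176) (l 16571368)) (c (l 16603888) (l 16576400))) (b (l 16595752) (c (l 16614232) (l 16587064)))) (c (a (b (l 16543352) (l 14)) (b (l 16554280) (l 16559720))) (l 14)))) (b (c (a (b (l 16596688) (l 16601224)) (b (l 16606552) (l 16611160))) (a (b (l 16540608) (l 16545784)) (b (l 16551080) (l 16556344)))) (b (c (a (l 16605968) (l 16615952)) (a (c (l 16564976) (l 16537392)) (l 16540840))) (c (a (l 16610928) (l 16620960)) (a (c (l 16570456) (l 14)) (c (l 16580952) (l 16554048)))))))), by decide +kernel⟩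

def k12_pm_101 : ∃ t, chk3 f_pm_101 t 32 127 1 = true :=
  ⟨(c (a (c (b (a (l 16704512) (l 16713792)) (a (l 16712976) (l 16722304))) (b (a (c (l 16664824) (l 16627688)) (c (l 16674584) (l 16648256))) (a (b (l 16658744) (l 16642856)) (c (l 16684048) (l 16658400))))) (c (b (l 16727264) (l 16735840)) (b (a (l 16671128) (l 16680576)) (a (c (l 16693624) (l 16668296)) (l 16690472))))) (a (c (b (a (b (a (l 16571632) (l 16597936)) (c (l 16613976) (a (l 16584480) (l 16589912)))) (c (b (l 16619200) (l 16624400)) (b (l 16592384) (a (l 16595288) (l 16600600))))) (a (c (b (a (l 16616728) (l 16622016)) (a (l 16622344) (l 16627648))) (b (a (l 14) (l 16595680)) (l 14))) (c (b (l 16629824) (l 16635480)) (b (a (l 16601072) (l 16606400)) (a (c (l 16613568) (l 14)) (l 16612456)))))) (b (b (a (l 14) (c (a (l 14) (l 16568128)) (l 14))) (l 14)) (l 14))) (c (b (a (c (b (l 16629344) (l 16634576)) (b (l 16602848) (l 16608440))) (c (l 16641856) (b (l 16613064) (l 16618688)))) (a (b (a (l 16603632) (l 16629728)) (c (l 16645712)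 (a (l 16617736) (l 16622944)))) (c (b (l 16649992) (l 16655696)) (b (l 16624552) (l 16630648))))) (c (b (a (b (l 16576176) (a (l 16579480) (l 16584824))) (b (l 16586712) (a (l 16590112) (l 16595336)))) (a (b (a (l 14) (l 16591056)) (l 14)) (b (a (l 16596360) (l 16601592)) (a (c (l 16609176) (l 14)) (l 16608104))))) (b (a (l 14) (b (a (l 14) (l 16562880)) (l 14))) (l 14)))))), by decide +kernel⟩

def k13_pm_101 : ∃ t, chk3 f_pm_101 t 33 62 1 = true :=
  ⟨(b (c (a (c (l 16729496) (l 16655296)) (c (l 16756360) (l 16705528))) (a (b (c (l 16622232) (l 16566616)) (c (l 16621760) (l 16566384))) (b (l 16564704) (c (l 16653400) (l 16600536))))) (a (c (b (l 16660912) (a (c (l 16723448) (l 16670208)) (l 16710744))) (b (c (l 16622248) (l 16567224)) (a (b (l 16587880) (c (l 16616480) (l 16561464))) (c (l 16631608) (l 16577688))))) (c (c (l 16756072) (l 16705608)) (b (c (l 16653696) (l 16580200)) (c (l 16654968) (a (l 16594536) (l 16611280))))))), by decide +kernel⟩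

def k14_pm_101 : ∃ t, chk3 f_pm_101 t 33 63 2 = true :=
  ⟨(a (b (b (a (c (l 16726248) (b (l 16672048) (l 16674696))) (c (l 16738352) (l 16686712))) (a (c (l 16732232) (l 16680520)) (c (l 16741888) (b (l 16689192) (l 16692264))))) (b (c (l 16744400) (a (l 16689800) (l 16698688))) (c (l 16753128) (a (l 16699736) (l 16708776))))) (b (b (l 16732992) (c (l 16760160) (a (l 16703832) (l 16717712)))) (b (a (b (l 16710768) (l 16734968)) (l 16745664)) (c (l 16770296) (a (l 16717472) (l 16727456)))))), by decide +kernel⟩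

def k15_pm_101 : ∃ t, chk3 f_pm_101 t 33 126 3 = true :=
  ⟨(a (b (b (a (c (a (l 16614624) (l 16621728)) (a (l 16549200) (l 16567328))) (l 16606752)) (a (c (a (l 16618448) (l 16624032)) (a (l 16564088) (b (l 16568992) (l 16570856)))) (c (l 16634944) (l 16581808)))) (a (c (b (l 16625688) (l 16630752)) (b (l 16551184) (c (l 16591208) (l 16564616)))) (c (b (a (l 16633640) (l 16640632)) (a (l 16637928) (l 16643424))) (b (a (b (l 16579512) (l 16581520)) (l 16588176)) (a (l 16585568) (a (l 16589656) (l 16592976))))))) (b (c (l 16657280) (a (l 16597520) (l 16614112))) (a (b (l 16584472) (a (b (l 16624096) (l 16572872)) (l 16632592))) (c (l 16668272) (l 16618160))))), by decide +kernel⟩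

def k16_pm_101 : ∃ t, chk3 f_pm_101 t 33 127 3 = true :=
  ⟨(a (c (b (a (b (l 16636008) (l 16641480)) (c (l 16660880) (l 16635488))) (a (c (l 16662552) (b (l 16634592) (l 16640704))) (b (l 16656816) (l 16662752)))) (b (a (b (c (l 16597008) (l 16570808)) (c (l 16603048) (a (l 16574616) (l 16579880)))) (a (b (l 16591624) (l 16576912)) (b (l 16596632) (l 16602944)))) (a (b (c (a (l 16606776) (l 16611888)) (a (l 14) (l 16586576))) (c (a (l 16613296) (l 16618424)) (l 14))) (c (b (l 16619440) (l 16615504)) (b (a (l 16591792) (l 16596944)) (a (c (l 16604960) (l 14)) (l 16593440))))))) (b (a (c (b (a (l 16653392) (l 16660256)) (a (l 16658144) (l 16663544))) (b (a (b (l 16601200) (l 16603472)) (l 16609864)) (a (l 16607912) (c (l 16626208) (b (l 16599760) (l 16602256)))))) (c (b (l 16671504) (l 16674048)) (b (l 16622016) (c (l 16637336) (l 16612688))))) (a (c (c (l 16681200) (l 16656880)) (b (c (l 16629296) (a (l 16602040) (l 16607032))) (c (l 16635880) (a (l 16609032) (l 16614072))))) (c (b (a (l 16673864)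 (l 16680576)) (a (l 16679080) (l 16684360))) (b (a (c (l 16637352) (b (l 16611408) (l 16614040))) (l 16632360)) (a (c (l 16643120) (l 16619016)) (c (l 16648688) (b (l 16623264) (l 16626032))))))))), by decide +kernel⟩

def k17_pm_101 : ∃ t, chk3 f_pm_101 t 17 62 1 = true :=
  ⟨(a (c (b (a (l 16752264) (l 16766576)) (c (l 16771520) (a (l 16726920) (l 16740648)))) (b (a (c (l 16677536) (b (l 16626920) (l 16626120))) (c (l 16693576) (b (l 16644464) (l 16643048)))) (a (b (a (l 16626920) (l 16634688)) (c (l 16677824) (a (l 16623736) (l 16631432)))) (c (b (l 16692136) (l 16692296)) (b (a (l 16638496) (l 16646728)) (a (l 16639232) (l 16647120))))))) (c (b (a (l 16781072) (l 16795656)) (c (l 16807672) (a (l 16754616) (l 16768736)))) (b (a (c (l 16709872) (b (l 16662304) (l 16660296))) (c (l 16726336) (b (l 16680368) (l 16677768)))) (a (c (b (l 16707544) (l 16707080)) (b (a (l 16655032) (l 16663408)) (a (l 16655088) (l 16663120)))) (c (b (l 16723160) (l 16722072)) (b (a (l 16671832) (l 16680312)) (a (l 16671224)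 (l 16679368)))))))), by decide +kernel⟩

def k18_pm_101 : ∃ t, chk3 f_pm_101 t 34 63 1 = true :=
  ⟨(b (c (a (c (l 16777616) (l 16729632)) (c (l 16789080) (l 16742048))) (a (c (b (l 16679640) (a (l 16679296) (l 16685728))) (b (a (l 16626304) (l 16633624)) (a (c (l 16642432) (l 16617656)) (c (l 16649232) (l 16624696))))) (c (b (l 16693416) (c (l 16707448) (l 16683608))) (b (a (c (l 16653344) (l 16628712)) (c (l 16660728) (l 16636376))) (a (b (l 16643152) (l 16644928)) (c (l 16663136) (b (l 16638312) (l 16639984)))))))) (c (a (b (l 16757728) (c (l 16784816) (l 16738456))) (c (l 16792984) (l 16747096))) (a (b (c (a (l 16683472) (l 16689504)) (a (c (l 16647232) (b (l 16621448) (l 16624400))) (c (l 16653608) (b (l 16628168) (l 16630904))))) (c (a (b (l 16687360) (l 16690352)) (l 16694424)) (a (b (c (l 16651648) (l 16627688)) (c (l 16655032) (a (l 16629872) (l 16632832)))) (c (l 16659232) (b (l 16633968) (l 16637376)))))) (c (b (c (l 16710456) (l 16686976)) (c (l 16714544) (l 16691496))) (b (a (c (l 16660096)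 (b (l 16635016) (l 16637528))) (c (l 16666696) (b (l 16641968) (c (l 16650152) (l 16638376))))) (a (c (l 16665288) (b (l 16640368) (c (l 16649360) (l 16637720)))) (c (l 16671456) (a (b (l 16645248) (l 16648256)) (b (l 16648536) (l 16651432)))))))))), by decide +kernel⟩

def k19_pm_101 : ∃ t, chk3 f_pm_101 t 35 63 1 = true :=
  ⟨(c (b (a (c (l 16800776) (l 16754752)) (c (l 16812632) (l 16767664))) (a (b (l 16779792) (l 16782208)) (b (l 16791192) (l 16792904)))) (b (a (c (b (l 16707520) (c (l 16720576) (l 16697256))) (b (a (c (l 16668192) (l 16644120)) (c (l 16675736) (l 16651944))) (b (a (l 16657712) (l 16644136)) (c (l 16674416) (a (l 16647248) (l 16654592)))))) (c (b (l 16721864) (c (l 16733952) (l 16711176))) (b (a (c (l 16683336) (l 16659848)) (c (l 16690992) (l 16667800))) (b (a (l 16651616) (l 16680120)) (c (l 16688704) (a (l 16662016) (l 16669504))))))) (a (a (c (b (l 16708184) (l 16711880)) (b (c (l 16673384) (b (l 16649024) (c (l 16656928) (l 16645280)))) (c (l 16677728) (a (b (l 16651848)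 (l 16654632)) (b (l 16655184) (a (l 16657048) (l 16658672))))))) (c (b (l 16714576) (l 16717872)) (b (b (a (l 16645048) (l 16648568)) (c (l 16681024) (a (l 16656304) (l 16659792)))) (c (b (l 16682984) (l 16685248)) (b (a (l 16658544) (l 16661928)) (c (l 16668376) (a (l 16655456) (l 16658760)))))))) (a (c (b (l 16721032) (l 16723944)) (b (b (a (l 16652112) (l 16655672)) (c (l 16687776) (a (l 16663304) (l 16666832)))) (c (b (l 16689536) (l 16691584)) (b (a (l 16665328) (l 16668752)) (c (l 16674904) (a (l 16662080) (l 16665432))))))) (c (b (l 16727544) (l 16730080)) (b (c (l 16693928) (b (l 16670680) (c (l 16677768) (l 16666520)))) (c (l 16697048) (a (b (l 16672192) (c (l 16679848) (l 16668800))) (b (l 16675656) (l 16677672)))))))))), by decide +kernel⟩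

def k20_pm_101 : ∃ t, chk3 f_pm_101 t 9 30 1 = true :=
  ⟨(b (a (a (a (b (l 16804656) (l 16755096)) (b (l 16817224) (l 16810864))) (c (b (l 16873688) (l 16870296)) (b (l 16799464) (l 16793640)))) (a (c (l 16898624) (b (l 16829136) (a (l 16817696) (l 16834104)))) (c (l 16925536) (b (a (l 16852320) (l 16868080)) (a (l 16850744) (l 16867568)))))) (a (b (a (c (l 16835896) (a (l 16743192) (l 16759664))) (c (l 16864720) (a (l 16776568) (l 16793832)))) (a (b (c (b (l 16829440) (l 16826576)) (b (l 16742240) (a (l 16729520) (l 16747360)))) (c (l 16823256) (a (l 16725656) (l 16743744)))) (b (c (l 16858672) (b (a (l 16769288) (l 16787888)) (a (l 16765640) (l 16784432)))) (a (l 16783424) (l 16778968))))) (b (a (c (l 16894192) (a (l 16811392) (l 16829168))) (c (l 16924240) (a (l 16847112) (b (l 16865944) (c (l 16881536) (l 16847608)))))) (c (a (b (l 16888624) (l 16883272)) (b (l 16918280) (l 16911944))) (a (b (b (a (l 16806144) (l 16824224)) (l 16811792)) (a (l 16797792) (l 16815560))) (b (a (a (l 16835648)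 (l 16844824)) (l 16858416)) (a (l 16833128) (l 16850448)))))))), by decide +kernel⟩

def k21_pm_101 : ∃ t, chk3 f_pm_101 t 18 31 1 = true :=
  ⟨(b (a (c (b (a (l 16810280) (l 16824872)) (a (l 16805176) (l 16818792))) (b (a (c (l 16742904) (b (l 16698568) (l 16695400))) (b (l 16739272) (l 16735520))) (a (b (a (l 16691016) (l 16720200)) (c (l 16737216) (a (l 16687568) (l 16695792)))) (c (l 16753488) (b (l 16710216) (a (l 16704048) (l 16712320))))))) (c (b (l 16846576) (a (l 16832360) (l 16845824))) (b (a (c (l 16776120) (l 16732952)) (c (l 16792648) (l 16750960))) (a (b (l 16749032) (l 16704336)) (c (l 16784480) (l 16742840)))))) (a (c (b (a (c (l 16824568) (l 16780696)) (l 16794256)) (a (c (l 16824656) (l 16781632)) (c (l 16835440) (l 16793456)))) (b (a (c (b (l 16736368) (l 16736416)) (b (a (c (l 16698696) (l 16675808)) (l 16695160)) (a (b (l 16687704) (l 16667360)) (c (l 16706672) (l 16684360))))) (c (b (l 16750976) (l 16750368)) (b (a (l 16703088) (l 16711032)) (a (l 16682128) (l 16710704)))))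 (a (c (b (a (l 16734112) (l 16740712)) (a (l 16736264) (l 16742496))) (b (a (c (l 16700904) (b (l 16678032) (l 16679304))) (c (l 16707920) (b (l 16685432) (l 16686504)))) (a (c (l 16703624) (a (b (l 16679128) (l 16681048)) (b (l 16682616) (l 16684424)))) (c (l 16710256) (b (l 16687872) (l 16689528)))))) (c (b (l 16750656) (l 16751896)) (b (a (c (l 16714984) (l 16693288)) (l 16711384)) (a (b (l 16705632) (l 16686008)) (c (l 16723632) (l 16702608)))))))) (c (b (a (l 16827736) (l 16840176)) (a (l 16825808) (l 16837104))) (b (a (c (l 16764912) (b (l 16722960) (a (l 16718320) (l 16725944)))) (b (l 16759616) (l 16736944))) (a (c (b (l 16763992) (l 16764520)) (b (a (l 16718640) (l 16725912)) (a (l 16720000) (l 16726896)))) (c (l 16777176) (b (l 16736816) (l 16737248)))))))), by decide +kernel⟩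

def k22_pm_101 : ∃ t, chk3 f_pm_101 t 19 31 1 = true :=
  ⟨(b (c (a (b (l 16874968) (l 16865672)) (b (l 16902392) (l 16891368))) (c (a (b (l 16838120) (a (l 16799840) (l 16815048))) (b (a (l 16841288) (l 16857040)) (a (l 16830048) (l 16844792)))) (a (b (a (l 16768880) (b (l 16789704) (l 16783776))) (a (b (l 16761632) (l 16757784)) (b (l 16778584) (l 16774160)))) (b (a (b (l 16807576) (l 16801112)) (b (l 16825216) (l 16818208))) (a (b (l 16795360) (l 16790360)) (b (l 16811912) (l 16806344))))))) (c (a (b (l 16858552) (a (l 16848312) (l 16859384))) (b (c (l 16900264) (l 16864424)) (c (l 16893424) (l 16857752)))) (a (b (a (c (l 16793440) (b (l 16754760) (l 16752600))) (c (l 16807536) (b (l 16770528) (l 16767736)))) (a (c (l 16790136) (b (l 16751360) (l 16751064))) (c (l 16803008) (b (l 16765816) (l 16764824))))) (b (a (c (l 16821448) (b (l 16786136) (c (l 16791992) (l 16773424)))) (c (l 16835128) (a (b (l 16797712) (l 16793840)) (b (l 16805344) (l 16801168))))) (a (c (l 16815728) (c (l 16788360) (b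 (l 16770944) (l 16769384)))) (a (c (l 16825144) (b (l 16790784) (l 16788608))) (c (l 16831344) (b (l 16797800) (l 16795288))))))))), by decide +kernel⟩

def k23_pm_101 : ∃ t, chk3 f_pm_101 t 5 12 1 = true :=
  ⟨(a (a (b (a (b (l 16891096) (l 16889664)) (b (l 16908272) (l 16907056))) (b (a (l 16886712) (l 16904360)) (a (l 16882176) (l 16900128)))) (b (b (a (l 16926024) (l 16944248)) (a (l 16924992) (l 16943368))) (b (a (l 16922504) (l 16941048)) (a (l 16918512) (l 16937240))))) (b (c (a (b (l 16988936) (l 16989296)) (b (a (l 17015848) (l 17033376)) (a (l 17016200) (l 17033808)))) (a (b (a (l 16944968) (l 16964640)) (a (l 16943208) (l 16963216))) (b (a (l 16984400) (l 17004144)) (a (l 16983384) (l 17003600))))) (a (b (a (l 16959904) (l 16978968)) (a (l 16956240) (l 16975416))) (b (c (l 17023728) (a (l 16980728) (l 17001336))) (a (l 16994640) (l 17013848)))))), by decide +kernel⟩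

def k24_pm_101 : ∃ t, chk3 f_pm_101 t 5 13 1 = true :=
  ⟨(a (b (a (a (a (b (l 16871520) (l 16863472)) (b (l 16880552) (l 16872760))) (b (c (l 16920440) (l 16867808)) (c (l 16914944) (l 16858424)))) (b (a (c (l 16937928) (l 16887656)) (c (l 16955552) (l 16907928))) (a (c (l 16932640) (l 16878776)) (b (l 16926968) (a (l 16918344) (c (l 16953864) (l 16903048))))))) (a (b (a (b (c (l 16891872) (l 16829672)) (b (a (a (l 16849856) (l 16854992)) (b (l 16862840) (a (l 16859312) (l 16865056)))) (a (c (l 16884208) (a (l 16815968) (l 16822584))) (l 16864056)))) (b (b (l 16881352) (a (l 16874416) (b (l 16884544) (l 16852328)))) (a (c (l 16904696) (b (b (l 16842040) (l 16843096)) (l 16844968))) (l 16886208)))) (a (a (b (l 16856520) (l 16863880)) (b (l 16868408) (l 16875624))) (c (l 16918848) (b (l 16855576) (l 16862848))))) (a (b (b (b (a (l 16895824) (c (l 16933608) (l 16878264))) (a (b (l 16894584) (l 16895040)) (l 16905800))) (c (l 16931352) (l 16874608))) (c (l 16938944) (b (l 16879744) (l 16886408))))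 (b (b (b (c (l 16947272) (a (l 16888808) (l 16900120))) (l 16922416)) (l 16903888)) (b (l 16929136) (l 16934664)))))) (b (b (a (a (c (l 16973256) (l 16928544)) (l 16949384)) (a (l 16989648) (l 17008904))) (b (a (a (l 16946248) (l 16965608)) (a (b (l 16985800) (c (l 17004344) (l 16964480))) (b (l 17005696) (l 17002768)))) (a (a (b (l 16943816) (a (l 16916248) (l 16946960))) (b (a (l 16958576) (l 16967920)) (l 16962808))) (a (c (l 17002376) (l 16961736)) (l 17001272))))) (a (c (b (a (l 16968392) (l 16986088)) (a (l 16975000) (l 16990808))) (b (a (b (l 16918384) (l 16920720)) (l 16941040)) (a (l 16926592) (l 16946256)))) (b (a (c (l 17002392) (l 16961336)) (l 16998888)) (a (c (l 17005032) (l 16964344)) (l 16999416)))))), by decide +kernel⟩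

def k25_pm_101 : ∃ t, chk3 f_pm_101 t 5 14 1 = true :=
  ⟨(a (b (a (a (b (b (c (l 16909328) (a (l 16840760) (l 16853952))) (a (l 16880592) (l 16873728))) (a (b (l 16887784) (l 16894568)) (b (l 16903608) (l 16911080)))) (b (c (l 16934928) (b (l 16872000) (l 16883280))) (a (b (l 16897064) (l 16927584)) (b (l 16929312) (l 16942112))))) (c (b (a (l 16953544) (l 16970520)) (a (l 16974472) (l 16988992))) (b (a (b (l 16894800) (l 16905104)) (b (l 16916040) (l 16925248))) (a (b (l 16917544) (l 16932344)) (l 16942736))))) (a (b (a (a (b (l 16900792) (l 16906296)) (b (l 16918024) (l 16924296))) (c (l 16972944) (b (l 16917584) (l 16925336)))) (a (a (b (l 16910920) (l 16914488)) (b (l 16929736) (l 16934184))) (c (l 16985192) (b (l 16932240) (l 16938152))))) (b (a (a (b (l 16966672) (l 16977120)) (b (l 16976272) (l 16991448))) (c (l 17014320) (l 16973920))) (b (a (l 16993384) (a (l 17016176) (l 17023520))) (a (l 17000296) (a (l 17026960) (l 17040544))))))) (b (b (a (a (c (l 16985840) (l 16939464)) (c (l 16999480)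 (l 16956824))) (a (l 16992040) (l 17004184))) (a (a (c (l 17001728) (l 16959040)) (l 16993240)) (a (l 17004176) (l 17013480)))) (b (a (a (l 17005232) (l 17014432)) (a (l 17021880) (l 17027760))) (a (a (l 17038048) (l 17042752)) (a (l 17045848) (l 17047544)))))), by decide +kernel⟩

def k26_pm_101 : ∃ t, chk3 f_pm_101 t 5 30 1 = true :=
  ⟨(a (b (a (c (a (a (l 16947664) (l 16966528)) (l 16993872)) (a (b (a (l 16886296) (l 16909192)) (a (l 16886888) (l 16911000))) (b (l 16942904) (l 16946336)))) (a (b (l 17006256) (l 17011120)) (c (l 17060088) (l 17072816)))) (a (b (a (a (b (l 16875512) (b (l 16895960) (b (l 16916576) (a (l 16889248) (l 16921432))))) (c (l 16968920) (b (l 16911280) (b (l 16911056) (l 16909960))))) (b (l 16972768) (c (l 16996704) (b (l 16948688) (l 16945888))))) (c (a (l 16948144) (l 16985136)) (a (a (b (l 16878688) (l 16828096)) (l 16898816)) (a (l 16922472) (l 16945064))))) (b (a (b (l 17013992) (a (l 17002704) (l 17021576))) (b (l 17052216) (l 17047832))) (a (c (l 17018008) (l 16976912))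 (l 17031312))))) (a (b (a (b (l 17065904) (l 17143040)) (l 17078888)) (a (b (b (l 17087664) (l 17079872)) (l 17060632)) (b (b (l 17124808) (l 17099232)) (l 17145840)))) (b (a (l 17076600) (l 17073184)) (b (b (l 17154480) (l 17087376)) (l 17077984))))), by decide +kernel⟩

def k27_pm_101 : ∃ t, chk3 f_pm_101 t 5 31 1 = true :=
  ⟨(a (a (b (c (a (b (l 16933712) (a (l 16912000) (l 16930232))) (b (l 16969352) (l 16955648))) (a (b (a (c (l 16874968) (a (b (l 16839008) (l 16831608)) (l 16847704))) (c (l 16897448) (l 16866472))) (a (c (l 16861840) (a (b (l 16824912) (l 16818936)) (b (l 16837088) (l 16830912)))) (b (l 16871160) (l 16843784)))) (b (a (l 16904800) (l 16926456)) (a (c (l 16904368) (l 16875256)) (l 16910632))))) (c (a (b (a (l 16901784) (l 16919448)) (a (l 16893672) (l 16910728))) (b (l 16943952) (l 16934296))) (a (c (b (a (a (l 16845944) (l 16856480)) (l 16872280)) (a (a (l 16838240) (l 16848392)) (l 16863632))) (b (a (a (a (b (l 16811040) (l 16806640)) (b (l 16816360) (l 16811840))) (b (l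 16825480) (l 16820808))) (b (l 16843184) (l 16838200))) (a (a (a (b (l 16803040) (l 16800280)) (b (l 16808120) (l 16805240))) (b (l 16816928) (l 16813880))) (b (l 16834000) (c (l 16838424) (l 16822800)))))) (b (a (b (l 16880416) (l 16875008)) (l 16876592)) (a (b (l 16870312) (l 16845384)) (c (l 16900856) (l 16873792))))))) (b (c (a (l 16992864) (l 17018984)) (a (b (l 16956768) (a (l 16930224) (l 16948632))) (b (l 16993232) (l 16973968)))) (c (a (b (l 16972544) (l 16961568)) (l 16990088)) (a (b (a (l 16916272) (l 16933744)) (a (l 16905120) (l 16921672))) (b (l 16957640) (l 16944136)))))) (a (b (a (a (l 17021272) (l 17033216)) (b (l 17060344) (l 17038400))) (a (b (l 17000528) (l 16985840)) (c (l 17022984) (l 17020048)))) (b (a (b (l 17069400) (l 17115384)) (l 17054984)) (a (b (l 17033680) (l 17015608)) (b (l 17057984) (l 17106432)))))), by decide +kernel⟩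

def k28_pm_101 : ∃ t, chk3 f_pm_101 t 3 2 1 = true :=
  ⟨(a (b (l 1) (a (b (l 1) (b (l 1) (b (l 1) (a (a (c (l 17048944) (l 33320057591)) (l 1)) (l 1))))) (l 1))) (l 1)), by decide +kernel⟩

def k29_pm_101 : ∃ t, chk3 f_pm_101 t 6 3 1 = true :=
  ⟨(b (b (a (a (a (b (b (c (l 17050688) (l 17023976)) (c (l 17051104) (l 17023832))) (b (l 17036184) (l 17033008))) (b (b (c (l 17067528) (l 17043624)) (c (l 17067968) (l 17043944))) (b (l 17054872) (l 17051920)))) (a (b (b (l 1) (l 17073952)) (b (l 17073032) (l 17070280))) (b (l 1) (b (l 17090232) (l 17087824))))) (b (l 1) (a (a (b (l 1) (l 17104048)) (l 1)) (l 1)))) (a (b (a (a (b (a (l 17023392) (l 17033512)) (b (b (l 17023472) (l 17021656)) (l 17018624))) (b (b (l 17048560) (b (l 17046488) (l 17044528))) (l 17037096))) (b (a (b (l 17067064) (l 17083640)) (b (l 17085312) (l 17077744))) (a (l 17052096) (l 17065344)))) (a (b (a (l 17014432) (l 17028528)) (a (l 17012584) (l 17024256))) (a (b (l 17041016) (l 17034296)) (b (l 17051744) (l 17042568))))) (b (b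 (a (a (b (l 17101840) (l 17092208)) (b (l 1) (l 17103192))) (l 1)) (a (a (l 17076624) (l 17085712)) (a (l 17092424) (l 1)))) (a (a (l 17096000) (l 17101456)) (a (l 17167632) (l 17063720)))))) (b (a (b (a (b (a (l 17014856) (l 17024008)) (a (l 17021336) (l 17027720))) (b (l 17076448) (l 17055128))) (a (b (a (l 17032312) (l 17035496)) (a (l 17048112) (l 17047504))) (b (l 17058312) (a (l 17045608) (l 17042320))))) (b (b (a (l 17042272) (l 17041944)) (a (l 17036744) (l 17031608))) (a (b (a (l 17035816) (l 17032472)) (l 17034336)) (a (l 17024776) (l 17016384))))) (a (b (b (a (b (l 17061320) (l 17072448)) (l 17117944)) (a (l 17061776) (l 17041640))) (a (b (l 17059376) (l 17058032)) (b (l 16911040) (l 17013768)))) (b (a (b (l 17141824) (l 17017560)) (b (b (l 17006680) (l 17038888)) (l 16984384))) (a (a (l 17006752) (l 17014664)) (b (l 16963704) (l 16940304))))))), by decide +kernel⟩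

def k30_pm_101 : ∃ t, chk3 f_pm_101 t 7 3 1 = true :=
  ⟨(b (a (b (l 1) (b (l 1) (a (c (l 98818653607) (l 111703550823)) (l 1)))) (l 1)) (a (b (b (a (c (l 17066288) (l 17130904)) (a (l 191160177527) (l 1))) (b (a (l 17004144) (a (l 16983192) (l 17012264))) (a (a (l 16995664) (l 16980608)) (a (l 17008440) (c (l 16957584) (l 16990280)))))) (b (a (b (b (a (l 16982488) (l 16967608)) (a (l 17056776) (l 17020744))) (a (l 16958320) (l 16941848))) (b (b (a (l 16953568) (c (l 16946240) (l 16933776))) (a (b (l 16946520) (l 16940568)) (b (c (l 16939536) (b (l 16948408) (l 16924552))) (l 16926536)))) (b (a (l 16931704) (l 16916936)) (a (l 16920520) (l 16904808))))) (b (a (l 16931664) (a (l 16904984) (b (l 16893416) (l 16882720)))) (a (b (l 16915296) (l 16904472)) (a (l 16885072) (l 16930640)))))) (b (a (b (l 1) (b (l 1) (a (c (l 211024267335) (l 204044920919)) (l 1)))) (l 1)) (b (a (b (b (a (b (l 176127533783) (c (l 16932696) (a (l 16920984) (l 207802871591)))) (l 1)) (b (a (c (l 169685114903) (b (a (b (l 16917864)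 (l 16916416)) (a (b (l 173979992055) (l 167000660311)) (l 1))) (a (l 16914048) (l 169685022647)))) (l 1)) (a (c (l 16919728) (a (l 16909392) (l 165390039751))) (c (l 222298372583) (l 238941339975))))) (a (b (a (l 16906192) (a (l 16900928) (l 16897448))) (l 16889592)) (l 6))) (b (l 1) (l 6))) (a (a (b (b (l 16877336) (c (l 16867208) (l 16864072))) (a (l 16854344) (l 16892656))) (l 6)) (l 6)))))), by decide +kernel⟩

theorem s31_pm_101 : ∃ t, chk3 f_pm_101 t 3 3 1 = true := ex3_a k29_pm_101 k30_pm_101

theorem s32_pm_101 : ∃ t, chk3 f_pm_101 t 3 1 1 = true := ex3_b k28_pm_101 s31_pm_101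

theorem s33_pm_101 : ∃ t, chk3 f_pm_101 t 5 15 1 = true := ex3_b k26_pm_101 k27_pm_101

theorem s34_pm_101 : ∃ t, chk3 f_pm_101 t 5 7 1 = true := ex3_b k25_pm_101 s33_pm_101

theorem s35_pm_101 : ∃ t, chk3 f_pm_101 t 5 6 1 = true := ex3_b k23_pm_101 k24_pm_101

theorem s36_pm_101 : ∃ t, chk3 f_pm_101 t 5 3 1 = true := ex3_b s35_pm_101 s34_pm_101

theorem s37_pm_101 : ∃ t, chk3 f_pm_101 t 9 31 1 = true := ex3_a k21_pm_101 k22_pm_101

theorem s38_pm_101 : ∃ t, chk3 f_pm_101 t 9 15 1 = true := ex3_b k20_pm_101 s37_pm_101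

theorem s39_pm_101 : ∃ t, chk3 f_pm_101 t 17 63 1 = true := ex3_a k18_pm_101 k19_pm_101

theorem s40_pm_101 : ∃ t, chk3 f_pm_101 t 17 31 1 = true := ex3_b k17_pm_101 s39_pm_101

theorem s41_pm_101 : ∃ t, chk3 f_pm_101 t 33 63 3 = true := ex3_b k15_pm_101 k16_pm_101

theorem s42_pm_101 : ∃ t, chk3 f_pm_101 t 33 63 1 = true := ex3_c k14_pm_101 s41_pm_101

theorem s43_pm_101 : ∃ t, chk3 f_pm_101 t 33 31 1 = true := ex3_b k13_pm_101 s42_pm_101

theorem s44_pm_101 : ∃ t, chk3 f_pm_101 t 32 63 1 = true := ex3_b k11_pm_101 k12_pm_101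

theorem s45_pm_101 : ∃ t, chk3 f_pm_101 t 32 62 1 = true := ex3_b k9_pm_101 k10_pm_101

theorem s46_pm_101 : ∃ t, chk3 f_pm_101 t 32 31 1 = true := ex3_b s45_pm_101 s44_pm_101

theorem s47_pm_101 : ∃ t, chk3 f_pm_101 t 16 31 1 = true := ex3_a s46_pm_101 s43_pm_101

theorem s48_pm_101 : ∃ t, chk3 f_pm_101 t 8 31 1 = true := ex3_a s47_pm_101 s40_pm_101

theorem s49_pm_101 : ∃ t, chk3 f_pm_101 t 8 30 1 = true := ex3_a k7_pm_101 k8_pm_101

theorem s50_pm_101 : ∃ t, chk3 f_pm_101 t 8 15 1 = true := ex3_b s49_pm_101 s48_pm_101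

theorem s51_pm_101 : ∃ t, chk3 f_pm_101 t 4 15 1 = true := ex3_a s50_pm_101 s38_pm_101

theorem s52_pm_101 : ∃ t, chk3 f_pm_101 t 4 7 1 = true := ex3_b k6_pm_101 s51_pm_101

theorem s53_pm_101 : ∃ t, chk3 f_pm_101 t 4 6 1 = true := ex3_b k4_pm_101 k5_pm_101

theorem s54_pm_101 : ∃ t, chk3 f_pm_101 t 4 3 1 = true := ex3_b s53_pm_101 s52_pm_101

theorem s55_pm_101 : ∃ t, chk3 f_pm_101 t 2 3 1 = true := ex3_a s54_pm_101 s36_pm_101

theorem s56_pm_101 : ∃ t, chk3 f_pm_101 t 4 4 1 = true := ex3_a k0_pm_101 k1_pm_101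

theorem s57_pm_101 : ∃ t, chk3 f_pm_101 t 4 2 1 = true := ex3_b s56_pm_101 k2_pm_101

theorem s58_pm_101 : ∃ t, chk3 f_pm_101 t 2 2 1 = true := ex3_a s57_pm_101 k3_pm_101

theorem s59_pm_101 : ∃ t, chk3 f_pm_101 t 2 1 1 = true := ex3_b s58_pm_101 s55_pm_101

theorem s60_pm_101 : ∃ t, chk3 f_pm_101 t 1 1 1 = true := ex3_a s59_pm_101 s32_pm_101

theorem c_pm_101 : CertN 536870912 536870912 536870912 536870912 469762048 67108864 3 false true false .npn 1 0 1
    ndN0q1 ndN0q1 pcN0 cut_pm_101 Ext.none :=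
  certN0 (fam := false) (s1 := true) (s2 := false) (a := 1) (b := 0) (c := 1) (cn := .npn) (n1 := ndN0q1) (n2 := ndN0q1) (pc := pcN0) (cut := cut_pm_101) (xt := Ext.none) (P1 := 536870912) (W1 := 536870912) (P2 := 536870912) (W2 := 536870912) (P3 := 469762048) (W3 := 67108864) (N0 := 3)
    rfl s60_pm_101

end Pool.Agent.Strip051.G.I7_16_1_2.Tab.C.NB00

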