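import Pool.Agent.Strip051.G.I7_16_1_2.Tab

/-! # Certificates N13 (generated) -/

set_option linter.all false
set_option maxRecDepth 100000

namespace Pool.Agent.Strip051.G.I7_16_1_2.Tab.C.NB00

open Pool.Agent.Strip051.PB Pool.Agent.Strip051.PB.T
open Pool.Agent.Strip051.G.I7_16_1_2.Tab

noncomputable def cut_pm_102 : Cut := Cut.of [[⟨0, 1, 0, 67108864⟩, ⟨1, 0, 0, 67108864⟩, ⟨2, 1, 0, 67108864⟩], [⟨0, 0, 1, 33554432⟩, ⟨1, 1, 2, 33554432⟩, ⟨2, 1, 0, 33554432⟩]]

noncomputable def f_pm_102 : ℕ → ℕ → ℕ → ℕ → Bool := onCell 536870912 536870912 0 536870912 469762048 67108864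
    (rowN 3 0 false true false .npp 1 0 2 (qsf 536870912 536870912 0 536870912 0) ndN0q1 ndN0q2 pcN0 cut_pm_102 Ext.none)

def k0_pm_102 : ∃ t, chk3 f_pm_102 t 4 2 1 = true :=
  ⟨(a (l 2) (b (l 2) (a (l 2) (b (l 2) (a (l 2) (l 16891264)))))), by decide +kernel⟩

def k1_pm_102 : ∃ t, chk3 f_pm_102 t 5 4 1 = true :=
  ⟨(a (b (a (a (l 2) (l 3)) (l 3)) (a (a (l 2) (a (b (l 2) (l 16784744)) (b (b (b (l 3) (a (b (l 103247015383) (l 87677765623)) (l 105394522887))) (b (c (l 86604033639) (l 81235313527)) (l 16783632))) (b (l 16782216) (l 16784992))))) (b (a (c (b (l 3) (a (b (l 103783907959) (l 87140904343)) (b (l 3) (l 104857633591)))) (b (l 3) (a (b (l 105931363847) (l 81772185095)) (b (l 3) (l 108078847895))))) (l 3)) (a (b (a (b (l 16783224) (l 16782000)) (b (a (l 16785000) (l 86604034903)) (l 16782816))) (a (l 16783008) (l 16781768))) (b (a (b (a (l 103783882823) (l 116131920999)) (a (l 16784632) (l 86604040647))) (b (l 3) (a (l 106468237383) (l 3)))) (a (b (l 16782400) (l 16781384)) (b (a (l 16784280) (l 86604045495))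 (l 16781992)))))))) (b (l 3) (a (b (l 3) (a (b (l 3) (a (b (a (l 108615721271) (l 3)) (a (l 16804920) (l 86604049479))) (b (l 3) (a (l 110226334583) (l 3))))) (l 3))) (l 3)))), by decide +kernel⟩

def k2_pm_102 : ∃ t, chk3 f_pm_102 t 5 5 1 = true :=
  ⟨(a (b (a (a (l 483821524263) (b (l 16778128) (l 16805472))) (b (a (b (l 16787216) (l 16796592)) (a (l 16807232) (a (l 16784048) (l 16803752)))) (a (l 16774832) (l 16806832)))) (a (b (l 16864640) (l 16899576)) (b (a (l 16849936) (l 16839400)) (l 16880384)))) (b (a (b (a (b (a (b (l 16781584) (l 16780824)) (b (a (l 16804616) (l 105931359975)) (l 16781176))) (a (l 16783648) (l 16781208))) (b (c (a (b (l 113984440743) (l 98952039191)) (l 116131927767)) (a (b (l 116668786583) (l 96267676423)) (l 122574363591))) (a (b (l 16780768) (l 16780352)) (b (a (l 84993435367) (l 110226328119)) (l 16801344))))) (a (b (l 16769736) (l 16782904)) (b (a (l 16784496) (l 16781224)) (l 16751336)))) (b (a (b (l 3) (a (b (l 116668785911) (a (l 84993436807) (l 96267685847))) (l 3))) (l 3)) (a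 (b (a (b (l 16800952) (l 16780016)) (b (a (l 77477231367) (l 104857619511)) (l 70497903479))) (a (l 16785768) (c (l 16782920) (l 16779960)))) (b (a (b (l 3) (a (l 86604041975) (l 111836939895))) (l 3)) (a (c (l 81235339351) (l 16798640)) (b (a (l 90362134967) (l 114521293271)) (c (l 83919686231) (l 16799344)))))))) (a (b (a (l 16828272) (l 16816568)) (a (l 16864216) (l 16852424))) (b (a (b (l 16795968) (l 16812032)) (b (a (l 16765328) (b (l 16800576) (l 16783416))) (l 16796600))) (a (l 16838232) (b (l 16813032) (l 16830760))))))), by decide +kernel⟩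

def k3_pm_102 : ∃ t, chk3 f_pm_102 t 4 6 1 = true :=
  ⟨(a (l 2) (b (a (l 2) (b (l 16899280) (a (a (l 16837680) (l 16938768)) (l 16873696)))) (a (b (l 66672924583) (b (l 17030088) (l 16985592))) (b (a (l 17062808) (l 17034304)) (b (l 16982464) (l 16947552)))))), by decide +kernel⟩

def k4_pm_102 : ∃ t, chk3 f_pm_102 t 8 14 1 = true :=
  ⟨(a (l 2) (b (a (l 2) (l 16954336)) (a (b (l 2) (l 16871400)) (b (l 16896264) (l 16860672))))), by decide +kernel⟩

def k5_pm_102 : ∃ t, chk3 f_pm_102 t 16 15 1 = true :=
  ⟨(b (a (l 2) (b (l 16803408) (c (l 29628649879) (l 16732880)))) (b (a (a (l 2) (b (l 16649512) (c (l 16756536) (l 16630040)))) (c (b (l 16796568) (a (l 16773168) (l 16788912))) (a (b (l 16712792) (l 16691064)) (b (l 16730368) (l 16709192))))) (a (b (c (a (b (l 16726400) (l 16717992)) (c (l 16762840) (l 16717656))) (a (b (l 16592872) (l 16581432)) (a (l 16581768) (l 16591832)))) (c (a (b (c (l 16733816) (l 16685248)) (c (l 16705088) (a (b (l 16673408) (l 16668776)) (l 16660056)))) (c (b (l 16751656) (l 16744160))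 (b (l 16704360) (a (l 16690712) (l 16700168))))) (c (a (b (a (l 16631192) (l 16641640)) (a (b (l 16602136) (c (a (l 16627864) (l 16633160)) (l 14))) (b (l 16633672) (c (l 16640976) (a (l 14) (l 16618336)))))) (b (a (l 16651840) (l 16661792)) (a (b (l 16643976) (a (l 16615168) (l 16641264))) (b (l 16654024) (c (l 16661144) (l 16636488)))))) (c (c (a (l 14) (b (l 16626976) (a (l 14) (b (l 16623632) (l 16617928))))) (l 14)) (l 14))))) (b (c (a (l 16757416) (l 16773680)) (a (b (l 16674800) (c (l 16686360) (l 16641432))) (b (l 16693336) (c (l 16704560) (l 16660848))))) (c (a (b (l 16745584) (a (l 16691360) (l 16741976))) (c (l 16781016) (b (l 16739776) (l 16731312)))) (a (b (c (l 16655264) (a (l 16624656) (l 16634744))) (c (a (b (l 16663832) (l 16658704)) (b (l 16673400) (l 16668336))) (a (b (l 16594800) (c (a (l 16619528) (l 16624648)) (l 14))) (b (l 16625968) (c (l 16632192) (a (l 14) (l 16610552))))))) (b (c (l 16694704) (a (l 16644592) (l 16654200))) (c (a (l 16680232) (l 16689344)) (a (b (l 16635920) (c (l 16642056)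 (b (l 16619664) (l 16616656)))) (b (l 16645632) (c (l 16651672) (l 16628072)))))))))))), by decide +kernel⟩

def k6_pm_102 : ∃ t, chk3 f_pm_102 t 17 15 1 = true :=
  ⟨(b (a (b (l 16813688) (c (l 16831736) (b (l 16777672) (l 16757120)))) (b (c (l 16854144) (l 16800112)) (c (b (l 16834632) (l 16823056)) (b (l 16772008) (l 16755048))))) (b (c (a (b (l 16809792) (a (l 16796128) (l 16796128))) (b (l 16812944) (l 16804512))) (a (b (a (l 16737936) (l 16735520)) (a (l 16717296) (b (l 16721048) (l 16712312)))) (b (a (l 16736648) (l 16743064)) (a (l 16722592) (l 16731232))))) (a (c (b (a (l 16760696) (l 16785424)) (b (a (c (l 16793912) (l 16749696)) (l 16779120)) (a (a (l 16764328) (l 16768328)) (l 16775424)))) (b (a (b (l 16701776) (a (l 16691808) (l 16691928))) (b (l 16704480) (l 16697632))) (a (b (a (c (l 16703880) (l 16659144)) (c (l 16706152) (l 16661520))) (a (c (b (l 16697352) (l 16693656)) (b (a (l 16650712) (l 16651968)) (a (c (l 16657536) (b (l 16635184) (l 16632896))) (l 16648272)))) (c (l 16700136) (b (l 16656016)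 (c (l 16664136) (l 16640976)))))) (c (b (l 16713448) (c (l 16719408) (l 16696872))) (b (l 16669416) (a (b (l 16661664) (c (l 16669872) (l 16646928))) (b (l 16667432) (c (l 16675720) (b (l 16653808) (l 16652224)))))))))) (c (b (a (l 16793320) (l 16801760)) (c (l 16812896) (a (l 16764984) (l 16775112)))) (b (a (c (l 16731224) (l 16689776)) (b (l 16723104) (l 16718056))) (a (c (b (l 16723776) (c (l 16730232) (l 16708144))) (b (l 16680600) (a (b (l 16673312) (b (l 16671160) (a (l 16647232) (l 16650320)))) (b (l 16679296) (c (l 16687728) (a (l 16663912) (l 16667080))))))) (c (b (l 16734448) (c (l 16741368) (l 16719752))) (b (l 16692168) (a (b (l 16685360) (c (l 16693864) (a (l 16670272) (l 16673480)))) (b (l 16691504) (b (l 16689776) (a (l 16666080) (l 16669288))))))))))))), by decide +kernel⟩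

def k7_pm_102 : ∃ t, chk3 f_pm_102 t 9 7 1 = true :=
  ⟨(b (a (b (a (l 16936520) (l 16920576)) (a (b (l 16883592) (l 16852064)) (b (l 16875144) (l 16850824)))) (b (a (l 16909104) (l 16901744)) (a (b (l 16872984) (l 16853712)) (b (l 16872320) (l 16857160))))) (b (a (b (a (a (l 16823872) (l 16825704)) (l 16830688)) (a (c (l 16835256) (l 16771392)) (c (l 16845232) (l 16783792)))) (b (a (l 16837944) (l 16845512)) (a (c (l 16855584) (l 16796800)) (c (l 16865952) (l 16810008))))) (a (b (a (a (b (l 16786104) (l 16756864)) (b (l 16793288) (l 16786248))) (c (l 16836520) (b (l 16770752) (l 16763520)))) (a (c (b (l 16793816) (a (l 16785288) (l 16816280))) (b (a (c (l 16750760) (l 16711016)) (l 16720480)) (a (c (b (l 16745376) (l 16742192)) (b (l 16704040) (a (b (l 16697720) (a (l 16673040) (l 16697232))) (c (l 16713576) (b (l 16693512) (l 16691456)))))) (c (b (l 16756504) (l 16754000)) (b (l 16716144) (a (c (l 16719864) (l 16699024)) (l 16715912))))))) (c (b (l 16832584) (a (l 16826368) (l 16836456))) (b (a (l 16752184) (l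 16763008)) (a (c (l 16766800) (b (l 16728408) (a (l 16722408) (l 16728928)))) (c (l 16778440) (b (l 16740768) (l 16738728)))))))) (b (a (c (l 16851072) (b (l 16787408) (l 16782672))) (c (l 16865432) (b (l 16804112) (l 16801784)))) (c (a (b (l 16850400) (l 16851448)) (b (l 16867864) (l 16871024))) (a (b (a (l 16773880) (l 16784728)) (a (a (l 16768232) (l 16753344)) (c (l 16801648) (b (l 16765536) (l 16764864))))) (b (a (l 16795504) (l 16806160)) (a (c (l 16813112) (b (l 16777824) (l 16777816))) (b (l 16806872) (b (l 16807568) (a (l 16805104) (l 16811224)))))))))))), by decide +kernel⟩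

def k8_pm_102 : ∃ t, chk3 f_pm_102 t 5 6 1 = true :=
  ⟨(a (a (a (b (b (l 16938736) (b (l 16964672) (l 16984792))) (b (b (l 17021984) (l 16998648)) (l 16949168))) (b (l 16947936) (b (b (l 16998560) (l 16999776)) (l 16954264)))) (b (b (l 16916464) (l 16952192)) (c (b (l 16966032) (l 16949384)) (b (b (l 16960808) (l 16990952)) (l 16966560))))) (b (a (b (l 16811016) (l 16917416)) (b (a (l 16864104) (l 16846576)) (a (l 16885504) (l 16866744)))) (a (a (b (l 16951968) (l 16953216)) (b (l 16929752) (b (l 16943880) (l 16938904)))) (b (l 16897768) (a (l 16988648) (l 16908352)))))), by decide +kernel⟩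

def k9_pm_102 : ∃ t, chk3 f_pm_102 t 5 7 1 = true :=
  ⟨(a (b (a (b (b (l 16917976) (l 16900848)) (a (b (l 16879328) (l 16867896)) (l 16974456))) (b (b (l 16930832) (l 16919600)) (b (l 16912296) (l 16971656)))) (a (b (b (a (l 16860048) (l 16882440)) (a (c (l 16882240) (l 16830696)) (l 16882032))) (b (a (c (l 16885448) (b (l 16828112) (l 16828056))) (c (l 16911600) (b (l 16860328) (l 16862360)))) (c (a (b (l 16890752) (a (l 16887616) (l 16903888))) (b (l 16919472) (l 16926328))) (a (b (a (l 16819688) (l 16838936)) (a (c (l 16838392) (b (l 16805136) (a (a (l 16798544) (l 16803352)) (l 16811792)))) (c (l 16857728) (b (l 16826264) (l 16828128))))) (b (a (l 16857200) (l 16874280)) (a (c (l 16876040) (l 16847536)) (l 16879864))))))) (b (b (a (l 16901168) (l 16916216)) (a (l 16904072) (l 16922168))) (c (a (b (l 16933640) (l 16947856)) (b (l 16951576) (l 16968456))) (b (a (l 16890104) (l 16914600)) (a (b (l 16897648) (a (l 16896720) (l 16912352))) (b (l 16924736) (l 16933472)))))))) (b (a (a (b (l 16928648) (l 16922384))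 (b (l 16927464) (l 16926448))) (b (b (l 16921072) (l 16920496)) (b (l 16986600) (l 16972480)))) (b (a (a (b (l 16927656) (l 16936408)) (b (l 16935608) (l 16946904))) (a (b (l 16940136) (l 16953736)) (l 17012024))) (b (a (a (l 16949760) (l 16962720)) (a (l 16971728) (l 16977160))) (a (a (c (l 16984672) (l 16952192)) (l 16983456)) (a (l 16994416) (l 17001440))))))), by decide +kernel⟩

def k10_pm_102 : ∃ t, chk3 f_pm_102 t 3 2 1 = true :=
  ⟨(a (b (l 3) (a (b (a (b (l 3) (a (b (l 3) (a (b (l 3) (a (l 100025798087) (l 117205646487))) (l 3))) (l 3))) (l 3)) (a (b (a (a (b (b (c (l 86067159127) (l 81772190951)) (l 16800416)) (l 16786064)) (c (b (b (l 112373832999) (l 88214650535)) (l 16802920)) (b (b (l 116668770359) (l 84993418087)) (l 16800552)))) (b (a (b (l 3) (a (b (l 3) (l 96804579815)) (l 3))) (l 3)) (a (b (a (l 76940344503) (b (l 108078838551) (l 84456537895))) (a (l 16779736) (l 16799776))) (b (a (b (l 3) (l 109152580039)) (l 3)) (a (c (l 86067163175) (l 16799504)) (b (l 110763192359) (l 86067159191))))))) (a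 (b (l 16817640) (l 16813568)) (a (b (l 16785648) (l 16800640)) (b (b (a (l 16779504) (l 16799712)) (c (l 16783504) (l 16781432))) (l 16792408))))) (b (a (a (a (b (l 3) (c (l 122574354135) (l 128479924935))) (l 3)) (l 3)) (l 3)) (a (c (b (a (b (a (b (l 94657100055) (l 16780328)) (l 103783893879)) (l 16800872)) (b (l 3) (a (b (l 111836935367) (l 16780544)) (b (l 3) (l 118279386263))))) (b (a (l 16783104) (a (l 16780072) (l 86067158903))) (l 16806720))) (b (a (b (a (l 86067149239) (l 111300058807)) (l 16798680)) (b (l 3) (a (l 89825247831) (l 114521283351)))) (a (l 16763032) (a (l 16800696) (b (l 16788256) (l 16779568)))))) (c (b (l 3) (a (b (a (b (l 118279386007) (l 95193962199)) (b (l 3) (l 117742514711))) (a (l 16779808) (b (a (l 16780552) (l 97341441575)) (l 16779632)))) (b (l 3) (a (b (l 117205643287) (a (l 16780808) (l 112373804231))) (l 121500609111))))) (b (l 3) (a (a (b (b (l 119353121479) (l 16789416)) (l 16777832)) (b (l 122037474823) (l 86067149239))) (b (l 3) (a (b (l 119353120503) (l 105931368231)) (l 126332440423))))))))))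 (l 3))) (l 3)), by decide +kernel⟩

def k11_pm_102 : ∃ t, chk3 f_pm_102 t 12 6 1 = true :=
  ⟨(b (a (b (a (l 16831264) (b (l 16813728) (l 16822016))) (a (l 16850288) (l 16835768))) (b (a (b (a (l 16800320) (l 16791792)) (l 16809840)) (b (a (c (l 16806000) (l 16804296)) (c (b (a (l 16800552) (b (a (l 97341438711) (l 113447545991)) (l 16779672))) (a (l 16783120) (l 16780536))) (b (a (l 16798640) (b (l 97341433783) (l 16777720))) (l 16801040)))) (a (l 16799712) (b (l 16787120) (l 16795000))))) (a (b (l 16818200) (l 16827232)) (b (a (l 16809424) (l 16803896)) (l 16815168))))) (a (b (a (l 16870976) (l 16855640)) (a (l 16892432) (l 16877320))) (b (a (l 16841856) (c (l 16828568) (l 16831208))) (a (l 16862952) (l 16849784))))), by decide +kernel⟩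

def k12_pm_102 : ∃ t, chk3 f_pm_102 t 26 24 1 = true :=
  ⟨(a (b (c (a (b (a (b (l 3) (a (l 97341440327) (l 114521287559))) (l 3)) (a (b (l 89825245783) (l 16779648)) (b (a (l 111836932007) (l 115595028951)) (a (l 16779552) (l 97341437911))))) (b (l 3) (a (b (l 3) (a (l 112910673863) (l 3))) (l 3)))) (a (b (a (b (l 3) (l 100562659207)) (l 3)) (a (l 16789376) (b (a (l 109689443447) (l 116131894199)) (l 86067141095)))) (a (b (l 3) (c (l 115595023559) (l 120963729991))) (l 3)))) (c (a (b (c (l 16802528) (l 16801752)) (l 16787248)) (b (a (b (a (l 16779656) (b (l 112373802455) (l 16780272))) (l 16779368)) (b (a (l 114521286375) (l 3)) (a (l 93046465175) (b (l 112910673335) (l 101636395911))))) (a (l 16781944) (l 16790136)))) (a (b (l 16800608) (l 16785752)) (b (a (b (l 88751497127) (l 16777680)) (b (l 117742506215) (a (l 16788560) (l 109689463735)))) (a (l 16780536) (l 16799072)))))) (c (b (l 3) (a (b (a (b (l 3) (l 118279376567)) (l 3)) (a (b (a (b (l 100025786679) (l 16779608)) (b (l 113447543943) (l 110763191511)))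 (l 16789688)) (b (l 119353122711) (a (b (l 112373801399) (l 16779864)) (b (l 3) (l 112373801431)))))) (l 3))) (b (l 3) (a (b (a (l 121500600327) (l 3)) (a (b (a (l 88214620263) (l 111836926327)) (l 16788040)) (b (l 119889988215) (a (b (l 94657068759) (l 16778208)) (l 113984409639))))) (l 3))))), by decide +kernel⟩

def k13_pm_102 : ∃ t, chk3 f_pm_102 t 26 25 1 = true :=
  ⟨(a (b (a (l 16798648) (b (l 16806864) (l 16793736))) (a (l 16806720) (l 16801256))) (b (a (b (a (l 16801592) (b (a (l 16788840) (c (l 91972723159) (l 86604012391))) (l 16800168))) (a (l 16787176) (l 16783232))) (b (a (c (b (a (b (l 112910672295) (l 100025783655)) (l 115595026583)) (a (l 16779104) (b (a (l 16780080) (l 110226321719)) (l 16779312)))) (b (a (b (l 112910667815) (l 94120205463)) (l 116668763639)) (a (l 16777544) (l 89288361911)))) (b (l 3) (a (b (c (l 113984413767) (l 115058151031)) (c (a (l 102710134263) (l 111836929863)) (l 93583326343))) (l 3)))) (c (a (l 16791080) (b (a (l 16789600) (b (a (l 100562654727) (l 111836929831)) (l 95730814231)))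 (l 16779376))) (a (l 16800312) (b (c (l 91435847799) (l 89825233527)) (l 16778032)))))) (a (b (l 16792928) (l 16797928)) (b (a (l 16786336) (l 16803384)) (l 16792008))))), by decide +kernel⟩

def k14_pm_102 : ∃ t, chk3 f_pm_102 t 27 24 1 = true :=
  ⟨(l 3), by decide +kernel⟩

def k15_pm_102 : ∃ t, chk3 f_pm_102 t 54 25 1 = true :=
  ⟨(b (a (b (l 3) (a (b (a (b (l 3) (c (a (l 111836929351) (l 111836929703)) (l 112373796455))) (l 3)) (a (b (c (l 100025780583) (l 94120202647)) (l 16788728)) (b (c (a (l 111836929415) (l 3)) (l 113447538135)) (c (a (l 16779576) (l 98952042887)) (l 90362100503))))) (b (l 3) (a (b (l 3) (c (l 113447542039) (l 116131892455))) (l 3))))) (l 3)) (a (c (b (a (b (l 16789640) (l 16781048)) (b (a (b (a (l 100025776791) (l 111836928967)) (l 16779080)) (b (l 113984412679) (a (l 100562652215) (l 111836928999)))) (c (l 92509588679) (l 16789104)))) (a (l 16785872) (l 16782016))) (b (a (b (l 16788296) (l 16779944)) (b (a (b (l 92509584599) (l 16777616)) (b (l 115595021239) (a (l 108078831687) (l 112373797751))))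 (c (l 16788440) (l 16787816)))) (a (l 16784856) (l 16781008)))) (b (a (b (l 3) (a (b (c (a (b (l 110763189959) (l 16785208)) (l 111836928903)) (a (l 91435844407) (l 113447537799))) (c (a (l 16779064) (l 98415165303)) (l 89288362935))) (b (l 3) (c (c (l 112910671559) (l 112910669527)) (l 113447537719))))) (l 3)) (a (b (a (c (l 16779024) (l 16777768)) (b (c (c (l 99488910647) (l 97341427447)) (l 90362100007)) (c (l 16778848) (l 16777520)))) (a (l 16801424) (l 16789520))) (c (b (a (b (a (l 111836928583) (l 3)) (a (l 100562645511) (b (l 111300057543) (l 104320743959)))) (c (l 116668767111) (l 117742506759))) (a (l 16789336) (b (a (c (l 102173261959) (l 99488908151)) (b (l 110226315639) (l 109689449239))) (l 16784136)))) (b (a (b (l 115595021159) (a (l 16777992) (l 94657066087))) (l 118816245639)) (a (l 16788072) (b (a (l 102710123447) (l 112373795719)) (l 16788048))))))))), by decide +kernel⟩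

def k16_pm_102 : ∃ t, chk3 f_pm_102 t 55 25 1 = true :=
  ⟨(b (l 3) (a (b (l 3) (a (b (l 3) (a (b (l 3) (c (a (b (l 111836928039) (l 16784760)) (b (l 3) (l 111300057175))) (a (l 92509583143) (l 113984408327)))) (l 3))) (l 3))) (l 3))), by decide +kernel⟩

def k17_pm_102 : ∃ t, chk3 f_pm_102 t 26 13 1 = true :=
  ⟨(b (a (c (l 16817136) (l 16818736)) (b (a (l 16804328) (l 16819792)) (c (l 16810552) (l 16811400)))) (a (a (l 16840464) (l 16834384)) (c (l 16825768) (l 16826168)))), by decide +kernel⟩

def k18_pm_102 : ∃ t, chk3 f_pm_102 t 54 26 1 = true :=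
  ⟨(a (b (b (l 16811944) (l 16795480)) (l 16802104)) (b (b (a (l 16805360) (b (c (l 16790304) (l 16789256)) (l 16782128))) (a (l 16791456) (l 16787568))) (c (l 16796368) (l 16797000)))), by decide +kernel⟩

def k19_pm_102 : ∃ t, chk3 f_pm_102 t 110 52 1 = true :=
  ⟨(b (a (c (b (a (b (c (l 97878292743) (l 16783872)) (l 16778840)) (b (a (b (l 110763186247) (l 102173262215)) (l 112373798871)) (a (l 16778896) (c (l 100562650887) (l 97878297239))))) (l 16789912)) (b (a (l 84456521655) (b (a (l 96804548423) (l 114521278983)) (l 87140874135))) (l 16788872))) (b (a (a (b (l 3) (c (c (l 111836928775) (l 112373797895)) (l 112910666391))) (l 3)) (l 3)) (c (a (b (a (l 98415163655) (b (l 111300056807) (l 104320742471))) (l 16778712)) (c (b (l 113984412135) (a (l 101636389831) (b (l 109689444935) (l 109689448471)))) (b (l 115058152071) (a (l 96267681399) (l 111836926679))))) (a (b (a (l 16777752) (l 91435839559)) (l 16777504)) (b (l 116668762263) (a (l 91435845159) (l 112373795335))))))) (a (b (l 16792088) (l 16785072)) (b (a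 (l 16789616) (c (c (l 16784288) (l 16788920)) (l 16785472))) (l 16796784)))), by decide +kernel⟩

def k20_pm_102 : ∃ t, chk3 f_pm_102 t 111 52 1 = true :=
  ⟨(b (a (b (l 3) (a (b (l 3) (c (l 115058152583) (l 117205632743))) (l 3))) (l 3)) (a (b (a (b (c (a (b (a (l 103783872823) (l 110226314775)) (l 16782112)) (c (l 111836928343) (l 112910668455))) (a (l 90362097431) (l 113984407959))) (c (c (l 97341421127) (l 94657065911)) (c (l 16783064) (l 16787768)))) (b (l 3) (c (a (c (a (l 111836927447) (l 111300057223)) (l 111300055447)) (b (l 3) (l 110763185511))) (a (b (l 112910666135) (l 107005089063)) (l 115058149511))))) (a (c (l 16779216) (l 16778240)) (b (a (c (l 16778680) (l 16777512)) (c (b (a (l 104857611271) (l 110226317687)) (l 16778912)) (l 89288355255))) (c (l 16778720) (l 16777656))))) (b (l 3) (a (a (c (b (b (l 110226314503) (a (l 103247001575) (l 110226314439))) (c (l 16784344) (l 16778456))) (b (b (l 112910665943) (l 111836926311)) (l 16782848))) (b (l 3) (c (b (a (l 109689447559) (l 109152572599)) (c (l 104857611751)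 (l 16778848))) (b (l 97878290151) (l 95193937815))))) (a (b (l 3) (c (c (l 112373798807) (l 113447538967)) (l 115058149479))) (l 3)))))), by decide +kernel⟩

def k21_pm_102 : ∃ t, chk3 f_pm_102 t 55 53 1 = true :=
  ⟨(a (b (a (l 16790192) (l 16796816)) (l 16803560)) (c (b (a (b (l 16780896) (l 16784152)) (b (a (l 16786728) (c (b (a (b (l 102173260151) (l 16779040)) (b (l 110226315095) (l 111836927159))) (l 16778872)) (b (a (l 95193939207) (b (l 111836926215) (l 110763185863))) (l 16778280)))) (l 16790824))) (a (l 16788664) (l 16785272))) (b (a (l 16789584) (b (a (l 16788360) (b (a (b (l 106468217975) (l 16777576)) (b (l 113984407703) (l 110763184503))) (l 16782728))) (l 16790040))) (l 16797336)))), by decide +kernel⟩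

def k22_pm_102 : ∃ t, chk3 f_pm_102 t 27 27 1 = true :=
  ⟨(c (a (a (l 16817008) (l 16811120)) (b (a (l 16800112) (l 16794200)) (l 16807240))) (a (b (l 16809048) (l 16818904)) (b (a (l 16800256) (l 16794456)) (l 16806808)))), by decide +kernel⟩

def k23_pm_102 : ∃ t, chk3 f_pm_102 t 6 7 1 = true :=
  ⟨(b (a (a (b (b (a (l 16907456) (l 16893472)) (l 16906200)) (c (a (l 16924736) (l 16917872)) (l 16907752))) (b (b (a (l 16879688) (l 16866480)) (a (l 16891192) (a (l 16902352) (b (l 16872048) (l 16919888))))) (a (c (b (l 16902200) (l 16937312)) (l 16907952)) (b (a (l 16893272) (l 16887144)) (l 16903192))))) (a (b (b (a (l 16853712) (l 16841336)) (a (l 16865184) (l 16852768))) (b (c (a (l 16878864) (l 16866048)) (a (l 16878992) (l 16886088))) (a (l 16890656) (l 16877912)))) (b (a (b (l 16829152) (c (l 16841640) (l 16840456))) (a (b (l 16820056) (l 16831056)) (b (l 16813960) (l 16824832)))) (b (a (c (l 16853704) (l 16851984)) (c (l 16841296) (l 16839112))) (c (a (l 16867208) (b (l 16850680) (l 16857392))) (a (l 16885864)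 (a (l 16854504) (l 16847664)))))))) (a (a (a (b (l 16990984) (b (l 17041968) (c (l 17005960) (l 17038192)))) (b (b (l 16937264) (a (l 16956752) (l 16953328))) (b (l 16972888) (l 16990688)))) (a (b (a (b (l 16932120) (l 16947792)) (l 16934072)) (l 16969928)) (b (l 16924864) (l 16957864)))) (a (a (b (l 16912480) (l 16945464)) (b (l 16920736) (l 16932568))) (a (b (b (l 16879088) (l 16894312)) (l 16940088)) (b (b (l 16865672) (l 16880712)) (b (l 16896680) (l 16913496))))))), by decide +kernel⟩

def k24_pm_102 : ∃ t, chk3 f_pm_102 t 14 12 1 = true :=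
  ⟨(l 3), by decide +kernel⟩

def k25_pm_102 : ∃ t, chk3 f_pm_102 t 56 52 1 = true :=
  ⟨(l 3), by decide +kernel⟩

def k26_pm_102 : ∃ t, chk3 f_pm_102 t 112 53 1 = true :=
  ⟨(b (a (b (a (b (c (a (l 113447539463) (l 3)) (l 117742503175)) (c (c (a (b (l 111300056551) (l 16779216)) (b (l 3) (l 111300056631))) (a (b (l 111300056071) (l 16778592)) (l 113447538791))) (a (b (l 96267676759) (l 16777776)) (l 114521278503)))) (l 3)) (c (a (a (l 16778752) (b (c (l 99488903063) (l 96804549095)) (l 16778680))) (b (c (a (b (l 110763185719) (a (l 16779280) (l 110226317479))) (l 112373798279)) (a (b (l 112373796935) (l 108615704055)) (l 113984409431))) (a (l 16778528) (b (a (l 103246998647) (c (l 111300056375) (l 111300056087))) (l 16783936))))) (c (a (l 89825228791) (b (a (l 109689440887) (l 115595020695)) (l 89825225495))) (a (l 16782600) (b (a (l 111300052455) (l 116668761207)) (l 88751482695)))))) (b (l 3) (a (b (l 3) (a (c (b (l 110763184743) (c (a (l 109152576839) (l 109689443687)) (l 111836925751))) (b (l 113447536471) (l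 97878287863))) (l 3))) (l 3)))) (a (b (a (l 16790736) (c (l 16784360) (l 16788752))) (l 16793008)) (b (a (b (c (c (a (l 101099512839) (b (a (l 111836927079) (l 108615701831)) (l 103246999463))) (a (l 16783536) (b (l 111836925783) (l 98952032647)))) (a (l 93046452023) (b (l 112910665703) (l 94120196183)))) (c (l 16783816) (l 16788112))) (a (b (a (c (c (l 111300056311) (l 112373796663)) (l 114521278327)) (l 3)) (c (b (a (l 16781480) (b (l 109689445671) (l 106468222711))) (l 16778536)) (a (l 16782800) (l 90362095783)))) (b (l 3) (c (b (a (l 109689442775) (l 3)) (c (a (l 105394481847) (l 110763185159)) (l 110763184823))) (b (l 114521278247) (l 93583320471)))))) (a (c (l 16790504) (l 16779296)) (b (c (c (l 16783984) (l 16783464)) (a (l 16777680) (l 16782712))) (l 16789232)))))), by decide +kernel⟩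

def k27_pm_102 : ∃ t, chk3 f_pm_102 t 113 53 1 = true :=
  ⟨(b (l 3) (a (b (a (a (c (c (l 117205635143) (l 118279375367)) (l 119353115047)) (l 3)) (l 3)) (a (a (b (c (b (c (a (l 109689446471) (l 109689443367)) (l 111836925527)) (c (l 103246996871) (l 16778416))) (b (a (l 109152572039) (l 112373797287)) (l 95730806071))) (c (l 16778472) (l 16777544))) (b (b (l 3) (c (a (c (l 111300055895) (l 110226313895)) (l 109152571687)) (l 113447536455))) (c (a (l 16783720) (b (c (l 107541964375) (l 110763186071)) (l 16778496))) (l 89288354231)))) (b (l 3) (a (c (c (b (l 110763185047) (a (l 16779056) (l 111836926615))) (b (l 112373796407) (l 109152572999))) (b (l 113984407287) (l 91972707575))) (c (c (l 113447539303) (l 115058150599)) (l 116668761399)))))) (l 3))), by decide +kernel⟩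

def k28_pm_102 : ∃ t, chk3 f_pm_102 t 57 26 1 = true :=
  ⟨(l 3), by decide +kernel⟩

def k29_pm_102 : ∃ t, chk3 f_pm_102 t 56 27 1 = true :=
  ⟨(b (a (a (b (l 16798112) (l 16792088)) (b (c (l 16794320) (l 16793776)) (l 16789176))) (b (a (c (b (a (l 16789944) (b (a (l 16783656) (c (b (a (l 103783869751) (l 110763184887)) (l 16778800)) (b (a (l 108078832359) (l 111300054487)) (l 16778256)))) (l 16783952))) (l 16791912)) (b (a (l 16789216) (b (a (l 16782704) (b (a (l 107541959703) (l 97341418119)) (l 16782784))) (l 16777888))) (l 16780856))) (b (a (b (b (l 3) (a (c (c (a (l 110226316167) (l 109689443063)) (l 111836925319)) (a (l 109689442439) (l 113447536343))) (l 3))) (c (c (a (b (l 103246997495) (l 16778640)) (b (a (l 110763184711) (l 108615701143)) (a (l 16778848) (l 109689445991)))) (a (l 96267676839) (b (l 112373796215) (a (l 16778312) (l 109689443495))))) (a (c (l 16782936) (l 16782504)) (b (a (l 96804546743) (l 110763181655)) (l 90898966167))))) (a (a (b (l 3) (c (b (l 3) (c (l 109689442919) (l 111300054375)))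 (l 115595019767))) (l 3)) (l 3))) (c (c (a (l 16784376) (b (a (b (a (l 104857609175) (l 111300055447)) (l 16778656)) (b (l 111300055479) (a (l 107005093111) (l 110226313687)))) (a (l 16778776) (l 99488899879)))) (a (l 16783984) (b (a (b (a (l 16778448) (l 111300055303)) (l 16778152)) (b (l 112910666887) (a (l 108615702215) (l 111300054263)))) (l 94657062759)))) (c (a (l 16778368) (b (a (l 91972707079) (b (l 113984407495) (l 111836923975))) (l 16782976))) (a (l 16778008) (b (a (l 90898964583) (l 113984406615)) (l 16782584))))))) (a (b (l 16795144) (l 16787400)) (b (b (c (l 16790488) (l 16789872)) (l 16789136)) (l 16794368))))) (c (a (l 16798088) (b (l 16789384) (l 16794408))) (a (l 16797840) (b (l 16789552) (l 16794192))))), by decide +kernel⟩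

def k30_pm_102 : ∃ t, chk3 f_pm_102 t 114 108 1 = true :=
  ⟨(a (b (l 3) (a (b (l 3) (b (a (c (a (c (a (l 110226316471) (l 110763184487)) (l 111300055319)) (c (l 109152571831) (l 111300054215))) (a (l 93046449879) (l 113447536167))) (l 3)) (a (a (c (l 16778424) (l 16777504)) (c (c (l 103783869015) (l 107541961287)) (l 107005088567))) (a (c (c (l 110763184455) (l 111836925079)) (l 99488899863)) (l 3))))) (l 3))) (l 3)), by decide +kernel⟩

def k31_pm_102 : ∃ t, chk3 f_pm_102 t 228 109 1 = true :=
  ⟨(b (b (a (c (a (l 16778400) (b (a (c (l 16778768) (l 16778264)) (c (b (l 110226314743) (l 16781648)) (l 110226313607))) (l 16778320))) (a (l 16777576) (c (l 91435835751) (l 90362093127)))) (a (c (c (b (l 111300055287) (a (l 103783868615) (b (l 108078829847) (l 111300057351)))) (b (l 112910666759) (a (l 104857608135) (l 111836924967)))) (b (l 115058148727) (a (l 104320735767) (l 97878286583)))) (c (c (l 114521280247) (l 115595020775)) (l 117205631767)))) (c (c (a (l 16779120) (a (l 16783784) (b (a (b (l 110763185703) (l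 16778904)) (l 110226313415)) (l 101636383623)))) (a (l 16778752) (a (l 16778080) (b (a (l 109689442855) (l 111300054039)) (l 98952029719))))) (a (l 16778240) (a (l 16782704) (c (b (l 111836923847) (l 16777720)) (l 94657061847)))))) (c (a (l 16780960) (a (l 16790096) (l 16784104))) (a (l 16780456) (b (l 16783216) (l 16779304))))), by decide +kernel⟩

def k32_pm_102 : ∃ t, chk3 f_pm_102 t 229 109 1 = true :=
  ⟨(b (a (b (l 3) (b (l 3) (a (c (a (c (a (l 110763186183) (l 110226313335)) (l 111300054759)) (c (l 109152571495) (l 111300053943))) (a (l 96804544375) (l 113447535975))) (l 3)))) (l 3)) (a (b (c (a (b (a (l 16783608) (b (c (l 111300056775) (l 111836926263)) (l 16780512))) (l 16778280)) (c (b (a (l 110763184199) (l 3)) (a (l 104857607911) (b (l 109689442327) (l 109152574951)))) (b (l 112910666631) (a (l 16778232) (l 110763183879))))) (a (c (l 91435835943) (l 16780864)) (c (b (l 114521278279) (l 94120189959)) (l 111836922855)))) (c (c (l 16783904) (l 16778272)) (a (l 16778048) (l 16782752)))) (b (a (c (c (l 114521280087)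 (l 116131891591)) (l 117742505287)) (l 3)) (b (a (c (a (b (c (l 110763186151) (l 111836926279)) (l 16778456)) (b (l 107541958055) (c (l 110763185447) (l 111836925943)))) (a (c (l 108078829319) (l 16777608)) (l 112910665111))) (l 3)) (c (c (a (l 16781136) (a (b (l 110226313111) (l 107541962887)) (l 110226313111))) (a (l 16778064) (a (l 111300054759) (l 111836924711)))) (a (l 95193932903) (a (l 95193931175) (l 113984406839)))))))), by decide +kernel⟩

def k33_pm_102 : ∃ t, chk3 f_pm_102 t 115 54 1 = true :=
  ⟨(l 3), by decide +kernel⟩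

def k34_pm_102 : ∃ t, chk3 f_pm_102 t 114 55 1 = true :=
  ⟨(c (b (a (l 16793296) (b (a (l 16790720) (b (a (l 16778496) (b (a (l 16778264) (b (c (l 110226315623) (l 111300055559)) (l 16778384))) (l 16778264))) (l 16789696))) (l 16782440))) (a (l 16789672) (l 16786496))) (b (a (l 16789920) (b (a (l 16779728) (b (c (l 90898965495) (l 88751480983)) (l 16778632))) (l 16782064))) (a (l 16789680) (l 16786680)))), by decide +kernel⟩

def k35_pm_102 : ∃ t, chk3 f_pm_102 t 115 110 1 = true :=
  ⟨(a (b (a (b (b (a (a (c (b (l 108615699783) (c (l 111300056359) (l 111836925975))) (l 101099510583)) (l 3)) (l 3)) (a (c (a (c (l 16778552) (l 16778096)) (c (a (l 107005091895) (l 111300054711)) (l 110226313031))) (c (l 93046448087) (l 92509575143))) (a (c (c (l 110226312999) (l 111836924631)) (l 113984406823)) (l 3)))) (c (c (a (l 16778504) (b (a (l 101636384487) (b (l 108615700247) (l 110763185751))) (l 16778432))) (a (l 16778112) (b (a (l 102710124759) (l 111836924583)) (l 16778000)))) (a (l 16782824) (a (l 90362094023) (b (l 100025769031)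 (l 16777464)))))) (b (l 3) (a (c (c (b (l 112373796327) (a (b (l 110763185111) (l 16778672)) (l 110226312887))) (b (l 113447537015) (a (l 110226313207) (l 111836924567)))) (b (l 114521277319) (a (l 93583318423) (l 113447535879)))) (l 3)))) (c (a (b (l 16784144) (l 16780240)) (b (a (c (c (l 98415158199) (l 97341416615)) (l 95193933335)) (b (a (c (b (l 109152571047) (l 110226315239)) (l 111300053559)) (b (l 3) (l 108615702183))) (a (l 16780840) (b (c (l 110763185207) (l 111300054727)) (l 107005090039))))) (a (l 16778960) (l 16783584)))) (a (b (l 16783544) (l 16769296)) (b (c (a (l 93046450087) (b (l 113447536279) (l 92509577559))) (a (l 16782520) (b (l 113984406343) (l 91435833079)))) (l 16783240))))) (b (l 3) (a (b (b (l 3) (a (a (b (l 3) (c (c (l 110763183639) (l 111300054535)) (l 111836925271))) (l 3)) (l 3))) (c (c (a (b (a (l 102710124439) (b (l 109689441831) (l 109152574023))) (l 16778368)) (b (l 112373796151) (a (b (l 110763185223) (l 16778504)) (b (l 107541958119) (l 110226313815))))) (a (b (a (l 16778080) (l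 111300053463)) (l 16777968)) (b (l 113984407815) (a (l 107005088807) (l 111836924407))))) (a (c (c (l 93583319063) (l 93046447783)) (l 92509577671)) (b (l 115058148215) (a (l 92509576359) (b (l 110226310263) (l 111836925207))))))) (l 3)))), by decide +kernel⟩

def k36_pm_102 : ∃ t, chk3 f_pm_102 t 115 111 1 = true :=
  ⟨(a (a (b (l 16793008) (l 16785392)) (b (b (l 16790128) (l 16781248)) (l 16783864))) (b (a (c (a (l 16784496) (b (b (c (l 101099510839) (l 16780584)) (l 16778312)) (l 16779080))) (b (c (l 16780496) (l 16782824)) (l 16784264))) (b (b (a (c (c (a (b (l 109689441719) (l 107005090983)) (l 110226312583)) (a (l 95193933367) (l 111836924295))) (a (b (l 111836925207) (l 107541958839)) (l 114521277511))) (l 3)) (a (c (a (l 16778144) (b (c (l 109689443831) (l 110763183991)) (l 16778224))) (c (l 90898966871) (l 16779912))) (a (c (b (l 108615699335) (c (l 110226313767) (l 111300054503))) (b (l 110763181159) (l 111300054167))) (l 3)))) (c (a (l 16783640) (b (a (c (l 16778384) (l 16777984)) (c (b (l 110226312503)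 (l 105394478727)) (l 94120191255))) (l 16783392))) (a (l 16777784) (b (c (l 94120188727) (l 93046446583)) (l 16777472)))))) (a (l 16792160) (b (c (l 16784384) (l 16783896)) (l 16790904))))), by decide +kernel⟩

def k37_pm_102 : ∃ t, chk3 f_pm_102 t 29 13 1 = true :=
  ⟨(b (l 3) (a (b (l 3) (a (b (l 3) (a (b (a (b (l 3) (a (c (c (b (a (l 110226312487) (l 3)) (a (b (l 109152573207) (l 16778376)) (b (l 108078828839) (l 110226313783)))) (b (l 113984407703) (a (l 101636382503) (l 111300053319)))) (b (a (l 113984406567) (l 3)) (a (l 91972705031) (b (l 111836925255) (l 95730801831))))) (l 3))) (l 3)) (a (c (c (b (a (l 16780984) (b (a (b (l 110763183303) (l 105394478407)) (l 110763183303)) (a (l 16778288) (b (l 107541961095) (l 16778328))))) (l 16778936)) (b (a (l 16783256) (b (a (l 93583320071) (l 111836924167)) (a (l 16777920) (l 99488899719)))) (l 16778672))) (b (b (a (l 16781352) (a (c (l 94657059639) (l 95193928711)) (l 113984406551))) (c (l 91435834951) (l 16780624))) (l 16783536))) (b (b (l 3) (a (c (b (c (l 111300054087)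 (l 112910665863)) (a (c (l 110226313799) (l 110763183527)) (l 108078828183))) (a (b (l 112910667047) (l 95193930855)) (l 112910664503))) (l 3))) (c (a (b (a (c (l 16778296) (l 16777912)) (c (b (l 110226313239) (l 16781048)) (l 94657061575))) (l 16783392)) (b (a (b (l 3) (c (l 109689441383) (l 110763182967))) (l 3)) (a (b (c (l 105931349015) (l 107541959335)) (l 16778088)) (b (c (l 109152570455) (l 110763182295)) (c (l 109152572423) (l 110226312679)))))) (c (a (b (l 93583317607) (l 16777672)) (b (l 115058148535) (a (l 99488897943) (l 100025767063)))) (a (l 91435835319) (b (l 116668760487) (l 97341414295)))))))) (b (l 3) (a (b (l 3) (b (l 3) (a (c (c (l 113447537351) (l 114521278215)) (l 115058147847)) (l 3)))) (l 3))))) (l 3))) (l 3))), by decide +kernel⟩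

def k38_pm_102 : ∃ t, chk3 f_pm_102 t 15 6 1 = true :=
  ⟨(l 3), by decide +kernel⟩

def k39_pm_102 : ∃ t, chk3 f_pm_102 t 28 14 1 = true :=
  ⟨(b (a (b (c (a (l 16808640) (l 16802304)) (a (l 16807688) (l 16801528))) (c (a (l 16819832) (l 16813400)) (l 16815024))) (b (a (c (b (l 16793208) (l 16777560)) (b (l 16792888) (l 16797800))) (b (a (c (l 16788344) (l 16788288)) (b (a (l 16784672) (l 16793456)) (l 16796776))) (c (l 16791944) (l 16791544)))) (a (b (l 16803176) (l 16808576)) (c (l 16789680) (l 16799112))))) (a (b (c (a (l 16831696) (l 16825160)) (l 16763208)) (c (a (l 16844200) (l 16837616)) (a (l 16841152) (l 16834592)))) (b (c (a (l 16818504) (b (l 16808736) (l 16814680))) (l 16802576)) (c (a (l 16830856) (l 16823960)) (l 16824520))))), by decide +kernel⟩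

def k40_pm_102 : ∃ t, chk3 f_pm_102 t 116 112 1 = true :=
  ⟨(a (c (b (a (l 16780968) (b (c (a (l 16778976) (l 16780992)) (l 16780968)) (l 16779784))) (l 16783064)) (b (a (l 16780640) (b (c (l 16783328) (l 16777832)) (l 16779400))) (l 16783040))) (b (a (b (b (a (c (c (a (b (l 110226313207) (l 16778360)) (b (l 3) (l 110226312183))) (a (l 93583319591) (l 111836924039))) (c (a (l 94120187879) (l 113447535959)) (l 110226310551))) (l 3)) (a (a (c (l 16778080) (l 16777448)) (c (c (l 100025770199) (l 97878286631)) (l 90898964119))) (c (c (a (b (l 109152570359) (a (l 16778424) (l 110763184359))) (l 110763182935)) (a (b (l 110763182215) (l 109689441783)) (l 112373794775))) (a (b (l 103783864391) (l 93046446743)) (l 113447535383))))) (c (a (l 16783768) (b (a (l 16780664) (c (b (a (l 109689443623) (l 109152571287)) (l 16778304)) (l 93583318951))) (l 16778168))) (a (l 16778016) (a (l 16782760) (c (l 93046447159) (l 91435833831)))))) (b (l 3) (b (b (l 3) (a (a (c (c (l 110226312071) (l 110763182775)) (l 100025767559)) (l 3))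 (l 3))) (b (a (c (a (c (l 103246994775) (l 16778000)) (c (l 109689441175) (l 110763182151))) (a (l 96267674215) (l 103246992999))) (l 3)) (a (c (a (l 16778032) (c (a (l 16778352) (l 110763184327)) (l 108615700295))) (c (l 91435836135) (l 16779912))) (c (c (l 111836924615) (l 113447536471)) (l 114521277111))))))) (c (c (a (l 16785432) (b (a (l 16778384) (b (a (b (a (l 108615702135) (l 109152571175)) (l 16778256)) (b (l 107541957399) (a (l 110226313511) (l 107541958279)))) (a (l 16778232) (l 100562639863)))) (l 16784344))) (a (l 16785288) (b (a (l 16778096) (b (a (l 93583318679) (l 111836923895)) (l 95730802343))) (l 16778896)))) (c (a (l 16779872) (b (a (l 16777824) (b (a (l 94120187143) (l 112910664967)) (l 16780176))) (l 16778688))) (a (l 16779688) (b (a (l 16777576) (b (l 108615699799) (l 16782520))) (l 16778480))))))), by decide +kernel⟩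

def k41_pm_102 : ∃ t, chk3 f_pm_102 t 116 113 1 = true :=
  ⟨(a (c (l 16786928) (l 16786840)) (b (a (l 16793664) (b (l 16785576) (l 16782008))) (c (l 16784856) (l 16784880)))), by decide +kernel⟩

def k42_pm_102 : ∃ t, chk3 f_pm_102 t 117 112 1 = true :=
  ⟨(a (b (l 3) (a (b (b (l 3) (a (c (c (a (b (l 109689441079) (l 105931348279)) (l 111300053671)) (a (b (l 110763182071) (l 107541958839)) (l 112910665559))) (a (b (l 103246992471) (l 92509575335)) (l 113984406247))) (l 3))) (a (c (b (a (l 16780632) (b (c (a (l 16778384) (l 109689442055)) (l 109689441159)) (l 16780656))) (l 16778192)) (b (c (l 92509575399) (l 91435833191)) (l 16777664))) (c (b (a (b (l 108615701335) (c (a (l 110226313671) (l 108078829095)) (l 110763182487))) (l 3)) (a (c (l 100562639383) (l 16780464)) (b (c (l 109689440983) (l 110763182503)) (c (l 104320735895) (l 105931346487))))) (c (b (a (l 112373794007) (l 3)) (a (l 16777536) (l 97878283927))) (b (l 115595018615) (l 102710120231)))))) (b (l 3) (b (l 3) (a (a (c (c (l 111300053591) (l 112910665495))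 (l 113984406215)) (l 3)) (l 3)))))) (l 3)), by decide +kernel⟩

def k43_pm_102 : ∃ t, chk3 f_pm_102 t 234 113 1 = true :=
  ⟨(b (a (a (c (l 16787296) (l 16784672)) (b (c (c (l 16778416) (l 16778152)) (l 16781720)) (l 16784624))) (b (b (a (c (a (b (c (a (l 16778320) (l 109689441943)) (l 109152570231)) (l 16780616)) (b (c (l 108615699047) (l 110226310967)) (c (a (l 109689442775) (l 108615699911)) (l 110226311495)))) (c (a (l 93583316231) (l 112373793975)) (l 107541958567))) (l 3)) (c (c (a (l 98415155527) (a (b (a (l 109689441895) (l 107005086327)) (l 103246994375)) (l 111300053495))) (a (l 16780464) (a (b (l 98415155959) (l 104320734135)) (l 112910665431)))) (a (c (l 16780184) (l 16782552)) (c (c (l 111836923175) (l 111836922855)) (l 111836922391))))) (c (a (l 16783912) (b (a (l 16777992) (b (c (a (l 16778256) (l 109689441927)) (l 108615699367)) (l 16780592))) (l 16778224))) (a (l 16783488) (b (c (l 92509575207) (l 90898962103)) (l 16777744)))))) (a (c (l 16782328) (l 16782288)) (a (l 16789288) (c (l 16785104) (l 16779576))))),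 by decide +kernel⟩

def k44_pm_102 : ∃ t, chk3 f_pm_102 t 235 113 1 = true :=
  ⟨(b (a (b (l 3) (b (a (a (c (b (c (l 109152569863) (l 110763181815)) (c (a (l 108615701143) (l 108615699735)) (l 95730801383))) (b (l 111836922599) (l 97341413319))) (l 3)) (l 3)) (a (c (a (c (l 16780736) (l 16777800)) (b (c (a (l 109689441879) (l 107541957159)) (l 98952026311)) (c (l 102173252647) (l 102710121959)))) (a (l 94120188983) (b (l 101099509223) (l 91972703687)))) (a (a (c (c (l 110226311671) (l 111836923639)) (l 113447535367)) (l 3)) (l 3))))) (l 3)) (a (c (b (a (c (l 16778440) (l 16778200)) (b (a (b (c (a (l 16778208) (l 109689441815)) (l 108078828503)) (l 16780560)) (b (c (l 109152569783) (l 111300052663)) (c (a (l 108078830439) (l 108615699639)) (l 96267671719)))) (c (l 16780752) (l 16780472)))) (a (l 16779640) (l 16783976))) (b (a (l 16781808) (c (b (a (l 93046444871) (b (l 112373793799) (l 97341412263))) (l 16780208)) (b (l 107005087751) (l 16777352)))) (a (l 16779352) (l 16783600)))) (b (b (l 3) (a (c (a (b (c (a (l 109689441767)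 (l 107541957063)) (l 98952025831)) (c (l 101099510807) (l 101636380391))) (b (l 3) (c (l 109689440679) (l 110763181767)))) (c (a (l 96267671335) (l 114521277351)) (l 110763183159))) (l 3))) (b (c (a (a (l 16777984) (b (c (a (l 16778160) (l 109689441719)) (l 107541957655)) (l 16777920))) (a (b (c (l 109689440599) (l 111300052599)) (c (a (l 107005088663) (l 109152570375)) (l 96267671159))) (l 3))) (a (c (l 92509575111) (l 90898961975)) (a (b (l 113447535271) (c (l 97341411719) (l 98415152679))) (l 3)))) (c (a (l 16778256) (a (c (l 16778064) (l 16777776)) (b (c (a (l 109689441671) (l 108078827895)) (l 98952025271)) (c (l 100562639847) (l 100562638663))))) (a (l 16777824) (a (l 16780008) (c (l 96267671367) (l 96804541847))))))))), by decide +kernel⟩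

def k45_pm_102 : ∃ t, chk3 f_pm_102 t 58 57 1 = true :=
  ⟨(c (a (b (l 16789272) (l 16796120)) (b (a (b (l 16784080) (l 16786760)) (b (a (l 16781480) (b (a (l 16779208) (b (l 16780728) (l 16778664))) (l 16780224))) (l 16783264))) (a (l 16790888) (l 16787352)))) (a (b (l 16792104) (l 16795200)) (b (a (b (l 16784104) (l 16786536)) (b (a (l 16781328) (b (a (l 16784144) (l 16781888)) (l 16780000))) (l 16783304))) (a (l 16790304) (l 16787016))))), by decide +kernel⟩

def k46_pm_102 : ∃ t, chk3 f_pm_102 t 59 56 1 = true :=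
  ⟨(a (b (l 3) (a (b (l 3) (a (a (a (b (l 3) (b (l 3) (a (b (l 3) (c (c (l 109152570343) (l 110226311479)) (l 100562637351))) (l 3)))) (l 3)) (l 3)) (l 3))) (l 3))) (l 3)), by decide +kernel⟩

def k47_pm_102 : ∃ t, chk3 f_pm_102 t 236 114 1 = true :=
  ⟨(b (a (b (a (c (c (b (a (b (a (l 16778112) (l 109152570791)) (l 16778048)) (b (l 109689440519) (a (l 106468217815) (l 109152570295)))) (l 16780736)) (b (a (l 94120187143) (b (l 111300052535) (l 96804541335))) (l 16780472))) (b (b (a (l 94657058503) (l 112910664327)) (c (l 95193929543) (l 94657058231))) (c (l 16777616) (l 16777400)))) (b (l 3) (c (a (b (c (a (l 109152570743) (l 108078827799)) (l 99488895623)) (c (l 100025768855) (l 99488896951))) (b (l 3) (c (a (l 109152570215) (l 3)) (l 111300052567)))) (a (c (l 96267671399) (l 96267671031)) (c (l 113984406359) (l 115595018519)))))) (c (a (l 16784032) (b (a (l 16777976) (b (a (l 16779240) (c (l 109152570695) (l 109689440727))) (l 16777888))) (l 16778288))) (b (a (l 16778096) (c (l 92509575031) (l 90898961927))) (l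 16783592)))) (b (l 3) (b (a (a (c (b (c (l 109689440423) (l 111300052471)) (c (a (l 105394476055) (l 109152570119)) (l 96804541111))) (b (l 112910664295) (c (l 97341411463) (l 97341410967)))) (l 3)) (l 3)) (c (a (a (c (l 16778024) (l 16777760)) (b (c (a (l 109152570647) (l 108078827719)) (l 99488895399)) (c (l 99488897831) (l 98952026151)))) (a (b (l 3) (c (a (l 109152570087) (l 3)) (l 111300052503))) (l 3))) (c (a (c (l 100562636967) (l 100025765815)) (a (l 114521277223) (l 3))) (a (l 99488895399) (l 117205630903))))))) (a (b (c (l 16785008) (l 16779528)) (l 16786528)) (c (b (a (a (l 16783848) (l 16780832)) (b (a (b (c (a (l 16778040) (l 108615699687)) (l 94657058487)) (l 16777872)) (b (c (l 109689440343) (l 111836923319)) (c (c (l 95730800615) (l 96267670903)) (l 96804541047)))) (c (l 16780720) (l 16780488)))) (a (l 16779792) (l 16784088))) (c (b (a (l 16778120) (b (a (l 93046444727) (l 111300051895)) (l 16777648))) (l 16779120)) (b (a (l 16777944) (b (a (l 16779880) (l 112373795175)) (l 16777448))) (l 16778984)))))),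 by decide +kernel⟩

def k48_pm_102 : ∃ t, chk3 f_pm_102 t 237 114 1 = true :=
  ⟨(b (l 3) (a (b (a (c (c (b (l 113984406903) (a (b (a (l 108615699559) (l 108615698551)) (l 98415155895)) (b (l 3) (a (l 94657059719) (l 106468214807))))) (b (l 115058148023) (a (b (l 110226313255) (l 98415155191)) (b (l 3) (l 111300052439))))) (c (b (l 116131889223) (a (b (l 100562636615) (l 16780112)) (l 114521277175))) (b (l 116668759575) (a (l 103783861399) (l 115595018471))))) (l 3)) (a (c (a (l 16780840) (b (c (c (l 96267670679) (l 95730799175)) (l 94120187015)) (l 16778136))) (a (l 16780464) (c (l 93046446567) (l 91435833447)))) (c (c (b (a (b (l 110226311159) (a (l 103783863479) (l 95193930263))) (l 111836923527)) (a (l 16777992) (b (a (l 108615699479) (l 108615698455)) (l 97341414263)))) (b (a (b (l 111836923255) (l 96804541303)) (l 112910664695)) (a (l 16777744) (b (a (l 108615698583) (l 110226311063)) (l 97341413399))))) (b (a (c (l 111300051847) (l 111836924231)) (l 114521276551)) (a (l 16780040) (c (l 104857603463) (l 103783861367)))))))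 (a (a (b (l 3) (b (l 3) (b (l 3) (c (a (c (l 95193930055) (l 109689440071)) (l 107541956215)) (c (l 112373793639) (l 107541957223)))))) (l 3)) (l 3)))), by decide +kernel⟩

def k49_pm_102 : ∃ t, chk3 f_pm_102 t 118 115 1 = true :=
  ⟨(a (a (c (l 16784680) (l 16784536)) (b (b (l 16788656) (l 16782208)) (l 16788720))) (b (a (b (b (a (l 16785392) (c (l 16780760) (l 16780384))) (a (l 16779616) (l 16785168))) (c (l 16780352) (l 16780208))) (b (b (c (c (a (a (b (l 95193929319) (l 16777968)) (b (l 110226311063) (a (l 103246992503) (l 95730800599)))) (l 114521277575)) (a (a (l 94120187159) (b (l 111836923191) (l 96804541255))) (l 115595018759))) (c (a (a (l 93046444855) (l 110763183527)) (l 116668759991)) (a (a (l 91972702775) (l 111836924215)) (l 117742501287)))) (c (a (c (l 16780704) (l 16780496)) (a (b (b (c (l 109152569303) (l 110226310775)) (c (l 95730800007) (l 96267669879))) (c (l 97341414039) (l 96804542535))) (b (l 3) (a (c (l 96267671143) (l 110226310807)) (l 3))))) (c (a (l 16780296) (a (l 104320733079) (l 114521277079)))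 (a (l 16777488) (a (l 103783861271) (l 115595018391)))))) (c (a (l 16784128) (b (a (l 16777976) (c (c (l 96267670567) (l 95730799399)) (l 94120187287))) (l 16783584))) (a (l 16778616) (b (c (l 93046446135) (l 94120186103)) (l 16783256)))))) (a (c (l 16782456) (l 16782464)) (b (c (l 16785112) (l 16779704)) (l 16787904))))), by decide +kernel⟩

def k50_pm_102 : ∃ t, chk3 f_pm_102 t 119 114 1 = true :=
  ⟨(l 3), by decide +kernel⟩

def k51_pm_102 : ∃ t, chk3 f_pm_102 t 238 230 1 = true :=
  ⟨(a (b (l 3) (a (c (b (a (b (c (l 110226310983) (l 111836923111)) (c (a (l 102710121527) (l 96804541863)) (l 96804541207))) (l 3)) (a (c (l 16777960) (l 16777736)) (b (a (c (l 93583317559) (l 95193928711)) (c (l 108615698295) (l 110226310775))) (c (c (l 100025767607) (l 99488896439)) (l 96267671751))))) (b (a (c (l 110763183479) (l 110763180391)) (l 3)) (a (l 16780056) (b (a (l 95730799335) (l 106468216247)) (l 91972703303))))) (a (a (b (l 3) (b (l 3) (c (c (l 96804541495) (l 110226310631)) (l 100562637399)))) (l 3)) (l 3)))) (l 3)),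 by decide +kernel⟩

def k52_pm_102 : ∃ t, chk3 f_pm_102 t 238 231 1 = true :=
  ⟨(a (b (c (c (a (l 16781144) (b (a (b (a (l 16777920) (l 94657058711)) (l 16777928)) (b (l 110763181799) (a (l 102710121463) (l 97341412199)))) (l 16780688))) (a (l 16780992) (b (a (l 94120187255) (b (l 112373793959) (l 97341412071))) (l 16780496)))) (c (a (l 16778224) (b (a (l 93046445159) (b (l 113984406167) (l 97341411607))) (l 16777696))) (a (l 16778080) (b (a (l 96267668439) (l 110763180375)) (l 16777528))))) (a (l 16785064) (c (l 16784152) (l 16783920)))) (b (a (b (l 3) (c (a (b (a (c (l 94657058183) (l 95730798839)) (c (l 108615698199) (l 110226310631))) (c (a (l 16777896) (l 102173250519)) (l 93046445591))) (b (l 3) (c (a (l 97878282919) (l 3)) (l 111300052183)))) (a (b (a (l 95193928391) (l 112373794647)) (l 91972703383)) (c (l 115058146551) (l 115595018311))))) (l 3)) (a (c (b (a (l 16780592) (b (c (a (l 16777896) (l 95193928583)) (l 95193928167)) (l 16780424))) (l 16780968)) (a (l 16780560) (b (c (l 93583316055) (l 96804539687))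 (l 16777832)))) (c (b (a (b (c (l 110763181703) (l 112373793879)) (c (a (l 102710121079) (l 98415153463)) (a (l 103246990695) (l 100025765591)))) (l 3)) (a (c (l 16780552) (l 16780344)) (b (a (c (l 95730799127) (l 96267669143)) (c (l 109152569031) (l 110763181479))) (c (l 94657059079) (l 93583314663))))) (b (a (c (b (l 113984406103) (l 107005084887)) (l 110226309431)) (l 3)) (a (l 91435832423) (c (b (l 102173249479) (l 16780064)) (l 104320732151)))))))), by decide +kernel⟩

def k53_pm_102 : ∃ t, chk3 f_pm_102 t 239 115 1 = true :=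
  ⟨(b (l 3) (a (b (l 3) (b (l 3) (a (a (a (b (l 3) (c (c (l 98952024167) (l 100562636311)) (c (l 102173248503) (l 103783860727)))) (l 3)) (l 3)) (l 3)))) (l 3))), by decide +kernel⟩

def k54_pm_102 : ∃ t, chk3 f_pm_102 t 58 29 1 = true :=
  ⟨(b (a (c (b (l 16801832) (l 16807720)) (l 16803160)) (a (c (l 16799464) (l 16798152)) (c (l 16790640) (l 16784304)))) (c (a (b (l 16813784) (l 16820032)) (b (l 16806600) (l 16812784))) (a (l 16772416) (l 16807488)))), by decide +kernel⟩

def k55_pm_102 : ∃ t, chk3 f_pm_102 t 118 58 1 = true :=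
  ⟨(b (c (a (l 16789368) (b (l 16784304) (l 16787128))) (a (l 16788776) (b (l 16784128) (l 16786680)))) (c (a (l 16795136) (l 16791448)) (l 16787080))), by decide +kernel⟩

def k56_pm_102 : ∃ t, chk3 f_pm_102 t 238 116 1 = true :=
  ⟨(c (b (a (l 16781560) (b (a (l 16779400) (b (c (l 16778224) (l 16778064)) (l 16778800))) (l 16780416))) (c (l 16783520) (l 16783352))) (b (a (l 16781600) (b (a (l 16779232) (b (l 16780456) (l 16773336))) (l 16780344))) (c (l 16783272) (l 16783296)))), by decide +kernel⟩

def k57_pm_102 : ∃ t, chk3 f_pm_102 t 239 232 1 = true :=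
  ⟨(a (b (a (c (b (a (b (c (a (l 16777872) (l 95730798775)) (l 95730799047)) (l 16780408)) (b (c (l 111300052503) (l 112910664711)) (c (a (c (l 104320732903) (l 104320732343)) (l 98952023975)) (a (l 92509574807) (l 101099507031))))) (c (l 95730799447) (l 16780496))) (c (b (a (l 94120187287) (b (l 113984406039) (l 107005085431))) (l 16777704)) (b (a (l 97341410599) (l 110763180311)) (l 16777552)))) (b (l 3) (c (a (b (a (c (l 96267669655) (l 96804540087)) (c (l 109152568935) (l 110763181159))) (c (l 95730798887) (l 93583314967))) (a (b (l 3) (c (l 99488894679) (l 101636377831))) (l 3))) (c (a (b (l 111300051703) (l 16780056)) (l 115058145111)) (a (l 105394473959) (l 119889985511)))))) (c (a (l 16783840) (b (a (l 16780576) (b (c (a (l 16777848) (l 96267669639)) (l 96267670247)) (l 16780392))) (l 16780968))) (a (l 16783968) (b (a (l 16780256) (c (l 98952024007) (l 97341410599))) (l 16780712))))) (b (l 3) (a (c (b (a (b (c (l 111300052407) (l 112910664631)) (a (c (l 94120187543) (l 94120185623)) (c (l 109152568935) (l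 102173248551)))) (l 3)) (c (a (l 16779696) (b (a (l 96267669607) (l 109152568855)) (l 95730798999))) (a (l 16777704) (b (a (l 97341410967) (l 111300051991)) (l 94120185847))))) (c (b (a (b (l 114521276887) (l 107541956967)) (l 3)) (a (l 16777528) (b (l 111836923271) (l 93046443639)))) (b (a (l 110763180279) (l 3)) (a (l 16777376) (l 105394473799))))) (a (a (b (l 3) (b (l 3) (c (c (l 109152568903) (l 102710119351)) (c (l 104320731655) (l 105931343991))))) (l 3)) (l 3))))), by decide +kernel⟩

def k58_pm_102 : ∃ t, chk3 f_pm_102 t 239 233 1 = true :=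
  ⟨(a (b (c (l 16783848) (l 16785056)) (c (l 16781328) (l 16781344))) (b (a (c (b (b (l 16780616) (l 16783536)) (l 16778808)) (b (l 16780480) (l 16778616))) (b (c (a (b (a (c (l 16779136) (l 16777616)) (c (l 96804540487) (l 97878281863))) (l 16780384)) (b (c (l 111836923207) (l 113447535447)) (c (a (l 95193927607) (l 109689439767)) (a (l 94657056279) (l 103246990151))))) (c (a (l 99488894903) (b (l 113984405895) (l 108078828183))) (a (l 98415152423) (l 110763180231)))) (c (a (l 16778128) (c (l 95193928023) (l 16780312))) (c (l 16780328) (l 16780192))))) (a (l 16785128) (c (c (l 16778960) (l 16778880)) (l 16781376))))), by decide +kernel⟩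

def k59_pm_102 : ∃ t, chk3 f_pm_102 t 119 117 1 = true :=
  ⟨(a (c (l 16782472) (l 16787160)) (b (c (a (l 16783448) (l 16784184)) (a (l 16783256) (l 16781528))) (c (l 16785376) (l 16784984)))), by decide +kernel⟩

def k60_pm_102 : ∃ t, chk3 f_pm_102 t 59 59 1 = true :=
  ⟨(a (c (b (a (l 16801096) (l 16797368)) (l 16805360)) (b (l 16797736) (l 16771880))) (c (b (c (l 16781608) (l 16791368)) (a (l 16799672) (l 16795816))) (b (a (l 16792496) (l 16788976)) (l 16796240)))), by decide +kernel⟩

def k61_pm_102 : ∃ t, chk3 f_pm_102 t 14 15 1 = true :=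
  ⟨(a (a (b (b (b (a (l 16851920) (l 16865928)) (l 16855472)) (l 16866664)) (b (l 16882288) (l 16898664))) (b (b (a (b (l 16838160) (l 16844960)) (b (l 16831352) (a (l 16839552) (l 16835984)))) (c (l 16854760) (l 16850648))) (b (l 16888344) (l 16883224)))) (b (a (b (a (b (l 16824392) (a (l 16832480) (l 16828960))) (c (l 16822440) (b (l 16816216) (l 16822280)))) (b (c (a (l 16840000) (l 16853456)) (a (l 16836048) (l 16828552))) (l 16861832))) (b (c (a (b (l 16811672) (l 16818168)) (b (a (l 16805928) (l 16802040)) (l 16810416))) (a (b (l 16809128) (l 16815096)) (b (a (l 16803744) (l 16800120)) (l 16807816)))) (b (c (a (l 16824864) (l 16817040)) (a (l 16821232) (l 16813888))) (a (c (l 16831720) (l 16827928)) (c (b (l 16822136) (l 16825560)) (a (l 16822088) (l 16818240))))))) (a (c (b (l 16854224) (l 16869016)) (l 16858304)) (b (c (l 16838192) (a (l 16838728) (l 16830728))) (l 16850632))))), by decide +kernel⟩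

def k62_pm_102 : ∃ t, chk3 f_pm_102 t 30 28 1 = true :=
  ⟨(l 3), by decide +kernel⟩

def k63_pm_102 : ∃ t, chk3 f_pm_102 t 120 116 1 = true :=
  ⟨(a (b (l 3) (a (b (a (b (l 3) (c (a (c (b (a (b (l 108078827447) (l 106468215591)) (l 109689439655)) (c (l 95730798567) (l 95730798519))) (b (l 111300052007) (l 94120186135))) (b (l 3) (c (a (l 109689439735) (l 3)) (l 112373793703)))) (c (a (b (l 112910665703) (l 93583314855)) (l 119889985783)) (a (l 105931344631) (l 120426856295))))) (l 3)) (a (b (a (c (l 16780552) (l 16780264)) (c (a (c (l 95193927895) (l 16777624)) (b (c (b (l 108078827335) (l 107005086247)) (l 98415152727)) (l 16780320))) (b (c (l 104320732055) (l 103783860663)) (l 16780032)))) (a (l 16783712) (c (l 16780744) (l 16777864)))) (a (b (c (b (c (l 111836923095) (l 112910664439)) (a (c (l 95730798567) (l 94657056343)) (c (l 109689439687) (l 104320731911)))) (b (l 113984405623) (c (l 109152569895) (l 109152569223)))) (c (c (l 95193928135) (l 16778992)) (c (l 16780144) (l 16777376)))) (b (l 3) (c (c (b (a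 (b (l 108078827287) (l 92509575143)) (l 109689439559)) (a (l 16777784) (l 95730798567))) (b (l 111836922839) (l 95193927943))) (a (c (l 102173248647) (l 101636377175)) (c (l 110763182279) (l 111300052839)))))))) (b (l 3) (a (b (l 3) (a (a (b (l 3) (b (l 3) (c (c (l 108078827191) (l 99488894535)) (l 101636378087)))) (l 3)) (l 3))) (l 3))))) (l 3)), by decide +kernel⟩

def k64_pm_102 : ∃ t, chk3 f_pm_102 t 240 117 1 = true :=
  ⟨(b (a (c (b (a (l 16779408) (b (a (l 16778336) (l 16780536)) (l 16778792))) (l 16780376)) (b (a (l 16779296) (b (c (l 16777928) (l 16777808)) (l 16778632))) (l 16780392))) (b (a (b (c (a (a (c (l 95193927687) (l 16778920)) (b (c (b (l 108078827255) (l 93583315815)) (l 99488894359)) (l 16779648))) (b (c (l 111300052055) (l 112373793415)) (a (c (l 95730798551) (l 96267669079)) (c (l 109689439607) (l 111300051895))))) (c (a (b (l 104857602903) (l 16777480)) (b (l 113447534823) (l 109689440615))) (a (l 100025765143) (l 111836921959)))) (a (c (l 16780728) (l 16780488)) (c (c (l 95193928423) (l 94120186263))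 (c (l 16778824) (l 16777376))))) (b (l 3) (c (a (b (a (c (b (l 108078827159) (l 94657056983)) (l 100562636151)) (l 109689440519)) (a (c (l 16777760) (l 16777584)) (c (b (l 96804539943) (l 16777784)) (l 96267669255)))) (c (c (l 113984406535) (l 114521277207)) (l 115058147799))) (c (a (b (l 112910664199) (l 101099506615)) (l 119353114679)) (a (b (l 115058148647) (l 99488893415)) (l 119353114311)))))) (c (a (c (l 16778936) (l 16778872)) (b (b (a (l 16780400) (a (c (l 95193927143) (l 16778888)) (c (b (l 108078827079) (l 95730798135)) (l 101099507031)))) (c (l 16779240) (l 16777784))) (c (l 16780984) (l 16778264)))) (a (l 16781384) (b (a (l 16780256) (b (c (l 105931344663) (l 105931344023)) (l 16780016))) (l 16780728)))))) (c (a (l 16782512) (b (a (l 16780360) (l 16779384)) (l 16781304))) (a (l 16782360) (b (l 16783776) (l 16781248))))), by decide +kernel⟩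

def k65_pm_102 : ∃ t, chk3 f_pm_102 t 241 234 1 = true :=
  ⟨(a (b (l 3) (a (b (a (b (l 3) (c (a (c (b (l 97341410743) (l 102173249175)) (l 96267669255)) (c (l 110226310407) (l 111300051815))) (c (l 110763182247) (l 110763181751)))) (l 3)) (a (c (b (c (l 95730798839) (l 94120185751)) (l 16777840)) (c (l 93046444439) (l 16778680))) (c (b (a (c (b (l 108078827031) (l 96267668695)) (l 101636377751)) (l 3)) (a (c (l 16777744) (l 16777568)) (c (b (l 98415152295) (l 102173248999)) (l 96804540167)))) (a (c (l 104320732151) (l 103783860695)) (c (l 110226309623) (l 110763180199)))))) (b (l 3) (a (a (c (c (l 112910664663) (l 114521276983)) (c (l 115058147495) (l 116131888983))) (l 3)) (l 3))))) (l 3)), by decide +kernel⟩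

def k66_pm_102 : ∃ t, chk3 f_pm_102 t 482 235 1 = true :=
  ⟨(b (a (b (c (c (l 16779456) (l 16780648)) (a (l 16775488) (l 16780248))) (c (l 16778768) (l 16778624))) (b (c (a (b (c (a (l 95193927351) (b (l 108078826983) (l 96804539511))) (a (l 94120185175) (l 102710119383))) (c (l 16779072) (l 16777600))) (b (l 3) (a (c (b (l 99488893991) (l 103246990327)) (l 97878281975)) (c (l 110226310311) (l 111836922631))))) (c (a (b (l 107005086311) (l 16777456)) (b (l 3) (l 111836923847))) (a (b (l 107005085847) (l 16777320)) (l 112910663655)))) (a (c (l 16780696) (l 16780480)) (c (b (a (l 16780296) (c (l 95730798327) (l 94657056151))) (l 16780440)) (c (l 96267669559) (l 94657056087)))))) (a (c (l 16779864) (l 16779840)) (b (c (l 16781144) (l 16778360)) (l 16784448)))), by decide +kernel⟩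

def k67_pm_102 : ∃ t, chk3 f_pm_102 t 483 235 1 = true :=
  ⟨(b (a (b (l 3) (c (c (a (b (a (b (l 107541956103) (l 97341410311)) (l 3)) (a (l 16779032) (b (l 100562635783) (l 94657056391)))) (l 114521277031)) (a (b (l 113984406247) (a (l 16780168) (l 107005085175))) (l 115595018455))) (c (a (b (l 114521276791) (l 103246990183)) (l 116131888983)) (a (b (l 115058147383) (l 102710118743)) (l 116668759575))))) (l 3)) (a (c (b (a (c (l 16777928) (l 16777792)) (b (a (c (l 95730798407) (l 94657056311)) (c (b (l 3) (l 98415151959)) (l 110763183495))) (c (l 95193927207) (l 16778896)))) (a (l 16778512) (l 16780672))) (c (b (a (l 16777672) (b (l 108615698871) (l 16777440))) (l 16774864)) (b (a (l 16777560) (b (l 108078827351) (l 16777312))) (l 16778048)))) (b (a (b (l 3) (c (a (c (b (l 101099506743) (l 95193926647)) (l 108078827239)) (c (l 110763181095) (l 112373793447))) (c (l 110763180487) (l 112910665063)))) (l 3)) (a (c (b (c (c (l 101099506295) (l 100562635543)) (l 99488894135)) (l 16780416)) (c (l 97341411351) (l 96267668951)))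 (c (b (a (c (b (l 3) (l 98952022839)) (l 111300051735)) (l 3)) (a (c (l 95193926839) (l 16778840)) (c (b (l 108615697655) (l 95193926807)) (l 108615698375)))) (b (c (l 115595018535) (l 115595018215)) (c (l 104320731943) (l 103783860439)))))))), by decide +kernel⟩

def k68_pm_102 : ∃ t, chk3 f_pm_102 t 121 58 1 = true :=
  ⟨(b (l 3) (a (b (l 3) (a (b (l 3) (a (a (b (l 3) (c (c (l 113984405959) (l 115058147399)) (c (l 115595017959) (l 116131888551)))) (l 3)) (l 3))) (l 3))) (l 3))), by decide +kernel⟩

def k69_pm_102 : ∃ t, chk3 f_pm_102 t 120 59 1 = true :=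
  ⟨(b (c (a (c (l 16780896) (l 16785744)) (b (a (c (l 16781592) (l 16781480)) (b (a (l 16779344) (b (a (l 16778264) (c (l 16777896) (l 16777768))) (l 16778728))) (l 16782920))) (c (l 16783616) (l 16783368)))) (a (b (l 16784096) (l 16786760)) (b (a (c (l 16781432) (l 16781440)) (b (a (l 16779288) (b (c (l 16779200) (l 16780408)) (l 16778608))) (l 16780296))) (c (l 16783208) (l 16783160))))) (c (c (a (l 16792336) (l 16788264)) (a (l 16791560) (l 16787712))) (a (l 16790856) (c (l 16787344) (l 16787152))))), by decide +kernel⟩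

def k70_pm_102 : ∃ t, chk3 f_pm_102 t 484 236 1 = true :=
  ⟨(b (a (b (c (a (b (a (c (b (l 96804539479) (l 16777696)) (l 103246989271)) (c (b (l 3) (l 100025764455)) (l 111300051703))) (c (l 95193927527) (l 93583314487))) (b (l 3) (a (c (b (l 108615697607) (l 95730797735)) (l 109689440375)) (c (l 109689439143) (l 110763180599))))) (c (a (b (l 109152569431) (l 16778736)) (b (l 3) (l 111836922247))) (a (b (l 109689440055) (l 16777296)) (l 113984405303)))) (a (c (l 16780648) (l 16780448)) (b (c (a (c (l 16777704) (l 16777552)) (c (b (l 97878281287) (l 16778992)) (l 104320731447))) (c (l 100562635655) (l 99488893415))) (c (l 16779080) (l 16780152))))) (a (b (l 3) (c (b (c (c (l 112373792455) (l 112910664471)) (l 117742502407)) (a (c (l 95193927127) (l 94120185079)) (c (b (l 108615697559) (l 96267668647)) (l 110763182167)))) (b (c (l 118816243895) (l 119353114503)) (c (l 105931344391) (l 105931343975))))) (l 3))) (a (b (c (l 16782072) (l 16780952)) (l 16783760)) (c (b (a (c (l 16779176) (l 16779056)) (b (a (c (b (l 98952022743)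 (l 16779152)) (l 105394473447)) (c (l 110763181047) (l 112373793431))) (a (l 16780288) (c (l 95730798183) (l 94120185143))))) (a (l 16778456) (c (l 16778048) (l 16777952)))) (c (b (a (l 16777632) (b (l 110763182119) (l 96804539319))) (c (l 16778120) (l 16778080))) (b (a (l 16777528) (b (l 110763181687) (l 16778600))) (l 16775400)))))), by decide +kernel⟩

def k71_pm_102 : ∃ t, chk3 f_pm_102 t 485 236 1 = true :=
  ⟨(b (l 3) (a (b (a (a (b (l 3) (c (c (b (l 109152568423) (l 96804539559)) (l 111300052935)) (c (l 111836923447) (l 112373794007)))) (l 3)) (l 3)) (a (b (c (a (c (l 16778984) (l 16780152)) (c (b (l 100025764535) (l 94657055559)) (l 105931344359))) (c (l 102173248295) (l 102173247879))) (c (c (l 16777800) (l 16777680)) (l 16780136))) (c (c (b (l 112910664423) (a (b (l 95730797639) (l 16777656)) (b (l 108078826455) (l 97878281191)))) (b (l 113984405895) (a (l 100562634759) (l 112373794631)))) (a (c (a (l 107541956967) (l 108615699415)) (l 109689440039)) (c (l 113984405671) (l 113984405383)))))) (l 3))), by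 decide +kernel⟩

def k72_pm_102 : ∃ t, chk3 f_pm_102 t 242 237 1 = true :=
  ⟨(a (b (a (c (l 16780280) (l 16780264)) (c (l 16781912) (l 16779248))) (c (l 16781240) (l 16781128))) (b (a (c (b (a (l 16780832) (c (l 95193927767) (l 16779024))) (l 16781288)) (a (l 16780408) (b (c (l 16778920) (l 16780136)) (l 16778304)))) (b (c (a (b (a (c (b (l 102173247815) (l 94657055719)) (l 107541956935)) (c (l 111300051831) (l 112373793319))) (a (l 16778952) (c (c (l 96267669063) (l 95730797991)) (l 101636377079)))) (b (l 3) (a (c (l 111300052599) (l 112910665335)) (l 3)))) (c (a (b (l 109152568999) (l 98415152023)) (b (l 3) (l 113984405703))) (a (b (l 112373794119) (l 97341409799)) (l 115058146919)))) (a (c (c (l 16778008) (l 16777920)) (l 16780408)) (b (c (a (c (l 94657055831) (l 16777504)) (c (b (l 103246989271) (l 95193926631)) (l 108078827671))) (a (l 92509573175) (c (l 108615698295) (l 108078826967)))) (c (c (l 16777768) (l 16777648)) (l 16779456)))))) (a (c (l 16779752) (l 16779768)) (a (b (l 16782544) (l 16784616)) (b (c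 (l 16780792) (l 16778024)) (l 16781472)))))), by decide +kernel⟩

def k73_pm_102 : ∃ t, chk3 f_pm_102 t 243 118 1 = true :=
  ⟨(b (l 3) (a (b (a (a (b (l 3) (c (b (c (l 113447535175) (l 113984405751)) (a (c (b (l 97341410391) (l 16777632)) (l 102710118983)) (c (l 111836922807) (l 112373793399)))) (b (c (l 114521276359) (l 115595017911)) (c (a (l 102173247719) (l 114521277575)) (l 109152569111))))) (l 3)) (l 3)) (a (c (c (b (a (c (l 95193927671) (l 94657056727)) (b (a (b (l 104857602199) (l 95730797719)) (l 110763180775)) (a (l 16777672) (b (l 98415152199) (l 16778936))))) (a (l 16778416) (l 16777976))) (b (a (l 94120186311) (b (a (l 109152569463) (l 111836922263)) (a (l 16777544) (l 103783860727)))) (a (l 16778360) (l 16777888)))) (c (b (a (l 93046444279) (b (l 110226310727) (l 100562635623))) (l 16780344)) (b (a (l 93046443431) (b (l 110763180071) (l 100562635255))) (c (l 16775376) (l 16777960))))) (b (a (b (l 3) (a (b (l 3) (c (c (l 102710118647) (l 103783860007)) (l 115058149223))) (l 3))) (l 3)) (a (b (c (a (c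 (l 95193927095) (l 94120185095)) (c (b (l 109152568167) (l 96804539575)) (l 110226311095))) (c (a (l 16778672) (l 110763181655)) (l 105931344007))) (c (c (l 16777728) (l 16777616)) (c (l 16777512) (l 16777416)))) (b (l 3) (c (a (c (a (l 95193926855) (l 107005085527)) (l 104857602423)) (c (b (l 3) (l 104320731015)) (l 112373793287))) (c (a (l 105394472919) (l 117742502119)) (l 111300052551)))))))) (l 3))), by decide +kernel⟩

def k74_pm_102 : ∃ t, chk3 f_pm_102 t 242 119 1 = true :=
  ⟨(b (c (a (l 16783472) (c (l 16781544) (l 16781400))) (a (l 16783128) (c (l 16781320) (l 16781304)))) (c (l 16782848) (l 16784928))), by decide +kernel⟩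

def k75_pm_102 : ∃ t, chk3 f_pm_102 t 243 238 1 = true :=
  ⟨(a (c (b (a (l 16781840) (b (a (l 16780760) (b (c (c (l 99488894103) (l 98952022887)) (l 97878281543)) (l 16780472))) (l 16781216))) (c (l 16780224) (l 16780160))) (b (a (l 16781824) (b (a (l 16780616) (a (l 16779584) (c (l 96804539575) (l 95730797399)))) (l 16778512))) (c (l 16780136) (l 16780144)))) (b (a (b (a (b (a (c (c (a (l 108078827415) (l 110226310007)) (l 111300052727)) (c (l 111836923367) (l 111836922967))) (l 3)) (c (c (a (l 16777640) (a (l 95730797927) (l 108615698391))) (a (l 16777512) (l 106468214999))) (a (l 91972701991) (c (l 106468214759) (l 106468214375))))) (b (l 3) (c (c (l 116131889687) (l 116668760279)) (c (l 117205630919) (l 117742501591))))) (c (c (a (l 16779240) (b (a (c (l 101636376999) (l 101099505863)) (b (l 108615697159) (l 107541955735))) (l 94657056167))) (a (l 16779160) (b (a (l 100562635335) (l 112373794423)) (l 16778888)))) (c (a (l 16777768) (b (a (l 100025764023) (l 112910664983)) (l 16777480))) (a (l 16777688) (b (l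 108078827431) (l 16777384)))))) (a (b (l 3) (b (l 3) (c (a (c (a (l 103783860375) (l 109689440263)) (l 107541956823)) (c (l 111836922535) (l 112910664055))) (c (a (l 107541956423) (l 113984405623)) (l 108078825527))))) (l 3))) (a (a (c (l 16781552) (l 16778896)) (b (c (l 16780712) (l 16780584)) (l 16782712))) (b (a (b (c (a (l 16778936) (c (a (l 94657055399) (l 104320731383)) (l 102173248071))) (c (l 99488893847) (l 98415151655))) (c (l 16779120) (l 16780264))) (b (c (a (c (b (l 3) (l 108615697495)) (l 111300051479)) (l 3)) (c (l 113447534663) (l 113984405335))) (c (c (a (l 94657055911) (b (l 105394472503) (l 95730797735))) (a (l 16778792) (l 108615698471))) (c (a (l 16777376) (l 109152568983)) (l 104857602359))))) (a (c (l 16778312) (l 16778208)) (c (c (l 16779200) (l 16779112)) (c (l 16779040) (l 16777656)))))))), by decide +kernel⟩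

def k76_pm_102 : ∃ t, chk3 f_pm_102 t 243 239 1 = true :=
  ⟨(c (a (l 16781120) (b (c (a (l 16780192) (l 16779136)) (l 16780936)) (l 16781136))) (a (l 16782152) (b (c (l 16779616) (l 16779640)) (l 16780968)))), by decide +kernel⟩

def k77_pm_102 : ∃ t, chk3 f_pm_102 t 61 58 1 = true :=
  ⟨(l 3), by decide +kernel⟩

def k78_pm_102 : ∃ t, chk3 f_pm_102 t 122 118 1 = true :=
  ⟨(l 3), by decide +kernel⟩

def k79_pm_102 : ∃ t, chk3 f_pm_102 t 244 238 1 = true :=
  ⟨(a (b (l 3) (a (b (a (c (c (l 115595018199) (l 115595017927)) (c (l 116131888567) (l 116668759255))) (l 3)) (a (b (c (a (c (b (l 107005085431) (l 16777584)) (l 103783860631)) (c (l 111300053015) (l 112373793239))) (c (a (l 102710118423) (l 114521277287)) (l 110226310887))) (c (a (l 16778992) (c (l 95193927031) (l 97878280615))) (c (l 95730797495) (l 16778664)))) (a (b (l 3) (c (c (a (l 106468215063) (l 111836923239)) (l 110226311015)) (c (l 110226310695) (l 110226310391)))) (l 3)))) (l 3))) (l 3)), by decide +kernel⟩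

def k80_pm_102 : ∃ t, chk3 f_pm_102 t 488 239 1 = true :=
  ⟨(b (a (c (b (a (c (l 16780704) (l 16778016)) (b (a (c (l 16777632) (l 16777528)) (c (b (l 108615698311) (l 94657055191)) (l 105394473223))) (c (l 16777808) (l 16777720)))) (l 16781128)) (b (a (l 16780544) (b (a (l 16778696) (c (l 104320731015) (l 104320730823))) (c (l 16777640) (l 16777568)))) (l 16781056))) (b (a (c (b (a (c (l 112373793447) (l 112910664087)) (l 3)) (a (c (c (l 100562635111) (l 100025763911)) (l 99488893495)) (c (b (l 110226309831) (l 106468214951)) (l 111300052631)))) (b (c (l 115058147255) (l 115058147031)) (a (c (l 98415151303) (l 16778568)) (c (l 111300052391) (l 111300052023))))) (l 3)) (a (b (c (c (l 16779008) (l 16778912)) (c (l 16777520) (l 16777432))) (c (l 16780584) (c (l 16777864) (l 16777800)))) (b (c (a (b (c (l 110226311015) (l 110763181575)) (c (l 95193926407) (l 94657055255))) (c (l 113447535207) (l 116668760407))) (a (c (l 106468214711) (l 106468214343)) (c (l 117205631079) (l 117205630855)))) (c (a (l 16778952) (c (b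 (l 103783860391) (l 16777584)) (l 100562635287))) (c (l 98415152055) (l 97341409911))))))) (a (c (l 16779600) (l 16779576)) (b (a (c (l 16778480) (l 16778416)) (c (c (l 16779992) (l 16780592)) (l 16780176))) (c (l 16778944) (l 16778936))))), by decide +kernel⟩

def k81_pm_102 : ∃ t, chk3 f_pm_102 t 489 239 1 = true :=
  ⟨(b (a (b (l 3) (b (l 3) (a (a (c (c (b (l 109152567927) (l 108078827511)) (l 111836923335)) (c (l 112910664919) (l 112910664551))) (l 3)) (l 3)))) (l 3)) (a (b (a (b (c (c (a (l 94657055559) (b (l 111836923367) (l 95730797639))) (a (l 16778800) (b (l 112373794103) (l 101099505703)))) (a (c (l 16777392) (l 16777312)) (c (l 108078827287) (l 107541956007)))) (c (c (l 16777760) (l 16777672)) (c (l 16777600) (l 16777528)))) (c (c (b (l 115595018503) (a (b (l 105931343991) (l 16778880)) (b (l 3) (l 109689440135)))) (b (l 116131889159) (a (l 102173247927) (l 110226309543)))) (b (c (l 116668759831) (l 117205630535)) (a (c (l 101636376727) (l 100562634391)) (c (l 113447535607) (l 113984406231)))))) (a (c (l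 16780832) (l 16778128)) (c (b (a (l 16779016) (c (l 95193926839) (l 93583313895))) (l 16780536)) (c (l 94657056471) (l 94120185751))))) (b (l 3) (b (a (c (a (c (b (l 106468212711) (l 103246989591)) (b (l 113447535543) (l 103246989207))) (c (l 111836922279) (l 112373792951))) (a (c (l 109152568919) (l 109152568647)) (c (l 113447534535) (l 113984405255)))) (l 3)) (a (c (a (c (l 16777640) (l 16777544)) (b (c (l 107541956599) (l 107541956247)) (c (l 16778856) (l 16777440)))) (a (l 16778736) (c (l 103246989303) (l 102710118055)))) (c (a (c (b (l 3) (l 110763181591)) (l 111836922215)) (l 3)) (c (l 113447534487) (l 113447534295)))))))), by decide +kernel⟩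

def k82_pm_102 : ∃ t, chk3 f_pm_102 t 245 119 1 = true :=
  ⟨(l 3), by decide +kernel⟩

def k83_pm_102 : ∃ t, chk3 f_pm_102 t 123 59 1 = true :=
  ⟨(l 3), by decide +kernel⟩

def k84_pm_102 : ∃ t, chk3 f_pm_102 t 31 14 1 = true :=
  ⟨(l 3), by decide +kernel⟩

def k85_pm_102 : ∃ t, chk3 f_pm_102 t 60 30 1 = true :=
  ⟨(b (a (c (b (a (l 16798104) (b (l 16792552) (l 16795672))) (a (l 16804480) (l 16800448))) (b (a (l 16775504) (l 16792792)) (l 16800416))) (b (c (b (a (c (l 16788848) (l 16788240)) (c (l 16784632) (l 16784280))) (a (l 16791624) (c (l 16787824) (l 16787264)))) (a (l 16783840) (b (c (l 16784032) (l 16783904)) (l 16786736)))) (c (a (b (l 16794768) (l 16797968)) (a (l 16793272) (b (l 16789608) (l 16792776)))) (c (l 16782656) (l 16792720))))) (a (c (b (a (l 16811040) (l 16806976)) (a (l 16817808) (l 16813704))) (c (b (l 16806848) (l 16813104)) (b (l 16806064) (l 16812112)))) (c (b (a (l 16802856) (b (l 16797048) (l 16800320))) (a (l 16809544) (l 16805328))) (b (a (l 16800688) (b (l 16795360) (l 16798328)))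 (a (l 16806776) (l 16802880)))))), by decide +kernel⟩

def k86_pm_102 : ∃ t, chk3 f_pm_102 t 244 120 1 = true :=
  ⟨(b (a (c (c (l 16781432) (l 16781272)) (c (l 16781168) (l 16781128))) (b (c (a (b (l 16781288) (l 16779408)) (b (a (b (c (l 16777824) (l 16777752)) (l 16778120)) (c (b (a (c (l 99488893079) (l 98952022071)) (b (l 110763180679) (l 105394473111))) (l 16779016)) (b (a (l 98415151655) (b (l 110763181047) (l 105394472807))) (l 16778936)))) (c (l 16779720) (l 16778384)))) (c (a (l 16779040) (b (a (l 16779832) (b (a (l 97341409495) (l 110763181463)) (l 16777552))) (l 16778360))) (a (l 16779032) (b (a (l 16775184) (b (a (l 16778584) (l 110763181271)) (l 16777480))) (l 16778328))))) (c (c (l 16780072) (l 16779984)) (c (l 16779944) (l 16779936))))) (c (c (l 16780904) (l 16780600)) (c (l 16777776) (l 16777656)))), by decide +kernel⟩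

def k87_pm_102 : ∃ t, chk3 f_pm_102 t 490 240 1 = true :=
  ⟨(b (a (b (a (b (l 3) (c (a (b (c (l 109152569191) (l 109689439783)) (c (l 94657055351) (l 16778736))) (c (l 111836922375) (l 112910663959))) (a (c (l 105931343719) (l 105394472647)) (c (l 113447534663) (l 113447534471))))) (l 3)) (a (b (c (a (l 16778960) (c (b (l 103246989543) (l 16777576)) (l 100025764359))) (c (l 98415152183) (l 97341409975))) (c (l 16779824) (l 16780360))) (a (b (c (c (b (l 110763180583) (l 107005085687)) (l 111836923447)) (c (l 111836923063) (l 112373793799))) (c (c (l 16778896) (l 16777496)) (c (l 16777416) (l 16777344)))) (b (l 3) (c (c (b (l 110763181703) (l 100562634791)) (b (l 111300052231) (l 100025763831))) (c (l 107541956327) (l 107541956151))))))) (a (a (b (l 3) (a (c (c (l 113984405703) (l 114521276391)) (c (l 115058147079) (l 115595017815))) (l 3))) (l 3)) (l 3))) (a (b (a (c (l 16778368) (l 16778320)) (b (c (c (l 16777768) (l 16777696)) (c (l 16777632) (l 16777568))) (c (l 16778064) (l 16777976)))) (c (l 16778840) (l 16778832)))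 (b (b (a (c (a (c (b (l 104857602135) (l 16777552)) (l 101636377063)) (b (l 3) (c (l 109152569143) (l 109152568839)))) (a (c (l 101099505815) (l 100025763495)) (c (l 112910664663) (l 113447535399)))) (l 3)) (a (c (a (l 16779024) (c (l 94120184919) (l 93583313831))) (c (l 94657055783) (l 16778744))) (c (a (c (b (l 112373794135) (l 102710118583)) (b (l 112910664743) (l 102173247303))) (c (l 112373793111) (l 115595018359))) (a (c (l 109152568967) (l 108078826807)) (c (l 115595018151) (l 116131888871)))))) (c (a (b (l 16779896) (l 16778272)) (b (a (c (l 16777632) (l 16777560)) (b (c (a (l 94657054919) (l 102710118087)) (l 107005085351)) (c (l 16777528) (l 16777440)))) (c (l 16777824) (l 16777768)))) (a (l 16779336) (b (a (l 16778760) (c (l 103246989431) (l 102173247127))) (l 16779656))))))), by decide +kernel⟩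

def k88_pm_102 : ∃ t, chk3 f_pm_102 t 491 240 1 = true :=
  ⟨(b (l 3) (a (a (b (l 3) (b (a (c (c (b (l 3) (l 110763181671)) (l 110226309415)) (c (l 110763180135) (l 113984406007))) (l 3)) (c (a (c (c (l 98952022135) (l 98952022039)) (l 97878280743)) (c (b (l 111836922407) (a (l 16778816) (l 108078826967))) (b (l 114521277239) (l 104857601895)))) (c (a (l 97341409511) (l 110763181511)) (a (l 16778608) (l 110763181255)))))) (l 3)) (l 3))), by decide +kernel⟩

def k89_pm_102 : ∃ t, chk3 f_pm_102 t 245 241 1 = true :=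
  ⟨(a (b (a (c (l 16779976) (l 16779880)) (c (c (l 16780248) (l 16780232)) (b (l 16780504) (l 16779264)))) (c (l 16780984) (l 16780776))) (b (a (b (c (c (a (b (l 16778360) (l 16778024)) (b (a (b (l 108615698183) (l 94657055239)) (b (l 3) (l 112373794087))) (a (l 16777688) (b (l 102710118551) (l 16777568))))) (a (b (l 16778952) (l 16777984)) (b (a (b (l 109152568807) (l 16778728)) (l 111836922071)) (a (l 16777624) (l 100025764343))))) (c (a (b (l 16777576) (l 16775320)) (b (a (l 104857601847) (l 112373792791)) (c (l 97341409527) (l 96267667479)))) (a (a (l 16775216) (l 16778888)) (b (a (l 105394472615) (l 112373792615)) (l 97878281015))))) (b (a (l 16781608) (c (l 16779832) (l 16779088))) (c (l 16781072) (l 16778432)))) (b (a (a (b (l 3) (c (c (b (l 111300051415) (a (l 101099504839) (l 110226310167))) (b (l 112373793015) (l 107005085319))) (c (l 112373794103) (l 111836922871)))) (l 3)) (l 3)) (a (b (c (a (c (l 16778232) (l 16777504)) (c (b (l 110763181623) (l 100562634903)) (b (l 110763181255) (l 100025763799)))) (a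 (c (l 16777432) (l 16777368)) (c (l 108078827367) (l 107541956135)))) (c (c (l 16779080) (l 16777712)) (c (l 16777656) (l 16777600)))) (b (c (a (c (l 112373793111) (l 112910663815)) (l 3)) (c (l 114521276103) (l 114521275927))) (c (b (a (c (a (l 16778800) (l 108078827095)) (l 104857601863)) (l 3)) (a (c (l 16777544) (l 16777464)) (c (a (l 103783859991) (l 106468213639)) (l 109152568791)))) (a (c (l 101636376727) (l 100562634599)) (c (l 112910664631) (l 113447535383)))))))) (c (a (c (l 16779424) (l 16779368)) (b (a (l 16779552) (b (c (c (l 97341409767) (l 95730797287)) (l 95193926615)) (l 16779248))) (l 16780352))) (a (c (l 16779344) (l 16779344)) (b (a (l 16778200) (a (l 16779768) (c (l 94120184935) (l 94657055895)))) (l 16780024)))))), by decide +kernel⟩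

def k90_pm_102 : ∃ t, chk3 f_pm_102 t 122 121 1 = true :=
  ⟨(a (c (c (b (a (l 16787824) (l 16785656)) (l 16790008)) (l 16782520)) (c (l 16782080) (l 16781816))) (b (a (c (l 16780680) (l 16782864)) (a (c (l 16779088) (l 16781416)) (c (c (l 16780720) (l 16780576)) (c (l 16780480) (l 16780432))))) (c (c (l 16780368) (l 16785160)) (c (l 16784840) (l 16784640))))), by decide +kernel⟩

def k91_pm_102 : ∃ t, chk3 f_pm_102 t 123 120 1 = true :=
  ⟨(a (b (l 3) (a (b (l 3) (a (b (c (a (b (a (c (b (l 112373794055) (a (l 16777496) (l 105394472663))) (b (l 112373793767) (l 102710118183))) (c (l 114521276647) (l 115058147367))) (c (a (l 16777632) (b (a (l 101099505127) (l 110763181367)) (l 16778824))) (a (l 16777560) (b (l 107005085303) (l 16777432))))) (a (b (l 3) (b (l 3) (c (l 110763181575) (l 110763181223)))) (l 3))) (a (b (c (a (l 109689439927) (l 115058147175)) (a (l 109152568711) (l 115595017927))) (a (l 16779112) (c (l 103783860343) (l 103246988951)))) (a (b (l 3) (c (l 110226309175) (l 113984406007))) (l 3)))) (a (a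 (c (l 16779400) (l 16778040)) (c (c (l 16779840) (l 16779144)) (l 16779736))) (b (c (a (c (c (l 98952022103) (l 98952022023)) (l 97878280743)) (c (b (l 111300051399) (a (l 16778128) (l 108078827047))) (b (l 113984406263) (l 105394472743)))) (c (a (l 97341409527) (l 110763181463)) (a (l 16777968) (l 110763181239)))) (c (c (l 16778360) (l 16778960)) (c (l 16778904) (l 16777544)))))) (a (b (l 3) (b (l 3) (c (c (a (b (a (l 103783859879) (l 106468213591)) (l 98415151079)) (b (l 3) (l 112373793911))) (a (b (l 109152568759) (l 16778064)) (l 111300051079))) (a (c (l 105931343799) (l 105394472599)) (c (l 111836921831) (l 112373792583)))))) (l 3)))) (l 3))) (l 3)), by decide +kernel⟩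

def k92_pm_102 : ∃ t, chk3 f_pm_102 t 492 242 1 = true :=
  ⟨(b (a (b (a (c (l 16778680) (l 16778680)) (c (l 16780144) (l 16779448))) (c (l 16779184) (l 16779136))) (b (a (b (c (a (c (l 16777688) (l 16777632)) (c (b (a (l 16777480) (l 105394472631)) (l 16777552)) (b (l 102710118151) (l 16777488)))) (c (a (l 16777576) (l 100025764023)) (l 98415151895))) (c (l 16779840) (l 16779104))) (a (b (c (b (c (l 113984405863) (l 115058147495)) (c (a (l 101099505431) (l 110763181239)) (l 107541956183))) (c (l 112910664983) (l 112373793751))) (c (c (l 16778552) (l 16778808)) (c (l 16777440) (l 16777384)))) (b (l 3) (c (c (b (l 111300052455) (l 101099505751)) (b (l 111300052103) (l 100025763783))) (c (b (l 111836922855) (l 100025763463)) (l 108615697943)))))) (a (c (l 16778384) (l 16778376)) (c (b (a (l 16777856) (c (l 16777648) (l 16777592))) (l 16778072)) (c (l 16779576) (l 16779128)))))) (a (c (l 16780344) (l 16780176)) (c (c (l 16779296) (l 16779240)) (c (l 16779208) (l 16779200))))), by decide +kernel⟩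

def k93_pm_102 : ∃ t, chk3 f_pm_102 t 493 484 1 = true :=
  ⟨(a (b (a (a (b (l 3) (c (c (b (l 3) (l 111300051351)) (l 112373792807)) (c (l 113447534471) (l 113447534327)))) (l 3)) (l 3)) (c (a (a (b (c (b (a (l 16778120) (l 108078826855)) (l 16777528)) (b (l 105931343639) (l 16777456))) (l 16779032)) (b (b (l 3) (c (a (l 104320730759) (l 113447534823)) (l 109689439559))) (c (l 96804538935) (l 96267667879)))) (b (l 3) (a (c (b (l 112373793863) (a (l 16777472) (l 105931343431))) (b (l 112910664567) (l 102710118135))) (c (l 113984405623) (l 114521276359))))) (a (c (b (a (l 102173247623) (b (l 3) (l 109689439399))) (l 94657055751)) (b (a (l 101636376423) (l 113984406247)) (l 95193926567))) (b (l 3) (c (a (b (l 113447535271) (l 103246988919)) (l 114521276199)) (a (l 110763181415) (l 115058146967))))))) (l 3)), by decide +kernel⟩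

def k94_pm_102 : ∃ t, chk3 f_pm_102 t 493 485 1 = true :=
  ⟨(a (c (b (a (c (l 16778112) (l 16778096)) (b (a (c (l 16777616) (l 16777560)) (c (b (a (l 101636376231) (l 110763181191)) (l 16778152)) (b (l 108078827063) (l 16777424)))) (a (l 16777920) (l 16779320)))) (c (l 16778584) (l 16778568))) (b (a (l 16780032) (b (a (c (l 16777512) (l 16777456)) (c (b (l 108078826839) (l 16777360)) (l 103783859879))) (l 16779688))) (c (l 16778568) (l 16778568)))) (b (a (a (b (b (l 3) (c (c (a (l 107541956087) (l 109689438663)) (l 111836922983)) (c (l 112373793735) (l 112373793511)))) (c (c (c (l 100025764039) (l 99488892903)) (l 98952022551)) (c (l 98415151351) (l 97878280167)))) (b (l 3) (c (b (c (l 111300051287) (l 113447535095)) (c (a (l 98952021431) (l 108615697719)) (l 105931343543))) (c (b (l 114521276759) (l 105931343319)) (l 112373793943))))) (l 3)) (a (b (c (a (l 16779088) (c (l 16778240) (l 16777528))) (c (l 39359351143) (l 40969964295))) (c (l 16779312) (l 16777960))) (c (b (b (a (c (a (l 104857601639) (l 113447535431))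 (l 110226310439)) (l 3)) (a (c (l 99488893015) (l 97878279975)) (c (l 112373793735) (l 112910664471)))) (a (c (l 16777672) (l 16777624)) (c (b (a (l 16777456) (l 106468214231)) (l 16777536)) (b (l 103783859943) (l 16777480))))) (b (c (a (b (l 110763181207) (l 16777984)) (l 111300050839)) (a (l 107541956247) (l 111300050711))) (a (l 16778872) (c (l 101636376839) (l 101099505735)))))))), by decide +kernel⟩

def k95_pm_102 : ∃ t, chk3 f_pm_102 t 246 243 1 = true :=
  ⟨(a (c (c (l 16779656) (l 16782032)) (c (l 16781856) (l 16781752))) (a (c (c (l 16777976) (l 16780456)) (c (l 16780352) (l 16780304))) (b (b (a (c (l 16778536) (l 16778536)) (c (c (l 16779344) (l 16778024)) (a (l 16778128) (l 16779168)))) (c (l 16779048) (l 16778992))) (c (l 16780216) (l 16780040))))), by decide +kernel⟩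

def k96_pm_102 : ∃ t, chk3 f_pm_102 t 247 242 1 = true :=
  ⟨(a (b (l 3) (a (a (a (b (l 3) (b (l 3) (c (b (c (l 113447534839) (l 113984405575)) (c (a (l 102173247111) (l 111300051975)) (l 108615697879))) (c (b (l 115595018215) (l 109152568647)) (l 113984406439))))) (l 3)) (l 3)) (l 3))) (l 3)), by decide +kernel⟩

def k97_pm_102 : ∃ t, chk3 f_pm_102 t 494 486 1 = true :=
  ⟨(a (b (a (b (c (a (c (l 95730796807) (l 16778472)) (c (b (a (l 108078826791) (l 3)) (a (l 16777472) (l 103783859767))) (b (l 112373793847) (l 102173247383)))) (a (c (l 16778752) (l 16778704)) (c (a (l 104320730887) (l 111836922999)) (l 110763181591)))) (c (a (l 16777840) (c (l 16777632) (l 16777584))) (a (l 16777784) (l 16779160)))) (a (b (c (c (b (l 3) (l 111300051239)) (l 112373792711)) (c (l 112910663479) (l 113447534263))) (c (c (b (a (l 99488892551) (l 109689439495)) (l 16777504)) (b (l 107005085271) (l 16777440))) (c (b (l 106468214151) (l 16777384)) (l 103783860071)))) (b (l 3) (b (l 3) (c (c (a (l 105931343367) (l 113447535287)) (l 111300052215))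 (c (l 110763181015) (l 110763180887))))))) (a (c (l 16779872) (l 16779536)) (b (c (a (l 16779344) (c (c (l 98952022071) (l 98415151095)) (l 97341409847))) (a (l 16778944) (c (l 97341409575) (l 96804538407)))) (c (l 16779232) (l 16779192))))) (b (l 3) (c (a (b (a (c (b (l 109689439191) (a (l 16777448) (l 107541956023))) (b (l 112910664343) (l 104857601751))) (c (l 112910663655) (l 113447534423))) (a (c (l 16778248) (l 16777552)) (c (b (a (l 103246988903) (l 111836922743)) (l 97878280295)) (b (l 109689439671) (l 16778064))))) (b (l 3) (a (a (b (l 3) (c (l 108615697655) (l 109152568423))) (l 3)) (l 3)))) (a (b (c (a (b (l 113984406023) (l 105394472535)) (l 113447534279)) (a (l 112373794087) (l 113984405079))) (b (a (l 16778704) (c (l 109689439463) (l 109689439255))) (c (l 94657055143) (l 16778736)))) (a (a (b (l 3) (c (l 113984406199) (l 113984405991))) (l 3)) (l 3)))))), by decide +kernel⟩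

def k98_pm_102 : ∃ t, chk3 f_pm_102 t 494 487 1 = true :=
  ⟨(c (a (c (l 16779160) (l 16779096)) (b (a (b (c (l 16779272) (l 16779080)) (l 16778120)) (b (a (b (c (a (l 16777464) (l 105394472487)) (l 103246989191)) (c (l 16777544) (l 16777496))) (b (c (l 111300051175) (l 112373792839)) (c (a (l 100562634343) (l 110226310279)) (l 108078827047)))) (a (l 16779072) (c (l 94657054679) (l 16778168))))) (c (l 16779416) (l 16778416)))) (c (a (l 16779064) (b (a (l 16779240) (b (a (l 100562635143) (b (l 115058147511) (l 108078826887))) (l 89825217687))) (l 16778416))) (a (l 16779048) (b (a (l 16777904) (b (a (l 100562634887) (b (l 115058147303) (l 108078826695))) (l 40433093543))) (l 16778416))))), by decide +kernel⟩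

def k99_pm_102 : ∃ t, chk3 f_pm_102 t 495 243 1 = true :=
  ⟨(b (l 3) (a (b (a (b (l 3) (c (b (a (c (a (l 107005085079) (l 113447534919)) (l 111300052023)) (l 3)) (a (c (a (l 16777480) (l 102710117975)) (l 100025763751)) (c (l 109689439127) (l 113984406119)))) (c (a (b (l 111836922791) (l 99488892567)) (l 111836921655)) (a (b (l 112373793591) (l 16777928)) (l 112373792455))))) (l 3)) (a (b (c (a (c (l 16778960) (l 16777608)) (c (b (a (l 16777920) (l 108078826727)) (l 16777512)) (b (l 106468214471) (l 16777456)))) (a (l 16778864) (c (b (l 106468214263) (l 16777408)) (l 103246989207)))) (c (c (l 16777848) (l 16777832)) (l 16779112))) (a (b (b (l 3) (l 6)) (l 6)) (l 6)))) (b (l 3) (l 6)))), by decide +kernel⟩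

def k100_pm_102 : ∃ t, chk3 f_pm_102 t 61 61 1 = true :=
  ⟨(a (b (c (a (b (l 16792832) (l 16796080)) (b (c (l 16788904) (l 16788248)) (c (l 16792240) (l 16791376)))) (a (l 16787720) (c (l 16789256) (l 16788896)))) (c (a (b (l 16799376) (l 16802728)) (b (l 16795064) (l 16798384))) (c (a (l 16799336) (l 16795304)) (l 16796696)))) (b (a (c (b (c (a (l 16785552) (l 16783304)) (l 16781416)) (a (l 16788520) (c (l 16786616) (l 16786088)))) (b (c (l 16781136) (l 16778336)) (a (l 16787536) (l 16785544)))) (b (b (a (c (c (l 16777592) (l 16777464)) (c (l 16780000) (l 16779952))) (a (b (a (c (l 16779688) (l 16778376)) (l 6)) (l 6)) (l 6))) (a (c (l 16779104) (l 16781392)) (l 6))) (l 6))) (b (a (a (c (l 16791784) (l 16790488)) (l 6)) (l 6)) (l 6)))), by decide +kernel⟩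

def k101_pm_102 : ∃ t, chk3 f_pm_102 t 30 31 1 = true :=
  ⟨(c (a (b (b (a (b (l 16841856) (l 16824240)) (b (l 16812576) (a (l 16818048) (l 16813880)))) (l 16825056)) (l 16834912)) (b (a (b (a (b (l 16806128) (l 16809584)) (l 16803472)) (l 6)) (l 6)) (l 6))) (a (b (b (a (a (l 16821152) (l 16838112)) (b (l 16809488) (a (l 16814776) (l 16810712)))) (l 16822048)) (l 16832816)) (b (a (b (a (b (l 16803560) (l 16806696)) (l 16806352)) (l 6)) (l 6)) (l 6)))), by decide +kernel⟩

def k102_pm_102 : ∃ t, chk3 f_pm_102 t 31 15 1 = true :=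
  ⟨(b (b (l 3) (l 6)) (l 6)), by decide +kernel⟩

theorem s103_pm_102 : ∃ t, chk3 f_pm_102 t 494 243 1 = true := ex3_b k97_pm_102 k98_pm_102

theorem s104_pm_102 : ∃ t, chk3 f_pm_102 t 247 243 1 = true := ex3_a s103_pm_102 k99_pm_102

theorem s105_pm_102 : ∃ t, chk3 f_pm_102 t 247 121 1 = true := ex3_b k96_pm_102 s104_pm_102

theorem s106_pm_102 : ∃ t, chk3 f_pm_102 t 493 242 1 = true := ex3_b k93_pm_102 k94_pm_102

theorem s107_pm_102 : ∃ t, chk3 f_pm_102 t 246 242 1 = true := ex3_a k92_pm_102 s106_pm_102

theorem s108_pm_102 : ∃ t, chk3 f_pm_102 t 246 121 1 = true := ex3_b s107_pm_102 k95_pm_102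

theorem s109_pm_102 : ∃ t, chk3 f_pm_102 t 123 121 1 = true := ex3_a s108_pm_102 s105_pm_102

theorem s110_pm_102 : ∃ t, chk3 f_pm_102 t 123 60 1 = true := ex3_b k91_pm_102 s109_pm_102

theorem s111_pm_102 : ∃ t, chk3 f_pm_102 t 245 240 1 = true := ex3_a k87_pm_102 k88_pm_102

theorem s112_pm_102 : ∃ t, chk3 f_pm_102 t 245 120 1 = true := ex3_b s111_pm_102 k89_pm_102

theorem s113_pm_102 : ∃ t, chk3 f_pm_102 t 122 120 1 = true := ex3_a k86_pm_102 s112_pm_102

theorem s114_pm_102 : ∃ t, chk3 f_pm_102 t 122 60 1 = true := ex3_b s113_pm_102 k90_pm_102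

theorem s115_pm_102 : ∃ t, chk3 f_pm_102 t 61 60 1 = true := ex3_a s114_pm_102 s110_pm_102

theorem s116_pm_102 : ∃ t, chk3 f_pm_102 t 61 30 1 = true := ex3_b s115_pm_102 k100_pm_102

theorem s117_pm_102 : ∃ t, chk3 f_pm_102 t 30 30 1 = true := ex3_a k85_pm_102 s116_pm_102

theorem s118_pm_102 : ∃ t, chk3 f_pm_102 t 30 15 1 = true := ex3_b s117_pm_102 k101_pm_102

theorem s119_pm_102 : ∃ t, chk3 f_pm_102 t 15 15 1 = true := ex3_a s118_pm_102 k102_pm_102

theorem s120_pm_102 : ∃ t, chk3 f_pm_102 t 244 239 1 = true := ex3_a k80_pm_102 k81_pm_102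

theorem s121_pm_102 : ∃ t, chk3 f_pm_102 t 244 119 1 = true := ex3_b k79_pm_102 s120_pm_102

theorem s122_pm_102 : ∃ t, chk3 f_pm_102 t 122 119 1 = true := ex3_a s121_pm_102 k82_pm_102

theorem s123_pm_102 : ∃ t, chk3 f_pm_102 t 122 59 1 = true := ex3_b k78_pm_102 s122_pm_102

theorem s124_pm_102 : ∃ t, chk3 f_pm_102 t 61 59 1 = true := ex3_a s123_pm_102 k83_pm_102

theorem s125_pm_102 : ∃ t, chk3 f_pm_102 t 61 29 1 = true := ex3_b k77_pm_102 s124_pm_102

theorem s126_pm_102 : ∃ t, chk3 f_pm_102 t 243 119 1 = true := ex3_b k75_pm_102 k76_pm_102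

theorem s127_pm_102 : ∃ t, chk3 f_pm_102 t 121 119 1 = true := ex3_a k74_pm_102 s126_pm_102

theorem s128_pm_102 : ∃ t, chk3 f_pm_102 t 242 236 1 = true := ex3_a k70_pm_102 k71_pm_102

theorem s129_pm_102 : ∃ t, chk3 f_pm_102 t 242 118 1 = true := ex3_b s128_pm_102 k72_pm_102

theorem s130_pm_102 : ∃ t, chk3 f_pm_102 t 121 118 1 = true := ex3_a s129_pm_102 k73_pm_102

theorem s131_pm_102 : ∃ t, chk3 f_pm_102 t 121 59 1 = true := ex3_b s130_pm_102 s127_pm_102

theorem s132_pm_102 : ∃ t, chk3 f_pm_102 t 60 59 1 = true := ex3_a k69_pm_102 s131_pm_102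

theorem s133_pm_102 : ∃ t, chk3 f_pm_102 t 241 235 1 = true := ex3_a k66_pm_102 k67_pm_102

theorem s134_pm_102 : ∃ t, chk3 f_pm_102 t 241 117 1 = true := ex3_b k65_pm_102 s133_pm_102

theorem s135_pm_102 : ∃ t, chk3 f_pm_102 t 120 117 1 = true := ex3_a k64_pm_102 s134_pm_102

theorem s136_pm_102 : ∃ t, chk3 f_pm_102 t 120 58 1 = true := ex3_b k63_pm_102 s135_pm_102

theorem s137_pm_102 : ∃ t, chk3 f_pm_102 t 60 58 1 = true := ex3_a s136_pm_102 k68_pm_102

theorem s138_pm_102 : ∃ t, chk3 f_pm_102 t 60 29 1 = true := ex3_b s137_pm_102 s132_pm_102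

theorem s139_pm_102 : ∃ t, chk3 f_pm_102 t 30 29 1 = true := ex3_a s138_pm_102 s125_pm_102

theorem s140_pm_102 : ∃ t, chk3 f_pm_102 t 30 14 1 = true := ex3_b k62_pm_102 s139_pm_102

theorem s141_pm_102 : ∃ t, chk3 f_pm_102 t 15 14 1 = true := ex3_a s140_pm_102 k84_pm_102

theorem s142_pm_102 : ∃ t, chk3 f_pm_102 t 15 7 1 = true := ex3_b s141_pm_102 s119_pm_102

theorem s143_pm_102 : ∃ t, chk3 f_pm_102 t 239 116 1 = true := ex3_b k57_pm_102 k58_pm_102

theorem s144_pm_102 : ∃ t, chk3 f_pm_102 t 119 116 1 = true := ex3_a k56_pm_102 s143_pm_102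

theorem s145_pm_102 : ∃ t, chk3 f_pm_102 t 119 58 1 = true := ex3_b s144_pm_102 k59_pm_102

theorem s146_pm_102 : ∃ t, chk3 f_pm_102 t 59 58 1 = true := ex3_a k55_pm_102 s145_pm_102

theorem s147_pm_102 : ∃ t, chk3 f_pm_102 t 59 29 1 = true := ex3_b s146_pm_102 k60_pm_102

theorem s148_pm_102 : ∃ t, chk3 f_pm_102 t 29 29 1 = true := ex3_a k54_pm_102 s147_pm_102

theorem s149_pm_102 : ∃ t, chk3 f_pm_102 t 238 115 1 = true := ex3_b k51_pm_102 k52_pm_102

theorem s150_pm_102 : ∃ t, chk3 f_pm_102 t 119 115 1 = true := ex3_a s149_pm_102 k53_pm_102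

theorem s151_pm_102 : ∃ t, chk3 f_pm_102 t 119 57 1 = true := ex3_b k50_pm_102 s150_pm_102

theorem s152_pm_102 : ∃ t, chk3 f_pm_102 t 118 114 1 = true := ex3_a k47_pm_102 k48_pm_102

theorem s153_pm_102 : ∃ t, chk3 f_pm_102 t 118 57 1 = true := ex3_b s152_pm_102 k49_pm_102

theorem s154_pm_102 : ∃ t, chk3 f_pm_102 t 59 57 1 = true := ex3_a s153_pm_102 s151_pm_102

theorem s155_pm_102 : ∃ t, chk3 f_pm_102 t 59 28 1 = true := ex3_b k46_pm_102 s154_pm_102

theorem s156_pm_102 : ∃ t, chk3 f_pm_102 t 117 113 1 = true := ex3_a k43_pm_102 k44_pm_102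

theorem s157_pm_102 : ∃ t, chk3 f_pm_102 t 117 56 1 = true := ex3_b k42_pm_102 s156_pm_102

theorem s158_pm_102 : ∃ t, chk3 f_pm_102 t 116 56 1 = true := ex3_b k40_pm_102 k41_pm_102

theorem s159_pm_102 : ∃ t, chk3 f_pm_102 t 58 56 1 = true := ex3_a s158_pm_102 s157_pm_102

theorem s160_pm_102 : ∃ t, chk3 f_pm_102 t 58 28 1 = true := ex3_b s159_pm_102 k45_pm_102

theorem s161_pm_102 : ∃ t, chk3 f_pm_102 t 29 28 1 = true := ex3_a s160_pm_102 s155_pm_102

theorem s162_pm_102 : ∃ t, chk3 f_pm_102 t 29 14 1 = true := ex3_b s161_pm_102 s148_pm_102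

theorem s163_pm_102 : ∃ t, chk3 f_pm_102 t 14 14 1 = true := ex3_a k39_pm_102 s162_pm_102

theorem s164_pm_102 : ∃ t, chk3 f_pm_102 t 14 7 1 = true := ex3_b s163_pm_102 k61_pm_102

theorem s165_pm_102 : ∃ t, chk3 f_pm_102 t 7 7 1 = true := ex3_a s164_pm_102 s142_pm_102

theorem s166_pm_102 : ∃ t, chk3 f_pm_102 t 115 55 1 = true := ex3_b k35_pm_102 k36_pm_102

theorem s167_pm_102 : ∃ t, chk3 f_pm_102 t 57 55 1 = true := ex3_a k34_pm_102 s166_pm_102

theorem s168_pm_102 : ∃ t, chk3 f_pm_102 t 114 109 1 = true := ex3_a k31_pm_102 k32_pm_102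

theorem s169_pm_102 : ∃ t, chk3 f_pm_102 t 114 54 1 = true := ex3_b k30_pm_102 s168_pm_102

theorem s170_pm_102 : ∃ t, chk3 f_pm_102 t 57 54 1 = true := ex3_a s169_pm_102 k33_pm_102

theorem s171_pm_102 : ∃ t, chk3 f_pm_102 t 57 27 1 = true := ex3_b s170_pm_102 s167_pm_102

theorem s172_pm_102 : ∃ t, chk3 f_pm_102 t 28 27 1 = true := ex3_a k29_pm_102 s171_pm_102

theorem s173_pm_102 : ∃ t, chk3 f_pm_102 t 56 53 1 = true := ex3_a k26_pm_102 k27_pm_102

theorem s174_pm_102 : ∃ t, chk3 f_pm_102 t 56 26 1 = true := ex3_b k25_pm_102 s173_pm_102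

theorem s175_pm_102 : ∃ t, chk3 f_pm_102 t 28 26 1 = true := ex3_a s174_pm_102 k28_pm_102

theorem s176_pm_102 : ∃ t, chk3 f_pm_102 t 28 13 1 = true := ex3_b s175_pm_102 s172_pm_102

theorem s177_pm_102 : ∃ t, chk3 f_pm_102 t 14 13 1 = true := ex3_a s176_pm_102 k37_pm_102

theorem s178_pm_102 : ∃ t, chk3 f_pm_102 t 14 6 1 = true := ex3_b k24_pm_102 s177_pm_102

theorem s179_pm_102 : ∃ t, chk3 f_pm_102 t 7 6 1 = true := ex3_a s178_pm_102 k38_pm_102

theorem s180_pm_102 : ∃ t, chk3 f_pm_102 t 7 3 1 = true := ex3_b s179_pm_102 s165_pm_102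

theorem s181_pm_102 : ∃ t, chk3 f_pm_102 t 55 52 1 = true := ex3_a k19_pm_102 k20_pm_102

theorem s182_pm_102 : ∃ t, chk3 f_pm_102 t 55 26 1 = true := ex3_b s181_pm_102 k21_pm_102

theorem s183_pm_102 : ∃ t, chk3 f_pm_102 t 27 26 1 = true := ex3_a k18_pm_102 s182_pm_102

theorem s184_pm_102 : ∃ t, chk3 f_pm_102 t 27 13 1 = true := ex3_b s183_pm_102 k22_pm_102

theorem s185_pm_102 : ∃ t, chk3 f_pm_102 t 13 13 1 = true := ex3_a k17_pm_102 s184_pm_102

theorem s186_pm_102 : ∃ t, chk3 f_pm_102 t 27 25 1 = true := ex3_a k15_pm_102 k16_pm_102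

theorem s187_pm_102 : ∃ t, chk3 f_pm_102 t 27 12 1 = true := ex3_b k14_pm_102 s186_pm_102

theorem s188_pm_102 : ∃ t, chk3 f_pm_102 t 26 12 1 = true := ex3_b k12_pm_102 k13_pm_102

theorem s189_pm_102 : ∃ t, chk3 f_pm_102 t 13 12 1 = true := ex3_a s188_pm_102 s187_pm_102

theorem s190_pm_102 : ∃ t, chk3 f_pm_102 t 13 6 1 = true := ex3_b s189_pm_102 s185_pm_102

theorem s191_pm_102 : ∃ t, chk3 f_pm_102 t 6 6 1 = true := ex3_a k11_pm_102 s190_pm_102

theorem s192_pm_102 : ∃ t, chk3 f_pm_102 t 6 3 1 = true := ex3_b s191_pm_102 k23_pm_102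

theorem s193_pm_102 : ∃ t, chk3 f_pm_102 t 3 3 1 = true := ex3_a s192_pm_102 s180_pm_102

theorem s194_pm_102 : ∃ t, chk3 f_pm_102 t 3 1 1 = true := ex3_b k10_pm_102 s193_pm_102

theorem s195_pm_102 : ∃ t, chk3 f_pm_102 t 5 3 1 = true := ex3_b k8_pm_102 k9_pm_102

theorem s196_pm_102 : ∃ t, chk3 f_pm_102 t 8 15 1 = true := ex3_a k5_pm_102 k6_pm_102

theorem s197_pm_102 : ∃ t, chk3 f_pm_102 t 8 7 1 = true := ex3_b k4_pm_102 s196_pm_102

theorem s198_pm_102 : ∃ t, chk3 f_pm_102 t 4 7 1 = true := ex3_a s197_pm_102 k7_pm_102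

theorem s199_pm_102 : ∃ t, chk3 f_pm_102 t 4 3 1 = true := ex3_b k3_pm_102 s198_pm_102

theorem s200_pm_102 : ∃ t, chk3 f_pm_102 t 2 3 1 = true := ex3_a s199_pm_102 s195_pm_102

theorem s201_pm_102 : ∃ t, chk3 f_pm_102 t 5 2 1 = true := ex3_b k1_pm_102 k2_pm_102

theorem s202_pm_102 : ∃ t, chk3 f_pm_102 t 2 2 1 = true := ex3_a k0_pm_102 s201_pm_102

theorem s203_pm_102 : ∃ t, chk3 f_pm_102 t 2 1 1 = true := ex3_b s202_pm_102 s200_pm_102

theorem s204_pm_102 : ∃ t, chk3 f_pm_102 t 1 1 1 = true := ex3_a s203_pm_102 s194_pm_102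

theorem c_pm_102 : CertN 536870912 536870912 0 536870912 469762048 67108864 3 false true false .npp 1 0 2
    ndN0q1 ndN0q2 pcN0 cut_pm_102 Ext.none :=
  certN0 (fam := false) (s1 := true) (s2 := false) (a := 1) (b := 0) (c := 2) (cn := .npp) (n1 := ndN0q1) (n2 := ndN0q2) (pc := pcN0) (cut := cut_pm_102) (xt := Ext.none) (P1 := 536870912) (W1 := 536870912) (P2 := 0) (W2 := 536870912) (P3 := 469762048) (W3 := 67108864) (N0 := 3)
    rfl s204_pm_102

noncomputable def cut_pm_112 : Cut := Cut.of [[⟨0, 0, 1, 33554432⟩, ⟨1, 1, 2, 33554432⟩, ⟨2, 1, 0, 33554432⟩]]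

noncomputable def f_pm_112 : ℕ → ℕ → ℕ → ℕ → Bool := onCell 536870912 536870912 0 536870912 469762048 67108864
    (rowN 3 0 false true false .dn 1 1 2 (qsf 536870912 536870912 0 536870912 1) ndN0q1 ndN0q2 pcN1 cut_pm_112 Ext.none)

def k0_pm_112 : ∃ t, chk3 f_pm_112 t 4 2 1 = true :=
  ⟨(b (a (b (a (b (a (l 16842248) (l 16829280)) (a (l 16860184) (l 16846384))) (b (a (l 16792920) (b (l 16795456) (l 16802696))) (a (l 16830248) (l 16814272)))) (a (a (l 16885384) (l 16870624)) (a (l 16833808) (l 16818464)))) (b (a (b (a (b (a (l 16787536) (l 53854877927)) (l 16790576)) (b (a (a (l 69961001415) (l 79087807495)) (a (l 87677743287) (l 95730809607))) (a (l 16784768) (b (l 16782960) (l 16783432))))) (a (l 16800264) (b (l 16787008) (l 16792184)))) (b (a (b (l 3) (a (b (a (l 81772165527) (l 95730810503)) (a (l 16783136) (l 16783704))) (b (l 3) (a (l 84456520871) (l 110226328743))))) (l 3)) (a (b (a (l 16783480) (b (a (l 16783688) (l 78014070231)) (l 16783432))) (l 16784776)) (b (a (c (b (a (l 88214629543) (l 113984438263))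 (a (l 16789432) (l 79087825351))) (b (a (l 88751482823) (l 117205646887)) (a (l 16780008) (l 81235292455)))) (b (l 3) (a (b (a (b (l 116668784423) (l 90898971879)) (b (l 3) (l 117742527559))) (a (l 16787408) (c (l 89825243223) (l 89825228167)))) (b (l 3) (a (b (a (b (l 3) (l 116668775319)) (l 3)) (a (c (l 16793792) (l 16785096)) (c (l 88214631015) (l 90362099975)))) (b (l 3) (l 103247004679))))))) (a (l 16783696) (b (a (l 16786088) (a (a (l 16787416) (l 16787920)) (c (l 44728089255) (l 43117461351)))) (l 16805832))))))) (a (a (l 16803712) (b (l 16802560) (l 16820152))) (a (b (l 16791544) (l 16806832)) (b (a (l 16785928) (l 16804832)) (l 16795608)))))) (a (b (a (a (l 16919752) (l 16904968)) (a (l 16891040) (l 16878320))) (a (a (b (l 16944064) (l 16939648)) (l 16938656)) (a (l 16949408) (l 16919736)))) (b (a (a (l 16865592) (l 16852688)) (a (l 16797816) (b (l 16815936) (l 16843952)))) (a (a (l 16911192) (l 16902816)) (b (l 16878904) (l 16911112)))))), by decide +kernel⟩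

def k1_pm_112 : ∃ t, chk3 f_pm_112 t 5 2 1 = true :=
  ⟨(a (b (b (a (b (l 3) (a (b (l 3) (a (b (a (a (a (l 89825235287) (l 90362111591)) (l 97341435159)) (l 105931373319)) (a (l 16786840) (l 84993400471))) (b (l 3) (a (l 96267691751) (l 106468243991))))) (l 3))) (l 1)) (a (b (a (b (a (l 16783920) (b (a (l 16786504) (l 84993402599)) (l 16784424))) (l 16782856)) (b (a (b (a (l 97878304007) (l 108078856551)) (a (l 16786120) (l 84456537591))) (b (l 3) (a (l 99488916327) (l 1)))) (a (l 16783144) (b (l 149820572919) (l 16783592))))) (a (l 16788304) (l 122440203031))) (l 1))) (a (b (b (a (l 16807520) (l 16799624)) (l 16832760)) (l 16887464)) (l 1))) (l 1)), by decide +kernel⟩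

def k2_pm_112 : ∃ t, chk3 f_pm_112 t 2 3 1 = true :=
  ⟨(a (b (a (b (b (a (a (l 16971736) (b (a (l 16949968) (b (l 16954912) (l 16966664))) (l 17003544))) (a (b (l 16953024) (l 16978688)) (b (l 16946312) (l 16963360)))) (a (l 17044648) (l 16934432))) (a (b (l 17090960) (l 17036752)) (b (l 17146064) (l 16973328)))) (b (a (b (a (l 16947816) (l 16944312)) (b (l 16937256) (l 17028936))) (b (l 16944840) (l 16991032))) (a (b (l 17105896) (l 16938104)) (b (l 17031480) (l 1))))) (a (b (a (b (a (l 16943968) (l 16970576)) (a (l 16729136) (l 16819856))) (b (a (l 16971824) (l 16951320)) (a (b (l 16908104) (l 16868968)) (l 16852832)))) (a (b (a (b (l 16771792) (b (l 16699888) (l 16680176))) (b (l 16781072) (c (l 16824512) (l 16703224)))) (b (a (b (c (l 16768080) (l 16636640)) (a (c (l 16741672) (l 16605584)) (c (l 16758928) (l 16646392)))) (a (c (l 16783560) (l 109554936503)) (l 1))) (a (a (a (b (c (l 16719136) (l 16579096)) (c (c (l 16726128) (b (l 16680616) (l 16650208))) (c (b (l 16630360) (b (l 16622680) (c (l 16630416) (l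 6)))) (l 6)))) (b (c (l 16728320) (l 16589592)) (c (l 125661104455) (b (l 96133011479) (l 1))))) (b (c (l 16741608) (l 100964902423)) (l 1))) (l 1)))) (a (b (a (l 124587494999) (l 1)) (l 1)) (l 1)))) (b (a (b (a (l 16930568) (l 1)) (l 1)) (l 1)) (l 1)))) (b (l 1) (l 1))), by decide +kernel⟩

def k3_pm_112 : ∃ t, chk3 f_pm_112 t 3 1 1 = true :=
  ⟨(l 1), by decide +kernel⟩

theorem s4_pm_112 : ∃ t, chk3 f_pm_112 t 2 2 1 = true := ex3_a k0_pm_112 k1_pm_112

theorem s5_pm_112 : ∃ t, chk3 f_pm_112 t 2 1 1 = true := ex3_b s4_pm_112 k2_pm_112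

theorem s6_pm_112 : ∃ t, chk3 f_pm_112 t 1 1 1 = true := ex3_a s5_pm_112 k3_pm_112

theorem c_pm_112 : CertN 536870912 536870912 0 536870912 469762048 67108864 3 false true false .dn 1 1 2
    ndN0q1 ndN0q2 pcN1 cut_pm_112 Ext.none :=
  certN0 (fam := false) (s1 := true) (s2 := false) (a := 1) (b := 1) (c := 2) (cn := .dn) (n1 := ndN0q1) (n2 := ndN0q2) (pc := pcN1) (cut := cut_pm_112) (xt := Ext.none) (P1 := 536870912) (W1 := 536870912) (P2 := 0) (W2 := 536870912) (P3 := 469762048) (W3 := 67108864) (N0 := 3)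
    rfl s6_pm_112

noncomputable def cut_pm_202 : Cut := Cut.of [[⟨0, 1, 0, 67108864⟩, ⟨1, 0, 0, 67108864⟩, ⟨2, 1, 0, 67108864⟩]]

noncomputable def f_pm_202 : ℕ → ℕ → ℕ → ℕ → Bool := onCell 0 536870912 0 536870912 469762048 67108864
    (rowN 3 0 false true false .pp 2 0 2 (qsf 0 536870912 0 536870912 0) ndN0q2 ndN0q2 pcN0 cut_pm_202 Ext.none)

def k0_pm_202 : ∃ t, chk3 f_pm_202 t 1 1 1 = true :=
  ⟨(a (l 3) (b (l 3) (a (l 3) (b (l 3) (b (l 3) (a (l 3) (l 6))))))), by decide +kernel⟩

theorem c_pm_202 : CertN 0 536870912 0 536870912 469762048 67108864 3 false true false .pp 2 0 2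
    ndN0q2 ndN0q2 pcN0 cut_pm_202 Ext.none :=
  certN0 (fam := false) (s1 := true) (s2 := false) (a := 2) (b := 0) (c := 2) (cn := .pp) (n1 := ndN0q2) (n2 := ndN0q2) (pc := pcN0) (cut := cut_pm_202) (xt := Ext.none) (P1 := 0) (W1 := 536870912) (P2 := 0) (W2 := 536870912) (P3 := 469762048) (W3 := 67108864) (N0 := 3)
    rfl k0_pm_202

noncomputable def f_mm_001 : ℕ → ℕ → ℕ → ℕ → Bool := onCell 0 536870912 0 536870912 469762048 67108864
    (rowN 3 1 false false false .up 0 0 1 (qsf 0 536870912 536870912 536870912 0) ndN0q0 ndN0q1 pcN0 Cut.none Ext.none)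

def k0_mm_001 : ∃ t, chk3 f_mm_001 t 1 1 1 = true :=
  ⟨(l 3), by decide +kernel⟩

theorem c_mm_001 : CertN 0 536870912 536870912 536870912 469762048 67108864 3 false false false .up 0 0 1
    ndN0q0 ndN0q1 pcN0 Cut.none Ext.none :=
  certN1 (fam := false) (s1 := false) (s2 := false) (a := 0) (b := 0) (c := 1) (cn := .up) (n1 := ndN0q0) (n2 := ndN0q1) (pc := pcN0) (cut := Cut.none) (xt := Ext.none) (P1 := 0) (W1 := 536870912) (P2 := 536870912) (W2 := 536870912) (P3 := 469762048) (W3 := 67108864) (N0 := 3)
    rfl (fun _ => rfl) k0_mm_001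

noncomputable def f_mm_011 : ℕ → ℕ → ℕ → ℕ → Bool := onCell 0 536870912 536870912 536870912 469762048 67108864
    (rowN 3 1 false false false .pnn 0 1 1 (qsf 0 536870912 536870912 536870912 1) ndN0q0 ndN0q1 pcN1 Cut.none Ext.none)

def k0_mm_011 : ∃ t, chk3 f_mm_011 t 1 1 1 = true :=
  ⟨(l 5), by decide +kernel⟩

theorem c_mm_011 : CertN 0 536870912 536870912 536870912 469762048 67108864 3 false false false .pnn 0 1 1
    ndN0q0 ndN0q1 pcN1 Cut.none Ext.none :=
  certN1 (fam := false) (s1 := false) (s2 := false) (a := 0) (b := 1) (c := 1) (cn := .pnn) (n1 := ndN0q0) (n2 := ndN0q1) (pc := pcN1) (cut := Cut.none) (xt := Ext.none) (P1 := 0) (W1 := 536870912) (P2 := 536870912) (W2 := 536870912) (P3 := 469762048) (W3 := 67108864) (N0 := 3)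
    rfl (fun _ => rfl) k0_mm_011

noncomputable def f_mm_012 : ℕ → ℕ → ℕ → ℕ → Bool := onCell 0 536870912 0 536870912 469762048 67108864
    (rowN 3 0 false false false .pnp 0 1 2 (qsf 0 536870912 0 536870912 1) ndN0q0 ndN0q2 pcN1 Cut.none Ext.none)

def k0_mm_012 : ∃ t, chk3 f_mm_012 t 1 1 1 = true :=
  ⟨(l 5), by decide +kernel⟩

theorem c_mm_012 : CertN 0 536870912 0 536870912 469762048 67108864 3 false false false .pnp 0 1 2
    ndN0q0 ndN0q2 pcN1 Cut.none Ext.none :=
  certN0 (fam := false) (s1 := false) (s2 := false) (a := 0) (b := 1) (c := 2) (cn := .pnp) (n1 := ndN0q0) (n2 := ndN0q2) (pc := pcN1) (cut := Cut.none) (xt := Ext.none) (P1 := 0) (W1 := 536870912) (P2 := 0) (W2 := 536870912) (P3 := 469762048) (W3 := 67108864) (N0 := 3)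
    rfl k0_mm_012

noncomputable def f_mm_022 : ℕ → ℕ → ℕ → ℕ → Bool := onCell 0 536870912 0 536870912 469762048 67108864
    (rowN 3 0 false false false .pp 0 2 2 (qsf 0 536870912 0 536870912 2) ndN0q0 ndN0q2 pcN2 Cut.none Ext.none)

def k0_mm_022 : ∃ t, chk3 f_mm_022 t 1 1 1 = true :=
  ⟨(l 5), by decide +kernel⟩

theorem c_mm_022 : CertN 0 536870912 0 536870912 469762048 67108864 3 false false false .pp 0 2 2
    ndN0q0 ndN0q2 pcN2 Cut.none Ext.none :=
  certN0 (fam := false) (s1 := false) (s2 := false) (a := 0) (b := 2) (c := 2) (cn := .pp) (n1 := ndN0q0) (n2 := ndN0q2) (pc := pcN2) (cut := Cut.none) (xt := Ext.none) (P1 := 0) (W1 := 536870912) (P2 := 0) (W2 := 536870912) (P3 := 469762048) (W3 := 67108864) (N0 := 3)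
    rfl k0_mm_022

noncomputable def f_mm_101 : ℕ → ℕ → ℕ → ℕ → Bool := onCell 536870912 536870912 536870912 536870912 469762048 67108864
    (rowN 3 0 false false false .npn 1 0 1 (qsf 536870912 536870912 536870912 536870912 0) ndN0q1 ndN0q1 pcN0 Cut.none Ext.none)

def k0_mm_101 : ∃ t, chk3 f_mm_101 t 1 1 1 = true :=
  ⟨(l 3), by decide +kernel⟩

theorem c_mm_101 : CertN 536870912 536870912 536870912 536870912 469762048 67108864 3 false false false .npn 1 0 1
    ndN0q1 ndN0q1 pcN0 Cut.none Ext.none :=
  certN0 (fam := false) (s1 := false) (s2 := false) (a := 1) (b := 0) (c := 1) (cn := .npn) (n1 := ndN0q1) (n2 := ndN0q1) (pc := pcN0) (cut := Cut.none) (xt := Ext.none) (P1 := 536870912) (W1 := 536870912) (P2 := 536870912) (W2 := 536870912) (P3 := 469762048) (W3 := 67108864) (N0 := 3)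
    rfl k0_mm_101

noncomputable def f_mm_102 : ℕ → ℕ → ℕ → ℕ → Bool := onCell 536870912 536870912 0 536870912 469762048 67108864
    (rowN 3 0 false false false .npp 1 0 2 (qsf 536870912 536870912 0 536870912 0) ndN0q1 ndN0q2 pcN0 Cut.none Ext.none)

def k0_mm_102 : ∃ t, chk3 f_mm_102 t 1 1 1 = true :=
  ⟨(a (l 5) (l 3)), by decide +kernel⟩

theorem c_mm_102 : CertN 536870912 536870912 0 536870912 469762048 67108864 3 false false false .npp 1 0 2
    ndN0q1 ndN0q2 pcN0 Cut.none Ext.none :=
  certN0 (fam := false) (s1 := false) (s2 := false) (a := 1) (b := 0) (c := 2) (cn := .npp) (n1 := ndN0q1) (n2 := ndN0q2) (pc := pcN0) (cut := Cut.none) (xt := Ext.none) (P1 := 536870912) (W1 := 536870912) (P2 := 0) (W2 := 536870912) (P3 := 469762048) (W3 := 67108864) (N0 := 3)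
    rfl k0_mm_102

noncomputable def f_mm_112 : ℕ → ℕ → ℕ → ℕ → Bool := onCell 536870912 536870912 0 536870912 469762048 67108864
    (rowN 3 2 false false false .dn 1 1 2 (qsf 536870912 536870912 0 536870912 1) ndN0q1 ndN0q2 pcN1 Cut.none Ext.none)

def k0_mm_112 : ∃ t, chk3 f_mm_112 t 1 1 1 = true :=
  ⟨(l 5), by decide +kernel⟩

theorem c_mm_112 : CertN 536870912 536870912 0 536870912 469762048 67108864 3 false false false .dn 1 1 2
    ndN0q1 ndN0q2 pcN1 Cut.none Ext.none :=
  certN2 (fam := false) (s1 := false) (s2 := false) (a := 1) (b := 1) (c := 2) (cn := .dn) (n1 := ndN0q1) (n2 := ndN0q2) (pc := pcN1) (cut := Cut.none) (xt := Ext.none) (P1 := 536870912) (W1 := 536870912) (P2 := 0) (W2 := 536870912) (P3 := 469762048) (W3 := 67108864) (N0 := 3)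
    rfl (fun _ => rfl) k0_mm_112

noncomputable def f_mm_202 : ℕ → ℕ → ℕ → ℕ → Bool := onCell 0 536870912 0 536870912 469762048 67108864
    (rowN 3 0 false false false .pp 2 0 2 (qsf 0 536870912 0 536870912 0) ndN0q2 ndN0q2 pcN0 Cut.none Ext.none)

def k0_mm_202 : ∃ t, chk3 f_mm_202 t 1 1 1 = true :=
  ⟨(l 3), by decide +kernel⟩

theorem c_mm_202 : CertN 0 536870912 0 536870912 469762048 67108864 3 false false false .pp 2 0 2
    ndN0q2 ndN0q2 pcN0 Cut.none Ext.none :=
  certN0 (fam := false) (s1 := false) (s2 := false) (a := 2) (b := 0) (c := 2) (cn := .pp) (n1 := ndN0q2) (n2 := ndN0q2) (pc := pcN0) (cut := Cut.none) (xt := Ext.none) (P1 := 0) (W1 := 536870912) (P2 := 0) (W2 := 536870912) (P3 := 469762048) (W3 := 67108864) (N0 := 3)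
    rfl k0_mm_202

end Pool.Agent.Strip051.G.I7_16_1_2.Tab.C.NB00

namespace Pool.Agent.Strip051.G.I7_16_1_2.Tab.C.NB01

open Pool.Agent.Strip051.PB Pool.Agent.Strip051.PB.T
open Pool.Agent.Strip051.G.I7_16_1_2.Tab

noncomputable def f_pp_001 : ℕ → ℕ → ℕ → ℕ → Bool := onCell 0 536870912 536870912 536870912 469762048 67108864
    (rowN 3 0 false true true .up 0 0 1 (qsf 0 536870912 536870912 536870912 0) ndN0q0 ndN1q1 pcN0 Cut.none Ext.none)

def k0_pp_001 : ∃ t, chk3 f_pp_001 t 1 1 1 = true :=
  ⟨(l 3), by decide +kernel⟩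

theorem c_pp_001 : CertN 0 536870912 536870912 536870912 469762048 67108864 3 false true true .up 0 0 1
    ndN0q0 ndN1q1 pcN0 Cut.none Ext.none :=
  certN0 (fam := false) (s1 := true) (s2 := true) (a := 0) (b := 0) (c := 1) (cn := .up) (n1 := ndN0q0) (n2 := ndN1q1) (pc := pcN0) (cut := Cut.none) (xt := Ext.none) (P1 := 0) (W1 := 536870912) (P2 := 536870912) (W2 := 536870912) (P3 := 469762048) (W3 := 67108864) (N0 := 3)
    rfl k0_pp_001

noncomputable def f_pp_011 : ℕ → ℕ → ℕ → ℕ → Bool := onCell 0 536870912 536870912 536870912 469762048 67108864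
    (rowN 3 0 false true true .pnn 0 1 1 (qsf 0 536870912 536870912 536870912 1) ndN0q0 ndN1q1 pcN1 Cut.none Ext.none)

def k0_pp_011 : ∃ t, chk3 f_pp_011 t 1 1 1 = true :=
  ⟨(l 3), by decide +kernel⟩

theorem c_pp_011 : CertN 0 536870912 536870912 536870912 469762048 67108864 3 false true true .pnn 0 1 1
    ndN0q0 ndN1q1 pcN1 Cut.none Ext.none :=
  certN0 (fam := false) (s1 := true) (s2 := true) (a := 0) (b := 1) (c := 1) (cn := .pnn) (n1 := ndN0q0) (n2 := ndN1q1) (pc := pcN1) (cut := Cut.none) (xt := Ext.none) (P1 := 0) (W1 := 536870912) (P2 := 536870912) (W2 := 536870912) (P3 := 469762048) (W3 := 67108864) (N0 := 3)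
    rfl k0_pp_011

end Pool.Agent.Strip051.G.I7_16_1_2.Tab.C.NB01

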