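import Pool.Agent.Strip051.G.I7_16_1_2.Tab

/-! # Certificates N14 (generated) -/

set_option linter.all false
set_option maxRecDepth 100000

namespace Pool.Agent.Strip051.G.I7_16_1_2.Tab.C.NB01

open Pool.Agent.Strip051.PB Pool.Agent.Strip051.PB.T
open Pool.Agent.Strip051.G.I7_16_1_2.Tab

noncomputable def cut_pp_012_a : Cut := Cut.of [[⟨0, 0, 0, 67108864⟩, ⟨1, 1, 0, 67108864⟩, ⟨2, 1, 0, 67108864⟩]]

noncomputable def f_pp_012_a : ℕ → ℕ → ℕ → ℕ → Bool := onCell 536870912 536870912 0 536870912 469762048 67108864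
    (rowN 3 2 false true true .pnp 0 1 2 (qsf 0 536870912 0 536870912 1) ndN0q0 ndN1q2a pcN1 cut_pp_012_a Ext.none)

def k0_pp_012_a : ∃ t, chk3 f_pp_012_a t 2 1 1 = true :=
  ⟨(l 3), by decide +kernel⟩

def k1_pp_012_a : ∃ t, chk3 f_pp_012_a t 6 1 1 = true :=
  ⟨(b (a (b (l 3) (l 3)) (b (a (b (a (b (a (l 36138108487) (l 16765584)) (b (a (l 3) (l 16757768)) (l 3))) (b (l 16750632) (a (l 34527487543) (l 16760824)))) (a (l 3) (b (b (a (l 3) (l 16752480)) (l 3)) (l 3)))) (b (a (b (l 16704000) (l 16722600)) (l 16715736)) (a (b (a (l 32379994679) (l 16755744)) (b (a (l 3) (l 16747064)) (l 3))) (b (l 16739128) (b (l 16751760) (a (l 16754800) (l 16733576))))))) (a (l 3) (b (a (l 3) (b (b (a (l 22179439431) (l 16752064)) (a (l 3) (c (l 16727176) (l 16749624)))) (l 3))) (l 3))))) (l 3)), by decide +kernel⟩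

def k2_pp_012_a : ∃ t, chk3 f_pp_012_a t 7 2 1 = true :=
  ⟨(a (b (a (a (b (l 16684968) (b (l 16704416) (l 16734464))) (b (l 16672872) (l 16716216))) (a (b (l 16658744) (l 16682672)) (b (l 16642792) (l 16668048)))) (a (b (a (a (b (c (l 16733600) (l 16756768)) (b (c (l 16745584) (l 16747000)) (l 3))) (b (b (l 16699336) (l 16728296)) (c (l 11978873671) (b (l 16716008) (l 16744464))))) (b (l 16729936) (b (l 16741672) (c (l 16727432) (l 16739880))))) (a (b (a (l 3) (b (c (l 16750608) (l 28621855575)) (l 3))) (l 3)) (b (b (c (a (l 16740768) (l 16709432)) (a (l 16742048) (l 16711096))) (a (c (l 16748448) (l 14126333831)) (c (l 16738584) (l 16739792)))) (a (l 3) (b (c (l 18421323287) (c (l 16747288) (l 16736896))) (l 3)))))) (b (a (b (l 16689672) (l 16725808)) (c (l 16682264) (l 16680584))) (a (b (b (l 16732168) (a (l 16729296) (l 16719424))) (a (b (c (l 16736576) (l 16737712)) (c (l 9294515351) (c (l 16745408) (l 16810687943)))) (b (l 16727384) (c (l 16734792) (l 16735832)))))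 (b (a (l 16705976) (l 16675752)) (c (c (l 16725888) (l 16727032)) (a (l 16722288) (l 16712896)))))))) (b (a (b (a (l 16625184) (l 16606120)) (a (l 16630648) (l 16612632))) (a (b (l 16585784) (l 16593240)) (b (l 16564376) (l 16572680)))) (a (b (a (l 16685704) (l 16668672)) (b (a (l 16683336) (l 16666272)) (a (a (l 16724056) (l 16694128)) (c (l 16680264) (l 16681544))))) (b (a (l 16651024) (l 16635840)) (b (a (l 16649896) (l 16633976)) (a (l 16666936) (l 16668976))))))), by decide +kernel⟩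

def k3_pp_012_a : ∃ t, chk3 f_pp_012_a t 14 3 1 = true :=
  ⟨(b (a (l 3) (b (a (b (a (a (l 3) (b (b (l 16733080) (l 3)) (l 3))) (b (c (l 16743088) (c (l 16743752) (l 16733280))) (a (l 3) (c (l 16727960) (l 16738952))))) (l 3)) (a (b (c (b (l 16733280) (l 16741768)) (b (l 16734200) (c (l 16742328) (l 16731808)))) (b (c (c (l 16749848) (l 16745104)) (a (l 16742352) (l 16736432))) (l 3))) (b (b (l 16734824) (c (l 16732080) (l 16732840))) (b (c (l 16740720) (c (l 16720192) (l 16741064))) (a (c (l 16741232) (l 10368245591)) (c (l 16747104) (l 16736784))))))) (a (l 3) (b (b (b (a (l 3) (a (l 3) (a (l 3) (l 16731696)))) (l 3)) (l 3)) (l 3))))) (l 3)), by decide +kernel⟩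

def k4_pp_012_a : ∃ t, chk3 f_pp_012_a t 30 6 1 = true :=
  ⟨(b (b (a (b (c (l 16709704) (l 16721328)) (a (l 16733712) (l 16714064))) (a (l 16711592) (l 16692384))) (b (a (a (c (l 16731216) (l 16731752)) (l 16727648)) (a (l 16713392) (l 16683584))) (a (a (c (l 16739992) (a (l 16721600) (l 16716928))) (c (l 16730680) (l 16730960))) (a (c (l 16721624) (l 16700880)) (l 16723472))))) (a (b (b (c (a (a (l 16740768) (l 16725632)) (l 16739608)) (a (a (b (l 16728088) (l 16732424)) (l 16725616)) (a (l 16720960) (l 16716344)))) (c (a (b (a (l 16736856) (l 16732432)) (a (l 3) (l 16736880))) (a (l 16740584) (l 16746440))) (a (a (l 21105665063) (c (l 16745048) (l 16744704))) (a (b (l 16727600) (l 16732096)) (l 16725224))))) (a (l 3) (a (b (b (a (l 16743240) (l 15736955911)) (l 3)) (l 3)) (c (b (c (l 16745256) (l 16745224)) (b (l 16741680) (l 3))) (b (b (l 16732032) (l 16736624)) (b (l 16741240) (l 3))))))) (b (b (a (c (l 16730480) (l 16730464)) (c (l 16721584) (l 16700488))) (a (c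 (l 16739568) (a (l 16720632) (l 16716072))) (c (l 16730608) (l 16719784)))) (a (a (b (c (l 16740696) (l 16740232)) (c (b (l 16737296) (l 16747208)) (b (l 16736752) (l 16746704)))) (b (c (l 16746616) (l 16725168)) (c (b (l 16732736) (l 16737536)) (b (l 16732184) (l 16736952))))) (c (b (c (l 16739880) (l 16739808)) (a (b (l 16728200) (l 16732992)) (l 16736600))) (b (c (l 16729056) (l 16728600)) (a (l 16738864) (l 16735968)))))))), by decide +kernel⟩

def k5_pp_012_a : ∃ t, chk3 f_pp_012_a t 31 6 1 = true :=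
  ⟨(b (b (a (a (l 16683824) (l 16675408)) (a (l 16667096) (l 16658856))) (a (a (c (l 16678992) (l 16710416)) (c (l 16670592) (l 16691216))) (a (c (l 16662344) (l 16682560)) (c (l 16675184) (l 16673952))))) (a (b (a (b (l 16718096) (a (l 16723896) (l 16719512))) (b (l 16704200) (a (l 16715152) (l 16710832)))) (c (a (b (l 16731040) (c (l 16740512) (l 16729832))) (b (l 16722392) (l 16731728))) (a (a (b (l 16711632) (l 16720976)) (b (l 16707168) (l 16716504))) (b (l 16721496) (a (l 16712048) (l 16707608)))))) (b (a (b (l 16695648) (c (l 16683856) (l 16682768))) (b (l 16687184) (l 16701104))) (a (b (b (l 16711088) (l 16715656)) (c (l 16723160) (l 16711464))) (b (c (l 16684528) (l 16682960)) (c (l 16714712) (l 16702664))))))), by decide +kernel⟩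

def k6_pp_012_a : ∃ t, chk3 f_pp_012_a t 30 7 1 = true :=
  ⟨(b (a (l 3) (b (a (a (l 3) (b (b (c (l 16747560) (l 16746992)) (c (l 16751312) (l 2852073607))) (l 3))) (a (b (b (c (l 16737848) (l 16737224)) (c (l 16748632) (l 16749976))) (a (l 3) (b (c (l 16746528) (l 16745912)) (l 3)))) (c (b (b (l 16733336) (l 16738240)) (b (l 16748456) (c (l 16753488) (l 16753304)))) (b (b (l 16732680) (l 16737576)) (b (c (l 16742760) (l 16742280)) (c (l 16752984) (l 16752208))))))) (b (a (l 3) (b (b (a (l 3) (c (l 16757112) (l 16753912))) (l 3)) (l 3))) (l 3)))) (l 3)), by decide +kernel⟩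

def k7_pp_012_a : ∃ t, chk3 f_pp_012_a t 62 14 1 = true :=
  ⟨(b (a (b (a (c (b (l 16728872) (l 16733768)) (b (l 16728168) (l 16733048))) (c (l 16734760) (l 16731360))) (c (a (b (l 16738728) (l 16749000)) (b (l 16734280) (l 16739296))) (b (a (l 16738008) (l 16733496)) (a (c (l 16743264) (l 16742776)) (l 16738520))))) (b (a (c (l 16733000) (l 16732128)) (c (l 16718168) (l 16717184))) (c (b (a (l 16729872) (l 16725504)) (a (l 16734880) (l 16730496))) (a (b (l 16729008) (l 16734016)) (b (l 16724536) (l 16729536)))))) (b (a (a (a (b (c (l 16755168) (c (l 16749464) (l 16749000))) (l 3)) (c (b (l 16747736) (c (l 16752912) (l 16757928))) (b (l 16752248) (c (l 16757584) (l 16757136))))) (a (b (c (l 16745496) (l 16744736)) (c (l 1778342087) (c (l 16750128) (l 16754888)))) (b (c (l 16743272) (l 16742480)) (c (l 16748424) (l 16752888))))) (c (a (b (l 16739952) (c (l 16745232) (l 16744928))) (b (l 16735552) (l 16745920))) (b (a (l 16744344) (l 16734608)) (a (c (l 16744512) (l 16749224))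 (l 16745000))))) (a (a (l 3) (a (a (l 3) (b (b (b (l 16755640) (l 16756920)) (l 3)) (l 3))) (a (b (c (c (l 16754296) (l 16754024)) (c (l 16753656) (l 16758424))) (l 3)) (b (c (l 16758328) (c (l 16752544) (l 16752056))) (b (c (l 16756968) (l 16756248)) (l 3)))))) (b (b (a (c (l 16754232) (l 16753408)) (c (l 16744568) (l 16743664))) (a (c (c (l 16751760) (l 16751448)) (c (l 16751048) (l 16755784))) (c (l 16747184) (l 16751536)))) (a (c (a (b (l 16760600) (a (l 3) (l 16757440))) (b (l 16753144) (l 6))) (a (c (b (l 16754808) (l 16757440)) (b (l 16754328) (l 16756984))) (b (l 16752328) (l 6)))) (l 6)))))), by decide +kernel⟩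

def k8_pp_012_a : ∃ t, chk3 f_pp_012_a t 63 14 1 = true :=
  ⟨(b (a (b (a (c (l 16713856) (l 16712744)) (c (l 16709576) (l 16708312))) (a (c (l 16728904) (l 16727824)) (c (l 16719352) (l 16728616)))) (a (b (c (l 16705320) (l 16703888)) (c (l 16715072) (l 16713688))) (c (b (l 16701096) (l 16710808)) (b (l 16699480) (l 16709256))))) (a (a (b (c (b (l 16731184) (l 16736304)) (b (l 16730136) (l 16735272))) (b (c (l 16746728) (c (l 16740768) (l 16740168))) (l 6))) (b (c (b (l 16726856) (l 16731952)) (b (l 16725672) (l 16730800))) (l 6))) (a (b (b (l 16727176) (l 6)) (l 6)) (l 6)))), by decide +kernel⟩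

def k9_pp_012_a : ∃ t, chk3 f_pp_012_a t 31 15 1 = true :=
  ⟨(a (a (l 3) (b (l 6) (l 3))) (l 6)), by decide +kernel⟩

theorem s10_pp_012_a : ∃ t, chk3 f_pp_012_a t 31 14 1 = true := ex3_a k7_pp_012_a k8_pp_012_a

theorem s11_pp_012_a : ∃ t, chk3 f_pp_012_a t 31 7 1 = true := ex3_b s10_pp_012_a k9_pp_012_a

theorem s12_pp_012_a : ∃ t, chk3 f_pp_012_a t 15 7 1 = true := ex3_a k6_pp_012_a s11_pp_012_a

theorem s13_pp_012_a : ∃ t, chk3 f_pp_012_a t 15 6 1 = true := ex3_a k4_pp_012_a k5_pp_012_a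

theorem s14_pp_012_a : ∃ t, chk3 f_pp_012_a t 15 3 1 = true := ex3_b s13_pp_012_a s12_pp_012_a

theorem s15_pp_012_a : ∃ t, chk3 f_pp_012_a t 7 3 1 = true := ex3_a k3_pp_012_a s14_pp_012_a

theorem s16_pp_012_a : ∃ t, chk3 f_pp_012_a t 7 1 1 = true := ex3_b k2_pp_012_a s15_pp_012_a

theorem s17_pp_012_a : ∃ t, chk3 f_pp_012_a t 3 1 1 = true := ex3_a k1_pp_012_a s16_pp_012_a

theorem s18_pp_012_a : ∃ t, chk3 f_pp_012_a t 1 1 1 = true := ex3_a k0_pp_012_a s17_pp_012_a

theorem c_pp_012_a : CertN 0 536870912 0 536870912 469762048 67108864 3 false true true .pnp 0 1 2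
    ndN0q0 ndN1q2a pcN1 cut_pp_012_a Ext.none :=
  certN2 (fam := false) (s1 := true) (s2 := true) (a := 0) (b := 1) (c := 2) (cn := .pnp) (n1 := ndN0q0) (n2 := ndN1q2a) (pc := pcN1) (cut := cut_pp_012_a) (xt := Ext.none) (P1 := 0) (W1 := 536870912) (P2 := 0) (W2 := 536870912) (P3 := 469762048) (W3 := 67108864) (N0 := 3)
    rfl (fun _ => rfl) s18_pp_012_a

noncomputable def cut_pp_012_b : Cut := Cut.of [[⟨0, 0, 0, 67108864⟩, ⟨1, 1, 0, 67108864⟩, ⟨2, 1, 0, 67108864⟩]]

noncomputable def f_pp_012_b : ℕ → ℕ → ℕ → ℕ → Bool := onCell 536870912 536870912 1239849684 370763052 469762048 67108864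
    (rowN 3 2 false true true .pnp 0 1 2 (qsf 0 536870912 1239849684 370763052 1) ndN0q0 ndN1q2b pcN1 cut_pp_012_b Ext.none)

def k0_pp_012_b : ∃ t, chk3 f_pp_012_b t 2 1 1 = true :=
  ⟨(b (l 3) (l 2)), by decide +kernel⟩

def k1_pp_012_b : ∃ t, chk3 f_pp_012_b t 3 2 1 = true :=
  ⟨(a (a (b (a (l 3) (b (l 3) (l 3))) (l 3)) (b (a (b (b (a (b (l 16763360) (l 16766192)) (l 16739704)) (a (a (l 16734928) (l 16722680)) (l 16745104))) (a (a (l 3) (b (l 16730944) (l 16741416))) (b (l 16731744) (a (l 16728832) (l 16714672))))) (b (a (c (l 16745952) (l 16744960)) (b (l 16718352) (l 16653088))) (a (b (l 16683256) (l 16692688)) (l 16743160)))) (a (a (l 3) (b (b (a (l 16739248) (l 16726888)) (l 43654261287)) (b (l 41506792471) (l 16773472)))) (b (a (b (l 16705656) (l 16718088)) (b (l 16674968) (l 16689504))) (a (b (l 16731304) (l 16747248)) (l 16710360)))))) (a (b (b (a (b (a (l 16687512) (l 16675256)) (l 16682808)) (b (b (l 16725688) (l 16663648)) (l 16631424))) (a (a (l 16716504)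 (l 16649096)) (b (l 16595648) (l 16613160)))) (a (b (a (l 16692848) (l 16618376)) (a (l 16679728) (l 16647528))) (b (a (l 16588216) (l 16559984)) (a (l 16613712) (l 16578440))))) (b (a (b (b (a (l 16616016) (l 16585944)) (l 16596664)) (b (l 16557408) (l 16527208))) (a (b (b (l 16565024) (l 16526584)) (l 16503200)) (b (b (l 16542976) (l 16512112)) (l 16485336)))) (a (a (b (l 16533128) (l 16544296)) (b (l 16507912) (l 16511952))) (a (b (l 16483904) (l 16481544)) (b (l 16461120) (l 16452424))))))), by decide +kernel⟩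

def k2_pp_012_b : ∃ t, chk3 f_pp_012_b t 3 3 1 = true :=
  ⟨(a (a (l 2) (b (a (l 3) (b (a (b (l 16766360) (l 16788888)) (l 16747424)) (a (l 2) (l 16799000)))) (l 2))) (a (b (a (b (a (l 16715904) (l 16683152)) (a (l 16765528) (l 16730896))) (b (b (l 16622928) (l 16642152)) (l 16676040))) (a (l 2) (b (l 16745992) (l 2)))) (b (b (a (a (l 16577608) (l 16540088)) (a (l 16501216) (l 16464272))) (a (l 16599104) (a (l 16542216) (l 16501448)))) (a (b (l 16654824) (l 16739728)) (b (l 16571000) (l 16669432)))))), by decide +kernel⟩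

theorem s3_pp_012_b : ∃ t, chk3 f_pp_012_b t 3 1 1 = true := ex3_b k1_pp_012_b k2_pp_012_b

theorem s4_pp_012_b : ∃ t, chk3 f_pp_012_b t 1 1 1 = true := ex3_a k0_pp_012_b s3_pp_012_b

theorem c_pp_012_b : CertN 0 536870912 1239849684 370763052 469762048 67108864 3 false true true .pnp 0 1 2
    ndN0q0 ndN1q2b pcN1 cut_pp_012_b Ext.none :=
  certN2 (fam := false) (s1 := true) (s2 := true) (a := 0) (b := 1) (c := 2) (cn := .pnp) (n1 := ndN0q0) (n2 := ndN1q2b) (pc := pcN1) (cut := cut_pp_012_b) (xt := Ext.none) (P1 := 0) (W1 := 536870912) (P2 := 1239849684) (W2 := 370763052) (P3 := 469762048) (W3 := 67108864) (N0 := 3)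
    rfl (fun _ => rfl) s4_pp_012_b

noncomputable def cut_pp_022_a : Cut := Cut.of [[⟨0, 0, 0, 67108864⟩, ⟨1, 1, 0, 67108864⟩, ⟨2, 1, 0, 67108864⟩]]

noncomputable def f_pp_022_a : ℕ → ℕ → ℕ → ℕ → Bool := onCell 1073741824 536870912 0 536870912 469762048 67108864
    (rowN 3 2 false true true .pp 0 2 2 (qsf 0 536870912 0 536870912 2) ndN0q0 ndN1q2a pcN2 cut_pp_022_a Ext.none)

def k0_pp_022_a : ∃ t, chk3 f_pp_022_a t 4 2 1 = true :=
  ⟨(a (b (b (a (l 16555024) (l 16530352)) (a (l 16612616) (l 16606408))) (b (a (c (l 16654488) (l 16654200)) (a (l 16560912) (l 16556280))) (a (a (b (l 16598000) (l 16653528)) (l 16607376)) (b (l 16614056) (l 16645912))))) (b (a (b (l 16522320) (l 16617792)) (b (l 16512776) (a (l 16525904) (l 16519344)))) (a (b (a (l 16550360) (l 16544256)) (a (l 16587408) (b (l 16554056) (l 16562344)))) (b (a (l 16559216) (b (l 16528552) (l 16533104))) (a (b (l 16546632) (l 16553768)) (b (l 16538104) (a (l 16546640) (l 16541584)))))))), by decide +kernel⟩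

def k1_pp_022_a : ∃ t, chk3 f_pp_022_a t 4 3 1 = true :=
  ⟨(a (b (a (b (a (b (l 16678568) (b (l 16679584) (l 16687600))) (c (l 16657416) (l 16656952))) (a (a (b (c (l 16684976) (l 16682504)) (b (l 16696856) (a (l 16687264) (l 16682640)))) (b (l 16653568) (b (l 16666576) (l 16675624)))) (b (l 16660248) (a (l 16682592) (l 16674840))))) (b (a (c (l 16660744) (l 16625688)) (a (l 16641808) (l 16658056))) (b (a (l 16670664) (l 16638904)) (a (c (l 16688672) (l 16685752)) (a (l 16657216) (l 16650936)))))) (a (b (b (a (a (b (c (l 16716328) (l 16714128)) (b (c (l 16702472) (l 16700392)) (l 6))) (b (l 16684936) (l 16720744))) (b (l 16691872) (l 16701664))) (l 6)) (l 6)) (a (b (b (b (l 16689760) (a (l 16691664) (l 16663992))) (l 6)) (l 6)) (b (a (b (b (l 16648512) (l 16657072)) (l 6)) (b (b (l 16641728) (l 16649944)) (b (l 16658400) (l 1)))) (l 1))))) (b (b (a (a (b (l 16581544) (l 16593312)) (b (l 16571800) (a (l 16584984) (l 16579648)))) (a (b (a (l 16564520) (l 16559368)) (a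 (l 16574096) (l 16568304))) (b (a (l 16553976) (l 16548352)) (l 1)))) (a (b (a (b (l 16602792) (l 16609504)) (a (l 16617912) (l 16590912))) (a (b (l 16616472) (a (l 16627096) (l 16620216))) (b (l 16624232) (l 1)))) (b (a (b (l 16578760) (l 1)) (l 1)) (l 1)))) (b (b (a (a (b (a (l 16634728) (l 16627520)) (l 16659840)) (l 1)) (l 1)) (l 1)) (l 1)))), by decide +kernel⟩

def k2_pp_022_a : ∃ t, chk3 f_pp_022_a t 5 1 1 = true :=
  ⟨(b (a (b (a (b (a (l 16502840) (l 16494848)) (a (l 16511560) (b (l 16500072) (l 16504976)))) (b (l 1) (l 1))) (a (a (b (b (a (l 16522472) (l 16517984)) (l 48351510295)) (b (l 24729197031) (l 16554560))) (a (b (b (l 16513160) (l 16517272)) (l 1)) (l 1))) (l 1))) (l 1)) (b (l 1) (l 1))), by decide +kernel⟩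

def k3_pp_022_a : ∃ t, chk3 f_pp_022_a t 3 1 1 = true :=
  ⟨(l 1), by decide +kernel⟩

theorem s4_pp_022_a : ∃ t, chk3 f_pp_022_a t 4 1 1 = true := ex3_b k0_pp_022_a k1_pp_022_a

theorem s5_pp_022_a : ∃ t, chk3 f_pp_022_a t 2 1 1 = true := ex3_a s4_pp_022_a k2_pp_022_a

theorem s6_pp_022_a : ∃ t, chk3 f_pp_022_a t 1 1 1 = true := ex3_a s5_pp_022_a k3_pp_022_a

theorem c_pp_022_a : CertN 0 536870912 0 536870912 469762048 67108864 3 false true true .pp 0 2 2
    ndN0q0 ndN1q2a pcN2 cut_pp_022_a Ext.none :=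
  certN2 (fam := false) (s1 := true) (s2 := true) (a := 0) (b := 2) (c := 2) (cn := .pp) (n1 := ndN0q0) (n2 := ndN1q2a) (pc := pcN2) (cut := cut_pp_022_a) (xt := Ext.none) (P1 := 0) (W1 := 536870912) (P2 := 0) (W2 := 536870912) (P3 := 469762048) (W3 := 67108864) (N0 := 3)
    rfl (fun _ => rfl) s6_pp_022_a

noncomputable def cut_pp_022_b : Cut := Cut.of [[⟨0, 0, 0, 67108864⟩, ⟨1, 1, 0, 67108864⟩, ⟨2, 1, 0, 67108864⟩]]

noncomputable def f_pp_022_b : ℕ → ℕ → ℕ → ℕ → Bool := onCell 0 536870912 1073741824 536870912 469762048 67108864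
    (rowN 3 1 false true true .pp 0 2 2 (qsf 0 536870912 1239849684 370763052 2) ndN0q0 ndN1q2b pcN2 cut_pp_022_b Ext.none)

def k0_pp_022_b : ∃ t, chk3 f_pp_022_b t 1 1 1 = true :=
  ⟨(a (b (b (a (b (a (l 1) (b (a (l 1) (l 90227523063)) (a (b (l 1) (l 16642928)) (l 71436852983)))) (a (a (b (l 1) (a (l 1) (l 109554890231))) (b (a (l 1) (l 68215857079)) (a (l 16538888) (l 16496288)))) (b (a (a (l 16527712) (l 16503864)) (l 16508696)) (a (l 16462760) (l 16415816))))) (b (a (b (a (l 16588928) (l 16512856)) (l 16513816)) (b (b (l 16570968) (l 16498680)) (l 16452376))) (a (a (l 16421488) (l 16377048)) (l 16386056)))) (a (a (b (a (b (a (b (l 127271550647) (l 16490408)) (l 16505320)) (a (l 16450136) (l 16431144))) (b (l 16453824) (l 16401824))) (a (b (l 16388560) (l 16336136)) (l 16409160))) (b (a (l 16490896) (l 16404944)) (a (l 16286232) (l 16244928)))) (a (b (a (l 16358128) (l 16244936)) (a (l 16200952) (l 16153704))) (b (l 16224112) (l 16075080))))) (b (a (a (b (a (l 16338496)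 (l 16218024)) (l 16241672)) (b (l 16222264) (l 16033712))) (a (b (l 16092808) (l 16103976)) (b (l 16139992) (l 16378608)))) (a (b (a (l 16181432) (l 16071048)) (a (l 16030784) (l 16320032))) (b (a (l 16351744) (l 2)) (l 2))))) (b (a (b (b (a (b (a (l 16425272) (l 16417840)) (l 16408216)) (b (a (l 16420016) (l 16434512)) (l 16379992))) (a (b (l 16311024) (l 16252680)) (l 16309144))) (a (b (l 16161424) (l 16193600)) (b (l 16284616) (l 16461456)))) (b (a (b (a (l 16445136) (l 16482904)) (l 16430408)) (b (l 16597456) (l 16648704))) (a (l 16595728) (l 2)))) (b (a (a (l 16496640) (l 2)) (l 2)) (l 2)))), by decide +kernel⟩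

theorem c_pp_022_b : CertN 0 536870912 1239849684 370763052 469762048 67108864 3 false true true .pp 0 2 2
    ndN0q0 ndN1q2b pcN2 cut_pp_022_b Ext.none :=
  certN1 (fam := false) (s1 := true) (s2 := true) (a := 0) (b := 2) (c := 2) (cn := .pp) (n1 := ndN0q0) (n2 := ndN1q2b) (pc := pcN2) (cut := cut_pp_022_b) (xt := Ext.none) (P1 := 0) (W1 := 536870912) (P2 := 1239849684) (W2 := 370763052) (P3 := 469762048) (W3 := 67108864) (N0 := 3)
    rfl (fun _ => rfl) k0_pp_022_b

noncomputable def f_pp_023 : ℕ → ℕ → ℕ → ℕ → Bool := onCell 0 536870912 1073741824 536870912 469762048 67108864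
    (rowN 3 1 false true true .up 0 2 3 (qsf 0 536870912 1610612736 536870912 2) ndN0q0 ndN1q3 pcN2 Cut.none Ext.none)

def k0_pp_023 : ∃ t, chk3 f_pp_023 t 1 1 1 = true :=
  ⟨(a (b (a (l 1) (b (l 1) (a (l 1) (l 184716298839)))) (b (a (a (l 1) (l 203506779671)) (a (l 180421565175) (l 16367120))) (b (a (a (l 207265042727) (l 16199152)) (a (l 16402896) (l 16565560))) (a (a (l 16196368) (l 16390736)) (a (l 16554120) (l 16681672)))))) (b (a (a (b (l 1) (l 211559629911)) (b (l 217465260167) (l 212096763047))) (b (b (a (l 222834165991) (l 252362139479)) (a (l 16298408) (l 16567616))) (a (l 16561592) (l 16710232)))) (b (a (a (l 16502256) (l 16649960)) (a (l 16753248) (l 16815480))) (a (b (l 16737504) (l 16806976)) (b (l 16847456) (l 16866440)))))), by decide +kernel⟩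

theorem c_pp_023 : CertN 0 536870912 1610612736 536870912 469762048 67108864 3 false true true .up 0 2 3
    ndN0q0 ndN1q3 pcN2 Cut.none Ext.none :=
  certN1 (fam := false) (s1 := true) (s2 := true) (a := 0) (b := 2) (c := 3) (cn := .up) (n1 := ndN0q0) (n2 := ndN1q3) (pc := pcN2) (cut := Cut.none) (xt := Ext.none) (P1 := 0) (W1 := 536870912) (P2 := 1610612736) (W2 := 536870912) (P3 := 469762048) (W3 := 67108864) (N0 := 3)
    rfl (fun _ => rfl) k0_pp_023

noncomputable def f_pp_033 : ℕ → ℕ → ℕ → ℕ → Bool := onCell 1610612736 536870912 1610612736 536870912 469762048 67108864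
    (rowN 3 2 false true true .pnn 0 3 3 (qsf 0 536870912 1610612736 536870912 3) ndN0q0 ndN1q3 pcN3 Cut.none Ext.none)

def k0_pp_033 : ∃ t, chk3 f_pp_033 t 1 1 1 = true :=
  ⟨(a (a (b (b (a (b (a (l 16689744) (l 16699920)) (l 16729976)) (b (l 335578274407) (l 16748440))) (a (l 16777920) (l 16793872))) (b (a (l 16832640) (l 16844792)) (a (l 16890832) (l 16902048)))) (b (b (a (l 343094740743) (l 1)) (a (l 16993432) (l 365643349447))) (a (b (l 16859544) (l 16869568)) (b (l 16881128) (l 16876008))))) (a (b (b (l 1) (b (l 1) (l 4))) (l 4)) (l 4))), by decide +kernel⟩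

theorem c_pp_033 : CertN 0 536870912 1610612736 536870912 469762048 67108864 3 false true true .pnn 0 3 3
    ndN0q0 ndN1q3 pcN3 Cut.none Ext.none :=
  certN2 (fam := false) (s1 := true) (s2 := true) (a := 0) (b := 3) (c := 3) (cn := .pnn) (n1 := ndN0q0) (n2 := ndN1q3) (pc := pcN3) (cut := Cut.none) (xt := Ext.none) (P1 := 0) (W1 := 536870912) (P2 := 1610612736) (W2 := 536870912) (P3 := 469762048) (W3 := 67108864) (N0 := 3)
    rfl (fun _ => rfl) k0_pp_033

noncomputable def f_pp_101 : ℕ → ℕ → ℕ → ℕ → Bool := onCell 536870912 536870912 536870912 536870912 469762048 67108864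
    (rowN 3 0 false true true .npn 1 0 1 (qsf 536870912 536870912 536870912 536870912 0) ndN0q1 ndN1q1 pcN0 Cut.none Ext.none)

def k0_pp_101 : ∃ t, chk3 f_pp_101 t 1 1 1 = true :=
  ⟨(l 3), by decide +kernel⟩

theorem c_pp_101 : CertN 536870912 536870912 536870912 536870912 469762048 67108864 3 false true true .npn 1 0 1
    ndN0q1 ndN1q1 pcN0 Cut.none Ext.none :=
  certN0 (fam := false) (s1 := true) (s2 := true) (a := 1) (b := 0) (c := 1) (cn := .npn) (n1 := ndN0q1) (n2 := ndN1q1) (pc := pcN0) (cut := Cut.none) (xt := Ext.none) (P1 := 536870912) (W1 := 536870912) (P2 := 536870912) (W2 := 536870912) (P3 := 469762048) (W3 := 67108864) (N0 := 3)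
    rfl k0_pp_101

noncomputable def f_pp_102_a : ℕ → ℕ → ℕ → ℕ → Bool := onCell 536870912 536870912 0 536870912 469762048 67108864
    (rowN 3 0 false true true .npp 1 0 2 (qsf 536870912 536870912 0 536870912 0) ndN0q1 ndN1q2a pcN0 Cut.none Ext.none)

def k0_pp_102_a : ∃ t, chk3 f_pp_102_a t 1 1 1 = true :=
  ⟨(l 3), by decide +kernel⟩

theorem c_pp_102_a : CertN 536870912 536870912 0 536870912 469762048 67108864 3 false true true .npp 1 0 2
    ndN0q1 ndN1q2a pcN0 Cut.none Ext.none :=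
  certN0 (fam := false) (s1 := true) (s2 := true) (a := 1) (b := 0) (c := 2) (cn := .npp) (n1 := ndN0q1) (n2 := ndN1q2a) (pc := pcN0) (cut := Cut.none) (xt := Ext.none) (P1 := 536870912) (W1 := 536870912) (P2 := 0) (W2 := 536870912) (P3 := 469762048) (W3 := 67108864) (N0 := 3)
    rfl k0_pp_102_a

noncomputable def f_pp_102_b : ℕ → ℕ → ℕ → ℕ → Bool := onCell 536870912 536870912 0 536870912 469762048 67108864
    (rowN 3 1 false true true .npp 1 0 2 (qsf 536870912 536870912 1239849684 370763052 0) ndN0q1 ndN1q2b pcN0 Cut.none Ext.none)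

def k0_pp_102_b : ∃ t, chk3 f_pp_102_b t 1 1 1 = true :=
  ⟨(l 3), by decide +kernel⟩

theorem c_pp_102_b : CertN 536870912 536870912 1239849684 370763052 469762048 67108864 3 false true true .npp 1 0 2
    ndN0q1 ndN1q2b pcN0 Cut.none Ext.none :=
  certN1 (fam := false) (s1 := true) (s2 := true) (a := 1) (b := 0) (c := 2) (cn := .npp) (n1 := ndN0q1) (n2 := ndN1q2b) (pc := pcN0) (cut := Cut.none) (xt := Ext.none) (P1 := 536870912) (W1 := 536870912) (P2 := 1239849684) (W2 := 370763052) (P3 := 469762048) (W3 := 67108864) (N0 := 3)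
    rfl (fun _ => rfl) k0_pp_102_b

noncomputable def f_pp_112_a : ℕ → ℕ → ℕ → ℕ → Bool := onCell 536870912 536870912 0 536870912 469762048 67108864
    (rowN 3 0 false true true .dn 1 1 2 (qsf 536870912 536870912 0 536870912 1) ndN0q1 ndN1q2a pcN1 Cut.none Ext.none)

def k0_pp_112_a : ∃ t, chk3 f_pp_112_a t 1 1 1 = true :=
  ⟨(l 3), by decide +kernel⟩

theorem c_pp_112_a : CertN 536870912 536870912 0 536870912 469762048 67108864 3 false true true .dn 1 1 2
    ndN0q1 ndN1q2a pcN1 Cut.none Ext.none :=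
  certN0 (fam := false) (s1 := true) (s2 := true) (a := 1) (b := 1) (c := 2) (cn := .dn) (n1 := ndN0q1) (n2 := ndN1q2a) (pc := pcN1) (cut := Cut.none) (xt := Ext.none) (P1 := 536870912) (W1 := 536870912) (P2 := 0) (W2 := 536870912) (P3 := 469762048) (W3 := 67108864) (N0 := 3)
    rfl k0_pp_112_a

noncomputable def f_pp_112_b : ℕ → ℕ → ℕ → ℕ → Bool := onCell 536870912 536870912 536870912 536870912 469762048 67108864
    (rowN 3 1 false true true .dn 1 1 2 (qsf 536870912 536870912 1239849684 370763052 1) ndN0q1 ndN1q2b pcN1 Cut.none Ext.none)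

def k0_pp_112_b : ∃ t, chk3 f_pp_112_b t 1 1 1 = true :=
  ⟨(b (a (l 3) (l 3)) (a (b (b (l 3) (a (b (l 3) (a (a (l 73719082983) (l 78014209687)) (a (l 92509850839) (l 3)))) (l 3))) (a (a (b (a (b (l 16768288) (l 16751352)) (b (l 16855880) (l 16844536))) (a (l 16712952) (l 16812488))) (b (a (b (l 16966344) (l 16953064)) (b (l 112374170743) (l 17040280))) (b (a (l 16944264) (l 2)) (l 2)))) (b (a (b (a (l 136533485239) (l 2)) (l 2)) (l 2)) (l 2)))) (b (l 3) (l 2)))), by decide +kernel⟩

theorem c_pp_112_b : CertN 536870912 536870912 1239849684 370763052 469762048 67108864 3 false true true .dn 1 1 2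
    ndN0q1 ndN1q2b pcN1 Cut.none Ext.none :=
  certN1 (fam := false) (s1 := true) (s2 := true) (a := 1) (b := 1) (c := 2) (cn := .dn) (n1 := ndN0q1) (n2 := ndN1q2b) (pc := pcN1) (cut := Cut.none) (xt := Ext.none) (P1 := 536870912) (W1 := 536870912) (P2 := 1239849684) (W2 := 370763052) (P3 := 469762048) (W3 := 67108864) (N0 := 3)
    rfl (fun _ => rfl) k0_pp_112_b

noncomputable def cut_pp_113 : Cut := Cut.of [[⟨0, 1, 0, 67108864⟩, ⟨1, 1, 0, 67108864⟩, ⟨2, 2, 0, 16777216⟩]]

noncomputable def f_pp_113 : ℕ → ℕ → ℕ → ℕ → Bool := onCell 536870912 536870912 536870912 536870912 469762048 67108864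
    (rowN 3 1 false true true .nn 1 1 3 (qsf 536870912 536870912 1610612736 536870912 1) ndN0q1 ndN1q3 pcN1 cut_pp_113 Ext.none)

def k0_pp_113 : ∃ t, chk3 f_pp_113 t 1 1 1 = true :=
  ⟨(b (a (l 3) (l 3)) (a (b (a (a (l 1) (a (l 1) (a (l 1) (l 3)))) (l 3)) (a (b (a (b (l 1) (a (l 1) (l 144988483399))) (b (a (l 185254070247) (b (c (l 16958688) (l 127406401431)) (l 16927760))) (a (l 16820760) (l 16933768)))) (a (a (b (l 16557120) (l 16561736)) (b (l 16693432) (l 16704888))) (b (a (l 16832776) (l 16942720)) (a (l 16846368) (l 16952960))))) (b (b (a (a (b (c (l 17020960) (l 135459777111)) (l 17004808)) (b (l 3) (l 17045400))) (a (l 151029143639) (l 3))) (a (a (l 17006456) (l 17042816)) (a (l 17068736) (l 159619018295)))) (a (b (a (l 17009592) (l 17040304)) (l 17028624)) (a (b (l 17059784) (l 17052840)) (l 17061624)))))) (b (l 3) (a (b (a (b (l 3) (a (l 17088832) (l 226191176935))) (l 3)) (a (b (l 17060464) (l 17037576)) (b (a (l 17029608) (l 198273693399)) (l 16983464))))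 (b (l 3) (a (b (a (l 428591099591) (l 488183699159)) (a (l 16926272) (b (l 278267151399) (l 16879896)))) (b (l 3) (a (b (a (l 247128570327) (l 452213224055)) (a (l 16851392) (b (l 234243642183) (l 16807656)))) (b (l 3) (a (b (a (l 260013386711) (l 466708670183)) (a (l 16814752) (l 317458522743))) (b (l 3) (a (b (l 468856121639) (a (l 16796168) (l 325511561511))) (b (l 3) (l 6)))))))))))))), by decide +kernel⟩

theorem c_pp_113 : CertN 536870912 536870912 1610612736 536870912 469762048 67108864 3 false true true .nn 1 1 3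
    ndN0q1 ndN1q3 pcN1 cut_pp_113 Ext.none :=
  certN1 (fam := false) (s1 := true) (s2 := true) (a := 1) (b := 1) (c := 3) (cn := .nn) (n1 := ndN0q1) (n2 := ndN1q3) (pc := pcN1) (cut := cut_pp_113) (xt := Ext.none) (P1 := 536870912) (W1 := 536870912) (P2 := 1610612736) (W2 := 536870912) (P3 := 469762048) (W3 := 67108864) (N0 := 3)
    rfl (fun _ => rfl) k0_pp_113

noncomputable def cut_pp_123 : Cut := Cut.of [[⟨0, 1, 0, 67108864⟩, ⟨1, 1, 0, 67108864⟩, ⟨2, 2, 0, 16777216⟩]]

noncomputable def f_pp_123 : ℕ → ℕ → ℕ → ℕ → Bool := onCell 536870912 536870912 1073741824 536870912 469762048 67108864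
    (rowN 3 1 false true true .npn 1 2 3 (qsf 536870912 536870912 1610612736 536870912 2) ndN0q1 ndN1q3 pcN2 cut_pp_123 Ext.none)

def k0_pp_123 : ∃ t, chk3 f_pp_123 t 1 1 1 = true :=
  ⟨(a (b (a (b (a (b (a (l 16619456) (l 16740872)) (l 16745008)) (b (a (l 16859392) (l 16947312)) (l 16893928))) (a (l 16804024) (l 16871072))) (b (b (a (l 17006256) (l 17061296)) (a (l 16955672) (l 17140992))) (a (l 16969344) (l 16858176)))) (a (b (a (l 16845136) (l 16845840)) (b (a (l 16859376) (l 16840536)) (a (l 16862520) (l 16846024)))) (b (a (l 16821088) (b (l 16798328) (l 16800376))) (a (b (l 16905176) (l 2)) (l 2))))) (b (a (b (b (a (l 16991232) (l 16931672)) (a (l 16915248) (l 16852104))) (b (a (l 16988240) (b (l 16814872) (l 16763480))) (a (l 16782880) (l 16718616)))) (b (b (a (b (l 16938312) (l 16836648)) (b (a (l 16878768) (b (a (l 16795992) (b (a (l 16786424) (l 6)) (l 472010226455))) (l 451072325239))) (l 409733532199))) (a (l 16984696) (b (l 386111238071) (l 2)))) (a (b (b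 (l 201964495767) (l 2)) (l 2)) (l 2)))) (a (b (a (b (l 16780576) (l 2)) (l 2)) (l 2)) (l 2)))), by decide +kernel⟩

theorem c_pp_123 : CertN 536870912 536870912 1610612736 536870912 469762048 67108864 3 false true true .npn 1 2 3
    ndN0q1 ndN1q3 pcN2 cut_pp_123 Ext.none :=
  certN1 (fam := false) (s1 := true) (s2 := true) (a := 1) (b := 2) (c := 3) (cn := .npn) (n1 := ndN0q1) (n2 := ndN1q3) (pc := pcN2) (cut := cut_pp_123) (xt := Ext.none) (P1 := 536870912) (W1 := 536870912) (P2 := 1610612736) (W2 := 536870912) (P3 := 469762048) (W3 := 67108864) (N0 := 3)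
    rfl (fun _ => rfl) k0_pp_123

noncomputable def f_pp_133 : ℕ → ℕ → ℕ → ℕ → Bool := onCell 1610612736 536870912 1610612736 536870912 469762048 67108864
    (rowN 3 2 false true true .dn 1 3 3 (qsf 536870912 536870912 1610612736 536870912 3) ndN0q1 ndN1q3 pcN3 Cut.none Ext.none)

def k0_pp_133 : ∃ t, chk3 f_pp_133 t 1 1 1 = true :=
  ⟨(a (b (l 1) (a (b (l 1) (a (l 515430276551) (l 1))) (l 1))) (l 1)), by decide +kernel⟩

theorem c_pp_133 : CertN 536870912 536870912 1610612736 536870912 469762048 67108864 3 false true true .dn 1 3 3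
    ndN0q1 ndN1q3 pcN3 Cut.none Ext.none :=
  certN2 (fam := false) (s1 := true) (s2 := true) (a := 1) (b := 3) (c := 3) (cn := .dn) (n1 := ndN0q1) (n2 := ndN1q3) (pc := pcN3) (cut := Cut.none) (xt := Ext.none) (P1 := 536870912) (W1 := 536870912) (P2 := 1610612736) (W2 := 536870912) (P3 := 469762048) (W3 := 67108864) (N0 := 3)
    rfl (fun _ => rfl) k0_pp_133

noncomputable def f_pp_202_a : ℕ → ℕ → ℕ → ℕ → Bool := onCell 0 536870912 0 536870912 469762048 67108864
    (rowN 3 0 false true true .pp 2 0 2 (qsf 0 536870912 0 536870912 0) ndN0q2 ndN1q2a pcN0 Cut.none Ext.none)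

def k0_pp_202_a : ∃ t, chk3 f_pp_202_a t 1 1 1 = true :=
  ⟨(l 3), by decide +kernel⟩

theorem c_pp_202_a : CertN 0 536870912 0 536870912 469762048 67108864 3 false true true .pp 2 0 2
    ndN0q2 ndN1q2a pcN0 Cut.none Ext.none :=
  certN0 (fam := false) (s1 := true) (s2 := true) (a := 2) (b := 0) (c := 2) (cn := .pp) (n1 := ndN0q2) (n2 := ndN1q2a) (pc := pcN0) (cut := Cut.none) (xt := Ext.none) (P1 := 0) (W1 := 536870912) (P2 := 0) (W2 := 536870912) (P3 := 469762048) (W3 := 67108864) (N0 := 3)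
    rfl k0_pp_202_a

noncomputable def f_pp_202_b : ℕ → ℕ → ℕ → ℕ → Bool := onCell 0 536870912 1239849684 370763052 469762048 67108864
    (rowN 3 0 false true true .pp 2 0 2 (qsf 0 536870912 1239849684 370763052 0) ndN0q2 ndN1q2b pcN0 Cut.none Ext.none)

def k0_pp_202_b : ∃ t, chk3 f_pp_202_b t 1 1 1 = true :=
  ⟨(l 3), by decide +kernel⟩

theorem c_pp_202_b : CertN 0 536870912 1239849684 370763052 469762048 67108864 3 false true true .pp 2 0 2
    ndN0q2 ndN1q2b pcN0 Cut.none Ext.none :=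
  certN0 (fam := false) (s1 := true) (s2 := true) (a := 2) (b := 0) (c := 2) (cn := .pp) (n1 := ndN0q2) (n2 := ndN1q2b) (pc := pcN0) (cut := Cut.none) (xt := Ext.none) (P1 := 0) (W1 := 536870912) (P2 := 1239849684) (W2 := 370763052) (P3 := 469762048) (W3 := 67108864) (N0 := 3)
    rfl k0_pp_202_b

noncomputable def f_pp_203 : ℕ → ℕ → ℕ → ℕ → Bool := onCell 0 536870912 0 536870912 469762048 67108864
    (rowN 3 1 false true true .up 2 0 3 (qsf 0 536870912 1610612736 536870912 0) ndN0q2 ndN1q3 pcN0 Cut.none Ext.none)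

def k0_pp_203 : ∃ t, chk3 f_pp_203 t 1 1 1 = true :=
  ⟨(l 3), by decide +kernel⟩

theorem c_pp_203 : CertN 0 536870912 1610612736 536870912 469762048 67108864 3 false true true .up 2 0 3
    ndN0q2 ndN1q3 pcN0 Cut.none Ext.none :=
  certN1 (fam := false) (s1 := true) (s2 := true) (a := 2) (b := 0) (c := 3) (cn := .up) (n1 := ndN0q2) (n2 := ndN1q3) (pc := pcN0) (cut := Cut.none) (xt := Ext.none) (P1 := 0) (W1 := 536870912) (P2 := 1610612736) (W2 := 536870912) (P3 := 469762048) (W3 := 67108864) (N0 := 3)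
    rfl (fun _ => rfl) k0_pp_203

noncomputable def cut_pp_213 : Cut := Cut.of [[⟨0, 1, 0, 67108864⟩, ⟨1, 1, 0, 67108864⟩, ⟨2, 2, 0, 16777216⟩]]

noncomputable def f_pp_213 : ℕ → ℕ → ℕ → ℕ → Bool := onCell 0 536870912 1610612736 536870912 469762048 67108864
    (rowN 3 0 false true true .pnn 2 1 3 (qsf 0 536870912 1610612736 536870912 1) ndN0q2 ndN1q3 pcN1 cut_pp_213 Ext.none)

def k0_pp_213 : ∃ t, chk3 f_pp_213 t 1 1 1 = true :=
  ⟨(b (l 3) (a (l 3) (b (l 3) (a (l 3) (b (l 3) (a (l 3) (b (l 3) (b (l 3) (b (l 3) (l 6)))))))))), by decide +kernel⟩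

theorem c_pp_213 : CertN 0 536870912 1610612736 536870912 469762048 67108864 3 false true true .pnn 2 1 3
    ndN0q2 ndN1q3 pcN1 cut_pp_213 Ext.none :=
  certN0 (fam := false) (s1 := true) (s2 := true) (a := 2) (b := 1) (c := 3) (cn := .pnn) (n1 := ndN0q2) (n2 := ndN1q3) (pc := pcN1) (cut := cut_pp_213) (xt := Ext.none) (P1 := 0) (W1 := 536870912) (P2 := 1610612736) (W2 := 536870912) (P3 := 469762048) (W3 := 67108864) (N0 := 3)
    rfl k0_pp_213

noncomputable def f_pm_001 : ℕ → ℕ → ℕ → ℕ → Bool := onCell 0 536870912 536870912 536870912 469762048 67108864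
    (rowN 3 0 false true false .up 0 0 1 (qsf 0 536870912 536870912 536870912 0) ndN0q0 ndN1q1 pcN0 Cut.none Ext.none)

def k0_pm_001 : ∃ t, chk3 f_pm_001 t 1 1 1 = true :=
  ⟨(l 4), by decide +kernel⟩

theorem c_pm_001 : CertN 0 536870912 536870912 536870912 469762048 67108864 3 false true false .up 0 0 1
    ndN0q0 ndN1q1 pcN0 Cut.none Ext.none :=
  certN0 (fam := false) (s1 := true) (s2 := false) (a := 0) (b := 0) (c := 1) (cn := .up) (n1 := ndN0q0) (n2 := ndN1q1) (pc := pcN0) (cut := Cut.none) (xt := Ext.none) (P1 := 0) (W1 := 536870912) (P2 := 536870912) (W2 := 536870912) (P3 := 469762048) (W3 := 67108864) (N0 := 3)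
    rfl k0_pm_001

noncomputable def f_pm_011 : ℕ → ℕ → ℕ → ℕ → Bool := onCell 0 536870912 536870912 536870912 469762048 67108864
    (rowN 3 0 false true false .pnn 0 1 1 (qsf 0 536870912 536870912 536870912 1) ndN0q0 ndN1q1 pcN1 Cut.none Ext.none)

def k0_pm_011 : ∃ t, chk3 f_pm_011 t 1 1 1 = true :=
  ⟨(l 4), by decide +kernel⟩

theorem c_pm_011 : CertN 0 536870912 536870912 536870912 469762048 67108864 3 false true false .pnn 0 1 1
    ndN0q0 ndN1q1 pcN1 Cut.none Ext.none :=
  certN0 (fam := false) (s1 := true) (s2 := false) (a := 0) (b := 1) (c := 1) (cn := .pnn) (n1 := ndN0q0) (n2 := ndN1q1) (pc := pcN1) (cut := Cut.none) (xt := Ext.none) (P1 := 0) (W1 := 536870912) (P2 := 536870912) (W2 := 536870912) (P3 := 469762048) (W3 := 67108864) (N0 := 3)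
    rfl k0_pm_011

noncomputable def cut_pm_012_a : Cut := Cut.of [[⟨0, 0, 0, 67108864⟩, ⟨1, 1, 0, 67108864⟩, ⟨2, 1, 0, 67108864⟩], [⟨0, 0, 1, 33554432⟩, ⟨1, 1, 2, 33554432⟩, ⟨2, 1, 0, 33554432⟩]]

noncomputable def f_pm_012_a : ℕ → ℕ → ℕ → ℕ → Bool := onCell 536870912 536870912 0 536870912 469762048 67108864
    (rowN 3 2 false true false .pnp 0 1 2 (qsf 0 536870912 0 536870912 1) ndN0q0 ndN1q2a pcN1 cut_pm_012_a Ext.none)

def k0_pm_012_a : ∃ t, chk3 f_pm_012_a t 4 2 1 = true :=
  ⟨(a (l 2) (b (l 2) (a (l 2) (l 16826416)))), by decide +kernel⟩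

def k1_pm_012_a : ∃ t, chk3 f_pm_012_a t 4 6 1 = true :=
  ⟨(a (l 2) (b (a (l 2) (l 16782272)) (a (b (l 16772752) (l 16712664)) (l 16636008)))), by decide +kernel⟩

def k2_pm_012_a : ∃ t, chk3 f_pm_012_a t 8 14 1 = true :=
  ⟨(a (l 2) (b (l 16736368) (b (l 16669368) (l 16657960)))), by decide +kernel⟩

def k3_pm_012_a : ∃ t, chk3 f_pm_012_a t 8 30 1 = true :=
  ⟨(a (a (l 2) (b (l 16689488) (l 16594280))) (a (b (l 16647064) (l 16591216)) (b (l 16599592) (l 16575328)))), by decide +kernel⟩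

def k4_pm_012_a : ∃ t, chk3 f_pm_012_a t 16 31 1 = true :=
  ⟨(b (a (a (l 2) (l 16571360)) (a (l 16570984) (l 16548440))) (a (a (b (c (l 16701320) (l 16536792)) (b (c (l 16647400) (c (l 16575352) (l 14))) (c (c (l 16707016) (a (l 16639472) (b (l 16652152) (l 16626888)))) (c (a (b (l 16610824) (c (l 16598408) (l 14))) (l 14)) (l 14))))) (b (c (l 16681464) (l 16535160)) (c (b (c (l 16695208) (l 16642648)) (c (a (l 16692096) (l 16681824)) (a (b (l 16641504) (c (l 16650392) (l 16623832))) (c (l 16641768) (l 14))))) (l 14)))) (a (c (b (l 16639552) (b (c (l 16674464) (l 16599528)) (c (a (l 16671288) (b (l 16662648) (l 16658288))) (a (b (l 16619384) (c (l 16628456) (l 14))) (l 14))))) (l 14)) (b (c (l 16596504) (l 16542144)) (b (c (l 16541088) (l 16531248)) (c (c (a (a (l 16631216) (l 16604632)) (c (l 16652032) (l 14))) (l 14)) (a (l 14) (a (l 14) (a (l 14) (c (l 14) (c (l 14) (l 16511344)))))))))))), by decide +kernel⟩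

def k5_pm_012_a : ∃ t, chk3 f_pm_012_a t 17 31 1 = true :=
  ⟨(b (a (a (l 16545616) (l 16543560)) (c (l 16559848) (l 16533792))) (b (a (c (a (l 16552272) (l 16548736)) (a (l 16535016) (l 16528632))) (c (a (l 14) (l 16554192)) (a (l 16522944) (l 16517920)))) (a (a (c (b (l 16548800) (c (a (b (l 16628648) (c (l 16638280) (l 14))) (l 14)) (l 14))) (b (l 16532632) (c (l 14) (b (l 16524672) (a (c (l 14) (b (l 16509048) (l 16513176))) (c (a (l 14) (l 16514688)) (l 16505928))))))) (c (l 14) (b (l 16532128) (c (a (l 14) (a (l 14) (a (l 14) (c (l 14) (l 16519680))))) (b (l 16509048) (a (a (a (l 16509080) (l 16508480)) (l 16518080)) (c (l 16510448) (l 16501336)))))))) (c (a (l 14) (b (l 16547280) (c (l 14) (a (l 14) (a (l 14) (a (l 14) (c (l 14) (l 16528352)))))))) (a (b (l 16537560) (c (b (l 16533032) (a (c (l 14) (a (l 16517768) (l 16516648))) (c (a (l 14) (l 16523256)) (l 16515040)))) (b (l 16504608) (a (c (l 16508264) (l 16499288)) (l 16501824))))) (b (l 16533176) (c (b (l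 16518208) (a (c (a (l 16522192) (l 16521168)) (l 16513048)) (c (l 16519712) (l 16511216)))) (a (l 16511352) (l 16499176))))))))), by decide +kernel⟩

def k6_pm_012_a : ∃ t, chk3 f_pm_012_a t 9 14 1 = true :=
  ⟨(a (b (l 16656752) (a (l 16616400) (l 16595464))) (b (l 16606736) (a (l 16576416) (l 16558944)))), by decide +kernel⟩

def k7_pm_012_a : ∃ t, chk3 f_pm_012_a t 18 15 1 = true :=
  ⟨(b (a (b (l 16580584) (l 16559568)) (b (l 16564296) (l 16546488))) (b (a (c (l 16559464) (l 16522536)) (c (l 16548600) (l 16513808))) (a (b (c (a (l 16548728) (l 16543904)) (a (l 16513536) (l 16509760))) (c (a (b (l 16542480) (c (l 14) (b (l 16531232) (a (c (l 14) (a (l 16526696) (l 16525768))) (c (a (l 14) (l 16532168)) (l 16529696)))))) (b (l 16548800) (c (a (l 14) (a (l 14) (a (l 14) (c (l 14) (l 16537376))))) (b (l 16527632) (a (c (a (l 16531296) (l 16530456)) (l 16522824)) (a (l 16533544) (l 16524952))))))) (a (b (l 16508448) (c (b (l 16514504) (a (c (l 16517896) (l 16509528)) (l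 16522616))) (a (l 16497640) (l 16496248)))) (b (l 16505288) (c (b (l 16511400) (a (l 16510680) (l 16509384))) (a (l 16495000) (l 16493896))))))) (c (b (a (l 16539696) (l 16536104)) (a (b (l 16545240) (b (c (l 16540264) (l 16524632)) (c (b (a (l 16539872) (l 16538360)) (a (c (l 14) (c (l 16537152) (l 16533280))) (c (c (l 14) (l 16539536)) (l 16533824)))) (a (c (l 16527816) (l 16520008)) (c (l 16526504) (l 16518808)))))) (b (l 16552760) (c (b (l 16537392) (a (c (a (l 16540752) (l 16540096)) (l 16532888)) (c (b (l 16539488) (l 16544088)) (l 16531752)))) (b (l 16522216) (a (l 16521544) (l 16520568))))))) (b (a (l 16506560) (l 16503936)) (a (b (l 16502696) (c (a (l 16508840) (l 16507768)) (l 16492488))) (c (a (l 16507912) (l 16507008)) (l 16502440)))))))), by decide +kernel⟩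

def k8_pm_012_a : ∃ t, chk3 f_pm_012_a t 19 15 1 = true :=
  ⟨(b (a (b (l 16549808) (l 16535136)) (b (l 16536984) (l 16526416))) (b (a (a (l 16525032) (l 16521696)) (b (l 16521032) (l 16540152))) (a (a (b (c (l 16532952) (l 16501768)) (c (b (c (l 16537224) (l 16522240)) (c (a (b (l 16535712) (c (a (l 16538448) (l 16538664)) (l 16536512))) (b (l 16536144) (c (l 16539416) (l 16532184)))) (a (b (l 16520864) (l 16530728)) (l 16521384)))) (b (l 16499528) (c (a (l 16505736) (l 16506672)) (l 16491312))))) (b (c (l 16531856) (l 16501528)) (c (b (l 16530640) (a (c (b (l 16537040) (c (l 16540320) (l 16533176))) (l 16522472)) (c (b (l 16537840) (c (l 16541128) (l 16534072))) (l 16523464)))) (b (l 16501152) (c (l 16508520) (l 16493912)))))) (b (c (l 16533224) (l 16503976)) (c (b (a (l 16532056) (l 16533136)) (a (a (c (b (l 16538536) (c (l 16541848) (l 16534872))) (l 16524368)) (c (b (l 16539152) (c (l 16542464) (l 16535584))) (l 16525192))) (a (c (c (l 16543056) (l 16536232)) (l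 16525928)) (c (b (l 16540128) (l 16547992)) (l 16526600))))) (b (l 16525184) (a (c (l 16510672) (l 16496400)) (c (l 16512512) (l 16498592))))))))), by decide +kernel⟩

def k9_pm_012_a : ∃ t, chk3 f_pm_012_a t 5 2 1 = true :=
  ⟨(a (b (a (b (l 17002800) (l 16961552)) (l 16920520)) (a (l 16850880) (l 16771624))) (b (a (l 16846632) (l 16769576)) (a (b (l 16733792) (l 16654736)) (b (l 16659472) (l 16591064))))), by decide +kernel⟩

def k10_pm_012_a : ∃ t, chk3 f_pm_012_a t 5 6 1 = true :=
  ⟨(a (b (a (l 16709688) (l 16642272)) (a (l 16620272) (b (l 16585176) (l 16554896)))) (b (a (l 16583752) (l 16536016)) (a (b (l 16541232) (l 16522504)) (b (l 16505568) (l 16492880))))), by decide +kernel⟩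

def k11_pm_012_a : ∃ t, chk3 f_pm_012_a t 10 7 1 = true :=
  ⟨(b (a (b (l 16564480) (b (l 16542928) (l 16532704))) (b (l 16532696) (b (l 16522344) (l 16518088)))) (b (a (b (l 16546456) (a (l 16522736) (l 16520408))) (b (l 16536928) (a (l 16517432) (l 16514064)))) (a (b (a (c (l 16535040) (l 16505808)) (c (l 16533600) (l 16506120))) (b (a (c (l 16555088) (l 16506424)) (c (l 16555024) (l 16508056))) (c (b (a (c (l 16540872) (l 16527560)) (c (l 16541072) (l 16528616))) (a (b (a (l 16555008) (l 16555712)) (a (a (c (l 16540560) (l 16527288)) (c (l 16540928) (l 16527848))) (c (c (l 16549784) (l 16538192)) (l 16528592)))) (c (a (a (l 16541536) (l 16541656)) (a (l 16541728) (l 16541760))) (a (l 16529184) (l 16529768))))) (b (a (l 16507312) (l 16509616)) (a (a (c (l 16514088) (l 16500544)) (c (l 16515440) (l 16502280))) (a (c (l 16516600) (l 16503856)) (l 16532440))))))) (b (a (c (l 16531488) (l 16505872)) (c (l 16528952) (l 16505352))) (b (a (c (l 16554304) (l 16509168)) (c (l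 16553192) (l 16510032))) (a (c (a (c (b (l 16540744) (c (l 16544616) (l 16538888))) (l 16529592)) (c (a (l 16551560) (l 16540936)) (l 16529824))) (a (b (l 16510968) (l 16512592)) (l 16512720))) (c (b (c (l 16539728) (l 16529144)) (c (a (l 16541432) (l 16541176)) (l 16541472))) (a (l 16513608) (l 16514488))))))))), by decide +kernel⟩

def k12_pm_012_a : ∃ t, chk3 f_pm_012_a t 11 7 1 = true :=
  ⟨(b (b (a (l 16509704) (l 16486816)) (a (b (l 16504552) (l 16503856)) (a (l 16492288) (l 16484992)))) (b (a (b (l 16526312) (a (l 16510576) (l 16507168))) (b (a (l 16497632) (l 16493256)) (a (l 16504192) (l 16501848)))) (a (b (a (c (l 16526216) (l 16504760)) (c (l 16523664) (l 16504472))) (c (b (a (l 16530960) (l 16529896)) (a (c (a (l 16539912) (l 16539552)) (a (l 16530216) (l 16530384))) (a (l 16555944) (l 16535088)))) (a (a (l 16533960) (l 16513712)) (b (l 16512032) (l 16518064))))) (b (a (c (l 16521512) (l 16504696)) (c (l 16520032) (l 16505712))) (a (c (b (l 16529360) (c (l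 16560112) (l 16531960))) (b (l 16513832) (l 16520896))) (c (b (l 16529464) (l 16557688)) (l 16541392))))))), by decide +kernel⟩

def k13_pm_012_a : ∃ t, chk3 f_pm_012_a t 3 2 1 = true :=
  ⟨(a (a (b (a (l 16699704) (l 16639416)) (b (a (l 16600752) (l 16552832)) (a (l 16544144) (l 16507960)))) (b (a (l 16581512) (b (l 16550184) (l 16505080))) (b (a (l 16508880) (l 16470184)) (a (l 16476144) (l 16449416))))) (a (b (a (b (l 16498560) (l 16462152)) (b (l 16453816) (l 16426104))) (a (b (l 16437696) (l 16428400)) (b (l 16411608) (l 16434040)))) (b (a (b (l 16416448) (l 16397112)) (b (l 16386792) (l 16375304))) (a (b (l 16391968) (l 16403360)) (b (l 16378768) (l 16441136)))))), by decide +kernel⟩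

def k14_pm_012_a : ∃ t, chk3 f_pm_012_a t 6 3 1 = true :=
  ⟨(b (a (b (a (l 16501368) (l 16478816)) (a (b (l 16480984) (l 16475512)) (b (l 16469488) (l 16471456)))) (b (a (l 16460288) (l 16446544)) (a (b (l 16461552) (l 16470720)) (b (l 16457680) (l 16473368))))) (b (a (a (b (l 16477072) (a (l 16483960) (l 16489064))) (b (l 16480624) (a (l 16494616) (l 16500656)))) (a (b (l 16486888) (a (l 16507184) (l 16514224))) (b (l 16537848) (a (l 16521800) (l 16529904))))) (a (a (b (b (a (l 16495256) (l 16503216)) (a (l 16505832) (l 16515632))) (b (a (c (l 16525248) (l 16512384)) (l 16551424)) (a (c (b (l 16536152) (l 16544384)) (l 16528976)) (c (b (l 16548864) (l 16557960)) (l 16542432))))) (b (b (l 16557768) (a (l 16525648) (l 16535904))) (b (a (l 16563120) (l 16574968)) (a (c (b (l 16561584) (l 16571496)) (l 16555944)) (c (b (l 16574352) (l 16585032)) (l 16569552)))))) (b (a (b (l 16586192) (a (l 16546432) (l 16557256))) (b (a (l 16548176) (l 16558352)) (a (l 16568408) (l 16579904))))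 (a (b (a (l 16587000) (l 16599240)) (a (c (b (l 16587208) (l 16598608)) (l 16604256)) (c (b (l 16600176) (l 16612256)) (l 16618160)))) (b (a (l 16632704) (c (l 16607792) (l 16599208))) (b (a (l 16629968) (l 16643632)) (a (c (l 16626008) (l 16617904)) (c (l 16660880) (l 16632512)))))))))), by decide +kernel⟩

def k15_pm_012_a : ∃ t, chk3 f_pm_012_a t 7 6 1 = true :=
  ⟨(a (b (a (l 16479528) (b (l 16425552) (l 16440856))) (a (b (l 16457776) (l 16479408)) (b (l 16482768) (l 16530736)))) (a (b (a (l 16475088) (l 16434496)) (b (l 16469672) (b (l 16534664) (l 16552120)))) (b (c (l 16503408) (l 16510280)) (a (l 16548160) (a (l 16543416) (l 16569112)))))), by decide +kernel⟩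

def k16_pm_012_a : ∃ t, chk3 f_pm_012_a t 7 7 1 = true :=
  ⟨(a (b (b (a (l 16570608) (a (l 16518304) (l 16526296))) (a (a (l 16559528) (l 16568736)) (a (l 16599472) (b (l 16556536) (l 16579104))))) (b (b (a (a (l 16568968) (l 16580024)) (a (l 16591544) (l 16624512))) (a (a (l 16591760) (l 16624968)) (a (l 16637600) (c (l 16653464) (l 16647808))))) (b (a (a (c (l 16620424) (l 16612680)) (a (l 16647512) (l 16654272))) (a (a (l 16661120) (l 16668064)) (b (l 16671376) (a (l 16661312) (l 16668552))))) (a (a (b (l 16657536) (c (l 16664488) (l 16668320))) (b (c (l 16653856) (l 16647600)) (a (l 16682648) (c (l 16671904) (l 16666248))))) (b (a (c (l 16688872) (l 16683464)) (a (l 16697224) (l 16704696))) (a (a (c (l 16700152) (l 16673936)) (c (l 16697008) (l 16702664))) (b (a (l 16708776) (l 16716416)) (a (c (l 16697832) (l 16693512)) (c (l 16715864) (l 16701480)))))))))) (b (a (a (b (l 16555952) (b (l 16566896) (l 16590544))) (b (l 16544368) (b (l 16577864) (l 16623496)))) (a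 (b (l 16575416) (b (l 16589440) (l 16620304))) (b (l 16601912) (b (l 16622592) (a (l 16624824) (l 6)))))) (a (b (a (b (l 16636984) (a (l 16660696) (l 16667544))) (b (a (l 16625680) (l 16653264)) (b (l 16670800) (a (l 16660680) (l 16667864))))) (a (a (b (b (l 16661008) (l 16675880)) (b (a (l 16710352) (l 16714152)) (c (b (l 16704968) (c (l 16713840) (l 16712144))) (b (l 16701344) (l 16720016))))) (b (b (l 16668200) (l 16704272)) (b (c (l 16721584) (l 16718192)) (l 6)))) (b (b (a (l 16675496) (l 6)) (l 6)) (l 6)))) (a (b (a (b (l 16659992) (l 6)) (l 6)) (l 6)) (l 6))))), by decide +kernel⟩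

theorem s17_pm_012_a : ∃ t, chk3 f_pm_012_a t 7 3 1 = true := ex3_b k15_pm_012_a k16_pm_012_a

theorem s18_pm_012_a : ∃ t, chk3 f_pm_012_a t 3 3 1 = true := ex3_a k14_pm_012_a s17_pm_012_a

theorem s19_pm_012_a : ∃ t, chk3 f_pm_012_a t 3 1 1 = true := ex3_b k13_pm_012_a s18_pm_012_a

theorem s20_pm_012_a : ∃ t, chk3 f_pm_012_a t 5 7 1 = true := ex3_a k11_pm_012_a k12_pm_012_a

theorem s21_pm_012_a : ∃ t, chk3 f_pm_012_a t 5 3 1 = true := ex3_b k10_pm_012_a s20_pm_012_a

theorem s22_pm_012_a : ∃ t, chk3 f_pm_012_a t 5 1 1 = true := ex3_b k9_pm_012_a s21_pm_012_a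

theorem s23_pm_012_a : ∃ t, chk3 f_pm_012_a t 9 15 1 = true := ex3_a k7_pm_012_a k8_pm_012_a

theorem s24_pm_012_a : ∃ t, chk3 f_pm_012_a t 9 7 1 = true := ex3_b k6_pm_012_a s23_pm_012_a

theorem s25_pm_012_a : ∃ t, chk3 f_pm_012_a t 8 31 1 = true := ex3_a k4_pm_012_a k5_pm_012_a

theorem s26_pm_012_a : ∃ t, chk3 f_pm_012_a t 8 15 1 = true := ex3_b k3_pm_012_a s25_pm_012_a

theorem s27_pm_012_a : ∃ t, chk3 f_pm_012_a t 8 7 1 = true := ex3_b k2_pm_012_a s26_pm_012_a

theorem s28_pm_012_a : ∃ t, chk3 f_pm_012_a t 4 7 1 = true := ex3_a s27_pm_012_a s24_pm_012_a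

theorem s29_pm_012_a : ∃ t, chk3 f_pm_012_a t 4 3 1 = true := ex3_b k1_pm_012_a s28_pm_012_a

theorem s30_pm_012_a : ∃ t, chk3 f_pm_012_a t 4 1 1 = true := ex3_b k0_pm_012_a s29_pm_012_a

theorem s31_pm_012_a : ∃ t, chk3 f_pm_012_a t 2 1 1 = true := ex3_a s30_pm_012_a s22_pm_012_a

theorem s32_pm_012_a : ∃ t, chk3 f_pm_012_a t 1 1 1 = true := ex3_a s31_pm_012_a s19_pm_012_a

theorem c_pm_012_a : CertN 0 536870912 0 536870912 469762048 67108864 3 false true false .pnp 0 1 2
    ndN0q0 ndN1q2a pcN1 cut_pm_012_a Ext.none :=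
  certN2 (fam := false) (s1 := true) (s2 := false) (a := 0) (b := 1) (c := 2) (cn := .pnp) (n1 := ndN0q0) (n2 := ndN1q2a) (pc := pcN1) (cut := cut_pm_012_a) (xt := Ext.none) (P1 := 0) (W1 := 536870912) (P2 := 0) (W2 := 536870912) (P3 := 469762048) (W3 := 67108864) (N0 := 3)
    rfl (fun _ => rfl) s32_pm_012_a

noncomputable def cut_pm_012_b : Cut := Cut.of [[⟨0, 0, 0, 67108864⟩, ⟨1, 1, 0, 67108864⟩, ⟨2, 1, 0, 67108864⟩], [⟨0, 0, 1, 33554432⟩, ⟨1, 1, 2, 33554432⟩, ⟨2, 1, 0, 33554432⟩]]

noncomputable def f_pm_012_b : ℕ → ℕ → ℕ → ℕ → Bool := onCell 0 536870912 536870912 536870912 469762048 67108864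
    (rowN 3 1 false true false .pnp 0 1 2 (qsf 0 536870912 1239849684 370763052 1) ndN0q0 ndN1q2b pcN1 cut_pm_012_b Ext.none)

def k0_pm_012_b : ∃ t, chk3 f_pm_012_b t 1 1 1 = true :=
  ⟨(a (b (l 1) (b (l 1) (a (l 1) (b (a (l 1) (b (a (l 1) (l 223908325207)) (a (l 214244566791) (b (l 16496248) (l 16438968))))) (a (b (a (l 1) (b (l 1) (l 205117628647))) (a (b (l 1) (a (l 1) (l 246993413527))) (b (l 16504800) (l 16364120)))) (b (a (a (l 210486221495) (l 16469848)) (b (l 16379232) (l 16317104))) (a (l 16307560) (l 16227928)))))))) (b (b (l 1) (a (l 1) (a (b (l 1) (a (l 317324518199) (l 282427857687))) (b (b (l 286723078407) (l 246457701655)) (b (l 218003554311) (l 16814872)))))) (a (b (a (b (l 1) (a (b (l 1) (l 236793321991)) (b (l 256657652071) (l 200822935831)))) (b (a (l 284575150039) (l 252362824407)) (a (b (l 207265544423) (l 16520080)) (l 16697016)))) (b (a (b (a (l 209949565815) (l 16455592)) (a (l 16439904) (l 16305136))) (b (a (l 16392656) (l 16326072)) (l 16212368)))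 (a (b (a (l 16268104) (l 16184536)) (l 16240088)) (b (l 16134736) (l 16097312))))) (b (a (b (a (b (l 16763416) (l 16660808)) (l 16685656)) (a (l 16561192) (l 16429272))) (b (l 16786064) (l 16475680))) (a (b (a (l 16167960) (l 16159920)) (a (l 16109872) (l 16117200))) (b (l 16173792) (l 16161128))))))), by decide +kernel⟩

theorem c_pm_012_b : CertN 0 536870912 1239849684 370763052 469762048 67108864 3 false true false .pnp 0 1 2
    ndN0q0 ndN1q2b pcN1 cut_pm_012_b Ext.none :=
  certN1 (fam := false) (s1 := true) (s2 := false) (a := 0) (b := 1) (c := 2) (cn := .pnp) (n1 := ndN0q0) (n2 := ndN1q2b) (pc := pcN1) (cut := cut_pm_012_b) (xt := Ext.none) (P1 := 0) (W1 := 536870912) (P2 := 1239849684) (W2 := 370763052) (P3 := 469762048) (W3 := 67108864) (N0 := 3)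
    rfl (fun _ => rfl) k0_pm_012_b

noncomputable def cut_pm_022_a : Cut := Cut.of [[⟨0, 0, 0, 67108864⟩, ⟨1, 1, 0, 67108864⟩, ⟨2, 1, 0, 67108864⟩]]

noncomputable def f_pm_022_a : ℕ → ℕ → ℕ → ℕ → Bool := onCell 0 536870912 0 536870912 469762048 67108864
    (rowN 3 0 false true false .pp 0 2 2 (qsf 0 536870912 0 536870912 2) ndN0q0 ndN1q2a pcN2 cut_pm_022_a Ext.none)

def k0_pm_022_a : ∃ t, chk3 f_pm_022_a t 1 1 1 = true :=
  ⟨(a (b (a (a (b (a (b (l 16442448) (l 16511336)) (b (l 16422720) (l 16425752))) (b (a (c (l 16530040) (l 16523848)) (l 16438688)) (a (a (l 16560000) (l 16483352)) (l 16545864)))) (a (b (l 16449304) (b (l 16411568) (l 16474120))) (b (l 16441464) (b (l 16392632) (l 40835090039))))) (a (a (b (l 28487099047) (b (l 16378360) (b (l 16411928) (l 16423520)))) (b (l 16463856) (l 1))) (l 1))) (a (b (a (a (a (b (b (l 16523744) (l 16587376)) (b (l 16633088) (a (l 16644176) (l 16636000)))) (b (c (l 16542536) (l 16517576)) (b (l 16554224) (l 16623512)))) (b (a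 (l 16546208) (l 16530360)) (b (l 16571384) (a (l 16585528) (l 16570072))))) (b (a (c (l 16528888) (l 16530088)) (b (l 16438208) (l 16462176))) (a (b (a (l 16509128) (l 16497064)) (a (l 16557176) (l 16522888))) (b (l 29560866423) (l 1))))) (a (a (b (b (b (a (c (l 16643768) (l 16640464)) (l 16604160)) (a (c (l 16681128) (l 16678176)) (l 16641384))) (l 6)) (l 6)) (a (b (b (l 16626120) (l 6)) (l 6)) (b (b (b (l 16572064) (l 16588392)) (b (l 16615952) (l 16637080))) (l 1)))) (b (a (a (b (c (l 16573232) (l 16564224)) (l 1)) (l 1)) (l 1)) (l 1)))) (b (l 1) (l 1)))) (l 1)), by decide +kernel⟩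

theorem c_pm_022_a : CertN 0 536870912 0 536870912 469762048 67108864 3 false true false .pp 0 2 2
    ndN0q0 ndN1q2a pcN2 cut_pm_022_a Ext.none :=
  certN0 (fam := false) (s1 := true) (s2 := false) (a := 0) (b := 2) (c := 2) (cn := .pp) (n1 := ndN0q0) (n2 := ndN1q2a) (pc := pcN2) (cut := cut_pm_022_a) (xt := Ext.none) (P1 := 0) (W1 := 536870912) (P2 := 0) (W2 := 536870912) (P3 := 469762048) (W3 := 67108864) (N0 := 3)
    rfl k0_pm_022_a

noncomputable def cut_pm_022_b : Cut := Cut.of [[⟨0, 0, 0, 67108864⟩, ⟨1, 1, 0, 67108864⟩, ⟨2, 1, 0, 67108864⟩]]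

noncomputable def f_pm_022_b : ℕ → ℕ → ℕ → ℕ → Bool := onCell 1073741824 536870912 1239849684 370763052 469762048 67108864
    (rowN 3 2 false true false .pp 0 2 2 (qsf 0 536870912 1239849684 370763052 2) ndN0q0 ndN1q2b pcN2 cut_pm_022_b Ext.none)

def k0_pm_022_b : ∃ t, chk3 f_pm_022_b t 1 1 1 = true :=
  ⟨(a (b (a (b (b (a (b (l 16454904) (l 16396944)) (a (l 16386936) (b (l 16395672) (l 16335968)))) (a (a (l 16299128) (l 16258200)) (l 16374392))) (b (a (a (l 16225664) (l 16159048)) (l 16277936)) (a (a (l 16105904) (l 16096288)) (a (l 16107408) (l 16076288))))) (b (a (b (a (b (l 16456424) (l 16377168)) (b (l 76268727799) (l 16396136))) (a (l 16267728) (b (l 16317680) (l 16238672)))) (b (a (b (l 1) (l 94522287191)) (l 1)) (a (l 16455792) (b (l 114386434935) (l 16300776))))) (a (b (l 16264360) (l 16143312)) (b (a (l 16194920) (l 16280424)) (l 16157192))))) (a (b (a (b (a (l 16070416) (l 16051920)) (a (l 16063680) (l 16031760))) (b (l 16131304) (a (l 16004088) (l 15979064))))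 (a (b (a (l 16077968) (l 16040840)) (a (l 16152832) (l 16081200))) (b (l 16001760) (l 15999576)))) (b (a (b (l 16013872) (l 15943024)) (b (l 16016232) (l 15893344))) (a (b (l 15912160) (l 15905856)) (b (l 15848272) (l 15821776)))))) (a (b (b (l 1) (a (b (a (l 88616478935) (l 202969729175)) (a (l 16151592) (l 16198640))) (b (l 1) (a (l 151430268391) (l 1))))) (b (a (b (a (l 16019576) (l 16049792)) (l 15923200)) (a (l 16197272) (l 166462573399))) (a (l 15942176) (b (l 15891424) (l 15832568))))) (b (l 1) (a (b (b (l 1) (l 212633542071)) (b (l 16069472) (l 15921424))) (b (l 1) (l 619783023047)))))), by decide +kernel⟩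

theorem c_pm_022_b : CertN 0 536870912 1239849684 370763052 469762048 67108864 3 false true false .pp 0 2 2
    ndN0q0 ndN1q2b pcN2 cut_pm_022_b Ext.none :=
  certN2 (fam := false) (s1 := true) (s2 := false) (a := 0) (b := 2) (c := 2) (cn := .pp) (n1 := ndN0q0) (n2 := ndN1q2b) (pc := pcN2) (cut := cut_pm_022_b) (xt := Ext.none) (P1 := 0) (W1 := 536870912) (P2 := 1239849684) (W2 := 370763052) (P3 := 469762048) (W3 := 67108864) (N0 := 3)
    rfl (fun _ => rfl) k0_pm_022_b

noncomputable def f_pm_023 : ℕ → ℕ → ℕ → ℕ → Bool := onCell 0 536870912 1073741824 536870912 469762048 67108864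
    (rowN 3 1 false true false .up 0 2 3 (qsf 0 536870912 1610612736 536870912 2) ndN0q0 ndN1q3 pcN2 Cut.none Ext.none)

def k0_pm_023 : ∃ t, chk3 f_pm_023 t 1 1 1 = true :=
  ⟨(a (b (b (l 1) (a (l 1) (b (l 1) (a (l 1) (l 16056392))))) (b (a (a (l 1) (b (l 1) (l 221222619047))) (b (a (l 16055192) (l 15937824)) (l 205653873111))) (a (b (l 205116591511) (a (l 265783625463) (l 16314368))) (b (a (l 16267984) (l 16510344)) (l 16613328))))) (b (a (a (b (l 1) (l 204580464679)) (b (l 211559732823) (l 237329601159))) (b (b (a (l 233571562695) (l 262025685783)) (a (l 16278248) (l 16557568))) (a (b (l 16457928) (l 16598808)) (l 16700824)))) (a (b (b (a (l 16303408) (l 16548096)) (l 16609320)) (b (l 16731264) (l 16811912))) (b (a (l 16748528) (l 16820264)) (b (l 16851816) (l 16868128)))))), by decide +kernel⟩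

theorem c_pm_023 : CertN 0 536870912 1610612736 536870912 469762048 67108864 3 false true false .up 0 2 3
    ndN0q0 ndN1q3 pcN2 Cut.none Ext.none :=
  certN1 (fam := false) (s1 := true) (s2 := false) (a := 0) (b := 2) (c := 3) (cn := .up) (n1 := ndN0q0) (n2 := ndN1q3) (pc := pcN2) (cut := Cut.none) (xt := Ext.none) (P1 := 0) (W1 := 536870912) (P2 := 1610612736) (W2 := 536870912) (P3 := 469762048) (W3 := 67108864) (N0 := 3)
    rfl (fun _ => rfl) k0_pm_023

noncomputable def f_pm_033 : ℕ → ℕ → ℕ → ℕ → Bool := onCell 1610612736 536870912 1610612736 536870912 469762048 67108864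
    (rowN 3 2 false true false .pnn 0 3 3 (qsf 0 536870912 1610612736 536870912 3) ndN0q0 ndN1q3 pcN3 Cut.none Ext.none)

def k0_pm_033 : ∃ t, chk3 f_pm_033 t 1 1 1 = true :=
  ⟨(a (b (a (a (b (l 4) (b (l 16659720) (l 16759952))) (l 4)) (l 4)) (a (b (a (l 16927408) (l 16962800)) (b (a (l 16861568) (l 16870840)) (l 16856096))) (a (b (l 4) (l 16914760)) (l 4)))) (l 4)), by decide +kernel⟩

theorem c_pm_033 : CertN 0 536870912 1610612736 536870912 469762048 67108864 3 false true false .pnn 0 3 3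
    ndN0q0 ndN1q3 pcN3 Cut.none Ext.none :=
  certN2 (fam := false) (s1 := true) (s2 := false) (a := 0) (b := 3) (c := 3) (cn := .pnn) (n1 := ndN0q0) (n2 := ndN1q3) (pc := pcN3) (cut := Cut.none) (xt := Ext.none) (P1 := 0) (W1 := 536870912) (P2 := 1610612736) (W2 := 536870912) (P3 := 469762048) (W3 := 67108864) (N0 := 3)
    rfl (fun _ => rfl) k0_pm_033

noncomputable def f_pm_101 : ℕ → ℕ → ℕ → ℕ → Bool := onCell 0 536870912 536870912 536870912 469762048 67108864
    (rowN 3 2 false true false .npn 1 0 1 (qsf 536870912 536870912 536870912 536870912 0) ndN0q1 ndN1q1 pcN0 Cut.none Ext.none)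

def k0_pm_101 : ∃ t, chk3 f_pm_101 t 1 1 1 = true :=
  ⟨(a (b (l 4) (a (b (a (b (l 4) (a (l 16888296) (l 4))) (l 4)) (a (a (b (l 16932640) (l 16915184)) (b (b (l 16899496) (l 16908000)) (l 16907728))) (b (b (l 4) (a (l 16891368) (l 16866728))) (b (a (l 16894944) (l 16866928)) (l 17046080))))) (b (l 4) (b (l 4) (a (a (b (l 16832016) (l 16820976)) (b (l 4) (l 16773616))) (b (l 4) (a (l 16724968) (l 4)))))))) (l 4)), by decide +kernel⟩

theorem c_pm_101 : CertN 536870912 536870912 536870912 536870912 469762048 67108864 3 false true false .npn 1 0 1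
    ndN0q1 ndN1q1 pcN0 Cut.none Ext.none :=
  certN2 (fam := false) (s1 := true) (s2 := false) (a := 1) (b := 0) (c := 1) (cn := .npn) (n1 := ndN0q1) (n2 := ndN1q1) (pc := pcN0) (cut := Cut.none) (xt := Ext.none) (P1 := 536870912) (W1 := 536870912) (P2 := 536870912) (W2 := 536870912) (P3 := 469762048) (W3 := 67108864) (N0 := 3)
    rfl (fun _ => rfl) k0_pm_101

noncomputable def cut_pm_102_a : Cut := Cut.of [[⟨0, 1, 0, 67108864⟩, ⟨1, 0, 0, 67108864⟩, ⟨2, 1, 0, 67108864⟩], [⟨0, 0, 1, 33554432⟩, ⟨1, 1, 2, 33554432⟩, ⟨2, 1, 0, 33554432⟩]]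

noncomputable def f_pm_102_a : ℕ → ℕ → ℕ → ℕ → Bool := onCell 536870912 536870912 0 536870912 469762048 67108864
    (rowN 3 0 false true false .npp 1 0 2 (qsf 536870912 536870912 0 536870912 0) ndN0q1 ndN1q2a pcN0 cut_pm_102_a Ext.none)

def k0_pm_102_a : ∃ t, chk3 f_pm_102_a t 2 2 1 = true :=
  ⟨(a (a (l 2) (b (l 2) (a (l 2) (b (l 2) (l 16886432))))) (a (b (b (l 16901864) (l 16917976)) (b (a (l 16937848) (l 17110224)) (a (l 16876192) (l 16883888)))) (a (b (l 16830024) (b (l 16858024) (l 16870712))) (b (l 16813672) (b (l 16816824) (l 16838744)))))), by decide +kernel⟩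

def k1_pm_102_a : ∃ t, chk3 f_pm_102_a t 4 6 1 = true :=
  ⟨(a (l 2) (a (b (l 2) (b (l 16808280) (l 16786680))) (b (l 16829864) (b (l 16799112) (l 16784296))))), by decide +kernel⟩

def k2_pm_102_a : ∃ t, chk3 f_pm_102_a t 8 14 1 = true :=
  ⟨(a (l 2) (b (l 25870359607) (a (b (l 2) (l 16748024)) (b (l 16756320) (l 16747608))))), by decide +kernel⟩

def k3_pm_102_a : ∃ t, chk3 f_pm_102_a t 16 15 1 = true :=
  ⟨(b (a (l 2) (b (l 16721496) (a (l 16704176) (l 16722480)))) (b (b (a (l 16584968) (c (l 16751464) (l 16663472))) (a (c (a (l 2) (l 16722192)) (l 16554360)) (c (l 16748712) (a (l 16648680) (l 16668256))))) (a (b (a (c (l 17817166279) (l 16538728)) (c (l 16719536) (a (l 16597008) (l 16628504)))) (c (a (b (c (l 16723664) (l 16673696)) (c (l 16722656) (a (b (l 16667560) (l 16666816)) (l 16677200)))) (c (l 16720416) (b (l 16693248) (a (l 16686960) (l 16696480))))) (b (a (a (l 16529688) (l 16540720)) (c (l 16623296) (a (l 14) (l 16600368)))) (a (c (a (b (l 16616520) (c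 (l 16628376) (l 14))) (b (l 16627200) (b (l 16626432) (a (l 16602312) (l 16628552))))) (l 14)) (c (a (b (l 16637624) (c (l 16649120) (l 16624024))) (a (l 16623784) (l 16649776))) (a (l 14) (a (l 14) (a (l 14) (c (l 16614040) (l 14)))))))))) (c (b (a (l 16737504) (l 16754552)) (a (c (l 16758712) (b (l 16711840) (l 16710296))) (c (l 16775032) (b (l 16729496) (l 16727872))))) (b (a (b (l 16645024) (l 16621608)) (b (l 16664576) (l 16662120))) (a (b (c (l 16664128) (a (l 16610944) (l 16621264))) (c (a (b (l 16657712) (l 16656656)) (l 16666856)) (a (b (l 16608904) (c (l 16598880) (l 14))) (b (l 16619216) (c (l 16630000) (a (l 14) (l 16608240))))))) (a (b (l 16633944) (c (l 16676288) (b (l 16629280) (a (l 16604440) (l 16630384))))) (b (l 16664440) (c (l 16685472) (b (l 16639104) (c (l 16649552) (l 16625824)))))))))))), by decide +kernel⟩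

def k4_pm_102_a : ∃ t, chk3 f_pm_102_a t 17 15 1 = true :=
  ⟨(b (a (b (l 16739544) (a (l 16731528) (l 16731440))) (b (l 16739256) (c (l 16775304) (a (l 16690304) (l 16694272))))) (b (a (c (a (l 16767040) (l 16767928)) (a (b (l 16682840) (l 16677800)) (b (l 16682440) (l 16678912)))) (b (a (l 16728592) (l 16736664)) (c (l 16777608) (l 16691360)))) (a (c (a (b (l 16763304) (b (l 16762616) (a (l 16761216) (l 16765288)))) (b (l 16767920) (l 16771416))) (b (a (b (l 16674016) (a (l 16671744) (l 16672232))) (b (l 16677824) (l 16678600))) (a (b (a (c (l 16692520) (l 16646328)) (c (l 16695024) (l 16648968))) (a (c (b (l 16691656) (l 16691760)) (a (b (l 16644256) (a (l 16622176) (l 16644048))) (b (l 16645576) (l 16646144)))) (c (l 16696424) (b (l 16649736) (l 16629504))))) (c (b (l 16702728) (l 16704576)) (b (l 16657288) (a (b (l 16655536) (c (l 16667888) (l 16644824))) (b (l 16661448) (a (l 16660872) (l 16642928))))))))) (c (b (l 16781368) (a (l 16781160) (l 16791168))) (b (a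 (l 16688736) (l 16699840)) (a (c (b (l 16713584) (l 16715800)) (b (l 16669040) (a (b (l 16667464) (b (l 16668232) (a (l 16667224) (l 16649352)))) (b (l 16673584) (b (l 16674424) (a (l 16652472) (l 16655616))))))) (c (b (l 16724768) (l 16727344)) (b (l 16681160) (a (b (l 16679792) (b (l 16680704) (a (l 16658784) (l 16661968)))) (b (l 16686080) (a (a (l 16664032) (l 16686608)) (l 16668040)))))))))))), by decide +kernel⟩

def k5_pm_102_a : ∃ t, chk3 f_pm_102_a t 9 7 1 = true :=
  ⟨(a (b (b (a (l 16768896) (l 16768048)) (a (b (l 16755696) (l 16748664)) (b (l 16759016) (l 16757504)))) (b (b (a (a (l 16742176) (l 16748096)) (l 16759248)) (a (l 16746704) (l 16763840))) (b (a (c (l 16793368) (b (l 16709528) (l 16712696))) (c (l 16811112) (b (l 16730288) (l 16734792)))) (a (c (b (l 16800472) (a (l 16801360) (l 16811680))) (b (a (l 16711224) (l 16722816)) (a (c (b (l 16736208) (l 16739144)) (b (l 16693584) (b (l 16674656) (c (l 16707824) (a (l 16672560) (l 16689688)))))) (c (l 16749448)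 (b (l 16706224) (a (l 16685136) (l 16712664))))))) (c (b (l 16819992) (a (l 16822056) (l 16832432))) (b (a (l 16734552) (l 16746376)) (a (b (l 16739312) (a (l 16718760) (l 16746064))) (c (l 16773320) (l 16733808))))))))) (b (b (a (l 16771656) (l 16779408)) (a (l 16769560) (l 16781648))) (b (a (b (l 16774400) (l 16781208)) (b (l 16789488) (l 16798424))) (b (a (c (l 16828888) (l 16754120)) (c (l 16846304) (l 16775664))) (c (a (b (l 16839456) (l 16847840)) (b (l 16858472) (l 16867944))) (a (b (l 16764080) (a (c (l 16785272) (l 16746896)) (a (l 16775456) (l 16781664)))) (b (a (l 16781712) (l 16793280)) (a (c (l 16808920) (b (l 16770464) (l 16775384))) (c (l 16820512) (a (l 16782520) (l 16788872))))))))))), by decide +kernel⟩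

def k6_pm_102_a : ∃ t, chk3 f_pm_102_a t 5 3 1 = true :=
  ⟨(b (a (b (a (l 16768728) (l 16828112)) (a (b (l 16811688) (l 16805760)) (b (l 16838032) (l 16837608)))) (b (a (l 16856336) (l 16959048)) (a (b (l 16852272) (l 16856792)) (b (l 16855080) (l 16863936))))) (a (b (b (a (l 16805752) (l 16843616)) (a (a (l 16800168) (l 16826008)) (a (l 16848216) (l 16866736)))) (b (a (a (b (l 16810952) (l 16821968)) (b (l 16839632) (l 16852608))) (a (b (l 16864416) (l 16879128)) (l 16935032))) (b (a (a (c (l 16869184) (b (l 16800240) (l 16808456))) (c (l 16897992) (l 16840720))) (a (l 16897424) (l 16921256))) (a (c (a (a (l 16879704) (l 16895992)) (l 16918472)) (a (b (a (l 16807704) (l 16827800)) (a (b (l 16815376) (a (a (l 16813384) (l 16818000)) (l 16826088))) (c (l 16854400) (b (l 16820312) (l 16826168))))) (b (l 16855976) (a (c (l 16872984) (l 16843888)) (l 16876800))))) (a (b (l 16913800) (a (l 16919040) (l 16932960))) (c (l 16965840) (l 16924544))))))) (b (a (b (l 16868008) (l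 16950552)) (b (l 16879544) (l 16924544))) (a (b (a (l 16910720) (l 16924472)) (a (b (l 16940768) (l 16965568)) (b (l 16956056) (l 16981632)))) (b (a (l 16934416) (l 16940928)) (a (b (l 16967224) (l 16993312)) (l 17050552))))))), by decide +kernel⟩

def k7_pm_102_a : ∃ t, chk3 f_pm_102_a t 6 2 1 = true :=
  ⟨(a (a (b (b (l 16781472) (l 16777760)) (l 16862880)) (b (b (a (l 16776280) (b (a (l 16757312) (l 16747000)) (l 16787760))) (a (l 16785104) (l 16782424))) (b (l 16777864) (l 16788648)))) (b (a (b (a (b (a (b (l 128479863879) (l 16740304)) (l 123648044567)) (a (l 16752560) (b (l 16737760) (l 16746048)))) (b (l 3) (a (b (l 119889907735) (l 88214496967)) (c (l 125258582999) (l 134385414967))))) (a (b (l 16783296) (l 16774888)) (b (a (l 16768376) (a (l 16781248) (b (l 131701104471) (l 16737928)))) (l 16799504)))) (b (l 3) (a (b (b (c (l 136532908327) (l 135996042199)) (a (a (l 16753320) (l 119889906583)) (l 136532913783))) (a (b (l 16758872) (l 16746024)) (b (a (l 131164235799)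 (l 130090448967)) (a (l 16737840) (l 16732216))))) (b (l 3) (a (b (l 141364726823) (a (l 133311715367) (l 132774798807))) (l 3)))))) (a (b (a (l 16849536) (b (l 16771232) (l 16782120))) (c (l 16889760) (l 16880520))) (b (a (b (a (l 16757616) (l 16768296)) (l 16767288)) (b (c (a (b (l 129016750551) (l 16741376)) (b (l 130090442535) (l 131701103847))) (a (b (l 16732000) (l 16739464)) (b (l 130090424311) (l 113447442631)))) (a (l 16752672) (b (l 16769160) (l 16746056))))) (a (l 16784416) (b (a (l 16767832) (l 16758208)) (l 16777144))))))), by decide +kernel⟩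

def k8_pm_102_a : ∃ t, chk3 f_pm_102_a t 7 2 1 = true :=
  ⟨(a (b (l 3) (a (b (a (c (b (a (l 134922302743) (l 3)) (a (b (a (l 16728960) (l 118279265175)) (l 16735384)) (b (l 134385380471) (a (l 109152461495) (l 126869195191))))) (b (a (b (l 3) (l 133311645303)) (l 3)) (a (b (a (l 16729080) (l 118816137959)) (l 16734224)) (b (l 137069737591) (a (l 115058049927) (l 130090422727)))))) (l 3)) (a (b (a (b (l 16743464) (l 16751856)) (b (a (l 16735032) (c (l 16729248) (l 16729064))) (l 16740920))) (a (l 16764032) (l 16774816))) (b (c (a (b (a (l 116668652887) (l 132774771479)) (a (l 16732704) (l 107541850007))) (b (l 3) (a (l 126332325207) (l 3)))) (a (b (a (l 118816137831) (l 135995998951)) (a (l 16731856) (l 115058051719))) (b (l 3) (a (l 130090444071) (l 3))))) (c (a (b (l 16739392) (l 16749128)) (b (a (l 16729952) (b (l 126332326375) (l 16726200))) (l 16736816))) (a (b (l 16737368) (l 16745520)) (b (a (l 16729544) (b (l 130090424199) (l 113447435943))) (l 16735240)))))))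 (c (b (l 3) (a (b (l 3) (a (b (a (l 133311643975) (l 3)) (a (b (l 117742399191) (l 16729856)) (b (l 136532871031) (l 122037363239)))) (l 3))) (l 3))) (b (l 3) (a (b (l 3) (a (b (a (l 136532870871) (l 3)) (a (b (l 119353017047) (l 16729480)) (b (l 139217226903) (l 126332331383)))) (l 3))) (l 3)))))) (l 3)), by decide +kernel⟩

def k9_pm_102_a : ∃ t, chk3 f_pm_102_a t 6 3 1 = true :=
  ⟨(b (a (b (a (l 16918344) (l 16832720)) (a (b (l 16848928) (l 16861448)) (b (l 16835040) (l 16913920)))) (b (a (l 16792568) (a (l 16886576) (l 16769384))) (a (b (a (l 16819600) (l 16809000)) (a (l 16838568) (l 16827248))) (a (b (l 16798496) (l 16815440)) (l 16796288))))) (a (b (b (a (l 16880608) (a (l 16875632) (l 16953176))) (a (l 16949912) (a (b (l 16896544) (l 16912624)) (l 17011632)))) (a (a (b (l 16944496) (b (l 16978280) (l 17084624))) (b (b (l 16934680) (l 16975216)) (l 17086768))) (b (a (a (l 16960768) (l 16934600)) (l 16925864)) (l 16985440)))) (b (a (b (a (l 17027544) (l 16848296))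 (l 16879104)) (b (a (l 16836664) (l 16887360)) (l 16896448))) (a (b (l 16928848) (a (l 16946312) (l 16933528))) (b (a (l 16889000) (l 16875744)) (a (l 16920168) (l 16906200))))))), by decide +kernel⟩

def k10_pm_102_a : ∃ t, chk3 f_pm_102_a t 28 6 1 = true :=
  ⟨(b (b (a (a (l 16778496) (l 16770176)) (a (l 16760440) (b (l 16745240) (l 16754296)))) (a (l 16785424) (a (l 16776520) (l 16788496)))) (b (a (l 16781792) (a (l 16785176) (l 16782392))) (b (l 16785048) (l 16792160)))), by decide +kernel⟩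

def k11_pm_102_a : ∃ t, chk3 f_pm_102_a t 29 6 1 = true :=
  ⟨(b (a (b (c (a (b (a (l 16737520) (b (l 16728664) (l 16733792))) (l 16744608)) (b (a (b (l 127406070951) (l 107541856743)) (l 134922259815)) (a (l 16735288) (b (l 119889888359) (l 16731608))))) (a (b (a (l 16735880) (b (l 16728504) (l 16732800))) (l 16741896)) (b (a (b (l 131701039159) (l 115594923879)) (b (l 3) (l 136532876295))) (a (l 16734112) (b (a (l 16728008) (l 124721720823)) (l 16731072)))))) (a (b (l 16752632) (l 16761848)) (b (c (l 16737368) (l 16740360)) (l 16772120)))) (b (a (b (l 3) (c (a (b (l 139217229399) (l 123647990391)) (l 3)) (a (b (l 141901584615) (a (l 120426761847) (l 135996009063))) (l 3)))) (l 3)) (a (c (b (a (b (l 100562538391) (l 16735928)) (b (l 130090430039) (a (l 16731240) (l 116668667719)))) (a (l 16743920) (b (l 16735048) (l 16740424)))) (b (a (b (l 111299960151) (l 16734800)) (b (l 133848547735) (a (l 16730888) (l 123111119511)))) (a (l 16741624) (b (l 16734144) (l 16738736)))))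 (c (b (a (b (l 3) (l 135996009703)) (l 3)) (a (b (a (l 107541863463) (l 127942951095)) (l 93583221319)) (b (l 3) (a (l 119889897655) (l 137606627383))))) (b (a (b (l 3) (l 139754106247)) (l 3)) (a (b (a (l 116131799639) (l 132237918439)) (l 107004997607)) (b (l 3) (a (l 122574245575) (l 140827852727))))))))) (a (a (b (l 16816912) (l 16783312)) (b (a (l 16767944) (l 16804800)) (l 16844808))) (b (b (c (a (l 16751528) (a (l 16742408) (b (a (l 16735048) (l 110763094071)) (l 16739000)))) (a (l 16748240) (a (l 16740552) (b (a (l 16734312) (l 119889900727)) (l 16737736))))) (a (l 16759752) (a (l 16751632) (b (l 16743544) (l 16748656))))) (a (b (l 16769416) (l 16778304)) (b (a (l 16761712) (l 16756352)) (l 16811024)))))), by decide +kernel⟩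

def k12_pm_102_a : ∃ t, chk3 f_pm_102_a t 15 6 1 = true :=
  ⟨(a (b (l 3) (a (b (a (b (c (a (b (l 133848554071) (a (l 100025676759) (l 123647991399))) (b (l 3) (l 3))) (a (b (a (l 134922276199) (l 3)) (a (l 112373709399) (l 128479839495))) (b (l 3) (l 3)))) (c (a (b (l 16738408) (l 16743976)) (b (a (b (l 127406094695) (l 16735256)) (l 133848538871)) (a (l 16739416) (b (l 109689357303) (l 16737776))))) (a (b (l 16737336) (l 16742152)) (b (a (b (l 131164190343) (l 16734704)) (l 138143505431)) (a (l 16738304) (l 117205553575)))))) (b (l 3) (a (c (b (l 3) (a (l 126869231703) (l 3))) (b (l 3) (a (l 131701068951) (l 3)))) (l 3)))) (a (b (a (a (l 16752272) (l 16749528)) (b (c (l 16743520) (l 16741896)) (l 16748000))) (a (l 16761296) (b (l 16753264) (l 16758536)))) (b (c (a (b (a (l 93046362519) (b (l 128479836023) (l 106468136231))) (a (l 16744640) (l 16741632))) (b (l 138680390775) (a (b (l 123111136951) (l 16740048)) (b (l 3) (l 126332357191))))) (a (b (a (l 16738072) (b (l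 133311673207) (l 117742425079))) (a (l 16743008) (l 16740456))) (b (l 142438485863) (a (b (l 127406103095) (l 16739160)) (l 135459169927))))) (c (a (b (l 16748784) (l 16754440)) (b (a (l 16744304) (b (l 106468140855) (l 16742736))) (l 16748512))) (a (b (l 16746752) (l 16751808)) (b (a (l 16742944) (b (l 112910591223) (l 16741664))) (l 16746752))))))) (c (b (l 3) (a (b (l 3) (a (b (a (b (l 134385421207) (l 120963658119)) (l 3)) (a (l 90898889159) (b (l 124184878583) (l 103246920119)))) (b (l 3) (c (l 135996046199) (l 138143529399))))) (l 3))) (b (l 3) (a (b (l 3) (a (b (a (b (l 138680387207) (l 125795495239)) (l 3)) (a (l 16742960) (b (l 129553586343) (l 110226241447)))) (b (l 3) (c (l 140291012247) (l 141901623847))))) (l 3)))))) (l 3)), by decide +kernel⟩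

def k13_pm_102_a : ∃ t, chk3 f_pm_102_a t 14 7 1 = true :=
  ⟨(b (a (a (b (a (l 16815024) (l 16808896)) (l 16877184)) (b (l 16904776) (c (l 16909408) (l 16924192)))) (a (b (b (l 16784216) (l 16792392)) (b (l 16833880) (a (l 16817304) (l 16810216)))) (a (b (l 16865160) (b (l 16792504) (l 16803184))) (b (b (l 16778360) (l 16781704)) (a (l 16834576) (l 16852128)))))) (a (a (b (l 16861968) (l 16912584)) (b (l 16868664) (l 16876416))) (b (b (a (l 16826264) (a (l 16815200) (l 16891568))) (a (l 16839592) (l 16824152))) (a (l 16860648) (b (l 16858424) (l 16851104)))))), by decide +kernel⟩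

def k14_pm_102_a : ∃ t, chk3 f_pm_102_a t 60 14 1 = true :=
  ⟨(a (b (c (b (l 16771400) (l 16781376)) (b (l 16766800) (l 16776192))) (b (l 16780912) (l 16789024))) (b (b (a (b (l 16758472) (l 16763816)) (b (l 16753064) (l 16758480))) (a (l 16771736) (b (l 16763896) (l 16769288)))) (b (a (l 16780872) (l 16777040)) (l 16845200)))), by decide +kernel⟩

def k15_pm_102_a : ∃ t, chk3 f_pm_102_a t 61 28 1 = true :=
  ⟨(a (b (c (a (b (a (l 16749808) (l 16746856)) (l 16754112)) (b (a (b (l 118816179703) (l 16745344)) (b (l 140827877879) (a (l 113447470295) (l 133311688311)))) (a (l 16749712) (b (l 100025699703) (l 16748232))))) (a (b (a (l 16748104) (l 16745576)) (l 16752032)) (b (a (b (l 123648016791) (l 16744352)) (b (l 144585972823) (l 127942989383))) (a (l 16748264) (b (l 108078762919) (l 16747064)))))) (c (a (l 16762816) (b (l 16754080) (l 16759936))) (a (l 16759920) (b (l 16752264) (l 16757576))))) (b (c (a (b (l 3) (a (b (l 131164206327) (a (l 16746040) (l 119353054167)))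 (l 140291020983))) (l 3)) (a (b (l 3) (a (b (l 135459172167) (a (l 16745184) (l 123111148919))) (b (l 3) (l 143512236455)))) (l 3))) (a (c (b (a (b (l 16748232) (l 16751168)) (b (a (l 110226250247) (l 131164210343)) (a (l 16748992) (l 16747568)))) (a (l 16755592) (l 16752696))) (b (a (b (l 16747192) (l 16749832)) (b (a (l 116131829223) (l 135996047111)) (a (l 16747960) (l 108078766967)))) (a (l 16753832) (l 16751344)))) (c (b (a (b (l 3) (a (l 124184891143) (l 3))) (l 3)) (a (b (a (l 16749040) (l 117205576631)) (l 16751280)) (b (l 138680405655) (a (l 108078772679) (l 129553603639))))) (b (a (b (l 3) (a (l 129553598775) (l 3))) (l 3)) (a (b (a (l 16748136) (l 122037413303)) (l 16750184)) (b (l 142438500439) (a (l 114521222487) (l 134385440327))))))))), by decide +kernel⟩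

def k16_pm_102_a : ∃ t, chk3 f_pm_102_a t 61 29 1 = true :=
  ⟨(a (b (a (b (l 16769536) (l 16774872)) (b (l 16764312) (l 16769864))) (a (l 16781072) (b (l 16775288) (l 16780016)))) (b (b (c (a (l 16760056) (a (l 16755736) (b (a (l 16752088) (l 97341355527)) (l 16754352)))) (a (l 16757960) (a (l 16754232) (b (a (l 16751016) (l 105931289255)) (l 16753104))))) (a (a (l 16765960) (l 16763320)) (a (l 16760680) (c (l 16758840) (l 16757192))))) (a (b (l 16770272) (l 16775776)) (b (a (l 16766368) (l 16763744)) (a (l 16772040) (l 16769472)))))), by decide +kernel⟩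

def k17_pm_102_a : ∃ t, chk3 f_pm_102_a t 62 28 1 = true :=
  ⟨(l 3), by decide +kernel⟩

def k18_pm_102_a : ∃ t, chk3 f_pm_102_a t 124 29 1 = true :=
  ⟨(b (a (b (a (c (b (c (l 127406132615) (l 129553615687)) (a (l 16752200) (b (l 126332386039) (l 16751528)))) (b (c (l 132237969447) (l 134922317719)) (a (l 16751240) (b (l 130627351463) (l 16750696))))) (a (b (l 3) (c (l 135459187239) (l 139754152935))) (l 3))) (a (b (c (l 16754480) (l 16753344)) (c (l 16757480) (l 16756080))) (b (a (b (c (l 110226260951) (l 117742452103)) (c (l 16753088) (l 16752176))) (b (c (l 141364768823) (l 145122863623)) (c (l 125258647463) (l 130090484087)))) (c (c (l 85530200615) (l 90898909543)) (c (l 96267618135) (l 101099455559)))))) (b (l 3) (a (b (l 3) (c (a (b (l 131164224295) (l 108615651527)) (l 141364770999)) (a (b (l 135996060919) (l 115058100807)) (l 145122865703)))) (l 3)))) (a (b (a (c (l 16762000) (l 16760216)) (b (c (l 16757648) (l 16756360)) (l 16765152))) (a (l 16766864) (c (l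 16765216) (l 16763304)))) (b (a (a (b (c (l 16755512) (l 16754512)) (l 16763176)) (b (b (c (l 124184908967) (a (l 113447488151) (l 136532934167))) (c (l 16754864) (l 103246942439))) (c (l 16757128) (l 16756048)))) (b (a (b (l 3) (c (l 130090485815) (l 134922327655))) (l 3)) (a (c (c (l 96804494551) (l 101099461287)) (b (c (l 109152522823) (l 112910618087)) (l 16755520))) (b (c (l 139754162727) (l 143512257463)) (c (a (l 104320687511) (l 132774845223)) (a (l 111836878711) (l 135459195703))))))) (a (b (c (l 16760864) (l 16759448)) (l 16763072)) (b (a (c (l 16758752) (l 16757600)) (b (c (l 92509528743) (l 102173203863)) (c (l 16758104) (l 16757072)))) (c (l 16761088) (l 16759784))))))), by decide +kernel⟩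

def k19_pm_102_a : ∃ t, chk3 f_pm_102_a t 125 29 1 = true :=
  ⟨(b (l 3) (a (b (l 3) (a (b (a (b (c (a (l 122574299719) (l 144586003351)) (a (l 130090490535) (l 147807227175))) (c (c (l 100562593063) (l 104320688919)) (c (l 108078784439) (l 112373750615)))) (b (l 3) (c (l 139217295271) (l 142975395207)))) (a (c (c (l 16759200) (l 16758752)) (c (l 16758232) (l 16757648))) (a (b (b (c (l 115058108183) (l 121500557479)) (l 6)) (l 6)) (l 6)))) (b (l 3) (l 6)))) (l 3))), by decide +kernel⟩

def k20_pm_102_a : ∃ t, chk3 f_pm_102_a t 63 14 1 = true :=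
  ⟨(l 3), by decide +kernel⟩

def k21_pm_102_a : ∃ t, chk3 f_pm_102_a t 15 15 1 = true :=
  ⟨(a (b (a (a (b (a (l 16802024) (l 16798256)) (l 16896232)) (b (c (l 16795096) (l 16790512)) (b (l 16843240) (l 16807400)))) (a (b (a (l 16786800) (l 16804040)) (b (l 16793320) (a (l 16801304) (l 16797216)))) (a (b (b (l 16780320) (l 16781912)) (l 16853056)) (b (b (l 16776344) (l 16780200)) (a (l 16808024) (l 16826928)))))) (b (a (l 16831504) (a (b (l 16805352) (l 6)) (l 6))) (a (l 16834000) (l 6)))) (b (a (a (b (a (c (b (l 16772648) (l 16778504)) (b (l 16770112) (l 16775600))) (b (b (c (l 16765552) (l 16763816)) (a (l 16768904) (l 6))) (l 6))) (l 6)) (l 6)) (l 6)) (l 6))), by decide +kernel⟩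

theorem s22_pm_102_a : ∃ t, chk3 f_pm_102_a t 62 29 1 = true := ex3_a k18_pm_102_a k19_pm_102_a

theorem s23_pm_102_a : ∃ t, chk3 f_pm_102_a t 62 14 1 = true := ex3_b k17_pm_102_a s22_pm_102_a

theorem s24_pm_102_a : ∃ t, chk3 f_pm_102_a t 31 14 1 = true := ex3_a s23_pm_102_a k20_pm_102_a

theorem s25_pm_102_a : ∃ t, chk3 f_pm_102_a t 61 14 1 = true := ex3_b k15_pm_102_a k16_pm_102_a

theorem s26_pm_102_a : ∃ t, chk3 f_pm_102_a t 30 14 1 = true := ex3_a k14_pm_102_a s25_pm_102_a

theorem s27_pm_102_a : ∃ t, chk3 f_pm_102_a t 15 14 1 = true := ex3_a s26_pm_102_a s24_pm_102_a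

theorem s28_pm_102_a : ∃ t, chk3 f_pm_102_a t 15 7 1 = true := ex3_b s27_pm_102_a k21_pm_102_a

theorem s29_pm_102_a : ∃ t, chk3 f_pm_102_a t 7 7 1 = true := ex3_a k13_pm_102_a s28_pm_102_a

theorem s30_pm_102_a : ∃ t, chk3 f_pm_102_a t 14 6 1 = true := ex3_a k10_pm_102_a k11_pm_102_a

theorem s31_pm_102_a : ∃ t, chk3 f_pm_102_a t 7 6 1 = true := ex3_a s30_pm_102_a k12_pm_102_a

theorem s32_pm_102_a : ∃ t, chk3 f_pm_102_a t 7 3 1 = true := ex3_b s31_pm_102_a s29_pm_102_a

theorem s33_pm_102_a : ∃ t, chk3 f_pm_102_a t 3 3 1 = true := ex3_a k9_pm_102_a s32_pm_102_a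

theorem s34_pm_102_a : ∃ t, chk3 f_pm_102_a t 3 2 1 = true := ex3_a k7_pm_102_a k8_pm_102_a

theorem s35_pm_102_a : ∃ t, chk3 f_pm_102_a t 3 1 1 = true := ex3_b s34_pm_102_a s33_pm_102_a

theorem s36_pm_102_a : ∃ t, chk3 f_pm_102_a t 8 15 1 = true := ex3_a k3_pm_102_a k4_pm_102_a

theorem s37_pm_102_a : ∃ t, chk3 f_pm_102_a t 8 7 1 = true := ex3_b k2_pm_102_a s36_pm_102_a

theorem s38_pm_102_a : ∃ t, chk3 f_pm_102_a t 4 7 1 = true := ex3_a s37_pm_102_a k5_pm_102_a

theorem s39_pm_102_a : ∃ t, chk3 f_pm_102_a t 4 3 1 = true := ex3_b k1_pm_102_a s38_pm_102_a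

theorem s40_pm_102_a : ∃ t, chk3 f_pm_102_a t 2 3 1 = true := ex3_a s39_pm_102_a k6_pm_102_a

theorem s41_pm_102_a : ∃ t, chk3 f_pm_102_a t 2 1 1 = true := ex3_b k0_pm_102_a s40_pm_102_a

theorem s42_pm_102_a : ∃ t, chk3 f_pm_102_a t 1 1 1 = true := ex3_a s41_pm_102_a s35_pm_102_a

theorem c_pm_102_a : CertN 536870912 536870912 0 536870912 469762048 67108864 3 false true false .npp 1 0 2
    ndN0q1 ndN1q2a pcN0 cut_pm_102_a Ext.none :=
  certN0 (fam := false) (s1 := true) (s2 := false) (a := 1) (b := 0) (c := 2) (cn := .npp) (n1 := ndN0q1) (n2 := ndN1q2a) (pc := pcN0) (cut := cut_pm_102_a) (xt := Ext.none) (P1 := 536870912) (W1 := 536870912) (P2 := 0) (W2 := 536870912) (P3 := 469762048) (W3 := 67108864) (N0 := 3)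
    rfl s42_pm_102_a

noncomputable def cut_pm_102_b : Cut := Cut.of [[⟨0, 1, 0, 67108864⟩, ⟨1, 0, 0, 67108864⟩, ⟨2, 1, 0, 67108864⟩], [⟨0, 0, 1, 33554432⟩, ⟨1, 1, 2, 33554432⟩, ⟨2, 1, 0, 33554432⟩]]

noncomputable def f_pm_102_b : ℕ → ℕ → ℕ → ℕ → Bool := onCell 536870912 536870912 0 536870912 469762048 67108864
    (rowN 3 1 false true false .npp 1 0 2 (qsf 536870912 536870912 1239849684 370763052 0) ndN0q1 ndN1q2b pcN0 cut_pm_102_b Ext.none)

def k0_pm_102_b : ∃ t, chk3 f_pm_102_b t 1 1 1 = true :=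
  ⟨(a (b (l 1) (b (l 1) (a (l 1) (b (a (l 1) (a (a (l 1) (l 359200323895)) (a (l 214782280359) (l 180422539479)))) (a (a (l 278132907671) (l 220687980711)) (a (l 16897296) (l 16794336))))))) (b (a (l 1) (l 3)) (b (a (b (a (l 1) (l 3)) (a (b (a (l 1) (b (l 1) (a (l 1) (a (l 1) (b (l 1) (l 16757536)))))) (a (b (l 1) (l 205118353287)) (a (c (l 16816712) (l 80564265623)) (b (a (l 16748848) (l 16760536)) (l 16768464))))) (a (a (b (b (l 3) (b (l 3) (l 138143534615))) (a (b (l 126869294839) (l 16734120)) (a (l 218674244039) (l 3)))) (l 3)) (l 3)))) (l 3)) (a (a (b (b (a (b (l 16780960) (l 16784168)) (b (a (l 16766560) (l 16751456)) (l 16763656))) (a (l 16787200) (l 16769184))) (a (b (l 16792864) (l 16802160)) (b (l 16778488) (l 16792360)))) (b (a (a (b (b (l 150491562439) (l 139217274903)) (b (l 16748176) (l 16753512))) (b (b (l 3) (l 155860238167)) (b (l 154249639143) (l 154249651319)))) (l 3)) (a (b (a (l 16763720) (b (l 153712780519) (l 16757600))) (a (l 16781840) (l 16773928)))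 (a (b (l 215989808951) (l 154786571831)) (l 3))))) (l 3))))), by decide +kernel⟩

theorem c_pm_102_b : CertN 536870912 536870912 1239849684 370763052 469762048 67108864 3 false true false .npp 1 0 2
    ndN0q1 ndN1q2b pcN0 cut_pm_102_b Ext.none :=
  certN1 (fam := false) (s1 := true) (s2 := false) (a := 1) (b := 0) (c := 2) (cn := .npp) (n1 := ndN0q1) (n2 := ndN1q2b) (pc := pcN0) (cut := cut_pm_102_b) (xt := Ext.none) (P1 := 536870912) (W1 := 536870912) (P2 := 1239849684) (W2 := 370763052) (P3 := 469762048) (W3 := 67108864) (N0 := 3)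
    rfl (fun _ => rfl) k0_pm_102_b

noncomputable def cut_pm_112_a : Cut := Cut.of [[⟨0, 0, 1, 33554432⟩, ⟨1, 1, 2, 33554432⟩, ⟨2, 1, 0, 33554432⟩]]

noncomputable def f_pm_112_a : ℕ → ℕ → ℕ → ℕ → Bool := onCell 536870912 536870912 0 536870912 469762048 67108864
    (rowN 3 2 false true false .dn 1 1 2 (qsf 536870912 536870912 0 536870912 1) ndN0q1 ndN1q2a pcN1 cut_pm_112_a Ext.none)

def k0_pm_112_a : ∃ t, chk3 f_pm_112_a t 1 1 1 = true :=
  ⟨(a (a (b (a (a (b (l 16948944) (b (l 16949376) (l 16884024))) (b (l 16982696) (l 16953136))) (b (a (b (l 16945080) (l 17029096)) (b (a (l 16967496) (l 16992128)) (l 17014400))) (a (b (l 16992640) (l 16930072)) (b (l 16961872) (l 16882240))))) (b (a (b (a (l 16838112) (l 16855672)) (a (l 16778360) (b (l 16815536) (l 16780512)))) (b (a (l 16845832) (l 16782272)) (a (b (l 16771504) (l 16712664)) (l 189011870055)))) (a (b (a (b (a (l 16769152) (l 16769520)) (a (b (l 16755880) (l 16743752)) (b (l 16745256) (l 16719776)))) (b (l 16734080)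 (b (l 16669352) (l 16657960)))) (a (b (a (b (a (l 16732296) (l 16717984)) (l 16592392)) (b (l 16689472) (l 16594280))) (b (a (a (l 16570592) (l 16571360)) (l 138008898311)) (a (a (a (b (l 16551000) (c (c (l 16715792) (b (l 16668784) (l 16639472))) (b (l 16549720) (c (c (l 10233748903) (l 6)) (l 6))))) (b (l 3254298935) (c (l 156262676647) (l 138545846807)))) (b (l 136935151527) (l 1))) (l 1)))) (b (a (l 153041307575) (l 1)) (l 1)))) (b (a (b (l 16656808) (l 1)) (l 1)) (l 1))))) (b (a (b (a (b (l 17002792) (l 16961544)) (l 16920552)) (a (l 16850904) (l 1))) (l 1)) (b (l 1) (l 1)))) (l 1)), by decide +kernel⟩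

theorem c_pm_112_a : CertN 536870912 536870912 0 536870912 469762048 67108864 3 false true false .dn 1 1 2
    ndN0q1 ndN1q2a pcN1 cut_pm_112_a Ext.none :=
  certN2 (fam := false) (s1 := true) (s2 := false) (a := 1) (b := 1) (c := 2) (cn := .dn) (n1 := ndN0q1) (n2 := ndN1q2a) (pc := pcN1) (cut := cut_pm_112_a) (xt := Ext.none) (P1 := 536870912) (W1 := 536870912) (P2 := 0) (W2 := 536870912) (P3 := 469762048) (W3 := 67108864) (N0 := 3)
    rfl (fun _ => rfl) k0_pm_112_a

noncomputable def cut_pm_112_b : Cut := Cut.of [[⟨0, 0, 1, 33554432⟩, ⟨1, 1, 2, 33554432⟩, ⟨2, 1, 0, 33554432⟩]]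

noncomputable def f_pm_112_b : ℕ → ℕ → ℕ → ℕ → Bool := onCell 536870912 536870912 536870912 536870912 469762048 67108864
    (rowN 3 1 false true false .dn 1 1 2 (qsf 536870912 536870912 1239849684 370763052 1) ndN0q1 ndN1q2b pcN1 cut_pm_112_b Ext.none)

def k0_pm_112_b : ∃ t, chk3 f_pm_112_b t 1 1 1 = true :=
  ⟨(a (b (b (a (a (b (l 1) (a (b (l 1) (l 295849764407)) (l 324303907575))) (a (b (l 473553960055) (l 248604738151)) (b (l 262563997127) (l 16867840)))) (b (a (l 94523441927) (l 16956984)) (a (l 16757912) (l 16860152)))) (a (a (b (a (l 239478108551) (l 16925688)) (a (l 16846512) (l 16804528))) (b (l 16980984) (a (l 16708384) (l 16716760)))) (a (b (l 16776960) (l 16818800)) (b (l 16933784) (l 16989304))))) (b (a (a (b (a (l 16645208) (l 16603224)) (l 16460808)) (b (l 16689776) (l 16713672))) (a (l 16878832) (l 17002248))) (a (a (b (a (l 16384624) (l 16536152)) (a (l 16392880) (l 16564368))) (b (l 16794144) (l 79021187111))) (b (a (l 16928776) (l 2)) (l 2))))) (b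 (b (a (b (a (b (l 16814512) (l 16849352)) (a (b (l 16803544) (l 16859776)) (b (l 155323498471) (a (l 16865360) (l 154249729463))))) (a (b (l 16907136) (l 16974656)) (b (a (l 16951784) (a (l 16971256) (l 142438759303))) (a (l 17053280) (l 17059840))))) (a (b (l 3) (a (b (l 239075715719) (a (l 141902060935) (l 3))) (l 3))) (l 3))) (a (a (b (l 17081704) (l 17145912)) (b (b (l 17063504) (l 17122608)) (l 262631538263))) (a (b (a (b (l 319002645799) (l 2)) (l 2)) (l 2)) (l 2)))) (b (a (b (l 205186569895) (l 2)) (l 2)) (l 2)))), by decide +kernel⟩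

theorem c_pm_112_b : CertN 536870912 536870912 1239849684 370763052 469762048 67108864 3 false true false .dn 1 1 2
    ndN0q1 ndN1q2b pcN1 cut_pm_112_b Ext.none :=
  certN1 (fam := false) (s1 := true) (s2 := false) (a := 1) (b := 1) (c := 2) (cn := .dn) (n1 := ndN0q1) (n2 := ndN1q2b) (pc := pcN1) (cut := cut_pm_112_b) (xt := Ext.none) (P1 := 536870912) (W1 := 536870912) (P2 := 1239849684) (W2 := 370763052) (P3 := 469762048) (W3 := 67108864) (N0 := 3)
    rfl (fun _ => rfl) k0_pm_112_b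

noncomputable def cut_pm_113 : Cut := Cut.of [[⟨0, 1, 0, 67108864⟩, ⟨1, 1, 0, 67108864⟩, ⟨2, 2, 0, 16777216⟩]]

noncomputable def f_pm_113 : ℕ → ℕ → ℕ → ℕ → Bool := onCell 536870912 536870912 536870912 536870912 469762048 67108864
    (rowN 3 1 false true false .nn 1 1 3 (qsf 536870912 536870912 1610612736 536870912 1) ndN0q1 ndN1q3 pcN1 cut_pm_113 Ext.none)

def k0_pm_113 : ∃ t, chk3 f_pm_113 t 1 1 1 = true :=
  ⟨(a (b (b (l 1) (a (l 1) (a (l 1) (l 210487776759)))) (b (a (a (l 1) (b (l 1) (l 16847584))) (b (l 17259336) (l 17172096))) (a (a (b (l 16628504) (a (l 16564720) (l 16695296))) (b (l 16862872) (a (l 16826480) (l 16925664)))) (b (a (l 16995576) (l 17044024)) (a (l 16998816) (l 17031232)))))) (b (b (a (b (l 1) (a (l 1) (a (l 1) (b (l 1) (l 117608349287))))) (a (b (l 3) (a (a (b (l 1) (b (l 133311996951) (l 128480216791))) (l 3)) (l 3))) (l 3))) (a (b (a (l 16921856) (a (l 16966000) (b (l 16993984) (l 17015856)))) (a (l 17039104) (b (l 17086512) (l 17079728))))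 (a (b (a (b (a (b (l 123648491047) (l 17007280)) (l 225654011047)) (a (l 17034080) (l 131701748967))) (l 3)) (a (b (l 122575037031) (l 17086336)) (b (l 244981487031) (l 152639845703)))) (l 3)))) (b (a (b (a (l 17145280) (l 17117496)) (a (l 17105016) (l 17094704))) (a (b (a (l 17098184) (b (l 144586454759) (l 17077200))) (a (l 17066088) (l 17081568))) (a (b (l 238002244727) (a (l 17142584) (l 242297214167))) (l 3)))) (a (b (a (l 17054600) (l 17029720)) (a (l 17024240) (l 16984304))) (a (b (a (l 16995224) (l 16967040)) (a (l 17024408) (l 16906952))) (b (b (a (l 16952792) (l 247128677591)) (a (l 16918800) (a (l 207400192567) (l 3)))) (a (b (l 16886520) (l 16855368)) (a (b (b (l 16888800) (l 16851064)) (l 16825896)) (a (b (b (l 258939734855) (l 263771533079)) (b (a (l 16822128) (l 16843440)) (a (l 16804672) (l 16820488)))) (b (l 3) (a (b (b (l 264308349735) (l 275582623847)) (a (l 16827104) (b (l 16797600) (l 6)))) (b (l 3) (b (b (l 239075365447) (l 224042970855)) (l 6)))))))))))))),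 by decide +kernel⟩

theorem c_pm_113 : CertN 536870912 536870912 1610612736 536870912 469762048 67108864 3 false true false .nn 1 1 3
    ndN0q1 ndN1q3 pcN1 cut_pm_113 Ext.none :=
  certN1 (fam := false) (s1 := true) (s2 := false) (a := 1) (b := 1) (c := 3) (cn := .nn) (n1 := ndN0q1) (n2 := ndN1q3) (pc := pcN1) (cut := cut_pm_113) (xt := Ext.none) (P1 := 536870912) (W1 := 536870912) (P2 := 1610612736) (W2 := 536870912) (P3 := 469762048) (W3 := 67108864) (N0 := 3)
    rfl (fun _ => rfl) k0_pm_113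

noncomputable def cut_pm_123 : Cut := Cut.of [[⟨0, 1, 0, 67108864⟩, ⟨1, 1, 0, 67108864⟩, ⟨2, 2, 0, 16777216⟩]]

noncomputable def f_pm_123 : ℕ → ℕ → ℕ → ℕ → Bool := onCell 536870912 536870912 1610612736 536870912 469762048 67108864
    (rowN 3 0 false true false .npn 1 2 3 (qsf 536870912 536870912 1610612736 536870912 2) ndN0q1 ndN1q3 pcN2 cut_pm_123 Ext.none)

def k0_pm_123 : ∃ t, chk3 f_pm_123 t 1 1 1 = true :=
  ⟨(a (b (a (a (b (b (a (l 16596152) (l 304439261815)) (a (l 16674144) (l 16743056))) (b (l 16759448) (l 16801160))) (a (b (l 324303723543) (l 16849248)) (b (l 340946977607) (l 16908480)))) (b (a (l 349000325063) (l 1)) (a (l 324841376711) (l 315714762743)))) (a (b (a (l 16844680) (l 16861856)) (a (l 16864432) (b (l 16853552) (l 16845984)))) (b (a (l 16890832) (l 16928896)) (a (l 16836344) (l 16830472))))) (b (a (b (l 1) (a (l 346316057511) (l 1))) (l 1)) (a (b (a (l 274375493223) (b (l 424162575847) (l 16971824))) (a (l 16831880) (b (l 16880672) (a (l 16807640)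 (b (l 16826440) (l 16795280)))))) (a (a (b (b (l 1) (l 509524921687)) (b (l 16938200) (l 16812320))) (b (l 1) (b (l 561064091527) (l 16815720)))) (b (l 1) (a (b (a (l 619583046919) (l 1)) (b (l 640520769831) (l 16798144))) (b (l 1) (a (b (l 693134032455) (l 196528386455)) (b (l 1) (b (a (l 738768022615) (l 1)) (a (l 16788280) (b (l 717829995255) (l 6))))))))))))), by decide +kernel⟩

theorem c_pm_123 : CertN 536870912 536870912 1610612736 536870912 469762048 67108864 3 false true false .npn 1 2 3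
    ndN0q1 ndN1q3 pcN2 cut_pm_123 Ext.none :=
  certN0 (fam := false) (s1 := true) (s2 := false) (a := 1) (b := 2) (c := 3) (cn := .npn) (n1 := ndN0q1) (n2 := ndN1q3) (pc := pcN2) (cut := cut_pm_123) (xt := Ext.none) (P1 := 536870912) (W1 := 536870912) (P2 := 1610612736) (W2 := 536870912) (P3 := 469762048) (W3 := 67108864) (N0 := 3)
    rfl k0_pm_123

noncomputable def f_pm_133 : ℕ → ℕ → ℕ → ℕ → Bool := onCell 536870912 536870912 1610612736 536870912 469762048 67108864
    (rowN 3 0 false true false .dn 1 3 3 (qsf 536870912 536870912 1610612736 536870912 3) ndN0q1 ndN1q3 pcN3 Cut.none Ext.none)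

def k0_pm_133 : ∃ t, chk3 f_pm_133 t 1 1 1 = true :=
  ⟨(a (b (l 1) (a (b (l 1) (a (l 16827200) (l 1))) (l 1))) (l 1)), by decide +kernel⟩

theorem c_pm_133 : CertN 536870912 536870912 1610612736 536870912 469762048 67108864 3 false true false .dn 1 3 3
    ndN0q1 ndN1q3 pcN3 Cut.none Ext.none :=
  certN0 (fam := false) (s1 := true) (s2 := false) (a := 1) (b := 3) (c := 3) (cn := .dn) (n1 := ndN0q1) (n2 := ndN1q3) (pc := pcN3) (cut := Cut.none) (xt := Ext.none) (P1 := 536870912) (W1 := 536870912) (P2 := 1610612736) (W2 := 536870912) (P3 := 469762048) (W3 := 67108864) (N0 := 3)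
    rfl k0_pm_133

noncomputable def cut_pm_202_a : Cut := Cut.of [[⟨0, 1, 0, 67108864⟩, ⟨1, 0, 0, 67108864⟩, ⟨2, 1, 0, 67108864⟩]]

noncomputable def f_pm_202_a : ℕ → ℕ → ℕ → ℕ → Bool := onCell 0 536870912 0 536870912 469762048 67108864
    (rowN 3 0 false true false .pp 2 0 2 (qsf 0 536870912 0 536870912 0) ndN0q2 ndN1q2a pcN0 cut_pm_202_a Ext.none)

def k0_pm_202_a : ∃ t, chk3 f_pm_202_a t 1 1 1 = true :=
  ⟨(a (l 3) (b (l 3) (a (l 3) (b (l 3) (a (l 3) (b (l 3) (l 6))))))), by decide +kernel⟩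

theorem c_pm_202_a : CertN 0 536870912 0 536870912 469762048 67108864 3 false true false .pp 2 0 2
    ndN0q2 ndN1q2a pcN0 cut_pm_202_a Ext.none :=
  certN0 (fam := false) (s1 := true) (s2 := false) (a := 2) (b := 0) (c := 2) (cn := .pp) (n1 := ndN0q2) (n2 := ndN1q2a) (pc := pcN0) (cut := cut_pm_202_a) (xt := Ext.none) (P1 := 0) (W1 := 536870912) (P2 := 0) (W2 := 536870912) (P3 := 469762048) (W3 := 67108864) (N0 := 3)
    rfl k0_pm_202_a

noncomputable def cut_pm_202_b : Cut := Cut.of [[⟨0, 1, 0, 67108864⟩, ⟨1, 0, 0, 67108864⟩, ⟨2, 1, 0, 67108864⟩]]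

noncomputable def f_pm_202_b : ℕ → ℕ → ℕ → ℕ → Bool := onCell 0 536870912 1239849684 370763052 469762048 67108864
    (rowN 3 0 false true false .pp 2 0 2 (qsf 0 536870912 1239849684 370763052 0) ndN0q2 ndN1q2b pcN0 cut_pm_202_b Ext.none)

def k0_pm_202_b : ∃ t, chk3 f_pm_202_b t 1 1 1 = true :=
  ⟨(l 3), by decide +kernel⟩

theorem c_pm_202_b : CertN 0 536870912 1239849684 370763052 469762048 67108864 3 false true false .pp 2 0 2
    ndN0q2 ndN1q2b pcN0 cut_pm_202_b Ext.none :=
  certN0 (fam := false) (s1 := true) (s2 := false) (a := 2) (b := 0) (c := 2) (cn := .pp) (n1 := ndN0q2) (n2 := ndN1q2b) (pc := pcN0) (cut := cut_pm_202_b) (xt := Ext.none) (P1 := 0) (W1 := 536870912) (P2 := 1239849684) (W2 := 370763052) (P3 := 469762048) (W3 := 67108864) (N0 := 3)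
    rfl k0_pm_202_b

noncomputable def f_pm_203 : ℕ → ℕ → ℕ → ℕ → Bool := onCell 0 536870912 0 536870912 469762048 67108864
    (rowN 3 1 false true false .up 2 0 3 (qsf 0 536870912 1610612736 536870912 0) ndN0q2 ndN1q3 pcN0 Cut.none Ext.none)

def k0_pm_203 : ∃ t, chk3 f_pm_203 t 1 1 1 = true :=
  ⟨(l 3), by decide +kernel⟩

theorem c_pm_203 : CertN 0 536870912 1610612736 536870912 469762048 67108864 3 false true false .up 2 0 3
    ndN0q2 ndN1q3 pcN0 Cut.none Ext.none :=
  certN1 (fam := false) (s1 := true) (s2 := false) (a := 2) (b := 0) (c := 3) (cn := .up) (n1 := ndN0q2) (n2 := ndN1q3) (pc := pcN0) (cut := Cut.none) (xt := Ext.none) (P1 := 0) (W1 := 536870912) (P2 := 1610612736) (W2 := 536870912) (P3 := 469762048) (W3 := 67108864) (N0 := 3)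
    rfl (fun _ => rfl) k0_pm_203

noncomputable def cut_pm_213 : Cut := Cut.of [[⟨0, 1, 0, 67108864⟩, ⟨1, 1, 0, 67108864⟩, ⟨2, 2, 0, 16777216⟩]]

noncomputable def f_pm_213 : ℕ → ℕ → ℕ → ℕ → Bool := onCell 0 536870912 1610612736 536870912 469762048 67108864
    (rowN 3 0 false true false .pnn 2 1 3 (qsf 0 536870912 1610612736 536870912 1) ndN0q2 ndN1q3 pcN1 cut_pm_213 Ext.none)

def k0_pm_213 : ∃ t, chk3 f_pm_213 t 1 1 1 = true :=
  ⟨(b (l 3) (a (l 3) (b (l 3) (a (l 3) (a (l 3) (b (l 3) (a (l 3) (a (l 3) (b (l 3) (b (l 3) (b (l 3) (l 6)))))))))))), by decide +kernel⟩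

theorem c_pm_213 : CertN 0 536870912 1610612736 536870912 469762048 67108864 3 false true false .pnn 2 1 3
    ndN0q2 ndN1q3 pcN1 cut_pm_213 Ext.none :=
  certN0 (fam := false) (s1 := true) (s2 := false) (a := 2) (b := 1) (c := 3) (cn := .pnn) (n1 := ndN0q2) (n2 := ndN1q3) (pc := pcN1) (cut := cut_pm_213) (xt := Ext.none) (P1 := 0) (W1 := 536870912) (P2 := 1610612736) (W2 := 536870912) (P3 := 469762048) (W3 := 67108864) (N0 := 3)
    rfl k0_pm_213

noncomputable def f_mm_001 : ℕ → ℕ → ℕ → ℕ → Bool := onCell 0 536870912 536870912 536870912 469762048 67108864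
    (rowN 3 0 false false false .up 0 0 1 (qsf 0 536870912 536870912 536870912 0) ndN0q0 ndN1q1 pcN0 Cut.none Ext.none)

def k0_mm_001 : ∃ t, chk3 f_mm_001 t 1 1 1 = true :=
  ⟨(l 3), by decide +kernel⟩

theorem c_mm_001 : CertN 0 536870912 536870912 536870912 469762048 67108864 3 false false false .up 0 0 1
    ndN0q0 ndN1q1 pcN0 Cut.none Ext.none :=
  certN0 (fam := false) (s1 := false) (s2 := false) (a := 0) (b := 0) (c := 1) (cn := .up) (n1 := ndN0q0) (n2 := ndN1q1) (pc := pcN0) (cut := Cut.none) (xt := Ext.none) (P1 := 0) (W1 := 536870912) (P2 := 536870912) (W2 := 536870912) (P3 := 469762048) (W3 := 67108864) (N0 := 3)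
    rfl k0_mm_001

noncomputable def f_mm_011 : ℕ → ℕ → ℕ → ℕ → Bool := onCell 0 536870912 536870912 536870912 469762048 67108864
    (rowN 3 0 false false false .pnn 0 1 1 (qsf 0 536870912 536870912 536870912 1) ndN0q0 ndN1q1 pcN1 Cut.none Ext.none)

def k0_mm_011 : ∃ t, chk3 f_mm_011 t 1 1 1 = true :=
  ⟨(l 3), by decide +kernel⟩

theorem c_mm_011 : CertN 0 536870912 536870912 536870912 469762048 67108864 3 false false false .pnn 0 1 1
    ndN0q0 ndN1q1 pcN1 Cut.none Ext.none :=
  certN0 (fam := false) (s1 := false) (s2 := false) (a := 0) (b := 1) (c := 1) (cn := .pnn) (n1 := ndN0q0) (n2 := ndN1q1) (pc := pcN1) (cut := Cut.none) (xt := Ext.none) (P1 := 0) (W1 := 536870912) (P2 := 536870912) (W2 := 536870912) (P3 := 469762048) (W3 := 67108864) (N0 := 3)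
    rfl k0_mm_011

noncomputable def f_mm_012_a : ℕ → ℕ → ℕ → ℕ → Bool := onCell 0 536870912 0 536870912 469762048 67108864
    (rowN 3 0 false false false .pnp 0 1 2 (qsf 0 536870912 0 536870912 1) ndN0q0 ndN1q2a pcN1 Cut.none Ext.none)

def k0_mm_012_a : ∃ t, chk3 f_mm_012_a t 1 1 1 = true :=
  ⟨(l 5), by decide +kernel⟩

theorem c_mm_012_a : CertN 0 536870912 0 536870912 469762048 67108864 3 false false false .pnp 0 1 2
    ndN0q0 ndN1q2a pcN1 Cut.none Ext.none :=
  certN0 (fam := false) (s1 := false) (s2 := false) (a := 0) (b := 1) (c := 2) (cn := .pnp) (n1 := ndN0q0) (n2 := ndN1q2a) (pc := pcN1) (cut := Cut.none) (xt := Ext.none) (P1 := 0) (W1 := 536870912) (P2 := 0) (W2 := 536870912) (P3 := 469762048) (W3 := 67108864) (N0 := 3)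
    rfl k0_mm_012_a

noncomputable def f_mm_012_b : ℕ → ℕ → ℕ → ℕ → Bool := onCell 0 536870912 1239849684 370763052 469762048 67108864
    (rowN 3 0 false false false .pnp 0 1 2 (qsf 0 536870912 1239849684 370763052 1) ndN0q0 ndN1q2b pcN1 Cut.none Ext.none)

def k0_mm_012_b : ∃ t, chk3 f_mm_012_b t 1 1 1 = true :=
  ⟨(l 5), by decide +kernel⟩

theorem c_mm_012_b : CertN 0 536870912 1239849684 370763052 469762048 67108864 3 false false false .pnp 0 1 2
    ndN0q0 ndN1q2b pcN1 Cut.none Ext.none :=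
  certN0 (fam := false) (s1 := false) (s2 := false) (a := 0) (b := 1) (c := 2) (cn := .pnp) (n1 := ndN0q0) (n2 := ndN1q2b) (pc := pcN1) (cut := Cut.none) (xt := Ext.none) (P1 := 0) (W1 := 536870912) (P2 := 1239849684) (W2 := 370763052) (P3 := 469762048) (W3 := 67108864) (N0 := 3)
    rfl k0_mm_012_b

noncomputable def f_mm_022_a : ℕ → ℕ → ℕ → ℕ → Bool := onCell 0 536870912 0 536870912 469762048 67108864
    (rowN 3 0 false false false .pp 0 2 2 (qsf 0 536870912 0 536870912 2) ndN0q0 ndN1q2a pcN2 Cut.none Ext.none)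

def k0_mm_022_a : ∃ t, chk3 f_mm_022_a t 1 1 1 = true :=
  ⟨(l 5), by decide +kernel⟩

theorem c_mm_022_a : CertN 0 536870912 0 536870912 469762048 67108864 3 false false false .pp 0 2 2
    ndN0q0 ndN1q2a pcN2 Cut.none Ext.none :=
  certN0 (fam := false) (s1 := false) (s2 := false) (a := 0) (b := 2) (c := 2) (cn := .pp) (n1 := ndN0q0) (n2 := ndN1q2a) (pc := pcN2) (cut := Cut.none) (xt := Ext.none) (P1 := 0) (W1 := 536870912) (P2 := 0) (W2 := 536870912) (P3 := 469762048) (W3 := 67108864) (N0 := 3)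
    rfl k0_mm_022_a

noncomputable def f_mm_022_b : ℕ → ℕ → ℕ → ℕ → Bool := onCell 0 536870912 1239849684 370763052 469762048 67108864
    (rowN 3 0 false false false .pp 0 2 2 (qsf 0 536870912 1239849684 370763052 2) ndN0q0 ndN1q2b pcN2 Cut.none Ext.none)

def k0_mm_022_b : ∃ t, chk3 f_mm_022_b t 1 1 1 = true :=
  ⟨(l 5), by decide +kernel⟩

theorem c_mm_022_b : CertN 0 536870912 1239849684 370763052 469762048 67108864 3 false false false .pp 0 2 2
    ndN0q0 ndN1q2b pcN2 Cut.none Ext.none :=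
  certN0 (fam := false) (s1 := false) (s2 := false) (a := 0) (b := 2) (c := 2) (cn := .pp) (n1 := ndN0q0) (n2 := ndN1q2b) (pc := pcN2) (cut := Cut.none) (xt := Ext.none) (P1 := 0) (W1 := 536870912) (P2 := 1239849684) (W2 := 370763052) (P3 := 469762048) (W3 := 67108864) (N0 := 3)
    rfl k0_mm_022_b

noncomputable def f_mm_023 : ℕ → ℕ → ℕ → ℕ → Bool := onCell 0 536870912 1610612736 536870912 469762048 67108864
    (rowN 3 0 false false false .up 0 2 3 (qsf 0 536870912 1610612736 536870912 2) ndN0q0 ndN1q3 pcN2 Cut.none Ext.none)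

def k0_mm_023 : ∃ t, chk3 f_mm_023 t 1 1 1 = true :=
  ⟨(l 5), by decide +kernel⟩

theorem c_mm_023 : CertN 0 536870912 1610612736 536870912 469762048 67108864 3 false false false .up 0 2 3
    ndN0q0 ndN1q3 pcN2 Cut.none Ext.none :=
  certN0 (fam := false) (s1 := false) (s2 := false) (a := 0) (b := 2) (c := 3) (cn := .up) (n1 := ndN0q0) (n2 := ndN1q3) (pc := pcN2) (cut := Cut.none) (xt := Ext.none) (P1 := 0) (W1 := 536870912) (P2 := 1610612736) (W2 := 536870912) (P3 := 469762048) (W3 := 67108864) (N0 := 3)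
    rfl k0_mm_023

noncomputable def f_mm_033 : ℕ → ℕ → ℕ → ℕ → Bool := onCell 0 536870912 1610612736 536870912 469762048 67108864
    (rowN 3 0 false false false .pnn 0 3 3 (qsf 0 536870912 1610612736 536870912 3) ndN0q0 ndN1q3 pcN3 Cut.none Ext.none)

def k0_mm_033 : ∃ t, chk3 f_mm_033 t 1 1 1 = true :=
  ⟨(l 5), by decide +kernel⟩

theorem c_mm_033 : CertN 0 536870912 1610612736 536870912 469762048 67108864 3 false false false .pnn 0 3 3
    ndN0q0 ndN1q3 pcN3 Cut.none Ext.none :=
  certN0 (fam := false) (s1 := false) (s2 := false) (a := 0) (b := 3) (c := 3) (cn := .pnn) (n1 := ndN0q0) (n2 := ndN1q3) (pc := pcN3) (cut := Cut.none) (xt := Ext.none) (P1 := 0) (W1 := 536870912) (P2 := 1610612736) (W2 := 536870912) (P3 := 469762048) (W3 := 67108864) (N0 := 3)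
    rfl k0_mm_033

noncomputable def f_mm_101 : ℕ → ℕ → ℕ → ℕ → Bool := onCell 536870912 536870912 536870912 536870912 469762048 67108864
    (rowN 3 0 false false false .npn 1 0 1 (qsf 536870912 536870912 536870912 536870912 0) ndN0q1 ndN1q1 pcN0 Cut.none Ext.none)

def k0_mm_101 : ∃ t, chk3 f_mm_101 t 1 1 1 = true :=
  ⟨(l 3), by decide +kernel⟩

theorem c_mm_101 : CertN 536870912 536870912 536870912 536870912 469762048 67108864 3 false false false .npn 1 0 1
    ndN0q1 ndN1q1 pcN0 Cut.none Ext.none :=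
  certN0 (fam := false) (s1 := false) (s2 := false) (a := 1) (b := 0) (c := 1) (cn := .npn) (n1 := ndN0q1) (n2 := ndN1q1) (pc := pcN0) (cut := Cut.none) (xt := Ext.none) (P1 := 536870912) (W1 := 536870912) (P2 := 536870912) (W2 := 536870912) (P3 := 469762048) (W3 := 67108864) (N0 := 3)
    rfl k0_mm_101

noncomputable def f_mm_102_a : ℕ → ℕ → ℕ → ℕ → Bool := onCell 536870912 536870912 0 536870912 469762048 67108864
    (rowN 3 0 false false false .npp 1 0 2 (qsf 536870912 536870912 0 536870912 0) ndN0q1 ndN1q2a pcN0 Cut.none Ext.none)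

def k0_mm_102_a : ∃ t, chk3 f_mm_102_a t 1 1 1 = true :=
  ⟨(l 3), by decide +kernel⟩

theorem c_mm_102_a : CertN 536870912 536870912 0 536870912 469762048 67108864 3 false false false .npp 1 0 2
    ndN0q1 ndN1q2a pcN0 Cut.none Ext.none :=
  certN0 (fam := false) (s1 := false) (s2 := false) (a := 1) (b := 0) (c := 2) (cn := .npp) (n1 := ndN0q1) (n2 := ndN1q2a) (pc := pcN0) (cut := Cut.none) (xt := Ext.none) (P1 := 536870912) (W1 := 536870912) (P2 := 0) (W2 := 536870912) (P3 := 469762048) (W3 := 67108864) (N0 := 3)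
    rfl k0_mm_102_a

noncomputable def f_mm_102_b : ℕ → ℕ → ℕ → ℕ → Bool := onCell 536870912 536870912 1239849684 370763052 469762048 67108864
    (rowN 3 0 false false false .npp 1 0 2 (qsf 536870912 536870912 1239849684 370763052 0) ndN0q1 ndN1q2b pcN0 Cut.none Ext.none)

def k0_mm_102_b : ∃ t, chk3 f_mm_102_b t 1 1 1 = true :=
  ⟨(l 5), by decide +kernel⟩

theorem c_mm_102_b : CertN 536870912 536870912 1239849684 370763052 469762048 67108864 3 false false false .npp 1 0 2
    ndN0q1 ndN1q2b pcN0 Cut.none Ext.none :=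
  certN0 (fam := false) (s1 := false) (s2 := false) (a := 1) (b := 0) (c := 2) (cn := .npp) (n1 := ndN0q1) (n2 := ndN1q2b) (pc := pcN0) (cut := Cut.none) (xt := Ext.none) (P1 := 536870912) (W1 := 536870912) (P2 := 1239849684) (W2 := 370763052) (P3 := 469762048) (W3 := 67108864) (N0 := 3)
    rfl k0_mm_102_b

noncomputable def f_mm_112_a : ℕ → ℕ → ℕ → ℕ → Bool := onCell 536870912 536870912 0 536870912 469762048 67108864
    (rowN 3 0 false false false .dn 1 1 2 (qsf 536870912 536870912 0 536870912 1) ndN0q1 ndN1q2a pcN1 Cut.none Ext.none)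

def k0_mm_112_a : ∃ t, chk3 f_mm_112_a t 1 1 1 = true :=
  ⟨(l 3), by decide +kernel⟩

theorem c_mm_112_a : CertN 536870912 536870912 0 536870912 469762048 67108864 3 false false false .dn 1 1 2
    ndN0q1 ndN1q2a pcN1 Cut.none Ext.none :=
  certN0 (fam := false) (s1 := false) (s2 := false) (a := 1) (b := 1) (c := 2) (cn := .dn) (n1 := ndN0q1) (n2 := ndN1q2a) (pc := pcN1) (cut := Cut.none) (xt := Ext.none) (P1 := 536870912) (W1 := 536870912) (P2 := 0) (W2 := 536870912) (P3 := 469762048) (W3 := 67108864) (N0 := 3)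
    rfl k0_mm_112_a

noncomputable def f_mm_112_b : ℕ → ℕ → ℕ → ℕ → Bool := onCell 536870912 536870912 1239849684 370763052 469762048 67108864
    (rowN 3 0 false false false .dn 1 1 2 (qsf 536870912 536870912 1239849684 370763052 1) ndN0q1 ndN1q2b pcN1 Cut.none Ext.none)

def k0_mm_112_b : ∃ t, chk3 f_mm_112_b t 1 1 1 = true :=
  ⟨(l 5), by decide +kernel⟩

theorem c_mm_112_b : CertN 536870912 536870912 1239849684 370763052 469762048 67108864 3 false false false .dn 1 1 2
    ndN0q1 ndN1q2b pcN1 Cut.none Ext.none :=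
  certN0 (fam := false) (s1 := false) (s2 := false) (a := 1) (b := 1) (c := 2) (cn := .dn) (n1 := ndN0q1) (n2 := ndN1q2b) (pc := pcN1) (cut := Cut.none) (xt := Ext.none) (P1 := 536870912) (W1 := 536870912) (P2 := 1239849684) (W2 := 370763052) (P3 := 469762048) (W3 := 67108864) (N0 := 3)
    rfl k0_mm_112_b

noncomputable def f_mm_113 : ℕ → ℕ → ℕ → ℕ → Bool := onCell 536870912 536870912 1610612736 536870912 469762048 67108864
    (rowN 3 0 false false false .nn 1 1 3 (qsf 536870912 536870912 1610612736 536870912 1) ndN0q1 ndN1q3 pcN1 Cut.none Ext.none)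

def k0_mm_113 : ∃ t, chk3 f_mm_113 t 1 1 1 = true :=
  ⟨(l 5), by decide +kernel⟩

theorem c_mm_113 : CertN 536870912 536870912 1610612736 536870912 469762048 67108864 3 false false false .nn 1 1 3
    ndN0q1 ndN1q3 pcN1 Cut.none Ext.none :=
  certN0 (fam := false) (s1 := false) (s2 := false) (a := 1) (b := 1) (c := 3) (cn := .nn) (n1 := ndN0q1) (n2 := ndN1q3) (pc := pcN1) (cut := Cut.none) (xt := Ext.none) (P1 := 536870912) (W1 := 536870912) (P2 := 1610612736) (W2 := 536870912) (P3 := 469762048) (W3 := 67108864) (N0 := 3)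
    rfl k0_mm_113

noncomputable def f_mm_123 : ℕ → ℕ → ℕ → ℕ → Bool := onCell 536870912 536870912 1610612736 536870912 469762048 67108864
    (rowN 3 0 false false false .npn 1 2 3 (qsf 536870912 536870912 1610612736 536870912 2) ndN0q1 ndN1q3 pcN2 Cut.none Ext.none)

def k0_mm_123 : ∃ t, chk3 f_mm_123 t 1 1 1 = true :=
  ⟨(l 5), by decide +kernel⟩

theorem c_mm_123 : CertN 536870912 536870912 1610612736 536870912 469762048 67108864 3 false false false .npn 1 2 3
    ndN0q1 ndN1q3 pcN2 Cut.none Ext.none :=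
  certN0 (fam := false) (s1 := false) (s2 := false) (a := 1) (b := 2) (c := 3) (cn := .npn) (n1 := ndN0q1) (n2 := ndN1q3) (pc := pcN2) (cut := Cut.none) (xt := Ext.none) (P1 := 536870912) (W1 := 536870912) (P2 := 1610612736) (W2 := 536870912) (P3 := 469762048) (W3 := 67108864) (N0 := 3)
    rfl k0_mm_123

noncomputable def f_mm_133 : ℕ → ℕ → ℕ → ℕ → Bool := onCell 536870912 536870912 1610612736 536870912 469762048 67108864
    (rowN 3 0 false false false .dn 1 3 3 (qsf 536870912 536870912 1610612736 536870912 3) ndN0q1 ndN1q3 pcN3 Cut.none Ext.none)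

def k0_mm_133 : ∃ t, chk3 f_mm_133 t 1 1 1 = true :=
  ⟨(l 5), by decide +kernel⟩

theorem c_mm_133 : CertN 536870912 536870912 1610612736 536870912 469762048 67108864 3 false false false .dn 1 3 3
    ndN0q1 ndN1q3 pcN3 Cut.none Ext.none :=
  certN0 (fam := false) (s1 := false) (s2 := false) (a := 1) (b := 3) (c := 3) (cn := .dn) (n1 := ndN0q1) (n2 := ndN1q3) (pc := pcN3) (cut := Cut.none) (xt := Ext.none) (P1 := 536870912) (W1 := 536870912) (P2 := 1610612736) (W2 := 536870912) (P3 := 469762048) (W3 := 67108864) (N0 := 3)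
    rfl k0_mm_133

noncomputable def f_mm_202_a : ℕ → ℕ → ℕ → ℕ → Bool := onCell 0 536870912 0 536870912 469762048 67108864
    (rowN 3 0 false false false .pp 2 0 2 (qsf 0 536870912 0 536870912 0) ndN0q2 ndN1q2a pcN0 Cut.none Ext.none)

def k0_mm_202_a : ∃ t, chk3 f_mm_202_a t 1 1 1 = true :=
  ⟨(l 3), by decide +kernel⟩

theorem c_mm_202_a : CertN 0 536870912 0 536870912 469762048 67108864 3 false false false .pp 2 0 2
    ndN0q2 ndN1q2a pcN0 Cut.none Ext.none :=
  certN0 (fam := false) (s1 := false) (s2 := false) (a := 2) (b := 0) (c := 2) (cn := .pp) (n1 := ndN0q2) (n2 := ndN1q2a) (pc := pcN0) (cut := Cut.none) (xt := Ext.none) (P1 := 0) (W1 := 536870912) (P2 := 0) (W2 := 536870912) (P3 := 469762048) (W3 := 67108864) (N0 := 3)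
    rfl k0_mm_202_a

noncomputable def f_mm_202_b : ℕ → ℕ → ℕ → ℕ → Bool := onCell 0 536870912 1239849684 370763052 469762048 67108864
    (rowN 3 0 false false false .pp 2 0 2 (qsf 0 536870912 1239849684 370763052 0) ndN0q2 ndN1q2b pcN0 Cut.none Ext.none)

def k0_mm_202_b : ∃ t, chk3 f_mm_202_b t 1 1 1 = true :=
  ⟨(l 3), by decide +kernel⟩

theorem c_mm_202_b : CertN 0 536870912 1239849684 370763052 469762048 67108864 3 false false false .pp 2 0 2
    ndN0q2 ndN1q2b pcN0 Cut.none Ext.none :=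
  certN0 (fam := false) (s1 := false) (s2 := false) (a := 2) (b := 0) (c := 2) (cn := .pp) (n1 := ndN0q2) (n2 := ndN1q2b) (pc := pcN0) (cut := Cut.none) (xt := Ext.none) (P1 := 0) (W1 := 536870912) (P2 := 1239849684) (W2 := 370763052) (P3 := 469762048) (W3 := 67108864) (N0 := 3)
    rfl k0_mm_202_b

noncomputable def f_mm_203 : ℕ → ℕ → ℕ → ℕ → Bool := onCell 0 536870912 0 536870912 469762048 67108864
    (rowN 3 1 false false false .up 2 0 3 (qsf 0 536870912 1610612736 536870912 0) ndN0q2 ndN1q3 pcN0 Cut.none Ext.none)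

def k0_mm_203 : ∃ t, chk3 f_mm_203 t 1 1 1 = true :=
  ⟨(l 3), by decide +kernel⟩

theorem c_mm_203 : CertN 0 536870912 1610612736 536870912 469762048 67108864 3 false false false .up 2 0 3
    ndN0q2 ndN1q3 pcN0 Cut.none Ext.none :=
  certN1 (fam := false) (s1 := false) (s2 := false) (a := 2) (b := 0) (c := 3) (cn := .up) (n1 := ndN0q2) (n2 := ndN1q3) (pc := pcN0) (cut := Cut.none) (xt := Ext.none) (P1 := 0) (W1 := 536870912) (P2 := 1610612736) (W2 := 536870912) (P3 := 469762048) (W3 := 67108864) (N0 := 3)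
    rfl (fun _ => rfl) k0_mm_203

noncomputable def f_mm_213 : ℕ → ℕ → ℕ → ℕ → Bool := onCell 0 536870912 1610612736 536870912 469762048 67108864
    (rowN 3 0 false false false .pnn 2 1 3 (qsf 0 536870912 1610612736 536870912 1) ndN0q2 ndN1q3 pcN1 Cut.none Ext.none)

def k0_mm_213 : ∃ t, chk3 f_mm_213 t 1 1 1 = true :=
  ⟨(a (l 3) (l 5)), by decide +kernel⟩

theorem c_mm_213 : CertN 0 536870912 1610612736 536870912 469762048 67108864 3 false false false .pnn 2 1 3
    ndN0q2 ndN1q3 pcN1 Cut.none Ext.none :=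
  certN0 (fam := false) (s1 := false) (s2 := false) (a := 2) (b := 1) (c := 3) (cn := .pnn) (n1 := ndN0q2) (n2 := ndN1q3) (pc := pcN1) (cut := Cut.none) (xt := Ext.none) (P1 := 0) (W1 := 536870912) (P2 := 1610612736) (W2 := 536870912) (P3 := 469762048) (W3 := 67108864) (N0 := 3)
    rfl k0_mm_213

end Pool.Agent.Strip051.G.I7_16_1_2.Tab.C.NB01

namespace Pool.Agent.Strip051.G.I7_16_1_2.Tab.C.NB02

open Pool.Agent.Strip051.PB Pool.Agent.Strip051.PB.T
open Pool.Agent.Strip051.G.I7_16_1_2.Tab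

noncomputable def f_pp_001 : ℕ → ℕ → ℕ → ℕ → Bool := onCell 0 536870912 0 536870912 469762048 67108864
    (rowN 3 1 false true true .up 0 0 1 (qsf 0 536870912 536870912 536870912 0) ndN0q0 ndN2q1 pcN0 Cut.none Ext.none)

def k0_pp_001 : ∃ t, chk3 f_pp_001 t 1 1 1 = true :=
  ⟨(l 3), by decide +kernel⟩

theorem c_pp_001 : CertN 0 536870912 536870912 536870912 469762048 67108864 3 false true true .up 0 0 1
    ndN0q0 ndN2q1 pcN0 Cut.none Ext.none :=
  certN1 (fam := false) (s1 := true) (s2 := true) (a := 0) (b := 0) (c := 1) (cn := .up) (n1 := ndN0q0) (n2 := ndN2q1) (pc := pcN0) (cut := Cut.none) (xt := Ext.none) (P1 := 0) (W1 := 536870912) (P2 := 536870912) (W2 := 536870912) (P3 := 469762048) (W3 := 67108864) (N0 := 3)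
    rfl (fun _ => rfl) k0_pp_001

noncomputable def cut_pp_011 : Cut := Cut.of [[⟨0, 0, 0, 67108864⟩, ⟨1, 1, 0, 67108864⟩, ⟨2, 1, 0, 67108864⟩]]

noncomputable def f_pp_011 : ℕ → ℕ → ℕ → ℕ → Bool := onCell 0 536870912 536870912 536870912 469762048 67108864
    (rowN 3 1 false true true .pnn 0 1 1 (qsf 0 536870912 536870912 536870912 1) ndN0q0 ndN2q1 pcN1 cut_pp_011 Ext.none)

def k0_pp_011 : ∃ t, chk3 f_pp_011 t 1 1 1 = true :=
  ⟨(b (l 3) (a (b (l 3) (a (b (l 3) (a (b (l 3) (a (l 6) (l 3))) (l 3))) (l 3))) (l 3))), by decide +kernel⟩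

theorem c_pp_011 : CertN 0 536870912 536870912 536870912 469762048 67108864 3 false true true .pnn 0 1 1
    ndN0q0 ndN2q1 pcN1 cut_pp_011 Ext.none :=
  certN1 (fam := false) (s1 := true) (s2 := true) (a := 0) (b := 1) (c := 1) (cn := .pnn) (n1 := ndN0q0) (n2 := ndN2q1) (pc := pcN1) (cut := cut_pp_011) (xt := Ext.none) (P1 := 0) (W1 := 536870912) (P2 := 536870912) (W2 := 536870912) (P3 := 469762048) (W3 := 67108864) (N0 := 3)
    rfl (fun _ => rfl) k0_pp_011

noncomputable def f_pp_012 : ℕ → ℕ → ℕ → ℕ → Bool := onCell 0 536870912 536870912 536870912 469762048 67108864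
    (rowN 3 1 false true true .pnp 0 1 2 (qsf 0 536870912 1073741824 536870912 1) ndN0q0 ndN2q2 pcN1 Cut.none Ext.none)

def k0_pp_012 : ∃ t, chk3 f_pp_012 t 1 1 1 = true :=
  ⟨(l 3), by decide +kernel⟩

theorem c_pp_012 : CertN 0 536870912 1073741824 536870912 469762048 67108864 3 false true true .pnp 0 1 2
    ndN0q0 ndN2q2 pcN1 Cut.none Ext.none :=
  certN1 (fam := false) (s1 := true) (s2 := true) (a := 0) (b := 1) (c := 2) (cn := .pnp) (n1 := ndN0q0) (n2 := ndN2q2) (pc := pcN1) (cut := Cut.none) (xt := Ext.none) (P1 := 0) (W1 := 536870912) (P2 := 1073741824) (W2 := 536870912) (P3 := 469762048) (W3 := 67108864) (N0 := 3)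
    rfl (fun _ => rfl) k0_pp_012

noncomputable def f_pp_022 : ℕ → ℕ → ℕ → ℕ → Bool := onCell 0 536870912 1073741824 536870912 469762048 67108864
    (rowN 3 1 false true true .pp 0 2 2 (qsf 0 536870912 1073741824 536870912 2) ndN0q0 ndN2q2 pcN2 Cut.none Ext.none)

def k0_pp_022 : ∃ t, chk3 f_pp_022 t 4 4 1 = true :=
  ⟨(b (l 3) (b (b (l 3) (b (l 3) (a (a (l 3) (b (l 3) (a (l 16580728) (l 16574512)))) (a (a (c (l 16578056) (l 16564824)) (l 29695280855)) (a (l 33990235559) (l 16553568)))))) (a (b (a (a (b (c (a (l 16590064) (l 16587416)) (a (l 16577344) (l 16574416))) (c (l 16598136) (l 16562688))) (b (c (l 21105380663) (l 16591032)) (c (l 16572456) (l 16557424)))) (a (b (c (l 16578080) (l 16564248)) (l 16560112)) (b (c (l 16572632) (l 16558400)) (l 16555112)))) (a (a (b (c (l 16565976) (l 16549840)) (c (l 16554984) (l 16537232))) (b (l 16553616) (l 16542272))) (b (a (l 16549072) (l 16544792)) (a (l 16538312) (l 16534736))))) (b (a (b (a (l 16560392) (l 16555272)) (a (l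 16550488) (l 16545848))) (b (a (l 16549960) (l 16544376)) (l 16559408))) (a (b (a (l 16540768) (l 16536552)) (l 16529288)) (b (l 16529728) (l 16521032))))))), by decide +kernel⟩

def k1_pp_022 : ∃ t, chk3 f_pp_022 t 4 5 1 = true :=
  ⟨(b (b (b (a (a (b (a (l 16555624) (l 16531088)) (a (c (l 16533232) (l 16512496)) (l 16520088))) (b (a (l 16527808) (l 16524784)) (a (l 16517592) (l 16515136)))) (a (b (l 16519872) (l 16511288)) (b (l 16512264) (l 16505408)))) (b (a (a (a (b (l 16515000) (l 16511576)) (l 16532712)) (l 16531000)) (a (l 16507136) (l 16503232))) (a (a (b (a (l 16509024) (l 16508456)) (a (b (l 16508312) (c (l 16520832) (l 16495216))) (b (l 16508344) (l 16508680)))) (b (l 16507752) (a (b (l 16508360) (l 16509032)) (l 16508432)))) (a (b (l 16506152) (l 16507976)) (l 16568624))))) (a (a (a (b (c (l 16510944) (a (l 16483840) (l 16484192))) (c (l 16492544) (l 16463616))) (b (l 16498776) (l 16480256))) (a (l 16501144) (l 16491736))) (a (l 16513792) (l 16492968)))) (a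 (a (b (a (b (l 16460344) (l 16443720)) (l 16455024)) (a (l 16421472) (l 16426280))) (b (a (l 16457944) (l 16460568)) (l 16432928))) (a (b (l 16463872) (l 16440400)) (l 16518632)))), by decide +kernel⟩

def k2_pp_022 : ∃ t, chk3 f_pp_022 t 5 2 1 = true :=
  ⟨(b (b (l 3) (b (b (l 3) (a (a (b (l 3) (a (l 16547064) (l 16540224))) (b (a (l 3) (l 16534880)) (a (l 16532984) (l 16525296)))) (a (b (a (l 16525888) (l 16516264)) (a (l 16517080) (l 16508208))) (b (l 78013559511) (l 16493504))))) (a (b (a (b (l 16556344) (l 16527352)) (b (l 16521824) (l 16514488))) (a (b (l 16519344) (l 16511256)) (b (l 16507088) (l 16499512)))) (b (a (b (l 16506056) (l 16499320)) (l 16484424)) (a (l 16489080) (l 16472200)))))) (b (b (b (a (a (b (l 16503424) (l 16498824)) (b (l 16492768) (l 16490456))) (a (l 16479984) (l 16466584))) (a (a (b (l 16497904) (l 16501976)) (b (l 16490760) (l 16496320))) (a (l 16571272) (b (l 16469256) (l 16477312))))) (a (a (l 16491368) (l 16487696)) (a (l 16606760) (l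 16537592)))) (a (b (a (l 16467776) (l 16528744)) (a (l 16490744) (l 16452768))) (a (b (l 16464760) (l 16458224)) (b (l 16464872) (l 16461632)))))), by decide +kernel⟩

def k3_pp_022 : ∃ t, chk3 f_pp_022 t 2 3 1 = true :=
  ⟨(b (a (a (b (a (b (l 16400304) (l 16382952)) (b (l 16412392) (l 16398096))) (a (b (l 16372304) (a (l 16363120) (l 16373632))) (b (a (l 16386064) (l 16394024)) (l 16392480)))) (b (a (b (l 16422728) (a (l 16408120) (l 16413616))) (b (l 16514120) (l 16424432))) (a (b (l 16408784) (l 16419616)) (b (l 16430256) (l 16444776))))) (b (a (a (b (l 16439192) (l 16440456)) (b (l 16449912) (l 16454576))) (b (a (l 16458688) (l 16462024)) (a (l 16463168) (l 16464832)))) (a (a (b (l 16449800) (l 16463920)) (b (l 16463616) (l 16511880))) (a (b (l 16485208) (l 2)) (l 2))))) (a (b (a (b (a (b (l 16371880) (l 16379352)) (l 16408512)) (a (l 16402208) (l 16439960))) (b (a (l 16439520) (l 16464144)) (a (l 16492544) (l 16574960)))) (a (b (a (l 16444984) (l 16534408)) (a (b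 (l 16543016) (l 16607448)) (l 16650792))) (b (a (l 16613288) (l 2)) (l 2)))) (b (a (b (a (l 16540560) (l 2)) (l 2)) (l 2)) (l 2)))), by decide +kernel⟩

def k4_pp_022 : ∃ t, chk3 f_pp_022 t 3 1 1 = true :=
  ⟨(b (b (a (b (l 3) (a (b (b (a (l 3) (l 69960520135)) (a (b (l 16476504) (l 16470656)) (b (l 16447960) (l 16484728)))) (b (a (l 16462424) (a (l 16442656) (l 16429416))) (a (b (l 16453496) (l 16448192)) (a (l 16434264) (l 16424544))))) (b (a (b (a (l 49559380295) (b (l 3) (l 16410968))) (a (l 16463856) (l 16428096))) (b (a (l 56001724999) (b (l 3) (l 16373616))) (a (l 16412248) (l 16393280)))) (b (a (l 16494632) (a (l 16388872) (l 16370320))) (a (l 16471592) (l 16421872)))))) (b (l 3) (a (b (a (b (a (b (l 3) (l 16349720)) (l 72644557639)) (a (b (l 16349464) (l 16349240)) (l 16334048))) (a (b (b (l 16381704) (l 16393896)) (l 16413928)) (b (b (l 16435960) (l 16447160)) (l 16465360)))) (b (a (a (l 16368832) (l 16386848)) (a (l 16442352) (l 2))) (a (l 16392384) (l 2))))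 (b (a (b (b (a (l 16486088) (l 2)) (l 2)) (l 2)) (l 2)) (l 2))))) (a (b (a (b (b (a (l 16471016) (l 16435536)) (a (b (l 16455920) (l 16467328)) (l 16559456))) (a (l 16469192) (l 16461016))) (b (b (a (l 16418376) (l 16391744)) (a (l 16502168) (l 16456144))) (a (l 16446080) (l 16432248)))) (a (a (b (l 16462712) (l 16459512)) (b (l 16454712) (l 16450136))) (b (a (l 16438528) (l 2)) (l 2)))) (b (a (b (b (a (l 16429904) (l 2)) (l 2)) (l 2)) (l 2)) (l 2)))) (a (b (b (a (b (a (l 16458400) (l 2)) (l 2)) (l 2)) (l 2)) (l 2)) (l 2))), by decide +kernel⟩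

theorem s5_pp_022 : ∃ t, chk3 f_pp_022 t 4 2 1 = true := ex3_b k0_pp_022 k1_pp_022

theorem s6_pp_022 : ∃ t, chk3 f_pp_022 t 2 2 1 = true := ex3_a s5_pp_022 k2_pp_022

theorem s7_pp_022 : ∃ t, chk3 f_pp_022 t 2 1 1 = true := ex3_b s6_pp_022 k3_pp_022

theorem s8_pp_022 : ∃ t, chk3 f_pp_022 t 1 1 1 = true := ex3_a s7_pp_022 k4_pp_022

theorem c_pp_022 : CertN 0 536870912 1073741824 536870912 469762048 67108864 3 false true true .pp 0 2 2
    ndN0q0 ndN2q2 pcN2 Cut.none Ext.none :=
  certN1 (fam := false) (s1 := true) (s2 := true) (a := 0) (b := 2) (c := 2) (cn := .pp) (n1 := ndN0q0) (n2 := ndN2q2) (pc := pcN2) (cut := Cut.none) (xt := Ext.none) (P1 := 0) (W1 := 536870912) (P2 := 1073741824) (W2 := 536870912) (P3 := 469762048) (W3 := 67108864) (N0 := 3)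
    rfl (fun _ => rfl) s8_pp_022

noncomputable def f_pp_023 : ℕ → ℕ → ℕ → ℕ → Bool := onCell 1073741824 536870912 0 1230186008 469762048 67108864
    (rowN 3 2 false true true .up 0 2 3 (qsf 0 536870912 0 1230186008 2) ndN0q0 ndN2q3 pcN2 Cut.none Ext.none)

def k0_pp_023 : ∃ t, chk3 f_pp_023 t 1 1 1 = true :=
  ⟨(b (a (l 2) (a (l 2) (b (a (l 2) (l 16858264)) (a (b (l 16844128) (l 16838768)) (b (l 16857288) (l 16851328)))))) (b (a (a (l 2) (b (l 2) (a (l 2) (b (l 2) (l 16804752))))) (a (b (a (l 2) (l 16817648)) (a (l 17048280) (l 16877672))) (a (b (l 16827376) (b (l 16809976) (l 16788808))) (b (l 16839736) (l 16833168))))) (a (a (b (l 2) (b (a (l 2) (a (b (l 2) (a (a (l 232028798727) (l 16746632)) (l 16727960))) (a (b (l 16761272) (l 16703848)) (l 16712304)))) (a (l 3) (a (b (a (a (b (l 16708048) (l 16665264)) (l 16672584)) (l 16651000)) (a (b (a (l 102709734631) (l 16602984)) (a (l 16579056) (l 16560776))) (b (l 16578944) (l 16534104)))) (b (a (l 16623600) (l 16597792))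 (a (b (l 16548728) (l 16499144)) (b (l 16519888) (l 16465088)))))))) (b (a (b (a (l 2) (l 16801032)) (a (a (l 16783768) (l 16767608)) (l 16747088))) (b (l 16774704) (l 16714264))) (b (a (a (a (l 16691600) (l 16714272)) (l 16646760)) (b (l 16641760) (l 16574160))) (a (b (a (a (l 16573712) (l 16552064)) (l 16524176)) (a (a (l 16464632) (a (l 16445344) (l 16435400))) (l 16412808))) (b (l 16487040) (l 16378880)))))) (b (a (a (b (l 16752696) (l 16689656)) (b (l 16746568) (l 16686800))) (a (b (l 16755648) (l 16701976)) (b (l 16773944) (l 16732480)))) (a (b (a (l 16586864) (l 16592704)) (a (b (l 16474824) (l 16371048)) (b (l 16490912) (l 16391960)))) (b (a (l 16617400) (l 16660048)) (a (b (l 16525848) (l 16432248)) (b (l 16580160) (a (l 16477984) (l 16510600)))))))))), by decide +kernel⟩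

theorem c_pp_023 : CertN 0 536870912 0 1230186008 469762048 67108864 3 false true true .up 0 2 3
    ndN0q0 ndN2q3 pcN2 Cut.none Ext.none :=
  certN2 (fam := false) (s1 := true) (s2 := true) (a := 0) (b := 2) (c := 3) (cn := .up) (n1 := ndN0q0) (n2 := ndN2q3) (pc := pcN2) (cut := Cut.none) (xt := Ext.none) (P1 := 0) (W1 := 536870912) (P2 := 0) (W2 := 1230186008) (P3 := 469762048) (W3 := 67108864) (N0 := 3)
    rfl (fun _ => rfl) k0_pp_023

noncomputable def f_pp_033 : ℕ → ℕ → ℕ → ℕ → Bool := onCell 1610612736 536870912 0 1230186008 469762048 67108864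
    (rowN 3 2 false true true .pnn 0 3 3 (qsf 0 536870912 0 1230186008 3) ndN0q0 ndN2q3 pcN3 Cut.none Ext.none)

def k0_pp_033 : ∃ t, chk3 f_pp_033 t 1 1 1 = true :=
  ⟨(b (b (a (a (a (l 16838808) (l 16850416)) (a (l 16859376) (l 16864480))) (l 4)) (a (a (b (l 16847912) (a (l 16848832) (l 16861800))) (a (l 16870568) (l 16880224))) (a (a (l 16888296) (l 4)) (l 4)))) (b (b (a (a (a (l 16851200) (l 16866376)) (a (l 16881920) (l 16898176))) (a (a (l 16917736) (l 16945344)) (l 4))) (a (a (a (l 16828512) (l 16846504)) (a (l 16869896) (l 16898216))) (a (a (l 16932800) (l 16972800)) (l 1)))) (a (a (b (a (b (l 16780504) (l 16748224)) (l 16776424)) (b (a (a (l 16645424) (l 16655248)) (l 16662648)) (a (b (l 16574984) (a (l 16490256) (l 16499512))) (b (l 16577936) (l 1))))) (b (a (l 16808520) (l 343631614951)) (b (a (l 16697808) (l 1)) (l 1)))) (l 1)))), by decide +kernel⟩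

theorem c_pp_033 : CertN 0 536870912 0 1230186008 469762048 67108864 3 false true true .pnn 0 3 3
    ndN0q0 ndN2q3 pcN3 Cut.none Ext.none :=
  certN2 (fam := false) (s1 := true) (s2 := true) (a := 0) (b := 3) (c := 3) (cn := .pnn) (n1 := ndN0q0) (n2 := ndN2q3) (pc := pcN3) (cut := Cut.none) (xt := Ext.none) (P1 := 0) (W1 := 536870912) (P2 := 0) (W2 := 1230186008) (P3 := 469762048) (W3 := 67108864) (N0 := 3)
    rfl (fun _ => rfl) k0_pp_033

noncomputable def f_pp_101 : ℕ → ℕ → ℕ → ℕ → Bool := onCell 536870912 536870912 536870912 536870912 469762048 67108864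
    (rowN 3 0 false true true .npn 1 0 1 (qsf 536870912 536870912 536870912 536870912 0) ndN0q1 ndN2q1 pcN0 Cut.none Ext.none)

def k0_pp_101 : ∃ t, chk3 f_pp_101 t 1 1 1 = true :=
  ⟨(a (l 3) (l 5)), by decide +kernel⟩

theorem c_pp_101 : CertN 536870912 536870912 536870912 536870912 469762048 67108864 3 false true true .npn 1 0 1
    ndN0q1 ndN2q1 pcN0 Cut.none Ext.none :=
  certN0 (fam := false) (s1 := true) (s2 := true) (a := 1) (b := 0) (c := 1) (cn := .npn) (n1 := ndN0q1) (n2 := ndN2q1) (pc := pcN0) (cut := Cut.none) (xt := Ext.none) (P1 := 536870912) (W1 := 536870912) (P2 := 536870912) (W2 := 536870912) (P3 := 469762048) (W3 := 67108864) (N0 := 3)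
    rfl k0_pp_101

noncomputable def f_pp_102 : ℕ → ℕ → ℕ → ℕ → Bool := onCell 536870912 536870912 0 536870912 469762048 67108864
    (rowN 3 1 false true true .npp 1 0 2 (qsf 536870912 536870912 1073741824 536870912 0) ndN0q1 ndN2q2 pcN0 Cut.none Ext.none)

def k0_pp_102 : ∃ t, chk3 f_pp_102 t 1 1 1 = true :=
  ⟨(l 3), by decide +kernel⟩

theorem c_pp_102 : CertN 536870912 536870912 1073741824 536870912 469762048 67108864 3 false true true .npp 1 0 2
    ndN0q1 ndN2q2 pcN0 Cut.none Ext.none :=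
  certN1 (fam := false) (s1 := true) (s2 := true) (a := 1) (b := 0) (c := 2) (cn := .npp) (n1 := ndN0q1) (n2 := ndN2q2) (pc := pcN0) (cut := Cut.none) (xt := Ext.none) (P1 := 536870912) (W1 := 536870912) (P2 := 1073741824) (W2 := 536870912) (P3 := 469762048) (W3 := 67108864) (N0 := 3)
    rfl (fun _ => rfl) k0_pp_102

noncomputable def f_pp_112 : ℕ → ℕ → ℕ → ℕ → Bool := onCell 536870912 536870912 1073741824 536870912 469762048 67108864
    (rowN 3 0 false true true .dn 1 1 2 (qsf 536870912 536870912 1073741824 536870912 1) ndN0q1 ndN2q2 pcN1 Cut.none Ext.none)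

def k0_pp_112 : ∃ t, chk3 f_pp_112 t 1 1 1 = true :=
  ⟨(a (l 3) (l 3)), by decide +kernel⟩

theorem c_pp_112 : CertN 536870912 536870912 1073741824 536870912 469762048 67108864 3 false true true .dn 1 1 2
    ndN0q1 ndN2q2 pcN1 Cut.none Ext.none :=
  certN0 (fam := false) (s1 := true) (s2 := true) (a := 1) (b := 1) (c := 2) (cn := .dn) (n1 := ndN0q1) (n2 := ndN2q2) (pc := pcN1) (cut := Cut.none) (xt := Ext.none) (P1 := 536870912) (W1 := 536870912) (P2 := 1073741824) (W2 := 536870912) (P3 := 469762048) (W3 := 67108864) (N0 := 3)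
    rfl k0_pp_112

noncomputable def cut_pp_113 : Cut := Cut.of [[⟨0, 1, 0, 67108864⟩, ⟨1, 1, 0, 67108864⟩, ⟨2, 2, 0, 16777216⟩]]

noncomputable def f_pp_113 : ℕ → ℕ → ℕ → ℕ → Bool := onCell 536870912 536870912 0 1230186008 469762048 67108864
    (rowN 3 2 false true true .nn 1 1 3 (qsf 536870912 536870912 0 1230186008 1) ndN0q1 ndN2q3 pcN1 cut_pp_113 Ext.none)

def k0_pp_113 : ∃ t, chk3 f_pp_113 t 1 1 1 = true :=
  ⟨(b (a (l 2) (a (l 2) (a (l 3) (a (l 3) (b (b (l 6) (l 3)) (l 3)))))) (b (a (l 3) (a (l 3) (l 3))) (a (b (l 3) (l 3)) (l 3)))), by decide +kernel⟩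

theorem c_pp_113 : CertN 536870912 536870912 0 1230186008 469762048 67108864 3 false true true .nn 1 1 3
    ndN0q1 ndN2q3 pcN1 cut_pp_113 Ext.none :=
  certN2 (fam := false) (s1 := true) (s2 := true) (a := 1) (b := 1) (c := 3) (cn := .nn) (n1 := ndN0q1) (n2 := ndN2q3) (pc := pcN1) (cut := cut_pp_113) (xt := Ext.none) (P1 := 536870912) (W1 := 536870912) (P2 := 0) (W2 := 1230186008) (P3 := 469762048) (W3 := 67108864) (N0 := 3)
    rfl (fun _ => rfl) k0_pp_113

noncomputable def cut_pp_123 : Cut := Cut.of [[⟨0, 1, 0, 67108864⟩, ⟨1, 1, 0, 67108864⟩, ⟨2, 2, 0, 16777216⟩]]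

noncomputable def f_pp_123 : ℕ → ℕ → ℕ → ℕ → Bool := onCell 1073741824 536870912 0 1230186008 469762048 67108864
    (rowN 3 2 false true true .npn 1 2 3 (qsf 536870912 536870912 0 1230186008 2) ndN0q1 ndN2q3 pcN2 cut_pp_123 Ext.none)

def k0_pp_123 : ∃ t, chk3 f_pp_123 t 1 2 1 = true :=
  ⟨(b (a (b (a (a (a (l 6) (l 16780888)) (l 16781240)) (a (l 16785376) (l 16791840))) (a (b (a (a (l 6) (l 16788296)) (l 16785840)) (a (b (a (a (a (l 3) (a (l 3) (l 247665330375))) (a (a (l 16796896) (l 16796920)) (l 16796696))) (l 16795256)) (a (a (a (l 3) (l 284709469431)) (a (a (l 16803056) (l 16803088)) (l 16802936))) (l 16801112))) (l 16793360))) (a (l 16934424) (l 16791632)))) (a (a (l 16803384) (l 16818488)) (a (l 16986304) (l 16857144)))) (a (a (a (a (b (a (l 3) (b (a (b (l 205789430567) (l 231022387959)) (l 16813872)) (a (l 255718523175) (l 16852056)))) (a (l 3) (a (l 3) (b (l 16872824) (l 229411944679))))) (a (b (b (l 16812672) (l 16829864)) (b (l 16871328) (l 16926848))) (b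 (l 16819168) (l 16922144)))) (b (l 16979640) (a (l 16852312) (l 16841456)))) (a (b (l 17010344) (a (l 16829648) (l 16819240))) (b (l 16796256) (l 16808432)))) (a (a (b (l 16803736) (l 16806912)) (b (l 16818536) (l 16820912))) (a (b (l 16839824) (l 16837744)) (b (l 16856896) (l 16851328)))))), by decide +kernel⟩

def k1_pp_123 : ∃ t, chk3 f_pp_123 t 1 6 1 = true :=
  ⟨(a (a (a (b (b (a (l 3) (a (l 16944424) (l 16897696))) (a (l 3) (a (l 197736718871) (l 16928000)))) (a (l 3) (a (a (l 3) (b (l 16966936) (l 168745748679))) (b (l 16980944) (b (l 16983576) (l 196125879831)))))) (b (a (b (l 16825016) (l 16915096)) (l 16884136)) (a (b (a (l 16907216) (l 16936920)) (a (b (l 16970224) (l 16982600)) (l 16961840))) (b (l 16917176) (l 16812072))))) (b (a (a (l 16864480) (l 16845992)) (l 16908112)) (a (a (b (l 16764720) (l 16897504)) (b (l 16863040) (l 16854624))) (b (l 16928728) (l 16999648))))) (a (b (a (l 16811264) (b (l 16819120) (l 16813424))) (a (b (l 16803944) (l 16788160))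 (l 280817703687))) (b (a (l 16827368) (l 1)) (l 1)))), by decide +kernel⟩

def k2_pp_123 : ∃ t, chk3 f_pp_123 t 1 7 1 = true :=
  ⟨(a (a (b (a (a (l 3) (a (l 3) (b (c (l 17008048) (b (l 17017344) (l 148881597127))) (b (a (l 16993384) (l 16977168)) (a (l 3) (l 16928912)))))) (a (b (a (b (l 16985144) (l 16978952)) (b (l 16967264) (l 16950296))) (a (b (l 16949016) (l 16897080)) (b (l 16911312) (l 16855704)))) (b (b (l 16929312) (l 16899976)) (b (l 16856432) (a (l 16817704) (l 16788424)))))) (b (a (a (l 3) (a (l 3) (a (l 3) (b (l 95194096311) (b (l 549386723783) (l 3)))))) (a (b (a (b (l 16845024) (a (l 16814560) (l 16793920))) (b (l 16803400) (l 16771808))) (a (a (b (l 16775456) (l 16743888)) (l 16746656)) (l 16727960))) (a (b (l 16762216) (l 16703816)) (l 100428478951)))) (a (l 3) (a (b (a (a (b (l 16708048) (l 1)) (l 1)) (l 1)) (l 1)) (l 1))))) (b (a (a (b (a (l 16870336) (l 16840984)) (a (l 16874248) (l 148210414071))) (b (l 16810520) (l 16747032))) (b (a (l 16784032)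 (l 16768032)) (l 1))) (b (a (a (a (l 16691408) (l 1)) (l 1)) (l 1)) (l 1)))) (l 1)), by decide +kernel⟩

theorem s3_pp_123 : ∃ t, chk3 f_pp_123 t 1 3 1 = true := ex3_b k1_pp_123 k2_pp_123

theorem s4_pp_123 : ∃ t, chk3 f_pp_123 t 1 1 1 = true := ex3_b k0_pp_123 s3_pp_123

theorem c_pp_123 : CertN 536870912 536870912 0 1230186008 469762048 67108864 3 false true true .npn 1 2 3
    ndN0q1 ndN2q3 pcN2 cut_pp_123 Ext.none :=
  certN2 (fam := false) (s1 := true) (s2 := true) (a := 1) (b := 2) (c := 3) (cn := .npn) (n1 := ndN0q1) (n2 := ndN2q3) (pc := pcN2) (cut := cut_pp_123) (xt := Ext.none) (P1 := 536870912) (W1 := 536870912) (P2 := 0) (W2 := 1230186008) (P3 := 469762048) (W3 := 67108864) (N0 := 3)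
    rfl (fun _ => rfl) s4_pp_123

noncomputable def f_pp_133 : ℕ → ℕ → ℕ → ℕ → Bool := onCell 536870912 536870912 0 1230186008 469762048 67108864
    (rowN 3 0 false true true .dn 1 3 3 (qsf 536870912 536870912 0 1230186008 3) ndN0q1 ndN2q3 pcN3 Cut.none Ext.none)

def k0_pp_133 : ∃ t, chk3 f_pp_133 t 1 1 1 = true :=
  ⟨(b (b (a (a (a (l 16822976) (l 1)) (l 1)) (l 1)) (l 1)) (l 1)), by decide +kernel⟩

theorem c_pp_133 : CertN 536870912 536870912 0 1230186008 469762048 67108864 3 false true true .dn 1 3 3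
    ndN0q1 ndN2q3 pcN3 Cut.none Ext.none :=
  certN0 (fam := false) (s1 := true) (s2 := true) (a := 1) (b := 3) (c := 3) (cn := .dn) (n1 := ndN0q1) (n2 := ndN2q3) (pc := pcN3) (cut := Cut.none) (xt := Ext.none) (P1 := 536870912) (W1 := 536870912) (P2 := 0) (W2 := 1230186008) (P3 := 469762048) (W3 := 67108864) (N0 := 3)
    rfl k0_pp_133

noncomputable def f_pp_202 : ℕ → ℕ → ℕ → ℕ → Bool := onCell 0 536870912 1073741824 536870912 469762048 67108864
    (rowN 3 0 false true true .pp 2 0 2 (qsf 0 536870912 1073741824 536870912 0) ndN0q2 ndN2q2 pcN0 Cut.none Ext.none)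

def k0_pp_202 : ∃ t, chk3 f_pp_202 t 1 1 1 = true :=
  ⟨(l 3), by decide +kernel⟩

theorem c_pp_202 : CertN 0 536870912 1073741824 536870912 469762048 67108864 3 false true true .pp 2 0 2
    ndN0q2 ndN2q2 pcN0 Cut.none Ext.none :=
  certN0 (fam := false) (s1 := true) (s2 := true) (a := 2) (b := 0) (c := 2) (cn := .pp) (n1 := ndN0q2) (n2 := ndN2q2) (pc := pcN0) (cut := Cut.none) (xt := Ext.none) (P1 := 0) (W1 := 536870912) (P2 := 1073741824) (W2 := 536870912) (P3 := 469762048) (W3 := 67108864) (N0 := 3)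
    rfl k0_pp_202

noncomputable def f_pp_203 : ℕ → ℕ → ℕ → ℕ → Bool := onCell 0 536870912 0 1230186008 469762048 67108864
    (rowN 3 0 false true true .up 2 0 3 (qsf 0 536870912 0 1230186008 0) ndN0q2 ndN2q3 pcN0 Cut.none Ext.none)

def k0_pp_203 : ∃ t, chk3 f_pp_203 t 1 1 1 = true :=
  ⟨(b (l 2) (l 3)), by decide +kernel⟩

theorem c_pp_203 : CertN 0 536870912 0 1230186008 469762048 67108864 3 false true true .up 2 0 3
    ndN0q2 ndN2q3 pcN0 Cut.none Ext.none :=
  certN0 (fam := false) (s1 := true) (s2 := true) (a := 2) (b := 0) (c := 3) (cn := .up) (n1 := ndN0q2) (n2 := ndN2q3) (pc := pcN0) (cut := Cut.none) (xt := Ext.none) (P1 := 0) (W1 := 536870912) (P2 := 0) (W2 := 1230186008) (P3 := 469762048) (W3 := 67108864) (N0 := 3)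
    rfl k0_pp_203

noncomputable def cut_pp_213 : Cut := Cut.of [[⟨0, 1, 0, 67108864⟩, ⟨1, 1, 0, 67108864⟩, ⟨2, 2, 0, 16777216⟩]]

noncomputable def f_pp_213 : ℕ → ℕ → ℕ → ℕ → Bool := onCell 0 536870912 0 1230186008 469762048 67108864
    (rowN 3 0 false true true .pnn 2 1 3 (qsf 0 536870912 0 1230186008 1) ndN0q2 ndN2q3 pcN1 cut_pp_213 Ext.none)

def k0_pp_213 : ∃ t, chk3 f_pp_213 t 1 1 1 = true :=
  ⟨(b (a (l 3) (b (a (l 3) (a (l 3) (b (l 6) (l 3)))) (l 3))) (l 3)), by decide +kernel⟩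

theorem c_pp_213 : CertN 0 536870912 0 1230186008 469762048 67108864 3 false true true .pnn 2 1 3
    ndN0q2 ndN2q3 pcN1 cut_pp_213 Ext.none :=
  certN0 (fam := false) (s1 := true) (s2 := true) (a := 2) (b := 1) (c := 3) (cn := .pnn) (n1 := ndN0q2) (n2 := ndN2q3) (pc := pcN1) (cut := cut_pp_213) (xt := Ext.none) (P1 := 0) (W1 := 536870912) (P2 := 0) (W2 := 1230186008) (P3 := 469762048) (W3 := 67108864) (N0 := 3)
    rfl k0_pp_213

noncomputable def f_pm_001 : ℕ → ℕ → ℕ → ℕ → Bool := onCell 0 536870912 536870912 536870912 469762048 67108864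
    (rowN 3 0 false true false .up 0 0 1 (qsf 0 536870912 536870912 536870912 0) ndN0q0 ndN2q1 pcN0 Cut.none Ext.none)

def k0_pm_001 : ∃ t, chk3 f_pm_001 t 1 1 1 = true :=
  ⟨(l 4), by decide +kernel⟩

theorem c_pm_001 : CertN 0 536870912 536870912 536870912 469762048 67108864 3 false true false .up 0 0 1
    ndN0q0 ndN2q1 pcN0 Cut.none Ext.none :=
  certN0 (fam := false) (s1 := true) (s2 := false) (a := 0) (b := 0) (c := 1) (cn := .up) (n1 := ndN0q0) (n2 := ndN2q1) (pc := pcN0) (cut := Cut.none) (xt := Ext.none) (P1 := 0) (W1 := 536870912) (P2 := 536870912) (W2 := 536870912) (P3 := 469762048) (W3 := 67108864) (N0 := 3)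
    rfl k0_pm_001

noncomputable def f_pm_011 : ℕ → ℕ → ℕ → ℕ → Bool := onCell 0 536870912 536870912 536870912 469762048 67108864
    (rowN 3 0 false true false .pnn 0 1 1 (qsf 0 536870912 536870912 536870912 1) ndN0q0 ndN2q1 pcN1 Cut.none Ext.none)

def k0_pm_011 : ∃ t, chk3 f_pm_011 t 1 1 1 = true :=
  ⟨(l 4), by decide +kernel⟩

theorem c_pm_011 : CertN 0 536870912 536870912 536870912 469762048 67108864 3 false true false .pnn 0 1 1
    ndN0q0 ndN2q1 pcN1 Cut.none Ext.none :=
  certN0 (fam := false) (s1 := true) (s2 := false) (a := 0) (b := 1) (c := 1) (cn := .pnn) (n1 := ndN0q0) (n2 := ndN2q1) (pc := pcN1) (cut := Cut.none) (xt := Ext.none) (P1 := 0) (W1 := 536870912) (P2 := 536870912) (W2 := 536870912) (P3 := 469762048) (W3 := 67108864) (N0 := 3)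
    rfl k0_pm_011

noncomputable def f_pm_012 : ℕ → ℕ → ℕ → ℕ → Bool := onCell 0 536870912 1073741824 536870912 469762048 67108864
    (rowN 3 0 false true false .pnp 0 1 2 (qsf 0 536870912 1073741824 536870912 1) ndN0q0 ndN2q2 pcN1 Cut.none Ext.none)

def k0_pm_012 : ∃ t, chk3 f_pm_012 t 1 1 1 = true :=
  ⟨(a (l 4) (b (a (b (b (a (l 4) (a (l 4) (b (l 4) (l 4)))) (l 4)) (l 4)) (b (a (b (b (a (l 16343544) (l 16240944)) (a (l 16263424) (l 16251176))) (a (b (l 16260040) (l 16259128)) (l 16405800))) (b (a (b (l 16219736) (l 16235552)) (b (l 16202880) (l 16223616))) (a (l 16252208) (l 16248264)))) (a (a (b (l 4) (l 4)) (b (a (l 16259992) (l 16263320)) (l 16395504))) (b (a (l 16267952) (l 16275744)) (a (l 16268952) (l 16289696)))))) (a (l 4) (a (a (l 4) (b (b (l 16217856) (l 16177608)) (l 4))) (b (b (a (l 16254056) (l 16286728)) (a (l 16225016) (l 16273752))) (b (b (a (l 16198584) (l 16255512)) (a (l 16185384) (l 16250312))) (b (a (l 16176464) (l 16284632)) (l 16232416)))))))),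 by decide +kernel⟩

theorem c_pm_012 : CertN 0 536870912 1073741824 536870912 469762048 67108864 3 false true false .pnp 0 1 2
    ndN0q0 ndN2q2 pcN1 Cut.none Ext.none :=
  certN0 (fam := false) (s1 := true) (s2 := false) (a := 0) (b := 1) (c := 2) (cn := .pnp) (n1 := ndN0q0) (n2 := ndN2q2) (pc := pcN1) (cut := Cut.none) (xt := Ext.none) (P1 := 0) (W1 := 536870912) (P2 := 1073741824) (W2 := 536870912) (P3 := 469762048) (W3 := 67108864) (N0 := 3)
    rfl k0_pm_012

noncomputable def f_pm_022 : ℕ → ℕ → ℕ → ℕ → Bool := onCell 1073741824 536870912 1073741824 536870912 469762048 67108864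
    (rowN 3 2 false true false .pp 0 2 2 (qsf 0 536870912 1073741824 536870912 2) ndN0q0 ndN2q2 pcN2 Cut.none Ext.none)

def k0_pm_022 : ∃ t, chk3 f_pm_022 t 1 1 1 = true :=
  ⟨(a (b (l 4) (b (l 4) (a (a (b (l 4) (a (a (l 16198312) (l 16181760)) (l 22245465143))) (l 4)) (l 4)))) (l 4)), by decide +kernel⟩

theorem c_pm_022 : CertN 0 536870912 1073741824 536870912 469762048 67108864 3 false true false .pp 0 2 2
    ndN0q0 ndN2q2 pcN2 Cut.none Ext.none :=
  certN2 (fam := false) (s1 := true) (s2 := false) (a := 0) (b := 2) (c := 2) (cn := .pp) (n1 := ndN0q0) (n2 := ndN2q2) (pc := pcN2) (cut := Cut.none) (xt := Ext.none) (P1 := 0) (W1 := 536870912) (P2 := 1073741824) (W2 := 536870912) (P3 := 469762048) (W3 := 67108864) (N0 := 3)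
    rfl (fun _ => rfl) k0_pm_022

noncomputable def f_pm_023 : ℕ → ℕ → ℕ → ℕ → Bool := onCell 0 536870912 0 1230186008 469762048 67108864
    (rowN 3 0 false true false .up 0 2 3 (qsf 0 536870912 0 1230186008 2) ndN0q0 ndN2q3 pcN2 Cut.none Ext.none)

def k0_pm_023 : ∃ t, chk3 f_pm_023 t 1 1 1 = true :=
  ⟨(a (b (l 2) (l 4)) (a (b (l 2) (b (l 4) (l 4))) (a (b (b (l 2) (b (l 16871296) (l 16874696))) (b (b (l 16865448) (b (l 16837584) (l 16798968))) (b (b (l 16738056) (l 4)) (l 4)))) (b (b (l 16864440) (b (l 16873320) (l 16879168))) (b (b (l 16874360) (l 16837136)) (b (b (l 16768456) (l 16691624)) (b (a (l 16553944) (l 16592984)) (b (l 16446304) (a (l 16287640) (l 16353440)))))))))), by decide +kernel⟩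

theorem c_pm_023 : CertN 0 536870912 0 1230186008 469762048 67108864 3 false true false .up 0 2 3
    ndN0q0 ndN2q3 pcN2 Cut.none Ext.none :=
  certN0 (fam := false) (s1 := true) (s2 := false) (a := 0) (b := 2) (c := 3) (cn := .up) (n1 := ndN0q0) (n2 := ndN2q3) (pc := pcN2) (cut := Cut.none) (xt := Ext.none) (P1 := 0) (W1 := 536870912) (P2 := 0) (W2 := 1230186008) (P3 := 469762048) (W3 := 67108864) (N0 := 3)
    rfl k0_pm_023

noncomputable def f_pm_033 : ℕ → ℕ → ℕ → ℕ → Bool := onCell 1610612736 536870912 0 1230186008 469762048 67108864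
    (rowN 3 2 false true false .pnn 0 3 3 (qsf 0 536870912 0 1230186008 3) ndN0q0 ndN2q3 pcN3 Cut.none Ext.none)

def k0_pm_033 : ∃ t, chk3 f_pm_033 t 1 1 1 = true :=
  ⟨(a (b (a (b (a (l 16848400) (l 16857512)) (a (b (l 16865152) (l 16871560)) (b (l 16868584) (l 4)))) (b (l 16859072) (l 4))) (b (a (l 4) (l 4)) (l 4))) (b (l 4) (l 4))), by decide +kernel⟩

theorem c_pm_033 : CertN 0 536870912 0 1230186008 469762048 67108864 3 false true false .pnn 0 3 3
    ndN0q0 ndN2q3 pcN3 Cut.none Ext.none :=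
  certN2 (fam := false) (s1 := true) (s2 := false) (a := 0) (b := 3) (c := 3) (cn := .pnn) (n1 := ndN0q0) (n2 := ndN2q3) (pc := pcN3) (cut := Cut.none) (xt := Ext.none) (P1 := 0) (W1 := 536870912) (P2 := 0) (W2 := 1230186008) (P3 := 469762048) (W3 := 67108864) (N0 := 3)
    rfl (fun _ => rfl) k0_pm_033

noncomputable def f_pm_101 : ℕ → ℕ → ℕ → ℕ → Bool := onCell 536870912 536870912 536870912 536870912 469762048 67108864
    (rowN 3 0 false true false .npn 1 0 1 (qsf 536870912 536870912 536870912 536870912 0) ndN0q1 ndN2q1 pcN0 Cut.none Ext.none)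

def k0_pm_101 : ∃ t, chk3 f_pm_101 t 1 1 1 = true :=
  ⟨(l 4), by decide +kernel⟩

theorem c_pm_101 : CertN 536870912 536870912 536870912 536870912 469762048 67108864 3 false true false .npn 1 0 1
    ndN0q1 ndN2q1 pcN0 Cut.none Ext.none :=
  certN0 (fam := false) (s1 := true) (s2 := false) (a := 1) (b := 0) (c := 1) (cn := .npn) (n1 := ndN0q1) (n2 := ndN2q1) (pc := pcN0) (cut := Cut.none) (xt := Ext.none) (P1 := 536870912) (W1 := 536870912) (P2 := 536870912) (W2 := 536870912) (P3 := 469762048) (W3 := 67108864) (N0 := 3)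
    rfl k0_pm_101

noncomputable def f_pm_102 : ℕ → ℕ → ℕ → ℕ → Bool := onCell 536870912 536870912 1073741824 536870912 469762048 67108864
    (rowN 3 0 false true false .npp 1 0 2 (qsf 536870912 536870912 1073741824 536870912 0) ndN0q1 ndN2q2 pcN0 Cut.none Ext.none)

def k0_pm_102 : ∃ t, chk3 f_pm_102 t 2 1 1 = true :=
  ⟨(b (b (a (a (b (a (b (l 16467632) (l 16299128)) (b (a (l 16376360) (l 16389360)) (l 16369568))) (b (a (l 2) (l 16369720)) (l 2))) (b (a (b (l 16411264) (l 16405144)) (b (a (l 16438632) (l 16458912)) (a (l 16432256) (l 16455784)))) (a (b (l 16409168) (l 16419232)) (b (l 16448872) (l 16461880))))) (b (a (b (a (a (l 16494032) (l 16539488)) (b (l 16613464) (l 16600792))) (a (l 16507960) (l 16588224))) (a (b (b (l 16700568) (l 16682768)) (l 16663224)) (b (b (l 16777920) (l 16755616)) (l 16729520)))) (a (b (a (a (l 16491240) (l 16528504)) (l 16583120)) (a (l 16522768) (l 16590864))) (b (a (l 16650720) (l 16709544)) (a (l 16653144) (l 16706504)))))) (a (b (a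 (l 2) (a (l 2) (b (l 16481680) (l 2)))) (l 2)) (a (b (b (a (l 16545648) (l 16610824)) (a (l 16575840) (l 16640848))) (b (a (l 2) (l 16677960)) (l 2))) (b (b (a (l 16669976) (l 16720176)) (a (l 16698864) (b (l 16739920) (l 16757064)))) (b (a (l 16714552) (l 16784288)) (a (l 16774032) (l 16820936))))))) (a (l 2) (b (b (a (l 2) (b (l 16835160) (l 2))) (l 2)) (l 2)))), by decide +kernel⟩

def k1_pm_102 : ∃ t, chk3 f_pm_102 t 3 1 1 = true :=
  ⟨(b (a (b (b (a (b (a (b (l 16837208) (l 16815864)) (l 16861904)) (a (l 16785440) (l 16825120))) (a (b (l 16880544) (l 16843552)) (l 16906240))) (a (a (b (l 16758000) (l 16749064)) (b (l 16794600) (l 16779384))) (b (a (l 16814984) (l 16817464)) (a (l 16796160) (l 16945688))))) (a (b (a (b (l 16759392) (l 16786248)) (l 16840248)) (b (a (l 16821920) (l 16851232)) (l 17002072))) (b (a (l 16816336) (l 16832632)) (l 17151272)))) (b (b (a (a (l 16982360) (a (l 16843352) (l 16831312))) (b (a (l 16874408) (l 16790144)) (a (l 16793280) (l 16813072))))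 (a (a (a (l 16947880) (l 16944728)) (l 16806968)) (a (l 16787176) (l 16725560)))) (a (b (a (b (l 16831608) (l 16860728)) (l 16812904)) (a (l 16906496) (l 16837080))) (b (a (l 16752320) (l 16770808)) (a (b (l 16798720) (l 16741152)) (b (l 16656424) (l 16640272))))))) (a (b (a (b (b (l 16913400) (l 16948784)) (a (l 2) (l 17018800))) (b (a (l 16991000) (l 17007440)) (a (l 17072760) (l 17079000)))) (a (l 2) (b (b (l 17151056) (l 2)) (l 2)))) (b (a (b (a (l 16964064) (l 16871976)) (a (l 17005976) (l 16896968))) (a (b (l 16747600) (l 16758688)) (b (a (l 16651088) (l 16582032)) (a (l 16588536) (l 16539760))))) (a (b (a (l 17016096) (l 16837280)) (a (l 2) (l 16761800))) (b (a (b (l 16655584) (l 16603944)) (b (l 16531192) (l 16512288))) (a (a (l 16649952) (l 16600840)) (l 16506640))))))), by decide +kernel⟩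

theorem s2_pm_102 : ∃ t, chk3 f_pm_102 t 1 1 1 = true := ex3_a k0_pm_102 k1_pm_102

theorem c_pm_102 : CertN 536870912 536870912 1073741824 536870912 469762048 67108864 3 false true false .npp 1 0 2
    ndN0q1 ndN2q2 pcN0 Cut.none Ext.none :=
  certN0 (fam := false) (s1 := true) (s2 := false) (a := 1) (b := 0) (c := 2) (cn := .npp) (n1 := ndN0q1) (n2 := ndN2q2) (pc := pcN0) (cut := Cut.none) (xt := Ext.none) (P1 := 536870912) (W1 := 536870912) (P2 := 1073741824) (W2 := 536870912) (P3 := 469762048) (W3 := 67108864) (N0 := 3)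
    rfl s2_pm_102

noncomputable def f_pm_112 : ℕ → ℕ → ℕ → ℕ → Bool := onCell 536870912 536870912 1073741824 536870912 469762048 67108864
    (rowN 3 0 false true false .dn 1 1 2 (qsf 536870912 536870912 1073741824 536870912 1) ndN0q1 ndN2q2 pcN1 Cut.none Ext.none)

def k0_pm_112 : ∃ t, chk3 f_pm_112 t 2 1 1 = true :=
  ⟨(b (a (b (a (b (a (b (l 16190952) (l 16216176)) (l 138545404775)) (a (l 16247952) (b (l 16269584) (l 16295504)))) (b (a (b (l 1) (l 189548257479)) (l 1)) (a (b (l 16442072) (l 16363416)) (b (l 16394872) (l 16424320))))) (a (b (a (b (l 16277624) (l 16292696)) (b (l 16317608) (l 16336432))) (a (l 16310448) (l 16361168))) (b (b (a (l 16386472) (l 16454448)) (a (l 16409720) (l 16484648))) (b (a (l 16434224) (l 16521784)) (a (l 16457288) (l 16566488)))))) (b (a (b (l 1) (b (l 1) (a (l 16489256) (l 1)))) (l 1)) (a (b (b (a (l 16526256) (l 16601496)) (a (l 16566408) (l 16638400))) (b (a (l 16609544) (l 16678280)) (a (l 16654000) (l 16719408)))) (b (b (l 1) (a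 (l 16698816) (l 1))) (b (a (l 16736048) (l 16784912)) (a (l 16773936) (l 16820456))))))) (a (b (a (b (a (l 16321280) (l 16387872)) (a (l 16318696) (l 16458712))) (b (a (l 16518984) (l 16634800)) (a (b (l 16584872) (l 16625976)) (l 16722200)))) (b (a (b (l 16442536) (l 16485944)) (b (l 16726096) (l 16766632))) (a (a (b (l 16449224) (l 16492512)) (l 16623424)) (b (l 16808024) (l 16844984))))) (b (b (a (b (a (l 16698712) (l 16759552)) (l 16771776)) (a (l 16829424) (l 16873120))) (a (l 16830200) (l 16919936))) (b (a (b (l 16883592) (l 16918816)) (l 16978936)) (a (l 16967208) (l 17031800)))))), by decide +kernel⟩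

def k1_pm_112 : ∃ t, chk3 f_pm_112 t 3 1 1 = true :=
  ⟨(b (a (b (l 1) (a (b (l 1) (b (l 1) (l 16878696))) (l 1))) (l 1)) (a (b (a (b (b (l 16913832) (l 16948392)) (l 16997512)) (b (a (l 16991232) (l 1)) (l 17097064))) (b (a (l 17053864) (l 17171176)) (a (l 17098808) (l 17268008)))) (b (a (b (l 1) (l 306050896167)) (l 1)) (a (b (b (l 16952552) (l 16917376)) (a (l 16946624) (l 16764232))) (b (a (l 325377138871) (l 1)) (a (l 16632880) (l 16542128))))))), by decide +kernel⟩

theorem s2_pm_112 : ∃ t, chk3 f_pm_112 t 1 1 1 = true := ex3_a k0_pm_112 k1_pm_112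

theorem c_pm_112 : CertN 536870912 536870912 1073741824 536870912 469762048 67108864 3 false true false .dn 1 1 2
    ndN0q1 ndN2q2 pcN1 Cut.none Ext.none :=
  certN0 (fam := false) (s1 := true) (s2 := false) (a := 1) (b := 1) (c := 2) (cn := .dn) (n1 := ndN0q1) (n2 := ndN2q2) (pc := pcN1) (cut := Cut.none) (xt := Ext.none) (P1 := 536870912) (W1 := 536870912) (P2 := 1073741824) (W2 := 536870912) (P3 := 469762048) (W3 := 67108864) (N0 := 3)
    rfl s2_pm_112

noncomputable def cut_pm_113 : Cut := Cut.of [[⟨0, 1, 0, 67108864⟩, ⟨1, 1, 0, 67108864⟩, ⟨2, 2, 0, 16777216⟩]]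

noncomputable def f_pm_113 : ℕ → ℕ → ℕ → ℕ → Bool := onCell 536870912 536870912 0 1230186008 469762048 67108864
    (rowN 3 0 false true false .nn 1 1 3 (qsf 536870912 536870912 0 1230186008 1) ndN0q1 ndN2q3 pcN1 cut_pm_113 Ext.none)

def k0_pm_113 : ∃ t, chk3 f_pm_113 t 1 1 1 = true :=
  ⟨(b (a (l 2) (a (l 2) (b (a (l 2) (a (l 2) (b (l 6) (b (l 6) (l 16826360))))) (a (b (l 336182237095) (l 16911672)) (a (b (l 16843216) (l 16886688)) (b (a (l 16833240) (l 16850152)) (l 17005104))))))) (b (a (b (l 2) (a (l 2) (a (l 2) (b (l 2) (l 17062472))))) (a (b (a (l 2) (l 17014576)) (a (l 17235856) (l 17162648))) (b (a (l 16956024) (a (l 16948832) (l 16982088))) (a (l 17185480) (a (l 17016112) (l 17130504)))))) (a (b (a (l 2) (a (b (l 17024048) (l 17003224)) (b (l 17048944) (l 17039328)))) (a (b (a (l 2) (a (l 16784424) (l 16898328))) (a (b (a (l 2) (l 16608232)) (a (l 16413568) (l 16583360))) (b (l 16826184) (l 16801640)))) (b (a (l 16982760) (l 17029608)) (a (b (l 16967360) (l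 16948416)) (b (l 17022552) (l 17010952)))))) (b (a (a (l 17047376) (b (l 17044192) (l 17079848))) (a (b (l 17068944) (l 17046704)) (b (l 17030696) (l 17010208)))) (a (b (a (l 17057216) (l 17124552)) (a (l 17063032) (l 17173328))) (a (b (l 17000040) (b (l 16945848) (l 16917976))) (b (a (l 16952736) (l 16916768)) (b (l 16852848) (a (l 16803936) (l 16751600)))))))))), by decide +kernel⟩

theorem c_pm_113 : CertN 536870912 536870912 0 1230186008 469762048 67108864 3 false true false .nn 1 1 3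
    ndN0q1 ndN2q3 pcN1 cut_pm_113 Ext.none :=
  certN0 (fam := false) (s1 := true) (s2 := false) (a := 1) (b := 1) (c := 3) (cn := .nn) (n1 := ndN0q1) (n2 := ndN2q3) (pc := pcN1) (cut := cut_pm_113) (xt := Ext.none) (P1 := 536870912) (W1 := 536870912) (P2 := 0) (W2 := 1230186008) (P3 := 469762048) (W3 := 67108864) (N0 := 3)
    rfl k0_pm_113

noncomputable def cut_pm_123 : Cut := Cut.of [[⟨0, 1, 0, 67108864⟩, ⟨1, 1, 0, 67108864⟩, ⟨2, 2, 0, 16777216⟩]]

noncomputable def f_pm_123 : ℕ → ℕ → ℕ → ℕ → Bool := onCell 536870912 536870912 0 1230186008 469762048 67108864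
    (rowN 3 0 false true false .npn 1 2 3 (qsf 536870912 536870912 0 1230186008 2) ndN0q1 ndN2q3 pcN2 cut_pm_123 Ext.none)

def k0_pm_123 : ∃ t, chk3 f_pm_123 t 1 1 1 = true :=
  ⟨(b (b (a (a (a (l 16861936) (l 16845144)) (l 16863568)) (a (a (l 16801632) (b (l 16788592) (l 16804960))) (a (b (l 16783520) (l 16824392)) (a (b (l 16782928) (l 16802584)) (b (l 6) (a (l 16801640) (l 712998193783))))))) (a (a (a (b (l 16871912) (l 16881272)) (l 16996544)) (a (b (l 16852496) (l 16879560)) (l 16864984))) (a (a (l 16866648) (l 16871528)) (a (b (l 16844576) (l 16912296)) (b (a (l 16844192) (l 653942437015)) (a (l 583613013351) (l 1))))))) (b (a (a (b (a (l 16883016) (l 16895728)) (a (l 16857904) (l 16898448))) (a (b (l 16914312) (l 16948160)) (b (l 16934856) (l 16999408)))) (a (b (a (l 16962648) (l 16991544)) (a (l 300682330103) (l 308198617383))) (a (b (l 17115688) (l 1)) (l 1)))) (a (b (a (a (b (l 16807416) (l 16752368)) (b (l 16887336) (l 16875216))) (a (b (l 16977504) (l 17005848))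 (b (l 17065000) (l 1)))) (a (b (a (a (l 16633880) (l 16699720)) (a (l 16797920) (l 16904112))) (a (b (a (l 16529464) (l 16619072)) (a (l 16421200) (l 296922814679))) (b (l 343094655271) (l 1)))) (b (a (l 352221887223) (l 1)) (l 1)))) (l 1)))), by decide +kernel⟩

theorem c_pm_123 : CertN 536870912 536870912 0 1230186008 469762048 67108864 3 false true false .npn 1 2 3
    ndN0q1 ndN2q3 pcN2 cut_pm_123 Ext.none :=
  certN0 (fam := false) (s1 := true) (s2 := false) (a := 1) (b := 2) (c := 3) (cn := .npn) (n1 := ndN0q1) (n2 := ndN2q3) (pc := pcN2) (cut := cut_pm_123) (xt := Ext.none) (P1 := 536870912) (W1 := 536870912) (P2 := 0) (W2 := 1230186008) (P3 := 469762048) (W3 := 67108864) (N0 := 3)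
    rfl k0_pm_123

noncomputable def f_pm_133 : ℕ → ℕ → ℕ → ℕ → Bool := onCell 536870912 536870912 0 1230186008 469762048 67108864
    (rowN 3 0 false true false .dn 1 3 3 (qsf 536870912 536870912 0 1230186008 3) ndN0q1 ndN2q3 pcN3 Cut.none Ext.none)

def k0_pm_133 : ∃ t, chk3 f_pm_133 t 1 1 1 = true :=
  ⟨(b (b (a (a (a (l 16830824) (l 1)) (l 1)) (l 1)) (l 1)) (l 1)), by decide +kernel⟩

theorem c_pm_133 : CertN 536870912 536870912 0 1230186008 469762048 67108864 3 false true false .dn 1 3 3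
    ndN0q1 ndN2q3 pcN3 Cut.none Ext.none :=
  certN0 (fam := false) (s1 := true) (s2 := false) (a := 1) (b := 3) (c := 3) (cn := .dn) (n1 := ndN0q1) (n2 := ndN2q3) (pc := pcN3) (cut := Cut.none) (xt := Ext.none) (P1 := 536870912) (W1 := 536870912) (P2 := 0) (W2 := 1230186008) (P3 := 469762048) (W3 := 67108864) (N0 := 3)
    rfl k0_pm_133

noncomputable def f_pm_202 : ℕ → ℕ → ℕ → ℕ → Bool := onCell 0 536870912 0 536870912 469762048 67108864
    (rowN 3 1 false true false .pp 2 0 2 (qsf 0 536870912 1073741824 536870912 0) ndN0q2 ndN2q2 pcN0 Cut.none Ext.none)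

def k0_pm_202 : ∃ t, chk3 f_pm_202 t 2 1 1 = true :=
  ⟨(l 3), by decide +kernel⟩

def k1_pm_202 : ∃ t, chk3 f_pm_202 t 3 4 1 = true :=
  ⟨(a (b (a (a (l 3) (l 3)) (a (b (a (b (b (a (b (c (l 132237689239) (l 16602280)) (a (c (l 134922041143) (l 16599856)) (l 16607736))) (l 16590352)) (b (a (a (l 152638775383) (a (l 16585008) (l 16585544))) (l 16608728)) (a (a (l 148343800519) (l 16584016)) (a (l 16585032) (l 16586520))))) (b (a (b (l 155323109031) (l 152638744791)) (b (l 16584200) (l 16582872))) (a (a (l 3) (l 158007440759)) (l 16580872)))) (b (l 16594472) (b (c (l 16656264) (l 16625320)) (a (l 16582608) (l 16585632))))) (a (a (b (b (l 145659387975) (l 144048770279)) (l 3)) (b (b (l 16578264) (l 16575696)) (b (l 162302398471) (l 158544295703)))) (b (a (l 16578192) (l 16663640)) (a (l 16572496) (l 16573296))))) (b (b (l 16609056) (l 16598456)) (b (a (b (l 16713584) (l 16581848)) (l 16591992)) (a (a (l 16574328) (l 16576240)) (b (l 16583568) (l 16578240))))))) (a (l 3)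 (a (a (a (l 3) (b (b (b (l 154786193303) (l 151028088087)) (a (l 3) (l 151028089431))) (b (l 142974996087) (l 3)))) (c (b (b (l 16571984) (l 16567232)) (b (l 123647693239) (l 157470551559))) (b (b (l 16561592) (l 16556104)) (b (l 126868887479) (l 156933648727))))) (b (a (b (l 16567808) (l 16561048)) (b (l 16570440) (l 16561112))) (b (l 16680024) (l 16673240)))))) (b (a (b (a (b (l 16633968) (l 16620320)) (l 16657496)) (l 16633192)) (b (b (l 16930752) (l 16892184)) (a (l 16655992) (l 16705448)))) (a (a (b (b (l 16580304) (l 16567904)) (l 16675696)) (l 16582648)) (b (l 16659312) (l 16638728))))), by decide +kernel⟩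

def k2_pm_202 : ∃ t, chk3 f_pm_202 t 3 5 1 = true :=
  ⟨(a (a (l 3) (b (a (a (l 3) (b (a (b (l 147806834679) (l 142974974839)) (b (l 16546256) (l 16540952))) (b (l 148880532183) (l 146196165335)))) (b (a (b (l 16542672) (l 16536488)) (l 16576816)) (a (b (l 16530152) (l 16523584)) (l 16519608)))) (a (a (l 3) (b (b (l 147806764807) (l 3)) (l 3))) (a (b (b (l 16516672) (l 151564873399)) (b (l 142974923543) (l 139753677079))) (b (l 16503336) (l 16506312)))))) (b (b (a (a (l 16549952) (l 16545512)) (l 16617488)) (a (a (l 16510040) (l 16519696)) (a (l 16568072) (l 16618912)))) (a (b (l 16670488) (a (l 16467800) (l 16459888))) (a (l 16612736) (l 16578352))))), by decide +kernel⟩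

def k3_pm_202 : ∃ t, chk3 f_pm_202 t 3 3 1 = true :=
  ⟨(b (a (a (l 3) (a (l 3) (a (b (b (l 129553247255) (l 149954273975)) (l 3)) (b (b (l 16464752) (l 16482344)) (b (b (l 16418456) (l 156933469383)) (b (l 155859680183) (l 154785897911))))))) (b (a (b (l 16586888) (l 16524256)) (a (l 16476584) (l 16598600))) (a (b (a (b (l 16390080) (l 16392280)) (l 16398624)) (a (a (l 16399056) (l 16354472)) (l 16390312))) (a (b (l 16447528) (l 16436624)) (l 16488520))))) (a (b (a (l 3) (a (l 3) (a (l 3) (b (b (l 154248976119) (l 161765035319)) (b (l 251422601639) (l 3)))))) (l 2)) (b (a (b (a (b (l 16382616) (l 16408536)) (l 16385720)) (a (a (b (l 16379536) (l 152101734919)) (l 16392096)) (l 16384944))) (b (a (l 16429088) (l 16472408)) (a (l 16421024) (l 16460872)))) (b (a (a (b (l 723802157751) (l 2)) (l 16475760)) (a (l 16449192) (l 16450416))) (a (l 2) (a (l 16543472) (l 16519696))))))), by decide +kernel⟩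

theorem s4_pm_202 : ∃ t, chk3 f_pm_202 t 3 2 1 = true := ex3_b k1_pm_202 k2_pm_202

theorem s5_pm_202 : ∃ t, chk3 f_pm_202 t 3 1 1 = true := ex3_b s4_pm_202 k3_pm_202

theorem s6_pm_202 : ∃ t, chk3 f_pm_202 t 1 1 1 = true := ex3_a k0_pm_202 s5_pm_202

theorem c_pm_202 : CertN 0 536870912 1073741824 536870912 469762048 67108864 3 false true false .pp 2 0 2
    ndN0q2 ndN2q2 pcN0 Cut.none Ext.none :=
  certN1 (fam := false) (s1 := true) (s2 := false) (a := 2) (b := 0) (c := 2) (cn := .pp) (n1 := ndN0q2) (n2 := ndN2q2) (pc := pcN0) (cut := Cut.none) (xt := Ext.none) (P1 := 0) (W1 := 536870912) (P2 := 1073741824) (W2 := 536870912) (P3 := 469762048) (W3 := 67108864) (N0 := 3)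
    rfl (fun _ => rfl) s6_pm_202

noncomputable def f_pm_203 : ℕ → ℕ → ℕ → ℕ → Bool := onCell 0 536870912 0 1230186008 469762048 67108864
    (rowN 3 0 false true false .up 2 0 3 (qsf 0 536870912 0 1230186008 0) ndN0q2 ndN2q3 pcN0 Cut.none Ext.none)

def k0_pm_203 : ∃ t, chk3 f_pm_203 t 1 1 1 = true :=
  ⟨(b (l 2) (a (l 3) (b (l 2) (b (l 2) (a (b (l 3) (a (l 3) (l 3))) (b (a (a (a (a (l 3) (l 2)) (l 2)) (l 2)) (l 2)) (a (b (a (a (b (l 154249559127) (l 152101993031)) (b (l 16718832) (l 16676392))) (l 16715432)) (a (b (a (b (l 149954399895) (l 149417466455)) (l 16631008)) (a (l 148880619943) (l 16591528))) (l 16633744))) (b (a (l 16739360) (l 2)) (a (l 16664352) (l 16696456)))))))))), by decide +kernel⟩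

theorem c_pm_203 : CertN 0 536870912 0 1230186008 469762048 67108864 3 false true false .up 2 0 3
    ndN0q2 ndN2q3 pcN0 Cut.none Ext.none :=
  certN0 (fam := false) (s1 := true) (s2 := false) (a := 2) (b := 0) (c := 3) (cn := .up) (n1 := ndN0q2) (n2 := ndN2q3) (pc := pcN0) (cut := Cut.none) (xt := Ext.none) (P1 := 0) (W1 := 536870912) (P2 := 0) (W2 := 1230186008) (P3 := 469762048) (W3 := 67108864) (N0 := 3)
    rfl k0_pm_203

noncomputable def cut_pm_213 : Cut := Cut.of [[⟨0, 1, 0, 67108864⟩, ⟨1, 1, 0, 67108864⟩, ⟨2, 2, 0, 16777216⟩]]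

noncomputable def f_pm_213 : ℕ → ℕ → ℕ → ℕ → Bool := onCell 0 536870912 0 1230186008 469762048 67108864
    (rowN 3 0 false true false .pnn 2 1 3 (qsf 0 536870912 0 1230186008 1) ndN0q2 ndN2q3 pcN1 cut_pm_213 Ext.none)

def k0_pm_213 : ∃ t, chk3 f_pm_213 t 1 1 1 = true :=
  ⟨(b (a (l 3) (a (l 3) (b (a (l 3) (b (l 6) (a (l 3) (a (b (l 6) (b (a (l 422148347687) (l 279340684903)) (l 274508860423))) (b (l 6) (l 16801456)))))) (a (b (l 3) (l 3)) (b (a (a (l 3) (b (l 450065667927) (l 257329046535))) (a (b (b (l 255181522375) (l 16787784)) (l 16833856)) (b (l 16817200) (l 16836752)))) (a (b (a (l 464024384071) (l 225116855271)) (l 216527005671)) (b (l 16858168) (l 16884560)))))))) (b (a (l 3) (a (l 3) (b (a (a (l 3) (b (l 3) (l 292225851255))) (a (b (l 196125971447) (l 16937832)) (b (l 16914152) (l 16946344)))) (a (a (l 3) (b (l 188073028391) (a (l 173577515911) (l 16997456)))) (b (a (l 16971344) (l 16979632)) (a (l 17001664) (l 17010144))))))) (b (a (l 3) (a (l 3) (a (b (a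 (l 3) (b (l 151029056743) (l 17003160))) (a (a (l 3) (b (l 167672012247) (l 160155666631))) (b (a (l 16987488) (l 16993056)) (l 16948576)))) (a (b (b (l 17010776) (l 17008200)) (b (l 16999136) (l 16971368))) (b (l 17020176) (l 17041536)))))) (a (l 3) (a (b (l 3) (l 1)) (b (a (a (b (a (l 3) (b (l 16876672) (l 16835560))) (b (a (l 3) (l 16790728)) (l 150491566391))) (b (a (l 16874384) (l 16891152)) (a (l 16788776) (l 16805848)))) (a (b (l 16915480) (l 16835016)) (l 16890960))) (a (b (a (b (a (l 153175793031) (l 16719176)) (l 1)) (l 16716424)) (l 1)) (b (a (l 16744688) (l 16781080)) (a (l 16669416) (l 16700552)))))))))), by decide +kernel⟩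

theorem c_pm_213 : CertN 0 536870912 0 1230186008 469762048 67108864 3 false true false .pnn 2 1 3
    ndN0q2 ndN2q3 pcN1 cut_pm_213 Ext.none :=
  certN0 (fam := false) (s1 := true) (s2 := false) (a := 2) (b := 1) (c := 3) (cn := .pnn) (n1 := ndN0q2) (n2 := ndN2q3) (pc := pcN1) (cut := cut_pm_213) (xt := Ext.none) (P1 := 0) (W1 := 536870912) (P2 := 0) (W2 := 1230186008) (P3 := 469762048) (W3 := 67108864) (N0 := 3)
    rfl k0_pm_213

noncomputable def f_mm_001 : ℕ → ℕ → ℕ → ℕ → Bool := onCell 0 536870912 0 536870912 469762048 67108864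
    (rowN 3 1 false false false .up 0 0 1 (qsf 0 536870912 536870912 536870912 0) ndN0q0 ndN2q1 pcN0 Cut.none Ext.none)

def k0_mm_001 : ∃ t, chk3 f_mm_001 t 1 1 1 = true :=
  ⟨(l 3), by decide +kernel⟩

theorem c_mm_001 : CertN 0 536870912 536870912 536870912 469762048 67108864 3 false false false .up 0 0 1
    ndN0q0 ndN2q1 pcN0 Cut.none Ext.none :=
  certN1 (fam := false) (s1 := false) (s2 := false) (a := 0) (b := 0) (c := 1) (cn := .up) (n1 := ndN0q0) (n2 := ndN2q1) (pc := pcN0) (cut := Cut.none) (xt := Ext.none) (P1 := 0) (W1 := 536870912) (P2 := 536870912) (W2 := 536870912) (P3 := 469762048) (W3 := 67108864) (N0 := 3)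
    rfl (fun _ => rfl) k0_mm_001

noncomputable def f_mm_011 : ℕ → ℕ → ℕ → ℕ → Bool := onCell 0 536870912 536870912 536870912 469762048 67108864
    (rowN 3 1 false false false .pnn 0 1 1 (qsf 0 536870912 536870912 536870912 1) ndN0q0 ndN2q1 pcN1 Cut.none Ext.none)

def k0_mm_011 : ∃ t, chk3 f_mm_011 t 1 1 1 = true :=
  ⟨(l 5), by decide +kernel⟩

theorem c_mm_011 : CertN 0 536870912 536870912 536870912 469762048 67108864 3 false false false .pnn 0 1 1
    ndN0q0 ndN2q1 pcN1 Cut.none Ext.none :=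
  certN1 (fam := false) (s1 := false) (s2 := false) (a := 0) (b := 1) (c := 1) (cn := .pnn) (n1 := ndN0q0) (n2 := ndN2q1) (pc := pcN1) (cut := Cut.none) (xt := Ext.none) (P1 := 0) (W1 := 536870912) (P2 := 536870912) (W2 := 536870912) (P3 := 469762048) (W3 := 67108864) (N0 := 3)
    rfl (fun _ => rfl) k0_mm_011

noncomputable def f_mm_012 : ℕ → ℕ → ℕ → ℕ → Bool := onCell 0 536870912 1073741824 536870912 469762048 67108864
    (rowN 3 0 false false false .pnp 0 1 2 (qsf 0 536870912 1073741824 536870912 1) ndN0q0 ndN2q2 pcN1 Cut.none Ext.none)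

def k0_mm_012 : ∃ t, chk3 f_mm_012 t 1 1 1 = true :=
  ⟨(l 5), by decide +kernel⟩

theorem c_mm_012 : CertN 0 536870912 1073741824 536870912 469762048 67108864 3 false false false .pnp 0 1 2
    ndN0q0 ndN2q2 pcN1 Cut.none Ext.none :=
  certN0 (fam := false) (s1 := false) (s2 := false) (a := 0) (b := 1) (c := 2) (cn := .pnp) (n1 := ndN0q0) (n2 := ndN2q2) (pc := pcN1) (cut := Cut.none) (xt := Ext.none) (P1 := 0) (W1 := 536870912) (P2 := 1073741824) (W2 := 536870912) (P3 := 469762048) (W3 := 67108864) (N0 := 3)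
    rfl k0_mm_012

noncomputable def f_mm_022 : ℕ → ℕ → ℕ → ℕ → Bool := onCell 0 536870912 1073741824 536870912 469762048 67108864
    (rowN 3 0 false false false .pp 0 2 2 (qsf 0 536870912 1073741824 536870912 2) ndN0q0 ndN2q2 pcN2 Cut.none Ext.none)

def k0_mm_022 : ∃ t, chk3 f_mm_022 t 1 1 1 = true :=
  ⟨(l 5), by decide +kernel⟩

theorem c_mm_022 : CertN 0 536870912 1073741824 536870912 469762048 67108864 3 false false false .pp 0 2 2
    ndN0q0 ndN2q2 pcN2 Cut.none Ext.none :=
  certN0 (fam := false) (s1 := false) (s2 := false) (a := 0) (b := 2) (c := 2) (cn := .pp) (n1 := ndN0q0) (n2 := ndN2q2) (pc := pcN2) (cut := Cut.none) (xt := Ext.none) (P1 := 0) (W1 := 536870912) (P2 := 1073741824) (W2 := 536870912) (P3 := 469762048) (W3 := 67108864) (N0 := 3)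
    rfl k0_mm_022

noncomputable def f_mm_023 : ℕ → ℕ → ℕ → ℕ → Bool := onCell 0 536870912 0 1230186008 469762048 67108864
    (rowN 3 0 false false false .up 0 2 3 (qsf 0 536870912 0 1230186008 2) ndN0q0 ndN2q3 pcN2 Cut.none Ext.none)

def k0_mm_023 : ∃ t, chk3 f_mm_023 t 1 1 1 = true :=
  ⟨(l 5), by decide +kernel⟩

theorem c_mm_023 : CertN 0 536870912 0 1230186008 469762048 67108864 3 false false false .up 0 2 3
    ndN0q0 ndN2q3 pcN2 Cut.none Ext.none :=
  certN0 (fam := false) (s1 := false) (s2 := false) (a := 0) (b := 2) (c := 3) (cn := .up) (n1 := ndN0q0) (n2 := ndN2q3) (pc := pcN2) (cut := Cut.none) (xt := Ext.none) (P1 := 0) (W1 := 536870912) (P2 := 0) (W2 := 1230186008) (P3 := 469762048) (W3 := 67108864) (N0 := 3)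
    rfl k0_mm_023

noncomputable def f_mm_033 : ℕ → ℕ → ℕ → ℕ → Bool := onCell 0 536870912 0 1230186008 469762048 67108864
    (rowN 3 0 false false false .pnn 0 3 3 (qsf 0 536870912 0 1230186008 3) ndN0q0 ndN2q3 pcN3 Cut.none Ext.none)

def k0_mm_033 : ∃ t, chk3 f_mm_033 t 1 1 1 = true :=
  ⟨(l 5), by decide +kernel⟩

theorem c_mm_033 : CertN 0 536870912 0 1230186008 469762048 67108864 3 false false false .pnn 0 3 3
    ndN0q0 ndN2q3 pcN3 Cut.none Ext.none :=
  certN0 (fam := false) (s1 := false) (s2 := false) (a := 0) (b := 3) (c := 3) (cn := .pnn) (n1 := ndN0q0) (n2 := ndN2q3) (pc := pcN3) (cut := Cut.none) (xt := Ext.none) (P1 := 0) (W1 := 536870912) (P2 := 0) (W2 := 1230186008) (P3 := 469762048) (W3 := 67108864) (N0 := 3)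
    rfl k0_mm_033

noncomputable def cut_mm_101 : Cut := Cut.of [[⟨0, 1, 0, 67108864⟩, ⟨1, 0, 0, 67108864⟩, ⟨2, 1, 0, 67108864⟩]]

noncomputable def f_mm_101 : ℕ → ℕ → ℕ → ℕ → Bool := onCell 536870912 536870912 0 536870912 469762048 67108864
    (rowN 3 1 false false false .npn 1 0 1 (qsf 536870912 536870912 536870912 536870912 0) ndN0q1 ndN2q1 pcN0 cut_mm_101 Ext.none)

def k0_mm_101 : ∃ t, chk3 f_mm_101 t 1 1 1 = true :=
  ⟨(a (l 3) (b (a (l 3) (b (a (l 3) (b (a (l 3) (b (l 6) (l 3))) (l 3))) (l 3))) (l 3))), by decide +kernel⟩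

theorem c_mm_101 : CertN 536870912 536870912 536870912 536870912 469762048 67108864 3 false false false .npn 1 0 1
    ndN0q1 ndN2q1 pcN0 cut_mm_101 Ext.none :=
  certN1 (fam := false) (s1 := false) (s2 := false) (a := 1) (b := 0) (c := 1) (cn := .npn) (n1 := ndN0q1) (n2 := ndN2q1) (pc := pcN0) (cut := cut_mm_101) (xt := Ext.none) (P1 := 536870912) (W1 := 536870912) (P2 := 536870912) (W2 := 536870912) (P3 := 469762048) (W3 := 67108864) (N0 := 3)
    rfl (fun _ => rfl) k0_mm_101

noncomputable def f_mm_102 : ℕ → ℕ → ℕ → ℕ → Bool := onCell 536870912 536870912 0 536870912 469762048 67108864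
    (rowN 3 1 false false false .npp 1 0 2 (qsf 536870912 536870912 1073741824 536870912 0) ndN0q1 ndN2q2 pcN0 Cut.none Ext.none)

def k0_mm_102 : ∃ t, chk3 f_mm_102 t 1 1 1 = true :=
  ⟨(l 3), by decide +kernel⟩

theorem c_mm_102 : CertN 536870912 536870912 1073741824 536870912 469762048 67108864 3 false false false .npp 1 0 2
    ndN0q1 ndN2q2 pcN0 Cut.none Ext.none :=
  certN1 (fam := false) (s1 := false) (s2 := false) (a := 1) (b := 0) (c := 2) (cn := .npp) (n1 := ndN0q1) (n2 := ndN2q2) (pc := pcN0) (cut := Cut.none) (xt := Ext.none) (P1 := 536870912) (W1 := 536870912) (P2 := 1073741824) (W2 := 536870912) (P3 := 469762048) (W3 := 67108864) (N0 := 3)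
    rfl (fun _ => rfl) k0_mm_102

noncomputable def f_mm_112 : ℕ → ℕ → ℕ → ℕ → Bool := onCell 536870912 536870912 1073741824 536870912 469762048 67108864
    (rowN 3 2 false false false .dn 1 1 2 (qsf 536870912 536870912 1073741824 536870912 1) ndN0q1 ndN2q2 pcN1 Cut.none Ext.none)

def k0_mm_112 : ∃ t, chk3 f_mm_112 t 1 1 1 = true :=
  ⟨(l 5), by decide +kernel⟩

theorem c_mm_112 : CertN 536870912 536870912 1073741824 536870912 469762048 67108864 3 false false false .dn 1 1 2
    ndN0q1 ndN2q2 pcN1 Cut.none Ext.none :=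
  certN2 (fam := false) (s1 := false) (s2 := false) (a := 1) (b := 1) (c := 2) (cn := .dn) (n1 := ndN0q1) (n2 := ndN2q2) (pc := pcN1) (cut := Cut.none) (xt := Ext.none) (P1 := 536870912) (W1 := 536870912) (P2 := 1073741824) (W2 := 536870912) (P3 := 469762048) (W3 := 67108864) (N0 := 3)
    rfl (fun _ => rfl) k0_mm_112

noncomputable def f_mm_113 : ℕ → ℕ → ℕ → ℕ → Bool := onCell 536870912 536870912 0 1230186008 469762048 67108864
    (rowN 3 0 false false false .nn 1 1 3 (qsf 536870912 536870912 0 1230186008 1) ndN0q1 ndN2q3 pcN1 Cut.none Ext.none)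

def k0_mm_113 : ∃ t, chk3 f_mm_113 t 1 1 1 = true :=
  ⟨(b (l 5) (l 5)), by decide +kernel⟩

theorem c_mm_113 : CertN 536870912 536870912 0 1230186008 469762048 67108864 3 false false false .nn 1 1 3
    ndN0q1 ndN2q3 pcN1 Cut.none Ext.none :=
  certN0 (fam := false) (s1 := false) (s2 := false) (a := 1) (b := 1) (c := 3) (cn := .nn) (n1 := ndN0q1) (n2 := ndN2q3) (pc := pcN1) (cut := Cut.none) (xt := Ext.none) (P1 := 536870912) (W1 := 536870912) (P2 := 0) (W2 := 1230186008) (P3 := 469762048) (W3 := 67108864) (N0 := 3)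
    rfl k0_mm_113

noncomputable def f_mm_123 : ℕ → ℕ → ℕ → ℕ → Bool := onCell 536870912 536870912 0 1230186008 469762048 67108864
    (rowN 3 0 false false false .npn 1 2 3 (qsf 536870912 536870912 0 1230186008 2) ndN0q1 ndN2q3 pcN2 Cut.none Ext.none)

def k0_mm_123 : ∃ t, chk3 f_mm_123 t 1 1 1 = true :=
  ⟨(b (l 5) (l 5)), by decide +kernel⟩

theorem c_mm_123 : CertN 536870912 536870912 0 1230186008 469762048 67108864 3 false false false .npn 1 2 3
    ndN0q1 ndN2q3 pcN2 Cut.none Ext.none :=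
  certN0 (fam := false) (s1 := false) (s2 := false) (a := 1) (b := 2) (c := 3) (cn := .npn) (n1 := ndN0q1) (n2 := ndN2q3) (pc := pcN2) (cut := Cut.none) (xt := Ext.none) (P1 := 536870912) (W1 := 536870912) (P2 := 0) (W2 := 1230186008) (P3 := 469762048) (W3 := 67108864) (N0 := 3)
    rfl k0_mm_123

noncomputable def f_mm_133 : ℕ → ℕ → ℕ → ℕ → Bool := onCell 1610612736 536870912 0 1230186008 469762048 67108864
    (rowN 3 2 false false false .dn 1 3 3 (qsf 536870912 536870912 0 1230186008 3) ndN0q1 ndN2q3 pcN3 Cut.none Ext.none)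

def k0_mm_133 : ∃ t, chk3 f_mm_133 t 1 1 1 = true :=
  ⟨(l 5), by decide +kernel⟩

theorem c_mm_133 : CertN 536870912 536870912 0 1230186008 469762048 67108864 3 false false false .dn 1 3 3
    ndN0q1 ndN2q3 pcN3 Cut.none Ext.none :=
  certN2 (fam := false) (s1 := false) (s2 := false) (a := 1) (b := 3) (c := 3) (cn := .dn) (n1 := ndN0q1) (n2 := ndN2q3) (pc := pcN3) (cut := Cut.none) (xt := Ext.none) (P1 := 536870912) (W1 := 536870912) (P2 := 0) (W2 := 1230186008) (P3 := 469762048) (W3 := 67108864) (N0 := 3)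
    rfl (fun _ => rfl) k0_mm_133

noncomputable def f_mm_202 : ℕ → ℕ → ℕ → ℕ → Bool := onCell 0 536870912 1073741824 536870912 469762048 67108864
    (rowN 3 0 false false false .pp 2 0 2 (qsf 0 536870912 1073741824 536870912 0) ndN0q2 ndN2q2 pcN0 Cut.none Ext.none)

def k0_mm_202 : ∃ t, chk3 f_mm_202 t 1 1 1 = true :=
  ⟨(l 3), by decide +kernel⟩

theorem c_mm_202 : CertN 0 536870912 1073741824 536870912 469762048 67108864 3 false false false .pp 2 0 2
    ndN0q2 ndN2q2 pcN0 Cut.none Ext.none :=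
  certN0 (fam := false) (s1 := false) (s2 := false) (a := 2) (b := 0) (c := 2) (cn := .pp) (n1 := ndN0q2) (n2 := ndN2q2) (pc := pcN0) (cut := Cut.none) (xt := Ext.none) (P1 := 0) (W1 := 536870912) (P2 := 1073741824) (W2 := 536870912) (P3 := 469762048) (W3 := 67108864) (N0 := 3)
    rfl k0_mm_202

noncomputable def f_mm_203 : ℕ → ℕ → ℕ → ℕ → Bool := onCell 0 536870912 0 1230186008 469762048 67108864
    (rowN 3 0 false false false .up 2 0 3 (qsf 0 536870912 0 1230186008 0) ndN0q2 ndN2q3 pcN0 Cut.none Ext.none)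

def k0_mm_203 : ∃ t, chk3 f_mm_203 t 1 1 1 = true :=
  ⟨(b (l 2) (l 3)), by decide +kernel⟩

theorem c_mm_203 : CertN 0 536870912 0 1230186008 469762048 67108864 3 false false false .up 2 0 3
    ndN0q2 ndN2q3 pcN0 Cut.none Ext.none :=
  certN0 (fam := false) (s1 := false) (s2 := false) (a := 2) (b := 0) (c := 3) (cn := .up) (n1 := ndN0q2) (n2 := ndN2q3) (pc := pcN0) (cut := Cut.none) (xt := Ext.none) (P1 := 0) (W1 := 536870912) (P2 := 0) (W2 := 1230186008) (P3 := 469762048) (W3 := 67108864) (N0 := 3)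
    rfl k0_mm_203

noncomputable def f_mm_213 : ℕ → ℕ → ℕ → ℕ → Bool := onCell 0 536870912 0 1230186008 469762048 67108864
    (rowN 3 0 false false false .pnn 2 1 3 (qsf 0 536870912 0 1230186008 1) ndN0q2 ndN2q3 pcN1 Cut.none Ext.none)

def k0_mm_213 : ∃ t, chk3 f_mm_213 t 1 1 1 = true :=
  ⟨(b (a (l 3) (l 5)) (l 3)), by decide +kernel⟩

theorem c_mm_213 : CertN 0 536870912 0 1230186008 469762048 67108864 3 false false false .pnn 2 1 3
    ndN0q2 ndN2q3 pcN1 Cut.none Ext.none :=
  certN0 (fam := false) (s1 := false) (s2 := false) (a := 2) (b := 1) (c := 3) (cn := .pnn) (n1 := ndN0q2) (n2 := ndN2q3) (pc := pcN1) (cut := Cut.none) (xt := Ext.none) (P1 := 0) (W1 := 536870912) (P2 := 0) (W2 := 1230186008) (P3 := 469762048) (W3 := 67108864) (N0 := 3)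
    rfl k0_mm_213

end Pool.Agent.Strip051.G.I7_16_1_2.Tab.C.NB02

namespace Pool.Agent.Strip051.G.I7_16_1_2.Tab.C.NB03

open Pool.Agent.Strip051.PB Pool.Agent.Strip051.PB.T
open Pool.Agent.Strip051.G.I7_16_1_2.Tab

noncomputable def f_pp_001 : ℕ → ℕ → ℕ → ℕ → Bool := onCell 0 536870912 0 536870912 469762048 67108864
    (rowN 3 1 false true true .up 0 0 1 (qsf 0 536870912 536870912 536870912 0) ndN0q0 ndN3q1 pcN0 Cut.none Ext.none)

def k0_pp_001 : ∃ t, chk3 f_pp_001 t 1 1 1 = true :=
  ⟨(l 3), by decide +kernel⟩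

theorem c_pp_001 : CertN 0 536870912 536870912 536870912 469762048 67108864 3 false true true .up 0 0 1
    ndN0q0 ndN3q1 pcN0 Cut.none Ext.none :=
  certN1 (fam := false) (s1 := true) (s2 := true) (a := 0) (b := 0) (c := 1) (cn := .up) (n1 := ndN0q0) (n2 := ndN3q1) (pc := pcN0) (cut := Cut.none) (xt := Ext.none) (P1 := 0) (W1 := 536870912) (P2 := 536870912) (W2 := 536870912) (P3 := 469762048) (W3 := 67108864) (N0 := 3)
    rfl (fun _ => rfl) k0_pp_001

noncomputable def cut_pp_011 : Cut := Cut.of [[⟨0, 0, 0, 67108864⟩, ⟨1, 1, 0, 67108864⟩, ⟨2, 1, 0, 67108864⟩]]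

noncomputable def f_pp_011 : ℕ → ℕ → ℕ → ℕ → Bool := onCell 0 536870912 536870912 536870912 469762048 67108864
    (rowN 3 1 false true true .pnn 0 1 1 (qsf 0 536870912 536870912 536870912 1) ndN0q0 ndN3q1 pcN1 cut_pp_011 Ext.none)

def k0_pp_011 : ∃ t, chk3 f_pp_011 t 1 1 1 = true :=
  ⟨(b (l 3) (a (b (l 3) (a (b (l 3) (a (b (l 3) (a (l 6) (l 3))) (l 3))) (l 3))) (l 3))), by decide +kernel⟩

theorem c_pp_011 : CertN 0 536870912 536870912 536870912 469762048 67108864 3 false true true .pnn 0 1 1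
    ndN0q0 ndN3q1 pcN1 cut_pp_011 Ext.none :=
  certN1 (fam := false) (s1 := true) (s2 := true) (a := 0) (b := 1) (c := 1) (cn := .pnn) (n1 := ndN0q0) (n2 := ndN3q1) (pc := pcN1) (cut := cut_pp_011) (xt := Ext.none) (P1 := 0) (W1 := 536870912) (P2 := 536870912) (W2 := 536870912) (P3 := 469762048) (W3 := 67108864) (N0 := 3)
    rfl (fun _ => rfl) k0_pp_011

noncomputable def f_pp_012 : ℕ → ℕ → ℕ → ℕ → Bool := onCell 0 536870912 536870912 536870912 469762048 67108864
    (rowN 3 1 false true true .pnp 0 1 2 (qsf 0 536870912 1073741824 536870912 1) ndN0q0 ndN3q2 pcN1 Cut.none Ext.none)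

def k0_pp_012 : ∃ t, chk3 f_pp_012 t 1 1 1 = true :=
  ⟨(l 3), by decide +kernel⟩

theorem c_pp_012 : CertN 0 536870912 1073741824 536870912 469762048 67108864 3 false true true .pnp 0 1 2
    ndN0q0 ndN3q2 pcN1 Cut.none Ext.none :=
  certN1 (fam := false) (s1 := true) (s2 := true) (a := 0) (b := 1) (c := 2) (cn := .pnp) (n1 := ndN0q0) (n2 := ndN3q2) (pc := pcN1) (cut := Cut.none) (xt := Ext.none) (P1 := 0) (W1 := 536870912) (P2 := 1073741824) (W2 := 536870912) (P3 := 469762048) (W3 := 67108864) (N0 := 3)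
    rfl (fun _ => rfl) k0_pp_012

noncomputable def f_pp_022 : ℕ → ℕ → ℕ → ℕ → Bool := onCell 0 536870912 1073741824 536870912 469762048 67108864
    (rowN 3 1 false true true .pp 0 2 2 (qsf 0 536870912 1073741824 536870912 2) ndN0q0 ndN3q2 pcN2 Cut.none Ext.none)

def k0_pp_022 : ∃ t, chk3 f_pp_022 t 1 1 1 = true :=
  ⟨(a (b (b (l 3) (b (b (b (l 3) (b (l 3) (a (b (l 3) (b (a (l 3) (a (l 16488896) (l 16459472))) (a (a (l 16467408) (l 16467536)) (a (l 16463584) (l 16455040))))) (b (a (l 16465544) (l 16558336)) (b (a (l 16521336) (l 16572768)) (a (l 16433112) (l 16526784))))))) (a (a (a (l 16452776) (l 16431256)) (a (l 16426576) (l 16396264))) (a (l 16459104) (a (l 16414592) (l 16467104))))) (a (a (a (l 16435568) (l 16391056)) (a (l 16310136) (l 16309552))) (a (l 16417928) (b (l 16385616) (l 16320712)))))) (b (a (a (b (a (l 16194568) (l 16209984)) (a (l 16056696) (l 16047784))) (b (l 16235008) (l 16025320))) (a (b (l 16216584) (l 16184536)) (b (l 16295432) (l 16451488))))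 (a (b (a (l 15911248) (l 16072024)) (a (a (l 15903392) (l 16116312)) (l 16361272))) (b (a (b (l 16346416) (l 2)) (l 2)) (l 2))))) (b (b (l 3) (b (b (b (a (l 3) (a (a (l 3) (l 2)) (l 2))) (a (b (a (l 124721615431) (a (l 16640264) (l 16691424))) (b (a (l 16605640) (l 16653680)) (b (a (l 16599760) (l 16648504)) (a (l 16554112) (l 16645160))))) (l 2))) (a (a (l 16564328) (l 16616464)) (l 2))) (a (a (l 16539856) (l 16627744)) (l 2)))) (b (a (a (b (l 16525376) (l 2)) (l 2)) (l 2)) (l 2)))), by decide +kernel⟩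

theorem c_pp_022 : CertN 0 536870912 1073741824 536870912 469762048 67108864 3 false true true .pp 0 2 2
    ndN0q0 ndN3q2 pcN2 Cut.none Ext.none :=
  certN1 (fam := false) (s1 := true) (s2 := true) (a := 0) (b := 2) (c := 2) (cn := .pp) (n1 := ndN0q0) (n2 := ndN3q2) (pc := pcN2) (cut := Cut.none) (xt := Ext.none) (P1 := 0) (W1 := 536870912) (P2 := 1073741824) (W2 := 536870912) (P3 := 469762048) (W3 := 67108864) (N0 := 3)
    rfl (fun _ => rfl) k0_pp_022

end Pool.Agent.Strip051.G.I7_16_1_2.Tab.C.NB03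

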