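import Pool.Agent.Strip051.G.I7_16_1_2.Tab

/-! # Certificates N15 (generated) -/

set_option linter.all false
set_option maxRecDepth 100000

namespace Pool.Agent.Strip051.G.I7_16_1_2.Tab.C.NB03

open Pool.Agent.Strip051.PB Pool.Agent.Strip051.PB.T
open Pool.Agent.Strip051.G.I7_16_1_2.Tab

noncomputable def f_pp_023 : ℕ → ℕ → ℕ → ℕ → Bool := onCell 1073741824 536870912 0 1230186008 469762048 67108864
    (rowN 3 2 false true true .up 0 2 3 (qsf 0 536870912 0 1230186008 2) ndN0q0 ndN3q3 pcN2 Cut.none Ext.none)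

def k0_pp_023 : ∃ t, chk3 f_pp_023 t 1 2 1 = true :=
  ⟨(a (l 2) (a (l 2) (b (a (l 2) (l 16854296)) (a (b (l 16839560) (l 16846000)) (b (l 16850392) (l 16856464)))))), by decide +kernel⟩

def k1_pp_023 : ∃ t, chk3 f_pp_023 t 1 3 1 = true :=
  ⟨(b (a (a (l 2) (a (l 2) (b (l 2) (b (l 2) (l 16837616))))) (a (b (a (l 2) (l 16831760)) (a (b (l 16802656) (l 16784912)) (b (l 16819304) (l 16802232)))) (a (b (l 16848080) (b (l 16839360) (l 16824664))) (b (l 16865760) (l 16858096))))) (a (a (b (l 2) (l 3)) (a (b (b (a (l 2) (l 342087677959)) (b (a (l 2) (l 16721848)) (a (a (a (l 16710928) (l 16707448)) (a (l 16704504) (a (l 16702560) (a (l 16701624) (l 16701008))))) (l 16696432)))) (a (a (a (b (l 3) (l 3)) (b (b (l 16675864) (l 16634440)) (b (l 592336155671) (l 3)))) (a (b (b (l 16672928) (l 16631856)) (b (a (l 16617200) (l 16620968)) (a (b (l 16641784) (l 16657472)) (b (l 16644888) (l 16659840))))) (a (b (b (l 16670920) (l 16630008)) (b (l 16623144) (b (l 16646632) (a (l 16660920) (l 16661136)))))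 (b (a (b (l 16669888) (l 16628944)) (l 16649424)) (a (b (l 16623096) (b (l 16646360) (a (l 16660872) (l 16660432)))) (b (l 16622336) (b (l 16645424) (l 16659616)))))))) (b (b (l 16663824) (l 16621640)) (b (l 16615744) (b (l 16636968) (l 16650144)))))) (b (b (a (l 16747576) (l 16748888)) (a (l 16704896) (l 16703616))) (b (b (l 16654360) (l 16631712)) (b (a (l 16600480) (l 16581536)) (a (l 16624240) (l 16602440))))))) (a (b (a (b (l 16756080) (a (l 16705944) (l 16711768))) (b (l 16773672) (l 16725504))) (a (b (b (l 16655016) (l 16609776)) (b (l 16555664) (l 16566720))) (b (b (l 16669792) (l 16620184)) (b (l 16563480) (l 16513760))))) (b (a (b (l 16797760) (l 16749616)) (b (l 16825816) (l 16778936))) (a (b (l 16709632) (b (l 16578024) (l 16508592))) (b (l 16696912) (b (l 16600696) (l 16523328)))))))), by decide +kernel⟩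

theorem s2_pp_023 : ∃ t, chk3 f_pp_023 t 1 1 1 = true := ex3_b k0_pp_023 k1_pp_023

theorem c_pp_023 : CertN 0 536870912 0 1230186008 469762048 67108864 3 false true true .up 0 2 3
    ndN0q0 ndN3q3 pcN2 Cut.none Ext.none :=
  certN2 (fam := false) (s1 := true) (s2 := true) (a := 0) (b := 2) (c := 3) (cn := .up) (n1 := ndN0q0) (n2 := ndN3q3) (pc := pcN2) (cut := Cut.none) (xt := Ext.none) (P1 := 0) (W1 := 536870912) (P2 := 0) (W2 := 1230186008) (P3 := 469762048) (W3 := 67108864) (N0 := 3)
    rfl (fun _ => rfl) s2_pp_023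

noncomputable def f_pp_033 : ℕ → ℕ → ℕ → ℕ → Bool := onCell 1610612736 536870912 0 1230186008 469762048 67108864
    (rowN 3 2 false true true .pnn 0 3 3 (qsf 0 536870912 0 1230186008 3) ndN0q0 ndN3q3 pcN3 Cut.none Ext.none)

def k0_pp_033 : ∃ t, chk3 f_pp_033 t 1 1 1 = true :=
  ⟨(b (b (a (a (a (l 16857928) (l 16849568)) (a (l 16857520) (l 16860568))) (a (a (l 16866264) (l 4)) (l 4))) (a (a (a (b (l 16851064) (l 16867320)) (b (l 16859760) (l 16878632))) (a (l 16921976) (l 16972656))) (a (a (l 16896144) (l 16903840)) (a (l 16917352) (l 4))))) (b (a (a (a (b (l 16878048) (l 16876592)) (b (l 16891760) (l 16889232))) (b (a (l 16906192) (l 16922912)) (a (l 16903208) (l 16922976)))) (a (a (b (l 16939768) (l 16967880)) (b (l 16963728) (l 17001560))) (a (b (l 16981744) (l 1)) (l 1)))) (a (a (b (a (b (l 16859328) (l 16832848)) (l 16855992)) (a (b (l 16786976) (b (l 16734488) (l 16685680))) (b (l 16786592) (l 215855854023)))) (b (b (l 16886664) (l 16848744)) (b (l 232499183463) (l 1)))) (l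 1)))), by decide +kernel⟩

theorem c_pp_033 : CertN 0 536870912 0 1230186008 469762048 67108864 3 false true true .pnn 0 3 3
    ndN0q0 ndN3q3 pcN3 Cut.none Ext.none :=
  certN2 (fam := false) (s1 := true) (s2 := true) (a := 0) (b := 3) (c := 3) (cn := .pnn) (n1 := ndN0q0) (n2 := ndN3q3) (pc := pcN3) (cut := Cut.none) (xt := Ext.none) (P1 := 0) (W1 := 536870912) (P2 := 0) (W2 := 1230186008) (P3 := 469762048) (W3 := 67108864) (N0 := 3)
    rfl (fun _ => rfl) k0_pp_033

noncomputable def f_pp_101 : ℕ → ℕ → ℕ → ℕ → Bool := onCell 536870912 536870912 536870912 536870912 469762048 67108864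
    (rowN 3 0 false true true .npn 1 0 1 (qsf 536870912 536870912 536870912 536870912 0) ndN0q1 ndN3q1 pcN0 Cut.none Ext.none)

def k0_pp_101 : ∃ t, chk3 f_pp_101 t 1 1 1 = true :=
  ⟨(a (l 3) (l 5)), by decide +kernel⟩

theorem c_pp_101 : CertN 536870912 536870912 536870912 536870912 469762048 67108864 3 false true true .npn 1 0 1
    ndN0q1 ndN3q1 pcN0 Cut.none Ext.none :=
  certN0 (fam := false) (s1 := true) (s2 := true) (a := 1) (b := 0) (c := 1) (cn := .npn) (n1 := ndN0q1) (n2 := ndN3q1) (pc := pcN0) (cut := Cut.none) (xt := Ext.none) (P1 := 536870912) (W1 := 536870912) (P2 := 536870912) (W2 := 536870912) (P3 := 469762048) (W3 := 67108864) (N0 := 3)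
    rfl k0_pp_101

noncomputable def f_pp_102 : ℕ → ℕ → ℕ → ℕ → Bool := onCell 536870912 536870912 1073741824 536870912 469762048 67108864
    (rowN 3 0 false true true .npp 1 0 2 (qsf 536870912 536870912 1073741824 536870912 0) ndN0q1 ndN3q2 pcN0 Cut.none Ext.none)

def k0_pp_102 : ∃ t, chk3 f_pp_102 t 1 1 1 = true :=
  ⟨(l 3), by decide +kernel⟩

theorem c_pp_102 : CertN 536870912 536870912 1073741824 536870912 469762048 67108864 3 false true true .npp 1 0 2
    ndN0q1 ndN3q2 pcN0 Cut.none Ext.none :=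
  certN0 (fam := false) (s1 := true) (s2 := true) (a := 1) (b := 0) (c := 2) (cn := .npp) (n1 := ndN0q1) (n2 := ndN3q2) (pc := pcN0) (cut := Cut.none) (xt := Ext.none) (P1 := 536870912) (W1 := 536870912) (P2 := 1073741824) (W2 := 536870912) (P3 := 469762048) (W3 := 67108864) (N0 := 3)
    rfl k0_pp_102

noncomputable def f_pp_112 : ℕ → ℕ → ℕ → ℕ → Bool := onCell 536870912 536870912 1073741824 536870912 469762048 67108864
    (rowN 3 0 false true true .dn 1 1 2 (qsf 536870912 536870912 1073741824 536870912 1) ndN0q1 ndN3q2 pcN1 Cut.none Ext.none)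

def k0_pp_112 : ∃ t, chk3 f_pp_112 t 1 1 1 = true :=
  ⟨(l 3), by decide +kernel⟩

theorem c_pp_112 : CertN 536870912 536870912 1073741824 536870912 469762048 67108864 3 false true true .dn 1 1 2
    ndN0q1 ndN3q2 pcN1 Cut.none Ext.none :=
  certN0 (fam := false) (s1 := true) (s2 := true) (a := 1) (b := 1) (c := 2) (cn := .dn) (n1 := ndN0q1) (n2 := ndN3q2) (pc := pcN1) (cut := Cut.none) (xt := Ext.none) (P1 := 536870912) (W1 := 536870912) (P2 := 1073741824) (W2 := 536870912) (P3 := 469762048) (W3 := 67108864) (N0 := 3)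
    rfl k0_pp_112

noncomputable def cut_pp_113 : Cut := Cut.of [[⟨0, 1, 0, 67108864⟩, ⟨1, 1, 0, 67108864⟩, ⟨2, 2, 0, 16777216⟩]]

noncomputable def f_pp_113 : ℕ → ℕ → ℕ → ℕ → Bool := onCell 536870912 536870912 0 1230186008 469762048 67108864
    (rowN 3 2 false true true .nn 1 1 3 (qsf 536870912 536870912 0 1230186008 1) ndN0q1 ndN3q3 pcN1 cut_pp_113 Ext.none)

def k0_pp_113 : ∃ t, chk3 f_pp_113 t 1 1 1 = true :=
  ⟨(b (a (l 2) (a (l 2) (b (a (l 2) (a (l 2) (b (l 6) (l 3)))) (l 3)))) (b (a (a (l 2) (l 3)) (l 3)) (a (a (b (l 2) (l 3)) (l 3)) (l 3)))), by decide +kernel⟩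

theorem c_pp_113 : CertN 536870912 536870912 0 1230186008 469762048 67108864 3 false true true .nn 1 1 3
    ndN0q1 ndN3q3 pcN1 cut_pp_113 Ext.none :=
  certN2 (fam := false) (s1 := true) (s2 := true) (a := 1) (b := 1) (c := 3) (cn := .nn) (n1 := ndN0q1) (n2 := ndN3q3) (pc := pcN1) (cut := cut_pp_113) (xt := Ext.none) (P1 := 536870912) (W1 := 536870912) (P2 := 0) (W2 := 1230186008) (P3 := 469762048) (W3 := 67108864) (N0 := 3)
    rfl (fun _ => rfl) k0_pp_113

noncomputable def cut_pp_123 : Cut := Cut.of [[⟨0, 1, 0, 67108864⟩, ⟨1, 1, 0, 67108864⟩, ⟨2, 2, 0, 16777216⟩]]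

noncomputable def f_pp_123 : ℕ → ℕ → ℕ → ℕ → Bool := onCell 1073741824 536870912 0 1230186008 469762048 67108864
    (rowN 3 2 false true true .npn 1 2 3 (qsf 536870912 536870912 0 1230186008 2) ndN0q1 ndN3q3 pcN2 cut_pp_123 Ext.none)

def k0_pp_123 : ∃ t, chk3 f_pp_123 t 1 2 1 = true :=
  ⟨(b (a (a (a (a (b (l 6) (b (l 6) (l 3))) (a (b (l 6) (b (l 6) (a (b (a (l 3) (b (a (l 214916160999) (l 177335195815)) (l 3))) (l 3)) (b (a (b (l 16809760) (l 207399976631)) (l 16810336)) (a (l 246591596759) (b (l 183777648423) (l 195051954551))))))) (b (l 16779768) (b (a (l 16804840) (l 16782888)) (a (b (l 16788552) (a (l 16814160) (l 16792544))) (b (l 16787488) (l 16791512))))))) (a (b (l 16780432) (a (b (l 16782032) (l 16808904)) (l 16783472))) (l 16906720))) (a (a (a (l 16781832) (l 16782552)) (l 16784560)) (l 16790248))) (a (a (l 16800272) (l 16813960)) (a (l 16834288) (b (l 16855440) (l 16851624))))) (a (a (a (a (l 3) (b (a (l 3) (b (b (a (a (l 204715645911) (l 184851461399)) (l 16817232))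 (a (a (l 3) (l 187535783655)) (l 175724610183))) (a (l 3) (b (l 198273219735) (l 3))))) (l 3))) (a (b (a (a (b (l 16797240) (a (l 159618504583) (l 16860504))) (b (l 16795488) (l 16848232))) (b (l 16834792) (a (l 16824848) (l 16801560)))) (a (a (b (b (l 165524100967) (l 3)) (l 3)) (b (l 149954847031) (l 159618578263))) (a (b (l 16837080) (a (l 102173482407) (l 16870856))) (b (l 16813040) (l 16847000))))) (b (a (b (l 16789592) (l 16798112)) (l 16811584)) (a (b (l 16871472) (l 16925152)) (b (l 16802856) (l 16813000)))))) (a (b (a (l 16849208) (l 16786224)) (a (a (l 16907080) (l 16796376)) (l 16791832))) (b (l 16794176) (l 16794104)))) (a (b (a (l 16806736) (l 16819128)) (a (l 16808320) (l 16828576))) (a (b (l 16835704) (l 16907960)) (b (l 16850024) (l 17066184)))))), by decide +kernel⟩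

def k1_pp_123 : ∃ t, chk3 f_pp_123 t 1 3 1 = true :=
  ⟨(b (a (a (a (l 3) (b (a (a (l 3) (b (a (l 3) (a (l 204178949303) (l 16859296))) (l 3))) (a (b (a (l 16855656) (l 16829840)) (a (l 197199668231) (l 16860368))) (b (l 16843744) (l 16914632)))) (a (l 3) (b (a (b (l 186999092439) (l 177872277623)) (a (l 16838320) (l 16831824))) (a (l 3) (b (l 16897904) (a (l 16836256) (l 16827232)))))))) (a (a (a (b (b (l 16814312) (l 16883224)) (b (l 16906808) (a (b (l 16824760) (l 16817624)) (l 16876144)))) (a (b (l 17021280) (b (l 16815144) (l 16805648))) (b (l 17016520) (a (b (l 16811328) (l 16800448)) (b (l 16808176) (a (l 16797640) (l 16795456))))))) (b (l 17051056) (b (l 16798472) (l 16868136)))) (b (b (l 16795024) (a (l 16794472) (l 16795808))) (b (a (l 16789832) (l 16790896)) (a (l 16775184) (l 16776280)))))) (a (b (a (b (l 16809520) (l 16808872)) (b (l 16831992) (l 16828544))) (a (b (l 16801488) (l 16784648)) (b (l 16819296) (l 1)))) (b (a (l 17036816) (l 1)) (l 1)))) (a (a (b (a (l 3)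 (a (l 3) (b (a (l 3) (b (a (l 3) (l 16810328)) (l 341080997703))) (l 3)))) (l 3)) (b (b (a (a (a (b (a (l 16799280) (l 16789440)) (a (l 16774288) (l 16765080))) (a (b (l 16781072) (l 16757400)) (a (l 16764784) (a (l 16762544) (l 16781848))))) (b (l 16762080) (l 16743192))) (a (l 16789904) (l 16748880))) (a (a (a (a (b (l 158544709527) (l 181093229207)) (b (l 16735208) (l 16707456))) (a (b (l 16730128) (l 16704504)) (a (b (l 16727280) (l 16702560)) (a (l 16777592) (l 16714104))))) (b (l 16721856) (l 16696408))) (l 1))) (a (a (a (b (a (l 3) (l 1)) (l 1)) (l 1)) (l 1)) (l 1)))) (l 1))), by decide +kernel⟩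

theorem s2_pp_123 : ∃ t, chk3 f_pp_123 t 1 1 1 = true := ex3_b k0_pp_123 k1_pp_123

theorem c_pp_123 : CertN 536870912 536870912 0 1230186008 469762048 67108864 3 false true true .npn 1 2 3
    ndN0q1 ndN3q3 pcN2 cut_pp_123 Ext.none :=
  certN2 (fam := false) (s1 := true) (s2 := true) (a := 1) (b := 2) (c := 3) (cn := .npn) (n1 := ndN0q1) (n2 := ndN3q3) (pc := pcN2) (cut := cut_pp_123) (xt := Ext.none) (P1 := 536870912) (W1 := 536870912) (P2 := 0) (W2 := 1230186008) (P3 := 469762048) (W3 := 67108864) (N0 := 3)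
    rfl (fun _ => rfl) s2_pp_123

noncomputable def f_pp_133 : ℕ → ℕ → ℕ → ℕ → Bool := onCell 1610612736 536870912 0 1230186008 469762048 67108864
    (rowN 3 2 false true true .dn 1 3 3 (qsf 536870912 536870912 0 1230186008 3) ndN0q1 ndN3q3 pcN3 Cut.none Ext.none)

def k0_pp_133 : ∃ t, chk3 f_pp_133 t 1 1 1 = true :=
  ⟨(b (b (a (a (a (l 16920600) (l 1)) (l 1)) (l 1)) (l 1)) (l 1)), by decide +kernel⟩

theorem c_pp_133 : CertN 536870912 536870912 0 1230186008 469762048 67108864 3 false true true .dn 1 3 3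
    ndN0q1 ndN3q3 pcN3 Cut.none Ext.none :=
  certN2 (fam := false) (s1 := true) (s2 := true) (a := 1) (b := 3) (c := 3) (cn := .dn) (n1 := ndN0q1) (n2 := ndN3q3) (pc := pcN3) (cut := Cut.none) (xt := Ext.none) (P1 := 536870912) (W1 := 536870912) (P2 := 0) (W2 := 1230186008) (P3 := 469762048) (W3 := 67108864) (N0 := 3)
    rfl (fun _ => rfl) k0_pp_133

noncomputable def f_pp_202 : ℕ → ℕ → ℕ → ℕ → Bool := onCell 0 536870912 1073741824 536870912 469762048 67108864
    (rowN 3 0 false true true .pp 2 0 2 (qsf 0 536870912 1073741824 536870912 0) ndN0q2 ndN3q2 pcN0 Cut.none Ext.none)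

def k0_pp_202 : ∃ t, chk3 f_pp_202 t 1 1 1 = true :=
  ⟨(l 5), by decide +kernel⟩

theorem c_pp_202 : CertN 0 536870912 1073741824 536870912 469762048 67108864 3 false true true .pp 2 0 2
    ndN0q2 ndN3q2 pcN0 Cut.none Ext.none :=
  certN0 (fam := false) (s1 := true) (s2 := true) (a := 2) (b := 0) (c := 2) (cn := .pp) (n1 := ndN0q2) (n2 := ndN3q2) (pc := pcN0) (cut := Cut.none) (xt := Ext.none) (P1 := 0) (W1 := 536870912) (P2 := 1073741824) (W2 := 536870912) (P3 := 469762048) (W3 := 67108864) (N0 := 3)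
    rfl k0_pp_202

noncomputable def f_pp_203 : ℕ → ℕ → ℕ → ℕ → Bool := onCell 0 536870912 0 1230186008 469762048 67108864
    (rowN 3 0 false true true .up 2 0 3 (qsf 0 536870912 0 1230186008 0) ndN0q2 ndN3q3 pcN0 Cut.none Ext.none)

def k0_pp_203 : ∃ t, chk3 f_pp_203 t 1 1 1 = true :=
  ⟨(b (l 2) (b (l 2) (l 3))), by decide +kernel⟩

theorem c_pp_203 : CertN 0 536870912 0 1230186008 469762048 67108864 3 false true true .up 2 0 3
    ndN0q2 ndN3q3 pcN0 Cut.none Ext.none :=
  certN0 (fam := false) (s1 := true) (s2 := true) (a := 2) (b := 0) (c := 3) (cn := .up) (n1 := ndN0q2) (n2 := ndN3q3) (pc := pcN0) (cut := Cut.none) (xt := Ext.none) (P1 := 0) (W1 := 536870912) (P2 := 0) (W2 := 1230186008) (P3 := 469762048) (W3 := 67108864) (N0 := 3)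
    rfl k0_pp_203

noncomputable def cut_pp_213 : Cut := Cut.of [[⟨0, 1, 0, 67108864⟩, ⟨1, 1, 0, 67108864⟩, ⟨2, 2, 0, 16777216⟩]]

noncomputable def f_pp_213 : ℕ → ℕ → ℕ → ℕ → Bool := onCell 0 536870912 0 1230186008 469762048 67108864
    (rowN 3 0 false true true .pnn 2 1 3 (qsf 0 536870912 0 1230186008 1) ndN0q2 ndN3q3 pcN1 cut_pp_213 Ext.none)

def k0_pp_213 : ∃ t, chk3 f_pp_213 t 1 1 1 = true :=
  ⟨(b (a (l 3) (b (a (l 3) (a (l 3) (b (l 6) (l 3)))) (l 3))) (b (l 3) (l 3))), by decide +kernel⟩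

theorem c_pp_213 : CertN 0 536870912 0 1230186008 469762048 67108864 3 false true true .pnn 2 1 3
    ndN0q2 ndN3q3 pcN1 cut_pp_213 Ext.none :=
  certN0 (fam := false) (s1 := true) (s2 := true) (a := 2) (b := 1) (c := 3) (cn := .pnn) (n1 := ndN0q2) (n2 := ndN3q3) (pc := pcN1) (cut := cut_pp_213) (xt := Ext.none) (P1 := 0) (W1 := 536870912) (P2 := 0) (W2 := 1230186008) (P3 := 469762048) (W3 := 67108864) (N0 := 3)
    rfl k0_pp_213

noncomputable def f_pm_001 : ℕ → ℕ → ℕ → ℕ → Bool := onCell 0 536870912 536870912 536870912 469762048 67108864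
    (rowN 3 0 false true false .up 0 0 1 (qsf 0 536870912 536870912 536870912 0) ndN0q0 ndN3q1 pcN0 Cut.none Ext.none)

def k0_pm_001 : ∃ t, chk3 f_pm_001 t 1 1 1 = true :=
  ⟨(l 4), by decide +kernel⟩

theorem c_pm_001 : CertN 0 536870912 536870912 536870912 469762048 67108864 3 false true false .up 0 0 1
    ndN0q0 ndN3q1 pcN0 Cut.none Ext.none :=
  certN0 (fam := false) (s1 := true) (s2 := false) (a := 0) (b := 0) (c := 1) (cn := .up) (n1 := ndN0q0) (n2 := ndN3q1) (pc := pcN0) (cut := Cut.none) (xt := Ext.none) (P1 := 0) (W1 := 536870912) (P2 := 536870912) (W2 := 536870912) (P3 := 469762048) (W3 := 67108864) (N0 := 3)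
    rfl k0_pm_001

noncomputable def f_pm_011 : ℕ → ℕ → ℕ → ℕ → Bool := onCell 0 536870912 536870912 536870912 469762048 67108864
    (rowN 3 0 false true false .pnn 0 1 1 (qsf 0 536870912 536870912 536870912 1) ndN0q0 ndN3q1 pcN1 Cut.none Ext.none)

def k0_pm_011 : ∃ t, chk3 f_pm_011 t 1 1 1 = true :=
  ⟨(l 4), by decide +kernel⟩

theorem c_pm_011 : CertN 0 536870912 536870912 536870912 469762048 67108864 3 false true false .pnn 0 1 1
    ndN0q0 ndN3q1 pcN1 Cut.none Ext.none :=
  certN0 (fam := false) (s1 := true) (s2 := false) (a := 0) (b := 1) (c := 1) (cn := .pnn) (n1 := ndN0q0) (n2 := ndN3q1) (pc := pcN1) (cut := Cut.none) (xt := Ext.none) (P1 := 0) (W1 := 536870912) (P2 := 536870912) (W2 := 536870912) (P3 := 469762048) (W3 := 67108864) (N0 := 3)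
    rfl k0_pm_011

noncomputable def f_pm_012 : ℕ → ℕ → ℕ → ℕ → Bool := onCell 0 536870912 1073741824 536870912 469762048 67108864
    (rowN 3 0 false true false .pnp 0 1 2 (qsf 0 536870912 1073741824 536870912 1) ndN0q0 ndN3q2 pcN1 Cut.none Ext.none)

def k0_pm_012 : ∃ t, chk3 f_pm_012 t 1 1 1 = true :=
  ⟨(l 4), by decide +kernel⟩

theorem c_pm_012 : CertN 0 536870912 1073741824 536870912 469762048 67108864 3 false true false .pnp 0 1 2
    ndN0q0 ndN3q2 pcN1 Cut.none Ext.none :=
  certN0 (fam := false) (s1 := true) (s2 := false) (a := 0) (b := 1) (c := 2) (cn := .pnp) (n1 := ndN0q0) (n2 := ndN3q2) (pc := pcN1) (cut := Cut.none) (xt := Ext.none) (P1 := 0) (W1 := 536870912) (P2 := 1073741824) (W2 := 536870912) (P3 := 469762048) (W3 := 67108864) (N0 := 3)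
    rfl k0_pm_012

noncomputable def f_pm_022 : ℕ → ℕ → ℕ → ℕ → Bool := onCell 0 536870912 1073741824 536870912 469762048 67108864
    (rowN 3 0 false true false .pp 0 2 2 (qsf 0 536870912 1073741824 536870912 2) ndN0q0 ndN3q2 pcN2 Cut.none Ext.none)

def k0_pm_022 : ∃ t, chk3 f_pm_022 t 1 1 1 = true :=
  ⟨(l 4), by decide +kernel⟩

theorem c_pm_022 : CertN 0 536870912 1073741824 536870912 469762048 67108864 3 false true false .pp 0 2 2
    ndN0q0 ndN3q2 pcN2 Cut.none Ext.none :=
  certN0 (fam := false) (s1 := true) (s2 := false) (a := 0) (b := 2) (c := 2) (cn := .pp) (n1 := ndN0q0) (n2 := ndN3q2) (pc := pcN2) (cut := Cut.none) (xt := Ext.none) (P1 := 0) (W1 := 536870912) (P2 := 1073741824) (W2 := 536870912) (P3 := 469762048) (W3 := 67108864) (N0 := 3)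
    rfl k0_pm_022

noncomputable def f_pm_023 : ℕ → ℕ → ℕ → ℕ → Bool := onCell 0 536870912 0 1230186008 469762048 67108864
    (rowN 3 0 false true false .up 0 2 3 (qsf 0 536870912 0 1230186008 2) ndN0q0 ndN3q3 pcN2 Cut.none Ext.none)

def k0_pm_023 : ∃ t, chk3 f_pm_023 t 1 1 1 = true :=
  ⟨(a (b (l 2) (l 4)) (b (a (l 2) (b (a (l 2) (l 16866488)) (a (b (l 16878184) (l 4)) (b (l 16883320) (l 16896096))))) (b (l 4) (l 4)))), by decide +kernel⟩

theorem c_pm_023 : CertN 0 536870912 0 1230186008 469762048 67108864 3 false true false .up 0 2 3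
    ndN0q0 ndN3q3 pcN2 Cut.none Ext.none :=
  certN0 (fam := false) (s1 := true) (s2 := false) (a := 0) (b := 2) (c := 3) (cn := .up) (n1 := ndN0q0) (n2 := ndN3q3) (pc := pcN2) (cut := Cut.none) (xt := Ext.none) (P1 := 0) (W1 := 536870912) (P2 := 0) (W2 := 1230186008) (P3 := 469762048) (W3 := 67108864) (N0 := 3)
    rfl k0_pm_023

noncomputable def f_pm_033 : ℕ → ℕ → ℕ → ℕ → Bool := onCell 1610612736 536870912 0 1230186008 469762048 67108864
    (rowN 3 2 false true false .pnn 0 3 3 (qsf 0 536870912 0 1230186008 3) ndN0q0 ndN3q3 pcN3 Cut.none Ext.none)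

def k0_pm_033 : ∃ t, chk3 f_pm_033 t 1 1 1 = true :=
  ⟨(b (a (a (b (a (l 16855232) (l 16861128)) (a (l 16864608) (l 4))) (b (l 16861048) (l 4))) (l 4)) (l 4)), by decide +kernel⟩

theorem c_pm_033 : CertN 0 536870912 0 1230186008 469762048 67108864 3 false true false .pnn 0 3 3
    ndN0q0 ndN3q3 pcN3 Cut.none Ext.none :=
  certN2 (fam := false) (s1 := true) (s2 := false) (a := 0) (b := 3) (c := 3) (cn := .pnn) (n1 := ndN0q0) (n2 := ndN3q3) (pc := pcN3) (cut := Cut.none) (xt := Ext.none) (P1 := 0) (W1 := 536870912) (P2 := 0) (W2 := 1230186008) (P3 := 469762048) (W3 := 67108864) (N0 := 3)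
    rfl (fun _ => rfl) k0_pm_033

noncomputable def f_pm_101 : ℕ → ℕ → ℕ → ℕ → Bool := onCell 536870912 536870912 536870912 536870912 469762048 67108864
    (rowN 3 0 false true false .npn 1 0 1 (qsf 536870912 536870912 536870912 536870912 0) ndN0q1 ndN3q1 pcN0 Cut.none Ext.none)

def k0_pm_101 : ∃ t, chk3 f_pm_101 t 1 1 1 = true :=
  ⟨(l 4), by decide +kernel⟩

theorem c_pm_101 : CertN 536870912 536870912 536870912 536870912 469762048 67108864 3 false true false .npn 1 0 1
    ndN0q1 ndN3q1 pcN0 Cut.none Ext.none :=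
  certN0 (fam := false) (s1 := true) (s2 := false) (a := 1) (b := 0) (c := 1) (cn := .npn) (n1 := ndN0q1) (n2 := ndN3q1) (pc := pcN0) (cut := Cut.none) (xt := Ext.none) (P1 := 536870912) (W1 := 536870912) (P2 := 536870912) (W2 := 536870912) (P3 := 469762048) (W3 := 67108864) (N0 := 3)
    rfl k0_pm_101

noncomputable def f_pm_102 : ℕ → ℕ → ℕ → ℕ → Bool := onCell 536870912 536870912 0 536870912 469762048 67108864
    (rowN 3 1 false true false .npp 1 0 2 (qsf 536870912 536870912 1073741824 536870912 0) ndN0q1 ndN3q2 pcN0 Cut.none Ext.none)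

def k0_pm_102 : ∃ t, chk3 f_pm_102 t 1 1 1 = true :=
  ⟨(a (l 4) (b (b (a (b (l 1) (a (l 1) (a (l 1) (b (l 1) (l 293701913239))))) (b (a (a (l 1) (l 471943336807)) (a (b (l 506303145079) (l 16924872)) (b (l 16929744) (l 16919400)))) (a (a (b (l 419329901031) (l 16863680)) (l 263637631927)) (a (b (l 16917784) (l 16924784)) (l 16951992))))) (a (a (l 4) (b (a (l 4) (b (l 273837653703) (l 16828144))) (a (l 16789200) (l 16848840)))) (a (b (a (l 16873536) (l 16911424)) (l 16919672)) (b (a (l 16946048) (l 16995328)) (a (l 16980312) (b (l 17022664) (l 17037528))))))) (b (a (a (l 4) (b (l 16853072) (l 16890528))) (b (a (l 16952336) (a (l 17136056) (b (l 17051680) (l 17065768)))) (a (b (l 16976336) (l 16990016)) (a (l 17034192) (l 17078624))))) (a (b (a (l 16800624) (l 16927808)) (b (l 17000664) (a (l 16857376) (l 16966584)))) (b (a (a (l 16992104) (l 17024592)) (a (l 17051296) (b (l 17083744) (l 17082536)))) (a (b (l 17025208) (a (l 17018920) (l 17045080))) (a (b (l 17059272) (l 17062448))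 (l 17086880)))))))), by decide +kernel⟩

theorem c_pm_102 : CertN 536870912 536870912 1073741824 536870912 469762048 67108864 3 false true false .npp 1 0 2
    ndN0q1 ndN3q2 pcN0 Cut.none Ext.none :=
  certN1 (fam := false) (s1 := true) (s2 := false) (a := 1) (b := 0) (c := 2) (cn := .npp) (n1 := ndN0q1) (n2 := ndN3q2) (pc := pcN0) (cut := Cut.none) (xt := Ext.none) (P1 := 536870912) (W1 := 536870912) (P2 := 1073741824) (W2 := 536870912) (P3 := 469762048) (W3 := 67108864) (N0 := 3)
    rfl (fun _ => rfl) k0_pm_102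

noncomputable def f_pm_112 : ℕ → ℕ → ℕ → ℕ → Bool := onCell 536870912 536870912 1073741824 536870912 469762048 67108864
    (rowN 3 2 false true false .dn 1 1 2 (qsf 536870912 536870912 1073741824 536870912 1) ndN0q1 ndN3q2 pcN1 Cut.none Ext.none)

def k0_pm_112 : ∃ t, chk3 f_pm_112 t 1 1 1 = true :=
  ⟨(b (l 4) (a (a (b (a (b (l 16815376) (a (l 16966392) (l 16934176))) (l 31910774519)) (a (a (b (b (l 17027048) (l 17045280)) (l 17065000)) (b (l 17022184) (l 17264480))) (b (b (l 16962880) (l 17173464)) (a (l 17150944) (l 17099144))))) (b (l 4) (a (b (l 16908248) (l 17177592)) (b (l 16789384) (l 16947952))))) (a (b (l 4) (a (b (l 4) (l 16841576)) (l 4))) (l 4)))), by decide +kernel⟩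

theorem c_pm_112 : CertN 536870912 536870912 1073741824 536870912 469762048 67108864 3 false true false .dn 1 1 2
    ndN0q1 ndN3q2 pcN1 Cut.none Ext.none :=
  certN2 (fam := false) (s1 := true) (s2 := false) (a := 1) (b := 1) (c := 2) (cn := .dn) (n1 := ndN0q1) (n2 := ndN3q2) (pc := pcN1) (cut := Cut.none) (xt := Ext.none) (P1 := 536870912) (W1 := 536870912) (P2 := 1073741824) (W2 := 536870912) (P3 := 469762048) (W3 := 67108864) (N0 := 3)
    rfl (fun _ => rfl) k0_pm_112

noncomputable def cut_pm_113 : Cut := Cut.of [[⟨0, 1, 0, 67108864⟩, ⟨1, 1, 0, 67108864⟩, ⟨2, 2, 0, 16777216⟩]]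

noncomputable def f_pm_113 : ℕ → ℕ → ℕ → ℕ → Bool := onCell 536870912 536870912 0 1230186008 469762048 67108864
    (rowN 3 0 false true false .nn 1 1 3 (qsf 536870912 536870912 0 1230186008 1) ndN0q1 ndN3q3 pcN1 cut_pm_113 Ext.none)

def k0_pm_113 : ∃ t, chk3 f_pm_113 t 1 1 1 = true :=
  ⟨(b (a (l 2) (a (l 2) (b (a (l 2) (a (l 2) (b (l 6) (l 16865120)))) (a (b (l 16895864) (l 16930960)) (b (a (l 16850912) (l 16832984)) (l 17034072)))))) (b (a (a (l 2) (b (l 2) (a (l 2) (l 17178152)))) (a (b (a (l 2) (l 17042920)) (a (l 17129872) (l 17072968))) (b (a (l 16976888) (a (l 16947088) (l 16926536))) (a (l 17037960) (a (l 16995840) (l 16949512)))))) (a (a (b (l 2) (l 4)) (b (a (b (l 17152784) (l 17111592)) (b (l 17153552) (l 17135920))) (b (a (l 17065512) (l 17112400)) (a (l 4) (l 17083984))))) (b (a (b (l 17112552) (l 17117800)) (a (l 17093320) (b (l 17006296) (l 17086512)))) (a (b (a (l 17124712) (l 17113368)) (a (b (l 17118440) (l 17112384)) (l 17327560))) (a (b (l 17117928) (l 17125736))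 (b (l 17215768) (l 17226384)))))))), by decide +kernel⟩

theorem c_pm_113 : CertN 536870912 536870912 0 1230186008 469762048 67108864 3 false true false .nn 1 1 3
    ndN0q1 ndN3q3 pcN1 cut_pm_113 Ext.none :=
  certN0 (fam := false) (s1 := true) (s2 := false) (a := 1) (b := 1) (c := 3) (cn := .nn) (n1 := ndN0q1) (n2 := ndN3q3) (pc := pcN1) (cut := cut_pm_113) (xt := Ext.none) (P1 := 536870912) (W1 := 536870912) (P2 := 0) (W2 := 1230186008) (P3 := 469762048) (W3 := 67108864) (N0 := 3)
    rfl k0_pm_113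

noncomputable def cut_pm_123 : Cut := Cut.of [[⟨0, 1, 0, 67108864⟩, ⟨1, 1, 0, 67108864⟩, ⟨2, 2, 0, 16777216⟩]]

noncomputable def f_pm_123 : ℕ → ℕ → ℕ → ℕ → Bool := onCell 536870912 536870912 0 1230186008 469762048 67108864
    (rowN 3 0 false true false .npn 1 2 3 (qsf 536870912 536870912 0 1230186008 2) ndN0q1 ndN3q3 pcN2 cut_pm_123 Ext.none)

def k0_pm_123 : ∃ t, chk3 f_pm_123 t 1 1 1 = true :=
  ⟨(b (b (a (a (a (l 16864936) (l 16849336)) (a (l 16919192) (l 16823016))) (a (a (l 16810384) (b (l 16813184) (l 16816872))) (a (b (l 16849136) (l 16811768)) (b (a (l 16784424) (l 6)) (a (l 16807600) (l 16825264)))))) (a (a (a (b (l 16885288) (l 16905072)) (b (l 16879008) (l 16909640))) (a (b (l 16873848) (l 16915280)) (l 16894424))) (a (a (l 16895840) (l 16896584)) (a (l 16897736) (b (a (l 16855208) (l 16850456)) (l 537441779095)))))) (b (a (a (b (a (l 16919680) (l 16944904)) (a (l 4) (b (l 16968344) (l 16978128)))) (a (b (l 16969376) (l 17033024)) (b (l 16991344) (l 17083728)))) (a (a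 (b (l 17014416) (l 17137008)) (b (l 17034800) (l 17235256))) (b (a (l 396245343703) (l 1)) (l 1)))) (a (a (b (a (l 4) (b (l 16978864) (l 4))) (l 4)) (a (b (b (l 17080808) (l 17108128)) (b (l 365106971431) (l 1))) (b (b (l 17166648) (l 1)) (l 1)))) (l 1)))), by decide +kernel⟩

theorem c_pm_123 : CertN 536870912 536870912 0 1230186008 469762048 67108864 3 false true false .npn 1 2 3
    ndN0q1 ndN3q3 pcN2 cut_pm_123 Ext.none :=
  certN0 (fam := false) (s1 := true) (s2 := false) (a := 1) (b := 2) (c := 3) (cn := .npn) (n1 := ndN0q1) (n2 := ndN3q3) (pc := pcN2) (cut := cut_pm_123) (xt := Ext.none) (P1 := 536870912) (W1 := 536870912) (P2 := 0) (W2 := 1230186008) (P3 := 469762048) (W3 := 67108864) (N0 := 3)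
    rfl k0_pm_123

noncomputable def f_pm_133 : ℕ → ℕ → ℕ → ℕ → Bool := onCell 536870912 536870912 0 1230186008 469762048 67108864
    (rowN 3 0 false true false .dn 1 3 3 (qsf 536870912 536870912 0 1230186008 3) ndN0q1 ndN3q3 pcN3 Cut.none Ext.none)

def k0_pm_133 : ∃ t, chk3 f_pm_133 t 1 1 1 = true :=
  ⟨(b (b (a (a (a (l 16839768) (l 1)) (l 1)) (l 1)) (l 1)) (l 1)), by decide +kernel⟩

theorem c_pm_133 : CertN 536870912 536870912 0 1230186008 469762048 67108864 3 false true false .dn 1 3 3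
    ndN0q1 ndN3q3 pcN3 Cut.none Ext.none :=
  certN0 (fam := false) (s1 := true) (s2 := false) (a := 1) (b := 3) (c := 3) (cn := .dn) (n1 := ndN0q1) (n2 := ndN3q3) (pc := pcN3) (cut := Cut.none) (xt := Ext.none) (P1 := 536870912) (W1 := 536870912) (P2 := 0) (W2 := 1230186008) (P3 := 469762048) (W3 := 67108864) (N0 := 3)
    rfl k0_pm_133

noncomputable def f_pm_202 : ℕ → ℕ → ℕ → ℕ → Bool := onCell 0 536870912 0 536870912 469762048 67108864
    (rowN 3 1 false true false .pp 2 0 2 (qsf 0 536870912 1073741824 536870912 0) ndN0q2 ndN3q2 pcN0 Cut.none Ext.none)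

def k0_pm_202 : ∃ t, chk3 f_pm_202 t 2 1 1 = true :=
  ⟨(b (b (a (b (a (b (a (b (l 16459808) (a (l 16548152) (l 16500072))) (l 16449392)) (b (a (a (l 16468232) (l 16439816)) (l 16448544)) (a (a (l 16470920) (l 16461320)) (l 16488560)))) (b (l 16437896) (l 16428144))) (a (a (b (b (l 144585596039) (l 154786117863)) (l 175187074231)) (b (b (l 16548480) (l 16446632)) (l 16509056))) (b (a (l 16573648) (l 16440952)) (a (l 16446104) (b (l 16459264) (l 16471248)))))) (b (a (b (l 16445256) (l 16427352)) (b (l 16518952) (l 16494328))) (a (l 16472680) (b (l 16501928) (l 16518832))))) (a (b (a (a (l 3) (b (l 148343622903) (l 146733039703))) (b (a (l 16453672) (l 16483584)) (a (l 16466976) (l 16493736)))) (a (l 3) (b (a (l 136532482231) (l 16509760)) (a (l 147269881287) (l 16530472))))) (b (a (b (a (l 16501968) (l 16522368)) (a (l 16523928) (l 16542736))) (l 16564152)) (a (a (l 16587384) (l 16681488)) (b (l 16597528) (l 16618624)))))) (b (a (a (l 3) (b (b (a (l 182703438631) (l 16600232)) (l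 152101989783)) (b (l 185924850759) (l 3)))) (b (a (b (l 16591616) (l 16620000)) (b (l 16645328) (l 16667784))) (a (a (b (l 16647096) (l 147270300263)) (l 16725408)) (l 16708152)))) (a (l 2) (b (a (l 2) (l 1239735647255)) (l 2))))), by decide +kernel⟩

def k1_pm_202 : ∃ t, chk3 f_pm_202 t 3 1 1 = true :=
  ⟨(b (b (b (b (a (a (l 16636104) (l 16736432)) (a (a (l 16797792) (l 16842800)) (a (l 16875088) (l 16919224)))) (a (l 16690192) (a (l 16833832) (a (l 16896056) (l 16943744))))) (a (a (b (l 16607152) (l 16593200)) (l 16743344)) (a (b (l 16853608) (l 16865912)) (a (l 16933104) (l 16998184))))) (a (b (a (l 16833160) (b (l 16717344) (l 16708768))) (a (l 16664624) (l 16743944))) (b (a (l 16880832) (a (l 17000152) (l 17081800))) (a (b (l 16863952) (l 16854272)) (l 17105800))))) (b (a (b (a (b (l 16714648) (l 16740472)) (l 16833048)) (a (b (l 16759472) (l 16781000)) (l 16927152))) (b (a (b (l 16906184) (l 16991912)) (b (l 17133936) (l 17191408))) (a (l 17116752) (b (l 17192376) (l 17159280)))))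 (a (b (a (l 16828640) (l 79558514375)) (l 2)) (b (a (l 17223640) (l 17145344)) (a (l 17312968) (l 17154712)))))), by decide +kernel⟩

theorem s2_pm_202 : ∃ t, chk3 f_pm_202 t 1 1 1 = true := ex3_a k0_pm_202 k1_pm_202

theorem c_pm_202 : CertN 0 536870912 1073741824 536870912 469762048 67108864 3 false true false .pp 2 0 2
    ndN0q2 ndN3q2 pcN0 Cut.none Ext.none :=
  certN1 (fam := false) (s1 := true) (s2 := false) (a := 2) (b := 0) (c := 2) (cn := .pp) (n1 := ndN0q2) (n2 := ndN3q2) (pc := pcN0) (cut := Cut.none) (xt := Ext.none) (P1 := 0) (W1 := 536870912) (P2 := 1073741824) (W2 := 536870912) (P3 := 469762048) (W3 := 67108864) (N0 := 3)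
    rfl (fun _ => rfl) s2_pm_202

noncomputable def f_pm_203 : ℕ → ℕ → ℕ → ℕ → Bool := onCell 0 536870912 0 1230186008 469762048 67108864
    (rowN 3 0 false true false .up 2 0 3 (qsf 0 536870912 0 1230186008 0) ndN0q2 ndN3q3 pcN0 Cut.none Ext.none)

def k0_pm_203 : ∃ t, chk3 f_pm_203 t 1 1 1 = true :=
  ⟨(b (l 2) (b (l 2) (a (b (a (l 3) (a (l 3) (b (l 2) (a (b (l 2) (a (l 226190335671) (l 2))) (l 2))))) (a (l 3) (b (a (a (l 3) (b (l 229411453847) (l 178945505511))) (b (a (l 153175890439) (l 16675576)) (a (l 16629248) (l 16627768)))) (a (a (b (a (l 3) (l 180019341511)) (b (l 186998588023) (a (a (l 3) (l 191293559127)) (l 16643120)))) (b (a (l 99488664727) (l 16575088)) (l 16605624))) (b (l 16563840) (l 16593088)))))) (b (l 2) (a (b (a (b (l 16679024) (l 16630576)) (l 16666736)) (a (l 16520200) (b (a (l 16571888) (l 16583120)) (l 16518816)))) (b (a (b (l 2) (l 16702400)) (l 2)) (a (b (l 16708760) (l 16744528)) (b (l 17001080) (l 17094616))))))))), by decide +kernel⟩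

theorem c_pm_203 : CertN 0 536870912 0 1230186008 469762048 67108864 3 false true false .up 2 0 3
    ndN0q2 ndN3q3 pcN0 Cut.none Ext.none :=
  certN0 (fam := false) (s1 := true) (s2 := false) (a := 2) (b := 0) (c := 3) (cn := .up) (n1 := ndN0q2) (n2 := ndN3q3) (pc := pcN0) (cut := Cut.none) (xt := Ext.none) (P1 := 0) (W1 := 536870912) (P2 := 0) (W2 := 1230186008) (P3 := 469762048) (W3 := 67108864) (N0 := 3)
    rfl k0_pm_203

noncomputable def cut_pm_213 : Cut := Cut.of [[⟨0, 1, 0, 67108864⟩, ⟨1, 1, 0, 67108864⟩, ⟨2, 2, 0, 16777216⟩]]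

noncomputable def f_pm_213 : ℕ → ℕ → ℕ → ℕ → Bool := onCell 0 536870912 0 1230186008 469762048 67108864
    (rowN 3 0 false true false .pnn 2 1 3 (qsf 0 536870912 0 1230186008 1) ndN0q2 ndN3q3 pcN1 cut_pm_213 Ext.none)

def k0_pm_213 : ∃ t, chk3 f_pm_213 t 1 2 1 = true :=
  ⟨(a (l 3) (b (a (l 3) (a (b (l 3) (a (l 3) (b (l 3) (a (b (l 3) (l 315311079591)) (b (a (l 3) (b (l 307794827511) (l 269677018503))) (a (b (l 300815513351) (l 260550200407)) (b (l 16793600) (l 16796440)))))))) (b (l 6) (a (b (a (l 6) (l 6)) (a (b (a (b (l 266992661063) (l 16792056)) (l 16791872)) (l 16775952)) (l 16796528))) (b (a (l 6) (l 6)) (l 16799856)))))) (a (b (l 3) (a (l 3) (b (a (l 3) (a (l 295446848231) (b (l 285783172391) (l 230485483847)))) (a (a (l 3) (l 254644681047)) (a (b (l 263234616727) (l 16833672)) (b (l 16830056) (l 16837472))))))) (a (b (a (b (a (l 3) (b (l 3) (l 300278722151))) (a (b (l 311016083975) (a (l 291151872583) (l 242833494247))) (b (a (l 284709414583) (l 242833503863)) (l 16814800))))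 (b (a (b (b (l 268603307879) (l 258939637463)) (b (l 249812817351) (l 16805624))) (a (l 16797848) (l 16804632))) (b (l 16812776) (l 16820600)))) (b (a (b (l 211694958423) (l 16828320)) (l 16833368)) (c (l 16850312) (l 16840888)))) (b (a (b (l 16808680) (l 16825080)) (l 16866952)) (b (l 16849592) (l 16870592))))))), by decide +kernel⟩

def k1_pm_213 : ∃ t, chk3 f_pm_213 t 1 3 1 = true :=
  ⟨(b (a (b (l 3) (a (l 3) (a (l 3) (b (l 3) (a (l 3) (b (l 3) (l 189146427047))))))) (a (b (a (b (l 3) (a (l 3) (b (l 241222932231) (l 199347010263)))) (b (a (a (l 217063737815) (l 185388314583)) (l 16846048)) (a (b (l 16846416) (l 16849824)) (l 16856696)))) (a (a (b (b (l 3) (l 192904549847)) (b (l 179482845671) (l 168208585735))) (b (b (l 185925299431) (l 16844584)) (l 16860328))) (b (a (l 16851608) (l 16860008)) (l 16869152)))) (b (a (b (l 16861464) (l 16915568)) (l 16899664)) (a (b (l 16877776) (l 16868768)) (l 16910232))))) (a (b (a (l 3) (a (l 3) (b (a (b (l 3) (l 3)) (b (l 183240924471) (l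 173040346423))) (a (b (a (l 3) (l 174650853447)) (b (l 162839543895) (l 16702344))) (b (l 16747736) (l 16711640)))))) (a (l 1) (b (a (l 1) (b (a (l 16676088) (l 16676480)) (l 1))) (l 1)))) (b (a (b (a (b (a (l 16816360) (l 16823056)) (l 16793960)) (b (l 16832200) (l 16811040))) (a (b (l 16760256) (l 16720400)) (l 16759432))) (b (a (l 16840024) (l 16878776)) (a (a (l 16774304) (l 16784240)) (a (l 16818152) (l 16889152))))) (a (b (a (b (l 16680448) (l 16635776)) (l 16816968)) (l 1)) (b (a (b (l 16721440) (l 16704288)) (l 16895856)) (a (b (l 16716856) (l 1)) (l 17051088))))))), by decide +kernel⟩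

theorem s2_pm_213 : ∃ t, chk3 f_pm_213 t 1 1 1 = true := ex3_b k0_pm_213 k1_pm_213

theorem c_pm_213 : CertN 0 536870912 0 1230186008 469762048 67108864 3 false true false .pnn 2 1 3
    ndN0q2 ndN3q3 pcN1 cut_pm_213 Ext.none :=
  certN0 (fam := false) (s1 := true) (s2 := false) (a := 2) (b := 1) (c := 3) (cn := .pnn) (n1 := ndN0q2) (n2 := ndN3q3) (pc := pcN1) (cut := cut_pm_213) (xt := Ext.none) (P1 := 0) (W1 := 536870912) (P2 := 0) (W2 := 1230186008) (P3 := 469762048) (W3 := 67108864) (N0 := 3)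
    rfl s2_pm_213

noncomputable def f_mm_001 : ℕ → ℕ → ℕ → ℕ → Bool := onCell 0 536870912 0 536870912 469762048 67108864
    (rowN 3 1 false false false .up 0 0 1 (qsf 0 536870912 536870912 536870912 0) ndN0q0 ndN3q1 pcN0 Cut.none Ext.none)

def k0_mm_001 : ∃ t, chk3 f_mm_001 t 1 1 1 = true :=
  ⟨(l 3), by decide +kernel⟩

theorem c_mm_001 : CertN 0 536870912 536870912 536870912 469762048 67108864 3 false false false .up 0 0 1
    ndN0q0 ndN3q1 pcN0 Cut.none Ext.none :=
  certN1 (fam := false) (s1 := false) (s2 := false) (a := 0) (b := 0) (c := 1) (cn := .up) (n1 := ndN0q0) (n2 := ndN3q1) (pc := pcN0) (cut := Cut.none) (xt := Ext.none) (P1 := 0) (W1 := 536870912) (P2 := 536870912) (W2 := 536870912) (P3 := 469762048) (W3 := 67108864) (N0 := 3)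
    rfl (fun _ => rfl) k0_mm_001

noncomputable def f_mm_011 : ℕ → ℕ → ℕ → ℕ → Bool := onCell 0 536870912 536870912 536870912 469762048 67108864
    (rowN 3 1 false false false .pnn 0 1 1 (qsf 0 536870912 536870912 536870912 1) ndN0q0 ndN3q1 pcN1 Cut.none Ext.none)

def k0_mm_011 : ∃ t, chk3 f_mm_011 t 1 1 1 = true :=
  ⟨(l 5), by decide +kernel⟩

theorem c_mm_011 : CertN 0 536870912 536870912 536870912 469762048 67108864 3 false false false .pnn 0 1 1
    ndN0q0 ndN3q1 pcN1 Cut.none Ext.none :=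
  certN1 (fam := false) (s1 := false) (s2 := false) (a := 0) (b := 1) (c := 1) (cn := .pnn) (n1 := ndN0q0) (n2 := ndN3q1) (pc := pcN1) (cut := Cut.none) (xt := Ext.none) (P1 := 0) (W1 := 536870912) (P2 := 536870912) (W2 := 536870912) (P3 := 469762048) (W3 := 67108864) (N0 := 3)
    rfl (fun _ => rfl) k0_mm_011

noncomputable def f_mm_012 : ℕ → ℕ → ℕ → ℕ → Bool := onCell 0 536870912 1073741824 536870912 469762048 67108864
    (rowN 3 0 false false false .pnp 0 1 2 (qsf 0 536870912 1073741824 536870912 1) ndN0q0 ndN3q2 pcN1 Cut.none Ext.none)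

def k0_mm_012 : ∃ t, chk3 f_mm_012 t 1 1 1 = true :=
  ⟨(l 5), by decide +kernel⟩

theorem c_mm_012 : CertN 0 536870912 1073741824 536870912 469762048 67108864 3 false false false .pnp 0 1 2
    ndN0q0 ndN3q2 pcN1 Cut.none Ext.none :=
  certN0 (fam := false) (s1 := false) (s2 := false) (a := 0) (b := 1) (c := 2) (cn := .pnp) (n1 := ndN0q0) (n2 := ndN3q2) (pc := pcN1) (cut := Cut.none) (xt := Ext.none) (P1 := 0) (W1 := 536870912) (P2 := 1073741824) (W2 := 536870912) (P3 := 469762048) (W3 := 67108864) (N0 := 3)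
    rfl k0_mm_012

noncomputable def f_mm_022 : ℕ → ℕ → ℕ → ℕ → Bool := onCell 0 536870912 1073741824 536870912 469762048 67108864
    (rowN 3 0 false false false .pp 0 2 2 (qsf 0 536870912 1073741824 536870912 2) ndN0q0 ndN3q2 pcN2 Cut.none Ext.none)

def k0_mm_022 : ∃ t, chk3 f_mm_022 t 1 1 1 = true :=
  ⟨(l 5), by decide +kernel⟩

theorem c_mm_022 : CertN 0 536870912 1073741824 536870912 469762048 67108864 3 false false false .pp 0 2 2
    ndN0q0 ndN3q2 pcN2 Cut.none Ext.none :=
  certN0 (fam := false) (s1 := false) (s2 := false) (a := 0) (b := 2) (c := 2) (cn := .pp) (n1 := ndN0q0) (n2 := ndN3q2) (pc := pcN2) (cut := Cut.none) (xt := Ext.none) (P1 := 0) (W1 := 536870912) (P2 := 1073741824) (W2 := 536870912) (P3 := 469762048) (W3 := 67108864) (N0 := 3)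
    rfl k0_mm_022

noncomputable def f_mm_023 : ℕ → ℕ → ℕ → ℕ → Bool := onCell 0 536870912 0 1230186008 469762048 67108864
    (rowN 3 0 false false false .up 0 2 3 (qsf 0 536870912 0 1230186008 2) ndN0q0 ndN3q3 pcN2 Cut.none Ext.none)

def k0_mm_023 : ∃ t, chk3 f_mm_023 t 1 1 1 = true :=
  ⟨(l 5), by decide +kernel⟩

theorem c_mm_023 : CertN 0 536870912 0 1230186008 469762048 67108864 3 false false false .up 0 2 3
    ndN0q0 ndN3q3 pcN2 Cut.none Ext.none :=
  certN0 (fam := false) (s1 := false) (s2 := false) (a := 0) (b := 2) (c := 3) (cn := .up) (n1 := ndN0q0) (n2 := ndN3q3) (pc := pcN2) (cut := Cut.none) (xt := Ext.none) (P1 := 0) (W1 := 536870912) (P2 := 0) (W2 := 1230186008) (P3 := 469762048) (W3 := 67108864) (N0 := 3)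
    rfl k0_mm_023

noncomputable def f_mm_033 : ℕ → ℕ → ℕ → ℕ → Bool := onCell 0 536870912 0 1230186008 469762048 67108864
    (rowN 3 0 false false false .pnn 0 3 3 (qsf 0 536870912 0 1230186008 3) ndN0q0 ndN3q3 pcN3 Cut.none Ext.none)

def k0_mm_033 : ∃ t, chk3 f_mm_033 t 1 1 1 = true :=
  ⟨(l 5), by decide +kernel⟩

theorem c_mm_033 : CertN 0 536870912 0 1230186008 469762048 67108864 3 false false false .pnn 0 3 3
    ndN0q0 ndN3q3 pcN3 Cut.none Ext.none :=
  certN0 (fam := false) (s1 := false) (s2 := false) (a := 0) (b := 3) (c := 3) (cn := .pnn) (n1 := ndN0q0) (n2 := ndN3q3) (pc := pcN3) (cut := Cut.none) (xt := Ext.none) (P1 := 0) (W1 := 536870912) (P2 := 0) (W2 := 1230186008) (P3 := 469762048) (W3 := 67108864) (N0 := 3)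
    rfl k0_mm_033

noncomputable def cut_mm_101 : Cut := Cut.of [[⟨0, 1, 0, 67108864⟩, ⟨1, 0, 0, 67108864⟩, ⟨2, 1, 0, 67108864⟩]]

noncomputable def f_mm_101 : ℕ → ℕ → ℕ → ℕ → Bool := onCell 536870912 536870912 0 536870912 469762048 67108864
    (rowN 3 1 false false false .npn 1 0 1 (qsf 536870912 536870912 536870912 536870912 0) ndN0q1 ndN3q1 pcN0 cut_mm_101 Ext.none)

def k0_mm_101 : ∃ t, chk3 f_mm_101 t 1 1 1 = true :=
  ⟨(a (l 3) (b (a (l 3) (b (a (l 3) (b (a (l 3) (b (l 6) (l 3))) (l 3))) (l 3))) (l 3))), by decide +kernel⟩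

theorem c_mm_101 : CertN 536870912 536870912 536870912 536870912 469762048 67108864 3 false false false .npn 1 0 1
    ndN0q1 ndN3q1 pcN0 cut_mm_101 Ext.none :=
  certN1 (fam := false) (s1 := false) (s2 := false) (a := 1) (b := 0) (c := 1) (cn := .npn) (n1 := ndN0q1) (n2 := ndN3q1) (pc := pcN0) (cut := cut_mm_101) (xt := Ext.none) (P1 := 536870912) (W1 := 536870912) (P2 := 536870912) (W2 := 536870912) (P3 := 469762048) (W3 := 67108864) (N0 := 3)
    rfl (fun _ => rfl) k0_mm_101

noncomputable def f_mm_102 : ℕ → ℕ → ℕ → ℕ → Bool := onCell 536870912 536870912 1073741824 536870912 469762048 67108864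
    (rowN 3 0 false false false .npp 1 0 2 (qsf 536870912 536870912 1073741824 536870912 0) ndN0q1 ndN3q2 pcN0 Cut.none Ext.none)

def k0_mm_102 : ∃ t, chk3 f_mm_102 t 1 1 1 = true :=
  ⟨(l 3), by decide +kernel⟩

theorem c_mm_102 : CertN 536870912 536870912 1073741824 536870912 469762048 67108864 3 false false false .npp 1 0 2
    ndN0q1 ndN3q2 pcN0 Cut.none Ext.none :=
  certN0 (fam := false) (s1 := false) (s2 := false) (a := 1) (b := 0) (c := 2) (cn := .npp) (n1 := ndN0q1) (n2 := ndN3q2) (pc := pcN0) (cut := Cut.none) (xt := Ext.none) (P1 := 536870912) (W1 := 536870912) (P2 := 1073741824) (W2 := 536870912) (P3 := 469762048) (W3 := 67108864) (N0 := 3)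
    rfl k0_mm_102

noncomputable def f_mm_112 : ℕ → ℕ → ℕ → ℕ → Bool := onCell 536870912 536870912 1073741824 536870912 469762048 67108864
    (rowN 3 0 false false false .dn 1 1 2 (qsf 536870912 536870912 1073741824 536870912 1) ndN0q1 ndN3q2 pcN1 Cut.none Ext.none)

def k0_mm_112 : ∃ t, chk3 f_mm_112 t 1 1 1 = true :=
  ⟨(l 3), by decide +kernel⟩

theorem c_mm_112 : CertN 536870912 536870912 1073741824 536870912 469762048 67108864 3 false false false .dn 1 1 2
    ndN0q1 ndN3q2 pcN1 Cut.none Ext.none :=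
  certN0 (fam := false) (s1 := false) (s2 := false) (a := 1) (b := 1) (c := 2) (cn := .dn) (n1 := ndN0q1) (n2 := ndN3q2) (pc := pcN1) (cut := Cut.none) (xt := Ext.none) (P1 := 536870912) (W1 := 536870912) (P2 := 1073741824) (W2 := 536870912) (P3 := 469762048) (W3 := 67108864) (N0 := 3)
    rfl k0_mm_112

noncomputable def f_mm_113 : ℕ → ℕ → ℕ → ℕ → Bool := onCell 536870912 536870912 0 1230186008 469762048 67108864
    (rowN 3 0 false false false .nn 1 1 3 (qsf 536870912 536870912 0 1230186008 1) ndN0q1 ndN3q3 pcN1 Cut.none Ext.none)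

def k0_mm_113 : ∃ t, chk3 f_mm_113 t 1 1 1 = true :=
  ⟨(b (l 5) (b (l 5) (a (l 5) (l 3)))), by decide +kernel⟩

theorem c_mm_113 : CertN 536870912 536870912 0 1230186008 469762048 67108864 3 false false false .nn 1 1 3
    ndN0q1 ndN3q3 pcN1 Cut.none Ext.none :=
  certN0 (fam := false) (s1 := false) (s2 := false) (a := 1) (b := 1) (c := 3) (cn := .nn) (n1 := ndN0q1) (n2 := ndN3q3) (pc := pcN1) (cut := Cut.none) (xt := Ext.none) (P1 := 536870912) (W1 := 536870912) (P2 := 0) (W2 := 1230186008) (P3 := 469762048) (W3 := 67108864) (N0 := 3)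
    rfl k0_mm_113

noncomputable def f_mm_123 : ℕ → ℕ → ℕ → ℕ → Bool := onCell 1073741824 536870912 0 1230186008 469762048 67108864
    (rowN 3 2 false false false .npn 1 2 3 (qsf 536870912 536870912 0 1230186008 2) ndN0q1 ndN3q3 pcN2 Cut.none Ext.none)

def k0_mm_123 : ∃ t, chk3 f_mm_123 t 1 1 1 = true :=
  ⟨(b (l 5) (l 5)), by decide +kernel⟩

theorem c_mm_123 : CertN 536870912 536870912 0 1230186008 469762048 67108864 3 false false false .npn 1 2 3
    ndN0q1 ndN3q3 pcN2 Cut.none Ext.none :=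
  certN2 (fam := false) (s1 := false) (s2 := false) (a := 1) (b := 2) (c := 3) (cn := .npn) (n1 := ndN0q1) (n2 := ndN3q3) (pc := pcN2) (cut := Cut.none) (xt := Ext.none) (P1 := 536870912) (W1 := 536870912) (P2 := 0) (W2 := 1230186008) (P3 := 469762048) (W3 := 67108864) (N0 := 3)
    rfl (fun _ => rfl) k0_mm_123

noncomputable def f_mm_133 : ℕ → ℕ → ℕ → ℕ → Bool := onCell 1610612736 536870912 0 1230186008 469762048 67108864
    (rowN 3 2 false false false .dn 1 3 3 (qsf 536870912 536870912 0 1230186008 3) ndN0q1 ndN3q3 pcN3 Cut.none Ext.none)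

def k0_mm_133 : ∃ t, chk3 f_mm_133 t 1 1 1 = true :=
  ⟨(l 5), by decide +kernel⟩

theorem c_mm_133 : CertN 536870912 536870912 0 1230186008 469762048 67108864 3 false false false .dn 1 3 3
    ndN0q1 ndN3q3 pcN3 Cut.none Ext.none :=
  certN2 (fam := false) (s1 := false) (s2 := false) (a := 1) (b := 3) (c := 3) (cn := .dn) (n1 := ndN0q1) (n2 := ndN3q3) (pc := pcN3) (cut := Cut.none) (xt := Ext.none) (P1 := 536870912) (W1 := 536870912) (P2 := 0) (W2 := 1230186008) (P3 := 469762048) (W3 := 67108864) (N0 := 3)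
    rfl (fun _ => rfl) k0_mm_133

noncomputable def f_mm_202 : ℕ → ℕ → ℕ → ℕ → Bool := onCell 0 536870912 0 536870912 469762048 67108864
    (rowN 3 1 false false false .pp 2 0 2 (qsf 0 536870912 1073741824 536870912 0) ndN0q2 ndN3q2 pcN0 Cut.none Ext.none)

def k0_mm_202 : ∃ t, chk3 f_mm_202 t 1 1 1 = true :=
  ⟨(a (b (b (a (b (a (a (b (b (l 149417379591) (l 151027977607)) (l 3)) (l 3)) (l 3)) (l 3)) (l 3)) (l 3)) (l 3)) (l 3)), by decide +kernel⟩

theorem c_mm_202 : CertN 0 536870912 1073741824 536870912 469762048 67108864 3 false false false .pp 2 0 2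
    ndN0q2 ndN3q2 pcN0 Cut.none Ext.none :=
  certN1 (fam := false) (s1 := false) (s2 := false) (a := 2) (b := 0) (c := 2) (cn := .pp) (n1 := ndN0q2) (n2 := ndN3q2) (pc := pcN0) (cut := Cut.none) (xt := Ext.none) (P1 := 0) (W1 := 536870912) (P2 := 1073741824) (W2 := 536870912) (P3 := 469762048) (W3 := 67108864) (N0 := 3)
    rfl (fun _ => rfl) k0_mm_202

noncomputable def f_mm_203 : ℕ → ℕ → ℕ → ℕ → Bool := onCell 0 536870912 0 1230186008 469762048 67108864
    (rowN 3 0 false false false .up 2 0 3 (qsf 0 536870912 0 1230186008 0) ndN0q2 ndN3q3 pcN0 Cut.none Ext.none)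

def k0_mm_203 : ∃ t, chk3 f_mm_203 t 1 1 1 = true :=
  ⟨(b (l 2) (b (l 2) (l 3))), by decide +kernel⟩

theorem c_mm_203 : CertN 0 536870912 0 1230186008 469762048 67108864 3 false false false .up 2 0 3
    ndN0q2 ndN3q3 pcN0 Cut.none Ext.none :=
  certN0 (fam := false) (s1 := false) (s2 := false) (a := 2) (b := 0) (c := 3) (cn := .up) (n1 := ndN0q2) (n2 := ndN3q3) (pc := pcN0) (cut := Cut.none) (xt := Ext.none) (P1 := 0) (W1 := 536870912) (P2 := 0) (W2 := 1230186008) (P3 := 469762048) (W3 := 67108864) (N0 := 3)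
    rfl k0_mm_203

noncomputable def f_mm_213 : ℕ → ℕ → ℕ → ℕ → Bool := onCell 0 536870912 0 1230186008 469762048 67108864
    (rowN 3 0 false false false .pnn 2 1 3 (qsf 0 536870912 0 1230186008 1) ndN0q2 ndN3q3 pcN1 Cut.none Ext.none)

def k0_mm_213 : ∃ t, chk3 f_mm_213 t 1 1 1 = true :=
  ⟨(b (a (l 3) (l 5)) (b (l 3) (l 3))), by decide +kernel⟩

theorem c_mm_213 : CertN 0 536870912 0 1230186008 469762048 67108864 3 false false false .pnn 2 1 3
    ndN0q2 ndN3q3 pcN1 Cut.none Ext.none :=
  certN0 (fam := false) (s1 := false) (s2 := false) (a := 2) (b := 1) (c := 3) (cn := .pnn) (n1 := ndN0q2) (n2 := ndN3q3) (pc := pcN1) (cut := Cut.none) (xt := Ext.none) (P1 := 0) (W1 := 536870912) (P2 := 0) (W2 := 1230186008) (P3 := 469762048) (W3 := 67108864) (N0 := 3)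
    rfl k0_mm_213

end Pool.Agent.Strip051.G.I7_16_1_2.Tab.C.NB03

namespace Pool.Agent.Strip051.G.I7_16_1_2.Tab.C.NB04

open Pool.Agent.Strip051.PB Pool.Agent.Strip051.PB.T
open Pool.Agent.Strip051.G.I7_16_1_2.Tab

noncomputable def f_pp_001 : ℕ → ℕ → ℕ → ℕ → Bool := onCell 0 536870912 0 536870912 469762048 67108864
    (rowN 3 1 false true true .up 0 0 1 (qsf 0 536870912 536870912 536870912 0) ndN0q0 ndN4q1 pcN0 Cut.none Ext.none)

def k0_pp_001 : ∃ t, chk3 f_pp_001 t 1 1 1 = true :=
  ⟨(l 3), by decide +kernel⟩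

theorem c_pp_001 : CertN 0 536870912 536870912 536870912 469762048 67108864 3 false true true .up 0 0 1
    ndN0q0 ndN4q1 pcN0 Cut.none Ext.none :=
  certN1 (fam := false) (s1 := true) (s2 := true) (a := 0) (b := 0) (c := 1) (cn := .up) (n1 := ndN0q0) (n2 := ndN4q1) (pc := pcN0) (cut := Cut.none) (xt := Ext.none) (P1 := 0) (W1 := 536870912) (P2 := 536870912) (W2 := 536870912) (P3 := 469762048) (W3 := 67108864) (N0 := 3)
    rfl (fun _ => rfl) k0_pp_001

noncomputable def cut_pp_011 : Cut := Cut.of [[⟨0, 0, 0, 67108864⟩, ⟨1, 1, 0, 67108864⟩, ⟨2, 1, 0, 67108864⟩]]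

noncomputable def f_pp_011 : ℕ → ℕ → ℕ → ℕ → Bool := onCell 0 536870912 536870912 536870912 469762048 67108864
    (rowN 3 1 false true true .pnn 0 1 1 (qsf 0 536870912 536870912 536870912 1) ndN0q0 ndN4q1 pcN1 cut_pp_011 Ext.none)

def k0_pp_011 : ∃ t, chk3 f_pp_011 t 1 1 1 = true :=
  ⟨(b (l 3) (a (b (l 3) (a (b (l 3) (a (b (l 3) (a (l 6) (l 3))) (l 3))) (l 3))) (l 3))), by decide +kernel⟩

theorem c_pp_011 : CertN 0 536870912 536870912 536870912 469762048 67108864 3 false true true .pnn 0 1 1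
    ndN0q0 ndN4q1 pcN1 cut_pp_011 Ext.none :=
  certN1 (fam := false) (s1 := true) (s2 := true) (a := 0) (b := 1) (c := 1) (cn := .pnn) (n1 := ndN0q0) (n2 := ndN4q1) (pc := pcN1) (cut := cut_pp_011) (xt := Ext.none) (P1 := 0) (W1 := 536870912) (P2 := 536870912) (W2 := 536870912) (P3 := 469762048) (W3 := 67108864) (N0 := 3)
    rfl (fun _ => rfl) k0_pp_011

noncomputable def cut_pp_012 : Cut := Cut.of [[⟨0, 0, 0, 67108864⟩, ⟨1, 1, 0, 67108864⟩, ⟨2, 1, 0, 67108864⟩]]

noncomputable def f_pp_012 : ℕ → ℕ → ℕ → ℕ → Bool := onCell 0 536870912 536870912 536870912 469762048 67108864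
    (rowN 3 1 false true true .pnp 0 1 2 (qsf 0 536870912 1073741824 536870912 1) ndN0q0 ndN4q2 pcN1 cut_pp_012 Ext.none)

def k0_pp_012 : ∃ t, chk3 f_pp_012 t 1 1 1 = true :=
  ⟨(b (l 3) (a (b (l 3) (a (b (l 3) (a (b (l 3) (a (l 6) (l 3))) (l 3))) (l 3))) (l 3))), by decide +kernel⟩

theorem c_pp_012 : CertN 0 536870912 1073741824 536870912 469762048 67108864 3 false true true .pnp 0 1 2
    ndN0q0 ndN4q2 pcN1 cut_pp_012 Ext.none :=
  certN1 (fam := false) (s1 := true) (s2 := true) (a := 0) (b := 1) (c := 2) (cn := .pnp) (n1 := ndN0q0) (n2 := ndN4q2) (pc := pcN1) (cut := cut_pp_012) (xt := Ext.none) (P1 := 0) (W1 := 536870912) (P2 := 1073741824) (W2 := 536870912) (P3 := 469762048) (W3 := 67108864) (N0 := 3)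
    rfl (fun _ => rfl) k0_pp_012

noncomputable def cut_pp_022 : Cut := Cut.of [[⟨0, 0, 0, 67108864⟩, ⟨1, 1, 0, 67108864⟩, ⟨2, 1, 0, 67108864⟩]]

noncomputable def f_pp_022 : ℕ → ℕ → ℕ → ℕ → Bool := onCell 0 536870912 1073741824 536870912 469762048 67108864
    (rowN 3 1 false true true .pp 0 2 2 (qsf 0 536870912 1073741824 536870912 2) ndN0q0 ndN4q2 pcN2 cut_pp_022 Ext.none)

def k0_pp_022 : ∃ t, chk3 f_pp_022 t 16 16 1 = true :=
  ⟨(b (l 6) (a (l 6) (b (l 6) (a (l 6) (a (l 6) (b (l 6) (b (l 6) (l 16753584)))))))), by decide +kernel⟩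

def k1_pp_022 : ∃ t, chk3 f_pp_022 t 17 32 1 = true :=
  ⟨(a (a (l 6) (l 3)) (l 3)), by decide +kernel⟩

def k2_pp_022 : ∃ t, chk3 f_pp_022 t 68 66 1 = true :=
  ⟨(b (l 6) (b (l 6) (a (l 6) (a (l 6) (b (l 6) (c (l 16771416) (l 16771144))))))), by decide +kernel⟩

def k3_pp_022 : ∃ t, chk3 f_pp_022 t 69 132 1 = true :=
  ⟨(a (a (l 6) (l 3)) (l 3)), by decide +kernel⟩

def k4_pp_022 : ∃ t, chk3 f_pp_022 t 138 266 1 = true :=
  ⟨(b (a (l 6) (b (a (l 6) (l 3)) (c (b (a (l 6) (l 3)) (b (a (l 6) (a (a (c (l 198810011047) (l 209547429095)) (l 3)) (l 3))) (a (c (l 16776856) (l 16777144)) (a (a (c (l 16777800) (l 16777112)) (c (l 188072592775) (l 189683205479))) (l 3))))) (b (a (l 6) (l 3)) (a (c (l 16777408) (l 16777224)) (a (a (c (l 113447535831) (l 155323466695)) (c (b (l 3) (l 190220076215)) (l 317995353223))) (l 3))))))) (a (b (l 6) (c (c (l 16773784) (l 16773872)) (l 16774424))) (c (b (a (c (l 16776520) (l 16776472)) (b (a (c (c (l 16777544) (l 16777520)) (l 16777496)) (a (b (c (c (l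 179482657831) (l 176798303255)) (l 177872045383)) (c (l 16777776) (l 16777080))) (b (l 3) (c (b (l 241759683879) (l 125258695735)) (l 166060885287))))) (c (c (l 31843155335) (l 16777240)) (l 16777208)))) (a (a (l 16776152) (l 16776000)) (c (l 16776456) (l 16776400)))) (b (a (c (l 16776424) (l 16777048)) (a (c (l 16777192) (l 16777168)) (b (a (c (l 96267666583) (l 130090533847)) (c (l 242296554967) (b (l 3) (l 224042943287)))) (c (l 16777432) (l 16776752))))) (a (l 16775640) (c (l 16777016) (l 16776976))))))), by decide +kernel⟩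

def k5_pp_022 : ∃ t, chk3 f_pp_022 t 139 266 1 = true :=
  ⟨(b (l 3) (a (b (b (l 3) (a (a (a (b (c (c (c (l 158544692199) (l 155323466695)) (l 154249725175)) (c (l 154249724999) (l 195051914151))) (c (c (l 16777744) (l 16777048)) (l 16777664))) (b (l 3) (c (c (c (l 147807273927) (l 144586048423)) (l 142438565079)) (c (l 16777744) (l 16777584))))) (l 3)) (l 3))) (c (a (a (c (l 16777040) (l 16777160)) (b (b (a (c (c (l 137069855655) (l 132774888343)) (l 130627404983)) (l 3)) (c (a (l 16777056) (l 119889986791)) (l 52244251863))) (c (l 16776864) (l 16776736)))) (b (l 3) (b (a (c (a (l 108078826727) (l 275045680775)) (a (l 16777728) (l 282025002439))) (l 3)) (a (c (c (l 41506833399) (l 16777784)) (l 16777760)) (c (l 404431569623) (l 420537696967)))))) (a (c (c (a (l 16777128) (b (b (l 191830689031) (l 16777768)) (l 16776712))) (a (l 16776464) (b (b (l 220284847207) (l 16777760)) (l 16776696)))) (c (a (l 16776448) (a (l 16777488) (b (l 180019529207) (l 16776816)))) (a (l 16776440) (b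 (b (l 188609463799) (l 16777744)) (l 16776672))))) (b (l 3) (b (a (c (l 183240754519) (l 227264169063)) (l 3)) (a (c (l 16777728) (l 16777712)) (a (l 300278613815) (l 3)))))))) (l 3))), by decide +kernel⟩

def k6_pp_022 : ∃ t, chk3 f_pp_022 t 138 267 1 = true :=
  ⟨(b (b (a (c (c (l 16772224) (l 16774760)) (l 16773328)) (c (c (l 16775376) (l 16775480)) (c (l 16775416) (l 16775360)))) (c (c (a (l 16771160) (l 16773496)) (a (l 16771064) (l 16773416))) (a (l 16773872) (l 16774128)))) (a (c (c (l 16772184) (l 16772072)) (l 16769936)) (c (a (l 16773640) (a (l 16771776) (l 16774904))) (l 16772816)))), by decide +kernel⟩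

def k7_pp_022 : ∃ t, chk3 f_pp_022 t 278 534 1 = true :=
  ⟨(c (c (c (b (b (a (l 16776016) (a (l 16776760) (b (a (l 16777576) (l 253570843895)) (l 16777776)))) (a (l 16775480) (l 16776640))) (l 16776168)) (a (l 16776168) (a (l 16776752) (b (b (a (l 16777760) (a (l 117205632055) (l 181093270775))) (l 16777352)) (l 16775904))))) (c (b (b (a (l 16775960) (a (l 16776712) (b (l 147807274359) (l 16777736)))) (l 16776584)) (l 16776104)) (b (b (a (l 16775936) (a (l 16776696) (a (l 16777720) (l 146196661511)))) (l 16776560)) (l 16776080)))) (c (c (b (b (a (l 16775920) (a (l 16776680) (a (l 16777712) (l 142975435943)))) (l 16776536)) (l 16776376)) (b (b (a (l 16775896) (a (l 16776664) (a (l 16777040) (l 144586048759)))) (l 16776520)) (l 16776352))) (c (b (b (a (l 16775880) (a (l 16776648) (l 129016791991))) (l 16776496)) (l 16776336)) (a (l 16776344) (a (l 16776464) (a (l 16777176) (b (b (l 147807274327) (l 16776728)) (l 16775904)))))))), by decide +kernel⟩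

def k8_pp_022 : ∃ t, chk3 f_pp_022 t 279 534 1 = true :=
  ⟨(b (a (c (b (a (c (b (l 3) (l 384567345815)) (l 422685180823)) (l 3)) (b (a (a (c (l 16777864) (l 16777832)) (a (b (l 3) (l 171966465735)) (l 3))) (l 3)) (c (a (l 16777728) (a (c (l 216526750855) (l 212768654455)) (l 3))) (a (l 16777688) (l 382956732983))))) (b (a (c (l 435570082711) (l 450602468231)) (l 3)) (a (a (l 14126417415) (b (l 254107715351) (l 16777776))) (c (l 416242729799) (l 430738244407))))) (l 3)) (a (c (c (c (b (a (l 16776688) (a (l 16777712) (b (l 205252461671) (l 16777168)))) (l 16776408)) (a (l 16776400) (a (l 16777752) (b (a (l 16777704) (l 142975436039)) (l 16776752))))) (c (b (b (a (l 16776776) (l 114521277639)) (l 16777088)) (l 16776360)) (b (a (l 16776624) (a (l 16777000) (l 117205632167))) (l 16776336)))) (c (c (a (l 16776336) (b (l 57612960919) (l 16776568))) (a (l 16776312) (c (l 24326964055) (l 23790093143)))) (a (l 16777608) (a (l 16777336) (b (l 149417886743) (l 16776656)))))) (c (b (a (a (b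 (l 3) (c (l 186998850951) (l 187535721815))) (l 3)) (l 3)) (b (b (a (c (c (l 133311759623) (l 131701146855)) (l 132238017863)) (l 3)) (a (c (l 55465477383) (l 16777816)) (l 3))) (a (c (l 16777656) (l 16776960)) (a (c (l 162302788999) (l 162302788887)) (l 3))))) (b (a (c (l 402284086007) (l 416779600615)) (l 3)) (a (c (l 51707380887) (l 63518540903)) (b (l 3) (c (l 225653556743) (l 279340647623)))))))), by decide +kernel⟩

def k9_pp_022 : ∃ t, chk3 f_pp_022 t 139 535 1 = true :=
  ⟨(c (a (c (c (l 16774576) (l 16774864)) (l 16774968)) (c (c (a (l 16776064) (a (l 16776480) (a (l 16776936) (b (a (l 16777728) (b (l 108615697495) (l 16776768))) (l 16775920))))) (a (l 16776360) (a (l 16776456) (a (l 16776824) (b (b (l 79087797351) (l 16776680)) (l 16775888)))))) (a (l 16776152) (a (b (l 16776944) (l 16776528)) (a (b (l 16777320) (l 16776904)) (b (b (l 78550926711) (l 16776648)) (l 16775840))))))) (b (c (a (l 16775280) (a (l 16776800) (a (l 16777560) (b (l 35601253607) (l 16776480))))) (a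 (l 16775224) (a (l 16776760) (c (l 16777544) (l 16777616))))) (a (l 16774160) (c (l 16776224) (l 16776176))))), by decide +kernel⟩

def k10_pp_022 : ∃ t, chk3 f_pp_022 t 34 67 1 = true :=
  ⟨(b (a (a (a (l 6) (a (l 6) (b (l 6) (l 16764040)))) (a (b (b (l 6) (l 16767520)) (a (l 16765080) (l 16766112))) (c (b (c (l 16769592) (l 16769432)) (l 16765240)) (c (l 16764672) (l 16764592))))) (b (a (b (a (c (l 16769992) (l 16769720)) (c (l 16769880) (l 16769816))) (a (c (l 16770480) (l 16770152)) (c (l 16769872) (l 16772216)))) (b (a (c (a (l 16770896) (a (l 16774272) (l 16772152))) (l 16772520)) (c (a (c (l 16773104) (l 16772856)) (b (l 16775576) (l 16773360))) (c (l 16774592) (l 16774528)))) (a (c (l 16769592) (c (l 16771704) (l 16771584))) (c (a (l 16770768) (a (l 16774136) (l 16772016))) (l 16772376))))) (b (c (a (c (l 16769432) (l 16769272)) (c (l 16769104) (l 16769048))) (a (c (l 16769096) (l 16768912)) (a (l 16772088) (l 16772816)))) (c (a (l 16767216) (a (l 16765000) (l 16772248)))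 (a (l 16766816) (c (l 16770352) (l 16769536))))))) (b (b (a (a (l 16760560) (c (l 16755784) (l 16755248))) (c (a (l 16765088) (l 16764040)) (a (l 16764640) (c (l 16763600) (l 16763408))))) (a (a (l 16759712) (c (l 16753648) (l 16753064))) (c (a (l 16757712) (l 16766984)) (a (l 16757216) (l 16766568))))) (a (c (a (l 16746320) (l 16760920)) (a (l 16745592) (l 16760272))) (a (c (l 16762368) (l 16759184)) (c (c (l 16763896) (l 16763664)) (c (l 16763424) (l 16763168))))))), by decide +kernel⟩

def k11_pp_022 : ∃ t, chk3 f_pp_022 t 35 66 1 = true :=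
  ⟨(b (l 3) (a (b (l 3) (a (b (l 3) (a (c (b (a (b (a (a (b (l 3) (c (l 138143597895) (l 136532985031))) (l 3)) (l 3)) (a (a (b (l 16778032) (l 16777440)) (c (b (l 125258696007) (l 16777056)) (l 53317993703))) (a (b (l 3) (c (l 112910665031) (l 16777896))) (l 3)))) (l 3)) (a (a (c (c (l 16776288) (l 16776256)) (l 16777528)) (b (c (c (c (l 16777704) (l 16777688)) (l 16777672)) (l 16777880)) (c (l 16777816) (l 16776448)))) (b (a (c (a (b (l 383493605127) (l 88214602951)) (l 394231022279)) (a (b (l 269140100679) (l 16777872)) (l 413021504183))) (l 3)) (c (a (c (l 16777664) (l 16777632)) (b (l 377588023959) (a (l 16777880) (l 222432331319)))) (a (l 16777600) (a (a (l 108615697703) (l 173577078359)) (l 393694151271))))))) (b (a (b (a (b (l 3) (c (l 204178720183) (l 257328940151))) (l 3)) (a (c (l 16777640) (l 16777616)) (b (l 3) (c (l 176798303671) (l 229948523639))))) (l 3)) (a (c (c (l 16777416) (l 16777400)) (c (l 16777384) (l 16777368))) (b (a (c (b (l 440401920711) (l 152639112583))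 (b (l 458655531719) (l 207936816167))) (l 3)) (c (a (l 16777568) (b (l 258939553767) (l 133311759719))) (a (l 16777536) (c (l 242833425559) (l 268603229159)))))))) (l 3))) (l 3))) (l 3))), by decide +kernel⟩

def k12_pp_022 : ∃ t, chk3 f_pp_022 t 140 268 1 = true :=
  ⟨(b (a (c (a (c (a (l 16775088) (l 16775832)) (l 16776168)) (a (c (b (l 16777512) (l 16775136)) (l 16776592)) (a (b (c (l 16776648) (l 16776520)) (l 16776128)) (b (b (c (l 16777736) (l 16777688)) (l 16777832)) (l 16776704))))) (b (a (l 16776624) (c (c (l 16777016) (l 16776992)) (l 16777296))) (c (l 16776072) (l 16776016)))) (c (b (a (a (c (b (b (l 358260671047) (a (l 16777840) (l 196662527543))) (l 16777904)) (b (b (l 236390975383) (l 115058148871)) (l 16777528))) (a (b (l 3) (c (b (l 183777625623) (l 16777152)) (l 102173246951))) (b (l 3) (c (b (l 3) (l 170892723703)) (l 212231784311))))) (l 3)) (a (c (a (l 16777440) (b (l 16777864) (l 16776352))) (l 16777136)) (a (b (a (c (c (l 87677732039) (l 84993377431)) (l 83919635863))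 (c (b (l 3) (l 145122919847)) (l 193441302391))) (c (l 16776848) (l 16776792))) (a (b (l 3) (c (c (l 64592282759) (l 16777848)) (l 16777896))) (b (l 3) (b (l 3) (c (l 118816245095) (l 16777904)))))))) (b (a (b (a (c (b (l 269140100679) (l 116131890487)) (c (l 220284847255) (l 246054650855))) (l 3)) (a (l 16777800) (c (c (l 150491628999) (l 174113948967)) (c (l 198273139847) (l 222969201639))))) (l 3)) (a (c (l 16777248) (l 16777544)) (a (b (a (a (l 16778072) (l 121500600071)) (b (l 3) (l 158007821991))) (l 16778040)) (b (l 3) (b (a (l 142975436423) (l 3)) (l 54391736087)))))))) (b (a (c (a (l 16773296) (a (l 16775352) (l 16775848))) (l 16774952)) (a (c (c (l 16776624) (l 16775248)) (l 16776472)) (c (c (l 16776952) (l 16776896)) (c (l 16776840) (l 16777464))))) (a (c (c (l 16772768) (l 16772680)) (l 16773864)) (c (c (a (l 16774256) (l 16775240)) (l 16775984)) (c (l 16775912) (l 16775856)))))), by decide +kernel⟩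

def k13_pp_022 : ∃ t, chk3 f_pp_022 t 141 268 1 = true :=
  ⟨(b (l 3) (a (c (b (a (a (b (b (c (a (l 105394472279) (l 269140100791)) (l 162839660263)) (c (l 38822479191) (l 16777760))) (c (l 16777424) (l 16776712))) (a (b (c (l 385641087687) (l 409800278711)) (c (l 16777952) (l 16777736))) (b (l 3) (c (b (l 241759684279) (l 16777888)) (l 138680469191))))) (b (l 3) (a (c (l 387251700599) (l 409263407959)) (l 3)))) (a (c (l 16776872) (l 16776816)) (b (b (a (c (a (l 16777872) (l 209547429479)) (l 124184954375)) (l 3)) (c (a (l 16777736) (a (l 196125656631) (l 3))) (a (l 16777032) (l 226727299063)))) (a (c (l 16776688) (l 16776632)) (a (c (l 16777712) (l 16777000)) (c (c (l 105931343127) (l 101636375863)) (l 100562634215))))))) (c (b (a (a (a (l 16777464) (b (l 158007821767) (l 16776792))) (b (l 440401920951) (l 91435828727))) (b (l 3) (l 440938792279))) (a (l 16777416) (b (a (l 78550926759) (l 402284086023)) (c (l 16777824) (l 16777800))))) (b (a (a (b (l 143512306903) (l 16776632))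 (b (l 458118661031) (l 125795566727))) (b (l 3) (l 454897435975))) (a (l 16777376) (b (a (l 98952021207) (l 418927084279)) (l 22716351767)))))) (b (l 3) (b (l 3) (b (l 3) (a (a (a (c (c (l 168208369207) (l 167671498119)) (l 184851367671)) (l 3)) (l 3)) (l 3))))))), by decide +kernel⟩

def k14_pp_022 : ∃ t, chk3 f_pp_022 t 70 269 1 = true :=
  ⟨(a (c (c (a (b (l 16774128) (l 16769064)) (b (a (l 16775288) (c (l 16773672) (l 16773624))) (l 16771040))) (a (l 16771640) (c (l 16773984) (l 16773936)))) (a (c (l 16772504) (l 16772392)) (b (a (l 16773744) (l 16774752)) (l 16773384)))) (b (a (b (c (c (c (l 16776408) (l 16776616)) (c (l 16776584) (l 16776224))) (c (c (l 16776848) (l 16776816)) (l 16776456))) (c (c (c (l 16774944) (l 16774904)) (l 16775824)) (c (l 16775752) (l 16775688)))) (c (b (a (c (b (a (c (c (l 49023026311) (l 46338671751)) (l 42580575495)) (b (l 3) (a (l 140827952599) (l 3)))) (a (l 16776608) (c (l 32380028151) (l 16777728)))) (a (c (l 16777888) (l 16777456)) (b (b (l 3)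 (l 186998851399)) (l 16778016)))) (b (l 3) (a (a (b (l 3) (b (l 173577078839) (l 54928607175))) (l 3)) (l 3)))) (a (c (l 16776432) (l 16776648)) (a (c (c (c (l 16777800) (l 16777456)) (l 16777760)) (c (l 16777728) (l 16778024))) (c (b (c (b (l 373829927639) (l 152102241735)) (b (l 397989118647) (l 147807274439))) (l 16777992)) (b (b (l 275582552167) (l 147270403815)) (l 16778264)))))) (b (a (c (b (a (l 16777688) (l 370608702023)) (l 16778056)) (b (a (l 16777664) (b (l 3) (l 252497102007))) (l 16778024))) (b (l 3) (a (c (l 221895460775) (b (l 3) (l 221358589111))) (l 3)))) (c (a (l 16777248) (b (a (l 16777608) (l 195051915239)) (l 16777968))) (a (l 16777200) (b (a (l 16778224) (b (l 377588024631) (l 197199397975))) (l 16777928))))))) (b (a (c (c (l 16775504) (l 16773440)) (l 16774632)) (c (b (c (l 16776576) (l 16776336)) (c (l 16775600) (l 16775808))) (c (l 16776336) (l 16776608)))) (a (c (c (l 16775104) (l 16775000)) (l 16774856)) (c (c (c (l 16774624) (l 16774416)) (l 16775656))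 (c (l 16775584) (l 16775512))))))), by decide +kernel⟩

def k15_pp_022 : ∃ t, chk3 f_pp_022 t 71 134 1 = true :=
  ⟨(b (l 3) (a (b (a (b (l 3) (b (l 3) (a (a (c (c (b (a (l 227801040567) (l 3)) (c (l 133848630647) (l 129016792439))) (b (l 248202135639) (l 126869309015))) (c (l 176798304135) (c (l 224042943751) (l 257865810951)))) (l 3)) (l 3)))) (l 3)) (a (b (c (b (a (a (c (l 16777624) (l 16776912)) (a (c (c (l 120426857783) (l 113984406871)) (l 111836923415)) (c (b (l 3) (l 184314496615)) (l 219747977271)))) (l 3)) (a (c (c (l 16777368) (l 16777984)) (l 16777936)) (a (a (c (c (l 108078826599) (l 96267666647)) (l 91972699607)) (c (b (l 3) (l 155860338199)) (l 199346882519))) (l 3)))) (a (c (a (l 16777904) (b (l 158007822119) (l 16776816))) (b (a (l 16776824) (c (l 204178719911) (l 236927845303))) (l 16777840))) (b (l 3) (a (c (l 141364823751) (l 142975436679)) (l 3))))) (c (c (b (a (l 16777472) (a (l 16778200) (b (a (l 140827952647) (l 3)) (l 61371057799)))) (c (l 16776512) (l 16776592)))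 (b (b (a (l 16776224) (a (l 16778264) (l 186461980551))) (a (l 16777264) (l 16777912))) (l 16777032))) (b (a (l 16777312) (a (l 16778064) (c (l 127406179959) (l 126869309223)))) (c (l 16777296) (l 16777248))))) (b (l 3) (b (l 3) (a (b (a (a (c (a (l 16778216) (l 164987144391)) (l 16778192)) (l 3)) (l 3)) (c (c (a (l 16777840) (l 380809250759)) (a (l 16777784) (l 271287584919))) (a (l 16778048) (l 305647323559)))) (l 3)))))) (l 3))), by decide +kernel⟩

def k16_pp_022 : ∃ t, chk3 f_pp_022 t 70 135 1 = true :=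
  ⟨(b (a (c (a (c (l 16771128) (l 16770968)) (c (l 16768520) (l 16768376))) (c (l 16768856) (l 16769032))) (c (b (c (a (l 16770896) (a (l 16774984) (l 16773344))) (b (l 16773768) (l 16772208))) (c (c (l 16770448) (l 16770384)) (l 16770936))) (c (a (l 16772200) (l 16773864)) (a (l 16772072) (l 16774096))))) (b (a (c (c (l 16768952) (l 16763520)) (l 16768472)) (c (a (l 16771824) (l 16772488)) (a (l 16771496) (l 16773504)))) (a (c (l 16766704) (l 16766280)) (a (l 16770152) (c (l 16771656) (l 16771328)))))), by decide +kernel⟩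

def k17_pp_022 : ∃ t, chk3 f_pp_022 t 142 270 1 = true :=
  ⟨(b (a (a (c (b (l 16776112) (l 16773736)) (l 16775416)) (c (c (b (l 16777456) (l 16774760)) (l 16776512)) (c (l 16776440) (l 16776384)))) (b (a (a (c (c (l 16776584) (l 16776472)) (l 16777696)) (b (a (c (c (l 16777816) (l 16777096)) (l 16778336)) (c (c (c (l 176798303207) (l 140827952599)) (l 138143598279)) (l 149954758807))) (c (c (l 16776760) (l 16776688)) (l 16777920)))) (c (b (a (c (l 373293056855) (l 401210344247)) (l 3)) (a (c (c (c (l 114521277143) (l 78014055671)) (l 70497863095)) (l 76403443367)) (c (l 354502574839) (l 378661765847)))) (c (b (l 436106954055) (a (l 16777776) (l 395304764119))) (b (l 452749952295) (a (l 16777744) (l 413558375127)))))) (a (c (c (l 16777040) (l 16775648)) (l 16776856)) (b (a (c (c (l 16776720) (l 16776648)) (l 16777872)) (c (c (c (c (l 99488891543) (l 66202895447)) (l 55465477479)) (l 52244252247)) (c (l 16777728) (l 16777696)))) (c (c (l 16777744) (l 16776352)) (l 16777576)))))) (a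 (c (a (l 16774768) (a (l 16775504) (l 16775992))) (l 16774072)) (c (c (a (l 16776440) (c (l 16775472) (l 16775424))) (a (l 16776672) (l 16776336))) (c (a (l 16776584) (l 16776256)) (l 16775696))))), by decide +kernel⟩

def k18_pp_022 : ∃ t, chk3 f_pp_022 t 143 270 1 = true :=
  ⟨(b (a (b (l 3) (a (c (b (a (b (l 3) (c (l 200420624375) (l 200420624327))) (l 3)) (c (a (c (l 46875542791) (l 16777784)) (b (l 3) (a (l 134922372503) (l 3)))) (a (l 16778064) (b (l 3) (l 178945787751))))) (c (b (l 405505311863) (a (l 16777680) (l 218674235511))) (b (l 420537697383) (a (l 16778296) (l 217600494023))))) (l 3))) (l 3)) (a (b (a (a (c (c (l 16777680) (l 16776288)) (l 16777504)) (c (c (c (l 16777848) (l 16778136)) (l 16778080)) (c (l 16778024) (l 16777976)))) (a (b (a (c (c (c (l 197199398023) (l 164450272807)) (l 160692176663)) (l 176261433591)) (l 3)) (c (c (l 16778040) (l 16778296)) (l 16778216))) (b (l 3) (c (c (b (l 359871285143) (c (l 166060885143) (l 142975436119))) (b (l 255718328503) (l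 134385501879))) (c (l 181093271447) (l 182703884535)))))) (a (c (c (l 16776864) (l 16775464)) (l 16776672)) (c (c (a (l 16777592) (a (l 16776640) (l 16778184))) (l 16777088)) (c (l 16777680) (l 16777632))))) (b (l 3) (a (c (a (b (b (a (l 210621172311) (l 3)) (c (l 115058149175) (l 112373794503))) (c (l 16778280) (l 16776896))) (b (l 3) (a (c (l 99488892679) (l 16778056)) (c (l 201494366375) (l 201494366151))))) (b (a (c (l 163376531255) (l 164987144343)) (l 3)) (a (l 16778120) (a (l 103246989479) (l 222432332215))))) (l 3))))), by decide +kernel⟩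

def k19_pp_022 : ∃ t, chk3 f_pp_022 t 71 271 1 = true :=
  ⟨(a (b (c (a (c (l 16773200) (l 16773072)) (a (l 16774600) (a (l 16775328) (l 16775816)))) (c (l 16773608) (l 16773824))) (a (c (l 16771000) (l 16773328)) (c (c (l 16773024) (l 16772888)) (l 16771384)))) (b (a (c (c (a (l 16776600) (b (l 16776776) (l 16774416))) (l 16775832)) (c (l 16775904) (l 16775504))) (b (c (a (c (c (c (l 16776464) (l 16776440)) (l 16776408)) (l 16777000)) (b (a (b (c (l 188072593495) (l 187535722359)) (c (l 64055412407) (l 16777840))) (l 3)) (a (c (l 16776880) (l 16778112)) (c (a (l 16777872) (l 159618435047)) (l 108078827511))))) (a (c (l 16777584) (l 16777528)) (b (a (c (l 132774889095) (l 128479922103)) (l 3)) (c (c (l 47412414087) (l 16777944)) (l 62444799431))))) (c (a (c (l 16776688) (l 16775280)) (c (b (l 16777904) (l 16776072)) (l 16776904))) (c (l 16776992) (l 16776936))))) (a (c (c (l 16774968) (l 16774840)) (l 16773368)) (a (c (c (l 16773792) (l 16773680)) (l 16776152)) (c (c (c (l 16774784)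 (l 16774728)) (l 16777272)) (l 16776152)))))), by decide +kernel⟩

def k20_pp_022 : ∃ t, chk3 f_pp_022 t 16 17 1 = true :=
  ⟨(b (a (a (l 6) (b (l 6) (b (l 6) (l 16688752)))) (b (a (b (l 6) (a (l 6) (l 16738704))) (b (a (c (l 16731384) (l 16730400)) (b (l 16747856) (l 16743424))) (a (l 16743008) (l 16742008)))) (a (b (l 16707240) (l 16697608)) (b (a (l 16734096) (l 16738368)) (l 16716832))))) (a (a (a (l 16676120) (l 16680600)) (b (l 16685784) (l 16657352))) (a (b (l 16689392) (l 16666200)) (b (b (l 16697432) (l 16688440)) (l 16674968))))), by decide +kernel⟩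

def k21_pp_022 : ∃ t, chk3 f_pp_022 t 17 17 1 = true :=
  ⟨(b (b (a (a (a (b (c (l 16750232) (l 16749408)) (l 16730496)) (b (b (l 16756864) (l 16751800)) (l 16735336))) (a (b (b (c (l 16750152) (l 16749520)) (l 16755936)) (c (l 16749680) (l 16748912))) (b (b (c (l 16759448) (l 16764136)) (c (l 16749840) (l 16749224))) (b (l 16755632) (l 16751224))))) (a (a (b (b (c (l 16758216) (l 16765600)) (c (l 16764360) (l 16763808))) (b (l 16759704) (l 16755304))) (b (b (c (a (l 16766448) (l 16768432)) (l 16763096)) (c (l 16757872) (l 16765248))) (b (a (l 16762736) (l 16764744)) (l 16748864)))) (b (a (a (c (b (l 16770400) (l 16766088)) (b (l 16764800) (l 16765656))) (c (b (c (l 16767208) (l 16767040)) (l 16768056)) (c (l 16767976) (l 16767792)))) (a (b (c (b (l 16770392) (l 16773248)) (l 16770912)) (c (l 16764776) (l 16764408))) (c (b (c (c (l 16772152) (l 16772040)) (l 16773568)) (c (l 16766816) (l 16766648))) (b (c (l 16773440) (l 16773328)) (l 16771632))))) (b (c (a (l 16762736) (c (l 16761544)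 (l 16761336))) (a (l 16762256) (l 16762320))) (a (c (l 16763632) (l 16763088)) (c (l 16762344) (l 16761856))))))) (b (a (a (a (l 16742600) (l 16746792)) (c (l 16733752) (l 16731608))) (a (c (a (l 16749040) (l 16742592)) (l 16743136)) (a (a (l 16755776) (l 16759088)) (b (l 16762968) (l 16748088))))) (a (a (l 16717464) (a (l 16742088) (l 16725256))) (a (c (l 16731776) (l 16730976)) (c (l 16742440) (l 16741736)))))) (a (b (a (a (l 16720344) (l 16703616)) (a (l 16728768) (l 16732912))) (a (l 16704656) (l 16713032))) (b (a (b (l 16733032) (l 16713680)) (b (c (l 16731032) (l 16730240)) (l 16742776))) (a (l 16716104) (a (l 16706496) (l 16731504)))))), by decide +kernel⟩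

def k22_pp_022 : ∃ t, chk3 f_pp_022 t 9 16 1 = true :=
  ⟨(a (b (l 3) (b (l 3) (a (b (l 3) (a (b (l 3) (a (b (a (b (b (l 3) (a (c (c (l 406579053959) (l 428053890423)) (a (l 435033211799) (l 3))) (l 3))) (c (b (a (a (c (a (l 16777832) (l 137606727623)) (l 91435829159)) (b (l 3) (c (l 237464717623) (l 238538459239)))) (l 3)) (a (a (a (l 16777936) (l 16778168)) (c (a (l 16777136) (l 116668761927)) (l 73719088983))) (a (b (l 3) (c (l 215453010119) (l 214916138999))) (l 3)))) (c (a (b (a (l 16777816) (l 410337149719)) (l 16778184)) (b (l 3) (l 410337150119))) (a (b (a (l 16777776) (l 432348857111)) (l 16778136)) (l 447381243559))))) (l 3)) (a (c (b (c (a (c (l 16776264) (l 16777528)) (a (c (c (l 20568868167) (l 16777616)) (l 16777904)) (b (b (l 3) (l 192904431719)) (l 36674996023)))) (a (l 16776800) (b (a (l 16778104) (l 218137365127)) (l 16778152)))) (c (c (a (l 16775216) (l 16776168)) (l 16775968)) (l 16776872))) (b (a (c (l 16776072) (l 16776008)) (a (b (l 50633640247) (l 16777808))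 (b (a (l 208473688631) (l 3)) (l 16778296)))) (c (l 16776792) (l 16776720)))) (b (b (l 3) (b (l 3) (a (a (c (c (l 170355853319) (l 215453009047)) (l 176798304679)) (l 3)) (l 3)))) (a (c (a (c (c (l 16778192) (l 16778136)) (l 16778072)) (c (b (b (l 3) (l 147807274951)) (l 16778368)) (b (l 182703884711) (l 16776976)))) (a (l 16778304) (b (a (l 157470951767) (l 287393712807)) (l 16778192)))) (a (b (l 3) (c (c (b (l 239612201255) (l 125258696535)) (l 164450273591)) (c (l 173577078583) (l 170892724391)))) (l 3)))))) (l 3))) (l 3))) (l 3)))) (l 3)), by decide +kernel⟩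

def k23_pp_022 : ∃ t, chk3 f_pp_022 t 144 272 1 = true :=
  ⟨(c (b (c (a (a (l 16776224) (l 16777184)) (a (b (l 16777352) (l 16774992)) (a (b (l 16778064) (l 16775704)) (b (b (c (l 178945787239) (l 150491629351)) (l 16776968)) (l 16776184))))) (b (b (a (l 16774760) (a (l 16776208) (a (l 16778232) (l 146196662487)))) (a (l 16774232) (l 16777464))) (a (l 16773424) (l 16776672)))) (a (a (l 16774024) (l 16774992)) (b (a (l 16776488) (l 16777448)) (l 16776232)))) (c (a (c (l 16774768) (l 16775376)) (b (a (l 16776632) (b (a (l 16776584) (a (l 16778256) (l 105394472967))) (l 16775752))) (l 16776272))) (b (b (a (l 16774320) (a (l 16775792) (c (l 43654317543) (l 62981670087)))) (a (l 16773232) (l 16776504))) (l 16774864)))), by decide +kernel⟩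

def k24_pp_022 : ∃ t, chk3 f_pp_022 t 145 272 1 = true :=
  ⟨(b (a (c (b (a (b (l 3) (a (c (c (l 166060885223) (l 131164276535)) (l 128479922375)) (l 3))) (l 3)) (b (a (a (c (l 16776912) (l 16776824)) (c (c (l 148881015959) (l 115595019911)) (l 110226311271))) (l 3)) (c (a (l 16776632) (a (c (l 130627404887) (l 100025763319)) (l 362018770263))) (a (l 16776528) (a (l 91435829271) (l 380809249511)))))) (b (a (b (l 3) (a (c (l 130627405783) (l 132238018487)) (l 3))) (l 3)) (a (c (c (l 17884514247) (l 16778008)) (l 27548190359)) (b (l 3) (a (l 98952022519) (l 403894698759)))))) (l 3)) (a (b (a (c (c (l 16777152) (l 16775736)) (l 16776920)) (a (c (c (l 16776552) (l 16776448)) (l 16777648)) (c (c (c (b (l 99488892007) (l 16776792)) (l 24863835799)) (l 22179481591)) (c (l 16778160) (l 16778104))))) (c (c (c (l 16776608) (l 16775232)) (l 16776456)) (l 16776976))) (c (b (a (b (a (c (b (l 3) (l 212231784775)) (l 239612201831)) (l 3)) (c (a (l 51707381687) (b (l 3) (l 188072593639))) (a (l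 16778440) (l 213305526855)))) (l 3)) (a (c (c (c (l 16778040) (l 16778008)) (l 16777968)) (c (l 16777912) (l 16777864))) (b (a (c (b (l 3) (l 166597756919)) (l 194515044823)) (l 3)) (c (a (l 16778432) (b (l 3) (l 169282110679))) (a (l 16778336) (l 175187691879)))))) (b (a (a (b (l 264308263895) (l 16778344)) (b (l 3) (l 240685943719))) (l 3)) (a (c (l 16777808) (l 16777744)) (a (b (l 215989881735) (l 16778224)) (b (l 3) (l 191830690647)))))))), by decide +kernel⟩

def k25_pp_022 : ∃ t, chk3 f_pp_022 t 72 273 1 = true :=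
  ⟨(b (a (c (c (c (l 16771488) (l 16771408)) (l 16773264)) (c (l 16773128) (l 16773000))) (a (c (c (c (l 16776328) (l 16776264)) (l 16774856)) (l 16775344)) (a (c (c (l 16777400) (l 16777608)) (l 16776800)) (c (c (c (b (l 16777920) (l 16775560)) (l 35601250967)) (l 16777248)) (c (l 16777152) (l 16777080)))))) (c (a (c (l 16772592) (l 16773736)) (c (a (l 16774168) (l 16776408)) (l 16774328))) (a (l 16770880) (c (l 16774200) (l 16774744))))), by decide +kernel⟩

def k26_pp_022 : ∃ t, chk3 f_pp_022 t 73 136 1 = true :=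
  ⟨(b (l 3) (a (b (a (c (b (a (a (c (b (c (l 188072592951) (l 164987144007)) (l 16777016)) (c (b (l 156397209543) (l 16776936)) (l 83382765511))) (b (l 3) (c (c (l 173040207255) (l 175724561559)) (l 137069857111)))) (l 3)) (c (a (c (l 16776504) (l 16776440)) (b (a (c (l 150491628983) (l 154786595959)) (l 3)) (c (a (l 16776944) (l 130090534295)) (l 45264930679)))) (a (l 16776360) (b (a (l 117742504151) (l 3)) (c (l 16778040) (l 16778320)))))) (a (b (b (a (l 165524015991) (l 3)) (c (l 65666025751) (l 97878279863))) (l 16777544)) (b (l 3) (a (b (l 125795568343) (l 16776680)) (b (l 3) (l 105931344583)))))) (b (l 3) (b (l 3) (a (a (a (c (l 253033975351) (l 271287585543)) (l 3)) (l 3)) (l 3))))) (a (c (a (c (l 16777512) (l 16777384)) (c (c (b (l 16776400) (l 16775344)) (l 16775968)) (l 16777024))) (c (l 16776440) (l 16776360))) (b (b (a (a (c (c (l 83919636551) (l 16778512)) (l 86603991719)) (c (c (l 325511548135) (l 241759685319)) (l 265382005799))) (l 3)) (a (c (c (c (l 16778368) (l 16778312))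 (l 16778232)) (l 20031998679)) (a (c (c (l 306184192551) (l 215989881575)) (l 239075331111)) (l 3)))) (a (c (c (l 16777568) (l 16776136)) (l 16777304)) (a (c (c (l 16778264) (l 16778152)) (l 16778680)) (c (c (b (l 195588787031) (l 16777144)) (b (l 323364064183) (l 16777040))) (c (l 112910666327) (l 147807274807)))))))) (b (l 3) (a (b (l 3) (b (l 3) (a (a (b (l 3) (c (a (l 16778592) (l 220821720199)) (l 16778536))) (l 3)) (l 3)))) (l 3))))), by decide +kernel⟩

def k27_pp_022 : ∃ t, chk3 f_pp_022 t 72 137 1 = true :=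
  ⟨(b (a (c (a (l 16764368) (l 16771560)) (l 16767600)) (c (a (c (l 16768344) (l 16768168)) (c (c (l 16774240) (l 16770880)) (l 16774520))) (c (l 16771600) (l 16771456)))) (a (c (l 16768888) (l 16761896)) (c (c (l 16770256) (l 16770056)) (l 16767144)))), by decide +kernel⟩

def k28_pp_022 : ∃ t, chk3 f_pp_022 t 73 137 1 = true :=
  ⟨(b (a (b (a (c (c (l 16775864) (l 16775720)) (l 16775536)) (c (c (a (l 16777288) (b (l 16776144) (l 16775088))) (l 16776320)) (c (l 16776200) (l 16776112)))) (a (c (l 16774960) (l 16773352)) (c (c (l 16775640) (l 16772864)) (l 16775288)))) (b (a (b (b (a (c (c (a (l 16777096) (c (l 187535722135) (l 188609463719))) (c (l 89825216775) (l 88214603783))) (c (l 91972700631) (l 113447536423))) (l 3)) (a (c (c (l 16776816) (l 16776696)) (l 16777872)) (a (c (c (c (l 169282111015) (l 167134627191)) (l 134385502599)) (l 143512308631)) (l 3)))) (a (c (c (l 16776032) (l 16775896)) (l 16778368)) (c (a (c (l 16776728) (l 16776608)) (b (c (l 118279375239) (l 113984407943))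 (l 16778504))) (c (l 23790094775) (l 16777976))))) (b (l 3) (a (b (l 3) (c (c (a (l 100025764007) (l 338933318359)) (a (l 16778552) (l 255718329239))) (c (l 158007823143) (l 163376532375)))) (l 3)))) (a (c (c (a (l 16777064) (l 16778008)) (l 16776080)) (c (l 16775960) (l 16777168))) (b (a (c (c (c (c (l 16778208) (l 16778168)) (l 16778120)) (l 16778352)) (c (l 16777928) (l 16777848))) (c (b (a (c (l 314237256279) (l 357723802727)) (l 3)) (c (a (l 16778560) (l 207936818039)) (a (l 16778448) (l 328195902423)))) (b (a (l 249275878615) (l 3)) (c (l 129553664711) (l 164450273207))))) (a (c (l 16778344) (l 16778112)) (c (c (c (l 16776768) (l 16776696)) (l 16777904)) (l 16778416))))))) (b (a (c (c (l 16773864) (l 16773688)) (l 16772144)) (a (c (c (l 16775408) (l 16772624)) (l 16775040)) (c (c (c (l 16777344) (l 16777264)) (l 16775840)) (l 16776632)))) (c (a (l 16772928) (a (l 16773184) (a (l 16774608) (l 16775560)))) (a (l 16772576) (l 16774152))))), by decide +kernel⟩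

def k29_pp_022 : ∃ t, chk3 f_pp_022 t 37 68 1 = true :=
  ⟨(b (l 3) (a (b (a (b (l 3) (a (a (b (l 3) (c (b (a (c (l 188072594183) (l 185388239543)) (l 3)) (c (a (l 16777144) (l 168208370279)) (c (l 96804538695) (l 95193925863)))) (c (b (l 363092509447) (l 98415151719)) (b (l 382956733223) (l 122037471063))))) (l 3)) (l 3))) (l 3)) (a (b (a (a (c (c (c (b (l 16776648) (l 16775608)) (l 16776128)) (l 16777256)) (c (l 16777136) (l 16777040))) (c (c (b (b (a (l 147270404647) (l 3)) (c (l 97341408503) (l 65666025383))) (l 16776496)) (b (b (a (l 142438566423) (l 3)) (l 57612962343)) (l 16776352))) (b (c (b (l 192904432599) (l 16778336)) (b (l 254644586631) (l 16778264))) (l 16777496)))) (b (l 3) (b (a (a (c (c (l 138680468743) (l 16778576)) (l 109689441207)) (l 3)) (l 3)) (a (c (c (c (l 16778480) (l 16777096)) (l 16778312)) (l 36138126167)) (a (a (c (l 243907170151) (l 231022267351)) (l 3)) (l 3)))))) (c (b (a (c (l 16777592) (l 16774808)) (a (c (l 16776376) (l 16776224)) (a (c (l 17884514711)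 (l 16778224)) (c (b (l 238538459047) (l 16777232)) (b (l 208473688871) (l 16777104)))))) (a (l 16776440) (a (l 16777856) (a (l 16778560) (l 16778368))))) (a (l 16776040) (c (a (l 16778184) (a (l 16777576) (b (l 141364824023) (l 16776208)))) (a (l 16778080) (b (l 104320731351) (l 16775872))))))) (b (l 3) (a (a (a (b (a (c (c (l 303499838727) (l 217600494871)) (l 234243493511)) (l 3)) (c (c (l 16776928) (l 16778096)) (l 16777936))) (b (l 3) (b (c (c (l 196125656807) (l 163913403015)) (l 176261434375)) (c (l 16779016) (l 16776824))))) (a (b (l 3) (b (l 3) (c (c (l 175187691143) (l 141364824647)) (l 154786597783)))) (l 3))) (l 3))))) (l 3))), by decide +kernel⟩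

def k30_pp_022 : ∃ t, chk3 f_pp_022 t 36 69 1 = true :=
  ⟨(b (b (a (a (c (l 16767168) (l 16766672)) (a (l 16767248) (l 16769200))) (a (c (a (l 16768736) (l 16765416)) (l 16766664)) (c (a (l 16772576) (c (l 16774584) (l 16774392))) (l 16771688)))) (a (a (l 16762544) (c (l 16766728) (l 16755728))) (c (a (l 16760128) (l 16770528)) (c (l 16765640) (l 16765424))))) (b (a (c (l 16760416) (l 16749336)) (a (l 16766000) (c (l 16759640) (l 16759144)))) (a (a (l 16753752) (l 16757704)) (c (l 16763840) (l 16763280))))), by decide +kernel⟩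

def k31_pp_022 : ∃ t, chk3 f_pp_022 t 74 138 1 = true :=
  ⟨(b (a (b (a (c (l 16776144) (l 16774520)) (c (c (l 16776816) (l 16776640)) (l 16776432))) (c (a (l 16775312) (l 16775896)) (l 16773296))) (b (a (a (c (c (l 16778216) (l 16777720)) (l 16777200)) (b (c (a (c (l 16776808) (l 16776656)) (c (c (l 92509570359) (l 93583311799)) (l 62444800599))) (c (l 16778080) (l 16777984))) (c (l 16778536) (l 16778264)))) (a (b (a (b (l 3) (c (c (l 131701147079) (l 16778576)) (l 16778456))) (l 3)) (c (c (c (l 16778256) (l 16778176)) (l 16778720)) (c (l 16777944) (l 16777848)))) (b (l 3) (c (c (b (l 342154545399) (a (l 16777288) (l 229948524567))) (b (l 359871284135) (a (l 16777160) (l 202031238023)))) (b (l 393157280775) (c (l 149954758471) (l 155860338743))))))) (a (c (c (l 16776560) (l 16776376)) (l 16776152)) (a (c (c (l 16777960) (l 16775160)) (l 16777576)) (b (c (c (l 16778088) (l 16776624)) (l 16778408)) (c (l 16778272) (l 16777976))))))) (a (c (a (l 16772080) (l 16773976)) (l 16770672))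 (c (a (c (l 16775976) (l 16775768)) (c (c (l 16776600) (l 16776488)) (l 16775032))) (c (l 16774568) (l 16775072))))), by decide +kernel⟩

def k32_pp_022 : ∃ t, chk3 f_pp_022 t 75 138 1 = true :=
  ⟨(b (a (b (l 3) (a (a (c (c (b (b (a (l 207936817079) (l 3)) (c (l 126332438311) (l 130090534231))) (l 16776656)) (b (b (l 321753449095) (l 93583313831)) (l 16776488))) (b (b (l 236927848663) (c (l 16778448) (l 16778368))) (l 16778920))) (b (l 3) (c (c (b (a (l 160692176743) (l 3)) (c (l 16777952) (l 16777216))) (b (a (l 16778632) (l 3)) (l 16778424))) (b (l 199883755415) (l 56002350423))))) (l 3))) (l 3)) (a (b (a (c (c (c (a (l 16775128) (l 16776056)) (l 16775672)) (l 16776664)) (c (l 16777824) (l 16777704))) (a (c (b (a (c (l 38822480439) (l 16778328)) (b (l 244444041751) (a (l 16778480) (l 101636378391)))) (c (l 16776392) (l 16776216))) (b (c (l 117205633239) (l 122574342503)) (l 16778624))) (a (b (c (c (l 334638352583) (l 351818220407)) (l 392620409815)) (c (c (l 16777048) (l 16776888))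 (l 16778016))) (b (l 3) (c (c (c (l 139217340455) (l 142438565463)) (l 108078828551)) (c (l 137606727223) (l 16778424))))))) (b (a (c (l 16776464) (l 16776128)) (c (c (l 16778424) (l 16775608)) (l 16778008))) (c (a (l 16775392) (l 16778568)) (l 16775976)))) (b (a (a (a (b (l 3) (c (b (l 3) (c (l 191830689703) (l 162302790391))) (l 229948526759))) (l 3)) (l 3)) (l 3)) (a (b (a (c (c (c (l 82309022839) (l 43654318471)) (c (l 16778312) (l 16778240))) (c (l 16778144) (l 16778040))) (a (b (l 3) (c (c (l 146196661927) (l 16777312)) (l 16778496))) (l 3))) (c (a (l 16778640) (c (c (l 16778360) (l 16776960)) (l 16778800))) (c (l 16778848) (l 16778736)))) (a (b (l 3) (b (l 3) (c (c (a (l 16777360) (l 247128393767)) (l 134922374423)) (l 145122922375)))) (l 3)))))), by decide +kernel⟩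

def k33_pp_022 : ∃ t, chk3 f_pp_022 t 37 139 1 = true :=
  ⟨(a (a (c (b (l 16771328) (l 16769616)) (c (l 16766168) (l 16765944))) (c (b (c (l 16772624) (l 16772392)) (l 16768176)) (b (l 16770768) (l 16767696)))) (b (a (c (a (c (l 16775448) (l 16775216)) (c (l 16776656) (l 16777088))) (a (l 16774928) (l 16774848))) (c (b (c (a (l 16778272) (b (a (l 16778184) (b (l 301889225399) (l 138143598167))) (c (l 16776352) (l 16776240)))) (a (l 16777408) (b (a (l 16779312) (b (a (l 188072594279) (l 3)) (l 100025764855))) (l 16778720)))) (a (l 16776680) (c (l 16777336) (l 16777112)))) (a (c (l 16776152) (l 16776000)) (a (c (c (l 16777584) (l 16777512)) (l 16777408)) (b (b (b (l 243370299623) (l 110763183927)) (l 16778944)) (l 16777320)))))) (c (a (c (l 16772080) (l 16771832)) (c (a (l 16774888) (l 16776752)) (l 16774264))) (a (l 16771496) (c (l 16775360) (l 16775176)))))), by decide +kernel⟩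

def k34_pp_022 : ∃ t, chk3 f_pp_022 t 18 35 1 = true :=
  ⟨(b (b (a (a (c (l 16754704) (l 16740888)) (c (c (l 16757440) (l 16757136)) (l 16754032))) (a (c (a (l 16763080) (l 16766904)) (a (l 16762488) (l 16766336))) (a (b (c (l 16767624) (l 16761864)) (l 16768232)) (b (c (a (l 16770440) (l 16767072)) (l 16770888)) (a (l 16771064) (l 16770320)))))) (a (a (l 16741608) (a (l 16735736) (l 16750128))) (c (a (l 16749056) (a (l 16751504) (l 16765768))) (a (l 16750344) (l 16758656))))) (b (a (a (l 16720968) (l 16749840)) (a (c (l 16737016) (l 16736256)) (c (l 16755144) (l 16754416)))) (a (a (l 16712120) (l 16720032)) (a (l 16748792) (l 16751224))))), by decide +kernel⟩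

def k35_pp_022 : ∃ t, chk3 f_pp_022 t 19 34 1 = true :=
  ⟨(b (l 3) (a (b (l 3) (a (b (a (b (a (b (l 3) (a (c (c (b (l 218674235591) (l 94120183111)) (b (a (l 16778648) (l 3)) (l 16778464))) (c (l 146196662727) (l 160692177399))) (l 3))) (l 3)) (a (b (a (c (c (l 16776600) (l 16776400)) (l 16778792)) (c (c (b (l 184851367943) (l 16777192)) (c (l 98952023031) (l 96804539255))) (c (l 125795567511) (l 119353117191)))) (c (c (l 16776664) (l 16775800)) (l 16778168))) (a (b (c (b (l 3) (a (l 220284851015) (l 3))) (l 404968441239)) (c (c (c (l 100025763495) (l 114521277607)) (c (l 73719089767) (l 16778384))) (c (l 16778776) (l 16778176)))) (a (b (l 3) (c (c (l 283098743351) (l 325511547927)) (l 219211108743))) (l 3))))) (l 3)) (a (a (c (c (c (l 16777352) (l 16777224)) (l 16775736)) (l 16776424)) (b (a (c (c (l 16775792) (l 16775568)) (l 16777928)) (b (c (c (c (l 74792830407) (l 16778424)) (l 35064384567)) (c (l 16778136) (l 16778016))) (c (l 16778672) (l 16775688)))) (c (l 16777936) (l 16776208))))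 (b (a (c (b (a (b (l 3) (c (l 190756948343) (l 162302791351))) (l 3)) (a (c (l 17884515175) (l 16779456)) (b (l 3) (c (l 156397209719) (l 125258698023))))) (b (a (b (l 3) (l 173577080951)) (l 3)) (a (l 16779224) (b (l 3) (l 136532988055))))) (l 3)) (a (a (c (l 16778648) (l 16777600)) (c (c (c (l 16776448) (l 16776328)) (l 16778784)) (l 16778520))) (a (c (b (b (a (l 175724565239) (l 3)) (c (l 121500600151) (l 16778560))) (c (l 16776752) (l 16776528))) (b (b (l 219747979799) (l 101099507575)) (l 16778896))) (b (l 3) (c (c (b (l 195588786807) (l 16777304)) (c (l 115595021447) (l 112910666759))) (c (l 116131892887) (l 138143599271))))))))) (l 3))) (l 3))), by decide +kernel⟩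

def k36_pp_022 : ∃ t, chk3 f_pp_022 t 76 140 1 = true :=
  ⟨(a (c (b (c (a (l 16774312) (l 16776160)) (l 16774968)) (l 16773400)) (c (l 16772712) (l 16772984))) (b (b (c (a (l 16777624) (a (l 16778992) (c (l 16776088) (l 16775848)))) (c (l 16776896) (l 16776720))) (c (c (l 16777848) (l 16777576)) (l 16774624))) (c (c (l 16774624) (l 16774336)) (l 16773968)))), by decide +kernel⟩

def k37_pp_022 : ∃ t, chk3 f_pp_022 t 77 140 1 = true :=
  ⟨(b (a (b (a (a (a (c (c (l 16778704) (l 16776512)) (l 16778864)) (c (b (c (l 154786597015) (l 123111214551)) (l 16779168)) (c (l 86603990551) (l 16778584)))) (b (c (c (b (l 3) (l 236390976471)) (l 341617673175)) (l 384567346311)) (c (c (c (l 82845894455) (l 16778520)) (l 45801802983)) (l 69960993719)))) (a (a (b (l 3) (c (c (l 206863076151) (l 181630144263)) (l 193441305031))) (l 3)) (l 3))) (c (a (c (l 16777952) (l 16775072)) (b (a (c (l 63518540759) (l 16779536)) (b (l 3) (c (l 164987144535) (l 135996116471)))) (c (c (l 16776640) (l 16776512))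 (l 16776328)))) (a (l 16777384) (b (a (l 16779280) (b (l 3) (l 149954760903))) (l 16778656))))) (b (l 3) (b (l 3) (a (a (c (b (a (l 187535725639) (l 3)) (c (l 126869309543) (l 16778600))) (b (l 227801043671) (l 110763184391))) (l 3)) (l 3))))) (a (c (c (a (l 16777376) (c (l 16777960) (l 16777808))) (a (l 16777088) (l 16776288))) (a (l 16776728) (c (l 16776040) (l 16775848)))) (b (b (a (c (a (c (l 16776848) (l 16776600)) (c (b (l 202568108695) (l 16777368)) (l 120426860631))) (c (c (l 53317995847) (l 71571605543)) (l 65129155687))) (l 3)) (a (c (c (l 16776264) (l 16778624)) (l 16778304)) (a (c (c (c (l 125795567751) (l 119889987655)) (l 90362089351)) (l 107005087495)) (c (b (l 3) (a (l 185388242023) (l 3))) (l 382419862631))))) (a (c (l 16778472) (l 16776672)) (c (a (c (l 16776024) (l 16775744)) (b (c (l 85530248839) (l 16779064)) (l 16778856))) (c (l 30232544311) (l 16778392))))))), by decide +kernel⟩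

def k38_pp_022 : ∃ t, chk3 f_pp_022 t 38 141 1 = true :=
  ⟨(a (a (c (l 16769512) (l 16768904)) (c (c (l 16770776) (l 16773064)) (l 16767384))) (b (c (a (c (l 16773992) (l 16773672)) (a (l 16776568) (b (l 16779448) (l 16777304)))) (a (l 16773272) (c (l 16777048) (l 16776824)))) (a (c (l 16774744) (l 16774136)) (c (l 16775784) (l 16772560))))), by decide +kernel⟩

def k39_pp_022 : ∃ t, chk3 f_pp_022 t 39 70 1 = true :=
  ⟨(b (a (b (l 3) (a (b (l 3) (a (b (a (c (c (l 281488130711) (l 319069099687)) (l 226190431575)) (l 3)) (c (a (c (l 16777184) (l 16776944)) (c (l 249275875767) (b (l 3) (l 133311761783)))) (a (l 16779280) (l 186998854903)))) (l 3))) (l 3))) (l 3)) (a (b (a (a (c (b (a (l 16779472) (c (l 16777864) (l 16778896))) (l 16779104)) (c (l 16777136) (l 16776928))) (b (b (a (c (c (l 175187692247) (l 145659793895)) (l 159081566903)) (l 3)) (a (c (c (l 16776888) (l 16776616)) (l 16778920)) (c (c (l 146733533575) (l 115058151591)) (l 131164278951)))) (c (c (c (l 16775872) (l 16775712))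 (l 16775488)) (l 16777736)))) (b (l 3) (b (a (c (a (c (l 118279374887) (l 83382767479)) (c (l 302962967351) (l 342691419991))) (a (l 103246990871) (l 368998089639))) (l 3)) (a (c (c (c (l 16777688) (l 16776880)) (l 16779304)) (c (l 16779072) (l 16778880))) (a (c (c (l 264308261399) (l 294909908471)) (l 208473691671)) (l 3)))))) (c (a (c (l 16777616) (l 16776608)) (c (b (a (l 16775448) (b (a (l 16777184) (l 188072594695)) (l 16776632))) (l 16778152)) (b (a (l 16780368) (a (l 16779040) (b (l 163913405095) (l 16776752)))) (l 16779112)))) (a (l 16775528) (a (c (l 16776392) (l 16776152)) (b (a (l 16778688) (b (l 177335178295) (l 16779032))) (l 16779584)))))) (b (l 3) (a (b (b (l 3) (a (a (c (c (l 158007823319) (l 131701150055)) (l 148344148375)) (l 3)) (l 3))) (b (a (c (c (a (l 16776872) (l 128479922711)) (c (l 46338674151) (l 16778864))) (c (l 16779352) (l 16779160))) (l 3)) (c (a (c (l 16776296) (l 16775968)) (a (c (l 100025763847) (l 16779792)) (c (l 276656292439) (l 308868546999))))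 (a (l 16778200) (a (l 88751475879) (l 229948528439)))))) (l 3))))), by decide +kernel⟩

def k40_pp_022 : ∃ t, chk3 f_pp_022 t 19 71 1 = true :=
  ⟨(a (b (a (c (c (l 16762848) (l 16762480)) (l 16761968)) (a (c (l 16768232) (l 16767544)) (c (l 16771904) (l 16771216)))) (a (c (l 16753928) (l 16742656)) (c (l 16766600) (l 16760584)))) (b (a (b (a (c (l 16775088) (l 16771816)) (c (c (l 16776256) (l 16775880)) (l 16775416))) (c (c (l 16772768) (l 16772368)) (l 16769232))) (b (a (c (b (a (l 16779792) (c (c (l 16779152) (l 16776352)) (l 16779384))) (c (l 16778736) (l 16773112))) (a (l 16778096) (c (l 16777376) (l 16777128)))) (b (a (b (a (c (c (l 198273142135) (l 175187694423)) (l 189146338519)) (l 3)) (c (c (a (l 16777144) (l 167671499783)) (a (l 16776840) (l 141364826679))) (c (l 89825218999) (l 16778920)))) (l 3)) (c (a (c (l 16777400) (l 16778360)) (a (b (c (l 135996115591) (l 108078829671)) (l 16779264)) (b (l 3) (c (l 104857602183) (l 16777224))))) (a (l 16777928) (b (a (l 127406182327)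 (l 3)) (c (l 16779224) (l 16779008))))))) (a (c (l 16777288) (l 16774616)) (a (c (l 16777968) (l 16777280)) (a (c (l 16779280) (l 16778600)) (c (b (l 16779880) (l 16773848)) (l 16776856))))))) (a (c (a (l 16766856) (l 16770480)) (a (l 16766080) (l 16769704))) (c (a (l 16774072) (c (l 16775240) (l 16774792))) (a (l 16773288) (c (l 16771776) (l 16771440))))))), by decide +kernel⟩

def k41_pp_022 : ∃ t, chk3 f_pp_022 t 4 9 1 = true :=
  ⟨(a (b (a (a (b (a (l 16642456) (l 16651352)) (a (l 16606368) (l 16615232))) (b (a (l 16660184) (l 16663704)) (a (l 16624048) (l 16632808)))) (b (b (a (a (l 16665696) (l 16674320)) (a (l 16682600) (l 16711776))) (a (l 16662504) (l 16685312))) (a (b (l 16654952) (l 16615824)) (b (l 16672176) (l 16633064))))) (b (a (a (l 16574240) (l 16591816)) (a (l 16609248) (l 16626544))) (a (a (l 16537136) (l 16533608)) (a (l 16550984) (l 16589248))))) (b (b (a (a (b (a (l 16709328) (l 16722496)) (a (l 16681168) (l 16689104))) (b (a (a (l 16733608) (l 16737488)) (c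 (l 16743680) (l 16742768))) (a (l 16717896) (l 16725608)))) (b (a (a (c (l 16751248) (l 16750360)) (b (l 16757424) (l 16753888))) (a (b (c (l 16759952) (l 16759096)) (l 16755984)) (b (c (c (l 16767416) (l 16766936)) (l 16766296)) (c (l 16758464) (l 16767984))))) (a (a (l 16733200) (l 16740680)) (a (c (l 16748560) (l 16747520)) (c (l 16755824) (l 16754760)))))) (b (a (a (l 16704128) (l 16694640)) (a (c (l 16719872) (l 16718784)) (a (l 16730480) (l 16737744)))) (a (a (l 16670768) (l 16686608)) (a (l 16701824) (l 16727080))))) (a (a (b (b (l 16632024) (l 16613608)) (l 16606464)) (b (c (l 16681440) (l 16654304)) (l 16644616))) (b (a (c (l 16697000) (l 16696136)) (c (l 16711784) (l 16710880))) (a (l 16682344) (b (l 16664760) (l 16647416))))))), by decide +kernel⟩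

def k42_pp_022 : ∃ t, chk3 f_pp_022 t 10 16 1 = true :=
  ⟨(l 3), by decide +kernel⟩

def k43_pp_022 : ∃ t, chk3 f_pp_022 t 10 34 1 = true :=
  ⟨(l 3), by decide +kernel⟩

def k44_pp_022 : ∃ t, chk3 f_pp_022 t 20 70 1 = true :=
  ⟨(l 3), by decide +kernel⟩

def k45_pp_022 : ∃ t, chk3 f_pp_022 t 40 142 1 = true :=
  ⟨(a (b (a (b (l 3) (b (l 3) (a (c (a (c (l 276119421527) (l 305110450615)) (l 3)) (l 382956733991)) (l 3)))) (l 3)) (a (b (b (a (c (c (a (l 16777360) (l 202568109303)) (a (l 16777064) (l 186998854487))) (c (l 118279377879) (l 137606729479))) (l 3)) (a (c (c (l 16776848) (l 16776504)) (l 16778704)) (a (c (c (l 169818983335) (l 174650820471)) (l 161765921479)) (l 3)))) (c (a (l 16780384) (a (c (l 16776576) (l 16776216)) (b (c (l 138143598983) (l 139217339991)) (l 16779320)))) (a (l 16779704) (c (l 58149832119) (l 16778680))))) (b (l 3) (a (a (b (l 3) (c (c (l 104320731175) (l 16777240)) (l 16779528))) (l 3)) (l 3))))) (l 3)), by decide +kernel⟩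

def k46_pp_022 : ∃ t, chk3 f_pp_022 t 40 143 1 = true :=
  ⟨(a (b (a (c (c (a (l 16777416) (l 16779152)) (l 16777848)) (c (l 16774848) (l 16777160))) (a (c (b (c (c (l 16776696) (l 16776496)) (l 16778840)) (l 16779584)) (c (l 16777448) (l 16777152))) (b (c (b (a (c (l 198810012759) (l 199883753927)) (l 3)) (a (c (l 16777248) (l 16776912)) (c (l 165524015783) (l 166060886071)))) (b (l 339470194759) (c (l 89825219175) (l 16779392)))) (c (c (l 16778848) (l 16778440)) (l 16777936))))) (a (c (l 16773760) (l 16778184)) (c (c (l 16777488) (l 16777016)) (l 16776432)))) (b (a (b (l 3) (a (c (b (a (c (l 131164276999) (l 16778024)) (l 3)) (c (l 58149832679) (l 16779520))) (b (a (l 125258698615) (l 3)) (l 46338674167))) (l 3))) (l 3)) (a (b (a (c (c (l 16775840) (l 16775408)) (l 16780112)) (c (c (b (a (l 16777408) (l 188072594215)) (l 16776904)) (b (a (l 16777072) (l 189146335575)) (l 16776512))) (c (b (l 109152572279) (l 16776176)) (l 79624671239)))) (c (c (l 16779848) (l 16779376)) (l 16776176)))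 (b (b (l 3) (a (c (c (l 235317232199) (a (l 149954758871) (l 3))) (l 190756953367)) (l 3))) (b (a (c (c (l 86067120567) (l 56002351751)) (l 78550929271)) (l 3)) (c (a (l 16780248) (c (a (l 16777528) (l 211694914375)) (l 124721829591))) (a (l 16775568) (l 141901698999)))))))), by decide +kernel⟩

def k47_pp_022 : ∃ t, chk3 f_pp_022 t 41 71 1 = true :=
  ⟨(l 3), by decide +kernel⟩

def k48_pp_022 : ∃ t, chk3 f_pp_022 t 21 35 1 = true :=
  ⟨(l 3), by decide +kernel⟩

def k49_pp_022 : ∃ t, chk3 f_pp_022 t 11 8 1 = true :=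
  ⟨(l 3), by decide +kernel⟩

def k50_pp_022 : ∃ t, chk3 f_pp_022 t 40 72 1 = true :=
  ⟨(b (b (a (c (c (l 16776688) (l 16776192)) (l 16775552)) (a (c (l 16779024) (l 16775520)) (c (b (a (l 16780016) (c (l 16779232) (l 16778800))) (l 16778744)) (c (l 16777824) (l 16778776))))) (a (c (l 16772104) (l 16771176)) (c (a (l 16777344) (l 16778160)) (c (l 16773080) (l 16777920))))) (a (a (l 16768544) (l 16769440)) (c (a (l 16770848) (l 16774312)) (a (l 16769824) (l 16773272))))), by decide +kernel⟩

def k51_pp_022 : ∃ t, chk3 f_pp_022 t 41 72 1 = true :=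
  ⟨(b (a (b (a (b (a (c (b (c (l 246591521335) (l 277193168263)) (c (l 97878281031) (l 70497866599))) (b (l 204715597287) (l 92509573447))) (l 3)) (c (a (c (l 16776216) (l 16775752)) (c (b (l 160155306471) (l 16777200)) (b (l 137069860807) (l 16776792)))) (a (l 16780400) (c (l 120963729991) (l 104320733799))))) (b (l 3) (a (c (b (l 3) (c (l 253570843223) (l 293299295687))) (l 370071837559)) (l 3)))) (b (a (c (c (l 16780240) (l 16779728)) (l 16779080)) (a (c (c (b (l 108078828359) (l 16776832)) (b (l 81235285015) (l 16776376))) (c (l 86603990039) (l 16778760))) (a (c (c (l 204178719767) (l 158544697943)) (l 173577083959)) (l 3)))) (a (c (l 16777864) (l 16776904)) (a (c (l 16780344) (l 16774184)) (c (c (l 34527511495) (l 16779040)) (l 16779760)))))) (b (l 3) (a (b (l 3) (a (b (l 3) (c (c (l 115058150183) (l 88751477815)) (l 110226314327))) (l 3))) (l 3)))) (a (b (a (c (l 16779896) (l 16778872)) (c (c (l 16778320) (l 16777736)) (l 16777000))) (c (l 16777288) (l 16776192))) (b (a (c (b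 (a (c (l 16776488) (l 16775976)) (b (c (l 173577080519) (l 151565375511)) (c (l 16777384) (l 16776952)))) (c (l 16780528) (l 16779960))) (b (a (l 16780584) (c (l 132774890135) (l 122037473783))) (l 16779248))) (b (l 3) (a (c (c (b (l 118816246343) (l 16777032)) (b (l 93583315863) (l 16776544))) (c (l 95730795527) (l 16778848))) (a (c (c (l 205789332567) (l 175724567127)) (l 193978178887)) (l 3))))) (a (c (c (l 16782656) (l 16782024)) (l 16775984)) (b (a (c (l 16780568) (l 16774312)) (c (c (l 34527512327) (l 16776552)) (l 16779848))) (c (l 16779296) (l 16778208))))))), by decide +kernel⟩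

def k52_pp_022 : ∃ t, chk3 f_pp_022 t 20 73 1 = true :=
  ⟨(a (a (c (l 16762976) (l 16761872)) (b (c (l 16763896) (l 16762776)) (l 16765056))) (b (a (c (l 16773416) (l 16769624)) (a (c (l 16775888) (l 16774680)) (b (c (l 16781368) (l 16780184)) (l 16776408)))) (a (c (l 16772600) (l 16771352)) (c (l 16768920) (l 16767600))))), by decide +kernel⟩

def k53_pp_022 : ∃ t, chk3 f_pp_022 t 21 72 1 = true :=
  ⟨(a (b (l 3) (a (b (l 3) (a (a (c (b (b (l 3) (a (l 51707381079) (l 153175984487))) (c (l 16776648) (l 16776104))) (b (b (l 3) (l 116668765351)) (l 16780648))) (b (l 3) (c (c (b (l 173040209239) (l 16777480)) (b (l 173577079687) (l 16777024))) (c (l 134922373671) (l 122037473943))))) (l 3))) (l 3))) (l 3)), by decide +kernel⟩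

def k54_pp_022 : ∃ t, chk3 f_pp_022 t 21 73 1 = true :=
  ⟨(a (b (a (b (a (c (c (l 16779704) (b (l 16780096) (l 16772752))) (l 16777400)) (b (a (c (c (b (l 113984407943) (l 16777128)) (b (l 112373794887) (l 16776600))) (c (l 16777912) (l 16778832))) (c (c (l 246054650519) (b (l 3) (l 166597758023))) (l 320679712327))) (c (c (a (l 16775760) (l 16778440)) (l 16780456)) (c (l 16780592) (l 16780120))))) (c (c (b (l 16780808) (l 16781328)) (l 16779032)) (a (l 16779112) (l 16777128)))) (b (a (a (b (l 3) (b (l 3) (c (a (l 96267667159) (l 137606727607)) (l 110763184711)))) (l 3)) (l 3)) (a (a (c (c (l 16779720) (l 16780376)) (l 16779528)) (b (b (a (c (l 98415150711) (l 16779568)) (l 3)) (c (c (l 16777512) (l 16777008)) (l 16781592))) (c (l 16781192) (l 16774800)))) (b (l 3) (c (c (a (l 77477184711) (l 220821718167)) (a (l 51170514551) (l 243370306215))) (a (l 75866575319) (l 206863082823))))))) (a (c (c (l 16775984) (l 16775200)) (b (l 16776384) (l 16772024))) (b (a (c (l 16779968) (l 16781248))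 (a (c (l 16782312) (l 16778392)) (c (c (b (l 16777128) (l 16775320)) (l 16780824)) (l 16778968)))) (c (c (l 16780368) (l 16779544)) (l 16778496))))) (b (l 3) (a (a (b (b (a (b (l 3) (c (c (l 79624668119) (l 16777304)) (l 16779320))) (l 3)) (a (c (c (l 16776712) (l 16776056)) (l 16780448)) (c (c (b (l 129553664103) (l 16777480)) (l 81772157111)) (l 104857605703)))) (c (c (l 16779800) (l 16779016)) (l 16778008))) (b (l 3) (c (c (b (a (l 56539219783) (l 183240754727)) (a (l 16775760) (l 16777056))) (b (a (l 16776864) (l 185388240055)) (l 16780952))) (b (a (l 16781336) (l 187535729079)) (l 16780016))))) (b (l 3) (a (a (b (l 3) (c (c (l 125795567511) (l 127943051351)) (l 127943055751))) (l 3)) (l 3)))))), by decide +kernel⟩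

def k55_pp_022 : ∃ t, chk3 f_pp_022 t 10 37 1 = true :=
  ⟨(a (a (b (a (l 16744888) (c (l 16752560) (l 16751312))) (c (l 16731496) (l 16730320))) (b (a (c (l 16759512) (l 16758192)) (b (l 16767368) (l 16761272))) (c (l 16750696) (l 16749352)))) (b (a (b (a (c (l 16766944) (l 16775952)) (c (c (l 16773960) (l 16773080)) (l 16774576))) (a (l 16767944) (a (l 16772872) (l 16770864)))) (b (a (a (c (l 16778328) (l 16776736)) (c (c (l 16780616) (l 16781024)) (c (l 16780232) (l 16774296)))) (b (a (b (a (c (l 16781488) (l 16774944)) (c (c (l 76403443591) (l 16777104)) (l 80161542551))) (c (l 16782888) (l 16778808))) (c (b (a (c (l 205252462055) (l 222969201351)) (l 3)) (c (a (l 16777328) (l 139754212599)) (a (l 16776664) (l 140827954135)))) (b (l 342154554871) (c (l 88214609655) (l 96267671495))))) (c (a (l 16782440) (c (c (l 16780808) (l 16775120)) (l 16780392))) (a (l 16780816) (l 16778624))))) (a (c (l 16771328) (l 16769616)) (c (c (l 16778152) (l 16777136)) (c (l 16776248) (l 16775472))))))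 (b (a (c (l 16763344) (l 16761776)) (a (l 16772240) (a (l 16776984) (l 16774856)))) (a (l 16759072) (c (l 16767704) (l 16765856)))))), by decide +kernel⟩

def k56_pp_022 : ∃ t, chk3 f_pp_022 t 11 36 1 = true :=
  ⟨(l 3), by decide +kernel⟩

def k57_pp_022 : ∃ t, chk3 f_pp_022 t 22 74 1 = true :=
  ⟨(a (b (a (b (l 3) (a (c (c (b (a (l 88751474743) (l 3)) (a (l 16776432) (l 16777536))) (b (a (l 87677732919) (l 3)) (l 16781496))) (b (a (l 96267670615) (l 3)) (l 25400708823))) (a (b (l 3) (c (c (l 154249727111) (l 159618436359)) (l 171429600839))) (l 3)))) (l 3)) (a (c (a (c (c (l 16782984) (l 16782456)) (l 16781720)) (b (a (c (l 16781528) (l 16775440)) (b (c (l 95193925607) (l 97341409239)) (l 16781488))) (l 16783096))) (b (a (l 16782592) (c (b (l 57076096023) (l 16784864)) (l 16779896))) (l 16779776))) (b (a (b (l 3) (a (c (c (l 16779000) (l 16777000)) (l 16781336)) (b (l 3) (c (l 91435828311) (l 16782096))))) (l 3)) (c (a (c (b (l 16781984) (l 16774944)) (l 16780192)) (b (a (b (l 3)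 (l 103246989991)) (l 3)) (c (l 89288347079) (l 16781792)))) (a (l 16778968) (b (l 163913411447) (l 46338674839))))))) (a (l 3) (l 3))), by decide +kernel⟩

def k58_pp_022 : ∃ t, chk3 f_pp_022 t 22 75 1 = true :=
  ⟨(a (b (a (c (l 16777888) (l 16773280)) (b (a (c (l 16781888) (l 16769456)) (c (c (l 16774760) (l 16773744)) (l 16777632))) (c (l 16779176) (l 16777104)))) (a (l 16773456) (c (l 16772808) (l 16781104)))) (b (a (b (a (a (c (c (l 16779256) (l 16775736)) (l 16779752)) (b (c (c (l 87677731511) (l 16777512)) (l 126332442407)) (c (l 16781760) (l 16774888)))) (b (l 3) (a (c (c (l 16777864) (l 16777128)) (l 16781392)) (l 3)))) (c (a (l 16783504) (c (b (l 16776992) (l 16775280)) (l 16780408))) (a (l 16781488) (l 16779056)))) (b (l 3) (a (c (c (b (a (l 141364822151) (l 3)) (l 90898960791)) (b (l 152102250167) (l 16776640))) (b (l 176798312903) (l 16780712))) (l 3)))) (a (c (c (l 16779368) (l 16778112)) (l 16780400)) (b (a (c (l 16782984) (l 16782896)) (b (c (c (l 61907929399) (l 65129153767))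 (l 76403447479)) (c (l 16783880) (l 16774112)))) (c (c (l 16782952) (l 16781704)) (l 16780032)))))), by decide +kernel⟩

def k59_pp_022 : ∃ t, chk3 f_pp_022 t 23 37 1 = true :=
  ⟨(b (l 3) (a (b (l 3) (a (b (a (b (l 3) (a (c (l 103246989463) (l 16775992)) (l 3))) (l 3)) (a (c (c (l 16781488) (l 16780400)) (l 16784144)) (c (c (b (l 131701148759) (l 16777496)) (b (l 138680471159) (l 16776536))) (b (l 158007829719) (l 16780464))))) (l 3))) (l 3))), by decide +kernel⟩

def k60_pp_022 : ∃ t, chk3 f_pp_022 t 10 19 1 = true :=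
  ⟨(b (a (a (c (l 16727496) (l 16725160)) (b (l 16737856) (l 16710080))) (a (b (a (l 16737504) (l 16744088)) (l 16744472)) (b (a (l 16750552) (l 16762136)) (l 16746936)))) (a (a (b (l 16679080) (l 16662168)) (c (l 16705808) (l 16704704))) (a (b (l 16706368) (l 16689416)) (b (l 16719320) (l 16702352))))), by decide +kernel⟩

def k61_pp_022 : ∃ t, chk3 f_pp_022 t 11 19 1 = true :=
  ⟨(b (a (c (a (b (b (l 16771640) (l 16763024)) (l 16750056)) (b (b (b (a (l 16782880) (l 16778192)) (l 16776304)) (l 16775128)) (b (l 16766568) (l 16758008)))) (a (b (b (l 16769464) (l 16760832)) (l 16747888)) (b (a (l 16774000) (c (l 16775080) (l 16779192))) (l 16764912)))) (b (a (b (c (b (a (c (l 16784320) (l 16783040)) (a (c (l 90898958727) (l 16781408)) (b (l 3) (c (l 113447538263) (l 16777288))))) (a (l 16779616) (c (a (l 16773808) (l 16776152)) (l 16784200)))) (a (b (l 16781304) (l 16787520)) (b (a (l 38285611767) (b (l 3) (l 79087802247))) (l 16782432)))) (a (c (l 16783832) (l 16781088)) (b (c (l 16780912)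 (l 16788696)) (l 16780544)))) (b (a (b (l 3) (c (a (b (c (l 84993377991) (l 98415150551)) (l 60297327223)) (c (l 186998852087) (l 201494365447))) (a (c (l 54928614343) (l 16780360)) (l 273435066551)))) (l 3)) (a (c (b (a (l 16784720) (c (l 77477188967) (l 16775816))) (l 16782072)) (c (l 16781944) (l 16780680))) (b (a (b (l 3) (c (c (l 16777976) (l 16776944)) (l 16780760))) (l 3)) (a (c (l 16785664) (l 16772616)) (c (c (l 94120186583) (l 16776512)) (l 16780160))))))) (a (c (b (l 16778168) (l 16769672)) (b (l 16775256) (l 16766712))) (b (a (c (l 16786440) (l 16783352)) (c (a (l 16779872) (l 16782360)) (l 16780680))) (c (a (l 16778072) (l 16783432)) (l 16777432)))))) (b (a (a (l 16742288) (c (l 16745120) (l 16742592))) (a (c (l 16756848) (l 16753880)) (c (b (l 16772328) (l 16763888)) (l 16769872)))) (a (a (l 16714816) (l 16726800)) (a (l 16748776) (c (l 16751096) (l 16747664)))))), by decide +kernel⟩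

def k62_pp_022 : ∃ t, chk3 f_pp_022 t 2 5 1 = true :=
  ⟨(b (a (b (b (a (a (l 16550144) (l 16573240)) (a (c (l 16576320) (l 16575472)) (a (l 16580712) (b (l 16629128) (l 16608872))))) (b (a (a (l 16483248) (l 16490184)) (a (l 16523856) (l 16557576))) (a (a (b (l 16450816) (l 16444464)) (l 16527336)) (a (l 16562912) (l 16583168))))) (a (a (b (l 16443504) (l 16383816)) (l 16496392)) (a (l 16537184) (l 16560408)))) (b (b (a (a (a (b (l 16644952) (l 16625952)) (b (l 16659352) (l 16641968))) (b (a (l 16672672) (l 16685520)) (a (l 16656216) (l 16648056)))) (a (b (a (l 16697904) (l 16709800)) (a (l 16681192) (l 16692872))) (b (a (l 16721208) (l 16732128)) (a (l 16704056) (l 16714736))))) (a (b (a (l 16589936) (a (l 16637400) (l 16652128))) (b (a (l 16572576) (l 16584688)) (a (l 16577360) (l 16630544)))) (b (a (a (l 16665344) (l 16676928)) (a (l 16687808) (l 16698176))) (b (a (a (l 16630248) (l 16644232)) (l 16703200)) (b (a (l 16598880) (l 16696160)) (a (l 16615112) (a (l 16638840) (l 16675384))))))))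 (a (a (l 16584104) (a (l 16568336) (l 16585680))) (a (b (l 16642408) (l 16579112)) (a (l 16679944) (l 16694992)))))) (b (a (a (a (l 16386840) (l 16400512)) (a (l 16438168) (l 16456152))) (a (a (l 16538200) (b (l 16546600) (l 16508312))) (a (l 16639512) (b (l 16597848) (l 16579688))))) (a (a (a (l 16283176) (l 16303224)) (a (l 16367392) (l 16402112))) (a (a (l 16480528) (l 16525736)) (a (l 16521008) (l 16554488)))))), by decide +kernel⟩

def k63_pp_022 : ∃ t, chk3 f_pp_022 t 2 3 1 = true :=
  ⟨(b (a (a (b (a (b (l 16208432) (l 16162192)) (b (l 16255312) (l 16216112))) (a (l 16234800) (b (l 16187056) (l 16167040)))) (b (a (b (l 16326112) (l 16273728)) (b (l 16357648) (l 16330752))) (a (b (l 16250160) (l 16227632)) (l 16394312)))) (b (a (b (a (l 16408752) (l 16451392)) (a (l 16379536) (l 16423464))) (b (a (l 16490408) (l 16529424)) (l 16540160))) (a (b (l 16419752) (l 16432536)) (a (l 16551072) (l 2))))) (a (a (b (a (l 16217384) (l 16284544)) (a (l 16140944) (l 16341008))) (b (a (l 16219360)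 (l 16390240)) (a (l 16487856) (l 2)))) (a (b (a (l 16516080) (l 2)) (l 2)) (l 2)))), by decide +kernel⟩

def k64_pp_022 : ∃ t, chk3 f_pp_022 t 6 8 1 = true :=
  ⟨(l 3), by decide +kernel⟩

def k65_pp_022 : ∃ t, chk3 f_pp_022 t 6 18 1 = true :=
  ⟨(l 3), by decide +kernel⟩

def k66_pp_022 : ∃ t, chk3 f_pp_022 t 12 19 1 = true :=
  ⟨(b (a (b (a (b (l 3) (a (a (b (l 3) (c (c (l 136532988295) (l 134922382631)) (l 161229058823))) (l 3)) (l 3))) (l 3)) (a (b (a (c (b (a (l 49023039639) (c (l 120963731735) (l 16777368))) (l 16783976)) (b (a (l 16783864) (l 87677737815)) (l 16780976))) (b (l 3) (a (c (l 69424134855) (l 16784472)) (b (l 3) (c (l 16782696) (l 16775176)))))) (c (a (l 16778064) (b (l 36138139255) (l 16791424))) (a (l 16785136) (l 16779544)))) (b (l 3) (a (b (a (c (c (l 16777688) (l 16776360)) (l 16784952)) (b (l 3) (c (l 113447547991) (l 16775536)))) (c (a (l 16773832) (l 16786288)) (l 16782168))) (b (l 3) (a (c (c (l 16778032) (l 16776704)) (l 16785304)) (l 3))))))) (l 3)) (a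 (b (b (a (c (c (l 16783880) (l 16781856)) (l 16779136)) (a (c (l 16779688) (l 16786424)) (c (c (l 43117459831) (l 16783136)) (l 16780512)))) (a (c (l 16774528) (l 16770688)) (a (l 16779976) (c (l 16786856) (l 16761744))))) (a (b (l 16764096) (l 16755592)) (c (b (l 16776264) (l 16767856)) (l 16772848)))) (b (a (b (a (b (a (c (l 107541964839) (l 16785528)) (l 3)) (c (l 54928623639) (l 16782848))) (a (b (l 3) (c (l 129553662871) (l 16775168))) (l 3))) (a (c (l 16780832) (l 16787240)) (c (c (l 50096782775) (l 16783816)) (l 16781000)))) (b (l 3) (a (b (b (l 3) (c (l 117742513079) (l 16785664))) (c (l 61371075543) (l 16783056))) (b (l 3) (b (l 3) (c (l 119889999431) (l 16775080))))))) (a (c (b (l 16785624) (l 16777416)) (a (l 16774568) (l 16779000))) (b (a (c (l 16792000) (l 16787568)) (c (c (l 16786168) (l 16784080)) (l 16781024))) (c (l 16786208) (l 16781200))))))), by decide +kernel⟩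

def k67_pp_022 : ∃ t, chk3 f_pp_022 t 13 19 1 = true :=
  ⟨(b (l 3) (a (b (l 3) (a (a (b (b (b (l 3) (c (l 120426872791) (l 16774912))) (c (l 16786688) (l 16772360))) (b (l 16786480) (l 16787736))) (b (c (b (l 3) (c (l 137606733559) (l 16777552))) (l 178408940567)) (c (l 47949305591) (l 16791072)))) (b (l 3) (c (a (c (l 105931354487) (l 45264943511)) (b (l 3) (l 117205644823))) (a (l 73182226183) (l 152639133495)))))) (l 3))), by decide +kernel⟩

def k68_pp_022 : ∃ t, chk3 f_pp_022 t 7 4 1 = true :=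
  ⟨(b (l 3) (l 3)), by decide +kernel⟩

def k69_pp_022 : ∃ t, chk3 f_pp_022 t 6 5 1 = true :=
  ⟨(b (b (b (a (b (a (a (l 16753032) (b (l 16756912) (l 16748160))) (a (b (l 16766304) (l 16757488)) (b (a (l 16773008) (l 16777296)) (l 16766376)))) (a (a (l 16724920) (l 16745080)) (a (b (l 16748528) (l 16718448)) (b (l 16757360) (l 16748160))))) (a (b (b (a (c (l 16786272) (l 16780744)) (c (a (l 16770960) (l 16795160)) (l 16787040))) (a (l 16780072) (c (l 16785856) (l 16779752)))) (a (b (l 16765880) (l 16756648)) (b (l 16773944) (l 16764736)))) (b (a (b (b (a (c (l 16788376) (l 16774152)) (l 3)) (a (l 59760479767) (c (l 16777640) (l 16773560)))) (c (a (l 16770272) (l 16794384)) (l 16787040))) (b (l 3) (b (a (c (l 16777304) (l 16772856)) (l 3)) (c (l 55465504775) (l 16791496))))) (b (a (a (l 16779704) (l 16783328)) (c (l 11911848215) (l 16785160))) (a (l 16772392) (a (l 16777864) (l 2))))))) (b (a (a (b (l 16737800) (l 16729856)) (a (b (l 16709592) (l 16701568)) (b (l 16718232) (l 16710152))))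 (a (b (a (l 16747616) (l 16755672)) (a (l 16739512) (l 16747568))) (b (a (l 16763344) (l 16770608)) (a (l 16755264) (l 2))))) (b (a (a (l 16722888) (a (l 16694536) (l 16724152))) (a (a (l 16732600) (l 16740720)) (a (l 16748512) (l 2)))) (b (a (a (a (l 16671944) (l 16681280)) (b (l 16716192) (l 16714944))) (a (a (l 16728640) (l 16736936)) (b (l 16749136) (l 16790168)))) (a (a (a (l 16688736) (l 16678576)) (l 16713168)) (a (l 16730680) (l 4932470583))))))) (a (a (b (l 16723720) (l 16663128)) (b (l 16723536) (l 16685576))) (a (b (l 16755784) (l 16707624)) (b (a (l 16714608) (l 2)) (l 2))))) (a (b (a (l 16657256) (l 16684184)) (a (l 16587496) (l 16621176))) (b (a (l 16711168) (l 2)) (l 2)))), by decide +kernel⟩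

def k70_pp_022 : ∃ t, chk3 f_pp_022 t 7 5 1 = true :=
  ⟨(b (b (b (b (b (l 3) (l 2)) (l 2)) (l 2)) (l 2)) (l 2)), by decide +kernel⟩

def k71_pp_022 : ∃ t, chk3 f_pp_022 t 3 3 1 = true :=
  ⟨(a (b (b (a (b (l 16671608) (l 2)) (l 2)) (l 2)) (l 2)) (l 2)), by decide +kernel⟩

theorem s72_pp_022 : ∃ t, chk3 f_pp_022 t 3 5 1 = true := ex3_a k69_pp_022 k70_pp_022

theorem s73_pp_022 : ∃ t, chk3 f_pp_022 t 6 19 1 = true := ex3_a k66_pp_022 k67_pp_022

theorem s74_pp_022 : ∃ t, chk3 f_pp_022 t 6 9 1 = true := ex3_b k65_pp_022 s73_pp_022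

theorem s75_pp_022 : ∃ t, chk3 f_pp_022 t 6 4 1 = true := ex3_b k64_pp_022 s74_pp_022

theorem s76_pp_022 : ∃ t, chk3 f_pp_022 t 3 4 1 = true := ex3_a s75_pp_022 k68_pp_022

theorem s77_pp_022 : ∃ t, chk3 f_pp_022 t 3 2 1 = true := ex3_b s76_pp_022 s72_pp_022

theorem s78_pp_022 : ∃ t, chk3 f_pp_022 t 3 1 1 = true := ex3_b s77_pp_022 k71_pp_022

theorem s79_pp_022 : ∃ t, chk3 f_pp_022 t 5 19 1 = true := ex3_a k60_pp_022 k61_pp_022

theorem s80_pp_022 : ∃ t, chk3 f_pp_022 t 22 37 1 = true := ex3_b k57_pp_022 k58_pp_022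

theorem s81_pp_022 : ∃ t, chk3 f_pp_022 t 11 37 1 = true := ex3_a s80_pp_022 k59_pp_022

theorem s82_pp_022 : ∃ t, chk3 f_pp_022 t 11 18 1 = true := ex3_b k56_pp_022 s81_pp_022

theorem s83_pp_022 : ∃ t, chk3 f_pp_022 t 21 36 1 = true := ex3_b k53_pp_022 k54_pp_022

theorem s84_pp_022 : ∃ t, chk3 f_pp_022 t 20 72 1 = true := ex3_a k50_pp_022 k51_pp_022

theorem s85_pp_022 : ∃ t, chk3 f_pp_022 t 20 36 1 = true := ex3_b s84_pp_022 k52_pp_022

theorem s86_pp_022 : ∃ t, chk3 f_pp_022 t 10 36 1 = true := ex3_a s85_pp_022 s83_pp_022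

theorem s87_pp_022 : ∃ t, chk3 f_pp_022 t 10 18 1 = true := ex3_b s86_pp_022 k55_pp_022

theorem s88_pp_022 : ∃ t, chk3 f_pp_022 t 5 18 1 = true := ex3_a s87_pp_022 s82_pp_022

theorem s89_pp_022 : ∃ t, chk3 f_pp_022 t 5 9 1 = true := ex3_b s88_pp_022 s79_pp_022

theorem s90_pp_022 : ∃ t, chk3 f_pp_022 t 40 71 1 = true := ex3_b k45_pp_022 k46_pp_022

theorem s91_pp_022 : ∃ t, chk3 f_pp_022 t 20 71 1 = true := ex3_a s90_pp_022 k47_pp_022

theorem s92_pp_022 : ∃ t, chk3 f_pp_022 t 20 35 1 = true := ex3_b k44_pp_022 s91_pp_022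

theorem s93_pp_022 : ∃ t, chk3 f_pp_022 t 10 35 1 = true := ex3_a s92_pp_022 k48_pp_022

theorem s94_pp_022 : ∃ t, chk3 f_pp_022 t 10 17 1 = true := ex3_b k43_pp_022 s93_pp_022

theorem s95_pp_022 : ∃ t, chk3 f_pp_022 t 10 8 1 = true := ex3_b k42_pp_022 s94_pp_022

theorem s96_pp_022 : ∃ t, chk3 f_pp_022 t 5 8 1 = true := ex3_a s95_pp_022 k49_pp_022

theorem s97_pp_022 : ∃ t, chk3 f_pp_022 t 5 4 1 = true := ex3_b s96_pp_022 s89_pp_022

theorem s98_pp_022 : ∃ t, chk3 f_pp_022 t 38 140 1 = true := ex3_a k36_pp_022 k37_pp_022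

theorem s99_pp_022 : ∃ t, chk3 f_pp_022 t 38 70 1 = true := ex3_b s98_pp_022 k38_pp_022

theorem s100_pp_022 : ∃ t, chk3 f_pp_022 t 19 70 1 = true := ex3_a s99_pp_022 k39_pp_022

theorem s101_pp_022 : ∃ t, chk3 f_pp_022 t 19 35 1 = true := ex3_b s100_pp_022 k40_pp_022

theorem s102_pp_022 : ∃ t, chk3 f_pp_022 t 19 17 1 = true := ex3_b k35_pp_022 s101_pp_022

theorem s103_pp_022 : ∃ t, chk3 f_pp_022 t 37 138 1 = true := ex3_a k31_pp_022 k32_pp_022

theorem s104_pp_022 : ∃ t, chk3 f_pp_022 t 37 69 1 = true := ex3_b s103_pp_022 k33_pp_022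

theorem s105_pp_022 : ∃ t, chk3 f_pp_022 t 18 69 1 = true := ex3_a k30_pp_022 s104_pp_022

theorem s106_pp_022 : ∃ t, chk3 f_pp_022 t 36 137 1 = true := ex3_a k27_pp_022 k28_pp_022

theorem s107_pp_022 : ∃ t, chk3 f_pp_022 t 72 272 1 = true := ex3_a k23_pp_022 k24_pp_022

theorem s108_pp_022 : ∃ t, chk3 f_pp_022 t 72 136 1 = true := ex3_b s107_pp_022 k25_pp_022

theorem s109_pp_022 : ∃ t, chk3 f_pp_022 t 36 136 1 = true := ex3_a s108_pp_022 k26_pp_022

theorem s110_pp_022 : ∃ t, chk3 f_pp_022 t 36 68 1 = true := ex3_b s109_pp_022 s106_pp_022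

theorem s111_pp_022 : ∃ t, chk3 f_pp_022 t 18 68 1 = true := ex3_a s110_pp_022 k29_pp_022

theorem s112_pp_022 : ∃ t, chk3 f_pp_022 t 18 34 1 = true := ex3_b s111_pp_022 s105_pp_022

theorem s113_pp_022 : ∃ t, chk3 f_pp_022 t 18 17 1 = true := ex3_b s112_pp_022 k34_pp_022

theorem s114_pp_022 : ∃ t, chk3 f_pp_022 t 9 17 1 = true := ex3_a s113_pp_022 s102_pp_022

theorem s115_pp_022 : ∃ t, chk3 f_pp_022 t 9 8 1 = true := ex3_b k22_pp_022 s114_pp_022

theorem s116_pp_022 : ∃ t, chk3 f_pp_022 t 8 17 1 = true := ex3_a k20_pp_022 k21_pp_022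

theorem s117_pp_022 : ∃ t, chk3 f_pp_022 t 71 270 1 = true := ex3_a k17_pp_022 k18_pp_022

theorem s118_pp_022 : ∃ t, chk3 f_pp_022 t 71 135 1 = true := ex3_b s117_pp_022 k19_pp_022

theorem s119_pp_022 : ∃ t, chk3 f_pp_022 t 35 135 1 = true := ex3_a k16_pp_022 s118_pp_022

theorem s120_pp_022 : ∃ t, chk3 f_pp_022 t 70 268 1 = true := ex3_a k12_pp_022 k13_pp_022

theorem s121_pp_022 : ∃ t, chk3 f_pp_022 t 70 134 1 = true := ex3_b s120_pp_022 k14_pp_022

theorem s122_pp_022 : ∃ t, chk3 f_pp_022 t 35 134 1 = true := ex3_a s121_pp_022 k15_pp_022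

theorem s123_pp_022 : ∃ t, chk3 f_pp_022 t 35 67 1 = true := ex3_b s122_pp_022 s119_pp_022

theorem s124_pp_022 : ∃ t, chk3 f_pp_022 t 35 33 1 = true := ex3_b k11_pp_022 s123_pp_022

theorem s125_pp_022 : ∃ t, chk3 f_pp_022 t 139 534 1 = true := ex3_a k7_pp_022 k8_pp_022

theorem s126_pp_022 : ∃ t, chk3 f_pp_022 t 139 267 1 = true := ex3_b s125_pp_022 k9_pp_022

theorem s127_pp_022 : ∃ t, chk3 f_pp_022 t 69 267 1 = true := ex3_a k6_pp_022 s126_pp_022

theorem s128_pp_022 : ∃ t, chk3 f_pp_022 t 69 266 1 = true := ex3_a k4_pp_022 k5_pp_022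

theorem s129_pp_022 : ∃ t, chk3 f_pp_022 t 69 133 1 = true := ex3_b s128_pp_022 s127_pp_022

theorem s130_pp_022 : ∃ t, chk3 f_pp_022 t 69 66 1 = true := ex3_b k3_pp_022 s129_pp_022

theorem s131_pp_022 : ∃ t, chk3 f_pp_022 t 34 66 1 = true := ex3_a k2_pp_022 s130_pp_022

theorem s132_pp_022 : ∃ t, chk3 f_pp_022 t 34 33 1 = true := ex3_b s131_pp_022 k10_pp_022

theorem s133_pp_022 : ∃ t, chk3 f_pp_022 t 17 33 1 = true := ex3_a s132_pp_022 s124_pp_022

theorem s134_pp_022 : ∃ t, chk3 f_pp_022 t 17 16 1 = true := ex3_b k1_pp_022 s133_pp_022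

theorem s135_pp_022 : ∃ t, chk3 f_pp_022 t 8 16 1 = true := ex3_a k0_pp_022 s134_pp_022

theorem s136_pp_022 : ∃ t, chk3 f_pp_022 t 8 8 1 = true := ex3_b s135_pp_022 s116_pp_022

theorem s137_pp_022 : ∃ t, chk3 f_pp_022 t 4 8 1 = true := ex3_a s136_pp_022 s115_pp_022

theorem s138_pp_022 : ∃ t, chk3 f_pp_022 t 4 4 1 = true := ex3_b s137_pp_022 k41_pp_022

theorem s139_pp_022 : ∃ t, chk3 f_pp_022 t 2 4 1 = true := ex3_a s138_pp_022 s97_pp_022

theorem s140_pp_022 : ∃ t, chk3 f_pp_022 t 2 2 1 = true := ex3_b s139_pp_022 k62_pp_022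

theorem s141_pp_022 : ∃ t, chk3 f_pp_022 t 2 1 1 = true := ex3_b s140_pp_022 k63_pp_022

theorem s142_pp_022 : ∃ t, chk3 f_pp_022 t 1 1 1 = true := ex3_a s141_pp_022 s78_pp_022

theorem c_pp_022 : CertN 0 536870912 1073741824 536870912 469762048 67108864 3 false true true .pp 0 2 2
    ndN0q0 ndN4q2 pcN2 cut_pp_022 Ext.none :=
  certN1 (fam := false) (s1 := true) (s2 := true) (a := 0) (b := 2) (c := 2) (cn := .pp) (n1 := ndN0q0) (n2 := ndN4q2) (pc := pcN2) (cut := cut_pp_022) (xt := Ext.none) (P1 := 0) (W1 := 536870912) (P2 := 1073741824) (W2 := 536870912) (P3 := 469762048) (W3 := 67108864) (N0 := 3)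
    rfl (fun _ => rfl) s142_pp_022

noncomputable def f_pp_023 : ℕ → ℕ → ℕ → ℕ → Bool := onCell 1073741824 536870912 0 1230186008 469762048 67108864
    (rowN 3 2 false true true .up 0 2 3 (qsf 0 536870912 0 1230186008 2) ndN0q0 ndN4q3 pcN2 Cut.none Ext.none)

def k0_pp_023 : ∃ t, chk3 f_pp_023 t 1 2 1 = true :=
  ⟨(a (l 2) (a (l 2) (b (a (l 2) (b (l 16854272) (l 16847472))) (a (b (l 16854784) (l 16865280)) (b (a (l 16858736) (l 16861000)) (l 16875328)))))), by decide +kernel⟩

def k1_pp_023 : ∃ t, chk3 f_pp_023 t 1 6 1 = true :=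
  ⟨(a (a (l 2) (a (l 2) (b (l 2) (b (l 2) (a (l 2) (l 16788216)))))) (a (b (a (l 2) (b (l 16845968) (l 16835160))) (a (b (l 16809504) (a (l 16793184) (l 16798696))) (b (l 16823392) (l 16808584)))) (b (a (b (l 16860168) (l 16850392)) (l 16872176)) (a (b (l 16838376) (l 16823312)) (b (l 16855456) (l 16839312)))))), by decide +kernel⟩

def k2_pp_023 : ∃ t, chk3 f_pp_023 t 4 7 1 = true :=
  ⟨(b (l 2) (l 3)), by decide +kernel⟩

def k3_pp_023 : ∃ t, chk3 f_pp_023 t 10 14 1 = true :=
  ⟨(a (a (l 3) (a (l 3) (a (b (l 2) (b (l 2) (a (a (l 3) (b (l 3) (b (l 215453039255) (l 134922401943)))) (b (b (l 2) (a (a (l 3) (l 218137392391)) (a (l 16797992) (l 16776608)))) (a (c (b (l 16781640) (l 16780680)) (l 16793032)) (b (l 16796960) (l 16775016))))))) (b (l 2) (b (l 2) (a (a (b (c (b (l 261556827735) (l 16781128)) (l 28554839303)) (c (l 16779696) (l 16769992))) (b (a (l 26407377991) (c (l 16781048) (l 16770800))) (a (l 16774192) (l 16773912)))) (b (a (a (a (l 16775584) (l 16775456)) (l 16775280))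 (l 16774904)) (a (a (a (l 16773696) (l 16773552)) (l 16773336)) (l 16772904))))))))) (b (b (l 2) (l 313096396311)) (b (a (b (l 2) (l 253503783271)) (l 16765360)) (a (b (l 18891192247) (l 16788640)) (l 16758808))))), by decide +kernel⟩

def k4_pp_023 : ∃ t, chk3 f_pp_023 t 40 15 1 = true :=
  ⟨(b (l 3) (b (a (l 3) (a (l 3) (a (b (l 3) (b (l 3) (l 98952051671))) (b (c (l 159081602391) (l 148344173367)) (b (l 16793856) (l 16790736)))))) (a (b (l 3) (b (l 3) (a (l 3) (a (l 3) (c (l 16777232) (l 16772528)))))) (a (b (a (l 3) (c (b (l 16777704) (l 16775632)) (l 16792240))) (c (b (l 16795688) (l 16792632)) (b (l 16789840) (l 16765320)))) (b (b (a (l 16792392) (l 16766552)) (l 16789224)) (c (l 16784728) (l 16777272))))))), by decide +kernel⟩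

def k5_pp_023 : ∃ t, chk3 f_pp_023 t 41 15 1 = true :=
  ⟨(a (b (a (b (l 3) (b (l 3) (c (a (l 184851397239) (l 162839692391)) (a (l 173577104231) (l 16792512))))) (b (b (a (l 3) (b (l 3) (l 195051947847))) (a (l 3) (b (l 123648116583) (l 117205664823)))) (b (a (b (l 174650853399) (l 16795576)) (c (l 16797488) (l 16768632))) (a (b (l 16772480) (l 16769848)) (l 16788440))))) (a (b (b (b (c (l 108615724407) (l 16790512)) (c (l 16773232) (l 16787048))) (b (b (l 16787728) (l 16785864)) (l 16783368))) (b (b (l 16779896) (l 16776216)) (l 16780776))) (b (b (a (l 16785760) (l 16781432)) (b (l 16777536) (l 16774064))) (b (l 16778984) (l 16760480))))) (a (b (b (b (a (c (b (l 132774915863) (l 16779768)) (l 122574361543)) (a (b (l 16774904) (l 16773616)) (l 16794184))) (a (b (l 16794960) (l 16772344)) (c (l 16775288) (l 16766192)))) (b (a (l 16790240) (l 16787248)) (a (l 16784752) (l 16781360)))) (b (b (a (l 16777336) (l 16773696)) (c (l 16772688) (l 16763176))) (b (c (l 16764960) (l 16755720))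 (c (l 16756480) (l 16747696))))) (b (a (b (a (b (l 16793224) (l 16768912)) (b (a (l 16771680) (l 16771344)) (l 16789000))) (a (b (l 16764352) (l 16758240)) (b (l 16784304) (l 16757088)))) (b (c (b (b (l 16776544) (l 16774952)) (l 16772096)) (b (l 16786504) (l 16761920))) (b (l 16782944) (l 16755544)))) (a (b (b (a (l 16750448) (l 16749264)) (a (l 16743072) (l 16741896))) (b (a (l 16735224) (l 16733928)) (a (l 16726720) (l 16725296)))) (b (b (l 16747712) (l 16740304)) (b (l 16732144) (l 16723320))))))), by decide +kernel⟩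

def k6_pp_023 : ∃ t, chk3 f_pp_023 t 21 15 1 = true :=
  ⟨(a (b (b (b (l 16764080) (l 16759440)) (b (l 16753520) (l 16767272))) (b (b (l 16759488) (l 16730360)) (b (l 16721064) (l 16711080)))) (b (b (l 16748552) (l 16755152)) (b (l 16737432) (l 16714920)))), by decide +kernel⟩

def k7_pp_023 : ∃ t, chk3 f_pp_023 t 11 7 1 = true :=
  ⟨(b (b (a (b (l 16775680) (l 16768776)) (l 16773120)) (b (a (l 16760272) (l 16756992)) (a (l 16749040) (l 16741816)))) (b (b (a (l 16733600) (l 16720672)) (a (l 16732416) (l 16690416))) (b (a (l 16708184) (l 16647040)) (a (l 16700496) (l 16607624))))), by decide +kernel⟩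

def k8_pp_023 : ∃ t, chk3 f_pp_023 t 3 7 1 = true :=
  ⟨(b (a (b (a (a (l 16775440) (l 16778880)) (l 16786408)) (a (a (l 16725984) (l 16745976)) (l 16747624))) (b (a (l 16798808) (l 16812080)) (a (l 16752896) (l 16760608)))) (a (b (a (b (l 16706984) (l 16666408)) (b (l 16696424) (l 16643624))) (a (b (l 16608192) (l 16546200)) (b (l 16567560) (l 16456816)))) (b (a (l 16662360) (l 16657320)) (a (l 16473704) (b (l 16511056) (l 16353728)))))), by decide +kernel⟩

theorem s9_pp_023 : ∃ t, chk3 f_pp_023 t 20 15 1 = true := ex3_a k4_pp_023 k5_pp_023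

theorem s10_pp_023 : ∃ t, chk3 f_pp_023 t 10 15 1 = true := ex3_a s9_pp_023 k6_pp_023

theorem s11_pp_023 : ∃ t, chk3 f_pp_023 t 10 7 1 = true := ex3_b k3_pp_023 s10_pp_023

theorem s12_pp_023 : ∃ t, chk3 f_pp_023 t 5 7 1 = true := ex3_a s11_pp_023 k7_pp_023

theorem s13_pp_023 : ∃ t, chk3 f_pp_023 t 2 7 1 = true := ex3_a k2_pp_023 s12_pp_023

theorem s14_pp_023 : ∃ t, chk3 f_pp_023 t 1 7 1 = true := ex3_a s13_pp_023 k8_pp_023

theorem s15_pp_023 : ∃ t, chk3 f_pp_023 t 1 3 1 = true := ex3_b k1_pp_023 s14_pp_023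

theorem s16_pp_023 : ∃ t, chk3 f_pp_023 t 1 1 1 = true := ex3_b k0_pp_023 s15_pp_023

theorem c_pp_023 : CertN 0 536870912 0 1230186008 469762048 67108864 3 false true true .up 0 2 3
    ndN0q0 ndN4q3 pcN2 Cut.none Ext.none :=
  certN2 (fam := false) (s1 := true) (s2 := true) (a := 0) (b := 2) (c := 3) (cn := .up) (n1 := ndN0q0) (n2 := ndN4q3) (pc := pcN2) (cut := Cut.none) (xt := Ext.none) (P1 := 0) (W1 := 536870912) (P2 := 0) (W2 := 1230186008) (P3 := 469762048) (W3 := 67108864) (N0 := 3)
    rfl (fun _ => rfl) s16_pp_023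

noncomputable def f_pp_033 : ℕ → ℕ → ℕ → ℕ → Bool := onCell 1610612736 536870912 0 1230186008 469762048 67108864
    (rowN 3 2 false true true .pnn 0 3 3 (qsf 0 536870912 0 1230186008 3) ndN0q0 ndN4q3 pcN3 Cut.none Ext.none)

def k0_pp_033 : ∃ t, chk3 f_pp_033 t 1 1 1 = true :=
  ⟨(b (b (a (a (a (b (l 16834784) (l 16844688)) (l 16849896)) (a (l 17003080) (l 16861648))) (a (a (l 16866456) (l 16872160)) (l 4))) (a (a (a (b (l 16865496) (l 16882856)) (b (l 16872144) (l 16891400))) (b (a (l 16878648) (l 16884496)) (a (l 16900040) (l 16908048)))) (a (a (l 17113968) (l 16993472)) (a (l 16919304) (a (l 16927088) (l 4)))))) (b (a (a (b (a (l 16892064) (l 16901360)) (a (b (l 16888464) (l 16875880)) (l 16893832))) (b (a (l 16910824) (l 16921048)) (b (l 16912528) (l 16899568)))) (a (b (a (l 16934944) (l 16953368)) (a (l 16923976) (l 17145944))) (a (b (l 16978200) (l 1)) (l 1)))) (a (a (b (b (l 16850200) (l 16783080)) (a (b (l 16637776) (l 16415768)) (b (l 16641320) (l 239477431255)))) (b (b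 (l 16868624) (l 16801208)) (b (l 135862250551) (l 1)))) (l 1)))), by decide +kernel⟩

theorem c_pp_033 : CertN 0 536870912 0 1230186008 469762048 67108864 3 false true true .pnn 0 3 3
    ndN0q0 ndN4q3 pcN3 Cut.none Ext.none :=
  certN2 (fam := false) (s1 := true) (s2 := true) (a := 0) (b := 3) (c := 3) (cn := .pnn) (n1 := ndN0q0) (n2 := ndN4q3) (pc := pcN3) (cut := Cut.none) (xt := Ext.none) (P1 := 0) (W1 := 536870912) (P2 := 0) (W2 := 1230186008) (P3 := 469762048) (W3 := 67108864) (N0 := 3)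
    rfl (fun _ => rfl) k0_pp_033

noncomputable def f_pp_101 : ℕ → ℕ → ℕ → ℕ → Bool := onCell 536870912 536870912 536870912 536870912 469762048 67108864
    (rowN 3 0 false true true .npn 1 0 1 (qsf 536870912 536870912 536870912 536870912 0) ndN0q1 ndN4q1 pcN0 Cut.none Ext.none)

def k0_pp_101 : ∃ t, chk3 f_pp_101 t 1 1 1 = true :=
  ⟨(a (l 3) (l 5)), by decide +kernel⟩

theorem c_pp_101 : CertN 536870912 536870912 536870912 536870912 469762048 67108864 3 false true true .npn 1 0 1
    ndN0q1 ndN4q1 pcN0 Cut.none Ext.none :=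
  certN0 (fam := false) (s1 := true) (s2 := true) (a := 1) (b := 0) (c := 1) (cn := .npn) (n1 := ndN0q1) (n2 := ndN4q1) (pc := pcN0) (cut := Cut.none) (xt := Ext.none) (P1 := 536870912) (W1 := 536870912) (P2 := 536870912) (W2 := 536870912) (P3 := 469762048) (W3 := 67108864) (N0 := 3)
    rfl k0_pp_101

noncomputable def f_pp_102 : ℕ → ℕ → ℕ → ℕ → Bool := onCell 536870912 536870912 1073741824 536870912 469762048 67108864
    (rowN 3 0 false true true .npp 1 0 2 (qsf 536870912 536870912 1073741824 536870912 0) ndN0q1 ndN4q2 pcN0 Cut.none Ext.none)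

def k0_pp_102 : ∃ t, chk3 f_pp_102 t 1 1 1 = true :=
  ⟨(a (l 3) (b (l 5) (l 3))), by decide +kernel⟩

theorem c_pp_102 : CertN 536870912 536870912 1073741824 536870912 469762048 67108864 3 false true true .npp 1 0 2
    ndN0q1 ndN4q2 pcN0 Cut.none Ext.none :=
  certN0 (fam := false) (s1 := true) (s2 := true) (a := 1) (b := 0) (c := 2) (cn := .npp) (n1 := ndN0q1) (n2 := ndN4q2) (pc := pcN0) (cut := Cut.none) (xt := Ext.none) (P1 := 536870912) (W1 := 536870912) (P2 := 1073741824) (W2 := 536870912) (P3 := 469762048) (W3 := 67108864) (N0 := 3)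
    rfl k0_pp_102

noncomputable def f_pp_112 : ℕ → ℕ → ℕ → ℕ → Bool := onCell 536870912 536870912 1073741824 536870912 469762048 67108864
    (rowN 3 0 false true true .dn 1 1 2 (qsf 536870912 536870912 1073741824 536870912 1) ndN0q1 ndN4q2 pcN1 Cut.none Ext.none)

def k0_pp_112 : ∃ t, chk3 f_pp_112 t 1 1 1 = true :=
  ⟨(a (l 3) (b (l 5) (l 3))), by decide +kernel⟩

theorem c_pp_112 : CertN 536870912 536870912 1073741824 536870912 469762048 67108864 3 false true true .dn 1 1 2
    ndN0q1 ndN4q2 pcN1 Cut.none Ext.none :=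
  certN0 (fam := false) (s1 := true) (s2 := true) (a := 1) (b := 1) (c := 2) (cn := .dn) (n1 := ndN0q1) (n2 := ndN4q2) (pc := pcN1) (cut := Cut.none) (xt := Ext.none) (P1 := 536870912) (W1 := 536870912) (P2 := 1073741824) (W2 := 536870912) (P3 := 469762048) (W3 := 67108864) (N0 := 3)
    rfl k0_pp_112

noncomputable def cut_pp_113 : Cut := Cut.of [[⟨0, 1, 0, 67108864⟩, ⟨1, 1, 0, 67108864⟩, ⟨2, 2, 0, 16777216⟩]]

noncomputable def f_pp_113 : ℕ → ℕ → ℕ → ℕ → Bool := onCell 536870912 536870912 0 1230186008 469762048 67108864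
    (rowN 3 2 false true true .nn 1 1 3 (qsf 536870912 536870912 0 1230186008 1) ndN0q1 ndN4q3 pcN1 cut_pp_113 Ext.none)

def k0_pp_113 : ∃ t, chk3 f_pp_113 t 1 1 1 = true :=
  ⟨(b (a (l 2) (a (l 2) (b (a (l 2) (b (a (l 2) (l 6)) (l 3))) (l 3)))) (b (a (a (l 2) (b (l 2) (a (l 2) (l 3)))) (a (l 3) (l 3))) (a (a (b (l 2) (l 3)) (l 3)) (l 3)))), by decide +kernel⟩

theorem c_pp_113 : CertN 536870912 536870912 0 1230186008 469762048 67108864 3 false true true .nn 1 1 3
    ndN0q1 ndN4q3 pcN1 cut_pp_113 Ext.none :=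
  certN2 (fam := false) (s1 := true) (s2 := true) (a := 1) (b := 1) (c := 3) (cn := .nn) (n1 := ndN0q1) (n2 := ndN4q3) (pc := pcN1) (cut := cut_pp_113) (xt := Ext.none) (P1 := 536870912) (W1 := 536870912) (P2 := 0) (W2 := 1230186008) (P3 := 469762048) (W3 := 67108864) (N0 := 3)
    rfl (fun _ => rfl) k0_pp_113

end Pool.Agent.Strip051.G.I7_16_1_2.Tab.C.NB04

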