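import Pool.Agent.Strip051.G.I7_16_1_2.Tab

/-! # Certificates N16 (generated) -/

set_option linter.all false
set_option maxRecDepth 100000

namespace Pool.Agent.Strip051.G.I7_16_1_2.Tab.C.NB04

open Pool.Agent.Strip051.PB Pool.Agent.Strip051.PB.T
open Pool.Agent.Strip051.G.I7_16_1_2.Tab

noncomputable def cut_pp_123 : Cut := Cut.of [[⟨0, 1, 0, 67108864⟩, ⟨1, 1, 0, 67108864⟩, ⟨2, 2, 0, 16777216⟩]]

noncomputable def f_pp_123 : ℕ → ℕ → ℕ → ℕ → Bool := onCell 1073741824 536870912 0 1230186008 469762048 67108864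
    (rowN 3 2 false true true .npn 1 2 3 (qsf 536870912 536870912 0 1230186008 2) ndN0q1 ndN4q3 pcN2 cut_pp_123 Ext.none)

def k0_pp_123 : ∃ t, chk3 f_pp_123 t 8 8 1 = true :=
  ⟨(a (l 6) (a (l 6) (b (l 16781064) (b (l 16778416) (a (l 6) (b (l 16777952) (l 16777744))))))), by decide +kernel⟩

def k1_pp_123 : ∃ t, chk3 f_pp_123 t 16 9 1 = true :=
  ⟨(l 3), by decide +kernel⟩

def k2_pp_123 : ∃ t, chk3 f_pp_123 t 34 18 1 = true :=
  ⟨(l 6), by decide +kernel⟩

def k3_pp_123 : ∃ t, chk3 f_pp_123 t 35 36 1 = true :=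
  ⟨(a (b (a (l 6) (b (l 6) (l 16787432))) (a (l 6) (b (a (l 6) (l 16777000)) (a (b (a (l 3) (a (l 6) (a (b (l 6) (c (l 337322706055) (l 343228285239))) (b (c (l 16777576) (l 16777288)) (b (c (l 323364062119) (l 329806512359)) (l 3)))))) (l 3)) (b (a (c (b (l 16777576) (a (b (l 16778912) (l 320679708855)) (l 16777584))) (a (b (l 16777288) (c (l 309405417847) (l 311016031511))) (l 16777320))) (l 16777416)) (c (a (b (a (l 334638351527) (b (l 303499839927) (l 325511545831))) (l 337859577239)) (b (a (l 16777576) (l 16777600)) (a (b (l 307794805655) (l 330343384135)) (l 301352356551)))) (c (a (b (a (l 338396447271) (l 325511545255)) (l 342691414679)) (b (l 16777368) (a (l 328732770775) (l 306184193479)))) (a (b (a (l 341617672247) (b (l 310479159287) (l 333564608535))) (l 345375768647)) (b (l 16777176) (a (b (l 311552901127) (l 338396446759)) (l 309405418423))))))))))) (b (l 16777208) (a (b (l 16776920) (a (b (l 16777024) (a (l 16782712) (l 16777288))) (l 16776776))) (l 16777000)))), by decide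 +kernel⟩

def k4_pp_123 : ∃ t, chk3 f_pp_123 t 70 37 1 = true :=
  ⟨(b (a (l 3) (b (a (l 3) (b (a (l 3) (b (c (c (l 329269642647) (l 332490867719)) (a (l 3) (c (l 332490867191) (l 335712092183)))) (l 3))) (l 3))) (l 3))) (l 3)), by decide +kernel⟩

def k5_pp_123 : ∃ t, chk3 f_pp_123 t 71 74 1 = true :=
  ⟨(a (b (a (b (c (a (b (c (l 301352354695) (l 304573579895)) (a (l 330880255143) (b (l 301352356135) (l 321216578551)))) (l 16777616)) (c (a (b (l 307257936759) (a (l 335712092711) (l 309942288807))) (l 16777424)) (a (b (a (l 310479159271) (l 16777176)) (a (l 338933317671) (l 311552902423))) (l 16777256)))) (c (a (a (l 3) (l 336785835447)) (b (a (b (l 304036710919) (l 326048416839)) (l 16777616)) (a (l 338396448087) (b (l 308331676663) (l 330343384215))))) (c (a (l 341617672935) (b (a (l 326048416199) (l 16777376)) (a (l 342691414647) (l 329269641719)))) (a (l 344838897735) (b (a (b (l 311016030199) (l 334101479447)) (l 16777184)) (a (l 345912639543) (b (l 312089772039) (l 338396446743))))))))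 (b (l 16777256) (a (a (b (l 16777496) (a (c (l 302426098007) (l 308868547975)) (l 16777472))) (l 16782752)) (l 16777448)))) (a (l 3) (b (c (a (a (c (l 330343384615) (l 333564609655)) (b (l 304573582839) (l 330880255207))) (a (c (l 303499838471) (l 306184195351)) (l 16777664))) (c (a (b (a (l 332490867223) (l 308331676055)) (l 338396447367)) (b (l 16777408) (a (l 309942288823) (l 16777376)))) (a (b (a (l 335712092183) (l 311016030167)) (a (l 3) (l 338933317655))) (b (l 16777200) (a (l 311552901095) (l 16777168)))))) (c (a (l 3) (b (a (l 335175222599) (b (l 304036710999) (l 325511545991))) (l 338396448295))) (a (l 3) (b (a (b (l 338933317943) (l 3)) (b (l 309405419159) (a (l 339470188839) (l 311552901383)))) (a (l 3) (l 344302027111)))))))) (b (l 16776704) (c (a (b (l 16777512) (a (b (l 16777656) (a (b (l 307794805815) (l 329806513367)) (l 301352356391))) (l 16777672))) (l 16777096)) (a (b (l 16777336) (a (b (l 16777272) (a (c (l 328732770823) (a (l 336785833991) (l 312089772023))) (l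 308331677303))) (l 16777368))) (l 16777072))))), by decide +kernel⟩

def k6_pp_123 : ∃ t, chk3 f_pp_123 t 71 75 1 = true :=
  ⟨(a (l 3) (b (a (b (c (a (a (l 3) (c (l 329806513783) (l 333027738791))) (b (a (l 302962969511) (l 16777672)) (a (l 330343384375) (l 306721066631)))) (c (a (b (a (l 3) (l 331953996343)) (l 3)) (b (l 307257934199) (a (l 335175221847) (l 309942288855)))) (a (b (a (l 3) (b (l 330880253943) (l 342154543127))) (l 3)) (b (l 310479159223) (a (l 338396446727) (l 311552901079)))))) (a (l 3) (a (l 3) (c (l 336248964663) (c (l 340543931095) (l 343765155879)))))) (c (c (b (l 16777720) (a (b (l 304573580487) (l 326585288231)) (l 16777800))) (b (l 16777608) (a (b (l 307257937319) (a (l 338396447959) (l 324437804023))) (l 16777616)))) (b (a (l 16777336) (l 16777368)) (a (b (a (b (l 309405418967) (a (l 337322705207) (l 311016031527))) (l 16777288)) (a (l 343228285287) (c (l 327659029015) (a (l 335175221239) (l 312089772007))))) (c (l 16777392) (l 16777144)))))) (c (a (l 3) (b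 (a (l 3) (a (c (l 329269642935) (l 332490867911)) (b (l 302962969255) (b (l 324974675207) (l 336785835447))))) (l 3))) (a (l 3) (b (a (l 3) (b (a (b (a (l 332490866983) (l 309942289447)) (l 338396447047)) (b (l 16777296) (l 309942289927))) (a (l 3) (c (l 333564609127) (l 336785833975))))) (l 3)))))), by decide +kernel⟩

def k7_pp_123 : ∃ t, chk3 f_pp_123 t 17 19 1 = true :=
  ⟨(l 3), by decide +kernel⟩

def k8_pp_123 : ∃ t, chk3 f_pp_123 t 9 8 1 = true :=
  ⟨(a (b (l 16782528) (l 16779008)) (l 16784488)), by decide +kernel⟩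

def k9_pp_123 : ∃ t, chk3 f_pp_123 t 18 18 1 = true :=
  ⟨(a (b (a (l 16777408) (l 16777912)) (a (b (l 16776848) (a (b (l 16787480) (a (b (a (b (l 16777528) (c (a (l 305647322231) (l 16777704)) (c (l 308331676071) (l 311016032743)))) (l 16777576)) (c (a (b (a (l 331953997239) (l 307257935047)) (l 336785835655)) (a (c (l 305110451511) (l 307257934775)) (l 16777704))) (c (a (b (a (l 336785834631) (l 310479159815)) (l 341080802023)) (b (l 16777392) (a (l 311552901671) (l 16777432)))) (a (b (a (l 340007059463) (l 312089771991)) (l 344302026775)) (b (l 16777144) (a (b (l 311552901719) (l 333027737575)) (l 16777160))))))) (b (l 16777320) (l 16785440)))) (l 16776552))) (l 16797864))) (b (l 16777824) (l 16777648))), by decide +kernel⟩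

def k10_pp_123 : ∃ t, chk3 f_pp_123 t 72 76 1 = true :=
  ⟨(a (b (a (c (b (a (l 3) (b (a (l 338396448327) (b (l 307257935095) (l 329269642647))) (l 3))) (l 3)) (b (a (l 3) (b (a (l 344302027127) (c (l 328732770887) (a (l 335712092151) (l 312626642903)))) (l 3))) (l 3))) (b (c (a (b (l 16779056) (a (b (l 309405418807) (l 333027739095)) (l 303499840279))) (l 16777784)) (a (b (a (l 16777312) (l 16777272)) (a (b (a (l 333564608823) (l 310479160375)) (l 339470188887)) (b (l 16777304) (l 310479160775)))) (l 16777328))) (c (a (c (l 333564610615) (l 336785835479)) (b (a (l 305110453415) (l 16777760)) (a (l 331953997351) (l 307794806071)))) (c (a (a (l 3) (l 338396447463)) (b (l 308868547031) (a (l 336785834679) (l 311016030775)))) (a (b (a (l 3) (l 337322704871)) (l 3)) (b (l 311552901015) (a (l 340007059431) (l 312626642871)))))))) (a (l 3) (b (a (l 3) (a (l 3) (c (l 337859577623) (c (l 342154543911) (l 344838897655))))) (l 3)))) (b (a (b (l 16777488) (a (c (l 16777792) (l 16777256)) (l 16777608)))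 (l 16777120)) (a (b (c (a (a (b (l 309405418871) (l 337859577527)) (c (l 306721064455) (l 308868547655))) (l 16777768)) (a (b (a (b (l 310479160695) (a (l 337859576135) (l 311552902231))) (l 16777304)) (a (l 343765156215) (c (l 328195900023) (a (l 335175221207) (l 313163513799))))) (b (l 16777280) (l 16777296)))) (c (a (l 341617674295) (b (a (l 326048418583) (l 16777864)) (a (l 3) (l 328732771895)))) (a (a (l 3) (l 346986381751)) (b (a (c (l 330880254615) (b (l 313163513799) (l 340007059431))) (l 310479160791)) (a (l 3) (b (a (l 336785834327) (l 311552902231)) (l 341617672551))))))) (b (l 16777600) (a (a (c (l 303499841479) (c (l 308868548519) (l 312089773127))) (l 16777536)) (l 16777640)))))), by decide +kernel⟩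

def k11_pp_123 : ∃ t, chk3 f_pp_123 t 72 77 1 = true :=
  ⟨(a (l 3) (b (a (l 3) (b (c (a (b (a (l 330880255607) (l 307257935255)) (a (l 3) (l 333564610247))) (c (l 304573580759) (l 306721063943))) (c (a (b (a (l 335712092871) (l 311016030807)) (l 341080802087)) (b (l 16777424) (l 310479159847))) (a (b (a (l 338933317591) (l 313163513767)) (a (l 3) (l 341617672151))) (b (l 16777120) (a (l 313700384679) (l 16777136)))))) (c (a (l 3) (b (a (l 336248964871) (l 309942289943)) (l 340007061463))) (a (l 3) (b (a (b (l 340543930727) (l 3)) (b (l 311552902535) (a (l 339470188903) (l 312626644071)))) (a (l 3) (l 344838898055))))))) (l 3))), by decide +kernel⟩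

def k12_pp_123 : ∃ t, chk3 f_pp_123 t 73 38 1 = true :=
  ⟨(b (a (l 16786960) (l 16776496)) (a (b (a (c (b (l 16777856) (a (b (l 16777848) (a (l 324437804615) (l 16777912))) (l 16777880))) (b (l 16777424) (a (a (b (l 16777312) (c (l 328732770983) (a (l 336248963015) (l 313700384679)))) (l 16777296)) (l 16777272)))) (l 16777504)) (a (b (c (a (b (a (l 341617674135) (l 326585288327)) (l 3)) (b (l 302962970199) (a (l 328732772039) (l 305647324247)))) (a (a (l 348060123591) (b (c (l 331417125575) (b (l 314237255591) (l 340007059399))) (l 3))) (b (a (l 311552902503) (l 16777288)) (a (b (a (l 336785834327) (l 312626643895)) (l 341617672567)) (b (l 16777328) (l 312089773463)))))) (a (l 3) (c (c (l 335175223703) (l 338396448455)) (a (l 3) (b (c (l 335712092919) (l 338933317559)) (l 3)))))) (c (b (l 16777920) (a (b (l 305110454199) (a (l 333564610375) (l 308331677271))) (l 16777848))) (c (b (l 16777512) (a (b (l 310479161351) (a (l 337859576599) (l 312089772695))) (l 16777432))) (b (l 16777176)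 (a (b (l 313700384615) (a (l 341080801207) (l 314237255559))) (l 16777096))))))) (b (l 16776440) (l 16782656)))), by decide +kernel⟩

def k13_pp_123 : ∃ t, chk3 f_pp_123 t 72 39 1 = true :=
  ⟨(l 3), by decide +kernel⟩

def k14_pp_123 : ∃ t, chk3 f_pp_123 t 73 78 1 = true :=
  ⟨(a (b (c (a (l 3) (b (a (b (l 338396448791) (l 3)) (b (a (l 309405419159) (l 16777960)) (a (l 337859577799) (l 310479161031)))) (a (l 3) (l 342154545463)))) (c (a (l 3) (b (a (l 344302027703) (b (l 311552901751) (a (l 342154543943) (l 313163514583)))) (l 347523253351))) (a (l 3) (b (a (b (l 345912639431) (l 3)) (b (a (l 314237255559) (l 16777120)) (a (l 345375768503) (b (l 314237256055) (l 335175221159))))) (a (l 3) (l 349670735815)))))) (l 3)) (b (c (a (b (a (l 16777888) (l 16777968)) (a (b (a (l 325511546631) (l 16778008)) (a (l 342691416135) (l 327122159431))) (l 304036712583))) (l 16777904)) (a (c (b (l 16777416) (a (b (a (l 329806512871) (l 16777520)) (a (l 346986382199) (l 331953996551))) (l 16777472)))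 (b (l 16777080) (a (b (a (b (l 314774126471) (l 337859575719)) (l 16777128)) (a (l 349670735799) (b (l 314774126471) (l 340543930279)))) (l 313163515095)))) (l 16777480))) (a (c (b (a (l 3) (b (a (l 329269643127) (l 306184195175)) (a (l 3) (l 331417126839)))) (l 3)) (b (a (l 3) (b (a (b (a (l 336785834343) (l 313163514663)) (l 341617672583)) (l 312626644359)) (a (l 3) (c (l 335712092983) (l 338933317527))))) (l 3))) (b (a (a (c (l 305647324839) (c (l 311016032055) (l 314237256551))) (l 16777640)) (l 16777648)) (c (a (b (a (l 333027739623) (l 308331679079)) (l 337859578023)) (b (l 16777976) (l 308331680023))) (c (a (b (a (l 337859576647) (l 312626643671)) (l 342691414935)) (l 311552901735)) (a (b (a (l 341080801175) (l 314774126439)) (a (l 3) (l 342691413895))) (c (l 313700384759) (l 315310997047))))))))), by decide +kernel⟩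

def k15_pp_123 : ∃ t, chk3 f_pp_123 t 73 79 1 = true :=
  ⟨(a (l 3) (b (a (l 3) (c (b (a (l 3) (b (a (l 336785836119) (l 310479161191)) (l 341080803607))) (l 3)) (c (b (a (l 3) (b (a (l 341617673079) (l 313700385543)) (l 344838898631))) (l 3)) (b (a (l 3) (b (a (l 344302026631) (l 315310997351)) (l 348060123015))) (l 3))))) (l 3))), by decide +kernel⟩

def k16_pp_123 : ∃ t, chk3 f_pp_123 t 37 19 1 = true :=
  ⟨(b (a (l 16776656) (l 16777064)) (a (b (a (b (l 16776936) (a (b (l 16777728) (l 16788208)) (l 16777472))) (l 16776008)) (a (b (a (b (c (a (c (l 307257935847) (l 309942289783)) (l 16777952)) (a (a (b (l 16777328) (c (l 314237256471) (l 315847868263))) (l 16777304)) (l 16777256))) (c (a (b (a (l 341080803527) (l 325511546839)) (l 343228287367)) (c (l 308868548695) (l 311016031687))) (a (a (b (l 346449510823) (l 3)) (b (c (l 329806512935) (l 333027737447)) (l 348060123575))) (a (b (l 16777336) (c (l 331417125703) (l 334638350183))) (l 16777320))))) (c (l 16778064) (l 16777392)))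 (a (c (a (l 3) (b (c (l 334638353127) (l 337859577767)) (l 3))) (b (a (l 3) (a (l 350207607255) (b (c (l 333027738455) (a (l 341080801127) (l 316921610071))) (l 3)))) (l 3))) (b (c (a (c (l 310479161543) (l 312626647127)) (l 16778008)) (a (a (b (l 314774127687) (c (l 334638351207) (l 337322704727))) (a (l 314774127991) (l 16777320))) (l 16777264))) (c (a (a (l 3) (l 335175223623)) (b (l 308868550583) (a (l 332490868951) (l 310479162807)))) (c (a (b (l 340007060407) (l 3)) (b (l 313700386631) (a (l 337322705815) (l 314774128199)))) (a (b (a (l 3) (l 338933317463)) (l 3)) (b (l 316921610967) (a (l 340007059287) (l 317458481591))))))))) (a (b (l 16777616) (c (l 16778096) (l 16779912))) (l 16777432)))) (l 16797168))), by decide +kernel⟩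

def k17_pp_123 : ∃ t, chk3 f_pp_123 t 19 9 1 = true :=
  ⟨(b (l 16777696) (a (b (l 16777896) (l 16797976)) (l 16778168))), by decide +kernel⟩

def k18_pp_123 : ∃ t, chk3 f_pp_123 t 5 4 1 = true :=
  ⟨(a (a (b (l 16872760) (b (l 16776024) (l 16836584))) (l 16916544)) (b (l 16793368) (l 16801328))), by decide +kernel⟩

def k19_pp_123 : ∃ t, chk3 f_pp_123 t 3 4 1 = true :=
  ⟨(b (a (l 16911208) (a (l 16833000) (l 16852928))) (a (a (l 16831800) (l 16825960)) (a (l 16832400) (l 16846760)))), by decide +kernel⟩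

def k20_pp_123 : ∃ t, chk3 f_pp_123 t 8 5 1 = true :=
  ⟨(l 3), by decide +kernel⟩

def k21_pp_123 : ∃ t, chk3 f_pp_123 t 36 10 1 = true :=
  ⟨(l 3), by decide +kernel⟩

def k22_pp_123 : ∃ t, chk3 f_pp_123 t 74 20 1 = true :=
  ⟨(b (b (a (b (a (l 3) (b (c (c (l 341080804631) (l 343765158183)) (a (l 3) (c (l 343765156903) (c (l 345912639639) (l 347523251719))))) (l 3))) (l 3)) (b (a (b (c (a (b (l 309942292663) (a (l 334638352695) (l 312089775799))) (l 16778080)) (c (a (b (l 314774128647) (a (l 339470189495) (l 315847869255))) (l 16777504)) (a (b (l 317458480903) (a (l 342691413847) (l 317995351847))) (l 16777040)))) (c (a (l 341617674887) (b (l 312089774103) (a (l 336785836439) (l 314237257895)))) (c (a (l 344838898759) (b (l 315847869207) (l 334101480359))) (a (b (l 346449510215) (l 3)) (b (l 317995351815) (a (l 344838897479) (l 318532222759))))))) (a (c (l 16778040) (l 16777256)) (l 16777784))) (a (b (c (a (l 3) (l 343228287719)) (a (l 3) (c (l 347523253351) (l 350207606599)))) (l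 3)) (b (c (a (b (l 313163516007) (a (l 341080803831) (l 324437805319))) (l 16778160)) (a (c (b (l 316384740151) (l 335175222215)) (b (a (l 318532222743) (l 16777064)) (a (l 346986381111) (l 332490866455)))) (l 16777296))) (c (a (l 344302029639) (b (l 314237257927) (l 331953998295))) (c (a (l 348596995207) (b (l 317458482007) (l 336785834983))) (a (l 351281348407) (b (a (l 333564608279) (l 16777064)) (a (l 350207606567) (l 334101479191)))))))))) (a (l 3) (b (a (l 3) (c (c (l 345375772743) (l 348060126023)) (b (a (l 3) (b (l 350744478167) (l 3))) (l 3)))) (l 3)))) (l 3)), by decide +kernel⟩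

def k23_pp_123 : ∃ t, chk3 f_pp_123 t 75 20 1 = true :=
  ⟨(b (b (a (b (l 16777648) (a (b (l 16777760) (a (c (l 16778200) (l 16777304)) (l 16777688))) (l 16777880))) (l 16776648)) (a (b (a (b (c (a (b (l 315310999831) (l 333027740199)) (l 16778240)) (a (b (a (b (l 318532223335) (l 338396447127)) (l 16777352)) (a (l 350744478151) (b (l 319069094247) (l 339470188951)))) (b (l 16777288) (l 16777336)))) (c (a (l 346449513447) (b (l 323364063591) (l 333564611191))) (c (a (l 350744478903) (b (l 328195900311) (l 338933318679))) (a (l 353428832023) (b (a (l 336785833735) (l 16777056)) (l 342154542855)))))) (b (l 16777696) (a (c (l 16778280) (b (l 16777296) (l 316384740887))) (l 16777720)))) (a (l 3) (b (c (a (b (l 324437805495) (l 334638353095)) (l 16779624)) (c (a (b (l 329269642167) (l 339470189623)) (l 16777600)) (a (b (a (l 337859575543) (l 16777056)) (l 342691413751)) (l 318532223655)))) (c (a (l 3) (b (l 324974676487) (l 338396449559))) (a (l 3) (b (a (l 337322705303) (l 320142836679))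 (a (l 3) (l 337859576215)))))))) (b (l 16798824) (a (b (l 16777704) (a (b (l 16777840) (c (l 16778408) (l 320142837383))) (l 16777760))) (l 16777936))))) (b (a (l 3) (b (c (a (b (a (b (l 325511547479) (l 339470191463)) (l 310479164183)) (a (l 3) (l 330343385895))) (c (l 306721069975) (l 311016036087))) (c (a (b (a (l 334638351399) (l 315847870631)) (a (l 3) (l 335175222327))) (b (l 16777488) (l 317995355351))) (a (b (a (b (l 333564608183) (l 343765155543)) (l 322290320103)) (a (l 3) (b (l 334101479095) (l 343765155527)))) (b (l 16776952) (l 321753450103))))) (c (a (l 3) (a (b (l 330880256871) (l 3)) (b (l 314237260711) (l 330880256935)))) (a (l 3) (b (a (c (l 335175222359) (b (l 334101479079) (l 344302026423))) (b (l 16777312) (l 322290321047))) (a (l 3) (a (l 342691414455) (b (l 324437804007) (l 338933318055))))))))) (l 3))), by decide +kernel⟩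

def k24_pp_123 : ∃ t, chk3 f_pp_123 t 37 21 1 = true :=
  ⟨(l 3), by decide +kernel⟩

def k25_pp_123 : ∃ t, chk3 f_pp_123 t 38 20 1 = true :=
  ⟨(a (b (l 16796672) (b (a (b (l 16798952) (a (a (b (l 16777816) (c (l 314774131607) (l 321216579751))) (l 16777776)) (l 16777928))) (l 16777376)) (a (a (c (b (a (b (l 330880256999) (l 3)) (b (l 314774131655) (l 330880257063))) (l 3)) (b (a (b (c (l 335175222391) (l 338396446343)) (l 3)) (b (l 321216579591) (a (l 342154543543) (l 332490867063)))) (l 3))) (c (b (b (l 16778288) (l 312089779351)) (a (b (l 330343386199) (l 3)) (b (l 16778576) (l 329806515335)))) (b (b (l 16777232) (a (l 321216579415) (l 16777256))) (a (b (a (l 342154543543) (l 331953996151)) (l 3)) (b (l 320679708503) (a (l 341617672631) (l 331417125239))))))) (b (l 16799016) (a (a (b (l 16777880) (c (l 16778608) (l 320679708503))) (l 16777832)) (l 16777888)))))) (b (l 16776640) (l 16796440))), by decide +kernel⟩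

def k26_pp_123 : ∃ t, chk3 f_pp_123 t 38 21 1 = true :=
  ⟨(a (b (a (l 3) (b (a (c (b (c (l 327122161479) (a (l 335712094999) (l 324974676391))) (l 3)) (b (a (b (a (l 340543930807) (l 330880254327)) (l 3)) (b (l 16777336) (a (l 340007059879) (l 329806512487)))) (l 3))) (c (b (l 16781096) (a (l 333027741223) (l 322290322519))) (b (a (l 16777288) (l 16777224)) (a (b (a (l 338933318055) (l 328732770663)) (l 352891961831)) (b (l 16777328) (l 333027737975)))))) (a (l 3) (a (l 3) (b (c (l 349133869143) (l 353428832775)) (l 3)))))) (l 3)) (b (a (b (a (b (l 16777864) (c (l 16778528) (l 16777248))) (l 16778064)) (c (a (b (a (l 331953999463) (l 321216580775)) (l 349133869447)) (b (l 16778568) (a (l 330343386791) (l 319605968119)))) (a (b (a (b (l 331953996151) (l 351281349079)) (b (l 16777320) (l 330880254311))) (a (l 3) (l 351818220023))) (b (l 16777240) (c (l 329806518599) (a (l 337322704295) (l 326585285991))))))) (a (b (l 16778040) (c (l 16778480) (l 16777192))) (l 16783328))) (a (b (a (l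 3) (a (l 3) (b (c (l 346986385591) (l 350207607271)) (l 3)))) (l 3)) (c (b (a (b (a (l 328732774103) (l 316921617719)) (l 347523256775)) (b (l 16778656) (l 322827193911))) (a (l 3) (b (l 345912644071) (l 3)))) (b (a (b (a (b (l 327122157895) (l 346986381751)) (l 323364064535)) (a (l 3) (l 348596994503))) (b (l 16777224) (c (l 327122158775) (l 329269640471)))) (a (l 3) (b (a (l 3) (l 346449510823)) (l 3)))))))), by decide +kernel⟩

def k27_pp_123 : ∃ t, chk3 f_pp_123 t 39 10 1 = true :=
  ⟨(b (a (l 16797864) (l 16778088)) (c (a (b (l 16775928) (a (b (l 16799592) (a (b (l 321216581223) (l 344302031335)) (b (l 16778720) (l 317458491095)))) (b (l 16778336) (l 16778704)))) (l 16817128)) (a (b (l 16776384) (a (b (a (l 16777184) (l 16777232)) (a (b (a (l 329269641527) (l 16777296)) (a (l 354502574567) (l 343765156231))) (b (l 16777200) (a (l 326048416007) (l 16777272))))) (b (l 16777736) (l 16777168)))) (b (l 16776000) (l 16776816))))), by decide +kernel⟩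

def k28_pp_123 : ∃ t, chk3 f_pp_123 t 9 11 1 = true :=
  ⟨(a (l 3) (a (l 3) (b (a (c (b (a (b (a (l 3) (b (l 342691418599) (l 3))) (l 3)) (b (a (b (l 315311006823) (l 331954000359)) (l 16778928)) (a (l 355576321863) (b (l 331954000343) (l 351281354055))))) (l 3)) (b (a (b (a (l 3) (b (a (l 351281349063) (l 335175221607)) (l 3))) (l 3)) (b (a (b (l 321216582103) (a (l 348596994471) (l 329806512439))) (b (l 16777176) (l 16777264))) (a (b (l 355576316407) (l 3)) (b (l 337322705207) (l 353428832711))))) (l 3))) (b (a (b (l 16798944) (a (b (l 16778248) (c (l 323364065735) (l 328195899655))) (l 16778136))) (b (l 16778288) (l 16778040))) (a (c (b (a (l 351281354455) (l 325511549767)) (l 3)) (b (a (b (l 350744478119) (l 3)) (b (l 324974674119) (l 347523252599))) (l 3))) (b (a (b (l 16778232) (c (l 16779456) (l 320679710871))) (l 16778144)) (a (b (a (l 348060126263) (l 324437805847)) (l 354502577559)) (b (l 16778432) (a (l 328195902455) (l 317995358775)))))))) (a (l 3) (b (a (l 3) (a (l 3) (b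 (c (l 351281355031) (l 353965703623)) (l 3)))) (l 3)))))), by decide +kernel⟩

def k29_pp_123 : ∃ t, chk3 f_pp_123 t 5 5 1 = true :=
  ⟨(a (a (a (b (b (l 16778704) (a (l 16777032) (l 16778392))) (b (a (b (l 16776888) (a (a (b (l 16778080) (l 16778312)) (l 16820040)) (l 16778576))) (l 16837128)) (a (c (b (a (b (a (l 322827195783) (l 16779576)) (l 349133871591)) (b (l 16779208) (l 307794829367))) (a (l 3) (b (l 343765162183) (l 355039452807)))) (b (a (b (a (b (l 323364065639) (l 347523252567)) (l 16777224)) (a (l 3) (l 347523252567))) (b (l 16777112) (a (l 321216586983) (l 16777160)))) (a (l 3) (b (a (l 351818219927) (l 324437803191)) (l 357723800087))))) (b (a (b (l 16778600) (l 16778272)) (l 16778800)) (a (b (a (l 16778584) (l 16778408)) (a (b (l 317995361975) (l 347523256007)) (l 16778728))) (b (l 16778392) (l 16778472))))))) (a (b (l 16820984) (b (l 16777000) (b (l 16776248) (l 16841928)))) (b (l 16775408) (a (b (l 16779176) (l 16775104)) (a (b (l 16779264) (l 16777544)) (b (l 16778256)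 (l 16778704))))))) (b (l 16779336) (b (l 16785632) (l 16787440)))) (b (l 16806320) (b (l 16814280) (l 16810376)))), by decide +kernel⟩

def k30_pp_123 : ∃ t, chk3 f_pp_123 t 3 5 1 = true :=
  ⟨(a (b (a (l 16849768) (l 16848120)) (a (b (l 16840104) (l 16829680)) (b (l 16850624) (l 16849400)))) (a (b (l 16853208) (l 16864632)) (b (l 16859664) (l 16875328)))), by decide +kernel⟩

def k31_pp_123 : ∃ t, chk3 f_pp_123 t 4 6 1 = true :=
  ⟨(l 3), by decide +kernel⟩

def k32_pp_123 : ∃ t, chk3 f_pp_123 t 20 6 1 = true :=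
  ⟨(a (b (b (a (l 3) (b (a (b (a (l 357186933063) (b (l 319605974999) (l 350207610839))) (l 3)) (b (a (l 311552919495) (l 16778656)) (a (b (l 344838907783) (l 352355094743)) (l 310479178903)))) (a (l 3) (b (a (l 3) (l 343228289255)) (l 3))))) (l 3)) (l 3)) (b (a (b (b (a (b (l 16778488) (l 16778672)) (l 16778440)) (a (b (a (l 311552918647) (l 16778856)) (a (l 351281353111) (l 16779184))) (a (l 16794512) (l 16778584)))) (a (b (a (l 3) (b (l 351281353255) (l 3))) (l 3)) (b (a (b (l 16779264) (l 350744494903)) (b (l 16779016) (l 16779320))) (a (b (l 356650063111) (l 3)) (b (l 309942306983) (l 356650063143)))))) (a (b (b (l 16778616) (l 16778296)) (a (b (l 16778920) (b (l 16779368) (l 16779656))) (b (l 16778680) (b (l 16779112) (l 16779392))))) (a (a (b (l 16777960) (b (l 16778496) (l 16779072))) (b (l 16777832) (b (l 16778392) (l 16799944)))) (b (l 16777624) (b (l 16778264) (l 16778856)))))) (a (l 3) (a (b (b (a (b (l 356113206007) (l 3)) (b (l 16779664) (l 358797568487))) (a (l 3) (b (l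 359871310551) (l 3)))) (l 3)) (a (b (a (b (l 16800568) (b (l 16779952) (l 16780168))) (a (b (l 16779512) (l 16800936)) (b (l 16779464) (l 16800880)))) (b (a (b (l 404431593991) (l 3)) (b (a (l 16779968) (l 16779896)) (a (l 16779696) (l 16779736)))) (a (l 3) (c (l 16825440) (l 344302119495))))) (b (b (b (l 16779240) (l 16779472)) (b (l 16779680) (l 16779864))) (b (b (a (l 16790296) (l 16779752)) (a (l 16779840) (l 16780128))) (b (l 16803328) (l 16780656))))))))), by decide +kernel⟩

def k33_pp_123 : ∃ t, chk3 f_pp_123 t 21 6 1 = true :=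
  ⟨(b (a (b (l 16779904) (a (l 16820784) (l 16778720))) (b (l 16785400) (l 16779296))) (b (a (a (b (l 16779400) (c (l 16801872) (l 16851680))) (l 16848192)) (b (l 16778640) (l 16778152))) (a (a (b (b (l 16780800) (l 16785600)) (b (l 16780256) (l 16776592))) (b (l 16779096) (l 16775592))) (b (l 16777040) (l 16775824))))), by decide +kernel⟩

def k34_pp_123 : ∃ t, chk3 f_pp_123 t 11 6 1 = true :=
  ⟨(b (a (b (l 16793024) (l 16785528)) (b (l 16802936) (l 16796552))) (b (a (b (l 16782920) (l 16782288)) (l 16772648)) (a (b (l 16781384) (a (l 16778144) (l 16781152))) (b (l 16789872) (l 16784800))))), by decide +kernel⟩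

def k35_pp_123 : ∃ t, chk3 f_pp_123 t 3 6 1 = true :=
  ⟨(a (b (a (b (a (l 16814288) (l 16827128)) (a (l 16809280) (l 16821456))) (b (l 16844184) (l 16855712))) (a (b (a (l 16804080) (l 16812520)) (a (l 16792936) (l 16798728))) (b (l 16823384) (l 1)))) (b (a (b (l 16860208) (l 1)) (l 1)) (l 1))), by decide +kernel⟩

def k36_pp_123 : ∃ t, chk3 f_pp_123 t 4 7 1 = true :=
  ⟨(b (l 3) (l 3)), by decide +kernel⟩

def k37_pp_123 : ∃ t, chk3 f_pp_123 t 40 14 1 = true :=
  ⟨(l 3), by decide +kernel⟩

def k38_pp_123 : ∃ t, chk3 f_pp_123 t 82 14 1 = true :=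
  ⟨(l 3), by decide +kernel⟩

def k39_pp_123 : ∃ t, chk3 f_pp_123 t 166 14 1 = true :=
  ⟨(b (l 3) (b (b (l 3) (b (l 3) (a (l 3) (a (l 3) (a (l 3) (b (l 239612226711) (l 151028525719))))))) (b (a (l 3) (c (a (b (l 3) (l 218674261847)) (b (l 148344173111) (l 16781752))) (a (l 233169766551) (b (l 16772808) (l 16772184))))) (l 1)))), by decide +kernel⟩

def k40_pp_123 : ∃ t, chk3 f_pp_123 t 167 14 1 = true :=
  ⟨(b (a (a (l 3) (b (l 3) (b (a (l 3) (l 16773576)) (a (b (l 3) (c (b (l 16782136) (l 16783016)) (l 16772424))) (b (l 16775920) (c (a (l 16782624) (l 16782648)) (l 16772288))))))) (b (b (b (l 16776888) (l 16775496)) (a (l 16795312) (l 16774168))) (b (a (a (a (l 16773528) (l 16773512)) (l 16773504)) (l 16773496)) (a (a (a (b (l 16775896) (l 16798256)) (b (l 16775880) (l 16777264))) (b (l 16775856) (l 16777232))) (b (l 16775800) (l 16777144)))))) (a (b (a (a (b (l 3) (b (c (l 243907195687) (l 16773104)) (c (l 16782712) (l 16772688)))) (b (c (b (b (l 3) (l 277193191399)) (b (l 168208395863)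 (l 159081589927))) (b (b (l 3) (l 16773272)) (l 16773080))) (b (c (c (l 16785824) (l 16780360)) (l 16772752)) (c (l 16782480) (l 16772312))))) (b (a (a (b (b (c (b (l 16783656) (l 152102267959)) (l 16773088)) (c (l 16783728) (l 16773064))) (c (l 16793904) (l 16772872))) (b (c (b (b (l 16783672) (l 16783808)) (l 16783672)) (l 16772968)) (c (l 16783352) (l 16772744)))) (b (c (a (b (c (l 16786608) (l 16780896)) (l 16783616)) (l 16794112)) (a (l 16772864) (l 16772752))) (c (a (l 16783296) (l 16783240)) (l 16772560)))) (a (b (c (l 16782888) (l 16772456)) (l 16797968)) (b (c (l 16782760) (l 16772200)) (l 16797760))))) (b (b (a (a (l 16797912) (l 16776624)) (a (l 16776360) (l 16776136))) (a (c (l 16781128) (l 16771280)) (l 1))) (l 1))) (b (b (a (a (a (b (c (l 16783584) (l 16772640)) (l 16777624)) (b (l 16777880) (l 16777536))) (b (l 16777760) (l 16777392))) (b (l 16777504) (l 16777112))) (a (a (a (b (l 16777176) (l 16776624)) (l 16797784)) (l 16776656)) (l 16776336))) (b (a (a (a (l 16775584)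 (l 16775456)) (l 16775280)) (l 16774904)) (l 1))))), by decide +kernel⟩

def k41_pp_123 : ∃ t, chk3 f_pp_123 t 21 14 1 = true :=
  ⟨(b (b (a (b (l 16774288) (l 16773400)) (b (l 16774608) (l 16773480))) (a (a (b (l 16773392) (b (l 16775408) (a (l 16776624) (l 16775520)))) (b (l 16772896) (l 16773448))) (b (l 16771632) (l 16769048)))) (b (a (a (b (a (l 16797344) (l 16774776)) (l 16795328)) (l 16792328)) (l 16765360)) (a (b (a (l 16772592) (l 1)) (l 1)) (l 1)))), by decide +kernel⟩

def k42_pp_123 : ∃ t, chk3 f_pp_123 t 11 14 1 = true :=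
  ⟨(b (a (b (a (l 16775016) (l 16775904)) (l 16768776)) (l 37614540919)) (l 1)), by decide +kernel⟩

def k43_pp_123 : ∃ t, chk3 f_pp_123 t 5 15 1 = true :=
  ⟨(a (a (a (b (l 3) (l 1)) (l 1)) (l 1)) (l 1)), by decide +kernel⟩

def k44_pp_123 : ∃ t, chk3 f_pp_123 t 3 7 1 = true :=
  ⟨(l 1), by decide +kernel⟩

theorem s45_pp_123 : ∃ t, chk3 f_pp_123 t 83 14 1 = true := ex3_a k39_pp_123 k40_pp_123

theorem s46_pp_123 : ∃ t, chk3 f_pp_123 t 41 14 1 = true := ex3_a k38_pp_123 s45_pp_123

theorem s47_pp_123 : ∃ t, chk3 f_pp_123 t 20 14 1 = true := ex3_a k37_pp_123 s46_pp_123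

theorem s48_pp_123 : ∃ t, chk3 f_pp_123 t 10 14 1 = true := ex3_a s47_pp_123 k41_pp_123

theorem s49_pp_123 : ∃ t, chk3 f_pp_123 t 5 14 1 = true := ex3_a s48_pp_123 k42_pp_123

theorem s50_pp_123 : ∃ t, chk3 f_pp_123 t 5 7 1 = true := ex3_b s49_pp_123 k43_pp_123

theorem s51_pp_123 : ∃ t, chk3 f_pp_123 t 2 7 1 = true := ex3_a k36_pp_123 s50_pp_123

theorem s52_pp_123 : ∃ t, chk3 f_pp_123 t 1 7 1 = true := ex3_a s51_pp_123 k44_pp_123

theorem s53_pp_123 : ∃ t, chk3 f_pp_123 t 10 6 1 = true := ex3_a k32_pp_123 k33_pp_123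

theorem s54_pp_123 : ∃ t, chk3 f_pp_123 t 5 6 1 = true := ex3_a s53_pp_123 k34_pp_123

theorem s55_pp_123 : ∃ t, chk3 f_pp_123 t 2 6 1 = true := ex3_a k31_pp_123 s54_pp_123

theorem s56_pp_123 : ∃ t, chk3 f_pp_123 t 1 6 1 = true := ex3_a s55_pp_123 k35_pp_123

theorem s57_pp_123 : ∃ t, chk3 f_pp_123 t 1 3 1 = true := ex3_b s56_pp_123 s52_pp_123

theorem s58_pp_123 : ∃ t, chk3 f_pp_123 t 38 10 1 = true := ex3_b k25_pp_123 k26_pp_123

theorem s59_pp_123 : ∃ t, chk3 f_pp_123 t 19 10 1 = true := ex3_a s58_pp_123 k27_pp_123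

theorem s60_pp_123 : ∃ t, chk3 f_pp_123 t 37 20 1 = true := ex3_a k22_pp_123 k23_pp_123

theorem s61_pp_123 : ∃ t, chk3 f_pp_123 t 37 10 1 = true := ex3_b s60_pp_123 k24_pp_123

theorem s62_pp_123 : ∃ t, chk3 f_pp_123 t 18 10 1 = true := ex3_a k21_pp_123 s61_pp_123

theorem s63_pp_123 : ∃ t, chk3 f_pp_123 t 9 10 1 = true := ex3_a s62_pp_123 s59_pp_123

theorem s64_pp_123 : ∃ t, chk3 f_pp_123 t 9 5 1 = true := ex3_b s63_pp_123 k28_pp_123

theorem s65_pp_123 : ∃ t, chk3 f_pp_123 t 4 5 1 = true := ex3_a k20_pp_123 s64_pp_123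

theorem s66_pp_123 : ∃ t, chk3 f_pp_123 t 2 5 1 = true := ex3_a s65_pp_123 k29_pp_123

theorem s67_pp_123 : ∃ t, chk3 f_pp_123 t 1 5 1 = true := ex3_a s66_pp_123 k30_pp_123

theorem s68_pp_123 : ∃ t, chk3 f_pp_123 t 73 39 1 = true := ex3_b k14_pp_123 k15_pp_123

theorem s69_pp_123 : ∃ t, chk3 f_pp_123 t 36 39 1 = true := ex3_a k13_pp_123 s68_pp_123

theorem s70_pp_123 : ∃ t, chk3 f_pp_123 t 72 38 1 = true := ex3_b k10_pp_123 k11_pp_123

theorem s71_pp_123 : ∃ t, chk3 f_pp_123 t 36 38 1 = true := ex3_a s70_pp_123 k12_pp_123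

theorem s72_pp_123 : ∃ t, chk3 f_pp_123 t 36 19 1 = true := ex3_b s71_pp_123 s69_pp_123

theorem s73_pp_123 : ∃ t, chk3 f_pp_123 t 18 19 1 = true := ex3_a s72_pp_123 k16_pp_123

theorem s74_pp_123 : ∃ t, chk3 f_pp_123 t 18 9 1 = true := ex3_b k9_pp_123 s73_pp_123

theorem s75_pp_123 : ∃ t, chk3 f_pp_123 t 9 9 1 = true := ex3_a s74_pp_123 k17_pp_123

theorem s76_pp_123 : ∃ t, chk3 f_pp_123 t 9 4 1 = true := ex3_b k8_pp_123 s75_pp_123

theorem s77_pp_123 : ∃ t, chk3 f_pp_123 t 71 37 1 = true := ex3_b k5_pp_123 k6_pp_123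

theorem s78_pp_123 : ∃ t, chk3 f_pp_123 t 35 37 1 = true := ex3_a k4_pp_123 s77_pp_123

theorem s79_pp_123 : ∃ t, chk3 f_pp_123 t 35 18 1 = true := ex3_b k3_pp_123 s78_pp_123

theorem s80_pp_123 : ∃ t, chk3 f_pp_123 t 17 18 1 = true := ex3_a k2_pp_123 s79_pp_123

theorem s81_pp_123 : ∃ t, chk3 f_pp_123 t 17 9 1 = true := ex3_b s80_pp_123 k7_pp_123

theorem s82_pp_123 : ∃ t, chk3 f_pp_123 t 8 9 1 = true := ex3_a k1_pp_123 s81_pp_123

theorem s83_pp_123 : ∃ t, chk3 f_pp_123 t 8 4 1 = true := ex3_b k0_pp_123 s82_pp_123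

theorem s84_pp_123 : ∃ t, chk3 f_pp_123 t 4 4 1 = true := ex3_a s83_pp_123 s76_pp_123

theorem s85_pp_123 : ∃ t, chk3 f_pp_123 t 2 4 1 = true := ex3_a s84_pp_123 k18_pp_123

theorem s86_pp_123 : ∃ t, chk3 f_pp_123 t 1 4 1 = true := ex3_a s85_pp_123 k19_pp_123

theorem s87_pp_123 : ∃ t, chk3 f_pp_123 t 1 2 1 = true := ex3_b s86_pp_123 s67_pp_123

theorem s88_pp_123 : ∃ t, chk3 f_pp_123 t 1 1 1 = true := ex3_b s87_pp_123 s57_pp_123

theorem c_pp_123 : CertN 536870912 536870912 0 1230186008 469762048 67108864 3 false true true .npn 1 2 3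
    ndN0q1 ndN4q3 pcN2 cut_pp_123 Ext.none :=
  certN2 (fam := false) (s1 := true) (s2 := true) (a := 1) (b := 2) (c := 3) (cn := .npn) (n1 := ndN0q1) (n2 := ndN4q3) (pc := pcN2) (cut := cut_pp_123) (xt := Ext.none) (P1 := 536870912) (W1 := 536870912) (P2 := 0) (W2 := 1230186008) (P3 := 469762048) (W3 := 67108864) (N0 := 3)
    rfl (fun _ => rfl) s88_pp_123

noncomputable def f_pp_133 : ℕ → ℕ → ℕ → ℕ → Bool := onCell 1610612736 536870912 0 1230186008 469762048 67108864
    (rowN 3 2 false true true .dn 1 3 3 (qsf 536870912 536870912 0 1230186008 3) ndN0q1 ndN4q3 pcN3 Cut.none Ext.none)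

def k0_pp_133 : ∃ t, chk3 f_pp_133 t 1 1 1 = true :=
  ⟨(b (b (a (a (a (l 1524747582071) (l 1)) (l 1)) (l 1)) (l 1)) (l 1)), by decide +kernel⟩

theorem c_pp_133 : CertN 536870912 536870912 0 1230186008 469762048 67108864 3 false true true .dn 1 3 3
    ndN0q1 ndN4q3 pcN3 Cut.none Ext.none :=
  certN2 (fam := false) (s1 := true) (s2 := true) (a := 1) (b := 3) (c := 3) (cn := .dn) (n1 := ndN0q1) (n2 := ndN4q3) (pc := pcN3) (cut := Cut.none) (xt := Ext.none) (P1 := 536870912) (W1 := 536870912) (P2 := 0) (W2 := 1230186008) (P3 := 469762048) (W3 := 67108864) (N0 := 3)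
    rfl (fun _ => rfl) k0_pp_133

noncomputable def f_pp_202 : ℕ → ℕ → ℕ → ℕ → Bool := onCell 0 536870912 1073741824 536870912 469762048 67108864
    (rowN 3 0 false true true .pp 2 0 2 (qsf 0 536870912 1073741824 536870912 0) ndN0q2 ndN4q2 pcN0 Cut.none Ext.none)

def k0_pp_202 : ∃ t, chk3 f_pp_202 t 1 1 1 = true :=
  ⟨(l 5), by decide +kernel⟩

theorem c_pp_202 : CertN 0 536870912 1073741824 536870912 469762048 67108864 3 false true true .pp 2 0 2
    ndN0q2 ndN4q2 pcN0 Cut.none Ext.none :=
  certN0 (fam := false) (s1 := true) (s2 := true) (a := 2) (b := 0) (c := 2) (cn := .pp) (n1 := ndN0q2) (n2 := ndN4q2) (pc := pcN0) (cut := Cut.none) (xt := Ext.none) (P1 := 0) (W1 := 536870912) (P2 := 1073741824) (W2 := 536870912) (P3 := 469762048) (W3 := 67108864) (N0 := 3)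
    rfl k0_pp_202

noncomputable def f_pp_203 : ℕ → ℕ → ℕ → ℕ → Bool := onCell 0 536870912 0 1230186008 469762048 67108864
    (rowN 3 0 false true true .up 2 0 3 (qsf 0 536870912 0 1230186008 0) ndN0q2 ndN4q3 pcN0 Cut.none Ext.none)

def k0_pp_203 : ∃ t, chk3 f_pp_203 t 1 1 1 = true :=
  ⟨(b (l 2) (b (l 2) (a (l 5) (l 3)))), by decide +kernel⟩

theorem c_pp_203 : CertN 0 536870912 0 1230186008 469762048 67108864 3 false true true .up 2 0 3
    ndN0q2 ndN4q3 pcN0 Cut.none Ext.none :=
  certN0 (fam := false) (s1 := true) (s2 := true) (a := 2) (b := 0) (c := 3) (cn := .up) (n1 := ndN0q2) (n2 := ndN4q3) (pc := pcN0) (cut := Cut.none) (xt := Ext.none) (P1 := 0) (W1 := 536870912) (P2 := 0) (W2 := 1230186008) (P3 := 469762048) (W3 := 67108864) (N0 := 3)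
    rfl k0_pp_203

noncomputable def cut_pp_213 : Cut := Cut.of [[⟨0, 1, 0, 67108864⟩, ⟨1, 1, 0, 67108864⟩, ⟨2, 2, 0, 16777216⟩]]

noncomputable def f_pp_213 : ℕ → ℕ → ℕ → ℕ → Bool := onCell 0 536870912 0 1230186008 469762048 67108864
    (rowN 3 0 false true true .pnn 2 1 3 (qsf 0 536870912 0 1230186008 1) ndN0q2 ndN4q3 pcN1 cut_pp_213 Ext.none)

def k0_pp_213 : ∃ t, chk3 f_pp_213 t 1 1 1 = true :=
  ⟨(a (b (l 3) (l 5)) (b (b (a (l 3) (b (a (l 3) (l 6)) (l 3))) (l 3)) (b (l 3) (l 3)))), by decide +kernel⟩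

theorem c_pp_213 : CertN 0 536870912 0 1230186008 469762048 67108864 3 false true true .pnn 2 1 3
    ndN0q2 ndN4q3 pcN1 cut_pp_213 Ext.none :=
  certN0 (fam := false) (s1 := true) (s2 := true) (a := 2) (b := 1) (c := 3) (cn := .pnn) (n1 := ndN0q2) (n2 := ndN4q3) (pc := pcN1) (cut := cut_pp_213) (xt := Ext.none) (P1 := 0) (W1 := 536870912) (P2 := 0) (W2 := 1230186008) (P3 := 469762048) (W3 := 67108864) (N0 := 3)
    rfl k0_pp_213

noncomputable def f_pm_001 : ℕ → ℕ → ℕ → ℕ → Bool := onCell 0 536870912 536870912 536870912 469762048 67108864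
    (rowN 3 0 false true false .up 0 0 1 (qsf 0 536870912 536870912 536870912 0) ndN0q0 ndN4q1 pcN0 Cut.none Ext.none)

def k0_pm_001 : ∃ t, chk3 f_pm_001 t 1 1 1 = true :=
  ⟨(l 4), by decide +kernel⟩

theorem c_pm_001 : CertN 0 536870912 536870912 536870912 469762048 67108864 3 false true false .up 0 0 1
    ndN0q0 ndN4q1 pcN0 Cut.none Ext.none :=
  certN0 (fam := false) (s1 := true) (s2 := false) (a := 0) (b := 0) (c := 1) (cn := .up) (n1 := ndN0q0) (n2 := ndN4q1) (pc := pcN0) (cut := Cut.none) (xt := Ext.none) (P1 := 0) (W1 := 536870912) (P2 := 536870912) (W2 := 536870912) (P3 := 469762048) (W3 := 67108864) (N0 := 3)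
    rfl k0_pm_001

noncomputable def f_pm_011 : ℕ → ℕ → ℕ → ℕ → Bool := onCell 0 536870912 536870912 536870912 469762048 67108864
    (rowN 3 0 false true false .pnn 0 1 1 (qsf 0 536870912 536870912 536870912 1) ndN0q0 ndN4q1 pcN1 Cut.none Ext.none)

def k0_pm_011 : ∃ t, chk3 f_pm_011 t 1 1 1 = true :=
  ⟨(l 4), by decide +kernel⟩

theorem c_pm_011 : CertN 0 536870912 536870912 536870912 469762048 67108864 3 false true false .pnn 0 1 1
    ndN0q0 ndN4q1 pcN1 Cut.none Ext.none :=
  certN0 (fam := false) (s1 := true) (s2 := false) (a := 0) (b := 1) (c := 1) (cn := .pnn) (n1 := ndN0q0) (n2 := ndN4q1) (pc := pcN1) (cut := Cut.none) (xt := Ext.none) (P1 := 0) (W1 := 536870912) (P2 := 536870912) (W2 := 536870912) (P3 := 469762048) (W3 := 67108864) (N0 := 3)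
    rfl k0_pm_011

noncomputable def f_pm_012 : ℕ → ℕ → ℕ → ℕ → Bool := onCell 0 536870912 1073741824 536870912 469762048 67108864
    (rowN 3 0 false true false .pnp 0 1 2 (qsf 0 536870912 1073741824 536870912 1) ndN0q0 ndN4q2 pcN1 Cut.none Ext.none)

def k0_pm_012 : ∃ t, chk3 f_pm_012 t 1 1 1 = true :=
  ⟨(l 4), by decide +kernel⟩

theorem c_pm_012 : CertN 0 536870912 1073741824 536870912 469762048 67108864 3 false true false .pnp 0 1 2
    ndN0q0 ndN4q2 pcN1 Cut.none Ext.none :=
  certN0 (fam := false) (s1 := true) (s2 := false) (a := 0) (b := 1) (c := 2) (cn := .pnp) (n1 := ndN0q0) (n2 := ndN4q2) (pc := pcN1) (cut := Cut.none) (xt := Ext.none) (P1 := 0) (W1 := 536870912) (P2 := 1073741824) (W2 := 536870912) (P3 := 469762048) (W3 := 67108864) (N0 := 3)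
    rfl k0_pm_012

noncomputable def f_pm_022 : ℕ → ℕ → ℕ → ℕ → Bool := onCell 0 536870912 1073741824 536870912 469762048 67108864
    (rowN 3 0 false true false .pp 0 2 2 (qsf 0 536870912 1073741824 536870912 2) ndN0q0 ndN4q2 pcN2 Cut.none Ext.none)

def k0_pm_022 : ∃ t, chk3 f_pm_022 t 1 1 1 = true :=
  ⟨(l 4), by decide +kernel⟩

theorem c_pm_022 : CertN 0 536870912 1073741824 536870912 469762048 67108864 3 false true false .pp 0 2 2
    ndN0q0 ndN4q2 pcN2 Cut.none Ext.none :=
  certN0 (fam := false) (s1 := true) (s2 := false) (a := 0) (b := 2) (c := 2) (cn := .pp) (n1 := ndN0q0) (n2 := ndN4q2) (pc := pcN2) (cut := Cut.none) (xt := Ext.none) (P1 := 0) (W1 := 536870912) (P2 := 1073741824) (W2 := 536870912) (P3 := 469762048) (W3 := 67108864) (N0 := 3)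
    rfl k0_pm_022

noncomputable def f_pm_023 : ℕ → ℕ → ℕ → ℕ → Bool := onCell 0 536870912 0 1230186008 469762048 67108864
    (rowN 3 0 false true false .up 0 2 3 (qsf 0 536870912 0 1230186008 2) ndN0q0 ndN4q3 pcN2 Cut.none Ext.none)

def k0_pm_023 : ∃ t, chk3 f_pm_023 t 1 1 1 = true :=
  ⟨(a (b (l 2) (l 4)) (b (a (l 2) (b (a (l 2) (l 16869160)) (b (l 4) (l 4)))) (l 4))), by decide +kernel⟩

theorem c_pm_023 : CertN 0 536870912 0 1230186008 469762048 67108864 3 false true false .up 0 2 3
    ndN0q0 ndN4q3 pcN2 Cut.none Ext.none :=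
  certN0 (fam := false) (s1 := true) (s2 := false) (a := 0) (b := 2) (c := 3) (cn := .up) (n1 := ndN0q0) (n2 := ndN4q3) (pc := pcN2) (cut := Cut.none) (xt := Ext.none) (P1 := 0) (W1 := 536870912) (P2 := 0) (W2 := 1230186008) (P3 := 469762048) (W3 := 67108864) (N0 := 3)
    rfl k0_pm_023

noncomputable def f_pm_033 : ℕ → ℕ → ℕ → ℕ → Bool := onCell 1610612736 536870912 0 1230186008 469762048 67108864
    (rowN 3 2 false true false .pnn 0 3 3 (qsf 0 536870912 0 1230186008 3) ndN0q0 ndN4q3 pcN3 Cut.none Ext.none)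

def k0_pm_033 : ∃ t, chk3 f_pm_033 t 1 1 1 = true :=
  ⟨(b (b (a (a (a (l 16853504) (b (l 16857920) (l 16873048))) (l 16969440)) (l 4)) (l 4)) (l 4)), by decide +kernel⟩

theorem c_pm_033 : CertN 0 536870912 0 1230186008 469762048 67108864 3 false true false .pnn 0 3 3
    ndN0q0 ndN4q3 pcN3 Cut.none Ext.none :=
  certN2 (fam := false) (s1 := true) (s2 := false) (a := 0) (b := 3) (c := 3) (cn := .pnn) (n1 := ndN0q0) (n2 := ndN4q3) (pc := pcN3) (cut := Cut.none) (xt := Ext.none) (P1 := 0) (W1 := 536870912) (P2 := 0) (W2 := 1230186008) (P3 := 469762048) (W3 := 67108864) (N0 := 3)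
    rfl (fun _ => rfl) k0_pm_033

noncomputable def f_pm_101 : ℕ → ℕ → ℕ → ℕ → Bool := onCell 536870912 536870912 536870912 536870912 469762048 67108864
    (rowN 3 0 false true false .npn 1 0 1 (qsf 536870912 536870912 536870912 536870912 0) ndN0q1 ndN4q1 pcN0 Cut.none Ext.none)

def k0_pm_101 : ∃ t, chk3 f_pm_101 t 1 1 1 = true :=
  ⟨(l 4), by decide +kernel⟩

theorem c_pm_101 : CertN 536870912 536870912 536870912 536870912 469762048 67108864 3 false true false .npn 1 0 1
    ndN0q1 ndN4q1 pcN0 Cut.none Ext.none :=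
  certN0 (fam := false) (s1 := true) (s2 := false) (a := 1) (b := 0) (c := 1) (cn := .npn) (n1 := ndN0q1) (n2 := ndN4q1) (pc := pcN0) (cut := Cut.none) (xt := Ext.none) (P1 := 536870912) (W1 := 536870912) (P2 := 536870912) (W2 := 536870912) (P3 := 469762048) (W3 := 67108864) (N0 := 3)
    rfl k0_pm_101

noncomputable def f_pm_102 : ℕ → ℕ → ℕ → ℕ → Bool := onCell 536870912 536870912 0 536870912 469762048 67108864
    (rowN 3 1 false true false .npp 1 0 2 (qsf 536870912 536870912 1073741824 536870912 0) ndN0q1 ndN4q2 pcN0 Cut.none Ext.none)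

def k0_pm_102 : ∃ t, chk3 f_pm_102 t 1 1 1 = true :=
  ⟨(a (l 4) (b (l 4) (a (l 4) (b (l 4) (b (l 4) (a (l 4) (l 17061120))))))), by decide +kernel⟩

theorem c_pm_102 : CertN 536870912 536870912 1073741824 536870912 469762048 67108864 3 false true false .npp 1 0 2
    ndN0q1 ndN4q2 pcN0 Cut.none Ext.none :=
  certN1 (fam := false) (s1 := true) (s2 := false) (a := 1) (b := 0) (c := 2) (cn := .npp) (n1 := ndN0q1) (n2 := ndN4q2) (pc := pcN0) (cut := Cut.none) (xt := Ext.none) (P1 := 536870912) (W1 := 536870912) (P2 := 1073741824) (W2 := 536870912) (P3 := 469762048) (W3 := 67108864) (N0 := 3)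
    rfl (fun _ => rfl) k0_pm_102

noncomputable def f_pm_112 : ℕ → ℕ → ℕ → ℕ → Bool := onCell 536870912 536870912 1073741824 536870912 469762048 67108864
    (rowN 3 0 false true false .dn 1 1 2 (qsf 536870912 536870912 1073741824 536870912 1) ndN0q1 ndN4q2 pcN1 Cut.none Ext.none)

def k0_pm_112 : ∃ t, chk3 f_pm_112 t 1 1 1 = true :=
  ⟨(a (l 4) (b (l 4) (a (l 4) (b (l 4) (b (l 4) (l 17063744)))))), by decide +kernel⟩

theorem c_pm_112 : CertN 536870912 536870912 1073741824 536870912 469762048 67108864 3 false true false .dn 1 1 2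
    ndN0q1 ndN4q2 pcN1 Cut.none Ext.none :=
  certN0 (fam := false) (s1 := true) (s2 := false) (a := 1) (b := 1) (c := 2) (cn := .dn) (n1 := ndN0q1) (n2 := ndN4q2) (pc := pcN1) (cut := Cut.none) (xt := Ext.none) (P1 := 536870912) (W1 := 536870912) (P2 := 1073741824) (W2 := 536870912) (P3 := 469762048) (W3 := 67108864) (N0 := 3)
    rfl k0_pm_112

noncomputable def cut_pm_113 : Cut := Cut.of [[⟨0, 1, 0, 67108864⟩, ⟨1, 1, 0, 67108864⟩, ⟨2, 2, 0, 16777216⟩]]

noncomputable def f_pm_113 : ℕ → ℕ → ℕ → ℕ → Bool := onCell 536870912 536870912 0 1230186008 469762048 67108864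
    (rowN 3 0 false true false .nn 1 1 3 (qsf 536870912 536870912 0 1230186008 1) ndN0q1 ndN4q3 pcN1 cut_pm_113 Ext.none)

def k0_pm_113 : ∃ t, chk3 f_pm_113 t 1 1 1 = true :=
  ⟨(b (a (l 2) (a (l 2) (b (a (l 2) (a (l 2) (b (l 6) (l 16805808)))) (a (b (l 16920320) (l 16962968)) (b (l 17058472) (l 16892224)))))) (b (b (a (l 2) (a (a (l 2) (l 17088632)) (a (l 17006616) (l 16946568)))) (a (l 4) (a (a (l 17223416) (l 47346470247)) (a (b (l 17036808) (l 17056872)) (l 16993712))))) (a (l 4) (a (b (b (l 17123768) (l 17106824)) (l 4)) (b (b (a (l 17071216) (l 17022776)) (a (l 17078128) (l 17040128))) (b (a (l 17077784) (b (l 17050640) (a (l 17063168) (l 17048280)))) (l 17068968))))))), by decide +kernel⟩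

theorem c_pm_113 : CertN 536870912 536870912 0 1230186008 469762048 67108864 3 false true false .nn 1 1 3
    ndN0q1 ndN4q3 pcN1 cut_pm_113 Ext.none :=
  certN0 (fam := false) (s1 := true) (s2 := false) (a := 1) (b := 1) (c := 3) (cn := .nn) (n1 := ndN0q1) (n2 := ndN4q3) (pc := pcN1) (cut := cut_pm_113) (xt := Ext.none) (P1 := 536870912) (W1 := 536870912) (P2 := 0) (W2 := 1230186008) (P3 := 469762048) (W3 := 67108864) (N0 := 3)
    rfl k0_pm_113

noncomputable def cut_pm_123 : Cut := Cut.of [[⟨0, 1, 0, 67108864⟩, ⟨1, 1, 0, 67108864⟩, ⟨2, 2, 0, 16777216⟩]]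

noncomputable def f_pm_123 : ℕ → ℕ → ℕ → ℕ → Bool := onCell 1073741824 536870912 0 1230186008 469762048 67108864
    (rowN 3 2 false true false .npn 1 2 3 (qsf 536870912 536870912 0 1230186008 2) ndN0q1 ndN4q3 pcN2 cut_pm_123 Ext.none)

def k0_pm_123 : ∃ t, chk3 f_pm_123 t 1 1 1 = true :=
  ⟨(b (b (a (a (a (a (b (l 6) (l 16856152)) (b (l 16849424) (l 16817616))) (b (a (l 16788952) (l 16791248)) (l 16823960))) (b (a (l 16839160) (l 16805176)) (a (l 16832952) (l 16842232)))) (a (b (a (l 16818952) (l 16832408)) (a (l 16851240) (l 16860496))) (a (b (l 16847048) (l 16870528)) (l 16868672)))) (a (a (b (a (l 16874736) (l 16880632)) (a (b (l 16934712) (l 16985736)) (l 16958368))) (b (a (l 16885584) (l 16891056)) (a (l 16953520) (l 16947176)))) (a (a (b (l 16894584) (l 16937520)) (l 17031688)) (b (a (l 16898432) (l 16895120)) (l 4))))) (b (a (a (b (a (l 17064768) (l 17037360)) (a (b (l 17119272) (l 4)) (l 17100784))) (b (a (l 17009184) (l 16978400)) (l 4))) (l 4)) (l 4))), by decide +kernel⟩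

theorem c_pm_123 : CertN 536870912 536870912 0 1230186008 469762048 67108864 3 false true false .npn 1 2 3
    ndN0q1 ndN4q3 pcN2 cut_pm_123 Ext.none :=
  certN2 (fam := false) (s1 := true) (s2 := false) (a := 1) (b := 2) (c := 3) (cn := .npn) (n1 := ndN0q1) (n2 := ndN4q3) (pc := pcN2) (cut := cut_pm_123) (xt := Ext.none) (P1 := 536870912) (W1 := 536870912) (P2 := 0) (W2 := 1230186008) (P3 := 469762048) (W3 := 67108864) (N0 := 3)
    rfl (fun _ => rfl) k0_pm_123

noncomputable def f_pm_133 : ℕ → ℕ → ℕ → ℕ → Bool := onCell 1610612736 536870912 0 1230186008 469762048 67108864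
    (rowN 3 2 false true false .dn 1 3 3 (qsf 536870912 536870912 0 1230186008 3) ndN0q1 ndN4q3 pcN3 Cut.none Ext.none)

def k0_pm_133 : ∃ t, chk3 f_pm_133 t 1 1 1 = true :=
  ⟨(b (b (a (a (a (l 16852928) (l 1)) (l 1)) (l 1)) (l 1)) (l 1)), by decide +kernel⟩

theorem c_pm_133 : CertN 536870912 536870912 0 1230186008 469762048 67108864 3 false true false .dn 1 3 3
    ndN0q1 ndN4q3 pcN3 Cut.none Ext.none :=
  certN2 (fam := false) (s1 := true) (s2 := false) (a := 1) (b := 3) (c := 3) (cn := .dn) (n1 := ndN0q1) (n2 := ndN4q3) (pc := pcN3) (cut := Cut.none) (xt := Ext.none) (P1 := 536870912) (W1 := 536870912) (P2 := 0) (W2 := 1230186008) (P3 := 469762048) (W3 := 67108864) (N0 := 3)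
    rfl (fun _ => rfl) k0_pm_133

noncomputable def f_pm_202 : ℕ → ℕ → ℕ → ℕ → Bool := onCell 0 536870912 0 536870912 469762048 67108864
    (rowN 3 1 false true false .pp 2 0 2 (qsf 0 536870912 1073741824 536870912 0) ndN0q2 ndN4q2 pcN0 Cut.none Ext.none)

def k0_pm_202 : ∃ t, chk3 f_pm_202 t 1 1 1 = true :=
  ⟨(a (b (b (b (a (b (l 16800080) (l 16819976)) (b (l 16925656) (l 16930960))) (a (a (l 16781224) (l 16861976)) (b (l 16941072) (l 16953176)))) (a (b (a (l 16738816) (l 16872760)) (a (l 16866688) (l 16900816))) (b (a (l 16956208) (l 17005352)) (a (l 16962608) (l 17050824))))) (b (b (a (b (a (l 16772048) (l 16831496)) (l 16850664)) (b (a (l 16931904) (l 17075928)) (a (l 16974800) (l 17089784)))) (a (a (l 195522294119) (l 16916112)) (a (l 17022976) (b (l 17073904) (l 17021784))))) (b (a (l 2) (l 17031448)) (l 2)))) (b (b (a (b (b (a (l 16989216) (l 4)) (l 17003976)) (a (l 17008232) (l 17046152))) (l 4)) (a (b (l 17067720) (a (l 17047504) (l 17047272))) (a (b (l 17071064) (l 17060936))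 (l 4)))) (b (a (b (a (b (l 17026064) (l 17012776)) (l 17029080)) (b (a (l 17006096) (l 17015800)) (a (l 17003488) (l 17006344)))) (b (a (l 17049840) (l 4)) (l 17052264))) (b (a (a (l 17158864) (b (l 16996952) (l 16992624))) (a (a (l 17015312) (l 17031024)) (l 17054592))) (a (l 2) (b (l 17052024) (a (l 2) (l 17042544)))))))), by decide +kernel⟩

theorem c_pm_202 : CertN 0 536870912 1073741824 536870912 469762048 67108864 3 false true false .pp 2 0 2
    ndN0q2 ndN4q2 pcN0 Cut.none Ext.none :=
  certN1 (fam := false) (s1 := true) (s2 := false) (a := 2) (b := 0) (c := 2) (cn := .pp) (n1 := ndN0q2) (n2 := ndN4q2) (pc := pcN0) (cut := Cut.none) (xt := Ext.none) (P1 := 0) (W1 := 536870912) (P2 := 1073741824) (W2 := 536870912) (P3 := 469762048) (W3 := 67108864) (N0 := 3)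
    rfl (fun _ => rfl) k0_pm_202

noncomputable def f_pm_203 : ℕ → ℕ → ℕ → ℕ → Bool := onCell 0 536870912 0 1230186008 469762048 67108864
    (rowN 3 0 false true false .up 2 0 3 (qsf 0 536870912 0 1230186008 0) ndN0q2 ndN4q3 pcN0 Cut.none Ext.none)

def k0_pm_203 : ∃ t, chk3 f_pm_203 t 1 1 1 = true :=
  ⟨(b (l 2) (b (l 2) (a (b (b (l 2) (a (a (b (l 2) (l 16745096)) (l 16767872)) (a (l 390406282327) (l 17032992)))) (b (a (a (b (l 16735776) (l 16724888)) (b (l 16733744) (l 16753264))) (a (b (l 16797448) (l 16924720)) (l 17076152))) (a (a (b (l 16724992) (l 16730584)) (b (l 16820424) (l 16900936))) (a (l 17029584) (l 16998192))))) (b (l 2) (a (b (a (l 16981600) (l 16968928)) (b (a (l 16966712) (l 16971880)) (a (l 16973728) (l 16985464)))) (b (a (b (l 2) (l 16990672)) (l 2)) (a (b (b (l 16996840) (l 17002200)) (a (l 17001720) (l 17017448))) (a (b (l 17026128) (l 17032576)) (b (l 2) (l 17046480)))))))))), by decide +kernel⟩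

theorem c_pm_203 : CertN 0 536870912 0 1230186008 469762048 67108864 3 false true false .up 2 0 3
    ndN0q2 ndN4q3 pcN0 Cut.none Ext.none :=
  certN0 (fam := false) (s1 := true) (s2 := false) (a := 2) (b := 0) (c := 3) (cn := .up) (n1 := ndN0q2) (n2 := ndN4q3) (pc := pcN0) (cut := Cut.none) (xt := Ext.none) (P1 := 0) (W1 := 536870912) (P2 := 0) (W2 := 1230186008) (P3 := 469762048) (W3 := 67108864) (N0 := 3)
    rfl k0_pm_203

noncomputable def cut_pm_213 : Cut := Cut.of [[⟨0, 1, 0, 67108864⟩, ⟨1, 1, 0, 67108864⟩, ⟨2, 2, 0, 16777216⟩]]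

noncomputable def f_pm_213 : ℕ → ℕ → ℕ → ℕ → Bool := onCell 0 536870912 0 1230186008 469762048 67108864
    (rowN 3 0 false true false .pnn 2 1 3 (qsf 0 536870912 0 1230186008 1) ndN0q2 ndN4q3 pcN1 cut_pm_213 Ext.none)

def k0_pm_213 : ∃ t, chk3 f_pm_213 t 2 2 1 = true :=
  ⟨(b (l 3) (a (l 3) (b (l 3) (a (b (l 3) (a (l 3) (b (l 3) (a (l 3) (b (l 3) (a (l 3) (b (l 3) (l 303499841159)))))))) (b (a (l 3) (b (a (l 3) (b (l 3) (a (l 3) (b (l 3) (a (l 3) (b (l 3) (l 289541196247))))))) (c (a (b (l 3) (a (l 3) (b (l 297057392135) (l 293299295271)))) (b (a (b (l 3) (l 296520520487)) (b (l 292225573975) (l 292762425303))) (a (b (l 293299295527) (l 16760088)) (l 16782928)))) (a (b (l 3) (a (l 3) (b (l 295446773767) (a (l 294373031959) (l 293836162039))))) (b (a (b (l 3) (a (l 3) (l 293836161255))) (b (a (l 291688677399) (l 292225549303)) (a (l 293299291703) (l 16779224)))) (a (b (a (l 295983645239) (l 16778360)) (l 16779520)) (l 16781952))))))) (a (b (a (l 3) (b (a (l 3) (b (l 3) (a (l 3) (l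 295983647671)))) (a (b (l 3) (a (l 296520518887) (l 299741765303))) (b (a (l 297594260487) (b (l 295983648039) (l 16779296))) (a (l 298668015943) (l 16780416)))))) (a (b (a (l 3) (b (a (l 3) (l 298668002503)) (a (l 300278615319) (l 298668003255)))) (a (b (a (l 299204873703) (l 302426099175)) (a (l 299204874039) (l 16779904))) (b (a (l 300815498151) (l 16780664)) (l 16782200)))) (b (a (b (a (l 300815507431) (l 16779696)) (l 16749360)) (l 16783248)) (l 16788096)))) (b (a (b (c (a (b (l 299204875543) (l 294909908711)) (b (l 294909909399) (l 16782128))) (a (b (l 297057396935) (a (l 297057387079) (l 16778400))) (b (l 293836163783) (l 16780768)))) (a (b (a (l 16779928) (l 16781352)) (l 16783032)) (l 16786112))) (l 16787856)) (l 16790192)))))))), by decide +kernel⟩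

def k1_pm_213 : ∃ t, chk3 f_pm_213 t 6 8 1 = true :=
  ⟨(l 3), by decide +kernel⟩

def k2_pm_213 : ∃ t, chk3 f_pm_213 t 12 9 1 = true :=
  ⟨(l 3), by decide +kernel⟩

def k3_pm_213 : ∃ t, chk3 f_pm_213 t 13 18 1 = true :=
  ⟨(l 3), by decide +kernel⟩

def k4_pm_213 : ∃ t, chk3 f_pm_213 t 26 19 1 = true :=
  ⟨(l 3), by decide +kernel⟩

def k5_pm_213 : ∃ t, chk3 f_pm_213 t 27 38 1 = true :=
  ⟨(a (l 3) (b (l 3) (a (l 3) (b (c (a (l 3) (b (l 3) (a (l 3) (b (l 3) (l 277730035127))))) (a (l 3) (a (l 3) (b (l 3) (b (l 3) (c (l 278803776039) (l 279877519751))))))) (a (c (b (l 3) (a (l 3) (b (l 277193164263) (a (l 279340648039) (l 278803777287))))) (b (l 3) (a (l 3) (b (a (l 3) (l 278803775719)) (a (b (l 275582550247) (l 282561872215)) (b (l 273971937703) (l 16777496))))))) (b (a (c (b (l 3) (l 280414392423)) (b (l 3) (a (l 276656292039) (b (l 280951259447) (l 275045679543))))) (c (b (l 275045683399) (l 16778168)) (b (a (b (l 278266904839) (l 272361324935)) (l 277193164295)) (l 278266906487))))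 (c (c (l 279340648727) (l 277730040823)) (a (b (c (l 275582550935) (l 273971938759)) (l 16777680)) (l 16777904))))))))), by decide +kernel⟩

def k6_pm_213 : ∃ t, chk3 f_pm_213 t 54 39 1 = true :=
  ⟨(b (l 3) (a (c (b (l 3) (a (l 3) (b (l 3) (a (l 3) (b (l 278803777447) (l 277193164887)))))) (b (l 3) (a (l 3) (b (l 3) (a (l 3) (a (c (l 280414388935) (l 280951258807)) (b (l 279877517575) (l 278803777335)))))))) (b (a (c (b (l 3) (a (l 3) (b (l 3) (l 279340648295)))) (a (l 3) (a (l 3) (b (l 3) (c (l 280414388887) (l 280951258823)))))) (b (c (a (l 279340648199) (b (l 280414390071) (l 278266906631))) (c (a (l 279340646967) (b (l 281488130743) (l 276119421879))) (a (l 279877516903) (b (a (l 3) (l 284172484471)) (a (l 272361324455) (l 16777312)))))) (c (a (b (l 283098744743) (l 281488132231)) (l 16778440)) (a (b (a (l 279340646647) (b (l 285246226807) (l 279877518327))) (c (l 279340647495) (l 277730033847))) (l 16777768))))) (a (b (c (a (b (l 3) (l 282025002983)) (b (l 277730035751) (l 16778384)))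 (a (b (l 3) (a (l 278266904791) (b (l 282561872215) (l 277730034135)))) (b (a (b (l 279340646679) (l 275045679511)) (l 279877517895)) (l 280951260775)))) (c (a (l 282025008567) (l 16778624)) (a (b (c (l 278803776551) (l 277193162855)) (l 16777712)) (l 16777968)))) (b (l 16781024) (l 16778888)))))), by decide +kernel⟩

def k7_pm_213 : ∃ t, chk3 f_pm_213 t 55 39 1 = true :=
  ⟨(b (a (b (a (l 3) (b (c (a (l 3) (l 278266911527)) (a (l 3) (c (l 278803776039) (l 279340648695)))) (a (c (b (l 3) (l 278803777159)) (a (l 3) (c (l 279877517911) (l 280414390599)))) (c (b (l 282025007943) (l 279877519287)) (b (a (l 278803775735) (b (l 284172487591) (l 278803776647))) (c (l 277730034679) (l 276119421143))))))) (a (b (c (a (l 3) (b (l 3) (l 281488137079))) (a (l 3) (b (l 3) (a (l 277193162951) (b (l 282025001271) (l 276119421383)))))) (c (a (b (l 278266906311) (l 275582554551)) (b (l 279340648407) (l 16778352))) (c (a (b (l 278803776103) (l 272898198903)) (l 277730034823)) (a (b (l 279340646103) (a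 (l 282025000775) (l 275582550071))) (b (a (l 273435066359) (l 16777352)) (l 16777488)))))) (c (b (a (b (l 276119428055) (l 16778272)) (l 16778416)) (l 16778640)) (b (a (b (a (b (l 278803775767) (l 272898195847)) (l 278266905143)) (l 279877519159)) (l 16777840)) (l 16778128))))) (b (a (b (c (a (b (l 279340648023) (l 277193164583)) (l 280414393415)) (c (a (b (l 280414388855) (l 275045679991)) (l 278803778199)) (a (b (a (l 3) (l 283098742695)) (a (l 270750711767) (l 16777328))) (l 276656292359)))) (c (l 16778448) (l 16777920))) (l 16778664)) (l 16779272))) (a (b (c (a (b (a (l 281488135287) (l 16778600)) (l 16778848)) (l 16779272)) (a (a (b (c (l 279877518631) (l 278266905079)) (l 16778152)) (l 16778304)) (l 16778952))) (l 16779848)) (l 16780864))), by decide +kernel⟩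

def k8_pm_213 : ∃ t, chk3 f_pm_213 t 7 8 1 = true :=
  ⟨(a (a (l 3) (l 6)) (l 6)), by decide +kernel⟩

def k9_pm_213 : ∃ t, chk3 f_pm_213 t 28 36 1 = true :=
  ⟨(l 3), by decide +kernel⟩

def k10_pm_213 : ∃ t, chk3 f_pm_213 t 56 37 1 = true :=
  ⟨(b (l 3) (a (l 3) (b (l 3) (a (l 3) (c (b (l 3) (a (l 3) (b (l 276119427303) (a (l 278266905847) (l 277730036567))))) (b (l 3) (a (l 3) (b (a (l 3) (b (l 273435066551) (l 280414388519))) (a (b (l 276119421159) (l 269676970311)) (l 274508808679)))))))))), by decide +kernel⟩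

def k11_pm_213 : ∃ t, chk3 f_pm_213 t 57 74 1 = true :=
  ⟨(a (b (l 3) (a (l 3) (b (l 3) (c (a (l 3) (b (l 3) (l 272898196567))) (a (l 3) (b (l 3) (a (l 3) (l 273435066503)))))))) (b (a (l 3) (b (c (a (l 3) (c (l 276119422023) (l 277193163559))) (a (l 3) (b (l 3) (a (l 3) (b (l 272898195623) (l 265918876487)))))) (a (c (b (l 272361325559) (a (l 272361325431) (l 270213841943))) (b (a (l 3) (l 272361324663)) (a (l 273971937431) (b (l 277730033895) (l 271287583079))))) (c (c (l 272898201991) (l 271287586359)) (b (a (b (l 275582550215) (l 268603228471)) (l 273435068039)) (l 16777528)))))) (a (b (c (a (l 3) (b (a (l 3) (l 273435067319)) (a (l 275045680103) (l 273971938439)))) (a (l 3) (b (a (l 3) (l 275582552807)) (a (b (l 272361324711) (l 278803775751)) (l 270750714823))))) (a (c (b (a (l 3) (l 276656292887)) (a (l 270213842007) (l 16777848))) (b (a (l 3) (b (l 274508808391) (l 267529486631))) (a (b (l 277193162983) (l 270213841239)) (l 274508809671)))) (c (l 275582554055) (c (l 273971938199)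 (l 272361325047))))) (c (b (a (b (l 273435070167) (l 16777920)) (l 16778048)) (l 16778224)) (a (a (b (c (l 271287583399) (l 269676972855)) (l 16777776)) (l 16777736)) (l 16777944)))))), by decide +kernel⟩

def k12_pm_213 : ∃ t, chk3 f_pm_213 t 57 75 1 = true :=
  ⟨(a (b (a (c (b (l 3) (a (l 3) (b (l 3) (a (l 271824454679) (l 278266905767))))) (b (l 3) (a (l 3) (b (l 3) (a (l 273435066503) (b (l 276656292071) (l 269676970327))))))) (b (a (c (b (l 3) (l 274508811815)) (b (l 3) (c (l 276119421319) (l 277193165255)))) (c (b (a (l 273435067383) (l 271824454807)) (l 275045680407)) (b (a (l 275045679271) (b (l 279340646679) (l 273435067831))) (c (l 272898196183) (l 270750712055))))) (c (a (b (a (l 276656292967) (l 275582551303)) (l 277193166311)) (l 16778056)) (a (b (a (b (l 273971937479) (l 280414388519)) (l 272361324983)) (l 274508810615)) (l 16777712))))) (a (b (a (c (b (l 273971938439) (a (l 274508809351) (l 273435067671))) (b (a (l 3) (l 275045679271)) (a (l 276656294663) (b (l 268066357559)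 (l 275582551287))))) (c (b (l 273971941223) (l 16777992)) (b (a (b (l 278803775751) (l 272361324935)) (l 16777488)) (l 16777584)))) (c (a (l 276119425111) (l 16778200)) (a (c (l 274508809159) (l 272898198535)) (l 16777864)))) (l 16780912))) (b (a (a (c (l 16779432) (l 16779128)) (l 16778248)) (l 16778648)) (l 16779136))), by decide +kernel⟩

def k13_pm_213 : ∃ t, chk3 f_pm_213 t 29 18 1 = true :=
  ⟨(b (a (b (a (l 3) (l 6)) (a (b (a (l 3) (a (l 3) (l 6))) (a (b (l 3) (a (c (c (l 275582551063) (l 274508807687)) (b (l 3) (a (l 3) (l 274508810967)))) (c (b (a (l 270750712631) (l 268603229079)) (a (l 270750712775) (l 16777776))) (b (a (l 272898195575) (b (l 276119421143) (l 269140099383))) (a (b (l 278803778359) (l 272361326055)) (l 16777472)))))) (c (b (a (b (a (l 3) (l 273435067175)) (a (l 275045679975) (l 274508810695))) (l 6)) (a (l 275045682183) (l 16778040))) (b (a (b (a (l 3) (b (l 6) (l 277730033895))) (a (b (l 273971937447) (l 266455744791)) (l 271824455431))) (l 6)) (c (l 16779080)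 (l 271287585975)))))) (l 6))) (l 6)) (a (b (c (a (b (a (b (a (b (a (l 273435067239) (l 272361325575)) (l 273971938439)) (l 16777912)) (l 16778080)) (l 16778352)) (l 16778736)) (l 16779384)) (a (b (a (b (a (a (b (b (l 270750711943) (l 277193162967)) (l 271287583111)) (c (l 271287583383) (l 269676970263))) (l 16777632)) (l 16777832)) (l 16778200)) (l 16778664)) (l 16779408))) (l 16780408)) (l 6))), by decide +kernel⟩

def k14_pm_213 : ∃ t, chk3 f_pm_213 t 56 76 1 = true :=
  ⟨(a (b (l 3) (a (l 3) (b (c (a (l 3) (b (l 275045680423) (a (l 275045680439) (l 273971938759)))) (a (l 3) (b (a (l 3) (l 274508808359)) (a (l 276656292039) (b (l 280951259447) (l 275045679543)))))) (a (c (b (l 276656298407) (a (l 278266906023) (l 277730035271))) (b (c (l 277730034151) (l 278266904391)) (a (b (l 275582550231) (l 282561872199)) (l 274508808679)))) (c (b (l 277193164359) (l 16778152)) (a (c (l 275045679991) (l 273435066615)) (l 16777648))))))) (b (a (b (c (a (l 3) (b (l 3) (l 275582556439))) (a (l 3)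 (b (l 3) (a (l 3) (l 276656292039))))) (a (c (b (l 3) (l 277193169271)) (b (l 3) (a (l 3) (b (l 275582550247) (l 269140099399))))) (c (b (a (l 276656293143) (l 275582551463)) (l 277730035255)) (a (b (b (l 272898195639) (l 279877517591)) (l 274508808679)) (c (l 274508809063) (l 272898195735)))))) (b (a (c (b (a (l 273435067559) (l 271824454951)) (l 275582551479)) (b (a (l 274508808359) (b (l 278803775751) (l 272361324935))) (a (b (l 281488130359) (l 275582551447)) (l 16777520)))) (a (c (l 16778016) (l 276119422951)) (l 16777936))) (a (l 16780576) (l 16778224)))) (c (a (b (a (b (l 274508812295) (l 16778080)) (l 16778216)) (l 16778416)) (l 16778760)) (a (b (a (b (a (b (l 278266904839) (l 272361324935)) (l 276656293367)) (l 16777592)) (l 16777800)) (l 16778056)) (l 16778528))))), by decide +kernel⟩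

def k15_pm_213 : ∃ t, chk3 f_pm_213 t 56 77 1 = true :=
  ⟨(a (b (a (b (a (c (b (l 3) (l 276119422295)) (b (l 3) (a (l 3) (l 276656292039)))) (c (b (a (l 273435067735) (l 280414389735)) (l 276119422567)) (b (a (l 274508808359) (b (l 278266904839) (l 272361324935))) (a (b (l 280951259447) (l 275045679543)) (l 16777520))))) (c (a (b (a (l 276656293319) (l 276119422551)) (l 278803777255)) (l 16778232)) (a (a (b (l 278266904807) (l 275045682215)) (c (l 275582550935) (l 273971938823))) (l 16777728)))) (c (b (a (l 279340651063) (l 16778384)) (l 16778600)) (a (b (c (l 277193165143) (l 276119422631)) (l 16778072)) (l 16778200)))) (a (c (l 16789096) (l 16778224)) (l 16779120))) (l 16779696)), by decide +kernel⟩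

def k16_pm_213 : ∃ t, chk3 f_pm_213 t 57 38 1 = true :=
  ⟨(b (a (l 16789672) (l 16780368)) (l 16781544)), by decide +kernel⟩

def k17_pm_213 : ∃ t, chk3 f_pm_213 t 28 39 1 = true :=
  ⟨(a (l 16781856) (l 16784624)), by decide +kernel⟩

def k18_pm_213 : ∃ t, chk3 f_pm_213 t 29 19 1 = true :=
  ⟨(l 16786864), by decide +kernel⟩

def k19_pm_213 : ∃ t, chk3 f_pm_213 t 15 9 1 = true :=
  ⟨(b (b (l 6) (l 16871552)) (l 16858568)), by decide +kernel⟩

def k20_pm_213 : ∃ t, chk3 f_pm_213 t 12 20 1 = true :=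
  ⟨(a (l 3) (c (b (l 3) (a (l 3) (b (l 3) (a (l 3) (b (l 3) (a (l 3) (b (l 3) (l 285246239879)))))))) (b (l 3) (a (l 3) (b (l 3) (a (l 3) (b (l 3) (a (l 3) (b (l 3) (a (l 281488130151) (b (l 283635614007) (l 285783097975)))))))))))), by decide +kernel⟩

def k21_pm_213 : ∃ t, chk3 f_pm_213 t 24 21 1 = true :=
  ⟨(b (l 3) (a (l 3) (c (b (a (l 3) (b (l 3) (a (l 3) (l 289541197479)))) (a (b (l 3) (a (l 3) (l 290614939559))) (b (a (l 289004326647) (l 291688681655)) (a (l 290614940279) (l 16780376))))) (b (a (l 3) (b (l 3) (a (l 3) (b (l 3) (l 284172484695))))) (a (b (l 3) (a (l 3) (b (l 285246226503) (l 287930581623)))) (b (a (b (l 283635613671) (l 286856839479)) (b (l 289541194407) (l 16778072))) (a (b (l 290078065751) (l 16778408)) (l 16779256)))))))), by decide +kernel⟩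

def k22_pm_213 : ∃ t, chk3 f_pm_213 t 25 21 1 = true :=
  ⟨(b (a (c (b (l 3) (a (l 3) (b (a (l 3) (b (l 3) (l 285246229767))) (a (b (l 285783100775) (l 287393713639)) (l 286856853623))))) (b (l 3) (a (l 3) (b (a (l 3) (b (l 3) (a (l 3) (l 285246226775)))) (a (b (l 283635613703) (a (l 282561872055) (l 288467452551))) (b (a (l 285783097831) (l 16777792)) (l 16778152))))))) (b (a (c (b (l 3) (a (b (l 3) (l 285246229639)) (b (l 285246229575) (l 289004326359)))) (b (l 3) (a (b (l 3) (l 283635613719)) (b (a (l 280951259207) (l 286319968647)) (a (l 285246226983) (l 16777832)))))) (c (b (a (b (l 285246229431) (l 285783100567)) (b (l 285246229831) (l 16779296))) (a (l 287393720519) (l 16780136))) (b (a (b (a (l 3) (l 281488130215)) (a (l 283635613975) (l 287393710887))) (b (a (b (l 282561872311) (l 287393711719)) (l 16777888)) (l 16778256))) (a (b (l 286319969671) (l 16778568)) (l 16779376))))) (c (a (b (a (b (l 286856842551) (l 289004326743)) (l 16779592)) (l 16780376)) (l 16781864)) (a (b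 (a (b (a (l 283098743015) (l 287930581719)) (l 287393711399)) (l 16778544)) (l 16779552)) (l 16781512))))) (c (a (b (a (b (a (l 287930584807) (l 288467466007)) (a (l 290078079031) (l 16779704))) (b (a (l 289004327271) (l 16780248)) (l 16781208))) (a (b (l 16780504) (l 16782216)) (l 16783872))) (l 16784944)) (a (b (a (b (a (l 285783102599) (b (l 283635613815) (l 288467457879))) (a (b (l 286319979079) (l 289004323991)) (l 16778456))) (b (a (b (l 287930582231) (l 16778480)) (l 16779304)) (l 16780496))) (a (b (l 16779496) (l 16781624)) (l 16784080))) (l 16785024)))), by decide +kernel⟩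

def k23_pm_213 : ∃ t, chk3 f_pm_213 t 26 40 1 = true :=
  ⟨(a (l 3) (b (a (l 3) (b (l 3) (a (l 3) (b (c (a (l 3) (b (l 3) (l 282561874135))) (a (l 3) (b (l 3) (a (l 279340646631) (b (l 283635614055) (l 280951259639)))))) (c (a (b (l 279340648615) (l 279877519703)) (l 284172487207)) (a (b (a (l 3) (l 280951259415)) (a (l 283098743111) (l 280951259703))) (b (a (l 278803777303) (l 16777608)) (l 16777744)))))))) (a (b (c (a (l 3) (b (l 3) (a (l 3) (l 280951261447)))) (a (l 3) (a (l 3) (b (l 3) (c (l 280951259895) (l 281488134807)))))) (a (c (b (l 3) (a (l 3) (l 284172487143))) (b (l 3) (a (l 3) (b (l 280951259367) (a (l 284709355895) (l 284172485239)))))) (b (c (a (l 282561874279) (l 284172487303)) (a (b (l 278803775639) (a (l 279877517575) (l 279340646871))) (b (a (l 285783097751) (l 283635614695)) (l 16777680)))) (c (l 284172492951) (a (b (l 283098743479) (l 16777784)) (l 16778064)))))) (b (a (b (c (a (l 280414390455) (b (l 282025003287) (l 283098745319))) (c (a (l 280414388919) (b (l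 282561872743) (l 280951260279))) (a (l 280951258599) (b (l 283098742455) (l 279340646391))))) (c (a (l 282025008759) (l 16778688)) (a (b (a (l 281488130343) (l 280414388743)) (l 283098743543)) (l 16777832)))) (c (b (l 284172491719) (l 16779136)) (b (c (l 282025005143) (l 280414391095)) (l 16778496)))) (a (b (l 16778592) (l 16779144)) (l 16779768)))))), by decide +kernel⟩

def k24_pm_213 : ∃ t, chk3 f_pm_213 t 26 41 1 = true :=
  ⟨(a (b (a (b (l 3) (c (a (l 3) (b (l 3) (l 283098745511))) (a (l 3) (b (l 3) (a (l 3) (l 280414388311)))))) (b (a (l 3) (b (c (a (l 3) (l 281488132535)) (a (l 3) (b (l 3) (l 279877517511)))) (c (a (l 282025003527) (l 284172487415)) (a (b (l 3) (l 283098743079)) (b (a (l 283098743111) (l 283635614279)) (l 284709357319)))))) (a (b (c (a (l 3) (l 283635616375)) (a (l 3) (c (l 283635614647) (l 283635618503)))) (c (a (l 285246229239) (l 286856845255)) (a (b (l 282025001223) (l 282561872423)) (l 284172485607)))) (c (b (l 284709363943) (l 16779208)) (b (a (b (l 282561872471)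 (l 16777728)) (l 16778000)) (l 16778368)))))) (a (b (a (c (b (l 3) (l 285246239703)) (b (l 3) (a (l 3) (b (l 3) (l 284172484951))))) (c (b (a (l 283098745527) (l 284172487559)) (l 285246229719)) (b (a (l 280951259271) (b (l 285246226807) (l 285783098071))) (a (b (l 282561872391) (l 16777672)) (l 16777944))))) (c (a (b (l 285246234743) (l 16781352)) (l 16779496)) (a (b (a (b (l 279877517511) (l 282561872343)) (l 286319969143)) (l 286319972727)) (l 16778656)))) (a (a (b (c (l 16779064) (l 16778104)) (l 16779896)) (l 16800688)) (l 16780544)))) (c (b (a (b (a (b (a (l 282025003623) (l 16778736)) (l 16778968)) (l 16779416)) (l 16780144)) (l 16781376)) (l 16782872)) (b (a (b (a (b (a (b (a (l 279340646631) (l 278803775927)) (l 282561875143)) (l 284172486871)) (l 16778096)) (l 16778760)) (l 16779672)) (l 16781320)) (l 16783032)))), by decide +kernel⟩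

def k25_pm_213 : ∃ t, chk3 f_pm_213 t 27 20 1 = true :=
  ⟨(b (a (b (a (b (a (b (c (a (l 3) (l 279877519303)) (a (l 3) (b (l 3) (l 278803775639)))) (c (a (l 280414395543) (b (l 283635615895) (l 282561874295))) (c (a (l 280951259815) (b (l 284709356407) (l 281488131239))) (a (b (l 3) (l 281488129703)) (b (a (l 280414387927) (l 276656291767)) (l 279877517479)))))) (c (b (a (b (l 280951261207) (l 280414390503)) (l 283098748247)) (l 16778688)) (b (c (a (b (l 282025001735) (l 278266905623)) (l 282025003687)) (a (b (a (l 3) (l 284709355335)) (a (l 274508808071) (l 16777296))) (l 279877517799))) (l 16777992)))) (c (a (b (a (l 282025008647) (l 16778656)) (l 16778904)) (l 16779352)) (a (b (a (b (a (b (l 280414388535) (l 277193163191)) (l 282561873239)) (l 16777648)) (l 16777904)) (l 16778232)) (l 16778872)))) (c (l 16779968) (l 16795456))) (l 16802504)) (l 16783184)) (l 16786184)), by decide +kernel⟩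

def k26_pm_213 : ∃ t, chk3 f_pm_213 t 13 21 1 = true :=
  ⟨(a (b (a (b (a (b (l 16779992) (l 16781664)) (l 16783008)) (l 16784352)) (l 16786152)) (l 16789408)) (l 16794048)), by decide +kernel⟩

def k27_pm_213 : ∃ t, chk3 f_pm_213 t 6 11 1 = true :=
  ⟨(a (b (a (b (a (b (a (l 3) (c (b (a (l 3) (l 291151810695)) (a (l 291151810743) (l 292762423831))) (b (a (l 3) (l 287393710039)) (a (l 289541204263) (b (l 289004323415) (l 16778024)))))) (a (b (a (l 3) (b (l 288467454295) (a (l 291688679975) (l 294373034919)))) (c (l 290614956279) (a (b (l 291151806695) (l 292762420199)) (l 16778360)))) (b (a (c (l 292225553367) (l 291688678999)) (l 16779960)) (l 16781152)))) (b (c (a (b (a (l 291151810743) (l 16779848)) (l 16759680)) (l 16782344)) (a (b (a (b (l 288467452183) (l 290614936615)) (l 16778392)) (l 16779464)) (l 16781680))) (l 16785408))) (a (b (a (b (a (l 16779640) (l 16780944)) (l 16782392)) (l 16785008)) (l 16786952)) (l 16788040))) (b (l 16787840) (l 16792624))) (a (l 16793416) (l 16800288)))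 (b (l 16801568) (l 16813184))), by decide +kernel⟩

def k28_pm_213 : ∃ t, chk3 f_pm_213 t 7 5 1 = true :=
  ⟨(b (a (b (a (l 16790464) (l 16797848)) (l 16806936)) (l 17028992)) (a (l 16829256) (l 16858040))), by decide +kernel⟩

def k29_pm_213 : ∃ t, chk3 f_pm_213 t 2 12 1 = true :=
  ⟨(a (a (l 3) (b (l 3) (a (l 3) (b (a (l 3) (b (l 3) (b (l 3) (l 313163519015)))) (a (b (a (l 3) (l 314774133175)) (b (l 307794809975) (l 304036734471))) (b (a (b (l 309942293367) (l 304573584359)) (b (l 304036731671) (l 16781752))) (a (b (l 16780912) (l 16783504)) (l 16787288)))))))) (a (b (a (b (l 3) (a (l 3) (b (a (l 3) (b (l 3) (l 306721067079))) (a (b (l 307794809463) (l 302426099927)) (b (l 301352358423) (l 16780920)))))) (b (a (b (l 3) (a (b (l 3) (l 306184196631)) (b (l 305647325031) (l 300278637175)))) (b (a (b (l 3) (a (l 301352357607) (l 305110454055))) (b (a (l 302962970167) (l 300815487271)) (l 299204897239))) (a (b (l 299741766967) (l 16781504)) (l 16784328)))) (a (b (a (b (l 304036712343) (l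 301352359223)) (b (l 16780592) (l 16783192))) (a (l 16783448) (l 16789776))) (l 16792248)))) (a (b (a (b (a (l 312626648551) (b (l 308331680039) (l 302962971623))) (a (b (l 303499842119) (l 16780528)) (b (l 16781304) (l 16784296)))) (b (a (b (l 302426120599) (l 16782352)) (l 16785648)) (l 16792632))) (b (l 16795736) (l 16794224))) (b (l 16793056) (l 16794864)))) (b (a (b (a (b (a (b (l 16760152) (l 16784008)) (l 16787664)) (l 16791080)) (l 16790944)) (l 16793272)) (l 16796256)) (l 16800344)))), by decide +kernel⟩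

def k30_pm_213 : ∃ t, chk3 f_pm_213 t 2 13 1 = true :=
  ⟨(a (b (a (a (l 3) (b (l 3) (a (l 3) (b (l 3) (a (l 315311004503) (l 311552927863)))))) (a (b (a (b (l 3) (l 320142864583)) (b (a (l 316384746839) (l 312089798215)) (a (l 308868572999) (b (l 16780704) (l 16782936))))) (a (b (a (l 313163519575) (l 303499864887)) (a (l 16802384) (l 16785688))) (b (l 16785992) (l 16800088)))) (b (a (b (a (l 301889262775) (l 16783864)) (l 16790144)) (l 16796552)) (l 16794600)))) (a (b (a (b (l 3) (a (l 3) (l 423758926823))) (b (a (b (l 357186936599) (l 306721068039)) (a (b (l 304573585127) (l 16781608)) (l 16783696))) (a (b (l 318532228855) (l 275582528711)) (l 16793768)))) (a (a (b (l 3) (l 254107721447)) (b (a (l 322827174679) (l 265382089927)) (l 16780240))) (b (l 16785104) (l 16779744)))) (b (a (l 16834392) (l 16790792)) (l 16782680)))) (b (a (b (l 16794920) (l 16794936)) (l 16801920)) (a (l 16789408) (l 16794352)))), by decide +kernel⟩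

def k31_pm_213 : ∃ t, chk3 f_pm_213 t 3 6 1 = true :=
  ⟨(b (a (a (b (l 16806240) (l 16812720)) (l 16827600)) (a (l 16857536) (l 16912160))) (a (b (l 16825456) (a (l 16806984) (l 16856656))) (a (b (l 16893408) (l 16990272)) (l 16981704)))), by decide +kernel⟩

def k32_pm_213 : ∃ t, chk3 f_pm_213 t 1 7 1 = true :=
  ⟨(a (b (a (a (b (a (b (b (l 16786392) (l 16772008)) (l 16764880)) (l 16789336)) (b (l 16753728) (l 16746576))) (b (l 16768256) (l 16727200))) (b (a (l 16770480) (l 16869136)) (a (b (l 16753680) (l 16759704)) (l 16830528)))) (b (a (l 1) (a (l 1) (l 17058400))) (l 1))) (b (a (b (a (l 16834592) (l 16978352)) (a (l 17011424) (l 16998880))) (b (l 16987320) (a (l 16983040) (a (l 16995432) (l 17009760))))) (a (b (a (l 16980992) (l 16969128)) (l 1)) (b (a (a (l 17101056) (l 16990072)) (b (a (l 17003304) (l 17021792)) (a (l 17011160) (l 17030024)))) (a (b (a (l 16986944) (l 17002264)) (l 1)) (b (l 17280696) (a (l 17028320) (l 17045408)))))))), by decide +kernel⟩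

theorem s33_pm_213 : ∃ t, chk3 f_pm_213 t 2 6 1 = true := ex3_b k29_pm_213 k30_pm_213

theorem s34_pm_213 : ∃ t, chk3 f_pm_213 t 1 6 1 = true := ex3_a s33_pm_213 k31_pm_213

theorem s35_pm_213 : ∃ t, chk3 f_pm_213 t 1 3 1 = true := ex3_b s34_pm_213 k32_pm_213

theorem s36_pm_213 : ∃ t, chk3 f_pm_213 t 26 20 1 = true := ex3_b k23_pm_213 k24_pm_213

theorem s37_pm_213 : ∃ t, chk3 f_pm_213 t 13 20 1 = true := ex3_a s36_pm_213 k25_pm_213

theorem s38_pm_213 : ∃ t, chk3 f_pm_213 t 13 10 1 = true := ex3_b s37_pm_213 k26_pm_213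

theorem s39_pm_213 : ∃ t, chk3 f_pm_213 t 12 21 1 = true := ex3_a k21_pm_213 k22_pm_213

theorem s40_pm_213 : ∃ t, chk3 f_pm_213 t 12 10 1 = true := ex3_b k20_pm_213 s39_pm_213

theorem s41_pm_213 : ∃ t, chk3 f_pm_213 t 6 10 1 = true := ex3_a s40_pm_213 s38_pm_213

theorem s42_pm_213 : ∃ t, chk3 f_pm_213 t 6 5 1 = true := ex3_b s41_pm_213 k27_pm_213

theorem s43_pm_213 : ∃ t, chk3 f_pm_213 t 3 5 1 = true := ex3_a s42_pm_213 k28_pm_213

theorem s44_pm_213 : ∃ t, chk3 f_pm_213 t 56 38 1 = true := ex3_b k14_pm_213 k15_pm_213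

theorem s45_pm_213 : ∃ t, chk3 f_pm_213 t 28 38 1 = true := ex3_a s44_pm_213 k16_pm_213

theorem s46_pm_213 : ∃ t, chk3 f_pm_213 t 28 19 1 = true := ex3_b s45_pm_213 k17_pm_213

theorem s47_pm_213 : ∃ t, chk3 f_pm_213 t 14 19 1 = true := ex3_a s46_pm_213 k18_pm_213

theorem s48_pm_213 : ∃ t, chk3 f_pm_213 t 57 37 1 = true := ex3_b k11_pm_213 k12_pm_213

theorem s49_pm_213 : ∃ t, chk3 f_pm_213 t 28 37 1 = true := ex3_a k10_pm_213 s48_pm_213

theorem s50_pm_213 : ∃ t, chk3 f_pm_213 t 28 18 1 = true := ex3_b k9_pm_213 s49_pm_213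

theorem s51_pm_213 : ∃ t, chk3 f_pm_213 t 14 18 1 = true := ex3_a s50_pm_213 k13_pm_213

theorem s52_pm_213 : ∃ t, chk3 f_pm_213 t 14 9 1 = true := ex3_b s51_pm_213 s47_pm_213

theorem s53_pm_213 : ∃ t, chk3 f_pm_213 t 7 9 1 = true := ex3_a s52_pm_213 k19_pm_213

theorem s54_pm_213 : ∃ t, chk3 f_pm_213 t 7 4 1 = true := ex3_b k8_pm_213 s53_pm_213

theorem s55_pm_213 : ∃ t, chk3 f_pm_213 t 27 39 1 = true := ex3_a k6_pm_213 k7_pm_213

theorem s56_pm_213 : ∃ t, chk3 f_pm_213 t 27 19 1 = true := ex3_b k5_pm_213 s55_pm_213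

theorem s57_pm_213 : ∃ t, chk3 f_pm_213 t 13 19 1 = true := ex3_a k4_pm_213 s56_pm_213

theorem s58_pm_213 : ∃ t, chk3 f_pm_213 t 13 9 1 = true := ex3_b k3_pm_213 s57_pm_213

theorem s59_pm_213 : ∃ t, chk3 f_pm_213 t 6 9 1 = true := ex3_a k2_pm_213 s58_pm_213

theorem s60_pm_213 : ∃ t, chk3 f_pm_213 t 6 4 1 = true := ex3_b k1_pm_213 s59_pm_213

theorem s61_pm_213 : ∃ t, chk3 f_pm_213 t 3 4 1 = true := ex3_a s60_pm_213 s54_pm_213

theorem s62_pm_213 : ∃ t, chk3 f_pm_213 t 3 2 1 = true := ex3_b s61_pm_213 s43_pm_213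

theorem s63_pm_213 : ∃ t, chk3 f_pm_213 t 1 2 1 = true := ex3_a k0_pm_213 s62_pm_213

theorem s64_pm_213 : ∃ t, chk3 f_pm_213 t 1 1 1 = true := ex3_b s63_pm_213 s35_pm_213

theorem c_pm_213 : CertN 0 536870912 0 1230186008 469762048 67108864 3 false true false .pnn 2 1 3
    ndN0q2 ndN4q3 pcN1 cut_pm_213 Ext.none :=
  certN0 (fam := false) (s1 := true) (s2 := false) (a := 2) (b := 1) (c := 3) (cn := .pnn) (n1 := ndN0q2) (n2 := ndN4q3) (pc := pcN1) (cut := cut_pm_213) (xt := Ext.none) (P1 := 0) (W1 := 536870912) (P2 := 0) (W2 := 1230186008) (P3 := 469762048) (W3 := 67108864) (N0 := 3)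
    rfl s64_pm_213

noncomputable def f_mm_001 : ℕ → ℕ → ℕ → ℕ → Bool := onCell 0 536870912 0 536870912 469762048 67108864
    (rowN 3 1 false false false .up 0 0 1 (qsf 0 536870912 536870912 536870912 0) ndN0q0 ndN4q1 pcN0 Cut.none Ext.none)

def k0_mm_001 : ∃ t, chk3 f_mm_001 t 1 1 1 = true :=
  ⟨(l 3), by decide +kernel⟩

theorem c_mm_001 : CertN 0 536870912 536870912 536870912 469762048 67108864 3 false false false .up 0 0 1
    ndN0q0 ndN4q1 pcN0 Cut.none Ext.none :=
  certN1 (fam := false) (s1 := false) (s2 := false) (a := 0) (b := 0) (c := 1) (cn := .up) (n1 := ndN0q0) (n2 := ndN4q1) (pc := pcN0) (cut := Cut.none) (xt := Ext.none) (P1 := 0) (W1 := 536870912) (P2 := 536870912) (W2 := 536870912) (P3 := 469762048) (W3 := 67108864) (N0 := 3)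
    rfl (fun _ => rfl) k0_mm_001

noncomputable def f_mm_011 : ℕ → ℕ → ℕ → ℕ → Bool := onCell 0 536870912 536870912 536870912 469762048 67108864
    (rowN 3 1 false false false .pnn 0 1 1 (qsf 0 536870912 536870912 536870912 1) ndN0q0 ndN4q1 pcN1 Cut.none Ext.none)

def k0_mm_011 : ∃ t, chk3 f_mm_011 t 1 1 1 = true :=
  ⟨(l 5), by decide +kernel⟩

theorem c_mm_011 : CertN 0 536870912 536870912 536870912 469762048 67108864 3 false false false .pnn 0 1 1
    ndN0q0 ndN4q1 pcN1 Cut.none Ext.none :=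
  certN1 (fam := false) (s1 := false) (s2 := false) (a := 0) (b := 1) (c := 1) (cn := .pnn) (n1 := ndN0q0) (n2 := ndN4q1) (pc := pcN1) (cut := Cut.none) (xt := Ext.none) (P1 := 0) (W1 := 536870912) (P2 := 536870912) (W2 := 536870912) (P3 := 469762048) (W3 := 67108864) (N0 := 3)
    rfl (fun _ => rfl) k0_mm_011

noncomputable def f_mm_012 : ℕ → ℕ → ℕ → ℕ → Bool := onCell 0 536870912 1073741824 536870912 469762048 67108864
    (rowN 3 0 false false false .pnp 0 1 2 (qsf 0 536870912 1073741824 536870912 1) ndN0q0 ndN4q2 pcN1 Cut.none Ext.none)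

def k0_mm_012 : ∃ t, chk3 f_mm_012 t 1 1 1 = true :=
  ⟨(l 5), by decide +kernel⟩

theorem c_mm_012 : CertN 0 536870912 1073741824 536870912 469762048 67108864 3 false false false .pnp 0 1 2
    ndN0q0 ndN4q2 pcN1 Cut.none Ext.none :=
  certN0 (fam := false) (s1 := false) (s2 := false) (a := 0) (b := 1) (c := 2) (cn := .pnp) (n1 := ndN0q0) (n2 := ndN4q2) (pc := pcN1) (cut := Cut.none) (xt := Ext.none) (P1 := 0) (W1 := 536870912) (P2 := 1073741824) (W2 := 536870912) (P3 := 469762048) (W3 := 67108864) (N0 := 3)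
    rfl k0_mm_012

noncomputable def f_mm_022 : ℕ → ℕ → ℕ → ℕ → Bool := onCell 0 536870912 1073741824 536870912 469762048 67108864
    (rowN 3 0 false false false .pp 0 2 2 (qsf 0 536870912 1073741824 536870912 2) ndN0q0 ndN4q2 pcN2 Cut.none Ext.none)

def k0_mm_022 : ∃ t, chk3 f_mm_022 t 1 1 1 = true :=
  ⟨(l 5), by decide +kernel⟩

theorem c_mm_022 : CertN 0 536870912 1073741824 536870912 469762048 67108864 3 false false false .pp 0 2 2
    ndN0q0 ndN4q2 pcN2 Cut.none Ext.none :=
  certN0 (fam := false) (s1 := false) (s2 := false) (a := 0) (b := 2) (c := 2) (cn := .pp) (n1 := ndN0q0) (n2 := ndN4q2) (pc := pcN2) (cut := Cut.none) (xt := Ext.none) (P1 := 0) (W1 := 536870912) (P2 := 1073741824) (W2 := 536870912) (P3 := 469762048) (W3 := 67108864) (N0 := 3)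
    rfl k0_mm_022

noncomputable def f_mm_023 : ℕ → ℕ → ℕ → ℕ → Bool := onCell 0 536870912 0 1230186008 469762048 67108864
    (rowN 3 0 false false false .up 0 2 3 (qsf 0 536870912 0 1230186008 2) ndN0q0 ndN4q3 pcN2 Cut.none Ext.none)

def k0_mm_023 : ∃ t, chk3 f_mm_023 t 1 1 1 = true :=
  ⟨(l 5), by decide +kernel⟩

theorem c_mm_023 : CertN 0 536870912 0 1230186008 469762048 67108864 3 false false false .up 0 2 3
    ndN0q0 ndN4q3 pcN2 Cut.none Ext.none :=
  certN0 (fam := false) (s1 := false) (s2 := false) (a := 0) (b := 2) (c := 3) (cn := .up) (n1 := ndN0q0) (n2 := ndN4q3) (pc := pcN2) (cut := Cut.none) (xt := Ext.none) (P1 := 0) (W1 := 536870912) (P2 := 0) (W2 := 1230186008) (P3 := 469762048) (W3 := 67108864) (N0 := 3)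
    rfl k0_mm_023

noncomputable def f_mm_033 : ℕ → ℕ → ℕ → ℕ → Bool := onCell 0 536870912 0 1230186008 469762048 67108864
    (rowN 3 0 false false false .pnn 0 3 3 (qsf 0 536870912 0 1230186008 3) ndN0q0 ndN4q3 pcN3 Cut.none Ext.none)

def k0_mm_033 : ∃ t, chk3 f_mm_033 t 1 1 1 = true :=
  ⟨(l 5), by decide +kernel⟩

theorem c_mm_033 : CertN 0 536870912 0 1230186008 469762048 67108864 3 false false false .pnn 0 3 3
    ndN0q0 ndN4q3 pcN3 Cut.none Ext.none :=
  certN0 (fam := false) (s1 := false) (s2 := false) (a := 0) (b := 3) (c := 3) (cn := .pnn) (n1 := ndN0q0) (n2 := ndN4q3) (pc := pcN3) (cut := Cut.none) (xt := Ext.none) (P1 := 0) (W1 := 536870912) (P2 := 0) (W2 := 1230186008) (P3 := 469762048) (W3 := 67108864) (N0 := 3)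
    rfl k0_mm_033

noncomputable def cut_mm_101 : Cut := Cut.of [[⟨0, 1, 0, 67108864⟩, ⟨1, 0, 0, 67108864⟩, ⟨2, 1, 0, 67108864⟩]]

noncomputable def f_mm_101 : ℕ → ℕ → ℕ → ℕ → Bool := onCell 536870912 536870912 0 536870912 469762048 67108864
    (rowN 3 1 false false false .npn 1 0 1 (qsf 536870912 536870912 536870912 536870912 0) ndN0q1 ndN4q1 pcN0 cut_mm_101 Ext.none)

def k0_mm_101 : ∃ t, chk3 f_mm_101 t 1 1 1 = true :=
  ⟨(a (l 3) (b (a (l 3) (b (a (l 3) (b (a (l 3) (b (l 6) (l 3))) (l 3))) (l 3))) (l 3))), by decide +kernel⟩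

theorem c_mm_101 : CertN 536870912 536870912 536870912 536870912 469762048 67108864 3 false false false .npn 1 0 1
    ndN0q1 ndN4q1 pcN0 cut_mm_101 Ext.none :=
  certN1 (fam := false) (s1 := false) (s2 := false) (a := 1) (b := 0) (c := 1) (cn := .npn) (n1 := ndN0q1) (n2 := ndN4q1) (pc := pcN0) (cut := cut_mm_101) (xt := Ext.none) (P1 := 536870912) (W1 := 536870912) (P2 := 536870912) (W2 := 536870912) (P3 := 469762048) (W3 := 67108864) (N0 := 3)
    rfl (fun _ => rfl) k0_mm_101

noncomputable def cut_mm_102 : Cut := Cut.of [[⟨0, 1, 0, 67108864⟩, ⟨1, 0, 0, 67108864⟩, ⟨2, 1, 0, 67108864⟩]]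

noncomputable def f_mm_102 : ℕ → ℕ → ℕ → ℕ → Bool := onCell 536870912 536870912 0 536870912 469762048 67108864
    (rowN 3 1 false false false .npp 1 0 2 (qsf 536870912 536870912 1073741824 536870912 0) ndN0q1 ndN4q2 pcN0 cut_mm_102 Ext.none)

def k0_mm_102 : ∃ t, chk3 f_mm_102 t 1 1 1 = true :=
  ⟨(a (l 3) (b (a (l 3) (b (a (l 3) (b (a (l 3) (b (l 6) (l 3))) (l 3))) (l 3))) (l 3))), by decide +kernel⟩

theorem c_mm_102 : CertN 536870912 536870912 1073741824 536870912 469762048 67108864 3 false false false .npp 1 0 2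
    ndN0q1 ndN4q2 pcN0 cut_mm_102 Ext.none :=
  certN1 (fam := false) (s1 := false) (s2 := false) (a := 1) (b := 0) (c := 2) (cn := .npp) (n1 := ndN0q1) (n2 := ndN4q2) (pc := pcN0) (cut := cut_mm_102) (xt := Ext.none) (P1 := 536870912) (W1 := 536870912) (P2 := 1073741824) (W2 := 536870912) (P3 := 469762048) (W3 := 67108864) (N0 := 3)
    rfl (fun _ => rfl) k0_mm_102

noncomputable def f_mm_112 : ℕ → ℕ → ℕ → ℕ → Bool := onCell 536870912 536870912 1073741824 536870912 469762048 67108864
    (rowN 3 2 false false false .dn 1 1 2 (qsf 536870912 536870912 1073741824 536870912 1) ndN0q1 ndN4q2 pcN1 Cut.none Ext.none)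

def k0_mm_112 : ∃ t, chk3 f_mm_112 t 1 1 1 = true :=
  ⟨(a (l 3) (l 5)), by decide +kernel⟩

theorem c_mm_112 : CertN 536870912 536870912 1073741824 536870912 469762048 67108864 3 false false false .dn 1 1 2
    ndN0q1 ndN4q2 pcN1 Cut.none Ext.none :=
  certN2 (fam := false) (s1 := false) (s2 := false) (a := 1) (b := 1) (c := 2) (cn := .dn) (n1 := ndN0q1) (n2 := ndN4q2) (pc := pcN1) (cut := Cut.none) (xt := Ext.none) (P1 := 536870912) (W1 := 536870912) (P2 := 1073741824) (W2 := 536870912) (P3 := 469762048) (W3 := 67108864) (N0 := 3)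
    rfl (fun _ => rfl) k0_mm_112

noncomputable def f_mm_113 : ℕ → ℕ → ℕ → ℕ → Bool := onCell 536870912 536870912 0 1230186008 469762048 67108864
    (rowN 3 0 false false false .nn 1 1 3 (qsf 536870912 536870912 0 1230186008 1) ndN0q1 ndN4q3 pcN1 Cut.none Ext.none)

def k0_mm_113 : ∃ t, chk3 f_mm_113 t 1 1 1 = true :=
  ⟨(a (l 5) (b (l 5) (a (b (l 5) (l 3)) (l 3)))), by decide +kernel⟩

theorem c_mm_113 : CertN 536870912 536870912 0 1230186008 469762048 67108864 3 false false false .nn 1 1 3
    ndN0q1 ndN4q3 pcN1 Cut.none Ext.none :=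
  certN0 (fam := false) (s1 := false) (s2 := false) (a := 1) (b := 1) (c := 3) (cn := .nn) (n1 := ndN0q1) (n2 := ndN4q3) (pc := pcN1) (cut := Cut.none) (xt := Ext.none) (P1 := 536870912) (W1 := 536870912) (P2 := 0) (W2 := 1230186008) (P3 := 469762048) (W3 := 67108864) (N0 := 3)
    rfl k0_mm_113

noncomputable def f_mm_123 : ℕ → ℕ → ℕ → ℕ → Bool := onCell 1073741824 536870912 0 1230186008 469762048 67108864
    (rowN 3 2 false false false .npn 1 2 3 (qsf 536870912 536870912 0 1230186008 2) ndN0q1 ndN4q3 pcN2 Cut.none Ext.none)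

def k0_mm_123 : ∃ t, chk3 f_mm_123 t 1 1 1 = true :=
  ⟨(b (l 5) (l 5)), by decide +kernel⟩

theorem c_mm_123 : CertN 536870912 536870912 0 1230186008 469762048 67108864 3 false false false .npn 1 2 3
    ndN0q1 ndN4q3 pcN2 Cut.none Ext.none :=
  certN2 (fam := false) (s1 := false) (s2 := false) (a := 1) (b := 2) (c := 3) (cn := .npn) (n1 := ndN0q1) (n2 := ndN4q3) (pc := pcN2) (cut := Cut.none) (xt := Ext.none) (P1 := 536870912) (W1 := 536870912) (P2 := 0) (W2 := 1230186008) (P3 := 469762048) (W3 := 67108864) (N0 := 3)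
    rfl (fun _ => rfl) k0_mm_123

noncomputable def f_mm_133 : ℕ → ℕ → ℕ → ℕ → Bool := onCell 1610612736 536870912 0 1230186008 469762048 67108864
    (rowN 3 2 false false false .dn 1 3 3 (qsf 536870912 536870912 0 1230186008 3) ndN0q1 ndN4q3 pcN3 Cut.none Ext.none)

def k0_mm_133 : ∃ t, chk3 f_mm_133 t 1 1 1 = true :=
  ⟨(l 5), by decide +kernel⟩

theorem c_mm_133 : CertN 536870912 536870912 0 1230186008 469762048 67108864 3 false false false .dn 1 3 3
    ndN0q1 ndN4q3 pcN3 Cut.none Ext.none :=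
  certN2 (fam := false) (s1 := false) (s2 := false) (a := 1) (b := 3) (c := 3) (cn := .dn) (n1 := ndN0q1) (n2 := ndN4q3) (pc := pcN3) (cut := Cut.none) (xt := Ext.none) (P1 := 536870912) (W1 := 536870912) (P2 := 0) (W2 := 1230186008) (P3 := 469762048) (W3 := 67108864) (N0 := 3)
    rfl (fun _ => rfl) k0_mm_133

end Pool.Agent.Strip051.G.I7_16_1_2.Tab.C.NB04

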