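import Pool.Agent.Strip051.G.I7_16_1_2.Tab

/-! # Certificates N17 (generated) -/

set_option linter.all false
set_option maxRecDepth 100000

namespace Pool.Agent.Strip051.G.I7_16_1_2.Tab.C.NB04

open Pool.Agent.Strip051.PB Pool.Agent.Strip051.PB.T
open Pool.Agent.Strip051.G.I7_16_1_2.Tab

noncomputable def cut_mm_202 : Cut := Cut.of [[⟨0, 1, 0, 67108864⟩, ⟨1, 0, 0, 67108864⟩, ⟨2, 1, 0, 67108864⟩]]

noncomputable def f_mm_202 : ℕ → ℕ → ℕ → ℕ → Bool := onCell 0 536870912 0 536870912 469762048 67108864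
    (rowN 3 1 false false false .pp 2 0 2 (qsf 0 536870912 1073741824 536870912 0) ndN0q2 ndN4q2 pcN0 cut_mm_202 Ext.none)

def k0_mm_202 : ∃ t, chk3 f_mm_202 t 2 2 1 = true :=
  ⟨(b (b (a (b (l 16644408) (l 16652576)) (b (a (l 16550784) (l 16502368)) (a (l 16538448) (l 16523544)))) (a (a (l 16687104) (b (l 16595320) (l 16589616))) (a (b (l 16548280) (l 16580152)) (l 16568856)))) (a (b (a (b (l 16646776) (l 16660224)) (l 16635248)) (a (l 16694536) (b (l 16677080) (l 16692416)))) (b (a (l 16644056) (b (a (l 16643800) (l 16657816)) (a (l 16671320) (l 16688744)))) (a (b (l 16679440) (l 16699088)) (a (b (l 16696528) (l 16707040)) (b (l 16705056) (l 16719512))))))), by decide +kernel⟩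

def k1_mm_202 : ∃ t, chk3 f_mm_202 t 4 6 1 = true :=
  ⟨(b (a (b (l 16732904) (l 16734976)) (b (l 16704000) (l 16709392))) (a (l 202501390855) (l 16846984))), by decide +kernel⟩

def k2_mm_202 : ∃ t, chk3 f_mm_202 t 5 6 1 = true :=
  ⟨(b (a (b (l 16705224) (l 16712032)) (b (a (l 16718360) (l 16774824)) (a (l 16770768) (b (l 16784384) (a (l 16743800) (a (b (l 16749256) (l 16777528)) (b (l 16779408) (c (a (l 16789768) (b (l 16771960) (l 214916155447))) (l 163913416839))))))))) (a (a (l 214849183127) (b (l 16723032) (b (l 16730848) (l 219680895287)))) (b (a (b (l 16757200) (a (l 16736472) (b (l 16744224) (c (l 16780480) (l 16773840))))) (b (a (b (l 16769112) (a (l 16752832) (c (l 183777647447) (l 180019538471)))) (c (a (b (a (l 16767288) (l 186998872503)) (a (b (l 203104995303) (l 218674234055)) (b (l 217600492999) (l 3)))) (b (a (b (l 214379283463) (l 219211106407)) (b (a (l 218674234951) (l 3)) (l 3))) (l 3))) (a (b (l 158544704951) (b (l 203641838119) (l 236927842231))) (b (b (a (l 189683215911)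 (l 217063618263)) (l 251960229719)) (l 3))))) (a (c (a (b (l 16788312) (a (l 212768688695) (b (l 215453006007) (l 226190429271)))) (b (a (b (l 16773104) (l 215453006903)) (b (l 216526749591) (l 3))) (l 3))) (a (b (l 16782432) (a (l 183777638535) (l 206863066839))) (b (a (l 163913417591) (l 219211110855)) (l 3)))) (l 3)))) (a (b (a (l 16794360) (c (a (b (l 16764536) (a (l 16792664) (l 214916155591))) (b (b (l 212231795159) (l 216526769623)) (a (b (l 218674234743) (l 3)) (l 3)))) (a (b (l 16757832) (l 166597772231)) (b (a (l 183777636663) (l 200957484119)) (a (l 217063617719) (l 3)))))) (a (c (a (b (l 16761792) (l 288937203335)) (b (a (l 16791520) (l 213842411975)) (a (l 215453030055) (l 3)))) (a (l 209480340903) (b (l 164987160407) (l 225116680999)))) (a (b (b (c (l 226727299735) (l 207936810583)) (l 3)) (l 3)) (l 3)))) (a (b (a (b (a (b (c (l 225116686935) (l 202568102023)) (l 3)) (l 3)) (l 3)) (l 3)) (l 3)) (l 3)))))), by decide +kernel⟩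

def k3_mm_202 : ∃ t, chk3 f_mm_202 t 2 7 1 = true :=
  ⟨(a (l 2) (a (l 2) (a (l 2) (l 3)))), by decide +kernel⟩

def k4_mm_202 : ∃ t, chk3 f_mm_202 t 6 4 1 = true :=
  ⟨(b (a (b (l 16643832) (l 16562400)) (b (l 16733320) (a (l 16611072) (l 16647216)))) (a (b (l 16613992) (b (l 16647768) (l 16643944))) (a (b (b (l 16647376) (l 16668640)) (b (l 16688152) (l 16703424))) (b (b (a (l 16672760) (l 16689256)) (a (l 16692672) (l 16708128))) (b (l 16714496) (l 16790168)))))), by decide +kernel⟩

def k5_mm_202 : ∃ t, chk3 f_mm_202 t 14 8 1 = true :=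
  ⟨(b (a (b (l 16636208) (l 16650352)) (b (l 16728536) (l 16733696))) (b (a (l 16674184) (a (b (l 16699248) (l 16710024)) (b (l 16783032) (l 16800976)))) (a (b (a (l 16681440) (l 16700824)) (l 16764296)) (a (a (l 16803888) (l 16791720)) (b (l 16758960) (l 16787568)))))), by decide +kernel⟩

def k6_mm_202 : ∃ t, chk3 f_mm_202 t 15 16 1 = true :=
  ⟨(a (a (b (l 6) (b (l 6) (b (l 16728720) (l 16796856)))) (l 6)) (l 6)), by decide +kernel⟩

def k7_mm_202 : ∃ t, chk3 f_mm_202 t 60 34 1 = true :=
  ⟨(b (a (l 16767440) (l 16766576)) (a (l 16743976) (l 16785024))), by decide +kernel⟩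

def k8_mm_202 : ∃ t, chk3 f_mm_202 t 122 34 1 = true :=
  ⟨(b (a (l 16773936) (l 16778944)) (b (l 16782456) (c (l 16774152) (l 16775512)))), by decide +kernel⟩

def k9_mm_202 : ∃ t, chk3 f_mm_202 t 123 68 1 = true :=
  ⟨(a (b (l 6) (l 16775576)) (l 6)), by decide +kernel⟩

def k10_mm_202 : ∃ t, chk3 f_mm_202 t 246 69 1 = true :=
  ⟨(b (b (l 16778592) (l 16780600)) (a (b (l 16781304) (l 16780016)) (b (c (l 16778776) (l 16778528)) (a (c (l 16777432) (l 16777304)) (b (c (l 16778200) (l 16778136)) (a (c (l 16778184) (l 16778176)) (b (c (c (l 16777952) (l 16777928)) (l 118816245495)) (c (b (a (l 16778192) (c (a (c (l 163913401287) (l 16777672)) (l 227264169527)) (a (l 159618434183) (l 227801040279)))) (a (c (a (l 16777760) (b (l 16777872) (l 233169749287))) (l 173040207191)) (c (l 328732770871) (l 338933318167)))) (a (c (l 152639112519) (l 152639112359)) (b (c (l 196125656519) (l 199346881719)) (a (l 266992617575) (l 3)))))))))))), by decide +kernel⟩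

def k11_mm_202 : ∃ t, chk3 f_mm_202 t 247 138 1 = true :=
  ⟨(a (b (l 16777232) (c (l 16778032) (l 16777840))) (b (l 6) (a (b (c (l 16778120) (l 16778040)) (a (c (l 16777456) (l 16777432)) (b (c (l 16778176) (l 16777856)) (c (a (c (c (l 135996113991) (l 133848630231)) (l 134385501351)) (b (c (a (l 16777736) (b (l 16777688) (l 227801040151))) (a (l 16777048) (l 191293818103))) (a (c (b (l 205789332695) (l 3)) (l 228874782071)) (l 3)))) (c (a (l 133848630407) (b (l 168208368823) (l 323364061527))) (a (l 16777552) (b (l 168208368647) (l 329269641559)))))))) (b (b (l 6) (a (a (c (l 16777840) (l 16777840)) (l 6)) (l 6))) (a (c (b (a (b (c (l 16777624) (l 16776944)) (c (a (l 158544692375) (b (l 200420623575) (l 3))) (a (l 155860337719) (l 224579814759)))) (b (c (a (b (l 16777840) (l 221895460103)) (l 316921610583)) (a (l 186998850791) (l 325511545159))) (l 3))) (a (b (c (l 331417125415) (l 340543930887)) (l 3)) (l 3))) (b (a (c (b (l 16776928) (l 195051914599)) (l 166597756215)) (b (c (l 217063622087)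 (l 225116685575)) (l 3))) (a (c (l 353965703975) (l 360945025815)) (l 3)))) (l 3)))))), by decide +kernel⟩

def k12_mm_202 : ∃ t, chk3 f_mm_202 t 494 278 1 = true :=
  ⟨(a (b (l 16778784) (c (l 16778168) (l 16778448))) (b (c (a (l 16778472) (a (l 16777632) (b (l 16777704) (c (b (l 16776816) (a (l 16777016) (l 170892723479))) (l 138680468695))))) (a (l 16778424) (b (l 16777536) (c (l 130090534215) (l 16777728))))) (c (a (b (c (l 16777896) (l 16777888)) (b (a (l 16778136) (c (a (l 144586048647) (b (l 180019528903) (l 251423360359))) (a (l 16777760) (l 210084300103)))) (a (c (c (l 160692175943) (l 255718325783)) (l 158007821559)) (c (a (l 304573579559) (l 3)) (l 328195899831))))) (b (a (b (c (l 16777840) (l 16777648)) (c (a (b (l 16777808) (l 202031236327)) (l 240685942311)) (a (l 172503336087) (l 241222813111)))) (b (c (c (l 294373032199) (l 297057386743)) (a (l 205789332791) (l 339470188951))) (l 3))) (l 3))) (a (b (l 16777896) (a (c (l 142975436007) (l 16777760)) (b (c (l 183240754535)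 (l 184851366999)) (a (l 251423361031) (l 3))))) (b (a (b (l 136532985447) (c (l 205789332983) (l 210084300039))) (b (c (a (l 210621170855) (l 349670736279)) (l 242296554759)) (l 3))) (l 3)))))), by decide +kernel⟩

def k13_mm_202 : ∃ t, chk3 f_mm_202 t 494 279 1 = true :=
  ⟨(a (b (a (c (b (l 16777584) (b (l 16777968) (a (l 16778072) (c (c (l 166597756119) (l 166060885095)) (l 164450272551))))) (b (l 16777576) (c (l 136532985239) (l 135996114103)))) (c (b (a (c (l 16778120) (l 16778096)) (c (b (l 138680468615) (b (a (l 16777832) (l 235854103863)) (l 300278612247))) (b (l 16777672) (a (l 181630141639) (l 249812747671))))) (a (b (c (a (l 153712854199) (b (l 192367559911) (l 263234520391))) (a (l 16777784) (l 218674234727))) (c (l 324437803527) (l 333564608999))) (l 3))) (b (a (l 16778088) (b (l 140291082039) (c (l 212231783975) (l 220821718231)))) (a (b (c (l 189683205527) (l 191830688903)) (a (l 257865812023) (l 3))) (l 3))))) (b (a (c (a (c (b (l 145122919687) (a (b (l 16777864) (l 226190427415))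 (l 317458482823))) (b (l 16777784) (a (l 190220076311) (l 258402682311)))) (b (a (c (b (l 198810010871) (l 3)) (l 222969202055)) (l 3)) (l 3))) (c (a (b (l 16777680) (l 218674234951)) (b (l 317995352375) (l 3))) (a (l 186998851047) (l 338933318215)))) (l 3)) (l 3))) (b (b (b (a (a (a (c (c (b (l 186461979863) (l 257328940343)) (l 214379267415)) (c (l 219747976391) (l 220284847159))) (l 3)) (l 3)) (l 3)) (l 3)) (l 3)) (l 3))), by decide +kernel⟩

def k14_mm_202 : ∃ t, chk3 f_mm_202 t 495 139 1 = true :=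
  ⟨(b (a (b (a (c (b (a (l 16778048) (b (c (l 16777648) (l 16777624)) (c (a (l 166597756151) (b (l 211694912743) (l 3))) (a (l 163913401447) (l 233169749399))))) (a (b (c (a (l 16777760) (b (l 168208368791) (l 239612200263))) (a (l 16777080) (l 201494365431))) (b (c (l 304036708647) (l 240685942231)) (l 3))) (b (c (l 336785834567) (l 345375769143)) (l 3)))) (c (b (a (l 16776728) (b (l 16776944) (l 202031236487))) (a (b (l 176261432551) (l 329269641607)) (l 359334413127))) (b (a (l 16776736) (l 171429594471)) (a (b (l 175724561463) (l 335175221639)) (l 365239993159))))) (a (b (b (c (a (c (b (l 163376530391) (l 233706620199)) (l 195588785415)) (c (l 322290319751) (l 333027737959))) (c (l 222969202167) (l 232632878375))) (l 3)) (l 3)) (l 3))) (l 3)) (l 3)) (l 3)), by decide +kernel⟩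

def k15_mm_202 : ∃ t, chk3 f_mm_202 t 60 35 1 = true :=
  ⟨(a (b (l 16772760) (c (l 16781328) (l 16779712))) (b (b (l 16780440) (a (l 16760920) (l 16776312))) (a (b (l 16785760) (l 16781744)) (b (c (l 16780496) (l 16779928)) (a (c (l 16777736) (l 16777416)) (b (c (l 16779184) (l 16779008)) (c (a (l 16777792) (b (c (l 16778512) (l 16778536)) (a (b (l 16777696) (a (l 16778768) (b (l 133311760775) (c (l 198810011767) (l 198273140583))))) (b (c (a (l 138143598423) (b (l 170892724007) (l 293299291095))) (a (l 16778248) (b (l 167134627335) (l 239612200983)))) (a (c (c (l 295983645111) (l 298667999639)) (l 305110450551)) (l 3)))))) (a (l 16777752) (c (b (l 16778544) (a (b (l 16776344) (l 155860338567)) (b (a (l 16778200) (l 204178721047)) (l 327659029207)))) (b (l 16778552) (a (l 146733532743) (b (l 177872045991) (l 333027738343))))))))))))), by decide +kernel⟩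

def k16_mm_202 : ∃ t, chk3 f_mm_202 t 244 70 1 = true :=
  ⟨(b (l 16777376) (c (l 16778920) (l 16778456))), by decide +kernel⟩

def k17_mm_202 : ∃ t, chk3 f_mm_202 t 245 140 1 = true :=
  ⟨(a (c (l 16781408) (l 16780928)) (b (l 16777472) (c (l 16778224) (l 16778056)))), by decide +kernel⟩

def k18_mm_202 : ∃ t, chk3 f_mm_202 t 490 141 1 = true :=
  ⟨(b (c (l 16778976) (l 16778760)) (a (c (l 16777608) (l 16777520)) (b (c (l 16778360) (l 16778336)) (a (c (c (l 120963729047) (l 16778024)) (c (l 16777704) (l 16777712))) (b (c (a (l 16778000) (c (b (l 16776952) (a (l 16777808) (l 203641849447))) (l 157470951175))) (c (l 144049178167) (l 144586048839))) (c (a (c (b (l 158544692727) (a (l 209010558551) (l 3))) (b (l 154786596247) (l 256255198375))) (b (a (c (l 238001587895) (l 237464716855)) (l 3)) (l 3))) (a (c (l 194515044247) (l 198273140263)) (c (l 337859576455) (l 344838898311))))))))), by decide +kernel⟩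

def k19_mm_202 : ∃ t, chk3 f_mm_202 t 491 141 1 = true :=
  ⟨(b (a (b (l 16778976) (c (c (l 16777984) (l 16777336)) (c (l 16777336) (l 16777328)))) (b (c (a (l 16778624) (b (l 16777696) (b (c (l 16777848) (l 16778136)) (a (l 16778256) (c (a (l 178945787399) (l 298131129911)) (l 237464716311)))))) (a (l 16778616) (b (l 16777720) (a (l 16778064) (c (l 177335174903) (l 180556400023)))))) (a (b (c (b (l 16777976) (c (c (l 146196661591) (l 146196661383)) (l 143512307255))) (c (l 135996114295) (l 16777752))) (c (a (b (c (l 143512307063) (l 16777704)) (c (a (l 188609463863) (l 305110450503)) (l 243907167303))) (b (c (l 297057386807) (l 305110450439)) (l 3))) (a (c (l 182703884071) (l 185925109191)) (c (l 328195899927) (l 333564609063))))) (a (b (c (b (c (a (l 16777824) (l 213305525831)) (l 185925109351)) (a (c (l 301889226311) (l 247665264167)) (l 3))) (b (c (l 185388238199) (l 185925108919)) (a (l 252497103015) (l 3)))) (l 3)) (l 3))))) (a (b (c (a (b (l 16777768) (a (c (l 16778200) (l 16778152))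 (b (c (l 151028499895) (l 16777896)) (c (a (l 198810011223) (l 312089772407)) (l 250349618295))))) (b (a (c (b (l 16776920) (a (l 16777776) (l 193441302103))) (l 152102241911)) (b (c (a (l 159618434471) (l 223506073207)) (l 192904431255)) (c (l 322827192103) (l 330343383527)))) (a (b (a (c (l 227801040519) (l 227264169479)) (l 3)) (l 3)) (l 3)))) (c (a (b (l 16776448) (a (l 16776808) (l 187535722343))) (b (a (l 151565370839) (b (l 192904431031) (l 341080801751))) (a (l 333564609095) (l 3)))) (a (b (l 16776456) (l 167671498375)) (b (a (l 16777784) (b (l 193441301735) (l 349670736359))) (l 349670736823))))) (b (a (a (c (b (c (a (l 169818981863) (l 233169749671)) (l 199883753143)) (c (l 327659030359) (l 336248963607))) (b (c (l 200420623831) (l 201494365463)) (l 349133866807))) (l 3)) (l 3)) (l 3))) (l 3))), by decide +kernel⟩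

def k20_mm_202 : ∃ t, chk3 f_mm_202 t 244 142 1 = true :=
  ⟨(a (b (l 16777720) (c (l 16778416) (l 16778288))) (b (a (c (l 16779680) (l 16779536)) (b (l 16778744) (c (a (l 16778416) (b (l 16778792) (c (l 131701147351) (l 130627405303)))) (c (l 16778008) (l 16778088))))) (a (b (c (l 16778440) (l 16778440)) (a (c (b (l 16778856) (c (c (l 141901694567) (l 141364823591)) (l 139217340119))) (c (l 131164276359) (l 16777824))) (c (b (b (c (l 16778208) (l 16778152)) (a (l 16778288) (c (a (l 182167012919) (l 244444038871)) (l 250886488791)))) (a (b (c (a (l 16777856) (l 215453009671)) (l 187535722103)) (c (l 309942288855) (l 319605965223))) (l 3))) (b (c (l 160692176759) (l 162302789143)) (a (b (l 194515044791) (l 332490869735)) (l 3)))))) (b (b (a (c (l 16778232) (l 16777864)) (c (a (b (c (l 16778368) (l 16777000)) (c (a (l 171429594631) (l 233169749831)) (l 200957494967))) (b (c (a (l 200420623991) (l 310479159671)) (l 253033972855)) (l 3))) (a (c (l 173040207559) (l 178408916311)) (b (l 227264170535)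 (l 3))))) (a (c (a (c (l 145122920167) (l 143512307319)) (c (c (b (l 183240754567) (l 304573579687)) (l 277193162903)) (a (l 190756947847) (l 301352354055)))) (a (c (l 16777584) (l 16778224)) (c (l 211694913703) (l 218137364167)))) (l 3))) (b (b (a (a (a (c (c (l 210084300567) (l 209010558471)) (l 216526752007)) (l 3)) (l 3)) (l 3)) (l 3)) (l 3)))))), by decide +kernel⟩

def k21_mm_202 : ∃ t, chk3 f_mm_202 t 488 143 1 = true :=
  ⟨(b (a (b (c (l 16777888) (l 16775216)) (a (c (l 16778504) (l 16778520)) (c (b (l 16778936) (a (l 16778032) (c (b (l 16778304) (l 183240755063)) (l 160692176695)))) (c (l 137606727575) (l 139217339863))))) (b (a (c (l 16778152) (l 16778824)) (b (c (c (l 16778008) (l 16777952)) (l 16777912)) (c (a (c (b (l 16776632) (l 175724562231)) (l 154786596599)) (b (c (a (l 164450272743) (l 225653557031)) (l 195051915095)) (c (l 315847868935) (l 324974674391)))) (a (c (l 154249725431) (l 16777624)) (b (l 201494366743) (l 340543933463)))))) (b (b (a (c (c (l 141364823831) (l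 16777896)) (l 143512308039)) (a (a (c (c (l 231022266167) (l 229948524119)) (l 236390975863)) (l 3)) (l 3))) (a (c (a (c (l 16778392) (l 16777016)) (c (a (l 202568107815) (l 309405417847)) (l 264308261671))) (a (l 16778264) (l 229948525095))) (l 3))) (b (a (a (c (c (a (l 175724561959) (l 236390975303)) (l 203104978791)) (l 209010559559)) (l 3)) (l 3)) (l 3))))) (a (b (b (a (c (c (l 16778088) (l 16778024)) (l 130090535351)) (c (c (a (b (l 162839660263) (a (l 213305526055) (l 3))) (b (l 304573579687) (l 3))) (a (b (l 158544692839) (l 270750712679)) (l 328195900039))) (a (b (l 166597757287) (l 237464717927)) (b (l 325511547831) (l 3))))) (a (c (a (b (l 16778312) (c (l 191293818791) (l 190220076695))) (b (c (l 211694913623) (l 210621171543)) (l 3))) (a (b (l 16778208) (l 196662528583)) (b (l 217063623303) (l 3)))) (l 3))) (b (b (b (c (c (l 341080802663) (l 348060124503)) (a (l 342691417287) (l 3))) (l 3)) (l 3)) (l 3))) (l 3))), by decide +kernel⟩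

def k22_mm_202 : ∃ t, chk3 f_mm_202 t 489 143 1 = true :=
  ⟨(b (a (b (b (a (c (a (b (c (l 147807274423) (l 16777064)) (c (a (l 192904431207) (l 254644586247)) (l 257865810679))) (b (c (a (l 220284847895) (l 3)) (l 266455745751)) (l 3))) (a (b (l 149954758855) (l 222432332279)) (b (l 242296556103) (l 3)))) (l 3)) (l 3)) (l 3)) (l 3)) (l 3)), by decide +kernel⟩

def k23_mm_202 : ∃ t, chk3 f_mm_202 t 245 71 1 = true :=
  ⟨(b (a (b (a (b (a (c (l 16778704) (l 16778720)) (c (b (l 16778488) (a (c (l 133848630871) (l 16777888)) (b (c (a (l 16778408) (l 184851367479)) (l 162302789079)) (c (a (l 218137364231) (l 3)) (l 259476424055))))) (b (l 16777816) (a (l 138680469687) (b (l 169818982551) (l 240685943287)))))) (a (b (c (a (l 16778064) (b (l 126332438663) (c (a (l 161229047239) (l 223506073367)) (l 193441302167)))) (c (l 152102241975) (l 153175983543))) (c (a (b (c (l 173577078391) (l 169818981895)) (c (a (l 228337911591) (l 3)) (l 308331675959))) (b (c (l 316384741159) (l 328195899863)) (l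 3))) (a (c (l 205789333623) (l 211694913175)) (b (l 340543932151) (l 3))))) (a (b (b (c (c (a (l 189683205719) (l 302962966855)) (l 246054650951)) (c (l 214916138599) (l 219747976535))) (l 3)) (l 3)) (l 3)))) (b (a (c (c (b (a (b (l 16776984) (a (l 16777840) (l 213305526007))) (b (a (l 179482658343) (l 242833426135)) (l 3))) (a (l 326585287383) (l 3))) (b (a (b (l 16776936) (l 185925109351)) (b (l 239612199959) (l 3))) (l 344302027815))) (c (b (a (l 162302789207) (b (l 207399945783) (l 3))) (l 350744478759)) (b (a (l 165524014311) (l 310479159623)) (l 357186929703)))) (l 3)) (l 3))) (l 3)) (l 3)) (l 3)), by decide +kernel⟩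

def k24_mm_202 : ∃ t, chk3 f_mm_202 t 492 140 1 = true :=
  ⟨(b (c (a (l 16779488) (c (l 16778112) (l 16778080))) (c (l 16778040) (l 16777984))) (a (b (c (l 16778280) (l 16778232)) (a (c (c (l 16777592) (l 16777608)) (l 16778272)) (b (c (c (c (l 129553663207) (l 129016792263)) (l 129016792455)) (c (l 16777696) (l 16778032))) (c (a (b (c (l 16777680) (l 16776984)) (c (a (l 169282110935) (l 291688678919)) (l 200420624039))) (b (c (a (l 199346882119) (l 315310999207)) (l 243907167527)) (l 3))) (a (c (l 172503336647) (l 174650819943)) (b (c (l 223506073271) (l 232632878375)) (l 3))))))) (b (c (a (b (l 16777656) (a (l 16778048) (b (c (l 16777000) (l 16776960)) (c (a (l 160155305287) (l 224042944119)) (l 193441302071))))) (b (a (c (l 132238017927) (l 16777880)) (b (c (a (l 16777080) (l 184851367447)) (l 162302788887)) (c (a (l 219747976807) (l 3)) (l 307257934119)))) (a (b (c (a (l 189683205671) (l 308331677303)) (l 241759683671)) (l 3)) (l 3)))) (a (b (l 16777672) (a (l 16778016) (c (l 167671498375)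 (l 168745239863)))) (b (a (c (l 16777520) (l 16777528)) (c (b (l 162302788839) (l 314237255959)) (l 205789333111))) (a (b (c (l 216526751367) (l 222432331079)) (l 3)) (l 3))))) (b (a (c (a (b (c (a (l 16777768) (l 194515043911)) (l 171429594535)) (c (c (l 302426096007) (l 306721064583)) (l 313163514199))) (a (c (l 328732770935) (l 338396447319)) (l 3))) (c (a (b (l 169282110743) (l 320679706951)) (l 351818220295)) (a (l 209010558631) (l 358797542151)))) (l 3)) (l 3))))), by decide +kernel⟩

def k25_mm_202 : ∃ t, chk3 f_mm_202 t 493 140 1 = true :=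
  ⟨(b (a (b (c (a (l 16778544) (b (l 16777616) (a (l 16777984) (b (l 16778224) (c (a (l 16777792) (l 205789333047)) (l 180019529095)))))) (b (l 16778600) (c (c (l 130627405031) (l 130090534135)) (l 132238017863)))) (c (a (b (c (l 122574341543) (l 16777984)) (a (b (l 16778088) (c (a (l 150491628823) (l 214916138567)) (l 186461980087))) (b (c (a (l 180556400039) (l 301889226311)) (a (l 177872045335) (l 245517780423))) (l 3)))) (b (a (b (c (a (l 16777048) (l 176261432727)) (l 155860337895)) (c (a (l 210621171255) (l 3)) (l 301889224951))) (b (c (l 314774127031) (l 323364061591)) (l 3))) (l 3))) (a (b (c (l 16777976) (l 16777984)) (a (c (l 162302789207) (l 163376530695)) (b (c (l 209547429463) (l 214379267351)) (l 3)))) (b (a (c (b (l 16777808) (l 233169749591)) (l 198273140295)) (c (l 342154543783) (l 348596994727))) (l 3))))) (b (a (c (b (a (c (l 16777856) (l 16777824)) (b (c (l 151565370695) (l 148881015975)) (c (a (b (l 168208368807) (l 239075329335)) (l 322827191991)) (a (l 199346881879)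 (l 331417125239))))) (a (b (c (a (l 171429594487) (b (l 217063621959) (l 3))) (a (l 168745239735) (l 236390974919))) (c (l 333027738199) (l 344302027335))) (l 3))) (b (a (l 125795567479) (c (b (l 16777704) (l 227264169511)) (l 193441302039))) (a (b (c (l 202568107479) (l 206863074535)) (c (l 354502574647) (l 363629380151))) (l 3)))) (b (a (a (b (b (c (c (l 211158041911) (l 210621170871)) (l 220284847751)) (l 3)) (l 3)) (l 3)) (l 3)) (l 3))) (l 3))) (a (b (b (b (a (a (a (c (c (l 305647322711) (l 250349618663)) (l 254644586679)) (l 3)) (l 3)) (l 3)) (l 3)) (l 3)) (l 3)) (l 3))), by decide +kernel⟩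

def k26_mm_202 : ∃ t, chk3 f_mm_202 t 246 141 1 = true :=
  ⟨(a (b (a (b (a (c (b (a (c (b (l 16776848) (l 157470950887)) (l 141901694375)) (b (c (a (l 16777792) (l 203641849415)) (l 178408916439)) (a (c (l 295446775319) (l 238538458647)) (l 3)))) (a (b (c (a (l 208473687623) (l 3)) (l 250349618519)) (l 3)) (l 3))) (b (b (c (l 154786596295) (l 158007821415)) (a (l 160155306087) (a (l 243907168375) (l 3)))) (a (b (c (l 232096007831) (l 240685942103)) (l 3)) (l 3)))) (a (a (b (b (b (c (l 263771392167) (l 268066359111)) (l 3)) (l 3)) (l 3)) (l 3)) (l 3))) (l 3)) (l 3)) (l 3)) (l 3)), by decide +kernel⟩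

def k27_mm_202 : ∃ t, chk3 f_mm_202 t 247 70 1 = true :=
  ⟨(l 3), by decide +kernel⟩

def k28_mm_202 : ∃ t, chk3 f_mm_202 t 123 71 1 = true :=
  ⟨(l 3), by decide +kernel⟩

def k29_mm_202 : ∃ t, chk3 f_mm_202 t 31 17 1 = true :=
  ⟨(b (a (a (b (l 6) (a (b (b (l 6) (b (l 6) (l 3))) (l 3)) (l 3))) (l 3)) (l 3)) (l 3)), by decide +kernel⟩

def k30_mm_202 : ∃ t, chk3 f_mm_202 t 28 18 1 = true :=
  ⟨(a (b (l 16712344) (l 16721816)) (b (l 16722936) (l 16758120))), by decide +kernel⟩

def k31_mm_202 : ∃ t, chk3 f_mm_202 t 58 18 1 = true :=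
  ⟨(b (a (l 16735024) (l 16785456)) (b (l 16781592) (c (l 16781984) (l 16773256)))), by decide +kernel⟩

def k32_mm_202 : ∃ t, chk3 f_mm_202 t 59 36 1 = true :=
  ⟨(a (c (l 16786456) (l 16785176)) (b (l 16778664) (a (l 16783784) (b (l 16786584) (l 16779808))))), by decide +kernel⟩

def k33_mm_202 : ∃ t, chk3 f_mm_202 t 118 37 1 = true :=
  ⟨(b (b (l 16782448) (l 16775592)) (a (b (l 16766432) (l 16780488)) (b (c (l 16781648) (l 16781280)) (a (c (b (l 16772584) (l 16779488)) (l 16778624)) (b (a (l 16779152) (c (c (l 128479923527) (l 16778120)) (l 129553666343))) (a (b (c (l 16778472) (l 16778296)) (a (c (c (l 137606728999) (l 16779224)) (l 16779104)) (c (b (c (l 163376532647) (l 157470952135)) (c (l 272898195799) (l 279877517479))) (b (l 164450275095) (a (l 213305528471) (l 3)))))) (a (b (b (c (l 16779328) (l 16776440)) (c (a (l 146196664247) (b (l 170355855415) (l 254107717799))) (l 185388240967))) (b (c (c (l 289541194247) (l 299204873175)) (l 311552904199)) (l 3))) (b (b (c (c (a (l 169818983079)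 (l 260550164887)) (a (l 16778464) (l 222432332679))) (l 205252464999)) (l 3)) (l 3))))))))), by decide +kernel⟩

def k34_mm_202 : ∃ t, chk3 f_mm_202 t 119 74 1 = true :=
  ⟨(a (b (l 16778816) (c (l 16779648) (l 16779712))) (b (a (l 16779040) (b (l 16778512) (b (c (l 16779872) (l 16779888)) (a (l 16778904) (a (c (l 16778656) (l 16775928)) (b (c (l 16779128) (l 16776320)) (c (a (l 16778880) (c (l 181093272231) (l 175187691975))) (l 166597758503)))))))) (a (b (c (l 16779136) (l 16778512)) (a (c (b (l 16778024) (a (l 16778864) (b (l 16779336) (a (c (l 16778480) (l 16778344)) (c (l 209547430695) (l 205252463399)))))) (b (l 16775400) (c (l 152639114215) (l 156934080647)))) (a (b (c (c (l 16778608) (l 16779136)) (l 16778984)) (b (c (a (c (l 176261434007) (l 169818982823)) (c (l 276656292167) (l 283635613879))) (a (l 177872047607) (l 239612202695))) (l 3))) (b (b (c (c (l 156934081335) (l 152102242711)) (l 158007823751)) (c (c (a (l 202031237975) (l 299741741591)) (l 282561872039)) (a (l 206326206247)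 (l 324974674407)))) (l 3))))) (b (a (b (c (c (l 16778768) (l 16778648)) (l 16778584)) (a (b (c (l 16779232) (l 16776400)) (a (c (l 138680471143) (l 16778104)) (c (c (l 192367561511) (l 191830690423)) (l 197736271575)))) (c (c (b (a (l 161765919303) (l 264845132103)) (l 309405418263)) (b (a (l 16778408) (l 271287582855)) (l 325511548183))) (b (a (l 163376532663) (l 226727300663)) (l 331417128279))))) (b (c (c (a (b (l 143512308359) (a (l 185388239591) (l 289541194151))) (b (a (l 257865810279) (l 3)) (l 3))) (a (b (l 16778184) (l 271287582871)) (b (l 292762419495) (l 3)))) (a (b (l 147270405351) (a (l 190220078727) (l 311552904087))) (b (a (l 219747978807) (l 3)) (l 3)))) (l 3))) (a (a (a (b (b (c (c (l 271287583015) (l 277730033815)) (l 233169751671)) (l 3)) (l 3)) (l 3)) (l 3)) (l 3)))))), by decide +kernel⟩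

def k35_mm_202 : ∃ t, chk3 f_mm_202 t 238 75 1 = true :=
  ⟨(b (a (b (l 16779432) (b (c (l 16780072) (l 16780168)) (a (l 16780440) (c (a (l 16779080) (b (c (l 16778304) (l 16776840)) (a (c (l 180019530471) (l 172503337511)) (c (l 274508808535) (l 282025001143))))) (a (l 16778840) (c (l 179482660087) (l 183777626551))))))) (b (c (c (a (l 16778024) (b (l 135459245207) (a (b (l 16778200) (a (l 164450273943) (l 262160777591))) (b (a (l 188609465047) (l 286856839591)) (l 3))))) (a (l 16777904) (b (l 133848631943) (b (a (l 16776744) (l 268603228343)) (c (l 290614935911) (l 293299290455)))))) (a (l 16777960) (b (l 137606729623) (a (c (l 171966467159) (l 176261433607)) (b (a (l 192904433303) (l 310479159623)) (l 3)))))) (a (a (b (c (a (l 16779216) (c (l 153175985335) (l 151028501399))) (l 151028502487)) (a (b (c (b (l 175187693463) (l 233706623207)) (l 209010560983)) (l 3)) (l 3))) (b (b (c (a (l 141901696855) (b (l 165524016887) (l 224579817607))) (l 181093273639)) (c (c (l 291151806967) (l 302426098647))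 (l 310479163687))) (l 3))) (a (a (b (c (b (c (l 292225548759) (l 300278612343)) (l 3)) (l 331417128471)) (l 3)) (l 3)) (l 3))))) (a (b (a (b (a (c (l 16778752) (l 16775912)) (b (c (l 16779216) (l 16776344)) (c (c (l 170892725335) (l 164987144999)) (l 171966467991)))) (c (c (a (b (l 152102243303) (a (l 196125657559) (l 285246226855))) (b (l 282025001367) (l 3))) (a (b (l 16778248) (a (l 188609465095) (l 293836161319))) (l 311552901895))) (a (b (l 153712856679) (l 222432334327)) (b (l 301352358023) (l 3))))) (a (b (b (c (a (c (l 151565372007) (l 16778376)) (c (l 233169749559) (l 207936818023))) (l 193441304775)) (c (c (l 298667999863) (l 310479162471)) (l 320679709863))) (l 3)) (l 3))) (l 3)) (l 3))), by decide +kernel⟩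

def k36_mm_202 : ∃ t, chk3 f_mm_202 t 239 75 1 = true :=
  ⟨(b (a (b (a (b (c (a (b (a (l 16778912) (c (l 183777626775) (l 176798304791))) (a (c (l 255718326679) (l 212231785303)) (l 3))) (b (c (l 299741741703) (l 313700387959)) (l 3))) (b (a (l 169282113399) (l 320679709863)) (c (l 322827191255) (l 328732771367)))) (l 3)) (l 3)) (l 3)) (l 3)) (l 3)), by decide +kernel⟩

def k37_mm_202 : ∃ t, chk3 f_mm_202 t 28 19 1 = true :=
  ⟨(b (a (l 16756344) (b (l 16768488) (l 16785768))) (a (b (l 16745240) (l 16772680)) (a (b (l 16756896) (l 16781816)) (b (a (l 16783968) (l 16782904)) (a (c (l 16781528) (l 16779968)) (b (b (l 16776576) (c (l 16780696) (l 16778344))) (a (c (b (l 16779024) (c (a (l 16780928) (b (l 16779200) (a (l 164987146567) (l 247665263431)))) (a (l 16775368) (b (l 16778896) (a (l 159618436887) (l 253570843047)))))) (b (l 16773744) (a (l 16780224) (b (l 16778504) (a (l 182703884903) (l 271824458951)))))) (c (c (b (a (b (l 16780920) (l 149417890551)) (b (a (l 16776800) (b (l 16777192)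 (l 210621171607))) (a (l 241222812439) (l 3)))) (a (b (a (l 219211104807) (l 272361325063)) (l 3)) (l 3))) (b (a (l 144049180983) (b (a (l 16779120) (l 173040210119)) (a (l 245517779319) (l 3)))) (a (b (a (l 182167015815) (l 281488130295)) (l 3)) (l 3)))) (b (a (c (l 174113947111) (l 16778192)) (b (l 169282115511) (a (l 215453014295) (l 3)))) (a (b (a (l 202031238375) (l 298667999511)) (l 3)) (l 3))))))))))), by decide +kernel⟩

def k38_mm_202 : ∃ t, chk3 f_mm_202 t 116 38 1 = true :=
  ⟨(b (l 16780880) (c (l 16780328) (a (l 16764096) (l 16779176)))), by decide +kernel⟩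

def k39_mm_202 : ∃ t, chk3 f_mm_202 t 117 76 1 = true :=
  ⟨(b (l 16778808) (a (l 16778608) (b (l 16779544) (c (c (l 16778592) (l 16778656)) (l 16778688))))), by decide +kernel⟩

def k40_mm_202 : ∃ t, chk3 f_mm_202 t 234 77 1 = true :=
  ⟨(b (c (l 16776904) (l 16776744)) (a (c (b (l 16773016) (c (c (l 137069858919) (l 135996116535)) (l 136532987783))) (c (b (l 16773088) (l 16778800)) (l 137069857399))) (b (a (c (l 16780240) (l 16780096)) (b (c (l 16779872) (l 16780824)) (c (c (a (l 16779080) (b (l 163376532631) (l 255181455959))) (a (l 16779272) (b (l 16778376) (l 262160777495)))) (c (l 175724564647) (l 181093272407))))) (a (a (b (c (l 16779728) (l 16778688)) (c (b (c (l 200420623623) (l 169282112615)) (c (l 265382003143) (l 273971937463))) (b (l 177335177447) (l 292225548407)))) (b (c (b (l 148881019543) (c (l 213305525943) (l 186461982023))) (l 188609465271)) (l 3))) (a (b (b (c (c (l 238538457703) (l 203641851367)) (l 211158045511)) (l 3)) (l 3)) (l 3)))))), by decide +kernel⟩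

def k41_mm_202 : ∃ t, chk3 f_mm_202 t 235 77 1 = true :=
  ⟨(b (a (c (b (l 16779192) (c (a (l 16779688) (b (a (l 16778928) (l 154249727975)) (a (b (l 150491630711) (l 246054650455)) (l 290614936183)))) (a (l 16778168) (b (l 145659792903) (c (a (l 229948522551) (l 296520516103)) (l 271287582935)))))) (b (l 16779352) (a (l 16779304) (b (l 164450273815) (a (b (l 16779336) (l 218674238279)) (b (l 235317236599) (l 3))))))) (b (a (b (c (l 16778304) (l 16775424)) (c (a (l 16779792) (b (l 140291084839) (c (l 236927844887) (l 198273142183)))) (c (l 162839662183) (l 169282111783)))) (a (b (c (c (l 146196663911) (l 16778688)) (l 149417889959)) (b (c (c (l 253570843191) (l 258939552039)) (l 224042947431)) (l 3))) (b (c (b (c (l 173577080215) (l 166597757991)) (c (l 272898195863) (l 280951259335))) (b (l 174650822727) (l 296520515767))) (l 3)))) (a (a (b (c (b (c (l 186998852855) (l 180556401879)) (c (l 281488130519) (l 290078064951))) (b (l 188072595799) (l 307257934183))) (l 3)) (l 3)) (l 3)))) (a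 (b (a (a (c (c (b (b (l 16776888) (l 181630143703)) (l 296520516343)) (b (b (l 16776672) (l 174650821783)) (l 309405423383))) (b (l 181093272215) (l 318532229015))) (b (b (c (c (l 219747976823) (l 192367562103)) (l 199883756119)) (l 3)) (l 3))) (l 3)) (l 3)) (l 3))), by decide +kernel⟩

def k42_mm_202 : ∃ t, chk3 f_mm_202 t 116 78 1 = true :=
  ⟨(a (b (l 16780224) (a (l 16779888) (c (b (l 16773192) (a (l 16780160) (b (l 16781096) (a (c (l 16779432) (l 16779160)) (c (b (l 16777208) (l 219747977351)) (l 178945790215)))))) (b (l 16773424) (a (l 16779896) (c (l 184851366567) (l 162839661143))))))) (b (c (a (l 16778120) (b (l 16779720) (a (b (l 16775576) (c (c (l 158544695431) (l 156934082263)) (l 154249727991))) (b (a (l 138143601927) (b (c (l 198810010631) (l 16779624)) (c (l 240685941415) (l 210084302375)))) (c (c (l 286319968967) (l 289541194327)) (l 296520516087)))))) (a (l 16778256) (c (b (l 16779608) (a (l 173577077271) (b (l 170355855367) (l 303499837991)))) (b (l 16774472) (a (l 16778264)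 (b (l 178408917479) (l 308331676423))))))) (a (b (c (c (a (l 16779616) (b (l 138680471815) (a (b (l 16777096) (l 210084300823)) (l 268603228647)))) (a (l 16780672) (b (l 16778968) (a (l 170355855271) (l 276119421127))))) (a (l 16780392) (b (l 158007822343) (a (l 191830690775) (b (l 212231787511) (l 3)))))) (a (b (c (c (a (l 150491631847) (b (l 196125656855) (l 259476423223))) (a (l 16778792) (b (l 171966467095) (l 269140099271)))) (a (l 170892724375) (l 212768659623))) (a (c (c (l 275582550519) (l 283635613959)) (l 299204875687)) (l 3))) (l 3))) (b (a (b (c (c (a (b (l 188072592743) (l 249812746919)) (l 292225548999)) (a (b (l 16778416) (l 256792068439)) (l 301889225287))) (c (l 283635613751) (l 288467452071))) (l 3)) (l 3)) (l 3))))), by decide +kernel⟩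

def k43_mm_202 : ∃ t, chk3 f_mm_202 t 116 79 1 = true :=
  ⟨(a (b (a (c (c (b (l 135996117895) (a (b (l 16778912) (a (l 162302791383) (l 234780361399))) (b (a (l 168745243127) (l 257328939735)) (l 3)))) (b (l 16778864) (a (b (l 16776000) (a (l 16779408) (l 237464715527))) (b (a (l 164450275159) (l 263771390295)) (l 3))))) (b (l 135996118167) (a (b (l 16780880) (a (l 166597756935) (l 206326208535))) (b (a (l 186461981415) (l 282025006199)) (l 3))))) (b (c (c (a (b (a (l 16776520) (l 159618437415)) (a (b (l 199346882103) (l 236390974215)) (l 282025001527))) (b (a (l 250349617895) (l 3)) (l 3))) (a (b (l 149954760615) (c (l 262697648567) (l 262697648423))) (b (a (l 254644584823) (l 3)) (l 3)))) (a (b (l 170892724839) (a (l 206863076807) (l 307257934311))) (a (c (l 305647321783) (l 309942289367)) (l 3)))) (l 3))) (a (b (a (a (b (c (c (l 265382003271) (l 273435066567)) (l 290614940903)) (l 3)) (l 3)) (l 3)) (l 3)) (l 3))) (l 3)), by decide +kernel⟩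

def k44_mm_202 : ∃ t, chk3 f_mm_202 t 117 39 1 = true :=
  ⟨(b (a (b (a (b (c (a (c (b (l 16778952) (a (l 155860341015) (b (l 206863075063) (l 275045679575)))) (b (l 16776088) (a (l 153175985655) (b (l 181093272839) (l 284172484871))))) (b (a (b (l 142438568839) (c (l 219747977415) (l 198273142215))) (b (c (l 247665263239) (l 253570842951)) (l 3))) (l 3))) (a (b (l 16778424) (a (l 175187691991) (b (l 188609466871) (l 303499837719)))) (b (a (l 196125658327) (b (l 222432334855) (l 3))) (l 3)))) (a (a (b (c (c (l 285783097927) (l 295983650343)) (l 308331681431)) (l 3)) (l 3)) (l 3))) (l 3)) (l 3)) (l 3)) (l 3)), by decide +kernel⟩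

def k45_mm_202 : ∃ t, chk3 f_mm_202 t 236 76 1 = true :=
  ⟨(b (a (l 16780272) (c (b (l 16779000) (a (l 16780376) (c (b (l 16778800) (a (b (l 16776712) (l 167671500055)) (b (l 186461982039) (l 289541194263)))) (b (l 16776008) (a (l 152102243543) (b (l 182167014599) (l 297594257815))))))) (b (l 16779048) (a (l 16780320) (b (l 16778440) (a (l 157470953719) (b (l 190220079559) (l 312626643415)))))))) (a (b (c (a (l 16779712) (b (l 16775424) (c (a (l 16778992) (b (l 16776824) (l 180019531047))) (l 151565373095)))) (c (a (l 16774520) (l 167671497479)) (l 141901695447))) (c (c (a (b (l 134922374743) (a (b (l 16776944) (l 192904432839)) (b (l 244444037655) (l 3)))) (b (a (b (l 161765919959) (l 262697648599)) (l 301352354647)) (l 3))) (a (b (l 16778856) (a (b (l 16779368) (l 186998852887)) (l 286319968503))) (b (a (b (l 154786597751) (l 270213841079)) (b (l 289004323111) (l 3))) (l 3)))) (a (b (l 16779280) (a (b (l 16779136) (l 194515046919)) (b (l 212231787287) (l 3)))) (b (a (b (l 162839662631)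 (l 229948527447)) (b (l 304573579591) (l 3))) (l 3))))) (b (a (a (b (c (a (l 16779024) (l 134922375607)) (l 16778904)) (b (c (c (l 198273142087) (l 193441303895)) (l 201494368887)) (l 3))) (b (c (b (c (l 149954759703) (l 16778248)) (c (l 253033972231) (l 257328939271))) (b (l 16778696) (l 219747979959))) (l 3))) (a (b (b (c (c (l 272361324919) (l 279877517495)) (l 293836163815)) (l 3)) (l 3)) (l 3))) (l 3)))), by decide +kernel⟩

def k46_mm_202 : ∃ t, chk3 f_mm_202 t 237 76 1 = true :=
  ⟨(b (a (b (c (c (a (b (l 16775256) (a (l 16776120) (l 145659792903))) (b (a (l 16779072) (b (l 16779528) (a (l 160155306583) (l 232096008103)))) (a (b (l 175187692727) (l 280951259559)) (l 313163514983)))) (a (l 135996116311) (b (a (l 16776280) (b (l 16776080) (l 189683207447))) (b (a (l 171429596183) (l 307794805271)) (l 315847869335))))) (a (c (l 158007820647) (l 16778280)) (b (c (l 156934081799) (l 162302789783)) (a (b (l 176798306247) (l 302426098535)) (b (l 321753449063) (l 3)))))) (a (b (c (a (b (l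 140291084519) (c (l 243907166679) (l 245517781767))) (b (c (l 262697648583) (l 268603228359)) (l 3))) (a (b (l 16779256) (l 207399948855)) (b (l 226190430887) (l 3)))) (l 3)) (l 3))) (b (a (a (b (b (c (c (l 252497101271) (a (l 176261434039) (l 281488130247))) (l 215453012471)) (l 3)) (l 3)) (l 3)) (l 3)) (l 3))) (l 3)), by decide +kernel⟩

def k47_mm_202 : ∃ t, chk3 f_mm_202 t 118 77 1 = true :=
  ⟨(a (b (a (b (a (a (b (c (c (l 307257934823) (l 323364067367)) (l 329806518439)) (l 3)) (l 3)) (l 3)) (l 3)) (l 3)) (l 3)) (l 3)), by decide +kernel⟩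

def k48_mm_202 : ∃ t, chk3 f_mm_202 t 119 38 1 = true :=
  ⟨(l 3), by decide +kernel⟩

def k49_mm_202 : ∃ t, chk3 f_mm_202 t 59 39 1 = true :=
  ⟨(l 3), by decide +kernel⟩

def k50_mm_202 : ∃ t, chk3 f_mm_202 t 120 72 1 = true :=
  ⟨(a (a (l 16784496) (l 16781624)) (b (l 16778088) (c (l 16779456) (l 16779064)))), by decide +kernel⟩

def k51_mm_202 : ∃ t, chk3 f_mm_202 t 240 73 1 = true :=
  ⟨(b (a (l 16779632) (l 16780704)) (a (c (l 16778216) (l 16778008)) (b (c (l 16779592) (l 16779544)) (a (b (l 16779056) (a (c (l 16778448) (l 16775800)) (c (c (l 136532986487) (l 176261431623)) (l 141364825383)))) (b (c (a (l 16778792) (b (l 16779272) (a (c (l 143512307991) (l 16778304)) (c (b (l 177872046023) (l 256792069703)) (l 255181458135))))) (a (l 16778704) (c (l 162302790359) (l 166060886007)))) (b (b (a (c (l 133848632455) (l 16778064)) (c (c (l 293299290551) (l 305647324071)) (l 312089775047))) (a (c (c (l 175724562999) (l 173577079063)) (l 182167014567)) (l 3))) (a (a (c (c (b (l 189683205975)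 (l 287393710423)) (l 264845134551)) (l 218674236967)) (l 3)) (l 3)))))))), by decide +kernel⟩

def k52_mm_202 : ∃ t, chk3 f_mm_202 t 241 146 1 = true :=
  ⟨(a (b (l 16778240) (a (l 16778856) (b (l 16778944) (c (c (l 16778696) (l 16778616)) (l 16778608))))) (b (a (c (l 16777440) (l 16777416)) (b (c (l 16778152) (l 16778200)) (a (c (l 16778952) (l 16778864)) (b (c (c (l 16778168) (l 16778072)) (l 16778624)) (c (a (b (l 16778696) (c (l 196125657271) (l 193441302551))) (b (c (l 216526751927) (l 213305526391)) (l 3))) (c (l 203641850503) (l 204178721063))))))) (a (b (a (c (l 16778608) (l 16778576)) (b (c (l 16779088) (l 16776344)) (c (a (l 16778840) (b (l 141364825063) (c (l 205252462807) (l 202568108087)))) (a (l 16778032) (l 185925110887))))) (b (a (c (c (l 142438566167) (l 16778160)) (l 146196663367)) (a (c (c (b (l 187535722471) (l 293836161399)) (l 213305526871)) (b (l 191293819799) (l 256792071175))) (l 3))) (a (c (c (a (b (l 16777192) (l 216526751799)) (l 297594257879)) (c (l 276119421063)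 (l 279877517399))) (a (l 189683207511) (l 317458484199))) (l 3)))) (a (b (c (c (b (a (l 144586049687) (b (l 178408916903) (l 287393710407))) (c (l 306721063671) (l 309405418199))) (b (a (l 16778304) (l 206863075879)) (l 318532223655))) (b (c (l 183240755607) (l 185388238743)) (c (l 325511545527) (l 332490867431)))) (l 3)) (l 3))))), by decide +kernel⟩

def k53_mm_202 : ∃ t, chk3 f_mm_202 t 241 147 1 = true :=
  ⟨(a (b (a (b (c (l 16778304) (l 16778320)) (a (c (c (l 129016793527) (l 16777128)) (l 131701148823)) (b (c (a (l 16778760) (c (l 166597757335) (l 161765918919))) (l 155860339943)) (c (a (b (c (l 166597756951) (l 16778480)) (c (l 251423360391) (l 229411653863))) (c (l 306721063511) (l 320679709783))) (a (l 203104980455) (l 329806515319)))))) (b (a (b (c (l 16779176) (l 16779032)) (b (c (c (l 144049178807) (l 16778264)) (l 16778152)) (c (a (l 140291083255) (c (l 246591522007) (l 220284848327))) (l 192904432983)))) (c (c (b (a (l 160155306311) (b (l 197199398935) (l 3))) (a (l 302426096151)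 (l 3))) (b (a (l 155323467911) (l 219211106999)) (l 325511545655))) (b (a (l 162302790679) (l 225653558743)) (a (l 320679709735) (l 3))))) (b (a (a (b (c (c (l 209010558871) (l 200957495367)) (l 209010560039)) (l 3)) (l 3)) (l 3)) (l 3)))) (a (a (b (b (c (a (c (l 173577079271) (l 168208369943)) (c (l 283635614679) (l 293836163879))) (a (l 176798305463) (l 238001589847))) (l 3)) (l 3)) (l 3)) (l 3))) (l 3)), by decide +kernel⟩

def k54_mm_202 : ∃ t, chk3 f_mm_202 t 242 144 1 = true :=
  ⟨(a (l 16781072) (b (l 16777976) (a (l 16779272) (c (l 16778536) (l 16777872))))), by decide +kernel⟩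

def k55_mm_202 : ∃ t, chk3 f_mm_202 t 242 145 1 = true :=
  ⟨(a (b (c (l 16779392) (l 16779272)) (a (b (l 16778824) (c (l 16778472) (l 16778488))) (c (c (b (c (a (l 16775848) (l 135459243975)) (l 129553663879)) (a (b (l 16778072) (a (l 161229048119) (b (l 198273140903) (l 3)))) (b (a (b (l 16777840) (l 218674235527)) (b (l 285246226711) (l 3))) (l 3)))) (b (l 130090535031) (a (b (l 16776680) (a (l 157470951383) (l 285783097511))) (b (a (l 185388239191) (l 311552901591)) (l 3))))) (b (c (l 16778192) (l 16778136)) (a (b (l 16777896) (c (l 194515044855) (l 196125657175))) (b (c (a (l 185388238983) (l 321216577991)) (l 290614935703)) (l 3))))))) (b (a (b (c (l 16778064) (l 16778072)) (c (a (l 16778776) (b (l 16778600) (a (c (l 146733533159) (l 16778304)) (c (b (l 180556400711) (l 295983645031)) (l 210084301303))))) (a (l 16778752) (b (l 16777832) (c (l 185388239175) (l 186461980631)))))) (b (a (c (b (l 16776200) (c (l 133848631303) (l 16778080))) (c (l 16777728) (l 16777744))) (b (c (a (l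 16778752) (c (b (l 16778376) (l 191830689911)) (l 167134627895))) (c (l 152102242119) (l 16777832))) (c (c (a (b (l 173040207703) (l 289541194039)) (l 317458481863)) (a (l 204178721223) (l 329269641879))) (a (b (l 177335175671) (l 244980910935)) (l 341080804583))))) (b (a (c (c (a (b (l 16778416) (l 200420624551)) (b (l 219747977511) (l 3))) (a (l 173040208007) (l 302426095959))) (a (c (l 173040207879) (l 16778032)) (b (l 225653558055) (l 3)))) (l 3)) (l 3)))) (a (b (b (b (a (c (c (l 16778264) (l 16776872)) (l 16778088)) (a (c (c (l 229948524695) (l 227264170055)) (l 233706621799)) (l 3))) (a (c (a (l 16778328) (c (l 209010559159) (l 206863075383))) (a (l 16778192) (l 214379268935))) (l 3))) (a (a (c (c (b (l 189146335351) (l 301889225127)) (l 215989881367)) (b (l 195051916071) (l 261623909127))) (l 3)) (l 3))) (l 3)) (l 3)))), by decide +kernel⟩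

def k56_mm_202 : ∃ t, chk3 f_mm_202 t 486 144 1 = true :=
  ⟨(b (a (l 16779504) (b (c (l 16777976) (l 16777952)) (c (a (l 16778608) (b (l 16779088) (a (c (l 16778224) (l 16776848)) (c (b (l 16778128) (l 214916139191)) (l 183777626343))))) (a (l 16778632) (b (l 16779032) (c (l 164450273287) (l 165524014807))))))) (a (b (c (c (l 120963729303) (l 16777312)) (c (l 16778656) (l 16778672))) (c (c (a (b (l 16776584) (a (l 16778312) (b (l 164450273047) (l 283098743047)))) (b (a (b (l 16778336) (l 184314496935)) (b (l 203641850007) (l 3))) (a (b (l 300278612359) (l 3)) (l 3)))) (a (b (l 16776520) (a (l 16776920) (l 195588786519))) (b (a (l 161229047799) (l 292762419431)) (l 336248964039)))) (c (a (b (l 16776464) (l 173577078919)) (b (a (l 160155305687) (l 298667999447)) (l 344302027719))) (a (l 158544693207) (b (l 198273140887) (l 351818220503)))))) (b (b (a (c (c (a (l 16776744) (b (l 16778296) (l 175724562279))) (l 144049178567)) (c (l 16778112) (l 16778096))) (a (c (c (b (l 195051915383) (l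 311016030695)) (l 287930581159)) (c (l 221895461271) (l 229411653415))) (l 3))) (a (c (c (a (b (l 155860338391) (l 277193162967)) (b (l 294373032279) (l 3))) (a (l 189683206423) (l 319069094439))) (a (b (l 16778424) (l 228874783479)) (b (l 249275878055) (l 3)))) (l 3))) (l 3)))), by decide +kernel⟩

def k57_mm_202 : ∃ t, chk3 f_mm_202 t 487 144 1 = true :=
  ⟨(b (a (b (a (c (c (l 16778336) (l 16777624)) (l 16778272)) (b (c (c (l 136532985799) (l 134922372807)) (l 140827953719)) (c (c (a (b (l 16778424) (l 206863075463)) (c (l 299741741559) (l 302962966983))) (a (l 177872046247) (l 309942288807))) (a (b (l 16778272) (l 212768656039)) (b (l 232632879831) (l 3)))))) (a (c (c (b (a (b (l 16778248) (l 167134627623)) (b (l 187535722407) (l 304573579703))) (a (b (l 288467452183) (l 3)) (l 3))) (b (a (l 148881016519) (a (l 196125657175) (l 300815483159))) (l 328732771143))) (b (a (l 155323468455) (b (l 192904432247) (l 327659031479))) (c (l 335712092999) (l 342691414871)))) (l 3))) (b (b (a (a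 (c (c (b (l 179482658663) (l 299204870519)) (a (l 189146335207) (l 294909903079))) (b (l 185388239335) (l 252497103575))) (l 3)) (l 3)) (l 3)) (l 3))) (l 3)), by decide +kernel⟩

def k58_mm_202 : ∃ t, chk3 f_mm_202 t 243 145 1 = true :=
  ⟨(a (b (a (b (b (b (a (a (c (c (l 212231784599) (l 210621171735)) (l 217600494327)) (l 3)) (l 3)) (l 3)) (l 3)) (l 3)) (l 3)) (l 3)) (l 3)), by decide +kernel⟩

def k59_mm_202 : ∃ t, chk3 f_mm_202 t 121 73 1 = true :=
  ⟨(a (b (a (b (a (b (a (c (b (l 16778992) (a (l 16778752) (c (l 167671499127) (l 163376531575)))) (c (l 140827953079) (l 16777872))) (a (b (c (c (l 16778312) (l 16776912)) (l 16778120)) (b (c (c (l 206863075527) (l 204178720823)) (l 212231785367)) (l 3))) (b (c (c (a (l 175187691703) (l 210084301303)) (l 191830690199)) (b (l 16778344) (l 231559138199))) (l 3)))) (b (a (c (c (a (b (l 168208369671) (l 280951259399)) (l 311552901767)) (a (l 200420624919) (l 329269644423))) (a (b (l 170355853927) (l 239612201943)) (l 331417128103))) (l 3)) (l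 3))) (b (b (b (a (c (c (l 310479159959) (l 320679707239)) (l 331953999031)) (l 3)) (l 3)) (l 3)) (l 3))) (l 3)) (l 3)) (l 3)) (l 3)), by decide +kernel⟩

def k60_mm_202 : ∃ t, chk3 f_mm_202 t 60 37 1 = true :=
  ⟨(a (b (a (b (a (b (a (c (l 16777632) (l 16777680)) (b (c (l 16778504) (l 16778448)) (a (b (c (l 16776408) (l 16776248)) (c (c (l 155323468375) (l 150491629927)) (l 156397210999))) (a (b (c (l 136532987191) (l 16778104)) (c (c (l 274508808471) (l 281488132823)) (l 231559138967))) (b (c (c (a (l 171429595367) (l 210621172135)) (l 188609464807)) (l 198273142167)) (l 3)))))) (a (a (b (c (l 16778992) (l 16778824)) (a (c (b (c (l 16778440) (l 16778320)) (c (l 284709355879) (l 292225551175))) (b (l 16778184) (l 243907170087))) (b (c (c (l 206863076215) (l 204715592391)) (l 212768656919)) (l 3)))) (b (c (c (b (l 16778216) (a (l 174113950311) (l 279877517623))) (b (l 16776784) (a (l 168208369959) (l 287393712903)))) (b (l 16777960) (a (l 178945789095) (l 237464719063)))) (l 3))) (a (b (b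 (c (c (c (l 276656292167) (l 278803775751)) (l 284172484791)) (a (l 203641851351) (l 323364061703))) (l 3)) (l 3)) (l 3)))) (b (a (b (c (c (a (b (l 16778112) (a (l 160155306439) (l 269140099991))) (b (a (l 186461981383) (l 293299290551)) (l 3))) (a (b (l 16776688) (a (l 16778392) (l 275045681847))) (b (a (l 181630142887) (l 304036711335)) (l 3)))) (a (b (l 16779184) (a (l 164987145223) (l 225116687959))) (b (a (l 190220078407) (l 313700387767)) (l 3)))) (b (b (a (c (c (l 301889225271) (l 314237258807)) (l 323900935255)) (l 3)) (l 3)) (l 3))) (l 3)) (l 3))) (l 3)) (l 3)) (l 3)) (l 3)), by decide +kernel⟩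

def k61_mm_202 : ∃ t, chk3 f_mm_202 t 61 18 1 = true :=
  ⟨(l 3), by decide +kernel⟩

def k62_mm_202 : ∃ t, chk3 f_mm_202 t 31 18 1 = true :=
  ⟨(l 3), by decide +kernel⟩

def k63_mm_202 : ∃ t, chk3 f_mm_202 t 15 19 1 = true :=
  ⟨(l 3), by decide +kernel⟩

def k64_mm_202 : ∃ t, chk3 f_mm_202 t 12 10 1 = true :=
  ⟨(b (a (l 16678584) (b (l 16694896) (l 16704784))) (a (l 16702464) (l 16754248))), by decide +kernel⟩

def k65_mm_202 : ∃ t, chk3 f_mm_202 t 13 20 1 = true :=
  ⟨(a (b (l 16714536) (l 16725872)) (a (b (l 16732672) (l 16765424)) (b (l 16767336) (b (l 16776416) (a (l 16757720) (l 16786024)))))), by decide +kernel⟩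

def k66_mm_202 : ∃ t, chk3 f_mm_202 t 26 21 1 = true :=
  ⟨(b (l 16778752) (a (l 16741144) (l 16795448))), by decide +kernel⟩

def k67_mm_202 : ∃ t, chk3 f_mm_202 t 54 21 1 = true :=
  ⟨(b (a (l 16773400) (l 16790752)) (a (b (l 16760712) (c (l 16781560) (l 16776832))) (b (b (l 16776784) (a (l 16767280) (a (l 16778128) (c (c (l 163376538295) (l 16778968)) (l 16778000))))) (a (c (b (l 16781872) (a (a (l 16782056) (b (l 16774456) (c (l 181093277655) (l 171429599687)))) (b (a (l 176798311991) (c (l 218674233703) (l 207936814183))) (a (c (l 205789332855) (l 209547428135)) (l 3))))) (b (l 16781112) (a (l 161765921639) (b (l 176798305079) (a (l 229948526647) (l 3)))))) (b (a (b (c (l 16780016) (l 16773408)) (c (a (b (l 16786296) (l 177335182935)) (b (l 179482666727) (c (l 218674234903) (l 197736268311)))) (c (l 167671503799) (l 178945788535)))) (b (b (c (c (l 218137362391) (l 175724566295)) (l 165524021047)) (a (c (c (l 207936819015) (l 182167016503)) (l 158007827495)) (l 3))) (a (c (c (l 242296555207)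 (l 249275876231)) (l 271824453799)) (l 3)))) (a (a (b (c (c (l 223506073287) (l 228337910551)) (l 249275880311)) (l 3)) (l 3)) (l 3))))))), by decide +kernel⟩

def k68_mm_202 : ∃ t, chk3 f_mm_202 t 55 42 1 = true :=
  ⟨(a (c (b (l 16763920) (a (l 16777752) (c (b (l 16769800) (a (l 16784032) (b (l 16780600) (a (l 174650826407) (b (l 217600492135) (l 221895460391)))))) (b (l 16769480) (a (l 16772904) (b (l 16779960) (a (l 166597761063) (b (l 180019532583) (l 228874781463))))))))) (b (l 16763176) (a (l 16778064) (a (l 16781080) (b (l 16771016) (b (l 16779112) (c (l 223506069895) (l 192367562615)))))))) (b (a (c (l 16781912) (l 16779720)) (b (c (a (l 16770304) (b (l 16772240) (l 16781360))) (l 16782216)) (a (c (b (l 16779480) (a (c (l 16781440) (l 16780872)) (b (l 169818988983) (c (l 203104977975) (l 206863073495))))) (b (l 16773200) (b (l 16780256) (l 179482665143)))) (c (c (b (a (l 168745245991) (b (l 209547429799) (l 228874782071))) (a (b (l 215453009159) (l 3)) (l 3))) (b (a (l 161765922407)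 (b (l 174650823223) (l 235317232311))) (a (l 257865810615) (l 3)))) (b (a (l 148344150647) (b (l 177335175191) (l 257328938999))) (c (l 300815483447) (l 305647322295))))))) (a (b (c (c (a (b (l 16773384) (a (l 16775152) (l 169818987879))) (b (a (l 16775680) (b (l 16776504) (l 207936817863))) (a (b (l 188072596743) (l 212231783783)) (l 260550165639)))) (a (l 147270408823) (b (l 151028504423) (a (b (l 16779680) (l 217600492087)) (l 269676970359))))) (a (l 144586055255) (b (l 171429595895) (a (b (l 161229049639) (l 215453011911)) (l 289541201623))))) (a (b (c (a (b (l 169818989511) (c (l 217600492439) (l 182703883831))) (b (c (l 220821718183) (l 204178719015)) (l 3))) (a (l 170355859559) (b (l 204178722167) (l 3)))) (l 3)) (l 3))) (b (a (b (a (b (c (c (l 217063621399) (l 171429596967)) (l 191830690679)) (l 3)) (l 3)) (l 3)) (l 3)) (l 3))))), by decide +kernel⟩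

def k69_mm_202 : ∃ t, chk3 f_mm_202 t 55 43 1 = true :=
  ⟨(a (b (a (b (c (a (l 16772072) (b (l 16773928) (a (l 16780856) (b (l 16781656) (a (l 178408924919) (l 213842395783)))))) (c (l 150491634487) (l 155323468391))) (c (c (a (b (l 169818988839) (a (b (l 16777056) (l 218137363639)) (l 234780362407))) (b (a (b (l 208473689239) (l 206326203959)) (l 255181456759)) (l 3))) (a (b (a (l 16774752) (l 16780400)) (a (l 194515041639) (l 240149070679))) (b (a (l 209010556999) (l 263771390519)) (l 3)))) (a (b (l 16781096) (a (l 174650827399) (l 260550169751))) (b (a (l 204178723383) (l 286856839095)) (l 3))))) (b (a (b (c (b (c (l 174650826071) (l 16781168)) (a (l 172503344215) (c (l 220284847383) (l 202031235431)))) (b (l 16780328) (l 181630149191))) (a (b (c (c (l 218137363495) (l 207399945463)) (l 181093277271)) (l 3)) (l 3))) (b (b (c (c (l 253570844087) (l 260550165191)) (l 282025006119)) (l 3)) (l 3))) (l 3))) (l 3)) (l 3)), by decide +kernel⟩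

def k70_mm_202 : ∃ t, chk3 f_mm_202 t 12 11 1 = true :=
  ⟨(b (a (l 16720000) (b (l 16734464) (l 16785648))) (a (a (l 16731408) (l 16782784)) (a (b (l 16746936) (a (l 16752664) (l 16789728))) (b (a (l 16776256) (b (l 16758888) (c (l 16782656) (l 16774896)))) (a (b (c (l 16783176) (l 16783848)) (a (b (l 16765968) (c (l 16783168) (l 16780256))) (b (c (a (l 16772120) (l 180019545607)) (l 164450280183)) (a (c (b (l 16786024) (l 215989894615)) (l 163913412279)) (b (c (a (l 217600491351) (l 215453009239)) (l 178408918247)) (l 3)))))) (b (c (a (b (l 16769408) (a (l 16783504) (b (l 16785096) (a (l 16786560) (l 217063620375))))) (b (a (l 16784384) (b (l 16785912) (a (l 195588796983) (l 216526750551)))) (a (b (a (l 189683216935) (l 217063620935)) (a (l 215989880103) (l 3))) (l 3)))) (a (l 153712865959) (b (l 160692187479) (a (b (l 155323476103) (l 221895457847)) (l 3))))) (a (b (c (a (b (l 194515056119) (a (l 217063620983) (l 3))) (c (l 224579816439) (l 228874782183))) (a (l 178945799671) (l 248739014695)))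 (l 3)) (l 3)))))))), by decide +kernel⟩

def k71_mm_202 : ∃ t, chk3 f_mm_202 t 52 22 1 = true :=
  ⟨(b (l 16772216) (c (a (l 16779208) (b (l 16761520) (a (l 16765192) (b (l 16769080) (a (l 16783264) (b (l 16784952) (c (l 219747974823) (l 181093277591)))))))) (b (l 16779248) (a (l 16760344) (b (l 16766096) (a (l 16767112) (l 153712863623))))))), by decide +kernel⟩

def k72_mm_202 : ∃ t, chk3 f_mm_202 t 53 22 1 = true :=
  ⟨(b (c (a (l 16781824) (b (l 16785336) (a (b (l 16766832) (b (l 16770952) (l 16782704))) (b (a (l 16771760) (b (l 16773568) (c (l 176798311575) (l 16780728)))) (a (b (l 171966475367) (a (b (l 16781640) (l 216526749815)) (b (l 215989879207) (l 3)))) (b (a (b (l 184851376039) (l 214916137671)) (b (l 214916137927) (l 3))) (l 3))))))) (a (l 16781320) (b (l 16785768) (a (l 16781968) (b (l 147270411447) (a (b (l 16779024) (l 185925118727)) (b (a (l 176261433191) (l 238538456663)) (l 3)))))))) (a (b (c (a (l 16783120) (c (b (l 16782200) (a (b (l 16774032) (l 185388245767)) (b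 (l 184851375799) (a (l 219211105463) (l 235317233895))))) (b (l 16770712) (a (l 16782072) (b (l 173040213367) (l 211694911975)))))) (a (l 16777752) (a (l 148344154951) (b (l 16770880) (c (l 211694908967) (l 219747971127)))))) (a (b (a (c (b (l 16772512) (l 16785416)) (l 16782208)) (b (c (l 181093281239) (l 16773496)) (c (c (l 219747976055) (l 211694910743)) (l 189683207015)))) (a (b (c (c (l 219747975463) (l 211694910023)) (l 161229055607)) (c (c (l 219211106695) (l 224579814535)) (l 246054649607))) (a (c (c (l 247128393975) (l 254644585607)) (l 276656302375)) (l 3)))) (b (a (b (c (c (l 220284847495) (l 197736267687)) (l 218674236503)) (l 3)) (l 3)) (l 3)))) (b (a (b (c (a (b (l 16784984) (c (l 218137362087) (l 209547436311))) (b (a (l 178408927207) (b (l 191293826615) (l 214379267175))) (c (l 234243492039) (l 240149070999)))) (a (l 171429595911) (b (l 173577087127) (l 261087035511)))) (a (a (b (b (c (l 215989879127) (l 16781240)) (l 3)) (l 3)) (l 3)) (l 3))) (b (a (b (c (c (l 248202135511)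 (l 256255198167)) (l 279877517239)) (l 3)) (l 3)) (l 3))) (l 3)))), by decide +kernel⟩

def k73_mm_202 : ∃ t, chk3 f_mm_202 t 27 22 1 = true :=
  ⟨(a (b (a (b (a (b (a (l 16767520) (l 16777832)) (a (c (l 16783312) (l 16771200)) (b (c (l 16785080) (l 16773016)) (c (a (l 175187702935) (b (l 184314504919) (l 215453008679))) (l 180019530359))))) (c (c (b (a (l 16782176) (b (l 172503343495) (a (l 219211104487) (l 212768655047)))) (a (b (a (l 181630148775) (l 219747976503)) (l 251423360823)) (l 3))) (b (a (l 16783968) (b (l 16780448) (a (l 175724567191) (l 217600492183)))) (a (b (a (l 16780160) (l 199346880631)) (l 258402681751)) (l 3)))) (b (a (l 16782832) (b (l 16779376) (a (l 159081570583) (l 239075327415)))) (a (b (a (l 16780448) (l 200957497047)) (a (l 248739004263) (l 3))) (l 3))))) (a (c (b (a (b (a (l 16780952) (c (l 219211104407) (l 175724567239))) (a (b (l 186998860167) (l 215453009063)) (l 3))) (b (a (b (l 215453008407) (l 3)) (l 3)) (l 3))) (l 3)) (b (a (b (l 152639119703) (a (l 194515045447)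 (l 3))) (b (a (l 229411650679) (l 3)) (l 3))) (l 3))) (l 3))) (b (a (b (a (b (c (a (c (l 217063621495) (l 195588783767)) (c (l 230485395303) (l 236927845335))) (a (l 189146336327) (l 259476422727))) (l 3)) (l 3)) (l 3)) (l 3)) (l 3))) (l 3)) (l 3)), by decide +kernel⟩

def k74_mm_202 : ∃ t, chk3 f_mm_202 t 13 23 1 = true :=
  ⟨(a (a (b (a (b (b (l 16784776) (a (l 16764736) (c (l 16784128) (l 16780464)))) (c (a (b (l 16781840) (b (c (l 184851377655) (l 16782240)) (a (l 186998862551) (a (l 216526750007) (l 217063622279))))) (b (a (b (l 16784992) (a (l 16786496) (l 216526765143))) (b (b (l 192367570935) (l 216526749847)) (a (l 216526750983) (l 3)))) (a (b (a (l 216526750535) (l 3)) (l 3)) (l 3)))) (c (b (b (l 158007829191) (c (l 205252453911) (l 209010549191))) (a (l 170355861527) (l 285783096935))) (a (l 169282114487) (b (l 221358581879) (l 292225548727)))))) (b (a (c (b (a (l 16771784) (b (l 16773528) (l 184314507527))) (a (b (l 16783240) (a (l 188609474759) (l 216526750535))) (b (c (l 220284847527)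 (l 214379265783)) (l 3)))) (b (l 16781544) (a (l 177872047223) (b (l 192367561655) (l 3))))) (b (c (c (a (b (l 193441309591) (l 221358589783)) (b (l 207399946423) (l 3))) (a (b (l 180556406119) (l 198810009911)) (b (l 211158041383) (l 3)))) (a (b (l 165524021623) (l 219747973447)) (b (l 232632876119) (l 3)))) (l 3))) (a (a (b (c (c (l 253570844951) (l 261623907335)) (l 283635623815)) (l 3)) (l 3)) (l 3)))) (a (b (a (b (a (b (c (a (l 217063620343) (l 216526750999)) (l 185388238759)) (l 3)) (l 3)) (l 3)) (l 3)) (l 3)) (l 3))) (l 3)) (l 3)), by decide +kernel⟩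

def k75_mm_202 : ∃ t, chk3 f_mm_202 t 56 40 1 = true :=
  ⟨(b (l 16784296) (a (l 16781432) (a (l 16776736) (b (l 16779128) (c (a (l 16770624) (l 16781088)) (l 16779824)))))), by decide +kernel⟩

def k76_mm_202 : ∃ t, chk3 f_mm_202 t 112 41 1 = true :=
  ⟨(b (b (l 16786048) (l 16781240)) (a (c (b (l 16769088) (a (l 16771528) (b (l 16773440) (a (l 16780424) (b (l 16781296) (c (l 184314500343) (l 170892726231))))))) (b (l 16769296) (c (l 146196666407) (l 149417888663)))) (b (c (a (l 16780608) (c (b (l 16780120) (a (l 163376536215) (b (l 182167016327) (l 236927845591)))) (a (l 142975441015) (b (l 16775152) (b (l 154786599383) (l 242296554087)))))) (a (l 16782936) (b (l 16779016) (a (l 146196666551) (b (l 160155310247) (l 262697648151)))))) (a (c (c (b (a (l 16781248) (b (l 16779432) (l 209547428727))) (a (b (l 215989879351) (l 247665263831)) (l 3))) (b (a (l 16775496) (b (l 16781584) (l 212768653431))) (a (b (l 169818985079) (l 255181455975)) (l 3)))) (b (c (l 162839664647) (l 169282112919))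 (a (b (l 192367561575) (l 278266904599)) (l 3)))) (b (b (a (c (c (l 222969201767) (l 227264168359)) (l 217063624823)) (l 3)) (l 3)) (l 3)))))), by decide +kernel⟩

def k77_mm_202 : ∃ t, chk3 f_mm_202 t 113 41 1 = true :=
  ⟨(b (a (b (c (l 16781184) (l 16781536)) (a (c (b (l 16772664) (c (l 154786601287) (l 16780224))) (l 139754216327)) (c (c (b (a (l 16780512) (b (l 16776160) (l 182703886327))) (a (b (l 169282115223) (l 226727298071)) (b (l 241222812807) (l 3)))) (b (l 148344149399) (a (b (l 16779184) (l 231022264727)) (b (l 246591521351) (l 3))))) (b (c (l 146196664951) (l 16777504)) (a (b (l 16778624) (l 249812751143)) (b (l 265918878887) (l 3))))))) (b (a (b (l 16782680) (a (c (c (l 16781088) (l 16775400)) (l 16780080)) (c (c (b (l 16779312) (l 217063621351)) (b (l 16781520) (l 218137362487))) (b (l 16780976) (l 206326206167))))) (c (c (b (a (b (l 16775816) (l 166060889655)) (b (a (l 16776880) (l 203104979159)) (l 246054650935))) (a (b (l 231022265319) (l 3)) (l 3))) (b (a (l 16779904)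 (b (l 154249728391) (l 251423359527))) (a (b (l 234780361095) (l 3)) (l 3)))) (b (a (l 145122924343) (b (l 161229051815) (l 269676975303))) (a (c (l 284172484631) (l 290614935783)) (l 3))))) (a (b (c (c (a (b (l 203641848199) (l 257328939991)) (l 3)) (a (b (l 170892727223) (l 265382003095)) (l 3))) (a (b (l 178945792743) (l 286319968263)) (l 3))) (l 3)) (l 3)))) (a (b (a (b (c (a (b (l 16781496) (c (l 199883751895) (l 169818985271))) (b (c (l 213305525031) (l 215989878855)) (l 3))) (a (b (l 16775424) (l 192904432487)) (b (l 205252464311) (l 3)))) (a (a (c (c (l 266455745271) (l 275582550247)) (l 293836166455)) (l 3)) (l 3))) (l 3)) (l 3)) (l 3))), by decide +kernel⟩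

def k78_mm_202 : ∃ t, chk3 f_mm_202 t 114 40 1 = true :=
  ⟨(b (c (a (l 16778592) (b (l 16780856) (b (l 16780696) (c (a (l 16773984) (a (b (l 16775720) (l 160692180071)) (b (a (l 16776816) (l 193441302007)) (a (l 226190426967) (l 3))))) (a (l 16773648) (a (l 141364826695) (b (l 157470953943) (l 263234519479)))))))) (a (l 16778160) (b (l 16780808) (a (l 16783200) (b (l 16779304) (a (l 160692177639) (b (l 163913406183) (a (l 216526753383) (l 3))))))))) (a (b (c (a (l 16781952) (c (b (l 16773352) (a (l 16775136) (b (l 16776048) (l 162302793015)))) (b (l 16773016) (l 148344149303)))) (b (l 16772016) (c (l 164450270967) (l 147807275287)))) (a (c (b (c (l 149954762631) (l 16780152)) (a (b (l 16781408) (c (l 207399944519) (l 172503339943))) (b (a (c (l 203641849527) (l 168745241671)) (c (l 225653556215) (l 231022264775))) (l 3)))) (b (l 16779648) (a (b (l 16775456) (l 180019534279)) (b (l 195051920359) (l 3))))) (c (c (b (a (b (l 162839664103) (a (l 195051915303) (l 246054650855))) (b (l 251423359975)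 (l 3))) (l 3)) (b (a (b (l 16779152) (l 238538457479)) (b (l 256792068615) (l 3))) (l 3))) (b (a (b (l 16779976) (a (l 178945791911) (l 276656291895))) (c (l 301352354359) (l 306184192967))) (l 3))))) (b (a (b (a (c (c (l 16780976) (l 16775360)) (l 16780128)) (b (c (c (l 16779232) (l 16778872)) (l 16781032)) (c (c (a (l 204178720071) (l 232632878007)) (a (l 152102244055) (l 237464715719))) (a (l 177335175271) (l 223506075591))))) (a (c (c (b (a (l 16779712) (l 213305524983)) (l 269676970583)) (b (a (l 16779352) (l 183240757575)) (l 278266904807))) (b (l 178945792359) (l 294373037415))) (a (c (c (l 295446774759) (l 309942291879)) (l 319069100327)) (l 3)))) (b (a (b (b (c (c (l 215453008535) (l 184314499319)) (l 204715592775)) (c (c (l 249812747175) (l 256792068567)) (l 277193162807))) (l 3)) (l 3)) (l 3))) (l 3)))), by decide +kernel⟩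

def k79_mm_202 : ∃ t, chk3 f_mm_202 t 115 40 1 = true :=
  ⟨(b (a (b (a (c (b (l 16772496) (c (l 138680473319) (l 16780136))) (c (l 16778816) (l 16778984))) (b (c (a (l 16780136) (b (l 16781072) (a (l 153712859047) (c (l 199883752775) (l 168745242599))))) (c (l 147807277495) (l 153175984535))) (c (c (a (b (a (l 16776520) (l 171429596791)) (a (l 204178720679) (l 262697648775))) (b (a (l 233169748791) (l 3)) (l 3))) (a (b (l 16779160) (a (l 180019531943) (l 271824453847))) (b (a (l 237464715623) (l 3)) (l 3)))) (a (b (l 149417890743) (a (l 198273141799) (l 291151806567))) (b (a (l 210084305159) (l 3)) (l 3)))))) (a (b (a (b (c (l 16780064) (l 16775520)) (c (a (c (l 164987146775) (l 16779360)) (c (l 219747975895) (l 186998853991))) (l 181093276103))) (b (c (a (c (l 205252461527) (l 155323469543)) (c (l 239612199815) (l 244980908487))) (a (l 179482659159) (l 227264172039))) (c (c (l 292762420055) (l 304036709079)) (l 317458482135)))) (a (a (b (c (c (l 246591521687) (l 253033972183)) (l 273435066455))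 (l 3)) (l 3)) (l 3))) (l 3))) (b (a (b (a (a (b (c (c (l 162839662935) (l 16779376)) (l 16778992)) (c (c (l 255181456167) (l 262160777591)) (l 282561871863))) (b (c (c (l 226727297735) (l 230485393623)) (l 212231785991)) (l 3))) (l 3)) (l 3)) (l 3)) (l 3))) (l 3)), by decide +kernel⟩

def k80_mm_202 : ∃ t, chk3 f_mm_202 t 57 41 1 = true :=
  ⟨(a (b (a (b (a (b (a (b (c (c (l 263234519847) (l 271824453863)) (l 290078064727)) (l 3)) (l 3)) (l 3)) (l 3)) (l 3)) (l 3)) (l 3)) (l 3)), by decide +kernel⟩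

def k81_mm_202 : ∃ t, chk3 f_mm_202 t 29 20 1 = true :=
  ⟨(l 3), by decide +kernel⟩

def k82_mm_202 : ∃ t, chk3 f_mm_202 t 14 21 1 = true :=
  ⟨(a (a (b (a (b (a (b (a (c (b (a (l 16774616) (c (l 164450278023) (l 232632873303))) (a (b (l 16781624) (c (l 216526750375) (l 170355855639))) (b (c (l 206326203351) (l 210084298919)) (l 3)))) (b (l 16779632) (a (l 168208375575) (b (l 204178722135) (l 3))))) (b (a (c (b (c (l 175724566407) (l 16779256)) (c (l 219211105463) (l 223506072023))) (b (l 16778624) (l 216526753895))) (b (c (c (l 232632878375) (l 238538457751)) (l 259476422663)) (l 3))) (l 3))) (a (b (a (c (c (l 276119421639) (l 285783097671)) (l 302962977591)) (l 3)) (l 3)) (l 3))) (l 3)) (l 3)) (l 3)) (l 3)) (l 3)) (l 3)), by decide +kernel⟩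

def k83_mm_202 : ∃ t, chk3 f_mm_202 t 15 10 1 = true :=
  ⟨(l 3), by decide +kernel⟩

def k84_mm_202 : ∃ t, chk3 f_mm_202 t 7 11 1 = true :=
  ⟨(l 3), by decide +kernel⟩

def k85_mm_202 : ∃ t, chk3 f_mm_202 t 12 24 1 = true :=
  ⟨(a (c (a (l 16789288) (b (l 16773576) (a (b (l 16754344) (l 16787016)) (c (b (l 176798317079) (a (b (l 16773392) (l 218674233415)) (b (l 218674234407) (l 233706622903)))) (b (l 16782592) (a (b (l 16771584) (l 209010554023)) (b (a (l 195051923319) (l 216526749783)) (l 239075330199)))))))) (a (l 16787216) (b (l 16773680) (a (l 16780272) (b (l 16785040) (a (b (l 16768864) (l 171966478663)) (b (l 205252454903) (l 258402681271)))))))) (a (b (a (c (b (l 16758080) (a (l 16766416) (b (l 16770032) (a (l 16794472) (b (l 16774976) (l 216526748887)))))) (b (l 16759848) (l 154249738055))) (c (b (a (l 16789248) (b (l 16782288) (a (b (l 16773968) (l 196662539975)) (b (l 197199410983) (l 218137363655))))) (a (b (a (l 16784768) (b (l 16786176) (l 217063620887))) (a (b (l 216526749447)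 (l 3)) (l 3))) (b (a (b (l 217063621383) (l 3)) (l 3)) (l 3)))) (b (a (l 16786024) (b (l 16768736) (l 174113962311))) (a (b (l 162839670999) (a (l 207399941015) (l 3))) (b (a (l 223506069847) (l 3)) (l 3)))))) (a (b (a (b (c (l 182167028519) (l 175724569975)) (c (a (b (l 16786376) (l 217600492039)) (b (l 218137363415) (l 3))) (a (l 160155316039) (l 217063618759)))) (b (a (c (b (l 199346894759) (l 218137363831)) (l 173577090487)) (c (b (l 218137364215) (l 3)) (l 233706618295))) (l 3))) (l 3)) (l 3))) (b (a (b (a (c (b (a (b (l 16774768) (l 215989898695)) (b (l 215453028391) (l 192367560631))) (a (b (l 218674234967) (l 3)) (l 3))) (b (a (l 152102251191) (l 213305531687)) (a (l 240685940327) (l 3)))) (l 3)) (l 3)) (l 3)) (l 3)))), by decide +kernel⟩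

def k86_mm_202 : ∃ t, chk3 f_mm_202 t 12 25 1 = true :=
  ⟨(a (a (b (a (l 16791080) (b (c (l 16785280) (l 16781040)) (a (c (b (l 16769328) (l 193441317991)) (l 170892733399)) (b (a (l 16787280) (c (l 201494381783) (l 16782880))) (c (a (l 216526749527) (l 222969203159)) (l 208473682039)))))) (a (c (b (a (l 16791272) (b (l 16783824) (a (l 203641865239) (l 218137363591)))) (a (b (l 215453027399) (l 208473683975)) (l 3))) (b (a (l 16786696) (l 174650836663)) (a (b (l 162302801575) (l 227264166727)) (l 3)))) (b (a (b (c (a (l 216526748535) (l 219211106151)) (l 202031229655)) (l 3)) (l 3)) (l 3)))) (b (a (b (c (a (b (l 16770912) (a (l 16784656) (l 215453027143))) (b (a (l 16785336) (l 215989899143)) (a (l 218137364007) (l 3)))) (a (l 155860351863) (b (l 161765929479) (l 230485392103)))) (a (b (c (a (l 217600492263) (l 3)) (l 218137359847)) (l 3)) (l 3))) (b (a (b (b (c (l 200957495639) (l 219211102663)) (l 3)) (l 3)) (l 3)) (l 3))) (l 3))) (l 3)), by decide +kernel⟩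

def k87_mm_202 : ∃ t, chk3 f_mm_202 t 13 12 1 = true :=
  ⟨(l 3), by decide +kernel⟩

def k88_mm_202 : ∃ t, chk3 f_mm_202 t 6 13 1 = true :=
  ⟨(l 3), by decide +kernel⟩

def k89_mm_202 : ∃ t, chk3 f_mm_202 t 7 6 1 = true :=
  ⟨(l 3), by decide +kernel⟩

def k90_mm_202 : ∃ t, chk3 f_mm_202 t 3 7 1 = true :=
  ⟨(l 3), by decide +kernel⟩

theorem s91_mm_202 : ∃ t, chk3 f_mm_202 t 12 12 1 = true := ex3_b k85_mm_202 k86_mm_202

theorem s92_mm_202 : ∃ t, chk3 f_mm_202 t 6 12 1 = true := ex3_a s91_mm_202 k87_mm_202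

theorem s93_mm_202 : ∃ t, chk3 f_mm_202 t 6 6 1 = true := ex3_b s92_mm_202 k88_mm_202

theorem s94_mm_202 : ∃ t, chk3 f_mm_202 t 3 6 1 = true := ex3_a s93_mm_202 k89_mm_202

theorem s95_mm_202 : ∃ t, chk3 f_mm_202 t 3 3 1 = true := ex3_b s94_mm_202 k90_mm_202

theorem s96_mm_202 : ∃ t, chk3 f_mm_202 t 57 40 1 = true := ex3_a k78_mm_202 k79_mm_202

theorem s97_mm_202 : ∃ t, chk3 f_mm_202 t 57 20 1 = true := ex3_b s96_mm_202 k80_mm_202

theorem s98_mm_202 : ∃ t, chk3 f_mm_202 t 56 41 1 = true := ex3_a k76_mm_202 k77_mm_202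

theorem s99_mm_202 : ∃ t, chk3 f_mm_202 t 56 20 1 = true := ex3_b k75_mm_202 s98_mm_202

theorem s100_mm_202 : ∃ t, chk3 f_mm_202 t 28 20 1 = true := ex3_a s99_mm_202 s97_mm_202

theorem s101_mm_202 : ∃ t, chk3 f_mm_202 t 14 20 1 = true := ex3_a s100_mm_202 k81_mm_202

theorem s102_mm_202 : ∃ t, chk3 f_mm_202 t 14 10 1 = true := ex3_b s101_mm_202 k82_mm_202

theorem s103_mm_202 : ∃ t, chk3 f_mm_202 t 7 10 1 = true := ex3_a s102_mm_202 k83_mm_202

theorem s104_mm_202 : ∃ t, chk3 f_mm_202 t 7 5 1 = true := ex3_b s103_mm_202 k84_mm_202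

theorem s105_mm_202 : ∃ t, chk3 f_mm_202 t 26 22 1 = true := ex3_a k71_mm_202 k72_mm_202

theorem s106_mm_202 : ∃ t, chk3 f_mm_202 t 13 22 1 = true := ex3_a s105_mm_202 k73_mm_202

theorem s107_mm_202 : ∃ t, chk3 f_mm_202 t 13 11 1 = true := ex3_b s106_mm_202 k74_mm_202

theorem s108_mm_202 : ∃ t, chk3 f_mm_202 t 6 11 1 = true := ex3_a k70_mm_202 s107_mm_202

theorem s109_mm_202 : ∃ t, chk3 f_mm_202 t 55 21 1 = true := ex3_b k68_mm_202 k69_mm_202

theorem s110_mm_202 : ∃ t, chk3 f_mm_202 t 27 21 1 = true := ex3_a k67_mm_202 s109_mm_202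

theorem s111_mm_202 : ∃ t, chk3 f_mm_202 t 13 21 1 = true := ex3_a k66_mm_202 s110_mm_202

theorem s112_mm_202 : ∃ t, chk3 f_mm_202 t 13 10 1 = true := ex3_b k65_mm_202 s111_mm_202

theorem s113_mm_202 : ∃ t, chk3 f_mm_202 t 6 10 1 = true := ex3_a k64_mm_202 s112_mm_202

theorem s114_mm_202 : ∃ t, chk3 f_mm_202 t 6 5 1 = true := ex3_b s113_mm_202 s108_mm_202

theorem s115_mm_202 : ∃ t, chk3 f_mm_202 t 3 5 1 = true := ex3_a s114_mm_202 s104_mm_202

theorem s116_mm_202 : ∃ t, chk3 f_mm_202 t 243 144 1 = true := ex3_a k56_mm_202 k57_mm_202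

theorem s117_mm_202 : ∃ t, chk3 f_mm_202 t 243 72 1 = true := ex3_b s116_mm_202 k58_mm_202

theorem s118_mm_202 : ∃ t, chk3 f_mm_202 t 242 72 1 = true := ex3_b k54_mm_202 k55_mm_202

theorem s119_mm_202 : ∃ t, chk3 f_mm_202 t 121 72 1 = true := ex3_a s118_mm_202 s117_mm_202

theorem s120_mm_202 : ∃ t, chk3 f_mm_202 t 121 36 1 = true := ex3_b s119_mm_202 k59_mm_202

theorem s121_mm_202 : ∃ t, chk3 f_mm_202 t 241 73 1 = true := ex3_b k52_mm_202 k53_mm_202

theorem s122_mm_202 : ∃ t, chk3 f_mm_202 t 120 73 1 = true := ex3_a k51_mm_202 s121_mm_202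

theorem s123_mm_202 : ∃ t, chk3 f_mm_202 t 120 36 1 = true := ex3_b k50_mm_202 s122_mm_202

theorem s124_mm_202 : ∃ t, chk3 f_mm_202 t 60 36 1 = true := ex3_a s123_mm_202 s120_mm_202

theorem s125_mm_202 : ∃ t, chk3 f_mm_202 t 60 18 1 = true := ex3_b s124_mm_202 k60_mm_202

theorem s126_mm_202 : ∃ t, chk3 f_mm_202 t 30 18 1 = true := ex3_a s125_mm_202 k61_mm_202

theorem s127_mm_202 : ∃ t, chk3 f_mm_202 t 15 18 1 = true := ex3_a s126_mm_202 k62_mm_202

theorem s128_mm_202 : ∃ t, chk3 f_mm_202 t 15 9 1 = true := ex3_b s127_mm_202 k63_mm_202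

theorem s129_mm_202 : ∃ t, chk3 f_mm_202 t 118 76 1 = true := ex3_a k45_mm_202 k46_mm_202

theorem s130_mm_202 : ∃ t, chk3 f_mm_202 t 118 38 1 = true := ex3_b s129_mm_202 k47_mm_202

theorem s131_mm_202 : ∃ t, chk3 f_mm_202 t 59 38 1 = true := ex3_a s130_mm_202 k48_mm_202

theorem s132_mm_202 : ∃ t, chk3 f_mm_202 t 59 19 1 = true := ex3_b s131_mm_202 k49_mm_202

theorem s133_mm_202 : ∃ t, chk3 f_mm_202 t 116 39 1 = true := ex3_b k42_mm_202 k43_mm_202

theorem s134_mm_202 : ∃ t, chk3 f_mm_202 t 58 39 1 = true := ex3_a s133_mm_202 k44_mm_202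

theorem s135_mm_202 : ∃ t, chk3 f_mm_202 t 117 77 1 = true := ex3_a k40_mm_202 k41_mm_202

theorem s136_mm_202 : ∃ t, chk3 f_mm_202 t 117 38 1 = true := ex3_b k39_mm_202 s135_mm_202

theorem s137_mm_202 : ∃ t, chk3 f_mm_202 t 58 38 1 = true := ex3_a k38_mm_202 s136_mm_202

theorem s138_mm_202 : ∃ t, chk3 f_mm_202 t 58 19 1 = true := ex3_b s137_mm_202 s134_mm_202

theorem s139_mm_202 : ∃ t, chk3 f_mm_202 t 29 19 1 = true := ex3_a s138_mm_202 s132_mm_202

theorem s140_mm_202 : ∃ t, chk3 f_mm_202 t 14 19 1 = true := ex3_a k37_mm_202 s139_mm_202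

theorem s141_mm_202 : ∃ t, chk3 f_mm_202 t 119 75 1 = true := ex3_a k35_mm_202 k36_mm_202

theorem s142_mm_202 : ∃ t, chk3 f_mm_202 t 119 37 1 = true := ex3_b k34_mm_202 s141_mm_202

theorem s143_mm_202 : ∃ t, chk3 f_mm_202 t 59 37 1 = true := ex3_a k33_mm_202 s142_mm_202

theorem s144_mm_202 : ∃ t, chk3 f_mm_202 t 59 18 1 = true := ex3_b k32_mm_202 s143_mm_202

theorem s145_mm_202 : ∃ t, chk3 f_mm_202 t 29 18 1 = true := ex3_a k31_mm_202 s144_mm_202

theorem s146_mm_202 : ∃ t, chk3 f_mm_202 t 14 18 1 = true := ex3_a k30_mm_202 s145_mm_202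

theorem s147_mm_202 : ∃ t, chk3 f_mm_202 t 14 9 1 = true := ex3_b s146_mm_202 s140_mm_202

theorem s148_mm_202 : ∃ t, chk3 f_mm_202 t 7 9 1 = true := ex3_a s147_mm_202 s128_mm_202

theorem s149_mm_202 : ∃ t, chk3 f_mm_202 t 246 140 1 = true := ex3_a k24_mm_202 k25_mm_202

theorem s150_mm_202 : ∃ t, chk3 f_mm_202 t 246 70 1 = true := ex3_b s149_mm_202 k26_mm_202

theorem s151_mm_202 : ∃ t, chk3 f_mm_202 t 123 70 1 = true := ex3_a s150_mm_202 k27_mm_202

theorem s152_mm_202 : ∃ t, chk3 f_mm_202 t 123 35 1 = true := ex3_b s151_mm_202 k28_mm_202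

theorem s153_mm_202 : ∃ t, chk3 f_mm_202 t 244 143 1 = true := ex3_a k21_mm_202 k22_mm_202

theorem s154_mm_202 : ∃ t, chk3 f_mm_202 t 244 71 1 = true := ex3_b k20_mm_202 s153_mm_202

theorem s155_mm_202 : ∃ t, chk3 f_mm_202 t 122 71 1 = true := ex3_a s154_mm_202 k23_mm_202

theorem s156_mm_202 : ∃ t, chk3 f_mm_202 t 245 141 1 = true := ex3_a k18_mm_202 k19_mm_202

theorem s157_mm_202 : ∃ t, chk3 f_mm_202 t 245 70 1 = true := ex3_b k17_mm_202 s156_mm_202

theorem s158_mm_202 : ∃ t, chk3 f_mm_202 t 122 70 1 = true := ex3_a k16_mm_202 s157_mm_202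

theorem s159_mm_202 : ∃ t, chk3 f_mm_202 t 122 35 1 = true := ex3_b s158_mm_202 s155_mm_202

theorem s160_mm_202 : ∃ t, chk3 f_mm_202 t 61 35 1 = true := ex3_a s159_mm_202 s152_mm_202

theorem s161_mm_202 : ∃ t, chk3 f_mm_202 t 30 35 1 = true := ex3_a k15_mm_202 s160_mm_202

theorem s162_mm_202 : ∃ t, chk3 f_mm_202 t 494 139 1 = true := ex3_b k12_mm_202 k13_mm_202

theorem s163_mm_202 : ∃ t, chk3 f_mm_202 t 247 139 1 = true := ex3_a s162_mm_202 k14_mm_202

theorem s164_mm_202 : ∃ t, chk3 f_mm_202 t 247 69 1 = true := ex3_b k11_mm_202 s163_mm_202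

theorem s165_mm_202 : ∃ t, chk3 f_mm_202 t 123 69 1 = true := ex3_a k10_mm_202 s164_mm_202

theorem s166_mm_202 : ∃ t, chk3 f_mm_202 t 123 34 1 = true := ex3_b k9_mm_202 s165_mm_202

theorem s167_mm_202 : ∃ t, chk3 f_mm_202 t 61 34 1 = true := ex3_a k8_mm_202 s166_mm_202

theorem s168_mm_202 : ∃ t, chk3 f_mm_202 t 30 34 1 = true := ex3_a k7_mm_202 s167_mm_202

theorem s169_mm_202 : ∃ t, chk3 f_mm_202 t 30 17 1 = true := ex3_b s168_mm_202 s161_mm_202

theorem s170_mm_202 : ∃ t, chk3 f_mm_202 t 15 17 1 = true := ex3_a s169_mm_202 k29_mm_202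

theorem s171_mm_202 : ∃ t, chk3 f_mm_202 t 15 8 1 = true := ex3_b k6_mm_202 s170_mm_202

theorem s172_mm_202 : ∃ t, chk3 f_mm_202 t 7 8 1 = true := ex3_a k5_mm_202 s171_mm_202

theorem s173_mm_202 : ∃ t, chk3 f_mm_202 t 7 4 1 = true := ex3_b s172_mm_202 s148_mm_202

theorem s174_mm_202 : ∃ t, chk3 f_mm_202 t 3 4 1 = true := ex3_a k4_mm_202 s173_mm_202

theorem s175_mm_202 : ∃ t, chk3 f_mm_202 t 3 2 1 = true := ex3_b s174_mm_202 s115_mm_202

theorem s176_mm_202 : ∃ t, chk3 f_mm_202 t 3 1 1 = true := ex3_b s175_mm_202 s95_mm_202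

theorem s177_mm_202 : ∃ t, chk3 f_mm_202 t 2 6 1 = true := ex3_a k1_mm_202 k2_mm_202

theorem s178_mm_202 : ∃ t, chk3 f_mm_202 t 2 3 1 = true := ex3_b s177_mm_202 k3_mm_202

theorem s179_mm_202 : ∃ t, chk3 f_mm_202 t 2 1 1 = true := ex3_b k0_mm_202 s178_mm_202

theorem s180_mm_202 : ∃ t, chk3 f_mm_202 t 1 1 1 = true := ex3_a s179_mm_202 s176_mm_202

theorem c_mm_202 : CertN 0 536870912 1073741824 536870912 469762048 67108864 3 false false false .pp 2 0 2
    ndN0q2 ndN4q2 pcN0 cut_mm_202 Ext.none :=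
  certN1 (fam := false) (s1 := false) (s2 := false) (a := 2) (b := 0) (c := 2) (cn := .pp) (n1 := ndN0q2) (n2 := ndN4q2) (pc := pcN0) (cut := cut_mm_202) (xt := Ext.none) (P1 := 0) (W1 := 536870912) (P2 := 1073741824) (W2 := 536870912) (P3 := 469762048) (W3 := 67108864) (N0 := 3)
    rfl (fun _ => rfl) s180_mm_202

noncomputable def f_mm_203 : ℕ → ℕ → ℕ → ℕ → Bool := onCell 0 536870912 0 1230186008 469762048 67108864
    (rowN 3 0 false false false .up 2 0 3 (qsf 0 536870912 0 1230186008 0) ndN0q2 ndN4q3 pcN0 Cut.none Ext.none)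

def k0_mm_203 : ∃ t, chk3 f_mm_203 t 1 2 1 = true :=
  ⟨(l 2), by decide +kernel⟩

def k1_mm_203 : ∃ t, chk3 f_mm_203 t 1 6 1 = true :=
  ⟨(l 2), by decide +kernel⟩

def k2_mm_203 : ∃ t, chk3 f_mm_203 t 2 14 1 = true :=
  ⟨(a (b (l 2) (a (b (l 2) (a (l 16749912) (b (l 336718756359) (l 16753152)))) (b (l 2) (a (b (b (l 4591957582167) (c (a (a (l 16773304) (a (l 16778280) (l 235317249943))) (a (a (l 243370308007) (l 3)) (l 3))) (a (a (l 16762528) (l 225116669719)) (a (l 241759679927) (l 3))))) (c (a (l 16766544) (a (b (a (l 222969229799) (l 240685949895)) (l 16774816)) (b (l 254107729223) (a (l 233706623895) (l 241759692919))))) (a (l 16755600) (a (b (l 226727284839) (l 16764912)) (b (l 252497100151) (l 227801029015)))))) (l 3))))) (l 3)), by decide +kernel⟩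

def k3_mm_203 : ∃ t, chk3 f_mm_203 t 2 30 1 = true :=
  ⟨(a (a (b (a (l 16740368) (l 16745504)) (l 16732144)) (b (a (b (a (l 16753752) (a (l 16757976) (b (b (l 215453043335) (l 16769008)) (l 16763208)))) (l 16750400)) (c (b (a (a (b (a (l 235317237975) (l 250349628599)) (l 219211135239)) (b (l 3) (l 241222821783))) (l 3)) (a (a (l 16764592) (b (l 229948522167) (l 16769728))) (a (b (l 242296564567) (l 230485394503)) (b (l 3) (l 252497112663))))) (b (a (a (b (l 234780353175) (l 207936830087)) (b (l 3) (l 235854097255))) (l 3)) (b (a (l 209547422807) (a (l 236927841239) (l 3))) (a (l 16755256) (a (l 221358573063) (l 248202132423))))))) (a (l 16721088) (b (a (l 16752376) (c (a (l 16786840) (b (l 231559137687) (l 16771184))) (a (l 16777680) (b (l 222432317335) (l 16762784))))) (a (l 16746424) (l 16773456)))))) (c (a (a (b (l 3) (a (b (a (b (l 254644596807) (l 232632880791)) (l 3)) (b (a (l 16792896) (l 235317236519)) (l 212768675831))) (b (l 3) (a (b (l 3) (l 235854108455)) (l 3))))) (l 3))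 (l 3)) (a (a (b (l 3) (a (b (b (l 258939534999) (a (l 223506061607) (l 3))) (b (a (l 16763912) (l 228337902231)) (l 197736287911))) (b (l 3) (a (b (l 3) (l 228337904583)) (l 3))))) (l 3)) (l 3)))), by decide +kernel⟩

def k4_mm_203 : ∃ t, chk3 f_mm_203 t 2 31 1 = true :=
  ⟨(a (a (b (l 16717608) (l 16699896)) (b (b (l 16753872) (l 16729648)) (a (l 16705344) (l 16717256)))) (a (b (a (c (b (a (l 16778752) (b (a (l 224042934791) (l 235854109255)) (a (l 16762560) (l 224042957191)))) (a (l 16752152) (a (l 16756232) (l 16791104)))) (b (a (l 16770216) (a (b (l 213842394007) (l 16755424)) (b (l 225653573271) (l 230485373495)))) (l 16787096))) (a (c (b (a (b (l 3) (l 246591527959)) (l 3)) (a (b (l 220284883239) (l 16785568)) (b (a (l 241222817287) (l 3)) (a (l 211694904295) (l 218674234743))))) (b (a (b (l 3) (l 225116672999)) (l 3)) (a (b (a (l 16786048) (l 232632865319)) (l 16757856)) (b (l 253570843447) (l 197736253367))))) (l 3))) (a (l 16795912) (c (a (b (b (l 192904455895) (l 16754544)) (l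 16747136)) (b (a (b (a (l 212768670151) (l 220284859943)) (l 196662552855)) (b (l 3) (a (l 211158060135) (b (l 3) (l 226190428887))))) (a (l 16753504) (b (a (l 16767064) (l 211158053447)) (l 16757904))))) (a (b (l 156934095639) (l 16735376)) (b (a (b (l 206326192087) (l 190220087127)) (b (l 3) (a (l 196662513847) (l 226190424183)))) (b (l 163376547047) (l 16746872))))))) (b (l 3) (a (a (b (l 3) (a (c (b (a (b (l 227264171527) (l 213842392743)) (l 3)) (a (l 16789872) (l 212231819207))) (b (a (l 204715581367) (l 3)) (l 163913421159))) (b (l 3) (a (b (l 3) (c (l 219211104279) (l 221895449591))) (l 3))))) (l 3)) (l 3))))), by decide +kernel⟩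

def k5_mm_203 : ∃ t, chk3 f_mm_203 t 3 7 1 = true :=
  ⟨(l 3), by decide +kernel⟩

theorem s6_mm_203 : ∃ t, chk3 f_mm_203 t 2 15 1 = true := ex3_b k3_mm_203 k4_mm_203

theorem s7_mm_203 : ∃ t, chk3 f_mm_203 t 2 7 1 = true := ex3_b k2_mm_203 s6_mm_203

theorem s8_mm_203 : ∃ t, chk3 f_mm_203 t 1 7 1 = true := ex3_a s7_mm_203 k5_mm_203

theorem s9_mm_203 : ∃ t, chk3 f_mm_203 t 1 3 1 = true := ex3_b k1_mm_203 s8_mm_203

theorem s10_mm_203 : ∃ t, chk3 f_mm_203 t 1 1 1 = true := ex3_b k0_mm_203 s9_mm_203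

theorem c_mm_203 : CertN 0 536870912 0 1230186008 469762048 67108864 3 false false false .up 2 0 3
    ndN0q2 ndN4q3 pcN0 Cut.none Ext.none :=
  certN0 (fam := false) (s1 := false) (s2 := false) (a := 2) (b := 0) (c := 3) (cn := .up) (n1 := ndN0q2) (n2 := ndN4q3) (pc := pcN0) (cut := Cut.none) (xt := Ext.none) (P1 := 0) (W1 := 536870912) (P2 := 0) (W2 := 1230186008) (P3 := 469762048) (W3 := 67108864) (N0 := 3)
    rfl s10_mm_203

noncomputable def f_mm_213 : ℕ → ℕ → ℕ → ℕ → Bool := onCell 0 536870912 0 1230186008 469762048 67108864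
    (rowN 3 0 false false false .pnn 2 1 3 (qsf 0 536870912 0 1230186008 1) ndN0q2 ndN4q3 pcN1 Cut.none Ext.none)

def k0_mm_213 : ∃ t, chk3 f_mm_213 t 1 2 1 = true :=
  ⟨(a (l 3) (b (l 5) (l 3))), by decide +kernel⟩

def k1_mm_213 : ∃ t, chk3 f_mm_213 t 1 6 1 = true :=
  ⟨(a (b (l 3) (a (l 3) (l 3))) (l 3)), by decide +kernel⟩

def k2_mm_213 : ∃ t, chk3 f_mm_213 t 2 14 1 = true :=
  ⟨(a (b (a (a (b (a (b (l 244444077207) (a (l 16773296) (l 170892736279))) (b (l 3) (b (l 3) (l 233706617239)))) (a (b (l 16769928) (l 16765048)) (b (b (l 228337903223) (l 166060873351)) (l 16789288)))) (b (l 3) (a (b (b (l 3) (l 247128398631)) (a (b (l 225116682503) (l 162302821191)) (b (l 3) (c (a (l 175187700615) (l 242296568583)) (l 234243480599))))) (l 3)))) (l 3)) (a (b (a (b (l 16761320) (l 16756856)) (b (a (c (a (l 16773464) (b (a (l 16780248) (b (b (l 228337938807) (l 230485426375)) (l 16792224))) (l 16776968))) (a (l 16760672) (b (a (l 16768720) (b (l 226190417255) (l 16770592))) (l 16765016)))) (c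 (a (b (a (b (l 3) (a (l 237464727751) (l 247665277207))) (l 3)) (a (b (l 228337919479) (l 16779920)) (b (l 240685965415) (l 228874791063)))) (b (l 3) (a (b (l 3) (l 248202148295)) (l 3)))) (a (b (b (l 3) (l 239612193927)) (a (l 221358596343) (l 235317222983))) (b (l 3) (l 251960228839))))) (c (a (l 16769320) (a (l 16796000) (b (c (a (l 234243504455) (l 241222830631)) (l 236390979447)) (a (l 16776936) (l 223506099031))))) (a (l 16754648) (a (l 16763192) (b (a (l 229948510343) (l 244444030727)) (l 16767440))))))) (a (l 16750592) (b (l 16800472) (l 1)))) (b (a (b (l 3) (c (a (a (b (l 3) (b (l 242296567927) (l 235854113159))) (l 3)) (l 3)) (a (a (b (l 3) (l 236390966519)) (l 3)) (l 3)))) (l 3)) (a (b (c (a (a (b (b (l 226190432343) (l 16777832)) (l 16773496)) (b (a (l 239612210471) (l 251423374727)) (a (l 16778360) (l 234243497703)))) (a (b (l 3) (l 243907191463)) (l 3))) (b (a (a (l 221895441703) (l 239075323271)) (l 3)) (a (a (l 16762248) (l 222432315047)) (l 254644575959)))) (l 1)) (l 3)))))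 (l 3)), by decide +kernel⟩

def k3_mm_213 : ∃ t, chk3 f_mm_213 t 2 15 1 = true :=
  ⟨(a (l 1) (b (a (l 1) (l 3)) (l 1))), by decide +kernel⟩

def k4_mm_213 : ∃ t, chk3 f_mm_213 t 3 7 1 = true :=
  ⟨(l 3), by decide +kernel⟩

theorem s5_mm_213 : ∃ t, chk3 f_mm_213 t 2 7 1 = true := ex3_b k2_mm_213 k3_mm_213

theorem s6_mm_213 : ∃ t, chk3 f_mm_213 t 1 7 1 = true := ex3_a s5_mm_213 k4_mm_213

theorem s7_mm_213 : ∃ t, chk3 f_mm_213 t 1 3 1 = true := ex3_b k1_mm_213 s6_mm_213

theorem s8_mm_213 : ∃ t, chk3 f_mm_213 t 1 1 1 = true := ex3_b k0_mm_213 s7_mm_213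

theorem c_mm_213 : CertN 0 536870912 0 1230186008 469762048 67108864 3 false false false .pnn 2 1 3
    ndN0q2 ndN4q3 pcN1 Cut.none Ext.none :=
  certN0 (fam := false) (s1 := false) (s2 := false) (a := 2) (b := 1) (c := 3) (cn := .pnn) (n1 := ndN0q2) (n2 := ndN4q3) (pc := pcN1) (cut := Cut.none) (xt := Ext.none) (P1 := 0) (W1 := 536870912) (P2 := 0) (W2 := 1230186008) (P3 := 469762048) (W3 := 67108864) (N0 := 3)
    rfl s8_mm_213

end Pool.Agent.Strip051.G.I7_16_1_2.Tab.C.NB04

namespace Pool.Agent.Strip051.G.I7_16_1_2.Tab.C.NB10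

open Pool.Agent.Strip051.PB Pool.Agent.Strip051.PB.T
open Pool.Agent.Strip051.G.I7_16_1_2.Tab

noncomputable def f_pp_001 : ℕ → ℕ → ℕ → ℕ → Bool := onCell 0 536870912 0 536870912 469762048 67108864
    (rowN 3 1 false true true .up 0 0 1 (qsf 0 536870912 536870912 536870912 0) ndN1q0 ndN0q1 pcN0 Cut.none Ext.none)

def k0_pp_001 : ∃ t, chk3 f_pp_001 t 1 1 1 = true :=
  ⟨(l 3), by decide +kernel⟩

theorem c_pp_001 : CertN 0 536870912 536870912 536870912 469762048 67108864 3 false true true .up 0 0 1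
    ndN1q0 ndN0q1 pcN0 Cut.none Ext.none :=
  certN1 (fam := false) (s1 := true) (s2 := true) (a := 0) (b := 0) (c := 1) (cn := .up) (n1 := ndN1q0) (n2 := ndN0q1) (pc := pcN0) (cut := Cut.none) (xt := Ext.none) (P1 := 0) (W1 := 536870912) (P2 := 536870912) (W2 := 536870912) (P3 := 469762048) (W3 := 67108864) (N0 := 3)
    rfl (fun _ => rfl) k0_pp_001

noncomputable def cut_pp_011 : Cut := Cut.of [[⟨0, 0, 0, 67108864⟩, ⟨1, 1, 0, 67108864⟩, ⟨2, 1, 0, 67108864⟩]]

noncomputable def f_pp_011 : ℕ → ℕ → ℕ → ℕ → Bool := onCell 0 536870912 536870912 536870912 469762048 67108864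
    (rowN 3 0 false true true .pnn 0 1 1 (qsf 0 536870912 536870912 536870912 1) ndN1q0 ndN0q1 pcN1 cut_pp_011 Ext.none)

def k0_pp_011 : ∃ t, chk3 f_pp_011 t 1 1 1 = true :=
  ⟨(a (b (l 3) (b (l 3) (a (b (l 3) (a (b (l 3) (b (l 3) (a (l 6) (l 3)))) (l 3))) (l 3)))) (l 3)), by decide +kernel⟩

theorem c_pp_011 : CertN 0 536870912 536870912 536870912 469762048 67108864 3 false true true .pnn 0 1 1
    ndN1q0 ndN0q1 pcN1 cut_pp_011 Ext.none :=
  certN0 (fam := false) (s1 := true) (s2 := true) (a := 0) (b := 1) (c := 1) (cn := .pnn) (n1 := ndN1q0) (n2 := ndN0q1) (pc := pcN1) (cut := cut_pp_011) (xt := Ext.none) (P1 := 0) (W1 := 536870912) (P2 := 536870912) (W2 := 536870912) (P3 := 469762048) (W3 := 67108864) (N0 := 3)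
    rfl k0_pp_011

noncomputable def cut_pp_012 : Cut := Cut.of [[⟨0, 0, 0, 67108864⟩, ⟨1, 1, 0, 67108864⟩, ⟨2, 1, 0, 67108864⟩]]

noncomputable def f_pp_012 : ℕ → ℕ → ℕ → ℕ → Bool := onCell 536870912 536870912 0 536870912 469762048 67108864
    (rowN 3 2 false true true .pnp 0 1 2 (qsf 0 536870912 0 536870912 1) ndN1q0 ndN0q2 pcN1 cut_pp_012 Ext.none)

def k0_pp_012 : ∃ t, chk3 f_pp_012 t 2 1 1 = true :=
  ⟨(b (a (b (l 2) (a (l 2) (b (l 2) (l 223439355623)))) (b (a (b (l 16804248) (l 16798512)) (l 16837024)) (a (b (l 16810408) (l 16850096)) (l 16881896)))) (a (b (a (l 2) (b (a (l 2) (b (l 16927664) (l 164987213175))) (l 3))) (l 3)) (b (a (a (b (l 16933128) (b (l 179482841079) (l 3))) (b (l 16909960) (b (l 16981784) (l 3)))) (b (l 16978792) (b (l 17062784) (a (l 136533585159) (l 16925816))))) (a (l 3) (a (l 3) (b (l 3) (l 3))))))), by decide +kernel⟩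

def k1_pp_012 : ∃ t, chk3 f_pp_012 t 3 1 1 = true :=
  ⟨(b (a (b (a (b (l 16835216) (l 16832024)) (b (l 16738520) (l 16761096))) (a (l 16814256) (l 16825056))) (b (a (b (l 16617472) (l 16656912)) (b (l 16503288) (l 16548776))) (a (b (l 16664096) (l 16677992)) (a (l 16603288) (l 16698240))))) (a (b (a (b (l 16821936) (a (l 16906512) (l 16853808))) (b (l 16776968) (l 16954968))) (b (a (b (a (l 161229432007) (c (l 127406666359) (l 16884664))) (a (l 3) (l 3))) (a (b (l 16874496) (b (c (l 16894024) (l 16957256)) (l 3))) (b (l 16826368) (c (b (l 16846656) (l 146733832183)) (l 107005241559))))) (a (l 3) (b (a (l 3) (b (l 3) (l 3))) (l 3))))) (b (a (b (l 16813792) (a (l 16778632) (l 16749464))) (b (a (l 16668392) (l 16640640)) (a (l 16759424) (a (l 16693336) (b (l 16666048) (l 16687920)))))) (a (b (a (b (l 16798664) (c (l 16910328) (l 16823296))) (b (l 16782440) (b (l 16789312) (l 16801976)))) (b (a (a (b (l 148344367927) (l 3)) (b (b (l 16834152) (l 16862424)) (l 3))) (b (c (l 16881024) (l 16876976))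 (a (b (l 146733702679) (l 3)) (a (l 145123074791) (l 16839040))))) (a (l 3) (b (a (l 3) (l 3)) (l 3))))) (b (b (a (l 16753016) (a (l 16727024) (l 16772680))) (a (a (l 16823928) (l 16809248)) (a (l 16812416) (a (l 16736056) (l 16769096))))) (a (b (b (a (l 16792760) (l 16781088)) (a (b (l 16802744) (l 16862000)) (l 16852992))) (b (b (a (c (l 139217483559) (l 16836104)) (a (l 16804096) (l 6))) (a (l 3) (l 6))) (a (l 3) (l 6)))) (b (a (b (l 16808168) (l 6)) (l 6)) (l 6)))))))), by decide +kernel⟩

theorem s2_pp_012 : ∃ t, chk3 f_pp_012 t 1 1 1 = true := ex3_a k0_pp_012 k1_pp_012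

theorem c_pp_012 : CertN 0 536870912 0 536870912 469762048 67108864 3 false true true .pnp 0 1 2
    ndN1q0 ndN0q2 pcN1 cut_pp_012 Ext.none :=
  certN2 (fam := false) (s1 := true) (s2 := true) (a := 0) (b := 1) (c := 2) (cn := .pnp) (n1 := ndN1q0) (n2 := ndN0q2) (pc := pcN1) (cut := cut_pp_012) (xt := Ext.none) (P1 := 0) (W1 := 536870912) (P2 := 0) (W2 := 536870912) (P3 := 469762048) (W3 := 67108864) (N0 := 3)
    rfl (fun _ => rfl) s2_pp_012

noncomputable def cut_pp_022 : Cut := Cut.of [[⟨0, 0, 0, 67108864⟩, ⟨1, 1, 0, 67108864⟩, ⟨2, 1, 0, 67108864⟩]]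

noncomputable def f_pp_022 : ℕ → ℕ → ℕ → ℕ → Bool := onCell 0 536870912 0 536870912 469762048 67108864
    (rowN 3 0 false true true .pp 0 2 2 (qsf 0 536870912 0 536870912 2) ndN1q0 ndN0q2 pcN2 cut_pp_022 Ext.none)

def k0_pp_022 : ∃ t, chk3 f_pp_022 t 1 1 1 = true :=
  ⟨(a (b (b (a (a (b (a (a (l 16470736) (l 16466432)) (l 16458208)) (a (a (l 16484800) (l 16482392)) (l 16476984))) (b (l 16516872) (l 16478000))) (a (b (l 16485160) (l 16517848)) (l 1))) (a (a (a (b (a (b (l 16498480) (l 16509664)) (l 16503432)) (a (b (l 16523056) (a (l 16538448) (l 16539472))) (l 16532192))) (b (l 16500128) (l 16573624))) (b (l 16515520) (a (l 16546816) (l 16577504)))) (a (b (l 124587331831) (a (l 16603288) (l 1))) (l 1)))) (b (a (a (b (a (a (c (b (l 16562976) (a (l 16582504) (l 16583416))) (b (l 16572224) (a (l 16570744) (l 16573896)))) (b (l 16559704) (l 16581712))) (l 16689600)) (b (a (a (a (b (a (l 16591776) (l 16593384)) (l 16623328)) (l 16621928)) (a (l 16604248) (l 16607296))) (l 16696512)) (a (a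 (a (b (l 16613408) (l 16625800)) (l 16624168)) (l 16693272)) (a (l 16637184) (l 16655408))))) (b (a (l 16601512) (b (l 16618408) (l 16648480))) (a (b (a (l 16639056) (l 16656688)) (a (l 59089258887) (l 260415810871))) (b (l 268468880071) (l 1))))) (l 1)) (a (b (a (b (a (a (a (b (l 16639344) (l 16664528)) (a (l 16671544) (l 16653032))) (l 16711232)) (b (l 16695160) (a (l 16684152) (l 16703104)))) (a (l 6) (a (l 6) (b (l 71974169943) (l 265784637879))))) (a (b (a (b (l 16701736) (l 16720904)) (l 1)) (l 1)) (l 1))) (a (a (l 6) (a (l 6) (l 1))) (l 1))) (l 1)))) (l 1)), by decide +kernel⟩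

theorem c_pp_022 : CertN 0 536870912 0 536870912 469762048 67108864 3 false true true .pp 0 2 2
    ndN1q0 ndN0q2 pcN2 cut_pp_022 Ext.none :=
  certN0 (fam := false) (s1 := true) (s2 := true) (a := 0) (b := 2) (c := 2) (cn := .pp) (n1 := ndN1q0) (n2 := ndN0q2) (pc := pcN2) (cut := cut_pp_022) (xt := Ext.none) (P1 := 0) (W1 := 536870912) (P2 := 0) (W2 := 536870912) (P3 := 469762048) (W3 := 67108864) (N0 := 3)
    rfl k0_pp_022

noncomputable def f_pp_101 : ℕ → ℕ → ℕ → ℕ → Bool := onCell 536870912 536870912 536870912 536870912 469762048 67108864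
    (rowN 3 0 false true true .npn 1 0 1 (qsf 536870912 536870912 536870912 536870912 0) ndN1q1 ndN0q1 pcN0 Cut.none Ext.none)

def k0_pp_101 : ∃ t, chk3 f_pp_101 t 1 1 1 = true :=
  ⟨(l 3), by decide +kernel⟩

theorem c_pp_101 : CertN 536870912 536870912 536870912 536870912 469762048 67108864 3 false true true .npn 1 0 1
    ndN1q1 ndN0q1 pcN0 Cut.none Ext.none :=
  certN0 (fam := false) (s1 := true) (s2 := true) (a := 1) (b := 0) (c := 1) (cn := .npn) (n1 := ndN1q1) (n2 := ndN0q1) (pc := pcN0) (cut := Cut.none) (xt := Ext.none) (P1 := 536870912) (W1 := 536870912) (P2 := 536870912) (W2 := 536870912) (P3 := 469762048) (W3 := 67108864) (N0 := 3)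
    rfl k0_pp_101

noncomputable def f_pp_102 : ℕ → ℕ → ℕ → ℕ → Bool := onCell 0 536870912 0 536870912 469762048 67108864
    (rowN 3 2 false true true .npp 1 0 2 (qsf 536870912 536870912 0 536870912 0) ndN1q1 ndN0q2 pcN0 Cut.none Ext.none)

def k0_pp_102 : ∃ t, chk3 f_pp_102 t 1 1 1 = true :=
  ⟨(a (b (b (a (l 2) (a (b (a (a (l 2) (b (l 166060449271) (l 3))) (b (a (b (l 16552320) (l 166597338599)) (l 168744899639)) (a (l 3) (l 166060504407)))) (l 3)) (b (b (a (a (l 16598632) (l 16621152)) (l 16656384)) (a (a (l 176797992167) (a (l 184314229671) (l 190219823239))) (a (l 16658432) (l 16681176)))) (a (l 3) (b (a (l 177871831495) (a (l 183777448327) (l 188609310119))) (l 3)))))) (l 3)) (l 3)) (b (a (b (a (b (a (l 16710528) (l 16757464)) (b (a (a (b (l 16714512) (l 176261296279)) (l 16740352)) (l 16772840)) (a (b (a (l 177871944375) (l 190220022023)) (l 3)) (b (a (l 16751504) (l 16793024)) (a (l 188609465367) (l 188072580055)))))) (b (l 16822192) (a (b (l 16814152) (a (l 16816432) (l 16835360)))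 (l 16856664)))) (b (a (b (a (l 3) (b (a (l 3) (l 186998906935)) (l 3))) (l 3)) (b (a (c (l 195588966855) (a (l 193441345847) (l 196125738343))) (b (l 16871496) (a (l 199347066903) (l 16886952)))) (a (l 3) (b (a (l 196125854871) (l 197199631655)) (l 3))))) (l 3))) (b (a (b (l 16881480) (l 16900640)) (b (l 16835968) (l 16876112))) (a (b (b (a (l 16905776) (l 16933384)) (a (c (l 196126010839) (a (l 196125862327) (l 194515279591))) (b (l 16946712) (l 16956664)))) (b (a (b (l 216527043591) (l 3)) (a (l 193441674183) (l 191294224423))) (l 3))) (b (a (l 16952104) (l 16909320)) (b (a (b (l 16988160) (l 187536126471)) (l 16950488)) (a (l 215453450423) (b (l 180556820807) (l 206863485559)))))))) (a (l 3) (l 3)))), by decide +kernel⟩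

theorem c_pp_102 : CertN 536870912 536870912 0 536870912 469762048 67108864 3 false true true .npp 1 0 2
    ndN1q1 ndN0q2 pcN0 Cut.none Ext.none :=
  certN2 (fam := false) (s1 := true) (s2 := true) (a := 1) (b := 0) (c := 2) (cn := .npp) (n1 := ndN1q1) (n2 := ndN0q2) (pc := pcN0) (cut := Cut.none) (xt := Ext.none) (P1 := 536870912) (W1 := 536870912) (P2 := 0) (W2 := 536870912) (P3 := 469762048) (W3 := 67108864) (N0 := 3)
    rfl (fun _ => rfl) k0_pp_102

noncomputable def f_pp_112 : ℕ → ℕ → ℕ → ℕ → Bool := onCell 536870912 536870912 0 536870912 469762048 67108864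
    (rowN 3 2 false true true .dn 1 1 2 (qsf 536870912 536870912 0 536870912 1) ndN1q1 ndN0q2 pcN1 Cut.none Ext.none)

def k0_pp_112 : ∃ t, chk3 f_pp_112 t 1 1 1 = true :=
  ⟨(a (b (a (b (a (b (l 16811640) (l 16832984)) (b (l 16908888) (l 16811040))) (a (b (a (l 16881560) (l 16861216)) (a (b (l 16920032) (l 145660255575)) (b (l 16897512) (l 16924456)))) (a (l 17032328) (b (l 16829120) (l 16876624))))) (a (b (l 16966616) (l 16912416)) (l 1))) (a (b (b (a (b (a (l 179483048567) (a (l 149955172695) (l 16949600))) (l 3)) (a (b (l 16940048) (l 313163911687)) (l 109689907479))) (l 3)) (l 3)) (b (l 1) (l 1)))) (l 1)), by decide +kernel⟩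

theorem c_pp_112 : CertN 536870912 536870912 0 536870912 469762048 67108864 3 false true true .dn 1 1 2
    ndN1q1 ndN0q2 pcN1 Cut.none Ext.none :=
  certN2 (fam := false) (s1 := true) (s2 := true) (a := 1) (b := 1) (c := 2) (cn := .dn) (n1 := ndN1q1) (n2 := ndN0q2) (pc := pcN1) (cut := Cut.none) (xt := Ext.none) (P1 := 536870912) (W1 := 536870912) (P2 := 0) (W2 := 536870912) (P3 := 469762048) (W3 := 67108864) (N0 := 3)
    rfl (fun _ => rfl) k0_pp_112

noncomputable def f_pp_202_a : ℕ → ℕ → ℕ → ℕ → Bool := onCell 0 536870912 0 536870912 469762048 67108864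
    (rowN 3 0 false true true .pp 2 0 2 (qsf 0 536870912 0 536870912 0) ndN1q2a ndN0q2 pcN0 Cut.none Ext.none)

def k0_pp_202_a : ∃ t, chk3 f_pp_202_a t 1 1 1 = true :=
  ⟨(l 3), by decide +kernel⟩

theorem c_pp_202_a : CertN 0 536870912 0 536870912 469762048 67108864 3 false true true .pp 2 0 2
    ndN1q2a ndN0q2 pcN0 Cut.none Ext.none :=
  certN0 (fam := false) (s1 := true) (s2 := true) (a := 2) (b := 0) (c := 2) (cn := .pp) (n1 := ndN1q2a) (n2 := ndN0q2) (pc := pcN0) (cut := Cut.none) (xt := Ext.none) (P1 := 0) (W1 := 536870912) (P2 := 0) (W2 := 536870912) (P3 := 469762048) (W3 := 67108864) (N0 := 3)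
    rfl k0_pp_202_a

noncomputable def f_pp_202_b : ℕ → ℕ → ℕ → ℕ → Bool := onCell 1239849684 370763052 0 536870912 469762048 67108864
    (rowN 3 0 false true true .pp 2 0 2 (qsf 1239849684 370763052 0 536870912 0) ndN1q2b ndN0q2 pcN0 Cut.none Ext.none)

def k0_pp_202_b : ∃ t, chk3 f_pp_202_b t 1 1 1 = true :=
  ⟨(l 3), by decide +kernel⟩

theorem c_pp_202_b : CertN 1239849684 370763052 0 536870912 469762048 67108864 3 false true true .pp 2 0 2
    ndN1q2b ndN0q2 pcN0 Cut.none Ext.none :=
  certN0 (fam := false) (s1 := true) (s2 := true) (a := 2) (b := 0) (c := 2) (cn := .pp) (n1 := ndN1q2b) (n2 := ndN0q2) (pc := pcN0) (cut := Cut.none) (xt := Ext.none) (P1 := 1239849684) (W1 := 370763052) (P2 := 0) (W2 := 536870912) (P3 := 469762048) (W3 := 67108864) (N0 := 3)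
    rfl k0_pp_202_b

noncomputable def f_pm_001 : ℕ → ℕ → ℕ → ℕ → Bool := onCell 0 536870912 0 536870912 469762048 67108864
    (rowN 3 1 false true false .up 0 0 1 (qsf 0 536870912 536870912 536870912 0) ndN1q0 ndN0q1 pcN0 Cut.none Ext.none)

def k0_pm_001 : ∃ t, chk3 f_pm_001 t 1 1 1 = true :=
  ⟨(a (l 4) (b (l 4) (b (l 4) (a (l 4) (b (l 4) (a (l 4) (b (l 4) (l 16454560)))))))), by decide +kernel⟩

theorem c_pm_001 : CertN 0 536870912 536870912 536870912 469762048 67108864 3 false true false .up 0 0 1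
    ndN1q0 ndN0q1 pcN0 Cut.none Ext.none :=
  certN1 (fam := false) (s1 := true) (s2 := false) (a := 0) (b := 0) (c := 1) (cn := .up) (n1 := ndN1q0) (n2 := ndN0q1) (pc := pcN0) (cut := Cut.none) (xt := Ext.none) (P1 := 0) (W1 := 536870912) (P2 := 536870912) (W2 := 536870912) (P3 := 469762048) (W3 := 67108864) (N0 := 3)
    rfl (fun _ => rfl) k0_pm_001

noncomputable def cut_pm_011 : Cut := Cut.of [[⟨0, 0, 0, 67108864⟩, ⟨1, 1, 0, 67108864⟩, ⟨2, 1, 0, 67108864⟩]]

noncomputable def f_pm_011 : ℕ → ℕ → ℕ → ℕ → Bool := onCell 0 536870912 536870912 536870912 469762048 67108864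
    (rowN 3 0 false true false .pnn 0 1 1 (qsf 0 536870912 536870912 536870912 1) ndN1q0 ndN0q1 pcN1 cut_pm_011 Ext.none)

def k0_pm_011 : ∃ t, chk3 f_pm_011 t 1 1 1 = true :=
  ⟨(b (l 4) (b (l 4) (b (l 4) (b (a (l 4) (l 4)) (a (a (a (a (b (l 4) (l 6)) (l 4)) (l 4)) (l 4)) (a (a (l 4) (l 16478968)) (a (l 16449704) (l 16396296)))))))), by decide +kernel⟩

theorem c_pm_011 : CertN 0 536870912 536870912 536870912 469762048 67108864 3 false true false .pnn 0 1 1
    ndN1q0 ndN0q1 pcN1 cut_pm_011 Ext.none :=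
  certN0 (fam := false) (s1 := true) (s2 := false) (a := 0) (b := 1) (c := 1) (cn := .pnn) (n1 := ndN1q0) (n2 := ndN0q1) (pc := pcN1) (cut := cut_pm_011) (xt := Ext.none) (P1 := 0) (W1 := 536870912) (P2 := 536870912) (W2 := 536870912) (P3 := 469762048) (W3 := 67108864) (N0 := 3)
    rfl k0_pm_011

noncomputable def cut_pm_012 : Cut := Cut.of [[⟨0, 0, 0, 67108864⟩, ⟨1, 1, 0, 67108864⟩, ⟨2, 1, 0, 67108864⟩]]

noncomputable def f_pm_012 : ℕ → ℕ → ℕ → ℕ → Bool := onCell 536870912 536870912 0 536870912 469762048 67108864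
    (rowN 3 2 false true false .pnp 0 1 2 (qsf 0 536870912 0 536870912 1) ndN1q0 ndN0q2 pcN1 cut_pm_012 Ext.none)

def k0_pm_012 : ∃ t, chk3 f_pm_012 t 1 1 1 = true :=
  ⟨(a (a (b (b (l 2) (a (l 2) (l 16667736))) (a (b (l 2) (b (b (l 16428992) (l 16426696)) (l 16404168))) (b (b (l 16409232) (a (l 16417864) (l 16426088))) (b (b (l 16444112) (l 16448048)) (l 16440752))))) (b (b (a (l 16893096) (l 16800600)) (a (l 16528056) (l 16454360))) (b (b (l 16447712) (a (b (l 16433800) (l 16444760)) (b (l 16447328) (l 16466888)))) (a (b (b (l 16460600) (l 16469880)) (l 16476880)) (b (b (l 16480936) (l 16493696)) (a (l 16504016) (l 16564296))))))) (b (a (b (a (l 16689768) (l 16586568)) (a (l 16412320) (l 16417736))) (b (a (l 16496520) (l 16683288)) (a (l 16493328) (a (l 16437944) (l 16442160))))) (a (b (a (b (l 16428728) (l 16656920)) (b (l 16433840) (l 16511600))) (b (a (b (l 16496848) (l 16537304)) (b (l 16657336) (b (l 16531232) (l 16589096)))) (a (b (l 16537184) (l 16541840)) (a (l 10971974071) (b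 (l 16661936) (l 16618800)))))) (b (a (b (l 16446544) (a (l 16479984) (l 16490440))) (b (a (l 16460320) (l 16534120)) (a (l 16503648) (b (l 16504416) (l 16576480))))) (b (a (a (b (l 16523064) (l 16559392)) (b (l 16535688) (l 16659328))) (a (b (l 16551880) (l 16677320)) (b (a (l 16566224) (l 16576752)) (a (l 16630680) (l 16632160))))) (a (a (b (b (l 16588904) (l 16609968)) (l 16703216)) (b (a (l 16594256) (b (l 16613424) (l 16638064))) (b (l 16666240) (l 4)))) (b (a (b (a (l 16624240) (l 16635160)) (a (l 16649568) (a (l 16722232) (l 16665360)))) (a (b (l 16647224) (l 6)) (l 6))) (a (a (b (l 16686152) (l 16736272)) (b (b (l 16746560) (l 6)) (l 6))) (l 6))))))))), by decide +kernel⟩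

theorem c_pm_012 : CertN 0 536870912 0 536870912 469762048 67108864 3 false true false .pnp 0 1 2
    ndN1q0 ndN0q2 pcN1 cut_pm_012 Ext.none :=
  certN2 (fam := false) (s1 := true) (s2 := false) (a := 0) (b := 1) (c := 2) (cn := .pnp) (n1 := ndN1q0) (n2 := ndN0q2) (pc := pcN1) (cut := cut_pm_012) (xt := Ext.none) (P1 := 0) (W1 := 536870912) (P2 := 0) (W2 := 536870912) (P3 := 469762048) (W3 := 67108864) (N0 := 3)
    rfl (fun _ => rfl) k0_pm_012

noncomputable def cut_pm_022 : Cut := Cut.of [[⟨0, 0, 0, 67108864⟩, ⟨1, 1, 0, 67108864⟩, ⟨2, 1, 0, 67108864⟩]]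

noncomputable def f_pm_022 : ℕ → ℕ → ℕ → ℕ → Bool := onCell 0 536870912 0 536870912 469762048 67108864
    (rowN 3 0 false true false .pp 0 2 2 (qsf 0 536870912 0 536870912 2) ndN1q0 ndN0q2 pcN2 cut_pm_022 Ext.none)

def k0_pm_022 : ∃ t, chk3 f_pm_022 t 1 1 1 = true :=
  ⟨(a (b (a (b (a (a (b (a (l 16486624) (l 16459208)) (l 16570368)) (b (l 16447912) (l 16445688))) (b (l 16442264) (l 16440600))) (b (a (a (a (l 16529056) (l 16475592)) (l 16456184)) (l 16445680)) (a (a (a (b (l 16506280) (l 16521632)) (l 16542000)) (l 16476768)) (l 16544288)))) (a (b (b (l 16464016) (l 16450536)) (a (b (l 16444720) (l 16448424)) (l 1))) (l 1))) (a (b (a (b (a (a (a (b (l 16542856) (b (l 16557592) (l 16568312))) (b (l 16535256) (l 16554856))) (l 16637768)) (l 16568976)) (a (a (b (a (b (l 16579720) (l 16591832)) (l 16577176)) (a (a (b (l 16606880) (l 16641536)) (l 16630248)) (l 16623392))) (b (l 16563648) (l 16588168))) (c (l 16647080) (l 16652744)))) (b (a (l 16492232) (l 16479848)) (a (b (l 16522016) (l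 16545616)) (b (l 16503128) (l 1))))) (a (a (b (b (a (a (a (b (c (l 16638808) (l 16631264)) (c (l 16653728) (l 16647040))) (b (l 16630416) (l 16645656))) (a (l 16654264) (l 16649416))) (l 16699816)) (l 6)) (l 6)) (a (b (b (l 16599976) (l 6)) (l 6)) (b (b (l 16589752) (b (l 16613864) (l 16630912))) (l 1)))) (b (b (a (a (l 16578176) (l 1)) (l 1)) (l 1)) (l 1)))) (b (l 1) (l 1)))) (l 1)), by decide +kernel⟩

theorem c_pm_022 : CertN 0 536870912 0 536870912 469762048 67108864 3 false true false .pp 0 2 2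
    ndN1q0 ndN0q2 pcN2 cut_pm_022 Ext.none :=
  certN0 (fam := false) (s1 := true) (s2 := false) (a := 0) (b := 2) (c := 2) (cn := .pp) (n1 := ndN1q0) (n2 := ndN0q2) (pc := pcN2) (cut := cut_pm_022) (xt := Ext.none) (P1 := 0) (W1 := 536870912) (P2 := 0) (W2 := 536870912) (P3 := 469762048) (W3 := 67108864) (N0 := 3)
    rfl k0_pm_022

noncomputable def f_pm_101 : ℕ → ℕ → ℕ → ℕ → Bool := onCell 0 536870912 536870912 536870912 469762048 67108864
    (rowN 3 2 false true false .npn 1 0 1 (qsf 536870912 536870912 536870912 536870912 0) ndN1q1 ndN0q1 pcN0 Cut.none Ext.none)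

def k0_pm_101 : ∃ t, chk3 f_pm_101 t 1 1 1 = true :=
  ⟨(a (b (l 4) (a (b (a (b (l 4) (a (l 16884800) (l 4))) (l 4)) (a (a (b (l 16905992) (l 16906568)) (b (l 16889152) (b (l 16890576) (l 16871368)))) (b (b (l 16857272) (l 16860648)) (l 17074768)))) (b (l 4) (b (a (l 17069400) (l 16780512)) (a (l 16807352) (l 16758368)))))) (b (l 4) (b (l 4) (a (a (b (l 16744784) (l 16706816)) (b (l 4) (l 16642368))) (b (l 4) (a (l 16566408) (a (l 16433152) (l 16508912)))))))), by decide +kernel⟩

theorem c_pm_101 : CertN 536870912 536870912 536870912 536870912 469762048 67108864 3 false true false .npn 1 0 1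
    ndN1q1 ndN0q1 pcN0 Cut.none Ext.none :=
  certN2 (fam := false) (s1 := true) (s2 := false) (a := 1) (b := 0) (c := 1) (cn := .npn) (n1 := ndN1q1) (n2 := ndN0q1) (pc := pcN0) (cut := Cut.none) (xt := Ext.none) (P1 := 536870912) (W1 := 536870912) (P2 := 536870912) (W2 := 536870912) (P3 := 469762048) (W3 := 67108864) (N0 := 3)
    rfl (fun _ => rfl) k0_pm_101

noncomputable def f_pm_102 : ℕ → ℕ → ℕ → ℕ → Bool := onCell 0 536870912 0 536870912 469762048 67108864
    (rowN 3 2 false true false .npp 1 0 2 (qsf 536870912 536870912 0 536870912 0) ndN1q1 ndN0q2 pcN0 Cut.none Ext.none)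

def k0_pm_102 : ∃ t, chk3 f_pm_102 t 1 1 1 = true :=
  ⟨(a (b (a (a (l 2) (b (l 2) (a (l 2) (l 16515456)))) (b (a (a (a (l 2) (a (l 3845706954215) (b (l 211090729047) (l 16505840)))) (b (b (a (l 16541872) (l 16562968)) (l 16540816)) (l 16533752))) (b (a (b (l 16597000) (l 16587096)) (l 16641072)) (l 16607696))) (a (b (l 16550120) (l 16607840)) (l 16629904)))) (b (a (a (l 2) (b (a (l 2) (l 16642008)) (a (l 16730864) (l 16783480)))) (a (b (l 16724800) (l 16832648)) (b (l 16772312) (l 16809024)))) (a (b (a (a (l 2) (l 16802240)) (b (l 16842072) (l 16867576))) (a (a (l 16959240) (l 16876848)) (l 16833992))) (b (a (b (l 16845144) (l 16815448)) (l 16886840)) (a (l 16795888) (l 16753032)))))) (a (b (b (a (b (a (l 16692408) (l 16743224)) (l 16701272)) (b (l 16810272) (l 16774408))) (a (l 16767184) (l 16790904))) (b (b (a (l 16783888) (l 16766808)) (a (l 16775448) (l 16743200))) (b (a (l 16993424) (l 16690288)) (l 16672944)))) (b (b (a (b (l 16857440) (l 16795216)) (b (l 16804232) (l 16800224)))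 (a (l 16766824) (l 16754080))) (b (a (b (l 16723944) (l 16683976)) (b (a (l 16670360) (l 16629888)) (l 16592096))) (b (a (l 16625112) (l 16543568)) (a (l 16556312) (l 16432048))))))), by decide +kernel⟩

theorem c_pm_102 : CertN 536870912 536870912 0 536870912 469762048 67108864 3 false true false .npp 1 0 2
    ndN1q1 ndN0q2 pcN0 Cut.none Ext.none :=
  certN2 (fam := false) (s1 := true) (s2 := false) (a := 1) (b := 0) (c := 2) (cn := .npp) (n1 := ndN1q1) (n2 := ndN0q2) (pc := pcN0) (cut := Cut.none) (xt := Ext.none) (P1 := 536870912) (W1 := 536870912) (P2 := 0) (W2 := 536870912) (P3 := 469762048) (W3 := 67108864) (N0 := 3)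
    rfl (fun _ => rfl) k0_pm_102

noncomputable def f_pm_112 : ℕ → ℕ → ℕ → ℕ → Bool := onCell 536870912 536870912 0 536870912 469762048 67108864
    (rowN 3 2 false true false .dn 1 1 2 (qsf 536870912 536870912 0 536870912 1) ndN1q1 ndN0q2 pcN1 Cut.none Ext.none)

def k0_pm_112 : ∃ t, chk3 f_pm_112 t 1 1 1 = true :=
  ⟨(a (a (b (b (b (a (l 16799032) (l 16809416)) (l 16894856)) (a (l 16735176) (l 16664784))) (a (b (b (l 16558648) (l 16438680)) (b (l 132639940791) (l 16414792))) (b (b (l 16406752) (a (l 16423480) (l 16444072))) (b (l 213707656775) (l 1))))) (b (a (b (l 16972312) (l 16502104)) (l 1)) (b (l 1) (l 1)))) (l 1)), by decide +kernel⟩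

theorem c_pm_112 : CertN 536870912 536870912 0 536870912 469762048 67108864 3 false true false .dn 1 1 2
    ndN1q1 ndN0q2 pcN1 Cut.none Ext.none :=
  certN2 (fam := false) (s1 := true) (s2 := false) (a := 1) (b := 1) (c := 2) (cn := .dn) (n1 := ndN1q1) (n2 := ndN0q2) (pc := pcN1) (cut := Cut.none) (xt := Ext.none) (P1 := 536870912) (W1 := 536870912) (P2 := 0) (W2 := 536870912) (P3 := 469762048) (W3 := 67108864) (N0 := 3)
    rfl (fun _ => rfl) k0_pm_112

noncomputable def cut_pm_202_a : Cut := Cut.of [[⟨0, 1, 0, 67108864⟩, ⟨1, 0, 0, 67108864⟩, ⟨2, 1, 0, 67108864⟩]]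

noncomputable def f_pm_202_a : ℕ → ℕ → ℕ → ℕ → Bool := onCell 0 536870912 0 536870912 469762048 67108864
    (rowN 3 0 false true false .pp 2 0 2 (qsf 0 536870912 0 536870912 0) ndN1q2a ndN0q2 pcN0 cut_pm_202_a Ext.none)

def k0_pm_202_a : ∃ t, chk3 f_pm_202_a t 1 1 1 = true :=
  ⟨(a (l 3) (b (l 3) (b (l 3) (a (l 3) (b (l 3) (a (l 3) (l 6))))))), by decide +kernel⟩

theorem c_pm_202_a : CertN 0 536870912 0 536870912 469762048 67108864 3 false true false .pp 2 0 2
    ndN1q2a ndN0q2 pcN0 cut_pm_202_a Ext.none :=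
  certN0 (fam := false) (s1 := true) (s2 := false) (a := 2) (b := 0) (c := 2) (cn := .pp) (n1 := ndN1q2a) (n2 := ndN0q2) (pc := pcN0) (cut := cut_pm_202_a) (xt := Ext.none) (P1 := 0) (W1 := 536870912) (P2 := 0) (W2 := 536870912) (P3 := 469762048) (W3 := 67108864) (N0 := 3)
    rfl k0_pm_202_a

noncomputable def cut_pm_202_b : Cut := Cut.of [[⟨0, 1, 0, 67108864⟩, ⟨1, 0, 0, 67108864⟩, ⟨2, 1, 0, 67108864⟩]]

noncomputable def f_pm_202_b : ℕ → ℕ → ℕ → ℕ → Bool := onCell 1239849684 370763052 0 536870912 469762048 67108864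
    (rowN 3 0 false true false .pp 2 0 2 (qsf 1239849684 370763052 0 536870912 0) ndN1q2b ndN0q2 pcN0 cut_pm_202_b Ext.none)

def k0_pm_202_b : ∃ t, chk3 f_pm_202_b t 1 1 1 = true :=
  ⟨(l 3), by decide +kernel⟩

theorem c_pm_202_b : CertN 1239849684 370763052 0 536870912 469762048 67108864 3 false true false .pp 2 0 2
    ndN1q2b ndN0q2 pcN0 cut_pm_202_b Ext.none :=
  certN0 (fam := false) (s1 := true) (s2 := false) (a := 2) (b := 0) (c := 2) (cn := .pp) (n1 := ndN1q2b) (n2 := ndN0q2) (pc := pcN0) (cut := cut_pm_202_b) (xt := Ext.none) (P1 := 1239849684) (W1 := 370763052) (P2 := 0) (W2 := 536870912) (P3 := 469762048) (W3 := 67108864) (N0 := 3)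
    rfl k0_pm_202_b

noncomputable def f_mm_001 : ℕ → ℕ → ℕ → ℕ → Bool := onCell 0 536870912 536870912 536870912 469762048 67108864
    (rowN 3 0 false false false .up 0 0 1 (qsf 0 536870912 536870912 536870912 0) ndN1q0 ndN0q1 pcN0 Cut.none Ext.none)

def k0_mm_001 : ∃ t, chk3 f_mm_001 t 1 1 1 = true :=
  ⟨(l 5), by decide +kernel⟩

theorem c_mm_001 : CertN 0 536870912 536870912 536870912 469762048 67108864 3 false false false .up 0 0 1
    ndN1q0 ndN0q1 pcN0 Cut.none Ext.none :=
  certN0 (fam := false) (s1 := false) (s2 := false) (a := 0) (b := 0) (c := 1) (cn := .up) (n1 := ndN1q0) (n2 := ndN0q1) (pc := pcN0) (cut := Cut.none) (xt := Ext.none) (P1 := 0) (W1 := 536870912) (P2 := 536870912) (W2 := 536870912) (P3 := 469762048) (W3 := 67108864) (N0 := 3)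
    rfl k0_mm_001

noncomputable def f_mm_011 : ℕ → ℕ → ℕ → ℕ → Bool := onCell 0 536870912 536870912 536870912 469762048 67108864
    (rowN 3 0 false false false .pnn 0 1 1 (qsf 0 536870912 536870912 536870912 1) ndN1q0 ndN0q1 pcN1 Cut.none Ext.none)

def k0_mm_011 : ∃ t, chk3 f_mm_011 t 1 1 1 = true :=
  ⟨(l 5), by decide +kernel⟩

theorem c_mm_011 : CertN 0 536870912 536870912 536870912 469762048 67108864 3 false false false .pnn 0 1 1
    ndN1q0 ndN0q1 pcN1 Cut.none Ext.none :=
  certN0 (fam := false) (s1 := false) (s2 := false) (a := 0) (b := 1) (c := 1) (cn := .pnn) (n1 := ndN1q0) (n2 := ndN0q1) (pc := pcN1) (cut := Cut.none) (xt := Ext.none) (P1 := 0) (W1 := 536870912) (P2 := 536870912) (W2 := 536870912) (P3 := 469762048) (W3 := 67108864) (N0 := 3)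
    rfl k0_mm_011

noncomputable def f_mm_012 : ℕ → ℕ → ℕ → ℕ → Bool := onCell 0 536870912 0 536870912 469762048 67108864
    (rowN 3 0 false false false .pnp 0 1 2 (qsf 0 536870912 0 536870912 1) ndN1q0 ndN0q2 pcN1 Cut.none Ext.none)

def k0_mm_012 : ∃ t, chk3 f_mm_012 t 1 1 1 = true :=
  ⟨(l 5), by decide +kernel⟩

theorem c_mm_012 : CertN 0 536870912 0 536870912 469762048 67108864 3 false false false .pnp 0 1 2
    ndN1q0 ndN0q2 pcN1 Cut.none Ext.none :=
  certN0 (fam := false) (s1 := false) (s2 := false) (a := 0) (b := 1) (c := 2) (cn := .pnp) (n1 := ndN1q0) (n2 := ndN0q2) (pc := pcN1) (cut := Cut.none) (xt := Ext.none) (P1 := 0) (W1 := 536870912) (P2 := 0) (W2 := 536870912) (P3 := 469762048) (W3 := 67108864) (N0 := 3)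
    rfl k0_mm_012

noncomputable def f_mm_022 : ℕ → ℕ → ℕ → ℕ → Bool := onCell 0 536870912 0 536870912 469762048 67108864
    (rowN 3 0 false false false .pp 0 2 2 (qsf 0 536870912 0 536870912 2) ndN1q0 ndN0q2 pcN2 Cut.none Ext.none)

def k0_mm_022 : ∃ t, chk3 f_mm_022 t 1 1 1 = true :=
  ⟨(l 5), by decide +kernel⟩

theorem c_mm_022 : CertN 0 536870912 0 536870912 469762048 67108864 3 false false false .pp 0 2 2
    ndN1q0 ndN0q2 pcN2 Cut.none Ext.none :=
  certN0 (fam := false) (s1 := false) (s2 := false) (a := 0) (b := 2) (c := 2) (cn := .pp) (n1 := ndN1q0) (n2 := ndN0q2) (pc := pcN2) (cut := Cut.none) (xt := Ext.none) (P1 := 0) (W1 := 536870912) (P2 := 0) (W2 := 536870912) (P3 := 469762048) (W3 := 67108864) (N0 := 3)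
    rfl k0_mm_022

noncomputable def f_mm_101 : ℕ → ℕ → ℕ → ℕ → Bool := onCell 536870912 536870912 536870912 536870912 469762048 67108864
    (rowN 3 0 false false false .npn 1 0 1 (qsf 536870912 536870912 536870912 536870912 0) ndN1q1 ndN0q1 pcN0 Cut.none Ext.none)

def k0_mm_101 : ∃ t, chk3 f_mm_101 t 1 1 1 = true :=
  ⟨(l 3), by decide +kernel⟩

theorem c_mm_101 : CertN 536870912 536870912 536870912 536870912 469762048 67108864 3 false false false .npn 1 0 1
    ndN1q1 ndN0q1 pcN0 Cut.none Ext.none :=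
  certN0 (fam := false) (s1 := false) (s2 := false) (a := 1) (b := 0) (c := 1) (cn := .npn) (n1 := ndN1q1) (n2 := ndN0q1) (pc := pcN0) (cut := Cut.none) (xt := Ext.none) (P1 := 536870912) (W1 := 536870912) (P2 := 536870912) (W2 := 536870912) (P3 := 469762048) (W3 := 67108864) (N0 := 3)
    rfl k0_mm_101

noncomputable def f_mm_102 : ℕ → ℕ → ℕ → ℕ → Bool := onCell 536870912 536870912 0 536870912 469762048 67108864
    (rowN 3 0 false false false .npp 1 0 2 (qsf 536870912 536870912 0 536870912 0) ndN1q1 ndN0q2 pcN0 Cut.none Ext.none)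

def k0_mm_102 : ∃ t, chk3 f_mm_102 t 1 1 1 = true :=
  ⟨(l 5), by decide +kernel⟩

theorem c_mm_102 : CertN 536870912 536870912 0 536870912 469762048 67108864 3 false false false .npp 1 0 2
    ndN1q1 ndN0q2 pcN0 Cut.none Ext.none :=
  certN0 (fam := false) (s1 := false) (s2 := false) (a := 1) (b := 0) (c := 2) (cn := .npp) (n1 := ndN1q1) (n2 := ndN0q2) (pc := pcN0) (cut := Cut.none) (xt := Ext.none) (P1 := 536870912) (W1 := 536870912) (P2 := 0) (W2 := 536870912) (P3 := 469762048) (W3 := 67108864) (N0 := 3)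
    rfl k0_mm_102

noncomputable def f_mm_112 : ℕ → ℕ → ℕ → ℕ → Bool := onCell 536870912 536870912 0 536870912 469762048 67108864
    (rowN 3 0 false false false .dn 1 1 2 (qsf 536870912 536870912 0 536870912 1) ndN1q1 ndN0q2 pcN1 Cut.none Ext.none)

def k0_mm_112 : ∃ t, chk3 f_mm_112 t 1 1 1 = true :=
  ⟨(l 5), by decide +kernel⟩

theorem c_mm_112 : CertN 536870912 536870912 0 536870912 469762048 67108864 3 false false false .dn 1 1 2
    ndN1q1 ndN0q2 pcN1 Cut.none Ext.none :=
  certN0 (fam := false) (s1 := false) (s2 := false) (a := 1) (b := 1) (c := 2) (cn := .dn) (n1 := ndN1q1) (n2 := ndN0q2) (pc := pcN1) (cut := Cut.none) (xt := Ext.none) (P1 := 536870912) (W1 := 536870912) (P2 := 0) (W2 := 536870912) (P3 := 469762048) (W3 := 67108864) (N0 := 3)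
    rfl k0_mm_112

noncomputable def f_mm_202_a : ℕ → ℕ → ℕ → ℕ → Bool := onCell 0 536870912 0 536870912 469762048 67108864
    (rowN 3 0 false false false .pp 2 0 2 (qsf 0 536870912 0 536870912 0) ndN1q2a ndN0q2 pcN0 Cut.none Ext.none)

def k0_mm_202_a : ∃ t, chk3 f_mm_202_a t 1 1 1 = true :=
  ⟨(l 3), by decide +kernel⟩

theorem c_mm_202_a : CertN 0 536870912 0 536870912 469762048 67108864 3 false false false .pp 2 0 2
    ndN1q2a ndN0q2 pcN0 Cut.none Ext.none :=
  certN0 (fam := false) (s1 := false) (s2 := false) (a := 2) (b := 0) (c := 2) (cn := .pp) (n1 := ndN1q2a) (n2 := ndN0q2) (pc := pcN0) (cut := Cut.none) (xt := Ext.none) (P1 := 0) (W1 := 536870912) (P2 := 0) (W2 := 536870912) (P3 := 469762048) (W3 := 67108864) (N0 := 3)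
    rfl k0_mm_202_a

noncomputable def f_mm_202_b : ℕ → ℕ → ℕ → ℕ → Bool := onCell 1239849684 370763052 0 536870912 469762048 67108864
    (rowN 3 0 false false false .pp 2 0 2 (qsf 1239849684 370763052 0 536870912 0) ndN1q2b ndN0q2 pcN0 Cut.none Ext.none)

def k0_mm_202_b : ∃ t, chk3 f_mm_202_b t 1 1 1 = true :=
  ⟨(l 3), by decide +kernel⟩

theorem c_mm_202_b : CertN 1239849684 370763052 0 536870912 469762048 67108864 3 false false false .pp 2 0 2
    ndN1q2b ndN0q2 pcN0 Cut.none Ext.none :=
  certN0 (fam := false) (s1 := false) (s2 := false) (a := 2) (b := 0) (c := 2) (cn := .pp) (n1 := ndN1q2b) (n2 := ndN0q2) (pc := pcN0) (cut := Cut.none) (xt := Ext.none) (P1 := 1239849684) (W1 := 370763052) (P2 := 0) (W2 := 536870912) (P3 := 469762048) (W3 := 67108864) (N0 := 3)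
    rfl k0_mm_202_b

end Pool.Agent.Strip051.G.I7_16_1_2.Tab.C.NB10

namespace Pool.Agent.Strip051.G.I7_16_1_2.Tab.C.NB11

open Pool.Agent.Strip051.PB Pool.Agent.Strip051.PB.T
open Pool.Agent.Strip051.G.I7_16_1_2.Tab

noncomputable def f_pp_001 : ℕ → ℕ → ℕ → ℕ → Bool := onCell 0 536870912 536870912 536870912 469762048 67108864
    (rowN 3 0 false true true .up 0 0 1 (qsf 0 536870912 536870912 536870912 0) ndN1q0 ndN1q1 pcN0 Cut.none Ext.none)

def k0_pp_001 : ∃ t, chk3 f_pp_001 t 1 1 1 = true :=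
  ⟨(l 3), by decide +kernel⟩

theorem c_pp_001 : CertN 0 536870912 536870912 536870912 469762048 67108864 3 false true true .up 0 0 1
    ndN1q0 ndN1q1 pcN0 Cut.none Ext.none :=
  certN0 (fam := false) (s1 := true) (s2 := true) (a := 0) (b := 0) (c := 1) (cn := .up) (n1 := ndN1q0) (n2 := ndN1q1) (pc := pcN0) (cut := Cut.none) (xt := Ext.none) (P1 := 0) (W1 := 536870912) (P2 := 536870912) (W2 := 536870912) (P3 := 469762048) (W3 := 67108864) (N0 := 3)
    rfl k0_pp_001

noncomputable def f_pp_011 : ℕ → ℕ → ℕ → ℕ → Bool := onCell 0 536870912 536870912 536870912 469762048 67108864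
    (rowN 3 0 false true true .pnn 0 1 1 (qsf 0 536870912 536870912 536870912 1) ndN1q0 ndN1q1 pcN1 Cut.none Ext.none)

def k0_pp_011 : ∃ t, chk3 f_pp_011 t 1 1 1 = true :=
  ⟨(l 3), by decide +kernel⟩

theorem c_pp_011 : CertN 0 536870912 536870912 536870912 469762048 67108864 3 false true true .pnn 0 1 1
    ndN1q0 ndN1q1 pcN1 Cut.none Ext.none :=
  certN0 (fam := false) (s1 := true) (s2 := true) (a := 0) (b := 1) (c := 1) (cn := .pnn) (n1 := ndN1q0) (n2 := ndN1q1) (pc := pcN1) (cut := Cut.none) (xt := Ext.none) (P1 := 0) (W1 := 536870912) (P2 := 536870912) (W2 := 536870912) (P3 := 469762048) (W3 := 67108864) (N0 := 3)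
    rfl k0_pp_011

noncomputable def cut_pp_012_a : Cut := Cut.of [[⟨0, 0, 0, 67108864⟩, ⟨1, 1, 0, 67108864⟩, ⟨2, 1, 0, 67108864⟩]]

noncomputable def f_pp_012_a : ℕ → ℕ → ℕ → ℕ → Bool := onCell 536870912 536870912 0 536870912 469762048 67108864
    (rowN 3 2 false true true .pnp 0 1 2 (qsf 0 536870912 0 536870912 1) ndN1q0 ndN1q2a pcN1 cut_pp_012_a Ext.none)

def k0_pp_012_a : ∃ t, chk3 f_pp_012_a t 1 1 1 = true :=
  ⟨(a (a (b (b (l 2) (b (l 2) (l 3))) (l 3)) (b (a (b (l 16898296) (l 145123747127)) (b (l 16842872) (l 17035496))) (b (a (l 3) (b (l 183778182375) (l 3))) (l 3)))) (a (b (a (b (l 16783520) (l 16842312)) (b (l 16723536) (l 16782608))) (b (a (b (l 16975952) (b (l 207400255031) (l 3))) (b (l 16826440) (a (l 169282624663) (l 16926736)))) (a (l 3) (b (b (a (l 3) (l 207937053719)) (l 3)) (l 3))))) (b (a (b (l 16663944) (a (l 16738120) (l 16702872))) (b (a (l 16618176) (l 16587008)) (a (l 16666936) (b (l 16617904) (l 16642832))))) (b (a (b (a (l 16779488) (l 16746640)) (a (l 16887656)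 (b (l 16769304) (l 16783096)))) (a (b (l 16709016) (a (l 16750280) (l 16731064))) (b (a (l 16680256) (l 16661152)) (a (l 16711616) (l 16776112))))) (a (b (a (b (l 16910176) (b (l 16927736) (l 192367888967))) (b (l 16846040) (b (l 16815880) (l 16911376)))) (b (a (l 3) (a (l 3) (a (l 224579903383) (l 196125878567)))) (l 3))) (b (b (a (a (l 16775032) (l 16756688)) (a (l 16737264) (l 16717784))) (a (a (l 16782360) (l 16774728)) (a (l 16797744) (a (l 16741176) (l 16731480))))) (a (a (b (b (l 16796040) (l 197736458199)) (l 3)) (a (b (b (l 16784792) (l 16796216)) (b (l 214916199895) (l 3))) (b (b (l 16782336) (l 16788032)) (l 6)))) (b (b (a (l 16770288) (l 6)) (l 6)) (l 6))))))))), by decide +kernel⟩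

theorem c_pp_012_a : CertN 0 536870912 0 536870912 469762048 67108864 3 false true true .pnp 0 1 2
    ndN1q0 ndN1q2a pcN1 cut_pp_012_a Ext.none :=
  certN2 (fam := false) (s1 := true) (s2 := true) (a := 0) (b := 1) (c := 2) (cn := .pnp) (n1 := ndN1q0) (n2 := ndN1q2a) (pc := pcN1) (cut := cut_pp_012_a) (xt := Ext.none) (P1 := 0) (W1 := 536870912) (P2 := 0) (W2 := 536870912) (P3 := 469762048) (W3 := 67108864) (N0 := 3)
    rfl (fun _ => rfl) k0_pp_012_a

noncomputable def cut_pp_012_b : Cut := Cut.of [[⟨0, 0, 0, 67108864⟩, ⟨1, 1, 0, 67108864⟩, ⟨2, 1, 0, 67108864⟩]]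

noncomputable def f_pp_012_b : ℕ → ℕ → ℕ → ℕ → Bool := onCell 536870912 536870912 1239849684 370763052 469762048 67108864
    (rowN 3 2 false true true .pnp 0 1 2 (qsf 0 536870912 1239849684 370763052 1) ndN1q0 ndN1q2b pcN1 cut_pp_012_b Ext.none)

def k0_pp_012_b : ∃ t, chk3 f_pp_012_b t 1 1 1 = true :=
  ⟨(a (a (l 2) (b (a (l 110159851063) (b (l 16803832) (l 16791760))) (l 2))) (a (b (b (a (l 16741192) (l 16680296)) (l 16912464)) (a (l 2) (l 16761968))) (b (a (b (l 16700864) (l 16600928)) (b (a (l 16567264) (l 16533032)) (l 16511760))) (a (l 16650560) (b (l 16511080) (l 16571960)))))), by decide +kernel⟩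

theorem c_pp_012_b : CertN 0 536870912 1239849684 370763052 469762048 67108864 3 false true true .pnp 0 1 2
    ndN1q0 ndN1q2b pcN1 cut_pp_012_b Ext.none :=
  certN2 (fam := false) (s1 := true) (s2 := true) (a := 0) (b := 1) (c := 2) (cn := .pnp) (n1 := ndN1q0) (n2 := ndN1q2b) (pc := pcN1) (cut := cut_pp_012_b) (xt := Ext.none) (P1 := 0) (W1 := 536870912) (P2 := 1239849684) (W2 := 370763052) (P3 := 469762048) (W3 := 67108864) (N0 := 3)
    rfl (fun _ => rfl) k0_pp_012_b

noncomputable def cut_pp_022_a : Cut := Cut.of [[⟨0, 0, 0, 67108864⟩, ⟨1, 1, 0, 67108864⟩, ⟨2, 1, 0, 67108864⟩]]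

noncomputable def f_pp_022_a : ℕ → ℕ → ℕ → ℕ → Bool := onCell 0 536870912 0 536870912 469762048 67108864
    (rowN 3 0 false true true .pp 0 2 2 (qsf 0 536870912 0 536870912 2) ndN1q0 ndN1q2a pcN2 cut_pp_022_a Ext.none)

def k0_pp_022_a : ∃ t, chk3 f_pp_022_a t 1 1 1 = true :=
  ⟨(a (b (a (b (a (a (a (a (b (l 16492304) (l 16502776)) (l 16540952)) (l 16499896)) (a (l 16499920) (l 16498464))) (l 16556216)) (b (a (a (a (a (b (l 16514856) (l 16523224)) (l 16521120)) (l 16523344)) (l 16545888)) (l 16549792)) (a (a (a (b (l 16554216) (l 16565248)) (l 16544568)) (l 16613656)) (a (l 16566704) (l 16607520))))) (a (b (a (l 16567312) (l 16596816)) (b (l 139082799207) (a (l 16642992) (l 1)))) (l 1))) (b (a (a (a (a (b (a (b (l 16556088) (l 16572696)) (l 16589360)) (b (a (l 16613656) (l 16597400)) (b (l 16633808) (l 16647048)))) (b (b (l 16564760) (l 16582616)) (a (l 16677576) (l 16640152)))) (b (l 16667064) (a (l 16667392) (l 16656328)))) (b (a (l 16617168) (b (l 16642120) (l 16668720))) (a (b (a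 (l 16650888) (l 16670304)) (a (l 16683416) (l 16702136))) (b (l 302828673559) (l 1))))) (l 1)) (a (b (a (a (b (a (a (a (l 16664488) (l 16667464)) (l 16671768)) (l 16700760)) (l 6)) (b (a (l 16679040) (b (l 16689936) (l 16708296))) (a (l 6) (b (l 61236784007) (l 244309824439))))) (a (b (a (b (l 16709152) (l 16727136)) (l 1)) (l 1)) (l 1))) (a (a (l 6) (a (l 6) (l 1))) (l 1))) (l 1)))) (l 1)), by decide +kernel⟩

theorem c_pp_022_a : CertN 0 536870912 0 536870912 469762048 67108864 3 false true true .pp 0 2 2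
    ndN1q0 ndN1q2a pcN2 cut_pp_022_a Ext.none :=
  certN0 (fam := false) (s1 := true) (s2 := true) (a := 0) (b := 2) (c := 2) (cn := .pp) (n1 := ndN1q0) (n2 := ndN1q2a) (pc := pcN2) (cut := cut_pp_022_a) (xt := Ext.none) (P1 := 0) (W1 := 536870912) (P2 := 0) (W2 := 536870912) (P3 := 469762048) (W3 := 67108864) (N0 := 3)
    rfl k0_pp_022_a

noncomputable def cut_pp_022_b : Cut := Cut.of [[⟨0, 0, 0, 67108864⟩, ⟨1, 1, 0, 67108864⟩, ⟨2, 1, 0, 67108864⟩]]

noncomputable def f_pp_022_b : ℕ → ℕ → ℕ → ℕ → Bool := onCell 0 536870912 1239849684 370763052 469762048 67108864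
    (rowN 3 0 false true true .pp 0 2 2 (qsf 0 536870912 1239849684 370763052 2) ndN1q0 ndN1q2b pcN2 cut_pp_022_b Ext.none)

def k0_pp_022_b : ∃ t, chk3 f_pp_022_b t 1 1 1 = true :=
  ⟨(a (b (a (b (a (a (a (b (a (l 16473000) (l 16451960)) (l 16378232)) (b (l 16451560) (l 16375976))) (b (l 16449064) (l 16371040))) (b (l 16471696) (l 16353568))) (a (a (b (l 16302024) (l 16223232)) (l 16337336)) (l 16315704))) (b (a (b (l 98817420519) (l 16440056)) (b (l 308197117031) (l 16507272))) (a (l 16310680) (l 16398592)))) (a (b (a (b (l 16195704) (a (l 16083848) (l 16030040))) (l 16055680)) (a (b (a (l 15934376) (l 15920600)) (a (l 15884400) (l 15867080))) (b (l 15898616) (l 15860448)))) (b (l 16196000) (l 16040920)))) (b (a (b (l 1) (a (l 16471072) (l 351683575703))) (l 1)) (a (b (l 16429784) (l 16269448)) (b (l 360810872071) (l 16463928))))), by decide +kernel⟩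

theorem c_pp_022_b : CertN 0 536870912 1239849684 370763052 469762048 67108864 3 false true true .pp 0 2 2
    ndN1q0 ndN1q2b pcN2 cut_pp_022_b Ext.none :=
  certN0 (fam := false) (s1 := true) (s2 := true) (a := 0) (b := 2) (c := 2) (cn := .pp) (n1 := ndN1q0) (n2 := ndN1q2b) (pc := pcN2) (cut := cut_pp_022_b) (xt := Ext.none) (P1 := 0) (W1 := 536870912) (P2 := 1239849684) (W2 := 370763052) (P3 := 469762048) (W3 := 67108864) (N0 := 3)
    rfl k0_pp_022_b

noncomputable def f_pp_023 : ℕ → ℕ → ℕ → ℕ → Bool := onCell 1073741824 536870912 1610612736 536870912 469762048 67108864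
    (rowN 3 2 false true true .up 0 2 3 (qsf 0 536870912 1610612736 536870912 2) ndN1q0 ndN1q3 pcN2 Cut.none Ext.none)

def k0_pp_023 : ∃ t, chk3 f_pp_023 t 1 1 1 = true :=
  ⟨(a (b (a (b (l 16573408) (l 16834528)) (b (l 16428632) (l 16765272))) (b (a (l 2) (l 16882216)) (l 2))) (a (b (b (b (l 16211808) (l 16455976)) (l 16704600)) (b (l 16859808) (l 16891872))) (b (b (b (a (l 16214576) (b (l 16193648) (l 16296488))) (l 16437648)) (l 16672576)) (b (l 16839688) (l 16883440))))), by decide +kernel⟩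

theorem c_pp_023 : CertN 0 536870912 1610612736 536870912 469762048 67108864 3 false true true .up 0 2 3
    ndN1q0 ndN1q3 pcN2 Cut.none Ext.none :=
  certN2 (fam := false) (s1 := true) (s2 := true) (a := 0) (b := 2) (c := 3) (cn := .up) (n1 := ndN1q0) (n2 := ndN1q3) (pc := pcN2) (cut := Cut.none) (xt := Ext.none) (P1 := 0) (W1 := 536870912) (P2 := 1610612736) (W2 := 536870912) (P3 := 469762048) (W3 := 67108864) (N0 := 3)
    rfl (fun _ => rfl) k0_pp_023

noncomputable def f_pp_033 : ℕ → ℕ → ℕ → ℕ → Bool := onCell 0 536870912 1610612736 536870912 469762048 67108864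
    (rowN 3 1 false true true .pnn 0 3 3 (qsf 0 536870912 1610612736 536870912 3) ndN1q0 ndN1q3 pcN3 Cut.none Ext.none)

def k0_pp_033 : ∃ t, chk3 f_pp_033 t 1 1 1 = true :=
  ⟨(a (b (b (a (a (b (b (l 16673584) (l 16699504)) (l 16749400)) (b (l 16697888) (l 16771256))) (b (l 16762992) (l 16823136))) (a (b (a (l 16818976) (l 16834792)) (a (l 16877656) (l 16879240))) (b (l 16862640) (l 4)))) (a (b (l 4) (l 4)) (b (l 4) (a (b (l 4) (l 2)) (l 2))))) (b (a (b (b (l 16848528) (l 16868312)) (b (l 4) (l 4))) (b (b (l 16880352) (l 16857752)) (a (b (l 4) (l 2)) (l 2)))) (a (b (a (b (l 4) (l 2)) (l 2)) (l 2)) (l 2)))), by decide +kernel⟩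

theorem c_pp_033 : CertN 0 536870912 1610612736 536870912 469762048 67108864 3 false true true .pnn 0 3 3
    ndN1q0 ndN1q3 pcN3 Cut.none Ext.none :=
  certN1 (fam := false) (s1 := true) (s2 := true) (a := 0) (b := 3) (c := 3) (cn := .pnn) (n1 := ndN1q0) (n2 := ndN1q3) (pc := pcN3) (cut := Cut.none) (xt := Ext.none) (P1 := 0) (W1 := 536870912) (P2 := 1610612736) (W2 := 536870912) (P3 := 469762048) (W3 := 67108864) (N0 := 3)
    rfl (fun _ => rfl) k0_pp_033

noncomputable def f_pp_101 : ℕ → ℕ → ℕ → ℕ → Bool := onCell 536870912 536870912 536870912 536870912 469762048 67108864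
    (rowN 3 0 false true true .npn 1 0 1 (qsf 536870912 536870912 536870912 536870912 0) ndN1q1 ndN1q1 pcN0 Cut.none Ext.none)

def k0_pp_101 : ∃ t, chk3 f_pp_101 t 1 1 1 = true :=
  ⟨(l 3), by decide +kernel⟩

theorem c_pp_101 : CertN 536870912 536870912 536870912 536870912 469762048 67108864 3 false true true .npn 1 0 1
    ndN1q1 ndN1q1 pcN0 Cut.none Ext.none :=
  certN0 (fam := false) (s1 := true) (s2 := true) (a := 1) (b := 0) (c := 1) (cn := .npn) (n1 := ndN1q1) (n2 := ndN1q1) (pc := pcN0) (cut := Cut.none) (xt := Ext.none) (P1 := 536870912) (W1 := 536870912) (P2 := 536870912) (W2 := 536870912) (P3 := 469762048) (W3 := 67108864) (N0 := 3)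
    rfl k0_pp_101

noncomputable def f_pp_102_a : ℕ → ℕ → ℕ → ℕ → Bool := onCell 0 536870912 0 536870912 469762048 67108864
    (rowN 3 2 false true true .npp 1 0 2 (qsf 536870912 536870912 0 536870912 0) ndN1q1 ndN1q2a pcN0 Cut.none Ext.none)

def k0_pp_102_a : ∃ t, chk3 f_pp_102_a t 1 1 1 = true :=
  ⟨(b (a (l 3) (a (l 3) (l 3))) (l 3)), by decide +kernel⟩

theorem c_pp_102_a : CertN 536870912 536870912 0 536870912 469762048 67108864 3 false true true .npp 1 0 2
    ndN1q1 ndN1q2a pcN0 Cut.none Ext.none :=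
  certN2 (fam := false) (s1 := true) (s2 := true) (a := 1) (b := 0) (c := 2) (cn := .npp) (n1 := ndN1q1) (n2 := ndN1q2a) (pc := pcN0) (cut := Cut.none) (xt := Ext.none) (P1 := 536870912) (W1 := 536870912) (P2 := 0) (W2 := 536870912) (P3 := 469762048) (W3 := 67108864) (N0 := 3)
    rfl (fun _ => rfl) k0_pp_102_a

noncomputable def f_pp_102_b : ℕ → ℕ → ℕ → ℕ → Bool := onCell 0 536870912 1239849684 370763052 469762048 67108864
    (rowN 3 2 false true true .npp 1 0 2 (qsf 536870912 536870912 1239849684 370763052 0) ndN1q1 ndN1q2b pcN0 Cut.none Ext.none)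

def k0_pp_102_b : ∃ t, chk3 f_pp_102_b t 1 1 1 = true :=
  ⟨(a (l 3) (a (b (l 3) (l 3)) (b (b (l 3) (l 3)) (l 3)))), by decide +kernel⟩

theorem c_pp_102_b : CertN 536870912 536870912 1239849684 370763052 469762048 67108864 3 false true true .npp 1 0 2
    ndN1q1 ndN1q2b pcN0 Cut.none Ext.none :=
  certN2 (fam := false) (s1 := true) (s2 := true) (a := 1) (b := 0) (c := 2) (cn := .npp) (n1 := ndN1q1) (n2 := ndN1q2b) (pc := pcN0) (cut := Cut.none) (xt := Ext.none) (P1 := 536870912) (W1 := 536870912) (P2 := 1239849684) (W2 := 370763052) (P3 := 469762048) (W3 := 67108864) (N0 := 3)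
    rfl (fun _ => rfl) k0_pp_102_b

noncomputable def f_pp_112_a : ℕ → ℕ → ℕ → ℕ → Bool := onCell 536870912 536870912 0 536870912 469762048 67108864
    (rowN 3 0 false true true .dn 1 1 2 (qsf 536870912 536870912 0 536870912 1) ndN1q1 ndN1q2a pcN1 Cut.none Ext.none)

def k0_pp_112_a : ∃ t, chk3 f_pp_112_a t 1 1 1 = true :=
  ⟨(a (b (a (a (b (a (l 16918184) (l 16935784)) (b (l 211695653863) (l 3))) (b (a (l 146733661895) (l 145660141671)) (l 3))) (a (b (b (l 174114400583) (l 3)) (l 3)) (l 1))) (l 3)) (l 1)), by decide +kernel⟩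

theorem c_pp_112_a : CertN 536870912 536870912 0 536870912 469762048 67108864 3 false true true .dn 1 1 2
    ndN1q1 ndN1q2a pcN1 Cut.none Ext.none :=
  certN0 (fam := false) (s1 := true) (s2 := true) (a := 1) (b := 1) (c := 2) (cn := .dn) (n1 := ndN1q1) (n2 := ndN1q2a) (pc := pcN1) (cut := Cut.none) (xt := Ext.none) (P1 := 536870912) (W1 := 536870912) (P2 := 0) (W2 := 536870912) (P3 := 469762048) (W3 := 67108864) (N0 := 3)
    rfl k0_pp_112_a

noncomputable def f_pp_112_b : ℕ → ℕ → ℕ → ℕ → Bool := onCell 536870912 536870912 1239849684 370763052 469762048 67108864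
    (rowN 3 2 false true true .dn 1 1 2 (qsf 536870912 536870912 1239849684 370763052 1) ndN1q1 ndN1q2b pcN1 Cut.none Ext.none)

def k0_pp_112_b : ∃ t, chk3 f_pp_112_b t 1 1 1 = true :=
  ⟨(a (a (b (a (b (a (l 174114027287) (l 16941616)) (a (l 16737360) (l 16765600))) (b (a (l 16935600) (l 16922760)) (a (l 16765880) (l 16765424)))) (a (b (a (l 3) (l 16553872)) (l 3)) (b (a (l 16646936) (l 16711568)) (l 278266793367)))) (b (a (b (l 16867080) (l 16772744)) (l 16944464)) (a (l 16924392) (l 16895696)))) (a (b (a (l 16939336) (l 319472214199)) (a (l 16883584) (l 16774704))) (b (l 1) (a (l 16656424) (l 16604320))))), by decide +kernel⟩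

theorem c_pp_112_b : CertN 536870912 536870912 1239849684 370763052 469762048 67108864 3 false true true .dn 1 1 2
    ndN1q1 ndN1q2b pcN1 Cut.none Ext.none :=
  certN2 (fam := false) (s1 := true) (s2 := true) (a := 1) (b := 1) (c := 2) (cn := .dn) (n1 := ndN1q1) (n2 := ndN1q2b) (pc := pcN1) (cut := Cut.none) (xt := Ext.none) (P1 := 536870912) (W1 := 536870912) (P2 := 1239849684) (W2 := 370763052) (P3 := 469762048) (W3 := 67108864) (N0 := 3)
    rfl (fun _ => rfl) k0_pp_112_b

noncomputable def f_pp_113 : ℕ → ℕ → ℕ → ℕ → Bool := onCell 536870912 536870912 536870912 536870912 469762048 67108864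
    (rowN 3 1 false true true .nn 1 1 3 (qsf 536870912 536870912 1610612736 536870912 1) ndN1q1 ndN1q3 pcN1 Cut.none Ext.none)

def k0_pp_113 : ∃ t, chk3 f_pp_113 t 1 1 1 = true :=
  ⟨(a (b (b (l 1) (a (l 1) (l 301218744999))) (b (a (l 274911679079) (l 16863504)) (a (l 226056012551) (l 16911536)))) (b (b (a (b (l 1) (l 399466107751)) (b (l 3) (a (l 16856408) (l 342692033495)))) (a (b (l 16950144) (l 17019784)) (b (a (l 16965552) (l 16983896)) (l 17130992)))) (b (a (l 17175720) (b (l 17015808) (l 17007856))) (a (l 17237512) (b (l 16981736) (l 16929456)))))), by decide +kernel⟩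

theorem c_pp_113 : CertN 536870912 536870912 1610612736 536870912 469762048 67108864 3 false true true .nn 1 1 3
    ndN1q1 ndN1q3 pcN1 Cut.none Ext.none :=
  certN1 (fam := false) (s1 := true) (s2 := true) (a := 1) (b := 1) (c := 3) (cn := .nn) (n1 := ndN1q1) (n2 := ndN1q3) (pc := pcN1) (cut := Cut.none) (xt := Ext.none) (P1 := 536870912) (W1 := 536870912) (P2 := 1610612736) (W2 := 536870912) (P3 := 469762048) (W3 := 67108864) (N0 := 3)
    rfl (fun _ => rfl) k0_pp_113

noncomputable def f_pp_123 : ℕ → ℕ → ℕ → ℕ → Bool := onCell 1073741824 536870912 1610612736 536870912 469762048 67108864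
    (rowN 3 2 false true true .npn 1 2 3 (qsf 536870912 536870912 1610612736 536870912 2) ndN1q1 ndN1q3 pcN2 Cut.none Ext.none)

def k0_pp_123 : ∃ t, chk3 f_pp_123 t 1 1 1 = true :=
  ⟨(a (b (a (b (l 16579664) (l 16864040)) (b (l 16513392) (l 16767600))) (a (b (l 16967104) (l 16889408)) (b (l 16888704) (l 16868640)))) (a (b (b (l 1) (l 16731680)) (b (l 16860104) (l 16887768))) (b (l 1) (l 379601981431)))), by decide +kernel⟩

theorem c_pp_123 : CertN 536870912 536870912 1610612736 536870912 469762048 67108864 3 false true true .npn 1 2 3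
    ndN1q1 ndN1q3 pcN2 Cut.none Ext.none :=
  certN2 (fam := false) (s1 := true) (s2 := true) (a := 1) (b := 2) (c := 3) (cn := .npn) (n1 := ndN1q1) (n2 := ndN1q3) (pc := pcN2) (cut := Cut.none) (xt := Ext.none) (P1 := 536870912) (W1 := 536870912) (P2 := 1610612736) (W2 := 536870912) (P3 := 469762048) (W3 := 67108864) (N0 := 3)
    rfl (fun _ => rfl) k0_pp_123

noncomputable def f_pp_133 : ℕ → ℕ → ℕ → ℕ → Bool := onCell 1610612736 536870912 1610612736 536870912 469762048 67108864
    (rowN 3 2 false true true .dn 1 3 3 (qsf 536870912 536870912 1610612736 536870912 3) ndN1q1 ndN1q3 pcN3 Cut.none Ext.none)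

def k0_pp_133 : ∃ t, chk3 f_pp_133 t 1 1 1 = true :=
  ⟨(a (b (l 1) (a (a (l 395708057031) (l 1)) (l 1))) (l 1)), by decide +kernel⟩

theorem c_pp_133 : CertN 536870912 536870912 1610612736 536870912 469762048 67108864 3 false true true .dn 1 3 3
    ndN1q1 ndN1q3 pcN3 Cut.none Ext.none :=
  certN2 (fam := false) (s1 := true) (s2 := true) (a := 1) (b := 3) (c := 3) (cn := .dn) (n1 := ndN1q1) (n2 := ndN1q3) (pc := pcN3) (cut := Cut.none) (xt := Ext.none) (P1 := 536870912) (W1 := 536870912) (P2 := 1610612736) (W2 := 536870912) (P3 := 469762048) (W3 := 67108864) (N0 := 3)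
    rfl (fun _ => rfl) k0_pp_133

noncomputable def f_pp_202_aa : ℕ → ℕ → ℕ → ℕ → Bool := onCell 0 536870912 0 536870912 469762048 67108864
    (rowN 3 0 false true true .pp 2 0 2 (qsf 0 536870912 0 536870912 0) ndN1q2a ndN1q2a pcN0 Cut.none Ext.none)

def k0_pp_202_aa : ∃ t, chk3 f_pp_202_aa t 1 1 1 = true :=
  ⟨(l 3), by decide +kernel⟩

theorem c_pp_202_aa : CertN 0 536870912 0 536870912 469762048 67108864 3 false true true .pp 2 0 2
    ndN1q2a ndN1q2a pcN0 Cut.none Ext.none :=
  certN0 (fam := false) (s1 := true) (s2 := true) (a := 2) (b := 0) (c := 2) (cn := .pp) (n1 := ndN1q2a) (n2 := ndN1q2a) (pc := pcN0) (cut := Cut.none) (xt := Ext.none) (P1 := 0) (W1 := 536870912) (P2 := 0) (W2 := 536870912) (P3 := 469762048) (W3 := 67108864) (N0 := 3)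
    rfl k0_pp_202_aa

noncomputable def f_pp_202_ab : ℕ → ℕ → ℕ → ℕ → Bool := onCell 0 536870912 1239849684 370763052 469762048 67108864
    (rowN 3 0 false true true .pp 2 0 2 (qsf 0 536870912 1239849684 370763052 0) ndN1q2a ndN1q2b pcN0 Cut.none Ext.none)

def k0_pp_202_ab : ∃ t, chk3 f_pp_202_ab t 1 1 1 = true :=
  ⟨(l 3), by decide +kernel⟩

theorem c_pp_202_ab : CertN 0 536870912 1239849684 370763052 469762048 67108864 3 false true true .pp 2 0 2
    ndN1q2a ndN1q2b pcN0 Cut.none Ext.none :=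
  certN0 (fam := false) (s1 := true) (s2 := true) (a := 2) (b := 0) (c := 2) (cn := .pp) (n1 := ndN1q2a) (n2 := ndN1q2b) (pc := pcN0) (cut := Cut.none) (xt := Ext.none) (P1 := 0) (W1 := 536870912) (P2 := 1239849684) (W2 := 370763052) (P3 := 469762048) (W3 := 67108864) (N0 := 3)
    rfl k0_pp_202_ab

noncomputable def f_pp_202_ba : ℕ → ℕ → ℕ → ℕ → Bool := onCell 1239849684 370763052 0 536870912 469762048 67108864
    (rowN 3 0 false true true .pp 2 0 2 (qsf 1239849684 370763052 0 536870912 0) ndN1q2b ndN1q2a pcN0 Cut.none Ext.none)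

def k0_pp_202_ba : ∃ t, chk3 f_pp_202_ba t 1 1 1 = true :=
  ⟨(l 3), by decide +kernel⟩

theorem c_pp_202_ba : CertN 1239849684 370763052 0 536870912 469762048 67108864 3 false true true .pp 2 0 2
    ndN1q2b ndN1q2a pcN0 Cut.none Ext.none :=
  certN0 (fam := false) (s1 := true) (s2 := true) (a := 2) (b := 0) (c := 2) (cn := .pp) (n1 := ndN1q2b) (n2 := ndN1q2a) (pc := pcN0) (cut := Cut.none) (xt := Ext.none) (P1 := 1239849684) (W1 := 370763052) (P2 := 0) (W2 := 536870912) (P3 := 469762048) (W3 := 67108864) (N0 := 3)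
    rfl k0_pp_202_ba

noncomputable def f_pp_202_bb : ℕ → ℕ → ℕ → ℕ → Bool := onCell 1239849684 370763052 1239849684 370763052 469762048 67108864
    (rowN 3 0 false true true .pp 2 0 2 (qsf 1239849684 370763052 1239849684 370763052 0) ndN1q2b ndN1q2b pcN0 Cut.none Ext.none)

def k0_pp_202_bb : ∃ t, chk3 f_pp_202_bb t 1 1 1 = true :=
  ⟨(l 3), by decide +kernel⟩

theorem c_pp_202_bb : CertN 1239849684 370763052 1239849684 370763052 469762048 67108864 3 false true true .pp 2 0 2
    ndN1q2b ndN1q2b pcN0 Cut.none Ext.none :=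
  certN0 (fam := false) (s1 := true) (s2 := true) (a := 2) (b := 0) (c := 2) (cn := .pp) (n1 := ndN1q2b) (n2 := ndN1q2b) (pc := pcN0) (cut := Cut.none) (xt := Ext.none) (P1 := 1239849684) (W1 := 370763052) (P2 := 1239849684) (W2 := 370763052) (P3 := 469762048) (W3 := 67108864) (N0 := 3)
    rfl k0_pp_202_bb

noncomputable def f_pp_203_a : ℕ → ℕ → ℕ → ℕ → Bool := onCell 0 536870912 0 536870912 469762048 67108864
    (rowN 3 1 false true true .up 2 0 3 (qsf 0 536870912 1610612736 536870912 0) ndN1q2a ndN1q3 pcN0 Cut.none Ext.none)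

def k0_pp_203_a : ∃ t, chk3 f_pp_203_a t 1 1 1 = true :=
  ⟨(l 3), by decide +kernel⟩

theorem c_pp_203_a : CertN 0 536870912 1610612736 536870912 469762048 67108864 3 false true true .up 2 0 3
    ndN1q2a ndN1q3 pcN0 Cut.none Ext.none :=
  certN1 (fam := false) (s1 := true) (s2 := true) (a := 2) (b := 0) (c := 3) (cn := .up) (n1 := ndN1q2a) (n2 := ndN1q3) (pc := pcN0) (cut := Cut.none) (xt := Ext.none) (P1 := 0) (W1 := 536870912) (P2 := 1610612736) (W2 := 536870912) (P3 := 469762048) (W3 := 67108864) (N0 := 3)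
    rfl (fun _ => rfl) k0_pp_203_a

noncomputable def f_pp_203_b : ℕ → ℕ → ℕ → ℕ → Bool := onCell 1239849684 370763052 1610612736 536870912 469762048 67108864
    (rowN 3 0 false true true .up 2 0 3 (qsf 1239849684 370763052 1610612736 536870912 0) ndN1q2b ndN1q3 pcN0 Cut.none Ext.none)

def k0_pp_203_b : ∃ t, chk3 f_pp_203_b t 1 1 1 = true :=
  ⟨(l 3), by decide +kernel⟩

theorem c_pp_203_b : CertN 1239849684 370763052 1610612736 536870912 469762048 67108864 3 false true true .up 2 0 3
    ndN1q2b ndN1q3 pcN0 Cut.none Ext.none :=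
  certN0 (fam := false) (s1 := true) (s2 := true) (a := 2) (b := 0) (c := 3) (cn := .up) (n1 := ndN1q2b) (n2 := ndN1q3) (pc := pcN0) (cut := Cut.none) (xt := Ext.none) (P1 := 1239849684) (W1 := 370763052) (P2 := 1610612736) (W2 := 536870912) (P3 := 469762048) (W3 := 67108864) (N0 := 3)
    rfl k0_pp_203_b

noncomputable def cut_pp_213_a : Cut := Cut.of [[⟨0, 1, 0, 67108864⟩, ⟨1, 1, 0, 67108864⟩, ⟨2, 2, 0, 16777216⟩]]

noncomputable def f_pp_213_a : ℕ → ℕ → ℕ → ℕ → Bool := onCell 0 536870912 1610612736 536870912 469762048 67108864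
    (rowN 3 0 false true true .pnn 2 1 3 (qsf 0 536870912 1610612736 536870912 1) ndN1q2a ndN1q3 pcN1 cut_pp_213_a Ext.none)

def k0_pp_213_a : ∃ t, chk3 f_pp_213_a t 1 1 1 = true :=
  ⟨(b (l 3) (a (l 3) (b (l 3) (a (l 3) (b (l 3) (a (l 3) (b (l 3) (b (l 3) (b (l 3) (l 6)))))))))), by decide +kernel⟩

theorem c_pp_213_a : CertN 0 536870912 1610612736 536870912 469762048 67108864 3 false true true .pnn 2 1 3
    ndN1q2a ndN1q3 pcN1 cut_pp_213_a Ext.none :=
  certN0 (fam := false) (s1 := true) (s2 := true) (a := 2) (b := 1) (c := 3) (cn := .pnn) (n1 := ndN1q2a) (n2 := ndN1q3) (pc := pcN1) (cut := cut_pp_213_a) (xt := Ext.none) (P1 := 0) (W1 := 536870912) (P2 := 1610612736) (W2 := 536870912) (P3 := 469762048) (W3 := 67108864) (N0 := 3)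
    rfl k0_pp_213_a

noncomputable def cut_pp_213_b : Cut := Cut.of [[⟨0, 1, 0, 67108864⟩, ⟨1, 1, 0, 67108864⟩, ⟨2, 2, 0, 16777216⟩]]

noncomputable def f_pp_213_b : ℕ → ℕ → ℕ → ℕ → Bool := onCell 1239849684 370763052 1610612736 536870912 469762048 67108864
    (rowN 3 0 false true true .pnn 2 1 3 (qsf 1239849684 370763052 1610612736 536870912 1) ndN1q2b ndN1q3 pcN1 cut_pp_213_b Ext.none)

def k0_pp_213_b : ∃ t, chk3 f_pp_213_b t 1 1 1 = true :=
  ⟨(l 3), by decide +kernel⟩

theorem c_pp_213_b : CertN 1239849684 370763052 1610612736 536870912 469762048 67108864 3 false true true .pnn 2 1 3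
    ndN1q2b ndN1q3 pcN1 cut_pp_213_b Ext.none :=
  certN0 (fam := false) (s1 := true) (s2 := true) (a := 2) (b := 1) (c := 3) (cn := .pnn) (n1 := ndN1q2b) (n2 := ndN1q3) (pc := pcN1) (cut := cut_pp_213_b) (xt := Ext.none) (P1 := 1239849684) (W1 := 370763052) (P2 := 1610612736) (W2 := 536870912) (P3 := 469762048) (W3 := 67108864) (N0 := 3)
    rfl k0_pp_213_b

noncomputable def f_pp_303 : ℕ → ℕ → ℕ → ℕ → Bool := onCell 1610612736 536870912 1610612736 536870912 469762048 67108864
    (rowN 3 0 false true true .npn 3 0 3 (qsf 1610612736 536870912 1610612736 536870912 0) ndN1q3 ndN1q3 pcN0 Cut.none Ext.none)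

def k0_pp_303 : ∃ t, chk3 f_pp_303 t 1 1 1 = true :=
  ⟨(l 3), by decide +kernel⟩

theorem c_pp_303 : CertN 1610612736 536870912 1610612736 536870912 469762048 67108864 3 false true true .npn 3 0 3
    ndN1q3 ndN1q3 pcN0 Cut.none Ext.none :=
  certN0 (fam := false) (s1 := true) (s2 := true) (a := 3) (b := 0) (c := 3) (cn := .npn) (n1 := ndN1q3) (n2 := ndN1q3) (pc := pcN0) (cut := Cut.none) (xt := Ext.none) (P1 := 1610612736) (W1 := 536870912) (P2 := 1610612736) (W2 := 536870912) (P3 := 469762048) (W3 := 67108864) (N0 := 3)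
    rfl k0_pp_303

noncomputable def f_pp_313 : ℕ → ℕ → ℕ → ℕ → Bool := onCell 1610612736 536870912 1610612736 536870912 469762048 67108864
    (rowN 3 0 false true true .dn 3 1 3 (qsf 1610612736 536870912 1610612736 536870912 1) ndN1q3 ndN1q3 pcN1 Cut.none Ext.none)

def k0_pp_313 : ∃ t, chk3 f_pp_313 t 1 1 1 = true :=
  ⟨(l 3), by decide +kernel⟩

theorem c_pp_313 : CertN 1610612736 536870912 1610612736 536870912 469762048 67108864 3 false true true .dn 3 1 3
    ndN1q3 ndN1q3 pcN1 Cut.none Ext.none :=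
  certN0 (fam := false) (s1 := true) (s2 := true) (a := 3) (b := 1) (c := 3) (cn := .dn) (n1 := ndN1q3) (n2 := ndN1q3) (pc := pcN1) (cut := Cut.none) (xt := Ext.none) (P1 := 1610612736) (W1 := 536870912) (P2 := 1610612736) (W2 := 536870912) (P3 := 469762048) (W3 := 67108864) (N0 := 3)
    rfl k0_pp_313

noncomputable def f_pm_001 : ℕ → ℕ → ℕ → ℕ → Bool := onCell 0 536870912 536870912 536870912 469762048 67108864
    (rowN 3 0 false true false .up 0 0 1 (qsf 0 536870912 536870912 536870912 0) ndN1q0 ndN1q1 pcN0 Cut.none Ext.none)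

def k0_pm_001 : ∃ t, chk3 f_pm_001 t 1 1 1 = true :=
  ⟨(l 4), by decide +kernel⟩

theorem c_pm_001 : CertN 0 536870912 536870912 536870912 469762048 67108864 3 false true false .up 0 0 1
    ndN1q0 ndN1q1 pcN0 Cut.none Ext.none :=
  certN0 (fam := false) (s1 := true) (s2 := false) (a := 0) (b := 0) (c := 1) (cn := .up) (n1 := ndN1q0) (n2 := ndN1q1) (pc := pcN0) (cut := Cut.none) (xt := Ext.none) (P1 := 0) (W1 := 536870912) (P2 := 536870912) (W2 := 536870912) (P3 := 469762048) (W3 := 67108864) (N0 := 3)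
    rfl k0_pm_001

noncomputable def f_pm_011 : ℕ → ℕ → ℕ → ℕ → Bool := onCell 0 536870912 536870912 536870912 469762048 67108864
    (rowN 3 0 false true false .pnn 0 1 1 (qsf 0 536870912 536870912 536870912 1) ndN1q0 ndN1q1 pcN1 Cut.none Ext.none)

def k0_pm_011 : ∃ t, chk3 f_pm_011 t 1 1 1 = true :=
  ⟨(l 4), by decide +kernel⟩

theorem c_pm_011 : CertN 0 536870912 536870912 536870912 469762048 67108864 3 false true false .pnn 0 1 1
    ndN1q0 ndN1q1 pcN1 Cut.none Ext.none :=
  certN0 (fam := false) (s1 := true) (s2 := false) (a := 0) (b := 1) (c := 1) (cn := .pnn) (n1 := ndN1q0) (n2 := ndN1q1) (pc := pcN1) (cut := Cut.none) (xt := Ext.none) (P1 := 0) (W1 := 536870912) (P2 := 536870912) (W2 := 536870912) (P3 := 469762048) (W3 := 67108864) (N0 := 3)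
    rfl k0_pm_011

noncomputable def cut_pm_012_a : Cut := Cut.of [[⟨0, 0, 0, 67108864⟩, ⟨1, 1, 0, 67108864⟩, ⟨2, 1, 0, 67108864⟩]]

noncomputable def f_pm_012_a : ℕ → ℕ → ℕ → ℕ → Bool := onCell 536870912 536870912 0 536870912 469762048 67108864
    (rowN 3 2 false true false .pnp 0 1 2 (qsf 0 536870912 0 536870912 1) ndN1q0 ndN1q2a pcN1 cut_pm_012_a Ext.none)

def k0_pm_012_a : ∃ t, chk3 f_pm_012_a t 1 1 1 = true :=
  ⟨(a (a (b (a (l 2) (b (l 2) (b (l 2) (l 16412544)))) (b (a (l 2) (b (l 16417552) (l 16418144))) (b (l 16444368) (a (l 16386328) (l 16426016))))) (b (b (l 16403552) (a (l 16606976) (b (l 16416192) (l 16424280)))) (b (a (b (l 16424272) (l 16430648)) (b (l 16432168) (l 16443848))) (a (b (l 16438560) (l 16443560)) (b (l 16463264) (l 16712024)))))) (b (a (b (a (l 16404480) (l 16393776)) (a (l 16501984) (l 16404904))) (a (b (l 16387504) (l 16547768)) (b (l 16553464) (a (l 16403528) (l 16491800))))) (a (b (a (b (l 16434624) (l 16455736)) (b (l 16435176) (b (l 16458624) (l 16477088))))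 (a (b (l 16487792) (b (l 16565880) (l 4))) (a (b (l 16507080) (l 16571344)) (b (l 16521312) (l 97408235943))))) (b (a (b (l 16586880) (a (l 16625624) (l 16678024))) (b (a (l 16448416) (l 16458008)) (a (l 16584632) (a (l 16511016) (l 16519008))))) (b (a (a (b (l 16520000) (l 16553752)) (b (l 16597528) (l 16614600))) (a (b (a (l 16547912) (l 16577480)) (a (l 16588072) (l 16661296))) (a (b (l 16565960) (l 16735976)) (b (l 16576016) (a (l 16640200) (l 16625240)))))) (b (a (a (l 4) (l 81302065015)) (a (a (l 16718472) (b (l 16634560) (l 4))) (a (b (l 16689216) (l 6)) (l 6)))) (a (l 4) (a (l 4) (l 6))))))))), by decide +kernel⟩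

theorem c_pm_012_a : CertN 0 536870912 0 536870912 469762048 67108864 3 false true false .pnp 0 1 2
    ndN1q0 ndN1q2a pcN1 cut_pm_012_a Ext.none :=
  certN2 (fam := false) (s1 := true) (s2 := false) (a := 0) (b := 1) (c := 2) (cn := .pnp) (n1 := ndN1q0) (n2 := ndN1q2a) (pc := pcN1) (cut := cut_pm_012_a) (xt := Ext.none) (P1 := 0) (W1 := 536870912) (P2 := 0) (W2 := 536870912) (P3 := 469762048) (W3 := 67108864) (N0 := 3)
    rfl (fun _ => rfl) k0_pm_012_a

noncomputable def cut_pm_012_b : Cut := Cut.of [[⟨0, 0, 0, 67108864⟩, ⟨1, 1, 0, 67108864⟩, ⟨2, 1, 0, 67108864⟩]]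

noncomputable def f_pm_012_b : ℕ → ℕ → ℕ → ℕ → Bool := onCell 536870912 536870912 1239849684 370763052 469762048 67108864
    (rowN 3 2 false true false .pnp 0 1 2 (qsf 0 536870912 1239849684 370763052 1) ndN1q0 ndN1q2b pcN1 cut_pm_012_b Ext.none)

def k0_pm_012_b : ∃ t, chk3 f_pm_012_b t 1 1 1 = true :=
  ⟨(a (a (l 2) (b (b (l 16373624) (l 16585184)) (l 2))) (b (a (b (a (l 16367992) (l 16348912)) (a (l 16319384) (l 16280296))) (a (b (b (l 16359960) (l 16303080)) (l 16237512)) (b (b (l 16475400) (l 16278040)) (l 16192240)))) (a (b (l 16482384) (l 2)) (b (a (l 16190016) (l 16120688)) (l 16348664))))), by decide +kernel⟩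

theorem c_pm_012_b : CertN 0 536870912 1239849684 370763052 469762048 67108864 3 false true false .pnp 0 1 2
    ndN1q0 ndN1q2b pcN1 cut_pm_012_b Ext.none :=
  certN2 (fam := false) (s1 := true) (s2 := false) (a := 0) (b := 1) (c := 2) (cn := .pnp) (n1 := ndN1q0) (n2 := ndN1q2b) (pc := pcN1) (cut := cut_pm_012_b) (xt := Ext.none) (P1 := 0) (W1 := 536870912) (P2 := 1239849684) (W2 := 370763052) (P3 := 469762048) (W3 := 67108864) (N0 := 3)
    rfl (fun _ => rfl) k0_pm_012_b

noncomputable def cut_pm_022_a : Cut := Cut.of [[⟨0, 0, 0, 67108864⟩, ⟨1, 1, 0, 67108864⟩, ⟨2, 1, 0, 67108864⟩]]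

noncomputable def f_pm_022_a : ℕ → ℕ → ℕ → ℕ → Bool := onCell 0 536870912 0 536870912 469762048 67108864
    (rowN 3 0 false true false .pp 0 2 2 (qsf 0 536870912 0 536870912 2) ndN1q0 ndN1q2a pcN2 cut_pm_022_a Ext.none)

def k0_pm_022_a : ∃ t, chk3 f_pm_022_a t 1 1 1 = true :=
  ⟨(a (b (a (a (b (a (b (l 16477368) (l 16546368)) (l 16430808)) (b (a (a (l 16488128) (l 16447592)) (l 16432672)) (a (a (l 16598872) (l 16473464)) (l 16461912)))) (b (a (l 16409544) (l 16404072)) (b (l 16422032) (a (l 16451184) (l 16435328))))) (a (b (a (l 16393920) (l 16379536)) (a (b (l 16399880) (l 16414792)) (l 1))) (l 1))) (a (b (a (a (a (a (b (b (l 16525952) (l 16547872)) (b (l 16614800) (a (l 16645640) (l 16598440)))) (b (l 16547664) (l 16639376))) (b (l 16552488) (l 16643312))) (b (l 16553840) (b (l 16537296) (l 16580664)))) (b (a (b (l 16475224) (l 16494584)) (l 16484720)) (a (b (l 16516400) (l 16603632)) (b (l 16490464) (l 1))))) (a (a (b (b (a (a (b (l 16624320) (l 16682952)) (l 16642896)) (l 16633488))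 (l 6)) (l 6)) (a (b (b (l 16601376) (l 6)) (l 6)) (b (b (l 16588848) (b (l 16612656) (l 16629528))) (l 1)))) (a (a (b (b (l 16574984) (l 1)) (l 1)) (l 1)) (l 1)))) (b (l 1) (l 1)))) (l 1)), by decide +kernel⟩

theorem c_pm_022_a : CertN 0 536870912 0 536870912 469762048 67108864 3 false true false .pp 0 2 2
    ndN1q0 ndN1q2a pcN2 cut_pm_022_a Ext.none :=
  certN0 (fam := false) (s1 := true) (s2 := false) (a := 0) (b := 2) (c := 2) (cn := .pp) (n1 := ndN1q0) (n2 := ndN1q2a) (pc := pcN2) (cut := cut_pm_022_a) (xt := Ext.none) (P1 := 0) (W1 := 536870912) (P2 := 0) (W2 := 536870912) (P3 := 469762048) (W3 := 67108864) (N0 := 3)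
    rfl k0_pm_022_a

noncomputable def cut_pm_022_b : Cut := Cut.of [[⟨0, 0, 0, 67108864⟩, ⟨1, 1, 0, 67108864⟩, ⟨2, 1, 0, 67108864⟩]]

noncomputable def f_pm_022_b : ℕ → ℕ → ℕ → ℕ → Bool := onCell 0 536870912 1239849684 370763052 469762048 67108864
    (rowN 3 0 false true false .pp 0 2 2 (qsf 0 536870912 1239849684 370763052 2) ndN1q0 ndN1q2b pcN2 cut_pm_022_b Ext.none)

def k0_pm_022_b : ∃ t, chk3 f_pm_022_b t 1 1 1 = true :=
  ⟨(a (b (a (b (b (a (a (b (l 16517184) (l 16387888)) (l 16375448)) (l 16446128)) (a (a (l 16447176) (l 16260504)) (l 16315640))) (a (a (b (l 16321504) (l 16182552)) (l 16361128)) (b (l 16183088) (l 16089032)))) (b (a (b (l 16564448) (l 16363944)) (b (l 16331176) (l 16269440))) (a (b (l 16204624) (l 16127720)) (b (l 16207640) (l 16145312))))) (a (b (a (a (b (l 16075568) (l 16025960)) (l 16162112)) (b (l 15989544) (l 15881704))) (a (b (a (l 16003216) (l 15929536)) (l 4)) (b (l 15815232) (l 15850584)))) (b (a (b (l 16048296) (l 15964912)) (l 16152648)) (a (b (l 15875464)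 (l 15774384)) (l 15914696))))) (b (a (b (l 1) (a (l 16382352) (l 146598579303))) (l 1)) (a (b (a (l 16073872) (l 16084960)) (a (l 15971272) (l 16010184))) (b (a (l 16088480) (l 1)) (l 16260936))))), by decide +kernel⟩

theorem c_pm_022_b : CertN 0 536870912 1239849684 370763052 469762048 67108864 3 false true false .pp 0 2 2
    ndN1q0 ndN1q2b pcN2 cut_pm_022_b Ext.none :=
  certN0 (fam := false) (s1 := true) (s2 := false) (a := 0) (b := 2) (c := 2) (cn := .pp) (n1 := ndN1q0) (n2 := ndN1q2b) (pc := pcN2) (cut := cut_pm_022_b) (xt := Ext.none) (P1 := 0) (W1 := 536870912) (P2 := 1239849684) (W2 := 370763052) (P3 := 469762048) (W3 := 67108864) (N0 := 3)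
    rfl k0_pm_022_b

noncomputable def f_pm_023 : ℕ → ℕ → ℕ → ℕ → Bool := onCell 1073741824 536870912 1610612736 536870912 469762048 67108864
    (rowN 3 2 false true false .up 0 2 3 (qsf 0 536870912 1610612736 536870912 2) ndN1q0 ndN1q3 pcN2 Cut.none Ext.none)

def k0_pm_023 : ∃ t, chk3 f_pm_023 t 1 1 1 = true :=
  ⟨(a (b (a (b (l 16574336) (l 16830216)) (b (l 16396344) (l 16756816))) (a (l 2) (b (l 16884192) (l 2)))) (b (a (b (a (l 16286472) (l 16247744)) (l 16754168)) (a (l 4) (l 4))) (a (b (l 16858232) (l 16896568)) (b (l 17069976) (l 16884224))))), by decide +kernel⟩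

theorem c_pm_023 : CertN 0 536870912 1610612736 536870912 469762048 67108864 3 false true false .up 0 2 3
    ndN1q0 ndN1q3 pcN2 Cut.none Ext.none :=
  certN2 (fam := false) (s1 := true) (s2 := false) (a := 0) (b := 2) (c := 3) (cn := .up) (n1 := ndN1q0) (n2 := ndN1q3) (pc := pcN2) (cut := Cut.none) (xt := Ext.none) (P1 := 0) (W1 := 536870912) (P2 := 1610612736) (W2 := 536870912) (P3 := 469762048) (W3 := 67108864) (N0 := 3)
    rfl (fun _ => rfl) k0_pm_023

noncomputable def f_pm_033 : ℕ → ℕ → ℕ → ℕ → Bool := onCell 0 536870912 1610612736 536870912 469762048 67108864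
    (rowN 3 1 false true false .pnn 0 3 3 (qsf 0 536870912 1610612736 536870912 3) ndN1q0 ndN1q3 pcN3 Cut.none Ext.none)

def k0_pm_033 : ∃ t, chk3 f_pm_033 t 1 1 1 = true :=
  ⟨(a (b (l 4) (a (l 4) (b (l 4) (a (b (l 4) (l 2)) (l 2))))) (b (a (b (l 4) (l 4)) (b (b (l 16882248) (l 16882376)) (a (b (l 4) (l 2)) (l 2)))) (a (b (a (b (l 4) (l 2)) (l 2)) (l 2)) (l 2)))), by decide +kernel⟩

theorem c_pm_033 : CertN 0 536870912 1610612736 536870912 469762048 67108864 3 false true false .pnn 0 3 3
    ndN1q0 ndN1q3 pcN3 Cut.none Ext.none :=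
  certN1 (fam := false) (s1 := true) (s2 := false) (a := 0) (b := 3) (c := 3) (cn := .pnn) (n1 := ndN1q0) (n2 := ndN1q3) (pc := pcN3) (cut := Cut.none) (xt := Ext.none) (P1 := 0) (W1 := 536870912) (P2 := 1610612736) (W2 := 536870912) (P3 := 469762048) (W3 := 67108864) (N0 := 3)
    rfl (fun _ => rfl) k0_pm_033

noncomputable def f_pm_101 : ℕ → ℕ → ℕ → ℕ → Bool := onCell 536870912 536870912 536870912 536870912 469762048 67108864
    (rowN 3 0 false true false .npn 1 0 1 (qsf 536870912 536870912 536870912 536870912 0) ndN1q1 ndN1q1 pcN0 Cut.none Ext.none)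

def k0_pm_101 : ∃ t, chk3 f_pm_101 t 1 1 1 = true :=
  ⟨(l 4), by decide +kernel⟩

theorem c_pm_101 : CertN 536870912 536870912 536870912 536870912 469762048 67108864 3 false true false .npn 1 0 1
    ndN1q1 ndN1q1 pcN0 Cut.none Ext.none :=
  certN0 (fam := false) (s1 := true) (s2 := false) (a := 1) (b := 0) (c := 1) (cn := .npn) (n1 := ndN1q1) (n2 := ndN1q1) (pc := pcN0) (cut := Cut.none) (xt := Ext.none) (P1 := 536870912) (W1 := 536870912) (P2 := 536870912) (W2 := 536870912) (P3 := 469762048) (W3 := 67108864) (N0 := 3)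
    rfl k0_pm_101

noncomputable def f_pm_102_a : ℕ → ℕ → ℕ → ℕ → Bool := onCell 0 536870912 0 536870912 469762048 67108864
    (rowN 3 2 false true false .npp 1 0 2 (qsf 536870912 536870912 0 536870912 0) ndN1q1 ndN1q2a pcN0 Cut.none Ext.none)

def k0_pm_102_a : ∃ t, chk3 f_pm_102_a t 1 1 1 = true :=
  ⟨(a (a (b (a (l 2) (b (l 2) (a (l 2) (l 16640952)))) (b (a (l 2) (b (l 16749968) (l 17061800))) (a (b (a (l 2) (l 16832560)) (b (l 16865024) (l 16883840))) (b (a (l 16875296) (l 16883480)) (l 16816088))))) (b (b (a (b (l 16564784) (l 16725200)) (l 16680328)) (a (a (l 16705432) (l 16763408)) (a (l 16809216) (l 16838504)))) (b (a (b (l 16857088) (l 16890208)) (b (l 16873696) (l 16829848))) (a (b (l 16835552) (l 16794840)) (l 16762752))))) (a (b (b (a (l 16781096) (l 16823624)) (a (l 16848328) (l 16783832))) (b (a (b (l 16803608) (l 16767448)) (l 16958168)) (a (l 16711848) (l 16651056)))) (b (a (b (l 16759752) (l 16726952)) (b (l 16698272) (b (l 16663648) (l 16637320)))) (b (a (l 16662696)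 (l 16669120)) (a (l 16571688) (l 16457136)))))), by decide +kernel⟩

theorem c_pm_102_a : CertN 536870912 536870912 0 536870912 469762048 67108864 3 false true false .npp 1 0 2
    ndN1q1 ndN1q2a pcN0 Cut.none Ext.none :=
  certN2 (fam := false) (s1 := true) (s2 := false) (a := 1) (b := 0) (c := 2) (cn := .npp) (n1 := ndN1q1) (n2 := ndN1q2a) (pc := pcN0) (cut := Cut.none) (xt := Ext.none) (P1 := 536870912) (W1 := 536870912) (P2 := 0) (W2 := 536870912) (P3 := 469762048) (W3 := 67108864) (N0 := 3)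
    rfl (fun _ => rfl) k0_pm_102_a

noncomputable def f_pm_102_b : ℕ → ℕ → ℕ → ℕ → Bool := onCell 536870912 536870912 0 536870912 469762048 67108864
    (rowN 3 1 false true false .npp 1 0 2 (qsf 536870912 536870912 1239849684 370763052 0) ndN1q1 ndN1q2b pcN0 Cut.none Ext.none)

def k0_pm_102_b : ∃ t, chk3 f_pm_102_b t 1 1 1 = true :=
  ⟨(a (a (l 1) (b (l 1) (b (l 1) (b (a (l 1) (l 16744880)) (a (l 16696224) (l 16754264)))))) (b (b (l 1) (a (l 1) (b (a (l 1) (l 91838676295)) (a (l 16689296) (l 16580704))))) (b (a (b (a (l 1) (l 16787768)) (l 16828568)) (b (a (l 16723032) (l 16616376)) (a (l 16820256) (l 16711536)))) (a (b (l 16890784) (l 16965624)) (b (l 16879648) (l 16992320)))))), by decide +kernel⟩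

theorem c_pm_102_b : CertN 536870912 536870912 1239849684 370763052 469762048 67108864 3 false true false .npp 1 0 2
    ndN1q1 ndN1q2b pcN0 Cut.none Ext.none :=
  certN1 (fam := false) (s1 := true) (s2 := false) (a := 1) (b := 0) (c := 2) (cn := .npp) (n1 := ndN1q1) (n2 := ndN1q2b) (pc := pcN0) (cut := Cut.none) (xt := Ext.none) (P1 := 536870912) (W1 := 536870912) (P2 := 1239849684) (W2 := 370763052) (P3 := 469762048) (W3 := 67108864) (N0 := 3)
    rfl (fun _ => rfl) k0_pm_102_b

noncomputable def f_pm_112_a : ℕ → ℕ → ℕ → ℕ → Bool := onCell 536870912 536870912 0 536870912 469762048 67108864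
    (rowN 3 2 false true false .dn 1 1 2 (qsf 536870912 536870912 0 536870912 1) ndN1q1 ndN1q2a pcN1 Cut.none Ext.none)

def k0_pm_112_a : ∃ t, chk3 f_pm_112_a t 1 1 1 = true :=
  ⟨(a (a (b (a (b (l 16620792) (l 16528584)) (b (l 16499408) (b (l 16417184) (l 16415528)))) (b (a (b (l 16427576) (l 16412200)) (b (l 16421032) (l 16427432))) (a (l 16393480) (l 16475400)))) (b (b (l 16431248) (a (l 229813732903) (l 1))) (b (l 1) (l 1)))) (l 1)), by decide +kernel⟩

theorem c_pm_112_a : CertN 536870912 536870912 0 536870912 469762048 67108864 3 false true false .dn 1 1 2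
    ndN1q1 ndN1q2a pcN1 Cut.none Ext.none :=
  certN2 (fam := false) (s1 := true) (s2 := false) (a := 1) (b := 1) (c := 2) (cn := .dn) (n1 := ndN1q1) (n2 := ndN1q2a) (pc := pcN1) (cut := Cut.none) (xt := Ext.none) (P1 := 536870912) (W1 := 536870912) (P2 := 0) (W2 := 536870912) (P3 := 469762048) (W3 := 67108864) (N0 := 3)
    rfl (fun _ => rfl) k0_pm_112_a

noncomputable def f_pm_112_b : ℕ → ℕ → ℕ → ℕ → Bool := onCell 536870912 536870912 1239849684 370763052 469762048 67108864
    (rowN 3 2 false true false .dn 1 1 2 (qsf 536870912 536870912 1239849684 370763052 1) ndN1q1 ndN1q2b pcN1 Cut.none Ext.none)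

def k0_pm_112_b : ∃ t, chk3 f_pm_112_b t 1 1 1 = true :=
  ⟨(a (a (b (a (l 16764872) (l 16684768)) (a (b (l 17118096) (l 17113688)) (l 17058096))) (b (b (l 16379440) (l 16591752)) (b (l 16780616) (l 16952864)))) (b (a (a (l 16623120) (l 244846450039)) (l 1)) (a (b (l 16487688) (l 16749160)) (l 272763274471)))), by decide +kernel⟩

theorem c_pm_112_b : CertN 536870912 536870912 1239849684 370763052 469762048 67108864 3 false true false .dn 1 1 2
    ndN1q1 ndN1q2b pcN1 Cut.none Ext.none :=
  certN2 (fam := false) (s1 := true) (s2 := false) (a := 1) (b := 1) (c := 2) (cn := .dn) (n1 := ndN1q1) (n2 := ndN1q2b) (pc := pcN1) (cut := Cut.none) (xt := Ext.none) (P1 := 536870912) (W1 := 536870912) (P2 := 1239849684) (W2 := 370763052) (P3 := 469762048) (W3 := 67108864) (N0 := 3)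
    rfl (fun _ => rfl) k0_pm_112_b

noncomputable def f_pm_113 : ℕ → ℕ → ℕ → ℕ → Bool := onCell 536870912 536870912 536870912 536870912 469762048 67108864
    (rowN 3 1 false true false .nn 1 1 3 (qsf 536870912 536870912 1610612736 536870912 1) ndN1q1 ndN1q3 pcN1 Cut.none Ext.none)

def k0_pm_113 : ∃ t, chk3 f_pm_113 t 1 1 1 = true :=
  ⟨(a (b (b (l 1) (l 310882305479)) (a (b (l 16657432) (l 16664688)) (b (l 16909392) (l 16935560)))) (b (b (a (l 307124508551) (b (l 16875072) (l 16971424))) (a (l 17135568) (l 17075800))) (b (a (l 17059448) (l 17174696)) (a (l 17032984) (a (l 17000392) (l 16935984)))))), by decide +kernel⟩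

theorem c_pm_113 : CertN 536870912 536870912 1610612736 536870912 469762048 67108864 3 false true false .nn 1 1 3
    ndN1q1 ndN1q3 pcN1 Cut.none Ext.none :=
  certN1 (fam := false) (s1 := true) (s2 := false) (a := 1) (b := 1) (c := 3) (cn := .nn) (n1 := ndN1q1) (n2 := ndN1q3) (pc := pcN1) (cut := Cut.none) (xt := Ext.none) (P1 := 536870912) (W1 := 536870912) (P2 := 1610612736) (W2 := 536870912) (P3 := 469762048) (W3 := 67108864) (N0 := 3)
    rfl (fun _ => rfl) k0_pm_113

end Pool.Agent.Strip051.G.I7_16_1_2.Tab.C.NB11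

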