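import Pool.Agent.Strip051.G.I7_16_1_2.Tab

/-! # Certificates N20 (generated) -/

set_option linter.all false
set_option maxRecDepth 100000

namespace Pool.Agent.Strip051.G.I7_16_1_2.Tab.C.NB40

open Pool.Agent.Strip051.PB Pool.Agent.Strip051.PB.T
open Pool.Agent.Strip051.G.I7_16_1_2.Tab

noncomputable def cut_pp_101 : Cut := Cut.of [[⟨0, 1, 0, 67108864⟩, ⟨1, 0, 0, 67108864⟩, ⟨2, 1, 0, 67108864⟩]]

noncomputable def f_pp_101 : ℕ → ℕ → ℕ → ℕ → Bool := onCell 0 536870912 536870912 536870912 469762048 67108864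
    (rowN 3 2 false true true .npn 1 0 1 (qsf 536870912 536870912 536870912 536870912 0) ndN4q1 ndN0q1 pcN0 cut_pp_101 Ext.none)

def k0_pp_101 : ∃ t, chk3 f_pp_101 t 2 2 1 = true :=
  ⟨(l 3), by decide +kernel⟩

def k1_pp_101 : ∃ t, chk3 f_pp_101 t 4 6 1 = true :=
  ⟨(l 3), by decide +kernel⟩

def k2_pp_101 : ∃ t, chk3 f_pp_101 t 5 12 1 = true :=
  ⟨(l 3), by decide +kernel⟩

def k3_pp_101 : ∃ t, chk3 f_pp_101 t 10 13 1 = true :=
  ⟨(l 3), by decide +kernel⟩

def k4_pp_101 : ∃ t, chk3 f_pp_101 t 11 26 1 = true :=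
  ⟨(l 3), by decide +kernel⟩

def k5_pp_101 : ∃ t, chk3 f_pp_101 t 22 27 1 = true :=
  ⟨(b (l 3) (a (l 3) (b (l 3) (c (a (l 3) (b (l 3) (a (l 3) (c (b (l 372219322087) (a (l 366850609095) (b (l 389399185831) (l 16778800)))) (b (l 377051159255) (a (l 397452250039) (l 300278621223))))))) (a (l 3) (b (l 3) (a (l 3) (b (a (l 3) (l 379735510391)) (a (b (l 376514284439) (l 380272378519)) (b (l 344302037207) (l 16778264))))))))))), by decide +kernel⟩

def k6_pp_101 : ∃ t, chk3 f_pp_101 t 23 54 1 = true :=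
  ⟨(a (l 3) (b (a (l 3) (b (l 3) (a (l 3) (a (l 3) (c (l 379735516647) (l 391546674295)))))) (a (c (b (l 3) (a (b (l 3) (l 377051161687)) (b (a (l 3) (l 372756190295)) (a (l 369534963239) (l 304573600519))))) (b (l 3) (a (b (l 3) (l 389399190487)) (b (l 385641091783) (a (l 400136602999) (l 282561891799)))))) (c (b (a (b (l 3) (a (l 373829933895) (l 369534963143))) (b (a (l 373293061015) (l 387788583447)) (a (l 309942309047) (l 16779792)))) (a (b (a (l 386714839047) (l 16778824)) (l 16779056)) (l 16776136))) (b (a (c (l 414632122311) (l 422685184983)) (b (a (l 378661767719) (l 330880270247)) (l 218137382967))) (a (b (a (l 329269657351) (l 16778592)) (l 16777496)) (l 16774464))))))), by decide +kernel⟩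

def k7_pp_101 : ∃ t, chk3 f_pp_101 t 23 55 1 = true :=
  ⟨(a (b (a (l 3) (b (c (a (l 3) (b (l 3) (a (l 3) (l 369534973783)))) (a (l 3) (b (l 3) (a (l 3) (l 399599732231))))) (c (a (b (a (l 3) (l 372219319591)) (a (l 368998102871) (b (l 392620410983) (l 16778496)))) (b (a (b (l 367387479303) (l 357723812247)) (l 16778800)) (l 16778536))) (a (b (a (l 3) (l 379735510247)) (a (l 397452248679) (l 278266916295))) (b (a (l 351818230439) (l 16778456)) (l 16777088)))))) (a (b (c (a (b (l 3) (a (l 3) (b (l 367924351831) (l 364166253079)))) (b (a (l 371145577767) (b (l 366850608375) (l 351281361895))) (a (b (l 387788577959) (l 16778568)) (l 16779088)))) (a (b (l 3) (a (l 3) (l 393694157575))) (b (c (l 377051163655) (l 373829933399)) (a (b (l 349670747159) (l 16778312)) (l 16777840))))) (c (a (b (a (b (l 366313737367) (l 345375780807)) (b (l 16785048) (l 16779080))) (l 16788320)) (l 16785000)) (a (b (a (b (l 371145573655) (l 302426110327)) (l 16778304)) (l 16776504)) (l 16783728)))) (b (a (a (b (c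 (l 250886499623) (l 16778392)) (l 16776280)) (l 16786192)) (l 16768664)) (l 16785440)))) (c (b (a (b (a (b (a (l 372219319511) (b (l 367924350199) (l 360945037591))) (a (b (l 306721083783) (l 16778480)) (l 16779488))) (b (l 16784808) (l 16776416))) (l 16793328)) (l 16764248)) (l 16770336)) (b (a (b (a (b (a (l 379735510071) (l 352891972215)) (a (l 279340666791) (l 16778200))) (l 16787296)) (l 16792008)) (l 16763480)) (l 16771016)))), by decide +kernel⟩

def k8_pp_101 : ∃ t, chk3 f_pp_101 t 8 14 1 = true :=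
  ⟨(l 3), by decide +kernel⟩

def k9_pp_101 : ∃ t, chk3 f_pp_101 t 9 28 1 = true :=
  ⟨(l 3), by decide +kernel⟩

def k10_pp_101 : ∃ t, chk3 f_pp_101 t 18 29 1 = true :=
  ⟨(l 3), by decide +kernel⟩

def k11_pp_101 : ∃ t, chk3 f_pp_101 t 19 58 1 = true :=
  ⟨(l 3), by decide +kernel⟩

def k12_pp_101 : ∃ t, chk3 f_pp_101 t 38 59 1 = true :=
  ⟨(l 3), by decide +kernel⟩

def k13_pp_101 : ∃ t, chk3 f_pp_101 t 39 118 1 = true :=
  ⟨(l 3), by decide +kernel⟩

def k14_pp_101 : ∃ t, chk3 f_pp_101 t 78 119 1 = true :=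
  ⟨(b (l 3) (a (l 3) (b (l 3) (a (b (l 3) (a (l 3) (a (l 3) (b (l 3) (c (l 355576320087) (l 377051156023)))))) (b (a (l 3) (a (l 3) (c (c (l 363092510647) (l 364166252167)) (c (l 365776864631) (l 367924348055))))) (a (a (b (l 3) (c (b (l 372219320471) (l 291688680839)) (b (l 376514281959) (l 254107718039)))) (b (c (b (l 3) (l 370071834103)) (l 367924350231)) (c (c (l 16777768) (l 16777592)) (l 16779976)))) (b (c (a (b (l 363629383063) (l 16779024)) (l 16780208)) (c (l 212231787207) (l 209010561143))) (c (l 16782104) (l 16781752))))))))), by decide +kernel⟩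

def k15_pp_101 : ∃ t, chk3 f_pp_101 t 79 238 1 = true :=
  ⟨(a (l 3) (b (a (l 3) (b (l 3) (a (l 3) (b (l 3) (c (l 356650062807) (l 367924351367)))))) (a (b (l 3) (a (c (c (l 369534962327) (l 374366800215)) (c (l 378661767223) (l 380809250647))) (c (b (c (l 364703122999) (l 360408155351)) (a (b (l 331954001223) (l 16777776)) (l 16777648))) (b (a (l 363092509943) (l 345375771591)) (c (l 215453012759) (l 211694915735)))))) (b (c (c (a (b (l 3) (l 347523253559)) (b (l 334101483175) (l 16777736))) (a (b (l 3) (l 346449511383)) (b (l 332490867463) (l 16777528)))) (a (b (l 3) (a (l 380809249735) (l 280414395655))) (b (a (l 372219320103) (l 255718332359)) (l 16780504)))) (a (b (c (c (l 242833427255) (l 237464717751)) (c (l 16780064) (l 16777272))) (l 16781816)) (l 16781056)))))), by decide +kernel⟩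

def k16_pp_101 : ∃ t, chk3 f_pp_101 t 79 239 1 = true :=
  ⟨(a (b (a (b (l 3) (a (l 3) (b (l 3) (a (c (b (l 3) (l 353428838551)) (l 376514284919)) (b (c (l 371145575927) (l 335175225527)) (c (l 282025004391) (l 16778752))))))) (c (b (c (a (l 356650061095) (b (l 355576318055) (a (l 349670736983) (l 265918877063)))) (a (l 362018769911) (b (l 360408155927) (a (l 346986382087) (l 16777680))))) (a (b (a (b (l 349133866487) (l 330343388327)) (b (l 330880258999) (l 16777752))) (c (l 16777544) (l 16777336))) (l 16779360))) (b (c (a (l 377051155191) (b (l 378124895735) (l 251423364023))) (a (l 383493605927) (b (l 383493604615) (l 249812750567)))) (a (b (a (l 358797544551) (l 233706625223)) (l 16779680)) (l 16781608))))) (a (b (a (b (c (c (l 348060127143) (l 348060124183)) (c (l 348060123911) (l 348596994567))) (c (c (a (l 272361328231) (l 16777552)) (l 200420627335)) (c (l 195051917879) (l 191830691767)))) (b (c (c (l 188072596535) (l 16780096)) (c (l 16777296) (l 16777128))) (l 16781576))) (c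 (l 16780632) (l 16775112))) (c (l 16779008) (l 16778824)))) (b (a (b (c (a (b (a (b (l 352891967623) (l 280951265623)) (l 205252466887)) (l 16782368)) (l 16781616)) (a (b (a (l 271287588311) (l 16780008)) (l 16776736)) (l 16781248))) (l 16782368)) (l 16783392)) (l 16779936))), by decide +kernel⟩

def k17_pp_101 : ∃ t, chk3 f_pp_101 t 16 30 1 = true :=
  ⟨(l 3), by decide +kernel⟩

def k18_pp_101 : ∃ t, chk3 f_pp_101 t 17 60 1 = true :=
  ⟨(l 3), by decide +kernel⟩

def k19_pp_101 : ∃ t, chk3 f_pp_101 t 34 61 1 = true :=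
  ⟨(l 3), by decide +kernel⟩

def k20_pp_101 : ∃ t, chk3 f_pp_101 t 35 122 1 = true :=
  ⟨(l 3), by decide +kernel⟩

def k21_pp_101 : ∃ t, chk3 f_pp_101 t 70 123 1 = true :=
  ⟨(l 3), by decide +kernel⟩

def k22_pp_101 : ∃ t, chk3 f_pp_101 t 71 246 1 = true :=
  ⟨(l 3), by decide +kernel⟩

def k23_pp_101 : ∃ t, chk3 f_pp_101 t 142 247 1 = true :=
  ⟨(l 3), by decide +kernel⟩

def k24_pp_101 : ∃ t, chk3 f_pp_101 t 143 494 1 = true :=
  ⟨(l 3), by decide +kernel⟩

def k25_pp_101 : ∃ t, chk3 f_pp_101 t 286 495 1 = true :=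
  ⟨(b (l 3) (a (l 3) (b (l 3) (c (a (a (l 3) (b (l 3) (c (b (l 350744478375) (l 232632878951)) (b (l 355576316503) (l 229948524295))))) (a (b (c (l 351281349495) (l 356650058535)) (c (b (l 224579815255) (l 16777160)) (l 174113949671))) (b (c (b (l 352355091031) (l 215453009783)) (b (l 355039445495) (l 213305525911))) (l 16778272)))) (a (c (c (l 346449511479) (l 348060124199)) (a (l 3) (l 343228285655))) (b (a (b (l 3) (l 349670738951)) (b (l 285783100535) (c (l 206326204135) (l 16777904)))) (c (l 149417887831) (l 148881016679)))))))), by decide +kernel⟩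

def k26_pp_101 : ∃ t, chk3 f_pp_101 t 287 495 1 = true :=
  ⟨(b (a (l 3) (b (a (l 3) (a (l 3) (a (l 3) (b (l 3) (b (l 3) (c (l 350744480871) (l 361481898951))))))) (c (a (b (l 3) (c (a (b (l 3) (l 276119422791)) (b (l 268603229991) (l 16777280))) (a (b (l 3) (l 268066359191)) (b (l 261087037287) (l 16777224))))) (b (c (a (b (l 3) (l 261087037191)) (b (l 248739006343) (l 16777232))) (a (l 325511545927) (l 189146335319))) (c (l 16778264) (l 16778216)))) (a (b (l 3) (a (c (l 337322705351) (l 340543930759)) (c (l 197736269959) (l 196125657143)))) (b (a (c (b (l 3) (l 249812748023)) (l 330880256871)) (c (l 186998851591) (l 184851367847))) (l 16778480)))))) (a (b (c (a (b (l 3) (a (c (l 348596994839) (l 351818220231)) (c (b (l 340007059959) (l 198273140599)) (b (l 306721064487) (l 196662527607))))) (b (c (a (l 340007060167) (b (l 292762420855) (l 16777976))) (a (l 343228285543) (b (l 275582551991) (l 16777920)))) (c (l 135996114855) (l 134385502039)))) (a (b (l 3) (a (b (l 3) (l 285783100487))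 (c (l 220821719255) (l 218674235527)))) (b (a (c (l 346449510951) (l 350207607271)) (c (l 209010559143) (l 206863075447))) (c (l 16778272) (l 16778232))))) (c (a (b (c (c (l 147807274807) (l 145122920103)) (l 142975436727)) (l 16776480)) (l 16778744)) (a (c (l 123111212967) (l 122574341991)) (l 16776080)))) (c (b (c (c (l 16778008) (l 16778320)) (l 105394472919)) (l 16775144)) (c (l 98415151159) (l 16778328))))), by decide +kernel⟩

def k27_pp_101 : ∃ t, chk3 f_pp_101 t 16 31 1 = true :=
  ⟨(b (b (l 3) (l 6)) (l 6)), by decide +kernel⟩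

def k28_pp_101 : ∃ t, chk3 f_pp_101 t 34 124 1 = true :=
  ⟨(a (l 3) (b (l 3) (a (l 3) (b (l 3) (a (l 3) (b (l 3) (a (b (l 3) (c (a (b (l 3) (c (c (l 350744478711) (l 352891962343)) (a (l 3) (l 347523252919)))) (b (a (l 3) (a (l 3) (b (l 3) (c (l 250349618663) (l 249812747703))))) (a (b (a (l 3) (c (l 258402682375) (l 257328940503))) (c (a (l 200957494647) (l 16777824)) (l 168745240007))) (b (c (c (l 168208368807) (l 167671497863)) (l 162839659943)) (l 16778232))))) (c (a (b (l 3) (a (l 3) (l 352355091095))) (b (a (l 3) (l 344838898247)) (a (b (l 338396448391) (l 168208369047)) (l 137606727063)))) (a (b (l 3) (l 362555638695)) (a (b (l 3) (a (l 229948524263) (l 189683205591))) (b (l 348596994615) (l 137606726871))))))) (b (c (a (b (l 3) (a (l 3) (b (l 3) (c (a (l 348596994519) (l 234243491319)) (a (l 352891961783) (l 233169749447)))))) (b (a (l 3) (b (l 3) (c (a (l 339470188951) (l 218137363911)) (a (l 283635615287) (l 214379267479))))) (b (a (c (a (l 345912639927) (l 226190427607)) (a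 (l 349670736263) (l 222432331175))) (c (l 16777808) (l 16777784))) (c (l 125795566967) (l 124721825095))))) (a (c (b (l 3) (a (l 3) (l 336248963591))) (b (l 3) (a (l 3) (l 340543930855)))) (b (c (c (l 341617672919) (l 343765156551)) (a (l 3) (l 332490867095))) (c (a (b (a (l 288467453399) (l 221358589303)) (l 16777776)) (l 16777616)) (a (b (l 322290320855) (l 16777752)) (l 16776936)))))) (c (a (b (b (c (a (a (l 345912640007) (l 242296554983)) (l 153712854423)) (a (a (l 351281349079) (l 240149071287)) (l 150491628887))) (c (c (l 137069855879) (l 136532984951)) (l 133311759767))) (l 16777896)) (l 16777560)) (a (b (c (b (a (a (l 356113187239) (l 238538458503)) (l 16777792)) (l 132774888807)) (a (a (l 219747976935) (l 179482658199)) (l 16777632))) (l 16777872)) (l 16777552))))))))))), by decide +kernel⟩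

def k29_pp_101 : ∃ t, chk3 f_pp_101 t 68 125 1 = true :=
  ⟨(b (b (l 3) (l 6)) (l 6)), by decide +kernel⟩

def k30_pp_101 : ∃ t, chk3 f_pp_101 t 138 500 1 = true :=
  ⟨(a (l 3) (b (l 3) (a (a (l 3) (b (l 3) (b (l 3) (c (a (b (l 3) (a (l 3) (c (b (l 3) (l 246591521943)) (l 257328940439)))) (b (a (l 3) (c (l 249812747751) (l 249812747639))) (c (c (l 167134626951) (l 166597756007)) (l 163376530759)))) (c (a (l 351281349255) (b (a (l 3) (l 249812747591)) (a (l 188609463463) (l 16777752)))) (b (l 351818220135) (a (l 343228285287) (l 162839659719)))))))) (b (a (l 3) (b (l 3) (c (a (b (l 3) (a (c (l 346449510871) (l 352355090855)) (c (b (l 286319969559) (l 203104978023)) (l 227264169319)))) (b (c (a (l 342154543543) (b (l 283635614967) (l 191293817959))) (a (l 346986381703) (l 217600492871))) (c (l 143512306919) (l 140291081399)))) (a (b (l 3) (c (l 241759684199) (l 242296555079))) (b (c (l 236390975047) (l 236390975015)) (c (b (l 16777832) (l 16778344)) (l 254107712951))))))) (a (b (c (a (b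 (l 3) (a (l 3) (c (l 242296554951) (l 242296554919)))) (b (a (c (l 345912639975) (l 351281349063)) (c (b (l 291151807639) (l 214916138071)) (l 233706620295))) (c (c (l 155860337735) (l 155323466791)) (l 152102241543)))) (a (a (l 3) (c (l 337322705335) (l 339470188967))) (b (c (a (l 356650059463) (l 233169749255)) (l 247665264247)) (c (a (l 173577077879) (l 16777720)) (l 16777776))))) (c (a (b (c (a (l 185388238055) (l 16777776)) (l 158007821607)) (l 16778200)) (l 16778032)) (c (c (l 122574341031) (l 122574341015)) (l 122574341495)))) (c (a (b (c (c (l 127406179383) (l 126869308455)) (l 127406179511)) (l 16776408)) (l 16777696)) (b (c (l 116668761415) (l 16777792)) (l 16777552)))))))), by decide +kernel⟩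

def k31_pp_101 : ∃ t, chk3 f_pp_101 t 138 501 1 = true :=
  ⟨(a (b (a (l 6) (a (l 6) (b (b (l 3) (l 6)) (l 6)))) (l 6)) (b (a (b (a (b (c (a (b (l 3) (a (l 3) (c (l 333027739287) (l 336785835639)))) (b (a (l 3) (c (b (l 3) (l 256792069303)) (l 330880255575))) (c (a (b (l 262160778439) (l 16777576)) (l 16777824)) (c (l 177335174295) (l 174650819719))))) (c (a (l 358260671191) (b (a (l 3) (l 334638351927)) (a (l 204178719911) (l 16777784)))) (a (l 363629380279) (b (l 348596994439) (l 174113948935))))) (a (a (l 6) (c (c (l 123111212135) (l 16777672)) (c (l 16777656) (l 16776984)))) (c (l 16778104) (l 16778080)))) (a (c (b (b (c (a (b (l 251960231079) (l 16777888)) (l 16777808)) (c (l 171966465143) (l 169282110567))) (l 16778232)) (l 16777784)) (b (c (c (l 142438564903) (l 142438564887)) (l 142438565111)) (l 16776464))) (c (l 16777768) (l 16777760)))) (c (l 16777792) (l 16778408))) (c (l 16777896) (l 16777816))) (c (l 16776440) (l 16776272)))), by decide +kernel⟩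

def k32_pp_101 : ∃ t, chk3 f_pp_101 t 278 1000 1 = true :=
  ⟨(a (a (l 3) (b (l 3) (b (l 3) (b (a (l 3) (c (c (a (l 254644585975) (l 190756947207)) (a (l 254644585943) (l 186998850775))) (c (l 212768654871) (l 212768654839)))) (c (a (c (a (b (l 3) (l 253570843895)) (l 197199398247)) (a (l 261623907831) (l 195051914471))) (c (l 16777728) (l 16777712))) (a (c (l 218674234935) (l 218674234903)) (l 16778088))))))) (b (c (a (b (l 3) (c (c (l 359871284359) (l 362555638903)) (l 365239993431))) (c (b (b (l 3) (l 350207607607)) (a (b (l 345912641383) (a (l 232096007623) (l 167134626983))) (b (a (l 224579814823) (l 16777792)) (l 16778312)))) (b (b (l 3) (l 355039445783)) (b (a (l 352355092279) (a (l 221358589303) (l 16777848))) (a (a (l 231559136631) (l 16777864)) (l 16778296)))))) (c (a (b (l 3) (l 369534960711)) (b (l 365776864247) (a (b (l 362018768663) (l 195051914759)) (b (l 186461980151) (l 16778272))))) (a (b (l 3) (l 374366798903)) (b (l 369534960615) (a (a (l 334101479767) (l 209010558631))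 (l 154249725447)))))) (a (b (b (c (a (c (l 345912641447) (l 356650059639)) (c (a (l 240149071287) (l 175187690695)) (a (l 238538458503) (l 171429594263)))) (c (a (l 367387477847) (l 200957494775)) (c (l 315310997767) (l 317458481399)))) (c (a (c (a (l 247665264087) (l 183240754407)) (a (l 247128393127) (l 179482657975))) (c (l 16777696) (l 16778328))) (a (c (l 206863074823) (l 206863074791)) (l 16778296)))) (c (c (l 16778056) (l 16778040)) (c (l 16776720) (l 16776704)))) (c (c (l 16777712) (l 16777712)) (c (l 16777704) (l 16777696)))))), by decide +kernel⟩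

def k33_pp_101 : ∃ t, chk3 f_pp_101 t 278 1001 1 = true :=
  ⟨(a (b (a (b (c (a (b (l 3) (c (a (l 336248964791) (b (l 271287583959) (l 16777920))) (a (l 340543930727) (l 210084300087)))) (b (c (a (l 331417126535) (l 205252461911)) (a (l 334638351975) (l 202031236391))) (c (l 16777768) (l 16777744)))) (a (b (l 3) (c (l 230485395063) (l 230485394951))) (b (c (l 224579814999) (l 224579814967)) (a (l 145659791127) (l 16776984))))) (c (c (c (l 16777720) (l 16777800)) (l 110763181351)) (c (l 16777776) (l 16778088)))) (c (c (l 99488892119) (l 16777784)) (c (l 16777776) (l 16777768)))) (c (l 16778320) (l 16778272))) (c (l 16777760) (l 16777680))), by decide +kernel⟩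

def k34_pp_101 : ∃ t, chk3 f_pp_101 t 279 500 1 = true :=
  ⟨(b (a (b (a (b (c (a (b (c (a (l 3) (l 333027737975)) (l 340543932151)) (c (a (l 216526751127) (l 16777856)) (a (l 213305525607) (l 16777832)))) (b (c (a (l 209010558343) (l 16777840)) (l 175187690983)) (l 16778264))) (c (a (b (l 349670737623) (l 180019529175)) (l 146196661735)) (a (a (l 323900932375) (l 199346882167)) (l 145659790775)))) (c (l 16777976) (l 16777952))) (c (l 16778296) (l 16777624))) (c (l 16778184) (l 16778136))) (c (l 16777624) (l 16777536))) (c (l 16778808) (l 16778624))), by decide +kernel⟩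

def k35_pp_101 : ∃ t, chk3 f_pp_101 t 139 501 1 = true :=
  ⟨(a (c (l 16777952) (l 16777712)) (l 16778280)), by decide +kernel⟩

def k36_pp_101 : ∃ t, chk3 f_pp_101 t 69 251 1 = true :=
  ⟨(a (a (l 6) (c (l 16774128) (l 16776248))) (b (l 16775456) (l 16784328))), by decide +kernel⟩

def k37_pp_101 : ∃ t, chk3 f_pp_101 t 140 248 1 = true :=
  ⟨(l 3), by decide +kernel⟩

def k38_pp_101 : ∃ t, chk3 f_pp_101 t 141 496 1 = true :=
  ⟨(l 3), by decide +kernel⟩

def k39_pp_101 : ∃ t, chk3 f_pp_101 t 282 497 1 = true :=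
  ⟨(b (l 3) (a (l 3) (a (l 3) (a (l 3) (b (l 3) (b (l 3) (b (l 3) (c (c (a (l 345912640039) (l 260550166039)) (l 327122159223)) (c (l 260013295495) (l 258939553623)))))))))), by decide +kernel⟩

def k40_pp_101 : ∃ t, chk3 f_pp_101 t 283 497 1 = true :=
  ⟨(b (a (l 3) (a (l 3) (b (l 3) (b (l 3) (c (c (a (l 349670736759) (b (l 351281349207) (l 207399946055))) (a (l 355039445815) (b (l 354502574615) (l 205252462343)))) (a (b (l 3) (c (l 360408154631) (l 366313734615))) (b (c (l 358260670935) (l 362018767271)) (c (l 203641849559) (l 198810011287))))))))) (a (b (a (l 3) (a (l 3) (b (l 3) (b (l 3) (c (c (a (l 293299291735) (l 224579814839)) (l 234780362535)) (c (l 232632878839) (l 231022266055))))))) (a (a (b (l 3) (c (b (c (a (l 349670736375) (l 250886489623)) (l 254107715479)) (c (l 164450272759) (l 16777856))) (c (a (l 222969202423) (l 180556400263)) (l 197736269767)))) (b (b (l 3) (c (c (a (l 308331677095) (l 241759684103)) (l 247665264503)) (c (l 246591522615) (l 244980909831)))) (c (c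 (l 131701147127) (l 16777696)) (c (l 16778320) (b (l 16778432) (l 16776840)))))) (c (b (a (b (c (a (l 309405418887) (l 233169749479)) (l 241222813527)) (c (l 16777856) (l 16777816))) (c (l 16778344) (l 16778312))) (l 16777888)) (b (a (c (b (l 239612200727) (l 16778440)) (l 189146334999)) (l 122037471367)) (l 16777840))))) (b (a (a (b (l 3) (c (c (b (a (l 289541195143) (l 214379267511)) (l 16778472)) (b (l 227264169751) (l 16777120))) (c (b (l 225653556951) (l 16777088)) (l 178408916695)))) (c (b (c (b (l 348060123815) (a (l 277193164215) (l 204178720183))) (b (l 353428832871) (l 220821718775))) (c (l 16778296) (l 16778264))) (b (b (c (l 359871283751) (l 364703121927)) (c (l 218674235063) (l 217063622279))) (l 16778216)))) (a (c (b (b (c (a (l 265382004199) (l 16777928)) (l 213305525991)) (l 16778408)) (l 16776648)) (c (b (l 168745240423) (l 16779232)) (l 136532985655))) (c (l 16778264) (l 16777888)))) (c (l 16778528) (l 16778512))))), by decide +kernel⟩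

def k41_pp_101 : ∃ t, chk3 f_pp_101 t 140 498 1 = true :=
  ⟨(a (l 3) (b (l 3) (a (b (l 3) (c (a (b (l 3) (a (b (l 3) (c (a (l 3) (l 266455746119)) (l 334638352055))) (b (c (a (l 3) (l 257865811527)) (l 328732771991)) (c (l 171429594631) (l 167671498183))))) (b (a (b (l 3) (c (a (l 347523252743) (l 249812747815)) (a (l 352355090903) (l 247128393191)))) (b (c (a (l 349133865447) (l 241222813191)) (a (l 353965703607) (l 236390974967))) (c (l 158544692679) (l 16777840)))) (c (c (a (l 139217339607) (l 16778080)) (l 123648083303)) (l 124184954343)))) (a (b (l 3) (a (b (l 3) (c (l 337859577479) (l 344302028391))) (b (c (l 332490868327) (l 338933319223)) (c (l 166597756311) (l 16777816))))) (c (b (b (l 337322705431) (a (l 327659030071) (l 16777808))) (l 123648083383)) (b (a (l 345375769095) (b (l 248739006103) (l 16777784))) (l 16777840)))))) (b (c (a (b (l 3) (a (b (l 3) (c (a (l 349133865415) (l 233169749479)) (l 242833426279))) (b (c (a (l 290078066279) (l 224579814871)) (l 236390975303))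 (c (l 16777832) (l 16777800))))) (b (a (b (l 3) (c (a (l 286856840615) (l 214916138455)) (l 229948524327))) (b (c (a (l 273435067943) (l 207399945623)) (l 223506073351)) (c (l 16777792) (l 16778416)))) (c (l 16778152) (l 16778128)))) (a (b (l 3) (b (c (l 329269641671) (l 333564608919)) (a (c (l 241759684407) (l 241222813463)) (l 142438565991)))) (b (a (b (l 3) (c (l 228874782455) (l 227801040583))) (c (b (l 222432331479) (l 16778384)) (l 176798303943))) (c (l 16776792) (l 16776776))))) (c (a (c (c (l 107005084935) (l 16777888)) (l 107005085127)) (l 16778552)) (c (l 101636376183) (l 16778024))))))), by decide +kernel⟩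

def k42_pp_101 : ∃ t, chk3 f_pp_101 t 280 998 1 = true :=
  ⟨(a (b (l 3) (c (a (b (l 3) (a (l 3) (b (l 3) (c (a (l 267529487911) (l 202031236487)) (a (l 266455746023) (l 198273140039)))))) (b (a (l 3) (b (c (l 346986381959) (l 352355091031)) (c (a (l 250349618743) (l 186998850823)) (a (l 249275876855) (l 180556399911))))) (c (a (b (a (l 260013295111) (l 193441301879)) (l 16777752)) (l 16778240)) (a (b (a (l 257865811447) (l 189683205431)) (l 16777728)) (l 16778216))))) (a (b (l 3) (a (l 3) (b (l 3) (c (l 221358589495) (l 220821718535))))) (a (b (l 3) (b (c (l 214916138519) (l 214379267575)) (l 16778344))) (b (b (a (l 3) (l 282561874231)) (c (l 208473687559) (l 207936816599))) (l 16778184)))))) (b (c (a (b (l 3) (a (b (l 3) (c (l 349133865559) (l 354502574631))) (b (c (l 345912640055) (l 349670736391)) (c (a (l 234243491319) (l 16777904)) (l 193978172999))))) (a (b (b (l 3) (c (l 340543932215) (l 344302028551))) (b (c (a (l 226190427607) (l 16777888)) (l 187535722023)) (l 16778312))) (b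 (b (c (a (l 3) (l 275582551607)) (l 340007061207)) (c (a (l 217600492999) (l 16777872)) (l 180556400151))) (l 16778144)))) (a (b (l 3) (a (b (l 3) (a (l 3) (l 282025003447))) (b (a (l 3) (l 284709357975)) (c (l 192904431111) (l 191830689255))))) (b (a (b (l 3) (a (l 3) (l 279877519719))) (c (b (l 342691415735) (l 179482658263)) (b (l 351818221191) (l 178408916391)))) (c (c (l 136532985271) (l 137069855991)) (l 137069856295))))) (c (a (a (b (b (c (a (l 242296555031) (l 178408916199)) (l 203104978487)) (l 16778024)) (l 16776592)) (l 16778216)) (l 16778712)) (a (b (a (b (c (l 202031236615) (l 200420623847)) (l 16778304)) (l 16778144)) (l 16777720)) (l 16778704))))), by decide +kernel⟩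

def k43_pp_101 : ∃ t, chk3 f_pp_101 t 280 999 1 = true :=
  ⟨(a (b (c (b (a (a (b (c (a (l 275045680711) (l 210084300183)) (a (l 273971938839) (l 206863074647))) (c (l 16777792) (l 16777760))) (c (l 16777624) (l 16778248))) (l 16777784)) (l 16778160)) (a (b (a (c (b (l 227264169559) (l 16777736)) (b (l 226727298615) (l 16777712))) (l 115058149255)) (l 16777800)) (l 16778784))) (c (l 16778040) (l 16777984))) (c (l 16777480) (l 16777392))), by decide +kernel⟩

def k44_pp_101 : ∃ t, chk3 f_pp_101 t 281 499 1 = true :=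
  ⟨(b (c (a (b (a (b (a (b (c (c (l 182167012599) (l 181630141655)) (l 174113949175)) (l 16778272)) (l 16778104)) (l 16777664)) (l 16778632)) (l 16777896)) (l 16777336)) (a (b (a (b (c (l 130627405319) (l 130090534359)) (l 16776336)) (l 16778624)) (l 16777832)) (l 16777232))) (l 16778832)), by decide +kernel⟩

def k45_pp_101 : ∃ t, chk3 f_pp_101 t 141 249 1 = true :=
  ⟨(b (a (b (a (b (a (l 3) (a (l 3) (a (l 3) (b (l 3) (b (l 3) (c (c (l 297057388071) (l 293299291703)) (l 284709358103))))))) (c (a (b (a (l 3) (b (l 3) (c (l 349133865591) (l 353965703751)))) (b (a (c (l 346986381991) (l 352891961959)) (c (a (l 255181456951) (l 188609463671)) (l 210084300503))) (a (c (a (l 264845133351) (l 197736269207)) (l 216526751463)) (l 16778392)))) (b (a (b (c (l 350207607383) (l 354502574615)) (c (a (l 246591522327) (l 16777936)) (l 202568107767))) (b (c (a (l 238538458615) (l 16777920)) (l 195051914839)) (l 16778344))) (l 16778224))) (c (a (b (l 367924347959) (a (b (l 358797541943) (l 215453009591))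 (b (l 208473687719) (l 16777032)))) (b (a (b (l 358260670951) (l 200420623911)) (l 159081563751)) (l 16776712))) (a (b (l 373293057063) (b (l 316921610487) (l 173040207591))) (b (b (a (l 362555639527) (l 192367560167)) (l 161229047447)) (l 16776688)))))) (b (c (a (b (a (l 3) (b (l 3) (c (l 334638350823) (l 337859576231)))) (a (b (c (l 340007059975) (l 343765156295)) (c (c (l 198273140039) (l 197199398183)) (l 188072592951))) (c (c (l 155860338023) (l 152639112519)) (l 150491629143)))) (b (a (c (b (a (l 3) (l 270750713351)) (l 178408916551)) (b (l 331953996167) (l 174113949175))) (c (l 141901694535) (l 140827952647))) (l 16777976))) (c (a (b (l 357723800471) (a (b (l 346986381719) (l 186461980151)) (l 149417887255))) (b (b (a (l 335712092487) (l 16777840)) (l 142438565495)) (l 16776632))) (a (b (l 362018767735) (b (a (l 350207607159) (l 16777848)) (l 151028500119))) (b (b (a (l 338933317911) (l 16777816)) (l 16778016)) (l 16776608))))) (c (c (l 16778048) (l 16776736)) (l 16778360)))) (c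 (a (a (c (l 16777848) (l 16777848)) (l 16777968)) (l 16777176)) (a (c (l 16778200) (l 16778192)) (l 16777072)))) (b (c (c (l 16778224) (l 16778176)) (c (l 16777488) (l 16777456))) (l 16778112))) (c (l 16777016) (l 16777336))), by decide +kernel⟩

def k46_pp_101 : ∃ t, chk3 f_pp_101 t 284 496 1 = true :=
  ⟨(b (l 3) (a (l 3) (a (l 3) (b (l 3) (b (l 3) (c (a (b (l 3) (c (l 250886490023) (l 248739006311))) (c (b (l 243907168135) (l 16777864)) (b (l 241759684423) (l 16777168)))) (a (b (l 3) (c (l 246591522599) (l 244444038887))) (c (l 187535722487) (l 186461980599))))))))), by decide +kernel⟩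

def k47_pp_101 : ∃ t, chk3 f_pp_101 t 285 496 1 = true :=
  ⟨(b (a (l 3) (b (l 3) (c (a (b (l 3) (a (l 3) (c (l 344838898439) (l 349133865655)))) (b (a (l 3) (b (l 3) (c (l 329806512567) (l 273971939287)))) (a (c (b (l 335712092647) (l 192904431271)) (b (l 337859576215) (l 187535722055))) (c (l 148344145767) (l 148344145511))))) (c (a (l 366850606503) (b (a (l 3) (l 343765157703)) (a (b (l 278803777463) (l 16777896)) (l 16778400)))) (a (l 371145573767) (b (a (l 3) (l 350207609895)) (a (l 213842397319) (l 16778360)))))))) (a (b (c (c (a (l 360408155847) (b (a (l 3) (l 351281349463)) (a (b (l 350744478343) (l 221895460679)) (b (l 213842397015) (l 16777120))))) (a (l 365239994007) (b (a (l 3) (l 356650058519)) (a (b (l 356113187383) (l 219747976951)) (l 168208369591))))) (c (a (l 371682444903) (b (a (l 3) (l 361481896663)) (a (b (l 362018767351) (l 217063622327)) (l 166597756775)))) (a (l 374903670343) (b (a (l 3) (l 371145575655)) (a (b (l 367387476423) (l 211694913159)) (l 165524014871))))))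 (a (c (b (a (b (l 3) (c (l 236927846247) (l 234243491623))) (b (c (l 229411653463) (l 227264169735)) (l 16778456))) (c (l 16778192) (l 16778152))) (b (a (b (l 3) (c (l 232632878807) (l 229948524199))) (c (l 177335175095) (l 175724562279))) (l 16778432))) (c (c (l 16777840) (l 16776496)) (l 16778432)))) (b (c (a (b (a (c (b (l 347523252791) (l 208473687767)) (b (l 350744478183) (l 203104978567))) (c (c (l 164450272903) (l 160692176471)) (l 157470951271))) (l 16778080)) (l 16778384)) (a (b (a (b (l 285246229495) (c (l 200420623927) (l 16777888))) (c (l 156397209351) (l 16778080))) (l 16778016)) (l 16778992))) (c (l 16778152) (l 16778152))))), by decide +kernel⟩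

def k48_pp_101 : ∃ t, chk3 f_pp_101 t 142 497 1 = true :=
  ⟨(a (b (a (b (a (l 3) (b (l 3) (b (a (l 3) (a (l 3) (c (c (l 283635615079) (l 276656293223)) (l 256255199783)))) (c (a (c (l 334638350807) (l 336785834391)) (c (l 180019529319) (l 175724561927))) (c (a (l 340007059799) (l 16777864)) (l 211694913671)))))) (a (a (b (a (l 3) (b (l 3) (b (l 3) (c (l 282025003527) (l 282561874311))))) (c (c (b (l 202031236791) (l 16777072)) (l 160155305831)) (c (l 160155305591) (l 158544692791)))) (c (b (c (b (l 339470189063) (l 194515044007)) (b (l 342691414471) (l 190220076631))) (l 16778192)) (b (b (c (l 345912639879) (l 349133865303)) (c (l 188072592903) (l 16777872))) (l 16776824)))) (a (c (b (c (c (l 155323467303) (l 154786596183)) (l 151028500071)) (l 16776560)) (c (l 124184954567) (l 16778096))) (c (l 16777848) (l 16777800))))) (b (a (c (b (a (b (l 3) (c (l 322827190679) (l 262697650087))) (c (b (l 257328941015) (l 16777912)) (b (l 255718328199) (l 16777864)))) (c (l 126869309207) (l 125795567303)))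 (b (a (b (l 3) (c (l 260550166375) (l 258939553591))) (b (c (l 253570844487) (l 251960231703)) (l 157470951719))) (c (l 16778208) (l 16778184)))) (c (c (l 108078827239) (l 16777904)) (c (l 16777880) (l 16777856)))) (c (l 16778344) (l 16778336)))) (a (c (l 16777904) (l 16777856)) (l 16778760))) (b (c (l 16778520) (l 16778432)) (l 16777784))), by decide +kernel⟩

def k49_pp_101 : ∃ t, chk3 f_pp_101 t 143 248 1 = true :=
  ⟨(b (a (b (a (b (c (a (a (l 3) (b (l 3) (b (l 3) (c (l 262160779223) (l 260013295495))))) (b (a (l 3) (b (l 3) (c (l 247665264535) (l 245517780791)))) (c (a (b (l 255181457335) (l 16777248)) (l 16778392)) (a (b (l 253033973591) (l 16777200)) (l 16778352))))) (a (b (l 3) (a (l 3) (b (l 3) (c (l 257328940855) (l 254644586231))))) (b (a (l 3) (b (l 3) (c (l 242296555255) (l 239612200631)))) (c (a (l 193978173479) (l 16778304)) (l 164987144391))))) (c (a (b (c (a (b (l 269140101111) (l 177335174759)) (l 16778112)) (a (b (l 266992617383) (l 16777904)) (l 16778392))) (l 16777984))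 (l 16778944)) (a (b (a (c (l 204178720935) (l 202568108151)) (l 136532986295)) (l 16776608)) (l 16778896)))) (b (c (a (b (a (c (b (l 240685942647) (l 16777208)) (b (l 237464717095) (l 16777160))) (l 16778320)) (l 16776576)) (l 16778848)) (a (b (c (c (l 159081563863) (l 158544692919)) (l 157470951367)) (l 16776512)) (l 16778800))) (c (l 16777960) (l 16777960)))) (c (l 16778344) (l 16778248))) (c (l 16778520) (l 16778344))) (a (l 16779232) (l 16779688))), by decide +kernel⟩

def k50_pp_101 : ∃ t, chk3 f_pp_101 t 71 249 1 = true :=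
  ⟨(a (b (c (l 16776056) (l 16778328)) (l 16777104)) (c (l 16775224) (l 16774440))), by decide +kernel⟩

def k51_pp_101 : ∃ t, chk3 f_pp_101 t 35 125 1 = true :=
  ⟨(a (b (a (b (c (l 16778616) (l 16778288)) (l 16777664)) (b (l 16777400) (l 16783856))) (b (l 16781312) (l 16777936))) (b (b (l 16781456) (l 16777464)) (l 16771488))), by decide +kernel⟩

def k52_pp_101 : ∃ t, chk3 f_pp_101 t 17 63 1 = true :=
  ⟨(b (a (a (l 6) (b (a (l 6) (l 16778216)) (l 6))) (a (b (l 16771880) (l 16742848)) (l 16780520))) (a (l 6) (a (l 16735992) (l 16722664)))), by decide +kernel⟩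

def k53_pp_101 : ∃ t, chk3 f_pp_101 t 36 60 1 = true :=
  ⟨(l 3), by decide +kernel⟩

def k54_pp_101 : ∃ t, chk3 f_pp_101 t 37 120 1 = true :=
  ⟨(l 3), by decide +kernel⟩

def k55_pp_101 : ∃ t, chk3 f_pp_101 t 74 121 1 = true :=
  ⟨(l 3), by decide +kernel⟩

def k56_pp_101 : ∃ t, chk3 f_pp_101 t 75 242 1 = true :=
  ⟨(l 3), by decide +kernel⟩

def k57_pp_101 : ∃ t, chk3 f_pp_101 t 150 243 1 = true :=
  ⟨(b (l 3) (a (l 3) (b (a (l 3) (b (l 3) (b (l 3) (c (c (l 360945026583) (l 364703122791)) (c (l 367924348103) (l 370608702551)))))) (a (b (b (l 3) (a (l 3) (a (l 3) (c (l 350744481255) (l 369534962855))))) (a (b (a (l 3) (c (l 347523255895) (l 358797547351))) (c (c (l 315310998087) (l 282561874471)) (c (l 279877519671) (l 278266906631)))) (b (c (c (l 275582552743) (l 272898197927)) (a (l 285783101863) (l 212768657159))) (c (l 16779864) (l 16779664))))) (b (a (a (b (l 3) (c (b (l 299204874103) (l 274508812391)) (l 271287587479))) (b (c (b (l 3) (l 300278616199)) (l 368998091815)) (c (l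 207399948359) (l 16779272)))) (b (c (c (l 257865812295) (l 253033973799)) (a (l 249812750615) (l 16779888))) (c (l 16779736) (l 16779536)))) (c (l 16779184) (l 16779008))))))), by decide +kernel⟩

def k58_pp_101 : ∃ t, chk3 f_pp_101 t 151 243 1 = true :=
  ⟨(b (a (b (l 3) (a (l 3) (b (l 3) (a (l 3) (b (l 3) (c (c (l 323900932743) (l 292225551191)) (c (l 287930583719) (l 287393712423)))))))) (b (a (l 3) (b (l 3) (b (a (l 3) (a (l 3) (c (l 352355093735) (l 294373036663)))) (a (a (l 3) (c (l 365239995719) (l 363629385239))) (c (c (l 256792070599) (l 251960232055)) (c (l 246591522759) (l 16778616))))))) (a (b (b (a (l 3) (a (l 3) (c (l 363629383095) (l 372219319943)))) (a (a (l 3) (c (l 348596997671) (l 358797547271))) (c (a (l 289541198551) (l 221895463207)) (a (l 280951263927) (l 16779304))))) (a (c (b (c (l 284172487735) (l 281488132887)) (l 16779296)) (c (l 200957496823) (l 197199400263))) (c (l 16779616) (l 16779400)))) (b (a (c (b (c (l 266455747207) (l 258939554263)) (l 16779824)) (c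 (l 184851369127) (l 180019530871))) (c (l 16779472) (l 16779256))) (l 16781144))))) (a (b (a (b (b (l 3) (a (l 3) (c (c (l 343228285767) (l 343765156471)) (a (l 369534965495) (l 277193167527))))) (c (c (a (b (l 352891962279) (l 244980910359)) (l 161765920487)) (a (b (l 353428832999) (l 242296555431)) (l 161229049015))) (b (a (a (l 3) (l 290614940087)) (l 186461983015)) (c (l 162302791015) (l 159081565351))))) (b (a (c (a (b (l 363629383063) (l 215453012087)) (c (l 210621173303) (l 207399947543))) (b (c (l 299204872967) (l 297594259911)) (l 175187693607))) (c (c (l 16779808) (l 16777072)) (l 16779536))) (c (l 16776280) (l 16776104)))) (c (l 16779712) (l 16778952))) (c (l 16778832) (l 16778816)))), by decide +kernel⟩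

def k59_pp_101 : ∃ t, chk3 f_pp_101 t 72 122 1 = true :=
  ⟨(l 3), by decide +kernel⟩

def k60_pp_101 : ∃ t, chk3 f_pp_101 t 73 244 1 = true :=
  ⟨(l 3), by decide +kernel⟩

def k61_pp_101 : ∃ t, chk3 f_pp_101 t 146 245 1 = true :=
  ⟨(b (l 3) (a (l 3) (b (l 3) (a (l 3) (a (l 3) (b (l 3) (b (l 3) (c (c (l 340543932535) (l 342691414759)) (c (l 345375769207) (l 348596994583)))))))))), by decide +kernel⟩

def k62_pp_101 : ∃ t, chk3 f_pp_101 t 147 490 1 = true :=
  ⟨(a (l 3) (b (l 3) (a (l 3) (b (l 3) (b (a (l 3) (c (c (l 350207607751) (l 352355091271)) (c (l 355576316615) (l 358260671079)))) (a (c (c (l 358260671543) (l 362018767783)) (c (l 364166251319) (l 367387476695))) (c (c (a (l 270213843111) (l 16777368)) (l 202568108871)) (c (l 199346883255) (l 196125657655))))))))), by decide +kernel⟩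

def k63_pp_101 : ∃ t, chk3 f_pp_101 t 147 491 1 = true :=
  ⟨(a (b (a (l 3) (a (l 3) (b (l 3) (b (l 3) (a (b (l 3) (c (c (l 321216579703) (l 319605966823)) (l 283098746599))) (c (c (l 244980910375) (l 233706621271)) (b (l 277193166519) (l 16778560)))))))) (a (a (b (l 3) (c (b (c (a (l 346986382343) (l 323900932631)) (l 334638352279)) (a (c (l 221895461239) (l 214916139255)) (l 16778488))) (b (c (l 337322705415) (l 340007059879)) (c (l 174113950103) (l 171429595415))))) (b (c (b (l 3) (c (a (l 355576316823) (l 277730035911)) (a (l 360945025815) (l 273971939399)))) (b (l 3) (c (l 328732772039) (l 330880254279)))) (c (b (c (l 167671499511) (l 167134628279)) (l 16776688)) (c (l 137606728087) (l 16778136))))) (b (c (c (a (b (a (l 357723800375) (l 255718328791)) (l 158007822951)) (l 16778216)) (a (b (a (l 360408154807) (l 250886490375)) (l 16778488)) (l 16778144))) (a (b (c (a (l 362018767415) (l 248202135607)) (l 322290320887)) (a (l 173577080007) (l 16779544))) (c (l 16778080) (l 16779328))))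 (c (l 16778616) (l 16775904))))) (b (a (b (b (a (l 3) (c (c (l 355576317095) (l 361481896983)) (c (l 366850605991) (l 372219315031)))) (a (c (c (l 353965704455) (l 359334413463)) (c (l 364703122471) (l 371145573319))) (c (c (a (l 325511545367) (l 234243491415)) (a (l 291151808663) (l 209010559047))) (c (l 221358590903) (l 216526752519))))) (c (c (a (b (a (l 336248963703) (l 231022266615)) (l 16777144)) (l 16779408)) (a (b (a (l 337322705383) (l 220284848391)) (l 16777064)) (l 16779336))) (a (b (c (l 232096009255) (l 228874783687)) (l 16778920)) (l 16779240)))) (a (b (b (c (c (a (l 283098745047) (l 16778072)) (a (l 277730035783) (l 16777328))) (c (l 208473688935) (l 206326205143))) (c (l 16779608) (l 16779464))) (l 16779960)) (c (l 16778640) (l 16778544)))) (c (l 16779824) (l 16779808)))), by decide +kernel⟩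

def k64_pp_101 : ∃ t, chk3 f_pp_101 t 144 246 1 = true :=
  ⟨(l 3), by decide +kernel⟩

def k65_pp_101 : ∃ t, chk3 f_pp_101 t 145 492 1 = true :=
  ⟨(l 3), by decide +kernel⟩

def k66_pp_101 : ∃ t, chk3 f_pp_101 t 290 493 1 = true :=
  ⟨(b (l 3) (a (a (l 3) (b (l 3) (b (l 3) (c (c (a (l 330343383639) (b (l 277730035495) (l 16777304))) (a (l 332490867175) (l 202568108199))) (a (c (l 335175221639) (l 337859576119)) (c (l 199346882631) (l 195588786231))))))) (b (c (a (b (l 3) (c (l 352891962551) (l 358260671575))) (b (c (l 355039446087) (l 359334413287)) (a (c (b (l 355039445639) (l 257328940631)) (l 248739007031)) (c (l 177872046407) (l 177335175207))))) (c (a (b (l 3) (l 363629380615)) (b (l 363092509591) (a (l 245517781463) (l 16778528)))) (a (b (l 3) (l 374903672311)) (b (l 370071834007) (l 203104979607))))) (c (a (b (c (a (l 320679708439) (l 193978173767)) (a (l 322827190663) (l 191293818919))) (c (l 16778288) (l 16778232))) (l 16778560)) (a (b (a (c (l 324437803319) (l 255718328791))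 (b (l 225653558215) (l 16778416))) (l 16778152)) (l 16779128)))))), by decide +kernel⟩

def k67_pp_101 : ∃ t, chk3 f_pp_101 t 291 493 1 = true :=
  ⟨(b (a (b (l 3) (c (a (b (l 3) (c (l 348596996359) (l 351818220423))) (a (b (l 3) (c (b (l 307257935943) (l 16777384)) (l 224579815719))) (b (c (l 336248963719) (l 338396447255)) (c (l 16777240) (l 16777176))))) (a (b (l 3) (c (l 355576316711) (l 360945028391))) (b (a (l 3) (c (l 341080801719) (l 343228285287))) (c (l 183777626679) (l 181630142919)))))) (b (c (a (a (l 3) (b (l 3) (c (l 326585287207) (l 328732770743)))) (b (c (a (l 352891962311) (l 316921610711)) (a (l 356650058599) (l 260550166967))) (c (c (l 175187691783) (l 174113949895)) (l 167134628263)))) (a (a (l 3) (b (l 3) (b (l 3) (l 246591524151)))) (b (c (a (l 362018767623) (l 253570845175)) (a (l 369534960311) (l 252497103255))) (c (l 165524015399) (l 162839660727))))) (c (a (b (a (c (l 216526752183) (l 211694913815)) (l 16778632)) (l 16776728)) (l 16776368)) (b (a (c (l 174113950167)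 (l 171966466407)) (l 16776576)) (l 16778936))))) (b (a (c (a (b (c (a (b (l 317995354103) (l 241222813191)) (l 166597757079)) (a (l 234780363239) (l 16778536))) (l 16778152)) (l 16779104)) (b (a (c (b (l 228874783271) (l 16778488)) (l 191293819415)) (l 16776680)) (l 16779048))) (l 16779728)) (c (l 16777552) (l 16777552)))), by decide +kernel⟩

def k68_pp_101 : ∃ t, chk3 f_pp_101 t 288 494 1 = true :=
  ⟨(b (l 3) (a (a (l 3) (a (l 3) (b (l 3) (b (l 3) (c (c (l 349670736663) (l 352891962055)) (c (l 356650058359) (l 359871283767))))))) (b (a (l 3) (a (l 3) (b (l 3) (c (c (l 331953997703) (l 334638350855)) (c (l 337322705335) (l 340543930727)))))) (a (a (b (l 3) (c (c (b (l 341080801799) (l 207936816887)) (b (l 304036710247) (l 16777976))) (c (l 221358590327) (l 219747977511)))) (b (c (c (l 341080801975) (l 343765156455)) (c (l 346986381847) (l 350207607255))) (c (c (l 156397209559) (l 16778488)) (c (l 16778432) (l 16778392))))) (c (b (c (a (b (l 293299291943) (l 16777992)) (l 16778496)) (a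 (l 213305526535) (l 16778440))) (l 16779344)) (b (c (b (l 209547430247) (l 16778400)) (l 176261433671)) (l 16776640))))))), by decide +kernel⟩

def k69_pp_101 : ∃ t, chk3 f_pp_101 t 289 494 1 = true :=
  ⟨(b (a (a (l 3) (b (l 3) (b (l 3) (c (c (a (l 351281349575) (b (l 352891962023) (l 250349618919))) (a (l 356650058599) (l 315310998503))) (a (l 356113188231) (c (l 316384739575) (l 245517781415))))))) (b (a (l 3) (b (l 3) (c (c (a (l 349133865735) (b (l 306184194135) (l 234243491031))) (a (l 351818220199) (l 224042944967))) (b (c (l 350207607351) (l 353428832759)) (c (l 225116686871) (l 223506073975)))))) (a (c (b (c (a (l 353428833127) (b (l 353965703751) (l 229411653399))) (a (l 358797542151) (l 235854105079))) (c (c (l 159081564215) (l 155323467767)) (l 153175984359))) (c (b (a (l 364166251191) (l 233169750439)) (l 151565371527)) (b (a (l 366850605687) (l 233706621271)) (l 16778176)))) (c (b (c (l 145659791607) (l 144049178759)) (l 16776512)) (c (c (l 16778064) (l 16778040)) (l 215989877431))))))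 (a (b (a (a (b (l 3) (c (c (b (l 278266906327) (l 16777296)) (l 201494366439)) (c (l 198810011799) (l 196662528071)))) (c (b (c (b (l 3) (l 273971938919)) (l 325511545255)) (b (l 152102242935) (l 16779576))) (b (c (l 327659028823) (l 330343383303)) (l 16778312)))) (c (a (b (c (b (l 258939553527) (l 16777248)) (l 190220077175)) (l 16776784)) (l 16778720)) (b (c (l 160155306215) (l 158544693383)) (l 16776536)))) (c (l 16778656) (l 16778608))) (c (l 16779256) (l 16777928)))), by decide +kernel⟩

def k70_pp_101 : ∃ t, chk3 f_pp_101 t 144 495 1 = true :=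
  ⟨(a (b (a (b (c (c (a (b (l 352355092247) (a (b (l 351818220199) (l 240149071735)) (b (l 231559137143) (l 16777184)))) (b (a (b (l 353965703767) (l 221895460759)) (l 168208369703)) (l 16778160))) (b (a (l 357723801287) (a (b (l 357723800055) (l 219747976871)) (l 166060885943))) (a (a (b (l 356650058327) (l 236927846167)) (l 177335175191)) (l 16778112)))) (a (b (a (l 3) (c (l 363092509399) (l 368998089367))) (c (a (l 318532223911) (l 175187691447)) (c (l 206863075463) (l 204178720871)))) (a (b (c (l 232632879543) (l 230485395831)) (l 16776896)) (c (l 132238018487) (l 16778160))))) (c (c (l 16778232) (l 16778856)) (c (l 16778832) (l 16776184)))) (c (c (l 16778160) (l 16778152)) (l 16778792))) (c (l 16779288) (l 16779176))) (c (l 16778144) (l 16777960))), by decide +kernel⟩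

def k71_pp_101 : ∃ t, chk3 f_pp_101 t 145 247 1 = true :=
  ⟨(a (b (b (a (a (b (c (b (c (a (l 340007060135) (b (l 292762421095) (l 16777352))) (a (l 342154543687) (l 213842397463))) (c (l 136532986007) (l 16778336))) (a (b (c (l 345375769063) (l 348060123559)) (l 150491630407)) (b (c (l 210621171927) (l 207399946391)) (l 16776792)))) (c (l 16776152) (l 16776088))) (c (c (l 16778080) (l 16778704)) (c (l 16778672) (l 16778648)))) (c (l 16777720) (l 16777712))) (c (l 16778896) (l 16778776))) (l 16778496)) (c (l 16778480) (l 16778136))), by decide +kernel⟩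

def k72_pp_101 : ∃ t, chk3 f_pp_101 t 292 492 1 = true :=
  ⟨(b (a (l 3) (a (l 3) (b (l 3) (b (l 3) (c (c (l 352891962615) (l 358797542535)) (c (l 363629380663) (l 369534960615))))))) (a (b (l 3) (c (a (b (l 3) (c (a (l 355576316775) (l 253033974231)) (a (l 360408154871) (l 247128394087)))) (c (b (a (l 351281349383) (l 240685943207)) (l 149417888183)) (b (a (l 353428832919) (l 234243492151)) (l 16778424)))) (a (b (l 3) (c (a (l 365776863895) (l 240685943207)) (a (l 370608702023) (l 236927846727)))) (b (c (a (l 356113187383) (l 230485395671)) (a (l 357723800023) (l 224042944791))) (c (l 16778368) (l 16778304)))))) (b (c (a (b (l 3) (c (a (l 341617672871) (l 226727299495)) (a (l 343228285495) (l 221358590199)))) (c (b (a (l 331417125447) (l 211694914039)) (l 16778384)) (b (a (l 333027738071) (l 207936817367)) (l 16777008)))) (a (b (l 3) (a (c (l 345912639943) (l 348060123511)) (b (l 262697651559) (l 16778528)))) (b (c (a (l 334638350695) (l 204178720871)) (l 222432332743)) (l 16778880))))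 (c (c (l 110763182615) (l 16778416)) (c (l 16778368) (l 16778976)))))), by decide +kernel⟩

def k73_pp_101 : ∃ t, chk3 f_pp_101 t 293 492 1 = true :=
  ⟨(b (a (a (b (l 3) (b (c (c (l 355039446167) (l 359871284263)) (c (l 365239993287) (l 371145573239))) (c (a (c (l 321216578039) (l 272898197799)) (c (l 197736270119) (l 193978173607))) (c (a (l 264308263271) (l 16778576)) (l 212768656135))))) (b (b (l 3) (c (c (l 356113187879) (l 358797542327)) (c (l 362018767703) (l 365776863991)))) (c (b (c (a (l 261087037863) (l 184314497255)) (a (l 257328941351) (l 16778600))) (l 16778240)) (b (c (l 203104979751) (l 200957495975)) (l 16776800))))) (b (a (b (c (c (l 348060124103) (l 350744478535)) (c (l 353428832999) (l 357186929287))) (c (c (a (l 248739006919) (l 16777320)) (a (l 243907168503) (l 16777248))) (c (l 193441303223) (l 191293819415)))) (c (b (a (c (l 231559137895) (l 227801041223)) (l 149417888839)) (l 16779432)) (b (c (l 183777626695) (l 181093272007)) (l 16776688)))) (c (l 16778856) (l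 16778768)))) (a (b (c (c (l 16779000) (l 16776328)) (l 16778880)) (l 16779712)) (c (l 16779648) (l 16774408)))), by decide +kernel⟩

def k74_pp_101 : ∃ t, chk3 f_pp_101 t 146 493 1 = true :=
  ⟨(a (b (a (b (c (a (c (c (l 134922373351) (l 134385502375)) (l 133311760791)) (l 16776256)) (c (l 119353117159) (l 118816246151))) (c (l 16775368) (l 16775336))) (l 16779888)) (l 16778408)) (c (l 16777336) (l 16777112))), by decide +kernel⟩

def k75_pp_101 : ∃ t, chk3 f_pp_101 t 147 246 1 = true :=
  ⟨(b (a (b (c (l 16779096) (l 16778744)) (l 16777968)) (l 16779392)) (l 16779200)), by decide +kernel⟩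

def k76_pp_101 : ∃ t, chk3 f_pp_101 t 73 247 1 = true :=
  ⟨(a (a (l 16778096) (l 16776592)) (l 16773360)), by decide +kernel⟩

def k77_pp_101 : ∃ t, chk3 f_pp_101 t 148 244 1 = true :=
  ⟨(b (l 3) (a (l 3) (b (l 3) (a (b (l 3) (a (l 3) (c (c (l 355576317655) (l 361481897543)) (c (l 366850606551) (l 377588024695))))) (a (b (l 3) (b (c (c (l 358260671607) (l 363092509671)) (c (l 368461218663) (l 373829927671))) (c (c (a (l 291688680039) (l 16778128)) (l 225653558263)) (c (l 224579816327) (l 217063623463))))) (b (c (c (l 358797542887) (l 362018768215)) (c (l 365239993559) (l 369534963383))) (b (c (c (a (l 282025003479) (l 16777440)) (l 215453010807)) (c (l 211694914279) (l 206863075991))) (c (l 16779632) (l 16779472))))))))), by decide +kernel⟩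

def k78_pp_101 : ∃ t, chk3 f_pp_101 t 149 244 1 = true :=
  ⟨(b (a (l 3) (b (l 3) (a (a (l 3) (b (l 3) (b (c (c (l 349670737159) (l 355039446119)) (c (l 367387476951) (l 373293056871))) (c (c (l 255181458631) (l 252497103831)) (c (l 246591523735) (l 240685943655)))))) (b (b (c (c (l 359871284775) (l 364166251927)) (c (l 367387477255) (l 372756187575))) (a (a (l 3) (a (l 3) (c (l 363092512007) (l 367387478999)))) (c (c (l 230485396711) (l 223506074647)) (a (l 247665266807) (l 16778568))))) (c (a (b (c (a (l 312089774087) (l 16777512)) (l 235854105623)) (l 16779760)) (l 16779408)) (a (b (a (l 263771393751) (l 195051916983)) (l 16779576)) (l 16779232))))))) (a (b (a (a (l 3) (b (l 3) (b (l 3) (c (c (l 340543931191) (l 341617672855)) (c (l 343228285447) (l 344838898071)))))) (a (b (l 3) (c (b (c (l 331417125591) (l 332490867239)) (c (l 184851368839) (l 181093272263))) (b (c (l 334101479831) (l 335175221543)) (a (l 199346884295) (l 16779672))))) (b (b (l 3) (c (c (l 322827192215) (l 323364061655))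 (c (l 324437803319) (l 261623909447)))) (c (c (l 141364825047) (l 16778312)) (a (l 147807276679) (l 16779336)))))) (a (b (a (b (a (l 3) (b (l 3) (c (l 289541197767) (l 282561875623)))) (c (a (b (l 291151810551) (l 211158044167)) (l 16779312)) (a (l 227264171975) (l 16778480)))) (c (b (c (l 195051916327) (l 191830690631)) (l 16779504)) (c (l 152639114087) (l 16778592)))) (c (l 16778936) (l 16776184))) (c (l 16778192) (l 16778096)))) (a (b (a (b (b (c (c (l 313700386631) (l 313700385143)) (c (l 257865812935) (l 250886491127))) (c (c (l 16777312) (l 16777216)) (b (l 16778512) (l 16779568)))) (c (l 16776384) (l 16776240))) (c (c (l 16778976) (l 16778904)) (l 16778792))) (l 16779440)) (c (l 16779312) (l 16779288))))), by decide +kernel⟩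

def k79_pp_101 : ∃ t, chk3 f_pp_101 t 74 245 1 = true :=
  ⟨(a (b (a (b (a (l 3) (b (l 3) (c (a (b (l 3) (c (a (l 357186929559) (l 282561874311)) (l 327122158087))) (b (c (a (l 359334413095) (l 272361326775)) (l 318532224711)) (c (l 16778608) (l 16778520)))) (c (a (b (l 3) (l 328732770695)) (b (l 319605965095) (l 16777128))) (a (b (l 3) (l 330343383319)) (b (l 320679706807) (l 16777048))))))) (a (b (c (b (a (l 3) (c (l 334101481495) (l 335712092775))) (a (c (l 342154543975) (l 344302027479)) (c (l 182703885271) (l 181093272247)))) (a (b (l 3) (c (l 346449510999) (l 349133865463))) (b (c (l 337859576295) (l 339470188935)) (a (l 202568109767) (l 16779680))))) (c (a (a (b (c (l 260013295607) (l 252497102711)) (l 16779648)) (l 16778880)) (l 16776496)) (a (c (l 153712855895) (l 151565372119)) (l 16776376)))) (c (b (c (c (l 126332439175) (l 125795568199)) (l 125258697655)) (l 16775488)) (c (l 110763182967) (l 109689441031))))) (b (a (b (b (a (l 3) (c (c (a (l 335712092775) (l 246054651879))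 (l 238001589415)) (c (l 234243492903) (l 230485396407)))) (a (c (c (a (l 346986382023) (l 261623908375)) (l 309405419127)) (c (l 245517782103) (l 241759685607))) (c (l 16779104) (l 16779592)))) (c (c (l 16778584) (l 16779160)) (c (l 16779096) (l 16779032)))) (c (c (l 16778488) (l 16778432)) (l 16779016))) (c (l 16779304) (l 16779304)))) (a (c (l 16778536) (l 16778432)) (l 16778920))) (a (c (l 16778824) (l 16778560)) (l 16779128))), by decide +kernel⟩

def k80_pp_101 : ∃ t, chk3 f_pp_101 t 75 122 1 = true :=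
  ⟨(b (a (b (a (b (a (b (l 3) (b (a (l 3) (c (c (l 343228285767) (l 344302027415)) (a (l 367924350199) (l 279877521799)))) (a (a (l 3) (b (l 3) (c (l 295983648743) (l 287930584919)))) (c (c (l 205789334487) (l 199883754343)) (c (l 16778624) (l 16778536)))))) (b (b (a (l 3) (c (c (l 324974674567) (l 324974674391)) (c (l 291151808903) (l 290078066775)))) (a (c (c (l 334101480167) (l 334638350903)) (a (l 370071833735) (l 256792072343))) (c (c (l 16777416) (l 16777312)) (l 163913404231)))) (c (c (c (l 133848632423) (l 133848632151)) (l 132238019767)) (c (l 16778664) (l 16779240))))) (a (b (c (a (b (c (l 218674236583) (l 212231785383)) (l 16779632)) (l 16779272)) (c (c (l 143512308551) (l 142438566647)) (l 140827954263))) (l 16780952)) (l 16780216))) (b (a (b (c (c (l 16779376) (l 16779280)) (l 119353118743)) (l 16780672)) (l 16779936)) (l 16778216))) (c (l 16776512) (l 16776288))) (c (l 16779400) (l 16779008))) (a (l 16778496) (l 16782040))), by decide +kernel⟩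

def k81_pp_101 : ∃ t, chk3 f_pp_101 t 37 123 1 = true :=
  ⟨(a (b (a (l 16779112) (l 16782984)) (l 16777424)) (c (l 16773688) (l 16771952))), by decide +kernel⟩

def k82_pp_101 : ∃ t, chk3 f_pp_101 t 76 120 1 = true :=
  ⟨(l 3), by decide +kernel⟩

def k83_pp_101 : ∃ t, chk3 f_pp_101 t 77 240 1 = true :=
  ⟨(a (l 3) (b (l 3) (a (l 3) (b (l 3) (a (a (l 3) (b (l 3) (c (l 352355094871) (l 363629383559)))) (a (b (l 3) (c (c (l 341080802295) (l 339470189287)) (b (l 363092509431) (l 269676974391)))) (b (a (l 3) (c (l 367924350791) (l 375440545703))) (c (c (l 251423361959) (l 247665265207)) (c (l 243370297559) (l 16778632)))))))))), by decide +kernel⟩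

def k84_pp_101 : ∃ t, chk3 f_pp_101 t 154 241 1 = true :=
  ⟨(b (a (l 3) (b (l 3) (a (l 3) (a (l 3) (b (l 3) (c (c (l 343228285991) (l 343228285719)) (b (l 360945025895) (l 277730039575)))))))) (a (b (a (l 3) (a (l 3) (c (c (l 363629382039) (l 368998090935)) (c (l 374903670775) (l 381346121559))))) (a (b (a (l 3) (a (l 3) (c (l 351818223575) (l 372756191351)))) (a (c (c (l 344302027831) (l 344838898503)) (b (l 360408160327) (l 277730039591))) (b (c (a (l 319605969127) (l 268603233479)) (l 256255202247)) (c (l 16780104) (l 16779832))))) (b (a (c (c (l 329269644711) (l 328732770935)) (b (l 375977416503) (l 242296558775))) (c (c (l 208473689975) (l 203641851479)) (c (l 198810013015) (l 16778552)))) (c (l 16779472) (l 16779208))))) (b (a (a (b (l 3) (c (c (a (l 337859576679) (l 275045682471)) (l 310479159767)) (b (l 357723802615) (l 217063625543)))) (b (b (l 3) (c (a (l 350744478695) (l 312626647591)) (l 346449515991))) (c (c (l 16778848) (l 16777392)) (l 168208372471)))) (b (a (c (c (l 269140102295)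 (l 264845134695)) (b (l 286856844983) (l 16779952))) (c (l 16779960) (l 16779664))) (c (l 16781776) (l 16781512)))) (c (l 16780640) (l 16780448))))), by decide +kernel⟩

def k85_pp_101 : ∃ t, chk3 f_pp_101 t 155 241 1 = true :=
  ⟨(b (a (b (a (l 3) (b (l 3) (a (b (l 3) (c (l 367924350471) (l 364703127143))) (b (c (l 356650061207) (l 353428837879)) (c (l 228337915175) (l 214916141751)))))) (a (b (c (a (b (l 3) (l 352891965175)) (c (l 327659029335) (l 327122158167))) (a (b (l 3) (l 375977416551)) (b (l 376514287319) (l 240685945991)))) (a (c (c (l 251960232807) (l 250349619639)) (a (l 228874786087) (l 16779928))) (c (l 16779816) (l 16779520)))) (b (c (c (a (l 239075330359) (l 16777120)) (l 165524017415)) (c (l 16779080) (l 16779592))) (l 16781312)))) (b (a (b (b (a (l 3) (c (a (l 313700389543) (l 300815487735)) (l 284709361447))) (a (c (a (l 351281349559) (l 322290323591)) (l 293836166871)) (c (l 16778920) (l 16777328)))) (c (c (l 16779904) (l 16777120)) (l 144586052743))) (b (c (l 16779664)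 (l 16779360)) (l 16780976))) (a (l 16780552) (l 16779184)))) (c (c (l 16780256) (l 16780256)) (l 16780240))), by decide +kernel⟩

def k86_pp_101 : ∃ t, chk3 f_pp_101 t 152 242 1 = true :=
  ⟨(b (l 3) (a (b (l 3) (a (l 3) (b (a (l 3) (b (l 3) (c (l 351818223415) (l 370071836695)))) (a (c (c (l 340543932743) (l 341617673047)) (c (l 343228285607) (l 344838898183))) (c (b (c (l 291688680791) (l 288467454983)) (l 16780016)) (c (l 208473689639) (l 204178722167))))))) (b (a (b (l 3) (a (l 3) (a (l 3) (b (l 3) (c (l 366850608487) (l 367924352535)))))) (b (a (l 3) (c (c (l 357186929975) (l 358797542487)) (c (l 360408155031) (l 362555638519)))) (a (b (a (l 3) (c (l 361481899271) (l 295983649575))) (c (a (l 274508813271) (l 16778840)) (l 213305529095))) (c (c (l 179482660535) (l 175724563879)) (c (l 16778512) (l 16777088)))))) (a (b (a (a (b (l 3) (c (l 295983649543) (l 287930585799))) (b (c (l 351281352151) (l 372219319959)) (c (l 235317235815) (l 16779320)))) (c (b (a (l 286319973223) (l 217600495799))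 (l 16779896)) (c (l 190220078487) (l 189146336119)))) (a (c (l 16779688) (l 16779456)) (l 16781544))) (c (l 16778608) (l 16775800)))))), by decide +kernel⟩

def k87_pp_101 : ∃ t, chk3 f_pp_101 t 153 242 1 = true :=
  ⟨(b (a (b (l 3) (a (b (l 3) (a (l 3) (c (c (l 343228286023) (l 344302027607)) (c (l 345375769239) (l 346986381799))))) (b (a (a (l 3) (c (l 351281352695) (l 371682446967))) (c (c (a (l 359334413383) (l 319069094599)) (l 328195900039)) (b (l 373293059367) (l 241222816855)))) (a (c (b (a (l 362555641095) (l 270750715271)) (l 16780064)) (c (l 213842398807) (l 209010560407))) (c (l 16779744) (l 16779496)))))) (b (a (b (l 3) (a (a (l 3) (b (l 3) (c (l 368461221239) (l 299204875127)))) (c (c (a (l 337859576695) (l 272361327879)) (l 311552902903)) (c (l 311016030471) (l 250349621015))))) (c (c (b (a (l 361481897255) (b (l 345375769415) (l 16777640))) (l 152102244695)) (b (a (l 359871284279) (l 240149074007)) (l 149954760599))) (c (b (a (l 360945025911) (l 236927848183)) (l 16779568))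 (b (a (l 362555638471) (l 234780364071)) (l 16779448))))) (a (b (a (c (b (a (l 294373036759) (l 16778896)) (l 16777320)) (c (l 194515045847) (l 193441303463))) (c (l 16779600) (l 16779344))) (l 16781264)) (l 16780512)))) (a (b (a (b (a (b (c (a (l 351281352151) (l 291688682183)) (a (l 372756185607) (l 278266909479))) (c (c (l 16777600) (l 16777472)) (l 188609466711))) (c (c (l 16777336) (l 16777200)) (l 16779632))) (c (l 16779064) (l 16775568))) (c (l 16775672) (l 16775496))) (l 16781728)) (l 16781520))), by decide +kernel⟩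

def k88_pp_101 : ∃ t, chk3 f_pp_101 t 76 243 1 = true :=
  ⟨(a (b (b (a (a (b (b (a (l 3) (c (a (l 351281352135) (l 282561876823)) (a (l 373829932695) (l 272898200359)))) (a (c (a (l 348596997687) (l 293836165879)) (a (l 358797547271) (l 284709360327))) (c (c (l 16777560) (l 16777440)) (l 183240757527)))) (c (a (c (l 170355855239) (l 169282112839)) (l 16779328)) (c (l 142438567223) (l 16779376)))) (c (c (l 16778968) (l 16778864)) (c (l 16778768) (l 16778672)))) (l 16780728)) (c (l 16781000) (l 16778368))) (c (l 16780696) (l 16780424))) (c (l 16778320) (l 16777872))), by decide +kernel⟩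

def k89_pp_101 : ∃ t, chk3 f_pp_101 t 77 121 1 = true :=
  ⟨(b (a (b (a (a (c (c (l 102710120583) (l 16779080)) (c (l 16779000) (l 16780224))) (l 16781608)) (l 16779552)) (l 16779376)) (l 16778200)) (l 16778120)), by decide +kernel⟩

def k90_pp_101 : ∃ t, chk3 f_pp_101 t 39 60 1 = true :=
  ⟨(b (a (b (a (b (a (l 3) (b (l 3) (a (b (l 3) (c (a (l 355039449303) (c (l 335175222215) (l 335175221911))) (c (l 346449511207) (l 347523252823)))) (b (a (b (l 3) (c (l 371145576023) (l 375440545399))) (b (c (l 368461221351) (l 303499843319)) (c (l 258939556103) (l 16779384)))) (c (c (l 179482661911) (l 176798306823)) (c (l 16779848) (l 16779696))))))) (a (b (a (a (l 3) (b (l 3) (b (l 3) (c (l 365776866759) (l 357723805191))))) (a (b (l 3) (b (c (l 351281352039) (l 300278617751)) (c (l 226727302199) (l 16780024)))) (b (c (b (l 351281350023) (l 304036714311)) (b (l 362555638663) (l 290614941495))) (c (l 16780104) (l 16779784))))) (a (b (a (c (c (l 324437803847) (l 323364061735)) (b (l 369534965367)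 (l 236927849527))) (c (c (l 16778984) (l 16777512)) (l 181630145655))) (c (l 16779504) (l 16779200))) (c (l 16781368) (l 16781096)))) (b (a (b (c (a (b (l 289541199959) (l 16777624)) (l 16777352)) (c (l 189146337559) (l 184314499063))) (c (l 16781792) (l 16781488))) (l 16780880)) (l 16781792)))) (b (c (a (b (a (a (c (l 367387478103) (l 368461219639)) (b (l 352355092279) (b (l 311552906951) (l 16779000)))) (b (a (b (l 352355091719) (l 295983650855)) (c (l 259476426183) (l 254107716663))) (l 16779808))) (a (c (l 16779504) (l 16779328)) (l 16780656))) (c (l 16779816) (l 16779712))) (a (b (a (a (c (l 370608703031) (l 371145573735)) (b (l 363092509991) (b (l 295446779703) (l 16777392)))) (b (a (b (l 362555638503) (l 281488136039)) (l 210084304583)) (l 16779464))) (c (a (l 16779168) (l 16775224)) (l 16778376))) (l 16779552))) (c (l 16781432) (l 16781464)))) (a (c (l 16780112) (l 16779880)) (l 16775608))) (b (c (l 16781928) (l 16781464)) (l 16779552))) (a (a (l 16779296) (l 16774984)) (l 16768560))),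 by decide +kernel⟩

def k91_pp_101 : ∃ t, chk3 f_pp_101 t 19 61 1 = true :=
  ⟨(a (a (b (c (l 16776096) (l 16776216)) (l 16764320)) (b (l 16778704) (l 16735008))) (b (a (l 16762376) (l 16733040)) (l 16743664))), by decide +kernel⟩

def k92_pp_101 : ∃ t, chk3 f_pp_101 t 9 31 1 = true :=
  ⟨(a (b (a (a (b (b (a (c (l 16776096) (l 16776880)) (l 16774128)) (b (l 16780848) (l 16776904))) (b (l 16771000) (l 16742160))) (b (b (l 16780816) (l 16770408)) (l 16758752))) (b (a (l 16776368) (l 16736592)) (l 16777952))) (b (a (a (l 16730376) (l 16722288)) (l 16710368)) (a (l 16710752) (l 16695264)))) (b (a (b (l 16766248) (l 16709536)) (l 16722080)) (a (l 16698024) (l 16672712)))), by decide +kernel⟩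

def k93_pp_101 : ∃ t, chk3 f_pp_101 t 20 28 1 = true :=
  ⟨(l 3), by decide +kernel⟩

def k94_pp_101 : ∃ t, chk3 f_pp_101 t 21 56 1 = true :=
  ⟨(l 3), by decide +kernel⟩

def k95_pp_101 : ∃ t, chk3 f_pp_101 t 42 57 1 = true :=
  ⟨(b (l 3) (a (l 3) (b (l 3) (a (b (l 3) (a (l 3) (b (l 3) (c (a (l 361481898871) (b (l 358797543319) (l 332490875111))) (c (l 359871289639) (l 358260671159)))))) (b (a (a (l 3) (a (l 3) (c (l 364703125815) (l 372219317463)))) (a (b (l 3) (c (b (l 358797543655) (l 345375777111)) (l 354502579863))) (b (c (l 361481903783) (l 392083539319)) (c (b (l 338933326103) (l 16778360)) (l 234780370167))))) (a (b (c (a (b (l 357723802503) (l 357723801239)) (b (l 381346126407) (l 16778008))) (a (l 384567351495) (l 275045686919))) (c (c (l 197199405655) (l 16777960)) (l 175724570295))) (c (l 16782088) (l 16781304)))))))), by decide +kernel⟩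

def k96_pp_101 : ∃ t, chk3 f_pp_101 t 43 114 1 = true :=
  ⟨(a (b (l 3) (a (l 3) (b (l 3) (a (l 3) (a (l 3) (b (l 3) (c (l 362018769415) (l 368998089959)))))))) (b (a (l 3) (b (l 3) (c (a (b (l 3) (l 365240001575)) (a (c (l 385641090119) (l 382956734759)) (b (l 361481898375) (l 278803788631)))) (a (b (l 3) (l 375440542295)) (b (a (l 3) (l 367924347895)) (a (l 342691422583) (l 16777896))))))) (a (b (a (l 3) (b (c (l 364703126279) (l 375977414119)) (c (c (l 377588030983) (l 368461219495)) (a (l 370608702919) (l 315311008199))))) (a (b (c (c (l 362018769927) (l 389399185687)) (a (l 372219316439) (l 373293056647))) (c (a (b (l 357723801303) (l 16783160)) (l 16778512)) (a (l 297057398055) (l 16777824)))) (b (a (b (c (l 353428840887) (l 16779960)) (l 16786040)) (l 16783232)) (l 16787296)))) (c (b (a (b (a (l 360945037703) (c (l 338396455655) (l 329269649847))) (l 16783080)) (l 16782616)) (l 16784680)) (b (a (b (a (l 388325442375) (l 300278617751)) (l 16777680)) (l 16786920)) (l 16783896)))))),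 by decide +kernel⟩

def k97_pp_101 : ∃ t, chk3 f_pp_101 t 43 115 1 = true :=
  ⟨(a (b (a (b (l 3) (a (b (l 3) (c (c (l 383493606439) (l 387251702135)) (a (l 372219316679) (l 371145578359)))) (b (c (a (l 362018769783) (b (l 358797543383) (l 343765164343))) (a (l 371145574055) (l 342154548695))) (c (a (b (l 348597002615) (l 16778304)) (l 16778240)) (a (l 262697656199) (l 16777464)))))) (c (b (a (b (a (l 3) (l 362018770119)) (a (l 360945032551) (b (l 321753458503) (l 16783264)))) (b (a (b (l 359334414567) (l 351281357207)) (b (l 348060131687) (l 16778480))) (l 16778072))) (a (c (l 159618443719) (l 16782608)) (l 16774856))) (b (a (b (l 375440547879) (a (l 389936055271) (l 291688684231))) (b (a (l 357723805287) (l 16780408)) (l 16777232))) (c (l 16780912) (l 16780520))))) (a (b (a (b (c (a (b (l 357723801271) (l 16781152)) (l 16778392)) (a (l 288467463943) (l 16777728))) (a (l 16782832) (l 16786888))) (l 16783352)) (l 16782656)) (l 16789592))) (a (b (c (l 16783288) (l 16782640)) (l 16783448))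 (l 16782296))), by decide +kernel⟩

def k98_pp_101 : ∃ t, chk3 f_pp_101 t 40 58 1 = true :=
  ⟨(l 3), by decide +kernel⟩

def k99_pp_101 : ∃ t, chk3 f_pp_101 t 41 116 1 = true :=
  ⟨(a (l 3) (b (l 3) (a (l 3) (b (l 3) (a (b (l 3) (a (l 3) (c (l 360945033287) (l 371682450583)))) (b (a (l 3) (b (l 3) (c (l 357723806471) (l 382419862183)))) (b (c (a (l 358260672423) (c (l 315847870519) (l 16777688))) (a (l 366313735111) (l 266455750567))) (a (c (a (l 289541205271) (l 16783064)) (l 280414397815)) (l 16782848))))))))), by decide +kernel⟩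

def k100_pp_101 : ∃ t, chk3 f_pp_101 t 82 117 1 = true :=
  ⟨(b (a (l 3) (b (l 3) (a (l 3) (b (l 3) (b (l 3) (a (l 3) (c (a (l 355576317639) (l 341080808119)) (l 356650063447)))))))) (a (b (a (l 3) (b (l 3) (a (l 3) (c (l 358260676439) (l 368998096503))))) (a (b (l 3) (a (a (l 3) (c (l 359334419783) (l 385641093655))) (c (b (a (l 352355092535) (l 355039451543)) (c (l 294909907479) (l 283098747383))) (b (l 374903674807) (l 238001594167))))) (c (b (a (c (l 374903671047) (l 375977412391)) (b (a (l 355576317431) (l 330880260839)) (l 220284853719))) (a (c (l 198810016359) (l 193978177479)) (l 16776704))) (c (b (a (l 373293057415) (l 247665269271)) (l 153712859287)) (b (a (l 373293057063) (l 243907171991)) (l 16779280)))))) (b (c (a (c (b (a (l 3) (l 358797544263)) (a (l 351818225191) (b (l 316384746743) (l 16777976)))) (b (l 379198639463) (a (l 349670742375) (l 226190432791)))) (b (a (b (a (l 355039447015) (l 353428838775)) (a (l 332490873591) (l 16778048))) (c (l 16779376) (l 16777776)))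 (l 16781792))) (a (c (b (l 385104219095) (a (l 348060123959) (l 219211110455))) (b (l 390472927879) (a (l 348060123591) (l 213305529735)))) (b (a (b (l 372756191047) (l 241759690007)) (l 178408922791)) (l 16781232)))) (a (a (c (l 16781744) (l 16781200)) (l 16780088)) (l 16783184))))), by decide +kernel⟩

def k101_pp_101 : ∃ t, chk3 f_pp_101 t 83 117 1 = true :=
  ⟨(b (a (b (a (l 3) (b (l 3) (b (a (l 3) (c (a (l 355576317815) (l 295446784343)) (l 368461223623))) (c (a (l 358260677511) (c (l 16778568) (l 16777744))) (a (l 386177958743) (l 241759689719)))))) (a (a (b (c (l 360408159943) (l 368998096279)) (b (c (a (l 355576317383) (l 333564615431)) (l 301889233847)) (c (l 16778064) (l 16777560)))) (b (c (c (l 351281355559) (l 349133866135)) (b (l 367387477127) (l 294909908391))) (c (l 16777632) (l 16777032)))) (b (a (c (c (l 259476427271) (l 254107717495)) (a (l 234780368631) (l 16777448))) (c (l 16777264) (l 16776648))) (l 16780632)))) (b (c (c (a (b (a (l 374903670871) (l 280951265255))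 (l 16780272)) (l 16781360)) (a (b (a (l 370608703047) (l 275582555271)) (l 16777312)) (l 16781040))) (a (b (a (b (l 367924348519) (l 351818225143)) (b (l 296520524679) (l 16777568))) (l 149954765223)) (l 16780600))) (l 16782776))) (a (c (l 16781368) (l 16781160)) (l 16775352))), by decide +kernel⟩

def k102_pp_101 : ∃ t, chk3 f_pp_101 t 80 118 1 = true :=
  ⟨(b (l 3) (a (b (l 3) (a (l 3) (b (l 3) (a (l 3) (c (c (l 362555642615) (l 363629384055)) (c (l 364703122935) (l 366313735383))))))) (b (a (l 3) (b (l 3) (a (a (l 3) (b (l 3) (c (l 355576317399) (l 383493604087)))) (b (a (l 3) (c (l 374366801687) (l 366313734647))) (c (c (l 277193167767) (l 269676974375)) (a (l 295983649127) (l 16777472))))))) (c (b (a (a (l 3) (b (l 357186933511) (a (l 371682447095) (l 290614939991)))) (a (b (a (l 351281354855) (l 258939556887)) (l 16777512)) (l 16782056))) (a (c (a (b (l 343228286183) (l 16777880)) (l 16777296)) (a (b (l 341617673063) (l 16777656)) (l 16777056))) (l 16780360))) (a (b (a (l 3) (b (l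 368461224599) (a (l 363092514407) (l 250886494023)))) (a (b (a (l 382419862247) (l 284172489383)) (l 183240759655)) (l 16779344))) (b (a (b (a (l 299741748231) (l 16780136)) (l 16777056)) (l 16781600)) (l 16780000))))))), by decide +kernel⟩

def k103_pp_101 : ∃ t, chk3 f_pp_101 t 81 118 1 = true :=
  ⟨(b (a (b (l 3) (a (l 3) (b (a (l 3) (b (l 3) (c (l 358260676359) (l 384030478071)))) (a (c (b (l 357723807079) (a (l 376514287991) (l 306184195495))) (c (l 347523255767) (l 347523252823))) (b (a (c (l 364166256807) (l 317458487351)) (c (l 282025005143) (l 16778848))) (c (l 16777648) (l 16777160))))))) (b (a (b (l 3) (b (l 3) (c (c (l 372756188887) (l 371682445319)) (c (l 372756186759) (l 373829928263))))) (b (a (c (b (l 3) (l 356650060327)) (l 371682448599)) (c (b (l 357723801815) (a (l 378124895511) (l 298131135959))) (c (l 349133865863) (l 348596994599)))) (a (c (b (a (l 355576317447) (l 328732776663)) (c (l 16778056) (l 16777824))) (b (a (l 363629380327) (l 294373039351)) (l 16780112)))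 (c (l 16781400) (l 16782184))))) (b (a (a (b (c (a (l 351818221639) (l 378661766407)) (l 374366801335)) (a (c (l 326048421911) (l 291151813879)) (c (l 16777936) (l 16777520)))) (b (c (a (l 290078072743) (l 16777896)) (l 216526757095)) (l 16782296))) (c (l 16781128) (l 16780664))) (c (l 16781432) (l 16779728))))) (a (c (b (c (a (b (a (l 370071832839) (b (l 350207608135) (l 16777984))) (a (b (l 260013298007) (l 16777304)) (l 16776544))) (l 16780872)) (a (b (a (l 368998090599) (b (l 348060124071) (l 16777752))) (a (l 178945792215) (l 16776304))) (l 16780648))) (l 16782456)) (b (c (a (b (a (l 369534961159) (b (l 345375769143) (l 16777536))) (l 146733537351)) (l 16780448)) (a (b (a (l 370608702679) (b (l 343228285175) (l 16777336))) (l 143512311447)) (l 16780248))) (l 16782288))) (c (l 16779024) (l 16779080)))), by decide +kernel⟩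

def k104_pp_101 : ∃ t, chk3 f_pp_101 t 40 119 1 = true :=
  ⟨(a (b (a (b (a (c (c (b (a (l 3) (l 369534962487)) (a (b (l 355039447319) (a (l 368461219063) (l 285246230215))) (b (l 282561876567) (l 16777456)))) (b (a (l 3) (l 374903671255)) (a (b (l 360408156087) (l 315847869047)) (b (l 275045683335) (l 16777224))))) (b (a (l 3) (c (l 380272380071) (l 385641088935))) (a (b (a (l 3) (l 365239993335)) (a (l 353428837943) (l 233706624903))) (b (a (l 286319975719) (l 16780096)) (l 16776912))))) (c (b (c (a (b (l 372219315927) (l 270213844951)) (b (l 252497104519) (l 16777112))) (a (b (l 372756186455) (l 261623909991)) (l 170355857351))) (l 16781160)) (b (a (b (a (l 362555639127) (l 358797547095)) (c (l 257328942167) (l 251960232599))) (c (l 167671502023) (l 16779584))) (l 16780784)))) (a (b (a (c (l 16780912) (l 16779184)) (l 16780672)) (l 16778968)) (l 16782600))) (a (c (l 16782248) (l 16782136)) (l 16779336))) (a (l 16781776) (l 16783272))) (c (l 16780816) (l 16779896))), by decide +kernel⟩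

def k105_pp_101 : ∃ t, chk3 f_pp_101 t 41 59 1 = true :=
  ⟨(b (a (b (a (b (a (b (c (a (b (a (l 367387482311) (l 274508816519)) (l 16777752)) (l 16777104)) (a (c (l 214916143319) (l 210621175207)) (l 16776568))) (l 16783096)) (l 16784080)) (l 16780632)) (l 16777256)) (l 16777080)) (l 16778864)) (a (l 16771584) (l 16762912))), by decide +kernel⟩

def k106_pp_101 : ∃ t, chk3 f_pp_101 t 21 29 1 = true :=
  ⟨(b (a (b (a (b (a (l 3) (b (a (l 3) (a (l 3) (b (l 3) (c (l 361481903703) (l 391009802775))))) (a (a (b (l 3) (c (b (l 357186931479) (l 381882994759)) (l 376514287783))) (b (c (l 360945028263) (l 371682445447)) (c (b (l 372219320759) (l 16778136)) (b (l 338396453591) (l 16777712))))) (b (c (a (b (l 358260672647) (l 336785842391)) (b (l 324437811063) (l 16778192))) (a (b (l 366850606135) (l 306184200759)) (l 221358596967))) (c (l 16782760) (l 16782040)))))) (a (b (a (b (l 3) (c (a (l 360408157639) (c (l 373293058023) (l 365239993767))) (c (l 371682450279) (l 371682444599)))) (c (b (a (l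 361481903975) (b (l 357723806599) (l 297594267399))) (a (b (l 330343390727) (l 16778160)) (l 16777696))) (b (a (l 388862319463) (b (l 387788571367) (l 276119430631))) (c (l 192367566727) (l 189146339847))))) (a (a (b (c (c (a (l 363092510215) (l 303499841287)) (l 295983651415)) (b (l 361481901623) (l 16777672))) (l 16782208)) (c (l 16781688) (l 16781680))) (l 16782584))) (b (a (a (c (c (l 161765925831) (l 16782576)) (l 151565378551)) (l 16783744)) (l 16773760)) (l 16780824)))) (b (a (b (c (a (b (c (l 381882993623) (l 382956734823)) (a (b (l 357186935511) (l 297057395975)) (l 16778240))) (b (a (b (l 342691422487) (l 16778296)) (l 16778016)) (l 16776656))) (a (b (a (l 372219316775) (l 367924352919)) (a (b (l 381346120215) (l 16777536)) (l 16777592))) (b (a (l 244444046567) (l 16777280)) (l 16775920)))) (b (c (l 16780984) (l 16785544)) (l 16783496))) (c (l 16781440) (l 16781048))) (l 16784768))) (a (c (l 16783952) (l 16782104)) (l 16773440))) (b (a (l 16786304) (l 16769464)) (l 16770672)))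 (a (a (l 16775680) (l 16773616)) (l 16755584))), by decide +kernel⟩

def k107_pp_101 : ∃ t, chk3 f_pp_101 t 44 56 1 = true :=
  ⟨(b (l 3) (a (b (l 3) (a (b (l 3) (a (l 3) (b (l 3) (c (l 365776867767) (l 375977413639))))) (c (b (a (l 3) (c (l 366850609815) (l 371145576247))) (a (b (l 365776872183) (a (l 357186941175) (l 328195909111))) (a (b (l 374366804711) (l 16778680)) (l 16778600)))) (b (a (l 3) (b (l 3) (l 393157286407))) (a (b (l 374366800023) (a (l 382956733031) (l 16777488))) (c (l 211694922215) (l 206863082263))))))) (b (a (c (b (l 3) (a (l 369534971431) (b (l 365776867335) (a (l 362018769255) (l 345912650215))))) (b (l 3) (a (l 380809253847) (c (l 366850611863) (l 365776864103))))) (c (b (a (b (l 3) (l 365240000887)) (b (a (l 363629382983) (l 356113188839)) (a (l 354502584199) (l 16778640)))) (a (b (a (l 351818231895) (l 16783336)) (l 16778720)) (l 16777624))) (b (a (b (l 3) (l 372756186775)) (b (l 384030480487) (l 260550174183))) (a (c (l 228337921239) (l 223506080935)) (l 16776512)))))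 (c (a (b (a (b (a (l 363092511735) (l 381346126695)) (a (l 337322715255) (l 16778768))) (b (l 16778792) (l 16777584))) (l 16786168)) (l 16782552)) (a (b (a (b (l 370608710087) (l 233169759351)) (l 16782648)) (l 16785168)) (l 16781736)))))), by decide +kernel⟩

def k108_pp_101 : ∃ t, chk3 f_pp_101 t 45 56 1 = true :=
  ⟨(b (a (b (a (l 3) (c (a (l 3) (b (l 3) (c (l 392620412663) (l 394231024407)))) (b (l 3) (a (l 3) (b (l 376514284359) (l 371145583415)))))) (a (c (b (c (l 371145579879) (l 375977417143)) (a (b (l 366313738567) (a (l 363092511383) (l 356650067911))) (b (a (l 356650059863) (l 16783280)) (l 16778928)))) (c (b (l 381346125463) (a (l 380272379639) (l 244980919671))) (b (l 410874024935) (a (l 377051153447) (l 237464725319))))) (c (b (a (b (l 364703134775) (a (l 358260680727) (l 16778336))) (b (l 293836167191) (l 16778496))) (l 16787384)) (b (a (b (l 396915377287) (l 294909909575)) (l 16783248)) (l 16786200))))) (c (b (a (b (a (l 370608711895) (c (l 362018777303) (l 351818231623)))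 (a (b (a (l 362555640103) (l 16783296)) (l 16779016)) (l 16778496))) (b (a (b (l 290078081351) (l 16778824)) (l 16777624)) (l 16774608))) (l 16791192)) (b (a (b (a (l 379735510359) (b (l 370608702695) (l 308331682231))) (a (b (l 314774140631) (l 16778176)) (l 16777296))) (c (l 16783768) (l 16785776))) (l 16790352)))) (a (a (b (a (b (a (c (l 231022275207) (l 16778048)) (l 16783072)) (l 16784840)) (l 16773776)) (l 16765424)) (l 16785128)) (l 16775456))), by decide +kernel⟩

def k109_pp_101 : ∃ t, chk3 f_pp_101 t 22 57 1 = true :=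
  ⟨(a (b (a (b (a (c (b (c (a (b (l 3) (l 362018769783)) (b (l 378124901815) (l 16778760))) (a (l 391546670471) (b (l 366313735703) (l 16778472)))) (a (b (a (l 337859585767) (l 16778640)) (l 16777888)) (l 16776408))) (b (a (c (l 391009798839) (l 390472927319)) (b (a (l 368998089895) (l 322827200023)) (l 16783184))) (a (c (l 193441310407) (l 187535729223)) (l 16775440)))) (b (c (a (l 16783200) (l 16775336)) (l 16783600)) (l 16771552))) (c (l 16788280) (l 16787960))) (l 16785872)) (a (l 16779408) (l 16765096))) (a (l 16774872) (l 16774640))), by decide +kernel⟩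

def k110_pp_101 : ∃ t, chk3 f_pp_101 t 23 28 1 = true :=
  ⟨(b (a (b (a (l 16788304) (l 16769888)) (l 16770296)) (l 16769368)) (a (l 16761112) (l 16722240))), by decide +kernel⟩

def k111_pp_101 : ∃ t, chk3 f_pp_101 t 11 29 1 = true :=
  ⟨(a (b (a (l 16773608) (l 16731920)) (a (l 16723048) (l 16685544))) (b (l 16732440) (l 16682216))), by decide +kernel⟩

def k112_pp_101 : ∃ t, chk3 f_pp_101 t 5 15 1 = true :=
  ⟨(a (b (a (b (a (b (c (l 16773832) (l 16774608)) (l 16776832)) (b (l 16753152) (l 16718256))) (a (l 16745072) (l 16718632))) (b (a (l 16729648) (l 16692480)) (l 16705896))) (a (b (a (l 16685720) (l 16670736)) (l 16656576)) (b (l 16649008) (l 16624224)))) (b (a (b (l 16689776) (l 16644624)) (b (l 16638168) (l 16615984))) (a (b (l 16621224) (l 16598592)) (l 16563344)))), by decide +kernel⟩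

def k113_pp_101 : ∃ t, chk3 f_pp_101 t 3 2 1 = true :=
  ⟨(a (l 3) (l 1)), by decide +kernel⟩

def k114_pp_101 : ∃ t, chk3 f_pp_101 t 6 12 1 = true :=
  ⟨(a (b (l 3) (a (l 3) (b (l 3) (a (l 3) (c (b (l 3) (a (b (l 3) (l 401210361127)) (b (a (l 3) (l 386714836647)) (a (l 420000830615) (l 287393746599))))) (b (l 3) (a (b (l 3) (l 413021517703)) (b (a (l 3) (l 394767896615)) (a (l 407115925287) (l 16793472)))))))))) (b (l 1) (a (b (l 1) (a (b (l 1) (b (l 1) (l 173979771319))) (l 1))) (l 1)))), by decide +kernel⟩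

def k115_pp_101 : ∃ t, chk3 f_pp_101 t 12 26 1 = true :=
  ⟨(a (b (l 3) (a (c (b (l 3) (a (l 3) (b (l 3) (a (l 383493614279) (b (l 377051158183) (a (l 368461220807) (l 16778352))))))) (b (l 3) (a (l 3) (b (l 3) (a (l 400673480839) (b (l 414095248375) (l 299741768039))))))) (b (c (a (b (l 3) (a (l 3) (l 384030483959))) (b (a (l 3) (b (l 381346127575) (l 404431582695))) (a (b (l 376514286375) (l 307257960855)) (l 16785816)))) (a (b (l 3) (a (l 3) (l 398525995687))) (b (a (l 3) (b (l 387788575431) (l 380272378423))) (a (b (l 414632118231) (l 283098769447)) (l 16779072))))) (c (a (b (a (c (l 408726543319) (l 411947767223)) (b (l 377588036455) (l 16779656))) (a (b (l 280951287735) (l 16779744)) (l 16777048))) (l 16793648)) (a (b (a (b (l 389399189687) (l 392620420631)) (b (l 316921636023) (l 16779064))) (a (l 194515063927) (l 16775008))) (l 16765488)))))) (b (a (c (b (a (l 3) (b (l 3) (a (l 3) (l 383493610135)))) (a (b (a (l 3) (l 387788582295)) (a (l 384567353463) (b (l 374903672695) (l 16788872))))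 (b (a (b (l 381346126183) (l 375977429303)) (l 262697683815)) (l 16790192)))) (b (a (l 3) (b (l 3) (a (l 3) (l 425906408839)))) (a (b (a (l 3) (l 399062868215)) (a (l 426443281463) (b (l 399062860759) (l 16777704)))) (b (a (b (l 385104219287) (l 347523271751)) (l 16789584)) (l 16798392))))) (c (b (a (b (a (l 387788580423) (l 385641100695)) (a (l 296520552519) (l 16781152))) (b (l 16791728) (l 16774496))) (l 16766288)) (b (a (b (a (l 399599736983) (l 366313744855)) (a (l 277193197239) (l 16779112))) (l 16770728)) (l 16764352)))) (a (a (b (a (b (b (c (l 332490893255) (l 317458506215)) (l 16800920)) (l 16776160)) (l 16769552)) (l 16758432)) (l 16775976)) (l 16775432)))), by decide +kernel⟩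

def k116_pp_101 : ∃ t, chk3 f_pp_101 t 12 27 1 = true :=
  ⟨(a (b (a (b (a (c (b (a (l 3) (b (l 3) (a (l 375977416951) (l 368998091911)))) (a (b (l 377051158935) (a (l 369534962999) (l 314774146327))) (b (a (l 355576332599) (l 16779040)) (l 16779440)))) (b (a (l 3) (b (l 3) (l 400673485063))) (a (b (l 384030478263) (a (l 397452248039) (l 16777520))) (b (a (l 346449523015) (l 16778784)) (l 16777768))))) (c (b (a (b (a (l 373293060503) (l 357723816183)) (l 247128407463)) (l 16779216)) (l 16773736)) (b (a (b (l 368461228919) (l 16778840)) (l 16777376)) (l 16792952)))) (a (a (a (c (l 16786768) (l 16785048)) (l 16769872)) (l 16767760)) (l 16778744))) (b (a (l 16785912) (l 16751272)) (l 16757904))) (a (l 16791384) (l 16756392))) (b (a (l 16772464) (l 16720984)) (l 16748512))), by decide +kernel⟩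

def k117_pp_101 : ∃ t, chk3 f_pp_101 t 13 13 1 = true :=
  ⟨(b (a (a (b (l 16792752) (l 16734544)) (l 16782776)) (l 121366330071)) (a (c (l 16725936) (l 16717696)) (l 16669240))), by decide +kernel⟩

def k118_pp_101 : ∃ t, chk3 f_pp_101 t 6 7 1 = true :=
  ⟨(b (a (b (a (b (c (l 16743696) (l 16738384)) (l 16716728)) (b (l 16683152) (l 16639888))) (a (b (l 16651664) (l 16629568)) (l 16629392))) (b (a (l 16657408) (l 16581008)) (a (l 16576928) (l 16545992)))) (a (b (a (l 16598224) (l 16570176)) (c (l 16690720) (l 16511392))) (b (l 16534400) (l 16690880)))), by decide +kernel⟩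

def k119_pp_101 : ∃ t, chk3 f_pp_101 t 7 3 1 = true :=
  ⟨(b (a (b (l 1) (b (l 1) (l 200823081687))) (l 1)) (b (a (b (a (l 16546904) (l 16558376)) (l 16499192)) (l 237867110055)) (a (b (l 16495024) (l 16647320)) (b (l 16409944) (b (l 16405320) (l 16425144)))))), by decide +kernel⟩

theorem s120_pp_101 : ∃ t, chk3 f_pp_101 t 12 13 1 = true := ex3_b k115_pp_101 k116_pp_101

theorem s121_pp_101 : ∃ t, chk3 f_pp_101 t 6 13 1 = true := ex3_a s120_pp_101 k117_pp_101

theorem s122_pp_101 : ∃ t, chk3 f_pp_101 t 6 6 1 = true := ex3_b k114_pp_101 s121_pp_101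

theorem s123_pp_101 : ∃ t, chk3 f_pp_101 t 6 3 1 = true := ex3_b s122_pp_101 k118_pp_101

theorem s124_pp_101 : ∃ t, chk3 f_pp_101 t 3 3 1 = true := ex3_a s123_pp_101 k119_pp_101

theorem s125_pp_101 : ∃ t, chk3 f_pp_101 t 3 1 1 = true := ex3_b k113_pp_101 s124_pp_101

theorem s126_pp_101 : ∃ t, chk3 f_pp_101 t 22 56 1 = true := ex3_a k107_pp_101 k108_pp_101

theorem s127_pp_101 : ∃ t, chk3 f_pp_101 t 22 28 1 = true := ex3_b s126_pp_101 k109_pp_101

theorem s128_pp_101 : ∃ t, chk3 f_pp_101 t 11 28 1 = true := ex3_a s127_pp_101 k110_pp_101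

theorem s129_pp_101 : ∃ t, chk3 f_pp_101 t 11 14 1 = true := ex3_b s128_pp_101 k111_pp_101

theorem s130_pp_101 : ∃ t, chk3 f_pp_101 t 40 118 1 = true := ex3_a k102_pp_101 k103_pp_101

theorem s131_pp_101 : ∃ t, chk3 f_pp_101 t 40 59 1 = true := ex3_b s130_pp_101 k104_pp_101

theorem s132_pp_101 : ∃ t, chk3 f_pp_101 t 20 59 1 = true := ex3_a s131_pp_101 k105_pp_101

theorem s133_pp_101 : ∃ t, chk3 f_pp_101 t 41 117 1 = true := ex3_a k100_pp_101 k101_pp_101

theorem s134_pp_101 : ∃ t, chk3 f_pp_101 t 41 58 1 = true := ex3_b k99_pp_101 s133_pp_101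

theorem s135_pp_101 : ∃ t, chk3 f_pp_101 t 20 58 1 = true := ex3_a k98_pp_101 s134_pp_101

theorem s136_pp_101 : ∃ t, chk3 f_pp_101 t 20 29 1 = true := ex3_b s135_pp_101 s132_pp_101

theorem s137_pp_101 : ∃ t, chk3 f_pp_101 t 10 29 1 = true := ex3_a s136_pp_101 k106_pp_101

theorem s138_pp_101 : ∃ t, chk3 f_pp_101 t 43 57 1 = true := ex3_b k96_pp_101 k97_pp_101

theorem s139_pp_101 : ∃ t, chk3 f_pp_101 t 21 57 1 = true := ex3_a k95_pp_101 s138_pp_101

theorem s140_pp_101 : ∃ t, chk3 f_pp_101 t 21 28 1 = true := ex3_b k94_pp_101 s139_pp_101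

theorem s141_pp_101 : ∃ t, chk3 f_pp_101 t 10 28 1 = true := ex3_a k93_pp_101 s140_pp_101

theorem s142_pp_101 : ∃ t, chk3 f_pp_101 t 10 14 1 = true := ex3_b s141_pp_101 s137_pp_101

theorem s143_pp_101 : ∃ t, chk3 f_pp_101 t 5 14 1 = true := ex3_a s142_pp_101 s129_pp_101

theorem s144_pp_101 : ∃ t, chk3 f_pp_101 t 5 7 1 = true := ex3_b s143_pp_101 k112_pp_101

theorem s145_pp_101 : ∃ t, chk3 f_pp_101 t 76 242 1 = true := ex3_a k86_pp_101 k87_pp_101

theorem s146_pp_101 : ∃ t, chk3 f_pp_101 t 76 121 1 = true := ex3_b s145_pp_101 k88_pp_101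

theorem s147_pp_101 : ∃ t, chk3 f_pp_101 t 38 121 1 = true := ex3_a s146_pp_101 k89_pp_101

theorem s148_pp_101 : ∃ t, chk3 f_pp_101 t 77 241 1 = true := ex3_a k84_pp_101 k85_pp_101

theorem s149_pp_101 : ∃ t, chk3 f_pp_101 t 77 120 1 = true := ex3_b k83_pp_101 s148_pp_101

theorem s150_pp_101 : ∃ t, chk3 f_pp_101 t 38 120 1 = true := ex3_a k82_pp_101 s149_pp_101

theorem s151_pp_101 : ∃ t, chk3 f_pp_101 t 38 60 1 = true := ex3_b s150_pp_101 s147_pp_101

theorem s152_pp_101 : ∃ t, chk3 f_pp_101 t 19 60 1 = true := ex3_a s151_pp_101 k90_pp_101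

theorem s153_pp_101 : ∃ t, chk3 f_pp_101 t 19 30 1 = true := ex3_b s152_pp_101 k91_pp_101

theorem s154_pp_101 : ∃ t, chk3 f_pp_101 t 74 244 1 = true := ex3_a k77_pp_101 k78_pp_101

theorem s155_pp_101 : ∃ t, chk3 f_pp_101 t 74 122 1 = true := ex3_b s154_pp_101 k79_pp_101

theorem s156_pp_101 : ∃ t, chk3 f_pp_101 t 37 122 1 = true := ex3_a s155_pp_101 k80_pp_101

theorem s157_pp_101 : ∃ t, chk3 f_pp_101 t 37 61 1 = true := ex3_b s156_pp_101 k81_pp_101

theorem s158_pp_101 : ∃ t, chk3 f_pp_101 t 146 492 1 = true := ex3_a k72_pp_101 k73_pp_101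

theorem s159_pp_101 : ∃ t, chk3 f_pp_101 t 146 246 1 = true := ex3_b s158_pp_101 k74_pp_101

theorem s160_pp_101 : ∃ t, chk3 f_pp_101 t 73 246 1 = true := ex3_a s159_pp_101 k75_pp_101

theorem s161_pp_101 : ∃ t, chk3 f_pp_101 t 73 123 1 = true := ex3_b s160_pp_101 k76_pp_101

theorem s162_pp_101 : ∃ t, chk3 f_pp_101 t 144 494 1 = true := ex3_a k68_pp_101 k69_pp_101

theorem s163_pp_101 : ∃ t, chk3 f_pp_101 t 144 247 1 = true := ex3_b s162_pp_101 k70_pp_101

theorem s164_pp_101 : ∃ t, chk3 f_pp_101 t 72 247 1 = true := ex3_a s163_pp_101 k71_pp_101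

theorem s165_pp_101 : ∃ t, chk3 f_pp_101 t 145 493 1 = true := ex3_a k66_pp_101 k67_pp_101

theorem s166_pp_101 : ∃ t, chk3 f_pp_101 t 145 246 1 = true := ex3_b k65_pp_101 s165_pp_101

theorem s167_pp_101 : ∃ t, chk3 f_pp_101 t 72 246 1 = true := ex3_a k64_pp_101 s166_pp_101

theorem s168_pp_101 : ∃ t, chk3 f_pp_101 t 72 123 1 = true := ex3_b s167_pp_101 s164_pp_101

theorem s169_pp_101 : ∃ t, chk3 f_pp_101 t 36 123 1 = true := ex3_a s168_pp_101 s161_pp_101

theorem s170_pp_101 : ∃ t, chk3 f_pp_101 t 147 245 1 = true := ex3_b k62_pp_101 k63_pp_101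

theorem s171_pp_101 : ∃ t, chk3 f_pp_101 t 73 245 1 = true := ex3_a k61_pp_101 s170_pp_101

theorem s172_pp_101 : ∃ t, chk3 f_pp_101 t 73 122 1 = true := ex3_b k60_pp_101 s171_pp_101

theorem s173_pp_101 : ∃ t, chk3 f_pp_101 t 36 122 1 = true := ex3_a k59_pp_101 s172_pp_101

theorem s174_pp_101 : ∃ t, chk3 f_pp_101 t 36 61 1 = true := ex3_b s173_pp_101 s169_pp_101

theorem s175_pp_101 : ∃ t, chk3 f_pp_101 t 18 61 1 = true := ex3_a s174_pp_101 s157_pp_101

theorem s176_pp_101 : ∃ t, chk3 f_pp_101 t 75 243 1 = true := ex3_a k57_pp_101 k58_pp_101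

theorem s177_pp_101 : ∃ t, chk3 f_pp_101 t 75 121 1 = true := ex3_b k56_pp_101 s176_pp_101

theorem s178_pp_101 : ∃ t, chk3 f_pp_101 t 37 121 1 = true := ex3_a k55_pp_101 s177_pp_101

theorem s179_pp_101 : ∃ t, chk3 f_pp_101 t 37 60 1 = true := ex3_b k54_pp_101 s178_pp_101

theorem s180_pp_101 : ∃ t, chk3 f_pp_101 t 18 60 1 = true := ex3_a k53_pp_101 s179_pp_101

theorem s181_pp_101 : ∃ t, chk3 f_pp_101 t 18 30 1 = true := ex3_b s180_pp_101 s175_pp_101

theorem s182_pp_101 : ∃ t, chk3 f_pp_101 t 9 30 1 = true := ex3_a s181_pp_101 s153_pp_101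

theorem s183_pp_101 : ∃ t, chk3 f_pp_101 t 9 15 1 = true := ex3_b s182_pp_101 k92_pp_101

theorem s184_pp_101 : ∃ t, chk3 f_pp_101 t 142 496 1 = true := ex3_a k46_pp_101 k47_pp_101

theorem s185_pp_101 : ∃ t, chk3 f_pp_101 t 142 248 1 = true := ex3_b s184_pp_101 k48_pp_101

theorem s186_pp_101 : ∃ t, chk3 f_pp_101 t 71 248 1 = true := ex3_a s185_pp_101 k49_pp_101

theorem s187_pp_101 : ∃ t, chk3 f_pp_101 t 71 124 1 = true := ex3_b s186_pp_101 k50_pp_101

theorem s188_pp_101 : ∃ t, chk3 f_pp_101 t 280 499 1 = true := ex3_b k42_pp_101 k43_pp_101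

theorem s189_pp_101 : ∃ t, chk3 f_pp_101 t 140 499 1 = true := ex3_a s188_pp_101 k44_pp_101

theorem s190_pp_101 : ∃ t, chk3 f_pp_101 t 140 249 1 = true := ex3_b k41_pp_101 s189_pp_101

theorem s191_pp_101 : ∃ t, chk3 f_pp_101 t 70 249 1 = true := ex3_a s190_pp_101 k45_pp_101

theorem s192_pp_101 : ∃ t, chk3 f_pp_101 t 141 497 1 = true := ex3_a k39_pp_101 k40_pp_101

theorem s193_pp_101 : ∃ t, chk3 f_pp_101 t 141 248 1 = true := ex3_b k38_pp_101 s192_pp_101

theorem s194_pp_101 : ∃ t, chk3 f_pp_101 t 70 248 1 = true := ex3_a k37_pp_101 s193_pp_101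

theorem s195_pp_101 : ∃ t, chk3 f_pp_101 t 70 124 1 = true := ex3_b s194_pp_101 s191_pp_101

theorem s196_pp_101 : ∃ t, chk3 f_pp_101 t 35 124 1 = true := ex3_a s195_pp_101 s187_pp_101

theorem s197_pp_101 : ∃ t, chk3 f_pp_101 t 35 62 1 = true := ex3_b s196_pp_101 k51_pp_101

theorem s198_pp_101 : ∃ t, chk3 f_pp_101 t 278 500 1 = true := ex3_b k32_pp_101 k33_pp_101

theorem s199_pp_101 : ∃ t, chk3 f_pp_101 t 139 500 1 = true := ex3_a s198_pp_101 k34_pp_101

theorem s200_pp_101 : ∃ t, chk3 f_pp_101 t 139 250 1 = true := ex3_b s199_pp_101 k35_pp_101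

theorem s201_pp_101 : ∃ t, chk3 f_pp_101 t 138 250 1 = true := ex3_b k30_pp_101 k31_pp_101

theorem s202_pp_101 : ∃ t, chk3 f_pp_101 t 69 250 1 = true := ex3_a s201_pp_101 s200_pp_101

theorem s203_pp_101 : ∃ t, chk3 f_pp_101 t 69 125 1 = true := ex3_b s202_pp_101 k36_pp_101

theorem s204_pp_101 : ∃ t, chk3 f_pp_101 t 34 125 1 = true := ex3_a k29_pp_101 s203_pp_101

theorem s205_pp_101 : ∃ t, chk3 f_pp_101 t 34 62 1 = true := ex3_b k28_pp_101 s204_pp_101

theorem s206_pp_101 : ∃ t, chk3 f_pp_101 t 17 62 1 = true := ex3_a s205_pp_101 s197_pp_101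

theorem s207_pp_101 : ∃ t, chk3 f_pp_101 t 17 31 1 = true := ex3_b s206_pp_101 k52_pp_101

theorem s208_pp_101 : ∃ t, chk3 f_pp_101 t 8 31 1 = true := ex3_a k27_pp_101 s207_pp_101

theorem s209_pp_101 : ∃ t, chk3 f_pp_101 t 143 495 1 = true := ex3_a k25_pp_101 k26_pp_101

theorem s210_pp_101 : ∃ t, chk3 f_pp_101 t 143 247 1 = true := ex3_b k24_pp_101 s209_pp_101

theorem s211_pp_101 : ∃ t, chk3 f_pp_101 t 71 247 1 = true := ex3_a k23_pp_101 s210_pp_101

theorem s212_pp_101 : ∃ t, chk3 f_pp_101 t 71 123 1 = true := ex3_b k22_pp_101 s211_pp_101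

theorem s213_pp_101 : ∃ t, chk3 f_pp_101 t 35 123 1 = true := ex3_a k21_pp_101 s212_pp_101

theorem s214_pp_101 : ∃ t, chk3 f_pp_101 t 35 61 1 = true := ex3_b k20_pp_101 s213_pp_101

theorem s215_pp_101 : ∃ t, chk3 f_pp_101 t 17 61 1 = true := ex3_a k19_pp_101 s214_pp_101

theorem s216_pp_101 : ∃ t, chk3 f_pp_101 t 17 30 1 = true := ex3_b k18_pp_101 s215_pp_101

theorem s217_pp_101 : ∃ t, chk3 f_pp_101 t 8 30 1 = true := ex3_a k17_pp_101 s216_pp_101

theorem s218_pp_101 : ∃ t, chk3 f_pp_101 t 8 15 1 = true := ex3_b s217_pp_101 s208_pp_101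

theorem s219_pp_101 : ∃ t, chk3 f_pp_101 t 4 15 1 = true := ex3_a s218_pp_101 s183_pp_101

theorem s220_pp_101 : ∃ t, chk3 f_pp_101 t 79 119 1 = true := ex3_b k15_pp_101 k16_pp_101

theorem s221_pp_101 : ∃ t, chk3 f_pp_101 t 39 119 1 = true := ex3_a k14_pp_101 s220_pp_101

theorem s222_pp_101 : ∃ t, chk3 f_pp_101 t 39 59 1 = true := ex3_b k13_pp_101 s221_pp_101

theorem s223_pp_101 : ∃ t, chk3 f_pp_101 t 19 59 1 = true := ex3_a k12_pp_101 s222_pp_101

theorem s224_pp_101 : ∃ t, chk3 f_pp_101 t 19 29 1 = true := ex3_b k11_pp_101 s223_pp_101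

theorem s225_pp_101 : ∃ t, chk3 f_pp_101 t 9 29 1 = true := ex3_a k10_pp_101 s224_pp_101

theorem s226_pp_101 : ∃ t, chk3 f_pp_101 t 9 14 1 = true := ex3_b k9_pp_101 s225_pp_101

theorem s227_pp_101 : ∃ t, chk3 f_pp_101 t 4 14 1 = true := ex3_a k8_pp_101 s226_pp_101

theorem s228_pp_101 : ∃ t, chk3 f_pp_101 t 4 7 1 = true := ex3_b s227_pp_101 s219_pp_101

theorem s229_pp_101 : ∃ t, chk3 f_pp_101 t 2 7 1 = true := ex3_a s228_pp_101 s144_pp_101

theorem s230_pp_101 : ∃ t, chk3 f_pp_101 t 23 27 1 = true := ex3_b k6_pp_101 k7_pp_101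

theorem s231_pp_101 : ∃ t, chk3 f_pp_101 t 11 27 1 = true := ex3_a k5_pp_101 s230_pp_101

theorem s232_pp_101 : ∃ t, chk3 f_pp_101 t 11 13 1 = true := ex3_b k4_pp_101 s231_pp_101

theorem s233_pp_101 : ∃ t, chk3 f_pp_101 t 5 13 1 = true := ex3_a k3_pp_101 s232_pp_101

theorem s234_pp_101 : ∃ t, chk3 f_pp_101 t 5 6 1 = true := ex3_b k2_pp_101 s233_pp_101

theorem s235_pp_101 : ∃ t, chk3 f_pp_101 t 2 6 1 = true := ex3_a k1_pp_101 s234_pp_101

theorem s236_pp_101 : ∃ t, chk3 f_pp_101 t 2 3 1 = true := ex3_b s235_pp_101 s229_pp_101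

theorem s237_pp_101 : ∃ t, chk3 f_pp_101 t 2 1 1 = true := ex3_b k0_pp_101 s236_pp_101

theorem s238_pp_101 : ∃ t, chk3 f_pp_101 t 1 1 1 = true := ex3_a s237_pp_101 s125_pp_101

theorem c_pp_101 : CertN 536870912 536870912 536870912 536870912 469762048 67108864 3 false true true .npn 1 0 1
    ndN4q1 ndN0q1 pcN0 cut_pp_101 Ext.none :=
  certN2 (fam := false) (s1 := true) (s2 := true) (a := 1) (b := 0) (c := 1) (cn := .npn) (n1 := ndN4q1) (n2 := ndN0q1) (pc := pcN0) (cut := cut_pp_101) (xt := Ext.none) (P1 := 536870912) (W1 := 536870912) (P2 := 536870912) (W2 := 536870912) (P3 := 469762048) (W3 := 67108864) (N0 := 3)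
    rfl (fun _ => rfl) s238_pp_101

noncomputable def cut_pp_102 : Cut := Cut.of [[⟨0, 1, 0, 67108864⟩, ⟨1, 0, 0, 67108864⟩, ⟨2, 1, 0, 67108864⟩]]

noncomputable def f_pp_102 : ℕ → ℕ → ℕ → ℕ → Bool := onCell 0 536870912 0 536870912 469762048 67108864
    (rowN 3 2 false true true .npp 1 0 2 (qsf 536870912 536870912 0 536870912 0) ndN4q1 ndN0q2 pcN0 cut_pp_102 Ext.none)

def k0_pp_102 : ∃ t, chk3 f_pp_102 t 1 1 1 = true :=
  ⟨(a (b (b (a (l 2) (a (b (l 16784760) (l 16669048)) (b (l 16893192) (l 16768864)))) (a (a (l 2) (a (l 2) (b (l 2) (l 16470080)))) (a (b (l 16571408) (a (l 16488400) (l 16510808))) (b (l 16642456) (l 16550016))))) (a (b (a (l 2) (b (a (l 2) (l 16484160)) (a (b (l 16516784) (l 16545848)) (l 16527760)))) (b (a (a (l 2) (a (b (l 2) (l 6)) (b (l 16587648) (l 16623776)))) (a (b (l 16576776) (l 16630408)) (b (l 16564976) (l 16592544)))) (a (a (l 6) (a (l 6) (b (l 16724424) (b (l 16753392) (b (l 16747096) (l 16714160)))))) (b (a (a (l 16649512) (l 16638064)) (l 16621864)) (a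 (b (a (l 16697728) (l 16663496)) (a (l 16694544) (l 16679888))) (b (l 16707328) (l 16637864))))))) (b (a (b (l 16501376) (l 16569552)) (b (l 16531296) (l 16534440))) (b (a (a (l 16567328) (l 16557496)) (l 16609120)) (a (b (a (l 16601872) (l 16583616)) (b (l 16776920) (a (l 16632312) (l 16607488)))) (b (l 16559344) (a (l 16602072) (l 16560072)))))))) (a (b (b (b (a (l 16963584) (l 17005456)) (l 16946472)) (a (b (l 16740896) (l 16648416)) (b (l 16848008) (l 16767128)))) (b (a (b (l 16602760) (l 16573152)) (b (l 16697208) (l 16635632))) (b (a (a (l 16545520) (l 16557400)) (l 16577952)) (a (b (l 16538464) (l 16720608)) (b (l 16534224) (l 16586232)))))) (b (a (b (b (l 17027664) (l 16983312)) (b (l 16920712) (l 16850752))) (b (l 17255040) (b (l 16965912) (l 16905584)))) (b (a (l 16730696) (b (l 16822792) (l 16734496))) (a (b (l 16608120) (l 16704880)) (b (l 16638000) (l 16543840))))))), by decide +kernel⟩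

theorem c_pp_102 : CertN 536870912 536870912 0 536870912 469762048 67108864 3 false true true .npp 1 0 2
    ndN4q1 ndN0q2 pcN0 cut_pp_102 Ext.none :=
  certN2 (fam := false) (s1 := true) (s2 := true) (a := 1) (b := 0) (c := 2) (cn := .npp) (n1 := ndN4q1) (n2 := ndN0q2) (pc := pcN0) (cut := cut_pp_102) (xt := Ext.none) (P1 := 536870912) (W1 := 536870912) (P2 := 0) (W2 := 536870912) (P3 := 469762048) (W3 := 67108864) (N0 := 3)
    rfl (fun _ => rfl) k0_pp_102

noncomputable def f_pp_112 : ℕ → ℕ → ℕ → ℕ → Bool := onCell 536870912 536870912 0 536870912 469762048 67108864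
    (rowN 3 2 false true true .dn 1 1 2 (qsf 536870912 536870912 0 536870912 1) ndN4q1 ndN0q2 pcN1 Cut.none Ext.none)

def k0_pp_112 : ∃ t, chk3 f_pp_112 t 1 1 1 = true :=
  ⟨(a (a (b (a (b (l 17052928) (b (l 17001664) (l 16936896))) (b (l 17060504) (l 16996896))) (b (a (l 16812512) (l 16848936)) (a (b (l 16663640) (l 16535008)) (l 16787024)))) (b (b (l 17069328) (a (l 17023368) (l 1))) (b (l 1) (l 1)))) (l 1)), by decide +kernel⟩

theorem c_pp_112 : CertN 536870912 536870912 0 536870912 469762048 67108864 3 false true true .dn 1 1 2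
    ndN4q1 ndN0q2 pcN1 Cut.none Ext.none :=
  certN2 (fam := false) (s1 := true) (s2 := true) (a := 1) (b := 1) (c := 2) (cn := .dn) (n1 := ndN4q1) (n2 := ndN0q2) (pc := pcN1) (cut := Cut.none) (xt := Ext.none) (P1 := 536870912) (W1 := 536870912) (P2 := 0) (W2 := 536870912) (P3 := 469762048) (W3 := 67108864) (N0 := 3)
    rfl (fun _ => rfl) k0_pp_112

noncomputable def cut_pp_202 : Cut := Cut.of [[⟨0, 1, 0, 67108864⟩, ⟨1, 0, 0, 67108864⟩, ⟨2, 1, 0, 67108864⟩]]

noncomputable def f_pp_202 : ℕ → ℕ → ℕ → ℕ → Bool := onCell 0 536870912 0 536870912 469762048 67108864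
    (rowN 3 2 false true true .pp 2 0 2 (qsf 1073741824 536870912 0 536870912 0) ndN4q2 ndN0q2 pcN0 cut_pp_202 Ext.none)

def k0_pp_202 : ∃ t, chk3 f_pp_202 t 1 1 1 = true :=
  ⟨(a (b (a (b (a (b (l 16683448) (l 16616496)) (b (l 16727864) (l 16640112))) (a (b (l 16557696) (l 16511200)) (b (l 16560200) (l 16493544)))) (a (b (b (l 16782344) (l 16659208)) (b (l 16548424) (l 686691334647))) (l 1))) (a (b (a (b (a (l 16498728) (l 16499896)) (a (l 16553640) (l 16547704))) (b (a (l 16495088) (l 16483080)) (a (l 16534144) (l 16513424)))) (a (b (a (b (l 16609416) (l 6)) (b (l 16594352) (a (l 6) (l 16622464)))) (a (l 6) (a (l 6) (l 1)))) (b (a (b (l 16571840) (l 1)) (l 1)) (l 1)))) (b (l 1) (l 1)))) (l 1)), by decide +kernel⟩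

theorem c_pp_202 : CertN 1073741824 536870912 0 536870912 469762048 67108864 3 false true true .pp 2 0 2
    ndN4q2 ndN0q2 pcN0 cut_pp_202 Ext.none :=
  certN2 (fam := false) (s1 := true) (s2 := true) (a := 2) (b := 0) (c := 2) (cn := .pp) (n1 := ndN4q2) (n2 := ndN0q2) (pc := pcN0) (cut := cut_pp_202) (xt := Ext.none) (P1 := 1073741824) (W1 := 536870912) (P2 := 0) (W2 := 536870912) (P3 := 469762048) (W3 := 67108864) (N0 := 3)
    rfl (fun _ => rfl) k0_pp_202

noncomputable def f_pm_001 : ℕ → ℕ → ℕ → ℕ → Bool := onCell 0 536870912 536870912 536870912 469762048 67108864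
    (rowN 3 0 false true false .up 0 0 1 (qsf 0 536870912 536870912 536870912 0) ndN4q0 ndN0q1 pcN0 Cut.none Ext.none)

def k0_pm_001 : ∃ t, chk3 f_pm_001 t 1 1 1 = true :=
  ⟨(l 4), by decide +kernel⟩

theorem c_pm_001 : CertN 0 536870912 536870912 536870912 469762048 67108864 3 false true false .up 0 0 1
    ndN4q0 ndN0q1 pcN0 Cut.none Ext.none :=
  certN0 (fam := false) (s1 := true) (s2 := false) (a := 0) (b := 0) (c := 1) (cn := .up) (n1 := ndN4q0) (n2 := ndN0q1) (pc := pcN0) (cut := Cut.none) (xt := Ext.none) (P1 := 0) (W1 := 536870912) (P2 := 536870912) (W2 := 536870912) (P3 := 469762048) (W3 := 67108864) (N0 := 3)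
    rfl k0_pm_001

noncomputable def f_pm_011 : ℕ → ℕ → ℕ → ℕ → Bool := onCell 0 536870912 536870912 536870912 469762048 67108864
    (rowN 3 0 false true false .pnn 0 1 1 (qsf 0 536870912 536870912 536870912 1) ndN4q0 ndN0q1 pcN1 Cut.none Ext.none)

def k0_pm_011 : ∃ t, chk3 f_pm_011 t 1 1 1 = true :=
  ⟨(l 4), by decide +kernel⟩

theorem c_pm_011 : CertN 0 536870912 536870912 536870912 469762048 67108864 3 false true false .pnn 0 1 1
    ndN4q0 ndN0q1 pcN1 Cut.none Ext.none :=
  certN0 (fam := false) (s1 := true) (s2 := false) (a := 0) (b := 1) (c := 1) (cn := .pnn) (n1 := ndN4q0) (n2 := ndN0q1) (pc := pcN1) (cut := Cut.none) (xt := Ext.none) (P1 := 0) (W1 := 536870912) (P2 := 536870912) (W2 := 536870912) (P3 := 469762048) (W3 := 67108864) (N0 := 3)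
    rfl k0_pm_011

noncomputable def f_pm_012 : ℕ → ℕ → ℕ → ℕ → Bool := onCell 0 536870912 0 536870912 469762048 67108864
    (rowN 3 0 false true false .pnp 0 1 2 (qsf 0 536870912 0 536870912 1) ndN4q0 ndN0q2 pcN1 Cut.none Ext.none)

def k0_pm_012 : ∃ t, chk3 f_pm_012 t 1 1 1 = true :=
  ⟨(a (l 4) (l 4)), by decide +kernel⟩

theorem c_pm_012 : CertN 0 536870912 0 536870912 469762048 67108864 3 false true false .pnp 0 1 2
    ndN4q0 ndN0q2 pcN1 Cut.none Ext.none :=
  certN0 (fam := false) (s1 := true) (s2 := false) (a := 0) (b := 1) (c := 2) (cn := .pnp) (n1 := ndN4q0) (n2 := ndN0q2) (pc := pcN1) (cut := Cut.none) (xt := Ext.none) (P1 := 0) (W1 := 536870912) (P2 := 0) (W2 := 536870912) (P3 := 469762048) (W3 := 67108864) (N0 := 3)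
    rfl k0_pm_012

noncomputable def f_pm_022 : ℕ → ℕ → ℕ → ℕ → Bool := onCell 1073741824 536870912 0 536870912 469762048 67108864
    (rowN 3 2 false true false .pp 0 2 2 (qsf 0 536870912 0 536870912 2) ndN4q0 ndN0q2 pcN2 Cut.none Ext.none)

def k0_pm_022 : ∃ t, chk3 f_pm_022 t 1 1 1 = true :=
  ⟨(l 4), by decide +kernel⟩

theorem c_pm_022 : CertN 0 536870912 0 536870912 469762048 67108864 3 false true false .pp 0 2 2
    ndN4q0 ndN0q2 pcN2 Cut.none Ext.none :=
  certN2 (fam := false) (s1 := true) (s2 := false) (a := 0) (b := 2) (c := 2) (cn := .pp) (n1 := ndN4q0) (n2 := ndN0q2) (pc := pcN2) (cut := Cut.none) (xt := Ext.none) (P1 := 0) (W1 := 536870912) (P2 := 0) (W2 := 536870912) (P3 := 469762048) (W3 := 67108864) (N0 := 3)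
    rfl (fun _ => rfl) k0_pm_022

noncomputable def f_pm_101 : ℕ → ℕ → ℕ → ℕ → Bool := onCell 536870912 536870912 536870912 536870912 469762048 67108864
    (rowN 3 0 false true false .npn 1 0 1 (qsf 536870912 536870912 536870912 536870912 0) ndN4q1 ndN0q1 pcN0 Cut.none Ext.none)

def k0_pm_101 : ∃ t, chk3 f_pm_101 t 1 1 1 = true :=
  ⟨(l 4), by decide +kernel⟩

theorem c_pm_101 : CertN 536870912 536870912 536870912 536870912 469762048 67108864 3 false true false .npn 1 0 1
    ndN4q1 ndN0q1 pcN0 Cut.none Ext.none :=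
  certN0 (fam := false) (s1 := true) (s2 := false) (a := 1) (b := 0) (c := 1) (cn := .npn) (n1 := ndN4q1) (n2 := ndN0q1) (pc := pcN0) (cut := Cut.none) (xt := Ext.none) (P1 := 536870912) (W1 := 536870912) (P2 := 536870912) (W2 := 536870912) (P3 := 469762048) (W3 := 67108864) (N0 := 3)
    rfl k0_pm_101

noncomputable def f_pm_102 : ℕ → ℕ → ℕ → ℕ → Bool := onCell 536870912 536870912 0 536870912 469762048 67108864
    (rowN 3 0 false true false .npp 1 0 2 (qsf 536870912 536870912 0 536870912 0) ndN4q1 ndN0q2 pcN0 Cut.none Ext.none)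

def k0_pm_102 : ∃ t, chk3 f_pm_102 t 1 1 1 = true :=
  ⟨(a (b (b (a (l 2) (a (l 17056072) (l 17060872))) (l 4)) (l 4)) (b (a (b (a (l 17059624) (l 17053520)) (a (l 17064576) (l 17089168))) (b (a (l 17024440) (l 16965728)) (a (l 17094928) (b (l 17068600) (l 17112104))))) (l 4))), by decide +kernel⟩

theorem c_pm_102 : CertN 536870912 536870912 0 536870912 469762048 67108864 3 false true false .npp 1 0 2
    ndN4q1 ndN0q2 pcN0 Cut.none Ext.none :=
  certN0 (fam := false) (s1 := true) (s2 := false) (a := 1) (b := 0) (c := 2) (cn := .npp) (n1 := ndN4q1) (n2 := ndN0q2) (pc := pcN0) (cut := Cut.none) (xt := Ext.none) (P1 := 536870912) (W1 := 536870912) (P2 := 0) (W2 := 536870912) (P3 := 469762048) (W3 := 67108864) (N0 := 3)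
    rfl k0_pm_102

noncomputable def f_pm_112 : ℕ → ℕ → ℕ → ℕ → Bool := onCell 536870912 536870912 0 536870912 469762048 67108864
    (rowN 3 2 false true false .dn 1 1 2 (qsf 536870912 536870912 0 536870912 1) ndN4q1 ndN0q2 pcN1 Cut.none Ext.none)

def k0_pm_112 : ∃ t, chk3 f_pm_112 t 1 1 1 = true :=
  ⟨(a (b (a (l 17046088) (l 4)) (l 4)) (l 1)), by decide +kernel⟩

theorem c_pm_112 : CertN 536870912 536870912 0 536870912 469762048 67108864 3 false true false .dn 1 1 2
    ndN4q1 ndN0q2 pcN1 Cut.none Ext.none :=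
  certN2 (fam := false) (s1 := true) (s2 := false) (a := 1) (b := 1) (c := 2) (cn := .dn) (n1 := ndN4q1) (n2 := ndN0q2) (pc := pcN1) (cut := Cut.none) (xt := Ext.none) (P1 := 536870912) (W1 := 536870912) (P2 := 0) (W2 := 536870912) (P3 := 469762048) (W3 := 67108864) (N0 := 3)
    rfl (fun _ => rfl) k0_pm_112

noncomputable def f_pm_202 : ℕ → ℕ → ℕ → ℕ → Bool := onCell 0 536870912 0 536870912 469762048 67108864
    (rowN 3 2 false true false .pp 2 0 2 (qsf 1073741824 536870912 0 536870912 0) ndN4q2 ndN0q2 pcN0 Cut.none Ext.none)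

def k0_pm_202 : ∃ t, chk3 f_pm_202 t 1 1 1 = true :=
  ⟨(a (b (a (b (a (l 16801248) (l 16847168)) (a (l 16941096) (l 17003024))) (a (b (l 16926080) (l 187939578519)) (l 1))) (b (a (b (a (l 17010872) (l 17099912)) (l 4)) (l 1)) (l 4))) (l 1)), by decide +kernel⟩

theorem c_pm_202 : CertN 1073741824 536870912 0 536870912 469762048 67108864 3 false true false .pp 2 0 2
    ndN4q2 ndN0q2 pcN0 Cut.none Ext.none :=
  certN2 (fam := false) (s1 := true) (s2 := false) (a := 2) (b := 0) (c := 2) (cn := .pp) (n1 := ndN4q2) (n2 := ndN0q2) (pc := pcN0) (cut := Cut.none) (xt := Ext.none) (P1 := 1073741824) (W1 := 536870912) (P2 := 0) (W2 := 536870912) (P3 := 469762048) (W3 := 67108864) (N0 := 3)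
    rfl (fun _ => rfl) k0_pm_202

noncomputable def f_mm_001 : ℕ → ℕ → ℕ → ℕ → Bool := onCell 0 536870912 536870912 536870912 469762048 67108864
    (rowN 3 0 false false false .up 0 0 1 (qsf 0 536870912 536870912 536870912 0) ndN4q0 ndN0q1 pcN0 Cut.none Ext.none)

def k0_mm_001 : ∃ t, chk3 f_mm_001 t 1 1 1 = true :=
  ⟨(l 5), by decide +kernel⟩

theorem c_mm_001 : CertN 0 536870912 536870912 536870912 469762048 67108864 3 false false false .up 0 0 1
    ndN4q0 ndN0q1 pcN0 Cut.none Ext.none :=
  certN0 (fam := false) (s1 := false) (s2 := false) (a := 0) (b := 0) (c := 1) (cn := .up) (n1 := ndN4q0) (n2 := ndN0q1) (pc := pcN0) (cut := Cut.none) (xt := Ext.none) (P1 := 0) (W1 := 536870912) (P2 := 536870912) (W2 := 536870912) (P3 := 469762048) (W3 := 67108864) (N0 := 3)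
    rfl k0_mm_001

noncomputable def f_mm_011 : ℕ → ℕ → ℕ → ℕ → Bool := onCell 0 536870912 536870912 536870912 469762048 67108864
    (rowN 3 0 false false false .pnn 0 1 1 (qsf 0 536870912 536870912 536870912 1) ndN4q0 ndN0q1 pcN1 Cut.none Ext.none)

def k0_mm_011 : ∃ t, chk3 f_mm_011 t 1 1 1 = true :=
  ⟨(l 5), by decide +kernel⟩

theorem c_mm_011 : CertN 0 536870912 536870912 536870912 469762048 67108864 3 false false false .pnn 0 1 1
    ndN4q0 ndN0q1 pcN1 Cut.none Ext.none :=
  certN0 (fam := false) (s1 := false) (s2 := false) (a := 0) (b := 1) (c := 1) (cn := .pnn) (n1 := ndN4q0) (n2 := ndN0q1) (pc := pcN1) (cut := Cut.none) (xt := Ext.none) (P1 := 0) (W1 := 536870912) (P2 := 536870912) (W2 := 536870912) (P3 := 469762048) (W3 := 67108864) (N0 := 3)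
    rfl k0_mm_011

noncomputable def f_mm_012 : ℕ → ℕ → ℕ → ℕ → Bool := onCell 0 536870912 0 536870912 469762048 67108864
    (rowN 3 0 false false false .pnp 0 1 2 (qsf 0 536870912 0 536870912 1) ndN4q0 ndN0q2 pcN1 Cut.none Ext.none)

def k0_mm_012 : ∃ t, chk3 f_mm_012 t 1 1 1 = true :=
  ⟨(l 5), by decide +kernel⟩

theorem c_mm_012 : CertN 0 536870912 0 536870912 469762048 67108864 3 false false false .pnp 0 1 2
    ndN4q0 ndN0q2 pcN1 Cut.none Ext.none :=
  certN0 (fam := false) (s1 := false) (s2 := false) (a := 0) (b := 1) (c := 2) (cn := .pnp) (n1 := ndN4q0) (n2 := ndN0q2) (pc := pcN1) (cut := Cut.none) (xt := Ext.none) (P1 := 0) (W1 := 536870912) (P2 := 0) (W2 := 536870912) (P3 := 469762048) (W3 := 67108864) (N0 := 3)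
    rfl k0_mm_012

noncomputable def f_mm_022 : ℕ → ℕ → ℕ → ℕ → Bool := onCell 0 536870912 0 536870912 469762048 67108864
    (rowN 3 0 false false false .pp 0 2 2 (qsf 0 536870912 0 536870912 2) ndN4q0 ndN0q2 pcN2 Cut.none Ext.none)

def k0_mm_022 : ∃ t, chk3 f_mm_022 t 1 1 1 = true :=
  ⟨(l 5), by decide +kernel⟩

theorem c_mm_022 : CertN 0 536870912 0 536870912 469762048 67108864 3 false false false .pp 0 2 2
    ndN4q0 ndN0q2 pcN2 Cut.none Ext.none :=
  certN0 (fam := false) (s1 := false) (s2 := false) (a := 0) (b := 2) (c := 2) (cn := .pp) (n1 := ndN4q0) (n2 := ndN0q2) (pc := pcN2) (cut := Cut.none) (xt := Ext.none) (P1 := 0) (W1 := 536870912) (P2 := 0) (W2 := 536870912) (P3 := 469762048) (W3 := 67108864) (N0 := 3)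
    rfl k0_mm_022

noncomputable def f_mm_101 : ℕ → ℕ → ℕ → ℕ → Bool := onCell 0 536870912 536870912 536870912 469762048 67108864
    (rowN 3 2 false false false .npn 1 0 1 (qsf 536870912 536870912 536870912 536870912 0) ndN4q1 ndN0q1 pcN0 Cut.none Ext.none)

def k0_mm_101 : ∃ t, chk3 f_mm_101 t 1 1 1 = true :=
  ⟨(l 5), by decide +kernel⟩

theorem c_mm_101 : CertN 536870912 536870912 536870912 536870912 469762048 67108864 3 false false false .npn 1 0 1
    ndN4q1 ndN0q1 pcN0 Cut.none Ext.none :=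
  certN2 (fam := false) (s1 := false) (s2 := false) (a := 1) (b := 0) (c := 1) (cn := .npn) (n1 := ndN4q1) (n2 := ndN0q1) (pc := pcN0) (cut := Cut.none) (xt := Ext.none) (P1 := 536870912) (W1 := 536870912) (P2 := 536870912) (W2 := 536870912) (P3 := 469762048) (W3 := 67108864) (N0 := 3)
    rfl (fun _ => rfl) k0_mm_101

noncomputable def f_mm_102 : ℕ → ℕ → ℕ → ℕ → Bool := onCell 536870912 536870912 0 536870912 469762048 67108864
    (rowN 3 0 false false false .npp 1 0 2 (qsf 536870912 536870912 0 536870912 0) ndN4q1 ndN0q2 pcN0 Cut.none Ext.none)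

def k0_mm_102 : ∃ t, chk3 f_mm_102 t 1 1 1 = true :=
  ⟨(l 5), by decide +kernel⟩

theorem c_mm_102 : CertN 536870912 536870912 0 536870912 469762048 67108864 3 false false false .npp 1 0 2
    ndN4q1 ndN0q2 pcN0 Cut.none Ext.none :=
  certN0 (fam := false) (s1 := false) (s2 := false) (a := 1) (b := 0) (c := 2) (cn := .npp) (n1 := ndN4q1) (n2 := ndN0q2) (pc := pcN0) (cut := Cut.none) (xt := Ext.none) (P1 := 536870912) (W1 := 536870912) (P2 := 0) (W2 := 536870912) (P3 := 469762048) (W3 := 67108864) (N0 := 3)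
    rfl k0_mm_102

noncomputable def f_mm_112 : ℕ → ℕ → ℕ → ℕ → Bool := onCell 536870912 536870912 0 536870912 469762048 67108864
    (rowN 3 0 false false false .dn 1 1 2 (qsf 536870912 536870912 0 536870912 1) ndN4q1 ndN0q2 pcN1 Cut.none Ext.none)

def k0_mm_112 : ∃ t, chk3 f_mm_112 t 1 1 1 = true :=
  ⟨(l 5), by decide +kernel⟩

theorem c_mm_112 : CertN 536870912 536870912 0 536870912 469762048 67108864 3 false false false .dn 1 1 2
    ndN4q1 ndN0q2 pcN1 Cut.none Ext.none :=
  certN0 (fam := false) (s1 := false) (s2 := false) (a := 1) (b := 1) (c := 2) (cn := .dn) (n1 := ndN4q1) (n2 := ndN0q2) (pc := pcN1) (cut := Cut.none) (xt := Ext.none) (P1 := 536870912) (W1 := 536870912) (P2 := 0) (W2 := 536870912) (P3 := 469762048) (W3 := 67108864) (N0 := 3)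
    rfl k0_mm_112

noncomputable def f_mm_202 : ℕ → ℕ → ℕ → ℕ → Bool := onCell 1073741824 536870912 0 536870912 469762048 67108864
    (rowN 3 0 false false false .pp 2 0 2 (qsf 1073741824 536870912 0 536870912 0) ndN4q2 ndN0q2 pcN0 Cut.none Ext.none)

def k0_mm_202 : ∃ t, chk3 f_mm_202 t 1 1 1 = true :=
  ⟨(l 5), by decide +kernel⟩

theorem c_mm_202 : CertN 1073741824 536870912 0 536870912 469762048 67108864 3 false false false .pp 2 0 2
    ndN4q2 ndN0q2 pcN0 Cut.none Ext.none :=
  certN0 (fam := false) (s1 := false) (s2 := false) (a := 2) (b := 0) (c := 2) (cn := .pp) (n1 := ndN4q2) (n2 := ndN0q2) (pc := pcN0) (cut := Cut.none) (xt := Ext.none) (P1 := 1073741824) (W1 := 536870912) (P2 := 0) (W2 := 536870912) (P3 := 469762048) (W3 := 67108864) (N0 := 3)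
    rfl k0_mm_202

end Pool.Agent.Strip051.G.I7_16_1_2.Tab.C.NB40

namespace Pool.Agent.Strip051.G.I7_16_1_2.Tab.C.NB41

open Pool.Agent.Strip051.PB Pool.Agent.Strip051.PB.T
open Pool.Agent.Strip051.G.I7_16_1_2.Tab

noncomputable def f_pp_001 : ℕ → ℕ → ℕ → ℕ → Bool := onCell 0 536870912 0 536870912 469762048 67108864
    (rowN 3 1 false true true .up 0 0 1 (qsf 0 536870912 536870912 536870912 0) ndN4q0 ndN1q1 pcN0 Cut.none Ext.none)

def k0_pp_001 : ∃ t, chk3 f_pp_001 t 1 1 1 = true :=
  ⟨(l 3), by decide +kernel⟩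

theorem c_pp_001 : CertN 0 536870912 536870912 536870912 469762048 67108864 3 false true true .up 0 0 1
    ndN4q0 ndN1q1 pcN0 Cut.none Ext.none :=
  certN1 (fam := false) (s1 := true) (s2 := true) (a := 0) (b := 0) (c := 1) (cn := .up) (n1 := ndN4q0) (n2 := ndN1q1) (pc := pcN0) (cut := Cut.none) (xt := Ext.none) (P1 := 0) (W1 := 536870912) (P2 := 536870912) (W2 := 536870912) (P3 := 469762048) (W3 := 67108864) (N0 := 3)
    rfl (fun _ => rfl) k0_pp_001

noncomputable def f_pp_011 : ℕ → ℕ → ℕ → ℕ → Bool := onCell 0 536870912 536870912 536870912 469762048 67108864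
    (rowN 3 0 false true true .pnn 0 1 1 (qsf 0 536870912 536870912 536870912 1) ndN4q0 ndN1q1 pcN1 Cut.none Ext.none)

def k0_pp_011 : ∃ t, chk3 f_pp_011 t 1 1 1 = true :=
  ⟨(a (b (l 3) (b (a (a (b (l 3) (l 134923084471)) (l 3)) (l 3)) (a (b (a (b (l 16906840) (l 16923568)) (b (l 3) (l 16879408))) (b (a (a (l 16965808) (l 16924864)) (l 16881408)) (a (a (l 16963424) (l 16919144)) (l 16869408)))) (b (l 3) (a (b (l 16855656) (l 16832656)) (b (l 3) (l 133311957351))))))) (l 3)), by decide +kernel⟩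

theorem c_pp_011 : CertN 0 536870912 536870912 536870912 469762048 67108864 3 false true true .pnn 0 1 1
    ndN4q0 ndN1q1 pcN1 Cut.none Ext.none :=
  certN0 (fam := false) (s1 := true) (s2 := true) (a := 0) (b := 1) (c := 1) (cn := .pnn) (n1 := ndN4q0) (n2 := ndN1q1) (pc := pcN1) (cut := Cut.none) (xt := Ext.none) (P1 := 0) (W1 := 536870912) (P2 := 536870912) (W2 := 536870912) (P3 := 469762048) (W3 := 67108864) (N0 := 3)
    rfl k0_pp_011

noncomputable def f_pp_012_a : ℕ → ℕ → ℕ → ℕ → Bool := onCell 536870912 536870912 0 536870912 469762048 67108864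
    (rowN 3 2 false true true .pnp 0 1 2 (qsf 0 536870912 0 536870912 1) ndN4q0 ndN1q2a pcN1 Cut.none Ext.none)

def k0_pp_012_a : ∃ t, chk3 f_pp_012_a t 1 1 1 = true :=
  ⟨(a (a (b (a (l 2) (l 16880744)) (b (a (l 2) (l 16709616)) (a (b (l 16560944) (l 16490336)) (b (l 16605608) (l 16526128))))) (b (b (l 17003488) (l 16923728)) (b (a (l 16777208) (l 16852536)) (a (l 16762704) (l 16721040))))) (b (a (b (l 17086096) (l 17037624)) (a (l 17115208) (l 17146880))) (a (b (l 17041280) (a (l 16805560) (l 16884088))) (b (a (l 17045576) (l 17098304)) (a (l 16950872) (b (l 17048288) (l 17002512))))))), by decide +kernel⟩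

theorem c_pp_012_a : CertN 0 536870912 0 536870912 469762048 67108864 3 false true true .pnp 0 1 2
    ndN4q0 ndN1q2a pcN1 Cut.none Ext.none :=
  certN2 (fam := false) (s1 := true) (s2 := true) (a := 0) (b := 1) (c := 2) (cn := .pnp) (n1 := ndN4q0) (n2 := ndN1q2a) (pc := pcN1) (cut := Cut.none) (xt := Ext.none) (P1 := 0) (W1 := 536870912) (P2 := 0) (W2 := 536870912) (P3 := 469762048) (W3 := 67108864) (N0 := 3)
    rfl (fun _ => rfl) k0_pp_012_a

noncomputable def f_pp_012_b : ℕ → ℕ → ℕ → ℕ → Bool := onCell 0 536870912 536870912 536870912 469762048 67108864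
    (rowN 3 1 false true true .pnp 0 1 2 (qsf 0 536870912 1239849684 370763052 1) ndN4q0 ndN1q2b pcN1 Cut.none Ext.none)

def k0_pp_012_b : ∃ t, chk3 f_pp_012_b t 1 1 1 = true :=
  ⟨(a (b (l 1) (b (l 1) (a (l 1) (l 386044905767)))) (b (b (l 1) (a (l 1) (l 324304529607))) (a (b (l 364569967703) (l 17337784)) (b (l 17298496) (l 17835688))))), by decide +kernel⟩

theorem c_pp_012_b : CertN 0 536870912 1239849684 370763052 469762048 67108864 3 false true true .pnp 0 1 2
    ndN4q0 ndN1q2b pcN1 Cut.none Ext.none :=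
  certN1 (fam := false) (s1 := true) (s2 := true) (a := 0) (b := 1) (c := 2) (cn := .pnp) (n1 := ndN4q0) (n2 := ndN1q2b) (pc := pcN1) (cut := Cut.none) (xt := Ext.none) (P1 := 0) (W1 := 536870912) (P2 := 1239849684) (W2 := 370763052) (P3 := 469762048) (W3 := 67108864) (N0 := 3)
    rfl (fun _ => rfl) k0_pp_012_b

noncomputable def f_pp_022_a : ℕ → ℕ → ℕ → ℕ → Bool := onCell 1073741824 536870912 0 536870912 469762048 67108864
    (rowN 3 2 false true true .pp 0 2 2 (qsf 0 536870912 0 536870912 2) ndN4q0 ndN1q2a pcN2 Cut.none Ext.none)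

def k0_pp_022_a : ∃ t, chk3 f_pp_022_a t 1 1 1 = true :=
  ⟨(a (a (b (a (l 17092768) (l 17010248)) (b (a (l 17062136) (l 16952784)) (a (b (l 17018680) (a (l 17009264) (l 16947240))) (b (l 16904584) (l 1))))) (b (a (l 16963688) (l 1)) (b (l 1) (l 1)))) (l 1)), by decide +kernel⟩

theorem c_pp_022_a : CertN 0 536870912 0 536870912 469762048 67108864 3 false true true .pp 0 2 2
    ndN4q0 ndN1q2a pcN2 Cut.none Ext.none :=
  certN2 (fam := false) (s1 := true) (s2 := true) (a := 0) (b := 2) (c := 2) (cn := .pp) (n1 := ndN4q0) (n2 := ndN1q2a) (pc := pcN2) (cut := Cut.none) (xt := Ext.none) (P1 := 0) (W1 := 536870912) (P2 := 0) (W2 := 536870912) (P3 := 469762048) (W3 := 67108864) (N0 := 3)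
    rfl (fun _ => rfl) k0_pp_022_a

noncomputable def f_pp_022_b : ℕ → ℕ → ℕ → ℕ → Bool := onCell 1073741824 536870912 1239849684 370763052 469762048 67108864
    (rowN 3 2 false true true .pp 0 2 2 (qsf 0 536870912 1239849684 370763052 2) ndN4q0 ndN1q2b pcN2 Cut.none Ext.none)

def k0_pp_022_b : ∃ t, chk3 f_pp_022_b t 1 1 1 = true :=
  ⟨(a (a (a (b (l 17395016) (l 17804800)) (l 4)) (l 4)) (l 4)), by decide +kernel⟩

theorem c_pp_022_b : CertN 0 536870912 1239849684 370763052 469762048 67108864 3 false true true .pp 0 2 2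
    ndN4q0 ndN1q2b pcN2 Cut.none Ext.none :=
  certN2 (fam := false) (s1 := true) (s2 := true) (a := 0) (b := 2) (c := 2) (cn := .pp) (n1 := ndN4q0) (n2 := ndN1q2b) (pc := pcN2) (cut := Cut.none) (xt := Ext.none) (P1 := 0) (W1 := 536870912) (P2 := 1239849684) (W2 := 370763052) (P3 := 469762048) (W3 := 67108864) (N0 := 3)
    rfl (fun _ => rfl) k0_pp_022_b

noncomputable def f_pp_023 : ℕ → ℕ → ℕ → ℕ → Bool := onCell 0 536870912 1073741824 536870912 469762048 67108864
    (rowN 3 1 false true true .up 0 2 3 (qsf 0 536870912 1610612736 536870912 2) ndN4q0 ndN1q3 pcN2 Cut.none Ext.none)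

def k0_pp_023 : ∃ t, chk3 f_pp_023 t 1 1 1 = true :=
  ⟨(b (b (a (l 1) (l 663071176599)) (l 4)) (l 4)), by decide +kernel⟩

theorem c_pp_023 : CertN 0 536870912 1610612736 536870912 469762048 67108864 3 false true true .up 0 2 3
    ndN4q0 ndN1q3 pcN2 Cut.none Ext.none :=
  certN1 (fam := false) (s1 := true) (s2 := true) (a := 0) (b := 2) (c := 3) (cn := .up) (n1 := ndN4q0) (n2 := ndN1q3) (pc := pcN2) (cut := Cut.none) (xt := Ext.none) (P1 := 0) (W1 := 536870912) (P2 := 1610612736) (W2 := 536870912) (P3 := 469762048) (W3 := 67108864) (N0 := 3)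
    rfl (fun _ => rfl) k0_pp_023

noncomputable def f_pp_033 : ℕ → ℕ → ℕ → ℕ → Bool := onCell 1610612736 536870912 1610612736 536870912 469762048 67108864
    (rowN 3 2 false true true .pnn 0 3 3 (qsf 0 536870912 1610612736 536870912 3) ndN4q0 ndN1q3 pcN3 Cut.none Ext.none)

def k0_pp_033 : ∃ t, chk3 f_pp_033 t 1 1 1 = true :=
  ⟨(l 4), by decide +kernel⟩

theorem c_pp_033 : CertN 0 536870912 1610612736 536870912 469762048 67108864 3 false true true .pnn 0 3 3
    ndN4q0 ndN1q3 pcN3 Cut.none Ext.none :=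
  certN2 (fam := false) (s1 := true) (s2 := true) (a := 0) (b := 3) (c := 3) (cn := .pnn) (n1 := ndN4q0) (n2 := ndN1q3) (pc := pcN3) (cut := Cut.none) (xt := Ext.none) (P1 := 0) (W1 := 536870912) (P2 := 1610612736) (W2 := 536870912) (P3 := 469762048) (W3 := 67108864) (N0 := 3)
    rfl (fun _ => rfl) k0_pp_033

noncomputable def f_pp_101 : ℕ → ℕ → ℕ → ℕ → Bool := onCell 536870912 536870912 536870912 536870912 469762048 67108864
    (rowN 3 0 false true true .npn 1 0 1 (qsf 536870912 536870912 536870912 536870912 0) ndN4q1 ndN1q1 pcN0 Cut.none Ext.none)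

def k0_pp_101 : ∃ t, chk3 f_pp_101 t 1 1 1 = true :=
  ⟨(l 3), by decide +kernel⟩

theorem c_pp_101 : CertN 536870912 536870912 536870912 536870912 469762048 67108864 3 false true true .npn 1 0 1
    ndN4q1 ndN1q1 pcN0 Cut.none Ext.none :=
  certN0 (fam := false) (s1 := true) (s2 := true) (a := 1) (b := 0) (c := 1) (cn := .npn) (n1 := ndN4q1) (n2 := ndN1q1) (pc := pcN0) (cut := Cut.none) (xt := Ext.none) (P1 := 536870912) (W1 := 536870912) (P2 := 536870912) (W2 := 536870912) (P3 := 469762048) (W3 := 67108864) (N0 := 3)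
    rfl k0_pp_101

noncomputable def cut_pp_102_a : Cut := Cut.of [[⟨0, 1, 0, 67108864⟩, ⟨1, 0, 0, 67108864⟩, ⟨2, 1, 0, 67108864⟩]]

noncomputable def f_pp_102_a : ℕ → ℕ → ℕ → ℕ → Bool := onCell 0 536870912 0 536870912 469762048 67108864
    (rowN 3 2 false true true .npp 1 0 2 (qsf 536870912 536870912 0 536870912 0) ndN4q1 ndN1q2a pcN0 cut_pp_102_a Ext.none)

def k0_pp_102_a : ∃ t, chk3 f_pp_102_a t 1 1 1 = true :=
  ⟨(a (b (a (a (l 2) (a (l 2) (b (l 2) (l 16434992)))) (a (b (l 16403816) (a (l 16418376) (l 16426072))) (b (l 16448464) (l 16442280)))) (a (b (a (l 2) (a (b (l 2) (a (l 16572632) (l 16523080))) (b (l 16465552) (b (l 16499752) (l 16525616))))) (a (a (b (l 2) (l 6)) (a (b (b (l 2) (l 6)) (l 6)) (b (b (l 16587224) (b (l 16613224) (l 16631288))) (b (a (l 6) (l 16697920)) (b (l 16709272) (l 16713696)))))) (b (a (b (a (l 16576816) (l 16567032)) (a (l 16610520) (l 16599136))) (b (l 16553496) (l 16604016))) (a (b (a (l 16750768) (l 16653856)) (a (b (l 16673624) (l 16735032)) (l 16668960)))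 (b (l 16698160) (a (l 16696880) (l 16641392))))))) (b (a (b (a (l 16460808) (l 16458760)) (a (l 16501856) (l 16493000))) (b (l 16460064) (l 16483728))) (a (b (a (l 16718344) (l 16534720)) (a (b (l 16591184) (l 16670512)) (b (l 16570144) (l 16597640)))) (b (a (l 16520736) (l 16508376)) (b (l 16646328) (l 16689880))))))) (a (b (a (b (l 16540032) (l 16496848)) (b (l 16662088) (l 16580912))) (b (a (b (l 16484736) (l 16487832)) (b (l 16534832) (l 16513456))) (a (b (l 16539616) (b (l 16550048) (l 16607224))) (b (l 16497632) (b (l 16487864) (l 16487120)))))) (b (a (b (l 16760880) (l 16659104)) (b (l 16833856) (l 16725008))) (b (a (l 16569712) (l 16615224)) (a (b (l 16510640) (l 16475008)) (b (l 16532816) (l 16476504))))))), by decide +kernel⟩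

theorem c_pp_102_a : CertN 536870912 536870912 0 536870912 469762048 67108864 3 false true true .npp 1 0 2
    ndN4q1 ndN1q2a pcN0 cut_pp_102_a Ext.none :=
  certN2 (fam := false) (s1 := true) (s2 := true) (a := 1) (b := 0) (c := 2) (cn := .npp) (n1 := ndN4q1) (n2 := ndN1q2a) (pc := pcN0) (cut := cut_pp_102_a) (xt := Ext.none) (P1 := 536870912) (W1 := 536870912) (P2 := 0) (W2 := 536870912) (P3 := 469762048) (W3 := 67108864) (N0 := 3)
    rfl (fun _ => rfl) k0_pp_102_a

noncomputable def cut_pp_102_b : Cut := Cut.of [[⟨0, 1, 0, 67108864⟩, ⟨1, 0, 0, 67108864⟩, ⟨2, 1, 0, 67108864⟩]]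

noncomputable def f_pp_102_b : ℕ → ℕ → ℕ → ℕ → Bool := onCell 0 536870912 1239849684 370763052 469762048 67108864
    (rowN 3 2 false true true .npp 1 0 2 (qsf 536870912 536870912 1239849684 370763052 0) ndN4q1 ndN1q2b pcN0 cut_pp_102_b Ext.none)

def k0_pp_102_b : ∃ t, chk3 f_pp_102_b t 1 1 1 = true :=
  ⟨(a (a (l 2) (a (b (b (b (l 16351664) (l 2)) (l 2)) (l 2)) (b (b (l 16379880) (l 16138656)) (l 2)))) (a (b (a (b (l 16484968) (l 16286768)) (b (l 16653048) (l 16510192))) (a (l 2) (b (l 16321040) (l 2)))) (b (a (b (l 16790192) (l 16722464)) (l 16914824)) (a (b (l 16606672) (l 16431280)) (l 16839976))))), by decide +kernel⟩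

theorem c_pp_102_b : CertN 536870912 536870912 1239849684 370763052 469762048 67108864 3 false true true .npp 1 0 2
    ndN4q1 ndN1q2b pcN0 cut_pp_102_b Ext.none :=
  certN2 (fam := false) (s1 := true) (s2 := true) (a := 1) (b := 0) (c := 2) (cn := .npp) (n1 := ndN4q1) (n2 := ndN1q2b) (pc := pcN0) (cut := cut_pp_102_b) (xt := Ext.none) (P1 := 536870912) (W1 := 536870912) (P2 := 1239849684) (W2 := 370763052) (P3 := 469762048) (W3 := 67108864) (N0 := 3)
    rfl (fun _ => rfl) k0_pp_102_b

noncomputable def f_pp_112_a : ℕ → ℕ → ℕ → ℕ → Bool := onCell 536870912 536870912 0 536870912 469762048 67108864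
    (rowN 3 2 false true true .dn 1 1 2 (qsf 536870912 536870912 0 536870912 1) ndN4q1 ndN1q2a pcN1 Cut.none Ext.none)

def k0_pp_112_a : ∃ t, chk3 f_pp_112_a t 1 1 1 = true :=
  ⟨(a (a (b (a (l 16829848) (l 16879880)) (b (a (l 16655752) (l 16708256)) (a (l 16525736) (l 16566216)))) (b (l 16962800) (b (l 1) (l 1)))) (l 1)), by decide +kernel⟩

theorem c_pp_112_a : CertN 536870912 536870912 0 536870912 469762048 67108864 3 false true true .dn 1 1 2
    ndN4q1 ndN1q2a pcN1 Cut.none Ext.none :=
  certN2 (fam := false) (s1 := true) (s2 := true) (a := 1) (b := 1) (c := 2) (cn := .dn) (n1 := ndN4q1) (n2 := ndN1q2a) (pc := pcN1) (cut := Cut.none) (xt := Ext.none) (P1 := 536870912) (W1 := 536870912) (P2 := 0) (W2 := 536870912) (P3 := 469762048) (W3 := 67108864) (N0 := 3)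
    rfl (fun _ => rfl) k0_pp_112_a

noncomputable def f_pp_112_b : ℕ → ℕ → ℕ → ℕ → Bool := onCell 536870912 536870912 1239849684 370763052 469762048 67108864
    (rowN 3 2 false true true .dn 1 1 2 (qsf 536870912 536870912 1239849684 370763052 1) ndN4q1 ndN1q2b pcN1 Cut.none Ext.none)

def k0_pp_112_b : ∃ t, chk3 f_pp_112_b t 1 1 1 = true :=
  ⟨(a (a (b (a (l 16981280) (l 17060864)) (a (l 17096736) (l 17316848))) (b (l 17172144) (l 17614144))) (b (a (l 17270992) (l 1)) (a (l 17995192) (l 18062888)))), by decide +kernel⟩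

theorem c_pp_112_b : CertN 536870912 536870912 1239849684 370763052 469762048 67108864 3 false true true .dn 1 1 2
    ndN4q1 ndN1q2b pcN1 Cut.none Ext.none :=
  certN2 (fam := false) (s1 := true) (s2 := true) (a := 1) (b := 1) (c := 2) (cn := .dn) (n1 := ndN4q1) (n2 := ndN1q2b) (pc := pcN1) (cut := Cut.none) (xt := Ext.none) (P1 := 536870912) (W1 := 536870912) (P2 := 1239849684) (W2 := 370763052) (P3 := 469762048) (W3 := 67108864) (N0 := 3)
    rfl (fun _ => rfl) k0_pp_112_b

noncomputable def f_pp_113 : ℕ → ℕ → ℕ → ℕ → Bool := onCell 536870912 536870912 536870912 536870912 469762048 67108864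
    (rowN 3 1 false true true .nn 1 1 3 (qsf 536870912 536870912 1610612736 536870912 1) ndN4q1 ndN1q3 pcN1 Cut.none Ext.none)

def k0_pp_113 : ∃ t, chk3 f_pp_113 t 1 1 1 = true :=
  ⟨(a (b (b (l 1) (l 446711499335)) (b (l 398394916439) (l 18127024))) (b (b (a (l 17357904) (l 17136656)) (l 238406329015)) (b (l 17552792) (a (l 17536688) (l 17171184))))), by decide +kernel⟩

theorem c_pp_113 : CertN 536870912 536870912 1610612736 536870912 469762048 67108864 3 false true true .nn 1 1 3
    ndN4q1 ndN1q3 pcN1 Cut.none Ext.none :=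
  certN1 (fam := false) (s1 := true) (s2 := true) (a := 1) (b := 1) (c := 3) (cn := .nn) (n1 := ndN4q1) (n2 := ndN1q3) (pc := pcN1) (cut := Cut.none) (xt := Ext.none) (P1 := 536870912) (W1 := 536870912) (P2 := 1610612736) (W2 := 536870912) (P3 := 469762048) (W3 := 67108864) (N0 := 3)
    rfl (fun _ => rfl) k0_pp_113

noncomputable def f_pp_123 : ℕ → ℕ → ℕ → ℕ → Bool := onCell 1073741824 536870912 1610612736 536870912 469762048 67108864
    (rowN 3 2 false true true .npn 1 2 3 (qsf 536870912 536870912 1610612736 536870912 2) ndN4q1 ndN1q3 pcN2 Cut.none Ext.none)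

def k0_pp_123 : ∃ t, chk3 f_pp_123 t 1 1 1 = true :=
  ⟨(a (a (b (l 17902664) (b (l 17411680) (l 16984752))) (l 4)) (l 4)), by decide +kernel⟩

theorem c_pp_123 : CertN 536870912 536870912 1610612736 536870912 469762048 67108864 3 false true true .npn 1 2 3
    ndN4q1 ndN1q3 pcN2 Cut.none Ext.none :=
  certN2 (fam := false) (s1 := true) (s2 := true) (a := 1) (b := 2) (c := 3) (cn := .npn) (n1 := ndN4q1) (n2 := ndN1q3) (pc := pcN2) (cut := Cut.none) (xt := Ext.none) (P1 := 536870912) (W1 := 536870912) (P2 := 1610612736) (W2 := 536870912) (P3 := 469762048) (W3 := 67108864) (N0 := 3)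
    rfl (fun _ => rfl) k0_pp_123

noncomputable def f_pp_133 : ℕ → ℕ → ℕ → ℕ → Bool := onCell 1610612736 536870912 1610612736 536870912 469762048 67108864
    (rowN 3 2 false true true .dn 1 3 3 (qsf 536870912 536870912 1610612736 536870912 3) ndN4q1 ndN1q3 pcN3 Cut.none Ext.none)

def k0_pp_133 : ∃ t, chk3 f_pp_133 t 1 1 1 = true :=
  ⟨(l 4), by decide +kernel⟩

theorem c_pp_133 : CertN 536870912 536870912 1610612736 536870912 469762048 67108864 3 false true true .dn 1 3 3
    ndN4q1 ndN1q3 pcN3 Cut.none Ext.none :=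
  certN2 (fam := false) (s1 := true) (s2 := true) (a := 1) (b := 3) (c := 3) (cn := .dn) (n1 := ndN4q1) (n2 := ndN1q3) (pc := pcN3) (cut := Cut.none) (xt := Ext.none) (P1 := 536870912) (W1 := 536870912) (P2 := 1610612736) (W2 := 536870912) (P3 := 469762048) (W3 := 67108864) (N0 := 3)
    rfl (fun _ => rfl) k0_pp_133

noncomputable def cut_pp_202_a : Cut := Cut.of [[⟨0, 1, 0, 67108864⟩, ⟨1, 0, 0, 67108864⟩, ⟨2, 1, 0, 67108864⟩]]

noncomputable def f_pp_202_a : ℕ → ℕ → ℕ → ℕ → Bool := onCell 0 536870912 0 536870912 469762048 67108864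
    (rowN 3 2 false true true .pp 2 0 2 (qsf 1073741824 536870912 0 536870912 0) ndN4q2 ndN1q2a pcN0 cut_pp_202_a Ext.none)

def k0_pp_202_a : ∃ t, chk3 f_pp_202_a t 1 1 1 = true :=
  ⟨(a (b (a (a (b (a (l 16388480) (l 16402816)) (a (l 16521856) (l 16443248))) (b (l 16410744) (b (l 16424064) (l 16466336)))) (a (b (l 16398992) (l 457447220327)) (l 1))) (a (b (a (a (b (l 16527392) (a (l 16614480) (l 16562808))) (b (l 16499480) (b (l 16536352) (l 16564456)))) (b (a (l 16485176) (l 16464728)) (a (b (l 16516432) (l 16540720)) (l 16501328)))) (a (b (b (a (a (l 16643648) (l 16611888)) (a (l 16601096) (l 16588752))) (a (l 6) (a (l 6) (l 16642128)))) (a (l 6) (a (l 6) (l 1)))) (b (a (b (l 16567592) (l 1)) (l 1)) (l 1)))) (b (l 1) (l 1)))) (l 1)), by decide +kernel⟩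

theorem c_pp_202_a : CertN 1073741824 536870912 0 536870912 469762048 67108864 3 false true true .pp 2 0 2
    ndN4q2 ndN1q2a pcN0 cut_pp_202_a Ext.none :=
  certN2 (fam := false) (s1 := true) (s2 := true) (a := 2) (b := 0) (c := 2) (cn := .pp) (n1 := ndN4q2) (n2 := ndN1q2a) (pc := pcN0) (cut := cut_pp_202_a) (xt := Ext.none) (P1 := 1073741824) (W1 := 536870912) (P2 := 0) (W2 := 536870912) (P3 := 469762048) (W3 := 67108864) (N0 := 3)
    rfl (fun _ => rfl) k0_pp_202_a

noncomputable def cut_pp_202_b : Cut := Cut.of [[⟨0, 1, 0, 67108864⟩, ⟨1, 0, 0, 67108864⟩, ⟨2, 1, 0, 67108864⟩]]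

noncomputable def f_pp_202_b : ℕ → ℕ → ℕ → ℕ → Bool := onCell 0 536870912 1239849684 370763052 469762048 67108864
    (rowN 3 2 false true true .pp 2 0 2 (qsf 1073741824 536870912 1239849684 370763052 0) ndN4q2 ndN1q2b pcN0 cut_pp_202_b Ext.none)

def k0_pp_202_b : ∃ t, chk3 f_pp_202_b t 1 1 1 = true :=
  ⟨(a (b (a (b (a (a (l 16430720) (l 16292528)) (l 16302032)) (a (b (l 16121432) (l 16057056)) (l 16140120))) (b (a (l 16590112) (l 68215691303)) (a (l 16192120) (l 16220784)))) (a (b (a (a (l 16145936) (l 15954888)) (l 16021696)) (a (a (b (l 16000752) (l 16070616)) (b (l 15926440) (l 15971592))) (a (l 16008024) (l 15901336)))) (b (a (l 16028608) (l 16092704)) (a (l 15955112) (l 15941808))))) (a (b (b (l 1) (a (l 16291384) (l 16428912))) (b (a (l 16194888) (l 16360080)) (a (l 16070032) (l 16258296)))) (b (l 1) (a (b (l 16572632) (l 16489352)) (l 383896880135))))), by decide +kernel⟩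

theorem c_pp_202_b : CertN 1073741824 536870912 1239849684 370763052 469762048 67108864 3 false true true .pp 2 0 2
    ndN4q2 ndN1q2b pcN0 cut_pp_202_b Ext.none :=
  certN2 (fam := false) (s1 := true) (s2 := true) (a := 2) (b := 0) (c := 2) (cn := .pp) (n1 := ndN4q2) (n2 := ndN1q2b) (pc := pcN0) (cut := cut_pp_202_b) (xt := Ext.none) (P1 := 1073741824) (W1 := 536870912) (P2 := 1239849684) (W2 := 370763052) (P3 := 469762048) (W3 := 67108864) (N0 := 3)
    rfl (fun _ => rfl) k0_pp_202_b

noncomputable def f_pp_203 : ℕ → ℕ → ℕ → ℕ → Bool := onCell 1073741824 536870912 0 536870912 469762048 67108864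
    (rowN 3 1 false true true .up 2 0 3 (qsf 1073741824 536870912 1610612736 536870912 0) ndN4q2 ndN1q3 pcN0 Cut.none Ext.none)

def k0_pp_203 : ∃ t, chk3 f_pp_203 t 1 1 1 = true :=
  ⟨(a (b (b (l 1) (a (l 1) (a (l 1) (l 16280400)))) (b (a (l 351147016423) (b (l 16225648) (l 16335960))) (a (b (l 16677520) (l 16914000)) (b (l 16636648) (l 16819888))))) (b (b (a (b (l 1) (a (l 1) (a (l 1) (l 327523320903)))) (b (a (l 311417009847) (b (l 3) (l 16093448))) (a (b (l 15768864) (l 15999880)) (b (l 16245488) (l 16374024))))) (a (b (a (l 16069872) (l 15914240)) (l 124049422135)) (b (a (l 16253528) (l 16528424)) (l 16597336)))) (b (a (a (l 16436000) (l 16603360)) (b (l 16728448) (l 16811680))) (a (b (l 16759120) (l 16843136)) (b (l 16858904) (l 16879056)))))), by decide +kernel⟩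

theorem c_pp_203 : CertN 1073741824 536870912 1610612736 536870912 469762048 67108864 3 false true true .up 2 0 3
    ndN4q2 ndN1q3 pcN0 Cut.none Ext.none :=
  certN1 (fam := false) (s1 := true) (s2 := true) (a := 2) (b := 0) (c := 3) (cn := .up) (n1 := ndN4q2) (n2 := ndN1q3) (pc := pcN0) (cut := Cut.none) (xt := Ext.none) (P1 := 1073741824) (W1 := 536870912) (P2 := 1610612736) (W2 := 536870912) (P3 := 469762048) (W3 := 67108864) (N0 := 3)
    rfl (fun _ => rfl) k0_pp_203

noncomputable def f_pp_213 : ℕ → ℕ → ℕ → ℕ → Bool := onCell 536870912 536870912 1610612736 536870912 469762048 67108864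
    (rowN 3 2 false true true .pnn 2 1 3 (qsf 1073741824 536870912 1610612736 536870912 1) ndN4q2 ndN1q3 pcN1 Cut.none Ext.none)

def k0_pp_213 : ∃ t, chk3 f_pp_213 t 1 1 1 = true :=
  ⟨(a (b (a (b (a (l 17128848) (l 17400392)) (a (l 16939688) (l 17096976))) (b (l 476777023719) (l 17390360))) (a (b (a (l 16883952) (l 16934824)) (l 17068400)) (b (a (l 17014416) (l 17123408)) (l 16875576)))) (b (a (b (l 1) (l 523484696503)) (l 1)) (a (b (l 17297848) (l 16913288)) (b (l 17455152) (l 16994560))))), by decide +kernel⟩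

theorem c_pp_213 : CertN 1073741824 536870912 1610612736 536870912 469762048 67108864 3 false true true .pnn 2 1 3
    ndN4q2 ndN1q3 pcN1 Cut.none Ext.none :=
  certN2 (fam := false) (s1 := true) (s2 := true) (a := 2) (b := 1) (c := 3) (cn := .pnn) (n1 := ndN4q2) (n2 := ndN1q3) (pc := pcN1) (cut := Cut.none) (xt := Ext.none) (P1 := 1073741824) (W1 := 536870912) (P2 := 1610612736) (W2 := 536870912) (P3 := 469762048) (W3 := 67108864) (N0 := 3)
    rfl (fun _ => rfl) k0_pp_213

noncomputable def f_pp_303 : ℕ → ℕ → ℕ → ℕ → Bool := onCell 0 1230186008 1610612736 536870912 469762048 67108864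
    (rowN 3 0 false true true .npn 3 0 3 (qsf 0 1230186008 1610612736 536870912 0) ndN4q3 ndN1q3 pcN0 Cut.none Ext.none)

def k0_pp_303 : ∃ t, chk3 f_pp_303 t 1 1 1 = true :=
  ⟨(a (l 3) (a (l 3) (b (a (l 3) (a (l 3) (b (l 3) (a (l 3) (b (l 626159488391) (l 16750304)))))) (a (a (l 3) (b (l 3) (b (l 3) (l 16860376)))) (b (a (b (l 3) (l 16880280)) (b (l 171430179831) (l 16857600))) (a (b (l 16871896) (l 16866624)) (b (l 16871872) (l 16872096)))))))), by decide +kernel⟩

theorem c_pp_303 : CertN 0 1230186008 1610612736 536870912 469762048 67108864 3 false true true .npn 3 0 3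
    ndN4q3 ndN1q3 pcN0 Cut.none Ext.none :=
  certN0 (fam := false) (s1 := true) (s2 := true) (a := 3) (b := 0) (c := 3) (cn := .npn) (n1 := ndN4q3) (n2 := ndN1q3) (pc := pcN0) (cut := Cut.none) (xt := Ext.none) (P1 := 0) (W1 := 1230186008) (P2 := 1610612736) (W2 := 536870912) (P3 := 469762048) (W3 := 67108864) (N0 := 3)
    rfl k0_pp_303

noncomputable def f_pp_313 : ℕ → ℕ → ℕ → ℕ → Bool := onCell 0 1230186008 1610612736 536870912 469762048 67108864
    (rowN 3 0 false true true .dn 3 1 3 (qsf 0 1230186008 1610612736 536870912 1) ndN4q3 ndN1q3 pcN1 Cut.none Ext.none)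

def k0_pp_313 : ∃ t, chk3 f_pp_313 t 1 1 1 = true :=
  ⟨(a (l 1) (a (l 1) (b (l 1) (a (l 1) (b (l 1) (a (l 1) (b (l 1) (l 16867960)))))))), by decide +kernel⟩

theorem c_pp_313 : CertN 0 1230186008 1610612736 536870912 469762048 67108864 3 false true true .dn 3 1 3
    ndN4q3 ndN1q3 pcN1 Cut.none Ext.none :=
  certN0 (fam := false) (s1 := true) (s2 := true) (a := 3) (b := 1) (c := 3) (cn := .dn) (n1 := ndN4q3) (n2 := ndN1q3) (pc := pcN1) (cut := Cut.none) (xt := Ext.none) (P1 := 0) (W1 := 1230186008) (P2 := 1610612736) (W2 := 536870912) (P3 := 469762048) (W3 := 67108864) (N0 := 3)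
    rfl k0_pp_313

noncomputable def f_pm_001 : ℕ → ℕ → ℕ → ℕ → Bool := onCell 0 536870912 536870912 536870912 469762048 67108864
    (rowN 3 0 false true false .up 0 0 1 (qsf 0 536870912 536870912 536870912 0) ndN4q0 ndN1q1 pcN0 Cut.none Ext.none)

def k0_pm_001 : ∃ t, chk3 f_pm_001 t 1 1 1 = true :=
  ⟨(l 4), by decide +kernel⟩

theorem c_pm_001 : CertN 0 536870912 536870912 536870912 469762048 67108864 3 false true false .up 0 0 1
    ndN4q0 ndN1q1 pcN0 Cut.none Ext.none :=
  certN0 (fam := false) (s1 := true) (s2 := false) (a := 0) (b := 0) (c := 1) (cn := .up) (n1 := ndN4q0) (n2 := ndN1q1) (pc := pcN0) (cut := Cut.none) (xt := Ext.none) (P1 := 0) (W1 := 536870912) (P2 := 536870912) (W2 := 536870912) (P3 := 469762048) (W3 := 67108864) (N0 := 3)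
    rfl k0_pm_001

noncomputable def f_pm_011 : ℕ → ℕ → ℕ → ℕ → Bool := onCell 0 536870912 536870912 536870912 469762048 67108864
    (rowN 3 0 false true false .pnn 0 1 1 (qsf 0 536870912 536870912 536870912 1) ndN4q0 ndN1q1 pcN1 Cut.none Ext.none)

def k0_pm_011 : ∃ t, chk3 f_pm_011 t 1 1 1 = true :=
  ⟨(l 4), by decide +kernel⟩

theorem c_pm_011 : CertN 0 536870912 536870912 536870912 469762048 67108864 3 false true false .pnn 0 1 1
    ndN4q0 ndN1q1 pcN1 Cut.none Ext.none :=
  certN0 (fam := false) (s1 := true) (s2 := false) (a := 0) (b := 1) (c := 1) (cn := .pnn) (n1 := ndN4q0) (n2 := ndN1q1) (pc := pcN1) (cut := Cut.none) (xt := Ext.none) (P1 := 0) (W1 := 536870912) (P2 := 536870912) (W2 := 536870912) (P3 := 469762048) (W3 := 67108864) (N0 := 3)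
    rfl k0_pm_011

noncomputable def f_pm_012_a : ℕ → ℕ → ℕ → ℕ → Bool := onCell 0 536870912 0 536870912 469762048 67108864
    (rowN 3 0 false true false .pnp 0 1 2 (qsf 0 536870912 0 536870912 1) ndN4q0 ndN1q2a pcN1 Cut.none Ext.none)

def k0_pm_012_a : ∃ t, chk3 f_pm_012_a t 1 1 1 = true :=
  ⟨(l 4), by decide +kernel⟩

theorem c_pm_012_a : CertN 0 536870912 0 536870912 469762048 67108864 3 false true false .pnp 0 1 2
    ndN4q0 ndN1q2a pcN1 Cut.none Ext.none :=
  certN0 (fam := false) (s1 := true) (s2 := false) (a := 0) (b := 1) (c := 2) (cn := .pnp) (n1 := ndN4q0) (n2 := ndN1q2a) (pc := pcN1) (cut := Cut.none) (xt := Ext.none) (P1 := 0) (W1 := 536870912) (P2 := 0) (W2 := 536870912) (P3 := 469762048) (W3 := 67108864) (N0 := 3)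
    rfl k0_pm_012_a

noncomputable def f_pm_012_b : ℕ → ℕ → ℕ → ℕ → Bool := onCell 0 536870912 1239849684 370763052 469762048 67108864
    (rowN 3 0 false true false .pnp 0 1 2 (qsf 0 536870912 1239849684 370763052 1) ndN4q0 ndN1q2b pcN1 Cut.none Ext.none)

def k0_pm_012_b : ∃ t, chk3 f_pm_012_b t 1 1 1 = true :=
  ⟨(l 4), by decide +kernel⟩

theorem c_pm_012_b : CertN 0 536870912 1239849684 370763052 469762048 67108864 3 false true false .pnp 0 1 2
    ndN4q0 ndN1q2b pcN1 Cut.none Ext.none :=
  certN0 (fam := false) (s1 := true) (s2 := false) (a := 0) (b := 1) (c := 2) (cn := .pnp) (n1 := ndN4q0) (n2 := ndN1q2b) (pc := pcN1) (cut := Cut.none) (xt := Ext.none) (P1 := 0) (W1 := 536870912) (P2 := 1239849684) (W2 := 370763052) (P3 := 469762048) (W3 := 67108864) (N0 := 3)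
    rfl k0_pm_012_b

noncomputable def f_pm_022_a : ℕ → ℕ → ℕ → ℕ → Bool := onCell 0 536870912 0 536870912 469762048 67108864
    (rowN 3 0 false true false .pp 0 2 2 (qsf 0 536870912 0 536870912 2) ndN4q0 ndN1q2a pcN2 Cut.none Ext.none)

def k0_pm_022_a : ∃ t, chk3 f_pm_022_a t 1 1 1 = true :=
  ⟨(l 4), by decide +kernel⟩

theorem c_pm_022_a : CertN 0 536870912 0 536870912 469762048 67108864 3 false true false .pp 0 2 2
    ndN4q0 ndN1q2a pcN2 Cut.none Ext.none :=
  certN0 (fam := false) (s1 := true) (s2 := false) (a := 0) (b := 2) (c := 2) (cn := .pp) (n1 := ndN4q0) (n2 := ndN1q2a) (pc := pcN2) (cut := Cut.none) (xt := Ext.none) (P1 := 0) (W1 := 536870912) (P2 := 0) (W2 := 536870912) (P3 := 469762048) (W3 := 67108864) (N0 := 3)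
    rfl k0_pm_022_a

noncomputable def f_pm_022_b : ℕ → ℕ → ℕ → ℕ → Bool := onCell 0 536870912 1239849684 370763052 469762048 67108864
    (rowN 3 0 false true false .pp 0 2 2 (qsf 0 536870912 1239849684 370763052 2) ndN4q0 ndN1q2b pcN2 Cut.none Ext.none)

def k0_pm_022_b : ∃ t, chk3 f_pm_022_b t 1 1 1 = true :=
  ⟨(l 4), by decide +kernel⟩

theorem c_pm_022_b : CertN 0 536870912 1239849684 370763052 469762048 67108864 3 false true false .pp 0 2 2
    ndN4q0 ndN1q2b pcN2 Cut.none Ext.none :=
  certN0 (fam := false) (s1 := true) (s2 := false) (a := 0) (b := 2) (c := 2) (cn := .pp) (n1 := ndN4q0) (n2 := ndN1q2b) (pc := pcN2) (cut := Cut.none) (xt := Ext.none) (P1 := 0) (W1 := 536870912) (P2 := 1239849684) (W2 := 370763052) (P3 := 469762048) (W3 := 67108864) (N0 := 3)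
    rfl k0_pm_022_b

noncomputable def f_pm_023 : ℕ → ℕ → ℕ → ℕ → Bool := onCell 0 536870912 1610612736 536870912 469762048 67108864
    (rowN 3 0 false true false .up 0 2 3 (qsf 0 536870912 1610612736 536870912 2) ndN4q0 ndN1q3 pcN2 Cut.none Ext.none)

def k0_pm_023 : ∃ t, chk3 f_pm_023 t 1 1 1 = true :=
  ⟨(l 4), by decide +kernel⟩

theorem c_pm_023 : CertN 0 536870912 1610612736 536870912 469762048 67108864 3 false true false .up 0 2 3
    ndN4q0 ndN1q3 pcN2 Cut.none Ext.none :=
  certN0 (fam := false) (s1 := true) (s2 := false) (a := 0) (b := 2) (c := 3) (cn := .up) (n1 := ndN4q0) (n2 := ndN1q3) (pc := pcN2) (cut := Cut.none) (xt := Ext.none) (P1 := 0) (W1 := 536870912) (P2 := 1610612736) (W2 := 536870912) (P3 := 469762048) (W3 := 67108864) (N0 := 3)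
    rfl k0_pm_023

noncomputable def f_pm_033 : ℕ → ℕ → ℕ → ℕ → Bool := onCell 0 536870912 1610612736 536870912 469762048 67108864
    (rowN 3 0 false true false .pnn 0 3 3 (qsf 0 536870912 1610612736 536870912 3) ndN4q0 ndN1q3 pcN3 Cut.none Ext.none)

def k0_pm_033 : ∃ t, chk3 f_pm_033 t 1 1 1 = true :=
  ⟨(l 4), by decide +kernel⟩

theorem c_pm_033 : CertN 0 536870912 1610612736 536870912 469762048 67108864 3 false true false .pnn 0 3 3
    ndN4q0 ndN1q3 pcN3 Cut.none Ext.none :=
  certN0 (fam := false) (s1 := true) (s2 := false) (a := 0) (b := 3) (c := 3) (cn := .pnn) (n1 := ndN4q0) (n2 := ndN1q3) (pc := pcN3) (cut := Cut.none) (xt := Ext.none) (P1 := 0) (W1 := 536870912) (P2 := 1610612736) (W2 := 536870912) (P3 := 469762048) (W3 := 67108864) (N0 := 3)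
    rfl k0_pm_033

noncomputable def f_pm_101 : ℕ → ℕ → ℕ → ℕ → Bool := onCell 536870912 536870912 536870912 536870912 469762048 67108864
    (rowN 3 0 false true false .npn 1 0 1 (qsf 536870912 536870912 536870912 536870912 0) ndN4q1 ndN1q1 pcN0 Cut.none Ext.none)

def k0_pm_101 : ∃ t, chk3 f_pm_101 t 1 1 1 = true :=
  ⟨(l 4), by decide +kernel⟩

theorem c_pm_101 : CertN 536870912 536870912 536870912 536870912 469762048 67108864 3 false true false .npn 1 0 1
    ndN4q1 ndN1q1 pcN0 Cut.none Ext.none :=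
  certN0 (fam := false) (s1 := true) (s2 := false) (a := 1) (b := 0) (c := 1) (cn := .npn) (n1 := ndN4q1) (n2 := ndN1q1) (pc := pcN0) (cut := Cut.none) (xt := Ext.none) (P1 := 536870912) (W1 := 536870912) (P2 := 536870912) (W2 := 536870912) (P3 := 469762048) (W3 := 67108864) (N0 := 3)
    rfl k0_pm_101

noncomputable def f_pm_102_a : ℕ → ℕ → ℕ → ℕ → Bool := onCell 536870912 536870912 0 536870912 469762048 67108864
    (rowN 3 0 false true false .npp 1 0 2 (qsf 536870912 536870912 0 536870912 0) ndN4q1 ndN1q2a pcN0 Cut.none Ext.none)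

def k0_pm_102_a : ∃ t, chk3 f_pm_102_a t 1 1 1 = true :=
  ⟨(a (l 4) (b (l 4) (l 4))), by decide +kernel⟩

theorem c_pm_102_a : CertN 536870912 536870912 0 536870912 469762048 67108864 3 false true false .npp 1 0 2
    ndN4q1 ndN1q2a pcN0 Cut.none Ext.none :=
  certN0 (fam := false) (s1 := true) (s2 := false) (a := 1) (b := 0) (c := 2) (cn := .npp) (n1 := ndN4q1) (n2 := ndN1q2a) (pc := pcN0) (cut := Cut.none) (xt := Ext.none) (P1 := 536870912) (W1 := 536870912) (P2 := 0) (W2 := 536870912) (P3 := 469762048) (W3 := 67108864) (N0 := 3)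
    rfl k0_pm_102_a

noncomputable def f_pm_102_b : ℕ → ℕ → ℕ → ℕ → Bool := onCell 536870912 536870912 1239849684 370763052 469762048 67108864
    (rowN 3 0 false true false .npp 1 0 2 (qsf 536870912 536870912 1239849684 370763052 0) ndN4q1 ndN1q2b pcN0 Cut.none Ext.none)

def k0_pm_102_b : ∃ t, chk3 f_pm_102_b t 1 1 1 = true :=
  ⟨(a (l 4) (b (l 4) (l 4))), by decide +kernel⟩

theorem c_pm_102_b : CertN 536870912 536870912 1239849684 370763052 469762048 67108864 3 false true false .npp 1 0 2
    ndN4q1 ndN1q2b pcN0 Cut.none Ext.none :=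
  certN0 (fam := false) (s1 := true) (s2 := false) (a := 1) (b := 0) (c := 2) (cn := .npp) (n1 := ndN4q1) (n2 := ndN1q2b) (pc := pcN0) (cut := Cut.none) (xt := Ext.none) (P1 := 536870912) (W1 := 536870912) (P2 := 1239849684) (W2 := 370763052) (P3 := 469762048) (W3 := 67108864) (N0 := 3)
    rfl k0_pm_102_b

noncomputable def f_pm_112_a : ℕ → ℕ → ℕ → ℕ → Bool := onCell 536870912 536870912 0 536870912 469762048 67108864
    (rowN 3 2 false true false .dn 1 1 2 (qsf 536870912 536870912 0 536870912 1) ndN4q1 ndN1q2a pcN1 Cut.none Ext.none)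

def k0_pm_112_a : ∃ t, chk3 f_pm_112_a t 1 1 1 = true :=
  ⟨(l 4), by decide +kernel⟩

theorem c_pm_112_a : CertN 536870912 536870912 0 536870912 469762048 67108864 3 false true false .dn 1 1 2
    ndN4q1 ndN1q2a pcN1 Cut.none Ext.none :=
  certN2 (fam := false) (s1 := true) (s2 := false) (a := 1) (b := 1) (c := 2) (cn := .dn) (n1 := ndN4q1) (n2 := ndN1q2a) (pc := pcN1) (cut := Cut.none) (xt := Ext.none) (P1 := 536870912) (W1 := 536870912) (P2 := 0) (W2 := 536870912) (P3 := 469762048) (W3 := 67108864) (N0 := 3)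
    rfl (fun _ => rfl) k0_pm_112_a

noncomputable def f_pm_112_b : ℕ → ℕ → ℕ → ℕ → Bool := onCell 536870912 536870912 1239849684 370763052 469762048 67108864
    (rowN 3 2 false true false .dn 1 1 2 (qsf 536870912 536870912 1239849684 370763052 1) ndN4q1 ndN1q2b pcN1 Cut.none Ext.none)

def k0_pm_112_b : ∃ t, chk3 f_pm_112_b t 1 1 1 = true :=
  ⟨(a (l 4) (l 4)), by decide +kernel⟩

theorem c_pm_112_b : CertN 536870912 536870912 1239849684 370763052 469762048 67108864 3 false true false .dn 1 1 2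
    ndN4q1 ndN1q2b pcN1 Cut.none Ext.none :=
  certN2 (fam := false) (s1 := true) (s2 := false) (a := 1) (b := 1) (c := 2) (cn := .dn) (n1 := ndN4q1) (n2 := ndN1q2b) (pc := pcN1) (cut := Cut.none) (xt := Ext.none) (P1 := 536870912) (W1 := 536870912) (P2 := 1239849684) (W2 := 370763052) (P3 := 469762048) (W3 := 67108864) (N0 := 3)
    rfl (fun _ => rfl) k0_pm_112_b

noncomputable def f_pm_113 : ℕ → ℕ → ℕ → ℕ → Bool := onCell 536870912 536870912 1610612736 536870912 469762048 67108864
    (rowN 3 0 false true false .nn 1 1 3 (qsf 536870912 536870912 1610612736 536870912 1) ndN4q1 ndN1q3 pcN1 Cut.none Ext.none)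

def k0_pm_113 : ∃ t, chk3 f_pm_113 t 1 1 1 = true :=
  ⟨(a (l 4) (b (l 4) (b (l 4) (a (l 4) (l 16987424))))), by decide +kernel⟩

theorem c_pm_113 : CertN 536870912 536870912 1610612736 536870912 469762048 67108864 3 false true false .nn 1 1 3
    ndN4q1 ndN1q3 pcN1 Cut.none Ext.none :=
  certN0 (fam := false) (s1 := true) (s2 := false) (a := 1) (b := 1) (c := 3) (cn := .nn) (n1 := ndN4q1) (n2 := ndN1q3) (pc := pcN1) (cut := Cut.none) (xt := Ext.none) (P1 := 536870912) (W1 := 536870912) (P2 := 1610612736) (W2 := 536870912) (P3 := 469762048) (W3 := 67108864) (N0 := 3)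
    rfl k0_pm_113

noncomputable def f_pm_123 : ℕ → ℕ → ℕ → ℕ → Bool := onCell 1073741824 536870912 1610612736 536870912 469762048 67108864
    (rowN 3 2 false true false .npn 1 2 3 (qsf 536870912 536870912 1610612736 536870912 2) ndN4q1 ndN1q3 pcN2 Cut.none Ext.none)

def k0_pm_123 : ∃ t, chk3 f_pm_123 t 1 1 1 = true :=
  ⟨(a (b (l 4) (a (l 121569014679) (l 4))) (l 4)), by decide +kernel⟩

theorem c_pm_123 : CertN 536870912 536870912 1610612736 536870912 469762048 67108864 3 false true false .npn 1 2 3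
    ndN4q1 ndN1q3 pcN2 Cut.none Ext.none :=
  certN2 (fam := false) (s1 := true) (s2 := false) (a := 1) (b := 2) (c := 3) (cn := .npn) (n1 := ndN4q1) (n2 := ndN1q3) (pc := pcN2) (cut := Cut.none) (xt := Ext.none) (P1 := 536870912) (W1 := 536870912) (P2 := 1610612736) (W2 := 536870912) (P3 := 469762048) (W3 := 67108864) (N0 := 3)
    rfl (fun _ => rfl) k0_pm_123

noncomputable def f_pm_133 : ℕ → ℕ → ℕ → ℕ → Bool := onCell 1610612736 536870912 1610612736 536870912 469762048 67108864
    (rowN 3 2 false true false .dn 1 3 3 (qsf 536870912 536870912 1610612736 536870912 3) ndN4q1 ndN1q3 pcN3 Cut.none Ext.none)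

def k0_pm_133 : ∃ t, chk3 f_pm_133 t 1 1 1 = true :=
  ⟨(l 4), by decide +kernel⟩

theorem c_pm_133 : CertN 536870912 536870912 1610612736 536870912 469762048 67108864 3 false true false .dn 1 3 3
    ndN4q1 ndN1q3 pcN3 Cut.none Ext.none :=
  certN2 (fam := false) (s1 := true) (s2 := false) (a := 1) (b := 3) (c := 3) (cn := .dn) (n1 := ndN4q1) (n2 := ndN1q3) (pc := pcN3) (cut := Cut.none) (xt := Ext.none) (P1 := 536870912) (W1 := 536870912) (P2 := 1610612736) (W2 := 536870912) (P3 := 469762048) (W3 := 67108864) (N0 := 3)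
    rfl (fun _ => rfl) k0_pm_133

noncomputable def f_pm_202_a : ℕ → ℕ → ℕ → ℕ → Bool := onCell 0 536870912 0 536870912 469762048 67108864
    (rowN 3 2 false true false .pp 2 0 2 (qsf 1073741824 536870912 0 536870912 0) ndN4q2 ndN1q2a pcN0 Cut.none Ext.none)

def k0_pm_202_a : ∃ t, chk3 f_pm_202_a t 1 1 1 = true :=
  ⟨(b (a (a (a (b (l 16984136) (l 17010336)) (b (l 17053432) (l 4))) (a (l 69492614423) (l 1))) (l 1)) (l 4)), by decide +kernel⟩

theorem c_pm_202_a : CertN 1073741824 536870912 0 536870912 469762048 67108864 3 false true false .pp 2 0 2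
    ndN4q2 ndN1q2a pcN0 Cut.none Ext.none :=
  certN2 (fam := false) (s1 := true) (s2 := false) (a := 2) (b := 0) (c := 2) (cn := .pp) (n1 := ndN4q2) (n2 := ndN1q2a) (pc := pcN0) (cut := Cut.none) (xt := Ext.none) (P1 := 1073741824) (W1 := 536870912) (P2 := 0) (W2 := 536870912) (P3 := 469762048) (W3 := 67108864) (N0 := 3)
    rfl (fun _ => rfl) k0_pm_202_a

noncomputable def f_pm_202_b : ℕ → ℕ → ℕ → ℕ → Bool := onCell 0 536870912 1239849684 370763052 469762048 67108864
    (rowN 3 2 false true false .pp 2 0 2 (qsf 1073741824 536870912 1239849684 370763052 0) ndN4q2 ndN1q2b pcN0 Cut.none Ext.none)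

def k0_pm_202_b : ∃ t, chk3 f_pm_202_b t 1 1 1 = true :=
  ⟨(a (b (a (b (a (l 16932712) (l 16996232)) (a (l 16844344) (l 16914784))) (b (a (l 17111840) (l 17289520)) (a (l 17016064) (l 17175216)))) (a (b (a (l 16680808) (l 16806384)) (a (l 16368920) (l 16613032))) (b (l 16987728) (a (l 16792280) (l 16961296))))) (b (a (b (l 1) (l 284778576167)) (l 1)) (a (b (l 17419072) (l 17274200)) (l 186532344327)))), by decide +kernel⟩

theorem c_pm_202_b : CertN 1073741824 536870912 1239849684 370763052 469762048 67108864 3 false true false .pp 2 0 2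
    ndN4q2 ndN1q2b pcN0 Cut.none Ext.none :=
  certN2 (fam := false) (s1 := true) (s2 := false) (a := 2) (b := 0) (c := 2) (cn := .pp) (n1 := ndN4q2) (n2 := ndN1q2b) (pc := pcN0) (cut := Cut.none) (xt := Ext.none) (P1 := 1073741824) (W1 := 536870912) (P2 := 1239849684) (W2 := 370763052) (P3 := 469762048) (W3 := 67108864) (N0 := 3)
    rfl (fun _ => rfl) k0_pm_202_b

noncomputable def f_pm_203 : ℕ → ℕ → ℕ → ℕ → Bool := onCell 1073741824 536870912 0 536870912 469762048 67108864
    (rowN 3 1 false true false .up 2 0 3 (qsf 1073741824 536870912 1610612736 536870912 0) ndN4q2 ndN1q3 pcN0 Cut.none Ext.none)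

def k0_pm_203 : ∃ t, chk3 f_pm_203 t 1 1 1 = true :=
  ⟨(a (b (b (l 1) (a (l 1) (l 16909384))) (b (a (l 17265472) (a (l 17163560) (l 17082048))) (b (a (l 17651272) (l 17383872)) (l 342022550695)))) (b (b (a (b (l 1) (l 16663368)) (b (l 16205784) (l 16243728))) (b (a (l 16696848) (a (l 16386944) (l 16503896))) (a (l 16765616) (a (l 16545168) (l 16663128))))) (b (a (b (a (l 16936648) (l 16738560)) (l 16941672)) (b (l 16753264) (l 16841680))) (a (b (l 17045584) (l 17056144)) (b (l 16864096) (l 16866784)))))), by decide +kernel⟩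

theorem c_pm_203 : CertN 1073741824 536870912 1610612736 536870912 469762048 67108864 3 false true false .up 2 0 3
    ndN4q2 ndN1q3 pcN0 Cut.none Ext.none :=
  certN1 (fam := false) (s1 := true) (s2 := false) (a := 2) (b := 0) (c := 3) (cn := .up) (n1 := ndN4q2) (n2 := ndN1q3) (pc := pcN0) (cut := Cut.none) (xt := Ext.none) (P1 := 1073741824) (W1 := 536870912) (P2 := 1610612736) (W2 := 536870912) (P3 := 469762048) (W3 := 67108864) (N0 := 3)
    rfl (fun _ => rfl) k0_pm_203

noncomputable def f_pm_213 : ℕ → ℕ → ℕ → ℕ → Bool := onCell 536870912 536870912 1610612736 536870912 469762048 67108864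
    (rowN 3 2 false true false .pnn 2 1 3 (qsf 1073741824 536870912 1610612736 536870912 1) ndN4q2 ndN1q3 pcN1 Cut.none Ext.none)

def k0_pm_213 : ∃ t, chk3 f_pm_213 t 1 1 1 = true :=
  ⟨(a (a (a (b (l 17998200) (b (l 17095552) (l 16864896))) (b (l 17902720) (b (l 17208496) (l 16867656)))) (b (l 165594095543) (b (l 17322376) (l 16890680)))) (b (l 4) (a (b (l 17415080) (l 16956752)) (b (l 4) (l 16994560))))), by decide +kernel⟩

theorem c_pm_213 : CertN 1073741824 536870912 1610612736 536870912 469762048 67108864 3 false true false .pnn 2 1 3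
    ndN4q2 ndN1q3 pcN1 Cut.none Ext.none :=
  certN2 (fam := false) (s1 := true) (s2 := false) (a := 2) (b := 1) (c := 3) (cn := .pnn) (n1 := ndN4q2) (n2 := ndN1q3) (pc := pcN1) (cut := Cut.none) (xt := Ext.none) (P1 := 1073741824) (W1 := 536870912) (P2 := 1610612736) (W2 := 536870912) (P3 := 469762048) (W3 := 67108864) (N0 := 3)
    rfl (fun _ => rfl) k0_pm_213

noncomputable def f_pm_303 : ℕ → ℕ → ℕ → ℕ → Bool := onCell 0 1230186008 0 536870912 469762048 67108864
    (rowN 3 1 false true false .npn 3 0 3 (qsf 0 1230186008 1610612736 536870912 0) ndN4q3 ndN1q3 pcN0 Cut.none Ext.none)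

def k0_pm_303 : ∃ t, chk3 f_pm_303 t 1 1 1 = true :=
  ⟨(a (b (b (a (l 3) (l 3)) (l 2)) (l 2)) (a (b (a (l 3) (b (b (l 3) (l 3)) (l 3))) (a (l 2) (b (b (l 3) (l 2)) (l 2)))) (b (a (b (b (a (l 16869240) (l 16804008)) (a (l 16870728) (l 16835600))) (b (a (l 16872120) (l 16855888)) (l 94656781575))) (b (b (a (l 16666112) (l 16388464)) (a (l 16744144) (l 16563072))) (a (b (l 16802952) (l 16844928)) (b (l 16687840) (l 16777432))))) (a (b (a (l 145123454295) (l 16865216)) (l 2)) (b (a (l 16867032) (b (l 16831712) (l 16860800))) (a (l 16997512) (b (l 16869992) (l 16880216)))))))), by decide +kernel⟩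

theorem c_pm_303 : CertN 0 1230186008 1610612736 536870912 469762048 67108864 3 false true false .npn 3 0 3
    ndN4q3 ndN1q3 pcN0 Cut.none Ext.none :=
  certN1 (fam := false) (s1 := true) (s2 := false) (a := 3) (b := 0) (c := 3) (cn := .npn) (n1 := ndN4q3) (n2 := ndN1q3) (pc := pcN0) (cut := Cut.none) (xt := Ext.none) (P1 := 0) (W1 := 1230186008) (P2 := 1610612736) (W2 := 536870912) (P3 := 469762048) (W3 := 67108864) (N0 := 3)
    rfl (fun _ => rfl) k0_pm_303

noncomputable def f_pm_313 : ℕ → ℕ → ℕ → ℕ → Bool := onCell 0 1230186008 1610612736 536870912 469762048 67108864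
    (rowN 3 0 false true false .dn 3 1 3 (qsf 0 1230186008 1610612736 536870912 1) ndN4q3 ndN1q3 pcN1 Cut.none Ext.none)

def k0_pm_313 : ∃ t, chk3 f_pm_313 t 1 1 1 = true :=
  ⟨(a (l 1) (a (l 1) (b (l 1) (a (l 1) (b (l 1) (a (l 1) (b (l 1) (l 16866560)))))))), by decide +kernel⟩

theorem c_pm_313 : CertN 0 1230186008 1610612736 536870912 469762048 67108864 3 false true false .dn 3 1 3
    ndN4q3 ndN1q3 pcN1 Cut.none Ext.none :=
  certN0 (fam := false) (s1 := true) (s2 := false) (a := 3) (b := 1) (c := 3) (cn := .dn) (n1 := ndN4q3) (n2 := ndN1q3) (pc := pcN1) (cut := Cut.none) (xt := Ext.none) (P1 := 0) (W1 := 1230186008) (P2 := 1610612736) (W2 := 536870912) (P3 := 469762048) (W3 := 67108864) (N0 := 3)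
    rfl k0_pm_313

noncomputable def f_mm_001 : ℕ → ℕ → ℕ → ℕ → Bool := onCell 0 536870912 536870912 536870912 469762048 67108864
    (rowN 3 0 false false false .up 0 0 1 (qsf 0 536870912 536870912 536870912 0) ndN4q0 ndN1q1 pcN0 Cut.none Ext.none)

def k0_mm_001 : ∃ t, chk3 f_mm_001 t 1 1 1 = true :=
  ⟨(l 5), by decide +kernel⟩

theorem c_mm_001 : CertN 0 536870912 536870912 536870912 469762048 67108864 3 false false false .up 0 0 1
    ndN4q0 ndN1q1 pcN0 Cut.none Ext.none :=
  certN0 (fam := false) (s1 := false) (s2 := false) (a := 0) (b := 0) (c := 1) (cn := .up) (n1 := ndN4q0) (n2 := ndN1q1) (pc := pcN0) (cut := Cut.none) (xt := Ext.none) (P1 := 0) (W1 := 536870912) (P2 := 536870912) (W2 := 536870912) (P3 := 469762048) (W3 := 67108864) (N0 := 3)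
    rfl k0_mm_001

noncomputable def f_mm_011 : ℕ → ℕ → ℕ → ℕ → Bool := onCell 0 536870912 536870912 536870912 469762048 67108864
    (rowN 3 0 false false false .pnn 0 1 1 (qsf 0 536870912 536870912 536870912 1) ndN4q0 ndN1q1 pcN1 Cut.none Ext.none)

def k0_mm_011 : ∃ t, chk3 f_mm_011 t 1 1 1 = true :=
  ⟨(l 5), by decide +kernel⟩

theorem c_mm_011 : CertN 0 536870912 536870912 536870912 469762048 67108864 3 false false false .pnn 0 1 1
    ndN4q0 ndN1q1 pcN1 Cut.none Ext.none :=
  certN0 (fam := false) (s1 := false) (s2 := false) (a := 0) (b := 1) (c := 1) (cn := .pnn) (n1 := ndN4q0) (n2 := ndN1q1) (pc := pcN1) (cut := Cut.none) (xt := Ext.none) (P1 := 0) (W1 := 536870912) (P2 := 536870912) (W2 := 536870912) (P3 := 469762048) (W3 := 67108864) (N0 := 3)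
    rfl k0_mm_011

noncomputable def f_mm_012_a : ℕ → ℕ → ℕ → ℕ → Bool := onCell 0 536870912 0 536870912 469762048 67108864
    (rowN 3 0 false false false .pnp 0 1 2 (qsf 0 536870912 0 536870912 1) ndN4q0 ndN1q2a pcN1 Cut.none Ext.none)

def k0_mm_012_a : ∃ t, chk3 f_mm_012_a t 1 1 1 = true :=
  ⟨(l 5), by decide +kernel⟩

theorem c_mm_012_a : CertN 0 536870912 0 536870912 469762048 67108864 3 false false false .pnp 0 1 2
    ndN4q0 ndN1q2a pcN1 Cut.none Ext.none :=
  certN0 (fam := false) (s1 := false) (s2 := false) (a := 0) (b := 1) (c := 2) (cn := .pnp) (n1 := ndN4q0) (n2 := ndN1q2a) (pc := pcN1) (cut := Cut.none) (xt := Ext.none) (P1 := 0) (W1 := 536870912) (P2 := 0) (W2 := 536870912) (P3 := 469762048) (W3 := 67108864) (N0 := 3)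
    rfl k0_mm_012_a

noncomputable def f_mm_012_b : ℕ → ℕ → ℕ → ℕ → Bool := onCell 0 536870912 1239849684 370763052 469762048 67108864
    (rowN 3 0 false false false .pnp 0 1 2 (qsf 0 536870912 1239849684 370763052 1) ndN4q0 ndN1q2b pcN1 Cut.none Ext.none)

def k0_mm_012_b : ∃ t, chk3 f_mm_012_b t 1 1 1 = true :=
  ⟨(l 5), by decide +kernel⟩

theorem c_mm_012_b : CertN 0 536870912 1239849684 370763052 469762048 67108864 3 false false false .pnp 0 1 2
    ndN4q0 ndN1q2b pcN1 Cut.none Ext.none :=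
  certN0 (fam := false) (s1 := false) (s2 := false) (a := 0) (b := 1) (c := 2) (cn := .pnp) (n1 := ndN4q0) (n2 := ndN1q2b) (pc := pcN1) (cut := Cut.none) (xt := Ext.none) (P1 := 0) (W1 := 536870912) (P2 := 1239849684) (W2 := 370763052) (P3 := 469762048) (W3 := 67108864) (N0 := 3)
    rfl k0_mm_012_b

noncomputable def f_mm_022_a : ℕ → ℕ → ℕ → ℕ → Bool := onCell 0 536870912 0 536870912 469762048 67108864
    (rowN 3 0 false false false .pp 0 2 2 (qsf 0 536870912 0 536870912 2) ndN4q0 ndN1q2a pcN2 Cut.none Ext.none)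

def k0_mm_022_a : ∃ t, chk3 f_mm_022_a t 1 1 1 = true :=
  ⟨(l 5), by decide +kernel⟩

theorem c_mm_022_a : CertN 0 536870912 0 536870912 469762048 67108864 3 false false false .pp 0 2 2
    ndN4q0 ndN1q2a pcN2 Cut.none Ext.none :=
  certN0 (fam := false) (s1 := false) (s2 := false) (a := 0) (b := 2) (c := 2) (cn := .pp) (n1 := ndN4q0) (n2 := ndN1q2a) (pc := pcN2) (cut := Cut.none) (xt := Ext.none) (P1 := 0) (W1 := 536870912) (P2 := 0) (W2 := 536870912) (P3 := 469762048) (W3 := 67108864) (N0 := 3)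
    rfl k0_mm_022_a

noncomputable def f_mm_022_b : ℕ → ℕ → ℕ → ℕ → Bool := onCell 0 536870912 1239849684 370763052 469762048 67108864
    (rowN 3 0 false false false .pp 0 2 2 (qsf 0 536870912 1239849684 370763052 2) ndN4q0 ndN1q2b pcN2 Cut.none Ext.none)

def k0_mm_022_b : ∃ t, chk3 f_mm_022_b t 1 1 1 = true :=
  ⟨(l 5), by decide +kernel⟩

theorem c_mm_022_b : CertN 0 536870912 1239849684 370763052 469762048 67108864 3 false false false .pp 0 2 2
    ndN4q0 ndN1q2b pcN2 Cut.none Ext.none :=
  certN0 (fam := false) (s1 := false) (s2 := false) (a := 0) (b := 2) (c := 2) (cn := .pp) (n1 := ndN4q0) (n2 := ndN1q2b) (pc := pcN2) (cut := Cut.none) (xt := Ext.none) (P1 := 0) (W1 := 536870912) (P2 := 1239849684) (W2 := 370763052) (P3 := 469762048) (W3 := 67108864) (N0 := 3)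
    rfl k0_mm_022_b

noncomputable def f_mm_023 : ℕ → ℕ → ℕ → ℕ → Bool := onCell 0 536870912 1610612736 536870912 469762048 67108864
    (rowN 3 0 false false false .up 0 2 3 (qsf 0 536870912 1610612736 536870912 2) ndN4q0 ndN1q3 pcN2 Cut.none Ext.none)

def k0_mm_023 : ∃ t, chk3 f_mm_023 t 1 1 1 = true :=
  ⟨(l 5), by decide +kernel⟩

theorem c_mm_023 : CertN 0 536870912 1610612736 536870912 469762048 67108864 3 false false false .up 0 2 3
    ndN4q0 ndN1q3 pcN2 Cut.none Ext.none :=
  certN0 (fam := false) (s1 := false) (s2 := false) (a := 0) (b := 2) (c := 3) (cn := .up) (n1 := ndN4q0) (n2 := ndN1q3) (pc := pcN2) (cut := Cut.none) (xt := Ext.none) (P1 := 0) (W1 := 536870912) (P2 := 1610612736) (W2 := 536870912) (P3 := 469762048) (W3 := 67108864) (N0 := 3)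
    rfl k0_mm_023

noncomputable def f_mm_033 : ℕ → ℕ → ℕ → ℕ → Bool := onCell 0 536870912 1610612736 536870912 469762048 67108864
    (rowN 3 0 false false false .pnn 0 3 3 (qsf 0 536870912 1610612736 536870912 3) ndN4q0 ndN1q3 pcN3 Cut.none Ext.none)

def k0_mm_033 : ∃ t, chk3 f_mm_033 t 1 1 1 = true :=
  ⟨(l 5), by decide +kernel⟩

theorem c_mm_033 : CertN 0 536870912 1610612736 536870912 469762048 67108864 3 false false false .pnn 0 3 3
    ndN4q0 ndN1q3 pcN3 Cut.none Ext.none :=
  certN0 (fam := false) (s1 := false) (s2 := false) (a := 0) (b := 3) (c := 3) (cn := .pnn) (n1 := ndN4q0) (n2 := ndN1q3) (pc := pcN3) (cut := Cut.none) (xt := Ext.none) (P1 := 0) (W1 := 536870912) (P2 := 1610612736) (W2 := 536870912) (P3 := 469762048) (W3 := 67108864) (N0 := 3)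
    rfl k0_mm_033

noncomputable def f_mm_101 : ℕ → ℕ → ℕ → ℕ → Bool := onCell 536870912 536870912 536870912 536870912 469762048 67108864
    (rowN 3 0 false false false .npn 1 0 1 (qsf 536870912 536870912 536870912 536870912 0) ndN4q1 ndN1q1 pcN0 Cut.none Ext.none)

def k0_mm_101 : ∃ t, chk3 f_mm_101 t 1 1 1 = true :=
  ⟨(l 3), by decide +kernel⟩

theorem c_mm_101 : CertN 536870912 536870912 536870912 536870912 469762048 67108864 3 false false false .npn 1 0 1
    ndN4q1 ndN1q1 pcN0 Cut.none Ext.none :=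
  certN0 (fam := false) (s1 := false) (s2 := false) (a := 1) (b := 0) (c := 1) (cn := .npn) (n1 := ndN4q1) (n2 := ndN1q1) (pc := pcN0) (cut := Cut.none) (xt := Ext.none) (P1 := 536870912) (W1 := 536870912) (P2 := 536870912) (W2 := 536870912) (P3 := 469762048) (W3 := 67108864) (N0 := 3)
    rfl k0_mm_101

noncomputable def f_mm_102_a : ℕ → ℕ → ℕ → ℕ → Bool := onCell 536870912 536870912 0 536870912 469762048 67108864
    (rowN 3 0 false false false .npp 1 0 2 (qsf 536870912 536870912 0 536870912 0) ndN4q1 ndN1q2a pcN0 Cut.none Ext.none)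

def k0_mm_102_a : ∃ t, chk3 f_mm_102_a t 1 1 1 = true :=
  ⟨(l 5), by decide +kernel⟩

theorem c_mm_102_a : CertN 536870912 536870912 0 536870912 469762048 67108864 3 false false false .npp 1 0 2
    ndN4q1 ndN1q2a pcN0 Cut.none Ext.none :=
  certN0 (fam := false) (s1 := false) (s2 := false) (a := 1) (b := 0) (c := 2) (cn := .npp) (n1 := ndN4q1) (n2 := ndN1q2a) (pc := pcN0) (cut := Cut.none) (xt := Ext.none) (P1 := 536870912) (W1 := 536870912) (P2 := 0) (W2 := 536870912) (P3 := 469762048) (W3 := 67108864) (N0 := 3)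
    rfl k0_mm_102_a

noncomputable def f_mm_102_b : ℕ → ℕ → ℕ → ℕ → Bool := onCell 536870912 536870912 1239849684 370763052 469762048 67108864
    (rowN 3 0 false false false .npp 1 0 2 (qsf 536870912 536870912 1239849684 370763052 0) ndN4q1 ndN1q2b pcN0 Cut.none Ext.none)

def k0_mm_102_b : ∃ t, chk3 f_mm_102_b t 1 1 1 = true :=
  ⟨(l 5), by decide +kernel⟩

theorem c_mm_102_b : CertN 536870912 536870912 1239849684 370763052 469762048 67108864 3 false false false .npp 1 0 2
    ndN4q1 ndN1q2b pcN0 Cut.none Ext.none :=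
  certN0 (fam := false) (s1 := false) (s2 := false) (a := 1) (b := 0) (c := 2) (cn := .npp) (n1 := ndN4q1) (n2 := ndN1q2b) (pc := pcN0) (cut := Cut.none) (xt := Ext.none) (P1 := 536870912) (W1 := 536870912) (P2 := 1239849684) (W2 := 370763052) (P3 := 469762048) (W3 := 67108864) (N0 := 3)
    rfl k0_mm_102_b

noncomputable def f_mm_112_a : ℕ → ℕ → ℕ → ℕ → Bool := onCell 536870912 536870912 0 536870912 469762048 67108864
    (rowN 3 0 false false false .dn 1 1 2 (qsf 536870912 536870912 0 536870912 1) ndN4q1 ndN1q2a pcN1 Cut.none Ext.none)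

def k0_mm_112_a : ∃ t, chk3 f_mm_112_a t 1 1 1 = true :=
  ⟨(l 5), by decide +kernel⟩

theorem c_mm_112_a : CertN 536870912 536870912 0 536870912 469762048 67108864 3 false false false .dn 1 1 2
    ndN4q1 ndN1q2a pcN1 Cut.none Ext.none :=
  certN0 (fam := false) (s1 := false) (s2 := false) (a := 1) (b := 1) (c := 2) (cn := .dn) (n1 := ndN4q1) (n2 := ndN1q2a) (pc := pcN1) (cut := Cut.none) (xt := Ext.none) (P1 := 536870912) (W1 := 536870912) (P2 := 0) (W2 := 536870912) (P3 := 469762048) (W3 := 67108864) (N0 := 3)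
    rfl k0_mm_112_a

noncomputable def f_mm_112_b : ℕ → ℕ → ℕ → ℕ → Bool := onCell 536870912 536870912 1239849684 370763052 469762048 67108864
    (rowN 3 0 false false false .dn 1 1 2 (qsf 536870912 536870912 1239849684 370763052 1) ndN4q1 ndN1q2b pcN1 Cut.none Ext.none)

def k0_mm_112_b : ∃ t, chk3 f_mm_112_b t 1 1 1 = true :=
  ⟨(l 5), by decide +kernel⟩

theorem c_mm_112_b : CertN 536870912 536870912 1239849684 370763052 469762048 67108864 3 false false false .dn 1 1 2
    ndN4q1 ndN1q2b pcN1 Cut.none Ext.none :=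
  certN0 (fam := false) (s1 := false) (s2 := false) (a := 1) (b := 1) (c := 2) (cn := .dn) (n1 := ndN4q1) (n2 := ndN1q2b) (pc := pcN1) (cut := Cut.none) (xt := Ext.none) (P1 := 536870912) (W1 := 536870912) (P2 := 1239849684) (W2 := 370763052) (P3 := 469762048) (W3 := 67108864) (N0 := 3)
    rfl k0_mm_112_b

noncomputable def f_mm_113 : ℕ → ℕ → ℕ → ℕ → Bool := onCell 536870912 536870912 1610612736 536870912 469762048 67108864
    (rowN 3 0 false false false .nn 1 1 3 (qsf 536870912 536870912 1610612736 536870912 1) ndN4q1 ndN1q3 pcN1 Cut.none Ext.none)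

def k0_mm_113 : ∃ t, chk3 f_mm_113 t 1 1 1 = true :=
  ⟨(l 5), by decide +kernel⟩

theorem c_mm_113 : CertN 536870912 536870912 1610612736 536870912 469762048 67108864 3 false false false .nn 1 1 3
    ndN4q1 ndN1q3 pcN1 Cut.none Ext.none :=
  certN0 (fam := false) (s1 := false) (s2 := false) (a := 1) (b := 1) (c := 3) (cn := .nn) (n1 := ndN4q1) (n2 := ndN1q3) (pc := pcN1) (cut := Cut.none) (xt := Ext.none) (P1 := 536870912) (W1 := 536870912) (P2 := 1610612736) (W2 := 536870912) (P3 := 469762048) (W3 := 67108864) (N0 := 3)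
    rfl k0_mm_113

noncomputable def f_mm_123 : ℕ → ℕ → ℕ → ℕ → Bool := onCell 536870912 536870912 1610612736 536870912 469762048 67108864
    (rowN 3 0 false false false .npn 1 2 3 (qsf 536870912 536870912 1610612736 536870912 2) ndN4q1 ndN1q3 pcN2 Cut.none Ext.none)

def k0_mm_123 : ∃ t, chk3 f_mm_123 t 1 1 1 = true :=
  ⟨(l 5), by decide +kernel⟩

theorem c_mm_123 : CertN 536870912 536870912 1610612736 536870912 469762048 67108864 3 false false false .npn 1 2 3
    ndN4q1 ndN1q3 pcN2 Cut.none Ext.none :=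
  certN0 (fam := false) (s1 := false) (s2 := false) (a := 1) (b := 2) (c := 3) (cn := .npn) (n1 := ndN4q1) (n2 := ndN1q3) (pc := pcN2) (cut := Cut.none) (xt := Ext.none) (P1 := 536870912) (W1 := 536870912) (P2 := 1610612736) (W2 := 536870912) (P3 := 469762048) (W3 := 67108864) (N0 := 3)
    rfl k0_mm_123

noncomputable def f_mm_133 : ℕ → ℕ → ℕ → ℕ → Bool := onCell 536870912 536870912 1610612736 536870912 469762048 67108864
    (rowN 3 0 false false false .dn 1 3 3 (qsf 536870912 536870912 1610612736 536870912 3) ndN4q1 ndN1q3 pcN3 Cut.none Ext.none)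

def k0_mm_133 : ∃ t, chk3 f_mm_133 t 1 1 1 = true :=
  ⟨(l 5), by decide +kernel⟩

theorem c_mm_133 : CertN 536870912 536870912 1610612736 536870912 469762048 67108864 3 false false false .dn 1 3 3
    ndN4q1 ndN1q3 pcN3 Cut.none Ext.none :=
  certN0 (fam := false) (s1 := false) (s2 := false) (a := 1) (b := 3) (c := 3) (cn := .dn) (n1 := ndN4q1) (n2 := ndN1q3) (pc := pcN3) (cut := Cut.none) (xt := Ext.none) (P1 := 536870912) (W1 := 536870912) (P2 := 1610612736) (W2 := 536870912) (P3 := 469762048) (W3 := 67108864) (N0 := 3)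
    rfl k0_mm_133

noncomputable def f_mm_202_a : ℕ → ℕ → ℕ → ℕ → Bool := onCell 1073741824 536870912 0 536870912 469762048 67108864
    (rowN 3 0 false false false .pp 2 0 2 (qsf 1073741824 536870912 0 536870912 0) ndN4q2 ndN1q2a pcN0 Cut.none Ext.none)

def k0_mm_202_a : ∃ t, chk3 f_mm_202_a t 1 1 1 = true :=
  ⟨(l 5), by decide +kernel⟩

theorem c_mm_202_a : CertN 1073741824 536870912 0 536870912 469762048 67108864 3 false false false .pp 2 0 2
    ndN4q2 ndN1q2a pcN0 Cut.none Ext.none :=
  certN0 (fam := false) (s1 := false) (s2 := false) (a := 2) (b := 0) (c := 2) (cn := .pp) (n1 := ndN4q2) (n2 := ndN1q2a) (pc := pcN0) (cut := Cut.none) (xt := Ext.none) (P1 := 1073741824) (W1 := 536870912) (P2 := 0) (W2 := 536870912) (P3 := 469762048) (W3 := 67108864) (N0 := 3)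
    rfl k0_mm_202_a

noncomputable def f_mm_202_b : ℕ → ℕ → ℕ → ℕ → Bool := onCell 1073741824 536870912 1239849684 370763052 469762048 67108864
    (rowN 3 0 false false false .pp 2 0 2 (qsf 1073741824 536870912 1239849684 370763052 0) ndN4q2 ndN1q2b pcN0 Cut.none Ext.none)

def k0_mm_202_b : ∃ t, chk3 f_mm_202_b t 1 1 1 = true :=
  ⟨(l 5), by decide +kernel⟩

theorem c_mm_202_b : CertN 1073741824 536870912 1239849684 370763052 469762048 67108864 3 false false false .pp 2 0 2
    ndN4q2 ndN1q2b pcN0 Cut.none Ext.none :=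
  certN0 (fam := false) (s1 := false) (s2 := false) (a := 2) (b := 0) (c := 2) (cn := .pp) (n1 := ndN4q2) (n2 := ndN1q2b) (pc := pcN0) (cut := Cut.none) (xt := Ext.none) (P1 := 1073741824) (W1 := 536870912) (P2 := 1239849684) (W2 := 370763052) (P3 := 469762048) (W3 := 67108864) (N0 := 3)
    rfl k0_mm_202_b

noncomputable def f_mm_203 : ℕ → ℕ → ℕ → ℕ → Bool := onCell 1073741824 536870912 1610612736 536870912 469762048 67108864
    (rowN 3 0 false false false .up 2 0 3 (qsf 1073741824 536870912 1610612736 536870912 0) ndN4q2 ndN1q3 pcN0 Cut.none Ext.none)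

def k0_mm_203 : ∃ t, chk3 f_mm_203 t 1 1 1 = true :=
  ⟨(l 5), by decide +kernel⟩

theorem c_mm_203 : CertN 1073741824 536870912 1610612736 536870912 469762048 67108864 3 false false false .up 2 0 3
    ndN4q2 ndN1q3 pcN0 Cut.none Ext.none :=
  certN0 (fam := false) (s1 := false) (s2 := false) (a := 2) (b := 0) (c := 3) (cn := .up) (n1 := ndN4q2) (n2 := ndN1q3) (pc := pcN0) (cut := Cut.none) (xt := Ext.none) (P1 := 1073741824) (W1 := 536870912) (P2 := 1610612736) (W2 := 536870912) (P3 := 469762048) (W3 := 67108864) (N0 := 3)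
    rfl k0_mm_203

noncomputable def f_mm_213 : ℕ → ℕ → ℕ → ℕ → Bool := onCell 1073741824 536870912 1610612736 536870912 469762048 67108864
    (rowN 3 0 false false false .pnn 2 1 3 (qsf 1073741824 536870912 1610612736 536870912 1) ndN4q2 ndN1q3 pcN1 Cut.none Ext.none)

def k0_mm_213 : ∃ t, chk3 f_mm_213 t 1 1 1 = true :=
  ⟨(l 5), by decide +kernel⟩

theorem c_mm_213 : CertN 1073741824 536870912 1610612736 536870912 469762048 67108864 3 false false false .pnn 2 1 3
    ndN4q2 ndN1q3 pcN1 Cut.none Ext.none :=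
  certN0 (fam := false) (s1 := false) (s2 := false) (a := 2) (b := 1) (c := 3) (cn := .pnn) (n1 := ndN4q2) (n2 := ndN1q3) (pc := pcN1) (cut := Cut.none) (xt := Ext.none) (P1 := 1073741824) (W1 := 536870912) (P2 := 1610612736) (W2 := 536870912) (P3 := 469762048) (W3 := 67108864) (N0 := 3)
    rfl k0_mm_213

noncomputable def f_mm_303 : ℕ → ℕ → ℕ → ℕ → Bool := onCell 0 1230186008 1610612736 536870912 469762048 67108864
    (rowN 3 0 false false false .npn 3 0 3 (qsf 0 1230186008 1610612736 536870912 0) ndN4q3 ndN1q3 pcN0 Cut.none Ext.none)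

def k0_mm_303 : ∃ t, chk3 f_mm_303 t 1 1 1 = true :=
  ⟨(a (l 3) (l 5)), by decide +kernel⟩

theorem c_mm_303 : CertN 0 1230186008 1610612736 536870912 469762048 67108864 3 false false false .npn 3 0 3
    ndN4q3 ndN1q3 pcN0 Cut.none Ext.none :=
  certN0 (fam := false) (s1 := false) (s2 := false) (a := 3) (b := 0) (c := 3) (cn := .npn) (n1 := ndN4q3) (n2 := ndN1q3) (pc := pcN0) (cut := Cut.none) (xt := Ext.none) (P1 := 0) (W1 := 1230186008) (P2 := 1610612736) (W2 := 536870912) (P3 := 469762048) (W3 := 67108864) (N0 := 3)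
    rfl k0_mm_303

noncomputable def f_mm_313 : ℕ → ℕ → ℕ → ℕ → Bool := onCell 0 1230186008 1610612736 536870912 469762048 67108864
    (rowN 3 0 false false false .dn 3 1 3 (qsf 0 1230186008 1610612736 536870912 1) ndN4q3 ndN1q3 pcN1 Cut.none Ext.none)

def k0_mm_313 : ∃ t, chk3 f_mm_313 t 1 1 1 = true :=
  ⟨(a (l 1) (l 5)), by decide +kernel⟩

theorem c_mm_313 : CertN 0 1230186008 1610612736 536870912 469762048 67108864 3 false false false .dn 3 1 3
    ndN4q3 ndN1q3 pcN1 Cut.none Ext.none :=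
  certN0 (fam := false) (s1 := false) (s2 := false) (a := 3) (b := 1) (c := 3) (cn := .dn) (n1 := ndN4q3) (n2 := ndN1q3) (pc := pcN1) (cut := Cut.none) (xt := Ext.none) (P1 := 0) (W1 := 1230186008) (P2 := 1610612736) (W2 := 536870912) (P3 := 469762048) (W3 := 67108864) (N0 := 3)
    rfl k0_mm_313

end Pool.Agent.Strip051.G.I7_16_1_2.Tab.C.NB41

namespace Pool.Agent.Strip051.G.I7_16_1_2.Tab.C.NB42

open Pool.Agent.Strip051.PB Pool.Agent.Strip051.PB.T
open Pool.Agent.Strip051.G.I7_16_1_2.Tab

noncomputable def f_pp_001 : ℕ → ℕ → ℕ → ℕ → Bool := onCell 0 536870912 536870912 536870912 469762048 67108864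
    (rowN 3 0 false true true .up 0 0 1 (qsf 0 536870912 536870912 536870912 0) ndN4q0 ndN2q1 pcN0 Cut.none Ext.none)

def k0_pp_001 : ∃ t, chk3 f_pp_001 t 1 1 1 = true :=
  ⟨(l 3), by decide +kernel⟩

theorem c_pp_001 : CertN 0 536870912 536870912 536870912 469762048 67108864 3 false true true .up 0 0 1
    ndN4q0 ndN2q1 pcN0 Cut.none Ext.none :=
  certN0 (fam := false) (s1 := true) (s2 := true) (a := 0) (b := 0) (c := 1) (cn := .up) (n1 := ndN4q0) (n2 := ndN2q1) (pc := pcN0) (cut := Cut.none) (xt := Ext.none) (P1 := 0) (W1 := 536870912) (P2 := 536870912) (W2 := 536870912) (P3 := 469762048) (W3 := 67108864) (N0 := 3)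
    rfl k0_pp_001

noncomputable def f_pp_011 : ℕ → ℕ → ℕ → ℕ → Bool := onCell 0 536870912 536870912 536870912 469762048 67108864
    (rowN 3 0 false true true .pnn 0 1 1 (qsf 0 536870912 536870912 536870912 1) ndN4q0 ndN2q1 pcN1 Cut.none Ext.none)

def k0_pp_011 : ∃ t, chk3 f_pp_011 t 1 1 1 = true :=
  ⟨(l 3), by decide +kernel⟩

theorem c_pp_011 : CertN 0 536870912 536870912 536870912 469762048 67108864 3 false true true .pnn 0 1 1
    ndN4q0 ndN2q1 pcN1 Cut.none Ext.none :=
  certN0 (fam := false) (s1 := true) (s2 := true) (a := 0) (b := 1) (c := 1) (cn := .pnn) (n1 := ndN4q0) (n2 := ndN2q1) (pc := pcN1) (cut := Cut.none) (xt := Ext.none) (P1 := 0) (W1 := 536870912) (P2 := 536870912) (W2 := 536870912) (P3 := 469762048) (W3 := 67108864) (N0 := 3)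
    rfl k0_pp_011

noncomputable def f_pp_012 : ℕ → ℕ → ℕ → ℕ → Bool := onCell 0 536870912 536870912 536870912 469762048 67108864
    (rowN 3 1 false true true .pnp 0 1 2 (qsf 0 536870912 1073741824 536870912 1) ndN4q0 ndN2q2 pcN1 Cut.none Ext.none)

def k0_pp_012 : ∃ t, chk3 f_pp_012 t 1 1 1 = true :=
  ⟨(a (b (b (l 1) (a (l 1) (b (l 1) (l 461205477607)))) (b (a (b (l 1) (l 436509500807)) (a (l 395707793495) (l 397855315767))) (a (b (l 431677866167) (a (l 16929512) (l 17024192))) (b (a (l 16896672) (l 16980112)) (l 17167168))))) (b (b (a (b (l 1) (a (l 1) (l 413424048647))) (b (a (l 384432816199) (b (l 16332112) (l 16257504))) (a (l 206191152199) (l 16359232)))) (a (b (a (l 467111244759) (l 16513624)) (a (l 16613952) (l 16630008))) (a (b (l 16513520) (l 16668960)) (l 16637624)))) (a (b (b (l 16740512) (l 16897040)) (b (l 17109800) (l 17435720))) (b (b (l 16860008) (l 17024856)) (b (a (l 17206592) (l 17249336)) (a (l 17521616) (l 17535168))))))), by decide +kernel⟩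

theorem c_pp_012 : CertN 0 536870912 1073741824 536870912 469762048 67108864 3 false true true .pnp 0 1 2
    ndN4q0 ndN2q2 pcN1 Cut.none Ext.none :=
  certN1 (fam := false) (s1 := true) (s2 := true) (a := 0) (b := 1) (c := 2) (cn := .pnp) (n1 := ndN4q0) (n2 := ndN2q2) (pc := pcN1) (cut := Cut.none) (xt := Ext.none) (P1 := 0) (W1 := 536870912) (P2 := 1073741824) (W2 := 536870912) (P3 := 469762048) (W3 := 67108864) (N0 := 3)
    rfl (fun _ => rfl) k0_pp_012

noncomputable def f_pp_022 : ℕ → ℕ → ℕ → ℕ → Bool := onCell 0 536870912 1073741824 536870912 469762048 67108864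
    (rowN 3 0 false true true .pp 0 2 2 (qsf 0 536870912 1073741824 536870912 2) ndN4q0 ndN2q2 pcN2 Cut.none Ext.none)

def k0_pp_022 : ∃ t, chk3 f_pp_022 t 1 1 1 = true :=
  ⟨(a (b (b (a (b (a (l 702261752343) (l 730178919639)) (a (l 16973552) (l 722663022455))) (b (l 1) (a (l 741453930839) (l 1)))) (a (b (a (l 16968048) (l 17038920)) (l 16966912)) (b (a (l 17226144) (l 755949500631)) (l 17206816)))) (a (b (b (l 16945024) (l 16924864)) (b (l 16905048) (l 16883064))) (b (l 17081816) (b (l 17016472) (l 16980176))))) (b (b (l 1) (a (l 743065443191) (l 1))) (b (a (l 718905806823) (l 732865829383)) (a (b (l 17350000) (l 17252672)) (l 651797462919))))), by decide +kernel⟩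

theorem c_pp_022 : CertN 0 536870912 1073741824 536870912 469762048 67108864 3 false true true .pp 0 2 2
    ndN4q0 ndN2q2 pcN2 Cut.none Ext.none :=
  certN0 (fam := false) (s1 := true) (s2 := true) (a := 0) (b := 2) (c := 2) (cn := .pp) (n1 := ndN4q0) (n2 := ndN2q2) (pc := pcN2) (cut := Cut.none) (xt := Ext.none) (P1 := 0) (W1 := 536870912) (P2 := 1073741824) (W2 := 536870912) (P3 := 469762048) (W3 := 67108864) (N0 := 3)
    rfl k0_pp_022

noncomputable def f_pp_023 : ℕ → ℕ → ℕ → ℕ → Bool := onCell 1073741824 536870912 0 1230186008 469762048 67108864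
    (rowN 3 2 false true true .up 0 2 3 (qsf 0 536870912 0 1230186008 2) ndN4q0 ndN2q3 pcN2 Cut.none Ext.none)

def k0_pp_023 : ∃ t, chk3 f_pp_023 t 1 1 1 = true :=
  ⟨(a (b (l 2) (b (a (l 2) (b (l 2) (l 17343616))) (b (a (l 2) (l 17556504)) (a (b (l 17602416) (l 17707272)) (b (l 17560208) (l 17345384)))))) (b (l 4) (b (a (l 17376864) (l 4)) (b (a (l 17245696) (l 16959800)) (a (l 17057368) (b (l 16912640) (l 16888144))))))), by decide +kernel⟩

theorem c_pp_023 : CertN 0 536870912 0 1230186008 469762048 67108864 3 false true true .up 0 2 3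
    ndN4q0 ndN2q3 pcN2 Cut.none Ext.none :=
  certN2 (fam := false) (s1 := true) (s2 := true) (a := 0) (b := 2) (c := 3) (cn := .up) (n1 := ndN4q0) (n2 := ndN2q3) (pc := pcN2) (cut := Cut.none) (xt := Ext.none) (P1 := 0) (W1 := 536870912) (P2 := 0) (W2 := 1230186008) (P3 := 469762048) (W3 := 67108864) (N0 := 3)
    rfl (fun _ => rfl) k0_pp_023

noncomputable def f_pp_033 : ℕ → ℕ → ℕ → ℕ → Bool := onCell 1610612736 536870912 0 1230186008 469762048 67108864
    (rowN 3 2 false true true .pnn 0 3 3 (qsf 0 536870912 0 1230186008 3) ndN4q0 ndN2q3 pcN3 Cut.none Ext.none)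

def k0_pp_033 : ∃ t, chk3 f_pp_033 t 1 1 1 = true :=
  ⟨(b (l 4) (b (l 4) (a (l 4) (l 1)))), by decide +kernel⟩

theorem c_pp_033 : CertN 0 536870912 0 1230186008 469762048 67108864 3 false true true .pnn 0 3 3
    ndN4q0 ndN2q3 pcN3 Cut.none Ext.none :=
  certN2 (fam := false) (s1 := true) (s2 := true) (a := 0) (b := 3) (c := 3) (cn := .pnn) (n1 := ndN4q0) (n2 := ndN2q3) (pc := pcN3) (cut := Cut.none) (xt := Ext.none) (P1 := 0) (W1 := 536870912) (P2 := 0) (W2 := 1230186008) (P3 := 469762048) (W3 := 67108864) (N0 := 3)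
    rfl (fun _ => rfl) k0_pp_033

noncomputable def f_pp_101 : ℕ → ℕ → ℕ → ℕ → Bool := onCell 536870912 536870912 536870912 536870912 469762048 67108864
    (rowN 3 0 false true true .npn 1 0 1 (qsf 536870912 536870912 536870912 536870912 0) ndN4q1 ndN2q1 pcN0 Cut.none Ext.none)

def k0_pp_101 : ∃ t, chk3 f_pp_101 t 1 1 1 = true :=
  ⟨(l 3), by decide +kernel⟩

theorem c_pp_101 : CertN 536870912 536870912 536870912 536870912 469762048 67108864 3 false true true .npn 1 0 1
    ndN4q1 ndN2q1 pcN0 Cut.none Ext.none :=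
  certN0 (fam := false) (s1 := true) (s2 := true) (a := 1) (b := 0) (c := 1) (cn := .npn) (n1 := ndN4q1) (n2 := ndN2q1) (pc := pcN0) (cut := Cut.none) (xt := Ext.none) (P1 := 536870912) (W1 := 536870912) (P2 := 536870912) (W2 := 536870912) (P3 := 469762048) (W3 := 67108864) (N0 := 3)
    rfl k0_pp_101

noncomputable def f_pp_102 : ℕ → ℕ → ℕ → ℕ → Bool := onCell 0 536870912 1073741824 536870912 469762048 67108864
    (rowN 3 2 false true true .npp 1 0 2 (qsf 536870912 536870912 1073741824 536870912 0) ndN4q1 ndN2q2 pcN0 Cut.none Ext.none)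

def k0_pp_102 : ∃ t, chk3 f_pp_102 t 1 1 1 = true :=
  ⟨(a (l 3) (b (a (b (a (l 3) (a (l 3) (b (b (l 3) (l 3)) (l 3)))) (l 3)) (b (a (b (a (b (a (l 16264440) (l 16257976)) (l 16265464)) (b (l 16243208) (l 16253008))) (a (l 161228313751) (l 16259936))) (b (a (l 16229424) (l 16209048)) (a (l 16252608) (l 16245104)))) (a (b (a (l 3) (l 16262288)) (l 210620444711)) (b (l 16269448) (l 16275568))))) (a (l 3) (a (b (b (l 229410810071) (l 564954746407)) (l 3)) (b (b (l 16266752) (l 16245928)) (b (b (l 16223344) (l 250348441703)) (b (l 237463478055) (l 367855939783)))))))), by decide +kernel⟩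

theorem c_pp_102 : CertN 536870912 536870912 1073741824 536870912 469762048 67108864 3 false true true .npp 1 0 2
    ndN4q1 ndN2q2 pcN0 Cut.none Ext.none :=
  certN2 (fam := false) (s1 := true) (s2 := true) (a := 1) (b := 0) (c := 2) (cn := .npp) (n1 := ndN4q1) (n2 := ndN2q2) (pc := pcN0) (cut := Cut.none) (xt := Ext.none) (P1 := 536870912) (W1 := 536870912) (P2 := 1073741824) (W2 := 536870912) (P3 := 469762048) (W3 := 67108864) (N0 := 3)
    rfl (fun _ => rfl) k0_pp_102

noncomputable def f_pp_112 : ℕ → ℕ → ℕ → ℕ → Bool := onCell 536870912 536870912 1073741824 536870912 469762048 67108864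
    (rowN 3 2 false true true .dn 1 1 2 (qsf 536870912 536870912 1073741824 536870912 1) ndN4q1 ndN2q2 pcN1 Cut.none Ext.none)

def k0_pp_112 : ∃ t, chk3 f_pp_112 t 1 1 1 = true :=
  ⟨(a (b (a (b (a (b (a (l 16188808) (l 16245104)) (l 16266896)) (b (l 16366216) (l 16363496))) (a (a (l 16292096) (l 16323216)) (l 16427856))) (b (a (l 16514728) (l 1)) (a (l 16600072) (l 16725200)))) (b (a (a (l 16358944) (l 16578944)) (a (l 16740096) (l 16851848))) (a (b (a (l 16444352) (l 16693184)) (a (a (l 16457816) (l 16598184)) (l 16769464))) (b (l 16888520) (l 16942496))))) (b (a (b (l 1) (l 16877056)) (l 1)) (b (a (l 16995952) (l 17327368)) (a (b (l 17061480) (l 17092936)) (l 17379672))))), by decide +kernel⟩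

theorem c_pp_112 : CertN 536870912 536870912 1073741824 536870912 469762048 67108864 3 false true true .dn 1 1 2
    ndN4q1 ndN2q2 pcN1 Cut.none Ext.none :=
  certN2 (fam := false) (s1 := true) (s2 := true) (a := 1) (b := 1) (c := 2) (cn := .dn) (n1 := ndN4q1) (n2 := ndN2q2) (pc := pcN1) (cut := Cut.none) (xt := Ext.none) (P1 := 536870912) (W1 := 536870912) (P2 := 1073741824) (W2 := 536870912) (P3 := 469762048) (W3 := 67108864) (N0 := 3)
    rfl (fun _ => rfl) k0_pp_112

noncomputable def f_pp_113 : ℕ → ℕ → ℕ → ℕ → Bool := onCell 536870912 536870912 0 1230186008 469762048 67108864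
    (rowN 3 2 false true true .nn 1 1 3 (qsf 536870912 536870912 0 1230186008 1) ndN4q1 ndN2q3 pcN1 Cut.none Ext.none)

def k0_pp_113 : ∃ t, chk3 f_pp_113 t 1 1 1 = true :=
  ⟨(a (b (l 2) (b (a (l 2) (b (l 2) (l 635756852519))) (b (a (l 2) (a (l 16937104) (l 17016992))) (a (b (a (l 2) (l 16778168)) (a (b (l 16507560) (l 16484488)) (l 16880488))) (b (l 16959928) (a (l 16893496) (l 16979112))))))) (b (a (l 2) (l 16942984)) (b (a (b (l 17164936) (l 17142928)) (l 17186712)) (b (a (l 17206936) (l 17288296)) (a (b (l 17103472) (l 17090520)) (b (l 17333232) (l 17358960))))))), by decide +kernel⟩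

theorem c_pp_113 : CertN 536870912 536870912 0 1230186008 469762048 67108864 3 false true true .nn 1 1 3
    ndN4q1 ndN2q3 pcN1 Cut.none Ext.none :=
  certN2 (fam := false) (s1 := true) (s2 := true) (a := 1) (b := 1) (c := 3) (cn := .nn) (n1 := ndN4q1) (n2 := ndN2q3) (pc := pcN1) (cut := Cut.none) (xt := Ext.none) (P1 := 536870912) (W1 := 536870912) (P2 := 0) (W2 := 1230186008) (P3 := 469762048) (W3 := 67108864) (N0 := 3)
    rfl (fun _ => rfl) k0_pp_113

noncomputable def f_pp_123 : ℕ → ℕ → ℕ → ℕ → Bool := onCell 1073741824 536870912 0 1230186008 469762048 67108864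
    (rowN 3 2 false true true .npn 1 2 3 (qsf 536870912 536870912 0 1230186008 2) ndN4q1 ndN2q3 pcN2 Cut.none Ext.none)

def k0_pp_123 : ∃ t, chk3 f_pp_123 t 1 1 1 = true :=
  ⟨(b (a (a (l 17048752) (l 16991168)) (l 4)) (b (a (a (l 17251936) (l 17283296)) (a (l 17278592) (l 4))) (a (b (a (l 17478592) (l 17594544)) (a (l 17904704) (l 479461099127))) (l 1)))), by decide +kernel⟩

theorem c_pp_123 : CertN 536870912 536870912 0 1230186008 469762048 67108864 3 false true true .npn 1 2 3
    ndN4q1 ndN2q3 pcN2 Cut.none Ext.none :=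
  certN2 (fam := false) (s1 := true) (s2 := true) (a := 1) (b := 2) (c := 3) (cn := .npn) (n1 := ndN4q1) (n2 := ndN2q3) (pc := pcN2) (cut := Cut.none) (xt := Ext.none) (P1 := 536870912) (W1 := 536870912) (P2 := 0) (W2 := 1230186008) (P3 := 469762048) (W3 := 67108864) (N0 := 3)
    rfl (fun _ => rfl) k0_pp_123

noncomputable def f_pp_133 : ℕ → ℕ → ℕ → ℕ → Bool := onCell 1610612736 536870912 0 1230186008 469762048 67108864
    (rowN 3 2 false true true .dn 1 3 3 (qsf 536870912 536870912 0 1230186008 3) ndN4q1 ndN2q3 pcN3 Cut.none Ext.none)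

def k0_pp_133 : ∃ t, chk3 f_pp_133 t 1 1 1 = true :=
  ⟨(b (l 4) (l 1)), by decide +kernel⟩

theorem c_pp_133 : CertN 536870912 536870912 0 1230186008 469762048 67108864 3 false true true .dn 1 3 3
    ndN4q1 ndN2q3 pcN3 Cut.none Ext.none :=
  certN2 (fam := false) (s1 := true) (s2 := true) (a := 1) (b := 3) (c := 3) (cn := .dn) (n1 := ndN4q1) (n2 := ndN2q3) (pc := pcN3) (cut := Cut.none) (xt := Ext.none) (P1 := 536870912) (W1 := 536870912) (P2 := 0) (W2 := 1230186008) (P3 := 469762048) (W3 := 67108864) (N0 := 3)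
    rfl (fun _ => rfl) k0_pp_133

noncomputable def f_pp_202 : ℕ → ℕ → ℕ → ℕ → Bool := onCell 1073741824 536870912 1073741824 536870912 469762048 67108864
    (rowN 3 0 false true true .pp 2 0 2 (qsf 1073741824 536870912 1073741824 536870912 0) ndN4q2 ndN2q2 pcN0 Cut.none Ext.none)

def k0_pp_202 : ∃ t, chk3 f_pp_202 t 1 1 1 = true :=
  ⟨(a (b (l 3) (b (l 3) (a (b (l 3) (a (b (a (l 16167480) (l 3)) (a (l 16284552) (l 16207776))) (l 3))) (l 3)))) (l 3)), by decide +kernel⟩

theorem c_pp_202 : CertN 1073741824 536870912 1073741824 536870912 469762048 67108864 3 false true true .pp 2 0 2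
    ndN4q2 ndN2q2 pcN0 Cut.none Ext.none :=
  certN0 (fam := false) (s1 := true) (s2 := true) (a := 2) (b := 0) (c := 2) (cn := .pp) (n1 := ndN4q2) (n2 := ndN2q2) (pc := pcN0) (cut := Cut.none) (xt := Ext.none) (P1 := 1073741824) (W1 := 536870912) (P2 := 1073741824) (W2 := 536870912) (P3 := 469762048) (W3 := 67108864) (N0 := 3)
    rfl k0_pp_202

noncomputable def f_pp_203 : ℕ → ℕ → ℕ → ℕ → Bool := onCell 0 536870912 0 1230186008 469762048 67108864
    (rowN 3 2 false true true .up 2 0 3 (qsf 1073741824 536870912 0 1230186008 0) ndN4q2 ndN2q3 pcN0 Cut.none Ext.none)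

def k0_pp_203 : ∃ t, chk3 f_pp_203 t 1 1 1 = true :=
  ⟨(a (b (l 2) (b (l 3) (l 3))) (a (b (l 2) (b (l 3) (l 3))) (a (b (b (l 2) (l 16979336)) (b (b (l 16865528) (l 16820632)) (b (b (l 16740192) (l 3)) (l 3)))) (b (b (b (l 16868944) (l 16872656)) (l 16883312)) (b (b (l 16878920) (l 16839696)) (b (b (l 16769176) (l 16691192)) (b (l 16571544) (b (l 16443632) (a (l 16287000) (l 16346424)))))))))), by decide +kernel⟩

theorem c_pp_203 : CertN 1073741824 536870912 0 1230186008 469762048 67108864 3 false true true .up 2 0 3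
    ndN4q2 ndN2q3 pcN0 Cut.none Ext.none :=
  certN2 (fam := false) (s1 := true) (s2 := true) (a := 2) (b := 0) (c := 3) (cn := .up) (n1 := ndN4q2) (n2 := ndN2q3) (pc := pcN0) (cut := Cut.none) (xt := Ext.none) (P1 := 1073741824) (W1 := 536870912) (P2 := 0) (W2 := 1230186008) (P3 := 469762048) (W3 := 67108864) (N0 := 3)
    rfl (fun _ => rfl) k0_pp_203

noncomputable def f_pp_213 : ℕ → ℕ → ℕ → ℕ → Bool := onCell 536870912 536870912 0 1230186008 469762048 67108864
    (rowN 3 2 false true true .pnn 2 1 3 (qsf 1073741824 536870912 0 1230186008 1) ndN4q2 ndN2q3 pcN1 Cut.none Ext.none)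

def k0_pp_213 : ∃ t, chk3 f_pp_213 t 1 1 1 = true :=
  ⟨(b (b (a (a (l 16873504) (l 16849088)) (a (l 16820624) (l 16816144))) (a (a (a (l 16893936) (b (l 16895584) (l 16909160))) (b (l 16888528) (l 16924240))) (a (l 16929240) (l 17006856)))) (b (a (a (b (a (l 16895328) (l 16914488)) (a (l 16864888) (l 16899576))) (b (l 17102144) (a (l 16940232) (l 17005880)))) (a (b (l 17092424) (a (l 17127320) (l 17281544))) (b (l 17257096) (l 1)))) (a (b (a (a (b (l 16808040) (l 16747264)) (l 16852392)) (a (l 16932736) (l 17042768))) (a (b (a (l 16653920) (l 16783272)) (a (b (l 16554216) (a (l 16407000) (l 16493568))) (b (l 16728440) (l 1)))) (b (l 473554633783) (l 1)))) (l 1)))), by decide +kernel⟩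

theorem c_pp_213 : CertN 1073741824 536870912 0 1230186008 469762048 67108864 3 false true true .pnn 2 1 3
    ndN4q2 ndN2q3 pcN1 Cut.none Ext.none :=
  certN2 (fam := false) (s1 := true) (s2 := true) (a := 2) (b := 1) (c := 3) (cn := .pnn) (n1 := ndN4q2) (n2 := ndN2q3) (pc := pcN1) (cut := Cut.none) (xt := Ext.none) (P1 := 1073741824) (W1 := 536870912) (P2 := 0) (W2 := 1230186008) (P3 := 469762048) (W3 := 67108864) (N0 := 3)
    rfl (fun _ => rfl) k0_pp_213

noncomputable def f_pp_303 : ℕ → ℕ → ℕ → ℕ → Bool := onCell 0 1230186008 0 1230186008 469762048 67108864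
    (rowN 3 0 false true true .npn 3 0 3 (qsf 0 1230186008 0 1230186008 0) ndN4q3 ndN2q3 pcN0 Cut.none Ext.none)

def k0_pp_303 : ∃ t, chk3 f_pp_303 t 1 1 1 = true :=
  ⟨(a (b (l 3) (l 3)) (b (a (l 3) (b (a (l 295983670999) (a (l 16905240) (l 17017208))) (a (l 3) (a (b (l 16863768) (l 3)) (b (l 16873448) (l 302963653367)))))) (b (b (l 3) (l 3)) (l 3)))), by decide +kernel⟩

theorem c_pp_303 : CertN 0 1230186008 0 1230186008 469762048 67108864 3 false true true .npn 3 0 3
    ndN4q3 ndN2q3 pcN0 Cut.none Ext.none :=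
  certN0 (fam := false) (s1 := true) (s2 := true) (a := 3) (b := 0) (c := 3) (cn := .npn) (n1 := ndN4q3) (n2 := ndN2q3) (pc := pcN0) (cut := Cut.none) (xt := Ext.none) (P1 := 0) (W1 := 1230186008) (P2 := 0) (W2 := 1230186008) (P3 := 469762048) (W3 := 67108864) (N0 := 3)
    rfl k0_pp_303

noncomputable def f_pp_313 : ℕ → ℕ → ℕ → ℕ → Bool := onCell 0 1230186008 0 1230186008 469762048 67108864
    (rowN 3 0 false true true .dn 3 1 3 (qsf 0 1230186008 0 1230186008 1) ndN4q3 ndN2q3 pcN1 Cut.none Ext.none)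

def k0_pp_313 : ∃ t, chk3 f_pp_313 t 1 1 1 = true :=
  ⟨(a (l 1) (b (a (l 1) (b (a (l 1) (a (l 1) (l 1853849497063))) (l 1))) (l 1))), by decide +kernel⟩

theorem c_pp_313 : CertN 0 1230186008 0 1230186008 469762048 67108864 3 false true true .dn 3 1 3
    ndN4q3 ndN2q3 pcN1 Cut.none Ext.none :=
  certN0 (fam := false) (s1 := true) (s2 := true) (a := 3) (b := 1) (c := 3) (cn := .dn) (n1 := ndN4q3) (n2 := ndN2q3) (pc := pcN1) (cut := Cut.none) (xt := Ext.none) (P1 := 0) (W1 := 1230186008) (P2 := 0) (W2 := 1230186008) (P3 := 469762048) (W3 := 67108864) (N0 := 3)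
    rfl k0_pp_313

noncomputable def f_pm_001 : ℕ → ℕ → ℕ → ℕ → Bool := onCell 0 536870912 536870912 536870912 469762048 67108864
    (rowN 3 0 false true false .up 0 0 1 (qsf 0 536870912 536870912 536870912 0) ndN4q0 ndN2q1 pcN0 Cut.none Ext.none)

def k0_pm_001 : ∃ t, chk3 f_pm_001 t 1 1 1 = true :=
  ⟨(l 4), by decide +kernel⟩

theorem c_pm_001 : CertN 0 536870912 536870912 536870912 469762048 67108864 3 false true false .up 0 0 1
    ndN4q0 ndN2q1 pcN0 Cut.none Ext.none :=
  certN0 (fam := false) (s1 := true) (s2 := false) (a := 0) (b := 0) (c := 1) (cn := .up) (n1 := ndN4q0) (n2 := ndN2q1) (pc := pcN0) (cut := Cut.none) (xt := Ext.none) (P1 := 0) (W1 := 536870912) (P2 := 536870912) (W2 := 536870912) (P3 := 469762048) (W3 := 67108864) (N0 := 3)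
    rfl k0_pm_001

noncomputable def f_pm_011 : ℕ → ℕ → ℕ → ℕ → Bool := onCell 0 536870912 536870912 536870912 469762048 67108864
    (rowN 3 0 false true false .pnn 0 1 1 (qsf 0 536870912 536870912 536870912 1) ndN4q0 ndN2q1 pcN1 Cut.none Ext.none)

def k0_pm_011 : ∃ t, chk3 f_pm_011 t 1 1 1 = true :=
  ⟨(l 4), by decide +kernel⟩

theorem c_pm_011 : CertN 0 536870912 536870912 536870912 469762048 67108864 3 false true false .pnn 0 1 1
    ndN4q0 ndN2q1 pcN1 Cut.none Ext.none :=
  certN0 (fam := false) (s1 := true) (s2 := false) (a := 0) (b := 1) (c := 1) (cn := .pnn) (n1 := ndN4q0) (n2 := ndN2q1) (pc := pcN1) (cut := Cut.none) (xt := Ext.none) (P1 := 0) (W1 := 536870912) (P2 := 536870912) (W2 := 536870912) (P3 := 469762048) (W3 := 67108864) (N0 := 3)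
    rfl k0_pm_011

noncomputable def f_pm_012 : ℕ → ℕ → ℕ → ℕ → Bool := onCell 0 536870912 1073741824 536870912 469762048 67108864
    (rowN 3 0 false true false .pnp 0 1 2 (qsf 0 536870912 1073741824 536870912 1) ndN4q0 ndN2q2 pcN1 Cut.none Ext.none)

def k0_pm_012 : ∃ t, chk3 f_pm_012 t 1 1 1 = true :=
  ⟨(l 4), by decide +kernel⟩

theorem c_pm_012 : CertN 0 536870912 1073741824 536870912 469762048 67108864 3 false true false .pnp 0 1 2
    ndN4q0 ndN2q2 pcN1 Cut.none Ext.none :=
  certN0 (fam := false) (s1 := true) (s2 := false) (a := 0) (b := 1) (c := 2) (cn := .pnp) (n1 := ndN4q0) (n2 := ndN2q2) (pc := pcN1) (cut := Cut.none) (xt := Ext.none) (P1 := 0) (W1 := 536870912) (P2 := 1073741824) (W2 := 536870912) (P3 := 469762048) (W3 := 67108864) (N0 := 3)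
    rfl k0_pm_012

noncomputable def f_pm_022 : ℕ → ℕ → ℕ → ℕ → Bool := onCell 0 536870912 1073741824 536870912 469762048 67108864
    (rowN 3 0 false true false .pp 0 2 2 (qsf 0 536870912 1073741824 536870912 2) ndN4q0 ndN2q2 pcN2 Cut.none Ext.none)

def k0_pm_022 : ∃ t, chk3 f_pm_022 t 1 1 1 = true :=
  ⟨(l 4), by decide +kernel⟩

theorem c_pm_022 : CertN 0 536870912 1073741824 536870912 469762048 67108864 3 false true false .pp 0 2 2
    ndN4q0 ndN2q2 pcN2 Cut.none Ext.none :=
  certN0 (fam := false) (s1 := true) (s2 := false) (a := 0) (b := 2) (c := 2) (cn := .pp) (n1 := ndN4q0) (n2 := ndN2q2) (pc := pcN2) (cut := Cut.none) (xt := Ext.none) (P1 := 0) (W1 := 536870912) (P2 := 1073741824) (W2 := 536870912) (P3 := 469762048) (W3 := 67108864) (N0 := 3)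
    rfl k0_pm_022

noncomputable def f_pm_023 : ℕ → ℕ → ℕ → ℕ → Bool := onCell 0 536870912 0 1230186008 469762048 67108864
    (rowN 3 0 false true false .up 0 2 3 (qsf 0 536870912 0 1230186008 2) ndN4q0 ndN2q3 pcN2 Cut.none Ext.none)

def k0_pm_023 : ∃ t, chk3 f_pm_023 t 1 1 1 = true :=
  ⟨(b (l 4) (l 4)), by decide +kernel⟩

theorem c_pm_023 : CertN 0 536870912 0 1230186008 469762048 67108864 3 false true false .up 0 2 3
    ndN4q0 ndN2q3 pcN2 Cut.none Ext.none :=
  certN0 (fam := false) (s1 := true) (s2 := false) (a := 0) (b := 2) (c := 3) (cn := .up) (n1 := ndN4q0) (n2 := ndN2q3) (pc := pcN2) (cut := Cut.none) (xt := Ext.none) (P1 := 0) (W1 := 536870912) (P2 := 0) (W2 := 1230186008) (P3 := 469762048) (W3 := 67108864) (N0 := 3)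
    rfl k0_pm_023

noncomputable def f_pm_033 : ℕ → ℕ → ℕ → ℕ → Bool := onCell 0 536870912 0 1230186008 469762048 67108864
    (rowN 3 0 false true false .pnn 0 3 3 (qsf 0 536870912 0 1230186008 3) ndN4q0 ndN2q3 pcN3 Cut.none Ext.none)

def k0_pm_033 : ∃ t, chk3 f_pm_033 t 1 1 1 = true :=
  ⟨(b (l 4) (l 4)), by decide +kernel⟩

theorem c_pm_033 : CertN 0 536870912 0 1230186008 469762048 67108864 3 false true false .pnn 0 3 3
    ndN4q0 ndN2q3 pcN3 Cut.none Ext.none :=
  certN0 (fam := false) (s1 := true) (s2 := false) (a := 0) (b := 3) (c := 3) (cn := .pnn) (n1 := ndN4q0) (n2 := ndN2q3) (pc := pcN3) (cut := Cut.none) (xt := Ext.none) (P1 := 0) (W1 := 536870912) (P2 := 0) (W2 := 1230186008) (P3 := 469762048) (W3 := 67108864) (N0 := 3)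
    rfl k0_pm_033

noncomputable def f_pm_101 : ℕ → ℕ → ℕ → ℕ → Bool := onCell 536870912 536870912 536870912 536870912 469762048 67108864
    (rowN 3 0 false true false .npn 1 0 1 (qsf 536870912 536870912 536870912 536870912 0) ndN4q1 ndN2q1 pcN0 Cut.none Ext.none)

def k0_pm_101 : ∃ t, chk3 f_pm_101 t 1 1 1 = true :=
  ⟨(l 4), by decide +kernel⟩

theorem c_pm_101 : CertN 536870912 536870912 536870912 536870912 469762048 67108864 3 false true false .npn 1 0 1
    ndN4q1 ndN2q1 pcN0 Cut.none Ext.none :=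
  certN0 (fam := false) (s1 := true) (s2 := false) (a := 1) (b := 0) (c := 1) (cn := .npn) (n1 := ndN4q1) (n2 := ndN2q1) (pc := pcN0) (cut := Cut.none) (xt := Ext.none) (P1 := 536870912) (W1 := 536870912) (P2 := 536870912) (W2 := 536870912) (P3 := 469762048) (W3 := 67108864) (N0 := 3)
    rfl k0_pm_101

noncomputable def f_pm_102 : ℕ → ℕ → ℕ → ℕ → Bool := onCell 536870912 536870912 1073741824 536870912 469762048 67108864
    (rowN 3 0 false true false .npp 1 0 2 (qsf 536870912 536870912 1073741824 536870912 0) ndN4q1 ndN2q2 pcN0 Cut.none Ext.none)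

def k0_pm_102 : ∃ t, chk3 f_pm_102 t 1 1 1 = true :=
  ⟨(l 4), by decide +kernel⟩

theorem c_pm_102 : CertN 536870912 536870912 1073741824 536870912 469762048 67108864 3 false true false .npp 1 0 2
    ndN4q1 ndN2q2 pcN0 Cut.none Ext.none :=
  certN0 (fam := false) (s1 := true) (s2 := false) (a := 1) (b := 0) (c := 2) (cn := .npp) (n1 := ndN4q1) (n2 := ndN2q2) (pc := pcN0) (cut := Cut.none) (xt := Ext.none) (P1 := 536870912) (W1 := 536870912) (P2 := 1073741824) (W2 := 536870912) (P3 := 469762048) (W3 := 67108864) (N0 := 3)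
    rfl k0_pm_102

noncomputable def f_pm_112 : ℕ → ℕ → ℕ → ℕ → Bool := onCell 536870912 536870912 1073741824 536870912 469762048 67108864
    (rowN 3 0 false true false .dn 1 1 2 (qsf 536870912 536870912 1073741824 536870912 1) ndN4q1 ndN2q2 pcN1 Cut.none Ext.none)

def k0_pm_112 : ∃ t, chk3 f_pm_112 t 1 1 1 = true :=
  ⟨(l 4), by decide +kernel⟩

theorem c_pm_112 : CertN 536870912 536870912 1073741824 536870912 469762048 67108864 3 false true false .dn 1 1 2
    ndN4q1 ndN2q2 pcN1 Cut.none Ext.none :=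
  certN0 (fam := false) (s1 := true) (s2 := false) (a := 1) (b := 1) (c := 2) (cn := .dn) (n1 := ndN4q1) (n2 := ndN2q2) (pc := pcN1) (cut := Cut.none) (xt := Ext.none) (P1 := 536870912) (W1 := 536870912) (P2 := 1073741824) (W2 := 536870912) (P3 := 469762048) (W3 := 67108864) (N0 := 3)
    rfl k0_pm_112

noncomputable def f_pm_113 : ℕ → ℕ → ℕ → ℕ → Bool := onCell 536870912 536870912 0 1230186008 469762048 67108864
    (rowN 3 0 false true false .nn 1 1 3 (qsf 536870912 536870912 0 1230186008 1) ndN4q1 ndN2q3 pcN1 Cut.none Ext.none)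

def k0_pm_113 : ∃ t, chk3 f_pm_113 t 1 1 1 = true :=
  ⟨(b (a (l 2) (b (l 16806256) (l 4))) (l 4)), by decide +kernel⟩

theorem c_pm_113 : CertN 536870912 536870912 0 1230186008 469762048 67108864 3 false true false .nn 1 1 3
    ndN4q1 ndN2q3 pcN1 Cut.none Ext.none :=
  certN0 (fam := false) (s1 := true) (s2 := false) (a := 1) (b := 1) (c := 3) (cn := .nn) (n1 := ndN4q1) (n2 := ndN2q3) (pc := pcN1) (cut := Cut.none) (xt := Ext.none) (P1 := 536870912) (W1 := 536870912) (P2 := 0) (W2 := 1230186008) (P3 := 469762048) (W3 := 67108864) (N0 := 3)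
    rfl k0_pm_113

noncomputable def f_pm_123 : ℕ → ℕ → ℕ → ℕ → Bool := onCell 1073741824 536870912 0 1230186008 469762048 67108864
    (rowN 3 2 false true false .npn 1 2 3 (qsf 536870912 536870912 0 1230186008 2) ndN4q1 ndN2q3 pcN2 Cut.none Ext.none)

def k0_pm_123 : ∃ t, chk3 f_pm_123 t 1 1 1 = true :=
  ⟨(b (a (a (l 16880472) (l 4)) (l 4)) (l 4)), by decide +kernel⟩

theorem c_pm_123 : CertN 536870912 536870912 0 1230186008 469762048 67108864 3 false true false .npn 1 2 3
    ndN4q1 ndN2q3 pcN2 Cut.none Ext.none :=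
  certN2 (fam := false) (s1 := true) (s2 := false) (a := 1) (b := 2) (c := 3) (cn := .npn) (n1 := ndN4q1) (n2 := ndN2q3) (pc := pcN2) (cut := Cut.none) (xt := Ext.none) (P1 := 536870912) (W1 := 536870912) (P2 := 0) (W2 := 1230186008) (P3 := 469762048) (W3 := 67108864) (N0 := 3)
    rfl (fun _ => rfl) k0_pm_123

noncomputable def f_pm_133 : ℕ → ℕ → ℕ → ℕ → Bool := onCell 1610612736 536870912 0 1230186008 469762048 67108864
    (rowN 3 2 false true false .dn 1 3 3 (qsf 536870912 536870912 0 1230186008 3) ndN4q1 ndN2q3 pcN3 Cut.none Ext.none)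

def k0_pm_133 : ∃ t, chk3 f_pm_133 t 1 1 1 = true :=
  ⟨(b (l 4) (l 1)), by decide +kernel⟩

theorem c_pm_133 : CertN 536870912 536870912 0 1230186008 469762048 67108864 3 false true false .dn 1 3 3
    ndN4q1 ndN2q3 pcN3 Cut.none Ext.none :=
  certN2 (fam := false) (s1 := true) (s2 := false) (a := 1) (b := 3) (c := 3) (cn := .dn) (n1 := ndN4q1) (n2 := ndN2q3) (pc := pcN3) (cut := Cut.none) (xt := Ext.none) (P1 := 536870912) (W1 := 536870912) (P2 := 0) (W2 := 1230186008) (P3 := 469762048) (W3 := 67108864) (N0 := 3)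
    rfl (fun _ => rfl) k0_pm_133

noncomputable def f_pm_202 : ℕ → ℕ → ℕ → ℕ → Bool := onCell 0 536870912 1073741824 536870912 469762048 67108864
    (rowN 3 2 false true false .pp 2 0 2 (qsf 1073741824 536870912 1073741824 536870912 0) ndN4q2 ndN2q2 pcN0 Cut.none Ext.none)

def k0_pm_202 : ∃ t, chk3 f_pm_202 t 1 1 1 = true :=
  ⟨(a (b (l 4) (b (l 4) (a (b (l 4) (l 16885152)) (l 4)))) (l 4)), by decide +kernel⟩

theorem c_pm_202 : CertN 1073741824 536870912 1073741824 536870912 469762048 67108864 3 false true false .pp 2 0 2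
    ndN4q2 ndN2q2 pcN0 Cut.none Ext.none :=
  certN2 (fam := false) (s1 := true) (s2 := false) (a := 2) (b := 0) (c := 2) (cn := .pp) (n1 := ndN4q2) (n2 := ndN2q2) (pc := pcN0) (cut := Cut.none) (xt := Ext.none) (P1 := 1073741824) (W1 := 536870912) (P2 := 1073741824) (W2 := 536870912) (P3 := 469762048) (W3 := 67108864) (N0 := 3)
    rfl (fun _ => rfl) k0_pm_202

noncomputable def f_pm_203 : ℕ → ℕ → ℕ → ℕ → Bool := onCell 1073741824 536870912 0 1230186008 469762048 67108864
    (rowN 3 0 false true false .up 2 0 3 (qsf 1073741824 536870912 0 1230186008 0) ndN4q2 ndN2q3 pcN0 Cut.none Ext.none)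

def k0_pm_203 : ∃ t, chk3 f_pm_203 t 1 1 1 = true :=
  ⟨(a (b (l 2) (b (b (l 2) (b (l 2) (l 4))) (l 4))) (a (b (l 2) (b (b (a (l 2) (l 16995736)) (l 17265456)) (b (l 17248784) (l 4)))) (b (b (a (l 2) (l 16858888)) (b (l 16832520) (a (l 16839912) (l 16827992)))) (b (b (a (b (l 16898760) (l 16944840)) (l 16846768)) (a (l 17065744) (l 16919120))) (b (l 16949368) (b (a (l 16943904) (l 16864800)) (l 16883144))))))), by decide +kernel⟩

theorem c_pm_203 : CertN 1073741824 536870912 0 1230186008 469762048 67108864 3 false true false .up 2 0 3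
    ndN4q2 ndN2q3 pcN0 Cut.none Ext.none :=
  certN0 (fam := false) (s1 := true) (s2 := false) (a := 2) (b := 0) (c := 3) (cn := .up) (n1 := ndN4q2) (n2 := ndN2q3) (pc := pcN0) (cut := Cut.none) (xt := Ext.none) (P1 := 1073741824) (W1 := 536870912) (P2 := 0) (W2 := 1230186008) (P3 := 469762048) (W3 := 67108864) (N0 := 3)
    rfl k0_pm_203

noncomputable def f_pm_213 : ℕ → ℕ → ℕ → ℕ → Bool := onCell 536870912 536870912 0 1230186008 469762048 67108864
    (rowN 3 2 false true false .pnn 2 1 3 (qsf 1073741824 536870912 0 1230186008 1) ndN4q2 ndN2q3 pcN1 Cut.none Ext.none)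

def k0_pm_213 : ∃ t, chk3 f_pm_213 t 1 1 1 = true :=
  ⟨(b (b (a (a (l 16855808) (l 16822872)) (a (l 16798320) (l 16810344))) (a (a (a (l 16829224) (l 16843336)) (l 16887152)) (a (l 16956944) (l 17008272)))) (b (a (a (b (l 17103768) (l 17420256)) (l 17325528)) (l 4)) (l 4))), by decide +kernel⟩

theorem c_pm_213 : CertN 1073741824 536870912 0 1230186008 469762048 67108864 3 false true false .pnn 2 1 3
    ndN4q2 ndN2q3 pcN1 Cut.none Ext.none :=
  certN2 (fam := false) (s1 := true) (s2 := false) (a := 2) (b := 1) (c := 3) (cn := .pnn) (n1 := ndN4q2) (n2 := ndN2q3) (pc := pcN1) (cut := Cut.none) (xt := Ext.none) (P1 := 1073741824) (W1 := 536870912) (P2 := 0) (W2 := 1230186008) (P3 := 469762048) (W3 := 67108864) (N0 := 3)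
    rfl (fun _ => rfl) k0_pm_213

noncomputable def f_pm_303 : ℕ → ℕ → ℕ → ℕ → Bool := onCell 0 1230186008 0 1230186008 469762048 67108864
    (rowN 3 0 false true false .npn 3 0 3 (qsf 0 1230186008 0 1230186008 0) ndN4q3 ndN2q3 pcN0 Cut.none Ext.none)

def k0_pm_303 : ∃ t, chk3 f_pm_303 t 1 1 1 = true :=
  ⟨(a (b (l 3) (b (l 3) (l 1))) (b (a (b (l 3) (a (l 3) (b (l 249813428455) (a (l 16890648) (l 16887128))))) (b (a (l 227264728887) (a (l 16862832) (l 16864656))) (a (a (b (l 16870976) (l 16884280)) (a (l 16874744) (l 16872960))) (b (a (l 16865944) (l 16851608)) (l 16849512))))) (a (b (b (a (a (l 3) (l 16935072)) (a (l 16923248) (l 16911696))) (a (b (a (l 1) (l 16975256)) (l 1)) (b (a (l 16950984) (l 16922144)) (a (l 16961232) (l 16917608))))) (a (l 1) (b (b (a (l 1) (l 16898128)) (l 1)) (l 1)))) (b (a (b (a (l 16898008) (l 16876624)) (b (a (l 16891384) (l 16858480)) (a (l 16865864) (l 16815072)))) (b (a (l 16838856) (l 16824960)) (a (b (l 16824896) (l 16773848)) (b (l 16807680) (l 16789792)))))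 (a (b (a (b (l 16830584) (l 824667799383)) (b (l 16761864) (l 16689752))) (a (l 1) (b (l 16565200) (l 1)))) (b (a (b (l 16708544) (l 16609168)) (l 16667352)) (b (l 16583376) (a (b (l 16414576) (l 1)) (l 16757200))))))))), by decide +kernel⟩

theorem c_pm_303 : CertN 0 1230186008 0 1230186008 469762048 67108864 3 false true false .npn 3 0 3
    ndN4q3 ndN2q3 pcN0 Cut.none Ext.none :=
  certN0 (fam := false) (s1 := true) (s2 := false) (a := 3) (b := 0) (c := 3) (cn := .npn) (n1 := ndN4q3) (n2 := ndN2q3) (pc := pcN0) (cut := Cut.none) (xt := Ext.none) (P1 := 0) (W1 := 1230186008) (P2 := 0) (W2 := 1230186008) (P3 := 469762048) (W3 := 67108864) (N0 := 3)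
    rfl k0_pm_303

noncomputable def f_pm_313 : ℕ → ℕ → ℕ → ℕ → Bool := onCell 0 1230186008 0 1230186008 469762048 67108864
    (rowN 3 0 false true false .dn 3 1 3 (qsf 0 1230186008 0 1230186008 1) ndN4q3 ndN2q3 pcN1 Cut.none Ext.none)

def k0_pm_313 : ∃ t, chk3 f_pm_313 t 1 1 1 = true :=
  ⟨(a (l 1) (b (a (l 1) (b (a (l 1) (a (l 1) (l 17091304))) (l 1))) (l 1))), by decide +kernel⟩

theorem c_pm_313 : CertN 0 1230186008 0 1230186008 469762048 67108864 3 false true false .dn 3 1 3
    ndN4q3 ndN2q3 pcN1 Cut.none Ext.none :=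
  certN0 (fam := false) (s1 := true) (s2 := false) (a := 3) (b := 1) (c := 3) (cn := .dn) (n1 := ndN4q3) (n2 := ndN2q3) (pc := pcN1) (cut := Cut.none) (xt := Ext.none) (P1 := 0) (W1 := 1230186008) (P2 := 0) (W2 := 1230186008) (P3 := 469762048) (W3 := 67108864) (N0 := 3)
    rfl k0_pm_313

noncomputable def f_mm_001 : ℕ → ℕ → ℕ → ℕ → Bool := onCell 0 536870912 536870912 536870912 469762048 67108864
    (rowN 3 0 false false false .up 0 0 1 (qsf 0 536870912 536870912 536870912 0) ndN4q0 ndN2q1 pcN0 Cut.none Ext.none)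

def k0_mm_001 : ∃ t, chk3 f_mm_001 t 1 1 1 = true :=
  ⟨(l 3), by decide +kernel⟩

theorem c_mm_001 : CertN 0 536870912 536870912 536870912 469762048 67108864 3 false false false .up 0 0 1
    ndN4q0 ndN2q1 pcN0 Cut.none Ext.none :=
  certN0 (fam := false) (s1 := false) (s2 := false) (a := 0) (b := 0) (c := 1) (cn := .up) (n1 := ndN4q0) (n2 := ndN2q1) (pc := pcN0) (cut := Cut.none) (xt := Ext.none) (P1 := 0) (W1 := 536870912) (P2 := 536870912) (W2 := 536870912) (P3 := 469762048) (W3 := 67108864) (N0 := 3)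
    rfl k0_mm_001

noncomputable def f_mm_011 : ℕ → ℕ → ℕ → ℕ → Bool := onCell 0 536870912 536870912 536870912 469762048 67108864
    (rowN 3 0 false false false .pnn 0 1 1 (qsf 0 536870912 536870912 536870912 1) ndN4q0 ndN2q1 pcN1 Cut.none Ext.none)

def k0_mm_011 : ∃ t, chk3 f_mm_011 t 1 1 1 = true :=
  ⟨(l 3), by decide +kernel⟩

theorem c_mm_011 : CertN 0 536870912 536870912 536870912 469762048 67108864 3 false false false .pnn 0 1 1
    ndN4q0 ndN2q1 pcN1 Cut.none Ext.none :=
  certN0 (fam := false) (s1 := false) (s2 := false) (a := 0) (b := 1) (c := 1) (cn := .pnn) (n1 := ndN4q0) (n2 := ndN2q1) (pc := pcN1) (cut := Cut.none) (xt := Ext.none) (P1 := 0) (W1 := 536870912) (P2 := 536870912) (W2 := 536870912) (P3 := 469762048) (W3 := 67108864) (N0 := 3)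
    rfl k0_mm_011

noncomputable def f_mm_012 : ℕ → ℕ → ℕ → ℕ → Bool := onCell 0 536870912 1073741824 536870912 469762048 67108864
    (rowN 3 0 false false false .pnp 0 1 2 (qsf 0 536870912 1073741824 536870912 1) ndN4q0 ndN2q2 pcN1 Cut.none Ext.none)

def k0_mm_012 : ∃ t, chk3 f_mm_012 t 1 1 1 = true :=
  ⟨(l 5), by decide +kernel⟩

theorem c_mm_012 : CertN 0 536870912 1073741824 536870912 469762048 67108864 3 false false false .pnp 0 1 2
    ndN4q0 ndN2q2 pcN1 Cut.none Ext.none :=
  certN0 (fam := false) (s1 := false) (s2 := false) (a := 0) (b := 1) (c := 2) (cn := .pnp) (n1 := ndN4q0) (n2 := ndN2q2) (pc := pcN1) (cut := Cut.none) (xt := Ext.none) (P1 := 0) (W1 := 536870912) (P2 := 1073741824) (W2 := 536870912) (P3 := 469762048) (W3 := 67108864) (N0 := 3)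
    rfl k0_mm_012

noncomputable def f_mm_022 : ℕ → ℕ → ℕ → ℕ → Bool := onCell 0 536870912 1073741824 536870912 469762048 67108864
    (rowN 3 0 false false false .pp 0 2 2 (qsf 0 536870912 1073741824 536870912 2) ndN4q0 ndN2q2 pcN2 Cut.none Ext.none)

def k0_mm_022 : ∃ t, chk3 f_mm_022 t 1 1 1 = true :=
  ⟨(l 5), by decide +kernel⟩

theorem c_mm_022 : CertN 0 536870912 1073741824 536870912 469762048 67108864 3 false false false .pp 0 2 2
    ndN4q0 ndN2q2 pcN2 Cut.none Ext.none :=
  certN0 (fam := false) (s1 := false) (s2 := false) (a := 0) (b := 2) (c := 2) (cn := .pp) (n1 := ndN4q0) (n2 := ndN2q2) (pc := pcN2) (cut := Cut.none) (xt := Ext.none) (P1 := 0) (W1 := 536870912) (P2 := 1073741824) (W2 := 536870912) (P3 := 469762048) (W3 := 67108864) (N0 := 3)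
    rfl k0_mm_022

noncomputable def f_mm_023 : ℕ → ℕ → ℕ → ℕ → Bool := onCell 0 536870912 0 1230186008 469762048 67108864
    (rowN 3 0 false false false .up 0 2 3 (qsf 0 536870912 0 1230186008 2) ndN4q0 ndN2q3 pcN2 Cut.none Ext.none)

def k0_mm_023 : ∃ t, chk3 f_mm_023 t 1 1 1 = true :=
  ⟨(l 5), by decide +kernel⟩

theorem c_mm_023 : CertN 0 536870912 0 1230186008 469762048 67108864 3 false false false .up 0 2 3
    ndN4q0 ndN2q3 pcN2 Cut.none Ext.none :=
  certN0 (fam := false) (s1 := false) (s2 := false) (a := 0) (b := 2) (c := 3) (cn := .up) (n1 := ndN4q0) (n2 := ndN2q3) (pc := pcN2) (cut := Cut.none) (xt := Ext.none) (P1 := 0) (W1 := 536870912) (P2 := 0) (W2 := 1230186008) (P3 := 469762048) (W3 := 67108864) (N0 := 3)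
    rfl k0_mm_023

noncomputable def f_mm_033 : ℕ → ℕ → ℕ → ℕ → Bool := onCell 0 536870912 0 1230186008 469762048 67108864
    (rowN 3 0 false false false .pnn 0 3 3 (qsf 0 536870912 0 1230186008 3) ndN4q0 ndN2q3 pcN3 Cut.none Ext.none)

def k0_mm_033 : ∃ t, chk3 f_mm_033 t 1 1 1 = true :=
  ⟨(l 5), by decide +kernel⟩

theorem c_mm_033 : CertN 0 536870912 0 1230186008 469762048 67108864 3 false false false .pnn 0 3 3
    ndN4q0 ndN2q3 pcN3 Cut.none Ext.none :=
  certN0 (fam := false) (s1 := false) (s2 := false) (a := 0) (b := 3) (c := 3) (cn := .pnn) (n1 := ndN4q0) (n2 := ndN2q3) (pc := pcN3) (cut := Cut.none) (xt := Ext.none) (P1 := 0) (W1 := 536870912) (P2 := 0) (W2 := 1230186008) (P3 := 469762048) (W3 := 67108864) (N0 := 3)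
    rfl k0_mm_033

noncomputable def f_mm_101 : ℕ → ℕ → ℕ → ℕ → Bool := onCell 536870912 536870912 536870912 536870912 469762048 67108864
    (rowN 3 0 false false false .npn 1 0 1 (qsf 536870912 536870912 536870912 536870912 0) ndN4q1 ndN2q1 pcN0 Cut.none Ext.none)

def k0_mm_101 : ∃ t, chk3 f_mm_101 t 1 1 1 = true :=
  ⟨(l 3), by decide +kernel⟩

theorem c_mm_101 : CertN 536870912 536870912 536870912 536870912 469762048 67108864 3 false false false .npn 1 0 1
    ndN4q1 ndN2q1 pcN0 Cut.none Ext.none :=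
  certN0 (fam := false) (s1 := false) (s2 := false) (a := 1) (b := 0) (c := 1) (cn := .npn) (n1 := ndN4q1) (n2 := ndN2q1) (pc := pcN0) (cut := Cut.none) (xt := Ext.none) (P1 := 536870912) (W1 := 536870912) (P2 := 536870912) (W2 := 536870912) (P3 := 469762048) (W3 := 67108864) (N0 := 3)
    rfl k0_mm_101

noncomputable def f_mm_102 : ℕ → ℕ → ℕ → ℕ → Bool := onCell 536870912 536870912 1073741824 536870912 469762048 67108864
    (rowN 3 0 false false false .npp 1 0 2 (qsf 536870912 536870912 1073741824 536870912 0) ndN4q1 ndN2q2 pcN0 Cut.none Ext.none)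

def k0_mm_102 : ∃ t, chk3 f_mm_102 t 1 1 1 = true :=
  ⟨(l 5), by decide +kernel⟩

theorem c_mm_102 : CertN 536870912 536870912 1073741824 536870912 469762048 67108864 3 false false false .npp 1 0 2
    ndN4q1 ndN2q2 pcN0 Cut.none Ext.none :=
  certN0 (fam := false) (s1 := false) (s2 := false) (a := 1) (b := 0) (c := 2) (cn := .npp) (n1 := ndN4q1) (n2 := ndN2q2) (pc := pcN0) (cut := Cut.none) (xt := Ext.none) (P1 := 536870912) (W1 := 536870912) (P2 := 1073741824) (W2 := 536870912) (P3 := 469762048) (W3 := 67108864) (N0 := 3)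
    rfl k0_mm_102

noncomputable def f_mm_112 : ℕ → ℕ → ℕ → ℕ → Bool := onCell 536870912 536870912 1073741824 536870912 469762048 67108864
    (rowN 3 0 false false false .dn 1 1 2 (qsf 536870912 536870912 1073741824 536870912 1) ndN4q1 ndN2q2 pcN1 Cut.none Ext.none)

def k0_mm_112 : ∃ t, chk3 f_mm_112 t 1 1 1 = true :=
  ⟨(l 5), by decide +kernel⟩

theorem c_mm_112 : CertN 536870912 536870912 1073741824 536870912 469762048 67108864 3 false false false .dn 1 1 2
    ndN4q1 ndN2q2 pcN1 Cut.none Ext.none :=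
  certN0 (fam := false) (s1 := false) (s2 := false) (a := 1) (b := 1) (c := 2) (cn := .dn) (n1 := ndN4q1) (n2 := ndN2q2) (pc := pcN1) (cut := Cut.none) (xt := Ext.none) (P1 := 536870912) (W1 := 536870912) (P2 := 1073741824) (W2 := 536870912) (P3 := 469762048) (W3 := 67108864) (N0 := 3)
    rfl k0_mm_112

noncomputable def f_mm_113 : ℕ → ℕ → ℕ → ℕ → Bool := onCell 536870912 536870912 0 1230186008 469762048 67108864
    (rowN 3 0 false false false .nn 1 1 3 (qsf 536870912 536870912 0 1230186008 1) ndN4q1 ndN2q3 pcN1 Cut.none Ext.none)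

def k0_mm_113 : ∃ t, chk3 f_mm_113 t 1 1 1 = true :=
  ⟨(l 5), by decide +kernel⟩

theorem c_mm_113 : CertN 536870912 536870912 0 1230186008 469762048 67108864 3 false false false .nn 1 1 3
    ndN4q1 ndN2q3 pcN1 Cut.none Ext.none :=
  certN0 (fam := false) (s1 := false) (s2 := false) (a := 1) (b := 1) (c := 3) (cn := .nn) (n1 := ndN4q1) (n2 := ndN2q3) (pc := pcN1) (cut := Cut.none) (xt := Ext.none) (P1 := 536870912) (W1 := 536870912) (P2 := 0) (W2 := 1230186008) (P3 := 469762048) (W3 := 67108864) (N0 := 3)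
    rfl k0_mm_113

noncomputable def f_mm_123 : ℕ → ℕ → ℕ → ℕ → Bool := onCell 536870912 536870912 0 1230186008 469762048 67108864
    (rowN 3 0 false false false .npn 1 2 3 (qsf 536870912 536870912 0 1230186008 2) ndN4q1 ndN2q3 pcN2 Cut.none Ext.none)

def k0_mm_123 : ∃ t, chk3 f_mm_123 t 1 1 1 = true :=
  ⟨(l 5), by decide +kernel⟩

theorem c_mm_123 : CertN 536870912 536870912 0 1230186008 469762048 67108864 3 false false false .npn 1 2 3
    ndN4q1 ndN2q3 pcN2 Cut.none Ext.none :=
  certN0 (fam := false) (s1 := false) (s2 := false) (a := 1) (b := 2) (c := 3) (cn := .npn) (n1 := ndN4q1) (n2 := ndN2q3) (pc := pcN2) (cut := Cut.none) (xt := Ext.none) (P1 := 536870912) (W1 := 536870912) (P2 := 0) (W2 := 1230186008) (P3 := 469762048) (W3 := 67108864) (N0 := 3)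
    rfl k0_mm_123

noncomputable def f_mm_133 : ℕ → ℕ → ℕ → ℕ → Bool := onCell 536870912 536870912 0 1230186008 469762048 67108864
    (rowN 3 0 false false false .dn 1 3 3 (qsf 536870912 536870912 0 1230186008 3) ndN4q1 ndN2q3 pcN3 Cut.none Ext.none)

def k0_mm_133 : ∃ t, chk3 f_mm_133 t 1 1 1 = true :=
  ⟨(l 5), by decide +kernel⟩

theorem c_mm_133 : CertN 536870912 536870912 0 1230186008 469762048 67108864 3 false false false .dn 1 3 3
    ndN4q1 ndN2q3 pcN3 Cut.none Ext.none :=
  certN0 (fam := false) (s1 := false) (s2 := false) (a := 1) (b := 3) (c := 3) (cn := .dn) (n1 := ndN4q1) (n2 := ndN2q3) (pc := pcN3) (cut := Cut.none) (xt := Ext.none) (P1 := 536870912) (W1 := 536870912) (P2 := 0) (W2 := 1230186008) (P3 := 469762048) (W3 := 67108864) (N0 := 3)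
    rfl k0_mm_133

noncomputable def f_mm_202 : ℕ → ℕ → ℕ → ℕ → Bool := onCell 1073741824 536870912 0 536870912 469762048 67108864
    (rowN 3 1 false false false .pp 2 0 2 (qsf 1073741824 536870912 1073741824 536870912 0) ndN4q2 ndN2q2 pcN0 Cut.none Ext.none)

def k0_mm_202 : ∃ t, chk3 f_mm_202 t 1 1 1 = true :=
  ⟨(l 5), by decide +kernel⟩

theorem c_mm_202 : CertN 1073741824 536870912 1073741824 536870912 469762048 67108864 3 false false false .pp 2 0 2
    ndN4q2 ndN2q2 pcN0 Cut.none Ext.none :=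
  certN1 (fam := false) (s1 := false) (s2 := false) (a := 2) (b := 0) (c := 2) (cn := .pp) (n1 := ndN4q2) (n2 := ndN2q2) (pc := pcN0) (cut := Cut.none) (xt := Ext.none) (P1 := 1073741824) (W1 := 536870912) (P2 := 1073741824) (W2 := 536870912) (P3 := 469762048) (W3 := 67108864) (N0 := 3)
    rfl (fun _ => rfl) k0_mm_202

noncomputable def f_mm_203 : ℕ → ℕ → ℕ → ℕ → Bool := onCell 1073741824 536870912 0 1230186008 469762048 67108864
    (rowN 3 0 false false false .up 2 0 3 (qsf 1073741824 536870912 0 1230186008 0) ndN4q2 ndN2q3 pcN0 Cut.none Ext.none)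

def k0_mm_203 : ∃ t, chk3 f_mm_203 t 1 1 1 = true :=
  ⟨(l 5), by decide +kernel⟩

theorem c_mm_203 : CertN 1073741824 536870912 0 1230186008 469762048 67108864 3 false false false .up 2 0 3
    ndN4q2 ndN2q3 pcN0 Cut.none Ext.none :=
  certN0 (fam := false) (s1 := false) (s2 := false) (a := 2) (b := 0) (c := 3) (cn := .up) (n1 := ndN4q2) (n2 := ndN2q3) (pc := pcN0) (cut := Cut.none) (xt := Ext.none) (P1 := 1073741824) (W1 := 536870912) (P2 := 0) (W2 := 1230186008) (P3 := 469762048) (W3 := 67108864) (N0 := 3)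
    rfl k0_mm_203

noncomputable def f_mm_213 : ℕ → ℕ → ℕ → ℕ → Bool := onCell 1073741824 536870912 0 1230186008 469762048 67108864
    (rowN 3 0 false false false .pnn 2 1 3 (qsf 1073741824 536870912 0 1230186008 1) ndN4q2 ndN2q3 pcN1 Cut.none Ext.none)

def k0_mm_213 : ∃ t, chk3 f_mm_213 t 1 1 1 = true :=
  ⟨(l 5), by decide +kernel⟩

theorem c_mm_213 : CertN 1073741824 536870912 0 1230186008 469762048 67108864 3 false false false .pnn 2 1 3
    ndN4q2 ndN2q3 pcN1 Cut.none Ext.none :=
  certN0 (fam := false) (s1 := false) (s2 := false) (a := 2) (b := 1) (c := 3) (cn := .pnn) (n1 := ndN4q2) (n2 := ndN2q3) (pc := pcN1) (cut := Cut.none) (xt := Ext.none) (P1 := 1073741824) (W1 := 536870912) (P2 := 0) (W2 := 1230186008) (P3 := 469762048) (W3 := 67108864) (N0 := 3)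
    rfl k0_mm_213

noncomputable def f_mm_303 : ℕ → ℕ → ℕ → ℕ → Bool := onCell 0 1230186008 0 1230186008 469762048 67108864
    (rowN 3 0 false false false .npn 3 0 3 (qsf 0 1230186008 0 1230186008 0) ndN4q3 ndN2q3 pcN0 Cut.none Ext.none)

def k0_mm_303 : ∃ t, chk3 f_mm_303 t 1 1 1 = true :=
  ⟨(a (b (l 3) (l 3)) (b (l 5) (a (l 3) (l 5)))), by decide +kernel⟩

theorem c_mm_303 : CertN 0 1230186008 0 1230186008 469762048 67108864 3 false false false .npn 3 0 3
    ndN4q3 ndN2q3 pcN0 Cut.none Ext.none :=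
  certN0 (fam := false) (s1 := false) (s2 := false) (a := 3) (b := 0) (c := 3) (cn := .npn) (n1 := ndN4q3) (n2 := ndN2q3) (pc := pcN0) (cut := Cut.none) (xt := Ext.none) (P1 := 0) (W1 := 1230186008) (P2 := 0) (W2 := 1230186008) (P3 := 469762048) (W3 := 67108864) (N0 := 3)
    rfl k0_mm_303

noncomputable def f_mm_313 : ℕ → ℕ → ℕ → ℕ → Bool := onCell 0 1230186008 0 1230186008 469762048 67108864
    (rowN 3 0 false false false .dn 3 1 3 (qsf 0 1230186008 0 1230186008 1) ndN4q3 ndN2q3 pcN1 Cut.none Ext.none)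

def k0_mm_313 : ∃ t, chk3 f_mm_313 t 1 1 1 = true :=
  ⟨(a (l 1) (b (l 5) (l 1))), by decide +kernel⟩

theorem c_mm_313 : CertN 0 1230186008 0 1230186008 469762048 67108864 3 false false false .dn 3 1 3
    ndN4q3 ndN2q3 pcN1 Cut.none Ext.none :=
  certN0 (fam := false) (s1 := false) (s2 := false) (a := 3) (b := 1) (c := 3) (cn := .dn) (n1 := ndN4q3) (n2 := ndN2q3) (pc := pcN1) (cut := Cut.none) (xt := Ext.none) (P1 := 0) (W1 := 1230186008) (P2 := 0) (W2 := 1230186008) (P3 := 469762048) (W3 := 67108864) (N0 := 3)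
    rfl k0_mm_313

end Pool.Agent.Strip051.G.I7_16_1_2.Tab.C.NB42

namespace Pool.Agent.Strip051.G.I7_16_1_2.Tab.C.NB43

open Pool.Agent.Strip051.PB Pool.Agent.Strip051.PB.T
open Pool.Agent.Strip051.G.I7_16_1_2.Tab

noncomputable def f_pp_001 : ℕ → ℕ → ℕ → ℕ → Bool := onCell 0 536870912 536870912 536870912 469762048 67108864
    (rowN 3 0 false true true .up 0 0 1 (qsf 0 536870912 536870912 536870912 0) ndN4q0 ndN3q1 pcN0 Cut.none Ext.none)

def k0_pp_001 : ∃ t, chk3 f_pp_001 t 1 1 1 = true :=
  ⟨(l 3), by decide +kernel⟩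

theorem c_pp_001 : CertN 0 536870912 536870912 536870912 469762048 67108864 3 false true true .up 0 0 1
    ndN4q0 ndN3q1 pcN0 Cut.none Ext.none :=
  certN0 (fam := false) (s1 := true) (s2 := true) (a := 0) (b := 0) (c := 1) (cn := .up) (n1 := ndN4q0) (n2 := ndN3q1) (pc := pcN0) (cut := Cut.none) (xt := Ext.none) (P1 := 0) (W1 := 536870912) (P2 := 536870912) (W2 := 536870912) (P3 := 469762048) (W3 := 67108864) (N0 := 3)
    rfl k0_pp_001

noncomputable def f_pp_011 : ℕ → ℕ → ℕ → ℕ → Bool := onCell 0 536870912 536870912 536870912 469762048 67108864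
    (rowN 3 0 false true true .pnn 0 1 1 (qsf 0 536870912 536870912 536870912 1) ndN4q0 ndN3q1 pcN1 Cut.none Ext.none)

def k0_pp_011 : ∃ t, chk3 f_pp_011 t 1 1 1 = true :=
  ⟨(l 3), by decide +kernel⟩

theorem c_pp_011 : CertN 0 536870912 536870912 536870912 469762048 67108864 3 false true true .pnn 0 1 1
    ndN4q0 ndN3q1 pcN1 Cut.none Ext.none :=
  certN0 (fam := false) (s1 := true) (s2 := true) (a := 0) (b := 1) (c := 1) (cn := .pnn) (n1 := ndN4q0) (n2 := ndN3q1) (pc := pcN1) (cut := Cut.none) (xt := Ext.none) (P1 := 0) (W1 := 536870912) (P2 := 536870912) (W2 := 536870912) (P3 := 469762048) (W3 := 67108864) (N0 := 3)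
    rfl k0_pp_011

noncomputable def f_pp_012 : ℕ → ℕ → ℕ → ℕ → Bool := onCell 0 536870912 536870912 536870912 469762048 67108864
    (rowN 3 1 false true true .pnp 0 1 2 (qsf 0 536870912 1073741824 536870912 1) ndN4q0 ndN3q2 pcN1 Cut.none Ext.none)

def k0_pp_012 : ∃ t, chk3 f_pp_012 t 1 1 1 = true :=
  ⟨(b (l 3) (a (b (b (l 3) (a (a (l 1) (b (l 1) (l 514355951511))) (a (b (l 3) (l 311418546423)) (l 294373188279)))) (a (b (a (l 511134828343) (l 509524246071)) (a (l 479459621703) (l 16991192))) (b (a (l 16903616) (l 16937328)) (l 17046536)))) (b (a (b (l 3) (a (l 16854232) (l 16893184))) (b (l 306721656263) (l 16952000))) (a (b (l 16991872) (l 17113160)) (b (l 17053960) (l 17154024)))))), by decide +kernel⟩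

theorem c_pp_012 : CertN 0 536870912 1073741824 536870912 469762048 67108864 3 false true true .pnp 0 1 2
    ndN4q0 ndN3q2 pcN1 Cut.none Ext.none :=
  certN1 (fam := false) (s1 := true) (s2 := true) (a := 0) (b := 1) (c := 2) (cn := .pnp) (n1 := ndN4q0) (n2 := ndN3q2) (pc := pcN1) (cut := Cut.none) (xt := Ext.none) (P1 := 0) (W1 := 536870912) (P2 := 1073741824) (W2 := 536870912) (P3 := 469762048) (W3 := 67108864) (N0 := 3)
    rfl (fun _ => rfl) k0_pp_012

noncomputable def f_pp_022 : ℕ → ℕ → ℕ → ℕ → Bool := onCell 0 536870912 1073741824 536870912 469762048 67108864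
    (rowN 3 1 false true true .pp 0 2 2 (qsf 0 536870912 1073741824 536870912 2) ndN4q0 ndN3q2 pcN2 Cut.none Ext.none)

def k0_pp_022 : ∃ t, chk3 f_pp_022 t 1 1 1 = true :=
  ⟨(a (b (b (a (b (a (b (a (l 17008416) (l 17077000)) (l 16983464)) (b (l 17103880) (l 17080288))) (a (b (l 16985232) (l 16974896)) (l 17030632))) (b (a (l 17167040) (l 17200712)) (l 17172968))) (a (a (l 16945296) (l 16978328)) (l 17067448))) (b (a (l 16929240) (l 17001224)) (b (a (l 16912072) (l 16961096)) (a (l 16895424) (l 2))))) (b (b (a (b (l 17244088) (l 17284560)) (l 17272928)) (a (l 17285960) (l 17284184))) (b (a (l 17117328) (l 2)) (l 2)))), by decide +kernel⟩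

theorem c_pp_022 : CertN 0 536870912 1073741824 536870912 469762048 67108864 3 false true true .pp 0 2 2
    ndN4q0 ndN3q2 pcN2 Cut.none Ext.none :=
  certN1 (fam := false) (s1 := true) (s2 := true) (a := 0) (b := 2) (c := 2) (cn := .pp) (n1 := ndN4q0) (n2 := ndN3q2) (pc := pcN2) (cut := Cut.none) (xt := Ext.none) (P1 := 0) (W1 := 536870912) (P2 := 1073741824) (W2 := 536870912) (P3 := 469762048) (W3 := 67108864) (N0 := 3)
    rfl (fun _ => rfl) k0_pp_022

end Pool.Agent.Strip051.G.I7_16_1_2.Tab.C.NB43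

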