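import Pool.Agent.Strip051.PB.DgE
import Pool.Agent.Strip051.G.I7_16_1_2.Fact

/-! # The corner (1, 1, 2): parameters of the degenerate charts (generated) -/

set_option linter.all false

namespace Pool.Agent.Strip051.G.I7_16_1_2.Tab.DG

open Pool.Agent.Strip051.PB Pool.Agent.Strip051.PB.Dg Pool.Agent.StripNear Pool.Agent.Strip051.LC

noncomputable def pFma : Fn1 := ⟨_, _, fun h1 => (enc_norm (enc_add (enc_scale 666797 2000000 (enc_subr 15 32 h1)) (enc_rat _ 712357 20000000)))⟩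
noncomputable def pFmb : Fn1 := ⟨_, _, fun h1 => (enc_norm (enc_subr 843107 10000000 (enc_neg (enc_scale 203901 125000 (enc_subr 15 32 h1)))))⟩
noncomputable def pFmu : Fn1 := ⟨_, _, fun h1 => (mug3.enc h1)⟩
noncomputable def pFnx : Fn1 := ⟨_, _, fun h1 => (enc_norm (enc_add h1 (enc_pnc _ 3)))⟩
noncomputable def pFc0 : Fn1 := ⟨_, _, fun h1 => (enc_pnc _ 1)⟩
noncomputable def pFkc : Fn1 := ⟨_, _, fun h1 => (enc_norm (enc_add (enc_scale 15509047 10000000 (enc_subr 15 32 h1)) (enc_rat _ 172829 625000)))⟩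
noncomputable def pFjc : Fn1 := ⟨_, _, fun h1 => (enc_norm (enc_subr 8047003 15000000 (enc_scale 751971 500000 (enc_subr 15 32 h1))))⟩
noncomputable def pFca : Fn1 := ⟨_, _, fun h1 => (enc_norm (enc_sub (enc_rat _ 47409 200000) (enc_scale 78311 20000 (enc_subr 15 32 h1))))⟩
noncomputable def pFcb : Fn1 := ⟨_, _, fun h1 => (enc_norm (enc_subr 37341 100000 (enc_scale 64137 20000 (enc_subr 15 32 h1))))⟩
noncomputable def pFcc : Fn1 := ⟨_, _, fun h1 => (enc_norm (enc_sub (enc_rat _ 2507 25000) (enc_scale 125087 5000 (enc_subr 15 32 h1))))⟩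
noncomputable def pFsv : Fn1 := ⟨_, _, fun h1 => (enc_norm (enc_subr 1 16 h1))⟩
noncomputable def pFx11 : Fn1 := ⟨_, _, fun h1 => (cv1m.enc h1)⟩
noncomputable def pFx01 : Fn1 := ⟨_, _, fun h1 => (c1g.enc h1)⟩
noncomputable def pFK11 : Fn2 := ⟨_, _, fun h1 h2 => (kf1q1.enc h1 h2)⟩
noncomputable def pFK01 : Fn2 := ⟨_, _, fun h1 h2 => (kf0q1.enc h1 h2)⟩
noncomputable def pFL11 : Fn2 := ⟨_, _, fun h1 h2 => (l1q1.enc h1 h2)⟩
noncomputable def pFL01 : Fn2 := ⟨_, _, fun h1 h2 => (l0q1.enc h1 h2)⟩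
noncomputable def kFa0 : Fn1 := ⟨_, _, fun h1 => (enc_norm (enc_sub (enc_rat _ 1 28000000) (enc_scale 17 14000000 (enc_subr 15 32 h1))))⟩
noncomputable def kFa0g : Fn1 := ⟨_, _, fun h1 => (enc_norm (enc_subr 4163 200000 (enc_scale 4127 800 (enc_subr 15 32 h1))))⟩
noncomputable def kFb0 : Fn1 := ⟨_, _, fun h1 => (enc_norm (enc_scale 1 2000000 (enc_subr 15 32 h1)))⟩
noncomputable def kFb0g : Fn1 := ⟨_, _, fun h1 => (enc_norm (enc_sub (enc_rat _ 33689 200000) (enc_scale 12211 20000 (enc_subr 15 32 h1))))⟩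
noncomputable def kFd0 : Fn1 := ⟨_, _, fun h1 => (enc_norm (enc_sub (enc_rat _ 1 28000000) (enc_scale 17 14000000 (enc_subr 15 32 h1))))⟩
noncomputable def kFd0g : Fn1 := ⟨_, _, fun h1 => (enc_norm (enc_subr 4163 200000 (enc_scale 4127 800 (enc_subr 15 32 h1))))⟩
noncomputable def kFd1 : Fn1 := ⟨_, _, fun h1 => (enc_norm (enc_scale 1 1000000 (enc_subr 15 32 h1)))⟩
noncomputable def kFd1g : Fn1 := ⟨_, _, fun h1 => (enc_norm (enc_sub (enc_rat _ 33689 100000) (enc_scale 12211 10000 (enc_subr 15 32 h1))))⟩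
noncomputable def kFe0 : Fn1 := ⟨_, _, fun h1 => (enc_norm (enc_sub (enc_rat _ 1 28000000) (enc_scale 17 14000000 (enc_subr 15 32 h1))))⟩
noncomputable def kFe0g : Fn1 := ⟨_, _, fun h1 => (enc_norm (enc_subr 4163 200000 (enc_scale 4127 800 (enc_subr 15 32 h1))))⟩
noncomputable def kFe1 : Fn1 := ⟨_, _, fun h1 => (enc_norm (enc_scale 1 2000000 (enc_subr 15 32 h1)))⟩
noncomputable def kFe1g : Fn1 := ⟨_, _, fun h1 => (enc_norm (enc_sub (enc_rat _ 33689 200000) (enc_scale 12211 20000 (enc_subr 15 32 h1))))⟩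
noncomputable def cFxs1 : Fn1 := ⟨_, _, fun h1 => (enc_norm (enc_add (enc_half (dgxi.enc h1)) (enc_half (dgws.enc h1))))⟩
noncomputable def cFsB1_5 : Fn2 := ⟨_, _, fun h1 h2 => (enc_subr 15 32 h2)⟩
noncomputable def cFsB1 : Fn2 := ⟨_, _, fun h1 h2 => (enc_norm (enc_case (enc_subr 3 100 h1) (enc_subr 1688 1875 (enc_neg (enc_scale 1217 750 (cFsB1_5.enc h1 h2)))) (enc_add (enc_subr 67217 50000 (enc_neg (enc_scale 8077 5000 (cFsB1_5.enc h1 h2)))) (enc_mul (enc_norm (enc_sub (enc_rat _ 66611 5000000) (enc_scale 109 500000 (cFsB1_5.enc h1 h2)))) (enc_inv h1)))))⟩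
noncomputable def cFBs1 : Fn2 := ⟨_, _, fun h1 h2 => (cFsB1.enc h1 h2)⟩
noncomputable def cFsX1_5 : Fn2 := ⟨_, _, fun h1 h2 => (enc_subr 15 32 h2)⟩
noncomputable def cFsX1 : Fn2 := ⟨_, _, fun h1 h2 => (enc_norm (enc_case (enc_subr 3 100 h1) (enc_subr 1141 15000 (enc_neg (enc_scale 5609 3000 (cFsX1_5.enc h1 h2)))) (enc_add (enc_subr 347 3125 (enc_neg (enc_scale 17481 5000 (cFsX1_5.enc h1 h2)))) (enc_mul (enc_norm (enc_add (enc_scale 12199 250000 (cFsX1_5.enc h1 h2)) (enc_rat _ 2623 2500000))) (enc_inv h1)))))⟩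
noncomputable def nFsc1 : Fn1 := ⟨_, _, fun h1 => (enc_half h1)⟩
noncomputable def nFBv1 : Fn1 := ⟨_, _, fun h1 => (enc_norm (enc_subr 473309 250000 (enc_neg (enc_scale 1127 50000 (enc_subr 15 32 h1)))))⟩
noncomputable def nFBm1 : Fn1 := ⟨_, _, fun h1 => (enc_norm (enc_subr 1463759 250000 (enc_neg (enc_scale 459 6250 (enc_subr 15 32 h1)))))⟩
noncomputable def nFXv1 : Fn1 := ⟨_, _, fun h1 => (enc_norm (enc_add (enc_scale 97183 100000 (enc_subr 15 32 h1)) (enc_rat _ 495317 1000000)))⟩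
noncomputable def nFXm1 : Fn1 := ⟨_, _, fun h1 => (enc_norm (enc_add (enc_scale 52139 12500 (enc_subr 15 32 h1)) (enc_rat _ 55007 250000)))⟩
noncomputable def nFsc2 : Fn1 := ⟨_, _, fun h1 => (enc_norm (enc_add (enc_scale 4 5 h1) (enc_rat _ 1 5)))⟩
noncomputable def nFBv2 : Fn1 := ⟨_, _, fun h1 => (enc_rat _ 1 2)⟩
noncomputable def nFBm2 : Fn1 := ⟨_, _, fun h1 => (enc_norm (enc_add (enc_scale 171 1000 (enc_subr 15 32 h1)) (enc_rat _ 65977 25000)))⟩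
noncomputable def nFXv2 : Fn1 := ⟨_, _, fun h1 => (enc_norm (enc_add (enc_scale 1171607 800000 (enc_subr 15 32 h1)) (enc_rat _ 2660071 40000000)))⟩
noncomputable def nFXm2 : Fn1 := ⟨_, _, fun h1 => (enc_norm (enc_subr 9514089 10000000 (enc_scale 92987 40000 (enc_subr 15 32 h1))))⟩
noncomputable def nFsc3 : Fn1 := ⟨_, _, fun h1 => (enc_norm (enc_add (enc_scale 11 25 h1) (enc_rat _ 14 25)))⟩
noncomputable def nFBv3 : Fn1 := ⟨_, _, fun h1 => (enc_rat _ 1 2)⟩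
noncomputable def nFBm3 : Fn1 := ⟨_, _, fun h1 => (enc_norm (enc_add (enc_scale 7 1250 (enc_subr 15 32 h1)) (enc_rat _ 314001 125000)))⟩
noncomputable def nFXv3 : Fn1 := ⟨_, _, fun h1 => (enc_norm (enc_add (enc_scale 1171607 800000 (enc_subr 15 32 h1)) (enc_rat _ 2660071 40000000)))⟩
noncomputable def nFXm3 : Fn1 := ⟨_, _, fun h1 => (enc_norm (enc_subr 941009 10000000 (enc_scale 118651 40000 (enc_subr 15 32 h1))))⟩
noncomputable def l12F : List Knk := []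
noncomputable def laF : List Knk := [⟨7, 100, kFa0, kFa0g⟩]
noncomputable def lbF : List Knk := [⟨2, 25, kFb0, kFb0g⟩]
noncomputable def l1F : List Knk := [⟨7, 100, kFe0, kFe0g⟩, ⟨2, 25, kFe1, kFe1g⟩]
noncomputable def l2F : List Knk := [⟨7, 100, kFd0, kFd0g⟩, ⟨2, 25, kFd1, kFd1g⟩]
noncomputable def cvF1 : CvP := ⟨cFxs1, cFBs1, cFsX1⟩
noncomputable def ndFP1 : NdP := ⟨nFsc1, nFBv1, nFBm1, nFXv1, nFXm1⟩
noncomputable def ndFP2 : NdP := ⟨nFsc2, nFBv2, nFBm2, nFXv2, nFXm2⟩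
noncomputable def ndFP3 : NdP := ⟨nFsc3, nFBv3, nFBm3, nFXv3, nFXm3⟩
noncomputable def pF : Pm := ⟨pFma, pFmb, pFmu, pFnx, pFc0, pFkc, pFjc, pFkc, pFjc, pFkc, pFjc, pFca, pFcb, pFcc, pFcc, pFcc, pFsv, l12F, l12F, l12F, laF, lbF, l1F, l2F, cvF1, pFx11, pFx01, pFK11, pFK01, pFL11, pFL01⟩
noncomputable def pNc0 : Fn1 := ⟨_, _, fun h1 => (enc_norm (enc_add (enc_pnc _ 1) (enc_mul (mug3.enc h1) (gug.enc h1))))⟩
noncomputable def pNk12_3 : Fn1 := ⟨_, _, fun h1 => (enc_subr 15 32 h1)⟩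
noncomputable def pNk12 : Fn1 := ⟨_, _, fun h1 => (enc_norm (enc_add (enc_mul (pNc0.enc h1) (enc_norm (enc_add (enc_scale 15509047 10000000 (pNk12_3.enc h1)) (enc_rat _ 172829 625000)))) (enc_mul (pFmu.enc h1) (enc_norm (enc_subr 3402943 1000000 (enc_neg (enc_scale 44659 6250 (pNk12_3.enc h1))))))))⟩
noncomputable def pNj12_3 : Fn1 := ⟨_, _, fun h1 => (enc_subr 15 32 h1)⟩
noncomputable def pNj12 : Fn1 := ⟨_, _, fun h1 => (enc_norm (enc_add (enc_mul (pNc0.enc h1) (enc_norm (enc_subr 8047003 15000000 (enc_scale 751971 500000 (pNj12_3.enc h1))))) (enc_mul (pFmu.enc h1) (enc_norm (enc_add (enc_scale 75458 5625 (pNj12_3.enc h1)) (enc_rat _ 2633533 450000))))))⟩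
noncomputable def pNk23_3 : Fn1 := ⟨_, _, fun h1 => (enc_subr 15 32 h1)⟩
noncomputable def pNk23 : Fn1 := ⟨_, _, fun h1 => (enc_norm (enc_add (enc_mul (pNc0.enc h1) (enc_norm (enc_add (enc_scale 15509047 10000000 (pNk23_3.enc h1)) (enc_rat _ 172829 625000)))) (enc_mul (pFmu.enc h1) (enc_norm (enc_subr 3402943 1000000 (enc_neg (enc_scale 44659 6250 (pNk23_3.enc h1))))))))⟩
noncomputable def pNj23_3 : Fn1 := ⟨_, _, fun h1 => (enc_subr 15 32 h1)⟩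
noncomputable def pNj23 : Fn1 := ⟨_, _, fun h1 => (enc_norm (enc_add (enc_mul (pNc0.enc h1) (enc_norm (enc_subr 8047003 15000000 (enc_scale 751971 500000 (pNj23_3.enc h1))))) (enc_mul (pFmu.enc h1) (enc_norm (enc_add (enc_scale 44659 3125 (pNj23_3.enc h1)) (enc_rat _ 3402943 500000))))))⟩
noncomputable def pNk13_3 : Fn1 := ⟨_, _, fun h1 => (enc_subr 15 32 h1)⟩
noncomputable def pNk13 : Fn1 := ⟨_, _, fun h1 => (enc_norm (enc_add (enc_mul (pNc0.enc h1) (enc_norm (enc_add (enc_scale 15509047 10000000 (pNk13_3.enc h1)) (enc_rat _ 172829 625000)))) (enc_mul (pFmu.enc h1) (enc_norm (enc_subr 237673 100000 (enc_neg (enc_scale 5699 100000 (pNk13_3.enc h1))))))))⟩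
noncomputable def pNj13_3 : Fn1 := ⟨_, _, fun h1 => (enc_subr 15 32 h1)⟩
noncomputable def pNj13 : Fn1 := ⟨_, _, fun h1 => (enc_norm (enc_add (enc_mul (pNc0.enc h1) (enc_norm (enc_subr 8047003 15000000 (enc_scale 751971 500000 (pNj13_3.enc h1))))) (enc_mul (pFmu.enc h1) (enc_norm (enc_add (enc_scale 720243 100000 (pNj13_3.enc h1)) (enc_rat _ 5779673 1000000))))))⟩
noncomputable def pNc12 : Fn1 := ⟨_, _, fun h1 => (enc_norm (enc_mul (pNc0.enc h1) (enc_norm (enc_sub (enc_rat _ 2507 25000) (enc_scale 125087 5000 (enc_subr 15 32 h1))))))⟩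
noncomputable def pNc23 : Fn1 := ⟨_, _, fun h1 => (enc_norm (enc_mul (pNc0.enc h1) (enc_norm (enc_sub (enc_rat _ 2507 25000) (enc_scale 125087 5000 (enc_subr 15 32 h1))))))⟩
noncomputable def pNc13 : Fn1 := ⟨_, _, fun h1 => (enc_norm (enc_mul (pNc0.enc h1) (enc_norm (enc_sub (enc_rat _ 2507 25000) (enc_scale 125087 5000 (enc_subr 15 32 h1))))))⟩
noncomputable def pNK11 : Fn2 := ⟨_, _, fun h1 h2 => (kn1q1.enc h1 h2)⟩
noncomputable def pNK01 : Fn2 := ⟨_, _, fun h1 h2 => (kn0q1.enc h1 h2)⟩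
noncomputable def cNsD1 : Fn2 := ⟨_, _, fun h1 h2 => (enc_norm (enc_add (enc_scale 44659 3125 (enc_subr 15 32 h2)) (enc_rat _ 3402943 500000)))⟩
noncomputable def cNBs1 : Fn2 := ⟨_, _, fun h1 h2 => (enc_norm (enc_add (enc_mul (pNc0.enc h2) (cFsB1.enc h1 h2)) (enc_mul (pFmu.enc h2) (cNsD1.enc h1 h2))))⟩
noncomputable def nNBv1_3 : Fn1 := ⟨_, _, fun h1 => (enc_subr 15 32 h1)⟩
noncomputable def nNBv1 : Fn1 := ⟨_, _, fun h1 => (enc_norm (enc_add (enc_mul (pNc0.enc h1) (enc_norm (enc_subr 473309 250000 (enc_neg (enc_scale 1127 50000 (nNBv1_3.enc h1)))))) (enc_mul (pFmu.enc h1) (enc_norm (enc_add (enc_scale 1 25000 (nNBv1_3.enc h1)) (enc_rat _ 828559 125000))))))⟩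
noncomputable def nNBm1_3 : Fn1 := ⟨_, _, fun h1 => (enc_subr 15 32 h1)⟩
noncomputable def nNBm1 : Fn1 := ⟨_, _, fun h1 => (enc_norm (enc_add (enc_mul (pNc0.enc h1) (enc_norm (enc_subr 1463759 250000 (enc_neg (enc_scale 459 6250 (nNBm1_3.enc h1)))))) (enc_mul (pFmu.enc h1) (enc_norm (enc_add (enc_scale 17 25000 (nNBm1_3.enc h1)) (enc_rat _ 1265529 50000))))))⟩
noncomputable def nNBv2 : Fn1 := ⟨_, _, fun h1 => (enc_half (pNc0.enc h1))⟩
noncomputable def nNBm2_3 : Fn1 := ⟨_, _, fun h1 => (enc_subr 15 32 h1)⟩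
noncomputable def nNBm2 : Fn1 := ⟨_, _, fun h1 => (enc_norm (enc_add (enc_mul (pNc0.enc h1) (enc_norm (enc_add (enc_scale 171 1000 (nNBm2_3.enc h1)) (enc_rat _ 65977 25000)))) (enc_mul (pFmu.enc h1) (enc_norm (enc_sub (enc_rat _ 1835470259 2343750000) (enc_scale 25139 156250000 (nNBm2_3.enc h1)))))))⟩
noncomputable def nNBv3 : Fn1 := ⟨_, _, fun h1 => (enc_half (pNc0.enc h1))⟩
noncomputable def nNBm3_3 : Fn1 := ⟨_, _, fun h1 => (enc_subr 15 32 h1)⟩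
noncomputable def nNBm3 : Fn1 := ⟨_, _, fun h1 => (enc_norm (enc_add (enc_mul (pNc0.enc h1) (enc_norm (enc_add (enc_scale 7 1250 (nNBm3_3.enc h1)) (enc_rat _ 314001 125000)))) (enc_mul (pFmu.enc h1) (enc_norm (enc_subr 2438691 500000 (enc_neg (enc_scale 9 50000 (nNBm3_3.enc h1))))))))⟩
noncomputable def l12N : List Knk := []
noncomputable def l23N : List Knk := []
noncomputable def l13N : List Knk := []
noncomputable def cvN1 : CvP := ⟨cFxs1, cNBs1, cFsX1⟩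
noncomputable def ndNP1 : NdP := ⟨nFsc1, nNBv1, nNBm1, nFXv1, nFXm1⟩
noncomputable def ndNP2 : NdP := ⟨nFsc2, nNBv2, nNBm2, nFXv2, nFXm2⟩
noncomputable def ndNP3 : NdP := ⟨nFsc3, nNBv3, nNBm3, nFXv3, nFXm3⟩
noncomputable def pN : Pm := ⟨pFma, pFmb, pFmu, pFnx, pNc0, pNk12, pNj12, pNk23, pNj23, pNk13, pNj13, pFca, pFcb, pNc12, pNc23, pNc13, pFsv, l12N, l23N, l13N, laF, lbF, l1F, l2F, cvN1, pFx11, pFx01, pNK11, pNK01, pFL11, pFL01⟩

end Pool.Agent.Strip051.G.I7_16_1_2.Tab.DG
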