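import Pool.Agent.Strip051.PB.FlAsm
import Pool.Agent.Strip051.G.I7_16_1_2.Tab

/-! # Slopes (generated) -/

set_option linter.all false

namespace Pool.Agent.Strip051.G.I7_16_1_2.Tab

open Pool.Agent.Strip051.PB

attribute [local irreducible] padd psub pneg pmul psq pinv psqrt psqrtg pabs pps pmax pmin pphi
  plam pcase phf pnat prat pscale pnorm pdc pnc pone ppos pnn

noncomputable def c1g_fs : Sl1 c1g := ⟨_, fun h1 => (pr_sqrtg (pr_csub (enc_pnc _ 1) (pr_scale 3 4 (pr_sq h1))))⟩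
noncomputable def kcg_6_fs : Sl2 kcg_6 := ⟨_, fun h1 h2 => (pr_addc h1 (enc_rat _ 1 4))⟩
noncomputable def kcg_9_fs : Sl2 kcg_9 := ⟨_, fun h1 h2 => (pr_addc h1 (enc_rat _ 7 20))⟩
noncomputable def kcg_10_fs : Sl2 kcg_10 := ⟨_, fun h1 h2 => (pr_scale 7821373 15000000 h1)⟩
noncomputable def kcg_14_fs : Sl2 kcg_14 := ⟨_, fun h1 h2 => (pr_scale 562167 250000 h1)⟩
noncomputable def kcg_33_fs : Sl2 kcg_33 := ⟨_, fun h1 h2 => (pr_scale 5095533 10000000 h1)⟩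
noncomputable def kcg_37_fs : Sl2 kcg_37 := ⟨_, fun h1 h2 => (pr_scale 2994247 500000 h1)⟩
noncomputable def kcg_54_fs : Sl2 kcg_54 := ⟨_, fun h1 h2 => (pr_addc h1 (enc_rat _ 311 1898))⟩
noncomputable def kcg_55_fs : Sl2 kcg_55 := ⟨_, fun h1 h2 => (pr_scale 1690169 7500000 h1)⟩
noncomputable def kcg_59_fs : Sl2 kcg_59 := ⟨_, fun h1 h2 => (pr_scale 774054697 163500000 h1)⟩
noncomputable def kcg_75_fs : Sl2 kcg_75 := ⟨_, fun h1 h2 => (pr_scale 1803389087227 3015375000000 h1)⟩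
noncomputable def kcg_79_fs : Sl2 kcg_79 := ⟨_, fun h1 h2 => (pr_scale 526612939021 301537500000 h1)⟩
noncomputable def kcg_93_fs : Sl2 kcg_93 := ⟨_, fun h1 h2 => (pr_scale 62907073 50000000 h1)⟩
noncomputable def kcg_99_fs : Sl2 kcg_99 := ⟨_, fun h1 h2 => (pr_csub (enc_rat _ 1 4) h1)⟩
noncomputable def kcg_100_fs : Sl2 kcg_100 := ⟨_, fun h1 h2 => (pr_csub (enc_rat _ 7 20) h1)⟩
noncomputable def kcg_123_fs : Sl2 kcg_123 := ⟨_, fun h1 h2 => (pr_csub (enc_rat _ 311 1898) h1)⟩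
noncomputable def kcg_fs : Sl2 kcg := ⟨_, fun h1 h2 => (pr_norm (pr_case h1 (pr_case (kcg_6_fs.snd h1 h2) (pr_case (kcg_9_fs.snd h1 h2) (pr_add (pr_add (pr_subr 474419 30000000 (kcg_10_fs.snd h1 h2)) (pr_cmul (enc_norm (kcg_3.enc h1.l h2)) (pr_norm (pr_subr 4265707 10000000 (kcg_14_fs.snd h1 h2))))) (pr_cmul (enc_norm (kcg_25.enc h1.l h2)) (pr_norm (pr_mul (pr_norm (pr_addc h1 (enc_rat _ 1 2))) (pr_norm (pr_csub (enc_neg (enc_rat _ 7 20)) h1)))))) (pr_add (pr_add (pr_subr 3993803 200000000 (kcg_33_fs.snd h1 h2)) (pr_cmul (enc_norm (kcg_3.enc h1.l h2)) (pr_norm (pr_addc (kcg_37_fs.snd h1 h2) (enc_rat _ 2205921 2500000))))) (pr_cmul (enc_norm (kcg_46.enc h1.l h2)) (pr_norm (pr_mul (pr_norm (kcg_9_fs.snd h1 h2)) (pr_norm (pr_csub (enc_neg (enc_rat _ 1 4)) h1))))))) (pr_case (kcg_54_fs.snd h1 h2) (pr_add (pr_add (pr_subr 3413189 37500000 (kcg_55_fs.snd h1 h2))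 (pr_cmul (enc_norm (kcg_3.enc h1.l h2)) (pr_norm (pr_addc (kcg_59_fs.snd h1 h2) (enc_rat _ 465006077 817500000))))) (pr_cmul (enc_norm (kcg_67.enc h1.l h2)) (pr_norm (pr_mul (pr_norm (kcg_6_fs.snd h1 h2)) (pr_norm (pr_csub (enc_neg (enc_rat _ 311 1898)) h1)))))) (pr_case (pr_addc h1 (enc_rat _ 73 1609)) (pr_add (pr_add (pr_subr 180606193777 6030750000000 (kcg_75_fs.snd h1 h2)) (pr_cmul (enc_norm (kcg_3.enc h1.l h2)) (pr_norm (pr_addc (kcg_79_fs.snd h1 h2) (enc_rat _ 23892321037 301537500000))))) (pr_cmul (enc_norm (kcg_88.enc h1.l h2)) (pr_norm (pr_mul (pr_norm (kcg_54_fs.snd h1 h2)) (pr_norm (pr_csub (enc_neg (enc_rat _ 73 1609)) h1)))))) (kcg_93_fs.snd h1 h2)))) (pr_neg (pr_case (kcg_99_fs.snd h1 h2) (pr_case (kcg_100_fs.snd h1 h2) (pr_add (pr_add (pr_subr 474419 30000000 (pr_neg (kcg_10_fs.snd h1 h2))) (pr_cmul (enc_norm (kcg_3.enc h1.l h2)) (pr_norm (pr_subr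 4265707 10000000 (pr_neg (kcg_14_fs.snd h1 h2)))))) (pr_cmul (enc_norm (kcg_25.enc h1.l h2)) (pr_norm (pr_mul (pr_norm (pr_csub (enc_rat _ 1 2) h1)) (pr_norm (pr_subr 7 20 h1)))))) (pr_add (pr_add (pr_subr 3993803 200000000 (pr_neg (kcg_33_fs.snd h1 h2))) (pr_cmul (enc_norm (kcg_3.enc h1.l h2)) (pr_norm (pr_csub (enc_rat _ 2205921 2500000) (kcg_37_fs.snd h1 h2))))) (pr_cmul (enc_norm (kcg_46.enc h1.l h2)) (pr_norm (pr_mul (pr_norm (kcg_100_fs.snd h1 h2)) (pr_norm (pr_subr 1 4 h1))))))) (pr_case (kcg_123_fs.snd h1 h2) (pr_add (pr_add (pr_subr 3413189 37500000 (pr_neg (kcg_55_fs.snd h1 h2))) (pr_cmul (enc_norm (kcg_3.enc h1.l h2)) (pr_norm (pr_csub (enc_rat _ 465006077 817500000) (kcg_59_fs.snd h1 h2))))) (pr_cmul (enc_norm (kcg_67.enc h1.l h2)) (pr_norm (pr_mul (pr_norm (kcg_99_fs.snd h1 h2)) (pr_norm (pr_subr 311 1898 h1)))))) (pr_case (pr_csub (enc_rat _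 73 1609) h1) (pr_add (pr_add (pr_subr 180606193777 6030750000000 (pr_neg (kcg_75_fs.snd h1 h2))) (pr_cmul (enc_norm (kcg_3.enc h1.l h2)) (pr_norm (pr_csub (enc_rat _ 23892321037 301537500000) (kcg_79_fs.snd h1 h2))))) (pr_cmul (enc_norm (kcg_88.enc h1.l h2)) (pr_norm (pr_mul (pr_norm (kcg_123_fs.snd h1 h2)) (pr_norm (pr_subr 73 1609 h1)))))) (pr_neg (kcg_93_fs.snd h1 h2))))))))⟩
noncomputable def kf0q0_9_fs : Sl2 kf0q0_9 := ⟨_, fun h1 h2 => (pr_scale 3 2 h1)⟩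
noncomputable def kf0q0_12_fs : Sl2 kf0q0_12 := ⟨_, fun h1 h2 => (pr_cadd (enc_pnc _ 1) (c1g_fs.snd h1))⟩
noncomputable def kf0q0_fs : Sl2 kf0q0 := ⟨_, fun h1 h2 => (pr_norm (pr_add (pr_mul (pr_norm (pr_mul (pr_norm (pr_sub (c1g_fs.snd h1) (kf0q0_9_fs.snd h1 h2))) (pr_norm (kf0q0_12_fs.snd h1 h2)))) (pr_nd (pr_inv (pr_sub (kf0q0_12_fs.snd h1 h2) (kf0q0_9_fs.snd h1 h2))))) (pr_mul h1 (kcg_fs.snd (pr_norm (pr_sub (pr_scale 3 4 h1) (pr_half (c1g_fs.snd h1)))) h2))))⟩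
noncomputable def txg_6_fs : Sl3 txg_6 := ⟨_, fun h1 h2 h3 => (pr_add h1 (pr_half h2))⟩
noncomputable def txg_27_fs : Sl3 txg_27 := ⟨_, fun h1 h2 h3 => (pr_addc h1 (enc_rat _ 9 25))⟩
noncomputable def txg_30_fs : Sl3 txg_30 := ⟨_, fun h1 h2 h3 => (pr_addc h1 (enc_rat _ 43 100))⟩
noncomputable def txg_75_fs : Sl3 txg_75 := ⟨_, fun h1 h2 h3 => (pr_addc h1 (enc_rat _ 3 10))⟩
noncomputable def txg_97_fs : Sl3 txg_97 := ⟨_, fun h1 h2 h3 => (pr_addc h1 (enc_rat _ 23 100))⟩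
noncomputable def txg_151_fs : Sl3 txg_151 := ⟨_, fun h1 h2 h3 => (pr_addc h1 (enc_rat _ 73 1609))⟩
noncomputable def txg_153_fs : Sl3 txg_153 := ⟨_, fun h1 h2 h3 => (pr_subr 3 20 h1)⟩
noncomputable def txg_155_fs : Sl3 txg_155 := ⟨_, fun h1 h2 h3 => (pr_subr 1 40 h1)⟩
noncomputable def txg_157_fs : Sl3 txg_157 := ⟨_, fun h1 h2 h3 => (pr_addc h1 (enc_rat _ 1 40))⟩
noncomputable def txg_196_fs : Sl3 txg_196 := ⟨_, fun h1 h2 h3 => (pr_subr 3 50 h1)⟩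
noncomputable def txg_216_fs : Sl3 txg_216 := ⟨_, fun h1 h2 h3 => (pr_subr 1 10 h1)⟩
noncomputable def txg_259_fs : Sl3 txg_259 := ⟨_, fun h1 h2 h3 => (pr_subr 13 50 h1)⟩
noncomputable def txg_261_fs : Sl3 txg_261 := ⟨_, fun h1 h2 h3 => (pr_subr 1 5 h1)⟩
noncomputable def txg_306_fs : Sl3 txg_306 := ⟨_, fun h1 h2 h3 => (pr_subr 17 50 h1)⟩
noncomputable def txg_326_fs : Sl3 txg_326 := ⟨_, fun h1 h2 h3 => (pr_subr 21 50 h1)⟩
noncomputable def txg_fs : Sl3 txg := ⟨_, fun h1 h2 h3 => (pr_case (pr_addc h1 (enc_rat _ 311 1898)) (pr_case (txg_27_fs.snd h1 h2 h3) (pr_case (txg_30_fs.snd h1 h2 h3) (pr_add (pr_add (pr_addc (pr_scale 52211 1000000 h1) (enc_rat _ 52211 2000000)) (pr_cmul (enc_norm (txg_4.enc h1.l h2.l h3)) (pr_norm (pr_addc (pr_scale 5931 100000 h1) (enc_rat _ 5931 200000))))) (pr_cmul (enc_norm (enc_subr 47409 200000 (enc_scale 78311 20000 (txg_4.enc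 h1.l h2.l h3)))) (pr_norm (pr_mul (pr_norm (pr_addc h1 (enc_rat _ 1 2))) (pr_norm (pr_csub (enc_neg (enc_rat _ 43 100)) h1)))))) (pr_add (pr_add (pr_addc (pr_scale 293791 3500000 h1) (enc_rat _ 5564873 140000000)) (pr_cmul (enc_norm (txg_4.enc h1.l h2.l h3)) (pr_norm (pr_subr 888707 17500000 (pr_neg (pr_scale 89429 700000 h1)))))) (pr_cmul (enc_norm (enc_subr 21623 100000 (enc_neg (enc_scale 777 625 (txg_4.enc h1.l h2.l h3))))) (pr_norm (pr_mul (pr_norm (txg_30_fs.snd h1 h2 h3)) (pr_norm (pr_csub (enc_neg (enc_rat _ 9 25)) h1))))))) (pr_case (txg_75_fs.snd h1 h2 h3) (pr_add (pr_add (pr_addc (pr_scale 439001 3000000 h1) (enc_rat _ 6221071 100000000)) (pr_cmul (enc_norm (txg_4.enc h1.l h2.l h3)) (pr_norm (pr_subr 196981 5000000 (pr_neg (pr_scale 769 8000 h1)))))) (pr_cmul (enc_norm (enc_subr 39381 50000 (enc_scale 3693 4000 (txg_4.enc h1.l h2.l h3)))) (pr_norm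 (pr_mul (pr_norm (txg_27_fs.snd h1 h2 h3)) (pr_norm (pr_csub (enc_neg (enc_rat _ 3 10)) h1)))))) (pr_case (txg_97_fs.snd h1 h2 h3) (pr_add (pr_add (pr_addc (pr_scale 50683 218750 h1) (enc_rat _ 61473107 700000000)) (pr_cmul (enc_norm (txg_4.enc h1.l h2.l h3)) (pr_norm (pr_subr 886277 10000000 (pr_neg (pr_scale 26023 100000 h1)))))) (pr_cmul (enc_norm (enc_subr 2177313 4000000 (enc_scale 7764867 5000000 (txg_4.enc h1.l h2.l h3)))) (pr_norm (pr_mul (pr_norm (txg_75_fs.snd h1 h2 h3)) (pr_norm (pr_csub (enc_neg (enc_rat _ 23 100)) h1)))))) (pr_add (pr_add (pr_add (pr_addc (pr_scale 848781637369 2978436500000 h1) (enc_rat _ 11922508673503 119137460000000)) (pr_cmul (enc_norm (txg_4.enc h1.l h2.l h3)) (pr_norm (pr_subr 38782144823907 595687300000000 (pr_neg (pr_scale 940928778429 5956873000000 h1)))))) (pr_cmul (enc_sq (enc_norm (txg_4.enc h1.l h2.l h3))) (pr_norm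 (pr_subr 785294037 3923125000 (pr_neg (pr_scale 34143219 39231250 h1)))))) (pr_cmul (enc_norm (enc_subr 11474131 50000000 (enc_neg (enc_scale 31897437 10000000 (txg_4.enc h1.l h2.l h3))))) (pr_norm (pr_mul (pr_norm (txg_97_fs.snd h1 h2 h3)) (pr_norm (pr_csub (enc_neg (enc_rat _ 311 1898)) h1))))))))) (pr_case (txg_151_fs.snd h1 h2 h3) (pr_sub (pr_mul (pr_norm (pr_csub (enc_pnc _ 1) h2)) (pr_norm (pr_subn 1 (pr_nat 2 h2)))) (pr_mul (pr_norm (pr_nat 2 (pr_subc (pr_scale 4 3 (txg_6_fs.snd h1 h2 h3)) h3))) (pr_norm (pr_mul (pr_norm (pr_subn 1 (pr_add (pr_scale 2 3 (txg_6_fs.snd h1 h2 h3)) h2))) (kcg_fs.snd h1 h3))))) (pr_case (txg_153_fs.snd h1 h2 h3) (pr_case (txg_155_fs.snd h1 h2 h3) (pr_case (txg_157_fs.snd h1 h2 h3) (pr_add (pr_add (pr_addc (pr_scale 3072022179931 14062660000000 h1) (enc_rat _ 11027484662351 112501280000000)) (pr_cmul (enc_norm (txg_4.enc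 h1.l h2.l h3)) (pr_norm (pr_subr 169173193 32775000000 (pr_scale 223287767 819375000 h1))))) (pr_cmul (enc_norm (enc_add (enc_scale 26456433 5000000 (txg_4.enc h1.l h2.l h3)) (enc_rat _ 145642779 100000000))) (pr_norm (pr_mul (pr_norm (txg_151_fs.snd h1 h2 h3)) (pr_norm (pr_csub (enc_neg (enc_rat _ 1 40)) h1)))))) (pr_add (pr_add (pr_addc (pr_scale 2467 312500 h1) (enc_rat _ 4637851 50000000)) (pr_cmul (enc_norm (txg_4.enc h1.l h2.l h3)) (pr_norm (pr_subr 5383 10000000 (pr_scale 114361 250000 h1))))) (pr_cmul (enc_norm (enc_sub (enc_rat _ 361781261 100000000) (enc_scale 58543499 10000000 (txg_4.enc h1.l h2.l h3)))) (pr_norm (pr_mul (pr_norm (txg_157_fs.snd h1 h2 h3)) (pr_norm (pr_csub (enc_rat _ 1 40) h1))))))) (pr_case (txg_196_fs.snd h1 h2 h3) (pr_add (pr_add (pr_csub (enc_rat _ 4905639 50000000) (pr_scale 3224 15625 h1)) (pr_cmul (enc_norm (txg_4.enc h1.l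 h2.l h3)) (pr_norm (pr_subr 210269 70000000 (pr_scale 194623 350000 h1))))) (pr_cmul (enc_norm (enc_add (enc_scale 110911 20000 (txg_4.enc h1.l h2.l h3)) (enc_rat _ 190513 200000))) (pr_norm (pr_mul (pr_norm (txg_155_fs.snd h1 h2 h3)) (pr_norm (pr_csub (enc_rat _ 3 50) h1)))))) (pr_case (txg_216_fs.snd h1 h2 h3) (pr_add (pr_add (pr_csub (enc_rat _ 10052901 100000000) (pr_scale 493213 2000000 h1)) (pr_cmul (enc_norm (txg_4.enc h1.l h2.l h3)) (pr_norm (pr_subr 31733 10000000 (pr_scale 55889 100000 h1))))) (pr_cmul (enc_norm (enc_sub (enc_rat _ 6931 40000) (enc_scale 49229 10000 (txg_4.enc h1.l h2.l h3)))) (pr_norm (pr_mul (pr_norm (txg_196_fs.snd h1 h2 h3)) (pr_norm (pr_csub (enc_rat _ 1 10) h1)))))) (pr_add (pr_add (pr_csub (enc_rat _ 5077063 50000000) (pr_scale 256729 1000000 h1)) (pr_cmul (enc_norm (txg_4.enc h1.l h2.l h3)) (pr_norm (pr_subr 44709 2000000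 (pr_scale 375351 500000 h1))))) (pr_cmul (enc_norm (enc_add (enc_scale 2041 20000 (txg_4.enc h1.l h2.l h3)) (enc_rat _ 2553 40000))) (pr_norm (pr_mul (pr_norm (txg_216_fs.snd h1 h2 h3)) (pr_norm (pr_csub (enc_rat _ 3 20) h1))))))))) (pr_case (txg_259_fs.snd h1 h2 h3) (pr_case (txg_261_fs.snd h1 h2 h3) (pr_add (pr_add (pr_csub (enc_rat _ 4998553 50000000) (pr_scale 246261 1000000 h1)) (pr_cmul (enc_norm (txg_4.enc h1.l h2.l h3)) (pr_norm (pr_subr 260427 10000000 (pr_scale 77529 100000 h1))))) (pr_cmul (enc_norm (enc_subr 54637 200000 (enc_neg (enc_scale 2969 5000 (txg_4.enc h1.l h2.l h3))))) (pr_norm (pr_mul (pr_norm (txg_153_fs.snd h1 h2 h3)) (pr_norm (pr_csub (enc_rat _ 1 5) h1)))))) (pr_add (pr_add (pr_csub (enc_rat _ 4748653 50000000) (pr_scale 221271 1000000 h1)) (pr_cmul (enc_norm (txg_4.enc h1.l h2.l h3)) (pr_norm (pr_subr 1019431 30000000 (pr_scale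 488989 600000 h1))))) (pr_cmul (enc_norm (enc_subr 37769 200000 (enc_neg (enc_scale 1667 10000 (txg_4.enc h1.l h2.l h3))))) (pr_norm (pr_mul (pr_norm (txg_261_fs.snd h1 h2 h3)) (pr_norm (pr_csub (enc_rat _ 13 50) h1))))))) (pr_case (txg_306_fs.snd h1 h2 h3) (pr_add (pr_add (pr_csub (enc_rat _ 8772543 100000000) (pr_scale 386791 2000000 h1)) (pr_cmul (enc_norm (txg_4.enc h1.l h2.l h3)) (pr_norm (pr_addc (pr_scale 3057 50000 h1) (enc_rat _ 810089 5000000))))) (pr_cmul (enc_norm (enc_subr 20681 100000 (enc_scale 190961 20000 (txg_4.enc h1.l h2.l h3)))) (pr_norm (pr_mul (pr_norm (txg_259_fs.snd h1 h2 h3)) (pr_norm (pr_csub (enc_rat _ 17 50) h1)))))) (pr_case (txg_326_fs.snd h1 h2 h3) (pr_add (pr_add (pr_csub (enc_rat _ 1530503 20000000) (pr_scale 320907 2000000 h1)) (pr_cmul (enc_norm (txg_4.enc h1.l h2.l h3)) (pr_norm (pr_csub (enc_rat _ 9846879 20000000) (pr_scale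 364163 400000 h1))))) (pr_cmul (enc_norm (enc_subr 40993 200000 (enc_scale 25963 10000 (txg_4.enc h1.l h2.l h3)))) (pr_norm (pr_mul (pr_norm (txg_306_fs.snd h1 h2 h3)) (pr_norm (pr_csub (enc_rat _ 21 50) h1)))))) (pr_add (pr_add (pr_csub (enc_rat _ 228367 4000000) (pr_scale 228367 2000000 h1)) (pr_cmul (enc_norm (txg_4.enc h1.l h2.l h3)) (pr_norm (pr_csub (enc_rat _ 68733 100000) (pr_scale 68733 50000 h1))))) (pr_cmul (enc_norm (enc_subr 37341 100000 (enc_scale 64137 20000 (txg_4.enc h1.l h2.l h3)))) (pr_norm (pr_mul (pr_norm (txg_326_fs.snd h1 h2 h3)) (pr_norm (pr_csub (enc_rat _ 1 2) h1))))))))))))⟩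
noncomputable def l0q0_fs : Sl2 l0q0 := ⟨_, fun h1 h2 => (pr_norm (txg_fs.snd (pr_norm (pr_sub (pr_scale 3 4 h1) (pr_half (c1g_fs.snd h1)))) (pr_nd (c1g_fs.snd h1)) h2))⟩
noncomputable def swg_fs : Sl1 swg := ⟨_, fun h1 => (pr_sqrt (pr_csub (enc_pnc _ 1) (pr_scale 3 4 (pr_sq (pr_norm (pr_subn 1 h1))))))⟩
noncomputable def cv1m_fs : Sl1 cv1m := ⟨_, fun h1 => (pr_norm (pr_add (pr_half (c1g_fs.snd h1)) (pr_half (pr_addc (swg_fs.snd h1) (enc_rat _ 1 2)))))⟩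
noncomputable def bf1q0_fs : Sl2 bf1q0 := ⟨_, fun h1 h2 => (pr_norm (pr_case (pr_subr 1 4 h1) (pr_add (pr_csub (enc_pnc _ 1) (pr_scale 90947 62500 h1)) (pr_cmul (enc_norm (bf1q0_3.enc h1.l h2)) (pr_nd (pr_scale 43019 12500 h1)))) (pr_add (pr_csub (enc_rat _ 1000067 1000000) (pr_scale 72771 50000 h1)) (pr_cmul (enc_norm (bf1q0_3.enc h1.l h2)) (pr_norm (pr_addc (pr_scale 42937 12500 h1) (enc_rat _ 41 25000)))))))⟩
noncomputable def kf1q0_fs : Sl2 kf1q0 := ⟨_, fun h1 h2 => (pr_norm (pr_mul (cv1m_fs.snd h1) (bf1q0_fs.snd h1 h2)))⟩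
noncomputable def bx1q0_fs : Sl2 bx1q0 := ⟨_, fun h1 h2 => (pr_norm (pr_case (pr_subr 1 4 h1) (pr_sub (pr_scale 22217 125000 h1) (pr_cmul (enc_norm (bx1q0_3.enc h1.l h2)) (pr_nd (pr_scale 5563 25000 h1)))) (pr_add (pr_subr 1 500000 (pr_scale 11109 62500 h1)) (pr_cmul (enc_norm (bx1q0_3.enc h1.l h2)) (pr_norm (pr_csub (enc_rat _ 103 100000) (pr_scale 2833 12500 h1)))))))⟩
noncomputable def l1q0_fs : Sl2 l1q0 := ⟨_, fun h1 h2 => (pr_norm (pr_mul (cv1m_fs.snd h1) (bx1q0_fs.snd h1 h2)))⟩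
noncomputable def kf0q1_10_fs : Sl2 kf0q1_10 := ⟨_, fun h1 h2 => (pr_scale 3 2 h1)⟩
noncomputable def kf0q1_fs : Sl2 kf0q1 := ⟨_, fun h1 h2 => (pr_norm (pr_add (pr_mul (pr_norm (pr_mul (pr_norm (pr_cadd (enc_pnc _ 1) (pr_nat 2 (c1g_fs.snd h1)))) (pr_norm (pr_sub (kf0q1_10_fs.snd h1 h2) (c1g_fs.snd h1))))) (pr_nd (pr_inv (pr_nat 2 (pr_sub (pr_cadd (enc_pnc _ 1) (kf0q1_10_fs.snd h1 h2)) (c1g_fs.snd h1)))))) (pr_mul (pr_norm (pr_subn 1 h1)) (kcg_fs.snd (pr_norm (pr_sub (pr_scale 3 4 h1) (pr_half (c1g_fs.snd h1)))) h2))))⟩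
noncomputable def l0q1_fs : Sl2 l0q1 := ⟨_, fun h1 h2 => (pr_norm (txg_fs.snd (pr_norm (pr_sub (pr_scale 3 4 h1) (pr_half (c1g_fs.snd h1)))) (pr_nd (c1g_fs.snd h1)) h2))⟩
noncomputable def cv1p_fs : Sl1 cv1p := ⟨_, fun h1 => (pr_norm (pr_add (pr_half (c1g_fs.snd h1)) (pr_half (pr_subr 1 2 (swg_fs.snd h1)))))⟩
noncomputable def bf1q2_fs : Sl2 bf1q2 := ⟨_, fun h1 h2 => (pr_norm (pr_case (pr_subr 577 500 h1) (pr_case (pr_subr 103 100 h1) (pr_add (pr_csub (enc_rat _ 3563 1875) (pr_scale 1688 1875 h1)) (pr_cmul (enc_norm (bf1q2_3.enc h1.l h2)) (pr_norm (pr_csub (enc_rat _ 1217 750) (pr_scale 1217 750 h1))))) (pr_case (pr_subr 27 25 h1) (pr_add (pr_csub (enc_rat _ 11788311 5000000) (pr_scale 67217 50000 h1)) (pr_cmul (enc_norm (bf1q2_3.enc h1.l h2)) (pr_norm (pr_csub (enc_rat _ 807591 500000) (pr_scale 8077 5000 h1))))) (pr_add (pr_csub (enc_rat _ 109074023517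 46250000000) (pr_scale 2488219621 1850000000 h1)) (pr_cmul (enc_norm (bf1q2_3.enc h1.l h2)) (pr_norm (pr_subr 1493853 740000 (pr_scale 2589 1480 h1))))))) (pr_case (pr_subr 231 200 h1) (pr_csub (enc_rat _ 112907073 50000000) (pr_scale 62907073 50000000 h1)) (pr_case (pr_subr 13 10 h1) (pr_add (pr_csub (enc_rat _ 32749699581 14500000000) (pr_scale 1824880737 1450000000 h1)) (pr_cmul (enc_norm (bf1q2_3.enc h1.l h2)) (pr_norm (pr_csub (enc_rat _ 5597361 1450000) (pr_scale 24231 7250 h1))))) (pr_add (pr_csub (enc_rat _ 4517477 2000000) (pr_scale 251729 200000 h1)) (pr_cmul (enc_norm (bf1q2_3.enc h1.l h2)) (pr_norm (pr_csub (enc_rat _ 20173 12500) (pr_scale 8071 5000 h1)))))))))⟩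
noncomputable def kf1q2_fs : Sl2 kf1q2 := ⟨_, fun h1 h2 => (pr_norm (pr_mul (cv1p_fs.snd h1) (bf1q2_fs.snd h1 h2)))⟩
noncomputable def bx1q2_fs : Sl2 bx1q2 := ⟨_, fun h1 h2 => (pr_norm (pr_case (pr_subr 577 500 h1) (pr_case (pr_subr 103 100 h1) (pr_add (pr_csub (enc_rat _ 1141 15000) (pr_scale 1141 15000 h1)) (pr_cmul (enc_norm (bx1q2_3.enc h1.l h2)) (pr_norm (pr_csub (enc_rat _ 5609 3000) (pr_scale 5609 3000 h1))))) (pr_case (pr_subr 27 25 h1) (pr_add (pr_csub (enc_rat _ 280223 2500000) (pr_scale 347 3125 h1)) (pr_cmul (enc_norm (bx1q2_3.enc h1.l h2)) (pr_norm (pr_csub (enc_rat _ 886249 250000) (pr_scale 17481 5000 h1))))) (pr_add (pr_csub (enc_rat _ 2002867 18500000) (pr_scale 19887 185000 h1)) (pr_cmul (enc_norm (bx1q2_3.enc h1.l h2)) (pr_norm (pr_csub (enc_rat _ 18040511 1850000) (pr_scale 170997 18500 h1))))))) (pr_casec1 (pr_subr 231 200 h1) (enc_sub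 (enc_neg (enc_rat _ 2467 156250)) (enc_scale 114361 125000 (bx1q2_3.enc h1.l h2))) (pr_case (pr_subr 13 10 h1) (pr_add (pr_subr 925261 580000 (pr_scale 495727 362500 h1)) (pr_cmul (enc_norm (bx1q2_3.enc h1.l h2)) (pr_norm (pr_subr 58631 25000 (pr_scale 774 625 h1))))) (pr_add (pr_subr 2252247 2000000 (pr_scale 201327 200000 h1)) (pr_cmul (enc_norm (bx1q2_3.enc h1.l h2)) (pr_norm (pr_csub (enc_rat _ 523021 200000) (pr_scale 10309 4000 h1)))))))))⟩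
noncomputable def l1q2_fs : Sl2 l1q2 := ⟨_, fun h1 h2 => (pr_norm (pr_mul (cv1p_fs.snd h1) (bx1q2_fs.snd h1 h2)))⟩
noncomputable def gsg_fs : Sl1 gsg := ⟨_, fun h1 => (pr_sqrt (pr_csub (enc_pnc _ 1) (pr_scale 3 4 (pr_sq h1))))⟩
noncomputable def gug_fs : Sl1 gug := ⟨_, fun h1 => (pr_norm (pr_add (pr_scale 3 4 h1) (pr_scale 3 2 (pr_csub (enc_pnc _ 1) (gsg_fs.snd h1)))))⟩
noncomputable def kug_2_fs : Sl1 kug_2 := ⟨_, fun h1 => (pr_sq h1)⟩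
noncomputable def kug_fs : Sl1 kug := ⟨_, fun h1 => (pr_norm (pr_add (pr_add (pr_scale 3 4 h1) (pr_scale 3 2 (kug_2_fs.snd h1))) (pr_mul (pr_norm (pr_mul (pr_nd (pr_scale 3 4 (kug_2_fs.snd h1))) (pr_nd (pr_inv (gsg_fs.snd h1))))) (gug_fs.snd h1))))⟩
noncomputable def kp0q0_8_fs : Sl2 kp0q0_8 := ⟨_, fun h1 h2 => (pr_sub (pr_scale 3 4 h1) (pr_half (c1g_fs.snd h1)))⟩
noncomputable def kp0q0_fs : Sl2 kp0q0 := ⟨_, fun h1 h2 => (pr_norm (pr_case (pr_addc (kp0q0_8_fs.snd h1 h2) (enc_rat _ 311 1898)) (pr_mul h1 (pr_norm (pr_add (pr_csub (enc_rat _ 3150895364107 3190000000000) (pr_scale 7704492805893 1595000000000 (kp0q0_8_fs.snd h1 h2))) (pr_cmul (enc_norm (enc_subr 15 32 h2)) (pr_norm (pr_subr 3551980628137 1276000000000 (pr_neg (pr_scale 12669562068137 638000000000 (kp0q0_8_fs.snd h1 h2))))))))) (pr_sub (kug_fs.snd h1) (pr_mul h1 (pr_norm (pr_mul (kcg_fs.snd (pr_norm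 (kp0q0_8_fs.snd h1 h2)) h2) (pr_norm (pr_add (gug_fs.snd h1) (pr_nat 2 (c1g_fs.snd h1))))))))))⟩
noncomputable def kn0q0_fs : Sl2 kn0q0 := ⟨_, fun h1 h2 => (pr_norm (pr_add (pr_cmul (enc_norm (enc_add (enc_pnc _ 1) (enc_mul (mug3.enc h2) (gug.enc h2)))) (kf0q0_fs.snd h1 h2)) (pr_cmul (mug3.enc h2) (kp0q0_fs.snd h1 h2))))⟩
noncomputable def bd1q0_fs : Sl2 bd1q0 := ⟨_, fun h1 h2 => (pr_norm (pr_add (pr_scale 165951 100000 h1) (pr_cmul (enc_norm (enc_subr 15 32 h2)) (pr_nd (pr_scale 791 25000 h1)))))⟩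
noncomputable def kp1q0_fs : Sl2 kp1q0 := ⟨_, fun h1 h2 => (pr_norm (pr_mul (cv1m_fs.snd h1) (bd1q0_fs.snd h1 h2)))⟩
noncomputable def kn1q0_fs : Sl2 kn1q0 := ⟨_, fun h1 h2 => (pr_norm (pr_add (pr_cmul (enc_norm (enc_add (enc_pnc _ 1) (enc_mul (mug3.enc h2) (gug.enc h2)))) (kf1q0_fs.snd h1 h2)) (pr_cmul (mug3.enc h2) (kp1q0_fs.snd h1 h2))))⟩
noncomputable def kp0q1_5_fs : Sl2 kp0q1_5 := ⟨_, fun h1 h2 => (pr_subn 1 h1)⟩
noncomputable def kp0q1_9_fs : Sl2 kp0q1_9 := ⟨_, fun h1 h2 => (pr_sub (pr_scale 3 4 h1) (pr_half (c1g_fs.snd h1)))⟩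
noncomputable def kp0q1_fs : Sl2 kp0q1 := ⟨_, fun h1 h2 => (pr_norm (pr_case (pr_addc (kp0q1_9_fs.snd h1 h2) (enc_rat _ 73 1609)) (pr_mul (pr_norm (kp0q1_5_fs.snd h1 h2)) (pr_norm (pr_sub (pr_add (pr_cadd (enc_rat _ 3 4) (pr_scale 3 2 h1)) (pr_scale 3 4 (pr_mul (pr_norm (pr_mul h1 (pr_nd (pr_inv (c1g_fs.snd h1))))) (gug_fs.snd h1)))) (pr_mul (kcg_fs.snd (pr_norm (kp0q1_9_fs.snd h1 h2)) h2) (pr_norm (pr_add (gug_fs.snd h1) (pr_nat 2 (c1g_fs.snd h1)))))))) (pr_mul (pr_norm (kp0q1_5_fs.snd h1 h2)) (pr_norm (pr_case (pr_subr 1 20 (kp0q1_9_fs.snd h1 h2)) (pr_add (pr_csub (enc_rat _ 19904464955831 30690000000000) (pr_scale 43517657855831 1534500000000 (kp0q1_9_fs.snd h1 h2))) (pr_cmul (enc_norm (kp0q1_3.enc h1.l h2)) (pr_norm (pr_subr 2044 3875 (pr_neg (pr_scale 45052 3875 (kp0q1_9_fs.snd h1 h2))))))) (pr_add (pr_subr 4291157 9000000 (pr_neg (pr_scale 2633533 450000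 (kp0q1_9_fs.snd h1 h2)))) (pr_cmul (enc_norm (kp0q1_3.enc h1.l h2)) (pr_norm (pr_subr 24641 56250 (pr_neg (pr_scale 75458 5625 (kp0q1_9_fs.snd h1 h2))))))))))))⟩
noncomputable def kn0q1_fs : Sl2 kn0q1 := ⟨_, fun h1 h2 => (pr_norm (pr_add (pr_cmul (enc_norm (enc_add (enc_pnc _ 1) (enc_mul (mug3.enc h2) (gug.enc h2)))) (kf0q1_fs.snd h1 h2)) (pr_cmul (mug3.enc h2) (kp0q1_fs.snd h1 h2))))⟩
noncomputable def bd1q2_15_fs : Sl2 bd1q2_15 := ⟨_, fun h1 h2 => (pr_add (pr_subr 3402943 500000 (pr_scale 3402943 500000 h1)) (pr_cmul (enc_norm (bd1q2_3.enc h1.l h2)) (pr_norm (pr_subr 44659 3125 (pr_scale 44659 3125 h1)))))⟩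
noncomputable def bd1q2_fs : Sl2 bd1q2 := ⟨_, fun h1 h2 => (pr_norm (pr_case (pr_subr 577 500 h1) (bd1q2_15_fs.snd h1 h2) (pr_case (pr_subr 231 200 h1) (bd1q2_15_fs.snd h1 h2) (pr_add (pr_subr 78266303 11500000 (pr_scale 78266489 11500000 h1)) (pr_cmul (enc_norm (bd1q2_3.enc h1.l h2)) (pr_norm (pr_subr 32775777 2300000 (pr_scale 12295609 862500 h1))))))))⟩
noncomputable def kp1q2_fs : Sl2 kp1q2 := ⟨_, fun h1 h2 => (pr_norm (pr_mul (cv1p_fs.snd h1) (bd1q2_fs.snd h1 h2)))⟩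
noncomputable def kn1q2_fs : Sl2 kn1q2 := ⟨_, fun h1 h2 => (pr_norm (pr_add (pr_cmul (enc_norm (enc_add (enc_pnc _ 1) (enc_mul (mug3.enc h2) (gug.enc h2)))) (kf1q2_fs.snd h1 h2)) (pr_cmul (mug3.enc h2) (kp1q2_fs.snd h1 h2))))⟩
noncomputable def dlg : Fn2 := ⟨_, _, fun h1 h2 => (kcg.enc (enc_norm (enc_sub (enc_scale 3 4 h1) (enc_half (c1g.enc h1)))) h2)⟩

end Pool.Agent.Strip051.G.I7_16_1_2.Tab
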