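import Pool.Agent.Strip051.G.I7_16_1_2.Tab
import Pool.Agent.Strip051.PB.C12G

/-! # Slopes of the tables near the lattice heights (generated) -/

set_option linter.all false

namespace Pool.Agent.Strip051.G.I7_16_1_2.Tab

open Pool.Agent.Strip051.PB

attribute [local irreducible] padd psub pneg pmul psq pinv psqrt psqrtg pabs pps pmax pmin pphi plam
  pcase phf pnat prat pscale pnorm pdc pnc pone ppos pnn Enc pbad pzero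

noncomputable def idf_s : Sl1 idf := ⟨fun _ _ D => D, fun h => h⟩

noncomputable def c1g_s : Sl1 c1g := ⟨_, fun h1 => (pr_sqrtgz (pr_csub (enc_pnc _ 1) (pr_scale 3 4 (pr_sq h1))))⟩
noncomputable def kcg_6_s : Sl2 kcg_6 := ⟨_, fun h1 h2 => (pr_addc h1 (enc_rat _ 1 4))⟩
noncomputable def kcg_9_s : Sl2 kcg_9 := ⟨_, fun h1 h2 => (pr_addc h1 (enc_rat _ 7 20))⟩
noncomputable def kcg_10_s : Sl2 kcg_10 := ⟨_, fun h1 h2 => (pr_scale 7821373 15000000 h1)⟩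
noncomputable def kcg_14_s : Sl2 kcg_14 := ⟨_, fun h1 h2 => (pr_scale 562167 250000 h1)⟩
noncomputable def kcg_33_s : Sl2 kcg_33 := ⟨_, fun h1 h2 => (pr_scale 5095533 10000000 h1)⟩
noncomputable def kcg_37_s : Sl2 kcg_37 := ⟨_, fun h1 h2 => (pr_scale 2994247 500000 h1)⟩
noncomputable def kcg_54_s : Sl2 kcg_54 := ⟨_, fun h1 h2 => (pr_addc h1 (enc_rat _ 311 1898))⟩
noncomputable def kcg_55_s : Sl2 kcg_55 := ⟨_, fun h1 h2 => (pr_scale 1690169 7500000 h1)⟩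
noncomputable def kcg_59_s : Sl2 kcg_59 := ⟨_, fun h1 h2 => (pr_scale 774054697 163500000 h1)⟩
noncomputable def kcg_75_s : Sl2 kcg_75 := ⟨_, fun h1 h2 => (pr_scale 1803389087227 3015375000000 h1)⟩
noncomputable def kcg_79_s : Sl2 kcg_79 := ⟨_, fun h1 h2 => (pr_scale 526612939021 301537500000 h1)⟩
noncomputable def kcg_93_s : Sl2 kcg_93 := ⟨_, fun h1 h2 => (pr_scale 62907073 50000000 h1)⟩
noncomputable def kcg_99_s : Sl2 kcg_99 := ⟨_, fun h1 h2 => (pr_csub (enc_rat _ 1 4) h1)⟩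
noncomputable def kcg_100_s : Sl2 kcg_100 := ⟨_, fun h1 h2 => (pr_csub (enc_rat _ 7 20) h1)⟩
noncomputable def kcg_123_s : Sl2 kcg_123 := ⟨_, fun h1 h2 => (pr_csub (enc_rat _ 311 1898) h1)⟩
noncomputable def kcg_s : Sl2 kcg := ⟨_, fun h1 h2 => (pr_norm (pr_case h1 (pr_case (kcg_6_s.snd h1 h2) (pr_case (kcg_9_s.snd h1 h2) (pr_add (pr_add (pr_subr 474419 30000000 (kcg_10_s.snd h1 h2)) (pr_cmul (enc_norm (kcg_3.enc h1.l h2)) (pr_norm (pr_subr 4265707 10000000 (kcg_14_s.snd h1 h2))))) (pr_cmul (enc_norm (kcg_25.enc h1.l h2)) (pr_norm (pr_mul (pr_norm (pr_addc h1 (enc_rat _ 1 2))) (pr_norm (pr_csub (enc_neg (enc_rat _ 7 20)) h1)))))) (pr_add (pr_add (pr_subr 3993803 200000000 (kcg_33_s.snd h1 h2)) (pr_cmul (enc_norm (kcg_3.enc h1.l h2)) (pr_norm (pr_addc (kcg_37_s.snd h1 h2) (enc_rat _ 2205921 2500000))))) (pr_cmul (enc_norm (kcg_46.enc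 h1.l h2)) (pr_norm (pr_mul (pr_norm (kcg_9_s.snd h1 h2)) (pr_norm (pr_csub (enc_neg (enc_rat _ 1 4)) h1))))))) (pr_case (kcg_54_s.snd h1 h2) (pr_add (pr_add (pr_subr 3413189 37500000 (kcg_55_s.snd h1 h2)) (pr_cmul (enc_norm (kcg_3.enc h1.l h2)) (pr_norm (pr_addc (kcg_59_s.snd h1 h2) (enc_rat _ 465006077 817500000))))) (pr_cmul (enc_norm (kcg_67.enc h1.l h2)) (pr_norm (pr_mul (pr_norm (kcg_6_s.snd h1 h2)) (pr_norm (pr_csub (enc_neg (enc_rat _ 311 1898)) h1)))))) (pr_case (pr_addc h1 (enc_rat _ 73 1609)) (pr_add (pr_add (pr_subr 180606193777 6030750000000 (kcg_75_s.snd h1 h2)) (pr_cmul (enc_norm (kcg_3.enc h1.l h2)) (pr_norm (pr_addc (kcg_79_s.snd h1 h2) (enc_rat _ 23892321037 301537500000))))) (pr_cmul (enc_norm (kcg_88.enc h1.l h2)) (pr_norm (pr_mul (pr_norm (kcg_54_s.snd h1 h2)) (pr_norm (pr_csub (enc_neg (enc_rat _ 73 1609)) h1))))))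 (kcg_93_s.snd h1 h2)))) (pr_neg (pr_case (kcg_99_s.snd h1 h2) (pr_case (kcg_100_s.snd h1 h2) (pr_add (pr_add (pr_subr 474419 30000000 (pr_neg (kcg_10_s.snd h1 h2))) (pr_cmul (enc_norm (kcg_3.enc h1.l h2)) (pr_norm (pr_subr 4265707 10000000 (pr_neg (kcg_14_s.snd h1 h2)))))) (pr_cmul (enc_norm (kcg_25.enc h1.l h2)) (pr_norm (pr_mul (pr_norm (pr_csub (enc_rat _ 1 2) h1)) (pr_norm (pr_subr 7 20 h1)))))) (pr_add (pr_add (pr_subr 3993803 200000000 (pr_neg (kcg_33_s.snd h1 h2))) (pr_cmul (enc_norm (kcg_3.enc h1.l h2)) (pr_norm (pr_csub (enc_rat _ 2205921 2500000) (kcg_37_s.snd h1 h2))))) (pr_cmul (enc_norm (kcg_46.enc h1.l h2)) (pr_norm (pr_mul (pr_norm (kcg_100_s.snd h1 h2)) (pr_norm (pr_subr 1 4 h1))))))) (pr_case (kcg_123_s.snd h1 h2) (pr_add (pr_add (pr_subr 3413189 37500000 (pr_neg (kcg_55_s.snd h1 h2))) (pr_cmul (enc_norm (kcg_3.enc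 h1.l h2)) (pr_norm (pr_csub (enc_rat _ 465006077 817500000) (kcg_59_s.snd h1 h2))))) (pr_cmul (enc_norm (kcg_67.enc h1.l h2)) (pr_norm (pr_mul (pr_norm (kcg_99_s.snd h1 h2)) (pr_norm (pr_subr 311 1898 h1)))))) (pr_case (pr_csub (enc_rat _ 73 1609) h1) (pr_add (pr_add (pr_subr 180606193777 6030750000000 (pr_neg (kcg_75_s.snd h1 h2))) (pr_cmul (enc_norm (kcg_3.enc h1.l h2)) (pr_norm (pr_csub (enc_rat _ 23892321037 301537500000) (kcg_79_s.snd h1 h2))))) (pr_cmul (enc_norm (kcg_88.enc h1.l h2)) (pr_norm (pr_mul (pr_norm (kcg_123_s.snd h1 h2)) (pr_norm (pr_subr 73 1609 h1)))))) (pr_neg (kcg_93_s.snd h1 h2))))))))⟩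
noncomputable def kf0q0_9_s : Sl2 kf0q0_9 := ⟨_, fun h1 h2 => (pr_scale 3 2 h1)⟩
noncomputable def kf0q0_12_s : Sl2 kf0q0_12 := ⟨_, fun h1 h2 => (pr_cadd (enc_pnc _ 1) (c1g_s.snd h1))⟩
noncomputable def kf0q0_s : Sl2 kf0q0 := ⟨_, fun h1 h2 => (pr_norm (pr_add (pr_mul (pr_norm (pr_mul (pr_norm (pr_sub (c1g_s.snd h1) (kf0q0_9_s.snd h1 h2))) (pr_norm (kf0q0_12_s.snd h1 h2)))) (pr_nd (pr_inv (pr_sub (kf0q0_12_s.snd h1 h2) (kf0q0_9_s.snd h1 h2))))) (pr_mul h1 (kcg_s.snd (pr_norm (pr_sub (pr_scale 3 4 h1) (pr_half (c1g_s.snd h1)))) h2))))⟩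
noncomputable def txg_6_s : Sl3 txg_6 := ⟨_, fun h1 h2 h3 => (pr_add h1 (pr_half h2))⟩
noncomputable def txg_27_s : Sl3 txg_27 := ⟨_, fun h1 h2 h3 => (pr_addc h1 (enc_rat _ 9 25))⟩
noncomputable def txg_30_s : Sl3 txg_30 := ⟨_, fun h1 h2 h3 => (pr_addc h1 (enc_rat _ 43 100))⟩
noncomputable def txg_75_s : Sl3 txg_75 := ⟨_, fun h1 h2 h3 => (pr_addc h1 (enc_rat _ 3 10))⟩
noncomputable def txg_97_s : Sl3 txg_97 := ⟨_, fun h1 h2 h3 => (pr_addc h1 (enc_rat _ 23 100))⟩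
noncomputable def txg_151_s : Sl3 txg_151 := ⟨_, fun h1 h2 h3 => (pr_addc h1 (enc_rat _ 73 1609))⟩
noncomputable def txg_153_s : Sl3 txg_153 := ⟨_, fun h1 h2 h3 => (pr_subr 3 20 h1)⟩
noncomputable def txg_155_s : Sl3 txg_155 := ⟨_, fun h1 h2 h3 => (pr_subr 1 40 h1)⟩
noncomputable def txg_157_s : Sl3 txg_157 := ⟨_, fun h1 h2 h3 => (pr_addc h1 (enc_rat _ 1 40))⟩
noncomputable def txg_196_s : Sl3 txg_196 := ⟨_, fun h1 h2 h3 => (pr_subr 3 50 h1)⟩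
noncomputable def txg_216_s : Sl3 txg_216 := ⟨_, fun h1 h2 h3 => (pr_subr 1 10 h1)⟩
noncomputable def txg_259_s : Sl3 txg_259 := ⟨_, fun h1 h2 h3 => (pr_subr 13 50 h1)⟩
noncomputable def txg_261_s : Sl3 txg_261 := ⟨_, fun h1 h2 h3 => (pr_subr 1 5 h1)⟩
noncomputable def txg_306_s : Sl3 txg_306 := ⟨_, fun h1 h2 h3 => (pr_subr 17 50 h1)⟩
noncomputable def txg_326_s : Sl3 txg_326 := ⟨_, fun h1 h2 h3 => (pr_subr 21 50 h1)⟩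
noncomputable def txg_s : Sl3 txg := ⟨_, fun h1 h2 h3 => (pr_case (pr_addc h1 (enc_rat _ 311 1898)) (pr_case (txg_27_s.snd h1 h2 h3) (pr_case (txg_30_s.snd h1 h2 h3) (pr_add (pr_add (pr_addc (pr_scale 52211 1000000 h1) (enc_rat _ 52211 2000000)) (pr_cmul (enc_norm (txg_4.enc h1.l h2.l h3)) (pr_norm (pr_addc (pr_scale 5931 100000 h1) (enc_rat _ 5931 200000))))) (pr_cmul (enc_norm (enc_subr 47409 200000 (enc_scale 78311 20000 (txg_4.enc h1.l h2.l h3)))) (pr_norm (pr_mul (pr_norm (pr_addc h1 (enc_rat _ 1 2))) (pr_norm (pr_csub (enc_neg (enc_rat _ 43 100)) h1)))))) (pr_add (pr_add (pr_addc (pr_scale 293791 3500000 h1) (enc_rat _ 5564873 140000000)) (pr_cmul (enc_norm (txg_4.enc h1.l h2.l h3)) (pr_norm (pr_subr 888707 17500000 (pr_neg (pr_scale 89429 700000 h1)))))) (pr_cmul (enc_norm (enc_subr 21623 100000 (enc_neg (enc_scale 777 625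 (txg_4.enc h1.l h2.l h3))))) (pr_norm (pr_mul (pr_norm (txg_30_s.snd h1 h2 h3)) (pr_norm (pr_csub (enc_neg (enc_rat _ 9 25)) h1))))))) (pr_case (txg_75_s.snd h1 h2 h3) (pr_add (pr_add (pr_addc (pr_scale 439001 3000000 h1) (enc_rat _ 6221071 100000000)) (pr_cmul (enc_norm (txg_4.enc h1.l h2.l h3)) (pr_norm (pr_subr 196981 5000000 (pr_neg (pr_scale 769 8000 h1)))))) (pr_cmul (enc_norm (enc_subr 39381 50000 (enc_scale 3693 4000 (txg_4.enc h1.l h2.l h3)))) (pr_norm (pr_mul (pr_norm (txg_27_s.snd h1 h2 h3)) (pr_norm (pr_csub (enc_neg (enc_rat _ 3 10)) h1)))))) (pr_case (txg_97_s.snd h1 h2 h3) (pr_add (pr_add (pr_addc (pr_scale 50683 218750 h1) (enc_rat _ 61473107 700000000)) (pr_cmul (enc_norm (txg_4.enc h1.l h2.l h3)) (pr_norm (pr_subr 886277 10000000 (pr_neg (pr_scale 26023 100000 h1)))))) (pr_cmul (enc_norm (enc_subr 2177313 4000000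 (enc_scale 7764867 5000000 (txg_4.enc h1.l h2.l h3)))) (pr_norm (pr_mul (pr_norm (txg_75_s.snd h1 h2 h3)) (pr_norm (pr_csub (enc_neg (enc_rat _ 23 100)) h1)))))) (pr_add (pr_add (pr_add (pr_addc (pr_scale 848781637369 2978436500000 h1) (enc_rat _ 11922508673503 119137460000000)) (pr_cmul (enc_norm (txg_4.enc h1.l h2.l h3)) (pr_norm (pr_subr 38782144823907 595687300000000 (pr_neg (pr_scale 940928778429 5956873000000 h1)))))) (pr_cmul (enc_sq (enc_norm (txg_4.enc h1.l h2.l h3))) (pr_norm (pr_subr 785294037 3923125000 (pr_neg (pr_scale 34143219 39231250 h1)))))) (pr_cmul (enc_norm (enc_subr 11474131 50000000 (enc_neg (enc_scale 31897437 10000000 (txg_4.enc h1.l h2.l h3))))) (pr_norm (pr_mul (pr_norm (txg_97_s.snd h1 h2 h3)) (pr_norm (pr_csub (enc_neg (enc_rat _ 311 1898)) h1))))))))) (pr_case (txg_151_s.snd h1 h2 h3) (pr_sub (pr_mul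 (pr_norm (pr_csub (enc_pnc _ 1) h2)) (pr_norm (pr_subn 1 (pr_nat 2 h2)))) (pr_mul (pr_norm (pr_nat 2 (pr_subc (pr_scale 4 3 (txg_6_s.snd h1 h2 h3)) h3))) (pr_norm (pr_mul (pr_norm (pr_subn 1 (pr_add (pr_scale 2 3 (txg_6_s.snd h1 h2 h3)) h2))) (kcg_s.snd h1 h3))))) (pr_case (txg_153_s.snd h1 h2 h3) (pr_case (txg_155_s.snd h1 h2 h3) (pr_case (txg_157_s.snd h1 h2 h3) (pr_add (pr_add (pr_addc (pr_scale 3072022179931 14062660000000 h1) (enc_rat _ 11027484662351 112501280000000)) (pr_cmul (enc_norm (txg_4.enc h1.l h2.l h3)) (pr_norm (pr_subr 169173193 32775000000 (pr_scale 223287767 819375000 h1))))) (pr_cmul (enc_norm (enc_add (enc_scale 26456433 5000000 (txg_4.enc h1.l h2.l h3)) (enc_rat _ 145642779 100000000))) (pr_norm (pr_mul (pr_norm (txg_151_s.snd h1 h2 h3)) (pr_norm (pr_csub (enc_neg (enc_rat _ 1 40)) h1)))))) (pr_add (pr_add (pr_addc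 (pr_scale 2467 312500 h1) (enc_rat _ 4637851 50000000)) (pr_cmul (enc_norm (txg_4.enc h1.l h2.l h3)) (pr_norm (pr_subr 5383 10000000 (pr_scale 114361 250000 h1))))) (pr_cmul (enc_norm (enc_sub (enc_rat _ 361781261 100000000) (enc_scale 58543499 10000000 (txg_4.enc h1.l h2.l h3)))) (pr_norm (pr_mul (pr_norm (txg_157_s.snd h1 h2 h3)) (pr_norm (pr_csub (enc_rat _ 1 40) h1))))))) (pr_case (txg_196_s.snd h1 h2 h3) (pr_add (pr_add (pr_csub (enc_rat _ 4905639 50000000) (pr_scale 3224 15625 h1)) (pr_cmul (enc_norm (txg_4.enc h1.l h2.l h3)) (pr_norm (pr_subr 210269 70000000 (pr_scale 194623 350000 h1))))) (pr_cmul (enc_norm (enc_add (enc_scale 110911 20000 (txg_4.enc h1.l h2.l h3)) (enc_rat _ 190513 200000))) (pr_norm (pr_mul (pr_norm (txg_155_s.snd h1 h2 h3)) (pr_norm (pr_csub (enc_rat _ 3 50) h1)))))) (pr_case (txg_216_s.snd h1 h2 h3) (pr_add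 (pr_add (pr_csub (enc_rat _ 10052901 100000000) (pr_scale 493213 2000000 h1)) (pr_cmul (enc_norm (txg_4.enc h1.l h2.l h3)) (pr_norm (pr_subr 31733 10000000 (pr_scale 55889 100000 h1))))) (pr_cmul (enc_norm (enc_sub (enc_rat _ 6931 40000) (enc_scale 49229 10000 (txg_4.enc h1.l h2.l h3)))) (pr_norm (pr_mul (pr_norm (txg_196_s.snd h1 h2 h3)) (pr_norm (pr_csub (enc_rat _ 1 10) h1)))))) (pr_add (pr_add (pr_csub (enc_rat _ 5077063 50000000) (pr_scale 256729 1000000 h1)) (pr_cmul (enc_norm (txg_4.enc h1.l h2.l h3)) (pr_norm (pr_subr 44709 2000000 (pr_scale 375351 500000 h1))))) (pr_cmul (enc_norm (enc_add (enc_scale 2041 20000 (txg_4.enc h1.l h2.l h3)) (enc_rat _ 2553 40000))) (pr_norm (pr_mul (pr_norm (txg_216_s.snd h1 h2 h3)) (pr_norm (pr_csub (enc_rat _ 3 20) h1))))))))) (pr_case (txg_259_s.snd h1 h2 h3) (pr_case (txg_261_s.snd h1 h2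 h3) (pr_add (pr_add (pr_csub (enc_rat _ 4998553 50000000) (pr_scale 246261 1000000 h1)) (pr_cmul (enc_norm (txg_4.enc h1.l h2.l h3)) (pr_norm (pr_subr 260427 10000000 (pr_scale 77529 100000 h1))))) (pr_cmul (enc_norm (enc_subr 54637 200000 (enc_neg (enc_scale 2969 5000 (txg_4.enc h1.l h2.l h3))))) (pr_norm (pr_mul (pr_norm (txg_153_s.snd h1 h2 h3)) (pr_norm (pr_csub (enc_rat _ 1 5) h1)))))) (pr_add (pr_add (pr_csub (enc_rat _ 4748653 50000000) (pr_scale 221271 1000000 h1)) (pr_cmul (enc_norm (txg_4.enc h1.l h2.l h3)) (pr_norm (pr_subr 1019431 30000000 (pr_scale 488989 600000 h1))))) (pr_cmul (enc_norm (enc_subr 37769 200000 (enc_neg (enc_scale 1667 10000 (txg_4.enc h1.l h2.l h3))))) (pr_norm (pr_mul (pr_norm (txg_261_s.snd h1 h2 h3)) (pr_norm (pr_csub (enc_rat _ 13 50) h1))))))) (pr_case (txg_306_s.snd h1 h2 h3) (pr_add (pr_add (pr_csub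 (enc_rat _ 8772543 100000000) (pr_scale 386791 2000000 h1)) (pr_cmul (enc_norm (txg_4.enc h1.l h2.l h3)) (pr_norm (pr_addc (pr_scale 3057 50000 h1) (enc_rat _ 810089 5000000))))) (pr_cmul (enc_norm (enc_subr 20681 100000 (enc_scale 190961 20000 (txg_4.enc h1.l h2.l h3)))) (pr_norm (pr_mul (pr_norm (txg_259_s.snd h1 h2 h3)) (pr_norm (pr_csub (enc_rat _ 17 50) h1)))))) (pr_case (txg_326_s.snd h1 h2 h3) (pr_add (pr_add (pr_csub (enc_rat _ 1530503 20000000) (pr_scale 320907 2000000 h1)) (pr_cmul (enc_norm (txg_4.enc h1.l h2.l h3)) (pr_norm (pr_csub (enc_rat _ 9846879 20000000) (pr_scale 364163 400000 h1))))) (pr_cmul (enc_norm (enc_subr 40993 200000 (enc_scale 25963 10000 (txg_4.enc h1.l h2.l h3)))) (pr_norm (pr_mul (pr_norm (txg_306_s.snd h1 h2 h3)) (pr_norm (pr_csub (enc_rat _ 21 50) h1)))))) (pr_add (pr_add (pr_csub (enc_rat _ 228367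 4000000) (pr_scale 228367 2000000 h1)) (pr_cmul (enc_norm (txg_4.enc h1.l h2.l h3)) (pr_norm (pr_csub (enc_rat _ 68733 100000) (pr_scale 68733 50000 h1))))) (pr_cmul (enc_norm (enc_subr 37341 100000 (enc_scale 64137 20000 (txg_4.enc h1.l h2.l h3)))) (pr_norm (pr_mul (pr_norm (txg_326_s.snd h1 h2 h3)) (pr_norm (pr_csub (enc_rat _ 1 2) h1))))))))))))⟩
noncomputable def l0q0_s : Sl2 l0q0 := ⟨_, fun h1 h2 => (pr_norm (txg_s.snd (pr_norm (pr_sub (pr_scale 3 4 h1) (pr_half (c1g_s.snd h1)))) (pr_nd (c1g_s.snd h1)) h2))⟩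
noncomputable def kf0q1_10_s : Sl2 kf0q1_10 := ⟨_, fun h1 h2 => (pr_scale 3 2 h1)⟩
noncomputable def kf0q1_s : Sl2 kf0q1 := ⟨_, fun h1 h2 => (pr_norm (pr_add (pr_mul (pr_norm (pr_mul (pr_norm (pr_cadd (enc_pnc _ 1) (pr_nat 2 (c1g_s.snd h1)))) (pr_norm (pr_sub (kf0q1_10_s.snd h1 h2) (c1g_s.snd h1))))) (pr_nd (pr_inv (pr_nat 2 (pr_sub (pr_cadd (enc_pnc _ 1) (kf0q1_10_s.snd h1 h2)) (c1g_s.snd h1)))))) (pr_mul (pr_norm (pr_subn 1 h1)) (kcg_s.snd (pr_norm (pr_sub (pr_scale 3 4 h1) (pr_half (c1g_s.snd h1)))) h2))))⟩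
noncomputable def l0q1_s : Sl2 l0q1 := ⟨_, fun h1 h2 => (pr_norm (txg_s.snd (pr_norm (pr_sub (pr_scale 3 4 h1) (pr_half (c1g_s.snd h1)))) (pr_nd (c1g_s.snd h1)) h2))⟩
noncomputable def yag_s : Sl1 yag := ⟨_, fun h1 => (pr_sqrt (pr_scale 4 3 (pr_csub (enc_pnc _ 1) (pr_sq h1))))⟩
noncomputable def kfc02_s : Sl2 kfc02 := ⟨_, fun h1 h2 => (pr_norm (pr_add h1 (pr_mul (pr_norm (pr_subn 1 (yag_s.snd h1))) (kcg_s.snd (pr_nd (pr_neg h1)) h2))))⟩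
noncomputable def lc02_7_s : Sl2 lc02_7 := ⟨_, fun h1 h2 => (pr_scale 3 4 (yag_s.snd h1))⟩
noncomputable def lc02_8_s : Sl2 lc02_8 := ⟨_, fun h1 h2 => (pr_half h1)⟩
noncomputable def lc02_s : Sl2 lc02 := ⟨_, fun h1 h2 => (pr_norm (pr_sub (txg_s.snd (pr_nd (pr_neg h1)) (pr_norm (pr_add (lc02_7_s.snd h1 h2) (lc02_8_s.snd h1 h2))) h2) (txg_s.snd h1 (pr_norm (pr_sub (lc02_7_s.snd h1 h2) (lc02_8_s.snd h1 h2))) h2)))⟩
noncomputable def swg_s : Sl1 swg := ⟨_, fun h1 => (pr_sqrt (pr_csub (enc_pnc _ 1) (pr_scale 3 4 (pr_sq (pr_norm (pr_subn 1 h1))))))⟩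
noncomputable def cv1m_s : Sl1 cv1m := ⟨_, fun h1 => (pr_norm (pr_add (pr_half (c1g_s.snd h1)) (pr_half (pr_addc (swg_s.snd h1) (enc_rat _ 1 2)))))⟩
noncomputable def bf1q0_s : Sl2 bf1q0 := ⟨_, fun h1 h2 => (pr_norm (pr_case (pr_subr 1 4 h1) (pr_add (pr_csub (enc_pnc _ 1) (pr_scale 90947 62500 h1)) (pr_cmul (enc_norm (bf1q0_3.enc h1.l h2)) (pr_nd (pr_scale 43019 12500 h1)))) (pr_add (pr_csub (enc_rat _ 1000067 1000000) (pr_scale 72771 50000 h1)) (pr_cmul (enc_norm (bf1q0_3.enc h1.l h2)) (pr_norm (pr_addc (pr_scale 42937 12500 h1) (enc_rat _ 41 25000)))))))⟩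
noncomputable def kf1q0_s : Sl2 kf1q0 := ⟨_, fun h1 h2 => (pr_norm (pr_mul (cv1m_s.snd h1) (bf1q0_s.snd h1 h2)))⟩
noncomputable def bx1q0_s : Sl2 bx1q0 := ⟨_, fun h1 h2 => (pr_norm (pr_case (pr_subr 1 4 h1) (pr_sub (pr_scale 22217 125000 h1) (pr_cmul (enc_norm (bx1q0_3.enc h1.l h2)) (pr_nd (pr_scale 5563 25000 h1)))) (pr_add (pr_subr 1 500000 (pr_scale 11109 62500 h1)) (pr_cmul (enc_norm (bx1q0_3.enc h1.l h2)) (pr_norm (pr_csub (enc_rat _ 103 100000) (pr_scale 2833 12500 h1)))))))⟩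
noncomputable def l1q0_s : Sl2 l1q0 := ⟨_, fun h1 h2 => (pr_norm (pr_mul (cv1m_s.snd h1) (bx1q0_s.snd h1 h2)))⟩
noncomputable def bf1q1_s : Sl2 bf1q1 := ⟨_, fun h1 h2 => (pr_norm (pr_case (pr_subr 3 4 h1) (pr_add (pr_subr 1068619 1000000 (pr_scale 452631 250000 h1)) (pr_cmul (enc_norm (bf1q1_3.enc h1.l h2)) (pr_norm (pr_csub (enc_rat _ 60117 100000) (pr_scale 2973 5000 h1))))) (pr_add (pr_subr 16696 15625 (pr_scale 226303 125000 h1)) (pr_cmul (enc_norm (bf1q1_3.enc h1.l h2)) (pr_norm (pr_csub (enc_rat _ 59961 100000) (pr_scale 14813 25000 h1)))))))⟩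
noncomputable def kf1q1_s : Sl2 kf1q1 := ⟨_, fun h1 h2 => (pr_norm (pr_mul (cv1m_s.snd h1) (bf1q1_s.snd h1 h2)))⟩
noncomputable def bx1q1_s : Sl2 bx1q1 := ⟨_, fun h1 h2 => (pr_norm (pr_case (pr_subr 3 4 h1) (pr_add (pr_csub (enc_rat _ 142507 1000000) (pr_scale 7817 62500 h1)) (pr_cmul (enc_norm (bx1q1_3.enc h1.l h2)) (pr_norm (pr_subr 110133 100000 (pr_scale 33173 25000 h1))))) (pr_add (pr_csub (enc_rat _ 8899 62500) (pr_scale 31227 250000 h1)) (pr_cmul (enc_norm (bx1q1_3.enc h1.l h2)) (pr_norm (pr_subr 13737 12500 (pr_scale 16547 12500 h1)))))))⟩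
noncomputable def l1q1_s : Sl2 l1q1 := ⟨_, fun h1 h2 => (pr_norm (pr_mul (cv1m_s.snd h1) (bx1q1_s.snd h1 h2)))⟩
noncomputable def cv1p_s : Sl1 cv1p := ⟨_, fun h1 => (pr_norm (pr_add (pr_half (c1g_s.snd h1)) (pr_half (pr_subr 1 2 (swg_s.snd h1)))))⟩
noncomputable def bf1q2_s : Sl2 bf1q2 := ⟨_, fun h1 h2 => (pr_norm (pr_case (pr_subr 577 500 h1) (pr_case (pr_subr 103 100 h1) (pr_add (pr_csub (enc_rat _ 3563 1875) (pr_scale 1688 1875 h1)) (pr_cmul (enc_norm (bf1q2_3.enc h1.l h2)) (pr_norm (pr_csub (enc_rat _ 1217 750) (pr_scale 1217 750 h1))))) (pr_case (pr_subr 27 25 h1) (pr_add (pr_csub (enc_rat _ 11788311 5000000) (pr_scale 67217 50000 h1)) (pr_cmul (enc_norm (bf1q2_3.enc h1.l h2)) (pr_norm (pr_csub (enc_rat _ 807591 500000) (pr_scale 8077 5000 h1))))) (pr_add (pr_csub (enc_rat _ 109074023517 46250000000) (pr_scale 2488219621 1850000000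 h1)) (pr_cmul (enc_norm (bf1q2_3.enc h1.l h2)) (pr_norm (pr_subr 1493853 740000 (pr_scale 2589 1480 h1))))))) (pr_case (pr_subr 231 200 h1) (pr_csub (enc_rat _ 112907073 50000000) (pr_scale 62907073 50000000 h1)) (pr_case (pr_subr 13 10 h1) (pr_add (pr_csub (enc_rat _ 32749699581 14500000000) (pr_scale 1824880737 1450000000 h1)) (pr_cmul (enc_norm (bf1q2_3.enc h1.l h2)) (pr_norm (pr_csub (enc_rat _ 5597361 1450000) (pr_scale 24231 7250 h1))))) (pr_add (pr_csub (enc_rat _ 4517477 2000000) (pr_scale 251729 200000 h1)) (pr_cmul (enc_norm (bf1q2_3.enc h1.l h2)) (pr_norm (pr_csub (enc_rat _ 20173 12500) (pr_scale 8071 5000 h1)))))))))⟩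
noncomputable def kf1q2_s : Sl2 kf1q2 := ⟨_, fun h1 h2 => (pr_norm (pr_mul (cv1p_s.snd h1) (bf1q2_s.snd h1 h2)))⟩
noncomputable def bx1q2_s : Sl2 bx1q2 := ⟨_, fun h1 h2 => (pr_norm (pr_case (pr_subr 577 500 h1) (pr_case (pr_subr 103 100 h1) (pr_add (pr_csub (enc_rat _ 1141 15000) (pr_scale 1141 15000 h1)) (pr_cmul (enc_norm (bx1q2_3.enc h1.l h2)) (pr_norm (pr_csub (enc_rat _ 5609 3000) (pr_scale 5609 3000 h1))))) (pr_case (pr_subr 27 25 h1) (pr_add (pr_csub (enc_rat _ 280223 2500000) (pr_scale 347 3125 h1)) (pr_cmul (enc_norm (bx1q2_3.enc h1.l h2)) (pr_norm (pr_csub (enc_rat _ 886249 250000) (pr_scale 17481 5000 h1))))) (pr_add (pr_csub (enc_rat _ 2002867 18500000) (pr_scale 19887 185000 h1)) (pr_cmul (enc_norm (bx1q2_3.enc h1.l h2)) (pr_norm (pr_csub (enc_rat _ 18040511 1850000) (pr_scale 170997 18500 h1))))))) (pr_casec1 (pr_subr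 231 200 h1) (enc_sub (enc_neg (enc_rat _ 2467 156250)) (enc_scale 114361 125000 (bx1q2_3.enc h1.l h2))) (pr_case (pr_subr 13 10 h1) (pr_add (pr_subr 925261 580000 (pr_scale 495727 362500 h1)) (pr_cmul (enc_norm (bx1q2_3.enc h1.l h2)) (pr_norm (pr_subr 58631 25000 (pr_scale 774 625 h1))))) (pr_add (pr_subr 2252247 2000000 (pr_scale 201327 200000 h1)) (pr_cmul (enc_norm (bx1q2_3.enc h1.l h2)) (pr_norm (pr_csub (enc_rat _ 523021 200000) (pr_scale 10309 4000 h1)))))))))⟩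
noncomputable def l1q2_s : Sl2 l1q2 := ⟨_, fun h1 h2 => (pr_norm (pr_mul (cv1p_s.snd h1) (bx1q2_s.snd h1 h2)))⟩
noncomputable def cv1r_s : Sl1 cv1r := ⟨_, fun h1 => (pr_norm (pr_half (pr_subr 1 2 (swg_s.snd h1))))⟩
noncomputable def bf1q3_s : Sl2 bf1q3 := ⟨_, fun h1 h2 => (pr_norm (pr_case (pr_subr 7 4 h1) (pr_add (pr_csub (enc_rat _ 1227157 125000) (pr_scale 1463819 250000 h1)) (pr_cmul (enc_norm (bf1q3_3.enc h1.l h2)) (pr_norm (pr_csub (enc_rat _ 2757 20000) (pr_scale 2029 25000 h1))))) (pr_add (pr_csub (enc_rat _ 2454209 250000) (pr_scale 1463759 250000 h1)) (pr_cmul (enc_norm (bf1q3_3.enc h1.l h2)) (pr_norm (pr_csub (enc_rat _ 6217 50000) (pr_scale 459 6250 h1)))))))⟩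
noncomputable def kf1q3_s : Sl2 kf1q3 := ⟨_, fun h1 h2 => (pr_norm (pr_mul (cv1r_s.snd h1) (bf1q3_s.snd h1 h2)))⟩
noncomputable def bx1q3_s : Sl2 bx1q3 := ⟨_, fun h1 h2 => (pr_norm (pr_case (pr_subr 7 4 h1) (pr_add (pr_addc (pr_scale 1109 5000 h1) (enc_rat _ 163 3125)) (pr_cmul (enc_norm (bx1q3_3.enc h1.l h2)) (pr_norm (pr_subr 747919 100000 (pr_scale 13229 3125 h1))))) (pr_add (pr_addc (pr_scale 55007 250000 h1) (enc_rat _ 55261 1000000)) (pr_cmul (enc_norm (bx1q3_3.enc h1.l h2)) (pr_norm (pr_subr 737041 100000 (pr_scale 52139 12500 h1)))))))⟩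
noncomputable def l1q3_s : Sl2 l1q3 := ⟨_, fun h1 h2 => (pr_norm (pr_mul (cv1r_s.snd h1) (bx1q3_s.snd h1 h2)))⟩
noncomputable def c3g_s : Sl1 c3g := ⟨_, fun h1 => (pr_sqrtg (pr_csub (enc_pnc _ 3) (pr_scale 3 4 (pr_sq h1))))⟩
noncomputable def cv2m_s : Sl1 cv2m := ⟨_, fun h1 => (pr_norm (pr_add (pr_scale 4 5 (pr_addc (swg_s.snd h1) (enc_rat _ 1 2))) (pr_scale 1 5 (c3g_s.snd h1))))⟩
noncomputable def bf2q0_s : Sl2 bf2q0 := ⟨_, fun h1 h2 => (pr_norm (pr_case (pr_subr 1 4 h1) (pr_add (pr_csub (enc_rat _ 749219 1000000) (pr_scale 187473 250000 h1)) (pr_cmul (enc_norm (bf2q0_3.enc h1.l h2)) (pr_norm (pr_csub (enc_rat _ 1609 10000) (pr_scale 871 1250 h1))))) (pr_add (pr_csub (enc_rat _ 12808052801 8750000000) (pr_scale 7892775301 2187500000 h1)) (pr_cmul (enc_norm (bf2q0_3.enc h1.l h2)) (pr_norm (pr_csub (enc_rat _ 295195897 875000000)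 (pr_scale 306833397 218750000 h1)))))))⟩
noncomputable def gsg_s : Sl1 gsg := ⟨_, fun h1 => (pr_sqrt (pr_csub (enc_pnc _ 1) (pr_scale 3 4 (pr_sq h1))))⟩
noncomputable def esg_s : Sl1 esg := ⟨_, fun h1 => (pr_norm (pr_subn 1 (pr_add (pr_half h1) (gsg_s.snd h1))))⟩
noncomputable def kf2q0_9_s : Sl2 kf2q0_9 := ⟨_, fun h1 h2 => (pr_csub (enc_pnc _ 1) h1)⟩
noncomputable def kf2q0_10_s : Sl2 kf2q0_10 := ⟨_, fun h1 h2 => (gsg_s.snd (pr_norm (kf2q0_9_s.snd h1 h2)))⟩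
noncomputable def kf2q0_13_s : Sl2 kf2q0_13 := ⟨_, fun h1 h2 => (pr_sub (pr_scale 3 4 (kf2q0_9_s.snd h1 h2)) (pr_half (kf2q0_10_s.snd h1 h2)))⟩
noncomputable def kf2q0_31_s : Sl2 kf2q0_31 := ⟨_, fun h1 h2 => (pr_mul (cv1m_s.snd h1) (bf1q0_s.snd h1 h2))⟩
noncomputable def kf2q0_s : Sl2 kf2q0 := ⟨_, fun h1 h2 => (pr_norm (pr_case (pr_subr 15 32 h1) (pr_mul (cv2m_s.snd h1) (bf2q0_s.snd h1 h2)) (pr_add (kf2q0_31_s.snd h1 h2) (pr_mul (pr_norm (pr_mul (pr_norm (pr_sub (pr_mul h1 (pr_norm (pr_sub (pr_mul (pr_norm (pr_sub (kf2q0_13_s.snd h1 h2) (pr_csub (enc_rat _ 1 4) (pr_scale 3 8 (pr_mul (pr_norm (kf2q0_9_s.snd h1 h2)) (pr_nd (pr_inv (kf2q0_10_s.snd h1 h2)))))))) (pr_nd (pr_inv (esg_s.snd (pr_norm (kf2q0_9_s.snd h1 h2)))))) (kcg_s.snd (pr_norm (kf2q0_13_s.snd h1 h2)) h2)))) (kf2q0_31_s.snd h1 h2))) (pr_norm (pr_sub (cv2m_s.snd h1) (cv1m_s.snd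 h1))))) (pr_nd (pr_inv (pr_sub (pr_addc (swg_s.snd h1) (enc_rat _ 1 2)) (cv1m_s.snd h1))))))))⟩
noncomputable def bx2q0_s : Sl2 bx2q0 := ⟨_, fun h1 h2 => (pr_norm (pr_case (pr_subr 1 4 h1) (pr_add (pr_addc (pr_scale 15239 62500 h1) (enc_rat _ 29057 1000000)) (pr_cmul (enc_norm (bx2q0_3.enc h1.l h2)) (pr_norm (pr_csub (enc_rat _ 27647 100000) (pr_scale 1947 5000 h1))))) (pr_add (pr_csub (enc_rat _ 273140697 2187500000) (pr_scale 152474519 1093750000 h1)) (pr_cmul (enc_norm (bx2q0_3.enc h1.l h2)) (pr_norm (pr_csub (enc_rat _ 330132539 875000000) (pr_scale 173402539 218750000 h1)))))))⟩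
noncomputable def qsg_s : Sl1 qsg := ⟨_, fun h1 => (pr_norm (pr_mul (pr_norm (pr_csub (enc_pnc _ 1) (gsg_s.snd h1))) (pr_norm (pr_subn 1 (pr_nat 2 (gsg_s.snd h1))))))⟩
noncomputable def l2q0_9_s : Sl2 l2q0_9 := ⟨_, fun h1 h2 => (pr_csub (enc_pnc _ 1) h1)⟩
noncomputable def l2q0_24_s : Sl2 l2q0_24 := ⟨_, fun h1 h2 => (pr_mul (cv1m_s.snd h1) (bx1q0_s.snd h1 h2))⟩
noncomputable def l2q0_s : Sl2 l2q0 := ⟨_, fun h1 h2 => (pr_norm (pr_case (pr_subr 15 32 h1) (pr_mul (cv2m_s.snd h1) (bx2q0_s.snd h1 h2)) (pr_add (l2q0_24_s.snd h1 h2) (pr_mul (pr_norm (pr_mul (pr_norm (pr_sub (pr_sub (qsg_s.snd (pr_norm (l2q0_9_s.snd h1 h2))) (pr_mul (pr_norm (pr_nat 2 (pr_subc (l2q0_9_s.snd h1 h2) h2))) (pr_norm (pr_mul (esg_s.snd (pr_norm (l2q0_9_s.snd h1 h2))) (kcg_s.snd (pr_norm (pr_sub (pr_scale 3 4 (l2q0_9_s.snd h1 h2)) (pr_half (gsg_s.snd (pr_norm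 (l2q0_9_s.snd h1 h2)))))) h2))))) (l2q0_24_s.snd h1 h2))) (pr_norm (pr_sub (cv2m_s.snd h1) (cv1m_s.snd h1))))) (pr_nd (pr_inv (pr_sub (pr_addc (swg_s.snd h1) (enc_rat _ 1 2)) (cv1m_s.snd h1))))))))⟩
noncomputable def bf2q1_s : Sl2 bf2q1 := ⟨_, fun h1 h2 => (pr_norm (pr_case (pr_subr 3 4 h1) (pr_add (pr_subr 1272774341 3125000000 (pr_scale 1230141447 781250000 h1)) (pr_cmul (enc_norm (bf2q1_3.enc h1.l h2)) (pr_norm (pr_subr 264709 25000000 (pr_neg (pr_scale 875847 6250000 h1)))))) (pr_add (pr_addc (pr_scale 14147 15625 h1) (enc_rat _ 1478 15625)) (pr_cmul (enc_norm (bf2q1_3.enc h1.l h2)) (pr_norm (pr_subr 11569 25000 (pr_scale 11569 25000 h1)))))))⟩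
noncomputable def kf2q1_9_s : Sl2 kf2q1_9 := ⟨_, fun h1 h2 => (pr_csub (enc_pnc _ 1) h1)⟩
noncomputable def kf2q1_10_s : Sl2 kf2q1_10 := ⟨_, fun h1 h2 => (gsg_s.snd (pr_norm (kf2q1_9_s.snd h1 h2)))⟩
noncomputable def kf2q1_16_s : Sl2 kf2q1_16 := ⟨_, fun h1 h2 => (pr_scale 3 2 (kf2q1_9_s.snd h1 h2))⟩
noncomputable def kf2q1_18_s : Sl2 kf2q1_18 := ⟨_, fun h1 h2 => (pr_cadd (enc_pnc _ 1) (kf2q1_10_s.snd h1 h2))⟩
noncomputable def kf2q1_37_s : Sl2 kf2q1_37 := ⟨_, fun h1 h2 => (pr_mul (cv1m_s.snd h1) (bf1q1_s.snd h1 h2))⟩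
noncomputable def kf2q1_s : Sl2 kf2q1 := ⟨_, fun h1 h2 => (pr_norm (pr_case (pr_subr 19 32 h1) (pr_add (kf2q1_37_s.snd h1 h2) (pr_mul (pr_norm (pr_mul (pr_norm (pr_sub (pr_add (pr_add (pr_mul (pr_norm (pr_mul (pr_norm (pr_sub (kf2q1_10_s.snd h1 h2) (kf2q1_16_s.snd h1 h2))) (pr_norm (kf2q1_18_s.snd h1 h2)))) (pr_nd (pr_inv (pr_sub (kf2q1_18_s.snd h1 h2) (kf2q1_16_s.snd h1 h2))))) (pr_mul (pr_norm (pr_sub (pr_half (kf2q1_9_s.snd h1 h2)) (pr_mul (pr_nd (pr_scale 3 4 (pr_sq (pr_norm (kf2q1_9_s.snd h1 h2))))) (pr_nd (pr_inv (kf2q1_10_s.snd h1 h2)))))) (pr_nd (pr_inv (pr_nat 2 (esg_s.snd (pr_norm (kf2q1_9_s.snd h1 h2)))))))) (pr_mul (kcg_s.snd (pr_norm (pr_sub (pr_scale 3 4 (kf2q1_9_s.snd h1 h2)) (pr_half (kf2q1_10_s.snd h1 h2)))) h2) (pr_norm (kf2q1_9_s.snd h1 h2)))) (kf2q1_37_s.snd h1 h2))) (pr_norm (pr_sub (cv2m_s.snd h1) (cv1m_s.snd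 h1))))) (pr_nd (pr_inv (pr_sub (pr_addc (swg_s.snd h1) (enc_rat _ 1 2)) (cv1m_s.snd h1)))))) (pr_mul (cv2m_s.snd h1) (bf2q1_s.snd h1 h2))))⟩
noncomputable def bx2q1_s : Sl2 bx2q1 := ⟨_, fun h1 h2 => (pr_norm (pr_case (pr_subr 3 4 h1) (pr_add (pr_add (pr_csub (enc_rat _ 84282409 625000000) (pr_scale 26629553 156250000 h1)) (pr_cmul (enc_norm (bx2q1_3.enc h1.l h2)) (pr_norm (pr_subr 39269627 625000000 (pr_scale 18148209 156250000 h1))))) (pr_cmul (enc_sq (enc_norm (bx2q1_3.enc h1.l h2))) (pr_norm (pr_subr 133239 625000 (pr_scale 44413 156250 h1))))) (pr_add (pr_csub (enc_rat _ 703 25000) (pr_scale 703 25000 h1)) (pr_cmul (enc_norm (bx2q1_3.enc h1.l h2)) (pr_norm (pr_csub (enc_rat _ 607 6250) (pr_scale 607 6250 h1)))))))⟩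
noncomputable def l2q1_9_s : Sl2 l2q1_9 := ⟨_, fun h1 h2 => (pr_csub (enc_pnc _ 1) h1)⟩
noncomputable def l2q1_24_s : Sl2 l2q1_24 := ⟨_, fun h1 h2 => (pr_mul (cv1m_s.snd h1) (bx1q1_s.snd h1 h2))⟩
noncomputable def l2q1_s : Sl2 l2q1 := ⟨_, fun h1 h2 => (pr_norm (pr_case (pr_subr 19 32 h1) (pr_add (l2q1_24_s.snd h1 h2) (pr_mul (pr_norm (pr_mul (pr_norm (pr_sub (pr_sub (qsg_s.snd (pr_norm (l2q1_9_s.snd h1 h2))) (pr_mul (pr_norm (pr_nat 2 (pr_subc (l2q1_9_s.snd h1 h2) h2))) (pr_norm (pr_mul (esg_s.snd (pr_norm (l2q1_9_s.snd h1 h2))) (kcg_s.snd (pr_norm (pr_sub (pr_scale 3 4 (l2q1_9_s.snd h1 h2)) (pr_half (gsg_s.snd (pr_norm (l2q1_9_s.snd h1 h2)))))) h2))))) (l2q1_24_s.snd h1 h2))) (pr_norm (pr_sub (cv2m_s.snd h1) (cv1m_s.snd h1))))) (pr_nd (pr_inv (pr_sub (pr_addc (swg_s.snd h1) (enc_rat _ 1 2)) (cv1m_s.snd h1)))))) (pr_mul (cv2m_s.snd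 h1) (bx2q1_s.snd h1 h2))))⟩
noncomputable def cv2p_s : Sl1 cv2p := ⟨_, fun h1 => (pr_norm (pr_add (pr_scale 4 5 (pr_subr 1 2 (swg_s.snd h1))) (pr_scale 1 5 (c3g_s.snd h1))))⟩
noncomputable def bf2q2_s : Sl2 bf2q2 := ⟨_, fun h1 h2 => (pr_norm (pr_case (pr_subr 27 25 h1) (pr_case (pr_subr 103 100 h1) (pr_add (pr_csub (enc_rat _ 1957817 1000000) (pr_scale 5023 5000 h1)) (pr_cmul (enc_norm (bf2q2_3.enc h1.l h2)) (pr_norm (pr_csub (enc_rat _ 3953 7500) (pr_scale 1931 3000 h1))))) (pr_add (pr_csub (enc_rat _ 9792999 5000000) (pr_scale 12567 12500 h1)) (pr_cmul (enc_norm (bf2q2_3.enc h1.l h2)) (pr_norm (pr_csub (enc_rat _ 264117 500000) (pr_scale 403 625 h1)))))) (pr_case (pr_subr 29 25 h1) (pr_add (pr_csub (enc_rat _ 2419803 1000000) (pr_scale 3581 2500 h1)) (pr_cmul (enc_norm (bf2q2_3.enc h1.l h2)) (pr_norm (pr_csub (enc_rat _ 52521 100000)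 (pr_scale 321 500 h1))))) (pr_case (pr_subr 13 10 h1) (pr_add (pr_csub (enc_rat _ 2616307 1000000) (pr_scale 8009 5000 h1)) (pr_cmul (enc_norm (bf2q2_3.enc h1.l h2)) (pr_norm (pr_csub (enc_rat _ 369039 700000) (pr_scale 2253 3500 h1))))) (pr_add (pr_csub (enc_rat _ 27807603051 10625000000) (pr_scale 425657763 265625000 h1)) (pr_cmul (enc_norm (bf2q2_3.enc h1.l h2)) (pr_norm (pr_subr 205037297 62500000 (pr_scale 7141747 3125000 h1)))))))))⟩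
noncomputable def kf2q2_8_s : Sl2 kf2q2_8 := ⟨_, fun h1 h2 => (pr_subn 1 h1)⟩
noncomputable def kf2q2_9_s : Sl2 kf2q2_9 := ⟨_, fun h1 h2 => (gsg_s.snd (pr_norm (kf2q2_8_s.snd h1 h2)))⟩
noncomputable def kf2q2_15_s : Sl2 kf2q2_15 := ⟨_, fun h1 h2 => (pr_scale 3 2 (kf2q2_8_s.snd h1 h2))⟩
noncomputable def kf2q2_17_s : Sl2 kf2q2_17 := ⟨_, fun h1 h2 => (pr_cadd (enc_pnc _ 1) (kf2q2_9_s.snd h1 h2))⟩
noncomputable def kf2q2_36_s : Sl2 kf2q2_36 := ⟨_, fun h1 h2 => (pr_mul (cv1p_s.snd h1) (bf1q2_s.snd h1 h2))⟩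
noncomputable def kf2q2_s : Sl2 kf2q2 := ⟨_, fun h1 h2 => (pr_norm (pr_case (pr_subr 45 32 h1) (pr_mul (cv2p_s.snd h1) (bf2q2_s.snd h1 h2)) (pr_add (kf2q2_36_s.snd h1 h2) (pr_mul (pr_norm (pr_mul (pr_norm (pr_sub (pr_add (pr_sub (pr_mul (pr_norm (pr_mul (pr_norm (pr_sub (kf2q2_9_s.snd h1 h2) (kf2q2_15_s.snd h1 h2))) (pr_norm (kf2q2_17_s.snd h1 h2)))) (pr_nd (pr_inv (pr_sub (kf2q2_17_s.snd h1 h2) (kf2q2_15_s.snd h1 h2))))) (pr_mul (pr_norm (pr_sub (pr_half (kf2q2_8_s.snd h1 h2)) (pr_mul (pr_nd (pr_scale 3 4 (pr_sq (pr_norm (kf2q2_8_s.snd h1 h2))))) (pr_nd (pr_inv (kf2q2_9_s.snd h1 h2)))))) (pr_nd (pr_inv (pr_nat 2 (esg_s.snd (pr_norm (kf2q2_8_s.snd h1 h2)))))))) (pr_mul (kcg_s.snd (pr_norm (pr_sub (pr_scale 3 4 (kf2q2_8_s.snd h1 h2)) (pr_half (kf2q2_9_s.snd h1 h2)))) h2) (pr_norm (kf2q2_8_s.snd h1 h2)))) (kf2q2_36_s.snd h1 h2))) (pr_norm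 (pr_sub (cv2p_s.snd h1) (cv1p_s.snd h1))))) (pr_nd (pr_inv (pr_sub (pr_subr 1 2 (swg_s.snd h1)) (cv1p_s.snd h1))))))))⟩
noncomputable def bx2q2_s : Sl2 bx2q2 := ⟨_, fun h1 h2 => (pr_norm (pr_case (pr_subr 27 25 h1) (pr_case (pr_subr 103 100 h1) (pr_add (pr_csub (enc_rat _ 62191 1500000) (pr_scale 797 30000 h1)) (pr_cmul (enc_norm (bx2q2_3.enc h1.l h2)) (pr_norm (pr_subr 209749 300000 (pr_scale 617 600 h1))))) (pr_add (pr_csub (enc_rat _ 3208 78125) (pr_scale 1309 50000 h1)) (pr_cmul (enc_norm (bx2q2_3.enc h1.l h2)) (pr_norm (pr_subr 337977 500000 (pr_scale 5029 5000 h1)))))) (pr_case (pr_subr 29 25 h1) (pr_add (pr_csub (enc_rat _ 2507 62500) (pr_scale 253 10000 h1)) (pr_cmul (enc_norm (bx2q2_3.enc h1.l h2)) (pr_norm (pr_csub (enc_rat _ 402471 200000) (pr_scale 11867 8000 h1))))) (pr_case (pr_subr 13 10 h1) (pr_add (pr_subr 10113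 875000 (pr_scale 1347 70000 h1)) (pr_cmul (enc_norm (bx2q2_3.enc h1.l h2)) (pr_norm (pr_csub (enc_rat _ 694457 350000) (pr_scale 20427 14000 h1))))) (pr_add (pr_add (pr_subr 8273188171 10625000000 (pr_scale 647398417 1062500000 h1)) (pr_cmul (enc_norm (bx2q2_3.enc h1.l h2)) (pr_norm (pr_subr 797583497 1062500000 (pr_scale 34246697 53125000 h1))))) (pr_cmul (enc_sq (enc_norm (bx2q2_3.enc h1.l h2))) (pr_norm (pr_csub (enc_rat _ 2157701 1062500) (pr_scale 165977 106250 h1)))))))))⟩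
noncomputable def l2q2_8_s : Sl2 l2q2_8 := ⟨_, fun h1 h2 => (pr_subn 1 h1)⟩
noncomputable def l2q2_23_s : Sl2 l2q2_23 := ⟨_, fun h1 h2 => (pr_mul (cv1p_s.snd h1) (bx1q2_s.snd h1 h2))⟩
noncomputable def l2q2_s : Sl2 l2q2 := ⟨_, fun h1 h2 => (pr_norm (pr_case (pr_subr 45 32 h1) (pr_mul (cv2p_s.snd h1) (bx2q2_s.snd h1 h2)) (pr_add (l2q2_23_s.snd h1 h2) (pr_mul (pr_norm (pr_mul (pr_norm (pr_sub (pr_sub (qsg_s.snd (pr_norm (l2q2_8_s.snd h1 h2))) (pr_mul (pr_norm (pr_nat 2 (pr_subc (l2q2_8_s.snd h1 h2) h2))) (pr_norm (pr_mul (esg_s.snd (pr_norm (l2q2_8_s.snd h1 h2))) (kcg_s.snd (pr_norm (pr_sub (pr_scale 3 4 (l2q2_8_s.snd h1 h2)) (pr_half (gsg_s.snd (pr_norm (l2q2_8_s.snd h1 h2)))))) h2))))) (l2q2_23_s.snd h1 h2))) (pr_norm (pr_sub (cv2p_s.snd h1) (cv1p_s.snd h1))))) (pr_nd (pr_inv (pr_sub (pr_subr 1 2 (swg_s.snd h1)) (cv1p_s.snd h1))))))))⟩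
noncomputable def ycg_s : Sl1 ycg := ⟨_, fun h1 => (pr_sqrtg (pr_scale 4 3 (pr_csub (enc_pnc _ 3) (pr_sq h1))))⟩
noncomputable def xc23_s : Sl1 xc23 := ⟨_, fun h1 => (pr_norm (pr_add (pr_scale 4 5 (pr_subr 1 2 (swg_s.snd (pr_nd (ycg_s.snd h1))))) (pr_scale 1 5 h1)))⟩
noncomputable def bf2q3_s : Sl2 bf2q3 := ⟨_, fun h1 h2 => (pr_norm (pr_case (pr_subr 7 4 h1) (pr_add (pr_subr 1016356293 625000000 (pr_scale 916500043 1093750000 h1)) (pr_cmul (enc_norm (bf2q3_3.enc h1.l h2)) (pr_norm (pr_csub (enc_rat _ 1348329 5000000) (pr_scale 1562079 8750000 h1))))) (pr_add (pr_subr 59727 12500 (pr_scale 65977 25000 h1)) (pr_cmul (enc_norm (bf2q3_3.enc h1.l h2)) (pr_norm (pr_subr 171 500 (pr_scale 171 1000 h1)))))))⟩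
noncomputable def kfc23_6_s : Sl2 kfc23_6 := ⟨_, fun h1 h2 => (pr_subr 1 2 (swg_s.snd (pr_nd (ycg_s.snd h1))))⟩
noncomputable def kfc23_9_s : Sl2 kfc23_9 := ⟨_, fun h1 h2 => (pr_add (pr_scale 4 5 (kfc23_6_s.snd h1 h2)) (pr_scale 1 5 h1))⟩
noncomputable def kfc23_15_s : Sl2 kfc23_15 := ⟨_, fun h1 h2 => (pr_subn 1 (ycg_s.snd h1))⟩
noncomputable def kfc23_16_s : Sl2 kfc23_16 := ⟨_, fun h1 h2 => (gsg_s.snd (pr_norm (kfc23_15_s.snd h1 h2)))⟩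
noncomputable def kfc23_17_s : Sl2 kfc23_17 := ⟨_, fun h1 h2 => (pr_scale 3 4 (kfc23_15_s.snd h1 h2))⟩
noncomputable def kfc23_18_s : Sl2 kfc23_18 := ⟨_, fun h1 h2 => (pr_half (kfc23_16_s.snd h1 h2))⟩
noncomputable def kfc23_35_s : Sl2 kfc23_35 := ⟨_, fun h1 h2 => (cv1r_s.snd (pr_nd (ycg_s.snd h1)))⟩
noncomputable def kfc23_37_s : Sl2 kfc23_37 := ⟨_, fun h1 h2 => (pr_mul (kfc23_35_s.snd h1 h2) (bf1q3_s.snd (pr_nd (ycg_s.snd h1)) h2))⟩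
noncomputable def kfc23_s : Sl2 kfc23 := ⟨_, fun h1 h2 => (pr_norm (pr_case (pr_subr 49 32 (ycg_s.snd h1)) (pr_add (kfc23_37_s.snd h1 h2) (pr_mul (pr_norm (pr_mul (pr_norm (pr_sub (pr_mul (pr_norm (pr_subn 2 (ycg_s.snd h1))) (pr_norm (pr_add (pr_mul (pr_norm (pr_sub (pr_sub (kfc23_18_s.snd h1 h2) (kfc23_17_s.snd h1 h2)) (pr_csub (enc_rat _ 1 4) (pr_scale 3 8 (pr_mul (pr_norm (kfc23_15_s.snd h1 h2)) (pr_nd (pr_inv (kfc23_16_s.snd h1 h2)))))))) (pr_nd (pr_inv (esg_s.snd (pr_norm (kfc23_15_s.snd h1 h2)))))) (kcg_s.snd (pr_norm (pr_sub (kfc23_17_s.snd h1 h2) (kfc23_18_s.snd h1 h2))) h2)))) (kfc23_37_s.snd h1 h2))) (pr_norm (pr_sub (kfc23_9_s.snd h1 h2) (kfc23_35_s.snd h1 h2))))) (pr_nd (pr_inv (pr_sub (kfc23_6_s.snd h1 h2) (kfc23_35_s.snd h1 h2)))))) (pr_mul (pr_norm (kfc23_9_s.snd h1 h2)) (bf2q3_s.snd (pr_nd (ycg_s.snd h1)) h2))))⟩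
noncomputable def bx2q3_s : Sl2 bx2q3 := ⟨_, fun h1 h2 => (pr_norm (pr_case (pr_subr 7 4 h1) (pr_add (pr_subr 841174011 1250000000 (pr_scale 1221616511 2187500000 h1)) (pr_cmul (enc_norm (bx2q3_3.enc h1.l h2)) (pr_norm (pr_subr 558935097 125000000 (pr_scale 669352597 218750000 h1))))) (pr_add (pr_csub (enc_rat _ 78772783 40000000) (pr_scale 9514089 10000000 h1)) (pr_cmul (enc_norm (bx2q3_3.enc h1.l h2)) (pr_norm (pr_subr 2547873 800000 (pr_scale 92987 40000 h1)))))))⟩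
noncomputable def lc23_6_s : Sl2 lc23_6 := ⟨_, fun h1 h2 => (pr_subr 1 2 (swg_s.snd (pr_nd (ycg_s.snd h1))))⟩
noncomputable def lc23_9_s : Sl2 lc23_9 := ⟨_, fun h1 h2 => (pr_add (pr_scale 4 5 (lc23_6_s.snd h1 h2)) (pr_scale 1 5 h1))⟩
noncomputable def lc23_15_s : Sl2 lc23_15 := ⟨_, fun h1 h2 => (pr_subn 1 (ycg_s.snd h1))⟩
noncomputable def lc23_28_s : Sl2 lc23_28 := ⟨_, fun h1 h2 => (cv1r_s.snd (pr_nd (ycg_s.snd h1)))⟩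
noncomputable def lc23_30_s : Sl2 lc23_30 := ⟨_, fun h1 h2 => (pr_mul (lc23_28_s.snd h1 h2) (bx1q3_s.snd (pr_nd (ycg_s.snd h1)) h2))⟩
noncomputable def lc23_s : Sl2 lc23 := ⟨_, fun h1 h2 => (pr_norm (pr_case (pr_subr 49 32 (ycg_s.snd h1)) (pr_add (lc23_30_s.snd h1 h2) (pr_mul (pr_norm (pr_mul (pr_norm (pr_sub (pr_sub (qsg_s.snd (pr_norm (lc23_15_s.snd h1 h2))) (pr_mul (pr_norm (pr_nat 2 (pr_subc (lc23_15_s.snd h1 h2) h2))) (pr_norm (pr_mul (esg_s.snd (pr_norm (lc23_15_s.snd h1 h2))) (kcg_s.snd (pr_norm (pr_sub (pr_scale 3 4 (lc23_15_s.snd h1 h2)) (pr_half (gsg_s.snd (pr_norm (lc23_15_s.snd h1 h2)))))) h2))))) (lc23_30_s.snd h1 h2))) (pr_norm (pr_sub (lc23_9_s.snd h1 h2) (lc23_28_s.snd h1 h2))))) (pr_nd (pr_inv (pr_sub (lc23_6_s.snd h1 h2) (lc23_28_s.snd h1 h2)))))) (pr_mul (pr_norm (lc23_9_s.snd h1 h2)) (bx2q3_s.snd (pr_nd (ycg_s.snd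 h1)) h2))))⟩
noncomputable def cv3m_s : Sl1 cv3m := ⟨_, fun h1 => (pr_norm (pr_add (pr_scale 11 25 (pr_addc (swg_s.snd h1) (enc_rat _ 1 2))) (pr_scale 14 25 (c3g_s.snd h1))))⟩
noncomputable def bf3q0_s : Sl2 bf3q0 := ⟨_, fun h1 h2 => (pr_norm (pr_case (pr_subr 1 4 h1) (pr_add (pr_csub (enc_rat _ 277207 500000) (pr_scale 483219 250000 h1)) (pr_cmul (enc_norm (bf3q0_3.enc h1.l h2)) (pr_norm (pr_subr 271 50000 (pr_scale 101 6250 h1))))) (pr_add (pr_csub (enc_rat _ 110887 200000) (pr_scale 12081 6250 h1)) (pr_cmul (enc_norm (bf3q0_3.enc h1.l h2)) (pr_norm (pr_subr 509 100000 (pr_scale 371 25000 h1)))))))⟩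
noncomputable def kf3q0_s : Sl2 kf3q0 := ⟨_, fun h1 h2 => (pr_norm (pr_mul (cv3m_s.snd h1) (bf3q0_s.snd h1 h2)))⟩
noncomputable def bx3q0_s : Sl2 bx3q0 := ⟨_, fun h1 h2 => (pr_norm (pr_case (pr_subr 1 4 h1) (pr_add (pr_csub (enc_rat _ 19943 200000) (pr_scale 11607 125000 h1)) (pr_cmul (enc_norm (bx3q0_3.enc h1.l h2)) (pr_norm (pr_csub (enc_rat _ 11407 100000) (pr_scale 247 25000 h1))))) (pr_add (pr_csub (enc_rat _ 6597 62500) (pr_scale 29051 250000 h1)) (pr_cmul (enc_norm (bx3q0_3.enc h1.l h2)) (pr_norm (pr_csub (enc_rat _ 5803 50000) (pr_scale 223 12500 h1)))))))⟩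
noncomputable def l3q0_s : Sl2 l3q0 := ⟨_, fun h1 h2 => (pr_norm (pr_mul (cv3m_s.snd h1) (bx3q0_s.snd h1 h2)))⟩
noncomputable def bf3q1_s : Sl2 bf3q1 := ⟨_, fun h1 h2 => (pr_norm (pr_case (pr_subr 3 4 h1) (pr_add (pr_addc (pr_scale 121569 125000 h1) (enc_rat _ 17429 250000)) (pr_cmul (enc_norm (bf3q1_3.enc h1.l h2)) (pr_norm (pr_csub (enc_rat _ 213 2000) (pr_scale 3151 25000 h1))))) (pr_add (pr_addc (pr_scale 20087 25000 h1) (enc_rat _ 4913 25000)) (pr_cmul (enc_norm (bf3q1_3.enc h1.l h2)) (pr_norm (pr_csub (enc_rat _ 1197 25000) (pr_scale 1197 25000 h1)))))))⟩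
noncomputable def kf3q1_s : Sl2 kf3q1 := ⟨_, fun h1 h2 => (pr_norm (pr_mul (cv3m_s.snd h1) (bf3q1_s.snd h1 h2)))⟩
noncomputable def bx3q1_s : Sl2 bx3q1 := ⟨_, fun h1 h2 => (pr_norm (pr_case (pr_subr 3 4 h1) (pr_add (pr_csub (enc_rat _ 58193 500000) (pr_scale 35063 250000 h1)) (pr_cmul (enc_norm (bx3q1_3.enc h1.l h2)) (pr_norm (pr_csub (enc_rat _ 3809 25000) (pr_scale 1967 25000 h1))))) (pr_add (pr_csub (enc_rat _ 11197 250000) (pr_scale 11197 250000 h1)) (pr_cmul (enc_norm (bx3q1_3.enc h1.l h2)) (pr_norm (pr_csub (enc_rat _ 1867 5000) (pr_scale 1867 5000 h1)))))))⟩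
noncomputable def l3q1_s : Sl2 l3q1 := ⟨_, fun h1 h2 => (pr_norm (pr_mul (cv3m_s.snd h1) (bx3q1_s.snd h1 h2)))⟩
noncomputable def cv3p_s : Sl1 cv3p := ⟨_, fun h1 => (pr_norm (pr_add (pr_scale 11 25 (pr_subr 1 2 (swg_s.snd h1))) (pr_scale 14 25 (c3g_s.snd h1))))⟩
noncomputable def bf3q2_s : Sl2 bf3q2 := ⟨_, fun h1 h2 => (pr_norm (pr_case (pr_subr 27 25 h1) (pr_case (pr_subr 103 100 h1) (pr_add (pr_subr 189767 1500000 (pr_scale 26971 30000 h1)) (pr_cmul (enc_norm (bf3q2_3.enc h1.l h2)) (pr_norm (pr_subr 19649 150000 (pr_scale 73 750 h1))))) (pr_add (pr_subr 316141 2500000 (pr_scale 44949 50000 h1)) (pr_cmul (enc_norm (bf3q2_3.enc h1.l h2)) (pr_norm (pr_subr 16357 125000 (pr_scale 243 2500 h1)))))) (pr_case (pr_subr 29 25 h1) (pr_add (pr_subr 252767 2000000 (pr_scale 71913 80000 h1)) (pr_cmul (enc_norm (bf3q2_3.enc h1.l h2)) (pr_norm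 (pr_subr 1633 12500 (pr_scale 97 1000 h1))))) (pr_case (pr_subr 13 10 h1) (pr_add (pr_subr 126311 1000000 (pr_scale 17977 20000 h1)) (pr_cmul (enc_norm (bf3q2_3.enc h1.l h2)) (pr_norm (pr_subr 45463 350000 (pr_scale 1349 14000 h1))))) (pr_add (pr_subr 252557 2000000 (pr_scale 35953 40000 h1)) (pr_cmul (enc_norm (bf3q2_3.enc h1.l h2)) (pr_norm (pr_subr 1037 8000 (pr_scale 1923 20000 h1)))))))))⟩
noncomputable def kf3q2_s : Sl2 kf3q2 := ⟨_, fun h1 h2 => (pr_norm (pr_mul (cv3p_s.snd h1) (bf3q2_s.snd h1 h2)))⟩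
noncomputable def bx3q2_s : Sl2 bx3q2 := ⟨_, fun h1 h2 => (pr_norm (pr_case (pr_subr 27 25 h1) (pr_case (pr_subr 103 100 h1) (pr_add (pr_subr 128329 1500000 (pr_scale 1069 15000 h1)) (pr_cmul (enc_norm (bx3q2_3.enc h1.l h2)) (pr_norm (pr_subr 540889 300000 (pr_scale 2159 1500 h1))))) (pr_add (pr_subr 428553 5000000 (pr_scale 3571 50000 h1)) (pr_cmul (enc_norm (bx3q2_3.enc h1.l h2)) (pr_norm (pr_subr 56319 31250 (pr_scale 7193 5000 h1)))))) (pr_case (pr_subr 29 25 h1) (pr_add (pr_subr 17181 200000 (pr_scale 179 2500 h1)) (pr_cmul (enc_norm (bx3q2_3.enc h1.l h2)) (pr_norm (pr_subr 360069 200000 (pr_scale 2299 1600 h1))))) (pr_case (pr_subr 13 10 h1) (pr_add (pr_subr 24123 280000 (pr_scale 5027 70000 h1)) (pr_cmul (enc_norm (bx3q2_3.enc h1.l h2)) (pr_norm (pr_subr 251593 140000 (pr_scale 20077 14000 h1))))) (pr_add (pr_subr 8633 100000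 (pr_scale 1439 20000 h1)) (pr_cmul (enc_norm (bx3q2_3.enc h1.l h2)) (pr_norm (pr_subr 179557 100000 (pr_scale 14329 10000 h1)))))))))⟩
noncomputable def l3q2_s : Sl2 l3q2 := ⟨_, fun h1 h2 => (pr_norm (pr_mul (cv3p_s.snd h1) (bx3q2_s.snd h1 h2)))⟩
noncomputable def xc33_s : Sl1 xc33 := ⟨_, fun h1 => (pr_norm (pr_add (pr_scale 11 25 (pr_subr 1 2 (swg_s.snd (pr_nd (ycg_s.snd h1))))) (pr_scale 14 25 h1)))⟩
noncomputable def bf3q3_s : Sl2 bf3q3 := ⟨_, fun h1 h2 => (pr_norm (pr_case (pr_subr 7 4 h1) (pr_add (pr_subr 4523967 1000000 (pr_scale 125599 50000 h1)) (pr_cmul (enc_norm (bf3q3_3.enc h1.l h2)) (pr_norm (pr_subr 231 20000 (pr_scale 29 5000 h1))))) (pr_add (pr_subr 282751 62500 (pr_scale 314001 125000 h1)) (pr_cmul (enc_norm (bf3q3_3.enc h1.l h2)) (pr_norm (pr_subr 7 625 (pr_scale 7 1250 h1)))))))⟩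
noncomputable def kfc33_s : Sl2 kfc33 := ⟨_, fun h1 h2 => (pr_norm (pr_mul (pr_norm (pr_add (pr_scale 11 25 (pr_subr 1 2 (swg_s.snd (pr_nd (ycg_s.snd h1))))) (pr_scale 14 25 h1))) (bf3q3_s.snd (pr_nd (ycg_s.snd h1)) h2)))⟩
noncomputable def bx3q3_s : Sl2 bx3q3 := ⟨_, fun h1 h2 => (pr_norm (pr_case (pr_subr 7 4 h1) (pr_add (pr_csub (enc_rat _ 253281 1000000) (pr_scale 11661 125000 h1)) (pr_cmul (enc_norm (bx3q3_3.enc h1.l h2)) (pr_norm (pr_subr 444817 100000 (pr_scale 73873 25000 h1))))) (pr_add (pr_csub (enc_rat _ 10188143 40000000) (pr_scale 941009 10000000 h1)) (pr_cmul (enc_norm (bx3q3_3.enc h1.l h2)) (pr_norm (pr_subr 3574433 800000 (pr_scale 118651 40000 h1)))))))⟩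
noncomputable def lc33_s : Sl2 lc33 := ⟨_, fun h1 h2 => (pr_norm (pr_mul (pr_norm (pr_add (pr_scale 11 25 (pr_subr 1 2 (swg_s.snd (pr_nd (ycg_s.snd h1))))) (pr_scale 14 25 h1))) (bx3q3_s.snd (pr_nd (ycg_s.snd h1)) h2)))⟩
noncomputable def kf4q0_s : Sl2 kf4q0 := ⟨_, fun h1 h2 => (pr_norm (pr_sub (pr_mul h1 (kcg_s.snd (pr_nd (pr_half h1)) h2)) (pr_mul (pr_norm (pr_mul (pr_nd (pr_sq h1)) (pr_norm (pr_addc (c3g_s.snd h1) (enc_rat _ 3 2))))) (pr_nd (pr_inv (pr_mul (pr_norm (pr_csub (enc_pnc _ 1) h1)) (pr_norm (pr_cadd (enc_pnc _ 1) h1))))))))⟩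
noncomputable def l4q0_6_s : Sl2 l4q0_6 := ⟨_, fun h1 h2 => (pr_half h1)⟩
noncomputable def l4q0_7_s : Sl2 l4q0_7 := ⟨_, fun h1 h2 => (pr_half (c3g_s.snd h1))⟩
noncomputable def l4q0_8_s : Sl2 l4q0_8 := ⟨_, fun h1 h2 => (pr_scale 1 4 h1)⟩
noncomputable def l4q0_s : Sl2 l4q0 := ⟨_, fun h1 h2 => (pr_norm (pr_add (txg_s.snd (pr_nd (l4q0_6_s.snd h1 h2)) (pr_norm (pr_sub (l4q0_7_s.snd h1 h2) (l4q0_8_s.snd h1 h2))) h2) (txg_s.snd (pr_nd (pr_neg (l4q0_6_s.snd h1 h2))) (pr_norm (pr_add (l4q0_7_s.snd h1 h2) (l4q0_8_s.snd h1 h2))) h2)))⟩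
noncomputable def kf4q1_s : Sl2 kf4q1 := ⟨_, fun h1 h2 => (pr_norm (pr_add (pr_mul (pr_norm (pr_mul h1 (pr_norm (pr_addc (c3g_s.snd h1) (enc_rat _ 3 2))))) (pr_nd (pr_inv (pr_cadd (enc_pnc _ 1) h1)))) (pr_mul (pr_norm (pr_subn 1 h1)) (kcg_s.snd (pr_nd (pr_half h1)) h2))))⟩
noncomputable def l4q1_7_s : Sl2 l4q1_7 := ⟨_, fun h1 h2 => (pr_half h1)⟩
noncomputable def l4q1_8_s : Sl2 l4q1_8 := ⟨_, fun h1 h2 => (pr_half (c3g_s.snd h1))⟩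
noncomputable def l4q1_9_s : Sl2 l4q1_9 := ⟨_, fun h1 h2 => (pr_scale 1 4 h1)⟩
noncomputable def l4q1_s : Sl2 l4q1 := ⟨_, fun h1 h2 => (pr_norm (pr_add (txg_s.snd (pr_nd (l4q1_7_s.snd h1 h2)) (pr_norm (pr_sub (l4q1_8_s.snd h1 h2) (l4q1_9_s.snd h1 h2))) h2) (txg_s.snd (pr_nd (pr_neg (l4q1_7_s.snd h1 h2))) (pr_norm (pr_add (l4q1_8_s.snd h1 h2) (l4q1_9_s.snd h1 h2))) h2)))⟩
noncomputable def kf4q2_s : Sl2 kf4q2 := ⟨_, fun h1 h2 => (pr_norm (pr_add (pr_mul (pr_norm (pr_mul (pr_norm (pr_sub (pr_nat 2 (c3g_s.snd h1)) h1)) (pr_norm (pr_sub (pr_addc (c3g_s.snd h1) (enc_pnc _ 3)) (pr_scale 3 2 h1))))) (pr_nd (pr_inv (pr_nat 4 (pr_csub (enc_pnc _ 2) h1))))) (pr_mul (pr_norm (pr_subn 1 h1)) (kcg_s.snd (pr_norm (pr_sub (pr_scale 1 4 h1) (pr_half (c3g_s.snd h1)))) h2))))⟩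
noncomputable def l4q2_7_s : Sl2 l4q2_7 := ⟨_, fun h1 h2 => (pr_half (c3g_s.snd h1))⟩
noncomputable def l4q2_8_s : Sl2 l4q2_8 := ⟨_, fun h1 h2 => (pr_scale 1 4 h1)⟩
noncomputable def l4q2_9_s : Sl2 l4q2_9 := ⟨_, fun h1 h2 => (pr_sub (l4q2_7_s.snd h1 h2) (l4q2_8_s.snd h1 h2))⟩
noncomputable def l4q2_12_s : Sl2 l4q2_12 := ⟨_, fun h1 h2 => (pr_add (pr_scale 1 4 (c3g_s.snd h1)) (pr_scale 3 8 h1))⟩
noncomputable def l4q2_14_s : Sl2 l4q2_14 := ⟨_, fun h1 h2 => (pr_half (l4q2_9_s.snd h1 h2))⟩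
noncomputable def l4q2_s : Sl2 l4q2 := ⟨_, fun h1 h2 => (pr_norm (pr_sub (pr_nat 2 (txg_s.snd (pr_norm (pr_sub (l4q2_8_s.snd h1 h2) (l4q2_7_s.snd h1 h2))) (pr_norm (pr_add (l4q2_12_s.snd h1 h2) (l4q2_14_s.snd h1 h2))) h2)) (txg_s.snd (pr_norm (l4q2_9_s.snd h1 h2)) (pr_norm (pr_sub (l4q2_12_s.snd h1 h2) (l4q2_14_s.snd h1 h2))) h2)))⟩
noncomputable def kfc43_s : Sl2 kfc43 := ⟨_, fun h1 h2 => (pr_norm (pr_sub (pr_mul (pr_norm (pr_subn 2 (ycg_s.snd h1))) (kcg_s.snd (pr_norm (pr_sub (pr_scale 1 4 (ycg_s.snd h1)) (pr_half h1))) h2)) (pr_mul (pr_norm (pr_mul (pr_norm (pr_sub (pr_nat 2 h1) (ycg_s.snd h1))) (pr_norm (pr_sub (pr_addc h1 (enc_pnc _ 3)) (pr_scale 3 2 (ycg_s.snd h1)))))) (pr_nd (pr_inv (pr_nat 4 (pr_subn 1 (ycg_s.snd h1))))))))⟩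
noncomputable def lc43_7_s : Sl2 lc43_7 := ⟨_, fun h1 h2 => (pr_half h1)⟩
noncomputable def lc43_8_s : Sl2 lc43_8 := ⟨_, fun h1 h2 => (pr_scale 1 4 (ycg_s.snd h1))⟩
noncomputable def lc43_9_s : Sl2 lc43_9 := ⟨_, fun h1 h2 => (pr_sub (lc43_7_s.snd h1 h2) (lc43_8_s.snd h1 h2))⟩
noncomputable def lc43_12_s : Sl2 lc43_12 := ⟨_, fun h1 h2 => (pr_add (pr_scale 1 4 h1) (pr_scale 3 8 (ycg_s.snd h1)))⟩
noncomputable def lc43_14_s : Sl2 lc43_14 := ⟨_, fun h1 h2 => (pr_half (lc43_9_s.snd h1 h2))⟩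
noncomputable def lc43_s : Sl2 lc43 := ⟨_, fun h1 h2 => (pr_norm (pr_sub (pr_nat 2 (txg_s.snd (pr_norm (pr_sub (lc43_8_s.snd h1 h2) (lc43_7_s.snd h1 h2))) (pr_norm (pr_add (lc43_12_s.snd h1 h2) (lc43_14_s.snd h1 h2))) h2)) (txg_s.snd (pr_norm (lc43_9_s.snd h1 h2)) (pr_norm (pr_sub (lc43_12_s.snd h1 h2) (lc43_14_s.snd h1 h2))) h2)))⟩
noncomputable def gF0q0 : Gn := ⟨ndF0q0, c1g_s, kf0q0_s, l0q0_s, false⟩
noncomputable def gF0q1 : Gn := ⟨ndF0q1, c1g_s, kf0q1_s, l0q1_s, false⟩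
noncomputable def gF0q2 : Gn := ⟨ndF0q2, idf_s, kfc02_s, lc02_s, true⟩
noncomputable def gF1q0 : Gn := ⟨ndF1q0, cv1m_s, kf1q0_s, l1q0_s, false⟩
noncomputable def gF1q1 : Gn := ⟨ndF1q1, cv1m_s, kf1q1_s, l1q1_s, false⟩
noncomputable def gF1q2 : Gn := ⟨ndF1q2, cv1p_s, kf1q2_s, l1q2_s, false⟩
noncomputable def gF1q3 : Gn := ⟨ndF1q3, cv1r_s, kf1q3_s, l1q3_s, false⟩
noncomputable def gF2q0 : Gn := ⟨ndF2q0, cv2m_s, kf2q0_s, l2q0_s, false⟩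
noncomputable def gF2q1 : Gn := ⟨ndF2q1, cv2m_s, kf2q1_s, l2q1_s, false⟩
noncomputable def gF2q2 : Gn := ⟨ndF2q2, cv2p_s, kf2q2_s, l2q2_s, false⟩
noncomputable def gF2q3 : Gn := ⟨ndF2q3, xc23_s, kfc23_s, lc23_s, false⟩
noncomputable def gF3q0 : Gn := ⟨ndF3q0, cv3m_s, kf3q0_s, l3q0_s, false⟩
noncomputable def gF3q1 : Gn := ⟨ndF3q1, cv3m_s, kf3q1_s, l3q1_s, false⟩
noncomputable def gF3q2 : Gn := ⟨ndF3q2, cv3p_s, kf3q2_s, l3q2_s, false⟩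
noncomputable def gF3q3 : Gn := ⟨ndF3q3, xc33_s, kfc33_s, lc33_s, false⟩
noncomputable def gF4q0 : Gn := ⟨ndF4q0, c3g_s, kf4q0_s, l4q0_s, false⟩
noncomputable def gF4q1 : Gn := ⟨ndF4q1, c3g_s, kf4q1_s, l4q1_s, false⟩
noncomputable def gF4q2 : Gn := ⟨ndF4q2, c3g_s, kf4q2_s, l4q2_s, false⟩
noncomputable def gF4q3 : Gn := ⟨ndF4q3, idf_s, kfc43_s, lc43_s, false⟩
noncomputable def gF0q3 : Gn := gz
noncomputable def gF (j : Fin 5) (q : ℕ) : Gn :=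
  match j, q with
  | 0, 0 => gF0q0
  | 0, 1 => gF0q1
  | 0, 2 => gF0q2
  | 0, 3 => gF0q3
  | 1, 0 => gF1q0
  | 1, 1 => gF1q1
  | 1, 2 => gF1q2
  | 1, 3 => gF1q3
  | 2, 0 => gF2q0
  | 2, 1 => gF2q1
  | 2, 2 => gF2q2
  | 2, 3 => gF2q3
  | 3, 0 => gF3q0
  | 3, 1 => gF3q1
  | 3, 2 => gF3q2
  | 3, 3 => gF3q3
  | 4, 0 => gF4q0
  | 4, 1 => gF4q1
  | 4, 2 => gF4q2
  | 4, 3 => gF4q3
  | _, _ => gF0q0

noncomputable def c0n : Fn1 := ⟨_, _, fun h1 => (enc_norm (enc_add (enc_pnc _ 1) (enc_mul (mug3.enc h1) (gug.enc h1))))⟩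
noncomputable def gug_s : Sl1 gug := ⟨_, fun h1 => (pr_norm (pr_add (pr_scale 3 4 h1) (pr_scale 3 2 (pr_csub (enc_pnc _ 1) (gsg_s.snd h1)))))⟩
noncomputable def kug_2_s : Sl1 kug_2 := ⟨_, fun h1 => (pr_sq h1)⟩
noncomputable def kug_s : Sl1 kug := ⟨_, fun h1 => (pr_norm (pr_add (pr_add (pr_scale 3 4 h1) (pr_scale 3 2 (kug_2_s.snd h1))) (pr_mul (pr_norm (pr_mul (pr_nd (pr_scale 3 4 (kug_2_s.snd h1))) (pr_nd (pr_inv (gsg_s.snd h1))))) (gug_s.snd h1))))⟩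
noncomputable def kp0q0_8_s : Sl2 kp0q0_8 := ⟨_, fun h1 h2 => (pr_sub (pr_scale 3 4 h1) (pr_half (c1g_s.snd h1)))⟩
noncomputable def kp0q0_s : Sl2 kp0q0 := ⟨_, fun h1 h2 => (pr_norm (pr_case (pr_addc (kp0q0_8_s.snd h1 h2) (enc_rat _ 311 1898)) (pr_mul h1 (pr_norm (pr_add (pr_csub (enc_rat _ 3150895364107 3190000000000) (pr_scale 7704492805893 1595000000000 (kp0q0_8_s.snd h1 h2))) (pr_cmul (enc_norm (enc_subr 15 32 h2)) (pr_norm (pr_subr 3551980628137 1276000000000 (pr_neg (pr_scale 12669562068137 638000000000 (kp0q0_8_s.snd h1 h2))))))))) (pr_sub (kug_s.snd h1) (pr_mul h1 (pr_norm (pr_mul (kcg_s.snd (pr_norm (kp0q0_8_s.snd h1 h2)) h2) (pr_norm (pr_add (gug_s.snd h1) (pr_nat 2 (c1g_s.snd h1))))))))))⟩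
noncomputable def kn0q0_s : Sl2 kn0q0 := ⟨_, fun h1 h2 => (pr_norm (pr_add (pr_cmul (enc_norm (enc_add (enc_pnc _ 1) (enc_mul (mug3.enc h2) (gug.enc h2)))) (kf0q0_s.snd h1 h2)) (pr_cmul (mug3.enc h2) (kp0q0_s.snd h1 h2))))⟩
noncomputable def kp0q1_5_s : Sl2 kp0q1_5 := ⟨_, fun h1 h2 => (pr_subn 1 h1)⟩
noncomputable def kp0q1_9_s : Sl2 kp0q1_9 := ⟨_, fun h1 h2 => (pr_sub (pr_scale 3 4 h1) (pr_half (c1g_s.snd h1)))⟩
noncomputable def kp0q1_s : Sl2 kp0q1 := ⟨_, fun h1 h2 => (pr_norm (pr_case (pr_addc (kp0q1_9_s.snd h1 h2) (enc_rat _ 73 1609)) (pr_mul (pr_norm (kp0q1_5_s.snd h1 h2)) (pr_norm (pr_sub (pr_add (pr_cadd (enc_rat _ 3 4) (pr_scale 3 2 h1)) (pr_scale 3 4 (pr_mul (pr_norm (pr_mul h1 (pr_nd (pr_inv (c1g_s.snd h1))))) (gug_s.snd h1)))) (pr_mul (kcg_s.snd (pr_norm (kp0q1_9_s.snd h1 h2)) h2) (pr_norm (pr_add (gug_s.snd h1) (pr_nat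 2 (c1g_s.snd h1)))))))) (pr_mul (pr_norm (kp0q1_5_s.snd h1 h2)) (pr_norm (pr_case (pr_subr 1 20 (kp0q1_9_s.snd h1 h2)) (pr_add (pr_csub (enc_rat _ 19904464955831 30690000000000) (pr_scale 43517657855831 1534500000000 (kp0q1_9_s.snd h1 h2))) (pr_cmul (enc_norm (kp0q1_3.enc h1.l h2)) (pr_norm (pr_subr 2044 3875 (pr_neg (pr_scale 45052 3875 (kp0q1_9_s.snd h1 h2))))))) (pr_add (pr_subr 4291157 9000000 (pr_neg (pr_scale 2633533 450000 (kp0q1_9_s.snd h1 h2)))) (pr_cmul (enc_norm (kp0q1_3.enc h1.l h2)) (pr_norm (pr_subr 24641 56250 (pr_neg (pr_scale 75458 5625 (kp0q1_9_s.snd h1 h2))))))))))))⟩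
noncomputable def kn0q1_s : Sl2 kn0q1 := ⟨_, fun h1 h2 => (pr_norm (pr_add (pr_cmul (enc_norm (enc_add (enc_pnc _ 1) (enc_mul (mug3.enc h2) (gug.enc h2)))) (kf0q1_s.snd h1 h2)) (pr_cmul (mug3.enc h2) (kp0q1_s.snd h1 h2))))⟩
noncomputable def kpc02_s : Sl2 kpc02 := ⟨_, fun h1 h2 => (pr_norm (pr_mul (pr_norm (pr_subn 1 (yag_s.snd h1))) (pr_norm (pr_add (pr_scale 3402943 500000 h1) (pr_cmul (enc_norm (enc_subr 15 32 h2)) (pr_nd (pr_scale 44659 3125 h1)))))))⟩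
noncomputable def knc02_s : Sl2 knc02 := ⟨_, fun h1 h2 => (pr_norm (pr_add (pr_cmul (enc_norm (enc_add (enc_pnc _ 1) (enc_mul (mug3.enc h2) (gug.enc h2)))) (kfc02_s.snd h1 h2)) (pr_cmul (mug3.enc h2) (kpc02_s.snd h1 h2))))⟩
noncomputable def bd1q0_s : Sl2 bd1q0 := ⟨_, fun h1 h2 => (pr_norm (pr_add (pr_scale 165951 100000 h1) (pr_cmul (enc_norm (enc_subr 15 32 h2)) (pr_nd (pr_scale 791 25000 h1)))))⟩
noncomputable def kp1q0_s : Sl2 kp1q0 := ⟨_, fun h1 h2 => (pr_norm (pr_mul (cv1m_s.snd h1) (bd1q0_s.snd h1 h2)))⟩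
noncomputable def kn1q0_s : Sl2 kn1q0 := ⟨_, fun h1 h2 => (pr_norm (pr_add (pr_cmul (enc_norm (enc_add (enc_pnc _ 1) (enc_mul (mug3.enc h2) (gug.enc h2)))) (kf1q0_s.snd h1 h2)) (pr_cmul (mug3.enc h2) (kp1q0_s.snd h1 h2))))⟩
noncomputable def bd1q1_s : Sl2 bd1q1 := ⟨_, fun h1 h2 => (pr_norm (pr_add (pr_subr 382569 125000 (pr_scale 53044 15625 h1)) (pr_cmul (enc_norm (enc_subr 15 32 h2)) (pr_norm (pr_csub (enc_rat _ 1681 50000) (pr_scale 889 25000 h1))))))⟩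
noncomputable def kp1q1_s : Sl2 kp1q1 := ⟨_, fun h1 h2 => (pr_norm (pr_mul (cv1m_s.snd h1) (bd1q1_s.snd h1 h2)))⟩
noncomputable def kn1q1_s : Sl2 kn1q1 := ⟨_, fun h1 h2 => (pr_norm (pr_add (pr_cmul (enc_norm (enc_add (enc_pnc _ 1) (enc_mul (mug3.enc h2) (gug.enc h2)))) (kf1q1_s.snd h1 h2)) (pr_cmul (mug3.enc h2) (kp1q1_s.snd h1 h2))))⟩
noncomputable def bd1q2_15_s : Sl2 bd1q2_15 := ⟨_, fun h1 h2 => (pr_add (pr_subr 3402943 500000 (pr_scale 3402943 500000 h1)) (pr_cmul (enc_norm (bd1q2_3.enc h1.l h2)) (pr_norm (pr_subr 44659 3125 (pr_scale 44659 3125 h1)))))⟩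
noncomputable def bd1q2_s : Sl2 bd1q2 := ⟨_, fun h1 h2 => (pr_norm (pr_case (pr_subr 577 500 h1) (bd1q2_15_s.snd h1 h2) (pr_case (pr_subr 231 200 h1) (bd1q2_15_s.snd h1 h2) (pr_add (pr_subr 78266303 11500000 (pr_scale 78266489 11500000 h1)) (pr_cmul (enc_norm (bd1q2_3.enc h1.l h2)) (pr_norm (pr_subr 32775777 2300000 (pr_scale 12295609 862500 h1))))))))⟩
noncomputable def kp1q2_s : Sl2 kp1q2 := ⟨_, fun h1 h2 => (pr_norm (pr_mul (cv1p_s.snd h1) (bd1q2_s.snd h1 h2)))⟩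
noncomputable def kn1q2_s : Sl2 kn1q2 := ⟨_, fun h1 h2 => (pr_norm (pr_add (pr_cmul (enc_norm (enc_add (enc_pnc _ 1) (enc_mul (mug3.enc h2) (gug.enc h2)))) (kf1q2_s.snd h1 h2)) (pr_cmul (mug3.enc h2) (kp1q2_s.snd h1 h2))))⟩
noncomputable def bd1q3_s : Sl2 bd1q3 := ⟨_, fun h1 h2 => (pr_norm (pr_add (pr_subr 2749543 62500 (pr_scale 1265529 50000 h1)) (pr_cmul (enc_norm (enc_subr 15 32 h2)) (pr_norm (pr_subr 33 25000 (pr_scale 17 25000 h1))))))⟩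
noncomputable def kp1q3_s : Sl2 kp1q3 := ⟨_, fun h1 h2 => (pr_norm (pr_mul (cv1r_s.snd h1) (bd1q3_s.snd h1 h2)))⟩
noncomputable def kn1q3_s : Sl2 kn1q3 := ⟨_, fun h1 h2 => (pr_norm (pr_add (pr_cmul (enc_norm (enc_add (enc_pnc _ 1) (enc_mul (mug3.enc h2) (gug.enc h2)))) (kf1q3_s.snd h1 h2)) (pr_cmul (mug3.enc h2) (kp1q3_s.snd h1 h2))))⟩
noncomputable def bd2q0_s : Sl2 bd2q0 := ⟨_, fun h1 h2 => (pr_norm (pr_add (pr_csub (enc_rat _ 20563 15625) (pr_scale 8550727479 1562500000 h1)) (pr_cmul (enc_norm (enc_subr 15 32 h2)) (pr_norm (pr_csub (enc_rat _ 1441 100000) (pr_scale 8678077 234375000 h1))))))⟩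
noncomputable def kp2q0_9_s : Sl2 kp2q0_9 := ⟨_, fun h1 h2 => (pr_csub (enc_pnc _ 1) h1)⟩
noncomputable def kp2q0_10_s : Sl2 kp2q0_10 := ⟨_, fun h1 h2 => (gsg_s.snd (pr_norm (kp2q0_9_s.snd h1 h2)))⟩
noncomputable def kp2q0_14_s : Sl2 kp2q0_14 := ⟨_, fun h1 h2 => (esg_s.snd (pr_norm (kp2q0_9_s.snd h1 h2)))⟩
noncomputable def kp2q0_18_s : Sl2 kp2q0_18 := ⟨_, fun h1 h2 => (gug_s.snd (pr_norm (kp2q0_9_s.snd h1 h2)))⟩
noncomputable def kp2q0_20_s : Sl2 kp2q0_20 := ⟨_, fun h1 h2 => (pr_mul (pr_norm (kp2q0_9_s.snd h1 h2)) (pr_nd (pr_inv (kp2q0_10_s.snd h1 h2))))⟩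
noncomputable def kp2q0_21_s : Sl2 kp2q0_21 := ⟨_, fun h1 h2 => (pr_scale 3 4 (kp2q0_20_s.snd h1 h2))⟩
noncomputable def kp2q0_51_s : Sl2 kp2q0_51 := ⟨_, fun h1 h2 => (pr_mul (cv1m_s.snd h1) (bd1q0_s.snd h1 h2))⟩
noncomputable def kp2q0_s : Sl2 kp2q0 := ⟨_, fun h1 h2 => (pr_norm (pr_case (pr_subr 15 32 h1) (pr_mul (cv2m_s.snd h1) (bd2q0_s.snd h1 h2)) (pr_add (kp2q0_51_s.snd h1 h2) (pr_mul (pr_norm (pr_mul (pr_norm (pr_sub (pr_mul h1 (pr_norm (pr_add (pr_sub (pr_neg (pr_add (pr_cadd (enc_rat _ 3 4) (pr_scale 3 2 (kp2q0_9_s.snd h1 h2))) (pr_scale 3 4 (pr_mul (pr_norm (kp2q0_20_s.snd h1 h2)) (kp2q0_18_s.snd h1 h2))))) (pr_mul (pr_norm (pr_sub (pr_mul (pr_norm (pr_mul (pr_norm (kp2q0_21_s.snd h1 h2)) (pr_norm (pr_subn 3 (pr_nat 4 (kp2q0_10_s.snd h1 h2)))))) (kp2q0_14_s.snd h1 h2)) (pr_mul (qsg_s.snd (pr_norm (kp2q0_9_s.snd h1 h2))) (pr_norm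 (pr_csub (enc_rat _ 1 2) (kp2q0_21_s.snd h1 h2)))))) (pr_nd (pr_inv (pr_mul (pr_nd (pr_nat 2 (kp2q0_14_s.snd h1 h2))) (kp2q0_14_s.snd h1 h2)))))) (pr_mul (kcg_s.snd (pr_norm (pr_sub (pr_scale 3 4 (kp2q0_9_s.snd h1 h2)) (pr_half (kp2q0_10_s.snd h1 h2)))) h2) (pr_norm (pr_cadd (enc_pnc _ 1) (pr_add (kp2q0_18_s.snd h1 h2) (pr_nat 2 (kp2q0_10_s.snd h1 h2))))))))) (kp2q0_51_s.snd h1 h2))) (pr_norm (pr_sub (cv2m_s.snd h1) (cv1m_s.snd h1))))) (pr_nd (pr_inv (pr_sub (pr_addc (swg_s.snd h1) (enc_rat _ 1 2)) (cv1m_s.snd h1))))))))⟩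
noncomputable def kn2q0_s : Sl2 kn2q0 := ⟨_, fun h1 h2 => (pr_norm (pr_add (pr_cmul (enc_norm (enc_add (enc_pnc _ 1) (enc_mul (mug3.enc h2) (gug.enc h2)))) (kf2q0_s.snd h1 h2)) (pr_cmul (mug3.enc h2) (kp2q0_s.snd h1 h2))))⟩
noncomputable def bd2q1_s : Sl2 bd2q1 := ⟨_, fun h1 h2 => (pr_norm (pr_add (pr_csub (enc_rat _ 9206274653 4062500000) (pr_scale 9206274653 4062500000 h1)) (pr_cmul (enc_norm (enc_subr 15 32 h2)) (pr_norm (pr_csub (enc_rat _ 2633171 5078125) (pr_scale 2633171 5078125 h1))))))⟩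
noncomputable def kp2q1_9_s : Sl2 kp2q1_9 := ⟨_, fun h1 h2 => (pr_csub (enc_pnc _ 1) h1)⟩
noncomputable def kp2q1_10_s : Sl2 kp2q1_10 := ⟨_, fun h1 h2 => (gsg_s.snd (pr_norm (kp2q1_9_s.snd h1 h2)))⟩
noncomputable def kp2q1_14_s : Sl2 kp2q1_14 := ⟨_, fun h1 h2 => (esg_s.snd (pr_norm (kp2q1_9_s.snd h1 h2)))⟩
noncomputable def kp2q1_22_s : Sl2 kp2q1_22 := ⟨_, fun h1 h2 => (pr_mul (pr_nd (pr_scale 3 4 (pr_sq (pr_norm (kp2q1_9_s.snd h1 h2))))) (pr_nd (pr_inv (kp2q1_10_s.snd h1 h2))))⟩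
noncomputable def kp2q1_47_s : Sl2 kp2q1_47 := ⟨_, fun h1 h2 => (pr_mul (cv1m_s.snd h1) (bd1q1_s.snd h1 h2))⟩
noncomputable def kp2q1_s : Sl2 kp2q1 := ⟨_, fun h1 h2 => (pr_norm (pr_case (pr_subr 19 32 h1) (pr_add (kp2q1_47_s.snd h1 h2) (pr_mul (pr_norm (pr_mul (pr_norm (pr_sub (pr_sub (pr_add (kug_s.snd (pr_norm (kp2q1_9_s.snd h1 h2))) (pr_mul (pr_norm (pr_sub (pr_mul (pr_norm (pr_mul (pr_norm (kp2q1_22_s.snd h1 h2)) (pr_norm (pr_subn 3 (pr_nat 4 (kp2q1_10_s.snd h1 h2)))))) (kp2q1_14_s.snd h1 h2)) (pr_mul (qsg_s.snd (pr_norm (kp2q1_9_s.snd h1 h2))) (pr_norm (pr_sub (pr_half (kp2q1_9_s.snd h1 h2)) (kp2q1_22_s.snd h1 h2)))))) (pr_nd (pr_inv (pr_mul (pr_nd (pr_nat 2 (kp2q1_14_s.snd h1 h2))) (kp2q1_14_s.snd h1 h2)))))) (pr_mul (pr_norm (pr_mul (pr_norm (kp2q1_9_s.snd h1 h2)) (kcg_s.snd (pr_norm (pr_sub (pr_scale 3 4 (kp2q1_9_s.snd h1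 h2)) (pr_half (kp2q1_10_s.snd h1 h2)))) h2))) (pr_norm (pr_add (pr_cadd (enc_pnc _ 1) (gug_s.snd (pr_norm (kp2q1_9_s.snd h1 h2)))) (pr_nat 2 (kp2q1_10_s.snd h1 h2)))))) (kp2q1_47_s.snd h1 h2))) (pr_norm (pr_sub (cv2m_s.snd h1) (cv1m_s.snd h1))))) (pr_nd (pr_inv (pr_sub (pr_addc (swg_s.snd h1) (enc_rat _ 1 2)) (cv1m_s.snd h1)))))) (pr_mul (cv2m_s.snd h1) (bd2q1_s.snd h1 h2))))⟩
noncomputable def kn2q1_s : Sl2 kn2q1 := ⟨_, fun h1 h2 => (pr_norm (pr_add (pr_cmul (enc_norm (enc_add (enc_pnc _ 1) (enc_mul (mug3.enc h2) (gug.enc h2)))) (kf2q1_s.snd h1 h2)) (pr_cmul (mug3.enc h2) (kp2q1_s.snd h1 h2))))⟩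
noncomputable def bd2q2_s : Sl2 bd2q2 := ⟨_, fun h1 h2 => (pr_norm (pr_add (pr_subr 15617758881 8125000000 (pr_scale 3471440189 2031250000 h1)) (pr_cmul (enc_norm (enc_subr 15 32 h2)) (pr_norm (pr_csub (enc_rat _ 1259284673 406250000) (pr_scale 1254117173 406250000 h1))))))⟩
noncomputable def kp2q2_8_s : Sl2 kp2q2_8 := ⟨_, fun h1 h2 => (pr_subn 1 h1)⟩
noncomputable def kp2q2_9_s : Sl2 kp2q2_9 := ⟨_, fun h1 h2 => (gsg_s.snd (pr_norm (kp2q2_8_s.snd h1 h2)))⟩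
noncomputable def kp2q2_13_s : Sl2 kp2q2_13 := ⟨_, fun h1 h2 => (esg_s.snd (pr_norm (kp2q2_8_s.snd h1 h2)))⟩
noncomputable def kp2q2_21_s : Sl2 kp2q2_21 := ⟨_, fun h1 h2 => (pr_mul (pr_nd (pr_scale 3 4 (pr_sq (pr_norm (kp2q2_8_s.snd h1 h2))))) (pr_nd (pr_inv (kp2q2_9_s.snd h1 h2))))⟩
noncomputable def kp2q2_44_s : Sl2 kp2q2_44 := ⟨_, fun h1 h2 => (pr_mul (cv1p_s.snd h1) (bd1q2_s.snd h1 h2))⟩
noncomputable def kp2q2_s : Sl2 kp2q2 := ⟨_, fun h1 h2 => (pr_norm (pr_case (pr_subr 45 32 h1) (pr_mul (cv2p_s.snd h1) (bd2q2_s.snd h1 h2)) (pr_add (kp2q2_44_s.snd h1 h2) (pr_mul (pr_norm (pr_mul (pr_norm (pr_sub (pr_add (pr_sub (kug_s.snd (pr_norm (kp2q2_8_s.snd h1 h2))) (pr_mul (pr_norm (pr_sub (pr_mul (pr_norm (pr_mul (pr_norm (kp2q2_21_s.snd h1 h2)) (pr_norm (pr_subn 3 (pr_nat 4 (kp2q2_9_s.snd h1 h2)))))) (kp2q2_13_s.snd h1 h2)) (pr_mul (qsg_s.snd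 (pr_norm (kp2q2_8_s.snd h1 h2))) (pr_norm (pr_sub (pr_half (kp2q2_8_s.snd h1 h2)) (kp2q2_21_s.snd h1 h2)))))) (pr_nd (pr_inv (pr_mul (pr_nd (pr_nat 2 (kp2q2_13_s.snd h1 h2))) (kp2q2_13_s.snd h1 h2)))))) (pr_mul (pr_norm (pr_mul (pr_norm (kp2q2_8_s.snd h1 h2)) (kcg_s.snd (pr_norm (pr_sub (pr_scale 3 4 (kp2q2_8_s.snd h1 h2)) (pr_half (kp2q2_9_s.snd h1 h2)))) h2))) (pr_norm (pr_sub (pr_csub (enc_pnc _ 1) (gug_s.snd (pr_norm (kp2q2_8_s.snd h1 h2)))) (pr_nat 2 (kp2q2_9_s.snd h1 h2)))))) (kp2q2_44_s.snd h1 h2))) (pr_norm (pr_sub (cv2p_s.snd h1) (cv1p_s.snd h1))))) (pr_nd (pr_inv (pr_sub (pr_subr 1 2 (swg_s.snd h1)) (cv1p_s.snd h1))))))))⟩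
noncomputable def kn2q2_s : Sl2 kn2q2 := ⟨_, fun h1 h2 => (pr_norm (pr_add (pr_cmul (enc_norm (enc_add (enc_pnc _ 1) (enc_mul (mug3.enc h2) (gug.enc h2)))) (kf2q2_s.snd h1 h2)) (pr_cmul (mug3.enc h2) (kp2q2_s.snd h1 h2))))⟩
noncomputable def bd2q3_s : Sl2 bd2q3 := ⟨_, fun h1 h2 => (pr_norm (pr_add (pr_subr 1835470259 1171875000 (pr_scale 1835470259 2343750000 h1)) (pr_cmul (enc_norm (enc_subr 15 32 h2)) (pr_norm (pr_csub (enc_rat _ 25139 78125000) (pr_scale 25139 156250000 h1))))))⟩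
noncomputable def kpc23_6_s : Sl2 kpc23_6 := ⟨_, fun h1 h2 => (pr_subr 1 2 (swg_s.snd (pr_nd (ycg_s.snd h1))))⟩
noncomputable def kpc23_9_s : Sl2 kpc23_9 := ⟨_, fun h1 h2 => (pr_add (pr_scale 4 5 (kpc23_6_s.snd h1 h2)) (pr_scale 1 5 h1))⟩
noncomputable def kpc23_15_s : Sl2 kpc23_15 := ⟨_, fun h1 h2 => (pr_subn 1 (ycg_s.snd h1))⟩
noncomputable def kpc23_16_s : Sl2 kpc23_16 := ⟨_, fun h1 h2 => (gsg_s.snd (pr_norm (kpc23_15_s.snd h1 h2)))⟩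
noncomputable def kpc23_20_s : Sl2 kpc23_20 := ⟨_, fun h1 h2 => (esg_s.snd (pr_norm (kpc23_15_s.snd h1 h2)))⟩
noncomputable def kpc23_25_s : Sl2 kpc23_25 := ⟨_, fun h1 h2 => (gug_s.snd (pr_norm (kpc23_15_s.snd h1 h2)))⟩
noncomputable def kpc23_27_s : Sl2 kpc23_27 := ⟨_, fun h1 h2 => (pr_mul (pr_norm (kpc23_15_s.snd h1 h2)) (pr_nd (pr_inv (kpc23_16_s.snd h1 h2))))⟩
noncomputable def kpc23_28_s : Sl2 kpc23_28 := ⟨_, fun h1 h2 => (pr_scale 3 4 (kpc23_27_s.snd h1 h2))⟩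
noncomputable def kpc23_54_s : Sl2 kpc23_54 := ⟨_, fun h1 h2 => (cv1r_s.snd (pr_nd (ycg_s.snd h1)))⟩
noncomputable def kpc23_56_s : Sl2 kpc23_56 := ⟨_, fun h1 h2 => (pr_mul (kpc23_54_s.snd h1 h2) (bd1q3_s.snd (pr_nd (ycg_s.snd h1)) h2))⟩
noncomputable def kpc23_s : Sl2 kpc23 := ⟨_, fun h1 h2 => (pr_norm (pr_case (pr_subr 49 32 (ycg_s.snd h1)) (pr_add (kpc23_56_s.snd h1 h2) (pr_mul (pr_norm (pr_mul (pr_norm (pr_sub (pr_mul (pr_norm (pr_subn 2 (ycg_s.snd h1))) (pr_norm (pr_add (pr_sub (pr_add (pr_cadd (enc_rat _ 3 4) (pr_scale 3 2 (kpc23_15_s.snd h1 h2))) (pr_scale 3 4 (pr_mul (pr_norm (kpc23_27_s.snd h1 h2)) (kpc23_25_s.snd h1 h2)))) (pr_mul (pr_norm (pr_sub (pr_mul (pr_norm (pr_mul (pr_norm (kpc23_28_s.snd h1 h2)) (pr_norm (pr_subn 3 (pr_nat 4 (kpc23_16_s.snd h1 h2)))))) (kpc23_20_s.snd h1 h2)) (pr_mul (qsg_s.snd (pr_norm (kpc23_15_s.snd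 h1 h2))) (pr_norm (pr_csub (enc_rat _ 1 2) (kpc23_28_s.snd h1 h2)))))) (pr_nd (pr_inv (pr_mul (pr_nd (pr_nat 2 (kpc23_20_s.snd h1 h2))) (kpc23_20_s.snd h1 h2)))))) (pr_mul (kcg_s.snd (pr_norm (pr_sub (pr_scale 3 4 (kpc23_15_s.snd h1 h2)) (pr_half (kpc23_16_s.snd h1 h2)))) h2) (pr_norm (pr_csub (enc_pnc _ 1) (pr_add (kpc23_25_s.snd h1 h2) (pr_nat 2 (kpc23_16_s.snd h1 h2))))))))) (kpc23_56_s.snd h1 h2))) (pr_norm (pr_sub (kpc23_9_s.snd h1 h2) (kpc23_54_s.snd h1 h2))))) (pr_nd (pr_inv (pr_sub (kpc23_6_s.snd h1 h2) (kpc23_54_s.snd h1 h2)))))) (pr_mul (pr_norm (kpc23_9_s.snd h1 h2)) (bd2q3_s.snd (pr_nd (ycg_s.snd h1)) h2))))⟩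
noncomputable def knc23_s : Sl2 knc23 := ⟨_, fun h1 h2 => (pr_norm (pr_add (pr_cmul (enc_norm (enc_add (enc_pnc _ 1) (enc_mul (mug3.enc h2) (gug.enc h2)))) (kfc23_s.snd h1 h2)) (pr_cmul (mug3.enc h2) (kpc23_s.snd h1 h2))))⟩
noncomputable def bd3q0_s : Sl2 bd3q0 := ⟨_, fun h1 h2 => (pr_norm (pr_add (pr_csub (enc_rat _ 37017 250000) (pr_scale 207033 125000 h1)) (pr_cmul (enc_norm (enc_subr 15 32 h2)) (pr_norm (pr_csub (enc_rat _ 751 100000) (pr_scale 501 50000 h1))))))⟩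
noncomputable def kp3q0_s : Sl2 kp3q0 := ⟨_, fun h1 h2 => (pr_norm (pr_mul (cv3m_s.snd h1) (bd3q0_s.snd h1 h2)))⟩
noncomputable def kn3q0_s : Sl2 kn3q0 := ⟨_, fun h1 h2 => (pr_norm (pr_add (pr_cmul (enc_norm (enc_add (enc_pnc _ 1) (enc_mul (mug3.enc h2) (gug.enc h2)))) (kf3q0_s.snd h1 h2)) (pr_cmul (mug3.enc h2) (kp3q0_s.snd h1 h2))))⟩
noncomputable def bd3q1_s : Sl2 bd3q1 := ⟨_, fun h1 h2 => (pr_norm (pr_add (pr_csub (enc_rat _ 239799 125000) (pr_scale 239799 125000 h1)) (pr_cmul (enc_norm (enc_subr 15 32 h2)) (pr_norm (pr_csub (enc_rat _ 3727 50000) (pr_scale 3727 50000 h1))))))⟩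
noncomputable def kp3q1_s : Sl2 kp3q1 := ⟨_, fun h1 h2 => (pr_norm (pr_mul (cv3m_s.snd h1) (bd3q1_s.snd h1 h2)))⟩
noncomputable def kn3q1_s : Sl2 kn3q1 := ⟨_, fun h1 h2 => (pr_norm (pr_add (pr_cmul (enc_norm (enc_add (enc_pnc _ 1) (enc_mul (mug3.enc h2) (gug.enc h2)))) (kf3q1_s.snd h1 h2)) (pr_cmul (mug3.enc h2) (kp3q1_s.snd h1 h2))))⟩
noncomputable def bd3q2_s : Sl2 bd3q2 := ⟨_, fun h1 h2 => (pr_norm (pr_add (pr_csub (enc_rat _ 133613 25000) (pr_scale 145211 31250 h1)) (pr_cmul (enc_norm (enc_subr 15 32 h2)) (pr_norm (pr_subr 799 50000 (pr_scale 261 25000 h1))))))⟩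
noncomputable def kp3q2_s : Sl2 kp3q2 := ⟨_, fun h1 h2 => (pr_norm (pr_mul (cv3p_s.snd h1) (bd3q2_s.snd h1 h2)))⟩
noncomputable def kn3q2_s : Sl2 kn3q2 := ⟨_, fun h1 h2 => (pr_norm (pr_add (pr_cmul (enc_norm (enc_add (enc_pnc _ 1) (enc_mul (mug3.enc h2) (gug.enc h2)))) (kf3q2_s.snd h1 h2)) (pr_cmul (mug3.enc h2) (kp3q2_s.snd h1 h2))))⟩
noncomputable def bd3q3_s : Sl2 bd3q3 := ⟨_, fun h1 h2 => (pr_norm (pr_add (pr_csub (enc_rat _ 2438691 250000) (pr_scale 2438691 500000 h1)) (pr_cmul (enc_norm (enc_subr 15 32 h2)) (pr_norm (pr_csub (enc_rat _ 9 25000) (pr_scale 9 50000 h1))))))⟩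
noncomputable def kpc33_s : Sl2 kpc33 := ⟨_, fun h1 h2 => (pr_norm (pr_mul (pr_norm (pr_add (pr_scale 11 25 (pr_subr 1 2 (swg_s.snd (pr_nd (ycg_s.snd h1))))) (pr_scale 14 25 h1))) (bd3q3_s.snd (pr_nd (ycg_s.snd h1)) h2)))⟩
noncomputable def knc33_s : Sl2 knc33 := ⟨_, fun h1 h2 => (pr_norm (pr_add (pr_cmul (enc_norm (enc_add (enc_pnc _ 1) (enc_mul (mug3.enc h2) (gug.enc h2)))) (kfc33_s.snd h1 h2)) (pr_cmul (mug3.enc h2) (kpc33_s.snd h1 h2))))⟩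
noncomputable def kp4q0_s : Sl2 kp4q0 := ⟨_, fun h1 h2 => (pr_norm (pr_mul h1 (pr_norm (pr_add (pr_subr 61539 125000 (pr_neg (pr_scale 2910631 1000000 h1))) (pr_cmul (enc_norm (enc_subr 15 32 h2)) (pr_norm (pr_subr 43 20000 (pr_neg (pr_scale 714329 100000 h1)))))))))⟩
noncomputable def kn4q0_s : Sl2 kn4q0 := ⟨_, fun h1 h2 => (pr_norm (pr_add (pr_cmul (enc_norm (enc_add (enc_pnc _ 1) (enc_mul (mug3.enc h2) (gug.enc h2)))) (kf4q0_s.snd h1 h2)) (pr_cmul (mug3.enc h2) (kp4q0_s.snd h1 h2))))⟩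
noncomputable def kp4q1_s : Sl2 kp4q1 := ⟨_, fun h1 h2 => (pr_norm (pr_mul (pr_norm (pr_subn 1 h1)) (pr_norm (pr_add (pr_subr 61539 125000 (pr_neg (pr_scale 2910631 1000000 h1))) (pr_cmul (enc_norm (enc_subr 15 32 h2)) (pr_norm (pr_subr 43 20000 (pr_neg (pr_scale 714329 100000 h1)))))))))⟩
noncomputable def kn4q1_s : Sl2 kn4q1 := ⟨_, fun h1 h2 => (pr_norm (pr_add (pr_cmul (enc_norm (enc_add (enc_pnc _ 1) (enc_mul (mug3.enc h2) (gug.enc h2)))) (kf4q1_s.snd h1 h2)) (pr_cmul (mug3.enc h2) (kp4q1_s.snd h1 h2))))⟩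
noncomputable def kp4q2_9_s : Sl2 kp4q2_9 := ⟨_, fun h1 h2 => (pr_sub (pr_half (c3g_s.snd h1)) (pr_scale 1 4 h1))⟩
noncomputable def kp4q2_s : Sl2 kp4q2 := ⟨_, fun h1 h2 => (pr_norm (pr_mul (pr_norm (pr_subn 1 h1)) (pr_norm (pr_add (pr_addc (pr_scale 5779673 1000000 (kp4q2_9_s.snd h1 h2)) (enc_rat _ 1026213 2000000)) (pr_cmul (enc_norm (enc_subr 15 32 h2)) (pr_norm (pr_addc (pr_scale 720243 100000 (kp4q2_9_s.snd h1 h2)) (enc_rat _ 141769 40000))))))))⟩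
noncomputable def kn4q2_s : Sl2 kn4q2 := ⟨_, fun h1 h2 => (pr_norm (pr_add (pr_cmul (enc_norm (enc_add (enc_pnc _ 1) (enc_mul (mug3.enc h2) (gug.enc h2)))) (kf4q2_s.snd h1 h2)) (pr_cmul (mug3.enc h2) (kp4q2_s.snd h1 h2))))⟩
noncomputable def kpc43_9_s : Sl2 kpc43_9 := ⟨_, fun h1 h2 => (pr_sub (pr_half h1) (pr_scale 1 4 (ycg_s.snd h1)))⟩
noncomputable def kpc43_s : Sl2 kpc43 := ⟨_, fun h1 h2 => (pr_norm (pr_mul (pr_norm (pr_subn 2 (ycg_s.snd h1))) (pr_norm (pr_add (pr_addc (pr_scale 5779673 1000000 (kpc43_9_s.snd h1 h2)) (enc_rat _ 1026213 2000000)) (pr_cmul (enc_norm (enc_subr 15 32 h2)) (pr_norm (pr_addc (pr_scale 720243 100000 (kpc43_9_s.snd h1 h2)) (enc_rat _ 141769 40000))))))))⟩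
noncomputable def knc43_s : Sl2 knc43 := ⟨_, fun h1 h2 => (pr_norm (pr_add (pr_cmul (enc_norm (enc_add (enc_pnc _ 1) (enc_mul (mug3.enc h2) (gug.enc h2)))) (kfc43_s.snd h1 h2)) (pr_cmul (mug3.enc h2) (kpc43_s.snd h1 h2))))⟩
noncomputable def gN0q0 : Gn := ⟨ndN0q0, c1g_s, kn0q0_s, l0q0_s, false⟩
noncomputable def gN0q1 : Gn := ⟨ndN0q1, c1g_s, kn0q1_s, l0q1_s, false⟩
noncomputable def gN0q2 : Gn := ⟨ndN0q2, idf_s, knc02_s, lc02_s, true⟩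
noncomputable def gN1q0 : Gn := ⟨ndN1q0, cv1m_s, kn1q0_s, l1q0_s, false⟩
noncomputable def gN1q1 : Gn := ⟨ndN1q1, cv1m_s, kn1q1_s, l1q1_s, false⟩
noncomputable def gN1q2 : Gn := ⟨ndN1q2, cv1p_s, kn1q2_s, l1q2_s, false⟩
noncomputable def gN1q3 : Gn := ⟨ndN1q3, cv1r_s, kn1q3_s, l1q3_s, false⟩
noncomputable def gN2q0 : Gn := ⟨ndN2q0, cv2m_s, kn2q0_s, l2q0_s, false⟩
noncomputable def gN2q1 : Gn := ⟨ndN2q1, cv2m_s, kn2q1_s, l2q1_s, false⟩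
noncomputable def gN2q2 : Gn := ⟨ndN2q2, cv2p_s, kn2q2_s, l2q2_s, false⟩
noncomputable def gN2q3 : Gn := ⟨ndN2q3, xc23_s, knc23_s, lc23_s, false⟩
noncomputable def gN3q0 : Gn := ⟨ndN3q0, cv3m_s, kn3q0_s, l3q0_s, false⟩
noncomputable def gN3q1 : Gn := ⟨ndN3q1, cv3m_s, kn3q1_s, l3q1_s, false⟩
noncomputable def gN3q2 : Gn := ⟨ndN3q2, cv3p_s, kn3q2_s, l3q2_s, false⟩
noncomputable def gN3q3 : Gn := ⟨ndN3q3, xc33_s, knc33_s, lc33_s, false⟩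
noncomputable def gN4q0 : Gn := ⟨ndN4q0, c3g_s, kn4q0_s, l4q0_s, false⟩
noncomputable def gN4q1 : Gn := ⟨ndN4q1, c3g_s, kn4q1_s, l4q1_s, false⟩
noncomputable def gN4q2 : Gn := ⟨ndN4q2, c3g_s, kn4q2_s, l4q2_s, false⟩
noncomputable def gN4q3 : Gn := ⟨ndN4q3, idf_s, knc43_s, lc43_s, false⟩
noncomputable def gN0q3 : Gn := gz
noncomputable def gN (j : Fin 5) (q : ℕ) : Gn :=
  match j, q with
  | 0, 0 => gN0q0
  | 0, 1 => gN0q1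
  | 0, 2 => gN0q2
  | 0, 3 => gN0q3
  | 1, 0 => gN1q0
  | 1, 1 => gN1q1
  | 1, 2 => gN1q2
  | 1, 3 => gN1q3
  | 2, 0 => gN2q0
  | 2, 1 => gN2q1
  | 2, 2 => gN2q2
  | 2, 3 => gN2q3
  | 3, 0 => gN3q0
  | 3, 1 => gN3q1
  | 3, 2 => gN3q2
  | 3, 3 => gN3q3
  | 4, 0 => gN4q0
  | 4, 1 => gN4q1
  | 4, 2 => gN4q2
  | 4, 3 => gN4q3
  | _, _ => gN0q0

noncomputable def c0F : Fn1 := ⟨fun _ => pone, fun _ => 1, fun _ => enc_one _⟩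
noncomputable def c0N : Fn1 := c0n

end Pool.Agent.Strip051.G.I7_16_1_2.Tab
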