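import Pool.Agent.Strip051.PB.MolN
import Pool.Agent.Strip051.G.I7_16_1_2.Tab

/-! # The tight charts of a table: data (generated) -/

set_option linter.all false

namespace Pool.Agent.Strip051.G.I7_16_1_2.Tab.Mo

open Pool.Agent.Strip051.PB Pool.Agent.Strip051.PB.Mol
open Pool.Agent.Strip051.G.I7_16_1_2.Tab

noncomputable def dq : Fn3 :=
  dqQ (lnF false 16240666353076317089 9208599435750000000 true 47369277757049153 35417690137500000 15 32) (lnF false 1114177 200000 true 73697 5000 15 32)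

noncomputable def mL : Fn2 :=
  exQ (exC (lnF false 712357 20000000 false 666797 2000000 15 32)) (lnF false 47409 200000 true 78311 20000 15 32) false

noncomputable def mR : Fn2 :=
  exQ (exC (lnF true 843107 10000000 true 203901 125000 15 32)) (lnF true 37341 100000 false 64137 20000 15 32) true

noncomputable def kp : Fn2 :=
  plA (lnF false 3402943 1000000 false 44659 6250 15 32) (lnF false 3402943 500000 false 44659 3125 15 32) false 1 2

noncomputable def kb : Fn2 :=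
  plA (lnF true 3402943 1000000 true 44659 6250 15 32) (lnF true 2633533 450000 true 75458 5625 15 32) false 1 2

noncomputable def rK1 : Fn2 :=
  scH (exC (lnF true 1688 1875 true 1217 750 15 32)) (lnF true 66611 150000 false 109 15000 15 32) 3 100

noncomputable def rX1 : Fn2 :=
  scH (exC (lnF true 1141 15000 true 5609 3000 15 32)) (lnF true 2623 75000 true 12199 7500 15 32) 3 100

noncomputable def rD1 : Fn2 :=
  exC (lnF false 3402943 500000 false 44659 3125 15 32)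

noncomputable def sk1 : MolS :=
  stK 1 1 2 rK1 rX1 rD1

noncomputable def sp : MolS :=
  stP kcg mL mR kp

noncomputable def sm : MolS :=
  stM kcg mR kb

noncomputable def sK_Apl : Fn3 :=
  sl0 (slF (w3W false) cv1p (w3K false 1 kcg) kf1q2)

noncomputable def sX_Apl : Fn3 :=
  sl0 (slF (w3W false) cv1p (w3Q false kcg) l1q2)

noncomputable def sD_Apl : Fn3 :=
  sl0 (slF (w3W false) cv1p (w3D false 1 kcg) kp1q2)

noncomputable def T_Apl : MolT :=
  ⟨kcg, dq, sp, 2, sK_Apl, sX_Apl, sD_Apl, 0, 1, 0, 1⟩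

noncomputable def sk_Apl : List Fn3 := [skP true 33554432, skM true 33554432, skQA false]

noncomputable def cx_Apl : List Fn3 :=
  [f3A sp.xs (tCC (w3W false) cv1p),
    f3A sp.xs (tCC cv2p (w3W false)),
    f3A sp.xs (tCX cv2p)]

noncomputable def c0_Apl : Cht := k0Ap (T_Apl.a true) sk_Apl cx_Apl

noncomputable def c1_Apl : Cht := k1Ap (T_Apl.a true) sk_Apl cx_Apl

noncomputable def sK_Aph : Fn3 :=
  sl0 (slF (w3W false) cv1r (w3K false 2 kcg) kf1q3)

noncomputable def sX_Aph : Fn3 :=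
  sl0 (slF (w3W false) cv1r (w3Q false kcg) l1q3)

noncomputable def sD_Aph : Fn3 :=
  sl0 (slF (w3W false) cv1r (w3D false 2 kcg) kp1q3)

noncomputable def T_Aph : MolT :=
  ⟨kcg, dq, sp, 3, sK_Aph, sX_Aph, sD_Aph, 0, 1, 0, 1⟩

noncomputable def sk_Aph : List Fn3 := [skP true 33554432, skM true 33554432, skQA true]

noncomputable def cx_Aph : List Fn3 :=
  [f3A sp.xs (tCC (w3W false) cv1r),
    f3A sp.xs (tCC cv2r (w3W false)),
    f3A sp.xs (tCX cv2r)]

noncomputable def c0_Aph : Cht := k0Ap (T_Aph.a true) sk_Aph cx_Aph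

noncomputable def c1_Aph : Cht := k1Ap (T_Aph.a true) sk_Aph cx_Aph

noncomputable def sK_Aplk1 : Fn3 :=
  sl0 (slF (w3W false) cv1p (w3K false 1 kcg) kf1q2)

noncomputable def sX_Aplk1 : Fn3 :=
  sl0 (slF (w3W false) cv1p (w3Q false kcg) l1q2)

noncomputable def sD_Aplk1 : Fn3 :=
  sl0 (slF (w3W false) cv1p (w3D false 1 kcg) kp1q2)

noncomputable def T_Aplk1 : MolT :=
  ⟨kcg, dq, sk1, 2, sK_Aplk1, sX_Aplk1, sD_Aplk1, 0, 1, 0, 1⟩

noncomputable def sk_Aplk1 : List Fn3 := [skP true 33554432, skM true 33554432, skQA false]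

noncomputable def cx_Aplk1 : List Fn3 :=
  [f3A sk1.xs (tCC (w3W false) cv1p),
    f3A sk1.xs (tCC cv2p (w3W false)),
    f3A sk1.xs (tCX cv2p)]

noncomputable def c0_Aplk1 : Cht := k0Ap (T_Aplk1.a true) sk_Aplk1 cx_Aplk1

noncomputable def c1_Aplk1 : Cht := k1Ap (T_Aplk1.a true) sk_Aplk1 cx_Aplk1

noncomputable def sK_Aphk1 : Fn3 :=
  sl0 (slF (w3W false) cv1r (w3K false 2 kcg) kf1q3)

noncomputable def sX_Aphk1 : Fn3 :=
  sl0 (slF (w3W false) cv1r (w3Q false kcg) l1q3)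

noncomputable def sD_Aphk1 : Fn3 :=
  sl0 (slF (w3W false) cv1r (w3D false 2 kcg) kp1q3)

noncomputable def T_Aphk1 : MolT :=
  ⟨kcg, dq, sk1, 3, sK_Aphk1, sX_Aphk1, sD_Aphk1, 0, 1, 0, 1⟩

noncomputable def sk_Aphk1 : List Fn3 := [skP true 33554432, skM true 33554432, skQA true]

noncomputable def cx_Aphk1 : List Fn3 :=
  [f3A sk1.xs (tCC (w3W false) cv1r),
    f3A sk1.xs (tCC cv2r (w3W false)),
    f3A sk1.xs (tCX cv2r)]

noncomputable def c0_Aphk1 : Cht := k0Ap (T_Aphk1.a true) sk_Aphk1 cx_Aphk1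

noncomputable def c1_Aphk1 : Cht := k1Ap (T_Aphk1.a true) sk_Aphk1 cx_Aphk1

noncomputable def sK_Aml : Fn3 :=
  sl0 (slF (w3W false) cv1p (w3K false 1 kcg) kf1q2)

noncomputable def sX_Aml : Fn3 :=
  sl0 (slF (w3W false) cv1p (w3Q false kcg) l1q2)

noncomputable def sD_Aml : Fn3 :=
  sl0 (slF (w3W false) cv1p (w3D false 1 kcg) kp1q2)

noncomputable def T_Aml : MolT :=
  ⟨kcg, dq, sm, 2, sK_Aml, sX_Aml, sD_Aml, 0, 1, 0, 1⟩

noncomputable def sk_Aml : List Fn3 := [skP true 33554432, skM true 33554432, skQA false]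

noncomputable def cx_Aml : List Fn3 :=
  [f3A sm.xs (tCC (w3W false) cv1p),
    f3A sm.xs (tCC cv2p (w3W false)),
    f3A sm.xs (tXC cv1p)]

noncomputable def c0_Aml : Cht := k0Am (T_Aml.a false) sk_Aml cx_Aml

noncomputable def c1_Aml : Cht := k1Am (T_Aml.a false) sk_Aml cx_Aml

noncomputable def sK_Amh : Fn3 :=
  sl0 (slF (w3W false) cv1r (w3K false 2 kcg) kf1q3)

noncomputable def sX_Amh : Fn3 :=
  sl0 (slF (w3W false) cv1r (w3Q false kcg) l1q3)

noncomputable def sD_Amh : Fn3 :=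
  sl0 (slF (w3W false) cv1r (w3D false 2 kcg) kp1q3)

noncomputable def T_Amh : MolT :=
  ⟨kcg, dq, sm, 3, sK_Amh, sX_Amh, sD_Amh, 0, 1, 0, 1⟩

noncomputable def sk_Amh : List Fn3 := [skP true 33554432, skM true 33554432, skQA true]

noncomputable def cx_Amh : List Fn3 :=
  [f3A sm.xs (tCC (w3W false) cv1r),
    f3A sm.xs (tCC cv2r (w3W false)),
    f3A sm.xs (tXC cv1r)]

noncomputable def c0_Amh : Cht := k0Am (T_Amh.a false) sk_Amh cx_Amh

noncomputable def c1_Amh : Cht := k1Am (T_Amh.a false) sk_Amh cx_Amh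

noncomputable def sK_Bpl : Fn3 :=
  sl0 (slF (w3W true) cv1m (w3K true 1 kcg) kf1q1)

noncomputable def sX_Bpl : Fn3 :=
  sl0 (slF (w3W true) cv1m (w3Q true kcg) l1q1)

noncomputable def sD_Bpl : Fn3 :=
  sl0 (slF (w3W true) cv1m (w3D true 1 kcg) kp1q1)

noncomputable def T_Bpl : MolT :=
  ⟨kcg, dq, sp, 1, sK_Bpl, sX_Bpl, sD_Bpl, 0, 1, 0, 1⟩

noncomputable def sk_Bpl : List Fn3 := [skP false 33554432, skM false 33554432, skQB false]

noncomputable def cx_Bpl : List Fn3 :=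
  [f3B sp.xs (tCC (w3W true) cv1m),
    f3B sp.xs (tCC cv2m (w3W true)),
    f3B sp.xs (tXC cv1m)]

noncomputable def c0_Bpl : Cht := k0Bp (T_Bpl.b true) sk_Bpl cx_Bpl

noncomputable def c1_Bpl : Cht := k1Bp (T_Bpl.b true) sk_Bpl cx_Bpl

noncomputable def sK_Bph : Fn3 :=
  sl0 (slF (w3W true) cv1m (w3K true 0 kcg) kf1q0)

noncomputable def sX_Bph : Fn3 :=
  sl0 (slF (w3W true) cv1m (w3Q true kcg) l1q0)

noncomputable def sD_Bph : Fn3 :=
  sl0 (slF (w3W true) cv1m (w3D true 0 kcg) kp1q0)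

noncomputable def T_Bph : MolT :=
  ⟨kcg, dq, sp, 0, sK_Bph, sX_Bph, sD_Bph, 0, 1, 0, 1⟩

noncomputable def sk_Bph : List Fn3 := [skP false 33554432, skM false 33554432, skQB true]

noncomputable def cx_Bph : List Fn3 :=
  [f3B sp.xs (tCC (w3W true) cv1m),
    f3B sp.xs (tCC cv2m (w3W true)),
    f3B sp.xs (tXC cv1m)]

noncomputable def c0_Bph : Cht := k0Bp (T_Bph.b true) sk_Bph cx_Bph

noncomputable def c1_Bph : Cht := k1Bp (T_Bph.b true) sk_Bph cx_Bph

noncomputable def sK_Bplk1 : Fn3 :=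
  sl0 (slF (w3W true) cv1m (w3K true 1 kcg) kf1q1)

noncomputable def sX_Bplk1 : Fn3 :=
  sl0 (slF (w3W true) cv1m (w3Q true kcg) l1q1)

noncomputable def sD_Bplk1 : Fn3 :=
  sl0 (slF (w3W true) cv1m (w3D true 1 kcg) kp1q1)

noncomputable def T_Bplk1 : MolT :=
  ⟨kcg, dq, sk1, 1, sK_Bplk1, sX_Bplk1, sD_Bplk1, 0, 1, 0, 1⟩

noncomputable def sk_Bplk1 : List Fn3 := [skP false 33554432, skM false 33554432, skQB false]

noncomputable def cx_Bplk1 : List Fn3 :=
  [f3B sk1.xs (tCC (w3W true) cv1m),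
    f3B sk1.xs (tCC cv2m (w3W true)),
    f3B sk1.xs (tXC cv1m)]

noncomputable def c0_Bplk1 : Cht := k0Bp (T_Bplk1.b true) sk_Bplk1 cx_Bplk1

noncomputable def c1_Bplk1 : Cht := k1Bp (T_Bplk1.b true) sk_Bplk1 cx_Bplk1

noncomputable def sK_Bphk1 : Fn3 :=
  sl0 (slF (w3W true) cv1m (w3K true 0 kcg) kf1q0)

noncomputable def sX_Bphk1 : Fn3 :=
  sl0 (slF (w3W true) cv1m (w3Q true kcg) l1q0)

noncomputable def sD_Bphk1 : Fn3 :=
  sl0 (slF (w3W true) cv1m (w3D true 0 kcg) kp1q0)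

noncomputable def T_Bphk1 : MolT :=
  ⟨kcg, dq, sk1, 0, sK_Bphk1, sX_Bphk1, sD_Bphk1, 0, 1, 0, 1⟩

noncomputable def sk_Bphk1 : List Fn3 := [skP false 33554432, skM false 33554432, skQB true]

noncomputable def cx_Bphk1 : List Fn3 :=
  [f3B sk1.xs (tCC (w3W true) cv1m),
    f3B sk1.xs (tCC cv2m (w3W true)),
    f3B sk1.xs (tXC cv1m)]

noncomputable def c0_Bphk1 : Cht := k0Bp (T_Bphk1.b true) sk_Bphk1 cx_Bphk1

noncomputable def c1_Bphk1 : Cht := k1Bp (T_Bphk1.b true) sk_Bphk1 cx_Bphk1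

noncomputable def sK_Bml : Fn3 :=
  sl1 (slF (w3W true) cv1m (w3K true 1 kcg) kf1q1) (sgF cv2m cv3m kf2q1 kf3q1) (hgR (w3W true) cv2m)

noncomputable def sX_Bml : Fn3 :=
  sl1 (slF (w3W true) cv1m (w3Q true kcg) l1q1) (sgF cv2m cv3m l2q1 l3q1) (hgR (w3W true) cv2m)

noncomputable def sD_Bml : Fn3 :=
  sl1 (slF (w3W true) cv1m (w3D true 1 kcg) kp1q1) (sgF cv2m cv3m kp2q1 kp3q1) (hgR (w3W true) cv2m)

noncomputable def T_Bml : MolT :=
  ⟨kcg, dq, sm, 1, sK_Bml, sX_Bml, sD_Bml, 0, 1, 0, 1⟩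

noncomputable def sk_Bml : List Fn3 := [skP false 33554432, skM false 33554432, skQB false]

noncomputable def cx_Bml : List Fn3 :=
  [f3B sm.xs (tCC (w3W true) cv1m),
    f3B sm.xs (tCC cv2m (w3W true)),
    f3B sm.xs (tCX cv3m)]

noncomputable def c0_Bml : Cht := k0Bm (T_Bml.b false) sk_Bml cx_Bml

noncomputable def c1_Bml : Cht := k1Bm (T_Bml.b false) sk_Bml cx_Bml

noncomputable def sK_Bmh : Fn3 :=
  sl1 (slF (w3W true) cv1m (w3K true 0 kcg) kf1q0) (sgF cv2m cv3m kf2q0 kf3q0) (hgR (w3W true) cv2m)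

noncomputable def sX_Bmh : Fn3 :=
  sl1 (slF (w3W true) cv1m (w3Q true kcg) l1q0) (sgF cv2m cv3m l2q0 l3q0) (hgR (w3W true) cv2m)

noncomputable def sD_Bmh : Fn3 :=
  sl1 (slF (w3W true) cv1m (w3D true 0 kcg) kp1q0) (sgF cv2m cv3m kp2q0 kp3q0) (hgR (w3W true) cv2m)

noncomputable def T_Bmh : MolT :=
  ⟨kcg, dq, sm, 0, sK_Bmh, sX_Bmh, sD_Bmh, 0, 1, 0, 1⟩

noncomputable def sk_Bmh : List Fn3 := [skP false 33554432, skM false 33554432, skQB true]

noncomputable def cx_Bmh : List Fn3 :=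
  [f3B sm.xs (tCC (w3W true) cv1m),
    f3B sm.xs (tCC cv2m (w3W true)),
    f3B sm.xs (tCX cv3m)]

noncomputable def c0_Bmh : Cht := k0Bm (T_Bmh.b false) sk_Bmh cx_Bmh

noncomputable def c1_Bmh : Cht := k1Bm (T_Bmh.b false) sk_Bmh cx_Bmh

end Pool.Agent.Strip051.G.I7_16_1_2.Tab.Mo
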