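import Pool.Agent.Strip051.PB.StripC
import Pool.Agent.Strip051.G.I7_16_1_2.Fact

/-! # Facts about the strips of a table (generated) -/

set_option linter.all false
set_option maxRecDepth 4000

namespace Pool.Agent.Strip051.G.I7_16_1_2.Tab.St

open Pool.Agent.Strip051.PB Pool.Agent.StripNear Pool.Agent.Strip051.LC
open Pool.Agent.Strip051.G.I7_16_1_2.Tab

noncomputable def sl1 : Fn1 := ⟨_, _, fun h1 => (enc_norm (enc_add (enc_scale 11756729 500000 (enc_subr 15 32 h1)) (enc_rat _ 6542803 15000000)))⟩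
noncomputable def sv1 : Fn1 := ⟨_, _, fun h1 => (enc_norm (enc_subr 1000889 30000000 (enc_scale 39514743 10000000 (enc_subr 15 32 h1))))⟩
noncomputable def sw1 : Fn1 := ⟨_, _, fun h1 => (enc_norm (enc_subr 2507 25000 (enc_scale 125087 5000 (enc_subr 15 32 h1))))⟩
noncomputable def sl2 : Fn1 := ⟨_, _, fun h1 => (enc_norm (enc_add (enc_scale 738973 125000 (enc_subr 15 32 h1)) (enc_rat _ 5285763 10000000)))⟩
noncomputable def sv2 : Fn1 := ⟨_, _, fun h1 => (enc_norm (enc_subr 6877931 400000000 (enc_scale 34847261 40000000 (enc_subr 15 32 h1))))⟩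
noncomputable def sw2 : Fn1 := ⟨_, _, fun h1 => (enc_norm (enc_sub (enc_rat _ 6341 200000) (enc_scale 2557 20000 (enc_subr 15 32 h1))))⟩
noncomputable def sl3 : Fn1 := ⟨_, _, fun h1 => (enc_norm (enc_subr 2529977977 2190000000 (enc_neg (enc_scale 190831896347 155161500000 (enc_subr 15 32 h1)))))⟩
noncomputable def sv3 : Fn1 := ⟨_, _, fun h1 => (enc_norm (enc_subr 4986016501 21900000000 (enc_neg (enc_scale 16701672427 775807500000 (enc_subr 15 32 h1)))))⟩
noncomputable def sw3 : Fn1 := ⟨_, _, fun h1 => (enc_norm (enc_subr 333593 100000 (enc_neg (enc_scale 9007 625 (enc_subr 15 32 h1)))))⟩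
noncomputable def sl4 : Fn1 := ⟨_, _, fun h1 => (enc_norm (enc_sub (enc_rat _ 16240666353076317089 9208599435750000000) (enc_scale 47369277757049153 35417690137500000 (enc_subr 15 32 h1))))⟩
noncomputable def sv4 : Fn1 := ⟨_, _, fun h1 => (enc_norm (enc_sub (enc_rat _ 180816729094327 15768149718750000) (enc_scale 14720095772717 485173837500000 (enc_subr 15 32 h1))))⟩
noncomputable def sw4 : Fn1 := ⟨_, _, fun h1 => (enc_norm (enc_sub (enc_rat _ 1114177 200000) (enc_scale 73697 5000 (enc_subr 15 32 h1))))⟩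
noncomputable def sl5 : Fn1 := ⟨_, _, fun h1 => (enc_rat _ 62907073 50000000)⟩
noncomputable def sv5 : Fn1 := ⟨_, _, fun h1 => (enc_pnc _ 0)⟩
noncomputable def sl6 : Fn1 := ⟨_, _, fun h1 => (enc_norm (enc_sub (enc_rat _ 16240666353076317089 9208599435750000000) (enc_scale 47369277757049153 35417690137500000 (enc_subr 15 32 h1))))⟩
noncomputable def sv6 : Fn1 := ⟨_, _, fun h1 => (enc_norm (enc_subr 180816729094327 15768149718750000 (enc_scale 14720095772717 485173837500000 (enc_subr 15 32 h1))))⟩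
noncomputable def sw6 : Fn1 := ⟨_, _, fun h1 => (enc_norm (enc_subr 1114177 200000 (enc_scale 73697 5000 (enc_subr 15 32 h1))))⟩
noncomputable def sl7 : Fn1 := ⟨_, _, fun h1 => (enc_norm (enc_subr 2529977977 2190000000 (enc_neg (enc_scale 190831896347 155161500000 (enc_subr 15 32 h1)))))⟩
noncomputable def sv7 : Fn1 := ⟨_, _, fun h1 => (enc_norm (enc_add (enc_scale 16701672427 775807500000 (enc_subr 15 32 h1)) (enc_rat _ 4986016501 21900000000)))⟩
noncomputable def sw7 : Fn1 := ⟨_, _, fun h1 => (enc_norm (enc_add (enc_scale 9007 625 (enc_subr 15 32 h1)) (enc_rat _ 333593 100000)))⟩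
noncomputable def sl8 : Fn1 := ⟨_, _, fun h1 => (enc_norm (enc_add (enc_scale 738973 125000 (enc_subr 15 32 h1)) (enc_rat _ 5285763 10000000)))⟩
noncomputable def sv8 : Fn1 := ⟨_, _, fun h1 => (enc_norm (enc_sub (enc_rat _ 6877931 400000000) (enc_scale 34847261 40000000 (enc_subr 15 32 h1))))⟩
noncomputable def sw8 : Fn1 := ⟨_, _, fun h1 => (enc_norm (enc_subr 6341 200000 (enc_scale 2557 20000 (enc_subr 15 32 h1))))⟩
noncomputable def sl9 : Fn1 := ⟨_, _, fun h1 => (enc_norm (enc_add (enc_scale 11756729 500000 (enc_subr 15 32 h1)) (enc_rat _ 6542803 15000000)))⟩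
noncomputable def sv9 : Fn1 := ⟨_, _, fun h1 => (enc_norm (enc_sub (enc_rat _ 1000889 30000000) (enc_scale 39514743 10000000 (enc_subr 15 32 h1))))⟩
noncomputable def sw9 : Fn1 := ⟨_, _, fun h1 => (enc_norm (enc_sub (enc_rat _ 2507 25000) (enc_scale 125087 5000 (enc_subr 15 32 h1))))⟩
noncomputable def sl18 : Fn1 := ⟨_, _, fun h1 => (enc_norm (enc_sub (enc_rat _ 5453257 20000000) (enc_scale 7164303 2000000 (enc_subr 15 32 h1))))⟩
noncomputable def sv18 : Fn1 := ⟨_, _, fun h1 => (enc_norm (enc_sub (enc_rat _ 3082807 40000000) (enc_scale 3248753 4000000 (enc_subr 15 32 h1))))⟩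
noncomputable def sw18 : Fn1 := ⟨_, _, fun h1 => (enc_norm (enc_sub (enc_rat _ 47409 200000) (enc_scale 78311 20000 (enc_subr 15 32 h1))))⟩
noncomputable def sl19 : Fn1 := ⟨_, _, fun h1 => (enc_norm (enc_add (enc_scale 2990303 3500000 (enc_subr 15 32 h1)) (enc_rat _ 17833339 70000000)))⟩
noncomputable def sv19 : Fn1 := ⟨_, _, fun h1 => (enc_norm (enc_add (enc_scale 12395609 87500000 (enc_subr 15 32 h1)) (enc_rat _ 256275239 3500000000)))⟩
noncomputable def sw19 : Fn1 := ⟨_, _, fun h1 => (enc_norm (enc_add (enc_scale 777 625 (enc_subr 15 32 h1)) (enc_rat _ 21623 100000)))⟩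
noncomputable def sl20 : Fn1 := ⟨_, _, fun h1 => (enc_norm (enc_sub (enc_rat _ 9992443 15000000) (enc_scale 70547 100000 (enc_subr 15 32 h1))))⟩
noncomputable def sv20 : Fn1 := ⟨_, _, fun h1 => (enc_norm (enc_sub (enc_rat _ 14727367 100000000) (enc_scale 43471 312500 (enc_subr 15 32 h1))))⟩
noncomputable def sw20 : Fn1 := ⟨_, _, fun h1 => (enc_norm (enc_sub (enc_rat _ 39381 50000) (enc_scale 3693 4000 (enc_subr 15 32 h1))))⟩
noncomputable def sl21 : Fn1 := ⟨_, _, fun h1 => (enc_norm (enc_sub (enc_rat _ 1456525523 2800000000) (enc_scale 541652951 500000000 (enc_subr 15 32 h1))))⟩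
noncomputable def sv21 : Fn1 := ⟨_, _, fun h1 => (enc_norm (enc_sub (enc_rat _ 3510566459 28000000000) (enc_scale 978914323 5000000000 (enc_subr 15 32 h1))))⟩
noncomputable def sw21 : Fn1 := ⟨_, _, fun h1 => (enc_norm (enc_sub (enc_rat _ 2177313 4000000) (enc_scale 7764867 5000000 (enc_subr 15 32 h1))))⟩
noncomputable def sl22_2 : Fn1 := ⟨_, _, fun h1 => (enc_subr 15 32 h1)⟩
noncomputable def sl22 : Fn1 := ⟨_, _, fun h1 => (enc_norm (enc_sub (enc_add (enc_scale 6542702087326473 5956873000000000 (sl22_2.enc h1)) (enc_rat _ 11179824540657199 29784365000000000)) (enc_scale 34143219 39231250 (enc_sq (enc_norm (sl22_2.enc h1))))))⟩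
noncomputable def sv22_2 : Fn1 := ⟨_, _, fun h1 => (enc_subr 15 32 h1)⟩
noncomputable def sv22 : Fn1 := ⟨_, _, fun h1 => (enc_norm (enc_sub (enc_add (enc_scale 656532280308357 11913746000000000 (sv22_2.enc h1)) (enc_rat _ 6476435716164411 59568730000000000)) (enc_scale 785294037 3923125000 (enc_sq (enc_norm (sv22_2.enc h1))))))⟩
noncomputable def sw22 : Fn1 := ⟨_, _, fun h1 => (enc_norm (enc_add (enc_scale 31897437 10000000 (enc_subr 15 32 h1)) (enc_rat _ 11474131 50000000)))⟩
noncomputable def sl24 : Fn1 := ⟨_, _, fun h1 => (enc_norm (enc_sub (enc_rat _ 326152180144433 2812532000000000) (enc_scale 42119168136767 421879800000000 (enc_subr 15 32 h1))))⟩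
noncomputable def sv24 : Fn1 := ⟨_, _, fun h1 => (enc_norm (enc_sub (enc_rat _ 33880120783237 351566500000000) (enc_scale 941911469539 84375960000000 (enc_subr 15 32 h1))))⟩
noncomputable def sw24 : Fn1 := ⟨_, _, fun h1 => (enc_norm (enc_subr 145642779 100000000 (enc_neg (enc_scale 26456433 5000000 (enc_subr 15 32 h1)))))⟩
noncomputable def sl25 : Fn1 := ⟨_, _, fun h1 => (enc_norm (enc_add (enc_scale 114361 250000 (enc_subr 15 32 h1)) (enc_rat _ 2467 312500)))⟩
noncomputable def sv25 : Fn1 := ⟨_, _, fun h1 => (enc_norm (enc_sub (enc_rat _ 15202904461 160000000000) (enc_scale 67156299 16000000000 (enc_subr 15 32 h1))))⟩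
noncomputable def sw25 : Fn1 := ⟨_, _, fun h1 => (enc_norm (enc_subr 361781261 100000000 (enc_scale 58543499 10000000 (enc_subr 15 32 h1))))⟩
noncomputable def sl26 : Fn1 := ⟨_, _, fun h1 => (enc_norm (enc_subr 5014719 40000000 (enc_scale 28768249 28000000 (enc_subr 15 32 h1))))⟩
noncomputable def sv26 : Fn1 := ⟨_, _, fun h1 => (enc_norm (enc_sub (enc_rat _ 38673573 400000000) (enc_scale 3170207 280000000 (enc_subr 15 32 h1))))⟩
noncomputable def sw26 : Fn1 := ⟨_, _, fun h1 => (enc_norm (enc_subr 190513 200000 (enc_neg (enc_scale 110911 20000 (enc_subr 15 32 h1)))))⟩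
noncomputable def sl27 : Fn1 := ⟨_, _, fun h1 => (enc_norm (enc_subr 87553 400000 (enc_neg (enc_scale 114387 500000 (enc_subr 15 32 h1)))))⟩
noncomputable def sv27 : Fn1 := ⟨_, _, fun h1 => (enc_norm (enc_add (enc_scale 263641 10000000 (enc_subr 15 32 h1)) (enc_rat _ 1243617 12500000)))⟩
noncomputable def sw27 : Fn1 := ⟨_, _, fun h1 => (enc_norm (enc_subr 6931 40000 (enc_scale 49229 10000 (enc_subr 15 32 h1))))⟩
noncomputable def sl28 : Fn1 := ⟨_, _, fun h1 => (enc_norm (enc_subr 963091 4000000 (enc_scale 1552429 2000000 (enc_subr 15 32 h1))))⟩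
noncomputable def sv28 : Fn1 := ⟨_, _, fun h1 => (enc_norm (enc_sub (enc_rat _ 20116777 200000000) (enc_scale 95541 4000000 (enc_subr 15 32 h1))))⟩
noncomputable def sw28 : Fn1 := ⟨_, _, fun h1 => (enc_norm (enc_subr 2553 40000 (enc_neg (enc_scale 2041 20000 (enc_subr 15 32 h1)))))⟩
noncomputable def sl29 : Fn1 := ⟨_, _, fun h1 => (enc_norm (enc_subr 1367503 4000000 (enc_scale 28373 50000 (enc_subr 15 32 h1))))⟩
noncomputable def sv29 : Fn1 := ⟨_, _, fun h1 => (enc_norm (enc_sub (enc_rat _ 10816661 100000000) (enc_scale 82287 10000000 (enc_subr 15 32 h1))))⟩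
noncomputable def sw29 : Fn1 := ⟨_, _, fun h1 => (enc_norm (enc_add (enc_scale 2969 5000 (enc_subr 15 32 h1)) (enc_rat _ 54637 200000)))⟩
noncomputable def sl30 : Fn1 := ⟨_, _, fun h1 => (enc_norm (enc_subr 3081397 10000000 (enc_scale 2214899 3000000 (enc_subr 15 32 h1))))⟩
noncomputable def sv30 : Fn1 := ⟨_, _, fun h1 => (enc_norm (enc_sub (enc_rat _ 104793 1000000) (enc_scale 759379 30000000 (enc_subr 15 32 h1))))⟩
noncomputable def sw30 : Fn1 := ⟨_, _, fun h1 => (enc_norm (enc_add (enc_scale 1667 10000 (enc_subr 15 32 h1)) (enc_rat _ 37769 200000)))⟩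
noncomputable def sl31 : Fn1 := ⟨_, _, fun h1 => (enc_norm (enc_subr 634963 2000000 (enc_scale 578997 100000 (enc_subr 15 32 h1))))⟩
noncomputable def sv31 : Fn1 := ⟨_, _, fun h1 => (enc_norm (enc_sub (enc_rat _ 53003717 500000000) (enc_scale 34101491 50000000 (enc_subr 15 32 h1))))⟩
noncomputable def sw31 : Fn1 := ⟨_, _, fun h1 => (enc_norm (enc_sub (enc_rat _ 20681 100000) (enc_scale 190961 20000 (enc_subr 15 32 h1))))⟩
noncomputable def sl32 : Fn1 := ⟨_, _, fun h1 => (enc_norm (enc_subr 3162269 10000000 (enc_scale 2125561 2000000 (enc_subr 15 32 h1))))⟩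
noncomputable def sv32 : Fn1 := ⟨_, _, fun h1 => (enc_norm (enc_add (enc_scale 12159231 100000000 (enc_subr 15 32 h1)) (enc_rat _ 13224269 125000000)))⟩
noncomputable def sw32 : Fn1 := ⟨_, _, fun h1 => (enc_norm (enc_sub (enc_rat _ 40993 200000) (enc_scale 25963 10000 (enc_subr 15 32 h1))))⟩
noncomputable def sl33 : Fn1 := ⟨_, _, fun h1 => (enc_norm (enc_subr 4577207 10000000 (enc_scale 787821 500000 (enc_subr 15 32 h1))))⟩
noncomputable def sv33 : Fn1 := ⟨_, _, fun h1 => (enc_norm (enc_add (enc_scale 27783 2000000 (enc_subr 15 32 h1)) (enc_rat _ 2710157 20000000)))⟩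
noncomputable def sw33 : Fn1 := ⟨_, _, fun h1 => (enc_norm (enc_sub (enc_rat _ 37341 100000) (enc_scale 64137 20000 (enc_subr 15 32 h1))))⟩
noncomputable def skf0 : Fn2 := ⟨_, _, fun h1 h2 => (enc_norm (enc_add (bf1q0.enc h1 h2) (enc_mul (enc_norm (enc_sub (enc_mul (c1g.enc h1) (bf1q0.enc h1 h2)) (kf0q0.enc h1 h2))) (enc_inv (enc_sub (cv1m.enc h1) (c1g.enc h1))))))⟩
noncomputable def sxf0 : Fn2 := ⟨_, _, fun h1 h2 => (enc_norm (enc_mul (enc_norm (enc_sub (l1q0.enc h1 h2) (l0q0.enc h1 h2))) (enc_inv (enc_sub (cv1m.enc h1) (c1g.enc h1)))))⟩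
noncomputable def skl0 : Fn2 := ⟨_, _, fun h1 h2 => (enc_norm (enc_add (bf3q0.enc h1 h2) (enc_mul (enc_norm (enc_sub (kf4q0.enc h1 h2) (enc_mul (c3g.enc h1) (bf3q0.enc h1 h2)))) (enc_inv (enc_sub (c3g.enc h1) (cv3m.enc h1))))))⟩
noncomputable def sxl0 : Fn2 := ⟨_, _, fun h1 h2 => (enc_norm (enc_mul (enc_norm (enc_sub (l4q0.enc h1 h2) (l3q0.enc h1 h2))) (enc_inv (enc_sub (c3g.enc h1) (cv3m.enc h1)))))⟩
noncomputable def skf1 : Fn2 := ⟨_, _, fun h1 h2 => (enc_norm (enc_add (bf1q1.enc h1 h2) (enc_mul (enc_norm (enc_sub (enc_mul (c1g.enc h1) (bf1q1.enc h1 h2)) (kf0q1.enc h1 h2))) (enc_inv (enc_sub (cv1m.enc h1) (c1g.enc h1))))))⟩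
noncomputable def sxf1 : Fn2 := ⟨_, _, fun h1 h2 => (enc_norm (enc_mul (enc_norm (enc_sub (l1q1.enc h1 h2) (l0q1.enc h1 h2))) (enc_inv (enc_sub (cv1m.enc h1) (c1g.enc h1)))))⟩
noncomputable def skl1 : Fn2 := ⟨_, _, fun h1 h2 => (enc_norm (enc_add (bf3q1.enc h1 h2) (enc_mul (enc_norm (enc_sub (kf4q1.enc h1 h2) (enc_mul (c3g.enc h1) (bf3q1.enc h1 h2)))) (enc_inv (enc_sub (c3g.enc h1) (cv3m.enc h1))))))⟩
noncomputable def sxl1 : Fn2 := ⟨_, _, fun h1 h2 => (enc_norm (enc_mul (enc_norm (enc_sub (l4q1.enc h1 h2) (l3q1.enc h1 h2))) (enc_inv (enc_sub (c3g.enc h1) (cv3m.enc h1)))))⟩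
noncomputable def skf2 : Fn2 := ⟨_, _, fun h1 h2 => (enc_norm (enc_add (bf1q2.enc h1 h2) (enc_mul (enc_norm (enc_add (enc_mul (c1g.enc h1) (enc_norm (enc_subn 1 (bf1q2.enc h1 h2)))) (enc_mul (enc_norm (enc_subn 1 h1)) (kcg.enc (c1g.enc h1) h2)))) (enc_inv (enc_sub (cv1p.enc h1) (c1g.enc h1))))))⟩
noncomputable def sxf2 : Fn2 := ⟨_, _, fun h1 h2 => (enc_norm (enc_mul (enc_norm (enc_sub (l1q2.enc h1 h2) (l0q2.enc h1 h2))) (enc_inv (enc_sub (cv1p.enc h1) (c1g.enc h1)))))⟩
noncomputable def skl2 : Fn2 := ⟨_, _, fun h1 h2 => (enc_norm (enc_add (bf3q2.enc h1 h2) (enc_mul (enc_norm (enc_sub (kf4q2.enc h1 h2) (enc_mul (c3g.enc h1) (bf3q2.enc h1 h2)))) (enc_inv (enc_sub (c3g.enc h1) (cv3p.enc h1))))))⟩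
noncomputable def sxl2 : Fn2 := ⟨_, _, fun h1 h2 => (enc_norm (enc_mul (enc_norm (enc_sub (l4q2.enc h1 h2) (l3q2.enc h1 h2))) (enc_inv (enc_sub (c3g.enc h1) (cv3p.enc h1)))))⟩
noncomputable def skl3 : Fn2 := ⟨_, _, fun h1 h2 => (enc_norm (enc_add (bf3q3.enc h1 h2) (enc_mul (enc_norm (enc_sub (kf4q3.enc h1 h2) (enc_mul (c3g.enc h1) (bf3q3.enc h1 h2)))) (enc_inv (enc_sub (c3g.enc h1) (cv3r.enc h1))))))⟩
noncomputable def sxl3 : Fn2 := ⟨_, _, fun h1 h2 => (enc_norm (enc_mul (enc_norm (enc_sub (l4q3.enc h1 h2) (l3q3.enc h1 h2))) (enc_inv (enc_sub (c3g.enc h1) (cv3r.enc h1)))))⟩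
noncomputable def rhk : Fn2 := ⟨_, _, fun h1 h2 => (enc_norm (enc_mul (enc_norm (enc_sub (bf1q2.enc h1 h2) (n0b.enc h1 h2))) (enc_norm (enc_mul (cv1p.enc h1) (enc_inv (enc_sub (cv1p.enc h1) (c1g.enc h1)))))))⟩
noncomputable def rhx : Fn2 := ⟨_, _, fun h1 h2 => (enc_norm (enc_mul (enc_norm (enc_sub (bx1q2.enc h1 h2) (n0x.enc h1 h2))) (enc_norm (enc_mul (cv1p.enc h1) (enc_inv (enc_sub (cv1p.enc h1) (c1g.enc h1)))))))⟩
noncomputable def sbk : Fn1 := ⟨_, _, fun h1 => (enc_norm (enc_subr 28781 72500000 (enc_neg (enc_scale 24231 7250 (enc_subr 15 32 h1)))))⟩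
noncomputable def sbx : Fn1 := ⟨_, _, fun h1 => (enc_norm (enc_add (enc_scale 774 625 (enc_subr 15 32 h1)) (enc_rat _ 495727 362500)))⟩
noncomputable def k0c : Fn1 := ⟨_, _, fun h1 => (enc_rat _ 62907073 50000000)⟩
noncomputable def m0c : Fn1 := ⟨_, _, fun h1 => (enc_norm (enc_subr 2467 156250 (enc_neg (enc_scale 114361 125000 (enc_subr 15 32 h1)))))⟩
noncomputable def sl49 : Fn1 := ⟨_, _, fun h1 => (enc_norm (enc_sub (enc_rat _ 70855766559867 2812532000000000) (enc_scale 37542241423381 2953158600000000 (enc_subr 15 32 h1))))⟩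
noncomputable def sv49 : Fn1 := ⟨_, _, fun h1 => (enc_norm (enc_sub (enc_rat _ 442843888097 1406266000000000) (enc_scale 4692559441 29531586000000 (enc_subr 15 32 h1))))⟩
noncomputable def sw49 : Fn1 := ⟨_, _, fun h1 => (enc_norm (enc_sub (enc_rat _ 50386279 100000000) (enc_scale 1271317 5000000 (enc_subr 15 32 h1))))⟩
noncomputable def sl50 : Fn1 := ⟨_, _, fun h1 => (enc_pnc _ 0)⟩
noncomputable def sv50 : Fn1 := ⟨_, _, fun h1 => (enc_pnc _ 0)⟩
noncomputable def sl51 : Fn1 := ⟨_, _, fun h1 => (enc_norm (enc_sub (enc_rat _ 70855766559867 2812532000000000) (enc_scale 37542241423381 2953158600000000 (enc_subr 15 32 h1))))⟩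
noncomputable def sv51 : Fn1 := ⟨_, _, fun h1 => (enc_norm (enc_subr 442843888097 1406266000000000 (enc_scale 4692559441 29531586000000 (enc_subr 15 32 h1))))⟩
noncomputable def sw51 : Fn1 := ⟨_, _, fun h1 => (enc_norm (enc_subr 50386279 100000000 (enc_scale 1271317 5000000 (enc_subr 15 32 h1))))⟩
noncomputable def kqf : Fn2 := ⟨_, _, fun h1 h2 => (enc_norm (enc_mul (enc_norm (enc_subn 1 h1)) (enc_norm (enc_case (enc_subr 73 1609 (c1g.enc h1)) (enc_rat _ 62907073 50000000) (enc_mul (kcg.enc (c1g.enc h1) h2) (enc_inv (c1g.enc h1)))))))⟩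
noncomputable def skm : Fn2 := ⟨_, _, fun h1 h2 => (enc_norm (enc_sub (enc_mul (enc_norm (enc_mul (cv1p.enc h1) (enc_inv (enc_sub (cv1p.enc h1) (c1g.enc h1))))) (enc_norm (enc_add (enc_subn 1 (bf1q2.enc h1 h2)) (kqf.enc h1 h2)))) (kqf.enc h1 h2)))⟩
noncomputable def dt1 : DT := .quad sw1 sl1 sv1
noncomputable def dt2 : DT := .quad sw2 sl2 sv2
noncomputable def dt3 : DT := .quad sw3 sl3 sv3
noncomputable def dt4 : DT := .quad sw4 sl4 sv4
noncomputable def dt5 : DT := .lin sl5 sv5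
noncomputable def dt6 : DT := .quad sw6 sl6 sv6
noncomputable def dt7 : DT := .quad sw7 sl7 sv7
noncomputable def dt8 : DT := .quad sw8 sl8 sv8
noncomputable def dt9 : DT := .quad sw9 sl9 sv9
noncomputable def dt10 : DT := .node ((Cn.rt 7 20).ng) dt1 dt2
noncomputable def dt11 : DT := .node ((Cn.rt 311 1898).ng) dt3 dt4
noncomputable def dt12 : DT := .node ((Cn.rt 1 4).ng) dt10 dt11
noncomputable def dt13 : DT := .node (Cn.rt 73 1609) dt5 dt6
noncomputable def dt14 : DT := .node (Cn.rt 7 20) dt8 dt9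
noncomputable def dt15 : DT := .node (Cn.rt 1 4) dt7 dt14
noncomputable def dt16 : DT := .node (Cn.rt 311 1898) dt13 dt15
noncomputable def dt17 : DT := .node ((Cn.rt 73 1609).ng) dt12 dt16
noncomputable def dt18 : DT := .quad sw18 sl18 sv18
noncomputable def dt19 : DT := .quad sw19 sl19 sv19
noncomputable def dt20 : DT := .quad sw20 sl20 sv20
noncomputable def dt21 : DT := .quad sw21 sl21 sv21
noncomputable def dt22 : DT := .quad sw22 sl22 sv22
noncomputable def dt23 : DT := .clo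
noncomputable def dt24 : DT := .quad sw24 sl24 sv24
noncomputable def dt25 : DT := .quad sw25 sl25 sv25
noncomputable def dt26 : DT := .quad sw26 sl26 sv26
noncomputable def dt27 : DT := .quad sw27 sl27 sv27
noncomputable def dt28 : DT := .quad sw28 sl28 sv28
noncomputable def dt29 : DT := .quad sw29 sl29 sv29
noncomputable def dt30 : DT := .quad sw30 sl30 sv30
noncomputable def dt31 : DT := .quad sw31 sl31 sv31
noncomputable def dt32 : DT := .quad sw32 sl32 sv32
noncomputable def dt33 : DT := .quad sw33 sl33 sv33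
noncomputable def dt34 : DT := .node ((Cn.rt 43 100).ng) dt18 dt19
noncomputable def dt35 : DT := .node ((Cn.rt 3 10).ng) dt20 dt21
noncomputable def dt36 : DT := .node ((Cn.rt 9 25).ng) dt34 dt35
noncomputable def dt37 : DT := .node ((Cn.rt 311 1898).ng) dt22 dt23
noncomputable def dt38 : DT := .node ((Cn.rt 1 40).ng) dt24 dt25
noncomputable def dt39 : DT := .node ((Cn.rt 73 1609).ng) dt37 dt38
noncomputable def dt40 : DT := .node ((Cn.rt 23 100).ng) dt36 dt39
noncomputable def dt41 : DT := .node (Cn.rt 3 50) dt26 dt27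
noncomputable def dt42 : DT := .node (Cn.rt 3 20) dt28 dt29
noncomputable def dt43 : DT := .node (Cn.rt 1 10) dt41 dt42
noncomputable def dt44 : DT := .node (Cn.rt 13 50) dt30 dt31
noncomputable def dt45 : DT := .node (Cn.rt 21 50) dt32 dt33
noncomputable def dt46 : DT := .node (Cn.rt 17 50) dt44 dt45
noncomputable def dt47 : DT := .node (Cn.rt 1 5) dt43 dt46
noncomputable def dt48 : DT := .node (Cn.rt 1 40) dt40 dt47
noncomputable def dt49 : DT := .quad sw49 sl49 sv49
noncomputable def dt50 : DT := .lin sl50 sv50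
noncomputable def dt51 : DT := .quad sw51 sl51 sv51
noncomputable def dt52 : DT := .node (Cn.rt 1 40) dt50 dt51
noncomputable def dt53 : DT := .node ((Cn.rt 1 40).ng) dt49 dt52
noncomputable def dd : SDat := ⟨dt17, kcg, dt48, Kh.T⟩
noncomputable def gf0 : Sg := ⟨cv1m, skf0, sxf0⟩
noncomputable def gf1 : Sg := ⟨cv1m, skf1, sxf1⟩
noncomputable def gf2 : Sg := ⟨cv1p, skf2, sxf2⟩
noncomputable def gf3 : Sg := ⟨cv1r, skf2, sxf2⟩
noncomputable def gl0 : Sg := ⟨cv3m, skl0, sxl0⟩
noncomputable def gl1 : Sg := ⟨cv3m, skl1, sxl1⟩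
noncomputable def gl2 : Sg := ⟨cv3p, skl2, sxl2⟩
noncomputable def gl3 : Sg := ⟨cv3r, skl3, sxl3⟩
noncomputable def vv : Vt := ⟨(Cn.rt 1 40), (Cn.rt 577 500), (Cn.rt 231 200), (Cn.rt 13 10), k0c, m0c, sbk, sbx, rhk, rhx, bf1q2, bx1q2, (Cn.rt 73 1609), (Cn.rt 57717 50000), skm, dt53⟩
noncomputable def ff (q : ℕ) : Sg := match q with
  | 0 => gf0
  | 1 => gf1
  | 2 => gf2
  | _ => gf3
noncomputable def fl (q : ℕ) : Sg := match q with
  | 0 => gl0
  | 1 => gl1
  | 2 => gl2
  | _ => gl3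
noncomputable def tt : STab 4 := ⟨dd, 0, 3, ff, fl, vv⟩
theorem kcl0 {p x : ℝ} (h1 : -1 / 2 ≤ p) (h2 : p ≤ -7 / 20) : kcg.v p x = (-1000889 / 30000000 + (x - 15 / 32) * (39514743 / 10000000)) + (6542803 / 15000000 + (x - 15 / 32) * (11756729 / 500000)) * p + (-2507 / 25000 + (x - 15 / 32) * (125087 / 5000)) * p ^ 2 := by
  simp only [kcg, kcg_3, kcg_6, kcg_9, kcg_10, kcg_14, kcg_25, kcg_33, kcg_37, kcg_46, kcg_54, kcg_55, kcg_59, kcg_67, kcg_75, kcg_79, kcg_88, kcg_93, kcg_99, kcg_100, kcg_123]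
  rcases eq_or_lt_of_le h1 with h | h1
  · subst h
    ((try push_cast); (repeat first | rw [if_pos (by linarith)] | rw [if_neg (by linarith)] | erw [if_pos (by linarith)] | erw [if_neg (by linarith)]); (try push_cast); (try ring1))
  rcases eq_or_lt_of_le h2 with h | h2
  · subst h
    ((try push_cast); (repeat first | rw [if_pos (by linarith)] | rw [if_neg (by linarith)] | erw [if_pos (by linarith)] | erw [if_neg (by linarith)]); (try push_cast); (try ring1))
  · ((try push_cast); (repeat first | rw [if_pos (by linarith)] | rw [if_neg (by linarith)] | erw [if_pos (by linarith)] | erw [if_neg (by linarith)]); (try push_cast); (try ring1))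
theorem kcl1 {p x : ℝ} (h1 : -7 / 20 ≤ p) (h2 : p ≤ -1 / 4) : kcg.v p x = (-6877931 / 400000000 + (x - 15 / 32) * (34847261 / 40000000)) + (5285763 / 10000000 + (x - 15 / 32) * (738973 / 125000)) * p + (6341 / 200000 + (x - 15 / 32) * (-2557 / 20000)) * p ^ 2 := by
  simp only [kcg, kcg_3, kcg_6, kcg_9, kcg_10, kcg_14, kcg_25, kcg_33, kcg_37, kcg_46, kcg_54, kcg_55, kcg_59, kcg_67, kcg_75, kcg_79, kcg_88, kcg_93, kcg_99, kcg_100, kcg_123]
  rcases eq_or_lt_of_le h1 with h | h1
  · subst h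
    ((try push_cast); (repeat first | rw [if_pos (by linarith)] | rw [if_neg (by linarith)] | erw [if_pos (by linarith)] | erw [if_neg (by linarith)]); (try push_cast); (try ring1))
  rcases eq_or_lt_of_le h2 with h | h2
  · subst h
    ((try push_cast); (repeat first | rw [if_pos (by linarith)] | rw [if_neg (by linarith)] | erw [if_pos (by linarith)] | erw [if_neg (by linarith)]); (try push_cast); (try ring1))
  · ((try push_cast); (repeat first | rw [if_pos (by linarith)] | rw [if_neg (by linarith)] | erw [if_pos (by linarith)] | erw [if_neg (by linarith)]); (try push_cast); (try ring1))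
theorem kcl2 {p x : ℝ} (h1 : -1 / 4 ≤ p) (h2 : p ≤ -311 / 1898) : kcg.v p x = (-4986016501 / 21900000000 + (x - 15 / 32) * (-16701672427 / 775807500000)) + (-2529977977 / 2190000000 + (x - 15 / 32) * (-190831896347 / 155161500000)) * p + (-333593 / 100000 + (x - 15 / 32) * (-9007 / 625)) * p ^ 2 := by
  simp only [kcg, kcg_3, kcg_6, kcg_9, kcg_10, kcg_14, kcg_25, kcg_33, kcg_37, kcg_46, kcg_54, kcg_55, kcg_59, kcg_67, kcg_75, kcg_79, kcg_88, kcg_93, kcg_99, kcg_100, kcg_123]
  rcases eq_or_lt_of_le h1 with h | h1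
  · subst h
    ((try push_cast); (repeat first | rw [if_pos (by linarith)] | rw [if_neg (by linarith)] | erw [if_pos (by linarith)] | erw [if_neg (by linarith)]); (try push_cast); (try ring1))
  rcases eq_or_lt_of_le h2 with h | h2
  · subst h
    ((try push_cast); (repeat first | rw [if_pos (by linarith)] | rw [if_neg (by linarith)] | erw [if_pos (by linarith)] | erw [if_neg (by linarith)]); (try push_cast); (try ring1))
  · ((try push_cast); (repeat first | rw [if_pos (by linarith)] | rw [if_neg (by linarith)] | erw [if_pos (by linarith)] | erw [if_neg (by linarith)]); (try push_cast); (try ring1))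
theorem kcl3 {p x : ℝ} (h1 : -311 / 1898 ≤ p) (h2 : p ≤ -73 / 1609) : kcg.v p x = (180816729094327 / 15768149718750000 + (x - 15 / 32) * (-14720095772717 / 485173837500000)) + (16240666353076317089 / 9208599435750000000 + (x - 15 / 32) * (-47369277757049153 / 35417690137500000)) * p + (1114177 / 200000 + (x - 15 / 32) * (-73697 / 5000)) * p ^ 2 := by
  simp only [kcg, kcg_3, kcg_6, kcg_9, kcg_10, kcg_14, kcg_25, kcg_33, kcg_37, kcg_46, kcg_54, kcg_55, kcg_59, kcg_67, kcg_75, kcg_79, kcg_88, kcg_93, kcg_99, kcg_100, kcg_123]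
  rcases eq_or_lt_of_le h1 with h | h1
  · subst h
    ((try push_cast); (repeat first | rw [if_pos (by linarith)] | rw [if_neg (by linarith)] | erw [if_pos (by linarith)] | erw [if_neg (by linarith)]); (try push_cast); (try ring1))
  rcases eq_or_lt_of_le h2 with h | h2
  · subst h
    ((try push_cast); (repeat first | rw [if_pos (by linarith)] | rw [if_neg (by linarith)] | erw [if_pos (by linarith)] | erw [if_neg (by linarith)]); (try push_cast); (try ring1))
  · ((try push_cast); (repeat first | rw [if_pos (by linarith)] | rw [if_neg (by linarith)] | erw [if_pos (by linarith)] | erw [if_neg (by linarith)]); (try push_cast); (try ring1))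
theorem kcl4 {p x : ℝ} (h1 : -73 / 1609 ≤ p) (h2 : p ≤ 73 / 1609) : kcg.v p x = (0) + (62907073 / 50000000) * p := by
  simp only [kcg, kcg_3, kcg_6, kcg_9, kcg_10, kcg_14, kcg_25, kcg_33, kcg_37, kcg_46, kcg_54, kcg_55, kcg_59, kcg_67, kcg_75, kcg_79, kcg_88, kcg_93, kcg_99, kcg_100, kcg_123]
  rcases eq_or_lt_of_le h1 with h | h1
  · subst h
    ((try push_cast); (repeat first | rw [if_pos (by linarith)] | rw [if_neg (by linarith)] | erw [if_pos (by linarith)] | erw [if_neg (by linarith)]); (try push_cast); (try ring1))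
  rcases eq_or_lt_of_le h2 with h | h2
  · subst h
    ((try push_cast); (repeat first | rw [if_pos (by linarith)] | rw [if_neg (by linarith)] | erw [if_pos (by linarith)] | erw [if_neg (by linarith)]); (try push_cast); (try ring1))
  rcases lt_trichotomy p 0 with h | h | h
  · ((try push_cast); (repeat first | rw [if_pos (by linarith)] | rw [if_neg (by linarith)] | erw [if_pos (by linarith)] | erw [if_neg (by linarith)]); (try push_cast); (try ring1))
  · subst h
    ((try push_cast); (repeat first | rw [if_pos (by linarith)] | rw [if_neg (by linarith)] | erw [if_pos (by linarith)] | erw [if_neg (by linarith)]); (try push_cast); (try ring1))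
  · ((try push_cast); (repeat first | rw [if_pos (by linarith)] | rw [if_neg (by linarith)] | erw [if_pos (by linarith)] | erw [if_neg (by linarith)]); (try push_cast); (try ring1))
theorem kcl5 {p x : ℝ} (h1 : 73 / 1609 ≤ p) (h2 : p ≤ 311 / 1898) : kcg.v p x = (-180816729094327 / 15768149718750000 + (x - 15 / 32) * (14720095772717 / 485173837500000)) + (16240666353076317089 / 9208599435750000000 + (x - 15 / 32) * (-47369277757049153 / 35417690137500000)) * p + (-1114177 / 200000 + (x - 15 / 32) * (73697 / 5000)) * p ^ 2 := by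
  simp only [kcg, kcg_3, kcg_6, kcg_9, kcg_10, kcg_14, kcg_25, kcg_33, kcg_37, kcg_46, kcg_54, kcg_55, kcg_59, kcg_67, kcg_75, kcg_79, kcg_88, kcg_93, kcg_99, kcg_100, kcg_123]
  rcases eq_or_lt_of_le h1 with h | h1
  · subst h
    ((try push_cast); (repeat first | rw [if_pos (by linarith)] | rw [if_neg (by linarith)] | erw [if_pos (by linarith)] | erw [if_neg (by linarith)]); (try push_cast); (try ring1))
  rcases eq_or_lt_of_le h2 with h | h2
  · subst h
    ((try push_cast); (repeat first | rw [if_pos (by linarith)] | rw [if_neg (by linarith)] | erw [if_pos (by linarith)] | erw [if_neg (by linarith)]); (try push_cast); (try ring1))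
  · ((try push_cast); (repeat first | rw [if_pos (by linarith)] | rw [if_neg (by linarith)] | erw [if_pos (by linarith)] | erw [if_neg (by linarith)]); (try push_cast); (try ring1))
theorem kcl6 {p x : ℝ} (h1 : 311 / 1898 ≤ p) (h2 : p ≤ 1 / 4) : kcg.v p x = (4986016501 / 21900000000 + (x - 15 / 32) * (16701672427 / 775807500000)) + (-2529977977 / 2190000000 + (x - 15 / 32) * (-190831896347 / 155161500000)) * p + (333593 / 100000 + (x - 15 / 32) * (9007 / 625)) * p ^ 2 := by
  simp only [kcg, kcg_3, kcg_6, kcg_9, kcg_10, kcg_14, kcg_25, kcg_33, kcg_37, kcg_46, kcg_54, kcg_55, kcg_59, kcg_67, kcg_75, kcg_79, kcg_88, kcg_93, kcg_99, kcg_100, kcg_123]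
  rcases eq_or_lt_of_le h1 with h | h1
  · subst h
    ((try push_cast); (repeat first | rw [if_pos (by linarith)] | rw [if_neg (by linarith)] | erw [if_pos (by linarith)] | erw [if_neg (by linarith)]); (try push_cast); (try ring1))
  rcases eq_or_lt_of_le h2 with h | h2
  · subst h
    ((try push_cast); (repeat first | rw [if_pos (by linarith)] | rw [if_neg (by linarith)] | erw [if_pos (by linarith)] | erw [if_neg (by linarith)]); (try push_cast); (try ring1))
  · ((try push_cast); (repeat first | rw [if_pos (by linarith)] | rw [if_neg (by linarith)] | erw [if_pos (by linarith)] | erw [if_neg (by linarith)]); (try push_cast); (try ring1))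
theorem kcl7 {p x : ℝ} (h1 : 1 / 4 ≤ p) (h2 : p ≤ 7 / 20) : kcg.v p x = (6877931 / 400000000 + (x - 15 / 32) * (-34847261 / 40000000)) + (5285763 / 10000000 + (x - 15 / 32) * (738973 / 125000)) * p + (-6341 / 200000 + (x - 15 / 32) * (2557 / 20000)) * p ^ 2 := by
  simp only [kcg, kcg_3, kcg_6, kcg_9, kcg_10, kcg_14, kcg_25, kcg_33, kcg_37, kcg_46, kcg_54, kcg_55, kcg_59, kcg_67, kcg_75, kcg_79, kcg_88, kcg_93, kcg_99, kcg_100, kcg_123]
  rcases eq_or_lt_of_le h1 with h | h1
  · subst h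
    ((try push_cast); (repeat first | rw [if_pos (by linarith)] | rw [if_neg (by linarith)] | erw [if_pos (by linarith)] | erw [if_neg (by linarith)]); (try push_cast); (try ring1))
  rcases eq_or_lt_of_le h2 with h | h2
  · subst h
    ((try push_cast); (repeat first | rw [if_pos (by linarith)] | rw [if_neg (by linarith)] | erw [if_pos (by linarith)] | erw [if_neg (by linarith)]); (try push_cast); (try ring1))
  · ((try push_cast); (repeat first | rw [if_pos (by linarith)] | rw [if_neg (by linarith)] | erw [if_pos (by linarith)] | erw [if_neg (by linarith)]); (try push_cast); (try ring1))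
theorem kcl8 {p x : ℝ} (h1 : 7 / 20 ≤ p) (h2 : p ≤ 1 / 2) : kcg.v p x = (1000889 / 30000000 + (x - 15 / 32) * (-39514743 / 10000000)) + (6542803 / 15000000 + (x - 15 / 32) * (11756729 / 500000)) * p + (2507 / 25000 + (x - 15 / 32) * (-125087 / 5000)) * p ^ 2 := by
  simp only [kcg, kcg_3, kcg_6, kcg_9, kcg_10, kcg_14, kcg_25, kcg_33, kcg_37, kcg_46, kcg_54, kcg_55, kcg_59, kcg_67, kcg_75, kcg_79, kcg_88, kcg_93, kcg_99, kcg_100, kcg_123]
  rcases eq_or_lt_of_le h1 with h | h1
  · subst h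
    ((try push_cast); (repeat first | rw [if_pos (by linarith)] | rw [if_neg (by linarith)] | erw [if_pos (by linarith)] | erw [if_neg (by linarith)]); (try push_cast); (try ring1))
  rcases eq_or_lt_of_le h2 with h | h2
  · subst h
    ((try push_cast); (repeat first | rw [if_pos (by linarith)] | rw [if_neg (by linarith)] | erw [if_pos (by linarith)] | erw [if_neg (by linarith)]); (try push_cast); (try ring1))
  · ((try push_cast); (repeat first | rw [if_pos (by linarith)] | rw [if_neg (by linarith)] | erw [if_pos (by linarith)] | erw [if_neg (by linarith)]); (try push_cast); (try ring1))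
theorem kvh0 {p x : ℝ} (h2 : p ≤ -7 / 20) : dt17.kv p x = (-1000889 / 30000000 + (x - 15 / 32) * (39514743 / 10000000)) + (6542803 / 15000000 + (x - 15 / 32) * (11756729 / 500000)) * p + (-2507 / 25000 + (x - 15 / 32) * (125087 / 5000)) * p ^ 2 := by
  refine (DT.kv_le (by simp only [Cn.rt_v, Cn.ng_v]; push_cast; linarith)).trans ?_
  refine (DT.kv_le (by simp only [Cn.rt_v, Cn.ng_v]; push_cast; linarith)).trans ?_
  refine (DT.kv_le (by simp only [Cn.rt_v, Cn.ng_v]; push_cast; linarith)).trans ?_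
  simp only [dt1, DT.kv, sw1, sl1, sv1]
  ((try push_cast); ring1)
theorem kvh1 {p x : ℝ} (h1 : -7 / 20 < p) (h2 : p ≤ -1 / 4) : dt17.kv p x = (-6877931 / 400000000 + (x - 15 / 32) * (34847261 / 40000000)) + (5285763 / 10000000 + (x - 15 / 32) * (738973 / 125000)) * p + (6341 / 200000 + (x - 15 / 32) * (-2557 / 20000)) * p ^ 2 := by
  refine (DT.kv_le (by simp only [Cn.rt_v, Cn.ng_v]; push_cast; linarith)).trans ?_
  refine (DT.kv_le (by simp only [Cn.rt_v, Cn.ng_v]; push_cast; linarith)).trans ?_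
  refine (DT.kv_gt (by simp only [Cn.rt_v, Cn.ng_v]; push_cast; linarith)).trans ?_
  simp only [dt2, DT.kv, sw2, sl2, sv2]
  ((try push_cast); ring1)
theorem kvh2 {p x : ℝ} (h1 : -1 / 4 < p) (h2 : p ≤ -311 / 1898) : dt17.kv p x = (-4986016501 / 21900000000 + (x - 15 / 32) * (-16701672427 / 775807500000)) + (-2529977977 / 2190000000 + (x - 15 / 32) * (-190831896347 / 155161500000)) * p + (-333593 / 100000 + (x - 15 / 32) * (-9007 / 625)) * p ^ 2 := by
  refine (DT.kv_le (by simp only [Cn.rt_v, Cn.ng_v]; push_cast; linarith)).trans ?_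
  refine (DT.kv_gt (by simp only [Cn.rt_v, Cn.ng_v]; push_cast; linarith)).trans ?_
  refine (DT.kv_le (by simp only [Cn.rt_v, Cn.ng_v]; push_cast; linarith)).trans ?_
  simp only [dt3, DT.kv, sw3, sl3, sv3]
  ((try push_cast); ring1)
theorem kvh3 {p x : ℝ} (h1 : -311 / 1898 < p) (h2 : p ≤ -73 / 1609) : dt17.kv p x = (180816729094327 / 15768149718750000 + (x - 15 / 32) * (-14720095772717 / 485173837500000)) + (16240666353076317089 / 9208599435750000000 + (x - 15 / 32) * (-47369277757049153 / 35417690137500000)) * p + (1114177 / 200000 + (x - 15 / 32) * (-73697 / 5000)) * p ^ 2 := by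
  refine (DT.kv_le (by simp only [Cn.rt_v, Cn.ng_v]; push_cast; linarith)).trans ?_
  refine (DT.kv_gt (by simp only [Cn.rt_v, Cn.ng_v]; push_cast; linarith)).trans ?_
  refine (DT.kv_gt (by simp only [Cn.rt_v, Cn.ng_v]; push_cast; linarith)).trans ?_
  simp only [dt4, DT.kv, sw4, sl4, sv4]
  ((try push_cast); ring1)
theorem kvh4 {p x : ℝ} (h1 : -73 / 1609 < p) (h2 : p ≤ 73 / 1609) : dt17.kv p x = (0) + (62907073 / 50000000) * p := by
  refine (DT.kv_gt (by simp only [Cn.rt_v, Cn.ng_v]; push_cast; linarith)).trans ?_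
  refine (DT.kv_le (by simp only [Cn.rt_v, Cn.ng_v]; push_cast; linarith)).trans ?_
  refine (DT.kv_le (by simp only [Cn.rt_v, Cn.ng_v]; push_cast; linarith)).trans ?_
  simp only [dt5, DT.kv, sl5, sv5]
  ((try push_cast); ring1)
theorem kvh5 {p x : ℝ} (h1 : 73 / 1609 < p) (h2 : p ≤ 311 / 1898) : dt17.kv p x = (-180816729094327 / 15768149718750000 + (x - 15 / 32) * (14720095772717 / 485173837500000)) + (16240666353076317089 / 9208599435750000000 + (x - 15 / 32) * (-47369277757049153 / 35417690137500000)) * p + (-1114177 / 200000 + (x - 15 / 32) * (73697 / 5000)) * p ^ 2 := by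
  refine (DT.kv_gt (by simp only [Cn.rt_v, Cn.ng_v]; push_cast; linarith)).trans ?_
  refine (DT.kv_le (by simp only [Cn.rt_v, Cn.ng_v]; push_cast; linarith)).trans ?_
  refine (DT.kv_gt (by simp only [Cn.rt_v, Cn.ng_v]; push_cast; linarith)).trans ?_
  simp only [dt6, DT.kv, sw6, sl6, sv6]
  ((try push_cast); ring1)
theorem kvh6 {p x : ℝ} (h1 : 311 / 1898 < p) (h2 : p ≤ 1 / 4) : dt17.kv p x = (4986016501 / 21900000000 + (x - 15 / 32) * (16701672427 / 775807500000)) + (-2529977977 / 2190000000 + (x - 15 / 32) * (-190831896347 / 155161500000)) * p + (333593 / 100000 + (x - 15 / 32) * (9007 / 625)) * p ^ 2 := by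
  refine (DT.kv_gt (by simp only [Cn.rt_v, Cn.ng_v]; push_cast; linarith)).trans ?_
  refine (DT.kv_gt (by simp only [Cn.rt_v, Cn.ng_v]; push_cast; linarith)).trans ?_
  refine (DT.kv_le (by simp only [Cn.rt_v, Cn.ng_v]; push_cast; linarith)).trans ?_
  simp only [dt7, DT.kv, sw7, sl7, sv7]
  ((try push_cast); ring1)
theorem kvh7 {p x : ℝ} (h1 : 1 / 4 < p) (h2 : p ≤ 7 / 20) : dt17.kv p x = (6877931 / 400000000 + (x - 15 / 32) * (-34847261 / 40000000)) + (5285763 / 10000000 + (x - 15 / 32) * (738973 / 125000)) * p + (-6341 / 200000 + (x - 15 / 32) * (2557 / 20000)) * p ^ 2 := by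
  refine (DT.kv_gt (by simp only [Cn.rt_v, Cn.ng_v]; push_cast; linarith)).trans ?_
  refine (DT.kv_gt (by simp only [Cn.rt_v, Cn.ng_v]; push_cast; linarith)).trans ?_
  refine (DT.kv_gt (by simp only [Cn.rt_v, Cn.ng_v]; push_cast; linarith)).trans ?_
  refine (DT.kv_le (by simp only [Cn.rt_v, Cn.ng_v]; push_cast; linarith)).trans ?_
  simp only [dt8, DT.kv, sw8, sl8, sv8]
  ((try push_cast); ring1)
theorem kvh8 {p x : ℝ} (h1 : 7 / 20 < p) (h2 : p ≤ 1 / 2) : dt17.kv p x = (1000889 / 30000000 + (x - 15 / 32) * (-39514743 / 10000000)) + (6542803 / 15000000 + (x - 15 / 32) * (11756729 / 500000)) * p + (2507 / 25000 + (x - 15 / 32) * (-125087 / 5000)) * p ^ 2 := by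
  refine (DT.kv_gt (by simp only [Cn.rt_v, Cn.ng_v]; push_cast; linarith)).trans ?_
  refine (DT.kv_gt (by simp only [Cn.rt_v, Cn.ng_v]; push_cast; linarith)).trans ?_
  refine (DT.kv_gt (by simp only [Cn.rt_v, Cn.ng_v]; push_cast; linarith)).trans ?_
  refine (DT.kv_gt (by simp only [Cn.rt_v, Cn.ng_v]; push_cast; linarith)).trans ?_
  simp only [dt9, DT.kv, sw9, sl9, sv9]
  ((try push_cast); ring1)
theorem kvl0 {p x : ℝ} (h1 : -1 / 2 ≤ p) (h2 : p ≤ -7 / 20) : dt17.kv p x = (-1000889 / 30000000 + (x - 15 / 32) * (39514743 / 10000000)) + (6542803 / 15000000 + (x - 15 / 32) * (11756729 / 500000)) * p + (-2507 / 25000 + (x - 15 / 32) * (125087 / 5000)) * p ^ 2 := by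
  exact kvh0 h2
theorem kvl1 {p x : ℝ} (h1 : -7 / 20 ≤ p) (h2 : p ≤ -1 / 4) : dt17.kv p x = (-6877931 / 400000000 + (x - 15 / 32) * (34847261 / 40000000)) + (5285763 / 10000000 + (x - 15 / 32) * (738973 / 125000)) * p + (6341 / 200000 + (x - 15 / 32) * (-2557 / 20000)) * p ^ 2 := by
  rcases eq_or_lt_of_le h1 with h | h1
  · subst h
    rw [kvh0 (by norm_num)]
    ring1
  · exact kvh1 h1 h2
theorem kvl2 {p x : ℝ} (h1 : -1 / 4 ≤ p) (h2 : p ≤ -311 / 1898) : dt17.kv p x = (-4986016501 / 21900000000 + (x - 15 / 32) * (-16701672427 / 775807500000)) + (-2529977977 / 2190000000 + (x - 15 / 32) * (-190831896347 / 155161500000)) * p + (-333593 / 100000 + (x - 15 / 32) * (-9007 / 625)) * p ^ 2 := by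
  rcases eq_or_lt_of_le h1 with h | h1
  · subst h
    rw [kvh1 (by norm_num) (by norm_num)]
    ring1
  · exact kvh2 h1 h2
theorem kvl3 {p x : ℝ} (h1 : -311 / 1898 ≤ p) (h2 : p ≤ -73 / 1609) : dt17.kv p x = (180816729094327 / 15768149718750000 + (x - 15 / 32) * (-14720095772717 / 485173837500000)) + (16240666353076317089 / 9208599435750000000 + (x - 15 / 32) * (-47369277757049153 / 35417690137500000)) * p + (1114177 / 200000 + (x - 15 / 32) * (-73697 / 5000)) * p ^ 2 := by
  rcases eq_or_lt_of_le h1 with h | h1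
  · subst h
    rw [kvh2 (by norm_num) (by norm_num)]
    ring1
  · exact kvh3 h1 h2
theorem kvl4 {p x : ℝ} (h1 : -73 / 1609 ≤ p) (h2 : p ≤ 73 / 1609) : dt17.kv p x = (0) + (62907073 / 50000000) * p := by
  rcases eq_or_lt_of_le h1 with h | h1
  · subst h
    rw [kvh3 (by norm_num) (by norm_num)]
    ring1
  · exact kvh4 h1 h2
theorem kvl5 {p x : ℝ} (h1 : 73 / 1609 ≤ p) (h2 : p ≤ 311 / 1898) : dt17.kv p x = (-180816729094327 / 15768149718750000 + (x - 15 / 32) * (14720095772717 / 485173837500000)) + (16240666353076317089 / 9208599435750000000 + (x - 15 / 32) * (-47369277757049153 / 35417690137500000)) * p + (-1114177 / 200000 + (x - 15 / 32) * (73697 / 5000)) * p ^ 2 := by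
  rcases eq_or_lt_of_le h1 with h | h1
  · subst h
    rw [kvh4 (by norm_num) (by norm_num)]
    ring1
  · exact kvh5 h1 h2
theorem kvl6 {p x : ℝ} (h1 : 311 / 1898 ≤ p) (h2 : p ≤ 1 / 4) : dt17.kv p x = (4986016501 / 21900000000 + (x - 15 / 32) * (16701672427 / 775807500000)) + (-2529977977 / 2190000000 + (x - 15 / 32) * (-190831896347 / 155161500000)) * p + (333593 / 100000 + (x - 15 / 32) * (9007 / 625)) * p ^ 2 := by
  rcases eq_or_lt_of_le h1 with h | h1
  · subst h
    rw [kvh5 (by norm_num) (by norm_num)]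
    ring1
  · exact kvh6 h1 h2
theorem kvl7 {p x : ℝ} (h1 : 1 / 4 ≤ p) (h2 : p ≤ 7 / 20) : dt17.kv p x = (6877931 / 400000000 + (x - 15 / 32) * (-34847261 / 40000000)) + (5285763 / 10000000 + (x - 15 / 32) * (738973 / 125000)) * p + (-6341 / 200000 + (x - 15 / 32) * (2557 / 20000)) * p ^ 2 := by
  rcases eq_or_lt_of_le h1 with h | h1
  · subst h
    rw [kvh6 (by norm_num) (by norm_num)]
    ring1
  · exact kvh7 h1 h2
theorem kvl8 {p x : ℝ} (h1 : 7 / 20 ≤ p) (h2 : p ≤ 1 / 2) : dt17.kv p x = (1000889 / 30000000 + (x - 15 / 32) * (-39514743 / 10000000)) + (6542803 / 15000000 + (x - 15 / 32) * (11756729 / 500000)) * p + (2507 / 25000 + (x - 15 / 32) * (-125087 / 5000)) * p ^ 2 := by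
  rcases eq_or_lt_of_le h1 with h | h1
  · subst h
    rw [kvh7 (by norm_num) (by norm_num)]
    ring1
  · exact kvh8 h1 h2
theorem kfe {x p : ℝ} (h : |p| ≤ 1 / 2) : kcg.v p x = dt17.kv p x := by
  obtain ⟨h1, h2⟩ := abs_le.1 h
  rcases le_total p (-7 / 20) with g0 | g1000
  · rw [kcl0 (by linarith) g0, kvl0 (by linarith) g0]
  rcases le_total p (-1 / 4) with g1 | g1001
  · rw [kcl1 g1000 g1, kvl1 g1000 g1]
  rcases le_total p (-311 / 1898) with g2 | g1002
  · rw [kcl2 g1001 g2, kvl2 g1001 g2]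
  rcases le_total p (-73 / 1609) with g3 | g1003
  · rw [kcl3 g1002 g3, kvl3 g1002 g3]
  rcases le_total p (73 / 1609) with g4 | g1004
  · rw [kcl4 g1003 g4, kvl4 g1003 g4]
  rcases le_total p (311 / 1898) with g5 | g1005
  · rw [kcl5 g1004 g5, kvl5 g1004 g5]
  rcases le_total p (1 / 4) with g6 | g1006
  · rw [kcl6 g1005 g6, kvl6 g1005 g6]
  rcases le_total p (7 / 20) with g7 | g1007
  · rw [kcl7 g1006 g7, kvl7 g1006 g7]
  · rw [kcl8 g1007 (by linarith), kvl8 g1007 (by linarith)]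
theorem odd {x p : ℝ} (h : |p| ≤ 1 / 2) : kcg.v (-p) x = -kcg.v p x := by
  obtain ⟨h1, h2⟩ := abs_le.1 h
  rcases le_total p (-7 / 20) with g0 | g1000
  · rw [kcl0 (by linarith) g0, kcl8 (p := -p) (by linarith) (by linarith)]; ring
  rcases le_total p (-1 / 4) with g1 | g1001
  · rw [kcl1 g1000 g1, kcl7 (p := -p) (by linarith) (by linarith)]; ring
  rcases le_total p (-311 / 1898) with g2 | g1002
  · rw [kcl2 g1001 g2, kcl6 (p := -p) (by linarith) (by linarith)]; ring
  rcases le_total p (-73 / 1609) with g3 | g1003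
  · rw [kcl3 g1002 g3, kcl5 (p := -p) (by linarith) (by linarith)]; ring
  rcases le_total p (73 / 1609) with g4 | g1004
  · rw [kcl4 g1003 g4, kcl4 (p := -p) (by linarith) (by linarith)]; ring
  rcases le_total p (311 / 1898) with g5 | g1005
  · rw [kcl5 g1004 g5, kcl3 (p := -p) (by linarith) (by linarith)]; ring
  rcases le_total p (1 / 4) with g6 | g1006
  · rw [kcl6 g1005 g6, kcl2 (p := -p) (by linarith) (by linarith)]; ring
  rcases le_total p (7 / 20) with g7 | g1007
  · rw [kcl7 g1006 g7, kcl1 (p := -p) (by linarith) (by linarith)]; ring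
  · rw [kcl8 g1007 (by linarith), kcl0 (p := -p) (by linarith) (by linarith)]; ring
theorem ctA : cT (-311 / 1898) = 1777 / 1898 := by
  unfold cT
  rw [show (3 / 4 * (1 - (-311 / 1898 : ℝ) ^ 2)) = (3243 / 3796) ^ 2 by norm_num, Real.sqrt_sq (by norm_num)]
  norm_num
theorem ctB : cT (-73 / 1609) = 2857 / 3218 := by
  unfold cT
  rw [show (3 / 4 * (1 - (-73 / 1609 : ℝ) ^ 2)) = (1392 / 1609) ^ 2 by norm_num, Real.sqrt_sq (by norm_num)]
  norm_num
theorem kgA {x : ℝ} : kcg.v (-311 / 1898) x = (-3198611 / 25000000 + (x - 15 / 32) * (-1034643 / 5000000)) := by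
  rw [kcl2 (by norm_num) (by norm_num)]
  ring
theorem kgB {x : ℝ} : kcg.v (-73 / 1609) x = (-2854081 / 50000000) := by
  rw [kcl3 (by norm_num) (by norm_num)]
  ring
theorem ka_dt1 (x : ℝ) : dt1.kv (-1 / 2) x = (-172829 / 625000 + (x - 15 / 32) * (-15509047 / 10000000)) := by
  simp only [dt1, DT.kv, sw1, sl1, sv1]
  ((try push_cast); ring1)
theorem kb_dt1 (x : ℝ) : dt1.kv (-7 / 20) x = (-19831267 / 100000000 + (x - 15 / 32) * (-2427209 / 2000000)) := by
  simp only [dt1, DT.kv, sw1, sl1, sv1]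
  ((try push_cast); ring1)
theorem ka_dt2 (x : ℝ) : dt2.kv (-7 / 20) x = (-19831267 / 100000000 + (x - 15 / 32) * (-2427209 / 2000000)) := by
  simp only [dt2, DT.kv, sw2, sl2, sv2]
  ((try push_cast); ring1)
theorem kb_dt2 (x : ℝ) : dt2.kv (-1 / 4) x = (-7367867 / 50000000 + (x - 15 / 32) * (-6147551 / 10000000)) := by
  simp only [dt2, DT.kv, sw2, sl2, sv2]
  ((try push_cast); ring1)
theorem ka_dt10 (x : ℝ) : dt10.kv (-1 / 2) x = (-172829 / 625000 + (x - 15 / 32) * (-15509047 / 10000000)) :=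
  (DT.kv_le (by simp only [Cn.rt_v, Cn.ng_v]; norm_num)).trans (ka_dt1 x)
theorem kb_dt10 (x : ℝ) : dt10.kv (-1 / 4) x = (-7367867 / 50000000 + (x - 15 / 32) * (-6147551 / 10000000)) :=
  (DT.kv_gt (by simp only [Cn.rt_v, Cn.ng_v]; norm_num)).trans (kb_dt2 x)
theorem ka_dt3 (x : ℝ) : dt3.kv (-1 / 4) x = (-7367867 / 50000000 + (x - 15 / 32) * (-6147551 / 10000000)) := by
  simp only [dt3, DT.kv, sw3, sl3, sv3]
  ((try push_cast); ring1)
theorem kb_dt3 (x : ℝ) : dt3.kv (-311 / 1898) x = (-3198611 / 25000000 + (x - 15 / 32) * (-1034643 / 5000000)) := by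
  simp only [dt3, DT.kv, sw3, sl3, sv3]
  ((try push_cast); ring1)
theorem ka_dt4 (x : ℝ) : dt4.kv (-311 / 1898) x = (-3198611 / 25000000 + (x - 15 / 32) * (-1034643 / 5000000)) := by
  simp only [dt4, DT.kv, sw4, sl4, sv4]
  ((try push_cast); ring1)
theorem kb_dt4 (x : ℝ) : dt4.kv (-73 / 1609) x = (-2854081 / 50000000) := by
  simp only [dt4, DT.kv, sw4, sl4, sv4]
  ((try push_cast); ring1)
theorem ka_dt11 (x : ℝ) : dt11.kv (-1 / 4) x = (-7367867 / 50000000 + (x - 15 / 32) * (-6147551 / 10000000)) :=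
  (DT.kv_le (by simp only [Cn.rt_v, Cn.ng_v]; norm_num)).trans (ka_dt3 x)
theorem kb_dt11 (x : ℝ) : dt11.kv (-73 / 1609) x = (-2854081 / 50000000) :=
  (DT.kv_gt (by simp only [Cn.rt_v, Cn.ng_v]; norm_num)).trans (kb_dt4 x)
theorem ka_dt12 (x : ℝ) : dt12.kv (-1 / 2) x = (-172829 / 625000 + (x - 15 / 32) * (-15509047 / 10000000)) :=
  (DT.kv_le (by simp only [Cn.rt_v, Cn.ng_v]; norm_num)).trans (ka_dt10 x)
theorem kb_dt12 (x : ℝ) : dt12.kv (-73 / 1609) x = (-2854081 / 50000000) :=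
  (DT.kv_gt (by simp only [Cn.rt_v, Cn.ng_v]; norm_num)).trans (kb_dt11 x)
theorem ka_dt5 (x : ℝ) : dt5.kv (-73 / 1609) x = (-2854081 / 50000000) := by
  simp only [dt5, DT.kv, sl5, sv5]
  ((try push_cast); ring1)
theorem kb_dt5 (x : ℝ) : dt5.kv (73 / 1609) x = (2854081 / 50000000) := by
  simp only [dt5, DT.kv, sl5, sv5]
  ((try push_cast); ring1)
theorem ka_dt6 (x : ℝ) : dt6.kv (73 / 1609) x = (2854081 / 50000000) := by
  simp only [dt6, DT.kv, sw6, sl6, sv6]
  ((try push_cast); ring1)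
theorem kb_dt6 (x : ℝ) : dt6.kv (311 / 1898) x = (3198611 / 25000000 + (x - 15 / 32) * (1034643 / 5000000)) := by
  simp only [dt6, DT.kv, sw6, sl6, sv6]
  ((try push_cast); ring1)
theorem ka_dt13 (x : ℝ) : dt13.kv (-73 / 1609) x = (-2854081 / 50000000) :=
  (DT.kv_le (by simp only [Cn.rt_v, Cn.ng_v]; norm_num)).trans (ka_dt5 x)
theorem kb_dt13 (x : ℝ) : dt13.kv (311 / 1898) x = (3198611 / 25000000 + (x - 15 / 32) * (1034643 / 5000000)) :=
  (DT.kv_gt (by simp only [Cn.rt_v, Cn.ng_v]; norm_num)).trans (kb_dt6 x)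
theorem ka_dt7 (x : ℝ) : dt7.kv (311 / 1898) x = (3198611 / 25000000 + (x - 15 / 32) * (1034643 / 5000000)) := by
  simp only [dt7, DT.kv, sw7, sl7, sv7]
  ((try push_cast); ring1)
theorem kb_dt7 (x : ℝ) : dt7.kv (1 / 4) x = (7367867 / 50000000 + (x - 15 / 32) * (6147551 / 10000000)) := by
  simp only [dt7, DT.kv, sw7, sl7, sv7]
  ((try push_cast); ring1)
theorem ka_dt8 (x : ℝ) : dt8.kv (1 / 4) x = (7367867 / 50000000 + (x - 15 / 32) * (6147551 / 10000000)) := by
  simp only [dt8, DT.kv, sw8, sl8, sv8]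
  ((try push_cast); ring1)
theorem kb_dt8 (x : ℝ) : dt8.kv (7 / 20) x = (19831267 / 100000000 + (x - 15 / 32) * (2427209 / 2000000)) := by
  simp only [dt8, DT.kv, sw8, sl8, sv8]
  ((try push_cast); ring1)
theorem ka_dt9 (x : ℝ) : dt9.kv (7 / 20) x = (19831267 / 100000000 + (x - 15 / 32) * (2427209 / 2000000)) := by
  simp only [dt9, DT.kv, sw9, sl9, sv9]
  ((try push_cast); ring1)
theorem kb_dt9 (x : ℝ) : dt9.kv (1 / 2) x = (172829 / 625000 + (x - 15 / 32) * (15509047 / 10000000)) := by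
  simp only [dt9, DT.kv, sw9, sl9, sv9]
  ((try push_cast); ring1)
theorem ka_dt14 (x : ℝ) : dt14.kv (1 / 4) x = (7367867 / 50000000 + (x - 15 / 32) * (6147551 / 10000000)) :=
  (DT.kv_le (by simp only [Cn.rt_v, Cn.ng_v]; norm_num)).trans (ka_dt8 x)
theorem kb_dt14 (x : ℝ) : dt14.kv (1 / 2) x = (172829 / 625000 + (x - 15 / 32) * (15509047 / 10000000)) :=
  (DT.kv_gt (by simp only [Cn.rt_v, Cn.ng_v]; norm_num)).trans (kb_dt9 x)
theorem ka_dt15 (x : ℝ) : dt15.kv (311 / 1898) x = (3198611 / 25000000 + (x - 15 / 32) * (1034643 / 5000000)) :=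
  (DT.kv_le (by simp only [Cn.rt_v, Cn.ng_v]; norm_num)).trans (ka_dt7 x)
theorem kb_dt15 (x : ℝ) : dt15.kv (1 / 2) x = (172829 / 625000 + (x - 15 / 32) * (15509047 / 10000000)) :=
  (DT.kv_gt (by simp only [Cn.rt_v, Cn.ng_v]; norm_num)).trans (kb_dt14 x)
theorem ka_dt16 (x : ℝ) : dt16.kv (-73 / 1609) x = (-2854081 / 50000000) :=
  (DT.kv_le (by simp only [Cn.rt_v, Cn.ng_v]; norm_num)).trans (ka_dt13 x)
theorem kb_dt16 (x : ℝ) : dt16.kv (1 / 2) x = (172829 / 625000 + (x - 15 / 32) * (15509047 / 10000000)) :=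
  (DT.kv_gt (by simp only [Cn.rt_v, Cn.ng_v]; norm_num)).trans (kb_dt15 x)
theorem ka_dt17 (x : ℝ) : dt17.kv (-1 / 2) x = (-172829 / 625000 + (x - 15 / 32) * (-15509047 / 10000000)) :=
  (DT.kv_le (by simp only [Cn.rt_v, Cn.ng_v]; norm_num)).trans (ka_dt12 x)
theorem kb_dt17 (x : ℝ) : dt17.kv (1 / 2) x = (172829 / 625000 + (x - 15 / 32) * (15509047 / 10000000)) :=
  (DT.kv_gt (by simp only [Cn.rt_v, Cn.ng_v]; norm_num)).trans (kb_dt16 x)
theorem ko_dt1 (x : ℝ) : dt1.KOk x := trivial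
theorem ko_dt2 (x : ℝ) : dt2.KOk x := trivial
theorem ko_dt10 (x : ℝ) : dt10.KOk x :=
  DT.kOk_node (v := -7 / 20) (by simp only [Cn.rt_v, Cn.ng_v]; norm_num) (kb_dt1 x) (ka_dt2 x) (by ring1) (ko_dt1 x) (ko_dt2 x)
theorem ko_dt3 (x : ℝ) : dt3.KOk x := trivial
theorem ko_dt4 (x : ℝ) : dt4.KOk x := trivial
theorem ko_dt11 (x : ℝ) : dt11.KOk x :=
  DT.kOk_node (v := -311 / 1898) (by simp only [Cn.rt_v, Cn.ng_v]; norm_num) (kb_dt3 x) (ka_dt4 x) (by ring1) (ko_dt3 x) (ko_dt4 x)
theorem ko_dt12 (x : ℝ) : dt12.KOk x :=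
  DT.kOk_node (v := -1 / 4) (by simp only [Cn.rt_v, Cn.ng_v]; norm_num) (kb_dt10 x) (ka_dt11 x) (by ring1) (ko_dt10 x) (ko_dt11 x)
theorem ko_dt5 (x : ℝ) : dt5.KOk x := trivial
theorem ko_dt6 (x : ℝ) : dt6.KOk x := trivial
theorem ko_dt13 (x : ℝ) : dt13.KOk x :=
  DT.kOk_node (v := 73 / 1609) (by simp only [Cn.rt_v, Cn.ng_v]; norm_num) (kb_dt5 x) (ka_dt6 x) (by ring1) (ko_dt5 x) (ko_dt6 x)
theorem ko_dt7 (x : ℝ) : dt7.KOk x := trivial
theorem ko_dt8 (x : ℝ) : dt8.KOk x := trivial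
theorem ko_dt9 (x : ℝ) : dt9.KOk x := trivial
theorem ko_dt14 (x : ℝ) : dt14.KOk x :=
  DT.kOk_node (v := 7 / 20) (by simp only [Cn.rt_v, Cn.ng_v]; norm_num) (kb_dt8 x) (ka_dt9 x) (by ring1) (ko_dt8 x) (ko_dt9 x)
theorem ko_dt15 (x : ℝ) : dt15.KOk x :=
  DT.kOk_node (v := 1 / 4) (by simp only [Cn.rt_v, Cn.ng_v]; norm_num) (kb_dt7 x) (ka_dt14 x) (by ring1) (ko_dt7 x) (ko_dt14 x)
theorem ko_dt16 (x : ℝ) : dt16.KOk x :=
  DT.kOk_node (v := 311 / 1898) (by simp only [Cn.rt_v, Cn.ng_v]; norm_num) (kb_dt13 x) (ka_dt15 x) (by ring1) (ko_dt13 x) (ko_dt15 x)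
theorem ko_dt17 (x : ℝ) : dt17.KOk x :=
  DT.kOk_node (v := -73 / 1609) (by simp only [Cn.rt_v, Cn.ng_v]; norm_num) (kb_dt12 x) (ka_dt16 x) (by ring1) (ko_dt12 x) (ko_dt16 x)
theorem txl0 {p c x : ℝ} (h1 : -1 / 2 ≤ p) (h2 : p ≤ -43 / 100) : txg.v p c x = dt48.val (fun p x => kcg.v p x) p c x := by
  symm
  refine (DT.val_le (by simp only [Cn.rt_v, Cn.ng_v]; push_cast; linarith)).trans ?_
  refine (DT.val_le (by simp only [Cn.rt_v, Cn.ng_v]; push_cast; linarith)).trans ?_
  refine (DT.val_le (by simp only [Cn.rt_v, Cn.ng_v]; push_cast; linarith)).trans ?_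
  refine (DT.val_le (by simp only [Cn.rt_v, Cn.ng_v]; push_cast; linarith)).trans ?_
  simp only [dt18, DT.val, cloR, sw18, sl18, sv18, txg, txg_4, txg_6, txg_27, txg_30, txg_75, txg_97, txg_151, txg_153, txg_155, txg_157, txg_196, txg_216, txg_259, txg_261, txg_306, txg_326]
  rcases eq_or_lt_of_le h1 with h | h1
  · subst h
    ((try push_cast); (repeat first | rw [if_pos (by linarith)] | rw [if_neg (by linarith)] | erw [if_pos (by linarith)] | erw [if_neg (by linarith)]); (try push_cast); (try ring1))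
  rcases eq_or_lt_of_le h2 with h | h2
  · subst h
    ((try push_cast); (repeat first | rw [if_pos (by linarith)] | rw [if_neg (by linarith)] | erw [if_pos (by linarith)] | erw [if_neg (by linarith)]); (try push_cast); (try ring1))
  · ((try push_cast); (repeat first | rw [if_pos (by linarith)] | rw [if_neg (by linarith)] | erw [if_pos (by linarith)] | erw [if_neg (by linarith)]); (try push_cast); (try ring1))
theorem txl1 {p c x : ℝ} (h1 : -43 / 100 < p) (h2 : p ≤ -9 / 25) : txg.v p c x = dt48.val (fun p x => kcg.v p x) p c x := by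
  symm
  refine (DT.val_le (by simp only [Cn.rt_v, Cn.ng_v]; push_cast; linarith)).trans ?_
  refine (DT.val_le (by simp only [Cn.rt_v, Cn.ng_v]; push_cast; linarith)).trans ?_
  refine (DT.val_le (by simp only [Cn.rt_v, Cn.ng_v]; push_cast; linarith)).trans ?_
  refine (DT.val_gt (by simp only [Cn.rt_v, Cn.ng_v]; push_cast; linarith)).trans ?_
  simp only [dt19, DT.val, cloR, sw19, sl19, sv19, txg, txg_4, txg_6, txg_27, txg_30, txg_75, txg_97, txg_151, txg_153, txg_155, txg_157, txg_196, txg_216, txg_259, txg_261, txg_306, txg_326]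
  rcases eq_or_lt_of_le h2 with h | h2
  · subst h
    ((try push_cast); (repeat first | rw [if_pos (by linarith)] | rw [if_neg (by linarith)] | erw [if_pos (by linarith)] | erw [if_neg (by linarith)]); (try push_cast); (try ring1))
  · ((try push_cast); (repeat first | rw [if_pos (by linarith)] | rw [if_neg (by linarith)] | erw [if_pos (by linarith)] | erw [if_neg (by linarith)]); (try push_cast); (try ring1))
theorem txl2 {p c x : ℝ} (h1 : -9 / 25 < p) (h2 : p ≤ -3 / 10) : txg.v p c x = dt48.val (fun p x => kcg.v p x) p c x := by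
  symm
  refine (DT.val_le (by simp only [Cn.rt_v, Cn.ng_v]; push_cast; linarith)).trans ?_
  refine (DT.val_le (by simp only [Cn.rt_v, Cn.ng_v]; push_cast; linarith)).trans ?_
  refine (DT.val_gt (by simp only [Cn.rt_v, Cn.ng_v]; push_cast; linarith)).trans ?_
  refine (DT.val_le (by simp only [Cn.rt_v, Cn.ng_v]; push_cast; linarith)).trans ?_
  simp only [dt20, DT.val, cloR, sw20, sl20, sv20, txg, txg_4, txg_6, txg_27, txg_30, txg_75, txg_97, txg_151, txg_153, txg_155, txg_157, txg_196, txg_216, txg_259, txg_261, txg_306, txg_326]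
  rcases eq_or_lt_of_le h2 with h | h2
  · subst h
    ((try push_cast); (repeat first | rw [if_pos (by linarith)] | rw [if_neg (by linarith)] | erw [if_pos (by linarith)] | erw [if_neg (by linarith)]); (try push_cast); (try ring1))
  · ((try push_cast); (repeat first | rw [if_pos (by linarith)] | rw [if_neg (by linarith)] | erw [if_pos (by linarith)] | erw [if_neg (by linarith)]); (try push_cast); (try ring1))
theorem txl3 {p c x : ℝ} (h1 : -3 / 10 < p) (h2 : p ≤ -23 / 100) : txg.v p c x = dt48.val (fun p x => kcg.v p x) p c x := by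
  symm
  refine (DT.val_le (by simp only [Cn.rt_v, Cn.ng_v]; push_cast; linarith)).trans ?_
  refine (DT.val_le (by simp only [Cn.rt_v, Cn.ng_v]; push_cast; linarith)).trans ?_
  refine (DT.val_gt (by simp only [Cn.rt_v, Cn.ng_v]; push_cast; linarith)).trans ?_
  refine (DT.val_gt (by simp only [Cn.rt_v, Cn.ng_v]; push_cast; linarith)).trans ?_
  simp only [dt21, DT.val, cloR, sw21, sl21, sv21, txg, txg_4, txg_6, txg_27, txg_30, txg_75, txg_97, txg_151, txg_153, txg_155, txg_157, txg_196, txg_216, txg_259, txg_261, txg_306, txg_326]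
  rcases eq_or_lt_of_le h2 with h | h2
  · subst h
    ((try push_cast); (repeat first | rw [if_pos (by linarith)] | rw [if_neg (by linarith)] | erw [if_pos (by linarith)] | erw [if_neg (by linarith)]); (try push_cast); (try ring1))
  · ((try push_cast); (repeat first | rw [if_pos (by linarith)] | rw [if_neg (by linarith)] | erw [if_pos (by linarith)] | erw [if_neg (by linarith)]); (try push_cast); (try ring1))
theorem txl4 {p c x : ℝ} (h1 : -23 / 100 < p) (h2 : p ≤ -311 / 1898) : txg.v p c x = dt48.val (fun p x => kcg.v p x) p c x := by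
  symm
  refine (DT.val_le (by simp only [Cn.rt_v, Cn.ng_v]; push_cast; linarith)).trans ?_
  refine (DT.val_gt (by simp only [Cn.rt_v, Cn.ng_v]; push_cast; linarith)).trans ?_
  refine (DT.val_le (by simp only [Cn.rt_v, Cn.ng_v]; push_cast; linarith)).trans ?_
  refine (DT.val_le (by simp only [Cn.rt_v, Cn.ng_v]; push_cast; linarith)).trans ?_
  simp only [dt22, DT.val, cloR, sw22, sl22, sl22_2, sv22, sv22_2, txg, txg_4, txg_6, txg_27, txg_30, txg_75, txg_97, txg_151, txg_153, txg_155, txg_157, txg_196, txg_216, txg_259, txg_261, txg_306, txg_326]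
  rcases eq_or_lt_of_le h2 with h | h2
  · subst h
    ((try push_cast); (repeat first | rw [if_pos (by linarith)] | rw [if_neg (by linarith)] | erw [if_pos (by linarith)] | erw [if_neg (by linarith)]); (try push_cast); (try ring1))
  · ((try push_cast); (repeat first | rw [if_pos (by linarith)] | rw [if_neg (by linarith)] | erw [if_pos (by linarith)] | erw [if_neg (by linarith)]); (try push_cast); (try ring1))
theorem txl5 {p c x : ℝ} (h1 : -311 / 1898 < p) (h2 : p ≤ -73 / 1609) : txg.v p c x = dt48.val (fun p x => kcg.v p x) p c x := by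
  symm
  refine (DT.val_le (by simp only [Cn.rt_v, Cn.ng_v]; push_cast; linarith)).trans ?_
  refine (DT.val_gt (by simp only [Cn.rt_v, Cn.ng_v]; push_cast; linarith)).trans ?_
  refine (DT.val_le (by simp only [Cn.rt_v, Cn.ng_v]; push_cast; linarith)).trans ?_
  refine (DT.val_gt (by simp only [Cn.rt_v, Cn.ng_v]; push_cast; linarith)).trans ?_
  simp only [dt23, DT.val, cloR, txg, txg_4, txg_6, txg_27, txg_30, txg_75, txg_97, txg_151, txg_153, txg_155, txg_157, txg_196, txg_216, txg_259, txg_261, txg_306, txg_326]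
  rcases eq_or_lt_of_le h2 with h | h2
  · subst h
    ((try push_cast); (repeat first | rw [if_pos (by linarith)] | rw [if_neg (by linarith)] | erw [if_pos (by linarith)] | erw [if_neg (by linarith)]); (try push_cast); (try ring1))
  · ((try push_cast); (repeat first | rw [if_pos (by linarith)] | rw [if_neg (by linarith)] | erw [if_pos (by linarith)] | erw [if_neg (by linarith)]); (try push_cast); (try ring1))
theorem txl6 {p c x : ℝ} (h1 : -73 / 1609 < p) (h2 : p ≤ -1 / 40) : txg.v p c x = dt48.val (fun p x => kcg.v p x) p c x := by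
  symm
  refine (DT.val_le (by simp only [Cn.rt_v, Cn.ng_v]; push_cast; linarith)).trans ?_
  refine (DT.val_gt (by simp only [Cn.rt_v, Cn.ng_v]; push_cast; linarith)).trans ?_
  refine (DT.val_gt (by simp only [Cn.rt_v, Cn.ng_v]; push_cast; linarith)).trans ?_
  refine (DT.val_le (by simp only [Cn.rt_v, Cn.ng_v]; push_cast; linarith)).trans ?_
  simp only [dt24, DT.val, cloR, sw24, sl24, sv24, txg, txg_4, txg_6, txg_27, txg_30, txg_75, txg_97, txg_151, txg_153, txg_155, txg_157, txg_196, txg_216, txg_259, txg_261, txg_306, txg_326]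
  rcases eq_or_lt_of_le h2 with h | h2
  · subst h
    ((try push_cast); (repeat first | rw [if_pos (by linarith)] | rw [if_neg (by linarith)] | erw [if_pos (by linarith)] | erw [if_neg (by linarith)]); (try push_cast); (try ring1))
  · ((try push_cast); (repeat first | rw [if_pos (by linarith)] | rw [if_neg (by linarith)] | erw [if_pos (by linarith)] | erw [if_neg (by linarith)]); (try push_cast); (try ring1))
theorem txl7 {p c x : ℝ} (h1 : -1 / 40 < p) (h2 : p ≤ 1 / 40) : txg.v p c x = dt48.val (fun p x => kcg.v p x) p c x := by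
  symm
  refine (DT.val_le (by simp only [Cn.rt_v, Cn.ng_v]; push_cast; linarith)).trans ?_
  refine (DT.val_gt (by simp only [Cn.rt_v, Cn.ng_v]; push_cast; linarith)).trans ?_
  refine (DT.val_gt (by simp only [Cn.rt_v, Cn.ng_v]; push_cast; linarith)).trans ?_
  refine (DT.val_gt (by simp only [Cn.rt_v, Cn.ng_v]; push_cast; linarith)).trans ?_
  simp only [dt25, DT.val, cloR, sw25, sl25, sv25, txg, txg_4, txg_6, txg_27, txg_30, txg_75, txg_97, txg_151, txg_153, txg_155, txg_157, txg_196, txg_216, txg_259, txg_261, txg_306, txg_326]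
  rcases eq_or_lt_of_le h2 with h | h2
  · subst h
    ((try push_cast); (repeat first | rw [if_pos (by linarith)] | rw [if_neg (by linarith)] | erw [if_pos (by linarith)] | erw [if_neg (by linarith)]); (try push_cast); (try ring1))
  · ((try push_cast); (repeat first | rw [if_pos (by linarith)] | rw [if_neg (by linarith)] | erw [if_pos (by linarith)] | erw [if_neg (by linarith)]); (try push_cast); (try ring1))
theorem txl8 {p c x : ℝ} (h1 : 1 / 40 < p) (h2 : p ≤ 3 / 50) : txg.v p c x = dt48.val (fun p x => kcg.v p x) p c x := by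
  symm
  refine (DT.val_gt (by simp only [Cn.rt_v, Cn.ng_v]; push_cast; linarith)).trans ?_
  refine (DT.val_le (by simp only [Cn.rt_v, Cn.ng_v]; push_cast; linarith)).trans ?_
  refine (DT.val_le (by simp only [Cn.rt_v, Cn.ng_v]; push_cast; linarith)).trans ?_
  refine (DT.val_le (by simp only [Cn.rt_v, Cn.ng_v]; push_cast; linarith)).trans ?_
  simp only [dt26, DT.val, cloR, sw26, sl26, sv26, txg, txg_4, txg_6, txg_27, txg_30, txg_75, txg_97, txg_151, txg_153, txg_155, txg_157, txg_196, txg_216, txg_259, txg_261, txg_306, txg_326]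
  rcases eq_or_lt_of_le h2 with h | h2
  · subst h
    ((try push_cast); (repeat first | rw [if_pos (by linarith)] | rw [if_neg (by linarith)] | erw [if_pos (by linarith)] | erw [if_neg (by linarith)]); (try push_cast); (try ring1))
  · ((try push_cast); (repeat first | rw [if_pos (by linarith)] | rw [if_neg (by linarith)] | erw [if_pos (by linarith)] | erw [if_neg (by linarith)]); (try push_cast); (try ring1))
theorem txl9 {p c x : ℝ} (h1 : 3 / 50 < p) (h2 : p ≤ 1 / 10) : txg.v p c x = dt48.val (fun p x => kcg.v p x) p c x := by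
  symm
  refine (DT.val_gt (by simp only [Cn.rt_v, Cn.ng_v]; push_cast; linarith)).trans ?_
  refine (DT.val_le (by simp only [Cn.rt_v, Cn.ng_v]; push_cast; linarith)).trans ?_
  refine (DT.val_le (by simp only [Cn.rt_v, Cn.ng_v]; push_cast; linarith)).trans ?_
  refine (DT.val_gt (by simp only [Cn.rt_v, Cn.ng_v]; push_cast; linarith)).trans ?_
  simp only [dt27, DT.val, cloR, sw27, sl27, sv27, txg, txg_4, txg_6, txg_27, txg_30, txg_75, txg_97, txg_151, txg_153, txg_155, txg_157, txg_196, txg_216, txg_259, txg_261, txg_306, txg_326]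
  rcases eq_or_lt_of_le h2 with h | h2
  · subst h
    ((try push_cast); (repeat first | rw [if_pos (by linarith)] | rw [if_neg (by linarith)] | erw [if_pos (by linarith)] | erw [if_neg (by linarith)]); (try push_cast); (try ring1))
  · ((try push_cast); (repeat first | rw [if_pos (by linarith)] | rw [if_neg (by linarith)] | erw [if_pos (by linarith)] | erw [if_neg (by linarith)]); (try push_cast); (try ring1))
theorem txl10 {p c x : ℝ} (h1 : 1 / 10 < p) (h2 : p ≤ 3 / 20) : txg.v p c x = dt48.val (fun p x => kcg.v p x) p c x := by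
  symm
  refine (DT.val_gt (by simp only [Cn.rt_v, Cn.ng_v]; push_cast; linarith)).trans ?_
  refine (DT.val_le (by simp only [Cn.rt_v, Cn.ng_v]; push_cast; linarith)).trans ?_
  refine (DT.val_gt (by simp only [Cn.rt_v, Cn.ng_v]; push_cast; linarith)).trans ?_
  refine (DT.val_le (by simp only [Cn.rt_v, Cn.ng_v]; push_cast; linarith)).trans ?_
  simp only [dt28, DT.val, cloR, sw28, sl28, sv28, txg, txg_4, txg_6, txg_27, txg_30, txg_75, txg_97, txg_151, txg_153, txg_155, txg_157, txg_196, txg_216, txg_259, txg_261, txg_306, txg_326]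
  rcases eq_or_lt_of_le h2 with h | h2
  · subst h
    ((try push_cast); (repeat first | rw [if_pos (by linarith)] | rw [if_neg (by linarith)] | erw [if_pos (by linarith)] | erw [if_neg (by linarith)]); (try push_cast); (try ring1))
  · ((try push_cast); (repeat first | rw [if_pos (by linarith)] | rw [if_neg (by linarith)] | erw [if_pos (by linarith)] | erw [if_neg (by linarith)]); (try push_cast); (try ring1))
theorem txl11 {p c x : ℝ} (h1 : 3 / 20 < p) (h2 : p ≤ 1 / 5) : txg.v p c x = dt48.val (fun p x => kcg.v p x) p c x := by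
  symm
  refine (DT.val_gt (by simp only [Cn.rt_v, Cn.ng_v]; push_cast; linarith)).trans ?_
  refine (DT.val_le (by simp only [Cn.rt_v, Cn.ng_v]; push_cast; linarith)).trans ?_
  refine (DT.val_gt (by simp only [Cn.rt_v, Cn.ng_v]; push_cast; linarith)).trans ?_
  refine (DT.val_gt (by simp only [Cn.rt_v, Cn.ng_v]; push_cast; linarith)).trans ?_
  simp only [dt29, DT.val, cloR, sw29, sl29, sv29, txg, txg_4, txg_6, txg_27, txg_30, txg_75, txg_97, txg_151, txg_153, txg_155, txg_157, txg_196, txg_216, txg_259, txg_261, txg_306, txg_326]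
  rcases eq_or_lt_of_le h2 with h | h2
  · subst h
    ((try push_cast); (repeat first | rw [if_pos (by linarith)] | rw [if_neg (by linarith)] | erw [if_pos (by linarith)] | erw [if_neg (by linarith)]); (try push_cast); (try ring1))
  · ((try push_cast); (repeat first | rw [if_pos (by linarith)] | rw [if_neg (by linarith)] | erw [if_pos (by linarith)] | erw [if_neg (by linarith)]); (try push_cast); (try ring1))
theorem txl12 {p c x : ℝ} (h1 : 1 / 5 < p) (h2 : p ≤ 13 / 50) : txg.v p c x = dt48.val (fun p x => kcg.v p x) p c x := by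
  symm
  refine (DT.val_gt (by simp only [Cn.rt_v, Cn.ng_v]; push_cast; linarith)).trans ?_
  refine (DT.val_gt (by simp only [Cn.rt_v, Cn.ng_v]; push_cast; linarith)).trans ?_
  refine (DT.val_le (by simp only [Cn.rt_v, Cn.ng_v]; push_cast; linarith)).trans ?_
  refine (DT.val_le (by simp only [Cn.rt_v, Cn.ng_v]; push_cast; linarith)).trans ?_
  simp only [dt30, DT.val, cloR, sw30, sl30, sv30, txg, txg_4, txg_6, txg_27, txg_30, txg_75, txg_97, txg_151, txg_153, txg_155, txg_157, txg_196, txg_216, txg_259, txg_261, txg_306, txg_326]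
  rcases eq_or_lt_of_le h2 with h | h2
  · subst h
    ((try push_cast); (repeat first | rw [if_pos (by linarith)] | rw [if_neg (by linarith)] | erw [if_pos (by linarith)] | erw [if_neg (by linarith)]); (try push_cast); (try ring1))
  · ((try push_cast); (repeat first | rw [if_pos (by linarith)] | rw [if_neg (by linarith)] | erw [if_pos (by linarith)] | erw [if_neg (by linarith)]); (try push_cast); (try ring1))
theorem txl13 {p c x : ℝ} (h1 : 13 / 50 < p) (h2 : p ≤ 17 / 50) : txg.v p c x = dt48.val (fun p x => kcg.v p x) p c x := by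
  symm
  refine (DT.val_gt (by simp only [Cn.rt_v, Cn.ng_v]; push_cast; linarith)).trans ?_
  refine (DT.val_gt (by simp only [Cn.rt_v, Cn.ng_v]; push_cast; linarith)).trans ?_
  refine (DT.val_le (by simp only [Cn.rt_v, Cn.ng_v]; push_cast; linarith)).trans ?_
  refine (DT.val_gt (by simp only [Cn.rt_v, Cn.ng_v]; push_cast; linarith)).trans ?_
  simp only [dt31, DT.val, cloR, sw31, sl31, sv31, txg, txg_4, txg_6, txg_27, txg_30, txg_75, txg_97, txg_151, txg_153, txg_155, txg_157, txg_196, txg_216, txg_259, txg_261, txg_306, txg_326]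
  rcases eq_or_lt_of_le h2 with h | h2
  · subst h
    ((try push_cast); (repeat first | rw [if_pos (by linarith)] | rw [if_neg (by linarith)] | erw [if_pos (by linarith)] | erw [if_neg (by linarith)]); (try push_cast); (try ring1))
  · ((try push_cast); (repeat first | rw [if_pos (by linarith)] | rw [if_neg (by linarith)] | erw [if_pos (by linarith)] | erw [if_neg (by linarith)]); (try push_cast); (try ring1))
theorem txl14 {p c x : ℝ} (h1 : 17 / 50 < p) (h2 : p ≤ 21 / 50) : txg.v p c x = dt48.val (fun p x => kcg.v p x) p c x := by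
  symm
  refine (DT.val_gt (by simp only [Cn.rt_v, Cn.ng_v]; push_cast; linarith)).trans ?_
  refine (DT.val_gt (by simp only [Cn.rt_v, Cn.ng_v]; push_cast; linarith)).trans ?_
  refine (DT.val_gt (by simp only [Cn.rt_v, Cn.ng_v]; push_cast; linarith)).trans ?_
  refine (DT.val_le (by simp only [Cn.rt_v, Cn.ng_v]; push_cast; linarith)).trans ?_
  simp only [dt32, DT.val, cloR, sw32, sl32, sv32, txg, txg_4, txg_6, txg_27, txg_30, txg_75, txg_97, txg_151, txg_153, txg_155, txg_157, txg_196, txg_216, txg_259, txg_261, txg_306, txg_326]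
  rcases eq_or_lt_of_le h2 with h | h2
  · subst h
    ((try push_cast); (repeat first | rw [if_pos (by linarith)] | rw [if_neg (by linarith)] | erw [if_pos (by linarith)] | erw [if_neg (by linarith)]); (try push_cast); (try ring1))
  · ((try push_cast); (repeat first | rw [if_pos (by linarith)] | rw [if_neg (by linarith)] | erw [if_pos (by linarith)] | erw [if_neg (by linarith)]); (try push_cast); (try ring1))
theorem txl15 {p c x : ℝ} (h1 : 21 / 50 < p) (h2 : p ≤ 1 / 2) : txg.v p c x = dt48.val (fun p x => kcg.v p x) p c x := by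
  symm
  refine (DT.val_gt (by simp only [Cn.rt_v, Cn.ng_v]; push_cast; linarith)).trans ?_
  refine (DT.val_gt (by simp only [Cn.rt_v, Cn.ng_v]; push_cast; linarith)).trans ?_
  refine (DT.val_gt (by simp only [Cn.rt_v, Cn.ng_v]; push_cast; linarith)).trans ?_
  refine (DT.val_gt (by simp only [Cn.rt_v, Cn.ng_v]; push_cast; linarith)).trans ?_
  simp only [dt33, DT.val, cloR, sw33, sl33, sv33, txg, txg_4, txg_6, txg_27, txg_30, txg_75, txg_97, txg_151, txg_153, txg_155, txg_157, txg_196, txg_216, txg_259, txg_261, txg_306, txg_326]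
  rcases eq_or_lt_of_le h2 with h | h2
  · subst h
    ((try push_cast); (repeat first | rw [if_pos (by linarith)] | rw [if_neg (by linarith)] | erw [if_pos (by linarith)] | erw [if_neg (by linarith)]); (try push_cast); (try ring1))
  · ((try push_cast); (repeat first | rw [if_pos (by linarith)] | rw [if_neg (by linarith)] | erw [if_pos (by linarith)] | erw [if_neg (by linarith)]); (try push_cast); (try ring1))
theorem txe {x : ℝ} (p c : ℝ) (h : |p| ≤ 1 / 2) : txg.v p c x = dt48.val (fun p x => kcg.v p x) p c x := by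
  obtain ⟨h1, h2⟩ := abs_le.1 h
  rcases le_or_gt p (-43 / 100) with g0 | g1000
  · exact txl0 (by linarith) g0
  rcases le_or_gt p (-9 / 25) with g1 | g1001
  · exact txl1 g1000 g1
  rcases le_or_gt p (-3 / 10) with g2 | g1002
  · exact txl2 g1001 g2
  rcases le_or_gt p (-23 / 100) with g3 | g1003
  · exact txl3 g1002 g3
  rcases le_or_gt p (-311 / 1898) with g4 | g1004
  · exact txl4 g1003 g4
  rcases le_or_gt p (-73 / 1609) with g5 | g1005
  · exact txl5 g1004 g5
  rcases le_or_gt p (-1 / 40) with g6 | g1006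
  · exact txl6 g1005 g6
  rcases le_or_gt p (1 / 40) with g7 | g1007
  · exact txl7 g1006 g7
  rcases le_or_gt p (3 / 50) with g8 | g1008
  · exact txl8 g1007 g8
  rcases le_or_gt p (1 / 10) with g9 | g1009
  · exact txl9 g1008 g9
  rcases le_or_gt p (3 / 20) with g10 | g1010
  · exact txl10 g1009 g10
  rcases le_or_gt p (1 / 5) with g11 | g1011
  · exact txl11 g1010 g11
  rcases le_or_gt p (13 / 50) with g12 | g1012
  · exact txl12 g1011 g12
  rcases le_or_gt p (17 / 50) with g13 | g1013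
  · exact txl13 g1012 g13
  rcases le_or_gt p (21 / 50) with g14 | g1014
  · exact txl14 g1013 g14
  · exact txl15 g1014 (by linarith)
theorem ta_dt18 (x : ℝ) : dt18.val (fun p x => kcg.v p x) (-1 / 2) (cT (-1 / 2)) x = (0) := by
  simp only [dt18, DT.val, sw18, sl18, sv18]
  ((try push_cast); ring1)
theorem tb_dt18 (x : ℝ) : dt18.val (fun p x => kcg.v p x) (-43 / 100) (cT (-43 / 100)) x = (365477 / 100000000 + (x - 15 / 32) * (41517 / 10000000)) := by
  simp only [dt18, DT.val, sw18, sl18, sv18]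
  ((try push_cast); ring1)
theorem ta_dt19 (x : ℝ) : dt19.val (fun p x => kcg.v p x) (-43 / 100) (cT (-43 / 100)) x = (365477 / 100000000 + (x - 15 / 32) * (41517 / 10000000)) := by
  simp only [dt19, DT.val, sw19, sl19, sv19]
  ((try push_cast); ring1)
theorem tb_dt19 (x : ℝ) : dt19.val (fun p x => kcg.v p x) (-9 / 25) (cT (-9 / 25)) x = (953059 / 100000000 + (x - 15 / 32) * (-5989 / 1250000)) := by
  simp only [dt19, DT.val, sw19, sl19, sv19]
  ((try push_cast); ring1)
theorem ta_dt34 (x : ℝ) : dt34.val (fun p x => kcg.v p x) (-1 / 2) (cT (-1 / 2)) x = (0) :=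
  (DT.val_le (by simp only [Cn.rt_v, Cn.ng_v]; norm_num)).trans (ta_dt18 x)
theorem tb_dt34 (x : ℝ) : dt34.val (fun p x => kcg.v p x) (-9 / 25) (cT (-9 / 25)) x = (953059 / 100000000 + (x - 15 / 32) * (-5989 / 1250000)) :=
  (DT.val_gt (by simp only [Cn.rt_v, Cn.ng_v]; norm_num)).trans (tb_dt19 x)
theorem ta_dt20 (x : ℝ) : dt20.val (fun p x => kcg.v p x) (-9 / 25) (cT (-9 / 25)) x = (953059 / 100000000 + (x - 15 / 32) * (-5989 / 1250000)) := by
  simp only [dt20, DT.val, sw20, sl20, sv20]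
  ((try push_cast); ring1)
theorem tb_dt20 (x : ℝ) : dt20.val (fun p x => kcg.v p x) (-3 / 10) (cT (-3 / 10)) x = (1831061 / 100000000 + (x - 15 / 32) * (-105587 / 10000000)) := by
  simp only [dt20, DT.val, sw20, sl20, sv20]
  ((try push_cast); ring1)
theorem ta_dt21 (x : ℝ) : dt21.val (fun p x => kcg.v p x) (-3 / 10) (cT (-3 / 10)) x = (1831061 / 100000000 + (x - 15 / 32) * (-105587 / 10000000)) := by
  simp only [dt21, DT.val, sw21, sl21, sv21]
  ((try push_cast); ring1)
theorem tb_dt21 (x : ℝ) : dt21.val (fun p x => kcg.v p x) (-23 / 100) (cT (-23 / 100)) x = (3452917 / 100000000 + (x - 15 / 32) * (-71937 / 2500000)) := by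
  simp only [dt21, DT.val, sw21, sl21, sv21]
  ((try push_cast); ring1)
theorem ta_dt35 (x : ℝ) : dt35.val (fun p x => kcg.v p x) (-9 / 25) (cT (-9 / 25)) x = (953059 / 100000000 + (x - 15 / 32) * (-5989 / 1250000)) :=
  (DT.val_le (by simp only [Cn.rt_v, Cn.ng_v]; norm_num)).trans (ta_dt20 x)
theorem tb_dt35 (x : ℝ) : dt35.val (fun p x => kcg.v p x) (-23 / 100) (cT (-23 / 100)) x = (3452917 / 100000000 + (x - 15 / 32) * (-71937 / 2500000)) :=
  (DT.val_gt (by simp only [Cn.rt_v, Cn.ng_v]; norm_num)).trans (tb_dt21 x)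
theorem ta_dt36 (x : ℝ) : dt36.val (fun p x => kcg.v p x) (-1 / 2) (cT (-1 / 2)) x = (0) :=
  (DT.val_le (by simp only [Cn.rt_v, Cn.ng_v]; norm_num)).trans (ta_dt34 x)
theorem tb_dt36 (x : ℝ) : dt36.val (fun p x => kcg.v p x) (-23 / 100) (cT (-23 / 100)) x = (3452917 / 100000000 + (x - 15 / 32) * (-71937 / 2500000)) :=
  (DT.val_gt (by simp only [Cn.rt_v, Cn.ng_v]; norm_num)).trans (tb_dt35 x)
theorem ta_dt22 (x : ℝ) : dt22.val (fun p x => kcg.v p x) (-23 / 100) (cT (-23 / 100)) x = (3452917 / 100000000 + (x - 15 / 32) * (-71937 / 2500000)) := by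
  simp only [dt22, DT.val, sw22, sl22, sl22_2, sv22, sv22_2]
  ((try push_cast); ring1)
theorem tb_dt22 (x : ℝ) : dt22.val (fun p x => kcg.v p x) (-311 / 1898) (1777 / 1898) x = (961452755571 / 18012020000000 + (x - 15 / 32) * (-3532390143909 / 90060100000000) + (x - 15 / 32) ^ 2 * (-34143219 / 593125000)) := by
  simp only [dt22, DT.val, sw22, sl22, sl22_2, sv22, sv22_2]
  ((try push_cast); ring1)
theorem ta_dt23 (x : ℝ) : dt23.val (fun p x => kcg.v p x) (-311 / 1898) (1777 / 1898) x = (961452755571 / 18012020000000 + (x - 15 / 32) * (-3532390143909 / 90060100000000) + (x - 15 / 32) ^ 2 * (-34143219 / 593125000)) := by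
  simp only [dt23, DT.val, cloR, kgA]
  ring1
theorem tb_dt23 (x : ℝ) : dt23.val (fun p x => kcg.v p x) (-73 / 1609) (2857 / 3218) x = (7299387582903 / 82844192000000 + (x - 15 / 32) * (-704958007 / 40225000000)) := by
  simp only [dt23, DT.val, cloR, kgB]
  ring1
theorem ta_dt37 (x : ℝ) : dt37.val (fun p x => kcg.v p x) (-23 / 100) (cT (-23 / 100)) x = (3452917 / 100000000 + (x - 15 / 32) * (-71937 / 2500000)) :=
  (DT.val_le (by simp only [Cn.rt_v, Cn.ng_v]; norm_num)).trans (ta_dt22 x)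
theorem tb_dt37 (x : ℝ) : dt37.val (fun p x => kcg.v p x) (-73 / 1609) (2857 / 3218) x = (7299387582903 / 82844192000000 + (x - 15 / 32) * (-704958007 / 40225000000)) :=
  (DT.val_gt (by simp only [Cn.rt_v, Cn.ng_v]; norm_num)).trans (tb_dt23 x)
theorem ta_dt24 (x : ℝ) : dt24.val (fun p x => kcg.v p x) (-73 / 1609) (2857 / 3218) x = (7299387582903 / 82844192000000 + (x - 15 / 32) * (-704958007 / 40225000000)) := by
  simp only [dt24, DT.val, sw24, sl24, sv24]
  ((try push_cast); ring1)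
theorem tb_dt24 (x : ℝ) : dt24.val (fun p x => kcg.v p x) (-1 / 40) (cT (-1 / 40)) x = (4627983 / 50000000 + (x - 15 / 32) * (-1871 / 156250)) := by
  simp only [dt24, DT.val, sw24, sl24, sv24]
  ((try push_cast); ring1)
theorem ta_dt25 (x : ℝ) : dt25.val (fun p x => kcg.v p x) (-1 / 40) (cT (-1 / 40)) x = (4627983 / 50000000 + (x - 15 / 32) * (-1871 / 156250)) := by
  simp only [dt25, DT.val, sw25, sl25, sv25]
  ((try push_cast); ring1)
theorem tb_dt25 (x : ℝ) : dt25.val (fun p x => kcg.v p x) (1 / 40) (cT (1 / 40)) x = (4647719 / 50000000 + (x - 15 / 32) * (54489 / 5000000)) := by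
  simp only [dt25, DT.val, sw25, sl25, sv25]
  ((try push_cast); ring1)
theorem ta_dt38 (x : ℝ) : dt38.val (fun p x => kcg.v p x) (-73 / 1609) (2857 / 3218) x = (7299387582903 / 82844192000000 + (x - 15 / 32) * (-704958007 / 40225000000)) :=
  (DT.val_le (by simp only [Cn.rt_v, Cn.ng_v]; norm_num)).trans (ta_dt24 x)
theorem tb_dt38 (x : ℝ) : dt38.val (fun p x => kcg.v p x) (1 / 40) (cT (1 / 40)) x = (4647719 / 50000000 + (x - 15 / 32) * (54489 / 5000000)) :=
  (DT.val_gt (by simp only [Cn.rt_v, Cn.ng_v]; norm_num)).trans (tb_dt25 x)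
theorem ta_dt39 (x : ℝ) : dt39.val (fun p x => kcg.v p x) (-23 / 100) (cT (-23 / 100)) x = (3452917 / 100000000 + (x - 15 / 32) * (-71937 / 2500000)) :=
  (DT.val_le (by simp only [Cn.rt_v, Cn.ng_v]; norm_num)).trans (ta_dt37 x)
theorem tb_dt39 (x : ℝ) : dt39.val (fun p x => kcg.v p x) (1 / 40) (cT (1 / 40)) x = (4647719 / 50000000 + (x - 15 / 32) * (54489 / 5000000)) :=
  (DT.val_gt (by simp only [Cn.rt_v, Cn.ng_v]; norm_num)).trans (tb_dt38 x)
theorem ta_dt40 (x : ℝ) : dt40.val (fun p x => kcg.v p x) (-1 / 2) (cT (-1 / 2)) x = (0) :=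
  (DT.val_le (by simp only [Cn.rt_v, Cn.ng_v]; norm_num)).trans (ta_dt36 x)
theorem tb_dt40 (x : ℝ) : dt40.val (fun p x => kcg.v p x) (1 / 40) (cT (1 / 40)) x = (4647719 / 50000000 + (x - 15 / 32) * (54489 / 5000000)) :=
  (DT.val_gt (by simp only [Cn.rt_v, Cn.ng_v]; norm_num)).trans (tb_dt39 x)
theorem ta_dt26 (x : ℝ) : dt26.val (fun p x => kcg.v p x) (1 / 40) (cT (1 / 40)) x = (4647719 / 50000000 + (x - 15 / 32) * (54489 / 5000000)) := by
  simp only [dt26, DT.val, sw26, sl26, sv26]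
  ((try push_cast); ring1)
theorem tb_dt26 (x : ℝ) : dt26.val (fun p x => kcg.v p x) (3 / 50) (cT (3 / 50)) x = (4286631 / 50000000 + (x - 15 / 32) * (303601 / 10000000)) := by
  simp only [dt26, DT.val, sw26, sl26, sv26]
  ((try push_cast); ring1)
theorem ta_dt27 (x : ℝ) : dt27.val (fun p x => kcg.v p x) (3 / 50) (cT (3 / 50)) x = (4286631 / 50000000 + (x - 15 / 32) * (303601 / 10000000)) := by
  simp only [dt27, DT.val, sw27, sl27, sv27]
  ((try push_cast); ring1)
theorem tb_dt27 (x : ℝ) : dt27.val (fun p x => kcg.v p x) (1 / 10) (cT (1 / 10)) x = (1896709 / 25000000 + (x - 15 / 32) * (527157 / 10000000)) := by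
  simp only [dt27, DT.val, sw27, sl27, sv27]
  ((try push_cast); ring1)
theorem ta_dt41 (x : ℝ) : dt41.val (fun p x => kcg.v p x) (1 / 40) (cT (1 / 40)) x = (4647719 / 50000000 + (x - 15 / 32) * (54489 / 5000000)) :=
  (DT.val_le (by simp only [Cn.rt_v, Cn.ng_v]; norm_num)).trans (ta_dt26 x)
theorem tb_dt41 (x : ℝ) : dt41.val (fun p x => kcg.v p x) (1 / 10) (cT (1 / 10)) x = (1896709 / 25000000 + (x - 15 / 32) * (527157 / 10000000)) :=
  (DT.val_gt (by simp only [Cn.rt_v, Cn.ng_v]; norm_num)).trans (tb_dt27 x)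
theorem ta_dt28 (x : ℝ) : dt28.val (fun p x => kcg.v p x) (1 / 10) (cT (1 / 10)) x = (1896709 / 25000000 + (x - 15 / 32) * (527157 / 10000000)) := by
  simp only [dt28, DT.val, sw28, sl28, sv28]
  ((try push_cast); ring1)
theorem tb_dt28 (x : ℝ) : dt28.val (fun p x => kcg.v p x) (3 / 20) (cT (3 / 20)) x = (6303191 / 100000000 + (x - 15 / 32) * (225627 / 2500000)) := by
  simp only [dt28, DT.val, sw28, sl28, sv28]
  ((try push_cast); ring1)
theorem ta_dt29 (x : ℝ) : dt29.val (fun p x => kcg.v p x) (3 / 20) (cT (3 / 20)) x = (6303191 / 100000000 + (x - 15 / 32) * (225627 / 2500000)) := by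
  simp only [dt29, DT.val, sw29, sl29, sv29]
  ((try push_cast); ring1)
theorem tb_dt29 (x : ℝ) : dt29.val (fun p x => kcg.v p x) (1 / 5) (cT (1 / 5)) x = (2535943 / 50000000 + (x - 15 / 32) * (1290153 / 10000000)) := by
  simp only [dt29, DT.val, sw29, sl29, sv29]
  ((try push_cast); ring1)
theorem ta_dt42 (x : ℝ) : dt42.val (fun p x => kcg.v p x) (1 / 10) (cT (1 / 10)) x = (1896709 / 25000000 + (x - 15 / 32) * (527157 / 10000000)) :=
  (DT.val_le (by simp only [Cn.rt_v, Cn.ng_v]; norm_num)).trans (ta_dt28 x)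
theorem tb_dt42 (x : ℝ) : dt42.val (fun p x => kcg.v p x) (1 / 5) (cT (1 / 5)) x = (2535943 / 50000000 + (x - 15 / 32) * (1290153 / 10000000)) :=
  (DT.val_gt (by simp only [Cn.rt_v, Cn.ng_v]; norm_num)).trans (tb_dt29 x)
theorem ta_dt43 (x : ℝ) : dt43.val (fun p x => kcg.v p x) (1 / 40) (cT (1 / 40)) x = (4647719 / 50000000 + (x - 15 / 32) * (54489 / 5000000)) :=
  (DT.val_le (by simp only [Cn.rt_v, Cn.ng_v]; norm_num)).trans (ta_dt41 x)
theorem tb_dt43 (x : ℝ) : dt43.val (fun p x => kcg.v p x) (1 / 5) (cT (1 / 5)) x = (2535943 / 50000000 + (x - 15 / 32) * (1290153 / 10000000)) :=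
  (DT.val_gt (by simp only [Cn.rt_v, Cn.ng_v]; norm_num)).trans (tb_dt42 x)
theorem ta_dt30 (x : ℝ) : dt30.val (fun p x => kcg.v p x) (1 / 5) (cT (1 / 5)) x = (2535943 / 50000000 + (x - 15 / 32) * (1290153 / 10000000)) := by
  simp only [dt30, DT.val, sw30, sl30, sv30]
  ((try push_cast); ring1)
theorem tb_dt30 (x : ℝ) : dt30.val (fun p x => kcg.v p x) (13 / 50) (cT (13 / 50)) x = (187213 / 5000000 + (x - 15 / 32) * (889571 / 5000000)) := by
  simp only [dt30, DT.val, sw30, sl30, sv30]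
  ((try push_cast); ring1)
theorem ta_dt31 (x : ℝ) : dt31.val (fun p x => kcg.v p x) (13 / 50) (cT (13 / 50)) x = (187213 / 5000000 + (x - 15 / 32) * (889571 / 5000000)) := by
  simp only [dt31, DT.val, sw31, sl31, sv31]
  ((try push_cast); ring1)
theorem tb_dt31 (x : ℝ) : dt31.val (fun p x => kcg.v p x) (17 / 50) (cT (17 / 50)) x = (274637 / 12500000 + (x - 15 / 32) * (914027 / 5000000)) := by
  simp only [dt31, DT.val, sw31, sl31, sv31]
  ((try push_cast); ring1)
theorem ta_dt44 (x : ℝ) : dt44.val (fun p x => kcg.v p x) (1 / 5) (cT (1 / 5)) x = (2535943 / 50000000 + (x - 15 / 32) * (1290153 / 10000000)) :=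
  (DT.val_le (by simp only [Cn.rt_v, Cn.ng_v]; norm_num)).trans (ta_dt30 x)
theorem tb_dt44 (x : ℝ) : dt44.val (fun p x => kcg.v p x) (17 / 50) (cT (17 / 50)) x = (274637 / 12500000 + (x - 15 / 32) * (914027 / 5000000)) :=
  (DT.val_gt (by simp only [Cn.rt_v, Cn.ng_v]; norm_num)).trans (tb_dt31 x)
theorem ta_dt32 (x : ℝ) : dt32.val (fun p x => kcg.v p x) (17 / 50) (cT (17 / 50)) x = (274637 / 12500000 + (x - 15 / 32) * (914027 / 5000000)) := by
  simp only [dt32, DT.val, sw32, sl32, sv32]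
  ((try push_cast); ring1)
theorem tb_dt32 (x : ℝ) : dt32.val (fun p x => kcg.v p x) (21 / 50) (cT (21 / 50)) x = (228367 / 25000000 + (x - 15 / 32) * (68733 / 625000)) := by
  simp only [dt32, DT.val, sw32, sl32, sv32]
  ((try push_cast); ring1)
theorem ta_dt33 (x : ℝ) : dt33.val (fun p x => kcg.v p x) (21 / 50) (cT (21 / 50)) x = (228367 / 25000000 + (x - 15 / 32) * (68733 / 625000)) := by
  simp only [dt33, DT.val, sw33, sl33, sv33]
  ((try push_cast); ring1)
theorem tb_dt33 (x : ℝ) : dt33.val (fun p x => kcg.v p x) (1 / 2) (cT (1 / 2)) x = (0) := by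
  simp only [dt33, DT.val, sw33, sl33, sv33]
  ((try push_cast); ring1)
theorem ta_dt45 (x : ℝ) : dt45.val (fun p x => kcg.v p x) (17 / 50) (cT (17 / 50)) x = (274637 / 12500000 + (x - 15 / 32) * (914027 / 5000000)) :=
  (DT.val_le (by simp only [Cn.rt_v, Cn.ng_v]; norm_num)).trans (ta_dt32 x)
theorem tb_dt45 (x : ℝ) : dt45.val (fun p x => kcg.v p x) (1 / 2) (cT (1 / 2)) x = (0) :=
  (DT.val_gt (by simp only [Cn.rt_v, Cn.ng_v]; norm_num)).trans (tb_dt33 x)
theorem ta_dt46 (x : ℝ) : dt46.val (fun p x => kcg.v p x) (1 / 5) (cT (1 / 5)) x = (2535943 / 50000000 + (x - 15 / 32) * (1290153 / 10000000)) :=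
  (DT.val_le (by simp only [Cn.rt_v, Cn.ng_v]; norm_num)).trans (ta_dt44 x)
theorem tb_dt46 (x : ℝ) : dt46.val (fun p x => kcg.v p x) (1 / 2) (cT (1 / 2)) x = (0) :=
  (DT.val_gt (by simp only [Cn.rt_v, Cn.ng_v]; norm_num)).trans (tb_dt45 x)
theorem ta_dt47 (x : ℝ) : dt47.val (fun p x => kcg.v p x) (1 / 40) (cT (1 / 40)) x = (4647719 / 50000000 + (x - 15 / 32) * (54489 / 5000000)) :=
  (DT.val_le (by simp only [Cn.rt_v, Cn.ng_v]; norm_num)).trans (ta_dt43 x)
theorem tb_dt47 (x : ℝ) : dt47.val (fun p x => kcg.v p x) (1 / 2) (cT (1 / 2)) x = (0) :=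
  (DT.val_gt (by simp only [Cn.rt_v, Cn.ng_v]; norm_num)).trans (tb_dt46 x)
theorem ta_dt48 (x : ℝ) : dt48.val (fun p x => kcg.v p x) (-1 / 2) (cT (-1 / 2)) x = (0) :=
  (DT.val_le (by simp only [Cn.rt_v, Cn.ng_v]; norm_num)).trans (ta_dt40 x)
theorem tb_dt48 (x : ℝ) : dt48.val (fun p x => kcg.v p x) (1 / 2) (cT (1 / 2)) x = (0) :=
  (DT.val_gt (by simp only [Cn.rt_v, Cn.ng_v]; norm_num)).trans (tb_dt47 x)
theorem to_dt18 (x : ℝ) : dt18.Ok (fun p x => kcg.v p x) x := trivial
theorem to_dt19 (x : ℝ) : dt19.Ok (fun p x => kcg.v p x) x := trivial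
theorem to_dt34 (x : ℝ) : dt34.Ok (fun p x => kcg.v p x) x :=
  DT.ok_node (v := -43 / 100) (by simp only [Cn.rt_v, Cn.ng_v]; norm_num) (by rw [abs_le]; constructor <;> norm_num) rfl (tb_dt18 x) (ta_dt19 x) (by ring1) (to_dt18 x) (to_dt19 x)
theorem to_dt20 (x : ℝ) : dt20.Ok (fun p x => kcg.v p x) x := trivial
theorem to_dt21 (x : ℝ) : dt21.Ok (fun p x => kcg.v p x) x := trivial
theorem to_dt35 (x : ℝ) : dt35.Ok (fun p x => kcg.v p x) x :=
  DT.ok_node (v := -3 / 10) (by simp only [Cn.rt_v, Cn.ng_v]; norm_num) (by rw [abs_le]; constructor <;> norm_num) rfl (tb_dt20 x) (ta_dt21 x) (by ring1) (to_dt20 x) (to_dt21 x)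
theorem to_dt36 (x : ℝ) : dt36.Ok (fun p x => kcg.v p x) x :=
  DT.ok_node (v := -9 / 25) (by simp only [Cn.rt_v, Cn.ng_v]; norm_num) (by rw [abs_le]; constructor <;> norm_num) rfl (tb_dt34 x) (ta_dt35 x) (by ring1) (to_dt34 x) (to_dt35 x)
theorem to_dt22 (x : ℝ) : dt22.Ok (fun p x => kcg.v p x) x := trivial
theorem to_dt23 (x : ℝ) : dt23.Ok (fun p x => kcg.v p x) x := trivial
theorem to_dt37 (x : ℝ) : dt37.Ok (fun p x => kcg.v p x) x :=
  DT.ok_node (v := -311 / 1898) (by simp only [Cn.rt_v, Cn.ng_v]; norm_num) (by rw [abs_le]; constructor <;> norm_num) ctA (tb_dt22 x) (ta_dt23 x) (by ring1) (to_dt22 x) (to_dt23 x)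
theorem to_dt24 (x : ℝ) : dt24.Ok (fun p x => kcg.v p x) x := trivial
theorem to_dt25 (x : ℝ) : dt25.Ok (fun p x => kcg.v p x) x := trivial
theorem to_dt38 (x : ℝ) : dt38.Ok (fun p x => kcg.v p x) x :=
  DT.ok_node (v := -1 / 40) (by simp only [Cn.rt_v, Cn.ng_v]; norm_num) (by rw [abs_le]; constructor <;> norm_num) rfl (tb_dt24 x) (ta_dt25 x) (by ring1) (to_dt24 x) (to_dt25 x)
theorem to_dt39 (x : ℝ) : dt39.Ok (fun p x => kcg.v p x) x :=
  DT.ok_node (v := -73 / 1609) (by simp only [Cn.rt_v, Cn.ng_v]; norm_num) (by rw [abs_le]; constructor <;> norm_num) ctB (tb_dt37 x) (ta_dt38 x) (by ring1) (to_dt37 x) (to_dt38 x)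
theorem to_dt40 (x : ℝ) : dt40.Ok (fun p x => kcg.v p x) x :=
  DT.ok_node (v := -23 / 100) (by simp only [Cn.rt_v, Cn.ng_v]; norm_num) (by rw [abs_le]; constructor <;> norm_num) rfl (tb_dt36 x) (ta_dt39 x) (by ring1) (to_dt36 x) (to_dt39 x)
theorem to_dt26 (x : ℝ) : dt26.Ok (fun p x => kcg.v p x) x := trivial
theorem to_dt27 (x : ℝ) : dt27.Ok (fun p x => kcg.v p x) x := trivial
theorem to_dt41 (x : ℝ) : dt41.Ok (fun p x => kcg.v p x) x :=
  DT.ok_node (v := 3 / 50) (by simp only [Cn.rt_v, Cn.ng_v]; norm_num) (by rw [abs_le]; constructor <;> norm_num) rfl (tb_dt26 x) (ta_dt27 x) (by ring1) (to_dt26 x) (to_dt27 x)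
theorem to_dt28 (x : ℝ) : dt28.Ok (fun p x => kcg.v p x) x := trivial
theorem to_dt29 (x : ℝ) : dt29.Ok (fun p x => kcg.v p x) x := trivial
theorem to_dt42 (x : ℝ) : dt42.Ok (fun p x => kcg.v p x) x :=
  DT.ok_node (v := 3 / 20) (by simp only [Cn.rt_v, Cn.ng_v]; norm_num) (by rw [abs_le]; constructor <;> norm_num) rfl (tb_dt28 x) (ta_dt29 x) (by ring1) (to_dt28 x) (to_dt29 x)
theorem to_dt43 (x : ℝ) : dt43.Ok (fun p x => kcg.v p x) x :=
  DT.ok_node (v := 1 / 10) (by simp only [Cn.rt_v, Cn.ng_v]; norm_num) (by rw [abs_le]; constructor <;> norm_num) rfl (tb_dt41 x) (ta_dt42 x) (by ring1) (to_dt41 x) (to_dt42 x)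
theorem to_dt30 (x : ℝ) : dt30.Ok (fun p x => kcg.v p x) x := trivial
theorem to_dt31 (x : ℝ) : dt31.Ok (fun p x => kcg.v p x) x := trivial
theorem to_dt44 (x : ℝ) : dt44.Ok (fun p x => kcg.v p x) x :=
  DT.ok_node (v := 13 / 50) (by simp only [Cn.rt_v, Cn.ng_v]; norm_num) (by rw [abs_le]; constructor <;> norm_num) rfl (tb_dt30 x) (ta_dt31 x) (by ring1) (to_dt30 x) (to_dt31 x)
theorem to_dt32 (x : ℝ) : dt32.Ok (fun p x => kcg.v p x) x := trivial
theorem to_dt33 (x : ℝ) : dt33.Ok (fun p x => kcg.v p x) x := trivial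
theorem to_dt45 (x : ℝ) : dt45.Ok (fun p x => kcg.v p x) x :=
  DT.ok_node (v := 21 / 50) (by simp only [Cn.rt_v, Cn.ng_v]; norm_num) (by rw [abs_le]; constructor <;> norm_num) rfl (tb_dt32 x) (ta_dt33 x) (by ring1) (to_dt32 x) (to_dt33 x)
theorem to_dt46 (x : ℝ) : dt46.Ok (fun p x => kcg.v p x) x :=
  DT.ok_node (v := 17 / 50) (by simp only [Cn.rt_v, Cn.ng_v]; norm_num) (by rw [abs_le]; constructor <;> norm_num) rfl (tb_dt44 x) (ta_dt45 x) (by ring1) (to_dt44 x) (to_dt45 x)
theorem to_dt47 (x : ℝ) : dt47.Ok (fun p x => kcg.v p x) x :=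
  DT.ok_node (v := 1 / 5) (by simp only [Cn.rt_v, Cn.ng_v]; norm_num) (by rw [abs_le]; constructor <;> norm_num) rfl (tb_dt43 x) (ta_dt46 x) (by ring1) (to_dt43 x) (to_dt46 x)
theorem to_dt48 (x : ℝ) : dt48.Ok (fun p x => kcg.v p x) x :=
  DT.ok_node (v := 1 / 40) (by simp only [Cn.rt_v, Cn.ng_v]; norm_num) (by rw [abs_le]; constructor <;> norm_num) rfl (tb_dt40 x) (ta_dt47 x) (by ring1) (to_dt40 x) (to_dt47 x)
theorem dok (x : ℝ) : dd.Ok x := ⟨ko_dt17 x, fun p h => kfe h, to_dt48 x⟩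
theorem K0_ (x : ℝ) : ∀ q y, OnC (0 : Fin 5) q y → TightK (tyO q) q (fun p => dd.kf.v p x) (c1n y) y (tKF 0 q y x) := by
  refine K0_of (R := fun q y => tKF 0 q y x) (kc := fun p => kcg.v p x) ?_ ?_ ?_
  · intro y h
    show tKF 0 0 y x = _
    ·
      rw [← (atF00 h).K]
      show kf0q0.v y x = _
      simp only [kf0q0, kf0q0_9, kf0q0_12, c1g_v]
      ((try push_cast); (try simp only [mul_inv]); (try ring_nf))
  · intro y h
    show tKF 0 1 y x = _
    ·
      rw [← (atF01 h).K]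
      show kf0q1.v y x = _
      simp only [kf0q1, kf0q1_10, c1g_v]
      ((try push_cast); (try simp only [mul_inv]); (try ring_nf))
  · intro y h
    show tKF 0 2 y x = _
    ·
      have ey := yag_v h.1.nonneg (h.2 rfl)
      rw [← (atF02 h).K]
      show kfc02.v (c1n y) x = _
      simp only [kfc02, c1g_v, ey]
      ((try push_cast); (try simp only [mul_inv]); (try ring_nf))
theorem L0_ (x : ℝ) : ∀ q y, OnC (0 : Fin 5) q y → TightL (tyO q) (fun p c => dd.TX.val dd.kf.v p c x) (c1n y) y (tL 0 q y x) := by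
  refine L0_of (R := fun q y => tL 0 q y x) (tx := fun p c => txg.v p c x) txe ?_ ?_ ?_
  · intro y h
    show tL 0 0 y x = _
    ·
      rw [← (atF00 h).L]
      show l0q0.v y x = _
      simp only [l0q0, c1g_v]
      ((try push_cast); (try simp only [mul_inv]); (try ring_nf))
  · intro y h
    show tL 0 1 y x = _
    ·
      rw [← (atF01 h).L]
      show l0q1.v y x = _
      simp only [l0q1, c1g_v]
      ((try push_cast); (try simp only [mul_inv]); (try ring_nf))
  · intro y h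
    show tL 0 2 y x = _
    ·
      have ey := yag_v h.1.nonneg (h.2 rfl)
      rw [← (atF02 h).L]
      show lc02.v (c1n y) x = _
      simp only [lc02, lc02_7, lc02_8, c1g_v, ey]
      ((try push_cast); (try simp only [mul_inv]); (try ring_nf))
theorem Kn_ (x : ℝ) : ∀ q y, InQ q y → TightK (tyN q) q (fun p => dd.kf.v p x) (c3n y) y (tKF (Fin.last 4) q y x) := by
  refine Kn_of (R := fun q y => tKF 4 q y x) (kc := fun p => kcg.v p x) ?_ ?_ ?_ ?_
  · intro y h
    show tKF 4 0 y x = _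
    ·
      rw [← (atF40 (onc h (by decide))).K]
      show kf4q0.v y x = _
      simp only [kf4q0, c3g_v]
      ((try push_cast); (try simp only [mul_inv]); (try ring_nf))
  · intro y h
    show tKF 4 1 y x = _
    ·
      rw [← (atF41 (onc h (by decide))).K]
      show kf4q1.v y x = _
      simp only [kf4q1, c3g_v]
      ((try push_cast); (try simp only [mul_inv]); (try ring_nf))
  · intro y h
    show tKF 4 2 y x = _
    ·
      rw [← (atF42 (onc h (by decide))).K]
      show kf4q2.v y x = _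
      simp only [kf4q2, c3g_v]
      ((try push_cast); (try simp only [mul_inv]); (try ring_nf))
  · intro y h
    show tKF 4 3 y x = _
    ·
      have ey := ycg_v h.nonneg h.le_two
      rw [← (atF43 (onc h (by decide))).K]
      show kfc43.v (c3n y) x = _
      simp only [kfc43, c3g_v, ey]
      ((try push_cast); (try simp only [mul_inv]); (try ring_nf))
theorem Ln_ (x : ℝ) : ∀ q y, InQ q y → TightL (tyN q) (fun p c => dd.TX.val dd.kf.v p c x) (c3n y) y (tL (Fin.last 4) q y x) := by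
  refine Ln_of (R := fun q y => tL 4 q y x) (tx := fun p c => txg.v p c x) txe ?_ ?_ ?_ ?_
  · intro y h
    show tL 4 0 y x = _
    ·
      rw [← (atF40 (onc h (by decide))).L]
      show l4q0.v y x = _
      simp only [l4q0, l4q0_6, l4q0_7, l4q0_8, c3g_v]
      ((try push_cast); (try simp only [mul_inv]); (try ring_nf))
  · intro y h
    show tL 4 1 y x = _
    ·
      rw [← (atF41 (onc h (by decide))).L]
      show l4q1.v y x = _
      simp only [l4q1, l4q1_7, l4q1_8, l4q1_9, c3g_v]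
      ((try push_cast); (try simp only [mul_inv]); (try ring_nf))
  · intro y h
    show tL 4 2 y x = _
    ·
      rw [← (atF42 (onc h (by decide))).L]
      show l4q2.v y x = _
      simp only [l4q2, l4q2_7, l4q2_8, l4q2_9, l4q2_12, l4q2_14, c3g_v]
      ((try push_cast); (try simp only [mul_inv]); (try ring_nf))
  · intro y h
    show tL 4 3 y x = _
    ·
      have ey := ycg_v h.nonneg h.le_two
      rw [← (atF43 (onc h (by decide))).L]
      show lc43.v (c3n y) x = _
      simp only [lc43, lc43_7, lc43_8, lc43_9, lc43_12, lc43_14, c3g_v, ey]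
      ((try push_cast); (try simp only [mul_inv]); (try ring_nf))
theorem f0_ : ∀ q y, InQ q y → (ff q).f.v y = crv PP 1 q y
  | 0, y, _ => ecv1q0.symm
  | 1, y, _ => ecv1q1.symm
  | 2, y, _ => ecv1q2.symm
  | 3, y, h => (ecv1q3 h.1).symm
theorem fn_ : ∀ q y, InQ q y → (fl q).f.v y = crv PP 3 q y
  | 0, y, _ => ecv3q0.symm
  | 1, y, _ => ecv3q1.symm
  | 2, y, _ => ecv3q2.symm
  | 3, y, h => (ecv3q3 h.1).symm
theorem yK00 {y x : ℝ} (h : OnC (0 : Fin 5) 0 y) : tKF 0 0 y x = kf0q0.v y x := (atF00 h).K.symm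
theorem yK10 {y x : ℝ} (h : InQ 0 y) : tKF 1 0 y x = kf1q0.v y x := (atF10 (onc h (by decide))).K.symm
theorem yK01 {y x : ℝ} (h : OnC (0 : Fin 5) 1 y) : tKF 0 1 y x = kf0q1.v y x := (atF01 h).K.symm
theorem yK11 {y x : ℝ} (h : InQ 1 y) : tKF 1 1 y x = kf1q1.v y x := (atF11 (onc h (by decide))).K.symm
theorem yK02 {y x : ℝ} (h : OnC (0 : Fin 5) 2 y) : tKF 0 2 y x = kf0q2.v y x := by
  rw [← (atF02 h).K]
  show kfc02.v (c1n y) x = _
  have ey := yag_v h.1.nonneg (h.2 rfl)
  simp only [kfc02, kf0q2, ey, c1g_v, c3g_v, swg_v]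
  ((try push_cast); (try ring_nf))
theorem yK12 {y x : ℝ} (h : InQ 2 y) : tKF 1 2 y x = kf1q2.v y x := (atF12 (onc h (by decide))).K.symm
theorem yK40 {y x : ℝ} (h : InQ 0 y) : tKF 4 0 y x = kf4q0.v y x := (atF40 (onc h (by decide))).K.symm
theorem yK30 {y x : ℝ} (h : InQ 0 y) : tKF 3 0 y x = kf3q0.v y x := (atF30 (onc h (by decide))).K.symm
theorem yK41 {y x : ℝ} (h : InQ 1 y) : tKF 4 1 y x = kf4q1.v y x := (atF41 (onc h (by decide))).K.symm
theorem yK31 {y x : ℝ} (h : InQ 1 y) : tKF 3 1 y x = kf3q1.v y x := (atF31 (onc h (by decide))).K.symm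
theorem yK42 {y x : ℝ} (h : InQ 2 y) : tKF 4 2 y x = kf4q2.v y x := (atF42 (onc h (by decide))).K.symm
theorem yK32 {y x : ℝ} (h : InQ 2 y) : tKF 3 2 y x = kf3q2.v y x := (atF32 (onc h (by decide))).K.symm
theorem yK43 {y x : ℝ} (h : InQ 3 y) : tKF 4 3 y x = kf4q3.v y x := by
  rw [← (atF43 (onc h (by decide))).K]
  show kfc43.v (c3n y) x = _
  have ey := ycg_v h.nonneg h.le_two
  simp only [kfc43, kf4q3, ey, c1g_v, c3g_v, swg_v]
  ((try push_cast); (try ring_nf))
theorem yK33 {y x : ℝ} (h : InQ 3 y) : tKF 3 3 y x = kf3q3.v y x := by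
  rw [← (atF33 (onc h (by decide))).K]
  show kfc33.v (c3n y) x = _
  have ey := ycg_v h.nonneg h.le_two
  simp only [kfc33, kf3q3, cv3r, ey, c1g_v, c3g_v, swg_v]
  ((try push_cast); (try ring_nf))
theorem yL00 {y x : ℝ} (h : OnC (0 : Fin 5) 0 y) : tL 0 0 y x = l0q0.v y x := (atF00 h).L.symm
theorem yL10 {y x : ℝ} (h : InQ 0 y) : tL 1 0 y x = l1q0.v y x := (atF10 (onc h (by decide))).L.symm
theorem yL01 {y x : ℝ} (h : OnC (0 : Fin 5) 1 y) : tL 0 1 y x = l0q1.v y x := (atF01 h).L.symm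
theorem yL11 {y x : ℝ} (h : InQ 1 y) : tL 1 1 y x = l1q1.v y x := (atF11 (onc h (by decide))).L.symm
theorem yL02 {y x : ℝ} (h : OnC (0 : Fin 5) 2 y) : tL 0 2 y x = l0q2.v y x := by
  rw [← (atF02 h).L]
  show lc02.v (c1n y) x = _
  have ey := yag_v h.1.nonneg (h.2 rfl)
  simp only [lc02, lc02_7, lc02_8, l0q2, l0q2_7, l0q2_8, ey, c1g_v, c3g_v, swg_v]
  ((try push_cast); (try ring_nf))
theorem yL12 {y x : ℝ} (h : InQ 2 y) : tL 1 2 y x = l1q2.v y x := (atF12 (onc h (by decide))).L.symm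
theorem yL40 {y x : ℝ} (h : InQ 0 y) : tL 4 0 y x = l4q0.v y x := (atF40 (onc h (by decide))).L.symm
theorem yL30 {y x : ℝ} (h : InQ 0 y) : tL 3 0 y x = l3q0.v y x := (atF30 (onc h (by decide))).L.symm
theorem yL41 {y x : ℝ} (h : InQ 1 y) : tL 4 1 y x = l4q1.v y x := (atF41 (onc h (by decide))).L.symm
theorem yL31 {y x : ℝ} (h : InQ 1 y) : tL 3 1 y x = l3q1.v y x := (atF31 (onc h (by decide))).L.symm
theorem yL42 {y x : ℝ} (h : InQ 2 y) : tL 4 2 y x = l4q2.v y x := (atF42 (onc h (by decide))).L.symm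
theorem yL32 {y x : ℝ} (h : InQ 2 y) : tL 3 2 y x = l3q2.v y x := (atF32 (onc h (by decide))).L.symm
theorem yL43 {y x : ℝ} (h : InQ 3 y) : tL 4 3 y x = l4q3.v y x := by
  rw [← (atF43 (onc h (by decide))).L]
  show lc43.v (c3n y) x = _
  have ey := ycg_v h.nonneg h.le_two
  simp only [lc43, lc43_7, lc43_8, lc43_9, lc43_12, lc43_14, l4q3, l4q3_7, l4q3_8, l4q3_9, l4q3_12, l4q3_14, ey, c1g_v, c3g_v, swg_v]
  ((try push_cast); (try ring_nf))
theorem yL33 {y x : ℝ} (h : InQ 3 y) : tL 3 3 y x = l3q3.v y x := by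
  rw [← (atF33 (onc h (by decide))).L]
  show lc33.v (c3n y) x = _
  have ey := ycg_v h.nonneg h.le_two
  simp only [lc33, l3q3, cv3r, ey, c1g_v, c3g_v, swg_v]
  ((try push_cast); (try ring_nf))
theorem sK0_ (x : ℝ) : ∀ q y, OnC (0 : Fin 5) q y → c1n y < crv PP 1 q y →
    (ff q).SK.v y x * (crv PP 1 q y - c1n y) = tKF 1 q y x - tKF 0 q y x := by
  intro q y h hlt
  rcases onC_q h with rfl | rfl | rfl
  · rw [yK10 h.1, yK00 h]
    rw [ecv1q0, ← c1g_v] at hlt ⊢
    have hd : 0 < cv1m.v y - c1g.v y := sub_pos.2 hlt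
    have hi := inv_mul_cancel₀ hd.ne'
    show skf0.v y x * _ = _
    simp only [skf0, kf1q0]
    (try push_cast)
    linear_combination (c1g.v y * bf1q0.v y x - kf0q0.v y x) * hi
  · rw [yK11 h.1, yK01 h]
    rw [ecv1q1, ← c1g_v] at hlt ⊢
    have hd : 0 < cv1m.v y - c1g.v y := sub_pos.2 hlt
    have hi := inv_mul_cancel₀ hd.ne'
    show skf1.v y x * _ = _
    simp only [skf1, kf1q1]
    (try push_cast)
    linear_combination (c1g.v y * bf1q1.v y x - kf0q1.v y x) * hi
  · rw [yK12 h.1, yK02 h]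
    rw [ecv1q2, ← c1g_v] at hlt ⊢
    have hd : 0 < cv1p.v y - c1g.v y := sub_pos.2 hlt
    have hi := inv_mul_cancel₀ hd.ne'
    have hb : |c1g.v y| ≤ 1 / 2 := by rw [c1g_v]; exact bnd_O h
    have eo := odd (x := x) hb
    show skf2.v y x * _ = _
    simp only [skf2, kf1q2, kf0q2, eo]
    (try push_cast)
    linear_combination (c1g.v y * (bf1q2.v y x - 1) + (y - 1) * kcg.v (c1g.v y) x) * hi
theorem sX0_ (x : ℝ) : ∀ q y, OnC (0 : Fin 5) q y → c1n y < crv PP 1 q y →
    (ff q).SX.v y x * (crv PP 1 q y - c1n y) = tL 1 q y x - tL 0 q y x := by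
  intro q y h hlt
  rcases onC_q h with rfl | rfl | rfl
  · rw [yL10 h.1, yL00 h]
    rw [ecv1q0, ← c1g_v] at hlt ⊢
    have hd : 0 < cv1m.v y - c1g.v y := sub_pos.2 hlt
    have hi := inv_mul_cancel₀ hd.ne'
    show sxf0.v y x * _ = _
    simp only [sxf0]
    (try push_cast)
    linear_combination (l1q0.v y x - l0q0.v y x) * hi
  · rw [yL11 h.1, yL01 h]
    rw [ecv1q1, ← c1g_v] at hlt ⊢
    have hd : 0 < cv1m.v y - c1g.v y := sub_pos.2 hlt
    have hi := inv_mul_cancel₀ hd.ne'
    show sxf1.v y x * _ = _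
    simp only [sxf1]
    (try push_cast)
    linear_combination (l1q1.v y x - l0q1.v y x) * hi
  · rw [yL12 h.1, yL02 h]
    rw [ecv1q2, ← c1g_v] at hlt ⊢
    have hd : 0 < cv1p.v y - c1g.v y := sub_pos.2 hlt
    have hi := inv_mul_cancel₀ hd.ne'
    show sxf2.v y x * _ = _
    simp only [sxf2]
    (try push_cast)
    linear_combination (l1q2.v y x - l0q2.v y x) * hi
theorem sKn_ (x : ℝ) : ∀ q y, InQ q y → crv PP 3 q y < c3n y →
    (fl q).SK.v y x * (c3n y - crv PP 3 q y) = tKF 4 q y x - tKF 3 q y x := by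
  intro q y h hlt
  match q, h with
  | 0, h =>
    rw [yK40 h, yK30 h]
    rw [ecv3q0, ← c3g_v] at hlt ⊢
    have hd : 0 < c3g.v y - cv3m.v y := sub_pos.2 hlt
    have hi := inv_mul_cancel₀ hd.ne'
    show skl0.v y x * _ = _
    simp only [skl0, kf3q0]
    (try push_cast)
    linear_combination (kf4q0.v y x - c3g.v y * bf3q0.v y x) * hi
  | 1, h =>
    rw [yK41 h, yK31 h]
    rw [ecv3q1, ← c3g_v] at hlt ⊢
    have hd : 0 < c3g.v y - cv3m.v y := sub_pos.2 hlt
    have hi := inv_mul_cancel₀ hd.ne'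
    show skl1.v y x * _ = _
    simp only [skl1, kf3q1]
    (try push_cast)
    linear_combination (kf4q1.v y x - c3g.v y * bf3q1.v y x) * hi
  | 2, h =>
    rw [yK42 h, yK32 h]
    rw [ecv3q2, ← c3g_v] at hlt ⊢
    have hd : 0 < c3g.v y - cv3p.v y := sub_pos.2 hlt
    have hi := inv_mul_cancel₀ hd.ne'
    show skl2.v y x * _ = _
    simp only [skl2, kf3q2]
    (try push_cast)
    linear_combination (kf4q2.v y x - c3g.v y * bf3q2.v y x) * hi
  | 3, h =>
    rw [yK43 h, yK33 h]
    rw [ecv3q3 h.1, ← c3g_v] at hlt ⊢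
    have hd : 0 < c3g.v y - cv3r.v y := sub_pos.2 hlt
    have hi := inv_mul_cancel₀ hd.ne'
    show skl3.v y x * _ = _
    simp only [skl3, kf3q3]
    (try push_cast)
    linear_combination (kf4q3.v y x - c3g.v y * bf3q3.v y x) * hi
theorem sXn_ (x : ℝ) : ∀ q y, InQ q y → crv PP 3 q y < c3n y →
    (fl q).SX.v y x * (c3n y - crv PP 3 q y) = tL 4 q y x - tL 3 q y x := by
  intro q y h hlt
  match q, h with
  | 0, h =>
    rw [yL40 h, yL30 h]
    rw [ecv3q0, ← c3g_v] at hlt ⊢
    have hd : 0 < c3g.v y - cv3m.v y := sub_pos.2 hlt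
    have hi := inv_mul_cancel₀ hd.ne'
    show sxl0.v y x * _ = _
    simp only [sxl0]
    (try push_cast)
    linear_combination (l4q0.v y x - l3q0.v y x) * hi
  | 1, h =>
    rw [yL41 h, yL31 h]
    rw [ecv3q1, ← c3g_v] at hlt ⊢
    have hd : 0 < c3g.v y - cv3m.v y := sub_pos.2 hlt
    have hi := inv_mul_cancel₀ hd.ne'
    show sxl1.v y x * _ = _
    simp only [sxl1]
    (try push_cast)
    linear_combination (l4q1.v y x - l3q1.v y x) * hi
  | 2, h =>
    rw [yL42 h, yL32 h]
    rw [ecv3q2, ← c3g_v] at hlt ⊢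
    have hd : 0 < c3g.v y - cv3p.v y := sub_pos.2 hlt
    have hi := inv_mul_cancel₀ hd.ne'
    show sxl2.v y x * _ = _
    simp only [sxl2]
    (try push_cast)
    linear_combination (l4q2.v y x - l3q2.v y x) * hi
  | 3, h =>
    rw [yL43 h, yL33 h]
    rw [ecv3q3 h.1, ← c3g_v] at hlt ⊢
    have hd : 0 < c3g.v y - cv3r.v y := sub_pos.2 hlt
    have hi := inv_mul_cancel₀ hd.ne'
    show sxl3.v y x * _ = _
    simp only [sxl3]
    (try push_cast)
    linear_combination (l4q3.v y x - l3q3.v y x) * hi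
theorem kn_ (x : ℝ) : ∀ X, |X| ≤ vv.k1.v → kcg.v (-X) x = -(k0c.v x * X) := by
  intro X h
  have h : |X| ≤ 1 / 40 := by
    refine h.trans_eq ?_
    show (Cn.rt 1 40).v = _
    rw [Cn.rt_v]
    norm_num
  obtain ⟨h1, h2⟩ := abs_le.1 h
  rw [kcl4 (p := -X) (by linarith) (by linarith)]
  simp only [k0c]
  push_cast
  ring
theorem tvm {p c x : ℝ} (h1 : -1 / 40 ≤ p) (h2 : p ≤ 1 / 40) : dt48.val (fun p x => kcg.v p x) p c x = (15202904461 / 160000000000 + (x - 15 / 32) * (-67156299 / 16000000000)) + (2467 / 312500 + (x - 15 / 32) * (114361 / 250000)) * p + (-361781261 / 100000000 + (x - 15 / 32) * (58543499 / 10000000)) * p ^ 2 := by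
  rcases eq_or_lt_of_le h1 with h | h1
  · subst h
    refine (DT.val_le (by simp only [Cn.rt_v, Cn.ng_v]; push_cast; linarith)).trans ?_
    refine (DT.val_gt (by simp only [Cn.rt_v, Cn.ng_v]; push_cast; linarith)).trans ?_
    refine (DT.val_gt (by simp only [Cn.rt_v, Cn.ng_v]; push_cast; linarith)).trans ?_
    refine (DT.val_le (by simp only [Cn.rt_v, Cn.ng_v]; push_cast; linarith)).trans ?_
    simp only [dt24, DT.val, sw24, sl24, sv24]
    ((try push_cast); ring1)
  ·
    refine (DT.val_le (by simp only [Cn.rt_v, Cn.ng_v]; push_cast; linarith)).trans ?_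
    refine (DT.val_gt (by simp only [Cn.rt_v, Cn.ng_v]; push_cast; linarith)).trans ?_
    refine (DT.val_gt (by simp only [Cn.rt_v, Cn.ng_v]; push_cast; linarith)).trans ?_
    refine (DT.val_gt (by simp only [Cn.rt_v, Cn.ng_v]; push_cast; linarith)).trans ?_
    simp only [dt25, DT.val, sw25, sl25, sv25]
    ((try push_cast); ring1)
theorem tn_ (x : ℝ) : ∀ X, |X| ≤ vv.k1.v → dd.tF x (-X) - dd.tF x X = m0c.v x * X := by
  intro X h
  have h : |X| ≤ 1 / 40 := by
    refine h.trans_eq ?_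
    show (Cn.rt 1 40).v = _
    rw [Cn.rt_v]
    norm_num
  obtain ⟨h1, h2⟩ := abs_le.1 h
  show dt48.val (fun p x => kcg.v p x) (-X) (cT (-X)) x - dt48.val (fun p x => kcg.v p x) X (cT X) x = _
  rw [tvm (by linarith) (by linarith), tvm (by linarith) (by linarith)]
  simp only [m0c]
  push_cast
  ring
theorem vK_ (x : ℝ) : ∀ y, InQ 2 y → tKF 1 2 y x = crv PP 1 2 y * bf1q2.v y x := by
  intro y h
  rw [yK12 h, ecv1q2]
  simp only [kf1q2]
theorem vX_ (x : ℝ) : ∀ y, InQ 2 y → tL 1 2 y x = crv PP 1 2 y * bx1q2.v y x := by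
  intro y h
  rw [yL12 h, ecv1q2]
  simp only [l1q2]
theorem n0_rK (y x : ℝ) : n0b.v y x = (1 - (y - 1) * k0c.v x) := by
  simp only [n0b, k0c]
  all_goals (try push_cast)
  all_goals (try ring)
theorem rK_ (x : ℝ) : ∀ y, OnC (0 : Fin 5) 2 y → c1n y < crv PP 1 2 y →
    rhk.v y x * (crv PP 1 2 y - c1n y) = crv PP 1 2 y * (bf1q2.v y x - (1 - (y - 1) * k0c.v x)) := by
  intro y h hlt
  rw [ecv1q2, ← c1g_v] at hlt ⊢
  have hd : 0 < cv1p.v y - c1g.v y := sub_pos.2 hlt
  have hi := inv_mul_cancel₀ hd.ne'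
  rw [← n0_rK]
  simp only [rhk]
  linear_combination ((bf1q2.v y x - n0b.v y x) * cv1p.v y) * hi
theorem n0_rX (y x : ℝ) : n0x.v y x = m0c.v x := by
  simp only [n0x, m0c]
  all_goals (try push_cast)
  all_goals (try ring)
theorem rX_ (x : ℝ) : ∀ y, OnC (0 : Fin 5) 2 y → c1n y < crv PP 1 2 y →
    rhx.v y x * (crv PP 1 2 y - c1n y) = crv PP 1 2 y * (bx1q2.v y x - m0c.v x) := by
  intro y h hlt
  rw [ecv1q2, ← c1g_v] at hlt ⊢
  have hd : 0 < cv1p.v y - c1g.v y := sub_pos.2 hlt
  have hi := inv_mul_cancel₀ hd.ne'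
  rw [← n0_rX]
  simp only [rhx]
  linear_combination ((bx1q2.v y x - n0x.v y x) * cv1p.v y) * hi
theorem flat_ (x : ℝ) : ∀ y, InQ 2 y → vv.ya.v ≤ y → y ≤ vv.yb.v → bf1q2.v y x = 1 - (y - 1) * k0c.v x ∧ bx1q2.v y x = m0c.v x := by
  intro y h h1 h2
  have ea : vv.ya.v = 577 / 500 := by
    show (Cn.rt 577 500).v = _
    rw [Cn.rt_v]
    norm_num
  have eb : vv.yb.v = 231 / 200 := by
    show (Cn.rt 231 200).v = _
    rw [Cn.rt_v]
    norm_num
  rw [ea] at h1
  rw [eb] at h2
  constructor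
  · simp only [bf1q2, bf1q2_3, k0c]
    rcases eq_or_lt_of_le h1 with g | h1
    · subst g
      ((try push_cast); (repeat first | rw [if_pos (by linarith)] | rw [if_neg (by linarith)] | erw [if_pos (by linarith)] | erw [if_neg (by linarith)]); (try push_cast); (try ring1))
    rcases eq_or_lt_of_le h2 with g | h2
    · subst g
      ((try push_cast); (repeat first | rw [if_pos (by linarith)] | rw [if_neg (by linarith)] | erw [if_pos (by linarith)] | erw [if_neg (by linarith)]); (try push_cast); (try ring1))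
    · ((try push_cast); (repeat first | rw [if_pos (by linarith)] | rw [if_neg (by linarith)] | erw [if_pos (by linarith)] | erw [if_neg (by linarith)]); (try push_cast); (try ring1))
  · simp only [bx1q2, bx1q2_3, m0c]
    rcases eq_or_lt_of_le h1 with g | h1
    · subst g
      ((try push_cast); (repeat first | rw [if_pos (by linarith)] | rw [if_neg (by linarith)] | erw [if_pos (by linarith)] | erw [if_neg (by linarith)]); (try push_cast); (try ring1))
    rcases eq_or_lt_of_le h2 with g | h2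
    · subst g
      ((try push_cast); (repeat first | rw [if_pos (by linarith)] | rw [if_neg (by linarith)] | erw [if_pos (by linarith)] | erw [if_neg (by linarith)]); (try push_cast); (try ring1))
    · ((try push_cast); (repeat first | rw [if_pos (by linarith)] | rw [if_neg (by linarith)] | erw [if_pos (by linarith)] | erw [if_neg (by linarith)]); (try push_cast); (try ring1))
theorem abk_ (x : ℝ) : ∀ y, InQ 2 y → vv.yb.v ≤ y → y ≤ vv.yk.v → bf1q2.v y x = 1 - (y - 1) * k0c.v x + sbk.v x * (y - vv.yb.v) ∧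
    bx1q2.v y x = m0c.v x + sbx.v x * (y - vv.yb.v) := by
  intro y h h1 h2
  have eb : vv.yb.v = 231 / 200 := by
    show (Cn.rt 231 200).v = _
    rw [Cn.rt_v]
    norm_num
  have ek : vv.yk.v = 13 / 10 := by
    show (Cn.rt 13 10).v = _
    rw [Cn.rt_v]
    norm_num
  rw [eb] at h1 ⊢
  rw [ek] at h2
  constructor
  · simp only [bf1q2, bf1q2_3, k0c, sbk]
    rcases eq_or_lt_of_le h1 with g | h1
    · subst g
      ((try push_cast); (repeat first | rw [if_pos (by linarith)] | rw [if_neg (by linarith)] | erw [if_pos (by linarith)] | erw [if_neg (by linarith)]); (try push_cast); (try ring1))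
    rcases eq_or_lt_of_le h2 with g | h2
    · subst g
      ((try push_cast); (repeat first | rw [if_pos (by linarith)] | rw [if_neg (by linarith)] | erw [if_pos (by linarith)] | erw [if_neg (by linarith)]); (try push_cast); (try ring1))
    · ((try push_cast); (repeat first | rw [if_pos (by linarith)] | rw [if_neg (by linarith)] | erw [if_pos (by linarith)] | erw [if_neg (by linarith)]); (try push_cast); (try ring1))
  · simp only [bx1q2, bx1q2_3, m0c, sbx]
    rcases eq_or_lt_of_le h1 with g | h1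
    · subst g
      ((try push_cast); (repeat first | rw [if_pos (by linarith)] | rw [if_neg (by linarith)] | erw [if_pos (by linarith)] | erw [if_neg (by linarith)]); (try push_cast); (try ring1))
    rcases eq_or_lt_of_le h2 with g | h2
    · subst g
      ((try push_cast); (repeat first | rw [if_pos (by linarith)] | rw [if_neg (by linarith)] | erw [if_pos (by linarith)] | erw [if_neg (by linarith)]); (try push_cast); (try ring1))
    · ((try push_cast); (repeat first | rw [if_pos (by linarith)] | rw [if_neg (by linarith)] | erw [if_pos (by linarith)] | erw [if_neg (by linarith)]); (try push_cast); (try ring1))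
theorem ka_dt49 (x : ℝ) : dt49.kv (-73 / 1609) x = (433010946111 / 2071104800000000 + (x - 15 / 32) * (-382426011857 / 3624433400000000)) := by
  simp only [dt49, DT.kv, sw49, sl49, sv49]
  ((try push_cast); ring1)
theorem kb_dt49 (x : ℝ) : dt49.kv (-1 / 40) x = (0) := by
  simp only [dt49, DT.kv, sw49, sl49, sv49]
  ((try push_cast); ring1)
theorem ka_dt50 (x : ℝ) : dt50.kv (-1 / 40) x = (0) := by
  simp only [dt50, DT.kv, sl50, sv50]
  ((try push_cast); ring1)
theorem kb_dt50 (x : ℝ) : dt50.kv (1 / 40) x = (0) := by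
  simp only [dt50, DT.kv, sl50, sv50]
  ((try push_cast); ring1)
theorem ka_dt51 (x : ℝ) : dt51.kv (1 / 40) x = (0) := by
  simp only [dt51, DT.kv, sw51, sl51, sv51]
  ((try push_cast); ring1)
theorem kb_dt51 (x : ℝ) : dt51.kv (73 / 1609) x = (-433010946111 / 2071104800000000 + (x - 15 / 32) * (382426011857 / 3624433400000000)) := by
  simp only [dt51, DT.kv, sw51, sl51, sv51]
  ((try push_cast); ring1)
theorem ka_dt52 (x : ℝ) : dt52.kv (-1 / 40) x = (0) :=
  (DT.kv_le (by simp only [Cn.rt_v, Cn.ng_v]; norm_num)).trans (ka_dt50 x)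
theorem kb_dt52 (x : ℝ) : dt52.kv (73 / 1609) x = (-433010946111 / 2071104800000000 + (x - 15 / 32) * (382426011857 / 3624433400000000)) :=
  (DT.kv_gt (by simp only [Cn.rt_v, Cn.ng_v]; norm_num)).trans (kb_dt51 x)
theorem ka_dt53 (x : ℝ) : dt53.kv (-73 / 1609) x = (433010946111 / 2071104800000000 + (x - 15 / 32) * (-382426011857 / 3624433400000000)) :=
  (DT.kv_le (by simp only [Cn.rt_v, Cn.ng_v]; norm_num)).trans (ka_dt49 x)
theorem kb_dt53 (x : ℝ) : dt53.kv (73 / 1609) x = (-433010946111 / 2071104800000000 + (x - 15 / 32) * (382426011857 / 3624433400000000)) :=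
  (DT.kv_gt (by simp only [Cn.rt_v, Cn.ng_v]; norm_num)).trans (kb_dt52 x)
theorem ko_dt49 (x : ℝ) : dt49.KOk x := trivial
theorem ko_dt50 (x : ℝ) : dt50.KOk x := trivial
theorem ko_dt51 (x : ℝ) : dt51.KOk x := trivial
theorem ko_dt52 (x : ℝ) : dt52.KOk x :=
  DT.kOk_node (v := 1 / 40) (by simp only [Cn.rt_v, Cn.ng_v]; norm_num) (kb_dt50 x) (ka_dt51 x) (by ring1) (ko_dt50 x) (ko_dt51 x)
theorem ko_dt53 (x : ℝ) : dt53.KOk x :=
  DT.kOk_node (v := -1 / 40) (by simp only [Cn.rt_v, Cn.ng_v]; norm_num) (kb_dt49 x) (ka_dt52 x) (by ring1) (ko_dt49 x) (ko_dt52 x)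
theorem phl0 {p x : ℝ} (h2 : p ≤ -1 / 40) : dt53.kv p x = (442843888097 / 1406266000000000 + (x - 15 / 32) * (-4692559441 / 29531586000000)) + (70855766559867 / 2812532000000000 + (x - 15 / 32) * (-37542241423381 / 2953158600000000)) * p + (50386279 / 100000000 + (x - 15 / 32) * (-1271317 / 5000000)) * p ^ 2 := by
  refine (DT.kv_le (by simp only [Cn.rt_v, Cn.ng_v]; push_cast; linarith)).trans ?_
  simp only [dt49, DT.kv, sw49, sl49, sv49]
  ((try push_cast); ring1)
theorem phl1 {p x : ℝ} (h1 : -1 / 40 < p) (h2 : p ≤ 1 / 40) : dt53.kv p x = (0) + (0) * p := by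
  refine (DT.kv_gt (by simp only [Cn.rt_v, Cn.ng_v]; push_cast; linarith)).trans ?_
  refine (DT.kv_le (by simp only [Cn.rt_v, Cn.ng_v]; push_cast; linarith)).trans ?_
  simp only [dt50, DT.kv, sl50, sv50]
  ((try push_cast); ring1)
theorem phl2 {p x : ℝ} (h1 : 1 / 40 < p) (h2 : p ≤ 73 / 1609) : dt53.kv p x = (-442843888097 / 1406266000000000 + (x - 15 / 32) * (4692559441 / 29531586000000)) + (70855766559867 / 2812532000000000 + (x - 15 / 32) * (-37542241423381 / 2953158600000000)) * p + (-50386279 / 100000000 + (x - 15 / 32) * (1271317 / 5000000)) * p ^ 2 := by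
  refine (DT.kv_gt (by simp only [Cn.rt_v, Cn.ng_v]; push_cast; linarith)).trans ?_
  refine (DT.kv_gt (by simp only [Cn.rt_v, Cn.ng_v]; push_cast; linarith)).trans ?_
  simp only [dt51, DT.kv, sw51, sl51, sv51]
  ((try push_cast); ring1)
theorem tvc6 {p x : ℝ} (h1 : -73 / 1609 ≤ p) (h2 : p ≤ -1 / 40) : dt48.val (fun p x => kcg.v p x) p (cT p) x = (33880120783237 / 351566500000000 + (x - 15 / 32) * (-941911469539 / 84375960000000)) + (326152180144433 / 2812532000000000 + (x - 15 / 32) * (-42119168136767 / 421879800000000)) * p + (-145642779 / 100000000 + (x - 15 / 32) * (-26456433 / 5000000)) * p ^ 2 := by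
  rcases eq_or_lt_of_le h1 with h | h1
  · subst h
    rw [ctB]
    refine (DT.val_le (by simp only [Cn.rt_v, Cn.ng_v]; push_cast; linarith)).trans ?_
    refine (DT.val_gt (by simp only [Cn.rt_v, Cn.ng_v]; push_cast; linarith)).trans ?_
    refine (DT.val_le (by simp only [Cn.rt_v, Cn.ng_v]; push_cast; linarith)).trans ?_
    refine (DT.val_gt (by simp only [Cn.rt_v, Cn.ng_v]; push_cast; linarith)).trans ?_
    exact (tb_dt23 x).trans (by ring1)
  ·
    refine (DT.val_le (by simp only [Cn.rt_v, Cn.ng_v]; push_cast; linarith)).trans ?_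
    refine (DT.val_gt (by simp only [Cn.rt_v, Cn.ng_v]; push_cast; linarith)).trans ?_
    refine (DT.val_gt (by simp only [Cn.rt_v, Cn.ng_v]; push_cast; linarith)).trans ?_
    refine (DT.val_le (by simp only [Cn.rt_v, Cn.ng_v]; push_cast; linarith)).trans ?_
    simp only [dt24, DT.val, sw24, sl24, sv24]
    ((try push_cast); ring1)
theorem tvc7 {p x : ℝ} (h1 : -1 / 40 ≤ p) (h2 : p ≤ 1 / 40) : dt48.val (fun p x => kcg.v p x) p (cT p) x = (15202904461 / 160000000000 + (x - 15 / 32) * (-67156299 / 16000000000)) + (2467 / 312500 + (x - 15 / 32) * (114361 / 250000)) * p + (-361781261 / 100000000 + (x - 15 / 32) * (58543499 / 10000000)) * p ^ 2 := by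
  rcases eq_or_lt_of_le h1 with h | h1
  · subst h
    refine (DT.val_le (by simp only [Cn.rt_v, Cn.ng_v]; push_cast; linarith)).trans ?_
    refine (DT.val_gt (by simp only [Cn.rt_v, Cn.ng_v]; push_cast; linarith)).trans ?_
    refine (DT.val_gt (by simp only [Cn.rt_v, Cn.ng_v]; push_cast; linarith)).trans ?_
    refine (DT.val_le (by simp only [Cn.rt_v, Cn.ng_v]; push_cast; linarith)).trans ?_
    simp only [dt24, DT.val, sw24, sl24, sv24]
    ((try push_cast); ring1)
  ·
    refine (DT.val_le (by simp only [Cn.rt_v, Cn.ng_v]; push_cast; linarith)).trans ?_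
    refine (DT.val_gt (by simp only [Cn.rt_v, Cn.ng_v]; push_cast; linarith)).trans ?_
    refine (DT.val_gt (by simp only [Cn.rt_v, Cn.ng_v]; push_cast; linarith)).trans ?_
    refine (DT.val_gt (by simp only [Cn.rt_v, Cn.ng_v]; push_cast; linarith)).trans ?_
    simp only [dt25, DT.val, sw25, sl25, sv25]
    ((try push_cast); ring1)
theorem tvc8 {p x : ℝ} (h1 : 1 / 40 ≤ p) (h2 : p ≤ 3 / 50) : dt48.val (fun p x => kcg.v p x) p (cT p) x = (38673573 / 400000000 + (x - 15 / 32) * (-3170207 / 280000000)) + (-5014719 / 40000000 + (x - 15 / 32) * (28768249 / 28000000)) * p + (-190513 / 200000 + (x - 15 / 32) * (-110911 / 20000)) * p ^ 2 := by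
  rcases eq_or_lt_of_le h1 with h | h1
  · subst h
    refine (DT.val_le (by simp only [Cn.rt_v, Cn.ng_v]; push_cast; linarith)).trans ?_
    refine (DT.val_gt (by simp only [Cn.rt_v, Cn.ng_v]; push_cast; linarith)).trans ?_
    refine (DT.val_gt (by simp only [Cn.rt_v, Cn.ng_v]; push_cast; linarith)).trans ?_
    refine (DT.val_gt (by simp only [Cn.rt_v, Cn.ng_v]; push_cast; linarith)).trans ?_
    simp only [dt25, DT.val, sw25, sl25, sv25]
    ((try push_cast); ring1)
  ·
    refine (DT.val_gt (by simp only [Cn.rt_v, Cn.ng_v]; push_cast; linarith)).trans ?_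
    refine (DT.val_le (by simp only [Cn.rt_v, Cn.ng_v]; push_cast; linarith)).trans ?_
    refine (DT.val_le (by simp only [Cn.rt_v, Cn.ng_v]; push_cast; linarith)).trans ?_
    refine (DT.val_le (by simp only [Cn.rt_v, Cn.ng_v]; push_cast; linarith)).trans ?_
    simp only [dt26, DT.val, sw26, sl26, sv26]
    ((try push_cast); ring1)
theorem ph_ (x : ℝ) : ∀ u, |u| ≤ vv.k2.v → dd.tF x (-u) - dd.tF x u = m0c.v x * u + dt53.kv u x := by
  intro u h
  have h : |u| ≤ 73 / 1609 := by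
    refine h.trans_eq ?_
    show (Cn.rt 73 1609).v = _
    rw [Cn.rt_v]
    norm_num
  obtain ⟨h1, h2⟩ := abs_le.1 h
  show dt48.val (fun p x => kcg.v p x) (-u) (cT (-u)) x - dt48.val (fun p x => kcg.v p x) u (cT u) x = _
  rcases le_or_gt u (-1 / 40) with g0 | g1000
  ·
    rw [tvc8 (p := -u) (by linarith) (by linarith), tvc6 (p := u) (by linarith) (by linarith), phl0 g0]
    simp only [m0c]
    push_cast
    ring
  rcases le_or_gt u (1 / 40) with g1 | g1001
  ·
    rw [tvc7 (p := -u) (by linarith) (by linarith), tvc7 (p := u) (by linarith) (by linarith), phl1 g1000 g1]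
    simp only [m0c]
    push_cast
    ring
  ·
    rw [tvc6 (p := -u) (by linarith) (by linarith), tvc8 (p := u) (by linarith) (by linarith), phl2 g1001 (by linarith)]
    simp only [m0c]
    push_cast
    ring
theorem kqf_ {y : ℝ} (x : ℝ) (h : OnC (0 : Fin 5) 2 y) : kqf.v y x * c1g.v y = (y - 1) * kcg.v (c1g.v y) x := by
  have h0 : 0 ≤ c1g.v y := by rw [c1g_v]; exact c1n_nn y
  simp only [kqf]
  (try push_cast)
  split_ifs with hh
  · rw [kcl4 (p := c1g.v y) (by linarith) (by linarith)]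
    ring
  · have hc : c1g.v y ≠ 0 := by
      intro e
      rw [e] at hh
      exact hh (by norm_num)
    have hi := inv_mul_cancel₀ hc
    linear_combination ((y - 1) * kcg.v (c1g.v y) x) * hi
theorem sM_ (x : ℝ) : ∀ y, OnC (0 : Fin 5) 2 y → c1n y < crv PP 1 2 y →
    (1 + skm.v y x) * (crv PP 1 2 y - c1n y) = tKF 1 2 y x - tKF 0 2 y x := by
  intro y h hlt
  rw [yK12 h.1, yK02 h]
  rw [ecv1q2, ← c1g_v] at hlt ⊢
  have hd : 0 < cv1p.v y - c1g.v y := sub_pos.2 hlt
  have hi := inv_mul_cancel₀ hd.ne'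
  have hb : |c1g.v y| ≤ 1 / 2 := by rw [c1g_v]; exact bnd_O h
  have eo := odd (x := x) hb
  have hk := kqf_ x h
  simp only [skm, kf1q2, kf0q2, eo]
  (try push_cast)
  linear_combination (cv1p.v y * ((bf1q2.v y x - 1) + kqf.v y x)) * hi + hk
theorem ok (x : ℝ) : tt.Ok PP tKF tL x where
  i0 := rfl
  il := rfl
  rl := by
    show 1 < PP.ρ 3
    have e : PP.ρ 3 = 39 / 25 := rfl
    rw [e]
    norm_num
  ok := dok x
  kh := rfl
  odd := fun p h => odd h
  K0 := K0_ x
  L0 := L0_ x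
  Kn := Kn_ x
  Ln := Ln_ x
  f0 := f0_
  fn := fn_
  sK0 := sK0_ x
  sX0 := sX0_ x
  sKn := sKn_ x
  sXn := sXn_ x
  k1 := by
    show 0 ≤ (Cn.rt 1 40).v ∧ (Cn.rt 1 40).v ≤ 1 / 2
    rw [Cn.rt_v]
    constructor <;> norm_num
  kn := kn_ x
  tn := tn_ x
  vK := vK_ x
  vX := vX_ x
  rK := rK_ x
  rX := rX_ x
  yb := by
    show 0 ≤ (Cn.rt 231 200).v ∧ 1 ≤ 3 / 4 * (Cn.rt 231 200).v ^ 2
    rw [Cn.rt_v]
    constructor <;> norm_num
  flat := flat_ x
  abk := abk_ x
  phk := ko_dt53 x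
  ph := ph_ x
  sM := sM_ x
  yz := by
    show (Cn.rt 577 500).v ≤ (Cn.rt 57717 50000).v ∧ 0 ≤ (Cn.rt 57717 50000).v ∧ 1 ≤ 3 / 4 * (Cn.rt 57717 50000).v ^ 2 + (Cn.rt 1 40).v ^ 2
    simp only [Cn.rt_v]
    refine ⟨?_, ?_, ?_⟩ <;> norm_num
theorem okx {x : ℝ} (hx : ((469762048 : ℕ) : ℝ) / S ≤ x) (hx' : x ≤ (((469762048 : ℕ) : ℝ) + (67108864 : ℕ)) / S) : tt.Ok PP tKF tL x := ok x

end Pool.Agent.Strip051.G.I7_16_1_2.Tab.St
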