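import Pool.Agent.Strip051.G.I7_16_1_2.Tab

/-! # Certificates N8 (generated) -/

set_option linter.all false
set_option maxRecDepth 100000

namespace Pool.Agent.Strip051.G.I7_16_1_2.Tab.C.NA03

open Pool.Agent.Strip051.PB Pool.Agent.Strip051.PB.T
open Pool.Agent.Strip051.G.I7_16_1_2.Tab

noncomputable def f_pm_213 : ℕ → ℕ → ℕ → ℕ → Bool := onCell 0 536870912 1610612736 536870912 469762048 67108864
    (rowN 3 1 true true false .pnn 2 1 3 (qsf 0 536870912 536870912 536870912 3) ndN0q2 ndN3q1 pcN3 Cut.none Ext.none)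

def k0_pm_213 : ∃ t, chk3 f_pm_213 t 1 1 1 = true :=
  ⟨(a (l 4) (b (a (l 4) (b (b (l 17015024) (l 16997160)) (l 4))) (l 4))), by decide +kernel⟩

theorem c_pm_213 : CertN 0 536870912 536870912 536870912 469762048 67108864 3 true true false .pnn 2 1 3
    ndN0q2 ndN3q1 pcN3 Cut.none Ext.none :=
  certN1 (fam := true) (s1 := true) (s2 := false) (a := 2) (b := 1) (c := 3) (cn := .pnn) (n1 := ndN0q2) (n2 := ndN3q1) (pc := pcN3) (cut := Cut.none) (xt := Ext.none) (P1 := 0) (W1 := 536870912) (P2 := 536870912) (W2 := 536870912) (P3 := 469762048) (W3 := 67108864) (N0 := 3)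
    rfl (fun _ => rfl) k0_pm_213

noncomputable def f_mm_001 : ℕ → ℕ → ℕ → ℕ → Bool := onCell 0 536870912 0 536870912 469762048 67108864
    (rowN 3 0 true false false .up 0 0 1 (qsf 0 536870912 0 536870912 1) ndN0q0 ndN3q0 pcN1 Cut.none Ext.none)

def k0_mm_001 : ∃ t, chk3 f_mm_001 t 1 1 1 = true :=
  ⟨(l 4), by decide +kernel⟩

theorem c_mm_001 : CertN 0 536870912 0 536870912 469762048 67108864 3 true false false .up 0 0 1
    ndN0q0 ndN3q0 pcN1 Cut.none Ext.none :=
  certN0 (fam := true) (s1 := false) (s2 := false) (a := 0) (b := 0) (c := 1) (cn := .up) (n1 := ndN0q0) (n2 := ndN3q0) (pc := pcN1) (cut := Cut.none) (xt := Ext.none) (P1 := 0) (W1 := 536870912) (P2 := 0) (W2 := 536870912) (P3 := 469762048) (W3 := 67108864) (N0 := 3)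
    rfl k0_mm_001

noncomputable def f_mm_011 : ℕ → ℕ → ℕ → ℕ → Bool := onCell 0 536870912 536870912 536870912 469762048 67108864
    (rowN 3 0 true false false .pnn 0 1 1 (qsf 0 536870912 536870912 536870912 1) ndN0q0 ndN3q1 pcN1 Cut.none Ext.none)

def k0_mm_011 : ∃ t, chk3 f_mm_011 t 1 1 1 = true :=
  ⟨(l 4), by decide +kernel⟩

theorem c_mm_011 : CertN 0 536870912 536870912 536870912 469762048 67108864 3 true false false .pnn 0 1 1
    ndN0q0 ndN3q1 pcN1 Cut.none Ext.none :=
  certN0 (fam := true) (s1 := false) (s2 := false) (a := 0) (b := 1) (c := 1) (cn := .pnn) (n1 := ndN0q0) (n2 := ndN3q1) (pc := pcN1) (cut := Cut.none) (xt := Ext.none) (P1 := 0) (W1 := 536870912) (P2 := 536870912) (W2 := 536870912) (P3 := 469762048) (W3 := 67108864) (N0 := 3)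
    rfl k0_mm_011

noncomputable def f_mm_012 : ℕ → ℕ → ℕ → ℕ → Bool := onCell 0 536870912 536870912 536870912 469762048 67108864
    (rowN 3 0 true false false .pnp 0 1 2 (qsf 0 536870912 536870912 536870912 2) ndN0q0 ndN3q1 pcN2 Cut.none Ext.none)

def k0_mm_012 : ∃ t, chk3 f_mm_012 t 1 1 1 = true :=
  ⟨(l 4), by decide +kernel⟩

theorem c_mm_012 : CertN 0 536870912 536870912 536870912 469762048 67108864 3 true false false .pnp 0 1 2
    ndN0q0 ndN3q1 pcN2 Cut.none Ext.none :=
  certN0 (fam := true) (s1 := false) (s2 := false) (a := 0) (b := 1) (c := 2) (cn := .pnp) (n1 := ndN0q0) (n2 := ndN3q1) (pc := pcN2) (cut := Cut.none) (xt := Ext.none) (P1 := 0) (W1 := 536870912) (P2 := 536870912) (W2 := 536870912) (P3 := 469762048) (W3 := 67108864) (N0 := 3)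
    rfl k0_mm_012

noncomputable def f_mm_022 : ℕ → ℕ → ℕ → ℕ → Bool := onCell 0 536870912 1073741824 536870912 469762048 67108864
    (rowN 3 0 true false false .pp 0 2 2 (qsf 0 536870912 1073741824 536870912 2) ndN0q0 ndN3q2 pcN2 Cut.none Ext.none)

def k0_mm_022 : ∃ t, chk3 f_mm_022 t 1 1 1 = true :=
  ⟨(l 4), by decide +kernel⟩

theorem c_mm_022 : CertN 0 536870912 1073741824 536870912 469762048 67108864 3 true false false .pp 0 2 2
    ndN0q0 ndN3q2 pcN2 Cut.none Ext.none :=
  certN0 (fam := true) (s1 := false) (s2 := false) (a := 0) (b := 2) (c := 2) (cn := .pp) (n1 := ndN0q0) (n2 := ndN3q2) (pc := pcN2) (cut := Cut.none) (xt := Ext.none) (P1 := 0) (W1 := 536870912) (P2 := 1073741824) (W2 := 536870912) (P3 := 469762048) (W3 := 67108864) (N0 := 3)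
    rfl k0_mm_022

noncomputable def f_mm_023 : ℕ → ℕ → ℕ → ℕ → Bool := onCell 0 536870912 1073741824 536870912 469762048 67108864
    (rowN 3 0 true false false .up 0 2 3 (qsf 0 536870912 1073741824 536870912 3) ndN0q0 ndN3q2 pcN3 Cut.none Ext.none)

def k0_mm_023 : ∃ t, chk3 f_mm_023 t 1 1 1 = true :=
  ⟨(l 4), by decide +kernel⟩

theorem c_mm_023 : CertN 0 536870912 1073741824 536870912 469762048 67108864 3 true false false .up 0 2 3
    ndN0q0 ndN3q2 pcN3 Cut.none Ext.none :=
  certN0 (fam := true) (s1 := false) (s2 := false) (a := 0) (b := 2) (c := 3) (cn := .up) (n1 := ndN0q0) (n2 := ndN3q2) (pc := pcN3) (cut := Cut.none) (xt := Ext.none) (P1 := 0) (W1 := 536870912) (P2 := 1073741824) (W2 := 536870912) (P3 := 469762048) (W3 := 67108864) (N0 := 3)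
    rfl k0_mm_023

noncomputable def f_mm_033 : ℕ → ℕ → ℕ → ℕ → Bool := onCell 0 536870912 0 1230186008 469762048 67108864
    (rowN 3 0 true false false .pnn 0 3 3 (qsf 0 536870912 0 1230186008 3) ndN0q0 ndN3q3 pcN3 Cut.none Ext.none)

def k0_mm_033 : ∃ t, chk3 f_mm_033 t 1 1 1 = true :=
  ⟨(l 5), by decide +kernel⟩

theorem c_mm_033 : CertN 0 536870912 0 1230186008 469762048 67108864 3 true false false .pnn 0 3 3
    ndN0q0 ndN3q3 pcN3 Cut.none Ext.none :=
  certN0 (fam := true) (s1 := false) (s2 := false) (a := 0) (b := 3) (c := 3) (cn := .pnn) (n1 := ndN0q0) (n2 := ndN3q3) (pc := pcN3) (cut := Cut.none) (xt := Ext.none) (P1 := 0) (W1 := 536870912) (P2 := 0) (W2 := 1230186008) (P3 := 469762048) (W3 := 67108864) (N0 := 3)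
    rfl k0_mm_033

noncomputable def f_mm_101 : ℕ → ℕ → ℕ → ℕ → Bool := onCell 536870912 536870912 0 536870912 469762048 67108864
    (rowN 3 0 true false false .npn 1 0 1 (qsf 536870912 536870912 0 536870912 1) ndN0q1 ndN3q0 pcN1 Cut.none Ext.none)

def k0_mm_101 : ∃ t, chk3 f_mm_101 t 1 1 1 = true :=
  ⟨(l 4), by decide +kernel⟩

theorem c_mm_101 : CertN 536870912 536870912 0 536870912 469762048 67108864 3 true false false .npn 1 0 1
    ndN0q1 ndN3q0 pcN1 Cut.none Ext.none :=
  certN0 (fam := true) (s1 := false) (s2 := false) (a := 1) (b := 0) (c := 1) (cn := .npn) (n1 := ndN0q1) (n2 := ndN3q0) (pc := pcN1) (cut := Cut.none) (xt := Ext.none) (P1 := 536870912) (W1 := 536870912) (P2 := 0) (W2 := 536870912) (P3 := 469762048) (W3 := 67108864) (N0 := 3)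
    rfl k0_mm_101

noncomputable def f_mm_102 : ℕ → ℕ → ℕ → ℕ → Bool := onCell 536870912 536870912 0 536870912 469762048 67108864
    (rowN 3 0 true false false .npp 1 0 2 (qsf 536870912 536870912 0 536870912 2) ndN0q1 ndN3q0 pcN2 Cut.none Ext.none)

def k0_mm_102 : ∃ t, chk3 f_mm_102 t 1 1 1 = true :=
  ⟨(l 4), by decide +kernel⟩

theorem c_mm_102 : CertN 536870912 536870912 0 536870912 469762048 67108864 3 true false false .npp 1 0 2
    ndN0q1 ndN3q0 pcN2 Cut.none Ext.none :=
  certN0 (fam := true) (s1 := false) (s2 := false) (a := 1) (b := 0) (c := 2) (cn := .npp) (n1 := ndN0q1) (n2 := ndN3q0) (pc := pcN2) (cut := Cut.none) (xt := Ext.none) (P1 := 536870912) (W1 := 536870912) (P2 := 0) (W2 := 536870912) (P3 := 469762048) (W3 := 67108864) (N0 := 3)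
    rfl k0_mm_102

noncomputable def f_mm_112 : ℕ → ℕ → ℕ → ℕ → Bool := onCell 536870912 536870912 536870912 536870912 469762048 67108864
    (rowN 3 0 true false false .dn 1 1 2 (qsf 536870912 536870912 536870912 536870912 2) ndN0q1 ndN3q1 pcN2 Cut.none Ext.none)

def k0_mm_112 : ∃ t, chk3 f_mm_112 t 1 1 1 = true :=
  ⟨(l 4), by decide +kernel⟩

theorem c_mm_112 : CertN 536870912 536870912 536870912 536870912 469762048 67108864 3 true false false .dn 1 1 2
    ndN0q1 ndN3q1 pcN2 Cut.none Ext.none :=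
  certN0 (fam := true) (s1 := false) (s2 := false) (a := 1) (b := 1) (c := 2) (cn := .dn) (n1 := ndN0q1) (n2 := ndN3q1) (pc := pcN2) (cut := Cut.none) (xt := Ext.none) (P1 := 536870912) (W1 := 536870912) (P2 := 536870912) (W2 := 536870912) (P3 := 469762048) (W3 := 67108864) (N0 := 3)
    rfl k0_mm_112

noncomputable def f_mm_113 : ℕ → ℕ → ℕ → ℕ → Bool := onCell 536870912 536870912 536870912 536870912 469762048 67108864
    (rowN 3 0 true false false .nn 1 1 3 (qsf 536870912 536870912 536870912 536870912 3) ndN0q1 ndN3q1 pcN3 Cut.none Ext.none)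

def k0_mm_113 : ∃ t, chk3 f_mm_113 t 1 1 1 = true :=
  ⟨(l 4), by decide +kernel⟩

theorem c_mm_113 : CertN 536870912 536870912 536870912 536870912 469762048 67108864 3 true false false .nn 1 1 3
    ndN0q1 ndN3q1 pcN3 Cut.none Ext.none :=
  certN0 (fam := true) (s1 := false) (s2 := false) (a := 1) (b := 1) (c := 3) (cn := .nn) (n1 := ndN0q1) (n2 := ndN3q1) (pc := pcN3) (cut := Cut.none) (xt := Ext.none) (P1 := 536870912) (W1 := 536870912) (P2 := 536870912) (W2 := 536870912) (P3 := 469762048) (W3 := 67108864) (N0 := 3)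
    rfl k0_mm_113

noncomputable def f_mm_123 : ℕ → ℕ → ℕ → ℕ → Bool := onCell 536870912 536870912 1073741824 536870912 469762048 67108864
    (rowN 3 0 true false false .npn 1 2 3 (qsf 536870912 536870912 1073741824 536870912 3) ndN0q1 ndN3q2 pcN3 Cut.none Ext.none)

def k0_mm_123 : ∃ t, chk3 f_mm_123 t 1 1 1 = true :=
  ⟨(l 4), by decide +kernel⟩

theorem c_mm_123 : CertN 536870912 536870912 1073741824 536870912 469762048 67108864 3 true false false .npn 1 2 3
    ndN0q1 ndN3q2 pcN3 Cut.none Ext.none :=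
  certN0 (fam := true) (s1 := false) (s2 := false) (a := 1) (b := 2) (c := 3) (cn := .npn) (n1 := ndN0q1) (n2 := ndN3q2) (pc := pcN3) (cut := Cut.none) (xt := Ext.none) (P1 := 536870912) (W1 := 536870912) (P2 := 1073741824) (W2 := 536870912) (P3 := 469762048) (W3 := 67108864) (N0 := 3)
    rfl k0_mm_123

noncomputable def f_mm_133 : ℕ → ℕ → ℕ → ℕ → Bool := onCell 536870912 536870912 0 1230186008 469762048 67108864
    (rowN 3 0 true false false .dn 1 3 3 (qsf 536870912 536870912 0 1230186008 3) ndN0q1 ndN3q3 pcN3 Cut.none Ext.none)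

def k0_mm_133 : ∃ t, chk3 f_mm_133 t 1 1 1 = true :=
  ⟨(l 4), by decide +kernel⟩

theorem c_mm_133 : CertN 536870912 536870912 0 1230186008 469762048 67108864 3 true false false .dn 1 3 3
    ndN0q1 ndN3q3 pcN3 Cut.none Ext.none :=
  certN0 (fam := true) (s1 := false) (s2 := false) (a := 1) (b := 3) (c := 3) (cn := .dn) (n1 := ndN0q1) (n2 := ndN3q3) (pc := pcN3) (cut := Cut.none) (xt := Ext.none) (P1 := 536870912) (W1 := 536870912) (P2 := 0) (W2 := 1230186008) (P3 := 469762048) (W3 := 67108864) (N0 := 3)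
    rfl k0_mm_133

noncomputable def f_mm_202 : ℕ → ℕ → ℕ → ℕ → Bool := onCell 0 536870912 0 536870912 469762048 67108864
    (rowN 3 0 true false false .pp 2 0 2 (qsf 0 536870912 0 536870912 2) ndN0q2 ndN3q0 pcN2 Cut.none Ext.none)

def k0_mm_202 : ∃ t, chk3 f_mm_202 t 1 1 1 = true :=
  ⟨(b (a (b (a (b (b (l 16698936) (l 4)) (l 4)) (l 4)) (l 4)) (l 4)) (l 4)), by decide +kernel⟩

theorem c_mm_202 : CertN 0 536870912 0 536870912 469762048 67108864 3 true false false .pp 2 0 2
    ndN0q2 ndN3q0 pcN2 Cut.none Ext.none :=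
  certN0 (fam := true) (s1 := false) (s2 := false) (a := 2) (b := 0) (c := 2) (cn := .pp) (n1 := ndN0q2) (n2 := ndN3q0) (pc := pcN2) (cut := Cut.none) (xt := Ext.none) (P1 := 0) (W1 := 536870912) (P2 := 0) (W2 := 536870912) (P3 := 469762048) (W3 := 67108864) (N0 := 3)
    rfl k0_mm_202

noncomputable def f_mm_203 : ℕ → ℕ → ℕ → ℕ → Bool := onCell 0 536870912 1610612736 536870912 469762048 67108864
    (rowN 3 1 true false false .up 2 0 3 (qsf 0 536870912 0 536870912 3) ndN0q2 ndN3q0 pcN3 Cut.none Ext.none)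

def k0_mm_203 : ∃ t, chk3 f_mm_203 t 1 1 1 = true :=
  ⟨(l 4), by decide +kernel⟩

theorem c_mm_203 : CertN 0 536870912 0 536870912 469762048 67108864 3 true false false .up 2 0 3
    ndN0q2 ndN3q0 pcN3 Cut.none Ext.none :=
  certN1 (fam := true) (s1 := false) (s2 := false) (a := 2) (b := 0) (c := 3) (cn := .up) (n1 := ndN0q2) (n2 := ndN3q0) (pc := pcN3) (cut := Cut.none) (xt := Ext.none) (P1 := 0) (W1 := 536870912) (P2 := 0) (W2 := 536870912) (P3 := 469762048) (W3 := 67108864) (N0 := 3)
    rfl (fun _ => rfl) k0_mm_203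

noncomputable def f_mm_213 : ℕ → ℕ → ℕ → ℕ → Bool := onCell 0 536870912 536870912 536870912 469762048 67108864
    (rowN 3 0 true false false .pnn 2 1 3 (qsf 0 536870912 536870912 536870912 3) ndN0q2 ndN3q1 pcN3 Cut.none Ext.none)

def k0_mm_213 : ∃ t, chk3 f_mm_213 t 1 1 1 = true :=
  ⟨(l 4), by decide +kernel⟩

theorem c_mm_213 : CertN 0 536870912 536870912 536870912 469762048 67108864 3 true false false .pnn 2 1 3
    ndN0q2 ndN3q1 pcN3 Cut.none Ext.none :=
  certN0 (fam := true) (s1 := false) (s2 := false) (a := 2) (b := 1) (c := 3) (cn := .pnn) (n1 := ndN0q2) (n2 := ndN3q1) (pc := pcN3) (cut := Cut.none) (xt := Ext.none) (P1 := 0) (W1 := 536870912) (P2 := 536870912) (W2 := 536870912) (P3 := 469762048) (W3 := 67108864) (N0 := 3)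
    rfl k0_mm_213

end Pool.Agent.Strip051.G.I7_16_1_2.Tab.C.NA03

namespace Pool.Agent.Strip051.G.I7_16_1_2.Tab.C.NA04

open Pool.Agent.Strip051.PB Pool.Agent.Strip051.PB.T
open Pool.Agent.Strip051.G.I7_16_1_2.Tab

noncomputable def f_pp_001 : ℕ → ℕ → ℕ → ℕ → Bool := onCell 0 536870912 0 536870912 469762048 67108864
    (rowN 3 0 true true true .up 0 0 1 (qsf 0 536870912 0 536870912 1) ndN0q0 ndN4q0 pcN1 Cut.none Ext.none)

def k0_pp_001 : ∃ t, chk3 f_pp_001 t 1 1 1 = true :=
  ⟨(l 4), by decide +kernel⟩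

theorem c_pp_001 : CertN 0 536870912 0 536870912 469762048 67108864 3 true true true .up 0 0 1
    ndN0q0 ndN4q0 pcN1 Cut.none Ext.none :=
  certN0 (fam := true) (s1 := true) (s2 := true) (a := 0) (b := 0) (c := 1) (cn := .up) (n1 := ndN0q0) (n2 := ndN4q0) (pc := pcN1) (cut := Cut.none) (xt := Ext.none) (P1 := 0) (W1 := 536870912) (P2 := 0) (W2 := 536870912) (P3 := 469762048) (W3 := 67108864) (N0 := 3)
    rfl k0_pp_001

noncomputable def f_pp_011 : ℕ → ℕ → ℕ → ℕ → Bool := onCell 0 536870912 536870912 536870912 469762048 67108864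
    (rowN 3 0 true true true .pnn 0 1 1 (qsf 0 536870912 536870912 536870912 1) ndN0q0 ndN4q1 pcN1 Cut.none Ext.none)

def k0_pp_011 : ∃ t, chk3 f_pp_011 t 1 1 1 = true :=
  ⟨(l 4), by decide +kernel⟩

theorem c_pp_011 : CertN 0 536870912 536870912 536870912 469762048 67108864 3 true true true .pnn 0 1 1
    ndN0q0 ndN4q1 pcN1 Cut.none Ext.none :=
  certN0 (fam := true) (s1 := true) (s2 := true) (a := 0) (b := 1) (c := 1) (cn := .pnn) (n1 := ndN0q0) (n2 := ndN4q1) (pc := pcN1) (cut := Cut.none) (xt := Ext.none) (P1 := 0) (W1 := 536870912) (P2 := 536870912) (W2 := 536870912) (P3 := 469762048) (W3 := 67108864) (N0 := 3)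
    rfl k0_pp_011

noncomputable def f_pp_012 : ℕ → ℕ → ℕ → ℕ → Bool := onCell 0 536870912 536870912 536870912 469762048 67108864
    (rowN 3 0 true true true .pnp 0 1 2 (qsf 0 536870912 536870912 536870912 2) ndN0q0 ndN4q1 pcN2 Cut.none Ext.none)

def k0_pp_012 : ∃ t, chk3 f_pp_012 t 1 1 1 = true :=
  ⟨(l 4), by decide +kernel⟩

theorem c_pp_012 : CertN 0 536870912 536870912 536870912 469762048 67108864 3 true true true .pnp 0 1 2
    ndN0q0 ndN4q1 pcN2 Cut.none Ext.none :=
  certN0 (fam := true) (s1 := true) (s2 := true) (a := 0) (b := 1) (c := 2) (cn := .pnp) (n1 := ndN0q0) (n2 := ndN4q1) (pc := pcN2) (cut := Cut.none) (xt := Ext.none) (P1 := 0) (W1 := 536870912) (P2 := 536870912) (W2 := 536870912) (P3 := 469762048) (W3 := 67108864) (N0 := 3)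
    rfl k0_pp_012

noncomputable def f_pp_022 : ℕ → ℕ → ℕ → ℕ → Bool := onCell 0 536870912 1073741824 536870912 469762048 67108864
    (rowN 3 0 true true true .pp 0 2 2 (qsf 0 536870912 1073741824 536870912 2) ndN0q0 ndN4q2 pcN2 Cut.none Ext.none)

def k0_pp_022 : ∃ t, chk3 f_pp_022 t 1 1 1 = true :=
  ⟨(l 4), by decide +kernel⟩

theorem c_pp_022 : CertN 0 536870912 1073741824 536870912 469762048 67108864 3 true true true .pp 0 2 2
    ndN0q0 ndN4q2 pcN2 Cut.none Ext.none :=
  certN0 (fam := true) (s1 := true) (s2 := true) (a := 0) (b := 2) (c := 2) (cn := .pp) (n1 := ndN0q0) (n2 := ndN4q2) (pc := pcN2) (cut := Cut.none) (xt := Ext.none) (P1 := 0) (W1 := 536870912) (P2 := 1073741824) (W2 := 536870912) (P3 := 469762048) (W3 := 67108864) (N0 := 3)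
    rfl k0_pp_022

noncomputable def f_pp_023 : ℕ → ℕ → ℕ → ℕ → Bool := onCell 0 536870912 1073741824 536870912 469762048 67108864
    (rowN 3 0 true true true .up 0 2 3 (qsf 0 536870912 1073741824 536870912 3) ndN0q0 ndN4q2 pcN3 Cut.none Ext.none)

def k0_pp_023 : ∃ t, chk3 f_pp_023 t 1 1 1 = true :=
  ⟨(l 4), by decide +kernel⟩

theorem c_pp_023 : CertN 0 536870912 1073741824 536870912 469762048 67108864 3 true true true .up 0 2 3
    ndN0q0 ndN4q2 pcN3 Cut.none Ext.none :=
  certN0 (fam := true) (s1 := true) (s2 := true) (a := 0) (b := 2) (c := 3) (cn := .up) (n1 := ndN0q0) (n2 := ndN4q2) (pc := pcN3) (cut := Cut.none) (xt := Ext.none) (P1 := 0) (W1 := 536870912) (P2 := 1073741824) (W2 := 536870912) (P3 := 469762048) (W3 := 67108864) (N0 := 3)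
    rfl k0_pp_023

noncomputable def f_pp_033 : ℕ → ℕ → ℕ → ℕ → Bool := onCell 0 536870912 0 1230186008 469762048 67108864
    (rowN 3 0 true true true .pnn 0 3 3 (qsf 0 536870912 0 1230186008 3) ndN0q0 ndN4q3 pcN3 Cut.none Ext.none)

def k0_pp_033 : ∃ t, chk3 f_pp_033 t 1 1 1 = true :=
  ⟨(l 4), by decide +kernel⟩

theorem c_pp_033 : CertN 0 536870912 0 1230186008 469762048 67108864 3 true true true .pnn 0 3 3
    ndN0q0 ndN4q3 pcN3 Cut.none Ext.none :=
  certN0 (fam := true) (s1 := true) (s2 := true) (a := 0) (b := 3) (c := 3) (cn := .pnn) (n1 := ndN0q0) (n2 := ndN4q3) (pc := pcN3) (cut := Cut.none) (xt := Ext.none) (P1 := 0) (W1 := 536870912) (P2 := 0) (W2 := 1230186008) (P3 := 469762048) (W3 := 67108864) (N0 := 3)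
    rfl k0_pp_033

noncomputable def f_pp_101 : ℕ → ℕ → ℕ → ℕ → Bool := onCell 536870912 536870912 0 536870912 469762048 67108864
    (rowN 3 0 true true true .npn 1 0 1 (qsf 536870912 536870912 0 536870912 1) ndN0q1 ndN4q0 pcN1 Cut.none Ext.none)

def k0_pp_101 : ∃ t, chk3 f_pp_101 t 1 1 1 = true :=
  ⟨(l 4), by decide +kernel⟩

theorem c_pp_101 : CertN 536870912 536870912 0 536870912 469762048 67108864 3 true true true .npn 1 0 1
    ndN0q1 ndN4q0 pcN1 Cut.none Ext.none :=
  certN0 (fam := true) (s1 := true) (s2 := true) (a := 1) (b := 0) (c := 1) (cn := .npn) (n1 := ndN0q1) (n2 := ndN4q0) (pc := pcN1) (cut := Cut.none) (xt := Ext.none) (P1 := 536870912) (W1 := 536870912) (P2 := 0) (W2 := 536870912) (P3 := 469762048) (W3 := 67108864) (N0 := 3)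
    rfl k0_pp_101

noncomputable def f_pp_102 : ℕ → ℕ → ℕ → ℕ → Bool := onCell 536870912 536870912 0 536870912 469762048 67108864
    (rowN 3 0 true true true .npp 1 0 2 (qsf 536870912 536870912 0 536870912 2) ndN0q1 ndN4q0 pcN2 Cut.none Ext.none)

def k0_pp_102 : ∃ t, chk3 f_pp_102 t 1 1 1 = true :=
  ⟨(l 4), by decide +kernel⟩

theorem c_pp_102 : CertN 536870912 536870912 0 536870912 469762048 67108864 3 true true true .npp 1 0 2
    ndN0q1 ndN4q0 pcN2 Cut.none Ext.none :=
  certN0 (fam := true) (s1 := true) (s2 := true) (a := 1) (b := 0) (c := 2) (cn := .npp) (n1 := ndN0q1) (n2 := ndN4q0) (pc := pcN2) (cut := Cut.none) (xt := Ext.none) (P1 := 536870912) (W1 := 536870912) (P2 := 0) (W2 := 536870912) (P3 := 469762048) (W3 := 67108864) (N0 := 3)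
    rfl k0_pp_102

noncomputable def f_pp_112 : ℕ → ℕ → ℕ → ℕ → Bool := onCell 536870912 536870912 536870912 536870912 469762048 67108864
    (rowN 3 0 true true true .dn 1 1 2 (qsf 536870912 536870912 536870912 536870912 2) ndN0q1 ndN4q1 pcN2 Cut.none Ext.none)

def k0_pp_112 : ∃ t, chk3 f_pp_112 t 1 1 1 = true :=
  ⟨(l 4), by decide +kernel⟩

theorem c_pp_112 : CertN 536870912 536870912 536870912 536870912 469762048 67108864 3 true true true .dn 1 1 2
    ndN0q1 ndN4q1 pcN2 Cut.none Ext.none :=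
  certN0 (fam := true) (s1 := true) (s2 := true) (a := 1) (b := 1) (c := 2) (cn := .dn) (n1 := ndN0q1) (n2 := ndN4q1) (pc := pcN2) (cut := Cut.none) (xt := Ext.none) (P1 := 536870912) (W1 := 536870912) (P2 := 536870912) (W2 := 536870912) (P3 := 469762048) (W3 := 67108864) (N0 := 3)
    rfl k0_pp_112

noncomputable def f_pp_113 : ℕ → ℕ → ℕ → ℕ → Bool := onCell 536870912 536870912 536870912 536870912 469762048 67108864
    (rowN 3 0 true true true .nn 1 1 3 (qsf 536870912 536870912 536870912 536870912 3) ndN0q1 ndN4q1 pcN3 Cut.none Ext.none)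

def k0_pp_113 : ∃ t, chk3 f_pp_113 t 1 1 1 = true :=
  ⟨(l 4), by decide +kernel⟩

theorem c_pp_113 : CertN 536870912 536870912 536870912 536870912 469762048 67108864 3 true true true .nn 1 1 3
    ndN0q1 ndN4q1 pcN3 Cut.none Ext.none :=
  certN0 (fam := true) (s1 := true) (s2 := true) (a := 1) (b := 1) (c := 3) (cn := .nn) (n1 := ndN0q1) (n2 := ndN4q1) (pc := pcN3) (cut := Cut.none) (xt := Ext.none) (P1 := 536870912) (W1 := 536870912) (P2 := 536870912) (W2 := 536870912) (P3 := 469762048) (W3 := 67108864) (N0 := 3)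
    rfl k0_pp_113

noncomputable def f_pp_123 : ℕ → ℕ → ℕ → ℕ → Bool := onCell 536870912 536870912 1073741824 536870912 469762048 67108864
    (rowN 3 0 true true true .npn 1 2 3 (qsf 536870912 536870912 1073741824 536870912 3) ndN0q1 ndN4q2 pcN3 Cut.none Ext.none)

def k0_pp_123 : ∃ t, chk3 f_pp_123 t 1 1 1 = true :=
  ⟨(l 4), by decide +kernel⟩

theorem c_pp_123 : CertN 536870912 536870912 1073741824 536870912 469762048 67108864 3 true true true .npn 1 2 3
    ndN0q1 ndN4q2 pcN3 Cut.none Ext.none :=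
  certN0 (fam := true) (s1 := true) (s2 := true) (a := 1) (b := 2) (c := 3) (cn := .npn) (n1 := ndN0q1) (n2 := ndN4q2) (pc := pcN3) (cut := Cut.none) (xt := Ext.none) (P1 := 536870912) (W1 := 536870912) (P2 := 1073741824) (W2 := 536870912) (P3 := 469762048) (W3 := 67108864) (N0 := 3)
    rfl k0_pp_123

noncomputable def f_pp_133 : ℕ → ℕ → ℕ → ℕ → Bool := onCell 536870912 536870912 0 1230186008 469762048 67108864
    (rowN 3 0 true true true .dn 1 3 3 (qsf 536870912 536870912 0 1230186008 3) ndN0q1 ndN4q3 pcN3 Cut.none Ext.none)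

def k0_pp_133 : ∃ t, chk3 f_pp_133 t 1 1 1 = true :=
  ⟨(l 4), by decide +kernel⟩

theorem c_pp_133 : CertN 536870912 536870912 0 1230186008 469762048 67108864 3 true true true .dn 1 3 3
    ndN0q1 ndN4q3 pcN3 Cut.none Ext.none :=
  certN0 (fam := true) (s1 := true) (s2 := true) (a := 1) (b := 3) (c := 3) (cn := .dn) (n1 := ndN0q1) (n2 := ndN4q3) (pc := pcN3) (cut := Cut.none) (xt := Ext.none) (P1 := 536870912) (W1 := 536870912) (P2 := 0) (W2 := 1230186008) (P3 := 469762048) (W3 := 67108864) (N0 := 3)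
    rfl k0_pp_133

noncomputable def f_pp_202 : ℕ → ℕ → ℕ → ℕ → Bool := onCell 0 536870912 0 536870912 469762048 67108864
    (rowN 3 0 true true true .pp 2 0 2 (qsf 0 536870912 0 536870912 2) ndN0q2 ndN4q0 pcN2 Cut.none Ext.none)

def k0_pp_202 : ∃ t, chk3 f_pp_202 t 1 1 1 = true :=
  ⟨(l 4), by decide +kernel⟩

theorem c_pp_202 : CertN 0 536870912 0 536870912 469762048 67108864 3 true true true .pp 2 0 2
    ndN0q2 ndN4q0 pcN2 Cut.none Ext.none :=
  certN0 (fam := true) (s1 := true) (s2 := true) (a := 2) (b := 0) (c := 2) (cn := .pp) (n1 := ndN0q2) (n2 := ndN4q0) (pc := pcN2) (cut := Cut.none) (xt := Ext.none) (P1 := 0) (W1 := 536870912) (P2 := 0) (W2 := 536870912) (P3 := 469762048) (W3 := 67108864) (N0 := 3)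
    rfl k0_pp_202

noncomputable def f_pp_203 : ℕ → ℕ → ℕ → ℕ → Bool := onCell 0 536870912 0 536870912 469762048 67108864
    (rowN 3 0 true true true .up 2 0 3 (qsf 0 536870912 0 536870912 3) ndN0q2 ndN4q0 pcN3 Cut.none Ext.none)

def k0_pp_203 : ∃ t, chk3 f_pp_203 t 1 1 1 = true :=
  ⟨(l 4), by decide +kernel⟩

theorem c_pp_203 : CertN 0 536870912 0 536870912 469762048 67108864 3 true true true .up 2 0 3
    ndN0q2 ndN4q0 pcN3 Cut.none Ext.none :=
  certN0 (fam := true) (s1 := true) (s2 := true) (a := 2) (b := 0) (c := 3) (cn := .up) (n1 := ndN0q2) (n2 := ndN4q0) (pc := pcN3) (cut := Cut.none) (xt := Ext.none) (P1 := 0) (W1 := 536870912) (P2 := 0) (W2 := 536870912) (P3 := 469762048) (W3 := 67108864) (N0 := 3)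
    rfl k0_pp_203

noncomputable def f_pp_213 : ℕ → ℕ → ℕ → ℕ → Bool := onCell 0 536870912 536870912 536870912 469762048 67108864
    (rowN 3 0 true true true .pnn 2 1 3 (qsf 0 536870912 536870912 536870912 3) ndN0q2 ndN4q1 pcN3 Cut.none Ext.none)

def k0_pp_213 : ∃ t, chk3 f_pp_213 t 1 1 1 = true :=
  ⟨(l 4), by decide +kernel⟩

theorem c_pp_213 : CertN 0 536870912 536870912 536870912 469762048 67108864 3 true true true .pnn 2 1 3
    ndN0q2 ndN4q1 pcN3 Cut.none Ext.none :=
  certN0 (fam := true) (s1 := true) (s2 := true) (a := 2) (b := 1) (c := 3) (cn := .pnn) (n1 := ndN0q2) (n2 := ndN4q1) (pc := pcN3) (cut := Cut.none) (xt := Ext.none) (P1 := 0) (W1 := 536870912) (P2 := 536870912) (W2 := 536870912) (P3 := 469762048) (W3 := 67108864) (N0 := 3)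
    rfl k0_pp_213

noncomputable def f_pm_001 : ℕ → ℕ → ℕ → ℕ → Bool := onCell 0 536870912 536870912 536870912 469762048 67108864
    (rowN 3 1 true true false .up 0 0 1 (qsf 0 536870912 0 536870912 1) ndN0q0 ndN4q0 pcN1 Cut.none Ext.none)

def k0_pm_001 : ∃ t, chk3 f_pm_001 t 2 1 1 = true :=
  ⟨(b (l 3) (b (b (l 3) (l 2)) (l 2))), by decide +kernel⟩

def k1_pm_001 : ∃ t, chk3 f_pm_001 t 3 2 1 = true :=
  ⟨(b (l 3) (a (l 3) (b (a (l 3) (b (a (l 3) (b (l 3) (a (l 3) (b (l 3) (a (l 3) (l 440938807191)))))) (a (b (l 3) (a (l 3) (b (l 468319232487) (a (l 462950518279) (l 431811996311))))) (b (a (b (l 3) (a (l 3) (l 434496354119))) (b (a (l 433422613463) (l 396915407095)) (a (l 394231053319) (l 16777656)))) (a (b (a (l 432885739943) (l 16779712)) (l 16802152)) (l 16795744)))))) (a (b (a (l 3) (b (l 3) (a (l 3) (b (a (l 3) (l 457044933671)) (a (l 475835412951) (b (l 16799824) (l 16776704))))))) (a (b (a (l 3) (b (l 3) (a (l 3) (l 517711353943)))) (a (a (l 3) (b (l 3) (c (l 488720318295) (l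 566566573895)))) (b (a (b (l 3) (l 500531473783)) (a (b (l 472614183703) (l 16777688)) (l 326048468743))) (a (c (l 315311061175) (l 304036769543)) (l 16781992))))) (b (a (b (a (l 477982908519) (b (l 454897448231) (l 385641118631))) (a (b (l 458655540199) (l 346449566615)) (l 16777200))) (b (a (b (l 16777640) (l 16776856)) (l 16780048)) (l 16783160))) (a (b (l 16783496) (l 16776336)) (l 16775968))))) (b (a (a (b (b (l 466171747879) (a (l 459192419271) (l 439328204823))) (b (a (l 430201396631) (l 16776064)) (l 16800520))) (b (b (a (l 419463963047) (l 16776736)) (a (l 16776176) (l 16776352))) (l 16786760))) (b (a (l 16780088) (l 16784520)) (l 16781256))) (a (b (l 16779312) (l 16775168)) (l 16778416))))))), by decide +kernel⟩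

def k2_pm_001 : ∃ t, chk3 f_pm_001 t 6 6 1 = true :=
  ⟨(b (a (b (l 3) (a (l 3) (b (l 3) (a (l 3) (b (l 3) (a (b (l 3) (l 2)) (b (a (l 3) (b (l 462950507623) (l 443086278439))) (b (a (l 452749957175) (l 319069130263)) (l 207869750775))))))))) (b (a (l 3) (b (a (l 3) (b (l 3) (a (b (l 3) (l 486035963543)) (b (a (l 484962219271) (l 403894720583)) (a (l 306184239063) (l 16777384)))))) (a (b (a (l 3) (b (l 3) (a (l 3) (l 464024246103)))) (a (b (l 486572835831) (a (l 467245474855) (l 334101526215))) (a (b (l 504289562439) (l 16777904)) (l 233169790151)))) (b (a (b (a (l 466171732087) (l 335712140103)) (l 297057437655)) (l 16771008)) (l 16774632))))) (a (b (a (b (l 3) (a (l 3) (b (l 3) (a (l 3) (l 463487376039))))) (b (a (b (l 3) (a (l 3) (l 479056638471))) (b (a (l 3) (l 464024246775)) (a (l 501605218775) (l 16798528)))) (a (b (a (l 467245475287) (l 455434318423)) (a (l 321216619943) (l 16780144))) (b (l 16796720) (l 16776912))))) (a (a (b (b (a (l 3) (l 476372283975)) (a (l 472077313319)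 (b (l 445233762327) (l 324437840103)))) (b (a (b (l 289541235495) (l 16777800)) (l 16780640)) (l 16767688))) (b (a (b (b (l 454897441303) (l 300278650615)) (l 16799528)) (b (l 309942327927) (l 16779824))) (l 16770688))) (b (a (l 16765600) (l 16766680)) (l 16757680)))) (b (a (b (a (b (b (l 323900974903) (l 16799504)) (l 16780584)) (l 16774888)) (l 16767728)) (l 16762176)) (a (l 16751752) (l 16743120)))))) (a (b (a (l 2) (b (a (l 2) (b (a (l 2) (l 125191581815)) (l 2))) (l 2))) (l 2)) (b (a (a (b (b (l 16780056) (l 16763576)) (l 16755824)) (b (l 16757384) (l 16722264))) (b (a (l 16725832) (l 16718472)) (l 16710024))) (a (b (l 60230117783) (l 2)) (b (l 16689536) (l 16649648)))))), by decide +kernel⟩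

def k3_pm_001 : ∃ t, chk3 f_pm_001 t 7 6 1 = true :=
  ⟨(b (a (b (a (b (a (b (a (b (l 501605218039) (a (l 473687923447) (l 16798696))) (b (l 330880302823) (l 16781120))) (a (a (l 16809376) (l 16782064)) (l 16776992))) (b (l 16776488) (l 16771480))) (a (l 16769184) (l 16763720))) (b (l 16769688) (l 16760912))) (a (b (l 16773488) (l 16755864)) (b (l 16749112) (l 16733504)))) (b (a (l 16787472) (l 16770776)) (a (l 16746392) (l 16754464)))) (a (a (b (b (l 16711976) (l 16682616)) (b (l 16645576) (l 16599456))) (b (l 16700888) (l 16635640))) (b (a (l 16711568) (l 16725544)) (a (l 16655936) (l 16678768))))), by decide +kernel⟩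

def k4_pm_001 : ∃ t, chk3 f_pm_001 t 3 7 1 = true :=
  ⟨(a (b (a (l 2) (b (a (l 2) (b (l 16583200) (l 2))) (l 2))) (l 2)) (a (b (b (a (a (l 16580000) (l 16544200)) (l 16557336)) (a (b (l 16503976) (l 2)) (l 16495784))) (b (a (l 2) (l 16467176)) (l 2))) (b (b (a (l 16571416) (l 16607552)) (a (l 16447584) (l 16503128))) (b (a (l 16363360) (l 16354224)) (a (l 16348584) (l 16243032)))))), by decide +kernel⟩

theorem s5_pm_001 : ∃ t, chk3 f_pm_001 t 3 6 1 = true := ex3_a k2_pm_001 k3_pm_001

theorem s6_pm_001 : ∃ t, chk3 f_pm_001 t 3 3 1 = true := ex3_b s5_pm_001 k4_pm_001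

theorem s7_pm_001 : ∃ t, chk3 f_pm_001 t 3 1 1 = true := ex3_b k1_pm_001 s6_pm_001

theorem s8_pm_001 : ∃ t, chk3 f_pm_001 t 1 1 1 = true := ex3_a k0_pm_001 s7_pm_001

theorem c_pm_001 : CertN 0 536870912 0 536870912 469762048 67108864 3 true true false .up 0 0 1
    ndN0q0 ndN4q0 pcN1 Cut.none Ext.none :=
  certN1 (fam := true) (s1 := true) (s2 := false) (a := 0) (b := 0) (c := 1) (cn := .up) (n1 := ndN0q0) (n2 := ndN4q0) (pc := pcN1) (cut := Cut.none) (xt := Ext.none) (P1 := 0) (W1 := 536870912) (P2 := 0) (W2 := 536870912) (P3 := 469762048) (W3 := 67108864) (N0 := 3)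
    rfl (fun _ => rfl) s8_pm_001

noncomputable def cut_pm_011 : Cut := Cut.of [[⟨0, 0, 0, 67108864⟩, ⟨1, 1, 0, 67108864⟩, ⟨2, 1, 0, 67108864⟩]]

noncomputable def f_pm_011 : ℕ → ℕ → ℕ → ℕ → Bool := onCell 0 536870912 536870912 536870912 469762048 67108864
    (rowN 3 1 true true false .pnn 0 1 1 (qsf 0 536870912 536870912 536870912 1) ndN0q0 ndN4q1 pcN1 cut_pm_011 Ext.none)

def k0_pm_011 : ∃ t, chk3 f_pm_011 t 1 2 1 = true :=
  ⟨(a (l 3) (b (l 1) (a (l 3) (l 1)))), by decide +kernel⟩

def k1_pm_011 : ∃ t, chk3 f_pm_011 t 4 6 1 = true :=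
  ⟨(l 3), by decide +kernel⟩

def k2_pm_011 : ∃ t, chk3 f_pm_011 t 5 12 1 = true :=
  ⟨(l 3), by decide +kernel⟩

def k3_pm_011 : ∃ t, chk3 f_pm_011 t 10 13 1 = true :=
  ⟨(l 3), by decide +kernel⟩

def k4_pm_011 : ∃ t, chk3 f_pm_011 t 11 26 1 = true :=
  ⟨(l 3), by decide +kernel⟩

def k5_pm_011 : ∃ t, chk3 f_pm_011 t 22 27 1 = true :=
  ⟨(b (l 3) (c (a (l 3) (b (l 3) (a (l 3) (b (l 3) (a (l 3) (b (l 452213088263) (a (l 474761662135) (b (l 407115934983) (l 16778744))))))))) (a (l 3) (b (l 3) (a (l 3) (b (l 3) (a (l 3) (b (l 512879502055) (a (l 469392951111) (l 300815489031)))))))))), by decide +kernel⟩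

def k6_pm_011 : ∃ t, chk3 f_pm_011 t 23 27 1 = true :=
  ⟨(b (a (l 3) (b (a (l 3) (a (l 3) (b (l 3) (c (l 460266157079) (l 485499087495))))) (c (a (b (l 3) (a (l 463487388663) (b (l 450065604215) (a (l 425369538295) (l 366313748551))))) (b (a (b (l 3) (l 435033216407)) (b (l 452749965111) (l 247665278551))) (a (b (a (l 447381244311) (l 16778784)) (l 16779352)) (l 16776824)))) (a (b (l 3) (a (l 488720314087) (b (l 467245471047) (a (l 484425336343) (l 16777424))))) (b (a (b (l 3) (l 490867788839)) (b (l 437717566711) (l 16778640))) (a (b (a (l 401210356215) (l 16778600)) (l 16777496)) (l 16774448))))))) (a (b (c (a (l 3) (b (a (l 3) (b (l 3) (a (l 3) (l 425906409287)))) (a (b (l 451676217319) (a (l 426980151127) (l 345912646919))) (b (a (l 429664504231) (l 16778784)) (l 16778864))))) (a (l 3) (b (a (l 3) (b (l 3) (l 494089014871))) (a (b (l 470466697127) (a (l 480130369319) (l 307794812695))) (b (a (l 391009808375) (l 16778472)) (l 16777104)))))) (a (c (b (a (b (l 3) (a (l 3) (l 428053892903)))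 (b (a (l 437180700439) (l 422685192807)) (a (b (l 305110472135) (l 16778576)) (l 16779288)))) (a (b (a (l 413558387207) (l 16779064)) (l 16778224)) (l 16775320))) (b (a (b (l 3) (l 489794050455)) (b (a (l 453286825751) (l 403357827575)) (a (l 311552908135) (l 16777856)))) (a (b (a (l 395841634807) (l 16778320)) (l 16776544)) (l 16773328)))) (a (b (c (b (l 163376544407) (l 16776304)) (l 16784192)) (l 16789464)) (l 16782912)))) (b (c (a (b (a (b (a (l 435033216647) (l 446307502519)) (a (l 348060138807) (l 16779640))) (l 16785320)) (l 16783912)) (l 16766120)) (a (b (a (b (a (l 449528729015) (l 399599742903)) (l 187535737431)) (l 16787304)) (l 16792064)) (l 16763520))) (a (l 16778824) (l 16765984))))), by decide +kernel⟩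

def k7_pm_011 : ∃ t, chk3 f_pm_011 t 8 14 1 = true :=
  ⟨(l 3), by decide +kernel⟩

def k8_pm_011 : ∃ t, chk3 f_pm_011 t 9 28 1 = true :=
  ⟨(l 3), by decide +kernel⟩

def k9_pm_011 : ∃ t, chk3 f_pm_011 t 18 29 1 = true :=
  ⟨(l 3), by decide +kernel⟩

def k10_pm_011 : ∃ t, chk3 f_pm_011 t 19 58 1 = true :=
  ⟨(l 3), by decide +kernel⟩

def k11_pm_011 : ∃ t, chk3 f_pm_011 t 38 59 1 = true :=
  ⟨(l 3), by decide +kernel⟩

def k12_pm_011 : ∃ t, chk3 f_pm_011 t 39 118 1 = true :=
  ⟨(l 3), by decide +kernel⟩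

def k13_pm_011 : ∃ t, chk3 f_pm_011 t 78 119 1 = true :=
  ⟨(b (l 3) (a (l 3) (b (l 3) (a (a (l 3) (b (l 3) (b (l 3) (c (l 458118662327) (l 479056627367))))) (a (b (l 3) (c (b (l 457581791095) (c (l 245517782775) (l 234780364279))) (b (l 465097983303) (c (l 222969204007) (l 217600494263))))) (b (a (l 3) (b (l 3) (c (l 417316471879) (l 367387480423)))) (c (c (b (l 220821720535) (l 16777128)) (l 141901695191)) (c (l 95730798311) (l 16778928))))))))), by decide +kernel⟩

def k14_pm_011 : ∃ t, chk3 f_pm_011 t 79 119 1 = true :=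
  ⟨(b (a (l 3) (b (a (l 3) (b (l 3) (a (l 3) (c (l 440938794615) (b (l 3) (l 461339887639)))))) (a (b (l 3) (c (a (b (l 3) (l 457044920087)) (b (l 428053893159) (c (l 226727300535) (l 16777720)))) (a (b (l 3) (l 460266144951)) (b (l 431275115367) (l 151565374423))))) (a (b (b (l 3) (c (a (l 429127632551) (l 334101485367)) (l 401747217543))) (c (c (l 16777552) (l 16777296)) (l 52781127207))) (c (b (b (a (l 457581790583) (l 298131132711)) (l 16777696)) (l 16776248)) (b (b (l 317995356167) (l 16777240)) (l 16775704))))))) (a (b (a (b (l 3) (a (l 3) (b (l 3) (a (c (l 456508048855) (l 473687917447)) (c (l 293299294951) (l 270750715591)))))) (a (b (a (l 3) (c (l 438791310183) (l 481204111655))) (c (b (a (l 442012533943) (l 261087039767)) (l 16777520)) (b (a (l 380272382551) (l 16778672)) (l 16777080)))) (b (c (b (l 458655533159) (a (l 358260676183) (l 16779096))) (b (l 479593498135) (c (l 257328942583) (l 244444040471)))) (c (l 16776896) (l 16776408))))) (a (b (c (b (a (a (l 431811987223) (l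 353965706663)) (l 156397210695)) (c (l 132238018519) (l 87677734311))) (a (b (a (l 452213081303) (l 325511548887)) (l 118279377815)) (l 16779368))) (c (l 16778312) (l 16777824))) (c (c (l 16779632) (l 16779352)) (l 16774056)))) (c (b (a (a (b (c (b (l 251960233815) (l 16777376)) (l 176261433623)) (l 16775664)) (l 16778120)) (l 16778808)) (l 16775592)) (b (a (a (b (c (l 174650820119) (l 108078829255)) (l 16775144)) (l 16778896)) (l 16773000)) (l 16772408))))), by decide +kernel⟩

def k15_pm_011 : ∃ t, chk3 f_pm_011 t 8 30 1 = true :=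
  ⟨(a (l 3) (b (l 3) (a (l 3) (b (l 3) (a (l 3) (b (l 3) (a (l 3) (b (l 3) (a (b (l 3) (a (l 3) (b (l 3) (c (a (a (l 3) (b (l 3) (c (l 271824455239) (l 242833426231)))) (c (b (a (l 434496340903) (l 253570844151)) (l 62444799527)) (b (a (l 444696888151) (l 249812747671)) (l 16777776)))) (c (a (b (l 3) (a (l 3) (l 229411653511))) (b (a (l 454897435415) (l 210084300599)) (l 16778376))) (a (l 425369535559) (b (a (l 466171724503) (l 204715591415)) (l 16778328)))))))) (b (a (l 3) (a (b (l 3) (b (l 3) (c (c (a (l 316921612119) (l 190220076327)) (a (l 320679708327) (l 186998850679))) (c (a (l 279340648519) (l 16777944)) (a (l 273435068423) (l 16777904)))))) (b (a (l 3) (a (l 3) (c (c (l 436106954135) (l 445770630471)) (l 465634854119)))) (b (c (c (a (l 298668001015) (l 173577077943)) (a (l 301889226311) (l 16777968))) (c (c (l 232096007287) (l 181630142167)) (c (l 178945787575) (l 168745240375)))) (c (l 16778280) (l 16778168)))))) (a (b (c (a (b (l 3) (c (a (l 425906406215) (l 233706620343))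 (a (l 432885727991) (l 229411652951)))) (c (b (a (l 406042182375) (l 207399945607)) (l 16777096)) (b (a (l 412484633239) (l 211694912647)) (l 16777032)))) (b (a (l 3) (c (a (l 298131130535) (l 163376530983)) (a (l 292762421351) (l 16777880)))) (a (c (a (l 440401920679) (l 190220076791)) (a (l 312626645207) (l 184851367591))) (l 16778264)))) (a (c (c (c (l 16778192) (l 16778160)) (l 16778112)) (c (l 16778056) (l 16776696))) (c (c (l 16776272) (l 16776200)) (l 16776112)))) (b (c (a (c (l 16778088) (l 16778024)) (l 16777456)) (c (l 16776512) (l 16776624))) (c (l 16777304) (l 16777168)))))))))))))), by decide +kernel⟩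

def k16_pm_011 : ∃ t, chk3 f_pm_011 t 16 31 1 = true :=
  ⟨(b (b (l 3) (l 6)) (l 6)), by decide +kernel⟩

def k17_pm_011 : ∃ t, chk3 f_pm_011 t 34 124 1 = true :=
  ⟨(a (l 3) (b (l 3) (a (l 3) (b (l 3) (a (l 3) (b (l 3) (a (b (l 3) (c (a (b (l 3) (c (a (l 3) (b (l 3) (l 270213842551))) (l 435570082823))) (a (b (l 3) (b (c (l 256792069783) (l 254644586103)) (c (l 87140861047) (l 16777880)))) (b (b (l 3) (c (l 246054651511) (l 244444038727))) (c (l 16777760) (l 16777728))))) (a (b (l 3) (c (l 443623146471) (l 451139339207))) (a (b (l 3) (a (b (l 3) (l 112373794471)) (c (l 105394472295) (l 98415150391)))) (b (a (l 3) (c (l 250349619015) (l 248739006327))) (c (l 16777696) (l 16777016))))))) (b (c (a (a (l 3) (b (l 3) (b (l 3) (c (l 225116685879) (l 222969202183))))) (a (b (l 3) (b (c (l 214379267607) (l 212231783895)) (c (l 16777192) (l 16777160)))) (b (b (l 3) (c (l 203104978423) (l 201494365623))) (c (l 16777696) (l 16777000))))) (c (a (b (l 3) (l 420537697095)) (a (b (l 3) (c (l 109152568615)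 (l 105394472199))) (b (b (l 3) (l 196662527415)) (l 16776968)))) (a (b (l 3) (l 427517018919)) (b (l 415705858775) (a (l 97341408727) (l 16776944)))))) (c (c (c (a (b (a (b (l 280414389367) (l 16777232)) (l 16777080)) (l 16776680)) (l 16776368)) (a (b (a (b (l 290614936583) (l 16777216)) (l 16777064)) (l 16776656)) (l 16776344))) (c (a (a (b (b (l 289004323831) (l 16777200)) (l 16776784)) (l 16777424)) (l 16776328)) (a (a (b (b (l 288467452887) (l 16777184)) (l 16776768)) (l 16776752)) (l 16776312)))) (c (c (a (a (a (b (l 182167012663) (l 16776824)) (l 16777776)) (l 16776736)) (l 16776288)) (a (a (b (l 133311759735) (l 16776736)) (l 16776720)) (l 16776272))) (c (a (a (b (l 116131890535) (l 16776720)) (l 16776704)) (l 16776256)) (a (a (b (l 113447535911) (l 16776712)) (l 16776688)) (l 16776240))))))))))))), by decide +kernel⟩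

def k18_pm_011 : ∃ t, chk3 f_pm_011 t 68 125 1 = true :=
  ⟨(b (b (l 3) (l 6)) (l 6)), by decide +kernel⟩

def k19_pm_011 : ∃ t, chk3 f_pm_011 t 138 500 1 = true :=
  ⟨(a (l 3) (b (l 3) (a (a (l 3) (b (l 3) (b (l 3) (b (a (l 3) (c (c (c (l 261623907575) (l 260550165735)) (l 243370296839)) (c (l 242833425895) (l 241759684039)))) (c (c (a (c (l 274508809495) (l 269676971271)) (l 71571604551)) (a (l 253570844199) (l 16777856))) (c (a (l 253033973255) (l 16777832)) (a (l 251960231415) (l 16777808)))))))) (b (c (a (l 3) (a (b (l 3) (b (l 3) (c (c (l 265918874535) (l 234243490935)) (l 211158042103)))) (b (l 3) (b (c (c (l 260013294455) (l 225116685399)) (l 200420623831)) (c (l 16777824) (l 16777136)))))) (a (l 3) (a (b (l 3) (c (l 400673473047) (b (l 3) (l 210084300135)))) (a (b (l 3) (b (l 340007060967) (l 16777992))) (b (l 3) (c (l 16777832) (l 16777808))))))) (c (c (b (a (a (b (l 3) (c (l 253033972951) (l 251423360199))) (b (c (l 243907167415) (l 242296554663)) (l 16777848))) (c (l 16777560)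 (l 16777544))) (a (c (l 16777592) (l 16777576)) (l 16777000))) (a (b (a (l 406042182279) (b (l 221358589463) (l 16777824))) (c (l 16777560) (l 16777552))) (a (b (l 16777672) (l 16776464)) (l 16776440)))) (a (b (a (c (l 414095245927) (l 422685180487)) (b (c (l 220284847607) (l 220821718407)) (c (l 16777800) (l 16777120)))) (c (l 16777856) (l 16777832))) (b (c (l 16777824) (l 16777800)) (l 16777576)))))))), by decide +kernel⟩

def k20_pm_011 : ∃ t, chk3 f_pm_011 t 138 501 1 = true :=
  ⟨(a (b (a (l 6) (a (l 6) (b (b (l 3) (l 6)) (l 6)))) (l 6)) (b (c (a (b (b (a (b (c (l 421074567959) (l 429664502519)) (a (c (l 404968440343) (l 272898197111)) (c (c (l 108615697223) (l 16777576)) (l 82845893783)))) (a (c (b (l 81235280999) (l 16776968)) (l 23790093495)) (b (l 16777920) (l 16777320)))) (a (a (a (l 6) (c (l 16777720) (l 16777696))) (c (l 16776848) (l 16776816))) (l 16777048))) (c (l 16776528) (l 16776496))) (b (c (l 16776464) (l 16776432)) (l 16775992))) (a (b (a (c (b (a (l 443086275319)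 (b (l 262697649719) (l 16777864))) (c (l 16777600) (l 16777592))) (b (a (l 452213080791) (a (l 199883753047) (l 106468214071))) (l 16777904))) (b (c (c (l 16777568) (l 16777560)) (l 16777864)) (l 16776992))) (c (l 16776464) (l 16776432))) (b (a (l 16776680) (l 16776736)) (l 16775912)))) (a (a (l 6) (c (l 16775208) (l 16775128))) (c (l 16774328) (l 16774232))))), by decide +kernel⟩

def k21_pm_011 : ∃ t, chk3 f_pm_011 t 278 1000 1 = true :=
  ⟨(a (b (l 3) (c (a (l 3) (a (b (l 3) (b (l 3) (c (c (l 230485394215) (l 229948523271)) (l 169818981751)))) (a (b (l 3) (b (c (l 246591522071) (l 243907167463)) (l 16777816))) (b (l 3) (c (l 16777824) (l 16777792)))))) (a (l 3) (a (b (l 3) (b (l 3) (c (l 167671498055) (l 165524014375)))) (b (l 3) (c (c (l 73182217367) (l 69960991863)) (l 62981670231))))))) (c (b (a (b (l 3) (c (l 445770630327) (l 454360564887))) (b (c (l 438791308407) (l 446844372055)) (a (b (c (l 424295793255) (l 298131130039)) (c (a (l 220284847127) (l 16777248)) (l 119889986807)))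 (b (c (l 118816245015) (l 108615697639)) (l 16778000))))) (c (a (b (a (b (l 430201373351) (c (l 211694912231) (l 208473686743))) (a (b (l 233706619959) (l 16777144)) (l 16777784))) (l 16777624)) (l 16776696)) (a (b (a (b (l 441475662455) (l 148344145207)) (b (l 137069856055) (l 16777040))) (l 16776768)) (l 16776624)))) (b (a (b (l 3) (c (l 463487370359) (l 473687917671))) (a (b (l 3) (c (b (l 296520517335) (l 16777824)) (b (l 300815484519) (l 16777888)))) (b (b (l 3) (c (l 288467453623) (l 287393711687))) (c (l 16777768) (l 16777744))))) (c (a (b (a (b (l 451676209751) (l 145659790615)) (l 55465477431)) (l 16776736)) (l 16776752)) (a (a (b (b (l 473687917111) (l 16777888)) (l 16776864)) (c (l 16777832) (l 16777816))) (l 16776392)))))), by decide +kernel⟩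

def k22_pm_011 : ∃ t, chk3 f_pm_011 t 278 1001 1 = true :=
  ⟨(c (a (b (c (a (b (b (a (l 3) (c (l 241759683383) (l 239612199719))) (a (c (l 250886488919) (l 215989879863)) (l 16777136))) (c (l 16777528) (l 16777512))) (c (b (l 16777496) (l 16776288)) (l 16776712))) (a (b (a (b (l 3) (l 190220076471)) (b (l 180019529111) (l 16777104))) (l 16777816)) (c (l 16776696) (l 16776680)))) (a (c (l 16777184) (l 16776000)) (l 16776088))) (c (c (l 16776120) (l 16776096)) (c (l 16776080) (l 16776056)))) (a (c (a (b (b (a (b (l 3) (l 189146334599)) (b (l 178408916327) (l 16777080))) (l 16777464)) (l 16775968)) (c (l 16776760) (l 16776744))) (a (b (b (a (b (l 3) (l 187535721831)) (c (l 80698410151) (l 76940313751))) (l 16776784)) (l 16775936)) (c (l 16776568) (l 16776552)))) (b (a (l 16776544) (l 16776600)) (l 16775776)))), by decide +kernel⟩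

def k23_pm_011 : ∃ t, chk3 f_pm_011 t 279 500 1 = true :=
  ⟨(b (c (c (a (a (b (b (a (b (l 280414389911) (l 104857601287)) (a (l 65129153735) (l 16777064))) (l 16777392)) (l 16775904)) (b (l 16776592) (l 16775320))) (l 16775976)) (a (a (b (a (b (b (l 276656293559) (l 97878279367)) (l 16776848)) (b (l 16777760) (l 16776552))) (l 16775864)) (l 16776648)) (l 16775928))) (c (a (c (a (b (b (b (a (l 337859576839) (l 16777216)) (l 16777744)) (l 16776680)) (l 16775840)) (l 16776456)) (a (a (b (b (b (l 299741742311) (l 16777224)) (l 16776808)) (l 16775968)) (b (l 16777448) (l 16775672))) (l 16776440))) (l 16776216)) (a (b (c (a (a (b (l 162302789127) (l 16776792)) (l 16777432)) (l 16776328)) (a (a (b (l 161229047287) (l 16776784)) (l 16777416)) (l 16776312))) (l 16776152)) (l 16776176)))) (c (c (l 16775000) (l 16774952)) (c (l 16774736) (l 16774528)))), by decide +kernel⟩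

def k24_pm_011 : ∃ t, chk3 f_pm_011 t 139 501 1 = true :=
  ⟨(c (a (b (a (a (l 16775504) (l 16775080)) (l 16774200)) (l 16773224)) (c (l 16772344) (l 16772272))) (a (b (a (a (l 16775584) (l 16774992)) (l 16774096)) (l 16773104)) (c (l 16772040) (l 16771816)))), by decide +kernel⟩

def k25_pm_011 : ∃ t, chk3 f_pm_011 t 69 251 1 = true :=
  ⟨(a (a (l 6) (a (l 6) (a (l 6) (b (c (l 16772024) (l 16771888)) (l 6))))) (c (b (a (c (l 16770592) (l 16770520)) (l 16768200)) (l 16766264)) (b (a (c (l 16770440) (l 16770368)) (l 16768024)) (l 16765392)))), by decide +kernel⟩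

def k26_pm_011 : ∃ t, chk3 f_pm_011 t 70 248 1 = true :=
  ⟨(a (l 3) (b (l 3) (a (b (l 3) (a (l 3) (a (l 3) (a (l 3) (b (l 3) (b (l 3) (c (c (l 392620409527) (l 400136602231)) (c (l 407652794951) (l 421611439927))))))))) (b (a (l 3) (a (l 3) (b (l 3) (b (l 3) (c (c (a (l 433422599079) (b (l 343765157527) (l 196125656087))) (c (l 358797541975) (l 362555638327))) (a (l 461876757271) (c (l 195051915095) (l 191830689559)))))))) (c (a (b (a (l 3) (a (l 3) (b (l 3) (b (l 3) (c (l 244444038391) (l 249275876439)))))) (a (a (b (l 3) (c (c (l 191830688791) (l 189146334183)) (c (l 203104977703) (l 199346881287)))) (c (b (l 374903669351) (l 16777104)) (b (l 382419862055) (l 16777064)))) (a (b (b (c (l 256792069399) (l 262160778359)) (l 16778184)) (l 16778104)) (c (l 16777448) (l 16778056))))) (b (c (b (a (a (l 3) (b (l 349670737575) (l 219211105463))) (c (l 55465477447) (l 52244251911))) (b (a (a (l 231559136471) (l 16777168)) (l 16776728)) (l 16778056))) (c (a (b (l 372756185767) (l 60834186535))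 (c (l 16777816) (l 16778128))) (a (b (l 376514282119) (l 56539219207)) (l 16778112)))) (c (l 16776256) (l 16776168)))) (a (a (b (l 3) (a (b (l 3) (c (l 124184954551) (l 116131890823))) (b (c (l 246591522903) (l 244444039207)) (l 16778312)))) (a (b (l 3) (b (c (l 109689439767) (l 97341408903)) (l 16776704))) (b (c (l 416242729927) (l 424295793559)) (c (l 16778016) (l 16776664))))) (b (c (a (b (a (l 3) (l 212231784359)) (l 44191188663)) (c (l 16778088) (l 16778064))) (a (b (a (l 3) (l 209547429751)) (l 16778032)) (l 16778040))) (l 16776752)))))))), by decide +kernel⟩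

def k27_pm_011 : ∃ t, chk3 f_pm_011 t 140 498 1 = true :=
  ⟨(a (l 3) (b (l 3) (a (b (l 3) (c (b (a (l 3) (a (b (l 3) (c (l 255718327831) (l 248202135079))) (b (c (l 244444038647) (l 236390974983)) (c (l 16777232) (l 16777192))))) (c (a (a (l 403357827831) (b (l 266992617015) (l 16777920))) (l 16777952)) (a (a (l 411410891463) (b (l 258939553367) (l 16777232))) (l 16777584)))) (b (a (l 3) (a (a (l 458118660807) (b (l 3) (l 210621171767))) (c (c (l 126332437831) (l 120426857815)) (l 109152568967)))) (c (a (a (b (l 3) (l 265382004343)) (c (l 152102241719) (l 151028499863))) (l 16778200)) (a (a (b (l 3) (l 261623907959)) (l 144049178263)) (l 16776864)))))) (b (c (b (a (l 3) (c (a (b (l 3) (l 225116685543)) (c (l 120963728519) (l 118279373911))) (a (b (l 3) (l 202031236503)) (c (l 104320730327) (l 100562633911))))) (a (c (a (b (l 3) (l 234243491271)) (b (l 222969202087) (l 16777200))) (a (b (l 3) (l 224579814887)) (c (l 120426857751) (l 117205632231)))) (c (l 16777552) (l 16778168)))) (b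 (b (a (l 3) (c (a (l 3) (l 185388238151)) (l 214379268039))) (a (l 3) (c (l 87677732471) (l 80161539639)))) (c (a (a (a (l 446844371591) (l 228874782487)) (l 102173246983)) (l 16778128)) (a (a (a (l 459729273431) (l 226727298807)) (l 94657054151)) (l 16776784))))) (a (b (c (c (l 16777592) (l 16777544)) (c (l 16778168) (l 16776824))) (c (l 16777672) (l 16776280))) (c (c (l 16776064) (l 16776024)) (l 16776616))))))), by decide +kernel⟩

def k28_pm_011 : ∃ t, chk3 f_pm_011 t 280 998 1 = true :=
  ⟨(a (b (l 3) (c (a (a (l 3) (b (l 3) (b (l 3) (c (l 182167012775) (l 178945787255))))) (a (a (b (l 3) (c (c (l 187535721143) (l 184851366551)) (l 113984406951))) (b (l 3) (c (l 16777840) (l 16777808)))) (c (b (b (l 431275115175) (l 163913401639)) (l 16776968)) (b (b (l 301352355655) (l 155860337991)) (l 16776928))))) (a (a (l 3) (b (l 3) (b (l 3) (b (l 325511545879) (l 115595020103))))) (b (a (l 3) (c (b (l 302426097431) (l 152102241559)) (b (l 302962968311) (l 16777880)))) (c (c (l 34527511847)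 (l 16777856)) (l 26474448247)))))) (b (c (a (b (l 3) (a (c (l 429664502679) (b (l 3) (l 302962968343))) (c (b (l 308331677399) (l 140827952375)) (b (l 299204871927) (l 125258695943))))) (b (a (c (l 418927084359) (l 426980147991)) (b (c (l 288467453575) (l 281488131751)) (c (l 119353115767) (l 16777912)))) (c (c (c (l 30769415223) (l 16777704)) (l 16777848)) (c (l 16777672) (l 16777648))))) (a (b (l 3) (b (a (l 3) (l 288467454359)) (c (a (l 303499839207) (l 16777912)) (a (l 304036710087) (l 16777888))))) (c (b (a (b (l 3) (l 290614937239)) (c (l 167134627351) (l 165524014599))) (l 16777952)) (b (a (l 461876758503) (c (l 164450272743) (l 162839659991))) (l 16777592))))) (c (c (a (b (a (c (l 81235281047) (l 77477184631)) (l 16776936)) (l 16776528)) (l 16776216)) (a (b (c (l 31843157191) (l 16777688)) (l 16776488)) (l 16776176))) (a (a (c (c (l 16777872) (l 16777856)) (l 16777832)) (l 16777216)) (l 16776768))))), by decide +kernel⟩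

def k29_pm_011 : ∃ t, chk3 f_pm_011 t 280 999 1 = true :=
  ⟨(c (c (c (b (b (b (a (a (a (l 239612199927) (l 16777152)) (l 16776712)) (l 16775832)) (a (l 16777384) (l 16775552))) (l 16776384)) (a (l 16775488) (l 16774312))) (b (b (b (a (a (a (l 238538458071) (l 16777128)) (l 16776688)) (l 16775808)) (a (l 16777360) (l 16775528))) (l 16776360)) (l 16776184))) (c (b (b (b (a (a (c (l 100562633943) (l 98415150279)) (l 16776672)) (l 16775784)) (a (l 16776688) (l 16775504))) (l 16776336)) (l 16776160)) (a (a (a (b (b (l 97341408519) (l 16776696)) (l 16775864)) (l 16776616)) (l 16776336)) (l 16776096)))) (c (a (a (a (b (b (c (l 94120183015) (l 89825215703)) (l 16776672)) (l 16775832)) (l 16776912)) (l 16776304)) (l 16776064)) (a (a (a (b (b (l 81772152231) (l 16776640)) (l 16775800)) (l 16776720)) (l 16776272)) (l 16776024)))), by decide +kernel⟩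

def k30_pm_011 : ∃ t, chk3 f_pm_011 t 281 499 1 = true :=
  ⟨(b (c (c (b (b (b (a (a (l 39896220983) (l 16776560)) (l 16775672)) (a (l 16777560) (l 16775392))) (l 16776392)) (l 16776048)) (a (a (b (b (l 16777952) (l 16776416)) (l 16775576)) (l 16776200)) (l 16775960))) (c (a (a (a (b (l 16777784) (l 16775688)) (l 16776600)) (l 16776152)) (l 16775912)) (a (a (c (l 16777048) (l 16777032)) (l 16776768)) (l 16775864)))) (c (c (l 16774392) (l 16774328)) (c (l 16774272) (l 16774224)))), by decide +kernel⟩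

def k31_pm_011 : ∃ t, chk3 f_pm_011 t 141 498 1 = true :=
  ⟨(a (b (c (a (b (a (l 3) (a (l 3) (c (l 444160017799) (l 452749952343)))) (b (b (a (l 3) (c (a (l 347523253751) (l 175187690439)) (a (l 316921611959) (l 16777944)))) (a (c (l 433422599111) (l 444696888199)) (c (c (l 95730795527) (l 16777872)) (l 65666024855)))) (c (a (a (b (l 432348857031) (l 218674234375)) (a (l 121500599703) (l 16777184))) (l 16776824)) (a (a (a (l 269140100999) (l 192367560375)) (l 76940314055)) (l 16776776))))) (b (a (a (b (l 3) (c (b (l 313163515559) (l 16777648)) (c (l 192367560135) (l 188609463751)))) (c (b (l 409800278791) (l 16777840)) (b (l 417853342407) (l 16777792)))) (a (b (c (c (l 217063621671) (l 215453008903)) (c (l 181630141751) (l 174113949031))) (l 16778176)) (c (l 16777856) (l 16777480)))) (c (c (l 16776304) (l 16776360)) (l 16776488)))) (a (b (a (l 3) (c (l 462413629015) (l 469392950839))) (a (a (b (l 3) (c (b (l 311552902951) (l 16777912)) (l 204178720647))) (b (l 460803015479) (c (l 16777832)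 (l 16777800)))) (a (b (c (b (l 309405419223) (l 16777912)) (l 186998851383)) (l 16776864)) (c (l 16777848) (l 16778136))))) (b (b (b (a (l 3) (c (c (l 159618434487) (l 156397209015)) (l 147807274631))) (c (a (a (l 3) (l 284709357143)) (l 16777072)) (a (l 444696889255) (l 16777032)))) (b (a (c (a (l 297057388151) (l 16777232)) (l 164987143879)) (l 16776776)) (c (l 16778128) (l 16778088)))) (c (l 16776448) (l 16776408))))) (a (b (c (c (c (a (l 16777248) (l 16776008)) (l 16776480)) (l 34527509399)) (c (l 16776528) (l 16776488))) (c (l 16776464) (l 16776368))) (a (c (l 16776128) (l 16776024)) (c (l 16775536) (l 16775424))))) (c (c (b (a (b (l 16776376) (l 16775024)) (c (l 16774736) (l 16775032))) (l 16774080)) (b (b (l 16776472) (l 16775680)) (l 16774016))) (a (b (c (l 16776464) (l 16776416)) (l 16774528)) (b (l 16775560) (l 16774632))))), by decide +kernel⟩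

def k32_pm_011 : ∃ t, chk3 f_pm_011 t 141 499 1 = true :=
  ⟨(c (a (b (a (l 16774800) (l 16774920)) (l 16773296)) (c (l 16772072) (l 16771992))) (a (b (a (l 16774688) (l 16774800)) (l 16773160)) (a (l 16772472) (l 16771272)))), by decide +kernel⟩

def k33_pm_011 : ∃ t, chk3 f_pm_011 t 142 496 1 = true :=
  ⟨(a (b (l 3) (a (l 3) (a (l 3) (b (l 3) (b (l 3) (a (c (c (l 371682443863) (l 252497102951)) (c (l 249812748327) (l 246054651895))) (c (c (c (l 173040206935) (l 169282110503)) (l 119353116279)) (c (l 110763181591) (l 16777880))))))))) (b (a (l 3) (b (l 3) (c (a (b (l 3) (c (l 424832664663) (l 433422599175))) (a (b (l 3) (c (b (l 326585288311) (l 16777344)) (l 181630142247))) (c (b (l 400136602327) (l 16777200)) (b (l 407115924103) (l 16777152))))) (c (a (l 459192403463) (b (l 430738245111) (c (l 103783859799) (l 99488892471)))) (a (l 466708596183) (b (a (l 3) (l 280414390375)) (l 86603990919))))))) (a (b (c (c (b (l 448991856391) (a (l 435033212183) (a (a (l 309942290087) (l 242296554839))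 (l 102710117719)))) (a (l 458118661879) (b (l 444696888423) (a (l 217600493511) (l 16777888))))) (c (a (l 466708596423) (b (l 460803016391) (a (l 213842397047) (l 16777184)))) (a (l 474224789159) (b (l 478519756439) (c (l 123648083607) (l 118816245383)))))) (c (a (c (b (a (b (l 3) (l 237464716695)) (l 116131890679)) (l 16776936)) (b (a (l 235317233687) (l 104320730599)) (l 16776880))) (c (l 16777928) (l 16777872))) (a (a (b (b (l 3) (l 182703884631)) (l 16778272)) (c (l 16777944) (l 16778224))) (l 16777144)))) (c (b (b (b (a (c (a (l 348596995783) (l 16777352)) (l 193978173271)) (l 16778224)) (c (c (l 16777640) (l 16778264)) (l 16778224))) (c (l 16777864) (l 16777808))) (c (l 16775720) (l 16775664))) (a (b (b (a (b (l 432885730279) (l 113984407719)) (l 44191189223)) (l 16776720)) (l 16776208)) (c (l 16776192) (l 16776464))))))), by decide +kernel⟩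

def k34_pm_011 : ∃ t, chk3 f_pm_011 t 142 497 1 = true :=
  ⟨(a (b (c (a (b (a (l 3) (b (l 3) (c (a (l 407652795143) (c (l 212768654551) (l 218137363559))) (a (l 416242729655) (c (l 224579814375) (l 223506072519)))))) (c (a (b (a (l 425906406231) (b (l 337322706503) (l 16777992))) (c (l 16777768) (l 16777736))) (c (l 16777776) (l 16778080))) (a (b (c (l 345912639991) (l 349670736343)) (l 16778032)) (c (l 16778056) (l 16778032))))) (b (b (c (a (a (l 390472925863) (c (l 198273139767) (l 196125656071))) (l 16776976)) (a (a (l 396915376743) (l 134385501959)) (l 16776920))) (a (c (l 16778328) (l 16776968)) (l 16777704))) (c (l 16775976) (l 16775832)))) (a (a (b (l 3) (b (a (l 444696888007) (c (l 177335174919) (l 174113949383))) (c (l 16778312) (l 16778272)))) (b (b (l 3) (c (a (l 424295793271) (l 159081563847)) (a (l 432348856903) (l 155323467399)))) (c (l 16777992) (l 16777952)))) (a (b (b (a (b (l 3) (l 236927846903)) (b (l 223506074055) (l 16778472))) (l 16778208)) (l 16776712)) (c (b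 (l 16776600) (l 16775480)) (l 16776648))))) (a (c (c (c (l 16776008) (l 16776064)) (l 16776184)) (c (l 16776616) (l 16776568))) (c (l 16775504) (l 16775384)))) (a (c (b (c (l 16775912) (l 16775848)) (l 16775624)) (b (c (l 16775792) (l 16776392)) (l 16775488))) (c (c (l 16774920) (l 16774848)) (c (l 16774776) (l 16774712))))), by decide +kernel⟩

def k35_pm_011 : ∃ t, chk3 f_pm_011 t 143 248 1 = true :=
  ⟨(b (a (b (a (b (c (a (b (l 3) (c (a (l 3) (l 381346120311)) (l 404968440647))) (a (b (l 3) (c (l 188072592487) (l 139217339975))) (b (c (l 289541195415) (l 251423361079)) (l 16778400)))) (c (a (l 439865050423) (b (l 397989118631) (l 66739767095))) (a (l 446844372231) (b (a (l 3) (l 243370297255)) (l 16778096))))) (c (a (b (a (c (l 204178719943) (l 159618434663)) (l 24863836247)) (l 16778048)) (c (l 16776448) (l 16776384))) (a (b (a (b (l 239612201447) (l 16778496)) (l 16778344)) (l 16776624)) (l 16776632)))) (c (a (b (b (a (c (l 166060885063) (l 127943050615)) (l 16778360)) (l 16777960))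 (l 16775816)) (c (l 16775992) (l 16776064))) (a (b (c (l 8757708631) (l 16778104)) (l 16775696)) (l 16776632)))) (c (a (c (c (l 16775432) (l 16775392)) (l 16775672)) (l 16775160)) (c (l 16775664) (l 16775600)))) (b (c (a (b (a (l 16777040) (l 16777744)) (l 16774312)) (l 16774976)) (c (l 16775472) (l 16775408))) (c (l 16774664) (l 16774512)))) (a (c (c (l 16773784) (l 16773696)) (c (l 16773616) (l 16773544))) (c (l 16771336) (l 16771152)))), by decide +kernel⟩

def k36_pm_011 : ∃ t, chk3 f_pm_011 t 71 249 1 = true :=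
  ⟨(a (a (c (b (b (l 16774376) (l 16772976)) (l 16769648)) (b (b (l 16774408) (l 16772824)) (l 16769464))) (c (b (l 16771696) (l 16769880)) (b (l 16771520) (l 16769664)))) (c (b (a (l 16769296) (l 16769512)) (l 16766280)) (b (a (l 16769096) (l 16769288)) (l 16766032)))), by decide +kernel⟩

def k37_pm_011 : ∃ t, chk3 f_pm_011 t 35 125 1 = true :=
  ⟨(a (b (a (a (b (b (c (c (l 16774864) (l 16774480)) (c (l 16774424) (l 16774376))) (c (l 16772944) (l 16772160))) (c (l 16770272) (l 16770112))) (c (b (c (l 16772384) (l 16772304)) (l 16767912)) (b (c (l 16772232) (l 16772168)) (l 16767720)))) (c (b (c (l 16770144) (l 16769392)) (l 16766976)) (b (c (l 16769296) (l 16768552)) (l 16764120)))) (c (a (b (l 16765976) (l 16762864)) (l 16760336)) (a (b (l 16765752) (l 16762584)) (c (l 16760112) (l 16759960))))) (a (b (c (b (l 16766640) (l 16762208)) (b (l 16766400) (l 16761928))) (c (l 16755576) (l 16755216))) (b (c (l 16759640) (l 16759320)) (l 16751896)))), by decide +kernel⟩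

def k38_pm_011 : ∃ t, chk3 f_pm_011 t 17 63 1 = true :=
  ⟨(b (a (a (l 6) (a (l 6) (a (l 6) (b (b (l 16761832) (l 6)) (l 6))))) (a (b (c (a (l 16756232) (l 16751504)) (a (l 16755880) (l 16751088))) (a (l 16749792) (l 16747656))) (b (b (l 16748952) (l 16747136)) (c (l 16740792) (l 16740184))))) (a (l 6) (b (a (c (l 16741480) (l 16740856)) (l 16731624)) (a (l 6) (l 16722768))))), by decide +kernel⟩

def k39_pm_011 : ∃ t, chk3 f_pm_011 t 36 60 1 = true :=
  ⟨(l 3), by decide +kernel⟩

def k40_pm_011 : ∃ t, chk3 f_pm_011 t 37 120 1 = true :=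
  ⟨(l 3), by decide +kernel⟩

def k41_pm_011 : ∃ t, chk3 f_pm_011 t 37 121 1 = true :=
  ⟨(a (l 3) (b (l 3) (a (b (l 3) (a (l 3) (b (a (l 3) (a (l 3) (a (l 3) (b (l 3) (c (l 443086277095) (l 453286824087)))))) (b (b (a (l 3) (c (a (l 448991855735) (c (l 16778168) (l 16777440))) (a (l 467782337319) (l 150491631047)))) (a (a (l 3) (c (l 448454984951) (l 469929821111))) (c (c (l 167134627831) (l 163913401959)) (c (l 16778568) (l 16777152))))) (c (a (a (c (l 378124895207) (l 382419862327)) (c (l 183777626375) (l 180019529607))) (l 16779304)) (a (a (b (l 469392950343) (l 224042946567)) (c (l 176798303751) (l 16778544))) (l 16779040))))))) (b (a (b (l 3) (a (l 3) (a (l 3) (b (l 3) (b (l 3) (c (l 300815485991) (l 246054654007))))))) (b (a (l 3) (b (l 3) (c (a (b (l 3) (l 449528726583)) (c (l 269676973351) (l 267529489415))) (a (l 466708597223) (b (l 321216582039) (l 16778664)))))) (a (a (b (c (b (l 3) (l 431275115831)) (l 472077306647)) (c (c (l 197736270343) (l 193441302647)) (c (l 188609464071)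 (l 16778592)))) (c (b (b (l 449528726711) (l 250886490983)) (l 16777072)) (b (b (l 470466691927) (l 190756949639)) (l 16776800)))) (b (c (c (l 142975435911) (l 80698411639)) (c (l 16778336) (l 16776904))) (c (l 16776160) (l 16775872)))))) (a (b (b (b (a (l 3) (c (c (l 224042945175) (l 212231784791)) (c (l 211158042503) (l 203641849463)))) (a (a (l 3) (c (l 311552905655) (l 300278615671))) (c (l 58686705351) (l 16779584)))) (b (c (a (a (l 418390216119) (l 177872046247)) (l 16776696)) (a (a (l 307794809367) (l 16778600)) (l 16776424))) (c (c (a (l 16778712) (l 16776232)) (l 16778656)) (c (l 16779176) (l 16779056))))) (a (c (a (l 16778936) (l 16778320)) (l 16775728)) (c (l 16777384) (l 16774472)))) (b (c (a (c (l 16775824) (l 16775664)) (l 16777120)) (l 16775560)) (c (l 16772888) (l 16772576)))))))), by decide +kernel⟩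

def k42_pm_011 : ∃ t, chk3 f_pm_011 t 72 122 1 = true :=
  ⟨(l 3), by decide +kernel⟩

def k43_pm_011 : ∃ t, chk3 f_pm_011 t 73 244 1 = true :=
  ⟨(l 3), by decide +kernel⟩

def k44_pm_011 : ∃ t, chk3 f_pm_011 t 146 245 1 = true :=
  ⟨(b (l 3) (a (l 3) (b (l 3) (a (l 3) (a (l 3) (a (l 3) (b (l 3) (b (l 3) (c (c (l 331417127143) (l 328195901543)) (l 264308264327)))))))))), by decide +kernel⟩

def k45_pm_011 : ∃ t, chk3 f_pm_011 t 147 245 1 = true :=
  ⟨(b (a (l 3) (b (l 3) (a (l 3) (b (l 3) (c (c (a (l 442012534407) (b (l 424295793671) (l 189683206103))) (a (l 452213081607) (b (l 429664502647) (l 16778056)))) (c (a (l 460803016087) (b (l 435570082551) (l 16777328))) (a (l 468856079671) (b (l 441475662487) (l 16777256))))))))) (a (b (a (l 3) (a (l 3) (b (l 3) (b (l 3) (c (c (l 267529488663) (l 271287584727)) (c (l 267529488231) (l 259476424439))))))) (a (a (b (l 3) (b (c (c (l 385104216871) (l 390472925863)) (c (l 320142837911) (l 312089774135))) (c (c (l 16778040) (l 16777296)) (l 75329702727))))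 (b (b (l 3) (c (c (l 295983647335) (l 306721065111)) (c (l 303499839527) (l 294909904839)))) (c (c (l 16778400) (l 16776992)) (c (l 16776912) (l 16776832))))) (a (b (c (c (b (l 279340648967) (l 16777296)) (b (l 289004324919) (l 16777200))) (b (c (l 285783099335) (l 277730035543)) (l 16778392))) (c (l 16779064) (l 16778880))) (c (c (l 16777752) (l 16777648)) (c (l 16777552) (l 16776160)))))) (b (a (a (a (b (l 3) (c (c (l 205789333351) (l 207936816647)) (c (l 152639113511) (l 135459244391)))) (b (b (l 3) (c (l 444696888311) (l 465097982743))) (c (c (l 16777960) (l 16777216)) (c (l 16777128) (l 16777048))))) (c (b (b (c (l 440401921271) (l 451139339367)) (c (l 235854104567) (l 221358589815))) (l 16778136)) (b (b (c (l 461339886583) (l 472077304727)) (c (l 218674234967) (l 212768654743))) (l 16777952)))) (a (b (c (b (c (l 207399946279) (l 204178720519)) (l 16777040)) (c (l 78550927783) (l 16778392))) (c (l 16776224) (l 16778648))) (c (c (l 16776224) (l 16776112)) (l 16776128)))) (b (c (a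 (l 16778648) (l 16777424)) (l 16776200)) (c (l 16776928) (l 16776712)))))), by decide +kernel⟩

def k46_pm_011 : ∃ t, chk3 f_pm_011 t 72 246 1 = true :=
  ⟨(a (l 3) (b (l 3) (a (b (l 3) (a (a (l 3) (b (l 3) (b (l 3) (c (c (a (l 314237257783) (l 187535721991)) (a (l 312089774023) (l 16778008))) (c (l 182703884055) (l 177872046407)))))) (b (c (c (a (l 438254438183) (b (l 438254437527) (l 206863074759))) (a (l 449528727895) (b (l 448454984743) (l 159618435063)))) (a (b (l 3) (c (l 458118661191) (l 469929821175))) (b (c (l 454897435607) (l 463487370119)) (c (l 142438565959) (l 126869309607))))) (b (a (c (c (a (l 293836163031) (l 16778048)) (c (l 223506073111) (l 227264169351))) (c (l 170892724423) (l 160692177175))) (c (l 16778256) (l 16778120))) (c (c (l 16776744) (l 16776664)) (c (l 16776592) (l 16776520))))))) (b (a (b (l 3) (c (c (a (l 431811987015) (b (l 407652795335) (l 173040207175))) (a (l 439865050599) (b (l 414095246167) (l 164450272439)))) (a (b (l 3) (c (l 438254437223) (l 445770629911)))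 (c (b (l 421074567927) (l 118279374535)) (b (l 428590760615) (l 16778512)))))) (b (c (a (b (l 3) (c (l 391546667863) (l 397452247783))) (b (c (l 374366798583) (l 380809249399)) (c (l 16777976) (l 16777240)))) (a (b (l 3) (c (l 403894698631) (l 410874020407))) (c (b (l 260013296391) (l 16777168)) (b (l 252497103623) (l 16777104))))) (a (c (b (c (l 156934079735) (l 16777776)) (l 16778112)) (c (l 16778264) (l 16778200))) (c (l 16777784) (l 16777624))))) (c (a (b (a (b (c (l 190756947319) (l 182167012599)) (l 16778208)) (l 16778216)) (l 16777736)) (c (l 16775160) (l 16775064))) (b (a (a (a (c (l 83919636695) (l 74792831079)) (l 16778192)) (l 16778392)) (l 16775504)) (l 16776312))))))), by decide +kernel⟩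

def k47_pm_011 : ∃ t, chk3 f_pm_011 t 144 494 1 = true :=
  ⟨(a (b (l 3) (a (a (l 3) (b (l 3) (a (l 3) (b (l 3) (b (l 3) (c (l 293836164023) (l 295983647495))))))) (a (b (l 3) (c (b (c (l 416779600903) (l 423222051767)) (c (c (l 183240754327) (l 180556399703)) (c (l 176798303271) (l 173577077735)))) (b (c (l 431275115367) (l 438791308071)) (c (l 106468214807) (l 96267667463))))) (b (b (l 3) (c (c (l 401210344359) (l 408189666119)) (c (l 415705858807) (l 423222051511)))) (b (c (a (c (l 210621171191) (l 208473687351)) (l 16778496)) (c (l 91435829191) (l 16778160))) (c (l 16778096) (l 16777968))))))) (b (a (a (l 3) (b (l 3) (b (l 3) (c (c (l 369534960359) (l 377051153015)) (c (l 383493603879) (l 391009796567)))))) (a (b (l 3) (c (c (b (a (l 436643824535) (l 251960231751)) (l 16777880)) (b (l 360408154647) (l 16777152))) (c (b (a (l 457044919015) (l 258939553159)) (l 16777088)) (b (l 224042945207) (l 16777032))))) (b (b (l 3) (c (c (a (l 424295793463) (l 230485395207)) (a (l 430201373399)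 (l 235317233143))) (c (a (l 361481897879) (l 235854103879)) (l 208473688663)))) (c (c (l 16778216) (l 16778144)) (c (l 16778080) (l 16778016)))))) (c (b (c (a (a (b (l 385641087815) (c (l 151565370391) (l 16777696))) (c (l 31306286807) (l 16778296))) (l 16777416)) (a (a (b (l 392083538663) (l 94657054375)) (l 22716352487)) (l 16777336))) (c (a (l 16777512) (l 16775000)) (l 16776016))) (b (a (c (a (b (l 400136602247) (l 16777840)) (l 16778176)) (b (a (l 407115924039) (l 16777080)) (l 16778144))) (l 16776256)) (c (l 16776104) (l 16776040)))))), by decide +kernel⟩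

def k48_pm_011 : ∃ t, chk3 f_pm_011 t 144 495 1 = true :=
  ⟨(a (b (c (a (b (b (a (c (l 435570083031) (l 446844372087)) (c (c (l 191830689095) (l 193441301703)) (c (l 195588785223) (l 191293817879)))) (a (c (a (l 273971939063) (l 16777992)) (c (l 218137363623) (l 215989879927))) (l 16778192))) (a (c (l 16776688) (l 16776616)) (l 16777360))) (c (b (c (l 16776312) (l 16776280)) (l 16775184)) (l 16776160))) (b (a (a (b (c (l 456508048439) (l 471540433911)) (c (c (l 212768654423) (l 149417887415)) (l 145659791479))) (b (c (c (l 186998850535) (l 197199397655)) (l 110226311319)) (l 16778072))) (l 16776784)) (c (l 16776384) (l 16776240)))) (c (c (a (l 16777016) (l 16773520)) (l 16775352)) (c (l 16775280) (l 16775216)))) (a (c (c (l 16775392) (l 16775312)) (c (l 16775232) (l 16774496))) (c (l 16774144) (l 16773968)))), by decide +kernel⟩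

def k49_pm_011 : ∃ t, chk3 f_pm_011 t 145 247 1 = true :=
  ⟨(b (a (b (c (c (a (b (a (b (a (l 341617674231) (l 204715591335)) (l 16777128)) (l 16776816)) (l 16777320)) (l 16775520)) (a (b (a (b (a (l 333027739687) (l 203641849255)) (l 16777056)) (l 16776736)) (l 16777240)) (l 16775600))) (c (b (a (a (b (a (l 333564610423) (l 16777936)) (l 16776992)) (l 16776664)) (l 16777064)) (l 16775904)) (b (a (a (b (l 192367561207) (l 16776928)) (l 16776600)) (l 16775680)) (l 16775832)))) (c (b (l 16775560) (l 16775760)) (l 16775496))) (c (c (l 16775048) (l 16774952)) (c (l 16774856) (l 16774776)))) (a (c (l 16772976) (l 16772784)) (b (l 16771960) (l 16771944)))), by decide +kernel⟩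

def k50_pm_011 : ∃ t, chk3 f_pm_011 t 146 246 1 = true :=
  ⟨(b (a (b (a (l 3) (a (l 3) (a (l 3) (b (l 3) (b (l 3) (c (l 442549405975) (l 463487372647))))))) (a (b (l 3) (b (a (l 3) (c (c (l 270750714007) (l 265918875671)) (c (l 283098744423) (l 221358590439)))) (a (c (c (l 357723800199) (l 282025003127)) (c (l 250349619703) (l 235854105239))) (c (c (l 16777224) (l 16777144)) (l 16778344))))) (b (b (a (l 3) (c (c (l 237464717303) (l 242296555223)) (c (l 247128393159) (l 192367560855)))) (a (c (c (l 255181457463) (l 260550166295)) (c (l 265918875143) (l 204178721159))) (c (l 16778400) (l 16778240)))) (c (c (l 16777928) (l 16777832)) (c (l 16777752) (l 16777680)))))) (b (a (a (b (l 3) (c (b (c (l 439328179431) (l 449528726631)) (c (l 226190427959) (l 210621171383))) (b (c (l 459729273863) (l 470466692023)) (c (l 215453009239) (l 153712855159))))) (b (a (l 3) (b (l 3) (c (l 431275116599) (l 442012535927)))) (b (c (c (l 197736269655) (l 199346882055)) (c (l 192904430919) (l 16777920))) (c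 (l 16778296) (l 16778128))))) (b (c (a (b (c (l 420537697287) (l 426443277191)) (c (l 185388238503) (l 181630141879))) (c (c (l 130090533687) (l 16777824)) (l 56539220231))) (c (a (b (l 433422598935) (l 16777960)) (l 16778328)) (a (b (l 440401920695) (l 16777240)) (l 16778256)))) (c (c (l 16776408) (l 16776312)) (l 16776344)))) (c (c (a (b (l 16776512) (l 16775400)) (l 16777360)) (a (b (l 16776416) (l 16775304)) (l 16774640))) (c (l 16776144) (l 16776064))))) (c (b (b (a (a (c (c (l 16778048) (l 16778008)) (l 16777944)) (l 16778080)) (l 16776248)) (a (c (l 16777624) (l 16774912)) (l 16772512))) (c (l 16774744) (l 16774632))) (b (a (a (b (c (l 16777864) (l 16776480)) (l 16775392)) (l 16776040)) (l 16775496)) (c (l 16774536) (l 16774440))))), by decide +kernel⟩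

def k51_pm_011 : ∃ t, chk3 f_pm_011 t 147 246 1 = true :=
  ⟨(a (c (b (b (a (c (c (l 16777080) (l 16777032)) (l 16775648)) (l 16777096)) (l 16774168)) (l 16772128)) (b (a (c (l 16775744) (l 16775656)) (l 16775112)) (l 16771904))) (b (c (a (l 16774752) (l 16773520)) (l 16773912)) (a (l 16770816) (l 16771544)))), by decide +kernel⟩

def k52_pm_011 : ∃ t, chk3 f_pm_011 t 73 247 1 = true :=
  ⟨(b (c (a (a (l 16772568) (l 16772744)) (l 16769072)) (a (a (l 16772352) (l 16772512)) (l 16768800))) (a (c (l 16769520) (l 16766640)) (l 16764464))), by decide +kernel⟩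

def k53_pm_011 : ∃ t, chk3 f_pm_011 t 74 244 1 = true :=
  ⟨(a (b (l 3) (a (l 3) (b (l 3) (a (a (l 3) (a (l 3) (b (l 3) (b (l 3) (c (l 445233759191) (l 466708595399)))))) (b (a (l 3) (a (l 3) (b (l 3) (c (l 331417128391) (l 311552904855))))) (c (a (b (c (l 442012533959) (l 452213081127)) (c (l 233169750055) (l 224042944407))) (c (l 150491628999) (l 151028499527))) (c (a (l 353428832695) (l 16778480)) (a (l 359334412599) (l 16778392))))))))) (b (a (l 3) (b (l 3) (a (a (l 3) (b (l 3) (c (c (l 362018767735) (l 367387476679)) (c (l 372219314743) (l 378124894647))))) (a (b (b (l 3) (c (l 447918115239) (l 468856079207))) (c (c (l 171966465831) (l 170355852711)) (c (l 169282110519) (l 16778480)))) (b (c (b (l 440938793255) (c (l 224579815559) (l 16778728))) (b (l 450065599767) (l 145122921911))) (c (l 16776872) (l 16776640))))))) (a (b (a (a (l 3) (b (l 3) (c (c (l 416779601239) (l 423222052023)) (c (l 429127631927) (l 436643824567))))) (a (b (l 3) (b (c (c (l 322290322247) (l 318532225703))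 (c (l 314237258263) (l 315310999783))) (c (l 105394474151) (l 16778512)))) (c (b (c (l 389399184487) (l 395304764343)) (c (l 16777168) (l 16777048))) (b (c (l 401747215143) (l 407652795063)) (l 16779512))))) (a (b (a (c (b (c (l 418390213591) (l 422685180727)) (c (l 16778168) (l 16777416))) (b (c (l 350744480679) (l 353965705703)) (l 114521279847))) (c (c (l 16778584) (l 16777160)) (c (l 16777056) (l 16776960)))) (c (l 16779064) (l 16778840))) (c (c (l 16778456) (l 16778328)) (l 16775864)))) (b (a (a (b (c (c (c (l 193441302791) (l 189146335399)) (l 196125656711)) (c (l 190220076423) (l 122574342823))) (c (l 16776512) (l 16776280))) (c (c (l 16776512) (l 16776384)) (c (l 16776264) (l 16776160)))) (c (c (l 16775592) (l 16775464)) (l 16775440))) (c (c (l 16776608) (l 16773848)) (l 16774968)))))), by decide +kernel⟩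

def k54_pm_011 : ∃ t, chk3 f_pm_011 t 74 245 1 = true :=
  ⟨(a (b (a (b (a (l 3) (b (l 3) (b (a (l 3) (c (c (l 288467454487) (l 285783099767)) (c (l 281488132327) (l 290078066471)))) (c (a (c (l 306721065591) (l 304036710871)) (l 16778600)) (a (c (l 300815485255) (l 309405419415)) (l 16778408)))))) (a (b (b (c (c (l 409263408471) (l 415705859287)) (c (l 422685181015) (l 430201373687))) (c (a (c (l 405505311639) (l 410337149703)) (c (l 16777424) (l 16777336))) (a (c (l 335712094775) (l 346449512583)) (l 16778840)))) (c (a (c (l 88751474663) (l 16778456)) (l 16779224)) (c (l 16778064) (l 16777976)))) (b (c (c (l 16778160) (l 16778048)) (c (l 16779256) (l 16779168))) (c (l 16778312) (l 16778096))))) (a (c (b (b (a (b (l 3) (c (l 270213843383) (l 266992617751))) (b (c (l 255718328535) (l 246591523047)) (l 16777184))) (c (l 16776736) (l 16776624))) (l 16777640)) (b (c (b (a (l 380809249447) (l 108615699047)) (l 16776520)) (b (a (l 388325442087) (l 95193926247)) (l 16776424))) (l 16777416)))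 (c (b (b (l 16778528) (l 16778072)) (l 16773784)) (a (c (l 16775688) (l 16775584)) (l 16775992))))) (a (c (b (b (c (l 16777872) (l 16777752)) (l 16776696)) (l 16776336)) (c (l 16775312) (l 16775208))) (c (l 16773672) (l 16773424)))) (a (c (b (b (c (l 16774224) (l 16774096)) (l 16775856)) (l 16773816)) (b (c (l 16774816) (l 16774048)) (l 16773544))) (b (c (l 16773184) (l 16772912)) (l 16769872)))), by decide +kernel⟩

def k55_pm_011 : ∃ t, chk3 f_pm_011 t 75 122 1 = true :=
  ⟨(b (a (b (a (b (a (b (l 3) (b (a (l 3) (c (c (l 352891964615) (l 363092511015)) (l 288467456647))) (c (a (l 420537698487) (c (l 16777528) (l 16777424))) (a (l 429127634071) (l 16778584))))) (c (c (b (a (l 406042182887) (l 210084301287)) (l 16776992)) (b (a (l 411947762727) (l 210084300807)) (l 16776864))) (b (a (b (l 3) (l 264308265159)) (c (l 204178720503) (l 207399945511))) (l 16779304)))) (a (b (c (c (c (l 16778456) (l 16777080)) (l 16778624)) (c (l 16778176) (l 16779384))) (c (l 16778576) (l 16778328))) (c (l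 16777896) (l 16775016)))) (a (b (c (c (l 16778952) (l 16778808)) (c (l 16778680) (l 16778560))) (c (l 16776656) (l 16773760))) (c (b (l 16777640) (l 16778032)) (l 16774936)))) (c (a (b (l 16777600) (l 16771432)) (l 16775296)) (c (l 16774032) (l 16773816)))) (c (b (a (c (l 16777360) (l 16777192)) (l 16774768)) (l 16771544)) (b (a (l 16774352) (l 16774440)) (l 16771208)))) (a (c (b (l 16772072) (l 16767600)) (b (l 16771760) (l 16767272))) (c (l 16764832) (l 16764464)))), by decide +kernel⟩

def k56_pm_011 : ∃ t, chk3 f_pm_011 t 37 123 1 = true :=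
  ⟨(a (b (c (a (b (l 16771752) (l 16768608)) (l 16765888)) (a (b (l 16771160) (l 16768312)) (c (l 16765640) (l 16765480)))) (c (c (l 16762176) (l 16761328)) (a (l 16761584) (l 16756592)))) (a (b (a (l 16763280) (l 16759464)) (l 16757032)) (b (l 16758312) (l 16752008)))), by decide +kernel⟩

def k57_pm_011 : ∃ t, chk3 f_pm_011 t 38 120 1 = true :=
  ⟨(a (l 3) (b (a (l 3) (b (l 3) (a (l 3) (b (l 3) (a (b (l 3) (c (l 437717567991) (l 477446017655))) (c (a (c (l 421074569111) (l 425369536135)) (b (l 454897436279) (l 207399947431))) (b (l 477982888215) (a (l 293299295111) (l 16778704))))))))) (a (b (a (l 3) (b (l 3) (a (l 3) (a (l 3) (b (l 3) (c (b (l 429664503175) (l 331954000199)) (l 400136604727))))))) (a (b (a (l 3) (a (l 3) (b (l 3) (c (l 453823694327) (l 468319208519))))) (a (b (a (l 3) (c (l 434496341799) (l 474761659783))) (c (c (a (l 402284086407) (l 221895461671)) (l 264308263495)) (c (l 268603230887) (l 272361326759)))) (c (b (a (b (l 428053890215) (l 272361328055)) (l 184314497543))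 (l 16776960)) (b (c (l 224579815927) (l 227801040743)) (l 16776616))))) (b (b (a (a (l 3) (c (l 428590763799) (l 434496340759))) (c (c (l 189146336103) (l 186998851815)) (c (l 177872046007) (l 16778552)))) (a (c (c (a (l 283098746327) (l 16777600)) (l 207399946871)) (c (l 205789333559) (l 193441302359))) (c (l 16776680) (l 16776312)))) (c (c (l 16775768) (l 16775560)) (c (l 16775368) (l 16777816)))))) (b (a (b (a (l 3) (b (l 3) (c (c (l 365776864327) (l 368461218615)) (a (l 461339886551) (l 207399949095))))) (c (c (a (b (l 391009797447) (l 163913403079)) (l 16779648)) (a (b (l 394767893559) (l 16778744)) (l 16776824))) (b (a (c (l 399062860615) (l 402820956807)) (l 16779680)) (c (l 39359352647) (l 16779160))))) (c (b (a (b (a (l 422148312791) (l 236390977047)) (l 16779904)) (l 16779248)) (l 16777680)) (b (a (b (a (l 426443276967) (l 176261435847)) (l 16776920)) (l 16778856)) (l 16778576)))) (c (a (b (c (l 16775472) (l 16775256)) (l 16778368)) (l 16776936)) (b (c (l 16774432) (l 16774248))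 (l 16776672))))))), by decide +kernel⟩

def k58_pm_011 : ∃ t, chk3 f_pm_011 t 76 242 1 = true :=
  ⟨(a (b (l 3) (a (b (l 3) (a (l 3) (a (b (l 3) (b (l 3) (c (l 313163517271) (l 263234523207)))) (b (c (l 451676212343) (l 472614176247)) (c (c (l 207936817895) (l 198810012151)) (c (l 16778224) (l 16777304))))))) (a (b (a (l 3) (b (l 3) (c (l 452213082967) (l 471540434103)))) (c (b (a (b (l 450602468567) (l 262160780423)) (c (l 16778256) (l 16777456))) (l 16779472)) (b (a (b (l 471540433751) (l 206863077015)) (l 101636378743)) (l 16779168)))) (b (a (b (l 3) (c (c (l 280414391719) (l 275582553287)) (b (l 340543934551) (l 16778672)))) (b (b (l 3) (c (l 363092512631) (l 323900936471))) (c (c (l 16777512) (l 16777360)) (l 16779776)))) (c (l 16778800) (l 16778480)))))) (b (a (b (l 3) (a (a (l 3) (b (l 3) (b (l 3) (c (l 327122160839) (l 313163516711))))) (b (c (c (l 394231022983) (l 399062860967)) (c (l 404431569879) (l 409800278823))) (c (c (l 168208369735) (l 164450272887)) (c (l 161229046967)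 (l 16778416)))))) (a (b (b (l 3) (c (a (l 453286823463) (c (l 287930584519) (l 283098746071))) (c (l 379198636743) (l 384567345671)))) (c (a (c (l 75866573719) (l 16778360)) (l 16776544)) (c (l 16779216) (l 16779064)))) (c (b (b (a (l 431275118407) (c (l 251960233015) (l 242296556375))) (c (l 16777312) (l 16777136))) (l 16778232)) (b (b (c (l 353428832711) (l 357723799815)) (l 16779528)) (l 16777880))))) (c (a (b (a (a (b (a (l 279340649959) (l 209010559799)) (l 16776888)) (l 16779440)) (l 16778520)) (l 16776920)) (b (l 16779256) (l 16777008))) (b (b (a (a (c (l 185925109127) (l 111836925159)) (l 16776120)) (l 16779456)) (a (l 16778256) (l 16778336))) (l 16775304))))), by decide +kernel⟩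

def k59_pm_011 : ∃ t, chk3 f_pm_011 t 76 243 1 = true :=
  ⟨(a (b (a (b (c (a (b (a (b (l 3) (l 353965706951)) (b (l 319605969127) (l 16778832))) (c (l 16777184) (l 16777032))) (c (l 16779152) (l 16776368))) (a (b (a (b (l 3) (l 305647325799)) (c (l 224579815719) (l 217600493559))) (l 16779288)) (c (l 16776216) (l 16776080)))) (c (c (l 16777560) (l 16777392)) (l 16775192))) (c (c (a (l 16776800) (l 16778168)) (l 16774024)) (l 16775088))) (c (a (c (l 16776824) (l 16776648)) (l 16774216)) (l 16773496))) (b (c (l 16774256) (l 16773232)) (a (l 16771488) (l 16768944)))), by decide +kernel⟩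

def k60_pm_011 : ∃ t, chk3 f_pm_011 t 77 121 1 = true :=
  ⟨(a (b (a (c (b (b (c (l 16778672) (l 16778480)) (l 16778968)) (l 16775592)) (b (a (b (l 16778840) (l 16779232)) (l 16774488)) (l 16775208))) (b (c (l 16777544) (l 16777152)) (l 16772832))) (c (l 16767576) (l 16767152))) (b (b (c (l 16771088) (l 16773280)) (l 16768976)) (c (l 16767704) (l 16762000)))), by decide +kernel⟩

def k61_pm_011 : ∃ t, chk3 f_pm_011 t 39 60 1 = true :=
  ⟨(b (a (b (a (b (a (l 3) (b (l 3) (b (a (l 3) (c (a (l 455971177959) (l 286319972551)) (a (l 473687917527) (l 264308264311)))) (c (a (a (l 432885729063) (l 335175225383)) (c (l 16777648) (l 16777440))) (a (a (l 476372272423) (l 321753452039)) (l 16779784)))))) (a (a (a (b (l 3) (c (b (l 293299294439) (l 16777288)) (c (l 186998851607) (l 186461980071)))) (b (b (l 3) (c (l 449528726855) (l 450065597255))) (c (c (l 16777328) (l 16777120)) (l 16779456)))) (b (c (b (a (l 3) (l 411947762743)) (c (l 205789334951) (l 197199399959))) (b (a (l 3) (l 316921616119))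 (c (l 192904432039) (l 16778632)))) (c (l 16776328) (l 16775912)))) (b (a (c (c (b (l 184314497991) (l 16776832)) (l 70497865383)) (c (l 16779536) (l 16776736))) (c (l 16776024) (l 16775584))) (c (l 16779680) (l 16779232))))) (a (b (b (b (c (a (l 437180697111) (a (l 397989118935) (l 220821720807))) (a (l 478519756823) (a (l 341080805303) (l 16780056)))) (c (a (a (l 433422599383) (l 250349621447)) (l 16777288)) (a (a (l 435570082471) (l 233706621911)) (l 16776872)))) (c (c (l 16779080) (l 16778832)) (c (l 16778608) (l 16778400)))) (c (l 16778240) (l 16777760))) (c (b (b (l 16778640) (l 16779032)) (l 16770408)) (b (b (l 16779480) (l 16778544)) (l 16769912))))) (a (c (b (b (a (l 16779992) (l 16777432)) (l 16776464)) (l 16770456)) (a (c (l 16773824) (l 16774112)) (l 16773584))) (c (l 16770168) (l 16769664)))) (b (b (a (c (l 16778904) (l 16773136)) (l 16770760)) (c (l 16771760) (l 16768592))) (c (l 16767592) (l 16764408)))) (a (c (b (l 16767008) (l 16759976)) (b (a (l 16765840) (l 16765864))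 (l 16759448))) (b (c (l 16758568) (l 16757984)) (l 16749256)))), by decide +kernel⟩

def k62_pm_011 : ∃ t, chk3 f_pm_011 t 19 61 1 = true :=
  ⟨(a (b (b (b (a (a (a (l 16770760) (l 16769536)) (l 16765720)) (l 16761984)) (a (c (l 16763984) (l 16763584)) (l 16758800))) (a (c (l 16759904) (l 16759464)) (l 16752080))) (a (b (a (l 16755888) (l 16750808)) (l 16744424)) (b (l 16743144) (l 16734224)))) (a (b (c (l 16749160) (l 16748576)) (l 16733600)) (b (b (l 16740272) (l 16741800)) (l 16728448)))), by decide +kernel⟩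

def k63_pm_011 : ∃ t, chk3 f_pm_011 t 9 31 1 = true :=
  ⟨(b (a (a (b (a (b (a (c (b (a (c (l 16773416) (l 16773320)) (l 16770952)) (l 16769032)) (b (a (c (l 16773240) (l 16773152)) (l 16770752)) (l 16768152))) (c (b (l 16768632) (l 16765496)) (b (l 16768392) (l 16765224)))) (a (b (a (l 16766976) (l 16764552)) (l 16761312)) (b (l 16760896) (l 16756448)))) (b (c (a (l 16762848) (l 16757960)) (a (l 16762544) (l 16757600))) (c (l 16754160) (l 16753096)))) (a (a (b (a (l 16755848) (l 16753424)) (l 16750992)) (b (l 16752400) (l 16746136))) (b (c (l 16747936) (l 16747432)) (l 16738808)))) (b (a (c (b (l 16755816) (l 16746960)) (b (l 16755384) (l 16746448))) (b (l 16745608) (l 16736720))) (a (b (l 16737816) (l 16728952)) (c (l 16723800) (l 16723048))))) (b (a (a (b (l 16735520) (l 16726640)) (l 16726128)) (a (l 16721064) (l 16710648))) (a (a (l 16723832) (l 16713648)) (l 16698160)))) (a (b (a (a (b (l 16739696) (l 16730840)) (b (l 16729944) (l 16721096))) (a (l 16718296) (l 16716208))) (a (a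 (b (l 16721984) (l 16713144)) (l 16713080)) (a (l 16708496) (l 16698568)))) (a (b (a (l 16706160) (l 16695992)) (l 16683472)) (b (l 16680528) (l 16662952))))), by decide +kernel⟩

def k64_pm_011 : ∃ t, chk3 f_pm_011 t 20 28 1 = true :=
  ⟨(l 3), by decide +kernel⟩

def k65_pm_011 : ∃ t, chk3 f_pm_011 t 21 56 1 = true :=
  ⟨(l 3), by decide +kernel⟩

def k66_pm_011 : ∃ t, chk3 f_pm_011 t 42 57 1 = true :=
  ⟨(b (l 3) (a (l 3) (b (l 3) (a (b (l 3) (a (l 3) (b (l 3) (c (a (l 434496343127) (l 389399190087)) (a (l 452749952983) (l 344302032519)))))) (c (b (a (b (l 3) (l 441475666583)) (b (l 438254440183) (a (l 443623147239) (l 276119427511)))) (a (b (a (l 426980149591) (l 326048425527)) (l 189683207847)) (l 16782400))) (b (a (b (l 3) (l 466171727383)) (b (l 491404659271) (a (l 386714837239) (l 16777792)))) (a (b (a (l 478519755959) (l 289004329175)) (l 16777448)) (l 16776136)))))))), by decide +kernel⟩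

def k67_pm_011 : ∃ t, chk3 f_pm_011 t 43 57 1 = true :=
  ⟨(b (a (b (l 3) (a (l 3) (a (l 3) (a (l 3) (b (l 3) (c (l 439328182535) (l 493552143335))))))) (b (c (a (l 3) (b (l 3) (a (l 444696893527) (b (l 432885730711) (c (l 341617683991) (l 322290326551)))))) (a (l 3) (b (l 3) (a (l 497310241527) (b (l 491404658679) (l 294909909383)))))) (a (c (b (a (l 3) (c (l 455971180487) (l 455434308791))) (a (b (l 470466693959) (a (l 368998098167) (l 16778600))) (b (l 247128398375) (l 16777576)))) (b (a (l 3) (b (l 466708598711) (l 422685185975))) (a (b (l 464561112567) (l 259476427479)) (b (l 16777896) (l 16776432))))) (c (b (a (b (a (l 421611440375) (l 355039454631)) (l 16778616)) (l 16777688)) (l 16774880)) (b (a (b (l 332490874247) (l 16777704)) (l 16776488)) (l 16773560)))))) (a (b (a (c (b (l 3) (c (a (l 469929825255) (b (l 447381244471) (l 247665268647))) (a (l 479593500967) (b (l 434496341863) (l 16778320))))) (b (l 3) (a (b (l 3) (l 466171725511)) (b (a (l 450602469223) (l 357186937015))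 (l 181630147191))))) (c (b (a (b (l 440401924647) (a (l 425369536871) (l 344302036791))) (b (a (l 435033212679) (l 16778072)) (l 16778248))) (c (l 16781928) (l 16781648))) (b (a (b (l 459192405287) (a (l 480667239511) (l 302962972743))) (b (l 292225554455) (l 16777264))) (a (l 16782032) (l 16774232))))) (a (a (a (b (b (c (l 357186938199) (l 324437809159)) (l 16782928)) (l 16785200)) (b (c (l 16778008) (l 16777048)) (l 16783856))) (c (l 16784656) (l 16783480))) (c (l 16780528) (l 16768800)))) (b (a (c (l 16781496) (l 16772344)) (l 16780432)) (l 16776552)))), by decide +kernel⟩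

def k68_pm_011 : ∃ t, chk3 f_pm_011 t 40 58 1 = true :=
  ⟨(l 3), by decide +kernel⟩

def k69_pm_011 : ∃ t, chk3 f_pm_011 t 41 116 1 = true :=
  ⟨(a (l 3) (b (l 3) (a (l 3) (b (l 3) (a (b (l 3) (c (l 442012537207) (l 490330918343))) (b (a (l 3) (c (l 466171726279) (l 475835401671))) (c (a (b (l 425906407447) (l 342691421591)) (l 223506076999)) (a (l 370071836215) (l 16777632))))))))), by decide +kernel⟩

def k70_pm_011 : ∃ t, chk3 f_pm_011 t 41 117 1 = true :=
  ⟨(a (b (a (l 3) (b (l 3) (a (l 3) (b (l 3) (a (l 3) (c (l 446844375703) (l 446844372151))))))) (a (b (a (l 3) (a (l 3) (b (l 3) (c (l 439865052775) (l 459729275687))))) (a (b (l 3) (c (a (l 465097984935) (b (l 461876758231) (l 275045684583))) (a (l 485499078775) (b (l 461876757383) (l 16780080))))) (b (c (a (l 449528730359) (c (l 276119426743) (l 266455749575))) (a (l 451676210535) (c (l 254107718263) (l 242833428535)))) (c (c (l 16777680) (l 16777320)) (l 53317999543))))) (b (b (a (a (l 3) (c (l 465634855735) (l 486035949511)))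 (c (a (b (l 461876758167) (l 279340651799)) (l 16780632)) (a (b (l 455971177223) (l 16777520)) (l 16777384)))) (a (c (a (b (l 431811987767) (l 342154550551)) (c (l 236390978199) (l 225653559319))) (a (b (l 450602468807) (l 305647326567)) (l 182167016023))) (c (l 16776816) (l 16776056)))) (c (c (l 16780320) (l 16779896)) (a (l 16780632) (l 16777976)))))) (b (a (b (a (l 3) (b (l 3) (c (a (l 466171726487) (b (l 457581790775) (l 16777864))) (a (l 486035949287) (l 290078069703))))) (a (b (c (c (l 426443281607) (l 428053891191)) (c (l 430201374375) (l 432348857623))) (c (c (a (l 280414393799) (l 16777960)) (l 205789335239)) (c (l 204178721255) (l 163376533031)))) (b (a (c (l 227264173079) (l 210621172615)) (l 16782304)) (l 16780864)))) (c (b (a (b (a (l 440401927239) (c (l 279340651927) (l 269140103719))) (l 16780272)) (l 16781560)) (l 16778472)) (b (a (b (a (l 437717566455) (l 244980912279)) (l 16776888)) (l 16780688)) (l 16777568)))) (a (b (c (l 16779304) (l 16773208)) (l 16779552)) (c (l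 16776840) (l 16775936))))), by decide +kernel⟩

def k71_pm_011 : ∃ t, chk3 f_pm_011 t 40 118 1 = true :=
  ⟨(a (b (l 3) (a (b (l 3) (a (l 3) (a (l 3) (b (l 3) (b (l 3) (c (l 416779606487) (l 417316471447))))))) (b (a (l 3) (b (l 3) (c (a (b (l 3) (l 432348858391)) (b (l 458655532759) (l 251423364215))) (a (l 483888466199) (b (l 457581790199) (l 234243493271)))))) (b (a (a (l 3) (b (c (l 434496342407) (l 454897436359)) (c (l 307794810247) (l 287930585319)))) (a (c (c (l 210084303143) (l 203641851415)) (c (l 193978174391) (l 195051915143))) (c (l 16777000) (l 16776408)))) (c (a (a (b (a (l 425369535991) (l 329806518231)) (l 16777832)) (l 16777320)) (l 16775488)) (a (a (b (l 334638354999) (l 16777368)) (l 16776760)) (l 16774864))))))) (b (a (b (l 3) (a (l 3) (a (b (l 3) (c (b (l 433959471527) (l 331417129463)) (b (l 453823694519) (l 298131133159)))) (b (c (l 464024243175) (l 484425337079)) (c (c (l 221895463495) (l 210621173895)) (c (l 204178722087) (l 16778728))))))) (a (b (a (l 3) (b (l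 3) (c (b (l 3) (l 443623146951)) (l 452749955095)))) (b (c (a (b (l 460803016439) (l 265382008103)) (c (l 16778000) (l 16777704))) (a (b (l 462413628375) (l 241222815719)) (l 16779912))) (c (l 16776568) (l 16775904)))) (b (a (b (c (l 440401923799) (l 460803017687)) (c (b (l 404431570119) (l 16778000)) (c (l 248739009095) (l 242833428167)))) (b (c (b (l 433422600583) (l 336248970343)) (b (l 452749952599) (l 304573584423))) (c (l 16777600) (l 16776968)))) (c (l 16780360) (l 16779648))))) (a (b (a (c (b (a (b (l 3) (l 428590761383)) (b (l 399062866215) (l 16777920))) (c (l 90898960599) (l 16779704))) (b (a (b (l 3) (l 426443276983)) (b (l 346986386327) (l 16777448))) (c (l 16776792) (l 16776512)))) (c (c (l 16781280) (l 16780928)) (c (l 16780600) (l 16780296)))) (c (a (l 16779256) (l 16781864)) (l 16773176))) (b (c (l 16777176) (l 16771872)) (l 16777488))))), by decide +kernel⟩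

def k72_pm_011 : ∃ t, chk3 f_pm_011 t 40 119 1 = true :=
  ⟨(a (b (a (a (b (b (a (l 3) (a (l 3) (c (l 460803017015) (l 481740981927)))) (c (a (b (l 435033213207) (a (l 436106953847) (l 261087039735))) (c (l 197736271495) (l 192904432503))) (a (b (l 480667240087) (l 271824457431)) (c (l 189146335351) (l 185388238231))))) (c (c (l 16780848) (l 16780544)) (c (l 16780256) (l 16777376)))) (c (b (b (a (b (l 450602468983) (l 233706623527)) (c (l 16777736) (l 16777464))) (l 16776192)) (l 16778096)) (b (b (a (b (l 447381242823) (l 219211107287)) (l 69960996711)) (l 16780864)) (l 16772256)))) (a (b (c (l 16778672) (c (l 16774272) (l 16779232))) (l 16773832)) (c (l 16776408) (l 16777072)))) (c (b (c (l 16777656) (l 16777320)) (l 16772936)) (a (l 16772008) (l 16771920)))) (a (b (b (l 16774352) (l 16773720)) (l 16766880)) (b (l 16770632) (l 16761504)))), by decide +kernel⟩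

def k73_pm_011 : ∃ t, chk3 f_pm_011 t 41 59 1 = true :=
  ⟨(a (b (b (c (a (b (a (a (b (a (l 261087041175) (l 16777960)) (l 16776456)) (l 16776272)) (l 16779584)) (l 16781632)) (l 16775912)) (a (a (b (b (c (l 119889990167) (l 96267670615)) (l 16775104)) (l 16782216)) (l 16772952)) (l 16777728))) (c (l 16770752) (l 16771288))) (c (l 16763568) (l 16760192))) (b (b (a (l 16770032) (l 16767152)) (l 16760712)) (l 16754832))), by decide +kernel⟩

def k74_pm_011 : ∃ t, chk3 f_pm_011 t 21 29 1 = true :=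
  ⟨(b (a (b (a (b (a (l 3) (c (b (a (l 3) (c (l 468856084375) (l 479056631095))) (a (b (l 442012537431) (a (l 466171726039) (l 296520522839))) (b (a (l 417853348583) (l 253570848871)) (l 16777712)))) (b (a (l 3) (b (l 3) (l 490330917527))) (a (b (l 461876760135) (a (l 460803015831) (l 270750717239))) (b (a (l 409800278567) (l 16777744)) (l 16776840)))))) (c (a (b (a (b (l 3) (a (l 438791311127) (l 430738250647))) (b (c (l 414095252919) (l 413558376151)) (c (l 208473691335) (l 199883755607)))) (a (b (c (a (l 322290325031) (l 16778304)) (l 233169752967)) (l 16776952)) (l 16775504))) (b (c (a (l 16777408) (l 16774928)) (l 16780944)) (l 16781976))) (a (b (c (a (l 470466694919) (b (l 413558375623) (l 16777688))) (a (l 479593501319) (b (l 414095246087) (l 16777360)))) (b (a (c (l 225116688279) (l 219747978007)) (l 16775648)) (l 16780032))) (b (c (l 16780456) (l 16780008)) (l 16780960))))) (c (b (a (b (a (b (a (l 438791311303) (l 455971178455)) (a (l 338396456007) (l 16778328))) (b (c (l 231559141015)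 (l 218674238439)) (l 16776984))) (l 16780344)) (c (l 16782736) (l 16782136))) (c (l 16776264) (l 16775680))) (b (a (b (a (b (l 460803021719) (c (l 242296558663) (l 235854106295))) (c (l 88751479799) (l 16782008))) (l 16779304)) (l 16771808)) (l 16772264)))) (a (a (b (a (c (l 16781936) (l 16770496)) (l 16778688)) (l 16770840)) (c (l 16770408) (l 16769424))) (c (l 16772480) (l 16766216)))) (b (a (b (c (l 16774024) (l 16772832)) (l 16764064)) (c (l 16768328) (l 16767128))) (a (l 16760568) (l 16749016)))) (b (a (a (a (l 16762240) (l 16751416)) (l 16753448)) (l 16742576)) (a (a (l 16746448) (l 16736056)) (l 16720448)))), by decide +kernel⟩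

def k75_pm_011 : ∃ t, chk3 f_pm_011 t 22 56 1 = true :=
  ⟨(a (b (l 3) (a (b (l 3) (a (a (l 3) (b (l 3) (c (l 450065603239) (l 471003567351)))) (b (a (l 3) (b (l 3) (c (l 428590763079) (l 485499078199)))) (c (a (b (l 434496343975) (l 363629391031)) (b (l 326048422711) (l 16778568))) (a (b (l 451676211623) (l 328195907367)) (b (l 291151813175) (l 16777424))))))) (b (c (a (b (l 3) (a (l 450602474631) (b (l 435570086247) (l 405505323079)))) (b (a (l 438791312423) (b (l 422148311751) (l 320679712663))) (a (b (l 360408166039) (l 16778864)) (l 16777960)))) (a (b (l 3) (a (l 471540438663) (b (l 452749953799) (l 352355101623)))) (b (a (l 496236498359) (b (l 462950499399) (l 16777672))) (a (b (l 320142843527) (l 16777776)) (l 16776560))))) (c (a (b (a (b (l 459192404343) (l 285246234439)) (l 16778624)) (l 16776248)) (l 16783544)) (a (b (a (b (l 439865049943) (l 16778016)) (l 16777432)) (l 16774784)) (l 16781928)))))) (b (a (b (a (l 3) (c (b (l 3) (c (l 474761664519) (l 483351598103))) (b (l 3)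 (a (l 3) (l 459729274599))))) (c (a (b (a (l 3) (l 438791312743)) (a (b (l 442012537543) (l 440938793047)) (b (l 383493615223) (l 16779040)))) (b (a (b (l 423758924759) (l 355576328007)) (l 16779104)) (l 16777360))) (a (b (a (l 3) (l 455971180183)) (a (l 446844377799) (b (l 351281354919) (l 16778032)))) (b (a (b (l 483888465143) (l 16777480)) (l 16778024)) (l 16775776))))) (c (b (a (b (a (l 438791312967) (b (l 424295795879) (l 374903680791))) (a (b (l 403894709047) (l 16779072)) (l 16778760))) (b (a (l 16779200) (l 16778032)) (l 16775368))) (l 16781952)) (b (a (b (a (l 455434309399) (l 385104221767)) (a (l 233169759335) (l 16777328))) (b (l 16782720) (l 16773528))) (l 16769576)))) (b (a (b (a (c (a (l 16778920) (l 16777104)) (l 16782016)) (l 16782736)) (l 16783640)) (l 16781984)) (a (l 16773952) (l 16772352))))), by decide +kernel⟩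

def k76_pm_011 : ∃ t, chk3 f_pm_011 t 22 57 1 = true :=
  ⟨(a (b (c (b (a (a (b (a (b (l 3) (l 466708597367)) (b (l 424832670839) (l 16778728))) (a (b (l 284172493095) (l 16778136)) (l 16776856))) (b (l 16782400) (l 16772888))) (l 16777120)) (a (a (l 16782120) (l 16786888)) (l 16757112))) (a (b (a (b (a (b (l 3) (l 455434306759)) (b (l 413021504087) (l 16777960))) (a (b (l 258939557031) (l 16776976)) (l 16775528))) (c (l 16784496) (l 16783816))) (c (l 16778168) (l 16777488))) (l 16770800))) (a (a (l 16777800) (l 16771928)) (l 16763032))) (b (c (l 16770104) (l 16768480)) (l 16755384))), by decide +kernel⟩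

def k77_pm_011 : ∃ t, chk3 f_pm_011 t 23 28 1 = true :=
  ⟨(b (a (b (a (b (l 16783768) (l 16779408)) (l 16771832)) (l 16771696)) (c (l 16764792) (l 16753184))) (a (c (l 16742544) (l 16742440)) (l 16721840))), by decide +kernel⟩

def k78_pm_011 : ∃ t, chk3 f_pm_011 t 11 29 1 = true :=
  ⟨(a (a (a (b (b (l 16756008) (l 16738360)) (l 16713264)) (b (l 16746632) (l 16702840))) (b (c (l 16731272) (l 16730712)) (l 16697720))) (b (c (l 16716232) (l 16714976)) (a (l 16666456) (l 16645760)))), by decide +kernel⟩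

def k79_pm_011 : ∃ t, chk3 f_pm_011 t 5 15 1 = true :=
  ⟨(a (b (a (b (a (b (a (b (a (l 16765832) (l 16763136)) (l 16756728)) (c (l 16756168) (l 16755472))) (a (b (l 16747696) (l 16749168)) (l 16743064))) (b (c (l 16745152) (l 16744728)) (a (l 16732752) (l 16722408)))) (b (a (a (l 16735856) (l 16725576)) (l 16710096)) (a (l 16718320) (l 16692432)))) (a (b (b (l 16724152) (l 16706848)) (b (l 16689352) (l 16671656))) (b (c (l 16705736) (l 16704600)) (l 16670144)))) (b (a (a (b (l 16695256) (l 16677288)) (a (l 16670760) (l 16660376))) (b (l 16664312) (l 16646216))) (a (b (c (l 16670488) (l 16669216)) (l 16652224)) (b (l 16627944) (l 16609496))))) (b (a (a (b (l 16684336) (l 16638752)) (b (l 16652992) (l 16617824))) (b (l 16644088) (b (l 16595424) (l 16577520)))) (b (a (l 16618504) (l 16560688)) (a (l 16586872) (l 16533928))))), by decide +kernel⟩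

def k80_pm_011 : ∃ t, chk3 f_pm_011 t 6 12 1 = true :=
  ⟨(a (b (l 3) (a (l 3) (b (l 3) (a (l 3) (b (l 3) (a (b (l 3) (a (l 3) (l 472614186983))) (b (a (l 3) (b (l 1) (l 443086278439))) (a (a (l 436106958199) (l 454897447431)) (l 287930618039))))))))) (b (l 1) (a (b (l 1) (a (b (l 1) (a (l 204581373319) (l 1))) (l 1))) (l 1)))), by decide +kernel⟩

def k81_pm_011 : ∃ t, chk3 f_pm_011 t 12 26 1 = true :=
  ⟨(a (b (l 3) (a (b (l 3) (a (l 3) (c (b (l 3) (a (l 458118672247) (b (l 443623151719) (l 357723822103)))) (b (l 3) (a (l 484962215127) (b (l 451676212615) (l 355576325031))))))) (b (a (b (l 3) (a (l 3) (b (l 3) (l 453823709159)))) (b (a (l 3) (c (l 483888469623) (l 474761671559))) (a (b (a (l 451676214631) (l 479056627799)) (a (l 341080827175) (l 16778280))) (b (l 16794128) (l 16779080))))) (a (b (a (b (l 461339894055) (c (l 481204113559) (l 467245467095))) (b (a (l 482814729831) (l 16788224)) (l 16784824))) (a (b (a (l 328732795271) (l 16779488)) (l 16778952)) (l 16776264))) (c (l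 16794680) (l 16765200)))))) (b (a (c (b (a (l 3) (b (l 3) (a (l 3) (l 442549411015)))) (a (b (l 471540450967) (a (l 447381250935) (l 397452260119))) (b (a (l 459729277383) (l 16778808)) (l 16780048)))) (b (a (l 3) (b (l 3) (a (l 3) (l 515563851623)))) (a (b (l 497310251463) (a (l 519858820839) (l 301352387239))) (b (a (l 439865050503) (l 16778936)) (l 16777224))))) (b (a (b (a (l 468856097559) (b (l 497847111111) (l 320142869111))) (a (b (l 321753484791) (l 16778376)) (l 16780120))) (c (l 16789544) (l 16770288))) (a (l 16766656) (l 16758368)))) (a (a (b (a (b (c (l 278803795959) (l 230485418983)) (l 16776352)) (l 16795976)) (l 16759008)) (l 16776416)) (l 16775680)))), by decide +kernel⟩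

def k82_pm_011 : ∃ t, chk3 f_pm_011 t 12 27 1 = true :=
  ⟨(a (b (a (b (a (c (b (a (l 3) (b (l 3) (l 432348861271))) (a (b (l 447381248983) (l 400136614471)) (b (l 307257959191) (l 16779720)))) (b (a (l 3) (b (l 3) (l 482814724407))) (a (b (l 462950502855) (l 313163538327)) (b (l 258402697063) (l 16777744))))) (b (a (a (b (l 436643826951) (l 16790984)) (c (l 268603245223) (l 218137381303))) (l 16788928)) (l 16783736))) (a (a (a (c (l 16786792) (l 16785024)) (l 16783440)) (l 16768424)) (l 16779784))) (b (a (l 16786560) (l 16752232)) (l 16759528))) (a (b (l 16776768) (l 16746136)) (l 16752608))) (b (a (l 16762600) (l 16720392)) (l 16735616))), by decide +kernel⟩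

def k83_pm_011 : ∃ t, chk3 f_pm_011 t 13 13 1 = true :=
  ⟨(a (b (b (a (l 16772144) (l 16757568)) (a (l 16735096) (l 16701504))) (a (l 16715464) (l 16709936))) (b (b (l 1) (l 16689464)) (b (l 16648112) (l 16606072)))), by decide +kernel⟩

def k84_pm_011 : ∃ t, chk3 f_pm_011 t 7 6 1 = true :=
  ⟨(b (l 1) (a (b (l 1) (a (l 16655696) (l 1))) (l 1))), by decide +kernel⟩

def k85_pm_011 : ∃ t, chk3 f_pm_011 t 3 7 1 = true :=
  ⟨(a (b (a (b (a (b (b (l 16741728) (l 16725112)) (c (l 16702256) (l 16700880))) (b (l 16692528) (l 16671872))) (a (b (l 16669336) (l 16625488)) (b (l 16608120) (l 16595632)))) (b (a (b (l 16632896) (l 16580808)) (a (l 16564040) (l 16531504))) (a (b (l 16548464) (l 16535848)) (b (l 16533728) (l 16500032))))) (a (b (a (b (l 16585800) (l 16545016)) (b (l 16529536) (l 16483240))) (a (b (l 16508400) (l 16470720)) (b (l 16446248) (l 16408112)))) (b (a (b (l 16459056) (l 16422944)) (a (l 16476488) (l 16438408))) (a (b (l 16385568) (l 16346944)) (b (l 16369880) (l 16351784))))))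 (a (b (b (a (b (l 16544656) (l 16513752)) (l 16537520)) (a (l 16527704) (l 16451160))) (b (a (l 16457208) (l 16380560)) (a (b (l 16337864) (l 16298448)) (l 16345560)))) (b (b (l 1) (a (l 16449080) (l 1))) (b (a (l 16318720) (l 16356056)) (a (l 16261944) (l 16198360)))))), by decide +kernel⟩

theorem s86_pm_011 : ∃ t, chk3 f_pm_011 t 12 13 1 = true := ex3_b k81_pm_011 k82_pm_011

theorem s87_pm_011 : ∃ t, chk3 f_pm_011 t 6 13 1 = true := ex3_a s86_pm_011 k83_pm_011

theorem s88_pm_011 : ∃ t, chk3 f_pm_011 t 6 6 1 = true := ex3_b k80_pm_011 s87_pm_011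

theorem s89_pm_011 : ∃ t, chk3 f_pm_011 t 3 6 1 = true := ex3_a s88_pm_011 k84_pm_011

theorem s90_pm_011 : ∃ t, chk3 f_pm_011 t 3 3 1 = true := ex3_b s89_pm_011 k85_pm_011

theorem s91_pm_011 : ∃ t, chk3 f_pm_011 t 22 28 1 = true := ex3_b k75_pm_011 k76_pm_011

theorem s92_pm_011 : ∃ t, chk3 f_pm_011 t 11 28 1 = true := ex3_a s91_pm_011 k77_pm_011

theorem s93_pm_011 : ∃ t, chk3 f_pm_011 t 11 14 1 = true := ex3_b s92_pm_011 k78_pm_011

theorem s94_pm_011 : ∃ t, chk3 f_pm_011 t 40 59 1 = true := ex3_b k71_pm_011 k72_pm_011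

theorem s95_pm_011 : ∃ t, chk3 f_pm_011 t 20 59 1 = true := ex3_a s94_pm_011 k73_pm_011

theorem s96_pm_011 : ∃ t, chk3 f_pm_011 t 41 58 1 = true := ex3_b k69_pm_011 k70_pm_011

theorem s97_pm_011 : ∃ t, chk3 f_pm_011 t 20 58 1 = true := ex3_a k68_pm_011 s96_pm_011

theorem s98_pm_011 : ∃ t, chk3 f_pm_011 t 20 29 1 = true := ex3_b s97_pm_011 s95_pm_011

theorem s99_pm_011 : ∃ t, chk3 f_pm_011 t 10 29 1 = true := ex3_a s98_pm_011 k74_pm_011

theorem s100_pm_011 : ∃ t, chk3 f_pm_011 t 21 57 1 = true := ex3_a k66_pm_011 k67_pm_011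

theorem s101_pm_011 : ∃ t, chk3 f_pm_011 t 21 28 1 = true := ex3_b k65_pm_011 s100_pm_011

theorem s102_pm_011 : ∃ t, chk3 f_pm_011 t 10 28 1 = true := ex3_a k64_pm_011 s101_pm_011

theorem s103_pm_011 : ∃ t, chk3 f_pm_011 t 10 14 1 = true := ex3_b s102_pm_011 s99_pm_011

theorem s104_pm_011 : ∃ t, chk3 f_pm_011 t 5 14 1 = true := ex3_a s103_pm_011 s93_pm_011

theorem s105_pm_011 : ∃ t, chk3 f_pm_011 t 5 7 1 = true := ex3_b s104_pm_011 k79_pm_011

theorem s106_pm_011 : ∃ t, chk3 f_pm_011 t 76 121 1 = true := ex3_b k58_pm_011 k59_pm_011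

theorem s107_pm_011 : ∃ t, chk3 f_pm_011 t 38 121 1 = true := ex3_a s106_pm_011 k60_pm_011

theorem s108_pm_011 : ∃ t, chk3 f_pm_011 t 38 60 1 = true := ex3_b k57_pm_011 s107_pm_011

theorem s109_pm_011 : ∃ t, chk3 f_pm_011 t 19 60 1 = true := ex3_a s108_pm_011 k61_pm_011

theorem s110_pm_011 : ∃ t, chk3 f_pm_011 t 19 30 1 = true := ex3_b s109_pm_011 k62_pm_011

theorem s111_pm_011 : ∃ t, chk3 f_pm_011 t 74 122 1 = true := ex3_b k53_pm_011 k54_pm_011

theorem s112_pm_011 : ∃ t, chk3 f_pm_011 t 37 122 1 = true := ex3_a s111_pm_011 k55_pm_011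

theorem s113_pm_011 : ∃ t, chk3 f_pm_011 t 37 61 1 = true := ex3_b s112_pm_011 k56_pm_011

theorem s114_pm_011 : ∃ t, chk3 f_pm_011 t 73 246 1 = true := ex3_a k50_pm_011 k51_pm_011

theorem s115_pm_011 : ∃ t, chk3 f_pm_011 t 73 123 1 = true := ex3_b s114_pm_011 k52_pm_011

theorem s116_pm_011 : ∃ t, chk3 f_pm_011 t 144 247 1 = true := ex3_b k47_pm_011 k48_pm_011

theorem s117_pm_011 : ∃ t, chk3 f_pm_011 t 72 247 1 = true := ex3_a s116_pm_011 k49_pm_011

theorem s118_pm_011 : ∃ t, chk3 f_pm_011 t 72 123 1 = true := ex3_b k46_pm_011 s117_pm_011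

theorem s119_pm_011 : ∃ t, chk3 f_pm_011 t 36 123 1 = true := ex3_a s118_pm_011 s115_pm_011

theorem s120_pm_011 : ∃ t, chk3 f_pm_011 t 73 245 1 = true := ex3_a k44_pm_011 k45_pm_011

theorem s121_pm_011 : ∃ t, chk3 f_pm_011 t 73 122 1 = true := ex3_b k43_pm_011 s120_pm_011

theorem s122_pm_011 : ∃ t, chk3 f_pm_011 t 36 122 1 = true := ex3_a k42_pm_011 s121_pm_011

theorem s123_pm_011 : ∃ t, chk3 f_pm_011 t 36 61 1 = true := ex3_b s122_pm_011 s119_pm_011

theorem s124_pm_011 : ∃ t, chk3 f_pm_011 t 18 61 1 = true := ex3_a s123_pm_011 s113_pm_011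

theorem s125_pm_011 : ∃ t, chk3 f_pm_011 t 37 60 1 = true := ex3_b k40_pm_011 k41_pm_011

theorem s126_pm_011 : ∃ t, chk3 f_pm_011 t 18 60 1 = true := ex3_a k39_pm_011 s125_pm_011

theorem s127_pm_011 : ∃ t, chk3 f_pm_011 t 18 30 1 = true := ex3_b s126_pm_011 s124_pm_011

theorem s128_pm_011 : ∃ t, chk3 f_pm_011 t 9 30 1 = true := ex3_a s127_pm_011 s110_pm_011

theorem s129_pm_011 : ∃ t, chk3 f_pm_011 t 9 15 1 = true := ex3_b s128_pm_011 k63_pm_011

theorem s130_pm_011 : ∃ t, chk3 f_pm_011 t 142 248 1 = true := ex3_b k33_pm_011 k34_pm_011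

theorem s131_pm_011 : ∃ t, chk3 f_pm_011 t 71 248 1 = true := ex3_a s130_pm_011 k35_pm_011

theorem s132_pm_011 : ∃ t, chk3 f_pm_011 t 71 124 1 = true := ex3_b s131_pm_011 k36_pm_011

theorem s133_pm_011 : ∃ t, chk3 f_pm_011 t 141 249 1 = true := ex3_b k31_pm_011 k32_pm_011

theorem s134_pm_011 : ∃ t, chk3 f_pm_011 t 280 499 1 = true := ex3_b k28_pm_011 k29_pm_011

theorem s135_pm_011 : ∃ t, chk3 f_pm_011 t 140 499 1 = true := ex3_a s134_pm_011 k30_pm_011

theorem s136_pm_011 : ∃ t, chk3 f_pm_011 t 140 249 1 = true := ex3_b k27_pm_011 s135_pm_011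

theorem s137_pm_011 : ∃ t, chk3 f_pm_011 t 70 249 1 = true := ex3_a s136_pm_011 s133_pm_011

theorem s138_pm_011 : ∃ t, chk3 f_pm_011 t 70 124 1 = true := ex3_b k26_pm_011 s137_pm_011

theorem s139_pm_011 : ∃ t, chk3 f_pm_011 t 35 124 1 = true := ex3_a s138_pm_011 s132_pm_011

theorem s140_pm_011 : ∃ t, chk3 f_pm_011 t 35 62 1 = true := ex3_b s139_pm_011 k37_pm_011

theorem s141_pm_011 : ∃ t, chk3 f_pm_011 t 278 500 1 = true := ex3_b k21_pm_011 k22_pm_011

theorem s142_pm_011 : ∃ t, chk3 f_pm_011 t 139 500 1 = true := ex3_a s141_pm_011 k23_pm_011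

theorem s143_pm_011 : ∃ t, chk3 f_pm_011 t 139 250 1 = true := ex3_b s142_pm_011 k24_pm_011

theorem s144_pm_011 : ∃ t, chk3 f_pm_011 t 138 250 1 = true := ex3_b k19_pm_011 k20_pm_011

theorem s145_pm_011 : ∃ t, chk3 f_pm_011 t 69 250 1 = true := ex3_a s144_pm_011 s143_pm_011

theorem s146_pm_011 : ∃ t, chk3 f_pm_011 t 69 125 1 = true := ex3_b s145_pm_011 k25_pm_011

theorem s147_pm_011 : ∃ t, chk3 f_pm_011 t 34 125 1 = true := ex3_a k18_pm_011 s146_pm_011

theorem s148_pm_011 : ∃ t, chk3 f_pm_011 t 34 62 1 = true := ex3_b k17_pm_011 s147_pm_011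

theorem s149_pm_011 : ∃ t, chk3 f_pm_011 t 17 62 1 = true := ex3_a s148_pm_011 s140_pm_011

theorem s150_pm_011 : ∃ t, chk3 f_pm_011 t 17 31 1 = true := ex3_b s149_pm_011 k38_pm_011

theorem s151_pm_011 : ∃ t, chk3 f_pm_011 t 8 31 1 = true := ex3_a k16_pm_011 s150_pm_011

theorem s152_pm_011 : ∃ t, chk3 f_pm_011 t 8 15 1 = true := ex3_b k15_pm_011 s151_pm_011

theorem s153_pm_011 : ∃ t, chk3 f_pm_011 t 4 15 1 = true := ex3_a s152_pm_011 s129_pm_011

theorem s154_pm_011 : ∃ t, chk3 f_pm_011 t 39 119 1 = true := ex3_a k13_pm_011 k14_pm_011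

theorem s155_pm_011 : ∃ t, chk3 f_pm_011 t 39 59 1 = true := ex3_b k12_pm_011 s154_pm_011

theorem s156_pm_011 : ∃ t, chk3 f_pm_011 t 19 59 1 = true := ex3_a k11_pm_011 s155_pm_011

theorem s157_pm_011 : ∃ t, chk3 f_pm_011 t 19 29 1 = true := ex3_b k10_pm_011 s156_pm_011

theorem s158_pm_011 : ∃ t, chk3 f_pm_011 t 9 29 1 = true := ex3_a k9_pm_011 s157_pm_011

theorem s159_pm_011 : ∃ t, chk3 f_pm_011 t 9 14 1 = true := ex3_b k8_pm_011 s158_pm_011

theorem s160_pm_011 : ∃ t, chk3 f_pm_011 t 4 14 1 = true := ex3_a k7_pm_011 s159_pm_011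

theorem s161_pm_011 : ∃ t, chk3 f_pm_011 t 4 7 1 = true := ex3_b s160_pm_011 s153_pm_011

theorem s162_pm_011 : ∃ t, chk3 f_pm_011 t 2 7 1 = true := ex3_a s161_pm_011 s105_pm_011

theorem s163_pm_011 : ∃ t, chk3 f_pm_011 t 11 27 1 = true := ex3_a k5_pm_011 k6_pm_011

theorem s164_pm_011 : ∃ t, chk3 f_pm_011 t 11 13 1 = true := ex3_b k4_pm_011 s163_pm_011

theorem s165_pm_011 : ∃ t, chk3 f_pm_011 t 5 13 1 = true := ex3_a k3_pm_011 s164_pm_011

theorem s166_pm_011 : ∃ t, chk3 f_pm_011 t 5 6 1 = true := ex3_b k2_pm_011 s165_pm_011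

theorem s167_pm_011 : ∃ t, chk3 f_pm_011 t 2 6 1 = true := ex3_a k1_pm_011 s166_pm_011

theorem s168_pm_011 : ∃ t, chk3 f_pm_011 t 2 3 1 = true := ex3_b s167_pm_011 s162_pm_011

theorem s169_pm_011 : ∃ t, chk3 f_pm_011 t 1 3 1 = true := ex3_a s168_pm_011 s90_pm_011

theorem s170_pm_011 : ∃ t, chk3 f_pm_011 t 1 1 1 = true := ex3_b k0_pm_011 s169_pm_011

theorem c_pm_011 : CertN 0 536870912 536870912 536870912 469762048 67108864 3 true true false .pnn 0 1 1
    ndN0q0 ndN4q1 pcN1 cut_pm_011 Ext.none :=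
  certN1 (fam := true) (s1 := true) (s2 := false) (a := 0) (b := 1) (c := 1) (cn := .pnn) (n1 := ndN0q0) (n2 := ndN4q1) (pc := pcN1) (cut := cut_pm_011) (xt := Ext.none) (P1 := 0) (W1 := 536870912) (P2 := 536870912) (W2 := 536870912) (P3 := 469762048) (W3 := 67108864) (N0 := 3)
    rfl (fun _ => rfl) s170_pm_011

noncomputable def cut_pm_012 : Cut := Cut.of [[⟨0, 0, 0, 67108864⟩, ⟨1, 1, 0, 67108864⟩, ⟨2, 1, 0, 67108864⟩]]

noncomputable def f_pm_012 : ℕ → ℕ → ℕ → ℕ → Bool := onCell 1073741824 536870912 536870912 536870912 469762048 67108864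
    (rowN 3 2 true true false .pnp 0 1 2 (qsf 0 536870912 536870912 536870912 2) ndN0q0 ndN4q1 pcN2 cut_pm_012 Ext.none)

def k0_pm_012 : ∃ t, chk3 f_pm_012 t 2 2 1 = true :=
  ⟨(a (b (a (b (a (b (l 16116736) (l 16171384)) (b (l 16158720) (l 16109896))) (b (a (l 16245272) (l 16157408)) (a (a (l 16257912) (l 16224624)) (l 16203232)))) (b (a (b (l 2) (l 16134920)) (l 2)) (a (b (l 16135208) (l 16176336)) (l 16225592)))) (a (b (a (b (a (l 16276312) (l 16264528)) (l 16347040)) (b (l 16285232) (l 16339040))) (a (b (l 16406600) (l 16468056)) (b (l 16343744) (l 16395328)))) (b (a (b (l 16215816) (l 16248952)) (l 16378232)) (b (a (l 16273512) (l 16256168)) (a (l 16291832) (l 16271856)))))) (b (a (b (l 2) (a (l 16188648) (l 2))) (l 2)) (a (b (a (l 16195040) (l 16179664)) (a (a (l 16252088) (b (l 16234136) (l 16379768))) (l 16229184))) (b (a (l 16211576) (l 2)) (a (l 16215448) (l 16199872)))))), by decide +kernel⟩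

def k1_pm_012 : ∃ t, chk3 f_pm_012 t 4 6 1 = true :=
  ⟨(a (a (a (b (b (l 16484768) (l 16549488)) (b (l 16613904) (a (l 16650712) (l 16603704)))) (b (b (l 16409632) (l 16470416)) (b (l 16531352) (l 16571120)))) (b (b (a (l 16379432) (l 16351760)) (a (l 16457288) (l 16383896))) (b (a (l 16451768) (l 16416760)) (a (l 16498848) (l 16492032))))) (b (b (a (l 16336400) (l 16282960)) (a (l 16404144) (l 16299128))) (a (b (l 16473552) (a (l 16413792) (l 16380576))) (b (l 16317624) (l 16379904))))), by decide +kernel⟩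

def k2_pm_012 : ∃ t, chk3 f_pm_012 t 4 7 1 = true :=
  ⟨(a (b (a (a (a (b (b (l 16640496) (l 16661016)) (b (a (l 16688184) (l 16673952)) (a (c (l 16708536) (l 16707048)) (l 16693640)))) (b (l 16644952) (b (l 16654240) (l 16674016)))) (b (c (l 16611632) (l 16609040)) (b (l 16628896) (a (l 16649528) (l 16604464))))) (b (a (b (l 16536728) (l 16575840)) (b (l 16475232) (l 16491968))) (a (b (l 16614832) (a (l 16602144) (l 16558496))) (b (l 16508640) (l 16546216))))) (a (b (b (a (a (a (b (l 16722192) (l 6)) (l 16712912)) (c (l 16693944) (l 16692928))) (a (l 16668528) (l 16628224))) (a (a (l 6) (b (l 16707808) (l 6))) (a (b (l 16682568) (l 16681344)) (b (l 16657672) (l 16666720))))) (a (l 6) (b (a (l 6) (b (a (l 6) (l 16648464)) (l 6))) (l 6)))) (b (a (a (b (l 16620112) (b (l 16612480) (l 16621288))) (b (l 16575880) (l 16614056))) (b (l 16583672) (b (l 16554008) (l 16583112)))) (b (b (a (a (l 16630040) (l 16605848)) (l 16591192)) (a (a (l 16659696) (l 16614280)) (l 16599240))) (b (a (a (l 6)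 (l 16622656)) (a (l 16598304) (l 16574296))) (a (l 6) (a (l 16606368) (l 16582104)))))))) (b (a (a (b (l 16486152) (a (l 16506120) (l 16464520))) (b (l 16407600) (l 16497944))) (b (a (l 16374608) (l 16344368)) (b (l 16396728) (l 16428880)))) (b (a (b (a (l 16497632) (l 16455736)) (a (l 16533736) (l 16469504))) (b (a (l 16416704) (l 16380184)) (a (l 16428896) (l 16390712)))) (b (a (a (b (l 16524056) (l 16531536)) (l 16504208)) (a (l 16441120) (l 16401328))) (a (a (b (l 16538976) (l 16567352)) (b (l 16493488) (l 16500288))) (a (l 16474296) (l 16411984))))))), by decide +kernel⟩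

def k3_pm_012 : ∃ t, chk3 f_pm_012 t 5 3 1 = true :=
  ⟨(b (a (b (a (a (l 16271400) (a (l 16264752) (l 16387672))) (l 16400208)) (a (a (b (l 16287840) (l 16301800)) (b (l 16419240) (a (l 16286560) (l 16278400)))) (b (l 16253280) (l 16256040)))) (b (a (l 16264496) (l 16231760)) (b (l 16277400) (a (l 16229040) (l 16218488))))) (a (b (a (a (b (l 16317144) (l 16333592)) (b (a (l 16298992) (l 16289136)) (a (l 16312624) (l 16321936)))) (b (l 16261120) (l 16268072))) (a (a (b (l 16413784) (b (l 16364224) (l 16373232))) (b (a (l 16327152) (a (l 16316440) (l 16310328))) (a (b (l 16338504) (l 16346200)) (b (l 16365544) (a (l 16333760) (l 16326432)))))) (b (b (l 16273992) (l 16278192)) (b (l 16282600) (l 16329120))))) (b (b (a (l 16223816) (l 16199552)) (a (l 16221232) (l 16186432))) (b (a (l 16241872) (l 16176328)) (a (b (l 16221608) (l 16222472)) (b (l 16170688) (l 16167384))))))), by decide +kernel⟩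

def k4_pm_012 : ∃ t, chk3 f_pm_012 t 3 1 1 = true :=
  ⟨(b (a (b (l 2) (a (b (l 2) (l 16331352)) (l 2))) (l 2)) (a (b (a (b (a (l 16218648) (l 16202192)) (b (l 16220424) (l 16277136))) (b (b (l 2) (l 16332936)) (b (l 16206408) (l 16197760)))) (b (a (b (l 16319032) (a (l 16165320) (l 16162504))) (b (l 16194552) (a (l 16172152) (l 16184904)))) (a (b (a (l 16144336) (l 16126752)) (a (l 16168760) (l 16097904))) (b (a (l 16128496) (l 16143496)) (a (l 16084152) (l 16090840)))))) (b (a (b (l 2) (a (l 16379832) (l 2))) (l 2)) (a (b (a (l 16185312) (l 16299616)) (a (b (l 16162560) (l 16111224)) (b (l 16175352) (l 16144840)))) (b (a (l 16448560) (l 2)) (a (b (l 16280552) (l 16166920)) (b (l 16431968) (l 16320960)))))))), by decide +kernel⟩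

theorem s5_pm_012 : ∃ t, chk3 f_pm_012 t 4 3 1 = true := ex3_b k1_pm_012 k2_pm_012

theorem s6_pm_012 : ∃ t, chk3 f_pm_012 t 2 3 1 = true := ex3_a s5_pm_012 k3_pm_012

theorem s7_pm_012 : ∃ t, chk3 f_pm_012 t 2 1 1 = true := ex3_b k0_pm_012 s6_pm_012

theorem s8_pm_012 : ∃ t, chk3 f_pm_012 t 1 1 1 = true := ex3_a s7_pm_012 k4_pm_012

theorem c_pm_012 : CertN 0 536870912 536870912 536870912 469762048 67108864 3 true true false .pnp 0 1 2
    ndN0q0 ndN4q1 pcN2 cut_pm_012 Ext.none :=
  certN2 (fam := true) (s1 := true) (s2 := false) (a := 0) (b := 1) (c := 2) (cn := .pnp) (n1 := ndN0q0) (n2 := ndN4q1) (pc := pcN2) (cut := cut_pm_012) (xt := Ext.none) (P1 := 0) (W1 := 536870912) (P2 := 536870912) (W2 := 536870912) (P3 := 469762048) (W3 := 67108864) (N0 := 3)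
    rfl (fun _ => rfl) s8_pm_012

noncomputable def cut_pm_022 : Cut := Cut.of [[⟨0, 0, 0, 67108864⟩, ⟨1, 1, 0, 67108864⟩, ⟨2, 1, 0, 67108864⟩]]

noncomputable def f_pm_022 : ℕ → ℕ → ℕ → ℕ → Bool := onCell 1073741824 536870912 1073741824 536870912 469762048 67108864
    (rowN 3 2 true true false .pp 0 2 2 (qsf 0 536870912 1073741824 536870912 2) ndN0q0 ndN4q2 pcN2 cut_pm_022 Ext.none)

def k0_pm_022 : ∃ t, chk3 f_pm_022 t 4 1 1 = true :=
  ⟨(b (a (b (b (a (b (l 6) (b (l 6) (l 1))) (b (a (l 6) (a (l 6) (b (b (l 16590120) (l 16598152)) (l 16656848)))) (a (b (l 6) (b (l 6) (l 1))) (a (b (l 6) (b (l 6) (l 379601077527))) (b (l 16644960) (b (l 16634192) (l 152504666263))))))) (a (l 1) (b (a (l 1) (b (a (l 1) (l 370474245383)) (l 1))) (l 1)))) (l 1)) (b (b (a (b (a (b (b (l 16575168) (l 16583192)) (a (l 16606584) (l 16561920))) (b (a (l 16523200) (l 16500544)) (l 16569176))) (a (b (b (l 16626512) (l 16612400)) (l 16643104)) (b (l 16604400) (l 16575536)))) (b (b (a (l 16488464) (l 16425312))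 (a (l 16482776) (l 16440424))) (b (a (l 16496904) (l 16454400)) (a (l 16530848) (l 16467224))))) (a (b (a (a (b (b (l 151430889879) (l 380674747575)) (l 1)) (b (l 16653032) (l 372084786231))) (b (l 16608384) (a (a (l 117608026791) (l 16629848)) (l 16588040)))) (a (l 1) (b (l 351683646407) (l 1)))) (b (b (a (l 16521656) (l 16478880)) (a (l 16553176) (l 16489336))) (a (b (c (l 16608200) (l 16606464)) (l 352220444343)) (b (l 16498544) (l 16570384)))))) (a (l 1) (b (b (a (l 1) (l 359736580647)) (l 1)) (l 1))))) (l 1)), by decide +kernel⟩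

def k1_pm_022 : ∃ t, chk3 f_pm_022 t 5 1 1 = true :=
  ⟨(b (b (a (b (a (a (b (b (l 16385640) (l 16400552)) (b (l 16414352) (l 16427016))) (b (a (l 16386352) (a (l 16352520) (b (l 16337456) (l 16352128)))) (a (l 16392696) (a (l 16379728) (l 16372112))))) (b (b (l 16317984) (l 16311208)) (b (l 16324360) (l 16336448)))) (a (a (b (l 16527736) (l 16504032)) (a (b (l 16415520) (l 16433640)) (b (l 16503840) (l 16522008)))) (b (l 16415416) (l 16453888)))) (b (b (a (b (l 16229864) (l 16242816)) (l 16261440)) (a (l 16281336) (l 16198376))) (b (a (l 16280296) (l 16215520)) (a (l 16295920) (l 16228664))))) (b (a (a (a (b (b (l 16493336) (l 138545832535)) (l 1)) (b (a (l 16467656) (l 16467064)) (b (l 134250854007) (l 1)))) (b (l 16403624) (l 16484352))) (b (a (l 16327840) (l 16237368)) (a (l 16312632) (l 16262056)))) (a (a (l 1) (b (l 331282167127) (l 1))) (a (b (l 16396392) (l 296385474471)) (b (l 16239072) (l 16305832)))))) (a (l 1) (b (b (a (l 1) (b (l 351682970967) (l 1))) (l 1)) (l 1)))), by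 decide +kernel⟩

def k2_pm_022 : ∃ t, chk3 f_pm_022 t 3 1 1 = true :=
  ⟨(b (a (b (b (a (b (a (l 16128864) (l 16091480)) (a (l 16145592) (l 16103256))) (b (a (l 16067736) (l 16059672)) (l 16103888))) (a (b (a (l 16159152) (l 16112288)) (l 16268112)) (b (l 16061624) (l 16060456)))) (b (a (b (l 16251304) (l 16271888)) (b (l 16055944) (l 16047776))) (a (a (l 16272040) (l 16147224)) (b (l 16055960) (l 16016408))))) (b (a (b (a (b (l 16072512) (l 16054432)) (b (l 16106928) (l 16081232))) (a (l 16035024) (l 16041240))) (b (a (b (l 16152376) (l 16128168)) (b (l 16244048) (l 16192248))) (a (l 16074656) (l 16118232)))) (a (b (a (l 16007912) (l 15996312)) (a (l 15968040) (l 15944888))) (b (a (l 16003392) (l 16025768)) (l 16038728))))) (a (b (a (b (b (a (l 16207568) (l 16088392)) (a (l 209412398887) (l 16158160))) (a (l 1) (l 358125174999))) (b (b (l 15990544) (l 16037416)) (b (a (l 16096040) (l 16007816)) (l 176126287895)))) (a (l 1) (b (a (l 1) (l 271152489463)) (l 1)))) (b (a (b (l 16053824)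 (a (l 15949008) (l 15855504))) (b (l 15833432) (l 15842648))) (a (b (b (l 16048504) (l 16150752)) (l 294237890439)) (b (l 16032504) (l 16123792)))))), by decide +kernel⟩

theorem s3_pm_022 : ∃ t, chk3 f_pm_022 t 2 1 1 = true := ex3_a k0_pm_022 k1_pm_022

theorem s4_pm_022 : ∃ t, chk3 f_pm_022 t 1 1 1 = true := ex3_a s3_pm_022 k2_pm_022

theorem c_pm_022 : CertN 0 536870912 1073741824 536870912 469762048 67108864 3 true true false .pp 0 2 2
    ndN0q0 ndN4q2 pcN2 cut_pm_022 Ext.none :=
  certN2 (fam := true) (s1 := true) (s2 := false) (a := 0) (b := 2) (c := 2) (cn := .pp) (n1 := ndN0q0) (n2 := ndN4q2) (pc := pcN2) (cut := cut_pm_022) (xt := Ext.none) (P1 := 0) (W1 := 536870912) (P2 := 1073741824) (W2 := 536870912) (P3 := 469762048) (W3 := 67108864) (N0 := 3)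
    rfl (fun _ => rfl) s4_pm_022

noncomputable def f_pm_023 : ℕ → ℕ → ℕ → ℕ → Bool := onCell 1610612736 536870912 1073741824 536870912 469762048 67108864
    (rowN 3 2 true true false .up 0 2 3 (qsf 0 536870912 1073741824 536870912 3) ndN0q0 ndN4q2 pcN3 Cut.none Ext.none)

def k0_pm_023 : ∃ t, chk3 f_pm_023 t 1 1 1 = true :=
  ⟨(a (a (b (a (b (b (a (b (l 16391552) (l 16314488)) (l 16533952)) (a (l 16221360) (l 16405472))) (b (a (l 16117496) (l 16307504)) (l 16136200))) (b (b (a (l 16671520) (l 2)) (a (l 16550904) (l 16673944))) (b (l 16521400) (l 16452504)))) (b (a (b (l 16090032) (l 16078936)) (b (l 16406064) (l 16386632))) (a (b (l 16103784) (l 16173664)) (b (l 16394680) (l 16431968))))) (b (b (a (b (l 2) (l 16821856)) (l 2)) (a (b (l 16733192) (l 16665128)) (b (l 16884160) (l 16814320)))) (b (a (b (l 16621312) (l 16597696)) (b (l 16765368) (l 16738824))) (b (l 16668920) (l 16680552))))) (b (a (b (l 2) (a (b (l 2) (l 16917184)) (l 2))) (l 2)) (a (b (a (b (l 16868584) (l 16832352))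 (b (l 16926640) (l 16900472))) (b (a (l 16815144) (l 16868408)) (a (l 16811544) (l 16856792)))) (a (b (b (l 2) (l 16916504)) (b (l 16901232) (l 16880696))) (b (l 2) (a (l 16891888) (b (l 2) (l 16875384)))))))), by decide +kernel⟩

theorem c_pm_023 : CertN 0 536870912 1073741824 536870912 469762048 67108864 3 true true false .up 0 2 3
    ndN0q0 ndN4q2 pcN3 Cut.none Ext.none :=
  certN2 (fam := true) (s1 := true) (s2 := false) (a := 0) (b := 2) (c := 3) (cn := .up) (n1 := ndN0q0) (n2 := ndN4q2) (pc := pcN3) (cut := Cut.none) (xt := Ext.none) (P1 := 0) (W1 := 536870912) (P2 := 1073741824) (W2 := 536870912) (P3 := 469762048) (W3 := 67108864) (N0 := 3)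
    rfl (fun _ => rfl) k0_pm_023

noncomputable def f_pm_033 : ℕ → ℕ → ℕ → ℕ → Bool := onCell 1610612736 536870912 0 1230186008 469762048 67108864
    (rowN 3 2 true true false .pnn 0 3 3 (qsf 0 536870912 0 1230186008 3) ndN0q0 ndN4q3 pcN3 Cut.none Ext.none)

def k0_pm_033 : ∃ t, chk3 f_pm_033 t 1 1 1 = true :=
  ⟨(b (b (a (l 1) (a (l 1) (l 4))) (a (l 1) (a (l 1) (a (l 16948272) (a (l 16907144) (l 4)))))) (b (a (a (l 1) (b (l 1) (a (l 1) (l 16936216)))) (a (b (a (l 1) (l 17005328)) (a (l 16923448) (l 16918600))) (a (b (l 16926720) (l 16900792)) (a (b (l 16893576) (l 16882848)) (a (b (l 16879288) (l 16873680)) (b (l 4) (a (l 16868472) (l 16866112)))))))) (a (a (b (l 1) (b (l 359200296903) (a (l 16317624) (l 16513792)))) (b (b (l 16868344) (l 16815024)) (b (l 16762272) (l 16712704)))) (a (b (b (l 16880312) (l 16865576)) (b (l 16852024) (a (l 16821976) (l 16856152)))) (a (b (l 16877224) (b (l 16871104) (l 16870872))) (b (a (l 16871120) (a (l 16866352) (l 16862816))) (a (b (l 16868472) (l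 16874792)) (a (l 16868928) (l 16864144))))))))), by decide +kernel⟩

theorem c_pm_033 : CertN 0 536870912 0 1230186008 469762048 67108864 3 true true false .pnn 0 3 3
    ndN0q0 ndN4q3 pcN3 Cut.none Ext.none :=
  certN2 (fam := true) (s1 := true) (s2 := false) (a := 0) (b := 3) (c := 3) (cn := .pnn) (n1 := ndN0q0) (n2 := ndN4q3) (pc := pcN3) (cut := Cut.none) (xt := Ext.none) (P1 := 0) (W1 := 536870912) (P2 := 0) (W2 := 1230186008) (P3 := 469762048) (W3 := 67108864) (N0 := 3)
    rfl (fun _ => rfl) k0_pm_033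

noncomputable def f_pm_101 : ℕ → ℕ → ℕ → ℕ → Bool := onCell 536870912 536870912 536870912 536870912 469762048 67108864
    (rowN 3 1 true true false .npn 1 0 1 (qsf 536870912 536870912 0 536870912 1) ndN0q1 ndN4q0 pcN1 Cut.none Ext.none)

def k0_pm_101 : ∃ t, chk3 f_pm_101 t 2 4 1 = true :=
  ⟨(a (b (a (l 3) (a (a (l 3) (l 1)) (l 1))) (a (b (a (l 3) (a (l 3) (b (l 3) (b (l 3) (a (l 3) (b (l 3) (l 559587283031))))))) (a (b (l 3) (a (l 3) (b (l 3) (a (l 3) (b (l 3) (a (l 3) (l 521469446135))))))) (b (a (b (l 3) (a (l 3) (b (l 3) (l 563345380151)))) (b (a (b (l 3) (l 561734767031)) (b (l 544018023799) (l 524690668247))) (a (b (l 546702378679) (l 514490121175)) (l 16782752)))) (a (b (a (b (l 3) (a (l 3) (l 559050411351))) (b (a (l 558513540455) (l 517174477223)) (l 511268916711))) (a (b (a (l 554755443879) (l 512879509687)) (a (l 509658294247) (l 16783832))) (l 16782568))) (a (b (l 16782800) (l 16779784)) (l 16799632)))))) (a (b (b (a (a (l 3) (b (l 3) (l 559587273367))) (b (l 1) (a (l 458521328807)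 (l 1)))) (a (b (a (l 559587284231) (b (l 538649314423) (l 523616926151))) (a (b (l 541333669031) (l 525764409863)) (l 16782608))) (a (b (l 16782536) (l 16779968)) (l 16820648)))) (a (b (a (b (l 16782648) (l 16780016)) (l 16799536)) (l 16779568)) (l 16845144))) (b (b (l 1) (l 16847792)) (a (b (l 16785024) (l 16789664)) (l 16793880)))))) (b (l 1) (a (b (l 1) (a (l 16805352) (l 1))) (l 1)))), by decide +kernel⟩

def k1_pm_101 : ∃ t, chk3 f_pm_101 t 2 5 1 = true :=
  ⟨(a (a (b (a (b (b (a (b (l 3) (a (l 3) (l 437717583191))) (b (a (b (l 3) (l 424832680663)) (b (l 409263422887) (l 16783968))) (a (l 404431582551) (l 16782320)))) (a (b (a (l 439328195255) (l 404968452311)) (a (l 405505321863) (l 16780504))) (b (l 16780600) (l 16776872)))) (a (b (b (l 16777880) (l 16773656)) (l 16789032)) (l 16785696))) (b (a (b (a (b (l 16782336) (l 16779944)) (l 16778016)) (l 16777432)) (l 16780152)) (l 16782928))) (a (b (l 16782424) (l 16782008)) (b (l 16786312) (l 16787048)))) (b (a (b (a (l 16784768) (l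 16789816)) (l 16792072)) (b (l 16797520) (l 16802624))) (a (b (l 16795472) (l 16796344)) (l 16807976)))) (b (a (a (b (l 16807472) (l 16811152)) (l 16821448)) (a (l 16840160) (l 1))) (a (a (l 16818200) (l 16825808)) (l 16929144)))), by decide +kernel⟩

def k2_pm_101 : ∃ t, chk3 f_pm_101 t 2 3 1 = true :=
  ⟨(a (b (a (b (a (b (l 16776912) (l 16764360)) (l 16778856)) (a (l 16744368) (l 16737552))) (b (a (l 16789064) (l 16802736)) (a (l 16750744) (l 16768400)))) (a (b (a (b (l 16643160) (l 16555752)) (b (l 16667296) (l 16590144))) (a (b (l 16430904) (l 16256536)) (b (l 16480016) (l 16326464)))) (b (a (l 16651576) (l 16676848)) (a (b (l 16509776) (l 16366360)) (b (l 16544552) (l 16409968)))))) (b (b (a (a (l 16816872) (l 16829312)) (l 16846688)) (a (a (l 16789184) (l 16809952)) (l 16839320))) (b (a (a (l 16709216) (l 16744160)) (l 16791896)) (a (a (l 16533368) (l 16592344)) (b (l 16709848) (l 16620760)))))), by decide +kernel⟩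

def k3_pm_101 : ∃ t, chk3 f_pm_101 t 3 1 1 = true :=
  ⟨(b (b (l 1) (a (a (b (l 1) (l 16890232)) (l 1)) (l 1))) (b (a (a (b (l 16876096) (l 16872440)) (a (b (l 16906960) (l 16893232)) (b (l 1) (l 16914408)))) (a (a (a (b (l 1) (l 16933776)) (l 1)) (l 1)) (l 1))) (a (b (a (l 16850248) (l 17025600)) (a (b (l 16792096) (l 16721816)) (a (l 16825216) (l 16867936)))) (b (a (a (l 16935072) (l 17015136)) (l 17083728)) (a (l 16920344) (l 17008688)))))), by decide +kernel⟩

theorem s4_pm_101 : ∃ t, chk3 f_pm_101 t 2 2 1 = true := ex3_b k0_pm_101 k1_pm_101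

theorem s5_pm_101 : ∃ t, chk3 f_pm_101 t 2 1 1 = true := ex3_b s4_pm_101 k2_pm_101

theorem s6_pm_101 : ∃ t, chk3 f_pm_101 t 1 1 1 = true := ex3_a s5_pm_101 k3_pm_101

theorem c_pm_101 : CertN 536870912 536870912 0 536870912 469762048 67108864 3 true true false .npn 1 0 1
    ndN0q1 ndN4q0 pcN1 Cut.none Ext.none :=
  certN1 (fam := true) (s1 := true) (s2 := false) (a := 1) (b := 0) (c := 1) (cn := .npn) (n1 := ndN0q1) (n2 := ndN4q0) (pc := pcN1) (cut := Cut.none) (xt := Ext.none) (P1 := 536870912) (W1 := 536870912) (P2 := 0) (W2 := 536870912) (P3 := 469762048) (W3 := 67108864) (N0 := 3)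
    rfl (fun _ => rfl) s6_pm_101

noncomputable def f_pm_102 : ℕ → ℕ → ℕ → ℕ → Bool := onCell 536870912 536870912 1073741824 536870912 469762048 67108864
    (rowN 3 1 true true false .npp 1 0 2 (qsf 536870912 536870912 0 536870912 2) ndN0q1 ndN4q0 pcN2 Cut.none Ext.none)

def k0_pm_102 : ∃ t, chk3 f_pm_102 t 1 1 1 = true :=
  ⟨(a (b (a (b (a (b (a (b (l 16148504) (l 16089080)) (b (l 16219384) (l 16193744))) (a (l 2) (b (l 16178384) (l 2)))) (b (a (b (l 16274376) (l 16263736)) (b (l 16330480) (l 16331096))) (a (l 16305160) (l 16346152)))) (a (l 2) (b (a (l 2) (l 16391888)) (l 2)))) (b (b (a (a (l 16422816) (l 16482280)) (a (l 16552640) (l 16615392))) (a (a (l 16430080) (l 16512328)) (b (l 16608096) (l 16628712)))) (a (b (a (l 16481200) (l 16561744)) (l 191226827879)) (b (l 16665272) (l 16720232))))) (a (l 2) (b (b (a (l 2) (l 16775984)) (l 2)) (l 2)))) (b (b (a (b (a (b (l 16693976) (l 16708936)) (a (l 16779160) (l 16827616))) (a (l 16736216) (l 16962664))) (a (b (b (l 16891064) (l 16903712))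 (l 16924232)) (b (b (l 16979384) (l 16988544)) (l 17007848)))) (a (a (b (l 16780128) (l 16826824)) (b (l 16874216) (l 16912432))) (b (a (l 16952600) (l 17019320)) (a (l 16980584) (l 17035192))))) (b (a (a (b (l 16872544) (l 16915368)) (b (l 16948728) (l 16981824))) (b (a (l 17006240) (l 17048512)) (a (l 17028416) (l 17058240)))) (a (b (a (l 2) (l 17011192)) (l 2)) (b (a (l 17046512) (l 17063960)) (a (l 17060664) (l 17065528))))))), by decide +kernel⟩

theorem c_pm_102 : CertN 536870912 536870912 0 536870912 469762048 67108864 3 true true false .npp 1 0 2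
    ndN0q1 ndN4q0 pcN2 Cut.none Ext.none :=
  certN1 (fam := true) (s1 := true) (s2 := false) (a := 1) (b := 0) (c := 2) (cn := .npp) (n1 := ndN0q1) (n2 := ndN4q0) (pc := pcN2) (cut := Cut.none) (xt := Ext.none) (P1 := 536870912) (W1 := 536870912) (P2 := 0) (W2 := 536870912) (P3 := 469762048) (W3 := 67108864) (N0 := 3)
    rfl (fun _ => rfl) k0_pm_102

noncomputable def f_pm_112 : ℕ → ℕ → ℕ → ℕ → Bool := onCell 536870912 536870912 1073741824 536870912 469762048 67108864
    (rowN 3 1 true true false .dn 1 1 2 (qsf 536870912 536870912 536870912 536870912 2) ndN0q1 ndN4q1 pcN2 Cut.none Ext.none)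

def k0_pm_112 : ∃ t, chk3 f_pm_112 t 1 1 1 = true :=
  ⟨(a (b (a (b (a (b (a (l 16171624) (l 16290840)) (a (l 16130680) (l 16175952))) (b (a (l 16269432) (l 1)) (a (l 16265824) (l 16348056)))) (a (b (a (l 16174264) (l 16184664)) (l 16205296)) (b (l 16345648) (l 16405488)))) (b (a (b (l 1) (l 16473720)) (l 1)) (a (b (l 16523352) (l 16585848)) (l 96670652343)))) (b (a (a (b (l 16216040) (l 16284344)) (b (l 16475888) (l 16547984))) (a (l 16685456) (l 16801960))) (a (b (a (a (l 16281272) (l 16421784)) (l 16637648)) (a (a (l 16360968) (l 16493488)) (l 16682272))) (b (a (l 16775440) (l 16872096)) (a (l 16827712) (l 16912312)))))) (b (a (b (l 1) (a (l 184180832007) (l 1))) (l 1)) (b (a (a (l 16893896) (l 16965024)) (b (l 1) (l 17045216))) (a (b (l 16986520) (l 17016496)) (b (l 17057496) (l 17065480)))))), by decide +kernel⟩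

theorem c_pm_112 : CertN 536870912 536870912 536870912 536870912 469762048 67108864 3 true true false .dn 1 1 2
    ndN0q1 ndN4q1 pcN2 Cut.none Ext.none :=
  certN1 (fam := true) (s1 := true) (s2 := false) (a := 1) (b := 1) (c := 2) (cn := .dn) (n1 := ndN0q1) (n2 := ndN4q1) (pc := pcN2) (cut := Cut.none) (xt := Ext.none) (P1 := 536870912) (W1 := 536870912) (P2 := 536870912) (W2 := 536870912) (P3 := 469762048) (W3 := 67108864) (N0 := 3)
    rfl (fun _ => rfl) k0_pm_112

noncomputable def f_pm_113 : ℕ → ℕ → ℕ → ℕ → Bool := onCell 536870912 536870912 1610612736 536870912 469762048 67108864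
    (rowN 3 1 true true false .nn 1 1 3 (qsf 536870912 536870912 536870912 536870912 3) ndN0q1 ndN4q1 pcN3 Cut.none Ext.none)

def k0_pm_113 : ∃ t, chk3 f_pm_113 t 1 1 1 = true :=
  ⟨(a (b (b (a (b (a (b (a (l 16431280) (l 16608592)) (l 266388151127)) (a (l 16786776) (l 16910664))) (a (a (l 2) (l 16670152)) (l 16902824))) (b (a (l 17013960) (l 17077048)) (a (l 17056056) (l 17102936)))) (a (a (l 2) (b (l 16964088) (l 2))) (b (a (l 17102624) (l 17129864)) (a (l 17152968) (l 17160488))))) (b (b (a (l 2) (a (l 2) (l 17194816))) (l 2)) (l 2))) (a (b (b (b (l 17092304) (l 17107176)) (b (l 17120800) (l 17133280))) (b (b (l 17148128) (l 17152968)) (l 4))) (b (b (b (l 17072664) (l 17071160)) (b (l 17065064) (l 17055976))) (l 4)))), by decide +kernel⟩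

theorem c_pm_113 : CertN 536870912 536870912 536870912 536870912 469762048 67108864 3 true true false .nn 1 1 3
    ndN0q1 ndN4q1 pcN3 Cut.none Ext.none :=
  certN1 (fam := true) (s1 := true) (s2 := false) (a := 1) (b := 1) (c := 3) (cn := .nn) (n1 := ndN0q1) (n2 := ndN4q1) (pc := pcN3) (cut := Cut.none) (xt := Ext.none) (P1 := 536870912) (W1 := 536870912) (P2 := 536870912) (W2 := 536870912) (P3 := 469762048) (W3 := 67108864) (N0 := 3)
    rfl (fun _ => rfl) k0_pm_113

noncomputable def f_pm_123 : ℕ → ℕ → ℕ → ℕ → Bool := onCell 536870912 536870912 1610612736 536870912 469762048 67108864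
    (rowN 3 1 true true false .npn 1 2 3 (qsf 536870912 536870912 1073741824 536870912 3) ndN0q1 ndN4q2 pcN3 Cut.none Ext.none)

def k0_pm_123 : ∃ t, chk3 f_pm_123 t 1 1 1 = true :=
  ⟨(a (b (b (a (b (a (b (a (l 16431328) (l 16553536)) (a (l 16534464) (l 16637456))) (b (l 1) (l 394634342887))) (a (l 16851416) (l 16903024))) (b (l 1) (a (l 438658270439) (l 1)))) (a (a (b (l 16782888) (l 16850528)) (b (l 16942976) (l 16965048))) (b (a (l 17102824) (l 17220984)) (a (l 17074296) (l 17160688))))) (b (a (b (a (l 16894560) (l 16969160)) (a (l 16914536) (l 16954712))) (b (a (l 17037080) (l 17095648)) (a (l 16995136) (l 17033048)))) (b (a (a (l 16910104) (l 16929048)) (a (l 16945576) (l 16962880))) (a (b (l 16897160) (a (l 16980360) (l 4))) (l 4))))) (a (b (b (l 1) (b (l 1) (a (l 17253904) (l 1)))) (b (b (a (l 17164512) (l 17225592)) (l 17331784)) (l 4))) (b (l 1) (l 4)))), by decide +kernel⟩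

theorem c_pm_123 : CertN 536870912 536870912 1073741824 536870912 469762048 67108864 3 true true false .npn 1 2 3
    ndN0q1 ndN4q2 pcN3 Cut.none Ext.none :=
  certN1 (fam := true) (s1 := true) (s2 := false) (a := 1) (b := 2) (c := 3) (cn := .npn) (n1 := ndN0q1) (n2 := ndN4q2) (pc := pcN3) (cut := Cut.none) (xt := Ext.none) (P1 := 536870912) (W1 := 536870912) (P2 := 1073741824) (W2 := 536870912) (P3 := 469762048) (W3 := 67108864) (N0 := 3)
    rfl (fun _ => rfl) k0_pm_123

noncomputable def f_pm_133 : ℕ → ℕ → ℕ → ℕ → Bool := onCell 536870912 536870912 0 1230186008 469762048 67108864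
    (rowN 3 0 true true false .dn 1 3 3 (qsf 536870912 536870912 0 1230186008 3) ndN0q1 ndN4q3 pcN3 Cut.none Ext.none)

def k0_pm_133 : ∃ t, chk3 f_pm_133 t 1 1 1 = true :=
  ⟨(b (l 2) (b (l 2) (a (b (l 2) (l 4)) (l 2)))), by decide +kernel⟩

theorem c_pm_133 : CertN 536870912 536870912 0 1230186008 469762048 67108864 3 true true false .dn 1 3 3
    ndN0q1 ndN4q3 pcN3 Cut.none Ext.none :=
  certN0 (fam := true) (s1 := true) (s2 := false) (a := 1) (b := 3) (c := 3) (cn := .dn) (n1 := ndN0q1) (n2 := ndN4q3) (pc := pcN3) (cut := Cut.none) (xt := Ext.none) (P1 := 536870912) (W1 := 536870912) (P2 := 0) (W2 := 1230186008) (P3 := 469762048) (W3 := 67108864) (N0 := 3)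
    rfl k0_pm_133

noncomputable def f_pm_202 : ℕ → ℕ → ℕ → ℕ → Bool := onCell 0 536870912 0 536870912 469762048 67108864
    (rowN 3 0 true true false .pp 2 0 2 (qsf 0 536870912 0 536870912 2) ndN0q2 ndN4q0 pcN2 Cut.none Ext.none)

def k0_pm_202 : ∃ t, chk3 f_pm_202 t 1 1 1 = true :=
  ⟨(b (a (l 4) (b (a (b (a (l 16992760) (b (l 17002072) (l 17011936))) (a (l 4) (l 17043504))) (a (b (b (a (l 17007784) (l 17010616)) (l 17027824)) (l 17070784)) (b (b (a (l 16990784) (b (l 17015520) (l 17058480))) (a (l 17050088) (l 17046024))) (a (l 17060216) (l 17051872))))) (a (a (l 4) (b (l 17053112) (l 4))) (b (a (l 17066112) (l 17062728)) (a (l 17058616) (l 17064152)))))) (a (l 4) (a (l 4) (b (a (b (l 17048000) (l 17034480)) (b (l 17064016) (l 17060712))) (a (l 4) (b (l 17053800) (l 17043256))))))), by decide +kernel⟩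

theorem c_pm_202 : CertN 0 536870912 0 536870912 469762048 67108864 3 true true false .pp 2 0 2
    ndN0q2 ndN4q0 pcN2 Cut.none Ext.none :=
  certN0 (fam := true) (s1 := true) (s2 := false) (a := 2) (b := 0) (c := 2) (cn := .pp) (n1 := ndN0q2) (n2 := ndN4q0) (pc := pcN2) (cut := Cut.none) (xt := Ext.none) (P1 := 0) (W1 := 536870912) (P2 := 0) (W2 := 536870912) (P3 := 469762048) (W3 := 67108864) (N0 := 3)
    rfl k0_pm_202

noncomputable def f_pm_203 : ℕ → ℕ → ℕ → ℕ → Bool := onCell 0 536870912 1610612736 536870912 469762048 67108864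
    (rowN 3 1 true true false .up 2 0 3 (qsf 0 536870912 0 536870912 3) ndN0q2 ndN4q0 pcN3 Cut.none Ext.none)

def k0_pm_203 : ∃ t, chk3 f_pm_203 t 1 1 1 = true :=
  ⟨(a (l 4) (b (l 4) (l 2))), by decide +kernel⟩

theorem c_pm_203 : CertN 0 536870912 0 536870912 469762048 67108864 3 true true false .up 2 0 3
    ndN0q2 ndN4q0 pcN3 Cut.none Ext.none :=
  certN1 (fam := true) (s1 := true) (s2 := false) (a := 2) (b := 0) (c := 3) (cn := .up) (n1 := ndN0q2) (n2 := ndN4q0) (pc := pcN3) (cut := Cut.none) (xt := Ext.none) (P1 := 0) (W1 := 536870912) (P2 := 0) (W2 := 536870912) (P3 := 469762048) (W3 := 67108864) (N0 := 3)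
    rfl (fun _ => rfl) k0_pm_203

noncomputable def f_pm_213 : ℕ → ℕ → ℕ → ℕ → Bool := onCell 0 536870912 536870912 536870912 469762048 67108864
    (rowN 3 0 true true false .pnn 2 1 3 (qsf 0 536870912 536870912 536870912 3) ndN0q2 ndN4q1 pcN3 Cut.none Ext.none)

def k0_pm_213 : ∃ t, chk3 f_pm_213 t 1 1 1 = true :=
  ⟨(a (l 4) (b (l 4) (l 4))), by decide +kernel⟩

theorem c_pm_213 : CertN 0 536870912 536870912 536870912 469762048 67108864 3 true true false .pnn 2 1 3
    ndN0q2 ndN4q1 pcN3 Cut.none Ext.none :=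
  certN0 (fam := true) (s1 := true) (s2 := false) (a := 2) (b := 1) (c := 3) (cn := .pnn) (n1 := ndN0q2) (n2 := ndN4q1) (pc := pcN3) (cut := Cut.none) (xt := Ext.none) (P1 := 0) (W1 := 536870912) (P2 := 536870912) (W2 := 536870912) (P3 := 469762048) (W3 := 67108864) (N0 := 3)
    rfl k0_pm_213

noncomputable def f_mm_001 : ℕ → ℕ → ℕ → ℕ → Bool := onCell 0 536870912 0 536870912 469762048 67108864
    (rowN 3 0 true false false .up 0 0 1 (qsf 0 536870912 0 536870912 1) ndN0q0 ndN4q0 pcN1 Cut.none Ext.none)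

def k0_mm_001 : ∃ t, chk3 f_mm_001 t 1 1 1 = true :=
  ⟨(l 4), by decide +kernel⟩

theorem c_mm_001 : CertN 0 536870912 0 536870912 469762048 67108864 3 true false false .up 0 0 1
    ndN0q0 ndN4q0 pcN1 Cut.none Ext.none :=
  certN0 (fam := true) (s1 := false) (s2 := false) (a := 0) (b := 0) (c := 1) (cn := .up) (n1 := ndN0q0) (n2 := ndN4q0) (pc := pcN1) (cut := Cut.none) (xt := Ext.none) (P1 := 0) (W1 := 536870912) (P2 := 0) (W2 := 536870912) (P3 := 469762048) (W3 := 67108864) (N0 := 3)
    rfl k0_mm_001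

noncomputable def f_mm_011 : ℕ → ℕ → ℕ → ℕ → Bool := onCell 0 536870912 536870912 536870912 469762048 67108864
    (rowN 3 0 true false false .pnn 0 1 1 (qsf 0 536870912 536870912 536870912 1) ndN0q0 ndN4q1 pcN1 Cut.none Ext.none)

def k0_mm_011 : ∃ t, chk3 f_mm_011 t 1 1 1 = true :=
  ⟨(l 4), by decide +kernel⟩

theorem c_mm_011 : CertN 0 536870912 536870912 536870912 469762048 67108864 3 true false false .pnn 0 1 1
    ndN0q0 ndN4q1 pcN1 Cut.none Ext.none :=
  certN0 (fam := true) (s1 := false) (s2 := false) (a := 0) (b := 1) (c := 1) (cn := .pnn) (n1 := ndN0q0) (n2 := ndN4q1) (pc := pcN1) (cut := Cut.none) (xt := Ext.none) (P1 := 0) (W1 := 536870912) (P2 := 536870912) (W2 := 536870912) (P3 := 469762048) (W3 := 67108864) (N0 := 3)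
    rfl k0_mm_011

noncomputable def f_mm_012 : ℕ → ℕ → ℕ → ℕ → Bool := onCell 0 536870912 536870912 536870912 469762048 67108864
    (rowN 3 0 true false false .pnp 0 1 2 (qsf 0 536870912 536870912 536870912 2) ndN0q0 ndN4q1 pcN2 Cut.none Ext.none)

def k0_mm_012 : ∃ t, chk3 f_mm_012 t 1 1 1 = true :=
  ⟨(l 4), by decide +kernel⟩

theorem c_mm_012 : CertN 0 536870912 536870912 536870912 469762048 67108864 3 true false false .pnp 0 1 2
    ndN0q0 ndN4q1 pcN2 Cut.none Ext.none :=
  certN0 (fam := true) (s1 := false) (s2 := false) (a := 0) (b := 1) (c := 2) (cn := .pnp) (n1 := ndN0q0) (n2 := ndN4q1) (pc := pcN2) (cut := Cut.none) (xt := Ext.none) (P1 := 0) (W1 := 536870912) (P2 := 536870912) (W2 := 536870912) (P3 := 469762048) (W3 := 67108864) (N0 := 3)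
    rfl k0_mm_012

noncomputable def f_mm_022 : ℕ → ℕ → ℕ → ℕ → Bool := onCell 0 536870912 1073741824 536870912 469762048 67108864
    (rowN 3 0 true false false .pp 0 2 2 (qsf 0 536870912 1073741824 536870912 2) ndN0q0 ndN4q2 pcN2 Cut.none Ext.none)

def k0_mm_022 : ∃ t, chk3 f_mm_022 t 1 1 1 = true :=
  ⟨(l 4), by decide +kernel⟩

theorem c_mm_022 : CertN 0 536870912 1073741824 536870912 469762048 67108864 3 true false false .pp 0 2 2
    ndN0q0 ndN4q2 pcN2 Cut.none Ext.none :=
  certN0 (fam := true) (s1 := false) (s2 := false) (a := 0) (b := 2) (c := 2) (cn := .pp) (n1 := ndN0q0) (n2 := ndN4q2) (pc := pcN2) (cut := Cut.none) (xt := Ext.none) (P1 := 0) (W1 := 536870912) (P2 := 1073741824) (W2 := 536870912) (P3 := 469762048) (W3 := 67108864) (N0 := 3)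
    rfl k0_mm_022

noncomputable def f_mm_023 : ℕ → ℕ → ℕ → ℕ → Bool := onCell 0 536870912 1073741824 536870912 469762048 67108864
    (rowN 3 0 true false false .up 0 2 3 (qsf 0 536870912 1073741824 536870912 3) ndN0q0 ndN4q2 pcN3 Cut.none Ext.none)

def k0_mm_023 : ∃ t, chk3 f_mm_023 t 1 1 1 = true :=
  ⟨(l 4), by decide +kernel⟩

theorem c_mm_023 : CertN 0 536870912 1073741824 536870912 469762048 67108864 3 true false false .up 0 2 3
    ndN0q0 ndN4q2 pcN3 Cut.none Ext.none :=
  certN0 (fam := true) (s1 := false) (s2 := false) (a := 0) (b := 2) (c := 3) (cn := .up) (n1 := ndN0q0) (n2 := ndN4q2) (pc := pcN3) (cut := Cut.none) (xt := Ext.none) (P1 := 0) (W1 := 536870912) (P2 := 1073741824) (W2 := 536870912) (P3 := 469762048) (W3 := 67108864) (N0 := 3)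
    rfl k0_mm_023

noncomputable def f_mm_033 : ℕ → ℕ → ℕ → ℕ → Bool := onCell 0 536870912 0 1230186008 469762048 67108864
    (rowN 3 0 true false false .pnn 0 3 3 (qsf 0 536870912 0 1230186008 3) ndN0q0 ndN4q3 pcN3 Cut.none Ext.none)

def k0_mm_033 : ∃ t, chk3 f_mm_033 t 1 1 1 = true :=
  ⟨(l 4), by decide +kernel⟩

theorem c_mm_033 : CertN 0 536870912 0 1230186008 469762048 67108864 3 true false false .pnn 0 3 3
    ndN0q0 ndN4q3 pcN3 Cut.none Ext.none :=
  certN0 (fam := true) (s1 := false) (s2 := false) (a := 0) (b := 3) (c := 3) (cn := .pnn) (n1 := ndN0q0) (n2 := ndN4q3) (pc := pcN3) (cut := Cut.none) (xt := Ext.none) (P1 := 0) (W1 := 536870912) (P2 := 0) (W2 := 1230186008) (P3 := 469762048) (W3 := 67108864) (N0 := 3)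
    rfl k0_mm_033

noncomputable def f_mm_101 : ℕ → ℕ → ℕ → ℕ → Bool := onCell 536870912 536870912 0 536870912 469762048 67108864
    (rowN 3 0 true false false .npn 1 0 1 (qsf 536870912 536870912 0 536870912 1) ndN0q1 ndN4q0 pcN1 Cut.none Ext.none)

def k0_mm_101 : ∃ t, chk3 f_mm_101 t 1 1 1 = true :=
  ⟨(l 4), by decide +kernel⟩

theorem c_mm_101 : CertN 536870912 536870912 0 536870912 469762048 67108864 3 true false false .npn 1 0 1
    ndN0q1 ndN4q0 pcN1 Cut.none Ext.none :=
  certN0 (fam := true) (s1 := false) (s2 := false) (a := 1) (b := 0) (c := 1) (cn := .npn) (n1 := ndN0q1) (n2 := ndN4q0) (pc := pcN1) (cut := Cut.none) (xt := Ext.none) (P1 := 536870912) (W1 := 536870912) (P2 := 0) (W2 := 536870912) (P3 := 469762048) (W3 := 67108864) (N0 := 3)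
    rfl k0_mm_101

noncomputable def f_mm_102 : ℕ → ℕ → ℕ → ℕ → Bool := onCell 536870912 536870912 0 536870912 469762048 67108864
    (rowN 3 0 true false false .npp 1 0 2 (qsf 536870912 536870912 0 536870912 2) ndN0q1 ndN4q0 pcN2 Cut.none Ext.none)

def k0_mm_102 : ∃ t, chk3 f_mm_102 t 1 1 1 = true :=
  ⟨(l 4), by decide +kernel⟩

theorem c_mm_102 : CertN 536870912 536870912 0 536870912 469762048 67108864 3 true false false .npp 1 0 2
    ndN0q1 ndN4q0 pcN2 Cut.none Ext.none :=
  certN0 (fam := true) (s1 := false) (s2 := false) (a := 1) (b := 0) (c := 2) (cn := .npp) (n1 := ndN0q1) (n2 := ndN4q0) (pc := pcN2) (cut := Cut.none) (xt := Ext.none) (P1 := 536870912) (W1 := 536870912) (P2 := 0) (W2 := 536870912) (P3 := 469762048) (W3 := 67108864) (N0 := 3)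
    rfl k0_mm_102

noncomputable def f_mm_112 : ℕ → ℕ → ℕ → ℕ → Bool := onCell 536870912 536870912 536870912 536870912 469762048 67108864
    (rowN 3 0 true false false .dn 1 1 2 (qsf 536870912 536870912 536870912 536870912 2) ndN0q1 ndN4q1 pcN2 Cut.none Ext.none)

def k0_mm_112 : ∃ t, chk3 f_mm_112 t 1 1 1 = true :=
  ⟨(l 4), by decide +kernel⟩

theorem c_mm_112 : CertN 536870912 536870912 536870912 536870912 469762048 67108864 3 true false false .dn 1 1 2
    ndN0q1 ndN4q1 pcN2 Cut.none Ext.none :=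
  certN0 (fam := true) (s1 := false) (s2 := false) (a := 1) (b := 1) (c := 2) (cn := .dn) (n1 := ndN0q1) (n2 := ndN4q1) (pc := pcN2) (cut := Cut.none) (xt := Ext.none) (P1 := 536870912) (W1 := 536870912) (P2 := 536870912) (W2 := 536870912) (P3 := 469762048) (W3 := 67108864) (N0 := 3)
    rfl k0_mm_112

noncomputable def f_mm_113 : ℕ → ℕ → ℕ → ℕ → Bool := onCell 536870912 536870912 536870912 536870912 469762048 67108864
    (rowN 3 0 true false false .nn 1 1 3 (qsf 536870912 536870912 536870912 536870912 3) ndN0q1 ndN4q1 pcN3 Cut.none Ext.none)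

def k0_mm_113 : ∃ t, chk3 f_mm_113 t 1 1 1 = true :=
  ⟨(l 4), by decide +kernel⟩

theorem c_mm_113 : CertN 536870912 536870912 536870912 536870912 469762048 67108864 3 true false false .nn 1 1 3
    ndN0q1 ndN4q1 pcN3 Cut.none Ext.none :=
  certN0 (fam := true) (s1 := false) (s2 := false) (a := 1) (b := 1) (c := 3) (cn := .nn) (n1 := ndN0q1) (n2 := ndN4q1) (pc := pcN3) (cut := Cut.none) (xt := Ext.none) (P1 := 536870912) (W1 := 536870912) (P2 := 536870912) (W2 := 536870912) (P3 := 469762048) (W3 := 67108864) (N0 := 3)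
    rfl k0_mm_113

noncomputable def f_mm_123 : ℕ → ℕ → ℕ → ℕ → Bool := onCell 536870912 536870912 1073741824 536870912 469762048 67108864
    (rowN 3 0 true false false .npn 1 2 3 (qsf 536870912 536870912 1073741824 536870912 3) ndN0q1 ndN4q2 pcN3 Cut.none Ext.none)

def k0_mm_123 : ∃ t, chk3 f_mm_123 t 1 1 1 = true :=
  ⟨(l 4), by decide +kernel⟩

theorem c_mm_123 : CertN 536870912 536870912 1073741824 536870912 469762048 67108864 3 true false false .npn 1 2 3
    ndN0q1 ndN4q2 pcN3 Cut.none Ext.none :=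
  certN0 (fam := true) (s1 := false) (s2 := false) (a := 1) (b := 2) (c := 3) (cn := .npn) (n1 := ndN0q1) (n2 := ndN4q2) (pc := pcN3) (cut := Cut.none) (xt := Ext.none) (P1 := 536870912) (W1 := 536870912) (P2 := 1073741824) (W2 := 536870912) (P3 := 469762048) (W3 := 67108864) (N0 := 3)
    rfl k0_mm_123

noncomputable def f_mm_133 : ℕ → ℕ → ℕ → ℕ → Bool := onCell 536870912 536870912 0 1230186008 469762048 67108864
    (rowN 3 0 true false false .dn 1 3 3 (qsf 536870912 536870912 0 1230186008 3) ndN0q1 ndN4q3 pcN3 Cut.none Ext.none)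

def k0_mm_133 : ∃ t, chk3 f_mm_133 t 1 1 1 = true :=
  ⟨(l 4), by decide +kernel⟩

theorem c_mm_133 : CertN 536870912 536870912 0 1230186008 469762048 67108864 3 true false false .dn 1 3 3
    ndN0q1 ndN4q3 pcN3 Cut.none Ext.none :=
  certN0 (fam := true) (s1 := false) (s2 := false) (a := 1) (b := 3) (c := 3) (cn := .dn) (n1 := ndN0q1) (n2 := ndN4q3) (pc := pcN3) (cut := Cut.none) (xt := Ext.none) (P1 := 536870912) (W1 := 536870912) (P2 := 0) (W2 := 1230186008) (P3 := 469762048) (W3 := 67108864) (N0 := 3)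
    rfl k0_mm_133

noncomputable def f_mm_202 : ℕ → ℕ → ℕ → ℕ → Bool := onCell 0 536870912 0 536870912 469762048 67108864
    (rowN 3 0 true false false .pp 2 0 2 (qsf 0 536870912 0 536870912 2) ndN0q2 ndN4q0 pcN2 Cut.none Ext.none)

def k0_mm_202 : ∃ t, chk3 f_mm_202 t 1 1 1 = true :=
  ⟨(l 4), by decide +kernel⟩

theorem c_mm_202 : CertN 0 536870912 0 536870912 469762048 67108864 3 true false false .pp 2 0 2
    ndN0q2 ndN4q0 pcN2 Cut.none Ext.none :=
  certN0 (fam := true) (s1 := false) (s2 := false) (a := 2) (b := 0) (c := 2) (cn := .pp) (n1 := ndN0q2) (n2 := ndN4q0) (pc := pcN2) (cut := Cut.none) (xt := Ext.none) (P1 := 0) (W1 := 536870912) (P2 := 0) (W2 := 536870912) (P3 := 469762048) (W3 := 67108864) (N0 := 3)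
    rfl k0_mm_202

noncomputable def f_mm_203 : ℕ → ℕ → ℕ → ℕ → Bool := onCell 0 536870912 0 536870912 469762048 67108864
    (rowN 3 0 true false false .up 2 0 3 (qsf 0 536870912 0 536870912 3) ndN0q2 ndN4q0 pcN3 Cut.none Ext.none)

def k0_mm_203 : ∃ t, chk3 f_mm_203 t 1 1 1 = true :=
  ⟨(l 4), by decide +kernel⟩

theorem c_mm_203 : CertN 0 536870912 0 536870912 469762048 67108864 3 true false false .up 2 0 3
    ndN0q2 ndN4q0 pcN3 Cut.none Ext.none :=
  certN0 (fam := true) (s1 := false) (s2 := false) (a := 2) (b := 0) (c := 3) (cn := .up) (n1 := ndN0q2) (n2 := ndN4q0) (pc := pcN3) (cut := Cut.none) (xt := Ext.none) (P1 := 0) (W1 := 536870912) (P2 := 0) (W2 := 536870912) (P3 := 469762048) (W3 := 67108864) (N0 := 3)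
    rfl k0_mm_203

noncomputable def f_mm_213 : ℕ → ℕ → ℕ → ℕ → Bool := onCell 0 536870912 536870912 536870912 469762048 67108864
    (rowN 3 0 true false false .pnn 2 1 3 (qsf 0 536870912 536870912 536870912 3) ndN0q2 ndN4q1 pcN3 Cut.none Ext.none)

def k0_mm_213 : ∃ t, chk3 f_mm_213 t 1 1 1 = true :=
  ⟨(l 4), by decide +kernel⟩

theorem c_mm_213 : CertN 0 536870912 536870912 536870912 469762048 67108864 3 true false false .pnn 2 1 3
    ndN0q2 ndN4q1 pcN3 Cut.none Ext.none :=
  certN0 (fam := true) (s1 := false) (s2 := false) (a := 2) (b := 1) (c := 3) (cn := .pnn) (n1 := ndN0q2) (n2 := ndN4q1) (pc := pcN3) (cut := Cut.none) (xt := Ext.none) (P1 := 0) (W1 := 536870912) (P2 := 536870912) (W2 := 536870912) (P3 := 469762048) (W3 := 67108864) (N0 := 3)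
    rfl k0_mm_213

end Pool.Agent.Strip051.G.I7_16_1_2.Tab.C.NA04

namespace Pool.Agent.Strip051.G.I7_16_1_2.Tab.C.NA11

open Pool.Agent.Strip051.PB Pool.Agent.Strip051.PB.T
open Pool.Agent.Strip051.G.I7_16_1_2.Tab

noncomputable def f_pp_001 : ℕ → ℕ → ℕ → ℕ → Bool := onCell 0 536870912 0 536870912 469762048 67108864
    (rowN 3 0 true true true .up 0 0 1 (qsf 0 536870912 0 536870912 1) ndN1q0 ndN1q0 pcN1 Cut.none Ext.none)

def k0_pp_001 : ∃ t, chk3 f_pp_001 t 1 1 1 = true :=
  ⟨(l 4), by decide +kernel⟩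

theorem c_pp_001 : CertN 0 536870912 0 536870912 469762048 67108864 3 true true true .up 0 0 1
    ndN1q0 ndN1q0 pcN1 Cut.none Ext.none :=
  certN0 (fam := true) (s1 := true) (s2 := true) (a := 0) (b := 0) (c := 1) (cn := .up) (n1 := ndN1q0) (n2 := ndN1q0) (pc := pcN1) (cut := Cut.none) (xt := Ext.none) (P1 := 0) (W1 := 536870912) (P2 := 0) (W2 := 536870912) (P3 := 469762048) (W3 := 67108864) (N0 := 3)
    rfl k0_pp_001

noncomputable def f_pp_011 : ℕ → ℕ → ℕ → ℕ → Bool := onCell 0 536870912 536870912 536870912 469762048 67108864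
    (rowN 3 0 true true true .pnn 0 1 1 (qsf 0 536870912 536870912 536870912 1) ndN1q0 ndN1q1 pcN1 Cut.none Ext.none)

def k0_pp_011 : ∃ t, chk3 f_pp_011 t 1 1 1 = true :=
  ⟨(l 4), by decide +kernel⟩

theorem c_pp_011 : CertN 0 536870912 536870912 536870912 469762048 67108864 3 true true true .pnn 0 1 1
    ndN1q0 ndN1q1 pcN1 Cut.none Ext.none :=
  certN0 (fam := true) (s1 := true) (s2 := true) (a := 0) (b := 1) (c := 1) (cn := .pnn) (n1 := ndN1q0) (n2 := ndN1q1) (pc := pcN1) (cut := Cut.none) (xt := Ext.none) (P1 := 0) (W1 := 536870912) (P2 := 536870912) (W2 := 536870912) (P3 := 469762048) (W3 := 67108864) (N0 := 3)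
    rfl k0_pp_011

noncomputable def f_pp_012 : ℕ → ℕ → ℕ → ℕ → Bool := onCell 0 536870912 536870912 536870912 469762048 67108864
    (rowN 3 0 true true true .pnp 0 1 2 (qsf 0 536870912 536870912 536870912 2) ndN1q0 ndN1q1 pcN2 Cut.none Ext.none)

def k0_pp_012 : ∃ t, chk3 f_pp_012 t 1 1 1 = true :=
  ⟨(l 4), by decide +kernel⟩

theorem c_pp_012 : CertN 0 536870912 536870912 536870912 469762048 67108864 3 true true true .pnp 0 1 2
    ndN1q0 ndN1q1 pcN2 Cut.none Ext.none :=
  certN0 (fam := true) (s1 := true) (s2 := true) (a := 0) (b := 1) (c := 2) (cn := .pnp) (n1 := ndN1q0) (n2 := ndN1q1) (pc := pcN2) (cut := Cut.none) (xt := Ext.none) (P1 := 0) (W1 := 536870912) (P2 := 536870912) (W2 := 536870912) (P3 := 469762048) (W3 := 67108864) (N0 := 3)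
    rfl k0_pp_012

noncomputable def cut_pp_022_a : Cut := Cut.of [[⟨0, 0, 0, 67108864⟩, ⟨1, 1, 0, 67108864⟩, ⟨2, 1, 0, 67108864⟩]]

noncomputable def f_pp_022_a : ℕ → ℕ → ℕ → ℕ → Bool := onCell 0 536870912 0 536870912 469762048 67108864
    (rowN 3 0 true true true .pp 0 2 2 (qsf 0 536870912 0 536870912 2) ndN1q0 ndN1q2a pcN2 cut_pp_022_a Ext.none)

def k0_pp_022_a : ∃ t, chk3 f_pp_022_a t 1 1 1 = true :=
  ⟨(a (b (a (a (b (a (a (b (l 16454296) (l 16462344)) (l 16463976)) (l 16533696)) (a (a (b (l 16543032) (a (l 16547920) (l 16510120))) (a (l 16626104) (l 16587752))) (a (l 16634800) (l 16653208)))) (a (b (l 16507808) (a (l 16651728) (l 16647176))) (b (l 16547184) (l 4)))) (a (b (a (l 16576632) (l 4)) (l 4)) (l 4))) (a (b (a (b (a (a (a (b (l 16533328) (l 16555488)) (l 16570240)) (l 16618944)) (a (l 16612776) (l 16588392))) (a (a (a (b (l 16622648) (c (l 16652744) (l 16649264))) (b (l 16585920) (l 16614696))) (a (l 16679128) (l 16697104))) (a (l 16728200) (l 4)))) (l 4)) (a (a (a (b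 (a (b (a (b (l 16631080) (l 16647840)) (l 16663480)) (b (b (l 16694000) (l 6)) (l 6))) (b (l 16688864) (b (l 16694528) (l 16713880)))) (l 6)) (b (a (b (l 16674888) (l 4)) (l 4)) (l 4))) (l 4)) (l 4))) (l 4))) (l 4)), by decide +kernel⟩

theorem c_pp_022_a : CertN 0 536870912 0 536870912 469762048 67108864 3 true true true .pp 0 2 2
    ndN1q0 ndN1q2a pcN2 cut_pp_022_a Ext.none :=
  certN0 (fam := true) (s1 := true) (s2 := true) (a := 0) (b := 2) (c := 2) (cn := .pp) (n1 := ndN1q0) (n2 := ndN1q2a) (pc := pcN2) (cut := cut_pp_022_a) (xt := Ext.none) (P1 := 0) (W1 := 536870912) (P2 := 0) (W2 := 536870912) (P3 := 469762048) (W3 := 67108864) (N0 := 3)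
    rfl k0_pp_022_a

noncomputable def cut_pp_022_b : Cut := Cut.of [[⟨0, 0, 0, 67108864⟩, ⟨1, 1, 0, 67108864⟩, ⟨2, 1, 0, 67108864⟩]]

noncomputable def f_pp_022_b : ℕ → ℕ → ℕ → ℕ → Bool := onCell 0 536870912 1239849684 370763052 469762048 67108864
    (rowN 3 0 true true true .pp 0 2 2 (qsf 0 536870912 1239849684 370763052 2) ndN1q0 ndN1q2b pcN2 cut_pp_022_b Ext.none)

def k0_pp_022_b : ∃ t, chk3 f_pp_022_b t 1 1 1 = true :=
  ⟨(a (b (a (b (b (a (a (b (a (l 16430592) (l 16434464)) (l 16472000)) (l 16501360)) (a (l 16440664) (l 16484336))) (a (a (a (l 16384144) (l 16326248)) (l 16355240)) (a (l 16347624) (l 16377040)))) (a (a (b (l 16369568) (l 16257400)) (b (l 16260224) (l 16202744))) (a (b (l 16290064) (l 16257264)) (l 4)))) (a (b (b (a (l 16514016) (l 4)) (l 4)) (l 4)) (l 4))) (a (a (b (b (a (l 16180448) (l 16171072)) (a (l 16171048) (l 4))) (a (b (l 16088992) (l 4)) (l 4))) (l 4)) (l 4))) (l 4)), by decide +kernel⟩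

theorem c_pp_022_b : CertN 0 536870912 1239849684 370763052 469762048 67108864 3 true true true .pp 0 2 2
    ndN1q0 ndN1q2b pcN2 cut_pp_022_b Ext.none :=
  certN0 (fam := true) (s1 := true) (s2 := true) (a := 0) (b := 2) (c := 2) (cn := .pp) (n1 := ndN1q0) (n2 := ndN1q2b) (pc := pcN2) (cut := cut_pp_022_b) (xt := Ext.none) (P1 := 0) (W1 := 536870912) (P2 := 1239849684) (W2 := 370763052) (P3 := 469762048) (W3 := 67108864) (N0 := 3)
    rfl k0_pp_022_b

noncomputable def f_pp_023_a : ℕ → ℕ → ℕ → ℕ → Bool := onCell 1610612736 536870912 0 536870912 469762048 67108864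
    (rowN 3 2 true true true .up 0 2 3 (qsf 0 536870912 0 536870912 3) ndN1q0 ndN1q2a pcN3 Cut.none Ext.none)

def k0_pp_023_a : ∃ t, chk3 f_pp_023_a t 1 1 1 = true :=
  ⟨(l 4), by decide +kernel⟩

theorem c_pp_023_a : CertN 0 536870912 0 536870912 469762048 67108864 3 true true true .up 0 2 3
    ndN1q0 ndN1q2a pcN3 Cut.none Ext.none :=
  certN2 (fam := true) (s1 := true) (s2 := true) (a := 0) (b := 2) (c := 3) (cn := .up) (n1 := ndN1q0) (n2 := ndN1q2a) (pc := pcN3) (cut := Cut.none) (xt := Ext.none) (P1 := 0) (W1 := 536870912) (P2 := 0) (W2 := 536870912) (P3 := 469762048) (W3 := 67108864) (N0 := 3)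
    rfl (fun _ => rfl) k0_pp_023_a

noncomputable def f_pp_023_b : ℕ → ℕ → ℕ → ℕ → Bool := onCell 1610612736 536870912 1239849684 370763052 469762048 67108864
    (rowN 3 2 true true true .up 0 2 3 (qsf 0 536870912 1239849684 370763052 3) ndN1q0 ndN1q2b pcN3 Cut.none Ext.none)

def k0_pp_023_b : ∃ t, chk3 f_pp_023_b t 1 1 1 = true :=
  ⟨(a (l 4) (l 4)), by decide +kernel⟩

theorem c_pp_023_b : CertN 0 536870912 1239849684 370763052 469762048 67108864 3 true true true .up 0 2 3
    ndN1q0 ndN1q2b pcN3 Cut.none Ext.none :=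
  certN2 (fam := true) (s1 := true) (s2 := true) (a := 0) (b := 2) (c := 3) (cn := .up) (n1 := ndN1q0) (n2 := ndN1q2b) (pc := pcN3) (cut := Cut.none) (xt := Ext.none) (P1 := 0) (W1 := 536870912) (P2 := 1239849684) (W2 := 370763052) (P3 := 469762048) (W3 := 67108864) (N0 := 3)
    rfl (fun _ => rfl) k0_pp_023_b

noncomputable def f_pp_033 : ℕ → ℕ → ℕ → ℕ → Bool := onCell 0 536870912 1610612736 536870912 469762048 67108864
    (rowN 3 0 true true true .pnn 0 3 3 (qsf 0 536870912 1610612736 536870912 3) ndN1q0 ndN1q3 pcN3 Cut.none Ext.none)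

def k0_pp_033 : ∃ t, chk3 f_pp_033 t 1 1 1 = true :=
  ⟨(a (b (l 4) (l 4)) (l 4)), by decide +kernel⟩

theorem c_pp_033 : CertN 0 536870912 1610612736 536870912 469762048 67108864 3 true true true .pnn 0 3 3
    ndN1q0 ndN1q3 pcN3 Cut.none Ext.none :=
  certN0 (fam := true) (s1 := true) (s2 := true) (a := 0) (b := 3) (c := 3) (cn := .pnn) (n1 := ndN1q0) (n2 := ndN1q3) (pc := pcN3) (cut := Cut.none) (xt := Ext.none) (P1 := 0) (W1 := 536870912) (P2 := 1610612736) (W2 := 536870912) (P3 := 469762048) (W3 := 67108864) (N0 := 3)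
    rfl k0_pp_033

noncomputable def f_pp_101 : ℕ → ℕ → ℕ → ℕ → Bool := onCell 536870912 536870912 0 536870912 469762048 67108864
    (rowN 3 0 true true true .npn 1 0 1 (qsf 536870912 536870912 0 536870912 1) ndN1q1 ndN1q0 pcN1 Cut.none Ext.none)

def k0_pp_101 : ∃ t, chk3 f_pp_101 t 1 1 1 = true :=
  ⟨(l 4), by decide +kernel⟩

theorem c_pp_101 : CertN 536870912 536870912 0 536870912 469762048 67108864 3 true true true .npn 1 0 1
    ndN1q1 ndN1q0 pcN1 Cut.none Ext.none :=
  certN0 (fam := true) (s1 := true) (s2 := true) (a := 1) (b := 0) (c := 1) (cn := .npn) (n1 := ndN1q1) (n2 := ndN1q0) (pc := pcN1) (cut := Cut.none) (xt := Ext.none) (P1 := 536870912) (W1 := 536870912) (P2 := 0) (W2 := 536870912) (P3 := 469762048) (W3 := 67108864) (N0 := 3)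
    rfl k0_pp_101

noncomputable def f_pp_102 : ℕ → ℕ → ℕ → ℕ → Bool := onCell 536870912 536870912 0 536870912 469762048 67108864
    (rowN 3 0 true true true .npp 1 0 2 (qsf 536870912 536870912 0 536870912 2) ndN1q1 ndN1q0 pcN2 Cut.none Ext.none)

def k0_pp_102 : ∃ t, chk3 f_pp_102 t 1 1 1 = true :=
  ⟨(l 4), by decide +kernel⟩

theorem c_pp_102 : CertN 536870912 536870912 0 536870912 469762048 67108864 3 true true true .npp 1 0 2
    ndN1q1 ndN1q0 pcN2 Cut.none Ext.none :=
  certN0 (fam := true) (s1 := true) (s2 := true) (a := 1) (b := 0) (c := 2) (cn := .npp) (n1 := ndN1q1) (n2 := ndN1q0) (pc := pcN2) (cut := Cut.none) (xt := Ext.none) (P1 := 536870912) (W1 := 536870912) (P2 := 0) (W2 := 536870912) (P3 := 469762048) (W3 := 67108864) (N0 := 3)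
    rfl k0_pp_102

noncomputable def f_pp_112 : ℕ → ℕ → ℕ → ℕ → Bool := onCell 536870912 536870912 536870912 536870912 469762048 67108864
    (rowN 3 0 true true true .dn 1 1 2 (qsf 536870912 536870912 536870912 536870912 2) ndN1q1 ndN1q1 pcN2 Cut.none Ext.none)

def k0_pp_112 : ∃ t, chk3 f_pp_112 t 1 1 1 = true :=
  ⟨(l 4), by decide +kernel⟩

theorem c_pp_112 : CertN 536870912 536870912 536870912 536870912 469762048 67108864 3 true true true .dn 1 1 2
    ndN1q1 ndN1q1 pcN2 Cut.none Ext.none :=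
  certN0 (fam := true) (s1 := true) (s2 := true) (a := 1) (b := 1) (c := 2) (cn := .dn) (n1 := ndN1q1) (n2 := ndN1q1) (pc := pcN2) (cut := Cut.none) (xt := Ext.none) (P1 := 536870912) (W1 := 536870912) (P2 := 536870912) (W2 := 536870912) (P3 := 469762048) (W3 := 67108864) (N0 := 3)
    rfl k0_pp_112

noncomputable def f_pp_113 : ℕ → ℕ → ℕ → ℕ → Bool := onCell 536870912 536870912 536870912 536870912 469762048 67108864
    (rowN 3 0 true true true .nn 1 1 3 (qsf 536870912 536870912 536870912 536870912 3) ndN1q1 ndN1q1 pcN3 Cut.none Ext.none)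

def k0_pp_113 : ∃ t, chk3 f_pp_113 t 1 1 1 = true :=
  ⟨(l 4), by decide +kernel⟩

theorem c_pp_113 : CertN 536870912 536870912 536870912 536870912 469762048 67108864 3 true true true .nn 1 1 3
    ndN1q1 ndN1q1 pcN3 Cut.none Ext.none :=
  certN0 (fam := true) (s1 := true) (s2 := true) (a := 1) (b := 1) (c := 3) (cn := .nn) (n1 := ndN1q1) (n2 := ndN1q1) (pc := pcN3) (cut := Cut.none) (xt := Ext.none) (P1 := 536870912) (W1 := 536870912) (P2 := 536870912) (W2 := 536870912) (P3 := 469762048) (W3 := 67108864) (N0 := 3)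
    rfl k0_pp_113

noncomputable def f_pp_123_a : ℕ → ℕ → ℕ → ℕ → Bool := onCell 536870912 536870912 0 536870912 469762048 67108864
    (rowN 3 0 true true true .npn 1 2 3 (qsf 536870912 536870912 0 536870912 3) ndN1q1 ndN1q2a pcN3 Cut.none Ext.none)

def k0_pp_123_a : ∃ t, chk3 f_pp_123_a t 1 1 1 = true :=
  ⟨(l 4), by decide +kernel⟩

theorem c_pp_123_a : CertN 536870912 536870912 0 536870912 469762048 67108864 3 true true true .npn 1 2 3
    ndN1q1 ndN1q2a pcN3 Cut.none Ext.none :=
  certN0 (fam := true) (s1 := true) (s2 := true) (a := 1) (b := 2) (c := 3) (cn := .npn) (n1 := ndN1q1) (n2 := ndN1q2a) (pc := pcN3) (cut := Cut.none) (xt := Ext.none) (P1 := 536870912) (W1 := 536870912) (P2 := 0) (W2 := 536870912) (P3 := 469762048) (W3 := 67108864) (N0 := 3)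
    rfl k0_pp_123_a

noncomputable def f_pp_123_b : ℕ → ℕ → ℕ → ℕ → Bool := onCell 536870912 536870912 1239849684 370763052 469762048 67108864
    (rowN 3 0 true true true .npn 1 2 3 (qsf 536870912 536870912 1239849684 370763052 3) ndN1q1 ndN1q2b pcN3 Cut.none Ext.none)

def k0_pp_123_b : ∃ t, chk3 f_pp_123_b t 1 1 1 = true :=
  ⟨(l 4), by decide +kernel⟩

theorem c_pp_123_b : CertN 536870912 536870912 1239849684 370763052 469762048 67108864 3 true true true .npn 1 2 3
    ndN1q1 ndN1q2b pcN3 Cut.none Ext.none :=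
  certN0 (fam := true) (s1 := true) (s2 := true) (a := 1) (b := 2) (c := 3) (cn := .npn) (n1 := ndN1q1) (n2 := ndN1q2b) (pc := pcN3) (cut := Cut.none) (xt := Ext.none) (P1 := 536870912) (W1 := 536870912) (P2 := 1239849684) (W2 := 370763052) (P3 := 469762048) (W3 := 67108864) (N0 := 3)
    rfl k0_pp_123_b

noncomputable def f_pp_133 : ℕ → ℕ → ℕ → ℕ → Bool := onCell 536870912 536870912 1610612736 536870912 469762048 67108864
    (rowN 3 0 true true true .dn 1 3 3 (qsf 536870912 536870912 1610612736 536870912 3) ndN1q1 ndN1q3 pcN3 Cut.none Ext.none)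

def k0_pp_133 : ∃ t, chk3 f_pp_133 t 1 1 1 = true :=
  ⟨(l 4), by decide +kernel⟩

theorem c_pp_133 : CertN 536870912 536870912 1610612736 536870912 469762048 67108864 3 true true true .dn 1 3 3
    ndN1q1 ndN1q3 pcN3 Cut.none Ext.none :=
  certN0 (fam := true) (s1 := true) (s2 := true) (a := 1) (b := 3) (c := 3) (cn := .dn) (n1 := ndN1q1) (n2 := ndN1q3) (pc := pcN3) (cut := Cut.none) (xt := Ext.none) (P1 := 536870912) (W1 := 536870912) (P2 := 1610612736) (W2 := 536870912) (P3 := 469762048) (W3 := 67108864) (N0 := 3)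
    rfl k0_pp_133

noncomputable def f_pp_202_a : ℕ → ℕ → ℕ → ℕ → Bool := onCell 0 536870912 0 536870912 469762048 67108864
    (rowN 3 0 true true true .pp 2 0 2 (qsf 0 536870912 0 536870912 2) ndN1q2a ndN1q0 pcN2 Cut.none Ext.none)

def k0_pp_202_a : ∃ t, chk3 f_pp_202_a t 1 1 1 = true :=
  ⟨(l 5), by decide +kernel⟩

theorem c_pp_202_a : CertN 0 536870912 0 536870912 469762048 67108864 3 true true true .pp 2 0 2
    ndN1q2a ndN1q0 pcN2 Cut.none Ext.none :=
  certN0 (fam := true) (s1 := true) (s2 := true) (a := 2) (b := 0) (c := 2) (cn := .pp) (n1 := ndN1q2a) (n2 := ndN1q0) (pc := pcN2) (cut := Cut.none) (xt := Ext.none) (P1 := 0) (W1 := 536870912) (P2 := 0) (W2 := 536870912) (P3 := 469762048) (W3 := 67108864) (N0 := 3)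
    rfl k0_pp_202_a

noncomputable def f_pp_202_b : ℕ → ℕ → ℕ → ℕ → Bool := onCell 1239849684 370763052 0 536870912 469762048 67108864
    (rowN 3 0 true true true .pp 2 0 2 (qsf 1239849684 370763052 0 536870912 2) ndN1q2b ndN1q0 pcN2 Cut.none Ext.none)

def k0_pp_202_b : ∃ t, chk3 f_pp_202_b t 1 1 1 = true :=
  ⟨(l 5), by decide +kernel⟩

theorem c_pp_202_b : CertN 1239849684 370763052 0 536870912 469762048 67108864 3 true true true .pp 2 0 2
    ndN1q2b ndN1q0 pcN2 Cut.none Ext.none :=
  certN0 (fam := true) (s1 := true) (s2 := true) (a := 2) (b := 0) (c := 2) (cn := .pp) (n1 := ndN1q2b) (n2 := ndN1q0) (pc := pcN2) (cut := Cut.none) (xt := Ext.none) (P1 := 1239849684) (W1 := 370763052) (P2 := 0) (W2 := 536870912) (P3 := 469762048) (W3 := 67108864) (N0 := 3)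
    rfl k0_pp_202_b

noncomputable def f_pp_203_a : ℕ → ℕ → ℕ → ℕ → Bool := onCell 0 536870912 0 536870912 469762048 67108864
    (rowN 3 0 true true true .up 2 0 3 (qsf 0 536870912 0 536870912 3) ndN1q2a ndN1q0 pcN3 Cut.none Ext.none)

def k0_pp_203_a : ∃ t, chk3 f_pp_203_a t 1 1 1 = true :=
  ⟨(l 5), by decide +kernel⟩

theorem c_pp_203_a : CertN 0 536870912 0 536870912 469762048 67108864 3 true true true .up 2 0 3
    ndN1q2a ndN1q0 pcN3 Cut.none Ext.none :=
  certN0 (fam := true) (s1 := true) (s2 := true) (a := 2) (b := 0) (c := 3) (cn := .up) (n1 := ndN1q2a) (n2 := ndN1q0) (pc := pcN3) (cut := Cut.none) (xt := Ext.none) (P1 := 0) (W1 := 536870912) (P2 := 0) (W2 := 536870912) (P3 := 469762048) (W3 := 67108864) (N0 := 3)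
    rfl k0_pp_203_a

noncomputable def f_pp_203_b : ℕ → ℕ → ℕ → ℕ → Bool := onCell 1239849684 370763052 0 536870912 469762048 67108864
    (rowN 3 0 true true true .up 2 0 3 (qsf 1239849684 370763052 0 536870912 3) ndN1q2b ndN1q0 pcN3 Cut.none Ext.none)

def k0_pp_203_b : ∃ t, chk3 f_pp_203_b t 1 1 1 = true :=
  ⟨(l 5), by decide +kernel⟩

theorem c_pp_203_b : CertN 1239849684 370763052 0 536870912 469762048 67108864 3 true true true .up 2 0 3
    ndN1q2b ndN1q0 pcN3 Cut.none Ext.none :=
  certN0 (fam := true) (s1 := true) (s2 := true) (a := 2) (b := 0) (c := 3) (cn := .up) (n1 := ndN1q2b) (n2 := ndN1q0) (pc := pcN3) (cut := Cut.none) (xt := Ext.none) (P1 := 1239849684) (W1 := 370763052) (P2 := 0) (W2 := 536870912) (P3 := 469762048) (W3 := 67108864) (N0 := 3)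
    rfl k0_pp_203_b

noncomputable def f_pp_213_a : ℕ → ℕ → ℕ → ℕ → Bool := onCell 0 536870912 536870912 536870912 469762048 67108864
    (rowN 3 0 true true true .pnn 2 1 3 (qsf 0 536870912 536870912 536870912 3) ndN1q2a ndN1q1 pcN3 Cut.none Ext.none)

def k0_pp_213_a : ∃ t, chk3 f_pp_213_a t 1 1 1 = true :=
  ⟨(l 4), by decide +kernel⟩

theorem c_pp_213_a : CertN 0 536870912 536870912 536870912 469762048 67108864 3 true true true .pnn 2 1 3
    ndN1q2a ndN1q1 pcN3 Cut.none Ext.none :=
  certN0 (fam := true) (s1 := true) (s2 := true) (a := 2) (b := 1) (c := 3) (cn := .pnn) (n1 := ndN1q2a) (n2 := ndN1q1) (pc := pcN3) (cut := Cut.none) (xt := Ext.none) (P1 := 0) (W1 := 536870912) (P2 := 536870912) (W2 := 536870912) (P3 := 469762048) (W3 := 67108864) (N0 := 3)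
    rfl k0_pp_213_a

noncomputable def f_pp_213_b : ℕ → ℕ → ℕ → ℕ → Bool := onCell 1239849684 370763052 536870912 536870912 469762048 67108864
    (rowN 3 0 true true true .pnn 2 1 3 (qsf 1239849684 370763052 536870912 536870912 3) ndN1q2b ndN1q1 pcN3 Cut.none Ext.none)

def k0_pp_213_b : ∃ t, chk3 f_pp_213_b t 1 1 1 = true :=
  ⟨(l 4), by decide +kernel⟩

theorem c_pp_213_b : CertN 1239849684 370763052 536870912 536870912 469762048 67108864 3 true true true .pnn 2 1 3
    ndN1q2b ndN1q1 pcN3 Cut.none Ext.none :=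
  certN0 (fam := true) (s1 := true) (s2 := true) (a := 2) (b := 1) (c := 3) (cn := .pnn) (n1 := ndN1q2b) (n2 := ndN1q1) (pc := pcN3) (cut := Cut.none) (xt := Ext.none) (P1 := 1239849684) (W1 := 370763052) (P2 := 536870912) (W2 := 536870912) (P3 := 469762048) (W3 := 67108864) (N0 := 3)
    rfl k0_pp_213_b

noncomputable def f_pp_303 : ℕ → ℕ → ℕ → ℕ → Bool := onCell 1610612736 536870912 0 536870912 469762048 67108864
    (rowN 3 0 true true true .npn 3 0 3 (qsf 1610612736 536870912 0 536870912 3) ndN1q3 ndN1q0 pcN3 Cut.none Ext.none)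

def k0_pp_303 : ∃ t, chk3 f_pp_303 t 1 1 1 = true :=
  ⟨(l 5), by decide +kernel⟩

theorem c_pp_303 : CertN 1610612736 536870912 0 536870912 469762048 67108864 3 true true true .npn 3 0 3
    ndN1q3 ndN1q0 pcN3 Cut.none Ext.none :=
  certN0 (fam := true) (s1 := true) (s2 := true) (a := 3) (b := 0) (c := 3) (cn := .npn) (n1 := ndN1q3) (n2 := ndN1q0) (pc := pcN3) (cut := Cut.none) (xt := Ext.none) (P1 := 1610612736) (W1 := 536870912) (P2 := 0) (W2 := 536870912) (P3 := 469762048) (W3 := 67108864) (N0 := 3)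
    rfl k0_pp_303

noncomputable def f_pp_313 : ℕ → ℕ → ℕ → ℕ → Bool := onCell 1610612736 536870912 536870912 536870912 469762048 67108864
    (rowN 3 0 true true true .dn 3 1 3 (qsf 1610612736 536870912 536870912 536870912 3) ndN1q3 ndN1q1 pcN3 Cut.none Ext.none)

def k0_pp_313 : ∃ t, chk3 f_pp_313 t 1 1 1 = true :=
  ⟨(l 4), by decide +kernel⟩

theorem c_pp_313 : CertN 1610612736 536870912 536870912 536870912 469762048 67108864 3 true true true .dn 3 1 3
    ndN1q3 ndN1q1 pcN3 Cut.none Ext.none :=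
  certN0 (fam := true) (s1 := true) (s2 := true) (a := 3) (b := 1) (c := 3) (cn := .dn) (n1 := ndN1q3) (n2 := ndN1q1) (pc := pcN3) (cut := Cut.none) (xt := Ext.none) (P1 := 1610612736) (W1 := 536870912) (P2 := 536870912) (W2 := 536870912) (P3 := 469762048) (W3 := 67108864) (N0 := 3)
    rfl k0_pp_313

noncomputable def f_pm_001 : ℕ → ℕ → ℕ → ℕ → Bool := onCell 0 536870912 0 536870912 469762048 67108864
    (rowN 3 0 true true false .up 0 0 1 (qsf 0 536870912 0 536870912 1) ndN1q0 ndN1q0 pcN1 Cut.none Ext.none)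

def k0_pm_001 : ∃ t, chk3 f_pm_001 t 1 1 1 = true :=
  ⟨(l 3), by decide +kernel⟩

theorem c_pm_001 : CertN 0 536870912 0 536870912 469762048 67108864 3 true true false .up 0 0 1
    ndN1q0 ndN1q0 pcN1 Cut.none Ext.none :=
  certN0 (fam := true) (s1 := true) (s2 := false) (a := 0) (b := 0) (c := 1) (cn := .up) (n1 := ndN1q0) (n2 := ndN1q0) (pc := pcN1) (cut := Cut.none) (xt := Ext.none) (P1 := 0) (W1 := 536870912) (P2 := 0) (W2 := 536870912) (P3 := 469762048) (W3 := 67108864) (N0 := 3)
    rfl k0_pm_001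

noncomputable def f_pm_011 : ℕ → ℕ → ℕ → ℕ → Bool := onCell 0 536870912 536870912 536870912 469762048 67108864
    (rowN 3 1 true true false .pnn 0 1 1 (qsf 0 536870912 536870912 536870912 1) ndN1q0 ndN1q1 pcN1 Cut.none Ext.none)

def k0_pm_011 : ∃ t, chk3 f_pm_011 t 1 1 1 = true :=
  ⟨(l 3), by decide +kernel⟩

theorem c_pm_011 : CertN 0 536870912 536870912 536870912 469762048 67108864 3 true true false .pnn 0 1 1
    ndN1q0 ndN1q1 pcN1 Cut.none Ext.none :=
  certN1 (fam := true) (s1 := true) (s2 := false) (a := 0) (b := 1) (c := 1) (cn := .pnn) (n1 := ndN1q0) (n2 := ndN1q1) (pc := pcN1) (cut := Cut.none) (xt := Ext.none) (P1 := 0) (W1 := 536870912) (P2 := 536870912) (W2 := 536870912) (P3 := 469762048) (W3 := 67108864) (N0 := 3)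
    rfl (fun _ => rfl) k0_pm_011

noncomputable def f_pm_012 : ℕ → ℕ → ℕ → ℕ → Bool := onCell 1073741824 536870912 536870912 536870912 469762048 67108864
    (rowN 3 2 true true false .pnp 0 1 2 (qsf 0 536870912 536870912 536870912 2) ndN1q0 ndN1q1 pcN2 Cut.none Ext.none)

def k0_pm_012 : ∃ t, chk3 f_pm_012 t 1 1 1 = true :=
  ⟨(a (a (l 3) (b (a (a (a (l 3) (a (l 3) (a (l 3) (b (l 2) (a (l 16814968) (l 16814720)))))) (b (l 2) (l 16813000))) (b (l 2) (l 16810352))) (a (a (a (l 3) (a (l 3) (b (a (l 3) (a (l 178409592647) (l 16768224))) (a (b (l 16659984) (l 16550736)) (b (a (l 16655168) (l 16651672)) (a (l 16544632) (l 16540160))))))) (b (l 16794136) (b (l 16620936) (l 16500992)))) (b (l 16742248) (b (l 16522720) (l 16439104)))))) (b (b (l 2) (a (l 16815496) (l 2))) (b (a (l 16720936) (l 16724624)) (a (b (l 16443576) (l 16405280)) (b (l 16596016) (l 16439056)))))), by decide +kernel⟩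

theorem c_pm_012 : CertN 0 536870912 536870912 536870912 469762048 67108864 3 true true false .pnp 0 1 2
    ndN1q0 ndN1q1 pcN2 Cut.none Ext.none :=
  certN2 (fam := true) (s1 := true) (s2 := false) (a := 0) (b := 1) (c := 2) (cn := .pnp) (n1 := ndN1q0) (n2 := ndN1q1) (pc := pcN2) (cut := Cut.none) (xt := Ext.none) (P1 := 0) (W1 := 536870912) (P2 := 536870912) (W2 := 536870912) (P3 := 469762048) (W3 := 67108864) (N0 := 3)
    rfl (fun _ => rfl) k0_pm_012

end Pool.Agent.Strip051.G.I7_16_1_2.Tab.C.NA11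

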